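import Pool.Agent.PHD.Gen
import Pool.Agent.NUP1.LineRes

/-!
# Two full lines as a contour

`Ξ = Bool × ℝ`, `lM` = counting measure x Lebesgue, `lG x` = the point (`x true` = the right line,
`x false` = the left line), `lK` = tangent / `2 π i`.

* `int_w`: the weight `exp (-δ |t|)` is integrable;
* **`lines_resid`**: the residue theorem on two full lines for functions with decay;
* **`JJ_lines`**: the integral of `k` particles = the sum over the choices of the lines.
-/

set_option autoImplicit false

noncomputable section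

open Finset MeasureTheory Complex

namespace Pool.Agent.PHK

open Pool.Agent.PHD

/-- the two lines -/
def lM : Measure (Bool × ℝ) := (Measure.count : Measure Bool).prod volume

/-- the point of the plane -/
def lG (x : Bool → ℝ) (y : Bool × ℝ) : ℂ := (x y.1 : ℂ) + (y.2 : ℂ) * I

/-- tangent / `2 π i` -/
def lK (y : Bool × ℝ) : ℂ := (if y.1 then 1 else -1) / (2 * Real.pi)

instance : SigmaFinite lM := by unfold lM; infer_instance

theorem lG_re (x : Bool → ℝ) (y : Bool × ℝ) : (lG x y).re = x y.1 := by simp [lG]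

theorem lG_im (x : Bool → ℝ) (y : Bool × ℝ) : (lG x y).im = y.2 := by simp [lG]

theorem meas_bool {α β : Type*} [MeasurableSpace α] [MeasurableSpace β] {f : Bool × α → β}
    (hf : ∀ b, Measurable fun t => f (b, t)) : Measurable f :=
  measurable_from_prod_countable_right hf

theorem meas_lG (x : Bool → ℝ) : Measurable (lG x) := by
  refine meas_bool fun b => ?_
  unfold lG
  fun_prop

theorem meas_lK : Measurable lK := by
  refine meas_bool fun b => ?_
  cases b
  · exact measurable_const (a := (((if (false : Bool) = true then 1 else -1) : ℂ) / (2 * Real.pi)))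
  · exact measurable_const (a := (((if (true : Bool) = true then 1 else -1) : ℂ) / (2 * Real.pi)))

theorem norm_lK (y : Bool × ℝ) : ‖lK y‖ = 1 / (2 * Real.pi) := by
  have := Real.pi_pos
  unfold lK
  rw [norm_div]
  have e : ‖(2 * Real.pi : ℂ)‖ = 2 * Real.pi := by
    rw [norm_mul, Complex.norm_real, Real.norm_of_nonneg this.le]
    norm_num
  rw [e]
  rcases y with ⟨b, t⟩
  cases b <;> simp

theorem lM_eq : lM = (volume : Measure ℝ).map (Prod.mk true) + volume.map (Prod.mk false) := by
  unfold lM Measure.count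
  rw [Measure.sum_bool, Measure.add_prod, Measure.dirac_prod, Measure.dirac_prod]

/-- integrability on the two lines -/
theorem integrable_lM {E : Type*} [NormedAddCommGroup E] {f : Bool × ℝ → E} :
    Integrable f lM ↔ ∀ b, Integrable fun t => f (b, t) := by
  rw [lM_eq, integrable_add_measure,
    (measurableEmbedding_prodMk_left (β := ℝ) true).integrable_map_iff,
    (measurableEmbedding_prodMk_left (β := ℝ) false).integrable_map_iff]
  constructor
  · rintro ⟨h1, h2⟩ b
    cases b
    · exact h2
    · exact h1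
  · intro h
    exact ⟨h true, h false⟩

/-- integral over the two lines -/
theorem integral_lM {E : Type*} [NormedAddCommGroup E] [NormedSpace ℝ E] {f : Bool × ℝ → E}
    (hf : ∀ b, Integrable fun t => f (b, t)) :
    ∫ y, f y ∂lM = (∫ t, f (true, t)) + ∫ t, f (false, t) := by
  have h1 : Integrable f ((volume : Measure ℝ).map (Prod.mk true)) :=
    ((measurableEmbedding_prodMk_left (β := ℝ) true).integrable_map_iff).2 (hf true)
  have h2 : Integrable f ((volume : Measure ℝ).map (Prod.mk false)) :=
    ((measurableEmbedding_prodMk_left (β := ℝ) false).integrable_map_iff).2 (hf false)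
  rw [lM_eq, integral_add_measure h1 h2, (measurableEmbedding_prodMk_left true).integral_map,
    (measurableEmbedding_prodMk_left false).integral_map]

/-- the weight is integrable -/
theorem int_w {δ : ℝ} (hδ : 0 < δ) : Integrable (fun y : Bool × ℝ => Real.exp (-(δ * |y.2|))) lM := by
  rw [integrable_lM]
  intro b
  have := NUP1.integrable_exp_neg_abs hδ
  simpa [neg_mul] using this

/-! ## the residue theorem -/

/-- `sin z / z` -/
def sn (z : ℂ) : ℂ := dslope Complex.sin 0 z

theorem sn_diff : Differentiable ℂ sn := by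
  have h : DifferentiableOn ℂ (dslope Complex.sin 0) Set.univ :=
    (Complex.differentiableOn_dslope Filter.univ_mem).2 Complex.differentiable_sin.differentiableOn
  exact fun z => (h z (Set.mem_univ z)).differentiableAt Filter.univ_mem

theorem sn_zero : sn 0 = 1 := by
  unfold sn
  rw [dslope_same, Complex.deriv_sin, Complex.cos_zero]

theorem sn_ne {z : ℂ} (h : z ≠ 0) : sn z = Complex.sin z / z := by
  unfold sn
  rw [dslope_of_ne _ h, slope_def_field, Complex.sin_zero, sub_zero, sub_zero]

theorem sin_ne {z : ℂ} (h0 : z ≠ 0) (h : |z.re| < Real.pi) : Complex.sin z ≠ 0 := by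
  intro e
  obtain ⟨k, hk⟩ := Complex.sin_eq_zero_iff.1 e
  have hpi := Real.pi_pos
  have h1 : z.re = k * Real.pi := by
    rw [hk]
    simp
  rw [h1, abs_mul, abs_of_pos hpi] at h
  have h2 : |(k : ℝ)| < 1 := by
    by_contra h3
    push Not at h3
    nlinarith
  have h3 : k = 0 := by
    have h4 : |k| < 1 := by exact_mod_cast h2
    exact Int.abs_lt_one_iff.1 h4
  apply h0
  rw [hk, h3]
  simp

theorem sn_inv {z : ℂ} (h0 : z ≠ 0) (h : |z.re| < Real.pi) : sn z * (Complex.sin z)⁻¹ = z⁻¹ := by
  have := sin_ne h0 h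
  rw [sn_ne h0]
  field_simp

/-- **the residue theorem on two full lines** -/
theorem lines_resid {ι : Type*} [Fintype ι] [DecidableEq ι] {x : Bool → ℝ}
    (hx : x false < x true) (hw : x true - x false < Real.pi) {c : ι → ℂ}
    (hc : Function.Injective c) (hS : ∀ i, x false < (c i).re ∧ (c i).re < x true) {F : ℂ → ℂ}
    (hF : ∀ z : ℂ, x false ≤ z.re → z.re ≤ x true → DifferentiableAt ℂ F z) {C δ : ℝ} (hδ : 0 < δ)
    (hb : ∀ z : ℂ, x false ≤ z.re → z.re ≤ x true → ‖F z‖ ≤ C * Real.exp (-(δ * |z.im|))) :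
    Integrable (fun y => lK y * (F (lG x y) / ∏ i, (lG x y - c i))) lM ∧
    ∫ y, lK y * (F (lG x y) / ∏ i, (lG x y - c i)) ∂lM =
      ∑ i, F (c i) / ∏ j ∈ univ.erase i, (c i - c j) := by
  have hpi := Real.pi_pos
  set H : ℂ → ℂ := fun z => F z * ∏ i, sn (z - c i) with hH
  set B : Finset ℂ := univ.image c with hB
  have pB : ∀ z : ℂ, ∏ w ∈ B, (Complex.sin (z - w))⁻¹ = ∏ i, (Complex.sin (z - c i))⁻¹ := fun z => by
    rw [hB, prod_image fun i _ j _ e => hc e]
  have key : ∀ z : ℂ, x false ≤ z.re → z.re ≤ x true → (∀ i, z ≠ c i) →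
      H z * ∏ w ∈ B, (Complex.sin (z - w))⁻¹ = F z / ∏ i, (z - c i) := by
    intro z h1 h2 h3
    rw [pB, hH]
    simp only
    rw [mul_assoc, ← prod_mul_distrib, div_eq_mul_inv, ← prod_inv_distrib]
    congr 1
    refine prod_congr rfl fun i _ => ?_
    obtain ⟨h4, h5⟩ := hS i
    refine sn_inv (sub_ne_zero.2 (h3 i)) ?_
    rw [sub_re, abs_lt]
    constructor <;> linarith
  have dH : ∀ z : ℂ, x false ≤ z.re → z.re ≤ x true → DifferentiableAt ℂ H z := by
    intro z h1 h2
    rw [hH]
    refine (hF z h1 h2).mul (DifferentiableAt.fun_finset_prod fun i _ => ?_)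
    exact (sn_diff (z - c i)).comp z (by fun_prop)
  have hdec : ∃ C c R : ℝ, 0 < c ∧ ∀ z : ℂ, x false ≤ z.re → z.re ≤ x true → R ≤ |z.im| →
      ‖H z * ∏ w ∈ B, (Complex.sin (z - w))⁻¹‖ ≤ C * Real.exp (-c * |z.im|) := by
    refine ⟨C, δ, 1 + ∑ i, |(c i).im|, hδ, fun z h1 h2 h3 => ?_⟩
    have h4 : ∀ i, 1 ≤ ‖z - c i‖ := by
      intro i
      have h5 : |(c i).im| ≤ ∑ i, |(c i).im| :=
        single_le_sum (f := fun i => |(c i).im|) (fun _ _ => abs_nonneg _) (mem_univ i)
      have h6 := abs_im_le_norm (z - c i)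
      rw [sub_im] at h6
      have h7 := abs_sub_abs_le_abs_sub z.im (c i).im
      linarith
    rw [key z h1 h2 fun i e => by
      have := h4 i
      rw [e, sub_self, norm_zero] at this
      linarith]
    rw [norm_div, norm_prod]
    have h5 : 1 ≤ ∏ i, ‖z - c i‖ := by
      rw [← prod_const_one (s := (univ : Finset ι))]
      exact prod_le_prod (fun _ _ => zero_le_one) fun i _ => h4 i
    refine (div_le_self (norm_nonneg _) h5).trans ?_
    rw [neg_mul]
    exact hb z h1 h2
  obtain ⟨i1, i2, e⟩ := NUP1.line_res' hx.le hw B (fun w hw' => by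
      rw [hB, mem_image] at hw'
      obtain ⟨i, _, rfl⟩ := hw'
      exact hS i) H
    (fun z hz => (dH z hz.1 hz.2).continuousAt.continuousWithinAt)
    (fun z hz => (dH z hz.1.le hz.2.le).differentiableWithinAt) hdec
  have kl : ∀ b : Bool, ∀ t : ℝ, H (NUP1.vl (x b) t) * ∏ w ∈ B, (Complex.sin (NUP1.vl (x b) t - w))⁻¹ =
      F (lG x (b, t)) / ∏ i, (lG x (b, t) - c i) := by
    intro b t
    have e1 : NUP1.vl (x b) t = lG x (b, t) := rfl
    have hre := lG_re x (b, t)
    rw [e1]
    refine key _ ?_ ?_ fun i e2 => ?_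
    · rw [hre]
      cases b
      · exact le_rfl
      · exact hx.le
    · rw [hre]
      cases b
      · exact hx.le
      · exact le_rfl
    · obtain ⟨h4, h5⟩ := hS i
      rw [← e2, hre] at h4 h5
      cases b
      · exact lt_irrefl _ h4
      · exact lt_irrefl _ h5
  have ib : ∀ b : Bool, Integrable fun t : ℝ => F (lG x (b, t)) / ∏ i, (lG x (b, t) - c i) := by
    intro b
    cases b
    · refine i2.congr (Filter.Eventually.of_forall fun t => ?_)
      exact kl false t
    · refine i1.congr (Filter.Eventually.of_forall fun t => ?_)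
      exact kl true t
  have ib' : ∀ b : Bool, Integrable fun t : ℝ => lK (b, t) *
      (F (lG x (b, t)) / ∏ i, (lG x (b, t) - c i)) := by
    intro b
    exact (ib b).const_mul ((if b then 1 else -1) / (2 * Real.pi) : ℂ)
  refine ⟨integrable_lM.2 ib', ?_⟩
  rw [integral_lM ib']
  have e1 : ∀ b : Bool, ∫ t : ℝ, lK (b, t) * (F (lG x (b, t)) / ∏ i, (lG x (b, t) - c i)) =
      ((if b then 1 else -1) / (2 * Real.pi) : ℂ) *
        ∫ t : ℝ, F (lG x (b, t)) / ∏ i, (lG x (b, t) - c i) := by
    intro b
    rw [← integral_const_mul]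
    rfl
  rw [e1, e1]
  unfold NUP1.LI at e
  simp only [kl] at e
  have e2 : ∑ w ∈ B, H w * ∏ y ∈ B.erase w, (Complex.sin (w - y))⁻¹ =
      ∑ i, F (c i) / ∏ j ∈ univ.erase i, (c i - c j) := by
    rw [hB, sum_image fun i _ j _ e => hc e]
    refine sum_congr rfl fun i _ => ?_
    have e3 : (univ.image c).erase (c i) = (univ.erase i).image c := by
      rw [image_erase hc]
    rw [e3, prod_image fun i _ j _ e => hc e, hH]
    simp only
    rw [← mul_prod_erase univ (fun j => sn (c i - c j)) (mem_univ i), sub_self, sn_zero, one_mul,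
      mul_assoc, ← prod_mul_distrib, div_eq_mul_inv, ← prod_inv_distrib]
    congr 1
    refine prod_congr rfl fun j hj => ?_
    obtain ⟨h4, h5⟩ := hS i
    obtain ⟨h6, h7⟩ := hS j
    refine sn_inv (sub_ne_zero.2 fun e => (ne_of_mem_erase hj) (hc e).symm) ?_
    rw [sub_re, abs_lt]
    constructor <;> linarith
  rw [← e2, ← e]
  simp only [if_true, Bool.false_eq_true, if_false]
  ring

/-! ## the structure of the general theorem -/

/-- **two full lines are a contour** -/
theorem lines_cg {x : Bool → ℝ} (hx : x false < x true) (hw : x true - x false < Real.pi)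
    {a b : ℝ} (ha : a < x false) (hb : x true < b) {p δ : ℝ} (hp : 0 ≤ p) (hδ : 0 < δ) :
    Cg lM (lG x) lK (NUP1.OS a b) (NUP1.CS (x false) (x true)) (NUP1.OS (x false) (x true))
      (fun z => Real.exp (p * |z.im|)) (fun z => Real.exp (-(δ * |z.im|))) where
  sf := inferInstance
  mγ := meas_lG x
  mκ := meas_lK
  bκ := ⟨1 / (2 * Real.pi), fun y => (norm_lK y).le⟩
  oU := NUP1.isOpen_OS a b
  oΩ := NUP1.isOpen_OS _ _
  sub := NUP1.OS_sub_CS _ _
  sub' := fun z hz => ⟨ha.trans_le hz.1, hz.2.trans_lt hb⟩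
  mem := fun y => by
    show x false ≤ (lG x y).re ∧ (lG x y).re ≤ x true
    rw [lG_re]
    rcases y with ⟨c, t⟩
    cases c
    · exact ⟨le_rfl, hx.le⟩
    · exact ⟨hx.le, le_rfl⟩
  φ1 := fun z => Real.one_le_exp (by positivity)
  w0 := fun z => (Real.exp_pos _).le
  iw := by
    refine (int_w hδ).congr (Filter.Eventually.of_forall fun y => ?_)
    simp only [lG_im]
  off := fun c hc => by
    refine ⟨min (c.re - x false) (x true - c.re), lt_min (sub_pos.2 hc.1) (sub_pos.2 hc.2),
      fun y => ?_⟩
    have h1 := abs_re_le_norm (lG x y - c)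
    rw [sub_re, lG_re] at h1
    refine le_trans ?_ h1
    rcases y with ⟨d, t⟩
    cases d
    · refine (min_le_left _ _).trans ?_
      rw [abs_sub_comm]
      exact le_abs_self _
    · exact (min_le_right _ _).trans (le_abs_self _)
  rs := fun n c hc hΩ F hF => by
    obtain ⟨h1, C, _, h2⟩ := hF
    refine (lines_resid hx hw hc (fun i => hΩ i) (fun z hz hz' => ?_) hδ (C := C)
      fun z hz hz' => ?_).2
    · exact h1.differentiableAt ((NUP1.isOpen_OS a b).mem_nhds ⟨ha.trans_le hz, hz'.trans_lt hb⟩)
    · have := h2 z ⟨hz, hz'⟩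
      simpa using this

/-- **the integral over `k` points of the two lines = the sum over the choices of the lines** -/
theorem integral_pi_lM {α : Type*} [Fintype α] [DecidableEq α] {E : Type*}
    [NormedAddCommGroup E] [NormedSpace ℝ E] [CompleteSpace E] {G : (α → Bool × ℝ) → E}
    (hG : Integrable G (Measure.pi fun _ => lM)) :
    ∫ y, G y ∂(Measure.pi fun _ => lM) =
      ∑ s : α → Bool, ∫ t : α → ℝ, G (fun i => (s i, t i)) ∂(Measure.pi fun _ => volume) := by
  have mp := measurePreserving_arrowProdEquivProdArrow Bool ℝ α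
    (fun _ => (Measure.count : Measure Bool)) (fun _ => (volume : Measure ℝ))
  have mp' := mp.symm
  have h1 : Integrable (fun p : (α → Bool) × (α → ℝ) =>
      G ((MeasurableEquiv.arrowProdEquivProdArrow Bool ℝ α).symm p))
      ((Measure.pi fun _ => (Measure.count : Measure Bool)).prod
        (Measure.pi fun _ => (volume : Measure ℝ))) :=
    (mp'.integrable_comp_emb (MeasurableEquiv.measurableEmbedding _)).2 hG
  have h2 : ∫ y, G y ∂(Measure.pi fun _ => lM) = ∫ p, G
      ((MeasurableEquiv.arrowProdEquivProdArrow Bool ℝ α).symm p)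
      ∂((Measure.pi fun _ => (Measure.count : Measure Bool)).prod
        (Measure.pi fun _ => (volume : Measure ℝ))) :=
    (mp'.integral_comp' _).symm
  rw [h2, integral_prod _ h1, integral_fintype]
  · refine Finset.sum_congr rfl fun s _ => ?_
    have e1 : (Measure.pi fun _ => (Measure.count : Measure Bool)).real {s} = 1 := by
      rw [measureReal_def, Measure.pi_singleton]
      simp
    rw [e1, one_smul]
    rfl
  · exact Integrable.of_finite

/-- **the integral of `k` particles on the two lines** -/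
theorem JJ_lines {ι : Type*} [Fintype ι] {x : Bool → ℝ} {f q : ℂ → ℂ} {c : ι → ℂ} {k : ℕ}
    (hI : Integrable (fun y : Fin k → Bool × ℝ => (∏ a, one (lG x) lK f c (y a)) *
      QP q fun a => lG x (y a)) (Measure.pi fun _ => lM)) :
    JJ lM (lG x) lK f q c k = ∑ s : Fin k → Bool, (∏ a, (if s a then (1 : ℂ) else -1)) *
      ((2 * Real.pi : ℂ)⁻¹ ^ k * ∫ t : Fin k → ℝ,
        (∏ a, (f (lG x (s a, t a)) / ∏ i, (lG x (s a, t a) - c i))) *
          QP q (fun a => lG x (s a, t a)) ∂(Measure.pi fun _ => volume)) := by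
  unfold JJ
  rw [integral_pi_lM hI]
  refine Finset.sum_congr rfl fun s _ => ?_
  rw [← integral_const_mul, ← integral_const_mul]
  refine integral_congr_ae (Filter.Eventually.of_forall fun t => ?_)
  simp only [one, lK]
  have e1 : ∏ a, ((if s a = true then (1 : ℂ) else -1) / (2 * Real.pi)) =
      (∏ a, (if s a = true then (1 : ℂ) else -1)) * (2 * Real.pi : ℂ)⁻¹ ^ k := by
    simp only [div_eq_mul_inv]
    rw [prod_mul_distrib, prod_const, card_univ, Fintype.card_fin]
  rw [prod_mul_distrib, e1]
  ring

end Pool.Agent.PHK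

end
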