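import Pool.Agent.NUP1S.Sat

/-!
# The boundary of a rectangle as a contour of a quantum

`rectC s x y R`: boundary of `[x, y] × [-R, R]`, clockwise (left side upwards), over `(0, 4]`, with
the normalisation `(2 π i)⁻¹`.

* `int_rO`: the integral is the sum of the four sides;
* `OkC.rect`: it is admissible;
* `rect_rep`: `line x = line y + rectC`, if the poles lie inside.
-/

set_option autoImplicit false
set_option linter.unusedSectionVars false

noncomputable section

open Complex MeasureTheory NUP1 Set Filter Topology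
open scoped Real

namespace NUP1S

attribute [local simp] re_vl im_vl

/-- the path -/
def rP (x y R t : ℝ) : ℂ :=
  if t ≤ 0 then vl x R
  else if t ≤ 1 then vl x (2 * R * t - R)
  else if t ≤ 2 then vl ((y - x) * (t - 1) + x) R
  else if t ≤ 3 then vl y (R - 2 * R * (t - 2))
  else if t ≤ 4 then vl (y - (y - x) * (t - 3)) (-R)
  else vl x R

/-- the weight -/
def rO (x y R t : ℝ) : ℂ :=
  if t ≤ 0 then 0
  else if t ≤ 1 then (2 * π : ℂ)⁻¹ * (2 * R : ℝ)
  else if t ≤ 2 then (2 * π * I : ℂ)⁻¹ * (y - x : ℝ)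
  else if t ≤ 3 then -((2 * π : ℂ)⁻¹ * (2 * R : ℝ))
  else if t ≤ 4 then -((2 * π * I : ℂ)⁻¹ * (y - x : ℝ))
  else 0

/-- boundary of the rectangle `[x, y] × [-R, R]`, clockwise -/
def rectC (s : Bool) (x y R : ℝ) : Ct := ⟨s, rO x y R, rP x y R⟩

/-- the boundary as a set -/
def rS (x y R : ℝ) : Set ℂ :=
  {z | x ≤ z.re ∧ z.re ≤ y ∧ |z.im| ≤ R ∧ (z.re = x ∨ z.re = y ∨ |z.im| = R)}

variable {x y R : ℝ}

theorem rP_mem (hxy : x ≤ y) (hR : 0 ≤ R) (t : ℝ) : rP x y R t ∈ rS x y R := by
  unfold rP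
  have hd : 0 ≤ y - x := by linarith
  split_ifs with h0 h1 h2 h3 h4
  · refine ⟨by simp, by simpa using hxy, ?_, Or.inl (by simp)⟩
    simp [abs_of_nonneg hR]
  · refine ⟨by simp, by simpa using hxy, ?_, Or.inl (by simp)⟩
    rw [im_vl, abs_le]
    constructor <;> nlinarith
  · refine ⟨?_, ?_, ?_, Or.inr (Or.inr ?_)⟩
    · rw [re_vl]
      have := mul_nonneg hd (sub_nonneg.2 (not_le.1 h1).le)
      linarith
    · rw [re_vl]
      have := mul_le_mul_of_nonneg_left (show t - 1 ≤ 1 by linarith) hd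
      linarith
    · simp [abs_of_nonneg hR]
    · simp [abs_of_nonneg hR]
  · refine ⟨by simpa using hxy, by simp, ?_, Or.inr (Or.inl (by simp))⟩
    rw [im_vl, abs_le]
    have := not_le.1 h2
    constructor <;> nlinarith
  · refine ⟨?_, ?_, ?_, Or.inr (Or.inr ?_)⟩
    · rw [re_vl]
      have := mul_le_mul_of_nonneg_left (show t - 3 ≤ 1 by linarith) hd
      linarith
    · rw [re_vl]
      have := mul_nonneg hd (sub_nonneg.2 (not_le.1 h3).le)
      linarith
    · simp [abs_of_nonneg hR]
    · simp [abs_of_nonneg hR]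
  · refine ⟨by simp, by simpa using hxy, ?_, Or.inl (by simp)⟩
    simp [abs_of_nonneg hR]

theorem measurable_rP : Measurable (rP x y R) := by
  unfold rP vl
  refine Measurable.ite measurableSet_Iic measurable_const ?_
  refine Measurable.ite measurableSet_Iic (by fun_prop) ?_
  refine Measurable.ite measurableSet_Iic (by fun_prop) ?_
  refine Measurable.ite measurableSet_Iic (by fun_prop) ?_
  exact Measurable.ite measurableSet_Iic (by fun_prop) measurable_const

theorem measurable_rO : Measurable (rO x y R) := by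
  unfold rO
  refine Measurable.ite measurableSet_Iic measurable_const ?_
  refine Measurable.ite measurableSet_Iic measurable_const ?_
  refine Measurable.ite measurableSet_Iic measurable_const ?_
  refine Measurable.ite measurableSet_Iic measurable_const ?_
  exact Measurable.ite measurableSet_Iic measurable_const measurable_const

theorem rO_zero {t : ℝ} (h : t ∉ Ioc (0 : ℝ) 4) : rO x y R t = 0 := by
  unfold rO
  rw [mem_Ioc, not_and_or, not_lt, not_le] at h
  rcases h with h | h
  · rw [if_pos h]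
  · rw [if_neg (by linarith), if_neg (by linarith), if_neg (by linarith), if_neg (by linarith),
      if_neg (by linarith)]

theorem rO_bd : ∃ C : ℝ, 0 ≤ C ∧ ∀ t, ‖rO x y R t‖ ≤ C := by
  refine ⟨‖(2 * π : ℂ)⁻¹ * (2 * R : ℝ)‖ + ‖(2 * π * I : ℂ)⁻¹ * (y - x : ℝ)‖, by positivity,
    fun t => ?_⟩
  have h1 := norm_nonneg ((2 * π : ℂ)⁻¹ * (2 * R : ℝ))
  have h2 := norm_nonneg ((2 * π * I : ℂ)⁻¹ * (y - x : ℝ))
  unfold rO
  split_ifs
  · rw [norm_zero]; linarith
  · linarith
  · linarith
  · rw [norm_neg]; linarith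
  · rw [norm_neg]; linarith
  · rw [norm_zero]; linarith

theorem int_full (F : ℂ → ℂ) : ∫ t, rO x y R t * F (rP x y R t) =
    ∫ t in (0 : ℝ)..4, rO x y R t * F (rP x y R t) := by
  rw [intervalIntegral.integral_of_le (by norm_num), setIntegral_eq_integral_of_forall_compl_eq_zero]
  intro t ht
  rw [rO_zero ht, zero_mul]

theorem cont_vl {F : ℂ → ℂ} {p q : ℝ → ℝ} (hp : Continuous p) (hq : Continuous q) {A : Set ℂ}
    (hF : ContinuousOn F A) {a b : ℝ} (h : ∀ t ∈ Icc a b, vl (p t) (q t) ∈ A) :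
    ContinuousOn (fun t => F (vl (p t) (q t))) (Icc a b) := by
  refine hF.comp ?_ h
  unfold vl
  fun_prop

/-- the integral over the boundary -/
theorem int_rO (hxy : x ≤ y) (hR : 0 ≤ R) {F : ℂ → ℂ} (hF : ContinuousOn F (rS x y R)) :
    ∫ t, rO x y R t * F (rP x y R t) =
      (2 * π : ℂ)⁻¹ * (∫ s in (-R)..R, F (vl x s)) + (2 * π * I : ℂ)⁻¹ * (∫ s in x..y, F (vl s R)) -
      (2 * π : ℂ)⁻¹ * (∫ s in (-R)..R, F (vl y s)) -
      (2 * π * I : ℂ)⁻¹ * ∫ s in x..y, F (vl s (-R)) := by
  have hd : 0 ≤ y - x := by linarith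
  set f : ℝ → ℂ := fun t => rO x y R t * F (rP x y R t) with hf
  -- the four pieces
  have e1 : ∀ t ∈ Ioc (0 : ℝ) 1, f t = (2 * π : ℂ)⁻¹ * ((2 * R : ℝ) * F (vl x (2 * R * t + -R))) := by
    intro t ht
    simp only [hf, rO, rP]
    rw [if_neg (not_le.2 ht.1), if_pos ht.2, if_neg (not_le.2 ht.1), if_pos ht.2, mul_assoc,
      sub_eq_add_neg]
  have e2 : ∀ t ∈ Ioc (1 : ℝ) 2, f t =
      (2 * π * I : ℂ)⁻¹ * ((y - x : ℝ) * F (vl ((y - x) * t + (x - (y - x))) R)) := by
    intro t ht
    have h1 := ht.1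
    simp only [hf, rO, rP]
    rw [if_neg (by linarith), if_neg (not_le.2 h1), if_pos ht.2, if_neg (by linarith),
      if_neg (not_le.2 h1), if_pos ht.2, mul_assoc]
    congr 4
    ring
  have e3 : ∀ t ∈ Ioc (2 : ℝ) 3, f t =
      -((2 * π : ℂ)⁻¹ * ((2 * R : ℝ) * F (vl y (-(2 * R) * t + 5 * R)))) := by
    intro t ht
    have h1 := ht.1
    simp only [hf, rO, rP]
    rw [if_neg (by linarith), if_neg (by linarith), if_neg (not_le.2 h1), if_pos ht.2,
      if_neg (by linarith), if_neg (by linarith), if_neg (not_le.2 h1), if_pos ht.2, neg_mul,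
      mul_assoc]
    congr 5
    ring
  have e4 : ∀ t ∈ Ioc (3 : ℝ) 4, f t =
      -((2 * π * I : ℂ)⁻¹ * ((y - x : ℝ) * F (vl (-(y - x) * t + (y + 3 * (y - x))) (-R)))) := by
    intro t ht
    have h1 := ht.1
    simp only [hf, rO, rP]
    rw [if_neg (by linarith), if_neg (by linarith), if_neg (by linarith), if_neg (not_le.2 h1),
      if_pos ht.2, if_neg (by linarith), if_neg (by linarith), if_neg (by linarith),
      if_neg (not_le.2 h1), if_pos ht.2, neg_mul, mul_assoc]
    congr 5
    ring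
  -- continuity of the pieces
  have c1 : ContinuousOn (fun t : ℝ => F (vl x (2 * R * t + -R))) (Icc 0 1) :=
    cont_vl (p := fun _ => x) (q := fun t => 2 * R * t + -R) (by fun_prop) (by fun_prop) hF
      fun t ht => ⟨by simp, by simpa using hxy, by
        rw [im_vl, abs_le]
        have := ht.1
        have := ht.2
        constructor <;> nlinarith, Or.inl (by simp)⟩
  have c2 : ContinuousOn (fun t : ℝ => F (vl ((y - x) * t + (x - (y - x))) R)) (Icc 1 2) :=
    cont_vl (p := fun t => (y - x) * t + (x - (y - x))) (q := fun _ => R) (by fun_prop)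
      (by fun_prop) hF fun t ht => ⟨by
        rw [re_vl]
        have := mul_nonneg hd (sub_nonneg.2 ht.1)
        linarith, by
        rw [re_vl]
        have := mul_le_mul_of_nonneg_left ht.2 hd
        linarith, by simp [abs_of_nonneg hR], Or.inr (Or.inr (by simp [abs_of_nonneg hR]))⟩
  have c3 : ContinuousOn (fun t : ℝ => F (vl y (-(2 * R) * t + 5 * R))) (Icc 2 3) :=
    cont_vl (p := fun _ => y) (q := fun t => -(2 * R) * t + 5 * R) (by fun_prop) (by fun_prop) hF
      fun t ht => ⟨by simpa using hxy, by simp, by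
        rw [im_vl, abs_le]
        have := ht.1
        have := ht.2
        constructor <;> nlinarith, Or.inr (Or.inl (by simp))⟩
  have c4 : ContinuousOn (fun t : ℝ => F (vl (-(y - x) * t + (y + 3 * (y - x))) (-R))) (Icc 3 4) :=
    cont_vl (p := fun t => -(y - x) * t + (y + 3 * (y - x))) (q := fun _ => -R) (by fun_prop)
      (by fun_prop) hF fun t ht => ⟨by
        rw [re_vl]
        have := mul_le_mul_of_nonneg_left ht.2 hd
        linarith, by
        rw [re_vl]
        have := mul_nonneg hd (sub_nonneg.2 ht.1)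
        linarith, by simp [abs_of_nonneg hR], Or.inr (Or.inr (by simp [abs_of_nonneg hR]))⟩
  have ii : ∀ {a b : ℝ} (hab : a ≤ b) {g : ℝ → ℂ} (hg : ContinuousOn g (Icc a b))
      (h : ∀ t ∈ Ioc a b, f t = g t), IntervalIntegrable f volume a b ∧
        ∫ t in a..b, f t = ∫ t in a..b, g t := by
    intro a b hab g hg h
    constructor
    · have h1 : IntervalIntegrable g volume a b :=
        ContinuousOn.intervalIntegrable (by rwa [uIcc_of_le hab])
      refine h1.congr ?_
      rw [uIoc_of_le hab]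
      intro t ht
      exact (h t ht).symm
    · refine intervalIntegral.integral_congr_ae ?_
      rw [uIoc_of_le hab]
      exact Eventually.of_forall h
  obtain ⟨i1, j1⟩ := ii (show (0 : ℝ) ≤ 1 by norm_num)
    (g := fun t => (2 * π : ℂ)⁻¹ * ((2 * R : ℝ) * F (vl x (2 * R * t + -R))))
    (continuousOn_const.mul (continuousOn_const.mul c1)) e1
  obtain ⟨i2, j2⟩ := ii (show (1 : ℝ) ≤ 2 by norm_num)
    (g := fun t => (2 * π * I : ℂ)⁻¹ * ((y - x : ℝ) * F (vl ((y - x) * t + (x - (y - x))) R)))
    (continuousOn_const.mul (continuousOn_const.mul c2)) e2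
  obtain ⟨i3, j3⟩ := ii (show (2 : ℝ) ≤ 3 by norm_num)
    (g := fun t => -((2 * π : ℂ)⁻¹ * ((2 * R : ℝ) * F (vl y (-(2 * R) * t + 5 * R)))))
    (continuousOn_const.mul (continuousOn_const.mul c3)).neg e3
  obtain ⟨i4, j4⟩ := ii (show (3 : ℝ) ≤ 4 by norm_num)
    (g := fun t => -((2 * π * I : ℂ)⁻¹ * ((y - x : ℝ) *
      F (vl (-(y - x) * t + (y + 3 * (y - x))) (-R)))))
    (continuousOn_const.mul (continuousOn_const.mul c4)).neg e4
  have hsum : ∫ t in (0 : ℝ)..4, f t = (∫ t in (0 : ℝ)..1, f t) + (∫ t in (1 : ℝ)..2, f t) +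
      (∫ t in (2 : ℝ)..3, f t) + ∫ t in (3 : ℝ)..4, f t := by
    rw [intervalIntegral.integral_add_adjacent_intervals i1 i2,
      intervalIntegral.integral_add_adjacent_intervals (i1.trans i2) i3,
      intervalIntegral.integral_add_adjacent_intervals ((i1.trans i2).trans i3) i4]
  rw [int_full]
  show ∫ t in (0 : ℝ)..4, f t = _
  have s1 : ((2 * R : ℝ) : ℂ) * ∫ t in (0 : ℝ)..1, F (vl x (2 * R * t + -R)) =
      ∫ s in (-R)..R, F (vl x s) := by
    have := intervalIntegral.smul_integral_comp_mul_add (a := 0) (b := 1) (fun s => F (vl x s))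
      (2 * R) (-R)
    rw [mul_zero, zero_add, mul_one, show 2 * R + -R = R by ring] at this
    rw [← this, Complex.real_smul]
  have s2 : ((y - x : ℝ) : ℂ) * ∫ t in (1 : ℝ)..2, F (vl ((y - x) * t + (x - (y - x))) R) =
      ∫ s in x..y, F (vl s R) := by
    have := intervalIntegral.smul_integral_comp_mul_add (a := 1) (b := 2) (fun s => F (vl s R))
      (y - x) (x - (y - x))
    rw [show (y - x) * 1 + (x - (y - x)) = x by ring,
      show (y - x) * 2 + (x - (y - x)) = y by ring] at this
    rw [← this, Complex.real_smul]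
  have s3 : ((2 * R : ℝ) : ℂ) * ∫ t in (2 : ℝ)..3, F (vl y (-(2 * R) * t + 5 * R)) =
      ∫ s in (-R)..R, F (vl y s) := by
    have := intervalIntegral.smul_integral_comp_mul_add (a := 2) (b := 3) (fun s => F (vl y s))
      (-(2 * R)) (5 * R)
    rw [show -(2 * R) * 2 + 5 * R = R by ring, show -(2 * R) * 3 + 5 * R = -R by ring,
      intervalIntegral.integral_symm (-R) R, Complex.real_smul] at this
    have h2 : (((-(2 * R) : ℝ)) : ℂ) = -((2 * R : ℝ) : ℂ) := by push_cast; ring
    rw [h2, neg_mul, neg_inj] at this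
    exact this
  have s4 : ((y - x : ℝ) : ℂ) * ∫ t in (3 : ℝ)..4, F (vl (-(y - x) * t + (y + 3 * (y - x))) (-R)) =
      ∫ s in x..y, F (vl s (-R)) := by
    have := intervalIntegral.smul_integral_comp_mul_add (a := 3) (b := 4) (fun s => F (vl s (-R)))
      (-(y - x)) (y + 3 * (y - x))
    rw [show -(y - x) * 3 + (y + 3 * (y - x)) = y by ring,
      show -(y - x) * 4 + (y + 3 * (y - x)) = x by ring,
      intervalIntegral.integral_symm x y, Complex.real_smul] at this
    have h2 : (((-(y - x) : ℝ)) : ℂ) = -((y - x : ℝ) : ℂ) := by push_cast; ring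
    rw [h2, neg_mul, neg_inj] at this
    exact this
  rw [hsum, j1, j2, j3, j4, intervalIntegral.integral_neg, intervalIntegral.integral_neg,
    intervalIntegral.integral_const_mul, intervalIntegral.integral_const_mul,
    intervalIntegral.integral_const_mul, intervalIntegral.integral_const_mul,
    intervalIntegral.integral_const_mul, intervalIntegral.integral_const_mul,
    intervalIntegral.integral_const_mul, intervalIntegral.integral_const_mul, s1, s2, s3, s4]
  ring

/-! ## the rectangle replaces a line by another line -/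

/-- Cauchy on `[x, y] × [S, T]` -/
theorem rect_zero (hxy : x ≤ y) {S T : ℝ} (hST : S ≤ T) {F : ℂ → ℂ}
    (hF : ∀ z : ℂ, x ≤ z.re → z.re ≤ y → S ≤ z.im → z.im ≤ T → DifferentiableAt ℂ F z) :
    (2 * π : ℂ)⁻¹ * (∫ s in S..T, F (vl x s)) + (2 * π * I : ℂ)⁻¹ * (∫ s in x..y, F (vl s T)) -
      (2 * π : ℂ)⁻¹ * (∫ s in S..T, F (vl y s)) - (2 * π * I : ℂ)⁻¹ * ∫ s in x..y, F (vl s S) = 0 := by
  have h1 := Complex.integral_boundary_rect_eq_zero_of_differentiableOn F (vl x S) (vl y T) ?_
  · rw [re_vl, re_vl, im_vl, im_vl] at h1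
    simp only [smul_eq_mul] at h1
    have hpi : (π : ℂ) ≠ 0 := by exact_mod_cast Real.pi_ne_zero
    have h2 : (2 * π : ℂ)⁻¹ * (∫ s in S..T, F (vl x s)) + (2 * π * I : ℂ)⁻¹ *
        (∫ s in x..y, F (vl s T)) - (2 * π : ℂ)⁻¹ * (∫ s in S..T, F (vl y s)) -
        (2 * π * I : ℂ)⁻¹ * ∫ s in x..y, F (vl s S) =
        -(2 * π * I : ℂ)⁻¹ * ((((∫ s in x..y, F (s + S * I)) - ∫ s in x..y, F (s + T * I)) +
          I * ∫ s in S..T, F (y + s * I)) - I * ∫ s in S..T, F (x + s * I)) := by
      unfold vl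
      field_simp
      ring
    rw [h2, h1, mul_zero]
  · rw [re_vl, re_vl, im_vl, im_vl, uIcc_of_le hxy, uIcc_of_le hST]
    intro z hz
    obtain ⟨a1, a2⟩ := mem_reProdIm.1 hz
    exact (hF z a1.1 a1.2 a2.1 a2.2).differentiableWithinAt

/-- the four sides -/
def Bd4 (x y R : ℝ) (F : ℂ → ℂ) : ℂ :=
  (2 * π : ℂ)⁻¹ * (∫ s in (-R)..R, F (vl x s)) + (2 * π * I : ℂ)⁻¹ * (∫ s in x..y, F (vl s R)) -
    (2 * π : ℂ)⁻¹ * (∫ s in (-R)..R, F (vl y s)) -
    (2 * π * I : ℂ)⁻¹ * ∫ s in x..y, F (vl s (-R))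

/-- the boundary integral does not depend on the height -/
theorem Bd4_eq (hxy : x ≤ y) {R R' : ℝ} (hR : 0 ≤ R) (hRR : R ≤ R') {F : ℂ → ℂ}
    (hx : Continuous fun s => F (vl x s)) (hy : Continuous fun s => F (vl y s))
    (hF : ∀ z : ℂ, x ≤ z.re → z.re ≤ y → R ≤ |z.im| → DifferentiableAt ℂ F z) :
    Bd4 x y R' F = Bd4 x y R F := by
  have h1 := rect_zero hxy hRR (F := F) fun z a1 a2 a3 _ =>
    hF z a1 a2 (a3.trans (le_abs_self _))
  have h2 := rect_zero hxy (neg_le_neg hRR) (F := F) fun z a1 a2 _ a4 =>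
    hF z a1 a2 ((le_neg.2 a4).trans (neg_le_abs _))
  have hsp : ∀ σ : ℝ, (Continuous fun s => F (vl σ s)) → ∫ s in (-R')..R', F (vl σ s) =
      (∫ s in (-R')..(-R), F (vl σ s)) + (∫ s in (-R)..R, F (vl σ s)) +
        ∫ s in R..R', F (vl σ s) := by
    intro σ h
    rw [intervalIntegral.integral_add_adjacent_intervals (h.intervalIntegrable _ _)
      (h.intervalIntegrable _ _), intervalIntegral.integral_add_adjacent_intervals
      (h.intervalIntegrable _ _) (h.intervalIntegrable _ _)]
  unfold Bd4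
  rw [hsp x hx, hsp y hy]
  linear_combination h1 + h2

/-- **the line `x` is the line `y` and the rectangle** -/
theorem line_eq_rect (hxy : x ≤ y) (hR : 0 ≤ R) {F : ℂ → ℂ} {C δ : ℝ} (hδ : 0 < δ)
    (hx : Continuous fun s => F (vl x s)) (hy : Continuous fun s => F (vl y s))
    (hF : ∀ z : ℂ, x ≤ z.re → z.re ≤ y → R ≤ |z.im| → DifferentiableAt ℂ F z)
    (hb : ∀ z : ℂ, x ≤ z.re → z.re ≤ y → R ≤ |z.im| → ‖F z‖ ≤ C * Real.exp (-δ * |z.im|)) :
    (2 * π : ℂ)⁻¹ * ∫ s : ℝ, F (vl x s) =
      (2 * π : ℂ)⁻¹ * (∫ s : ℝ, F (vl y s)) + ∫ t, rO x y R t * F (rP x y R t) := by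
  have ix : Integrable fun s : ℝ => F (vl x s) :=
    integrable_of_decay hx hδ fun t ht => by
      have := hb (vl x t) (by simp) (by simpa using hxy) (by simpa using ht)
      simpa using this
  have iy : Integrable fun s : ℝ => F (vl y s) :=
    integrable_of_decay hy hδ fun t ht => by
      have := hb (vl y t) (by simpa using hxy) (by simp) (by simpa using ht)
      simpa using this
  have tx := intervalIntegral_tendsto_integral ix tendsto_neg_atTop_atBot tendsto_id
  have ty := intervalIntegral_tendsto_integral iy tendsto_neg_atTop_atBot tendsto_id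
  have hor : ∀ ε : ℝ → ℝ, (∀ R, |ε R| = |R|) →
      Tendsto (fun R : ℝ => ∫ s in x..y, F (vl s (ε R))) atTop (𝓝 0) := by
    intro ε hε
    rw [tendsto_zero_iff_norm_tendsto_zero]
    have h0 : Tendsto (fun R : ℝ => |C| * Real.exp (-δ * R) * |y - x|) atTop (𝓝 0) := by
      have : Tendsto (fun R : ℝ => Real.exp (-δ * R)) atTop (𝓝 0) :=
        Real.tendsto_exp_atBot.comp (tendsto_id.const_mul_atTop_of_neg (by linarith))
      simpa using (this.const_mul |C|).mul_const |y - x|
    refine squeeze_zero' (Eventually.of_forall fun _ => norm_nonneg _) ?_ h0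
    filter_upwards [eventually_ge_atTop R] with T hT
    have hT0 : 0 ≤ T := hR.trans hT
    refine intervalIntegral.norm_integral_le_of_norm_le_const fun s hs => ?_
    rw [uIoc_of_le hxy] at hs
    have h1 := hb (vl s (ε T)) (by simpa using hs.1.le) (by simpa using hs.2)
      (by rw [im_vl, hε, abs_of_nonneg hT0]; exact hT)
    rw [im_vl, hε, abs_of_nonneg hT0] at h1
    exact h1.trans (mul_le_mul_of_nonneg_right (le_abs_self C) (Real.exp_pos _).le)
  have t1 := hor (fun R => R) (fun R => rfl)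
  have t2 := hor (fun R => -R) (fun R => abs_neg R)
  have hcont : ContinuousOn F (rS x y R) := by
    intro z hz
    obtain ⟨a1, a2, a3, a4⟩ := hz
    rcases le_or_gt R |z.im| with h | h
    · exact (hF z a1 a2 h).continuousAt.continuousWithinAt
    · have hre : z.re = x ∨ z.re = y := by
        rcases a4 with h1 | h1 | h1
        · exact Or.inl h1
        · exact Or.inr h1
        · exact absurd h1 h.ne
      -- near `z` the set is the vertical line
      have key : ∀ σ : ℝ, z.re = σ → (Continuous fun s => F (vl σ s)) → x < y →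
          ContinuousWithinAt F (rS x y R) z := by
        intro σ hσ hc hlt
        have hopen : {w : ℂ | |w.im| < R ∧ |w.re - σ| < y - x} ∈ 𝓝 z := by
          refine IsOpen.mem_nhds ?_ ⟨h, by rw [hσ, sub_self, abs_zero]; linarith⟩
          exact (isOpen_lt (continuous_abs.comp Complex.continuous_im) continuous_const).inter
            (isOpen_lt (continuous_abs.comp (Complex.continuous_re.sub continuous_const))
              continuous_const)
        have hG : ContinuousAt (fun w : ℂ => F (vl σ w.im)) z :=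
          (hc.comp Complex.continuous_im).continuousAt
        refine (hG.continuousWithinAt (s := rS x y R)).congr_of_eventuallyEq ?_ ?_
        · filter_upwards [self_mem_nhdsWithin, mem_nhdsWithin_of_mem_nhds hopen] with w hw hw'
          obtain ⟨b1, b2, b3, b4⟩ := hw
          have : w.re = σ := by
            have hh := abs_lt.1 hw'.2
            rcases b4 with h1 | h1 | h1
            · rcases hre with h2 | h2
              · rw [h1, ← h2, hσ]
              · exfalso
                rw [h1, ← hσ, h2] at hh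
                linarith [hh.1]
            · rcases hre with h2 | h2
              · exfalso
                rw [h1, ← hσ, h2] at hh
                linarith [hh.2]
              · rw [h1, ← h2, hσ]
            · exact absurd h1 hw'.1.ne
          rw [← this]
          congr 1
          apply Complex.ext <;> simp
        · rw [← hσ]
          congr 1
          apply Complex.ext <;> simp
      rcases hxy.eq_or_lt with he | hlt
      · -- degenerate rectangle
        have hG : Continuous (fun w : ℂ => F (vl x w.im)) := hx.comp Complex.continuous_im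
        refine (hG.continuousAt.continuousWithinAt (s := rS x y R)).congr_of_eventuallyEq ?_ ?_
        · filter_upwards [self_mem_nhdsWithin] with w hw
          have : w.re = x := le_antisymm (hw.2.1.trans he.symm.le) hw.1
          rw [← this]
          congr 1
          apply Complex.ext <;> simp
        · have : z.re = x := le_antisymm (a2.trans he.symm.le) a1
          rw [← this]
          congr 1
          apply Complex.ext <;> simp
      · rcases hre with h2 | h2
        · exact key x h2 hx hlt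
        · exact key y h2 hy hlt
  have e1 : ∫ t, rO x y R t * F (rP x y R t) = Bd4 x y R F := int_rO hxy hR hcont
  have t3 : Tendsto (fun T : ℝ => Bd4 x y T F) atTop
      (𝓝 ((2 * π : ℂ)⁻¹ * (∫ s : ℝ, F (vl x s)) + (2 * π * I : ℂ)⁻¹ * 0 -
        (2 * π : ℂ)⁻¹ * (∫ s : ℝ, F (vl y s)) - (2 * π * I : ℂ)⁻¹ * 0)) := by
    unfold Bd4
    exact (((tx.const_mul _).add (t1.const_mul _)).sub (ty.const_mul _)).sub (t2.const_mul _)
  have t4 : Tendsto (fun T : ℝ => Bd4 x y T F) atTop (𝓝 (Bd4 x y R F)) := by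
    refine tendsto_const_nhds.congr' ?_
    filter_upwards [eventually_ge_atTop R] with T hT
    exact (Bd4_eq hxy hR hT hx hy hF).symm
  have := tendsto_nhds_unique t3 t4
  rw [e1, ← this]
  ring

variable {pl : Bool → Finset ℂ} {κ a b : ℝ}

/-- distance of the poles to the boundary -/
theorem rect_dist {B : Finset ℂ} (hin : ∀ p ∈ B, x < p.re ∧ p.re < y ∧ |p.im| < R) :
    ∃ δ : ℝ, 0 < δ ∧ ∀ p ∈ B, δ ≤ p.re - x ∧ δ ≤ y - p.re ∧ δ ≤ R - |p.im| := by
  induction B using Finset.induction_on with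
  | empty => exact ⟨1, one_pos, by simp⟩
  | insert p A hp ih =>
    obtain ⟨δ, hδ, h⟩ := ih fun p' hp' => hin p' (Finset.mem_insert_of_mem hp')
    obtain ⟨h1, h2, h3⟩ := hin p (Finset.mem_insert_self _ _)
    refine ⟨min δ (min (p.re - x) (min (y - p.re) (R - |p.im|))), ?_, fun p' hp' => ?_⟩
    · exact lt_min hδ (lt_min (by linarith) (lt_min (by linarith) (by linarith)))
    · have m1 := min_le_left δ (min (p.re - x) (min (y - p.re) (R - |p.im|)))
      have m2 := min_le_right δ (min (p.re - x) (min (y - p.re) (R - |p.im|)))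
      have m3 := min_le_left (p.re - x) (min (y - p.re) (R - |p.im|))
      have m4 := min_le_right (p.re - x) (min (y - p.re) (R - |p.im|))
      have m5 := min_le_left (y - p.re) (R - |p.im|)
      have m6 := min_le_right (y - p.re) (R - |p.im|)
      rcases Finset.mem_insert.1 hp' with rfl | hp'
      · exact ⟨by linarith, by linarith, by linarith⟩
      · obtain ⟨k1, k2, k3⟩ := h p' hp'
        exact ⟨by linarith, by linarith, by linarith⟩

/-- the rectangle is admissible -/
theorem OkC.rect {s : Bool} (hxy : x ≤ y) (hR : 0 ≤ R) (ha : a ≤ x)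
    (hb : y ≤ b) (hκ : 0 ≤ κ) (hin : ∀ p ∈ pl s, x < p.re ∧ p.re < y ∧ |p.im| < R) :
    OkC pl κ a b (rectC s x y R) where
  mom := measurable_rO
  mpos := measurable_rP
  re1 t := ha.trans (rP_mem hxy hR t).1
  re2 t := (rP_mem hxy hR t).2.1.trans hb
  away := by
    obtain ⟨δ, hδ, h⟩ := rect_dist hin
    refine ⟨δ, hδ, fun t p hp => ?_⟩
    obtain ⟨h1, h2, h3⟩ := h p hp
    obtain ⟨-, -, -, a4⟩ := rP_mem hxy hR t
    have n1 := Complex.abs_re_le_norm (rP x y R t - p)
    have n2 := Complex.abs_im_le_norm (rP x y R t - p)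
    rw [sub_re] at n1
    rw [sub_im] at n2
    show δ ≤ ‖rP x y R t - p‖
    rcases a4 with h4 | h4 | h4
    · rw [h4] at n1
      have := neg_le_abs (x - p.re)
      linarith
    · rw [h4] at n1
      have := le_abs_self (y - p.re)
      linarith
    · have := abs_sub_abs_le_abs_sub (rP x y R t).im p.im
      linarith
  int := by
    obtain ⟨C, hC, hb⟩ := rO_bd (x := x) (y := y) (R := R)
    have h1 : Integrable (indicator (Ioc (0 : ℝ) 4) fun _ => C) :=
      (integrable_indicator_iff measurableSet_Ioc).2 (integrableOn_const (by simp))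
    refine h1.mono' ?_ (Eventually.of_forall fun t => ?_)
    · refine Measurable.aestronglyMeasurable ?_
      have m1 : Measurable fun t => ‖rO x y R t‖ := measurable_rO.norm
      have m2 : Measurable fun t => Real.exp (-(κ * |(rP x y R t).im|)) := by
        have := measurable_rP (x := x) (y := y) (R := R)
        fun_prop
      exact m1.mul m2
    · show ‖‖rO x y R t‖ * Real.exp (-(κ * |(rP x y R t).im|))‖ ≤ _
      by_cases ht : t ∈ Ioc (0 : ℝ) 4
      · rw [indicator_of_mem ht, norm_mul, norm_norm, Real.norm_of_nonneg (Real.exp_pos _).le]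
        have h2 : Real.exp (-(κ * |(rP x y R t).im|)) ≤ 1 := by
          rw [Real.exp_le_one_iff, neg_nonpos]
          positivity
        calc _ ≤ C * 1 := mul_le_mul (hb t) h2 (Real.exp_pos _).le hC
          _ = C := mul_one C
      · rw [indicator_of_notMem ht, rO_zero ht]
        simp

theorem sin_sub_ne (G : Geo pl κ a b) {s : Bool} {z p : ℂ} (h1 : a ≤ z.re) (h2 : z.re ≤ b)
    (hp : p ∈ pl s) (hne : z ≠ p) : sin (z - p) ≠ 0 := by
  have hl := Bd.l_pos
  have hpi := Bd.pi_eq
  have h3 := re_sub_le h1 h2 (G.pin s p hp).1 (G.pin s p hp).2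
  have h4 := G.wd
  obtain ⟨h5, h6⟩ := abs_le.1 h3
  exact sin_ne (by linarith) (by linarith) (sub_ne_zero.2 hne)

theorem diff_Wt (G : Geo pl κ a b) {Q : ℤ} {g : Bool → ℂ → ℂ} (hg : Reg pl κ a b Q g) {s : Bool}
    {z : ℂ} (h1 : a ≤ z.re) (h2 : z.re ≤ b) (hz : ∀ p ∈ pl s, z ≠ p) :
    DifferentiableAt ℂ (Wt pl g s) z := by
  unfold Wt
  refine (hg.diff s z h1 h2).div ?_ ?_
  · refine DifferentiableAt.fun_finsetProd fun p _ => ?_
    fun_prop
  · exact Finset.prod_ne_zero_iff.2 fun p hp => pow_ne_zero 2 (sin_sub_ne G h1 h2 hp (hz p hp))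

/-- **the line `x` is replaced by the line `y` and the rectangle** -/
theorem rect_rep (G : Geo pl κ a b) {s : Bool} (hxy : x ≤ y) (hR : 0 ≤ R) (ha : a ≤ x)
    (hb : y ≤ b) (hin : ∀ p ∈ pl s, x < p.re ∧ p.re < y ∧ |p.im| < R) :
    Rep pl κ a b (lineC s x) (lineC s y) (rectC s x y R) := by
  intro g hg
  obtain ⟨δ, hδ, hd⟩ := rect_dist hin
  obtain ⟨m, hm, hml⟩ := prod_lower hδ G.wd (G.pin s)
  obtain ⟨D, hD, hgb⟩ := hg.bd
  have hne : ∀ z : ℂ, z.re ≤ x ∨ y ≤ z.re ∨ R ≤ |z.im| → ∀ p ∈ pl s, z ≠ p := by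
    rintro z h p hp rfl
    obtain ⟨k1, k2, k3⟩ := hin z hp
    rcases h with h | h | h <;> linarith
  have hcl : ∀ σ : ℝ, a ≤ σ → σ ≤ b → (σ ≤ x ∨ y ≤ σ) →
      Continuous fun t : ℝ => Wt pl g s (vl σ t) := by
    intro σ h1 h2 h3
    rw [continuous_iff_continuousAt]
    intro t
    have h4 : DifferentiableAt ℂ (Wt pl g s) (vl σ t) := by
      refine diff_Wt G hg (by simpa using h1) (by simpa using h2) (hne _ ?_)
      rw [re_vl]
      tauto
    refine ContinuousAt.comp (f := fun t : ℝ => vl σ t) h4.continuousAt ?_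
    unfold vl
    fun_prop
  have key := line_eq_rect (F := Wt pl g s) (C := D / m) (δ := κ + 2) hxy hR
    (by have := G.kpos; linarith) (hcl x ha (hxy.trans hb) (Or.inl le_rfl))
    (hcl y (ha.trans hxy) hb (Or.inr le_rfl))
    (fun z h1 h2 h3 => diff_Wt G hg (ha.trans h1) (h2.trans hb) (hne z (Or.inr (Or.inr h3)))) ?_
  · have e1 : ∀ σ : ℝ, ∫ t, hh pl g (lineC s σ) t =
        (2 * π : ℂ)⁻¹ * ∫ t : ℝ, Wt pl g s (vl σ t) := fun σ => by
      rw [← integral_const_mul]
      rfl
    rw [e1, e1]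
    exact key
  · intro z h1 h2 h3
    have h4 := hgb s z (ha.trans h1) (h2.trans hb)
    have h5 := hml z (ha.trans h1) (h2.trans hb) fun p hp => by
      obtain ⟨k1, k2, k3⟩ := hd p hp
      have n2 := Complex.abs_im_le_norm (z - p)
      rw [sub_im] at n2
      have := abs_sub_abs_le_abs_sub z.im p.im
      linarith
    unfold Wt
    rw [norm_div]
    have hpos : 0 < m * Real.exp (2 * (pl s).card * |z.im|) := by positivity
    refine (div_le_div₀ (by positivity) h4 hpos h5).trans (le_of_eq ?_)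
    rw [mul_div_mul_comm, ← Real.exp_sub]
    congr 2
    have : ((sg s * sg s : ℤ) : ℝ) = 1 := by rw [sg_sq]; simp
    have e2 : (sg (lineC s x).sp : ℤ) = sg s := rfl
    rw [e2, this]
    ring

end NUP1S

end
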