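import Pool.Agent.PHK.Lines
import Pool.Agent.PHK.Rect

/-!
# The boundary of a rectangle as a contour of the general theorem

`rK`, `rI`: closed and open rectangle `[x, y] × [-R, R]`.

* `rect_cauchy`: Cauchy's formula on the boundary (`rO` is clockwise, hence the sign);
* **`rect_cg`**: the boundary is a contour `Cg`, `κ = -rO`, with the weights `1`;
* `fa_cpt`, `pq_cpt`: the hypotheses of `JJ_any`, `JJ_pH` on a compact region;
* **`JJ_rect`**: the integral of `k` particles over `(0, 4]` as an integral over `ℝ`.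
-/

set_option autoImplicit false

noncomputable section

open Finset MeasureTheory Complex Filter Topology

namespace Pool.Agent.PHK

open Pool.Agent.PHD
open NUP1 (vl re_vl im_vl)
open NUP1S (rP rO rS)

/-- closed rectangle -/
def rK (x y R : ℝ) : Set ℂ := {z | x ≤ z.re ∧ z.re ≤ y ∧ |z.im| ≤ R}

/-- open rectangle -/
def rI (x y R : ℝ) : Set ℂ := {z | x < z.re ∧ z.re < y ∧ |z.im| < R}

variable {x y R : ℝ}

theorem isOpen_rI : IsOpen (rI x y R) :=
  (isOpen_lt continuous_const continuous_re).inter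
    ((isOpen_lt continuous_re continuous_const).inter
      (isOpen_lt (continuous_abs.comp continuous_im) continuous_const))

theorem rI_sub : rI x y R ⊆ rK x y R := fun _ h => ⟨h.1.le, h.2.1.le, h.2.2.le⟩

theorem isCompact_rK : IsCompact (rK x y R) := by
  have h : rK x y R = Complex.equivRealProdCLM ⁻¹' (Set.Icc x y ×ˢ Set.Icc (-R) R) := by
    ext z
    simp only [rK, Set.mem_setOf_eq, Set.mem_preimage, Set.mem_prod, Set.mem_Icc, abs_le]
    constructor
    · rintro ⟨h1, h2, h3, h4⟩
      exact ⟨⟨h1, h2⟩, h3, h4⟩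
    · rintro ⟨⟨h1, h2⟩, h3, h4⟩
      exact ⟨h1, h2, h3, h4⟩
  rw [h]
  exact Complex.equivRealProdCLM.toHomeomorph.isCompact_preimage.2 (isCompact_Icc.prod isCompact_Icc)

theorem rS_sub : rS x y R ⊆ rK x y R := fun _ h => ⟨h.1, h.2.1, h.2.2.1⟩

theorem rS_off {c z : ℂ} (hc : c ∈ rI x y R) (hz : z ∈ rS x y R) :
    min (min (c.re - x) (y - c.re)) (R - |c.im|) ≤ ‖z - c‖ := by
  obtain ⟨h1, h2, h3⟩ := hc
  obtain ⟨_, _, _, h4⟩ := hz
  have n1 := abs_re_le_norm (z - c)
  have n2 := abs_im_le_norm (z - c)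
  rw [sub_re] at n1
  rw [sub_im] at n2
  have m1 := min_le_left (min (c.re - x) (y - c.re)) (R - |c.im|)
  have m2 := min_le_right (min (c.re - x) (y - c.re)) (R - |c.im|)
  have m3 := min_le_left (c.re - x) (y - c.re)
  have m4 := min_le_right (c.re - x) (y - c.re)
  rcases h4 with h | h | h
  · rw [h] at n1
    have := neg_le_abs (x - c.re)
    linarith
  · rw [h] at n1
    have := le_abs_self (y - c.re)
    linarith
  · have := abs_sub_abs_le_abs_sub z.im c.im
    linarith

theorem off_pos {c : ℂ} (hc : c ∈ rI x y R) :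
    0 < min (min (c.re - x) (y - c.re)) (R - |c.im|) :=
  lt_min (lt_min (sub_pos.2 hc.1) (sub_pos.2 hc.2.1)) (sub_pos.2 hc.2.2)

theorem rS_ne {c z : ℂ} (hc : c ∈ rI x y R) (hz : z ∈ rS x y R) : z - c ≠ 0 :=
  norm_pos_iff.1 ((off_pos hc).trans_le (rS_off hc hz))

theorem isCompact_rS : IsCompact (rS x y R) := by
  refine isCompact_rK.of_isClosed_subset ?_ rS_sub
  have c1 : Continuous fun z : ℂ => |z.im| := continuous_abs.comp continuous_im
  exact (isClosed_le continuous_const continuous_re).inter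
    ((isClosed_le continuous_re continuous_const).inter ((isClosed_le c1 continuous_const).inter
      ((isClosed_eq continuous_re continuous_const).union
        ((isClosed_eq continuous_re continuous_const).union (isClosed_eq c1 continuous_const)))))

/-- integrability on the boundary -/
theorem rO_int (hxy : x ≤ y) (hR : 0 ≤ R) {G : ℂ → ℂ} {O : Set ℂ} (oO : IsOpen O)
    (hO : rS x y R ⊆ O) (hG : ContinuousOn G O) :
    Integrable fun t => rO x y R t * G (rP x y R t) := by
  obtain ⟨C, hC⟩ := (isCompact_rS (x := x) (y := y) (R := R)).exists_bound_of_continuousOn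
    (hG.mono hO)
  obtain ⟨D, hD, hb⟩ := NUP1S.rO_bd (x := x) (y := y) (R := R)
  have h1 : Integrable (Set.indicator (Set.Ioc (0 : ℝ) 4) fun _ => D * |C|) :=
    (integrable_indicator_iff measurableSet_Ioc).2 (integrableOn_const (by simp))
  have hm : Measurable fun t => rO x y R t * G (rP x y R t) :=
    NUP1S.measurable_rO.mul (Ctr.meas_cont oO hG NUP1S.measurable_rP fun t =>
      hO (NUP1S.rP_mem hxy hR t))
  refine h1.mono' hm.aestronglyMeasurable (Filter.Eventually.of_forall fun t => ?_)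
  by_cases ht : t ∈ Set.Ioc (0 : ℝ) 4
  · rw [Set.indicator_of_mem ht, norm_mul]
    exact mul_le_mul (hb t) ((hC _ (NUP1S.rP_mem hxy hR t)).trans (le_abs_self C))
      (norm_nonneg _) hD
  · rw [Set.indicator_of_notMem ht, NUP1S.rO_zero ht]
    simp

/-- Cauchy's theorem on the boundary -/
theorem rect_an (hxy : x ≤ y) (hR : 0 ≤ R) {F : ℂ → ℂ}
    (hF : ∀ z ∈ rK x y R, DifferentiableAt ℂ F z) :
    ∫ t, rO x y R t * F (rP x y R t) = 0 := by
  rw [NUP1S.int_rO hxy hR fun z hz => (hF z (rS_sub hz)).continuousAt.continuousWithinAt]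
  exact NUP1S.rect_zero hxy (by linarith) fun z h1 h2 h3 h4 => hF z ⟨h1, h2, abs_le.2 ⟨h3, h4⟩⟩

theorem gauss_bd {c : ℂ} (z : ℂ) {w : ℝ} (hw : |z.re - c.re| ≤ w) :
    ‖Complex.exp ((z - c) ^ 2)‖ ≤ Real.exp (w ^ 2 + |c.im| + 1 / 4) * Real.exp (-(1 * |z.im|)) := by
  rw [Complex.norm_exp, ← Real.exp_add]
  refine Real.exp_le_exp.2 ?_
  have e : ((z - c) ^ 2).re = (z.re - c.re) ^ 2 - (z.im - c.im) ^ 2 := by
    simp only [pow_two, mul_re, sub_re, sub_im]
  rw [e]
  have h1 : (z.re - c.re) ^ 2 ≤ w ^ 2 := by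
    rw [← sq_abs (z.re - c.re)]
    exact pow_le_pow_left₀ (abs_nonneg _) hw 2
  have h2 := abs_sub_abs_le_abs_sub z.im c.im
  have h3 : (z.im - c.im) ^ 2 = |z.im - c.im| ^ 2 := (sq_abs _).symm
  have h4 := sq_nonneg (|z.im - c.im| - 1 / 2)
  nlinarith

/-- the winding number, with a Gaussian factor -/
theorem rect_gauss (hxy : x < y) (hw : y - x < Real.pi) (hR : 0 < R) {c : ℂ} (hc : c ∈ rI x y R) :
    ∫ t, rO x y R t * (Complex.exp ((rP x y R t - c) ^ 2) / (rP x y R t - c)) = -1 := by
  have hre : ∀ z : ℂ, x ≤ z.re → z.re ≤ y → |z.re - c.re| ≤ y - x := by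
    intro z h1 h2
    rw [abs_le]
    constructor <;> linarith [hc.1, hc.2.1]
  set E : ℂ → ℂ := fun z => Complex.exp ((z - c) ^ 2) with hE
  set x0 : Bool → ℝ := fun b => if b then y else x with hx0
  have dE : Differentiable ℂ E := by
    rw [hE]
    fun_prop
  obtain ⟨i1, e1⟩ := lines_resid (x := x0) (ι := Unit) (c := fun _ => c) (F := E) (δ := 1)
    (C := Real.exp ((y - x) ^ 2 + |c.im| + 1 / 4)) hxy hw (fun _ _ _ => rfl)
    (fun _ => ⟨hc.1, hc.2.1⟩) (fun z _ _ => dE z) one_pos
    (fun z h1 h2 => gauss_bd z (hre z h1 h2))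
  have i2 := integrable_lM.1 i1
  rw [integral_lM i2] at e1
  have e2 : ∀ b : Bool, ∫ t : ℝ, lK (b, t) * (E (lG x0 (b, t)) / ∏ _i : Unit, (lG x0 (b, t) - c)) =
      ((if b then 1 else -1) * (2 * Real.pi : ℂ)⁻¹) * ∫ t : ℝ, E (vl (x0 b) t) / (vl (x0 b) t - c) := by
    intro b
    rw [← integral_const_mul]
    refine integral_congr_ae (Filter.Eventually.of_forall fun t => ?_)
    have : lG x0 (b, t) = vl (x0 b) t := rfl
    simp only [this, lK, univ_unique, prod_const, card_singleton, pow_one]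
    ring
  rw [e2, e2] at e1
  simp only [univ_unique, sum_singleton, if_true, Bool.false_eq_true, if_false, one_mul] at e1
  have e3 : E c = 1 := by simp [hE]
  have e4 : E c / ∏ _j ∈ ({default} : Finset Unit).erase (default : Unit), (c - c) = 1 := by
    rw [e3]
    simp
  rw [e4] at e1
  have hx1 : ∀ σ : ℝ, (σ = x ∨ σ = y) → ∀ t : ℝ, vl σ t - c ≠ 0 := by
    intro σ hσ t e
    have h1 := congrArg Complex.re e
    rw [sub_re, re_vl, zero_re] at h1
    rcases hσ with rfl | rfl
    · linarith [hc.1]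
    · linarith [hc.2.1]
  have cl : ∀ σ : ℝ, (σ = x ∨ σ = y) → Continuous fun t : ℝ => E (vl σ t) / (vl σ t - c) := by
    intro σ hσ
    have h1 : Continuous fun t : ℝ => vl σ t := by
      unfold NUP1.vl
      fun_prop
    exact (dE.continuous.comp h1).div (h1.sub continuous_const) (hx1 σ hσ)
  have key := NUP1S.line_eq_rect (F := fun z => E z / (z - c)) (δ := 1)
    (C := Real.exp ((y - x) ^ 2 + |c.im| + 1 / 4) / (R - |c.im|)) hxy.le hR.le one_pos
    (cl x (Or.inl rfl)) (cl y (Or.inr rfl))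
    (fun z h1 h2 h3 => (dE z).div (by fun_prop) (by
      intro e
      rw [sub_eq_zero] at e
      rw [e] at h3
      linarith [hc.2.2]))
    (fun z h1 h2 h3 => by
      have h4 : R - |c.im| ≤ ‖z - c‖ := by
        have n2 := abs_im_le_norm (z - c)
        rw [sub_im] at n2
        have := abs_sub_abs_le_abs_sub z.im c.im
        linarith
      have h5 : 0 < R - |c.im| := sub_pos.2 hc.2.2
      rw [norm_div, div_mul_eq_mul_div, neg_mul]
      exact div_le_div₀ (by positivity) (gauss_bd z (hre z h1 h2)) h5 h4)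
  simp only [hx0, if_true, Bool.false_eq_true, if_false] at e1
  have e5 : ∫ t, rO x y R t * (E (rP x y R t) / (rP x y R t - c)) = -1 := by
    linear_combination -key - e1
  exact e5

/-- **Cauchy's formula on the boundary** -/
theorem rect_cauchy (hxy : x < y) (hw : y - x < Real.pi) (hR : 0 < R) {F : ℂ → ℂ} {U : Set ℂ}
    (oU : IsOpen U) (hU : rK x y R ⊆ U) (hF : DifferentiableOn ℂ F U) {c : ℂ}
    (hc : c ∈ rI x y R) :
    ∫ t, rO x y R t * (F (rP x y R t) / (rP x y R t - c)) = -F c := by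
  set E : ℂ → ℂ := fun z => Complex.exp ((z - c) ^ 2) with hE
  have dE : Differentiable ℂ E := by
    rw [hE]
    fun_prop
  have e0 : E c = 1 := by simp [hE]
  set H : ℂ → ℂ := fun z => F z - F c * E z with hH
  have dH : DifferentiableOn ℂ H U := hF.sub (dE.differentiableOn.const_mul _)
  have H0 : H c = 0 := by simp [hH, e0]
  have dG : DifferentiableOn ℂ (dslope H c) U :=
    (Complex.differentiableOn_dslope (oU.mem_nhds (hU (rI_sub hc)))).2 dH
  have g0 : ∫ t, rO x y R t * dslope H c (rP x y R t) = 0 :=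
    rect_an hxy.le hR.le fun z hz => dG.differentiableAt (oU.mem_nhds (hU hz))
  have g1 := rect_gauss hxy hw hR hc
  have e1 : ∀ t, rO x y R t * (F (rP x y R t) / (rP x y R t - c)) =
      rO x y R t * dslope H c (rP x y R t) +
        F c * (rO x y R t * (E (rP x y R t) / (rP x y R t - c))) := by
    intro t
    have h1 := NUP1S.rP_mem hxy.le hR.le t (R := R) (x := x) (y := y)
    have h2 := rS_ne hc h1
    rw [dslope_of_ne _ (sub_ne_zero.1 h2), slope_def_field, H0, sub_zero, hH]
    field_simp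
    ring
  simp only [e1]
  rw [integral_add, g0, integral_const_mul, g1]
  · ring
  · exact rO_int hxy.le hR.le oU (fun z hz => hU (rS_sub hz)) dG.continuousOn
  · refine (rO_int (G := fun z => E z / (z - c)) hxy.le hR.le (O := {z | z - c ≠ 0})
      (isOpen_ne_fun (by fun_prop) continuous_const) (fun z hz => rS_ne hc hz) ?_).const_mul _
    exact dE.continuous.continuousOn.div (by fun_prop) fun z hz => hz

/-- **the residue theorem on the boundary**, simple poles -/
theorem rect_resid {n : ℕ} (hxy : x < y) (hw : y - x < Real.pi) (hR : 0 < R) {F : ℂ → ℂ}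
    {U : Set ℂ} (oU : IsOpen U) (hU : rK x y R ⊆ U) (hF : DifferentiableOn ℂ F U)
    {c : Fin n → ℂ} (hc : Function.Injective c) (hΩ : ∀ i, c i ∈ rI x y R) :
    ∫ t, -rO x y R t * (F (rP x y R t) / ∏ i, (rP x y R t - c i)) =
      ∑ i, F (c i) / ∏ j ∈ univ.erase i, (c i - c j) := by
  rcases n with _ | n
  · simp only [univ_eq_empty, prod_empty, div_one, sum_empty, neg_mul]
    rw [integral_neg, rect_an hxy.le hR.le fun z hz => hF.differentiableAt (oU.mem_nhds (hU hz)),
      neg_zero]
  have hne : ∀ t i, rP x y R t - c i ≠ 0 := fun t i =>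
    rS_ne (hΩ i) (NUP1S.rP_mem hxy.le hR.le t)
  have h1 : ∀ t, -rO x y R t * (F (rP x y R t) / ∏ i, (rP x y R t - c i)) =
      ∑ i, (-(1 / ∏ j ∈ univ.erase i, (c i - c j))) *
        (rO x y R t * (F (rP x y R t) / (rP x y R t - c i))) := by
    intro t
    rw [div_eq_mul_one_div (F (rP x y R t)), Ctr.part hc fun i => hne t i, mul_sum, mul_sum]
    refine sum_congr rfl fun i _ => ?_
    ring
  simp only [h1]
  rw [integral_finset_sum]
  · refine sum_congr rfl fun i _ => ?_
    rw [integral_const_mul, rect_cauchy hxy hw hR oU hU hF (hΩ i)]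
    ring
  · intro i _
    refine Integrable.const_mul ?_ _
    refine rO_int (G := fun z => F z / (z - c i)) hxy.le hR.le (O := U ∩ {z | z - c i ≠ 0})
      (oU.inter (isOpen_ne_fun (by fun_prop) continuous_const))
      (fun z hz => ⟨hU (rS_sub hz), rS_ne (hΩ i) hz⟩) ?_
    exact (hF.continuousOn.mono Set.inter_subset_left).div (by fun_prop) fun z hz => hz.2

/-- the measure of the boundary -/
def rM : Measure ℝ := volume.restrict (Set.Ioc 0 4)

/-- **the boundary of a rectangle is a contour** -/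
theorem rect_cg (hxy : x < y) (hw : y - x < Real.pi) (hR : 0 < R) {U : Set ℂ}
    (oU : IsOpen U) (hU : rK x y R ⊆ U) :
    Cg rM (rP x y R) (fun t => -rO x y R t) U (rK x y R) (rI x y R) (fun _ => 1)
      (fun _ => 1) where
  sf := by unfold rM; infer_instance
  mγ := NUP1S.measurable_rP
  mκ := NUP1S.measurable_rO.neg
  bκ := by
    obtain ⟨D, _, hb⟩ := NUP1S.rO_bd (x := x) (y := y) (R := R)
    exact ⟨D, fun t => by rw [norm_neg]; exact hb t⟩
  oU := oU
  oΩ := isOpen_rI
  sub := rI_sub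
  sub' := hU
  mem := fun t => rS_sub (NUP1S.rP_mem hxy.le hR.le t)
  φ1 := fun _ => le_rfl
  w0 := fun _ => zero_le_one
  iw := by
    unfold rM
    exact integrableOn_const (by simp)
  off := fun c hc => ⟨_, off_pos hc, fun t => rS_off hc (NUP1S.rP_mem hxy.le hR.le t)⟩
  rs := fun n c hc hΩ F hF => by
    rw [← rect_resid hxy hw hR oU hU hF.1 hc hΩ]
    unfold rM
    rw [setIntegral_eq_integral_of_forall_compl_eq_zero]
    intro t ht
    rw [NUP1S.rO_zero ht]
    ring

/-- families of one body functions on a compact region -/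
theorem fa_cpt {ι : Type*} [Fintype ι] {U S Ω : Set ℂ} (cS : IsCompact S) (hS : S ⊆ U)
    (oΩ : IsOpen Ω) {F : (ι → ℂ) → ℂ → ℂ}
    (an : ∀ c : ι → ℂ, (∀ i, c i ∈ Ω) → DifferentiableOn ℂ (F c) U)
    (ct : ContinuousOn (fun p : (ι → ℂ) × ℂ => F p.1 p.2) ({c | ∀ i, c i ∈ Ω} ×ˢ U)) (k : ℕ) :
    Fa U S Ω (fun _ => 1) (fun _ => 1) k F where
  an := an
  ct := ct
  bd := fun c0 h0 => by
    have oA : IsOpen {c : ι → ℂ | ∀ i, c i ∈ Ω} := by
      have : {c : ι → ℂ | ∀ i, c i ∈ Ω} = Set.pi Set.univ fun _ => Ω := by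
        ext c
        simp
      rw [this]
      exact isOpen_set_pi Set.finite_univ fun _ _ => oΩ
    obtain ⟨K, k1, k2, k3⟩ := exists_compact_subset oA h0
    obtain ⟨C, hC⟩ := (k1.prod cS).exists_bound_of_continuousOn (ct.mono (Set.prod_mono k3 hS))
    refine ⟨|C|, abs_nonneg _, ?_⟩
    filter_upwards [mem_interior_iff_mem_nhds.1 k2] with c hc z hz
    rw [one_pow, mul_one, mul_one]
    exact (hC (c, z) ⟨hc, hz⟩).trans (le_abs_self C)

/-- pair function on a compact region -/
theorem pq_cpt {q : ℂ → ℂ} {U S V : Set ℂ} (cS : IsCompact S) (hS : S ⊆ U) (hq : Pf q U V) :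
    Pq q U S V (fun _ => 1) where
  oV := hq.oV
  dif := hq.dif
  an := hq.an
  even := hq.even
  bd := by
    have hc : ContinuousOn (fun p : ℂ × ℂ => q (p.1 - p.2)) (S ×ˢ S) := by
      refine hq.an.continuousOn.comp (by fun_prop) ?_
      rintro ⟨z, w⟩ hz
      exact hq.dif z (hS hz.1) w (hS hz.2)
    obtain ⟨C, h5⟩ := (cS.prod cS).exists_bound_of_continuousOn hc
    refine ⟨|C|, abs_nonneg _, fun z hz w hw => ?_⟩
    rw [mul_one, mul_one]
    exact (h5 (z, w) ⟨hz, hw⟩).trans (le_abs_self _)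

/-- **the integral of `k` particles on the boundary as an integral over `ℝ`** -/
theorem JJ_rect {ι : Type*} [Fintype ι] (f q : ℂ → ℂ) (c : ι → ℂ) (k : ℕ) :
    JJ rM (rP x y R) (fun t => -rO x y R t) f q c k = (-1) ^ k *
      ∫ t : Fin k → ℝ, (∏ a, rO x y R (t a) * (f (rP x y R (t a)) / ∏ i, (rP x y R (t a) - c i))) *
        QP q (fun a => rP x y R (t a)) ∂(Measure.pi fun _ => volume) := by
  unfold JJ rM
  rw [← Measure.restrict_pi_pi (μ := fun _ : Fin k => (volume : Measure ℝ))
    (fun _ => Set.Ioc (0 : ℝ) 4), setIntegral_eq_integral_of_forall_compl_eq_zero,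
    ← integral_const_mul]
  · refine integral_congr_ae (Filter.Eventually.of_forall fun t => ?_)
    simp only [one, neg_mul]
    rw [prod_neg, card_univ, Fintype.card_fin, mul_assoc]
  · intro t ht
    simp only [Set.mem_pi, Set.mem_univ, true_implies, not_forall] at ht
    obtain ⟨a, ha⟩ := ht
    have : one (rP x y R) (fun t => -rO x y R t) f c (t a) = 0 := by
      unfold one
      simp only [NUP1S.rO_zero ha, neg_zero, zero_mul]
    rw [prod_eq_zero (mem_univ a) this, zero_mul]

end Pool.Agent.PHK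

end
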