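import Mathlib.Analysis.Calculus.DSlope
import Mathlib.Analysis.Complex.RemovableSingularity
import Mathlib.Analysis.SpecialFunctions.Trigonometric.Complex
import Mathlib.Analysis.SpecialFunctions.Trigonometric.ComplexDeriv
import Pool.Agent.NUP.MF.Dens

/-!
# The localiser of the holes

* `tau z = - tan (3 z) ^ 2`: double zero at `0`, analytic for `|Re z| < 4 l / 3`, modulus `≤ 1` for
  `|Re z| ≤ 2 l / 3`, there **`‖1 - tau z‖ ≤ 4 exp (-6 |Im z|)`**;
* `loc b h = 1 - ∏ i, tau (h - b i)`: value `1` and derivative `0` at every `b i`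
  (**`loc_eq`**: `loc b h = 1 + (∏ i, (h - b i) ^ 2) * G h` with `G` analytic), `‖loc b h‖ ≤ 2`,
  **`‖loc b h‖ ≤ ∑ i, 4 exp (-6 |Im h - Im (b i)|)`**.
-/

set_option autoImplicit false

noncomputable section

open Complex Filter Topology

namespace PHK

open NUMF (l l_pos)

lemma four_l : 3 * (4 / 3 * l) = Real.pi / 2 := by
  unfold NUMF.l
  ring

/-- the factor of one node -/
def tau (z : ℂ) : ℂ := -(Complex.tan (3 * z)) ^ 2

theorem tau_zero : tau 0 = 0 := by simp [tau]

theorem tau_neg (z : ℂ) : tau (-z) = tau z := by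
  unfold tau
  rw [mul_neg, Complex.tan_neg, neg_sq]

lemma cos_re (z : ℂ) : (Complex.cos z).re = Real.cos z.re * Real.cosh z.im := by
  conv_lhs => rw [← Complex.re_add_im z, Complex.cos_add_mul_I]
  simp [Complex.mul_re, Complex.mul_im, Complex.cos_ofReal_re, Complex.sin_ofReal_re,
    Complex.cosh_ofReal_re, Complex.sinh_ofReal_re]

lemma cos_im (z : ℂ) : (Complex.cos z).im = -(Real.sin z.re * Real.sinh z.im) := by
  conv_lhs => rw [← Complex.re_add_im z, Complex.cos_add_mul_I]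
  simp [Complex.mul_re, Complex.mul_im, Complex.cos_ofReal_re, Complex.sin_ofReal_re,
    Complex.cosh_ofReal_re, Complex.sinh_ofReal_re]

lemma sin_re (z : ℂ) : (Complex.sin z).re = Real.sin z.re * Real.cosh z.im := by
  conv_lhs => rw [← Complex.re_add_im z, Complex.sin_add_mul_I]
  simp [Complex.mul_re, Complex.mul_im, Complex.cos_ofReal_re, Complex.sin_ofReal_re,
    Complex.cosh_ofReal_re, Complex.sinh_ofReal_re]

lemma sin_im (z : ℂ) : (Complex.sin z).im = Real.cos z.re * Real.sinh z.im := by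
  conv_lhs => rw [← Complex.re_add_im z, Complex.sin_add_mul_I]
  simp [Complex.mul_re, Complex.mul_im, Complex.cos_ofReal_re, Complex.sin_ofReal_re,
    Complex.cosh_ofReal_re, Complex.sinh_ofReal_re]

lemma norm_cos_sq (z : ℂ) : ‖Complex.cos z‖ ^ 2 = (Real.cosh (2 * z.im) + Real.cos (2 * z.re)) / 2 := by
  rw [← Complex.normSq_eq_norm_sq, Complex.normSq_apply, cos_re, cos_im, Real.cosh_two_mul,
    Real.cos_two_mul]
  have h1 := Real.sin_sq_add_cos_sq z.re
  have h2 := Real.cosh_sq z.im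
  have h3 : Real.sin z.re ^ 2 = 1 - Real.cos z.re ^ 2 := by linarith
  have h4 : Real.sinh z.im ^ 2 = Real.cosh z.im ^ 2 - 1 := by linarith
  calc _ = Real.cos z.re ^ 2 * Real.cosh z.im ^ 2 + Real.sin z.re ^ 2 * Real.sinh z.im ^ 2 := by ring
    _ = _ := by rw [h3, h4]; ring

lemma norm_sin_sq (z : ℂ) : ‖Complex.sin z‖ ^ 2 = (Real.cosh (2 * z.im) - Real.cos (2 * z.re)) / 2 := by
  rw [← Complex.normSq_eq_norm_sq, Complex.normSq_apply, sin_re, sin_im, Real.cosh_two_mul,
    Real.cos_two_mul]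
  have h1 := Real.sin_sq_add_cos_sq z.re
  have h2 := Real.cosh_sq z.im
  have h3 : Real.sin z.re ^ 2 = 1 - Real.cos z.re ^ 2 := by linarith
  have h4 : Real.sinh z.im ^ 2 = Real.cosh z.im ^ 2 - 1 := by linarith
  calc _ = Real.sin z.re ^ 2 * Real.cosh z.im ^ 2 + Real.cos z.re ^ 2 * Real.sinh z.im ^ 2 := by ring
    _ = _ := by rw [h3, h4]; ring

lemma cos3_re_pos {z : ℂ} (h : |z.re| < 4 / 3 * l) : 0 < (Complex.cos (3 * z)).re := by
  rw [cos_re]
  have h4 := four_l
  obtain ⟨h1, h2⟩ := abs_lt.1 h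
  have e1 : (3 * z).re = 3 * z.re := by simp
  refine mul_pos (Real.cos_pos_of_mem_Ioo ⟨?_, ?_⟩) (Real.cosh_pos _)
  · rw [e1]; linarith
  · rw [e1]; linarith

lemma cos3_ne {z : ℂ} (h : |z.re| < 4 / 3 * l) : Complex.cos (3 * z) ≠ 0 := fun e => by
  have := cos3_re_pos h
  rw [e] at this
  exact lt_irrefl _ this

/-- the strip of analyticity -/
def St : Set ℂ := {z | |z.re| < 4 / 3 * l}

lemma isOpen_St : IsOpen St := isOpen_lt (continuous_abs.comp continuous_re) continuous_const

lemma zero_mem_St : (0 : ℂ) ∈ St := by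
  show |(0 : ℂ).re| < 4 / 3 * l
  have := l_pos
  rw [Complex.zero_re, abs_zero]
  positivity

lemma diff_tan3 : DifferentiableOn ℂ (fun z => Complex.tan (3 * z)) St := fun z hz => by
  have h1 : HasDerivAt (fun z : ℂ => 3 * z) 3 z := by
    simpa using (hasDerivAt_id z).const_mul (3 : ℂ)
  have := (Complex.hasDerivAt_tan (cos3_ne hz)).comp z h1
  exact this.differentiableAt.differentiableWithinAt

theorem diff_tau : DifferentiableOn ℂ tau St := (diff_tan3.pow 2).neg

/-- `tau z = z ^ 2 * Tq z` -/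
def Tq (z : ℂ) : ℂ := -(dslope (fun z => Complex.tan (3 * z)) 0 z) ^ 2

theorem diff_Tq : DifferentiableOn ℂ Tq St :=
  (((differentiableOn_dslope (isOpen_St.mem_nhds zero_mem_St)).2 diff_tan3).pow 2).neg

theorem tau_eq (z : ℂ) : tau z = z ^ 2 * Tq z := by
  have h := sub_smul_dslope (fun z => Complex.tan (3 * z)) 0 z
  simp only [mul_zero, Complex.tan_zero, sub_zero, smul_eq_mul] at h
  unfold tau Tq
  rw [← h]
  ring

theorem norm_tau_le {z : ℂ} (h : |z.re| ≤ 2 / 3 * l) : ‖tau z‖ ≤ 1 := by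
  have hl := l_pos
  have h4 := four_l
  have hz : |z.re| < 4 / 3 * l := by linarith
  obtain ⟨h1, h2⟩ := abs_le.1 h
  have e1 : (3 * z).re = 3 * z.re := by simp
  have hc : 0 ≤ Real.cos (2 * (3 * z).re) := by
    refine Real.cos_nonneg_of_mem_Icc ⟨?_, ?_⟩
    · rw [e1]; linarith
    · rw [e1]; linarith
  have hn : 0 < ‖Complex.cos (3 * z)‖ := norm_pos_iff.2 (cos3_ne hz)
  unfold tau
  rw [norm_neg, norm_pow, Complex.tan, norm_div, div_pow, div_le_one (by positivity), norm_sin_sq,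
    norm_cos_sq]
  linarith

theorem one_sub_tau {z : ℂ} (h : |z.re| < 4 / 3 * l) : 1 - tau z = (Complex.cos (3 * z) ^ 2)⁻¹ := by
  have hc := cos3_ne h
  unfold tau
  rw [Complex.tan, sub_neg_eq_add, div_pow]
  have := Complex.sin_sq_add_cos_sq (3 * z)
  field_simp
  linear_combination this

theorem norm_one_sub_tau {z : ℂ} (h : |z.re| ≤ 2 / 3 * l) :
    ‖1 - tau z‖ ≤ 4 * Real.exp (-6 * |z.im|) := by
  have hl := l_pos
  have h4 := four_l
  have hz : |z.re| < 4 / 3 * l := by linarith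
  obtain ⟨h1, h2⟩ := abs_le.1 h
  have e1 : (3 * z).re = 3 * z.re := by simp
  have e2 : (3 * z).im = 3 * z.im := by simp
  have hc : 0 ≤ Real.cos (2 * (3 * z).re) := by
    refine Real.cos_nonneg_of_mem_Icc ⟨?_, ?_⟩
    · rw [e1]; linarith
    · rw [e1]; linarith
  have hcosh : Real.exp (6 * |z.im|) / 2 ≤ Real.cosh (2 * (3 * z).im) := by
    rw [e2, ← Real.cosh_abs, Real.cosh_eq, show |2 * (3 * z.im)| = 6 * |z.im| by
      rw [show 2 * (3 * z.im) = 6 * z.im by ring, abs_mul]; norm_num]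
    have := Real.exp_pos (-(6 * |z.im|))
    linarith
  rw [one_sub_tau hz, norm_inv, norm_pow, norm_cos_sq]
  have hE := Real.exp_pos (6 * |z.im|)
  have hpos : 0 < (Real.cosh (2 * (3 * z).im) + Real.cos (2 * (3 * z).re)) / 2 := by linarith
  rw [inv_le_comm₀ hpos (by positivity)]
  have e3 : (4 * Real.exp (-6 * |z.im|))⁻¹ = Real.exp (6 * |z.im|) / 4 := by
    rw [mul_inv, ← Real.exp_neg]
    rw [show -(-6 * |z.im|) = 6 * |z.im| by ring]
    ring
  rw [e3]
  linarith

/-! ### the localiser -/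

variable {ι : Type*} [Fintype ι]

/-- **the localiser** of the nodes `b` -/
def loc (b : ι → ℂ) (h : ℂ) : ℂ := 1 - ∏ i, tau (h - b i)

/-- the common strip -/
def Sb (b : ι → ℂ) : Set ℂ := {z | ∀ i, |(z - b i).re| < 4 / 3 * l}

lemma isOpen_Sb (b : ι → ℂ) : IsOpen (Sb b) := by
  have : Sb b = ⋂ i, {z : ℂ | |(z - b i).re| < 4 / 3 * l} := by
    ext z
    simp [Sb]
  rw [this]
  exact isOpen_iInter_of_finite fun i => isOpen_lt
    (continuous_abs.comp (continuous_re.comp (continuous_id.sub continuous_const))) continuous_const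

theorem diff_loc (b : ι → ℂ) : DifferentiableOn ℂ (loc b) (Sb b) := by
  unfold loc
  refine (differentiableOn_const _).sub (DifferentiableOn.fun_finsetProd fun i _ => ?_)
  exact DifferentiableOn.comp (g := tau) (f := fun z => z - b i) (t := St) diff_tau
    ((differentiableOn_id).sub (differentiableOn_const _)) fun z hz => hz i

/-- the quotient -/
def Gb (b : ι → ℂ) (z : ℂ) : ℂ := -∏ i, Tq (z - b i)

theorem diff_Gb (b : ι → ℂ) : DifferentiableOn ℂ (Gb b) (Sb b) := by
  unfold Gb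
  refine DifferentiableOn.neg (DifferentiableOn.fun_finsetProd fun i _ => ?_)
  exact DifferentiableOn.comp (g := Tq) (f := fun z => z - b i) (t := St) diff_Tq
    ((differentiableOn_id).sub (differentiableOn_const _)) fun z hz => hz i

/-- **the localiser changes nothing at the nodes**: form for a multiple of the nodal polynomial -/
theorem loc_eq (b : ι → ℂ) (z : ℂ) : loc b z = 1 + (∏ i, (z - b i) ^ 2) * Gb b z := by
  unfold loc Gb
  rw [Finset.prod_congr rfl fun i _ => tau_eq (z - b i), Finset.prod_mul_distrib]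
  ring

/-- the same with every node listed twice -/
theorem loc_eq_two (b : ι → ℂ) (z : ℂ) :
    loc b z = 1 + (∏ p : ι × Bool, (z - b p.1)) * Gb b z := by
  rw [loc_eq, Fintype.prod_prod_type]
  congr 2
  refine Finset.prod_congr rfl fun i _ => ?_
  simp [sq]

theorem loc_node (b : ι → ℂ) (i : ι) : loc b (b i) = 1 := by
  rw [loc_eq, Finset.prod_eq_zero (Finset.mem_univ i) (by simp), zero_mul, add_zero]

theorem hasDerivAt_loc_node (b : ι → ℂ) {i : ι} (hb : b i ∈ Sb b) : HasDerivAt (loc b) 0 (b i) := by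
  have hG : DifferentiableAt ℂ (Gb b) (b i) :=
    (diff_Gb b).differentiableAt ((isOpen_Sb b).mem_nhds hb)
  classical
  have e : loc b = fun z => 1 + (z - b i) ^ 2 *
      ((∏ j ∈ Finset.univ.erase i, (z - b j) ^ 2) * Gb b z) := by
    funext z
    rw [loc_eq, ← Finset.mul_prod_erase _ _ (Finset.mem_univ i)]
    ring
  have hR : DifferentiableAt ℂ (fun z =>
      (∏ j ∈ Finset.univ.erase i, (z - b j) ^ 2) * Gb b z) (b i) := by
    refine DifferentiableAt.mul ?_ hG
    refine DifferentiableAt.fun_finsetProd fun j _ => ?_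
    exact ((differentiableAt_id).sub (differentiableAt_const _)).pow 2
  have h2 : HasDerivAt (fun z : ℂ => (z - b i) ^ 2) 0 (b i) := by
    have h := ((hasDerivAt_id' (b i)).sub_const (b i)).fun_pow 2
    simpa using h
  have h3 := (h2.mul hR.hasDerivAt).const_add 1
  rw [e]
  simpa using h3

lemma norm_one_sub_prod_le {α : Type*} (s : Finset α) (f : α → ℂ) (h : ∀ i ∈ s, ‖f i‖ ≤ 1) :
    ‖1 - ∏ i ∈ s, f i‖ ≤ ∑ i ∈ s, ‖1 - f i‖ := by
  classical
  induction s using Finset.induction_on with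
  | empty => simp
  | insert a s ha ih =>
    rw [Finset.prod_insert ha, Finset.sum_insert ha]
    have h1 := h a (Finset.mem_insert_self a s)
    have h2 := ih fun i hi => h i (Finset.mem_insert_of_mem hi)
    calc ‖1 - f a * ∏ i ∈ s, f i‖ = ‖(1 - f a) + f a * (1 - ∏ i ∈ s, f i)‖ := by
          congr 1
          ring
      _ ≤ ‖1 - f a‖ + ‖f a * (1 - ∏ i ∈ s, f i)‖ := norm_add_le _ _
      _ ≤ _ := by
          rw [norm_mul]
          have := mul_le_mul h1 le_rfl (norm_nonneg (1 - ∏ i ∈ s, f i)) zero_le_one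
          linarith

variable {b : ι → ℂ} {h : ℂ}

theorem norm_loc_le_two (hb : ∀ i, |(h - b i).re| ≤ 2 / 3 * l) : ‖loc b h‖ ≤ 2 := by
  unfold loc
  refine (norm_sub_le _ _).trans ?_
  have : ‖∏ i, tau (h - b i)‖ ≤ 1 := by
    rw [norm_prod]
    exact Finset.prod_le_one (fun i _ => norm_nonneg _) fun i _ => norm_tau_le (hb i)
  rw [norm_one]
  linarith

/-- **locality** -/
theorem norm_loc_le_sum (hb : ∀ i, |(h - b i).re| ≤ 2 / 3 * l) :
    ‖loc b h‖ ≤ ∑ i, 4 * Real.exp (-6 * |h.im - (b i).im|) := by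
  unfold loc
  refine (norm_one_sub_prod_le _ _ fun i _ => norm_tau_le (hb i)).trans
    (Finset.sum_le_sum fun i _ => ?_)
  have := norm_one_sub_tau (hb i)
  rwa [Complex.sub_im] at this

/-- decay beyond the window of the nodes -/
theorem norm_loc_far {X : ℝ} (hb : ∀ i, |(h - b i).re| ≤ 2 / 3 * l) (hX : ∀ i, |(b i).im| ≤ X) :
    ‖loc b h‖ ≤ 4 * Fintype.card ι * Real.exp (-6 * (|h.im| - X)) := by
  refine (norm_loc_le_sum hb).trans ?_
  have : ∀ i ∈ (Finset.univ : Finset ι), 4 * Real.exp (-6 * |h.im - (b i).im|) ≤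
      4 * Real.exp (-6 * (|h.im| - X)) := by
    intro i _
    have h1 := abs_sub_abs_le_abs_sub h.im (b i).im
    have h2 := hX i
    have : Real.exp (-6 * |h.im - (b i).im|) ≤ Real.exp (-6 * (|h.im| - X)) :=
      Real.exp_le_exp.2 (by linarith)
    linarith
  refine (Finset.sum_le_sum this).trans (le_of_eq ?_)
  rw [Finset.sum_const, Finset.card_univ, nsmul_eq_mul]
  ring

/-- one constant `2` per hole and a window `X + log (2 n + 2) / 6` -/
theorem norm_loc_win {X : ℝ} (hb : ∀ i, |(h - b i).re| ≤ 2 / 3 * l) (hX : ∀ i, |(b i).im| ≤ X) :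
    ‖loc b h‖ ≤ 2 * Real.exp (-6 * max 0
      (|h.im| - (X + Real.log (2 * Fintype.card ι + 2) / 6))) := by
  rcases le_total (|h.im| - (X + Real.log (2 * Fintype.card ι + 2) / 6)) 0 with h0 | h0
  · rw [max_eq_left h0, mul_zero, Real.exp_zero, mul_one]
    exact norm_loc_le_two hb
  · rw [max_eq_right h0]
    refine (norm_loc_far hb hX).trans ?_
    have hn : (0 : ℝ) ≤ Fintype.card ι := Nat.cast_nonneg _
    have e : -6 * (|h.im| - (X + Real.log (2 * Fintype.card ι + 2) / 6)) =
        Real.log (2 * Fintype.card ι + 2) + -6 * (|h.im| - X) := by ring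
    rw [e, Real.exp_add, Real.exp_log (by positivity), ← mul_assoc]
    refine mul_le_mul_of_nonneg_right ?_ (Real.exp_pos _).le
    linarith

end PHK

end
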