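import Pool.Agent.PHK.Defs
import Pool.Agent.PHK.Loc

/-!
# PLAX-P: bounds of the localiser of a configuration

* `gH6_two`: `‖gH6 P O s h‖ ≤ 2`; **`gH6_sum`**: at most `∑ 4 exp (-6 |Im h - t j|)` over the strings
  `E`, `F` of the configuration, for `|Re (h - b)| ≤ 2 / 3 * l`;
* `loc6_hole`, `loc6_F`, `loc6_one`: the factors of the objects.
-/

set_option autoImplicit false

noncomputable section

open Complex Finset

namespace PHK

open NUO NUP1 NUCR NUGC.PLX

theorem tau6_eq (z : ℂ) : tau6 z = tau z := rfl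

/-- the strings of a configuration -/
def strO {r : ℕ} (O : Fin r → Xo) : Finset (Fin r) := univ.filter fun i => isE (O i)

/-- the holes of a configuration (`H1`, `H2`) -/
def holS {r : ℕ} (O : Fin r → Xo) : Finset (Fin r) :=
  univ.filter fun i => k6 (O i) = .H1 ∨ k6 (O i) = .H2

theorem posL_re' (j t : ℝ) : (posL j t).re = (1 - j) * l := NUO.vl_re _ _

theorem posL_im' (j t : ℝ) : (posL j t).im = t := NUO.vl_im _ _

theorem posB_re' (e t : ℝ) : (posB e t).re = (1 - e) * l := by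
  unfold posB
  have h : (posS e t).re = -((1 + e) * l) := NUO.vl_re _ _
  rw [Complex.add_re, h]
  simp
  ring

theorem posB_im' (e t : ℝ) : (posB e t).im = t := by
  unfold posB
  have h : (posS e t).im = t := NUO.vl_im _ _
  rw [Complex.add_im, h]
  simp

theorem gH6_factor {P : Par6} {r : ℕ} {O : Fin r → Xo} {s : Bool} {h : ℂ}
    (hh : |h.re - (1 - P.e) * l| ≤ 2 / 3 * l) (i : Fin r) :
    ‖(if sp (O i) = !s ∧ isE (O i) then tau6 (h - posB P.e (ht (O i))) else 1)‖ ≤ 1 := by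
  split_ifs
  · rw [tau6_eq]
    refine norm_tau_le ?_
    rw [Complex.sub_re, posB_re']
    exact hh
  · simp

theorem gH6_two {P : Par6} {r : ℕ} {O : Fin r → Xo} {s : Bool} {h : ℂ}
    (hh : |h.re - (1 - P.e) * l| ≤ 2 / 3 * l) : ‖gH6 P O s h‖ ≤ 2 := by
  unfold gH6
  refine (norm_sub_le _ _).trans ?_
  have : ‖∏ i, (if sp (O i) = !s ∧ isE (O i) then tau6 (h - posB P.e (ht (O i))) else 1)‖ ≤ 1 := by
    rw [norm_prod]
    exact prod_le_one (fun i _ => norm_nonneg _) fun i _ => gH6_factor hh i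
  rw [norm_one]
  linarith

/-- **locality of the localiser** -/
theorem gH6_sum {P : Par6} {r : ℕ} {O : Fin r → Xo} {s : Bool} {h : ℂ}
    (hh : |h.re - (1 - P.e) * l| ≤ 2 / 3 * l) :
    ‖gH6 P O s h‖ ≤ ∑ j ∈ strO O, 4 * Real.exp (-(6 * |h.im - ht (O j)|)) := by
  unfold gH6
  refine (norm_one_sub_prod_le _ _ fun i _ => gH6_factor hh i).trans ?_
  unfold strO
  rw [sum_filter]
  refine sum_le_sum fun i _ => ?_
  have hE : 0 ≤ 4 * Real.exp (-(6 * |h.im - ht (O i)|)) := by positivity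
  by_cases h1 : sp (O i) = !s ∧ isE (O i)
  · rw [if_pos h1, if_pos h1.2, tau6_eq]
    have h2 := norm_one_sub_tau (z := h - posB P.e (ht (O i))) (by
      rw [Complex.sub_re, posB_re']
      exact hh)
    rw [Complex.sub_im, posB_im'] at h2
    rw [← neg_mul]
    exact h2
  · rw [if_neg h1]
    simp only [sub_self, norm_zero]
    split_ifs
    · exact hE
    · exact le_rfl

theorem loc6_hole {P : Par6} (hP : GoodP6 P) {r : ℕ} {O : Fin r → Xo} {i : Fin r}
    (hi : i ∈ holS O) :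
    loc6 (gH6 P O) P (O i) ≤ ∑ j ∈ strO O, 4 * Real.exp (-(6 * |ht (O i) - ht (O j)|)) := by
  unfold holS at hi
  rw [mem_filter] at hi
  have hl := l_pos
  have e0 := hP.j1
  have e1 := hP.j2
  have e2 := hP.e13
  have e3 := hP.e48
  have h1 := hP.j1e
  have h2 := hP.ej2
  rcases hi.2 with h | h
  · have e : loc6 (gH6 P O) P (O i) = ‖gH6 P O (sp (O i)) (posL P.j1 (ht (O i)))‖ := by
      unfold loc6
      rw [h]
    rw [e]
    have h3 := gH6_sum (P := P) (O := O) (s := sp (O i)) (h := posL P.j1 (ht (O i))) (by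
      rw [posL_re', abs_le]
      constructor <;> nlinarith)
    rw [posL_im'] at h3
    exact h3
  · have e : loc6 (gH6 P O) P (O i) = ‖gH6 P O (sp (O i)) (posL P.j2 (ht (O i)))‖ := by
      unfold loc6
      rw [h]
    rw [e]
    have h3 := gH6_sum (P := P) (O := O) (s := sp (O i)) (h := posL P.j2 (ht (O i))) (by
      rw [posL_re', abs_le]
      constructor <;> nlinarith)
    rw [posL_im'] at h3
    exact h3

theorem loc6_two {P : Par6} {r : ℕ} {O : Fin r → Xo} {i : Fin r} (hi : i ∉ holS O) :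
    loc6 (gH6 P O) P (O i) ≤ 2 := by
  unfold holS at hi
  rw [mem_filter, not_and] at hi
  have hi' := hi (mem_univ i)
  have hl := l_pos
  unfold loc6
  cases hk : k6 (O i)
  · norm_num
  · norm_num
  · norm_num
  · refine gH6_two ?_
    rw [posB_re', sub_self, abs_zero]
    positivity
  · exact absurd (Or.inl hk) hi'
  · exact absurd (Or.inr hk) hi'

theorem loc6_flat {P : Par6} {g : Bool → ℂ → ℂ} {x : Xo} (h : k6 x = .L ∨ k6 x = .T) :
    loc6 g P x = 1 := by
  unfold loc6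
  rcases h with h | h <;> rw [h]

theorem loc6_prod {P : Par6} {r : ℕ} (O : Fin r → Xo) :
    ∏ i, loc6 (gH6 P O) P (O i) ≤ 2 ^ r * ∏ i ∈ holS O, loc6 (gH6 P O) P (O i) := by
  classical
  have h0 : ∀ i, 0 ≤ loc6 (gH6 P O) P (O i) := fun i => loc6_nonneg _ _ _
  rw [← prod_mul_prod_compl (holS O) fun i => loc6 (gH6 P O) P (O i), mul_comm]
  refine mul_le_mul_of_nonneg_right ?_ (prod_nonneg fun i _ => h0 i)
  calc ∏ i ∈ (holS O)ᶜ, loc6 (gH6 P O) P (O i) ≤ ∏ _i ∈ (holS O)ᶜ, (2 : ℝ) :=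
        prod_le_prod (fun i _ => h0 i) fun i hi => loc6_two (mem_compl.1 hi)
    _ = 2 ^ ((holS O)ᶜ.card) := by rw [prod_const]
    _ ≤ 2 ^ r := by
        refine pow_le_pow_right₀ (by norm_num) ?_
        have := card_le_univ (holS O)ᶜ
        rwa [Fintype.card_fin] at this

end PHK

end
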