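import Pool.Agent.PHK.Far
import Pool.Agent.PHK.LocB
import Pool.Agent.NUO.AsmAlg

/-!
# PLAX-P: the activities of the six kinds and the algebra of one configuration

`L = log m`, `Tb L = (3 / 8) L`.

* **`act6`**: the bound which the one body part of an object has to satisfy: `L`, `T` the landed
  `NUO.act` (cutoffs of the landed text, decay `1 / 10`); `E` the same and `F` suppressed, both with
  any growth `exp (aS d)` and the doubly exponential cutoff `exp (- c2 exp (2 (|t| - Tb L - τ)))`;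
  `H1`, `H2` suppressed, growth `exp (11 / 2 d)`, `d = (|t| - Tb L)_+`;
* **`act6_prod`**: with the localisers the product is at most the product of the landed activities
  times `exp (c1 ∑ cnt ^ 2)`;
* **`conf_alg6`**: the algebra of one configuration.
-/

set_option autoImplicit false

noncomputable section

open Finset

namespace PHK

open NUO NUStabP NUDispW

/-- suppression of the objects near the axis -/
def sup6 (c L t : ℝ) : ℝ := Real.exp (-(c * Real.exp (8 / 3 * (Tb L - |t|))))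

/-- **the activity which the one body part of an object has to satisfy** -/
def act6 (C c c2 aS τ : ℝ) (k : ℕ) (L ep e1 J : ℝ) (r : ℕ) (q : Kd6) (t : ℝ) : ℝ :=
  match q with
  | .L => act C 1 c (1 / 10) k L ep e1 J r t
  | .T => act C 1 c (1 / 10) k L ep e1 J r t
  | .E => act C 1 c (1 / 10) k L ep e1 J r t *
      Real.exp (aS * dT (Tb L) t - c2 * Real.exp (2 * (|t| - Tb L - τ)))
  | .F => C * ((r : ℝ) + L) ^ k * sup6 c L t *
      Real.exp (aS * dT (Tb L) t - c2 * Real.exp (2 * (|t| - Tb L - τ)))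
  | .H1 => C * ((r : ℝ) + L) ^ k * sup6 c L t * Real.exp (11 / 2 * dT (Tb L) t)
  | .H2 => C * ((r : ℝ) + L) ^ k * sup6 c L t * Real.exp (11 / 2 * dT (Tb L) t)

theorem sup6_pos (c L t : ℝ) : 0 < sup6 c L t := Real.exp_pos _

theorem act6_nonneg {C c c2 aS τ : ℝ} {k : ℕ} {L ep e1 J : ℝ} {r : ℕ} (hC : 0 ≤ C) (hL : 0 ≤ L)
    (q : Kd6) (t : ℝ) : 0 ≤ act6 C c c2 aS τ k L ep e1 J r q t := by
  have h1 := sup6_pos c L t
  have h2 : (0 : ℝ) ≤ (r : ℝ) + L := by positivity
  cases q <;> simp only [act6]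
  · exact act_nonneg hC zero_le_one hL
  · exact act_nonneg hC zero_le_one hL
  · exact mul_nonneg (act_nonneg hC zero_le_one hL) (Real.exp_pos _).le
  all_goals positivity

/-- the rate of the cutoff of the strings -/
theorem rateG {a c : ℝ} (ha : 2 ≤ a) (hc : 0 ≤ c) (x : ℝ) :
    Real.exp (-(c * Real.exp (a * x))) ≤ Real.exp c * Real.exp (-(c * Real.exp (2 * x))) := by
  rw [← Real.exp_add]
  refine Real.exp_le_exp.2 ?_
  have h : Real.exp (2 * x) ≤ 1 + Real.exp (a * x) := by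
    rcases le_total 0 x with h0 | h0
    · have h1 : Real.exp (2 * x) ≤ Real.exp (a * x) :=
        Real.exp_le_exp.2 (mul_le_mul_of_nonneg_right ha h0)
      linarith
    · have h1 : Real.exp (2 * x) ≤ 1 := Real.exp_le_one_iff.2 (by linarith)
      have h2 := Real.exp_pos (a * x)
      linarith
  have := mul_le_mul_of_nonneg_left h hc
  linarith

/-- rate `6` -/
theorem rate6 {c : ℝ} (hc : 0 ≤ c) (x : ℝ) :
    Real.exp (-(c * Real.exp (6 * x))) ≤ Real.exp c * Real.exp (-(c * Real.exp (2 * x))) :=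
  rateG (by norm_num) hc x

theorem Phi_dT (b T t : ℝ) (hb : 0 ≤ b) : Phi 1 b T t = Real.exp (-(b * dT T t)) := by
  unfold Phi dT
  rw [one_mul]
  rcases le_total 0 (|t| - T) with h | h
  · rw [max_eq_left h, min_eq_right]
    rw [Real.exp_le_one_iff]
    have := mul_nonneg hb h
    linarith
  · rw [max_eq_right h, mul_zero, neg_zero, Real.exp_zero, min_eq_left]
    have h2 : 0 ≤ -(b * (|t| - T)) := by
      have := mul_nonneg hb (show 0 ≤ -(|t| - T) by linarith)
      linarith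
    exact Real.one_le_exp h2

/-- the suppressed part of the landed activity -/
theorem le_act {C c b : ℝ} {k : ℕ} {L ep e1 J : ℝ} {r : ℕ} {t : ℝ} (hC : 0 ≤ C) (hb : 0 ≤ b) :
    C * ((r : ℝ) + L) ^ k * sup6 c L t * Real.exp (-(b * dT (Tb L) t)) ≤
      act C 1 c b k L ep e1 J r t := by
  unfold act
  rw [Phi_dT b (Tb L) t hb]
  unfold sup6
  have h1 : 0 ≤ Phi 1 b (Tb L / (1 - ep)) t *
      (if |t| ≤ (1 - 3 * e1) * Tb L then Real.exp (-(2 * Real.pi * J)) else 1) := by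
    refine mul_nonneg (Phi_nonneg zero_le_one) ?_
    split_ifs
    · exact (Real.exp_pos _).le
    · exact zero_le_one
  have h2 := mul_nonneg hC h1
  calc _ = C * (((r : ℝ) + L) ^ k * Real.exp (-(b * dT (Tb L) t)) *
        Real.exp (-(c * Real.exp (8 / 3 * (Tb L - |t|))))) := by ring
    _ ≤ _ := by
        rw [mul_add]
        linarith

theorem act_mono {C C' c b : ℝ} {k k' : ℕ} {L ep e1 J : ℝ} {r : ℕ} {t : ℝ} (hC : 0 ≤ C)
    (hCC : C ≤ C') (hk : k ≤ k') (hL : 1 ≤ L) :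
    act C 1 c b k L ep e1 J r t ≤ act C' 1 c b k' L ep e1 J r t := by
  unfold act
  have h1 : 0 ≤ Phi 1 b (Tb L / (1 - ep)) t *
      (if |t| ≤ (1 - 3 * e1) * Tb L then Real.exp (-(2 * Real.pi * J)) else 1) := by
    refine mul_nonneg (Phi_nonneg zero_le_one) ?_
    split_ifs
    · exact (Real.exp_pos _).le
    · exact zero_le_one
  have h2 : 0 ≤ Phi 1 b (Tb L) t := Phi_nonneg zero_le_one
  have h3 : (1 : ℝ) ≤ (r : ℝ) + L := by
    have : (0 : ℝ) ≤ r := Nat.cast_nonneg r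
    linarith
  have h4 : ((r : ℝ) + L) ^ k ≤ ((r : ℝ) + L) ^ k' := pow_le_pow_right₀ h3 hk
  have h5 : 0 ≤ ((r : ℝ) + L) ^ k := by positivity
  refine mul_le_mul hCC (add_le_add le_rfl ?_) ?_ (hC.trans hCC)
  · exact mul_le_mul_of_nonneg_right (mul_le_mul_of_nonneg_right h4 h2) (Real.exp_pos _).le
  · positivity

/-- **the product of the activities and of the localisers** -/
theorem act6_prod {P : Par6} (hP : GoodP6 P) {c2 aS τ c1 : ℝ} (haS : 0 ≤ aS) (hc2 : 0 < c2)
    (hc1 : 0 < c1) : ∃ K : ℝ, 1 ≤ K ∧ ∀ (C c : ℝ) (k : ℕ) (L ep e1 J : ℝ) (r : ℕ)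
      (O : Fin r → Xo) (W : Finset ℤ), 0 ≤ C → 1 ≤ L → (∀ i, ⌊ht (O i)⌋ ∈ W) →
      (∏ i, act6 C c c2 aS τ k L ep e1 J r (k6 (O i)) (ht (O i))) *
          ∏ i, loc6 (gH6 P O) P (O i) ≤
        K * (∏ i, act (C * K) 1 c (1 / 10) (k + 1) L ep e1 J r (ht (O i))) *
          Real.exp (c1 * ∑ w ∈ W, (cnt (fun i => ht (O i)) w : ℝ) ^ 2) := by
  classical
  obtain ⟨K, hK, hfar⟩ := far_prod (a := 11 / 2) (a' := aS) (b := 1 / 10) (c := c2) (c1 := c1)
    (τ := τ) (by norm_num) haS (by norm_num) (by norm_num) hc2 hc1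
  refine ⟨8 * K, by linarith, ?_⟩
  intro C c k L ep e1 J r O W hC hL hW
  have hL0 : 0 ≤ L := by linarith
  have hr0 : (0 : ℝ) ≤ r := Nat.cast_nonneg r
  obtain ⟨y, hy⟩ : ∃ y : Fin r → ℝ, y = fun i => if k6 (O i) = .E then
      act C 1 c (1 / 10) k L ep e1 J r (ht (O i)) else
      C * ((r : ℝ) + L) ^ k * sup6 c L (ht (O i)) := ⟨_, rfl⟩
  have hy0 : ∀ i, 0 ≤ y i := fun i => by
    rw [hy]
    have := sup6_pos c L (ht (O i))
    simp only
    split_ifs
    · exact act_nonneg hC zero_le_one hL0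
    · positivity
  obtain ⟨t, ht'⟩ : ∃ t : Fin r → ℝ, t = fun i => ht (O i) := ⟨_, rfl⟩
  obtain ⟨H, hH⟩ : ∃ H, H = holS O := ⟨_, rfl⟩
  obtain ⟨S, hS⟩ : ∃ S, S = strO O := ⟨_, rfl⟩
  obtain ⟨g, hg⟩ : ∃ g : Fin r → ℝ, g = fun i => loc6 (gH6 P O) P (O i) := ⟨_, rfl⟩
  obtain ⟨z, hz⟩ : ∃ z : Fin r → ℝ,
    z = fun i => act6 C c c2 aS τ k L ep e1 J r (k6 (O i)) (ht (O i)) := ⟨_, rfl⟩
  have hg0 : ∀ i, 0 ≤ g i := fun i => by rw [hg]; exact loc6_nonneg _ _ _
  have hz0 : ∀ i, 0 ≤ z i := fun i => by rw [hz]; exact act6_nonneg hC hL0 _ _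
  obtain ⟨R, hR⟩ : ∃ R, R = (H ∪ S)ᶜ := ⟨_, rfl⟩
  have hdis : Disjoint H S := by
    rw [hH, hS, Finset.disjoint_left]
    intro i h1 h2
    unfold holS at h1
    unfold strO isE at h2
    rw [mem_filter] at h1 h2
    rcases h1.2 with h | h <;> rw [h] at h2 <;> simp at h2
  -- products over the three classes
  have split : ∀ f : Fin r → ℝ, ∏ i, f i = (∏ i ∈ H, f i) * (∏ i ∈ S, f i) * ∏ i ∈ R, f i := by
    intro f
    rw [hR, ← prod_mul_prod_compl (H ∪ S) f, prod_union hdis]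
  have zH : ∀ i ∈ H, z i = y i * Real.exp (11 / 2 * dT (Tb L) (t i)) := by
    intro i hi
    rw [hH] at hi
    unfold holS at hi
    rw [mem_filter] at hi
    rw [hz, hy, ht']
    simp only
    rcases hi.2 with h | h <;> rw [h] <;> simp [act6]
  have zS : ∀ i ∈ S, z i = y i *
      Real.exp (aS * dT (Tb L) (t i) - c2 * Real.exp (2 * (|t i| - Tb L - τ))) := by
    intro i hi
    rw [hS] at hi
    unfold strO isE at hi
    rw [mem_filter] at hi
    rw [hz, hy, ht']
    simp only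
    rcases hi.2 with h | h <;> rw [h] <;> simp [act6]
  have zR : ∀ i ∈ R, z i = act C 1 c (1 / 10) k L ep e1 J r (t i) := by
    intro i hi
    rw [hR, mem_compl, mem_union, not_or, hH, hS] at hi
    unfold holS strO isE at hi
    rw [mem_filter, mem_filter] at hi
    rw [hz, ht']
    simp only
    obtain ⟨h1, h2⟩ := hi
    have h1' := fun h => h1 ⟨mem_univ i, h⟩
    have h2' := fun h => h2 ⟨mem_univ i, h⟩
    cases hk : k6 (O i) with
    | L => rfl
    | T => rfl
    | E => exact absurd (Or.inl hk) h2'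
    | F => exact absurd (Or.inr hk) h2'
    | H1 => exact absurd (Or.inl hk) h1'
    | H2 => exact absurd (Or.inr hk) h1'
  -- the far inequality
  have hfar' := hfar (Fin r) (Tb L) t g H S W (fun i => by rw [ht']; exact hW i)
    (fun i _ => hg0 i) (fun i hi => by
      rw [hg, hS, ht']
      rw [hH] at hi
      exact loc6_hole hP hi)
  rw [Fintype.card_fin] at hfar'
  have hloc : ∏ i, g i ≤ 2 ^ r * ∏ i ∈ H, g i := by
    rw [hg, hH]
    exact loc6_prod O
  obtain ⟨E, hE⟩ : ∃ E, E = Real.exp (c1 * ∑ w ∈ W, (cnt (fun i => ht (O i)) w : ℝ) ^ 2) :=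
    ⟨_, rfl⟩
  have hE' : Real.exp (c1 * ∑ w ∈ W, (cnt t w : ℝ) ^ 2) = E := by rw [hE, ht']
  rw [hE'] at hfar'
  have hE0 : 0 < E := by rw [hE]; exact Real.exp_pos _
  -- names of the products
  obtain ⟨YH, hYH⟩ : ∃ x, x = ∏ i ∈ H, y i := ⟨_, rfl⟩
  obtain ⟨YS, hYS⟩ : ∃ x, x = ∏ i ∈ S, y i := ⟨_, rfl⟩
  obtain ⟨ZR, hZR⟩ : ∃ x, x = ∏ i ∈ R, z i := ⟨_, rfl⟩
  have hYH0 : 0 ≤ YH := by rw [hYH]; exact prod_nonneg fun i _ => hy0 i
  have hYS0 : 0 ≤ YS := by rw [hYS]; exact prod_nonneg fun i _ => hy0 i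
  have hZR0 : 0 ≤ ZR := by rw [hZR]; exact prod_nonneg fun i _ => hz0 i
  have step1 : (∏ i, z i) * ∏ i, g i ≤
      2 ^ r * (YH * YS * ZR) * ((∏ i ∈ H, (g i * Real.exp (11 / 2 * dT (Tb L) (t i)))) *
        ∏ i ∈ S, Real.exp (aS * dT (Tb L) (t i) - c2 * Real.exp (2 * (|t i| - Tb L - τ)))) := by
    calc (∏ i, z i) * ∏ i, g i ≤ (∏ i, z i) * (2 ^ r * ∏ i ∈ H, g i) :=
          mul_le_mul_of_nonneg_left hloc (prod_nonneg fun i _ => hz0 i)
      _ = _ := by
          rw [split z, prod_congr rfl zH, prod_congr rfl zS, prod_mul_distrib, prod_mul_distrib,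
            prod_mul_distrib, ← hYH, ← hYS, ← hZR]
          ring
  have step2 : 2 ^ r * (YH * YS * ZR) *
      ((∏ i ∈ H, (g i * Real.exp (11 / 2 * dT (Tb L) (t i)))) *
        ∏ i ∈ S, Real.exp (aS * dT (Tb L) (t i) - c2 * Real.exp (2 * (|t i| - Tb L - τ)))) ≤
      2 ^ r * (YH * YS * ZR) * (K *
        (∏ i ∈ H, (4 * (r : ℝ) * Real.exp (-(1 / 10 * dT (Tb L) (t i))))) *
        (∏ i ∈ S, (K * Real.exp (-(1 / 10 * dT (Tb L) (t i))))) * E) :=
    mul_le_mul_of_nonneg_left hfar' (by positivity)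
  -- the single factors
  have hK0 : 0 < K := by linarith
  have hCK : C ≤ C * (8 * K) := by nlinarith
  have fH : ∀ i ∈ H, 2 * (y i * (4 * (r : ℝ) * Real.exp (-(1 / 10 * dT (Tb L) (t i))))) ≤
      act (C * (8 * K)) 1 c (1 / 10) (k + 1) L ep e1 J r (t i) := by
    intro i hi
    refine le_trans ?_ (le_act (C := C * (8 * K)) (c := c) (b := 1 / 10) (k := k + 1) (L := L)
      (ep := ep) (e1 := e1) (J := J) (r := r) (t := t i) (by positivity) (by norm_num))
    have e1 : y i = C * ((r : ℝ) + L) ^ k * sup6 c L (t i) := by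
      rw [hy, ht']
      rw [hH] at hi
      unfold holS at hi
      rw [mem_filter] at hi
      rcases hi.2 with h | h <;> simp [h]
    have h1 := sup6_pos c L (t i)
    have h2 := Real.exp_pos (-(1 / 10 * dT (Tb L) (t i)))
    have h3 : (r : ℝ) ≤ K * ((r : ℝ) + L) := by nlinarith
    rw [e1]
    calc 2 * (C * ((r : ℝ) + L) ^ k * sup6 c L (t i) *
          (4 * (r : ℝ) * Real.exp (-(1 / 10 * dT (Tb L) (t i)))))
        = 8 * (C * ((r : ℝ) + L) ^ k * sup6 c L (t i) *
          Real.exp (-(1 / 10 * dT (Tb L) (t i)))) * r := by ring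
      _ ≤ 8 * (C * ((r : ℝ) + L) ^ k * sup6 c L (t i) *
          Real.exp (-(1 / 10 * dT (Tb L) (t i)))) * (K * ((r : ℝ) + L)) :=
          mul_le_mul_of_nonneg_left h3 (by positivity)
      _ = _ := by ring
  have fS : ∀ i ∈ S, 2 * (y i * (K * Real.exp (-(1 / 10 * dT (Tb L) (t i))))) ≤
      act (C * (8 * K)) 1 c (1 / 10) (k + 1) L ep e1 J r (t i) := by
    intro i _
    by_cases hE : k6 (O i) = .E
    · have ey : y i = act C 1 c (1 / 10) k L ep e1 J r (t i) := by
        rw [hy, ht']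
        simp [hE]
      have h0 : 0 ≤ act C 1 c (1 / 10) k L ep e1 J r (t i) := act_nonneg hC zero_le_one hL0
      have h1 : Real.exp (-(1 / 10 * dT (Tb L) (t i))) ≤ 1 := by
        rw [Real.exp_le_one_iff]
        have := dT_nonneg (Tb L) (t i)
        linarith
      have e2 : 8 * K * act C 1 c (1 / 10) k L ep e1 J r (t i) =
          act (C * (8 * K)) 1 c (1 / 10) k L ep e1 J r (t i) := by
        unfold act
        ring
      refine le_trans ?_ (act_mono (C := C * (8 * K)) (by positivity) le_rfl (Nat.le_succ k) hL)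
      rw [ey, ← e2]
      calc 2 * (act C 1 c (1 / 10) k L ep e1 J r (t i) *
            (K * Real.exp (-(1 / 10 * dT (Tb L) (t i)))))
          ≤ 2 * (act C 1 c (1 / 10) k L ep e1 J r (t i) * (K * 1)) := by
            refine mul_le_mul_of_nonneg_left ?_ (by norm_num)
            refine mul_le_mul_of_nonneg_left ?_ h0
            exact mul_le_mul_of_nonneg_left h1 hK0.le
        _ ≤ _ := by nlinarith [mul_nonneg hK0.le h0]
    refine le_trans ?_ (le_act (C := C * (8 * K)) (c := c) (b := 1 / 10) (k := k + 1) (L := L)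
      (ep := ep) (e1 := e1) (J := J) (r := r) (t := t i) (by positivity) (by norm_num))
    have e1 : y i = C * ((r : ℝ) + L) ^ k * sup6 c L (t i) := by
      rw [hy, ht']
      simp [hE]
    have h1 := sup6_pos c L (t i)
    have h2 := Real.exp_pos (-(1 / 10 * dT (Tb L) (t i)))
    have h3 : (2 : ℝ) ≤ 8 * ((r : ℝ) + L) := by linarith
    rw [e1]
    calc 2 * (C * ((r : ℝ) + L) ^ k * sup6 c L (t i) *
          (K * Real.exp (-(1 / 10 * dT (Tb L) (t i)))))
        = C * K * ((r : ℝ) + L) ^ k * sup6 c L (t i) *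
          Real.exp (-(1 / 10 * dT (Tb L) (t i))) * 2 := by ring
      _ ≤ C * K * ((r : ℝ) + L) ^ k * sup6 c L (t i) *
          Real.exp (-(1 / 10 * dT (Tb L) (t i))) * (8 * ((r : ℝ) + L)) :=
          mul_le_mul_of_nonneg_left h3 (by positivity)
      _ = _ := by ring
  have fR : ∀ i ∈ R, 2 * z i ≤ act (C * (8 * K)) 1 c (1 / 10) (k + 1) L ep e1 J r (t i) := by
    intro i hi
    rw [zR i hi]
    have e1 : 2 * act C 1 c (1 / 10) k L ep e1 J r (t i) =
        act (2 * C) 1 c (1 / 10) k L ep e1 J r (t i) := by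
      unfold act
      ring
    rw [e1]
    exact act_mono (by positivity) (by nlinarith) (Nat.le_succ k) hL
  have hcard : (2 : ℝ) ^ r = (∏ _i ∈ H, (2 : ℝ)) * (∏ _i ∈ S, (2 : ℝ)) * ∏ _i ∈ R, (2 : ℝ) := by
    rw [← split fun _ => (2 : ℝ), prod_const, card_univ, Fintype.card_fin]
  have step3 : 2 ^ r * (YH * YS * ZR) *
        ((∏ i ∈ H, (4 * (r : ℝ) * Real.exp (-(1 / 10 * dT (Tb L) (t i))))) *
        (∏ i ∈ S, (K * Real.exp (-(1 / 10 * dT (Tb L) (t i)))))) ≤
      ∏ i, act (C * (8 * K)) 1 c (1 / 10) (k + 1) L ep e1 J r (t i) := by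
    have e : 2 ^ r * (YH * YS * ZR) *
        ((∏ i ∈ H, (4 * (r : ℝ) * Real.exp (-(1 / 10 * dT (Tb L) (t i))))) *
        (∏ i ∈ S, (K * Real.exp (-(1 / 10 * dT (Tb L) (t i)))))) =
        (∏ i ∈ H, 2 * (y i * (4 * (r : ℝ) * Real.exp (-(1 / 10 * dT (Tb L) (t i)))))) *
        (∏ i ∈ S, 2 * (y i * (K * Real.exp (-(1 / 10 * dT (Tb L) (t i)))))) *
        ∏ i ∈ R, 2 * z i := by
      rw [prod_mul_distrib (f := fun _ => (2 : ℝ)) (s := H),
        prod_mul_distrib (f := fun _ => (2 : ℝ)) (s := S),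
        prod_mul_distrib (f := fun _ => (2 : ℝ)) (s := R),
        prod_mul_distrib (f := y) (s := H), prod_mul_distrib (f := y) (s := S), hcard, hYH, hYS,
        hZR]
      ring
    rw [e, split fun i => act (C * (8 * K)) 1 c (1 / 10) (k + 1) L ep e1 J r (t i)]
    have p1 : ∀ i ∈ H, 0 ≤ 2 * (y i * (4 * (r : ℝ) * Real.exp (-(1 / 10 * dT (Tb L) (t i))))) :=
      fun i _ => by
        have := hy0 i
        positivity
    have p2 : ∀ i ∈ S, 0 ≤ 2 * (y i * (K * Real.exp (-(1 / 10 * dT (Tb L) (t i))))) :=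
      fun i _ => by
        have := hy0 i
        positivity
    have p3 : ∀ i ∈ R, 0 ≤ 2 * z i := fun i _ => by
      have := hz0 i
      positivity
    have q0 : ∀ i, 0 ≤ act (C * (8 * K)) 1 c (1 / 10) (k + 1) L ep e1 J r (t i) := fun i =>
      act_nonneg (by positivity) zero_le_one hL0
    refine mul_le_mul (mul_le_mul (prod_le_prod p1 fH) (prod_le_prod p2 fS) (prod_nonneg p2)
      (prod_nonneg fun i _ => q0 i)) (prod_le_prod p3 fR) (prod_nonneg p3) ?_
    exact mul_nonneg (prod_nonneg fun i _ => q0 i) (prod_nonneg fun i _ => q0 i)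
  have hA0 : 0 ≤ ∏ i, act (C * (8 * K)) 1 c (1 / 10) (k + 1) L ep e1 J r (t i) :=
    prod_nonneg fun i _ => act_nonneg (by positivity) zero_le_one hL0
  have hfin : (∏ i, z i) * ∏ i, g i ≤
      8 * K * (∏ i, act (C * (8 * K)) 1 c (1 / 10) (k + 1) L ep e1 J r (t i)) * E := by
    refine (step1.trans step2).trans ?_
    calc 2 ^ r * (YH * YS * ZR) * (K *
          (∏ i ∈ H, (4 * (r : ℝ) * Real.exp (-(1 / 10 * dT (Tb L) (t i))))) *
          (∏ i ∈ S, (K * Real.exp (-(1 / 10 * dT (Tb L) (t i))))) * E)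
        = (2 ^ r * (YH * YS * ZR) *
          ((∏ i ∈ H, (4 * (r : ℝ) * Real.exp (-(1 / 10 * dT (Tb L) (t i))))) *
          (∏ i ∈ S, (K * Real.exp (-(1 / 10 * dT (Tb L) (t i))))))) * (K * E) := by ring
      _ ≤ (∏ i, act (C * (8 * K)) 1 c (1 / 10) (k + 1) L ep e1 J r (t i)) * (K * E) :=
          mul_le_mul_of_nonneg_right step3 (by positivity)
      _ ≤ (∏ i, act (C * (8 * K)) 1 c (1 / 10) (k + 1) L ep e1 J r (t i)) * (8 * K * E) := by
          refine mul_le_mul_of_nonneg_left ?_ hA0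
          nlinarith
      _ = _ := by ring
  rw [hz, hg, ht', hE] at hfin
  exact hfin

end PHK

end
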