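import Pool.Agent.PHK.Act

/-!
# PLAX-P: the algebra of one configuration

`asm6`: one body weights `o i` of the objects, factors `sp i` of the spectators with energies `es i`,
exponents `u i` of the gas bound, the localisers, the product form of the stability bound: if
`o i exp (u i + K') ≤ act6` then the product is at most
`K6 B ∏ act exp (- (c1 / 4) ∑ cnt ^ 2)`.
-/

set_option autoImplicit false

noncomputable section

open Finset

namespace PHK

open NUO NUStabP NUDispW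

/-- **one configuration** -/
theorem asm6 {P : Par6} (hP : GoodP6 P) {c2 aS τ c1 : ℝ} (C2 K A2 : ℝ) (haS : 0 ≤ aS)
    (hc2 : 0 < c2) (hc1 : 0 < c1) : ∃ K' K6 : ℝ, 1 ≤ K6 ∧
    ∀ (C c : ℝ) (k : ℕ) (L ep e1 J : ℝ) (r : ℕ) (O : Fin r → Xo) (W : Finset ℤ)
      (o sp u es : Fin r → ℝ) (PP EG B kap : ℝ), 0 ≤ C → 1 ≤ L → (∀ i, 0 ≤ o i) →
      (∀ i, 0 ≤ sp i) → 0 ≤ B → kap ≤ c1 / 4 →
      (∀ W : Finset ℤ, PP * Real.exp EG ≤ Real.exp (C2 * r) *
        Real.exp (-(c1 * ∑ w ∈ W, (cnt (fun i => ht (O i)) w : ℝ) ^ 2))) →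
      (∀ i, sp i * Real.exp (es i) ≤ Real.exp A2) →
      (∀ i, o i * Real.exp (u i + K') ≤
        act6 C c c2 aS τ k L ep e1 J r (k6 (O i)) (ht (O i))) →
      ((∏ i, o i) * ∏ i, sp i) * (∏ i, loc6 (gH6 P O) P (O i)) * PP *
          (B * Real.exp (∑ i, u i + ∑ i, es i + K * r + EG + kap * win univ fun i => ht (O i))) ≤
        K6 * B * (∏ i, act (C * K6) 1 c (1 / 10) (k + 1) L ep e1 J r (ht (O i))) *
          Real.exp (-(c1 / 4 * ∑ w ∈ W, (cnt (fun i => ht (O i)) w : ℝ) ^ 2)) := by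
  obtain ⟨K6, hK6, hprod⟩ := act6_prod hP (c2 := c2) (aS := aS) (τ := τ) (c1 := c1 / 2) haS hc2
    (by positivity)
  refine ⟨K + C2 + A2, K6, hK6, ?_⟩
  intro C c k L ep e1 J r O W o sp u es PP EG B kap hC hL ho hsp hB hkap hstab hspec hone
  have hL0 : 0 ≤ L := by linarith
  obtain ⟨W', hW'⟩ : ∃ W', W' = W ∪ univ.image (fun i => ⌊ht (O i)⌋) := ⟨_, rfl⟩
  obtain ⟨wn, hwn⟩ : ∃ wn, wn = win univ fun i => ht (O i) := ⟨_, rfl⟩
  obtain ⟨S', hS'⟩ : ∃ S', S' = ∑ w ∈ W', (cnt (fun i => ht (O i)) w : ℝ) ^ 2 := ⟨_, rfl⟩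
  obtain ⟨SW, hSW⟩ : ∃ SW, SW = ∑ w ∈ W, (cnt (fun i => ht (O i)) w : ℝ) ^ 2 := ⟨_, rfl⟩
  have hw1 : SW ≤ S' := by
    rw [hSW, hS', hW']
    exact sum_le_sum_of_subset_of_nonneg subset_union_left fun _ _ _ => sq_nonneg _
  have hw2 : wn ≤ S' := by
    rw [hwn, hS', hW']
    exact sum_le_sum_of_subset_of_nonneg subset_union_right fun _ _ _ => sq_nonneg _
  have hwn0 : 0 ≤ wn := by rw [hwn]; exact win_nonneg _ _
  have hW : ∀ i, ⌊ht (O i)⌋ ∈ W' := fun i => by
    rw [hW', mem_union]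
    exact Or.inr (mem_image_of_mem _ (mem_univ i))
  -- one body
  obtain ⟨z, hz⟩ : ∃ z : Fin r → ℝ,
    z = fun i => act6 C c c2 aS τ k L ep e1 J r (k6 (O i)) (ht (O i)) := ⟨_, rfl⟩
  obtain ⟨g, hg⟩ : ∃ g : ℝ, g = ∏ i, loc6 (gH6 P O) P (O i) := ⟨_, rfl⟩
  have hg0 : 0 ≤ g := by rw [hg]; exact prod_nonneg fun i _ => loc6_nonneg _ _ _
  have hbody : ((∏ i, o i) * ∏ i, sp i) * Real.exp (∑ i, u i + ∑ i, es i) *
      Real.exp (K * r + C2 * r) ≤ ∏ i, z i := by
    have e1 : ((∏ i, o i) * ∏ i, sp i) * Real.exp (∑ i, u i + ∑ i, es i) *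
        Real.exp (K * r + C2 * r) = ∏ i, (o i * Real.exp (u i + (K + C2)) *
          (sp i * Real.exp (es i))) := by
      rw [prod_mul_distrib, prod_mul_distrib, prod_mul_distrib, ← Real.exp_sum, ← Real.exp_sum,
        sum_add_distrib, sum_const, card_univ, Fintype.card_fin, nsmul_eq_mul,
        Real.exp_add (∑ i, u i) (∑ i, es i), Real.exp_add (∑ i, u i),
        show (r : ℝ) * (K + C2) = K * r + C2 * r by ring]
      ring
    rw [e1]
    refine prod_le_prod (fun i _ => mul_nonneg (mul_nonneg (ho i) (Real.exp_pos _).le)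
      (mul_nonneg (hsp i) (Real.exp_pos _).le)) fun i _ => ?_
    have h1 : o i * Real.exp (u i + (K + C2 + A2)) ≤ z i := by
      rw [hz]
      exact hone i
    refine le_trans ?_ h1
    calc o i * Real.exp (u i + (K + C2)) * (sp i * Real.exp (es i))
        ≤ o i * Real.exp (u i + (K + C2)) * Real.exp A2 :=
          mul_le_mul_of_nonneg_left (hspec i) (mul_nonneg (ho i) (Real.exp_pos _).le)
      _ = _ := by
          rw [mul_assoc, ← Real.exp_add]
          congr 2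
          ring
  have hzg : (∏ i, z i) * g ≤ K6 *
      (∏ i, act (C * K6) 1 c (1 / 10) (k + 1) L ep e1 J r (ht (O i))) *
        Real.exp (c1 / 2 * S') := by
    rw [hz, hg, hS']
    exact hprod C c k L ep e1 J r O W' hC hL hW
  obtain ⟨AA, hAA⟩ : ∃ AA, AA =
    ∏ i, act (C * K6) 1 c (1 / 10) (k + 1) L ep e1 J r (ht (O i)) := ⟨_, rfl⟩
  rw [← hAA] at hzg
  have hAA0 : 0 ≤ AA := by
    rw [hAA]
    exact prod_nonneg fun i _ => act_nonneg (by positivity) zero_le_one hL0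
  have hS := hstab W'
  rw [← hS'] at hS
  have hop : 0 ≤ (∏ i, o i) * ∏ i, sp i :=
    mul_nonneg (prod_nonneg fun i _ => ho i) (prod_nonneg fun i _ => hsp i)
  rw [← hwn, ← hg, ← hSW, ← hAA]
  have hexp : Real.exp (C2 * r) * Real.exp (-(c1 * S')) * Real.exp (K * r + kap * wn) ≤
      Real.exp (K * r + C2 * r) * Real.exp (-(3 / 4 * c1 * S')) := by
    rw [← Real.exp_add, ← Real.exp_add, ← Real.exp_add]
    refine Real.exp_le_exp.2 ?_
    have h3 : c1 / 4 * wn ≤ c1 / 4 * S' := mul_le_mul_of_nonneg_left hw2 (by linarith)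
    have h4 : kap * wn ≤ c1 / 4 * wn := mul_le_mul_of_nonneg_right hkap hwn0
    linarith
  calc ((∏ i, o i) * ∏ i, sp i) * g * PP *
        (B * Real.exp (∑ i, u i + ∑ i, es i + K * r + EG + kap * wn))
      = B * (((∏ i, o i) * ∏ i, sp i) * Real.exp (∑ i, u i + ∑ i, es i) * (PP * Real.exp EG) *
          Real.exp (K * r + kap * wn) * g) := by
        rw [show ∑ i, u i + ∑ i, es i + K * r + EG + kap * wn =
          (∑ i, u i + ∑ i, es i) + EG + (K * r + kap * wn) by ring,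
          Real.exp_add (∑ i, u i + ∑ i, es i + EG), Real.exp_add (∑ i, u i + ∑ i, es i) EG]
        ring
    _ ≤ B * (((∏ i, o i) * ∏ i, sp i) * Real.exp (∑ i, u i + ∑ i, es i) *
          (Real.exp (C2 * r) * Real.exp (-(c1 * S'))) * Real.exp (K * r + kap * wn) * g) := by
        refine mul_le_mul_of_nonneg_left ?_ hB
        refine mul_le_mul_of_nonneg_right ?_ hg0
        refine mul_le_mul_of_nonneg_right ?_ (Real.exp_pos _).le
        exact mul_le_mul_of_nonneg_left hS (mul_nonneg hop (Real.exp_pos _).le)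
    _ = B * (((∏ i, o i) * ∏ i, sp i) * Real.exp (∑ i, u i + ∑ i, es i) * g *
          (Real.exp (C2 * r) * Real.exp (-(c1 * S')) * Real.exp (K * r + kap * wn))) := by ring
    _ ≤ B * (((∏ i, o i) * ∏ i, sp i) * Real.exp (∑ i, u i + ∑ i, es i) * g *
          (Real.exp (K * r + C2 * r) * Real.exp (-(3 / 4 * c1 * S')))) := by
        refine mul_le_mul_of_nonneg_left ?_ hB
        exact mul_le_mul_of_nonneg_left hexp (mul_nonneg (mul_nonneg hop (Real.exp_pos _).le) hg0)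
    _ = B * ((((∏ i, o i) * ∏ i, sp i) * Real.exp (∑ i, u i + ∑ i, es i) *
          Real.exp (K * r + C2 * r)) * g * Real.exp (-(3 / 4 * c1 * S'))) := by ring
    _ ≤ B * ((∏ i, z i) * g * Real.exp (-(3 / 4 * c1 * S'))) := by
        refine mul_le_mul_of_nonneg_left ?_ hB
        refine mul_le_mul_of_nonneg_right ?_ (Real.exp_pos _).le
        exact mul_le_mul_of_nonneg_right hbody hg0
    _ ≤ B * (K6 * AA * Real.exp (c1 / 2 * S') * Real.exp (-(3 / 4 * c1 * S'))) := by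
        refine mul_le_mul_of_nonneg_left ?_ hB
        exact mul_le_mul_of_nonneg_right hzg (Real.exp_pos _).le
    _ = K6 * B * AA * Real.exp (-(c1 / 4 * S')) := by
        rw [mul_assoc (K6 * AA), ← Real.exp_add]
        rw [show c1 / 2 * S' + -(3 / 4 * c1 * S') = -(c1 / 4 * S') by ring]
        ring
    _ ≤ K6 * B * AA * Real.exp (-(c1 / 4 * SW)) := by
        refine mul_le_mul_of_nonneg_left (Real.exp_le_exp.2 ?_) (by positivity)
        have := mul_le_mul_of_nonneg_left hw1 (show 0 ≤ c1 / 4 by positivity)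
        linarith

end PHK

end
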