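import Pool.Agent.PHK.EnK

/-!
# Amplitudes of the six kinds

`kAh6 P κ k = 2π ampA6 P κ k / (k sinh (πk/2))`, `kBh6` with `ampB6` (finite sums of `cosh (a l k)`);
`Uh = 2π uP6 / (k sinh)`, `Uh + 2 Lh = 2π uM6 / (k sinh)`.
-/

set_option autoImplicit false

open MeasureTheory Set Filter Topology

namespace PHK

noncomputable section

open NUMF (V Lh Uh sk ck1)
open NUC43 (cs lO lX Ah Bh)
open Pool.Agent.NUM3 (CF sgn)

variable (P : Par6)

/-- amplitude on the own species -/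
def ampA6 : Kd6 → ℝ → ℝ
  | .L => cs (lO P.jL P.e .L)
  | .T => cs (lO P.jL P.e .T)
  | .E => fun k => cs (lO P.jL P.e .S) k + 2 * cs (lX P.jL P.e .V) k
  | .F => fun k => cs (lO P.jL P.e .S) k + 2 * cs (lX P.jL P.e .V) k - cs (lO P.jL P.e .V) k
  | .H1 => fun k => -cs (lO P.jL P.j1 .V) k
  | .H2 => fun k => -cs (lO P.jL P.j2 .V) k

/-- amplitude on the other species -/
def ampB6 : Kd6 → ℝ → ℝ
  | .L => cs (lX P.jL P.e .L)
  | .T => cs (lX P.jL P.e .T)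
  | .E => fun k => cs (lX P.jL P.e .S) k + 2 * cs (lO P.jL P.e .V) k
  | .F => fun k => cs (lX P.jL P.e .S) k + 2 * cs (lO P.jL P.e .V) k - cs (lX P.jL P.e .V) k
  | .H1 => fun k => -cs (lX P.jL P.j1 .V) k
  | .H2 => fun k => -cs (lX P.jL P.j2 .V) k

/-- `(c - 1) (2c - 1) (2c + 1)²`, `c = cosh (l k)` -/
def uP6 (k : ℝ) : ℝ := (ck1 k - 1) * (2 * ck1 k - 1) * (2 * ck1 k + 1) ^ 2

/-- `(c + 1) (2c - 1)³`, `c = cosh (l k)` -/
def uM6 (k : ℝ) : ℝ := (ck1 k + 1) * (2 * ck1 k - 1) ^ 3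

lemma uP6_pos {k : ℝ} (hk : k ≠ 0) : 0 < uP6 k := by
  have h1 := NUMF.one_lt_ck1 hk
  have h3 : 0 < 2 * ck1 k - 1 := by linarith
  have h4 : 0 < ck1 k - 1 := by linarith
  have h5 : 0 < 2 * ck1 k + 1 := by linarith
  unfold uP6
  positivity

lemma uM6_pos (k : ℝ) : 0 < uM6 k := by
  have h1 := NUMF.one_le_ck1 k
  have h3 : 0 < 2 * ck1 k - 1 := by linarith
  have h4 : 0 < ck1 k + 1 := by linarith
  unfold uM6
  positivity

lemma Uh_uP (k : ℝ) : Uh k = 2 * Real.pi * (uP6 k / (k * sk k)) := rfl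

lemma Um_uM (k : ℝ) : Uh k + 2 * Lh k = 2 * Real.pi * (uM6 k / (k * sk k)) := by
  unfold Uh Lh uM6
  ring

theorem kAh6_amp (κ : Kd6) (k : ℝ) : kAh6 P κ k = 2 * Real.pi * (ampA6 P κ k / (k * sk k)) := by
  cases κ <;> simp only [kAh6, ampA6, Ah, Bh] <;> ring

theorem kBh6_amp (κ : Kd6) (k : ℝ) : kBh6 P κ k = 2 * Real.pi * (ampB6 P κ k / (k * sk k)) := by
  cases κ <;> simp only [kBh6, ampB6, Ah, Bh] <;> ring

/-- amplitude of the sum of the species -/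
def amP6 (κ : Kd6) (k : ℝ) : ℝ := ampA6 P κ k + ampB6 P κ k
/-- amplitude of the difference of the species -/
def amM6 (κ : Kd6) (k : ℝ) : ℝ := ampA6 P κ k - ampB6 P κ k

variable {P}

/-- **cosine form of the response energies, in terms of the amplitudes** -/
theorem ER6_CF' (h : Ok6 P) (σ : Bool) (κ κ' : Kd6) : ∃ F : ℝ → ℝ,
    (∀ x y, ER6 P σ κ κ' x y = F (x - y)) ∧
    CF F (-(sgn σ * (2 * (kq6 κ * kq6 κ')))) (fun k => -((amP6 P κ k * amP6 P κ' k / uP6 k +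
      sgn σ * (amM6 P κ k * amM6 P κ' k / uM6 k)) / (k * sk k))) := by
  obtain ⟨F, e, cF⟩ := ER6_CF h σ κ κ'
  refine ⟨F, e, cF.congr (fun _ => rfl) rfl fun k hk => ?_⟩
  have hpi := Real.pi_pos
  have hs := (NUMF.ksk_pos hk.ne').ne'
  have u0 := (uP6_pos hk.ne').ne'
  have u1 := (uM6_pos k).ne'
  rw [kAh6_amp, kAh6_amp, kBh6_amp, kBh6_amp, Um_uM, Uh_uP]
  unfold amP6 amM6
  generalize k * sk k = s at hs
  field_simp

end

end PHK
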