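import Pool.Agent.PHK.PerH

/-!
# (P): the positive gas with an insertion, constants

`gasI6`, `FnI6_eq`, `FnI6_zero` are in `PHK/PerH`, `PerI6` is in `PHK/TopI6`.  Here: `gasI6_const`,
`FnI6_const`, `FnI6_mono`.
-/

set_option autoImplicit false
set_option linter.unusedSectionVars false

noncomputable section

open Complex MeasureTheory Finset
open scoped ENNReal
open PLX (Fil)

namespace PHK

open NUO NUP1 NUGC NUGC.PLX NUCR

variable [Fil]

/-- constants in front of the insertion -/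
theorem gasI6_const (B : OB) (P : Par6) (η η' : ℝ → ℝ) {r : ℕ} (O : Fin r → Xo) (p q : ℕ)
    {c : ℝ≥0∞} (hc : c ≠ ∞) (ψ : (Fin p → ℝ) × (Fin q → ℝ) → ℝ≥0∞) :
    gasI6 B P η η' O p q (fun x => c * ψ x) = c * gasI6 B P η η' O p q ψ := by
  unfold gasI6
  have h : ∀ x : (Fin p → ℝ) × (Fin q → ℝ),
      ENNReal.ofReal (NU42.WO (dA (Fil.cv true η)) (dA (Fil.cv true η')) (dA (Fil.cv false η))
        (dA (Fil.cv false η')) (qA6 B P η O true) (qA6 B P η O false) x.1 x.2) * (c * ψ x) =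
      c * (ENNReal.ofReal (NU42.WO (dA (Fil.cv true η)) (dA (Fil.cv true η'))
        (dA (Fil.cv false η)) (dA (Fil.cv false η')) (qA6 B P η O true)
        (qA6 B P η O false) x.1 x.2) * ψ x) := fun x => by ring
  simp only [h]
  rw [lintegral_const_mul' _ _ hc]
  ring

theorem FnI6_const (B : OB) (P : Par6) (η η' : ℝ → ℝ) (nX nY : ℕ) {r : ℕ} (O : Fin r → Xo)
    {c : ℝ≥0∞} (hc : c ≠ ∞) (ψ : (a b : ℕ) → (Fin a → ℝ) × (Fin b → ℝ) → ℝ≥0∞) :
    FnI6 B P η η' nX nY O (fun a b x => c * ψ a b x) = c * FnI6 B P η η' nX nY O ψ := by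
  by_cases h : chgO6 O true ≤ nX ∧ chgO6 O false ≤ nY ∧ cnt6 O
  · rw [FnI6_eq B P η η' O _ h, FnI6_eq B P η η' O _ h, gasI6_const B P η η' O _ _ hc]
    ring
  · rw [FnI6_zero B P η η' O _ h, FnI6_zero B P η η' O _ h, mul_zero]

theorem FnI6_mono (B : OB) (P : Par6) (η η' : ℝ → ℝ) (nX nY : ℕ) {r : ℕ} (O : Fin r → Xo)
    {ψ ψ' : (a b : ℕ) → (Fin a → ℝ) × (Fin b → ℝ) → ℝ≥0∞} (h : ∀ a b x, ψ a b x ≤ ψ' a b x) :
    FnI6 B P η η' nX nY O ψ ≤ FnI6 B P η η' nX nY O ψ' := by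
  unfold FnI6
  split_ifs
  · exact mul_le_mul' le_rfl (mul_le_mul' le_rfl (lintegral_mono fun x =>
      mul_le_mul' le_rfl (h _ _ x)))
  · exact le_rfl

end PHK

end
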