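import Pool.Agent.PHK.FDefB6
import Pool.Agent.PLX.PB.TopI

/-!
# The particle-hole form (P): the sum over the configurations and over the number of quanta, with an insertion

* `trE_le6`, `FE_le6`: one configuration and the functional against the positive gas, nonnegative
  insertions;
* `PerI6`: the tilted bound of one configuration with an insertion, on given curves (`n + aX`, `n + aY`
  quanta, tilts `± d` around `ν`, prefactor `Q`, at most `2 (2 n + (aX + aY))` objects);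
* **`fe_sum6`**: `∑ n ≤ N, FE6 Z P (n + aX) (n + aY) .. φ ≤ 4 (1 + 1 / d) Q exp (δ L)`;
* **`fa_sum6`**: the same for `FA6`.
-/

set_option autoImplicit false
set_option linter.unusedSectionVars false

noncomputable section

open Complex MeasureTheory Finset
open scoped ENNReal

open PLX (Fil)

namespace PBF.PLX

open NUO NUP1 NUP1S NUP1S.Ab NUP1S.AbC NUGC NUGC.PLX NUCR PHK

variable [Fil]

/-- one configuration -/
theorem trE_le6 {Z : Bool → Option O3 → ℂ → ℂ} {P : Par6} {n n' : ℕ} {η η' : Crs} {B : OB}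
    {ep κ x0 : ℝ} {Q : ℤ} {E : Set ℝ} (h : OneC6 Z B P ep κ x0 Q E) {r : ℕ} (O : Fin r → Xo)
    (hE : ∀ i, ht (O i) ∉ E) (hη : CurB ep (η r O) (η' r O)) (hep : ep ≤ 1 / 100) (φ : InsE) :
    trE6 Z P n n' η η' φ r O ≤ FnI6 B P (η r O) (η' r O) n n' O (φ r O) :=
  PHK.trE6_le h O hE hη hep φ

/-- the functional -/
theorem FE_le6 {Z : Bool → Option O3 → ℂ → ℂ} {P : Par6} {n n' : ℕ} {η η' : Crs} {B : OB}
    {ep κ x0 : ℝ} {Q : ℤ} {E : Set ℝ} (h : OneC6 Z B P ep κ x0 Q E)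
    (hη : ∀ r O, CurB ep (η r O) (η' r O)) (hep : ep ≤ 1 / 100) (φ : InsE) :
    FE6 Z P n n' η η' φ ≤ ∑ r ∈ range (2 * (n + n') + 1), ((r.factorial : ℕ) : ℝ≥0∞)⁻¹ *
      ∫⁻ O : Fin r → Xo, FnI6 B P (η r O) (η' r O) n n' O (φ r O) ∂(Measure.pi fun _ => nu) :=
  PHK.FE6_le h hη hep φ

/-- **the tilted bound of one configuration with an insertion**, given curves, `n + aX` quanta X,
`n + aY` quanta Y -/
def PerI6 (C C' c b : ℝ) (k : ℕ) (c1 c' L ep e1 J ν d : ℝ) (N : ℕ) (B : OB) (P : Par6)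
    (aX aY : ℕ) (η η' : ℕ → Crs) (φ : ℕ → InsE) (Q : ℝ) : Prop :=
  ∀ n ≤ N, ∀ b' : ℝ, b' = d ∨ b' = -d → ∀ r ≤ 2 * (2 * n + (aX + aY)), ∀ (O : Fin r → Xo)
    (W : Finset ℤ), ENNReal.ofReal (Real.exp (b' * (ν - n))) *
      FnI6 B P (η n r O) (η' n r O) (n + aX) (n + aY) O (φ n r O) ≤
      ENNReal.ofReal (Q * (if (r : ℝ) ≤ L then 1 else Real.exp (c' * L)) *
        (∏ i, act C C' c b k L ep e1 J r (ht (O i))) *
        Real.exp (-(c1 * ∑ w ∈ W, (cO O w : ℝ) ^ 2)))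

/-- **the sum over the configurations and over the numbers of quanta**, nonnegative insertions -/
theorem fe_sum6 {C c b c1 c' : ℝ} {k : ℕ} (hC : 0 < C) (hc : 0 < c) (hb : 0 < b) (hc1 : 0 < c1)
    (hc' : 0 ≤ c') {δ : ℝ} (hδ : 0 < δ) :
    ∃ a0 : ℝ, 0 < a0 ∧ ∀ C' : ℝ, 0 ≤ C' → ∃ L0 : ℝ, ∀ L ≥ L0, ∀ ep : ℝ, 0 ≤ ep → ep ≤ 1 / 100 →
      ∀ e1 : ℝ, 0 < e1 → e1 ≤ 1 / 4 → ∀ J : ℝ, 0 ≤ J →
      Real.exp (-(2 * Real.pi * J)) + 3 * e1 + 3 * ep ≤ a0 →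
      ∀ (ν d Q : ℝ) (N aX aY : ℕ) (Z : Bool → Option O3 → ℂ → ℂ) (B : OB) (P : Par6)
        (κ x0 : ℝ) (Qz : ℤ) (E : Set ℝ) (η η' : ℕ → Crs) (φ : ℕ → InsE), 0 < d → 0 ≤ Q →
      ((2 * (2 * N + (aX + aY)) + 1 : ℕ) : ℝ) ≤ Real.exp (2 * L) →
      OneC6 Z B P ep κ x0 Qz E → (∀ n ≤ N, ∀ r O, CurB ep (η n r O) (η' n r O)) →
      PerI6 C C' c b k c1 c' L ep e1 J ν d N B P aX aY η η' φ Q →
      ∑ n ∈ range (N + 1), FE6 Z P (n + aX) (n + aY) (η n) (η' n) (φ n) ≤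
        ENNReal.ofReal (4 * (1 + 1 / d) * (Q * Real.exp (δ * L))) := by
  obtain ⟨a0, ha0, h⟩ := conf_sum (C := C) (c := c) (b := b) (k := k) hC hc1 hc' hδ
  refine ⟨a0, ha0, fun C' hC' => ?_⟩
  obtain ⟨D, L0, -, h⟩ := h C' hC' (actInt hC.le hC' hc hb k)
  refine ⟨L0, fun L hL ep hep hep' e1 he1 he1' J hJ hsm ν d Q N aX aY Z B P κ x0 Qz E η η' φ
    hd hQ hN hone hcur hper => ?_⟩
  have key : ∀ n < N + 1, ∀ b' : ℝ, b' = d ∨ b' = -d →
      ENNReal.ofReal (Real.exp (b' * (ν - n))) *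
        FE6 Z P (n + aX) (n + aY) (η n) (η' n) (φ n) ≤ ENNReal.ofReal (Q * Real.exp (δ * L)) := by
    intro n hn b' hb'
    have hn' : n ≤ N := Nat.lt_succ_iff.1 hn
    have h1 := FE_le6 (n := n + aX) (n' := n + aY) (η := η n) (η' := η' n) hone (hcur n hn')
      hep' (φ n)
    calc ENNReal.ofReal (Real.exp (b' * (ν - n))) * FE6 Z P (n + aX) (n + aY) (η n) (η' n) (φ n)
        ≤ ENNReal.ofReal (Real.exp (b' * (ν - n))) *
          ∑ r ∈ range (2 * (n + aX + (n + aY)) + 1), ((r.factorial : ℕ) : ℝ≥0∞)⁻¹ *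
            ∫⁻ O : Fin r → Xo, FnI6 B P (η n r O) (η' n r O) (n + aX) (n + aY) O (φ n r O)
              ∂(Measure.pi fun _ => nu) := mul_le_mul' le_rfl h1
      _ = ∑ r ∈ range (2 * (n + aX + (n + aY)) + 1), ((r.factorial : ℕ) : ℝ≥0∞)⁻¹ *
            ∫⁻ O : Fin r → Xo, ENNReal.ofReal (Real.exp (b' * (ν - n))) *
              FnI6 B P (η n r O) (η' n r O) (n + aX) (n + aY) O (φ n r O)
                ∂(Measure.pi fun _ => nu) := by
          rw [Finset.mul_sum]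
          refine Finset.sum_congr rfl fun r _ => ?_
          rw [lintegral_const_mul' _ _ ENNReal.ofReal_ne_top]
          ring
      _ ≤ ENNReal.ofReal (Q * Real.exp (δ * L)) := by
          refine h L hL ep hep (hep'.trans (by norm_num)) e1 he1 he1' J hJ hsm Q hQ
            (2 * (n + aX + (n + aY)) + 1) ?_ (fun r O => ENNReal.ofReal (Real.exp (b' * (ν - n))) *
              FnI6 B P (η n r O) (η' n r O) (n + aX) (n + aY) O (φ n r O)) ?_
          · refine le_trans ?_ hN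
            exact_mod_cast (by omega : 2 * (n + aX + (n + aY)) + 1 ≤ 2 * (2 * N + (aX + aY)) + 1)
          · intro r hr O
            have hr' : r ≤ 2 * (2 * n + (aX + aY)) := by omega
            refine (hper n hn' b' hb' r hr' O (WZ D L r)).trans
              (ENNReal.ofReal_le_ofReal (le_of_eq ?_))
            have e1 : Q * (if (r : ℝ) ≤ L then 1 else Real.exp (c' * L)) =
                if (r : ℝ) ≤ L then Q else Q * Real.exp (c' * L) := by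
              split_ifs
              · rw [mul_one]
              · rfl
            rw [e1]
            rfl
  have h1 := sumN_le (b := 0) (d := d) (s := ν) (Q := Q * Real.exp (δ * L)) hd (by positivity)
    (fun n => FE6 Z P (n + aX) (n + aY) (η n) (η' n) (φ n)) (N + 1)
    (fun n hn => by
      have := key n hn d (Or.inl rfl)
      simpa using this)
    (fun n hn => by
      have := key n hn (-d) (Or.inr rfl)
      simpa using this)
  simpa using h1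

/-- **the same for `FA6`** -/
theorem fa_sum6 {C c b c1 c' : ℝ} {k : ℕ} (hC : 0 < C) (hc : 0 < c) (hb : 0 < b) (hc1 : 0 < c1)
    (hc' : 0 ≤ c') {δ : ℝ} (hδ : 0 < δ) :
    ∃ a0 : ℝ, 0 < a0 ∧ ∀ C' : ℝ, 0 ≤ C' → ∃ L0 : ℝ, ∀ L ≥ L0, ∀ ep : ℝ, 0 ≤ ep → ep ≤ 1 / 100 →
      ∀ e1 : ℝ, 0 < e1 → e1 ≤ 1 / 4 → ∀ J : ℝ, 0 ≤ J →
      Real.exp (-(2 * Real.pi * J)) + 3 * e1 + 3 * ep ≤ a0 →
      ∀ (ν d Q : ℝ) (N aX aY : ℕ) (Z : Bool → Option O3 → ℂ → ℂ) (B : OB) (P : Par6)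
        (κ x0 : ℝ) (Qz : ℤ) (E : Set ℝ) (η η' : ℕ → Crs) (Ψ : ℕ → Ins), 0 < d → 0 ≤ Q →
      ((2 * (2 * N + (aX + aY)) + 1 : ℕ) : ℝ) ≤ Real.exp (2 * L) →
      OneC6 Z B P ep κ x0 Qz E → (∀ n ≤ N, ∀ r O, CurB ep (η n r O) (η' n r O)) →
      PerI6 C C' c b k c1 c' L ep e1 J ν d N B P aX aY η η'
        (fun n r O a b x => ‖Ψ n r O a b x‖ₑ) Q →
      ∑ n ∈ range (N + 1), FA6 Z P (n + aX) (n + aY) (η n) (η' n) (Ψ n) ≤
        ENNReal.ofReal (4 * (1 + 1 / d) * (Q * Real.exp (δ * L))) := by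
  obtain ⟨a0, ha0, h⟩ := fe_sum6 (k := k) hC hc hb hc1 hc' hδ
  refine ⟨a0, ha0, fun C' hC' => ?_⟩
  obtain ⟨L0, h⟩ := h C' hC'
  exact ⟨L0, fun L hL ep hep hep' e1 he1 he1' J hJ hsm ν d Q N aX aY Z B P κ x0 Qz E η η' Ψ
    hd hQ hN hone hcur hper => h L hL ep hep hep' e1 he1 he1' J hJ hsm ν d Q N aX aY Z B P κ x0 Qz
      E η η' (fun n r O a b x => ‖Ψ n r O a b x‖ₑ) hd hQ hN hone hcur hper⟩

end PBF.PLX


end
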