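import Pool.Agent.PHK.OneRT
import Pool.Agent.PHK.GasI
import Pool.Agent.PHK.TopI6

/-!
# (P): the tilted bound of one configuration with groups, a statistic and weights of the objects

The content of `PB/AsmI` for the six kinds, parameters `par6`, near groups, any geometry `G`.

* `S4K6 G ok Φ K Ca`, `S4I6 G ok Φ`: the gas with the statistics `Φ i`, `i` admissible (`ok m i`);
* `PerGI6`: the bounds; **`perI_ofK6`**: `StabProd6`, `SpecPin6`, `OneRT6` and `S4K6` give `PerGI6` with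
  constants independent of the statistic; `perI_ofR6`.
-/

set_option autoImplicit false
set_option linter.unusedSectionVars false

noncomputable section

open MeasureTheory Finset
open scoped ENNReal

open PLX (Fil Ends)

namespace PBI.PLX

open PHK PBO.PLX
open NUGC NUGC.PLX
open NUO NUP1 NUStabP NUDispW
open NUC43 (sg)
open NUSea.PLX.H0 (Gd IG TG cstF)
open NUSp (kG spo qc)
open PBF.PLX (InsE PerI6)
open PBP.PLX (gT)

variable [NUSea.Sea] [Fil] [Ends]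

/-- the left side: tilt and positive gas with a statistic -/
def lhsI6 (G : Geo) (ep e1 J : ℝ) (m : ℕ) {n : ℕ} (g : Fin n → Gd) (aX aY : ℕ) (ν : ℝ) (N : ℕ)
    (b' : ℝ) {r : ℕ} (O : Fin r → Xo) (φ : InsE) : ℝ≥0∞ :=
  ENNReal.ofReal (Real.exp (b' * (ν - N))) *
    gasI6 ((G.B m (4 / 3 * (1 - ep))).mul (spF g)) par6 (etaC e1 J m m)
      (etaC' e1 J m m) O (nA6 (N + aX) O true) (nA6 (N + aY) O false)
      (φ r O (nA6 (N + aX) O true) (nA6 (N + aY) O false))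

/-- **the gas with a statistic in the presence of the objects and of near groups**, the gain kept;
`K` = constant per object, `Ca` = constant of the exponent -/
def S4K6 (G : Geo) {ι : Type*} (ok : ℕ → ι → Prop) (Φ : ι → ℕ → ℕ → InsE) (K Ca : ℝ) : Prop :=
  ∀ kap : ℝ, 0 < kap →
    ∀ ep : ℝ, 0 < ep → ep ≤ 1 / 100 → ∀ e1 : ℝ, 0 < e1 → e1 ≤ 1 / 100 → ∀ J : ℝ, 0 ≤ J →
    ∀ δ : ℝ, 0 < δ → ∃ d Cst : ℝ, 0 < d ∧ 0 ≤ Cst ∧ ∃ m0 : ℕ, ∀ m ≥ m0,
      ∀ (n : ℕ) (g : Fin n → Gd) (aX aY : ℕ) (ν : ℝ) (N : ℕ) (b' : ℝ) (r : ℕ) (O : Fin r → Xo),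
        b' = d ∨ b' = -d → RgR6 ep e1 m g aX aY ν N O 0 0 → (∀ i, |(g i).τ| ≤ TW ep e1 m) →
        ∀ i : ι, ok m i → lhsI6 G ep e1 J m g aX aY ν N b' O (Φ i m N) ≤
          ENNReal.ofReal (prefR G m g 0 0 Cst * (m : ℝ) ^ (Ca * (ep + e1) + δ) *
            Real.exp (-gnF e1 J m g) * Real.exp (confR6 G m ep e1 J K kap O +
              enR6 m g O (T1R ep e1 m O 0) (nA6 (N + aX) O true) (nA6 (N + aY) O false)))

/-- **the gas with a statistic**, some constants -/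
def S4I6 (G : Geo) {ι : Type*} (ok : ℕ → ι → Prop) (Φ : ι → ℕ → ℕ → InsE) : Prop :=
  ∃ K Ca : ℝ, 0 ≤ K ∧ 0 ≤ Ca ∧ S4K6 G ok Φ K Ca

/-- **the tilted bounds for a family of near groups with a statistic and a weight of the objects** -/
def PerGI6 (G : Geo) {ι : Type*} (ok : ℕ → ι → Prop) (Φ : ι → ℕ → ℕ → InsE) (K2 C c b : ℝ) (k : ℕ)
    (c1 Ca : ℝ) : Prop :=
  ∀ ep : ℝ, 0 < ep → ep ≤ 1 / 100 → ∀ e1 : ℝ, 0 < e1 → e1 ≤ 1 / 100 → ∀ J : ℝ, 0 ≤ J →
    ∀ δ : ℝ, 0 < δ → ∃ d Cst : ℝ, 0 < d ∧ 0 ≤ Cst ∧ ∃ m0 : ℕ, ∀ m ≥ m0,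
      ∀ (n : ℕ) (g : Fin n → Gd) (aX aY : ℕ) (ν Qe : ℝ), n ≤ 2 →
        (∀ i j, i ≠ j → (g i).σ ≠ (g j).σ) → aX ≤ 3 → aY ≤ Fil.xe m + 3 →
        Fil.xe m ≤ aY + 3 →
        (aX : ℝ) + Fil.xe m - aY = -∑ i, NUC43.sg (g i).σ * qc (g i).c / 2 →
        |ν - m| ≤ 2 → (∀ i, |(g i).τ| ≤ TW ep e1 m) → 0 ≤ Qe →
        (∀ T1, TW ep e1 m ≤ T1 →
          Real.exp (enQ g ((aX : ℝ) + Fil.xe m - aY) 0 0 T1) ≤ Qe) →
        ∀ i : ι, ok m i → ∀ (w : (r : ℕ) → (Fin r → Xo) → ℝ) (Bw : ℝ), 0 ≤ Bw →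
        (∀ r O, 0 ≤ w r O) → (∀ (r : ℕ) (O : Fin r → Xo), w r O ≤ Bw * Real.exp (K2 * r) *
          Real.exp (∑ i, gT e1 (Real.log m) (ht (O i)))) →
        PerI6 C 1 c b k c1 0 (Real.log m) ep e1 J ν d (2 * m)
          ((G.B m (4 / 3 * (1 - ep))).mul (spF g)) par6 aX aY
          (fun _ _ _ => etaC e1 J m m) (fun _ _ _ => etaC' e1 J m m)
          (fun N r O a b x => ENNReal.ofReal (w r O) * Φ i m N r O a b x)
          (Bw * (Cst * Real.exp (G.EM m) * (m : ℝ) ^ (Ca * (ep + e1) + δ) *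
            Real.exp (∑ i, G.MF m (g i).σ (g i).c (g i).w) * Real.exp (-gnF e1 J m g) * Qe))

/-- **the tilted bounds for a family of near groups with a statistic and a weight of the objects**,
constants independent of the statistic -/
theorem perI_ofK6 {G : Geo} (hB : ∀ m β, (G.B m β).Nn) (hS : StabProd6 par6) {C3 : ℝ}
    (hspec : SpecPin6 C3) (h1 : OneRT6 G) (K K2 : ℝ) :
    ∃ (C c b c1 : ℝ) (k : ℕ), 0 < C ∧ 0 < c ∧ 0 < b ∧ 0 < c1 ∧
      ∀ (ι : Type*) (ok : ℕ → ι → Prop) (Φ : ι → ℕ → ℕ → InsE) (Ca : ℝ), S4K6 G ok Φ K Ca →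
        PerGI6 G ok Φ K2 C c b k c1 Ca := by
  obtain ⟨C2, c1, hC2, hc1, hstab⟩ := hS
  obtain ⟨aS', c2, τ, haS', hc2, h1⟩ := h1
  obtain ⟨K', K6, hK6, hasm⟩ := asm6 par6_good (c2 := c2) (aS := aS') (τ := τ) (c1 := c1) C2
    (K + K2) (Real.log (max C3 1)) haS' hc2 hc1
  obtain ⟨C, c, hC, hc, hone⟩ := h1 K'
  have hK60 : 0 < K6 := by linarith
  refine ⟨C * K6, c, 1 / 10, c1 / 4, 6 + 1, by positivity, hc, by norm_num, by positivity, ?_⟩
  intro ι ok Φ Ca h4 ep hep hep1 e1 he1 he11 J hJ δ hδ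
  obtain ⟨d, Cst, hd, hCst, M0, h4⟩ :=
    h4 (c1 / 4) (by positivity) ep hep hep1 e1 he1 he11 J hJ δ hδ
  obtain ⟨m2, hone⟩ := hone ep hep hep1 e1 he1 he11 J hJ
  refine ⟨d, K6 * Cst, hd, by positivity, max (max M0 m2) 3, ?_⟩
  intro m hM n g aX aY ν Qe hn hσ haX haY haY' hq hν hnear hQe hpin i hok w Bw hBw hw0 hwB
  have hM0 : M0 ≤ m := ((le_max_left _ _).trans (le_max_left _ _)).trans hM
  have hM1 : m2 ≤ m := ((le_max_right _ _).trans (le_max_left _ _)).trans hM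
  have hM3 : 3 ≤ m := (le_max_right _ _).trans hM
  have hL1 : 1 ≤ Real.log m := by
    rw [Real.le_log_iff_exp_le (by positivity)]
    have h3 : (3 : ℝ) ≤ m := by exact_mod_cast hM3
    exact (Real.exp_one_lt_d9.le.trans (by norm_num)).trans h3
  intro N hN b' hb' r hr O W
  show ENNReal.ofReal (Real.exp (b' * (ν - N))) *
    FnI6 ((G.B m (4 / 3 * (1 - ep))).mul (spF g)) par6 (etaC e1 J m m)
      (etaC' e1 J m m) (N + aX) (N + aY) O
      (fun a b x => ENNReal.ofReal (w r O) * Φ i m N r O a b x) ≤ _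
  by_cases hchg : chgO6 O true ≤ (N + aX : ℕ) ∧ chgO6 O false ≤ (N + aY : ℕ) ∧ cnt6 O
  swap
  · rw [FnI6_zero _ _ _ _ _ _ hchg, mul_zero]
    exact zero_le
  rw [FnI6_const _ _ _ _ _ _ O ENNReal.ofReal_ne_top, FnI6_eq _ _ _ _ _ _ hchg]
  -- the end of the window
  obtain ⟨T1, hT1⟩ : ∃ T1, T1 = T1R ep e1 m O 0 := ⟨_, rfl⟩
  have hexc0 := excS_nonneg (TW ep e1 m) O
  have hT1E : TW ep e1 m ≤ T1 := by
    rw [hT1]
    unfold T1R
    linarith [le_max_right (excS (TW ep e1 m) O) 0]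
  have hT1O : ∀ i, |ht (O i)| ≤ T1 := by
    intro i
    have h1 := excS_ge (TW ep e1 m) O i
    have h2 := le_max_left (excS (TW ep e1 m) O) 0
    rw [hT1]
    unfold T1R
    linarith
  have hQ := hpin T1 hT1E
  have hR : RgR6 ep e1 m g aX aY ν N O 0 0 :=
    ⟨hn, hσ, haX, haY, haY', hq, hν, hN, hr, hchg.1, hchg.2.1, hchg.2.2, le_rfl, fun i => by
      right
      right
      rw [add_zero]
      exact hnear i, le_rfl, fun i => by
      rw [← hT1]
      unfold NUSp.exc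
      exact max_le (by linarith [hnear i]) le_rfl⟩
  have h5 := h4 m hM0 n g aX aY ν N b' r O hb' hR hnear i hok
  rw [← hT1] at h5
  obtain ⟨gn, hgn⟩ : ∃ gn : ℝ, gn = Real.exp (-gnF e1 J m g) := ⟨_, rfl⟩
  rw [← hgn] at h5 ⊢
  have hgn0 : 0 ≤ gn := by
    rw [hgn]
    exact (Real.exp_pos _).le
  obtain ⟨mp, hmp⟩ : ∃ mp, mp = (m : ℝ) ^ (Ca * (ep + e1) + δ) := ⟨_, rfl⟩
  rw [← hmp] at h5 ⊢
  have hmp0 : 0 ≤ mp := by
    rw [hmp]
    positivity
  -- the numbers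
  have hpq : (((nA6 (N + aX) O true : ℕ) : ℝ) - ((nA6 (N + aY) O false : ℕ) : ℝ)) +
      Fil.xe m = ((aX : ℝ) + Fil.xe m - aY) - ∑ i, sg (NUO.sp (O i)) * kq6 (k6 (O i)) := by
    rw [NUSea.PLX.H0.sum_kq6, cast_nA6 hchg.1, cast_nA6 hchg.2.1]
    push_cast
    ring
  obtain ⟨EE, hEE⟩ : ∃ EE, EE = 1 / 2 * (∑ d, ∑ d', ES (TG (fun i => (g i).pin T1) d)
    (TG (fun i => (g i).pin T1) d')) := ⟨_, rfl⟩
  obtain ⟨ct, hct⟩ : ∃ ct, ct = cstF T1 g true := ⟨_, rfl⟩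
  set es : Fin r → ℝ := fun i => ∑ d, ES (obSr6 par6 (O i))
    (TG (fun i => (g i).pin T1) d) - ct * (sg (NUO.sp (O i)) * kq6 (k6 (O i))) with hes
  have henG : enR6 m g O T1 (nA6 (N + aX) O true) (nA6 (N + aY) O false) =
      ∑ i, es i + (EE + ct * ((aX : ℝ) + Fil.xe m - aY)) := by
    unfold enR6
    rw [hpq, hes, sum_sub_distrib, ← mul_sum, ← hEE, ← hct]
    ring
  set B : ℝ := prefR G m g 0 0 Cst * mp * gn *
    Real.exp (EE + ct * ((aX : ℝ) + Fil.xe m - aY)) with hBd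
  have hB0 : 0 ≤ B := by
    have := prefR_nonneg (G := G) (m := m) (g := g) (E := 0) (x := 0) hCst
    positivity
  -- the algebra
  have key := hasm C c 6 (Real.log m) ep e1 J r O W
    (fun i => ob6 (G.B m (4 / 3 * (1 - ep))) par6 (O i))
    (fun i => facL6 (spF g) (parts6 par6 (O i)))
    (fun i => G.one m ep e1 J r O i + gT e1 (Real.log m) (ht (O i))) es
    (∏ i, ∏ j, if i < j then pairN6 par6 O i j else 1) (enC6 par6 O) B (c1 / 4) hC.le hL1
    (fun i => ob6_nonneg (hB _ _) _ _) (fun i => facL6_nonneg (spFR_nonneg g) _) hB0 le_rfl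
    (fun W => hstab r O W)
    (fun i => by
      have h := hspec (O i) T1 (hT1O i) n g hn
      rw [Real.exp_log (lt_of_lt_of_le one_pos (le_max_right _ _)), hes]
      rw [← hct] at h
      exact h.trans (le_max_left _ _))
    (fun i => by
      have h := hone m hM1 r O i
      have h2 := mul_le_mul_of_nonneg_right h (Real.exp_pos (gT e1 (Real.log m) (ht (O i)))).le
      rw [mul_assoc, mul_assoc, ← Real.exp_add, ← Real.exp_add, neg_add_cancel, Real.exp_zero,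
        mul_one] at h2
      refine le_trans (le_of_eq ?_) h2
      congr 2
      ring)
  -- the weight of the objects
  have hobj : objWc6 ((G.B m (4 / 3 * (1 - ep))).mul (spF g)) par6 O =
      ((∏ i, ob6 (G.B m (4 / 3 * (1 - ep))) par6 (O i)) *
        ∏ i, facL6 (spF g) (parts6 par6 (O i))) * (∏ i, loc6 (gH6 par6 O) par6 (O i)) *
        ∏ i, ∏ j, if i < j then pairN6 par6 O i j else 1 := by
    unfold objWc6
    rw [prod_ob6_mul]
    rfl
  have hobjn : 0 ≤ objWc6 ((G.B m (4 / 3 * (1 - ep))).mul (spF g)) par6 O := by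
    rw [hobj]
    refine mul_nonneg (mul_nonneg (mul_nonneg (prod_nonneg fun i _ => ob6_nonneg (hB _ _) _ _)
      (prod_nonneg fun i _ => facL6_nonneg (spFR_nonneg g) _))
      (prod_nonneg fun i _ => loc6_nonneg _ _ _)) ?_
    refine prod_nonneg fun i _ => prod_nonneg fun j _ => ?_
    split_ifs
    · exact pairN6_nonneg _ _ _ _
    · exact zero_le_one
  rw [← hobj] at key
  have hexp : prefR G m g 0 0 Cst * mp * gn * Real.exp (confR6 G m ep e1 J K (c1 / 4) O +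
      enR6 m g O T1 (nA6 (N + aX) O true) (nA6 (N + aY) O false)) =
      B * Real.exp (∑ i, G.one m ep e1 J r O i + ∑ i, es i + K * r + enC6 par6 O +
        c1 / 4 * win univ fun i => ht (O i)) := by
    rw [henG, hBd, mul_assoc _ (Real.exp _) (Real.exp _), ← Real.exp_add]
    congr 2
    unfold confR6
    ring
  rw [hexp] at h5
  -- the prefactor
  have hBQ : K6 * B ≤ K6 * Cst * Real.exp (G.EM m) * mp *
      Real.exp (∑ i, G.MF m (g i).σ (g i).c (g i).w) * gn * Qe := by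
    have e1 : K6 * B = K6 * Cst * Real.exp (G.EM m) * mp *
        Real.exp (∑ i, G.MF m (g i).σ (g i).c (g i).w) * gn *
        Real.exp (enQ g ((aX : ℝ) + Fil.xe m - aY) 0 0 T1) := by
      rw [hBd]
      unfold prefR enQ
      rw [← hEE, ← hct, mul_zero, mul_zero, add_zero, add_zero, Real.exp_zero]
      ring
    rw [e1]
    refine mul_le_mul_of_nonneg_left hQ ?_
    positivity
  obtain ⟨X, hX⟩ : ∃ X, X = Real.exp (∑ i, G.one m ep e1 J r O i + ∑ i, es i + K * r +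
    enC6 par6 O + c1 / 4 * win univ fun i => ht (O i)) := ⟨_, rfl⟩
  obtain ⟨gs, hgs⟩ : ∃ gs, gs = ∑ i, gT e1 (Real.log m) (ht (O i)) := ⟨_, rfl⟩
  have hkX : Real.exp (∑ i, (G.one m ep e1 J r O i + gT e1 (Real.log m) (ht (O i))) +
      ∑ i, es i + (K + K2) * r + enC6 par6 O + c1 / 4 * win univ fun i => ht (O i)) =
      Real.exp (K2 * r) * Real.exp gs * X := by
    rw [hX, hgs, ← Real.exp_add, ← Real.exp_add, sum_add_distrib]
    congr 1
    ring
  rw [hkX] at key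
  rw [← hX] at h5
  have hX0 : 0 < X := by
    rw [hX]
    exact Real.exp_pos _
  have hwO := hwB r O
  rw [← hgs] at hwO
  obtain ⟨AA, hAA⟩ : ∃ AA, AA =
    ∏ i, act (C * K6) 1 c (1 / 10) (6 + 1) (Real.log m) ep e1 J r (ht (O i)) := ⟨_, rfl⟩
  have hAA0 : 0 ≤ AA := by
    rw [hAA]
    exact prod_nonneg fun i _ => act_nonneg (by positivity) zero_le_one (by linarith)
  obtain ⟨Y, hY⟩ : ∃ Y, Y = Real.exp (-(c1 / 4 * ∑ w ∈ W, (cO O w : ℝ) ^ 2)) := ⟨_, rfl⟩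
  have hY0 : 0 ≤ Y := by
    rw [hY]
    exact (Real.exp_pos _).le
  have key' : objWc6 ((G.B m (4 / 3 * (1 - ep))).mul (spF g)) par6 O *
      (B * (Real.exp (K2 * r) * Real.exp gs * X)) ≤ K6 * B * AA * Y := by
    rw [hAA, hY]
    exact key
  obtain ⟨ob, hob⟩ : ∃ ob, ob = objWc6 ((G.B m (4 / 3 * (1 - ep))).mul (spF g)) par6 O :=
    ⟨_, rfl⟩
  rw [← hob] at key' hobjn ⊢
  have hfin : ob * (w r O * (B * X)) ≤ Bw * (K6 * Cst * Real.exp (G.EM m) * mp *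
      Real.exp (∑ i, G.MF m (g i).σ (g i).c (g i).w) * gn * Qe) * AA * Y := by
    calc ob * (w r O * (B * X))
        ≤ ob * (Bw * Real.exp (K2 * r) * Real.exp gs * (B * X)) :=
          mul_le_mul_of_nonneg_left (mul_le_mul_of_nonneg_right hwO (by positivity)) hobjn
      _ = Bw * (ob * (B * (Real.exp (K2 * r) * Real.exp gs * X))) := by ring
      _ ≤ Bw * (K6 * B * AA * Y) := mul_le_mul_of_nonneg_left key' hBw
      _ = Bw * (K6 * B) * AA * Y := by ring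
      _ ≤ _ := mul_le_mul_of_nonneg_right (mul_le_mul_of_nonneg_right
          (mul_le_mul_of_nonneg_left hBQ hBw) hAA0) hY0
  have g4 : (if (r : ℝ) ≤ Real.log m then (1 : ℝ) else Real.exp (0 * Real.log m)) = 1 := by
    split_ifs
    · rfl
    · rw [zero_mul, Real.exp_zero]
  rw [g4, mul_one, ← hAA, ← hY]
  calc ENNReal.ofReal (Real.exp (b' * (ν - N))) * (ENNReal.ofReal (w r O) *
        (ENNReal.ofReal ob * gasI6 ((G.B m (4 / 3 * (1 - ep))).mul (spF g)) par6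
          (etaC e1 J m m) (etaC' e1 J m m) O (nA6 (N + aX) O true) (nA6 (N + aY) O false)
          (Φ i m N r O (nA6 (N + aX) O true) (nA6 (N + aY) O false))))
      = ENNReal.ofReal ob * (ENNReal.ofReal (w r O) *
          lhsI6 G ep e1 J m g aX aY ν N b' O (Φ i m N)) := by
        unfold lhsI6
        ring
    _ ≤ ENNReal.ofReal ob * (ENNReal.ofReal (w r O) * ENNReal.ofReal (B * X)) :=
        mul_le_mul_right (mul_le_mul_right h5 _) _
    _ = ENNReal.ofReal (ob * (w r O * (B * X))) := by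
        rw [← ENNReal.ofReal_mul (hw0 r O), ← ENNReal.ofReal_mul hobjn]
    _ ≤ _ := ENNReal.ofReal_le_ofReal hfin

/-- **the tilted bounds for a family of near groups with a statistic and a weight of the objects** -/
theorem perI_ofR6 {G : Geo} (hB : ∀ m β, (G.B m β).Nn) (hS : StabProd6 par6) {C3 : ℝ}
    (hspec : SpecPin6 C3) {ι : Type*} {ok : ℕ → ι → Prop} {Φ : ι → ℕ → ℕ → InsE}
    (h4 : S4I6 G ok Φ) (h1 : OneRT6 G) (K2 : ℝ) :
    ∃ (C c b c1 Ca : ℝ) (k : ℕ), 0 < C ∧ 0 < c ∧ 0 < b ∧ 0 < c1 ∧ 0 ≤ Ca ∧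
      PerGI6 G ok Φ K2 C c b k c1 Ca := by
  obtain ⟨K, Ca, hK, hCa, h4⟩ := h4
  obtain ⟨C, c, b, c1, k, hC, hc, hb, hc1, H⟩ := perI_ofK6 hB hS hspec h1 K K2
  exact ⟨C, c, b, c1, Ca, k, hC, hc, hb, hc1, hCa, H _ _ _ _ h4⟩

end PBI.PLX

end
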