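import Pool.Agent.PHK.Defs

/-!
# The terms of (P) only see the one body functions on the evaluation points

* `DomK P ep D`: `D` contains the evaluation points of the one body functions of a configuration;
  `DomP P ep`: the smallest such set, `domP : DomK P ep (DomP P ep)`;
* `ob6_congr`, `objWc6_congr`, `qA6_congr`, `Z1c6_congr`, `Fnc6_congr`;
* `TV6 m m' B P aX aY`: the terms with `m` quanta X and `m'` quanta Y at simple poles;
* `PerG6.congr`: two terms which agree on the curves `CurB ep`; `perGen6_congrV` (rows `perGen_congr`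
  of NUGC.ClsSp).
-/

set_option autoImplicit false
set_option linter.unusedSectionVars false

noncomputable section

open Complex MeasureTheory Finset
open scoped ENNReal
open PLX (Fil)

namespace PHK

open NUO NUP1 NUCR NUGC.PLX

/-- the set `D` contains the evaluation points of the one body functions of a configuration -/
structure DomK (P : Par6) (ep : ℝ) (D : Set ℂ) : Prop where
  L : ∀ t : ℝ, posL P.jL t ∈ D
  T : ∀ t : ℝ, posT t ∈ D
  T1 : ∀ t : ℝ, posT t - l ∈ D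
  S : ∀ t : ℝ, posS P.e t ∈ D
  S1 : ∀ t : ℝ, posS P.e t - l ∈ D
  b : ∀ t : ℝ, posB P.e t ∈ D
  h1 : ∀ t : ℝ, posL P.j1 t ∈ D
  h2 : ∀ t : ℝ, posL P.j2 t ∈ D
  A : ∀ z : ℂ, |z.re - l| ≤ ep * l / 4 → z ∈ D

/-- the evaluation points -/
def DomP (P : Par6) (ep : ℝ) : Set ℂ := {z | z.re = (1 - P.jL) * l ∨ z.re = -(1 / 2 * l) ∨
  z.re = -(3 / 2 * l) ∨ z.re = -((1 + P.e) * l) ∨ z.re = -((2 + P.e) * l) ∨
  z.re = (1 - P.e) * l ∨ z.re = (1 - P.j1) * l ∨ z.re = (1 - P.j2) * l ∨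
  |z.re - l| ≤ ep * l / 4}

theorem vl_re6 (σ t : ℝ) : (vl σ t).re = σ := by
  unfold vl
  simp

theorem posS_re6 (e t : ℝ) : (posS e t).re = -((1 + e) * l) := by
  unfold posS
  rw [vl_re6]

theorem posB_re6c (e t : ℝ) : (posB e t).re = (1 - e) * l := by
  unfold posB
  rw [add_re, posS_re6]
  simp
  ring

theorem posT_re6 (t : ℝ) : (posT t).re = -(1 / 2 * l) := by
  unfold posT
  rw [vl_re6]

theorem posL_re6 (j t : ℝ) : (posL j t).re = (1 - j) * l := by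
  unfold posL
  rw [vl_re6]

theorem domP (P : Par6) (ep : ℝ) : DomK P ep (DomP P ep) where
  L t := Or.inl (posL_re6 _ _)
  T t := Or.inr (Or.inl (posT_re6 _))
  T1 t := Or.inr (Or.inr (Or.inl (by rw [sub_re, posT_re6, ofReal_re]; ring)))
  S t := Or.inr (Or.inr (Or.inr (Or.inl (posS_re6 _ _))))
  S1 t := Or.inr (Or.inr (Or.inr (Or.inr (Or.inl (by rw [sub_re, posS_re6, ofReal_re]; ring)))))
  b t := Or.inr (Or.inr (Or.inr (Or.inr (Or.inr (Or.inl (posB_re6c _ _))))))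
  h1 t := Or.inr (Or.inr (Or.inr (Or.inr (Or.inr (Or.inr (Or.inl (posL_re6 _ _)))))))
  h2 t := Or.inr (Or.inr (Or.inr (Or.inr (Or.inr (Or.inr (Or.inr (Or.inl (posL_re6 _ _))))))))
  A z hz := Or.inr (Or.inr (Or.inr (Or.inr (Or.inr (Or.inr (Or.inr (Or.inr hz)))))))

theorem DomK.mono {P : Par6} {ep : ℝ} {D D' : Set ℂ} (h : DomK P ep D) (h' : D ⊆ D') :
    DomK P ep D' :=
  ⟨fun t => h' (h.L t), fun t => h' (h.T t), fun t => h' (h.T1 t), fun t => h' (h.S t),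
    fun t => h' (h.S1 t), fun t => h' (h.b t), fun t => h' (h.h1 t), fun t => h' (h.h2 t),
    fun z hz => h' (h.A z hz)⟩

variable {P : Par6} {ep : ℝ} {D : Set ℂ} {B B' : OB}

/-- one object -/
theorem ob6_congr (hD : DomK P ep D) (hR : ∀ a, ∀ z ∈ D, B.R a z = B'.R a z) (hφ : B.φ = B'.φ)
    (hφ0 : B.φ0 = B'.φ0) (x : Xo) : ob6 B P x = ob6 B' P x := by
  cases hq : k6 x
  · rw [ob6_L B P hq, ob6_L B' P hq, hR _ _ (hD.L _), hφ]
  · rw [ob6_T B P hq, ob6_T B' P hq, hR _ _ (hD.T _), hR _ _ (hD.T1 _), hφ, hφ0]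
  · rw [ob6_E B P hq, ob6_E B' P hq]
    unfold oSc
    rw [hR _ _ (hD.S _), hR _ _ (hD.S1 _), hR _ _ (hD.b _), hφ, hφ0]
  · rw [ob6_F B P hq, ob6_F B' P hq]
    unfold oSc
    rw [hR _ _ (hD.S _), hR _ _ (hD.S1 _), hR _ _ (hD.b _), hR _ _ (hD.b _), hφ, hφ0]
  · rw [ob6_H1 B P hq, ob6_H1 B' P hq, hR _ _ (hD.h1 _), hφ]
  · rw [ob6_H2 B P hq, ob6_H2 B' P hq, hR _ _ (hD.h2 _), hφ]

/-- the objects of a configuration -/
theorem objWc6_congr (hD : DomK P ep D) (hR : ∀ a, ∀ z ∈ D, B.R a z = B'.R a z)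
    (hφ : B.φ = B'.φ) (hφ0 : B.φ0 = B'.φ0) {r : ℕ} (O : Fin r → Xo) :
    objWc6 B P O = objWc6 B' P O := by
  unfold objWc6
  rw [Finset.prod_congr rfl fun i _ => ob6_congr hD hR hφ hφ0 (O i)]

section fil

variable [Fil]

/-- the quanta on the curve -/
theorem qA6_congr (hD : DomK P ep D) (hR : ∀ a, ∀ z ∈ D, B.R a z = B'.R a z) (hφ : B.φ = B'.φ)
    {η η' : ℝ → ℝ} (hη : CurB ep η η') {r : ℕ} (O : Fin r → Xo) (a : Bool) :
    qA6 B P η O a = qA6 B' P η O a := by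
  funext t
  unfold qA6
  have h1 : NUO.pA (Fil.cv a η) t ∈ D := by
    refine hD.A _ ?_
    have h2 : (NUO.pA (Fil.cv a η) t).re = l - Fil.cv a η t := by
      unfold NUO.pA vl
      simp
    rw [h2, sub_sub_cancel_left, abs_neg]
    exact (hη.cv a).h1 t
  rw [hR _ _ h1, hφ]

/-- the gas -/
theorem Z1c6_congr (hD : DomK P ep D) (hR : ∀ a, ∀ z ∈ D, B.R a z = B'.R a z) (hφ : B.φ = B'.φ)
    {η η' : ℝ → ℝ} (hη : CurB ep η η') {r : ℕ} (O : Fin r → Xo) (p q : ℕ) :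
    Z1c6 B P η η' O p q = Z1c6 B' P η η' O p q := by
  unfold Z1c6
  rw [qA6_congr hD hR hφ hη O true, qA6_congr hD hR hφ hη O false]

/-- **the terms only see `D`** -/
theorem Fnc6_congr (hD : DomK P ep D) (hR : ∀ a, ∀ z ∈ D, B.R a z = B'.R a z) (hφ : B.φ = B'.φ)
    (hφ0 : B.φ0 = B'.φ0) {η η' : ℝ → ℝ} (hη : CurB ep η η') (nX nY : ℕ) {r : ℕ}
    (O : Fin r → Xo) : Fnc6 B P η η' nX nY O = Fnc6 B' P η η' nX nY O := by
  unfold Fnc6
  rw [objWc6_congr hD hR hφ hφ0 O, Z1c6_congr hD hR hφ hη]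

/-- the terms of a class with `m` quanta X and `m'` quanta Y at simple poles -/
def TmV6 (m m' : ℕ) (B : OB) (P : Par6) (aX aY : ℕ) : Term :=
  fun n r O η η' => if m ≤ n + aX ∧ m' ≤ n + aY then
    Fnc6 B P η η' (n + aX - m) (n + aY - m') (r := r) O else 0

end fil

/-- two terms which agree on the curves -/
theorem PerG6.congr {C C' c b c1 c' L e1 J ν d : ℝ} {k : ℕ}
    {N a : ℕ} {T T' : Term} {Q : ℝ}
    (hT : ∀ n r (O : Fin r → Xo) η η', CurB ep η η' → T' n r O η η' = T n r O η η')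
    (h : PerG6 C C' c b k c1 c' L ep e1 J ν d N a T Q) : PerG6 C C' c b k c1 c' L ep e1 J ν d N a T' Q := by
  intro n hn b' hb' r hr O
  obtain ⟨η, η', hcur, hb⟩ := h n hn b' hb' r hr O
  refine ⟨η, η', hcur, fun W => ?_⟩
  rw [hT n r O η η' hcur]
  exact hb W

/-- two terms which agree on the curves, representation -/
theorem R4gen6.congr {a : ℕ} {T T' : Term} {Z : ℕ → ℂ}
    (hT : ∀ n r (O : Fin r → Xo) η η', CurB ep η η' → T' n r O η η' = T n r O η η')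
    (h : R4gen6 ep a T Z) : R4gen6 ep a T' Z := by
  intro η η' hη n
  refine (h η η' hη n).trans (le_of_eq ?_)
  refine Finset.sum_congr rfl fun r _ => ?_
  congr 1
  refine lintegral_congr fun O => ?_
  rw [hT n r O _ _ (hη r O)]

section fil

variable [Fil]

/-- **the bound of the terms `TmV6` only sees `D`** -/
theorem perGen6_congr {C C' c b c1 c' L e1 J ν d : ℝ} {k : ℕ}
    {N a m m' aX aY : ℕ} {Q : ℝ} (hD : DomK P ep D) (hR : ∀ a, ∀ z ∈ D, B.R a z = B'.R a z)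
    (hφ : B.φ = B'.φ) (hφ0 : B.φ0 = B'.φ0)
    (h : PerG6 C C' c b k c1 c' L ep e1 J ν d N a (TmV6 m m' B P aX aY) Q) :
    PerG6 C C' c b k c1 c' L ep e1 J ν d N a (TmV6 m m' B' P aX aY) Q := by
  refine h.congr fun n r O η η' hη => ?_
  unfold TmV6
  split_ifs
  · exact (Fnc6_congr hD hR hφ hφ0 hη _ _ O).symm
  · rfl

/-- the same for `TmC6` -/
theorem perGen6_congrC {C C' c b c1 c' L e1 J ν d : ℝ} {k : ℕ}
    {N a aX aY : ℕ} {Q : ℝ} (hD : DomK P ep D) (hR : ∀ a, ∀ z ∈ D, B.R a z = B'.R a z)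
    (hφ : B.φ = B'.φ) (hφ0 : B.φ0 = B'.φ0)
    (h : PerG6 C C' c b k c1 c' L ep e1 J ν d N a (TmC6 (fun _ _ => B) P aX aY) Q) :
    PerG6 C C' c b k c1 c' L ep e1 J ν d N a (TmC6 (fun _ _ => B') P aX aY) Q := by
  refine h.congr fun n r O η η' hη => ?_
  unfold TmC6
  exact (Fnc6_congr hD hR hφ hφ0 hη _ _ O).symm

/-- the representation only sees `D` -/
theorem R4Cof6.congr {aX aY : ℕ} {Z : ℕ → ℂ} (hD : DomK P ep D)
    (hR : ∀ a, ∀ z ∈ D, B.R a z = B'.R a z) (hφ : B.φ = B'.φ) (hφ0 : B.φ0 = B'.φ0)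
    (h : R4Cof6 ep B P aX aY Z) : R4Cof6 ep B' P aX aY Z := by
  unfold R4Cof6 at h ⊢
  refine h.congr fun n r O η η' hη => ?_
  unfold TmC6
  exact (Fnc6_congr hD hR hφ hφ0 hη _ _ O).symm

end fil

end PHK

end
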