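import Pool.Agent.PHK.Sum
import Pool.Agent.PHK.Congr

/-!
# (P): classes with choices (quanta at simple poles)

* `R4genU6`: representation of a class by terms with choices `u : U`, the curves may depend on the
  choice;
* `Fnc6_zero`: more than `2 (nX + nY)` objects;
* `perGen_V6`: the tilted bound of the terms `TmV6`;
* `glue_U6`: the bound of one class with choices.
-/

set_option autoImplicit false
set_option linter.unusedSectionVars false

noncomputable section

open Complex MeasureTheory Finset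
open scoped ENNReal

open PLX (Fil)

namespace PHK

open NUO NUP1 NUCR NUGC.PLX

/-- **representation of a class by terms with choices `u : U`**, the curves may depend on the
choice -/
def R4genU6 {U : Type*} [Fintype U] (ep : ℝ) (a : ℕ) (c : U → ℝ≥0∞) (T : U → Term) (Z : ℕ → ℂ) :
    Prop :=
  ∀ η η' : U → (r : ℕ) → (Fin r → Xo) → ℝ → ℝ,
    (∀ (u : U) (r : ℕ) (O : Fin r → Xo), CurB ep (η u r O) (η' u r O)) → ∀ n : ℕ,
    ‖Z n‖ₑ ≤ ∑ r ∈ range (2 * (2 * n + a) + 1), ((r.factorial : ℝ≥0∞))⁻¹ *
      ∫⁻ O : Fin r → Xo, ∑ u, c u * T u n r O (η u r O) (η' u r O) ∂(Measure.pi fun _ => nu)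

/-- one curve for all choices -/
theorem R4genU6.gen {U : Type*} [Fintype U] {ep : ℝ} {a : ℕ} {c : U → ℝ≥0∞} {T : U → Term}
    {Z : ℕ → ℂ} (h : R4genU6 ep a c T Z) :
    R4gen6 ep a (fun n r O η η' => ∑ u, c u * T u n r O η η') Z :=
  fun η η' hη n => h (fun _ => η) (fun _ => η') (fun _ => hη) n

/-- no choice -/
theorem R4gen6.u {ep : ℝ} {a : ℕ} {T : Term} {Z : ℕ → ℂ} (h : R4gen6 ep a T Z) :
    R4genU6 ep a (fun _ : Unit => 1) (fun _ => T) Z := by
  intro η η' hη n
  refine (h (η ()) (η' ()) (hη ()) n).trans (le_of_eq ?_)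
  simp

variable {r : ℕ}

section fil

variable [Fil]

/-- more objects than quanta -/
theorem Fnc6_zero {B : OB} {P : Par6} {η η' : ℝ → ℝ} {nX nY : ℕ} (O : Fin r → Xo)
    (h : 2 * (nX + nY) < r) : Fnc6 B P η η' nX nY O = 0 := by
  unfold Fnc6
  rw [if_neg]
  rintro ⟨h1, h2, h3⟩
  have := r_le6 h1 h2 h3
  omega

/-- **the tilted bound of the terms with quanta at the simple poles**: `n = n' + s` -/
theorem perGen_V6 {C C' c b : ℝ} {k : ℕ} {c1 c' L ep e1 J ν d : ℝ} {N : ℕ} {B : OB} {P : Par6}
    {aX aY m m' s : ℕ} {Q : ℝ} (hep : 0 ≤ ep) (hC : 0 ≤ C) (hC' : 0 ≤ C') (hL : 0 ≤ L)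
    (hQ : 0 ≤ Q) (hs : m ≤ aX + s) (hs' : m' ≤ aY + s)
    (h0 : s = 0 ∨ m = aX + s ∨ m' = aY + s)
    (h : PerCof6 C C' c b k c1 c' L ep e1 J (ν - s) d N B P (aX + s - m) (aY + s - m') Q) :
    PerG6 C C' c b k c1 c' L ep e1 J ν d N (aX + aY) (TmV6 m m' B P aX aY) Q := by
  have hl := Bd.l_pos
  intro n hn b' hb' r hr O
  have hcur0 : CurB ep (0 : ℝ → ℝ) 0 :=
    ⟨fun t => by simpa using hasDerivAt_const t (0 : ℝ), continuous_const, fun t => by
      simp only [Pi.zero_apply, abs_zero]
      positivity, ⟨0, fun t => by simp⟩⟩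
  have hrhs : ∀ W : Finset ℤ, 0 ≤ Q * (if (r : ℝ) ≤ L then 1 else Real.exp (c' * L)) *
      (∏ i, act C C' c b k L ep e1 J r (ht (O i))) *
      Real.exp (-(c1 * ∑ w ∈ W, (cO O w : ℝ) ^ 2)) := by
    intro W
    have h1 : 0 ≤ ∏ i, act C C' c b k L ep e1 J r (ht (O i)) :=
      Finset.prod_nonneg fun i _ => act_nonneg hC hC' hL
    split_ifs <;> positivity
  by_cases hm : m ≤ n + aX ∧ m' ≤ n + aY
  · -- the shifted number
    have hsn : s ≤ n := by
      rcases h0 with h0 | h0 | h0
      · omega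
      · omega
      · omega
    have e1 : n + aX - m = n - s + (aX + s - m) := by omega
    have e2 : n + aY - m' = n - s + (aY + s - m') := by omega
    by_cases hr' : r ≤ 2 * (2 * (n - s) + (aX + s - m + (aY + s - m')))
    · obtain ⟨η, η', hcur, hb⟩ := h (n - s) (by omega) b' hb' r hr' O
      refine ⟨η, η', hcur, fun W => ?_⟩
      have h3 := hb W
      have e3 : TmV6 m m' B P aX aY n r O η η' =
          TmC6 (fun _ _ => B) P (aX + s - m) (aY + s - m') (n - s) r O η η' := by
        unfold TmV6 TmC6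
        rw [if_pos hm, e1, e2]
      rw [e3]
      have e4 : b' * (ν - n) = b' * (ν - s - ((n - s : ℕ) : ℝ)) := by
        rw [Nat.cast_sub hsn]
        ring
      rw [e4]
      exact h3
    · refine ⟨0, 0, hcur0, fun W => ?_⟩
      have e3 : TmV6 m m' B P aX aY n r O 0 0 = 0 := by
        unfold TmV6
        rw [if_pos hm]
        exact Fnc6_zero O (by omega)
      rw [e3, mul_zero]
      exact zero_le
  · refine ⟨0, 0, hcur0, fun W => ?_⟩
    have e3 : TmV6 m m' B P aX aY n r O 0 0 = 0 := by
      unfold TmV6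
      rw [if_neg hm]
    rw [e3, mul_zero]
    exact zero_le

end fil

/-- **the bound of one class with choices** -/
theorem glue_U6 {C c b c1 c' : ℝ} {k : ℕ} (hC : 0 < C) (hc : 0 < c) (hb : 0 < b) (hc1 : 0 < c1)
    (hc' : 0 ≤ c') {δ : ℝ} (hδ : 0 < δ) :
    ∃ a0 : ℝ, 0 < a0 ∧ ∀ C' : ℝ, 0 ≤ C' → ∃ L0 : ℝ, ∀ L ≥ L0, ∀ ep : ℝ, 0 ≤ ep → ep ≤ 1 / 4 →
      ∀ e1 : ℝ, 0 < e1 → e1 ≤ 1 / 4 → ∀ J : ℝ, 0 ≤ J →
      Real.exp (-(2 * Real.pi * J)) + 3 * e1 + 3 * ep ≤ a0 →
      ∀ (ν d : ℝ) (N a : ℕ) (U : Type) (_ : Fintype U) (w : U → ℝ≥0∞) (Q : U → ℝ) (T : U → Term)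
        (Z : ℕ → ℂ), 0 < d → (∀ u, 0 ≤ Q u) → (∀ u, w u ≠ ⊤) →
      ((2 * (2 * N + a) + 1 : ℕ) : ℝ) ≤ Real.exp (2 * L) → R4genU6 ep a w T Z →
      (∀ u, w u ≠ 0 → PerG6 C C' c b k c1 c' L ep e1 J ν d N a (T u) (Q u)) →
      ∑ n ∈ range (N + 1), ‖Z n‖ ≤
        4 * (1 + 1 / d) * ((∑ u, (w u).toReal * Q u) * Real.exp (δ * L)) := by
  obtain ⟨a0, ha0, h⟩ := conf_sum (C := C) (c := c) (b := b) (k := k) hC hc1 hc' hδ
  refine ⟨a0, ha0, fun C' hC' => ?_⟩
  obtain ⟨D, L0, -, h⟩ := h C' hC' (actInt hC.le hC' hc hb k)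
  refine ⟨max L0 0, fun L hL ep hep hep' e1 he1 he1' J hJ hsm ν d N a U _ w Qu T Z hd hQu hw hN hR
    hP => ?_⟩
  have hL0 : 0 ≤ L := (le_max_right _ _).trans hL
  set Q : ℝ := ∑ u, (w u).toReal * Qu u with hQdef
  have hQ : 0 ≤ Q := Finset.sum_nonneg fun u _ => mul_nonneg ENNReal.toReal_nonneg (hQu u)
  have hcur0 : CurB ep (0 : ℝ → ℝ) 0 :=
    ⟨fun t => by simpa using hasDerivAt_const t (0 : ℝ), continuous_const, fun t => by
      have := NUP1.l_pos
      simp only [Pi.zero_apply, abs_zero]
      positivity, ⟨0, fun t => by simp⟩⟩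
  have hone : ∀ n ≤ N, ∀ b' : ℝ, b' = d ∨ b' = -d →
      Real.exp (b' * (ν - n)) * ‖Z n‖ ≤ Q * Real.exp (δ * L) := by
    intro n hn b' hb'
    have hP' : ∀ (u : U) (r : ℕ) (O : Fin r → Xo), ∃ η η' : ℝ → ℝ, CurB ep η η' ∧
        (w u ≠ 0 → r ≤ 2 * (2 * n + a) → ∀ W : Finset ℤ,
          ENNReal.ofReal (Real.exp (b' * (ν - n))) * T u n r O η η' ≤
          ENNReal.ofReal (Qu u * (if (r : ℝ) ≤ L then 1 else Real.exp (c' * L)) *
            (∏ i, act C C' c b k L ep e1 J r (ht (O i))) *
            Real.exp (-(c1 * ∑ w ∈ W, (cO O w : ℝ) ^ 2)))) := by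
      intro u r O
      by_cases h1 : w u ≠ 0 ∧ r ≤ 2 * (2 * n + a)
      · obtain ⟨η, η', hc, hb⟩ := hP u h1.1 n hn b' hb' r h1.2 O
        exact ⟨η, η', hc, fun _ _ => hb⟩
      · exact ⟨0, 0, hcur0, fun h2 h3 => absurd ⟨h2, h3⟩ h1⟩
    choose η η' hcur hbd using hP'
    have h1 := hR η η' hcur n
    have key : ENNReal.ofReal (Real.exp (b' * (ν - n))) * ‖Z n‖ₑ ≤
        ENNReal.ofReal (Q * Real.exp (δ * L)) := by
      calc ENNReal.ofReal (Real.exp (b' * (ν - n))) * ‖Z n‖ₑ
          ≤ ENNReal.ofReal (Real.exp (b' * (ν - n))) * ∑ r ∈ range (2 * (2 * n + a) + 1),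
            ((r.factorial : ℝ≥0∞))⁻¹ * ∫⁻ O : Fin r → Xo,
              ∑ u, w u * T u n r O (η u r O) (η' u r O) ∂(Measure.pi fun _ => nu) :=
            mul_le_mul_right h1 _
        _ = ∑ r ∈ range (2 * (2 * n + a) + 1), ((r.factorial : ℕ) : ℝ≥0∞)⁻¹ *
            ∫⁻ O : Fin r → Xo, ENNReal.ofReal (Real.exp (b' * (ν - n))) *
              ∑ u, w u * T u n r O (η u r O) (η' u r O) ∂(Measure.pi fun _ => nu) := by
            rw [Finset.mul_sum]
            refine Finset.sum_congr rfl fun r _ => ?_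
            rw [lintegral_const_mul' _ _ ENNReal.ofReal_ne_top]
            ring
        _ ≤ ENNReal.ofReal (Q * Real.exp (δ * L)) := by
            refine h L ((le_max_left _ _).trans hL) ep hep hep' e1 he1 he1' J hJ hsm Q hQ
              (2 * (2 * n + a) + 1) ?_
              (fun r O => ENNReal.ofReal (Real.exp (b' * (ν - n))) *
                ∑ u, w u * T u n r O (η u r O) (η' u r O)) ?_
            · refine le_trans ?_ hN
              exact_mod_cast (by omega : 2 * (2 * n + a) + 1 ≤ 2 * (2 * N + a) + 1)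
            · intro r hr O
              have hr' : r ≤ 2 * (2 * n + a) := Nat.lt_succ_iff.1 hr
              set R : ℝ := (if (r : ℝ) ≤ L then 1 else Real.exp (c' * L)) *
                (∏ i, act C C' c b k L ep e1 J r (ht (O i))) *
                Real.exp (-(c1 * ∑ w ∈ WZ D L r, (cO O w : ℝ) ^ 2)) with hRdef
              have hR0 : 0 ≤ R := by
                have h1 : 0 ≤ ∏ i, act C C' c b k L ep e1 J r (ht (O i)) :=
                  Finset.prod_nonneg fun i _ => act_nonneg hC.le hC' hL0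
                rw [hRdef]
                split_ifs <;> positivity
              have h2 : ∀ u, ENNReal.ofReal (Real.exp (b' * (ν - n))) *
                  (w u * T u n r O (η u r O) (η' u r O)) ≤
                  ENNReal.ofReal ((w u).toReal * Qu u * R) := by
                intro u
                by_cases hu : w u = 0
                · rw [hu, zero_mul, mul_zero]
                  exact zero_le
                · have h3 := hbd u r O hu hr' (WZ D L r)
                  calc _ = w u * (ENNReal.ofReal (Real.exp (b' * (ν - n))) *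
                        T u n r O (η u r O) (η' u r O)) := by ring
                    _ ≤ w u * ENNReal.ofReal (Qu u * R) := by
                        refine mul_le_mul_right (h3.trans (le_of_eq ?_)) _
                        congr 1
                        rw [hRdef]
                        ring
                    _ = _ := by
                        rw [mul_assoc, ENNReal.ofReal_mul (p := (w u).toReal)
                          ENNReal.toReal_nonneg, ENNReal.ofReal_toReal (hw u)]
              calc ENNReal.ofReal (Real.exp (b' * (ν - n))) *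
                    ∑ u, w u * T u n r O (η u r O) (η' u r O)
                  = ∑ u, ENNReal.ofReal (Real.exp (b' * (ν - n))) *
                      (w u * T u n r O (η u r O) (η' u r O)) := Finset.mul_sum _ _ _
                _ ≤ ∑ u, ENNReal.ofReal ((w u).toReal * Qu u * R) :=
                    Finset.sum_le_sum fun u _ => h2 u
                _ = ENNReal.ofReal (Q * R) := by
                    rw [← ENNReal.ofReal_sum_of_nonneg fun u _ =>
                      mul_nonneg (mul_nonneg ENNReal.toReal_nonneg (hQu u)) hR0,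
                      ← Finset.sum_mul]
                _ = _ := by
                    have e1 : Q * (if (r : ℝ) ≤ L then 1 else Real.exp (c' * L)) =
                        if (r : ℝ) ≤ L then Q else Q * Real.exp (c' * L) := by
                      split_ifs
                      · rw [mul_one]
                      · rfl
                    rw [hRdef, ← mul_assoc, ← mul_assoc, e1]
                    rfl
    rw [← ofReal_norm, ← ENNReal.ofReal_mul (Real.exp_pos _).le] at key
    exact (ENNReal.ofReal_le_ofReal_iff (by positivity)).1 key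
  have h1 := NUCR.sum_n_le (b := 0) (d := d) (s := ν) (Q := Q * Real.exp (δ * L)) hd
    (by positivity) (fun n => ‖Z n‖) (N + 1)
    (fun n hn => by
      have := hone n (by omega) d (Or.inl rfl)
      simpa using this)
    (fun n hn => by
      have := hone n (by omega) (-d) (Or.inr rfl)
      simpa using this)
  simpa using h1

end PHK

end
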