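import Pool.Agent.PHK.R4C6
import Pool.Agent.PHK.OneU

/-!
# (P): the representation corollary of a class which is a sum of functionals with insertions

* `trA6_scale`: a bounded insertion;
* **`R4U_of6`**: the value is a finite sum over choices `u : U` of functionals `FF6` of class functions
  `Y u` (`m u`, `m' u` quanta captured) with insertions bounded by `c u`: `R4genU6`;
* `R4C_ofPsi`: one choice.
-/

set_option autoImplicit false
set_option linter.unusedSectionVars false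

noncomputable section

open Complex MeasureTheory Finset
open scoped ENNReal
open PLX (Fil)

namespace PHK

open NUO NUP1 NUP1S NUP1S.Ab NUP1S.AbC NUGC NUGC.PLX NUCR
open PBF.PLX (gK Ins Crs)

theorem sum_lintegral_le {α : Type*} [MeasurableSpace α] (μ : Measure α) {U : Type*} (s : Finset U)
    (f : U → α → ℝ≥0∞) : ∑ u ∈ s, ∫⁻ a, f u a ∂μ ≤ ∫⁻ a, ∑ u ∈ s, f u a ∂μ := by
  classical
  induction s using Finset.induction_on with
  | empty => simp
  | insert u s hu ih =>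
    rw [Finset.sum_insert hu]
    refine (add_le_add le_rfl ih).trans ((le_lintegral_add _ _).trans (le_of_eq ?_))
    refine lintegral_congr fun a => ?_
    rw [Finset.sum_insert hu]

variable [Fil]

/-- a bounded insertion -/
theorem trA6_scale {Z : Bool → Option O3 → ℂ → ℂ} {P : Par6} {n n' : ℕ} {η η' : Crs} {Ψ : Ins}
    {b : ℝ≥0∞} (hb : b ≠ ⊤) (h : ∀ r O a a' x, ‖Ψ r O a a' x‖ₑ ≤ b) (r : ℕ) (O : Fin r → Xo) :
    trA6 Z P n n' η η' Ψ r O ≤ b * trA6 Z P n n' η η' (fun _ _ _ _ _ => 1) r O := by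
  unfold trA6
  split_ifs
  · have h1 : ∫⁻ x, ‖gK (gF6 Z P O) (η r O) (η' r O) (nA6 n O true) (nA6 n' O false) x‖ₑ *
        ‖Ψ r O (nA6 n O true) (nA6 n' O false) x‖ₑ ≤
        b * ∫⁻ x, ‖gK (gF6 Z P O) (η r O) (η' r O) (nA6 n O true) (nA6 n' O false) x‖ₑ *
          ‖(1 : ℂ)‖ₑ := by
      rw [← lintegral_const_mul' _ _ hb]
      refine lintegral_mono fun x => ?_
      rw [enorm_one, mul_one, mul_comm b]
      exact mul_le_mul' le_rfl (h _ _ _ _ _)
    refine (mul_le_mul' le_rfl (mul_le_mul' le_rfl h1)).trans (le_of_eq ?_)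
    ring
  · exact zero_le

/-- the functional with moduli, a bounded insertion -/
theorem FA6_le_scale {Z : Bool → Option O3 → ℂ → ℂ} {B : OB} {P : Par6} {ep κ x0 : ℝ} {Q : ℤ}
    {E : Set ℝ} (h : OneC6 Z B P ep κ x0 Q E) (hep0 : 0 < ep) (hep : ep ≤ 1 / 100)
    {η η' : Crs} (hη : ∀ (r : ℕ) (O : Fin r → Xo), CurB ep (η r O) (η' r O)) (n n' : ℕ) {Ψ : Ins}
    {b : ℝ≥0∞} (hb : b ≠ ⊤) (hΨ : ∀ r O a a' x, ‖Ψ r O a a' x‖ₑ ≤ b) :
    FA6 Z P n n' η η' Ψ ≤ ∑ r ∈ range (2 * (n + n') + 1),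
      ((r.factorial : ℕ) : ℝ≥0∞)⁻¹ * ∫⁻ O : Fin r → Xo, b * Fnc6 B P (η r O) (η' r O) n n' O
        ∂(Measure.pi fun _ => nu) := by
  unfold FA6
  refine Finset.sum_le_sum fun r _ => mul_le_mul' le_rfl (lintegral_mono_ae ?_)
  filter_upwards [ae_ht6 (r := r) h.nul] with O hO
  exact (trA6_scale hb hΨ r O).trans (mul_le_mul' le_rfl (trA6_le_Fnc6 h hep0 hep O (hη r O) hO))

/-- **The representation corollary of a class which is a sum of functionals.** -/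
theorem R4U_of6 {U : Type*} [Fintype U] {Y : U → Bool → Option O3 → ℂ → ℂ} {B : U → OB} {P : Par6}
    {ep : ℝ} {κ x0 : U → ℝ} {Q : U → ℤ} {E : U → Set ℝ} {c : U → ℝ≥0∞} (hc : ∀ u, c u ≠ ⊤)
    (h : ∀ u, c u ≠ 0 → OneC6 (Y u) (B u) P ep (κ u) (x0 u) (Q u) (E u)) (hep0 : 0 < ep)
    (hep : ep ≤ 1 / 100) {a : ℕ} {aX aY m m' : U → ℕ} (ha : ∀ u, aX u + aY u ≤ a) {Zn : ℕ → ℂ}
    (hZ : ∀ η η' : U → Crs, (∀ (u : U) (r : ℕ) (O : Fin r → Xo), CurB ep (η u r O) (η' u r O)) →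
      ∀ n : ℕ, ∃ Ψ : U → Ins, (∀ u r O a a' x, ‖Ψ u r O a a' x‖ₑ ≤ c u) ∧
        Zn n = ∑ u, if m u ≤ n + aX u ∧ m' u ≤ n + aY u then
          FF6 (Y u) P (n + aX u - m u) (n + aY u - m' u) (η u) (η' u) (Ψ u) else 0) :
    R4genU6 ep a c (fun u => TmV6 (m u) (m' u) (B u) P (aX u) (aY u)) Zn := by
  intro η η' hη n
  obtain ⟨Ψ, hΨ, hn⟩ := hZ η η' hη n
  rw [hn]
  refine (enorm_sum_le _ _).trans ?_
  have key : ∀ u : U, ‖(if m u ≤ n + aX u ∧ m' u ≤ n + aY u then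
      FF6 (Y u) P (n + aX u - m u) (n + aY u - m' u) (η u) (η' u) (Ψ u) else 0)‖ₑ ≤
      ∑ r ∈ range (2 * (2 * n + a) + 1), ((r.factorial : ℕ) : ℝ≥0∞)⁻¹ *
        ∫⁻ O : Fin r → Xo, c u * TmV6 (m u) (m' u) (B u) P (aX u) (aY u) n r O (η u r O) (η' u r O)
          ∂(Measure.pi fun _ => nu) := by
    intro u
    by_cases hm : m u ≤ n + aX u ∧ m' u ≤ n + aY u
    swap
    · rw [if_neg hm, enorm_zero]
      exact zero_le
    rw [if_pos hm]
    by_cases hcu : c u = 0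
    · have h0 : FF6 (Y u) P (n + aX u - m u) (n + aY u - m' u) (η u) (η' u) (Ψ u) = 0 := by
        have e : Ψ u = fun r O a b x => 0 * Ψ u r O a b x := by
          funext r O a b x
          have h1 := hΨ u r O a b x
          rw [hcu] at h1
          have h2 : Ψ u r O a b x = 0 := enorm_eq_zero.1 (le_antisymm h1 zero_le)
          rw [h2, zero_mul]
        rw [e, FF6_cmul, zero_mul]
      rw [h0, enorm_zero]
      exact zero_le
    refine (FF6_le _).trans ((FA6_le_scale (h u hcu) hep0 hep (hη u) _ _ (hc u) (hΨ u)).trans ?_)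
    refine (Finset.sum_le_sum_of_subset (Finset.range_mono ?_)).trans
      (Finset.sum_le_sum fun r _ => mul_le_mul' le_rfl (lintegral_mono fun O => ?_))
    · have := ha u
      omega
    · show c u * _ ≤ c u * _
      unfold TmV6
      rw [if_pos hm]
  refine (Finset.sum_le_sum fun u _ => key u).trans ?_
  rw [Finset.sum_comm]
  refine Finset.sum_le_sum fun r _ => ?_
  rw [← Finset.mul_sum]
  exact mul_le_mul' le_rfl (sum_lintegral_le _ _ _)

/-- **The representation corollary of a class with one insertion of modulus at most `b`.** -/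
theorem R4C_ofPsi {Z : Bool → Option O3 → ℂ → ℂ} {B : OB} {P : Par6} {ep κ x0 : ℝ} {Q : ℤ}
    {E : Set ℝ} (h : OneC6 Z B P ep κ x0 Q E) (hep0 : 0 < ep) (hep : ep ≤ 1 / 100) {aX aY : ℕ}
    {b : ℝ} (hb : 0 < b) {Zn : ℕ → ℂ}
    (hZ : ∀ η η' : Crs, (∀ (r : ℕ) (O : Fin r → Xo), CurB ep (η r O) (η' r O)) →
      ∀ n : ℕ, ∃ Ψ : Ins, (∀ r O a a' x, ‖Ψ r O a a' x‖ ≤ b) ∧
        Zn n = FF6 Z P (n + aX) (n + aY) η η' Ψ) :
    R4Cof6 ep B P aX aY fun n => Zn n / b := by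
  intro η η' hη n
  obtain ⟨Ψ, hΨ, hn⟩ := hZ η η' hη n
  have e : Zn n / b = FF6 Z P (n + aX) (n + aY) η η' (fun r O a a' x => (b : ℂ)⁻¹ * Ψ r O a a' x) := by
    rw [FF6_cmul, hn, div_eq_inv_mul]
  have hΨ' : ∀ r O a a' x, ‖(b : ℂ)⁻¹ * Ψ r O a a' x‖ₑ ≤ 1 := by
    intro r O a a' x
    rw [← ofReal_norm, ← ENNReal.ofReal_one]
    refine ENNReal.ofReal_le_ofReal ?_
    rw [norm_mul, norm_inv, Complex.norm_real, Real.norm_of_nonneg hb.le, inv_mul_le_iff₀ hb,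
      mul_one]
    exact hΨ r O a a' x
  simp only [e]
  refine (FF6_le _).trans ((FA6_le_scale h hep0 hep hη _ _ ENNReal.one_ne_top hΨ').trans
    (le_of_eq ?_))
  have e2 : 2 * (n + aX + (n + aY)) + 1 = 2 * (2 * n + (aX + aY)) + 1 := by ring
  rw [e2]
  simp only [one_mul]
  rfl

end PHK

end
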