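import Pool.Agent.PHK.Ch6
import Pool.Agent.PHK.R4U6
import Pool.Agent.PLX.PB.Top0

/-!
# (P): the final classes with the choices of the half quanta, over any base

* `YV6`, `obV6`, `cls_oneV`: class functions, one body data, `OneC6`;
* `ClsV6`: the class as a sum over the choices of functionals with bounded insertions, `r4_V6`;
* **`cls_le6`, `cls_cF6`**: the bound of a class at fixed half quanta from the tilted bounds;
* **`top_cFS6`**: the sum over the numbers of the double integrals over a set;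
* `r4_D6`, **`top_cDB6`**: the classes D1, D1'.
-/

set_option autoImplicit false
set_option linter.unusedSectionVars false

noncomputable section

open Complex MeasureTheory Finset
open scoped ENNReal

open PLX (Fil)

namespace PBR.PLX

open NUO NUP1 NUCR NUP1S NUP1S.Ab NUP1S.AbC NUP1S.AbG NURow NUP1.Leg NUGC.PLX PBX PBX.PLX
open _root_.Pool.Agent.PLX
open PHK
open PBF.PLX (Ins Crs)

/-- additional quanta X of the choices -/
def aXv (e : ℕ) (t t' : HT) (u : Ch6 × Ch6) : ℕ := aXt e t t' + u.2.2.toNat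

/-- additional quanta Y of the choices -/
def aYv (e : ℕ) (t t' : HT) (u : Ch6 × Ch6) : ℕ := aYt e t t' + u.1.2.toNat

theorem aXv_add (e : ℕ) (t t' : HT) (u : Ch6 × Ch6) :
    aXv e t t' u + aYv e t t' u ≤ aXt e t t' + aYt e t t' + 2 := by
  unfold aXv aYv
  have h1 : u.2.2.toNat ≤ 1 := Bool.toNat_le _
  have h2 : u.1.2.toNat ≤ 1 := Bool.toNat_le _
  omega

/-- class functions of the choices -/
def YV6 (X : Bool → Option O3 → ℂ → ℂ) (t t' : HT) (w w' : ℂ) (u : Ch6 × Ch6) (a : Bool) :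
    Option O3 → ℂ → ℂ :=
  XS a (X a) (vF6 t u.1) (fl (vF6 t' u.2)) w w'

/-- one body data of the choices -/
def obV6 (ob : (Bool → ℂ → ℝ) → OB) (t t' : HT) (w w' : ℂ) (u : Ch6 × Ch6) : OB :=
  ob fun a z => ‖sG (vF6 t u.1) (vF6 t' u.2) w w' a z‖

section base

variable {X : Bool → Option O3 → ℂ → ℂ} {ob : (Bool → ℂ → ℝ) → OB} {P : Par6} {x κ : ℝ} {e : ℕ}
  {E0 : Set ℝ}

/-- **the class functions of the choices are bounded by the one body data, any base** -/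
theorem cls_oneV (hB : Bs6 X ob P x κ e E0) {t t' : HT} {u : Ch6 × Ch6} (h : okC6 t u.1)
    (h' : okC6 t' u.2) {w w' : ℂ} (hw : w.re = htL t) (hw' : w'.re = htL t') :
    OneC6 (YV6 X t t' w w' u) (obV6 ob t t' w w' u) P x κ (19 / 20 * l)
      (((aXt e t t' + u.2.2.toNat + u.2.1.toNat : ℕ) : ℤ) -
        ((aYt e t t' + u.1.2.toNat + u.1.1.toNat : ℕ) : ℤ))
      ({w.im, w'.im} ∪ E0) :=
  cls_one6 hB (lt6_v h) (lt6_v h') hw hw' (by
    have h1 := aXt_q e t t'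
    unfold vQ6
    rw [htQ_eq, htQ_eq]
    push_cast
    linarith)

/-- **a class as a sum over the choices of functionals with bounded insertions** -/
def ClsV6 [Fil] (X : Bool → Option O3 → ℂ → ℂ) (P : Par6) (x : ℝ) (e : ℕ) (t t' : HT) (w w' : ℂ)
    (cw : Ch6 × Ch6 → ℝ) (Zn : ℕ → ℂ) : Prop :=
  ∀ η η' : Ch6 × Ch6 → Crs, (∀ (u : Ch6 × Ch6) (r : ℕ) (O : Fin r → Xo),
    CurB x (η u r O) (η' u r O)) → ∀ n : ℕ, ∃ Ψ : Ch6 × Ch6 → Ins,
    (∀ u r O a a' z, ‖Ψ u r O a a' z‖ ≤ cw u) ∧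
    Zn n = ∑ u, if u.1.1.toNat ≤ n + aXv e t t' u ∧ u.2.1.toNat ≤ n + aYv e t t' u then
      FF6 (YV6 X t t' w w' u) P (n + aXv e t t' u - u.1.1.toNat) (n + aYv e t t' u - u.2.1.toNat)
        (η u) (η' u) (Ψ u) else 0

variable [Fil]

/-- the representation corollary of a class -/
theorem r4_V6 (hB : Bs6 X ob P x κ e E0) (hx0 : 0 < x) (hx1 : x ≤ 1 / 100) {t t' : HT} {w w' : ℂ}
    (hw : w.re = htL t) (hw' : w'.re = htL t') {cw : Ch6 × Ch6 → ℝ}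
    (hcw : ∀ u, cw u ≠ 0 → okC6 t u.1 ∧ okC6 t' u.2) {Zn : ℕ → ℂ}
    (hZ : ClsV6 X P x e t t' w w' cw Zn) :
    R4genU6 x (aXt e t t' + aYt e t t' + 2) (fun u => ENNReal.ofReal (cw u))
      (fun u => TmV6 u.1.1.toNat u.2.1.toNat (obV6 ob t t' w w' u) P (aXv e t t' u) (aYv e t t' u))
      Zn := by
  refine R4U_of6 (Y := YV6 X t t' w w') (κ := fun _ => κ) (x0 := fun _ => 19 / 20 * l)
    (Q := fun u => ((aXt e t t' + u.2.2.toNat + u.2.1.toNat : ℕ) : ℤ) -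
        ((aYt e t t' + u.1.2.toNat + u.1.1.toNat : ℕ) : ℤ))
    (E := fun _ => {w.im, w'.im} ∪ E0) (fun u => ENNReal.ofReal_ne_top) (fun u hu => ?_) hx0 hx1
    (aXv_add e t t') fun η η' hη n => ?_
  · have hu' : cw u ≠ 0 := by
      intro h0
      exact hu (by rw [h0, ENNReal.ofReal_zero])
    obtain ⟨h1, h2⟩ := hcw u hu'
    exact cls_oneV hB h1 h2 hw hw'
  · obtain ⟨Ψ, hΨ, hn⟩ := hZ η η' hη n
    refine ⟨Ψ, fun u r O a a' z => ?_, hn⟩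
    rw [← ofReal_norm]
    exact ENNReal.ofReal_le_ofReal (hΨ u r O a a' z)

end base

/-- the tilted bound of the terms for a larger number of objects -/
theorem perG6_up [Fil] {C C' c b : ℝ} {k : ℕ} {c1 c' L ep e1 J ν d : ℝ} {N : ℕ} {B : OB} {P : Par6}
    {aX aY m m' a : ℕ} {Q : ℝ} (hep : 0 ≤ ep) (ha : aX + aY ≤ a)
    (h : PerG6 C C' c b k c1 c' L ep e1 J ν d N (aX + aY) (TmV6 m m' B P aX aY) Q) :
    PerG6 C C' c b k c1 c' L ep e1 J ν d N a (TmV6 m m' B P aX aY) Q := by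
  have hl := l_pos
  intro n hn b' hb' r hr O
  by_cases hr' : r ≤ 2 * (2 * n + (aX + aY))
  · exact h n hn b' hb' r hr' O
  · refine ⟨0, 0, ⟨fun t => hasDerivAt_const t (0 : ℝ), continuous_const, fun t => by
      simp only [Pi.zero_apply, abs_zero]
      positivity, ⟨0, fun t => by simp⟩⟩, fun W => ?_⟩
    have e3 : TmV6 m m' B P aX aY n r O 0 0 = 0 := by
      unfold TmV6
      split_ifs with hm
      · exact Fnc6_zero O (by omega)
      · rfl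
    rw [e3, mul_zero]
    exact zero_le

/-- **The bound of a class at fixed half quanta** from the tilted bounds of its choices. -/
theorem cls_le6 [Fil] {C c b c1 c' : ℝ} {k : ℕ} (hC : 0 < C) (hc : 0 < c) (hb : 0 < b)
    (hc1 : 0 < c1) (hc' : 0 ≤ c') {δ : ℝ} (hδ : 0 < δ) :
    ∃ a0 : ℝ, 0 < a0 ∧ ∀ C' : ℝ, 0 ≤ C' → ∃ L0 : ℝ, ∀ L ≥ L0, ∀ ep : ℝ, 0 < ep → ep ≤ 1 / 100 →
      ∀ e1 : ℝ, 0 < e1 → e1 ≤ 1 / 4 → ∀ J : ℝ, 0 ≤ J →
      Real.exp (-(2 * Real.pi * J)) + 3 * e1 + 3 * ep ≤ a0 →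
      ∀ (P : Par6) (X : Bool → Option O3 → ℂ → ℂ) (ob : (Bool → ℂ → ℝ) → OB)
        (κ : ℝ) (E0 : Set ℝ) (t t' : HT) (w w' : ℂ), w.re = htL t → w'.re = htL t' →
      ∀ (ν d : ℝ) (K e : ℕ) (cw Q : Ch6 × Ch6 → ℝ) (Zn : ℕ → ℂ), Bs6 X ob P ep κ e E0 →
      0 < d → (∀ u, 0 ≤ cw u) → (∀ u, cw u ≠ 0 → okC6 t u.1 ∧ okC6 t' u.2) → (∀ u, 0 ≤ Q u) →
      ((2 * (2 * K + (aXt e t t' + aYt e t t' + 2)) + 1 : ℕ) : ℝ) ≤ Real.exp (2 * L) →
      ClsV6 X P ep e t t' w w' cw Zn →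
      (∀ u, cw u ≠ 0 → PerG6 C C' c b k c1 c' L ep e1 J ν d K (aXv e t t' u + aYv e t t' u)
        (TmV6 u.1.1.toNat u.2.1.toNat (obV6 ob t t' w w' u) P (aXv e t t' u) (aYv e t t' u))
        (Q u)) →
      ∑ n ∈ range (K + 1), ‖Zn n‖ ≤
        4 * (1 + 1 / d) * ((∑ u, cw u * Q u) * Real.exp (δ * L)) := by
  obtain ⟨a0, ha0, h⟩ := glue_U6 (k := k) hC hc hb hc1 hc' hδ
  refine ⟨a0, ha0, fun C' hC' => ?_⟩
  obtain ⟨L0, h⟩ := h C' hC'
  refine ⟨L0, fun L hL ep hep hep' e1 he1 he1' J hJ hsm P X ob κ E0 t t' w w' hw hw' ν d K e cw Q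
    Zn hB hd hcw0 hcw hQ hK hZ hPer => ?_⟩
  have key := h L hL ep hep.le (hep'.trans (by norm_num)) e1 he1 he1' J hJ hsm ν d K
    (aXt e t t' + aYt e t t' + 2) (Ch6 × Ch6) inferInstance
    (fun u => ENNReal.ofReal (cw u)) Q
    (fun u => TmV6 u.1.1.toNat u.2.1.toNat (obV6 ob t t' w w' u) P (aXv e t t' u) (aYv e t t' u))
    Zn hd hQ (fun u => ENNReal.ofReal_ne_top) hK
    (r4_V6 hB hep hep' hw hw' hcw hZ) (fun u hu => perG6_up hep.le (aXv_add e t t' u)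
      (hPer u fun h0 => hu (by rw [h0, ENNReal.ofReal_zero])))
  have e1 : ∀ u : Ch6 × Ch6, (ENNReal.ofReal (cw u)).toReal = cw u := fun u =>
    ENNReal.toReal_ofReal (hcw0 u)
  simp only [e1] at key
  exact key

/-- the sum over the numbers of a class, shifted -/
theorem cF_sum_le (X Y X' Y' : Option O3 → ℂ → ℂ) (kF kP kF' kP' : ℂ → ℂ) (t t' : HT) (x0 : ℝ)
    (K e : ℕ) (lnX : ∀ p p' : ℕ, (Fin p → O3) → (Fin p' → O3) → Fin p → ℝ)
    (lnY : ∀ p p' : ℕ, (Fin p → O3) → (Fin p' → O3) → Fin p' → ℝ) (w w' : ℂ) :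
    ∑ n ∈ range (K + 1), ‖(cF X Y kF kP kF' kP' t t').Z X' Y' x0 n (n + e) lnX lnY w w'‖ ≤
      ∑ n ∈ range (K + 1), ‖(cF X Y kF kP kF' kP' t t').Z X' Y' x0 (n + htN e t t')
        (n + htN e t t' + e) lnX lnY w w'‖ := by
  refine sum_shift (f := fun n => ‖(cF X Y kF kP kF' kP' t t').Z X' Y' x0 n (n + e) lnX lnY w w'‖)
    (D := htN e t t') (fun n => norm_nonneg _) (fun n hn => ?_) K
  rw [cF_zero _ _ _ _ _ _ _ _ e _ _ _ hn, norm_zero]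

/-- **the sum over the numbers of the double integral of a class over a set**, any base -/
theorem top_cFS6 [Fil] {C c b c1 c' : ℝ} {k : ℕ} (hC : 0 < C) (hc : 0 < c) (hb : 0 < b)
    (hc1 : 0 < c1) (hc' : 0 ≤ c') {δ : ℝ} (hδ : 0 < δ) :
    ∃ a0 : ℝ, 0 < a0 ∧ ∀ C' : ℝ, 0 ≤ C' → ∃ L0 : ℝ, ∀ L ≥ L0, ∀ ep : ℝ, 0 < ep → ep ≤ 1 / 100 →
      ∀ e1 : ℝ, 0 < e1 → e1 ≤ 1 / 4 → ∀ J : ℝ, 0 ≤ J →
      Real.exp (-(2 * Real.pi * J)) + 3 * e1 + 3 * ep ≤ a0 →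
      ∀ (P : Par6) (X : Bool → Option O3 → ℂ → ℂ) (ob : (Bool → ℂ → ℝ) → OB)
        (κ : ℝ) (E0 : Set ℝ) (kF kP kF' kP' : ℂ → ℂ) (t t' : HT)
        (lnX : ∀ p p' : ℕ, (Fin p → O3) → (Fin p' → O3) → Fin p → ℝ)
        (lnY : ∀ p p' : ℕ, (Fin p → O3) → (Fin p' → O3) → Fin p' → ℝ)
        (ν : ℝ × ℝ → ℝ) (d x0 : ℝ) (K e : ℕ) (cw Q : ℝ × ℝ → Ch6 × Ch6 → ℝ),
      Bs6 X ob P ep κ e E0 → 0 < d → (∀ y u, 0 ≤ cw y u) →
      (∀ y u, cw y u ≠ 0 → okC6 t u.1 ∧ okC6 t' u.2) → (∀ y u, 0 ≤ Q y u) →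
      ((2 * (2 * K + (aXt e t t' + aYt e t t' + 2)) + 1 : ℕ) : ℝ) ≤ Real.exp (2 * L) →
      (∀ᵐ y : ℝ × ℝ, ClsV6 X P ep e t t' (vl (htL t) y.1) (vl (htL t') y.2) (cw y) fun n =>
        (cF (X true) (X false) kF kP kF' kP' t t').Z (X true) (X false) x0 (n + htN e t t')
          (n + htN e t t' + e) lnX lnY (vl (htL t) y.1) (vl (htL t') y.2)) →
      (∀ᵐ y : ℝ × ℝ, ∀ u, cw y u ≠ 0 →
        PerG6 C C' c b k c1 c' L ep e1 J (ν y) d K (aXv e t t' u + aYv e t t' u)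
          (TmV6 u.1.1.toNat u.2.1.toNat (obV6 ob t t' (vl (htL t) y.1) (vl (htL t') y.2) u) P
            (aXv e t t' u) (aYv e t t' u)) (Q y u)) →
      ∀ S : Set (ℝ × ℝ),
      ∑ n ∈ range (K + 1), ∫⁻ y in S,
          ‖(cF (X true) (X false) kF kP kF' kP' t t').pre (vl (htL t) y.1) (vl (htL t') y.2)‖ₑ *
          ‖(cF (X true) (X false) kF kP kF' kP' t t').Z (X true) (X false) x0 n (n + e)
            lnX lnY (vl (htL t) y.1) (vl (htL t') y.2)‖ₑ ≤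
        ENNReal.ofReal (4 * (1 + 1 / d) * Real.exp (δ * L)) *
          ∫⁻ y in S, ‖(cF (X true) (X false) kF kP kF' kP' t t').pre
              (vl (htL t) y.1) (vl (htL t') y.2)‖ₑ *
            ENNReal.ofReal (∑ u : Ch6 × Ch6, cw y u * Q y u) := by
  obtain ⟨a0, ha0, h⟩ := cls_le6 (k := k) hC hc hb hc1 hc' hδ
  refine ⟨a0, ha0, fun C' hC' => ?_⟩
  obtain ⟨L0, h⟩ := h C' hC'
  refine ⟨L0, fun L hL ep hep hep' e1 he1 he1' J hJ hsm P X ob κ E0 kF kP kF' kP'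
    t t' lnX lnY ν d x0 K e cw Q hB hd hcw0 hcw hQ hK hZ hPer S => ?_⟩
  refine (NUGC.PLX.sum_lint_le' _ _ _).trans ?_
  rw [← lintegral_const_mul' _ _ ENNReal.ofReal_ne_top]
  refine lintegral_mono_ae ?_
  filter_upwards [ae_restrict_of_ae hZ, ae_restrict_of_ae hPer] with y hzy hpy
  have h4 : (0 : ℝ) ≤ 4 * (1 + 1 / d) := by positivity
  have hS : 0 ≤ ∑ u : Ch6 × Ch6, cw y u * Q y u :=
    sum_nonneg fun u _ => mul_nonneg (hcw0 y u) (hQ y u)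
  have key := (cF_sum_le (X true) (X false) (X true) (X false) kF kP kF' kP' t t' x0 K e lnX lnY
    (vl (htL t) y.1) (vl (htL t') y.2)).trans
    (h L hL ep hep hep' e1 he1 he1' J hJ hsm P X ob κ E0
    t t' (vl (htL t) y.1) (vl (htL t') y.2) (by simp [vl]) (by simp [vl]) (ν y) d K e (cw y) (Q y)
    _ hB hd (hcw0 y) (hcw y) (hQ y) hK hzy hpy)
  have key2 := ENNReal.ofReal_le_ofReal key
  rw [← sum_enorm_eq] at key2
  rw [← Finset.mul_sum]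
  refine (mul_le_mul_right key2 _).trans (le_of_eq ?_)
  rw [show 4 * (1 + 1 / d) * ((∑ u : Ch6 × Ch6, cw y u * Q y u) * Real.exp (δ * L)) =
      (4 * (1 + 1 / d) * Real.exp (δ * L)) * ∑ u : Ch6 × Ch6, cw y u * Q y u by ring,
    ENNReal.ofReal_mul (by positivity)]
  exact mul_left_comm _ _ _

/-! ## the classes D1, D1' -/

section flat

variable {X : Bool → Option O3 → ℂ → ℂ} {ob : (Bool → ℂ → ℝ) → OB} {P : Par6} {x κ : ℝ}
  {e : ℕ} {E0 : Set ℝ}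

/-- class functions of the classes D1 (`o = true`), D1' -/
def YD6 (X : Bool → Option O3 → ℂ → ℂ) (o : Bool) (w : ℂ) (a : Bool) : Option O3 → ℂ → ℂ :=
  if o = true then XS a (X a) SD (fl fun _ _ _ => 1) w 0
  else XS a (X a) (fun _ _ _ => 1) (fl SD) 0 w

/-- the class functions of the classes D1, D1' are bounded by the one body data, any base -/
theorem cls_oneD (hB : Bs6 X ob P x κ e E0) (o : Bool) {w : ℂ} (hw : w.re = -(11 / 4) * l) :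
    OneC6 (YD6 X o w) (obDB ob o w) P x κ (19 / 20 * l) (-(e : ℤ)) ({w.im, 0} ∪ E0) := by
  cases o
  · have key := cls_one6 hB (lt6_one 0) lt6_SD (w := 0) (w' := w) (by simp) hw (aX := 0) (aY := e)
      (by norm_num)
    have e1 : (ob fun a z => ‖sG (fun _ _ _ => 1) SD 0 w a z‖) = obDB ob false w := by
      unfold obDB
      congr 1
      funext a z
      simp [sG]
    rw [e1] at key
    have e2 : ({(0 : ℂ).im, w.im} ∪ E0 : Set ℝ) = {w.im, 0} ∪ E0 := by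
      rw [Complex.zero_im, Set.pair_comm]
    rw [e2] at key
    have e3 : (((0 : ℕ) : ℤ) - (e : ℤ)) = -(e : ℤ) := by simp
    rw [e3] at key
    exact key
  · have key := cls_one6 hB lt6_SD (lt6_one 0) (w := w) (w' := 0) hw (by simp) (aX := 0) (aY := e)
      (by norm_num)
    have e1 : (ob fun a z => ‖sG SD (fun _ _ _ => 1) w 0 a z‖) = obDB ob true w := by
      unfold obDB
      congr 1
      funext a z
      simp [sG]
    rw [e1] at key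
    rw [Complex.zero_im] at key
    have e3 : (((0 : ℕ) : ℤ) - (e : ℤ)) = -(e : ℤ) := by simp
    rw [e3] at key
    exact key

/-- **the classes D1, D1' as functionals** -/
def ClsD6 [Fil] (X : Bool → Option O3 → ℂ → ℂ) (P : Par6) (x : ℝ) (e : ℕ) (o : Bool) (w : ℂ)
    (Zn : ℕ → ℂ) : Prop :=
  ∀ η η' : Crs, (∀ (r : ℕ) (O : Fin r → Xo), CurB x (η r O) (η' r O)) → ∀ n : ℕ,
    Zn n = FF6 (YD6 X o w) P n (n + e) η η' fun _ _ _ _ _ => 1

variable [Fil]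

/-- **the representation corollary of the classes D1, D1', any base** -/
theorem r4_D6 (hB : Bs6 X ob P x κ e E0) (hx0 : 0 < x) (hx1 : x ≤ 1 / 100) {o : Bool} {w : ℂ}
    (hw : w.re = -(11 / 4) * l) {Zn : ℕ → ℂ} (hZ : ClsD6 X P x e o w Zn) :
    R4Cof6 x (obDB ob o w) P 0 e Zn :=
  R4C_of6 (cls_oneD hB o hw) hx0 hx1 fun η η' hη n => by
    rw [add_zero]
    exact hZ η η' hη n

end flat

/-- **The bound of the classes D1 (`o = true`), D1' (`o = false`), any base** -/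
theorem top_cDB6 [Fil] {C c b c1 c' : ℝ} {k : ℕ} (hC : 0 < C) (hc : 0 < c) (hb : 0 < b)
    (hc1 : 0 < c1) (hc' : 0 ≤ c') {δ : ℝ} (hδ : 0 < δ) :
    ∃ a0 : ℝ, 0 < a0 ∧ ∀ C' : ℝ, 0 ≤ C' → ∃ L0 : ℝ, ∀ L ≥ L0, ∀ ep : ℝ, 0 < ep → ep ≤ 1 / 100 →
      ∀ e1 : ℝ, 0 < e1 → e1 ≤ 1 / 4 → ∀ J : ℝ, 0 ≤ J →
      Real.exp (-(2 * Real.pi * J)) + 3 * e1 + 3 * ep ≤ a0 →
      ∀ (P : Par6) (X : Bool → Option O3 → ℂ → ℂ) (ob : (Bool → ℂ → ℝ) → OB)
        (κ : ℝ) (E0 : Set ℝ) (kD : ℂ → ℂ) (o : Bool)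
        (lnX : ∀ p p' : ℕ, (Fin p → O3) → (Fin p' → O3) → Fin p → ℝ)
        (lnY : ∀ p p' : ℕ, (Fin p → O3) → (Fin p' → O3) → Fin p' → ℝ)
        (ν : ℝ → ℝ) (d x0 : ℝ) (K e : ℕ) (Q : ℝ → ℝ), Bs6 X ob P ep κ e E0 → 0 < d →
      (∀ y, 0 ≤ Q y) →
      ((2 * (2 * K + (0 + e)) + 1 : ℕ) : ℝ) ≤ Real.exp (2 * L) →
      (∀ᵐ y : ℝ, ClsD6 X P ep e o (vl (-(11 / 4) * l) y) fun n => (cDo o kD).Z (X true) (X false)
        x0 n (n + e) lnX lnY (vl (-(11 / 4) * l) y)) →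
      (∀ᵐ y : ℝ, PerCof6 C C' c b k c1 c' L ep e1 J (ν y) d K
        (obDB ob o (vl (-(11 / 4) * l) y)) P 0 e (Q y)) →
      ∑ n ∈ range (K + 1), ‖(cDo o kD).val (X true) (X false) x0 n (n + e) lnX lnY‖ₑ ≤
        ENNReal.ofReal (4 * (1 + 1 / d) * Real.exp (δ * L)) *
          ∫⁻ y : ℝ, ENNReal.ofReal (‖kD (vl (-(11 / 4) * l) y)‖ * Q y) := by
  obtain ⟨a0, ha0, h⟩ := glue_class6 (k := k) hC hc hb hc1 hc' hδ
  refine ⟨a0, ha0, fun C' hC' => ?_⟩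
  obtain ⟨L0, h⟩ := h C' hC'
  refine ⟨L0, fun L hL ep hep hep' e1 he1 he1' J hJ hsm P X ob κ E0 kD o lnX lnY ν d x0 K e Q hB
    hd hQ hK hZ hPer => ?_⟩
  have key := CD1_sum_val (cDo o kD) (X true) (X false) x0 K e
    lnX lnY (fun y => ENNReal.ofReal (4 * (1 + 1 / d) * (Q y * Real.exp (δ * L)))) (by
      filter_upwards [hPer, hZ] with y hy hzy
      rw [sum_enorm_eq, cDo_a]
      refine ENNReal.ofReal_le_ofReal ?_
      exact h L hL ep hep.le (hep'.trans (by norm_num)) e1 he1 he1' J hJ hsm (ν y) d (Q y) K 0 e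
        _ P _ hd (hQ y) hK (r4_D6 hB hep hep' (by simp [vl]) hzy) hy)
  refine key.trans (le_of_eq ?_)
  have h4 : (0 : ℝ) ≤ 4 * (1 + 1 / d) * Real.exp (δ * L) := by positivity
  rw [← lintegral_const_mul' _ _ ENNReal.ofReal_ne_top]
  refine lintegral_congr fun y => ?_
  rw [cDo_a, cDo_K, ← ofReal_norm, ← ENNReal.ofReal_mul (norm_nonneg _), ← ENNReal.ofReal_mul h4]
  congr 1
  ring

end PBR.PLX

end
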