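import Pool.Agent.PHK.Cfg
import Pool.Agent.NUGC.CfgC

/-!
# Sources: objects of the six kinds and spectators together

* `obSr6 P x`: the source of an object; `muC_eq_muS6`, `tauC_eq_tauS6`, `linC_eq_linS6`, `ES_obSr6`;
* `muM6`, `tauM6`, `linM6`: objects and spectators together; `cfgM_eq6`, `cfgM_energy6`.
-/

set_option autoImplicit false

open MeasureTheory Set Filter Topology

namespace PHK

noncomputable section

open NUMF (l l_pos g h V)
open NUO (Xo ht)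
open NUC43 NUGC
open Pool.Agent.NUM3 (EV EU sgn)

variable {ι : Type*} [Fintype ι]

/-- the source of an object -/
def obSr6 (P : Par6) (x : Xo) : Sr :=
  chSr (NUO.sp x) (kq6 (k6 x)) (kA6 P (k6 x)) (kB6 P (k6 x)) (kF6 P (k6 x)) (kG6 P (k6 x)) (ht x)

theorem obSr_ok6 {P : Par6} (h : Ok6 P) (x : Xo) : (obSr6 P x).Ok := chSr_ok (chgK6 h (k6 x)) _ _

theorem muC_eq_muS6 (P : Par6) (O : ι → Xo) (a : Bool) : muC6 P O a = muS (fun i => obSr6 P (O i)) a := by
  funext t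
  unfold muC6 muS
  refine Finset.sum_congr rfl fun i _ => ?_
  unfold sgS6 Sr.f obSr6 chSr
  split_ifs <;> rfl

theorem tauC_eq_tauS6 (P : Par6) (O : ι → Xo) : tauC6 P O = tauS (fun i => obSr6 P (O i)) := rfl

theorem linC_eq_linS6 (P : Par6) (O : ι → Xo) (a : Bool) :
    linC6 P O a = linS (fun i => obSr6 P (O i)) a := by
  funext t
  unfold linC6 linS
  refine Finset.sum_congr rfl fun i _ => ?_
  unfold kS6 Sr.p obSr6 chSr
  split_ifs <;> rfl

theorem ES_obSr6 (P : Par6) (x y : Xo) : ES (obSr6 P x) (obSr6 P y) =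
    ER6 P (NUO.sp x == NUO.sp y) (k6 x) (k6 y) (ht x) (ht y) :=
  rfl

/-! ### objects and spectators together -/

variable {κ : Type*} [Fintype κ]

/-- density of objects and spectators on the species `a` -/
def muM6 (P : Par6) (O : ι → Xo) (T : κ → Sr) (a : Bool) (t : ℝ) : ℝ := muC6 P O a t + muS T a t
/-- density of the splitting -/
def tauM6 (P : Par6) (O : ι → Xo) (T : κ → Sr) (t : ℝ) : ℝ := tauC6 P O t + tauS T t
/-- potentials -/
def linM6 (P : Par6) (O : ι → Xo) (T : κ → Sr) (a : Bool) (t : ℝ) : ℝ := linC6 P O a t + linS T a t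

variable {P : Par6}

lemma muM_eq6 (O : ι → Xo) (T : κ → Sr) (a : Bool) :
    muM6 P O T a = muS (Sum.elim (fun i => obSr6 P (O i)) T) a := by
  funext t
  rw [muS_sum, ← muC_eq_muS6]
  rfl

lemma tauM_eq6 (O : ι → Xo) (T : κ → Sr) :
    tauM6 P O T = tauS (Sum.elim (fun i => obSr6 P (O i)) T) := by
  funext t
  rw [tauS_sum, ← tauC_eq_tauS6]
  rfl

lemma linM_eq6 (O : ι → Xo) (T : κ → Sr) (a : Bool) :
    linM6 P O T a = linS (Sum.elim (fun i => obSr6 P (O i)) T) a := by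
  funext t
  rw [linS_sum, ← linC_eq_linS6]
  rfl

omit [Fintype ι] [Fintype κ] in
lemma okM6 (h : Ok6 P) (O : ι → Xo) {T : κ → Sr} (hT : ∀ d, (T d).Ok) :
    ∀ i, (Sum.elim (fun i => obSr6 P (O i)) T i).Ok := by
  rintro (i | d)
  · exact obSr_ok6 h _
  · exact hT d

theorem dn_muM6 (h : Ok6 P) (O : ι → Xo) {T : κ → Sr} (hT : ∀ d, (T d).Ok) (a : Bool) :
    Dn (muM6 P O T a) := by
  rw [muM_eq6]
  exact dn_muS (okM6 h O hT) a

theorem dn_tauM6 (h : Ok6 P) (O : ι → Xo) {T : κ → Sr} (hT : ∀ d, (T d).Ok) :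
    Dn (tauM6 P O T) := by
  rw [tauM_eq6]
  exact dn_tauS (okM6 h O hT)

theorem muM_sub6 (h : Ok6 P) (O : ι → Xo) {T : κ → Sr} (hT : ∀ d, (T d).Ok) (t : ℝ) :
    muM6 P O T true t - muM6 P O T false t = tauM6 P O T t := by
  rw [muM_eq6, muM_eq6, tauM_eq6]
  exact muS_sub (okM6 h O hT) t

theorem tauM_int6 (h : Ok6 P) (O : ι → Xo) {T : κ → Sr} (hT : ∀ d, (T d).Ok) :
    ∫ t, tauM6 P O T t = -(∑ i, sg (NUO.sp (O i)) * kq6 (k6 (O i)) + ∑ d, sg (T d).a * (T d).q) := by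
  rw [tauM_eq6, tauS_int (okM6 h O hT), Fintype.sum_sum_type]
  rfl

/-- **the equation of the densities, objects and spectators** -/
theorem cfgM_eq6 (h : Ok6 P) (O : ι → Xo) {T : κ → Sr} (hT : ∀ d, (T d).Ok) (a : Bool) (t : ℝ) :
    linM6 P O T a t - sg a * lgp (tauM6 P O T) t = ∫ u, muM6 P O T a u * V (t - u) := by
  rw [muM_eq6, linM_eq6, tauM_eq6]
  exact muS_eq (okM6 h O hT) a t

/-- **the energy, objects and spectators** -/
theorem cfgM_energy6 (h : Ok6 P) (O : ι → Xo) {T : κ → Sr} (hT : ∀ d, (T d).Ok)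
    (hs : ∀ i d, Sym (obSr6 P (O i)) (T d)) :
    1 / 2 * (∫ t, tauM6 P O T t * lgp (tauM6 P O T) t) +
      ∑ a : Bool, 1 / 2 * (∫ t, muM6 P O T a t * ∫ u, muM6 P O T a u * V (t - u)) =
    1 / 2 * ∑ i, ∑ k, ER6 P (NUO.sp (O i) == NUO.sp (O k)) (k6 (O i)) (k6 (O k)) (ht (O i)) (ht (O k)) +
      ∑ i, ∑ d, ES (obSr6 P (O i)) (T d) + 1 / 2 * ∑ d, ∑ d', ES (T d) (T d') := by
  have h1 := muS_energy (okM6 h O hT)
  rw [tauM_eq6]
  simp only [muM_eq6]
  rw [h1, Fintype.sum_sum_type]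
  simp only [Fintype.sum_sum_type, Sum.elim_inl, Sum.elim_inr, Finset.sum_add_distrib, ES_obSr6]
  have h2 : ∑ d, ∑ i, ES (T d) (obSr6 P (O i)) = ∑ i, ∑ d, ES (obSr6 P (O i)) (T d) := by
    rw [Finset.sum_comm]
    exact Finset.sum_congr rfl fun i _ => Finset.sum_congr rfl fun d _ => (hs i d).symm
  rw [h2]
  ring

end

end PHK
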