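import Pool.Agent.PHK.Basic
import Pool.Agent.PLX.NUGC.Ob1Fac

/-!
# (P): spectators as factors of the one body weights

* `facL6 h A`: modulus of the factor of a spectator `h` on a list of signed constituents;
* `ob6_mul`: `ob6 (B.mul h) = ob6 B * facL6 h parts6`; `prod_ob6_mul`: all objects;
* `objWc6_mul`, `qA6_mul`.
-/

set_option autoImplicit false

noncomputable section

open Finset
open PLX (Fil)

namespace PHK

open NUO NUP1 NUGC NUGC.PLX

/-- modulus of the factor of a spectator on a signed constituent -/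
def fac6 (f : Bool → ℂ → ℝ) (a : Part6) : ℝ := NUGC.fac f a.1 ^ a.2

/-- modulus of the factor of a spectator on a list of signed constituents -/
def facL6 (f : Bool → ℂ → ℝ) (A : List Part6) : ℝ := (A.map (fac6 f)).prod

theorem facL6_nil (f : Bool → ℂ → ℝ) : facL6 f [] = 1 := rfl

theorem facL6_cons (f : Bool → ℂ → ℝ) (a : Part6) (A : List Part6) :
    facL6 f (a :: A) = fac6 f a * facL6 f A := by
  unfold facL6
  rw [List.map_cons, List.prod_cons]

theorem facL6_append (f : Bool → ℂ → ℝ) (A A' : List Part6) :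
    facL6 f (A ++ A') = facL6 f A * facL6 f A' := by
  unfold facL6
  rw [List.map_append, List.prod_append]

/-- multiplicities 1: the landed factor -/
theorem facL6_one (f : Bool → ℂ → ℝ) (A : List (Bool × Bool × ℂ)) :
    facL6 f (A.map fun a => (a, 1)) = facL f A := by
  unfold facL6 facL
  rw [List.map_map]
  congr 1
  refine List.map_congr_left fun a _ => ?_
  simp [fac6]

theorem fac_nonneg6 {f : Bool → ℂ → ℝ} (hf : ∀ a u, 0 ≤ f a u) (c : Bool × Bool × ℂ) :
    0 ≤ fac f c := by
  unfold NUGC.fac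
  split_ifs
  · exact mul_nonneg (hf _ _) (hf _ _)
  · exact hf _ _

theorem facL6_nonneg {f : Bool → ℂ → ℝ} (hf : ∀ a u, 0 ≤ f a u) (A : List Part6) :
    0 ≤ facL6 f A := by
  unfold facL6
  refine List.prod_nonneg fun x hx => ?_
  obtain ⟨a, _, rfl⟩ := List.mem_map.1 hx
  exact zpow_nonneg (fac_nonneg6 hf _) _

theorem fac_mul6 (f g : Bool → ℂ → ℝ) (c : Bool × Bool × ℂ) :
    fac (fun a u => f a u * g a u) c = fac f c * fac g c := by
  unfold NUGC.fac
  split_ifs <;> ring

theorem facL6_mul (f g : Bool → ℂ → ℝ) (A : List Part6) :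
    facL6 (fun a u => f a u * g a u) A = facL6 f A * facL6 g A := by
  unfold facL6
  rw [← List.prod_map_mul]
  congr 1
  refine List.map_congr_left fun a _ => ?_
  unfold fac6
  rw [fac_mul6, mul_zpow]

theorem facL6_const_one (A : List Part6) : facL6 (fun _ _ => 1) A = 1 := by
  unfold facL6
  refine List.prod_eq_one fun x hx => ?_
  obtain ⟨a, _, rfl⟩ := List.mem_map.1 hx
  unfold fac6 NUGC.fac
  split_ifs <;> simp

/-- a product of spectators -/
theorem facL6_prod {ι : Type*} (s : Finset ι) (F : ι → Bool → ℂ → ℝ) (A : List Part6) :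
    facL6 (fun a u => ∏ d ∈ s, F d a u) A = ∏ d ∈ s, facL6 (F d) A := by
  classical
  induction s using Finset.induction_on with
  | empty =>
    simp only [Finset.prod_empty]
    exact facL6_const_one A
  | insert d s hd ih =>
    rw [Finset.prod_insert hd, ← ih, ← facL6_mul]
    congr 1
    funext a u
    rw [Finset.prod_insert hd]

/-- the one body function of a constituent with one more spectator -/
theorem w6_mul (B : OB) (h : Bool → ℂ → ℝ) (k : Kd6) {a : Part6} (ha : a.1.2.1 = true → a.2 = 1) :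
    w6 (B.mul h) k a = w6 B k a * fac h a.1 ^ a.2 := by
  unfold w6 wq6 NUGC.fac OB.mul
  by_cases hs : a.1.2.1 = true
  · rw [if_pos hs, if_pos hs, ha hs]
    simp only [if_true, zpow_one, hs]
    ring
  · rw [if_neg hs, if_neg hs]
    have e : (if a.1.2.1 then h a.1.1 a.1.2.2 * h a.1.1 (a.1.2.2 - l) else h a.1.1 a.1.2.2) =
        h a.1.1 a.1.2.2 := if_neg hs
    rw [e, ← mul_zpow]
    congr 1
    ring

theorem parts6_string (P : Par6) (x : Xo) : ∀ a ∈ parts6 P x, a.1.2.1 = true → a.2 = 1 := by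
  unfold parts6
  cases k6 x <;> simp

/-- **a spectator is a factor of the weight of an object** -/
theorem ob6_mul (B : OB) (h : Bool → ℂ → ℝ) (P : Par6) (x : Xo) :
    ob6 (B.mul h) P x = ob6 B P x * facL6 h (parts6 P x) := by
  unfold ob6 facL6
  rw [mul_assoc, ← List.prod_map_mul]
  congr 2
  refine List.map_congr_left fun a ha => ?_
  exact w6_mul B h _ (parts6_string P x a ha)

/-- all objects of a configuration -/
theorem prod_ob6_mul (B : OB) (h : Bool → ℂ → ℝ) (P : Par6) {r : ℕ} (O : Fin r → Xo) :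
    ∏ i, ob6 (B.mul h) P (O i) = (∏ i, ob6 B P (O i)) * ∏ i, facL6 h (cons6 P O i) := by
  rw [← prod_mul_distrib]
  exact prod_congr rfl fun i _ => ob6_mul B h _ _

/-- the weight of a configuration -/
theorem objWc6_mul (B : OB) (h : Bool → ℂ → ℝ) (P : Par6) {r : ℕ} (O : Fin r → Xo) :
    objWc6 (B.mul h) P O = objWc6 B P O * ∏ i, facL6 h (cons6 P O i) := by
  unfold objWc6
  rw [prod_ob6_mul]
  ring

/-- the quanta on the curve -/
theorem qA6_mul [Fil] (B : OB) (h : Bool → ℂ → ℝ) (P : Par6) (η : ℝ → ℝ) {r : ℕ}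
    (O : Fin r → Xo) (a : Bool) (t : ℝ) :
    qA6 (B.mul h) P η O a t = qA6 B P η O a t * h a (NUO.pA (Fil.cv a η) t) := by
  unfold qA6 OB.mul
  ring

end PHK

end
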