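import Pool.Agent.PHK.Defs
import Pool.Agent.NUO.MeasGas

/-!
# The particle-hole form (P): measurability, signed lists, charges, number of objects

* `measurable_k6`, `measurable_of6`, `measurable_conf6`, `measurable_conf6'`: functions of species, kind
  and height of objects and of configurations;
* `ppC6`, `ppN6_*`: the pair weights of signed lists: nil, append, symmetry, positivity, **`log_ppN6`**
  (bilinear in the multiplicities), **`ppN6_one`** (multiplicities `1`: the landed weight);
* `pairC6`, `potC6`: the complex weights; `measurable_pairC6`, `measurable_potC6`, `measurable_pairN6`,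
  `measurable_potN6`;
* `abs_chg6`, `measurable_chgO6`.
-/

set_option autoImplicit false
set_option linter.unusedSectionVars false

noncomputable section

open Complex MeasureTheory Finset
open scoped ENNReal

namespace PHK

open NUO NUP1 NUGC.PLX
open NUP1S.Ab (ppC pp_symm)

/-! ### functions of species, kind and height -/

theorem measurable_k6 : Measurable k6 := by
  have h : Measurable fun p : Kind × ℝ => (match p.1 with
      | .L => Kd6.L
      | .St => .T
      | .S => .H1
      | .Sv => .H2
      | .Svv => if p.2 ≤ 1 / 2 then Kd6.E else .F) := by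
    refine measurable_from_prod_countable_right fun k => ?_
    cases k
    · exact measurable_const
    · exact measurable_const
    · exact measurable_const
    · exact measurable_const
    · exact Measurable.ite measurableSet_Iic measurable_const measurable_const
  exact h.comp ((measurable_snd.comp measurable_fst).prodMk (measurable_snd.comp measurable_snd))

theorem measurable_sp : Measurable fun x : Xo => sp x := measurable_fst.comp measurable_fst

theorem measurable_ht : Measurable fun x : Xo => ht x := measurable_fst.comp measurable_snd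

theorem measurable_sk : Measurable fun x : Xo => (sp x, k6 x) := measurable_sp.prodMk measurable_k6

/-- a function of species, kind and height -/
theorem measurable_of6 {β : Type*} [MeasurableSpace β] {F : Bool × Kd6 → ℝ → β}
    (hF : ∀ k, Measurable (F k)) : Measurable fun x : Xo => F (sp x, k6 x) (ht x) := by
  have h : Measurable fun p : (Bool × Kd6) × ℝ => F p.1 p.2 := measurable_from_prod_countable_right hF
  exact h.comp (measurable_sk.prodMk measurable_ht)

/-- a function of species, kind and height and of a further variable -/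
theorem measurable_of6' {Y β : Type*} [MeasurableSpace Y] [MeasurableSpace β]
    {F : Bool × Kd6 → ℝ × Y → β} (hF : ∀ k, Measurable (F k)) :
    Measurable fun p : Xo × Y => F (sp p.1, k6 p.1) (ht p.1, p.2) := by
  have h : Measurable fun p : (Bool × Kd6) × (ℝ × Y) => F p.1 p.2 :=
    measurable_from_prod_countable_right hF
  exact h.comp ((measurable_sk.comp measurable_fst).prodMk
    ((measurable_ht.comp measurable_fst).prodMk measurable_snd))

/-- joint measurability in configurations and a further variable -/
theorem measurable_conf6 {r : ℕ} {Y β : Type*} [MeasurableSpace Y] [MeasurableSpace β]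
    {F : (Fin r → Bool × Kd6) → (Fin r → ℝ) × Y → β} (hF : ∀ K, Measurable (F K)) :
    Measurable fun p : (Fin r → Xo) × Y =>
      F (fun i => (sp (p.1 i), k6 (p.1 i))) (fun i => ht (p.1 i), p.2) := by
  have h1 : Measurable fun p : (Fin r → Bool × Kd6) × ((Fin r → ℝ) × Y) => F p.1 p.2 :=
    measurable_from_prod_countable_right hF
  have h2 : Measurable fun p : (Fin r → Xo) × Y =>
      ((fun i => (sp (p.1 i), k6 (p.1 i)), (fun i => ht (p.1 i), p.2)) :
        (Fin r → Bool × Kd6) × ((Fin r → ℝ) × Y)) := by
    refine Measurable.prodMk ?_ (Measurable.prodMk ?_ measurable_snd)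
    · exact measurable_pi_lambda _ fun i => measurable_sk.comp
        ((measurable_pi_apply i).comp measurable_fst)
    · exact measurable_pi_lambda _ fun i => measurable_ht.comp
        ((measurable_pi_apply i).comp measurable_fst)
  exact h1.comp h2

/-- measurability in the configuration alone -/
theorem measurable_conf6' {r : ℕ} {β : Type*} [MeasurableSpace β]
    {F : (Fin r → Bool × Kd6) → (Fin r → ℝ) → β} (hF : ∀ K, Measurable (F K)) :
    Measurable fun O : Fin r → Xo => F (fun i => (sp (O i), k6 (O i))) fun i => ht (O i) := by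
  have h1 := measurable_conf6 (r := r) (Y := Unit) (F := fun K p => F K p.1) fun K =>
    (hF K).comp measurable_fst
  exact h1.comp (measurable_id.prodMk (measurable_const (a := ())))

/-! ### signed lists of constituents -/

/-- complex pair weight of two signed lists -/
def ppC6 (A B : List Part6) : ℂ := (A.map fun a => (B.map fun b => pp6 a b).prod).prod

theorem norm_ppC6 (A B : List Part6) : ‖ppC6 A B‖ = ppN6 A B := by
  unfold ppC6 ppN6
  rw [List.norm_prod, List.map_map]
  congr 1
  refine List.map_congr_left fun a _ => ?_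
  simp only [Function.comp]
  rw [List.norm_prod, List.map_map]
  rfl

theorem pp6_symm (a b : Part6) : pp6 a b = pp6 b a := by
  unfold pp6
  rw [pp_symm a.1 b.1, mul_comm a.2 b.2]

theorem norm_pp6 (a b : Part6) : ‖pp6 a b‖ = ‖pp a.1 b.1‖ ^ (a.2 * b.2) := norm_zpow _ _

theorem ppC6_nil (B : List Part6) : ppC6 [] B = 1 := rfl

theorem ppC6_nil_right (A : List Part6) : ppC6 A [] = 1 := by
  unfold ppC6
  simp

theorem ppC6_cons (a : Part6) (A B : List Part6) : ppC6 (a :: A) B = ppC6 [a] B * ppC6 A B := by
  unfold ppC6
  simp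

theorem ppC6_append (A A' B : List Part6) : ppC6 (A ++ A') B = ppC6 A B * ppC6 A' B := by
  unfold ppC6
  simp

theorem ppC6_single (a : Part6) (B : List Part6) : ppC6 [a] B = (B.map fun b => pp6 a b).prod := by
  unfold ppC6
  simp

theorem ppC6_one_one (a b : Part6) : ppC6 [a] [b] = pp6 a b := by
  unfold ppC6
  simp

theorem ppC6_symm (A B : List Part6) : ppC6 A B = ppC6 B A := by
  induction A with
  | nil => rw [ppC6_nil, ppC6_nil_right]
  | cons a A ih =>
    rw [ppC6_cons, ih]
    unfold ppC6
    simp only [List.map_cons, List.map_nil, List.prod_cons, List.prod_nil, mul_one]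
    rw [← List.prod_map_mul]
    congr 1
    refine List.map_congr_left fun b _ => ?_
    rw [pp6_symm a b]

theorem ppC6_append_right (A B B' : List Part6) : ppC6 A (B ++ B') = ppC6 A B * ppC6 A B' := by
  rw [ppC6_symm, ppC6_append, ppC6_symm B, ppC6_symm B']

theorem ppN6_nil (B : List Part6) : ppN6 [] B = 1 := rfl

theorem ppN6_nil_right (A : List Part6) : ppN6 A [] = 1 := by
  rw [← norm_ppC6, ppC6_nil_right, norm_one]

theorem ppN6_cons (a : Part6) (A B : List Part6) : ppN6 (a :: A) B = ppN6 [a] B * ppN6 A B := by
  rw [← norm_ppC6, ← norm_ppC6, ← norm_ppC6, ppC6_cons, norm_mul]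

theorem ppN6_append (A A' B : List Part6) : ppN6 (A ++ A') B = ppN6 A B * ppN6 A' B := by
  rw [← norm_ppC6, ← norm_ppC6, ← norm_ppC6, ppC6_append, norm_mul]

theorem ppN6_symm (A B : List Part6) : ppN6 A B = ppN6 B A := by
  rw [← norm_ppC6, ppC6_symm, norm_ppC6]

theorem ppN6_append_right (A B B' : List Part6) : ppN6 A (B ++ B') = ppN6 A B * ppN6 A B' := by
  rw [ppN6_symm, ppN6_append, ppN6_symm B, ppN6_symm B']

theorem ppN6_single (a : Part6) (B : List Part6) :
    ppN6 [a] B = (B.map fun b => ‖pp a.1 b.1‖ ^ (a.2 * b.2)).prod := by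
  unfold ppN6
  simp only [List.map_cons, List.map_nil, List.prod_cons, List.prod_nil, mul_one, norm_pp6]

theorem ppN6_one_one (a b : Part6) : ppN6 [a] [b] = ‖pp a.1 b.1‖ ^ (a.2 * b.2) := by
  rw [ppN6_single]
  simp

/-- **multiplicities `1`: the landed pair weight** -/
theorem ppC6_one (A B : List (Bool × Bool × ℂ)) :
    ppC6 (A.map fun a => (a, 1)) (B.map fun b => (b, 1)) = ppC A B := by
  unfold ppC6 ppC pp6
  rw [List.map_map]
  congr 1
  refine List.map_congr_left fun a _ => ?_
  simp only [Function.comp]
  rw [List.map_map]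
  congr 1
  refine List.map_congr_left fun b _ => ?_
  simp

theorem ppN6_one (A B : List (Bool × Bool × ℂ)) :
    ppN6 (A.map fun a => (a, 1)) (B.map fun b => (b, 1)) = ppN A B := by
  rw [← norm_ppC6, ppC6_one, NUP1S.Ab.norm_ppC]

/-- no zero and no pole -/
def Rg (A B : List Part6) : Prop := ∀ a ∈ A, ∀ b ∈ B, pp a.1 b.1 ≠ 0

theorem Rg.symm {A B : List Part6} (h : Rg A B) : Rg B A := fun b hb a ha => by
  rw [pp_symm]
  exact h a ha b hb

theorem ppN6_pos {A B : List Part6} (h : Rg A B) : 0 < ppN6 A B := by
  unfold ppN6
  refine List.prod_pos fun x hx => ?_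
  obtain ⟨a, ha, rfl⟩ := List.mem_map.1 hx
  refine List.prod_pos fun y hy => ?_
  obtain ⟨b, hb, rfl⟩ := List.mem_map.1 hy
  rw [norm_pp6]
  exact zpow_pos (norm_pos_iff.2 (h a ha b hb)) _

theorem log_prod_list {α : Type*} (L : List α) (f : α → ℝ) (h : ∀ a ∈ L, f a ≠ 0) :
    Real.log (L.map f).prod = (L.map fun a => Real.log (f a)).sum := by
  induction L with
  | nil => simp
  | cons a L ih =>
    rw [List.map_cons, List.prod_cons, List.map_cons, List.sum_cons, Real.log_mul (h a (by simp))
      (List.prod_ne_zero fun h0 => by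
        obtain ⟨b, hb, h1⟩ := List.mem_map.1 h0
        exact h b (by simp [hb]) h1), ih fun b hb => h b (by simp [hb])]

/-- **the logarithm of the pair weight is bilinear in the multiplicities** -/
theorem log_ppN6 {A B : List Part6} (h : Rg A B) : Real.log (ppN6 A B) =
    (A.map fun a => (B.map fun b => ((a.2 : ℝ) * b.2) * Real.log ‖pp a.1 b.1‖).sum).sum := by
  unfold ppN6
  have h1 : ∀ a ∈ A, ∀ b ∈ B, ‖pp6 a b‖ ≠ 0 := fun a ha b hb => by
    rw [norm_pp6]
    exact (zpow_pos (norm_pos_iff.2 (h a ha b hb)) _).ne'
  rw [log_prod_list A _ fun a ha => List.prod_ne_zero fun h0 => by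
    obtain ⟨b, hb, h2⟩ := List.mem_map.1 h0
    exact h1 a ha b hb h2]
  congr 1
  refine List.map_congr_left fun a ha => ?_
  rw [log_prod_list B _ (h1 a ha)]
  congr 1
  refine List.map_congr_left fun b hb => ?_
  rw [norm_pp6, Real.log_zpow]
  push_cast
  ring

/-! ### measurability of the pair weights -/

/-- a signed list of constituents whose positions are functions -/
def evz {Y : Type*} (L : List ((Bool × Bool × (Y → ℂ)) × ℤ)) (y : Y) : List Part6 :=
  L.map fun p => ((p.1.1, p.1.2.1, p.1.2.2 y), p.2)

section

variable {Y : Type*} [MeasurableSpace Y]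

theorem measurable_ppc {a b : Bool × Bool × (Y → ℂ)} (ha : Measurable a.2.2) (hb : Measurable b.2.2) :
    Measurable fun y => pp (a.1, a.2.1, a.2.2 y) (b.1, b.2.1, b.2.2 y) := by
  unfold pp
  simp only
  split_ifs
  · exact (measurable_pz _ _).comp (ha.sub hb)
  · exact (measurable_cz _ _).comp (ha.sub hb)

theorem measurable_ppC6_evz {L M : List ((Bool × Bool × (Y → ℂ)) × ℤ)}
    (hL : ∀ p ∈ L, Measurable p.1.2.2) (hM : ∀ p ∈ M, Measurable p.1.2.2) :
    Measurable fun y => ppC6 (evz L y) (evz M y) := by
  have key : ∀ a : (Bool × Bool × (Y → ℂ)) × ℤ, Measurable a.1.2.2 →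
      ∀ M : List ((Bool × Bool × (Y → ℂ)) × ℤ), (∀ p ∈ M, Measurable p.1.2.2) →
      Measurable fun y => ((evz M y).map fun b =>
        pp6 ((a.1.1, a.1.2.1, a.1.2.2 y), a.2) b).prod := by
    intro a ha M
    induction M with
    | nil => intro _; exact measurable_const
    | cons b M ih =>
      intro hM
      have h1 := ih fun p hp => hM p (List.mem_cons_of_mem _ hp)
      have h2 := (measurable_ppc ha (hM b List.mem_cons_self)).pow_const (a.2 * b.2)
      exact h2.mul h1
  induction L with
  | nil => exact measurable_const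
  | cons a L ih =>
    have h1 := ih fun p hp => hL p (List.mem_cons_of_mem _ hp)
    have h2 := key a (hL a List.mem_cons_self) M hM
    exact h2.mul h1

/-- the constituents of an object of species `s` and kind `k` at height `t` -/
def prt (P : Par6) (k : Bool × Kd6) (t : ℝ) : List Part6 :=
  match k.2 with
  | .L => [((k.1, false, posL P.jL t), 1)]
  | .T => [((k.1, true, posT t), 1)]
  | .E => [((k.1, true, posS P.e t), 1), ((!k.1, false, posB P.e t), 2)]
  | .F => [((k.1, true, posS P.e t), 1), ((!k.1, false, posB P.e t), 2),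
      ((k.1, false, posB P.e t), -1)]
  | .H1 => [((k.1, false, posL P.j1 t), -1)]
  | .H2 => [((k.1, false, posL P.j2 t), -1)]

theorem parts6_eq (P : Par6) (x : Xo) : parts6 P x = prt P (sp x, k6 x) (ht x) := by
  unfold parts6 prt
  cases k6 x <;> rfl

/-- the constituents of an object of fixed species and kind -/
theorem exists_evz (P : Par6) (k : Bool × Kd6) {t : Y → ℝ} (ht : Measurable t) :
    ∃ L : List ((Bool × Bool × (Y → ℂ)) × ℤ), (∀ p ∈ L, Measurable p.1.2.2) ∧
      ∀ y, prt P k (t y) = evz L y := by
  obtain ⟨s, k⟩ := k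
  have h0 : ∀ j, Measurable fun y => posL j (t y) := fun j => measurable_vl ht _
  have hT : Measurable fun y => posT (t y) := measurable_vl ht _
  have hS : Measurable fun y => posS P.e (t y) := measurable_vl ht _
  have hB : Measurable fun y => posB P.e (t y) := hS.add_const _
  cases k
  · refine ⟨[((s, false, fun y => posL P.jL (t y)), 1)], ?_, fun y => rfl⟩
    intro p hp
    rw [List.mem_singleton] at hp
    subst hp
    exact h0 _
  · refine ⟨[((s, true, fun y => posT (t y)), 1)], ?_, fun y => rfl⟩
    intro p hp
    rw [List.mem_singleton] at hp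
    subst hp
    exact hT
  · refine ⟨[((s, true, fun y => posS P.e (t y)), 1),
      ((!s, false, fun y => posB P.e (t y)), 2)], ?_, fun y => rfl⟩
    intro p hp
    simp only [List.mem_cons, List.not_mem_nil, or_false] at hp
    rcases hp with rfl | rfl
    · exact hS
    · exact hB
  · refine ⟨[((s, true, fun y => posS P.e (t y)), 1),
      ((!s, false, fun y => posB P.e (t y)), 2),
      ((s, false, fun y => posB P.e (t y)), -1)], ?_, fun y => rfl⟩
    intro p hp
    simp only [List.mem_cons, List.not_mem_nil, or_false] at hp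
    rcases hp with rfl | rfl | rfl
    · exact hS
    · exact hB
    · exact hB
  · refine ⟨[((s, false, fun y => posL P.j1 (t y)), -1)], ?_, fun y => rfl⟩
    intro p hp
    rw [List.mem_singleton] at hp
    subst hp
    exact h0 _
  · refine ⟨[((s, false, fun y => posL P.j2 (t y)), -1)], ?_, fun y => rfl⟩
    intro p hp
    rw [List.mem_singleton] at hp
    subst hp
    exact h0 _

end

/-- complex pair weight of two objects -/
def pairC6 (P : Par6) (x y : Xo) : ℂ := ppC6 (parts6 P x) (parts6 P y)

/-- complex potential of the object `x` on a quantum of species `s` at `z` -/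
def potC6 (P : Par6) (x : Xo) (s : Bool) (z : ℂ) : ℂ := ppC6 [((s, false, z), 1)] (parts6 P x)

theorem norm_pairC6 (P : Par6) {r : ℕ} (O : Fin r → Xo) (i j : Fin r) :
    ‖pairC6 P (O i) (O j)‖ = pairN6 P O i j := norm_ppC6 _ _

theorem norm_potC6 (P : Par6) {r : ℕ} (O : Fin r → Xo) (i : Fin r) (s : Bool) (z : ℂ) :
    ‖potC6 P (O i) s z‖ = potN6 P O i s z := norm_ppC6 _ _

theorem pairC6_symm (P : Par6) (x y : Xo) : pairC6 P x y = pairC6 P y x := ppC6_symm _ _

theorem pairN6_symm (P : Par6) {r : ℕ} (O : Fin r → Xo) (i j : Fin r) :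
    pairN6 P O i j = pairN6 P O j i := ppN6_symm _ _

theorem measurable_pairC6 (P : Par6) : Measurable fun p : Xo × Xo => pairC6 P p.1 p.2 := by
  have h : Measurable fun p : ((Bool × Kd6) × (Bool × Kd6)) × (ℝ × ℝ) =>
      ppC6 (prt P p.1.1 p.2.1) (prt P p.1.2 p.2.2) := by
    refine measurable_from_prod_countable_right fun K => ?_
    obtain ⟨L, hL, h1⟩ := exists_evz P K.1 (Y := ℝ × ℝ) measurable_fst
    obtain ⟨M, hM, h2⟩ := exists_evz P K.2 (Y := ℝ × ℝ) measurable_snd
    simp only [h1, h2]
    exact measurable_ppC6_evz hL hM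
  have h3 : Measurable fun p : Xo × Xo => ((((sp p.1, k6 p.1), (sp p.2, k6 p.2)), (ht p.1, ht p.2)) :
      ((Bool × Kd6) × (Bool × Kd6)) × (ℝ × ℝ)) :=
    ((measurable_sk.comp measurable_fst).prodMk (measurable_sk.comp measurable_snd)).prodMk
      ((measurable_ht.comp measurable_fst).prodMk (measurable_ht.comp measurable_snd))
  unfold pairC6
  simp only [parts6_eq]
  exact h.comp h3

theorem measurable_potC6 (P : Par6) (s : Bool) : Measurable fun p : Xo × ℂ => potC6 P p.1 s p.2 := by
  have h : ∀ k : Bool × Kd6, Measurable fun p : ℝ × ℂ => ppC6 [((s, false, p.2), 1)] (prt P k p.1) := by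
    intro k
    obtain ⟨L, hL, h1⟩ := exists_evz P k (Y := ℝ × ℂ) measurable_fst
    have h5 := measurable_ppC6_evz (L := [((s, false, fun p : ℝ × ℂ => p.2), 1)]) (M := L)
      (fun p hp => by
        rw [List.mem_singleton] at hp
        subst hp
        exact measurable_snd) hL
    refine (congrArg Measurable (funext fun p => ?_)).mpr h5
    rw [h1]
    rfl
  unfold potC6
  simp only [parts6_eq]
  exact measurable_of6' h

section

variable {r : ℕ} (P : Par6)

theorem measurable_pairN6 (i j : Fin r) : Measurable fun O : Fin r → Xo => pairN6 P O i j := by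
  have h := ((measurable_pairC6 P).comp ((measurable_pi_apply i).prodMk
    (measurable_pi_apply (X := fun _ : Fin r => Xo) j))).norm
  refine (congrArg Measurable (funext fun O => ?_)).mpr h
  exact (norm_pairC6 P O i j).symm

theorem measurable_potN6 (i : Fin r) (s : Bool) :
    Measurable fun p : (Fin r → Xo) × ℂ => potN6 P p.1 i s p.2 := by
  have h := ((measurable_potC6 P s).comp (((measurable_pi_apply (X := fun _ : Fin r => Xo) i).comp
    measurable_fst).prodMk (measurable_snd (α := Fin r → Xo) (β := ℂ)))).norm
  refine (congrArg Measurable (funext fun p => ?_)).mpr h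
  exact (norm_potC6 P p.1 i s p.2).symm

end

/-! ### charges -/

theorem abs_chg6 (s : Bool) (x : Xo) : |chg6 s x| ≤ 2 := by
  unfold chg6
  cases k6 x <;> cases sp x <;> cases s <;> simp

theorem measurable_chg6 (s : Bool) : Measurable (chg6 s) := by
  have h := measurable_of6 (F := fun (k : Bool × Kd6) (_ : ℝ) => (match k.2 with
    | .L => if k.1 = s then 1 else 0
    | .T => if k.1 = s then 2 else 0
    | .E => 2
    | .F => if k.1 = s then 1 else 2
    | .H1 => if k.1 = s then -1 else 0
    | .H2 => if k.1 = s then -1 else 0 : ℤ)) fun _ => measurable_const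
  refine (congrArg Measurable (funext fun x => ?_)).mpr h
  unfold chg6
  cases k6 x <;> rfl

theorem measurable_chgO6 {r : ℕ} (s : Bool) : Measurable fun O : Fin r → Xo => chgO6 O s :=
  Finset.measurable_sum _ fun i _ => (measurable_chg6 s).comp (measurable_pi_apply i)

end PHK

end
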