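import Pool.Agent.PHK.Knd

/-!
# Configurations of the six kinds: densities, equation, energy

`O : ι → NUO.Xo`.  `muC6 a` = density of the potentials of all objects on the species `a`, `tauC6` = density
of the splitting, `linC6 a` = sum of the potentials.

* `cfg_eq6`: `linC6 a t - sg a * lgp tauC6 t = ∫ muC6 a u * V (t - u)`;
* `cfg_energy6`: `1/2 ∫ tauC6 lgp tauC6 + ∑_a 1/2 ∫ muC6 a (V * muC6 a) = 1/2 ∑ ∑ ER6`.
-/

set_option autoImplicit false

open MeasureTheory Set Filter Topology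

namespace PHK

noncomputable section

open NUMF (l l_pos g h V Lh Uh ck1 sk sk_pos lq lqg)
open NUO (Xo ht)
open NUC43
open Pool.Agent.NUM3 (EV EU)

/-- density of a kind on its own species -/
def sgX6 (P : Par6) (K : Kd6) : ℝ → ℝ := dO (kF6 P K) (kG6 P K)
/-- density of a kind on the other species -/
def sgY6 (P : Par6) (K : Kd6) : ℝ → ℝ := dX (kF6 P K) (kG6 P K)
/-- density of the splitting of a kind -/
def sgT6 (P : Par6) (K : Kd6) : ℝ → ℝ := dT (kG6 P K)

/-- the response energy of a pair of objects -/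
def ER6 (P : Par6) (σ : Bool) (κ κ' : Kd6) (x y : ℝ) : ℝ :=
  (if σ then EV (sgX6 P κ) (sgX6 P κ') x y + EV (sgY6 P κ) (sgY6 P κ') x y
    else EV (sgX6 P κ) (sgY6 P κ') x y + EV (sgY6 P κ) (sgX6 P κ') x y) -
    Pool.Agent.NUM3.sgn σ * EU (sgT6 P κ) (sgT6 P κ') x y

/-! ### the kinds -/

variable {P : Par6}

lemma dnX6 (h : Ok6 P) (K : Kd6) : Dn (sgX6 P K) := by
  obtain ⟨M, h0, hM⟩ := (chgK6 h K).decay
  exact ⟨(chgK6 h K).contO, M, h0, fun t => (hM t).1⟩
lemma dnY6 (h : Ok6 P) (K : Kd6) : Dn (sgY6 P K) := by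
  obtain ⟨M, h0, hM⟩ := (chgK6 h K).decay
  exact ⟨(chgK6 h K).contX, M, h0, fun t => (hM t).2.1⟩
lemma dnT6 (h : Ok6 P) (K : Kd6) : Dn (sgT6 P K) := by
  obtain ⟨M, h0, hM⟩ := (chgK6 h K).decay
  exact ⟨(chgK6 h K).contT, M, h0, fun t => (hM t).2.2⟩

lemma evX6 (P : Par6) (K : Kd6) (t : ℝ) : sgX6 P K (-t) = sgX6 P K t := by
  unfold sgX6 dO; exact inv_neg' _ t
lemma evY6 (P : Par6) (K : Kd6) (t : ℝ) : sgY6 P K (-t) = sgY6 P K t := by
  unfold sgY6 dX; exact inv_neg' _ t
lemma evT6 (P : Par6) (K : Kd6) (t : ℝ) : sgT6 P K (-t) = sgT6 P K t := by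
  unfold sgT6 dT; exact inv_neg' _ t

/-- density on the species `a` of an object of species `b` -/
def sgS6 (P : Par6) (same : Bool) (K : Kd6) : ℝ → ℝ := if same then sgX6 P K else sgY6 P K
/-- potential on the species `a` of an object of species `b` -/
def kS6 (P : Par6) (same : Bool) (K : Kd6) : ℝ → ℝ := if same then kA6 P K else kB6 P K

lemma dnS6 (h : Ok6 P) (s : Bool) (K : Kd6) : Dn (sgS6 P s K) := by
  cases s
  · exact dnY6 h K
  · exact dnX6 h K
lemma evS6 (P : Par6) (s : Bool) (K : Kd6) (t : ℝ) : sgS6 P s K (-t) = sgS6 P s K t := by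
  cases s
  · exact evY6 P K t
  · exact evX6 P K t

variable {ι : Type*} [Fintype ι]

/-- density of all objects on the species `a` -/
def muC6 (P : Par6) (O : ι → Xo) (a : Bool) (t : ℝ) : ℝ :=
  ∑ i, sgS6 P (NUO.sp (O i) == a) (k6 (O i)) (t - ht (O i))
/-- density of the splitting -/
def tauC6 (P : Par6) (O : ι → Xo) (t : ℝ) : ℝ :=
  ∑ i, sg (NUO.sp (O i)) * sgT6 P (k6 (O i)) (t - ht (O i))
/-- potentials of all objects on the species `a` -/
def linC6 (P : Par6) (O : ι → Xo) (a : Bool) (t : ℝ) : ℝ :=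
  ∑ i, kS6 P (NUO.sp (O i) == a) (k6 (O i)) (t - ht (O i))

theorem dn_muC6 (h : Ok6 P) (O : ι → Xo) (a : Bool) : Dn (muC6 P O a) :=
  Dn.sum _ fun i => (dnS6 h _ _).shift _
theorem dn_tauC6 (h : Ok6 P) (O : ι → Xo) : Dn (tauC6 P O) :=
  Dn.sum _ fun i => ((dnT6 h _).shift _).smul _

/-- `mu true - mu false = tau` -/
theorem muC_sub6 (h : Ok6 P) (O : ι → Xo) (t : ℝ) :
    muC6 P O true t - muC6 P O false t = tauC6 P O t := by
  unfold muC6 tauC6
  rw [← Finset.sum_sub_distrib]
  refine Finset.sum_congr rfl fun i _ => ?_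
  have := (chgK6 h (k6 (O i))).split (t - ht (O i))
  rcases hb : NUO.sp (O i) with _ | _
  · simp only [sgS6, sg, sgX6, sgY6, sgT6, beq_self_eq_true, if_true, Bool.false_eq_true,
      show (false == true) = false from rfl, if_false]
    linarith
  · simp only [sgS6, sg, sgX6, sgY6, sgT6, beq_self_eq_true, if_true, Bool.false_eq_true,
      show (true == false) = false from rfl, if_false]
    linarith

/-- mass of the density of the splitting -/
theorem tauC_int6 (h : Ok6 P) (O : ι → Xo) :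
    ∫ t, tauC6 P O t = -∑ i, sg (NUO.sp (O i)) * kq6 (k6 (O i)) := by
  unfold tauC6
  rw [integral_finsetSum _ fun i _ => (((dnT6 h _).shift _).smul _).int, ← Finset.sum_neg_distrib]
  refine Finset.sum_congr rfl fun i _ => ?_
  rw [integral_const_mul, integral_sub_right_eq_self (fun u => sgT6 P (k6 (O i)) u) (ht (O i)), sgT6,
    (chgK6 h _).intT]
  ring

lemma lgp_tauC6 (h : Ok6 P) (O : ι → Xo) (t : ℝ) :
    lgp (tauC6 P O) t = ∑ i, sg (NUO.sp (O i)) * lgp (sgT6 P (k6 (O i))) (t - ht (O i)) := by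
  unfold lgp tauC6
  have h1 : ∀ i, Integrable fun s => sg (NUO.sp (O i)) * sgT6 P (k6 (O i)) (s - ht (O i)) *
      Real.log (g (t - s)) := fun i => lg_in (((dnT6 h _).shift _).smul _) t
  simp_rw [Finset.sum_mul]
  rw [integral_finsetSum _ fun i _ => h1 i]
  refine Finset.sum_congr rfl fun i _ => ?_
  simp_rw [mul_assoc]
  rw [integral_const_mul, ← integral_sub_right_eq_self (fun s => sgT6 P (k6 (O i)) s *
    Real.log (g (t - ht (O i) - s))) (ht (O i))]
  congr 2
  funext s
  rw [show t - ht (O i) - (s - ht (O i)) = t - s by ring]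

lemma V_muC6 (h : Ok6 P) (O : ι → Xo) (a : Bool) (t : ℝ) :
    ∫ u, muC6 P O a u * V (t - u) =
      ∑ i, ∫ s, V s * sgS6 P (NUO.sp (O i) == a) (k6 (O i)) (t - ht (O i) - s) := by
  unfold muC6
  have h1 : ∀ i, Integrable fun s => sgS6 P (NUO.sp (O i) == a) (k6 (O i)) (s - ht (O i)) *
      V (t - s) := fun i => V_in ((dnS6 h _ _).shift _) t
  simp_rw [Finset.sum_mul]
  rw [integral_finsetSum _ fun i _ => h1 i]
  refine Finset.sum_congr rfl fun i _ => ?_
  rw [← integral_sub_left_eq_self (fun s => V s * sgS6 P (NUO.sp (O i) == a) (k6 (O i))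
    (t - ht (O i) - s)) volume t]
  congr 1
  funext s
  rw [show t - ht (O i) - (t - s) = s - ht (O i) by ring]
  ring

/-- **The equation of the densities.** -/
theorem cfg_eq6 (h : Ok6 P) (O : ι → Xo) (a : Bool) (t : ℝ) :
    linC6 P O a t - sg a * lgp (tauC6 P O) t = ∫ u, muC6 P O a u * V (t - u) := by
  rw [V_muC6 h, lgp_tauC6 h, linC6, Finset.mul_sum, ← Finset.sum_sub_distrib]
  refine Finset.sum_congr rfl fun i _ => ?_
  have h1 := (chgK6 h (k6 (O i))).own (t - ht (O i))
  have h2 := (chgK6 h (k6 (O i))).oth (t - ht (O i))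
  rcases hb : NUO.sp (O i) with _ | _ <;> cases a
  · simp only [kS6, sgS6, sgX6, sgY6, sgT6, sg, beq_self_eq_true, if_true, Bool.false_eq_true, if_false]
    linarith
  · simp only [kS6, sgS6, sgX6, sgY6, sgT6, sg, show (false == true) = false from rfl, if_true,
      Bool.false_eq_true, if_false]
    linarith
  · simp only [kS6, sgS6, sgX6, sgY6, sgT6, sg, show (true == false) = false from rfl, if_true,
      Bool.false_eq_true, if_false]
    linarith
  · simp only [kS6, sgS6, sgX6, sgY6, sgT6, sg, beq_self_eq_true, if_true, Bool.false_eq_true, if_false]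
    linarith

/-- **The energy of the densities is a sum over pairs.** -/
theorem cfg_energy6 (h : Ok6 P) (O : ι → Xo) :
    1 / 2 * (∫ t, tauC6 P O t * lgp (tauC6 P O) t) +
      ∑ a : Bool, 1 / 2 * (∫ t, muC6 P O a t * ∫ u, muC6 P O a u * V (t - u)) =
    1 / 2 * ∑ i, ∑ k, ER6 P (NUO.sp (O i) == NUO.sp (O k)) (k6 (O i)) (k6 (O k))
      (ht (O i)) (ht (O k)) := by
  have e1 : ∀ a : Bool, (∫ t, muC6 P O a t * ∫ u, muC6 P O a u * V (t - u)) =
      ∑ i, ∑ k, EV (sgS6 P (NUO.sp (O i) == a) (k6 (O i))) (sgS6 P (NUO.sp (O k) == a) (k6 (O k)))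
        (ht (O i)) (ht (O k)) := by
    intro a
    unfold muC6
    rw [bil_sum Finset.univ (p := fun i t => sgS6 P (NUO.sp (O i) == a) (k6 (O i)) (t - ht (O i)))
      (q := fun i t => sgS6 P (NUO.sp (O i) == a) (k6 (O i)) (t - ht (O i)))
      (fun k t => V_in ((dnS6 h _ _).shift _) t) (fun i k => V_out ((dnS6 h _ _).shift _) ((dnS6 h _ _).shift _))]
    refine Finset.sum_congr rfl fun i _ => Finset.sum_congr rfl fun k _ => ?_
    exact bil_V (evS6 P _ _) _ _
  have e2 : (∫ t, tauC6 P O t * lgp (tauC6 P O) t) =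
      ∑ i, ∑ k, -(sg (NUO.sp (O i)) * sg (NUO.sp (O k)) *
        EU (sgT6 P (k6 (O i))) (sgT6 P (k6 (O k))) (ht (O i)) (ht (O k))) := by
    unfold lgp tauC6
    rw [bil_sum Finset.univ (W := fun t => Real.log (g t))
      (p := fun i t => sg (NUO.sp (O i)) * sgT6 P (k6 (O i)) (t - ht (O i)))
      (q := fun i t => sg (NUO.sp (O i)) * sgT6 P (k6 (O i)) (t - ht (O i)))
      (fun k t => lg_in (((dnT6 h _).shift _).smul _) t)
      (fun i k => lg_out (((dnT6 h _).shift _).smul _) (((dnT6 h _).shift _).smul _))]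
    refine Finset.sum_congr rfl fun i _ => Finset.sum_congr rfl fun k _ => ?_
    have h1 := bil_U (f := sgT6 P (k6 (O i))) (f' := sgT6 P (k6 (O k))) (evT6 P _) (ht (O i)) (ht (O k))
    have h2 : ∀ t, sg (NUO.sp (O i)) * sgT6 P (k6 (O i)) (t - ht (O i)) *
        (∫ u, sg (NUO.sp (O k)) * sgT6 P (k6 (O k)) (u - ht (O k)) * Real.log (g (t - u))) =
        sg (NUO.sp (O i)) * sg (NUO.sp (O k)) * (sgT6 P (k6 (O i)) (t - ht (O i)) *
          ∫ u, sgT6 P (k6 (O k)) (u - ht (O k)) * Real.log (g (t - u))) := by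
      intro t
      simp_rw [mul_assoc]
      rw [integral_const_mul]
      ring
    simp_rw [h2]
    rw [integral_const_mul, h1]
    ring
  rw [Fintype.sum_bool, e1, e1, e2, ← mul_add, ← mul_add, ← Finset.sum_add_distrib,
    ← Finset.sum_add_distrib]
  congr 1
  refine Finset.sum_congr rfl fun i _ => ?_
  rw [← Finset.sum_add_distrib, ← Finset.sum_add_distrib]
  refine Finset.sum_congr rfl fun k _ => ?_
  unfold ER6
  rcases hb : NUO.sp (O i) with _ | _ <;> rcases hb' : NUO.sp (O k) with _ | _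
  · simp only [sgS6, sg, Pool.Agent.NUM3.sgn, beq_self_eq_true, if_true, Bool.false_eq_true, if_false,
      show (false == true) = false from rfl]
    ring
  · simp only [sgS6, sg, Pool.Agent.NUM3.sgn, beq_self_eq_true, if_true, Bool.false_eq_true, if_false,
      show (false == true) = false from rfl, show (true == false) = false from rfl]
    ring
  · simp only [sgS6, sg, Pool.Agent.NUM3.sgn, beq_self_eq_true, if_true, Bool.false_eq_true, if_false,
      show (false == true) = false from rfl, show (true == false) = false from rfl]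
    ring
  · simp only [sgS6, sg, Pool.Agent.NUM3.sgn, beq_self_eq_true, if_true, Bool.false_eq_true, if_false,
      show (true == false) = false from rfl]
    ring

/-- pointwise bound of the densities by the windows of the objects -/
theorem muC_bd6 (h : Ok6 P) : ∃ M : ℝ, 0 ≤ M ∧ ∀ (ι : Type) [Fintype ι] (O : ι → Xo) (a : Bool) (t : ℝ),
    |muC6 P O a t| ≤ M * ∑ i, Real.exp (-(5 / 2) * |t - ht (O i)|) ∧
    |tauC6 P O t| ≤ M * ∑ i, Real.exp (-(5 / 2) * |t - ht (O i)|) := by
  choose MX hX0 hX using fun K => (dnX6 h K).bd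
  choose MY hY0 hY using fun K => (dnY6 h K).bd
  choose MT hT0 hT using fun K => (dnT6 h K).bd
  set M : ℝ := ∑ K, (MX K + MY K + MT K) with hM
  have hle : ∀ K, MX K ≤ M ∧ MY K ≤ M ∧ MT K ≤ M := by
    intro K
    have h1 : MX K + MY K + MT K ≤ M := Finset.single_le_sum (f := fun K => MX K + MY K + MT K)
      (fun K _ => by have := hX0 K; have := hY0 K; have := hT0 K; positivity) (Finset.mem_univ K)
    have := hX0 K
    have := hY0 K
    have := hT0 K
    exact ⟨by linarith, by linarith, by linarith⟩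
  refine ⟨M, (hX0 .L).trans (hle .L).1, fun ι _ O a t => ⟨?_, ?_⟩⟩
  · unfold muC6
    rw [Finset.mul_sum]
    refine (Finset.abs_sum_le_sum_abs _ _).trans (Finset.sum_le_sum fun i _ => ?_)
    unfold sgS6
    split_ifs
    · exact (hX _ _).trans (mul_le_mul_of_nonneg_right (hle _).1 (Real.exp_pos _).le)
    · exact (hY _ _).trans (mul_le_mul_of_nonneg_right (hle _).2.1 (Real.exp_pos _).le)
  · unfold tauC6
    rw [Finset.mul_sum]
    refine (Finset.abs_sum_le_sum_abs _ _).trans (Finset.sum_le_sum fun i _ => ?_)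
    have h1 : |sg (NUO.sp (O i))| = 1 := by
      unfold sg
      split_ifs <;> simp
    rw [abs_mul, h1, one_mul]
    exact (hT _ _).trans (mul_le_mul_of_nonneg_right (hle _).2.2 (Real.exp_pos _).le)

end

end PHK
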