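import Pool.Agent.PHK.DirQ
import Pool.Agent.PHK.Basic
import Pool.Agent.PHK.Cfg
import Pool.Agent.NUO.StabP

/-!
# The product form of the stability bound for the six kinds (helper64)

* `StabDr6 k P c0`: the bound for ordered pairs (direct energy, cores of scale `2 ^ k` removed, minus
  the response energy), the statement of the certificate: no collisions, no cost, no slack;
* `enC6`: the energy of the densities of a configuration;
* `StabProd6 P`, **`stabProd6_of`**:
  `∏_{i<j} pairN6 * exp enC6 ≤ exp (C r) exp (- c1 ∑ cnt²)`.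
-/

set_option autoImplicit false

noncomputable section

open Finset MeasureTheory

namespace PHK

open NUO NUStabP NUDispW Pool.Agent.NUM3 NUC43


/-- **the stability bound for ordered pairs** -/
def StabDr6 (k : ℕ) (P : Par6) (c0 : ℝ) : Prop :=
  ∃ C1 : ℝ, 0 ≤ C1 ∧ ∀ (r : ℕ) (O : Fin r → Xo),
    c0 * W2 univ (fun i => ⌊ht (O i)⌋) - C1 * r ≤
      ∑ i, ∑ j ∈ univ.erase i,
        (Dr6 k P (sp (O i) == sp (O j)) (k6 (O i)) (k6 (O j)) (ht (O i) - ht (O j)) -
          ER6 P (sp (O i) == sp (O j)) (k6 (O i)) (k6 (O j)) (ht (O i)) (ht (O j)))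

/-- the energy of the densities of a configuration -/
def enC6 (P : Par6) {r : ℕ} (O : Fin r → Xo) : ℝ :=
  1 / 2 * (∫ t, tauC6 P O t * lgp (tauC6 P O) t) +
    ∑ a : Bool, 1 / 2 * (∫ t, muC6 P O a t * ∫ u, muC6 P O a u * NUMF.V (t - u))

/-- the product form of the stability bound -/
def StabProd6 (P : Par6) : Prop := ∃ C c1 : ℝ, 0 < C ∧ 0 < c1 ∧ ∀ (r : ℕ) (O : Fin r → Xo)
  (W : Finset ℤ),
  (∏ i, ∏ j, if i < j then pairN6 P O i j else 1) * Real.exp (enC6 P O) ≤
    Real.exp (C * r) * Real.exp (-(c1 * ∑ w ∈ W, (cnt (fun i => ht (O i)) w : ℝ) ^ 2))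

lemma EV_diag (f g : ℝ → ℝ) (x : ℝ) : EV f g x x = EV f g 0 0 := by
  unfold EV
  rw [← integral_add_right_eq_self _ x]
  refine integral_congr_ae (Filter.Eventually.of_forall fun s => ?_)
  simp only
  rw [show x - (s + x) = 0 - s by ring]
  congr 1
  rw [← integral_add_right_eq_self _ x]
  refine integral_congr_ae (Filter.Eventually.of_forall fun s' => ?_)
  simp only
  rw [show s + x - (s' + x) = s - s' by ring, show s' + x - x = s' - 0 by ring]

lemma EU_diag (f g : ℝ → ℝ) (x : ℝ) : EU f g x x = EU f g 0 0 := by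
  unfold EU
  rw [← integral_add_right_eq_self _ x]
  refine integral_congr_ae (Filter.Eventually.of_forall fun s => ?_)
  simp only
  rw [show x - (s + x) = 0 - s by ring]
  congr 1
  rw [← integral_add_right_eq_self _ x]
  refine integral_congr_ae (Filter.Eventually.of_forall fun s' => ?_)
  simp only
  rw [show s + x - (s' + x) = s - s' by ring, show s' + x - x = s' - 0 by ring]

lemma ER6_diag (P : Par6) (σ : Bool) (κ κ' : Kd6) (x : ℝ) : ER6 P σ κ κ' x x = ER6 P σ κ κ' 0 0 := by
  unfold ER6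
  simp only [EV_diag _ _ x, EU_diag _ _ x]

theorem pairN6_symm' (P : Par6) {r : ℕ} (O : Fin r → Xo) (i j : Fin r) :
    pairN6 P O i j = pairN6 P O j i := ppN6_symm _ _

/-- **product form of the stability bound** from the bound for ordered pairs -/
theorem stabProd6_of {P : Par6} (h : Ok6 P) (h' : Nd6 P) {k : ℕ} {c0 : ℝ} (hc0 : 0 < c0)
    (hS : StabDr6 k P c0) : StabProd6 P := by
  obtain ⟨C1, hC1, H⟩ := hS
  set B0 : ℝ := ∑ κ : Kd6, |ER6 P true κ κ 0 0| with hB0
  have hB0' : ∀ κ, ER6 P true κ κ 0 0 ≤ B0 := fun κ => (le_abs_self _).trans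
    (Finset.single_le_sum (f := fun κ => |ER6 P true κ κ 0 0|) (fun _ _ => abs_nonneg _)
      (mem_univ κ))
  have hB00 : 0 ≤ B0 := Finset.sum_nonneg fun _ _ => abs_nonneg _
  refine ⟨C1 + B0 + 1, c0 / 2, by positivity, by positivity, fun r O W => ?_⟩
  have hR0 : 0 ≤ Real.exp ((C1 + B0 + 1) * r) *
      Real.exp (-(c0 / 2 * ∑ w ∈ W, (cnt (fun i => ht (O i)) w : ℝ) ^ 2)) := by positivity
  by_cases hz : ∃ i j, i < j ∧ pairN6 P O i j = 0
  · obtain ⟨i, j, hij, h0⟩ := hz
    have : (∏ i, ∏ j, if i < j then pairN6 P O i j else 1) = 0 := by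
      apply prod_eq_zero (mem_univ i)
      apply prod_eq_zero (mem_univ j)
      rw [if_pos hij, h0]
    rw [this, zero_mul]
    exact hR0
  push Not at hz
  have hpos : ∀ i j, i ≠ j → 0 < pairN6 P O i j := by
    intro i j hij
    rcases lt_or_gt_of_ne hij with h1 | h1
    · exact lt_of_le_of_ne (pairN6_nonneg _ _ _ _) (Ne.symm (hz i j h1))
    · rw [pairN6_symm']
      exact lt_of_le_of_ne (pairN6_nonneg _ _ _ _) (Ne.symm (hz j i h1))
  set en : Fin r → Fin r → ℝ := fun i j =>
    ER6 P (sp (O i) == sp (O j)) (k6 (O i)) (k6 (O j)) (ht (O i)) (ht (O j)) with hen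
  have hm : c0 * W2 univ (fun i => ⌊ht (O i)⌋) - C1 * r ≤
      ∑ i, ∑ j ∈ univ.erase i, (-Real.log (pairN6 P O i j) - en i j) := by
    refine (H r O).trans (sum_le_sum fun i _ => sum_le_sum fun j hj => ?_)
    have := pair6_ge' h h' k O i j (hpos i j (ne_of_mem_erase hj).symm)
    simp only [hen]
    linarith
  have hself : ∀ i, en i i ≤ B0 := by
    intro i
    simp only [hen, beq_self_eq_true]
    rw [ER6_diag]
    exact hB0' _
  set E : ℝ := 1 / 2 * ∑ i, ∑ j, en i j with hE
  have hEn : enC6 P O = E := cfg_energy6 h O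
  have hsum : ∑ i, ∑ j ∈ univ.erase i, (-Real.log (pairN6 P O i j) - en i j) =
      -2 * (∑ i, ∑ j, if i < j then Real.log (pairN6 P O i j) else 0) -
        (2 * E - ∑ i, en i i) := by
    have e2 : ∑ i, ∑ j ∈ univ.erase i, (-Real.log (pairN6 P O i j)) =
        -2 * (∑ i, ∑ j, if i < j then Real.log (pairN6 P O i j) else 0) := by
      rw [sum_pairs _ fun i j => by rw [pairN6_symm']]
      have : (∑ i, ∑ j, if i < j then -Real.log (pairN6 P O i j) else 0) =
          -(∑ i, ∑ j, if i < j then Real.log (pairN6 P O i j) else 0) := by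
        rw [← sum_neg_distrib]
        refine sum_congr rfl fun i _ => ?_
        rw [← sum_neg_distrib]
        refine sum_congr rfl fun j _ => ?_
        split_ifs <;> simp
      rw [this]
      ring
    have e3 : 2 * E = ∑ i, en i i + ∑ i, ∑ j ∈ univ.erase i, en i j := by
      rw [← sum_diag]
      rw [hE]
      ring
    simp only [sum_sub_distrib]
    rw [e2]
    linarith
  have hs : ∑ i, en i i ≤ B0 * r := by
    calc ∑ i, en i i ≤ ∑ _i : Fin r, B0 := sum_le_sum fun i _ => hself i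
      _ = B0 * r := by
          rw [sum_const, card_univ, Fintype.card_fin, nsmul_eq_mul, mul_comm]
  have hwin : ∑ w ∈ W, (cnt (fun i => ht (O i)) w : ℝ) ^ 2 ≤
      W2 univ (fun i => ⌊ht (O i)⌋) := by
    refine (NUEnW.sum_cnt_sq_le (fun i => ht (O i)) W).trans (le_of_eq ?_)
    rw [W2_eq]
    rfl
  have hlog : (∑ i, ∑ j, if i < j then Real.log (pairN6 P O i j) else 0) + E ≤
      (C1 + B0 + 1) * r + -(c0 / 2 * ∑ w ∈ W, (cnt (fun i => ht (O i)) w : ℝ) ^ 2) := by
    have h1 : c0 * ∑ w ∈ W, (cnt (fun i => ht (O i)) w : ℝ) ^ 2 ≤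
        c0 * W2 univ (fun i => ⌊ht (O i)⌋) := mul_le_mul_of_nonneg_left hwin hc0.le
    have h6 : (0 : ℝ) ≤ r := by positivity
    nlinarith [mul_nonneg hC1 h6, mul_nonneg hB00 h6]
  have hL : (∏ i, ∏ j, if i < j then pairN6 P O i j else 1) =
      Real.exp (∑ i, ∑ j, if i < j then Real.log (pairN6 P O i j) else 0) := by
    rw [Real.exp_sum]
    refine prod_congr rfl fun i _ => ?_
    rw [Real.exp_sum]
    refine prod_congr rfl fun j _ => ?_
    split_ifs with h1
    · rw [Real.exp_log (hpos i j h1.ne)]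
    · simp
  rw [hL, hEn, ← Real.exp_add, ← Real.exp_add]
  exact Real.exp_le_exp.2 hlog

end PHK

end
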