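import Pool.Agent.PLX.PB.Geo
import Pool.Agent.PLX.Ends
import Pool.Agent.PHK.Alg
import Pool.Agent.PHK.Sum
import Pool.Agent.PHK.Stab
import Pool.Agent.PHK.CfgC
import Pool.Agent.PHK.Ob1Fac
import Pool.Agent.PHK.H0.DatC

/-!
# (P): the tilted bound of one configuration with groups of spectators, any one body data

The content of `PB/AsmR` for the six kinds, parameters `par6`.

* `RgR6`, `S4R6`: range of the parameters, the gas in the presence of objects and groups;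
* `OneR6`: one body factor of an object against `act6`;
* `SpecPin6`: the groups against an object, pinned energies and far constants;
* **`perX_ofR6`**: the bound on the explicit curves, **`perG_ofR6`**: the existential form.
-/

set_option autoImplicit false

noncomputable section

open MeasureTheory Finset
open scoped ENNReal

open PLX (Fil Ends)

namespace PBO.PLX

open PHK
open NUGC NUGC.PLX
open NUO NUP1 NUStabP NUDispW
open NUC43 (sg)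
open NUSea.PLX.H0 (Gd IG TG cstF)
open NUSp (kG spo qc)

/-- **the groups against an object**, pinned energies and far constants -/
def SpecPin6 (C : ℝ) : Prop := ∀ (x : Xo) (T1 : ℝ), |ht x| ≤ T1 →
    ∀ (n : ℕ) (g : Fin n → Gd), n ≤ 2 →
    facL6 (spF g) (parts6 par6 x) *
      Real.exp (∑ d, ES (obSr6 par6 x) (TG (fun i => (g i).pin T1) d) -
        cstF T1 g true * (sg (sp x) * kq6 (k6 x))) ≤ C

theorem cast_nA6 {n : ℕ} {r : ℕ} {O : Fin r → Xo} {s : Bool} (h : chgO6 O s ≤ n) :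
    ((nA6 n O s : ℕ) : ℝ) = n - chgO6 O s := by
  have : ((nA6 n O s : ℕ) : ℤ) = n - chgO6 O s := by
    unfold nA6
    exact Int.toNat_of_nonneg (by linarith)
  exact_mod_cast this

variable [NUSea.Sea] [Fil] [Ends]

/-- the range of the parameters of one configuration: `N + aX` quanta X, `N + aY` quanta Y (`aY` contains the
additional quanta `Fil.xe m`) -/
structure RgR6 (ep e1 : ℝ) (m : ℕ) {n : ℕ} (g : Fin n → Gd) (aX aY : ℕ) (ν : ℝ) (N : ℕ) {r : ℕ}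
    (O : Fin r → Xo) (E x : ℝ) : Prop where
  n2 : n ≤ 2
  sp : ∀ i j, i ≠ j → (g i).σ ≠ (g j).σ
  ax : aX ≤ 3
  ay : aY ≤ Fil.xe m + 3
  ay' : Fil.xe m ≤ aY + 3
  q : (aX : ℝ) + Fil.xe m - aY = -∑ i, NUC43.sg (g i).σ * qc (g i).c / 2
  nu : |ν - m| ≤ 2
  hN : N ≤ 2 * m
  hr : r ≤ 2 * (2 * N + (aX + aY))
  hc1 : chgO6 O true ≤ (N + aX : ℕ)
  hc2 : chgO6 O false ≤ (N + aY : ℕ)
  cn : cnt6 O
  E0 : 0 ≤ E
  hE : ∀ i, (g i).c = .w ∨ (g i).c = .d ∨ |(g i).τ| ≤ TW ep e1 m + E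
  x0 : 0 ≤ x
  hx : ∀ i, NUSp.exc (T1R ep e1 m O E) (g i).τ ≤ x

/-- exponent of a configuration -/
def confR6 (G : Geo) (m : ℕ) (ep e1 J K kap : ℝ) {r : ℕ} (O : Fin r → Xo) : ℝ :=
  ∑ i, G.one m ep e1 J r O i + K * r + enC6 par6 O + kap * win univ (fun i => ht (O i))

/-- energies objects - groups and groups - groups (groups pinned at `T1`), far constants of the groups
with `p` quanta X, `q` quanta Y in the gas -/
def enR6 (m : ℕ) {n : ℕ} (g : Fin n → Gd) {r : ℕ} (O : Fin r → Xo) (T1 : ℝ) (p q : ℕ) : ℝ :=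
  ∑ i, ∑ d, ES (obSr6 par6 (O i)) (TG (fun i => (g i).pin T1) d) +
    1 / 2 * (∑ d, ∑ d', ES (TG (fun i => (g i).pin T1) d) (TG (fun i => (g i).pin T1) d')) +
    cstF T1 g true * ((p : ℝ) - q + Fil.xe m)

/-- the left side: tilt and positive gas -/
def lhsR6 (G : Geo) (ep e1 J : ℝ) (m : ℕ) {n : ℕ} (g : Fin n → Gd) (aX aY : ℕ) (ν : ℝ) (N : ℕ)
    (b' : ℝ) {r : ℕ} (O : Fin r → Xo) : ℝ≥0∞ :=
  ENNReal.ofReal (Real.exp (b' * (ν - N))) *
    Z1c6 ((G.B m (4 / 3 * (1 - ep))).mul (spF g)) par6 (etaC e1 J m m)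
      (etaC' e1 J m m) O (nA6 (N + aX) O true) (nA6 (N + aY) O false)

/-- **the gas in the presence of the objects and of the groups**, the gain kept -/
def S4R6 (G : Geo) : Prop :=
  ∃ K Ca : ℝ, 0 ≤ K ∧ 0 ≤ Ca ∧ ∀ kap : ℝ, 0 < kap →
    ∀ ep : ℝ, 0 < ep → ep ≤ 1 / 100 → ∀ e1 : ℝ, 0 < e1 → e1 ≤ 1 / 100 → ∀ J : ℝ, 0 ≤ J →
    ∀ δ : ℝ, 0 < δ → ∃ d Cst : ℝ, 0 < d ∧ 0 ≤ Cst ∧ ∃ m0 : ℕ, ∀ m ≥ m0,
      ∀ (n : ℕ) (g : Fin n → Gd) (aX aY : ℕ) (ν : ℝ) (N : ℕ) (b' : ℝ) (r : ℕ) (O : Fin r → Xo)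
        (E x : ℝ), b' = d ∨ b' = -d → RgR6 ep e1 m g aX aY ν N O E x →
        lhsR6 G ep e1 J m g aX aY ν N b' O ≤
          ENNReal.ofReal (prefR G m g E x Cst * (m : ℝ) ^ (Ca * (ep + e1) + δ) *
            (if ∀ i, |(g i).τ| ≤ TW ep e1 m then 1 else Real.exp (Real.log m / 2)) *
            Real.exp (-gnF e1 J m g) *
            Real.exp (confR6 G m ep e1 J K kap O +
              enR6 m g O (T1R ep e1 m O E) (nA6 (N + aX) O true) (nA6 (N + aY) O false)))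

/-- **one body factor of an object against the activity** -/
def OneR6 (G : Geo) : Prop := ∃ aS c2 τ : ℝ, 0 ≤ aS ∧ 0 < c2 ∧ ∀ K0 : ℝ, ∃ C c : ℝ, 0 < C ∧ 0 < c ∧
  ∀ ep : ℝ, 0 < ep → ep ≤ 1 / 100 → ∀ e1 : ℝ, 0 < e1 → e1 ≤ 1 / 100 → ∀ J : ℝ, 0 ≤ J →
  ∃ m1 : ℕ, ∀ m ≥ m1, ∀ (r : ℕ) (O : Fin r → Xo) (i : Fin r),
    ob6 (G.B m (4 / 3 * (1 - ep))) par6 (O i) * Real.exp (G.one m ep e1 J r O i + K0) ≤
    act6 C c c2 aS τ 6 (Real.log m) ep e1 J r (k6 (O i)) (ht (O i))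

/-- the prefactor of a class -/
def PfR6 (G : Geo) (Ca ep e1 J δ Cst : ℝ) (m : ℕ) {n : ℕ} (g : Fin n → Gd) (Qe : ℝ) : ℝ :=
  Cst * Real.exp (G.EM m) * (m : ℝ) ^ (Ca * (ep + e1) + δ) *
    Real.exp (∑ i, G.MF m (g i).σ (g i).c (g i).w) *
    (if ∀ i, |(g i).τ| ≤ TW ep e1 m then 1 else Real.exp (Real.log m / 2)) *
    Real.exp (-gnF e1 J m g) * Qe

/-- **the tilted bounds for a family of groups** on the explicit curves -/
def PerGX6 (G : Geo) (C c b : ℝ) (k : ℕ) (c1 Ca : ℝ) : Prop :=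
  ∀ ep : ℝ, 0 < ep → ep ≤ 1 / 100 → ∀ e1 : ℝ, 0 < e1 → e1 ≤ 1 / 100 → ∀ J : ℝ, 0 ≤ J →
    ∀ δ : ℝ, 0 < δ → ∃ d Cst : ℝ, 0 < d ∧ 0 ≤ Cst ∧ ∃ m0 : ℕ, ∀ m ≥ m0,
      ∀ (n : ℕ) (g : Fin n → Gd) (aX aY : ℕ) (ν E Qe : ℝ), n ≤ 2 →
        (∀ i j, i ≠ j → (g i).σ ≠ (g j).σ) → aX ≤ 3 → aY ≤ Fil.xe m + 3 →
        Fil.xe m ≤ aY + 3 →
        (aX : ℝ) + Fil.xe m - aY = -∑ i, NUC43.sg (g i).σ * qc (g i).c / 2 →
        |ν - m| ≤ 2 → 0 ≤ E →
        (∀ i, (g i).c = .w ∨ (g i).c = .d ∨ |(g i).τ| ≤ TW ep e1 m + E) → 0 ≤ Qe →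
        (∀ T1, TW ep e1 m + E ≤ T1 → ∃ x, 0 ≤ x ∧ (∀ i, NUSp.exc T1 (g i).τ ≤ x) ∧
          Real.exp (enQ g ((aX : ℝ) + Fil.xe m - aY) E x T1) ≤ Qe) →
        ∀ N ≤ 2 * m, ∀ b' : ℝ, b' = d ∨ b' = -d → ∀ r ≤ 2 * (2 * N + (aX + aY)),
          ∀ (O : Fin r → Xo) (W : Finset ℤ),
          ENNReal.ofReal (Real.exp (b' * (ν - N))) *
            Fnc6 ((G.B m (4 / 3 * (1 - ep))).mul (spF g)) par6 (etaC e1 J m m) (etaC' e1 J m m)
              (N + aX) (N + aY) O ≤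
          ENNReal.ofReal (PfR6 G Ca ep e1 J δ Cst m g Qe *
            (if (r : ℝ) ≤ Real.log m then 1 else Real.exp (0 * Real.log m)) *
            (∏ i, act C 1 c b k (Real.log m) ep e1 J r (ht (O i))) *
            Real.exp (-(c1 * ∑ w ∈ W, (cO O w : ℝ) ^ 2)))

/-- **the tilted bounds for a family of groups** -/
def PerGR6 (G : Geo) (C c b : ℝ) (k : ℕ) (c1 Ca : ℝ) : Prop :=
  ∀ ep : ℝ, 0 < ep → ep ≤ 1 / 100 → ∀ e1 : ℝ, 0 < e1 → e1 ≤ 1 / 100 → ∀ J : ℝ, 0 ≤ J →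
    ∀ δ : ℝ, 0 < δ → ∃ d Cst : ℝ, 0 < d ∧ 0 ≤ Cst ∧ ∃ m0 : ℕ, ∀ m ≥ m0,
      ∀ (n : ℕ) (g : Fin n → Gd) (aX aY : ℕ) (ν E Qe : ℝ), n ≤ 2 →
        (∀ i j, i ≠ j → (g i).σ ≠ (g j).σ) → aX ≤ 3 → aY ≤ Fil.xe m + 3 →
        Fil.xe m ≤ aY + 3 →
        (aX : ℝ) + Fil.xe m - aY = -∑ i, NUC43.sg (g i).σ * qc (g i).c / 2 →
        |ν - m| ≤ 2 → 0 ≤ E →
        (∀ i, (g i).c = .w ∨ (g i).c = .d ∨ |(g i).τ| ≤ TW ep e1 m + E) → 0 ≤ Qe →
        (∀ T1, TW ep e1 m + E ≤ T1 → ∃ x, 0 ≤ x ∧ (∀ i, NUSp.exc T1 (g i).τ ≤ x) ∧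
          Real.exp (enQ g ((aX : ℝ) + Fil.xe m - aY) E x T1) ≤ Qe) →
        PerCof6 C 1 c b k c1 0 (Real.log m) ep e1 J ν d (2 * m)
          ((G.B m (4 / 3 * (1 - ep))).mul (spF g)) par6 aX aY
          (PfR6 G Ca ep e1 J δ Cst m g Qe)

/-- **the tilted bounds on the explicit curves** from the stability bound, `S4R6` and `OneR6` -/
theorem perX_ofR6 {G : Geo} (hB : ∀ m β, (G.B m β).Nn) (hS : StabProd6 par6) {C3 : ℝ}
    (hspec : SpecPin6 C3) (h4 : S4R6 G) (h1 : OneR6 G) :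
    ∃ (C c b c1 Ca : ℝ) (k : ℕ), 0 < C ∧ 0 < c ∧ 0 < b ∧
    0 < c1 ∧ 0 ≤ Ca ∧ PerGX6 G C c b k c1 Ca := by
  obtain ⟨C2, c1, hC2, hc1, hstab⟩ := hS
  obtain ⟨K, Ca, hK, hCa, h4⟩ := h4
  obtain ⟨aS', c2, τ, haS', hc2, h1⟩ := h1
  obtain ⟨K', K6, hK6, hasm⟩ := asm6 par6_good (c2 := c2) (aS := aS') (τ := τ) (c1 := c1) C2 K
    (Real.log (max C3 1)) haS' hc2 hc1
  obtain ⟨C, c, hC, hc, hone⟩ := h1 K'
  have hK60 : 0 < K6 := by linarith
  refine ⟨C * K6, c, 1 / 10, c1 / 4, Ca, 6 + 1, by positivity, hc, by norm_num, by positivity,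
    hCa, ?_⟩
  intro ep hep hep1 e1 he1 he11 J hJ δ hδ
  obtain ⟨d, Cst, hd, hCst, M0, h4⟩ :=
    h4 (c1 / 4) (by positivity) ep hep hep1 e1 he1 he11 J hJ δ hδ
  obtain ⟨m2, hone⟩ := hone ep hep hep1 e1 he1 he11 J hJ
  refine ⟨d, K6 * Cst, hd, by positivity, max (max M0 m2) 3, ?_⟩
  intro m hM n g aX aY ν E Qe hn hσ haX haY haY' hq hν hE hcE hQe hpin N hN b' hb' r hr O W
  have hM0 : M0 ≤ m := ((le_max_left _ _).trans (le_max_left _ _)).trans hM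
  have hM1 : m2 ≤ m := ((le_max_right _ _).trans (le_max_left _ _)).trans hM
  have hM3 : 3 ≤ m := (le_max_right _ _).trans hM
  have hL1 : 1 ≤ Real.log m := by
    rw [Real.le_log_iff_exp_le (by positivity)]
    have h3 : (3 : ℝ) ≤ m := by exact_mod_cast hM3
    exact (Real.exp_one_lt_d9.le.trans (by norm_num)).trans h3
  unfold Fnc6
  by_cases hchg : chgO6 O true ≤ (N + aX : ℕ) ∧ chgO6 O false ≤ (N + aY : ℕ) ∧ cnt6 O
  swap
  · rw [if_neg hchg, mul_zero]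
    exact zero_le
  rw [if_pos hchg]
  -- the end of the window
  obtain ⟨T1, hT1⟩ : ∃ T1, T1 = T1R ep e1 m O E := ⟨_, rfl⟩
  have hexc0 := excS_nonneg (TW ep e1 m) O
  have hT1E : TW ep e1 m + E ≤ T1 := by
    rw [hT1]
    unfold T1R
    linarith [le_max_right (excS (TW ep e1 m) O) E]
  have hT1O : ∀ i, |ht (O i)| ≤ T1 := by
    intro i
    have h1 := excS_ge (TW ep e1 m) O i
    have h2 := le_max_left (excS (TW ep e1 m) O) E
    rw [hT1]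
    unfold T1R
    linarith
  obtain ⟨x, hx0, hx, hQ⟩ := hpin T1 hT1E
  have hR : RgR6 ep e1 m g aX aY ν N O E x :=
    ⟨hn, hσ, haX, haY, haY', hq, hν, hN, hr, hchg.1, hchg.2.1, hchg.2.2, hE, hcE, hx0, fun i => by
      rw [← hT1]
      exact hx i⟩
  have h5 := h4 m hM0 n g aX aY ν N b' r O E x hb' hR
  rw [← hT1] at h5
  unfold PfR6
  obtain ⟨F, hF⟩ : ∃ F : ℝ, F = if ∀ i, |(g i).τ| ≤ TW ep e1 m then 1 else
    Real.exp (Real.log m / 2) := ⟨_, rfl⟩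
  rw [← hF] at h5 ⊢
  have hF0 : 0 ≤ F := by
    rw [hF]
    split_ifs
    · exact zero_le_one
    · exact (Real.exp_pos _).le
  obtain ⟨gn, hgn⟩ : ∃ gn : ℝ, gn = Real.exp (-gnF e1 J m g) := ⟨_, rfl⟩
  rw [← hgn] at h5 ⊢
  have hgn0 : 0 ≤ gn := by
    rw [hgn]
    exact (Real.exp_pos _).le
  obtain ⟨mp, hmp⟩ : ∃ mp, mp = (m : ℝ) ^ (Ca * (ep + e1) + δ) := ⟨_, rfl⟩
  rw [← hmp] at h5 ⊢
  have hmp0 : 0 ≤ mp := by
    rw [hmp]
    positivity
  -- the numbers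
  have hpq : (((nA6 (N + aX) O true : ℕ) : ℝ) - ((nA6 (N + aY) O false : ℕ) : ℝ)) +
      Fil.xe m = ((aX : ℝ) + Fil.xe m - aY) - ∑ i, sg (NUO.sp (O i)) * kq6 (k6 (O i)) := by
    rw [NUSea.PLX.H0.sum_kq6, cast_nA6 hchg.1, cast_nA6 hchg.2.1]
    push_cast
    ring
  obtain ⟨EE, hEE⟩ : ∃ EE, EE = 1 / 2 * (∑ d, ∑ d', ES (TG (fun i => (g i).pin T1) d)
    (TG (fun i => (g i).pin T1) d')) := ⟨_, rfl⟩
  obtain ⟨ct, hct⟩ : ∃ ct, ct = cstF T1 g true := ⟨_, rfl⟩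
  set es : Fin r → ℝ := fun i => ∑ d, ES (obSr6 par6 (O i))
    (TG (fun i => (g i).pin T1) d) - ct * (sg (NUO.sp (O i)) * kq6 (k6 (O i))) with hes
  have henG : enR6 m g O T1 (nA6 (N + aX) O true) (nA6 (N + aY) O false) =
      ∑ i, es i + (EE + ct * ((aX : ℝ) + Fil.xe m - aY)) := by
    unfold enR6
    rw [hpq, hes, sum_sub_distrib, ← mul_sum, ← hEE, ← hct]
    ring
  set B : ℝ := prefR G m g E x Cst * mp * F * gn *
    Real.exp (EE + ct * ((aX : ℝ) + Fil.xe m - aY)) with hBd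
  have hB0 : 0 ≤ B := by
    have := prefR_nonneg (G := G) (m := m) (g := g) (E := E) (x := x) hCst
    positivity
  -- the algebra
  have key := hasm C c 6 (Real.log m) ep e1 J r O W
    (fun i => ob6 (G.B m (4 / 3 * (1 - ep))) par6 (O i))
    (fun i => facL6 (spF g) (parts6 par6 (O i)))
    (fun i => G.one m ep e1 J r O i) es
    (∏ i, ∏ j, if i < j then pairN6 par6 O i j else 1) (enC6 par6 O) B (c1 / 4) hC.le hL1
    (fun i => ob6_nonneg (hB _ _) _ _) (fun i => facL6_nonneg (spFR_nonneg g) _) hB0 le_rfl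
    (fun W => hstab r O W)
    (fun i => by
      have h := hspec (O i) T1 (hT1O i) n g hn
      rw [Real.exp_log (lt_of_lt_of_le one_pos (le_max_right _ _)), hes]
      rw [← hct] at h
      exact h.trans (le_max_left _ _))
    (fun i => hone m hM1 r O i)
  -- the weight of the objects
  have hobj : objWc6 ((G.B m (4 / 3 * (1 - ep))).mul (spF g)) par6 O =
      ((∏ i, ob6 (G.B m (4 / 3 * (1 - ep))) par6 (O i)) *
        ∏ i, facL6 (spF g) (parts6 par6 (O i))) * (∏ i, loc6 (gH6 par6 O) par6 (O i)) *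
        ∏ i, ∏ j, if i < j then pairN6 par6 O i j else 1 := by
    unfold objWc6
    rw [prod_ob6_mul]
    rfl
  have hobjn : 0 ≤ objWc6 ((G.B m (4 / 3 * (1 - ep))).mul (spF g)) par6 O := by
    rw [hobj]
    refine mul_nonneg (mul_nonneg (mul_nonneg (prod_nonneg fun i _ => ob6_nonneg (hB _ _) _ _)
      (prod_nonneg fun i _ => facL6_nonneg (spFR_nonneg g) _))
      (prod_nonneg fun i _ => loc6_nonneg _ _ _)) ?_
    refine prod_nonneg fun i _ => prod_nonneg fun j _ => ?_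
    split_ifs
    · exact pairN6_nonneg _ _ _ _
    · exact zero_le_one
  have hexp : prefR G m g E x Cst * mp * F * gn * Real.exp (confR6 G m ep e1 J K (c1 / 4) O +
      enR6 m g O T1 (nA6 (N + aX) O true) (nA6 (N + aY) O false)) =
      B * Real.exp (∑ i, G.one m ep e1 J r O i + ∑ i, es i + K * r + enC6 par6 O +
        c1 / 4 * win univ fun i => ht (O i)) := by
    rw [henG, hBd, mul_assoc _ (Real.exp _) (Real.exp _), ← Real.exp_add]
    congr 2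
    unfold confR6
    ring
  rw [hexp] at h5
  -- the prefactor
  have hBQ : K6 * B ≤ K6 * Cst * Real.exp (G.EM m) * mp *
      Real.exp (∑ i, G.MF m (g i).σ (g i).c (g i).w) * F * gn * Qe := by
    have e1 : K6 * B = K6 * Cst * Real.exp (G.EM m) * mp *
        Real.exp (∑ i, G.MF m (g i).σ (g i).c (g i).w) * F * gn *
        Real.exp (enQ g ((aX : ℝ) + Fil.xe m - aY) E x T1) := by
      rw [hBd]
      unfold prefR enQ
      rw [← hEE, ← hct, Real.exp_add (EE + ct * ((aX : ℝ) + Fil.xe m - aY))]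
      ring
    rw [e1]
    refine mul_le_mul_of_nonneg_left hQ ?_
    positivity
  have hact0 : 0 ≤ ∏ i, act (C * K6) 1 c (1 / 10) (6 + 1) (Real.log m) ep e1 J r (ht (O i)) :=
    prod_nonneg fun i _ => act_nonneg (by positivity) zero_le_one (by linarith)
  have hlast : K6 * B * (∏ i, act (C * K6) 1 c (1 / 10) (6 + 1) (Real.log m) ep e1 J r
      (ht (O i))) * Real.exp (-(c1 / 4 * ∑ w ∈ W, (cnt (fun i => ht (O i)) w : ℝ) ^ 2)) ≤
      K6 * Cst * Real.exp (G.EM m) * mp *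
        Real.exp (∑ i, G.MF m (g i).σ (g i).c (g i).w) * F * gn * Qe *
        (if (r : ℝ) ≤ Real.log m then 1 else Real.exp (0 * Real.log m)) *
        (∏ i, act (C * K6) 1 c (1 / 10) (6 + 1) (Real.log m) ep e1 J r (ht (O i))) *
        Real.exp (-(c1 / 4 * ∑ w ∈ W, (cO O w : ℝ) ^ 2)) := by
    have g3 : ∀ w, cO O w = cnt (fun i => ht (O i)) w := fun w => rfl
    have g4 : (if (r : ℝ) ≤ Real.log m then (1 : ℝ) else Real.exp (0 * Real.log m)) = 1 := by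
      split_ifs
      · rfl
      · rw [zero_mul, Real.exp_zero]
    simp only [g3]
    rw [g4, mul_one]
    refine mul_le_mul_of_nonneg_right ?_ (Real.exp_pos _).le
    exact mul_le_mul_of_nonneg_right hBQ hact0
  calc ENNReal.ofReal (Real.exp (b' * (ν - N))) *
        (ENNReal.ofReal (objWc6 ((G.B m (4 / 3 * (1 - ep))).mul (spF g)) par6 O) *
          Z1c6 ((G.B m (4 / 3 * (1 - ep))).mul (spF g)) par6 (etaC e1 J m m)
            (etaC' e1 J m m) O (nA6 (N + aX) O true) (nA6 (N + aY) O false))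
      = ENNReal.ofReal (objWc6 ((G.B m (4 / 3 * (1 - ep))).mul (spF g)) par6 O) *
        lhsR6 G ep e1 J m g aX aY ν N b' O := by
        unfold lhsR6
        ring
    _ ≤ ENNReal.ofReal (objWc6 ((G.B m (4 / 3 * (1 - ep))).mul (spF g)) par6 O) *
        ENNReal.ofReal (B * Real.exp (∑ i, G.one m ep e1 J r O i + ∑ i, es i + K * r +
          enC6 par6 O + c1 / 4 * win univ fun i => ht (O i))) := mul_le_mul_right h5 _
    _ = ENNReal.ofReal (objWc6 ((G.B m (4 / 3 * (1 - ep))).mul (spF g)) par6 O *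
        (B * Real.exp (∑ i, G.one m ep e1 J r O i + ∑ i, es i + K * r +
          enC6 par6 O + c1 / 4 * win univ fun i => ht (O i)))) :=
        (ENNReal.ofReal_mul hobjn).symm
    _ ≤ ENNReal.ofReal (K6 * B * (∏ i, act (C * K6) 1 c (1 / 10) (6 + 1) (Real.log m) ep e1 J r
          (ht (O i))) *
        Real.exp (-(c1 / 4 * ∑ w ∈ W, (cnt (fun i => ht (O i)) w : ℝ) ^ 2))) := by
        refine ENNReal.ofReal_le_ofReal ?_
        rw [hobj]
        exact key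
    _ ≤ _ := ENNReal.ofReal_le_ofReal hlast

/-- **the tilted bounds for a family of groups** from the stability bound, `S4R6` and `OneR6` -/
theorem perG_ofR6 {G : Geo} (hB : ∀ m β, (G.B m β).Nn) (hS : StabProd6 par6) {C3 : ℝ}
    (hspec : SpecPin6 C3) (h4 : S4R6 G) (h1 : OneR6 G) :
    ∃ (C c b c1 Ca : ℝ) (k : ℕ), 0 < C ∧ 0 < c ∧ 0 < b ∧
    0 < c1 ∧ 0 ≤ Ca ∧ PerGR6 G C c b k c1 Ca := by
  obtain ⟨C, c, b, c1, Ca, k, hC, hc, hb, hc1, hCa, h⟩ := perX_ofR6 hB hS hspec h4 h1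
  refine ⟨C, c, b, c1, Ca, k, hC, hc, hb, hc1, hCa, ?_⟩
  intro ep hep hep1 e1 he1 he11 J hJ δ hδ
  obtain ⟨d, Cst, hd, hCst, m0, h⟩ := h ep hep hep1 e1 he1 he11 J hJ δ hδ
  obtain ⟨m1, hm1, hcur⟩ := curOKC he1 he11 hJ hep
  refine ⟨d, Cst, hd, hCst, max m0 m1, ?_⟩
  intro m hM n g aX aY ν E Qe hn hσ haX haY haY' hq hν hE hcE hQe hpin N hN b' hb' r hr O
  refine ⟨etaC e1 J m m, etaC' e1 J m m, hcur m ((le_max_right _ _).trans hM) _ (by
    have : (0 : ℝ) ≤ m := Nat.cast_nonneg _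
    linarith), fun W => ?_⟩
  exact h m ((le_max_left _ _).trans hM) n g aX aY ν E Qe hn hσ haX haY haY' hq hν hE hcE hQe
    hpin N hN b' hb' r hr O W

end PBO.PLX

end
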