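import Pool.Agent.PHK.LetB
import Pool.Agent.PHK.AsmR
import Pool.Agent.PLX.PB.KValR
import Pool.Agent.PLX.PotH.Crv

/-!
# (P): the geometry with two letters

* `Ix6`: types, choices, heights of two letters; `pl6`: what is missing in the phase of the letter `hs'`
  (string and hole, phase `- 3 l`) against its base group `hp` (phase `13 l`), free of the current;
* `mN6`: sea exponent of the neutral factor of a letter; `ME6`: **the sea exponent of a letter**;
* **`GL6 G i`**: the geometry with the neutral factors of the two letters `i`; `GL6_EM`.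
-/

set_option autoImplicit false
set_option linter.unusedSectionVars false

noncomputable section

open Complex MeasureTheory Finset
open PLX (Fil Ends)

namespace PBR.PLX

open PHK
open NUGC.PLX
open NUO (Tb)
open NURow (HT)
open PBO.PLX (Geo)
open PBV.PLX (mHS)
open PotH.PLX (sN)
open PBH.PLX (Atm)

/-- types, choices, heights of two letters -/
abbrev Ix6 : Type := (HT × HT) × (Ch6 × Ch6) × (ℝ × ℝ)

/-- `(16 / 3) (Tb - |τ|)₊` for `hs'`, else `0`: the phase of `hs'` is `16 l` below the phase of its base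
group, `32 l hC τ ≤ pl6 + O(1)` -/
def pl6 (m : ℕ) (t : HT) (u : Ch6) (τ : ℝ) : ℝ :=
  if t = .H ∧ u = (false, true) then 16 / 3 * max (Tb (Real.log m) - |τ|) 0 else 0

theorem pl6_nonneg (m : ℕ) (t : HT) (u : Ch6) (τ : ℝ) : 0 ≤ pl6 m t u τ := by
  unfold pl6
  split_ifs
  · have := le_max_right (Tb (Real.log m) - |τ|) 0
    positivity
  · exact le_rfl

/-- **sea exponent of the neutral factor of a letter**, sea numbers `s`, half quantum of species `σ` -/
def mN6 (s : Bool → ℝ) (m : ℕ) (σ : Bool) (t : HT) (u : Ch6) (τ : ℝ) : ℝ :=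
  (∑ a, s a * mHS (at6 t u σ τ) a) + pl6 m t u τ

/-- means of two families of atoms -/
theorem mHS_append {m n : ℕ} (x : Bool → Fin m → Atm) (x' : Bool → Fin n → Atm) (a : Bool) :
    mHS (fun b => Fin.append (x b) (x' b)) a = mHS x a + mHS x' a := by
  unfold PBV.PLX.mHS
  rw [Fin.sum_univ_add]
  simp only [Fin.append_left, Fin.append_right]

theorem mHS_atK6 (t t' : HT) (u : Ch6 × Ch6) (y : ℝ × ℝ) (a : Bool) :
    mHS (atK6 t t' u y) a = mHS (at6 t u.1 true y.1) a + mHS (at6 t' u.2 false y.2) a :=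
  mHS_append (at6 t u.1 true y.1) (at6 t' u.2 false y.2) a

variable [Fil] [Ends]

/-- **the sea exponent of a letter**: neutral factor and base group -/
def ME6 (MF : ℕ → Bool → NUSp.Cl → ℂ → ℝ) (m : ℕ) (σ : Bool) (t : HT) (u : Ch6) (τ : ℝ) : ℝ :=
  mN6 (sN m) m σ t u τ + MF m σ (bc6 t u) (pb6 t u τ)

/-- **the geometry with two letters** -/
def GL6 (G : Geo) (i : Ix6) : Geo where
  B m β := (G.B m β).mul (dvK6 i.1.1 i.1.2 i.2.1 i.2.2)
  one := G.one
  EM m := G.EM m + (mN6 (sN m) m true i.1.1 i.2.1.1 i.2.2.1 +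
    mN6 (sN m) m false i.1.2 i.2.1.2 i.2.2.2)
  MF := G.MF

/-- the bulk exponent with the atoms of the pair -/
theorem GL6_EM (G : Geo) (i : Ix6) (m : ℕ) : (GL6 G i).EM m =
    G.EM m + (∑ a, sN m a * mHS (atK6 i.1.1 i.1.2 i.2.1 i.2.2) a) +
      (pl6 m i.1.1 i.2.1.1 i.2.2.1 + pl6 m i.1.2 i.2.1.2 i.2.2.2) := by
  show G.EM m + (mN6 (sN m) m true i.1.1 i.2.1.1 i.2.2.1 +
    mN6 (sN m) m false i.1.2 i.2.1.2 i.2.2.2) = _
  unfold mN6
  rw [Fintype.sum_bool, Fintype.sum_bool, Fintype.sum_bool, mHS_atK6, mHS_atK6]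
  ring

theorem GL6_nn {G : Geo} (hB : ∀ m β, (G.B m β).Nn) (i : Ix6) (m : ℕ) (β : ℝ) :
    ((GL6 G i).B m β).Nn := fun a u => mul_nonneg (hB m β a u) (dvK6_pos _ _ _ _ _ _).le

end PBR.PLX

end
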