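import Pool.Agent.PLX.PB.QCG

/-!
# (P): the prefactors of a pair of half quanta with any finite set of choices, their integrals

`ι`: the choices of a pair of half quanta (captured quanta, holes); `pre y`: prefactor at the heights `y`;
`W y u`: weight of the choice `u`.

* **`PwOk`**: prefactor times weight of a choice is at most own factors times a direct factor, own bounds
  with the sea exponents `M u`, `M' u`, charges `q u`, `q' u` and extra own factors `f u`, `f' u`;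
* `QP`: the prefactor of a choice with the gain of the phases `ph u`, `ph' u`;
* `Sm`: a half quantum which is composite or whose extra factor is small in the bulk;
* **`int_cls6`**: the integral of a class all of whose choices have such a half quantum;
* **`int_ww6`**: a class with the phases `- 3 l`, over a set; **`near_ww6`**: in the window.
-/

set_option autoImplicit false
set_option linter.unusedSectionVars false

noncomputable section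

open MeasureTheory Finset
open scoped ENNReal

namespace PBQ.PLX

open NUGC NUGC.PLX NUO NUP1 NUCR NUP1S NURow NUP1.Leg NUP1.Bd
open PBO.PLX (gnP gnQ)

variable {ι : Type*}

/-- **own and direct factors of the choices of a pair of half quanta** -/
def PwOk (k : ℕ) (ep C CG : ℝ) (pre : ℝ × ℝ → ℂ) (W : ℝ × ℝ → ι → ℝ) (M M' : ι → ℝ → ℝ)
    (q q' : ι → ℝ) (f f' : ι → ℝ → ℝ) : Prop :=
  ∀ (y : ℝ × ℝ) (u : ι), ∃ κ κ' g : ℝ, 0 ≤ κ' ∧ 0 ≤ g ∧ ‖pre y‖ * W y u ≤ κ * κ' * g ∧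
    κ * Real.exp (M u y.1) ≤ C * f u y.1 * Real.exp (-|y.1|) * cut (Real.log k) ep (q u) y.1 ∧
    κ' * Real.exp (M' u y.2) ≤ C * f' u y.2 * Real.exp (-|y.2|) * cut (Real.log k) ep (q' u) y.2 ∧
    g ≤ CG * Real.exp (-((q u * q' u + 1) / 2) * |y.1 - y.2|)

/-- **the prefactor of a choice** (`A` = constant) with the gain -/
def QP (k : ℕ) (ep e1 J A : ℝ) (M M' : ι → ℝ → ℝ) (q q' ph ph' : ι → ℝ) (y : ℝ × ℝ) (u : ι) : ℝ :=
  A * (Real.exp (M u y.1) * Real.exp (M' u y.2) *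
    (fr (TW ep e1 k) (Real.log k) y * QX (TW ep e1 k) (q u) (q' u) y.1 y.2)) *
    Real.exp (-gnP e1 J k (ph u) (ph' u) y)

theorem QP_nonneg {k : ℕ} {ep e1 J A : ℝ} (hA : 0 ≤ A) (M M' : ι → ℝ → ℝ) (q q' ph ph' : ι → ℝ)
    (y : ℝ × ℝ) (u : ι) : 0 ≤ QP k ep e1 J A M M' q q' ph ph' y u :=
  mul_nonneg (mul_nonneg hA (mul_nonneg (mul_nonneg (Real.exp_pos _).le (Real.exp_pos _).le)
    (mul_nonneg (fr_nonneg _ _ _) (QX_nonneg _ _ _ _ _)))) (Real.exp_pos _).le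

/-- the constant of the own bounds -/
theorem PwOk.mono {k : ℕ} {ep C C' CG CG' : ℝ} {pre : ℝ × ℝ → ℂ} {W : ℝ × ℝ → ι → ℝ}
    {M M' : ι → ℝ → ℝ} {q q' : ι → ℝ} {f f' : ι → ℝ → ℝ} (h : PwOk k ep C CG pre W M M' q q' f f')
    (f0 : ∀ u τ, 0 ≤ f u τ) (f0' : ∀ u τ, 0 ≤ f' u τ) (hC : C ≤ C') (hG : CG ≤ CG') :
    PwOk k ep C' CG' pre W M M' q q' f f' := by
  intro y u
  obtain ⟨κ, κ', g, k0, g0, h1, h2, h3, h4⟩ := h y u
  have c1 := cut_nonneg (Real.log k) ep (q u) y.1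
  have c2 := cut_nonneg (Real.log k) ep (q' u) y.2
  have a1 := f0 u y.1
  have a2 := f0' u y.2
  refine ⟨κ, κ', g, k0, g0, h1, h2.trans ?_, h3.trans ?_, h4.trans ?_⟩
  · gcongr
  · gcongr
  · gcongr

/-- **one choice** -/
theorem pair_le6 {k : ℕ} {ep e1 J C CG : ℝ} {pre : ℝ × ℝ → ℂ} {W : ℝ × ℝ → ι → ℝ}
    {M M' : ι → ℝ → ℝ} {q q' : ι → ℝ} {f f' : ι → ℝ → ℝ} (hC : 0 ≤ C) (hCG : 0 ≤ CG)
    (h : PwOk k ep C CG pre W M M' q q' f f') (f0 : ∀ u τ, 0 ≤ f u τ) (f0' : ∀ u τ, 0 ≤ f' u τ)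
    (hep : 0 ≤ ep) (hep' : ep ≤ 1 / 100) (he1 : 0 ≤ e1) {A : ℝ} (hA : 0 ≤ A) (ph ph' : ι → ℝ)
    (y : ℝ × ℝ) (u : ι) :
    ‖pre y‖ * (W y u * QP k ep e1 J A M M' q q' ph ph' y u) ≤
      A * (C * C * CG) * (FM ep e1 k y * (f u y.1 * f' u y.2 *
        Real.exp (-gnP e1 J k (ph u) (ph' u) y))) := by
  have hL := log_nonneg' k
  obtain ⟨κ, κ', g, k0, g0, h1, h2, h3, h4⟩ := h y u
  have n1 := f0 u y.1
  have n2 := f0' u y.2
  have key := QX_use (q := q u) (q' := q' u) hL hep hep' he1 (TW_eq ep e1 k)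
    (mul_nonneg k0 (Real.exp_pos (M' u y.2)).le) g0 (mul_nonneg hC n1) (mul_nonneg hC n2) hCG h2 h3 h4
  unfold QP FM
  obtain ⟨E1, hE1⟩ : ∃ E1, E1 = Real.exp (M u y.1) := ⟨_, rfl⟩
  obtain ⟨E2, hE2⟩ : ∃ E2, E2 = Real.exp (M' u y.2) := ⟨_, rfl⟩
  obtain ⟨qx, hqx⟩ : ∃ qx, qx = QX (TW ep e1 k) (q u) (q' u) y.1 y.2 := ⟨_, rfl⟩
  obtain ⟨F, hF⟩ : ∃ F, F = fr (TW ep e1 k) (Real.log k) y := ⟨_, rfl⟩
  obtain ⟨G, hG⟩ : ∃ G, G = Real.exp (-gnP e1 J k (ph u) (ph' u) y) := ⟨_, rfl⟩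
  have E10 : 0 ≤ E1 := by rw [hE1]; exact (Real.exp_pos _).le
  have E20 : 0 ≤ E2 := by rw [hE2]; exact (Real.exp_pos _).le
  have qx0 : 0 ≤ qx := by rw [hqx]; exact QX_nonneg _ _ _ _ _
  have F0 : 0 ≤ F := by rw [hF]; exact fr_nonneg _ _ _
  have G0 : 0 ≤ G := by rw [hG]; exact (Real.exp_pos _).le
  rw [← hE1, ← hE2, ← hqx] at key
  rw [← hE1, ← hE2, ← hqx, ← hF, ← hG]
  calc ‖pre y‖ * (W y u * (A * (E1 * E2 * (F * qx)) * G))
      = ‖pre y‖ * W y u * (A * (E1 * E2 * (F * qx)) * G) := by ring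
    _ ≤ κ * κ' * g * (A * (E1 * E2 * (F * qx)) * G) :=
        mul_le_mul_of_nonneg_right h1 (by positivity)
    _ = A * F * G * (κ * E1 * (κ' * E2) * g * qx) := by ring
    _ ≤ A * F * G * (C * f u y.1 * (C * f' u y.2) * CG * MQ (TW ep e1 k) (y.1, y.2)) :=
        mul_le_mul_of_nonneg_left key (by positivity)
    _ = _ := by ring

/-- a half quantum with the phase `φ`, composite, or with an extra factor which is small in the bulk -/
def Sm (e1 : ℝ) (k : ℕ) (φ : ℝ) (f : ℝ → ℝ) : Prop :=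
  5 * l ≤ φ ∨ ∀ τ : ℝ, |τ| ≤ (1 - e1) * Tb (Real.log k) →
    f τ ≤ Real.exp (-(2 * (1 - e1) * Tb (Real.log k)))

section
variable {ep e1 J : ℝ} {k : ℕ} (he : 0 < e1) (he1 : e1 ≤ 1 / 100) (hep : 0 ≤ ep)
  (hep1 : ep ≤ 1 / 100) (hJ : 0 ≤ J) (hT : 20 ≤ Tb (Real.log k))
include he he1 hep hep1 hJ hT

/-- near bound of a choice with a composite half quantum, or with a small factor -/
theorem near_sm {φ φ' : ℝ} (hφ : -(3 * l) ≤ φ) (hφ' : -(3 * l) ≤ φ') {f f' : ℝ → ℝ}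
    (f0 : ∀ τ, 0 ≤ f τ) (f1 : ∀ τ, f τ ≤ 1) (f0' : ∀ τ, 0 ≤ f' τ) (f1' : ∀ τ, f' τ ≤ 1)
    (h : Sm e1 k φ f ∨ Sm e1 k φ' f') (z : ℝ × ℝ) :
    QI0 z * (f z.1 * f' z.2 * Real.exp (-gnP e1 J k φ φ' z)) ≤
      Real.exp (-(2 * (1 - e1) * Tb (Real.log k)) + 15) := by
  have hT0 : 0 ≤ Tb (Real.log k) := by linarith
  have q0 : 0 ≤ QI0 z := (Real.exp_pos _).le
  obtain ⟨q1, q2⟩ := PBO.PLX.QI0_le he he1 hJ hT z
  have q3 : QI0 z ≤ 1 := q1.trans (Real.exp_le_one_iff.2 (by linarith [abs_nonneg z.1]))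
  have g0 : 0 ≤ Real.exp (-gnP e1 J k φ φ' z) := (Real.exp_pos _).le
  have g1 : Real.exp (-gnP e1 J k φ φ' z) ≤ 1 := Real.exp_le_one_iff.2 (by
    have := PBO.PLX.gnP_nonneg he he1 hJ hT hφ hφ' z
    linarith)
  have ff : f z.1 * f' z.2 ≤ 1 := mul_le_one₀ (f1 _) (f0' _) (f1' _)
  have ff0 : 0 ≤ f z.1 * f' z.2 := mul_nonneg (f0 _) (f0' _)
  have comp : ∀ {ψ ψ' : ℝ}, ψ = φ → ψ' = φ' → (5 * l ≤ ψ ∨ 5 * l ≤ ψ') →
      QI0 z * (f z.1 * f' z.2 * Real.exp (-gnP e1 J k φ φ' z)) ≤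
        Real.exp (-(2 * (1 - e1) * Tb (Real.log k)) + 15) := by
    intro ψ ψ' h1 h2 hc
    subst h1 h2
    refine le_trans ?_ (near_comp he he1 hep hep1 hJ hT hφ hφ' hc z)
    exact mul_le_mul_of_nonneg_left (mul_le_of_le_one_left g0 ff) q0
  have small : f z.1 * f' z.2 ≤ Real.exp (-(2 * (1 - e1) * Tb (Real.log k))) →
      QI0 z * (f z.1 * f' z.2 * Real.exp (-gnP e1 J k φ φ' z)) ≤
        Real.exp (-(2 * (1 - e1) * Tb (Real.log k)) + 15) := by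
    intro hz
    have h1 : QI0 z * (f z.1 * f' z.2 * Real.exp (-gnP e1 J k φ φ' z)) ≤
        1 * (f z.1 * f' z.2 * 1) := by gcongr
    rw [one_mul, mul_one] at h1
    exact h1.trans (hz.trans (Real.exp_le_exp.2 (by linarith)))
  have far : ∀ {t : ℝ}, QI0 z ≤ Real.exp (-|t|) → (1 - e1) * Tb (Real.log k) ≤ |t| →
      (1 - e1) * Tb (Real.log k) - 6 ≤ gnP e1 J k φ φ' z →
      QI0 z * (f z.1 * f' z.2 * Real.exp (-gnP e1 J k φ φ' z)) ≤
        Real.exp (-(2 * (1 - e1) * Tb (Real.log k)) + 15) := by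
    intro t hq ht hg
    have h1 : QI0 z * (f z.1 * f' z.2 * Real.exp (-gnP e1 J k φ φ' z)) ≤
        Real.exp (-|t|) * (1 * Real.exp (-gnP e1 J k φ φ' z)) := by gcongr
    refine h1.trans ?_
    rw [one_mul, ← Real.exp_add]
    exact Real.exp_le_exp.2 (by linarith)
  rcases h with (h | h) | (h | h)
  · exact comp rfl rfl (Or.inl h)
  · rcases le_total (|z.1|) ((1 - e1) * Tb (Real.log k)) with h1 | h1
    · exact small ((mul_le_of_le_one_right (f0 _) (f1' _)).trans (h _ h1))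
    · have h0 : NUGC.PLX.hC e1 J k z.1 = 0 := hC_zero he he1 hT h1
      have h2 := PBO.PLX.gnP_of' he he1 hJ hT (φ := φ) (g := 0) hφ' (z := z) (by
        rw [h0, mul_zero, mul_zero])
      exact far q1 h1 (by linarith)
  · exact comp rfl rfl (Or.inr h)
  · rcases le_total (|z.2|) ((1 - e1) * Tb (Real.log k)) with h1 | h1
    · exact small ((mul_le_of_le_one_left (f0' _) (f1 _)).trans (h _ h1))
    · have h0 : NUGC.PLX.hC e1 J k z.2 = 0 := hC_zero he he1 hT h1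
      have h2 := PBO.PLX.gnP_of he he1 hJ hT (φ' := φ') (g := 0) hφ (z := z) (by
        rw [h0, mul_zero, mul_zero])
      exact far q2 h1 (by linarith)

variable [Fintype ι] {q q' ph ph' : ι → ℝ} {f f' : ι → ℝ → ℝ}

/-- **the majorant of a class all of whose choices are composite or have a small factor** -/
theorem lint_cls6 {δ : ℝ} (hδ : 0 < δ) (hδ1 : δ ≤ 1 / 4) (f0 : ∀ u τ, 0 ≤ f u τ)
    (f1 : ∀ u τ, f u τ ≤ 1) (f0' : ∀ u τ, 0 ≤ f' u τ) (f1' : ∀ u τ, f' u τ ≤ 1) {s : Finset ι}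
    (hφ : ∀ u ∈ s, -(3 * l) ≤ ph u) (hφ' : ∀ u ∈ s, -(3 * l) ≤ ph' u)
    (h : ∀ u ∈ s, Sm e1 k (ph u) (f u) ∨ Sm e1 k (ph' u) (f' u)) :
    ∫⁻ y, ENNReal.ofReal (FM ep e1 k y * ∑ u ∈ s, f u y.1 * f' u y.2 *
        Real.exp (-gnP e1 J k (ph u) (ph' u) y)) ≤
      ENNReal.ofReal (Fintype.card ι * KC δ * Real.exp (-((7 / 6 - e1 - 2 * δ) *
        Tb (Real.log k)))) := by
  obtain ⟨T1, T2⟩ := TW_b he he1 hep hep1 hJ hT
  rcases s.eq_empty_or_nonempty with hs | hs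
  · subst hs
    simp
  obtain ⟨N, hN⟩ : ∃ N : ℝ, N = Fintype.card ι := ⟨_, rfl⟩
  have hN0 : 0 < N := by
    rw [hN]
    obtain ⟨u, -⟩ := hs
    exact_mod_cast Fintype.card_pos_iff.2 ⟨u⟩
  have hcard : (s.card : ℝ) ≤ N := by
    rw [hN]
    exact_mod_cast s.card_le_univ
  have avg : ∀ {c B : ℝ} {g : ι → ℝ}, 0 ≤ B → (∀ u ∈ s, c * g u ≤ B) →
      c * ((∑ u ∈ s, g u) / N) ≤ B := by
    intro c B g hB hg
    have h1 : c * (∑ u ∈ s, g u) ≤ N * B := by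
      rw [mul_sum]
      calc ∑ u ∈ s, c * g u ≤ ∑ _u ∈ s, B := Finset.sum_le_sum hg
        _ = s.card * B := by rw [sum_const, nsmul_eq_mul]
        _ ≤ N * B := mul_le_mul_of_nonneg_right hcard hB
    rw [← mul_div_assoc, div_le_iff₀ hN0, mul_comm B]
    exact h1
  have key := PBO.PLX.cls_two he he1 hJ hT hδ hδ1 (K := 15) T1 T2
    (w := fun y => (∑ u ∈ s, f u y.1 * f' u y.2 * Real.exp (-gnP e1 J k (ph u) (ph' u) y)) / N)
    (fun z _ _ => avg (Real.exp_pos _).le fun u hu =>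
      near_sm he he1 hep hep1 hJ hT (hφ u hu) (hφ' u hu) (f0 u) (f1 u) (f0' u) (f1' u) (h u hu) z)
    (fun z hz => by
      have := avg (c := 1) (g := fun u => f u z.1 * f' u z.2 *
        Real.exp (-gnP e1 J k (ph u) (ph' u) z))
        (Real.exp_pos (-((1 - e1) * Tb (Real.log k)) + 6)).le fun u hu => by
          rw [one_mul]
          have h1 := PBO.PLX.gnP_far he he1 hJ hT (hφ u hu) (hφ' u hu) T1 hz
          have ff : f u z.1 * f' u z.2 ≤ 1 := mul_le_one₀ (f1 _ _) (f0' _ _) (f1' _ _)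
          exact (mul_le_of_le_one_left (Real.exp_pos _).le ff).trans
            (Real.exp_le_exp.2 (by linarith))
      rwa [one_mul] at this)
  have e : ∀ y, ENNReal.ofReal (FM ep e1 k y * ∑ u ∈ s, f u y.1 * f' u y.2 *
        Real.exp (-gnP e1 J k (ph u) (ph' u) y)) =
      ENNReal.ofReal N * ENNReal.ofReal (fr (TW ep e1 k) (Real.log k) y * MQ (TW ep e1 k) y *
        ((∑ u ∈ s, f u y.1 * f' u y.2 * Real.exp (-gnP e1 J k (ph u) (ph' u) y)) / N)) := fun y => by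
    rw [← ENNReal.ofReal_mul hN0.le]
    congr 1
    unfold FM
    field_simp
  simp only [e]
  rw [lintegral_const_mul' _ _ ENNReal.ofReal_ne_top]
  refine (mul_le_mul' le_rfl key).trans ?_
  rw [← ENNReal.ofReal_mul hN0.le, ← hN]
  refine ENNReal.ofReal_le_ofReal (le_of_eq ?_)
  unfold KC
  ring

variable {C CG A : ℝ} {pre : ℝ × ℝ → ℂ} {W : ℝ × ℝ → ι → ℝ} {M M' : ι → ℝ → ℝ}

/-- **a class all of whose choices of weight `≠ 0` are composite or have a small factor** -/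
theorem int_cls6 (hC : 0 ≤ C) (hCG : 0 ≤ CG) (hA : 0 ≤ A)
    (hW : PwOk k ep C CG pre W M M' q q' f f') (f0 : ∀ u τ, 0 ≤ f u τ) (f1 : ∀ u τ, f u τ ≤ 1)
    (f0' : ∀ u τ, 0 ≤ f' u τ) (f1' : ∀ u τ, f' u τ ≤ 1) {δ : ℝ} (hδ : 0 < δ) (hδ1 : δ ≤ 1 / 4)
    {s : Finset ι} (hs : ∀ u, u ∉ s → ∀ y, W y u = 0)
    (hφ : ∀ u ∈ s, -(3 * l) ≤ ph u) (hφ' : ∀ u ∈ s, -(3 * l) ≤ ph' u)
    (h : ∀ u ∈ s, Sm e1 k (ph u) (f u) ∨ Sm e1 k (ph' u) (f' u)) :
    ∫⁻ y, ‖pre y‖ₑ * ENNReal.ofReal (∑ u, W y u * QP k ep e1 J A M M' q q' ph ph' y u) ≤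
      ENNReal.ofReal (A * (C * C * CG) * (Fintype.card ι * KC δ) *
        Real.exp (-((7 / 6 - e1 - 2 * δ) * Tb (Real.log k)))) := by
  have hB : 0 ≤ A * (C * C * CG) := by positivity
  calc ∫⁻ y, ‖pre y‖ₑ * ENNReal.ofReal (∑ u, W y u * QP k ep e1 J A M M' q q' ph ph' y u)
      ≤ ∫⁻ y, ENNReal.ofReal (A * (C * C * CG)) * ENNReal.ofReal (FM ep e1 k y * ∑ u ∈ s,
          f u y.1 * f' u y.2 * Real.exp (-gnP e1 J k (ph u) (ph' u) y)) := by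
        refine lintegral_mono fun y => ?_
        rw [← ofReal_norm, ← ENNReal.ofReal_mul (norm_nonneg _), ← ENNReal.ofReal_mul hB]
        refine ENNReal.ofReal_le_ofReal ?_
        rw [← Finset.sum_subset (Finset.subset_univ s) (fun u _ hu => by
          rw [hs u hu y, zero_mul]), mul_sum, mul_sum, mul_sum]
        exact Finset.sum_le_sum fun u _ =>
          pair_le6 hC hCG hW f0 f0' hep hep1 he.le hA ph ph' y u
    _ = ENNReal.ofReal (A * (C * C * CG)) * ∫⁻ y, ENNReal.ofReal (FM ep e1 k y * ∑ u ∈ s,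
          f u y.1 * f' u y.2 * Real.exp (-gnP e1 J k (ph u) (ph' u) y)) :=
        lintegral_const_mul' _ _ ENNReal.ofReal_ne_top
    _ ≤ _ := by
        refine (mul_le_mul' le_rfl (lint_cls6 he he1 hep hep1 hJ hT hδ hδ1 f0 f1 f0' f1' hφ hφ'
          h)).trans ?_
        rw [← ENNReal.ofReal_mul hB]
        refine ENNReal.ofReal_le_ofReal (le_of_eq ?_)
        ring

/-- one choice at one pair of heights, extra factors `≤ 1` -/
theorem pair_le_one6 (hC : 0 ≤ C) (hCG : 0 ≤ CG) (hA : 0 ≤ A)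
    (hW : PwOk k ep C CG pre W M M' q q' f f') (f0 : ∀ u τ, 0 ≤ f u τ) (f1 : ∀ u τ, f u τ ≤ 1)
    (f0' : ∀ u τ, 0 ≤ f' u τ) (f1' : ∀ u τ, f' u τ ≤ 1) {u0 : ι}
    (hs : ∀ u, u ≠ u0 → ∀ y, W y u = 0) (hφ : ph u0 = -(3 * l)) (hφ' : ph' u0 = -(3 * l))
    (y : ℝ × ℝ) :
    ‖pre y‖ * (∑ u, W y u * QP k ep e1 J A M M' q q' ph ph' y u) ≤
      A * (C * C * CG) * (FM ep e1 k y * Real.exp (-gnP e1 J k (-(3 * l)) (-(3 * l)) y)) := by
  rw [Finset.sum_eq_single u0 (fun u _ hu => by rw [hs u hu y, zero_mul])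
    fun h => absurd (mem_univ _) h]
  refine (pair_le6 hC hCG hW f0 f0' hep hep1 he.le hA ph ph' y u0).trans ?_
  rw [hφ, hφ']
  have ff : f u0 y.1 * f' u0 y.2 ≤ 1 := mul_le_one₀ (f1 _ _) (f0' _ _) (f1' _ _)
  have hM := FM_nonneg ep e1 k y
  refine mul_le_mul_of_nonneg_left (mul_le_mul_of_nonneg_left ?_ hM) (by positivity)
  exact mul_le_of_le_one_left (Real.exp_pos _).le ff

/-- **a class with one choice of phases `- 3 l`, outside the near set** -/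
theorem int_ww6 (hC : 0 ≤ C) (hCG : 0 ≤ CG) (hA : 0 ≤ A)
    (hW : PwOk k ep C CG pre W M M' q q' f f') (f0 : ∀ u τ, 0 ≤ f u τ) (f1 : ∀ u τ, f u τ ≤ 1)
    (f0' : ∀ u τ, 0 ≤ f' u τ) (f1' : ∀ u τ, f' u τ ≤ 1) {δ : ℝ} (hδ : 0 < δ) (hδ1 : δ ≤ 1 / 4)
    {u0 : ι} (hs : ∀ u, u ≠ u0 → ∀ y, W y u = 0) (hφ : ph u0 = -(3 * l))
    (hφ' : ph' u0 = -(3 * l)) {κ : ℝ} {S : Set (ℝ × ℝ)} (hS : MeasurableSet S)
    (hκ : ∀ z ∈ S, κ ≤ 2 * |z.1| + 2 * |z.2| + |z.1 - z.2| / 2) :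
    ∫⁻ y in S, ‖pre y‖ₑ * ENNReal.ofReal (∑ u, W y u * QP k ep e1 J A M M' q q' ph ph' y u) ≤
      ENNReal.ofReal (A * (C * C * CG) * (4 * (δ⁻¹) ^ 2 * Real.exp 20 *
          Real.exp (-(κ - (6 * e1 + 4 * ep + 4 * δ) * Tb (Real.log k))) +
        3000 * (δ⁻¹) ^ 2 * Real.exp 6 *
          Real.exp (-((7 / 6 - e1 - 2 * δ) * Tb (Real.log k))))) := by
  have hB : 0 ≤ A * (C * C * CG) := by positivity
  have key := PBO.PLX.cls_ww he he1 hJ hT hδ hδ1 hep hep1 (T := TW ep e1 k) rfl hS hκ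
  calc ∫⁻ y in S, ‖pre y‖ₑ *
        ENNReal.ofReal (∑ u, W y u * QP k ep e1 J A M M' q q' ph ph' y u)
      ≤ ∫⁻ y in S, ENNReal.ofReal (A * (C * C * CG)) *
          ENNReal.ofReal (fr (TW ep e1 k) (Real.log k) y * MQ (TW ep e1 k) y *
            Real.exp (-gnP e1 J k (-(3 * l)) (-(3 * l)) y)) := by
        refine lintegral_mono fun y => ?_
        rw [← ofReal_norm, ← ENNReal.ofReal_mul (norm_nonneg _), ← ENNReal.ofReal_mul hB]
        exact ENNReal.ofReal_le_ofReal (pair_le_one6 he he1 hep hep1 hJ hT hC hCG hA hW f0 f1 f0'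
          f1' hs hφ hφ' y)
    _ = ENNReal.ofReal (A * (C * C * CG)) * ∫⁻ y in S,
          ENNReal.ofReal (fr (TW ep e1 k) (Real.log k) y * MQ (TW ep e1 k) y *
            Real.exp (-gnP e1 J k (-(3 * l)) (-(3 * l)) y)) :=
        lintegral_const_mul' _ _ ENNReal.ofReal_ne_top
    _ ≤ _ := by
        refine (mul_le_mul' le_rfl key).trans ?_
        rw [← ENNReal.ofReal_mul hB]

/-- **a class with one choice of phases `- 3 l` in the window** -/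
theorem near_ww6 (hC : 0 ≤ C) (hCG : 0 ≤ CG) (hA : 0 ≤ A)
    (hW : PwOk k ep C CG pre W M M' q q' f f') (f0 : ∀ u τ, 0 ≤ f u τ) (f1 : ∀ u τ, f u τ ≤ 1)
    (f0' : ∀ u τ, 0 ≤ f' u τ) (f1' : ∀ u τ, f' u τ ≤ 1)
    {u0 : ι} (hs : ∀ u, u ≠ u0 → ∀ y, W y u = 0) (hφ : ph u0 = -(3 * l))
    (hφ' : ph' u0 = -(3 * l)) {y : ℝ × ℝ} (h1 : |y.1| ≤ TW ep e1 k) (h2 : |y.2| ≤ TW ep e1 k) :
    ‖pre y‖ * (∑ u, W y u * QP k ep e1 J A M M' q q' ph ph' y u) ≤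
      A * (C * C * CG) * (Real.exp (20 + (6 * e1 + 4 * ep) * Tb (Real.log k)) *
        Real.exp (-(2 * |y.1| + 2 * |y.2| + |y.1 - y.2| / 2))) := by
  have hT0 : 0 ≤ Tb (Real.log k) := by linarith
  have hB : 0 ≤ A * (C * C * CG) := by positivity
  refine (pair_le_one6 he he1 hep hep1 hJ hT hC hCG hA hW f0 f1 f0' f1' hs hφ hφ' y).trans ?_
  refine mul_le_mul_of_nonneg_left ?_ hB
  unfold FM fr MQ
  rw [if_pos ⟨h1, h2⟩, if_pos ⟨h1, h2⟩, one_mul]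
  unfold QI0
  rw [← Real.exp_add, ← Real.exp_add]
  refine Real.exp_le_exp.2 ?_
  have g1 : min (|y.1|) (DC e1 k) + min (|y.2|) (DC e1 k) - 16 ≤
      gnP e1 J k (-(3 * l)) (-(3 * l)) y := PBO.PLX.gnP_ww he he1 hJ hT y
  have hD : DC e1 k = (1 - e1) * Tb (Real.log k) - 2 := rfl
  have hTW : TW ep e1 k = (1 + 2 * e1 + 2 * ep) * Tb (Real.log k) := rfl
  have h3 : TW ep e1 k - DC e1 k = (3 * e1 + 2 * ep) * Tb (Real.log k) + 2 := by
    rw [hD, hTW]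
    ring
  have hmin : ∀ x : ℝ, x ≤ TW ep e1 k → x - ((3 * e1 + 2 * ep) * Tb (Real.log k) + 2) ≤
      min x (DC e1 k) := by
    intro x hx
    refine le_min ?_ (by linarith)
    have : 0 ≤ (3 * e1 + 2 * ep) * Tb (Real.log k) := by positivity
    linarith
  have h4 := hmin _ h1
  have h5 := hmin _ h2
  linarith

end

end PBQ.PLX

end
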