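import Pool.Agent.PHK.KClsP6
import Pool.Agent.PHK.Cls6
import Pool.Agent.PHK.GL6
import Pool.Agent.PHK.QCG6

/-!
# (P): the choices of the final classes, summed over the numbers, uniform in the heights

* `shV6`, `aXY_V6`: shift and numbers of extra quanta of a choice; `sum_pole6`: the sum over the numbers
  with quanta at the simple poles;
* **`grpR_pair6`**, **`grpR_one6`**: two groups, one neutral group are admissible, price `QX`;
* `sFA6`: the sum over the numbers of a choice; `QR6`: its prefactor (`PBQ.PLX.QP`);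
* **`clsR6`**: the sums over the numbers of all choices of all classes, constants uniform in the heights, and
  the classes D1, D1';
* **`cls_sum6`**, **`cls_le6s`**: a class from its choices; `cls_le6D`: D1, D1'.
-/

set_option autoImplicit false
set_option linter.unusedSectionVars false

noncomputable section

open Complex MeasureTheory Finset
open scoped ENNReal

open PLX (Fil Ends)

namespace PBR.PLX

open NUO NUP1 NUCR NUP1S NUP1S.Ab NUP1S.AbC NUP1S.AbG NURow NUP1.Leg NUGC.PLX PBX PBX.PLX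
open _root_.Pool.Agent.PLX
open PHK
open PBF.PLX (Ins Crs)
open PBO.PLX (Geo GrpR S4R6 OneR6 SpecPin6 KBd6 gnF gnP gnQ phC clsKU6 clsK6)
open NUSea.PLX.H0 (Gd IG TG cstF)
open NUSp (qc)
open NUGC (ex xs QX fr QX_nonneg)

/-! ### the numbers -/

/-- shift of the number of quanta of a choice -/
def shV6 (e : ℕ) (t t' : HT) (u : Ch6 × Ch6) : ℕ :=
  max (u.1.1.toNat - aXv e t t' u) (u.2.1.toNat - aYv e t t' u)

theorem shV6_X (e : ℕ) (t t' : HT) (u : Ch6 × Ch6) :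
    u.1.1.toNat ≤ aXv e t t' u + shV6 e t t' u := by
  have : u.1.1.toNat - aXv e t t' u ≤ shV6 e t t' u := le_max_left _ _
  omega

theorem shV6_Y (e : ℕ) (t t' : HT) (u : Ch6 × Ch6) :
    u.2.1.toNat ≤ aYv e t t' u + shV6 e t t' u := by
  have : u.2.1.toNat - aYv e t t' u ≤ shV6 e t t' u := le_max_right _ _
  omega

theorem shV6_0 (e : ℕ) (t t' : HT) (u : Ch6 × Ch6) : shV6 e t t' u = 0 ∨
    u.1.1.toNat = aXv e t t' u + shV6 e t t' u ∨ u.2.1.toNat = aYv e t t' u + shV6 e t t' u := by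
  rcases max_choice (u.1.1.toNat - aXv e t t' u) (u.2.1.toNat - aYv e t t' u) with h | h
  · have h' : shV6 e t t' u = u.1.1.toNat - aXv e t t' u := h
    omega
  · have h' : shV6 e t t' u = u.2.1.toNat - aYv e t t' u := h
    omega

theorem shV6_le (e : ℕ) (t t' : HT) (u : Ch6 × Ch6) : shV6 e t t' u ≤ 1 := by
  have h1 : u.1.1.toNat ≤ 1 := Bool.toNat_le _
  have h2 : u.2.1.toNat ≤ 1 := Bool.toNat_le _
  exact max_le (by omega) (by omega)

/-- extra quanta X of a choice after the shift -/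
def nXv (e : ℕ) (t t' : HT) (u : Ch6 × Ch6) : ℕ := aXv e t t' u + shV6 e t t' u - u.1.1.toNat

/-- extra quanta Y of a choice after the shift -/
def nYv (e : ℕ) (t t' : HT) (u : Ch6 × Ch6) : ℕ := aYv e t t' u + shV6 e t t' u - u.2.1.toNat

/-- the charge of an allowed hole -/
private theorem hole_D {t : HT} {u : Ch6} (h : okC6 t u) (h2 : u.2 = true) : 1 ≤ htD t := by
  rcases h.2 h2 with rfl | rfl <;> decide

/-- **the numbers of extra quanta of a choice**, `e` additional quanta Y -/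
theorem aXY_V6 (e : ℕ) {t t' : HT} {u : Ch6 × Ch6} (h : okC6 t u.1) (h' : okC6 t' u.2) :
    nXv e t t' u ≤ 3 ∧ nYv e t t' u ≤ e + 3 ∧ e ≤ nYv e t t' u + 3 ∧
    ((nXv e t t' u : ℕ) : ℝ) + e - ((nYv e t t' u : ℕ) : ℝ) =
      ((htD t : ℝ) - (u.1.1.toNat : ℝ) - (u.1.2.toNat : ℝ)) -
        ((htD t' : ℝ) - (u.2.1.toNat : ℝ) - (u.2.2.toNat : ℝ)) := by
  have h1 := shV6_X e t t' u
  have h2 := shV6_Y e t t' u
  have h3 := shV6_le e t t' u
  have h4 := aXt_le e t t'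
  have h5 := aYt_le e t t'
  have h6 := le_aYt e t t'
  have h7 := aXt_add e t t'
  have h8 := aYt_add e t t'
  have h9 : u.1.1.toNat ≤ 1 := Bool.toNat_le _
  have h10 : u.2.1.toNat ≤ 1 := Bool.toNat_le _
  have h11 : u.1.2.toNat ≤ 1 := Bool.toNat_le _
  have h12 : u.2.2.toNat ≤ 1 := Bool.toNat_le _
  have hN := htN_le e t t'
  have k1 : aXv e t t' u ≤ 2 := by
    unfold aXv
    cases hc : u.2.2
    · simpa using h4
    · have := hole_D h' hc
      simp only [Bool.toNat_true]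
      omega
  have k2 : aYv e t t' u ≤ e + 2 := by
    unfold aYv
    cases hc : u.1.2
    · simpa using h5
    · have := hole_D h hc
      simp only [Bool.toNat_true]
      omega
  have k3 : e ≤ aYv e t t' u + 2 := by
    unfold aYv
    omega
  unfold nXv nYv
  refine ⟨by omega, by omega, by omega, ?_⟩
  rw [Nat.cast_sub h1, Nat.cast_sub h2]
  have e7 : ((aXt e t t' : ℕ) : ℝ) + htD t' = htN e t t' := by exact_mod_cast h7
  have e8 : ((aYt e t t' : ℕ) : ℝ) + htD t = htN e t t' + e := by exact_mod_cast h8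
  have e9 : ((aXv e t t' u : ℕ) : ℝ) = aXt e t t' + u.2.2.toNat := by
    unfold aXv
    push_cast
    rfl
  have e10 : ((aYv e t t' u : ℕ) : ℝ) = aYt e t t' + u.1.2.toNat := by
    unfold aYv
    push_cast
    rfl
  push_cast
  rw [e9, e10]
  linarith

/-- **the sum over the numbers with quanta at the simple poles**: `n = N + s` -/
theorem sum_pole6 (f : ℕ → ℕ → ℝ≥0∞) {AX AY mX mY s K : ℕ} (hs : mX ≤ AX + s) (hs' : mY ≤ AY + s)
    (h0 : s = 0 ∨ mX = AX + s ∨ mY = AY + s) :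
    ∑ n ∈ range K, (if mX ≤ n + AX ∧ mY ≤ n + AY then f (n + AX - mX) (n + AY - mY) else 0) ≤
      ∑ N ∈ range K, f (N + (AX + s - mX)) (N + (AY + s - mY)) := by
  classical
  rw [← Finset.sum_filter]
  have hsn : ∀ n, (mX ≤ n + AX ∧ mY ≤ n + AY) → s ≤ n := by
    rintro n ⟨h1, h2⟩
    rcases h0 with h0 | h0 | h0
    · omega
    · omega
    · omega
  calc ∑ n ∈ (range K).filter (fun n => mX ≤ n + AX ∧ mY ≤ n + AY), f (n + AX - mX) (n + AY - mY)
      = ∑ n ∈ (range K).filter (fun n => mX ≤ n + AX ∧ mY ≤ n + AY),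
          f ((n - s) + (AX + s - mX)) ((n - s) + (AY + s - mY)) := by
        refine Finset.sum_congr rfl fun n hn => ?_
        have h1 := (Finset.mem_filter.1 hn).2
        have h2 := hsn n h1
        have e1 : n + AX - mX = n - s + (AX + s - mX) := by omega
        have e2 : n + AY - mY = n - s + (AY + s - mY) := by omega
        rw [e1, e2]
    _ = ∑ N ∈ ((range K).filter (fun n => mX ≤ n + AX ∧ mY ≤ n + AY)).image (fun n => n - s),
          f (N + (AX + s - mX)) (N + (AY + s - mY)) := by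
        rw [Finset.sum_image]
        intro n hn n' hn' he
        have h1 := hsn n (Finset.mem_filter.1 hn).2
        have h2 := hsn n' (Finset.mem_filter.1 hn').2
        simp only at he
        omega
    _ ≤ _ := by
        refine Finset.sum_le_sum_of_subset ?_
        intro N hN
        obtain ⟨n, hn, rfl⟩ := Finset.mem_image.1 hN
        have h1 := Finset.mem_range.1 (Finset.mem_filter.1 hn).1
        exact Finset.mem_range.2 (by omega)

/-! ### the groups -/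

section grp

variable [Fil] [Ends]

private theorem ex_nn (T q τ : ℝ) : 0 ≤ ex T q τ := by
  unfold ex xs
  split_ifs
  · exact le_rfl
  · exact le_max_right _ _

/-- **two groups, none of them neutral**: price `QX` -/
theorem grpR_pair6 : ∃ K2 : ℝ, 0 ≤ K2 ∧ ∀ (ep e1 : ℝ), 0 ≤ ep → 0 ≤ e1 → ∀ (m : ℕ) (g : Fin 2 → Gd),
    (g 0).σ = true → (g 1).σ = false → (∀ i, (g i).c ≠ .d) → ∀ aX aY : ℕ, aX ≤ 3 →
    aY ≤ Fil.xe m + 3 → Fil.xe m ≤ aY + 3 →
    (aX : ℝ) + Fil.xe m - aY = -∑ i, NUC43.sg (g i).σ * qc (g i).c / 2 →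
    GrpR ep e1 m g aX aY m
      (max (ex (TW ep e1 m) (qc (g 0).c) (g 0).τ) (ex (TW ep e1 m) (qc (g 1).c) (g 1).τ))
      (Real.exp K2 * QX (TW ep e1 m) (qc (g 0).c) (qc (g 1).c) (g 0).τ (g 1).τ) := by
  obtain ⟨K2, hK2, hQ2⟩ := grp_QX
  refine ⟨K2, hK2, fun ep e1 hep he1 m g h0 h1 hd aX aY a1 a2 a3 hq => ?_⟩
  have hT : 0 ≤ TW ep e1 m := PBO.PLX.TWK_nonneg hep he1 m
  have hexc : ∀ (c : NUSp.Cl) (τ : ℝ), c ≠ .d → c = .w ∨ |τ| ≤ TW ep e1 m +
      ex (TW ep e1 m) (qc c) τ := by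
    intro c τ hc
    rcases eq_or_ne c .w with hw | hw
    · exact Or.inl hw
    · right
      have : qc c ≠ 1 := by
        revert hc hw
        cases c <;> norm_num [qc]
      unfold ex xs
      rw [if_neg this]
      linarith [le_max_left (|τ| - TW ep e1 m) 0]
  set E : ℝ := max (ex (TW ep e1 m) (qc (g 0).c) (g 0).τ)
    (ex (TW ep e1 m) (qc (g 1).c) (g 1).τ) with hE
  have hE1 : ex (TW ep e1 m) (qc (g 0).c) (g 0).τ ≤ E := le_max_left _ _
  have hE2 : ex (TW ep e1 m) (qc (g 1).c) (g 1).τ ≤ E := le_max_right _ _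
  have hE0 : 0 ≤ E := (ex_nn _ _ _).trans hE1
  have hall : ∀ i, (g i).c = .w ∨ |(g i).τ| ≤ TW ep e1 m + E := by
    intro i
    fin_cases i
    · rcases hexc (g 0).c (g 0).τ (hd 0) with h | h
      · exact Or.inl h
      · right
        show |(g 0).τ| ≤ _
        linarith
    · rcases hexc (g 1).c (g 1).τ (hd 1) with h | h
      · exact Or.inl h
      · right
        show |(g 1).τ| ≤ _
        linarith
  refine ⟨le_rfl, ?_, a1, a2, a3, hq, by simp, hE0, ?_, ?_, ?_⟩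
  · intro i j hij
    fin_cases i <;> fin_cases j
    · exact absurd rfl hij
    · show (g 0).σ ≠ (g 1).σ
      rw [h0, h1]
      simp
    · show (g 1).σ ≠ (g 0).σ
      rw [h0, h1]
      simp
    · exact absurd rfl hij
  · intro i
    rcases hall i with h | h
    · exact Or.inl h
    · exact Or.inr (Or.inr h)
  · exact mul_nonneg (Real.exp_pos _).le (QX_nonneg _ _ _ _ _)
  · intro T1 hT1
    refine ⟨max (xs T1 (g 0).τ) (xs T1 (g 1).τ), (le_max_right _ _).trans (le_max_left _ _), ?_, ?_⟩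
    · intro i
      fin_cases i
      · exact le_max_left (xs T1 (g 0).τ) (xs T1 (g 1).τ)
      · exact le_max_right (xs T1 (g 0).τ) (xs T1 (g 1).τ)
    · have k1 := hQ2 g h0 h1 hd (TW ep e1 m) T1 hT (by linarith) (by
        intro i
        rcases hall i with h | h
        · exact Or.inl h
        · exact Or.inr (h.trans hT1))
      rw [← hq] at k1
      refine le_trans (le_of_eq ?_) k1
      unfold enQ
      congr 1
      rw [hE]
      ring

/-- **one neutral group** -/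
theorem grpR_one6 : ∃ K1 : ℝ, 0 ≤ K1 ∧ ∀ (ep e1 : ℝ) (m : ℕ) (o : Bool) (τ : ℝ),
    GrpR ep e1 m (gdD o τ) 0 (Fil.xe m) m 0
      (Real.exp K1 * Real.exp (37 / 20 * xs (TW ep e1 m) τ)) := by
  obtain ⟨K1, hK1, hQ1⟩ := one_QX
  refine ⟨K1, hK1, fun ep e1 m o τ => ?_⟩
  have hq : ((0 : ℕ) : ℝ) + Fil.xe m - ((Fil.xe m : ℕ) : ℝ) =
      -∑ i, NUC43.sg (gdD o τ i).σ * qc (gdD o τ i).c / 2 := by
    rw [Fin.sum_univ_one]
    show ((0 : ℕ) : ℝ) + Fil.xe m - ((Fil.xe m : ℕ) : ℝ) = -(NUC43.sg (!o) * qc .d / 2)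
    simp [qc]
  refine ⟨by norm_num, ?_, by norm_num, Nat.le_add_right _ _, Nat.le_add_right _ _, hq, by simp,
    le_rfl, fun i => Or.inr (Or.inl rfl), by positivity, ?_⟩
  · intro i j hij
    exact absurd (Subsingleton.elim i j) hij
  · intro T1 hT1
    refine ⟨xs T1 τ, le_max_right _ _, fun i => le_rfl, ?_⟩
    have k1 := hQ1 (gdD o τ) rfl (TW ep e1 m) T1 (by linarith)
    rw [← hq] at k1
    refine le_trans (le_of_eq ?_) k1
    unfold enQ
    congr 1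
    show _ + (37 / 20 * xs T1 τ + 12 / 5 * 0) = _ + 37 / 20 * xs T1 τ
    ring

end grp

/-! ### the sums over the numbers -/

section fil

variable [Fil]

/-- **the sum over the numbers of a choice**, moduli -/
def sFA6 (X : Bool → Option O3 → ℂ → ℂ) (P : Par6) (e K : ℕ) (t t' : HT) (w w' : ℂ) (u : Ch6 × Ch6)
    (η η' : ℝ → ℝ) : ℝ≥0∞ :=
  ∑ n ∈ range (K + 1), if u.1.1.toNat ≤ n + aXv e t t' u ∧ u.2.1.toNat ≤ n + aYv e t t' u then
    FA6 (YV6 X t t' w w' u) P (n + aXv e t t' u - u.1.1.toNat) (n + aYv e t t' u - u.2.1.toNat)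
      (fun _ _ => η) (fun _ _ => η') (fun _ _ _ _ _ => 1) else 0

/-- the shifted sum -/
theorem sFA6_le (X : Bool → Option O3 → ℂ → ℂ) (P : Par6) (e K : ℕ) (t t' : HT) (w w' : ℂ)
    (u : Ch6 × Ch6) (η η' : ℝ → ℝ) : sFA6 X P e K t t' w w' u η η' ≤
      ∑ N ∈ range (K + 1), FA6 (YV6 X t t' w w' u) P (N + nXv e t t' u) (N + nYv e t t' u)
        (fun _ _ => η) (fun _ _ => η') (fun _ _ _ _ _ => 1) :=
  sum_pole6 (fun p q => FA6 (YV6 X t t' w w' u) P p q (fun _ _ => η) (fun _ _ => η')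
    (fun _ _ _ _ _ => 1)) (shV6_X e t t' u) (shV6_Y e t t' u) (shV6_0 e t t' u)

/-- a bounded insertion -/
theorem FA6_cst {Z : Bool → Option O3 → ℂ → ℂ} {P : Par6} {n n' : ℕ} {η η' : Crs} {Ψ : Ins} {c : ℝ}
    (h : ∀ r O a b x, ‖Ψ r O a b x‖ ≤ c) : FA6 Z P n n' η η' Ψ ≤
      ENNReal.ofReal c * FA6 Z P n n' η η' (fun _ _ _ _ _ => 1) := by
  unfold FA6
  rw [Finset.mul_sum]
  refine Finset.sum_le_sum fun r _ => ?_
  rw [mul_left_comm]
  refine mul_le_mul' le_rfl ?_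
  rw [← lintegral_const_mul' _ _ ENNReal.ofReal_ne_top]
  refine lintegral_mono fun O => ?_
  unfold trA6
  split_ifs with hc
  · rw [mul_left_comm (ENNReal.ofReal c), mul_left_comm (ENNReal.ofReal c)]
    refine mul_le_mul' le_rfl (mul_le_mul' le_rfl ?_)
    rw [← lintegral_const_mul' _ _ ENNReal.ofReal_ne_top]
    refine lintegral_mono fun x => ?_
    rw [mul_left_comm (ENNReal.ofReal c)]
    refine mul_le_mul' le_rfl ?_
    rw [← ofReal_norm, enorm_one, mul_one]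
    exact ENNReal.ofReal_le_ofReal (h _ _ _ _ _)
  · rw [mul_zero]

/-- **the sum over the numbers of a class from those of its choices** -/
theorem cls_sum6 {X : Bool → Option O3 → ℂ → ℂ} {P : Par6} {x : ℝ} {e : ℕ} {t t' : HT} {w w' : ℂ}
    {cw : Ch6 × Ch6 → ℝ} {Zn : ℕ → ℂ} (h : ClsV6 X P x e t t' w w' cw Zn) {η η' : ℝ → ℝ}
    (hη : CurB x η η') (K : ℕ) : ∑ n ∈ range (K + 1), ‖Zn n‖ₑ ≤
      ∑ u, ENNReal.ofReal (cw u) * sFA6 X P e K t t' w w' u η η' := by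
  unfold sFA6
  simp_rw [Finset.mul_sum]
  rw [Finset.sum_comm]
  refine Finset.sum_le_sum fun n _ => ?_
  obtain ⟨Ψ, hΨ, hn⟩ := h (fun _ _ _ => η) (fun _ _ _ => η') (fun _ _ _ => hη) n
  rw [hn]
  refine (enorm_sum_le _ _).trans (Finset.sum_le_sum fun u _ => ?_)
  split_ifs
  · exact (FF6_le _).trans (FA6_cst (hΨ u))
  · simp

/-- **the sum over the numbers of a class**, real form -/
theorem cls_le6s {X : Bool → Option O3 → ℂ → ℂ} {P : Par6} {x : ℝ} {e : ℕ} {t t' : HT} {w w' : ℂ}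
    {cw Q : Ch6 × Ch6 → ℝ} {Zn : ℕ → ℂ} (h : ClsV6 X P x e t t' w w' cw Zn) {η η' : ℝ → ℝ}
    (hη : CurB x η η') {K : ℕ} (hcw : ∀ u, 0 ≤ cw u) (hQ : ∀ u, 0 ≤ Q u)
    (hs : ∀ u, cw u ≠ 0 → sFA6 X P e K t t' w w' u η η' ≤ ENNReal.ofReal (Q u)) :
    ∑ n ∈ range (K + 1), ‖Zn n‖ ≤ ∑ u, cw u * Q u := by
  have h0 : 0 ≤ ∑ u, cw u * Q u := Finset.sum_nonneg fun u _ => mul_nonneg (hcw u) (hQ u)
  have key : ∑ n ∈ range (K + 1), ‖Zn n‖ₑ ≤ ENNReal.ofReal (∑ u, cw u * Q u) := by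
    refine (cls_sum6 h hη K).trans ?_
    rw [ENNReal.ofReal_sum_of_nonneg fun u _ => mul_nonneg (hcw u) (hQ u)]
    refine Finset.sum_le_sum fun u _ => ?_
    rw [ENNReal.ofReal_mul (hcw u)]
    by_cases hu : cw u = 0
    · rw [hu, ENNReal.ofReal_zero, zero_mul, zero_mul]
    · exact mul_le_mul' le_rfl (hs u hu)
  rw [sum_enorm_eq] at key
  exact (ENNReal.ofReal_le_ofReal_iff h0).1 key

/-- **the classes D1, D1'** -/
theorem cls_le6D {X : Bool → Option O3 → ℂ → ℂ} {P : Par6} {x : ℝ} {e : ℕ} {o : Bool} {w : ℂ}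
    {Zn : ℕ → ℂ} (h : ClsD6 X P x e o w Zn) {η η' : ℝ → ℝ} (hη : CurB x η η') {K : ℕ} {Q : ℝ}
    (hQ : 0 ≤ Q) (hs : ∑ n ∈ range (K + 1), FA6 (YD6 X o w) P n (n + e) (fun _ _ => η)
      (fun _ _ => η') (fun _ _ _ _ _ => 1) ≤ ENNReal.ofReal Q) :
    ∑ n ∈ range (K + 1), ‖Zn n‖ ≤ Q := by
  have key : ∑ n ∈ range (K + 1), ‖Zn n‖ₑ ≤ ENNReal.ofReal Q := by
    refine le_trans (Finset.sum_le_sum fun n _ => ?_) hs
    rw [h (fun _ _ => η) (fun _ _ => η') (fun _ _ => hη) n]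
    exact FF6_le _
  rw [sum_enorm_eq] at key
  exact (ENNReal.ofReal_le_ofReal_iff hQ).1 key

end fil

/-! ### the letters -/

/-- no letter has a neutral base group -/
theorem bc6_ne (t : HT) (u : Ch6) : bc6 t u ≠ .d := by
  obtain ⟨u1, u2⟩ := u
  cases t <;> cases u1 <;> cases u2 <;> simp [bc6]

/-- the charge of a letter -/
theorem qc_bc6 {t : HT} {u : Ch6} (h : okC6 t u) :
    qc (bc6 t u) = 1 - 2 * ((htD t : ℝ) - (u.1.toNat : ℝ) - (u.2.toNat : ℝ)) := by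
  obtain ⟨u1, u2⟩ := u
  obtain ⟨h1, h2⟩ := h
  cases t <;> cases u1 <;> cases u2 <;> simp_all [bc6, qc, htD] <;> norm_num

/-- the charges of the pair of base groups -/
theorem sum_qc6 {t t' : HT} {u : Ch6 × Ch6} (h : okC6 t u.1) (h' : okC6 t' u.2) (y : ℝ × ℝ) :
    -∑ i, NUC43.sg (gdK6 t t' u y i).σ * qc (gdK6 t t' u y i).c / 2 =
      ((htD t : ℝ) - (u.1.1.toNat : ℝ) - (u.1.2.toNat : ℝ)) -
        ((htD t' : ℝ) - (u.2.1.toNat : ℝ) - (u.2.2.toNat : ℝ)) := by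
  rw [Fin.sum_univ_two]
  show -(NUC43.sg true * qc (bc6 t u.1) / 2 + NUC43.sg false * qc (bc6 t' u.2) / 2) = _
  rw [qc_bc6 h, qc_bc6 h']
  unfold NUC43.sg
  simp only [if_true, Bool.false_eq_true, if_false]
  ring

variable [NUSea.Sea] [Fil] [Ends]

/-- **the prefactor of the choice `u` of the class `t, t'`**: 63's `QP` with the data of the letters -/
def QR6 (MF : ℕ → Bool → NUSp.Cl → ℂ → ℝ) (ep e1 J : ℝ) (m : ℕ) (A : ℝ) (t t' : HT) (y : ℝ × ℝ)
    (u : Ch6 × Ch6) : ℝ :=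
  PBQ.PLX.QP m ep e1 J A (fun u τ => ME6 MF m true t u.1 τ) (fun u τ => ME6 MF m false t' u.2 τ)
    (fun u : Ch6 × Ch6 => qh6 t u.1) (fun u => qh6 t' u.2) (fun u => ph6 t u.1)
    (fun u => ph6 t' u.2) y u

theorem QR6_nonneg {MF : ℕ → Bool → NUSp.Cl → ℂ → ℝ} {ep e1 J : ℝ} {m : ℕ} {A : ℝ} (hA : 0 ≤ A)
    (t t' : HT) (y : ℝ × ℝ) (u : Ch6 × Ch6) : 0 ≤ QR6 MF ep e1 J m A t t' y u :=
  PBQ.PLX.QP_nonneg hA _ _ _ _ _ _ _ _

/-- **all choices of all classes, and D1, D1'**: sums over the numbers of quanta, constants uniform in the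
heights -/
theorem clsR6 {G : Geo} (hB : ∀ m β, (G.B m β).Nn) (hS : StabProd6 par6) {C3 : ℝ}
    (hspec : SpecPin6 C3) (h4 : ∀ i : ℕ → Ix6, S4R6 (Geo.sel (GL6 G) i))
    (h1 : ∀ i : ℕ → Ix6, OneR6 (Geo.sel (GL6 G) i)) (h4' : S4R6 G) (h1' : OneR6 G) {ρ : ℝ}
    (hρ : 0 < ρ) : ∃ κ0 : ℝ, 0 < κ0 ∧ κ0 ≤ 1 / 100 ∧
      ∀ ep : ℝ, 0 < ep → ep ≤ κ0 → ∀ e1 : ℝ, 0 < e1 → e1 ≤ κ0 →
      ∀ J : ℝ, 0 ≤ J → Real.exp (-(2 * Real.pi * J)) ≤ κ0 →
      ∃ Cst : ℝ, 0 ≤ Cst ∧ ∃ m0 : ℕ, ∀ m ≥ m0, CurB ep (etaC e1 J m m) (etaC' e1 J m m) ∧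
        ∀ (X : Bool → Option O3 → ℂ → ℂ) (ob : (Bool → ℂ → ℝ) → OB) (κ : ℝ) (E0 : Set ℝ),
        Bs6 X ob par6 ep κ (Fil.xe m) E0 → (∀ g, ob g = (G.B m (4 / 3 * (1 - ep))).mul g) →
        (∀ (t t' : HT) (u : Ch6 × Ch6), okC6 t u.1 → okC6 t' u.2 → ∀ y : ℝ × ℝ,
          sFA6 X par6 (Fil.xe m) (2 * m) t t' (vl (htL t) y.1) (vl (htL t') y.2) u
            (etaC e1 J m m) (etaC' e1 J m m) ≤
          ENNReal.ofReal (QR6 G.MF ep e1 J m (Cst * (m : ℝ) ^ ρ * Real.exp (G.EM m)) t t' y u)) ∧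
        (∀ (o : Bool) (y : ℝ), ∑ n ∈ range (2 * m + 1),
          FA6 (YD6 X o (vl (-(11 / 4) * l) y)) par6 n (n + Fil.xe m) (fun _ _ => etaC e1 J m m)
            (fun _ _ => etaC' e1 J m m) (fun _ _ _ _ _ => 1) ≤
          ENNReal.ofReal (PBQ.PLX.QGD G.MF m ep e1 J (Cst * (m : ℝ) ^ ρ * Real.exp (G.EM m)) o y)) := by
  have : Nonempty Ix6 := ⟨((.W, .W), ((false, false), (false, false)), (0, 0))⟩
  obtain ⟨κ1, hκ1, hκ1', hcls⟩ := clsKU6 (GL6 G) (fun i => GL6_nn hB i) hS hspec h4 h1 hρ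
  obtain ⟨κ2, hκ2, hκ2', hclD⟩ := clsK6 hB hS hspec h4' h1' hρ
  obtain ⟨K2, hK2, hgr⟩ := grpR_pair6
  obtain ⟨K1, hK1, hgr1⟩ := grpR_one6
  refine ⟨min κ1 κ2, lt_min hκ1 hκ2, (min_le_left _ _).trans hκ1', ?_⟩
  intro ep hep hep1 e1 he1 he11 J hJ hJ1
  obtain ⟨C1, hC1, m1, hcls⟩ := hcls ep hep (hep1.trans (min_le_left _ _)) e1 he1
    (he11.trans (min_le_left _ _)) J hJ (hJ1.trans (min_le_left _ _))
  obtain ⟨C2, hC2, m2, hclD⟩ := hclD ep hep (hep1.trans (min_le_right _ _)) e1 he1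
    (he11.trans (min_le_right _ _)) J hJ (hJ1.trans (min_le_right _ _))
  have b1 : ep ≤ 1 / 100 := (hep1.trans (min_le_left _ _)).trans hκ1'
  have c1 : e1 ≤ 1 / 100 := (he11.trans (min_le_left _ _)).trans hκ1'
  obtain ⟨m3, hm3, hcur⟩ := curOKC he1 c1 hJ hep
  refine ⟨(C1 + C2) * Real.exp (K1 + K2), by positivity, max m1 (max m2 m3), fun m hm => ?_⟩
  have hM1 : m1 ≤ m := (le_max_left _ _).trans hm
  have hM2 : m2 ≤ m := ((le_max_left _ _).trans (le_max_right _ _)).trans hm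
  have hM3 : m3 ≤ m := ((le_max_right _ _).trans (le_max_right _ _)).trans hm
  have hm0 : (0 : ℝ) ≤ m := Nat.cast_nonneg m
  refine ⟨hcur m hM3 _ (by linarith), fun X ob κ E0 hX hob => ⟨fun t t' u h h' y => ?_,
    fun o y => ?_⟩⟩
  · -- the classes
    obtain ⟨a1, a2, a3, a4⟩ := aXY_V6 (Fil.xe m) h h'
    have hq := a4.trans (sum_qc6 h h' y).symm
    have hG := hgr ep e1 hep.le he1.le m (gdK6 t t' u y) rfl rfl (by
      intro i
      fin_cases i
      · exact bc6_ne t u.1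
      · exact bc6_ne t' u.2) _ _ a1 a2 a3 hq
    have hone := cls_oneV hX h h' (w := vl (htL t) y.1) (w' := vl (htL t') y.2) (vl_re' _ _)
      (vl_re' _ _)
    have key := hcls m hM1 ((t, t'), u, y) 2 (gdK6 t t' u y) _ _ _ _ _ hG _ _ _ _ _ _ hone
      (DomP par6 ep) (domP par6 ep) (fun a z hz => by
        unfold obV6
        rw [hob]
        show (G.B m (4 / 3 * (1 - ep))).R a z * dvK6 t t' u y a z * spF (gdK6 t t' u y) a z =
          (G.B m (4 / 3 * (1 - ep))).R a z *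
            ‖sG (vF6 t u.1) (vF6 t' u.2) (vl (htL t) y.1) (vl (htL t') y.2) a z‖
        rw [obV_eq b1 hz h h' y a]
        ring) (by
        unfold obV6
        rw [hob]
        rfl) (by
        unfold obV6
        rw [hob]
        rfl)
    refine (sFA6_le _ _ _ _ _ _ _ _ _ _ _).trans (key.trans (ENNReal.ofReal_le_ofReal ?_))
    have hF : (if ∀ i, |(gdK6 t t' u y i).τ| ≤ TW ep e1 m then (1 : ℝ) else
        Real.exp (Real.log m / 2)) = fr (TW ep e1 m) (Real.log m) y := by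
      unfold NUGC.fr
      by_cases hc : |y.1| ≤ TW ep e1 m ∧ |y.2| ≤ TW ep e1 m
      · rw [if_pos hc, if_pos (Fin.forall_fin_two.2 hc)]
      · rw [if_neg hc, if_neg fun hc' => hc (Fin.forall_fin_two.1 hc')]
    have hMF : ∑ i, (GL6 G ((t, t'), u, y)).MF m (gdK6 t t' u y i).σ (gdK6 t t' u y i).c
        (gdK6 t t' u y i).w = G.MF m true (bc6 t u.1) (pb6 t u.1 y.1) +
          G.MF m false (bc6 t' u.2) (pb6 t' u.2 y.2) := by
      rw [Fin.sum_univ_two]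
      rfl
    have hgn : gnF e1 J m (gdK6 t t' u y) = gnP e1 J m (ph6 t u.1) (ph6 t' u.2) y := by
      unfold PBO.PLX.gnF PBO.PLX.gnP
      rw [Fin.sum_univ_two]
      show 12 * NUMF.l * NUGC.PLX.hC e1 J m 0 + (2 * (ph6 t u.1 * NUGC.PLX.hC e1 J m y.1) +
        2 * (ph6 t' u.2 * NUGC.PLX.hC e1 J m y.2)) = _
      ring
    rw [hF, hMF, hgn]
    have hEM : (GL6 G ((t, t'), u, y)).EM m = G.EM m +
      (mN6 (PotH.PLX.sN m) m true t u.1 y.1 + mN6 (PotH.PLX.sN m) m false t' u.2 y.2) := rfl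
    rw [hEM]
    unfold QR6 PBQ.PLX.QP ME6
    have hQX : QX (TW ep e1 m) (qc (gdK6 t t' u y 0).c) (qc (gdK6 t t' u y 1).c)
        (gdK6 t t' u y 0).τ (gdK6 t t' u y 1).τ =
        QX (TW ep e1 m) (qh6 t u.1) (qh6 t' u.2) y.1 y.2 := rfl
    rw [hQX]
    have f0 := NUGC.PLX.fr_nonneg (TW ep e1 m) (Real.log m) y
    have q0 := QX_nonneg (TW ep e1 m) (qh6 t u.1) (qh6 t' u.2) y.1 y.2
    obtain ⟨f, hf⟩ : ∃ f, f = fr (TW ep e1 m) (Real.log m) y := ⟨_, rfl⟩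
    obtain ⟨qx, hqx⟩ : ∃ qx, qx = QX (TW ep e1 m) (qh6 t u.1) (qh6 t' u.2) y.1 y.2 := ⟨_, rfl⟩
    obtain ⟨gn, hgn'⟩ : ∃ gn, gn = Real.exp (-gnP e1 J m (ph6 t u.1) (ph6 t' u.2) y) := ⟨_, rfl⟩
    obtain ⟨n1, hn1⟩ : ∃ n1, n1 = mN6 (PotH.PLX.sN m) m true t u.1 y.1 := ⟨_, rfl⟩
    obtain ⟨n2, hn2⟩ : ∃ n2, n2 = mN6 (PotH.PLX.sN m) m false t' u.2 y.2 := ⟨_, rfl⟩
    obtain ⟨M1, hM1'⟩ : ∃ M1, M1 = G.MF m true (bc6 t u.1) (pb6 t u.1 y.1) := ⟨_, rfl⟩
    obtain ⟨M2, hM2'⟩ : ∃ M2, M2 = G.MF m false (bc6 t' u.2) (pb6 t' u.2 y.2) := ⟨_, rfl⟩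
    obtain ⟨p, hp⟩ : ∃ p, p = (m : ℝ) ^ ρ := ⟨_, rfl⟩
    have hp0 : 0 ≤ p := by rw [hp]; positivity
    have hgn0 : 0 ≤ gn := by rw [hgn']; exact (Real.exp_pos _).le
    rw [← hf] at f0
    rw [← hqx] at q0
    rw [← hf, ← hqx, ← hgn', ← hn1, ← hn2, ← hM1', ← hM2', ← hp]
    have hc : C1 * Real.exp K2 ≤ (C1 + C2) * Real.exp (K1 + K2) :=
      mul_le_mul (by linarith) (Real.exp_le_exp.2 (by linarith)) (Real.exp_pos _).le (by linarith)
    have e1' : Real.exp (G.EM m + (n1 + n2)) * Real.exp (M1 + M2) =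
        Real.exp (G.EM m) * (Real.exp (n1 + M1) * Real.exp (n2 + M2)) := by
      rw [← Real.exp_add, ← Real.exp_add, ← Real.exp_add]
      congr 1
      ring
    calc C1 * p * Real.exp (G.EM m + (n1 + n2)) * Real.exp (M1 + M2) * f * gn *
          (Real.exp K2 * qx)
        = (C1 * Real.exp K2) * (p * (Real.exp (G.EM m + (n1 + n2)) * Real.exp (M1 + M2)) * f * gn *
          qx) := by ring
      _ = (C1 * Real.exp K2) * (p * (Real.exp (G.EM m) * (Real.exp (n1 + M1) *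
          Real.exp (n2 + M2))) * f * gn * qx) := by rw [e1']
      _ ≤ ((C1 + C2) * Real.exp (K1 + K2)) * (p * (Real.exp (G.EM m) * (Real.exp (n1 + M1) *
          Real.exp (n2 + M2))) * f * gn * qx) := mul_le_mul_of_nonneg_right hc (by positivity)
      _ = _ := by
          rw [hn1, hn2, hM1', hM2']
          ring
  · -- D1, D1'
    have hG := hgr1 ep e1 m o y
    have hone := cls_oneD hX o (w := vl (-(11 / 4) * l) y) (vl_re' _ _)
    have key := hclD m hM2 1 (gdD o y) _ _ _ _ _ hG _ _ _ _ _ _ hone (DomP par6 ep)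
      (domP par6 ep) (fun a z hz => by
        unfold obDB
        rw [hob]
        show (G.B m (4 / 3 * (1 - ep))).R a z * spF (gdD o y) a z =
          (G.B m (4 / 3 * (1 - ep))).R a z *
            ‖SD (if o then a else !a) none (vl (-(11 / 4) * l) y - z)‖
        rw [norm_SD_lw o a y (Away.gn (by norm_num) (away_dom b1 hz (Or.inr (Or.inl rfl)) y))]
        congr 1
        unfold spF
        rw [Fin.prod_univ_one]
        rfl) (by
        unfold obDB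
        rw [hob]
        rfl) (by
        unfold obDB
        rw [hob]
        rfl)
    have e0 : ∑ n ∈ range (2 * m + 1),
        FA6 (YD6 X o (vl (-(11 / 4) * l) y)) par6 n (n + Fil.xe m) (fun _ _ => etaC e1 J m m)
          (fun _ _ => etaC' e1 J m m) (fun _ _ _ _ _ => 1) = ∑ n ∈ range (2 * m + 1),
        FA6 (YD6 X o (vl (-(11 / 4) * l) y)) par6 (n + 0) (n + Fil.xe m)
          (fun _ _ => etaC e1 J m m) (fun _ _ => etaC' e1 J m m) (fun _ _ _ _ _ => 1) := rfl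
    rw [e0]
    refine key.trans (ENNReal.ofReal_le_ofReal ?_)
    have hF : (if ∀ i, |(gdD o y i).τ| ≤ TW ep e1 m then (1 : ℝ) else
        Real.exp (Real.log m / 2)) =
        if |y| ≤ TW ep e1 m then 1 else Real.exp (Real.log m / 2) := by
      by_cases hc : |y| ≤ TW ep e1 m
      · rw [if_pos hc, if_pos (Fin.forall_fin_one.2 hc)]
      · rw [if_neg hc, if_neg fun hc' => hc (Fin.forall_fin_one.1 hc')]
    have hMF : ∑ i, G.MF m (gdD o y i).σ (gdD o y i).c (gdD o y i).w =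
        G.MF m (!o) .d (vl (-(11 / 4) * l) y) := by
      rw [Fin.sum_univ_one]
      rfl
    have hgn : gnF e1 J m (gdD o y) = gnQ e1 J m (2 * l) y := by
      unfold PBO.PLX.gnF PBO.PLX.gnQ
      rw [Fin.sum_univ_one]
      rfl
    rw [hF, hMF, hgn]
    unfold PBQ.PLX.QGD PBQ.PLX.QD
    obtain ⟨f, hf⟩ : ∃ f : ℝ, f = if |y| ≤ TW ep e1 m then 1 else Real.exp (Real.log m / 2) :=
      ⟨_, rfl⟩
    have f0 : 0 ≤ f := by
      rw [hf]
      split_ifs
      · exact zero_le_one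
      · exact (Real.exp_pos _).le
    obtain ⟨E1, hE1⟩ : ∃ E1, E1 = Real.exp (G.MF m (!o) .d (vl (-(11 / 4) * l) y)) := ⟨_, rfl⟩
    obtain ⟨E2, hE2⟩ : ∃ E2, E2 = Real.exp (37 / 20 * xs (TW ep e1 m) y) := ⟨_, rfl⟩
    obtain ⟨gn, hgn'⟩ : ∃ gn, gn = Real.exp (-gnQ e1 J m (2 * l) y) := ⟨_, rfl⟩
    obtain ⟨p, hp⟩ : ∃ p, p = (m : ℝ) ^ ρ := ⟨_, rfl⟩
    have hp0 : 0 ≤ p := by rw [hp]; positivity
    have hE10 : 0 ≤ E1 := by rw [hE1]; exact (Real.exp_pos _).le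
    have hE20 : 0 ≤ E2 := by rw [hE2]; exact (Real.exp_pos _).le
    have hgn0 : 0 ≤ gn := by rw [hgn']; exact (Real.exp_pos _).le
    rw [← hf, ← hE1, ← hE2, ← hgn', ← hp]
    have hc : C2 * Real.exp K1 ≤ (C1 + C2) * Real.exp (K1 + K2) :=
      mul_le_mul (by linarith) (Real.exp_le_exp.2 (by linarith)) (Real.exp_pos _).le (by linarith)
    calc C2 * p * Real.exp (G.EM m) * E1 * f * gn * (Real.exp K1 * E2)
        = (C2 * Real.exp K1) * (p * Real.exp (G.EM m) * E1 * f * gn * E2) := by ring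
      _ ≤ ((C1 + C2) * Real.exp (K1 + K2)) * (p * Real.exp (G.EM m) * E1 * f * gn * E2) :=
          mul_le_mul_of_nonneg_right hc (by positivity)
      _ = _ := by ring

end PBR.PLX

end
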