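import Pool.Agent.PLX.PB.ObDef
import Pool.Agent.PLX.NUSea.OOneB
import Pool.Agent.NUSea.Bridge
import Pool.Agent.NUO.OneAct

/-!
# Particle-hole form: one row at `0` and its clouds, species by species

* `mfO j t`: own row factor and own cloud of a quantum at offset `j`: `Ag j t` (`0 ≤ j < 1`),
  `Ag (2 - j) t` (`1 < j ≤ 2`), `0` (`2 ≤ j < 4`);
* `mfX j t`: cross row factor and cross cloud: `0` (`|j| ≤ 3`), `-2 Ag (j - 3) t` (`3 ≤ j < 4`);
* `rwO_exp`, `rwX_exp`: `rwO 0 u * exp (cloP j t) = exp (mfO j t)`, `rwX 0 u * exp (cloC j t) =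
  exp (mfX j t)`, `u = vl ((1 - j) l) t`.
-/

set_option autoImplicit false

noncomputable section

open Complex MeasureTheory Set

namespace PHK

open NUP1 NUO
open PBO.PLX (rwO rwX)

/-- own row factor and own cloud -/
def mfO (j t : ℝ) : ℝ := (Real.log 2 - NUMF.ro j t) + ∫ s, NUMF.P s * NUMF.lq j (t - s)

/-- cross row factor and cross cloud -/
def mfX (j t : ℝ) : ℝ := (NUMF.h t (j * NUMF.l) - Real.log 2) + ∫ s, NUMF.P s * NUMF.lqg j (t - s)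

theorem mf_add (j t : ℝ) : mfO j t + mfX j t = NUMF.mf j t := by
  unfold mfO mfX NUMF.mf
  ring

theorem mfX_eq (j t : ℝ) : mfX j t = NUMF.h t (j * NUMF.l) + NUMF.H t (j * NUMF.l) -
    (NUMF.H t ((j + 1) * NUMF.l) + NUMF.H t ((j - 1) * NUMF.l)) := by
  unfold mfX
  rw [(NUMF.int_lqg j t).2, show j * NUMF.l + NUMF.l = (j + 1) * NUMF.l by ring,
    show j * NUMF.l - NUMF.l = (j - 1) * NUMF.l by ring]
  ring

theorem mfX_zero {j : ℝ} (h : |j| ≤ 3) (t : ℝ) : mfX j t = 0 := by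
  rw [mfX_eq]
  have := NUMF.conv_unit t h
  linarith

theorem mfX_high {j : ℝ} (h3 : 3 ≤ j) (h4 : j < 4) (t : ℝ) : mfX j t = -2 * NUMF.Ag (j - 3) t := by
  rw [mfX_eq]
  have c1 := NUMF.ext_unit t (y := j) h3 h4
  have e2 := NUMF.H_refl t (j + 1)
  rw [show 8 - (j + 1) = 7 - j by ring] at e2
  linarith

theorem mfO_low {j : ℝ} (h0 : 0 ≤ j) (h1 : j < 1) (t : ℝ) : mfO j t = NUMF.Ag j t := by
  have h := mf_add j t
  rw [mfX_zero (by rw [abs_of_nonneg h0]; linarith), NUMF.mf_low h0 h1] at h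
  linarith

theorem mfO_mid {j : ℝ} (h1 : 1 < j) (h2 : j ≤ 2) (t : ℝ) : mfO j t = NUMF.Ag (2 - j) t := by
  have h := mf_add j t
  rw [mfX_zero (by rw [abs_of_nonneg (by linarith)]; linarith), NUMF.mf_mid h1 h2] at h
  linarith

theorem mfO_zero {j : ℝ} (h2 : 2 ≤ j) (h4 : j < 4) (t : ℝ) : mfO j t = 0 := by
  have h := mf_add j t
  rcases le_total j 3 with h3 | h3
  · rw [mfX_zero (by rw [abs_of_nonneg (by linarith)]; exact h3), NUMF.mf_neutral h2 h3] at h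
    linarith
  · rw [mfX_high h3 h4, NUMF.mf_high h3 h4] at h
    linarith

/-! ### the row factors -/

theorem row_logs {j : ℝ} (h0 : 0 ≤ j) (h1 : j ≠ 1) (h4 : j < 4) (t : ℝ) :
    rwO 0 (vl ((1 - j) * l) t) = Real.exp (Real.log 2 - NUMF.ro j t) ∧
    rwX 0 (vl ((1 - j) * l) t) = Real.exp (NUMF.h t (j * NUMF.l) - Real.log 2) := by
  have hl := l_pos
  have hpi : 8 * l = Real.pi := by unfold l; ring
  have n1 : Real.sin ((4 - j) * l) ≠ 0 := by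
    refine (Real.sin_pos_of_pos_of_lt_pi (by nlinarith) (by nlinarith)).ne'
  have n2 : Real.sin ((1 - j) * l) ≠ 0 := by
    rcases lt_or_gt_of_ne h1 with h | h
    · exact (Real.sin_pos_of_pos_of_lt_pi (by nlinarith) (by nlinarith)).ne'
    · have := Real.sin_pos_of_pos_of_lt_pi (x := -((1 - j) * l)) (by nlinarith) (by nlinarith)
      rw [Real.sin_neg] at this
      linarith
  have n3 : Real.sin ((-1 - j) * l) ≠ 0 := by
    have := Real.sin_pos_of_pos_of_lt_pi (x := -((-1 - j) * l)) (by nlinarith) (by nlinarith)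
    rw [Real.sin_neg] at this
    linarith
  have m1 := sin_vl_ne n1 t
  have m2 := sin_vl_ne n2 t
  have m3 := sin_vl_ne n3 t
  have l1 := NUMF.log_norm_sin m1
  have l2 := NUMF.log_norm_sin m2
  have l3 := NUMF.log_norm_sin m3
  rw [l_eq] at l1 l2 l3
  have e1 : vl ((1 - j) * l) t - 0 + 3 * l = (((4 - j) * l : ℝ) : ℂ) + t * I := by
    unfold vl; push_cast; ring
  have e2 : vl ((1 - j) * l) t - 0 = (((1 - j) * l : ℝ) : ℂ) + t * I := by
    unfold vl; push_cast; ring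
  have e3 : vl ((1 - j) * l) t - 0 - 2 * l = (((-1 - j) * l : ℝ) : ℂ) + t * I := by
    unfold vl; push_cast; ring
  have p1 := norm_pos_iff.2 m1
  have p2 := norm_pos_iff.2 m2
  have p3 := norm_pos_iff.2 m3
  rw [show 4 * l - (4 - j) * l = j * l by ring] at l1
  have r1 := NUMF.h_refl t (5 - j)
  have r2 := NUMF.h_refl t (3 - j)
  rw [l_eq] at r1 r2
  rw [show 4 * l - (1 - j) * l = (8 - (5 - j)) * l by ring, r1] at l2
  rw [show 4 * l - (-1 - j) * l = (8 - (3 - j)) * l by ring, r2] at l3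
  constructor
  · unfold rwO
    rw [e3, e2, ← Real.exp_log (show 0 < (‖sin ((((1 - j) * l : ℝ) : ℂ) + t * I)‖ *
      ‖sin ((((-1 - j) * l : ℝ) : ℂ) + t * I)‖)⁻¹ by positivity), Real.log_inv,
      Real.log_mul p2.ne' p3.ne']
    congr 1
    unfold NUMF.ro
    rw [l_eq]
    linarith
  · unfold rwX
    rw [e1, ← Real.exp_log (show 0 < ‖sin ((((4 - j) * l : ℝ) : ℂ) + t * I)‖ ^ 2 by positivity),
      Real.log_pow, Nat.cast_ofNat, l1, l_eq]

theorem rwO_pos {j : ℝ} (h0 : 0 ≤ j) (h1 : j ≠ 1) (h4 : j < 4) (t : ℝ) :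
    0 < rwO 0 (vl ((1 - j) * l) t) := by
  rw [(row_logs h0 h1 h4 t).1]
  exact Real.exp_pos _

theorem rwX_pos {j : ℝ} (h0 : 0 ≤ j) (h1 : j ≠ 1) (h4 : j < 4) (t : ℝ) :
    0 < rwX 0 (vl ((1 - j) * l) t) := by
  rw [(row_logs h0 h1 h4 t).2]
  exact Real.exp_pos _

section
attribute [local instance] NUSea.seaP
open NUSea.PLX.O (cloP cloC)

/-- **own row at `0` and its cloud** -/
theorem rwO_exp {j : ℝ} (h0 : 0 ≤ j) (h1 : j ≠ 1) (h4 : j < 4) (t : ℝ) :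
    rwO 0 (vl ((1 - j) * l) t) * Real.exp (cloP j t) = Real.exp (mfO j t) := by
  rw [(row_logs h0 h1 h4 t).1, ← Real.exp_add]
  rfl

/-- **cross row at `0` and its cloud** -/
theorem rwX_exp {j : ℝ} (h0 : 0 ≤ j) (h1 : j ≠ 1) (h4 : j < 4) (t : ℝ) :
    rwX 0 (vl ((1 - j) * l) t) * Real.exp (cloC j t) = Real.exp (mfX j t) := by
  rw [(row_logs h0 h1 h4 t).2, ← Real.exp_add]
  rfl

/-- the rows at `0` of a quantum of species `a`, numbers `N`, and the clouds of as many rows -/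
def rw0 (N : Bool → ℕ) (a : Bool) (u : ℂ) : ℝ := rwO 0 u ^ N a * rwX 0 u ^ N (!a)

theorem rw0_nonneg (N : Bool → ℕ) (a : Bool) (u : ℂ) : 0 ≤ rw0 N a u :=
  mul_nonneg (pow_nonneg (PBO.PLX.rwO_nonneg _ _) _) (pow_nonneg (PBO.PLX.rwX_nonneg _ _) _)

/-- mean field of a quantum of species `a` at offset `j`, sea of `N` rows -/
def mfS (N : Bool → ℕ) (a : Bool) (j t : ℝ) : ℝ := N a * mfO j t + N (!a) * mfX j t

theorem rw0_exp (N : Bool → ℕ) (a : Bool) {j : ℝ} (h0 : 0 ≤ j) (h1 : j ≠ 1) (h4 : j < 4) (t : ℝ) :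
    rw0 N a (vl ((1 - j) * l) t) * Real.exp (NUSea.PLX.O.clo (fun b => (N b : ℝ)) a j t) =
      Real.exp (mfS N a j t) := by
  unfold rw0 NUSea.PLX.O.clo mfS
  rw [Real.exp_add, Real.exp_add, Real.exp_nat_mul, Real.exp_nat_mul, Real.exp_nat_mul,
    Real.exp_nat_mul, ← rwO_exp h0 h1 h4 t, ← rwX_exp h0 h1 h4 t, mul_pow, mul_pow]
  ring

theorem rw0_pos (N : Bool → ℕ) (a : Bool) {j : ℝ} (h0 : 0 ≤ j) (h1 : j ≠ 1) (h4 : j < 4) (t : ℝ) :
    0 < rw0 N a (vl ((1 - j) * l) t) :=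
  mul_pos (pow_pos (rwO_pos h0 h1 h4 t) _) (pow_pos (rwX_pos h0 h1 h4 t) _)

/-- **the inverse: a hole** -/
theorem rw0_inv (N : Bool → ℕ) (a : Bool) {j : ℝ} (h0 : 0 ≤ j) (h1 : j ≠ 1) (h4 : j < 4) (t : ℝ) :
    (rw0 N a (vl ((1 - j) * l) t))⁻¹ * Real.exp (-NUSea.PLX.O.clo (fun b => (N b : ℝ)) a j t) =
      Real.exp (-mfS N a j t) := by
  rw [Real.exp_neg, Real.exp_neg, ← rw0_exp N a h0 h1 h4 t, mul_inv]

end

theorem mfS_low (N : Bool → ℕ) (a : Bool) {j : ℝ} (h0 : 0 ≤ j) (h1 : j < 1) (t : ℝ) :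
    mfS N a j t = N a * NUMF.Ag j t := by
  unfold mfS
  rw [mfO_low h0 h1, mfX_zero (by rw [abs_of_nonneg h0]; linarith), mul_zero, add_zero]

theorem mfS_mid (N : Bool → ℕ) (a : Bool) {j : ℝ} (h1 : 1 < j) (h2 : j ≤ 2) (t : ℝ) :
    mfS N a j t = N a * NUMF.Ag (2 - j) t := by
  unfold mfS
  rw [mfO_mid h1 h2, mfX_zero (by rw [abs_of_nonneg (by linarith)]; linarith), mul_zero, add_zero]

theorem mfS_neutral (N : Bool → ℕ) (a : Bool) {j : ℝ} (h2 : 2 ≤ j) (h3 : j ≤ 3) (t : ℝ) :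
    mfS N a j t = 0 := by
  unfold mfS
  rw [mfO_zero h2 (by linarith), mfX_zero (by rw [abs_of_nonneg (by linarith)]; exact h3), mul_zero,
    mul_zero, add_zero]

theorem mfS_high (N : Bool → ℕ) (a : Bool) {j : ℝ} (h3 : 3 ≤ j) (h4 : j < 4) (t : ℝ) :
    mfS N a j t = -(2 * N (!a) * NUMF.Ag (j - 3) t) := by
  unfold mfS
  rw [mfO_zero (by linarith) h4, mfX_high h3 h4]
  ring

/-! ### the price of a hole -/

/-- `Ag` from below by the density, any offset in `[j0, 1)` -/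
theorem Ag_ge {j0 j : ℝ} (h0 : 0 ≤ j0) (h1 : j0 ≤ 31 / 100) (h2 : j0 ≤ j) (h3 : j < 1) (t : ℝ) :
    3 * Real.pi / 4 * Real.sin (8 / 3 * (j0 * NUMF.l)) * NUMF.P t ≤ NUMF.Ag j t :=
  (NUMF.Ag_ge_P h0 h1 t).trans (Ag_mono h0 h2 h3 t)

theorem Ag_nonneg {j : ℝ} (h0 : 0 ≤ j) (h1 : j < 1) (t : ℝ) : 0 ≤ NUMF.Ag j t := by
  have h := Ag_mono le_rfl h0 h1 t
  rwa [NUMF.Ag_zero] at h

end PHK

end
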