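import Pool.Agent.PHK.Defs
import Pool.Agent.PHK.MfS

/-!
# Particle-hole form: one body data, and the one body bounds of the six kinds

* `Ob6 P C N m β T1 B`: the one body data `B` on the lines of the six kinds, against `N a` rows at `0`
  of the species `a`: row factors `up` (`L`, `T`, strings, points `b`) and `lo` (points `b`, holes),
  cutoffs `pu`, `pl`, the bracket of `T` (`br1`, `br2`), the cutoff of the strings `p0`;
* `cl6 s P x`: the interaction of the object with the clouds of `s` rows;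
* `KB6`: the bounds by kinds; **`wZ6_KB : Ob6 → KB6`** for `ob6 B P x * exp (cl6 N P x)`.
-/

set_option autoImplicit false

noncomputable section

open Complex MeasureTheory Set

namespace PHK

open NUP1 NUO NUGC.PLX

/-! ### the data -/

/-- the offsets with upper bounds of the row factor -/
def upL (P : Par6) : List ℝ := [P.jL, 3 / 2, 5 / 2, 2 + P.e, 3 + P.e, P.e]

/-- the offsets with lower bounds of the row factor and of the cutoff -/
def loL (P : Par6) : List ℝ := [P.e, P.j1, P.j2]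

/-- **one body data on the lines of the six kinds** -/
structure Ob6 (P : Par6) (C : ℝ) (N : Bool → ℕ) (m : ℕ) (β T1 : ℝ) (B : OB) : Prop where
  nn : B.Nn
  num : ∀ a, (N a : ℝ) ≤ C * m
  up : ∀ j ∈ upL P, ∀ (a : Bool) (t : ℝ),
    B.R a (vl ((1 - j) * l) t) ≤ C * rw0 N a (vl ((1 - j) * l) t)
  lo : ∀ j ∈ loL P, ∀ (a : Bool) (t : ℝ),
    (B.R a (vl ((1 - j) * l) t))⁻¹ ≤ C * (rw0 N a (vl ((1 - j) * l) t))⁻¹
  pu : ∀ j ∈ [P.jL, P.e], ∀ (a : Bool) (t : ℝ), ‖B.φ a (vl ((1 - j) * l) t)‖ ≤ C * cut m β t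
  pl : ∀ j ∈ loL P, ∀ (a : Bool) (t : ℝ), ‖B.φ a (vl ((1 - j) * l) t)‖⁻¹ ≤ C * (cut m β t)⁻¹
  br1 : ∀ (a : Bool) (t : ℝ), ‖B.φ a (posT t) * B.φ a (posT t - l) - B.φ0 a (posT t)‖ ≤
    C * Real.exp (-(N a * NUMF.Ag (1 / 2) t))
  br2 : ∀ (a : Bool) (t : ℝ), ‖B.φ a (posT t) * B.φ a (posT t - l) - B.φ0 a (posT t)‖ ≤
    C * cut m β t
  p0 : ∀ (a : Bool) (t : ℝ), ‖B.φ0 a (posS P.e t)‖ ≤
    C * (cut m (4 / 3) t * Real.exp (-(Real.exp (11 / 2 * (|t| - T1)) / 5)))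

/-! ### the clouds -/

section
attribute [local instance] NUSea.seaP

/-- the interaction of the object with the clouds of `s` rows -/
def cl6 (s : Bool → ℝ) (P : Par6) (x : Xo) : ℝ :=
  match k6 x with
  | .L => NUSea.PLX.O.clo s (sp x) P.jL (ht x)
  | .T => NUSea.PLX.O.clo s (sp x) (3 / 2) (ht x) + NUSea.PLX.O.clo s (sp x) (5 / 2) (ht x)
  | .E => NUSea.PLX.O.clo s (sp x) (2 + P.e) (ht x) + NUSea.PLX.O.clo s (sp x) (3 + P.e) (ht x) +
      2 * NUSea.PLX.O.clo s (!sp x) P.e (ht x)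
  | .F => NUSea.PLX.O.clo s (sp x) (2 + P.e) (ht x) + NUSea.PLX.O.clo s (sp x) (3 + P.e) (ht x) +
      2 * NUSea.PLX.O.clo s (!sp x) P.e (ht x) - NUSea.PLX.O.clo s (sp x) P.e (ht x)
  | .H1 => -NUSea.PLX.O.clo s (sp x) P.j1 (ht x)
  | .H2 => -NUSea.PLX.O.clo s (sp x) P.j2 (ht x)

end

/-! ### the bounds by kinds -/

/-- the cutoff of a string -/
def cS6 (m : ℕ) (T1 t : ℝ) : ℝ := cut m (4 / 3) t * Real.exp (-(Real.exp (11 / 2 * (|t| - T1)) / 5))

/-- the weight of a hole of a species with `n` rows at offset `j` -/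
def hw6 (n m : ℕ) (β j t : ℝ) : ℝ := Real.exp (-(n * NUMF.Ag j t)) * (cut m β t)⁻¹

/-- **bounds of a weight (times its mean field) by kinds** -/
def KB6 (C : ℝ) (P : Par6) (N : Bool → ℕ) (m : ℕ) (β T1 W : ℝ) (a : Bool) : Kd6 → ℝ → Prop
  | .L, t => W ≤ C * cut m β t
  | .T, t => W ≤ C * cut m β t
  | .E, t => W ≤ C * cS6 m T1 t
  | .F, t => W ≤ C * (cS6 m T1 t * hw6 (N a) m β P.e t)
  | .H1, t => W ≤ C * hw6 (N a) m β P.j1 t
  | .H2, t => W ≤ C * hw6 (N a) m β P.j2 t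

theorem cut_pos {m : ℕ} (hm : 1 ≤ m) (β t : ℝ) : 0 < cut m β t := by
  unfold cut
  have : (0 : ℝ) < m := by exact_mod_cast hm
  positivity

theorem cS6_nonneg (m : ℕ) (T1 t : ℝ) : 0 ≤ cS6 m T1 t :=
  mul_nonneg (cut_nonneg _ _ _) (Real.exp_pos _).le

theorem hw6_nonneg (n m : ℕ) (β j t : ℝ) : 0 ≤ hw6 n m β j t :=
  mul_nonneg (Real.exp_pos _).le (inv_nonneg.2 (cut_nonneg _ _ _))

theorem KB6.mono {C C' : ℝ} (h : C ≤ C') {P : Par6} {N : Bool → ℕ} {m : ℕ} {β T1 W : ℝ} {a : Bool}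
    {k : Kd6} {t : ℝ} (hk : KB6 C P N m β T1 W a k t) : KB6 C' P N m β T1 W a k t := by
  have h1 := cut_nonneg m β t
  have h2 := cS6_nonneg m T1 t
  cases k
  · exact hk.trans (mul_le_mul_of_nonneg_right h h1)
  · exact hk.trans (mul_le_mul_of_nonneg_right h h1)
  · exact hk.trans (mul_le_mul_of_nonneg_right h h2)
  · exact hk.trans (mul_le_mul_of_nonneg_right h (mul_nonneg h2 (hw6_nonneg _ _ _ _ _)))
  · exact hk.trans (mul_le_mul_of_nonneg_right h (hw6_nonneg _ _ _ _ _))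
  · exact hk.trans (mul_le_mul_of_nonneg_right h (hw6_nonneg _ _ _ _ _))

/-! ### positions -/

theorem posB_vl (e t : ℝ) : posB e t = vl ((1 - e) * l) t := posP_eq e t

theorem posTl_vl (t : ℝ) : posT t - l = vl ((1 - 5 / 2) * l) t := by
  rw [posT_eq, vl_sub_l]
  norm_num

theorem posSl_vl (e t : ℝ) : posS e t - l = vl ((1 - (3 + e)) * l) t := by
  rw [posS_eq, vl_sub_l]
  congr 1
  ring

section
attribute [local instance] NUSea.seaP

variable {P : Par6} {C : ℝ} {N : Bool → ℕ} {m : ℕ} {β T1 : ℝ} {B : OB}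

/-- a quantum: row factor and cloud -/
theorem Ob6.R_exp (h : Ob6 P C N m β T1 B) {j : ℝ} (hj : j ∈ upL P) (h0 : 0 ≤ j) (h1 : j ≠ 1)
    (h4 : j < 4) (a : Bool) (t : ℝ) : B.R a (vl ((1 - j) * l) t) *
      Real.exp (NUSea.PLX.O.clo (fun b => (N b : ℝ)) a j t) ≤ C * Real.exp (mfS N a j t) := by
  rw [← rw0_exp N a h0 h1 h4 t, ← mul_assoc]
  exact mul_le_mul_of_nonneg_right (h.up j hj a t) (Real.exp_pos _).le

/-- a hole: row factor and cloud -/
theorem Ob6.R_inv (h : Ob6 P C N m β T1 B) {j : ℝ} (hj : j ∈ loL P) (h0 : 0 ≤ j)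
    (h1 : j ≠ 1) (h4 : j < 4) (a : Bool) (t : ℝ) :
    (B.R a (vl ((1 - j) * l) t))⁻¹ *
      Real.exp (-NUSea.PLX.O.clo (fun b => (N b : ℝ)) a j t) ≤ C * Real.exp (-mfS N a j t) := by
  rw [← rw0_inv N a h0 h1 h4 t, ← mul_assoc]
  exact mul_le_mul_of_nonneg_right (h.lo j hj a t) (Real.exp_pos _).le

/-- **a hole at offset `j < 1`** -/
theorem Ob6.hole (h : Ob6 P C N m β T1 B) (hC : 0 ≤ C) {j : ℝ} (hj : j ∈ loL P)
    (h0 : 0 ≤ j) (h1 : j < 1) (a : Bool) (t : ℝ) :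
    (B.R a (vl ((1 - j) * l) t) * ‖B.φ a (vl ((1 - j) * l) t)‖)⁻¹ *
      Real.exp (-NUSea.PLX.O.clo (fun b => (N b : ℝ)) a j t) ≤ C ^ 2 * hw6 (N a) m β j t := by
  have r1 := h.R_inv hj h0 h1.ne (by linarith) a t
  have p1 := h.pl j hj a t
  rw [mfS_low N a h0 h1] at r1
  unfold hw6
  calc _ = ((B.R a (vl ((1 - j) * l) t))⁻¹ *
        Real.exp (-NUSea.PLX.O.clo (fun b => (N b : ℝ)) a j t)) *
        ‖B.φ a (vl ((1 - j) * l) t)‖⁻¹ := by
        rw [mul_inv]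
        ring
    _ ≤ (C * Real.exp (-(N a * NUMF.Ag j t))) * (C * (cut m β t)⁻¹) := by
        refine mul_le_mul r1 p1 (inv_nonneg.2 (norm_nonneg _)) ?_
        positivity
    _ = _ := by ring

/-- **a satellite** -/
theorem Ob6.sat (h : Ob6 P C N m β T1 B) (hP : GoodP6 P) (hC : 0 ≤ C) (a : Bool) (t : ℝ) :
    0 ≤ B.R a (posB P.e t) * ‖B.φ a (posB P.e t)‖ ∧
    B.R a (posB P.e t) * ‖B.φ a (posB P.e t)‖ *
      Real.exp (NUSea.PLX.O.clo (fun b => (N b : ℝ)) a P.e t) ≤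
      C ^ 2 * Real.exp (N a * NUMF.Ag P.e t) := by
  have e0 : 0 ≤ P.e := by linarith [hP.e13]
  have e1 : P.e < 1 := by linarith [hP.ej2, hP.j2]
  have r1 := h.R_exp (j := P.e) (by simp [upL]) e0 e1.ne (by linarith) a t
  have p1 := h.pu P.e (by simp) a t
  rw [mfS_low N a e0 e1] at r1
  rw [posB_vl]
  refine ⟨mul_nonneg (h.nn _ _) (norm_nonneg _), ?_⟩
  have hc1 := cut_le_one m β t
  have hc0 := cut_nonneg m β t
  have p2 : ‖B.φ a (vl ((1 - P.e) * l) t)‖ ≤ C := p1.trans (by nlinarith)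
  calc _ = (B.R a (vl ((1 - P.e) * l) t) *
        Real.exp (NUSea.PLX.O.clo (fun b => (N b : ℝ)) a P.e t)) *
        ‖B.φ a (vl ((1 - P.e) * l) t)‖ := by ring
    _ ≤ (C * Real.exp (N a * NUMF.Ag P.e t)) * C :=
        mul_le_mul r1 p2 (norm_nonneg _) (by positivity)
    _ = _ := by ring

/-- **a string at offset `2 + e`** -/
theorem Ob6.str (h : Ob6 P C N m β T1 B) (hP : GoodP6 P) (hC : 0 ≤ C) (a : Bool) (t : ℝ) :
    0 ≤ oSc B a (posS P.e t) ∧
    oSc B a (posS P.e t) * Real.exp (NUSea.PLX.O.clo (fun b => (N b : ℝ)) a (2 + P.e) t +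
      NUSea.PLX.O.clo (fun b => (N b : ℝ)) a (3 + P.e) t) ≤
      aS * C ^ 3 * (Real.exp (-(2 * N (!a) * NUMF.Ag P.e t)) * cS6 m T1 t) := by
  have e0 : 0 ≤ P.e := by linarith [hP.e13]
  have e1 : P.e < 1 := by linarith [hP.ej2, hP.j2]
  have haS := aS_pos
  have r1 := h.R_exp (j := 2 + P.e) (by simp [upL]) (by linarith) (by linarith) (by linarith) a t
  have r2 := h.R_exp (j := 3 + P.e) (by simp [upL]) (by linarith) (by linarith) (by linarith) a t
  have p1 := h.p0 a t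
  rw [mfS_neutral N a (by linarith) (by linarith), Real.exp_zero, mul_one, ← posS_eq] at r1
  rw [mfS_high N a (by linarith) (by linarith), show 3 + P.e - 3 = P.e by ring, ← posSl_vl] at r2
  have n1 := h.nn a (posS P.e t)
  have n2 := h.nn a (posS P.e t - l)
  unfold oSc
  refine ⟨by positivity, ?_⟩
  rw [Real.exp_add]
  have x1 := Real.exp_pos (NUSea.PLX.O.clo (fun b => (N b : ℝ)) a (2 + P.e) t)
  have x2 := Real.exp_pos (NUSea.PLX.O.clo (fun b => (N b : ℝ)) a (3 + P.e) t)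
  have hS := cS6_nonneg m T1 t
  calc _ = aS * ((B.R a (posS P.e t) * Real.exp (NUSea.PLX.O.clo (fun b => (N b : ℝ)) a (2 + P.e) t)) *
        (B.R a (posS P.e t - l) * Real.exp (NUSea.PLX.O.clo (fun b => (N b : ℝ)) a (3 + P.e) t))) *
        ‖B.φ0 a (posS P.e t)‖ := by ring
    _ ≤ aS * (C * (C * Real.exp (-(2 * N (!a) * NUMF.Ag P.e t)))) * (C * cS6 m T1 t) := by
        refine mul_le_mul (mul_le_mul_of_nonneg_left (mul_le_mul r1 r2 (by positivity) hC) haS.le)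
          p1 (norm_nonneg _) (by positivity)
    _ = _ := by ring

/-! ### the kinds -/

theorem Ob6.wL (h : Ob6 P C N m β T1 B) (hP : GoodP6 P) (hC : 0 ≤ C) {x : Xo} (hx : k6 x = .L) :
    ob6 B P x * Real.exp (cl6 (fun b => (N b : ℝ)) P x) ≤
      (2 * Real.pi)⁻¹ * C ^ 2 * cut m β (ht x) := by
  have hpi := Real.pi_pos
  have j3 : P.jL ≤ 3 := by linarith [hP.Lj, hP.j1e, hP.ej2, hP.j2]
  have r1 := h.R_exp (j := P.jL) (by simp [upL]) (by linarith [hP.L2]) (by linarith [hP.L2])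
    (by linarith) (sp x) (ht x)
  have p1 := h.pu P.jL (by simp) (sp x) (ht x)
  rw [mfS_neutral N _ (by linarith [hP.L2]) j3, Real.exp_zero, mul_one] at r1
  rw [ob6_L B P hx, posL_eq]
  unfold cl6
  rw [hx]
  simp only
  calc _ = (2 * Real.pi)⁻¹ * ((B.R (sp x) (vl ((1 - P.jL) * l) (ht x)) *
        Real.exp (NUSea.PLX.O.clo (fun b => (N b : ℝ)) (sp x) P.jL (ht x))) *
        ‖B.φ (sp x) (vl ((1 - P.jL) * l) (ht x))‖) := by ring
    _ ≤ (2 * Real.pi)⁻¹ * (C * (C * cut m β (ht x))) := by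
        refine mul_le_mul_of_nonneg_left ?_ (by positivity)
        exact mul_le_mul r1 p1 (norm_nonneg _) hC
    _ = _ := by ring

theorem Ob6.wE (h : Ob6 P C N m β T1 B) (hP : GoodP6 P) (hC : 0 ≤ C) {x : Xo} (hx : k6 x = .E) :
    ob6 B P x * Real.exp (cl6 (fun b => (N b : ℝ)) P x) ≤
      cK6 .E * C ^ 7 * cS6 m T1 (ht x) := by
  have haS := aS_pos
  have hs5 : 0 < Real.sin (5 * l) := by simpa using sinl_pos 5 (by norm_num) (by norm_num)
  obtain ⟨o0, o1⟩ := h.str hP hC (sp x) (ht x)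
  obtain ⟨s0, s1⟩ := h.sat hP hC (!sp x) (ht x)
  rw [ob6_E B P hx]
  unfold cl6
  rw [hx]
  simp only
  set t := ht x with ht'
  set v := NUSea.PLX.O.clo (fun b => (N b : ℝ)) (sp x) (2 + P.e) t +
    NUSea.PLX.O.clo (fun b => (N b : ℝ)) (sp x) (3 + P.e) t with hv
  set u := NUSea.PLX.O.clo (fun b => (N b : ℝ)) (!sp x) P.e t with hu
  set S := B.R (!sp x) (posB P.e t) * ‖B.φ (!sp x) (posB P.e t)‖ with hS
  have e1 : Real.exp (v + 2 * u) = Real.exp v * Real.exp u ^ 2 := by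
    rw [Real.exp_add v, two_mul, Real.exp_add u u, pow_two]
  have e5 : Real.exp (-(2 * N (!sp x) * NUMF.Ag P.e t)) *
      Real.exp (N (!sp x) * NUMF.Ag P.e t) ^ 2 = 1 := by
    rw [← Real.exp_nat_mul, ← Real.exp_add]
    push_cast
    ring_nf
    exact Real.exp_zero
  have hcs := cS6_nonneg m T1 t
  have k1 : (S * Real.exp u) ^ 2 ≤ (C ^ 2 * Real.exp (N (!sp x) * NUMF.Ag P.e t)) ^ 2 :=
    pow_le_pow_left₀ (mul_nonneg s0 (Real.exp_pos _).le) s1 2
  rw [e1]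
  calc 2 * (oSc B (sp x) (posS P.e t) * (4 * Real.cos l ^ 2 * (S / Real.sin (5 * l) ^ 2) ^ 2)) *
        (Real.exp v * Real.exp u ^ 2) =
      2 * (4 * Real.cos l ^ 2 / Real.sin (5 * l) ^ 4) *
        ((oSc B (sp x) (posS P.e t) * Real.exp v) * (S * Real.exp u) ^ 2) := by
        field_simp
    _ ≤ 2 * (4 * Real.cos l ^ 2 / Real.sin (5 * l) ^ 4) *
        ((aS * C ^ 3 * (Real.exp (-(2 * N (!sp x) * NUMF.Ag P.e t)) * cS6 m T1 t)) *
          (C ^ 2 * Real.exp (N (!sp x) * NUMF.Ag P.e t)) ^ 2) := by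
        refine mul_le_mul_of_nonneg_left (mul_le_mul o1 k1 (by positivity) (by positivity)) (by positivity)
    _ = 2 * (4 * Real.cos l ^ 2 / Real.sin (5 * l) ^ 4) * (aS * C ^ 7 *
        (Real.exp (-(2 * N (!sp x) * NUMF.Ag P.e t)) *
          Real.exp (N (!sp x) * NUMF.Ag P.e t) ^ 2) * cS6 m T1 t) := by ring
    _ = _ := by
        rw [e5]
        unfold cK6
        ring

/-- the constant of `F` against `E` -/
def cF6 : ℝ := 4 * Real.cos l ^ 2 *
  (Real.sin (3 * l) ^ 8 / (Real.sin (2 * l) * Real.sin (3 * l) * Real.sin (5 * l)))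

theorem cF6_pos : 0 < cF6 := by
  have h2 : 0 < Real.sin (2 * l) := by simpa using sinl_pos 2 (by norm_num) (by norm_num)
  have h3 : 0 < Real.sin (3 * l) := by simpa using sinl_pos 3 (by norm_num) (by norm_num)
  have h5 : 0 < Real.sin (5 * l) := by simpa using sinl_pos 5 (by norm_num) (by norm_num)
  have hc := cos_l_pos
  unfold cF6
  positivity

theorem Ob6.wF (h : Ob6 P C N m β T1 B) (hP : GoodP6 P) (hC : 0 ≤ C) {x : Xo}
    (hx : k6 x = .F) : ob6 B P x * Real.exp (cl6 (fun b => (N b : ℝ)) P x) ≤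
      cK6 .E * cF6 * C ^ 9 * (cS6 m T1 (ht x) * hw6 (N (sp x)) m β P.e (ht x)) := by
  have haS := aS_pos
  have hF := cF6_pos
  have e0 : 0 ≤ P.e := by linarith [hP.e13]
  have e1 : P.e < 1 := by linarith [hP.ej2, hP.j2]
  -- the object `E` with the same data
  obtain ⟨y, hy, hys, hyt⟩ : ∃ y : Xo, k6 y = .E ∧ sp y = sp x ∧ ht y = ht x := by
    refine ⟨((sp x, .Svv), (ht x, 0)), ?_, rfl, rfl⟩
    show (if (0 : ℝ) ≤ 1 / 2 then Kd6.E else Kd6.F) = .E
    rw [if_pos (by norm_num)]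
  have hE := h.wE hP hC hy
  have hH := h.hole hC (j := P.e) (by simp [loL]) e0 e1 (sp x) (ht x)
  rw [← posB_vl] at hH
  have n0 : 0 ≤ ob6 B P y := ob6_nonneg h.nn P y
  rw [hyt] at hE
  have e2 : ob6 B P x = ob6 B P y * (cF6 *
      (B.R (sp x) (posB P.e (ht x)) * ‖B.φ (sp x) (posB P.e (ht x))‖)⁻¹) := by
    rw [ob6_F B P hx, ob6_E B P hy, hys, hyt]
    unfold cF6
    ring
  have e3 : cl6 (fun b => (N b : ℝ)) P x = cl6 (fun b => (N b : ℝ)) P y +
      -NUSea.PLX.O.clo (fun b => (N b : ℝ)) (sp x) P.e (ht x) := by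
    unfold cl6
    rw [hx, hy, hys, hyt]
    simp only
    ring
  rw [e2, e3, Real.exp_add]
  have hcs := cS6_nonneg m T1 (ht x)
  have hh := hw6_nonneg (N (sp x)) m β P.e (ht x)
  have hK := cK6_nonneg .E
  calc _ = cF6 * ((ob6 B P y * Real.exp (cl6 (fun b => (N b : ℝ)) P y)) *
        ((B.R (sp x) (posB P.e (ht x)) * ‖B.φ (sp x) (posB P.e (ht x))‖)⁻¹ *
          Real.exp (-NUSea.PLX.O.clo (fun b => (N b : ℝ)) (sp x) P.e (ht x)))) := by ring
    _ ≤ cF6 * ((cK6 .E * C ^ 7 * cS6 m T1 (ht x)) *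
        (C ^ 2 * hw6 (N (sp x)) m β P.e (ht x))) := by
        refine mul_le_mul_of_nonneg_left (mul_le_mul hE hH ?_ (by positivity)) hF.le
        exact mul_nonneg (inv_nonneg.2 (mul_nonneg (h.nn _ _) (norm_nonneg _))) (Real.exp_pos _).le
    _ = _ := by ring

theorem Ob6.wH1 (h : Ob6 P C N m β T1 B) (hP : GoodP6 P) (hC : 0 ≤ C) {x : Xo}
    (hx : k6 x = .H1) : ob6 B P x * Real.exp (cl6 (fun b => (N b : ℝ)) P x) ≤
      cK6 .H1 * C ^ 2 * hw6 (N (sp x)) m β P.j1 (ht x) := by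
  have j0 : 0 ≤ P.j1 := by linarith [hP.j1]
  have j1 : P.j1 < 1 := by linarith [hP.j1e, hP.ej2, hP.j2]
  have hH := h.hole hC (j := P.j1) (by simp [loL]) j0 j1 (sp x) (ht x)
  have hK := cK6_nonneg .H1
  rw [ob6_H1 B P hx, posL_eq]
  unfold cl6
  rw [hx]
  simp only
  calc _ = cK6 .H1 * ((B.R (sp x) (vl ((1 - P.j1) * l) (ht x)) *
        ‖B.φ (sp x) (vl ((1 - P.j1) * l) (ht x))‖)⁻¹ *
          Real.exp (-NUSea.PLX.O.clo (fun b => (N b : ℝ)) (sp x) P.j1 (ht x))) := by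
        unfold cK6
        ring
    _ ≤ cK6 .H1 * (C ^ 2 * hw6 (N (sp x)) m β P.j1 (ht x)) := mul_le_mul_of_nonneg_left hH hK
    _ = _ := by ring

theorem Ob6.wH2 (h : Ob6 P C N m β T1 B) (hP : GoodP6 P) (hC : 0 ≤ C) {x : Xo}
    (hx : k6 x = .H2) : ob6 B P x * Real.exp (cl6 (fun b => (N b : ℝ)) P x) ≤
      cK6 .H2 * C ^ 2 * hw6 (N (sp x)) m β P.j2 (ht x) := by
  have j0 : 0 ≤ P.j2 := by linarith [hP.j1, hP.j1e, hP.ej2]
  have hH := h.hole hC (j := P.j2) (by simp [loL]) j0 hP.j2 (sp x) (ht x)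
  have hK := cK6_nonneg .H2
  rw [ob6_H2 B P hx, posL_eq]
  unfold cl6
  rw [hx]
  simp only
  calc _ = cK6 .H2 * ((B.R (sp x) (vl ((1 - P.j2) * l) (ht x)) *
        ‖B.φ (sp x) (vl ((1 - P.j2) * l) (ht x))‖)⁻¹ *
          Real.exp (-NUSea.PLX.O.clo (fun b => (N b : ℝ)) (sp x) P.j2 (ht x))) := by
        unfold cK6
        ring
    _ ≤ cK6 .H2 * (C ^ 2 * hw6 (N (sp x)) m β P.j2 (ht x)) := mul_le_mul_of_nonneg_left hH hK
    _ = _ := by ring

theorem Ob6.wT {KA : ℝ} (hKA : 0 ≤ KA)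
    (hAg : ∀ t : ℝ, NUMF.Ag (1 / 2) t ≤ KA * Real.exp (-(8 / 3) * |t|))
    (h : Ob6 P C N m β T1 B) (hC : 0 ≤ C) (hβ1 : β ≤ 4 / 3) {x : Xo} (hx : k6 x = .T) :
    ob6 B P x * Real.exp (cl6 (fun b => (N b : ℝ)) P x) ≤
      aS * C ^ 3 * Real.exp (C * KA) * cut m β (ht x) := by
  have haS := aS_pos
  have r1 := h.R_exp (j := 3 / 2) (by simp [upL]) (by norm_num) (by norm_num) (by norm_num)
    (sp x) (ht x)
  have r2 := h.R_exp (j := 5 / 2) (by simp [upL]) (by norm_num) (by norm_num) (by norm_num)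
    (sp x) (ht x)
  rw [mfS_mid N _ (by norm_num) (by norm_num), ← posT_eq,
    show (2 : ℝ) - 3 / 2 = 1 / 2 by norm_num] at r1
  rw [mfS_neutral N _ (by norm_num) (by norm_num), Real.exp_zero, mul_one, ← posTl_vl] at r2
  have b1 := h.br1 (sp x) (ht x)
  have b2 := h.br2 (sp x) (ht x)
  rw [ob6_T B P hx]
  unfold cl6
  rw [hx]
  simp only
  set t := ht x with ht'
  set a := sp x with ha
  set X := ‖B.φ a (posT t) * B.φ a (posT t - l) - B.φ0 a (posT t)‖ with hX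
  have hX0 : 0 ≤ X := norm_nonneg _
  have n2 := h.nn a (posT t - l)
  rw [Real.exp_add]
  have key : Real.exp (N a * NUMF.Ag (1 / 2) t) * X ≤ C * Real.exp (C * KA) * cut m β t := by
    have hE1 : 1 ≤ Real.exp (C * KA) := Real.one_le_exp (by positivity)
    rcases le_total 1 (m * Real.exp (-(2 * β) * |t|)) with h5 | h5
    · have hc : cut m β t = 1 := by
        unfold cut
        exact min_eq_left h5
      rw [hc, mul_one]
      calc Real.exp (N a * NUMF.Ag (1 / 2) t) * X ≤ Real.exp (N a * NUMF.Ag (1 / 2) t) *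
            (C * Real.exp (-(N a * NUMF.Ag (1 / 2) t))) := by gcongr
        _ = C * (Real.exp (N a * NUMF.Ag (1 / 2) t) * Real.exp (-(N a * NUMF.Ag (1 / 2) t))) := by
            ring
        _ = C := by rw [← Real.exp_add, add_neg_cancel, Real.exp_zero, mul_one]
        _ ≤ C * Real.exp (C * KA) := le_mul_of_one_le_right hC hE1
    · have hN := h.num a
      have h7 : (N a : ℝ) * NUMF.Ag (1 / 2) t ≤ C * KA := by
        have hexp : Real.exp (-(8 / 3) * |t|) ≤ Real.exp (-(2 * β) * |t|) := by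
          refine Real.exp_le_exp.2 ?_
          have := abs_nonneg t
          nlinarith
        have hE0 := Real.exp_pos (-(8 / 3) * |t|)
        have hNn : (0 : ℝ) ≤ N a := Nat.cast_nonneg _
        calc (N a : ℝ) * NUMF.Ag (1 / 2) t ≤ N a * (KA * Real.exp (-(8 / 3) * |t|)) :=
              mul_le_mul_of_nonneg_left (hAg t) hNn
          _ ≤ (C * m) * (KA * Real.exp (-(2 * β) * |t|)) := by gcongr
          _ = C * KA * (m * Real.exp (-(2 * β) * |t|)) := by ring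
          _ ≤ C * KA * 1 := mul_le_mul_of_nonneg_left h5 (by positivity)
          _ = C * KA := mul_one _
      calc Real.exp (N a * NUMF.Ag (1 / 2) t) * X ≤ Real.exp (C * KA) * (C * cut m β t) :=
            mul_le_mul (Real.exp_le_exp.2 h7) b2 hX0 (Real.exp_pos _).le
        _ = _ := by ring
  calc _ = aS * ((B.R a (posT t) *
        Real.exp (NUSea.PLX.O.clo (fun b => (N b : ℝ)) a (3 / 2) t)) *
        (B.R a (posT t - l) * Real.exp (NUSea.PLX.O.clo (fun b => (N b : ℝ)) a (5 / 2) t))) * X := by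
        ring
    _ ≤ aS * ((C * Real.exp (N a * NUMF.Ag (1 / 2) t)) * C) * X := by
        refine mul_le_mul_of_nonneg_right (mul_le_mul_of_nonneg_left (mul_le_mul r1 r2 ?_ ?_)
          haS.le) hX0
        · exact mul_nonneg n2 (Real.exp_pos _).le
        · positivity
    _ = aS * C ^ 2 * (Real.exp (N a * NUMF.Ag (1 / 2) t) * X) := by ring
    _ ≤ aS * C ^ 2 * (C * Real.exp (C * KA) * cut m β t) :=
        mul_le_mul_of_nonneg_left key (by positivity)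
    _ = _ := by ring

/-- **the bounds of the six kinds with one constant** -/
theorem wZ6_KB {C : ℝ} (hC : 0 < C) : ∃ B0 : ℝ, 0 < B0 ∧
    ∀ (P : Par6), GoodP6 P → ∀ (N : Bool → ℕ) (m : ℕ) (β T1 : ℝ) (B : OB), β ≤ 4 / 3 →
      Ob6 P C N m β T1 B → ∀ x : Xo,
        KB6 B0 P N m β T1 (ob6 B P x * Real.exp (cl6 (fun b => (N b : ℝ)) P x)) (sp x) (k6 x)
          (ht x) := by
  obtain ⟨KA, hKA, hAg⟩ := Ag_half_le
  have haS := aS_pos
  have hF := cF6_pos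
  have hpi := Real.pi_pos
  have hE := cK6_nonneg .E
  have hH1 := cK6_nonneg .H1
  have hH2 := cK6_nonneg .H2
  have c1 : 0 ≤ (2 * Real.pi)⁻¹ * C ^ 2 := by positivity
  have c2 : 0 < aS * C ^ 3 * Real.exp (C * KA) := by positivity
  have c3 : 0 ≤ cK6 .E * C ^ 7 := by positivity
  have c4 : 0 ≤ cK6 .E * cF6 * C ^ 9 := by positivity
  have c5 : 0 ≤ cK6 .H1 * C ^ 2 := by positivity
  have c6 : 0 ≤ cK6 .H2 * C ^ 2 := by positivity
  refine ⟨(2 * Real.pi)⁻¹ * C ^ 2 + aS * C ^ 3 * Real.exp (C * KA) + cK6 .E * C ^ 7 +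
    cK6 .E * cF6 * C ^ 9 + cK6 .H1 * C ^ 2 + cK6 .H2 * C ^ 2, by linarith,
    fun P hP N m β T1 B hβ h x => ?_⟩
  rcases hk : k6 x with _ | _ | _ | _ | _ | _
  · exact KB6.mono (by linarith) (h.wL hP hC.le hk)
  · exact KB6.mono (by linarith) (h.wT hKA hAg hC.le hβ hk)
  · exact KB6.mono (by linarith) (h.wE hP hC.le hk)
  · exact KB6.mono (by linarith) (h.wF hP hC.le hk)
  · exact KB6.mono (by linarith) (h.wH1 hP hC.le hk)
  · exact KB6.mono (by linarith) (h.wH2 hP hC.le hk)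

end

end PHK

end
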