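import Pool.Agent.PHK.Ob1Fac
import Pool.Agent.PHK.CfgC
import Pool.Agent.PHK.Ob6
import Pool.Agent.NUGC.AsmS

/-!
# (P): spectators against objects

* `ek_pt6`: the modulus of an elementary spectator on a line which it does not meet, two sides;
* `log_facL_ek6`, `facL_ek6`: direct factor of a spectator and an object, every kind;
* `ES_ek6`, `pair_ek6`, `asm_obj6`, `asm_conf6`, `sym_ek6`.
-/

set_option autoImplicit false

open MeasureTheory Set Filter Topology

namespace PHK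

noncomputable section

open NUO (Xo sp ht posL posT posS)
open NUC43 NUGC NUDirP
open NUP1 (vl l)
open Pool.Agent.NUM3 (EV EU sgn)

/-! ### sines off the integers -/

/-- a line which is not a multiple of `l` stays away from all the zeros -/
theorem exists_sin_lo6 {x : ℝ} (hx : ∀ n : ℤ, x ≠ n) :
    ∃ c : ℝ, 0 < c ∧ c ≤ 1 ∧ ∀ n : ℤ, c ≤ |Real.sin ((x + n) * l)| := by
  have hne : ∀ n : ℤ, Real.sin ((x + n) * l) ≠ 0 := by
    intro n h0
    obtain ⟨m, hm⟩ := Real.sin_eq_zero_iff.1 h0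
    have hpi := Real.pi_pos
    have h1 : (x + n) * Real.pi = (8 * m) * Real.pi := by
      unfold l at hm
      linarith
    have h2 := mul_right_cancel₀ hpi.ne' h1
    refine hx (8 * m - n) ?_
    push_cast
    linarith
  refine ⟨∏ i ∈ Finset.range 8, |Real.sin ((x + (i : ℤ)) * l)|,
    Finset.prod_pos fun i _ => abs_pos.2 (hne i),
    Finset.prod_le_one (fun i _ => abs_nonneg _) fun i _ => Real.abs_sin_le_one _, fun n => ?_⟩
  have hm0 : 0 ≤ n % 8 := Int.emod_nonneg _ (by norm_num)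
  have hm8 : n % 8 < 8 := Int.emod_lt_of_pos _ (by norm_num)
  have e1 : |Real.sin ((x + n) * l)| = |Real.sin ((x + ((n % 8).toNat : ℤ)) * l)| := by
    have h1 : ((n % 8).toNat : ℤ) = n % 8 := Int.toNat_of_nonneg hm0
    have h2 : n = n % 8 + 8 * (n / 8) := by omega
    have h3 : (x + n) * l = (x + ((n % 8 : ℤ) : ℝ)) * l + ((n / 8 : ℤ) : ℝ) * Real.pi := by
      have h4 : (n : ℝ) = ((n % 8 : ℤ) : ℝ) + 8 * ((n / 8 : ℤ) : ℝ) := by exact_mod_cast h2
      rw [h4]
      unfold l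
      ring
    rw [h1, h3, Real.sin_add_int_mul_pi, abs_mul, abs_zpow, abs_neg, abs_one, one_zpow, one_mul]
  rw [e1]
  have hi : (n % 8).toNat ∈ Finset.range 8 := by
    rw [Finset.mem_range]
    omega
  calc ∏ i ∈ Finset.range 8, |Real.sin ((x + (i : ℤ)) * l)|
      ≤ |Real.sin ((x + ((n % 8).toNat : ℤ)) * l)| * 1 := by
        rw [← Finset.mul_prod_erase _ _ hi]
        refine mul_le_mul_of_nonneg_left ?_ (abs_nonneg _)
        exact Finset.prod_le_one (fun i _ => abs_nonneg _) fun i _ => Real.abs_sin_le_one _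
    _ = _ := mul_one _

/-- logarithm of a product of sines on such a line -/
theorem log_FL6 {x c : ℝ} (h0 : 0 < c) (h1 : c ≤ 1) (h : ∀ n : ℤ, c ≤ |Real.sin ((x + n) * l)|)
    (s : ℝ) (L : List (ℤ × ℤ)) (hL : ∀ p ∈ L, (8 : ℤ) ∣ p.1) :
    0 < FL L (vl (x * l) s) ∧
    |Real.log (FL L (vl (x * l) s)) - ((L.map fun p => p.2).sum : ℤ) * Real.log (Real.cosh s)| ≤
      ((L.map fun p => p.2.natAbs).sum : ℕ) * Real.log (1 / c) := by
  have hC : 0 ≤ Real.log (1 / c) := Real.log_nonneg (by rw [le_div_iff₀ h0]; linarith)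
  have hch := Real.cosh_pos s
  induction L with
  | nil => simp [FL]
  | cons p L ih =>
    obtain ⟨i1, i2⟩ := ih fun p' hp' => hL p' (List.mem_cons_of_mem _ hp')
    obtain ⟨n, hn⟩ := hL p List.mem_cons_self
    obtain ⟨y, hy⟩ : ∃ y, y = ‖Complex.sin (vl (x * l) s + (((p.1 : ℝ) * (l / 8) : ℝ) : ℂ))‖ := ⟨_, rfl⟩
    have hre : (vl (x * l) s + (((p.1 : ℝ) * (l / 8) : ℝ) : ℂ)).re = (x + n) * l := by
      rw [hn]
      simp [vl]
      ring
    have him : (vl (x * l) s + (((p.1 : ℝ) * (l / 8) : ℝ) : ℂ)).im = s := by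
      simp [vl]
    have b1 : y ≤ Real.cosh s := by
      rw [hy]
      refine (NUP1.Bd.norm_sin_le _).trans (le_of_eq ?_)
      rw [him]
    have b2 : c * Real.cosh s ≤ y := by
      rw [hy]
      refine le_trans ?_ (NUP1.Bd.le_norm_sin _)
      rw [hre, him]
      exact mul_le_mul_of_nonneg_right (h n) hch.le
    have hy0 : 0 < y := lt_of_lt_of_le (by positivity) b2
    have l1 : |Real.log y - Real.log (Real.cosh s)| ≤ Real.log (1 / c) := by
      have a1 := Real.log_le_log hy0 b1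
      have a2 := Real.log_le_log (by positivity) b2
      rw [Real.log_mul h0.ne' hch.ne'] at a2
      rw [Real.log_div one_ne_zero h0.ne', Real.log_one] at hC ⊢
      rw [abs_le]
      constructor <;> linarith
    rw [FL_cons, ← hy]
    simp only [List.map_cons, List.sum_cons]
    refine ⟨mul_pos (zpow_pos hy0 _) i1, ?_⟩
    rw [Real.log_mul (zpow_pos hy0 _).ne' i1.ne', Real.log_zpow]
    push_cast
    have e : (p.2 : ℝ) * Real.log y + Real.log (FL L (vl (x * l) s)) -
        ((p.2 : ℝ) + ((L.map fun p => p.2).sum : ℤ)) * Real.log (Real.cosh s) =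
        (p.2 : ℝ) * (Real.log y - Real.log (Real.cosh s)) + (Real.log (FL L (vl (x * l) s)) -
          ((L.map fun p => p.2).sum : ℤ) * Real.log (Real.cosh s)) := by ring
    have e2 : |(p.2 : ℝ)| = (p.2.natAbs : ℝ) := by
      rw [Nat.cast_natAbs, Int.cast_abs]
    have h3 : |(p.2 : ℝ) * (Real.log y - Real.log (Real.cosh s))| ≤
        (p.2.natAbs : ℝ) * Real.log (1 / c) := by
      rw [abs_mul, e2]
      exact mul_le_mul_of_nonneg_left l1 (Nat.cast_nonneg _)
    have h4 := abs_add_le ((p.2 : ℝ) * (Real.log y - Real.log (Real.cosh s)))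
      (Real.log (FL L (vl (x * l) s)) - ((L.map fun p => p.2).sum : ℤ) * Real.log (Real.cosh s))
    rw [← e] at h4
    push_cast at h4 i2 ⊢
    linarith [h4, h3, i2]

/-- an elementary spectator on a line which it does not meet -/
theorem ek_pt6 (k : Ek) {j : ℝ} (hj : ∀ n : ℤ, k.x + j ≠ n) : ∃ C : ℝ, 0 ≤ C ∧
    ∀ (a s : Bool) (τ t : ℝ), 0 < Ek.f a k τ s (vl ((1 - j) * l) t) ∧
      |Real.log (Ek.f a k τ s (vl ((1 - j) * l) t)) -
        2 * (sgn (s == a) * k.q) * Real.log (Real.cosh (t - τ))| ≤ C := by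
  obtain ⟨c, h0, h1, h⟩ := exists_sin_lo6 hj
  have hC : 0 ≤ Real.log (1 / c) := Real.log_nonneg (by rw [le_div_iff₀ h0]; linarith)
  refine ⟨12 * Real.log (1 / c), by positivity, fun a s τ t => ?_⟩
  have hs : ∀ n : ℤ, c ≤ |Real.sin ((k.x + j - 1 + n) * l)| := fun n => by
    have := h (n - 1)
    push_cast at this
    rwa [show k.x + j - 1 + (n : ℝ) = k.x + j + (n - 1) by ring]
  have ez : vl (k.ps * l) τ - vl ((1 - j) * l) t = vl ((k.x + j) * l) (τ - t) := by
    unfold vl Ek.ps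
    push_cast
    ring
  have ez1 : vl ((k.ps - 1) * l) τ - vl ((1 - j) * l) t = vl ((k.x + j - 1) * l) (τ - t) := by
    unfold vl Ek.ps
    push_cast
    ring
  have ec : Real.cosh (τ - t) = Real.cosh (t - τ) := by
    rw [← Real.cosh_neg, neg_sub]
  have H : ∀ (G : Bool → Bool → List (ℤ × ℤ)) (b : Bool), (∀ p ∈ G b false, (8 : ℤ) ∣ p.1) → _ :=
    fun G b hG => log_FL6 h0 h1 h (τ - t) (G b false) hG
  have H1 : ∀ (G : Bool → Bool → List (ℤ × ℤ)) (b : Bool), (∀ p ∈ G b false, (8 : ℤ) ∣ p.1) → _ :=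
    fun G b hG => log_FL6 h0 h1 hs (τ - t) (G b false) hG
  rw [ec] at H H1
  have hh : ∀ b, ∀ p ∈ hL b false, (8 : ℤ) ∣ p.1 := by decide
  have hss : ∀ b, ∀ p ∈ sL b false, (8 : ℤ) ∣ p.1 := by decide
  have dh : ∀ b, (((hL b false).map fun p => p.2).sum : ℤ) = if b then 1 else -1 := by decide
  have ds : ∀ b, (((sL b false).map fun p => p.2).sum : ℤ) = if b then 2 else -2 := by decide
  have nh : ∀ b, ((hL b false).map fun p => p.2.natAbs).sum ≤ 6 := by decide
  have ns : ∀ b, ((sL b false).map fun p => p.2.natAbs).sum ≤ 6 := by decide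
  have fh : hq a (vl (k.ps * l) τ) s (vl ((1 - j) * l) t) = FL (hL (s == a) false) (vl ((k.x + j) * l) (τ - t)) := by
    unfold hq
    rw [ez]
    by_cases hsa : s = a
    · rw [if_pos hsa, beq_iff_eq.2 hsa, Ck_norm]
    · rw [if_neg hsa, beq_eq_false_iff_ne.2 hsa, Dk_norm]
  have fs : NUGC.sq a (vl (k.ps * l) τ) s (vl ((1 - j) * l) t) = FL (sL (s == a) false) (vl ((k.x + j) * l) (τ - t)) := by
    unfold NUGC.sq
    rw [ez]
    by_cases hsa : s = a
    · rw [if_pos hsa, beq_iff_eq.2 hsa, q_norm]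
    · rw [if_neg hsa, beq_eq_false_iff_ne.2 hsa, qg_norm]
  have fs1 : NUGC.sq a (vl ((k.ps - 1) * l) τ) s (vl ((1 - j) * l) t) =
      FL (sL (s == a) false) (vl ((k.x + j - 1) * l) (τ - t)) := by
    unfold NUGC.sq
    rw [ez1]
    by_cases hsa : s = a
    · rw [if_pos hsa, beq_iff_eq.2 hsa, q_norm]
    · rw [if_neg hsa, beq_eq_false_iff_ne.2 hsa, qg_norm]
  generalize (s == a) = b at *
  have Hh := H hL b (hh b)
  have Hs := H sL b (hss b)
  have Hs1 := H1 sL b (hss b)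
  have wh : (((hL b false).map fun p => p.2.natAbs).sum : ℕ) * Real.log (1 / c) ≤ 6 * Real.log (1 / c) :=
    mul_le_mul_of_nonneg_right (by exact_mod_cast nh b) hC
  have ws : (((sL b false).map fun p => p.2.natAbs).sum : ℕ) * Real.log (1 / c) ≤ 6 * Real.log (1 / c) :=
    mul_le_mul_of_nonneg_right (by exact_mod_cast ns b) hC
  rw [dh b] at Hh
  rw [ds b] at Hs Hs1
  have qh : ∀ x : ℝ, x = 1 / 2 → 2 * (sgn b * x) = (((if b then 1 else -1 : ℤ)) : ℝ) := by
    rintro x rfl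
    cases b <;> norm_num [sgn]
  have qs : ∀ x : ℝ, x = 1 → 2 * (sgn b * x) = (((if b then 2 else -2 : ℤ)) : ℝ) := by
    rintro x rfl
    cases b <;> norm_num [sgn]
  have qr : ∀ x : ℝ, x = 2 → 2 * (sgn b * x) = 2 * (((if b then 2 else -2 : ℤ)) : ℝ) := by
    rintro x rfl
    cases b <;> norm_num [sgn]
  cases k
  case h5 | hm | h1 | hs =>
    show 0 < _ ∧ |_ - 2 * (sgn b * (1 / 2)) * _| ≤ _
    rw [qh _ rfl]
    unfold Ek.f
    dsimp only
    rw [fh]
    exact ⟨Hh.1, Hh.2.trans (by linarith)⟩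
  case q1 | qs =>
    show 0 < _ ∧ |_ - 2 * (sgn b * 1) * _| ≤ _
    rw [qs _ rfl]
    unfold Ek.f
    dsimp only
    rw [fs]
    exact ⟨Hs.1, Hs.2.trans (by linarith)⟩
  case sr =>
    show 0 < _ ∧ |_ - 2 * (sgn b * 2) * _| ≤ _
    rw [qr _ rfl]
    unfold Ek.f
    simp only
    rw [fs, fs1]
    refine ⟨mul_pos Hs.1 Hs1.1, ?_⟩
    rw [Real.log_mul Hs.1.ne' Hs1.1.ne']
    have a1 := abs_le.1 Hs.2
    have a2 := abs_le.1 Hs1.2
    rw [abs_le]
    constructor <;> nlinarith [a1.1, a1.2, a2.1, a2.2]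

/-! ### the objects -/

/-- the offsets of all the quanta of the objects at `par6`, in units of `1 / 64` -/
def o6 : Fin 8 → ℤ := ![129, 96, 160, 156, 220, 28, 2, 56]

/-- the distances of the elementary spectators, in units of `1 / 64` -/
def x6 : Ek → ℤ
  | .h5 => 16
  | .hm => -240
  | .h1 => -48
  | .hs => -24
  | .q1 => -48
  | .qs => -24
  | .sr => -152

lemma x6_eq (k : Ek) : k.x = (x6 k : ℝ) / 64 := by
  cases k <;> norm_num [Ek.x, x6]

lemma x6_o6 (k : Ek) (i : Fin 8) : ¬ (64 : ℤ) ∣ x6 k + o6 i := by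
  cases k <;> revert i <;> decide

lemma x6_ne (k : Ek) (i : Fin 8) : ∀ n : ℤ, k.x + (o6 i : ℝ) / 64 ≠ n := by
  intro n h
  rw [x6_eq] at h
  refine x6_o6 k i ⟨n, ?_⟩
  have h2 : (((x6 k + o6 i : ℤ)) : ℝ) = ((64 * n : ℤ) : ℝ) := by
    push_cast
    linarith
  exact_mod_cast h2

/-- all the spectators on all the lines of the objects -/
theorem ek_all6 : ∃ C : ℝ, 0 ≤ C ∧ ∀ (k : Ek) (i : Fin 8) (a s : Bool) (τ t : ℝ),
    0 < Ek.f a k τ s (vl ((1 - (o6 i : ℝ) / 64) * l) t) ∧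
      |Real.log (Ek.f a k τ s (vl ((1 - (o6 i : ℝ) / 64) * l) t)) -
        2 * (sgn (s == a) * k.q) * Real.log (Real.cosh (t - τ))| ≤ C := by
  choose C h0 h using fun (k : Ek) (i : Fin 8) => ek_pt6 k (x6_ne k i)
  refine ⟨∑ i : Fin 8, (C .h5 i + C .hm i + C .h1 i + C .hs i + C .q1 i + C .qs i + C .sr i),
    Finset.sum_nonneg fun i _ => ?_, fun k i a s τ t => ⟨(h k i a s τ t).1, (h k i a s τ t).2.trans ?_⟩⟩
  · have h1 := h0 .h5 i
    have h2 := h0 .hm i
    have h3 := h0 .h1 i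
    have h4 := h0 .hs i
    have h5 := h0 .q1 i
    have h6 := h0 .qs i
    have h7 := h0 .sr i
    positivity
  · have hk : C k i ≤ C .h5 i + C .hm i + C .h1 i + C .hs i + C .q1 i + C .qs i + C .sr i := by
      have h1 := h0 .h5 i
      have h2 := h0 .hm i
      have h3 := h0 .h1 i
      have h4 := h0 .hs i
      have h5 := h0 .q1 i
      have h6 := h0 .qs i
      have h7 := h0 .sr i
      cases k <;> linarith
    refine hk.trans ?_
    refine Finset.single_le_sum (f := fun i => C .h5 i + C .hm i + C .h1 i + C .hs i + C .q1 i +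
      C .qs i + C .sr i) (fun i _ => ?_) (Finset.mem_univ i)
    have h1 := h0 .h5 i
    have h2 := h0 .hm i
    have h3 := h0 .h1 i
    have h4 := h0 .hs i
    have h5 := h0 .q1 i
    have h6 := h0 .qs i
    have h7 := h0 .sr i
    positivity

lemma sgn_not6 (s a : Bool) : sgn ((!s) == a) = -sgn (s == a) := by
  cases s <;> cases a <;> norm_num [sgn]

/-- **direct factor of a spectator and an object**, two sides -/
theorem log_facL_ek6 : ∃ C : ℝ, 0 ≤ C ∧ ∀ (x : Xo) (a : Bool) (k : Ek) (τ : ℝ),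
    0 < facL6 (Ek.f a k τ) (parts6 par6 x) ∧
      |Real.log (facL6 (Ek.f a k τ) (parts6 par6 x)) -
        2 * (sgn (sp x == a) * (kq6 (k6 x) * k.q)) * Real.log (Real.cosh (ht x - τ))| ≤ C := by
  obtain ⟨C, h0, hC⟩ := ek_all6
  refine ⟨5 * C, by positivity, fun x a k τ => ?_⟩
  have q : ∀ (i : Fin 8) (j : ℝ), j = (o6 i : ℝ) / 64 → ∀ s : Bool,
      0 < Ek.f a k τ s (vl ((1 - j) * l) (ht x)) ∧
      |Real.log (Ek.f a k τ s (vl ((1 - j) * l) (ht x))) -
        2 * (sgn (s == a) * k.q) * Real.log (Real.cosh (ht x - τ))| ≤ C := by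
    rintro i j rfl s
    exact hC k i a s τ (ht x)
  have qL := q 0 par6.jL (by rw [show o6 0 = 129 from rfl]; norm_num [par6])
  have qT := q 1 (3 / 2) (by rw [show o6 1 = 96 from rfl]; norm_num)
  have qT' := q 2 (5 / 2) (by rw [show o6 2 = 160 from rfl]; norm_num)
  have qE := q 3 (2 + par6.e) (by rw [show o6 3 = 156 from rfl]; norm_num [par6])
  have qE' := q 4 (3 + par6.e) (by rw [show o6 4 = 220 from rfl]; norm_num [par6])
  have qe := q 5 par6.e (by rw [show o6 5 = 28 from rfl]; norm_num [par6])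
  have q1 := q 6 par6.j1 (by rw [show o6 6 = 2 from rfl]; norm_num [par6])
  have q2 := q 7 par6.j2 (by rw [show o6 7 = 56 from rfl]; norm_num [par6])
  generalize Real.log (Real.cosh (ht x - τ)) = Λ at *
  have eT : vl ((1 - 3 / 2) * l) (ht x) - l = vl ((1 - 5 / 2) * l) (ht x) := by
    rw [← NUO.posT_eq, posTl_vl]
  have eS : vl ((1 - (2 + par6.e)) * l) (ht x) - l = vl ((1 - (3 + par6.e)) * l) (ht x) := by
    rw [← NUO.posS_eq, posSl_vl]
  unfold parts6
  cases hk : k6 x <;> simp only [facL6, List.map_cons, List.map_nil, List.prod_cons, List.prod_nil,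
    mul_one, fac6, NUGC.fac, if_true, if_false, Bool.false_eq_true, posB_vl,
    NUO.posS_eq, NUO.posT_eq, NUO.posL_eq, eT, eS, kq6, zpow_one]
  · obtain ⟨a1, a2⟩ := qL (sp x)
    refine ⟨a1, ?_⟩
    have := abs_le.1 a2
    rw [abs_le]
    constructor <;> linarith
  · obtain ⟨a1, a2⟩ := qT (sp x)
    obtain ⟨b1, b2⟩ := qT' (sp x)
    refine ⟨mul_pos a1 b1, ?_⟩
    rw [Real.log_mul a1.ne' b1.ne']
    have := abs_le.1 a2
    have := abs_le.1 b2
    rw [abs_le]
    constructor <;> linarith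
  · obtain ⟨a1, a2⟩ := qE (sp x)
    obtain ⟨b1, b2⟩ := qE' (sp x)
    obtain ⟨c1, c2⟩ := qe (!sp x)
    rw [sgn_not6] at c2
    have ab := mul_pos a1 b1
    have cc := zpow_pos c1 2
    refine ⟨mul_pos ab cc, ?_⟩
    rw [Real.log_mul ab.ne' cc.ne', Real.log_mul a1.ne' b1.ne', Real.log_zpow]
    have := abs_le.1 a2
    have := abs_le.1 b2
    have := abs_le.1 c2
    push_cast
    rw [abs_le]
    constructor <;> linarith
  · obtain ⟨a1, a2⟩ := qE (sp x)
    obtain ⟨b1, b2⟩ := qE' (sp x)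
    obtain ⟨c1, c2⟩ := qe (!sp x)
    obtain ⟨d1, d2⟩ := qe (sp x)
    rw [sgn_not6] at c2
    have ab := mul_pos a1 b1
    have cc := zpow_pos c1 2
    have dd := zpow_pos d1 (-1)
    refine ⟨mul_pos ab (mul_pos cc dd), ?_⟩
    rw [Real.log_mul ab.ne' (mul_pos cc dd).ne', Real.log_mul cc.ne' dd.ne',
      Real.log_mul a1.ne' b1.ne', Real.log_zpow, Real.log_zpow]
    have := abs_le.1 a2
    have := abs_le.1 b2
    have := abs_le.1 c2
    have := abs_le.1 d2
    push_cast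
    rw [abs_le]
    constructor <;> linarith
  · obtain ⟨a1, a2⟩ := q1 (sp x)
    refine ⟨zpow_pos a1 _, ?_⟩
    rw [Real.log_zpow]
    have := abs_le.1 a2
    push_cast
    rw [abs_le]
    constructor <;> linarith
  · obtain ⟨a1, a2⟩ := q2 (sp x)
    refine ⟨zpow_pos a1 _, ?_⟩
    rw [Real.log_zpow]
    have := abs_le.1 a2
    push_cast
    rw [abs_le]
    constructor <;> linarith

/-- **direct factor of a spectator and an object** -/
theorem facL_ek6 : ∃ C : ℝ, 0 ≤ C ∧ ∀ (x : Xo) (a : Bool) (k : Ek) (τ : ℝ),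
    facL6 (Ek.f a k τ) (parts6 par6 x) ≤ Real.exp C *
      Real.exp (2 * (sgn (sp x == a) * (kq6 (k6 x) * k.q)) *
        Real.log (Real.cosh (ht x - τ))) := by
  obtain ⟨C, h0, hC⟩ := log_facL_ek6
  refine ⟨C, h0, fun x a k τ => ?_⟩
  obtain ⟨h1, h2⟩ := hC x a k τ
  rw [← Real.exp_add, ← Real.log_le_iff_le_exp h1]
  have := (abs_le.1 h2).2
  linarith

/-- the energy of an object and a spectator -/
theorem ES_ek6 : ∃ C : ℝ, 0 ≤ C ∧ ∀ (x : Xo) (a : Bool) (k : Ek) (τ : ℝ),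
    |2 * (sgn (sp x == a) * (kq6 (k6 x) * k.q)) * Real.log (Real.cosh (ht x - τ)) +
      ES (obSr6 par6 x) (Ek.src a k τ)| ≤ C := by
  have h : ∀ (K : Kd6) (k : Ek), ∃ C : ℝ, 0 ≤ C ∧ ∀ (σ : Bool) (x y : ℝ),
      |2 * (sgn σ * (kq6 K * k.q)) * Real.log (Real.cosh (x - y)) +
        ERc σ (kF6 par6 K) (kG6 par6 K) k.F k.G x y| ≤ C := by
    intro K k
    obtain ⟨α, hk⟩ := k.chg
    exact chg_ch (chgK6 par6_good.ok K) hk
  choose C h0 hC using h
  refine ⟨∑ K : Kd6, (C K .h5 + C K .hm + C K .h1 + C K .hs + C K .q1 + C K .qs + C K .sr),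
    Finset.sum_nonneg fun K _ => ?_, fun x a k τ => ?_⟩
  · have := h0 K
    have h1 := this .h5
    have h2 := this .hm
    have h3 := this .h1
    have h4 := this .hs
    have h5 := this .q1
    have h6 := this .qs
    have h7 := this .sr
    positivity
  · have h1 := hC (k6 x) k (sp x == a) (ht x) τ
    have h2 : C (k6 x) k ≤ C (k6 x) .h5 + C (k6 x) .hm + C (k6 x) .h1 + C (k6 x) .hs +
        C (k6 x) .q1 + C (k6 x) .qs + C (k6 x) .sr := by
      have := h0 (k6 x)
      have h1 := this .h5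
      have h2 := this .hm
      have h3 := this .h1
      have h4 := this .hs
      have h5 := this .q1
      have h6 := this .qs
      have h7 := this .sr
      cases k <;> linarith
    have h3 := Finset.single_le_sum (f := fun K => C K .h5 + C K .hm + C K .h1 + C K .hs +
      C K .q1 + C K .qs + C K .sr) (fun K _ => by
        have := h0 K
        have h1 := this .h5
        have h2 := this .hm
        have h3 := this .h1
        have h4 := this .hs
        have h5 := this .q1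
        have h6 := this .qs
        have h7 := this .sr
        positivity) (Finset.mem_univ (k6 x))
    exact h1.trans (h2.trans h3)

/-- **a spectator and an object**: direct factor and response -/
theorem pair_ek6 : ∃ C : ℝ, 1 ≤ C ∧ ∀ (x : Xo) (d : Spt),
    facL6 d.f (parts6 par6 x) * Real.exp (ES (obSr6 par6 x) d.src) ≤ C := by
  obtain ⟨C, h0, hC⟩ := ES_ek6
  obtain ⟨C', h0', hC'⟩ := facL_ek6
  refine ⟨Real.exp (C' + C), Real.one_le_exp (by positivity), fun x d => ?_⟩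
  have h1 := hC' x d.1 d.2.1 d.2.2
  have h2 := (abs_le.1 (hC x d.1 d.2.1 d.2.2)).2
  obtain ⟨X, hX⟩ : ∃ X, X = 2 * (sgn (sp x == d.1) * (kq6 (k6 x) * d.2.1.q)) *
    Real.log (Real.cosh (ht x - d.2.2)) := ⟨_, rfl⟩
  rw [← hX] at h1 h2
  calc facL6 d.f (parts6 par6 x) * Real.exp (ES (obSr6 par6 x) d.src)
      ≤ (Real.exp C' * Real.exp X) * Real.exp (ES (obSr6 par6 x) d.src) :=
        mul_le_mul_of_nonneg_right h1 (Real.exp_pos _).le
    _ = Real.exp (C' + (X + ES (obSr6 par6 x) d.src)) := by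
        rw [Real.exp_add, Real.exp_add]
        ring
    _ ≤ Real.exp (C' + C) := by
        refine Real.exp_le_exp.2 ?_
        have : X + ES (obSr6 par6 x) d.src ≤ C := h2
        linarith

variable {κ : Type*} [Fintype κ]

theorem facL_spM6 (D : κ → Spt) (A : List Part6) :
    facL6 (spM D) A = ∏ d, facL6 (D d).f A := by
  rw [← facL6_prod]
  rfl

/-- **all spectators and one object** -/
theorem asm_obj6 : ∃ C : ℝ, 1 ≤ C ∧ ∀ (x : Xo) {κ : Type} [Fintype κ] (D : κ → Spt),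
    facL6 (spM D) (parts6 par6 x) *
      Real.exp (∑ d, ES (obSr6 par6 x) (D d).src) ≤ C ^ Fintype.card κ := by
  obtain ⟨C, h1, hC⟩ := pair_ek6
  refine ⟨C, h1, fun x κ _ D => ?_⟩
  rw [facL_spM6, Real.exp_sum, ← Finset.prod_mul_distrib]
  calc ∏ d, facL6 (D d).f (parts6 par6 x) * Real.exp (ES (obSr6 par6 x) (D d).src)
      ≤ ∏ _d : κ, C := Finset.prod_le_prod (fun d _ => mul_nonneg
        (facL6_nonneg (fun s u => Ek.f_nonneg _ _ _ _ _) _) (Real.exp_pos _).le)
        fun d _ => hC x (D d)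
    _ = C ^ Fintype.card κ := by rw [Finset.prod_const, Finset.card_univ]

/-- **all spectators and all objects** -/
theorem asm_conf6 : ∃ C : ℝ, 1 ≤ C ∧ ∀ {r : ℕ} (O : Fin r → Xo) {κ : Type} [Fintype κ]
    (D : κ → Spt), (∏ i, facL6 (spM D) (cons6 par6 O i)) *
      Real.exp (∑ i, ∑ d, ES (obSr6 par6 (O i)) (D d).src) ≤ (C ^ Fintype.card κ) ^ r := by
  obtain ⟨C, h1, hC⟩ := asm_obj6
  refine ⟨C, h1, fun {r} O κ _ D => ?_⟩
  rw [Real.exp_sum, ← Finset.prod_mul_distrib]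
  calc ∏ i, facL6 (spM D) (cons6 par6 O i) * Real.exp (∑ d, ES (obSr6 par6 (O i)) (D d).src)
      ≤ ∏ _i : Fin r, C ^ Fintype.card κ := Finset.prod_le_prod (fun i _ => mul_nonneg
        (facL6_nonneg (fun s u => spM_nonneg D s u) _) (Real.exp_pos _).le)
        fun i _ => hC (O i) D
    _ = _ := by rw [Finset.prod_const, Finset.card_univ, Fintype.card_fin]

/-- the energies of objects and spectators are symmetric -/
theorem sym_ek6 {P : Par6} (hP : Ok6 P) (x : Xo) (d : Spt) : Sym (obSr6 P x) d.src := by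
  obtain ⟨α, hk⟩ := d.2.1.chg
  have h1 := ERc_comm (chgK6 hP (k6 x)) hk (sp x == d.1) (ht x) d.2.2
  have h2 := ERc_swap hk (chgK6 hP (k6 x)) (sp x == d.1) (ht x) d.2.2
  have e : (sp x == d.1) = (d.1 == sp x) := by
    cases sp x <;> cases d.1 <;> rfl
  show ERc (sp x == d.1) _ _ _ _ (ht x) d.2.2 = ERc (d.1 == sp x) _ _ _ _ d.2.2 (ht x)
  rw [h1, h2, e]

end

end PHK
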