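import Pool.Agent.PHK.KB6

/-!
# The forms of the certificate from the bordered matrices (helper92)

Abstract half, at one `z > 0` (`z = l k`):

* `ix7 : Option Kd6 → Fin 7` (order `L, T, E, F, H1, H2`, `none` = the line of the quanta = `6`), `sum7`;
* `kapS`: the charges of the cores of the same pairs (`2` on the diagonal, `1` for `E, F`), `kapS_nonneg`: its form
  is nonnegative; `kap7`;
* `core_tau`: `cosh (4 z) - cosh ((4 - e) z) ≤ (1 - exp (-(e z))) sinh (4 z)`;
* **`schur7`**: a nonnegative bordered form gives the nonnegative form `D - 2 a a' / u - N`.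
-/

set_option autoImplicit false

open Finset

noncomputable section

namespace PHK

/-- index of a kind (`none` = the line of the quanta) -/
def ix7 : Option Kd6 → Fin 7
  | some .L => 0
  | some .T => 1
  | some .E => 2
  | some .F => 3
  | some .H1 => 4
  | some .H2 => 5
  | none => 6

/-- kind of an index -/
def xi7 : Fin 7 → Option Kd6
  | 0 => some .L
  | 1 => some .T
  | 2 => some .E
  | 3 => some .F
  | 4 => some .H1
  | 5 => some .H2
  | 6 => none

/-- indices of the bordered matrix -/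
def eq7 : Fin 7 ≃ Option Kd6 where
  toFun := xi7
  invFun := ix7
  left_inv := by decide
  right_inv := by
    intro o
    rcases o with _ | K
    · rfl
    · cases K <;> rfl

theorem sum7 (f : Fin 7 → ℝ) : ∑ i, f i = f 6 + ∑ K : Kd6, f (ix7 (some K)) := by
  rw [← eq7.symm.sum_comp f, Fintype.sum_option]
  rfl

/-- charges of the cores of the same pairs -/
def kapS : Kd6 → Kd6 → ℝ
  | .L, .L => 2
  | .T, .T => 2
  | .E, .E => 2
  | .F, .F => 2
  | .H1, .H1 => 2
  | .H2, .H2 => 2
  | .E, .F => 1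
  | .F, .E => 1
  | _, _ => 0

theorem sumK6 (f : Kd6 → ℝ) : ∑ K : Kd6, f K = f .L + f .T + f .E + f .F + f .H1 + f .H2 := by
  have h : (Finset.univ : Finset Kd6) = {.L, .T, .E, .F, .H1, .H2} := by
    ext K
    cases K <;> simp
  rw [h]
  simp only [Finset.sum_insert, Finset.mem_insert, Finset.mem_singleton, Finset.sum_singleton, reduceCtorEq,
    or_self, not_false_eq_true]
  ring

theorem kapS_nonneg (x : Kd6 → ℝ) : 0 ≤ ∑ K, ∑ K', x K * x K' * kapS K K' := by
  simp only [sumK6, kapS]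
  nlinarith [sq_nonneg (x .L), sq_nonneg (x .T), sq_nonneg (x .E), sq_nonneg (x .F), sq_nonneg (x .H1),
    sq_nonneg (x .H2), sq_nonneg (x .E + x .F)]

/-- charges of the cores, bordered -/
def kap7 (i j : Fin 7) : ℝ :=
  match xi7 i, xi7 j with
  | some K, some K' => kapS K K'
  | _, _ => 0

/-- a core of width `e` against `sinh` -/
theorem core_tau (e z : ℝ) :
    Real.cosh (4 * z) - Real.cosh ((4 - e) * z) ≤ (1 - Real.exp (-(e * z))) * Real.sinh (4 * z) := by
  have h1 : (4 - e) * z = 4 * z - e * z := by ring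
  have h2 : Real.sinh (4 * z) ≤ Real.cosh (4 * z) := (Real.sinh_lt_cosh _).le
  have h3 : 1 ≤ Real.cosh (e * z) := Real.one_le_cosh _
  have h4 : Real.exp (-(e * z)) = Real.cosh (e * z) - Real.sinh (e * z) := by
    rw [Real.cosh_sub_sinh]
  rw [h1, Real.cosh_sub, h4]
  nlinarith

/-- **a nonnegative bordered form gives a nonnegative form**, `c` = the common factor, `b` = the bordered matrix
without the cores of the same pairs -/
theorem schur7 {b κ : Fin 7 → Fin 7 → ℝ} {D N : Kd6 → Kd6 → ℝ} {a : Kd6 → ℝ} {u c w t : ℝ} (hc : 0 < c)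
    (hu : 0 < u) (hwt : w ≤ t)
    (hκ : ∀ K K', κ (ix7 (some K)) (ix7 (some K')) = kapS K K')
    (hκ1 : ∀ K, κ (ix7 (some K)) 6 = 0) (hκ2 : ∀ K, κ 6 (ix7 (some K)) = 0) (hκ3 : κ 6 6 = 0)
    (hb : ∀ v : Fin 7 → ℝ, 0 ≤ ∑ i, ∑ j, (b i j - c * t * κ i j) * v i * v j)
    (h1 : ∀ K K', b (ix7 (some K)) (ix7 (some K')) = c * (D K K' - N K K' + kapS K K' * w))
    (h2 : ∀ K, b (ix7 (some K)) 6 = c * (2 * a K)) (h3 : ∀ K, b 6 (ix7 (some K)) = c * (2 * a K))
    (h4 : b 6 6 = c * (2 * u)) (x : Kd6 → ℝ) :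
    0 ≤ ∑ K, ∑ K', x K * x K' * (D K K' - 2 * (a K * a K' / u) - N K K') := by
  set S : ℝ := ∑ K, a K * x K with hS
  have key := hb fun i => match xi7 i with
    | some K => x K
    | none => -(S / u)
  have hx : ∀ K : Kd6, xi7 (ix7 (some K)) = some K := fun K => by cases K <;> rfl
  have h6 : xi7 6 = none := rfl
  simp only [sum7, hx, h6, hκ, hκ1, hκ2, hκ3, h1, h2, h3, h4, mul_zero, sub_zero] at key
  have hk := kapS_nonneg x
  have e1 : ∑ K, ∑ K', x K * x K' * (a K * a K') = S ^ 2 := by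
    rw [hS, sq, Finset.sum_mul_sum]
    refine Finset.sum_congr rfl fun K _ => Finset.sum_congr rfl fun K' _ => ?_
    ring
  have e2 : ∑ K, ∑ K', x K * x K' * (D K K' - 2 * (a K * a K' / u) - N K K') =
      ∑ K, ∑ K', x K * x K' * (D K K' - N K K') - 2 / u * S ^ 2 := by
    rw [← e1, Finset.mul_sum, ← Finset.sum_sub_distrib]
    refine Finset.sum_congr rfl fun K _ => ?_
    rw [Finset.mul_sum, ← Finset.sum_sub_distrib]
    refine Finset.sum_congr rfl fun K' _ => ?_
    ring
  have e3 : ∑ K, ∑ K', (c * (D K K' - N K K' + kapS K K' * w) - c * t * kapS K K') * x K * x K' =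
      c * (∑ K, ∑ K', x K * x K' * (D K K' - N K K') - (t - w) * ∑ K, ∑ K', x K * x K' * kapS K K') := by
    rw [Finset.mul_sum, ← Finset.sum_sub_distrib, Finset.mul_sum]
    refine Finset.sum_congr rfl fun K _ => ?_
    rw [Finset.mul_sum, ← Finset.sum_sub_distrib, Finset.mul_sum]
    refine Finset.sum_congr rfl fun K' _ => ?_
    ring
  have e4 : ∑ K, (c * (2 * a K) * -(S / u) * x K) = c * (2 * -(S / u) * S) := by
    rw [hS, Finset.mul_sum, Finset.mul_sum]
    refine Finset.sum_congr rfl fun K _ => ?_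
    ring
  have e5 : ∑ K, (c * (2 * a K) * x K * -(S / u)) = c * (2 * -(S / u) * S) := by
    rw [← e4]
    exact Finset.sum_congr rfl fun K _ => by ring
  rw [Finset.sum_add_distrib, e3, e4, e5] at key
  rw [e2]
  have e6 : c * (2 * u) * -(S / u) * -(S / u) + c * (2 * -(S / u) * S) + (c * (2 * -(S / u) * S) +
      c * (∑ K, ∑ K', x K * x K' * (D K K' - N K K') - (t - w) * ∑ K, ∑ K', x K * x K' * kapS K K')) =
      c * (∑ K, ∑ K', x K * x K' * (D K K' - N K K') - 2 / u * S ^ 2 -
        (t - w) * ∑ K, ∑ K', x K * x K' * kapS K K') := by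
    field_simp
    ring
  have h7 : 0 ≤ c * (∑ K, ∑ K', x K * x K' * (D K K' - N K K') - 2 / u * S ^ 2 -
        (t - w) * ∑ K, ∑ K', x K * x K' * kapS K K') := by
    rw [← e6]
    linarith
  have h8 := nonneg_of_mul_nonneg_right h7 hc
  have h9 : 0 ≤ (t - w) * ∑ K, ∑ K', x K * x K' * kapS K K' := mul_nonneg (by linarith) hk
  linarith

end PHK

end
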