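import Pool.Agent.PHK.DirQ
import Pool.Agent.NUM3.DrF

/-!
# Cosine form of the direct energies of the six kinds (helper64)

`Dr6_CF`: `Dr6 n P σ κ κ'` has the cosine form with growth charge `-2 sgn σ * qc6 κ * qc6 κ'` and
transform `-DrM6 n P σ κ κ' (l k) / (k sinh (π k / 2))`; `cr n y z = cosh ((4 - m8 y) z)`, `m8 y` = `y`
modulo `8`, minus the core (of scale `2 ^ n`) at `m8 y = 0`.  `DrM64`: the same for offsets in `ℤ / 64`.
-/

set_option autoImplicit false

noncomputable section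

open MeasureTheory Set
open NUMF (sk)

namespace PHK

open NUP1 NUO NUDispR NUDispO Pool.Agent.NUM3

/-- representative of `y` modulo `8` in `[0, 8)` -/
def m8 (y : ℝ) : ℝ := 8 * Int.fract (y / 8)

lemma m8_nonneg (y : ℝ) : 0 ≤ m8 y := by
  unfold m8; have := Int.fract_nonneg (y / 8); positivity

lemma m8_lt (y : ℝ) : m8 y < 8 := by
  unfold m8; have := Int.fract_lt_one (y / 8); linarith

lemma m8_eq (y : ℝ) : y = m8 y + 8 * ⌊y / 8⌋ := by
  unfold m8; have := Int.self_sub_floor (y / 8); linarith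

/-- the core removed, in units `1 / (k sinh (π k / 2))`, `z = l k` -/
def cor (n : ℕ) (z : ℝ) : ℝ := Real.sinh (4 * z) * Real.tanh (2 * z / 2 ^ n)

/-- transform of `lam n (y l)`, in units `1 / (k sinh (π k / 2))`, `z = l k` -/
def cr (n : ℕ) (y z : ℝ) : ℝ := Real.cosh ((4 - m8 y) * z) - if m8 y = 0 then cor n z else 0

theorem GK_real6 (n : ℕ) (t : ℝ) : GK n (t : ℂ) = Pool.Agent.NUM3.GC n t := by
  have h : ∀ j : ℕ, ‖Complex.cosh ((2 : ℂ) ^ j * (t : ℂ))‖ = Real.cosh (2 ^ j * t) := by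
    intro j
    rw [show (2 : ℂ) ^ j * (t : ℂ) = ((2 ^ j * t : ℝ) : ℂ) by push_cast; rfl, ← Complex.ofReal_cosh,
      Complex.norm_real, Real.norm_of_nonneg (Real.cosh_pos _).le]
  unfold GK Pool.Agent.NUM3.GC
  simp_rw [h]
  ring

theorem sk_eq6 (k : ℝ) : sk k = Real.sinh (4 * (l * k)) := by
  unfold sk l
  congr 1
  ring

theorem lam_CF6 (n : ℕ) (y : ℝ) :
    CF (fun t => lam n (y * l) t) 1 (fun k => cr n y (l * k) / (k * sk k)) := by
  have hpi := Real.pi_pos
  have hper : ∀ (x : ℂ) (j : ℤ), ‖Complex.sin (x + j * Real.pi)‖ = ‖Complex.sin x‖ := by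
    intro x j
    have h := Complex.sin_antiperiodic.add_int_mul_eq (x := x) j
    rw [h]
    rcases Int.even_or_odd j with hj | hj
    · simp [Int.negOnePow_even j hj]
    · simp [Int.negOnePow_odd j hj]
  have hy := m8_eq y
  set N : ℤ := ⌊y / 8⌋ with hN
  have hyl : y * l = m8 y * l + N * Real.pi := by
    conv_lhs => rw [hy]
    unfold l; ring
  by_cases h : m8 y = 0
  · have hs : Real.sin (y * l) = 0 := by
      rw [hyl, h, zero_mul, zero_add]; exact Real.sin_int_mul_pi _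
    refine (CF_GC n).congr (fun t => ?_) rfl fun k hk => ?_
    · rw [lam_core hs, GK_real6]
    · unfold cr gc
      rw [if_pos h, h, sk_eq6]
      have e1 : Real.pi / 2 * k = 4 * (l * k) := by unfold l; ring
      have e2 : Real.pi / 2 ^ (n + 2) * k = 2 * (l * k) / 2 ^ n := by
        unfold l; rw [pow_add]; field_simp; ring
      rw [e1, e2]
      have h2 : Real.sinh (4 * (l * k)) ≠ 0 :=
        (Real.sinh_pos_iff.2 (by have := l_pos; positivity)).ne'
      have h3 : k ≠ 0 := ne_of_gt hk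
      unfold cor
      rw [sub_zero]
      generalize l * k = z at h2 ⊢
      field_simp
  · have h0 : 0 < m8 y * l := mul_pos (lt_of_le_of_ne (m8_nonneg y) (Ne.symm h)) (by unfold l; positivity)
    have h1 : m8 y * l < Real.pi := by
      have := m8_lt y
      unfold l
      nlinarith
    have hs : Real.sin (y * l) ≠ 0 := by
      rw [hyl, Real.sin_add_int_mul_pi]
      have := Real.sin_pos_of_pos_of_lt_pi h0 h1
      exact mul_ne_zero (by
        rcases Int.even_or_odd N with hj | hj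
        · simp [hj.neg_one_zpow]
        · simp [hj.neg_one_zpow]) this.ne'
    refine (CF_sin h0 h1).congr (fun t => ?_) rfl fun k hk => ?_
    · rw [lam_reg hs]
      have e1 : ((y * l : ℝ) : ℂ) + t * Complex.I =
          (((m8 y * l : ℝ) : ℂ) + t * Complex.I) + N * (Real.pi : ℂ) := by
        rw [hyl]; push_cast; ring
      rw [e1, hper]
    · unfold cr
      rw [if_neg h, sub_zero]
      congr 2
      unfold l
      ring

/-- transform of `Lam n L x`, in units `1 / (k sinh (π k / 2))` -/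
def La6 (n : ℕ) (L : List (ℤ × ℤ)) (x z : ℝ) : ℝ := (L.map fun p => (p.2 : ℝ) * cr n (x + p.1) z).sum

theorem Lam_CF6 (n : ℕ) (L : List (ℤ × ℤ)) (x : ℝ) : CF (fun t => Lam n L x t) (Na L)
    (fun k => La6 n L x (l * k) / (k * sk k)) := by
  have h := CF.list L (f := fun p t => (p.2 : ℝ) * lam n ((x + p.1) * l) t)
    (N := fun p => (p.2 : ℝ) * 1) (m := fun p k => (p.2 : ℝ) *
      (cr n (x + p.1) (l * k) / (k * sk k))) fun p _ => (lam_CF6 n _).smul _
  refine h.congr (fun t => rfl) ?_ fun k _ => ?_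
  · unfold Na
    rw [sum_cast]
    congr 1
    refine List.map_congr_left fun p _ => ?_
    ring
  · unfold La6
    rw [div_eq_mul_inv, ← List.sum_map_mul_right]
    congr 1
    refine List.map_congr_left fun p _ => ?_
    ring

/-- growth charge of `-Dr6` -/
def DrN6 (P : Par6) (σ : Bool) (κ κ' : Kd6) : ℤ :=
  ((cd6 P κ).map fun a => ((cd6 P κ').map fun b => a.2 * b.2 * Na (LL6 σ a b)).sum).sum

/-- transform of `-Dr6 n`, in units `1 / (k sinh (π k / 2))`, `z = l k` -/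
def DrM6 (n : ℕ) (P : Par6) (σ : Bool) (κ κ' : Kd6) (z : ℝ) : ℝ :=
  ((cd6 P κ).map fun a => ((cd6 P κ').map fun b =>
    ((a.2 * b.2 : ℤ) : ℝ) * La6 n (LL6 σ a b) (a.1.2.2 - b.1.2.2) z).sum).sum

/-- charge of a kind: own minus other species -/
def qc6 : Kd6 → ℤ
  | .L => 1
  | .T => 2
  | .E => 0
  | .F => -1
  | .H1 => -1
  | .H2 => -1

theorem DrN6_eq (P : Par6) (σ : Bool) (κ κ' : Kd6) :
    DrN6 P σ κ κ' = (if σ then 1 else -1) * (2 * (qc6 κ * qc6 κ')) := by
  cases σ <;> cases κ <;> cases κ' <;>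
    simp [DrN6, cd6, LL6, Na, NUDispO.Ls, NUDispO.Lp, NUDispO.Lc, qc6]

/-- **cosine form of the direct energies** -/
theorem Dr6_CF (n : ℕ) (P : Par6) (σ : Bool) (κ κ' : Kd6) : CF (fun t => Dr6 n P σ κ κ' t)
    (-(sgn σ * (2 * (qc6 κ * qc6 κ')))) (fun k => -(DrM6 n P σ κ κ' (l * k) / (k * sk k))) := by
  have h := (CF.list (cd6 P κ) (f := fun a t => ((cd6 P κ').map fun b =>
      ((a.2 * b.2 : ℤ) : ℝ) * Lam n (LL6 σ a b) (a.1.2.2 - b.1.2.2) t).sum)
      (N := fun a => ((cd6 P κ').map fun b =>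
        ((a.2 * b.2 : ℤ) : ℝ) * ((Na (LL6 σ a b) : ℤ) : ℝ)).sum)
      (m := fun a k => ((cd6 P κ').map fun b =>
      ((a.2 * b.2 : ℤ) : ℝ) * (La6 n (LL6 σ a b) (a.1.2.2 - b.1.2.2) (l * k) / (k * sk k))).sum)
      fun a _ => CF.list (cd6 P κ') fun b _ => (Lam_CF6 n _ _).smul _).neg
  refine h.congr (fun t => rfl) ?_ fun k _ => ?_
  · have e : (sgn σ * (2 * (qc6 κ * qc6 κ')) : ℝ) = ((DrN6 P σ κ κ' : ℤ) : ℝ) := by
      rw [DrN6_eq]; unfold sgn; cases σ <;> simp
    rw [e]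
    unfold DrN6
    rw [sum_cast]
    congr 2
    refine List.map_congr_left fun a _ => ?_
    rw [sum_cast]
    congr 1
    refine List.map_congr_left fun b _ => ?_
    push_cast
    ring
  · unfold DrM6
    congr 1
    rw [div_eq_mul_inv, ← List.sum_map_mul_right]
    congr 1
    refine List.map_congr_left fun a _ => ?_
    rw [← List.sum_map_mul_right]
    congr 1
    refine List.map_congr_left fun b _ => ?_
    ring

/-! ### offsets in `ℤ / 64` -/

/-- parameters in units `1 / 64` -/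
structure P64 where
  jL : ℤ
  e : ℤ
  j1 : ℤ
  j2 : ℤ

/-- the parameters -/
def P64.par (q : P64) : Par6 := ⟨q.jL / 64, q.e / 64, q.j1 / 64, q.j2 / 64⟩

/-- transform of `lam n (j l / 64)` -/
def crz (n : ℕ) (j : ℤ) (z : ℝ) : ℝ :=
  Real.cosh ((256 - (j % 512 : ℤ)) * (z / 64)) - if j % 512 = 0 then cor n z else 0

lemma m8_div (j : ℤ) : m8 ((j : ℝ) / 64) = ((j % 512 : ℤ) : ℝ) / 64 := by
  have h := Int.mul_ediv_add_emod j 512
  have h0 : 0 ≤ j % 512 := Int.emod_nonneg j (by norm_num)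
  have h1 : j % 512 < 512 := Int.emod_lt_of_pos j (by norm_num)
  unfold m8
  have e : (j : ℝ) / 64 / 8 = ((j % 512 : ℤ) : ℝ) / 512 + ((j / 512 : ℤ) : ℝ) := by
    have : (j : ℝ) = 512 * ((j / 512 : ℤ) : ℝ) + ((j % 512 : ℤ) : ℝ) := by exact_mod_cast h.symm
    rw [this]; push_cast; ring
  rw [e, Int.fract_add_intCast, Int.fract_eq_self.2]
  · ring
  · have h0' : (0 : ℝ) ≤ ((j % 512 : ℤ) : ℝ) := by exact_mod_cast h0
    have h1' : ((j % 512 : ℤ) : ℝ) < 512 := by exact_mod_cast h1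
    constructor
    · positivity
    · linarith

lemma cr_div (n : ℕ) (j : ℤ) (z : ℝ) : cr n ((j : ℝ) / 64) z = crz n j z := by
  unfold cr crz
  rw [m8_div]
  have h : (((j % 512 : ℤ) : ℝ) / 64 = 0) ↔ (j % 512 = 0) := by
    rw [div_eq_zero_iff]
    norm_num
  simp only [h]
  congr 2
  ring

/-- constituents with positions in units `l / 64` -/
def cz6 (q : P64) : Kd6 → List ((Bool × Bool × ℤ) × ℤ)
  | .L => [((true, false, 64 - q.jL), 1)]
  | .T => [((true, true, -32), 1)]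
  | .E => [((true, true, -(64 + q.e)), 1), ((false, false, 64 - q.e), 2)]
  | .F => [((true, true, -(64 + q.e)), 1), ((false, false, 64 - q.e), 2), ((true, false, 64 - q.e), -1)]
  | .H1 => [((true, false, 64 - q.j1), -1)]
  | .H2 => [((true, false, 64 - q.j2), -1)]

/-- the constituent with real position -/
def rz (a : (Bool × Bool × ℤ) × ℤ) : (Bool × Bool × ℝ) × ℤ := ((a.1.1, a.1.2.1, (a.1.2.2 : ℝ) / 64), a.2)

lemma cd6_cz (q : P64) (κ : Kd6) : cd6 q.par κ = (cz6 q κ).map rz := by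
  cases κ <;> simp [cd6, cz6, rz, P64.par] <;> ring_nf <;> simp

/-- transform of `-Dr6 n` for offsets in `ℤ / 64` -/
def DrM64 (n : ℕ) (q : P64) (σ : Bool) (κ κ' : Kd6) (z : ℝ) : ℝ :=
  ((cz6 q κ).map fun a => ((cz6 q κ').map fun b =>
    ((a.2 * b.2 : ℤ) : ℝ) * ((NUDispO.Ls (σ == (a.1.1 == b.1.1)) a.1.2.1 b.1.2.1).map fun p =>
      (p.2 : ℝ) * crz n (a.1.2.2 - b.1.2.2 + 64 * p.1) z).sum).sum).sum

theorem DrM6_64 (n : ℕ) (q : P64) (σ : Bool) (κ κ' : Kd6) (z : ℝ) :
    DrM6 n q.par σ κ κ' z = DrM64 n q σ κ κ' z := by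
  unfold DrM6 DrM64
  rw [cd6_cz, cd6_cz]
  simp only [List.map_map]
  congr 1
  refine List.map_congr_left fun a _ => ?_
  simp only [Function.comp]
  congr 1
  refine List.map_congr_left fun b _ => ?_
  simp only [Function.comp]
  have e : LL6 σ (rz a) (rz b) = NUDispO.Ls (σ == (a.1.1 == b.1.1)) a.1.2.1 b.1.2.1 := rfl
  rw [e]
  have e2 : (rz a).2 = a.2 ∧ (rz b).2 = b.2 := ⟨rfl, rfl⟩
  rw [e2.1, e2.2]
  congr 1
  unfold La6
  congr 1
  refine List.map_congr_left fun p _ => ?_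
  rw [← cr_div]
  congr 2
  unfold rz
  push_cast
  ring

end PHK

end
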