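import Pool.Agent.PHK.AmpK
import Pool.Agent.PHK.DirF

/-!
# The dressed pair kernel of the six kinds as a cosine integral

`pair_id6`: `Dr6 kk P σ κ κ' (x - y) - ER6 P σ κ κ' x y = ∫ qM6 kk P σ κ κ' k cos (k (x - y))`
(cores of scale `2 ^ kk` removed), `qM6 = (MP6 + sgn σ MM6) / 2 / (k sinh (πk/2))`, `MP6`, `MM6` = the
forms of the sum and of the difference of the species.
-/

set_option autoImplicit false

open MeasureTheory Set Filter Topology

namespace PHK

noncomputable section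

open NUMF (sk l)
open Pool.Agent.NUM3 (CF sgn)

/-- the form of the sum of the species -/
def MP6 (kk : ℕ) (P : Par6) (κ κ' : Kd6) (k : ℝ) : ℝ :=
  DrM6 kk P true κ κ' (l * k) + DrM6 kk P false κ κ' (l * k) - 2 * (amP6 P κ k * amP6 P κ' k / uP6 k)

/-- the form of the difference of the species -/
def MM6 (kk : ℕ) (P : Par6) (κ κ' : Kd6) (k : ℝ) : ℝ :=
  DrM6 kk P true κ κ' (l * k) - DrM6 kk P false κ κ' (l * k) - 2 * (amM6 P κ k * amM6 P κ' k / uM6 k)

/-- transform of the dressed pair kernel -/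
def qM6 (kk : ℕ) (P : Par6) (σ : Bool) (κ κ' : Kd6) (k : ℝ) : ℝ :=
  (MP6 kk P κ κ' k + sgn σ * MM6 kk P κ κ' k) / 2 / (k * sk k)

lemma qc6_kq (κ : Kd6) : ((qc6 κ : ℤ) : ℝ) = kq6 κ := by
  cases κ <;> simp [qc6, kq6]

/-- **the dressed pair kernel as a cosine integral** -/
theorem pair_id6 {P : Par6} (h : Ok6 P) (kk : ℕ) (σ : Bool) (κ κ' : Kd6) :
    IntegrableOn (qM6 kk P σ κ κ') (Ioi 0) ∧ ∀ x y, Dr6 kk P σ κ κ' (x - y) - ER6 P σ κ κ' x y =
      ∫ k in Ioi (0:ℝ), qM6 kk P σ κ κ' k * Real.cos (k * (x - y)) := by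
  obtain ⟨F, eF, cF⟩ := ER6_CF' h σ κ κ'
  have hd := Dr6_CF kk P σ κ κ'
  have hc : CF (fun t => Dr6 kk P σ κ κ' t - F t) 0 (fun k => -qM6 kk P σ κ κ' k) := by
    refine (hd.sub cF).congr (fun _ => rfl) ?_ fun k hk => ?_
    · rw [qc6_kq, qc6_kq]
      ring
    · have el : NUP1.l = l := rfl
      rw [el]
      unfold qM6 MP6 MM6
      cases σ
      · simp only [sgn, Bool.false_eq_true, if_false]
        ring
      · simp only [sgn, if_true]
        ring
  obtain ⟨i, e⟩ := hc.eval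
  refine ⟨?_, fun x y => ?_⟩
  · have := i.neg
    simpa using this
  · rw [eF, e, ← integral_neg]
    congr 1
    funext k
    ring

end

end PHK
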