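import Pool.Agent.PHK.NCert
import Pool.Agent.PHK.PairI

/-!
# The table of the certificate (helper79's numbers, `n = 12`) (helper38)

`kpZ`, `epQ`: contact multiplicity and width; `aZ`, `bZ`: coefficients of `gk (1/2) 1`, `gk 1 2` in units
`1 / 512`.  `T79`: the table; `NP12`, `NM12` its forms; `NP12_eq`, `NM12_eq`: explicit sums of `cosh`.

* **`cert12`**: `fP` and `fM` for `MP6 12 par6`, `MM6 12 par6` give the certificate `Cert6 12 par6 c0`.
-/

set_option autoImplicit false

open MeasureTheory Set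

noncomputable section

namespace PHK

open NUMF (sk sk_pos l)
open NUPosK NUO
open Pool.Agent.NUM3 (sgn)

/-- contact multiplicities (`true`: same family) -/
def kpZ : Bool → Kd6 → Kd6 → ℤ
  | true, .L, .L => 2
  | true, .T, .T => 2
  | true, .E, .E => 2
  | true, .F, .F => 2
  | true, .H1, .H1 => 2
  | true, .H2, .H2 => 2
  | true, .E, .F => 1
  | true, .F, .E => 1
  | false, .E, .E => 4
  | false, .E, .F => 2
  | false, .F, .E => 2
  | _, _, _ => 0

/-- widths, in units `1 / 1024` -/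
def epZ : Bool → ℤ
  | true => 1
  | false => 512

/-- coefficients of `gk (1/2) 1`, in units `1 / 512` -/
def aZ : Bool → Kd6 → Kd6 → ℤ
  | true, .L, .T => 65
  | true, .T, .L => 65
  | true, .L, .E => 65
  | true, .E, .L => 65
  | true, .L, .F => 65
  | true, .F, .L => 65
  | true, .L, .H1 => 65
  | true, .H1, .L => 65
  | true, .T, .E => 321
  | true, .E, .T => 321
  | true, .T, .F => 65
  | true, .F, .T => 65
  | false, .L, .E => 129
  | false, .E, .L => 129
  | false, .L, .H1 => 193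
  | false, .H1, .L => 193
  | false, .T, .T => 65
  | false, .T, .E => 705
  | false, .E, .T => 705
  | false, .T, .F => 705
  | false, .F, .T => 705
  | false, .T, .H1 => 65
  | false, .H1, .T => 65
  | false, .T, .H2 => 1025
  | false, .H2, .T => 1025
  | false, .E, .E => 1985
  | false, .E, .F => 3137
  | false, .F, .E => 3137
  | false, .F, .F => 1281
  | _, _, _ => 1

/-- coefficients of `gk 1 2`, in units `1 / 512` -/
def bZ : Bool → Kd6 → Kd6 → ℤ
  | true, .L, .E => 256
  | true, .E, .L => 256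
  | false, .L, .L => 256
  | false, .L, .T => 768
  | false, .T, .L => 768
  | false, .L, .E => 1280
  | false, .E, .L => 1280
  | false, .L, .F => 1088
  | false, .F, .L => 1088
  | false, .L, .H2 => 64
  | false, .H2, .L => 64
  | false, .T, .T => 384
  | false, .T, .E => 1408
  | false, .E, .T => 1408
  | false, .T, .F => 1600
  | false, .F, .T => 1600
  | false, .E, .E => 1472
  | false, .E, .F => 960
  | false, .F, .E => 960
  | false, .F, .F => 2112
  | _, _, _ => 0

/-- **the table** -/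
def T79 (s : Bool) (K K' : Kd6) : NE :=
  ⟨kpZ s K K', epZ s / 1024, [(aZ s K K' / 512, 1 / 2, 1), (bZ s K K' / 512, 1, 2)]⟩

lemma kpZ_nonneg (s : Bool) (K K' : Kd6) : 0 ≤ kpZ s K K' := by
  cases s <;> cases K <;> cases K' <;> decide

lemma aZ_pos (s : Bool) (K K' : Kd6) : 1 ≤ aZ s K K' := by
  cases s <;> cases K <;> cases K' <;> decide

lemma bZ_nonneg (s : Bool) (K K' : Kd6) : 0 ≤ bZ s K K' := by
  cases s <;> cases K <;> cases K' <;> decide

lemma tab_symm (s : Bool) (K K' : Kd6) :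
    kpZ s K K' = kpZ s K' K ∧ aZ s K K' = aZ s K' K ∧ bZ s K K' = bZ s K' K := by
  cases s <;> cases K <;> cases K' <;> decide

theorem T79_ok (s : Bool) (K K' : Kd6) : (T79 s K K').ok 12 := by
  have h1 : (0 : ℝ) ≤ kpZ s K K' := by exact_mod_cast kpZ_nonneg s K K'
  have h2 : (1 : ℝ) ≤ aZ s K K' := by exact_mod_cast aZ_pos s K K'
  have h3 : (0 : ℝ) ≤ bZ s K K' := by exact_mod_cast bZ_nonneg s K K'
  refine ⟨h1, Or.inr ?_, ?_, ⟨_, List.mem_cons_self, ?_⟩⟩
  · cases s <;> simp only [T79, epZ] <;> norm_num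
  · intro p hp
    simp only [T79, List.mem_cons, List.not_mem_nil, or_false] at hp
    rcases hp with rfl | rfl
    · refine ⟨by positivity, by norm_num, by norm_num, by norm_num⟩
    · refine ⟨by positivity, by norm_num, by norm_num, by norm_num⟩
  · show (0:ℝ) < aZ s K K' / 512
    positivity

/-- the kernels of the table -/
def Nk (s : Bool) (K K' : Kd6) (k : ℝ) : ℝ := (T79 s K K').ker 12 k

/-- form of the sum of the species -/
def NP12 : Kd6 → Kd6 → ℝ → ℝ := NP6 12 T79
/-- form of the difference of the species -/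
def NM12 : Kd6 → Kd6 → ℝ → ℝ := NM6 12 T79

/-- one entry, explicit; the core removed -/
theorem nE_T79 (s : Bool) (K K' : Kd6) (z : ℝ) : nE 12 (T79 s K K') z =
    kpZ s K K' * (Real.cosh (4 * z) - Real.cosh ((4 - epZ s / 1024) * z) - cor 12 z) +
      aZ s K K' / 512 * (Real.cosh (7 / 2 * z) - Real.cosh (3 * z)) +
      bZ s K K' / 512 * (Real.cosh (3 * z) - Real.cosh (2 * z)) := by
  unfold nE T79 cor
  simp only [List.map_cons, List.map_nil, List.sum_cons, List.sum_nil, add_zero]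
  norm_num
  ring

/-- the form `NP12` in units `1 / (k sinh (π k / 2))` as kernels -/
theorem NP12_ker (K K' : Kd6) {k : ℝ} (hk : 0 < k) :
    NP12 K K' k = k * sk k * (Nk true K K' k + Nk false K K' k) := by
  unfold Nk
  have hs : 0 < k * sk k := mul_pos hk (sk_pos hk)
  rw [ker_eq 12 _ hk, ker_eq 12 _ hk, ← add_div, mul_div_cancel₀ _ hs.ne']
  rfl

theorem NM12_ker (K K' : Kd6) {k : ℝ} (hk : 0 < k) :
    NM12 K K' k = k * sk k * (Nk true K K' k - Nk false K K' k) := by
  unfold Nk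
  have hs : 0 < k * sk k := mul_pos hk (sk_pos hk)
  rw [ker_eq 12 _ hk, ker_eq 12 _ hk, ← sub_div, mul_div_cancel₀ _ hs.ne']
  rfl

theorem NP12_eq (K K' : Kd6) (k : ℝ) : NP12 K K' k =
    nE 12 (T79 true K K') (l * k) + nE 12 (T79 false K K') (l * k) := rfl

theorem NM12_eq (K K' : Kd6) (k : ℝ) : NM12 K K' k =
    nE 12 (T79 true K K') (l * k) - nE 12 (T79 false K K') (l * k) := rfl

/-- **the certificate from the two forms** -/
theorem cert12
    (fP : ∀ k : ℝ, 0 < k → ∀ x : Kd6 → ℝ,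
      0 ≤ ∑ K, ∑ K', x K * x K' * (MP6 12 par6 K K' k - NP12 K K' k))
    (fM : ∀ k : ℝ, 0 < k → ∀ x : Kd6 → ℝ,
      0 ≤ ∑ K, ∑ K', x K * x K' * (MM6 12 par6 K K' k - NM12 K K' k)) :
    ∃ c0 : ℝ, 0 < c0 ∧ Cert6 12 par6 c0 (MP6 12 par6) (MM6 12 par6) NP12 NM12 :=
  cert6_of T79_ok (fun s K K' => (pair_id6 par6_good.ok 12 s K K').1)
    (fun s K K' => (pair_id6 par6_good.ok 12 s K K').2) fP fM

/-- **the bound for ordered pairs from the two forms** -/
theorem stab12
    (fP : ∀ k : ℝ, 0 < k → ∀ x : Kd6 → ℝ,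
      0 ≤ ∑ K, ∑ K', x K * x K' * (MP6 12 par6 K K' k - NP12 K K' k))
    (fM : ∀ k : ℝ, 0 < k → ∀ x : Kd6 → ℝ,
      0 ≤ ∑ K, ∑ K', x K * x K' * (MM6 12 par6 K K' k - NM12 K K' k)) :
    StabProd6 par6 := by
  obtain ⟨c0, h0, C⟩ := cert12 fP fM
  exact stabProd6_of par6_good.ok nd6_par6 h0 (stabDr6_of C)

end PHK

end
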