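import Pool.Agent.PHK.SPoly
import Pool.Agent.PHK.NTab
import Pool.Agent.PHK.FormC

/-!
# The bordered forms of the certificate as integer lists (helper8)

`dL σ K K'`: the direct transform of two kinds of par6 = ⟨129, 28, 2, 56⟩ / 64 as a list (coefficient, offset);
`aL s`, `uL s`: amplitudes and denominators, doubled; `nL`: 38's table, times `512`.  In the channel `s`
(`true` = sum, `false` = difference), order L, T, E, F, H1, H2, A of `ix7`:

* `PL s i j`: the plain `7 × 7` bordered form `[[D - N, 2 a], [2 a, 2 u]]`, times `1024 exp (-4 z)`, as integer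
  polynomials in `y = exp (-z / 64)`; `PL_kind`, `PL_kind'`, `PL_amp`, `PL_amp'`, `PL_u`, ...;
* `BL s i j`: the same after the change of basis kind `- Q A` (`Q = qz s`, zero in the channel `true`);
  `form_BL`: the two forms.
-/

set_option autoImplicit false

namespace PHK

open Finset

/-- the point -/
def q6 : P64 := ⟨129, 28, 2, 56⟩

/-- direct transform, cores put back: (coefficient, offset) -/
def dL (σ : Bool) (K K' : Kd6) : List (ℤ × ℤ) :=
  (cz6 q6 K).flatMap fun a => (cz6 q6 K').flatMap fun b =>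
    (NUDispO.Ls (σ == (a.1.1 == b.1.1)) a.1.2.1 b.1.2.1).map fun p =>
      (a.2 * b.2 * p.2, a.1.2.2 - b.1.2.2 + 64 * p.1)

/-- the kernels, times `512`; the core kernels of the same family are not included -/
def nL (σ : Bool) (K K' : Kd6) : List (ℤ × ℤ) :=
  (if σ then [] else [(512 * kpZ false K K', 0), (-512 * kpZ false K K', 32)]) ++
    [(aZ σ K K', 32), (-aZ σ K K', 64), (bZ σ K K', 64), (-bZ σ K K', 128)]

/-- own amplitude of a quantum, doubled -/
def oz (j r1 r2 : ℤ) : List (ℤ × ℤ) := [(2, j), (1, 128 + j), (1, 256 - r1), (-1, 64 + j), (-1, 256 - r2)]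

/-- other amplitude of a quantum, doubled -/
def xz (j r3 : ℤ) : List (ℤ × ℤ) := [(2, 256 - j), (-2, 256 - r3), (-2, 320 - j)]

/-- own amplitude of a kind, doubled -/
def aO : Kd6 → List (ℤ × ℤ)
  | .L => oz 129 255 191
  | .T => oz 96 224 224 ++ oz 160 224 160
  | .E => oz 156 228 164 ++ oz 220 164 100 ++ smz 2 (xz 28 92)
  | .F => oz 156 228 164 ++ oz 220 164 100 ++ smz 2 (xz 28 92) ++ smz (-1) (oz 28 156 220)
  | .H1 => smz (-1) (oz 2 130 194)
  | .H2 => smz (-1) (oz 56 184 248)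

/-- other amplitude of a kind, doubled -/
def aX : Kd6 → List (ℤ × ℤ)
  | .L => xz 129 193
  | .T => xz 96 160 ++ xz 160 224
  | .E => xz 156 220 ++ xz 220 228 ++ smz 2 (oz 28 156 220)
  | .F => xz 156 220 ++ xz 220 228 ++ smz 2 (oz 28 156 220) ++ smz (-1) (xz 28 92)
  | .H1 => smz (-1) (xz 2 66)
  | .H2 => smz (-1) (xz 56 120)

/-- sign of a channel -/
def sz (s : Bool) : ℤ := if s then 1 else -1

/-- amplitude of a channel, doubled -/
def aL (s : Bool) (K : Kd6) : List (ℤ × ℤ) := aO K ++ smz (sz s) (aX K)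

/-- denominator of a channel, doubled -/
def uL (s : Bool) : List (ℤ × ℤ) := [(2, 0), (-2, 64), (2, 128), (-4 * sz s, 192), (2 * sz s, 256)]

/-- direct part minus the kernels, times `512` -/
def dN (s : Bool) (K K' : Kd6) : List (ℤ × ℤ) :=
  smz 512 (dL true K K' ++ smz (sz s) (dL false K K')) ++ smz (-1) (nL true K K' ++ smz (sz s) (nL false K K'))

/-- the plain bordered form, times `512` -/
def PC (s : Bool) : Option Kd6 → Option Kd6 → List (ℤ × ℤ)
  | some K, some K' => dN s K K'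
  | some K, none => smz 512 (aL s K)
  | none, some K => smz 512 (aL s K)
  | none, none => smz 512 (uL s)

/-- charge in the change of basis -/
def qz (s : Bool) : Kd6 → ℤ := fun K => if s then 0 else qc6 K

/-- the bordered form in the basis kind `- Q A`, times `512` -/
def BC (s : Bool) : Option Kd6 → Option Kd6 → List (ℤ × ℤ)
  | some K, some K' => PC s (some K) (some K') ++ smz (-qz s K) (PC s none (some K')) ++
      smz (-qz s K') (PC s (some K) none) ++ smz (qz s K * qz s K') (PC s none none)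
  | some K, none => PC s (some K) none ++ smz (-qz s K) (PC s none none)
  | none, some K => PC s none (some K) ++ smz (-qz s K) (PC s none none)
  | none, none => PC s none none

/-- **the plain bordered form as integer polynomials** -/
def PL (s : Bool) (i j : Fin 7) : SP := col (sp (PC s (xi7 i) (xi7 j)))

/-- **the bordered form as integer polynomials** -/
def BL (s : Bool) (i j : Fin 7) : SP := col (sp (BC s (xi7 i) (xi7 j)))

/-! ### the direct part -/

lemma cs6_flatMap {γ : Type*} (L : List γ) (f : γ → List (ℤ × ℤ)) (z : ℝ) :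
    cs6 (L.flatMap f) z = (L.map fun a => cs6 (f a) z).sum := by
  induction L with
  | nil => rfl
  | cons a L ih => rw [List.flatMap_cons, cs6_append, ih]; rfl

/-- number of the cores -/
def ct (l : List (ℤ × ℤ)) : ℤ := (l.map fun a => if a.2 % 512 = 0 then a.1 else 0).sum

/-- a list with the cores removed -/
noncomputable def ccB6 (n : ℕ) (l : List (ℤ × ℤ)) (z : ℝ) : ℝ := (l.map fun a => (a.1 : ℝ) * crz n a.2 z).sum

lemma ccB6_eq (n : ℕ) (l : List (ℤ × ℤ)) (z : ℝ) : ccB6 n l z = cs6 l z - ct l * cor n z := by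
  induction l with
  | nil => simp [ccB6, cs6, ct]
  | cons a l ih =>
    have e1 : ccB6 n (a :: l) z = (a.1 : ℝ) * crz n a.2 z + ccB6 n l z := by simp [ccB6]
    have e2 : ct (a :: l) = (if a.2 % 512 = 0 then a.1 else 0) + ct l := by simp [ct]
    rw [e1, e2, ih, cs6_cons]
    unfold crz
    split_ifs <;> push_cast <;> ring

lemma ccB6_append (n : ℕ) (l m : List (ℤ × ℤ)) (z : ℝ) : ccB6 n (l ++ m) z = ccB6 n l z + ccB6 n m z := by
  simp [ccB6, List.sum_append]

lemma ccB6_flatMap {γ : Type*} (n : ℕ) (L : List γ) (f : γ → List (ℤ × ℤ)) (z : ℝ) :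
    ccB6 n (L.flatMap f) z = (L.map fun a => ccB6 n (f a) z).sum := by
  induction L with
  | nil => rfl
  | cons a L ih => rw [List.flatMap_cons, ccB6_append, ih]; rfl

lemma par6_q6 : par6 = q6.par := by
  simp [par6, q6, P64.par]
  norm_num

theorem DrM6_ccB (n : ℕ) (σ : Bool) (K K' : Kd6) (z : ℝ) : DrM6 n par6 σ K K' z = ccB6 n (dL σ K K') z := by
  rw [par6_q6, DrM6_64]
  unfold DrM64 dL
  rw [ccB6_flatMap]
  congr 1
  refine List.map_congr_left fun a _ => ?_
  rw [ccB6_flatMap]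
  congr 1
  refine List.map_congr_left fun b _ => ?_
  unfold ccB6
  rw [List.map_map, ← List.sum_map_mul_left]
  congr 1
  refine List.map_congr_left fun p _ => ?_
  simp only [Function.comp]
  push_cast
  ring

lemma ct_dL : ∀ σ : Bool, ∀ K K' : Kd6, ct (dL σ K K') = kpZ σ K K' := by
  decide

/-- **the direct part** -/
theorem dL_eq (n : ℕ) (σ : Bool) (K K' : Kd6) (z : ℝ) :
    cs6 (dL σ K K') z = DrM6 n par6 σ K K' z + kpZ σ K K' * cor n z := by
  rw [DrM6_ccB, ccB6_eq, ct_dL]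
  ring

/-! ### the kernels -/

lemma cs6_pt (c j : ℤ) (l : List (ℤ × ℤ)) (z : ℝ) (a : ℝ) (h0 : 0 ≤ j) (h1 : j < 512)
    (ha : (256 - (j : ℝ)) / 64 = a) : cs6 ((c, j) :: l) z = c * Real.cosh (a * z) + cs6 l z := by
  rw [cs6_cons]
  show (c : ℝ) * Real.cosh ((256 - ((j % 512 : ℤ) : ℝ)) * (z / 64)) + cs6 l z = _
  rw [Int.emod_eq_of_lt h0 h1, ← ha]
  congr 3
  ring

/-- **the kernels of the different families** -/
theorem nL_false (K K' : Kd6) (z : ℝ) :
    cs6 (nL false K K') z = 512 * (nE 12 (T79 false K K') z + kpZ false K K' * cor 12 z) := by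
  rw [nE_T79]
  unfold nL
  simp only [Bool.false_eq_true, if_false, List.cons_append, List.nil_append]
  rw [cs6_pt _ _ _ _ 4 (by norm_num) (by norm_num) (by norm_num),
    cs6_pt _ _ _ _ (7 / 2) (by norm_num) (by norm_num) (by norm_num),
    cs6_pt _ _ _ _ (7 / 2) (by norm_num) (by norm_num) (by norm_num),
    cs6_pt _ _ _ _ 3 (by norm_num) (by norm_num) (by norm_num),
    cs6_pt _ _ _ _ 3 (by norm_num) (by norm_num) (by norm_num),
    cs6_pt _ _ _ _ 2 (by norm_num) (by norm_num) (by norm_num), cs6_nil,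
    show epZ false = 512 from rfl]
  push_cast
  norm_num
  ring

/-- **the kernels of the same family** -/
theorem nL_true (K K' : Kd6) (z : ℝ) :
    cs6 (nL true K K') z = 512 * (nE 12 (T79 true K K') z + kpZ true K K' * cor 12 z -
      kpZ true K K' * (Real.cosh (4 * z) - Real.cosh ((4 - 1 / 1024) * z))) := by
  rw [nE_T79]
  unfold nL
  simp only [if_true, List.nil_append]
  rw [cs6_pt _ _ _ _ (7 / 2) (by norm_num) (by norm_num) (by norm_num),
    cs6_pt _ _ _ _ 3 (by norm_num) (by norm_num) (by norm_num),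
    cs6_pt _ _ _ _ 3 (by norm_num) (by norm_num) (by norm_num),
    cs6_pt _ _ _ _ 2 (by norm_num) (by norm_num) (by norm_num), cs6_nil,
    show epZ true = 1 from rfl]
  push_cast
  ring

/-! ### the amplitudes -/

open NUC43 (cs) in
/-- a list of cosines with offsets in `ℤ / 64` -/
theorem cs_cs6 (L : List (ℝ × ℝ)) (M : List (ℤ × ℤ)) (h : L = M.map fun a =>
    ((a.1 : ℝ) / 2, (256 - ((a.2 % 512 : ℤ) : ℝ)) / 64)) (k : ℝ) : 2 * cs L k = cs6 M (NUMF.l * k) := by
  subst h
  unfold cs cs6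
  rw [List.map_map, ← List.sum_map_mul_left]
  congr 1
  refine List.map_congr_left fun a _ => ?_
  simp only [Function.comp]
  rw [show (256 - ((a.2 % 512 : ℤ) : ℝ)) / 64 * NUMF.l * k =
    (256 - ((a.2 % 512 : ℤ) : ℝ)) * (NUMF.l * k / 64) by ring]
  ring

lemma oz_eq (j r1 r2 : ℝ) (a b c : ℤ) (h1 : (a : ℝ) = 64 * j) (h2 : (b : ℝ) = 64 * r1)
    (h3 : (c : ℝ) = 64 * r2) (ha : 0 ≤ a ∧ a < 384) (hb : 0 < b ∧ b ≤ 256) (hc : 0 < c ∧ c ≤ 256) :
    NUC43.oL j r1 r2 = (oz a b c).map fun a => ((a.1 : ℝ) / 2, (256 - ((a.2 % 512 : ℤ) : ℝ)) / 64) := by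
  have e1 : a % 512 = a := Int.emod_eq_of_lt ha.1 (by omega)
  have e2 : (128 + a) % 512 = 128 + a := Int.emod_eq_of_lt (by omega) (by omega)
  have e3 : (256 - b) % 512 = 256 - b := Int.emod_eq_of_lt (by omega) (by omega)
  have e4 : (64 + a) % 512 = 64 + a := Int.emod_eq_of_lt (by omega) (by omega)
  have e5 : (256 - c) % 512 = 256 - c := Int.emod_eq_of_lt (by omega) (by omega)
  simp only [NUC43.oL, oz, List.map_cons, List.map_nil, e1, e2, e3, e4, e5]
  push_cast
  rw [h1, h2, h3]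
  ring_nf

lemma xz_eq (j r3 : ℝ) (a b : ℤ) (h1 : (a : ℝ) = 64 * j) (h2 : (b : ℝ) = 64 * r3)
    (ha : 0 ≤ a ∧ a ≤ 256) (hb : 0 < b ∧ b ≤ 256) :
    NUC43.xL j r3 = (xz a b).map fun a => ((a.1 : ℝ) / 2, (256 - ((a.2 % 512 : ℤ) : ℝ)) / 64) := by
  have e1 : (256 - a) % 512 = 256 - a := Int.emod_eq_of_lt (by omega) (by omega)
  have e2 : (256 - b) % 512 = 256 - b := Int.emod_eq_of_lt (by omega) (by omega)
  have e3 : (320 - a) % 512 = 320 - a := Int.emod_eq_of_lt (by omega) (by omega)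
  simp only [NUC43.xL, xz, List.map_cons, List.map_nil, e1, e2, e3]
  push_cast
  rw [h1, h2]
  ring_nf

lemma cs_append6 (L M : List (ℝ × ℝ)) (k : ℝ) : NUC43.cs (L ++ M) k = NUC43.cs L k + NUC43.cs M k := by
  simp [NUC43.cs, List.sum_append]

lemma o2 (j r1 r2 : ℝ) (a b c : ℤ) (h1 : (a : ℝ) = 64 * j) (h2 : (b : ℝ) = 64 * r1)
    (h3 : (c : ℝ) = 64 * r2) (ha : 0 ≤ a ∧ a < 384) (hb : 0 < b ∧ b ≤ 256) (hc : 0 < c ∧ c ≤ 256) (k : ℝ) :
    2 * NUC43.cs (NUC43.oL j r1 r2) k = cs6 (oz a b c) (NUMF.l * k) :=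
  cs_cs6 _ _ (oz_eq j r1 r2 a b c h1 h2 h3 ha hb hc) k

lemma x2 (j r3 : ℝ) (a b : ℤ) (h1 : (a : ℝ) = 64 * j) (h2 : (b : ℝ) = 64 * r3)
    (ha : 0 ≤ a ∧ a ≤ 256) (hb : 0 < b ∧ b ≤ 256) (k : ℝ) :
    2 * NUC43.cs (NUC43.xL j r3) k = cs6 (xz a b) (NUMF.l * k) :=
  cs_cs6 _ _ (xz_eq j r3 a b h1 h2 ha hb) k

/-- **amplitude on the own species** -/
theorem aO_eq (K : Kd6) (k : ℝ) : cs6 (aO K) (NUMF.l * k) = 2 * ampA6 par6 K k := by
  have q1 := o2 (129 / 64) (6 - 129 / 64) (5 - 129 / 64) 129 255 191 (by norm_num) (by norm_num) (by norm_num)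
    (by norm_num) (by norm_num) (by norm_num) k
  have q2 := o2 (3 / 2) (7 / 2) (7 / 2) 96 224 224 (by norm_num) (by norm_num) (by norm_num)
    (by norm_num) (by norm_num) (by norm_num) k
  have q3 := o2 (5 / 2) (7 / 2) (5 / 2) 160 224 160 (by norm_num) (by norm_num) (by norm_num)
    (by norm_num) (by norm_num) (by norm_num) k
  have q4 := o2 (2 + 7 / 16) (4 - 7 / 16) (3 - 7 / 16) 156 228 164 (by norm_num) (by norm_num) (by norm_num)
    (by norm_num) (by norm_num) (by norm_num) k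
  have q5 := o2 (3 + 7 / 16) (3 - 7 / 16) (2 - 7 / 16) 220 164 100 (by norm_num) (by norm_num) (by norm_num)
    (by norm_num) (by norm_num) (by norm_num) k
  have q6 := x2 (7 / 16) (7 / 16 + 1) 28 92 (by norm_num) (by norm_num) (by norm_num) (by norm_num) k
  have q7 := o2 (7 / 16) (2 + 7 / 16) (3 + 7 / 16) 28 156 220 (by norm_num) (by norm_num) (by norm_num)
    (by norm_num) (by norm_num) (by norm_num) k
  have q8 := o2 (1 / 32) (2 + 1 / 32) (3 + 1 / 32) 2 130 194 (by norm_num) (by norm_num) (by norm_num)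
    (by norm_num) (by norm_num) (by norm_num) k
  have q9 := o2 (7 / 8) (2 + 7 / 8) (3 + 7 / 8) 56 184 248 (by norm_num) (by norm_num) (by norm_num)
    (by norm_num) (by norm_num) (by norm_num) k
  cases K <;> simp only [aO, ampA6, par6, NUC43.lO, NUC43.lX, cs6_append, cs6_smz, cs_append6]
  · rw [← q1]
  · rw [← q2, ← q3]; ring
  · rw [← q4, ← q5, ← q6]; push_cast; ring
  · rw [← q4, ← q5, ← q6, ← q7]; push_cast; ring
  · rw [← q8]; push_cast; ring
  · rw [← q9]; push_cast; ring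

/-- **amplitude on the other species** -/
theorem aX_eq (K : Kd6) (k : ℝ) : cs6 (aX K) (NUMF.l * k) = 2 * ampB6 par6 K k := by
  have q1 := x2 (129 / 64) (129 / 64 + 1) 129 193 (by norm_num) (by norm_num) (by norm_num) (by norm_num) k
  have q2 := x2 (3 / 2) (5 / 2) 96 160 (by norm_num) (by norm_num) (by norm_num) (by norm_num) k
  have q3 := x2 (5 / 2) (7 / 2) 160 224 (by norm_num) (by norm_num) (by norm_num) (by norm_num) k
  have q4 := x2 (2 + 7 / 16) (3 + 7 / 16) 156 220 (by norm_num) (by norm_num) (by norm_num) (by norm_num) k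
  have q5 := x2 (3 + 7 / 16) (4 - 7 / 16) 220 228 (by norm_num) (by norm_num) (by norm_num) (by norm_num) k
  have q6 := o2 (7 / 16) (2 + 7 / 16) (3 + 7 / 16) 28 156 220 (by norm_num) (by norm_num) (by norm_num)
    (by norm_num) (by norm_num) (by norm_num) k
  have q7 := x2 (7 / 16) (7 / 16 + 1) 28 92 (by norm_num) (by norm_num) (by norm_num) (by norm_num) k
  have q8 := x2 (1 / 32) (1 / 32 + 1) 2 66 (by norm_num) (by norm_num) (by norm_num) (by norm_num) k
  have q9 := x2 (7 / 8) (7 / 8 + 1) 56 120 (by norm_num) (by norm_num) (by norm_num) (by norm_num) k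
  cases K <;> simp only [aX, ampB6, par6, NUC43.lO, NUC43.lX, cs6_append, cs6_smz, cs_append6]
  · rw [← q1]
  · rw [← q2, ← q3]; ring
  · rw [← q4, ← q5, ← q6]; push_cast; ring
  · rw [← q4, ← q5, ← q6, ← q7]; push_cast; ring
  · rw [← q8]; push_cast; ring
  · rw [← q9]; push_cast; ring

/-- amplitude of a channel -/
noncomputable def am6 (s : Bool) (K : Kd6) (k : ℝ) : ℝ := if s then amP6 par6 K k else amM6 par6 K k
/-- denominator of a channel -/
noncomputable def u6 (s : Bool) (k : ℝ) : ℝ := if s then uP6 k else uM6 k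

theorem aL_eq (s : Bool) (K : Kd6) (k : ℝ) : cs6 (aL s K) (NUMF.l * k) = 2 * am6 s K k := by
  unfold aL am6 amP6 amM6 sz
  rw [cs6_append, cs6_smz, aO_eq, aX_eq]
  cases s
  · simp only [Bool.false_eq_true, if_false]; push_cast; ring
  · simp only [if_true]; push_cast; ring

theorem uL_eq (s : Bool) (k : ℝ) : cs6 (uL s) (NUMF.l * k) = 2 * u6 s k := by
  have h1 : NUMF.ck1 k = Real.cosh (1 * (NUMF.l * k)) := by unfold NUMF.ck1; rw [one_mul]
  set z := NUMF.l * k with hz
  have h2 : Real.cosh (2 * z) = 2 * Real.cosh (1 * z) ^ 2 - 1 := by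
    rw [one_mul, Real.cosh_two_mul, Real.sinh_sq]; ring
  have h3 : Real.cosh (3 * z) = 4 * Real.cosh (1 * z) ^ 3 - 3 * Real.cosh (1 * z) := by
    rw [one_mul, Real.cosh_three_mul]
  have h4 : Real.cosh (4 * z) = 8 * Real.cosh (1 * z) ^ 4 - 8 * Real.cosh (1 * z) ^ 2 + 1 := by
    rw [show 4 * z = 2 * (2 * z) by ring, Real.cosh_two_mul, Real.sinh_sq, h2]; ring
  unfold uL
  rw [cs6_pt _ _ _ _ 4 (by norm_num) (by norm_num) (by norm_num),
    cs6_pt _ _ _ _ 3 (by norm_num) (by norm_num) (by norm_num),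
    cs6_pt _ _ _ _ 2 (by norm_num) (by norm_num) (by norm_num),
    cs6_pt _ _ _ _ 1 (by norm_num) (by norm_num) (by norm_num),
    cs6_pt _ _ _ _ 0 (by norm_num) (by norm_num) (by norm_num), cs6_nil, zero_mul, Real.cosh_zero,
    h2, h3, h4]
  unfold u6 uP6 uM6 sz
  rw [h1]
  cases s
  · simp only [Bool.false_eq_true, if_false]; push_cast; ring
  · simp only [if_true]; push_cast; ring

/-! ### the bordered form -/

open NUMF (l)

/-- **the direct part minus the kernels** (the cores cancel), sum of the species -/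
theorem dN_true (K K' : Kd6) (k : ℝ) : cs6 (dN true K K') (l * k) =
    512 * (DrM6 12 par6 true K K' (l * k) + DrM6 12 par6 false K K' (l * k) - NP12 K K' k +
      kpZ true K K' * (Real.cosh (4 * (l * k)) - Real.cosh ((4 - 1 / 1024) * (l * k)))) := by
  unfold dN
  rw [cs6_append, cs6_smz, cs6_smz, cs6_append, cs6_append, cs6_smz, cs6_smz, dL_eq 12, dL_eq 12, nL_true,
    nL_false, NP12_eq, show sz true = 1 from rfl]
  push_cast
  ring

/-- **the direct part minus the kernels** (the cores cancel), difference of the species -/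
theorem dN_false (K K' : Kd6) (k : ℝ) : cs6 (dN false K K') (l * k) =
    512 * (DrM6 12 par6 true K K' (l * k) - DrM6 12 par6 false K K' (l * k) - NM12 K K' k +
      kpZ true K K' * (Real.cosh (4 * (l * k)) - Real.cosh ((4 - 1 / 1024) * (l * k)))) := by
  unfold dN
  rw [cs6_append, cs6_smz, cs6_smz, cs6_append, cs6_append, cs6_smz, cs6_smz, dL_eq 12, dL_eq 12, nL_true,
    nL_false, NM12_eq, show sz false = -1 from rfl]
  push_cast
  ring

lemma kpZ_kapS (K K' : Kd6) : ((kpZ true K K' : ℤ) : ℝ) = kapS K K' := by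
  cases K <;> cases K' <;> simp [kpZ, kapS]

lemma ev_PC (L : List (ℤ × ℤ)) (z : ℝ) :
    ev (col (sp L)) (Real.exp (-(z / 64))) = 2 * Real.exp (-(4 * z)) * cs6 L z := by
  rw [ev_col, ev_sp]

/-- **kinds, sum of the species** -/
theorem PL_true (K K' : Kd6) (k : ℝ) :
    ev (PL true (ix7 (some K)) (ix7 (some K'))) (Real.exp (-(l * k / 64))) =
      1024 * Real.exp (-(4 * (l * k))) * (DrM6 12 par6 true K K' (l * k) + DrM6 12 par6 false K K' (l * k) -
        NP12 K K' k + kapS K K' * (Real.cosh (4 * (l * k)) - Real.cosh ((4 - 1 / 1024) * (l * k)))) := by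
  have hx : ∀ K : Kd6, xi7 (ix7 (some K)) = some K := fun K => by cases K <;> rfl
  unfold PL
  rw [ev_PC, hx, hx, ← kpZ_kapS]
  show _ * cs6 (dN true K K') (l * k) = _
  rw [dN_true]
  ring

/-- **kinds, difference of the species** -/
theorem PL_false (K K' : Kd6) (k : ℝ) :
    ev (PL false (ix7 (some K)) (ix7 (some K'))) (Real.exp (-(l * k / 64))) =
      1024 * Real.exp (-(4 * (l * k))) * (DrM6 12 par6 true K K' (l * k) - DrM6 12 par6 false K K' (l * k) -
        NM12 K K' k + kapS K K' * (Real.cosh (4 * (l * k)) - Real.cosh ((4 - 1 / 1024) * (l * k)))) := by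
  have hx : ∀ K : Kd6, xi7 (ix7 (some K)) = some K := fun K => by cases K <;> rfl
  unfold PL
  rw [ev_PC, hx, hx, ← kpZ_kapS]
  show _ * cs6 (dN false K K') (l * k) = _
  rw [dN_false]
  ring

/-- **amplitudes** -/
theorem PL_amp (s : Bool) (K : Kd6) (k : ℝ) : ev (PL s (ix7 (some K)) 6) (Real.exp (-(l * k / 64))) =
    1024 * Real.exp (-(4 * (l * k))) * (2 * am6 s K k) := by
  have hx : xi7 (ix7 (some K)) = some K := by cases K <;> rfl
  unfold PL
  rw [ev_PC, hx, show xi7 6 = none from rfl]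
  show _ * cs6 (smz 512 (aL s K)) (l * k) = _
  rw [cs6_smz, aL_eq]
  push_cast
  ring

theorem PL_amp' (s : Bool) (K : Kd6) (k : ℝ) : ev (PL s 6 (ix7 (some K))) (Real.exp (-(l * k / 64))) =
    1024 * Real.exp (-(4 * (l * k))) * (2 * am6 s K k) := by
  have hx : xi7 (ix7 (some K)) = some K := by cases K <;> rfl
  unfold PL
  rw [ev_PC, hx, show xi7 6 = none from rfl]
  show _ * cs6 (smz 512 (aL s K)) (l * k) = _
  rw [cs6_smz, aL_eq]
  push_cast
  ring

/-- **denominators** -/
theorem PL_u (s : Bool) (k : ℝ) : ev (PL s 6 6) (Real.exp (-(l * k / 64))) =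
    1024 * Real.exp (-(4 * (l * k))) * (2 * u6 s k) := by
  unfold PL
  rw [ev_PC, show xi7 6 = none from rfl]
  show _ * cs6 (smz 512 (uL s)) (l * k) = _
  rw [cs6_smz, uL_eq]
  push_cast
  ring

/-! ### the change of basis -/

section basis

variable (s : Bool) (y : ℝ)

lemma ev_sp_append (a b : List (ℤ × ℤ)) : ev (sp (a ++ b)) y = ev (sp a) y + ev (sp b) y := by
  rw [show sp (a ++ b) = sp a ++ sp b by simp [sp], ev_append]

lemma ev_sp_smz (c : ℤ) (a : List (ℤ × ℤ)) : ev (sp (smz c a)) y = c * ev (sp a) y := by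
  induction a with
  | nil => simp [sp, smz, ev]
  | cons x a ih =>
    have e1 : sp (smz c (x :: a)) = (c * x.1, (x.2 % 512).toNat) :: (c * x.1, (512 - x.2 % 512).toNat) ::
      sp (smz c a) := rfl
    have e2 : sp (x :: a) = (x.1, (x.2 % 512).toNat) :: (x.1, (512 - x.2 % 512).toNat) :: sp a := rfl
    rw [e1, e2, ev_cons, ev_cons, ev_cons, ev_cons, ih]
    push_cast
    ring

lemma xi_ix (o : Option Kd6) : xi7 (ix7 o) = o := by
  rcases o with _ | K
  · rfl
  · cases K <;> rfl

theorem BL_kind (K K' : Kd6) : ev (BL s (ix7 (some K)) (ix7 (some K'))) y =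
    ev (PL s (ix7 (some K)) (ix7 (some K'))) y - qz s K * ev (PL s 6 (ix7 (some K'))) y -
      qz s K' * ev (PL s (ix7 (some K)) 6) y + qz s K * qz s K' * ev (PL s 6 6) y := by
  have h6 : xi7 6 = none := rfl
  unfold BL PL
  simp only [ev_col, xi_ix, h6, BC, ev_sp_append, ev_sp_smz]
  push_cast
  ring

theorem BL_amp (K : Kd6) : ev (BL s (ix7 (some K)) 6) y =
    ev (PL s (ix7 (some K)) 6) y - qz s K * ev (PL s 6 6) y := by
  have h6 : xi7 6 = none := rfl
  unfold BL PL
  simp only [ev_col, xi_ix, h6, BC, ev_sp_append, ev_sp_smz]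
  push_cast
  ring

theorem BL_amp' (K : Kd6) : ev (BL s 6 (ix7 (some K))) y =
    ev (PL s 6 (ix7 (some K))) y - qz s K * ev (PL s 6 6) y := by
  have h6 : xi7 6 = none := rfl
  unfold BL PL
  simp only [ev_col, xi_ix, h6, BC, ev_sp_append, ev_sp_smz]
  push_cast
  ring

theorem BL_u : ev (BL s 6 6) y = ev (PL s 6 6) y := by
  have h6 : xi7 6 = none := rfl
  unfold BL PL
  simp only [h6, BC]

/-- **the two bordered forms** -/
theorem form_BL (c : ℝ) (v : Fin 7 → ℝ) :
    ∑ i, ∑ j, (ev (PL s i j) y - c * kap7 i j) * v i * v j =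
      ∑ i, ∑ j, (ev (BL s i j) y - c * kap7 i j) *
        (fun i => match xi7 i with
          | some K => v (ix7 (some K))
          | none => v 6 + ∑ K, qz s K * v (ix7 (some K))) i *
        (fun i => match xi7 i with
          | some K => v (ix7 (some K))
          | none => v 6 + ∑ K, qz s K * v (ix7 (some K))) j := by
  have h6 : xi7 6 = none := rfl
  have k1 : ∀ K : Kd6, kap7 (ix7 (some K)) 6 = 0 := fun K => by cases K <;> rfl
  have k2 : ∀ K : Kd6, kap7 6 (ix7 (some K)) = 0 := fun K => by cases K <;> rfl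
  have k3 : kap7 6 6 = 0 := rfl
  simp only [sum7, xi_ix, h6, k1, k2, k3, BL_kind, BL_amp, BL_amp', BL_u]
  simp only [sumK6]
  ring

end basis

end PHK
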