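import Pool.Agent.PHK.SPoly

/-!
# Region `z ≥ 24` of the certificate of the six kinds (helper93)

`y = exp (-z / 64) ≤ 11 / 16`.  `B` = the bordered `7 × 7` matrix (`L T E F H1 H2 A`), entries =
lists `(c, n)` standing for `∑ c y ^ n`, scale `512 * 2 * y ^ 256`.  `chkT B`: the coefficients of
`y ^ n`, `n < 24`, are those of the table `lo7` and the other coefficients have absolute sum at most
`199680 = 390 * 512` in every entry.  **`tail7`**: then the form minus `τ` times the contacts is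
nonnegative as soon as `τ ≤ 1 - y`.
-/

set_option autoImplicit false

noncomputable section

open Finset

namespace PHK

/-- coefficient of `y ^ n` -/
def cf7 (p : List (ℤ × ℕ)) (n : ℕ) : ℤ := (p.map fun a => if a.2 = n then a.1 else 0).sum

/-- absolute sum of the coefficients of `y ^ n`, `n ≥ 24` -/
def hs7 (p : List (ℤ × ℕ)) : ℕ := (p.map fun a => if 24 ≤ a.2 then a.1.natAbs else 0).sum

/-- contacts -/
def kt7 (i j : Fin 7) : ℤ :=
  if i = j then (if i = 6 then 0 else 2) else if (i = 2 ∧ j = 3) ∨ (i = 3 ∧ j = 2) then 1 else 0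

/-- the terms of exponent `< 24`, upper triangle -/
def lo7 (i j : Fin 7) : List (ℤ × ℕ) :=
  if i = j then [(1024, 0)]
  else if (i, j) = (0, 4) ∨ (i, j) = (4, 0) then [(-512, 1)]
  else if (i, j) = (0, 5) ∨ (i, j) = (5, 0) then [(512, 9)]
  else if (i, j) = (0, 6) ∨ (i, j) = (6, 0) then [(512, 1)]
  else if (i, j) = (1, 2) ∨ (i, j) = (2, 1) then [(512, 4)]
  else if (i, j) = (1, 3) ∨ (i, j) = (3, 1) then [(512, 4)]
  else if (i, j) = (2, 3) ∨ (i, j) = (3, 2) then [(512, 0)]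
  else if (i, j) = (4, 5) ∨ (i, j) = (5, 4) then [(-512, 10)]
  else if (i, j) = (4, 6) ∨ (i, j) = (6, 4) then [(-1024, 2)]
  else if (i, j) = (5, 6) ∨ (i, j) = (6, 5) then [(512, 8)]
  else []

/-- **the check** -/
def chkT (B : Fin 7 → Fin 7 → List (ℤ × ℕ)) : Bool :=
  decide (∀ i j : Fin 7, (∀ n : Fin 24, cf7 (B i j) n = cf7 (lo7 i j) n) ∧ hs7 (B i j) ≤ 199680)

lemma ev_split7 (p : List (ℤ × ℕ)) {y : ℝ} (h0 : 0 ≤ y) (h1 : y ≤ 1) :
    |(p.map fun a => (a.1 : ℝ) * y ^ a.2).sum - ∑ n : Fin 24, (cf7 p n : ℝ) * y ^ (n : ℕ)| ≤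
      hs7 p * y ^ 24 := by
  induction p with
  | nil => simp [cf7, hs7]
  | cons a p ih =>
    have e1 : ∑ n : Fin 24, (cf7 (a :: p) n : ℝ) * y ^ (n : ℕ) =
        (∑ n : Fin 24, (if a.2 = (n : ℕ) then (a.1 : ℝ) else 0) * y ^ (n : ℕ)) +
          ∑ n : Fin 24, (cf7 p n : ℝ) * y ^ (n : ℕ) := by
      rw [← sum_add_distrib]
      refine sum_congr rfl fun n _ => ?_
      unfold cf7
      rw [List.map_cons, List.sum_cons]
      push_cast
      split_ifs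
      · ring
      · ring
    have e2 : (hs7 (a :: p) : ℝ) = (if 24 ≤ a.2 then |(a.1 : ℝ)| else 0) + hs7 p := by
      unfold hs7
      rw [List.map_cons, List.sum_cons]
      push_cast
      split_ifs
      · rw [Nat.cast_natAbs, Int.cast_abs]
      · rfl
    rw [List.map_cons, List.sum_cons, e1, e2, add_mul]
    have e3 : (a.1 : ℝ) * y ^ a.2 + (p.map fun a => (a.1 : ℝ) * y ^ a.2).sum -
        ((∑ n : Fin 24, (if a.2 = (n : ℕ) then (a.1 : ℝ) else 0) * y ^ (n : ℕ)) +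
          ∑ n : Fin 24, (cf7 p n : ℝ) * y ^ (n : ℕ)) =
        ((a.1 : ℝ) * y ^ a.2 - ∑ n : Fin 24, (if a.2 = (n : ℕ) then (a.1 : ℝ) else 0) * y ^ (n : ℕ)) +
          ((p.map fun a => (a.1 : ℝ) * y ^ a.2).sum - ∑ n : Fin 24, (cf7 p n : ℝ) * y ^ (n : ℕ)) := by
      ring
    rw [e3]
    refine (abs_add_le _ _).trans (add_le_add ?_ ih)
    by_cases h : 24 ≤ a.2
    · rw [if_pos h]
      have e4 : ∑ n : Fin 24, (if a.2 = (n : ℕ) then (a.1 : ℝ) else 0) * y ^ (n : ℕ) = 0 := by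
        refine sum_eq_zero fun n _ => ?_
        rw [if_neg (by have := n.2; omega), zero_mul]
      rw [e4, sub_zero, abs_mul, abs_of_nonneg (pow_nonneg h0 _)]
      exact mul_le_mul_of_nonneg_left (pow_le_pow_of_le_one h0 h1 h) (abs_nonneg _)
    · rw [if_neg h, zero_mul]
      push Not at h
      have e4 : ∑ n : Fin 24, (if a.2 = (n : ℕ) then (a.1 : ℝ) else 0) * y ^ (n : ℕ) =
          (a.1 : ℝ) * y ^ a.2 := by
        rw [sum_eq_single (⟨a.2, h⟩ : Fin 24)]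
        · simp
        · intro n _ hn
          rw [if_neg, zero_mul]
          intro h2
          exact hn (Fin.ext h2.symm)
        · intro h2
          exact absurd (mem_univ _) h2
      rw [e4, sub_self, abs_zero]

/-- the main part -/
lemma main7 {y : ℝ} (h0 : 0 < y) (h1 : y ≤ 11 / 16) (L T E F G H w : ℝ) :
    1 / 2 * y * (L ^ 2 + T ^ 2 + E ^ 2 + F ^ 2 + G ^ 2 + H ^ 2 + w ^ 2) ≤
      y * (2 * L ^ 2 + 2 * T ^ 2 + 2 * E ^ 2 + 2 * F ^ 2 + 2 * (E * F) + 2 * G ^ 2 + 2 * H ^ 2) -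
        2 * y * (L * G) + 2 * y ^ 9 * (L * H) + 2 * y ^ 4 * (T * E) + 2 * y ^ 4 * (T * F) -
        2 * y ^ 10 * (G * H) + 2 * w ^ 2 + 2 * y * (L * w) - 4 * y ^ 2 * (G * w) +
        2 * y ^ 8 * (H * w) := by
  have hy3 : y ^ 3 ≤ 13 / 40 := by
    calc y ^ 3 ≤ (11 / 16) ^ 3 := pow_le_pow_left₀ h0.le h1 3
      _ ≤ 13 / 40 := by norm_num
  have hy7 : y ^ 7 ≤ 3 / 40 := by
    calc y ^ 7 ≤ (11 / 16) ^ 7 := pow_le_pow_left₀ h0.le h1 7
      _ ≤ 3 / 40 := by norm_num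
  have hy8 : y ^ 8 ≤ 1 / 20 := by
    calc y ^ 8 ≤ (11 / 16) ^ 8 := pow_le_pow_left₀ h0.le h1 8
      _ ≤ 1 / 20 := by norm_num
  have hy9 : y ^ 9 ≤ 1 / 25 := by
    calc y ^ 9 ≤ (11 / 16) ^ 9 := pow_le_pow_left₀ h0.le h1 9
      _ ≤ 1 / 25 := by norm_num
  have p3 : 0 ≤ y ^ 3 := by positivity
  have p7 : 0 ≤ y ^ 7 := by positivity
  have p8 : 0 ≤ y ^ 8 := by positivity
  have p9 : 0 ≤ y ^ 9 := by positivity
  -- the block `T E F`
  have b1 : 0 ≤ 3 / 2 * T ^ 2 + 3 / 2 * E ^ 2 + 3 / 2 * F ^ 2 + 2 * (E * F) + 2 * y ^ 3 * (T * E) +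
      2 * y ^ 3 * (T * F) := by
    clear * - p3 hy3
    nlinarith [mul_nonneg p3 (sq_nonneg (T + E)), mul_nonneg p3 (sq_nonneg (T + F)),
      mul_nonneg (sub_nonneg.2 hy3) (sq_nonneg T), mul_nonneg (sub_nonneg.2 hy3) (sq_nonneg E),
      mul_nonneg (sub_nonneg.2 hy3) (sq_nonneg F), sq_nonneg (E + F), sq_nonneg T, sq_nonneg E,
      sq_nonneg F]
  -- the couplings of `H2`
  have c1 : 0 ≤ 1 / 20 * (L ^ 2 + H ^ 2) + 2 * y ^ 8 * (L * H) := by
    clear * - p8 hy8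
    nlinarith [mul_nonneg p8 (sq_nonneg (L + H)), mul_nonneg (sub_nonneg.2 hy8)
      (add_nonneg (sq_nonneg L) (sq_nonneg H))]
  have c2 : 0 ≤ 1 / 25 * (G ^ 2 + H ^ 2) - 2 * y ^ 9 * (G * H) := by
    clear * - p9 hy9
    nlinarith [mul_nonneg p9 (sq_nonneg (G - H)), mul_nonneg (sub_nonneg.2 hy9)
      (add_nonneg (sq_nonneg G) (sq_nonneg H))]
  have c3 : 0 ≤ 3 / 40 * (H ^ 2 + w ^ 2) + 2 * y ^ 7 * (H * w) := by
    clear * - p7 hy7
    nlinarith [mul_nonneg p7 (sq_nonneg (H + w)), mul_nonneg (sub_nonneg.2 hy7)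
      (add_nonneg (sq_nonneg H) (sq_nonneg w))]
  -- the block `L H1 A`
  have hA : 0 < 2 - y := by (clear * - h0 h1; linarith)
  have hdet : 0 ≤ (2 - y) * (51 / 25 - 4 * y ^ 3) - (7 / 5 - 2 * y ^ 2) ^ 2 := by
    have q1 : 0 ≤ 11 / 16 - y := by (clear * - h1; linarith)
    clear * - h0 h1 q1
    nlinarith [mul_nonneg h0.le q1, mul_nonneg (mul_nonneg h0.le h0.le) q1,
      mul_nonneg (mul_nonneg (mul_nonneg h0.le h0.le) h0.le) q1]
  have hLG : 0 ≤ 7 / 5 * (29 / 20 * L ^ 2 + 73 / 50 * G ^ 2 - 2 * (L * G)) -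
      y * (L - 2 * y * G) ^ 2 := by
    have k1 : (2 - y) * (7 / 5 * (29 / 20 * L ^ 2 + 73 / 50 * G ^ 2 - 2 * (L * G)) -
        y * (L - 2 * y * G) ^ 2) = ((2 - y) * L - (7 / 5 - 2 * y ^ 2) * G) ^ 2 +
          ((2 - y) * (51 / 25 - 4 * y ^ 3) - (7 / 5 - 2 * y ^ 2) ^ 2) * G ^ 2 +
          (2 - y) * (3 / 100 * L ^ 2 + 1 / 250 * G ^ 2) := by
      ring
    have k2 : 0 ≤ (2 - y) * (7 / 5 * (29 / 20 * L ^ 2 + 73 / 50 * G ^ 2 - 2 * (L * G)) -
        y * (L - 2 * y * G) ^ 2) := by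
      rw [k1]
      have := mul_nonneg hdet (sq_nonneg G)
      have := mul_nonneg hA.le (by (clear * -; positivity) : 0 ≤ 3 / 100 * L ^ 2 + 1 / 250 * G ^ 2)
      clear * - hdet hA
      positivity
    exact nonneg_of_mul_nonneg_right k2 hA
  have b2 : 0 ≤ y * (29 / 20 * L ^ 2 + 73 / 50 * G ^ 2 - 2 * (L * G)) + 7 / 5 * w ^ 2 +
      2 * y * ((L - 2 * y * G) * w) := by
    have k3 : 7 / 5 * (y * (29 / 20 * L ^ 2 + 73 / 50 * G ^ 2 - 2 * (L * G)) + 7 / 5 * w ^ 2 +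
        2 * y * ((L - 2 * y * G) * w)) = (7 / 5 * w + y * (L - 2 * y * G)) ^ 2 +
        y * (7 / 5 * (29 / 20 * L ^ 2 + 73 / 50 * G ^ 2 - 2 * (L * G)) - y * (L - 2 * y * G) ^ 2) := by
      ring
    have k4 := mul_nonneg h0.le hLG
    clear * - k4
    nlinarith [sq_nonneg (7 / 5 * w + y * (L - 2 * y * G))]
  have d1 := mul_nonneg h0.le b1
  have d2 := mul_nonneg h0.le c1
  have d3 := mul_nonneg h0.le c2
  have d4 := mul_nonneg h0.le c3
  have d5 : 0 ≤ (1 - y) * w ^ 2 := mul_nonneg (by (clear * - h0 h1; linarith)) (sq_nonneg w)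
  have d6 : 0 ≤ y * H ^ 2 := by positivity
  have d7 : 0 ≤ w ^ 2 := sq_nonneg w
  have d8 : 0 ≤ (11 / 16 - y) * w ^ 2 := mul_nonneg (by (clear * - h1; linarith)) (sq_nonneg w)
  clear * - b2 d1 d2 d3 d4 d5 d6
  nlinarith

/-- the form of the entries of exponent `< 24` and the contacts -/
lemma low7 (y : ℝ) (u : Fin 7 → ℝ) :
    ∑ i, ∑ j, ((∑ n : Fin 24, (cf7 (lo7 i j) n : ℝ) * y ^ (n : ℕ)) -
        (1 - y) * (kt7 i j : ℝ) * 512) * u i * u j =
      512 * (y * (2 * u 0 ^ 2 + 2 * u 1 ^ 2 + 2 * u 2 ^ 2 + 2 * u 3 ^ 2 + 2 * (u 2 * u 3) +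
        2 * u 4 ^ 2 + 2 * u 5 ^ 2) - 2 * y * (u 0 * u 4) + 2 * y ^ 9 * (u 0 * u 5) +
        2 * y ^ 4 * (u 1 * u 2) + 2 * y ^ 4 * (u 1 * u 3) - 2 * y ^ 10 * (u 4 * u 5) +
        2 * u 6 ^ 2 + 2 * y * (u 0 * u 6) - 4 * y ^ 2 * (u 4 * u 6) + 2 * y ^ 8 * (u 5 * u 6)) := by
  have h : ∀ (c : ℤ) (m : ℕ), m < 24 → ∑ n : Fin 24, (cf7 [(c, m)] n : ℝ) * y ^ (n : ℕ) =
      (c : ℝ) * y ^ m := by
    intro c m hm
    rw [sum_eq_single (⟨m, hm⟩ : Fin 24)]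
    · simp [cf7]
    · intro n _ hn
      have : m ≠ (n : ℕ) := fun h2 => hn (Fin.ext h2.symm)
      simp [cf7, this]
    · intro h2
      exact absurd (mem_univ _) h2
  have h' : ∑ n : Fin 24, (cf7 [] n : ℝ) * y ^ (n : ℕ) = 0 := by simp [cf7]
  simp only [Fin.sum_univ_seven]
  simp only [lo7, kt7, Fin.isValue, Prod.mk.injEq, Fin.reduceEq, if_true, if_false, and_true,
    and_false, or_false, or_true, or_self, and_self]
  rw [h', h 1024 0 (by norm_num), h (-512) 1 (by norm_num), h 512 9 (by norm_num),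
    h 512 1 (by norm_num), h 512 4 (by norm_num), h 512 0 (by norm_num), h (-512) 10 (by norm_num),
    h (-1024) 2 (by norm_num), h 512 8 (by norm_num)]
  push_cast
  ring

/-- contacts are nonnegative -/
lemma kt7_nonneg (u : Fin 7 → ℝ) : 0 ≤ ∑ i, ∑ j, (kt7 i j : ℝ) * u i * u j := by
  have e : ∑ i, ∑ j, (kt7 i j : ℝ) * u i * u j = 2 * u 0 ^ 2 + 2 * u 1 ^ 2 + 2 * u 2 ^ 2 +
      2 * u 3 ^ 2 + 2 * (u 2 * u 3) + 2 * u 4 ^ 2 + 2 * u 5 ^ 2 := by
    simp only [Fin.sum_univ_seven]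
    simp only [kt7, Fin.isValue, Fin.reduceEq, if_true, if_false, and_true,
      and_false, or_false, or_true, or_self, and_self]
    push_cast
    ring
  rw [e]
  clear * -
  nlinarith [sq_nonneg (u 2 + u 3), sq_nonneg (u 0), sq_nonneg (u 1), sq_nonneg (u 2),
    sq_nonneg (u 3), sq_nonneg (u 4), sq_nonneg (u 5)]

/-- **region `z ≥ 24` of the certificate** -/
theorem tail7 {B : Fin 7 → Fin 7 → SP} (hB : chkT B = true) {y τ : ℝ} (h0 : 0 < y)
    (h1 : y ≤ 11 / 16) (hτ : τ ≤ 1 - y) (u : Fin 7 → ℝ) :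
    0 ≤ ∑ i, ∑ j, (ev (B i j) y -
      τ * (kt7 i j : ℝ) * 512 * (1 - y ^ 512)) * u i * u j := by
  unfold ev
  have hc := of_decide_eq_true hB
  have hy1 : y ≤ 1 := by (clear * - h0 h1; linarith)
  have hK := kt7_nonneg u
  set K : ℝ := ∑ i, ∑ j, (kt7 i j : ℝ) * u i * u j with hKd
  set S : ℝ := ∑ i, u i ^ 2 with hS
  -- the other terms
  set r : Fin 7 → Fin 7 → ℝ := fun i j => ((B i j).map fun a => (a.1 : ℝ) * y ^ a.2).sum -
    ∑ n : Fin 24, (cf7 (lo7 i j) n : ℝ) * y ^ (n : ℕ) with hr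
  have hr1 : ∀ i j, |r i j| ≤ 199680 * y ^ 24 := by
    intro i j
    obtain ⟨c1, c2⟩ := hc i j
    have h2 := ev_split7 (B i j) h0.le hy1
    have e : ∑ n : Fin 24, (cf7 (B i j) n : ℝ) * y ^ (n : ℕ) =
        ∑ n : Fin 24, (cf7 (lo7 i j) n : ℝ) * y ^ (n : ℕ) :=
      sum_congr rfl fun n _ => by rw [c1 n]
    rw [e] at h2
    refine h2.trans (mul_le_mul_of_nonneg_right ?_ (by positivity))
    exact_mod_cast c2
  have hR : -(199680 * y ^ 24 * 7 * S) ≤ ∑ i, ∑ j, r i j * u i * u j := by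
    have h3 : ∑ i, ∑ j, |u i| * |u j| ≤ 7 * S := by
      have h4 : ∑ i, ∑ j, |u i| * |u j| = (∑ i, |u i|) ^ 2 := by
        rw [sq, sum_mul_sum]
      rw [h4]
      have h5 := sq_sum_le_card_mul_sum_sq (s := (univ : Finset (Fin 7))) (f := fun i => |u i|)
      simp only [sq_abs, card_univ, Fintype.card_fin] at h5
      exact_mod_cast h5
    have h6 : ∑ i, ∑ j, -(199680 * y ^ 24 * (|u i| * |u j|)) ≤ ∑ i, ∑ j, r i j * u i * u j := by
      refine sum_le_sum fun i _ => sum_le_sum fun j _ => ?_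
      have h7 : |r i j * u i * u j| ≤ 199680 * y ^ 24 * (|u i| * |u j|) := by
        rw [abs_mul, abs_mul, mul_assoc]
        exact mul_le_mul_of_nonneg_right (hr1 i j) (by positivity)
      linarith [neg_abs_le (r i j * u i * u j)]
    have e6 : ∑ i, ∑ j, -(199680 * y ^ 24 * (|u i| * |u j|)) =
        -(199680 * y ^ 24 * ∑ i, ∑ j, |u i| * |u j|) := by
      rw [mul_sum, ← sum_neg_distrib]
      refine sum_congr rfl fun i _ => ?_
      rw [mul_sum, ← sum_neg_distrib]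
    rw [e6] at h6
    refine le_trans ?_ h6
    have h8 : 0 ≤ 199680 * y ^ 24 := by positivity
    clear * - S h3 h8
    nlinarith [mul_le_mul_of_nonneg_left h3 h8]
  have hpow : 199680 * y ^ 24 * 7 ≤ 256 * y := by
    have h9 : y ^ 23 ≤ (11 / 16) ^ 23 := pow_le_pow_left₀ h0.le h1 23
    have h10 : (199680 : ℝ) * 7 * (11 / 16) ^ 23 ≤ 256 := by norm_num
    have e : y ^ 24 = y ^ 23 * y := by ring
    rw [e]
    clear * - h0 h9
    nlinarith [mul_le_mul_of_nonneg_right h9 h0.le]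
  have hS0 : 0 ≤ S := sum_nonneg fun i _ => sq_nonneg _
  -- the contacts
  have hy512 : y ^ 512 ≤ 1 := pow_le_one₀ h0.le hy1
  have hτ1 : τ * (1 - y ^ 512) * K ≤ (1 - y) * K := by
    refine mul_le_mul_of_nonneg_right ?_ hK
    have h11 : 0 ≤ y ^ 512 := by positivity
    calc τ * (1 - y ^ 512) ≤ (1 - y) * (1 - y ^ 512) :=
          mul_le_mul_of_nonneg_right hτ (by linarith)
      _ ≤ (1 - y) * 1 := mul_le_mul_of_nonneg_left (by linarith) (by linarith)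
      _ = 1 - y := mul_one _
  have hsplit : ∑ i, ∑ j, (((B i j).map fun a => (a.1 : ℝ) * y ^ a.2).sum -
      τ * (kt7 i j : ℝ) * 512 * (1 - y ^ 512)) * u i * u j =
      ∑ i, ∑ j, ((∑ n : Fin 24, (cf7 (lo7 i j) n : ℝ) * y ^ (n : ℕ)) -
        (1 - y) * (kt7 i j : ℝ) * 512) * u i * u j +
      (∑ i, ∑ j, r i j * u i * u j + 512 * ((1 - y) * K - τ * (1 - y ^ 512) * K)) := by
    rw [hKd]
    simp only [mul_sum]
    rw [← sum_sub_distrib, mul_sum]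
    simp only [← sum_add_distrib]
    refine sum_congr rfl fun i _ => ?_
    rw [← sum_sub_distrib, mul_sum]
    simp only [← sum_add_distrib]
    refine sum_congr rfl fun j _ => ?_
    rw [hr]
    ring
  have hm := main7 h0 h1 (u 0) (u 1) (u 2) (u 3) (u 4) (u 5) (u 6)
  have hSe : S = u 0 ^ 2 + u 1 ^ 2 + u 2 ^ 2 + u 3 ^ 2 + u 4 ^ 2 + u 5 ^ 2 + u 6 ^ 2 := by
    rw [hS, Fin.sum_univ_seven]
  rw [← hSe] at hm
  rw [hsplit, low7]
  have h12 := mul_le_mul_of_nonneg_right hpow hS0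
  clear * - r K S hR hτ1 hm h12
  linarith

end PHK

end
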