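import Pool.Agent.PHK.BList
import Pool.Agent.PHK.TailC

/-!
# The stability of the six kinds from the bordered forms (helper92)

`y = exp (-z / 64)`, `z = l k`:

* `bf s z u`: the bordered form of the channel `s` (`PL s` minus the cores of the same pairs);
* `fP_of`, `fM_of`: nonnegative bordered forms give the forms of `stab12`;
* `bf_tail`: region `y ≤ 11 / 16`; `bf_reg`: region `11 / 16 ≤ y` from the form in the basis of `BL`;
* **`stab_of`**: `StabProd6 par6` from region I of the two channels.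
-/

set_option autoImplicit false

noncomputable section

namespace PHK

open Finset NUP1

/-- the bordered form of a channel -/
def bf (s : Bool) (z : ℝ) (u : Fin 7 → ℝ) : ℝ :=
  ∑ i, ∑ j, (ev (PL s i j) (Real.exp (-(z / 64))) -
    1024 * Real.exp (-(4 * z)) * ((1 - Real.exp (-(z / 1024))) * Real.sinh (4 * z)) * kap7 i j) * u i * u j

theorem kt7_kap (i j : Fin 7) : (kt7 i j : ℝ) = kap7 i j := by
  fin_cases i <;> fin_cases j <;> simp [kt7, kap7, xi7, kapS]

/-- the coefficient of the cores -/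
theorem core_cf (z : ℝ) : 1024 * Real.exp (-(4 * z)) * ((1 - Real.exp (-(z / 1024))) * Real.sinh (4 * z)) =
    (1 - Real.exp (-(z / 1024))) * 512 * (1 - Real.exp (-(z / 64)) ^ 512) := by
  have h1 : Real.exp (-(z / 64)) ^ 512 = Real.exp (-(4 * z)) * Real.exp (-(4 * z)) := by
    rw [← Real.exp_nat_mul, ← Real.exp_add]
    congr 1
    push_cast
    ring
  have h2 : Real.exp (-(4 * z)) * Real.exp (4 * z) = 1 := by
    rw [← Real.exp_add]
    simp
  rw [h1, Real.sinh_eq]
  linear_combination (512 * (1 - Real.exp (-(z / 1024)))) * h2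

theorem core_w (z : ℝ) : Real.cosh (4 * z) - Real.cosh ((4 - 1 / 1024) * z) ≤
    (1 - Real.exp (-(z / 1024))) * Real.sinh (4 * z) := by
  have h := core_tau (1 / 1024) z
  have e : (1 / 1024 : ℝ) * z = z / 1024 := by ring
  rwa [e] at h

/-- **the form of the sum of the species** -/
theorem fP_of (h : ∀ z : ℝ, 0 < z → ∀ u, 0 ≤ bf true z u) (k : ℝ) (hk : 0 < k) (x : Kd6 → ℝ) :
    0 ≤ ∑ K, ∑ K', x K * x K' * (MP6 12 par6 K K' k - NP12 K K' k) := by
  have hl : 0 < l := Bd.l_pos
  have hz : 0 < l * k := mul_pos hl hk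
  have h1 := schur7 (b := fun i j => ev (PL true i j) (Real.exp (-(l * k / 64)))) (κ := kap7)
    (D := fun K K' => DrM6 12 par6 true K K' (l * k) + DrM6 12 par6 false K K' (l * k))
    (N := fun K K' => NP12 K K' k) (a := fun K => amP6 par6 K k) (u := uP6 k)
    (c := 1024 * Real.exp (-(4 * (l * k))))
    (w := Real.cosh (4 * (l * k)) - Real.cosh ((4 - 1 / 1024) * (l * k)))
    (t := (1 - Real.exp (-(l * k / 1024))) * Real.sinh (4 * (l * k)))
    (by positivity) (uP6_pos hk.ne') (core_w _) (fun K K' => by cases K <;> cases K' <;> rfl)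
    (fun K => by cases K <;> rfl) (fun K => by cases K <;> rfl) rfl (h _ hz)
    (fun K K' => PL_true K K' k) (fun K => PL_amp true K k) (fun K => PL_amp' true K k) (PL_u true k) x
  exact h1

/-- **the form of the difference of the species** -/
theorem fM_of (h : ∀ z : ℝ, 0 < z → ∀ u, 0 ≤ bf false z u) (k : ℝ) (hk : 0 < k) (x : Kd6 → ℝ) :
    0 ≤ ∑ K, ∑ K', x K * x K' * (MM6 12 par6 K K' k - NM12 K K' k) := by
  have hl : 0 < l := Bd.l_pos
  have hz : 0 < l * k := mul_pos hl hk
  have h1 := schur7 (b := fun i j => ev (PL false i j) (Real.exp (-(l * k / 64)))) (κ := kap7)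
    (D := fun K K' => DrM6 12 par6 true K K' (l * k) - DrM6 12 par6 false K K' (l * k))
    (N := fun K K' => NM12 K K' k) (a := fun K => amM6 par6 K k) (u := uM6 k)
    (c := 1024 * Real.exp (-(4 * (l * k))))
    (w := Real.cosh (4 * (l * k)) - Real.cosh ((4 - 1 / 1024) * (l * k)))
    (t := (1 - Real.exp (-(l * k / 1024))) * Real.sinh (4 * (l * k)))
    (by positivity) (uM6_pos k) (core_w _) (fun K K' => by cases K <;> cases K' <;> rfl)
    (fun K => by cases K <;> rfl) (fun K => by cases K <;> rfl) rfl (h _ hz)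
    (fun K K' => PL_false K K' k) (fun K => PL_amp false K k) (fun K => PL_amp' false K k) (PL_u false k) x
  exact h1

/-- region `y ≤ 11 / 16` -/
theorem bf_tail {s : Bool} (hB : chkT (PL s) = true) {z : ℝ} (hz : 0 < z)
    (hy : Real.exp (-(z / 64)) ≤ 11 / 16) (u : Fin 7 → ℝ) : 0 ≤ bf s z u := by
  have h1 := tail7 hB (Real.exp_pos _) hy (τ := 1 - Real.exp (-(z / 1024)))
    (by
      have : Real.exp (-(z / 64)) ≤ Real.exp (-(z / 1024)) := Real.exp_le_exp.2 (by linarith)
      linarith) u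
  refine h1.trans (le_of_eq ?_)
  unfold bf
  refine Finset.sum_congr rfl fun i _ => Finset.sum_congr rfl fun j _ => ?_
  rw [core_cf, kt7_kap]
  ring

/-- region `11 / 16 ≤ y` in the basis of `BL` -/
def RegI (s : Bool) : Prop := ∀ z : ℝ, 0 < z → 11 / 16 ≤ Real.exp (-(z / 64)) → ∀ u : Fin 7 → ℝ,
  0 ≤ ∑ i, ∑ j, (ev (BL s i j) (Real.exp (-(z / 64))) - (1 - Real.exp (-(z / 1024))) * kap7 i j * 512 *
    (1 - Real.exp (-(z / 64)) ^ 512)) * u i * u j

/-- region `11 / 16 ≤ y` -/
theorem bf_reg {s : Bool} (h : RegI s) {z : ℝ} (hz : 0 < z) (hy : 11 / 16 ≤ Real.exp (-(z / 64)))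
    (u : Fin 7 → ℝ) : 0 ≤ bf s z u := by
  unfold bf
  rw [form_BL]
  have h1 := h z hz hy (fun i => match xi7 i with
    | some K => u (ix7 (some K))
    | none => u 6 + ∑ K, (qz s K : ℝ) * u (ix7 (some K)))
  refine h1.trans (le_of_eq ?_)
  refine Finset.sum_congr rfl fun i _ => Finset.sum_congr rfl fun j _ => ?_
  have e : ev (BL s i j) (Real.exp (-(z / 64))) -
      1024 * Real.exp (-(4 * z)) * ((1 - Real.exp (-(z / 1024))) * Real.sinh (4 * z)) * kap7 i j =
      ev (BL s i j) (Real.exp (-(z / 64))) - (1 - Real.exp (-(z / 1024))) * kap7 i j * 512 *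
        (1 - Real.exp (-(z / 64)) ^ 512) := by
    rw [core_cf]
    ring
  rw [e]
  rfl

/-- **the stability of the six kinds** from region I and the coefficients of the tail -/
theorem stab_of (t0 : chkT (PL true) = true) (t1 : chkT (PL false) = true) (r0 : RegI true)
    (r1 : RegI false) : StabProd6 par6 := by
  have h0 : ∀ z : ℝ, 0 < z → ∀ u, 0 ≤ bf true z u := fun z hz u => by
    rcases le_total (Real.exp (-(z / 64))) (11 / 16) with h | h
    · exact bf_tail t0 hz h u
    · exact bf_reg r0 hz h u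
  have h1 : ∀ z : ℝ, 0 < z → ∀ u, 0 ≤ bf false z u := fun z hz u => by
    rcases le_total (Real.exp (-(z / 64))) (11 / 16) with h | h
    · exact bf_tail t1 hz h u
    · exact bf_reg r1 hz h u
  exact stab12 (fP_of h0) (fM_of h1)

end PHK

end
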