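import Pool.Agent.PHK.CTab

/-!
# PHK/CelM1 (helper52): cells of the difference channel (congruences: helper79), part 1
-/

set_option autoImplicit false
set_option maxRecDepth 100000

namespace PHK

def cM1 : List CellD :=
  [⟨45, 6, [],
    [[766], [-461, 452], [30, -29, 877], [134, 311, -482, 886], [253, 112, 26, -79, 1024],
     [62, 243, 56, -173, -62, 818], [194, 639, 147, -454, -155, -312, 2550]]⟩,
   ⟨47, 6, [],
    [[758], [-448, 440], [34, -34, 857], [132, 301, -476, 862], [242, 102, 21, -73, 1034],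
     [56, 243, 51, -174, -60, 798], [191, 631, 132, -451, -144, -307, 2505]]⟩,
   ⟨49, 6, [],
    [[751], [-435, 429], [39, -39, 839], [130, 292, -471, 839], [230, 92, 17, -68, 1052],
     [48, 244, 45, -176, -58, 780], [188, 624, 116, -449, -133, -305, 2468]]⟩,
   ⟨51, 6, [],
    [[744], [-424, 418], [45, -44, 822], [128, 282, -468, 817], [216, 83, 14, -63, 1080],
     [38, 247, 40, -181, -57, 763], [186, 620, 98, -448, -121, -304, 2440]]⟩,
   ⟨53, 6, [],
    [[739], [-413, 409], [52, -51, 807], [127, 273, -468, 797], [200, 73, 11, -60, 1123],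
     [25, 252, 35, -189, -57, 747], [186, 618, 79, -447, -108, -305, 2421]]⟩,
   ⟨55, 6, [],
    [[735], [-403, 401], [60, -59, 794], [126, 264, -476, 781], [181, 62, 9, -61, 1188],
     [8, 259, 32, -205, -56, 734], [187, 618, 60, -445, -90, -309, 2406]]⟩,
   ⟨57, 6, [],
    [[732], [-394, 396], [71, -69, 783], [126, 255, -505, 772], [155, 49, 12, -71, 1290],
     [-16, 269, 40, -239, -50, 725], [190, 622, 43, -441, -64, -315, 2388]]⟩,
   ⟨59, 6, [],
    [[734], [-388, 400], [80, -83, 782], [121, 255, -596, 787], [116, 31, 27, -102, 1465],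
     [-48, 280, 93, -318, -30, 729], [194, 626, 30, -440, -18, -322, 2343]]⟩,
   ⟨121, 7, [],
    [[755], [-389, 422], [78, -94, 807], [107, 281, -769, 857], [71, 11, 69, -161, 1706],
     [-79, 284, 249, -480, 27, 764], [194, 631, 13, -467, 45, -309, 2252]]⟩]

theorem cM1_ok : cM1.all (cellOK PM7 7) = true := by decide +kernel

end PHK
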