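import Pool.Agent.PHK.CTab

/-!
# PHK/CelM2 (helper52): cells of the difference channel (congruences: helper79), part 2
-/

set_option autoImplicit false
set_option maxRecDepth 100000

namespace PHK

def cM2 : List CellD :=
  [⟨123, 7, [],
    [[813], [-397, 465], [63, -99, 884], [93, 335, -999, 989], [24, -15, 146, -251, 2003],
     [-109, 272, 577, -786, 156, 858], [183, 641, -30, -549, 140, -257, 2125]]⟩,
   ⟨249, 8, [],
    [[941], [-403, 543], [38, -96, 1066], [92, 421, -1264, 1184], [-38, -54, 256, -386, 2409],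
     [-164, 246, 1236, -1397, 459, 1083], [159, 673, -155, -748, 335, -147, 1993]]⟩,
   ⟨501, 9, [],
    [[1081], [-395, 624], [16, -85, 1276], [109, 488, -1383, 1317], [-97, -85, 309, -488, 2745],
     [-229, 246, 1775, -1928, 760, 1310], [136, 714, -357, -1006, 590, -39, 1955]]⟩,
   ⟨503, 9, [],
    [[1237], [-374, 715], [-13, -64, 1518], [135, 550, -1400, 1416], [-164, -116, 309, -571, 3066],
     [-292, 281, 2049, -2254, 979, 1480], [113, 757, -689, -1373, 963, 82, 1996]]⟩,
   ⟨1009, 10, [],
    [[1412], [-337, 820], [-55, -32, 1794], [165, 622, -1336, 1504], [-243, -157, 266, -652, 3399],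
     [-340, 345, 2055, -2368, 1093, 1580], [92, 785, -1232, -1944, 1551, 239, 2127]]⟩,
   ⟨1011, 10, [],
    [[1572], [-294, 921], [-106, 4, 2044], [191, 697, -1231, 1580], [-319, -206, 203, -727, 3695],
     [-365, 411, 1943, -2375, 1136, 1635], [82, 766, -1923, -2652, 2289, 418, 2306]]⟩,
   ⟨2025, 11, [],
    [[1725], [-246, 1022], [-166, 43, 2277], [210, 781, -1109, 1657], [-393, -264, 133, -803, 3978],
     [-379, 476, 1813, -2362, 1156, 1679], [92, 670, -2743, -3457, 3144, 613, 2478]]⟩,
   ⟨2027, 11, [],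
    [[1849], [-204, 1108], [-221, 76, 2460], [221, 858, -1002, 1722], [-453, -321, 74, -869, 4207],
     [-383, 530, 1712, -2354, 1168, 1717], [118, 515, -3416, -4069, 3817, 761, 2545]]⟩,
   ⟨2029, 11, [],
    [[1994], [-149, 1213], [-295, 117, 2667], [229, 960, -873, 1805], [-526, -399, 1, -951, 4480],
     [-382, 596, 1606, -2354, 1178, 1765], [168, 256, -4020, -4536, 4371, 879, 2465]]⟩]

theorem cM2_ok : cM2.all (cellOK PM7 7) = true := by decide +kernel

end PHK
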