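import Pool.Agent.PHK.CTab

/-!
# PHK/CelM3 (helper52): cells of the difference channel (congruences: helper79), part 3
-/

set_option autoImplicit false
set_option maxRecDepth 100000

namespace PHK

def cM3 : List CellD :=
  [⟨2031, 11, [],
    [[2168], [-79, 1344], [-391, 165, 2907], [231, 1096, -719, 1910], [-614, -507, -84, -1055, 4812],
     [-373, 679, 1502, -2366, 1186, 1830], [240, -77, -4307, -4611, 4545, 910, 2176]]⟩,
   ⟨2033, 11, [],
    [[2379], [12, 1510], [-518, 222, 3189], [227, 1279, -539, 2048], [-723, -657, -184, -1190, 5225],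
     [-352, 790, 1408, -2396, 1189, 1919], [321, -399, -4215, -4289, 4303, 847, 1763]]⟩,
   ⟨2035, 11, [],
    [[2644], [130, 1727], [-684, 289, 3531], [213, 1529, -332, 2232], [-864, -870, -301, -1367, 5756],
     [-313, 949, 1333, -2450, 1179, 2044], [399, -656, -3918, -3794, 3855, 737, 1367]]⟩,
   ⟨2037, 11, [],
    [[2987], [287, 2020], [-906, 369, 3968], [190, 1878, -92, 2486], [-1054, -1179, -441, -1611, 6467],
     [-244, 1189, 1293, -2537, 1143, 2226], [470, -849, -3578, -3304, 3385, 620, 1054]]⟩,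
   ⟨2039, 11, [],
    [[3459], [501, 2434], [-1209, 466, 4565], [159, 2381, 192, 2856], [-1327, -1646, -616, -1962, 7483],
     [-127, 1576, 1315, -2675, 1059, 2502], [526, -998, -3261, -2883, 2969, 510, 823]]⟩,
   ⟨2041, 11, [],
    [[4169], [805, 3059], [-1644, 595, 5465], [126, 3150, 544, 3437], [-1753, -2390, -858, -2512, 9063],
     [71, 2243, 1446, -2905, 887, 2955], [558, -1117, -2980, -2536, 2625, 412, 657]]⟩,
   ⟨2043, 11, [],
    [[5400], [1282, 4128], [-2347, 793, 7043], [102, 4456, 1037, 4470], [-2497, -3688, -1248, -3480, 11873],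
     [425, 3493, 1799, -3353, 560, 3795], [556, -1210, -2726, -2251, 2350, 325, 537]]⟩,
   ⟨2045, 11, [],
    [[8206], [2236, 6484], [-3820, 1218, 10667], [104, 7270, 1940, 6841],
     [-4126, -6469, -2072, -5634, 18308], [1151, 6293, 2749, -4532, -56, 5775],
     [521, -1259, -2482, -2010, 2126, 253, 450]]⟩,
   ⟨1024, 10, [1, 1, 1, 1, 1, 1, 0],
    [[10399], [3064, 8394], [-5041, 1544, 13491], [106, 9644, 2735, 8722],
     [-5541, -9008, -2783, -7471, 23490], [1953, 9001, 3568, -5219, -974, 7360], [0, 0, 0, 0, 0, 0, 362]]⟩]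

theorem cM3_ok : cM3.all (cellOK PM7 7) = true := by decide +kernel

end PHK
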