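import Pool.Agent.PHK.CTab

/-!
# PHK/CelP2 (helper52): cells of the sum channel (congruences: helper79), part 2
-/

set_option autoImplicit false
set_option maxRecDepth 100000

namespace PHK

def cP2 : List CellD :=
  [⟨501, 9, [],
    [[851], [-316, 750], [-17, -83, 888], [-168, -145, 241, 1394], [551, -446, 746, 405, 1217],
     [-446, 442, 1107, 788, 445, 1444], [290, -82, 268, 195, 2836, -23, 2721]]⟩,
   ⟨503, 9, [],
    [[889], [-369, 760], [22, -111, 911], [-180, -161, 251, 1561], [612, -526, 894, 507, 1331],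
     [-495, 491, 1737, 1432, 742, 1931], [364, -107, 560, 431, 3411, 174, 3104]]⟩,
   ⟨1009, 10, [],
    [[930], [-420, 776], [58, -148, 934], [-194, -187, 223, 1706], [675, -594, 983, 510, 1421],
     [-557, 547, 2395, 2113, 1017, 2557], [425, -116, 1010, 803, 4111, 540, 3551]]⟩,
   ⟨1011, 10, [],
    [[967], [-461, 794], [86, -182, 957], [-209, -211, 185, 1819], [727, -640, 1030, 449, 1482],
     [-612, 601, 2776, 2518, 1119, 3038], [480, -121, 1373, 1092, 4697, 877, 3958]]⟩,
   ⟨507, 9, [],
    [[1051], [-542, 841], [136, -248, 1014], [-251, -256, 99, 2046], [837, -715, 1112, 244, 1604],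
     [-700, 701, 2996, 2791, 1000, 3623], [635, -164, 1690, 1245, 5593, 1223, 4725]]⟩,
   ⟨1017, 10, [],
    [[1208], [-667, 947], [201, -345, 1140], [-335, -320, -14, 2443], [1046, -831, 1301, -116, 1856],
     [-838, 865, 3077, 2965, 697, 4260], [935, -268, 1871, 1103, 6846, 1395, 5907]]⟩,
   ⟨1019, 10, [],
    [[1427], [-818, 1106], [266, -447, 1331], [-439, -392, -109, 2962], [1327, -989, 1594, -487, 2227],
     [-1037, 1082, 3399, 3406, 495, 5136], [1296, -385, 2225, 1021, 8500, 1653, 7384]]⟩,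
   ⟨1021, 10, [],
    [[1957], [-1152, 1505], [395, -655, 1812], [-657, -550, -249, 4162], [1957, -1372, 2293, -1113, 3125],
     [-1512, 1576, 4471, 4709, 321, 7260], [2042, -615, 3188, 1074, 12290, 2341, 10682]]⟩,
   ⟨2045, 11, [],
    [[3323], [-1979, 2548], [692, -1144, 3068], [-1163, -942, -501, 7153], [3457, -2348, 4008, -2290, 5386],
     [-2669, 2768, 7471, 8123, 248, 12570], [3727, -1126, 5601, 1531, 21506, 4075, 18662]]⟩,
   ⟨1024, 10, [1, 1, 1, 1, 1, 1, 1],
    [[4165], [-2491, 3190], [878, -1448, 3842], [-1479, -1185, -662, 9005],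
     [4398, -2952, 5080, -3055, 6792], [-3398, 3514, 9317, 10260, 176, 15880],
     [4797, -1451, 7120, 1781, 27269, 5160, 23644]]⟩]

theorem cP2_ok : cP2.all (cellOK PP7 7) = true := by decide +kernel

end PHK
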