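import Pool.Agent.PHK.CelP1
import Pool.Agent.PHK.CelP2
import Pool.Agent.PHK.CelM1
import Pool.Agent.PHK.CelM2
import Pool.Agent.PHK.CelM3

/-!
# PHK/RegI (helper52): the certificate on `11 / 16 ≤ y ≤ 1`, both channels

Exact congruences by helper79; `PP7`, `PM7` are the tables of `PHK/CTab`.
-/

set_option autoImplicit false

namespace PHK

open Finset

theorem all_append {L M : List CellD} {f : CellD → Bool} (h : L.all f = true) (h' : M.all f = true) :
    (L ++ M).all f = true := by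
  rw [List.all_append, h, h']; rfl

/-- **sum channel** -/
theorem regP {y : ℝ} (h0 : 11 / 16 ≤ y) (h1 : y ≤ 1) (u : ℕ → ℝ) :
    0 ≤ ∑ i ∈ range 7, ∑ j ∈ range 7, mt PP7 y i j * u i * u j := by
  have hall : (cP1 ++ cP2).all (cellOK PP7 7) = true := all_append cP1_ok cP2_ok
  have hch : chainOK (cP1 ++ cP2) = true := by decide +kernel
  obtain ⟨c, L, hL⟩ : ∃ c L, cP1 ++ cP2 = c :: L := ⟨_, _, rfl⟩
  obtain ⟨c', hl⟩ : ∃ c', (cP1 ++ cP2).getLast? = some c' := ⟨_, rfl⟩
  have hc : c.p = 45 ∧ c.r = 6 := by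
    have : (cP1 ++ cP2).head? = some c := by rw [hL]; rfl
    have h2 : (cP1 ++ cP2).head?.map (fun c => (c.p, c.r)) = some (45, 6) := by decide +kernel
    rw [this] at h2
    simpa using h2
  have hc' : c'.p = 1024 ∧ c'.r = 10 := by
    have h2 : (cP1 ++ cP2).getLast?.map (fun c => (c.p, c.r)) = some (1024, 10) := by decide +kernel
    rw [hl] at h2
    simpa using h2
  rw [hL] at hall hch hl
  refine reg_of_list PP7 7 c' L c hall hch (by omega) hl ?_ ?_ u
  · rw [hc.1, hc.2]; norm_num; linarith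
  · rw [hc'.1, hc'.2]; norm_num; linarith

/-- **difference channel** -/
theorem regM {y : ℝ} (h0 : 11 / 16 ≤ y) (h1 : y ≤ 1) (u : ℕ → ℝ) :
    0 ≤ ∑ i ∈ range 7, ∑ j ∈ range 7, mt PM7 y i j * u i * u j := by
  have hall : (cM1 ++ cM2 ++ cM3).all (cellOK PM7 7) = true :=
    all_append (all_append cM1_ok cM2_ok) cM3_ok
  have hch : chainOK (cM1 ++ cM2 ++ cM3) = true := by decide +kernel
  obtain ⟨c, L, hL⟩ : ∃ c L, cM1 ++ cM2 ++ cM3 = c :: L := ⟨_, _, rfl⟩
  obtain ⟨c', hl⟩ : ∃ c', (cM1 ++ cM2 ++ cM3).getLast? = some c' := ⟨_, rfl⟩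
  have hc : c.p = 45 ∧ c.r = 6 := by
    have : (cM1 ++ cM2 ++ cM3).head? = some c := by rw [hL]; rfl
    have h2 : (cM1 ++ cM2 ++ cM3).head?.map (fun c => (c.p, c.r)) = some (45, 6) := by decide +kernel
    rw [this] at h2
    simpa using h2
  have hc' : c'.p = 1024 ∧ c'.r = 10 := by
    have h2 : (cM1 ++ cM2 ++ cM3).getLast?.map (fun c => (c.p, c.r)) = some (1024, 10) := by decide +kernel
    rw [hl] at h2
    simpa using h2
  rw [hL] at hall hch hl
  refine reg_of_list PM7 7 c' L c hall hch (by omega) hl ?_ ?_ u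
  · rw [hc.1, hc.2]; norm_num; linarith
  · rw [hc'.1, hc'.2]; norm_num; linarith

end PHK
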