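import Pool.Agent.PHK.TailC
import Pool.Agent.PHK.BTab

/-!
# Region `z ≥ 24` of the certificate: the two channels (helper93)

`tailP`, `tailM`: the check `chkT` of `TailC` on the plain lists `PL true`, `PL false`.
-/

set_option autoImplicit false

namespace PHK

theorem chkT_congr {B B' : Fin 7 → Fin 7 → SP} (h : ∀ i j, B i j = B' i j) : chkT B = chkT B' := by
  have : B = B' := funext fun i => funext fun j => h i j
  rw [this]

theorem tail_lit : ∀ s : Bool, chkT (PLt s) = true := by decide +kernel

theorem tail_chk (s : Bool) : chkT (PL s) = true := by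
  rw [chkT_congr (PL_tab s)]
  exact tail_lit s

theorem tailP : chkT (PL true) = true := tail_chk true

theorem tailM : chkT (PL false) = true := tail_chk false

/-- **region `z ≥ 24` of the certificate**, both channels, plain basis -/
theorem tailPL (s : Bool) {y τ : ℝ} (h0 : 0 < y) (h1 : y ≤ 11 / 16) (hτ : τ ≤ 1 - y) (u : Fin 7 → ℝ) :
    0 ≤ ∑ i, ∑ j, (ev (PL s i j) y - τ * (kt7 i j : ℝ) * 512 * (1 - y ^ 512)) * u i * u j :=
  tail7 (tail_chk s) h0 h1 hτ u

end PHK
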