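import Pool.Agent.PHK.BTab
import Pool.Agent.PHK.TailD
import Pool.Agent.PHK.FormD
import Pool.Agent.PHK.RegI

/-!
# PHK/BordI (helper52): the bordered forms of the certificate are nonnegative

`regI7`: cells (`PHK/RegI`, `y ≥ 11/16`) on helper8's lists, both channels, in helper92's form;
`stabProd_par6 : StabProd6 par6`.
-/

set_option autoImplicit false

noncomputable section

namespace PHK

open Finset

/-- one exponent up -/
def shf (p : SP) : SP := p.map fun a => (a.1, a.2 + 1)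

theorem ev_shf (p : SP) (y : ℝ) : ev (shf p) y = y * ev p y := by
  induction p with
  | nil => simp [shf, ev]
  | cons a p ih =>
    have e : shf (a :: p) = (a.1, a.2 + 1) :: shf p := rfl
    rw [e, ev_cons, ev_cons, ih, pow_succ]
    ring

/-- `-32 k (1 - y) (1 - y ^ 512)` -/
def kpl (k : ℤ) : SP := [(-32 * k, 0), (32 * k, 1), (32 * k, 512), (-32 * k, 513)]

theorem ev_kpl (k : ℤ) (y : ℝ) : ev (kpl k) y = -(32 * (k : ℝ) * (1 - y) * (1 - y ^ 512)) := by
  have e : y ^ 513 = y ^ 512 * y := pow_succ y 512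
  simp only [kpl, ev_cons, ev_nil, e]
  push_cast
  ring

/-- the table of a channel -/
def PQ7 (s : Bool) : ℕ → ℕ → SP := if s then PP7 else PM7

theorem link7 : ∀ (s : Bool) (i j : Fin 7), j ≤ i → PQ7 s i j = col (kpl (kt7 i j) ++ shf (BLt s i j)) := by
  decide +kernel

theorem symm_BLt : ∀ (s : Bool) (i j : Fin 7), BLt s i j = BLt s j i := by
  decide +kernel

theorem symm_kt7 : ∀ (i j : Fin 7), kt7 i j = kt7 j i := by
  decide +kernel

theorem kap7_kt7 (i j : Fin 7) : kap7 i j = ((kt7 i j : ℤ) : ℝ) := by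
  fin_cases i <;> fin_cases j <;> simp [kap7, xi7, kapS, kt7]

theorem mt_link (s : Bool) (y : ℝ) (i j : Fin 7) : mt (PQ7 s) y i j =
    y * ev (BL s i j) y - 32 * kap7 i j * (1 - y) * (1 - y ^ 512) := by
  have key : ∀ i j : Fin 7, j ≤ i → mt (PQ7 s) y i j =
      y * ev (BL s i j) y - 32 * kap7 i j * (1 - y) * (1 - y ^ 512) := by
    intro i j hij
    have h1 : (j : ℕ) ≤ i := hij
    unfold mt
    rw [max_eq_left h1, min_eq_right h1, link7 s i j hij, ev_col, ev_append, ev_kpl, ev_shf, BL_tab,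
      kap7_kt7]
    ring
  rcases le_total j i with h | h
  · exact key i j h
  · rw [mt_symm, key j i h, BL_tab, BL_tab, symm_BLt s j i, kap7_kt7, kap7_kt7, symm_kt7 j i]

theorem regQ (s : Bool) {y : ℝ} (h0 : 11 / 16 ≤ y) (h1 : y ≤ 1) (u : ℕ → ℝ) :
    0 ≤ ∑ i ∈ range 7, ∑ j ∈ range 7, mt (PQ7 s) y i j * u i * u j := by
  cases s
  · exact regM h0 h1 u
  · exact regP h0 h1 u

theorem kap7_nonneg (u : Fin 7 → ℝ) : 0 ≤ ∑ i, ∑ j, kap7 i j * u i * u j := by
  have h := kt7_nonneg u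
  simp only [kap7_kt7]
  exact h

/-- **region I** -/
theorem bordI (s : Bool) {y τ : ℝ} (h0 : 11 / 16 ≤ y) (h1 : y ≤ 1) (hτ : τ * y ≤ (1 - y) / 16)
    (u : Fin 7 → ℝ) :
    0 ≤ ∑ i, ∑ j, (ev (BL s i j) y - τ * 512 * (1 - y ^ 512) * kap7 i j) * u i * u j := by
  have hy : 0 < y := by linarith
  have h2 := regQ s h0 h1 (fun i => if h : i < 7 then u ⟨i, h⟩ else 0)
  rw [Finset.sum_range] at h2
  have e1 : ∑ i : Fin 7, ∑ j ∈ range 7, mt (PQ7 s) y i j * (if h : (i : ℕ) < 7 then u ⟨i, h⟩ else 0) *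
      (if h : j < 7 then u ⟨j, h⟩ else 0) = ∑ i : Fin 7, ∑ j : Fin 7, mt (PQ7 s) y i j * u i * u j := by
    refine Finset.sum_congr rfl fun i _ => ?_
    rw [Finset.sum_range]
    refine Finset.sum_congr rfl fun j _ => ?_
    rw [dif_pos i.2, dif_pos j.2]
  rw [e1] at h2
  have h3 := kap7_nonneg u
  have hp : y ^ 512 ≤ 1 := pow_le_one₀ hy.le h1
  set c : ℝ := 512 * (1 - y ^ 512) * ((1 - y) / 16 - τ * y) with hc
  have hc0 : 0 ≤ c := by
    have : 0 ≤ 1 - y ^ 512 := by linarith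
    have h4 : 0 ≤ (1 - y) / 16 - τ * y := by linarith
    positivity
  have e2 : y * ∑ i, ∑ j, (ev (BL s i j) y - τ * 512 * (1 - y ^ 512) * kap7 i j) * u i * u j =
      ∑ i : Fin 7, ∑ j : Fin 7, mt (PQ7 s) y i j * u i * u j + c * ∑ i, ∑ j, kap7 i j * u i * u j := by
    rw [Finset.mul_sum, Finset.mul_sum, ← Finset.sum_add_distrib]
    refine Finset.sum_congr rfl fun i _ => ?_
    rw [Finset.mul_sum, Finset.mul_sum, ← Finset.sum_add_distrib]
    refine Finset.sum_congr rfl fun j _ => ?_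
    rw [mt_link, hc]
    ring
  have h5 : 0 ≤ y * ∑ i, ∑ j, (ev (BL s i j) y - τ * 512 * (1 - y ^ 512) * kap7 i j) * u i * u j := by
    rw [e2]; exact add_nonneg h2 (mul_nonneg hc0 h3)
  exact nonneg_of_mul_nonneg_right h5 hy

/-- **region `z ≤ 64 log (16 / 11)` of the certificate** in helper92's form -/
theorem regI7 (s : Bool) : RegI s := by
  intro z hz h u
  set y := Real.exp (-(z / 64)) with hy
  have hy0 : 0 < y := Real.exp_pos _
  have hy1 : y ≤ 1 := by rw [hy]; exact Real.exp_le_one_iff.2 (by linarith)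
  set τ := 1 - Real.exp (-(z / 1024)) with hτ
  have h7 : τ * y ≤ (1 - y) / 16 := by
    -- `1 - exp (-z/1024) ≤ z / 1024 = -(log y) / 16 ≤ (1/y - 1) / 16`
    have h1 : 1 - z / 1024 ≤ Real.exp (-(z / 1024)) := by
      have := Real.add_one_le_exp (-(z / 1024))
      linarith
    have h2 : z / 64 + 1 ≤ Real.exp (z / 64) := Real.add_one_le_exp _
    have h3 : Real.exp (z / 64) * y = 1 := by rw [hy, ← Real.exp_add]; simp
    have h4 : τ ≤ z / 1024 := by linarith
    have h5 : (z / 64 + 1) * y ≤ 1 := by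
      have := mul_le_mul_of_nonneg_right h2 hy0.le
      rwa [h3] at this
    have h6 : τ * y ≤ z / 1024 * y := mul_le_mul_of_nonneg_right h4 hy0.le
    nlinarith
  have h8 := bordI s h hy1 h7 u
  refine h8.trans (le_of_eq ?_)
  refine Finset.sum_congr rfl fun i _ => Finset.sum_congr rfl fun j _ => ?_
  ring

/-- **the certificate of the particle-hole representation** -/
theorem stabProd_par6 : StabProd6 par6 := stab_of tailP tailM (regI7 true) (regI7 false)

end PHK
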