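import Pool.Agent.PHK.Om
import Pool.Agent.PLX.PhiLow

/-!
# The cutoff of the strings with the factor `om`: the bracket of `T`, the strings `E`, `F`

Two lists of points `X1` (quanta), `X2` (strings), each `0^K ++ ex` (`RwL`), `pP X u` the product of the
functions `psi_0 (u - x)`, `T1 = log m * 3 / 8 + tau`:

* `phiL_cut`: `‖phi β X u‖ ≤ cL * min 1 (m exp (-2 β |im u|))` for `|re u + l / 2| ≤ l`;
* `pP_le`, `pP_vac`: the two hypotheses of `norm_om_le`;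
* **`br_bulk`**, **`br_cut`**: the bracket `phi phi - phi_0 om` at the line of `T`;
* **`phi0_om`**: the cutoff of a string at the offset `2 + e`, `e ≤ 9 / 20`.
-/

set_option autoImplicit false

noncomputable section

open Complex

namespace PHK

open NUP1 NUO PBO.PLX
open NUGC (psi_le_one' one_sub_psi')

/-- product of the functions `psi_0` of the points -/
def pP (X : List ℂ) (u : ℂ) : ℂ := (X.map fun x => psi (4 / 3) (u - x)).prod

theorem phi_pP (X : List ℂ) (u : ℂ) : phi (4 / 3) X u = 1 - pP X u := rfl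

/-- the cutoff of the strings with the factor `om` -/
def phO (T1 : ℝ) (X : List ℂ) (u : ℂ) : ℂ := phi (4 / 3) X u * om T1 (pP X) u

section list
variable {β : ℝ} {n0 K m : ℕ} {h0 : ℝ} {X ex : List ℂ} {u : ℂ}

theorem rwL_mem (hh : 0 ≤ h0) (h : RwL n0 h0 K X ex) {x : ℂ} (hx : x ∈ X) :
    |x.re| ≤ l / 2 ∧ |x.im| ≤ h0 := by
  have hl := l_pos
  rcases List.mem_append.1 (h.perm.mem_iff.1 hx) with hx | hx
  · rw [List.eq_of_mem_replicate hx]
    refine ⟨?_, ?_⟩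
    · rw [zero_re, abs_zero]; positivity
    · rw [zero_im, abs_zero]; exact hh
  · exact ⟨h.re x hx, h.im x hx⟩

private theorem strip_of (hu : |u.re + l / 2| ≤ l) {x : ℂ} (hx : |x.re| ≤ l / 2) :
    |(u - x).re + l / 2| ≤ 3 * l / 2 := by
  obtain ⟨a, b⟩ := abs_le.1 hu
  obtain ⟨c, d⟩ := abs_le.1 hx
  rw [sub_re, abs_le]
  constructor <;> linarith

theorem norm_phi_csL (hβ0 : 0 < β) (hβ1 : β ≤ 4 / 3) (hu : ∀ x ∈ X, |(u - x).re + l / 2| ≤ 3 * l / 2)
    (hh : 0 ≤ h0) (hr : ∀ x ∈ X, |x.im| ≤ h0) :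
    ‖phi β X u‖ ≤ 8 * Real.exp (8 / 3 * h0) * (X.length * Real.exp (-(2 * β) * |u.im|)) := by
  induction X with
  | nil => simp [phi]
  | cons x X ih =>
    have e : phi β (x :: X) u = (1 - psi β (u - x)) + psi β (u - x) * phi β X u := by
      unfold phi
      rw [List.map_cons, List.prod_cons]; ring
    have ih' := ih (fun y hy => hu y (by simp [hy])) fun y hy => hr y (by simp [hy])
    have a1 := one_sub_psi' hβ0 hβ1 (hu x (by simp))
    have a2 := psi_le_one' hβ0 hβ1 (hu x (by simp))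
    have a3 : Real.exp (-(2 * β) * |(u - x).im|) ≤
        Real.exp (8 / 3 * h0) * Real.exp (-(2 * β) * |u.im|) := by
      rw [← Real.exp_add]
      refine Real.exp_le_exp.2 ?_
      have h3 : |u.im| - |x.im| ≤ |(u - x).im| := by rw [sub_im]; exact abs_sub_abs_le_abs_sub _ _
      have h4 := hr x (by simp)
      have h5 : 2 * β * (|u.im| - |(u - x).im|) ≤ 2 * β * h0 :=
        mul_le_mul_of_nonneg_left (by linarith) (by linarith)
      have h6 : 2 * β * h0 ≤ 8 / 3 * h0 := mul_le_mul_of_nonneg_right (by linarith) hh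
      linarith
    rw [e, List.length_cons]
    refine (norm_add_le _ _).trans ?_
    rw [norm_mul]
    have a4 : ‖psi β (u - x)‖ * ‖phi β X u‖ ≤ ‖phi β X u‖ := mul_le_of_le_one_left (norm_nonneg _) a2
    push_cast
    linarith

/-- constant of `phiL_cut` -/
def cL (h0 Cl : ℝ) : ℝ := 8 * Real.exp (8 / 3 * h0) * Cl + 2

theorem cL_ge {Cl : ℝ} (hC : 0 ≤ Cl) : 2 ≤ cL h0 Cl := by
  unfold cL
  have := Real.exp_pos (8 / 3 * h0)
  have : 0 ≤ 8 * Real.exp (8 / 3 * h0) * Cl := by positivity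
  linarith

/-- **the cutoff on the lines of the strings and of `T`** -/
theorem phiL_cut (hβ0 : 0 < β) (hβ1 : β ≤ 4 / 3) (hh : 0 ≤ h0) (h : RwL n0 h0 K X ex) {Cl : ℝ}
    (hC : 0 ≤ Cl) (hlen : (X.length : ℝ) ≤ Cl * m) (hu : |u.re + l / 2| ≤ l) :
    ‖phi β X u‖ ≤ 2 ∧ ‖phi β X u‖ ≤ cL h0 Cl * cut m β u.im ∧
      ‖phi β X u‖ ≤ cL h0 Cl * (m * Real.exp (-(2 * β) * |u.im|)) := by
  have hs : ∀ x ∈ X, |(u - x).re + l / 2| ≤ 3 * l / 2 := fun x hx => strip_of hu (rwL_mem hh h hx).1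
  have a1 := norm_phi_two hβ0 hβ1 hs
  have a2 := norm_phi_csL hβ0 hβ1 hs hh fun x hx => (rwL_mem hh h hx).2
  have hc := cL_ge (h0 := h0) hC
  have hm : (0 : ℝ) ≤ m := Nat.cast_nonneg m
  have hE := Real.exp_pos (-(2 * β) * |u.im|)
  have a3 : ‖phi β X u‖ ≤ cL h0 Cl * (m * Real.exp (-(2 * β) * |u.im|)) := by
    refine a2.trans ?_
    unfold cL
    calc 8 * Real.exp (8 / 3 * h0) * (X.length * Real.exp (-(2 * β) * |u.im|)) ≤
        8 * Real.exp (8 / 3 * h0) * ((Cl * m) * Real.exp (-(2 * β) * |u.im|)) := by gcongr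
      _ = 8 * Real.exp (8 / 3 * h0) * Cl * (m * Real.exp (-(2 * β) * |u.im|)) := by ring
      _ ≤ _ := mul_le_mul_of_nonneg_right (by linarith) (by positivity)
  refine ⟨a1, ?_, a3⟩
  unfold cut
  rcases le_total 1 (m * Real.exp (-(2 * β) * |u.im|)) with h5 | h5
  · rw [min_eq_left h5, mul_one]
    exact a1.trans hc
  · rw [min_eq_right h5]
    exact a3

/-- the product over the points -/
theorem norm_prodL (hβ0 : 0 < β) (hβ1 : β ≤ 4 / 3) (h : RwL n0 h0 K X ex)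
    (hu : |u.re + l / 2| ≤ l) {q : ℝ} (hq : ‖psi β u‖ ≤ q) :
    ‖(X.map fun x => psi β (u - x)).prod‖ ≤ q ^ K := by
  rw [(h.perm.map fun x => psi β (u - x)).prod_eq, List.map_append, List.prod_append,
    List.map_replicate, List.prod_replicate, sub_zero, norm_mul, norm_pow]
  have a1 : ‖psi β u‖ ^ K ≤ q ^ K := pow_le_pow_left₀ (norm_nonneg _) hq K
  have a2 : ‖(ex.map fun x => psi β (u - x)).prod‖ ≤ 1 :=
    norm_prod_cs hβ0 hβ1 fun x hx => strip_of hu (h.re x hx)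
  calc ‖psi β u‖ ^ K * ‖(ex.map fun x => psi β (u - x)).prod‖ ≤ q ^ K * 1 :=
        mul_le_mul a1 a2 (norm_nonneg _) (pow_nonneg ((norm_nonneg _).trans hq) K)
    _ = _ := mul_one _

theorem pP_le (hh : 0 ≤ h0) (h : RwL n0 h0 K X ex) (hu : |u.re + l / 2| ≤ l) : ‖pP X u‖ ≤ 1 :=
  norm_prod_cs (by norm_num) le_rfl fun x hx => strip_of hu (rwL_mem hh h hx).1

/-- the smallest `tau` -/
def tau0 (h0 Cl : ℝ) : ℝ := 3 / 8 * Real.log (5 * cL h0 Cl)

theorem tau0_nonneg {Cl : ℝ} (hC : 0 ≤ Cl) : 0 ≤ tau0 h0 Cl := by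
  unfold tau0
  have := cL_ge (h0 := h0) hC
  have := Real.log_nonneg (x := 5 * cL h0 Cl) (by linarith)
  positivity

theorem pP_vac (hh : 0 ≤ h0) (h : RwL n0 h0 K X ex) {Cl : ℝ} (hC : 0 ≤ Cl) (hm : 1 ≤ m)
    (hlen : (X.length : ℝ) ≤ Cl * m) (hu : |u.re + l / 2| ≤ l) {T1 : ℝ}
    (hT : 3 / 8 * Real.log m + tau0 h0 Cl ≤ T1) (ht : T1 ≤ |u.im|) : ‖pP X u - 1‖ ≤ 1 / 5 := by
  have a := (phiL_cut (β := 4 / 3) (by norm_num) le_rfl hh h hC hlen hu).2.2
  have e : ‖pP X u - 1‖ = ‖phi (4 / 3) X u‖ := by rw [phi_pP, norm_sub_rev]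
  rw [e]
  have hc := cL_ge (h0 := h0) hC
  have hmr : (0 : ℝ) < m := by exact_mod_cast hm
  refine a.trans ?_
  have e1 : (m : ℝ) * Real.exp (-(2 * (4 / 3)) * |u.im|) ≤ (5 * cL h0 Cl)⁻¹ := by
    have h1 : (m : ℝ) = Real.exp (Real.log m) := (Real.exp_log hmr).symm
    have h2 : (5 * cL h0 Cl)⁻¹ = Real.exp (-Real.log (5 * cL h0 Cl)) := by
      rw [Real.exp_neg, Real.exp_log (by linarith)]
    rw [h2]
    conv_lhs => rw [h1]
    rw [← Real.exp_add]
    refine Real.exp_le_exp.2 ?_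
    unfold tau0 at hT
    linarith
  calc cL h0 Cl * (m * Real.exp (-(2 * (4 / 3)) * |u.im|)) ≤ cL h0 Cl * (5 * cL h0 Cl)⁻¹ := by
        gcongr
    _ = 1 / 5 := by
        field_simp

end list

/-! ### the line of `T` -/

private theorem posT_re (t : ℝ) : (posT t).re = -(1 / 2 * l) := NUO.vl_re _ _
private theorem posT_im (t : ℝ) : (posT t).im = t := NUO.vl_im _ _
private theorem posTl_re (t : ℝ) : (posT t - l).re = -(3 / 2 * l) := by
  rw [sub_re, posT_re, ofReal_re]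
  ring
private theorem posTl_im (t : ℝ) : (posT t - l).im = t := by rw [sub_im, posT_im, ofReal_im, sub_zero]

private theorem uT (t : ℝ) : |(posT t).re + l / 2| ≤ l := by
  have hl := l_pos
  rw [posT_re, show -(1 / 2 * l) + l / 2 = 0 by ring, abs_zero]
  exact hl.le

private theorem uTl (t : ℝ) : |(posT t - l).re + l / 2| ≤ l := by
  have hl := l_pos
  rw [posTl_re, show -(3 / 2 * l) + l / 2 = -l by ring, abs_neg, abs_of_pos hl]

private theorem oT (t : ℝ) : |(posT t).re + 31 / 32 * l| ≤ 77 / 160 * l := by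
  have hl := l_pos
  rw [posT_re, show -(1 / 2 * l) + 31 / 32 * l = 15 / 32 * l by ring, abs_of_pos (by positivity)]
  linarith

section bracket
variable {β : ℝ} {n0 K1 K2 m N : ℕ} {h0 : ℝ} {X1 X2 ex1 ex2 : List ℂ}

/-- the powers of the rows -/
private theorem q_pow {K : ℕ} (hN : N ≤ K + n0) (t : ℝ) :
    Real.exp (-NUMF.Ag (1 / 2) t) ^ K ≤
      Real.exp (n0 * cA) * Real.exp (-(N * NUMF.Ag (1 / 2) t)) := by
  have hA : |NUMF.Ag (1 / 2) t| ≤ cA := Ag_bdd (by rw [abs_of_pos] <;> norm_num) t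
  have hA0 : 0 ≤ NUMF.Ag (1 / 2) t := by
    have h1 : Real.exp (-NUMF.Ag (1 / 2) t) ≤ 1 := by
      rw [← norm_psi_T_sub]
      exact psi_le_one' (by norm_num) le_rfl (by
        have hl := l_pos
        rw [posTl_re, abs_le]
        constructor <;> linarith)
    rw [Real.exp_le_one_iff] at h1
    linarith
  rw [← Real.exp_nat_mul, ← Real.exp_add]
  refine Real.exp_le_exp.2 ?_
  have h1 : (N : ℝ) ≤ K + n0 := by exact_mod_cast hN
  have h2 := (abs_le.1 hA).2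
  have h3 : (0 : ℝ) ≤ n0 := Nat.cast_nonneg n0
  nlinarith

/-- **the bracket in the bulk** -/
theorem br_bulk (hβ0 : 0 < β) (hβ1 : β ≤ 4 / 3) (hh : 0 ≤ h0) (h1 : RwL n0 h0 K1 X1 ex1)
    (h2 : RwL n0 h0 K2 X2 ex2) (hN1 : N ≤ K1 + n0) (hN2 : N ≤ K2 + n0) {Cl : ℝ} (hC : 0 ≤ Cl)
    (hm : 1 ≤ m) (hlen : (X2.length : ℝ) ≤ Cl * m) {T1 : ℝ}
    (hT : 3 / 8 * Real.log m + tau0 h0 Cl ≤ T1) (t : ℝ) :
    ‖phi β X1 (posT t) * phi β X1 (posT t - l) - phO T1 X2 (posT t)‖ ≤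
      (4 + 4 * Real.exp 2) * Real.exp (n0 * cA) * Real.exp (-(N * NUMF.Ag (1 / 2) t)) := by
  have hl := l_pos
  set u := posT t with hu
  have hqe : ‖psi (4 / 3) (u - l)‖ = Real.exp (-NUMF.Ag (1 / 2) t) := norm_psi_T_sub t
  have hq1 : Real.exp (-NUMF.Ag (1 / 2) t) ≤ 1 := by
    rw [← hqe]
    exact psi_le_one' (by norm_num) le_rfl (by
      rw [posTl_re, abs_le]
      constructor <;> linarith)
  set q := Real.exp (-NUMF.Ag (1 / 2) t) with hq
  have hq0 : 0 ≤ q := (Real.exp_pos _).le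
  have m3 : ‖psi (4 / 3) u‖ ≤ q := (norm_psi_T_le t).trans_eq hqe
  have m1 : ‖psi β u‖ ≤ q := by
    refine le_trans ?_ m3
    refine norm_psi_mono hβ0 hβ1 (by unfold l; linarith [Real.pi_pos]) ?_
    rw [hu, posT_re, show -(1 / 2 * l) + l / 2 = 0 by ring, abs_zero]
    linarith [Real.pi_pos]
  have m2 : ‖psi β (u - l)‖ ≤ q := by
    rw [← hqe]
    refine norm_psi_mono hβ0 hβ1 (by unfold l; linarith [Real.pi_pos]) ?_
    rw [hu, posTl_re, show -(3 / 2 * l) + l / 2 = -l by ring, abs_neg, abs_of_pos hl]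
    unfold l
    linarith [Real.pi_pos]
  have A1 := norm_prodL hβ0 hβ1 h1 (uT t) m1
  have A2 := norm_prodL hβ0 hβ1 h1 (uTl t) m2
  have A3 : ‖pP X2 u‖ ≤ q ^ K2 := norm_prodL (by norm_num) le_rfl h2 (uT t) m3
  obtain ⟨Q, hQ⟩ : ∃ Q, Q = Real.exp (n0 * cA) * Real.exp (-(N * NUMF.Ag (1 / 2) t)) := ⟨_, rfl⟩
  have B1 : q ^ K1 ≤ Q := by rw [hQ]; exact q_pow hN1 t
  have B2 : q ^ K2 ≤ Q := by rw [hQ]; exact q_pow hN2 t
  have hqK : q ^ K1 ≤ 1 := pow_le_one₀ hq0 hq1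
  have hQ0 : 0 ≤ Q := by rw [hQ]; positivity
  have hom := norm_one_sub_om_all (T1 := T1) (P := pP X2) (oT t) (fun _ => pP_le hh h2 (uT t))
    fun h => pP_vac hh h2 hC hm hlen (uT t) hT h
  have e : phi β X1 u * phi β X1 (u - l) - phO T1 X2 u =
      (pP X2 u + ((X1.map fun x => psi β (u - x)).prod * (X1.map fun x => psi β (u - l - x)).prod +
        (-(X1.map fun x => psi β (u - x)).prod + -(X1.map fun x => psi β (u - l - x)).prod))) +
        phi (4 / 3) X2 u * (1 - om T1 (pP X2) u) := by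
    unfold phO
    rw [phi_pP]
    unfold phi
    ring
  rw [e]
  set AA := (X1.map fun x => psi β (u - x)).prod
  set BB := (X1.map fun x => psi β (u - l - x)).prod
  have k0 := norm_add_le (pP X2 u + (AA * BB + (-AA + -BB))) (phi (4 / 3) X2 u * (1 - om T1 (pP X2) u))
  have k1 := norm_add_le (pP X2 u) (AA * BB + (-AA + -BB))
  have k2 := norm_add_le (AA * BB) (-AA + -BB)
  have k3 := norm_add_le (-AA) (-BB)
  rw [norm_neg, norm_neg] at k3
  rw [norm_mul] at k2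
  have k4 : ‖AA‖ * ‖BB‖ ≤ Q := by
    calc ‖AA‖ * ‖BB‖ ≤ q ^ K1 * 1 := mul_le_mul A1 (A2.trans hqK) (norm_nonneg _) (pow_nonneg hq0 _)
      _ ≤ Q := by rw [mul_one]; exact B1
  have k5 : ‖phi (4 / 3) X2 u * (1 - om T1 (pP X2) u)‖ ≤ 4 * Real.exp 2 * Q := by
    rw [norm_mul]
    have p1 : ‖phi (4 / 3) X2 u‖ ≤ 2 :=
      (phiL_cut (m := m) (β := 4 / 3) (by norm_num) le_rfl hh h2 hC hlen (uT t)).1
    calc ‖phi (4 / 3) X2 u‖ * ‖1 - om T1 (pP X2) u‖ ≤ 2 * (2 * Real.exp 2 * Q) := by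
          refine mul_le_mul p1 (hom.trans ?_) (norm_nonneg _) (by norm_num)
          have := A3.trans B2
          have he := Real.exp_pos 2
          gcongr
      _ = _ := by ring
  have f1 := A1.trans B1
  have f2 := A2.trans B1
  have f3 := A3.trans B2
  calc _ ≤ 4 * Q + 4 * Real.exp 2 * Q := by linarith
    _ = _ := by rw [hQ]; ring

/-- **the bracket at all heights** -/
theorem br_cut (hβ0 : 0 < β) (hβ1 : β ≤ 4 / 3) (hh : 0 ≤ h0) (h1 : RwL n0 h0 K1 X1 ex1)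
    (h2 : RwL n0 h0 K2 X2 ex2) {Cl : ℝ} (hC : 0 ≤ Cl) (hm : 1 ≤ m)
    (hlen1 : (X1.length : ℝ) ≤ Cl * m) (hlen2 : (X2.length : ℝ) ≤ Cl * m) {T1 : ℝ}
    (hT : 3 / 8 * Real.log m + tau0 h0 Cl ≤ T1) (t : ℝ) :
    ‖phi β X1 (posT t) * phi β X1 (posT t - l) - phO T1 X2 (posT t)‖ ≤
      (2 + Real.exp 3) * cL h0 Cl * cut m β t := by
  have c1 := (phiL_cut hβ0 hβ1 hh h1 hC hlen1 (uT t)).1
  have c2 := (phiL_cut hβ0 hβ1 hh h1 hC hlen1 (uTl t)).2.1
  have c3 := (phiL_cut (β := 4 / 3) (by norm_num) le_rfl hh h2 hC hlen2 (uT t)).2.1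
  rw [posTl_im] at c2
  rw [posT_im] at c3
  have hom := norm_om_le (T1 := T1) (P := pP X2) (oT t) (fun _ => pP_le hh h2 (uT t))
    fun h => pP_vac hh h2 hC hm hlen2 (uT t) hT h
  have hom' : ‖om T1 (pP X2) (posT t)‖ ≤ Real.exp 3 := by
    refine hom.trans (mul_le_of_le_one_right (Real.exp_pos _).le ?_)
    rw [Real.exp_le_one_iff]
    have := Real.exp_pos (11 / 2 * (|(posT t).im| - T1))
    linarith
  have c4 : cut m (4 / 3) t ≤ cut m β t := by
    unfold cut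
    refine min_le_min le_rfl (mul_le_mul_of_nonneg_left (Real.exp_le_exp.2 ?_) (Nat.cast_nonneg m))
    have := abs_nonneg t
    nlinarith
  have hc := cL_ge (h0 := h0) hC
  have hcut : 0 ≤ cut m β t := by unfold cut; positivity
  refine (norm_sub_le _ _).trans ?_
  unfold phO
  rw [norm_mul, norm_mul]
  have c5 : ‖phi β X1 (posT t)‖ * ‖phi β X1 (posT t - l)‖ ≤ 2 * (cL h0 Cl * cut m β t) :=
    mul_le_mul c1 c2 (norm_nonneg _) (by norm_num)
  have c6 : ‖phi (4 / 3) X2 (posT t)‖ * ‖om T1 (pP X2) (posT t)‖ ≤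
      (cL h0 Cl * cut m β t) * Real.exp 3 := by
    refine mul_le_mul (c3.trans ?_) hom' (norm_nonneg _) (by positivity)
    exact mul_le_mul_of_nonneg_left c4 (by linarith)
  calc _ ≤ 2 * (cL h0 Cl * cut m β t) + (cL h0 Cl * cut m β t) * Real.exp 3 := add_le_add c5 c6
    _ = _ := by ring

/-- **the cutoff of a string at the offset `2 + e`** -/
theorem phi0_om (hh : 0 ≤ h0) (h2 : RwL n0 h0 K2 X2 ex2) {Cl : ℝ} (hC : 0 ≤ Cl) (hm : 1 ≤ m)
    (hlen2 : (X2.length : ℝ) ≤ Cl * m) {T1 : ℝ} (hT : 3 / 8 * Real.log m + tau0 h0 Cl ≤ T1)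
    {e : ℝ} (e0 : 0 ≤ e) (e1 : e ≤ 9 / 20) (t : ℝ) :
    ‖phO T1 X2 (posS e t)‖ ≤ Real.exp 3 * cL h0 Cl * cut m (4 / 3) t *
      Real.exp (-(Real.exp (11 / 2 * (|t| - T1)) / 5)) := by
  have hl := l_pos
  have hre : (posS e t).re = -((1 + e) * l) := NUO.vl_re _ _
  have him : (posS e t).im = t := NUO.vl_im _ _
  have hu : |(posS e t).re + l / 2| ≤ l := by
    rw [hre, abs_le]
    constructor <;> nlinarith
  have ho : |(posS e t).re + 31 / 32 * l| ≤ 77 / 160 * l := by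
    rw [hre, abs_le]
    constructor <;> nlinarith
  have c3 := (phiL_cut (β := 4 / 3) (by norm_num) le_rfl hh h2 hC hlen2 hu).2.1
  have hom := norm_om_le (T1 := T1) (P := pP X2) ho (fun _ => pP_le hh h2 hu)
    fun h => pP_vac hh h2 hC hm hlen2 hu hT h
  rw [him] at c3 hom
  have hc := cL_ge (h0 := h0) hC
  have hcut : 0 ≤ cut m (4 / 3) t := by unfold cut; positivity
  unfold phO
  rw [norm_mul]
  calc _ ≤ (cL h0 Cl * cut m (4 / 3) t) *
        (Real.exp 3 * Real.exp (-(Real.exp (11 / 2 * (|t| - T1)) / 5))) :=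
        mul_le_mul c3 hom (norm_nonneg _) (by positivity)
    _ = _ := by ring

end bracket

end PHK

end
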