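import Pool.Agent.PHK.OneD
import Pool.Agent.PLX.PB.BsX

/-!
# (P): base functions with any rows `|Re x| ≤ l / 2`, any ends or legs as base spectators

* `Bs6 X ob P ep κ e E0`: the base functions `X : Bool → Option O3 → ℂ → ℂ` (rows, ends, cutoff;
  species) with the one body data `ob g` (`g` = moduli of the spectators): `OneC6` of `X` with any
  admissible spectators; `e` = number of the rows Y minus number of the rows X;
* `bs6_spX`: a base with base spectators (legs, ends) is a base;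
* `bs6_rowsU`, `bs6_XXU`: rows `xr a : Fin (N a) → ℂ` of the species `a`, `N false = N true + e`, cutoff
  points `ex a` (quanta), **any measurable correction `g0 a` of the cutoff of the strings**, base
  spectators `s0 a`, `t0 a` of rate 0, one body data `obU6 c0 β xr ex (ph (4/3) (xr a) (g0 a)) (‖s0‖ g)`;
* `bs6_XX`: rows `(x | x^q)`, `e = Fil.xn m`;
* `bs6_legsU`, `bs6_legs`: legs at `z`, `- 9 l / 10 ≤ Re z < 37 l / 10`; `bs6_endsU`, `bs6_ends`: ends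
  `p`, `q`, `|Re p|, |Re q| ≤ l / 2` (spectator `NUP1.Leg.thE p p q q`).
-/

set_option autoImplicit false
set_option linter.unusedSectionVars false

noncomputable section

open Complex MeasureTheory Finset
open scoped ENNReal

open PLX (Fil)

namespace PBR.PLX

open NUO NUP1 NUCR NUP1S NUP1S.Ab NUP1S.AbC NUP1S.AbG NURow NUP1.Leg NUGC NUGC.PLX PBX PBX.PLX
open _root_.Pool.Agent.PLX
open PHK

/-- **Base functions** `X` (species) with the one body data `ob g`, `e` additional rows Y. -/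
structure Bs6 (X : Bool → Option O3 → ℂ → ℂ) (ob : (Bool → ℂ → ℝ) → OB) (P : Par6)
    (ep κ : ℝ) (e : ℕ) (E0 : Set ℝ) : Prop where
  kpos : 0 < κ
  nul : volume E0 = 0
  meas : ∀ a k, Measurable (X a k)
  one : ∀ (x0 : ℝ), 51 / 100 * l ≤ x0 → x0 ≤ 19 / 20 * l → ∀ (q : ℤ) (s1 s2 : Bool → ℂ → ℂ)
    (E : Set ℝ), (∀ a, Measurable (s1 a)) → (∀ a, Measurable (s2 a)) →
    (∀ a, SpecAt x0 a q (s1 a)) → (∀ a, SpecS6 P E (s1 a) (s2 a)) → volume E = 0 →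
    OneC6 (fun a => spX (X a) (s1 a) (s2 a)) (ob fun a u => ‖s1 a u‖) P ep κ x0 (q - e) (E ∪ E0)

/-- the same base written differently -/
theorem Bs6.congr {X X' : Bool → Option O3 → ℂ → ℂ} {ob ob' : (Bool → ℂ → ℝ) → OB} {P : Par6}
    {ep κ : ℝ} {e : ℕ} {E0 : Set ℝ} (h : Bs6 X ob P ep κ e E0) (hX : ∀ a k u, X a k u = X' a k u)
    (hob : ∀ g, ob g = ob' g) : Bs6 X' ob' P ep κ e E0 := by
  have e1 : X = X' := funext fun a => funext fun k => funext fun u => hX a k u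
  have e2 : ob = ob' := funext hob
  rw [← e1, ← e2]
  exact h

/-- admissible base spectators (rate 0) -/
structure Bsp6 (P : Par6) (E1 : Set ℝ) (s0 t0 : ℂ → ℂ) : Prop where
  m1 : Measurable s0
  m2 : Measurable t0
  bd : Bdd (Set.Icc (51 / 100 * l) (21 / 20 * l)) 0 s0
  df : ∀ z : ℂ, z.re ∈ Set.Icc (51 / 100 * l) (21 / 20 * l) → DifferentiableAt ℂ s0 z
  st : SpecS6 P E1 s0 t0

/-- products of spectators -/
theorem SpecS6.mul {P : Par6} {E E1 : Set ℝ} {s1 s2 t1 t2 : ℂ → ℂ} (h : SpecS6 P E s1 s2)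
    (h' : SpecS6 P E1 t1 t2) :
    SpecS6 P (E ∪ E1) (fun u => t1 u * s1 u) fun u => t2 u * s2 u := by
  have key : ∀ w : ℂ, ‖s2 w‖ ≤ ‖s1 w‖ * ‖s1 (w - l)‖ → ‖t2 w‖ ≤ ‖t1 w‖ * ‖t1 (w - l)‖ →
      ‖t2 w * s2 w‖ ≤ ‖t1 w * s1 w‖ * ‖t1 (w - l) * s1 (w - l)‖ := by
    intro w h1 h2
    rw [norm_mul, norm_mul, norm_mul]
    calc ‖t2 w‖ * ‖s2 w‖ ≤ (‖t1 w‖ * ‖t1 (w - l)‖) * (‖s1 w‖ * ‖s1 (w - l)‖) :=
          mul_le_mul h2 h1 (norm_nonneg _) (by positivity)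
      _ = _ := by ring
  exact ⟨fun t ht => key _ (h.1 t fun h0 => ht (Or.inl h0)) (h'.1 t fun h0 => ht (Or.inr h0)),
    fun t ht => key _ (h.2 t (fun h0 => ht (Or.inl h0))) (h'.2 t (fun h0 => ht (Or.inr h0)))⟩

/-- **a base with base spectators is a base** -/
theorem bs6_spX {X : Bool → Option O3 → ℂ → ℂ} {ob : (Bool → ℂ → ℝ) → OB} {P : Par6}
    {ep κ : ℝ} {e : ℕ} {E0 E1 : Set ℝ} (h : Bs6 X ob P ep κ e E0) {s0 t0 : Bool → ℂ → ℂ}
    (hs : ∀ a, Bsp6 P E1 (s0 a) (t0 a)) (hE1 : volume E1 = 0) :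
    Bs6 (fun a => spX (X a) (s0 a) (t0 a)) (fun g => ob fun a u => ‖s0 a u‖ * g a u) P ep κ e
      (E1 ∪ E0) where
  kpos := h.kpos
  nul := by
    rw [measure_union_null_iff]
    exact ⟨hE1, h.nul⟩
  meas a k := measurable_spX (h.meas a) (hs a).m1 (hs a).m2 k
  one x0 h0 h1 q s1 s2 E hm1 hm2 hA hS hE := by
    have hsub : Set.Icc x0 (21 / 20 * l) ⊆ Set.Icc (51 / 100 * l) (21 / 20 * l) := fun y hy =>
      ⟨h0.trans hy.1, hy.2⟩
    have key := h.one x0 h0 h1 q (fun a u => s0 a u * s1 a u) (fun a u => t0 a u * s2 a u)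
      (E ∪ E1) (fun a => (hs a).m1.mul (hm1 a)) (fun a => (hs a).m2.mul (hm2 a))
      (fun a => ⟨((Bdd.mono_set (hs a).bd hsub).mul (hA a).bd).rate (by ring),
        fun z hz => ((hs a).df z (hsub hz)).mul ((hA a).df z hz)⟩)
      (fun a => SpecS6.mul (hS a) (hs a).st) (by
        rw [measure_union_null_iff]
        exact ⟨hE, hE1⟩)
    have e1 : (fun a => spX (X a) (fun u => s0 a u * s1 a u) fun u => t0 a u * s2 a u) =
        fun a => spX (spX (X a) (s0 a) (t0 a)) (s1 a) (s2 a) := by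
      funext a
      rw [spX_spX]
    have e2 : (fun (a : Bool) (u : ℂ) => ‖s0 a u * s1 a u‖) = fun a u => ‖s0 a u‖ * ‖s1 a u‖ := by
      funext a u
      exact norm_mul _ _
    rw [e1, e2, Set.union_assoc] at key
    exact key

section gen

variable {N : Bool → ℕ} {P : Par6} {ep β : ℝ} {e : ℕ} {c : Bool → ℂ} {c0 : ℝ} {xr : ∀ a, Fin (N a) → ℂ}
  {ex : Bool → List ℂ} {g0 : Bool → ℂ → ℂ}

/-- the rows alone -/
theorem bs6_rowsU (hN : N false = N true + e) (hep0 : 0 < ep) (hep : ep ≤ 1 / 100) (hβ : 0 < β)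
    (hβ' : β ≤ 4 / 3) (hx : ∀ a, Rws (xr a)) (hex : ∀ a, ∀ w ∈ ex a, |w.re| ≤ l / 2)
    (hg0 : ∀ a, Measurable (g0 a)) (hc : ∀ a, ‖c a‖ = c0) :
    Bs6 (fun a => XXU (c a) β (xr a) (xr !a) (gP β (ex a)) (g0 a) (fun _ => 1) fun _ => 1)
      (obU6 c0 β xr ex fun a => ph (4 / 3) (xr a) (g0 a)) P ep (2 * β) e
      (⋃ a, Set.range fun i => (xr a i).im) := by
  refine
    { kpos := by linarith
      nul := measure_iUnion_null fun a => (Set.finite_range _).measure_zero _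
      meas := fun a k => measurable_XXU (measurable_gP _ _) (hg0 a) measurable_const
        measurable_const k
      one := ?_ }
  intro x0 h0 h1 q s1 s2 E hm1 hm2 hA hS hE
  have h := oneC6_XXU h0 h1 hep0 hep hβ hβ' hx hex hg0 hc hm1 hm2 hA hS hE
  have e1 : (fun a => XXU (c a) β (xr a) (xr !a) (gP β (ex a)) (g0 a) (s1 a) (s2 a)) =
      fun a => spX (XXU (c a) β (xr a) (xr !a) (gP β (ex a)) (g0 a) (fun _ => 1) fun _ => 1) (s1 a)
        (s2 a) := by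
    funext a
    rw [spX_XXU]
  have e2 : q + (N true : ℤ) - (N false : ℤ) = q - e := by
    rw [hN]
    push_cast
    ring
  rw [e1, e2] at h
  exact h

/-- **rows with base spectators** -/
theorem bs6_XXU {E1 : Set ℝ} {s0 t0 : Bool → ℂ → ℂ} (hN : N false = N true + e) (hep0 : 0 < ep)
    (hep : ep ≤ 1 / 100) (hβ : 0 < β) (hβ' : β ≤ 4 / 3) (hx : ∀ a, Rws (xr a))
    (hex : ∀ a, ∀ w ∈ ex a, |w.re| ≤ l / 2) (hg0 : ∀ a, Measurable (g0 a)) (hc : ∀ a, ‖c a‖ = c0)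
    (hs : ∀ a, Bsp6 P E1 (s0 a) (t0 a)) (hE1 : volume E1 = 0) :
    Bs6 (fun a => XXU (c a) β (xr a) (xr !a) (gP β (ex a)) (g0 a) (s0 a) (t0 a))
      (fun g => obU6 c0 β xr ex (fun a => ph (4 / 3) (xr a) (g0 a)) fun a u => ‖s0 a u‖ * g a u) P ep
      (2 * β) e (E1 ∪ ⋃ a, Set.range fun i => (xr a i).im) := by
  refine (bs6_spX (bs6_rowsU hN hep0 hep hβ hβ' hx hex hg0 hc) hs hE1).congr (fun a k u => ?_)
    fun g => rfl
  rw [spX_XXU]

end gen

/-! ## rows `(x | x^q)` -/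

section fil

variable [Fil] {m : ℕ} {P : Par6} {ep β : ℝ} {c : Bool → ℂ} {c0 : ℝ} {x : Fin m → ℂ} {ex : Bool → List ℂ}
  {g0 : Bool → ℂ → ℂ}

/-- **rows `(x | x^q)` with base spectators** -/
theorem bs6_XX {E1 : Set ℝ} {s0 t0 : Bool → ℂ → ℂ} (hep0 : 0 < ep)
    (hep : ep ≤ 1 / 100) (hβ : 0 < β) (hβ' : β ≤ 4 / 3) (hx : Rws x)
    (hex : ∀ a, ∀ w ∈ ex a, |w.re| ≤ l / 2) (hg0 : ∀ a, Measurable (g0 a)) (hc : ∀ a, ‖c a‖ = c0)
    (hs : ∀ a, Bsp6 P E1 (s0 a) (t0 a)) (hE1 : volume E1 = 0) :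
    Bs6 (fun a => XXU (c a) β (rwq x a) (rwq x !a) (gP β (ex a)) (g0 a) (s0 a) (t0 a))
      (fun g => obX6 c0 β x ex (fun a => ph (4 / 3) (rwq x a) (g0 a)) fun a u => ‖s0 a u‖ * g a u) P ep
      (2 * β) (Fil.xn m) (E1 ∪ Set.range fun i => (x i).im) := by
  have h := bs6_XXU (N := fun a => cond a m (Fil.q * m)) (xr := rwq x) (cond_xn m) hep0 hep hβ hβ'
    (fun a => Rws_rwq hx a) hex hg0 hc hs hE1
  rw [iUnion_range_rwq] at h
  exact h.congr (fun _ _ _ => rfl) fun g => obU6_rwq _ _ _ _ _ _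

end fil

/-! ## legs -/

theorem bsp6_Lg {P : Par6} {z : ℂ} (h1 : -(9 / 10 * l) ≤ z.re) (h2 : z.re < 37 / 10 * l) :
    Bsp6 P ∅ (Lg z z) fun w => Lg z z w * Lg z z (w - l) where
  m1 := Lg_meas z z
  m2 := (Lg_meas z z).mul ((Lg_meas z z).comp (measurable_id.sub_const _))
  bd := ((Lg_SpecAt6 le_rfl true h1 h2).bd).rate (by simp)
  df := (Lg_SpecAt6 le_rfl true h1 h2).df
  st := Lg_SpecS6 z

/-- **legs at `z`**, any numbers of rows -/
theorem bs6_legsU {N : Bool → ℕ} {P : Par6} {ep β : ℝ} {e : ℕ} {c : Bool → ℂ} {c0 : ℝ}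
    {xr : ∀ a, Fin (N a) → ℂ} {ex : Bool → List ℂ} {g0 : Bool → ℂ → ℂ} {z : ℂ}
    (hN : N false = N true + e) (hep0 : 0 < ep) (hep : ep ≤ 1 / 100)
    (hβ : 0 < β) (hβ' : β ≤ 4 / 3) (hx : ∀ a, Rws (xr a)) (hex : ∀ a, ∀ w ∈ ex a, |w.re| ≤ l / 2)
    (hg0 : ∀ a, Measurable (g0 a)) (hc : ∀ a, ‖c a‖ = c0)
    (h1 : -(9 / 10 * l) ≤ z.re) (h2 : z.re < 37 / 10 * l) :
    Bs6 (fun a => XXU (c a) β (xr a) (xr !a) (gP β (ex a)) (g0 a) (Lg z z)
        fun w => Lg z z w * Lg z z (w - l))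
      (fun g => obU6 c0 β xr ex (fun a => ph (4 / 3) (xr a) (g0 a)) fun a u => thZ z u * g a u) P ep
      (2 * β) e (⋃ a, Set.range fun i => (xr a i).im) := by
  have h := bs6_XXU (P := P) (E1 := ∅) (s0 := fun _ => Lg z z)
    (t0 := fun _ w => Lg z z w * Lg z z (w - l)) hN hep0 hep hβ hβ' hx hex hg0 hc
    (fun _ => bsp6_Lg h1 h2) (by simp)
  simp only [norm_Lg, Set.empty_union] at h
  exact h

/-- **legs at `z`**, rows `(x | x^q)` -/
theorem bs6_legs [Fil] {m : ℕ} {P : Par6} {ep β : ℝ} {c : Bool → ℂ} {c0 : ℝ} {x : Fin m → ℂ}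
    {ex : Bool → List ℂ} {g0 : Bool → ℂ → ℂ}
    {z : ℂ} (hep0 : 0 < ep) (hep : ep ≤ 1 / 100) (hβ : 0 < β)
    (hβ' : β ≤ 4 / 3) (hx : Rws x) (hex : ∀ a, ∀ w ∈ ex a, |w.re| ≤ l / 2)
    (hg0 : ∀ a, Measurable (g0 a)) (hc : ∀ a, ‖c a‖ = c0)
    (h1 : -(9 / 10 * l) ≤ z.re) (h2 : z.re < 37 / 10 * l) :
    Bs6 (fun a => XXU (c a) β (rwq x a) (rwq x !a) (gP β (ex a)) (g0 a) (Lg z z)
        fun w => Lg z z w * Lg z z (w - l))
      (fun g => obX6 c0 β x ex (fun a => ph (4 / 3) (rwq x a) (g0 a)) fun a u => thZ z u * g a u) P ep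
      (2 * β) (Fil.xn m) (Set.range fun i => (x i).im) := by
  have h := bs6_XX (P := P) (E1 := ∅) (s0 := fun _ => Lg z z)
    (t0 := fun _ w => Lg z z w * Lg z z (w - l)) hep0 hep hβ hβ' hx hex hg0 hc
    (fun _ => bsp6_Lg h1 h2) (by simp)
  simp only [norm_Lg, Set.empty_union] at h
  exact h

/-! ## ends -/

/-- the ends on the strip of the quanta -/
theorem PB_thE6 {p q : ℂ} (hp : |p.re| ≤ l / 2) (hq : |q.re| ≤ l / 2) :
    (Bdd (Set.Icc (51 / 100 * l) (21 / 20 * l)) 0 (thE p p q q)) ∧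
    ∀ z : ℂ, z.re ∈ Set.Icc (51 / 100 * l) (21 / 20 * l) →
      DifferentiableAt ℂ (thE p p q q) z := by
  have hl := l_pos
  obtain ⟨p1, p2⟩ := abs_le.1 hp
  obtain ⟨q1, q2⟩ := abs_le.1 hq
  have hden : ∀ {r : ℂ}, |r.re| ≤ l / 2 → ∀ d ∈ Set.Icc (51 / 100 * l) (21 / 20 * l),
      Real.sin (r.re - d + 2 * l) ≠ 0 := by
    intro r hr d hd
    obtain ⟨r1, r2⟩ := abs_le.1 hr
    exact sin_pos_ne (by linarith [hd.2]) (by linarith [hd.1])
  have hp' := hden hp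
  have hq' := hden hq
  -- the leg factors
  have e : thE p p q q = fun u => Lg p q u * Lg q p u := by
    funext u
    unfold thE Lg
    have e1 : sin (u - p + 3 * l) = -sin (p - u - 3 * l) := by
      rw [← Complex.sin_neg]
      congr 1
      ring
    have e2 : sin (u - q + 3 * l) = -sin (q - u - 3 * l) := by
      rw [← Complex.sin_neg]
      congr 1
      ring
    rw [e1, e2, div_mul_div_comm]
    congr 1
    ring
  have key : ∀ {r o : ℂ}, (∀ d ∈ Set.Icc (51 / 100 * l) (21 / 20 * l),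
      Real.sin (r.re - d + 2 * l) ≠ 0) → Bdd (Set.Icc (51 / 100 * l) (21 / 20 * l)) 0 (Lg r o) ∧
      ∀ z : ℂ, z.re ∈ Set.Icc (51 / 100 * l) (21 / 20 * l) → DifferentiableAt ℂ (Lg r o) z := by
    intro r o hr
    have hd : ∀ z : ℂ, z.re ∈ Set.Icc (51 / 100 * l) (21 / 20 * l) →
        DifferentiableAt ℂ (Lg r o) z := fun z hz => Lg_diff (hr _ hz)
    refine ⟨?_, hd⟩
    have h := Bdd_of_Gr (K := Set.Icc (51 / 100 * l) (21 / 20 * l)) (f := Lg r o) isCompact_Icc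
      (α := 21 / 20 * l) (β := 51 / 100 * l) (s := 0) (fun r hr => hr) (Lg_gr _ _ r o)
      (fun u hu => (hd u hu).continuousAt)
    exact h
  rw [e]
  have k1 := key (o := q) hp'
  have k2 := key (o := p) hq'
  exact ⟨(k1.1.mul k2.1).rate (by ring), fun z hz => (k1.2 z hz).mul (k2.2 z hz)⟩

theorem bsp6_thE {P : Par6} {p q : ℂ} (hp : |p.re| ≤ l / 2) (hq : |q.re| ≤ l / 2) :
    Bsp6 P ∅ (thE p p q q) fun w => thE p p q q w * thE p p q q (w - l) where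
  m1 := measurable_thE _ _ _ _
  m2 := (measurable_thE _ _ _ _).mul ((measurable_thE _ _ _ _).comp (measurable_id.sub_const _))
  bd := (PB_thE6 hp hq).1
  df := (PB_thE6 hp hq).2
  st := ⟨fun _ _ => le_of_eq (norm_mul _ _), fun _ _ => le_of_eq (norm_mul _ _)⟩

/-- **ends `p`, `q`** (both ends of each species at one point), any numbers of rows -/
theorem bs6_endsU {N : Bool → ℕ} {P : Par6} {ep β : ℝ} {e : ℕ} {c : Bool → ℂ} {c0 : ℝ}
    {xr : ∀ a, Fin (N a) → ℂ} {ex : Bool → List ℂ} {g0 : Bool → ℂ → ℂ} {p q : ℂ}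
    (hN : N false = N true + e) (hep0 : 0 < ep) (hep : ep ≤ 1 / 100)
    (hβ : 0 < β) (hβ' : β ≤ 4 / 3) (hx : ∀ a, Rws (xr a)) (hex : ∀ a, ∀ w ∈ ex a, |w.re| ≤ l / 2)
    (hg0 : ∀ a, Measurable (g0 a)) (hc : ∀ a, ‖c a‖ = c0) (hp : |p.re| ≤ l / 2) (hq : |q.re| ≤ l / 2) :
    Bs6 (fun a => XXU (c a) β (xr a) (xr !a) (gP β (ex a)) (g0 a) (thE p p q q)
        fun w => thE p p q q w * thE p p q q (w - l))
      (fun g => obU6 c0 β xr ex (fun a => ph (4 / 3) (xr a) (g0 a))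
        fun a u => ‖thE p p q q u‖ * g a u) P ep (2 * β) e
      (⋃ a, Set.range fun i => (xr a i).im) := by
  have h := bs6_XXU (P := P) (E1 := ∅) (s0 := fun _ => thE p p q q)
    (t0 := fun _ w => thE p p q q w * thE p p q q (w - l)) hN hep0 hep hβ hβ' hx hex hg0 hc
    (fun _ => bsp6_thE hp hq) (by simp)
  simp only [Set.empty_union] at h
  exact h

/-- **ends `p`, `q`**, rows `(x | x^q)` -/
theorem bs6_ends [Fil] {m : ℕ} {P : Par6} {ep β : ℝ} {c : Bool → ℂ} {c0 : ℝ} {x : Fin m → ℂ}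
    {ex : Bool → List ℂ} {g0 : Bool → ℂ → ℂ}
    {p q : ℂ} (hep0 : 0 < ep) (hep : ep ≤ 1 / 100) (hβ : 0 < β)
    (hβ' : β ≤ 4 / 3) (hx : Rws x) (hex : ∀ a, ∀ w ∈ ex a, |w.re| ≤ l / 2)
    (hg0 : ∀ a, Measurable (g0 a)) (hc : ∀ a, ‖c a‖ = c0)
    (hp : |p.re| ≤ l / 2) (hq : |q.re| ≤ l / 2) :
    Bs6 (fun a => XXU (c a) β (rwq x a) (rwq x !a) (gP β (ex a)) (g0 a) (thE p p q q)
        fun w => thE p p q q w * thE p p q q (w - l))
      (fun g => obX6 c0 β x ex (fun a => ph (4 / 3) (rwq x a) (g0 a))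
        fun a u => ‖thE p p q q u‖ * g a u) P ep (2 * β) (Fil.xn m)
      (Set.range fun i => (x i).im) := by
  have h := bs6_XX (P := P) (E1 := ∅) (s0 := fun _ => thE p p q q)
    (t0 := fun _ w => thE p p q q w * thE p p q q (w - l)) hep0 hep hβ hβ' hx hex hg0 hc
    (fun _ => bsp6_thE hp hq) (by simp)
  simp only [Set.empty_union] at h
  exact h

end PBR.PLX

end
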