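import Pool.Agent.PHK.Bs6
import Pool.Agent.PLX.PB.BsG0

/-!
# (P): the base of the regular function, any correction of the cutoff of the strings

* `RB6 D ex c0`: data `D : RU m M` with the cutoff corrections of the lists `ex a` (quanta), **any
  measurable corrections `D.g0`, `D.g0'` of the cutoffs of the strings**, constants of modulus `c0`;
  `F0U D a`: the cutoff of the strings; `obRU6`: one body data;
  **`bs6_RU`**: `Bs6 (XB D.X D.Y) (obRU6 ..) P ep (2 β) e` for `M = m + e`;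
* `RQ6 D ex c0`: `D : RU m (Fil.q * m)` with rows `(x | x^q)`; `obR6`; **`bs6_RD`**;
* `R06 m β ex g0 g0'`: rows and ends `0`; `ob06 m β ex F0`: one body data; **`bs6_R0`**.
-/

set_option autoImplicit false
set_option linter.unusedSectionVars false

noncomputable section

open Complex MeasureTheory Finset
open scoped ENNReal
open PLX (Fil)

namespace PBR.PLX

open NUO NUP1 NUCR NUP1S NUP1S.Ab NUP1S.AbC NUP1S.AbG NURow NUGC.PLX PBX PBX.PLX
open NUP1.Leg (thE Ck Dk cc)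
open _root_.Pool.Agent.PLX
open PHK

/-! ## any numbers of rows -/

/-- the cutoff of the strings -/
def F0U {m M : ℕ} (D : RU m M) (a : Bool) : ℂ → ℂ := ph (4 / 3) (xrU D a) (cond a D.g0 D.g0')

/-- cutoff corrections of the quanta from lists, of the strings measurable, constants of modulus
`c0` -/
structure RB6 {m M : ℕ} (D : RU m M) (ex : Bool → List ℂ) (c0 : ℝ) : Prop where
  b0 : 0 < D.β
  b1 : D.β ≤ 4 / 3
  hx : Rws D.x
  hy : Rws D.y
  hp : |D.p.re| ≤ l / 2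
  hq : |D.q.re| ≤ l / 2
  g : D.g = gP D.β (ex true)
  g' : D.g' = gP D.β (ex false)
  m0 : Measurable D.g0
  m0' : Measurable D.g0'
  c : ‖D.c‖ = c0
  c' : ‖D.c'‖ = c0
  hex : ∀ a, ∀ w ∈ ex a, |w.re| ≤ l / 2

theorem RB6.Rws {m M : ℕ} {D : RU m M} {ex : Bool → List ℂ} {c0 : ℝ} (h : RB6 D ex c0) (a : Bool) :
    Rws (xrU D a) := by
  cases a
  · exact h.hy
  · exact h.hx

/-- the landed data -/
theorem RB6.of {m M : ℕ} {D : RU m M} (H : D.Ok) {ex ex0 : Bool → List ℂ} {c0 : ℝ}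
    (h : RCo D ex ex0 c0) : RB6 D ex c0 where
  b0 := H.b0
  b1 := H.b1
  hx := H.hx
  hy := H.hy
  hp := H.hp
  hq := H.hq
  g := h.g
  g' := h.g'
  m0 := H.gg0.meas
  m0' := H.gg0'.meas
  c := h.c
  c' := h.c'
  hex := h.hex

/-- one body data, spectators `g` -/
def obRU6 {m M : ℕ} (D : RU m M) (ex : Bool → List ℂ) (c0 : ℝ) (g : Bool → ℂ → ℝ) : OB :=
  obU6 c0 D.β (xrU D) ex (F0U D) fun a u => ‖thE D.p D.p D.q D.q u‖ * g a u

/-- **The base of the regular function, `M = m + e`.** -/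
theorem bs6_RU {m M e : ℕ} (hM : M = m + e) {D : RU m M} {ex : Bool → List ℂ} {c0 : ℝ}
    (h : RB6 D ex c0) {P : Par6} {ep : ℝ} (hep0 : 0 < ep) (hep : ep ≤ 1 / 100) :
    Bs6 (XB D.X D.Y) (obRU6 D ex c0) P ep (2 * D.β) e (⋃ a, Set.range fun i => (xrU D a i).im) := by
  have hc : ∀ a : Bool, ‖cond a D.c D.c'‖ = c0 := by
    intro a
    cases a
    · exact h.c'
    · exact h.c
  have hg : ∀ a : Bool, Measurable (cond a D.g0 D.g0') := by
    intro a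
    cases a
    · exact h.m0'
    · exact h.m0
  refine (bs6_endsU (P := P) (N := fun a => cond a m M) (xr := xrU D) (c := fun a => cond a D.c D.c')
    (g0 := fun a => cond a D.g0 D.g0') hM hep0 hep
    h.b0 h.b1 h.Rws h.hex hg hc h.hp h.hq).congr (fun a k u => ?_) fun g => rfl
  cases a
  · show XXU D.c' D.β D.y D.x (gP D.β (ex false)) D.g0' (thE D.p D.p D.q D.q)
        (fun w => thE D.p D.p D.q D.q w * thE D.p D.p D.q D.q (w - l)) k u = D.Y k u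
    unfold RU.Y thS
    rw [h.g', thE_symm D.q D.p]
  · show XXU D.c D.β D.x D.y (gP D.β (ex true)) D.g0 (thE D.p D.p D.q D.q)
        (fun w => thE D.p D.p D.q D.q w * thE D.p D.p D.q D.q (w - l)) k u = D.X k u
    unfold RU.X thS
    rw [h.g]

/-! ## rows `(x | x^q)` -/

section fil

variable [Fil] {m : ℕ}

/-- rows `(x | x^q)` -/
structure RQ6 (D : RU m (Fil.q * m)) (ex : Bool → List ℂ) (c0 : ℝ) : Prop extends RB6 D ex c0 where
  xy : D.y = yq D.x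

theorem RQ6.of {D : RU m (Fil.q * m)} (H : D.Ok) {ex ex0 : Bool → List ℂ} {c0 : ℝ}
    (h : REq D ex ex0 c0) : RQ6 D ex c0 := ⟨RB6.of H h.toRCo, h.xy⟩

theorem RQ6.xr {D : RU m (Fil.q * m)} {ex : Bool → List ℂ} {c0 : ℝ} (h : RQ6 D ex c0) (a : Bool) :
    xrU D a = rwq D.x a := by
  cases a
  · exact h.xy
  · rfl

/-- **one body data of the regular function**, spectators `g` -/
def obR6 (D : RU m (Fil.q * m)) (ex : Bool → List ℂ) (c0 : ℝ) (g : Bool → ℂ → ℝ) : OB :=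
  obX6 c0 D.β D.x ex (F0U D) fun a u => ‖thE D.p D.p D.q D.q u‖ * g a u

theorem RQ6.ob {D : RU m (Fil.q * m)} {ex : Bool → List ℂ} {c0 : ℝ} (h : RQ6 D ex c0)
    (g : Bool → ℂ → ℝ) : obRU6 D ex c0 g = obR6 D ex c0 g := by
  unfold obRU6 obR6
  rw [← obU6_rwq]
  congr 1
  funext a
  exact h.xr a

/-- **The base of the regular function, rows `(x | x^q)`.** -/
theorem bs6_RD {D : RU m (Fil.q * m)} {ex : Bool → List ℂ} {c0 : ℝ} (h : RQ6 D ex c0)
    {P : Par6} {ep : ℝ} (hep0 : 0 < ep) (hep : ep ≤ 1 / 100) :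
    Bs6 (XB D.X D.Y) (obR6 D ex c0) P ep (2 * D.β) (Fil.xn m) (Set.range fun i => (D.x i).im) := by
  have h1 := bs6_RU (P := P) (e := Fil.xn m) (Fil.add_xn m).symm h.toRB6 hep0 hep
  have e1 : (⋃ a : Bool, Set.range fun i => (xrU D a i).im) = Set.range fun i => (D.x i).im := by
    rw [← iUnion_range_rwq D.x]
    congr 1
    funext a
    rw [h.xr a]
  rw [e1] at h1
  exact h1.congr (fun _ _ _ => rfl) fun g => h.ob g

/-! ## rows and ends `0` -/

/-- **rows `0`, ends `0`, sizes `(m, M)`**, cutoffs of the quanta over the rows and `ex`, any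
corrections `g0`, `g0'` of the cutoffs of the strings -/
def R06U (m M : ℕ) (β : ℝ) (ex : List ℂ) (g0 g0' : ℂ → ℂ) : RU m M :=
  ⟨NUP1.Leg.cc m, NUP1.Leg.cc M, β, fun _ => 0, fun _ => 0, 0, 0, gP β ex, gP β ex, g0, g0'⟩

/-- **rows `0`, ends `0`, every row of species Y is a `q`-fold row** -/
abbrev R06 (m : ℕ) (β : ℝ) (ex : List ℂ) (g0 g0' : ℂ → ℂ) : RU m (Fil.q * m) :=
  R06U m (Fil.q * m) β ex g0 g0'

omit [Fil] in
theorem R06U_R0U (m M : ℕ) (β : ℝ) (ex ex0 : List ℂ) :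
    R0U m M β ex ex0 = R06U m M β ex (gP (4 / 3) ex0) (gP (4 / 3) ex0) := rfl

omit [Fil] in
theorem R06U_Z (m M : ℕ) (β : ℝ) (ex : List ℂ) (g0 g0' : ℂ → ℂ) : (R06U m M β ex g0 g0').Z :=
  ⟨rfl, rfl, rfl, rfl⟩

omit [Fil] in
theorem R06U_sw (m M : ℕ) (β : ℝ) (ex : List ℂ) (g0 g0' : ℂ → ℂ) :
    (R06U m M β ex g0 g0').sw = R06U M m β ex g0' g0 := rfl

omit [Fil] in
theorem RB6_R0 (m M : ℕ) {β : ℝ} (hβ : 0 < β) (hβ' : β ≤ 4 / 3) {ex : List ℂ} {g0 g0' : ℂ → ℂ}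
    (hg : Measurable g0) (hg' : Measurable g0') (hex : ∀ w ∈ ex, |w.re| ≤ l / 2) :
    RB6 (R06U m M β ex g0 g0') (fun _ => ex) (2 * Real.cos l) := by
  have hl := Bd.l_pos
  have h0 : |(0 : ℂ).re| ≤ l / 2 := by
    rw [zero_re, abs_zero]
    linarith
  exact ⟨hβ, hβ', fun _ => h0, fun _ => h0, h0, h0, rfl, rfl, hg, hg', PBX.norm_cc m, PBX.norm_cc M,
    fun _ => hex⟩

theorem RQ6_R0 (m : ℕ) {β : ℝ} (hβ : 0 < β) (hβ' : β ≤ 4 / 3) {ex : List ℂ} {g0 g0' : ℂ → ℂ}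
    (hg : Measurable g0) (hg' : Measurable g0') (hex : ∀ w ∈ ex, |w.re| ≤ l / 2) :
    RQ6 (R06 m β ex g0 g0') (fun _ => ex) (2 * Real.cos l) :=
  ⟨RB6_R0 m _ hβ hβ' hg hg' hex, rfl⟩

/-- the cutoff of the strings at rows `0` -/
def F00 (m : ℕ) (g0 g0' : ℂ → ℂ) (a : Bool) : ℂ → ℂ :=
  ph (4 / 3) (fun _ : Fin (Fil.n a * m) => (0 : ℂ)) (cond a g0 g0')

/-- **one body data at rows 0, ends 0**, any cutoff `F0` of the strings -/
def ob06 (m : ℕ) (β : ℝ) (ex : List ℂ) (F0 : Bool → ℂ → ℂ) : OB where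
  R a u := 2 * Real.cos l * rwC a 0 u ^ m * (rw1 u * Th0 u)
  φ a := NUP1.phi β (List.replicate (Fil.n a * m) 0 ++ ex)
  φ0 := F0

theorem ob06_R (m : ℕ) (β : ℝ) (ex : List ℂ) (F0 : Bool → ℂ → ℂ) (a : Bool) (u : ℂ) :
    (ob06 m β ex F0).R a u = 2 * Real.cos l * rwC a 0 u ^ m * (rw1 u * Th0 u) := rfl

theorem ob06_R' (m : ℕ) (β : ℝ) (ex ex0 : List ℂ) (F0 : Bool → ℂ → ℂ) :
    (ob06 m β ex F0).R = (ob0 m β ex ex0).R := rfl

theorem ob06_φ (m : ℕ) (β : ℝ) (ex ex0 : List ℂ) (F0 : Bool → ℂ → ℂ) :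
    (ob06 m β ex F0).φ = (ob0 m β ex ex0).φ := rfl

theorem ob06_nn (m : ℕ) (β : ℝ) (ex : List ℂ) (F0 : Bool → ℂ → ℂ) : (ob06 m β ex F0).Nn :=
  fun a u => ob0_nn m β ex [] a u

theorem wq6_ob06 (m : ℕ) (β : ℝ) (ex ex0 : List ℂ) (F0 : Bool → ℂ → ℂ) (a : Bool) (u : ℂ) :
    wq6 (ob06 m β ex F0) a u = wq6 (ob0 m β ex ex0) a u := rfl

theorem obR6_R0 {m : ℕ} (hm : 1 ≤ m) (β : ℝ) (ex : List ℂ) (g0 g0' : ℂ → ℂ) (g : Bool → ℂ → ℝ) :
    obR6 (R06 m β ex g0 g0') (fun _ => ex) (2 * Real.cos l) g =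
      (ob06 m β ex (F00 m g0 g0')).mul g := by
  have eR : ∀ (a : Bool) (u : ℂ), 2 * Real.cos l * (∏ _i : Fin m, rwC a 0 u) *
      (‖thE 0 0 0 0 u‖ * g a u) =
        2 * Real.cos l * rwC a 0 u ^ m * (rw1 u * Th0 u) * g a u := by
    intro a u
    rw [Finset.prod_const, Finset.card_univ, Fintype.card_fin]
    by_cases hu : Complex.sin u = 0
    · have h0 : rwC a 0 u = 0 := by
        unfold PBX.PLX.rwC
        rw [sub_zero, hu, norm_zero, zero_mul, zero_pow (Fil.n_ne a), div_zero]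
      rw [h0, zero_pow (by omega)]
      ring
    · rw [norm_thE_zero hu, rw1_eq]
      ring
  have eL : ∀ a : Bool, List.ofFn (rwq (fun _ : Fin m => (0 : ℂ)) a) =
      List.replicate (Fil.n a * m) 0 := by
    intro a
    cases a
    · exact List.ofFn_const _ 0
    · show List.ofFn (fun _ : Fin m => (0 : ℂ)) = List.replicate (1 * m) 0
      rw [one_mul]
      exact List.ofFn_const m 0
  have eF : F0U (R06 m β ex g0 g0') = F00 m g0 g0' := by
    funext a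
    cases a
    · rfl
    · show ph (4 / 3) (fun _ : Fin m => (0 : ℂ)) g0 = ph (4 / 3) (fun _ : Fin (1 * m) => (0 : ℂ)) g0
      rw [one_mul]
  unfold obR6 obX6 NUGC.PLX.OB.mul ob06
  show OB.mk _ (fun a => NUP1.phi β (List.ofFn (rwq (fun _ : Fin m => (0 : ℂ)) a) ++ ex))
    (F0U (R06 m β ex g0 g0')) = _
  simp only [eL, eF]
  congr 1
  funext a u
  exact eR a u

/-- **The base of the regular function at rows 0, ends 0.** -/
theorem bs6_R0 {m : ℕ} (hm : 1 ≤ m) {β : ℝ} (hβ : 0 < β) (hβ' : β ≤ 4 / 3) {ex : List ℂ}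
    {g0 g0' : ℂ → ℂ} (hg : Measurable g0) (hg' : Measurable g0')
    (hex : ∀ w ∈ ex, |w.re| ≤ l / 2) {P : Par6} {ep : ℝ}
    (hep0 : 0 < ep) (hep : ep ≤ 1 / 100) :
    Bs6 (XB (R06 m β ex g0 g0').X (R06 m β ex g0 g0').Y)
      (fun g => (ob06 m β ex (F00 m g0 g0')).mul g) P ep (2 * β) (Fil.xn m) {0} := by
  have h := bs6_RD (P := P) (RQ6_R0 m hβ hβ' hg hg' hex) hep0 hep
  have e : (Set.range fun i : Fin m => ((R06 m β ex g0 g0').x i).im) = {0} := by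
    have : Nonempty (Fin m) := ⟨⟨0, hm⟩⟩
    show (Set.range fun _ : Fin m => (0 : ℂ).im) = {0}
    rw [Set.range_const, zero_im]
  rw [e] at h
  exact h.congr (fun _ _ _ => rfl) fun g => obR6_R0 hm β ex g0 g0' g

end fil

end PBR.PLX

end
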