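import Pool.Agent.PHK.CTab

/-!
# PHK/CelP1 (helper52): cells of the sum channel (congruences: helper79), part 1
-/

set_option autoImplicit false
set_option maxRecDepth 100000

namespace PHK

def cP1 : List CellD :=
  [⟨45, 6, [],
    [[875], [0, 875], [0, -111, 882], [0, -65, -498, 1013], [339, 0, 0, 0, 938], [-16, 0, 0, 0, 7, 875],
     [-209, 0, 0, 0, 444, -20, 1022]]⟩,
   ⟨47, 6, [],
    [[855], [0, 855], [0, -129, 864], [0, -75, -484, 991], [346, 0, 0, 0, 922], [-23, 0, 0, 0, 11, 855],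
     [-202, 0, 0, 0, 493, -27, 1033]]⟩,
   ⟨49, 6, [],
    [[836], [0, 836], [-1, -148, 849], [0, -88, -469, 970], [354, 0, 1, 0, 908], [-32, 0, 1, 0, 17, 837],
     [-193, 0, 0, 0, 551, -35, 1051]]⟩,
   ⟨51, 6, [],
    [[818], [-1, 818], [-2, -171, 835], [-1, -102, -453, 951], [362, -1, 3, -1, 894],
     [-44, 0, 2, -1, 25, 820], [-183, 0, 0, 0, 620, -45, 1080]]⟩,
   ⟨53, 6, [],
    [[801], [-2, 801], [-6, -194, 824], [-2, -118, -434, 933], [371, -3, 8, -3, 883],
     [-59, 1, 7, -1, 37, 805], [-170, 1, 1, 0, 705, -56, 1123]]⟩,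
   ⟨55, 6, [],
    [[785], [-6, 785], [-15, -218, 815], [-4, -138, -406, 916], [380, -9, 21, -6, 873],
     [-79, 4, 18, -4, 54, 793], [-153, 3, 1, 1, 813, -69, 1189]]⟩,
   ⟨57, 6, [],
    [[771], [-18, 771], [-32, -235, 806], [-11, -164, -355, 898], [392, -27, 49, -12, 866],
     [-106, 15, 44, -10, 77, 787], [-128, 7, 3, 3, 961, -82, 1292]]⟩,
   ⟨59, 6, [],
    [[759], [-50, 758], [-62, -226, 796], [-30, -196, -255, 885], [411, -77, 107, -14, 871],
     [-146, 53, 101, -19, 110, 795], [-83, 15, 6, 7, 1189, -96, 1462]]⟩,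
   ⟨61, 6, [],
    [[764], [-136, 748], [-90, -146, 802], [-83, -202, -59, 938], [444, -206, 244, 31, 924],
     [-240, 183, 239, 8, 139, 866], [22, 14, 23, 19, 1635, -107, 1811]]⟩,
   ⟨249, 8, [],
    [[814], [-256, 745], [-56, -75, 858], [-149, -150, 171, 1201], [499, -361, 545, 238, 1089],
     [-388, 373, 638, 325, 238, 1129], [196, -43, 115, 81, 2348, -95, 2367]]⟩]

theorem cP1_ok : cP1.all (cellOK PP7 7) = true := by decide +kernel

end PHK
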