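import Pool.Agent.PHK.SPoly

/-!
# PHK/Cell (helper52): a kernel checker for positive semidefinite matrices of sparse polynomials

A symmetric matrix `P` of sparse integer polynomials (`SP`, lower triangle `P i j`, `j ≤ i`) is checked on the cell
`y = (p + t) / 2 ^ r`, `|t| ≤ 1`: the entries are replaced by their Taylor polynomials of length `J` in `t` (exact
integers, scale `2 ^ (513 r)`) with exact tail bounds; after the congruence by an integer triangular matrix `S` the
matrix is diagonally dominant. Row `i` may first be divided by `t ^ s i` (cells at a zero of the matrix).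
-/

set_option autoImplicit false

namespace PHK

open Finset

/-! ### coefficient lists -/

/-- value of a coefficient list -/
noncomputable def pe : List ℤ → ℝ → ℝ
  | [], _ => 0
  | a :: l, t => (a : ℝ) + t * pe l t

def ladd : List ℤ → List ℤ → List ℤ
  | [], m => m
  | l, [] => l
  | a :: l, b :: m => (a + b) :: ladd l m

def lsm (c : ℤ) (l : List ℤ) : List ℤ := l.map fun a => c * a

/-- sum of the absolute values -/
def lab : List ℤ → ℤ
  | [] => 0
  | a :: l => Int.ofNat (Int.natAbs a) + lab l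

theorem pe_ladd : ∀ (l m : List ℤ) (t : ℝ), pe (ladd l m) t = pe l t + pe m t
  | [], m, t => by simp [ladd, pe]
  | a :: l, [], t => by simp [ladd, pe]
  | a :: l, b :: m, t => by
      simp only [ladd, pe, pe_ladd l m t]
      push_cast
      ring

theorem pe_lsm (c : ℤ) : ∀ (l : List ℤ) (t : ℝ), pe (lsm c l) t = c * pe l t
  | [], t => by simp [lsm, pe]
  | a :: l, t => by
      have h := pe_lsm c l t
      simp only [lsm, List.map_cons, pe] at h ⊢
      rw [h]
      push_cast
      ring

theorem abs_pe_le : ∀ (l : List ℤ) {t : ℝ}, |t| ≤ 1 → |pe l t| ≤ (lab l : ℝ)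
  | [], t, _ => by simp [pe, lab]
  | a :: l, t, ht => by
      have h := abs_pe_le l ht
      simp only [pe, lab, Int.ofNat_eq_natCast, Int.natCast_natAbs]
      push_cast
      calc |(a : ℝ) + t * pe l t| ≤ |(a : ℝ)| + |t * pe l t| := abs_add_le _ _
        _ = |(a : ℝ)| + |t| * |pe l t| := by rw [abs_mul]
        _ ≤ |(a : ℝ)| + 1 * (lab l : ℝ) := by
            have := mul_le_mul ht h (abs_nonneg _) (by norm_num : (0:ℝ) ≤ 1)
            linarith
        _ = |(a : ℝ)| + (lab l : ℝ) := by ring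

/-- lower bound of a coefficient list on `|t| ≤ 1` -/
def llo : List ℤ → ℤ
  | [] => 0
  | a :: l => a - lab l

theorem llo_le (l : List ℤ) {t : ℝ} (ht : |t| ≤ 1) : (llo l : ℝ) ≤ pe l t := by
  cases l with
  | nil => simp [llo, pe]
  | cons a l =>
      have h := abs_pe_le l ht
      simp only [llo, pe]
      push_cast
      have h2 : |t * pe l t| ≤ 1 * (lab l : ℝ) := by
        rw [abs_mul]
        exact mul_le_mul ht h (abs_nonneg _) (by norm_num)
      have h3 := neg_abs_le (t * pe l t)
      linarith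

theorem pe_drop : ∀ (s : ℕ) (l : List ℤ) (_ : (l.take s).all (fun a => a == 0) = true) (t : ℝ),
    pe l t = t ^ s * pe (l.drop s) t
  | 0, l, _, t => by simp
  | s + 1, [], _, t => by simp [pe]
  | s + 1, a :: l, h, t => by
      simp only [List.take_succ_cons, List.all_cons, Bool.and_eq_true, beq_iff_eq] at h
      have ih := pe_drop s l h.2 t
      simp only [pe, List.drop_succ_cons, h.1, ih]
      push_cast
      ring

/-! ### jets of the powers -/

/-- value of a list of naturals -/
noncomputable def pn : List ℕ → ℝ → ℝ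
  | [], _ => 0
  | a :: l, t => (a : ℝ) + t * pn l t

/-- `c l + m` -/
def nam (c : ℕ) : List ℕ → List ℕ → List ℕ
  | [], m => m
  | a :: l, [] => Nat.mul c a :: nam c l []
  | a :: l, b :: m => Nat.add (Nat.mul c a) b :: nam c l m

theorem pn_nam (c : ℕ) : ∀ (l m : List ℕ) (t : ℝ), pn (nam c l m) t = c * pn l t + pn m t
  | [], m, t => by simp [nam, pn]
  | a :: l, [], t => by
      simp only [nam, pn, pn_nam c l [] t, Nat.mul_eq]
      push_cast
      ring
  | a :: l, b :: m, t => by
      simp only [nam, pn, pn_nam c l m t, Nat.mul_eq, Nat.add_eq]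
      push_cast
      ring

/-- sum -/
def nsum : List ℕ → ℕ
  | [] => 0
  | a :: l => Nat.add a (nsum l)

theorem nsum_eq : ∀ l : List ℕ, ((nsum l : ℕ) : ℝ) = pn l 1
  | [] => by simp [nsum, pn]
  | a :: l => by simp [nsum, pn, nsum_eq l]

/-- `choose n (j + i) * p ^ (n - (j + i)) * m`, `i < J`, with `c = choose n j` -/
def jn (p m n : ℕ) : ℕ → ℕ → ℕ → List ℕ
  | 0, _, _ => []
  | J + 1, j, c => Nat.mul (Nat.mul c (Nat.pow p (Nat.sub n j))) m ::
      jn p m n J (Nat.succ j) (Nat.div (Nat.mul c (Nat.sub n j)) (Nat.succ j))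

theorem choose_step (n j : ℕ) : n.choose j * (n - j) / (j + 1) = n.choose (j + 1) := by
  rw [← Nat.choose_succ_right_eq]
  exact Nat.mul_div_cancel _ (Nat.succ_pos j)

theorem choose_step' (n j : ℕ) :
    Nat.div (Nat.mul (n.choose j) (Nat.sub n j)) (Nat.succ j) = n.choose (j + 1) :=
  choose_step n j

theorem pn_jn (p m n : ℕ) (t : ℝ) : ∀ (J j : ℕ), pn (jn p m n J j (n.choose j)) t =
    ∑ i ∈ range J, ((n.choose (j + i) : ℝ) * (p : ℝ) ^ (n - (j + i)) * m) * t ^ i
  | 0, j => by simp [jn, pn]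
  | J + 1, j => by
      rw [jn, choose_step', pn, pn_jn p m n t J (j + 1), Finset.sum_range_succ', Finset.mul_sum]
      rw [add_comm]
      congr 1
      · refine Finset.sum_congr rfl fun i _ => ?_
        rw [show j + 1 + i = j + (i + 1) by ring, pow_succ]
        ring
      · have : Nat.mul (Nat.mul (n.choose j) (Nat.pow p (Nat.sub n j))) m = n.choose j * p ^ (n - j) * m := rfl
        rw [this]
        push_cast
        simp

/-- the tail -/
def jt (p m n J : ℕ) : ℕ := Nat.sub (Nat.mul (Nat.pow (Nat.succ p) n) m) (nsum (jn p m n J 0 1))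

theorem jet_bound (p m n J : ℕ) {t : ℝ} (ht : |t| ≤ 1) :
    |((p : ℝ) + t) ^ n * m - pn (jn p m n J 0 1) t| ≤ |t| ^ J * (jt p m n J : ℝ) := by
  set a : ℕ → ℝ := fun i => (n.choose i : ℝ) * (p : ℝ) ^ (n - i) * m with ha
  have ha0 : ∀ i, 0 ≤ a i := fun i => by positivity
  have hfull : ∀ (x : ℝ) (M : ℕ), n + 1 ≤ M → ((p : ℝ) + x) ^ n * m = ∑ i ∈ range M, a i * x ^ i := by
    intro x M hM
    have h1 : ((p : ℝ) + x) ^ n * m = ∑ i ∈ range (n + 1), a i * x ^ i := by
      rw [add_comm, add_pow, Finset.sum_mul]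
      refine Finset.sum_congr rfl fun i _ => ?_
      simp only [ha]
      ring
    rw [h1]
    refine Finset.sum_subset (Finset.range_mono hM) fun i _ hi => ?_
    have : n < i := by
      simp only [Finset.mem_range, not_lt] at hi
      omega
    simp [ha, Nat.choose_eq_zero_of_lt this]
  have hjet : ∀ x : ℝ, pn (jn p m n J 0 1) x = ∑ i ∈ range J, a i * x ^ i := by
    intro x
    have h := pn_jn p m n x J 0
    rw [Nat.choose_zero_right] at h
    rw [h]
    simp only [zero_add, ha]
  set M := max (n + 1) J with hM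
  have h1 : ∀ x : ℝ, ((p : ℝ) + x) ^ n * m - pn (jn p m n J 0 1) x = ∑ i ∈ Ico J M, a i * x ^ i := by
    intro x
    rw [hfull x M (le_max_left _ _), hjet x, Finset.sum_Ico_eq_sub _ (le_max_right _ _)]
  have h2 : ∑ i ∈ Ico J M, a i ≤ (jt p m n J : ℝ) := by
    have h3 := h1 1
    simp only [one_pow, mul_one] at h3
    rw [← h3]
    have h4 : Nat.mul (Nat.pow (Nat.succ p) n) m ≤ jt p m n J + nsum (jn p m n J 0 1) :=
      Nat.sub_le_iff_le_add.1 le_rfl
    have h5 : ((Nat.mul (Nat.pow (Nat.succ p) n) m : ℕ) : ℝ) ≤ (jt p m n J : ℝ) + (nsum (jn p m n J 0 1) : ℝ) := by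
      exact_mod_cast h4
    have h6 : ((Nat.mul (Nat.pow (Nat.succ p) n) m : ℕ) : ℝ) = ((p : ℝ) + 1) ^ n * m := by
      have : Nat.mul (Nat.pow (Nat.succ p) n) m = (p + 1) ^ n * m := rfl
      rw [this]; push_cast; ring
    rw [h6, nsum_eq] at h5
    linarith
  rw [h1 t]
  refine le_trans ?_ (mul_le_mul_of_nonneg_left h2 (by positivity))
  rw [Finset.mul_sum]
  refine (Finset.abs_sum_le_sum_abs _ _).trans (Finset.sum_le_sum fun i hi => ?_)
  rw [abs_mul, abs_of_nonneg (ha0 i), abs_pow]
  calc a i * |t| ^ i ≤ a i * |t| ^ J :=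
        mul_le_mul_of_nonneg_left
          (pow_le_pow_of_le_one (abs_nonneg _) ht (Finset.mem_Ico.1 hi).1) (ha0 i)
    _ = |t| ^ J * a i := by ring

/-! ### jets of the sparse polynomials -/

/-- positive part, negative part and tail of a sparse polynomial on the cell, scale `2 ^ (r D)` -/
def tmn (J r p D : ℕ) : SP → List ℕ × List ℕ × ℕ
  | [] => ([], [], 0)
  | (Int.ofNat c, n) :: s =>
      (nam c (jn p (Nat.pow 2 (Nat.mul r (Nat.sub D n))) n J 0 1) (tmn J r p D s).1, (tmn J r p D s).2.1,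
        Nat.add (Nat.mul c (jt p (Nat.pow 2 (Nat.mul r (Nat.sub D n))) n J)) (tmn J r p D s).2.2)
  | (Int.negSucc c, n) :: s =>
      ((tmn J r p D s).1,
        nam (Nat.succ c) (jn p (Nat.pow 2 (Nat.mul r (Nat.sub D n))) n J 0 1) (tmn J r p D s).2.1,
        Nat.add (Nat.mul (Nat.succ c) (jt p (Nat.pow 2 (Nat.mul r (Nat.sub D n))) n J)) (tmn J r p D s).2.2)

theorem tmn_bound (J r p D : ℕ) {t : ℝ} (ht : |t| ≤ 1) : ∀ (s : SP)
    (_ : s.all (fun a => decide (a.2 ≤ D)) = true),
    |2 ^ (r * D) * ev s (((p : ℝ) + t) / 2 ^ r) - (pn (tmn J r p D s).1 t - pn (tmn J r p D s).2.1 t)| ≤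
      |t| ^ J * ((tmn J r p D s).2.2 : ℝ)
  | [], _ => by simp [tmn, ev, pn]
  | (c0, n) :: s, h => by
      simp only [List.all_cons, Bool.and_eq_true, decide_eq_true_eq] at h
      have ih := tmn_bound J r p D ht s h.2
      have hj := jet_bound p (2 ^ (r * (D - n))) n J ht
      have e1 : (2:ℝ) ^ (r * D) * (((p : ℝ) + t) / 2 ^ r) ^ n =
          ((p : ℝ) + t) ^ n * ((2 ^ (r * (D - n)) : ℕ) : ℝ) := by
        have h3 : r * D = r * (D - n) + r * n := by
          rw [← mul_add]; congr 1; omega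
        rw [div_pow, ← pow_mul, h3, pow_add]
        push_cast
        field_simp
      have e0 : Nat.pow 2 (Nat.mul r (Nat.sub D n)) = 2 ^ (r * (D - n)) := rfl
      rcases c0 with c | c
      · have e2 : 2 ^ (r * D) * ev ((Int.ofNat c, n) :: s) (((p : ℝ) + t) / 2 ^ r) -
            (pn (tmn J r p D ((Int.ofNat c, n) :: s)).1 t - pn (tmn J r p D ((Int.ofNat c, n) :: s)).2.1 t) =
            (c : ℝ) * (((p : ℝ) + t) ^ n * ((2 ^ (r * (D - n)) : ℕ) : ℝ) -
              pn (jn p (2 ^ (r * (D - n))) n J 0 1) t) +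
            (2 ^ (r * D) * ev s (((p : ℝ) + t) / 2 ^ r) -
              (pn (tmn J r p D s).1 t - pn (tmn J r p D s).2.1 t)) := by
          rw [← e1]
          simp only [tmn, ev_cons, pn_nam, e0, Int.ofNat_eq_natCast, Int.cast_natCast]
          ring
        rw [e2]
        refine (abs_add_le _ _).trans ?_
        have e3 : ((tmn J r p D ((Int.ofNat c, n) :: s)).2.2 : ℝ) =
            (c : ℝ) * (jt p (2 ^ (r * (D - n))) n J : ℝ) + ((tmn J r p D s).2.2 : ℝ) := by
          have e4 : (tmn J r p D ((Int.ofNat c, n) :: s)).2.2 =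
              c * jt p (2 ^ (r * (D - n))) n J + (tmn J r p D s).2.2 := rfl
          rw [e4]
          push_cast
          ring
        rw [e3, abs_mul, abs_of_nonneg (Nat.cast_nonneg c)]
        have := mul_le_mul_of_nonneg_left hj (Nat.cast_nonneg (α := ℝ) c)
        linarith
      · have e2 : 2 ^ (r * D) * ev ((Int.negSucc c, n) :: s) (((p : ℝ) + t) / 2 ^ r) -
            (pn (tmn J r p D ((Int.negSucc c, n) :: s)).1 t -
              pn (tmn J r p D ((Int.negSucc c, n) :: s)).2.1 t) =
            -(((c : ℝ) + 1) * (((p : ℝ) + t) ^ n * ((2 ^ (r * (D - n)) : ℕ) : ℝ) -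
              pn (jn p (2 ^ (r * (D - n))) n J 0 1) t)) +
            (2 ^ (r * D) * ev s (((p : ℝ) + t) / 2 ^ r) -
              (pn (tmn J r p D s).1 t - pn (tmn J r p D s).2.1 t)) := by
          rw [← e1]
          simp only [tmn, ev_cons, pn_nam, e0, Nat.succ_eq_add_one, Int.cast_negSucc]
          push_cast
          ring
        rw [e2]
        refine (abs_add_le _ _).trans ?_
        have e3 : ((tmn J r p D ((Int.negSucc c, n) :: s)).2.2 : ℝ) =
            ((c : ℝ) + 1) * (jt p (2 ^ (r * (D - n))) n J : ℝ) + ((tmn J r p D s).2.2 : ℝ) := by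
          have e4 : (tmn J r p D ((Int.negSucc c, n) :: s)).2.2 =
              (c + 1) * jt p (2 ^ (r * (D - n))) n J + (tmn J r p D s).2.2 := rfl
          rw [e4]
          push_cast
          ring
        rw [e3, abs_neg, abs_mul, abs_of_nonneg (by positivity : (0:ℝ) ≤ (c : ℝ) + 1)]
        have := mul_le_mul_of_nonneg_left hj (by positivity : (0:ℝ) ≤ (c : ℝ) + 1)
        linarith

/-- the negative of a list of naturals -/
def zneg : List ℕ → List ℤ
  | [] => []
  | b :: m => Int.negOfNat b :: zneg m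

theorem pe_zneg : ∀ (m : List ℕ) (t : ℝ), pe (zneg m) t = - pn m t
  | [], t => by simp [zneg, pe, pn]
  | b :: m, t => by
      rw [zneg, pe, pe_zneg m t, Int.negOfNat_eq]
      simp only [pn, Int.ofNat_eq_natCast]
      push_cast
      ring

/-- difference of two lists of naturals -/
def zsub : List ℕ → List ℕ → List ℤ
  | [], m => zneg m
  | a :: l, [] => Int.ofNat a :: zsub l []
  | a :: l, b :: m => Int.subNatNat a b :: zsub l m

theorem pe_zsub : ∀ (l m : List ℕ) (t : ℝ), pe (zsub l m) t = pn l t - pn m t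
  | [], m, t => by simp [zsub, pe_zneg, pn]
  | a :: l, [], t => by
      rw [zsub, pe, pe_zsub l [] t]
      simp only [pn, Int.ofNat_eq_natCast, Int.cast_natCast]
      ring
  | a :: l, b :: m, t => by
      rw [zsub, pe, pe_zsub l m t, Int.subNatNat_eq_coe]
      simp only [pn]
      push_cast
      ring

/-- Taylor polynomial and tail -/
def tms (J r p D : ℕ) (s : SP) : List ℤ × ℤ :=
  (zsub (tmn J r p D s).1 (tmn J r p D s).2.1, Int.ofNat (tmn J r p D s).2.2)

theorem tms_bound (J r p D : ℕ) {t : ℝ} (ht : |t| ≤ 1) (s : SP)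
    (h : s.all (fun a => decide (a.2 ≤ D)) = true) :
    |2 ^ (r * D) * ev s (((p : ℝ) + t) / 2 ^ r) - pe (tms J r p D s).1 t| ≤
      |t| ^ J * ((tms J r p D s).2 : ℝ) := by
  have := tmn_bound J r p D ht s h
  simp only [tms, pe_zsub, Int.ofNat_eq_natCast, Int.cast_natCast]
  exact this

theorem tms_nonneg (J r p D : ℕ) (s : SP) : (0 : ℝ) ≤ ((tms J r p D s).2 : ℝ) := by
  simp [tms]

/-! ### diagonal dominance -/

theorem psd_of_dd (n : ℕ) (A : ℕ → ℕ → ℝ) (w : ℕ → ℝ) (hw : ∀ i < n, 0 < w i)
    (hs : ∀ i j, A i j = A j i)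
    (h : ∀ i < n, ∑ j ∈ (range n).erase i, w j * |A i j| ≤ w i * A i i) (u : ℕ → ℝ) :
    0 ≤ ∑ i ∈ range n, ∑ j ∈ range n, A i j * u i * u j := by
  set v : ℕ → ℝ := fun i => u i / w i with hv
  have huv : ∀ i ∈ range n, u i = w i * v i := fun i hi => by
    have := (hw i (Finset.mem_range.1 hi)).ne'
    simp only [hv]
    field_simp
  -- off diagonal part
  have h1 : ∀ i ∈ range n, ∀ j ∈ range n, -(w i * w j * |A i j| * ((v i ^ 2 + v j ^ 2) / 2)) ≤
      A i j * u i * u j := by
    intro i hi j hj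
    rw [huv i hi, huv j hj]
    have hwi := hw i (Finset.mem_range.1 hi)
    have hwj := hw j (Finset.mem_range.1 hj)
    have h2 : |A i j * (w i * v i) * (w j * v j)| ≤ w i * w j * |A i j| * ((v i ^ 2 + v j ^ 2) / 2) := by
      have e : |A i j * (w i * v i) * (w j * v j)| = w i * w j * |A i j| * (|v i| * |v j|) := by
        rw [abs_mul, abs_mul, abs_mul, abs_mul, abs_of_pos hwi, abs_of_pos hwj]
        ring
      rw [e]
      refine mul_le_mul_of_nonneg_left ?_ (by positivity)
      have := sq_nonneg (|v i| - |v j|)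
      have e1 : |v i| ^ 2 = v i ^ 2 := sq_abs _
      have e2 : |v j| ^ 2 = v j ^ 2 := sq_abs _
      nlinarith
    have h3 := neg_abs_le (A i j * (w i * v i) * (w j * v j))
    linarith
  have h2 : ∀ i ∈ range n, ∑ j ∈ range n, A i j * u i * u j = A i i * u i * u i +
      ∑ j ∈ (range n).erase i, A i j * u i * u j := fun i hi =>
    (Finset.add_sum_erase _ _ hi).symm
  rw [Finset.sum_congr rfl h2, Finset.sum_add_distrib]
  have h3 : -(∑ i ∈ range n, ∑ j ∈ (range n).erase i, w i * w j * |A i j| * ((v i ^ 2 + v j ^ 2) / 2)) ≤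
      ∑ i ∈ range n, ∑ j ∈ (range n).erase i, A i j * u i * u j := by
    rw [← Finset.sum_neg_distrib]
    refine Finset.sum_le_sum fun i hi => ?_
    rw [← Finset.sum_neg_distrib]
    exact Finset.sum_le_sum fun j hj => h1 i hi j (Finset.mem_of_mem_erase hj)
  -- symmetrisation
  have h4 : ∑ i ∈ range n, ∑ j ∈ (range n).erase i, w i * w j * |A i j| * ((v i ^ 2 + v j ^ 2) / 2) =
      ∑ i ∈ range n, ∑ j ∈ (range n).erase i, w i * w j * |A i j| * v i ^ 2 := by
    have hsplit : ∀ f : ℕ → ℕ → ℝ, ∑ i ∈ range n, ∑ j ∈ (range n).erase i, f i j =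
        ∑ i ∈ range n, ∑ j ∈ range n, if i = j then 0 else f i j := by
      intro f
      refine Finset.sum_congr rfl fun i hi => ?_
      rw [← Finset.add_sum_erase (range n) (fun j => if i = j then 0 else f i j) hi]
      simp only [if_true, zero_add]
      refine Finset.sum_congr rfl fun j hj => ?_
      rw [if_neg (Finset.ne_of_mem_erase hj).symm]
    have e1 : ∑ i ∈ range n, ∑ j ∈ (range n).erase i, w i * w j * |A i j| * v j ^ 2 =
        ∑ i ∈ range n, ∑ j ∈ (range n).erase i, w i * w j * |A i j| * v i ^ 2 := by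
      rw [hsplit, hsplit, Finset.sum_comm]
      refine Finset.sum_congr rfl fun i _ => Finset.sum_congr rfl fun j _ => ?_
      by_cases hij : i = j
      · simp [hij]
      · rw [if_neg hij, if_neg (Ne.symm hij), hs j i]
        ring
    have e2 : ∑ i ∈ range n, ∑ j ∈ (range n).erase i, w i * w j * |A i j| * ((v i ^ 2 + v j ^ 2) / 2) =
        (∑ i ∈ range n, ∑ j ∈ (range n).erase i, w i * w j * |A i j| * v i ^ 2) / 2 +
        (∑ i ∈ range n, ∑ j ∈ (range n).erase i, w i * w j * |A i j| * v j ^ 2) / 2 := by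
      rw [Finset.sum_div, Finset.sum_div, ← Finset.sum_add_distrib]
      refine Finset.sum_congr rfl fun i _ => ?_
      rw [Finset.sum_div, Finset.sum_div, ← Finset.sum_add_distrib]
      refine Finset.sum_congr rfl fun j _ => ?_
      ring
    rw [e2, e1]
    ring
  have h5 : ∑ i ∈ range n, ∑ j ∈ (range n).erase i, w i * w j * |A i j| * v i ^ 2 ≤
      ∑ i ∈ range n, A i i * u i * u i := by
    refine Finset.sum_le_sum fun i hi => ?_
    have hwi := hw i (Finset.mem_range.1 hi)
    have e : ∑ j ∈ (range n).erase i, w i * w j * |A i j| * v i ^ 2 =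
        w i * v i ^ 2 * ∑ j ∈ (range n).erase i, w j * |A i j| := by
      rw [Finset.mul_sum]
      refine Finset.sum_congr rfl fun j _ => ?_
      ring
    rw [e, huv i hi]
    have h6 := mul_le_mul_of_nonneg_left (h i (Finset.mem_range.1 hi))
      (mul_nonneg hwi.le (sq_nonneg (v i)))
    refine h6.trans (le_of_eq ?_)
    ring
  linarith

/-! ### approximations -/

/-- `x` is within `T.2` of the value of the coefficient list `T.1` -/
def Ap (T : List ℤ × ℤ) (x t : ℝ) : Prop := |x - pe T.1 t| ≤ (T.2 : ℝ)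

def tadd (T U : List ℤ × ℤ) : List ℤ × ℤ := (ladd T.1 U.1, T.2 + U.2)

def tsm (c : ℤ) (T : List ℤ × ℤ) : List ℤ × ℤ := (lsm c T.1, |c| * T.2)

theorem Ap.add {T U : List ℤ × ℤ} {x y t : ℝ} (h : Ap T x t) (h' : Ap U y t) : Ap (tadd T U) (x + y) t := by
  unfold Ap tadd at *
  simp only
  rw [pe_ladd]
  push_cast
  have : x + y - (pe T.1 t + pe U.1 t) = (x - pe T.1 t) + (y - pe U.1 t) := by ring
  rw [this]
  exact (abs_add_le _ _).trans (add_le_add h h')

theorem Ap.smul {T : List ℤ × ℤ} {x t : ℝ} (h : Ap T x t) (c : ℤ) : Ap (tsm c T) (c * x) t := by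
  unfold Ap tsm at *
  simp only
  rw [pe_lsm, ← mul_sub, abs_mul]
  push_cast
  exact mul_le_mul_of_nonneg_left h (abs_nonneg _)

/-- `c l + m` -/
def lam (c : ℤ) : List ℤ → List ℤ → List ℤ
  | [], m => m
  | a :: l, [] => Int.mul c a :: lam c l []
  | a :: l, b :: m => Int.add (Int.mul c a) b :: lam c l m

theorem lam_eq (c : ℤ) : ∀ l m : List ℤ, lam c l m = ladd (lsm c l) m
  | [], m => by simp [lam, lsm, ladd]
  | a :: l, [] => by
      have := lam_eq c l []
      have e : ∀ x : List ℤ, ladd x [] = x := fun x => by cases x <;> rfl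
      rw [e] at this
      rw [lam, this, e]
      rfl
  | a :: l, b :: m => by
      rw [lam, lam_eq c l m]
      rfl

/-- integer combination `∑ m, s m * f (k + m)` -/
def comb : List ℤ → ℕ → (ℕ → List ℤ × ℤ) → List ℤ × ℤ
  | [], _, _ => ([], 0)
  | a :: s, k, f => (lam a (f k).1 (comb s (Nat.succ k) f).1,
      Int.add (Int.mul (Int.ofNat (Int.natAbs a)) (f k).2) (comb s (Nat.succ k) f).2)

theorem comb_cons (a : ℤ) (s : List ℤ) (k : ℕ) (f : ℕ → List ℤ × ℤ) :
    comb (a :: s) k f = tadd (tsm a (f k)) (comb s (k + 1) f) := by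
  have e : Int.ofNat (Int.natAbs a) = |a| := by
    rw [Int.ofNat_eq_natCast, Int.natCast_natAbs]
  simp only [comb, tadd, tsm, lam_eq, e]
  rfl

theorem Ap_comb {t : ℝ} {f : ℕ → List ℤ × ℤ} {x : ℕ → ℝ} : ∀ (s : List ℤ) (k : ℕ)
    (_ : ∀ m < s.length, Ap (f (k + m)) (x (k + m)) t),
    Ap (comb s k f) (∑ m ∈ range s.length, (s.getD m 0 : ℝ) * x (k + m)) t
  | [], k, _ => by simp [comb, Ap, pe]
  | a :: s, k, h => by
      have h0 := h 0 (by simp)
      have ih := Ap_comb s (k + 1) (fun m hm => by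
        have := h (m + 1) (by simpa using hm)
        rwa [show k + (m + 1) = k + 1 + m by ring] at this)
      rw [comb_cons, List.length_cons, Finset.sum_range_succ']
      have e : ∑ m ∈ range s.length, (((a :: s).getD (m + 1) 0 : ℤ) : ℝ) * x (k + (m + 1)) =
          ∑ m ∈ range s.length, ((s.getD m 0 : ℤ) : ℝ) * x (k + 1 + m) := by
        refine Finset.sum_congr rfl fun m _ => ?_
        rw [List.getD_cons_succ, show k + (m + 1) = k + 1 + m by ring]
      rw [e, List.getD_cons_zero]
      have h1 : Ap (f k) (x (k + 0)) t := h0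
      have h3 := (h1.smul a).add ih
      rw [add_comm ((a : ℝ) * x (k + 0))] at h3
      exact h3

/-! ### the cell -/

/-- data of a cell: `y = (p + t) / 2 ^ r`, `|t| ≤ 1` -/
structure CellD where
  /-- center -/
  p : ℕ
  /-- denominator -/
  r : ℕ
  /-- exponents of the rows -/
  s : List ℕ
  /-- rows of the congruence, lower triangular -/
  S : List (List ℤ)

/-- degree bound -/
def DD : ℕ := 513

/-- length of the jets -/
def JJ0 : ℕ := 12

/-- row exponent -/
def CellD.se (c : CellD) (i : ℕ) : ℕ := c.s.getD i 0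

/-- entry `i, j`: side conditions, Taylor polynomial divided by `t ^ (s i + s j)`, tail -/
def cellE (P : ℕ → ℕ → SP) (c : CellD) (i j : ℕ) : Bool × List ℤ × ℤ :=
  let T := tms JJ0 c.r c.p DD (P i j)
  ((P i j).all (fun a => decide (a.2 ≤ DD)) && (T.1.take (c.se i + c.se j)).all (fun a => a == 0),
    T.1.drop (c.se i + c.se j), T.2)

/-- lower triangular table -/
def tabL {α : Type} (n : ℕ) (f : ℕ → ℕ → α) : List (List α) :=
  (List.range n).map fun i => (List.range (i + 1)).map fun j => f i j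

/-- square table -/
def tabQ {α : Type} (n : ℕ) (f : ℕ → ℕ → α) : List (List α) :=
  (List.range n).map fun i => (List.range n).map fun j => f i j

/-- entry of a table -/
def gt {α : Type} (d : α) (tb : List (List α)) (i j : ℕ) : α := (tb.getD i []).getD j d

theorem gt_tabL {α : Type} (d : α) {n : ℕ} (f : ℕ → ℕ → α) {i j : ℕ} (hi : i < n) (hj : j ≤ i) :
    gt d (tabL n f) i j = f i j := by
  have h1 : (tabL n f).getD i [] = (List.range (i + 1)).map fun j => f i j := by
    unfold tabL
    rw [List.getD_eq_getElem _ _ (by simpa using hi)]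
    simp
  rw [gt, h1, List.getD_eq_getElem _ _ (by simp; omega)]
  simp

theorem gt_tabQ {α : Type} (d : α) {n : ℕ} (f : ℕ → ℕ → α) {i j : ℕ} (hi : i < n) (hj : j < n) :
    gt d (tabQ n f) i j = f i j := by
  have h1 : (tabQ n f).getD i [] = (List.range n).map fun j => f i j := by
    unfold tabQ
    rw [List.getD_eq_getElem _ _ (by simpa using hi)]
    simp
  rw [gt, h1, List.getD_eq_getElem _ _ (by simpa using hj)]
  simp

/-- sum of the absolute bounds off the diagonal -/
def rowS (g : ℕ → ℕ → List ℤ × ℤ) (i : ℕ) : ℕ → ℤ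
  | 0 => 0
  | j + 1 => rowS g i j + if j = i then 0 else lab (g (max i j) (min i j)).1 + (g (max i j) (min i j)).2

/-- first product of the congruence -/
def tabX (tb : List (List (Bool × List ℤ × ℤ))) (S : List (List ℤ)) (n : ℕ) : List (List (List ℤ × ℤ)) :=
  tabQ n fun i l => comb (S.getD i []) 0 fun k => (gt (false, [], 0) tb (max k l) (min k l)).2

/-- the congruence of the table -/
def tabG (tb : List (List (Bool × List ℤ × ℤ))) (S : List (List ℤ)) (n : ℕ) : List (List (List ℤ × ℤ)) :=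
  tabL n fun i j => comb (S.getD j []) 0 fun l => gt ([], 0) (tabX tb S n) i l

/-- the check, from the tables -/
def cellG (tb : List (List (Bool × List ℤ × ℤ))) (G : List (List (List ℤ × ℤ))) (c : CellD) (n : ℕ) : Bool :=
  (List.range n).all fun i => decide ((c.S.getD i []).length = i + 1) &&
    decide ((c.S.getD i []).getD i 0 ≠ 0) &&
    (List.range (i + 1)).all (fun j => (gt (false, [], 0) tb i j).1 && decide (c.se i + c.se j ≤ JJ0)) &&
    decide (rowS (gt ([], 0) G) i n ≤ llo (gt ([], 0) G i i).1 - (gt ([], 0) G i i).2)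

/-- the check of a cell -/
def cellOK (P : ℕ → ℕ → SP) (n : ℕ) (c : CellD) : Bool :=
  cellG (tabL n (cellE P c)) (tabG (tabL n (cellE P c)) c.S n) c n

theorem rowS_eq (g : ℕ → ℕ → List ℤ × ℤ) (i : ℕ) : ∀ n, rowS g i n =
    ∑ j ∈ (range n).erase i, (lab (g (max i j) (min i j)).1 + (g (max i j) (min i j)).2)
  | 0 => by simp [rowS]
  | n + 1 => by
      rw [rowS, rowS_eq g i n, Finset.range_add_one]
      by_cases h : n = i
      · subst h
        rw [if_pos rfl, Finset.erase_insert (by simp)]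
        rw [Finset.erase_eq_of_notMem (by simp), add_zero]
      · rw [if_neg h, Finset.erase_insert_of_ne h, Finset.sum_insert (by simp), add_comm]

/-- the matrix of a lower triangular table -/
noncomputable def mt (P : ℕ → ℕ → SP) (y : ℝ) (i j : ℕ) : ℝ := ev (P (max i j) (min i j)) y

theorem mt_symm (P : ℕ → ℕ → SP) (y : ℝ) (i j : ℕ) : mt P y i j = mt P y j i := by
  unfold mt; rw [max_comm, min_comm]

/-- a lower triangular matrix with nonzero diagonal: every vector is a combination of its rows -/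
theorem tri_solve (n : ℕ) (S : ℕ → ℕ → ℝ) (h0 : ∀ i j, i < j → S i j = 0) (h1 : ∀ i < n, S i i ≠ 0)
    (u : ℕ → ℝ) : ∃ v : ℕ → ℝ, ∀ j < n, ∑ i ∈ range n, S i j * v i = u j := by
  set M : Matrix (Fin n) (Fin n) ℝ := fun i j => S j i with hM
  have hdet : M.det ≠ 0 := by
    rw [Matrix.det_of_isUpperTriangular]
    · exact Finset.prod_ne_zero_iff.2 fun i _ => h1 i i.2
    · intro i j hij
      exact h0 _ _ (by simpa using hij)
  have hu : IsUnit M := (Matrix.isUnit_iff_isUnit_det M).2 (isUnit_iff_ne_zero.2 hdet)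
  obtain ⟨v, hv⟩ := (Matrix.mulVec_surjective_iff_isUnit.2 hu) (fun j => u j)
  refine ⟨fun i => if h : i < n then v ⟨i, h⟩ else 0, fun j hj => ?_⟩
  have h2 := congrFun hv ⟨j, hj⟩
  simp only [Matrix.mulVec, dotProduct, hM] at h2
  rw [← h2, Finset.sum_range]
  refine Finset.sum_congr rfl fun i _ => ?_
  simp

/-- **soundness of the check** -/
theorem cell_sound (P : ℕ → ℕ → SP) (n : ℕ) (c : CellD) (hc : cellOK P n c = true) {t : ℝ}
    (ht : |t| ≤ 1) (u : ℕ → ℝ) :
    0 ≤ ∑ i ∈ range n, ∑ j ∈ range n, mt P (((c.p : ℝ) + t) / 2 ^ c.r) i j * u i * u j := by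
  set tb := tabL n (cellE P c) with htb
  set X := tabX tb c.S n with hX
  set G := tabG tb c.S n with hG
  have hgE : ∀ i < n, ∀ j ≤ i, gt (false, [], 0) tb i j = cellE P c i j := fun i hi j hj =>
    gt_tabL _ _ hi hj
  change cellG tb G c n = true at hc
  unfold cellG at hc
  simp only [Bool.and_eq_true, List.all_eq_true, List.mem_range, decide_eq_true_eq] at hc
  set Y : ℝ := ((c.p : ℝ) + t) / 2 ^ c.r with hY
  set Sc : ℝ := 2 ^ (c.r * DD) with hSc
  have hSpos : 0 < Sc := by positivity
  -- the entries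
  have hent : ∀ i < n, ∀ j ≤ i, ∃ x : ℝ, Ap (cellE P c i j).2 x t ∧
      Sc * ev (P i j) Y = t ^ (c.se i + c.se j) * x := by
    intro i hi j hj
    have h1 := (hc i hi).1.2 j (by omega)
    rw [hgE i hi j hj] at h1
    simp only [cellE, Bool.and_eq_true] at h1
    obtain ⟨⟨hall, hz⟩, hsJ⟩ := h1
    set s := c.se i + c.se j with hs
    set R : ℝ := ((tms JJ0 c.r c.p DD (P i j)).2 : ℝ) with hR
    have hR0 : 0 ≤ R := tms_nonneg JJ0 c.r c.p DD (P i j)
    have hb1 := tms_bound JJ0 c.r c.p DD ht (P i j) hall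
    have hd := pe_drop s (tms JJ0 c.r c.p DD (P i j)).1 hz t
    set τ : ℝ := Sc * ev (P i j) Y - pe (tms JJ0 c.r c.p DD (P i j)).1 t with hτ
    have hτb : |τ| ≤ |t| ^ s * R := by
      refine hb1.trans (mul_le_mul_of_nonneg_right ?_ hR0)
      exact pow_le_pow_of_le_one (abs_nonneg _) ht hsJ
    refine ⟨pe ((tms JJ0 c.r c.p DD (P i j)).1.drop s) t + τ / t ^ s, ?_, ?_⟩
    · show |pe ((tms JJ0 c.r c.p DD (P i j)).1.drop s) t + τ / t ^ s -
        pe ((tms JJ0 c.r c.p DD (P i j)).1.drop s) t| ≤ R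
      rw [add_sub_cancel_left]
      by_cases h0 : t ^ s = 0
      · rw [h0, div_zero, abs_zero]; exact hR0
      · rw [abs_div, abs_pow, div_le_iff₀ (by rw [← abs_pow]; exact abs_pos.2 h0), mul_comm]
        exact hτb
    · have e1 : Sc * ev (P i j) Y = pe (tms JJ0 c.r c.p DD (P i j)).1 t + τ := by
        simp only [hτ]; ring
      rw [e1, hd, mul_add]
      congr 1
      by_cases h0 : t ^ s = 0
      · have h1 : |τ| ≤ 0 := by
          have := hτb
          rw [← abs_pow, h0, abs_zero, zero_mul] at this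
          exact this
        rw [h0, zero_mul]
        exact abs_nonpos_iff.1 h1
      · field_simp
  choose! x hx hS1 using hent
  -- the symmetric matrix
  set Q : ℕ → ℕ → ℝ := fun i j => x (max i j) (min i j) with hQ
  have hQs : ∀ i j, Q i j = Q j i := fun i j => by simp only [hQ, max_comm i j, min_comm i j]
  have hQap : ∀ i < n, ∀ j < n, Ap ((gt (false, [], 0) tb (max i j) (min i j)).2) (Q i j) t := by
    intro i hi j hj
    rw [hgE _ (max_lt hi hj) _ (min_le_max)]
    exact hx _ (max_lt hi hj) _ min_le_max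
  set Sr : ℕ → ℕ → ℝ := fun i k => if i < n then (((c.S.getD i []).getD k 0 : ℤ) : ℝ) else 0 with hSr
  have hSlen : ∀ i < n, (c.S.getD i []).length = i + 1 := fun i hi => (hc i hi).1.1.1
  have hSr0 : ∀ i j, i < j → Sr i j = 0 := by
    intro i j hij
    simp only [hSr]
    split_ifs with hi
    · rw [List.getD_eq_default _ _ (by rw [hSlen i hi]; omega)]; simp
    · rfl
  -- first product
  set Xr : ℕ → ℕ → ℝ := fun i l => ∑ k ∈ range n, Sr i k * Q k l with hXr
  have hcomb : ∀ i < n, ∀ (f : ℕ → List ℤ × ℤ) (z : ℕ → ℝ), (∀ k < n, Ap (f k) (z k) t) →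
      Ap (comb (c.S.getD i []) 0 f) (∑ k ∈ range n, Sr i k * z k) t := by
    intro i hi f z hf
    have h1 := Ap_comb (t := t) (f := f) (x := z) (c.S.getD i []) 0 (fun m hm => by
      rw [zero_add]
      exact hf m (by rw [hSlen i hi] at hm; omega))
    rw [hSlen i hi] at h1
    have e : ∑ k ∈ range n, Sr i k * z k =
        ∑ m ∈ range (i + 1), (((c.S.getD i []).getD m 0 : ℤ) : ℝ) * z (0 + m) := by
      rw [← Finset.sum_subset (Finset.range_mono (show i + 1 ≤ n by omega))]
      · refine Finset.sum_congr rfl fun m _ => ?_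
        simp only [hSr]
        rw [if_pos hi, zero_add]
      · intro k _ hk
        rw [hSr0 i k (by simpa using hk), zero_mul]
    rw [e]
    exact h1
  have hXap : ∀ i < n, ∀ l < n, Ap (gt ([], 0) X i l) (Xr i l) t := by
    intro i hi l hl
    rw [hX, tabX, gt_tabQ _ _ hi hl]
    exact hcomb i hi _ (fun k => Q k l) fun k hk => hQap k hk l hl
  set Gr : ℕ → ℕ → ℝ := fun i j => ∑ l ∈ range n, Sr j l * Xr i l with hGr
  have hGap : ∀ i < n, ∀ j ≤ i, Ap (gt ([], 0) G i j) (Gr i j) t := by
    intro i hi j hj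
    rw [hG, tabG, gt_tabL _ _ hi hj]
    exact hcomb j (by omega) _ (fun l => Xr i l) fun l hl => hXap i hi l hl
  have hGs : ∀ i j, Gr i j = Gr j i := by
    intro i j
    simp only [hGr, hXr, Finset.mul_sum]
    rw [Finset.sum_comm]
    refine Finset.sum_congr rfl fun k _ => Finset.sum_congr rfl fun l _ => ?_
    rw [hQs k l]
    ring
  have hab : ∀ i < n, ∀ j ≤ i, |Gr i j| ≤ ((lab (gt ([], 0) G i j).1 + (gt ([], 0) G i j).2 : ℤ) : ℝ) := by
    intro i hi j hj
    have h1 := hGap i hi j hj
    unfold Ap at h1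
    have h2 := abs_pe_le (gt ([], 0) G i j).1 ht
    have e : Gr i j = (Gr i j - pe (gt ([], 0) G i j).1 t) + pe (gt ([], 0) G i j).1 t := by ring
    rw [e]
    refine (abs_add_le _ _).trans ?_
    push_cast
    linarith
  have hdd : ∀ i < n, ∑ j ∈ (range n).erase i, (1 : ℝ) * |Gr i j| ≤ (1 : ℝ) * Gr i i := by
    intro i hi
    have h1 := (hc i hi).2
    rw [rowS_eq] at h1
    have h2 := hGap i hi i le_rfl
    unfold Ap at h2
    have h3 := llo_le (gt ([], 0) G i i).1 ht
    have h4 := neg_abs_le (Gr i i - pe (gt ([], 0) G i i).1 t)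
    calc ∑ j ∈ (range n).erase i, (1 : ℝ) * |Gr i j|
        ≤ ∑ j ∈ (range n).erase i, ((lab (gt ([], 0) G (max i j) (min i j)).1 +
            (gt ([], 0) G (max i j) (min i j)).2 : ℤ) : ℝ) := by
          refine Finset.sum_le_sum fun j hj => ?_
          have hj' : j < n := Finset.mem_range.1 (Finset.mem_of_mem_erase hj)
          rw [one_mul]
          rcases le_total j i with h | h
          · rw [max_eq_left h, min_eq_right h]
            exact hab i hi j h
          · rw [max_eq_right h, min_eq_left h, hGs i j]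
            exact hab j hj' i h
      _ = ((∑ j ∈ (range n).erase i, (lab (gt ([], 0) G (max i j) (min i j)).1 +
            (gt ([], 0) G (max i j) (min i j)).2) : ℤ) : ℝ) := by
          push_cast; rfl
      _ ≤ ((llo (gt ([], 0) G i i).1 - (gt ([], 0) G i i).2 : ℤ) : ℝ) := by exact_mod_cast h1
      _ ≤ 1 * Gr i i := by push_cast; linarith
  -- the vector
  obtain ⟨v, hv⟩ := tri_solve n Sr hSr0 (fun i hi => by
    have h1 := (hc i hi).1.1.2
    simp only [hSr]
    rw [if_pos hi]
    exact_mod_cast h1) (fun i => t ^ c.se i * u i)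
  have hpsd := psd_of_dd n Gr (fun _ => 1) (fun _ _ => one_pos) hGs hdd v
  have hfin : Sc * ∑ i ∈ range n, ∑ j ∈ range n, mt P Y i j * u i * u j =
      ∑ i ∈ range n, ∑ j ∈ range n, Gr i j * v i * v j := by
    have e1 : Sc * ∑ i ∈ range n, ∑ j ∈ range n, mt P Y i j * u i * u j =
        ∑ k ∈ range n, ∑ l ∈ range n, Q k l * (t ^ c.se k * u k) * (t ^ c.se l * u l) := by
      rw [Finset.mul_sum]
      refine Finset.sum_congr rfl fun i hi => ?_
      rw [Finset.mul_sum]
      refine Finset.sum_congr rfl fun j hj => ?_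
      have hi' := Finset.mem_range.1 hi
      have hj' := Finset.mem_range.1 hj
      have h1 := hS1 (max i j) (max_lt hi' hj') (min i j) min_le_max
      have h2 : t ^ (c.se (max i j) + c.se (min i j)) = t ^ c.se i * t ^ c.se j := by
        rcases le_total j i with h | h
        · rw [max_eq_left h, min_eq_right h, pow_add]
        · rw [max_eq_right h, min_eq_left h, pow_add, mul_comm]
      rw [h2] at h1
      simp only [mt, hQ]
      calc Sc * (ev (P (max i j) (min i j)) Y * u i * u j) =
          (Sc * ev (P (max i j) (min i j)) Y) * u i * u j := by ring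
        _ = _ := by rw [h1]; ring
    rw [e1]
    have e2 : ∀ k ∈ range n, ∀ l ∈ range n, Q k l * (t ^ c.se k * u k) * (t ^ c.se l * u l) =
        ∑ i ∈ range n, ∑ j ∈ range n, (Sr i k * Sr j l * Q k l) * v i * v j := by
      intro k hk l hl
      rw [← hv k (Finset.mem_range.1 hk), ← hv l (Finset.mem_range.1 hl)]
      rw [mul_assoc, Finset.sum_mul_sum, Finset.mul_sum]
      refine Finset.sum_congr rfl fun i _ => ?_
      rw [Finset.mul_sum]
      refine Finset.sum_congr rfl fun j _ => ?_
      ring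
    rw [Finset.sum_congr rfl fun k hk => Finset.sum_congr rfl fun l hl => e2 k hk l hl]
    have e3 : ∀ i j, Gr i j * v i * v j = ∑ k ∈ range n, ∑ l ∈ range n, (Sr i k * Sr j l * Q k l) * v i * v j := by
      intro i j
      simp only [hGr, hXr, Finset.mul_sum, Finset.sum_mul]
      rw [Finset.sum_comm]
      refine Finset.sum_congr rfl fun k _ => Finset.sum_congr rfl fun l _ => ?_
      ring
    simp_rw [e3]
    -- interchange the four sums
    have e4 : ∀ F : ℕ → ℕ → ℕ → ℕ → ℝ,
        ∑ k ∈ range n, ∑ l ∈ range n, ∑ i ∈ range n, ∑ j ∈ range n, F k l i j =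
        ∑ i ∈ range n, ∑ j ∈ range n, ∑ k ∈ range n, ∑ l ∈ range n, F k l i j := by
      intro F
      calc ∑ k ∈ range n, ∑ l ∈ range n, ∑ i ∈ range n, ∑ j ∈ range n, F k l i j
          = ∑ k ∈ range n, ∑ i ∈ range n, ∑ l ∈ range n, ∑ j ∈ range n, F k l i j :=
            Finset.sum_congr rfl fun k _ => Finset.sum_comm
        _ = ∑ i ∈ range n, ∑ k ∈ range n, ∑ l ∈ range n, ∑ j ∈ range n, F k l i j := Finset.sum_comm
        _ = ∑ i ∈ range n, ∑ k ∈ range n, ∑ j ∈ range n, ∑ l ∈ range n, F k l i j :=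
            Finset.sum_congr rfl fun i _ => Finset.sum_congr rfl fun k _ => Finset.sum_comm
        _ = ∑ i ∈ range n, ∑ j ∈ range n, ∑ k ∈ range n, ∑ l ∈ range n, F k l i j :=
            Finset.sum_congr rfl fun i _ => Finset.sum_comm
    exact e4 fun k l i j => (Sr i k * Sr j l * Q k l) * v i * v j
  have hpos : 0 ≤ Sc * ∑ i ∈ range n, ∑ j ∈ range n, mt P Y i j * u i * u j := by
    rw [hfin]; exact hpsd
  exact nonneg_of_mul_nonneg_right hpos hSpos

end PHK
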