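import Pool.Agent.PHK.Lt6

/-!
# (P): the choices of a half quantum

* `Ch6`: `u.1` the own quantum is at the half quantum (type `H`), `u.2` the quantum of the other species
  is replaced by a hole (types `P`, `H`); `okC6`;
* `vF6 t u`, `vQ6 t u`: spectators and rate, **`lt6_v`**.
-/

set_option autoImplicit false
set_option linter.unusedSectionVars false

noncomputable section

open Complex MeasureTheory Finset
open scoped ENNReal

open PLX (Fil)

namespace PBR.PLX

open NUO NUP1 NUCR NUP1S NUP1S.Ab NUP1S.AbC NUP1S.AbG NURow NUP1.Leg NUGC.PLX PBX PBX.PLX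
open _root_.Pool.Agent.PLX
open PHK

/-! ## the choices -/

/-- choices of a half quantum -/
abbrev Ch6 : Type := Bool × Bool

/-- the choices of a half quantum of type `t` -/
def okC6 (t : HT) (u : Ch6) : Prop := (u.1 = true → t = .H) ∧ (u.2 = true → t = .P ∨ t = .H)

instance (t : HT) (u : Ch6) : Decidable (okC6 t u) := by unfold okC6; infer_instance

/-- **spectators** of a half quantum of type `t` with the choice `u` -/
def vF6 : HT → Ch6 → Bool → Option O3 → ℂ → ℂ
  | .W, _ => SF
  | .F, _ => SF
  | .P, u => if u.2 = true then SF else SP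
  | .H, u => adF false (-(u.2.toNat : ℤ)) (adF true (u.1.toNat : ℤ) (hostS false SF))

/-- rate of a half quantum of type `t` with the choice `u` -/
def vQ6 (t : HT) (u : Ch6) : ℝ := htQ t + 2 * (u.1.toNat : ℝ) + 2 * (u.2.toNat : ℝ)

theorem vF6_ff (t : HT) : vF6 t (false, false) = htF t := by
  cases t <;> simp [vF6, htF, adF_zero]

/-- **the spectators of a half quantum with any choice** -/
theorem lt6_v {t : HT} {u : Ch6} (h : okC6 t u) : LT6 (vQ6 t u) (htL t) (vF6 t u) := by
  obtain ⟨h1, h2⟩ := h
  obtain ⟨u1, u2⟩ := u
  cases t
  · have e1 : u1 = false := by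
      by_contra hc
      exact absurd (h1 (by simpa using hc)) (by simp)
    have e2 : u2 = false := by
      by_contra hc
      exact absurd (h2 (by simpa using hc)) (by simp)
    subst e1 e2
    have := lt6_ht .W
    simpa [vQ6, vF6, htF] using this
  · have e1 : u1 = false := by
      by_contra hc
      exact absurd (h1 (by simpa using hc)) (by simp)
    have e2 : u2 = false := by
      by_contra hc
      exact absurd (h2 (by simpa using hc)) (by simp)
    subst e1 e2
    have := lt6_ht .F
    simpa [vQ6, vF6, htF] using this
  · have e1 : u1 = false := by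
      by_contra hc
      exact absurd (h1 (by simpa using hc)) (by simp)
    subst e1
    cases u2
    · have := lt6_ht .P
      simpa [vQ6, vF6, htF] using this
    · have := lt6_ht .F
      have e : vQ6 .P (false, true) = htQ .F := by
        norm_num [vQ6, htQ]
      rw [e]
      simpa [vF6, htF, htL] using this
  · have := lt6_host (u1.toNat : ℤ) (-(u2.toNat : ℤ))
    have e : vQ6 .H (u1, u2) = -3 + ((u1.toNat : ℤ) : ℝ) * 2 - ((-(u2.toNat : ℤ) : ℤ) : ℝ) * 2 := by
      unfold vQ6 htQ
      push_cast
      ring
    rw [e]
    exact this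

end PBR.PLX

end
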