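import Pool.Agent.PHK.Basic

/-!
# (P): bounds of the charges of the objects
-/

set_option autoImplicit false

noncomputable section

open Finset

namespace PHK

open NUO

theorem chg6_le2 (s : Bool) (x : Xo) : chg6 s x ≤ 2 := (le_abs_self _).trans (abs_chg6 s x)

theorem abs_chgO6 {r : ℕ} (O : Fin r → Xo) (s : Bool) : |(chgO6 O s : ℝ)| ≤ 2 * r := by
  have h : |chgO6 O s| ≤ 2 * r := by
    unfold chgO6
    refine (abs_sum_le_sum_abs _ _).trans ?_
    refine (sum_le_sum fun i _ => abs_chg6 s (O i)).trans ?_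
    rw [sum_const, card_univ, Fintype.card_fin, nsmul_eq_mul]
    exact le_of_eq (mul_comm _ _)
  rw [← Int.cast_abs]
  exact_mod_cast h

theorem chgO6_le2 {r : ℕ} (O : Fin r → Xo) (s : Bool) : (chgO6 O s : ℝ) ≤ 2 * r :=
  (le_abs_self _).trans (abs_chgO6 O s)

/-- the number of free quanta differs from the number of quanta by at most `2 r` -/
theorem abs_nA6_sub {r n : ℕ} (O : Fin r → Xo) (s : Bool) (h : chgO6 O s ≤ n) :
    |(nA6 n O s : ℝ) - n| ≤ 2 * r := by
  have e : (nA6 n O s : ℤ) = n - chgO6 O s := Int.toNat_of_nonneg (by omega)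
  have e' : (nA6 n O s : ℝ) = n - (chgO6 O s : ℝ) := by exact_mod_cast e
  rw [e', sub_sub_cancel_left, abs_neg]
  exact abs_chgO6 O s

end PHK

end
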