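import Pool.Agent.PB.EInst2

/-!
# (P): the data of `PBE.E_prime` at the true field on the wide strip of the statistics

The statistics of the particle-hole form live on the curves and on the lines of the holes: strip
`y1 = -l/10 < Im z < y26 = 351 l / 400` of the heights (Cauchy lines `-3l/25`, `177 l / 200`).  Twins of
`PB/EInst`, `PB/EInst2`: `GEO6`, `Apl6`, `Ami6`, `Bch6`, **`rep_EF6`**, `Apl_eq6`, `Ami_eq6`, `h0_TC6`,
`g2_TC6`, `uF_TC6`, `qF_TC6`, **`vdat6`**, **`E_field6`**.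
-/

set_option autoImplicit false

open Complex Set Filter Topology MeasureTheory

noncomputable section

namespace PBEI

open NUMF (l r l_pos r_pos r_lt_one)
open PBForce (xiR xiP xiM Rws0 pc rhoR)
open PBV
open Pool.Agent.PB (Lim rl KC KmC MeasR MeanDat VDat Kw Kg TC_Lim mV CV CmV CsV CssV)

variable {m : ℕ}

/-! ### the geometry -/

/-- strip `-l/10 < Im z < 351l/400`, Cauchy lines `-3l/25` and `177l/200` -/
lemma GEO6 : Geo (-(l / 10)) (351 / 400 * l) (-(3 / 25 * l)) (177 / 200 * l) (l / 200) 4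
    (19 / 20 * l) (399 / 400 * l) := by
  have hl := l_pos
  have hl4 : l = Real.pi / 8 := rfl
  have hpi := Real.pi_pos
  refine ⟨by linarith, by linarith, by linarith, by norm_num, ?_, ?_, ?_, by linarith, by linarith, by linarith,
    by linarith⟩
  · rw [hl4]; linarith
  · rw [abs_neg, abs_of_pos (by linarith)]; linarith
  · rw [abs_of_pos (by linarith)]; linarith

/-- the strip of the test functions (`= y1`) -/
abbrev y16 : ℝ := -(l / 10)
/-- the strip of the test functions -/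
abbrev y26 : ℝ := 351 / 400 * l
/-- Cauchy line -/
abbrev Y16 : ℝ := -(3 / 25 * l)
/-- Cauchy line -/
abbrev Y26 : ℝ := 177 / 200 * l

/-- plus channel, first factors -/
def Apl6 (x : Fin m → ℂ) (i0 : Fin m) : Bool × ℝ → ℂ → ℂ := AE (Ep (rF x i0) (rP x i0) (rM x i0)) Y16 Y26
/-- minus channel, first factors -/
def Ami6 (x : Fin m → ℂ) (i0 : Fin m) : Bool × ℝ → ℂ → ℂ := AE (Em (rF x i0) (rP x i0) (rM x i0)) Y16 Y26
/-- second factors -/
def Bch6 : Bool × ℝ → ℂ → ℂ := BE 4 Y16 Y26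

lemma Apl_measurable6 (x : Fin m → ℂ) (i0 : Fin m) : Measurable fun p : (Bool × ℝ) × ℂ => Apl6 x i0 p.1 p.2 :=
  AE_Ec_measurable _ _ (rF_measurable x i0) _ _ _ _

lemma Ami_measurable6 (x : Fin m → ℂ) (i0 : Fin m) : Measurable fun p : (Bool × ℝ) × ℂ => Ami6 x i0 p.1 p.2 :=
  AE_Ec_measurable _ _ (rF_measurable x i0) _ _ _ _

lemma Bch_measurable6 : Measurable fun p : (Bool × ℝ) × ℂ => Bch6 p.1 p.2 := BE_measurable _ _ _

/-- **the product representations of the two channels**, every rate `0 < a' < a < 2` -/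
theorem rep_EF6 {a a' : ℝ} (ha0 : 0 ≤ a') (haa : a' < a) (ha : a < 2) : ∃ C : ℝ, 0 < C ∧
    ∀ (m : ℕ) (x : Fin m → ℂ) (i0 : Fin m), Rws0 x →
      PBE.Rep y1 y26 a' wm (Apl6 x i0) Bch6 (fun q => C * Real.exp (-(a * |q.2|))) (fun q => C * Real.exp (a' * |q.2|)) ∧
      PBE.Rep y1 y26 a' wm (Ami6 x i0) Bch6 (fun q => C * Real.exp (-(a * |q.2|))) (fun q => C * Real.exp (a' * |q.2|)) ∧
      ∫ q, (C * Real.exp (-(a * |q.2|))) * (C * Real.exp (a' * |q.2|)) ∂wm = C ^ 2 * (4 / (a - a')) := by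
  have hl := l_pos
  obtain ⟨K, hK, hX⟩ := rF_XiA (b := 19 / 20 * l) (by linarith) (by linarith)
  obtain ⟨C1, hC1, h1⟩ := Ec_rep (1 / 4) (1 / 4) GEO6 (ha0.trans haa.le) ha
  obtain ⟨C2, hC2, h2⟩ := Ec_rep (1 / 4) (-(1 / 4)) GEO6 (ha0.trans haa.le) ha
  have hcE : 0 < cE 4 (l / 200) := by
    refine cE_pos (by norm_num) (by linarith) ?_
    have hl4 : l = Real.pi / 8 := rfl
    have := Real.pi_pos
    rw [hl4]; linarith
  set C := C1 * (K + 2 * K) + C2 * (K + 2 * K) + cE 4 (l / 200) with hCdef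
  have hCpos : 0 < C := by positivity
  have hp : 0 < a - a' := by linarith
  have hint : Integrable (fun q : Bool × ℝ => (C * Real.exp (-(a * |q.2|))) * (C * Real.exp (a' * |q.2|))) wm ∧
      ∫ q, (C * Real.exp (-(a * |q.2|))) * (C * Real.exp (a' * |q.2|)) ∂wm = C ^ 2 * (4 / (a - a')) := by
    have e : (fun q : Bool × ℝ => (C * Real.exp (-(a * |q.2|))) * (C * Real.exp (a' * |q.2|))) =
        fun q : Bool × ℝ => C ^ 2 * Real.exp (-((a - a') * |q.2|)) := by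
      funext q
      have : Real.exp (-((a - a') * |q.2|)) = Real.exp (-(a * |q.2|)) * Real.exp (a' * |q.2|) := by
        rw [← Real.exp_add]; congr 1; ring
      rw [this]; ring
    rw [e]
    exact ⟨(integrable_exp_wm hp).const_mul _, by rw [integral_const_mul, integral_exp_wm hp]⟩
  refine ⟨C, hCpos, fun m x i0 hx => ?_⟩
  obtain ⟨hXi, hP, hM⟩ := hX m x i0 hx
  have hD : ‖rP x i0 - rM x i0‖ ≤ 2 * K := (norm_sub_le _ _).trans (by linarith)
  have r1 := (h1 hXi (by norm_num) a' ha0 haa (by linarith)).1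
  have r2 := (h2 hXi (by norm_num) a' ha0 haa (by linarith)).1
  have k1 : C1 * (K + ‖rP x i0 - rM x i0‖) ≤ C := by
    have : C1 * (K + ‖rP x i0 - rM x i0‖) ≤ C1 * (K + 2 * K) := by gcongr
    have h3 : 0 ≤ C2 * (K + 2 * K) := by positivity
    linarith
  have k2 : C2 * (K + ‖rP x i0 - rM x i0‖) ≤ C := by
    have : C2 * (K + ‖rP x i0 - rM x i0‖) ≤ C2 * (K + 2 * K) := by gcongr
    have h3 : 0 ≤ C1 * (K + 2 * K) := by positivity
    linarith
  have k3 : cE 4 (l / 200) ≤ C := by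
    have h3 : 0 ≤ C1 * (K + 2 * K) := by positivity
    have h4 : 0 ≤ C2 * (K + 2 * K) := by positivity
    linarith
  refine ⟨⟨fun q => (r1.tA q).mono ?_, fun q => (r1.tB q).mono ?_, hint.1⟩,
    ⟨fun q => (r2.tA q).mono ?_, fun q => (r2.tB q).mono ?_, hint.1⟩, hint.2⟩
  · gcongr
  · gcongr
  · gcongr
  · gcongr

/-- pointwise product form, plus channel -/
theorem Apl_eq6 (x : Fin m → ℂ) (i0 : Fin m) (hx : Rws0 x) {z w : ℂ} (hz : z ∈ PBE.Sp y1 y26)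
    (hw : w ∈ PBE.Sp y1 y26) : Integrable (fun q => Apl6 x i0 q z * Bch6 q w) wm ∧
      Ep (rF x i0) (rP x i0) (rM x i0) z w = ∫ q, Apl6 x i0 q z * Bch6 q w ∂wm := by
  have hl := l_pos
  obtain ⟨K, hK, hX⟩ := rF_XiA (b := 19 / 20 * l) (by linarith) (by linarith)
  exact Ec_decomp _ _ GEO6 (hX m x i0 hx).1 (by norm_num) hz hw

/-- pointwise product form, minus channel -/
theorem Ami_eq6 (x : Fin m → ℂ) (i0 : Fin m) (hx : Rws0 x) {z w : ℂ} (hz : z ∈ PBE.Sp y1 y26)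
    (hw : w ∈ PBE.Sp y1 y26) : Integrable (fun q => Ami6 x i0 q z * Bch6 q w) wm ∧
      Em (rF x i0) (rP x i0) (rM x i0) z w = ∫ q, Ami6 x i0 q z * Bch6 q w ∂wm := by
  have hl := l_pos
  obtain ⟨K, hK, hX⟩ := rF_XiA (b := 19 / 20 * l) (by linarith) (by linarith)
  exact Ec_decomp _ _ GEO6 (hX m x i0 hx).1 (by norm_num) hz hw

/-! ### the leg functions -/

theorem h0_TC6 {a : ℝ} (ha0 : 0 ≤ a) (ha : a ≤ 2) (τ : ℝ) :
    PBE.TC y1 y26 a (cL * Real.exp (a * |τ|)) (h0T τ) :=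
  TC_sub (h0_TC ha0 ha τ) (by have := l_pos; show -(2 / 5 * l) ≤ -(l / 10); linarith)
    (by have := l_pos; show 351 / 400 * l ≤ l; linarith)

theorem g2_TC6 {a : ℝ} (ha0 : 0 ≤ a) (ha : a ≤ 2) (τ : ℝ) :
    PBE.TC y1 y26 a (cL * Real.exp (a * |τ|) * Real.exp (a * (l / 10)) / (l / 10)) (g2T τ) := by
  have hl := l_pos
  have h := TC_sub (h0_TC ha0 ha τ) (w1' := y1 - l / 10) (w2' := y26 + l / 10)
    (by show -(2 / 5 * l) ≤ -(l / 10) - l / 10; linarith)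
    (by show 351 / 400 * l + l / 10 ≤ l; linarith)
  exact TC_deriv (by linarith) h ha0 (by have := cL_pos; positivity)

lemma mem_real6 (t : ℝ) : (t : ℂ) ∈ PBE.Sp y1 y26 := by
  have hl := l_pos
  show y1 < (t : ℂ).im ∧ (t : ℂ).im < y26
  rw [ofReal_im]
  constructor
  · show -(l / 10) < 0; linarith
  · show 0 < 351 / 400 * l; linarith

theorem kp_field6 (x : Fin m → ℂ) (i0 : Fin m) (hx : Rws0 x) : ∀ᵐ p : ℝ × ℝ ∂(volume.prod volume),
    ∫ s, Apl6 x i0 s (p.1 : ℂ) * Bch6 s (p.2 : ℂ) ∂wm =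
      1 / 4 * (rF x i0 p.1 - rF x i0 p.2) * KC (p.1 - p.2) := by
  have hl := l_pos
  filter_upwards [ae_ne] with p hp
  have h1 := (Apl_eq6 x i0 hx (mem_real6 p.1) (mem_real6 p.2)).2
  have h2 := Ep_eq (rF x i0) (rP x i0) (rM x i0) (z := (p.1 : ℂ)) (w := (p.2 : ℂ)) (by simpa using hl.le)
    (by simpa using hl.le) (by simpa using hl.le) (by exact_mod_cast hp)
  have hu : p.1 - p.2 ≠ 0 := sub_ne_zero.2 hp
  have k1 := kf_real true hu
  have k2 := kf_real false hu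
  simp only [if_true, Bool.false_eq_true, if_false] at k1 k2
  rw [← ofReal_sub, k1, k2] at h2
  rw [← h1]
  unfold KC
  rw [ofReal_add]
  linear_combination -(1 / 4) * h2

theorem km_field6 (x : Fin m → ℂ) (i0 : Fin m) (hx : Rws0 x) : ∀ᵐ p : ℝ × ℝ ∂(volume.prod volume),
    ∫ s, Ami6 x i0 s (p.1 : ℂ) * Bch6 s (p.2 : ℂ) ∂wm =
      1 / 4 * (rF x i0 p.1 - rF x i0 p.2) * KmC (p.1 - p.2) -
        beC (rF x i0) (rP x i0) (rM x i0) p.1 * sg p.2 - sg p.1 * beC (rF x i0) (rP x i0) (rM x i0) p.2 -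
        (rP x i0 - rM x i0) / 2 * (1 - sg p.1 * sg p.2) := by
  have hl := l_pos
  filter_upwards [ae_ne] with p hp
  have h1 := (Ami_eq6 x i0 hx (mem_real6 p.1) (mem_real6 p.2)).2
  have h2 := Em_eq (rF x i0) (rP x i0) (rM x i0) (z := (p.1 : ℂ)) (w := (p.2 : ℂ)) (by simpa using hl.le)
    (by simpa using hl.le) (by simpa using hl.le) (by exact_mod_cast hp)
  have hu : p.1 - p.2 ≠ 0 := sub_ne_zero.2 hp
  have k1 := kf_real true hu
  have k2 := kf_real false hu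
  simp only [if_true, Bool.false_eq_true, if_false] at k1 k2
  rw [← ofReal_sub, k1, k2] at h2
  rw [← h1]
  unfold KmC sg
  unfold Pl at h2
  rw [ofReal_sub (Kw (p.1 - p.2))]
  linear_combination -(1 / 4) * h2

/-- test function: the one body function of the plateau part, constant independent of the rows -/
theorem uF_TC6 : ∃ C : ℝ, 0 < C ∧ ∀ (m : ℕ) (x : Fin m → ℂ) (i0 : Fin m), Rws0 x → ∀ a : ℝ, a ≤ 4 →
    PBE.TC y1 y26 a C (uF x i0) := by
  have hl := l_pos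
  obtain ⟨K, hK, h⟩ := rF_XiA (b := 19 / 20 * l) (by linarith) (by linarith)
  have hr := r_pos
  refine ⟨K + 2 * K / r, by positivity, fun m x i0 hx a ha => ?_⟩
  obtain ⟨hXi, hP, hM⟩ := h m x i0 hx
  have hD : ‖rP x i0 - rM x i0‖ ≤ 2 * K := (norm_sub_le _ _).trans (by linarith)
  have h1 := beC_TC hXi (by norm_num) (by linarith : 19 / 20 * l ≤ l) (y₁ := y1) (y₂ := y26)
    (by show -(19 / 20 * l) ≤ -(l / 10); linarith) (by show 351 / 400 * l ≤ 19 / 20 * l; linarith) ha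
  refine h1.mono ?_
  gcongr

/-- the field is bounded on the strip -/
theorem rF_bdd6 : ∃ C : ℝ, 0 < C ∧ ∀ (m : ℕ) (x : Fin m → ℂ) (i0 : Fin m), Rws0 x →
    (∀ z : ℂ, |z.im| ≤ 19 / 20 * l → ‖rF x i0 z‖ ≤ C) ∧ ∀ z : ℂ, |z.im| ≤ 19 / 20 * l → DifferentiableAt ℂ (rF x i0) z := by
  have hl := l_pos
  obtain ⟨K, hK, h⟩ := rF_XiA (b := 19 / 20 * l) (by linarith) (by linarith)
  refine ⟨2 * K, by positivity, fun m x i0 hx => ?_⟩
  obtain ⟨hXi, hP, hM⟩ := h m x i0 hx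
  refine ⟨fun z hz => ?_, fun z hz => hXi.an z hz⟩
  have hE : Real.exp (-(32 / 3 * |z.re|)) ≤ 1 := Real.exp_le_one_iff.2 (by linarith [abs_nonneg z.re])
  rcases le_total 0 z.re with h0 | h0
  · have h1 := hXi.pp z hz h0
    have h2 : ‖rF x i0 z‖ ≤ ‖rF x i0 z - rP x i0‖ + ‖rP x i0‖ := by
      simpa using norm_add_le (rF x i0 z - rP x i0) (rP x i0)
    nlinarith
  · have h1 := hXi.pm z hz h0
    have h2 : ‖rF x i0 z‖ ≤ ‖rF x i0 z - rM x i0‖ + ‖rM x i0‖ := by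
      simpa using norm_add_le (rF x i0 z - rM x i0) (rM x i0)
    nlinarith

lemma im_of_mem6 {z : ℂ} (hz : z ∈ PBE.Sp y1 y26) : |z.im| ≤ 19 / 20 * l := by
  have hl := l_pos
  have h1 : -(l / 10) < z.im := hz.1
  have h2 : z.im < 351 / 400 * l := hz.2
  rw [abs_le]; constructor <;> linarith

/-- test function: the field times the leg function -/
theorem qF_TC6 : ∃ C : ℝ, 0 < C ∧ ∀ (m : ℕ) (x : Fin m → ℂ) (i0 : Fin m), Rws0 x → ∀ a : ℝ, 0 ≤ a → a ≤ 2 →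
    ∀ τ : ℝ, PBE.TC y1 y26 a (C * Real.exp (a * |τ|)) (qF x i0 τ) := by
  obtain ⟨K, hK, h⟩ := rF_bdd6
  refine ⟨K * cL, by have := cL_pos; positivity, fun m x i0 hx a ha0 ha τ => ?_⟩
  obtain ⟨hb, hd⟩ := h m x i0 hx
  have h1 := TC_mul (h0_TC6 ha0 ha τ) (h := rF x i0)
    (fun z hz => (hd z (im_of_mem6 hz)).differentiableWithinAt) (fun z hz => hb z (im_of_mem6 hz))
  rw [← mul_assoc] at h1
  exact h1

/-- **the data of the values at the true field**, one constant -/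
theorem vdat6 {a a' : ℝ} (ha : 1 / 2 ≤ a') (haa : a' < a) (ha2 : a < 2) : ∃ C1 C : ℝ, 0 < C1 ∧ 32 ≤ C ∧
    ∀ (m : ℕ) (x : Fin m → ℂ) (i0 : Fin m), Rws0 x → ∀ τ : ℝ, |τ| ≤ 1 →
    ∀ (mf mf' D : ℝ → ℂ) (B : ℝ) (mp mm : ℂ), MeanDat mf mf' D (rl (h0T τ)) B mp mm → ∀ b : ℝ, C ≤ b → B ≤ b →
      VDat y1 y26 a' (l / 20) wm wm (Apl6 x i0) Bch6 (aE C1 a) (bE' C1 a') (Ami6 x i0) Bch6 (aE C1 a) (bE' C1 a')
        (rF x i0) (uF x i0) (h0T τ) (g2T τ) (qF x i0 τ)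
        (fun t : ℝ => deriv (rF x i0) t) (rl (deriv (uF x i0))) sg sg' sg'' mf mf' D b C C C C (rP x i0) (rM x i0)
        mp mm ∧
      ∫ q, aE C1 a q * bE' C1 a' q ∂wm ≤ C ∧ ‖rP x i0‖ ≤ C ∧ ‖rM x i0‖ ≤ C := by
  have hl := l_pos
  have ha0 : 0 ≤ a' := by linarith
  have ha1 : 0 < a' := by linarith
  have hd : 0 < a - a' := by linarith
  obtain ⟨C1, hC1, h1⟩ := rep_EF6 ha0 haa ha2
  obtain ⟨C2, hC2, h2⟩ := rF_XiA (b := 19 / 20 * l) (by linarith) (by linarith)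
  obtain ⟨C3, hC3, h3⟩ := uF_TC6
  obtain ⟨C4, hC4, h4⟩ := qF_TC6
  set E := Real.exp a' with hE
  have hE0 : 0 < E := Real.exp_pos _
  have hcL := cL_pos
  set Cu := max C3 (C3 * Real.exp (a' * (l / 20)) / (l / 20)) with hCu
  have hCu0 : 0 < Cu := lt_of_lt_of_le hC3 (le_max_left _ _)
  set G := cL * E * Real.exp (a' * (l / 10)) / (l / 10) with hG
  have hG0 : 0 < G := by positivity
  set W := C1 ^ 2 * (4 / (a - a')) with hW
  have hW0 : 0 < W := by positivity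
  have c1 : 0 < cL * E := by positivity
  have c2 : 0 < C4 * E := by positivity
  refine ⟨C1, 32 + W + 3 * C2 + Cu + cL * E + G + C4 * E, hC1, by linarith,
    fun m x i0 hx τ hτ mf mf' D B mp mm hm b hb hB => ?_⟩
  set C := 32 + W + 3 * C2 + Cu + cL * E + G + C4 * E with hC
  obtain ⟨r1, r2, r3⟩ := h1 m x i0 hx
  obtain ⟨hXi, hP, hM⟩ := h2 m x i0 hx
  have hEτ : Real.exp (a' * |τ|) ≤ E := Real.exp_le_exp.2 (by nlinarith [abs_nonneg τ])
  have e1 : y1 = -(l / 10) := rfl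
  have e2 : y26 = 351 / 400 * l := rfl
  have hu := h3 m x i0 hx a' (by linarith)
  have hy1 : y1 < 0 := by rw [e1]; linarith
  have hy2 : 0 < y26 := by rw [e2]; linarith
  refine ⟨{
    ha := ha1
    hθ := by linarith
    h1 := by rw [e1]; linarith
    h2 := by rw [e2]; linarith
    hb := by linarith
    hR := r1
    hR' := r2
    mA := MeasR_of (Apl_measurable6 x i0)
    mB := MeasR_of Bch_measurable6
    mA' := MeasR_of (Ami_measurable6 x i0)
    mB' := MeasR_of Bch_measurable6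
    kp := kp_field6 x i0 hx
    km := km_field6 x i0 hx
    lr := (XiA.lim hXi (by norm_num)).mono (by linarith)
    lu := (TC_Lim hu ha (by linarith : 0 < l / 20) (by rw [e1]; linarith) (by rw [e2]; linarith)).mono
      (by rw [← hCu]; linarith)
    ls := lim_sg.mono (by linarith)
    ls' := lim_sg'.mono (by linarith)
    tu := hu.mono (by linarith [le_max_left C3 (C3 * Real.exp (a' * (l / 20)) / (l / 20))])
    hm := { hm with lim := hm.lim.mono hB }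
    th0 := (h0_TC6 ha0 (by linarith) τ).mono ?_
    tg2 := (g2_TC6 ha0 (by linarith) τ).mono ?_
    dg2 := fun t => ?_
    tq := (h4 m x i0 hx a' ha0 (by linarith) τ).mono ?_
    eq := fun t => rfl }, ?_, by linarith, by linarith⟩
  · have : cL * Real.exp (a' * |τ|) ≤ cL * E := by gcongr
    linarith
  · have : cL * Real.exp (a' * |τ|) * Real.exp (a' * (l / 10)) / (l / 10) ≤ G := by
      rw [hG]; gcongr
    linarith
  · exact Pool.Agent.PB.TC_deriv (h0_TC6 ha0 (by linarith) τ) hy1 hy2 t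
  · have : C4 * Real.exp (a' * |τ|) ≤ C4 * E := by gcongr
    linarith
  · show ∫ q, (C1 * Real.exp (-(a * |q.2|))) * (C1 * Real.exp (a' * |q.2|)) ∂wm ≤ C
    rw [r3]
    linarith

/-- **`(E')` at the true field**: one constant `K` for all `m`, rows, `|τ| ≤ 1` -/
theorem E_field6 {a' : ℝ} (ha : 1 / 2 ≤ a') (ha2 : a' < 2) (B : ℝ) : ∃ K : ℝ, 0 < K ∧
    ∀ (m : ℕ) (x : Fin m → ℂ) (i0 : Fin m), Rws0 x → ∀ τ : ℝ, |τ| ≤ 1 →
    ∀ (mf mf' D : ℝ → ℂ) (mp mm : ℂ), MeanDat mf mf' D (rl (h0T τ)) B mp mm →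
    ∀ (f fη fτ fττ : ℂ) (G1 : (ℂ → ℂ) → ℂ) (G2 H2 : (ℂ → ℂ) → (ℂ → ℂ) → ℂ) (Hs : (ℂ → ℂ) → ℂ) (Hss : ℂ)
      (δ δ0 : ℝ), 0 ≤ δ →
      PBE.Lev2 y1 y26 a' f G1 G2 (mV mf) CV δ →
      PBE.Lev2m y1 y26 a' f H2 Hs Hss CmV (CsV sg') (CssV sg') δ →
      PBE.Lin1 y1 y26 a' G1 → PBE.Lin2 y1 y26 a' G2 →
      Integrable (fun s => G2 (Apl6 x i0 s) (Bch6 s)) wm →
      Integrable (fun s => H2 (Ami6 x i0 s) (Bch6 s)) wm →
      ‖fη - ((∫ s, G2 (Apl6 x i0 s) (Bch6 s) ∂wm) +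
        ((∫ s, H2 (Ami6 x i0 s) (Bch6 s) ∂wm) + 2 * Hs (uF x i0) - (rP x i0 - rM x i0) / 2 * Hss) +
          G1 (qF x i0 τ))‖ ≤ δ0 →
      ‖G1 (h0T τ) + fτ‖ ≤ δ → ‖G2 (h0T τ) (h0T τ) + G1 (g2T τ) - fττ‖ ≤ δ →
      ‖fη - (-((rP x i0 - rM x i0) / 8) * fττ - (rP x i0 + rM x i0) / 2 * fτ)‖ ≤ δ0 + K * δ := by
  have hl := l_pos
  obtain ⟨C1, C, hC1, hC, h⟩ := vdat6 (a := (a' + 2) / 2) ha (by linarith) (by linarith)
  set b := max C B with hb
  have hbC : C ≤ b := le_max_left _ _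
  have hb0 : 0 < b := by linarith
  have ha0 : 0 < a' := by linarith
  set n := 2 * (3 * l) with hn
  have hn0 : 0 < n := by positivity
  set F := 1 + 2 * C / (a' * n) with hF
  have hC0 : 0 < C := by linarith
  have hF0 : 0 < F := by positivity
  refine ⟨(3 + b * (2 / a')) * F ^ 2 * C + (C + 2 * C + C) + C * F + C + C * (1 + C), by positivity,
    fun m x i0 hx τ hτ mf mf' D mp mm hm f fη fτ fττ G1 G2 H2 Hs Hss δ δ0 hδ hL hL' hG1 hG2 iG iH hI h1 h2 => ?_⟩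
  obtain ⟨d, hint, hP, hM⟩ := h m x i0 hx τ hτ mf mf' D B mp mm hm b hbC (le_max_right _ _)
  have key := d.E_prime hδ hL hL' hG1 hG2 iG iH hI h1 h2
  refine key.trans ?_
  have hmass : ‖PBE.mass (h0T τ)‖ = n := by
    rw [mass_h0, norm_mul, norm_mul, norm_I, norm_real, Real.norm_of_nonneg hl.le]
    have : ‖(6 : ℂ)‖ = 6 := by simp
    rw [this, hn]; ring
  rw [hmass]
  have hD : ‖rP x i0 - rM x i0‖ ≤ 2 * C := (norm_sub_le _ _).trans (by linarith)
  have hS : ‖(rP x i0 + rM x i0) / 2‖ ≤ C := by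
    rw [norm_div]
    have h3 := norm_add_le (rP x i0) (rM x i0)
    have : ‖(2 : ℂ)‖ = 2 := by simp
    rw [this]; linarith
  have hD8 : ‖-((rP x i0 - rM x i0) / 8)‖ ≤ C := by
    rw [norm_neg, norm_div]
    have : ‖(8 : ℂ)‖ = 8 := by simp
    rw [this]; linarith
  have hIn0 : 0 ≤ ∫ q, aE C1 ((a' + 2) / 2) q * bE' C1 a' q ∂wm := integral_nonneg fun q => by positivity
  have hM0 : (0 : ℝ) ≤ 1 + C := by linarith
  have hK1 : 0 ≤ (3 + b * (2 / a')) * F ^ 2 := by positivity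
  gcongr
  · linarith


end PBEI

end
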