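import Pool.Agent.PHK.Defs
import Pool.Agent.NUO.PotG

/-!
# Complex potentials of the objects of the six kinds

Curve variable `ζ`: a quantum of the curve is at `u = l + i ζ`.  `fO6 P x s` = potential of the object
`x` on a quantum of species `s`, `FO6 P O s` = sum over the objects.
-/

set_option autoImplicit false

open Complex Set Filter Topology

namespace PHK

noncomputable section

open NUO (Xo ht Away cp cp1 cq kb potB_cp exp_cp away_of pp PotB Off sp posL posT posS)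

/-- conditions on the offsets: all constituents stay `δ l` away from the multiples of `l` -/
structure PG6 (δ : ℝ) (P : Par6) : Prop where
  δ0 : 0 < δ
  δ1 : δ ≤ 1 / 2
  oL : Off δ P.jL
  oe : Off δ P.e
  o1 : Off δ P.j1
  o2 : Off δ P.j2

lemma away_posL {δ j t : ℝ} (h : Off δ j) : Away δ (posL j t) := by
  intro n
  have hl := NUO.ll_pos
  have h1 := h (1 - n)
  have e : (posL j t).re - n * NUMF.l = -(j - ((1 - n : ℤ) : ℝ)) * NUMF.l := by
    simp [posL, NUP1.vl, NUO.ll_eq]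
    ring
  rw [e, abs_mul, abs_neg, abs_of_pos hl]
  exact mul_le_mul_of_nonneg_right h1 hl.le

lemma posL_im (j t : ℝ) : (posL j t).im = t := by simp [posL, NUP1.vl]
lemma posT_im (t : ℝ) : (posT t).im = t := by simp [posT, NUP1.vl]
lemma posS_im (e t : ℝ) : (posS e t).im = t := by simp [posS, NUP1.vl]
lemma posB_eq (e t : ℝ) : posB e t = posL e t := by
  unfold posB posS posL NUP1.vl
  push_cast
  ring

lemma away_posS {δ e t : ℝ} (h : Off δ e) : Away δ (posS e t) := by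
  have e1 : posS e t = posL (2 + e) t := by
    unfold posS posL
    congr 1
    ring
  rw [e1]
  refine away_posL fun n => ?_
  have h1 := h (n - 2)
  have e2 : 2 + e - n = e - ((n - 2 : ℤ) : ℝ) := by push_cast; ring
  rw [e2]
  exact h1

lemma away_posT {δ t : ℝ} (h : δ ≤ 1 / 2) : Away δ (posT t) := by
  have e1 : posT t = posL (3 / 2) t := by
    unfold posT posL
    congr 1
    ring
  rw [e1]
  refine away_posL fun n => ?_
  rcases le_or_gt n 1 with hn | hn
  · have h3 : (n : ℝ) ≤ 1 := by exact_mod_cast hn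
    exact le_trans (by linarith) (le_abs_self _)
  · have h3 : (2 : ℝ) ≤ n := by exact_mod_cast hn
    refine le_trans ?_ (neg_le_abs _)
    linarith

/-- all constituents are away from the lattice, at the height of the object -/
theorem parts6_away {δ : ℝ} {P : Par6} (h : PG6 δ P) (x : Xo) :
    ∀ y ∈ parts6 P x, Away δ y.1.2.2 ∧ y.1.2.2.im = ht x := by
  intro y hy
  unfold parts6 at hy
  rcases hk : k6 x with _ | _ | _ | _ | _ | _ <;> simp only [hk] at hy
  · simp only [List.mem_cons, List.not_mem_nil, or_false] at hy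
    subst hy
    exact ⟨away_posL h.oL, posL_im _ _⟩
  · simp only [List.mem_cons, List.not_mem_nil, or_false] at hy
    subst hy
    exact ⟨away_posT h.δ1, posT_im _⟩
  · simp only [List.mem_cons, List.not_mem_nil, or_false] at hy
    rcases hy with hy | hy
    · subst hy
      exact ⟨away_posS h.oe, posS_im _ _⟩
    · subst hy
      rw [posB_eq]
      exact ⟨away_posL h.oe, posL_im _ _⟩
  · simp only [List.mem_cons, List.not_mem_nil, or_false] at hy
    rcases hy with hy | hy | hy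
    · subst hy
      exact ⟨away_posS h.oe, posS_im _ _⟩
    · subst hy
      rw [posB_eq]
      exact ⟨away_posL h.oe, posL_im _ _⟩
    · subst hy
      rw [posB_eq]
      exact ⟨away_posL h.oe, posL_im _ _⟩
  · simp only [List.mem_cons, List.not_mem_nil, or_false] at hy
    subst hy
    exact ⟨away_posL h.o1, posL_im _ _⟩
  · simp only [List.mem_cons, List.not_mem_nil, or_false] at hy
    subst hy
    exact ⟨away_posL h.o2, posL_im _ _⟩

/-- **potential of an object on a quantum of species `s` of the curve** -/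
def fO6 (P : Par6) (x : Xo) (s : Bool) (ζ : ℂ) : ℂ :=
  ((parts6 P x).map fun y => ((y.2 : ℝ) : ℂ) * cp s y.1 ζ).sum

/-- its derivative -/
def fO61 (P : Par6) (x : Xo) (s : Bool) (ζ : ℂ) : ℂ :=
  ((parts6 P x).map fun y => ((y.2 : ℝ) : ℂ) * cp1 s y.1 ζ).sum

/-- the constant of an object -/
def KO6 (δ b : ℝ) : ℝ := 4 * (6 * kb δ b)

/-- charge of the object as seen by species `s` -/
def qO6 (s : Bool) (x : Xo) : ℝ := 2 * ((chg6 s x : ℝ) - chg6 (!s) x)

lemma cq_sum6 (P : Par6) (x : Xo) (s : Bool) :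
    ((parts6 P x).map fun y => (y.2 : ℝ) * cq s y.1).sum = qO6 s x := by
  unfold parts6 qO6 chg6 cq
  rcases hk : k6 x with _ | _ | _ | _ | _ | _ <;> rcases hsp : sp x with _ | _ <;> cases s <;>
    simp <;> norm_num

lemma mul_sum6 (P : Par6) (x : Xo) {K : ℝ} (hK : 0 ≤ K) :
    ((parts6 P x).map fun y => |(y.2 : ℝ)| * K).sum ≤ 4 * K := by
  unfold parts6
  rcases hk : k6 x with _ | _ | _ | _ | _ | _ <;> simp <;> linarith

lemma kb_nonneg6 {δ b : ℝ} (hb0 : 0 < b) (hb : b < δ * NUMF.l) {P : Par6} (h : PG6 δ P) :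
    0 ≤ kb δ b := (NUO.potB_bk hb0 hb (away_posT (t := 0) h.δ1) 0).κ0

theorem potB_fO6 {δ b : ℝ} (hb0 : 0 < b) (hb : b < δ * NUMF.l) {P : Par6} (h : PG6 δ P)
    (x : Xo) (s : Bool) : PotB b (KO6 δ b) (qO6 s x) (ht x) (fO6 P x s) (fO61 P x s) := by
  have hc := parts6_away h x
  have hk := kb_nonneg6 hb0 hb h
  have h1 := PotB.listSum hb0 (parts6 P x) (κ := fun y => |(y.2 : ℝ)| * (6 * kb δ b))
    (c := fun y => (y.2 : ℝ) * cq s y.1) (f := fun y ζ => ((y.2 : ℝ) : ℂ) * cp s y.1 ζ)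
    (f1 := fun y ζ => ((y.2 : ℝ) : ℂ) * cp1 s y.1 ζ) (τ := ht x) fun y hy => by
      have h2 := (potB_cp hb0 hb s (hc y hy).1).smul (y.2 : ℝ)
      rw [(hc y hy).2] at h2
      exact h2
  rw [cq_sum6] at h1
  exact h1.mono (mul_sum6 P x (by positivity))

lemma exp_smul_int (k : ℤ) (a : ℝ) : Real.exp ((k : ℝ) * a) = Real.exp a ^ k := by
  rw [← Real.rpow_intCast, ← Real.exp_mul, mul_comm]

/-- **exactness** -/
theorem exp_fO6 {δ : ℝ} {P : Par6} (h : PG6 δ P) {r : ℕ} (O : Fin r → Xo) (i : Fin r) (s : Bool) {ζ : ℂ}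
    (hζ : |ζ.im| < δ * NUMF.l) : potN6 P O i s (NUMF.l + I * ζ) = Real.exp (fO6 P (O i) s ζ).re := by
  have hc := parts6_away h (O i)
  have key : ∀ L : List ((Bool × Bool × ℂ) × ℤ), (∀ y ∈ L, Away δ y.1.2.2) →
      (L.map fun y => ‖pp (s, false, (NUMF.l + I * ζ : ℂ)) y.1‖ ^ y.2).prod =
        Real.exp ((L.map fun y => ((y.2 : ℝ) : ℂ) * cp s y.1 ζ).sum).re := by
    intro L hL
    induction L with
    | nil => simp
    | cons a L ih =>
      rw [List.map_cons, List.prod_cons, List.map_cons, List.sum_cons, Complex.add_re, Real.exp_add,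
        ih fun y hy => hL y (by simp [hy]), Complex.re_ofReal_mul, exp_smul_int,
        exp_cp s (hL a (by simp)) hζ]
  unfold potN6 ppN6 cons6 fO6 pp6
  rw [List.map_cons, List.map_nil, List.prod_cons, List.prod_nil, mul_one]
  simp only [one_mul, norm_zpow]
  exact key _ fun y hy => (hc y hy).1

theorem potN6_pos {δ : ℝ} {P : Par6} (h : PG6 δ P) {r : ℕ} (O : Fin r → Xo) (i : Fin r) (s : Bool) {ζ : ℂ}
    (hζ : |ζ.im| < δ * NUMF.l) : 0 < potN6 P O i s (NUMF.l + I * ζ) := by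
  rw [exp_fO6 h O i s hζ]
  exact Real.exp_pos _

/-! ### configurations -/

/-- potential of the configuration on a quantum of species `s` -/
def FO6 (P : Par6) {r : ℕ} (O : Fin r → Xo) (s : Bool) (ζ : ℂ) : ℂ := ∑ i, fO6 P (O i) s ζ

/-- its derivative -/
def FO61 (P : Par6) {r : ℕ} (O : Fin r → Xo) (s : Bool) (ζ : ℂ) : ℂ := ∑ i, fO61 P (O i) s ζ

variable {δ b : ℝ} {P : Par6} {r : ℕ} (O : Fin r → Xo)

/-- **exactness** -/
theorem exp_FO6 (h : PG6 δ P) (s : Bool) {ζ : ℂ} (hζ : |ζ.im| < δ * NUMF.l) :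
    ∏ i, potN6 P O i s (NUMF.l + I * ζ) = Real.exp (FO6 P O s ζ).re := by
  unfold FO6
  rw [Complex.re_sum, Real.exp_sum]
  exact Finset.prod_congr rfl fun i _ => exp_fO6 h O i s hζ

/-- **exactness on the curve** -/
theorem prod_potN6 (h : PG6 δ P) (s : Bool) {η : ℝ → ℝ} {t : ℝ} (hη : |η t| < δ * NUMF.l) :
    ∏ i, potN6 P O i s (NUP1.vl (NUP1.l - η t) t) =
      Real.exp (FO6 P O s (t + (η t : ℂ) * I)).re := by
  rw [NUO.vl_eq]
  exact exp_FO6 O h s (by simpa using hη)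

theorem hasDerivAt_FO6 (hb0 : 0 < b) (hb : b < δ * NUMF.l) (h : PG6 δ P) (s : Bool) {z : ℂ}
    (hz : |z.im| < b) : HasDerivAt (FO6 P O s) (FO61 P O s z) z :=
  HasDerivAt.fun_sum fun i _ => (potB_fO6 hb0 hb h (O i) s).hd z hz

theorem an_FO6 (hb0 : 0 < b) (hb : b < δ * NUMF.l) (h : PG6 δ P) (s : Bool) :
    AnalyticOnNhd ℂ (FO6 P O s) {z : ℂ | |z.im| < b} := by
  refine DifferentiableOn.analyticOnNhd (fun z hz => ?_) (PotB.isOpen_strip b)
  exact (hasDerivAt_FO6 O hb0 hb h s hz).differentiableAt.differentiableWithinAt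

theorem hasDerivAt_iter_FO6 (hb0 : 0 < b) (hb : b < δ * NUMF.l) (h : PG6 δ P) (s : Bool) (k : ℕ) {z : ℂ}
    (hz : |z.im| < b) :
    HasDerivAt (iteratedDeriv k (FO6 P O s)) (iteratedDeriv (k + 1) (FO6 P O s) z) z := by
  have h1 : AnalyticAt ℂ (iteratedDeriv k (FO6 P O s)) z := by
    rw [iteratedDeriv_eq_iterate]
    exact (an_FO6 O hb0 hb h s z hz).iterated_deriv k
  rw [iteratedDeriv_succ]
  exact h1.differentiableAt.hasDerivAt

theorem iter_FO6_eq (hb0 : 0 < b) (hb : b < δ * NUMF.l) (h : PG6 δ P) (s : Bool) (k : ℕ) {z : ℂ}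
    (hz : |z.im| < b) : iteratedDeriv k (FO6 P O s) z = ∑ i, iteratedDeriv k (fO6 P (O i) s) z := by
  have h0 : FO6 P O s = fun z => ∑ i ∈ Finset.univ, fO6 P (O i) s z := rfl
  rw [h0, iteratedDeriv_fun_sum]
  intro i _
  exact ((potB_fO6 hb0 hb h (O i) s).an z hz).contDiffAt

/-- constants of the Cauchy bounds -/
def KI6 (δ b ρ : ℝ) (n : ℕ) : ℝ := n.factorial * ((KO6 δ b + 2 * 4) * Real.exp 2) / ρ ^ n

lemma abs_qO6_le (s : Bool) (x : Xo) : |qO6 s x| ≤ 4 := by
  unfold qO6 chg6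
  rcases hk : k6 x with _ | _ | _ | _ | _ | _ <;> rcases hsp : sp x with _ | _ <;> cases s <;>
    simp <;> norm_num

/-- **derivatives of order `≥ 1`** -/
theorem norm_iter_FO6 (hb0 : 0 < b) (hb : b < δ * NUMF.l) (h : PG6 δ P) (s : Bool) {b' ρ : ℝ} (hρ : 0 < ρ)
    (hρ1 : ρ ≤ 1) (hbρ : b' + ρ < b) (n : ℕ) {z : ℂ} (hz : |z.im| ≤ b') :
    ‖iteratedDeriv (n + 1) (FO6 P O s) z‖ ≤ KI6 δ b ρ n * r := by
  rw [iter_FO6_eq O hb0 hb h s _ (by linarith)]
  refine (norm_sum_le _ _).trans ?_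
  have h1 : ∀ i : Fin r, ‖iteratedDeriv (n + 1) (fO6 P (O i) s) z‖ ≤ KI6 δ b ρ n := by
    intro i
    refine ((potB_fO6 hb0 hb h (O i) s).iter_bound' hρ hρ1 hbρ n hz).trans ?_
    unfold KI6
    have := abs_qO6_le s (O i)
    gcongr
  refine (Finset.sum_le_sum fun i _ => h1 i).trans (le_of_eq ?_)
  rw [Finset.sum_const, Finset.card_univ, Fintype.card_fin, nsmul_eq_mul]
  ring

/-- **derivatives of order `≥ 2`** decay -/
theorem norm_iter2_FO6 (hb0 : 0 < b) (hb : b < δ * NUMF.l) (h : PG6 δ P) (s : Bool) {b' ρ : ℝ} (hρ : 0 < ρ)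
    (hρ1 : ρ ≤ 1) (hbρ : b' + ρ < b) (n : ℕ) {z : ℂ} (hz : |z.im| ≤ b') :
    ‖iteratedDeriv (n + 2) (FO6 P O s) z‖ ≤
      KI6 δ b ρ (n + 1) * ∑ i, Real.exp (-2 * |z.re - ht (O i)|) := by
  rw [iter_FO6_eq O hb0 hb h s _ (by linarith), Finset.mul_sum]
  refine (norm_sum_le _ _).trans (Finset.sum_le_sum fun i _ => ?_)
  refine ((potB_fO6 hb0 hb h (O i) s).iter_bound hρ hρ1 hbρ n hz).trans ?_
  unfold KI6
  have := abs_qO6_le s (O i)
  gcongr

theorem norm_FO6 (hb0 : 0 < b) (hb : b < δ * NUMF.l) (h : PG6 δ P) (s : Bool) {z : ℂ}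
    (hz : |z.im| < b) : ‖FO6 P O s z‖ ≤ KO6 δ b * ∑ i, (1 + |z.re - ht (O i)|) := by
  unfold FO6
  rw [Finset.mul_sum]
  exact (norm_sum_le _ _).trans (Finset.sum_le_sum fun i _ => (potB_fO6 hb0 hb h (O i) s).val z hz)

/-- class of `NUAct` -/
theorem ext_FO6 (hb0 : 0 < b) (hb : b < δ * NUMF.l) (h : PG6 δ P) (s : Bool) {b' : ℝ} (hb' : b' < b) :
    NUAct.Ext b' (FO6 P O s) := by
  have hk : 0 ≤ KO6 δ b := by
    unfold KO6
    have := kb_nonneg6 hb0 hb h
    positivity
  refine NUAct.Ext_of_lin (K := KO6 δ b * ∑ i, (1 + |ht (O i)|)) (fun z hz =>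
    (hasDerivAt_FO6 O hb0 hb h s (by linarith)).differentiableAt) fun z hz => ?_
  refine (norm_FO6 O hb0 hb h s (by linarith)).trans ?_
  rw [mul_assoc]
  refine mul_le_mul_of_nonneg_left ?_ hk
  rw [Finset.sum_mul]
  refine Finset.sum_le_sum fun i _ => ?_
  have h1 := abs_sub z.re (ht (O i))
  have h2 := abs_nonneg z.re
  have h3 := abs_nonneg (ht (O i))
  nlinarith

/-! ### both species -/

/-- the neutral sum -/
theorem potB_neutral6 (hb0 : 0 < b) (hb : b < δ * NUMF.l) (h : PG6 δ P) (x : Xo) :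
    PotB b (2 * KO6 δ b) 0 (ht x) (fun z => fO6 P x true z + fO6 P x false z)
      (fun z => fO61 P x true z + fO61 P x false z) := by
  have h1 := (potB_fO6 hb0 hb h x true).add (potB_fO6 hb0 hb h x false)
  have e : qO6 true x + qO6 false x = 0 := by
    unfold qO6
    simp only [Bool.not_true, Bool.not_false]
    ring
  rw [e] at h1
  exact h1.mono (by linarith)

theorem FO6_sum (z : ℂ) : FO6 P O true z + FO6 P O false z =
    ∑ i, (fO6 P (O i) true z + fO6 P (O i) false z) := by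
  unfold FO6
  rw [Finset.sum_add_distrib]

/-- **both species together**: all derivatives of order `≥ 1` decay -/
theorem norm_iter_sum6 (hb0 : 0 < b) (hb : b < δ * NUMF.l) (h : PG6 δ P) {b' ρ : ℝ} (hρ : 0 < ρ)
    (hρ1 : ρ ≤ 1) (hbρ : b' + ρ < b) (n : ℕ) {z : ℂ} (hz : |z.im| ≤ b') :
    ‖iteratedDeriv (n + 1) (fun z => FO6 P O true z + FO6 P O false z) z‖ ≤
      n.factorial * (2 * KO6 δ b * Real.exp 2) / ρ ^ n * ∑ i, Real.exp (-2 * |z.re - ht (O i)|) := by
  have h0 : (fun z => FO6 P O true z + FO6 P O false z) =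
      fun z => ∑ i ∈ Finset.univ, (fO6 P (O i) true z + fO6 P (O i) false z) :=
    funext fun z => FO6_sum O z
  rw [h0, iteratedDeriv_fun_sum fun i _ => ((potB_neutral6 hb0 hb h (O i)).an z
    (by simp only [mem_ofPred_eq]; linarith)).contDiffAt, Finset.mul_sum]
  exact (norm_sum_le _ _).trans (Finset.sum_le_sum fun i _ =>
    (potB_neutral6 hb0 hb h (O i)).iter_bound_neutral hρ hρ1 hbρ n hz)

/-! ### the blocks -/

/-- offsets of the quanta of an object, with multiplicities: `(own species?, offset, multiplicity)` -/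
def offK6 (P : Par6) : Kd6 → List (Bool × ℝ × ℤ)
  | .L => [(true, P.jL, 1)]
  | .T => [(true, 3 / 2, 1), (true, 5 / 2, 1)]
  | .E => [(true, 2 + P.e, 1), (true, 3 + P.e, 1), (false, P.e, 2)]
  | .F => [(true, 2 + P.e, 1), (true, 3 + P.e, 1), (false, P.e, 2), (true, P.e, -1)]
  | .H1 => [(true, P.j1, -1)]
  | .H2 => [(true, P.j2, -1)]

lemma off_posL (j t : ℝ) : NUO.off (posL j t) = j := by
  have hl := NUO.ll_pos
  unfold NUO.off
  simp [posL, NUP1.vl, NUO.ll_eq]
  field_simp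
  ring

lemma posT_eq (t : ℝ) : posT t = posL (3 / 2) t := by
  unfold posT posL
  congr 1
  ring

lemma posS_eq (e t : ℝ) : posS e t = posL (2 + e) t := by
  unfold posS posL
  congr 1
  ring

/-- **the potential of an object is the sum of the blocks of its quanta** -/
theorem fO6_eq (P : Par6) (x : Xo) (s : Bool) (ζ : ℂ) : fO6 P x s ζ =
    ((offK6 P (k6 x)).map fun p => ((p.2.2 : ℝ) : ℂ) *
      (if (s = sp x) = (p.1 = true) then NUO.fq p.2.1 (ζ - ht x) else NUO.fg p.2.1 (ζ - ht x))).sum := by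
  unfold fO6 parts6 offK6
  have e1 : (3 : ℝ) / 2 + 1 = 5 / 2 := by norm_num
  have e2 : (2 : ℝ) + P.e + 1 = 3 + P.e := by ring
  rcases hk : k6 x with _ | _ | _ | _ | _ | _ <;> rcases hsp : sp x with _ | _ <;> cases s <;>
    simp [NUO.cp_eq, NUO.offs, posB_eq, posT_eq, posS_eq, off_posL, posL_im, e1, e2] <;> ring

/-- the offsets are away from the integers -/
theorem offK6_off {δ : ℝ} {P : Par6} (h : PG6 δ P) (K : Kd6) : ∀ p ∈ offK6 P K, Off δ p.2.1 := by
  have hT : ∀ a : ℤ, Off δ ((a : ℝ) + 1 / 2) := by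
    intro a n
    have h1 := h.δ1
    rcases le_or_gt n a with hn | hn
    · have h3 : (n : ℝ) ≤ a := by exact_mod_cast hn
      exact le_trans (by linarith) (le_abs_self _)
    · have h3 : (a : ℝ) + 1 ≤ n := by exact_mod_cast hn
      refine le_trans ?_ (neg_le_abs _)
      linarith
  have hS : ∀ a : ℤ, Off δ ((a : ℝ) + P.e) := by
    intro a n
    have h1 := h.oe (n - a)
    have e2 : (a : ℝ) + P.e - n = P.e - ((n - a : ℤ) : ℝ) := by push_cast; ring
    rw [e2]
    exact h1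
  have t1 : Off δ (3 / 2) := by
    have := hT 1
    norm_num at this
    exact this
  have t2 : Off δ (5 / 2) := by
    have := hT 2
    norm_num at this
    exact this
  have s2 : Off δ (2 + P.e) := by simpa using hS 2
  have s3 : Off δ (3 + P.e) := by simpa using hS 3
  cases K <;> simp only [offK6, List.forall_mem_cons]
  · exact ⟨h.oL, by simp⟩
  · exact ⟨t1, t2, by simp⟩
  · exact ⟨s2, s3, h.oe, by simp⟩
  · exact ⟨s2, s3, h.oe, h.oe, by simp⟩
  · exact ⟨h.o1, by simp⟩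
  · exact ⟨h.o2, by simp⟩

/-- the parameters of the application -/
theorem pg6_par6 : PG6 (1 / 64) par6 := by
  have key : ∀ (x : ℝ) (a : ℤ), (a : ℝ) + 1 / 64 ≤ x → x ≤ a + 1 - 1 / 64 → Off (1 / 64) x := by
    intro x a h1 h2 n
    rcases le_or_gt n a with hn | hn
    · have h3 : (n : ℝ) ≤ a := by exact_mod_cast hn
      exact le_trans (by linarith) (le_abs_self _)
    · have h3 : (a : ℝ) + 1 ≤ n := by exact_mod_cast hn
      refine le_trans ?_ (neg_le_abs _)
      linarith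
  exact ⟨by norm_num, by norm_num, key _ 2 (by norm_num [par6]) (by norm_num [par6]),
    key _ 0 (by norm_num [par6]) (by norm_num [par6]), key _ 0 (by norm_num [par6]) (by norm_num [par6]),
    key _ 0 (by norm_num [par6]) (by norm_num [par6])⟩

end

end PHK
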