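import Pool.Agent.PHK.FDef6
import Pool.Agent.PHK.Pot
import Pool.Agent.NUO.GasPot

/-!
# The gas of quanta in the field of the objects of (P)

The strip of the curves is `Ks6 δ = [(1 - δ) l, (1 + δ) l]` (the hole lines are at `(1 - j) l`).

* `StP δ P`: the strip meets no pole of the fields of the objects; `GoodP6.stP`;
* `meas_potO6`, `diff_potO6`, `bdd_potO6`: the field `∏ i, potC6 P (O i) s` in the strip, rate
  `± 2 (chgO6 O true - chgO6 O false)`;
* `CrvR6 δ η η'`: curves in the strip, `CurB.crvR6`;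
* **`reg_pot6`**, **`gas_pot_leQ6`**: step (II), total charge `Q`: the gas on the line `Re u = l` is
  bounded by the positive gas `ZG6` on any two curves in the strip.
-/

set_option autoImplicit false
set_option linter.unusedSectionVars false

noncomputable section

open Complex MeasureTheory Finset
open scoped ENNReal Real

namespace PHK

open NUO NUP1 NUP1S NUP1S.Ab
open NUP1.Bd (cwz pwz qg sin_pos_of Ob)

/-- the strip of the quanta -/
abbrev Ks6 (δ : ℝ) : Set ℝ := Set.Icc ((1 - δ) * l) ((1 + δ) * l)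

/-- the strip of the quanta meets no pole of the objects -/
structure StP (δ : ℝ) (P : Par6) : Prop where
  d0 : 0 ≤ δ
  d1 : δ ≤ 1 / 20
  o1 : δ < P.j1
  o1' : P.j1 + δ < 1
  o2 : δ < P.j2
  o2' : P.j2 + δ < 1
  oe : δ < P.e
  oe' : P.e + δ < 1
  oL : 1 + δ < P.jL
  oL' : P.jL + δ < 3

theorem GoodP6.stP {δ : ℝ} {P : Par6} (h : GoodP6 P) (h0 : 0 ≤ δ) (h1 : δ ≤ 1 / 40)
    (h2 : P.j2 + δ < 1) : StP δ P := by
  have a1 := h.j1
  have a2 := h.j1e
  have a3 := h.ej2
  have a4 := h.j2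
  have a5 := h.L2
  have a6 := h.Lj
  exact ⟨h0, by (clear * - h1; linarith), by (clear * - h1 a1 a5 a6; linarith), by (clear * - h2 a2 a3; linarith), by (clear * - h1 a1 a2 a3 a5 a6; linarith), h2, by (clear * - h1 a1 a2 a5 a6; linarith), by (clear * - h2 a3; linarith),
    by (clear * - h1 a5; linarith), by linarith⟩

/-! ### the inverse pair functions -/

/-- no zero of the pair function of two quanta at real part `d` -/
def NzA (s c : Bool) (d : ℝ) : Prop :=
  if s = c then Real.sin (d + 0) ≠ 0 ∧ Real.sin (d + 2 * l) ≠ 0 ∧ Real.sin (d + -(2 * l)) ≠ 0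
  else Real.sin (d + 4 * l) ≠ 0

theorem sin_ne_of_re {z : ℂ} {a : ℝ} (h : Real.sin (z.re + a) ≠ 0) : sin (z + a) ≠ 0 := by
  have h1 := Bd.le_norm_sin_add z a
  have h2 : 0 < |Real.sin (z.re + a)| * Real.cosh z.im := mul_pos (abs_pos.2 h) (Real.cosh_pos _)
  exact norm_pos_iff.1 (h2.trans_le h1)

theorem cos_eq_sin4 (z : ℂ) : cos z = sin (z + ((4 * l : ℝ) : ℂ)) := by
  have e : z + ((4 * l : ℝ) : ℂ) = z + Real.pi / 2 := by
    unfold l
    push_cast
    ring
  rw [e, Complex.sin_add_pi_div_two]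

theorem inv_q (z : ℂ) : (q z)⁻¹ = -(sin (z + (l : ℂ)) * sin (z + ((-l : ℝ) : ℂ))) *
    (1 / sin (z + ((0 : ℝ) : ℂ))) ^ 2 * (1 / sin (z + ((2 * l : ℝ) : ℂ))) *
      (1 / sin (z + ((-(2 * l) : ℝ) : ℂ))) := by
  unfold q
  have e1 : z - l = z + ((-l : ℝ) : ℂ) := by push_cast; ring
  have e2 : z - 2 * l = z + ((-(2 * l) : ℝ) : ℂ) := by push_cast; ring
  have e3 : z + 2 * l = z + ((2 * l : ℝ) : ℂ) := by push_cast; ring
  rw [e1, e2, e3, Complex.ofReal_zero, add_zero, inv_div, div_neg]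
  ring

theorem inv_qg (z : ℂ) : (qg z)⁻¹ = (sin (z + ((3 * l : ℝ) : ℂ)) * sin (z + ((-(3 * l) : ℝ) : ℂ))) ^ 2 *
    (1 / sin (z + ((4 * l : ℝ) : ℂ))) ^ 2 := by
  unfold qg
  have e1 : z - 3 * l = z + ((-(3 * l) : ℝ) : ℂ) := by push_cast; ring
  have e3 : z + 3 * l = z + ((3 * l : ℝ) : ℂ) := by push_cast; ring
  rw [e1, e3, cos_eq_sin4, inv_div]
  ring

/-- **bound of the inverse pair function of two quanta** -/
theorem bdd_inv_gz {K : Set ℝ} (hK : IsCompact K) (s c : Bool) (h : ∀ d ∈ K, NzA s c d) :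
    Bdd K (-rt (s, .A) (c, .A)) fun z => (gz (s, .A) (c, .A) z)⁻¹ := by
  unfold NzA at h
  by_cases hc : s = c
  · subst hc
    simp only [if_true] at h
    have e : -rt (s, .A) (s, .A) = 1 + 1 + ((2 : ℕ) : ℝ) * (-1) + -1 + -1 := by
      unfold rt sc
      cases s <;> simp [NUP1.Bd.chg] <;> norm_num
    have b1 := ((bdd_sin K l).mul (bdd_sin K (-l))).mul
      ((bdd_inv_sin hK 0 fun d hd => (h d hd).1).pow 2)
    have b2 := (b1.mul (bdd_inv_sin hK (2 * l) fun d hd => (h d hd).2.1)).mul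
      (bdd_inv_sin hK (-(2 * l)) fun d hd => (h d hd).2.2)
    rw [e]
    obtain ⟨C, hC, hb⟩ := b2
    refine ⟨C, hC, fun z hz => ?_⟩
    refine le_trans (le_of_eq ?_) (hb z hz)
    have e1 : gz (s, .A) (s, .A) z = q z := by
      unfold gz
      rw [if_pos rfl]
      rfl
    simp only
    rw [e1, inv_q, neg_mul, neg_mul, neg_mul, norm_neg]
  · simp only [if_neg hc] at h
    have e : -rt (s, .A) (c, .A) = ((2 : ℕ) : ℝ) * (1 + 1) + ((2 : ℕ) : ℝ) * (-1) := by
      unfold rt sc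
      cases s <;> cases c <;> simp_all [NUP1.Bd.chg] <;> norm_num
    have b1 := (((bdd_sin K (3 * l)).mul (bdd_sin K (-(3 * l)))).pow 2).mul
      ((bdd_inv_sin hK (4 * l) h).pow 2)
    rw [e]
    obtain ⟨C, hC, hb⟩ := b1
    refine ⟨C, hC, fun z hz => ?_⟩
    refine le_trans (le_of_eq ?_) (hb z hz)
    have e1 : gz (s, .A) (c, .A) z = qg z := by
      unfold gz
      rw [if_neg hc]
      rfl
    simp only
    rw [e1, inv_qg]

theorem gz_ne {s c : Bool} {z : ℂ} (h : NUP1S.Ok (s, .A) (c, .A) z.re) (h' : NzA s c z.re) :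
    gz (s, .A) (c, .A) z ≠ 0 := by
  unfold NUP1S.Ok poles at h
  unfold NzA at h'
  by_cases hc : s = c
  · subst hc
    simp only [if_true] at h h'
    have e1 : gz (s, .A) (s, .A) z = q z := by
      unfold gz
      rw [if_pos rfl]
      rfl
    rw [e1]
    have p1 := sin_ne_of_re (h l (by simp))
    have p2 := sin_ne_of_re (h (-l) (by simp))
    have p3 := sin_ne_of_re h'.1
    have p4 := sin_ne_of_re h'.2.1
    have p5 := sin_ne_of_re h'.2.2
    have h0 : (q z)⁻¹ ≠ 0 := by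
      rw [inv_q]
      refine mul_ne_zero (mul_ne_zero (mul_ne_zero (neg_ne_zero.2 (mul_ne_zero p1 p2)) ?_) ?_) ?_
      · exact pow_ne_zero _ (one_div_ne_zero p3)
      · exact one_div_ne_zero p4
      · exact one_div_ne_zero p5
    exact fun h1 => h0 (by rw [h1, inv_zero])
  · simp only [if_neg hc] at h h'
    have e1 : gz (s, .A) (c, .A) z = qg z := by
      unfold gz
      rw [if_neg hc]
      rfl
    rw [e1]
    have p1 := sin_ne_of_re (h (3 * l) (by simp))
    have p2 := sin_ne_of_re (h (-(3 * l)) (by simp))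
    have p3 := sin_ne_of_re h'
    have h0 : (qg z)⁻¹ ≠ 0 := by
      rw [inv_qg]
      exact mul_ne_zero (pow_ne_zero _ (mul_ne_zero p1 p2)) (pow_ne_zero _ (one_div_ne_zero p3))
    exact fun h1 => h0 (by rw [h1, inv_zero])

/-! ### a signed constituent -/

/-- a quantum of species `s` in the strip does not meet a pole of the signed constituent `p` -/
def OkP6 (δ : ℝ) (s : Bool) (p : Part6) : Prop :=
  (∀ v ∈ Ks6 δ, Ok (s, .A) (p.1.1, obB p.1.2.1) (v - p.1.2.2.re)) ∧
    (0 ≤ p.2 ∨ p.1.2.1 = false ∧ ∀ v ∈ Ks6 δ, NzA s p.1.1 (v - p.1.2.2.re))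

/-- rate of a signed constituent -/
def rtP6 (s : Bool) (p : Part6) : ℝ := p.2 * rt (s, .A) (p.1.1, obB p.1.2.1)

theorem pp6_eq_gz (s : Bool) (p : Part6) (z : ℂ) :
    pp6 ((s, false, z), 1) p = gz (s, .A) (p.1.1, obB p.1.2.1) (z - p.1.2.2) ^ p.2 := by
  unfold pp6
  rw [one_mul]
  exact congrArg (· ^ p.2) (NUO.pp_eq_gz s p.1 z)

theorem diff_pp6 {δ : ℝ} {s : Bool} {p : Part6} (h : OkP6 δ s p) {u : ℂ} (hu : u.re ∈ Ks6 δ) :
    DifferentiableAt ℂ (fun z => pp6 ((s, false, z), 1) p) u := by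
  simp_rw [pp6_eq_gz]
  have h1 : DifferentiableAt ℂ (gz (s, .A) (p.1.1, obB p.1.2.1)) (u - p.1.2.2) :=
    differentiableAt_gz _ _ (by rw [Complex.sub_re]; exact h.1 _ hu)
  have h2 : DifferentiableAt ℂ (fun z => gz (s, .A) (p.1.1, obB p.1.2.1) (z - p.1.2.2)) u :=
    h1.comp u (differentiableAt_id.sub_const _)
  refine h2.zpow ?_
  rcases h.2 with h3 | ⟨h3, h4⟩
  · exact Or.inr h3
  · left
    have h5 := h.1 _ hu
    have h6 := h4 _ hu
    rw [← Complex.sub_re] at h5 h6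
    rw [h3] at h5 ⊢
    exact gz_ne h5 h6

/-- the bound of a power in the strip -/
theorem bdd_pp6 {δ : ℝ} {s : Bool} {p : Part6} (h : OkP6 δ s p) :
    Bdd (Ks6 δ) (rtP6 s p) (fun z => pp6 ((s, false, z), 1) p) := by
  have hK : IsCompact ((fun v => v - p.1.2.2.re) '' Ks6 δ) := isCompact_Icc.image (by fun_prop)
  -- the function on the shifted strip
  have key : Bdd ((fun v => v - p.1.2.2.re) '' Ks6 δ) (rtP6 s p)
      fun z => gz (s, .A) (p.1.1, obB p.1.2.1) z ^ p.2 := by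
    unfold rtP6
    rcases h.2 with h3 | ⟨h3, h4⟩
    · obtain ⟨n, hn⟩ := Int.eq_ofNat_of_zero_le h3
      rw [hn]
      have b := (bdd_gz hK (s, .A) (p.1.1, obB p.1.2.1) (by
        rintro _ ⟨v, hv, rfl⟩
        exact h.1 v hv)).pow n
      simpa using b
    · rw [h3]
      rcases le_or_gt 0 p.2 with h5 | h5
      · obtain ⟨n, hn⟩ := Int.eq_ofNat_of_zero_le h5
        rw [hn]
        have b := (bdd_gz hK (s, .A) (p.1.1, obB false) (by
          rintro _ ⟨v, hv, rfl⟩
          have := h.1 v hv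
          rwa [h3] at this)).pow n
        simpa using b
      · obtain ⟨n, hn⟩ := Int.eq_ofNat_of_zero_le (Int.neg_nonneg_of_nonpos h5.le)
        have hn' : p.2 = -(n : ℤ) := by
          have : -p.2 = (n : ℤ) := hn
          omega
        rw [hn']
        have b := (bdd_inv_gz hK s p.1.1 (by
          rintro _ ⟨v, hv, rfl⟩
          exact h4 v hv)).pow n
        refine Bdd.rate (s := (n : ℝ) * -rt (s, .A) (p.1.1, .A)) ?_ (by
          push_cast
          show (n : ℝ) * -rt (s, .A) (p.1.1, .A) = -(n : ℝ) * rt (s, .A) (p.1.1, .A)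
          ring)
        obtain ⟨C, hC, hb⟩ := b
        refine ⟨C, hC, fun z hz => ?_⟩
        have e : gz (s, .A) (p.1.1, obB false) z ^ (-(n : ℤ)) = ((gz (s, .A) (p.1.1, .A) z)⁻¹) ^ n := by
          rw [zpow_neg, zpow_natCast, inv_pow]
          rfl
        simp only
        rw [e]
        exact hb z hz
  obtain ⟨C, hC, hb⟩ := key
  refine ⟨C * Real.exp (|rtP6 s p| * |p.1.2.2.im|), by positivity, fun z hz => ?_⟩
  simp only []
  rw [pp6_eq_gz]
  refine (hb (z - p.1.2.2) ⟨z.re, hz, by simp⟩).trans ?_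
  rw [mul_assoc, ← Real.exp_add, Complex.sub_im]
  refine mul_le_mul_of_nonneg_left (Real.exp_le_exp.2 ?_) hC
  have h1 : |z.im - p.1.2.2.im| ≤ |z.im| + |p.1.2.2.im| := abs_sub _ _
  have h2 : |z.im| ≤ |z.im - p.1.2.2.im| + |p.1.2.2.im| := by
    have := abs_add_le (z.im - p.1.2.2.im) p.1.2.2.im
    simpa using this
  rcases le_total 0 (rtP6 s p) with h0 | h0
  · rw [abs_of_nonneg h0]
    nlinarith
  · rw [abs_of_nonpos h0]
    nlinarith

/-! ### lists -/

theorem diff_list6 {δ : ℝ} {s : Bool} {B : List Part6} (h : ∀ p ∈ B, OkP6 δ s p) {u : ℂ}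
    (hu : u.re ∈ Ks6 δ) : DifferentiableAt ℂ (fun z => ppC6 [((s, false, z), 1)] B) u := by
  simp_rw [ppC6_single]
  induction B with
  | nil => simp
  | cons p B ih =>
    simp only [List.map_cons, List.prod_cons]
    exact (diff_pp6 (h p List.mem_cons_self) hu).mul
      (ih fun q hq => h q (List.mem_cons_of_mem _ hq))

theorem bdd_list6 {δ : ℝ} {s : Bool} {B : List Part6} (h : ∀ p ∈ B, OkP6 δ s p) :
    Bdd (Ks6 δ) (B.map (rtP6 s)).sum (fun z => ppC6 [((s, false, z), 1)] B) := by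
  simp_rw [ppC6_single]
  induction B with
  | nil => exact ⟨1, zero_le_one, fun z _ => by simp⟩
  | cons p B ih =>
    simp only [List.map_cons, List.prod_cons, List.sum_cons]
    exact (bdd_pp6 (h p List.mem_cons_self)).mul (ih fun q hq => h q (List.mem_cons_of_mem _ hq))

/-! ### no poles -/

/-- quantum - quantum at distance in `(0, l)` -/
theorem okN {s c : Bool} {d : ℝ} (h1 : 0 < d) (h2 : d < l) : Ok (s, .A) (c, .A) d ∧ NzA s c d := by
  have hl := Bd.l_pos
  refine ⟨okA (by (clear * - h1 h2; linarith)) (by (clear * - h1 h2; linarith)) (Or.inl (by rw [abs_of_pos h1]; exact h2)), ?_⟩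
  unfold NzA
  split_ifs
  · exact ⟨sne (by linarith) (by linarith) (by linarith),
      sne (by (clear * - h1 h2; linarith)) (by (clear * - h1 h2; linarith)) (by (clear * - h1 h2; linarith)),
      sne (by (clear * - h1 h2; linarith)) (by (clear * - h1 h2; linarith)) (by (clear * - h1 h2; linarith))⟩
  · exact sne (by (clear * - h1 h2; linarith)) (by linarith) (by linarith)

theorem re_posL6 (j t : ℝ) : (posL j t).re = (1 - j) * l := by
  unfold posL
  exact NUO.vl_re59 _ _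

theorem re_posT6 (t : ℝ) : (posT t).re = -(1 / 2 * l) := by
  unfold posT
  exact NUO.vl_re59 _ _

theorem re_posS6 (e t : ℝ) : (posS e t).re = -((1 + e) * l) := by
  unfold posS
  exact NUO.vl_re59 _ _

theorem re_posB6 (e t : ℝ) : (posB e t).re = (1 - e) * l := by
  rw [PHK.posB_eq, re_posL6]

theorem okP_parts6 {δ : ℝ} {P : Par6} (h : StP δ P) (x : Xo) (s : Bool) :
    ∀ p ∈ parts6 P x, OkP6 δ s p := by
  have hl := Bd.l_pos
  have d0 := h.d0
  have d1 := h.d1
  have o1 := h.o1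
  have o1' := h.o1'
  have o2 := h.o2
  have o2' := h.o2'
  have oe := h.oe
  have oe' := h.oe'
  have oL := h.oL
  have oL' := h.oL'
  -- a quantum or a hole at offset `j`
  have hH : ∀ j : ℝ, δ < j → j + δ < 1 → ∀ v ∈ Ks6 δ, ∀ c : Bool,
      Ok (s, .A) (c, .A) (v - (1 - j) * l) ∧ NzA s c (v - (1 - j) * l) := by
    intro j h1 h2 v hv c
    refine okN ?_ ?_
    · (clear * - hv hl h1; nlinarith [hv.1])
    · (clear * - hv hl h2; nlinarith [hv.2])
  intro p hp
  unfold parts6 at hp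
  rcases hk : k6 x with _ | _ | _ | _ | _ | _ <;> simp only [hk] at hp
  · simp only [List.mem_cons, List.not_mem_nil, or_false] at hp
    subst hp
    refine ⟨fun v hv => ?_, Or.inl (by norm_num)⟩
    show Ok (s, .A) (sp x, .A) (v - (posL P.jL (ht x)).re)
    rw [re_posL6]
    refine okA ?_ ?_ (Or.inr ?_)
    · (clear * - hv hl d0 o1 o1' oL; nlinarith [hv.1])
    · (clear * - hv hl oL'; nlinarith [hv.2])
    · (clear * - hv hl oL; nlinarith [hv.1])
  · simp only [List.mem_cons, List.not_mem_nil, or_false] at hp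
    subst hp
    refine ⟨fun v hv => ?_, Or.inl (by norm_num)⟩
    show Ok (s, .A) (sp x, .S) (v - (posT (ht x)).re)
    rw [re_posT6]
    refine okS ?_ ?_ ?_
    · (clear * - hl hv d1; nlinarith [hv.1])
    · (clear * - hl hv d1; nlinarith [hv.2])
    · have : v - -(1 / 2 * l) < 2 * l := by (clear * - hl hv d1; nlinarith [hv.2])
      exact this.ne
  all_goals
    have hS : ∀ v ∈ Ks6 δ, Ok (s, .A) (sp x, .S) (v - (posS P.e (ht x)).re) := by
      intro v hv
      rw [re_posS6]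
      refine okS ?_ ?_ ?_
      · (clear * - hv hl d0 o1 o1' oe; nlinarith [hv.1])
      · (clear * - hv hl oe'; nlinarith [hv.2])
      · have : 2 * l < v - -((1 + P.e) * l) := by (clear * - hv hl oe; nlinarith [hv.1])
        exact this.ne'
  · simp only [List.mem_cons, List.not_mem_nil, or_false] at hp
    rcases hp with rfl | rfl
    · exact ⟨hS, Or.inl (by norm_num)⟩
    · refine ⟨fun v hv => ?_, Or.inl (by norm_num)⟩
      show Ok (s, .A) (!sp x, .A) (v - (posB P.e (ht x)).re)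
      rw [re_posB6]
      exact (hH _ oe oe' v hv _).1
  · simp only [List.mem_cons, List.not_mem_nil, or_false] at hp
    rcases hp with rfl | rfl | rfl
    · exact ⟨hS, Or.inl (by norm_num)⟩
    · refine ⟨fun v hv => ?_, Or.inl (by norm_num)⟩
      show Ok (s, .A) (!sp x, .A) (v - (posB P.e (ht x)).re)
      rw [re_posB6]
      exact (hH _ oe oe' v hv _).1
    · refine ⟨fun v hv => ?_, Or.inr ⟨rfl, fun v hv => ?_⟩⟩
      · show Ok (s, .A) (sp x, .A) (v - (posB P.e (ht x)).re)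
        rw [re_posB6]
        exact (hH _ oe oe' v hv _).1
      · show NzA s (sp x) (v - (posB P.e (ht x)).re)
        rw [re_posB6]
        exact (hH _ oe oe' v hv _).2
  · simp only [List.mem_cons, List.not_mem_nil, or_false] at hp
    subst hp
    refine ⟨fun v hv => ?_, Or.inr ⟨rfl, fun v hv => ?_⟩⟩
    · show Ok (s, .A) (sp x, .A) (v - (posL P.j1 (ht x)).re)
      rw [re_posL6]
      exact (hH _ o1 o1' v hv _).1
    · show NzA s (sp x) (v - (posL P.j1 (ht x)).re)
      rw [re_posL6]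
      exact (hH _ o1 o1' v hv _).2
  · simp only [List.mem_cons, List.not_mem_nil, or_false] at hp
    subst hp
    refine ⟨fun v hv => ?_, Or.inr ⟨rfl, fun v hv => ?_⟩⟩
    · show Ok (s, .A) (sp x, .A) (v - (posL P.j2 (ht x)).re)
      rw [re_posL6]
      exact (hH _ o2 o2' v hv _).1
    · show NzA s (sp x) (v - (posL P.j2 (ht x)).re)
      rw [re_posL6]
      exact (hH _ o2 o2' v hv _).2

/-! ### the field of a configuration -/

variable {r : ℕ}

theorem measurable_potO6 (P : Par6) (s : Bool) :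
    Measurable fun p : (Fin r → Xo) × ℂ => potO6 P p.1 s p.2 := by
  have h : ∀ i : Fin r, Measurable fun p : (Fin r → Xo) × ℂ => potC6 P (p.1 i) s p.2 := by
    intro i
    have h1 : Measurable fun p : (Fin r → Xo) × ℂ => ((p.1 i, p.2) : Xo × ℂ) :=
      ((measurable_pi_apply i).comp measurable_fst).prodMk measurable_snd
    have h2 := (measurable_potC6 P s).comp h1
    exact h2
  have h3 := Finset.measurable_prod (Finset.univ : Finset (Fin r)) fun i _ => h i
  exact h3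

theorem meas_potO6 (P : Par6) (O : Fin r → Xo) (s : Bool) : Measurable (potO6 P O s) := by
  have h1 : Measurable fun z : ℂ => ((O, z) : (Fin r → Xo) × ℂ) :=
    (measurable_const (a := O)).prodMk measurable_id
  have h2 := (measurable_potO6 P s).comp h1
  exact h2

theorem diff_potO6 {δ : ℝ} {P : Par6} (h : StP δ P) (O : Fin r → Xo) (s : Bool) {u : ℂ}
    (hu : u.re ∈ Ks6 δ) : DifferentiableAt ℂ (potO6 P O s) u := by
  unfold potO6 potC6
  exact DifferentiableAt.fun_finsetProd fun i _ => diff_list6 (okP_parts6 h (O i) s) hu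

/-- the rates -/
theorem rt_parts6 (s : Bool) (P : Par6) (x : Xo) : ((parts6 P x).map (rtP6 s)).sum =
    (if s then 2 else -2) * ((chg6 true x : ℝ) - chg6 false x) := by
  unfold parts6 chg6
  rcases hk : k6 x with _ | _ | _ | _ | _ | _ <;> rcases hsp : sp x with _ | _ <;> cases s <;>
    simp [rtP6, rt, sc, obB, NUP1.Bd.chg] <;> norm_num

theorem rt_conf6 (s : Bool) (P : Par6) (O : Fin r → Xo) :
    ∑ i, ((parts6 P (O i)).map (rtP6 s)).sum =
      (if s then 2 else -2) * ((chgO6 O true : ℝ) - chgO6 O false) := by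
  simp_rw [rt_parts6]
  rw [← Finset.mul_sum, Finset.sum_sub_distrib]
  unfold chgO6
  push_cast
  rfl

theorem bdd_potO6 {δ : ℝ} {P : Par6} (h : StP δ P) (O : Fin r → Xo) (s : Bool) :
    Bdd (Ks6 δ) ((if s then 2 else -2) * ((chgO6 O true : ℝ) - chgO6 O false)) (potO6 P O s) := by
  rw [← rt_conf6 s P O]
  unfold potO6 potC6
  have : ∀ S : Finset (Fin r), Bdd (Ks6 δ) (∑ i ∈ S, ((parts6 P (O i)).map (rtP6 s)).sum)
      (fun z => ∏ i ∈ S, ppC6 [((s, false, z), 1)] (parts6 P (O i))) := by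
    intro S
    induction S using Finset.induction_on with
    | empty => exact ⟨1, zero_le_one, fun z _ => by simp⟩
    | insert i S hi ih =>
      simp_rw [Finset.sum_insert hi, Finset.prod_insert hi]
      exact (bdd_list6 (okP_parts6 h (O i) s)).mul ih
  exact this univ

/-- no zero and no pole in the strip -/
theorem potO6_ne {δ : ℝ} {P : Par6} (h : PG6 δ P) (O : Fin r → Xo) (s : Bool) {ζ : ℂ}
    (hζ : |ζ.im| < δ * NUMF.l) : potO6 P O s (NUMF.l + I * ζ) ≠ 0 := by
  rw [← norm_pos_iff, norm_potO6]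
  exact Finset.prod_pos fun i _ => potN6_pos h O i s hζ

/-! ### the curves -/

/-- a curve `Re u = l - η`, `|η| ≤ δ l` -/
structure CrvR6 (δ : ℝ) (η η' : ℝ → ℝ) : Prop where
  hd : ∀ t, HasDerivAt η (η' t) t
  hc : Continuous η'
  h1 : ∀ t, |η t| ≤ δ * l
  hb : ∃ B, ∀ t, |η' t| ≤ B

theorem CrvR6.crv {δ : ℝ} {η η' : ℝ → ℝ} (h : CrvR6 δ η η') (hδ : 0 ≤ δ) :
    Crv ((1 - δ) * l) ((1 + δ) * l) l (dA η) (dA η') := by
  have hl := Bd.l_pos
  have him : ∀ t, (dA η t).im = η t := fun t => by unfold dA; simp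
  obtain ⟨B, hB⟩ := h.hb
  refine ⟨fun t => ?_, ?_, ⟨max (δ * l) B, le_max_of_le_left (by positivity), fun t => ⟨?_, ?_⟩⟩,
    ⟨?_, ?_⟩, fun t => ?_, fun t => ?_⟩
  · exact (h.hd t).ofReal_comp.mul_const I
  · unfold dA
    exact (continuous_ofReal.comp h.hc).mul continuous_const
  · unfold dA
    rw [norm_mul, norm_I, mul_one, Complex.norm_real, Real.norm_eq_abs]
    exact (h.h1 t).trans (le_max_left _ _)
  · unfold dA
    rw [norm_mul, norm_I, mul_one, Complex.norm_real, Real.norm_eq_abs]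
    exact le_max_of_le_right (hB t)
  · nlinarith
  · (clear * - hδ hl; nlinarith)
  · rw [him]
    have := (abs_le.1 (h.h1 t)).2
    linarith
  · rw [him]
    have := (abs_le.1 (h.h1 t)).1
    linarith

theorem pA_mem6 {δ : ℝ} {η η' : ℝ → ℝ} (h : CrvR6 δ η η') (t : ℝ) : (pA η t).re ∈ Ks6 δ := by
  unfold pA
  rw [vl_re59]
  obtain ⟨h0, h1⟩ := abs_le.1 (h.h1 t)
  exact ⟨by linarith, by linarith⟩

theorem crvR6_of {ep : ℝ} {η η' : ℝ → ℝ} (hη : NUCR.CurB ep η η') : CrvR6 (ep / 4) η η' :=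
  ⟨hη.hd, hη.hc, fun t => (hη.h1 t).trans (le_of_eq (by ring)), hη.hb⟩

open PLX in
theorem CrvR6.cv [Fil] {δ : ℝ} {η η' : ℝ → ℝ} (h : CrvR6 δ η η') (a : Bool) :
    CrvR6 δ (Fil.cv a η) (Fil.cv a η') where
  hd t := Fil.hasDerivAt_cv a (h.hd t)
  hc := Fil.continuous_cv a h.hc
  h1 t := Fil.abs_cv_le_of (h.h1 t)
  hb := Fil.bdd_cv a h.hb

/-- the positive gas with general one body functions and two curves -/
def ZG6 (G G' : ℂ → ℂ) (P : Par6) (η η' ζ ζ' : ℝ → ℝ) (O : Fin r → Xo) (a b : ℕ) : ℝ≥0∞ :=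
  ((a.factorial : ℝ≥0∞) * b.factorial)⁻¹ * ∫⁻ x : (Fin a → ℝ) × (Fin b → ℝ),
    ENNReal.ofReal (NU42.WO (dA η) (dA η') (dA ζ) (dA ζ') (qG6 G P η O true)
      (qG6 G' P ζ O false) x.1 x.2)

/-- **the one body functions in the field of the objects are regular in the strip** -/
theorem reg_pot6 {δ : ℝ} {P : Par6} (hP : StP δ P) (O : Fin r → Xo) {κ : ℝ} {Q : ℤ} {G G' : ℂ → ℂ}
    (m1 : Measurable G) (m2 : Measurable G')
    (d1 : ∀ u : ℂ, u.re ∈ Ks6 δ → DifferentiableAt ℂ G u)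
    (d2 : ∀ u : ℂ, u.re ∈ Ks6 δ → DifferentiableAt ℂ G' u)
    (b1 : Bdd (Ks6 δ) (-(κ + 2 * Q)) G) (b2 : Bdd (Ks6 δ) (-(κ - 2 * Q)) G') {a b : ℕ}
    (hn : ((a : ℤ) + chgO6 O true) - ((b : ℤ) + chgO6 O false) = Q) :
    Reg p0 κ ((1 - δ) * l) ((1 + δ) * l) ((a : ℤ) - b)
      (g2 (fun z => G z * potO6 P O true z) (fun z => G' z * potO6 P O false z)) := by
  have hQ : ((a : ℝ) - b) = Q + (chgO6 O false : ℝ) - chgO6 O true := by
    rw [← hn]
    push_cast
    ring
  have r1 := bdd_potO6 hP O true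
  have r2 := bdd_potO6 hP O false
  simp only [if_true] at r1
  simp only [Bool.false_eq_true, if_false] at r2
  have B1 := (b1.mul r1).rate (s' := -(κ + 2 * (((a : ℤ) - b : ℤ) : ℝ))) (by
    push_cast
    linarith)
  have B2 := (b2.mul r2).rate (s' := -(κ - 2 * (((a : ℤ) - b : ℤ) : ℝ))) (by
    push_cast
    clear * - hQ
    linarith)
  exact reg_p0 (m1.mul (meas_potO6 P O true)) (m2.mul (meas_potO6 P O false))
    (fun u h1 h2 => (d1 u ⟨h1, h2⟩).mul (diff_potO6 hP O true ⟨h1, h2⟩))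
    (fun u h1 h2 => (d2 u ⟨h1, h2⟩).mul (diff_potO6 hP O false ⟨h1, h2⟩))
    (DecOn_of_Bdd B1 le_rfl) (DecOn_of_Bdd B2 le_rfl)

/-- **Step II, total charge `Q`** -/
theorem gas_pot_leQ6 {δ : ℝ} {P : Par6} (hP : StP δ P) {η η' ζ ζ' : ℝ → ℝ} (hη : CrvR6 δ η η')
    (hζ : CrvR6 δ ζ ζ') (O : Fin r → Xo) {κ : ℝ} (hκ : 0 < κ) {Q : ℤ} {G G' : ℂ → ℂ}
    (m1 : Measurable G) (m2 : Measurable G')
    (d1 : ∀ u : ℂ, u.re ∈ Ks6 δ → DifferentiableAt ℂ G u)
    (d2 : ∀ u : ℂ, u.re ∈ Ks6 δ → DifferentiableAt ℂ G' u)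
    (b1 : Bdd (Ks6 δ) (-(κ + 2 * Q)) G) (b2 : Bdd (Ks6 δ) (-(κ - 2 * Q)) G') {a b : ℕ}
    (hn : ((a : ℤ) + chgO6 O true) - ((b : ℤ) + chgO6 O false) = Q) :
    ‖gas a b l (fun z => G z * potO6 P O true z) (fun z => G' z * potO6 P O false z)‖ₑ ≤
      ZG6 G G' P η η' ζ ζ' O a b := by
  have hl := Bd.l_pos
  have hδ0 := hP.d0
  have hδ1 := hP.d1
  have hg := reg_pot6 hP O m1 m2 d1 d2 b1 b2 hn
  obtain ⟨hI, hle⟩ := gas_le hκ (by (clear * - hl hδ1; nlinarith)) (hη.crv hδ0) (hζ.crv hδ0) a b hg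
  simp only [pos_pA] at hI hle
  have hq1 : qG6 G P η O true = fun t => (2 * Real.pi)⁻¹ *
      ‖G (pA η t) * potO6 P O true (pA η t)‖ := by
    funext t
    unfold qG6
    rw [norm_mul, norm_potO6]
    ring
  have hq2 : qG6 G' P ζ O false =
      fun t => (2 * Real.pi)⁻¹ * ‖G' (pA ζ t) * potO6 P O false (pA ζ t)‖ := by
    funext t
    unfold qG6
    rw [norm_mul, norm_potO6]
    ring
  unfold ZG6
  rw [hq1, hq2]
  simp_rw [WO_smul]
  rw [← ofReal_integral_eq_lintegral_ofReal]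
  · have e1 : ((a.factorial : ℝ≥0∞) * b.factorial)⁻¹ =
        ENNReal.ofReal (((a.factorial : ℝ) * b.factorial)⁻¹) := by
      rw [ENNReal.ofReal_inv_of_pos (by positivity), ENNReal.ofReal_mul (by positivity),
        ENNReal.ofReal_natCast, ENNReal.ofReal_natCast]
    rw [e1, ← ENNReal.ofReal_mul (by positivity), ← ofReal_norm]
    refine ENNReal.ofReal_le_ofReal (hle.trans (le_of_eq ?_))
    rw [integral_const_mul]
    have h2pi : (2 * Real.pi) ^ (a + b) ≠ 0 := by positivity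
    have hf : ((a.factorial : ℝ) * b.factorial) ≠ 0 := by positivity
    rw [inv_pow, mul_inv, mul_assoc]
    rfl
  · exact hI.const_mul _
  · refine Filter.Eventually.of_forall fun x => ?_
    exact mul_nonneg (by positivity) (NU42.WO_nonneg _ _ _ _ (fun _ => norm_nonneg _)
      (fun _ => norm_nonneg _) _ _)

end PHK

end
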