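import Pool.Agent.PHK.Basic
import Pool.Agent.PLX.NUGC.GasQ

/-!
# (P): the one body functions of a class are bounded by its one body data

`OneC6 Z B P ep κ x0 Q E`: the landed `OneC` for the lines of (P): the one body functions `Z` at `L`,
`T`, at the strings `E`, `F`, at the points `b`; **their inverses at the points `b` and on the lines of
the holes**; `Q` = total charge (quanta X minus quanta Y), `E` = null set of heights.
-/

set_option autoImplicit false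

noncomputable section

open Complex MeasureTheory Finset
open scoped ENNReal

namespace PHK

open NUO NUP1 NUCR NUP1S NUP1S.Ab NUP1S.AbC NUGC.PLX

/-- **the one body functions `Z` of a class are bounded by the one body data `B`** -/
structure OneC6 (Z : Bool → Option O3 → ℂ → ℂ) (B : OB) (P : Par6) (ep κ x0 : ℝ) (Q : ℤ)
    (E : Set ℝ) : Prop where
  kpos : 0 < κ
  nn : B.Nn
  nul : volume E = 0
  meas : ∀ s k, Measurable (Z s k)
  L : ∀ s t, t ∉ E → ‖Z s (some .L) (posL P.jL t)‖ ≤ wq6 B s (posL P.jL t)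
  T : ∀ s t, t ∉ E → ‖Z s (some .T) (posT t)‖ ≤ (B.R s (posT t) * B.R s (posT t - NUP1.l)) *
    ‖B.φ s (posT t) * B.φ s (posT t - NUP1.l) - B.φ0 s (posT t)‖
  S : ∀ s t, t ∉ E → ‖Z s (some .S) (posS P.e t)‖ ≤
    (B.R s (posS P.e t) * B.R s (posS P.e t - NUP1.l)) * ‖B.φ0 s (posS P.e t)‖
  V : ∀ s t, t ∉ E → ‖Z s none (posB P.e t)‖ ≤ wq6 B s (posB P.e t)
  F : ∀ s t, t ∉ E → ‖(Z s none (posB P.e t))⁻¹‖ ≤ (wq6 B s (posB P.e t))⁻¹
  H1 : ∀ s t, t ∉ E → ‖(Z s none (posL P.j1 t))⁻¹‖ ≤ (wq6 B s (posL P.j1 t))⁻¹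
  H2 : ∀ s t, t ∉ E → ‖(Z s none (posL P.j2 t))⁻¹‖ ≤ (wq6 B s (posL P.j2 t))⁻¹
  A : ∀ s (u : ℂ), u.re ∈ Ks (ep / 4) → ‖Z s none u‖ ≤ B.R s u * ‖B.φ s u‖
  x1 : x0 ≤ 19 / 20 * NUP1.l
  dA : ∀ s (u : ℂ), x0 ≤ u.re → u.re ≤ (1 + ep / 4) * NUP1.l → DifferentiableAt ℂ (Z s none) u
  bA : ∀ s, Bdd (Set.Icc x0 ((1 + ep / 4) * NUP1.l)) (-(κ + 2 * (sg s * Q : ℤ))) (Z s none)

/-- almost every configuration avoids a null set of heights -/
theorem ae_ht6 {r : ℕ} {E : Set ℝ} (hE : volume E = 0) :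
    ∀ᵐ O : Fin r → Xo ∂(Measure.pi fun _ => nu), ∀ i, ht (O i) ∉ E := by
  have h1 : ∀ᵐ x : Xo ∂nu, ht x ∉ E := by
    have e1 : ∀ᵐ y : ℝ × ℝ ∂((volume : Measure ℝ).prod
        ((volume : Measure ℝ).restrict (Set.Ioc 0 1))), y.1 ∉ E :=
      Measure.quasiMeasurePreserving_fst.ae (measure_eq_zero_iff_ae_notMem.1 hE)
    have e2 : ∀ᵐ x : Xo ∂((Measure.count : Measure (Bool × NUO.Kind)).prod
        ((volume : Measure ℝ).prod ((volume : Measure ℝ).restrict (Set.Ioc 0 1)))), x.2.1 ∉ E :=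
      Measure.quasiMeasurePreserving_snd.ae e1
    exact e2
  rw [MeasureTheory.ae_all_iff]
  intro i
  exact (Measure.tendsto_eval_ae_ae (μ := fun _ : Fin r => nu) (i := i)).eventually h1

end PHK

end
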