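import Pool.Agent.PHK.Cst6
import Pool.Agent.PHK.GasPot
import Pool.Agent.PHK.OneC

/-!
# (P): the gas of quanta in the field of the objects as an integral over the curves

Strip `Ks6 δ`, curves `CrvR6 δ`, condition `StP δ P` (`PHK/GasPot`).

* **`gas_crv6`**: general one body functions and two curves: the gas on the line `Re u = l` is
  `(a! b!)⁻¹` times the integral of the complex integrand over the curves; integrability;
* `QOk6`: the one body functions of the quanta of a class are regular in the strip (charge `Q`);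
  `QOk6.of`, `QOk6.of_oneC`, `QOk6.mono`, `QOk6.sub`, `CrvR6.sub`, `CrvR6.toR`, `StP.sub`;
* `gK_int6`, `integrable_gK6`, `gas_gK6`, `integrable_gK6_mul`, `nA6_hn`, **`trm6_one`**: the functional of
  `PHK/FDef6`.
-/

set_option autoImplicit false
set_option linter.unusedSectionVars false

noncomputable section

open Complex MeasureTheory Finset
open scoped ENNReal

open PLX (Fil)

namespace PHK

open NUO NUP1 NUP1S NUP1S.Ab NUP1S.AbC NUGC NUGC.PLX NUCR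
open PBF.PLX (gK Ins Crs QOk)

variable {r : ℕ}

/-! ### general one body functions, two curves -/

/-- **The gas in the field of the objects = the integral over two curves.** -/
theorem gas_crv6 {P : Par6} {δ : ℝ} (hP : StP δ P) {η η' ζ ζ' : ℝ → ℝ}
    (hη : CrvR6 δ η η') (hζ : CrvR6 δ ζ ζ') (O : Fin r → Xo) {κ : ℝ} (hκ : 0 < κ) {Q : ℤ}
    {G G' : ℂ → ℂ} (m1 : Measurable G) (m2 : Measurable G')
    (d1 : ∀ u : ℂ, u.re ∈ Ks6 δ → DifferentiableAt ℂ G u)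
    (d2 : ∀ u : ℂ, u.re ∈ Ks6 δ → DifferentiableAt ℂ G' u)
    (b1 : Bdd (Ks6 δ) (-(κ + 2 * Q)) G) (b2 : Bdd (Ks6 δ) (-(κ - 2 * Q)) G') {a b : ℕ}
    (hn : ((a : ℤ) + chgO6 O true) - ((b : ℤ) + chgO6 O false) = Q) :
    Integrable (fun x : (Fin a → ℝ) × (Fin b → ℝ) =>
      Fc p0 (g2 (fun z => G z * potO6 P O true z) (fun z => G' z * potO6 P O false z))
        (cCt a b (crvC true NUP1.l (dA η) (dA η')) (crvC false NUP1.l (dA ζ) (dA ζ')))
        (Sum.elim x.1 x.2)) ∧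
    gas a b NUP1.l (fun z => G z * potO6 P O true z) (fun z => G' z * potO6 P O false z) =
      ((a.factorial : ℂ) * b.factorial)⁻¹ * ∫ x : (Fin a → ℝ) × (Fin b → ℝ),
        Fc p0 (g2 (fun z => G z * potO6 P O true z) (fun z => G' z * potO6 P O false z))
          (cCt a b (crvC true NUP1.l (dA η) (dA η')) (crvC false NUP1.l (dA ζ) (dA ζ')))
          (Sum.elim x.1 x.2) := by
  have hl := Bd.l_pos
  have h0 := hP.d0
  have h1 := hP.d1
  have hg := reg_pot6 hP O m1 m2 d1 d2 b1 b2 hn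
  have CX := hη.crv h0
  have CY := hζ.crv h0
  have ht := CX.tau
  have G0 : Geo p0 κ ((1 - δ) * NUP1.l) ((1 + δ) * NUP1.l) :=
    geo_p0 hκ (ht.1.trans ht.2) (by nlinarith)
  have cX : CrvOk p0 ((1 - δ) * NUP1.l) ((1 + δ) * NUP1.l) true NUP1.l (dA η) (dA η') :=
    ⟨_, _, CX, le_rfl, le_rfl, fun p hp => by simp [p0] at hp⟩
  have cY : CrvOk p0 ((1 - δ) * NUP1.l) ((1 + δ) * NUP1.l) false NUP1.l (dA ζ) (dA ζ') :=
    ⟨_, _, CY, le_rfl, le_rfl, fun p hp => by simp [p0] at hp⟩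
  obtain ⟨hI, hN⟩ := NI_two G0 (cX.ok G0) (cY.ok G0) rfl rfl a b hg
  refine ⟨hI, ?_⟩
  rw [gas_eq_ZZc G0 ht.1 ht.2 a b hg, ZZ_crv G0 cX cY a b hg, hN, mul_inv]
  rfl

/-! ### the one body functions of a class -/

/-- **the one body functions of the quanta of a class are regular in the strip** `Ks6 δ`, rate
`κ > 0`, total charge `Q` -/
structure QOk6 (Z : Bool → Option O3 → ℂ → ℂ) (δ κ : ℝ) (Q : ℤ) : Prop where
  kpos : 0 < κ
  m : ∀ s, Measurable (Z s none)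
  d : ∀ s (u : ℂ), u.re ∈ Ks6 δ → DifferentiableAt ℂ (Z s none) u
  b : ∀ s, Bdd (Ks6 δ) (-(κ + 2 * (sg s * Q : ℤ))) (Z s none)

/-- a smaller set of real parts -/
theorem bdd_sub {K K' : Set ℝ} {s : ℝ} {g : ℂ → ℂ} (h : Bdd K s g) (hs : K' ⊆ K) : Bdd K' s g := by
  obtain ⟨C, hC, h⟩ := h
  exact ⟨C, hC, fun z hz => h z (hs hz)⟩

theorem Ks6_sub {δ : ℝ} (hδ : δ ≤ 1 / 20) : Ks6 δ ⊆ Ks δ := by
  have hl := Bd.l_pos
  exact Set.Icc_subset_Icc (by nlinarith) le_rfl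

/-- the landed classes -/
theorem QOk6.of {Z : Bool → Option O3 → ℂ → ℂ} {δ κ : ℝ} {Q : ℤ} (h : QOk Z δ κ Q)
    (hδ : δ ≤ 1 / 20) : QOk6 Z δ κ Q :=
  ⟨h.kpos, h.m, fun s u hu => h.d s u (Ks6_sub hδ hu), fun s => bdd_sub (h.b s) (Ks6_sub hδ)⟩

theorem QOk6.of_oneC {Z : Bool → Option O3 → ℂ → ℂ} {B : OB} {P : Par6} {ep κ x0 : ℝ} {Q : ℤ}
    {E : Set ℝ} (h : OneC6 Z B P ep κ x0 Q E) (hep : ep ≤ 1 / 5) : QOk6 Z (ep / 4) κ Q := by
  have hl := Bd.l_pos
  have hx := h.x1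
  have hsub : Ks6 (ep / 4) ⊆ Set.Icc x0 ((1 + ep / 4) * NUP1.l) :=
    Set.Icc_subset_Icc (by nlinarith) le_rfl
  exact ⟨h.kpos, fun s => h.meas s none, fun s u hu => h.dA s u (hsub hu).1 (hsub hu).2,
    fun s => bdd_sub (h.bA s) hsub⟩

theorem QOk6.mono {Z : Bool → Option O3 → ℂ → ℂ} {δ κ κ' : ℝ} {Q : ℤ} (h : QOk6 Z δ κ Q)
    (h0 : 0 < κ') (h1 : κ' ≤ κ) : QOk6 Z δ κ' Q where
  kpos := h0
  m := h.m
  d := h.d
  b s := by
    obtain ⟨C, hC, hb⟩ := h.b s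
    refine ⟨C, hC, fun z hz => (hb z hz).trans (mul_le_mul_of_nonneg_left
      (Real.exp_le_exp.2 (mul_le_mul_of_nonneg_right (by linarith) (abs_nonneg _))) hC)⟩

theorem QOk6.sub {Z : Bool → Option O3 → ℂ → ℂ} {δ δ' κ : ℝ} {Q : ℤ} (h : QOk6 Z δ κ Q)
    (hδ : δ' ≤ δ) : QOk6 Z δ' κ Q := by
  have hl := Bd.l_pos
  have hsub : Ks6 δ' ⊆ Ks6 δ := Set.Icc_subset_Icc (by nlinarith) (by nlinarith)
  exact ⟨h.kpos, h.m, fun s u hu => h.d s u (hsub hu), fun s => bdd_sub (h.b s) hsub⟩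

theorem CrvR6.sub {δ δ' : ℝ} {η η' : ℝ → ℝ} (h : CrvR6 δ' η η') (hδ : δ' ≤ δ) : CrvR6 δ η η' :=
  ⟨h.hd, h.hc, fun t => (h.h1 t).trans (mul_le_mul_of_nonneg_right hδ Bd.l_pos.le), h.hb⟩

/-- the landed class of curves -/
theorem CrvR6.toR {δ : ℝ} {η η' : ℝ → ℝ} (h : CrvR6 δ η η') (hδ : δ ≤ 1 / 20) : CrvR δ η η' where
  hd := h.hd
  hc := h.hc
  h0 t := by
    have := (abs_le.1 (h.h1 t)).1
    linarith
  h1 t := by
    have hl := Bd.l_pos
    have := (abs_le.1 (h.h1 t)).2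
    nlinarith
  hb := h.hb

theorem StP.sub {δ δ' : ℝ} {P : Par6} (h : StP δ P) (h0 : 0 ≤ δ') (hδ : δ' ≤ δ) : StP δ' P := by
  obtain ⟨a1, a2, a3, a4, a5, a6, a7, a8, a9, a10⟩ := h
  exact ⟨h0, by linarith, by linarith, by linarith, by linarith, by linarith, by linarith,
    by linarith, by linarith, by linarith⟩

/-! ### the functional -/

variable {Z : Bool → Option O3 → ℂ → ℂ} {P : Par6} {δ κ : ℝ} {Q : ℤ}

variable [Fil]

/-- **the gas of the quanta of a configuration on the curves** -/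
theorem gK_int6 (h : QOk6 Z δ κ Q) (hP : StP δ P) {η η' : ℝ → ℝ} (hη : CrvR6 δ η η')
    (O : Fin r → Xo) {a b : ℕ}
    (hn : ((a : ℤ) + chgO6 O true) - ((b : ℤ) + chgO6 O false) = Q) :
    Integrable (fun x : (Fin a → ℝ) × (Fin b → ℝ) => gK (gF6 Z P O) η η' a b x) ∧
    gas a b NUP1.l (fun z => Z true none z * potO6 P O true z)
      (fun z => Z false none z * potO6 P O false z) =
      ((a.factorial : ℂ) * b.factorial)⁻¹ *
        ∫ x : (Fin a → ℝ) × (Fin b → ℝ), gK (gF6 Z P O) η η' a b x := by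
  have e1 : (((sg true * Q : ℤ)) : ℝ) = Q := by simp [sg]
  have e2 : (((sg false * Q : ℤ)) : ℝ) = -(Q : ℝ) := by simp [sg]
  have e3 : gF6 Z P O = g2 (fun z => Z true none z * potO6 P O true z)
      (fun z => Z false none z * potO6 P O false z) := by
    funext s z
    cases s <;> rfl
  have h0 := gas_crv6 hP (hη.cv true) (hη.cv false) O h.kpos (h.m true) (h.m false) (h.d true)
    (h.d false) ((h.b true).rate (by rw [e1])) ((h.b false).rate (by rw [e2]; ring)) hn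
  unfold PBF.PLX.gK
  rw [e3]
  exact h0

theorem integrable_gK6 (h : QOk6 Z δ κ Q) (hP : StP δ P) {η η' : ℝ → ℝ} (hη : CrvR6 δ η η')
    (O : Fin r → Xo) {a b : ℕ}
    (hn : ((a : ℤ) + chgO6 O true) - ((b : ℤ) + chgO6 O false) = Q) :
    Integrable (fun x : (Fin a → ℝ) × (Fin b → ℝ) => gK (gF6 Z P O) η η' a b x) :=
  (gK_int6 h hP hη O hn).1

theorem gas_gK6 (h : QOk6 Z δ κ Q) (hP : StP δ P) {η η' : ℝ → ℝ} (hη : CrvR6 δ η η')
    (O : Fin r → Xo) {a b : ℕ}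
    (hn : ((a : ℤ) + chgO6 O true) - ((b : ℤ) + chgO6 O false) = Q) :
    gas a b NUP1.l (fun z => Z true none z * potO6 P O true z)
      (fun z => Z false none z * potO6 P O false z) =
      ((a.factorial : ℂ) * b.factorial)⁻¹ *
        ∫ x : (Fin a → ℝ) × (Fin b → ℝ), gK (gF6 Z P O) η η' a b x :=
  (gK_int6 h hP hη O hn).2

/-- bounded measurable insertions -/
theorem integrable_gK6_mul (h : QOk6 Z δ κ Q) (hP : StP δ P) {η η' : ℝ → ℝ} (hη : CrvR6 δ η η')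
    (O : Fin r → Xo) {a b : ℕ}
    (hn : ((a : ℤ) + chgO6 O true) - ((b : ℤ) + chgO6 O false) = Q)
    {f : (Fin a → ℝ) × (Fin b → ℝ) → ℂ} (hf : AEStronglyMeasurable f) {C : ℝ}
    (hC : ∀ x, ‖f x‖ ≤ C) :
    Integrable (fun x : (Fin a → ℝ) × (Fin b → ℝ) => gK (gF6 Z P O) η η' a b x * f x) :=
  (integrable_gK6 h hP hη O hn).mul_bdd (c := C) hf (Filter.Eventually.of_forall hC)

/-- the numbers of quanta of a term -/
theorem nA6_hn {n n' : ℕ} {O : Fin r → Xo} (hc : chgO6 O true ≤ n ∧ chgO6 O false ≤ n' ∧ cnt6 O)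
    (hn : (n : ℤ) - n' = Q) :
    ((nA6 n O true : ℕ) + chgO6 O true) - ((nA6 n' O false : ℕ) + chgO6 O false) = Q := by
  unfold nA6
  have h1 := hc.1
  have h2 := hc.2.1
  omega

/-- **the term of a configuration without insertion does not depend on the curve** -/
theorem trm6_one (h : QOk6 Z δ κ Q) (hP : StP δ P) {η η' : Crs}
    (O : Fin r → Xo) (hη : CrvR6 δ (η r O) (η' r O)) {n n' : ℕ} (hn : (n : ℤ) - n' = Q) :
    trm6 Z P n n' η η' (fun _ _ _ _ _ => 1) r O =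
      if chgO6 O true ≤ n ∧ chgO6 O false ≤ n' ∧ cnt6 O then
        wK6 Z P O * gas (nA6 n O true) (nA6 n' O false) NUP1.l
          (fun z => Z true none z * potO6 P O true z) (fun z => Z false none z * potO6 P O false z)
      else 0 := by
  unfold trm6
  split_ifs with hc
  · rw [gas_gK6 h hP hη O (nA6_hn hc hn)]
    simp only [mul_one]
  · rfl

end PHK

end
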