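import Pool.Agent.PHK.MIns6
import Pool.Agent.PB.F0

/-!
# The particle-hole form (P): linear statistics inside the functional

* `CBd6`: the one body function is bounded at all constituents; `FA6_mul_lt`, `norm_Fa6_tw_le`,
  `norm_stA6_le`;
* **`hasDerivAt_FF6`**: the derivative at `ε = 0` of `FF6 (tw Z a ε) Ψ` is `FF6 Z (Ψ * stA6 a)`.
-/

set_option autoImplicit false
set_option linter.unusedSectionVars false

noncomputable section

open Complex MeasureTheory Finset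
open scoped ENNReal

open PLX (Fil)

namespace PHK

open NUO NUP1 NUCR NUP1S NUP1S.Ab NUP1S.AbC NUGC NUGC.PLX PBFunc PBFunc.PLX
open PBF.PLX (gK Ins Crs MCr MIn Zm quF stQ)
open PBI (Stt tw)

variable [Fil]

/-! ### bounded statistics -/

/-- the one body function is bounded by `C` at all constituents of the configurations with at most
`N` objects -/
def CBd6 (s : Stt) (P : Par6) (η : Crs) (N : ℕ) (C : ℝ) : Prop :=
  ∀ r ≤ N, ∀ (O : Fin r → Xo) (a b : ℕ) (x : (Fin a → ℝ) × (Fin b → ℝ)),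
    ∀ c ∈ csA6 P (η r O) O x, ‖s c.1.1.1 c.1.1.2 c.1.2‖ ≤ C

theorem CBd6.apz {s : Stt} {P : Par6} {η : Crs} {N : ℕ} {C : ℝ} (h : CBd6 s P η N C) {r : ℕ}
    (hr : r ≤ N) (O : Fin r → Xo) {a b : ℕ} (x : (Fin a → ℝ) × (Fin b → ℝ)) :
    ∀ z ∈ (csA6 P (η r O) O x).map (PHK.apz s), ‖z.1‖ ≤ C := by
  intro z hz
  rw [List.mem_map] at hz
  obtain ⟨c, hc, rfl⟩ := hz
  exact h r hr O a b x c hc

section deriv

variable {Z s : Stt} {P : Par6} {n n' : ℕ} {η η' : Crs} {Ψ : Ins} {C : ℝ}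

/-- finiteness with a bounded factor -/
theorem FA6_mul_lt (hM : MC6 Z P η η') (hΨ : MIn Ψ) (hf : FA6 Z P n n' η η' Ψ < ∞) {Φ : Ins}
    (hΦ : MIn Φ) {K : ℝ} (hK : ∀ r ≤ 2 * (n + n'), ∀ (O : Fin r → Xo) (a b : ℕ), a ≤ n → b ≤ n' →
      ∀ (x : (Fin a → ℝ) × (Fin b → ℝ)), ‖Φ r O a b x‖ ≤ K) :
    FA6 Z P n n' η η' (fun r O a b x => Ψ r O a b x * Φ r O a b x) < ∞ := by
  have hm : MIn (fun r O a b x => Ψ r O a b x * Φ r O a b x) := fun r a b => (hΨ r a b).mul (hΦ r a b)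
  rw [FA6_eq hM hm]
  rw [FA6_eq hM hΨ] at hf
  refine lt_of_le_of_lt (b := ENNReal.ofReal K *
    ∫⁻ c, ‖wC6 Z P n n' η η' c‖ₑ * ‖ev6 Ψ c‖ₑ ∂(mC6 n n')) ?_ (ENNReal.mul_lt_top
      ENNReal.ofReal_lt_top hf)
  rw [← lintegral_const_mul' _ _ ENNReal.ofReal_ne_top]
  refine lintegral_mono fun c => ?_
  have h1 : ‖ev6 (n := n) (n' := n') (fun r O a b x => Ψ r O a b x * Φ r O a b x) c‖ₑ =
      ‖ev6 Ψ c‖ₑ * ‖ev6 Φ c‖ₑ := enorm_mul _ _
  have h2 : ‖ev6 Φ c‖ₑ ≤ ENNReal.ofReal K := by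
    rw [← ofReal_norm]
    refine ENNReal.ofReal_le_ofReal (hK _ ?_ _ _ _ ?_ ?_ _)
    · have := c.1.1.2
      omega
    · have := c.1.2.1.2
      omega
    · have := c.1.2.2.2
      omega
  rw [h1]
  calc ‖wC6 Z P n n' η η' c‖ₑ * (‖ev6 Ψ c‖ₑ * ‖ev6 Φ c‖ₑ)
      = ‖ev6 Φ c‖ₑ * (‖wC6 Z P n n' η η' c‖ₑ * ‖ev6 Ψ c‖ₑ) := by ring
    _ ≤ _ := mul_le_mul' h2 le_rfl

theorem tz_csA6_9 {r : ℕ} (hr : r ≤ 2 * (n + n')) (O : Fin r → Xo) {a b : ℕ} (ha : a ≤ n)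
    (hb : b ≤ n') (η : ℝ → ℝ) (x : (Fin a → ℝ) × (Fin b → ℝ)) :
    tz ((csA6 P η O x).map (apz s)) ≤ 9 * (n + n') := by
  rw [tz_apz]
  have := tz_csA6_le P η O x
  omega

theorem norm_Fa6_tw_le (hB : CBd6 s P η (2 * (n + n')) C) {ε : ℂ} (hε : ‖ε‖ * C ≤ 1 / 2)
    {r : ℕ} (hr : r ≤ 2 * (n + n')) (O : Fin r → Xo) {a b : ℕ} (ha : a ≤ n) (hb : b ≤ n')
    (x : (Fin a → ℝ) × (Fin b → ℝ)) :
    ‖Fa6 (fun c k z => 1 + ε * s c k z) P η r O a b x‖ ≤ 2 ^ (9 * (n + n')) := by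
  rw [Fa6_tw]
  exact (norm_lz_le (hB.apz hr O x) hε).trans
    (pow_le_pow_right₀ (by norm_num) (tz_csA6_9 hr O ha hb _ x))

theorem norm_stA6_le (hB : CBd6 s P η (2 * (n + n')) C)
    {r : ℕ} (hr : r ≤ 2 * (n + n')) (O : Fin r → Xo) {a b : ℕ} (ha : a ≤ n) (hb : b ≤ n')
    (x : (Fin a → ℝ) × (Fin b → ℝ)) (hC : 0 ≤ C) :
    ‖stA6 s P η r O a b x‖ ≤ (9 * (n + n') : ℕ) * C := by
  rw [stA6_wz]
  refine (norm_wz_le (hB.apz hr O x)).trans (mul_le_mul_of_nonneg_right ?_ hC)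
  exact_mod_cast tz_csA6_9 hr O ha hb _ x

/-- **the derivative at `ε = 0` is the insertion of the statistic** -/
theorem hasDerivAt_FF6 (hZ : ∀ s k, Measurable (Z s k))
    (hc : MCr η η') (hΨ : MIn Ψ) (hf : FA6 Z P n n' η η' Ψ < ∞) (hs : ∀ c k, Measurable (s c k))
    (hC : 0 ≤ C) (hB : CBd6 s P η (2 * (n + n')) C) :
    HasDerivAt (fun ε : ℂ => FF6 (tw Z s ε) P n n' η η' Ψ)
      (FF6 Z P n n' η η' fun r O a b x => Ψ r O a b x * stA6 s P η r O a b x) 0 := by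
  have hM : MC6 Z P η η' := MC6.of hZ hc
  have hI := WI_of6 hM hΨ hf
  have key := hasDerivAt_Fz (μ := mC6 n n') (w := wC6 Z P n n' η η') (O := ev6 Ψ) hI
    (L := fun c => (csA6 P (η c.1.1 c.2.1) c.2.1 c.2.2).map (apz s)) (N := 9 * (n + n'))
    (C := C) hC
    (fun c => by
      have h2 := c.1.1.2
      have h3 := c.1.2.1.2
      have h4 := c.1.2.2.2
      exact tz_csA6_9 (by omega) _ (by omega) (by omega) _ _)
    (fun c => by
      have h2 := c.1.1.2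
      exact hB.apz (by omega) _ _)
    (fun ε => by
      have h1 : MIn (Fa6 (fun c k z => 1 + ε * s c k z) P η) :=
        MIn.Fa6 (fun c k => ((hs c k).const_mul ε).const_add 1) hc
      refine (congrArg (fun f => AEStronglyMeasurable f (mC6 n n')) (funext fun c => ?_)).mpr
        (MIn.ev6 h1).aestronglyMeasurable
      exact (Fa6_tw s ε P η c.2.1 c.2.2).symm)
    (by
      have h1 : MIn (stA6 s P η) := MIn.stA6 hs hc
      refine (congrArg (fun f => AEStronglyMeasurable f (mC6 n n')) (funext fun c => ?_)).mpr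
        (MIn.ev6 h1).aestronglyMeasurable
      exact (stA6_wz s P η c.2.1 c.2.2).symm)
  have hmS : MIn fun r O a b x => Ψ r O a b x * stA6 s P η r O a b x := fun r a b =>
    (hΨ r a b).mul (MIn.stA6 hs hc r a b)
  have hfS := FA6_mul_lt hM hΨ hf (MIn.stA6 (P := P) hs hc)
    (fun r hr O a b ha hb x => norm_stA6_le hB hr O ha hb x hC)
  refine (key.congr_deriv ?_).congr_of_eventuallyEq ?_
  · rw [FF6_eq hM hmS hfS]
    unfold F
    refine integral_congr_ae (Filter.Eventually.of_forall fun c => ?_)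
    show wC6 Z P n n' η η' c * (ev6 Ψ c * wz ((csA6 P (η c.1.1 c.2.1) c.2.1 c.2.2).map (apz s))) =
      wC6 Z P n n' η η' c * (Ψ _ _ _ _ _ * stA6 s P η _ _ _ _ _)
    rw [stA6_wz]
    rfl
  · have hr : (0 : ℝ) < 1 / (2 * (C + 1)) := by positivity
    have hball : Metric.ball (0 : ℂ) (1 / (2 * (C + 1))) ∈ nhds (0 : ℂ) :=
      Metric.ball_mem_nhds _ hr
    filter_upwards [hball] with ε hε
    have hε' : ‖ε‖ * C ≤ 1 / 2 := by
      rw [Metric.mem_ball, dist_zero_right] at hε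
      have h1 : ‖ε‖ * C ≤ 1 / (2 * (C + 1)) * (C + 1) :=
        mul_le_mul hε.le (by linarith) hC hr.le
      have h2 : 1 / (2 * (C + 1)) * (C + 1) = 1 / 2 := by
        field_simp
      linarith
    have h1 : MIn (Fa6 (fun c k z => 1 + ε * s c k z) P η) :=
      MIn.Fa6 (fun c k => ((hs c k).const_mul ε).const_add 1) hc
    have hm : MIn fun r O a b x => Ψ r O a b x *
        Fa6 (fun c k z => 1 + ε * s c k z) P η r O a b x := fun r a b => (hΨ r a b).mul (h1 r a b)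
    have hf1 := FA6_mul_lt hM hΨ hf h1
      (fun r hr O a b ha hb x => norm_Fa6_tw_le hB hε' hr O ha hb x)
    have e1 : FF6 (tw Z s ε) P n n' η η' Ψ = FF6 Z P n n' η η' fun r O a b x =>
        Ψ r O a b x * Fa6 (fun c k z => 1 + ε * s c k z) P η r O a b x := by
      have := FF6_mul Z (fun c k z => 1 + ε * s c k z) P n n' η η' Ψ
      refine Eq.trans ?_ (this.trans ?_)
      · rfl
      · congr 1
        funext r O a b x
        ring
    rw [e1, FF6_eq hM hm hf1]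
    unfold F
    refine integral_congr_ae (Filter.Eventually.of_forall fun c => ?_)
    show wC6 Z P n n' η η' c * (Ψ _ _ _ _ _ * Fa6 (fun c k z => 1 + ε * s c k z) P η _ _ _ _ _) =
      wC6 Z P n n' η η' c * (ev6 Ψ c * lz ((csA6 P (η c.1.1 c.2.1) c.2.1 c.2.2).map (apz s)) ε)
    rw [Fa6_tw]
    rfl

end deriv

/-! ### the moduli with multiplicative insertions -/

theorem wC6_mul (Z g : Stt) (P : Par6) (n n' : ℕ) (η η' : Crs) (c : Cf6 n n') :
    wC6 (Zm Z g) P n n' η η' c = wC6 Z P n n' η η' c * ev6 (Fa6 g P η) c := by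
  unfold wC6 wP6 ev6
  split_ifs
  · rw [wK6_mul, gK6_mul]
    unfold Fa6
    ring
  · rw [zero_mul]

theorem FA6_tw_lt {Z a : Stt} {P : Par6} {n n' : ℕ} {η η' : Crs} {C : ℝ}
    (hZ : ∀ s k, Measurable (Z s k))
    (hc : MCr η η') {Ψ : Ins} (hΨ : MIn Ψ) (hf : FA6 Z P n n' η η' Ψ < ∞)
    (ha : ∀ c k, Measurable (a c k)) (hB : CBd6 a P η (2 * (n + n')) C) {ε : ℂ}
    (hε : ‖ε‖ * C ≤ 1 / 2) : FA6 (tw Z a ε) P n n' η η' Ψ < ∞ := by
  have hM : MC6 Z P η η' := MC6.of hZ hc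
  have hm1 : ∀ c k, Measurable fun z => 1 + ε * a c k z := fun c k =>
    ((ha c k).const_mul ε).const_add 1
  have hF : MIn (Fa6 (fun c k z => 1 + ε * a c k z) P η) := MIn.Fa6 hm1 hc
  have hf1 := FA6_mul_lt hM hΨ hf hF
    (fun r hr O m m' hm hm' x => norm_Fa6_tw_le hB hε hr O hm hm' x)
  have e1 : FA6 (tw Z a ε) P n n' η η' Ψ = FA6 Z P n n' η η' fun r O a' b x =>
      Ψ r O a' b x * Fa6 (fun c k z => 1 + ε * a c k z) P η r O a' b x := by
    have := FA6_mul Z (fun c k z => 1 + ε * a c k z) P n n' η η' Ψ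
    refine Eq.trans ?_ (this.trans ?_)
    · rfl
    · congr 1
      funext r O a' b x
      ring
  rw [e1]
  exact hf1

end PHK

end
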