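import Pool.Agent.PHK.F0Ln6
import Pool.Agent.PHK.InsFF6
import Pool.Agent.PHK.ClsCrv6
import Pool.Agent.PLX.PB.InsTwo

/-!
# The particle-hole form (P): products of linear statistics, straight lines = curves

* `ClZ6`: the class of one body data (analytic, decaying on boxes of lines, inverse in the strip of the
  holes); `ClZ6.tw`: it is closed under `tw`, `‖ε‖ C ≤ 1/2`;
* `InsQ6`: the data of the transfer; its field `cls` is the class formula without insertion;
* **`ins_listA6`**: `F0 Z (∏ St a) = FF6 Z (∏ stA6 a)` for every list of admissible statistics;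
  `ins_zero6`, `ins_one6`, `ins_two6`.
-/

set_option autoImplicit false
set_option linter.unusedSectionVars false

noncomputable section

open Complex MeasureTheory Finset
open scoped ENNReal

open PLX (Fil)

namespace PHK

open NUO NUP1 NUCR NUP1S NUP1S.Ab NUP1S.AbC NUGC NUGC.PLX PBFunc PBFunc.PLX
open PBF.PLX (gK Ins Crs MCr MIn Zm quF stQ decOn_mul bdd_mul norm_tw_le pSt)
open PBI (Stt tw F0)
open NUP1.Bd (Ob)

/-! ### the class -/

/-- **the class of one body data** (`x0` is not used) -/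
structure ClZ6 (Z : Stt) (P : Par6) (_x0 κ κ' δ : ℝ) (Q : ℤ) : Prop where
  m : ∀ s k, Measurable (Z s k)
  q : QOk6 Z δ κ' Q
  dec : ∀ s o, DecOn (κ + 2 * Q * sc (s, ob4 o)) (Set.Icc (loB P o) (hiB P o)) (Z s o)
  dif : ∀ s o (u : ℂ), u.re ∈ Set.Icc (loB P o) (hiB P o) → DifferentiableAt ℂ (Z s o) u
  S : ∀ s (N : ℕ), DecOn (N : ℝ) {-((1 + P.e) * l)} (Z s (some .S))
  inv : ∃ κh del : ℝ, κh < 6 ∧ 0 < del ∧
    (∀ s, Bdd (Set.Icc ((1 - P.j2) * l) ((1 - P.j1) * l)) (κh + 2 * Q * sc (s, Ob.A))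
      fun u => (Z s none u)⁻¹) ∧
    (∀ s (u : ℂ), (1 - P.j2) * l - del < u.re → u.re < (1 - P.j1) * l + del →
      DifferentiableAt ℂ (fun u => (Z s none u)⁻¹) u) ∧
    ∀ s (u : ℂ), 51 / 100 * l ≤ u.re → u.re < (1 - P.j1) * l + del → Z s none u ≠ 0

variable {Z a : Stt} {P : Par6} {x0 κ κ' δ C : ℝ} {Q : ℤ} {n n' : ℕ} {η η' : Crs}

theorem one_tw_ne {z ε : ℂ} (hz : ‖z‖ ≤ C) (hε : ‖ε‖ * C ≤ 1 / 2) : 1 + ε * z ≠ 0 :=
  one_add_ne hz hε

theorem norm_inv_tw {z ε : ℂ} (hz : ‖z‖ ≤ C) (hε : ‖ε‖ * C ≤ 1 / 2) : ‖(1 + ε * z)⁻¹‖ ≤ 2 := by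
  rw [norm_inv]
  calc ‖1 + ε * z‖⁻¹ ≤ (1 / 2 : ℝ)⁻¹ := inv_anti₀ (by norm_num) (one_add_mem hz hε).1
    _ = 2 := by norm_num

/-- **the class is closed under `tw`** -/
theorem ClZ6.tw (h : ClZ6 Z P x0 κ κ' δ Q) (ha : Adm6 a P x0 δ C) (hG : GoodP6 P)
    (hj : P.j2 ≤ 7 / 8) (hS : StP δ P) {ε : ℂ} (hε : ‖ε‖ * C ≤ 1 / 2) :
    ClZ6 (PBI.tw Z a ε) P x0 κ κ' δ Q := by
  have hl := Bd.l_pos
  have hδ0 := hS.d0
  have hδ1 := hS.d1
  have g1 := hG.j1
  have g2 := hG.j1e
  have g3 := hG.ej2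
  have g6 := hG.e13
  have hle : l ≤ (1 + δ) * l := by nlinarith
  have hx1 : 99 / 800 * l ≤ (1 - δ) * l := by nlinarith
  obtain ⟨κh, del, k1, d0, hH, hF, hN⟩ := h.inv
  refine ⟨fun s k => (h.m s k).mul (((ha.m s k).const_mul ε).const_add 1),
    ⟨h.q.kpos, fun s => ?_, fun s u hu => ?_, fun s => ?_⟩, fun s o => ?_, fun s o u hu => ?_,
    fun s N => ?_,
    κh, min del (1 / 800 * l), k1, lt_min d0 (by positivity), fun s => ?_, fun s u h1 h2 => ?_,
    fun s u h1 h2 => ?_⟩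
  · exact (h.q.m s).mul (((ha.m s none).const_mul ε).const_add 1)
  · exact (h.q.d s u hu).mul (((ha.d s u (hx1.trans hu.1) hu.2).const_mul ε).const_add 1)
  · exact bdd_mul (h.q.b s) (B := 1 + ‖ε‖ * C) fun z hz =>
      norm_tw_le (ha.A s z (hx1.trans hz.1) hz.2) ε
  · refine decOn_mul (h.dec s o) (B := 1 + ‖ε‖ * C) fun z hz => norm_tw_le ?_ ε
    rcases o with _ | o
    · refine ha.A s z (le_trans ?_ hz.1) (hz.2.trans hle)
      show 99 / 800 * l ≤ 51 / 100 * l
      nlinarith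
    · exact ha.bO s o z hz
  · refine (h.dif s o u hu).mul ?_
    rcases o with _ | o
    · refine ((ha.d s u (le_trans ?_ hu.1) (hu.2.trans hle)).const_mul ε).const_add 1
      show 99 / 800 * l ≤ 51 / 100 * l
      nlinarith
    · exact ((ha.dO s o u hu).const_mul ε).const_add 1
  · refine decOn_mul (h.S s N) (B := 1 + ‖ε‖ * C) fun z hz => norm_tw_le (ha.bO s .S z ?_) ε
    rw [Set.mem_singleton_iff] at hz
    rw [hz]
    refine ⟨le_rfl, ?_⟩
    show -((1 + P.e) * l) ≤ -(5 / 4 * l)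
    nlinarith
  · have e : (fun u => (PBI.tw Z a ε s none u)⁻¹) =
        fun u => (Z s none u)⁻¹ * (1 + ε * a s none u)⁻¹ := by
      funext u
      exact mul_inv _ _
    rw [e]
    refine bdd_mul (hH s) (B := 2) fun z hz => norm_inv_tw (ha.A s z ?_ ?_) hε
    · have := hz.1
      nlinarith
    · have := hz.2
      nlinarith
  · have m1 : min del (1 / 800 * l) ≤ del := min_le_left _ _
    have m2 : min del (1 / 800 * l) ≤ 1 / 800 * l := min_le_right _ _
    have u1 : 99 / 800 * l ≤ u.re := by nlinarith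
    have u2 : u.re ≤ (1 + δ) * l := by nlinarith
    have e : (fun u => (PBI.tw Z a ε s none u)⁻¹) =
        fun u => (Z s none u)⁻¹ * (1 + ε * a s none u)⁻¹ := by
      funext u
      exact mul_inv _ _
    rw [e]
    refine (hF s u (by linarith) (by linarith)).mul ?_
    exact (((ha.d s u u1 u2).const_mul ε).const_add 1).inv (one_tw_ne (ha.A s u u1 u2) hε)
  · have m1 : min del (1 / 800 * l) ≤ del := min_le_left _ _
    have m2 : min del (1 / 800 * l) ≤ 1 / 800 * l := min_le_right _ _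
    have u1 : 99 / 800 * l ≤ u.re := by nlinarith
    have u2 : u.re ≤ (1 + δ) * l := by nlinarith
    exact mul_ne_zero (hN s u h1 (by linarith)) (one_tw_ne (ha.A s u u1 u2) hε)

/-- admissible statistics are bounded on straight lines in the boxes -/
theorem Adm6.sok (ha : Adm6 a P x0 δ C) (hδ0 : 0 ≤ δ) {L : PBI.Lns} {y0 : ℝ} {n n' : ℕ}
    (hw : PBI.AllW y0 n n' L fun c x => ∀ i, x i ∈ Set.Icc (loB P (c i).2) (hiB P (c i).2)) :
    PBI.SOk y0 n n' L a := by
  have hl := Bd.l_pos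
  have hle : l ≤ (1 + δ) * l := by nlinarith
  refine ⟨|C|, abs_nonneg _, fun p p' k k' h1 h2 => ⟨ha.m, fun i t => ?_⟩⟩
  have h3 := hw p p' k k' h1 h2 i
  refine le_trans ?_ (le_abs_self C)
  generalize PBI.cl n n' k k' i = c at h3 ⊢
  obtain ⟨s, o⟩ := c
  have e : (vl ((L.all y0 n n' k k') i) t).re = (L.all y0 n n' k k') i := NUO.vl_re59 _ _
  rcases o with _ | o
  · refine ha.A s _ ?_ ?_
    · rw [e]
      refine le_trans ?_ h3.1
      show 99 / 800 * l ≤ 51 / 100 * l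
      nlinarith
    · rw [e]
      exact h3.2.trans hle
  · refine ha.bO s o _ ?_
    rw [e]
    exact h3

variable [Fil]

/-- admissible statistics are bounded at all constituents -/
theorem Adm6.cbd (ha : Adm6 a P x0 δ C) (h : GoodP6 P) (hj : P.j2 ≤ 7 / 8) (hL : P.jL ≤ 9 / 4)
    (hS : StP δ P) {N : ℕ} (hη : ∀ r ≤ N, ∀ O, CrvR6 δ (η r O) (η' r O)) : CBd6 a P η N C := by
  have hl := Bd.l_pos
  have hδ0 := hS.d0
  have hδ1 := hS.d1
  have g1 := h.j1
  have g2 := h.j1e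
  have g3 := h.ej2
  have g6 := h.e13
  have g7 := h.e45
  have hx1 : 99 / 800 * l ≤ (1 - δ) * l := by nlinarith
  have hq : ∀ (s : Bool) (j : ℝ) (u : ℂ), u.re = (1 - j) * l → 0 ≤ j → j ≤ 7 / 8 →
      ‖a s none u‖ ≤ C := by
    intro s j u e h1 h2
    refine ha.A s _ ?_ ?_
    · rw [e]
      nlinarith
    · rw [e]
      nlinarith
  have hb : ∀ (s : Bool) (t : ℝ), ‖a s none (posB P.e t)‖ ≤ C := by
    intro s t
    refine hq s P.e _ ?_ (by linarith) (by linarith)
    unfold posB posS vl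
    simp
    ring
  have hSS : ∀ (s : Bool) (t : ℝ), ‖a s (some .S) (posS P.e t)‖ ≤ C := by
    intro s t
    refine ha.bO s .S _ ?_
    have e : (posS P.e t).re = -((1 + P.e) * l) := NUO.vl_re59 _ _
    rw [e]
    refine ⟨le_rfl, ?_⟩
    show -((1 + P.e) * l) ≤ -(5 / 4 * l)
    nlinarith
  intro r hr O m m' x c hc
  rw [mem_csA6] at hc
  rcases hc with ⟨i, hc⟩ | ⟨i, rfl⟩ | ⟨i, rfl⟩
  · rcases hk : k6 (O i) with _ | _ | _ | _ | _ | _
    · rw [cst6_L P hk] at hc
      simp only [List.mem_cons, List.not_mem_nil, or_false] at hc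
      subst hc
      refine ha.bO _ .L _ ?_
      have e : (posL P.jL (ht (O i))).re = (1 - P.jL) * l := NUO.vl_re59 _ _
      rw [e]
      refine ⟨?_, le_rfl⟩
      show -(5 / 4 * l) ≤ (1 - P.jL) * l
      nlinarith
    · rw [cst6_T P hk] at hc
      simp only [List.mem_cons, List.not_mem_nil, or_false] at hc
      subst hc
      refine ha.bO _ .T _ ?_
      have e : (posT (ht (O i))).re = -(1 / 2 * l) := NUO.vl_re59 _ _
      rw [e]
      exact ⟨le_rfl, le_rfl⟩
    · rw [cst6_E P hk] at hc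
      simp only [List.mem_cons, List.not_mem_nil, or_false] at hc
      rcases hc with rfl | rfl
      · exact hSS _ _
      · exact hb _ _
    · rw [cst6_F P hk] at hc
      simp only [List.mem_cons, List.not_mem_nil, or_false] at hc
      rcases hc with rfl | rfl | rfl
      · exact hSS _ _
      · exact hb _ _
      · exact hb _ _
    · rw [cst6_H1 P hk] at hc
      simp only [List.mem_cons, List.not_mem_nil, or_false] at hc
      subst hc
      exact hq _ P.j1 _ (NUO.vl_re59 _ _) (by linarith) (by linarith)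
    · rw [cst6_H2 P hk] at hc
      simp only [List.mem_cons, List.not_mem_nil, or_false] at hc
      subst hc
      exact hq _ P.j2 _ (NUO.vl_re59 _ _) (by linarith) hj
  · have h1 := pA_mem6 ((hη r hr O).cv true) (x.1 i)
    exact ha.A true _ (hx1.trans h1.1) h1.2
  · have h1 := pA_mem6 ((hη r hr O).cv false) (x.2 i)
    exact ha.A false _ (hx1.trans h1.1) h1.2

/-! ### products of statistics -/

/-- product of the statistics on the curves -/
def pStA6 (L : List Stt) (P : Par6) (η : Crs) : Ins := fun r O m m' x =>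
  (L.map fun a => stA6 a P η r O m m' x).prod

/-- **the data of the transfer**: `x0`, `L` are the straight lines; `cls`, `ok` are the class
formula without insertion -/
structure InsQ6 (L : PBI.Lns) (P : Par6) (x0 κ κ' δ : ℝ) (Q : ℤ) (n n' : ℕ) (η η' : Crs) :
    Prop where
  hG : GoodP6 P
  hj : P.j2 ≤ 7 / 8
  hL : P.jL ≤ 9 / 4
  hS : StP δ P
  hc : MCr η η'
  hη : ∀ r ≤ 2 * (n + n'), ∀ O, CrvR6 δ (η r O) (η' r O)
  hw : PBI.AllW x0 n n' L fun c x => ∀ i, x i ∈ Set.Icc (loB P (c i).2) (hiB P (c i).2)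
  cls : ∀ Z : Stt, ClZ6 Z P x0 κ κ' δ Q →
    F0 x0 n n' L Z (fun _ _ _ _ => 1) = FF6 Z P n n' η η' (fun _ _ _ _ _ => 1)
  ok : ∀ Z : Stt, ClZ6 Z P x0 κ κ' δ Q → PBI.F0Ok x0 n n' L Z fun _ _ _ _ => 1

variable {L : PBI.Lns}

/-- **Products of linear statistics: straight lines = curves.** -/
theorem ins_listA6 (h : InsQ6 L P x0 κ κ' δ Q n n' η η') {A : List Stt}
    (hA : ∀ a ∈ A, AdS6 P x0 δ a) {Z : Stt} (hZ : ClZ6 Z P x0 κ κ' δ Q)
    (hf : FA6 Z P n n' η η' (fun _ _ _ _ _ => 1) < ∞) :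
    F0 x0 n n' L Z (pSt A) = FF6 Z P n n' η η' (pStA6 A P η) ∧
      PBI.F0Ok x0 n n' L Z (pSt A) ∧ MIn (pStA6 A P η) ∧
      FA6 Z P n n' η η' (pStA6 A P η) < ∞ := by
  have hl := Bd.l_pos
  have hδ0 := h.hS.d0
  have key : ∀ Z : Stt, ClZ6 Z P x0 κ κ' δ Q → FA6 Z P n n' η η' (fun _ _ _ _ _ => 1) < ∞ →
      F0 x0 n n' L Z (pSt A) = FF6 Z P n n' η η' (pStA6 A P η) ∧
      PBI.F0Ok x0 n n' L Z (pSt A) ∧ MIn (pStA6 A P η) ∧
      FA6 Z P n n' η η' (pStA6 A P η) < ∞ := by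
    clear hZ hf
    induction A with
    | nil =>
      intro Z hZ hf
      exact ⟨h.cls Z hZ, h.ok Z hZ, MIn.one, hf⟩
    | cons a A ih =>
      intro Z hZ hf
      obtain ⟨C, ha⟩ := hA a List.mem_cons_self
      have ih' := ih fun b hb => hA b (List.mem_cons_of_mem _ hb)
      obtain ⟨hE, hOk, hM, hFA⟩ := ih' Z hZ hf
      have hCB := ha.cbd h.hG h.hj h.hL h.hS h.hη
      have hC : 0 ≤ C := (norm_nonneg _).trans (ha.A true ((l : ℝ) : ℂ) (by
        rw [ofReal_re]
        nlinarith) (by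
        rw [ofReal_re]
        nlinarith))
      have hS := ha.sok hδ0 h.hw
      have hd1 := PBI.hasDerivAt_F0 hOk hS
      have hd2 := hasDerivAt_FF6 hZ.m h.hc hM hFA ha.m hC hCB
      have hr : (0 : ℝ) < 1 / (2 * (C + 1)) := by positivity
      have hev : (fun ε : ℂ => F0 x0 n n' L (tw Z a ε) (pSt A)) =ᶠ[nhds 0]
          fun ε => FF6 (tw Z a ε) P n n' η η' (pStA6 A P η) := by
        filter_upwards [Metric.ball_mem_nhds (0 : ℂ) hr] with ε hε
        have hε' : ‖ε‖ * C ≤ 1 / 2 := by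
          rw [Metric.mem_ball, dist_zero_right] at hε
          have h1 : ‖ε‖ * C ≤ 1 / (2 * (C + 1)) * (C + 1) :=
            mul_le_mul hε.le (by linarith) hC hr.le
          have h2 : 1 / (2 * (C + 1)) * (C + 1) = 1 / 2 := by
            field_simp
          linarith
        exact (ih' _ (hZ.tw ha h.hG h.hj h.hS hε')
          (FA6_tw_lt hZ.m h.hc MIn.one hf ha.m hCB hε')).1
      have hun := (hd2.congr_of_eventuallyEq hev).unique hd1
      have e1 : pSt (a :: A) = (fun ι _ c z => pSt A ι c z * PBI.St a ι c z : PBI.Ins) := by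
        funext ι _ c z
        unfold pSt
        rw [List.map_cons, List.prod_cons, mul_comm]
      have e2 : pStA6 (a :: A) P η = (fun r O m m' x => pStA6 A P η r O m m' x *
          stA6 a P η r O m m' x : Ins) := by
        funext r O m m' x
        unfold pStA6
        rw [List.map_cons, List.prod_cons, mul_comm]
      have hM2 : MIn (stA6 a P η) := MIn.stA6 ha.m h.hc
      refine ⟨?_, ?_, ?_, ?_⟩
      · rw [e1, e2]
        exact hun.symm
      · rw [e1]
        exact hOk.mul_St hS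
      · rw [e2]
        exact fun r m m' => (hM r m m').mul (hM2 r m m')
      · rw [e2]
        exact FA6_mul_lt (MC6.of hZ.m h.hc) hM hFA hM2
          (fun r hr O m m' hm hm' x => norm_stA6_le hCB hr O hm hm' x hC)
  exact key Z hZ hf

/-- no statistic -/
theorem ins_zero6 (h : InsQ6 L P x0 κ κ' δ Q n n' η η') (hZ : ClZ6 Z P x0 κ κ' δ Q)
    (_hf : FA6 Z P n n' η η' (fun _ _ _ _ _ => 1) < ∞) :
    F0 x0 n n' L Z (fun _ _ _ _ => 1) = FF6 Z P n n' η η' (fun _ _ _ _ _ => 1) :=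
  h.cls Z hZ

/-- **one statistic** -/
theorem ins_one6 (h : InsQ6 L P x0 κ κ' δ Q n n' η η') (ha : AdS6 P x0 δ a)
    (hZ : ClZ6 Z P x0 κ κ' δ Q) (hf : FA6 Z P n n' η η' (fun _ _ _ _ _ => 1) < ∞) :
    F0 x0 n n' L Z (PBI.St a) = FF6 Z P n n' η η' (stA6 a P η) ∧
      FA6 Z P n n' η η' (stA6 a P η) < ∞ := by
  have key := ins_listA6 h (A := [a]) (fun b hb => by
    rw [List.mem_singleton] at hb
    rw [hb]
    exact ha) hZ hf
  have e1 : pSt [a] = PBI.St a := by
    funext ι _ c z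
    simp [pSt]
  have e2 : pStA6 [a] P η = stA6 a P η := by
    funext r O m m' x
    show ([stA6 a P η r O m m' x] : List ℂ).prod = _
    rw [List.prod_cons, List.prod_nil, mul_one]
  rw [e1, e2] at key
  exact ⟨key.1, key.2.2.2⟩

/-- **two statistics** -/
theorem ins_two6 {b : Stt} (h : InsQ6 L P x0 κ κ' δ Q n n' η η') (ha : AdS6 P x0 δ a)
    (hb : AdS6 P x0 δ b) (hZ : ClZ6 Z P x0 κ κ' δ Q)
    (hf : FA6 Z P n n' η η' (fun _ _ _ _ _ => 1) < ∞) :
    F0 x0 n n' L Z (fun ι _ c z => PBI.St a ι c z * PBI.St b ι c z) =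
      FF6 Z P n n' η η' (fun r O m m' x => stA6 a P η r O m m' x * stA6 b P η r O m m' x) ∧
      FA6 Z P n n' η η' (fun r O m m' x => stA6 a P η r O m m' x * stA6 b P η r O m m' x) < ∞ := by
  have key := ins_listA6 h (A := [a, b]) (fun d hd => by
    simp only [List.mem_cons, List.not_mem_nil, or_false] at hd
    rcases hd with rfl | rfl
    · exact ha
    · exact hb) hZ hf
  have e1 : pSt [a, b] = (fun ι _ c z => PBI.St a ι c z * PBI.St b ι c z : PBI.Ins) := by
    funext ι _ c z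
    simp [pSt]
  have e2 : pStA6 [a, b] P η =
      (fun r O m m' x => stA6 a P η r O m m' x * stA6 b P η r O m m' x : Ins) := by
    funext r O m m' x
    show ([stA6 a P η r O m m' x, stA6 b P η r O m m' x] : List ℂ).prod = _
    rw [List.prod_cons, List.prod_cons, List.prod_nil, mul_one]
  rw [e1, e2] at key
  exact ⟨key.1, key.2.2.2⟩

/-! ### closure of the admissible statistics -/

omit [Fil] in
theorem AdS6.cmul {P : Par6} {x0 δ : ℝ} {a : Stt} (ha : AdS6 P x0 δ a) (c : ℂ) :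
    AdS6 P x0 δ fun s k z => c * a s k z := by
  obtain ⟨C, h⟩ := ha
  have key : ∀ z : ℂ, ‖z‖ ≤ C → ‖c * z‖ ≤ ‖c‖ * C := fun z hz => by
    rw [norm_mul]
    exact mul_le_mul_of_nonneg_left hz (norm_nonneg _)
  exact ⟨‖c‖ * C, fun s k => (h.m s k).const_mul c, fun s u h1 h2 => (h.d s u h1 h2).const_mul c,
    fun s u h1 h2 => key _ (h.A s u h1 h2), fun s o u hu => (h.dO s o u hu).const_mul c,
    fun s o u hu => key _ (h.bO s o u hu)⟩

end PHK

end
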