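import Pool.Agent.PHK.StatN6
import Pool.Agent.PHK.InsTwo6
import Pool.Agent.PLX.PB.RepT

/-!
# (P): quadratic insertions, from the straight lines to the curves

`Z`, `P` fixed, numbers of quanta `n ≤ N`, coefficients `c n`, curves `η n`.

* `F0N6 Ψ = ∑ n ≤ N, c n * F0 x0 n (n + dN N) L Z Ψ`, the straight lines `L` are a variable;
* `TrN6`: the data of the transfer for every `n ≤ N`;
* `VC6 ρ g`: the centred statistic of all constituents on `CfN6 N` (a hole carries `- g`);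
* `F0N6_zero`, `F0N6_one`, `F0N6_two`: insertions `1`, `nuI A`, `nuI A * nuI B`;
* `Chn6`: a kernel which is a superposition of products of admissible statistics;
  **`Chn6.F0N_nuQ`**: `F0N6 (nuQI k) = (1/2) ∫ F (VC6 (A q) * VC6 (B q))`;
* **`F0N6_total`**: the whole insertion of the first Ward identity.
-/

set_option autoImplicit false
set_option linter.unusedSectionVars false
set_option maxHeartbeats 1000000

noncomputable section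

open Complex MeasureTheory Finset
open scoped ENNReal Classical
open PLX (Fil)

namespace PBRep.PLX

open NUP1 hiding Kd
open NUO NUP1S NUP1S.Ab NUP1S.AbC PBFunc PBFunc.PLX PB
open PBF.PLX (gK Ins Crs MCr MIn dN quF stQ hgt hgt_line eP eM qD sgD mD)
open PBI (Stt Kd F0 F0Ok nuI nuQI mnI InD PAll F0_rep nuI_eq)
open PHK

variable [Fil]

/-- the data of the transfer for all numbers of quanta -/
structure TrN6 (Z : Stt) (L : PBI.Lns) (P : Par6) (x0 κ κ' δ : ℝ) (N : ℕ) (η η' : ℕ → Crs) : Prop where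
  ins : ∀ n ≤ N, InsQ6 L P x0 κ κ' δ (-(dN N : ℤ)) n (n + dN N) (η n) (η' n)
  cl : ClZ6 Z P x0 κ κ' δ (-(dN N : ℤ))
  fin : ∀ n ≤ N, FA6 Z P n (n + dN N) (η n) (η' n) (fun _ _ _ _ _ => 1) < ∞

variable {Z : Stt} {L : PBI.Lns} {P : Par6} {x0 κ κ' δ : ℝ} {N : ℕ} {η η' : ℕ → Crs} {c : ℕ → ℂ}

theorem TrN6.mc (h : TrN6 Z L P x0 κ κ' δ N η η') : ∀ n ≤ N, MC6 Z P (η n) (η' n) := fun n hn =>
  MC6.of h.cl.m (h.ins n hn).hc

/-- the sum of the functionals of the straight lines -/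
def F0N6 (Z : Stt) (L : PBI.Lns) (x0 : ℝ) (N : ℕ) (c : ℕ → ℂ) (Ψ : PBI.Ins) : ℂ :=
  ∑ n ∈ range (N + 1), c n * F0 x0 n (n + dN N) L Z Ψ

/-- the weight on the configurations -/
abbrev wT6 (Z : Stt) (P : Par6) (N : ℕ) (η η' : ℕ → Crs) (c : ℕ → ℂ) : CfN6 N → ℂ :=
  wN6 (fun _ => Z) (fun _ => P) N η η' c

/-- centred statistic of all constituents -/
def VC6 (ρ : Kd → ℝ → ℂ) (P : Par6) (η : ℕ → Crs) (g : Kd → ℂ → ℂ) : CfN6 N → ℂ := fun ω =>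
  VA6 (sK g) P η ω - mnI ρ g

/-- centred statistic as an insertion -/
def cI6 (ρ : Kd → ℝ → ℂ) (P : Par6) (η : Crs) (g : Kd → ℂ → ℂ) : Ins := fun r O a b x =>
  stA6 (sK g) P η r O a b x - mnI ρ g

theorem FAN6_lt {Ψ : ℕ → Ins} (h : ∀ n ≤ N, FA6 Z P n (n + dN N) (η n) (η' n) (Ψ n) < ∞) :
    FAN6 (fun _ => Z) (fun _ => P) N η η' c Ψ < ∞ := by
  unfold FAN6
  refine ENNReal.sum_lt_top.2 fun n hn => ?_
  exact ENNReal.mul_lt_top enorm_lt_top (h n (Nat.lt_succ_iff.1 (Finset.mem_range.1 hn)))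

theorem FFN6_F (h : TrN6 Z L P x0 κ κ' δ N η η') {Ψ : ℕ → Ins} (hΨ : ∀ n ≤ N, MIn (Ψ n))
    (hf : ∀ n ≤ N, FA6 Z P n (n + dN N) (η n) (η' n) (Ψ n) < ∞) :
    ∑ n ∈ range (N + 1), c n * FF6 Z P n (n + dN N) (η n) (η' n) (Ψ n) =
      F (mN6 N) (wT6 Z P N η η' c) (evN6 Ψ) :=
  FFN6_eq (Z := fun _ => Z) (P := fun _ => P) h.mc hΨ (FAN6_lt hf)

theorem WI_N6 (h : TrN6 Z L P x0 κ κ' δ N η η') {Ψ : ℕ → Ins} (hΨ : ∀ n ≤ N, MIn (Ψ n))
    (hf : ∀ n ≤ N, FA6 Z P n (n + dN N) (η n) (η' n) (Ψ n) < ∞) :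
    WI (mN6 N) (wT6 Z P N η η' c) (evN6 Ψ) :=
  WIN_of6 (Z := fun _ => Z) (P := fun _ => P) h.mc hΨ (FAN6_lt hf)

theorem MIn_stA6 (h : TrN6 Z L P x0 κ κ' δ N η η') {D : Stt} (hD : ∀ s k, Measurable (D s k))
    {n : ℕ} (hn : n ≤ N) : MIn (stA6 D P (η n)) := by
  exact PHK.MIn.stA6 hD (h.ins n hn).hc

/-! ### one and two statistics, one number of quanta -/

section one

variable {n : ℕ} {ρ : Kd → ℝ → ℂ} {A B : Kd → ℂ → ℂ}

theorem MIn_cI6 (h : TrN6 Z L P x0 κ κ' δ N η η') (hA : AdS6 P x0 δ (sK A)) (hn : n ≤ N) :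
    MIn (cI6 ρ P (η n) A) := by
  obtain ⟨C, hA⟩ := hA
  exact fun r a b => ((MIn_stA6 h hA.m hn) r a b).sub_const _

/-- the total statistic is bounded -/
theorem FA6_stA (h : TrN6 Z L P x0 κ κ' δ N η η') (hA : AdS6 P x0 δ (sK A)) (hn : n ≤ N) :
    FA6 Z P n (n + dN N) (η n) (η' n) (stA6 (sK A) P (η n)) < ∞ :=
  (ins_one6 (h.ins n hn) hA h.cl (h.fin n hn)).2

theorem ok_St6 (h : TrN6 Z L P x0 κ κ' δ N η η') (hA : AdS6 P x0 δ (sK A)) (hn : n ≤ N) :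
    F0Ok x0 n (n + dN N) L Z (PBI.St (sK A)) := by
  have key := (ins_listA6 (h.ins n hn) (A := [sK A]) (fun b hb => by
    rw [List.mem_singleton] at hb
    rw [hb]
    exact hA) h.cl (h.fin n hn)).2.1
  have e1 : PBF.PLX.pSt [sK A] = PBI.St (sK A) := by
    funext ι _ c z
    simp [PBF.PLX.pSt]
  rwa [e1] at key

theorem ok_St26 (h : TrN6 Z L P x0 κ κ' δ N η η') (hA : AdS6 P x0 δ (sK A))
    (hB : AdS6 P x0 δ (sK B)) (hn : n ≤ N) :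
    F0Ok x0 n (n + dN N) L Z (fun ι _ c z => PBI.St (sK A) ι c z * PBI.St (sK B) ι c z) := by
  have key := (ins_listA6 (h.ins n hn) (A := [sK A, sK B]) (fun d hd => by
    simp only [List.mem_cons, List.not_mem_nil, or_false] at hd
    rcases hd with rfl | rfl
    · exact hA
    · exact hB) h.cl (h.fin n hn)).2.1
  have e1 : PBF.PLX.pSt [sK A, sK B] = (fun ι _ c z => PBI.St (sK A) ι c z * PBI.St (sK B) ι c z : PBI.Ins) := by
    funext ι _ c z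
    simp [PBF.PLX.pSt]
  rwa [e1] at key

theorem ok_one6 (h : TrN6 Z L P x0 κ κ' δ N η η') (hn : n ≤ N) :
    F0Ok x0 n (n + dN N) L Z (fun _ _ _ _ => 1) := by
  have key := (ins_listA6 (h.ins n hn) (A := []) (fun b hb => absurd hb List.not_mem_nil) h.cl
    (h.fin n hn)).2.1
  have e1 : PBF.PLX.pSt [] = (fun ι _ c z => 1 : PBI.Ins) := by
    funext ι _ c z
    simp [PBF.PLX.pSt]
  rwa [e1] at key

/-- insertion of one centred statistic -/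
theorem F0_nuI6 (h : TrN6 Z L P x0 κ κ' δ N η η') (hA : AdS6 P x0 δ (sK A)) (hn : n ≤ N) :
    F0Ok x0 n (n + dN N) L Z (nuI ρ A) ∧
    F0 x0 n (n + dN N) L Z (nuI ρ A) = FF6 Z P n (n + dN N) (η n) (η' n) (cI6 ρ P (η n) A) ∧
    FA6 Z P n (n + dN N) (η n) (η' n) (cI6 ρ P (η n) A) < ∞ := by
  obtain ⟨C, hAm⟩ := id hA
  have hM := h.mc n hn
  have o1 := ok_St6 h hA hn
  have o0 := ok_one6 h hn
  have oc := o0.smul (-(mnI ρ A))
  have e0 : nuI ρ A = (fun ι _ c z => PBI.St (sK A) ι c z + -(mnI ρ A) * 1 : PBI.Ins) := by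
    funext ι _ c z
    rw [nuI_eq]
    ring
  have w1 := WI_of6 hM (MIn_stA6 h hAm.m hn) (FA6_stA h hA hn)
  have w0 := WI_of6 hM MIn.one (h.fin n hn)
  have wc := w0.smul (-(mnI ρ A))
  have wt := w1.add wc
  have ec : ev6 (n := n) (n' := n + dN N) (cI6 ρ P (η n) A) = fun ω =>
      ev6 (stA6 (sK A) P (η n)) ω + -(mnI ρ A) * ev6 (fun _ _ _ _ _ => 1) ω := by
    funext ω
    show stA6 (sK A) P (η n) _ _ _ _ _ - mnI ρ A = stA6 (sK A) P (η n) _ _ _ _ _ + -(mnI ρ A) * 1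
    ring
  have hf : FA6 Z P n (n + dN N) (η n) (η' n) (cI6 ρ P (η n) A) < ∞ := by
    rw [FA6_eq hM (MIn_cI6 h hA hn)]
    have := wt.2
    unfold HasFiniteIntegral at this
    rw [← ec] at this
    simpa only [enorm_mul] using this
  refine ⟨?_, ?_, hf⟩
  · rw [e0]
    exact o1.add oc
  · rw [e0, PBI.F0_add o1 oc, PBI.F0_smul, (ins_one6 (h.ins n hn) hA h.cl (h.fin n hn)).1,
      ins_zero6 (h.ins n hn) h.cl (h.fin n hn), FF6_eq hM (MIn_stA6 h hAm.m hn) (FA6_stA h hA hn),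
      FF6_eq hM MIn.one (h.fin n hn), FF6_eq hM (MIn_cI6 h hA hn) hf, ec, F_add w1 wc, F_smul]

/-- **insertion of two centred statistics** -/
theorem F0_nuI26 (h : TrN6 Z L P x0 κ κ' δ N η η') (hA : AdS6 P x0 δ (sK A))
    (hB : AdS6 P x0 δ (sK B)) (hn : n ≤ N) :
    F0Ok x0 n (n + dN N) L Z (fun ι _ c z => nuI ρ A ι c z * nuI ρ B ι c z) ∧
    F0 x0 n (n + dN N) L Z (fun ι _ c z => nuI ρ A ι c z * nuI ρ B ι c z) =
      FF6 Z P n (n + dN N) (η n) (η' n) (fun r O a b x => cI6 ρ P (η n) A r O a b x *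
        cI6 ρ P (η n) B r O a b x) ∧
    FA6 Z P n (n + dN N) (η n) (η' n) (fun r O a b x => cI6 ρ P (η n) A r O a b x *
        cI6 ρ P (η n) B r O a b x) < ∞ := by
  obtain ⟨C, hAm⟩ := id hA
  obtain ⟨C', hBm⟩ := id hB
  have hM := h.mc n hn
  set mA := mnI ρ A with hmA
  set mB := mnI ρ B with hmB
  have o2 := ok_St26 h hA hB hn
  have oA := (ok_St6 h hA hn).smul (-mB)
  have oB := (ok_St6 h hB hn).smul (-mA)
  have o0 := (ok_one6 h hn).smul (mA * mB)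
  have e0 : (fun ι _ c z => nuI ρ A ι c z * nuI ρ B ι c z : PBI.Ins) = (fun ι _ c z =>
      PBI.St (sK A) ι c z * PBI.St (sK B) ι c z + (-mB * PBI.St (sK A) ι c z +
        (-mA * PBI.St (sK B) ι c z + (mA * mB) * 1)) : PBI.Ins) := by
    funext ι _ c z
    rw [nuI_eq, nuI_eq, ← hmA, ← hmB]
    ring
  have t2 := ins_two6 (h.ins n hn) hA hB h.cl (h.fin n hn)
  have MA := MIn_stA6 h hAm.m hn
  have MB := MIn_stA6 h hBm.m hn
  have M2 : MIn (fun r O m m' x => stA6 (sK A) P (η n) r O m m' x * stA6 (sK B) P (η n) r O m m' x) :=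
    fun r a b => (MA r a b).mul (MB r a b)
  have MC2 : MIn (fun r O a b x => cI6 ρ P (η n) A r O a b x * cI6 ρ P (η n) B r O a b x) :=
    fun r a b => (MIn_cI6 h hA hn r a b).mul (MIn_cI6 h hB hn r a b)
  have w2 := WI_of6 hM M2 t2.2
  have wA := (WI_of6 hM MA (FA6_stA h hA hn)).smul (-mB)
  have wB := (WI_of6 hM MB (FA6_stA h hB hn)).smul (-mA)
  have w0 := (WI_of6 hM MIn.one (h.fin n hn)).smul (mA * mB)
  have wt := w2.add (wA.add (wB.add w0))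
  have ec : ev6 (n := n) (n' := n + dN N) (fun r O a b x => cI6 ρ P (η n) A r O a b x *
      cI6 ρ P (η n) B r O a b x) = fun ω =>
      ev6 (fun r O m m' x => stA6 (sK A) P (η n) r O m m' x * stA6 (sK B) P (η n) r O m m' x) ω +
      (-mB * ev6 (stA6 (sK A) P (η n)) ω + (-mA * ev6 (stA6 (sK B) P (η n)) ω +
        (mA * mB) * ev6 (fun _ _ _ _ _ => 1) ω)) := by
    funext ω
    show (stA6 (sK A) P (η n) _ _ _ _ _ - mA) * (stA6 (sK B) P (η n) _ _ _ _ _ - mB) =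
      stA6 (sK A) P (η n) _ _ _ _ _ * stA6 (sK B) P (η n) _ _ _ _ _ +
        (-mB * stA6 (sK A) P (η n) _ _ _ _ _ + (-mA * stA6 (sK B) P (η n) _ _ _ _ _ +
          (mA * mB) * 1))
    ring
  have hf : FA6 Z P n (n + dN N) (η n) (η' n) (fun r O a b x => cI6 ρ P (η n) A r O a b x *
      cI6 ρ P (η n) B r O a b x) < ∞ := by
    rw [FA6_eq hM MC2]
    have := wt.2
    unfold HasFiniteIntegral at this
    rw [← ec] at this
    simpa only [enorm_mul] using this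
  refine ⟨?_, ?_, hf⟩
  · rw [e0]
    exact o2.add (oA.add (oB.add o0))
  · rw [e0, PBI.F0_add o2 (oA.add (oB.add o0)), PBI.F0_add oA (oB.add o0), PBI.F0_add oB o0,
      PBI.F0_smul, PBI.F0_smul, PBI.F0_smul, t2.1,
      (ins_one6 (h.ins n hn) hA h.cl (h.fin n hn)).1, (ins_one6 (h.ins n hn) hB h.cl (h.fin n hn)).1,
      ins_zero6 (h.ins n hn) h.cl (h.fin n hn), FF6_eq hM M2 t2.2,
      FF6_eq hM MA (FA6_stA h hA hn), FF6_eq hM MB (FA6_stA h hB hn), FF6_eq hM MIn.one (h.fin n hn),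
      FF6_eq hM MC2 hf, ec, F_add w2 (wA.add (wB.add w0)), F_add wA (wB.add w0), F_add wB w0,
      F_smul, F_smul, F_smul]

end one

/-! ### sums over the numbers of quanta -/

section sum

variable {ρ : Kd → ℝ → ℂ} {A B : Kd → ℂ → ℂ}

theorem F0N6_zero (h : TrN6 Z L P x0 κ κ' δ N η η') :
    F0N6 Z L x0 N c (fun _ _ _ _ => 1) = F (mN6 N) (wT6 Z P N η η' c) fun _ => 1 := by
  rw [show (fun _ : CfN6 N => (1 : ℂ)) = evN6 fun _ _ _ _ _ _ => 1 from rfl,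
    ← FFN6_F h (fun _ _ => MIn.one) h.fin]
  unfold F0N6
  refine Finset.sum_congr rfl fun n hn => ?_
  have hn' := Nat.lt_succ_iff.1 (Finset.mem_range.1 hn)
  rw [ins_zero6 (h.ins n hn') h.cl (h.fin n hn')]

theorem F0N6_one (h : TrN6 Z L P x0 κ κ' δ N η η') (hA : AdS6 P x0 δ (sK A)) :
    WI (mN6 N) (wT6 Z P N η η' c) (VC6 ρ P η A) ∧
    F0N6 Z L x0 N c (nuI ρ A) = F (mN6 N) (wT6 Z P N η η' c) (VC6 ρ P η A) := by
  have hΨ : ∀ n ≤ N, MIn (cI6 ρ P (η n) A) := fun n hn => MIn_cI6 h hA hn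
  have hf : ∀ n ≤ N, FA6 Z P n (n + dN N) (η n) (η' n) (cI6 ρ P (η n) A) < ∞ := fun n hn =>
    (F0_nuI6 h hA hn).2.2
  refine ⟨WI_N6 h hΨ hf, ?_⟩
  rw [show (VC6 ρ P η A : CfN6 N → ℂ) = evN6 fun n => cI6 ρ P (η n) A from rfl, ← FFN6_F h hΨ hf]
  unfold F0N6
  refine Finset.sum_congr rfl fun n hn => ?_
  have hn' := Nat.lt_succ_iff.1 (Finset.mem_range.1 hn)
  rw [(F0_nuI6 h hA hn').2.1]

/-- **two centred statistics** -/
theorem F0N6_two (h : TrN6 Z L P x0 κ κ' δ N η η') (hA : AdS6 P x0 δ (sK A))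
    (hB : AdS6 P x0 δ (sK B)) :
    WI (mN6 N) (wT6 Z P N η η' c) (fun ω => VC6 ρ P η A ω * VC6 ρ P η B ω) ∧
    F0N6 Z L x0 N c (fun ι _ c z => nuI ρ A ι c z * nuI ρ B ι c z) =
      F (mN6 N) (wT6 Z P N η η' c) (fun ω => VC6 ρ P η A ω * VC6 ρ P η B ω) := by
  have hΨ : ∀ n ≤ N, MIn (fun r O a b x => cI6 ρ P (η n) A r O a b x *
      cI6 ρ P (η n) B r O a b x) := fun n hn r a b =>
    (MIn_cI6 h hA hn r a b).mul (MIn_cI6 h hB hn r a b)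
  have hf : ∀ n ≤ N, FA6 Z P n (n + dN N) (η n) (η' n) (fun r O a b x => cI6 ρ P (η n) A r O a b x *
      cI6 ρ P (η n) B r O a b x) < ∞ := fun n hn => (F0_nuI26 h hA hB hn).2.2
  refine ⟨WI_N6 h hΨ hf, ?_⟩
  rw [show (fun ω : CfN6 N => VC6 ρ P η A ω * VC6 ρ P η B ω) = evN6 fun n r O a b x =>
      cI6 ρ P (η n) A r O a b x * cI6 ρ P (η n) B r O a b x from rfl, ← FFN6_F h hΨ hf]
  unfold F0N6
  refine Finset.sum_congr rfl fun n hn => ?_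
  have hn' := Nat.lt_succ_iff.1 (Finset.mem_range.1 hn)
  rw [(F0_nuI26 h hA hB hn').2.1]

/-! linearity of `F0N6` -/

variable {Ψ Ψ' : PBI.Ins}

/-- admissible insertions for every number of quanta -/
def OkN6 (Z : Stt) (L : PBI.Lns) (x0 : ℝ) (N : ℕ) (Ψ : PBI.Ins) : Prop :=
  ∀ n ≤ N, F0Ok x0 n (n + dN N) L Z Ψ

theorem F0N6_add (h : OkN6 Z L x0 N Ψ) (h' : OkN6 Z L x0 N Ψ') :
    F0N6 Z L x0 N c (fun ι _ k z => Ψ ι k z + Ψ' ι k z) = F0N6 Z L x0 N c Ψ + F0N6 Z L x0 N c Ψ' := by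
  unfold F0N6
  rw [← Finset.sum_add_distrib]
  refine Finset.sum_congr rfl fun n hn => ?_
  have hn' := Nat.lt_succ_iff.1 (Finset.mem_range.1 hn)
  rw [PBI.F0_add (h n hn') (h' n hn')]
  ring

theorem OkN6.add (h : OkN6 Z L x0 N Ψ) (h' : OkN6 Z L x0 N Ψ') :
    OkN6 Z L x0 N (fun ι _ k z => Ψ ι k z + Ψ' ι k z) := fun n hn => (h n hn).add (h' n hn)

theorem OkN6.smul (h : OkN6 Z L x0 N Ψ) (r : ℂ) : OkN6 Z L x0 N (fun ι _ k z => r * Ψ ι k z) :=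
  fun n hn => (h n hn).smul r

theorem F0N6_smul (r : ℂ) :
    F0N6 Z L x0 N c (fun ι _ k z => r * Ψ ι k z) = r * F0N6 Z L x0 N c Ψ := by
  unfold F0N6
  rw [Finset.mul_sum]
  refine Finset.sum_congr rfl fun n _ => ?_
  rw [PBI.F0_smul]
  ring

theorem F0N6_congr (h : ∀ n ≤ N, PBI.AllW x0 n (n + dN N) L fun {ι} _ c x => ∀ t : ι → ℝ,
    Ψ ι c (NUP1S.pos x t) = Ψ' ι c (NUP1S.pos x t)) : F0N6 Z L x0 N c Ψ = F0N6 Z L x0 N c Ψ' := by
  unfold F0N6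
  refine Finset.sum_congr rfl fun n hn => ?_
  have hn' := Nat.lt_succ_iff.1 (Finset.mem_range.1 hn)
  rw [PBI.F0_congr (h n hn')]

end sum

/-! ### superpositions -/

section chn

variable {T : Type*} [MeasurableSpace T] {μ : Measure T} [SFinite μ] {D : Kd → Set ℂ}
  {ρ : Kd → ℝ → ℂ} {k : Kd → Kd → ℂ → ℂ → ℂ} {A B : T → Kd → ℂ → ℂ} {al be : T → ℝ}
  {φ ψ : Kd → ℂ → ℝ}

/-- **a kernel which is a superposition of products of admissible statistics** -/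
structure Chn6 (L : PBI.Lns) (P : Par6) (x0 δ : ℝ) (N : ℕ) (μ : Measure T) (D : Kd → Set ℂ)
    (ρ : Kd → ℝ → ℂ) (k : Kd → Kd → ℂ → ℂ → ℂ) (A B : T → Kd → ℂ → ℂ) (al be : T → ℝ)
    (φ ψ : Kd → ℂ → ℝ) : Prop where
  R : NX.PRep μ D (vl l) ρ k A B al be φ ψ
  hm : ∀ b c x, x ∈ D b → AEStronglyMeasurable (fun u => k b c x (vl l u) * ρ c u) volume
  mA : ∀ b, Measurable fun p : T × ℂ => A p.1 b p.2
  mB : ∀ b, Measurable fun p : T × ℂ => B p.1 b p.2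
  adA : ∀ q, AdS6 P x0 δ (sK (A q))
  adB : ∀ q, AdS6 P x0 δ (sK (B q))
  inD : ∀ n ≤ N, InD x0 n (n + dN N) L D φ ψ

theorem Chn6.qid (h : Chn6 L P x0 δ N μ D ρ k A B al be φ ψ) : NX.QID D (vl l) ρ k := h.R.qid h.hm

theorem Chn6.ok (h : Chn6 L P x0 δ N μ D ρ k A B al be φ ψ) (hT : TrN6 Z L P x0 κ κ' δ N η η') :
    OkN6 Z L x0 N (nuQI ρ k) := fun n hn =>
  (F0_rep h.R h.mA h.mB (h.inD n hn) (ok_one6 hT hn)).2.1

/-- **the quadratic insertion of a superposition** -/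
theorem Chn6.F0N_nuQ (h : Chn6 L P x0 δ N μ D ρ k A B al be φ ψ)
    (hT : TrN6 Z L P x0 κ κ' δ N η η') :
    Integrable (fun q => F (mN6 N) (wT6 Z P N η η' c)
      fun ω => VC6 ρ P η (A q) ω * VC6 ρ P η (B q) ω) μ ∧
    F0N6 Z L x0 N c (nuQI ρ k) = (1 / 2) * ∫ q, (F (mN6 N) (wT6 Z P N η η' c)
      fun ω => VC6 ρ P η (A q) ω * VC6 ρ P η (B q) ω) ∂μ := by
  have h1 : ∀ q, F (mN6 N) (wT6 Z P N η η' c) (fun ω => VC6 ρ P η (A q) ω * VC6 ρ P η (B q) ω) =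
      F0N6 Z L x0 N c (fun ι _ c z => nuI ρ (A q) ι c z * nuI ρ (B q) ι c z) := fun q =>
    (F0N6_two hT (h.adA q) (h.adB q)).2.symm
  simp only [h1]
  unfold F0N6
  have h2 := fun n (hn : n ≤ N) => F0_rep h.R h.mA h.mB (h.inD n hn) (ok_one6 hT hn)
  have h3 : ∀ n ∈ range (N + 1), Integrable (fun q => c n * F0 x0 n (n + dN N) L Z
      fun ι _ c z => nuI ρ (A q) ι c z * nuI ρ (B q) ι c z) μ := fun n hn =>
    ((h2 n (Nat.lt_succ_iff.1 (Finset.mem_range.1 hn))).1).const_mul _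
  refine ⟨integrable_finsetSum _ h3, ?_⟩
  rw [integral_finsetSum _ h3, Finset.mul_sum]
  refine Finset.sum_congr rfl fun n hn => ?_
  rw [(h2 n (Nat.lt_succ_iff.1 (Finset.mem_range.1 hn))).2.2, integral_const_mul]
  ring

end chn

/-! ### the total insertion -/

section total

variable {T T' T₃ : Type*} [MeasurableSpace T] [MeasurableSpace T'] [MeasurableSpace T₃]
  {μ : Measure T} {μ' : Measure T'} {μ₃ : Measure T₃} [SFinite μ] [SFinite μ'] [SFinite μ₃]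
  {D : Kd → Set ℂ} {ρ : Kd → ℝ → ℂ} {a : Kd → Kd → ℂ → ℂ → ℂ}
  {k : Kd → Kd → ℂ → ℂ → ℂ} {A B : T → Kd → ℂ → ℂ} {al be : T → ℝ} {φ ψ : Kd → ℂ → ℝ}
  {k' : Kd → Kd → ℂ → ℂ → ℂ} {A' B' : T' → Kd → ℂ → ℂ} {al' be' : T' → ℝ} {φ' ψ' : Kd → ℂ → ℝ}
  {k₃ : Kd → Kd → ℂ → ℂ → ℂ} {A₃ B₃ : T₃ → Kd → ℂ → ℂ} {al₃ be₃ : T₃ → ℝ}
  {φ₃ ψ₃ : Kd → ℂ → ℝ} {ξ sg : Kd → ℂ → ℂ} {xp xm : ℂ} {gl : Kd → ℂ → ℂ}

/-- **the whole insertion of the first Ward identity on the curves** -/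
theorem F0N6_total (hT : TrN6 Z L P x0 κ κ' δ N η η')
    (C1 : Chn6 L P x0 δ N μ D ρ k A B al be φ ψ) (C2 : Chn6 L P x0 δ N μ' D ρ k' A' B' al' be' φ' ψ')
    (C3 : Chn6 L P x0 δ N μ₃ D ρ k₃ A₃ B₃ al₃ be₃ φ₃ ψ₃)
    (hk : ∀ b c x y, x ∈ D b → y ∈ D c →
      PBI.aLoc xp xm ξ sg a b c x y = k b c x y + k' b c x y + k₃ b c x y)
    (hQ : NX.QID D (vl l) ρ a) (hρ : ∀ b, Integrable (ρ b))
    (hn : ∑ b, ∫ u, ρ b u * (PBI.chK b * 1) = -(dN N : ℂ))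
    (hb : ∀ b, Integrable fun u => ρ b u * PBI.beK xp xm ξ sg b (vl l u))
    (hs : ∀ b, Integrable fun u => ρ b u * PBI.sgK sg b (vl l u))
    (adb : AdS6 P x0 δ (sK (PBI.beK xp xm ξ sg))) (ads : AdS6 P x0 δ (sK (PBI.sgK sg)))
    (adl : AdS6 P x0 δ (sK gl)) :
    F0N6 Z L x0 N c (fun ι _ s z => nuQI ρ a ι s z + nuI ρ gl ι s z) =
      (1 / 2) * (∫ q, (F (mN6 N) (wT6 Z P N η η' c)
        fun ω => VC6 ρ P η (A q) ω * VC6 ρ P η (B q) ω) ∂μ) +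
      (1 / 2) * (∫ q, (F (mN6 N) (wT6 Z P N η η' c)
        fun ω => VC6 ρ P η (A' q) ω * VC6 ρ P η (B' q) ω) ∂μ') +
      (1 / 2) * (∫ q, (F (mN6 N) (wT6 Z P N η η' c)
        fun ω => VC6 ρ P η (A₃ q) ω * VC6 ρ P η (B₃ q) ω) ∂μ₃) +
      2 * (F (mN6 N) (wT6 Z P N η η' c)
        fun ω => VC6 ρ P η (PBI.beK xp xm ξ sg) ω * VC6 ρ P η (PBI.sgK sg) ω) -
      (xp - xm) / 2 * (F (mN6 N) (wT6 Z P N η η' c)
        fun ω => VC6 ρ P η (PBI.sgK sg) ω * VC6 ρ P η (PBI.sgK sg) ω) +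
      F (mN6 N) (wT6 Z P N η η' c) (VC6 ρ P η gl) := by
  have he := C1.R.he
  have q1 := C1.qid
  have q2 := C2.qid
  have q3 := C3.qid
  have o1 := C1.ok hT
  have o2 := C2.ok hT
  have o3 := C3.ok hT
  have ob : OkN6 Z L x0 N (fun ι _ s z => nuI ρ (PBI.beK xp xm ξ sg) ι s z *
      nuI ρ (PBI.sgK sg) ι s z) := fun n hn' => (F0_nuI26 hT adb ads hn').1
  have os : OkN6 Z L x0 N (fun ι _ s z => nuI ρ (PBI.sgK sg) ι s z *
      nuI ρ (PBI.sgK sg) ι s z) := fun n hn' => (F0_nuI26 hT ads ads hn').1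
  have ol : OkN6 Z L x0 N (nuI ρ gl) := fun n hn' => (F0_nuI6 hT adl hn').1
  have e : F0N6 Z L x0 N c (fun ι _ s z => nuQI ρ a ι s z + nuI ρ gl ι s z) =
      F0N6 Z L x0 N c (fun ι _ s z => ((((nuQI ρ k ι s z + nuQI ρ k' ι s z) + nuQI ρ k₃ ι s z) +
        2 * (nuI ρ (PBI.beK xp xm ξ sg) ι s z * nuI ρ (PBI.sgK sg) ι s z)) +
        -((xp - xm) / 2) * (nuI ρ (PBI.sgK sg) ι s z * nuI ρ (PBI.sgK sg) ι s z)) +
        nuI ρ gl ι s z) := by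
    refine F0N6_congr fun n hn' p p' w w' h1 h2 t => ?_
    have hz : ∀ i, NUP1S.pos (L.all x0 n (n + dN N) w w') t i ∈ D (PBI.cl n (n + dN N) w w' i) := fun i =>
      (C1.inD n hn').d p p' w w' h1 h2 i (t i)
    have hc : ((∑ i, sc (PBI.co (PBI.cl n (n + dN N) w w' i)) : ℝ) : ℂ) =
        ∑ b, ∫ u, ρ b u * (PBI.chK b * 1) := by
      rw [PBI.sum_sc_cl h1 h2, hn]
      push_cast
      ring
    rw [PBI.nuQI_chargeQ he hQ hρ hb hs hc hz,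
      nuQI_split3 (a := PBI.aLoc xp xm ξ sg a) he q1 q2 q3 hk hz]
    ring
  rw [e, F0N6_add (((((o1.add o2).add o3).add (ob.smul 2)).add (os.smul _))) ol,
    F0N6_add ((((o1.add o2).add o3).add (ob.smul 2))) (os.smul _),
    F0N6_add ((o1.add o2).add o3) (ob.smul 2), F0N6_add (o1.add o2) o3, F0N6_add o1 o2, F0N6_smul,
    F0N6_smul, (C1.F0N_nuQ hT).2, (C2.F0N_nuQ hT).2, (C3.F0N_nuQ hT).2, (F0N6_two hT adb ads).2,
    (F0N6_two hT ads ads).2, (F0N6_one hT adl).2]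
  ring

end total

end PBRep.PLX

end
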