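import Pool.Agent.PHK.ObRep6
import Pool.Agent.PHK.EInst6
import Pool.Agent.PHK.RepT6
import Pool.Agent.PLX.PB.ChnO

/-!
# (P): the object channel on the wide strips

* `DQ_none6`, `DQ_L6`, `DQ_T6`, `DQ_S6`, `DQ_box6`: positions of the constituents, boxes of the lines;
* `adm_of6`: a statistic which is analytic and bounded on `DQ6` is admissible; `adm_A36`, `adm_B36`;
* `inD_DQ6`: lines of words in the boxes lie in `DQ6`;
* **`chnO6`**: the object channel, any domain `D` with `D b ⊆ DQ6 b`.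
-/

set_option autoImplicit false
set_option linter.unusedSectionVars false

noncomputable section

open Complex MeasureTheory Set
open scoped Classical

open PLX (Fil)

namespace PBOb.PLX

open NUP1 hiding Kd
open NUP1.Bd NUP1S PB PBRep PBRep.PLX
open PBF.PLX (dN)
open PBI (Stt Kd F0 F0Ok nuI nuQI mnI InD AllW)
open PHK

/-- what is used of the positions besides `GoodP6` -/
structure ParO6 (P : Par6) : Prop where
  jL : P.jL ≤ 9 / 4
  j2 : P.j2 ≤ 7 / 8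

theorem par6_O : ParO6 par6 := by
  constructor <;> norm_num [par6]

theorem DQ_none6 {u : ℂ} {s : Bool} (h1 : 49 / 400 * l ≤ u.re) (h2 : u.re ≤ 11 / 10 * l) :
    u ∈ DQ6 (s, none) := by
  have hl := Bd.l_pos
  show lo6 none + 1 / 400 * l ≤ u.re ∧ u.re ≤ hi6 none - 1 / 400 * l
  simp only [lo6, hi6]
  constructor <;> linarith

theorem DQ_L6 {P : Par6} (hG : GoodP6 P) (hP : ParO6 P) {u : ℂ} {s : Bool}
    (h : u.re = (1 - P.jL) * l) : u ∈ DQ6 (s, some .L) := by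
  have hl := Bd.l_pos
  have h1 := hG.L2
  have h2 := hP.jL
  show lo6 (some .L) + 1 / 400 * l ≤ u.re ∧ u.re ≤ hi6 (some .L) - 1 / 400 * l
  rw [h]
  simp only [lo6, hi6]
  constructor <;> nlinarith

theorem DQ_T6 {u : ℂ} {s : Bool} (h : u.re = -(1 / 2 * l)) : u ∈ DQ6 (s, some .T) := by
  have hl := Bd.l_pos
  show lo6 (some .T) + 1 / 400 * l ≤ u.re ∧ u.re ≤ hi6 (some .T) - 1 / 400 * l
  rw [h]
  simp only [lo6, hi6]
  constructor <;> linarith

theorem DQ_S6 {P : Par6} (hG : GoodP6 P) {u : ℂ} {s : Bool} (h : u.re = -((1 + P.e) * l)) :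
    u ∈ DQ6 (s, some .S) := by
  have hl := Bd.l_pos
  have h1 := hG.e13
  have h2 := hG.e45
  show lo6 (some .S) + 1 / 400 * l ≤ u.re ∧ u.re ≤ hi6 (some .S) - 1 / 400 * l
  rw [h]
  simp only [lo6, hi6]
  constructor <;> nlinarith

/-- **the boxes of the lines lie in the domain** -/
theorem DQ_box6 {P : Par6} (hG : GoodP6 P) {o : Option O3} {s : Bool} {u : ℂ}
    (h : u.re ∈ Set.Icc (loB P o) (hiB P o)) : u ∈ DQ6 (s, o) := by
  have hl := Bd.l_pos
  have g1 := hG.L2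
  have g2 := hG.e45
  obtain ⟨h1, h2⟩ := h
  show lo6 o + 1 / 400 * l ≤ u.re ∧ u.re ≤ hi6 o - 1 / 400 * l
  rcases o with _ | (_ | _ | _) <;> simp only [lo6, hi6, loB, hiB] at * <;> constructor <;> nlinarith

/-- **a statistic which is analytic and bounded on `DQ6` is admissible** -/
theorem adm_of6 {P : Par6} (hG : GoodP6 P) {x0 δ C : ℝ} (hδ : δ ≤ 1 / 20)
    {g : Kd → ℂ → ℂ} (hm : ∀ b, Measurable (g b))
    (hd : ∀ (b : Kd) (u : ℂ), u ∈ DQ6 b → DifferentiableAt ℂ (g b) u)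
    (hC : ∀ b, ∀ u ∈ DQ6 b, ‖g b u‖ ≤ C) : Adm6 (PBRep.PLX.sK g) P x0 δ C := by
  have hl := Bd.l_pos
  have key : ∀ (s : Bool) (u : ℂ), 99 / 800 * l ≤ u.re → u.re ≤ (1 + δ) * l → u ∈ DQ6 (s, none) :=
    fun s u h1 h2 => DQ_none6 (by linarith) (by nlinarith)
  exact ⟨fun s k => hm (s, k), fun s u h1 h2 => hd (s, none) u (key s u h1 h2),
    fun s u h1 h2 => hC (s, none) u (key s u h1 h2), fun s o u h => hd (s, some o) u (DQ_box6 hG h),
    fun s o u h => hC (s, some o) u (DQ_box6 hG h)⟩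

theorem DQ_int6 {b : Kd} {u : ℂ} (h : u ∈ DQ6 b) : lo6 b.2 < u.re ∧ u.re < hi6 b.2 := by
  have hl := Bd.l_pos
  exact ⟨by linarith [h.1], by linarith [h.2]⟩

theorem adm_A36 {X : ℂ → ℂ} {xp xm : ℂ} {M : ℝ} (hX : Measurable X) (h : FX6 X xp xm M)
    {P : Par6} (hG : GoodP6 P) {x0 δ : ℝ} (hδ : δ ≤ 1 / 20) (q : IxO) :
    Adm6 (PBRep.PLX.sK (A36 X xp xm q)) P x0 δ (alO6 (‖xp - xm‖ + M) q) := by
  have hM := h.M_nonneg
  refine adm_of6 hG hδ (fun b => (measurable_A36 hX xp xm b).comp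
    (measurable_const.prodMk measurable_id)) (fun b u hu => A3_diff6 h.dif xp xm q _ (DQ_sub6 _ hu))
    fun b u hu => ?_
  refine (norm_A3_le6 h q (DQ_sub6 _ hu)).trans (mul_le_of_le_one_right
    (alO_nonneg6 (by positivity) q) ?_)
  rw [Real.exp_le_one_iff]
  nlinarith [abs_nonneg u.im]

theorem adm_B36 {P : Par6} (hG : GoodP6 P) {x0 δ a : ℝ} (hδ : δ ≤ 1 / 20)
    (ha0 : 0 ≤ a) (ha : a ≤ 7) (q : IxO) : Adm6 (PBRep.PLX.sK (B36 q)) P x0 δ (beO6 a q) := by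
  refine adm_of6 hG hδ (fun b => (measurable_B36 b).comp
    (measurable_const.prodMk measurable_id)) (fun b u hu => B3_diff6 q _ (DQ_int6 hu).1 (DQ_int6 hu).2)
    fun b u hu => ?_
  refine (norm_B3_le6 ha0 ha q hu).trans (mul_le_of_le_one_right (beO_nonneg6 a q) ?_)
  rw [Real.exp_le_one_iff]
  nlinarith [abs_nonneg u.im]

/-- **lines of words in the boxes lie in the domain** -/
theorem all_DQ6 {P : Par6} (hG : GoodP6 P) {L : PBI.Lns} {x0 : ℝ} {n n' : ℕ}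
    (h : AllW x0 n n' L fun c x => ∀ i, x i ∈ Set.Icc (loB P (c i).2) (hiB P (c i).2)) :
    AllW x0 n n' L fun c x => ∀ i, ∀ t : ℝ, vl (x i) t ∈ DQ6 (c i) := by
  intro p p' k k' h1 h2 i t
  have e := h p p' k k' h1 h2 i
  refine DQ_box6 hG (s := (PBI.cl n n' k k' i).1) ?_
  rw [show (vl ((L.all x0 n n' k k') i) t).re = (L.all x0 n n' k k') i from NUO.vl_re59 _ _]
  exact e

/-- the weights of the representation are bounded on the lines -/
theorem inD_of6 {L : PBI.Lns} {x0 : ℝ} {n n' : ℕ} {D : Kd → Set ℂ}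
    (h : AllW x0 n n' L fun c x => ∀ i, ∀ t : ℝ, vl (x i) t ∈ D (c i))
    {c c' : ℝ} (hc : 0 ≤ c) (hc' : 0 ≤ c') :
    InD x0 n n' L D (fun _ z => Real.exp (-c * |z.im|)) (fun _ z => Real.exp (-c' * |z.im|)) := by
  have key : ∀ c : ℝ, 0 ≤ c → ∀ z : ℂ, Real.exp (-c * |z.im|) ≤ 1 := by
    intro c hc z
    rw [Real.exp_le_one_iff]
    nlinarith [abs_nonneg z.im]
  exact ⟨h, fun p p' k k' _ _ => ⟨1, fun i t => key c hc _⟩,
    fun p p' k k' _ _ => ⟨1, fun i t => key c' hc' _⟩⟩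

theorem inD_DQ6 {P : Par6} (hG : GoodP6 P) {L : PBI.Lns} {x0 : ℝ} {n n' : ℕ}
    (h : AllW x0 n n' L fun c x => ∀ i, x i ∈ Set.Icc (loB P (c i).2) (hiB P (c i).2))
    {c c' : ℝ} (hc : 0 ≤ c) (hc' : 0 ≤ c') :
    InD x0 n n' L DQ6 (fun _ z => Real.exp (-c * |z.im|)) (fun _ z => Real.exp (-c' * |z.im|)) :=
  inD_of6 (all_DQ6 hG h) hc hc'

variable [Fil]

/-- **the object channel** -/
theorem chnO6 {X : ℂ → ℂ} {xp xm : ℂ} {M : ℝ} (hX : Measurable X) (h : FX6 X xp xm M)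
    {P : Par6} (hG : GoodP6 P) {L : PBI.Lns} {x0 δ : ℝ} (hδ : δ ≤ 1 / 20)
    {D : Kd → Set ℂ} (hD : ∀ b, D b ⊆ DQ6 b) {ρ : Kd → ℝ → ℂ} (hρ : ∀ b, Integrable (ρ b))
    (hρ0 : ∀ s k u, ρ (s, some k) u = 0) (hl : ∀ s u, vl l u ∈ D (s, none)) {a : ℝ}
    (ha0 : 0 ≤ a) (ha : a < 2) {N : ℕ}
    (hin : ∀ n ≤ N, InD x0 n (n + dN N) L D (fun _ z => Real.exp (-2 * |z.im|))
      (fun _ z => Real.exp (-a * |z.im|))) :
    Chn6 L P x0 δ N muO D ρ (aO X xp xm) (A36 X xp xm) B36 (alO6 (‖xp - xm‖ + M)) (beO6 a)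
      (fun _ z => Real.exp (-2 * |z.im|)) (fun _ z => Real.exp (-a * |z.im|)) where
  R := rep36 hX h hD hρ hρ0 hl ha0 ha
  hm b c x _ := by
    refine AEStronglyMeasurable.mul ?_ (hρ c).1
    have hv : Measurable fun u : ℝ => vl l u := by
      unfold vl
      fun_prop
    have h1 : Measurable fun u : ℝ => aO X xp xm b c x (vl l u) := by
      simp only [aO]
      split_ifs
      · exact measurable_const
      · exact measurable_lK' hX xp xm b c measurable_const hv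
    exact h1.aestronglyMeasurable
  mA := measurable_A36 hX xp xm
  mB := measurable_B36
  adA q := ⟨_, adm_A36 hX h hG hδ q⟩
  adB q := ⟨_, adm_B36 hG hδ ha0 (by linarith) q⟩
  inD := hin

end PBOb.PLX

end
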