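import Pool.Agent.PHK.Basic
import Pool.Agent.PLX.PB.FDef

/-!
# The particle-hole form (P): the functional of a class with an insertion

Class data: one body functions `Z : Bool → Option O3 → ℂ → ℂ` (species; `none` = quanta and holes,
`some k` = the objects `L`, the strings `S` (kinds `E`, `F`) and `T`), parameters `P`, numbers `n`, `n'` of
quanta X, Y.

* `cC6`, `norm_cC6`: complex contact constants; `cst6`: the constituents with the type of their one body
  function and their multiplicity; `obK6` = `cC6` times the product of `Z ^ multiplicity`; explicit forms;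
* `locC6`, `locK6`: the localiser of the holes; **`wK6`**: the complex weight; `norm_wK6`;
* `potO6`, `gF6`: one body functions of the quanta in the field of the objects; `norm_gK6`
  (`gK` = the landed integrand of the quanta on the curves);
* **`trm6`, `FF6`**: the term of a configuration (condition: the charges fit and `cnt6`), the functional;
  `trA6`, `FA6`: the same with moduli; `FF6_le`; `Good6`, `FF6_add`, `FF6_cmul`; `FnI6`.
-/

set_option autoImplicit false
set_option linter.unusedSectionVars false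

noncomputable section

open Complex MeasureTheory Finset
open scoped ENNReal
open PLX (Fil)

namespace PHK

open NUO NUP1 NUP1S NUP1S.Ab NUP1S.AbC NUGC NUGC.PLX NUCR
open PBF.PLX (gK Ins Crs enorm_inv_natCast enorm_fac pA_crv)

variable {r : ℕ}

/-! ### weights of the objects -/

/-- complex contact constant -/
def cC6 : Kd6 → ℂ
  | .L => Bd.wt .L
  | .T => Bd.wt .S
  | .E => Bd.wt .S * ((2 * (4 * Real.cos l ^ 2 / Real.sin (5 * l) ^ 4) : ℝ) : ℂ)
  | .F => -(Bd.wt .S * ((2 * (4 * Real.cos l ^ 2 / Real.sin (5 * l) ^ 4) *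
      (4 * Real.cos l ^ 2 * Real.sin (3 * l) ^ 8 /
        (Real.sin (2 * l) * Real.sin (3 * l) * Real.sin (5 * l))) : ℝ) : ℂ))
  | .H1 => -(Bd.wt .L * ((4 * Real.cos l ^ 2 : ℝ) : ℂ))
  | .H2 => Bd.wt .L * ((4 * Real.cos l ^ 2 : ℝ) : ℂ)

theorem norm_cC6 (k : Kd6) : ‖cC6 k‖ = cK6 k := by
  have h2 : 0 < Real.sin (2 * l) := by simpa using sinl_pos 2 (by norm_num) (by norm_num)
  have h3 : 0 < Real.sin (3 * l) := by simpa using sinl_pos 3 (by norm_num) (by norm_num)
  have h5 : 0 < Real.sin (5 * l) := by simpa using sinl_pos 5 (by norm_num) (by norm_num)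
  cases k <;> simp only [cC6, cK6]
  · exact norm_wt_L
  · exact norm_wt_S
  · rw [norm_mul, norm_wt_S, norm_real, Real.norm_of_nonneg (by positivity)]
    ring
  · rw [norm_neg, norm_mul, norm_wt_S, norm_real, Real.norm_of_nonneg (by positivity)]
    ring
  · rw [norm_neg, norm_mul, norm_wt_L, norm_real, Real.norm_of_nonneg (by positivity)]
  · rw [norm_mul, norm_wt_L, norm_real, Real.norm_of_nonneg (by positivity)]

theorem cC6_ne (k : Kd6) : cC6 k ≠ 0 := by
  have h1 := NUO.aS_pos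
  have h0 := Real.pi_pos
  have h2 : 0 < Real.sin (2 * l) := by simpa using sinl_pos 2 (by norm_num) (by norm_num)
  have h3 : 0 < Real.sin (3 * l) := by simpa using sinl_pos 3 (by norm_num) (by norm_num)
  have h5 : 0 < Real.sin (5 * l) := by simpa using sinl_pos 5 (by norm_num) (by norm_num)
  have hc : 0 < Real.cos l := Real.cos_pos_of_mem_Ioo ⟨by unfold l; linarith, by unfold l; linarith⟩
  rw [← norm_pos_iff, norm_cC6]
  cases k <;> simp only [cK6] <;> positivity

/-- a constituent with the type of its one body function, multiplicity -/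
abbrev Cst6 : Type := ((Bool × Option O3) × ℂ) × ℤ

/-- type of the one body function of a constituent of an object of kind `k` -/
def zk6 (k : Kd6) (b : Bool) : Option O3 :=
  if b = true then some (if k = .T then .T else .S) else if k = .L then some .L else none

/-- the constituents of an object with their one body functions -/
def cst6 (P : Par6) (x : Xo) : List Cst6 :=
  (parts6 P x).map fun a => (((a.1.1, zk6 (k6 x) a.1.2.1), a.1.2.2), a.2)

/-- complex one body weight of an object -/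
def obK6 (Z : Bool → Option O3 → ℂ → ℂ) (P : Par6) (x : Xo) : ℂ :=
  cC6 (k6 x) * ((cst6 P x).map fun c => Z c.1.1.1 c.1.1.2 c.1.2 ^ c.2).prod

section forms

variable (Z : Bool → Option O3 → ℂ → ℂ) (P : Par6) {x : Xo}

theorem cst6_L (h : k6 x = .L) : cst6 P x = [(((sp x, some .L), posL P.jL (ht x)), 1)] := by
  simp [cst6, parts6, h, zk6]

theorem cst6_T (h : k6 x = .T) : cst6 P x = [(((sp x, some .T), posT (ht x)), 1)] := by
  simp [cst6, parts6, h, zk6]

theorem cst6_E (h : k6 x = .E) : cst6 P x = [(((sp x, some .S), posS P.e (ht x)), 1),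
    (((!sp x, none), posB P.e (ht x)), 2)] := by
  simp [cst6, parts6, h, zk6]

theorem cst6_F (h : k6 x = .F) : cst6 P x = [(((sp x, some .S), posS P.e (ht x)), 1),
    (((!sp x, none), posB P.e (ht x)), 2), (((sp x, none), posB P.e (ht x)), -1)] := by
  simp [cst6, parts6, h, zk6]

theorem cst6_H1 (h : k6 x = .H1) : cst6 P x = [(((sp x, none), posL P.j1 (ht x)), -1)] := by
  simp [cst6, parts6, h, zk6]

theorem cst6_H2 (h : k6 x = .H2) : cst6 P x = [(((sp x, none), posL P.j2 (ht x)), -1)] := by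
  simp [cst6, parts6, h, zk6]

theorem obK6_L (h : k6 x = .L) : obK6 Z P x = cC6 .L * Z (sp x) (some .L) (posL P.jL (ht x)) := by
  simp [obK6, cst6_L P h, h]

theorem obK6_T (h : k6 x = .T) : obK6 Z P x = cC6 .T * Z (sp x) (some .T) (posT (ht x)) := by
  simp [obK6, cst6_T P h, h]

theorem obK6_E (h : k6 x = .E) : obK6 Z P x = cC6 .E * (Z (sp x) (some .S) (posS P.e (ht x)) *
    Z (!sp x) none (posB P.e (ht x)) ^ 2) := by
  simp [obK6, cst6_E P h, h]

theorem obK6_F (h : k6 x = .F) : obK6 Z P x = cC6 .F * (Z (sp x) (some .S) (posS P.e (ht x)) *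
    (Z (!sp x) none (posB P.e (ht x)) ^ 2 * (Z (sp x) none (posB P.e (ht x)))⁻¹)) := by
  simp [obK6, cst6_F P h, h]

theorem obK6_H1 (h : k6 x = .H1) : obK6 Z P x =
    cC6 .H1 * (Z (sp x) none (posL P.j1 (ht x)))⁻¹ := by
  simp [obK6, cst6_H1 P h, h]

theorem obK6_H2 (h : k6 x = .H2) : obK6 Z P x =
    cC6 .H2 * (Z (sp x) none (posL P.j2 (ht x)))⁻¹ := by
  simp [obK6, cst6_H2 P h, h]

end forms

/-! ### the localiser, the weight -/

/-- complex localiser factor of an object, `g s h` = localiser of a hole of species `s` at `h` -/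
def locC6 (g : Bool → ℂ → ℂ) (P : Par6) (x : Xo) : ℂ :=
  match k6 x with
  | .L => 1
  | .T => 1
  | .E => 1
  | .F => g (sp x) (posB P.e (ht x))
  | .H1 => g (sp x) (posL P.j1 (ht x))
  | .H2 => g (sp x) (posL P.j2 (ht x))

theorem norm_locC6 (g : Bool → ℂ → ℂ) (P : Par6) (x : Xo) : ‖locC6 g P x‖ = loc6 g P x := by
  unfold locC6 loc6
  cases k6 x <;> first | exact norm_one | rfl

/-- the localiser of the holes of a configuration -/
def locK6 (P : Par6) (O : Fin r → Xo) : ℂ := ∏ i, locC6 (gH6 P O) P (O i)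

theorem norm_locK6 (P : Par6) (O : Fin r → Xo) : ‖locK6 P O‖ = ∏ i, loc6 (gH6 P O) P (O i) := by
  unfold locK6
  rw [norm_prod]
  exact Finset.prod_congr rfl fun i _ => norm_locC6 _ _ _

/-- **complex weight of a configuration** -/
def wK6 (Z : Bool → Option O3 → ℂ → ℂ) (P : Par6) (O : Fin r → Xo) : ℂ :=
  (∏ i, obK6 Z P (O i)) * locK6 P O * PU fun i j => pairC6 P (O i) (O j)

theorem norm_wK6 (Z : Bool → Option O3 → ℂ → ℂ) (P : Par6) (O : Fin r → Xo) :
    ‖wK6 Z P O‖ = (∏ i, ‖obK6 Z P (O i)‖) * (∏ i, loc6 (gH6 P O) P (O i)) *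
      ∏ i, ∏ j, if i < j then pairN6 P O i j else 1 := by
  unfold wK6
  rw [norm_mul, norm_mul, norm_prod, norm_locK6, norm_P _ fun a b => pairC6_symm P _ _]
  simp_rw [norm_pairC6]

/-! ### the quanta on the curve -/

/-- complex potential of a configuration on a quantum of species `s` at `z` -/
def potO6 (P : Par6) (O : Fin r → Xo) (s : Bool) (z : ℂ) : ℂ := ∏ i, potC6 P (O i) s z

theorem norm_potO6 (P : Par6) (O : Fin r → Xo) (s : Bool) (z : ℂ) :
    ‖potO6 P O s z‖ = ∏ i, potN6 P O i s z := by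
  unfold potO6
  rw [norm_prod]
  exact Finset.prod_congr rfl fun i _ => norm_potC6 P O i s z

/-- one body functions of the quanta in the field of the objects -/
def gF6 (Z : Bool → Option O3 → ℂ → ℂ) (P : Par6) (O : Fin r → Xo) : Bool → ℂ → ℂ :=
  fun s z => Z s none z * potO6 P O s z

/-- one body factor of a quantum with a general one body function -/
def qG6 (G : ℂ → ℂ) (P : Par6) (η : ℝ → ℝ) (O : Fin r → Xo) (s : Bool) (t : ℝ) : ℝ :=
  (2 * Real.pi)⁻¹ * ‖G (NUO.pA η t)‖ * ∏ i, potN6 P O i s (NUO.pA η t)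

section

variable [Fil]

/-- modulus of the integrand of the quanta, general one body functions -/
theorem norm_gK_gen (G : Bool → ℂ → ℂ) (η η' : ℝ → ℝ) (a b : ℕ)
    (x : (Fin a → ℝ) × (Fin b → ℝ)) :
    ‖gK G η η' a b x‖ = NU42.WO (dA (Fil.cv true η)) (dA (Fil.cv true η'))
      (dA (Fil.cv false η)) (dA (Fil.cv false η'))
      (fun t => (2 * Real.pi)⁻¹ * ‖G true (NUO.pA (Fil.cv true η) t)‖)
      (fun t => (2 * Real.pi)⁻¹ * ‖G false (NUO.pA (Fil.cv false η) t)‖) x.1 x.2 := by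
  unfold gK
  rw [norm_Fc]
  have hq : ∀ (s : Bool), (fun t => (2 * Real.pi)⁻¹ * ‖G s (NUO.pA (Fil.cv s η) t)‖) =
      fun t => (2 * Real.pi)⁻¹ * ‖Wt p0 G s (vl NUP1.l t + I * dA (Fil.cv s η) t)‖ := by
    intro s
    funext t
    rw [Wt_p0, pA_crv]
  rw [hq true, hq false, WO_smul]

theorem norm_gK6 (Z : Bool → Option O3 → ℂ → ℂ) (P : Par6) (O : Fin r → Xo) (η η' : ℝ → ℝ)
    (a b : ℕ) (x : (Fin a → ℝ) × (Fin b → ℝ)) :
    ‖gK (gF6 Z P O) η η' a b x‖ = NU42.WO (dA (Fil.cv true η)) (dA (Fil.cv true η'))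
      (dA (Fil.cv false η)) (dA (Fil.cv false η')) (qG6 (Z true none) P (Fil.cv true η) O true)
      (qG6 (Z false none) P (Fil.cv false η) O false) x.1 x.2 := by
  rw [norm_gK_gen]
  have hq : ∀ s : Bool, qG6 (Z s none) P (Fil.cv s η) O s =
      fun t => (2 * Real.pi)⁻¹ * ‖gF6 Z P O s (NUO.pA (Fil.cv s η) t)‖ := by
    intro s
    funext t
    unfold qG6 gF6
    rw [norm_mul, norm_potO6]
    ring
  rw [hq true, hq false]

end

/-! ### the functional -/

theorem nA6_le {n : ℕ} {O : Fin r → Xo} (h : cnt6 O) (s : Bool) : nA6 n O s ≤ n := by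
  have := chgO6_nonneg h s
  unfold nA6
  omega

theorem nA6_eq {n a : ℕ} {O : Fin r → Xo} {s : Bool} (h : chgO6 O s + a = n) : nA6 n O s = a := by
  unfold nA6
  omega

section

variable [Fil] (Z : Bool → Option O3 → ℂ → ℂ) (P : Par6) (n n' : ℕ) (η η' : Crs)

/-- the term of a configuration -/
def trm6 (Ψ : Ins) (r : ℕ) (O : Fin r → Xo) : ℂ :=
  if chgO6 O true ≤ n ∧ chgO6 O false ≤ n' ∧ cnt6 O then
    wK6 Z P O * ((((nA6 n O true).factorial : ℂ) * (nA6 n' O false).factorial)⁻¹ *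
      ∫ x, gK (gF6 Z P O) (η r O) (η' r O) (nA6 n O true) (nA6 n' O false) x *
        Ψ r O (nA6 n O true) (nA6 n' O false) x)
  else 0

/-- **the functional** -/
def FF6 (Ψ : Ins) : ℂ :=
  ∑ r ∈ range (2 * (n + n') + 1), ((r.factorial : ℕ) : ℂ)⁻¹ *
    ∫ O : Fin r → Xo, trm6 Z P n n' η η' Ψ r O ∂(Measure.pi fun _ => nu)

/-- the modulus of the term of a configuration -/
def trA6 (Ψ : Ins) (r : ℕ) (O : Fin r → Xo) : ℝ≥0∞ :=
  if chgO6 O true ≤ n ∧ chgO6 O false ≤ n' ∧ cnt6 O then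
    ‖wK6 Z P O‖ₑ * ((((nA6 n O true).factorial : ℝ≥0∞) * (nA6 n' O false).factorial)⁻¹ *
      ∫⁻ x, ‖gK (gF6 Z P O) (η r O) (η' r O) (nA6 n O true) (nA6 n' O false) x‖ₑ *
        ‖Ψ r O (nA6 n O true) (nA6 n' O false) x‖ₑ)
  else 0

/-- **the functional with moduli** -/
def FA6 (Ψ : Ins) : ℝ≥0∞ :=
  ∑ r ∈ range (2 * (n + n') + 1), ((r.factorial : ℕ) : ℝ≥0∞)⁻¹ *
    ∫⁻ O : Fin r → Xo, trA6 Z P n n' η η' Ψ r O ∂(Measure.pi fun _ => nu)

variable {Z P n n' η η'}

theorem trm6_le (Ψ : Ins) (r : ℕ) (O : Fin r → Xo) :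
    ‖trm6 Z P n n' η η' Ψ r O‖ₑ ≤ trA6 Z P n n' η η' Ψ r O := by
  unfold trm6 trA6
  split_ifs
  · rw [enorm_mul, enorm_mul, enorm_fac]
    refine mul_le_mul' le_rfl (mul_le_mul' le_rfl ?_)
    refine (enorm_integral_le_lintegral_enorm _).trans (le_of_eq ?_)
    exact lintegral_congr fun x => enorm_mul _ _
  · rw [enorm_zero]

/-- **the functional is bounded by the functional with moduli** -/
theorem FF6_le (Ψ : Ins) : ‖FF6 Z P n n' η η' Ψ‖ₑ ≤ FA6 Z P n n' η η' Ψ := by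
  unfold FF6 FA6
  refine (enorm_sum_le _ _).trans (Finset.sum_le_sum fun r _ => ?_)
  rw [enorm_mul, enorm_inv_natCast _ r.factorial_ne_zero]
  refine mul_le_mul' le_rfl ((enorm_integral_le_lintegral_enorm _).trans ?_)
  exact lintegral_mono fun O => trm6_le Ψ r O

/-- `FA6` is monotone -/
theorem trA6_mono {Ψ Ψ' : Ins} (h : ∀ r O a b x, ‖Ψ r O a b x‖ₑ ≤ ‖Ψ' r O a b x‖ₑ) (r : ℕ)
    (O : Fin r → Xo) : trA6 Z P n n' η η' Ψ r O ≤ trA6 Z P n n' η η' Ψ' r O := by
  unfold trA6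
  split_ifs
  · refine mul_le_mul' le_rfl (mul_le_mul' le_rfl (lintegral_mono fun x => ?_))
    exact mul_le_mul' le_rfl (h _ _ _ _ _)
  · exact le_rfl

theorem FA6_mono {Ψ Ψ' : Ins} (h : ∀ r O a b x, ‖Ψ r O a b x‖ₑ ≤ ‖Ψ' r O a b x‖ₑ) :
    FA6 Z P n n' η η' Ψ ≤ FA6 Z P n n' η η' Ψ' := by
  unfold FA6
  exact Finset.sum_le_sum fun r _ => mul_le_mul' le_rfl (lintegral_mono fun O => trA6_mono h r O)

/-! ### admissible insertions -/

variable (Z P n n' η η')

/-- **admissible insertions** -/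
structure Good6 (Ψ : Ins) : Prop where
  /-- the integrand of the quanta -/
  mi : ∀ (r : ℕ) (O : Fin r → Xo), AEStronglyMeasurable (fun x =>
    gK (gF6 Z P O) (η r O) (η' r O) (nA6 n O true) (nA6 n' O false) x *
      Ψ r O (nA6 n O true) (nA6 n' O false) x)
  /-- the terms -/
  mo : ∀ r : ℕ, AEStronglyMeasurable (fun O : Fin r → Xo => trm6 Z P n n' η η' Ψ r O)
    (Measure.pi fun _ => nu)
  /-- finite -/
  fin : FA6 Z P n n' η η' Ψ < ∞
  /-- the moduli are measurable -/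
  ma : ∀ r : ℕ, AEMeasurable (fun O : Fin r → Xo => trA6 Z P n n' η η' Ψ r O)
    (Measure.pi fun _ => nu)

variable {Z P n n' η η'}

theorem Good6.lint {Ψ : Ins} (h : Good6 Z P n n' η η' Ψ) {r : ℕ} (hr : r ≤ 2 * (n + n')) :
    ∫⁻ O : Fin r → Xo, trA6 Z P n n' η η' Ψ r O ∂(Measure.pi fun _ => nu) < ∞ := by
  have h1 := h.fin
  unfold FA6 at h1
  rw [ENNReal.sum_lt_top] at h1
  have h2 := h1 r (Finset.mem_range.2 (by omega))
  by_contra hc
  rw [not_lt, top_le_iff] at hc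
  rw [hc, ENNReal.mul_top] at h2
  · exact (lt_irrefl _ h2)
  · exact ENNReal.inv_ne_zero.2 (ENNReal.natCast_ne_top _)

theorem Good6.integrable {Ψ : Ins} (h : Good6 Z P n n' η η' Ψ) {r : ℕ} (hr : r ≤ 2 * (n + n')) :
    Integrable (fun O : Fin r → Xo => trm6 Z P n n' η η' Ψ r O) (Measure.pi fun _ => nu) :=
  ⟨h.mo r, lt_of_le_of_lt (lintegral_mono fun O => trm6_le Ψ r O) (h.lint hr)⟩

theorem Good6.ae {Ψ : Ins} (h : Good6 Z P n n' η η' Ψ) {r : ℕ} (hr : r ≤ 2 * (n + n')) :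
    ∀ᵐ O : Fin r → Xo ∂(Measure.pi fun _ => nu), trA6 Z P n n' η η' Ψ r O < ∞ :=
  ae_lt_top' (h.ma r) (h.lint hr).ne

/-- for almost every configuration the weight vanishes or the integrand of the quanta is
integrable -/
theorem Good6.inner {Ψ : Ins} (h : Good6 Z P n n' η η' Ψ) {r : ℕ} {O : Fin r → Xo}
    (hO : trA6 Z P n n' η η' Ψ r O < ∞)
    (hc : chgO6 O true ≤ n ∧ chgO6 O false ≤ n' ∧ cnt6 O) (hw : wK6 Z P O ≠ 0) :
    Integrable (fun x =>
      gK (gF6 Z P O) (η r O) (η' r O) (nA6 n O true) (nA6 n' O false) x *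
        Ψ r O (nA6 n O true) (nA6 n' O false) x) := by
  refine ⟨h.mi r O, ?_⟩
  unfold trA6 at hO
  rw [if_pos hc] at hO
  have e : ∀ x, ‖gK (gF6 Z P O) (η r O) (η' r O) (nA6 n O true) (nA6 n' O false) x *
      Ψ r O (nA6 n O true) (nA6 n' O false) x‖ₑ =
      ‖gK (gF6 Z P O) (η r O) (η' r O) (nA6 n O true) (nA6 n' O false) x‖ₑ *
        ‖Ψ r O (nA6 n O true) (nA6 n' O false) x‖ₑ := fun x => enorm_mul _ _
  show (∫⁻ x, ‖gK (gF6 Z P O) (η r O) (η' r O) (nA6 n O true) (nA6 n' O false) x *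
      Ψ r O (nA6 n O true) (nA6 n' O false) x‖ₑ) < ∞
  simp only [e]
  by_contra hc'
  rw [not_lt, top_le_iff] at hc'
  rw [hc', ENNReal.mul_top, ENNReal.mul_top] at hO
  · exact lt_irrefl _ hO
  · exact enorm_ne_zero.2 hw
  · refine ENNReal.inv_ne_zero.2 (ENNReal.mul_ne_top ?_ ?_)
    · exact ENNReal.natCast_ne_top _
    · exact ENNReal.natCast_ne_top _

theorem trm6_add {Ψ Ψ' : Ins} (h : Good6 Z P n n' η η' Ψ) (h' : Good6 Z P n n' η η' Ψ') {r : ℕ}
    {O : Fin r → Xo} (hO : trA6 Z P n n' η η' Ψ r O < ∞) (hO' : trA6 Z P n n' η η' Ψ' r O < ∞) :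
    trm6 Z P n n' η η' (Ψ + Ψ') r O =
      trm6 Z P n n' η η' Ψ r O + trm6 Z P n n' η η' Ψ' r O := by
  unfold trm6
  by_cases hc : chgO6 O true ≤ n ∧ chgO6 O false ≤ n' ∧ cnt6 O
  swap
  · simp only [if_neg hc, add_zero]
  simp only [if_pos hc]
  by_cases hw : wK6 Z P O = 0
  · simp [hw]
  rw [← mul_add, ← mul_add, ← integral_add (h.inner hO hc hw) (h'.inner hO' hc hw)]
  congr 3
  funext x
  simp only [Pi.add_apply]
  ring

theorem trA6_add_le (Ψ Ψ' : Ins) {r : ℕ} (O : Fin r → Xo)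
    (hm : AEStronglyMeasurable (fun x =>
      gK (gF6 Z P O) (η r O) (η' r O) (nA6 n O true) (nA6 n' O false) x *
        Ψ r O (nA6 n O true) (nA6 n' O false) x)) :
    trA6 Z P n n' η η' (Ψ + Ψ') r O ≤
      trA6 Z P n n' η η' Ψ r O + trA6 Z P n n' η η' Ψ' r O := by
  unfold trA6
  split_ifs
  · rw [← mul_add, ← mul_add]
    refine mul_le_mul' le_rfl (mul_le_mul' le_rfl ?_)
    have e : ∀ x, ‖gK (gF6 Z P O) (η r O) (η' r O) (nA6 n O true) (nA6 n' O false) x‖ₑ *
        ‖Ψ r O (nA6 n O true) (nA6 n' O false) x‖ₑ =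
        ‖gK (gF6 Z P O) (η r O) (η' r O) (nA6 n O true) (nA6 n' O false) x *
          Ψ r O (nA6 n O true) (nA6 n' O false) x‖ₑ := fun x => (enorm_mul _ _).symm
    simp only [e]
    rw [← lintegral_add_left' hm.enorm]
    refine lintegral_mono fun x => ?_
    rw [← enorm_mul, ← enorm_mul]
    simp only [Pi.add_apply]
    rw [mul_add]
    exact enorm_add_le _ _
  · simp

/-- **the functional is additive** -/
theorem FF6_add {Ψ Ψ' : Ins} (h : Good6 Z P n n' η η' Ψ) (h' : Good6 Z P n n' η η' Ψ') :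
    FF6 Z P n n' η η' (Ψ + Ψ') = FF6 Z P n n' η η' Ψ + FF6 Z P n n' η η' Ψ' := by
  unfold FF6
  rw [← Finset.sum_add_distrib]
  refine Finset.sum_congr rfl fun r hr => ?_
  have hr' : r ≤ 2 * (n + n') := by
    have := Finset.mem_range.1 hr
    omega
  rw [← mul_add, ← integral_add (h.integrable hr') (h'.integrable hr')]
  congr 1
  refine integral_congr_ae ?_
  filter_upwards [h.ae hr', h'.ae hr'] with O hO hO'
  exact trm6_add h h' hO hO'

theorem trm6_cmul (c : ℂ) (Ψ : Ins) (r : ℕ) (O : Fin r → Xo) :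
    trm6 Z P n n' η η' (fun r O a b x => c * Ψ r O a b x) r O =
      c * trm6 Z P n n' η η' Ψ r O := by
  unfold trm6
  split_ifs
  · have e : ∀ x, gK (gF6 Z P O) (η r O) (η' r O) (nA6 n O true) (nA6 n' O false) x *
        (c * Ψ r O (nA6 n O true) (nA6 n' O false) x) =
        c * (gK (gF6 Z P O) (η r O) (η' r O) (nA6 n O true) (nA6 n' O false) x *
          Ψ r O (nA6 n O true) (nA6 n' O false) x) := fun x => by ring
    simp only [e]
    rw [integral_const_mul]
    ring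
  · rw [mul_zero]

/-- **the functional is homogeneous** -/
theorem FF6_cmul (c : ℂ) (Ψ : Ins) :
    FF6 Z P n n' η η' (fun r O a b x => c * Ψ r O a b x) = c * FF6 Z P n n' η η' Ψ := by
  unfold FF6
  simp only [trm6_cmul, integral_const_mul]
  rw [Finset.mul_sum]
  exact Finset.sum_congr rfl fun r _ => by ring

/-! ### the positive gas -/

/-- the term of the positive gas with the insertion `ψ` (modulus) -/
def FnI6 (B : OB) (P : Par6) (η η' : ℝ → ℝ) (nX nY : ℕ) {r : ℕ} (O : Fin r → Xo)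
    (ψ : (a b : ℕ) → (Fin a → ℝ) × (Fin b → ℝ) → ℝ≥0∞) : ℝ≥0∞ :=
  if chgO6 O true ≤ nX ∧ chgO6 O false ≤ nY ∧ cnt6 O then
    ENNReal.ofReal (objWc6 B P O) *
      ((((nA6 nX O true).factorial : ℝ≥0∞) * (nA6 nY O false).factorial)⁻¹ *
        ∫⁻ x : (Fin (nA6 nX O true) → ℝ) × (Fin (nA6 nY O false) → ℝ),
          ENNReal.ofReal (NU42.WO (dA (Fil.cv true η)) (dA (Fil.cv true η'))
            (dA (Fil.cv false η)) (dA (Fil.cv false η')) (qA6 B P η O true)
            (qA6 B P η O false) x.1 x.2) * ψ (nA6 nX O true) (nA6 nY O false) x)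
  else 0

theorem FnI6_one (B : OB) (P : Par6) (η η' : ℝ → ℝ) (nX nY : ℕ) {r : ℕ} (O : Fin r → Xo) :
    FnI6 B P η η' nX nY O (fun _ _ _ => 1) = Fnc6 B P η η' nX nY O := by
  unfold FnI6 Fnc6 Z1c6
  simp only [mul_one]

/-- insertions of the objects -/
theorem FnI6_obj (B : OB) (P : Par6) (η η' : ℝ → ℝ) (nX nY : ℕ) {r : ℕ} (O : Fin r → Xo)
    {c : ℝ≥0∞} (hc : c ≠ ∞) :
    FnI6 B P η η' nX nY O (fun _ _ _ => c) = c * Fnc6 B P η η' nX nY O := by
  unfold FnI6 Fnc6 Z1c6
  split_ifs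
  · rw [lintegral_mul_const' _ _ hc]
    ring
  · rw [mul_zero]

end

end PHK

end
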