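import Pool.Agent.PHK.Meas
import Pool.Agent.PHK.FDef6
import Pool.Agent.PLX.PB.ClsMeas

/-!
# The particle-hole form (P): measurability of the terms of the functional

* `measurable_nA6`, `mset_cnt6`, `measurable_cnd6`: the numbers of free quanta, the condition;
* `measurable_obKc6`, `measurable_locK6`, **`measurable_wK6`**, **`measurable_gK6`** (`hq6`, `gK_eq6`);
* **`measurable_trm6`, `measurable_trA6`, `good_of6`**; with a parameter: `measurable_trm_s6`,
  `measurable_trA_s6`.

The hypothesis `hP` (radii) of the landed file is gone.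
-/

set_option autoImplicit false
set_option linter.unusedSectionVars false

noncomputable section

open Complex MeasureTheory Finset
open scoped ENNReal
open PLX (Fil)

namespace PHK

open NUO NUP1 NUP1S NUP1S.Ab NUP1S.AbC NUGC NUGC.PLX NUCR
open PBF.PLX (gK Ins Crs MCr MIn sS pA_crv)

/-! ### numbers of quanta, condition -/

theorem measurable_nA6 {r : ℕ} (n : ℕ) (s : Bool) : Measurable fun O : Fin r → Xo => nA6 n O s := by
  have h : Measurable fun q : ℤ => ((n : ℤ) - q).toNat := Measurable.of_discrete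
  exact h.comp (measurable_chgO6 s)

theorem measurable_hl6 (s : Bool) : Measurable (hl6 s) := by
  have h := measurable_of6 (F := fun (k : Bool × Kd6) (_ : ℝ) => (match k.2 with
    | .L => 0
    | .T => 0
    | .E => 0
    | .F => if k.1 = s then 1 else 0
    | .H1 => if k.1 = s then 1 else 0
    | .H2 => if k.1 = s then 1 else 0 : ℕ)) fun _ => measurable_const
  refine (congrArg Measurable (funext fun x => ?_)).mpr h
  unfold hl6
  cases k6 x <;> rfl

theorem measurable_sat6 (s : Bool) : Measurable (sat6 s) := by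
  have h := measurable_of6 (F := fun (k : Bool × Kd6) (_ : ℝ) => (match k.2 with
    | .L => 0
    | .T => 0
    | .E => if k.1 = s then 0 else 2
    | .F => if k.1 = s then 0 else 2
    | .H1 => 0
    | .H2 => 0 : ℕ)) fun _ => measurable_const
  refine (congrArg Measurable (funext fun x => ?_)).mpr h
  unfold sat6
  cases k6 x <;> rfl

theorem mset_cnt6 (r : ℕ) : MeasurableSet {O : Fin r → Xo | cnt6 O} := by
  have e : {O : Fin r → Xo | cnt6 O} =
      ⋂ s : Bool, {O : Fin r → Xo | ∑ i, hl6 s (O i) ≤ ∑ i, sat6 s (O i)} := by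
    ext O
    simp only [Set.mem_setOf_eq, Set.mem_iInter]
    rfl
  rw [e]
  refine MeasurableSet.iInter fun s => measurableSet_le ?_ ?_
  · exact Finset.measurable_sum _ fun i _ => (measurable_hl6 s).comp (measurable_pi_apply i)
  · exact Finset.measurable_sum _ fun i _ => (measurable_sat6 s).comp (measurable_pi_apply i)

/-- the condition of a term -/
theorem measurableSet_cnd6 (n n' r : ℕ) : MeasurableSet {O : Fin r → Xo |
    chgO6 O true ≤ n ∧ chgO6 O false ≤ n' ∧ cnt6 O} := by
  have h : ∀ (s : Bool) (m : ℕ), MeasurableSet {O : Fin r → Xo | chgO6 O s ≤ (m : ℤ)} := fun s m =>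
    measurableSet_le (measurable_chgO6 s) measurable_const
  exact (h true n).inter ((h false n').inter (mset_cnt6 r))

/-- **selection**: the numbers of free quanta -/
theorem measurable_sel6 {Y β : Type*} [MeasurableSpace Y] [MeasurableSpace β] {r : ℕ} (n n' : ℕ)
    {G : ℕ → ℕ → Y → β} (hG : ∀ a b, Measurable (G a b)) {f : Y → Fin r → Xo} (hf : Measurable f) :
    Measurable fun y => G (nA6 n (f y) true) (nA6 n' (f y) false) y := by
  have h : Measurable fun p : (ℕ × ℕ) × Y => G p.1.1 p.1.2 p.2 :=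
    measurable_from_prod_countable_right fun k => hG k.1 k.2
  have h2 : Measurable fun y : Y => (((nA6 n (f y) true, nA6 n' (f y) false), y) : (ℕ × ℕ) × Y) :=
    (((measurable_nA6 n true).comp hf).prodMk ((measurable_nA6 n' false).comp hf)).prodMk
      measurable_id
  exact h.comp h2

section meas

variable {r : ℕ} {P : Par6} {Z : Bool → Option O3 → ℂ → ℂ} (hZ : ∀ s k, Measurable (Z s k))

/-! ### weights -/

/-- constituents with their one body functions, function of species, kind and height -/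
def cstK (P : Par6) (k : Bool × Kd6) (t : ℝ) : List Cst6 :=
  (prt P k t).map fun a => (((a.1.1, zk6 k.2 a.1.2.1), a.1.2.2), a.2)

theorem cst6_eq (P : Par6) (x : Xo) : cst6 P x = cstK P (sp x, k6 x) (ht x) := by
  unfold cst6 cstK
  rw [parts6_eq]

include hZ in
theorem measurable_cstL {Y : Type*} [MeasurableSpace Y] (k : Kd6)
    {L : List ((Bool × Bool × (Y → ℂ)) × ℤ)} (hL : ∀ p ∈ L, Measurable p.1.2.2) :
    Measurable fun y => (((evz L y).map fun a : Part6 =>
      ((((a.1.1, zk6 k a.1.2.1), a.1.2.2), a.2) : Cst6)).map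
        fun c => Z c.1.1.1 c.1.1.2 c.1.2 ^ c.2).prod := by
  induction L with
  | nil => exact measurable_const
  | cons a L ih =>
    have h1 := ih fun p hp => hL p (List.mem_cons_of_mem _ hp)
    have h2 : Measurable fun y => Z a.1.1 (zk6 k a.1.2.1) (a.1.2.2 y) ^ a.2 :=
      ((hZ a.1.1 (zk6 k a.1.2.1)).comp (hL a List.mem_cons_self)).pow_const a.2
    exact h2.mul h1

include hZ in
/-- **the one body weight is measurable** -/
theorem measurable_obKc6 (P : Par6) : Measurable (obK6 Z P) := by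
  have h := measurable_of6 (F := fun (k : Bool × Kd6) (t : ℝ) =>
    cC6 k.2 * ((cstK P k t).map fun c => Z c.1.1.1 c.1.1.2 c.1.2 ^ c.2).prod) fun k => by
      obtain ⟨L, hL, h1⟩ := exists_evz P k (Y := ℝ) measurable_id
      simp only [id] at h1
      unfold cstK
      simp only [h1]
      exact (measurable_cstL hZ k.2 hL).const_mul _
  refine (congrArg Measurable (funext fun x => ?_)).mpr h
  unfold obK6
  rw [cst6_eq]

/-- the localiser of an object, function of the kinds and of the heights -/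
def lcC (P : Par6) (K : Fin r → Bool × Kd6) (t : Fin r → ℝ) (i : Fin r) : ℂ :=
  match (K i).2 with
  | .L => 1
  | .T => 1
  | .E => 1
  | .F => gHK P K t (K i).1 (posB P.e (t i))
  | .H1 => gHK P K t (K i).1 (posL P.j1 (t i))
  | .H2 => gHK P K t (K i).1 (posL P.j2 (t i))

theorem locC6_eq (P : Par6) (O : Fin r → Xo) (i : Fin r) : locC6 (gH6 P O) P (O i) =
    lcC P (fun i => (sp (O i), k6 (O i))) (fun i => ht (O i)) i := by
  unfold locC6 lcC
  simp only [gH6_eq]
  cases hk : k6 (O i) <;> simp only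

theorem measurable_locC6 (P : Par6) (i : Fin r) :
    Measurable fun O : Fin r → Xo => locC6 (gH6 P O) P (O i) := by
  simp only [locC6_eq]
  refine measurable_conf6' (F := fun K t => lcC P K t i) fun K => ?_
  have h0 : ∀ (f : ℝ → ℂ), Measurable f →
      Measurable fun t : Fin r → ℝ => gHK P K t (K i).1 (f (t i)) := by
    intro f hf
    have hq : Measurable fun t : Fin r → ℝ => (t, f (t i)) :=
      measurable_id.prodMk (hf.comp (measurable_pi_apply i))
    have h := (measurable_gHK P K (K i).1).comp hq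
    exact h
  unfold lcC
  cases (K i).2
  · exact measurable_const
  · exact measurable_const
  · exact measurable_const
  · exact h0 _ (measurable_posB P.e)
  · exact h0 _ (measurable_vl measurable_id _)
  · exact h0 _ (measurable_vl measurable_id _)

theorem measurable_locK6 (P : Par6) : Measurable fun O : Fin r → Xo => locK6 P O := by
  unfold locK6
  exact Finset.measurable_prod _ fun i _ => measurable_locC6 P i

theorem measurable_pairC6' (P : Par6) (i j : Fin r) :
    Measurable fun O : Fin r → Xo => pairC6 P (O i) (O j) := by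
  have hq : Measurable fun O : Fin r → Xo => (O i, O j) :=
    (measurable_pi_apply i).prodMk (measurable_pi_apply j)
  have h := (measurable_pairC6 P).comp hq
  exact h

include hZ in
/-- **the weight of a configuration is measurable** -/
theorem measurable_wK6 (P : Par6) : Measurable fun O : Fin r → Xo => wK6 Z P O := by
  unfold wK6
  exact ((Finset.measurable_prod _ fun i _ => (measurable_obKc6 hZ P).comp
    (measurable_pi_apply i)).mul (measurable_locK6 P)).mul
      (measurable_PU (fun i j (O : Fin r → Xo) => pairC6 P (O i) (O j))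
        fun i j => measurable_pairC6' P i j)

theorem measurable_potOc6 (P : Par6) (s : Bool) :
    Measurable fun p : (Fin r → Xo) × ℂ => potO6 P p.1 s p.2 := by
  unfold potO6
  refine Finset.measurable_prod _ fun i _ => ?_
  have h1 : Measurable fun p : (Fin r → Xo) × ℂ => p.1 i :=
    (measurable_pi_apply i).comp measurable_fst
  have hq : Measurable fun p : (Fin r → Xo) × ℂ => (p.1 i, p.2) := h1.prodMk measurable_snd
  have h := (measurable_potC6 P s).comp hq
  exact h

/-! ### the quanta -/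

/-- weight of a quantum on the curve -/
def hq6 (Z : Bool → Option O3 → ℂ → ℂ) (P : Par6) (O : Fin r → Xo) (s : Bool) (η η' : ℝ → ℝ)
    (t : ℝ) : ℂ :=
  (2 * Real.pi : ℂ)⁻¹ * (1 + dA η' t) * (Z s none (NUO.pA η t) * potO6 P O s (NUO.pA η t))

theorem hh_gF6 [Fil] (Z : Bool → Option O3 → ℂ → ℂ) (P : Par6) (O : Fin r → Xo) (s : Bool)
    (η η' : ℝ → ℝ) (t : ℝ) : hh p0 (gF6 Z P O) (crvC s NUP1.l (dA η) (dA η')) t =
      hq6 Z P O s η η' t := by
  show (2 * Real.pi : ℂ)⁻¹ * (1 + dA η' t) * Wt p0 (gF6 Z P O) s (vl NUP1.l t + I * dA η t) = _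
  rw [Wt_p0, pA_crv]
  cases s <;> rfl

variable [Fil]

theorem gK_eq6 (Z : Bool → Option O3 → ℂ → ℂ) (P : Par6) (O : Fin r → Xo) (η η' : ℝ → ℝ)
    {a b : ℕ} (x : (Fin a → ℝ) × (Fin b → ℝ)) :
    gK (gF6 Z P O) η η' a b x = (∏ i, hq6 Z P O (sS a b i) (Fil.cv (sS a b i) η)
        (Fil.cv (sS a b i) η') (Sum.elim x.1 x.2 i)) *
      PU fun i j => PP (sS a b i) (sS a b j)
        (NUO.pA (Fil.cv (sS a b i) η) (Sum.elim x.1 x.2 i) -
          NUO.pA (Fil.cv (sS a b j) η) (Sum.elim x.1 x.2 j)) := by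
  unfold gK Fc
  have e1 : ∀ i : Fin a ⊕ Fin b, hh p0 (gF6 Z P O) (cCt a b
      (crvC true NUP1.l (dA (Fil.cv true η)) (dA (Fil.cv true η')))
      (crvC false NUP1.l (dA (Fil.cv false η)) (dA (Fil.cv false η'))) i)
        (Sum.elim x.1 x.2 i) =
      hq6 Z P O (sS a b i) (Fil.cv (sS a b i) η) (Fil.cv (sS a b i) η')
        (Sum.elim x.1 x.2 i) := by
    rintro (i | i)
    · exact hh_gF6 Z P O true (Fil.cv true η) (Fil.cv true η') _
    · exact hh_gF6 Z P O false (Fil.cv false η) (Fil.cv false η') _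
  have e2 : (fun i j : Fin a ⊕ Fin b => pwc (cCt a b
      (crvC true NUP1.l (dA (Fil.cv true η)) (dA (Fil.cv true η')))
      (crvC false NUP1.l (dA (Fil.cv false η)) (dA (Fil.cv false η'))) i) (cCt a b
      (crvC true NUP1.l (dA (Fil.cv true η)) (dA (Fil.cv true η')))
      (crvC false NUP1.l (dA (Fil.cv false η)) (dA (Fil.cv false η'))) j)
        (Sum.elim x.1 x.2 i) (Sum.elim x.1 x.2 j)) =
      fun i j => PP (sS a b i) (sS a b j)
        (NUO.pA (Fil.cv (sS a b i) η) (Sum.elim x.1 x.2 i) -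
          NUO.pA (Fil.cv (sS a b j) η) (Sum.elim x.1 x.2 j)) := by
    funext i j
    rw [← pA_crv, ← pA_crv]
    rcases i with i | i <;> rcases j with j | j <;> rfl
  rw [e2]
  congr 1
  exact Finset.prod_congr rfl fun i _ => e1 i

include hZ in
theorem measurable_hq6 (P : Par6) {η η' : (Fin r → Xo) → ℝ → ℝ}
    (hη : Measurable fun p : (Fin r → Xo) × ℝ => η p.1 p.2)
    (hη' : Measurable fun p : (Fin r → Xo) × ℝ => η' p.1 p.2) (s : Bool) :
    Measurable fun p : (Fin r → Xo) × ℝ => hq6 Z P p.1 s (η p.1) (η' p.1) p.2 := by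
  have hpos : Measurable fun p : (Fin r → Xo) × ℝ => NUO.pA (η p.1) p.2 := by
    unfold NUO.pA vl
    fun_prop
  have h1 : Measurable fun p : (Fin r → Xo) × ℝ => (1 + dA (η' p.1) p.2 : ℂ) := by
    unfold dA
    fun_prop
  have h2 : Measurable fun p : (Fin r → Xo) × ℝ => (p.1, NUO.pA (η p.1) p.2) :=
    measurable_fst.prodMk hpos
  have h3 := (measurable_potOc6 P s).comp h2
  have h4 := (hZ s none).comp hpos
  refine (congrArg Measurable (funext fun p => ?_)).mpr ((h1.const_mul (2 * Real.pi : ℂ)⁻¹).mul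
    (h4.mul h3))
  rfl

include hZ in
theorem measurable_gK6 (P : Par6) {η η' : (Fin r → Xo) → ℝ → ℝ}
    (hη : Measurable fun p : (Fin r → Xo) × ℝ => η p.1 p.2)
    (hη' : Measurable fun p : (Fin r → Xo) × ℝ => η' p.1 p.2) (a b : ℕ) :
    Measurable fun p : (Fin r → Xo) × ((Fin a → ℝ) × (Fin b → ℝ)) =>
      gK (gF6 Z P p.1) (η p.1) (η' p.1) a b p.2 := by
  have hv : ∀ s, Measurable fun p : (Fin r → Xo) × ℝ => Fil.cv s (η p.1) p.2 := fun s =>
    Fil.measurable_cv_uncurry s hη
  have hv' : ∀ s, Measurable fun p : (Fin r → Xo) × ℝ => Fil.cv s (η' p.1) p.2 := fun s =>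
    Fil.measurable_cv_uncurry s hη'
  have hpos : ∀ s, Measurable fun p : (Fin r → Xo) × ℝ => NUO.pA (Fil.cv s (η p.1)) p.2 := by
    intro s
    have := hv s
    unfold NUO.pA vl
    fun_prop
  have hel : ∀ i : Fin a ⊕ Fin b, Measurable fun p : (Fin r → Xo) × ((Fin a → ℝ) × (Fin b → ℝ)) =>
      ((p.1, Sum.elim p.2.1 p.2.2 i) : (Fin r → Xo) × ℝ) := by
    rintro (i | i)
    · exact measurable_fst.prodMk ((measurable_pi_apply i).comp (measurable_fst.comp measurable_snd))
    · exact measurable_fst.prodMk ((measurable_pi_apply i).comp (measurable_snd.comp measurable_snd))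
  have hpi : ∀ i : Fin a ⊕ Fin b, Measurable fun p : (Fin r → Xo) × ((Fin a → ℝ) × (Fin b → ℝ)) =>
      NUO.pA (Fil.cv (sS a b i) (η p.1)) (Sum.elim p.2.1 p.2.2 i) := fun i =>
    (hpos (sS a b i)).comp (hel i)
  have hh1 := fun s => measurable_hq6 hZ P (η := fun O => Fil.cv s (η O))
    (η' := fun O => Fil.cv s (η' O)) (hv s) (hv' s) s
  have k1 : ∀ i : Fin a ⊕ Fin b, Measurable fun p : (Fin r → Xo) × ((Fin a → ℝ) × (Fin b → ℝ)) =>
      hq6 Z P p.1 (sS a b i) (Fil.cv (sS a b i) (η p.1)) (Fil.cv (sS a b i) (η' p.1))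
        (Sum.elim p.2.1 p.2.2 i) := by
    intro i
    have h3 := (hh1 (sS a b i)).comp (hel i)
    refine (congrArg Measurable (funext fun p => ?_)).mpr h3
    rfl
  have k2 : ∀ i j : Fin a ⊕ Fin b,
      Measurable fun p : (Fin r → Xo) × ((Fin a → ℝ) × (Fin b → ℝ)) => PP (sS a b i) (sS a b j)
        (NUO.pA (Fil.cv (sS a b i) (η p.1)) (Sum.elim p.2.1 p.2.2 i) -
          NUO.pA (Fil.cv (sS a b j) (η p.1)) (Sum.elim p.2.1 p.2.2 j)) := by
    intro i j
    have h3 := (measurable_PP (sS a b i) (sS a b j)).comp ((hpi i).sub (hpi j))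
    refine (congrArg Measurable (funext fun p => ?_)).mpr h3
    rfl
  have k3 := measurable_PU (fun i j (p : (Fin r → Xo) × ((Fin a → ℝ) × (Fin b → ℝ))) =>
      PP (sS a b i) (sS a b j)
        (NUO.pA (Fil.cv (sS a b i) (η p.1)) (Sum.elim p.2.1 p.2.2 i) -
          NUO.pA (Fil.cv (sS a b j) (η p.1)) (Sum.elim p.2.1 p.2.2 j))) k2
  have k4 := Finset.measurable_prod (Finset.univ (α := Fin a ⊕ Fin b)) fun i _ => k1 i
  refine (congrArg Measurable (funext fun p => ?_)).mpr (k4.mul k3)
  rw [gK_eq6]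
  rfl

end meas

section terms

variable [Fil]

variable {P : Par6} {Z : Bool → Option O3 → ℂ → ℂ} (hZ : ∀ s k, Measurable (Z s k)) {η η' : Crs}
  (hc : MCr η η') {Ψ : Ins} (hΨ : MIn Ψ) (n n' : ℕ)

include hZ hc hΨ

/-- the integrand of the quanta -/
theorem measurable_inner6 (r a b : ℕ) :
    Measurable fun p : (Fin r → Xo) × ((Fin a → ℝ) × (Fin b → ℝ)) =>
      gK (gF6 Z P p.1) (η r p.1) (η' r p.1) a b p.2 * Ψ r p.1 a b p.2 :=
  (measurable_gK6 hZ P (hc.m r) (hc.m' r) a b).mul (hΨ r a b)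

theorem measurable_trm6 (r : ℕ) : Measurable fun O : Fin r → Xo => trm6 Z P n n' η η' Ψ r O := by
  have hW := measurable_wK6 (r := r) hZ P
  have hg := fun a b => ((measurable_inner6 (P := P) hZ hc hΨ r a
    b).stronglyMeasurable.integral_prod_right'
    (ν := (volume : Measure ((Fin a → ℝ) × (Fin b → ℝ))))).measurable
  have h1 : ∀ a b : ℕ, Measurable fun O : Fin r → Xo => wK6 Z P O *
      (((a.factorial : ℂ) * b.factorial)⁻¹ * ∫ x : (Fin a → ℝ) × (Fin b → ℝ),
        gK (gF6 Z P O) (η r O) (η' r O) a b x * Ψ r O a b x) := fun a b =>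
    hW.mul ((hg a b).const_mul _)
  have h2 := measurable_sel6 n n' h1 measurable_id
  exact Measurable.ite (measurableSet_cnd6 n n' r) h2 measurable_const

theorem measurable_trA6 (r : ℕ) : Measurable fun O : Fin r → Xo => trA6 Z P n n' η η' Ψ r O := by
  have hW := (measurable_wK6 (r := r) hZ P).enorm
  have hg := fun a b => Measurable.lintegral_prod_right'
    (ν := (volume : Measure ((Fin a → ℝ) × (Fin b → ℝ))))
    (((measurable_gK6 hZ P (hc.m r) (hc.m' r) a b).enorm).mul (hΨ r a b).enorm)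
  have h1 : ∀ a b : ℕ, Measurable fun O : Fin r → Xo => ‖wK6 Z P O‖ₑ *
      (((a.factorial : ℝ≥0∞) * b.factorial)⁻¹ * ∫⁻ x : (Fin a → ℝ) × (Fin b → ℝ),
        ‖gK (gF6 Z P O) (η r O) (η' r O) a b x‖ₑ * ‖Ψ r O a b x‖ₑ) := fun a b =>
    hW.mul ((hg a b).const_mul _)
  have h2 := measurable_sel6 n n' h1 measurable_id
  exact Measurable.ite (measurableSet_cnd6 n n' r) h2 measurable_const

/-- **admissible insertions from finiteness** -/
theorem good_of6 (hf : FA6 Z P n n' η η' Ψ < ∞) : Good6 Z P n n' η η' Ψ where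
  mi r _ := ((measurable_inner6 hZ hc hΨ r _ _).comp (measurable_const.prodMk
    measurable_id)).aestronglyMeasurable
  mo r := (measurable_trm6 hZ hc hΨ n n' r).aestronglyMeasurable
  fin := hf
  ma r := (measurable_trA6 hZ hc hΨ n n' r).aemeasurable

end terms

/-! ### with a parameter -/

section param

variable [Fil]

variable {P : Par6} {Z : Bool → Option O3 → ℂ → ℂ} (hZ : ∀ s k, Measurable (Z s k)) {η η' : Crs}
  (hc : MCr η η') {S : Type*} [MeasurableSpace S] {Ψ : S → Ins}
  (hΨ : ∀ r a b, Measurable fun p : S × ((Fin r → Xo) × ((Fin a → ℝ) × (Fin b → ℝ))) =>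
    Ψ p.1 r p.2.1 a b p.2.2) (n n' : ℕ)

include hZ hc hΨ

/-- the integrand of the quanta, with a parameter -/
theorem measurable_inner_s6 (r a b : ℕ) :
    Measurable fun q : (S × (Fin r → Xo)) × ((Fin a → ℝ) × (Fin b → ℝ)) =>
      gK (gF6 Z P q.1.2) (η r q.1.2) (η' r q.1.2) a b q.2 * Ψ q.1.1 r q.1.2 a b q.2 := by
  have p1 : Measurable fun q : (S × (Fin r → Xo)) × ((Fin a → ℝ) × (Fin b → ℝ)) => (q.1.2, q.2) :=
    measurable_fst.snd.prodMk measurable_snd
  have p2 : Measurable fun q : (S × (Fin r → Xo)) × ((Fin a → ℝ) × (Fin b → ℝ)) =>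
      (q.1.1, (q.1.2, q.2)) := measurable_fst.fst.prodMk p1
  have h1 := (measurable_gK6 hZ P (hc.m r) (hc.m' r) a b).comp p1
  have h2 := (hΨ r a b).comp p2
  refine (congrArg Measurable (funext fun p => ?_)).mpr (h1.mul h2)
  rfl

theorem measurable_innA_s6 (r a b : ℕ) :
    Measurable fun q : (S × (Fin r → Xo)) × ((Fin a → ℝ) × (Fin b → ℝ)) =>
      ‖gK (gF6 Z P q.1.2) (η r q.1.2) (η' r q.1.2) a b q.2‖ₑ * ‖Ψ q.1.1 r q.1.2 a b q.2‖ₑ := by
  refine (congrArg Measurable (funext fun p => ?_)).mpr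
    (measurable_inner_s6 (P := P) hZ hc hΨ r a b).enorm
  exact (enorm_mul _ _).symm

theorem measurable_trm_s6 (r : ℕ) :
    Measurable fun p : S × (Fin r → Xo) => trm6 Z P n n' η η' (Ψ p.1) r p.2 := by
  have hs : Measurable fun p : S × (Fin r → Xo) => p.2 := measurable_snd
  have hW := (measurable_wK6 (r := r) hZ P).comp hs
  have hg := fun a b => ((measurable_inner_s6 (P := P) hZ hc hΨ r a
    b).stronglyMeasurable.integral_prod_right'
    (ν := (volume : Measure ((Fin a → ℝ) × (Fin b → ℝ))))).measurable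
  have h1 : ∀ a b : ℕ, Measurable fun p : S × (Fin r → Xo) => wK6 Z P p.2 *
      (((a.factorial : ℂ) * b.factorial)⁻¹ * ∫ x : (Fin a → ℝ) × (Fin b → ℝ),
        gK (gF6 Z P p.2) (η r p.2) (η' r p.2) a b x * Ψ p.1 r p.2 a b x) := fun a b =>
    hW.mul ((hg a b).const_mul _)
  have h2 := measurable_sel6 n n' h1 (f := fun p : S × (Fin r → Xo) => p.2) measurable_snd
  have h3 : MeasurableSet {p : S × (Fin r → Xo) |
      chgO6 p.2 true ≤ n ∧ chgO6 p.2 false ≤ n' ∧ cnt6 p.2} :=
    measurable_snd (measurableSet_cnd6 n n' r)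
  exact Measurable.ite h3 h2 measurable_const

theorem measurable_trA_s6 (r : ℕ) :
    Measurable fun p : S × (Fin r → Xo) => trA6 Z P n n' η η' (Ψ p.1) r p.2 := by
  have hs : Measurable fun p : S × (Fin r → Xo) => p.2 := measurable_snd
  have hW := ((measurable_wK6 (r := r) hZ P).enorm).comp hs
  have hg := fun a b => Measurable.lintegral_prod_right'
    (ν := (volume : Measure ((Fin a → ℝ) × (Fin b → ℝ))))
    (measurable_innA_s6 (P := P) hZ hc hΨ r a b)
  have h1 : ∀ a b : ℕ, Measurable fun p : S × (Fin r → Xo) => ‖wK6 Z P p.2‖ₑ *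
      (((a.factorial : ℝ≥0∞) * b.factorial)⁻¹ * ∫⁻ x : (Fin a → ℝ) × (Fin b → ℝ),
        ‖gK (gF6 Z P p.2) (η r p.2) (η' r p.2) a b x‖ₑ * ‖Ψ p.1 r p.2 a b x‖ₑ) := fun a b =>
    hW.mul ((hg a b).const_mul _)
  have h2 := measurable_sel6 n n' h1 (f := fun p : S × (Fin r → Xo) => p.2) measurable_snd
  have h3 : MeasurableSet {p : S × (Fin r → Xo) |
      chgO6 p.2 true ≤ n ∧ chgO6 p.2 false ≤ n' ∧ cnt6 p.2} :=
    measurable_snd (measurableSet_cnd6 n n' r)
  exact Measurable.ite h3 h2 measurable_const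

end param

end PHK

end
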