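import Pool.Agent.PHK.FDef6
import Pool.Agent.PLX.PB.Conf

/-!
# The particle-hole form (P): one measure space for the functional `FF6` and its modulus `FA6`

* `Cf6 n n'` : configurations, `Σ (r, a, b), (Fin r → Xo) × ((Fin a → ℝ) × (Fin b → ℝ))`, `r ≤ 2 (n + n')`;
* `mC6`, `wC6` : the measure, the weight (zero unless the charges fit and `cnt6`), `ev6 Ψ` the insertion;
* **`FA6_eq`** : `FA6 Ψ = ∫⁻ ‖w‖ ‖Ψ‖`; **`FF6_eq`** : `FF6 Ψ = ∫ w Ψ` if `FA6 Ψ < ∞`
  (curves `MCr`, insertions `MIn` jointly measurable);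
* `CfN6 N`, `mN6`, `wN6`, `evN6` : the same with the sum over the numbers `n ≤ N` of quanta X and
  `n + dN N` of quanta Y (coefficients `c n`, data depending on `n`);
* **`FAN6_eq`**, **`FFN6_eq`**, `WIN_of6`: the sums as `∫⁻ ‖w‖ ‖Ψ‖` and `PBFunc.F mN6 wN6 (evN6 Ψ)`.
-/

set_option autoImplicit false
set_option linter.unusedSectionVars false

noncomputable section

open Complex MeasureTheory Finset
open scoped ENNReal

open PLX (Fil)

namespace PHK

open NUO NUP1 NUCR NUP1S NUP1S.Ab NUP1S.AbC NUGC NUGC.PLX PBFunc PBFunc.PLX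
open PBF.PLX (gK Ins Crs enorm_inv_natCast enorm_fac MCr MIn dN)

/-! ### the configuration space -/

/-- number of objects, numbers of quanta X, Y on the curve -/
abbrev CIx6 (n n' : ℕ) : Type := Fin (2 * (n + n') + 1) × Fin (n + 1) × Fin (n' + 1)

/-- one piece -/
abbrev Pc6 {n n' : ℕ} (i : CIx6 n n') : Type :=
  (Fin (i.1 : ℕ) → Xo) × ((Fin (i.2.1 : ℕ) → ℝ) × (Fin (i.2.2 : ℕ) → ℝ))

/-- configurations -/
abbrev Cf6 (n n' : ℕ) : Type := Σ i : CIx6 n n', Pc6 i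

/-- measure on one piece -/
def mP6 {n n' : ℕ} (i : CIx6 n n') : Measure (Pc6 i) :=
  (Measure.pi fun _ : Fin (i.1 : ℕ) => nu).prod
    (volume : Measure ((Fin (i.2.1 : ℕ) → ℝ) × (Fin (i.2.2 : ℕ) → ℝ)))

instance {n n' : ℕ} (i : CIx6 n n') : SigmaFinite (mP6 i) := by unfold mP6; infer_instance

/-- the measure -/
def mC6 (n n' : ℕ) : Measure (Cf6 n n') := sig fun i => mP6 i

instance (n n' : ℕ) : SFinite (mC6 n n') := by unfold mC6; infer_instance

/-- the charges fit and `cnt6` -/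
def fit6 (n n' : ℕ) {r : ℕ} (O : Fin r → Xo) (a b : ℕ) : Prop :=
  (chgO6 O true + (a : ℤ) = n ∧ chgO6 O false + (b : ℤ) = n') ∧ cnt6 O

instance (n n' : ℕ) {r : ℕ} (O : Fin r → Xo) (a b : ℕ) : Decidable (fit6 n n' O a b) := by
  unfold fit6
  infer_instance

/-- the condition of the terms -/
def fits6 (n n' : ℕ) {r : ℕ} (O : Fin r → Xo) : Prop :=
  chgO6 O true ≤ n ∧ chgO6 O false ≤ n' ∧ cnt6 O

theorem fit6_self {n n' : ℕ} {r : ℕ} {O : Fin r → Xo} (h : fits6 n n' O) :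
    fit6 n n' O (nA6 n O true) (nA6 n' O false) := by
  obtain ⟨h1, h2, h3⟩ := h
  refine ⟨⟨?_, ?_⟩, h3⟩
  · unfold nA6
    omega
  · unfold nA6
    omega

theorem fits6_of {n n' : ℕ} {r : ℕ} {O : Fin r → Xo} {a b : ℕ} (h : fit6 n n' O a b) :
    fits6 n n' O := by
  obtain ⟨⟨h1, h2⟩, h3⟩ := h
  exact ⟨by omega, by omega, h3⟩

theorem fit6_eq {n n' : ℕ} {r : ℕ} {O : Fin r → Xo} {a b : ℕ} (h : fit6 n n' O a b) :
    a = nA6 n O true ∧ b = nA6 n' O false := by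
  obtain ⟨⟨h1, h2⟩, h3⟩ := h
  exact ⟨(nA6_eq h1).symm, (nA6_eq h2).symm⟩

variable [Fil]

variable (Z : Bool → Option O3 → ℂ → ℂ) (P : Par6) (n n' : ℕ) (η η' : Crs)

/-- the weight on one piece -/
def wP6 (i : CIx6 n n') (p : Pc6 i) : ℂ :=
  if fit6 n n' p.1 i.2.1 i.2.2 then
    (((i.1 : ℕ).factorial : ℕ) : ℂ)⁻¹ * (wK6 Z P p.1 *
      (((((i.2.1 : ℕ).factorial : ℕ) : ℂ) * (((i.2.2 : ℕ).factorial : ℕ) : ℂ))⁻¹ *
        gK (gF6 Z P p.1) (η i.1 p.1) (η' i.1 p.1) i.2.1 i.2.2 p.2))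
  else 0

/-- **the weight** -/
def wC6 : Cf6 n n' → ℂ := fun c => wP6 Z P n n' η η' c.1 c.2

/-- the insertion as a function of the configuration -/
def ev6 {n n' : ℕ} (Ψ : Ins) : Cf6 n n' → ℂ := fun c => Ψ c.1.1 c.2.1 c.1.2.1 c.1.2.2 c.2.2

/-- joint measurability of the weights -/
structure MC6 : Prop where
  w : ∀ r : ℕ, Measurable fun O : Fin r → Xo => wK6 Z P O
  g : ∀ r a b : ℕ, Measurable fun p : (Fin r → Xo) × ((Fin a → ℝ) × (Fin b → ℝ)) =>
    gK (gF6 Z P p.1) (η r p.1) (η' r p.1) a b p.2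

variable {Z P n n' η η'}

theorem MIn.ev6 {Ψ : Ins} (h : MIn Ψ) : Measurable (ev6 Ψ : Cf6 n n' → ℂ) :=
  meas_sig.2 fun i => h i.1 i.2.1 i.2.2

omit [Fil] in
theorem measurableSet_cnt6 (r : ℕ) : MeasurableSet {O : Fin r → Xo | cnt6 O} := by
  have h : ∀ s : Bool, MeasurableSet {O : Fin r → Xo | ∑ i, hl6 s (O i) ≤ ∑ i, sat6 s (O i)} := by
    intro s
    have h1 : Measurable (hl6 s) := by
      have h2 : hl6 s = fun x => (fun (k : Bool × Kd6) (_ : ℝ) =>
          (match k.2 with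
            | .L => 0
            | .T => 0
            | .E => 0
            | .F => if k.1 = s then 1 else 0
            | .H1 => if k.1 = s then 1 else 0
            | .H2 => if k.1 = s then 1 else 0 : ℕ)) (sp x, k6 x) (ht x) := by
        funext x
        unfold hl6
        rcases k6 x with _ | _ | _ | _ | _ | _ <;> rfl
      rw [h2]
      exact measurable_of6 (F := fun (k : Bool × Kd6) (_ : ℝ) =>
          (match k.2 with
            | .L => 0
            | .T => 0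
            | .E => 0
            | .F => if k.1 = s then 1 else 0
            | .H1 => if k.1 = s then 1 else 0
            | .H2 => if k.1 = s then 1 else 0 : ℕ)) fun k => measurable_const
    have h1' : Measurable (sat6 s) := by
      have h2 : sat6 s = fun x => (fun (k : Bool × Kd6) (_ : ℝ) =>
          (match k.2 with
            | .L => 0
            | .T => 0
            | .E => if k.1 = s then 0 else 2
            | .F => if k.1 = s then 0 else 2
            | .H1 => 0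
            | .H2 => 0 : ℕ)) (sp x, k6 x) (ht x) := by
        funext x
        unfold sat6
        rcases k6 x with _ | _ | _ | _ | _ | _ <;> rfl
      rw [h2]
      exact measurable_of6 (F := fun (k : Bool × Kd6) (_ : ℝ) =>
          (match k.2 with
            | .L => 0
            | .T => 0
            | .E => if k.1 = s then 0 else 2
            | .F => if k.1 = s then 0 else 2
            | .H1 => 0
            | .H2 => 0 : ℕ)) fun k => measurable_const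
    refine measurableSet_le ?_ ?_
    · exact Finset.measurable_sum _ fun i _ => h1.comp (measurable_pi_apply i)
    · exact Finset.measurable_sum _ fun i _ => h1'.comp (measurable_pi_apply i)
  have e : {O : Fin r → Xo | cnt6 O} =
      {O : Fin r → Xo | ∑ i, hl6 true (O i) ≤ ∑ i, sat6 true (O i)} ∩
        {O : Fin r → Xo | ∑ i, hl6 false (O i) ≤ ∑ i, sat6 false (O i)} := by
    ext O
    constructor
    · intro h
      exact ⟨h true, h false⟩
    · rintro ⟨h1, h2⟩ s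
      cases s
      · exact h2
      · exact h1
  rw [e]
  exact (h true).inter (h false)

omit [Fil] in
theorem meas_fit6 (i : CIx6 n n') :
    MeasurableSet {p : Pc6 i | fit6 n n' p.1 i.2.1 i.2.2} := by
  have h1 : Measurable fun p : Pc6 i => chgO6 p.1 true := (measurable_chgO6 true).comp measurable_fst
  have h2 : Measurable fun p : Pc6 i => chgO6 p.1 false :=
    (measurable_chgO6 false).comp measurable_fst
  exact ((measurableSet_eq_fun (h1.add_const _) measurable_const).inter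
    (measurableSet_eq_fun (h2.add_const _) measurable_const)).inter
      (measurable_fst (measurableSet_cnt6 _))

theorem MC6.wP (h : MC6 Z P η η') (i : CIx6 n n') : Measurable (wP6 Z P n n' η η' i) := by
  unfold wP6
  refine Measurable.ite (meas_fit6 i) ?_ measurable_const
  exact ((((h.w _).comp measurable_fst).mul ((h.g _ _ _).const_mul _)).const_mul _)

theorem MC6.wC (h : MC6 Z P η η') : Measurable (wC6 Z P n n' η η') := meas_sig.2 fun i => h.wP i

/-! ### the pieces -/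

omit [Fil] in
theorem not_fits6 {r : ℕ} (hr : ¬ r ≤ 2 * (n + n')) (O : Fin r → Xo) : ¬ fits6 n n' O := by
  rintro ⟨h1, h2, h3⟩
  exact hr (r_le6 h1 h2 h3)

/-- the pieces of one configuration of objects, moduli -/
theorem sum_wP_enorm6 (Ψ : Ins) (r : Fin (2 * (n + n') + 1)) (O : Fin (r : ℕ) → Xo) :
    ∑ ab : Fin (n + 1) × Fin (n' + 1), ∫⁻ x, ‖wP6 Z P n n' η η' (r, ab) (O, x)‖ₑ *
      ‖Ψ r O ab.1 ab.2 x‖ₑ = (((r : ℕ).factorial : ℕ) : ℝ≥0∞)⁻¹ * trA6 Z P n n' η η' Ψ r O := by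
  unfold trA6
  by_cases hc : chgO6 O true ≤ n ∧ chgO6 O false ≤ n' ∧ cnt6 O
  · rw [if_pos hc]
    have hA : nA6 n O true < n + 1 := Nat.lt_succ_of_le (nA6_le hc.2.2 true)
    have hB : nA6 n' O false < n' + 1 := Nat.lt_succ_of_le (nA6_le hc.2.2 false)
    rw [Finset.sum_eq_single ((⟨nA6 n O true, hA⟩, ⟨nA6 n' O false, hB⟩) :
      Fin (n + 1) × Fin (n' + 1))]
    · have hcond : fit6 n n' O (nA6 n O true) (nA6 n' O false) := fit6_self hc
      have e : ∀ x, ‖wP6 Z P n n' η η'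
          (r, ((⟨nA6 n O true, hA⟩, ⟨nA6 n' O false, hB⟩) : Fin (n + 1) × Fin (n' + 1)))
            (O, x)‖ₑ * ‖Ψ r O (nA6 n O true) (nA6 n' O false) x‖ₑ =
          ((((r : ℕ).factorial : ℕ) : ℝ≥0∞)⁻¹ * (‖wK6 Z P O‖ₑ *
            (((nA6 n O true).factorial : ℝ≥0∞) * (nA6 n' O false).factorial)⁻¹)) *
            (‖gK (gF6 Z P O) (η r O) (η' r O) (nA6 n O true) (nA6 n' O false) x‖ₑ *
              ‖Ψ r O (nA6 n O true) (nA6 n' O false) x‖ₑ) := by
        intro x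
        unfold wP6
        rw [if_pos hcond, enorm_mul, enorm_mul, enorm_mul,
          enorm_inv_natCast _ (Nat.factorial_ne_zero _), enorm_fac]
        ring
      show ∫⁻ x, ‖wP6 Z P n n' η η'
          (r, ((⟨nA6 n O true, hA⟩, ⟨nA6 n' O false, hB⟩) : Fin (n + 1) × Fin (n' + 1)))
            (O, x)‖ₑ * ‖Ψ r O (nA6 n O true) (nA6 n' O false) x‖ₑ = _
      simp only [e]
      rw [lintegral_const_mul']
      · ring
      · refine ENNReal.mul_ne_top (ENNReal.inv_ne_top.2 (by exact_mod_cast Nat.factorial_ne_zero _))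
          (ENNReal.mul_ne_top enorm_ne_top (ENNReal.inv_ne_top.2 ?_))
        exact mul_ne_zero (by exact_mod_cast Nat.factorial_ne_zero _)
          (by exact_mod_cast Nat.factorial_ne_zero _)
    · rintro ⟨a, b⟩ - hne
      have : ¬ fit6 n n' O a b := by
        intro hf
        obtain ⟨h1, h2⟩ := fit6_eq hf
        exact hne (Prod.ext (Fin.ext h1) (Fin.ext h2))
      have e : ∀ x, ‖wP6 Z P n n' η η' (r, (a, b)) (O, x)‖ₑ * ‖Ψ r O a b x‖ₑ = 0 := by
        intro x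
        unfold wP6
        rw [if_neg this]
        simp
      simp only [e, lintegral_zero]
    · intro h
      exact absurd (Finset.mem_univ _) h
  · rw [if_neg hc, mul_zero]
    refine Finset.sum_eq_zero fun ab _ => ?_
    have : ¬ fit6 n n' O ab.1 ab.2 := fun hf => hc (fits6_of hf)
    have e : ∀ x, ‖wP6 Z P n n' η η' (r, ab) (O, x)‖ₑ * ‖Ψ r O ab.1 ab.2 x‖ₑ = 0 := by
      intro x
      unfold wP6
      rw [if_neg this]
      simp
    simp only [e, lintegral_zero]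

/-- the pieces of one configuration of objects -/
theorem sum_wP6 (Ψ : Ins) (r : Fin (2 * (n + n') + 1)) (O : Fin (r : ℕ) → Xo) :
    ∑ ab : Fin (n + 1) × Fin (n' + 1), ∫ x, wP6 Z P n n' η η' (r, ab) (O, x) *
      Ψ r O ab.1 ab.2 x = (((r : ℕ).factorial : ℕ) : ℂ)⁻¹ * trm6 Z P n n' η η' Ψ r O := by
  unfold trm6
  by_cases hc : chgO6 O true ≤ n ∧ chgO6 O false ≤ n' ∧ cnt6 O
  · rw [if_pos hc]
    have hA : nA6 n O true < n + 1 := Nat.lt_succ_of_le (nA6_le hc.2.2 true)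
    have hB : nA6 n' O false < n' + 1 := Nat.lt_succ_of_le (nA6_le hc.2.2 false)
    rw [Finset.sum_eq_single ((⟨nA6 n O true, hA⟩, ⟨nA6 n' O false, hB⟩) :
      Fin (n + 1) × Fin (n' + 1))]
    · have hcond : fit6 n n' O (nA6 n O true) (nA6 n' O false) := fit6_self hc
      have e : ∀ x, wP6 Z P n n' η η'
          (r, ((⟨nA6 n O true, hA⟩, ⟨nA6 n' O false, hB⟩) : Fin (n + 1) × Fin (n' + 1)))
            (O, x) * Ψ r O (nA6 n O true) (nA6 n' O false) x =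
          ((((r : ℕ).factorial : ℕ) : ℂ)⁻¹ * (wK6 Z P O *
            (((nA6 n O true).factorial : ℂ) * (nA6 n' O false).factorial)⁻¹)) *
            (gK (gF6 Z P O) (η r O) (η' r O) (nA6 n O true) (nA6 n' O false) x *
              Ψ r O (nA6 n O true) (nA6 n' O false) x) := by
        intro x
        unfold wP6
        rw [if_pos hcond]
        ring
      show ∫ x, wP6 Z P n n' η η'
          (r, ((⟨nA6 n O true, hA⟩, ⟨nA6 n' O false, hB⟩) : Fin (n + 1) × Fin (n' + 1)))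
            (O, x) * Ψ r O (nA6 n O true) (nA6 n' O false) x = _
      simp only [e]
      rw [integral_const_mul]
      ring
    · rintro ⟨a, b⟩ - hne
      have : ¬ fit6 n n' O a b := by
        intro hf
        obtain ⟨h1, h2⟩ := fit6_eq hf
        exact hne (Prod.ext (Fin.ext h1) (Fin.ext h2))
      have e : ∀ x, wP6 Z P n n' η η' (r, (a, b)) (O, x) * Ψ r O a b x = 0 := by
        intro x
        unfold wP6
        rw [if_neg this, zero_mul]
      simp only [e, integral_zero]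
    · intro h
      exact absurd (Finset.mem_univ _) h
  · rw [if_neg hc, mul_zero]
    refine Finset.sum_eq_zero fun ab _ => ?_
    have : ¬ fit6 n n' O ab.1 ab.2 := fun hf => hc (fits6_of hf)
    have e : ∀ x, wP6 Z P n n' η η' (r, ab) (O, x) * Ψ r O ab.1 ab.2 x = 0 := by
      intro x
      unfold wP6
      rw [if_neg this, zero_mul]
    simp only [e, integral_zero]

/-! ### the modulus -/

/-- **the functional with moduli as an integral** -/
theorem FA6_eq (h : MC6 Z P η η') {Ψ : Ins} (hΨ : MIn Ψ) :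
    FA6 Z P n n' η η' Ψ = ∫⁻ c, ‖wC6 Z P n n' η η' c‖ₑ * ‖ev6 Ψ c‖ₑ ∂(mC6 n n') := by
  have hm : ∀ i : CIx6 n n', Measurable fun p : Pc6 i => ‖wP6 Z P n n' η η' i p‖ₑ *
      ‖Ψ i.1 p.1 i.2.1 i.2.2 p.2‖ₑ := fun i => (h.wP i).enorm.mul (hΨ _ _ _).enorm
  have e1 : ∫⁻ c, ‖wC6 Z P n n' η η' c‖ₑ * ‖ev6 Ψ c‖ₑ ∂(mC6 n n') =
      ∑ i : CIx6 n n', ∫⁻ p : Pc6 i, ‖wP6 Z P n n' η η' i p‖ₑ *
        ‖Ψ i.1 p.1 i.2.1 i.2.2 p.2‖ₑ ∂(mP6 i) := by
    unfold mC6
    rw [lintegral_sig]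
    rfl
  have e2 : ∀ i : CIx6 n n', ∫⁻ p : Pc6 i, ‖wP6 Z P n n' η η' i p‖ₑ *
      ‖Ψ i.1 p.1 i.2.1 i.2.2 p.2‖ₑ ∂(mP6 i) =
      ∫⁻ O : Fin (i.1 : ℕ) → Xo, (∫⁻ x, ‖wP6 Z P n n' η η' i (O, x)‖ₑ *
        ‖Ψ i.1 O i.2.1 i.2.2 x‖ₑ) ∂(Measure.pi fun _ => nu) := by
    intro i
    unfold mP6
    exact lintegral_prod _ (hm i).aemeasurable
  rw [e1, Fintype.sum_prod_type]
  unfold FA6
  rw [Finset.sum_range]
  refine Finset.sum_congr rfl fun r _ => ?_
  simp only [e2]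
  have e3 : ∑ ab : Fin (n + 1) × Fin (n' + 1), ∫⁻ O : Fin (r : ℕ) → Xo,
      (∫⁻ x, ‖wP6 Z P n n' η η' (r, ab) (O, x)‖ₑ * ‖Ψ r O ab.1 ab.2 x‖ₑ)
        ∂(Measure.pi fun _ => nu) =
      ∫⁻ O : Fin (r : ℕ) → Xo, ∑ ab : Fin (n + 1) × Fin (n' + 1),
        (∫⁻ x, ‖wP6 Z P n n' η η' (r, ab) (O, x)‖ₑ * ‖Ψ r O ab.1 ab.2 x‖ₑ)
        ∂(Measure.pi fun _ => nu) :=
    (lintegral_finsetSum' _ fun ab _ => ((hm (r, ab)).lintegral_prod_right').aemeasurable).symm
  have e4 : (((r : ℕ).factorial : ℕ) : ℝ≥0∞)⁻¹ *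
      ∫⁻ O : Fin (r : ℕ) → Xo, trA6 Z P n n' η η' Ψ r O ∂(Measure.pi fun _ => nu) =
      ∫⁻ O : Fin (r : ℕ) → Xo, (((r : ℕ).factorial : ℕ) : ℝ≥0∞)⁻¹ * trA6 Z P n n' η η' Ψ r O
        ∂(Measure.pi fun _ => nu) :=
    (lintegral_const_mul' _ _ (ENNReal.inv_ne_top.2
      (by exact_mod_cast Nat.factorial_ne_zero _))).symm
  rw [e3, e4]
  exact lintegral_congr fun O => (sum_wP_enorm6 Ψ r O).symm

/-- integrability with respect to the weight -/
theorem WI_of6 (h : MC6 Z P η η') {Ψ : Ins} (hΨ : MIn Ψ) (hf : FA6 Z P n n' η η' Ψ < ∞) :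
    WI (mC6 n n') (wC6 Z P n n' η η') (ev6 Ψ) := by
  refine ⟨(h.wC.mul (MIn.ev6 hΨ)).aestronglyMeasurable, ?_⟩
  rw [FA6_eq h hΨ] at hf
  unfold HasFiniteIntegral
  simpa only [enorm_mul] using hf

/-- **the functional as an integral** -/
theorem FF6_eq (h : MC6 Z P η η') {Ψ : Ins} (hΨ : MIn Ψ) (hf : FA6 Z P n n' η η' Ψ < ∞) :
    FF6 Z P n n' η η' Ψ = F (mC6 n n') (wC6 Z P n n' η η') (ev6 Ψ) := by
  have hI := WI_of6 h hΨ hf
  have hI' : ∀ i : CIx6 n n', Integrable (fun p : Pc6 i => wP6 Z P n n' η η' i p *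
      Ψ i.1 p.1 i.2.1 i.2.2 p.2) (mP6 i) := integrable_sig.1 hI
  have e1 : F (mC6 n n') (wC6 Z P n n' η η') (ev6 Ψ) =
      ∑ i : CIx6 n n', ∫ p : Pc6 i, wP6 Z P n n' η η' i p * Ψ i.1 p.1 i.2.1 i.2.2 p.2 ∂(mP6 i) :=
    F_sig hI'
  have e2 : ∀ i : CIx6 n n', ∫ p : Pc6 i, wP6 Z P n n' η η' i p *
      Ψ i.1 p.1 i.2.1 i.2.2 p.2 ∂(mP6 i) =
      ∫ O : Fin (i.1 : ℕ) → Xo, (∫ x, wP6 Z P n n' η η' i (O, x) * Ψ i.1 O i.2.1 i.2.2 x)
        ∂(Measure.pi fun _ => nu) := by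
    intro i
    have := hI' i
    unfold mP6 at this ⊢
    exact integral_prod _ this
  rw [e1, Fintype.sum_prod_type]
  unfold FF6
  rw [Finset.sum_range]
  refine Finset.sum_congr rfl fun r _ => ?_
  simp only [e2]
  have e3 : ∑ ab : Fin (n + 1) × Fin (n' + 1), ∫ O : Fin (r : ℕ) → Xo,
      (∫ x, wP6 Z P n n' η η' (r, ab) (O, x) * Ψ r O ab.1 ab.2 x)
        ∂(Measure.pi fun _ => nu) =
      ∫ O : Fin (r : ℕ) → Xo, ∑ ab : Fin (n + 1) × Fin (n' + 1),
        (∫ x, wP6 Z P n n' η η' (r, ab) (O, x) * Ψ r O ab.1 ab.2 x)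
        ∂(Measure.pi fun _ => nu) := by
    refine (integral_finsetSum _ fun ab _ => ?_).symm
    have := hI' (r, ab)
    unfold mP6 at this
    exact this.integral_prod_left
  have e4 : (((r : ℕ).factorial : ℕ) : ℂ)⁻¹ *
      ∫ O : Fin (r : ℕ) → Xo, trm6 Z P n n' η η' Ψ r O ∂(Measure.pi fun _ => nu) =
      ∫ O : Fin (r : ℕ) → Xo, (((r : ℕ).factorial : ℕ) : ℂ)⁻¹ * trm6 Z P n n' η η' Ψ r O
        ∂(Measure.pi fun _ => nu) := (integral_const_mul _ _).symm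
  rw [e3, e4]
  exact integral_congr_ae (Filter.Eventually.of_forall fun O => (sum_wP6 Ψ r O).symm)

/-! ### the sum over the number of quanta -/

section sumn

/-- configurations with `n ≤ N` quanta X and `n + dN N` quanta Y -/
abbrev CfN6 (N : ℕ) : Type := Σ n : Fin (N + 1), Cf6 (n : ℕ) ((n : ℕ) + dN N)

/-- the measure -/
def mN6 (N : ℕ) : Measure (CfN6 N) := sig fun n => mC6 (n : ℕ) ((n : ℕ) + dN N)

instance (N : ℕ) : SFinite (mN6 N) := by unfold mN6; infer_instance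

variable (Z : ℕ → Bool → Option O3 → ℂ → ℂ) (P : ℕ → Par6) (N : ℕ) (η η' : ℕ → Crs) (c : ℕ → ℂ)

/-- the weight -/
def wN6 : CfN6 N → ℂ := fun x =>
  c x.1 * wC6 (Z x.1) (P x.1) x.1 (x.1 + dN N) (η x.1) (η' x.1) x.2

/-- the insertion -/
def evN6 {N : ℕ} (Ψ : ℕ → Ins) : CfN6 N → ℂ := fun x => ev6 (Ψ x.1) x.2

/-- the sum of the functionals -/
def FFN6 (Ψ : ℕ → Ins) : ℂ :=
  ∑ n ∈ range (N + 1), c n * FF6 (Z n) (P n) n (n + dN N) (η n) (η' n) (Ψ n)

/-- the sum of the moduli -/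
def FAN6 (Ψ : ℕ → Ins) : ℝ≥0∞ :=
  ∑ n ∈ range (N + 1), ‖c n‖ₑ * FA6 (Z n) (P n) n (n + dN N) (η n) (η' n) (Ψ n)

variable {Z P N η η' c}

theorem evN_meas6 {Ψ : ℕ → Ins} (h : ∀ n ≤ N, MIn (Ψ n)) : Measurable (evN6 Ψ : CfN6 N → ℂ) :=
  meas_sig.2 fun n => MIn.ev6 (h n (by omega))

theorem wN_meas6 (h : ∀ n ≤ N, MC6 (Z n) (P n) (η n) (η' n)) : Measurable (wN6 Z P N η η' c) :=
  meas_sig.2 fun n =>
    ((h n (by omega)).wC (n := (n : ℕ)) (n' := (n : ℕ) + dN N)).const_mul (c n)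

/-- **the sum of the moduli as an integral** -/
theorem FAN6_eq (h : ∀ n ≤ N, MC6 (Z n) (P n) (η n) (η' n)) {Ψ : ℕ → Ins}
    (hΨ : ∀ n ≤ N, MIn (Ψ n)) :
    FAN6 Z P N η η' c Ψ = ∫⁻ x, ‖wN6 Z P N η η' c x‖ₑ * ‖evN6 Ψ x‖ₑ ∂(mN6 N) := by
  unfold FAN6 mN6
  rw [lintegral_sig, Finset.sum_range]
  refine Finset.sum_congr rfl fun n _ => ?_
  rw [FA6_eq (h n (by omega)) (hΨ n (by omega)), ← lintegral_const_mul' _ _ enorm_ne_top]
  refine lintegral_congr fun x => ?_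
  unfold wN6 evN6
  rw [enorm_mul, mul_assoc]

theorem WIN_of6 (h : ∀ n ≤ N, MC6 (Z n) (P n) (η n) (η' n)) {Ψ : ℕ → Ins}
    (hΨ : ∀ n ≤ N, MIn (Ψ n)) (hf : FAN6 Z P N η η' c Ψ < ∞) :
    WI (mN6 N) (wN6 Z P N η η' c) (evN6 Ψ) := by
  refine ⟨((wN_meas6 h).mul (evN_meas6 hΨ)).aestronglyMeasurable, ?_⟩
  rw [FAN6_eq h hΨ] at hf
  unfold HasFiniteIntegral
  simpa only [enorm_mul] using hf

/-- **the sum of the functionals as an integral**; `FA6` must be finite also where `c n = 0` -/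
theorem FFN6_eq (h : ∀ n ≤ N, MC6 (Z n) (P n) (η n) (η' n)) {Ψ : ℕ → Ins}
    (hΨ : ∀ n ≤ N, MIn (Ψ n)) (hf : FAN6 Z P N η η' c Ψ < ∞) :
    FFN6 Z P N η η' c Ψ = F (mN6 N) (wN6 Z P N η η' c) (evN6 Ψ) := by
  have hI := WIN_of6 h hΨ hf
  have hI' := integrable_sig.1 hI
  have e1 : F (mN6 N) (wN6 Z P N η η' c) (evN6 Ψ) = ∑ n : Fin (N + 1),
      ∫ x, wN6 Z P N η η' c ⟨n, x⟩ * evN6 Ψ ⟨n, x⟩ ∂(mC6 (n : ℕ) ((n : ℕ) + dN N)) := F_sig hI'
  rw [e1]
  unfold FFN6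
  rw [Finset.sum_range]
  refine Finset.sum_congr rfl fun n _ => ?_
  have hn : (n : ℕ) ≤ N := by omega
  by_cases hc : c n = 0
  · have e2 : ∀ x, wN6 Z P N η η' c ⟨n, x⟩ * evN6 Ψ ⟨n, x⟩ = 0 := by
      intro x
      unfold wN6
      simp only
      rw [hc, zero_mul, zero_mul]
    simp only [e2, integral_zero]
    rw [hc, zero_mul]
  · have hfn : FA6 (Z n) (P n) n (n + dN N) (η n) (η' n) (Ψ n) < ∞ := by
      have h1 : ‖c n‖ₑ * FA6 (Z n) (P n) n (n + dN N) (η n) (η' n) (Ψ n) < ∞ := by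
        unfold FAN6 at hf
        rw [ENNReal.sum_lt_top] at hf
        exact hf n (Finset.mem_range.2 (by omega))
      by_contra h2
      rw [not_lt, top_le_iff] at h2
      rw [h2, ENNReal.mul_top (enorm_ne_zero.2 hc)] at h1
      exact lt_irrefl _ h1
    rw [FF6_eq (h n hn) (hΨ n hn) hfn]
    unfold F
    rw [← integral_const_mul]
    refine integral_congr_ae (Filter.Eventually.of_forall fun x => ?_)
    unfold wN6 evN6
    simp only
    ring

end sumn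

end PHK

end
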