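import Pool.Agent.PHK.Cst6
import Pool.Agent.PHK.Conf6
import Pool.Agent.PHK.ClsMeas6
import Pool.Agent.PLX.PB.RepM

/-!
# The particle-hole form (P): measurability and bounds of the statistics

(P) twin of `PLX/PB/RepM`; `MIs`, `MIs_stQ`, `pinI`, `meas_sig_s`, `exp_shift` are the landed ones.

* `measurable_obT_s6`, `measurable_stO_s6`, `MIs_stO6`, `MIs_stA6`;
* `MIs.ev6`, `evN_meas_s6`, **`evN_stA_s6`, `evN_stO_s6`, `evN_stQ_s6`**;
* `GoodQ6 P x0`: the quanta and holes of the objects are at `x0 < re z < l`;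
  **`stO_le6`, `stO_leC6`**: `‖stO6 D P O‖ ≤ 40 M ∑ i, e^{-a |ht (O i)|}`.
-/

set_option autoImplicit false
set_option linter.unusedSectionVars false

noncomputable section

open Complex MeasureTheory Finset
open scoped ENNReal

open PLX (Fil)

namespace PBF.PLX

open NUO NUP1 NUCR NUP1S NUP1S.Ab NUP1S.AbC NUGC NUGC.PLX PBFunc PBFunc.PLX PHK

variable [Fil] {T : Type*} [MeasurableSpace T]

/-! ### insertions with a parameter on the configuration space -/

theorem MIs.ev6 {n n' : ℕ} {Ψ : T → Ins} (h : MIs Ψ) :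
    Measurable fun p : T × Cf6 n n' => PHK.ev6 (Ψ p.1) p.2 :=
  meas_sig_s.2 fun i => h i.1 i.2.1 i.2.2

/-- **measurability of `evN6` with a parameter** -/
theorem evN_meas_s6 {N : ℕ} {Ψ : T → ℕ → Ins} (h : ∀ n ≤ N, MIs fun t => Ψ t n) :
    Measurable fun p : T × CfN6 N => evN6 (Ψ p.1) p.2 :=
  meas_sig_s.2 fun n => (h n (by omega)).ev6

/-! ### the statistics with a parameter -/

section stat

variable {D : T → Bool → Option O3 → ℂ → ℂ}
  (hD : ∀ s k, Measurable fun p : T × ℂ => D p.1 s k p.2)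

include hD

theorem measurable_cstS {Y : Type*} [MeasurableSpace Y] (k : Kd6) {τ : Y → T} (hτ : Measurable τ)
    {L : List ((Bool × Bool × (Y → ℂ)) × ℤ)} (hL : ∀ p ∈ L, Measurable p.1.2.2) :
    Measurable fun y => (((evz L y).map fun a : Part6 =>
      ((((a.1.1, zk6 k a.1.2.1), a.1.2.2), a.2) : Cst6)).map
        fun c => (c.2 : ℂ) * D (τ y) c.1.1.1 c.1.1.2 c.1.2).sum := by
  induction L with
  | nil => exact measurable_const
  | cons a L ih =>
    have h1 := ih fun p hp => hL p (List.mem_cons_of_mem _ hp)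
    have h3 : Measurable fun y => (τ y, a.1.2.2 y) := hτ.prodMk (hL a List.mem_cons_self)
    have h2 : Measurable fun y => (a.2 : ℂ) * D (τ y) a.1.1 (zk6 k a.1.2.1) (a.1.2.2 y) :=
      ((hD a.1.1 (zk6 k a.1.2.1)).comp h3).const_mul _
    exact h2.add h1

/-- **the statistic of an object is jointly measurable** -/
theorem measurable_obT_s6 (P : Par6) : Measurable fun p : Xo × T => obT6 (D p.2) P p.1 := by
  have h := measurable_of6' (Y := T) (F := fun (k : Bool × Kd6) (q : ℝ × T) =>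
    ((cstK P k q.1).map fun c => (c.2 : ℂ) * D q.2 c.1.1.1 c.1.1.2 c.1.2).sum) fun k => by
      obtain ⟨L, hL, h1⟩ := exists_evz P k (Y := ℝ × T) measurable_fst
      unfold cstK
      simp only [h1]
      exact measurable_cstS hD k.2 measurable_snd hL
  refine (congrArg Measurable (funext fun p => ?_)).mpr h
  unfold obT6
  rw [cst6_eq]

theorem measurable_obTi_s6 (P : Par6) {r : ℕ} (i : Fin r) :
    Measurable fun p : (Fin r → Xo) × T => obT6 (D p.2) P (p.1 i) := by
  have hq : Measurable fun p : (Fin r → Xo) × T => (p.1 i, p.2) :=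
    ((measurable_pi_apply i).comp measurable_fst).prodMk measurable_snd
  have h := (measurable_obT_s6 hD P).comp hq
  exact h

theorem measurable_stO_s6 (P : Par6) (r : ℕ) :
    Measurable fun p : T × (Fin r → Xo) => stO6 (D p.1) P p.2 := by
  unfold stO6
  refine Finset.measurable_sum _ fun i _ => ?_
  have h := (measurable_obTi_s6 hD P i).comp (measurable_swap (α := T) (β := Fin r → Xo))
  refine (congrArg Measurable (funext fun p => ?_)).mpr h
  rfl

theorem MIs_stO6 (P : Par6) : MIs fun (t : T) r O _ _ _ => stO6 (r := r) (D t) P O := by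
  intro r a b
  have hq : Measurable fun p : T × ((Fin r → Xo) × ((Fin a → ℝ) × (Fin b → ℝ))) =>
      (p.1, p.2.1) := measurable_fst.prodMk (measurable_fst.comp measurable_snd)
  have h := (measurable_stO_s6 hD P r).comp hq
  exact h

theorem MIs_stA6 (P : Par6) {η η' : Crs} (hc : MCr η η') : MIs fun t : T => stA6 (D t) P η :=
  fun r a b => (MIs_stO6 hD P r a b).add (MIs_stQ hD hc r a b)

/-- **the total statistic on all configurations, jointly with the parameter** -/
theorem evN_stA_s6 {N : ℕ} (P : ℕ → Par6) {η η' : ℕ → Crs} (hc : ∀ n ≤ N, MCr (η n) (η' n)) :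
    Measurable fun p : T × CfN6 N => evN6 (fun n => stA6 (D p.1) (P n) (η n)) p.2 :=
  evN_meas_s6 (Ψ := fun t n => stA6 (D t) (P n) (η n)) fun n hn => MIs_stA6 hD (P n) (hc n hn)

theorem evN_stO_s6 {N : ℕ} (P : ℕ → Par6) :
    Measurable fun p : T × CfN6 N => evN6 (fun n _ O _ _ _ => stO6 (D p.1) (P n) O) p.2 :=
  evN_meas_s6 (Ψ := fun t n _ O _ _ _ => stO6 (D t) (P n) O) fun n _ => MIs_stO6 hD (P n)

theorem evN_stQ_s6 {N : ℕ} {η η' : ℕ → Crs} (hc : ∀ n ≤ N, MCr (η n) (η' n)) :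
    Measurable fun p : T × CfN6 N =>
      evN6 (fun n r O a b x => stQ (D p.1) (η n r O) a b x) p.2 :=
  evN_meas_s6 (Ψ := fun t n r O a b x => stQ (D t) (η n r O) a b x) fun n hn =>
    MIs_stQ hD (hc n hn)

end stat

/-! ### bound of the statistic of the objects -/

/-- the quanta and holes of the objects are at `x0 < re z` -/
structure GoodQ6 (P : Par6) (x0 : ℝ) : Prop extends GoodP6 P where
  xl : x0 < (1 - P.j2) * NUP1.l

section bound

omit [Fil]

variable {D : Bool → Option O3 → ℂ → ℂ} {P : Par6}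

theorem posL_re_im (j t : ℝ) : (posL j t).re = (1 - j) * NUP1.l ∧ (posL j t).im = t := by
  unfold posL vl
  constructor <;> simp

theorem posB_re_im (e t : ℝ) : (posB e t).re = (1 - e) * NUP1.l ∧ (posB e t).im = t := by
  unfold posB posS vl
  constructor
  · simp
    ring
  · simp

/-- **the statistic of the objects is bounded by the pin** -/
theorem stO_le6 {x0 : ℝ} (h : GoodQ6 P x0) {M a : ℝ} (hM : 0 ≤ M) {r : ℕ} (O : Fin r → Xo)
    (hL : ∀ s t, ‖D s (some .L) (posL P.jL t)‖ ≤ M * Real.exp (-(a * |t|)))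
    (hT : ∀ s t, ‖D s (some .T) (posT t)‖ ≤ M * Real.exp (-(a * |t|)))
    (hS : ∀ s t, ‖D s (some .S) (posS P.e t)‖ ≤ M * Real.exp (-(a * |t|)))
    (hA : ∀ s (z : ℂ), x0 < z.re → z.re < NUP1.l →
      ‖D s none z‖ ≤ M * Real.exp (-(a * |z.im|))) :
    ‖stO6 D P O‖ ≤ 40 * M * ∑ i, Real.exp (-(a * |ht (O i)|)) := by
  have hl := Bd.l_pos
  have h1 := h.j1
  have h2 := h.j1e
  have h3 := h.ej2
  have h4 := h.j2
  have h5 := h.xl
  unfold stO6
  rw [Finset.mul_sum]
  refine norm_sum_le_of_le _ fun i _ => ?_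
  have hE : 0 ≤ Real.exp (-(a * |ht (O i)|)) := (Real.exp_pos _).le
  have hME : 0 ≤ M * Real.exp (-(a * |ht (O i)|)) := mul_nonneg hM hE
  have hA' : ∀ (s : Bool) (z : ℂ) (j : ℝ), z.re = (1 - j) * NUP1.l ∧ z.im = ht (O i) → 0 < j →
      j ≤ P.j2 → ‖D s none z‖ ≤ M * Real.exp (-(a * |ht (O i)|)) := by
    rintro s z j ⟨hr, hi⟩ hj0 hj
    have := hA s z (by rw [hr]; nlinarith) (by rw [hr]; nlinarith)
    rwa [hi] at this
  have hB := fun s => hA' s (posB P.e (ht (O i))) P.e (posB_re_im _ _) (by linarith) h3.le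
  have hH1 := fun s => hA' s (posL P.j1 (ht (O i))) P.j1 (posL_re_im _ _) (by linarith)
    (by linarith)
  have hH2 := fun s => hA' s (posL P.j2 (ht (O i))) P.j2 (posL_re_im _ _) (by linarith) le_rfl
  refine (norm_obT6_le hME (P := P) (x := O i) (D := D) fun c hc => ?_).trans (by linarith)
  rcases hk : k6 (O i) with _ | _ | _ | _ | _ | _
  · rw [cst6_L P hk, List.mem_singleton] at hc
    subst hc
    exact hL _ _
  · rw [cst6_T P hk, List.mem_singleton] at hc
    subst hc
    exact hT _ _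
  · rw [cst6_E P hk] at hc
    simp only [List.mem_cons, List.not_mem_nil, or_false] at hc
    rcases hc with rfl | rfl
    · exact hS _ _
    · exact hB _
  · rw [cst6_F P hk] at hc
    simp only [List.mem_cons, List.not_mem_nil, or_false] at hc
    rcases hc with rfl | rfl | rfl
    · exact hS _ _
    · exact hB _
    · exact hB _
  · rw [cst6_H1 P hk, List.mem_singleton] at hc
    subst hc
    exact hH1 _
  · rw [cst6_H2 P hk, List.mem_singleton] at hc
    subst hc
    exact hH2 _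

/-- the same for `j2 ≤ 7 / 8`: quanta and holes in `49 / 400 l < re z < 11 / 10 l` -/
theorem stO_leC6 (h : GoodP6 P) (hj : P.j2 ≤ 7 / 8) {M a : ℝ} (hM : 0 ≤ M) {r : ℕ}
    (O : Fin r → Xo)
    (hL : ∀ s t, ‖D s (some .L) (posL P.jL t)‖ ≤ M * Real.exp (-(a * |t|)))
    (hT : ∀ s t, ‖D s (some .T) (posT t)‖ ≤ M * Real.exp (-(a * |t|)))
    (hS : ∀ s t, ‖D s (some .S) (posS P.e t)‖ ≤ M * Real.exp (-(a * |t|)))
    (hA : ∀ s (z : ℂ), 49 / 400 * NUP1.l < z.re → z.re < 11 / 10 * NUP1.l →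
      ‖D s none z‖ ≤ M * Real.exp (-(a * |z.im|))) :
    ‖stO6 D P O‖ ≤ 40 * M * ∑ i, Real.exp (-(a * |ht (O i)|)) := by
  have hl := Bd.l_pos
  have hG : GoodQ6 P (49 / 400 * NUP1.l) := ⟨h, by nlinarith⟩
  exact stO_le6 hG hM O hL hT hS fun s z h1 h2 => hA s z h1 (by linarith)

end bound

end PBF.PLX

end
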