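import Pool.Agent.PHK.StatN6
import Pool.Agent.PHK.RepM6
import Pool.Agent.PHK.RepT6
import Pool.Agent.PHK.ChnO6
import Pool.Agent.PB.RepA

/-!
# (P): the object channel, one factor is pinned

Port of `PLX/PB/ChnO2`: `pinO_VO6`, `VC_obj6`, `VC_qua6`, `obj1_of6`, **`h3O6`**.
-/

set_option autoImplicit false
set_option linter.unusedSectionVars false
set_option linter.unusedVariables false

noncomputable section

open Complex MeasureTheory Set
open scoped Classical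

open PLX (Fil)

namespace PBOb.PLX

open NUP1 hiding Kd
open NUP1.Bd NUP1S NUP1S.Ab NUP1S.AbC PB PBRep PBRep.PLX PBF PBF.PLX PBFunc PBFunc.PLX NUO
open PBI (Stt Kd F0 F0Ok nuI nuQI mnI InD AllW)
open PBEI (y1 y26)
open PHK

variable [Fil] {N : ℕ} {P : Par6} {η η' : ℕ → Crs} {a : ℝ} {ρ : Kd → ℝ → ℂ} {ρ0 : ℝ → ℂ}

theorem meas_VO6 {g : Kd → ℂ → ℂ} (hg : ∀ b, Measurable (g b)) :
    Measurable (VO6 (PBRep.PLX.sK g) P : CfN6 N → ℂ) := by
  have h := evN_stO_s6 (T := Unit) (D := fun _ => PBRep.PLX.sK g)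
    (fun s k => (hg (s, k)).comp measurable_snd) (N := N) (fun _ => P)
  exact h.comp (measurable_const.prodMk measurable_id :
    Measurable fun ω : CfN6 N => (((), ω) : Unit × CfN6 N))

theorem meas_VQ6 (hc : ∀ n ≤ N, MCr (η n) (η' n)) {D : Stt} (hg : ∀ s k, Measurable (D s k)) :
    Measurable (VQ6 D η : CfN6 N → ℂ) := by
  have h : Measurable fun p : Unit × CfN6 N => VQ6 D η p.2 :=
    evN_stQ_s6 (T := Unit) (D := fun _ => D) (fun s k => (hg s k).comp measurable_snd) hc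
  exact Measurable.comp (g := fun p : Unit × CfN6 N => VQ6 D η p.2)
    (f := fun ω : CfN6 N => (((), ω) : Unit × CfN6 N)) h (measurable_const.prodMk measurable_id)

private theorem meas_hgt6 : Measurable hgt := by
  unfold hgt
  fun_prop

theorem meas_Vp6 (hc : ∀ n ≤ N, MCr (η n) (η' n)) {g : ℂ → ℂ} (hg : Measurable g) :
    Measurable (Vp6 ρ0 η g : CfN6 N → ℂ) := by
  unfold Vp6
  refine (meas_VQ6 hc fun s k => ?_).sub_const _
  cases k with
  | none => exact (hg.comp meas_hgt6).const_mul _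
  | some k => exact measurable_const

theorem meas_Vm6 (hc : ∀ n ≤ N, MCr (η n) (η' n)) {g : ℂ → ℂ} (hg : Measurable g) :
    Measurable (Vm6 ρ0 η g : CfN6 N → ℂ) := by
  unfold Vm6
  refine (meas_VQ6 hc fun s k => ?_).sub_const _
  cases k with
  | none => exact (hg.comp meas_hgt6).const_mul _
  | some k => exact measurable_const

/-- **the statistic of the objects is pinned** -/
theorem pinO_VO6 (hG : GoodP6 P) (hP : ParO6 P)
    {g : Kd → ℂ → ℂ} (hg : ∀ b, Measurable (g b)) {M : ℝ} (hM : 0 ≤ M) (ha0 : 0 ≤ a) (ha : a ≤ 2)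
    (hb : ∀ b, ∀ z ∈ DQ6 b, ‖g b z‖ ≤ M * Real.exp (-a * |z.im|)) :
    PinO (mN6 N) (pinN6 a) (VO6 (PBRep.PLX.sK g) P : CfN6 N → ℂ) (40 * M) := by
  refine ⟨(meas_VO6 hg).aestronglyMeasurable, by positivity, fun ω => ?_⟩
  have hre : ∀ y t : ℝ, (vl y t).re = y := fun y t => by simp [vl]
  have him : ∀ y t : ℝ, (vl y t).im = t := fun y t => by simp [vl]
  refine stO_leC6 (D := PBRep.PLX.sK g) hG hP.j2 hM ω.2.2.1 (fun s t => ?_) (fun s t => ?_)
    (fun s t => ?_) (fun s z h1 h2 => ?_)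
  · have h := hb (s, some .L) (posL P.jL t) (DQ_L6 hG hP (hre _ _))
    rw [show (posL P.jL t).im = t from him _ _, neg_mul] at h
    exact h
  · have h := hb (s, some .T) (posT t) (DQ_T6 (hre _ _))
    rw [show (posT t).im = t from him _ _, neg_mul] at h
    exact h
  · have h := hb (s, some .S) (posS P.e t) (DQ_S6 hG (hre _ _))
    rw [show (posS P.e t).im = t from him _ _, neg_mul] at h
    exact h
  · have h := hb (s, none) z (DQ_none6 h1.le h2.le)
    rw [neg_mul] at h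
    exact h

private theorem mnI_eq6 (ρ : Kd → ℝ → ℂ) (g : Kd → ℂ → ℂ) :
    mnI ρ g = ∑ b, ∫ u, ρ b u * g b (vl l u) := rfl

private theorem sum_kinds6 {f : Kd → ℂ} (h : ∀ s k, f (s, some k) = 0) :
    ∑ b, f b = f (true, none) + f (false, none) := by
  rw [Fintype.sum_prod_type]
  simp only [Fintype.sum_bool, Fintype.sum_option, h, Finset.sum_const_zero, add_zero]

private theorem mnI_none6 (hρ0 : ∀ s k u, ρ (s, some k) u = 0) (g : Kd → ℂ → ℂ) :
    mnI ρ g = (∫ u, ρ (true, none) u * g (true, none) (vl l u)) +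
      ∫ u, ρ (false, none) u * g (false, none) (vl l u) := by
  rw [mnI_eq6]
  exact sum_kinds6 fun s k => by simp [hρ0]

/-- a statistic of object kinds -/
theorem VC_obj6 (hρ0 : ∀ s k u, ρ (s, some k) u = 0) {g : Kd → ℂ → ℂ}
    (h : ∀ s, g (s, none) = fun _ => 0) :
    (VC6 ρ P η g : CfN6 N → ℂ) = VO6 (PBRep.PLX.sK g) P := by
  funext ω
  unfold VC6
  rw [VA6_eq, VQ6_eq, mnI_none6 hρ0]
  simp only [PBRep.PLX.sK, h, mul_zero, Finset.sum_const_zero, integral_zero, add_zero, sub_zero]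

/-- a statistic of the quanta of one species -/
theorem VC_qua6 (hρ0 : ∀ s k u, ρ (s, some k) u = 0) (hρ1 : ∀ s u, ρ (s, none) u = Fil.b s * ρ0 u)
    {g : Kd → ℂ → ℂ} (s : Bool) (h : g (!s, none) = fun _ => 0) (ω : CfN6 N) :
    VC6 ρ P η g ω - (1 / 2) * (Vp6 ρ0 η (fun w => g (s, none) (l + I * w)) ω +
      eM s * Vm6 ρ0 η (fun w => g (s, none) (l + I * w)) ω) = VO6 (PBRep.PLX.sK g) P ω := by
  have e1 : ∀ z : ℂ, (l : ℂ) + I * hgt z = z := by
    intro z
    unfold hgt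
    linear_combination (-(z - l)) * I_mul_I
  have e2 : ∀ u : ℝ, vl l u = (l : ℂ) + I * u := by
    intro u
    unfold vl
    ring
  have e3 : ∀ s' : Bool, ∫ u : ℝ, ρ (s', none) u * g (s', none) ((l : ℂ) + I * u) =
      Fil.b s' * ∫ u : ℝ, ρ0 u * g (s', none) ((l : ℂ) + I * u) := by
    intro s'
    rw [← integral_const_mul]
    refine integral_congr_ae (Filter.Eventually.of_forall fun u => ?_)
    simp only []
    rw [hρ1]
    ring
  unfold VC6
  rw [VA6_eq, VQ6_eq, mnI_none6 hρ0, Vp6_eq, Vm6_eq]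
  simp only [e1, e2, e3]
  cases s
  · have h' : g (true, none) = fun _ => 0 := h
    simp only [PBRep.PLX.sK, h', eM, mul_zero, Finset.sum_const_zero, integral_zero,
      Bool.false_eq_true, if_false]
    ring
  · have h' : g (false, none) = fun _ => 0 := h
    simp only [PBRep.PLX.sK, h', eM, mul_zero, Finset.sum_const_zero, integral_zero, if_true]
    ring

/-- the two alternatives for one factor -/
theorem obj1_of6 (hG : GoodP6 P) (hP : ParO6 P)
    (hc : ∀ n ≤ N, MCr (η n) (η' n))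
    (hρ0 : ∀ s k u, ρ (s, some k) u = 0) (hρ1 : ∀ s u, ρ (s, none) u = Fil.b s * ρ0 u) {g : Kd → ℂ → ℂ}
    (hg : ∀ b, Measurable (g b)) {M : ℝ} (hM : 0 ≤ M) (ha0 : 0 ≤ a) (ha : a ≤ 2)
    (hb : ∀ b, ∀ z ∈ DQ6 b, ‖g b z‖ ≤ M * Real.exp (-a * |z.im|)) (b : Kd)
    (hs : ∀ c, c ≠ b → g c = fun _ => 0)
    (htc : ∀ s, PBE.TC y1 y26 a M (fun w => g (s, none) (l + I * w))) :
    Obj1 y1 y26 a (mN6 N) (Vp6 ρ0 η) (Vm6 ρ0 η) (pinN6 a) 40 (VC6 ρ P η g) M ∧
    (b.2 ≠ none → PinO (mN6 N) (pinN6 a) (VC6 ρ P η g : CfN6 N → ℂ) (40 * M)) := by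
  have hO := pinO_VO6 (N := N) hG hP hg hM ha0 ha hb
  obtain ⟨s, k⟩ := b
  have hobj : k ≠ none → PinO (mN6 N) (pinN6 a) (VC6 ρ P η g : CfN6 N → ℂ) (40 * M) := by
    intro hk
    rw [VC_obj6 hρ0 fun s' => hs (s', none) fun e => hk (Prod.ext_iff.1 e).2.symm]
    exact hO
  refine ⟨?_, hobj⟩
  cases k with
  | some k => exact Obj1.obj (hobj (by simp))
  | none =>
    have hgl : Measurable fun w : ℂ => g (s, none) (l + I * w) := (hg (s, none)).comp (by fun_prop)
    refine Obj1.qua (fun w => g (s, none) (l + I * w)) (eM s) ?_ (htc s)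
      (meas_Vp6 hc hgl).aestronglyMeasurable (meas_Vm6 hc hgl).aestronglyMeasurable ?_
    · cases s <;> simp [eM]
    · have e : (fun ω : CfN6 N => VC6 ρ P η g ω - 1 / 2 * (Vp6 ρ0 η (fun w => g (s, none) (l + I * w)) ω +
          eM s * Vm6 ρ0 η (fun w => g (s, none) (l + I * w)) ω)) = VO6 (PBRep.PLX.sK g) P :=
        funext fun ω => VC_qua6 hρ0 hρ1 s (hs (!s, none) fun e => by
          have := (Prod.ext_iff.1 e).1
          cases s <;> simp at this) ω
      rw [e]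
      exact hO

/-- **one of the two factors is pinned** -/
theorem h3O6 {X : ℂ → ℂ} {xp xm : ℂ} {M : ℝ} (hX : Measurable X) (h : FX6 X xp xm M)
    (hG : GoodP6 P) (hP : ParO6 P)
    (hc : ∀ n ≤ N, MCr (η n) (η' n))
    (hρ0 : ∀ s k u, ρ (s, some k) u = 0) (hρ1 : ∀ s u, ρ (s, none) u = Fil.b s * ρ0 u) (ha0 : 0 ≤ a)
    (ha : a ≤ 2) (q : IxO) :
    (PinO (mN6 N) (pinN6 a) (VC6 ρ P η (A36 X xp xm q) : CfN6 N → ℂ) (40 * alO6 (‖xp - xm‖ + M) q) ∧
      Obj1 y1 y26 a (mN6 N) (Vp6 ρ0 η) (Vm6 ρ0 η) (pinN6 a) 40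
        (VC6 ρ P η (B36 q)) (beO6 a q)) ∨
    (Obj1 y1 y26 a (mN6 N) (Vp6 ρ0 η) (Vm6 ρ0 η) (pinN6 a) 40
        (VC6 ρ P η (A36 X xp xm q)) (alO6 (‖xp - xm‖ + M) q) ∧
      PinO (mN6 N) (pinN6 a) (VC6 ρ P η (B36 q) : CfN6 N → ℂ) (40 * beO6 a q)) := by
  have hM := h.M_nonneg
  have hJ : 0 ≤ ‖xp - xm‖ + M := by positivity
  have hA := obj1_of6 (N := N) (η := η) (η' := η') hG hP hc hρ0 hρ1 (g := A36 X xp xm q)
    (fun b => (measurable_A36 hX xp xm b).comp (measurable_const.prodMk measurable_id))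
    (M := alO6 (‖xp - xm‖ + M) q) (alO_nonneg6 hJ q) ha0 ha (fun b z hz => by
      refine (norm_A3_le6 h q (DQ_sub6 _ hz)).trans
        (mul_le_mul_of_nonneg_left (Real.exp_le_exp.2 ?_) (alO_nonneg6 hJ q))
      nlinarith [abs_nonneg z.im]) q.1.1.1 (fun c hc => by
      funext z
      unfold A36
      rw [if_neg fun h' => hc h'.1]) (A3_tc6 h ha q)
  have hB := obj1_of6 (N := N) (η := η) (η' := η') hG hP hc hρ0 hρ1 (g := B36 q)
    (fun b => (measurable_B36 b).comp (measurable_const.prodMk measurable_id))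
    (M := beO6 a q) (beO_nonneg6 a q) ha0 ha (fun b z hz => norm_B3_le6 ha0 (by linarith) q hz)
    q.1.1.2 (fun c hc => by
      funext z
      unfold B36
      rw [if_neg fun h' => hc h'.1]) (B3_tc6 ha0 (by linarith) q)
  by_cases hb : q.1.1.1.2 = none
  · by_cases hc' : q.1.1.2.2 = none
    · -- both factors vanish
      have ho : ¬ hasO q.1.1 := fun h' => h' ⟨hb, hc'⟩
      have eA : A36 X xp xm q = fun _ _ => 0 := by
        funext b z
        unfold A36
        rw [if_neg fun h' => ho h'.2]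
      refine Or.inl ⟨?_, hB.1⟩
      rw [eA]
      have e0 : (VC6 ρ P η (fun _ _ => 0) : CfN6 N → ℂ) = VO6 (PBRep.PLX.sK fun _ _ => 0) P :=
        VC_obj6 hρ0 fun s => rfl
      rw [e0]
      refine pinO_VO6 hG hP (fun b => measurable_const) (alO_nonneg6 hJ q) ha0 ha
        fun b z _ => ?_
      rw [norm_zero]
      have := alO_nonneg6 hJ q
      positivity
    · exact Or.inr ⟨hA.1, hB.2 hc'⟩
  · exact Or.inl ⟨hA.2 hb, hB.1⟩

end PBOb.PLX

end
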