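import Pool.Agent.PHK.FNeq6
import Pool.Agent.PHK.InsTwo6

/-!
# (P): the class functions are in the class `ClZ6` of the transfer of insertions

* **`clZ6_ZK6`** : `ClZ6 (ZK6 c β ro ex g0 s) P x0 (2 β) (2 β) (ep / 4) (- q + N true - N false)`;
  `decQ6_ZK6` : the record `PHK.DecZ6`; `difZ6_ZK6`;
* **`clZ6_Q`** : the dislocated function with legs, rows `x`, `yq x` (`ZQ6`), charge `-xn m`.
-/

set_option autoImplicit false
set_option linter.unusedSectionVars false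
set_option linter.unusedVariables false

noncomputable section

open Complex MeasureTheory

namespace PHK

open NUO NUP1 NUCR NUP1S NUP1S.Ab NUP1S.AbC NURow NUGC.PLX
open NUP1.Bd (Ob)
open PBX (Rws ph Lg gP GOk)
open Pool.Agent.PLX (XXU ZK6 SpW6 GF6 PhI6 HI6 oneC6_ZK6 decZ6_ZK6 invZ6_ZK6 lnR6 K1P K2P famXU bdd_GXUP
  diffAt_GXUP diffAt_XXUP charge_ZK measurable_XXU SpecP rwq Rws_rwq)
open _root_.PLX (Fil)

variable {N : Bool → ℕ} {P : Par6} {ep β : ℝ} {c : Bool → ℂ} {c0 : ℝ} {ro : ∀ a, Fin (N a) → ℂ}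
  {ex : Bool → List ℂ} {g0 : Bool → ℂ → ℂ} {s : Bool → ℂ → ℂ} {q : ℤ}

/-- **the record of the class formula** -/
theorem decQ6_ZK6 (hP : GoodP6 P) (hI : HI6 P) (hβ : 0 < β) (hβ' : β ≤ 4 / 3) (hr : ∀ a, Rws (ro a))
    (hex : ∀ a, ∀ w ∈ ex a, |w.re| ≤ l / 2) (hg0 : ∀ a, GF6 (ro a) (g0 a)) (hφ : PhI6 β ro ex)
    (hc : ∀ a, c a ≠ 0) (hs : ∀ a, SpW6 (sc (a, .A) * (q : ℝ)) (s a)) :
    DecZ6 (ZK6 c β ro ex g0 s) P (51 / 100 * l) (2 * β) (2 * β) (-(q : ℝ) + N true - N false) := by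
  have hl := NUP1.l_pos
  have h := decZ6_ZK6 (c := c) hP hβ hβ' hr hex hg0 hs
  have h3 := invZ6_ZK6 (c := c) (g0 := g0) hβ hβ' hr hex hφ hc hs
  refine ⟨h.A, h.L, fun a => ?_, h.S, fun a => Bdd.mono_set (h3.bd a) ?_⟩
  · have e : -(1 / 2 * l) = -(l / 2) := by ring
    rw [e]
    exact h.T a
  · intro t ht
    have h1 := hI.j1
    have h2 := hI.j2
    exact ⟨by nlinarith [ht.1], by nlinarith [ht.2]⟩

/-- **holomorphy** -/
theorem difZ6_ZK6 (hI : HI6 P) (hβ : 0 < β) (hβ' : β ≤ 4 / 3) (hr : ∀ a, Rws (ro a))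
    (hex : ∀ a, ∀ w ∈ ex a, |w.re| ≤ l / 2) (hφ : PhI6 β ro ex) (hc : ∀ a, c a ≠ 0)
    (hs : ∀ a, SpW6 (sc (a, .A) * (q : ℝ)) (s a)) :
    DifZ6 (ZK6 c β ro ex g0 s) P (51 / 100 * l) (1 / 110 * l) := by
  have hl := NUP1.l_pos
  have h3 := invZ6_ZK6 (c := c) (g0 := g0) hβ hβ' hr hex hφ hc hs
  refine ⟨fun a u h1 h2 => ?_, fun a u h1 h2 => ?_, fun a u h1 h2 => ?_⟩
  · exact diffAt_GXUP (y := ro (!a)) lnR6 hβ hβ' (hr a) (GOk.gP hβ hβ' (hex a)) ((hs a).specP) (Or.inl ⟨h1, h2⟩)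
  · have h4 := hI.j1
    have h5 := hI.j2
    exact h3.an a u (by nlinarith) (by nlinarith)
  · have h4 := hI.j1
    exact h3.ne a u h1 (by nlinarith)

/-- **the class of the transfer** -/
theorem clZ6_ZK6 (hP : GoodP6 P) (hI : HI6 P) (hJ : P.jL ≤ 9 / 4) (hep0 : 0 < ep) (hep : ep ≤ 1 / 100)
    (hβ : 0 < β) (hβ' : β ≤ 4 / 3) (hr : ∀ a, Rws (ro a))
    (hex : ∀ a, ∀ w ∈ ex a, |w.re| ≤ l / 2) (hg0 : ∀ a, GF6 (ro a) (g0 a)) (hφ : PhI6 β ro ex)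
    (hc0 : 0 < c0) (hc : ∀ a, ‖c a‖ = c0) (hs : ∀ a, SpW6 (sc (a, .A) * (q : ℝ)) (s a)) (x0 : ℝ) :
    ClZ6 (ZK6 c β ro ex g0 s) P x0 (2 * β) (2 * β) (ep / 4) (-q + N true - N false) := by
  have hl := NUP1.l_pos
  have hj2 := hP.L2
  have he3 := hP.e13
  have he := hP.e45
  have e : ((-q + N true - N false : ℤ) : ℝ) = -(q : ℝ) + N true - N false := by push_cast; ring
  have h1 := oneC6_ZK6 (P := P) (x0 := 51 / 100 * l) le_rfl (by linarith) hep0 hep hβ hβ' hr hex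
    (fun a => (hg0 a).gn.meas) hc hs
  have h2 := decZ6_ZK6 (c := c) hP hβ hβ' hr hex hg0 hs
  have hcn : ∀ a, c a ≠ 0 := fun a => norm_pos_iff.1 (by rw [hc a]; exact hc0)
  have h3 := invZ6_ZK6 (c := c) (g0 := g0) hβ hβ' hr hex hφ hcn hs
  have hQa : ∀ a : Bool, (-(q : ℝ) + N true - N false) * sc (a, .A) =
      -(q : ℝ) * sc (a, .A) - ((N (!a) : ℝ) - N a) := fun a => charge_ZK a
  have F : ∀ a, FamA a (51 / 100 * l) (3 / 5 * l) (-(17 / 10 * l)) (-(101 / 100 * l)) (-(29 / 20 * l))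
      (-(7 / 10 * l)) (-(7 / 10 * l)) (-(l / 2)) (2 * β) (-(q : ℝ) + N true - N false)
      (ZK6 c β ro ex g0 s a) := fun a =>
    famXU lnR6 hβ hβ' (hr a) (hr (!a)) (GOk.gP hβ hβ' (hex a)) (hg0 a).gn ((hs a).specP) (hQa a)
  have hcl : P.e ≤ 12 / 25 := hP.e48
  refine ⟨fun a k => h1.meas a k, QOk6.of_oneC h1 (by linarith), fun a o => ?_, fun a o u hu => ?_, h2.S,
    2 * β, 1 / 110 * l, by linarith, by positivity, fun a => ?_, fun a u g1 g2 => ?_, fun a u g1 g2 => ?_⟩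
  · rw [e]
    rcases o with _ | o
    · exact h2.A a
    · refine DecOn.mono ((F a).dec (some o)) ?_
      cases o
      · intro t ht
        have t1 : -(5 / 4 * l) ≤ t := ht.1
        have t2 : t ≤ (1 - P.jL) * l := ht.2
        exact ⟨show -(17 / 10 * l) ≤ t by linarith, show t ≤ -(101 / 100 * l) by nlinarith⟩
      · intro t ht
        have t1 : -((1 + P.e) * l) ≤ t := ht.1
        have t2 : t ≤ -(5 / 4 * l) := ht.2
        exact ⟨show -(29 / 20 * l) ≤ t by nlinarith, show t ≤ -(7 / 10 * l) by nlinarith⟩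
      · intro t ht
        have t1 : -(1 / 2 * l) ≤ t := ht.1
        have t2 : t ≤ -(1 / 2 * l) := ht.2
        exact ⟨show -(7 / 10 * l) ≤ t by linarith, show t ≤ -(l / 2) by linarith⟩
  · rcases o with _ | o
    · exact diffAt_GXUP (y := ro (!a)) lnR6 hβ hβ' (hr a) (GOk.gP hβ hβ' (hex a)) ((hs a).specP) (Or.inl hu)
    · refine diffAt_XXUP (y := ro (!a)) lnR6 hβ hβ' (hr a) (GOk.gP hβ hβ' (hex a)) (hg0 a).gn ((hs a).specP)
        (some o) ?_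
      cases o
      · have t1 : -(5 / 4 * l) ≤ u.re := hu.1
        have t2 : u.re ≤ (1 - P.jL) * l := hu.2
        exact ⟨show -(17 / 10 * l) ≤ u.re by linarith, show u.re ≤ -(101 / 100 * l) by nlinarith⟩
      · have t1 : -((1 + P.e) * l) ≤ u.re := hu.1
        have t2 : u.re ≤ -(5 / 4 * l) := hu.2
        exact ⟨show -(29 / 20 * l) ≤ u.re by nlinarith, show u.re ≤ -(7 / 10 * l) by nlinarith⟩
      · have t1 : -(1 / 2 * l) ≤ u.re := hu.1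
        have t2 : u.re ≤ -(1 / 2 * l) := hu.2
        exact ⟨show -(7 / 10 * l) ≤ u.re by linarith, show u.re ≤ -(l / 2) by linarith⟩
  · rw [e]
    refine Bdd.mono_set (h3.bd a) ?_
    intro t ht
    have g1 := hI.j1
    have g2 := hI.j2
    exact ⟨by nlinarith [ht.1], by nlinarith [ht.2]⟩
  · have g3 := hI.j1
    have g4 := hI.j2
    exact h3.an a u (by nlinarith) (by nlinarith)
  · have g3 := hI.j1
    exact h3.ne a u g1 (by nlinarith)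

/-- **the dislocated function with legs** -/
theorem clZ6_Q [Fil] {m : ℕ} {x : Fin m → ℂ} {z : ℂ} (hP : GoodP6 P) (hI : HI6 P) (hJ : P.jL ≤ 9 / 4)
    (hep0 : 0 < ep) (hep : ep ≤ 1 / 100) (hβ : 0 < β) (hβ' : β ≤ 4 / 3) (hx : Rws x)
    (hex : ∀ a, ∀ w ∈ ex a, |w.re| ≤ l / 2) (hg0 : ∀ a, GF6 (rwq x a) (g0 a))
    (hφ : PhI6 (N := Nq m) β (rwq x) ex) (hc0 : 0 < c0) (hc : ∀ a, ‖c a‖ = c0) (h1 : -(9 / 10 * l) ≤ z.re)
    (h2 : z.re ≤ 31 / 10 * l) (x0 : ℝ) :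
    ClZ6 (ZQ6 c g0 β x ex z) P x0 (2 * β) (2 * β) (ep / 4) (-Fil.xn m) := by
  have h := clZ6_ZK6 (N := Nq m) (ro := rwq x) (q := 0) hP hI hJ hep0 hep hβ hβ' (fun a => Rws_rwq hx a) hex hg0
    hφ hc0 hc (s := fun _ => Lg z z) (fun a => by
      have := SpW6.leg (z := z) h1 h2
      simpa using this) x0
  rw [charge_q, neg_zero, zero_sub] at h
  exact h

end PHK

end
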