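import Pool.Agent.PHK.VInst6
import Pool.Agent.PB.EMain

/-!
# (P): `(E')` from the Ward identities at the true field, wide strip of the statistics

Twin of `PB/EMain`: **`E2_of6`** (`LevD` is the landed one with the strip `y1`, `y26`).
-/

set_option autoImplicit false

open MeasureTheory Set Filter Topology Complex

noncomputable section

namespace PBEM

open PBE PBFunc PBEI PBV
open Pool.Agent.PB (rl MeanDat VDat mV CV CmV CsV CssV)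

lemma y2_pos6 : 0 < y26 := by
  have := NUMF.l_pos
  unfold y26
  linarith

/-- **(E')**, families -/
theorem E2_of6 {a' : ℝ} (ha : 1 / 2 ≤ a') (ha2 : a' < 2) {c B C : ℝ} {Psi : ℕ → ℂ → ℂ → ℂ}
    {Ω : ℕ → Type*} [∀ j, MeasurableSpace (Ω j)] {μ : ∀ j, Measure (Ω j)} [∀ j, SFinite (μ j)]
    {w : ∀ j, ℝ → ℝ → Ω j → ℂ} {V Vm : ∀ j, ℝ → ℝ → (ℂ → ℂ) → Ω j → ℂ} {S : ∀ j, ℝ → ℝ → Ω j → ℂ}
    {K th δp δ0 δ1 : ℕ → ℝ} {mf mf' D0 : ℝ → ℝ → ℂ} {mp mm : ℝ → ℂ}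
    (hm : ∀ t ∈ Icc (0 : ℝ) 1, MeanDat (mf t) (mf' t) (D0 t) (rl (h0T t)) B (mp t) (mm t))
    (hL : ∀ᶠ j : ℕ in atTop, ∀ s ∈ Icc (0 : ℝ) 1, ∀ t ∈ Icc (0 : ℝ) 1,
      LevD y1 y26 a' (μ j) (w j s t) (V j s t) (Vm j s t) (S j s t) (K j) (th j) (δp j) (mf t) PBEI.sg' wm
        (Apl6 (rowS j s) 0) (Ami6 (rowS j s) 0) Bch6)
    (hD : ∀ᶠ j : ℕ in atTop, ∀ s ∈ Icc (0 : ℝ) 1, ∀ t ∈ Icc (0 : ℝ) 1, ∃ D : ℂ,
      HasDerivAt (fun s : ℝ => Psi j (I * t) (I * s)) D s ∧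
      ‖((j + 1 : ℝ) : ℂ) * D -
        ((∫ q, F (μ j) (w j s t) (fun ω => V j s t (Apl6 (rowS j s) 0 q) ω * V j s t (Bch6 q) ω) ∂wm) +
        ((∫ q, F (μ j) (w j s t) (fun ω => Vm j s t (Ami6 (rowS j s) 0 q) ω * Vm j s t (Bch6 q) ω) ∂wm) +
          2 * F (μ j) (w j s t) (fun ω => Vm j s t (uF (rowS j s) 0) ω * S j s t ω) -
          ((PBV.rP j s : ℂ) - (PBV.rM j s : ℂ)) / 2 * F (μ j) (w j s t) (fun ω => S j s t ω * S j s t ω)) +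
        F (μ j) (w j s t) (V j s t (qF (rowS j s) 0 t)))‖ ≤ δ0 j)
    (hτ : ∀ᶠ j : ℕ in atTop, ∀ s ∈ Icc (0 : ℝ) 1, ∀ t ∈ Icc (0 : ℝ) 1,
      ‖F (μ j) (w j s t) (V j s t (h0T t)) + I * deriv (fun z => Psi j z (I * s)) (I * t)‖ ≤ δ1 j ∧
      ‖F (μ j) (w j s t) (fun ω => V j s t (h0T t) ω * V j s t (h0T t) ω) +
        F (μ j) (w j s t) (V j s t (g2T t)) - -deriv (deriv fun z => Psi j z (I * s)) (I * t)‖ ≤ δ1 j)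
    (hsz : ∀ᶠ j : ℕ in atTop, δ0 j ≤ C * (j : ℝ) ^ (-c) ∧ 2 * K j * th j ≤ C * (j : ℝ) ^ (-c) ∧
      δp j ≤ C * (j : ℝ) ^ (-c) ∧ 0 ≤ δ1 j ∧ δ1 j ≤ C * (j : ℝ) ^ (-c)) : PBV.E2 c Psi := by
  obtain ⟨K0, hK0, hE⟩ := E_inst6 ha ha2 B
  obtain ⟨C1, CC, -, -, hV⟩ := vinst6 (a := (a' + 2) / 2) ha (by linarith) (by linarith)
  refine ⟨C + K0 * (3 * C), ?_⟩
  filter_upwards [hL, hD, hτ, hsz] with j h1 h2 h3 h4 s hs t ht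
  have hs1 : |s| ≤ 1 := abs_le.2 ⟨by linarith [hs.1], hs.2⟩
  have ht1 : |t| ≤ 1 := abs_le.2 ⟨by linarith [ht.1], ht.2⟩
  obtain ⟨D, hD1, hD2⟩ := h2 s hs t ht
  obtain ⟨e1, e2⟩ := h3 s hs t ht
  obtain ⟨z0, z1, z2, z3, z4⟩ := h4
  have L := h1 s hs t ht
  refine ⟨D, hD1, ?_⟩
  obtain ⟨dv, -⟩ := hV j s t hs1 ht1 (mf t) (mf' t) (D0 t) B (mp t) (mm t) (hm t ht) (max CC B)
    (le_max_left _ _) (le_max_right _ _)
  have hy1 := y1_neg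
  have hy2 := y2_pos6
  have hKt : 0 ≤ 2 * K j * th j := by
    have := L.K0
    have := L.th0
    positivity
  have hδ : 2 * K j * th j + δp j ≤ 2 * K j * th j + δp j + δ1 j := by linarith
  have hδ1 : δ1 j ≤ 2 * K j * th j + δp j + δ1 j := by linarith [L.dp0]
  have hδ0 : 0 ≤ 2 * K j * th j + δp j + δ1 j := by linarith
  have key := hE j s t hs1 ht1 (mf t) (mf' t) (D0 t) (mp t) (mm t) (hm t ht)
    (F (μ j) (w j s t) (fun _ => 1)) (((j + 1 : ℝ) : ℂ) * D)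
    (I * deriv (fun z => Psi j z (I * s)) (I * t)) (-deriv (deriv fun z => Psi j z (I * s)) (I * t))
    _ _ _ _ _ (2 * K j * th j + δp j + δ1 j) (δ0 j) hδ0
    ((L.lev2 hy1 hy2).mono hy1 hy2 hδ) ((L.lev2m hy1 hy2).mono hy1 hy2 hδ) (L.lin1 hy1 hy2)
    (L.lin2 hy1 hy2) (L.iG hy1 hy2 dv.hR) (L.iH hy1 hy2 dv.hR') hD2 (e1.trans hδ1) (e2.trans hδ1)
  have e3 : ((PBV.rP j s - PBV.rM j s) / 8 : ℝ) = (PBV.rP j s - PBV.rM j s) / 8 := rfl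
  refine le_trans (le_of_eq ?_) (key.trans ?_)
  · congr 1
    unfold PBV.rP PBV.rM
    push_cast
    ring
  · have : K0 * (2 * K j * th j + δp j + δ1 j) ≤ K0 * (3 * C * (j : ℝ) ^ (-c)) :=
      mul_le_mul_of_nonneg_left (by linarith) hK0.le
    linarith

end PBEM

end
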