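import Pool.Agent.PHK.LevF6
import Pool.Agent.PHK.EMain6
import Pool.Agent.PB.VInst2


/-!
# (P): `(E')` of the dislocated function (helper12)

* `closeE_of6`: `PBV.E2 (1 / 2) (fun j z x => fxQ Fil.q j x z)` from the identities of both channels (`levF6`),
  `hD_fin6`, `zleg6` (hypotheses in the literal form) and the mean field of the path.
-/

set_option autoImplicit false
set_option linter.unusedSectionVars false

noncomputable section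

open Complex MeasureTheory Filter Topology Set

open PLX (Fil)

namespace PBLX.PLX

open NUO NUP1S NUP1S.Ab NUP1S.AbC NUGC NUGC.PLX PBF PBF.PLX PBFunc PBFunc.PLX PBU PBU.PLX PBWP PBWP.PLX
open NUP1 hiding Kd
open PBEI (rowS y1 y26 Apl6 Ami6 Bch6)
open PBV (wm)
open PHK
open Pool.Agent.PLX (fxQ)

attribute [local instance] NUSea.seaP

variable [Fil]

/-- the bracket of `PBEM.E2_of6` at the family -/
def mainE6 (ep e1 J : ℝ) (j : ℕ) (s t : ℝ) : ℂ :=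
  (∫ q, F (mN6 (2 * (j + 1))) (wS6 ep e1 J j s t) (fun ω =>
      Vp6 (rh0 j s) (eC e1 J j) (Apl6 (rowS j s) 0 q) ω * Vp6 (rh0 j s) (eC e1 J j) (Bch6 q) ω) ∂wm) +
    ((∫ q, F (mN6 (2 * (j + 1))) (wS6 ep e1 J j s t) (fun ω =>
        Vm6 (rh0 j s) (eC e1 J j) (Ami6 (rowS j s) 0 q) ω * Vm6 (rh0 j s) (eC e1 J j) (Bch6 q) ω) ∂wm) +
      2 * F (mN6 (2 * (j + 1))) (wS6 ep e1 J j s t) (fun ω =>
        Vm6 (rh0 j s) (eC e1 J j) (PBEI.uF (rowS j s) 0) ω * SN6 (rh0 j s) par6 (eC e1 J j) ω) -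
      ((PBV.rP j s : ℂ) - (PBV.rM j s : ℂ)) / 2 * F (mN6 (2 * (j + 1))) (wS6 ep e1 J j s t) (fun ω =>
        SN6 (rh0 j s) par6 (eC e1 J j) ω * SN6 (rh0 j s) par6 (eC e1 J j) ω)) +
    F (mN6 (2 * (j + 1))) (wS6 ep e1 J j s t) (Vp6 (rh0 j s) (eC e1 J j) (PBEI.qF (rowS j s) 0 t))

/-- the first Ward identity, literal of `hD_fin6` -/
def HD6 (c : ℝ) : Prop := ∃ a0 : ℝ, 0 < a0 ∧
    ∀ ep e1 J : ℝ, 0 < ep → ep ≤ 1 / 100 → 0 < e1 → e1 ≤ 1 / 100 → 0 ≤ J →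
    Real.exp (-(2 * Real.pi * J)) + 3 * e1 + 3 * ep ≤ a0 → ∃ C : ℝ, 0 < C ∧
    ∀ᶠ j : ℕ in atTop, ∀ s ∈ Icc (0 : ℝ) 1, ∀ t ∈ Icc (0 : ℝ) 1, ∃ D : ℂ,
      HasDerivAt (fun s : ℝ => fxQ Fil.q j (I * s) (I * t)) D s ∧
      ‖((j + 1 : ℝ) : ℂ) * D - mainE6 ep e1 J j s t‖ ≤ C * (j : ℝ) ^ (-c)

/-- the derivatives in the height of the legs, literal of `zleg6` after the mass -/
def HZ6 (c : ℝ) : Prop := ∃ a0 : ℝ, 0 < a0 ∧
    ∀ ep e1 J : ℝ, 0 < ep → ep ≤ 1 / 100 → 0 < e1 → e1 ≤ 1 / 100 → 0 ≤ J →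
    Real.exp (-(2 * Real.pi * J)) + 3 * e1 + 3 * ep ≤ a0 → ∃ C : ℝ, 0 < C ∧
    ∀ᶠ j : ℕ in atTop, ∀ s t : ℝ, |s| ≤ 1 → |t| ≤ 1 →
      ‖F (mN6 (2 * (j + 1))) (wS6 ep e1 J j s t) (Vp6 (rh0 j s) (eC e1 J j) (PBEI.h0T t)) +
        I * deriv (fun z => fxQ Fil.q j (I * s) z) (I * t)‖ ≤ C * (j : ℝ) ^ (-c) ∧
      ‖F (mN6 (2 * (j + 1))) (wS6 ep e1 J j s t) (fun ω =>
          Vp6 (rh0 j s) (eC e1 J j) (PBEI.h0T t) ω * Vp6 (rh0 j s) (eC e1 J j) (PBEI.h0T t) ω) +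
        F (mN6 (2 * (j + 1))) (wS6 ep e1 J j s t) (Vp6 (rh0 j s) (eC e1 J j) (PBEI.g2T t)) -
        -deriv (deriv fun z => fxQ Fil.q j (I * s) z) (I * t)‖ ≤ C * (j : ℝ) ^ (-c)

/-- **`(E')`** from the identities of the two channels -/
theorem closeE_of6 [MomS6] {mf : ℝ → ℝ → ℂ} {mf' D0 : ℝ → ℝ → ℂ} {mp mm : ℝ → ℂ} {B : ℝ}
    (hm : ∀ t ∈ Icc (0 : ℝ) 1, Pool.Agent.PB.MeanDat (mf t) (mf' t) (D0 t)
      (Pool.Agent.PB.rl (PBEI.h0T t)) B (mp t) (mm t))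
    (h1 : LevW (WpS6 (19 / 10) mf)) (h2 : LevW (WmS6 (19 / 10))) (hD : HD6 (1 / 2)) (hZ : HZ6 (1 / 2)) :
    PBV.E2 (1 / 2) (fun j z x => fxQ Fil.q j x z) := by
  obtain ⟨a1, ha1, H1⟩ := levF6 h1 h2
  obtain ⟨a2, ha2, H2⟩ := hD
  obtain ⟨a3, ha3, H3⟩ := hZ
  obtain ⟨a0, h0⟩ : ∃ a0 : ℝ, a0 = min (min a1 a2) (min a3 (1 / 10)) := ⟨_, rfl⟩
  have ha0 : 0 < a0 := by
    rw [h0]
    exact lt_min (lt_min ha1 ha2) (lt_min ha3 (by norm_num))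
  have e1' : a0 ≤ a1 := by rw [h0]; exact (min_le_left _ _).trans (min_le_left _ _)
  have e2' : a0 ≤ a2 := by rw [h0]; exact (min_le_left _ _).trans (min_le_right _ _)
  have e3' : a0 ≤ a3 := by rw [h0]; exact (min_le_right _ _).trans (min_le_left _ _)
  have e4' : a0 ≤ 1 / 10 := by rw [h0]; exact (min_le_right _ _).trans (min_le_right _ _)
  -- the parameters
  obtain ⟨J, hJ0, hJ⟩ : ∃ J : ℝ, 0 ≤ J ∧ Real.exp (-(2 * Real.pi * J)) ≤ a0 / 10 := by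
    have h1 : Tendsto (fun J : ℝ => Real.exp (-(2 * Real.pi * J))) atTop (𝓝 0) := by
      refine Real.tendsto_exp_atBot.comp ?_
      exact (tendsto_neg_atTop_atBot).comp (tendsto_id.const_mul_atTop (by positivity))
    have h2 := h1.eventually (Iic_mem_nhds (show (0 : ℝ) < a0 / 10 by positivity))
    obtain ⟨J, h3, h4⟩ := (h2.and (eventually_ge_atTop (0 : ℝ))).exists
    exact ⟨J, h4, h3⟩
  have hp : SmallP a0 (a0 / 10) (a0 / 10) J :=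
    ⟨by positivity, by linarith, by positivity, by linarith, hJ0, by linarith⟩
  obtain ⟨K, th, dp, C1, hC1, hL, hs⟩ := H1 _ _ _ (hp.mono e1')
  obtain ⟨C2, hC2, hD⟩ := H2 _ _ _ hp.ep0 hp.ep1 hp.e0 hp.e1' hp.J0 (hp.sm.trans e2')
  obtain ⟨C3, hC3, hZ⟩ := H3 _ _ _ hp.ep0 hp.ep1 hp.e0 hp.e1' hp.J0 (hp.sm.trans e3')
  refine PBEM.E2_of6 (a' := 19 / 10) (B := B) (C := C1 + C2 + C3) (by norm_num) (by norm_num)
    (Ω := fun j => CfN6 (2 * (j + 1))) (μ := fun j => mN6 (2 * (j + 1)))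
    (w := fun j s t => wS6 (a0 / 10) (a0 / 10) J j s t)
    (V := fun j s _ => Vp6 (rh0 j s) (eC (a0 / 10) J j))
    (Vm := fun j s _ => Vm6 (rh0 j s) (eC (a0 / 10) J j))
    (S := fun j s _ => SN6 (rh0 j s) par6 (eC (a0 / 10) J j))
    (K := K) (th := th) (δp := dp) (δ0 := fun j => C2 * (j : ℝ) ^ (-(1 / 2 : ℝ)))
    (δ1 := fun j => C3 * (j : ℝ) ^ (-(1 / 2 : ℝ)))
    (mf := mf) (mf' := mf') (D0 := D0) (mp := mp) (mm := mm) hm hL ?_ ?_ ?_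
  · filter_upwards [hD] with j h s hs t ht
    exact h s hs t ht
  · filter_upwards [hZ] with j h s hs t ht
    exact h s t (abs_le.2 ⟨by linarith [hs.1], hs.2⟩) (abs_le.2 ⟨by linarith [ht.1], ht.2⟩)
  · filter_upwards [eventually_ge_atTop 1] with j hj
    obtain ⟨h1, h2⟩ := hs (1 / 2) (by norm_num) (by norm_num) j hj
    have hx : (0 : ℝ) ≤ (j : ℝ) ^ (-(1 / 2 : ℝ)) := by positivity
    refine ⟨?_, ?_, ?_, ?_, ?_⟩
    · exact mul_le_mul_of_nonneg_right (by linarith) hx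
    · exact h1.trans (mul_le_mul_of_nonneg_right (by linarith) hx)
    · exact h2.trans (mul_le_mul_of_nonneg_right (by linarith) hx)
    · exact mul_nonneg hC3.le hx
    · exact mul_le_mul_of_nonneg_right (by linarith) hx

/-- **`(E')`**, the mean field of the path plugged in -/
theorem closeE6 [MomS6] (h1 : LevW (WpS6 (19 / 10) PBEI.mfL)) (h2 : LevW (WmS6 (19 / 10)))
    (hD : HD6 (1 / 2)) (hZ : HZ6 (1 / 2)) : PBV.E2 (1 / 2) (fun j z x => fxQ Fil.q j x z) := by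
  obtain ⟨B, hB, hm⟩ := PBEI.meanDat
  exact closeE_of6 (fun t ht => hm t (abs_le.2 ⟨by linarith [ht.1], ht.2⟩)) h1 h2 hD hZ

end PBLX.PLX

end
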