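import Pool.Agent.PHK.BrT
import Pool.Agent.PLX.DZUclsP

/-!
# The cutoff of the strings with the factor `om` as a cutoff `ph (4 / 3) x g0`

* `Ez z = (1 - exp (-z)) / z`, entire;
* **`gO T1 W x`** : `ph (4 / 3) x (gO T1 W x) = phO T1 (List.ofFn x ++ W)` (`ph_gO`), `phO` = `phi (4 / 3) * om`;
* `dec_phO` : decay of every rate of the cutoff on the lines `[-29 / 20 l, -l / 2]` of the strings;
* **`goN_gO`** : `GOn (K2P (-(29 / 20 * l))) (4 / 3) (gO T1 W x)`; **`dec_gO`** : the decay of `ph (4 / 3) x (gO ..)`.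
-/

set_option autoImplicit false
set_option linter.unusedSectionVars false
set_option linter.unusedVariables false

noncomputable section

open Complex

namespace PHK

open NUP1 (l lpos psi phi)
open NUP1S (Bdd DecOn)
open PBX (ph gP GOk Rws KK ph_gP)
open PBO.PLX (RwL)
open Pool.Agent.PLX (K2P GOn)

/-! ### the function `(1 - exp (-z)) / z` -/

/-- `(1 - exp (-z)) / z`, entire -/
def Ez : ℂ → ℂ := dslope (fun z => -Complex.exp (-z)) 0

theorem Ez_mul (z : ℂ) : z * Ez z = 1 - Complex.exp (-z) := by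
  have h := sub_smul_dslope (fun z : ℂ => -Complex.exp (-z)) 0 z
  simp only [sub_zero, smul_eq_mul, neg_zero, Complex.exp_zero] at h
  unfold Ez
  rw [h]
  ring

theorem diff_Ez : Differentiable ℂ Ez := by
  have h : DifferentiableOn ℂ (dslope (fun z : ℂ => -Complex.exp (-z)) 0) Set.univ :=
    (Complex.differentiableOn_dslope Filter.univ_mem).2
      (differentiable_id.neg.cexp.neg).differentiableOn
  exact differentiableOn_univ.1 h

/-! ### the product of the points -/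

theorem pP_gP (X : List ℂ) : pP X = gP (4 / 3) X := rfl

theorem pP_append {m : ℕ} (x : Fin m → ℂ) (W : List ℂ) (u : ℂ) :
    pP (List.ofFn x ++ W) u = (∏ i, psi (4 / 3) (u - x i)) * gP (4 / 3) W u := by
  unfold pP PBX.gP
  rw [List.map_append, List.prod_append, List.map_ofFn, List.prod_ofFn]
  rfl

private theorem re_app {m : ℕ} {x : Fin m → ℂ} {W : List ℂ} (hx : Rws x) (hW : ∀ w ∈ W, |w.re| ≤ l / 2) :
    ∀ w ∈ List.ofFn x ++ W, |w.re| ≤ l / 2 := by
  intro w hw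
  rcases List.mem_append.1 hw with h | h
  · obtain ⟨i, rfl⟩ := (List.mem_ofFn).1 h
    exact hx i
  · exact hW w h

theorem K2_KKP {t : ℝ} (h : t ∈ K2P (-(29 / 20 * l))) : t ∈ KK := by
  have hl := lpos
  obtain ⟨h1, h2⟩ := h
  constructor <;> linarith

theorem gOk_pP {X : List ℂ} (hX : ∀ w ∈ X, |w.re| ≤ l / 2) : GOk (4 / 3) (pP X) :=
  GOk.gP (by norm_num) le_rfl hX

private theorem im_bd (X : List ℂ) : ∃ h0 : ℝ, 0 ≤ h0 ∧ ∀ x ∈ X, |x.im| ≤ h0 := by
  induction X with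
  | nil => exact ⟨0, le_rfl, by simp⟩
  | cons x X ih =>
    obtain ⟨h0, h1, h2⟩ := ih
    refine ⟨max h0 |x.im|, h1.trans (le_max_left _ _), fun y hy => ?_⟩
    rcases List.mem_cons.1 hy with rfl | hy
    · exact le_max_right _ _
    · exact (h2 y hy).trans (le_max_left _ _)

private theorem rwL_self {X : List ℂ} (hX : ∀ w ∈ X, |w.re| ≤ l / 2) {h0 : ℝ} (h : ∀ x ∈ X, |x.im| ≤ h0) :
    RwL X.length h0 0 X X := ⟨by simp, le_rfl, hX, h⟩

private theorem uK {u : ℂ} (hu : u.re ∈ K2P (-(29 / 20 * l))) : |u.re + l / 2| ≤ l := by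
  have hl := lpos
  obtain ⟨h1, h2⟩ := hu
  rw [abs_le]
  constructor <;> linarith

/-- the cutoff is at most `2` -/
theorem phi_le_two {X : List ℂ} (hX : ∀ w ∈ X, |w.re| ≤ l / 2) {u : ℂ} (hu : u.re ∈ K2P (-(29 / 20 * l))) :
    ‖phi (4 / 3) X u‖ ≤ 2 := by
  obtain ⟨h0, hh, h1⟩ := im_bd X
  exact (phiL_cut (m := 1) (β := 4 / 3) (by norm_num) le_rfl hh (rwL_self hX h1) (Nat.cast_nonneg X.length)
    (by simp) (uK hu)).1

/-- **the vacuum** of any list -/
theorem pP_one {X : List ℂ} (hX : ∀ w ∈ X, |w.re| ≤ l / 2) : ∃ T : ℝ, 0 ≤ T ∧ ∀ u : ℂ,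
    u.re ∈ K2P (-(29 / 20 * l)) → T ≤ |u.im| → ‖pP X u - 1‖ ≤ 1 / 5 := by
  obtain ⟨h0, hh, h1⟩ := im_bd X
  refine ⟨tau0 h0 X.length, tau0_nonneg (Nat.cast_nonneg _), fun u hu hT => ?_⟩
  exact pP_vac (m := 1) hh (rwL_self hX h1) (Nat.cast_nonneg X.length) le_rfl (by simp) (uK hu)
    (T1 := tau0 h0 X.length) (by simp) hT

theorem pP_norm {X : List ℂ} (hX : ∀ w ∈ X, |w.re| ≤ l / 2) {u : ℂ} (hu : u.re ∈ K2P (-(29 / 20 * l))) :
    ‖pP X u‖ ≤ 1 := by
  obtain ⟨h0, hh, h1⟩ := im_bd X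
  exact pP_le hh (rwL_self hX h1) (uK hu)

/-- **the factor `om` decays at every rate** -/
theorem dec_om (T1 : ℝ) {X : List ℂ} (hX : ∀ w ∈ X, |w.re| ≤ l / 2) {a : ℝ} (ha : 0 ≤ a) :
    DecOn a (K2P (-(29 / 20 * l))) (om T1 (pP X)) := by
  obtain ⟨T, hT, H⟩ := pP_one hX
  obtain ⟨D1, hD1⟩ : ∃ D1, D1 = Real.exp (2 * Real.exp (11 / 2 * (T - T1))) * Real.exp (a * T) := ⟨_, rfl⟩
  obtain ⟨D2, hD2⟩ : ∃ D2, D2 = Real.exp (5 * a ^ 2 + a * T1) := ⟨_, rfl⟩
  refine ⟨D1 + D2, fun u hu => ?_⟩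
  have hE := Real.exp_pos (-(a * |u.im|))
  have hD10 : 0 ≤ D1 := by rw [hD1]; positivity
  have hD20 : 0 ≤ D2 := by rw [hD2]; positivity
  rcases le_total |u.im| T with h | h
  · have h1 : ‖om T1 (pP X) u‖ ≤ Real.exp (2 * Real.exp (11 / 2 * (T - T1))) := by
      unfold om
      refine (Complex.norm_exp_le_exp_norm _).trans (Real.exp_le_exp.2 ?_)
      rw [norm_neg, norm_mul]
      calc ‖omA T1 u‖ * ‖pP X u‖ ≤ 2 * Real.exp (11 / 2 * (|u.im| - T1)) * 1 :=
            mul_le_mul (norm_omA_le T1 u) (pP_norm hX hu) (norm_nonneg _) (by positivity)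
        _ ≤ _ := by
            rw [mul_one]
            refine mul_le_mul_of_nonneg_left (Real.exp_le_exp.2 ?_) (by norm_num)
            linarith
    have h2 : 1 ≤ Real.exp (a * T) * Real.exp (-(a * |u.im|)) := by
      rw [← Real.exp_add]
      refine Real.one_le_exp ?_
      nlinarith
    calc ‖om T1 (pP X) u‖ ≤ Real.exp (2 * Real.exp (11 / 2 * (T - T1))) * 1 := by rw [mul_one]; exact h1
      _ ≤ Real.exp (2 * Real.exp (11 / 2 * (T - T1))) * (Real.exp (a * T) * Real.exp (-(a * |u.im|))) :=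
          mul_le_mul_of_nonneg_left h2 (Real.exp_pos _).le
      _ = D1 * Real.exp (-(a * |u.im|)) := by rw [hD1]; ring
      _ ≤ _ := mul_le_mul_of_nonneg_right (by linarith) hE.le
  · have h1 := norm_om_vac (T1 := T1) (P := pP X) (range_win hu.1 hu.2) (H u hu h)
    have h3 := dexp_le (a := a) (y := |u.im| - T1) ha
    have h4 : |u.im| - T1 ≤ max (|u.im| - T1) 0 := le_max_left _ _
    have h5 : Real.exp (-(Real.exp (11 / 2 * (|u.im| - T1)) / 5)) ≤ D2 * Real.exp (-(a * |u.im|)) := by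
      rw [hD2, ← Real.exp_add]
      refine Real.exp_le_exp.2 ?_
      nlinarith
    exact (h1.trans h5).trans (mul_le_mul_of_nonneg_right (by linarith) hE.le)

/-- **the cutoff of the strings decays at every rate** -/
theorem dec_phO (T1 : ℝ) {X : List ℂ} (hX : ∀ w ∈ X, |w.re| ≤ l / 2) {a : ℝ} (ha : 0 ≤ a) :
    DecOn a (K2P (-(29 / 20 * l))) (phO T1 X) := by
  obtain ⟨D, hD⟩ := dec_om T1 hX ha
  refine ⟨2 * D, fun u hu => ?_⟩
  unfold phO
  rw [norm_mul, mul_assoc]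
  exact mul_le_mul (phi_le_two hX hu) (hD u hu) (norm_nonneg _) (by norm_num)

/-! ### the correction -/

section gO

variable {m : ℕ} {x : Fin m → ℂ} {W : List ℂ} {T1 : ℝ}

/-- **the correction of the cutoff of the strings**: further points `W` and the factor `om` -/
def gO (T1 : ℝ) (W : List ℂ) (x : Fin m → ℂ) (u : ℂ) : ℂ :=
  gP (4 / 3) W u * (Complex.exp (-(omA T1 u * pP (List.ofFn x ++ W) u)) +
    omA T1 u * Ez (omA T1 u * pP (List.ofFn x ++ W) u))

theorem ph_gO (T1 : ℝ) (W : List ℂ) (x : Fin m → ℂ) (u : ℂ) :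
    ph (4 / 3) x (gO T1 W x) u = phO T1 (List.ofFn x ++ W) u := by
  have h1 := pP_append x W u
  have h2 := Ez_mul (omA T1 u * pP (List.ofFn x ++ W) u)
  obtain ⟨p, hp⟩ : ∃ p, p = pP (List.ofFn x ++ W) u := ⟨_, rfl⟩
  obtain ⟨E, hE⟩ : ∃ E, E = Ez (omA T1 u * p) := ⟨_, rfl⟩
  unfold PBX.ph gO phO om
  rw [phi_pP]
  rw [← hp] at h1 h2 ⊢
  rw [← hE] at h2 ⊢
  have h3 : (∏ i, psi (4 / 3) (u - x i)) * (gP (4 / 3) W u * (Complex.exp (-(omA T1 u * p)) +
      omA T1 u * E)) = p * (Complex.exp (-(omA T1 u * p)) + omA T1 u * E) := by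
    rw [h1]
    ring
  rw [h3]
  linear_combination -h2

theorem ph_gO_fun (T1 : ℝ) (W : List ℂ) (x : Fin m → ℂ) :
    ph (4 / 3) x (gO T1 W x) = phO T1 (List.ofFn x ++ W) := funext fun u => ph_gO T1 W x u

/-- the same with `om` as a factor of the cutoff with the points `W` -/
theorem ph_gO_om (T1 : ℝ) (W : List ℂ) (x : Fin m → ℂ) (u : ℂ) :
    ph (4 / 3) x (gO T1 W x) u = ph (4 / 3) x (gP (4 / 3) W) u *
      om T1 (fun u => (∏ i, psi (4 / 3) (u - x i)) * gP (4 / 3) W u) u := by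
  rw [ph_gO, ph_gP]
  have e : pP (List.ofFn x ++ W) = fun u => (∏ i, psi (4 / 3) (u - x i)) * gP (4 / 3) W u :=
    funext fun u => pP_append x W u
  unfold phO
  rw [e]

theorem meas_gO (hx : Rws x) (hW : ∀ w ∈ W, |w.re| ≤ l / 2) : Measurable (gO T1 W x) := by
  have m1 : Measurable (gP (4 / 3) W) := (GOk.gP (by norm_num) le_rfl hW).meas
  have m2 : Measurable (pP (List.ofFn x ++ W)) := (gOk_pP (re_app hx hW)).meas
  have m3 : Measurable (omA T1) := (diff_omA T1).continuous.measurable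
  have m4 : Measurable Ez := diff_Ez.continuous.measurable
  exact m1.mul (((m3.mul m2).neg.cexp).add (m3.mul (m4.comp (m3.mul m2))))

theorem diff_gO (hx : Rws x) (hW : ∀ w ∈ W, |w.re| ≤ l / 2) {z : ℂ} (hz : z.re ∈ KK) :
    DifferentiableAt ℂ (gO T1 W x) z := by
  have d1 : DifferentiableAt ℂ (gP (4 / 3) W) z := (GOk.gP (by norm_num) le_rfl hW).diff z hz
  have d2 : DifferentiableAt ℂ (pP (List.ofFn x ++ W)) z := (gOk_pP (re_app hx hW)).diff z hz
  have d3 : DifferentiableAt ℂ (omA T1) z := (diff_omA T1) z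
  have d5 : DifferentiableAt ℂ (fun u => Ez (omA T1 u * pP (List.ofFn x ++ W) u)) z :=
    (diff_Ez _).comp z (d3.mul d2)
  exact d1.mul (((d3.mul d2).neg.cexp).add (d3.mul d5))

/-- **the correction is admissible** -/
theorem goN_gO (hx : Rws x) (hW : ∀ w ∈ W, |w.re| ≤ l / 2) :
    GOn (K2P (-(29 / 20 * l))) (4 / 3) (gO T1 W x) where
  meas := meas_gO hx hW
  diff z hz := diff_gO hx hW (K2_KKP hz)
  bd := by
    have hl := lpos
    have hX := re_app hx hW
    have hx' : ∀ w ∈ List.ofFn x, |w.re| ≤ l / 2 := by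
      intro w hw
      exact re_app (W := []) hx (by simp) w (by simpa using hw)
    obtain ⟨D, hD⟩ := dec_phO T1 hX (a := 8 / 3) (by norm_num)
    obtain ⟨C, hC, hC1⟩ := (gOk_pP hx').bd
    obtain ⟨T, hT, H⟩ := pP_one hx'
    -- the box
    have hcpt : IsCompact (Set.Icc (-(29 / 20 * l)) (-(l / 2)) ×ℂ Set.Icc (-T) T) :=
      isCompact_Icc.reProdIm isCompact_Icc
    have hcon : ContinuousOn (fun z => 1 - gO T1 W x z)
        (Set.Icc (-(29 / 20 * l)) (-(l / 2)) ×ℂ Set.Icc (-T) T) := fun z hz =>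
      ((diff_gO hx hW (K2_KKP (t := z.re) hz.1)).const_sub 1).continuousAt.continuousWithinAt
    obtain ⟨M, hM⟩ := hcpt.exists_bound_of_continuousOn hcon
    refine ⟨|M| * Real.exp (8 / 3 * T) + 5 / 4 * (C + |D|), by positivity, fun z hz => ?_⟩
    have hE := Real.exp_pos (-(2 * (4 / 3)) * |z.im|)
    rcases le_total |z.im| T with h | h
    · have h1 := hM z ⟨hz, (abs_le.1 h)⟩
      have h2 : 1 ≤ Real.exp (8 / 3 * T) * Real.exp (-(2 * (4 / 3)) * |z.im|) := by
        rw [← Real.exp_add]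
        refine Real.one_le_exp ?_
        linarith
      calc ‖1 - gO T1 W x z‖ ≤ |M| * 1 := by rw [mul_one]; exact h1.trans (le_abs_self _)
        _ ≤ |M| * (Real.exp (8 / 3 * T) * Real.exp (-(2 * (4 / 3)) * |z.im|)) :=
            mul_le_mul_of_nonneg_left h2 (abs_nonneg _)
        _ = |M| * Real.exp (8 / 3 * T) * Real.exp (-(2 * (4 / 3)) * |z.im|) := by ring
        _ ≤ _ := mul_le_mul_of_nonneg_right (by
            have : 0 ≤ 5 / 4 * (C + |D|) := by positivity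
            linarith) hE.le
    · have h1 := H z hz h
      obtain ⟨Q, hQ⟩ : ∃ Q, Q = pP (List.ofFn x) z := ⟨_, rfl⟩
      rw [← hQ] at h1
      have hQ1 : 4 / 5 ≤ ‖Q‖ := by
        have := norm_sub_norm_le (1 : ℂ) (1 - Q)
        rw [norm_one, sub_sub_cancel, norm_sub_rev] at this
        linarith
      have e : (1 - gO T1 W x z) * Q = (Q - 1) + phO T1 (List.ofFn x ++ W) z := by
        have h2 := ph_gO T1 W x z
        have h3 : Q = ∏ i, psi (4 / 3) (z - x i) := by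
          rw [hQ]
          have := pP_append x [] z
          rw [List.append_nil] at this
          rw [this]
          unfold PBX.gP
          simp
        unfold PBX.ph at h2
        rw [← h3] at h2
        rw [← h2]
        ring
      have e2 : ‖1 - gO T1 W x z‖ * ‖Q‖ ≤ (C + |D|) * Real.exp (-(2 * (4 / 3)) * |z.im|) := by
        rw [← norm_mul, e, add_mul]
        refine (norm_add_le _ _).trans (add_le_add ?_ ?_)
        · rw [norm_sub_rev, hQ]
          exact hC1 z (K2_KKP hz)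
        · refine (hD z hz).trans ?_
          have e3 : -(8 / 3 * |z.im|) = -(2 * (4 / 3)) * |z.im| := by ring
          rw [e3]
          exact mul_le_mul_of_nonneg_right (le_abs_self _) hE.le
      have h4 : ‖1 - gO T1 W x z‖ ≤ 5 / 4 * (‖1 - gO T1 W x z‖ * ‖Q‖) := by
        nlinarith [norm_nonneg (1 - gO T1 W x z)]
      calc ‖1 - gO T1 W x z‖ ≤ 5 / 4 * ((C + |D|) * Real.exp (-(2 * (4 / 3)) * |z.im|)) := by linarith
        _ = 5 / 4 * (C + |D|) * Real.exp (-(2 * (4 / 3)) * |z.im|) := by ring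
        _ ≤ _ := mul_le_mul_of_nonneg_right (by
            have : 0 ≤ |M| * Real.exp (8 / 3 * T) := by positivity
            linarith) hE.le

/-- **the cutoff decays at every rate** -/
theorem dec_gO (hx : Rws x) (hW : ∀ w ∈ W, |w.re| ≤ l / 2) {a : ℝ} (ha : 0 ≤ a) :
    DecOn a (K2P (-(29 / 20 * l))) (ph (4 / 3) x (gO T1 W x)) := by
  rw [ph_gO_fun]
  exact dec_phO T1 (re_app hx hW) ha

end gO

end PHK

end
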