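import Pool.Agent.PHK.FDef6
import Pool.Agent.PLX.PB.HolU

/-!
# The particle-hole form (P): Hölder inequality for the functional with moduli

(P) twin of `PLX/PB/HolU` (`InsE`, `pw`, `holder_w`, `const_split` are the landed ones).

* `trE6`, `FE6`: the functional with moduli with a nonnegative insertion (`FA6 = FE6 ‖Ψ‖ₑ`);
* `MG6`, `MI6`, `MO6`: measurability; **`FE_holder6`**, **`FA_holder6`**.
-/

set_option autoImplicit false
set_option linter.unusedSectionVars false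

noncomputable section

open Complex MeasureTheory Finset
open scoped ENNReal

open PLX (Fil)

namespace PBF.PLX

open NUO NUP1 NUP1S NUP1S.Ab NUP1S.AbC NUGC NUGC.PLX NUCR PHK

variable [Fil] (Z : Bool → Option O3 → ℂ → ℂ) (P : Par6) (n n' : ℕ) (η η' : Crs)

/-- the modulus of the term of a configuration, nonnegative insertion -/
def trE6 (φ : InsE) (r : ℕ) (O : Fin r → Xo) : ℝ≥0∞ :=
  if chgO6 O true ≤ n ∧ chgO6 O false ≤ n' ∧ cnt6 O then
    ‖wK6 Z P O‖ₑ * ((((nA6 n O true).factorial : ℝ≥0∞) * (nA6 n' O false).factorial)⁻¹ *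
      ∫⁻ x, ‖gK (gF6 Z P O) (η r O) (η' r O) (nA6 n O true) (nA6 n' O false) x‖ₑ *
        φ r O (nA6 n O true) (nA6 n' O false) x)
  else 0

/-- the functional with moduli, nonnegative insertion -/
def FE6 (φ : InsE) : ℝ≥0∞ :=
  ∑ r ∈ range (2 * (n + n') + 1), ((r.factorial : ℕ) : ℝ≥0∞)⁻¹ *
    ∫⁻ O : Fin r → Xo, trE6 Z P n n' η η' φ r O ∂(Measure.pi fun _ => nu)

/-- the integrand of the quanta is measurable for every configuration -/
def MG6 : Prop := ∀ (r : ℕ) (O : Fin r → Xo), AEMeasurable fun x =>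
  ‖gK (gF6 Z P O) (η r O) (η' r O) (nA6 n O true) (nA6 n' O false) x‖ₑ

/-- measurability of a nonnegative insertion in the quanta -/
def MI6 (φ : InsE) : Prop := ∀ (r : ℕ) (O : Fin r → Xo), AEMeasurable fun x =>
  φ r O (nA6 n O true) (nA6 n' O false) x

/-- measurability of the terms -/
def MO6 (φ : InsE) : Prop := ∀ r : ℕ,
  AEMeasurable (fun O : Fin r → Xo => trE6 Z P n n' η η' φ r O) (Measure.pi fun _ => nu)

variable {Z P n n' η η'}

theorem FA_eq_FE6 (Ψ : Ins) :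
    FA6 Z P n n' η η' Ψ = FE6 Z P n n' η η' (fun r O a b x => ‖Ψ r O a b x‖ₑ) := rfl

theorem FE_mono6 {φ ψ : InsE} (h : ∀ r O a b x, φ r O a b x ≤ ψ r O a b x) :
    FE6 Z P n n' η η' φ ≤ FE6 Z P n n' η η' ψ := by
  unfold FE6
  refine Finset.sum_le_sum fun r _ => mul_le_mul' le_rfl (lintegral_mono fun O => ?_)
  unfold trE6
  split_ifs
  · refine mul_le_mul' le_rfl (mul_le_mul' le_rfl (lintegral_mono fun x => ?_))
    exact mul_le_mul' le_rfl (h _ _ _ _ _)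
  · exact le_rfl

theorem trE_holder6 {p q : ℝ} (hpq : p.HolderConjugate q) (hG : MG6 Z P n n' η η') {φ ψ : InsE}
    (hφ : MI6 n n' φ) (hψ : MI6 n n' ψ) (r : ℕ) (O : Fin r → Xo) :
    trE6 Z P n n' η η' (fun r O a b x => φ r O a b x * ψ r O a b x) r O ≤
      trE6 Z P n n' η η' (fun r O a b x => φ r O a b x ^ p) r O ^ (1 / p) *
        trE6 Z P n n' η η' (fun r O a b x => ψ r O a b x ^ q) r O ^ (1 / q) := by
  have hp := hpq.pos
  have hq := hpq.symm.pos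
  unfold trE6
  split_ifs with hc
  · rw [← const_split hpq, ← const_split hpq]
    exact mul_le_mul' le_rfl (mul_le_mul' le_rfl (holder_w hpq (hG r O) (hφ r O) (hψ r O)))
  · exact zero_le

/-- **Hölder** -/
theorem FE_holder6 {p q : ℝ} (hpq : p.HolderConjugate q) (hG : MG6 Z P n n' η η') {φ ψ : InsE}
    (hφ : MI6 n n' φ) (hψ : MI6 n n' ψ)
    (hφo : MO6 Z P n n' η η' (fun r O a b x => φ r O a b x ^ p))
    (hψo : MO6 Z P n n' η η' (fun r O a b x => ψ r O a b x ^ q)) :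
    FE6 Z P n n' η η' (fun r O a b x => φ r O a b x * ψ r O a b x) ≤
      FE6 Z P n n' η η' (fun r O a b x => φ r O a b x ^ p) ^ (1 / p) *
        FE6 Z P n n' η η' (fun r O a b x => ψ r O a b x ^ q) ^ (1 / q) := by
  have hp := hpq.pos
  have hq := hpq.symm.pos
  have h1 : ∀ r : ℕ, ((r.factorial : ℕ) : ℝ≥0∞)⁻¹ *
      ∫⁻ O : Fin r → Xo, trE6 Z P n n' η η' (fun r O a b x => φ r O a b x * ψ r O a b x) r O
        ∂(Measure.pi fun _ => nu) ≤
      (((r.factorial : ℕ) : ℝ≥0∞)⁻¹ * ∫⁻ O : Fin r → Xo,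
        trE6 Z P n n' η η' (fun r O a b x => φ r O a b x ^ p) r O ∂(Measure.pi fun _ => nu)) ^ (1 / p) *
      (((r.factorial : ℕ) : ℝ≥0∞)⁻¹ * ∫⁻ O : Fin r → Xo,
        trE6 Z P n n' η η' (fun r O a b x => ψ r O a b x ^ q) r O ∂(Measure.pi fun _ => nu)) ^ (1 / q) := by
    intro r
    rw [← const_split hpq]
    refine mul_le_mul' le_rfl ((lintegral_mono fun O => trE_holder6 hpq hG hφ hψ r O).trans ?_)
    have h2 := ENNReal.lintegral_mul_le_Lp_mul_Lq (Measure.pi fun _ : Fin r => nu) hpq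
      ((hφo r).pow_const (1 / p)) ((hψo r).pow_const (1 / q))
    simp only [Pi.mul_apply, ← ENNReal.rpow_mul, one_div_mul_cancel hp.ne',
      one_div_mul_cancel hq.ne', ENNReal.rpow_one] at h2
    exact h2
  unfold FE6
  refine (Finset.sum_le_sum fun r _ => h1 r).trans ?_
  have h3 := ENNReal.inner_le_Lp_mul_Lq (range (2 * (n + n') + 1))
    (fun r => (((r.factorial : ℕ) : ℝ≥0∞)⁻¹ * ∫⁻ O : Fin r → Xo,
        trE6 Z P n n' η η' (fun r O a b x => φ r O a b x ^ p) r O ∂(Measure.pi fun _ => nu)) ^ (1 / p))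
    (fun r => (((r.factorial : ℕ) : ℝ≥0∞)⁻¹ * ∫⁻ O : Fin r → Xo,
        trE6 Z P n n' η η' (fun r O a b x => ψ r O a b x ^ q) r O ∂(Measure.pi fun _ => nu)) ^ (1 / q))
    hpq
  simp only [← ENNReal.rpow_mul, one_div_mul_cancel hp.ne', one_div_mul_cancel hq.ne',
    ENNReal.rpow_one] at h3
  exact h3

/-- **Hölder for the functional with moduli** -/
theorem FA_holder6 {p q : ℝ} (hpq : p.HolderConjugate q) (hG : MG6 Z P n n' η η') {Ψ Φ : Ins}
    (hφ : MI6 n n' (fun r O a b x => ‖Ψ r O a b x‖ₑ)) (hψ : MI6 n n' (fun r O a b x => ‖Φ r O a b x‖ₑ))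
    (hφo : ∀ r : ℕ, AEMeasurable (fun O : Fin r → Xo => trA6 Z P n n' η η' (pw p Ψ) r O)
      (Measure.pi fun _ => nu))
    (hψo : ∀ r : ℕ, AEMeasurable (fun O : Fin r → Xo => trA6 Z P n n' η η' (pw q Φ) r O)
      (Measure.pi fun _ => nu)) :
    FA6 Z P n n' η η' (fun r O a b x => Ψ r O a b x * Φ r O a b x) ≤
      FA6 Z P n n' η η' (pw p Ψ) ^ (1 / p) * FA6 Z P n n' η η' (pw q Φ) ^ (1 / q) := by
  have hp := hpq.pos
  have hq := hpq.symm.pos
  have e1 : (fun (r : ℕ) (O : Fin r → Xo) (a b : ℕ) (x : (Fin a → ℝ) × (Fin b → ℝ)) =>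
      ‖pw p Ψ r O a b x‖ₑ) = fun r O a b x => ‖Ψ r O a b x‖ₑ ^ p := by
    funext r O a b x
    exact enorm_pw hp.le Ψ r O a b x
  have e2 : (fun (r : ℕ) (O : Fin r → Xo) (a b : ℕ) (x : (Fin a → ℝ) × (Fin b → ℝ)) =>
      ‖pw q Φ r O a b x‖ₑ) = fun r O a b x => ‖Φ r O a b x‖ₑ ^ q := by
    funext r O a b x
    exact enorm_pw hq.le Φ r O a b x
  have e3 : (fun (r : ℕ) (O : Fin r → Xo) (a b : ℕ) (x : (Fin a → ℝ) × (Fin b → ℝ)) =>
      ‖Ψ r O a b x * Φ r O a b x‖ₑ) = fun r O a b x => ‖Ψ r O a b x‖ₑ * ‖Φ r O a b x‖ₑ := by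
    funext r O a b x
    exact enorm_mul _ _
  rw [FA_eq_FE6, FA_eq_FE6, FA_eq_FE6, e1, e2, e3]
  refine FE_holder6 hpq hG hφ hψ ?_ ?_
  · rw [← e1]
    exact hφo
  · rw [← e2]
    exact hψo

end PBF.PLX

end
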