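import Pool.Agent.PHK.LegD

/-!
# (P): the class functions of the dislocated function

Rows `mu1 k x` (`k + 1` rows of X, every row `q`-fold in Y), legs at `z`, `g0` = string cut without the
rows.

* `ZL6`: the class functions; **`oneC6_L`**: bounded by the one body data `obL6`; `cL6_pos`.
-/

set_option autoImplicit false
set_option linter.unusedSectionVars false

noncomputable section

open Complex MeasureTheory Finset
open scoped ENNReal
open PLX (Fil Ends)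

namespace PHK

open NUO NUP1 NUP1S NUP1S.Ab NUP1S.AbC NUGC.PLX NUCR
open PBX (Lg gP Rws ph)
open PBL.PLX (mu1)
open PBO.PLX (cR cR_pos cRh cRh_pos cA)
open PBT.PLX (rws_mu1)
open Pool.Agent.PLX (XXU rwq)

variable [Fil]

/-- the class functions, `g0` = string cut without the rows -/
def ZL6 (c : Bool → ℂ) (g0 : Bool → ℂ → ℂ) (k : ℕ) (β : ℝ) (x z : ℂ) :
    Bool → Option O3 → ℂ → ℂ := fun a =>
  XXU (c a) β (rwq (mu1 k x) a) (rwq (mu1 k x) !a) (gP β [I, -I]) (g0 a) (Lg z z)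
    (fun w => Lg z z w * Lg z z (w - NUP1.l))

/-- **the class functions are bounded by the one body data** -/
theorem oneC6_L {T1 : ℝ} {k : ℕ} {β : ℝ} {x z : ℂ} {ep : ℝ} (hep0 : 0 < ep) (hep : ep ≤ 1 / 100)
    (hβ : 0 < β) (hβ' : β ≤ 4 / 3) (hx : |x.re| ≤ NUP1.l / 2) {c : Bool → ℂ}
    (hc : ∀ a, ‖c a‖ = 2 * Real.cos NUP1.l) {g0 : Bool → ℂ → ℂ} (hg : ∀ a, Measurable (g0 a))
    (hph : ∀ a, ph (4 / 3) (rwq (mu1 k x) a) (g0 a) = phO T1 (List.ofFn (rwq (mu1 k x) a) ++ []))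
    (h1 : -(9 / 10 * NUP1.l) ≤ z.re) (h2 : z.re < 37 / 10 * NUP1.l) {P : Par6} :
    OneC6 (ZL6 c g0 k β x z) (obL6 T1 k β x z) P ep (2 * β) (51 / 100 * NUP1.l) (-Fil.xn (k + 1))
      (Set.range fun i => (mu1 k x i).im) := by
  have hl := NUP1.l_pos
  have h := oneC6_Lg (P := P) (ep := ep) (x0 := 51 / 100 * NUP1.l) le_rfl (by linarith) hep0 hep hβ
    hβ' (rws_mu1 k hx) (ex := fun _ => [I, -I]) (fun _ w hw => by
      rw [List.mem_cons, List.mem_singleton] at hw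
      rcases hw with rfl | rfl
      · rw [Complex.I_re, abs_zero]; positivity
      · rw [Complex.neg_re, Complex.I_re, neg_zero, abs_zero]; positivity) hg hc h1 h2
  have e : (fun a => ph (4 / 3) (rwq (mu1 k x) a) (g0 a)) =
      fun a => phO T1 (List.ofFn (rwq (mu1 k x) a) ++ []) := funext hph
  rw [e] at h
  exact h

/-! ### the constant -/

variable [Ends]

private theorem cI6_posL (n0 n1 : ℕ) {h0 G c0 d1 : ℝ} (hG : 0 < G) (hc : 0 < c0) (hd : 1 ≤ d1) :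
    0 < cI6 n0 n1 h0 G c0 d1 := by
  have h1 := cRh_pos h0
  have h2 := cR_pos
  have h3 := cPw_pos (3 * n0 + n1) h0
  have h4 : 0 ≤ d1 + (n1 : ℝ) := by positivity
  have h5 := cL_ge (h0 := h0) h4
  have h8 : 0 ≤ (c0 + c0⁻¹) * (cRh h0 ^ (2 * (3 * n0 + n1)) * cR ^ (3 * n0 + n1)) * G := by
    positivity
  have h9 : 0 ≤ 12 * Real.exp (8 / 3 * h0) * cPw (3 * n0 + n1) h0 * (d1 + (n1 : ℝ)) := by
    positivity
  have h10 : 0 ≤ (2 + Real.exp 3) * cL h0 (d1 + (n1 : ℝ)) := by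
    have := Real.exp_pos 3
    have : 0 ≤ cL h0 (d1 + (n1 : ℝ)) := by linarith
    positivity
  have h11 : 0 ≤ (4 + 4 * Real.exp 2) * Real.exp ((3 * n0 + n1 : ℕ) * cA) := by positivity
  unfold cI6 cOR
  linarith

theorem cL6_pos : 0 < cL6 :=
  cI6_posL _ _ PBO.PLX.cZ_pos two_cos_pos Fil.one_le_qor

end PHK

end
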