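import Pool.Agent.PHK.KRep6
import Pool.Agent.PHK.ZL6
import Pool.Agent.PHK.GOm
import Pool.Agent.PHK.HolU6
import Pool.Agent.PLX.U1Q
import Pool.Agent.PLX.PB.ParZ

/-!
# (P): the bound of the literal function from the mass of its functional

* `TopM6 δ`: the mass of the functional at the landed curves is at most `m ^ δ exp (2 |Im z|)`;
* **`fx_le_right6`**: `FxLe Fil.q δ` from `TopM6 δ` and the class formula `FFth`; `u1P_of6`, `u0P_of6`.
-/

set_option autoImplicit false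
set_option linter.unusedSectionVars false

noncomputable section

open Complex MeasureTheory Set Filter Topology
open scoped ENNReal
open PLX (Fil)

namespace PBV.PLX

open PHK
open PBX (ph Lg gP)
open PBL.PLX (mu1)
open PBT.PLX (crL crL' rws_mu1)
open Pool.Agent.PB (Pf cn xr Rwo LS)
open PBF.PLX (FE6 FA_eq_FE6)
open Pool.Agent.PLX (rwq yq FFth FxLe fxQ)

attribute [local instance] NUSea.seaP _root_.PLX.ends0

variable [Fil]

/-- **mass of the functional of the dislocated function**, rows `x, 0, …, 0`, legs at `z`; `g0` = the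
cutoff of the strings without the rows -/
def TopM6 (δ : ℝ) : Prop := ∃ a0 : ℝ, 0 < a0 ∧ ∀ ep e1 J : ℝ, 0 < ep → ep ≤ 1 / 100 → 0 < e1 →
  e1 ≤ 1 / 100 → 0 ≤ J → Real.exp (-(2 * Real.pi * J)) + 3 * e1 + 3 * ep ≤ a0 →
  ∃ m0 : ℕ, ∀ k : ℕ, m0 ≤ k → ∀ x z : ℂ, |x.re| ≤ NUMF.l / 10 → |x.im| ≤ 2 →
    -(9 / 10 * NUMF.l) ≤ z.re → z.re < 31 / 10 * NUMF.l →
    |z.im| ≤ 3 / 20 * Real.log (k + 1 : ℕ) + 2 → ∀ c : Bool → ℂ,
    (∀ a, ‖c a‖ = 2 * Real.cos NUP1.l) → ∀ g0 : Bool → ℂ → ℂ, (∀ a, Measurable (g0 a)) →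
    (∀ a, ph (4 / 3) (rwq (mu1 k x) a) (g0 a) =
      phO (NUO.Tb (Real.log (k + 1 : ℕ)) + tauL6) (List.ofFn (rwq (mu1 k x) a) ++ [])) →
    ENNReal.ofReal ‖Pf z (mu1 k x) (yq (mu1 k x))‖ *
      ∑ n ∈ Finset.range (2 * (k + 1) + 1), FE6 (ZL6 c g0 k (4 / 3 * (1 - ep)) x z) par6 n
        (n + Fil.xn (k + 1)) (crL e1 J (k + 1)) (crL' e1 J (k + 1)) (fun _ _ _ _ _ => 1) ≤
      ENNReal.ofReal (((k + 1 : ℕ) : ℝ) ^ δ * Real.exp (2 * |z.im|))

/-- the constant of the one body functions -/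
theorem nrm_cn6 (m : ℕ) : ‖cn m‖ = 2 * Real.cos NUP1.l := by
  have hl := NUP1.l_pos
  have h1 : 0 < Real.sin NUP1.l := by
    refine Real.sin_pos_of_pos_of_lt_pi hl ?_
    unfold NUP1.l
    linarith [Real.pi_pos]
  have e : sin (2 * (NUP1.l : ℂ)) / sin NUP1.l = ((2 * Real.cos NUP1.l : ℝ) : ℂ) := by
    rw [Complex.sin_two_mul]
    have : sin (NUP1.l : ℂ) ≠ 0 := by
      rw [← Complex.ofReal_sin]
      exact_mod_cast h1.ne'
    field_simp
    push_cast
    ring
  unfold cn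
  rw [norm_mul, norm_pow, norm_neg, norm_one, one_pow, one_mul, e, Complex.norm_real,
    Real.norm_eq_abs, abs_of_nonneg two_cos_pos.le]

/-- the rows and the cutoff points of the quanta -/
theorem rwL_mu1 {k : ℕ} {x : ℂ} (hx : |x.re| ≤ NUP1.l / 2) (hx' : |x.im| ≤ 2) (a : Bool) :
    PBO.PLX.RwL (Fil.q + 2) 2 (Fil.n a * k) (List.ofFn (rwq (mu1 k x) a) ++ [I, -I])
      (List.replicate (Fil.n a) x ++ [I, -I]) := by
  have hl := NUP1.l_pos
  refine ⟨?_, ?_, ?_, ?_⟩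
  · have h1 : (List.ofFn (rwq (mu1 k x) a)).Perm
        (List.replicate (Fil.n a) x ++ List.replicate (Fil.n a * k) 0) :=
      Pool.Agent.PLX.ofFn_rwq_cons k x 0 a
    have h2 := (h1.trans List.perm_append_comm).append_right [I, -I]
    rwa [List.append_assoc] at h2
  · rw [List.length_append, List.length_replicate]
    have := Fil.n_le a
    simp
    omega
  · intro y hy
    rcases List.mem_append.1 hy with h | h
    · rw [List.eq_of_mem_replicate h]
      exact hx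
    · rw [List.mem_cons, List.mem_singleton] at h
      rcases h with rfl | rfl
      · rw [Complex.I_re, abs_zero]
        positivity
      · rw [Complex.neg_re, Complex.I_re, neg_zero, abs_zero]
        positivity
  · intro y hy
    rcases List.mem_append.1 hy with h | h
    · rw [List.eq_of_mem_replicate h]
      exact hx'
    · rw [List.mem_cons, List.mem_singleton] at h
      rcases h with rfl | rfl
      · rw [Complex.I_im, abs_one]
        norm_num
      · rw [Complex.neg_im, Complex.I_im, abs_neg, abs_one]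
        norm_num

/-- **the bound for `Re z ≥ -9/10 l`** -/
theorem fx_le_right6 (hFF : FFth) {δ : ℝ} (h : TopM6 δ) : FxLe Fil.q δ := by
  obtain ⟨a0, ha0, H⟩ := h
  have hl := NUMF.l_pos
  have hlN : NUP1.l = NUMF.l := rfl
  -- the parameters
  obtain ⟨J, hJ, hJa⟩ : ∃ J : ℝ, 0 ≤ J ∧ Real.exp (-(2 * Real.pi * J)) ≤ a0 / 3 := by
    have t1 : Tendsto (fun J : ℝ => Real.exp (-(2 * Real.pi * J))) atTop (𝓝 0) :=
      Real.tendsto_exp_neg_atTop_nhds_zero.comp
        (tendsto_id.const_mul_atTop (by positivity))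
    obtain ⟨J, h1, h2⟩ := ((t1.eventually_le_const (by positivity : 0 < a0 / 3)).and
      (eventually_ge_atTop 0)).exists
    exact ⟨J, h2, h1⟩
  obtain ⟨e, he, he1, hea⟩ : ∃ e : ℝ, 0 < e ∧ e ≤ 1 / 100 ∧ 9 * e ≤ a0 := by
    refine ⟨min (1 / 100) (a0 / 9), lt_min (by norm_num) (by positivity), min_le_left _ _, ?_⟩
    have := min_le_right (1 / 100 : ℝ) (a0 / 9)
    linarith
  obtain ⟨m1, H1⟩ := H e e J he he1 he he1 hJ (by linarith)
  obtain ⟨mc, -, Hcur⟩ := PBF.PLX.curZ_crs he he1 hJ he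
  obtain ⟨m2, hm2⟩ := exists_nat_ge (2 ^ 14 * Real.exp (8 / 3 * 2) * ((Fil.q + 2 : ℕ) : ℝ))
  refine ⟨max m1 (max mc (max m2 1)), fun k hk x z hx hx' z1 z2 z3 => ?_⟩
  have k1 : m1 ≤ k := (le_max_left _ _).trans hk
  have k2 : mc ≤ k + 1 :=
    (((le_max_left _ _).trans (le_max_right _ _)).trans hk).trans (Nat.le_succ k)
  have k3 : m2 ≤ k :=
    (((le_max_left _ _).trans (le_max_right _ _)).trans (le_max_right _ _)).trans hk
  have k4 : 1 ≤ k :=
    (((le_max_right _ _).trans (le_max_right _ _)).trans (le_max_right _ _)).trans hk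
  have hxl : |x.re| ≤ NUP1.l / 2 := by rw [hlN]; linarith
  have hr := PBT.PLX.rws_mu1 k hxl
  have hR : ∀ a, PBX.Rws (rwq (mu1 k x) a) := fun a => Pool.Agent.PLX.Rws_rwq hr a
  -- the cutoff of the strings
  obtain ⟨g0, hg0⟩ : ∃ g0 : Bool → ℂ → ℂ, g0 = fun a =>
      gO (NUO.Tb (Real.log (k + 1 : ℕ)) + tauL6) [] (rwq (mu1 k x) a) := ⟨_, rfl⟩
  have hG : ∀ a, Pool.Agent.PLX.GF6 (rwq (mu1 k x) a) (g0 a) := fun a => by
    rw [hg0]
    exact Pool.Agent.PLX.gF6_gO _ (hR a) (by simp)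
  have hφ : Pool.Agent.PLX.PhI6 (N := fun a => cond a (k + 1) (Fil.q * (k + 1)))
      (4 / 3 * (1 - e)) (rwq (mu1 k x)) (fun _ => [I, -I]) := by
    refine Pool.Agent.PLX.phI6_low (m := k) (n0 := Fil.q + 2) (h0 := 2) (by linarith) (by linarith)
      (by norm_num) (K := fun a => Fil.n a * k) (E := fun a => List.replicate (Fil.n a) x ++ [I, -I])
      (fun a => rwL_mu1 hxl hx' a) (fun a => ?_) k4 ?_
    · have h1 : k ≤ Fil.n a * k := Nat.le_mul_of_pos_left k (Fil.n_pos a)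
      exact h1.trans (Nat.le_add_right _ _)
    · refine hm2.trans ?_
      exact_mod_cast k3
  have hN : ((Fil.xn (k + 1) : ℕ) : ℤ) + ((cond true (k + 1) (Fil.q * (k + 1)) : ℕ) : ℤ) =
      ((0 : ℕ) : ℤ) + ((cond false (k + 1) (Fil.q * (k + 1)) : ℕ) : ℤ) := by
    have h1 := Fil.add_xn (k + 1)
    simp only [cond_true, cond_false]
    push_cast at h1 ⊢
    have h2 : ((k + 1 + Fil.xn (k + 1) : ℕ) : ℤ) = ((Fil.q * (k + 1) : ℕ) : ℤ) := by exact_mod_cast h1
    push_cast at h2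
    linarith
  have key := Pool.Agent.PLX.nzU_KRep6 (N := fun a => cond a (k + 1) (Fil.q * (k + 1)))
    (ro := rwq (mu1 k x)) (ex := fun _ => [I, -I]) (g0 := g0) (β := 4 / 3 * (1 - e)) (ep := e)
    (aX := 0) (aY := Fil.xn (k + 1)) (η := fun _ => crL e J (k + 1)) (η' := fun _ => crL' e J (k + 1))
    hFF par6_good Pool.Agent.PLX.hI6_par6 he he1 (by linarith) (by linarith) hR
    (fun _ w hw => by
      rw [List.mem_cons, List.mem_singleton] at hw
      rcases hw with rfl | rfl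
      · rw [Complex.I_re, abs_zero, hlN]
        positivity
      · rw [Complex.neg_re, Complex.I_re, neg_zero, abs_zero, hlN]
        positivity) hG hφ (z := z) (by rw [hlN]; exact z1) (by rw [hlN]; exact z2.le) hN (Or.inl rfl)
    (fun n _ r _ => Filter.Eventually.of_forall fun O => Hcur (k + 1) k2 r O)
  have h1 := H1 k k1 x z hx hx' z1 z2 z3 (fun a => cn (cond a (k + 1) (Fil.q * (k + 1))))
    (fun a => ?_) g0 (fun a => (hG a).gn.meas) (fun a => by rw [hg0]; exact ph_gO_fun _ _ _)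
  · have e1 : fxQ Fil.q k x z = Pool.Agent.PLX.nzU z (mu1 k x) (yq (mu1 k x)) :=
      Pool.Agent.PLX.fQ_right (q := Fil.q) (mu := xr k x)
        (Pool.Agent.PB.Rwo.cons (by rw [hlN]; linarith) (Pool.Agent.PB.Rwo_zero k))
        ⟨by rw [hlN]; linarith, by rw [hlN]; linarith⟩
    rw [← ENNReal.ofReal_le_ofReal_iff (by positivity), e1, ofReal_norm]
    refine (key.trans (le_of_eq ?_)).trans h1
    rw [ofReal_norm]
    simp only [FA_eq_FE6, enorm_one, Nat.add_zero]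
    rfl
  · exact nrm_cn6 _

/-- **the sharp bound** -/
theorem u1P_of6 (hFF : FFth) (h : ∀ δ : ℝ, 0 < δ → TopM6 δ) : Pool.Agent.PLX.U1Q Fil.q :=
  Pool.Agent.PLX.u1Q_of fun δ hδ => fx_le_right6 hFF (h δ hδ)

/-- **the crude bound** -/
theorem u0P_of6 (hFF : FFth) (h : ∀ δ : ℝ, 0 < δ → TopM6 δ) : Pool.Agent.PLX.U0Q Fil.q 1 :=
  Pool.Agent.PLX.u0Q_of fun δ hδ => fx_le_right6 hFF (h δ hδ)

end PBV.PLX

end
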