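import Pool.Agent.PHK.TopD6
import Pool.Agent.PHK.U1Of6

/-!
# (P): plug of the bounds (the file `PB/CloseF` of helper12 for the six kinds)

`topM6 : TopM6 δ` for every `δ > 0` (helper72's `topD6_mass` + the certificate `StabE`), **`u0P6 : U0Q Fil.q 1`**,
**`u1P6 : U1Q Fil.q`** (helper50's `u0P_of6`, `u1P_of6`) from the class formula `FFth`; `fx_le6`.
-/

set_option autoImplicit false

noncomputable section

open Complex

namespace PBC.PLX

open _root_.PLX (Fil)
open PHK (StabE par6 enC6)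
open Pool.Agent.PLX (FFth FxLe)

variable [Fil]

/-- the mass of the functional, every exponent -/
theorem topM6 (hS : StabE par6 fun _ O => enC6 par6 O) {δ : ℝ} (hδ : 0 < δ) : PBV.PLX.TopM6 δ := by
  letI := _root_.PLX.ends0
  obtain ⟨a0, ha0, H⟩ := PBT.PLX.topD6_mass rfl hS (le_refl PHK.tauL6) hδ
  refine ⟨a0, ha0, fun ep e1 J h1 h2 h3 h4 h5 h6 => ?_⟩
  obtain ⟨m0, H⟩ := H ep h1 h2 e1 h3 h4 J h5 h6
  exact ⟨m0, fun k hk x z a b c d e f hf g0 hg hp => H k hk (k + 1) rfl x z a b c d e f hf g0 hg hp⟩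

/-- the bound of the function with one moved row -/
theorem fx_le6 (hFF : FFth) (hS : StabE par6 fun _ O => enC6 par6 O) {δ : ℝ} (hδ : 0 < δ) :
    FxLe Fil.q δ := PBV.PLX.fx_le_right6 hFF (topM6 hS hδ)

/-- **(U0)** -/
theorem u0P6 (hFF : FFth) (hS : StabE par6 fun _ O => enC6 par6 O) :
    Pool.Agent.PLX.U0Q Fil.q 1 := PBV.PLX.u0P_of6 hFF fun _ h => topM6 hS h

/-- **(U1)** -/
theorem u1P6 (hFF : FFth) (hS : StabE par6 fun _ O => enC6 par6 O) :
    Pool.Agent.PLX.U1Q Fil.q := PBV.PLX.u1P_of6 hFF fun _ h => topM6 hS h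

end PBC.PLX

end
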