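import Pool.Agent.PHK.Ch6
import Pool.Agent.PLX.PB.QC20

/-!
# (P): own factors, direct factors and weights of the letters

Letters: a type `t` with a choice `u : Ch6` (`u.1`: own quantum at the half quantum, `u.2`: hole of the
other species at `hx6 t w`).

* `hx6 t w`: the place of the hole, `w + 3 l` (`P`), `w` (`H`); `cHo`: bound of the scalar weight of a hole;
* `own6 K a t u w`: own factor; `hF6 t' u' x`: modulus of the spectators of the letter `(t', u')` on a
  quantum of its own species at distance `x`; `gO6`: direct factor of two letters;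
* `cw6 K t t' w w' u`: the weight of a choice; `cw6_ok`, `cw6_nonneg`; **`pre_wt6`**.
-/

set_option autoImplicit false
set_option linter.unusedSectionVars false

noncomputable section

open Complex

namespace PHK

open NUP1 NUP1S NURow NUP1.Leg NUP1.Bd NUGC.PLX PBR.PLX
open PBQ.PLX (KD)

/-- the place of the hole of the other species -/
def hx6 (t : HT) (w : ℂ) : ℂ := if t = .P then w + 3 * l else w

/-- bound of the scalar weight of a hole at a zero of a class -/
def cHo : ℝ := 8 / Real.sin (2 * l)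

theorem cHo_pos : 0 < cHo := by
  have h2 : 0 < Real.sin (2 * l) := by simpa using sinl_pos 2 (by norm_num) (by norm_num)
  unfold cHo
  positivity

/-- own factor of the hole of the letter of species `a`; the factor `3` of the type `H` is for the hole
of species `a` at the half quantum filled by the own quantum (it gives back the letter without both) -/
def ownH6 (K : KD) (a : Bool) (t : HT) (u : Ch6) (w : ℂ) : ℝ :=
  (if t = .H then 3 else 1) * (if u.2 = true then cHo * ‖K.Z (!a) none (hx6 t w)‖⁻¹ else 1)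

/-- **own factor of a letter** of species `a` -/
def own6 (K : KD) (a : Bool) (t : HT) (u : Ch6) (w : ℂ) : ℝ := K.own a t u.1 w * ownH6 K a t u w

/-- modulus of the spectators of a letter (its hole not counted) on a quantum of its own species -/
def hF6 (t : HT) (u : Ch6) (x : ℂ) : ℝ := ‖vF6 t (u.1, false) true none x‖

/-- direct factor of the holes -/
def gH6' (t t' : HT) (u u' : Ch6) (w w' : ℂ) : ℝ :=
  (if u.2 = true then (hF6 t' u' (w' - hx6 t w))⁻¹ else 1) *
    (if u'.2 = true then (hF6 t u (w - hx6 t' w'))⁻¹ else 1) *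
    (if (u.2 && u'.2) = true then ‖Bd.qg (hx6 t w - hx6 t' w')‖ else 1)

/-- **direct factor of two letters** -/
def gO6 (t t' : HT) (u u' : Ch6) (w w' : ℂ) : ℝ :=
  NUGC.PLX.gO 0 0 t t' u.1 u'.1 w w' * gH6' t t' u u' w w'

/-- **the weight of a choice** -/
def cw6 (K : KD) (t t' : HT) (w w' : ℂ) (u : Ch6 × Ch6) : ℝ :=
  if okC6 t u.1 ∧ okC6 t' u.2 then
    K.wt t t' w w' u.1.1 u.2.1 * (ownH6 K true t u.1 w * ownH6 K false t' u.2 w') *
      gH6' t t' u.1 u.2 w w' else 0

theorem ownH6_nonneg (K : KD) (a : Bool) (t : HT) (u : Ch6) (w : ℂ) : 0 ≤ ownH6 K a t u w := by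
  have := cHo_pos
  unfold ownH6
  split_ifs <;> positivity

theorem own6_nonneg (K : KD) (a : Bool) (t : HT) (u : Ch6) (w : ℂ) : 0 ≤ own6 K a t u w :=
  mul_nonneg (K.own_nonneg a t u.1 w) (ownH6_nonneg K a t u w)

theorem hF6_nonneg (t : HT) (u : Ch6) (x : ℂ) : 0 ≤ hF6 t u x := norm_nonneg _

theorem gH6'_nonneg (t t' : HT) (u u' : Ch6) (w w' : ℂ) : 0 ≤ gH6' t t' u u' w w' := by
  have h1 := hF6_nonneg t' u' (w' - hx6 t w)
  have h2 := hF6_nonneg t u (w - hx6 t' w')
  unfold gH6'
  split_ifs <;> positivity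

theorem gO6_nonneg (t t' : HT) (u u' : Ch6) (w w' : ℂ) : 0 ≤ gO6 t t' u u' w w' :=
  mul_nonneg (NUGC.PLX.gO_nonneg _ _ _ _ _ _ _ _) (gH6'_nonneg _ _ _ _ _ _)

theorem okC6_fst {t : HT} {u : Ch6} (h : okC6 t u) : u.1 = true → htP t = true := by
  intro h1
  rw [h.1 h1]
  rfl

theorem cw6_ok (K : KD) {t t' : HT} {w w' : ℂ} {u : Ch6 × Ch6} (h : cw6 K t t' w w' u ≠ 0) :
    okC6 t u.1 ∧ okC6 t' u.2 := by
  by_contra hc
  exact h (if_neg hc)

private theorem wt_nonneg (K : KD) (t t' : HT) (w w' : ℂ) (i i' : Bool) : 0 ≤ K.wt t t' w w' i i' := by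
  unfold KD.wt wgt2
  split_ifs <;> positivity

theorem cw6_nonneg (K : KD) (t t' : HT) (w w' : ℂ) (u : Ch6 × Ch6) : 0 ≤ cw6 K t t' w w' u := by
  unfold cw6
  split_ifs
  · exact mul_nonneg (mul_nonneg (wt_nonneg _ _ _ _ _ _ _)
      (mul_nonneg (ownH6_nonneg _ _ _ _ _) (ownH6_nonneg _ _ _ _ _))) (gH6'_nonneg _ _ _ _ _ _)
  · exact le_rfl

/-- **prefactor times weight of a choice** -/
theorem pre_wt6 (K : KD) {t t' : HT} {u : Ch6 × Ch6} (h : okC6 t u.1) (h' : okC6 t' u.2) (w w' : ℂ) :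
    ‖(K.cl t t').pre w w'‖ * cw6 K t t' w w' u =
      own6 K true t u.1 w * own6 K false t' u.2 w' * gO6 t t' u.1 u.2 w w' := by
  have e := K.pre_wt (okC6_fst h) (okC6_fst h') w w'
  unfold cw6 own6 gO6
  rw [if_pos ⟨h, h'⟩, ← mul_assoc, ← mul_assoc, e]
  ring

end PHK

end
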