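import Pool.Agent.PHK.LgT
import Pool.Agent.PHK.LetW
import Pool.Agent.PHK.Cls6
import Pool.Agent.PHD.Hol

/-!
# The zeros and the pole of the letters of (P): data

`x = w - z`: `w` = half quantum, `z` = quantum.  `c = true`: the quantum is of the own species of the
letter.  `i = true` (type `H` only): an own quantum at the half quantum.
* `hz6`, `zz6`, `x06`: the letter has a zero, its place;
* **`eL t i c`**: the regular inverse, `vF6 t (i, false) c none x * eL t i c x = 1` or `-(x - x06 t c)`;
* `pL`: the regular part of the own pole of `H`, `rL`: the derivative at the zero;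
* `av6`, `ze6`, `nu6`, `rh6`, `Ei6`, `po6`, `hp6`: zeros, residues, inverse, poles of the class `t, t'`;
* `cV6`, `psV6`: scalar weight and insertion of a choice, **`TV6`**: the term of the class by choices.
-/

set_option autoImplicit false
set_option linter.unusedSectionVars false
set_option linter.unusedVariables false

noncomputable section

open Complex MeasureTheory Finset
open scoped ENNReal

open PLX (Fil)

namespace PHK

open NUO NUP1 NUP1S NUP1S.Mg NURow NUCR NUP1.Leg NUGC.PLX PBR.PLX
open NUP1.Bd (wt qg Ob)

/-! ### one letter -/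

/-- the letter has a zero on the quanta of the other species -/
def hz6 (t : HT) : Bool := decide (t = .P ∨ t = .H)

/-- the letter `t` with fill `i` has a zero on the quanta of its own (`c = true`) / the other species -/
def zz6 (t : HT) (i c : Bool) : Bool := if c = true then i else hz6 t

/-- place of the zero, `x = w - z` -/
def x06 (t : HT) (c : Bool) : ℂ := if c = true then 0 else if t = .P then -(3 * l) else 0

/-- **the regular inverse of the function of a letter on the quanta** -/
def eL : HT → Bool → Bool → ℂ → ℂ
  | .W, _, true => fun x => sin (x + l) / (sin x * sin (x + 2 * l))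
  | .F, _, true => fun x => sin (x + l) / (sin x * sin (x + 2 * l))
  | .P, _, true => fun x => sin (x + l) * sin x * sin (x + 6 * l) ^ 2 /
      (sin (x + 2 * l) * cos (x + 3 * l) ^ 2)
  | .H, false, true => fun x => sin (x + l) * sin x * sin (x - 5 * l) ^ 2 / sin (x + 2 * l)
  | .H, true, true => fun x => sin (x + l) ^ 2 * sin (x - l) * sin (x - 5 * l) ^ 2 /
      (Pool.Agent.PHD.sc x * sin (x + 2 * l) ^ 2 * sin (x - 2 * l))
  | .W, _, false => fun x => sin (3 * l - x) * sin (3 * l + x) / cos x
  | .F, _, false => fun x => sin (3 * l - x) * sin (3 * l + x) / cos x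
  | .P, _, false => fun x => sin (x + 2 * l) / (Pool.Agent.PHD.sc (x + 3 * l) * sin (x + l))
  | .H, false, false => fun x => -(1 / (Pool.Agent.PHD.sc x * cos x * sin (x - 2 * l)))
  | .H, true, false => fun x => -(sin (x + 3 * l) ^ 2 * sin (x - 3 * l) ^ 2 /
      (Pool.Agent.PHD.sc x * cos x ^ 3 * sin (x - 2 * l)))

/-- derivative at the zero (with the sign: function = `-(x - x06) * rL` near the zero) -/
def rL (t : HT) (i c : Bool) : ℂ := (eL t i c (x06 t c))⁻¹

/-- the regular part of the own function of `H`: `vF6 .H (false, false) true none x = pL x / sin x` -/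
def pL (x : ℂ) : ℂ := sin (x + 2 * l) / (sin (x + l) * sin (x - 5 * l) ^ 2)

/-! ### the class `t, t'` -/

/-- poles: own species of the letters `H` -/
def av6 (t t' : HT) (s : Bool) : Bool := if s = true then decide (t = .H) else decide (t' = .H)

/-- active zeros of species `s`: `false` = zero of the letter of the other species, `true` = filled
own quantum -/
def ac6 (t t' : HT) (i : Bool × Bool) (s j : Bool) : Bool :=
  if j = true then (if s = true then i.1 else i.2) else (if s = true then hz6 t' else hz6 t)

/-- index types of the zeros -/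
abbrev nu6 (t t' : HT) (i : Bool × Bool) (s : Bool) : Type := {j : Bool // ac6 t t' i s j = true}

/-- places of the zeros -/
def zB6 (t t' : HT) (w w' : ℂ) (s j : Bool) : ℂ :=
  if j = true then (if s = true then w else w') else (if s = true then hx6 t' w' else hx6 t w)

/-- places of the zeros -/
def ze6 (t t' : HT) (w w' : ℂ) (i : Bool × Bool) (s : Bool) (j : nu6 t t' i s) : ℂ :=
  zB6 t t' w w' s j.1

/-- `lim Z s none z / (z - ζ)` at the zeros, `X` = base -/
def rB6 (X : Bool → Option O3 → ℂ → ℂ) (t t' : HT) (w w' : ℂ) (i : Bool × Bool) (s j : Bool) : ℂ :=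
  X s none (zB6 t t' w w' s j) *
    (if j = true then
      (if s = true then rL t i.1 true * vF6 t' (i.2, false) false none (w' - w)
        else rL t' i.2 true * vF6 t (i.1, false) false none (w - w'))
    else
      (if s = true then rL t' i.2 false * vF6 t (i.1, false) true none (w - hx6 t' w')
        else rL t i.1 false * vF6 t' (i.2, false) true none (w' - hx6 t w)))

/-- `lim Z s none z / (z - ζ)` at the zeros -/
def rh6 (X : Bool → Option O3 → ℂ → ℂ) (t t' : HT) (w w' : ℂ) (i : Bool × Bool) (s : Bool)
    (j : nu6 t t' i s) : ℂ := rB6 X t t' w w' i s j.1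

/-- the regular inverse of the class function -/
def Ei6 (X : Bool → Option O3 → ℂ → ℂ) (t t' : HT) (w w' : ℂ) (i : Bool × Bool) (s : Bool)
    (u : ℂ) : ℂ :=
  (X s none u)⁻¹ * (eL t i.1 s (w - u) * eL t' i.2 (!s) (w' - u))

/-- the poles: the half quanta of type `H`; a point of the same height on `Re = 5/8 l` for the other
types -/
def po6 (t t' : HT) (w w' : ℂ) (s : Bool) : ℂ :=
  if s = true then (if t = .H then w else vl (5 / 8 * l) w.im)
  else (if t' = .H then w' else vl (5 / 8 * l) w'.im)

/-- class function without choices -/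
def Zc6 (X : Bool → Option O3 → ℂ → ℂ) (t t' : HT) (w w' : ℂ) : Bool → Option O3 → ℂ → ℂ :=
  YV6 X t t' w w' ((false, false), (false, false))

/-- the regular part at the pole: `Z s none u = h s u / sin (u - π s)` -/
def hp6 (X : Bool → Option O3 → ℂ → ℂ) (t t' : HT) (w w' : ℂ) (s : Bool) (u : ℂ) : ℂ :=
  if s = true then
    (if t = .H then -(X true none u * pL (w - u) * vF6 t' (false, false) false none (w' - u))
      else Zc6 X t t' w w' true none u * sin (u - po6 t t' w w' true))
  else
    (if t' = .H then -(X false none u * pL (w' - u) * vF6 t (false, false) false none (w - u))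
      else Zc6 X t t' w w' false none u * sin (u - po6 t t' w w' false))

/-- **the scalar weight of a choice** -/
def cV6 (X : Bool → Option O3 → ℂ → ℂ) (t t' : HT) (w w' : ℂ) (u : Ch6 × Ch6) : ℂ :=
  (if u.1.1 = true then X true none w * pL 0 * vF6 t' (false, false) false none (w' - w) else 1) *
    (if u.2.1 = true then X false none w' * pL 0 * vF6 t (false, false) false none (w - w') else 1) *
    (if u.1.1 = true ∧ u.2.1 = true then qg (w - w') else 1) *
    ((if u.1.2 = true then -kp / rB6 X t t' w w' (u.1.1, u.2.1) false false else 1) *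
      (if u.2.2 = true then -kp / rB6 X t t' w w' (u.1.1, u.2.1) true false else 1) *
      (if u.1.2 = true ∧ u.2.2 = true then qg (hx6 t' w' - hx6 t w) else 1))

/-- one factor of the insertion: `g` = localiser at the half quantum (type `H`, own quantum not
there), `m` = number of the other holes of the species -/
def ps1 (P : Par6) {ι : Type*} [Fintype ι] (O : ι → Xo) (s : Bool) (H : Bool) (m : ℕ) (w : ℂ) : ℂ :=
  (if (∑ i, hl6 s (O i)) + m ≤ ∑ i, sat6 s (O i) then 1 else 0) -
    (if H = true ∧ (∑ i, hl6 s (O i)) + m + 1 ≤ ∑ i, sat6 s (O i) then gHI P O s w else 0)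

/-- **the insertion of a choice** -/
def psV6 (P : Par6) (t t' : HT) (w w' : ℂ) (u : Ch6 × Ch6) {ι : Type*} [Fintype ι] (O : ι → Xo) : ℂ :=
  ps1 P O true (decide (t = .H) && !u.1.1) u.2.2.toNat w *
    ps1 P O false (decide (t' = .H) && !u.2.1) u.1.2.toNat w' *
    ((if u.1.2 = true then gHI P O false (hx6 t w) else 1) *
      (if u.2.2 = true then gHI P O true (hx6 t' w') else 1))

/-- **the term of the class `t, t'` by choices**, `n`, `n'` quanta -/
def TV6 (X : Bool → Option O3 → ℂ → ℂ) (P : Par6) (t t' : HT) (w w' : ℂ) (n n' : ℕ) : Trm :=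
  fun _ _ O => ∑ u : Ch6 × Ch6, if (okC6 t u.1 ∧ okC6 t' u.2) ∧ u.1.1.toNat ≤ n ∧ u.2.1.toNat ≤ n' then
    cV6 X t t' w w' u * (fI (YV6 X t t' w w' u) P l (n + u.2.2.toNat - u.1.1.toNat)
      (n' + u.1.2.toNat - u.2.1.toNat) O * psV6 P t t' w w' u O) else 0

end PHK

end
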