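import Pool.Agent.PHK.LgDec
import Pool.Agent.PHK.LgDef

/-!
# (P): the base of the classes of two letters, decay of the class functions on the lines and strips

* **`LgB X κ e`**: the base (measurable, decay, inverses, analytic on `51/100 l ≤ Re ≤ l`), charge `-e`;
* `decA_two`, `dec_line_two`: a class function of two spectators over a compact set of real parts;
* **`decZ6_Zc6`**, `diff_Zc6` (t, t' ≠ H): `DecZ6 (Zc6 X t t' w w') par6 (51/100 l) κ Q`;
* **`decA_Zc6`**, **`decL_Zc6`**, **`decT_Zc6`**, **`decS_Zc6`**: the four conditions of `WordThP`, any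
  types;
* **`decL6_Lg`**: `DecQL6 (YV6 X t t' w w' u) par6 κ κ ..`.
-/

set_option autoImplicit false
set_option linter.unusedSectionVars false

noncomputable section

open Complex MeasureTheory Finset
open scoped ENNReal

open PLX (Fil)

namespace PHK

open NUO NUP1 NUP1S NUP1S.Mg NURow NUCR NUP1.Leg NUGC.PLX PBR.PLX
open NUP1.Bd (wt qg Ob)
open Pool.Agent.PLX (InvZ6)

/-- **the base of the classes** of two letters, charge `-e` -/
structure LgB (X : Bool → Option O3 → ℂ → ℂ) (κ : ℝ) (e : ℕ) : Prop where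
  ms : ∀ s k, Measurable (X s k)
  k0 : 0 < κ
  k1 : κ ≤ 8 / 3
  dec : Pool.Agent.PLX.DecZ6 X par6 (51 / 100 * l) κ (-(e : ℝ))
  inv : InvZ6 X κ (-(e : ℝ))
  an : ∀ s (u : ℂ), 51 / 100 * l ≤ u.re → u.re ≤ l → DifferentiableAt ℂ (X s none) u

/-! ### two spectators over a compact set of real parts -/

/-- decay of a class function of two spectators -/
theorem dec_two {X : Bool → Option O3 → ℂ → ℂ} {F F' : Bool → Option O3 → ℂ → ℂ} {q q' r r' : ℝ}
    (h : ∀ c k, UI6 (q * sc (c, ob4 k)) (F c k)) (h' : ∀ c k, UI6 (q' * sc (c, ob4 k)) (F' c k))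
    {w w' : ℂ} {K : Set ℝ} (hK : IsCompact K) (hn : ∀ x ∈ K, NM6 (w.re - x))
    (hn' : ∀ x ∈ K, NM6 (w'.re - x)) {s : Bool} {k : Option O3} (hX : DecOn r K (X s k))
    (e : r' ≤ r - (q - q') * sc (s, ob4 k)) :
    DecOn r' K (XS s (X s) F (fl F') w w' k) :=
  DecOn.mulB hX (pi_two6 h h' hK hn hn' s k).a.1 e

/-- differentiability of a class function of two spectators -/
theorem diff_two {X : Bool → Option O3 → ℂ → ℂ} {F F' : Bool → Option O3 → ℂ → ℂ} {q q' : ℝ}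
    (h : ∀ c k, UI6 (q * sc (c, ob4 k)) (F c k)) (h' : ∀ c k, UI6 (q' * sc (c, ob4 k)) (F' c k))
    {w w' u : ℂ} (hn : NM6 (w.re - u.re)) (hn' : NM6 (w'.re - u.re)) {s : Bool} {k : Option O3}
    (hX : DifferentiableAt ℂ (X s k) u) :
    DifferentiableAt ℂ (XS s (X s) F (fl F') w w' k) u :=
  hX.mul ((pi_two6 h h' (K := {u.re}) isCompact_singleton
    (fun x hx => by rw [Set.mem_singleton_iff.1 hx]; exact hn)
    (fun x hx => by rw [Set.mem_singleton_iff.1 hx]; exact hn') s k).a.2 u rfl)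

/-! ### positions -/

/-- the letters W, F, P have no zero and no pole for `51/100 l ≤ Re ≤ l` -/
theorem nm6_strip {t : HT} (ht : t ≠ .H) {x : ℝ} (h1 : 51 / 100 * l ≤ x) (h2 : x ≤ l) :
    NM6 (htL t - x) := by
  have hl := l_pos
  cases t
  · refine nm6_of 0 ?_ ?_ <;> simp only [htL] <;> push_cast <;> linarith
  · refine nm6_of (-4) ?_ ?_ <;> simp only [htL] <;> push_cast <;> linarith
  · refine nm6_of (-4) ?_ ?_ <;> simp only [htL] <;> push_cast <;> linarith
  · exact absurd rfl ht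

/-- the strip without the pole of the letter H -/
def stH6 : Set ℝ := Set.Icc (51 / 100 * l) (39 / 64 * l) ∪ Set.Icc (41 / 64 * l) l

theorem stH6_compact : IsCompact stH6 := isCompact_Icc.union isCompact_Icc

theorem stH6_sub : stH6 ⊆ Set.Icc (51 / 100 * l) l := by
  have hl := l_pos
  rintro x (hx | hx)
  · exact ⟨hx.1, by linarith [hx.2]⟩
  · exact ⟨by linarith [hx.1], hx.2⟩

theorem nm6_stH (t : HT) {x : ℝ} (hx : x ∈ stH6) : NM6 (htL t - x) := by
  have hl := l_pos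
  by_cases ht : t = .H
  · subst ht
    rcases hx with hx | hx
    · refine nm6_of 0 ?_ ?_ <;> simp only [htL] <;> push_cast <;> linarith [hx.1, hx.2]
    · refine nm6_of (-1) ?_ ?_ <;> simp only [htL] <;> push_cast <;> linarith [hx.1, hx.2]
  · exact nm6_strip ht (stH6_sub hx).1 (stH6_sub hx).2

section cls

variable {X : Bool → Option O3 → ℂ → ℂ} {κ : ℝ} {e : ℕ} {t t' : HT} {w w' : ℂ}

/-- the trivial choice -/
theorem okC6_ff (t : HT) : okC6 t (false, false) := ⟨by simp, by simp⟩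

theorem ui_v0 (t : HT) (c : Bool) (k : Option O3) :
    UI6 (htQ t * sc (c, ob4 k)) (vF6 t (false, false) c k) :=
  (ui_v (okC6_ff t) c k).rate (by simp [vQ6])

/-- the charge of the class -/
theorem htQ_charge (e : ℕ) (t t' : HT) :
    -(e : ℝ) + (htQ t' - htQ t) / 2 = (((aXt e t t' : ℤ) - aYt e t t' : ℤ) : ℝ) := by
  have h1 := aXt_q e t t'
  rw [htQ_eq, htQ_eq]
  push_cast
  linarith

theorem rate_charge (e : ℕ) (t t' : HT) (c : ℝ) :
    κ + 2 * (((aXt e t t' : ℤ) - aYt e t t' : ℤ) : ℝ) * c =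
      κ + 2 * (-(e : ℝ)) * c - (htQ t - htQ t') * c := by
  rw [← htQ_charge]
  ring

/-- **differentiability of the class function of the quanta**, `t, t' ≠ H` -/
theorem diff_Zc6 (hB : LgB X κ e) (ht : t ≠ .H) (ht' : t' ≠ .H) (hw : w.re = htL t)
    (hw' : w'.re = htL t') (s : Bool) (u : ℂ) (h1 : 51 / 100 * l ≤ u.re) (h2 : u.re ≤ l) :
    DifferentiableAt ℂ (Zc6 X t t' w w' s none) u :=
  diff_two (ui_v0 t) (ui_v0 t') (hw ▸ nm6_strip ht h1 h2) (hw' ▸ nm6_strip ht' h1 h2)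
    (hB.an s u h1 h2)

/-- **`L`**, any types -/
theorem decL_Zc6 (hB : LgB X κ e) (hw : w.re = htL t) (hw' : w'.re = htL t') (s : Bool) :
    DecOn (κ + 2 * (((aXt e t t' : ℤ) - aYt e t t' : ℤ) : ℝ) * sc (s, Ob.L)) {(1 - par6.jL) * l}
      (Zc6 X t t' w w' s (some .L)) := by
  have hx : ∀ x ∈ ({(1 - par6.jL) * l} : Set ℝ), x ∈ ln6S := by
    intro x hx
    rw [Set.mem_singleton_iff.1 hx]
    right; right; left
    show (1 - 129 / 64) * l = -(65 / 64 * l)
    ring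
  exact dec_two (ui_v0 t) (ui_v0 t') isCompact_singleton
    (fun x h => hw ▸ nm6_ln (htL_ps6 t) (hx x h)) (fun x h => hw' ▸ nm6_ln (htL_ps6 t') (hx x h))
    (hB.dec.L s) (le_of_eq (rate_charge e t t' _))

/-- **`T`**, any types -/
theorem decT_Zc6 (hB : LgB X κ e) (hw : w.re = htL t) (hw' : w'.re = htL t') (s : Bool) :
    DecOn (κ + 2 * (((aXt e t t' : ℤ) - aYt e t t' : ℤ) : ℝ) * sc (s, Ob.S)) {-(l / 2)}
      (Zc6 X t t' w w' s (some .T)) := by
  have hx : ∀ x ∈ ({-(l / 2)} : Set ℝ), x ∈ ln6S := by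
    intro x hx
    rw [Set.mem_singleton_iff.1 hx]
    right; right; right; left
    rfl
  exact dec_two (ui_v0 t) (ui_v0 t') isCompact_singleton
    (fun x h => hw ▸ nm6_ln (htL_ps6 t) (hx x h)) (fun x h => hw' ▸ nm6_ln (htL_ps6 t') (hx x h))
    (hB.dec.T s) (le_of_eq (rate_charge e t t' _))

/-- **the strings**, any types -/
theorem decS_Zc6 (hB : LgB X κ e) (hw : w.re = htL t) (hw' : w'.re = htL t') (s : Bool) (M : ℕ) :
    DecOn (M : ℝ) {-((1 + par6.e) * l)} (Zc6 X t t' w w' s (some .S)) := by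
  have hx : ∀ x ∈ ({-((1 + par6.e) * l)} : Set ℝ), x ∈ ln6S := by
    intro x hx
    rw [Set.mem_singleton_iff.1 hx]
    right; right; right; right; left
    show -((1 + 7 / 16) * l) = -(23 / 16 * l)
    ring
  obtain ⟨M', hM'⟩ := exists_nat_ge ((M : ℝ) + (htQ t - htQ t') * sc (s, Ob.S))
  exact dec_two (ui_v0 t) (ui_v0 t') isCompact_singleton
    (fun x h => hw ▸ nm6_ln (htL_ps6 t) (hx x h)) (fun x h => hw' ▸ nm6_ln (htL_ps6 t') (hx x h))
    (hB.dec.S s M') (by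
      show (M : ℝ) ≤ M' - (htQ t - htQ t') * sc (s, Ob.S)
      linarith)

/-- **the quanta** off the pole of the letter H, any types -/
theorem decA_Zc6 (hB : LgB X κ e) (hw : w.re = htL t) (hw' : w'.re = htL t') (s : Bool) :
    DecOn (κ + 2 * (((aXt e t t' : ℤ) - aYt e t t' : ℤ) : ℝ) * sc (s, Ob.A))
      (Set.Icc (51 / 100 * l) (39 / 64 * l) ∪ Set.Icc (41 / 64 * l) l) (Zc6 X t t' w w' s none) :=
  dec_two (ui_v0 t) (ui_v0 t') stH6_compact
    (fun _ h => hw ▸ nm6_stH t h) (fun _ h => hw' ▸ nm6_stH t' h)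
    (decOn_line (hB.dec.A s) stH6_sub) (le_of_eq (rate_charge e t t' _))

/-- **`DecZ6` of the class**, `t, t' ≠ H` -/
theorem decZ6_Zc6 (hB : LgB X κ e) (ht : t ≠ .H) (ht' : t' ≠ .H) (hw : w.re = htL t)
    (hw' : w'.re = htL t') :
    Pool.Agent.PLX.DecZ6 (Zc6 X t t' w w') par6 (51 / 100 * l) κ
      (((aXt e t t' : ℤ) - aYt e t t' : ℤ) : ℝ) :=
  ⟨fun s => dec_two (ui_v0 t) (ui_v0 t') isCompact_Icc
    (fun _ h => hw ▸ nm6_strip ht h.1 h.2) (fun _ h => hw' ▸ nm6_strip ht' h.1 h.2)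
    (hB.dec.A s) (le_of_eq (rate_charge e t t' _)),
    decL_Zc6 hB hw hw', decT_Zc6 hB hw hw', decS_Zc6 hB hw hw'⟩

/-- the class functions are measurable -/
theorem ms_YV6 (hB : LgB X κ e) {u : Ch6 × Ch6} (h : okC6 t u.1) (h' : okC6 t' u.2) (s : Bool)
    (k : Option O3) : Measurable (YV6 X t t' w w' u s k) :=
  (hB.ms s k).mul ((((lt6_v h).ms s k).comp (measurable_const.sub measurable_id)).mul
    (((lt6_v h').ms (!s) k).comp (measurable_const.sub measurable_id)))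

theorem ms_Zc6 (hB : LgB X κ e) (s : Bool) (k : Option O3) : Measurable (Zc6 X t t' w w' s k) :=
  ms_YV6 hB (okC6_ff t) (okC6_ff t') s k

/-- **`DecQL6` of the class with the choice `u`** -/
theorem decL6_Lg (hB : LgB X κ e) {u : Ch6 × Ch6} (h : okC6 t u.1) (h' : okC6 t' u.2)
    (hw : w.re = htL t) (hw' : w'.re = htL t') : DecQL6 (YV6 X t t' w w' u) par6 κ κ
      ((((aXt e t t' : ℕ) : ℝ) + (u.2.2.toNat : ℝ) - (u.1.1.toNat : ℝ)) -
        (((aYt e t t' : ℕ) : ℝ) + (u.1.2.toNat : ℝ) - (u.2.1.toNat : ℝ))) := by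
  have hl := l_pos
  have key := decL6_YVe (e := e) h h' hw hw' hB.k0 (by linarith [hB.k1]) (by linarith) hB.dec hB.inv
  have e1 : (((aXv e t t' u + u.2.1.toNat : ℕ) : ℝ) - ((aYv e t t' u + u.1.1.toNat : ℕ) : ℝ)) =
      ((((aXt e t t' : ℕ) : ℝ) + (u.2.2.toNat : ℝ) - (u.1.1.toNat : ℝ)) -
        (((aYt e t t' : ℕ) : ℝ) + (u.1.2.toNat : ℝ) - (u.2.1.toNat : ℝ))) := by
    unfold aXv aYv
    push_cast
    ring
  rw [e1] at key
  exact key

end cls

end PHK

end
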