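import Pool.Agent.PHK.ClsD06
import Pool.Agent.PHK.LgDec0

/-!
# (P): the base of the classes of two letters at rows `0`

* `lgB_of`: `LgB` from `Bs6`, decay and inverses; **`lgB06`**, **`bs06`**: the kit `K06`, rows `0`.
-/

set_option autoImplicit false
set_option linter.unusedSectionVars false

noncomputable section

open Complex MeasureTheory Finset
open scoped ENNReal

open PLX (Fil)

namespace PHK

open NUO NUP1 NUP1S NUP1S.Mg NURow NUCR NUP1.Leg NUGC.PLX PBR.PLX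
open Pool.Agent.PLX (InvZ6)

section base

variable {X : Bool → Option O3 → ℂ → ℂ} {ob : (Bool → ℂ → ℝ) → OB} {P : Par6} {x κ : ℝ} {e : ℕ}
  {E0 : Set ℝ}

/-- the base is analytic on the strip of the quanta -/
theorem an_Bs6 (hB : Bs6 X ob P x κ e E0) (hx : 0 < x) (s : Bool) (u : ℂ) (h1 : 51 / 100 * l ≤ u.re)
    (h2 : u.re ≤ l) : DifferentiableAt ℂ (X s none) u := by
  have hl := l_pos
  have h := hB.one (51 / 100 * l) le_rfl (by linarith) 0
    (sG (fun _ _ _ => 1) (fun _ _ _ => 1) 0 0) (s2G (fun _ _ _ => 1) (fun _ _ _ => 1) 0 0)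
    {(0 : ℂ).im, (0 : ℂ).im}
    (measurable_sG (lt6_one 0) (lt6_one 0) 0 0) (measurable_s2G (lt6_one 0) (lt6_one 0) 0 0)
    (fun a => by
      have e : sG (fun _ _ _ => 1) (fun _ _ _ => 1) 0 0 a = fun _ => (1 : ℂ) := by
        funext u
        simp [sG]
      rw [e]
      exact ⟨((PB.oneW (Set.Icc (51 / 100 * l) (21 / 20 * l))).1).rate (by simp),
        fun u _ => differentiableAt_const _⟩) (specS_two6 (lt6_one 0) (lt6_one 0))
    ((Set.toFinite _).measure_zero _)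
  rw [spX_two X (lt6_one 0) (lt6_one 0) 0 0] at h
  have h3 := h.dA s u h1 (by nlinarith)
  have e : XS s (X s) (fun _ _ _ => 1) (fl fun _ _ _ => 1) 0 0 none = X s none := by
    funext u
    show X s none u * (1 * 1) = X s none u
    ring
  have h4 : DifferentiableAt ℂ (XS s (X s) (fun _ _ _ => 1) (fl fun _ _ _ => 1) 0 0 none) u := h3
  rwa [e] at h4

/-- **the base of the classes of two letters** -/
theorem lgB_of (hB : Bs6 X ob P x κ e E0) (hx : 0 < x) (hκ : κ ≤ 8 / 3)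
    (hD : Pool.Agent.PLX.DecZ6 X par6 (51 / 100 * l) κ (-(e : ℝ))) (hI : InvZ6 X κ (-(e : ℝ))) :
    LgB X κ e :=
  ⟨hB.meas, hB.kpos, hκ, hD, hI, an_Bs6 hB hx⟩

end base

end PHK

/-! ### rows `0` -/

namespace PBO.PLX

open NUO NUP1 NUCR NUP1S NUP1S.Ab NUP1S.AbC NUP1S.AbG NURow NUP1.Leg NUGC NUGC.PLX
open PHK
open PBR.PLX (phI6_R0 RB6_R0 dec6_RU inv6_RU bs6_RU)
open PBTV.PLX (gV6 meas_gV6)
open NUGC.PLX (beC)

attribute [local instance] NUSea.seaP PLX.ends1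

variable [Fil]

/-- **the base of the classes at rows `0`** -/
theorem lgB06 {ep : ℝ} (h0 : 0 < ep) (h1 : ep ≤ 1 / 100) : ∃ m0 : ℕ, ∀ m ≥ m0,
    LgB (K06 ep m).Z (2 * beC ep) (Fil.xe m) ∧ ∃ (ob : (Bool → ℂ → ℝ) → PLX.OB) (E0 : Set ℝ),
      PBR.PLX.Bs6 (K06 ep m).Z ob par6 ep (2 * beC ep) (Fil.xe m) E0 := by
  obtain ⟨m1, hm1⟩ := exists_nat_ge (2 ^ 14 * Real.exp (8 / 3 * 1) * (2 : ℕ))
  refine ⟨m1 + 2, fun m hm => ?_⟩
  obtain ⟨b1, b2, b3⟩ := beC_bd6 h0 h1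
  have hmm : 2 ^ 14 * Real.exp (8 / 3 * 1) * (([I, -I] : List ℂ).length : ℕ) ≤ ((m - 1 : ℕ) : ℝ) := by
    refine le_trans (by simp) (hm1.trans ?_)
    exact_mod_cast (by omega : m1 ≤ m - 1)
  have hR := rB06 h0 h1 m
  have hM : Fil.q * (m - 1) = m - 1 + Fil.xn (m - 1) := (Fil.add_xn (m - 1)).symm
  have hφ := phI6_R0 (g0 := gV6 m true) (g0' := gV6 m false) b3 b2 exI_re zero_le_one exI_im
    (by omega : 1 ≤ m - 1) hmm
  have hB := bs6_RU (P := par6) hM hR h0 h1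
  rw [K06_Z]
  exact ⟨lgB_of hB h0 (by show 2 * beC ep ≤ 8 / 3; linarith)
    (dec6_RU hM hR par6_good (gF06 m) (gF06' m)) (inv6_RU hM hR cosl_pos hφ), _, _, hB⟩

end PBO.PLX

end
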