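import Pool.Agent.PHK.LgDef

/-!
# (P): the letters at the points `hx6 t w`, the scalar weight of a choice

* `vF6_P_opp`, `vF6_H_opp`: closed forms near the zeros;
* **`hd_P`**, **`hd_H`**: simple zero of the spectators of the letters with a hole on a quantum of the
  other species; **`dvL6`**, **`hd_opp`**, **`kp_dv_le`**: both types at once and the bound of the weight;
* `rL_opp`: the value of `rL`; **`cV6_le`**: the scalar weight of a choice with the bound of the
  insertion is at most `cw6`.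
-/

set_option autoImplicit false
set_option linter.unusedSectionVars false

noncomputable section

open Complex Filter
open scoped Topology

namespace PHK

open NUP1 NUP1S NURow NUP1.Leg NUP1.Bd NUGC.PLX PBR.PLX
open PBQ.PLX (KD)

private theorem sl (k : ℕ) (h0 : 0 < k) (h8 : k < 8) : sin ((k : ℂ) * l) ≠ 0 := by
  have h := sinl_pos k h0 h8
  have e : sin ((k : ℂ) * l) = ((Real.sin (k * l) : ℝ) : ℂ) := by push_cast; rfl
  rw [e]
  exact_mod_cast h.ne'

private theorem sl1 : sin (l : ℂ) ≠ 0 := by simpa using sl 1 (by norm_num) (by norm_num)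

private theorem sl2 : sin (2 * (l : ℂ)) ≠ 0 := by simpa using sl 2 (by norm_num) (by norm_num)

private theorem sl3 : sin (3 * (l : ℂ)) ≠ 0 := by simpa using sl 3 (by norm_num) (by norm_num)

private theorem hd_zero {f k : ℂ → ℂ} {h : ℂ} (e : ∀ᶠ z in 𝓝 h, f z = sin (z - h) * k z)
    (hk : DifferentiableAt ℂ k h) : HasDerivAt f (k h) h := by
  have h0 : HasDerivAt (fun z : ℂ => z - h) 1 h := (hasDerivAt_id h).sub_const h
  have h1 : HasDerivAt (fun z : ℂ => sin (z - h)) 1 h := by
    have := HasDerivAt.comp h (h₂ := Complex.sin) (h := fun z : ℂ => z - h)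
      (Complex.hasDerivAt_sin (h - h)) h0
    simpa [Function.comp_def] using this
  have h2 : HasDerivAt (fun z => sin (z - h) * k z) (1 * k h + sin (h - h) * deriv k h) h :=
    h1.mul hk.hasDerivAt
  have h3 : (1 : ℂ) * k h + sin (h - h) * deriv k h = k h := by simp
  rw [h3] at h2
  exact h2.congr_of_eventuallyEq e

/-- nearby points, the sine of a shift does not vanish -/
private theorem ev_sin {h c : ℂ} (hc : sin c ≠ 0) : ∀ᶠ z in 𝓝 h, sin (c + (z - h)) ≠ 0 := by
  have h1 : ContinuousAt (fun z : ℂ => sin (c + (z - h))) h := by fun_prop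
  exact h1.eventually_ne (by simpa using hc)

private theorem ev_sin' {h c : ℂ} (hc : sin c ≠ 0) : ∀ᶠ z in 𝓝 h, sin (c - (z - h)) ≠ 0 := by
  have h1 : ContinuousAt (fun z : ℂ => sin (c - (z - h))) h := by fun_prop
  exact h1.eventually_ne (by simpa using hc)

/-! ### the hole of the other species -/

/-- `P`, quantum of the other species -/
theorem vF6_P_opp (u : Bool) (w z : ℂ) : vF6 .P (u, false) false none (w - z) =
    sin (z - hx6 .P w) * (sin (2 * l + (z - hx6 .P w)) / sin (l + (z - hx6 .P w))) := by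
  show (if false = true then SF else SP) false none (w - z) = _
  rw [if_neg (by simp)]
  show DP (w - z) = _
  unfold DP Ck hx6
  rw [if_pos rfl]
  have e1 : -(w - z) - 3 * (l : ℂ) = z - (w + 3 * l) := by ring
  rw [e1, add_comm (z - (w + 3 * (l : ℂ))) (2 * (l : ℂ)), add_comm (z - (w + 3 * (l : ℂ))) (l : ℂ)]
  ring

/-- **`P`: simple zero at the captured quantum** -/
theorem hd_P (u : Bool) (w : ℂ) : HasDerivAt (fun z => vF6 .P (u, false) false none (w - z))
    (sin (2 * l) / sin l) (hx6 .P w) := by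
  have hd : DifferentiableAt ℂ
      (fun z => sin (2 * l + (z - hx6 .P w)) / sin (l + (z - hx6 .P w))) (hx6 .P w) := by
    refine DifferentiableAt.div (by fun_prop) (by fun_prop) ?_
    simpa using sl1
  have h := hd_zero (Eventually.of_forall fun z => vF6_P_opp u w z) hd
  simpa using h

/-- `H`, quantum of the other species -/
theorem vF6_H_opp (i : Bool) (w z : ℂ) (h1 : sin (3 * l + (z - w)) ≠ 0)
    (h2 : sin (3 * l - (z - w)) ≠ 0) : vF6 .H (i, false) false none (w - z) =
      sin (z - w) * (sin (2 * l + (z - w)) * cos (z - w) * qg (z - w) ^ i.toNat) := by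
  have e0 : vF6 .H (i, false) false none (w - z) =
      gz (false, .S) (false, .A) (w - z - 2 * l) * Dk (w - z) * qg (w - z) ^ (i.toNat : ℤ) *
        q (w - z) ^ (-((0 : ℕ) : ℤ)) := rfl
  rw [e0, zpow_natCast]
  have e1 : gz (false, .S) (false, .A) (w - z - 2 * l) = q1 (-(w - z - 2 * l)) := rfl
  have e2 : qg (w - z) = qg (z - w) := by rw [← qg_neg]; congr 1; ring
  rw [e1, e2]
  simp only [Nat.cast_zero, neg_zero, zpow_zero, mul_one]
  unfold q1 Dk
  have a1 : -(w - z - 2 * (l : ℂ)) = 2 * l + (z - w) := by ring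
  have a2 : 2 * (l : ℂ) + (z - w) + l = 3 * l + (z - w) := by ring
  have a3 : 2 * (l : ℂ) + (z - w) - 2 * l = z - w := by ring
  have a4 : 2 * (l : ℂ) + (z - w) + 3 * l = Real.pi - (3 * l - (z - w)) := by
    rw [← l8]; ring
  have a5 : 3 * (l : ℂ) - (w - z) = 3 * l + (z - w) := by ring
  have a6 : 3 * (l : ℂ) + (w - z) = 3 * l - (z - w) := by ring
  have a7 : cos (w - z) = cos (z - w) := by rw [← cos_neg]; congr 1; ring
  rw [a1, a2, a3, a4, a5, a6, a7, sin_pi_sub]
  generalize sin (3 * (l : ℂ) + (z - w)) = A at h1 ⊢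
  generalize sin (3 * (l : ℂ) - (z - w)) = B at h2 ⊢
  field_simp

/-- **`H`: simple zero of the other species at the half quantum** -/
theorem hd_H (i : Bool) (w : ℂ) : HasDerivAt (fun z => vF6 .H (i, false) false none (w - z))
    (sin (2 * l) * (1 / sin (3 * l) ^ 4) ^ i.toNat) (hx6 .H w) := by
  have hw : hx6 .H w = w := rfl
  rw [hw]
  have hq : DifferentiableAt ℂ (fun z : ℂ => qg (z - w)) w := by
    unfold qg
    refine DifferentiableAt.div (by fun_prop) (by fun_prop) ?_
    have h3 := sl3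
    simp [h3]
  have hd : DifferentiableAt ℂ
      (fun z => sin (2 * l + (z - w)) * cos (z - w) * qg (z - w) ^ i.toNat) w := by
    refine DifferentiableAt.mul (by fun_prop) (hq.pow _)
  have hev : ∀ᶠ z in 𝓝 w, vF6 .H (i, false) false none (w - z) =
      sin (z - w) * (sin (2 * l + (z - w)) * cos (z - w) * qg (z - w) ^ i.toNat) := by
    filter_upwards [ev_sin (h := w) sl3, ev_sin' (h := w) sl3] with z h1 h2
    exact vF6_H_opp i w z h1 h2
  have h := hd_zero hev hd
  have e : sin (2 * (l : ℂ) + (w - w)) * cos (w - w) * qg (w - w) ^ i.toNat =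
      sin (2 * l) * (1 / sin (3 * l) ^ 4) ^ i.toNat := by
    unfold qg
    simp only [sub_self, add_zero, cos_zero, mul_one, zero_add, zero_sub, sin_neg]
    congr 2
    ring
  rw [e] at h
  exact h

/-- the derivative at the place of the hole -/
def dvL6 (t : HT) (i : Bool) : ℂ :=
  if t = .P then sin (2 * l) / sin l else sin (2 * l) * (1 / sin (3 * l) ^ 4) ^ i.toNat

/-- **both types** -/
theorem hd_opp {t : HT} {i : Bool} (h : okC6 t (i, true)) (w : ℂ) :
    HasDerivAt (fun z => vF6 t (i, false) false none (w - z)) (dvL6 t i) (hx6 t w) := by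
  rcases h.2 rfl with rfl | rfl
  · exact hd_P i w
  · exact hd_H i w

theorem dvL6_ne (t : HT) (i : Bool) : dvL6 t i ≠ 0 := by
  unfold dvL6
  split_ifs
  · exact div_ne_zero sl2 sl1
  · exact mul_ne_zero sl2 (pow_ne_zero _ (one_div_ne_zero (pow_ne_zero _ sl3)))

/-- **bound of the weight of a hole** -/
theorem kp_dv_le (t : HT) (i : Bool) : 2 * ‖kp / dvL6 t i‖ ≤ cHo := by
  have r1 := sinl_pos 1 (by norm_num) (by norm_num)
  have r2 := sinl_pos 2 (by norm_num) (by norm_num)
  have r3 := sinl_pos 3 (by norm_num) (by norm_num)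
  push_cast at r1 r2 r3
  rw [one_mul] at r1
  have c1 : sin (l : ℂ) = ((Real.sin l : ℝ) : ℂ) := by push_cast; rfl
  have c2 : sin (2 * (l : ℂ)) = ((Real.sin (2 * l) : ℝ) : ℂ) := by push_cast; rfl
  have c3 : sin (3 * (l : ℂ)) = ((Real.sin (3 * l) : ℝ) : ℂ) := by push_cast; rfl
  have hdbl : Real.sin (2 * l) = 2 * Real.sin l * Real.cos l := Real.sin_two_mul l
  have hr : Real.sin (2 * l) ≤ 2 * Real.sin l := by
    rw [hdbl]
    have := Real.cos_le_one l
    nlinarith
  unfold kp dvL6 cHo
  split_ifs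
  · have e : (sin (2 * (l : ℂ)) / sin l) ^ 2 / (sin (2 * l) / sin l) =
        ((Real.sin (2 * l) / Real.sin l : ℝ) : ℂ) := by
      rw [c1, c2]
      push_cast
      have h1 : ((Real.sin l : ℝ) : ℂ) ≠ 0 := by exact_mod_cast r1.ne'
      have h2 : ((Real.sin (2 * l) : ℝ) : ℂ) ≠ 0 := by exact_mod_cast r2.ne'
      push_cast at h1 h2
      field_simp
    rw [e, norm_real, Real.norm_of_nonneg (by positivity)]
    have b1 : Real.sin (2 * l) / Real.sin l ≤ 2 := by
      rw [div_le_iff₀ r1]
      exact hr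
    have b2 : (8 : ℝ) ≤ 8 / Real.sin (2 * l) := by
      rw [le_div_iff₀ r2]
      have := Real.sin_le_one (2 * l)
      linarith
    linarith
  · have e : (sin (2 * (l : ℂ)) / sin l) ^ 2 / (sin (2 * l) * (1 / sin (3 * l) ^ 4) ^ i.toNat) =
        ((Real.sin (2 * l) / Real.sin l ^ 2 * (Real.sin (3 * l) ^ 4) ^ i.toNat : ℝ) : ℂ) := by
      rw [c1, c2, c3]
      have h1 : ((Real.sin l : ℝ) : ℂ) ≠ 0 := by exact_mod_cast r1.ne'
      have h2 : ((Real.sin (2 * l) : ℝ) : ℂ) ≠ 0 := by exact_mod_cast r2.ne'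
      have h3 : ((Real.sin (3 * l) : ℝ) : ℂ) ≠ 0 := by exact_mod_cast r3.ne'
      rw [Complex.ofReal_mul, Complex.ofReal_div, Complex.ofReal_pow, Complex.ofReal_pow,
        Complex.ofReal_pow, one_div, inv_pow]
      generalize ((Real.sin l : ℝ) : ℂ) = A at h1 ⊢
      generalize ((Real.sin (2 * l) : ℝ) : ℂ) = B at h2 ⊢
      generalize ((Real.sin (3 * l) : ℝ) : ℂ) = C at h3 ⊢
      field_simp
    rw [e, norm_real, Real.norm_of_nonneg (by positivity)]
    have b1 : (Real.sin (3 * l) ^ 4) ^ i.toNat ≤ 1 :=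
      pow_le_one₀ (by positivity) (pow_le_one₀ r3.le (Real.sin_le_one _))
    have b2 : Real.sin (2 * l) / Real.sin l ^ 2 ≤ 4 / Real.sin (2 * l) := by
      rw [div_le_div_iff₀ (by positivity) r2]
      nlinarith [mul_nonneg (sub_nonneg.2 hr) (add_pos r2 r1).le]
    have b3 : 0 ≤ Real.sin (2 * l) / Real.sin l ^ 2 := by positivity
    have b4 : Real.sin (2 * l) / Real.sin l ^ 2 * (Real.sin (3 * l) ^ 4) ^ i.toNat ≤
        4 / Real.sin (2 * l) := (mul_le_of_le_one_right b3 b1).trans b2
    have e8 : 8 / Real.sin (2 * l) = 2 * (4 / Real.sin (2 * l)) := by ring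
    rw [e8]
    linarith

/-! ### the scalar weight of a choice -/

/-- the derivative of `LgDef` is the derivative -/
theorem rL_opp {t : HT} {i : Bool} (h : okC6 t (i, true)) : rL t i false = dvL6 t i := by
  have n2 : sin (0 - 2 * (l : ℂ)) = -sin (2 * l) := by rw [zero_sub, sin_neg]
  have n3 : sin (0 - 3 * (l : ℂ)) = -sin (3 * l) := by rw [zero_sub, sin_neg]
  rcases h.2 rfl with rfl | rfl
  · have e0 : rL .P i false = (sin (-(3 * (l : ℂ)) + 2 * l) / (Pool.Agent.PHD.sc (-(3 * (l : ℂ)) + 3 * l) *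
        sin (-(3 * (l : ℂ)) + l)))⁻¹ := by
      cases i <;> rfl
    have a1 : -(3 * (l : ℂ)) + 2 * l = -l := by ring
    have a2 : -(3 * (l : ℂ)) + 3 * l = 0 := by ring
    have a3 : -(3 * (l : ℂ)) + l = -(2 * l) := by ring
    rw [e0, a1, a2, a3, Pool.Agent.PHD.sc_zero, sin_neg, sin_neg, inv_div, one_mul, neg_div_neg_eq]
    unfold dvL6
    rw [if_pos rfl]
  · unfold dvL6
    rw [if_neg (by simp)]
    rcases i with _ | _
    · have e0 : rL .H false false = (-(1 / (Pool.Agent.PHD.sc 0 * cos 0 * sin (0 - 2 * (l : ℂ)))))⁻¹ := rfl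
      rw [e0, Pool.Agent.PHD.sc_zero, cos_zero, n2]
      simp
    · have e0 : rL .H true false = (-(sin (0 + 3 * (l : ℂ)) ^ 2 * sin (0 - 3 * (l : ℂ)) ^ 2 /
          (Pool.Agent.PHD.sc 0 * cos 0 ^ 3 * sin (0 - 2 * (l : ℂ)))))⁻¹ := rfl
      rw [e0, Pool.Agent.PHD.sc_zero, cos_zero, n2, n3, zero_add]
      have h2 := sl2
      have h3 := sl3
      generalize sin (2 * (l : ℂ)) = A at h2 ⊢
      generalize sin (3 * (l : ℂ)) = B at h3 ⊢
      simp only [Bool.toNat_true, pow_one]
      field_simp

private theorem norm_pL0 : ‖pL 0‖ = ‖hR1 0‖ := by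
  unfold pL hR1
  have e : sin (0 - 5 * (l : ℂ)) ^ 2 = sin (0 + 3 * (l : ℂ)) ^ 2 := by
    have : (0 : ℂ) - 5 * l = -(Real.pi - (0 + 3 * (l : ℂ))) := by
      rw [← l8]; ring
    rw [this, sin_neg, sin_pi_sub, neg_sq]
  rw [e, norm_neg]

private theorem htT_vF (t : HT) (x : ℂ) : htT t false x = vF6 t (false, false) false none x := by
  rw [vF6_ff]
  cases t <;> rfl

/-- **the scalar weight of a choice** -/
theorem cV6_le (K : KD) {t t' : HT} {u : Ch6 × Ch6} (h : okC6 t u.1) (h' : okC6 t' u.2) (w w' : ℂ) :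
    ‖cV6 K.Z t t' w w' u‖ * 2 ^ (u.1.2.toNat + u.2.2.toNat) ≤ cw6 K t t' w w' u := by
  obtain ⟨⟨i, j⟩, ⟨i', j'⟩⟩ := u
  simp only at h h'
  have hc := cHo_pos
  -- the own quanta
  have hi : ∀ (b : Bool), (b = true → t = .H) →
      (if b = true then ‖K.Z true none w * pL 0 * vF6 t' (false, false) false none (w' - w)‖ else 1) =
        if b = true then ‖K.Z true none w * tG (htT t) (htT t') w w' true w‖ else 1 := by
    intro b hb
    split_ifs with h0
    · rw [hb h0]
      unfold tG
      rw [sub_self]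
      show _ = ‖K.Z true none w * (hR1 0 * htT t' false (w' - w))‖
      rw [htT_vF]
      simp only [norm_mul, norm_pL0]
      ring
    · rfl
  have hi' : ∀ (b : Bool), (b = true → t' = .H) →
      (if b = true then ‖K.Z false none w' * pL 0 * vF6 t (false, false) false none (w - w')‖ else 1) =
        if b = true then ‖K.Z false none w' * tG (htT t) (htT t') w w' false w'‖ else 1 := by
    intro b hb
    split_ifs with h0
    · rw [hb h0]
      unfold tG
      rw [sub_self]
      show _ = ‖K.Z false none w' * (htT t false (w - w') * hR1 0)‖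
      rw [htT_vF]
      simp only [norm_mul, norm_pL0]
      ring
    · rfl
  have hP : ∀ {s : HT} {b c : Bool}, okC6 s (b, c) → (b = true → s = .H) := fun h => h.1
  have hwt : K.wt t t' w w' i i' =
      (if i = true then ‖K.Z true none w * pL 0 * vF6 t' (false, false) false none (w' - w)‖ else 1) *
      (if i' = true then ‖K.Z false none w' * pL 0 * vF6 t (false, false) false none (w - w')‖ else 1) *
      (if (i && i') = true then ‖Bd.qg (w - w')‖ else 1) := by
    unfold KD.wt
    rw [if_pos ⟨okC6_fst h, okC6_fst h'⟩]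
    unfold wgt2
    rw [hi i (hP h), hi' i' (hP h')]
  -- the holes
  have k1 : ∀ {s s' : HT} {b b' c : Bool} (a : Bool) (z x : ℂ), okC6 s (b, c) →
      (if c = true then ‖-kp / (K.Z a none z * (rL s b false * vF6 s' (b', false) true none x))‖ else 1) *
        2 ^ c.toNat ≤
      (if s = .H then 3 else 1) * (if c = true then cHo * ‖K.Z a none z‖⁻¹ else 1) *
        (if c = true then ‖vF6 s' (b', false) true none x‖⁻¹ else 1) := by
    intro s s' b b' c a z x hs
    have h3 : (1 : ℝ) ≤ if s = HT.H then 3 else 1 := by split_ifs <;> norm_num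
    rcases c with _ | _
    · simpa using h3
    · simp only [if_true, Bool.toNat_true, pow_one]
      rw [rL_opp hs]
      have hk := kp_dv_le s b
      have e : ‖-kp / (K.Z a none z * (dvL6 s b * vF6 s' (b', false) true none x))‖ * 2 =
          (2 * ‖kp / dvL6 s b‖) * (‖K.Z a none z‖⁻¹ * ‖vF6 s' (b', false) true none x‖⁻¹) := by
        rw [norm_div, norm_neg, norm_mul, norm_mul, norm_div]
        rw [div_eq_mul_inv, div_eq_mul_inv, mul_inv, mul_inv]
        ring
      rw [e]
      have hY : 0 ≤ ‖K.Z a none z‖⁻¹ * ‖vF6 s' (b', false) true none x‖⁻¹ := by positivity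
      have e2 : (if s = HT.H then (3 : ℝ) else 1) * (cHo * ‖K.Z a none z‖⁻¹) *
          ‖vF6 s' (b', false) true none x‖⁻¹ =
          (if s = HT.H then (3 : ℝ) else 1) * (cHo * (‖K.Z a none z‖⁻¹ *
            ‖vF6 s' (b', false) true none x‖⁻¹)) := by ring
      rw [e2]
      refine (mul_le_mul_of_nonneg_right hk hY).trans ?_
      exact le_mul_of_one_le_left (mul_nonneg hc.le hY) h3
  have q1 := k1 (s := t) (s' := t') (b := i) (b' := i') (c := j) false (hx6 t w) (w' - hx6 t w) h
  have q2 := k1 (s := t') (s' := t) (b := i') (b' := i) (c := j') true (hx6 t' w') (w - hx6 t' w') h'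
  unfold cw6
  rw [if_pos ⟨h, h'⟩]
  simp only
  rw [hwt]
  have e1 : ‖cV6 K.Z t t' w w' ((i, j), (i', j'))‖ =
      ((if i = true then ‖K.Z true none w * pL 0 * vF6 t' (false, false) false none (w' - w)‖ else 1) *
      (if i' = true then ‖K.Z false none w' * pL 0 * vF6 t (false, false) false none (w - w')‖ else 1) *
      (if (i && i') = true then ‖Bd.qg (w - w')‖ else 1)) *
      ((if j = true then ‖-kp / (K.Z false none (hx6 t w) * (rL t i false *
          vF6 t' (i', false) true none (w' - hx6 t w)))‖ else 1) *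
        (if j' = true then ‖-kp / (K.Z true none (hx6 t' w') * (rL t' i' false *
          vF6 t (i, false) true none (w - hx6 t' w')))‖ else 1) *
        (if (j && j') = true then ‖Bd.qg (hx6 t w - hx6 t' w')‖ else 1)) := by
    have eq : Bd.qg (hx6 t w - hx6 t' w') = Bd.qg (hx6 t' w' - hx6 t w) := by
      rw [← qg_neg]; congr 1; ring
    rw [eq]
    unfold cV6 rB6 zB6
    simp only [norm_mul, apply_ite norm, norm_one]
    cases i <;> cases i' <;> cases j <;> cases j' <;> simp
  rw [e1, pow_add]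
  have hA : 0 ≤ (if i = true then ‖K.Z true none w * pL 0 * vF6 t' (false, false) false none (w' - w)‖ else 1) *
      (if i' = true then ‖K.Z false none w' * pL 0 * vF6 t (false, false) false none (w - w')‖ else 1) *
      (if (i && i') = true then ‖Bd.qg (w - w')‖ else 1) := by
    refine mul_nonneg (mul_nonneg ?_ ?_) ?_ <;> split_ifs <;> positivity
  have hQ : 0 ≤ (if (j && j') = true then ‖Bd.qg (hx6 t w - hx6 t' w')‖ else 1) := by
    split_ifs <;> positivity
  have hB := mul_le_mul q1 q2 (by split_ifs <;> positivity) (by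
    refine mul_nonneg (mul_nonneg ?_ ?_) ?_ <;> split_ifs <;> positivity)
  have hC := mul_le_mul_of_nonneg_left (mul_le_mul_of_nonneg_right hB hQ) hA
  refine le_trans (le_of_eq ?_) (hC.trans (le_of_eq ?_))
  · ring
  · unfold ownH6 gH6' hF6
    simp only [Bool.not_true, Bool.not_false]
    ring

end PHK
end
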