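import Pool.Agent.PHK.LetB
import Pool.Agent.PLX.PB.KValR

/-!
# (P): the sea terms of the letters

* `MF6 s t u a w`: the sea term of a letter whose half quantum has the species `a`, sea numbers `s`;
* `mHS_at6`: the mean of the atoms; **`mf6_eq`**: atoms and base group; `mfK6_eq`: two letters;
* `MF6_base`: the letters without neutral factor.
-/

set_option autoImplicit false
set_option linter.unusedSectionVars false

noncomputable section

open Complex MeasureTheory

namespace PHK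

open NUP1 NUP1S NURow NUGC.PLX PBR.PLX
open NUO (pA)
open NUSp (wc wX wY wd)
open NUSea.PLX.H0 (Gd)
open PBH.PLX (Atm HS AtOk)
open PBV.PLX (mHS int_HS)
open PB0.PLX (MW0 MFo MFx mfs int_wd0)

/-- **the sea term of a letter** -/
def MF6 (s : Bool → ℝ) (t : HT) (u : Ch6) (a : Bool) (w : ℂ) : ℝ :=
  s a * MW0 (wl6 t u true) w + s (!a) * MW0 (wl6 t u false) w

/-- the mean of a word on the line `l` -/
theorem int_lw (L : List (ℤ × ℝ)) (w : ℂ) :
    Integrable (fun t : ℝ => NUMF.P t * lw L w (pA (fun _ => 0) t)) ∧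
      ∫ t : ℝ, NUMF.P t * lw L w (pA (fun _ => 0) t) = MW0 L w := by
  have e : ∀ t : ℝ, lw L w (pA (fun _ => 0) t) = (wd L w (t : ℂ)).re := by
    intro t
    rw [lw_wd]
    congr 1
    unfold NUO.pA NUP1.vl
    push_cast
    ring
  have h := int_wd0 L w
  have e2 : (fun t : ℝ => NUMF.P t * lw L w (pA (fun _ => 0) t)) =
      fun t => NUMF.P t * (wd L w (t : ℂ)).re := by
    funext t
    rw [e]
  rw [e2]
  exact h

/-- **the mean of the atoms** -/
theorem mHS_at6 (t : HT) (u : Ch6) (σ : Bool) (τ : ℝ) (a : Bool) : mHS (at6 t u σ τ) a =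
    MW0 (wl6 t u (decide (a = σ))) (vl (htL t) τ) -
      MW0 (wc (bc6 t u) (decide (a = σ))) (pb6 t u τ) := by
  have hl := NUMF.l_pos
  have h := (int_HS (by positivity : 0 < NUMF.l / 4) (at6_ok t u σ τ) a).2
  obtain ⟨i1, e1⟩ := int_lw (wl6 t u (decide (a = σ))) (vl (htL t) τ)
  obtain ⟨i2, e2⟩ := int_lw (wc (bc6 t u) (decide (a = σ))) (pb6 t u τ)
  rw [← h, ← e1, ← e2, ← integral_sub i1 i2]
  refine integral_congr_ae (Filter.Eventually.of_forall fun x => ?_)
  show NUMF.P x * HS (at6 t u σ τ) (fun _ _ => 0) a x = _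
  have e3 := dv6_line t u σ τ a (fun _ _ => 0) x
  unfold dv6 at e3
  rw [← Real.exp_injective e3]
  ring

/-- **atoms and base group of a letter** -/
theorem mf6_eq (s : Bool → ℝ) (t : HT) (u : Ch6) (σ : Bool) (τ : ℝ) :
    ∑ c, s c * mHS (at6 t u σ τ) c + mfs s MFo MFx σ (bc6 t u) (pb6 t u τ) =
      MF6 s t u σ (vl (htL t) τ) := by
  rw [Fintype.sum_bool, mHS_at6, mHS_at6]
  unfold mfs MF6 PB0.PLX.MFo PB0.PLX.MFx
  cases σ <;> simp [wc] <;> ring

theorem mHS_append {m n : ℕ} (x : Bool → Fin m → Atm) (x' : Bool → Fin n → Atm) (a : Bool) :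
    mHS (fun b => Fin.append (x b) (x' b)) a = mHS x a + mHS x' a := by
  unfold PBV.PLX.mHS
  rw [Fin.sum_univ_add]
  simp only [Fin.append_left, Fin.append_right]

/-- **atoms and base groups of two letters** -/
theorem mfK6_eq (s : Bool → ℝ) (t t' : HT) (u : Ch6 × Ch6) (y : ℝ × ℝ) :
    ∑ c, s c * mHS (atK6 t t' u y) c +
      ∑ i, mfs s MFo MFx (gdK6 t t' u y i).σ (gdK6 t t' u y i).c (gdK6 t t' u y i).w =
      MF6 s t u.1 true (vl (htL t) y.1) + MF6 s t' u.2 false (vl (htL t') y.2) := by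
  rw [← mf6_eq s t u.1 true y.1, ← mf6_eq s t' u.2 false y.2, Fin.sum_univ_two]
  have e : ∀ c, mHS (atK6 t t' u y) c = mHS (at6 t u.1 true y.1) c + mHS (at6 t' u.2 false y.2) c :=
    fun c => mHS_append _ _ c
  simp only [e, Fintype.sum_bool]
  show _ + (mfs s MFo MFx true (bc6 t u.1) (pb6 t u.1 y.1) +
    mfs s MFo MFx false (bc6 t' u.2) (pb6 t' u.2 y.2)) = _
  ring

/-- the letters without neutral factor -/
theorem MF6_base (s : Bool → ℝ) {t : HT} {u : Ch6} (h : t = .H → u.2 = false) (a : Bool) (w : ℂ) :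
    MF6 s t u a w = mfs s MFo MFx a (bc6 t u) w := by
  have e1 : ∀ o, wl6 t u o = wc (bc6 t u) o := by
    intro o
    obtain ⟨u1, u2⟩ := u
    cases t <;> cases u1 <;> cases u2 <;> simp_all [wl6, bc6]
  unfold MF6 mfs PB0.PLX.MFo PB0.PLX.MFx
  rw [e1, e1]
  simp [wc]

end PHK

end
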