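import Pool.Agent.PLX.PB.OwnLe0

/-!
# (P): a gain absorbs the linear term of the atoms

**`gain_absorb`**: `exp (-k Ag a τ) * exp (16/3 max (Tb (log k) - |τ|) 0) ≤ C`, `C` = constant of `a`.
-/

set_option autoImplicit false

noncomputable section

namespace PHK

open NUMF (Ag l l_pos)
open NUO (Tb)

/-- `y² exp (-c y) ≤ 4 / c²` for `y ≥ 0` -/
theorem sq_mul_exp_neg_le {c : ℝ} (hc : 0 < c) {y : ℝ} (hy : 0 ≤ y) :
    y ^ 2 * Real.exp (-(c * y)) ≤ 4 / c ^ 2 := by
  have h1 : c * y / 2 ≤ Real.exp (c * y / 2) := by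
    have := Real.add_one_le_exp (c * y / 2)
    linarith
  have h0 : 0 ≤ c * y / 2 := by positivity
  have h2 : (c * y / 2) ^ 2 ≤ Real.exp (c * y / 2) ^ 2 := pow_le_pow_left₀ h0 h1 2
  have h3 : Real.exp (c * y / 2) ^ 2 = Real.exp (c * y) := by
    rw [← Real.exp_nat_mul]
    congr 1
    push_cast
    ring
  rw [h3] at h2
  rw [Real.exp_neg, le_div_iff₀ (by positivity)]
  have h4 : 0 < Real.exp (c * y) := Real.exp_pos _
  have h5 : y ^ 2 * (Real.exp (c * y))⁻¹ * c ^ 2 = (4 * (c * y / 2) ^ 2) * (Real.exp (c * y))⁻¹ := by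
    ring
  rw [h5]
  calc (4 * (c * y / 2) ^ 2) * (Real.exp (c * y))⁻¹ ≤
        (4 * Real.exp (c * y)) * (Real.exp (c * y))⁻¹ := by gcongr
    _ = 4 := by field_simp

/-- **a gain absorbs the linear term** -/
theorem gain_absorb_of {a : ℝ} (h0 : 0 < a) (h1 : a < 1) : ∃ C : ℝ, 1 ≤ C ∧ ∀ (k : ℕ) (τ : ℝ),
    Real.exp (-((k : ℝ) * Ag a τ)) * Real.exp (16 / 3 * max (Tb (Real.log k) - |τ|) 0) ≤ C := by
  have hl := l_pos
  have hs : 0 < Real.sin (8 / 3 * (a * l)) := by
    refine Real.sin_pos_of_pos_of_lt_pi (by positivity) ?_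
    rw [← NUHM.l8]
    nlinarith
  obtain ⟨c, hc⟩ : ∃ c : ℝ, c = 6 / (7 * √3) * Real.sin (8 / 3 * (a * l)) := ⟨_, rfl⟩
  have hc0 : 0 < c := by rw [hc]; positivity
  refine ⟨1 + 4 / c ^ 2, by have : 0 < 4 / c ^ 2 := by positivity
                            linarith, fun k τ => ?_⟩
  have hk : (0 : ℝ) ≤ k := Nat.cast_nonneg k
  have hA : c * Real.exp (-(8 / 3) * |τ|) ≤ Ag a τ := by
    rw [hc]
    exact NUMF.Ag_ge h0.le h1 τ
  have hA0 : 0 ≤ Ag a τ := NUMF.Ag_nonneg h0.le h1 τ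
  have hC4 : 0 < 4 / c ^ 2 := by positivity
  rcases le_total (Tb (Real.log k) - |τ|) 0 with h | h
  · rw [max_eq_right h, mul_zero, Real.exp_zero, mul_one]
    have : Real.exp (-((k : ℝ) * Ag a τ)) ≤ 1 := by
      rw [Real.exp_le_one_iff]
      have := mul_nonneg hk hA0
      linarith
    linarith
  · rw [max_eq_left h]
    rcases Nat.eq_zero_or_pos k with h0k | hpos
    · subst h0k
      have e : Tb (Real.log ((0 : ℕ) : ℝ)) = 0 := by simp [Tb]
      rw [e] at h ⊢
      have : |τ| = 0 := le_antisymm (by linarith) (abs_nonneg τ)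
      rw [this]
      simp
      exact hC4.le
    · have hk1 : (0 : ℝ) < k := by exact_mod_cast hpos
      set y : ℝ := k * Real.exp (-(8 / 3) * |τ|) with hy
      have hy0 : 0 ≤ y := by positivity
      have e1 : Real.exp (16 / 3 * (Tb (Real.log k) - |τ|)) = y ^ 2 := by
        rw [hy, mul_pow]
        have : (k : ℝ) = Real.exp (Real.log k) := (Real.exp_log hk1).symm
        conv_rhs => rw [this]
        rw [← Real.exp_nat_mul, ← Real.exp_nat_mul, ← Real.exp_add]
        congr 1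
        unfold Tb
        push_cast
        ring
      rw [e1]
      have e2 : Real.exp (-((k : ℝ) * Ag a τ)) ≤ Real.exp (-(c * y)) := by
        rw [Real.exp_le_exp]
        have := mul_le_mul_of_nonneg_left hA hk
        rw [hy]
        linarith
      calc Real.exp (-((k : ℝ) * Ag a τ)) * y ^ 2 ≤ Real.exp (-(c * y)) * y ^ 2 := by gcongr
        _ = y ^ 2 * Real.exp (-(c * y)) := by ring
        _ ≤ 4 / c ^ 2 := sq_mul_exp_neg_le hc0 hy0
        _ ≤ _ := by linarith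

/-- **the gain `exp (-k Ag (3/8) τ)` absorbs the linear term** -/
theorem gain_absorb : ∃ C : ℝ, 1 ≤ C ∧ ∀ (k : ℕ) (τ : ℝ),
    Real.exp (-((k : ℝ) * Ag (3 / 8) τ)) * Real.exp (16 / 3 * max (Tb (Real.log k) - |τ|) 0) ≤ C :=
  gain_absorb_of (by norm_num) (by norm_num)

end PHK

end
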