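import Pool.Agent.PHK.LetW
import Pool.Agent.PHK.LetM
import Pool.Agent.PHK.GainA
import Pool.Agent.PLX.PB.OwnLe0

/-!
# (P): the own factors of the letters with the sea term, rows and ends `0`

* `fT6 k t u τ`: the gain of a letter;
* `CutB6`: bounds of the cutoffs of one species at the places of the half quanta (`CutB`, a lower bound at
  `5/8 l`, the square of the cut for the strings);
* `hole_sea`, `own_Hsh`, `own_Hph`: the own factors of `hs'`, `hp'`;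
* **`ownLe6`**: `own6 K a t u w * exp (MF6 + x) ≤ C A⁴ exp (- |τ|) cut fT6`, `x` at most the loss of the
  current for `hs'` (phase `- 3 l` against `13 l` of the base group), `0` for the other letters.
-/

set_option autoImplicit false
set_option linter.unusedSectionVars false

open MeasureTheory Set Filter Topology

namespace PHK

open NUMF (l l_pos zj Ag)
open NUHM (ls)
open NUPref (la)
open NUGC (cut cut_nonneg cut_le_one)
open NUGC.PLX (clh qh htL htP)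
open NURow (HT)
open PB0.PLX
open PBR.PLX (Ch6 okC6 vF6)
open PBQ.PLX (KD)
open NUO (Tb)
open NUPn (Lin)

noncomputable section

/-- **the gain of a letter** -/
def fT6 (k : ℕ) (t : HT) (u : Ch6) (τ : ℝ) : ℝ :=
  match t with
  | .W => 1
  | .F => Real.exp (-((k : ℝ) * Ag (3 / 4) τ))
  | .P => if u.2 = true then Real.exp (-((k : ℝ) * Ag (3 / 4) τ)) else 1
  | .H => if u.1 = true ∧ u.2 = false then 1 else Real.exp (-((k : ℝ) * Ag (3 / 8) τ))

theorem fT6_le_one (k : ℕ) (t : HT) (u : Ch6) (τ : ℝ) : fT6 k t u τ ≤ 1 := by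
  have h : ∀ a : ℝ, 0 ≤ a → a < 1 → Real.exp (-((k : ℝ) * Ag a τ)) ≤ 1 := by
    intro a h0 h1
    rw [Real.exp_le_one_iff]
    have := mul_nonneg (Nat.cast_nonneg (α := ℝ) k) (NUMF.Ag_nonneg h0 h1 τ)
    linarith
  unfold fT6
  cases t
  · exact le_rfl
  · exact h _ (by norm_num) (by norm_num)
  · show (if u.2 = true then _ else _) ≤ _
    split_ifs
    · exact h _ (by norm_num) (by norm_num)
    · exact le_rfl
  · show (if u.1 = true ∧ u.2 = false then _ else _) ≤ _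
    split_ifs
    · exact le_rfl
    · exact h _ (by norm_num) (by norm_num)

theorem fT6_pos (k : ℕ) (t : HT) (u : Ch6) (τ : ℝ) : 0 < fT6 k t u τ := by
  unfold fT6
  cases t
  · exact one_pos
  · exact Real.exp_pos _
  · show 0 < (if u.2 = true then _ else _)
    split_ifs
    · exact Real.exp_pos _
    · exact one_pos
  · show 0 < (if u.1 = true ∧ u.2 = false then _ else _)
    split_ifs
    · exact one_pos
    · exact Real.exp_pos _

/-- **bounds of the cutoffs of one species** (`r` rows) at the places of the half quanta -/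
structure CutB6 (r k : ℕ) (ep A β : ℝ) (g g0 : ℂ → ℂ) : Prop extends CutB r k ep A β g g0 where
  hl : ∀ τ : ℝ, ‖ph0 β g r (zj (5 / 8) τ)‖⁻¹ ≤ A * (cut (Real.log k) ep (-1) τ)⁻¹
  s2 : ∀ τ : ℝ, ‖ph0 (4 / 3) g0 r (zj (-(11 / 8)) τ)‖ ≤ A * cut (Real.log k) ep (-1) τ ^ 2

/-! ### the sea term of the hole -/

/-- **the sea term of a hole of the other species at the half quantum** against its own factor -/
theorem hole_sea (mo mx : ℕ) (τ : ℝ) :
    e2 mo mx (MD0 (zj (5 / 8) τ) 4) (-(MD0 (zj (5 / 8) τ) 1 + MD0 (zj (5 / 8) τ) (-1)) / 2) =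
      eQ mx mo (5 / 8) τ - (ls (5 / 8) τ - ls (-(11 / 8)) τ) - ((mx + 1 : ℕ) : ℝ) * Ag (3 / 8) τ := by
  have h1 : MD0 (zj (5 / 8) τ) 4 = MFoG (zj (5 / 8) τ) - MFo .hp (zj (5 / 8) τ) := by
    rw [MFoG_eq]; ring
  have h2 : -(MD0 (zj (5 / 8) τ) 1 + MD0 (zj (5 / 8) τ) (-1)) / 2 =
      MFxG (zj (5 / 8) τ) - MFx .hp (zj (5 / 8) τ) := by
    rw [MFxG_eq]; ring
  rw [h1, h2, MFoG_val (zj_re _ _), MFxG_val (zj_re _ _), MFo_Hp (zj_re _ _), MFx_Hp (zj_re _ _), la_zj,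
    la_zj, la_zj, la_zj, la_zj, la_zj, zj_im]
  rw [show (5 / 8 + -2 : ℝ) = -(11 / 8) by norm_num, show (5 / 8 + 0 : ℝ) = 5 / 8 by norm_num]
  unfold eQ e2
  rw [show (5 / 8 - 2 : ℝ) = -(11 / 8) by norm_num]
  push_cast
  ring

/-- the sea term of a letter at rows `0` -/
def sea6 (mo mx : ℕ) (t : HT) (u : Ch6) (w : ℂ) : ℝ :=
  e2 mo mx (MW0 (wl6 t u true) w) (MW0 (wl6 t u false) w)

theorem MW0_wXs (w : ℂ) : MW0 wXs w = MFo .hs w + MD0 w 4 := by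
  have e : PB0.PLX.HL0 w 5 = PB0.PLX.HL0 w (-3) := by rw [← HL0_per w 5]; norm_num
  unfold PB0.PLX.MFo PB0.PLX.MD0
  simp only [wXs, NUSp.wX, MW0_cons, MW0_nil]
  norm_num
  rw [e]
  ring

theorem MW0_wYs (w : ℂ) : MW0 wYs w = MFx .hs w + -(MD0 w 1 + MD0 w (-1)) / 2 := by
  unfold PB0.PLX.MFx PB0.PLX.MD0
  simp only [wYs, NUSp.wY, MW0_cons, MW0_nil]
  norm_num
  ring

theorem sea6_Hsh (mo mx : ℕ) (τ : ℝ) : sea6 mo mx .H (false, true) (zj (5 / 8) τ) =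
    sea2 mo mx .hs (zj (5 / 8) τ) + (eQ mx mo (5 / 8) τ - (ls (5 / 8) τ - ls (-(11 / 8)) τ) -
      ((mx + 1 : ℕ) : ℝ) * Ag (3 / 8) τ) := by
  rw [← hole_sea]
  show e2 mo mx (MW0 wXs _) (MW0 wYs _) = _
  rw [MW0_wXs, MW0_wYs]
  unfold sea2 e2
  ring

theorem sea6_Hph (mo mx : ℕ) (τ : ℝ) : sea6 mo mx .H (true, true) (zj (5 / 8) τ) =
    sea2 mo mx .hp (zj (5 / 8) τ) + (eQ mx mo (5 / 8) τ - (ls (5 / 8) τ - ls (-(11 / 8)) τ) -
      ((mx + 1 : ℕ) : ℝ) * Ag (3 / 8) τ) := by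
  rw [← hole_sea]
  show e2 mo mx (MFoG _) (MFxG _) = _
  rw [MFoG_eq, MFxG_eq]
  unfold sea2 e2
  ring

/-- **own factor of `hs'`** -/
theorem own_Hsh (c : ℂ) (β : ℝ) (g g0 : ℂ → ℂ) (mo mx : ℕ) (τ : ℝ) :
    ‖XS c g0 mx mo (zj (5 / 8) τ - 2 * NUP1.l)‖ * ‖KF0 mo mx (zj (5 / 8) τ)‖ *
      ‖XN c β g mx mo (zj (5 / 8) τ)‖⁻¹ * Real.exp (sea6 mo mx .H (false, true) (zj (5 / 8) τ)) =
      Real.sin (2 * l) * ‖c‖ ^ 2 * ‖c‖⁻¹ *
        Real.exp (ls (-(19 / 8)) τ - ls (-(27 / 8)) τ - ls (29 / 8) τ - ls (5 / 8) τ + ls (-(11 / 8)) τ) *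
        (Real.exp (-(((mo + 1 : ℕ) : ℝ) * Ag (3 / 8) τ)) *
          Real.exp (-(((mx + 1 : ℕ) : ℝ) * Ag (3 / 8) τ))) *
        (‖ph0 (4 / 3) g0 mx (zj (-(11 / 8)) τ)‖ * ‖ph0 β g mx (zj (5 / 8) τ)‖⁻¹) := by
  have h := own_Hs c g0 mo mx τ
  rw [sea6_Hsh, norm_XN gz_S, Real.exp_add, Real.exp_sub, Real.exp_sub, mul_inv, mul_inv]
  rw [show ‖XS c g0 mx mo (zj (5 / 8) τ - 2 * NUP1.l)‖ * ‖KF0 mo mx (zj (5 / 8) τ)‖ *
      (‖c‖⁻¹ * (Real.exp (eQ mx mo (5 / 8) τ))⁻¹ * ‖ph0 β g mx (zj (5 / 8) τ)‖⁻¹) *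
      (Real.exp (sea2 mo mx .hs (zj (5 / 8) τ)) * (Real.exp (eQ mx mo (5 / 8) τ) /
        Real.exp (ls (5 / 8) τ - ls (-(11 / 8)) τ) /
        Real.exp (((mx + 1 : ℕ) : ℝ) * Ag (3 / 8) τ))) =
      (‖XS c g0 mx mo (zj (5 / 8) τ - 2 * NUP1.l)‖ * ‖KF0 mo mx (zj (5 / 8) τ)‖ *
        Real.exp (sea2 mo mx .hs (zj (5 / 8) τ))) * (‖c‖⁻¹ * ‖ph0 β g mx (zj (5 / 8) τ)‖⁻¹ *
        ((Real.exp (eQ mx mo (5 / 8) τ))⁻¹ * Real.exp (eQ mx mo (5 / 8) τ)) *
        (Real.exp (ls (5 / 8) τ - ls (-(11 / 8)) τ))⁻¹ *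
        (Real.exp (((mx + 1 : ℕ) : ℝ) * Ag (3 / 8) τ))⁻¹) by
      simp only [div_eq_mul_inv]
      ring, h, inv_mul_cancel₀ (Real.exp_pos _).ne', ← Real.exp_neg, ← Real.exp_neg]
  rw [show ls (-(19 / 8)) τ - ls (-(27 / 8)) τ - ls (29 / 8) τ - ls (5 / 8) τ + ls (-(11 / 8)) τ =
    (ls (-(19 / 8)) τ - ls (-(27 / 8)) τ - ls (29 / 8) τ) + -(ls (5 / 8) τ - ls (-(11 / 8)) τ) by ring,
    Real.exp_add]
  ring

/-- **own factor of `hp'`** -/
theorem own_Hph (c c' : ℂ) (β : ℝ) (g0 g g' : ℂ → ℂ) (mo mx : ℕ) (τ : ℝ) :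
    ‖XS c g0 mx mo (zj (5 / 8) τ - 2 * NUP1.l)‖ * ‖KF0 mo mx (zj (5 / 8) τ)‖ *
      ‖XN c' β g' mo mx (zj (5 / 8) τ)‖ * ‖XN c β g mx mo (zj (5 / 8) τ)‖⁻¹ *
      Real.exp (sea6 mo mx .H (true, true) (zj (5 / 8) τ)) =
      Real.sin (2 * l) * ‖c‖ ^ 2 * ‖c‖⁻¹ * ‖c'‖ *
        Real.exp (ls (-(19 / 8)) τ - ls (-(27 / 8)) τ - ls (29 / 8) τ) *
        Real.exp (-(((mx + 1 : ℕ) : ℝ) * Ag (3 / 8) τ)) *
        (‖ph0 (4 / 3) g0 mx (zj (-(11 / 8)) τ)‖ * ‖ph0 β g' mo (zj (5 / 8) τ)‖ *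
          ‖ph0 β g mx (zj (5 / 8) τ)‖⁻¹) := by
  have h := own_Hp c c' β g0 g' mo mx τ
  rw [sea6_Hph, norm_XN gz_S (v := 5 / 8) c, Real.exp_add, Real.exp_sub, Real.exp_sub, mul_inv, mul_inv]
  rw [show ‖XS c g0 mx mo (zj (5 / 8) τ - 2 * NUP1.l)‖ * ‖KF0 mo mx (zj (5 / 8) τ)‖ *
      ‖XN c' β g' mo mx (zj (5 / 8) τ)‖ *
      (‖c‖⁻¹ * (Real.exp (eQ mx mo (5 / 8) τ))⁻¹ * ‖ph0 β g mx (zj (5 / 8) τ)‖⁻¹) *
      (Real.exp (sea2 mo mx .hp (zj (5 / 8) τ)) * (Real.exp (eQ mx mo (5 / 8) τ) /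
        Real.exp (ls (5 / 8) τ - ls (-(11 / 8)) τ) /
        Real.exp (((mx + 1 : ℕ) : ℝ) * Ag (3 / 8) τ))) =
      (‖XS c g0 mx mo (zj (5 / 8) τ - 2 * NUP1.l)‖ * ‖KF0 mo mx (zj (5 / 8) τ)‖ *
      ‖XN c' β g' mo mx (zj (5 / 8) τ)‖ *
        Real.exp (sea2 mo mx .hp (zj (5 / 8) τ))) * (‖c‖⁻¹ * ‖ph0 β g mx (zj (5 / 8) τ)‖⁻¹ *
        ((Real.exp (eQ mx mo (5 / 8) τ))⁻¹ * Real.exp (eQ mx mo (5 / 8) τ)) *
        (Real.exp (ls (5 / 8) τ - ls (-(11 / 8)) τ))⁻¹ *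
        (Real.exp (((mx + 1 : ℕ) : ℝ) * Ag (3 / 8) τ))⁻¹) by
      simp only [div_eq_mul_inv]
      ring, h, inv_mul_cancel₀ (Real.exp_pos _).ne', ← Real.exp_neg, ← Real.exp_neg]
  rw [show ls (5 / 8) τ - ls (-(11 / 8)) τ + ls (-(19 / 8)) τ - ls (-(27 / 8)) τ - ls (29 / 8) τ =
    (ls (-(19 / 8)) τ - ls (-(27 / 8)) τ - ls (29 / 8) τ) + (ls (5 / 8) τ - ls (-(11 / 8)) τ) by ring,
    Real.exp_add, Real.exp_neg (ls (5 / 8) τ - ls (-(11 / 8)) τ)]
  have := Real.exp_pos (ls (5 / 8) τ - ls (-(11 / 8)) τ)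
  field_simp

private theorem cutN_pos (L ep q τ : ℝ) : 0 < cut L ep q τ := by
  unfold NUGC.cut
  split_ifs
  · exact one_pos
  · exact lt_min one_pos (Real.exp_pos _)

/-! ### one species -/

/-- the bounds of the letters `hs'`, `hp'` and of `P` with a hole (`mo, c, g` own, `mx, c', g', g0'` other) -/
structure OwnB6 (C : ℝ) (mo mx k : ℕ) (c c' : ℂ) (β : ℝ) (g g' g0' : ℂ → ℂ) (A ep : ℝ) : Prop where
  Hsh : ∀ τ, ‖XS c' g0' mx mo (zj (5 / 8) τ - 2 * NUP1.l)‖ * ‖KF0 mo mx (zj (5 / 8) τ)‖ *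
    ‖XN c' β g' mx mo (zj (5 / 8) τ)‖⁻¹ * Real.exp (sea6 mo mx .H (false, true) (zj (5 / 8) τ) +
      16 / 3 * max (Tb (Real.log k) - |τ|) 0) ≤
    C * (A * A) * Real.exp (-|τ|) * cut (Real.log k) ep (-1) τ * Real.exp (-((k : ℝ) * Ag (3 / 8) τ))
  Hph : ∀ τ, ‖XS c' g0' mx mo (zj (5 / 8) τ - 2 * NUP1.l)‖ * ‖KF0 mo mx (zj (5 / 8) τ)‖ *
    ‖XN c β g mo mx (zj (5 / 8) τ)‖ * ‖XN c' β g' mx mo (zj (5 / 8) τ)‖⁻¹ *
    Real.exp (sea6 mo mx .H (true, true) (zj (5 / 8) τ)) ≤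
    C * (A * A * A) * Real.exp (-|τ|) * Real.exp (-((k : ℝ) * Ag (3 / 8) τ))

theorem exists_ownB6 : ∃ C : ℝ, 0 < C ∧ ∀ (mo mx k : ℕ) (c c' : ℂ) (β : ℝ) (g g0 g' g0' : ℂ → ℂ)
    (ep A : ℝ), ‖c‖ ≤ 2 → 1 ≤ ‖c'‖ → ‖c'‖ ≤ 2 → 1 ≤ A → k ≤ mo + 1 → k ≤ mx + 1 →
    CutB6 mo k ep A β g g0 → CutB6 mx k ep A β g' g0' → OwnB6 C mo mx k c c' β g g' g0' A ep := by
  have l5 := gz_lin gz_S (-3) (a := -(19 / 8)) (by norm_num)
  have l6 := gz_lin gz_S (-4) (a := -(27 / 8)) (by norm_num)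
  have l7 := gz_lin gz_S 3 (a := 29 / 8) (by norm_num)
  have l8 := gz_lin gz_S 0 (a := 5 / 8) (by norm_num)
  have l9 := gz_lin gz_S (-2) (a := -(11 / 8)) (by norm_num)
  obtain ⟨C4, h4, b4⟩ := (((l5.add (l6.smul (-1))).add (l7.smul (-1))).congr
    (g := fun t => ls (-(19 / 8)) t - ls (-(27 / 8)) t - ls (29 / 8) t) (c' := -1)
    (fun t => by ring) (by norm_num)).exp_le
  obtain ⟨C5, h5, b5⟩ := (((((l5.add (l6.smul (-1))).add (l7.smul (-1))).add (l8.smul (-1))).add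
    l9).congr (g := fun t => ls (-(19 / 8)) t - ls (-(27 / 8)) t - ls (29 / 8) t - ls (5 / 8) t +
      ls (-(11 / 8)) t) (c' := -1)
    (fun t => by ring) (by norm_num)).exp_le
  obtain ⟨C6, h6', b6⟩ := gain_absorb
  have h6 : 0 < C6 := by linarith
  have hs := NUPn.sin2l_pos
  set S := Real.sin (2 * l) with hS
  refine ⟨S * 4 * C5 * C6 + S * 4 * 2 * C4, by positivity,
    fun mo mx k c c' β g g0 g' g0' ep A hc hc1 hc' hA hko hkx H H' => ?_⟩
  have hA0 : 0 < A := by linarith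
  have hc2 : ‖c'‖ ^ 2 * ‖c'‖⁻¹ ≤ 4 := by
    have h1 : 0 < ‖c'‖ := by linarith
    rw [pow_two, mul_assoc, mul_inv_cancel₀ h1.ne', mul_one]
    linarith
  have hcc : 0 ≤ ‖c'‖ ^ 2 * ‖c'‖⁻¹ := by positivity
  have gle : ∀ n : ℕ, k ≤ n → ∀ τ, Real.exp (-((n : ℝ) * Ag (3 / 8) τ)) ≤
      Real.exp (-((k : ℝ) * Ag (3 / 8) τ)) := by
    intro n hn τ
    refine Real.exp_le_exp.2 (neg_le_neg ?_)
    exact mul_le_mul_of_nonneg_right (by exact_mod_cast hn)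
      (NUMF.Ag_nonneg (by norm_num) (by norm_num) τ)
  refine ⟨fun τ => ?_, fun τ => ?_⟩
  · have e := own_Hsh c' β g' g0' mo mx τ
    have hE := Real.exp_pos (-|τ|)
    have b := b5 τ
    rw [neg_one_mul] at b
    have hcut := cutN_pos (Real.log k) ep (-1) τ
    have q1 := H'.s2 τ
    have q2 := H'.hl τ
    set κ := cut (Real.log k) ep (-1) τ with hκ
    have q3 : ‖ph0 (4 / 3) g0' mx (zj (-(11 / 8)) τ)‖ * ‖ph0 β g' mx (zj (5 / 8) τ)‖⁻¹ ≤
        A * A * κ := by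
      calc _ ≤ (A * κ ^ 2) * (A * κ⁻¹) := mul_le_mul q1 q2 (by positivity) (by positivity)
        _ = A * A * κ := by
            field_simp
    have q4 : Real.exp (-(((mo + 1 : ℕ) : ℝ) * Ag (3 / 8) τ)) *
        Real.exp (16 / 3 * max (Tb (Real.log k) - |τ|) 0) ≤ C6 :=
      (mul_le_mul_of_nonneg_right (gle _ hko τ) (Real.exp_pos _).le).trans (b6 k τ)
    have q5 := gle _ hkx τ
    rw [Real.exp_add, ← mul_assoc, e]
    set G := Real.exp (-((k : ℝ) * Ag (3 / 8) τ)) with hG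
    have hG0 : 0 < G := Real.exp_pos _
    calc S * ‖c'‖ ^ 2 * ‖c'‖⁻¹ * Real.exp (ls (-(19 / 8)) τ - ls (-(27 / 8)) τ - ls (29 / 8) τ -
            ls (5 / 8) τ + ls (-(11 / 8)) τ) *
          (Real.exp (-(((mo + 1 : ℕ) : ℝ) * Ag (3 / 8) τ)) *
            Real.exp (-(((mx + 1 : ℕ) : ℝ) * Ag (3 / 8) τ))) *
          (‖ph0 (4 / 3) g0' mx (zj (-(11 / 8)) τ)‖ * ‖ph0 β g' mx (zj (5 / 8) τ)‖⁻¹) *
          Real.exp (16 / 3 * max (Tb (Real.log k) - |τ|) 0)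
        = S * (‖c'‖ ^ 2 * ‖c'‖⁻¹) * Real.exp (ls (-(19 / 8)) τ - ls (-(27 / 8)) τ - ls (29 / 8) τ -
            ls (5 / 8) τ + ls (-(11 / 8)) τ) *
          (Real.exp (-(((mo + 1 : ℕ) : ℝ) * Ag (3 / 8) τ)) *
            Real.exp (16 / 3 * max (Tb (Real.log k) - |τ|) 0)) *
          Real.exp (-(((mx + 1 : ℕ) : ℝ) * Ag (3 / 8) τ)) *
          (‖ph0 (4 / 3) g0' mx (zj (-(11 / 8)) τ)‖ * ‖ph0 β g' mx (zj (5 / 8) τ)‖⁻¹) := by ring
      _ ≤ S * 4 * (C5 * Real.exp (-|τ|)) * C6 * G * (A * A * κ) := by gcongr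
      _ = S * 4 * C5 * C6 * (A * A * Real.exp (-|τ|) * κ * G) := by ring
      _ ≤ (S * 4 * C5 * C6 + S * 4 * 2 * C4) * (A * A * Real.exp (-|τ|) * κ * G) :=
          mul_le_mul_of_nonneg_right (le_add_of_nonneg_right (by positivity)) (by positivity)
      _ = _ := by ring
  · have e := own_Hph c' c β g0' g' g mo mx τ
    have hE := Real.exp_pos (-|τ|)
    have b := b4 τ
    rw [neg_one_mul] at b
    have hcut := cutN_pos (Real.log k) ep (-1) τ
    have hcut1 := cut_le_one (Real.log k) ep (-1) τ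
    have q1 := H'.s2 τ
    have q2 := H'.hl τ
    have q0 := H.h τ
    set κ := cut (Real.log k) ep (-1) τ with hκ
    have q3 : ‖ph0 (4 / 3) g0' mx (zj (-(11 / 8)) τ)‖ * ‖ph0 β g mo (zj (5 / 8) τ)‖ *
        ‖ph0 β g' mx (zj (5 / 8) τ)‖⁻¹ ≤ A * A * A := by
      calc _ ≤ (A * κ ^ 2) * A * (A * κ⁻¹) :=
            mul_le_mul (mul_le_mul q1 q0 (norm_nonneg _) (by positivity)) q2 (by positivity)
              (by positivity)
        _ = A * A * A * κ := by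
            field_simp
        _ ≤ A * A * A * 1 := mul_le_mul_of_nonneg_left hcut1 (by positivity)
        _ = _ := mul_one _
    have q5 := gle _ hkx τ
    rw [e]
    set G := Real.exp (-((k : ℝ) * Ag (3 / 8) τ)) with hG
    have hG0 : 0 < G := Real.exp_pos _
    calc S * ‖c'‖ ^ 2 * ‖c'‖⁻¹ * ‖c‖ * Real.exp (ls (-(19 / 8)) τ - ls (-(27 / 8)) τ -
            ls (29 / 8) τ) * Real.exp (-(((mx + 1 : ℕ) : ℝ) * Ag (3 / 8) τ)) *
          (‖ph0 (4 / 3) g0' mx (zj (-(11 / 8)) τ)‖ * ‖ph0 β g mo (zj (5 / 8) τ)‖ *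
            ‖ph0 β g' mx (zj (5 / 8) τ)‖⁻¹)
        = S * (‖c'‖ ^ 2 * ‖c'‖⁻¹) * ‖c‖ * Real.exp (ls (-(19 / 8)) τ - ls (-(27 / 8)) τ -
            ls (29 / 8) τ) * Real.exp (-(((mx + 1 : ℕ) : ℝ) * Ag (3 / 8) τ)) *
          (‖ph0 (4 / 3) g0' mx (zj (-(11 / 8)) τ)‖ * ‖ph0 β g mo (zj (5 / 8) τ)‖ *
            ‖ph0 β g' mx (zj (5 / 8) τ)‖⁻¹) := by ring
      _ ≤ S * 4 * 2 * (C4 * Real.exp (-|τ|)) * G * (A * A * A) := by gcongr
      _ = S * 4 * 2 * C4 * (A * A * A * Real.exp (-|τ|) * G) := by ring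
      _ ≤ (S * 4 * C5 * C6 + S * 4 * 2 * C4) * (A * A * A * Real.exp (-|τ|) * G) :=
          mul_le_mul_of_nonneg_right (le_add_of_nonneg_left (by positivity)) (by positivity)
      _ = _ := by ring

/-- the sea terms of the letters without neutral factor -/
theorem sea6_base {t : HT} {u : Ch6} (h : t = .H → u.2 = false) (mo mx : ℕ) (w : ℂ) :
    sea6 mo mx t u w = sea2 mo mx (bc6 t u) w := by
  have e1 : ∀ o, wl6 t u o = NUSp.wc (bc6 t u) o := by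
    intro o
    obtain ⟨u1, u2⟩ := u
    cases t <;> cases u1 <;> cases u2 <;> simp_all [wl6, bc6]
  unfold sea6 sea2 PB0.PLX.MFo PB0.PLX.MFx
  rw [e1, e1]
  simp [NUSp.wc]

theorem MF6_sea (r : Bool → ℕ) (t : HT) (u : Ch6) (a : Bool) (w : ℂ) :
    MF6 (fun b => (r b : ℝ) + 1) t u a w = sea6 (r a) (r !a) t u w := rfl

theorem norm_KP0_le (c : ℂ) (β : ℝ) (g : ℂ → ℂ) (mo mx : ℕ) (w : ℂ) :
    ‖KP0 c β g mo mx w‖ * ‖XN c β g mx mo (w + 3 * NUP1.l)‖⁻¹ ≤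
      ‖(Complex.sin NUP1.l / Complex.sin (2 * NUP1.l) : ℂ)‖ * ‖KF0 mo mx w‖ := by
  unfold PB0.PLX.KP0
  rw [norm_mul, norm_mul, mul_assoc, mul_assoc]
  refine mul_le_mul_of_nonneg_left ?_ (norm_nonneg _)
  refine mul_le_of_le_one_right (norm_nonneg _) ?_
  rcases eq_or_ne ‖XN c β g mx mo (w + 3 * NUP1.l)‖ 0 with h | h
  · rw [h, zero_mul]
    exact zero_le_one
  · rw [mul_inv_cancel₀ h]

/-- **the own factors of the letters with the sea term**, rows and ends `0` -/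
theorem ownLe6 : ∃ C : ℝ, 0 < C ∧ ∀ (K : KD) (r : Bool → ℕ) (k : ℕ) (c c' : ℂ) (β : ℝ)
    (g g' g0 g0' : ℂ → ℂ) (ep A : ℝ), IsK K r c c' β g g' g0 g0' → 1 ≤ ‖c‖ → ‖c‖ ≤ 2 → 1 ≤ ‖c'‖ →
    ‖c'‖ ≤ 2 → 1 ≤ A → CutB6 (r true) k ep A β g g0 → CutB6 (r false) k ep A β g' g0' →
    (∀ a, k ≤ r a + 1) → ∀ (a : Bool) (t : HT) (u : Ch6), okC6 t u → ∀ τ x : ℝ,
    x ≤ (if t = .H ∧ u = (false, true) then 16 / 3 * max (Tb (Real.log k) - |τ|) 0 else 0) →
      own6 K a t u (NUP1.vl (htL t) τ) *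
        Real.exp (MF6 (fun b => (r b : ℝ) + 1) t u a (NUP1.vl (htL t) τ) + x) ≤
      C * A ^ 4 * Real.exp (-|τ|) * cut (Real.log k) ep (qh6 t u) τ * fT6 k t u τ := by
  obtain ⟨C1, hC1, H1⟩ := ownG0
  obtain ⟨C2, hC2, H2⟩ := exists_ownB
  obtain ⟨C3, hC3, H3⟩ := exists_ownB6
  have hH : 0 ≤ cH := norm_nonneg _
  have hR : 0 ≤ ‖NUGC.PLX.hR1 0‖ := norm_nonneg _
  have hN : 0 ≤ ‖(Complex.sin NUP1.l / Complex.sin (2 * NUP1.l) : ℂ)‖ := norm_nonneg _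
  have ho := cHo_pos
  obtain ⟨Q, hQ⟩ : ∃ Q : ℝ, Q = 3 * C1 +
    cHo * ‖(Complex.sin NUP1.l / Complex.sin (2 * NUP1.l) : ℂ)‖ * C2 +
    3 * (cHo * cH * C3) + 3 * (cHo * cH * ‖NUGC.PLX.hR1 0‖ * C3) := ⟨_, rfl⟩
  have q2 : 0 ≤ cHo * ‖(Complex.sin NUP1.l / Complex.sin (2 * NUP1.l) : ℂ)‖ * C2 := by positivity
  have q3 : 0 ≤ cHo * cH * C3 := by positivity
  have q4 : 0 ≤ cHo * cH * ‖NUGC.PLX.hR1 0‖ * C3 := by positivity
  refine ⟨Q, by rw [hQ]; positivity, fun K r k c c' β g g' g0 g0' ep A hK hc1 hc hc1' hc' hA h h' hk a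
    t u hu τ x hx => ?_⟩
  have hA0 : 0 < A := by linarith
  have hA2 : 1 ≤ A * A := by nlinarith
  have hA3 : 1 ≤ A * A * A := by nlinarith
  have e4 : A ^ 4 = (A * A) * (A * A) := by ring
  have a24 : A * A ≤ A ^ 4 := by rw [e4]; nlinarith
  have a34 : A * A * A ≤ A ^ 4 := by
    rw [show A ^ 4 = (A * A * A) * A by ring]
    nlinarith
  have a04 : 1 ≤ A ^ 4 := hA2.trans a24
  have hE := Real.exp_pos (-|τ|)
  rw [MF6_sea]
  -- the data of the species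
  obtain ⟨mo, hmo⟩ : ∃ mo, mo = r a := ⟨_, rfl⟩
  obtain ⟨mx, hmx⟩ : ∃ mx, mx = r (!a) := ⟨_, rfl⟩
  have hD : ∃ (d d' : ℂ) (f f' f0 f0' : ℂ → ℂ), ‖d‖ ≤ 2 ∧ 1 ≤ ‖d'‖ ∧ ‖d'‖ ≤ 2 ∧
      CutB6 mo k ep A β f f0 ∧ CutB6 mx k ep A β f' f0' ∧
      K.Z a none = XN d β f mo mx ∧ K.Z (!a) none = XN d' β f' mx mo ∧
      K.Z (!a) (some .S) = XS d' f0' mx mo ∧
      (if a = true then K.kF else K.kF') = KF0 mo mx ∧
      (if a = true then K.kP else K.kP') = KP0 d' β f' mo mx := by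
    rw [hmo, hmx]
    cases a
    · exact ⟨c', c, g', g, g0', g0, hc', hc1, hc, h', h, hK.nY, hK.nX, hK.sX, by simpa using hK.kF',
        by simpa using hK.kP'⟩
    · exact ⟨c, c', g, g', g0, g0', hc, hc1', hc', h, h', hK.nX, hK.nY, hK.sY, by simpa using hK.kF,
        by simpa using hK.kP⟩
  obtain ⟨d, d', f, f', f0, f0', hd, hd1', hd', hf, hf', zN, zN', zS', zF, zP⟩ := hD
  have hko : k ≤ mo + 1 := by rw [hmo]; exact hk a
  have hkx : k ≤ mx + 1 := by rw [hmx]; exact hk (!a)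
  have B2 := H2 mo mx k d d' β f f0 f' f0' ep A hd hd' hA0.le hf.toCutB hf'.toCutB
  have B3 := H3 mo mx k d d' β f f0 f' f0' ep A hd hd1' hd' hA hko hkx hf hf'
  have eF : K.ownZ a .F = KF0 mo mx := by
    rw [← zF]
    cases a <;> rfl
  have eP : K.ownZ a .P = KP0 d' β f' mo mx := by
    rw [← zP]
    cases a <;> rfl
  have eH : ∀ w, ‖K.ownZ a .H w‖ = cH * (‖XS d' f0' mx mo (w - 2 * NUP1.l)‖ * ‖KF0 mo mx w‖) := by
    intro w
    rw [← zF, ← zS']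
    have e0 : ∀ (kF kP : ℂ → ℂ) (Z' : Option NUP1S.O3 → ℂ → ℂ), ‖NUGC.PLX.ownK kF kP Z' .H w‖ =
        cH * (‖Z' (some .S) (w - 2 * NUP1.l)‖ * ‖kF w‖) := by
      intro kF kP Z'
      show ‖-(2 * Real.pi * NURow.rD (2 * NUP1.l) * NUP1.Bd.wt .S *
        Z' (some .S) (w - 2 * NUP1.l)) * kF w‖ = _
      rw [norm_mul, norm_neg, norm_mul]
      unfold cH
      ring
    cases a
    · exact e0 K.kF' K.kP' (K.Z true)
    · exact e0 K.kF K.kP (K.Z false)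
  by_cases h2 : u.2 = true
  · -- letters with a hole
    obtain ⟨u1, u2⟩ := u
    simp only at h2
    subst h2
    rcases hu.2 rfl with ht | ht
    · -- P with a hole
      subst ht
      have hu1 : u1 = false := by
        by_contra hc
        exact absurd (hu.1 (by simpa using hc)) (by simp)
      subst hu1
      have hx0 : x ≤ 0 := by simpa using hx
      have e1 : own6 K a .P (false, true) (NUP1.vl (htL .P) τ) =
          cHo * (‖KP0 d' β f' mo mx (zj (-(11 / 4)) τ)‖ *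
            ‖XN d' β f' mx mo (zj (-(11 / 4)) τ + 3 * NUP1.l)‖⁻¹) := by
        unfold own6 ownH6 KD.own
        rw [eP, zN', if_neg (show ¬(HT.P = HT.H) by simp)]
        simp only [Bool.false_eq_true, if_false, if_true, mul_one, one_mul]
        have : hx6 .P (NUP1.vl (htL .P) τ) = zj (-(11 / 4)) τ + 3 * NUP1.l := rfl
        rw [this]
        show ‖KP0 d' β f' mo mx (zj (-(11 / 4)) τ)‖ * _ = _
        ring
      have e2 : sea6 mo mx .P (false, true) (NUP1.vl (htL .P) τ) =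
          sea2 mo mx .w (zj (-(11 / 4)) τ) := sea6_base (by simp) mo mx _
      have hb := B2.F τ
      have hg : Real.exp (-(((mx + 1 : ℕ) : ℝ) * Ag (3 / 4) τ)) ≤
          Real.exp (-((k : ℝ) * Ag (3 / 4) τ)) := by
        refine Real.exp_le_exp.2 (neg_le_neg ?_)
        exact mul_le_mul_of_nonneg_right (by exact_mod_cast hkx)
          (NUMF.Ag_nonneg (by norm_num) (by norm_num) τ)
      have hcut : cut (Real.log k) ep (qh6 .P (false, true)) τ = 1 := if_pos rfl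
      have hfT : fT6 k .P (false, true) τ = Real.exp (-((k : ℝ) * Ag (3 / 4) τ)) := rfl
      rw [← hmo, ← hmx, e1, e2, hcut, hfT, mul_one]
      set G := Real.exp (-((k : ℝ) * Ag (3 / 4) τ)) with hG
      have hG0 : 0 < G := Real.exp_pos _
      have k1 := norm_KP0_le d' β f' mo mx (zj (-(11 / 4)) τ)
      have k2 : Real.exp (sea2 mo mx .w (zj (-(11 / 4)) τ) + x) ≤
          Real.exp (sea2 mo mx .w (zj (-(11 / 4)) τ)) := Real.exp_le_exp.2 (by linarith)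
      calc _ ≤ cHo * (‖(Complex.sin NUP1.l / Complex.sin (2 * NUP1.l) : ℂ)‖ *
            ‖KF0 mo mx (zj (-(11 / 4)) τ)‖) * Real.exp (sea2 mo mx .w (zj (-(11 / 4)) τ)) := by
            gcongr
        _ = cHo * ‖(Complex.sin NUP1.l / Complex.sin (2 * NUP1.l) : ℂ)‖ *
            (‖KF0 mo mx (zj (-(11 / 4)) τ)‖ * Real.exp (sea2 mo mx .w (zj (-(11 / 4)) τ))) := by ring
        _ ≤ cHo * ‖(Complex.sin NUP1.l / Complex.sin (2 * NUP1.l) : ℂ)‖ *
            (C2 * Real.exp (-|τ|) * G) := by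
            refine mul_le_mul_of_nonneg_left (hb.trans ?_) (by positivity)
            exact mul_le_mul_of_nonneg_left hg (by positivity)
        _ = cHo * ‖(Complex.sin NUP1.l / Complex.sin (2 * NUP1.l) : ℂ)‖ * C2 *
            (1 * (Real.exp (-|τ|) * G)) := by ring
        _ ≤ Q * (A ^ 4 * (Real.exp (-|τ|) * G)) := by
            refine mul_le_mul (by rw [hQ]; linarith) ?_ (by positivity) (by rw [hQ]; positivity)
            exact mul_le_mul_of_nonneg_right a04 (by positivity)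
        _ = _ := by ring
    · subst ht
      cases u1
      · -- hs'
        have hx0 : x ≤ 16 / 3 * max (Tb (Real.log k) - |τ|) 0 := by simpa using hx
        have e1 : own6 K a .H (false, true) (NUP1.vl (htL .H) τ) =
            3 * (cHo * cH * (‖XS d' f0' mx mo (zj (5 / 8) τ - 2 * NUP1.l)‖ *
              ‖KF0 mo mx (zj (5 / 8) τ)‖ * ‖XN d' β f' mx mo (zj (5 / 8) τ)‖⁻¹)) := by
          unfold own6 ownH6 KD.own
          rw [eH, zN', if_pos rfl]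
          simp only [Bool.false_eq_true, if_false, if_true, mul_one]
          have : hx6 .H (NUP1.vl (htL .H) τ) = zj (5 / 8) τ := rfl
          rw [this]
          show cH * (‖XS d' f0' mx mo (zj (5 / 8) τ - 2 * NUP1.l)‖ * ‖KF0 mo mx (zj (5 / 8) τ)‖) * _ = _
          ring
        have hb := B3.Hsh τ
        have hcut : cut (Real.log k) ep (qh6 .H (false, true)) τ = cut (Real.log k) ep (-1) τ := rfl
        have hfT : fT6 k .H (false, true) τ = Real.exp (-((k : ℝ) * Ag (3 / 8) τ)) := by simp [fT6]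
        have kc := cut_nonneg (Real.log k) ep (-1) τ
        rw [← hmo, ← hmx, e1, hcut, hfT]
        set G := Real.exp (-((k : ℝ) * Ag (3 / 8) τ)) with hG
        set κ := cut (Real.log k) ep (-1) τ with hκ
        have hG0 : 0 < G := Real.exp_pos _
        have k2 : Real.exp (sea6 mo mx .H (false, true) (NUP1.vl (htL .H) τ) + x) ≤
            Real.exp (sea6 mo mx .H (false, true) (zj (5 / 8) τ) +
              16 / 3 * max (Tb (Real.log k) - |τ|) 0) := by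
          refine Real.exp_le_exp.2 ?_
          show sea6 mo mx .H (false, true) (zj (5 / 8) τ) + x ≤ _
          linarith
        calc _ ≤ 3 * (cHo * cH * (‖XS d' f0' mx mo (zj (5 / 8) τ - 2 * NUP1.l)‖ *
              ‖KF0 mo mx (zj (5 / 8) τ)‖ * ‖XN d' β f' mx mo (zj (5 / 8) τ)‖⁻¹)) *
              Real.exp (sea6 mo mx .H (false, true) (zj (5 / 8) τ) +
                16 / 3 * max (Tb (Real.log k) - |τ|) 0) :=
              mul_le_mul_of_nonneg_left k2 (by positivity)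
          _ = 3 * (cHo * cH) * (‖XS d' f0' mx mo (zj (5 / 8) τ - 2 * NUP1.l)‖ *
              ‖KF0 mo mx (zj (5 / 8) τ)‖ * ‖XN d' β f' mx mo (zj (5 / 8) τ)‖⁻¹ *
              Real.exp (sea6 mo mx .H (false, true) (zj (5 / 8) τ) +
                16 / 3 * max (Tb (Real.log k) - |τ|) 0)) := by ring
          _ ≤ 3 * (cHo * cH) * (C3 * (A * A) * Real.exp (-|τ|) * κ * G) :=
              mul_le_mul_of_nonneg_left hb (by positivity)
          _ = 3 * (cHo * cH * C3) * ((A * A) * (Real.exp (-|τ|) * κ * G)) := by ring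
          _ ≤ Q * (A ^ 4 * (Real.exp (-|τ|) * κ * G)) := by
              refine mul_le_mul (by rw [hQ]; linarith) ?_ (by positivity) (by rw [hQ]; positivity)
              exact mul_le_mul_of_nonneg_right a24 (by positivity)
          _ = _ := by ring
      · -- hp'
        have hx0 : x ≤ 0 := by simpa using hx
        have e1 : own6 K a .H (true, true) (NUP1.vl (htL .H) τ) =
            3 * (cHo * cH * ‖NUGC.PLX.hR1 0‖ * (‖XS d' f0' mx mo (zj (5 / 8) τ - 2 * NUP1.l)‖ *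
              ‖KF0 mo mx (zj (5 / 8) τ)‖ * ‖XN d β f mo mx (zj (5 / 8) τ)‖ *
              ‖XN d' β f' mx mo (zj (5 / 8) τ)‖⁻¹)) := by
          unfold own6 ownH6 KD.own KD.ownQ
          rw [eH, zN', zN, if_pos rfl]
          simp only [if_true, norm_mul]
          have : hx6 .H (NUP1.vl (htL .H) τ) = zj (5 / 8) τ := rfl
          rw [this]
          show cH * (‖XS d' f0' mx mo (zj (5 / 8) τ - 2 * NUP1.l)‖ * ‖KF0 mo mx (zj (5 / 8) τ)‖) *
            (‖XN d β f mo mx (zj (5 / 8) τ)‖ * ‖NUGC.PLX.hR1 0‖) * _ = _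
          ring
        have hb := B3.Hph τ
        have hcut : cut (Real.log k) ep (qh6 .H (true, true)) τ = 1 := if_pos rfl
        have hfT : fT6 k .H (true, true) τ = Real.exp (-((k : ℝ) * Ag (3 / 8) τ)) := by simp [fT6]
        rw [← hmo, ← hmx, e1, hcut, hfT, mul_one]
        set G := Real.exp (-((k : ℝ) * Ag (3 / 8) τ)) with hG
        have hG0 : 0 < G := Real.exp_pos _
        have k2 : Real.exp (sea6 mo mx .H (true, true) (NUP1.vl (htL .H) τ) + x) ≤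
            Real.exp (sea6 mo mx .H (true, true) (zj (5 / 8) τ)) := by
          refine Real.exp_le_exp.2 ?_
          show sea6 mo mx .H (true, true) (zj (5 / 8) τ) + x ≤ _
          linarith
        calc _ ≤ 3 * (cHo * cH * ‖NUGC.PLX.hR1 0‖ *
              (‖XS d' f0' mx mo (zj (5 / 8) τ - 2 * NUP1.l)‖ *
              ‖KF0 mo mx (zj (5 / 8) τ)‖ * ‖XN d β f mo mx (zj (5 / 8) τ)‖ *
              ‖XN d' β f' mx mo (zj (5 / 8) τ)‖⁻¹)) *
              Real.exp (sea6 mo mx .H (true, true) (zj (5 / 8) τ)) :=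
              mul_le_mul_of_nonneg_left k2 (by positivity)
          _ = 3 * (cHo * cH * ‖NUGC.PLX.hR1 0‖) * (‖XS d' f0' mx mo (zj (5 / 8) τ - 2 * NUP1.l)‖ *
              ‖KF0 mo mx (zj (5 / 8) τ)‖ * ‖XN d β f mo mx (zj (5 / 8) τ)‖ *
              ‖XN d' β f' mx mo (zj (5 / 8) τ)‖⁻¹ *
              Real.exp (sea6 mo mx .H (true, true) (zj (5 / 8) τ))) := by ring
          _ ≤ 3 * (cHo * cH * ‖NUGC.PLX.hR1 0‖) * (C3 * (A * A * A) * Real.exp (-|τ|) * G) :=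
              mul_le_mul_of_nonneg_left hb (by positivity)
          _ = 3 * (cHo * cH * ‖NUGC.PLX.hR1 0‖ * C3) * ((A * A * A) * (Real.exp (-|τ|) * G)) := by ring
          _ ≤ Q * (A ^ 4 * (Real.exp (-|τ|) * G)) := by
              refine mul_le_mul (by rw [hQ]; linarith) ?_ (by positivity) (by rw [hQ]; positivity)
              exact mul_le_mul_of_nonneg_right a34 (by positivity)
          _ = _ := by ring
  · -- the landed letters
    have hu2 : u.2 = false := by simpa using h2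
    obtain ⟨u1, u2⟩ := u
    simp only at hu2
    subst hu2
    have hx0 : x ≤ 0 := by simpa using hx
    have hi : u1 = true → htP t = true := okC6_fst hu
    have hb := H1 K r k c c' β g g' g0 g0' ep A hK hc hc' hA h.toCutB h'.toCutB hk a t u1 hi τ
    have ec : bc6 t (u1, false) = clh t u1 := by cases t <;> cases u1 <;> rfl
    have e1 : own6 K a t (u1, false) (NUP1.vl (htL t) τ) ≤ 3 * K.own a t u1 (NUP1.vl (htL t) τ) := by
      unfold own6 ownH6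
      have h0 := K.own_nonneg a t u1 (NUP1.vl (htL t) τ)
      simp only [Bool.false_eq_true, if_false, mul_one]
      split_ifs <;> linarith
    have e2 : sea6 (r a) (r !a) t (u1, false) (NUP1.vl (htL t) τ) =
        sea2 (r a) (r !a) (clh t u1) (NUP1.vl (htL t) τ) := by
      rw [sea6_base (by simp), ec]
    have e3 : qh6 t (u1, false) = qh t u1 := by
      unfold qh6
      rw [ec]
      rfl
    have e4' : gT k t u1 τ = fT6 k t (u1, false) τ := by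
      cases t
      · cases u1 <;> rfl
      · cases u1 <;> rfl
      · cases u1 <;> rfl
      · cases u1 <;> simp [gT, fT6]
    have kc := cut_nonneg (Real.log k) ep (qh t u1) τ
    have hG0 := fT6_pos k t (u1, false) τ
    rw [e2, e3]
    rw [e4'] at hb
    set G := fT6 k t (u1, false) τ with hG
    set κ := cut (Real.log k) ep (qh t u1) τ with hκ
    have k2 : Real.exp (sea2 (r a) (r !a) (clh t u1) (NUP1.vl (htL t) τ) + x) ≤
        Real.exp (sea2 (r a) (r !a) (clh t u1) (NUP1.vl (htL t) τ)) := Real.exp_le_exp.2 (by linarith)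
    calc _ ≤ 3 * K.own a t u1 (NUP1.vl (htL t) τ) *
          Real.exp (sea2 (r a) (r !a) (clh t u1) (NUP1.vl (htL t) τ)) :=
          mul_le_mul e1 k2 (Real.exp_pos _).le (by
            have := K.own_nonneg a t u1 (NUP1.vl (htL t) τ)
            positivity)
      _ = 3 * (K.own a t u1 (NUP1.vl (htL t) τ) *
          Real.exp (sea2 (r a) (r !a) (clh t u1) (NUP1.vl (htL t) τ))) := by ring
      _ ≤ 3 * (C1 * (A * A) * Real.exp (-|τ|) * κ * G) := mul_le_mul_of_nonneg_left hb (by norm_num)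
      _ = 3 * C1 * ((A * A) * (Real.exp (-|τ|) * κ * G)) := by ring
      _ ≤ Q * (A ^ 4 * (Real.exp (-|τ|) * κ * G)) := by
          refine mul_le_mul (by rw [hQ]; linarith) ?_ (by positivity) (by rw [hQ]; positivity)
          exact mul_le_mul_of_nonneg_right a24 (by positivity)
      _ = _ := by ring

end

end PHK
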