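import Pool.Agent.PHK.K06
import Pool.Agent.PHK.LetO
import Pool.Agent.PHK.LetM
import Pool.Agent.PHK.GL6

/-!
# (P): the other classes at rows `0`, ends `0`

* `T06 F0`: the letters at the geometry `G06 [i, -i] F0`; `ME6_0`: the sea exponents;
* **`clOk06_of`**: own and direct factors of all classes; `ClsA06`: the class formulas; **`sumBd06`**.
-/

set_option autoImplicit false
set_option linter.unusedSectionVars false

noncomputable section

open Complex MeasureTheory Finset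
open scoped ENNReal
open PLX (Fil Ends)

namespace PBO.PLX

open NUO NUP1 NUCR NURow NUP1.Leg NUGC NUGC.PLX
open PHK
open NUGC.PLX (beC)
open PBR.PLX (Ch6 okC6 G06 GL6 ME6 mN6 pl6 pl6_nonneg ClsV6 ClsD6 G06_MF)
open PBTV.PLX (gV6)
open PB0.PLX (KRU kDRU IsK CutB MFk MFk_eq le_rows mfs MFo MFx)
open PotH.PLX (sN)
open NUMF (Ag)

attribute [local instance] NUSea.seaP PLX.ends1

variable [Fil]

/-- the effective numbers of rows -/
theorem sN_rows (k : ℕ) : sN k = fun b => ((cond b (k - 1) (Fil.q * (k - 1)) : ℕ) : ℝ) + 1 := by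
  have e : sN k = fun a => (Fil.nn a k : ℝ) := by
    funext a
    cases a <;> rfl
  rw [e]
  funext a
  cases a
  · show ((Fil.q * (k - 1) + 1 : ℕ) : ℝ) = ((Fil.q * (k - 1) : ℕ) : ℝ) + 1
    push_cast
    ring
  · show ((1 * (k - 1) + 1 : ℕ) : ℝ) = ((k - 1 : ℕ) : ℝ) + 1
    rw [one_mul]
    push_cast
    ring

/-- **the sea exponent of a letter at rows `0`** -/
theorem ME6_0 (ex : List ℂ) (F0 : ℕ → Bool → ℂ → ℂ) (m : ℕ) (a : Bool) (t : HT) (u : Ch6) (τ : ℝ) :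
    ME6 (G06 ex F0).MF m a t u τ = MF6 (sN m) t u a (NUP1.vl (htL t) τ) + pl6 m t u τ := by
  rw [← mf6_eq]
  unfold PBR.PLX.ME6 PBR.PLX.mN6
  show _ + mfs (sN m) MFo MFx a (bc6 t u) (pb6 t u τ) = _
  ring

/-- **the letters at rows `0`** -/
def T06 (F0 : ℕ → Bool → ℂ → ℂ) : LtS :=
  ltS (fun _ m t u τ => fT6 m t u τ) fun m a t u τ => ME6 (G06 [I, -I] F0).MF m a t u τ

theorem one_le_cc (m : ℕ) : 1 ≤ ‖NUP1.Leg.cc m‖ := by
  rw [PBX.norm_cc]
  have h := PHK.cos_ge_half (y := NUP1.l) (by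
    have h1 := NUP1.Bd.l_pos
    have h2 : NUP1.l = Real.pi / 8 := rfl
    rw [abs_of_pos h1, h2]
    linarith [Real.pi_pos])
  linarith

/-- the weights of the choices -/
def cw06 (ep : ℝ) (m : ℕ) (t t' : HT) (y : ℝ × ℝ) (u : Ch6 × Ch6) : ℝ :=
  cw6 (K06 ep m) t t' (vl (htL t) y.1) (vl (htL t') y.2) u

/-- **own and direct factors of all classes at rows `0`** -/
theorem clOk06_of (hV : ∀ ep : ℝ, 0 < ep → ep ≤ 1 / 100 → ∃ A : ℝ, 1 ≤ A ∧ ∃ m0 : ℕ, ∀ m ≥ m0,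
      ∀ a : Bool, CutB6 (cond a (m - 1) (Fil.q * (m - 1))) m ep A (beC ep)
        (PBX.gP (beC ep) [I, -I]) (gV6 m a)) (F0 : ℕ → Bool → ℂ → ℂ) :
    ClOk6 (T06 F0) (G06 [I, -I] F0).MF K06 kD06 cw06 := by
  refine clOk6_of dir6Le (fun ep h0 h1 => ?_) (ownD06 fun k a c w => G06_MF k a c w)
    (fun _ m t u τ => (fT6_pos m t u τ).le) (fun _ m t u τ => fT6_le_one m t u τ)
    (fun ep _ _ e1 he => ?_)
  · obtain ⟨C, hC, H⟩ := ownLe6
    obtain ⟨A, hA, m0, hcut⟩ := hV ep h0 h1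
    refine ⟨C * A ^ 4, by positivity, max m0 1, fun m hm a t u hu τ => ?_⟩
    obtain ⟨g0, g1⟩ := max_le_iff.1 hm
    have h := H (K06 ep m) _ m _ _ _ _ _ _ _ ep A (isK06 ep m) (one_le_cc _) (norm_cc_two _)
      (one_le_cc _) (norm_cc_two _) hA (hcut m g0 true) (hcut m g0 false) (fun a => le_rows m a)
      a t u hu τ (pl6 m t u τ) le_rfl
    rw [← sN_rows m] at h
    rw [ME6_0]
    refine h.trans (le_of_eq ?_)
    ring
  · obtain ⟨k1, hk1⟩ := sm_Ag (a := 3 / 4) (by norm_num) (by norm_num) he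
    obtain ⟨k2, hk2⟩ := sm_Ag (a := 3 / 8) (by norm_num) (by norm_num) he
    refine ⟨max k1 k2, fun m hm t u hu ht hb τ hτ => ?_⟩
    obtain ⟨g1, g2⟩ := max_le_iff.1 hm
    have a1 := hk1 m g1 τ hτ
    have a2 := hk2 m g2 τ hτ
    obtain ⟨u1, u2⟩ := u
    cases t
    · exact absurd rfl ht
    · exact a1
    · cases u2
      · simp [bc6] at hb
      · exact a1
    · cases u1 <;> cases u2
      · simp [bc6] at hb
      · simp [bc6] at hb
      · simp [bc6] at hb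
      · exact a2

/-! ### the class formulas -/

/-- **the class formulas at rows `0`**: the 16 classes, D1, D1', almost every height -/
def ClsA06 : Prop := ∀ ep : ℝ, 0 < ep → ep ≤ 1 / 100 → ∃ m0 : ℕ, ∀ m ≥ m0,
  (∀ t t' : HT, ∀ᵐ y : ℝ × ℝ, ClsV6 (K06 ep m).Z par6 ep (Fil.xe m) t t' (vl (htL t) y.1)
    (vl (htL t') y.2) (cw06 ep m t t' y) (zPt6 (K06 ep m) m t t' y)) ∧
  ∀ o : Bool, ∀ᵐ y : ℝ, ClsD6 (K06 ep m).Z par6 ep (Fil.xe m) o (vl (-(11 / 4) * l) y)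
    (zPtD6 (K06 ep m) (kD06 ep m) m o y)

/-- W W at every height -/
theorem clsF06 (hFF : _root_.Pool.Agent.PLX.FFth) (h : ClsA06) : ClsF6 K06 kD06 cw06 where
  cls ep h0 h1 := by
    obtain ⟨m0, hm⟩ := h ep h0 h1
    exact ⟨m0, fun m hm' t t' => (hm m hm').1 t t'⟩
  clsW ep h0 h1 := clsW06 hFF h0 h1
  clsD ep h0 h1 := by
    obtain ⟨m0, hm⟩ := h ep h0 h1
    exact ⟨m0, fun m hm' o => (hm m hm').2 o⟩

/-- **the sums over the numbers at rows `0`** from the functionals with moduli -/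
theorem sumBd06 {F0 : ℕ → Bool → ℂ → ℂ}
    (hF : FaBd6 (T06 F0) (G06 [I, -I] F0).EM (G06 [I, -I] F0).MF fun ep m => (K06 ep m).Z)
    (hFF : _root_.Pool.Agent.PLX.FFth) (h : ClsA06) :
    SumBd6 (T06 F0) (G06 [I, -I] F0).EM (G06 [I, -I] F0).MF K06 kD06 cw06 :=
  sumBd6_of hF (clsF06 hFF h) (fun _ _ _ _ _ _ => cw6_nonneg _ _ _ _ _ _)
    fun _ _ _ _ _ _ hu => cw6_ok _ hu

end PBO.PLX

end
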