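import Pool.Agent.PHK.HoleD
import Pool.Agent.NUP1S.Eval

/-!
# The weights of the particle-hole identity in closed form

* `qr_zero : qr 0 = -kp`; **`WW_b`**: the weight of the doubled nodes;
* **`wG_d`**: the weight of the glued holes; **`one_hX`**: one free hole on the lines.
-/

set_option autoImplicit false
set_option linter.unusedSectionVars false

noncomputable section

open Complex MeasureTheory NUP1 Finset Filter Topology
open scoped Real
open Pool.Agent.PHD (one QP JJ oP xP JJ2 db hol qr WW wG gN hX lcn PP_univ WW_db wG_db gN_db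
  prod_db den_db q_qr sc_zero fG qg_even)
open NUP1.Bd (qg)

namespace NUP1S

/-- **the constant of a node** -/
theorem qr_zero : qr 0 = -kp := by
  unfold Pool.Agent.PHD.qr kp
  rw [sc_zero, zero_add, zero_sub, zero_add, zero_sub, sin_neg, sin_neg]
  ring

/-- the product over the ordered pairs -/
theorem prod_erase_PP {κ : Type*} [LinearOrder κ] [Fintype κ] (A : κ → κ → ℂ) :
    ∏ i, ∏ j ∈ univ.erase i, A i j = Pool.Agent.PHD.PP (fun i j => A i j * A j i) univ := by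
  rw [PP_univ]
  have e1 : ∀ i, ∏ j ∈ univ.erase i, A i j =
      (∏ j, if i < j then A i j else 1) * ∏ j, if j < i then A i j else 1 := by
    intro i
    rw [← prod_mul_distrib, ← mul_prod_erase univ _ (mem_univ i)]
    simp only [lt_irrefl, if_false, one_mul]
    refine prod_congr rfl fun j hj => ?_
    have hne : j ≠ i := (mem_erase.1 hj).1
    rcases lt_or_gt_of_ne hne with h | h
    · rw [if_neg h.not_gt, if_pos h, one_mul]
    · rw [if_pos h, if_neg h.not_gt, mul_one]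
  simp only [e1]
  rw [prod_mul_distrib]
  have e2 : ∏ i, ∏ j, (if j < i then A i j else 1) = ∏ i, ∏ j, if i < j then A j i else 1 := by
    rw [Finset.prod_comm]
  rw [e2, ← prod_mul_distrib]
  refine prod_congr rfl fun i _ => ?_
  rw [← prod_mul_distrib]
  refine prod_congr rfl fun j _ => ?_
  split_ifs
  · rfl
  · ring

theorem PP_mul {κ : Type*} [LinearOrder κ] (A B : κ → κ → ℂ) (S : Finset κ) :
    Pool.Agent.PHD.PP A S * Pool.Agent.PHD.PP B S = Pool.Agent.PHD.PP (fun i j => A i j * B i j) S := by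
  unfold Pool.Agent.PHD.PP
  rw [← prod_mul_distrib]

variable {κ κ' : Type*} [LinearOrder κ] [Fintype κ] [Fintype κ']

/-- **the weight of the doubled nodes** -/
theorem WW_b {b : κ → ℂ} {F : ℂ → ℂ} {rb : κ → ℂ}
    (hF : ∀ i, F (b i) = rb i * ∏ i' ∈ univ.erase i, (b i - b i') ^ 2) :
    WW F qr (db b) = (∏ i, (kp * rb i ^ 2)) * Pool.Agent.PHD.PP (fun i j => q (b i - b j) ^ 4) univ := by
  rw [WW_db, qr_zero]
  have e1 : ∏ i, (F (b i) ^ 2 * -(-kp)) =
      (∏ i, (kp * rb i ^ 2)) * ∏ i, ∏ i' ∈ univ.erase i, (b i - b i') ^ 4 := by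
    rw [← prod_mul_distrib]
    refine prod_congr rfl fun i _ => ?_
    rw [hF, mul_pow, ← prod_pow]
    have : ∏ i' ∈ univ.erase i, ((b i - b i') ^ 2) ^ 2 = ∏ i' ∈ univ.erase i, (b i - b i') ^ 4 :=
      prod_congr rfl fun _ _ => by ring
    rw [this]
    ring
  rw [e1, prod_erase_PP, mul_assoc, PP_mul]
  congr 2
  funext i j
  rw [q_qr]
  ring

/-- the hole function in the field of the nodes of the other species -/
theorem gN_hol (b : κ → ℂ) (b' : κ' → ℂ) (E : ℂ → ℂ) (z : ℂ) :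
    gN (hol (fun _ => E) qr (db b)) qg (db b') z =
      E z * (-kp / ∏ i, qr (z - b i) ^ 2) * lcn (db b) z * (∏ i, qg (z - b' i) ^ 2)⁻¹ := by
  rw [gN_db]
  unfold Pool.Agent.PHD.hol
  rw [prod_db b fun w => qr (z - w), qr_zero]
  have : ∏ i, qg (b' i - z) ^ 2 = ∏ i, qg (z - b' i) ^ 2 :=
    prod_congr rfl fun i _ => by rw [← qg_even, neg_sub]
  rw [this]

theorem prod_q (b : κ → ℂ) (z : ℂ) :
    (∏ i, (z - b i) ^ 2) * (∏ i, (z - b i) ^ 2) * ∏ i, qr (z - b i) ^ 2 = ∏ i, q (z - b i) ^ 2 := by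
  rw [← prod_mul_distrib, ← prod_mul_distrib]
  refine prod_congr rfl fun i _ => ?_
  rw [q_qr]
  ring

/-- **the weight of the glued holes** -/
theorem wG_d {ν : Type*} [LinearOrder ν] [Fintype ν] {b : κ → ℂ} {b' : κ' → ℂ} {d : ν → ℂ}
    {E : ℂ → ℂ} {rd : ν → ℂ} (hd : Function.Injective d)
    (hE : ∀ j, E (d j) * rd j * ∏ i, (d j - b i) ^ 2 = ∏ j' ∈ univ.erase j, (d j - d j'))
    (D : Finset ν) :
    wG (gN (hol (fun _ => E) qr (db b)) qg (db b')) q (db b) d D =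
      (∏ j ∈ D, (-kp * lcn (db b) (d j) /
        (rd j * (∏ i, q (d j - b i) ^ 2) * ∏ i, qg (d j - b' i) ^ 2))) *
        Pool.Agent.PHD.PP (fun j j' => q (d j - d j')) D := by
  rw [wG_db]
  congr 1
  refine prod_congr rfl fun j _ => ?_
  have h1 : ∏ j' ∈ univ.erase j, (d j - d j') ≠ 0 := prod_ne_zero_iff.2 fun j' hj' =>
    sub_ne_zero.2 fun e => (mem_erase.1 hj').1 (hd e).symm
  have h2 : E (d j) ≠ 0 := by
    intro h
    rw [← hE, h] at h1
    simp at h1
  rw [gN_hol, ← hE j, ← prod_q]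
  generalize E (d j) = e at h2
  generalize ∏ i, (d j - b i) ^ 2 = A
  generalize ∏ i, qr (d j - b i) ^ 2 = B
  generalize ∏ i, qg (d j - b' i) ^ 2 = C
  generalize lcn (db b) (d j) = L
  rw [div_eq_mul_inv, div_eq_mul_inv, div_eq_mul_inv]
  simp only [mul_inv]
  have : e * e⁻¹ = 1 := mul_inv_cancel₀ h2
  linear_combination (-kp * B⁻¹ * L * C⁻¹ * A⁻¹ * (rd j)⁻¹ * A⁻¹) * this

/-- **one free hole on the lines** -/
theorem one_hX {Ξ ν ν' : Type*} [Fintype ν] {γ k : Ξ → ℂ} {b : κ → ℂ} {b' : κ' → ℂ} {d : ν → ℂ}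
    {d' : ν' → ℂ} {W E : ℂ → ℂ} {x : Ξ}
    (hw : W (γ x) * (∏ i, (γ x - b i) ^ 2) * E (γ x) = ∏ j, (γ x - d j)) (hne : ∀ j, γ x ≠ d j)
    (D : Finset ν) (D' : Finset ν') :
    one γ k (hX (hol (fun _ => E) qr (db b)) q qg d D (db b') d' D') (Sum.elim (db b) d) x =
      k x * (-kp * lcn (db b) (γ x) /
        (W (γ x) * (∏ i, q (γ x - b i) ^ 2) * ∏ i, qg (γ x - b' i) ^ 2) *
        ((∏ j ∈ D, q (γ x - d j)) * ∏ j ∈ D', qg (γ x - d' j))) := by
  set z := γ x with hz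
  have h1 : ∏ j, (z - d j) ≠ 0 := prod_ne_zero_iff.2 fun j _ => sub_ne_zero.2 (hne j)
  have h2 : E z ≠ 0 := by
    intro h
    rw [← hw, h] at h1
    simp at h1
  unfold Pool.Agent.PHD.one Pool.Agent.PHD.hX Pool.Agent.PHD.fG
  rw [← hz, gN_hol, Fintype.prod_sum_type]
  simp only [Sum.elim_inl, Sum.elim_inr]
  rw [den_db, ← hw, ← prod_q]
  have e1 : ∏ j ∈ D', qg (d' j - z) = ∏ j ∈ D', qg (z - d' j) :=
    prod_congr rfl fun i _ => by rw [← qg_even, neg_sub]
  rw [e1]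
  generalize E z = e at h2
  generalize ∏ i, (z - b i) ^ 2 = A
  generalize ∏ i, qr (z - b i) ^ 2 = B
  generalize ∏ i, qg (z - b' i) ^ 2 = C
  generalize lcn (db b) z = L
  generalize W z = w
  rw [div_eq_mul_inv, div_eq_mul_inv, div_eq_mul_inv]
  simp only [mul_inv]
  have : e * e⁻¹ = 1 := mul_inv_cancel₀ h2
  linear_combination (k x * (-kp) * B⁻¹ * L * C⁻¹ * A⁻¹ * w⁻¹ * A⁻¹ *
    ((∏ j ∈ D, q (z - d j)) * ∏ j ∈ D', qg (z - d' j))) * this

end NUP1S

end
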