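import Pool.Agent.PHK.HoleE
import Pool.Agent.PHK.Coef
import Pool.Agent.PHD.SeaH

/-!
# The exact identity (P): the weights of the right side in closed form

* `bP`, **`cH_eval`**: the constant of the double points and of the glued holes;
* **`bH_true`, `bH_false`**: one free hole; **`gD_eval`**: one body functions of the quanta;
* `TH_eval`: the term of `h + h'` free holes.
-/

set_option autoImplicit false
set_option linter.unusedSectionVars false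

noncomputable section

open Complex MeasureTheory NUP1 Finset Filter Topology
open scoped Real
open Pool.Agent.PHD (one QP JJ oP xP JJ2 db hol qr WW wG gN hX lcn prod_db prod_db2 lcn_db)
open Pool.Agent.PHK (lM lG lK)
open NUP1.Bd (qg)

namespace NUP1S

section

variable {ιb ν ιb' ν' : Type} [LinearOrder ιb] [Fintype ιb] [LinearOrder ν] [Fintype ν]
  [LinearOrder ιb'] [Fintype ιb'] [LinearOrder ν'] [Fintype ν']

/-- the weight of the double points of a species: one body values `rb` -/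
def nodW (b : ιb → ℂ) (rb : ιb → ℂ) : ℂ :=
  (∏ i, (kp * rb i ^ 2)) * Pool.Agent.PHD.PP (fun i j => q (b i - b j) ^ 4) univ

/-- the weight of the glued holes `D` of a species: one body values `rd` -/
def gluW (b : ιb → ℂ) (b' : ιb' → ℂ) (d : ν → ℂ) (rd : ν → ℂ) (D : Finset ν) : ℂ :=
  (∏ j ∈ D, (-kp * PHK.loc b (d j) / (rd j * (∏ i, q (d j - b i) ^ 2) * ∏ i, qg (d j - b' i) ^ 2))) *
    Pool.Agent.PHD.PP (fun j j' => q (d j - d j')) D

/-- the weight of a free hole of a species at `z` -/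
def holW (W : ℂ → ℂ) (b : ιb → ℂ) (b' : ιb' → ℂ) (d : ν → ℂ) (D : Finset ν) (d' : ν' → ℂ)
    (D' : Finset ν') (z : ℂ) : ℂ :=
  -kp * PHK.loc b z / (W z * (∏ i, q (z - b i) ^ 2) * ∏ i, qg (z - b' i) ^ 2) *
    ((∏ j ∈ D, q (z - d j)) * ∏ j ∈ D', qg (z - d' j))

/-- **the constant in closed form** -/
theorem cH_eval {b : ιb → ℂ} {d : ν → ℂ} {b' : ιb' → ℂ} {d' : ν' → ℂ} {F E F' E' : ℂ → ℂ}
    {rb : ιb → ℂ} {rb' : ιb' → ℂ} {rd : ν → ℂ} {rd' : ν' → ℂ}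
    (hd : Function.Injective d) (hd' : Function.Injective d')
    (hF : ∀ i, F (b i) = rb i * ∏ i' ∈ univ.erase i, (b i - b i') ^ 2)
    (hF' : ∀ i, F' (b' i) = rb' i * ∏ i' ∈ univ.erase i, (b' i - b' i') ^ 2)
    (hE : ∀ j, E (d j) * rd j * ∏ i, (d j - b i) ^ 2 = ∏ j' ∈ univ.erase j, (d j - d j'))
    (hE' : ∀ j, E' (d' j) * rd' j * ∏ i, (d' j - b' i) ^ 2 = ∏ j' ∈ univ.erase j, (d' j - d' j'))
    (D : Finset ν) (D' : Finset ν') :
    cH b d D b' d' D' F E F' E' = nodW b rb * nodW b' rb' * (∏ i, ∏ i', qg (b i - b' i') ^ 4) *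
      (gluW b b' d rd D * gluW b' b d' rd' D' * ∏ j ∈ D, ∏ j' ∈ D', qg (d j - d' j')) := by
  unfold cH nodW gluW
  rw [WW_b hF, WW_b hF', wG_d hd hE, wG_d hd' hE', prod_db2]
  simp only [lcn_db]

/-- one free hole at a pole of the one body function (value `0`) -/
theorem one_hX0 {xl : Bool → ℝ} {b : ιb → ℂ} {d : ν → ℂ} {b' : ιb' → ℂ} {d' : ν' → ℂ}
    {W E : ℂ → ℂ} {ξ : Bool × ℝ} (h1 : W (lG xl ξ) = 0) (h2 : E (lG xl ξ) = 0) (D : Finset ν)
    (D' : Finset ν') :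
    one (lG xl) lK (hX (hol (fun _ => E) qr (db b)) q qg d D (db b') d' D') (Sum.elim (db b) d) ξ =
      lK ξ * holW W b b' d D d' D' (lG xl ξ) := by
  unfold holW Pool.Agent.PHD.one Pool.Agent.PHD.hX Pool.Agent.PHD.fG
  rw [gN_hol, h1, h2]
  simp

/-- **one free hole of the first species** -/
theorem bH_true {xl : Bool → ℝ} {b : ιb → ℂ} {d : ν → ℂ} {b' : ιb' → ℂ} {d' : ν' → ℂ}
    {W E : ℂ → ℂ} {ξ : Bool × ℝ}
    (hw : W (lG xl ξ) * (∏ i, (lG xl ξ - b i) ^ 2) * E (lG xl ξ) = ∏ j, (lG xl ξ - d j) ∨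
      (W (lG xl ξ) = 0 ∧ E (lG xl ξ) = 0))
    (hne : ∀ j, lG xl ξ ≠ d j) (D : Finset ν) (D' : Finset ν') (E' : ℂ → ℂ) :
    bH xl b d D b' d' D' E E' true ξ = lK ξ * holW W b b' d D d' D' (lG xl ξ) := by
  unfold bH bH1
  rw [if_pos rfl]
  rcases hw with hw | hw
  · unfold holW
    rw [one_hX hw hne, lcn_db]
  · exact one_hX0 hw.1 hw.2 D D'

/-- **one free hole of the second species** -/
theorem bH_false {xl : Bool → ℝ} {b : ιb → ℂ} {d : ν → ℂ} {b' : ιb' → ℂ} {d' : ν' → ℂ}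
    {W' E' : ℂ → ℂ} {ξ : Bool × ℝ}
    (hw : W' (lG xl ξ) * (∏ i, (lG xl ξ - b' i) ^ 2) * E' (lG xl ξ) = ∏ j, (lG xl ξ - d' j) ∨
      (W' (lG xl ξ) = 0 ∧ E' (lG xl ξ) = 0))
    (hne : ∀ j, lG xl ξ ≠ d' j) (D : Finset ν) (D' : Finset ν') (E : ℂ → ℂ) :
    bH xl b d D b' d' D' E E' false ξ = lK ξ * holW W' b' b d' D' d D (lG xl ξ) := by
  unfold bH bH1
  rw [if_neg (by decide)]
  rcases hw with hw | hw
  · unfold holW
    rw [one_hX hw hne, lcn_db]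
  · exact one_hX0 hw.1 hw.2 D' D

/-- **one body functions of the quanta** -/
theorem gD_eval (W : Bool → ℂ → ℂ) (b : ιb → ℂ) (d : ν → ℂ) (D : Finset ν) (b' : ιb' → ℂ)
    (d' : ν' → ℂ) (D' : Finset ν') (s : Bool) (u : ℂ) :
    gD W b d D b' d' D' s u = W s u * (((∏ i, PP s true (u - b i) ^ 2) *
      ∏ i, PP s false (u - b' i) ^ 2) * ((∏ j ∈ D, (PP s true (u - d j))⁻¹) *
        ∏ j ∈ D', (PP s false (u - d' j))⁻¹)) := by
  unfold gD
  rw [prod_db b fun w => PP s true (u - w), prod_db b' fun w => PP s false (u - w)]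

section sp

variable {xl : Bool → ℝ} {a a₁ x y b₁ b₂ yl κ κ' q0 : ℝ} {s : Bool} {b : ιb → ℂ} {d : ν → ℂ}
  {W F E : ℂ → ℂ}

/-- the hole lines avoid the zeros -/
theorem Sp6.ne_d (S : Sp6 xl a a₁ x y b₁ b₂ yl κ κ' q0 s b d W F E) (ξ : Bool × ℝ) (j : ν) :
    lG xl ξ ≠ d j := by
  intro e
  have h1 := S.din j
  have h2 : (lG xl ξ).re = xl ξ.1 := by
    rw [Pool.Agent.PHK.lG_re]
  rw [e] at h2
  rcases ξ with ⟨c, t⟩
  cases c
  · have : (d j).re = xl false := h2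
    linarith [h1.1]
  · have : (d j).re = xl true := h2
    linarith [h1.2]

/-- the one body function on the hole lines -/
theorem Sp6.wl' (S : Sp6 xl a a₁ x y b₁ b₂ yl κ κ' q0 s b d W F E) (ξ : Bool × ℝ) :
    W (lG xl ξ) * (∏ i, (lG xl ξ - b i) ^ 2) * E (lG xl ξ) = ∏ j, (lG xl ξ - d j) ∨
      (W (lG xl ξ) = 0 ∧ E (lG xl ξ) = 0) := by
  refine S.wl _ ?_
  rw [Pool.Agent.PHK.lG_re]
  rcases ξ with ⟨c, t⟩
  cases c
  · exact Or.inl rfl
  · exact Or.inr rfl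

end sp

/-- **the weight of the free holes** -/
theorem hW_eval {xl : Bool → ℝ} {a a₁ x y b₁ b₂ yl κ κ' q0 : ℝ} {b : ιb → ℂ} {d : ν → ℂ}
    {b' : ιb' → ℂ} {d' : ν' → ℂ} {W : Bool → ℂ → ℂ} {F E F' E' : ℂ → ℂ}
    (S : Sp6 xl a a₁ x y b₁ b₂ yl κ κ' q0 true b d (W true) F E)
    (S' : Sp6 xl a a₁ x y b₁ b₂ yl κ κ' q0 false b' d' (W false) F' E')
    (D : Finset ν) (D' : Finset ν') {h h' : ℕ}
    (p : (Fin h → Bool × ℝ) × (Fin h' → Bool × ℝ)) :
    hW (bH xl b d D b' d' D' E E') xl p =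
      ((∏ i, (lK (p.1 i) * holW (W true) b b' d D d' D' (lG xl (p.1 i)))) *
        ∏ i, (lK (p.2 i) * holW (W false) b' b d' D' d D (lG xl (p.2 i)))) *
      ((QP q fun i => lG xl (p.1 i)) * (QP q fun i => lG xl (p.2 i)) *
        xP (lG xl) (lG xl) qg p.1 p.2) := by
  unfold hW
  rw [gpw_holes]
  congr 1
  congr 1
  · exact prod_congr rfl fun i _ => bH_true (S.wl' _) (S.ne_d _) D D' E'
  · exact prod_congr rfl fun i _ => bH_false (S'.wl' _) (S'.ne_d _) D D' E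

end

end NUP1S

end
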