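import Pool.Agent.PHK.WordB
import Pool.Agent.PHK.WordE

/-!
# The particle-hole form (P): data of one word

* `bX`, `bY`: the points of the strings of the two species; `fW`: one body functions in the field of
  the objects; `rbW`, `rdW`: the values at the double points and at the zeros; `lnH`: the hole lines;
* `gHI_true`, `gHI_false`: the localisers.
-/

set_option autoImplicit false
set_option linter.unusedSectionVars false

noncomputable section

open Complex MeasureTheory Finset
open scoped Real ENNReal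

namespace PHK

open NUO NUP1 NUP1S NUP1S.Mg NUP1S.Ab NUP1S.AbG NURow
open NUP1.Bd (wt Ob)
open Pool.Agent.PHK (lM lG lK)
open Pool.Agent.PHD (QP xP)
open NUP1.Bd (qg)

/-- the hole lines -/
def lnH (P : Par6) (c : Bool) : ℝ := if c then (1 - P.j1) * l else (1 - P.j2) * l

section word

variable (Z : Bool → Option O3 → ℂ → ℂ) (P : Par6) {p p' a b : ℕ} (k : Fin p → O3) (k' : Fin p' → O3)
  (t : Fin p ⊕ Fin p' → ℝ)

/-- the points of the strings of the first species -/
def bX (i : {i : Fin p // k i = .S}) : ℂ := bW P k k' t (Sum.inl i.1)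

/-- the points of the strings of the second species -/
def bY (i : {i : Fin p' // k' i = .S}) : ℂ := bW P k k' t (Sum.inr i.1)

/-- one body functions in the field of the objects -/
def fW (s : Bool) (u : ℂ) : ℂ :=
  fld (o3 k k') (pos (Sum.elim (fun i => lnK P (k i)) (fun i => lnK P (k' i))) t) (s, .A)
    (Z s none) u

/-- the values at the double points -/
def rbW (i : Fin p ⊕ Fin p') : ℂ := Z (!(sW i)) none (bW P k k' t i) * cAW *
  ∏ j ∈ univ.erase i, gz (!(sW i), .A) (o3 k k' j) (bW P k k' t i - zW P k k' t j)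

/-- the values at the zeros -/
def rdW (i : Fin p ⊕ Fin p') : ℂ := Z (sW i) none (bW P k k' t i) * cdW *
  ∏ j ∈ univ.erase i, gz (sW i, .A) (o3 k k' j) (bW P k k' t i - zW P k k' t j)

/-- the letters, `D` = the strings with a glued hole -/
abbrev kD {p : ℕ} (k : Fin p → O3) (D : Finset {i : Fin p // k i = .S}) (i : Fin p) : Ka6 :=
  kaD (k i) (decide (i ∈ D.map (Function.Embedding.subtype _)))

variable (D : Finset {i : Fin p // k i = .S}) (D' : Finset {i : Fin p' // k' i = .S})
  (y : Fin a ⊕ Fin b → Bool × ℝ)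

/-- the family -/
abbrev fmW : (Fin p ⊕ Fin p') ⊕ (Fin a ⊕ Fin b) → Xo := famW (kD k D) (kD k' D') t y

/-- the objects -/
abbrev ojW (i : Fin p ⊕ Fin p') : Xo :=
  xW k k' t (D.map (Function.Embedding.subtype _)) (D'.map (Function.Embedding.subtype _)) i

/-- the holes -/
abbrev hoW (j : Fin a ⊕ Fin b) : Xo := xo (j.isLeft, kdH (y j).1) (y j).2

/-- constant of the double points and of the glued holes -/
def clW : ℂ :=
  nodW (bY P k k' t) (fun i => rbW Z P k k' t (Sum.inr i.1)) *
    nodW (bX P k k' t) (fun i => rbW Z P k k' t (Sum.inl i.1)) *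
    (∏ i, ∏ i', qg (bY P k k' t i - bX P k k' t i') ^ 4) *
    (gluW (bY P k k' t) (bX P k k' t) (bX P k k' t) (fun j => rdW Z P k k' t (Sum.inl j.1)) D *
      gluW (bX P k k' t) (bY P k k' t) (bY P k k' t) (fun j => rdW Z P k k' t (Sum.inr j.1)) D' *
      ∏ j ∈ D, ∏ j' ∈ D', qg (bX P k k' t j - bY P k k' t j'))

/-- the weight of the free holes -/
def hlW : ℂ :=
  ((∏ i, (lK (y (.inl i)) * holW (fW Z P k k' t true) (bY P k k' t) (bX P k k' t) (bX P k k' t) D
      (bY P k k' t) D' (lG (lnH P) (y (.inl i))))) *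
    ∏ i, (lK (y (.inr i)) * holW (fW Z P k k' t false) (bX P k k' t) (bY P k k' t) (bY P k k' t) D'
      (bX P k k' t) D (lG (lnH P) (y (.inr i))))) *
    ((QP q fun i => lG (lnH P) (y (.inl i))) * (QP q fun i => lG (lnH P) (y (.inr i))) *
      xP (lG (lnH P)) (lG (lnH P)) qg (fun i => y (.inl i)) fun i => y (.inr i))

theorem fmW_inl (i : Fin p ⊕ Fin p') : fmW k k' t D D' y (Sum.inl i) = ojW k k' t D D' i :=
  famW_inl k k' t _ _ y i

theorem fmW_inr (j : Fin a ⊕ Fin b) : fmW k k' t D D' y (Sum.inr j) = hoW y j := rfl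

theorem isE_ho (j : Fin a ⊕ Fin b) : ¬ isE (hoW y j) := by
  unfold isE hoW
  rw [k6_xo']
  cases (y j).1 <;> simp [kdH]

theorem isE_oj (i : Fin p ⊕ Fin p') : isE (ojW k k' t D D' i) ↔ kkW k k' i = .S := by
  unfold isE ojW xW
  rw [k6_xo']
  rcases h : kkW k k' i with _ | _ | _ <;>
    cases decide (i ∈ (D.map (Function.Embedding.subtype _)).disjSum
      (D'.map (Function.Embedding.subtype _))) <;> simp [kdA, kaD]

theorem prod_str {q : ℕ} (κ : Fin q → O3) (f : Fin q → ℂ) :
    (∏ i, if κ i = .S then f i else 1) = ∏ i : {i : Fin q // κ i = .S}, f i.1 := by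
  rw [← Finset.prod_filter]
  exact Finset.prod_subtype _ (by simp) f

theorem sp_oj (i : Fin p ⊕ Fin p') : sp (ojW k k' t D D' i) = sW i := sp_xo' _ _ _

theorem ht_oj (i : Fin p ⊕ Fin p') : ht (ojW k k' t D D' i) = t i := ht_xo' _ _ _

theorem gHI_aux (s : Bool) (h : ℂ) : gHI P (fmW k k' t D D' y) s h =
    1 - ∏ i, if sW i = !s ∧ kkW k k' i = .S then tau (h - bW P k k' t i) else 1 := by
  unfold gHI
  rw [Fintype.prod_sum_type]
  have e1 : ∏ j : Fin a ⊕ Fin b, (if sp (fmW k k' t D D' y (Sum.inr j)) = !s ∧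
      isE (fmW k k' t D D' y (Sum.inr j)) then tau6 (h - posB P.e (ht (fmW k k' t D D' y (Sum.inr j))))
      else 1) = 1 := Finset.prod_eq_one fun j _ => if_neg fun hc => isE_ho y j hc.2
  rw [e1, mul_one]
  congr 1
  refine Finset.prod_congr rfl fun i _ => ?_
  rw [fmW_inl, sp_oj, ht_oj]
  by_cases hk : kkW k k' i = .S
  · rw [bW_S P k k' t hk]
    exact if_congr (and_congr_right fun _ => by rw [isE_oj]) rfl rfl
  · rw [if_neg fun hc => hk ((isE_oj k k' t D D' i).1 hc.2), if_neg fun hc => hk hc.2]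

/-- the localiser of the first species -/
theorem gHI_true (h : ℂ) : gHI P (fmW k k' t D D' y) true h = loc (bY P k k' t) h := by
  rw [gHI_aux, Fintype.prod_sum_type]
  unfold loc bY
  rw [← prod_str k' fun i => tau (h - bW P k k' t (Sum.inr i))]
  congr 1
  rw [Finset.prod_eq_one, one_mul]
  · refine Finset.prod_congr rfl fun i _ => ?_
    exact if_congr (by simp [sW, kkW]) rfl rfl
  · intro i _
    rw [if_neg]
    simp [sW]

/-- the localiser of the second species -/
theorem gHI_false (h : ℂ) : gHI P (fmW k k' t D D' y) false h = loc (bX P k k' t) h := by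
  rw [gHI_aux, Fintype.prod_sum_type]
  unfold loc bX
  rw [← prod_str k fun i => tau (h - bW P k k' t (Sum.inl i))]
  congr 1
  rw [mul_comm, Finset.prod_eq_one, one_mul]
  · refine Finset.prod_congr rfl fun i _ => ?_
    exact if_congr (by simp [sW, kkW]) rfl rfl
  · intro i _
    rw [if_neg]
    simp [sW]

end word

end PHK

end
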