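import Pool.Agent.PHK.HostFK
import Pool.Agent.PHK.WordD

/-!
# PLAX (P): the host of the holes of a word (helper45)

`zX`, `zY` = the strings of the two species, `KW s` = the other factors of the field at a quantum of the species `s`.
**`sp6_true`**, **`sp6_false`** : `Sp6` for the field `fW` of a word.
-/

set_option autoImplicit false
set_option linter.unusedSectionVars false
set_option linter.unusedVariables false

noncomputable section

open Complex MeasureTheory Finset
open scoped Real ENNReal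

namespace PHK

open NUO NUP1 NUP1S NUP1S.Mg NUP1S.Ab NUP1S.AbG NURow NUP1S.HF
open NUP1.Bd (wt Ob qg cwz pwz)
open Pool.Agent.PHK (lM lG lK)

section word

variable (Z : Bool → Option O3 → ℂ → ℂ) (P : Par6) {p p' : ℕ} (k : Fin p → O3) (k' : Fin p' → O3)
  (t : Fin p ⊕ Fin p' → ℝ)

/-- the strings of the first species -/
abbrev zX (i : {i : Fin p // k i = .S}) : ℂ := zW P k k' t (Sum.inl i.1)

/-- the strings of the second species -/
abbrev zY (i : {i : Fin p' // k' i = .S}) : ℂ := zW P k k' t (Sum.inr i.1)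

/-- the other factors -/
def KW (s : Bool) (u : ℂ) : ℂ :=
  ∏ i, if kkW k k' i = .S then 1 else gz (s, .A) (o3 k k' i) (u - zW P k k' t i)

/-- their rate -/
def rKW (s : Bool) : ℝ := ∑ i : Fin p ⊕ Fin p', if kkW k k' i = .S then 0 else rt (s, .A) (o3 k k' i)

theorem o3_eq (i : Fin p ⊕ Fin p') : o3 k k' i = (sW i, ob3 (kkW k k' i)) := by
  rcases i with i | i <;> rfl

/-- the field of a word -/
theorem fW_split (s : Bool) (u : ℂ) : fW Z P k k' t s u = Z s none u *
    (∏ i : {i : Fin p // k i = .S}, gz (s, .A) (true, .S) (u - zX P k k' t i)) *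
    (∏ i : {i : Fin p' // k' i = .S}, gz (s, .A) (false, .S) (u - zY P k k' t i)) * KW P k k' t s u := by
  unfold fW fld
  have e1 : ∀ i : Fin p ⊕ Fin p', gz (s, .A) (o3 k k' i)
      (u - pos (Sum.elim (fun i => lnK P (k i)) (fun i => lnK P (k' i))) t i) =
      (if kkW k k' i = .S then gz (s, .A) (sW i, .S) (u - zW P k k' t i) else 1) *
        if kkW k k' i = .S then 1 else gz (s, .A) (o3 k k' i) (u - zW P k k' t i) := by
    intro i
    by_cases h : kkW k k' i = .S
    · rw [if_pos h, if_pos h, mul_one, o3_eq, h]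
      rfl
    · rw [if_neg h, if_neg h, one_mul]
      rfl
  rw [Finset.prod_congr rfl fun i _ => e1 i, Finset.prod_mul_distrib, Fintype.prod_sum_type]
  have e2 : ∏ i : Fin p, (if kkW k k' (Sum.inl i) = .S then gz (s, .A) (sW (Sum.inl i : Fin p ⊕ Fin p'), .S)
      (u - zW P k k' t (Sum.inl i)) else 1) =
      ∏ i : {i : Fin p // k i = .S}, gz (s, .A) (true, .S) (u - zX P k k' t i) :=
    prod_str k fun i => gz (s, .A) (true, .S) (u - zW P k k' t (Sum.inl i))
  have e3 : ∏ i : Fin p', (if kkW k k' (Sum.inr i) = .S then gz (s, .A) (sW (Sum.inr i : Fin p ⊕ Fin p'), .S)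
      (u - zW P k k' t (Sum.inr i)) else 1) =
      ∏ i : {i : Fin p' // k' i = .S}, gz (s, .A) (false, .S) (u - zY P k k' t i) :=
    prod_str k' fun i => gz (s, .A) (false, .S) (u - zW P k k' t (Sum.inr i))
  rw [e2, e3]
  unfold KW
  ring

theorem fW_true : fW Z P k k' t true =
    WH (Z true none) (zX P k k' t) (zY P k k' t) (KW P k k' t true) := by
  funext u
  rw [fW_split]
  rfl

theorem fW_false : fW Z P k k' t false =
    WH (Z false none) (zY P k k' t) (zX P k k' t) (KW P k k' t false) := by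
  funext u
  rw [fW_split]
  have e1 : ∀ w, gz (false, .A) (true, .S) w = cA w := fun w => rfl
  have e2 : ∀ w, gz (false, .A) (false, .S) w = q1 w := fun w => rfl
  simp only [e1, e2]
  unfold WH
  ring

/-- charges -/
theorem rate_eq (s : Bool) : 4 * (Fintype.card {i : Fin p // k i = .S} : ℝ) * (if s then 1 else -1) +
    4 * (Fintype.card {i : Fin p' // k' i = .S} : ℝ) * (if s then -1 else 1) + rKW k k' s =
    2 * ((sg s : ℤ) : ℝ) * ((∑ i, (c3 (k i) : ℝ)) - ∑ i, (c3 (k' i) : ℝ)) := by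
  have h1 : ∀ i : Fin p ⊕ Fin p', rt (s, .A) (sW i, ob3 (kkW k k' i)) =
      2 * ((sg s : ℤ) : ℝ) * (if sW i then (c3 (kkW k k' i) : ℝ) else -(c3 (kkW k k' i) : ℝ)) := by
    intro i
    unfold rt sc sg c3
    cases s <;> simp [Bd.chg]
  have h2 : ∑ i : Fin p ⊕ Fin p', rt (s, .A) (sW i, ob3 (kkW k k' i)) =
      2 * ((sg s : ℤ) : ℝ) * ((∑ i, (c3 (k i) : ℝ)) - ∑ i, (c3 (k' i) : ℝ)) := by
    rw [Finset.sum_congr rfl fun i _ => h1 i, ← Finset.mul_sum, Fintype.sum_sum_type]
    congr 1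
    simp [sW, kkW, sub_eq_add_neg]
  have h3 : ∑ i : Fin p ⊕ Fin p', rt (s, .A) (sW i, ob3 (kkW k k' i)) =
      (∑ i : Fin p ⊕ Fin p', if kkW k k' i = .S then rt (s, .A) (sW i, ob3 (kkW k k' i)) else 0) + rKW k k' s := by
    unfold rKW
    simp only [o3_eq]
    rw [← Finset.sum_add_distrib]
    refine Finset.sum_congr rfl fun i _ => ?_
    split_ifs <;> simp
  have h4 : (∑ i : Fin p ⊕ Fin p', if kkW k k' i = .S then rt (s, .A) (sW i, ob3 (kkW k k' i)) else 0) =
      4 * (Fintype.card {i : Fin p // k i = .S} : ℝ) * (if s then 1 else -1) +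
        4 * (Fintype.card {i : Fin p' // k' i = .S} : ℝ) * (if s then -1 else 1) := by
    rw [Fintype.sum_sum_type]
    have e1 : ∀ i : Fin p, (if kkW k k' (Sum.inl i) = .S then
        rt (s, .A) (sW (Sum.inl i : Fin p ⊕ Fin p'), ob3 (kkW k k' (Sum.inl i))) else 0) =
        if k i = .S then 4 * (if s then (1 : ℝ) else -1) else 0 := by
      intro i
      show (if k i = .S then rt (s, .A) (true, ob3 (k i)) else 0) = _
      by_cases h : k i = .S
      · rw [if_pos h, if_pos h, h]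
        unfold rt sc
        cases s <;> simp [Bd.chg, ob3] <;> norm_num
      · rw [if_neg h, if_neg h]
    have e2 : ∀ i : Fin p', (if kkW k k' (Sum.inr i) = .S then
        rt (s, .A) (sW (Sum.inr i : Fin p ⊕ Fin p'), ob3 (kkW k k' (Sum.inr i))) else 0) =
        if k' i = .S then 4 * (if s then (-1 : ℝ) else 1) else 0 := by
      intro i
      show (if k' i = .S then rt (s, .A) (false, ob3 (k' i)) else 0) = _
      by_cases h : k' i = .S
      · rw [if_pos h, if_pos h, h]
        unfold rt sc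
        cases s <;> simp [Bd.chg, ob3] <;> norm_num
      · rw [if_neg h, if_neg h]
    rw [Finset.sum_congr rfl fun i _ => e1 i, Finset.sum_congr rfl fun i _ => e2 i, ← Finset.sum_filter,
      ← Finset.sum_filter, Finset.sum_const, Finset.sum_const, nsmul_eq_mul, nsmul_eq_mul,
      Fintype.card_subtype, Fintype.card_subtype]
    ring
  rw [← h2, h3, h4]

/-! ### the other factors -/

theorem zW_re (i : Fin p ⊕ Fin p') : (zW P k k' t i).re = lnK P (kkW k k' i) := by
  unfold zW pos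
  rcases i with i | i <;> simp [vl, kkW]

variable {P k k' t}

theorem rng_dk (hP : GoodP6 P) {u : ℂ} (h0 : 0 ≤ u.re) (h1 : u.re ≤ l) {i : Fin p ⊕ Fin p'} (hi : kkW k k' i ≠ .S) :
    (u - zW P k k' t i).re ∈ DK (kkW k k' i) := by
  have hl := Bd.l_pos
  have a1 := hP.L2
  have a2 := hP.Lj
  have a3 := hP.j1e
  have a4 := hP.e45
  rw [sub_re, zW_re]
  unfold DK
  rcases h : kkW k k' i with _ | _ | _
  · rw [if_pos rfl]
    show u.re - (1 - P.jL) * l ∈ _
    constructor <;> nlinarith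
  · exact absurd h hi
  · rw [if_neg (by decide)]
    show u.re - -(l / 2) ∈ _
    constructor <;> linarith

theorem rng_nk (hP : GoodP6 P) {u : ℂ} (h0 : 0 ≤ u.re) (h1 : u.re < (3 - P.jL) * l) {i : Fin p ⊕ Fin p'}
    (hi : kkW k k' i ≠ .S) : (u - zW P k k' t i).re ∈ NK (kkW k k' i) := by
  have hl := Bd.l_pos
  have a1 := hP.L2
  have a2 := hP.Lj
  have a3 := hP.j1e
  have a4 := hP.e45
  rw [sub_re, zW_re]
  unfold NK
  rcases h : kkW k k' i with _ | _ | _
  · rw [if_pos rfl]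
    show u.re - (1 - P.jL) * l ∈ _
    constructor <;> nlinarith
  · exact absurd h hi
  · rw [if_neg (by decide)]
    show u.re - -(l / 2) ∈ _
    constructor <;> nlinarith

theorem KW_diff (hP : GoodP6 P) (s : Bool) {u : ℂ} (h0 : 0 ≤ u.re) (h1 : u.re ≤ l) :
    DifferentiableAt ℂ (KW P k k' t s) u := by
  unfold KW
  simp only [o3_eq]
  refine DifferentiableAt.fun_finsetProd fun i _ => ?_
  by_cases hi : kkW k k' i = .S
  · simp only [if_pos hi]
    exact differentiableAt_const _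
  · simp only [if_neg hi]
    exact DifferentiableAt.comp (g := gz (s, .A) (sW i, ob3 (kkW k k' i))) (f := fun u => u - zW P k k' t i) u
      (gz_diff (rng_dk hP h0 h1 hi) _ _) (by fun_prop)

theorem KW_ne (hP : GoodP6 P) (s : Bool) {u : ℂ} (h0 : 0 ≤ u.re) (h1 : u.re < (3 - P.jL) * l) :
    KW P k k' t s u ≠ 0 := by
  unfold KW
  simp only [o3_eq]
  refine Finset.prod_ne_zero_iff.2 fun i _ => ?_
  by_cases hi : kkW k k' i = .S
  · rw [if_pos hi]
    exact one_ne_zero
  · rw [if_neg hi]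
    exact NUP1S.HF.gz_ne (rng_nk hP h0 h1 hi) _ _

theorem KW_meas (s : Bool) : Measurable (KW P k k' t s) := by
  unfold KW
  refine Finset.measurable_prod _ fun i _ => ?_
  by_cases hi : kkW k k' i = .S
  · simp only [if_pos hi]
    exact measurable_const
  · simp only [if_neg hi]
    exact (measurable_gz _ _).comp (measurable_id.sub_const _)

theorem KW_low (hP : GoodP6 P) (s : Bool) {u v : ℝ} (h0 : 0 ≤ u) (h1 : v < (3 - P.jL) * l) :
    Lw (Set.Icc u v) (rKW k k' s) (KW P k k' t s) := by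
  unfold KW rKW
  simp only [o3_eq]
  refine lw_prod fun i => ?_
  by_cases hi : kkW k k' i = .S
  · simp only [if_pos hi]
    exact ⟨1, one_pos, fun z _ => by simp⟩
  · simp only [if_neg hi]
    refine Lw.translate (lw_gz (Set.Icc u v |> fun _ => isCompact_Icc.image (by fun_prop)) ?_ _ _)
    rintro _ ⟨r, hr, rfl⟩
    have := rng_nk (t := t) hP (u := ((r : ℝ) : ℂ)) (by rw [ofReal_re]; linarith [hr.1])
      (by rw [ofReal_re]; linarith [hr.2]) hi
    rwa [sub_re, ofReal_re, sub_eq_add_neg] at this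

theorem KW_up (hP : GoodP6 P) (s : Bool) : Bdd {(l : ℝ)} (rKW k k' s) (KW P k k' t s) := by
  have hl := Bd.l_pos
  unfold KW rKW
  simp only [o3_eq]
  have key : ∀ i : Fin p ⊕ Fin p', Bdd {(l : ℝ)} (if kkW k k' i = .S then 0 else rt (s, .A) (sW i, ob3 (kkW k k' i)))
      (fun u => if kkW k k' i = .S then 1 else gz (s, .A) (sW i, ob3 (kkW k k' i)) (u - zW P k k' t i)) := by
    intro i
    by_cases hi : kkW k k' i = .S
    · simp only [if_pos hi]
      exact ⟨1, zero_le_one, fun z _ => by simp⟩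
    · simp only [if_neg hi]
      refine Bdd.translate (bdd_gz (isCompact_singleton.image (by fun_prop)) _ _ ?_)
      rintro _ ⟨r, hr, rfl⟩
      rw [Set.mem_singleton_iff.1 hr]
      have := rng_dk (t := t) hP (u := ((l : ℝ) : ℂ)) (by rw [ofReal_re]; exact hl.le) (by rw [ofReal_re]) hi
      rw [sub_re, ofReal_re, sub_eq_add_neg] at this
      exact ok_dk this _ _
  choose C hC h using key
  refine ⟨∏ i, C i, Finset.prod_nonneg fun i _ => hC i, fun u hu => ?_⟩
  rw [norm_prod, Finset.sum_mul, Real.exp_sum, ← Finset.prod_mul_distrib]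
  exact Finset.prod_le_prod (fun i _ => norm_nonneg _) fun i _ => h i u hu

/-! ### the class -/

/-- **the one body function of a species of a class**: zeros `ζ j` in the strip of the holes, `Ei` = inverse
without its poles -/
structure HCl (Z : Bool → Option O3 → ℂ → ℂ) (P : Par6) (a a₁ b₁ b₂ κ κZ Q : ℝ) (s : Bool) {ν : Type} [Fintype ν]
    (ζ : ν → ℂ) (Ei : ℂ → ℂ) : Prop where
  inj : Function.Injective ζ
  st : ∀ j, (1 - P.j2) * l < (ζ j).re ∧ (ζ j).re < (1 - P.j1) * l
  gan : DifferentiableOn ℂ (Z s none) (OS a₁ b₁)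
  ean : DifferentiableOn ℂ Ei (OS a b₂)
  ge : ∀ u ∈ OS a₁ b₁, u ∈ OS a b₂ → Z s none u * Ei u = ∏ j, (u - ζ j)
  gl : ∀ u : ℂ, u.re = (1 - P.j2) * l ∨ u.re = (1 - P.j1) * l →
    Z s none u * Ei u = ∏ j, (u - ζ j) ∨ (Z s none u = 0 ∧ Ei u = 0)
  eb : Bdd (Set.Icc ((1 - P.j2) * l) ((1 - P.j1) * l)) (κZ + 2 * Q * sc (s, Ob.A)) Ei
  gm : Measurable (Z s none)
  gb : DecOn (κ + 2 * Q * sc (s, Ob.A)) {(l : ℝ)} (Z s none)

theorem decOn_bdd {κ : ℝ} {K : Set ℝ} {f : ℂ → ℂ} (h : DecOn κ K f) : Bdd K (-κ) f := by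
  obtain ⟨D, hD⟩ := h
  refine ⟨max D 0, le_max_right _ _, fun z hz => (hD z hz).trans ?_⟩
  rw [← neg_mul]
  exact mul_le_mul_of_nonneg_right (le_max_left _ _) (Real.exp_pos _).le

variable {Z} {a a₁ x y b₁ b₂ κ κZ κ' Q : ℝ}

/-- the sum of the charges of the objects -/
def cW (k : Fin p → O3) (k' : Fin p' → O3) : ℝ := (∑ i, (c3 (k i) : ℝ)) - ∑ i, (c3 (k' i) : ℝ)

theorem hfin_of {α β ν : Type} [Fintype α] [Fintype β] [Fintype ν] {s : Bool} {zo : α → ℂ} {zt : β → ℂ}
    {ζ : ν → ℂ} {Ei : ℂ → ℂ} (hP : GoodP6 P) (M : Geo6 (lnH P) a a₁ x y b₁ b₂ l) (ha : 0 ≤ a)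
    (hx : x < (1 - P.e) * l) (hy : (1 - P.e) * l < y) (hb₁ : b₁ ≤ l) (hb₂ : b₂ ≤ (3 - P.jL) * l)
    (h : HCl Z P a a₁ b₁ b₂ κ κZ Q s ζ Ei) (hκ : κZ < κ') (ro : ∀ i, (zo i).re = -((1 + P.e) * l))
    (rt' : ∀ i, (zt i).re = -((1 + P.e) * l)) (io : Function.Injective zo) (ot : ∀ i i', zt i ≠ zo i')
    (zz : ∀ i j, zo i + 2 * l ≠ ζ j) (zz' : ∀ i j, zt i + 2 * l ≠ ζ j)
    (hr : 4 * (Fintype.card α : ℝ) - 4 * Fintype.card β + rKW k k' s = 2 * ((sg s : ℤ) : ℝ) * cW k k') :
    HFin (lnH P) a a₁ b₁ b₂ l κ κ' (Q - cW k k') s zo zt ζ (Z s none) Ei (KW P k k' t s) x y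
      (κZ + 2 * Q * sc (s, Ob.A)) (rKW k k' s) := by
  have hl := Bd.l_pos
  obtain ⟨M1, M2, M3, M4, M5, M6, M7, M8, M9, M10, M11⟩ := M
  have e1 : lnH P true = (1 - P.j1) * l := rfl
  have e2 : lnH P false = (1 - P.j2) * l := rfl
  rw [e1] at M4 M9
  rw [e2] at M1 M2
  have a1 := hP.j2
  have esc : sc (s, Ob.A) = ((sg s : ℤ) : ℝ) := sc_sA s
  have hj2 : 0 ≤ (1 - P.j2) * l := mul_nonneg (by linarith) hl.le
  constructor
  · intro i
    rw [ro i]
    constructor <;> nlinarith
  · intro i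
    rw [rt' i]
    constructor <;> nlinarith
  · intro j
    rw [e1, e2]
    exact h.st j
  · -- inj
    intro i j hij
    unfold dH at hij
    rcases hi : ofLex i with i' | i' <;> rcases hj : ofLex j with j' | j' <;> rw [hi, hj] at hij
    · have h1 : i' = j' := io (add_right_cancel hij)
      rw [h1, ← hj] at hi
      exact ofLex.injective hi
    · exact absurd hij (zz i' j')
    · exact absurd hij.symm (zz j' i')
    · have h1 : i' = j' := h.inj hij
      rw [h1, ← hj] at hi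
      exact ofLex.injective hi
  · -- bd
    intro i j hij
    unfold dH bT at hij
    rcases hj : ofLex j with j' | j' <;> rw [hj] at hij
    · exact ot i j' (add_right_cancel hij)
    · exact zz' i j' hij
  · exact h.gan
  · intro u hu
    exact (KW_diff hP s (by linarith [hu.1]) (by linarith [hu.2])).differentiableWithinAt
  · exact h.ean
  · intro u hu
    exact ((KW_diff hP s (by linarith [hu.1]) (by linarith [hu.2])).inv
      (KW_ne hP s (by linarith [hu.1]) (by linarith [hu.2]))).differentiableWithinAt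
  · intro u hu
    exact KW_ne hP s (by linarith [hu.1]) (by linarith [hu.2])
  · exact h.ge
  · intro u hu
    rw [e1, e2] at hu
    exact h.gl u hu
  · rw [e1, e2]
    exact h.eb
  · rw [e1, e2]
    exact Lw.inv (KW_low hP s hj2 (by linarith))
  · rw [esc]
    have h1 : (κZ + 2 * Q * ((sg s : ℤ) : ℝ)) - 4 * Fintype.card α + 4 * Fintype.card β - rKW k k' s =
        κZ + 2 * (Q - cW k k') * ((sg s : ℤ) : ℝ) := by linear_combination -hr
    rw [h1]
    linarith
  · exact h.gm
  · exact KW_meas s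
  · have h1 : -(κ + 2 * (Q - cW k k') * ((sg s : ℤ) : ℝ)) -
        (4 * Fintype.card α - 4 * Fintype.card β + rKW k k' s) = -(κ + 2 * Q * sc (s, Ob.A)) := by
      rw [esc]
      linear_combination -hr
    rw [h1]
    exact decOn_bdd h.gb
  · exact KW_up hP s

theorem zX_re (i : {i : Fin p // k i = .S}) : (zX P k k' t i).re = -((1 + P.e) * l) := by
  rw [zW_re]
  show lnK P (k i.1) = _
  rw [i.2]
  rfl

theorem zY_re (i : {i : Fin p' // k' i = .S}) : (zY P k k' t i).re = -((1 + P.e) * l) := by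
  rw [zW_re]
  show lnK P (k' i.1) = _
  rw [i.2]
  rfl

theorem zW_im (i : Fin p ⊕ Fin p') : (zW P k k' t i).im = t i := by
  unfold zW pos
  simp [vl]

theorem bW_im (i : Fin p ⊕ Fin p') : (bW P k k' t i).im = t i := by
  unfold bW
  rw [add_im, zW_im]
  simp

/-- **the first species**: double poles `bY`, zeros = own strings, zeros of the class -/
theorem sp6_true {ν : Type} [Fintype ν] {ζ : ν → ℂ} {Ei : ℂ → ℂ} (hP : GoodP6 P)
    (M : Geo6 (lnH P) a a₁ x y b₁ b₂ l) (ha : 0 ≤ a) (hx : x < (1 - P.e) * l) (hy : (1 - P.e) * l < y)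
    (hb₁ : b₁ ≤ l) (hb₂ : b₂ ≤ (3 - P.jL) * l) (h : HCl Z P a a₁ b₁ b₂ κ κZ Q true ζ Ei) (hκ : κZ < κ')
    (ht : Function.Injective t) (hz : ∀ i j, bW P k k' t i ≠ ζ j) :
    Sp6 (lnH P) a a₁ x y b₁ b₂ l κ κ' (Q - cW k k') true (bY P k k' t) (dH (zX P k k' t) ζ)
      (fW Z P k k' t true) (FH (Z true none) (zX P k k' t) (zY P k k' t) (KW P k k' t true))
      (EH Ei (zX P k k' t) (zY P k k' t) (KW P k k' t true)) := by
  rw [fW_true]
  refine sp6_of M (hfin_of hP M ha hx hy hb₁ hb₂ h hκ zX_re zY_re ?_ ?_ ?_ ?_ ?_)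
  · intro i j hij
    have h1 := congrArg Complex.im hij
    rw [zW_im, zW_im] at h1
    exact Subtype.ext (Sum.inl_injective (ht h1))
  · intro i j hij
    have h1 := congrArg Complex.im hij
    rw [zW_im, zW_im] at h1
    exact Sum.inr_ne_inl (ht h1)
  · exact fun i j => hz (Sum.inl i.1) j
  · exact fun i j => hz (Sum.inr i.1) j
  · have := rate_eq k k' true
    unfold cW
    rw [← this]
    simp
    ring

/-- **the second species** -/
theorem sp6_false {ν : Type} [Fintype ν] {ζ : ν → ℂ} {Ei : ℂ → ℂ} (hP : GoodP6 P)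
    (M : Geo6 (lnH P) a a₁ x y b₁ b₂ l) (ha : 0 ≤ a) (hx : x < (1 - P.e) * l) (hy : (1 - P.e) * l < y)
    (hb₁ : b₁ ≤ l) (hb₂ : b₂ ≤ (3 - P.jL) * l) (h : HCl Z P a a₁ b₁ b₂ κ κZ Q false ζ Ei) (hκ : κZ < κ')
    (ht : Function.Injective t) (hz : ∀ i j, bW P k k' t i ≠ ζ j) :
    Sp6 (lnH P) a a₁ x y b₁ b₂ l κ κ' (Q - cW k k') false (bX P k k' t) (dH (zY P k k' t) ζ)
      (fW Z P k k' t false) (FH (Z false none) (zY P k k' t) (zX P k k' t) (KW P k k' t false))
      (EH Ei (zY P k k' t) (zX P k k' t) (KW P k k' t false)) := by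
  rw [fW_false]
  refine sp6_of M (hfin_of hP M ha hx hy hb₁ hb₂ h hκ zY_re zX_re ?_ ?_ ?_ ?_ ?_)
  · intro i j hij
    have h1 := congrArg Complex.im hij
    rw [zW_im, zW_im] at h1
    exact Subtype.ext (Sum.inr_injective (ht h1))
  · intro i j hij
    have h1 := congrArg Complex.im hij
    rw [zW_im, zW_im] at h1
    exact Sum.inl_ne_inr (ht h1)
  · exact fun i j => hz (Sum.inr i.1) j
  · exact fun i j => hz (Sum.inl i.1) j
  · have := rate_eq k k' false
    unfold cW
    rw [← this]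
    simp
    ring

/-! ### almost all heights -/

/-- almost all points of the strings are no zeros of the class -/
theorem ae_bW_ne {ν : Type} [Fintype ν] (ζ : ν → ℂ) : ∀ᵐ t : Fin p ⊕ Fin p' → ℝ ∂(Measure.pi fun _ => volume),
    ∀ i j, bW P k k' t i ≠ ζ j := by
  have key : ∀ i : Fin p ⊕ Fin p', ∀ j : ν, ∀ᵐ t : Fin p ⊕ Fin p' → ℝ ∂(Measure.pi fun _ => volume),
      bW P k k' t i ≠ ζ j := by
    intro i j
    have h1 : ∀ᵐ t : Fin p ⊕ Fin p' → ℝ ∂(Measure.pi fun _ => volume), t ∉ {t | t i = (ζ j).im} := by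
      rw [← measure_eq_zero_iff_ae_notMem]
      exact Measure.pi_hyperplane _ i _
    filter_upwards [h1] with t ht h2
    refine ht ?_
    show t i = (ζ j).im
    rw [← h2, bW_im]
  rw [ae_all_iff]
  intro i
  rw [ae_all_iff]
  exact key i

end word

end PHK

end
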