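import Pool.Agent.PHK.WordD

/-!
# The particle-hole form (P): the free holes of one word

`zHo`: positions of the holes; `parts_ho`, `obK_ho`, `loc_ho`: their constituents and weights;
`cross_ho`: a hole and the objects; **`hole_W`**: the weight of the free holes in closed form.
-/

set_option autoImplicit false
set_option linter.unusedSectionVars false

noncomputable section

open Complex MeasureTheory Finset
open scoped Real ENNReal

namespace PHK

open NUO NUP1 NUP1S NUP1S.Mg NUP1S.Ab NUP1S.AbG NURow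
open NUP1.Bd (wt Ob)
open Pool.Agent.PHK (lM lG lK)
open Pool.Agent.PHD (QP xP)
open NUP1.Bd (qg)

section word

variable (Z : Bool → Option O3 → ℂ → ℂ) (P : Par6) {p p' a b : ℕ} (k : Fin p → O3) (k' : Fin p' → O3)
  (t : Fin p ⊕ Fin p' → ℝ) (D : Finset {i : Fin p // k i = .S}) (D' : Finset {i : Fin p' // k' i = .S})
  (y : Fin a ⊕ Fin b → Bool × ℝ)

/-- the constituents of a hole -/
theorem parts_ho (j : Fin a ⊕ Fin b) :
    parts6 P (hoW y j) = [((j.isLeft, false, lG (lnH P) (y j)), -1)] := by
  unfold hoW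
  rw [parts6_eq, sp_xo', k6_xo', ht_xo']
  rcases h : y j with ⟨c, u⟩
  cases c <;> rfl

/-- the one body weight of a hole -/
theorem obK_ho (j : Fin a ⊕ Fin b) :
    obK6 Z P (hoW y j) = -(lK (y j) * (-kp)) * (Z j.isLeft none (lG (lnH P) (y j)))⁻¹ := by
  rw [← cH_B]
  rcases h : y j with ⟨c, u⟩
  cases c
  · have hk : k6 (hoW y j) = .H2 := by
      unfold hoW
      rw [k6_xo', h]
      rfl
    rw [obK6_H2 Z P hk]
    unfold hoW
    rw [sp_xo', ht_xo', h]
    rfl
  · have hk : k6 (hoW y j) = .H1 := by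
      unfold hoW
      rw [k6_xo', h]
      rfl
    rw [obK6_H1 Z P hk]
    unfold hoW
    rw [sp_xo', ht_xo', h]
    rfl

/-- the localiser of a hole -/
theorem loc_ho (g : Bool → ℂ → ℂ) (j : Fin a ⊕ Fin b) :
    locC6 g P (hoW y j) = g j.isLeft (lG (lnH P) (y j)) := by
  unfold locC6 hoW
  rw [k6_xo', sp_xo', ht_xo']
  rcases h : y j with ⟨c, u⟩
  cases c <;> rfl

/-- the pairs of holes -/
theorem pair_ho (i j : Fin a ⊕ Fin b) :
    pairC6 P (hoW y i) (hoW y j) =
      PP i.isLeft j.isLeft (lG (lnH P) (y i) - lG (lnH P) (y j)) := by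
  unfold pairC6
  rw [parts_ho, parts_ho, ppC6_one_one, pp6_quanta]
  norm_num

/-- products over the strings of the two species -/
theorem prod_TS (g : Fin p ⊕ Fin p' → ℂ) :
    (∏ i, if i ∈ (strS k).disjSum (strS k') then g i else 1) =
      (∏ i : {i : Fin p // k i = .S}, g (.inl i.1)) * ∏ i : {i : Fin p' // k' i = .S}, g (.inr i.1) := by
  rw [prod_set]
  congr 1
  · exact Finset.prod_subtype _ (by simp [strS]) fun i => g (.inl i)
  · exact Finset.prod_subtype _ (by simp [strS]) fun i => g (.inr i)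

/-- products over the glued strings of the two species -/
theorem prod_TD (g : Fin p ⊕ Fin p' → ℂ) :
    (∏ i, if i ∈ (D.map (Function.Embedding.subtype _)).disjSum
      (D'.map (Function.Embedding.subtype _)) then g i else 1) =
      (∏ i ∈ D, g (.inl i.1)) * ∏ i ∈ D', g (.inr i.1) := by
  rw [prod_set, Finset.prod_map, Finset.prod_map]
  rfl

theorem map_sub {q : ℕ} {κ : Fin q → O3} (D : Finset {i : Fin q // κ i = .S}) :
    D.map (Function.Embedding.subtype _) ⊆ strS κ := by
  intro i hi
  obtain ⟨x, _, rfl⟩ := Finset.mem_map.1 hi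
  unfold strS
  rw [Finset.mem_filter]
  exact ⟨mem_univ _, x.2⟩

/-- **a hole of species `s` at `z` and the objects** -/
theorem cross_ho (s : Bool) (z : ℂ) :
    ∏ i, ppC6 (parts6 P (ojW k k' t D D' i)) [((s, false, z), -1)] =
      (∏ i, gz (s, .A) (o3 k k' i) (z - zW P k k' t i))⁻¹ *
        ((∏ i : {i : Fin p // k i = .S}, PP s false (z - bX P k k' t i) ^ 2) *
          ∏ i : {i : Fin p' // k' i = .S}, PP s true (z - bY P k k' t i) ^ 2)⁻¹ *
        ((∏ i ∈ D, PP s true (z - bX P k k' t i)) * ∏ i ∈ D', PP s false (z - bY P k k' t i)) := by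
  have h1 : ∀ i, ppC6 (parts6 P (ojW k k' t D D' i)) [((s, false, z), -1)] =
      (gz (s, .A) (o3 k k' i) (z - zW P k k' t i))⁻¹ *
        (if i ∈ (strS k).disjSum (strS k') then (PP s (!(sW i)) (z - bW P k k' t i) ^ 2)⁻¹ else 1) *
        (if i ∈ (D.map (Function.Embedding.subtype _)).disjSum
          (D'.map (Function.Embedding.subtype _)) then PP s (sW i) (z - bW P k k' t i) else 1) := by
    intro i
    unfold ojW
    rw [ppC6_symm, parts_xW P k k' t (map_sub D) (map_sub D')]
    unfold pW
    rw [ppC6_append_right, ppC6_append_right, ppC6_one_one]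
    congr 1
    · congr 1
      · have e : pp (s, false, z) (aW P k k' t i) =
            gz (s, .A) (o3 k k' i) (z - zW P k k' t i) := by
          rw [gz_pp]
          rcases i with i | i <;> rfl
        unfold pp6
        rw [e]
        simp
      · split_ifs
        · rw [ppC6_one_one, pp6_quanta]
          have : ((-1 : ℤ) * 2) = -(2 : ℕ) := by norm_num
          rw [this, zpow_neg, zpow_natCast]
        · rw [ppC6_nil_right]
    · split_ifs
      · rw [ppC6_one_one, pp6_quanta]
        norm_num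
      · rw [ppC6_nil_right]
  simp only [h1]
  rw [Finset.prod_mul_distrib, Finset.prod_mul_distrib, prod_TD, prod_TS, Finset.prod_inv_distrib,
    Finset.prod_inv_distrib, Finset.prod_inv_distrib, mul_inv]
  rfl

/-- **a hole with everything fixed** -/
theorem one_ho_true (z : ℂ) :
    (Z true none z)⁻¹ * loc (bY P k k' t) z *
      (∏ i, ppC6 (parts6 P (ojW k k' t D D' i)) [((true, false, z), -1)]) * (-kp) =
      holW (fW Z P k k' t true) (bY P k k' t) (bX P k k' t) (bX P k k' t) D (bY P k k' t) D' z := by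
  rw [cross_ho]
  unfold holW fW fld
  have e1 : ∀ w, PP true false w = qg w := fun w => rfl
  have e2 : ∀ w, PP true true w = q w := fun w => rfl
  simp only [e1, e2]
  have e3 : (∏ i, gz (true, .A) (o3 k k' i) (z - zW P k k' t i)) =
      ∏ i, gz (true, .A) (o3 k k' i)
        (z - pos (Sum.elim (fun i => lnK P (k i)) (fun i => lnK P (k' i))) t i) := rfl
  rw [e3, div_eq_mul_inv]
  simp only [mul_inv]
  ring

theorem one_ho_false (z : ℂ) :
    (Z false none z)⁻¹ * loc (bX P k k' t) z *
      (∏ i, ppC6 (parts6 P (ojW k k' t D D' i)) [((false, false, z), -1)]) * (-kp) =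
      holW (fW Z P k k' t false) (bX P k k' t) (bY P k k' t) (bY P k k' t) D' (bX P k k' t) D z := by
  rw [cross_ho]
  unfold holW fW fld
  have e1 : ∀ w, PP false true w = qg w := fun w => rfl
  have e2 : ∀ w, PP false false w = q w := fun w => rfl
  simp only [e1, e2]
  have e3 : (∏ i, gz (false, .A) (o3 k k' i) (z - zW P k k' t i)) =
      ∏ i, gz (false, .A) (o3 k k' i)
        (z - pos (Sum.elim (fun i => lnK P (k i)) (fun i => lnK P (k' i))) t i) := rfl
  rw [e3, div_eq_mul_inv]
  simp only [mul_inv]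
  ring

/-- the product over the pairs of one species -/
theorem PU_QP {n : ℕ} {f : ℂ → ℂ} (hf : ∀ z, f (-z) = f z) (v : Fin n → ℂ) :
    PU (fun i j => f (v i - v j)) = QP f v := by
  rw [PU_PP (fun i j => by rw [← hf, neg_sub]), Pool.Agent.PHD.PP_univ]
  unfold QP
  refine Finset.prod_congr rfl fun i _ => ?_
  rw [← Finset.prod_filter]
  exact Finset.prod_congr (by ext j; simp) fun _ _ => rfl

/-- **the pairs of the free holes** -/
theorem pairs_ho : (PU fun i j => pairC6 P (hoW y i) (hoW y j)) =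
    (QP q fun i => lG (lnH P) (y (.inl i))) * (QP q fun i => lG (lnH P) (y (.inr i))) *
      xP (lG (lnH P)) (lG (lnH P)) qg (fun i => y (.inl i)) fun i => y (.inr i) := by
  rw [PU_sum fun i j => pairC6_symm P _ _]
  simp only [pair_ho]
  rw [← PU_QP (fun z => NUP1.q_neg z), ← PU_QP (fun z => NUP1.q_neg z)]
  rfl

/-- **the weight of the free holes** -/
theorem hole_W : (∏ j, obK6 Z P (hoW y j)) *
    (∏ j, locC6 (gHI P (fmW k k' t D D' y)) P (hoW y j)) *
    (PU fun i j => pairC6 P (hoW y i) (hoW y j)) *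
    (∏ i, ∏ j, pairC6 P (ojW k k' t D D' i) (hoW y j)) =
      (-1) ^ (a + b) * hlW Z P k k' t D D' y := by
  rw [pairs_ho, Finset.prod_comm]
  unfold hlW pairC6
  simp only [parts_ho]
  have e1 : (∏ j, obK6 Z P (hoW y j)) *
      (∏ j, locC6 (gHI P (fmW k k' t D D' y)) P (hoW y j)) *
      (∏ j, ∏ i, ppC6 (parts6 P (ojW k k' t D D' i)) [((j.isLeft, false, lG (lnH P) (y j)), -1)]) =
      (-1) ^ (a + b) *
        ((∏ i, (lK (y (.inl i)) * holW (fW Z P k k' t true) (bY P k k' t) (bX P k k' t)
          (bX P k k' t) D (bY P k k' t) D' (lG (lnH P) (y (.inl i))))) *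
        ∏ i, (lK (y (.inr i)) * holW (fW Z P k k' t false) (bX P k k' t) (bY P k k' t)
          (bY P k k' t) D' (bX P k k' t) D (lG (lnH P) (y (.inr i))))) := by
    rw [← Finset.prod_mul_distrib, ← Finset.prod_mul_distrib, Fintype.prod_sum_type, pow_add]
    have c1 : (-1 : ℂ) ^ a = ∏ _i : Fin a, (-1 : ℂ) := by simp
    have c2 : (-1 : ℂ) ^ b = ∏ _i : Fin b, (-1 : ℂ) := by simp
    rw [c1, c2, mul_mul_mul_comm, ← Finset.prod_mul_distrib, ← Finset.prod_mul_distrib]
    congr 1
    · refine Finset.prod_congr rfl fun i _ => ?_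
      rw [obK_ho, loc_ho]
      simp only [Sum.isLeft_inl]
      rw [gHI_true, ← one_ho_true]
      ring
    · refine Finset.prod_congr rfl fun i _ => ?_
      rw [obK_ho, loc_ho]
      simp only [Sum.isLeft_inr]
      rw [gHI_false, ← one_ho_false]
      ring
  rw [mul_right_comm, e1, mul_assoc]

end word

end PHK

end
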