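import Pool.Agent.PHK.WordD

/-!
# The particle-hole form (P): the term of one family, charges and assembly

* **`qI_W_true`**, **`qI_W_false`**, **`cntI_W`** : charges and number condition of the family of a word with glued
  holes `D`, `D'` and free holes `y`;
* `wI_Wo` : the weight from the weights of the objects (`obj_W`) and of the holes (`hole_W`);
* **`fI_Wo`** : the term of the family.
-/

set_option autoImplicit false
set_option linter.unusedSectionVars false
set_option linter.unusedVariables false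

noncomputable section

open Complex MeasureTheory Finset
open scoped Real ENNReal

namespace PHK

open NUO NUP1 NUP1S NUP1S.Mg NUP1S.Ab NUP1S.AbG NURow
open NUP1.Bd (wt Ob)
open Pool.Agent.PHK (lM lG lK)
open Pool.Agent.PHD (QP xP)
open NUP1.Bd (qg)

section word

variable (Z : Bool → Option O3 → ℂ → ℂ) (P : Par6) {p p' a b : ℕ} (k : Fin p → O3) (k' : Fin p' → O3)
  (t : Fin p ⊕ Fin p' → ℝ) (D : Finset {i : Fin p // k i = .S}) (D' : Finset {i : Fin p' // k' i = .S})
  (y : Fin a ⊕ Fin b → Bool × ℝ)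

/-! ### one object, one hole -/

private theorem mem_D {q : ℕ} {κ : Fin q → O3} {D : Finset {i : Fin q // κ i = .S}} {i : Fin q}
    (h : i ∈ D.map (Function.Embedding.subtype _)) : κ i = .S := by
  obtain ⟨j, _, rfl⟩ := Finset.mem_map.1 h
  exact j.2

private theorem sum_D {q : ℕ} {κ : Fin q → O3} (D : Finset {i : Fin q // κ i = .S}) :
    ∑ i : Fin q, (if i ∈ D.map (Function.Embedding.subtype _) then (1 : ℕ) else 0) = D.card := by
  rw [Finset.sum_ite_mem, Finset.univ_inter, Finset.sum_const, smul_eq_mul, mul_one, Finset.card_map]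

private theorem sum_S {q : ℕ} (κ : Fin q → O3) :
    ∑ i : Fin q, (if κ i = .S then (1 : ℕ) else 0) = Fintype.card {i : Fin q // κ i = .S} := by
  rw [Finset.sum_boole, Fintype.card_subtype]
  rfl

private theorem sum_D_int {q : ℕ} {κ : Fin q → O3} (D : Finset {i : Fin q // κ i = .S}) :
    ∑ i : Fin q, ((if i ∈ D.map (Function.Embedding.subtype _) then (1 : ℕ) else 0 : ℕ) : ℤ) = D.card := by
  rw [← Nat.cast_sum, sum_D]

private theorem sum_S_int {q : ℕ} (κ : Fin q → O3) :
    ∑ i : Fin q, ((if κ i = .S then (1 : ℕ) else 0 : ℕ) : ℤ) = Fintype.card {i : Fin q // κ i = .S} := by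
  rw [← Nat.cast_sum, sum_S]

private theorem k6_oj (i : Fin p ⊕ Fin p') : k6 (ojW k k' t D D' i) =
    kdA (kaD (kkW k k' i) (decide (i ∈ (D.map (Function.Embedding.subtype _)).disjSum
      (D'.map (Function.Embedding.subtype _))))) := k6_xo' _ _ _

private theorem k6_ho (j : Fin a ⊕ Fin b) : k6 (hoW y j) = kdH (y j).1 := k6_xo' _ _ _

private theorem sp_ho (j : Fin a ⊕ Fin b) : sp (hoW y j) = j.isLeft := sp_xo' _ _ _

/-- charge of an object of its own species and of the other one -/
private theorem chg_val (K : O3) (d : Bool) (s r : Bool) (h : ℝ) :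
    chg6 r (xo (s, kdA (kaD K d)) h) =
      if s = r then (c3 K : ℤ) - (if K = .S ∧ d then 1 else 0) else 2 * (if K = .S then 1 else 0) := by
  unfold chg6
  rw [k6_xo', sp_xo']
  cases K <;> cases d <;> cases s <;> cases r <;> simp [kaD, kdA, c3, ob3, NUP1.Bd.chg]

private theorem chg_hol (c s r : Bool) (h : ℝ) : chg6 r (xo (s, kdH c) h) = if s = r then -1 else 0 := by
  unfold chg6
  rw [k6_xo', sp_xo']
  cases c <;> rfl

private theorem hl_val (K : O3) (d : Bool) (s r : Bool) (h : ℝ) :
    hl6 r (xo (s, kdA (kaD K d)) h) = if s = r ∧ K = .S ∧ d then 1 else 0 := by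
  unfold hl6
  rw [k6_xo', sp_xo']
  cases K <;> cases d <;> cases s <;> cases r <;> simp [kaD, kdA]

private theorem hl_hol (c s r : Bool) (h : ℝ) : hl6 r (xo (s, kdH c) h) = if s = r then 1 else 0 := by
  unfold hl6
  rw [k6_xo', sp_xo']
  cases c <;> rfl

private theorem sat_val (K : O3) (d : Bool) (s r : Bool) (h : ℝ) :
    sat6 r (xo (s, kdA (kaD K d)) h) = if s = r then 0 else 2 * (if K = .S then 1 else 0) := by
  unfold sat6
  rw [k6_xo', sp_xo']
  cases K <;> cases d <;> cases s <;> cases r <;> simp [kaD, kdA]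

private theorem sat_hol (c s r : Bool) (h : ℝ) : sat6 r (xo (s, kdH c) h) = 0 := by
  unfold sat6
  rw [k6_xo']
  cases c <;> rfl

private theorem ite_D {q : ℕ} {κ : Fin q → O3} (D : Finset {i : Fin q // κ i = .S}) (i : Fin q) :
    (κ i = .S ∧ decide (i ∈ D.map (Function.Embedding.subtype _)) = true) ↔
      i ∈ D.map (Function.Embedding.subtype _) := by
  rw [decide_eq_true_iff]
  exact ⟨fun h => h.2, fun h => ⟨mem_D h, h⟩⟩

/-! ### charges -/

theorem qI_W_true : qI (fmW k k' t D D' y) true = (∑ i, (c3 (k i) : ℤ)) +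
    2 * Fintype.card {i : Fin p' // k' i = .S} - D.card - a := by
  unfold qI
  rw [Fintype.sum_sum_type, Fintype.sum_sum_type, Fintype.sum_sum_type]
  have e1 : ∀ i : Fin p, chg6 true (fmW k k' t D D' y (Sum.inl (Sum.inl i))) =
      (c3 (k i) : ℤ) - ((if i ∈ D.map (Function.Embedding.subtype _) then (1 : ℕ) else 0 : ℕ) : ℤ) := by
    intro i
    show chg6 true (xo (true, kdA (kaD (k i) (decide (i ∈ D.map (Function.Embedding.subtype _))))) _) = _
    rw [chg_val, if_pos rfl]
    simp only [ite_D D i]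
    push_cast
    rfl
  have e2 : ∀ i : Fin p', chg6 true (fmW k k' t D D' y (Sum.inl (Sum.inr i))) =
      2 * ((if k' i = .S then (1 : ℕ) else 0 : ℕ) : ℤ) := by
    intro i
    show chg6 true (xo (false, kdA (kaD (k' i) (decide (i ∈ D'.map (Function.Embedding.subtype _))))) _) = _
    rw [chg_val, if_neg (by simp)]
    push_cast
    rfl
  have e3 : ∀ j : Fin a, chg6 true (fmW k k' t D D' y (Sum.inr (Sum.inl j))) = -1 := by
    intro j
    show chg6 true (xo (true, kdH _) _) = _
    rw [chg_hol, if_pos rfl]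
  have e4 : ∀ j : Fin b, chg6 true (fmW k k' t D D' y (Sum.inr (Sum.inr j))) = 0 := by
    intro j
    show chg6 true (xo (false, kdH _) _) = _
    rw [chg_hol, if_neg (by simp)]
  simp only [e1, e2, e3, e4]
  rw [Finset.sum_sub_distrib, ← Finset.mul_sum, sum_D_int, sum_S_int]
  simp only [Finset.sum_const, Finset.card_univ, Fintype.card_fin, mul_zero, nsmul_eq_mul]
  ring

theorem qI_W_false : qI (fmW k k' t D D' y) false = (∑ i, (c3 (k' i) : ℤ)) +
    2 * Fintype.card {i : Fin p // k i = .S} - D'.card - b := by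
  unfold qI
  rw [Fintype.sum_sum_type, Fintype.sum_sum_type, Fintype.sum_sum_type]
  have e1 : ∀ i : Fin p', chg6 false (fmW k k' t D D' y (Sum.inl (Sum.inr i))) =
      (c3 (k' i) : ℤ) - ((if i ∈ D'.map (Function.Embedding.subtype _) then (1 : ℕ) else 0 : ℕ) : ℤ) := by
    intro i
    show chg6 false (xo (false, kdA (kaD (k' i) (decide (i ∈ D'.map (Function.Embedding.subtype _))))) _) = _
    rw [chg_val, if_pos rfl]
    simp only [ite_D D' i]
    push_cast
    rfl
  have e2 : ∀ i : Fin p, chg6 false (fmW k k' t D D' y (Sum.inl (Sum.inl i))) =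
      2 * ((if k i = .S then (1 : ℕ) else 0 : ℕ) : ℤ) := by
    intro i
    show chg6 false (xo (true, kdA (kaD (k i) (decide (i ∈ D.map (Function.Embedding.subtype _))))) _) = _
    rw [chg_val, if_neg (by simp)]
    push_cast
    rfl
  have e3 : ∀ j : Fin b, chg6 false (fmW k k' t D D' y (Sum.inr (Sum.inr j))) = -1 := by
    intro j
    show chg6 false (xo (false, kdH _) _) = _
    rw [chg_hol, if_pos rfl]
  have e4 : ∀ j : Fin a, chg6 false (fmW k k' t D D' y (Sum.inr (Sum.inl j))) = 0 := by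
    intro j
    show chg6 false (xo (true, kdH _) _) = _
    rw [chg_hol, if_neg (by simp)]
  simp only [e1, e2, e3, e4]
  rw [Finset.sum_sub_distrib, ← Finset.mul_sum, sum_D_int, sum_S_int]
  simp only [Finset.sum_const, Finset.card_univ, Fintype.card_fin, mul_zero, nsmul_eq_mul]
  ring

private theorem hl_sum_true : ∑ i, hl6 true (fmW k k' t D D' y i) = D.card + a := by
  rw [Fintype.sum_sum_type, Fintype.sum_sum_type, Fintype.sum_sum_type]
  have e1 : ∀ i : Fin p, hl6 true (fmW k k' t D D' y (Sum.inl (Sum.inl i))) =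
      if i ∈ D.map (Function.Embedding.subtype _) then (1 : ℕ) else 0 := by
    intro i
    show hl6 true (xo (true, kdA (kaD (k i) (decide (i ∈ D.map (Function.Embedding.subtype _))))) _) = _
    rw [hl_val]
    simp only [true_and, ite_D D i]
  have e2 : ∀ i : Fin p', hl6 true (fmW k k' t D D' y (Sum.inl (Sum.inr i))) = 0 := by
    intro i
    show hl6 true (xo (false, kdA (kaD (k' i) (decide (i ∈ D'.map (Function.Embedding.subtype _))))) _) = _
    rw [hl_val, if_neg (by simp)]
  have e3 : ∀ j : Fin a, hl6 true (fmW k k' t D D' y (Sum.inr (Sum.inl j))) = 1 := by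
    intro j
    show hl6 true (xo (true, kdH _) _) = _
    rw [hl_hol, if_pos rfl]
  have e4 : ∀ j : Fin b, hl6 true (fmW k k' t D D' y (Sum.inr (Sum.inr j))) = 0 := by
    intro j
    show hl6 true (xo (false, kdH _) _) = _
    rw [hl_hol, if_neg (by simp)]
  simp only [e1, e2, e3, e4]
  rw [sum_D]
  simp

private theorem hl_sum_false : ∑ i, hl6 false (fmW k k' t D D' y i) = D'.card + b := by
  rw [Fintype.sum_sum_type, Fintype.sum_sum_type, Fintype.sum_sum_type]
  have e1 : ∀ i : Fin p', hl6 false (fmW k k' t D D' y (Sum.inl (Sum.inr i))) =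
      if i ∈ D'.map (Function.Embedding.subtype _) then (1 : ℕ) else 0 := by
    intro i
    show hl6 false (xo (false, kdA (kaD (k' i) (decide (i ∈ D'.map (Function.Embedding.subtype _))))) _) = _
    rw [hl_val]
    simp only [true_and, ite_D D' i]
  have e2 : ∀ i : Fin p, hl6 false (fmW k k' t D D' y (Sum.inl (Sum.inl i))) = 0 := by
    intro i
    show hl6 false (xo (true, kdA (kaD (k i) (decide (i ∈ D.map (Function.Embedding.subtype _))))) _) = _
    rw [hl_val, if_neg (by simp)]
  have e3 : ∀ j : Fin b, hl6 false (fmW k k' t D D' y (Sum.inr (Sum.inr j))) = 1 := by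
    intro j
    show hl6 false (xo (false, kdH _) _) = _
    rw [hl_hol, if_pos rfl]
  have e4 : ∀ j : Fin a, hl6 false (fmW k k' t D D' y (Sum.inr (Sum.inl j))) = 0 := by
    intro j
    show hl6 false (xo (true, kdH _) _) = _
    rw [hl_hol, if_neg (by simp)]
  simp only [e1, e2, e3, e4]
  rw [sum_D]
  simp

private theorem sat_sum_true : ∑ i, sat6 true (fmW k k' t D D' y i) =
    2 * Fintype.card {i : Fin p' // k' i = .S} := by
  rw [Fintype.sum_sum_type, Fintype.sum_sum_type, Fintype.sum_sum_type]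
  have e1 : ∀ i : Fin p, sat6 true (fmW k k' t D D' y (Sum.inl (Sum.inl i))) = 0 := by
    intro i
    show sat6 true (xo (true, kdA (kaD (k i) (decide (i ∈ D.map (Function.Embedding.subtype _))))) _) = _
    rw [sat_val, if_pos rfl]
  have e2 : ∀ i : Fin p', sat6 true (fmW k k' t D D' y (Sum.inl (Sum.inr i))) =
      2 * if k' i = .S then (1 : ℕ) else 0 := by
    intro i
    show sat6 true (xo (false, kdA (kaD (k' i) (decide (i ∈ D'.map (Function.Embedding.subtype _))))) _) = _
    rw [sat_val, if_neg (by simp)]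
  have e3 : ∀ j : Fin a, sat6 true (fmW k k' t D D' y (Sum.inr (Sum.inl j))) = 0 := fun j => sat_hol _ _ _ _
  have e4 : ∀ j : Fin b, sat6 true (fmW k k' t D D' y (Sum.inr (Sum.inr j))) = 0 := fun j => sat_hol _ _ _ _
  simp only [e1, e2, e3, e4]
  rw [← Finset.mul_sum, sum_S]
  simp

private theorem sat_sum_false : ∑ i, sat6 false (fmW k k' t D D' y i) =
    2 * Fintype.card {i : Fin p // k i = .S} := by
  rw [Fintype.sum_sum_type, Fintype.sum_sum_type, Fintype.sum_sum_type]
  have e1 : ∀ i : Fin p', sat6 false (fmW k k' t D D' y (Sum.inl (Sum.inr i))) = 0 := by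
    intro i
    show sat6 false (xo (false, kdA (kaD (k' i) (decide (i ∈ D'.map (Function.Embedding.subtype _))))) _) = _
    rw [sat_val, if_pos rfl]
  have e2 : ∀ i : Fin p, sat6 false (fmW k k' t D D' y (Sum.inl (Sum.inl i))) =
      2 * if k i = .S then (1 : ℕ) else 0 := by
    intro i
    show sat6 false (xo (true, kdA (kaD (k i) (decide (i ∈ D.map (Function.Embedding.subtype _))))) _) = _
    rw [sat_val, if_neg (by simp)]
  have e3 : ∀ j : Fin a, sat6 false (fmW k k' t D D' y (Sum.inr (Sum.inl j))) = 0 := fun j => sat_hol _ _ _ _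
  have e4 : ∀ j : Fin b, sat6 false (fmW k k' t D D' y (Sum.inr (Sum.inr j))) = 0 := fun j => sat_hol _ _ _ _
  simp only [e1, e2, e3, e4]
  rw [← Finset.mul_sum, sum_S]
  simp

theorem cntI_W : cntI (fmW k k' t D D' y) ↔
    D.card + a ≤ 2 * Fintype.card {i : Fin p' // k' i = .S} ∧
      D'.card + b ≤ 2 * Fintype.card {i : Fin p // k i = .S} := by
  unfold cntI
  rw [Bool.forall_bool, hl_sum_true, hl_sum_false, sat_sum_true, sat_sum_false]
  exact and_comm

/-! ### the weight -/

/-- **the weight** from the weights of the objects and of the holes -/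
theorem wI_Wo {A B C : ℂ}
    (hH : (∏ j, obK6 Z P (hoW y j)) * (∏ j, locC6 (gHI P (fmW k k' t D D' y)) P (hoW y j)) *
      (PU fun i j => pairC6 P (hoW y i) (hoW y j)) *
      (∏ i, ∏ j, pairC6 P (ojW k k' t D D' i) (hoW y j)) = A)
    (hO : C * (∏ i, obK6 Z P (ojW k k' t D D' i)) *
      (∏ i, locC6 (gHI P (fmW k k' t D D' y)) P (ojW k k' t D D' i)) *
      (PU fun i j => pairC6 P (ojW k k' t D D' i) (ojW k k' t D D' j)) = B) :
    C * wI Z P (fmW k k' t D D' y) = B * A := by
  unfold wI locI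
  rw [Fintype.prod_sum_type (fun i => obK6 Z P (fmW k k' t D D' y i)),
    Fintype.prod_sum_type (fun i => locC6 (gHI P (fmW k k' t D D' y)) P (fmW k k' t D D' y i)),
    PU_sum fun i j => pairC6_symm P _ _]
  simp only [fmW_inl, fmW_inr]
  rw [← hH, ← hO]
  ring

/-! ### the term -/

private theorem cast_c3 {q : ℕ} (κ : Fin q → O3) : ∑ i, (c3 (κ i) : ℤ) = ((∑ i, c3 (κ i) : ℕ) : ℤ) := by
  push_cast
  rfl

/-- **the term of the family** from the weight and the potential -/
theorem fI_Wo {n n' : ℕ} (hn : ∑ i, c3 (k i) ≤ n) (hn' : ∑ i, c3 (k' i) ≤ n') {C B : ℂ} {G : Bool → ℂ → ℂ}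
    (hw : C * wI Z P (fmW k k' t D D' y) = B)
    (hp : ∀ s u, Z s none u * potI P (fmW k k' t D D' y) s u = G s u) :
    C * fI Z P l n n' (fmW k k' t D D' y) =
    if (D.card + a ≤ 2 * Fintype.card {i : Fin p' // k' i = .S} ∧
        2 * Fintype.card {i : Fin p' // k' i = .S} ≤ nA n k + D.card + a) ∧
      (D'.card + b ≤ 2 * Fintype.card {i : Fin p // k i = .S} ∧
        2 * Fintype.card {i : Fin p // k i = .S} ≤ nA n' k' + D'.card + b) then
      B * gas (nA n k + D.card + a - 2 * Fintype.card {i : Fin p' // k' i = .S})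
        (nA n' k' + D'.card + b - 2 * Fintype.card {i : Fin p // k i = .S}) l (G true) (G false)
    else 0 := by
  have q1 := qI_W_true k k' t D D' y
  have q2 := qI_W_false k k' t D D' y
  have q3 := cntI_W k k' t D D' y
  rw [cast_c3] at q1 q2
  have g1 : (fun z => Z true none z * potI P (fmW k k' t D D' y) true z) = G true := funext fun u => hp true u
  have g2 : (fun z => Z false none z * potI P (fmW k k' t D D' y) false z) = G false := funext fun u => hp false u
  obtain ⟨S, hS⟩ : ∃ S, S = Fintype.card {i : Fin p // k i = .S} := ⟨_, rfl⟩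
  obtain ⟨S', hS'⟩ : ∃ S', S' = Fintype.card {i : Fin p' // k' i = .S} := ⟨_, rfl⟩
  obtain ⟨c, hc⟩ : ∃ c, c = ∑ i, c3 (k i) := ⟨_, rfl⟩
  obtain ⟨c', hc'⟩ : ∃ c', c' = ∑ i, c3 (k' i) := ⟨_, rfl⟩
  have n1 : nA n k = n - c := by rw [hc]; rfl
  have n2 : nA n' k' = n' - c' := by rw [hc']; rfl
  rw [← hS, ← hS'] at q3 ⊢
  rw [← hS', ← hc] at q1
  rw [← hS, ← hc'] at q2
  rw [← hc] at hn
  rw [← hc'] at hn'
  rw [n1, n2]
  unfold fI nAI
  rw [g1, g2, mul_ite, mul_zero, ← mul_assoc, hw, q1, q2]
  have a1 : ((n : ℤ) - ((c : ℤ) + 2 * S' - D.card - a)).toNat = n - c + D.card + a - 2 * S' := by omega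
  have a2 : ((n' : ℤ) - ((c' : ℤ) + 2 * S - D'.card - b)).toNat = n' - c' + D'.card + b - 2 * S := by omega
  rw [a1, a2]
  refine if_congr ?_ rfl rfl
  rw [q3]
  constructor
  · rintro ⟨h1, h2, h3, h4⟩
    exact ⟨⟨h3, by omega⟩, ⟨h4, by omega⟩⟩
  · rintro ⟨⟨h1, h2⟩, ⟨h3, h4⟩⟩
    exact ⟨by omega, by omega, h1, h3⟩

end word

end PHK

end
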