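import Pool.Agent.PHK.WordD

/-!
# The particle-hole form (P): the weight of the objects of a word

**`obj_W`**: one body weights, localisers and pair weights of the objects of a word = the weight of the
word times the constant `clW` of the double points and of the glued holes.
-/

set_option autoImplicit false
set_option linter.unusedSectionVars false

noncomputable section

open Complex MeasureTheory Finset
open scoped Real ENNReal

namespace PHK

open NUO NUP1 NUP1S NUP1S.Mg NUP1S.Ab NUP1S.AbG NURow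
open NUP1.Bd (wt Ob)
open Pool.Agent.PHK (lM lG lK)
open Pool.Agent.PHD (QP xP)
open NUP1.Bd (qg)

/-! ### sets of strings -/

section sets

variable {p p' : ℕ}

theorem half_powW (T : Finset (Fin p)) (T' : Finset (Fin p')) (c : ℂ) :
    c ^ (T.card + T'.card) = ∏ i, if i ∈ T.disjSum T' then c else 1 := by
  rw [prod_set (fun _ => c), Finset.prod_const, Finset.prod_const, pow_add]

theorem map_univ_str (k : Fin p → O3) :
    (univ : Finset {i : Fin p // k i = .S}).map (Function.Embedding.subtype _) = strS k := by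
  ext i
  simp [strS]

theorem prod_strS (k : Fin p → O3) (f : Fin p → ℂ) :
    ∏ i ∈ strS k, f i = ∏ i : {i : Fin p // k i = .S}, f i.1 := by
  rw [← map_univ_str, Finset.prod_map]
  rfl

theorem PP_strS (k : Fin p → O3) (f : Fin p → Fin p → ℂ) :
    Pool.Agent.PHD.PP f (strS k) =
      Pool.Agent.PHD.PP (fun x y : {i : Fin p // k i = .S} => f x.1 y.1) univ := by
  rw [PP_val f univ, map_univ_str]

theorem map_sub_str (k : Fin p → O3) (D : Finset {i : Fin p // k i = .S}) :
    D.map (Function.Embedding.subtype _) ⊆ strS k := by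
  rw [← map_univ_str]
  exact Finset.map_subset_map.2 (Finset.subset_univ _)

end sets

theorem qg_evenB (z z' : ℂ) : qg (z - z') = qg (z' - z) := by
  rw [← neg_sub, Pool.Agent.PHD.qg_even]

theorem PP_same (s : Bool) (z : ℂ) : PP s s z = q z := by
  simp [PP]

theorem PP_diff (s : Bool) (z : ℂ) : PP s (!s) z = qg z := by
  cases s <;> simp [PP]

section word

variable (Z : Bool → Option O3 → ℂ → ℂ) (P : Par6) {p p' a b : ℕ} (k : Fin p → O3) (k' : Fin p' → O3)
  (t : Fin p ⊕ Fin p' → ℝ)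

/-- the pair function of the objects -/
theorem PU_ppW : (PU fun i j => pp (aW P k k' t i) (aW P k k' t j)) =
    PU fun i j => gz (o3 k k' i) (o3 k k' j) (zW P k k' t i - zW P k k' t j) := by
  refine PU_congr fun i j => ?_
  have h : ∀ i, o3 k k' i = (sW i, ob3 (kkW k k' i)) := by
    intro i
    rcases i with i | i <;> rfl
  rw [h, h, gz_pp]
  rfl

theorem pp_aW (s : Bool) (u : ℂ) (j : Fin p ⊕ Fin p') :
    pp (s, false, u) (aW P k k' t j) = gz (s, .A) (o3 k k' j) (u - zW P k k' t j) := by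
  have h : ∀ i, o3 k k' i = (sW i, ob3 (kkW k k' i)) := by
    intro i
    rcases i with i | i <;> rfl
  rw [h, gz_pp]
  rfl

theorem FgW : Fg (o3 k k') (h3 (Z true) (Z false) k k')
    (pos (Sum.elim (fun i => lnK P (k i)) (fun i => lnK P (k' i))) t) =
    (∏ i, Z (sW i) (some (kkW k k' i)) (zW P k k' t i)) *
      PU fun i j => pp (aW P k k' t i) (aW P k k' t j) := by
  rw [PU_ppW]
  unfold Fg
  congr 1
  refine Finset.prod_congr rfl fun i _ => ?_
  rcases i with i | i <;> rfl

variable (D : Finset {i : Fin p // k i = .S}) (D' : Finset {i : Fin p' // k' i = .S})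
  (y : Fin a ⊕ Fin b → Bool × ℝ)

/-- the localiser factors of the objects -/
theorem loc_oj (g : Bool → ℂ → ℂ) (i : Fin p ⊕ Fin p') : locC6 g P (ojW k k' t D D' i) =
    if i ∈ (D.map (Function.Embedding.subtype _)).disjSum (D'.map (Function.Embedding.subtype _))
      then g (sW i) (bW P k k' t i) else 1 := by
  have hT := mem_TS k k' i
  have hsub : (D.map (Function.Embedding.subtype _)).disjSum (D'.map (Function.Embedding.subtype _))
      ⊆ (strS k).disjSum (strS k') := Finset.disjSum_mono (map_sub_str k D) (map_sub_str k' D')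
  by_cases h2 : i ∈ (D.map (Function.Embedding.subtype _)).disjSum
      (D'.map (Function.Embedding.subtype _))
  · have h : kkW k k' i = .S := hT.1 (hsub h2)
    have hk : k6 (ojW k k' t D D' i) = .F := by
      unfold ojW xW
      rw [k6_xo', h, decide_eq_true h2]
      rfl
    rw [if_pos h2, bW_S P k k' t h]
    unfold locC6
    rw [hk, sp_oj, ht_oj]
  · rw [if_neg h2]
    have hk : k6 (ojW k k' t D D' i) = kdA (kaD (kkW k k' i) false) := by
      unfold ojW xW
      rw [k6_xo', decide_eq_false h2]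
    unfold locC6
    rw [hk]
    rcases kkW k k' i with _ | _ | _ <;> rfl

/-- the factor of a glued hole -/
def gfW (g : ℂ) (i : Fin p ⊕ Fin p') : ℂ :=
  -kp * g / (rdW Z P k k' t i * ∏ j, if j ∈ (strS k).disjSum (strS k') then
    PP (sW i) (!(sW j)) (bW P k k' t i - bW P k k' t j) ^ 2 else 1)

/-- **separation of the factors** -/
theorem obj_sep : (1 / 2 : ℂ) ^ ((strS k).card + (strS k').card) *
    (∏ i, obK6 Z P (ojW k k' t D D' i)) *
    (∏ i, locC6 (gHI P (fmW k k' t D D' y)) P (ojW k k' t D D' i)) *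
    (PU fun i j => pairC6 P (ojW k k' t D D' i) (ojW k k' t D D' j)) =
      (∏ i, wt (ob3 (kkW k k' i))) *
        Fg (o3 k k') (h3 (Z true) (Z false) k k')
          (pos (Sum.elim (fun i => lnK P (k i)) (fun i => lnK P (k' i))) t) *
        ((∏ i, if i ∈ (strS k).disjSum (strS k') then kp * rbW Z P k k' t i ^ 2 else 1) *
        (PU fun i j => if i ∈ (strS k).disjSum (strS k') ∧ j ∈ (strS k).disjSum (strS k') then
          PP (!(sW i)) (!(sW j)) (bW P k k' t i - bW P k k' t j) ^ 4 else 1) *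
        (∏ i, if i ∈ (D.map (Function.Embedding.subtype _)).disjSum
          (D'.map (Function.Embedding.subtype _)) then gfW Z P k k' t
            (gHI P (fmW k k' t D D' y) (sW i) (bW P k k' t i)) i else 1) *
        (PU fun i j => if i ∈ (D.map (Function.Embedding.subtype _)).disjSum
          (D'.map (Function.Embedding.subtype _)) ∧ j ∈ (D.map (Function.Embedding.subtype _)).disjSum
          (D'.map (Function.Embedding.subtype _)) then
          PP (sW i) (sW j) (bW P k k' t i - bW P k k' t j) else 1)) := by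
  set TS := (strS k).disjSum (strS k') with hTS
  set TD := (D.map (Function.Embedding.subtype _)).disjSum
    (D'.map (Function.Embedding.subtype _)) with hTD
  have hsub : TD ⊆ TS := Finset.disjSum_mono (map_sub_str k D) (map_sub_str k' D')
  have e1 : (1 / 2 : ℂ) ^ ((strS k).card + (strS k').card) *
      (∏ i, obK6 Z P (ojW k k' t D D' i)) =
      ∏ i, (wt (ob3 (kkW k k' i)) * Z (sW i) (some (kkW k k' i)) (zW P k k' t i) *
        (if i ∈ TS then kp * (cAW * Z (!(sW i)) none (bW P k k' t i)) ^ 2 else 1) *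
        (if i ∈ TD then -kp / (cdW * Bd.qg 0 ^ 2 * Z (sW i) none (bW P k k' t i)) else 1)) := by
    rw [half_powW, ← Finset.prod_mul_distrib]
    exact Finset.prod_congr rfl fun i _ =>
      obK_xW Z P k k' t (map_sub_str k D) (map_sub_str k' D') i
  have e2 : (∏ i, locC6 (gHI P (fmW k k' t D D' y)) P (ojW k k' t D D' i)) =
      ∏ i, if i ∈ TD then gHI P (fmW k k' t D D' y) (sW i) (bW P k k' t i) else 1 :=
    Finset.prod_congr rfl fun i _ => loc_oj P k k' t D D' _ i
  have e3 : (PU fun i j => pairC6 P (ojW k k' t D D' i) (ojW k k' t D D' j)) =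
      PU fun i j => ppC6 (pW sW (aW P k k' t) (bW P k k' t) TS TD i)
        (pW sW (aW P k k' t) (bW P k k' t) TS TD j) := by
    refine PU_congr fun i j => ?_
    unfold pairC6
    rw [parts_xW P k k' t (map_sub_str k D) (map_sub_str k' D') i,
      parts_xW P k k' t (map_sub_str k D) (map_sub_str k' D') j]
  rw [e1, e2, e3, pair_word, FgW]
  generalize (PU fun i j => if i ∈ TS ∧ j ∈ TS then
    PP (!(sW i)) (!(sW j)) (bW P k k' t i - bW P k k' t j) ^ 4 else 1) = U4
  generalize (PU fun i j => if i ∈ TD ∧ j ∈ TD then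
    PP (sW i) (sW j) (bW P k k' t i - bW P k k' t j) else 1) = U1
  generalize (PU fun i j => pp (aW P k k' t i) (aW P k k' t j)) = U0
  have key : ∀ i, (wt (ob3 (kkW k k' i)) * Z (sW i) (some (kkW k k' i)) (zW P k k' t i) *
        (if i ∈ TS then kp * (cAW * Z (!(sW i)) none (bW P k k' t i)) ^ 2 else 1) *
        (if i ∈ TD then -kp / (cdW * Bd.qg 0 ^ 2 * Z (sW i) none (bW P k k' t i)) else 1)) *
      (if i ∈ TD then gHI P (fmW k k' t D D' y) (sW i) (bW P k k' t i) else 1) *
      (if i ∈ TS then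
        (∏ j ∈ univ.erase i, pp (!(sW i), false, bW P k k' t i) (aW P k k' t j)) ^ 2 else 1) *
      (if i ∈ TD then (∏ j ∈ univ.erase i, pp (sW i, false, bW P k k' t i) (aW P k k' t j))⁻¹ *
          ∏ j ∈ univ.erase i, (if j ∈ TS then
            (PP (sW i) (!(sW j)) (bW P k k' t i - bW P k k' t j) ^ 2)⁻¹ else 1) else 1) =
      wt (ob3 (kkW k k' i)) * Z (sW i) (some (kkW k k' i)) (zW P k k' t i) *
        (if i ∈ TS then kp * rbW Z P k k' t i ^ 2 else 1) *
        (if i ∈ TD then gfW Z P k k' t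
          (gHI P (fmW k k' t D D' y) (sW i) (bW P k k' t i)) i else 1) := by
    intro i
    have a1 : ∏ j ∈ univ.erase i, pp (!(sW i), false, bW P k k' t i) (aW P k k' t j) =
        ∏ j ∈ univ.erase i, gz (!(sW i), .A) (o3 k k' j) (bW P k k' t i - zW P k k' t j) :=
      Finset.prod_congr rfl fun j _ => pp_aW P k k' t _ _ j
    have a2 : ∏ j ∈ univ.erase i, pp (sW i, false, bW P k k' t i) (aW P k k' t j) =
        ∏ j ∈ univ.erase i, gz (sW i, .A) (o3 k k' j) (bW P k k' t i - zW P k k' t j) :=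
      Finset.prod_congr rfl fun j _ => pp_aW P k k' t _ _ j
    rw [a1, a2]
    by_cases hi : i ∈ TD
    · have hs := hsub hi
      have a3 : (∏ j, if j ∈ TS then
          PP (sW i) (!(sW j)) (bW P k k' t i - bW P k k' t j) ^ 2 else 1) =
          qg 0 ^ 2 * ∏ j ∈ univ.erase i, if j ∈ TS then
            PP (sW i) (!(sW j)) (bW P k k' t i - bW P k k' t j) ^ 2 else 1 := by
        rw [← Finset.mul_prod_erase univ _ (Finset.mem_univ i), if_pos hs, PP_diff, sub_self]
      have a4 : ∏ j ∈ univ.erase i, (if j ∈ TS then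
            (PP (sW i) (!(sW j)) (bW P k k' t i - bW P k k' t j) ^ 2)⁻¹ else 1) =
          (∏ j ∈ univ.erase i, if j ∈ TS then
            PP (sW i) (!(sW j)) (bW P k k' t i - bW P k k' t j) ^ 2 else 1)⁻¹ := by
        rw [← Finset.prod_inv_distrib]
        refine Finset.prod_congr rfl fun j _ => ?_
        split_ifs
        · rfl
        · rw [inv_one]
      unfold gfW
      rw [← hTS, a3, a4]
      simp only [if_pos hi, if_pos hs]
      unfold rbW rdW
      simp only [div_eq_mul_inv, mul_inv, mul_pow]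
      ring
    · simp only [if_neg hi]
      by_cases hs : i ∈ TS
      · simp only [if_pos hs]
        unfold rbW
        ring
      · simp only [if_neg hs]
        ring
  have e4 := Finset.prod_congr (rfl : (univ : Finset (Fin p ⊕ Fin p')) = univ) fun i _ => key i
  simp only [Finset.prod_mul_distrib] at e4 ⊢
  linear_combination (U0 * U4 * U1) * e4

theorem gfW_true (i : {i : Fin p // k i = .S}) :
    gfW Z P k k' t (gHI P (fmW k k' t D D' y) (sW (Sum.inl i.1 : Fin p ⊕ Fin p'))
      (bW P k k' t (Sum.inl i.1))) (Sum.inl i.1) =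
    -kp * loc (bY P k k' t) (bX P k k' t i) / (rdW Z P k k' t (Sum.inl i.1) *
      (∏ j, q (bX P k k' t i - bY P k k' t j) ^ 2) *
      ∏ j, qg (bX P k k' t i - bX P k k' t j) ^ 2) := by
  have e : gHI P (fmW k k' t D D' y) (sW (Sum.inl i.1 : Fin p ⊕ Fin p'))
      (bW P k k' t (Sum.inl i.1)) = loc (bY P k k' t) (bX P k k' t i) := gHI_true P k k' t D D' y _
  rw [e]
  unfold gfW
  rw [prod_set (fun j => PP (sW (Sum.inl i.1 : Fin p ⊕ Fin p')) (!(sW j))
    (bW P k k' t (Sum.inl i.1) - bW P k k' t j) ^ 2), prod_strS, prod_strS]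
  have e1 : ∀ j : {i : Fin p // k i = .S}, PP (sW (Sum.inl i.1 : Fin p ⊕ Fin p'))
      (!(sW (Sum.inl j.1 : Fin p ⊕ Fin p')))
      (bW P k k' t (Sum.inl i.1) - bW P k k' t (Sum.inl j.1)) = qg (bX P k k' t i - bX P k k' t j) :=
    fun j => PP_diff true _
  have e2 : ∀ j : {i : Fin p' // k' i = .S}, PP (sW (Sum.inl i.1 : Fin p ⊕ Fin p'))
      (!(sW (Sum.inr j.1 : Fin p ⊕ Fin p')))
      (bW P k k' t (Sum.inl i.1) - bW P k k' t (Sum.inr j.1)) = q (bX P k k' t i - bY P k k' t j) :=
    fun j => PP_same true _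
  simp only [e1, e2]
  rw [mul_comm (∏ x, qg (bX P k k' t i - bX P k k' t x) ^ 2), mul_assoc]

theorem gfW_false (i : {i : Fin p' // k' i = .S}) :
    gfW Z P k k' t (gHI P (fmW k k' t D D' y) (sW (Sum.inr i.1 : Fin p ⊕ Fin p'))
      (bW P k k' t (Sum.inr i.1))) (Sum.inr i.1) =
    -kp * loc (bX P k k' t) (bY P k k' t i) / (rdW Z P k k' t (Sum.inr i.1) *
      (∏ j, q (bY P k k' t i - bX P k k' t j) ^ 2) *
      ∏ j, qg (bY P k k' t i - bY P k k' t j) ^ 2) := by
  have e : gHI P (fmW k k' t D D' y) (sW (Sum.inr i.1 : Fin p ⊕ Fin p'))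
      (bW P k k' t (Sum.inr i.1)) = loc (bX P k k' t) (bY P k k' t i) := gHI_false P k k' t D D' y _
  rw [e]
  unfold gfW
  rw [prod_set (fun j => PP (sW (Sum.inr i.1 : Fin p ⊕ Fin p')) (!(sW j))
    (bW P k k' t (Sum.inr i.1) - bW P k k' t j) ^ 2), prod_strS, prod_strS]
  have e1 : ∀ j : {i : Fin p // k i = .S}, PP (sW (Sum.inr i.1 : Fin p ⊕ Fin p'))
      (!(sW (Sum.inl j.1 : Fin p ⊕ Fin p')))
      (bW P k k' t (Sum.inr i.1) - bW P k k' t (Sum.inl j.1)) = q (bY P k k' t i - bX P k k' t j) :=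
    fun j => PP_same false _
  have e2 : ∀ j : {i : Fin p' // k' i = .S}, PP (sW (Sum.inr i.1 : Fin p ⊕ Fin p'))
      (!(sW (Sum.inr j.1 : Fin p ⊕ Fin p')))
      (bW P k k' t (Sum.inr i.1) - bW P k k' t (Sum.inr j.1)) = qg (bY P k k' t i - bY P k k' t j) :=
    fun j => PP_diff false _
  simp only [e1, e2]
  rw [mul_assoc]

/-- **the weight of the objects of a word** -/
theorem obj_W : (1 / 2 : ℂ) ^ ((strS k).card + (strS k').card) *
    (∏ i, obK6 Z P (ojW k k' t D D' i)) *
    (∏ i, locC6 (gHI P (fmW k k' t D D' y)) P (ojW k k' t D D' i)) *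
    (PU fun i j => pairC6 P (ojW k k' t D D' i) (ojW k k' t D D' j)) =
      ((∏ i, wt (ob3 (k i))) * ∏ i, wt (ob3 (k' i))) *
        Fg (o3 k k') (h3 (Z true) (Z false) k k')
          (pos (Sum.elim (fun i => lnK P (k i)) (fun i => lnK P (k' i))) t) *
        clW Z P k k' t D D' := by
  rw [obj_sep]
  have e0 : (∏ i, wt (ob3 (kkW k k' i))) = (∏ i, wt (ob3 (k i))) * ∏ i, wt (ob3 (k' i)) := by
    rw [Fintype.prod_sum_type]
    rfl
  rw [e0]
  congr 1
  rw [prod_set (fun i => kp * rbW Z P k k' t i ^ 2), prod_set (fun i => gfW Z P k k' t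
    (gHI P (fmW k k' t D D' y) (sW i) (bW P k k' t i)) i)]
  rw [PU_set (f := fun i j => PP (!(sW i)) (!(sW j)) (bW P k k' t i - bW P k k' t j) ^ 4)
    (fun i j => by rw [PP_comm, ← PP_neg, neg_sub]),
    PU_set (f := fun i j => PP (sW i) (sW j) (bW P k k' t i - bW P k k' t j))
    (fun i j => by rw [PP_comm, ← PP_neg, neg_sub])]
  rw [prod_strS k, prod_strS k', PP_strS k, PP_strS k', Finset.prod_map, Finset.prod_map]
  rw [← PP_val (fun i j => PP (sW (Sum.inl i : Fin p ⊕ Fin p')) (sW (Sum.inl j : Fin p ⊕ Fin p'))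
      (bW P k k' t (Sum.inl i) - bW P k k' t (Sum.inl j))) D,
    ← PP_val (fun i j => PP (sW (Sum.inr i : Fin p ⊕ Fin p')) (sW (Sum.inr j : Fin p ⊕ Fin p'))
      (bW P k k' t (Sum.inr i) - bW P k k' t (Sum.inr j))) D']
  have h1 : Pool.Agent.PHD.PP (fun x y : {i : Fin p // k i = .S} =>
      PP (!sW (Sum.inl x.1 : Fin p ⊕ Fin p')) (!sW (Sum.inl y.1 : Fin p ⊕ Fin p'))
        (bW P k k' t (Sum.inl x.1) - bW P k k' t (Sum.inl y.1)) ^ 4) univ =
      Pool.Agent.PHD.PP (fun i j => q (bX P k k' t i - bX P k k' t j) ^ 4) univ := by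
    congr 1
  have h2 : Pool.Agent.PHD.PP (fun x y : {i : Fin p' // k' i = .S} =>
      PP (!sW (Sum.inr x.1 : Fin p ⊕ Fin p')) (!sW (Sum.inr y.1 : Fin p ⊕ Fin p'))
        (bW P k k' t (Sum.inr x.1) - bW P k k' t (Sum.inr y.1)) ^ 4) univ =
      Pool.Agent.PHD.PP (fun i j => q (bY P k k' t i - bY P k k' t j) ^ 4) univ := by
    congr 1
  have h3 : ∏ i ∈ strS k, ∏ j ∈ strS k',
      PP (!sW (Sum.inl i : Fin p ⊕ Fin p')) (!sW (Sum.inr j : Fin p ⊕ Fin p'))
        (bW P k k' t (Sum.inl i) - bW P k k' t (Sum.inr j)) ^ 4 =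
      ∏ i, ∏ i', qg (bY P k k' t i - bX P k k' t i') ^ 4 := by
    rw [prod_strS]
    have e : ∀ i : {i : Fin p // k i = .S}, ∏ j ∈ strS k',
        PP (!sW (Sum.inl i.1 : Fin p ⊕ Fin p')) (!sW (Sum.inr j : Fin p ⊕ Fin p'))
        (bW P k k' t (Sum.inl i.1) - bW P k k' t (Sum.inr j)) ^ 4 =
        ∏ i', qg (bY P k k' t i' - bX P k k' t i) ^ 4 := by
      intro i
      rw [prod_strS]
      refine Finset.prod_congr rfl fun j _ => ?_
      exact congrArg (· ^ 4) ((PP_diff false _).trans (qg_evenB _ _))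
    rw [Finset.prod_congr rfl fun i _ => e i]
    exact Finset.prod_comm
  have h4 : ∏ x ∈ D, gfW Z P k k' t
      (gHI P (fmW k k' t D D' y) (sW (Sum.inl ((Function.Embedding.subtype fun i => k i = .S) x) :
        Fin p ⊕ Fin p')) (bW P k k' t (Sum.inl ((Function.Embedding.subtype fun i => k i = .S) x))))
        (Sum.inl ((Function.Embedding.subtype fun i => k i = .S) x)) =
      ∏ j ∈ D, (-kp * loc (bY P k k' t) (bX P k k' t j) / (rdW Z P k k' t (Sum.inl j.1) *
        (∏ i, q (bX P k k' t j - bY P k k' t i) ^ 2) *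
          ∏ i, qg (bX P k k' t j - bX P k k' t i) ^ 2)) :=
    Finset.prod_congr rfl fun i _ => gfW_true Z P k k' t D D' y i
  have h5 : ∏ x ∈ D', gfW Z P k k' t
      (gHI P (fmW k k' t D D' y) (sW (Sum.inr ((Function.Embedding.subtype fun i => k' i = .S) x) :
        Fin p ⊕ Fin p')) (bW P k k' t (Sum.inr ((Function.Embedding.subtype fun i => k' i = .S) x))))
        (Sum.inr ((Function.Embedding.subtype fun i => k' i = .S) x)) =
      ∏ j ∈ D', (-kp * loc (bX P k k' t) (bY P k k' t j) / (rdW Z P k k' t (Sum.inr j.1) *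
        (∏ i, q (bY P k k' t j - bX P k k' t i) ^ 2) *
          ∏ i, qg (bY P k k' t j - bY P k k' t i) ^ 2)) :=
    Finset.prod_congr rfl fun i _ => gfW_false Z P k k' t D D' y i
  have h6 : Pool.Agent.PHD.PP (fun x y : {i : Fin p // k i = .S} =>
      PP (sW (Sum.inl x.1 : Fin p ⊕ Fin p')) (sW (Sum.inl y.1 : Fin p ⊕ Fin p'))
        (bW P k k' t (Sum.inl x.1) - bW P k k' t (Sum.inl y.1))) D =
      Pool.Agent.PHD.PP (fun i j => q (bX P k k' t i - bX P k k' t j)) D := by
    congr 1
  have h7 : Pool.Agent.PHD.PP (fun x y : {i : Fin p' // k' i = .S} =>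
      PP (sW (Sum.inr x.1 : Fin p ⊕ Fin p')) (sW (Sum.inr y.1 : Fin p ⊕ Fin p'))
        (bW P k k' t (Sum.inr x.1) - bW P k k' t (Sum.inr y.1))) D' =
      Pool.Agent.PHD.PP (fun i j => q (bY P k k' t i - bY P k k' t j)) D' := by
    congr 1
  have h8 : ∏ i ∈ D.map (Function.Embedding.subtype fun i => k i = .S),
      ∏ j ∈ D'.map (Function.Embedding.subtype fun i => k' i = .S),
        PP (sW (Sum.inl i : Fin p ⊕ Fin p')) (sW (Sum.inr j : Fin p ⊕ Fin p'))
          (bW P k k' t (Sum.inl i) - bW P k k' t (Sum.inr j)) =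
      ∏ j ∈ D, ∏ j' ∈ D', qg (bX P k k' t j - bY P k k' t j') := by
    rw [Finset.prod_map]
    refine Finset.prod_congr rfl fun i _ => ?_
    rw [Finset.prod_map]
    rfl
  rw [h1, h2, h3, h4, h5, h6, h7, h8]
  unfold clW nodW gluW
  ring

end word

end PHK

end
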