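import Pool.Agent.PHK.WordH

/-!
# The particle-hole form (P): the potential of one word on a free quantum

* `pot_oj`: the objects of the word; `pot_ho`: the free holes;
* **`pot_W`**: the potential of the family is the field `adH (gD ..)` of the exact identity.
-/

set_option autoImplicit false
set_option linter.unusedSectionVars false

noncomputable section

open Complex MeasureTheory Finset
open scoped Real ENNReal

namespace PHK

open NUO NUP1 NUP1S NUP1S.Mg NUP1S.Ab NUP1S.AbG NURow
open NUP1.Bd (wt Ob)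
open Pool.Agent.PHK (lM lG lK)
open Pool.Agent.PHD (QP xP)
open NUP1.Bd (qg)

section word

variable (Z : Bool → Option O3 → ℂ → ℂ) (P : Par6) {p p' a b : ℕ} (k : Fin p → O3) (k' : Fin p' → O3)
  (t : Fin p ⊕ Fin p' → ℝ) (D : Finset {i : Fin p // k i = .S}) (D' : Finset {i : Fin p' // k' i = .S})
  (y : Fin a ⊕ Fin b → Bool × ℝ)

/-- **a quantum of species `s` at `z` and the objects** -/
theorem pot_oj (s : Bool) (z : ℂ) :
    ∏ i, potC6 P (ojW k k' t D D' i) s z =
      (∏ i, gz (s, .A) (o3 k k' i) (z - zW P k k' t i)) *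
        (((∏ i : {i : Fin p' // k' i = .S}, PP s true (z - bY P k k' t i) ^ 2) *
          ∏ i : {i : Fin p // k i = .S}, PP s false (z - bX P k k' t i) ^ 2) *
        ((∏ i ∈ D, (PP s true (z - bX P k k' t i))⁻¹) *
          ∏ i ∈ D', (PP s false (z - bY P k k' t i))⁻¹)) := by
  have h1 : ∀ i, potC6 P (ojW k k' t D D' i) s z =
      (gz (s, .A) (o3 k k' i) (z - zW P k k' t i)) *
        (if i ∈ (strS k).disjSum (strS k') then PP s (!(sW i)) (z - bW P k k' t i) ^ 2 else 1) *
        (if i ∈ (D.map (Function.Embedding.subtype _)).disjSum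
          (D'.map (Function.Embedding.subtype _)) then
            (PP s (sW i) (z - bW P k k' t i))⁻¹ else 1) := by
    intro i
    unfold potC6 ojW
    rw [parts_xW P k k' t (map_sub D) (map_sub D')]
    unfold pW
    rw [ppC6_append_right, ppC6_append_right, ppC6_one_one]
    congr 1
    · congr 1
      · have e : pp (s, false, z) (aW P k k' t i) =
            gz (s, .A) (o3 k k' i) (z - zW P k k' t i) := by
          rw [gz_pp]
          rcases i with i | i <;> rfl
        unfold pp6
        rw [e]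
        simp
      · split_ifs
        · rw [ppC6_one_one, pp6_quanta]
          norm_cast
        · rw [ppC6_nil_right]
    · split_ifs
      · rw [ppC6_one_one, pp6_quanta]
        norm_num
      · rw [ppC6_nil_right]
  simp only [h1]
  rw [Finset.prod_mul_distrib, Finset.prod_mul_distrib, prod_TD, prod_TS]
  have e1 : (∏ i : {i : Fin p // k i = .S}, PP s (!(sW (Sum.inl i.1 : Fin p ⊕ Fin p')))
      (z - bW P k k' t (Sum.inl i.1)) ^ 2) =
      ∏ i : {i : Fin p // k i = .S}, PP s false (z - bX P k k' t i) ^ 2 := rfl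
  have e2 : (∏ i : {i : Fin p' // k' i = .S}, PP s (!(sW (Sum.inr i.1 : Fin p ⊕ Fin p')))
      (z - bW P k k' t (Sum.inr i.1)) ^ 2) =
      ∏ i : {i : Fin p' // k' i = .S}, PP s true (z - bY P k k' t i) ^ 2 := rfl
  have e3 : (∏ i ∈ D, (PP s (sW (Sum.inl i.1 : Fin p ⊕ Fin p'))
      (z - bW P k k' t (Sum.inl i.1)))⁻¹) = ∏ i ∈ D, (PP s true (z - bX P k k' t i))⁻¹ := rfl
  have e4 : (∏ i ∈ D', (PP s (sW (Sum.inr i.1 : Fin p ⊕ Fin p'))
      (z - bW P k k' t (Sum.inr i.1)))⁻¹) = ∏ i ∈ D', (PP s false (z - bY P k k' t i))⁻¹ := rfl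
  rw [e1, e2, e3, e4]
  ring

/-- **a quantum of species `s` at `z` and a free hole** -/
theorem pot_ho (s : Bool) (z : ℂ) (j : Fin a ⊕ Fin b) :
    potC6 P (hoW y j) s z = (PP s j.isLeft (z - lG (lnH P) (y j)))⁻¹ := by
  unfold potC6
  rw [parts_ho, ppC6_one_one, pp6_quanta]
  norm_num

/-- **the potential of the family is the field of the exact identity** -/
theorem pot_W (s : Bool) (u : ℂ) : Z s none u * potI P (fmW k k' t D D' y) s u =
    adH (gD (fW Z P k k' t) (bY P k k' t) (bX P k k' t) D (bX P k k' t) (bY P k k' t) D')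
      (hS a b) (hZ (lnH P) (fun i => y (.inl i), fun i => y (.inr i))) s u := by
  unfold potI adH
  rw [gD_eval, Fintype.prod_sum_type]
  have e1 : ∏ i, potC6 P (fmW k k' t D D' y (Sum.inl i)) s u =
      ∏ i, potC6 P (ojW k k' t D D' i) s u :=
    Finset.prod_congr rfl fun i _ => by rw [fmW_inl]
  have e2 : ∏ j, potC6 P (fmW k k' t D D' y (Sum.inr j)) s u =
      ∏ j, (PP s (hS a b j) (u - hZ (lnH P) (fun i => y (.inl i), fun i => y (.inr i)) j))⁻¹ := by
    refine Finset.prod_congr rfl fun j _ => ?_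
    rw [fmW_inr, pot_ho]
    rcases j with j | j <;> rfl
  rw [e1, e2, pot_oj]
  have e3 : fW Z P k k' t s u = Z s none u * ∏ i, gz (s, .A) (o3 k k' i) (u - zW P k k' t i) := by
    unfold fW fld zW
    ring
  rw [e3]
  ring

end word

end PHK

end
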