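import Pool.Agent.PHK.WordS
import Pool.Agent.PHK.WordO
import Pool.Agent.PHK.WordH
import Pool.Agent.PHK.WordI0
import Pool.Agent.PHK.WordQ

/-!
# The particle-hole form (P): the weights of the exact identity and of the words

`XE`: the field of the zeros of a class; `rdZ`: the values at the zeros; **`wordW_of`**: the structure
`WordW` from the closed forms.
-/

set_option autoImplicit false
set_option linter.unusedSectionVars false
set_option linter.unusedVariables false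

noncomputable section

open Complex MeasureTheory Finset
open scoped Real ENNReal Nat

namespace PHK

open NUO NUP1 NUP1S NUP1S.Mg NUP1S.Ab NUP1S.AbG NURow
open NUP1.Bd (wt Ob qg)
open Pool.Agent.PHK (lM lG lK)
open Pool.Agent.PHD (QP xP)

/-! ### pairs of glued holes and zeros -/

section glu

variable {p : ℕ} {k : Fin p → O3} {V : Type} [Fintype V] [LinearOrder V]

theorem PP_glu (D : Finset (StrT k)) (A : Finset V) (f : StrT k ⊕ₗ V → StrT k ⊕ₗ V → ℂ) :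
    Pool.Agent.PHD.PP f (glu D A) =
      Pool.Agent.PHD.PP (fun i j => f (toLex (Sum.inl i)) (toLex (Sum.inl j))) D *
        Pool.Agent.PHD.PP (fun i j => f (toLex (Sum.inr i)) (toLex (Sum.inr j))) A *
        ∏ i ∈ D, ∏ j ∈ A, f (toLex (Sum.inl i)) (toLex (Sum.inr j)) := by
  unfold Pool.Agent.PHD.PP
  rw [prod_filter, prod_product, prod_glu, prod_filter, prod_product, prod_filter, prod_product]
  have e1 : ∀ i ∈ D, (∏ y ∈ glu D A, if (toLex (Sum.inl i) : StrT k ⊕ₗ V) < y then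
      f (toLex (Sum.inl i)) y else 1) = (∏ j ∈ D, if i < j then
      f (toLex (Sum.inl i)) (toLex (Sum.inl j)) else 1) *
      ∏ j ∈ A, f (toLex (Sum.inl i)) (toLex (Sum.inr j)) := by
    intro i _
    rw [prod_glu]
    congr 1
    refine prod_congr rfl fun j _ => ?_
    exact if_congr Sum.Lex.inl_lt_inl_iff rfl rfl
  have e2 : ∀ i ∈ A, (∏ y ∈ glu D A, if (toLex (Sum.inr i) : StrT k ⊕ₗ V) < y then
      f (toLex (Sum.inr i)) y else 1) = ∏ j ∈ A, if i < j then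
      f (toLex (Sum.inr i)) (toLex (Sum.inr j)) else 1 := by
    intro i _
    rw [prod_glu, Finset.prod_eq_one, one_mul]
    · refine prod_congr rfl fun j _ => ?_
      exact if_congr Sum.Lex.inr_lt_inr_iff rfl rfl
    · intro j _
      rw [if_neg Sum.Lex.not_inr_lt_inl]
  rw [prod_congr rfl e1, prod_congr rfl e2, prod_mul_distrib]
  ring

end glu

/-! ### the field of the zeros -/

variable {ν : Bool → Type} [∀ s, Fintype (ν s)] [∀ s, LinearOrder (ν s)]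

/-- the field of the zeros of a class on an object of type `o`, species `s` -/
def XE (ζ : ∀ s, ν s → ℂ) (A : Finset (ν true)) (A' : Finset (ν false)) (s : Bool) (o : Ob)
    (u : ℂ) : ℂ :=
  (∏ j ∈ A, gz (true, .A) (s, o) (ζ true j - u)) * ∏ j ∈ A', gz (false, .A) (s, o) (ζ false j - u)

theorem gz_AA (s s' : Bool) (z : ℂ) : gz (s, .A) (s', .A) z = PP s s' z := by
  have h := gz_pp (s, .A) (s', .A) z 0
  rw [sub_zero] at h
  rw [h]
  have h2 := Ab.pp_quanta s s' z 0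
  rw [sub_zero] at h2
  exact h2

theorem XE_true (ζ : ∀ s, ν s → ℂ) (A : Finset (ν true)) (A' : Finset (ν false)) (u : ℂ) :
    XE ζ A A' true .A u = (∏ j ∈ A, q (ζ true j - u)) * ∏ j ∈ A', qg (ζ false j - u) := by
  unfold XE
  simp only [gz_AA]
  rfl

theorem XE_false (ζ : ∀ s, ν s → ℂ) (A : Finset (ν true)) (A' : Finset (ν false)) (u : ℂ) :
    XE ζ A A' false .A u = (∏ j ∈ A, qg (ζ true j - u)) * ∏ j ∈ A', q (ζ false j - u) := by
  unfold XE
  simp only [gz_AA]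
  rfl

section word

variable (Z : Bool → Option O3 → ℂ → ℂ) (P : Par6) {p p' a b : ℕ} (k : Fin p → O3) (k' : Fin p' → O3)
  (t : Fin p ⊕ Fin p' → ℝ) (D : Finset (StrT k)) (D' : Finset (StrT k'))
  (y : Fin a ⊕ Fin b → Bool × ℝ) (ζ ρ : ∀ s, ν s → ℂ) (A : Finset (ν true)) (A' : Finset (ν false))

/-- field of the objects on a quantum -/
def GZ (s : Bool) (z : ℂ) : ℂ := ∏ i, gz (s, .A) (o3 k k' i) (z - zW P k k' t i)

theorem o3W (i : Fin p ⊕ Fin p') : o3 k k' i = (sW i, ob3 (kkW k k' i)) := by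
  rcases i with i | i <;> rfl

theorem Fg_ZE : Fg (o3 k k') (h3 (ZE Z ζ A A' true) (ZE Z ζ A A' false) k k')
    (pos (Sum.elim (fun i => lnK P (k i)) (fun i => lnK P (k' i))) t) =
    Fg (o3 k k') (h3 (Z true) (Z false) k k')
      (pos (Sum.elim (fun i => lnK P (k i)) (fun i => lnK P (k' i))) t) *
    ((∏ j ∈ A, GZ P k k' t true (ζ true j)) * ∏ j ∈ A', GZ P k k' t false (ζ false j))⁻¹ := by
  rw [FgW, FgW]
  have e : (∏ i, ZE Z ζ A A' (sW i) (some (kkW k k' i)) (zW P k k' t i)) =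
      (∏ i, Z (sW i) (some (kkW k k' i)) (zW P k k' t i)) *
        ((∏ j ∈ A, GZ P k k' t true (ζ true j)) * ∏ j ∈ A', GZ P k k' t false (ζ false j))⁻¹ := by
    have e1 : ∀ i, ZE Z ζ A A' (sW i) (some (kkW k k' i)) (zW P k k' t i) =
        Z (sW i) (some (kkW k k' i)) (zW P k k' t i) *
        ((∏ j ∈ A, gz (true, .A) (o3 k k' i) (ζ true j - zW P k k' t i)) *
          ∏ j ∈ A', gz (false, .A) (o3 k k' i) (ζ false j - zW P k k' t i))⁻¹ := by
      intro i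
      rw [o3W]
      rfl
    rw [prod_congr rfl fun i _ => e1 i, prod_mul_distrib, prod_inv_distrib, prod_mul_distrib,
      prod_comm, prod_comm (s := univ) (t := A')]
    rfl
  rw [e]
  ring

theorem rbW_ZE (i : Fin p ⊕ Fin p') : rbW (ZE Z ζ A A') P k k' t i =
    rbW Z P k k' t i * (XE ζ A A' (!(sW i)) .A (bW P k k' t i))⁻¹ := by
  unfold rbW ZE XE ob4
  simp only [Option.elim]
  ring

theorem rdW_ZE (i : Fin p ⊕ Fin p') : rdW (ZE Z ζ A A') P k k' t i =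
    rdW Z P k k' t i * (XE ζ A A' (sW i) .A (bW P k k' t i))⁻¹ := by
  unfold rdW ZE XE ob4
  simp only [Option.elim]
  ring

theorem fW_ZE (s : Bool) (u : ℂ) : fW (ZE Z ζ A A') P k k' t s u =
    fW Z P k k' t s u * (XE ζ A A' s .A u)⁻¹ := by
  unfold fW fld ZE XE ob4
  simp only [Option.elim]
  ring

theorem clW_ZE : clW (ZE Z ζ A A') P k k' t D D' = clW Z P k k' t D D' *
    (((∏ i, XE ζ A A' true .A (bY P k k' t i) ^ 2) * ∏ i, XE ζ A A' false .A (bX P k k' t i) ^ 2)⁻¹ *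
    ((∏ i ∈ D, XE ζ A A' true .A (bX P k k' t i)) * ∏ i ∈ D', XE ζ A A' false .A (bY P k k' t i))) := by
  have e1 : ∀ i : StrT k', rbW (ZE Z ζ A A') P k k' t (Sum.inr i.1) =
      rbW Z P k k' t (Sum.inr i.1) * (XE ζ A A' true .A (bY P k k' t i))⁻¹ := fun i =>
    rbW_ZE Z P k k' t ζ A A' _
  have e2 : ∀ i : StrT k, rbW (ZE Z ζ A A') P k k' t (Sum.inl i.1) =
      rbW Z P k k' t (Sum.inl i.1) * (XE ζ A A' false .A (bX P k k' t i))⁻¹ := fun i =>
    rbW_ZE Z P k k' t ζ A A' _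
  have e3 : ∀ i : StrT k, rdW (ZE Z ζ A A') P k k' t (Sum.inl i.1) =
      rdW Z P k k' t (Sum.inl i.1) * (XE ζ A A' true .A (bX P k k' t i))⁻¹ := fun i =>
    rdW_ZE Z P k k' t ζ A A' _
  have e4 : ∀ i : StrT k', rdW (ZE Z ζ A A') P k k' t (Sum.inr i.1) =
      rdW Z P k k' t (Sum.inr i.1) * (XE ζ A A' false .A (bY P k k' t i))⁻¹ := fun i =>
    rdW_ZE Z P k k' t ζ A A' _
  unfold clW nodW gluW
  simp only [e1, e2, e3, e4, mul_pow, div_eq_mul_inv, mul_inv, inv_inv, inv_pow,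
    Finset.prod_mul_distrib, Finset.prod_inv_distrib]
  ring

theorem hlW_ZE : hlW (ZE Z ζ A A') P k k' t D D' y = hlW Z P k k' t D D' y *
    ((∏ i, XE ζ A A' true .A (lG (lnH P) (y (.inl i)))) *
      ∏ i, XE ζ A A' false .A (lG (lnH P) (y (.inr i)))) := by
  unfold hlW holW
  simp only [fW_ZE, div_eq_mul_inv, mul_inv, inv_inv, Finset.prod_mul_distrib,
    Finset.prod_inv_distrib]
  ring

/-! ### the closed forms of the exact identity -/

variable {d : StrT k ⊕ₗ ν true → ℂ} {d' : StrT k' ⊕ₗ ν false → ℂ}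

/-- the values at the zeros of the first species -/
def rdZ (x : StrT k ⊕ₗ ν true) : ℂ :=
  Sum.elim (fun i : StrT k => rdW Z P k k' t (Sum.inl i.1))
    (fun j => ρ true j * GZ P k k' t true (ζ true j)) (ofLex x)

/-- the values at the zeros of the second species -/
def rdZ' (x : StrT k' ⊕ₗ ν false) : ℂ :=
  Sum.elim (fun i : StrT k' => rdW Z P k k' t (Sum.inr i.1))
    (fun j => ρ false j * GZ P k k' t false (ζ false j)) (ofLex x)

/-- the constant of the exact identity -/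
def clZ (d : StrT k ⊕ₗ ν true → ℂ) (d' : StrT k' ⊕ₗ ν false → ℂ) : ℂ :=
  nodW (bY P k k' t) (fun i => rbW Z P k k' t (Sum.inr i.1)) *
    nodW (bX P k k' t) (fun i => rbW Z P k k' t (Sum.inl i.1)) *
    (∏ i, ∏ i', qg (bY P k k' t i - bX P k k' t i') ^ 4) *
    (gluW (bY P k k' t) (bX P k k' t) d (rdZ Z P k k' t ζ ρ) (glu D A) *
      gluW (bX P k k' t) (bY P k k' t) d' (rdZ' Z P k k' t ζ ρ) (glu D' A') *
      ∏ j ∈ glu D A, ∏ j' ∈ glu D' A', qg (d j - d' j'))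

private theorem q_sub_commX (z z' : ℂ) : q (z - z') = q (z' - z) := by
  have h := PP_neg true true (z' - z)
  rw [neg_sub] at h
  exact h

theorem clZ_eq (hd1 : ∀ i, d (toLex (Sum.inl i)) = bX P k k' t i)
    (hd2 : ∀ j, d (toLex (Sum.inr j)) = ζ true j)
    (hd1' : ∀ i, d' (toLex (Sum.inl i)) = bY P k k' t i)
    (hd2' : ∀ j, d' (toLex (Sum.inr j)) = ζ false j) :
    clZ Z P k k' t D D' ζ ρ A A' d d' = clW Z P k k' t D D' * (kaE ζ ρ A A' *
      ((∏ j ∈ A, loc (bY P k k' t) (ζ true j)) * ∏ j ∈ A', loc (bX P k k' t) (ζ false j)) *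
      ((∏ j ∈ A, GZ P k k' t true (ζ true j)) * ∏ j ∈ A', GZ P k k' t false (ζ false j))⁻¹ *
      (((∏ i, XE ζ A A' true .A (bY P k k' t i) ^ 2) *
        ∏ i, XE ζ A A' false .A (bX P k k' t i) ^ 2)⁻¹ *
      ((∏ i ∈ D, XE ζ A A' true .A (bX P k k' t i)) *
        ∏ i ∈ D', XE ζ A A' false .A (bY P k k' t i)))) := by
  have r1 : ∀ i : StrT k, rdZ Z P k k' t ζ ρ (toLex (Sum.inl i)) = rdW Z P k k' t (Sum.inl i.1) :=
    fun i => rfl
  have r2 : ∀ j : ν true, rdZ Z P k k' t ζ ρ (toLex (Sum.inr j)) =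
      ρ true j * GZ P k k' t true (ζ true j) := fun j => rfl
  have r1' : ∀ i : StrT k', rdZ' Z P k k' t ζ ρ (toLex (Sum.inl i)) =
      rdW Z P k k' t (Sum.inr i.1) := fun i => rfl
  have r2' : ∀ j : ν false, rdZ' Z P k k' t ζ ρ (toLex (Sum.inr j)) =
      ρ false j * GZ P k k' t false (ζ false j) := fun j => rfl
  have c1 : ∏ i : StrT k', ∏ j ∈ A, q (ζ true j - bY P k k' t i) ^ 2 =
      ∏ j ∈ A, ∏ i, q (ζ true j - bY P k k' t i) ^ 2 := prod_comm
  have c2 : ∏ i : StrT k, ∏ j ∈ A, qg (ζ true j - bX P k k' t i) ^ 2 =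
      ∏ j ∈ A, ∏ i, qg (ζ true j - bX P k k' t i) ^ 2 := prod_comm
  have c3 : ∏ i : StrT k', ∏ j ∈ A', qg (ζ false j - bY P k k' t i) ^ 2 =
      ∏ j ∈ A', ∏ i, qg (ζ false j - bY P k k' t i) ^ 2 := prod_comm
  have c4 : ∏ i : StrT k, ∏ j ∈ A', q (ζ false j - bX P k k' t i) ^ 2 =
      ∏ j ∈ A', ∏ i, q (ζ false j - bX P k k' t i) ^ 2 := prod_comm
  have c5 : ∏ i ∈ D, ∏ j ∈ A, q (bX P k k' t i - ζ true j) =
      ∏ i ∈ D, ∏ j ∈ A, q (ζ true j - bX P k k' t i) :=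
    prod_congr rfl fun i _ => prod_congr rfl fun j _ => q_sub_commX _ _
  have c6 : ∏ i ∈ D', ∏ j ∈ A', q (bY P k k' t i - ζ false j) =
      ∏ i ∈ D', ∏ j ∈ A', q (ζ false j - bY P k k' t i) :=
    prod_congr rfl fun i _ => prod_congr rfl fun j _ => q_sub_commX _ _
  have c7 : ∏ i ∈ D, ∏ j ∈ A', qg (bX P k k' t i - ζ false j) =
      ∏ i ∈ D, ∏ j ∈ A', qg (ζ false j - bX P k k' t i) :=
    prod_congr rfl fun i _ => prod_congr rfl fun j _ => qg_evenB _ _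
  have c8 : ∏ j ∈ A, ∏ i ∈ D', qg (ζ true j - bY P k k' t i) =
      ∏ i ∈ D', ∏ j ∈ A, qg (ζ true j - bY P k k' t i) := prod_comm
  unfold clZ clW kaE gluW
  rw [PP_glu, PP_glu, prod_glu, prod_glu, prod_glu]
  simp only [prod_glu, r1, r2, r1', r2', hd1, hd2, hd1', hd2', XE_true, XE_false, mul_pow,
    div_eq_mul_inv, mul_inv, inv_inv, inv_pow, Finset.prod_mul_distrib, Finset.prod_inv_distrib,
    ← Finset.prod_pow, c5, c6, c7, c8] at c1 c2 c3 c4 ⊢
  rw [c1, c2, c3, c4]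
  ring

/-- the free holes of the exact identity -/
def hlZ (d : StrT k ⊕ₗ ν true → ℂ) (d' : StrT k' ⊕ₗ ν false → ℂ) : ℂ :=
  ((∏ i, (lK (y (.inl i)) * holW (fW Z P k k' t true) (bY P k k' t) (bX P k k' t) d (glu D A)
      d' (glu D' A') (lG (lnH P) (y (.inl i))))) *
    ∏ i, (lK (y (.inr i)) * holW (fW Z P k k' t false) (bX P k k' t) (bY P k k' t) d' (glu D' A')
      d (glu D A) (lG (lnH P) (y (.inr i))))) *
    ((QP q fun i => lG (lnH P) (y (.inl i))) * (QP q fun i => lG (lnH P) (y (.inr i))) *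
      xP (lG (lnH P)) (lG (lnH P)) qg (fun i => y (.inl i)) fun i => y (.inr i))

theorem hlZ_eq (hd1 : ∀ i, d (toLex (Sum.inl i)) = bX P k k' t i)
    (hd2 : ∀ j, d (toLex (Sum.inr j)) = ζ true j)
    (hd1' : ∀ i, d' (toLex (Sum.inl i)) = bY P k k' t i)
    (hd2' : ∀ j, d' (toLex (Sum.inr j)) = ζ false j) :
    hlZ Z P k k' t D D' y A A' d d' = hlW (ZE Z ζ A A') P k k' t D D' y := by
  rw [hlW_ZE]
  have c1 : ∀ z : ℂ, ∏ j ∈ A, q (z - ζ true j) = ∏ j ∈ A, q (ζ true j - z) := fun z =>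
    prod_congr rfl fun j _ => q_sub_commX _ _
  have c2 : ∀ z : ℂ, ∏ j ∈ A', qg (z - ζ false j) = ∏ j ∈ A', qg (ζ false j - z) := fun z =>
    prod_congr rfl fun j _ => qg_evenB _ _
  have c3 : ∀ z : ℂ, ∏ j ∈ A, qg (z - ζ true j) = ∏ j ∈ A, qg (ζ true j - z) := fun z =>
    prod_congr rfl fun j _ => qg_evenB _ _
  have c4 : ∀ z : ℂ, ∏ j ∈ A', q (z - ζ false j) = ∏ j ∈ A', q (ζ false j - z) := fun z =>
    prod_congr rfl fun j _ => q_sub_commX _ _
  unfold hlZ hlW holW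
  simp only [prod_glu, hd1, hd2, hd1', hd2', XE_true, XE_false, c1, c2, c3, c4,
    Finset.prod_mul_distrib]
  ring

/-- the quanta of the exact identity -/
theorem gD_glu (hd1 : ∀ i, d (toLex (Sum.inl i)) = bX P k k' t i)
    (hd2 : ∀ j, d (toLex (Sum.inr j)) = ζ true j)
    (hd1' : ∀ i, d' (toLex (Sum.inl i)) = bY P k k' t i)
    (hd2' : ∀ j, d' (toLex (Sum.inr j)) = ζ false j) :
    gD (fW Z P k k' t) (bY P k k' t) d (glu D A) (bX P k k' t) d' (glu D' A') =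
      gD (fW (ZE Z ζ A A') P k k' t) (bY P k k' t) (bX P k k' t) D (bX P k k' t)
        (bY P k k' t) D' := by
  funext s u
  have c : ∀ (s' : Bool) (z : ℂ), PP s s' (u - z) = PP s' s (z - u) := fun s' z => by
    rw [PP_comm, ← PP_neg, neg_sub]
  rw [gD_eval, gD_eval, fW_ZE]
  unfold XE
  simp only [prod_glu, hd1, hd2, hd1', hd2', gz_AA, c, mul_inv, ← Finset.prod_inv_distrib]
  ring

/-- **the weights of the exact identity and of the words** -/
theorem wordW_of {a₀ a₁ x y₀ b₁ b₂ yl κ κ' q0 : ℝ} {F E F' E' : ℂ → ℂ}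
    (hd1 : ∀ i, d (toLex (Sum.inl i)) = bX P k k' t i)
    (hd2 : ∀ j, d (toLex (Sum.inr j)) = ζ true j)
    (hd1' : ∀ i, d' (toLex (Sum.inl i)) = bY P k k' t i)
    (hd2' : ∀ j, d' (toLex (Sum.inr j)) = ζ false j)
    (S : Sp6 (lnH P) a₀ a₁ x y₀ b₁ b₂ yl κ κ' q0 true (bY P k k' t) d (fW Z P k k' t true) F E)
    (S' : Sp6 (lnH P) a₀ a₁ x y₀ b₁ b₂ yl κ κ' q0 false (bX P k k' t) d' (fW Z P k k' t false)
      F' E')
    (hF : ∀ i, F (bY P k k' t i) = rbW Z P k k' t (Sum.inr i.1) *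
      ∏ i' ∈ univ.erase i, (bY P k k' t i - bY P k k' t i') ^ 2)
    (hF' : ∀ i, F' (bX P k k' t i) = rbW Z P k k' t (Sum.inl i.1) *
      ∏ i' ∈ univ.erase i, (bX P k k' t i - bX P k k' t i') ^ 2)
    (hE : ∀ j, E (d j) * rdZ Z P k k' t ζ ρ j * ∏ i, (d j - bY P k k' t i) ^ 2 =
      ∏ j' ∈ univ.erase j, (d j - d j'))
    (hE' : ∀ j, E' (d' j) * rdZ' Z P k k' t ζ ρ j * ∏ i, (d' j - bX P k k' t i) ^ 2 =
      ∏ j' ∈ univ.erase j, (d' j - d' j')) :
    WordW (((∏ i, wt (ob3 (k i))) * ∏ i, wt (ob3 (k' i))) *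
        Fg (o3 k k') (h3 (Z true) (Z false) k k')
          (pos (Sum.elim (fun i => lnK P (k i)) (fun i => lnK P (k' i))) t)) k k' t Z P ζ ρ (lnH P)
      (fW Z P k k' t) (bY P k k' t) d (bX P k k' t) d' F E F' E' := by
  refine ⟨fun D D' A A' h h' q => ?_, fun D D' A A' h h' q s u _ => ?_⟩
  · have w1 := wI_Wo (Z := ZE Z ζ A A') (P := P) (k := k) (k' := k') (t := t) (D := D) (D' := D')
      (y := (Sum.elim q.1 q.2 : Fin h ⊕ Fin h' → Bool × ℝ)) (hole_W (ZE Z ζ A A') P k k' t D D' _)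
      (obj_W (ZE Z ζ A A') P k k' t D D' _)
    have e1 := cH_eval (b := bY P k k' t) (b' := bX P k k' t) S.dinj S'.dinj hF hF' hE hE'
      (glu D A) (glu D' A')
    have e2 := hW_eval S S' (glu D A) (glu D' A') q
    have e3 := clZ_eq Z P k k' t D D' ζ ρ A A' hd1 hd2 hd1' hd2'
    have e4 := hlZ_eq Z P k k' t D D' (Sum.elim q.1 q.2 : Fin h ⊕ Fin h' → Bool × ℝ) ζ A A'
      hd1 hd2 hd1' hd2'
    have e1' : cH (bY P k k' t) d (glu D A) (bX P k k' t) d' (glu D' A') F E F' E' =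
        clZ Z P k k' t D D' ζ ρ A A' d d' := e1
    have e2' : hW (bH (lnH P) (bY P k k' t) d (glu D A) (bX P k k' t) d' (glu D' A') E E')
        (lnH P) q = hlZ Z P k k' t D D' (Sum.elim q.1 q.2 : Fin h ⊕ Fin h' → Bool × ℝ)
          A A' d d' := e2
    have h2 : (-1 : ℂ) ^ (h + h') * (-1) ^ (h + h') = 1 := by
      rw [← mul_pow]
      norm_num
    rw [e1', e2', e3, e4]
    unfold clsW
    simp only [gHI_true, gHI_false]
    rw [Fg_ZE, clW_ZE] at w1
    generalize hlW (ZE Z ζ A A') P k k' t D D' (Sum.elim q.1 q.2 : Fin h ⊕ Fin h' → Bool × ℝ) = Hl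
      at w1 ⊢
    generalize ((∏ j ∈ A, loc (bY P k k' t) (ζ true j)) * ∏ j ∈ A', loc (bX P k k' t) (ζ false j))
      = Lc at w1 ⊢
    generalize ((∏ j ∈ A, GZ P k k' t true (ζ true j)) *
      ∏ j ∈ A', GZ P k k' t false (ζ false j))⁻¹ = Gi at w1 ⊢
    generalize (((∏ i, XE ζ A A' true .A (bY P k k' t i) ^ 2) *
        ∏ i, XE ζ A A' false .A (bX P k k' t i) ^ 2)⁻¹ *
      ((∏ i ∈ D, XE ζ A A' true .A (bX P k k' t i)) *
        ∏ i ∈ D', XE ζ A A' false .A (bY P k k' t i))) = Xi at w1 ⊢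
    generalize wI (ZE Z ζ A A') P (fmW k k' t D D' (Sum.elim q.1 q.2)) = w at w1 ⊢
    generalize Fg (o3 k k') (h3 (Z true) (Z false) k k')
      (pos (Sum.elim (fun i => lnK P (k i)) (fun i => lnK P (k' i))) t) = f at w1 ⊢
    generalize ((∏ i, wt (ob3 (k i))) * ∏ i, wt (ob3 (k' i))) = w0 at w1 ⊢
    linear_combination (-(-1 : ℂ) ^ (h + h') * (kaE ζ ρ A A' * Lc)) * w1 -
      (w0 * f * clW Z P k k' t D D' * kaE ζ ρ A A' * Lc * Gi * Xi * Hl) * h2
  · rw [gD_glu Z P k k' t D D' ζ A A' hd1 hd2 hd1' hd2']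
    exact (pot_W (ZE Z ζ A A') P k k' t D D'
      (Sum.elim q.1 q.2 : Fin h ⊕ Fin h' → Bool × ℝ) s u).symm

end word

end PHK

end
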