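import Pool.Agent.PHK.HostR
import Pool.Agent.PHK.HostFW
import Pool.Agent.PHK.WordX

/-!
# (P): the word instance of the exact identity

* `rb_true`, `rb_false`, **`rd_true`**, **`rd_false`**: the local values in the form of `wordW_of`.
-/

set_option autoImplicit false
set_option linter.unusedSectionVars false

noncomputable section

open Complex MeasureTheory Finset
open scoped Real ENNReal

namespace PHK

open NUO NUP1 NUP1S NUP1S.Mg NUP1S.Ab NUP1S.AbG NURow NUP1S.HF
open NUP1.Bd (wt Ob)
open Pool.Agent.PHK (lM lG lK)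
open NUP1.Bd (qg)

section word

variable (Z : Bool → Option O3 → ℂ → ℂ) (P : Par6) {p p' : ℕ} (k : Fin p → O3) (k' : Fin p' → O3)
  (t : Fin p ⊕ Fin p' → ℝ)

theorem bX_eq (i : {i : Fin p // k i = .S}) : bX P k k' t i = zX P k k' t i + 2 * l := rfl

theorem bY_eq (i : {i : Fin p' // k' i = .S}) : bY P k k' t i = zY P k k' t i + 2 * l := rfl

theorem gz_own (s : Bool) (w : ℂ) : gz (s, .A) (s, .S) w = q1 w := by
  unfold gz
  rw [if_pos rfl]
  rfl

theorem gz_oth (s : Bool) (w : ℂ) : gz (s, .A) (!s, .S) w = cA w := by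
  unfold gz
  rw [if_neg (by cases s <;> simp)]
  rfl

theorem o3_S (i : {i : Fin p // k i = .S}) : o3 k k' (Sum.inl i.1) = (true, .S) := by
  show (true, ob3 (k i.1)) = _
  rw [i.2]
  rfl

theorem o3_S' (i : {i : Fin p' // k' i = .S}) : o3 k k' (Sum.inr i.1) = (false, .S) := by
  show (false, ob3 (k' i.1)) = _
  rw [i.2]
  rfl

theorem prod_split3 (g : Fin p ⊕ Fin p' → ℂ) : ∏ j, g j =
    ((∏ i : {i : Fin p // k i = .S}, g (Sum.inl i.1)) *
      ∏ i : {i : Fin p' // k' i = .S}, g (Sum.inr i.1)) *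
    ∏ j, if kkW k k' j = .S then 1 else g j := by
  have e1 : ∏ j, g j = (∏ j, if kkW k k' j = .S then g j else 1) *
      ∏ j, if kkW k k' j = .S then 1 else g j := by
    rw [← Finset.prod_mul_distrib]
    refine Finset.prod_congr rfl fun j _ => ?_
    split_ifs <;> simp
  have e2 : ∏ i : Fin p, (if kkW k k' (Sum.inl i) = .S then g (Sum.inl i) else 1) =
      ∏ i : {i : Fin p // k i = .S}, g (Sum.inl i.1) := prod_str k fun i => g (Sum.inl i)
  have e3 : ∏ i : Fin p', (if kkW k k' (Sum.inr i) = .S then g (Sum.inr i) else 1) =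
      ∏ i : {i : Fin p' // k' i = .S}, g (Sum.inr i.1) := prod_str k' fun i => g (Sum.inr i)
  rw [e1, Fintype.prod_sum_type (f := fun j => if kkW k k' j = .S then g j else 1), e2, e3]

/-! ### products over all the objects but one -/

theorem cAW_eq : cAW = 1 / sin (3 * l) ^ 2 := by
  have e : Real.sin (5 * l) = Real.sin (3 * l) := by
    rw [← Real.sin_pi_sub]
    congr 1
    rw [Bd.pi_eq]
    ring
  unfold cAW
  rw [e]
  push_cast
  rfl

theorem cdW_eq : cdW = sin (2 * l) * sin (3 * l) * sin (5 * l) := by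
  unfold cdW
  push_cast
  rfl

/-- all the objects but a string of the first species -/
theorem prod_inl (g : Fin p ⊕ Fin p' → ℂ) (i : {i : Fin p // k i = .S}) :
    ∏ j ∈ univ.erase (Sum.inl i.1), g j =
      ((∏ j ∈ univ.erase i, g (Sum.inl j.1)) * ∏ j : {i : Fin p' // k' i = .S}, g (Sum.inr j.1)) *
        ∏ j, if kkW k k' j = .S then 1 else g j := by
  rw [HF.prod_erase_ite, prod_split3 k k', HF.prod_erase_ite]
  refine congrArg₂ (· * ·) (congrArg₂ (· * ·) (Finset.prod_congr rfl fun j _ => ?_)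
    (Finset.prod_congr rfl fun j _ => if_neg Sum.inr_ne_inl)) (Finset.prod_congr rfl fun j _ => ?_)
  · have e : (Sum.inl j.1 : Fin p ⊕ Fin p') = Sum.inl i.1 ↔ j = i :=
      ⟨fun h => Subtype.ext (Sum.inl_injective h), fun h => by rw [h]⟩
    simp only [e]
  · by_cases h : kkW k k' j = .S
    · rw [if_pos h, if_pos h]
    · rw [if_neg h, if_neg h, if_neg]
      rintro rfl
      exact h i.2

/-- all the objects but a string of the second species -/
theorem prod_inr (g : Fin p ⊕ Fin p' → ℂ) (i : {i : Fin p' // k' i = .S}) :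
    ∏ j ∈ univ.erase (Sum.inr i.1), g j =
      ((∏ j : {i : Fin p // k i = .S}, g (Sum.inl j.1)) * ∏ j ∈ univ.erase i, g (Sum.inr j.1)) *
        ∏ j, if kkW k k' j = .S then 1 else g j := by
  rw [HF.prod_erase_ite, prod_split3 k k', HF.prod_erase_ite]
  refine congrArg₂ (· * ·) (congrArg₂ (· * ·) (Finset.prod_congr rfl fun j _ =>
    if_neg Sum.inl_ne_inr) (Finset.prod_congr rfl fun j _ => ?_)) (Finset.prod_congr rfl fun j _ => ?_)
  · have e : (Sum.inr j.1 : Fin p ⊕ Fin p') = Sum.inr i.1 ↔ j = i :=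
      ⟨fun h => Subtype.ext (Sum.inr_injective h), fun h => by rw [h]⟩
    simp only [e]
  · by_cases h : kkW k k' j = .S
    · rw [if_pos h, if_pos h]
    · rw [if_neg h, if_neg h, if_neg]
      rintro rfl
      exact h i.2

theorem gz_tX (w : ℂ) (i : {i : Fin p // k i = .S}) : gz (true, .A) (o3 k k' (Sum.inl i.1)) w = q1 w := by
  rw [o3_S, gz_own]

theorem gz_tY (w : ℂ) (i : {i : Fin p' // k' i = .S}) : gz (true, .A) (o3 k k' (Sum.inr i.1)) w = cA w := by
  rw [o3_S']
  exact gz_oth true _

theorem gz_fX (w : ℂ) (i : {i : Fin p // k i = .S}) : gz (false, .A) (o3 k k' (Sum.inl i.1)) w = cA w := by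
  rw [o3_S]
  exact gz_oth false _

theorem gz_fY (w : ℂ) (i : {i : Fin p' // k' i = .S}) : gz (false, .A) (o3 k k' (Sum.inr i.1)) w = q1 w := by
  rw [o3_S', gz_own]

/-! ### the real parts -/

theorem inj_zX (ht : Function.Injective t) : Function.Injective (zX P k k' t) := by
  intro i j h
  have h1 := congrArg Complex.im h
  rw [zW_im, zW_im] at h1
  exact Subtype.ext (Sum.inl_injective (ht h1))

theorem inj_zY (ht : Function.Injective t) : Function.Injective (zY P k k' t) := by
  intro i j h
  have h1 := congrArg Complex.im h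
  rw [zW_im, zW_im] at h1
  exact Subtype.ext (Sum.inr_injective (ht h1))

theorem ne_XY (ht : Function.Injective t) (i : {i : Fin p // k i = .S})
    (j : {i : Fin p' // k' i = .S}) : zX P k k' t i ≠ zY P k k' t j := by
  intro h
  have h1 := congrArg Complex.im h
  rw [zW_im, zW_im] at h1
  exact Sum.inl_ne_inr (ht h1)

theorem sw_line {z z' : ℂ} (h : z.re = z'.re) : Sw (z + 2 * l - z') := by
  have hl := Bd.l_pos
  unfold Sw
  rw [sub_re, add_re, h]
  simp only [mul_re, ofReal_re, ofReal_im]
  norm_num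
  constructor <;> linarith

/-! ### the values at the double poles -/

theorem rbW_inr (i : {i : Fin p' // k' i = .S}) : rbW Z P k k' t (Sum.inr i.1) =
    Z true none (bY P k k' t i) * cAW *
      (((∏ j, q1 (bY P k k' t i - zX P k k' t j)) *
        ∏ j ∈ univ.erase i, cA (bY P k k' t i - zY P k k' t j)) *
          KW P k k' t true (bY P k k' t i)) := by
  have e := prod_inr k k' (fun j => gz (true, .A) (o3 k k' j)
    (bW P k k' t (Sum.inr i.1) - zW P k k' t j)) i
  simp only [gz_tX, gz_tY] at e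
  exact congrArg (fun c => Z true none (bW P k k' t (Sum.inr i.1)) * cAW * c) e

theorem rbW_inl (i : {i : Fin p // k i = .S}) : rbW Z P k k' t (Sum.inl i.1) =
    Z false none (bX P k k' t i) * cAW *
      (((∏ j ∈ univ.erase i, cA (bX P k k' t i - zX P k k' t j)) *
        ∏ j, q1 (bX P k k' t i - zY P k k' t j)) *
          KW P k k' t false (bX P k k' t i)) := by
  have e := prod_inl k k' (fun j => gz (false, .A) (o3 k k' j)
    (bW P k k' t (Sum.inl i.1) - zW P k k' t j)) i
  simp only [gz_fX, gz_fY] at e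
  exact congrArg (fun c => Z false none (bW P k k' t (Sum.inl i.1)) * cAW * c) e

theorem rdW_inl (i : {i : Fin p // k i = .S}) : rdW Z P k k' t (Sum.inl i.1) =
    Z true none (bX P k k' t i) * cdW *
      (((∏ j ∈ univ.erase i, q1 (bX P k k' t i - zX P k k' t j)) *
        ∏ j, cA (bX P k k' t i - zY P k k' t j)) *
          KW P k k' t true (bX P k k' t i)) := by
  have e := prod_inl k k' (fun j => gz (true, .A) (o3 k k' j)
    (bW P k k' t (Sum.inl i.1) - zW P k k' t j)) i
  simp only [gz_tX, gz_tY] at e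
  exact congrArg (fun c => Z true none (bW P k k' t (Sum.inl i.1)) * cdW * c) e

theorem rdW_inr (i : {i : Fin p' // k' i = .S}) : rdW Z P k k' t (Sum.inr i.1) =
    Z false none (bY P k k' t i) * cdW *
      (((∏ j, cA (bY P k k' t i - zX P k k' t j)) *
        ∏ j ∈ univ.erase i, q1 (bY P k k' t i - zY P k k' t j)) *
          KW P k k' t false (bY P k k' t i)) := by
  have e := prod_inr k k' (fun j => gz (false, .A) (o3 k k' j)
    (bW P k k' t (Sum.inr i.1) - zW P k k' t j)) i
  simp only [gz_fX, gz_fY] at e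
  exact congrArg (fun c => Z false none (bW P k k' t (Sum.inr i.1)) * cdW * c) e

/-- first species -/
theorem rb_true (ht : Function.Injective t) (i : {i : Fin p' // k' i = .S}) :
    FH (Z true none) (zX P k k' t) (zY P k k' t) (KW P k k' t true) (bY P k k' t i) =
      rbW Z P k k' t (Sum.inr i.1) *
        ∏ i' ∈ univ.erase i, (bY P k k' t i - bY P k k' t i') ^ 2 := by
  have h := FH_node (G := Z true none) (K := KW P k k' t true) (zo := zX P k k' t)
    (zt := zY P k k' t) (fun i i' => sw_line (by rw [zY_re, zY_re])) (inj_zY P k k' t ht) i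
  simp only [← bY_eq] at h
  rw [h, rbW_inr, cAW_eq]
  ring

/-- second species -/
theorem rb_false (ht : Function.Injective t) (i : {i : Fin p // k i = .S}) :
    FH (Z false none) (zY P k k' t) (zX P k k' t) (KW P k k' t false) (bX P k k' t i) =
      rbW Z P k k' t (Sum.inl i.1) *
        ∏ i' ∈ univ.erase i, (bX P k k' t i - bX P k k' t i') ^ 2 := by
  have h := FH_node (G := Z false none) (K := KW P k k' t false) (zo := zY P k k' t)
    (zt := zX P k k' t) (fun i i' => sw_line (by rw [zX_re, zX_re])) (inj_zX P k k' t ht) i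
  simp only [← bX_eq] at h
  rw [h, rbW_inl, cAW_eq]
  ring

/-! ### the values at the zeros -/

theorem GZ_true (u : ℂ) : GZ P k k' t true u = ((∏ j, q1 (u - zX P k k' t j)) *
    ∏ j, cA (u - zY P k k' t j)) * KW P k k' t true u := by
  have e := prod_split3 k k' fun j => gz (true, .A) (o3 k k' j) (u - zW P k k' t j)
  simp only [gz_tX, gz_tY] at e
  exact e

theorem GZ_false (u : ℂ) : GZ P k k' t false u = ((∏ j, cA (u - zX P k k' t j)) *
    ∏ j, q1 (u - zY P k k' t j)) * KW P k k' t false u := by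
  have e := prod_split3 k k' fun j => gz (false, .A) (o3 k k' j) (u - zW P k k' t j)
  simp only [gz_fX, gz_fY] at e
  exact e

theorem re_bX (i : {i : Fin p // k i = .S}) : (bX P k k' t i).re = (1 - P.e) * l := by
  rw [bX_eq, add_re, zX_re]
  simp only [mul_re, ofReal_re, ofReal_im]
  norm_num
  ring

theorem re_bY (i : {i : Fin p' // k' i = .S}) : (bY P k k' t i).re = (1 - P.e) * l := by
  rw [bY_eq, add_re, zY_re]
  simp only [mul_re, ofReal_re, ofReal_im]
  norm_num
  ring

theorem re_b0 (hP : GoodP6 P) : 0 ≤ (1 - P.e) * l ∧ (1 - P.e) * l < (3 - P.jL) * l := by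
  have hl := Bd.l_pos
  have h1 := hP.e45
  have h2 := hP.Lj
  have h3 := hP.j1e
  constructor <;> nlinarith

theorem sw_zero {z ζ : ℂ} (hz : z.re = -((1 + P.e) * l)) (he : 0 ≤ P.e) (he1 : P.e < 1)
    (h0 : 0 < ζ.re) (h1 : ζ.re < l) : Sw (ζ - z) := by
  have hl := Bd.l_pos
  unfold Sw
  rw [sub_re, hz]
  constructor <;> nlinarith

variable {ν : Bool → Type} [∀ s, Fintype (ν s)] [∀ s, LinearOrder (ν s)] (ζ ρ : ∀ s, ν s → ℂ)

/-- **first species** -/
theorem rd_true (hP : GoodP6 P) (ht : Function.Injective t) {Ei : ℂ → ℂ}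
    (hE : ∀ u : ℂ, u.re = (1 - P.e) * l → Z true none u * Ei u = ∏ j, (u - ζ true j))
    (hρ : ∀ j, Ei (ζ true j) * ρ true j = ∏ j' ∈ univ.erase j, (ζ true j - ζ true j'))
    (hst : ∀ j, (1 - P.j2) * l < (ζ true j).re ∧ (ζ true j).re < (1 - P.j1) * l)
    (hz : ∀ i j, bW P k k' t i ≠ ζ true j) (j : StrT k ⊕ₗ ν true) :
    EH Ei (zX P k k' t) (zY P k k' t) (KW P k k' t true) (dH (zX P k k' t) (ζ true) j) *
      rdZ Z P k k' t ζ ρ j * ∏ i, (dH (zX P k k' t) (ζ true) j - bY P k k' t i) ^ 2 =
    ∏ j' ∈ univ.erase j, (dH (zX P k k' t) (ζ true) j - dH (zX P k k' t) (ζ true) j') := by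
  have hl := Bd.l_pos
  have e0 := re_b0 P hP
  have he1 := hP.e45
  have he2 := hP.e13
  have hj2 := hP.j2
  have hj1 := hP.j1
  have hL := hP.Lj
  have hpos : 0 ≤ (1 - P.j2) * l := mul_nonneg (by linarith) hl.le
  have hlt : (1 - P.j1) * l < l := by nlinarith
  have hlt2 : (1 - P.j1) * l < (3 - P.jL) * l := by nlinarith
  rcases hj : ofLex j with i | i
  · have ej : j = toLex (Sum.inl i) := by rw [← hj]; rfl
    subst ej
    have h := EH_str (G := Z true none) (Ei := Ei) (K := KW P k k' t true) (zo := zX P k k' t)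
      (zt := zY P k k' t) (ζ := ζ true) (fun i i' => sw_line (by rw [zX_re, zX_re]))
      (fun i i' => sw_line (by rw [zX_re, zY_re])) (fun i i' => ne_XY P k k' t ht i i')
      (fun i => KW_ne hP true (by
        rw [← bX_eq, re_bX]
        exact e0.1) (by
        rw [← bX_eq, re_bX]
        exact e0.2)) (fun i => hE _ (by rw [← bX_eq, re_bX])) i
    rw [← h]
    have er : rdZ Z P k k' t ζ ρ (toLex (Sum.inl i)) = rdW Z P k k' t (Sum.inl i.1) := rfl
    rw [er, rdW_inl, cdW_eq]
    simp only [bX_eq, bY_eq]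
    congr 2
    ring
  · have ej : j = toLex (Sum.inr i) := by rw [← hj]; rfl
    subst ej
    have hs := fun j => hst j
    have h := EH_zero (Ei := Ei) (K := KW P k k' t true) (zo := zX P k k' t)
      (zt := zY P k k' t) (ζ := ζ true) (ρ := ρ true)
      (fun j i' => sw_zero P (zX_re i') (by linarith) (by linarith) (by linarith [(hst j).1])
        (by linarith [(hst j).2]))
      (fun j i' => sw_zero P (zY_re i') (by linarith) (by linarith) (by linarith [(hst j).1])
        (by linarith [(hst j).2]))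
      (fun j i' h => hz (Sum.inr i'.1) j h.symm)
      (fun j => KW_ne hP true (by linarith [(hst j).1]) (by linarith [(hst j).2])) hρ i
    rw [← h]
    have er : rdZ Z P k k' t ζ ρ (toLex (Sum.inr i)) = ρ true i * GZ P k k' t true (ζ true i) := rfl
    rw [er, GZ_true]
    simp only [bY_eq]
    congr 2
    ring

/-- **second species** -/
theorem rd_false (hP : GoodP6 P) (ht : Function.Injective t) {Ei : ℂ → ℂ}
    (hE : ∀ u : ℂ, u.re = (1 - P.e) * l → Z false none u * Ei u = ∏ j, (u - ζ false j))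
    (hρ : ∀ j, Ei (ζ false j) * ρ false j = ∏ j' ∈ univ.erase j, (ζ false j - ζ false j'))
    (hst : ∀ j, (1 - P.j2) * l < (ζ false j).re ∧ (ζ false j).re < (1 - P.j1) * l)
    (hz : ∀ i j, bW P k k' t i ≠ ζ false j) (j : StrT k' ⊕ₗ ν false) :
    EH Ei (zY P k k' t) (zX P k k' t) (KW P k k' t false) (dH (zY P k k' t) (ζ false) j) *
      rdZ' Z P k k' t ζ ρ j * ∏ i, (dH (zY P k k' t) (ζ false) j - bX P k k' t i) ^ 2 =
    ∏ j' ∈ univ.erase j, (dH (zY P k k' t) (ζ false) j - dH (zY P k k' t) (ζ false) j') := by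
  have hl := Bd.l_pos
  have e0 := re_b0 P hP
  have he1 := hP.e45
  have he2 := hP.e13
  have hj2 := hP.j2
  have hj1 := hP.j1
  have hL := hP.Lj
  have hpos : 0 ≤ (1 - P.j2) * l := mul_nonneg (by linarith) hl.le
  have hlt : (1 - P.j1) * l < l := by nlinarith
  have hlt2 : (1 - P.j1) * l < (3 - P.jL) * l := by nlinarith
  rcases hj : ofLex j with i | i
  · have ej : j = toLex (Sum.inl i) := by rw [← hj]; rfl
    subst ej
    have h := EH_str (G := Z false none) (Ei := Ei) (K := KW P k k' t false) (zo := zY P k k' t)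
      (zt := zX P k k' t) (ζ := ζ false) (fun i i' => sw_line (by rw [zY_re, zY_re]))
      (fun i i' => sw_line (by rw [zY_re, zX_re])) (fun i i' => (ne_XY P k k' t ht i' i).symm)
      (fun i => KW_ne hP false (by
        rw [← bY_eq, re_bY]
        exact e0.1) (by
        rw [← bY_eq, re_bY]
        exact e0.2)) (fun i => hE _ (by rw [← bY_eq, re_bY])) i
    rw [← h]
    have er : rdZ' Z P k k' t ζ ρ (toLex (Sum.inl i)) = rdW Z P k k' t (Sum.inr i.1) := rfl
    rw [er, rdW_inr, cdW_eq]
    simp only [bX_eq, bY_eq]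
    congr 2
    ring
  · have ej : j = toLex (Sum.inr i) := by rw [← hj]; rfl
    subst ej
    have h := EH_zero (Ei := Ei) (K := KW P k k' t false) (zo := zY P k k' t)
      (zt := zX P k k' t) (ζ := ζ false) (ρ := ρ false)
      (fun j i' => sw_zero P (zY_re i') (by linarith) (by linarith) (by linarith [(hst j).1])
        (by linarith [(hst j).2]))
      (fun j i' => sw_zero P (zX_re i') (by linarith) (by linarith) (by linarith [(hst j).1])
        (by linarith [(hst j).2]))
      (fun j i' h => hz (Sum.inl i'.1) j h.symm)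
      (fun j => KW_ne hP false (by linarith [(hst j).1]) (by linarith [(hst j).2])) hρ i
    rw [← h]
    have er : rdZ' Z P k k' t ζ ρ (toLex (Sum.inr i)) = ρ false i * GZ P k k' t false (ζ false i) := rfl
    rw [er, GZ_false]
    simp only [bX_eq]
    congr 2
    ring

end word

end PHK

end
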