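import Pool.Agent.PHK.LgZE

/-!
# (P): holes at the zeros, line form, any `P`

* `lnK6 P k`: the lines of the kind `k`; `decL6_mulK`: a further factor of charge `r`;
* `pi_sin`, `pi_gzS`: the pair function of a quantum and a string for real parts in `(0, 2 l)`;
* `bdd_inv_line`: the bound of the inverse from the regular inverse on a line without zeros;
* **`decQL6_line`**: `DecQL6 Z` from the four lines and the regular inverse;
* **`decQL6_ZEl`**: `DecQL6 (ZE Z ζ A A')`, **`int_fIZEl`**: the terms are integrable.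
-/

set_option autoImplicit false
set_option linter.unusedSectionVars false

noncomputable section

open Complex MeasureTheory Finset
open scoped ENNReal

open PLX (Fil)

namespace PHK

open NUO NUP1 NUP1S NUP1S.Mg NURow NUCR NUP1.Leg NUGC.PLX PBR.PLX
open NUP1.Bd (wt qg Ob)

variable {Z : Bool → Option O3 → ℂ → ℂ} {P : Par6} {κ κ' q0 : ℝ}

/-- the lines of the kinds -/
def lnK6 (P : Par6) : Option O3 → Set ℝ
  | none => {(1 - P.e) * l, l, (1 - P.j2) * l, (1 - P.j1) * l}
  | some .L => {(1 - P.jL) * l}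
  | some .T => {-(l / 2)}
  | some .S => {-((1 + P.e) * l)}

theorem lnK6_compact (P : Par6) (k : Option O3) : IsCompact (lnK6 P k) := by
  rcases k with _ | (_ | _ | _)
  · exact Set.Finite.isCompact (Set.toFinite ({(1 - P.e) * l, l, (1 - P.j2) * l, (1 - P.j1) * l} : Set ℝ))
  · exact isCompact_singleton
  · exact isCompact_singleton
  · exact isCompact_singleton

/-- **a further factor** of charge `r`, kind by kind -/
theorem decL6_mulK (h : DecQL6 Z P κ κ' q0) {G : Bool → Option O3 → ℂ → ℂ} {r : ℝ}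
    (hG : ∀ s k, PI6 (-(2 * r * sc (s, ob4 k))) (lnK6 P k) (G s k)) :
    DecQL6 (fun s k z => Z s k z * G s k z) P κ κ' (q0 + r) := by
  refine ⟨h.kpos, h.k6, fun s => ?_, fun s => ?_, fun s => ?_, fun s M => ?_, fun s => ?_⟩
  · exact decOn_mulP (h.A s) (hG s none) (by
      rintro x (hx | hx)
      · exact Or.inl hx
      · exact Or.inr (Or.inl hx)) (le_of_eq (by
        show _ = κ + 2 * q0 * sc (s, Bd.Ob.A) - -(2 * r * sc (s, Bd.Ob.A))
        ring))
  · exact decOn_mulP (h.L s) (hG s (some .L)) subset_rfl (le_of_eq (by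
        show _ = κ + 2 * q0 * sc (s, Bd.Ob.L) - -(2 * r * sc (s, Bd.Ob.L))
        ring))
  · exact decOn_mulP (h.T s) (hG s (some .T)) subset_rfl (le_of_eq (by
        show _ = κ + 2 * q0 * sc (s, Bd.Ob.S) - -(2 * r * sc (s, Bd.Ob.S))
        ring))
  · obtain ⟨M', hM'⟩ := exists_nat_ge ((M : ℝ) - 2 * r * sc (s, Bd.Ob.S))
    exact decOn_mulP (h.S s M') (hG s (some .S)) subset_rfl (by
        show (M : ℝ) ≤ M' - -(2 * r * sc (s, Bd.Ob.S))
        linarith)
  · have h1 := Bdd.mono_set (hG s none).b.1 (K := {(1 - P.j2) * l, (1 - P.e) * l, (1 - P.j1) * l}) (by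
      rintro x (hx | hx | hx)
      · exact Or.inr (Or.inr (Or.inl hx))
      · exact Or.inl hx
      · exact Or.inr (Or.inr (Or.inr hx)))
    have h2 := ((h.H s).mul h1).rate (s' := κ' + 2 * (q0 + r) * sc (s, Bd.Ob.A)) (by
      show κ' + 2 * q0 * sc (s, Bd.Ob.A) + - -(2 * r * sc (s, Bd.Ob.A)) = _
      ring)
    have e : (fun u => (Z s none u * G s none u)⁻¹) = fun u => (Z s none u)⁻¹ * (G s none u)⁻¹ := by
      funext u
      exact mul_inv _ _
    rw [e]
    exact h2

/-! ### quantum and string, real parts in `(0, 2 l)` -/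

theorem pi_sin {K : Set ℝ} (hK : IsCompact K) (a : ℝ) (h : ∀ d ∈ K, Real.sin (d + a) ≠ 0) :
    PI6 1 K fun z => sin (z + a) :=
  ⟨PB_sin K a, (PB_inv_sin hK a h).congr' fun z => one_div _, fun z hz =>
    Bd.sin_ne_zero_of_re (by rw [add_re, ofReal_re]; exact h _ hz)⟩

theorem _root_.PBR.PLX.PI6.congr {s : ℝ} {K : Set ℝ} {f g : ℂ → ℂ} (h : PI6 s K f) (e : ∀ z, f z = g z) :
    PI6 s K g := (funext e : f = g) ▸ h

theorem _root_.PBR.PLX.PI6.sq {s : ℝ} {K : Set ℝ} {f : ℂ → ℂ} (h : PI6 s K f) : PI6 (s + s) K fun z => f z ^ 2 :=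
  (h.mul h).congr fun z => (pow_two _).symm

/-- the pair function of a quantum and a string, real parts in `(0, 2 l)` -/
theorem pi_gzS {K : Set ℝ} (hK : IsCompact K) (h : ∀ d ∈ K, 0 < d ∧ d < 2 * l) (b s : Bool) :
    PI6 (rt (b, .A) (s, .S)) K (gz (b, .A) (s, .S)) := by
  have hl := NUP1.l_pos
  have hp : ∀ a : ℝ, 0 ≤ a → a ≤ 6 * l → PI6 1 K fun z => sin (z + a) := fun a h1 h2 =>
    pi_sin hK a fun d hd => NURow.sin_ne_pos (by linarith [(h d hd).1]) (by linarith [(h d hd).2])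
  have hm : ∀ a : ℝ, a ≤ -(2 * l) → -(8 * l) ≤ a → PI6 1 K fun z => sin (z + a) := fun a h1 h2 =>
    pi_sin hK a fun d hd => NURow.sin_ne_neg (by linarith [(h d hd).2]) (by linarith [(h d hd).1])
  by_cases hb : b = s
  · subst hb
    have e : gz (b, Ob.A) (b, Ob.S) = q1 := by
      funext z
      unfold gz
      rw [if_pos rfl]
      rfl
    have hs : rt (b, .A) (b, .S) = 1 + 1 + 1 + 1 := by
      unfold rt sc
      cases b <;> norm_num [Bd.chg]
    rw [e, hs]
    refine ((((hp 0 le_rfl (by linarith)).mul (hp l (by linarith) (by linarith))).mul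
      (hm (-(2 * l)) le_rfl (by linarith))).mul (hp (3 * l) (by linarith) (by linarith))).congr
      fun z => ?_
    unfold q1
    push_cast
    rw [add_zero, ← sub_eq_add_neg]
  · have e : gz (b, Ob.A) (s, Ob.S) = fun z => qg z * qg (z + l) := by
      funext z
      unfold gz
      rw [if_neg hb]
      rfl
    have hs : rt (b, .A) (s, .S) =
        ((1 + 1) + -((1 + 1) + (1 + 1))) + ((1 + 1) + -((1 + 1) + (1 + 1))) := by
      unfold rt sc
      cases b <;> cases s <;> simp at hb <;> norm_num [Bd.chg]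
    rw [e, hs]
    refine (((hp (4 * l) (by linarith) (by linarith)).sq.mul ((hp (3 * l) (by linarith)
      (by linarith)).sq.mul (hm (-(3 * l)) (by linarith) (by linarith)).sq).inv).mul
      ((hp (5 * l) (by linarith) (by linarith)).sq.mul ((hp (4 * l) (by linarith)
      (by linarith)).sq.mul (hm (-(2 * l)) (by linarith) (by linarith)).sq).inv)).congr fun z => ?_
    have e1 : ∀ z : ℂ, cos z = sin (z + ((4 * l : ℝ) : ℂ)) := cos_eq_sin4
    unfold qg
    rw [e1 z, e1 (z + l), div_eq_mul_inv, div_eq_mul_inv]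
    push_cast
    rw [← sub_eq_add_neg, ← sub_eq_add_neg, show z + (l : ℂ) + 4 * l = z + 5 * l by ring,
      show z + (l : ℂ) + 3 * l = z + 4 * l by ring, show z + (l : ℂ) - 3 * l = z - 2 * l by ring]

/-! ### the holes -/

variable {ν : Bool → Type} [∀ s, Fintype (ν s)] [∀ s, LinearOrder (ν s)] {ζ : ∀ s, ν s → ℂ}

/-- the zeros between the lines of the holes, off the line of the points `b` -/
structure StZ6 (P : Par6) (ζ : ∀ s, ν s → ℂ) : Prop where
  st : ∀ s j, (1 - P.j2) * l < (ζ s j).re ∧ (ζ s j).re < (1 - P.j1) * l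
  off : ∀ s j, (ζ s j).re ≠ (1 - P.e) * l

/-- the pair function with a hole at a zero -/
theorem pi_hole (hP : GoodP6 P) (hζ : StZ6 P ζ) (s' : Bool) (j : ν s') (b s : Bool)
    (k : Option O3) :
    PI6 (rt (b, .A) (s, ob4 k)) (lnK6 P k) fun z => gz (b, .A) (s, ob4 k) (ζ s' j - z) := by
  have hl := NUP1.l_pos
  obtain ⟨z1, z2⟩ := hζ.st s' j
  have z3 := hζ.off s' j
  have a1 := hP.j1
  have a2 := hP.j1e
  have a3 := hP.ej2
  have a4 := hP.j2
  have a5 := hP.L2
  have a6 := hP.Lj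
  have a7 := hP.e13
  have a8 := hP.e45
  by_cases hk : k = some .T
  · subst hk
    have h1 := pi_gzS (K := {(ζ s' j).re - -(l / 2)}) isCompact_singleton (fun d hd => by
      rw [Set.mem_singleton_iff.1 hd]
      constructor <;> nlinarith) b s
    refine ⟨h1.a.one (ζ s' j) (K := lnK6 P (some .T)) fun x hx => ?_,
      h1.b.one (ζ s' j) (K := lnK6 P (some .T)) fun x hx => ?_, fun z hz => h1.ne _ ?_⟩
    · rw [show x = -(l / 2) from hx]
      rfl
    · rw [show x = -(l / 2) from hx]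
      rfl
    · rw [sub_re, show z.re = -(l / 2) from hz]
      rfl
  · refine (ui_gz (b, .A) (s, ob4 k)).one (ζ s' j) (lnK6_compact P k) ?_
    rcases k with _ | (_ | _ | _)
    · rintro x (hx | hx | hx | hx)
      · rw [hx]
        rcases lt_or_gt_of_ne z3 with h | h
        · exact nm6_of (-1) (by push_cast; nlinarith) (by push_cast; nlinarith)
        · exact nm6_of 0 (by push_cast; nlinarith) (by push_cast; nlinarith)
      · rw [hx]
        exact nm6_of (-1) (by push_cast; nlinarith) (by push_cast; nlinarith)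
      · rw [hx]
        exact nm6_of 0 (by push_cast; nlinarith) (by push_cast; nlinarith)
      · rw [show x = (1 - P.j1) * l from hx]
        exact nm6_of (-1) (by push_cast; nlinarith) (by push_cast; nlinarith)
    · intro x hx
      rw [show x = (1 - P.jL) * l from hx]
      exact nm6_of 1 (by push_cast; nlinarith) (by push_cast; nlinarith)
    · intro x hx
      rw [show x = -((1 + P.e) * l) from hx]
      rcases lt_or_gt_of_ne z3 with h | h
      · exact nm6_of 1 (by push_cast; nlinarith) (by push_cast; nlinarith)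
      · exact nm6_of 2 (by push_cast; nlinarith) (by push_cast; nlinarith)
    · exact absurd rfl hk

/-- **holes at the zeros**, zeros between the lines of the holes -/
theorem decL6_ZE' (hP : GoodP6 P) (hζ : StZ6 P ζ) (h : DecQL6 Z P κ κ' q0) (E : Finset (ν true))
    (E' : Finset (ν false)) : DecQL6 (ZE Z ζ E E') P κ κ' (q0 + ((E.card : ℝ) - E'.card)) := by
  have key : ∀ (s : Bool) (k : Option O3), PI6 (-(2 * ((E.card : ℝ) - E'.card) * sc (s, ob4 k)))
      (lnK6 P k) fun z => ((∏ j ∈ E, gz (true, .A) (s, ob4 k) (ζ true j - z)) *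
        ∏ j ∈ E', gz (false, .A) (s, ob4 k) (ζ false j - z))⁻¹ := by
    intro s k
    have h1 : PI6 (E.card * rt (true, .A) (s, ob4 k)) (lnK6 P k)
        fun z => ∏ j ∈ E, gz (true, .A) (s, ob4 k) (ζ true j - z) :=
      PI6.prod E fun j _ => pi_hole hP hζ true j true s k
    have h2 : PI6 (E'.card * rt (false, .A) (s, ob4 k)) (lnK6 P k)
        fun z => ∏ j ∈ E', gz (false, .A) (s, ob4 k) (ζ false j - z) :=
      PI6.prod E' fun j _ => pi_hole hP hζ false j false s k
    refine (h1.mul h2).inv.rate ?_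
    have e1 : rt (true, .A) (s, ob4 k) = 2 * sc (s, ob4 k) := by
      unfold rt
      have : sc (true, Bd.Ob.A) = 1 := by simp [sc, Bd.chg]
      rw [this, one_mul]
    have e2 : rt (false, .A) (s, ob4 k) = -(2 * sc (s, ob4 k)) := by
      unfold rt
      have : sc (false, Bd.Ob.A) = -1 := by simp [sc, Bd.chg]
      rw [this]
      ring
    rw [e1, e2]
    ring
  exact decL6_mulK h key

/-! ### the inverse on the lines -/

/-- the inverse on a line without zeros -/
theorem bdd_inv_line {x r : ℝ} {f E : ℂ → ℂ} {ι : Type*} [Fintype ι] {η : ι → ℂ}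
    (hx : ∀ j, (η j).re ≠ x) (hE : Bdd {x} r E)
    (h : ∀ u : ℂ, u.re = x → f u * E u = ∏ j, (u - η j) ∨ (f u = 0 ∧ E u = 0)) :
    Bdd {x} r fun u => (f u)⁻¹ := by
  obtain ⟨C, hC, hb⟩ := hE
  refine ⟨C * ∏ j, |x - (η j).re|⁻¹, mul_nonneg hC (Finset.prod_nonneg fun j _ => by positivity),
    fun u hu => ?_⟩
  have hu' : u.re = x := hu
  show ‖(f u)⁻¹‖ ≤ _
  rcases h u hu' with h1 | ⟨h1, _⟩
  · have hne : ∀ j, u - η j ≠ 0 := by
      intro j h0
      apply hx j
      rw [← hu', ← sub_eq_zero, ← neg_eq_zero, neg_sub, ← sub_re, h0, Complex.zero_re]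
    have hp : ∏ j, (u - η j) ≠ 0 := Finset.prod_ne_zero_iff.2 fun j _ => hne j
    have hf : f u ≠ 0 := left_ne_zero_of_mul (h1 ▸ hp)
    have e : (f u)⁻¹ = E u * (∏ j, (u - η j))⁻¹ := by
      rw [← h1, mul_inv]
      have hE0 : E u ≠ 0 := right_ne_zero_of_mul (h1 ▸ hp)
      field_simp
    rw [e, norm_mul, norm_inv, norm_prod, ← Finset.prod_inv_distrib]
    have h3 : ∏ j, ‖u - η j‖⁻¹ ≤ ∏ j, |x - (η j).re|⁻¹ := by
      refine Finset.prod_le_prod (fun j _ => by positivity) fun j _ => ?_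
      refine inv_anti₀ (abs_pos.2 (sub_ne_zero.2 (hx j).symm)) ?_
      have := Complex.abs_re_le_norm (u - η j)
      rwa [sub_re, hu'] at this
    calc ‖E u‖ * ∏ j, ‖u - η j‖⁻¹ ≤ (C * Real.exp (r * |u.im|)) * ∏ j, |x - (η j).re|⁻¹ :=
          mul_le_mul (hb u hu) h3 (Finset.prod_nonneg fun j _ => by positivity) (by positivity)
      _ = _ := by ring
  · rw [h1, inv_zero, norm_zero]
    exact mul_nonneg (mul_nonneg hC (Finset.prod_nonneg fun j _ => by positivity))
      (Real.exp_pos _).le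

theorem bdd_three {a b c r : ℝ} {f : ℂ → ℂ} (ha : Bdd {a} r f) (hb : Bdd {b} r f)
    (hc : Bdd {c} r f) : Bdd {a, b, c} r f := by
  obtain ⟨A, hA, ha⟩ := ha
  obtain ⟨B, hB, hb⟩ := hb
  obtain ⟨C, hC, hc⟩ := hc
  refine ⟨A + B + C, by positivity, fun u hu => ?_⟩
  rcases hu with hu | hu | hu
  · exact (ha u hu).trans (mul_le_mul_of_nonneg_right (by linarith) (Real.exp_pos _).le)
  · exact (hb u hu).trans (mul_le_mul_of_nonneg_right (by linarith) (Real.exp_pos _).le)
  · exact (hc u hu).trans (mul_le_mul_of_nonneg_right (by linarith) (Real.exp_pos _).le)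

/-- **`DecQL6` from the lines and the regular inverse** -/
theorem decQL6_line (hκ : 0 < κ) (hκ' : κ' < 6) (hζ : StZ6 P ζ) {Ei : Bool → ℂ → ℂ}
    (hA : ∀ s, DecOn (κ + 2 * q0 * sc (s, Ob.A)) {(1 - P.e) * l, l} (Z s none))
    (hL : ∀ s, DecOn (κ + 2 * q0 * sc (s, Ob.L)) {(1 - P.jL) * l} (Z s (some .L)))
    (hT : ∀ s, DecOn (κ + 2 * q0 * sc (s, Ob.S)) {-(l / 2)} (Z s (some .T)))
    (hS : ∀ s (M : ℕ), DecOn (M : ℝ) {-((1 + P.e) * l)} (Z s (some .S)))
    (eq : ∀ s (u : ℂ), u.re = (1 - P.e) * l → Z s none u * Ei s u = ∏ j, (u - ζ s j))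
    (eqh : ∀ s (u : ℂ), u.re = (1 - P.j2) * l ∨ u.re = (1 - P.j1) * l →
      Z s none u * Ei s u = ∏ j, (u - ζ s j) ∨ (Z s none u = 0 ∧ Ei s u = 0))
    (bd : ∀ s, Bdd {(1 - P.j2) * l, (1 - P.e) * l, (1 - P.j1) * l}
      (κ' + 2 * q0 * sc (s, Ob.A)) (Ei s)) : DecQL6 Z P κ κ' q0 := by
  refine ⟨hκ, hκ', hA, hL, hT, hS, fun s => bdd_three ?_ ?_ ?_⟩
  · exact bdd_inv_line (fun j => (hζ.st s j).1.ne')
      (Bdd.mono_set (bd s) fun x hx => Or.inl hx) fun u hu => eqh s u (Or.inl hu)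
  · exact bdd_inv_line (fun j => hζ.off s j)
      (Bdd.mono_set (bd s) fun x hx => Or.inr (Or.inl hx)) fun u hu => Or.inl (eq s u hu)
  · exact bdd_inv_line (fun j => (hζ.st s j).2.ne)
      (Bdd.mono_set (bd s) fun x hx => Or.inr (Or.inr hx)) fun u hu => eqh s u (Or.inr hu)

/-- **the terms of a class with zeros are integrable over the heights**, any `P` -/
theorem int_fIZEl (hP : GoodP6 P) (hZ : ∀ s k, Measurable (Z s k)) (hζ : StZ6 P ζ) {n n' : ℕ}
    (h : DecQL6 Z P κ κ' ((n : ℝ) - n')) (E : Finset (ν true)) (E' : Finset (ν false))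
    {ι : Type} [Fintype ι] (K : ι → Bool × Kd6) :
    Integrable (fun t : ι → ℝ => fI (ZE Z ζ E E') P l (n + E.card) (n' + E'.card)
      fun i => xo (K i) (t i)) (Measure.pi fun _ => volume) := by
  have h1 := decL6_ZE' hP hζ h E E'
  have e : (n : ℝ) - n' + ((E.card : ℝ) - E'.card) =
      ((n + E.card : ℕ) : ℝ) - ((n' + E'.card : ℕ) : ℝ) := by
    push_cast
    ring
  rw [e] at h1
  exact integrable_fIL hP (measurable_ZE hZ E E') h1 K

end PHK

end
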