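import Pool.Agent.PHK.ClsInt6

/-!
# The particle-hole form (P): absolute integrability of the terms, conditions on the lines only

`DecQL6 Z P κ κ' q0`: as `DecQ6` with the functions of the quanta on the lines `(1 - e) l`, `l` and their
inverses on the lines `(1 - j2) l`, `(1 - e) l`, `(1 - j1) l` (`DecQ6.toL`); **`integrable_fIL`**.
-/

set_option autoImplicit false
set_option linter.unusedSectionVars false

noncomputable section

open Complex MeasureTheory Finset
open scoped Real ENNReal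

namespace PHK

open NUO NUP1 NUP1S NUP1S.Mg NUP1S.Ab NUP1S.AbG NUP1S.AbC NURow
open NUP1.Bd (wt Ob)

private lemma llq : NUP1.l = NUMF.l := rfl

/-- **decay of the class functions of (P)**, lines only -/
structure DecQL6 (Z : Bool → Option O3 → ℂ → ℂ) (P : Par6) (κ κ' q0 : ℝ) : Prop where
  kpos : 0 < κ
  k6 : κ' < 6
  A : ∀ s, DecOn (κ + 2 * q0 * sc (s, Ob.A)) {(1 - P.e) * l, l} (Z s none)
  L : ∀ s, DecOn (κ + 2 * q0 * sc (s, Ob.L)) {(1 - P.jL) * l} (Z s (some .L))
  T : ∀ s, DecOn (κ + 2 * q0 * sc (s, Ob.S)) {-(l / 2)} (Z s (some .T))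
  S : ∀ s (N : ℕ), DecOn (N : ℝ) {-((1 + P.e) * l)} (Z s (some .S))
  H : ∀ s, Bdd {(1 - P.j2) * l, (1 - P.e) * l, (1 - P.j1) * l} (κ' + 2 * q0 * sc (s, Ob.A))
    fun u => (Z s none u)⁻¹

variable {Z : Bool → Option O3 → ℂ → ℂ} {P : Par6} {κ κ' q0 : ℝ}

/-- the condition on the strips implies the one on the lines -/
theorem DecQ6.toL (hP : GoodP6 P) (h : DecQ6 Z P κ κ' q0) : DecQL6 Z P κ κ' q0 := by
  have hl : 0 < l := NUMF.l_pos
  have h1 := hP.e13
  have h2 := hP.j1e
  have h3 := hP.ej2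
  refine ⟨h.kpos, h.k6, fun s => ?_, h.L, h.T, h.S, fun s => ?_⟩
  · obtain ⟨D, hd⟩ := h.A s
    refine ⟨D, fun u hu => hd u ?_⟩
    rcases hu with hu | hu
    · rw [hu]
      exact ⟨le_rfl, by nlinarith⟩
    · rw [hu]
      exact ⟨by nlinarith, le_rfl⟩
  · obtain ⟨C, hC, hb⟩ := h.H s
    refine ⟨C, hC, fun u hu => hb u ?_⟩
    rcases hu with hu | hu | hu
    · rw [hu]
      exact ⟨le_rfl, by nlinarith⟩
    · rw [hu]
      exact ⟨by nlinarith, by nlinarith⟩
    · rw [hu]
      exact ⟨by nlinarith, le_rfl⟩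

theorem ob_xo_bdL (hP : GoodP6 P) (h : DecQL6 Z P κ κ' q0) (M : ℕ) (k : Bool × Kd6) :
    Gr6 (-(kqI6 κ κ' M k.2 + 2 * q0 * ((sgP6 k.1 : ℝ) * (lk6 k.2 : ℝ))))
      fun t => obK6 Z P (xo k t) := by
  obtain ⟨s, k⟩ := k
  have hl := NUMF.l_pos
  have hκ := h.kpos
  have hB : ∀ s', Gr6 (-(κ + 2 * q0 * sc (s', Ob.A))) fun t => Z s' none (posB P.e t) := fun s' =>
    Gr6.of_decOn (h.A s') (fun t => by
      rw [posB_re6]
      exact Or.inl rfl) (posB_im6 P.e)
  obtain ⟨N, hN⟩ : ∃ N : ℕ, M + 4 * |q0| + |κ'| ≤ (N : ℝ) := exists_nat_ge _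
  have hS := Gr6.of_decOn (h.S s N) (p := fun t => posS P.e t) (fun t => NUO.vl_re _ _)
    fun t => NUO.vl_im _ _
  have hq1 := le_abs_self q0
  have hq2 := neg_abs_le q0
  have hq3 := le_abs_self κ'
  have hq4 := neg_abs_le κ'
  have hq5 := abs_nonneg q0
  have hH : ∀ j, (j = P.j2 ∨ j = P.e ∨ j = P.j1) → ∀ p : ℝ → ℂ, (∀ t, (p t).re = (1 - j) * l) →
      (∀ t, (p t).im = t) → Gr6 (κ' + 2 * q0 * sc (s, Ob.A)) fun t => (Z s none (p t))⁻¹ :=
    fun j hj p hp hi => Gr6.of_bdd (h.H s) (fun t => by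
      rw [hp, llq]
      rcases hj with hj | hj | hj <;> rw [hj]
      · exact Or.inl rfl
      · exact Or.inr (Or.inl rfl)
      · exact Or.inr (Or.inr rfl)) hi
  cases k
  · have e : ∀ t, obK6 Z P (xo (s, .L) t) = cC6 .L * Z s (some .L) (posL P.jL t) := fun t => by
      rw [obK6_L Z P (k6_xo' s .L t), sp_xo', ht_xo']
    simp only [e]
    refine ((Gr6.const _).mul (Gr6.of_decOn (h.L s) (fun t => NUO.vl_re _ _)
      fun t => NUO.vl_im _ _)).mono (le_of_eq ?_)
    rw [sc_L6]
    simp [kqI6, lk6]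
  · have e : ∀ t, obK6 Z P (xo (s, .T) t) = cC6 .T * Z s (some .T) (posT t) := fun t => by
      rw [obK6_T Z P (k6_xo' s .T t), sp_xo', ht_xo']
    simp only [e]
    refine ((Gr6.const _).mul (Gr6.of_decOn (h.T s) (p := fun t => posT t) (fun t => ?_)
      fun t => NUO.vl_im _ _)).mono (le_of_eq ?_)
    · have : (posT t).re = -(1 / 2 * NUMF.l) := NUO.vl_re _ _
      simp only [this, Set.mem_singleton_iff, llq]
      ring
    · rw [sc_S6]
      simp only [kqI6, lk6]
      push_cast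
      ring
  · have e : ∀ t, obK6 Z P (xo (s, .E) t) = cC6 .E * (Z s (some .S) (posS P.e t) *
        Z (!s) none (posB P.e t) ^ 2) := fun t => by
      rw [obK6_E Z P (k6_xo' s .E t), sp_xo', ht_xo']
    simp only [e]
    refine ((Gr6.const _).mul (hS.mul (hB (!s)).sq)).mono ?_
    rw [sc_A6, sgP6_not, sgP6_cast]
    simp only [kqI6, lk6, Int.cast_zero, mul_zero]
    cases s <;> simp <;> linarith
  · have e : ∀ t, obK6 Z P (xo (s, .F) t) = cC6 .F * (Z s (some .S) (posS P.e t) *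
        (Z (!s) none (posB P.e t) ^ 2 * (Z s none (posB P.e t))⁻¹)) := fun t => by
      rw [obK6_F Z P (k6_xo' s .F t), sp_xo', ht_xo']
    simp only [e]
    refine ((Gr6.const _).mul (hS.mul ((hB (!s)).sq.mul (hH P.e (Or.inr (Or.inl rfl)) _
      (posB_re6 P.e) (posB_im6 P.e))))).mono ?_
    rw [sc_A6, sc_A6, sgP6_not, sgP6_cast]
    simp only [kqI6, lk6]
    cases s <;> simp <;> linarith
  · have e : ∀ t, obK6 Z P (xo (s, .H1) t) = cC6 .H1 * (Z s none (posL P.j1 t))⁻¹ := fun t => by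
      rw [obK6_H1 Z P (k6_xo' s .H1 t), sp_xo', ht_xo']
    simp only [e]
    refine ((Gr6.const _).mul (hH P.j1 (Or.inr (Or.inr rfl)) _ (fun t => NUO.vl_re _ _)
      fun t => NUO.vl_im _ _)).mono (le_of_eq ?_)
    rw [sc_A6]
    simp [kqI6, lk6]
    ring
  · have e : ∀ t, obK6 Z P (xo (s, .H2) t) = cC6 .H2 * (Z s none (posL P.j2 t))⁻¹ := fun t => by
      rw [obK6_H2 Z P (k6_xo' s .H2 t), sp_xo', ht_xo']
    simp only [e]
    refine ((Gr6.const _).mul (hH P.j2 (Or.inl rfl) _ (fun t => NUO.vl_re _ _)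
      fun t => NUO.vl_im _ _)).mono (le_of_eq ?_)
    rw [sc_A6]
    simp [kqI6, lk6]
    ring

/-- one constant for all labels -/
theorem ob_constL (hP : GoodP6 P) (h : DecQL6 Z P κ κ' q0) (M : ℕ) : ∃ C : ℝ, 0 ≤ C ∧
    ∀ (k : Bool × Kd6) (t : ℝ), ‖obK6 Z P (xo k t)‖ ≤ C *
      Real.exp (-((kqI6 κ κ' M k.2 + 2 * q0 * ((sgP6 k.1 : ℝ) * (lk6 k.2 : ℝ))) * |t|)) := by
  choose C hC hb using ob_xo_bdL hP h M
  refine ⟨∑ k, C k, Finset.sum_nonneg fun k _ => hC k, fun k t => (hb k t).trans ?_⟩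
  rw [neg_mul]
  exact mul_le_mul_of_nonneg_right (Finset.single_le_sum (f := C) (fun p _ => hC p)
    (Finset.mem_univ _)) (Real.exp_pos _).le

variable {ι : Type*} [Fintype ι]

/-- **bound of the term of a word** -/
theorem fI_bdL (hP : GoodP6 P) {n n' : ℕ} (h : DecQL6 Z P κ κ' ((n : ℝ) - n'))
    (K : ι → Bool × Kd6) : ∃ C δ : ℝ, 0 ≤ C ∧ 0 < δ ∧ ∀ t : ι → ℝ,
      ‖fI Z P l n n' (fun i => xo (K i) (t i))‖ ≤ C * ∏ i, Real.exp (-(δ * |t i|)) := by
  by_cases hc : qI (fun i => xo (K i) 0) true ≤ n ∧ qI (fun i => xo (K i) 0) false ≤ n' ∧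
        cntI (fun i => xo (K i) 0)
  swap
  · refine ⟨0, 1, le_rfl, one_pos, fun t => ?_⟩
    rw [fI_word, if_neg hc, norm_zero, zero_mul]
  set M : ℕ := 6 * Fintype.card ι + 1 with hM
  obtain ⟨D, hD, hob⟩ := ob_constL hP h M
  obtain ⟨C1, hC1, hp⟩ := pair_bd6 hP
  obtain ⟨C2, hC2, hv⟩ := pot_bd6 hP
  choose C3 hC3 h3 using fun p : Bool × Bool =>
    bdd_gz (K := {0}) isCompact_singleton (p.1, Ob.A) (p.2, Ob.A) (okAA p.1 p.2)
  choose DA hA using h.A
  have hS3 : 0 ≤ ∑ p, C3 p := Finset.sum_nonneg fun p _ => hC3 p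
  have hSA : 0 ≤ ∑ s, |DA s| := Finset.sum_nonneg fun p _ => abs_nonneg _
  set a := nAI n (fun i => xo (K i) 0) true with ha
  set b := nAI n' (fun i => xo (K i) 0) false with hb
  set c : ι → ℝ := fun i => (sgP6 (K i).1 : ℝ) * (lk6 (K i).2 : ℝ) with hcdef
  have hlc : ∀ i t, lc6 (xo (K i) t) = c i := fun i t => by
    rw [lc6_eq, sp_xo, k6_xo]
  have hq : (∑ i, c i) + ((a : ℝ) - b) = (n : ℝ) - n' := by
    have e1 : ∑ i, c i = (qI (fun i => xo (K i) 0) true : ℝ) -
        (qI (fun i => xo (K i) 0) false : ℝ) := by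
      unfold qI
      push_cast
      rw [← Finset.sum_sub_distrib]
      exact Finset.sum_congr rfl fun i _ => (hlc i 0).symm
    have e2 : ((a : ℤ) : ℝ) = ((n - qI (fun i => xo (K i) 0) true : ℤ) : ℝ) := by
      congr 1
      rw [ha, nAI, Int.toNat_of_nonneg (by have := hc.1; omega)]
    have e3 : ((b : ℤ) : ℝ) = ((n' - qI (fun i => xo (K i) 0) false : ℤ) : ℝ) := by
      congr 1
      rw [hb, nAI, Int.toNat_of_nonneg (by have := hc.2.1; omega)]
    push_cast at e2 e3
    rw [e1, e2, e3]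
    ring
  set δ : ℝ := min κ (min 1 (6 - κ')) with hδ
  have hδ0 : 0 < δ := lt_min h.kpos (lt_min one_pos (by have := h.k6; linarith))
  have hδ1 : δ ≤ κ := min_le_left _ _
  have hδ2 : δ ≤ 1 := (min_le_right _ _).trans (min_le_left _ _)
  have hδ3 : δ ≤ 6 - κ' := (min_le_right _ _).trans (min_le_right _ _)
  set C : ℝ := C1 + C2 + ∑ p, C3 p with hCdef
  have hC : 1 ≤ C := by linarith
  set W : ℝ := ((∏ _i : ι, D) * (∑ s, |DA s|) ^ (a + b) *
        C ^ ((Fintype.card ι + (a + b)) * (Fintype.card ι + (a + b))) *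
        ∫ u : Fin a ⊕ Fin b → ℝ, ∏ i, Real.exp (-(κ * |u i|)) ∂(Measure.pi fun _ => volume)) with hW
  have hW0 : 0 ≤ W := by
    refine mul_nonneg (mul_nonneg (mul_nonneg (Finset.prod_nonneg fun _ _ => hD)
      (pow_nonneg hSA _)) (pow_nonneg (by linarith) _)) (integral_nonneg fun u => ?_)
    exact Finset.prod_nonneg fun i _ => (Real.exp_pos _).le
  refine ⟨(4 * Fintype.card ι + 1) ^ Fintype.card ι * W, δ, by positivity, hδ0, fun t => ?_⟩
  rw [fI_word, if_pos hc]
  have e1 : wI Z P (fun i => xo (K i) (t i)) * gas a b l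
      (fun z => Z true none z * potI P (fun i => xo (K i) (t i)) true z)
      (fun z => Z false none z * potI P (fun i => xo (K i) (t i)) false z) =
      locI P (fun i => xo (K i) (t i)) * (((∏ i, obK6 Z P (xo (K i) (t i))) *
        PU fun i j => pairC6 P (xo (K i) (t i)) (xo (K j) (t j))) * gas a b l
      (fun z => Z true none z * ∏ i, potC6 P (xo (K i) (t i)) true z)
      (fun z => Z false none z * ∏ i, potC6 P (xo (K i) (t i)) false z)) := by
    unfold wI potI
    ring
  rw [e1, norm_mul]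
  have h4 := locI_bd hP fun i => xo (K i) (t i)
  have h5 := wGas_le (o := fun i => obK6 Z P (xo (K i) (t i)))
    (f := fun i j => pairC6 P (xo (K i) (t i)) (xo (K j) (t j)))
    (fun i j => pairC6_symm P _ _)
    (V := fun i s z => potC6 P (xo (K i) (t i)) s z)
    (c := c) (t := t) (kp := fun i => kqI6 κ κ' M (K i).2) (D := fun _ => D)
    (G := fun s z => Z s none z) (y := l) (C := C) (DG := ∑ s, |DA s|) (κ := κ)
    (q0 := (n : ℝ) - n') (a := a) (b := b) h.kpos hC hq (fun _ => hD)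
    (fun i => hob (K i) (t i)) hSA
    (fun s u hu => by
      refine (hA s u ?_).trans ?_
      · rw [hu]
        exact Or.inr rfl
      · refine mul_le_mul_of_nonneg_right ?_ (Real.exp_pos _).le
        exact (le_abs_self _).trans (Finset.single_le_sum (f := fun s => |DA s|)
          (fun p _ => abs_nonneg _) (Finset.mem_univ _)))
    (fun i j _ => by
      have := hp (xo (K i) (t i)) (xo (K j) (t j))
      rw [hlc, hlc, ht_xo, ht_xo] at this
      refine this.trans ((mul_le_mul_of_nonneg_right (b := C1) (c := C) ?_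
        (Real.exp_pos _).le).trans (le_of_eq ?_))
      · linarith
      · ring_nf)
    (fun i s u hu => by
      have := hv s (xo (K i) (t i)) u (by
        rw [hu]
        have h2 := NUMF.l_pos
        rw [llq]
        constructor <;> linarith)
      rw [hlc, ht_xo] at this
      refine this.trans ((mul_le_mul_of_nonneg_right (b := C2) (c := C) ?_
        (Real.exp_pos _).le).trans (le_of_eq ?_))
      · linarith
      · rw [sc_A6, abs_sub_comm]
        ring_nf)
    (fun s s' u hu => by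
      refine (h3 (s, s') u (by rw [hu]; exact Set.mem_singleton _)).trans
        (mul_le_mul_of_nonneg_right ?_ (Real.exp_pos _).le)
      have := Finset.single_le_sum (f := C3) (fun p _ => hC3 p) (Finset.mem_univ (s, s'))
      linarith)
  refine (mul_le_mul h4 h5 (norm_nonneg _) (mul_nonneg (by positivity)
    (Finset.prod_nonneg fun i _ => by split_ifs <;> positivity))).trans ?_
  rw [← hW]
  have h6 : (∏ i, ((if isH (xo (K i) (t i)) then Real.exp (-6 * |ht (xo (K i) (t i))|) else 1) *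
        (if isE (xo (K i) (t i)) then
          Real.exp (6 * Fintype.card ι * |ht (xo (K i) (t i))|) else 1))) *
      ∏ i, Real.exp (-(kqI6 κ κ' M (K i).2 * |t i|)) ≤ ∏ i, Real.exp (-(δ * |t i|)) := by
    rw [← Finset.prod_mul_distrib]
    refine Finset.prod_le_prod (fun i _ => by split_ifs <;> positivity) fun i _ => ?_
    have ht0 := abs_nonneg (t i)
    have hcd : (0 : ℝ) ≤ Fintype.card ι := Nat.cast_nonneg _
    have hMr : (M : ℝ) = 6 * Fintype.card ι + 1 := by
      rw [hM]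
      push_cast
      ring
    have hiH : isH (xo (K i) (t i)) ↔ (K i).2 = .H1 ∨ (K i).2 = .H2 ∨ (K i).2 = .F := by
      unfold isH
      rw [k6_xo]
    have hiE : isE (xo (K i) (t i)) ↔ (K i).2 = .E ∨ (K i).2 = .F := by
      unfold isE
      rw [k6_xo]
    simp only [hiH, hiE, ht_xo, hMr]
    generalize (K i).2 = q
    cases q
    · simp only [kqI6, reduceCtorEq, or_self, if_false, one_mul]
      exact Real.exp_le_exp.2 (by nlinarith)
    · simp only [kqI6, reduceCtorEq, or_self, if_false, one_mul]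
      exact Real.exp_le_exp.2 (by nlinarith)
    · simp only [kqI6, reduceCtorEq, or_self, or_false, if_false, if_true, one_mul]
      rw [← Real.exp_add]
      exact Real.exp_le_exp.2 (by nlinarith)
    · simp only [kqI6, reduceCtorEq, or_true, if_true]
      rw [← Real.exp_add, ← Real.exp_add]
      exact Real.exp_le_exp.2 (by nlinarith)
    · simp only [kqI6, reduceCtorEq, or_self, or_false, if_false, if_true, mul_one]
      rw [← Real.exp_add]
      exact Real.exp_le_exp.2 (by nlinarith)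
    · simp only [kqI6, reduceCtorEq, or_self, or_false, false_or, if_false, if_true, mul_one]
      rw [← Real.exp_add]
      exact Real.exp_le_exp.2 (by nlinarith)
  have h7 : (0 : ℝ) ≤ (4 * Fintype.card ι + 1) ^ Fintype.card ι * W := by positivity
  refine le_trans (le_of_eq ?_) (mul_le_mul_of_nonneg_left h6 h7)
  ring

/-- **the terms are integrable over the heights** -/
theorem integrable_fIL (hP : GoodP6 P) (hZ : ∀ s k, Measurable (Z s k)) {n n' : ℕ}
    (h : DecQL6 Z P κ κ' ((n : ℝ) - n')) (K : ι → Bool × Kd6) :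
    Integrable (fun t : ι → ℝ => fI Z P l n n' (fun i => xo (K i) (t i)))
      (Measure.pi fun _ => volume) := by
  obtain ⟨C, δ, hC, hδ, hb⟩ := fI_bdL hP h K
  refine ((integrable_prod_exp' (ι := ι) hδ).const_mul C).mono' ?_
    (Filter.Eventually.of_forall hb)
  exact (measurable_fI hZ P l n n' K fun i => measurable_pi_apply i).aestronglyMeasurable

end PHK

end
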