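import Pool.Agent.PHK.WordS
import Pool.Agent.PHK.ClsIntL

/-!
# The word identity: almost all heights, the class without zeros

* `ae_inj`: almost all heights are distinct; **`intW_ae`**: integrability over the free holes for
  almost all heights of the objects;
* **`wordIdZ_empty`**: the class without zeros is the identity `WordId6`.
-/

set_option autoImplicit false
set_option linter.unusedSectionVars false
set_option linter.unusedVariables false

noncomputable section

open Complex MeasureTheory Finset
open scoped Real ENNReal Nat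

namespace PHK

open NUO NUP1 NUP1S NUP1S.Mg NUP1S.Ab NUP1S.AbG NURow
open NUP1.Bd (wt Ob qg)
open Pool.Agent.PHK (lM lG lK)

/-! ### almost all heights -/

section ae

variable {ι κ : Type*} [Fintype ι] [Fintype κ]

/-- almost all heights are distinct -/
theorem ae_inj : ∀ᵐ t : ι → ℝ ∂(Measure.pi fun _ => volume), Function.Injective t := by
  classical
  have key : ∀ᵐ t : ι → ℝ ∂(Measure.pi fun _ => volume), ∀ a b, a ≠ b → t a ≠ t b := by
    rw [ae_all_iff]
    intro a
    rw [ae_all_iff]
    intro b
    by_cases hab : a = b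
    · exact Filter.Eventually.of_forall fun t h => absurd hab h
    · have h1 : ∀ᵐ t : ι → ℝ ∂(Measure.pi fun _ => volume), t ∉ {t : ι → ℝ | t a = t b} := by
        rw [← measure_eq_zero_iff_ae_notMem, ← volume_pi]
        let p : Submodule ℝ (ι → ℝ) :=
          LinearMap.ker ((LinearMap.proj a : (ι → ℝ) →ₗ[ℝ] ℝ) - LinearMap.proj b)
        have hp : p ≠ ⊤ := by
          intro h
          have h2 : (Pi.single a (1 : ℝ) : ι → ℝ) ∈ p := by
            rw [h]
            trivial
          have h3 : (Pi.single a (1 : ℝ) : ι → ℝ) a - (Pi.single a (1 : ℝ) : ι → ℝ) b = 0 := h2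
          rw [Pi.single_eq_same, Pi.single_eq_of_ne (Ne.symm hab)] at h3
          norm_num at h3
        have h4 : {t : ι → ℝ | t a = t b} = (p : Set (ι → ℝ)) := by
          ext t
          simp only [p, Set.mem_ofPred_eq, SetLike.mem_coe, LinearMap.mem_ker, LinearMap.sub_apply,
            LinearMap.proj_apply, sub_eq_zero]
        rw [h4]
        exact Measure.addHaar_submodule _ p hp
      filter_upwards [h1] with t ht _ he
      exact ht he
  filter_upwards [key] with t ht a b hab
  by_contra hne
  exact ht a b hne hab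

/-- integrability over the heights of the holes for almost all heights of the objects -/
theorem ae_section {F : (ι ⊕ κ → ℝ) → ℂ} (hF : Integrable F (Measure.pi fun _ => volume)) :
    ∀ᵐ t : ι → ℝ ∂(Measure.pi fun _ => volume), Integrable (fun h : κ → ℝ => F (Sum.elim t h))
      (Measure.pi fun _ => volume) := by
  have mp := measurePreserving_sumPiEquivProdPi_symm (X := fun _ : ι ⊕ κ => ℝ)
    (fun _ => (volume : Measure ℝ))
  set G : (ι → ℝ) × (κ → ℝ) → ℂ := fun q => F (Sum.elim q.1 q.2) with hG
  have e0 : ∀ q : (ι → ℝ) × (κ → ℝ),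
      (MeasurableEquiv.sumPiEquivProdPi fun _ : ι ⊕ κ => ℝ).symm q = Sum.elim q.1 q.2 := by
    intro q
    funext i
    rcases i with i | i <;> rfl
  have e1 : (fun q => F ((MeasurableEquiv.sumPiEquivProdPi fun _ : ι ⊕ κ => ℝ).symm q)) = G := by
    funext q
    rw [e0]
  have hG1 : Integrable G ((Measure.pi fun _ => (volume : Measure ℝ)).prod
      (Measure.pi fun _ => (volume : Measure ℝ))) := by
    rw [← e1]
    exact (mp.integrable_comp_emb (MeasurableEquiv.measurableEmbedding _)).2 hF
  exact hG1.prod_right_ae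

end ae

/-! ### the class functions -/

section cls

variable {p p' : ℕ} {k : Fin p → O3} {k' : Fin p' → O3} {ν : Bool → Type} [∀ s, Fintype (ν s)]
  [∀ s, LinearOrder (ν s)] {Z : Bool → Option O3 → ℂ → ℂ} {P : Par6} {ζ ρ : ∀ s, ν s → ℂ}
  {n n' N : ℕ}

/-- **integrability over the free holes for almost all heights of the objects** -/
theorem intW_ae (hI : ∀ (A : Finset (ν true)) (A' : Finset (ν false)) {ι : Type} [Fintype ι]
      (K : ι → Bool × Kd6), Integrable (fun t : ι → ℝ =>
        fI (ZE Z ζ A A') P l (n + A.card) (n' + A'.card) fun i => xo (K i) (t i))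
        (Measure.pi fun _ => volume)) (k : Fin p → O3) (k' : Fin p' → O3) :
    ∀ᵐ t : Fin p ⊕ Fin p' → ℝ ∂(Measure.pi fun _ => volume), IntW Z P ζ n n' k k' t := by
  unfold IntW
  rw [ae_all_iff]
  intro A
  rw [ae_all_iff]
  intro A'
  rw [ae_all_iff]
  intro D
  rw [ae_all_iff]
  intro D'
  rw [ae_all_iff]
  intro a
  rw [ae_all_iff]
  intro a'
  rw [ae_all_iff]
  intro s
  have h := ae_section (hI A A' (labW (kD k D) (kD k' D') (fun j : Fin a => s (Sum.inl j))
    (fun j : Fin a' => s (Sum.inr j))))
  filter_upwards [h] with t ht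
  have e : ∀ u : Fin a ⊕ Fin a' → ℝ, fmW k k' t D D' (fun j => (s j, u j)) =
      fun i => xo (labW (kD k D) (kD k' D') (fun j : Fin a => s (Sum.inl j))
        (fun j : Fin a' => s (Sum.inr j)) i) (Sum.elim t u i) := by
    intro u
    funext i
    rcases i with (i | i) | (i | i) <;> rfl
  simp only [e]
  exact ht

/-- the class without zeros -/
theorem ZE_empty (s : Bool) (k : Option O3) (z : ℂ) :
    ZE Z ζ (∅ : Finset (ν true)) (∅ : Finset (ν false)) s k z = Z s k z := by
  simp [ZE]

theorem TZ_empty [IsEmpty (ν true)] [IsEmpty (ν false)] {ι : Type} [Fintype ι] (O : ι → Xo) :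
    TZ Z P ζ ρ n n' ι O = fI Z P l n n' O := by
  unfold TZ
  have e1 : (univ : Finset (Finset (ν true))) = {∅} := by
    ext A
    rw [mem_singleton]
    exact ⟨fun _ => Finset.eq_empty_of_isEmpty A, fun _ => mem_univ _⟩
  have e2 : (univ : Finset (Finset (ν false))) = {∅} := by
    ext A
    rw [mem_singleton]
    exact ⟨fun _ => Finset.eq_empty_of_isEmpty A, fun _ => mem_univ _⟩
  rw [e1, sum_singleton, e2, sum_singleton]
  have hZ : ZE Z ζ (∅ : Finset (ν true)) (∅ : Finset (ν false)) = Z := by
    funext s k z
    exact ZE_empty s k z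
  have hk : kaE ζ ρ (∅ : Finset (ν true)) (∅ : Finset (ν false)) = 1 := by
    simp [kaE, Pool.Agent.PHD.PP]
  rw [hZ, hk, one_mul, card_empty, card_empty, add_zero, add_zero]
  by_cases hc : cntI O
  · unfold psE
    rw [if_pos ⟨by simpa using hc true, by simpa using hc false⟩]
    simp
  · have : fI Z P l n n' O = 0 := if_neg fun h => hc h.2.2
    rw [this, zero_mul]

/-- **the identity of one word for a class without zeros** -/
theorem wordId6_of_Z [IsEmpty (ν true)] [IsEmpty (ν false)] {ln : O3 → ℝ} {x0 : ℝ}
    {t : Fin p ⊕ Fin p' → ℝ} (h : WordIdZ Z P ζ ρ ln x0 n n' N k k' t) :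
    WordId6 Z P ln x0 n n' N k k' t := by
  unfold WordIdZ WordIdT at h
  unfold WordId6
  simp only [TZ_empty] at h
  exact h

end cls

end PHK

end
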