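import Pool.Agent.PHK.WordPb
import Pool.Agent.PHK.HostX
import Pool.Agent.PHK.LgZL
import Pool.Agent.PHK.WordA

/-!
# The word identities of the classes with poles

* `XP` : the field of the quanta at the poles, `bdd_XP`; `decQ_ZFl` : decay of the filled classes;
* `hcl_ZFl` : the filled classes in the form of `sp6_true`, `sp6_false`;
* **`wordThP : WordThP`**.
-/

set_option autoImplicit false
set_option linter.unusedSectionVars false
set_option linter.unusedVariables false

noncomputable section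

open Complex MeasureTheory NUP1 Set Filter Topology
open scoped ENNReal Nat

namespace PHK

open NUO NUP1S NUP1S.Mg NUP1S.Ab NUP1S.AbG NURow
open NUP1.Bd (wt Ob qg sin_pos_of)
open Pool.Agent.PHK (lM lG lK)
open Pool.Agent.PLX (HI6)

section fill

variable {Z : Bool → Option O3 → ℂ → ℂ} {P : Par6} {κ κ' : ℝ} {Q : ℤ} {a : Bool → Bool}
  {π : Bool → ℂ} {h : Bool → ℂ → ℂ}

/-- the field of the quanta at the poles on an object of type `o` -/
def XP (π : Bool → ℂ) (i : Bool × Bool) (s : Bool) (o : Ob) (u : ℂ) : ℂ :=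
  (if i.1 = true then gz (true, .A) (s, o) (π true - u) else 1) *
    (if i.2 = true then gz (false, .A) (s, o) (π false - u) else 1)

theorem ZFl_XP (i : Bool × Bool) (s : Bool) (k : Option O3) :
    ZFl Z π i s k = fun u => Z s k u * XP π i s (ob4 k) u := rfl

theorem gz_flip (s0 s : Bool) (o : Ob) (w : ℂ) :
    (fun u => gz (s0, .A) (s, o) (w - u)) = fun u => gz (s, o) (s0, .A) (u - w) := by
  funext u
  rw [gz_symm, neg_sub]

theorem bdd_gp (hp : ∀ s, (π s).re = 5 / 8 * l) (s0 : Bool) {K : Set ℝ} (hK : IsCompact K)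
    {s : Bool} {o : Ob} (hk : ∀ d ∈ K, Ok (s0, .A) (s, o) (5 / 8 * l - d)) :
    Bdd K (2 * (sg s0 : ℝ) * sc (s, o)) fun u => gz (s0, .A) (s, o) (π s0 - u) := by
  have e2 : 2 * (sg s0 : ℝ) * sc (s, o) = rt (s, o) (s0, .A) := by
    unfold rt
    rw [sc_sA]
    ring
  rw [gz_flip, e2]
  refine Bdd.translate (bdd_gz (hK.image (by fun_prop)) _ _ ?_)
  rintro _ ⟨v, hv, rfl⟩
  have h1 := (hk v hv).symm
  rw [neg_sub] at h1
  rw [hp s0]
  exact h1

theorem bdd_XP (hp : ∀ s, (π s).re = 5 / 8 * l) (i : Bool × Bool) {K : Set ℝ} (hK : IsCompact K)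
    {s : Bool} {o : Ob} (hk : ∀ s0, ∀ d ∈ K, Ok (s0, .A) (s, o) (5 / 8 * l - d)) :
    Bdd K (2 * ((i.1.toNat : ℝ) - i.2.toNat) * sc (s, o)) (XP π i s o) := by
  have h1 := bdd_gp hp true hK (hk true)
  have h2 := bdd_gp hp false hK (hk false)
  have e1 : ((sg true : ℤ) : ℝ) = 1 := by simp [sg]
  have e2 : ((sg false : ℤ) : ℝ) = -1 := by simp [sg]
  have h0 : Bdd K 0 fun _ : ℂ => (1 : ℂ) := ⟨1, zero_le_one, fun z _ => by simp⟩
  obtain ⟨i1, i2⟩ := i
  have a1 : Bdd K (2 * (i1.toNat : ℝ) * sc (s, o))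
      fun u => if i1 = true then gz (true, .A) (s, o) (π true - u) else 1 := by
    cases i1
    · simp only [Bool.false_eq_true, if_false]
      exact h0.rate (by simp)
    · simp only [if_true]
      exact h1.rate (by rw [e1]; simp)
  have a2 : Bdd K (-(2 * (i2.toNat : ℝ) * sc (s, o)))
      fun u => if i2 = true then gz (false, .A) (s, o) (π false - u) else 1 := by
    cases i2
    · simp only [Bool.false_eq_true, if_false]
      exact h0.rate (by simp)
    · simp only [if_true]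
      exact h2.rate (by rw [e2]; simp)
  exact (a1.mul a2).rate (by ring)

theorem ok_AA {d : ℝ} (h1 : -l < d) (h2 : d < l) (s s' : Bool) :
    Ok (s, .A) (s', .A) d := by
  have hl := Bd.l_pos
  have hpi := Bd.pi_eq
  have sp : ∀ x : ℝ, 0 < x → x < 8 * l → Real.sin x ≠ 0 := fun x h1 h2 =>
    (sin_pos_of h1 (by linarith)).ne'
  have sm : ∀ x : ℝ, -(8 * l) < x → x < 0 → Real.sin x ≠ 0 := fun x h1 h2 => by
    have := sp (-x) (by linarith) (by linarith)
    rwa [Real.sin_neg, neg_ne_zero] at this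
  intro r hr
  unfold poles at hr
  by_cases hs : s = s'
  · rw [if_pos hs] at hr
    simp only [List.mem_cons, List.not_mem_nil, or_false] at hr
    rcases hr with rfl | rfl
    · exact sp _ (by linarith) (by linarith)
    · exact sm _ (by linarith) (by linarith)
  · rw [if_neg hs] at hr
    simp only [List.mem_cons, List.not_mem_nil, or_false] at hr
    rcases hr with rfl | rfl
    · exact sp _ (by linarith) (by linarith)
    · exact sm _ (by linarith) (by linarith)

theorem DecOn.mulB {κ κ₁ r : ℝ} {K : Set ℝ} {f g : ℂ → ℂ} (hf : DecOn κ K f) (hg : Bdd K r g)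
    (hr : κ₁ ≤ κ - r) : DecOn κ₁ K fun u => f u * g u := by
  obtain ⟨D, hD⟩ := hf
  obtain ⟨C, hC, hb⟩ := hg
  refine ⟨|D| * C, fun z hz => ?_⟩
  rw [norm_mul]
  refine (mul_le_mul ((hD z hz).trans (mul_le_mul_of_nonneg_right (le_abs_self D)
    (Real.exp_pos _).le)) (hb z hz) (norm_nonneg _) (by positivity)).trans ?_
  rw [mul_mul_mul_comm, ← Real.exp_add]
  refine mul_le_mul_of_nonneg_left (Real.exp_le_exp.2 ?_) (by positivity)
  nlinarith [abs_nonneg z.im]

/-- the quanta at the poles and the objects -/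
theorem ok_fill (hG : GoodP6 P) (he : (1 - P.e) * l < 19 / 32 * l) (s0 s : Bool) (o : O3) :
    ∀ d ∈ ({lnK P o} : Set ℝ), Ok (s0, .A) (s, ob3 o) (5 / 8 * l - d) := by
  have hl := Bd.l_pos
  intro d hd
  rw [Set.mem_singleton_iff.1 hd]
  exact ok_right hG he (by linarith) (by linarith) s0 s o

theorem ms_XP (i : Bool × Bool) (s : Bool) (o : Ob) : Measurable (XP π i s o) := by
  have h1 : ∀ s0, Measurable fun u => gz (s0, .A) (s, o) (π s0 - u) := fun s0 => by
    rw [gz_flip]
    exact (measurable_gz _ _).comp (measurable_id.sub_const _)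
  unfold XP
  obtain ⟨i1, i2⟩ := i
  refine Measurable.mul ?_ ?_
  · cases i1
    · simp only [Bool.false_eq_true, if_false]
      exact measurable_const
    · simp only [if_true]
      exact h1 true
  · cases i2
    · simp only [Bool.false_eq_true, if_false]
      exact measurable_const
    · simp only [if_true]
      exact h1 false

theorem ms_ZFl (hm : ∀ s k, Measurable (Z s k)) (i : Bool × Bool) (s : Bool) (k : Option O3) :
    Measurable (ZFl Z π i s k) := by
  rw [ZFl_XP]
  exact (hm s k).mul (ms_XP i s _)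

theorem diff_XP (hp : ∀ s, (π s).re = 5 / 8 * l) (i : Bool × Bool) (s : Bool) {u : ℂ}
    (h1 : 0 ≤ u.re) (h2 : u.re ≤ l) : DifferentiableAt ℂ (XP π i s .A) u := by
  have hl := Bd.l_pos
  have key : ∀ s0, DifferentiableAt ℂ (fun u => gz (s0, .A) (s, .A) (π s0 - u)) u := fun s0 => by
    rw [gz_flip]
    refine DifferentiableAt.comp (g := gz (s, .A) (s0, .A)) (f := fun u => u - π s0) u
      (differentiableAt_gz _ _ ?_) (by fun_prop)
    rw [sub_re, hp s0]
    exact ok_AA (by linarith) (by linarith) s s0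
  unfold XP
  obtain ⟨i1, i2⟩ := i
  refine DifferentiableAt.mul ?_ ?_
  · cases i1
    · simp only [Bool.false_eq_true, if_false]
      exact differentiableAt_const _
    · simp only [if_true]
      exact key true
  · cases i2
    · simp only [Bool.false_eq_true, if_false]
      exact differentiableAt_const _
    · simp only [if_true]
      exact key false

/-- `Z s none` is analytic left of the poles -/
theorem diff_none (hpol : PolZ Z κ Q a π h) (s : Bool) {u : ℂ} (h1 : 51 / 100 * l < u.re)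
    (h2 : u.re < 39 / 64 * l) : DifferentiableAt ℂ (Z s none) u := by
  have hl := Bd.l_pos
  have hd : DifferentiableAt ℂ (hL π h s) u := by
    refine (hpol.an s u h1.le (by linarith)).div (by fun_prop)
      (sinp hpol.re s h1.le (by linarith) ?_)
    intro hu
    have := hpol.re s
    rw [← hu] at this
    linarith
  refine hd.congr_of_eventuallyEq ?_
  have ho : OS (51 / 100 * l) (39 / 64 * l) ∈ 𝓝 u := (isOpen_OS _ _).mem_nhds ⟨h1, h2⟩
  filter_upwards [ho] with v hv
  exact hL_eq hpol s hv.1.le hv.2.le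

/-- **decay of the filled classes on the lines** -/
theorem decQ_ZFl {ν : Bool → Type} [∀ s, Fintype (ν s)] [∀ s, LinearOrder (ν s)]
    {ζ ρ : ∀ s, ν s → ℂ} {Ei : Bool → ℂ → ℂ} (hG : GoodP6 P) (hH : HI6 P)
    (he : (1 - P.e) * l < 19 / 32 * l) (hκ : 0 < κ) (hκ' : κ' < 6) (hpol : PolZ Z κ Q a π h)
    (hA : ∀ s, DecOn (κ + 2 * (Q : ℝ) * sc (s, Ob.A)) (Set.Icc (51 / 100 * l) (39 / 64 * l) ∪
      Set.Icc (41 / 64 * l) l) (Z s none))
    (hLd : ∀ s, DecOn (κ + 2 * (Q : ℝ) * sc (s, Ob.L)) {(1 - P.jL) * l} (Z s (some .L)))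
    (hT : ∀ s, DecOn (κ + 2 * (Q : ℝ) * sc (s, Ob.S)) {-(l / 2)} (Z s (some .T)))
    (hS : ∀ s (M : ℕ), DecOn (M : ℝ) {-((1 + P.e) * l)} (Z s (some .S)))
    (i : Bool × Bool)
    (hz : ZerZ (ZFl Z π i) P (39 / 64 * l) κ' ((Q : ℝ) - i.1.toNat + i.2.toNat) ζ ρ Ei) :
    DecQL6 (ZFl Z π i) P κ κ' ((Q : ℝ) - i.1.toNat + i.2.toNat) := by
  have hl := Bd.l_pos
  have k1 := hG.e45
  have k2 := hH.j1
  have k3 := hH.j2
  have k4 := hG.j1e
  have k5 := hG.ej2
  refine decQL6_line hκ hκ' (ζ := ζ) ⟨hz.st, hz.off⟩ (Ei := Ei) (fun s => ?_) (fun s => ?_)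
    (fun s => ?_) (fun s M => ?_) (fun s u hu => ?_) hz.eqh (fun s => ?_)
  · rw [ZFl_XP]
    have hk : IsCompact ({(1 - P.e) * l, l} : Set ℝ) := (Set.toFinite _).isCompact
    refine DecOn.mulB ((hA s).mono ?_) (bdd_XP hpol.re i hk fun s0 d hd => ?_) ?_
    · rintro x (hx | hx)
      · rw [hx]
        exact Or.inl ⟨by nlinarith, by linarith⟩
      · rw [Set.mem_singleton_iff.1 hx]
        exact Or.inr ⟨by linarith, le_rfl⟩
    · rcases hd with hd | hd
      · rw [hd]
        exact ok_AA (by linarith) (by nlinarith) s0 s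
      · rw [Set.mem_singleton_iff.1 hd]
        exact ok_AA (by linarith) (by linarith) s0 s
    · show κ + 2 * ((Q : ℝ) - i.1.toNat + i.2.toNat) * sc (s, Ob.A) ≤ _
      have : sc (s, ob4 none) = sc (s, Ob.A) := rfl
      rw [this]
      linarith
  · rw [ZFl_XP]
    refine DecOn.mulB (hLd s) (bdd_XP hpol.re i isCompact_singleton fun s0 d hd =>
      ok_fill hG he s0 s .L d hd) ?_
    have : sc (s, ob4 (some .L)) = sc (s, Ob.L) := rfl
    rw [this]
    linarith
  · rw [ZFl_XP]
    refine DecOn.mulB (hT s) (bdd_XP hpol.re i isCompact_singleton fun s0 d hd =>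
      ok_fill hG he s0 s .T d hd) ?_
    have : sc (s, ob4 (some .T)) = sc (s, Ob.S) := rfl
    rw [this]
    linarith
  · rw [ZFl_XP]
    obtain ⟨M', hM'⟩ := exists_nat_ge ((M : ℝ) + 2 * ((i.1.toNat : ℝ) - i.2.toNat) * sc (s, Ob.S))
    refine DecOn.mulB (hS s M') (bdd_XP hpol.re i isCompact_singleton fun s0 d hd =>
      ok_fill hG he s0 s .S d hd) ?_
    have : sc (s, ob4 (some .S)) = sc (s, Ob.S) := rfl
    rw [this]
    linarith
  · exact hz.eq s u (by rw [hu]; nlinarith) (by rw [hu]; linarith)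
  · refine HF.Bdd.mono' (hz.bd s) ?_
    rintro x (hx | hx | hx)
    · rw [hx]
      constructor <;> nlinarith
    · rw [hx]
      constructor <;> nlinarith
    · rw [Set.mem_singleton_iff.1 hx]
      constructor <;> nlinarith

/-- **the filled classes**, one species -/
theorem hcl_ZFl {ν : Bool → Type} [∀ s, Fintype (ν s)] [∀ s, LinearOrder (ν s)]
    {ζ ρ : ∀ s, ν s → ℂ} {Ei : Bool → ℂ → ℂ} (hG : GoodP6 P) (hH : HI6 P)
    (hm : ∀ s k, Measurable (Z s k)) (hpol : PolZ Z κ Q a π h)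
    (hA : ∀ s, DecOn (κ + 2 * (Q : ℝ) * sc (s, Ob.A)) (Set.Icc (51 / 100 * l) (39 / 64 * l) ∪
      Set.Icc (41 / 64 * l) l) (Z s none))
    (i : Bool × Bool)
    (hz : ZerZ (ZFl Z π i) P (39 / 64 * l) κ' ((Q : ℝ) - i.1.toNat + i.2.toNat) ζ ρ Ei) (s : Bool) :
    HCl (ZFl Z π i) P (1 / 9 * l) (51 / 100 * l) (39 / 64 * l) (b2G P) κ κ'
      ((Q : ℝ) - i.1.toNat + i.2.toNat) s (ζ s) (Ei s) where
  inj := hz.inj s
  st := hz.st s
  gan := by
    intro u hu
    refine DifferentiableAt.differentiableWithinAt ?_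
    have hl := Bd.l_pos
    rw [ZFl_XP]
    exact (diff_none hpol s hu.1 hu.2).mul (diff_XP hpol.re i s (by linarith [hu.1])
      (by linarith [hu.2]))
  ean := by
    intro u hu
    exact (hz.an s u hu.1 (hu.2.trans_le (b2G_64 P))).differentiableWithinAt
  ge := fun u hu _ => hz.eq s u hu.1.le hu.2
  gl := hz.eqh s
  eb := by
    have hl := Bd.l_pos
    have k2 := hH.j1
    have k3 := hH.j2
    refine HF.Bdd.mono' (hz.bd s) (Icc_subset_Icc ?_ ?_) <;> nlinarith
  gm := ms_ZFl hm i s none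
  gb := by
    have hl := Bd.l_pos
    rw [ZFl_XP]
    refine DecOn.mulB ((hA s).mono ?_) (bdd_XP hpol.re i isCompact_singleton fun s0 d hd => ?_) ?_
    · intro x hx
      rw [Set.mem_singleton_iff.1 hx]
      exact Or.inr ⟨by linarith, le_rfl⟩
    · rw [Set.mem_singleton_iff.1 hd]
      exact ok_AA (by linarith) (by linarith) s0 s
    · have : sc (s, ob4 none) = sc (s, Ob.A) := rfl
      rw [this]
      linarith

end fill

/-- **the word identities of the classes with poles** -/
theorem wordThP : WordThP := by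
  intro Z P κ κ' Q n n' a π h ν _ _ ζ ρ Ei hG hH he hκ hκ' hm hA hLd hT hS hpol hzer hn p p' k k'
    hc hc'
  have hl := Bd.l_pos
  have M := geoPP hG hH he
  have hyG := yP_gt hG he
  have hxG := xG_hi hG
  have h2 : ∀ᵐ t : Fin p ⊕ Fin p' → ℝ ∂(Measure.pi fun _ => volume), ∀ i : Bool × Bool,
      OkI a i → i.1.toNat ≤ n → i.2.toNat ≤ n' →
        IntW (ZFl Z π i) P (ζ i) (n - i.1.toNat) (n' - i.2.toNat) k k' t := by
    rw [ae_all_iff]
    intro i
    by_cases hi : OkI a i ∧ i.1.toNat ≤ n ∧ i.2.toNat ≤ n'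
    · obtain ⟨i0, i1, i2⟩ := hi
      have hz := hzer i i0
      have hd := decQ_ZFl hG hH he hκ hκ' hpol hA hLd hT hS i hz
      have e : (Q : ℝ) - i.1.toNat + i.2.toNat = ((n - i.1.toNat : ℕ) : ℝ) - (n' - i.2.toNat : ℕ) := by
        have e3 : (n : ℝ) = n' + Q := by exact_mod_cast hn
        rw [Nat.cast_sub i1, Nat.cast_sub i2, e3]
        ring
      rw [e] at hd
      have := intW_ae (Z := ZFl Z π i) (P := P) (ζ := ζ i) (n := n - i.1.toNat)
        (n' := n' - i.2.toNat) (fun A A' ι _ K => int_fIZEl hG (ms_ZFl hm i) ⟨hz.st, hz.off⟩ hd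
          A A' K) k k'
      filter_upwards [this] with t ht _ _ _
      exact ht
    · refine Filter.Eventually.of_forall fun t i0 i1 i2 => absurd ⟨i0, i1, i2⟩ hi
  have h3 : ∀ᵐ t : Fin p ⊕ Fin p' → ℝ ∂(Measure.pi fun _ => volume), ∀ (i : Bool × Bool) (s : Bool)
      (x : Fin p ⊕ Fin p') (j : ν i s), bW P k k' t x ≠ ζ i s j := by
    rw [ae_all_iff]
    intro i
    rw [ae_all_iff]
    intro s
    exact ae_bW_ne (ζ i s)
  filter_upwards [ae_inj, h2, h3] with t ht hI hz
  have hb2 : b2G P ≤ (3 - P.jL) * l := (b2G_hi hG).le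
  have SX : ∀ i, OkI a i → Sp6 (lnH P) (1 / 9 * l) (51 / 100 * l) (xG P) (yP P) (39 / 64 * l)
      (b2G P) l κ ((κ' + 6) / 2) ((Q : ℝ) - i.1.toNat + i.2.toNat - cW k k') true (bY P k k' t)
      (HF.dH (zX P k k' t) (ζ i true)) (fW (ZFl Z π i) P k k' t true)
      (HF.FH (ZFl Z π i true none) (zX P k k' t) (zY P k k' t) (KW P k k' t true))
      (HF.EH (Ei i true) (zX P k k' t) (zY P k k' t) (KW P k k' t true)) := fun i hi =>
    sp6_true hG M (by positivity) hxG hyG (by linarith) hb2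
      (hcl_ZFl hG hH hm hpol hA i (hzer i hi) true) (by linarith) ht (hz i true)
  have SY : ∀ i, OkI a i → Sp6 (lnH P) (1 / 9 * l) (51 / 100 * l) (xG P) (yP P) (39 / 64 * l)
      (b2G P) l κ ((κ' + 6) / 2) ((Q : ℝ) - i.1.toNat + i.2.toNat - cW k k') false (bX P k k' t)
      (HF.dH (zY P k k' t) (ζ i false)) (fW (ZFl Z π i) P k k' t false)
      (HF.FH (ZFl Z π i false none) (zY P k k' t) (zX P k k' t) (KW P k k' t false))
      (HF.EH (Ei i false) (zY P k k' t) (zX P k k' t) (KW P k k' t false)) := fun i hi =>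
    sp6_false hG M (by positivity) hxG hyG (by linarith) hb2
      (hcl_ZFl hG hH hm hpol hA i (hzer i hi) false) (by linarith) ht (hz i false)
  have hex := exactP_of (n := n) (n' := n') (d := fun i => HF.dH (zX P k k' t) (ζ i true))
    (d' := fun i => HF.dH (zY P k k' t) (ζ i false)) (κU := fun _ => κ)
    (κU' := fun _ => (κ' + 6) / 2) hG hH he hκ hpol hA ht hc hc' hn SX SY (fun _ => hκ)
    (fun _ => by linarith)
  have hs : ∀ {p : ℕ} (k : Fin p → O3), (strS k).card ≤ ∑ i, c3 (k i) := by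
    intro p k
    calc (strS k).card = ∑ i ∈ strS k, 1 := by simp
      _ ≤ ∑ i ∈ strS k, c3 (k i) := Finset.sum_le_sum fun i _ => c3_pos (k i)
      _ ≤ _ := Finset.sum_le_sum_of_subset (Finset.subset_univ _)
  have he5 : (51 / 100 : ℝ) * l ≤ (1 - P.e) * l := by
    have := hG.e45
    nlinarith
  have he6 : (1 - P.e) * l < 39 / 64 * l := by linarith
  refine wordIdP_of hc hc' (by have := hs k; omega) (by have := hs k'; omega) hI
    (xl := lnH P) (b := bY P k k' t) (b' := bX P k k' t)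
    (d := fun i => HF.dH (zX P k k' t) (ζ i true)) (d' := fun i => HF.dH (zY P k k' t) (ζ i false))
    (F := fun i => HF.FH (ZFl Z π i true none) (zX P k k' t) (zY P k k' t) (KW P k k' t true))
    (E := fun i => HF.EH (Ei i true) (zX P k k' t) (zY P k k' t) (KW P k k' t true))
    (F' := fun i => HF.FH (ZFl Z π i false none) (zY P k k' t) (zX P k k' t) (KW P k k' t false))
    (E' := fun i => HF.EH (Ei i false) (zY P k k' t) (zX P k k' t) (KW P k k' t false))
    (fun i hi => ?_) hex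
  have hzi := hzer i hi
  exact wordW_of (ZFl Z π i) P k k' t (ζ i) (ρ i) (fun _ => rfl) (fun _ => rfl) (fun _ => rfl)
    (fun _ => rfl) (SX i hi) (SY i hi) (rb_true _ P k k' t ht) (rb_false _ P k k' t ht)
    (rd_true _ P k k' t (ζ i) (ρ i) hG ht
      (fun u hu => hzi.eq true u (by rw [hu]; exact he5) (by rw [hu]; exact he6))
      (hzi.rho true) (hzi.st true) (hz i true))
    (rd_false _ P k k' t (ζ i) (ρ i) hG ht
      (fun u hu => hzi.eq false u (by rw [hu]; exact he5) (by rw [hu]; exact he6))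
      (hzi.rho false) (hzi.st false) (hz i false))

end PHK

end
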