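import Pool.Agent.PHK.LgAll
import Pool.Agent.PHK.LgK06
import Pool.Agent.PHK.LgRes
import Pool.Agent.PHK.WordPc
import Pool.Agent.PHK.Oth0R

/-!
# (P): the class formulas at rows `0`

* **`clsA06`**: all pairs of letters and D1, D1', from `WordThZ` and `FFth`.
-/

set_option autoImplicit false
set_option linter.unusedSectionVars false

noncomputable section

open Complex MeasureTheory Finset
open scoped ENNReal
open PLX (Fil Ends)

namespace PBO.PLX

open NUO NUP1 NUCR NURow NUP1.Leg NUGC NUGC.PLX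
open PHK
open NUGC.PLX (beC)

attribute [local instance] NUSea.seaP PLX.ends1

variable [Fil]

/-- **The class formulas at rows `0`.** -/
theorem clsA06 (hWZ : WordThZ) (hFF : _root_.Pool.Agent.PLX.FFth) : ClsA06 := by
  intro ep h0 h1
  obtain ⟨m1, hm1⟩ := lgB06 h0 h1
  obtain ⟨m2, hm2⟩ := clsD06 hFF h0 h1
  refine ⟨max m1 m2, fun m hm => ⟨fun t t' => ?_, fun o => Filter.Eventually.of_forall fun y =>
    hm2 m ((le_max_right _ _).trans hm) o y⟩⟩
  obtain ⟨hB, ob, E0, hBs⟩ := hm1 m ((le_max_left _ _).trans hm)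
  have h := cls_ae hWZ wordThP hB hBs h0 h1 t t' (cw := cw06 ep m t t')
    (fun y u => cw6_nonneg _ _ _ _ _ _) fun y u hu hu' => cV6_le (K06 ep m) hu hu' _ _
  filter_upwards [h] with y hy
  have e : zPt6 (K06 ep m) m t t' y = fun n => NURow.ZobjQ
      (Zc6 (K06 ep m).Z t t' (vl (htL t) y.1) (vl (htL t') y.2) true)
      (Zc6 (K06 ep m).Z t t' (vl (htL t) y.1) (vl (htL t') y.2) false) (51 / 100 * l)
      (n + aXt (Fil.xe m) t t') (n + aYt (Fil.xe m) t t')
      (fun _ _ k _ i => _root_.Pool.Agent.PLX.ln6 par6 (k i))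
      (fun _ _ _ k' i => _root_.Pool.Agent.PLX.ln6 par6 (k' i)) :=
    funext fun n => cF_Zc6 _ _ _ _ _ _ _ _ _ _ _ _ _ _
  rw [e]
  exact hy

end PBO.PLX

end
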