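import Pool.Agent.PHK.F0Br6
import Pool.Agent.PHK.InsTwo6

/-!
# (P): the data of the transfer from the class formula on the lines of (P)

* `ClZ6.box`; **`insQ6_of`**: `InsQ6 L P x0 ..` for the straight lines `L`, `LnB L P x0`, from the class
  formula `ZobjQ (Z true) (Z false) (51/100 l) n n' (lX6 P) (lY6 P) = FF6 Z P n n' η η' 1`;
* **`insQ6_fl`**: the landed lines `x0 = 3/5 l`, `L = fl P0`, `ParP P0`.
-/

set_option autoImplicit false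
set_option linter.unusedSectionVars false

noncomputable section

open Complex
open PLX (Fil)

namespace PHK

open NUO NUP1 NUP1S NURow
open PBF.PLX (Crs MCr)
open PBI (Stt F0 fl)

variable [Fil] {Z : Stt} {P : Par6} {x0 κ κ' δ : ℝ} {Q : ℤ} {n n' : ℕ} {η η' : Crs} {L : PBI.Lns}

theorem ClZ6.box (h : ClZ6 Z P x0 κ κ' δ Q) : BoxZ Z P κ Q := ⟨h.m, h.dec, h.dif⟩

/-- **the data of the transfer** -/
theorem insQ6_of (hG : GoodP6 P) (he : 3 / 8 ≤ P.e) (hj : P.j2 ≤ 7 / 8) (hJ : P.jL ≤ 9 / 4)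
    (hS : StP δ P) (hc : MCr η η') (hη : ∀ r ≤ 2 * (n + n'), ∀ O, CrvR6 δ (η r O) (η' r O))
    (hκ : 0 < κ) (hn : (n : ℤ) - n' = Q) (hL : LnB L P x0)
    (hcls : ∀ Z : Stt, ClZ6 Z P x0 κ κ' δ Q →
      ZobjQ (Z true) (Z false) (51 / 100 * l) n n' (lX6 P) (lY6 P) =
        FF6 Z P n n' η η' (fun _ _ _ _ _ => 1)) :
    InsQ6 L P x0 κ κ' δ Q n n' η η' where
  hG := hG
  hj := hj
  hL := hJ
  hS := hS
  hc := hc
  hη := hη
  hw := hL.word he n n'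
  cls Z hZ := (F0_br hG he hJ hL hκ hZ.box hn).trans (hcls Z hZ)
  ok Z hZ := F0Ok_box hG he hL hκ hZ.box hn

/-- **the data of the transfer from the landed lines of the first Ward identity** -/
theorem insQ6_fl {P0 : NUO.Par} (hP0 : NURow.ParP P0) (hG : GoodP6 P) (he : 3 / 8 ≤ P.e)
    (hj : P.j2 ≤ 7 / 8) (hJ : P.jL ≤ 9 / 4)
    (hS : StP δ P) (hc : MCr η η') (hη : ∀ r ≤ 2 * (n + n'), ∀ O, CrvR6 δ (η r O) (η' r O))
    (hκ : 0 < κ) (hn : (n : ℤ) - n' = Q)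
    (hcls : ∀ Z : Stt, ClZ6 Z P (3 / 5 * l) κ κ' δ Q →
      ZobjQ (Z true) (Z false) (51 / 100 * l) n n' (lX6 P) (lY6 P) =
        FF6 Z P n n' η η' (fun _ _ _ _ _ => 1)) :
    InsQ6 (fl P0) P (3 / 5 * l) κ κ' δ Q n n' η η' :=
  insQ6_of hG he hj hJ hS hc hη hκ hn (lnB_fl hP0 hJ) hcls

end PHK

end
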