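import Pool.Agent.PHK.ZL6
import Pool.Agent.PHK.GOm
import Pool.Agent.PLX.PB.UProps

/-!
# (P): the family of the dislocated function

Rows `x, 0, …, 0` (`m - s` rows of X, every row `q`-fold in Y), legs at `z`, parameters of `m` rows; the
strings carry the factor `om` at `T1L m`.

* `tauF`, `T1L m`: the end of the string cutoff, one for all families; `tauL6_eq`;
* `g0L m k x`: the string cutoff without the rows; `ph_g0L`, `meas_g0L`;
* **`famS6 s`**, `famL6 = famS6 0`, `famT6 = famS6 1`; `famS6_xe`.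
-/

set_option autoImplicit false
set_option linter.unusedSectionVars false

noncomputable section

open Complex MeasureTheory Finset
open scoped ENNReal
open PLX (Fil Ends)

namespace PBU.PLX

open NUO NUP1 NUP1S NUP1S.Ab NUP1S.AbC NUGC NUGC.PLX PBF PBF.PLX PBP PBP.PLX
open PBL.PLX (mu1)
open PBX (ph)
open PBT.PLX (rws_mu1)
open Pool.Agent.PLX (rwq yq)
open PHK

/-! ### the end of the string cutoff -/

/-- the shift of the end of the string cutoff -/
def tauF [Fil] : ℝ := tau0 2 (((Fil.q : ℕ) : ℝ) + (2 : ℕ))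

/-- without additional ends, it is the shift of the one body data -/
theorem tauL6_eq [Fil] [Ends] (ho : Ends.o = 0) : tauL6 = tauF := by
  unfold tauL6 tauF Fil.qo
  rw [ho, Nat.add_zero]

variable [Fil]

/-- **the end of the string cutoff**, parameters of `m` rows -/
def T1L (m : ℕ) : ℝ := Tb (Real.log m) + tauF

theorem tauF_nonneg : 0 ≤ tauF := tau0_nonneg (by positivity)

/-! ### the string cutoff -/

/-- the string cutoff without the rows `x, 0, …, 0` (`k + 1` rows), parameters of `m` rows -/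
def g0L (m k : ℕ) (x : ℂ) : Bool → ℂ → ℂ := fun a => gO (T1L m) [] (rwq (mu1 k x) a)

theorem ph_g0L (m k : ℕ) (x : ℂ) (a : Bool) : ph (4 / 3) (rwq (mu1 k x) a) (g0L m k x a) =
    phO (T1L m) (List.ofFn (rwq (mu1 k x) a) ++ []) := ph_gO_fun _ _ _

/-- the constants of the one body functions of `m` rows -/
def ccS6 (m : ℕ) (a : Bool) : ℂ := Leg.cc (cond a m (Fil.q * m))

theorem norm_Lcc (m : ℕ) : ‖Leg.cc m‖ = 2 * Real.cos NUP1.l := by
  have hl := NUP1.l_pos
  have h0 : Real.sin NUP1.l ≠ 0 := (Real.sin_pos_of_pos_of_lt_pi hl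
    (by unfold NUP1.l; linarith [Real.pi_pos])).ne'
  have h1 : 0 < Real.cos NUP1.l := Real.cos_pos_of_mem_Ioo ⟨by linarith [Real.pi_pos], by
    unfold NUP1.l; linarith [Real.pi_pos]⟩
  unfold Leg.cc
  rw [norm_mul, norm_pow, norm_neg, norm_one, one_pow, one_mul,
    show Complex.sin (2 * (NUP1.l : ℂ)) / Complex.sin (NUP1.l : ℂ) =
        ((2 * Real.cos NUP1.l : ℝ) : ℂ) by
      rw [Complex.sin_two_mul]
      have : Complex.sin (NUP1.l : ℂ) ≠ 0 := by
        rw [← Complex.ofReal_sin]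
        exact_mod_cast h0
      push_cast
      field_simp, Complex.norm_real, Real.norm_eq_abs, abs_of_pos (by linarith)]

theorem norm_ccS6 (m : ℕ) (a : Bool) : ‖ccS6 m a‖ = 2 * Real.cos NUP1.l := norm_Lcc _

theorem meas_g0L (m k : ℕ) {x : ℂ} (hx : |x.re| ≤ NUP1.l / 2) (a : Bool) :
    Measurable (g0L m k x a) :=
  meas_gO (_root_.Pool.Agent.PLX.Rws_rwq (rws_mu1 k hx) a) (by simp)

/-! ### the families -/

/-- **the family of the dislocated function with `m - s` rows at the parameters of `m` rows**: index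
`(x, z)`; cutoff of the quanta over the rows and `± i`, string cutoff over the rows with the factor `om` -/
def famS6 (s : ℕ) : Fam (ℂ × ℂ) where
  Z ep m i := ZL6 (ccS6 (m - 1 - s + 1)) (g0L m (m - 1 - s) i.1) (m - 1 - s) (4 / 3 * (1 - ep)) i.1 i.2
  Pf m i := Pool.Agent.PB.Pf i.2 (mu1 (m - 1 - s) i.1) (yq (mu1 (m - 1 - s) i.1))
  top m := 2 * (m - s)
  ok m i := |i.1.re| ≤ NUP1.l / 10 ∧ |i.1.im| ≤ 2 ∧ -(9 / 10 * NUP1.l) ≤ i.2.re ∧
    i.2.re < 31 / 10 * NUP1.l ∧ |i.2.im| ≤ 3 / 20 * Real.log m + 2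
  bd _ i := Real.exp (2 * |i.2.im|)

/-- **the family of the dislocated function** -/
def famL6 : Fam (ℂ × ℂ) := famS6 0

/-- **the left end of (TR)**: `m - 1` rows, parameters of `m` rows -/
def famT6 : Fam (ℂ × ℂ) := famS6 1

/-- the number of the additional quanta -/
theorem famS6_xe [Ends] (ho : Ends.o = 0) (m : ℕ) :
    dN ((famS6 Ends.e).top m) = Fil.xe m := by
  unfold Fil.xe
  rw [ho, Nat.add_zero]
  exact dN_two _

end PBU.PLX

end
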