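import Pool.Agent.PHK.Conf6
import Pool.Agent.PLX.PB.QMomC

/-!
# Second moment of the quadratic statistic of a small field (six kinds)

* `meas_evN_par6`: joint measurability on `CfN6 N × T`; `pm_vy`, `BB`, `Mom4`, `quad_M2`: landed;
* **`exists_qy6`**: `Qy 0 η ρ X`, `X` a field with `|X| ≤ Θ e^{-κ |Re z|}`: second moment `C Θ / κ`.
-/

set_option autoImplicit false
set_option linter.unusedSectionVars false

noncomputable section

open MeasureTheory Set Filter Topology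
open scoped ENNReal

open PLX (Fil)

namespace PHK

open PBFunc PBFunc.PLX PBF PBV PBV.PLX NUMF PBQM PBQM.PLX
open PBF.PLX (Ins MIn MCr PM Vy Qy zy zqy zy_im meas_zqy spQ)

section par

variable [Fil]

variable {T : Type*} [MeasurableSpace T]

/-- **joint measurability of the evaluation** -/
theorem meas_evN_par6 {N : ℕ} {Ψ : T → ℕ → Ins} (h : ∀ n ≤ N, PM fun t => Ψ t n) :
    Measurable fun p : CfN6 N × T => evN6 (Ψ p.2) p.1 := by
  refine meas_sig_prod fun n => meas_sig_prod fun i => ?_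
  have h1 := h n (by omega) i.1 i.2.1 i.2.2
  have h2 : Measurable fun p : Pc6 i × T => (p.2, (p.1.1, p.1.2)) :=
    measurable_snd.prodMk (measurable_fst.fst.prodMk measurable_fst.snd)
  exact h1.comp h2

end par

/-! ### the instance -/

section inst

variable [Fil]

variable {N : ℕ} {w : CfN6 N → ℂ} {η η' : ℕ → PBF.PLX.Crs} {ρ : ℂ → ℂ} {K : ℝ}

/-- the linear statistic at the level of configurations -/
def VN6 (N : ℕ) (η : ℕ → PBF.PLX.Crs) (ρ : ℂ → ℂ) (g : Bool → ℂ → ℂ) : CfN6 N → ℂ :=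
  evN6 fun n => Vy 0 (η n) ρ g

/-- the quadratic statistic at the level of configurations -/
def QN6 (N : ℕ) (η : ℕ → PBF.PLX.Crs) (ρ : ℂ → ℂ) (X : Bool → ℂ → ℂ) : CfN6 N → ℂ :=
  evN6 fun n => Qy 0 (η n) ρ X

theorem vN_meas6 (hm : ∀ n ≤ N, MCr (η n) (η' n)) (hρ : Measurable fun u : ℝ => ρ u)
    {T : Type*} [MeasurableSpace T] {G : T → Bool → ℂ → ℂ}
    (hG : ∀ s, Measurable fun p : T × ℂ => G p.1 s p.2) :
    Measurable fun p : CfN6 N × T => VN6 N η ρ (G p.2) p.1 :=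
  meas_evN_par6 (Ψ := fun t n => Vy 0 (η n) ρ (G t)) fun n hn => pm_vy (hm n hn) 0 hρ hG

theorem vN_meas16 (hm : ∀ n ≤ N, MCr (η n) (η' n)) (hρ : Measurable fun u : ℝ => ρ u)
    {g : Bool → ℂ → ℂ} (hg : ∀ s, Measurable (g s)) : Measurable (VN6 N η ρ g) := by
  have h : ∀ n ≤ N, MIn (Vy 0 (η n) ρ g) := fun n hn =>
    PM.at (S := Unit) (Ψ := fun _ => Vy 0 (η n) ρ g) (pm_vy (T := Unit) (G := fun _ => g) (hm n hn)
      0 hρ fun s => (hg s).comp measurable_snd) ()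
  exact evN_meas6 h

/-- **second moment of the quadratic statistic of a small field** -/
theorem exists_qy6 {Y α θ : ℝ} (hY : Y < l) : ∃ C : ℝ, 0 ≤ C ∧
    ∀ {b y₁ y₂ Y₁ Y₂ : ℝ}, Geo y₁ y₂ Y₁ Y₂ θ α b Y → y₁ < 0 → 0 < y₂ → y₂ - y₁ < l →
    ∀ {X : Bool → ℂ → ℂ} {Θ κ : ℝ}, (∀ s, XiA (X s) b Θ κ 0 0) → 0 < κ → κ ≤ 1 →
    ∀ {N : ℕ} {w : CfN6 N → ℂ} {η η' : ℕ → PBF.PLX.Crs} {ρ : ℂ → ℂ} {K : ℝ},
      AEStronglyMeasurable w (mN6 N) → 0 ≤ K → (∀ n ≤ N, MCr (η n) (η' n)) →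
      (∀ n ≤ N, ∀ r O t, y₁ < η n r O t ∧ η n r O t < y₂) →
      Integrable (fun u : ℝ => ρ u) → Measurable (fun u : ℝ => ρ u) →
      Mom4 (mN6 N) w (VN6 N η ρ) y₁ y₂ K → M2 (mN6 N) w K (QN6 N η ρ X) (C * Θ / κ) := by
  obtain ⟨C, hC, hA⟩ := AQ_bound hY
  have hr := r_pos
  refine ⟨8 / r + 16 * C * |cE α θ|, by positivity, ?_⟩
  intro b y₁ y₂ Y₁ Y₂ G h1 h2 hy X Θ κ H hκ0 hκ N w η η' ρ K hw hK hm hst hρi hρm h4
  have hΘ := (H true).K0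
  -- a smaller strip
  obtain ⟨b', hb1, hb2⟩ := exists_between (max_lt G.b1 G.b2)
  have hb1' := max_lt_iff.1 hb1
  have hb0 : 0 < b' := (abs_nonneg _).trans_lt hb1'.1
  have G' : Geo y₁ y₂ Y₁ Y₂ θ α b' Y :=
    ⟨G.θ0, G.l1, G.l2, G.α0, G.αY, hb1'.1, hb1'.2, hb2.le.trans G.bl, G.Yl, G.d1, G.d2⟩
  have H' := fun s => ctX_XiA H hb2 hb0 s
  have hX' := fun s => ctX_meas H s
  set X' := ctX b X with hX'd
  have hc0 : 0 ≤ cE α θ := by
    have := BQ_bound G ((true, (true, 0)) : QIx) true (z := 0)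
      ⟨by simpa using h1, by simpa using h2⟩
    exact (norm_nonneg _).trans this
  have hin : ∀ z ∈ PBE.Sp y₁ y₂, |z.im| ≤ b' := by
    intro z hz
    exact (G'.of_mem hz).1.le
  have bX : BB y₁ y₂ Θ (fS X') := by
    intro s
    refine ⟨fun z hz => ?_, fun z hz => ?_⟩
    · exact (((H' s).an z (hin z hz)).const_mul _).differentiableWithinAt
    · unfold fS
      rw [norm_mul, norm_sb, one_mul]
      refine (XiA.bd (H' s) (hin z hz)).trans ?_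
      have : Real.exp (-(κ * |z.re|)) ≤ 1 := Real.exp_le_one_iff.2 (by
        have := mul_nonneg hκ0.le (abs_nonneg z.re)
        linarith)
      nlinarith
  have bT : BB y₁ y₂ (2 / r) (fS fun _ => tgh) := by
    intro s
    refine ⟨fun z hz => ?_, fun z hz => ?_⟩
    · exact ((tgh_diff ((hin z hz).trans G'.bl)).const_mul _).differentiableWithinAt
    · unfold fS
      rw [norm_mul, norm_sb, one_mul]
      exact tgh_bound ((hin z hz).trans G'.bl)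
  have bA : ∀ q, BB y₁ y₂ (alQ C Θ κ q) (AQ X' Y₁ Y₂ q) := fun q s =>
    ⟨AQ_diff H' G' q s, fun z hz => hA H' hκ G' q s z hz⟩
  have bB : ∀ q : QIx, BB y₁ y₂ (cE α θ) (BQ α Y₁ Y₂ q) := fun q s =>
    ⟨BQ_diff G' q s, fun z hz => BQ_bound G' q s hz⟩
  have hal : ∀ q, 0 ≤ alQ C Θ κ q := fun q => by unfold alQ; positivity
  obtain ⟨hi, hiv⟩ := alQ_int C Θ hκ0 (cE α θ)
  have jA := vN_meas6 hm hρm (G := AQ X' Y₁ Y₂) fun s => AQ_measurable hX' Y₁ Y₂ s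
  have jB := vN_meas6 hm hρm (G := BQ α Y₁ Y₂) fun s => BQ_measurable α Y₁ Y₂ s
  have mf := vN_meas16 hm hρm (g := fS X') fun s => (hX' s).const_mul _
  have mg := vN_meas16 hm hρm (g := fS fun _ => tgh) fun s => tgh_measurable.const_mul _
  have hQ : ∀ᵐ ω ∂(mN6 N), w ω ≠ 0 → QN6 N η ρ X ω = -2 * (VN6 N η ρ (fS X') ω *
      VN6 N η ρ (fS fun _ => tgh) ω) +
      (1 / 2) * ∫ q, VN6 N η ρ (AQ X' Y₁ Y₂ q) ω * VN6 N η ρ (BQ α Y₁ Y₂ q) ω ∂qm := by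
    refine Eventually.of_forall fun ω _ => ?_
    have hn : ((ω.1 : ℕ)) ≤ N := by omega
    have hz : ∀ k, zqy 0 (η ω.1) ω.2.1.1 ω.2.2.1 ω.2.2.2 k ∈ PBE.Sp y₁ y₂ := by
      intro k
      unfold zqy
      have := hst _ hn ω.2.1.1 ω.2.2.1 (Sum.elim ω.2.2.2.1 ω.2.2.2.2 k)
      exact cv_mem h1 h2 this
    have key := (nuQ_aC hX' H' hκ0 hκ G' h1 h2 hy (ρ := PB.rS2 ρ) (fun s => hρi.const_mul _)
      (spQ ω.2.1.2.1 ω.2.1.2.2) hz).2
    have he : ∀ (s : Bool) (u : ℝ), PB.rS2 ρ s u ≠ 0 → PB.eR u ∈ (fun _ : Bool => PBE.Sp y₁ y₂) s :=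
      fun s u _ => ⟨by simpa [PB.eR] using h1, by simpa [PB.eR] using h2⟩
    have e1 : PB.NX.nuQ PB.eR (spQ ω.2.1.2.1 ω.2.1.2.2) (PB.rS2 ρ) (PB.aC X)
        (zqy 0 (η ω.1) ω.2.1.1 ω.2.2.1 ω.2.2.2) =
        PB.NX.nuQ PB.eR (spQ ω.2.1.2.1 ω.2.1.2.2) (PB.rS2 ρ) (PB.aC X')
          (zqy 0 (η ω.1) ω.2.1.1 ω.2.2.1 ω.2.2.2) := by
      rw [← PB.NX.nuQ_cD he (PB.aC X) hz, ← PB.NX.nuQ_cD he (PB.aC X') hz]
      congr 1
      funext s c x y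
      unfold PB.NX.cD
      by_cases h : x ∈ PBE.Sp y₁ y₂ ∧ y ∈ PBE.Sp y₁ y₂
      · rw [if_pos h, if_pos h]
        exact (aC_ctX s c ((hin x h.1).trans_lt hb2) ((hin y h.2).trans_lt hb2)).symm
      · rw [if_neg h, if_neg h]
    show PB.NX.nuQ PB.eR (spQ ω.2.1.2.1 ω.2.1.2.2) (PB.rS2 ρ) (PB.aC X)
        (zqy 0 (η ω.1) ω.2.1.1 ω.2.2.1 ω.2.2.2) = _
    rw [e1, key]
    rfl
  have main := quad_M2 hw hK h4 hΘ (by positivity : 0 ≤ 2 / r) bX bT bA bB hal (fun _ => hc0) hi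
    mf.aemeasurable mg.aemeasurable jA jB hQ
  refine main.mono ?_ ?_ le_rfl hK
  · have : 0 ≤ ∫ q, alQ C Θ κ q * cE α θ ∂qm :=
      integral_nonneg fun q => mul_nonneg (hal q) hc0
    positivity
  · rw [hiv, norm_neg, abs_of_nonneg hc0]
    have n2 : ‖(2 : ℂ)‖ = 2 := by simp
    rw [n2, le_div_iff₀ hκ0]
    have e : (2 * 2 * Θ * (2 / r) + 16 * C * Θ * cE α θ / κ) * κ =
        8 / r * Θ * κ + 16 * C * Θ * cE α θ := by
      field_simp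
      ring
    rw [e]
    have h5 : 8 / r * Θ * κ ≤ 8 / r * Θ * 1 := by gcongr
    linarith

end inst

end PHK
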