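import Pool.Agent.PLX.PB.MBd
import Pool.Agent.PHK.Conf6

/-!
# The particle-hole form (P): the interface of the Ward identities

(P) twin of `PLX/PB/MBd` (`pinI`, `cnI`, `M2.rescale`, `M2.of_pos`, `L1.of_pos` are the landed ones).

`MBd6`: moment bounds on the configuration space.
-/

set_option autoImplicit false
set_option linter.unusedSectionVars false

noncomputable section

open Complex MeasureTheory Finset
open scoped ENNReal
open PLX (Fil)

namespace PBU.PLX

open NUO NUP1 NUP1S NUP1S.Ab NUP1S.AbC NUGC NUGC.PLX PBF PBF.PLX PBFunc PBFunc.PLX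
open PHK

variable [Fil]

/-- **moment bounds on the configuration space**: one statistic and the number of objects in `L²`
(constant `K`), pinned objects in `L¹` (constant `dp`); the test functions may depend on the
objects -/
structure MBd6 (N : ℕ) (Z : ℕ → Bool → Option O3 → ℂ → ℂ) (P : ℕ → Par6) (η η' : ℕ → Crs)
    (c : ℕ → ℂ) (ρ : ℂ → ℂ) (y₁ y₂ K q dp : ℝ) : Prop where
  one : M2 (mN6 N) (wN6 Z P N η η' c) K (evN6 fun _ => cnI) 1
  vy : ∀ (M : ℝ) (g : (r : ℕ) → (Fin r → Xo) → Bool → ℂ → ℂ), 0 ≤ M →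
    (∀ r O s, BC y₁ y₂ M (g r O s)) →
    (∀ n ≤ N, MIn fun r O a b x => Vy 0 (η n) ρ (g r O) r O a b x) →
    M2 (mN6 N) (wN6 Z P N η η' c) K
      (evN6 fun n r O a b x => ((r : ℂ) + 1) * Vy 0 (η n) ρ (g r O) r O a b x) M
  pin : L1 (mN6 N) (wN6 Z P N η η' c)
    (evN6 fun _ r O a b x => ((r : ℂ) + 1) * pinI q r O a b x) dp
  pinv : ∀ (M : ℝ) (g : (r : ℕ) → (Fin r → Xo) → Bool → ℂ → ℂ), 0 ≤ M →
    (∀ r O s, BC y₁ y₂ M (g r O s)) →
    (∀ n ≤ N, MIn fun r O a b x => Vy 0 (η n) ρ (g r O) r O a b x) →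
    L1 (mN6 N) (wN6 Z P N η η' c)
      (evN6 fun n r O a b x =>
        (((r : ℂ) + 1) * pinI q r O a b x) * Vy 0 (η n) ρ (g r O) r O a b x) (M * dp)

end PBU.PLX

end
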