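import Pool.Agent.PLX.PB.UProps
import Pool.Agent.PHK.HolU6
import Pool.Agent.PHK.Conf6

/-!
# The particle-hole form (P): the upper bounds U1, U3, U4 as propositions, and their easy consequences

(P) twin of `PLX/PB/UProps`; the families `Fam`, the statistics `nu1`, `nuE`, the weights `OW`, the densities `DN`
and the curve `cr`, `cr'` are the landed ones.

* `FS6`: the functional with moduli, summed over the number `n` of quanta X (`n + dN (top m)` quanta Y);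
* **`UB6 F ep e1 J p K ε`**: the master bound; **`UX6 F`**: what the provider proves;
* `UB6.stat`, `UB6.weight`, `UB6.mass` (U1), `UB6.pin` (U4).
-/

set_option autoImplicit false
set_option linter.unusedSectionVars false

noncomputable section

open Complex MeasureTheory Finset
open scoped ENNReal
open PLX (Fil)

namespace PBU.PLX

open NUO NUP1 NUP1S NUP1S.Ab NUP1S.AbC NUGC NUGC.PLX PBF PBF.PLX PBP PBP.PLX
open PHK

variable [Fil] [NUSea.Sea] {ι : Type}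

/-- **the functional with moduli**, summed over the number of quanta with weights `c n` -/
def FS6 (F : Fam ι) (ep e1 J : ℝ) (m : ℕ) (i : ι) (c : ℕ → ℝ≥0∞) (φ : InsE) : ℝ≥0∞ :=
  ∑ n ∈ range (F.top m + 1), c n * (‖F.Pf m i‖ₑ *
    FE6 (F.Z ep m i) par6 n (n + dN (F.top m)) (cr e1 J m) (cr' e1 J m) φ)

variable {F : Fam ι} {ep e1 J : ℝ} {m : ℕ} {i : ι}

theorem FS_mono6 {c c' : ℕ → ℝ≥0∞} (hc : ∀ n, c n ≤ c' n) {φ ψ : InsE}
    (h : ∀ r O a b x, φ r O a b x ≤ ψ r O a b x) :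
    FS6 F ep e1 J m i c φ ≤ FS6 F ep e1 J m i c' ψ :=
  Finset.sum_le_sum fun n _ => mul_le_mul' (hc n) (mul_le_mul' le_rfl (FE_mono6 h))

theorem FE_const_mul6 {Z : Bool → Option O3 → ℂ → ℂ} {P : Par6} {n n' : ℕ} {η η' : Crs}
    {c : ℝ≥0∞} (hc : c ≠ ∞) (φ : InsE) :
    FE6 Z P n n' η η' (fun r O a b x => c * φ r O a b x) = c * FE6 Z P n n' η η' φ := by
  unfold FE6
  rw [Finset.mul_sum]
  refine Finset.sum_congr rfl fun r _ => ?_
  have e : ∀ O : Fin r → Xo, trE6 Z P n n' η η' (fun r O a b x => c * φ r O a b x) r O =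
      c * trE6 Z P n n' η η' φ r O := by
    intro O
    unfold trE6
    split_ifs
    · have e1 : ∀ x, ‖gK (gF6 Z P O) (η r O) (η' r O) (nA6 n O true) (nA6 n' O false) x‖ₑ *
          (c * φ r O (nA6 n O true) (nA6 n' O false) x) =
          c * (‖gK (gF6 Z P O) (η r O) (η' r O) (nA6 n O true) (nA6 n' O false) x‖ₑ *
            φ r O (nA6 n O true) (nA6 n' O false) x) := fun x => by ring
      simp only [e1]
      rw [lintegral_const_mul' _ _ hc]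
      ring
    · rw [mul_zero]
  simp only [e]
  rw [lintegral_const_mul' _ _ hc]
  ring

theorem FS_const_mul6 {cn : ℕ → ℝ≥0∞} {c : ℝ≥0∞} (hc : c ≠ ∞) (φ : InsE) :
    FS6 F ep e1 J m i cn (fun r O a b x => c * φ r O a b x) = c * FS6 F ep e1 J m i cn φ := by
  unfold FS6
  rw [Finset.mul_sum]
  refine Finset.sum_congr rfl fun n _ => ?_
  rw [FE_const_mul6 hc]
  ring

variable (F ep e1 J)

/-- **the master bound**: at most `p` statistics, constant `K` per object, exponent `ε`. -/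
def UB6 (p : ℕ) (K ε : ℝ) : Prop :=
  ∀ C0 y₁ y₂ : ℝ, y₁ < 0 → 0 < y₂ → ∃ m0 : ℕ, ∀ m ≥ m0, ∀ i : ι, F.ok m i →
    ∀ ρ : ℝ → ℂ, DN C0 m ρ →
    ∀ B : ℝ, 0 ≤ B → ∀ w : (r : ℕ) → (Fin r → Xo) → ℝ, OW e1 K B m w →
    ∀ g g' : (r : ℕ) → (Fin r → Xo) → Fin p → ℂ → ℂ,
      (∀ r O j, BC y₁ y₂ 1 (g r O j) ∧ BC y₁ y₂ 1 (g' r O j)) →
      FS6 F ep e1 J m i (fun _ => 1) (fun r O _ _ x => ENNReal.ofReal (w r O) *
          ∏ j, nuE ρ (etaC e1 J m m) (g r O j) (g' r O j) x) ≤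
      ENNReal.ofReal (B * (m : ℝ) ^ ε * F.bd m i)

variable {ep e1 J}

/-- **what the provider proves** -/
def UX6 : Prop := ∀ (p : ℕ) (K ε : ℝ), 0 < ε → ∃ a0 : ℝ, 0 < a0 ∧ ∀ ep e1 J : ℝ, 0 < ep → 0 < e1 →
  0 ≤ J → Real.exp (-(2 * Real.pi * J)) + 3 * e1 + 3 * ep ≤ a0 → UB6 F ep e1 J p K ε

variable {F}

variable {p : ℕ} {K ε : ℝ}

/-- **products of statistics of given sizes**, `|ν_X(g_j)| + |ν_Y(g'_j)|` for `j ∈ S` -/
theorem UB6.stat (h : UB6 F ep e1 J p K ε) (C0 y₁ y₂ : ℝ) (h1 : y₁ < 0) (h2 : 0 < y₂) :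
    ∃ m0 : ℕ, ∀ m ≥ m0, ∀ i : ι, F.ok m i → ∀ ρ : ℝ → ℂ, DN C0 m ρ →
    ∀ B : ℝ, 0 ≤ B → ∀ w : (r : ℕ) → (Fin r → Xo) → ℝ, OW e1 K B m w →
    ∀ M : Fin p → ℝ, (∀ j, 0 < M j) → ∀ g g' : (r : ℕ) → (Fin r → Xo) → Fin p → ℂ → ℂ,
      (∀ r O j, BC y₁ y₂ (M j) (g r O j) ∧ BC y₁ y₂ (M j) (g' r O j)) →
    ∀ S : Finset (Fin p),
      FS6 F ep e1 J m i (fun _ => 1) (fun r O _ _ x => ENNReal.ofReal (w r O) *
          ∏ j ∈ S, (‖nu1 ρ (etaC e1 J m m) true (g r O j) x‖ₑ +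
            ‖nu1 ρ (etaC e1 J m m) false (g' r O j) x‖ₑ)) ≤
      ENNReal.ofReal (B * (∏ j ∈ S, M j) * (m : ℝ) ^ ε * F.bd m i) := by
  obtain ⟨m0, h0⟩ := h C0 y₁ y₂ h1 h2
  refine ⟨m0, fun m hm i hi ρ hρ B hB w hw M hM g g' hg S => ?_⟩
  have h3 := h0 m hm i hi ρ hρ B hB w hw (fun r O j z => ((M j : ℂ)⁻¹) * g r O j z)
    (fun r O j z => ((M j : ℂ)⁻¹) * g' r O j z)
    (fun r O j => ⟨(hg r O j).1.normed (hM j), (hg r O j).2.normed (hM j)⟩)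
  have hP : 0 ≤ ∏ j ∈ S, M j := Finset.prod_nonneg fun j _ => (hM j).le
  have e0 : ∀ (j : Fin p) (s : Bool) (f : ℂ → ℂ) {a b : ℕ} (x : (Fin a → ℝ) × (Fin b → ℝ)),
      ‖nu1 ρ (etaC e1 J m m) s f x‖ₑ = ENNReal.ofReal (M j) *
        ‖nu1 ρ (etaC e1 J m m) s (fun z => ((M j : ℂ)⁻¹) * f z) x‖ₑ := by
    intro j s f a b x
    rw [nu1_smul, enorm_mul, ← mul_assoc, ← ofReal_norm (((M j : ℝ) : ℂ)⁻¹), norm_inv, norm_real,
      Real.norm_of_nonneg (hM j).le, ← ENNReal.ofReal_mul (hM j).le,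
      mul_inv_cancel₀ (hM j).ne', ENNReal.ofReal_one, one_mul]
  have key : ∀ (r : ℕ) (O : Fin r → Xo) (a b : ℕ) (x : (Fin a → ℝ) × (Fin b → ℝ)),
      ENNReal.ofReal (w r O) * ∏ j ∈ S, (‖nu1 ρ (etaC e1 J m m) true (g r O j) x‖ₑ +
        ‖nu1 ρ (etaC e1 J m m) false (g' r O j) x‖ₑ) ≤
      ENNReal.ofReal (∏ j ∈ S, M j) * (ENNReal.ofReal (w r O) *
        ∏ j, nuE ρ (etaC e1 J m m) (fun z => ((M j : ℂ)⁻¹) * g r O j z)
          (fun z => ((M j : ℂ)⁻¹) * g' r O j z) x) := by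
    intro r O a b x
    have e2 : ∏ j ∈ S, (‖nu1 ρ (etaC e1 J m m) true (g r O j) x‖ₑ +
        ‖nu1 ρ (etaC e1 J m m) false (g' r O j) x‖ₑ) ≤ ENNReal.ofReal (∏ j ∈ S, M j) *
        ∏ j ∈ S, nuE ρ (etaC e1 J m m) (fun z => ((M j : ℂ)⁻¹) * g r O j z)
          (fun z => ((M j : ℂ)⁻¹) * g' r O j z) x := by
      rw [ENNReal.ofReal_prod_of_nonneg fun j _ => (hM j).le, ← Finset.prod_mul_distrib]
      refine Finset.prod_le_prod' fun j _ => ?_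
      rw [e0 j true (g r O j) x, e0 j false (g' r O j) x, ← mul_add]
      refine mul_le_mul' le_rfl ?_
      unfold nuE
      rw [add_assoc]
      exact le_add_self
    have e3 : ∏ j ∈ S, nuE ρ (etaC e1 J m m) (fun z => ((M j : ℂ)⁻¹) * g r O j z)
          (fun z => ((M j : ℂ)⁻¹) * g' r O j z) x ≤
        ∏ j, nuE ρ (etaC e1 J m m) (fun z => ((M j : ℂ)⁻¹) * g r O j z)
          (fun z => ((M j : ℂ)⁻¹) * g' r O j z) x :=
      Finset.prod_le_prod_of_subset_of_one_le' (Finset.subset_univ S)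
        fun j _ _ => one_le_nuE _ _ _ _ _
    calc _ ≤ ENNReal.ofReal (w r O) * (ENNReal.ofReal (∏ j ∈ S, M j) * _) :=
          mul_le_mul' le_rfl (e2.trans (mul_le_mul' le_rfl e3))
      _ = _ := by ring
  refine (FS_mono6 (fun _ => le_rfl) key).trans ?_
  rw [FS_const_mul6 ENNReal.ofReal_ne_top]
  refine (mul_le_mul' le_rfl h3).trans (le_of_eq ?_)
  rw [← ENNReal.ofReal_mul hP]
  congr 1
  ring

/-- **U1**, with a weight of the objects -/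
theorem UB6.weight (h : UB6 F ep e1 J p K ε) :
    ∃ m0 : ℕ, ∀ m ≥ m0, ∀ i : ι, F.ok m i →
      ∀ B : ℝ, 0 ≤ B → ∀ w : (r : ℕ) → (Fin r → Xo) → ℝ, OW e1 K B m w →
      FS6 F ep e1 J m i (fun _ => 1) (fun r O _ _ _ => ENNReal.ofReal (w r O)) ≤
      ENNReal.ofReal (B * (m : ℝ) ^ ε * F.bd m i) := by
  obtain ⟨m0, h0⟩ := h.stat 0 (-1) 1 (by norm_num) one_pos
  refine ⟨m0, fun m hm i hi B hB w hw => ?_⟩
  have h3 := h0 m hm i hi _ (DN.std m) B hB w hw (fun _ => 1) (fun _ => one_pos)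
    (fun _ _ _ _ => 0) (fun _ _ _ _ => 0)
    (fun _ _ _ => ⟨⟨differentiableOn_const 0, fun _ _ => by simp⟩,
      ⟨differentiableOn_const 0, fun _ _ => by simp⟩⟩) ∅
  simpa using h3

/-- **U1** -/
theorem UB6.mass (h : UB6 F ep e1 J p K ε) (hK : 1 ≤ K) : ∃ m0 : ℕ, ∀ m ≥ m0, ∀ i : ι, F.ok m i →
    FS6 F ep e1 J m i (fun _ => 1) (fun _ _ _ _ _ => 1) ≤
      ENNReal.ofReal ((m : ℝ) ^ ε * F.bd m i) := by
  obtain ⟨m0, h0⟩ := h.weight
  refine ⟨m0, fun m hm i hi => ?_⟩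
  simpa using h0 m hm i hi 1 zero_le_one (fun _ _ => 1) (OW.one hK m)

theorem FS_eq6 (φ : InsE) : FS6 F ep e1 J m i (fun _ => 1) φ = ‖F.Pf m i‖ₑ *
    ∑ n ∈ range (F.top m + 1),
      FE6 (F.Z ep m i) par6 n (n + dN (F.top m)) (cr e1 J m) (cr' e1 J m) φ := by
  unfold FS6
  rw [Finset.mul_sum]
  exact Finset.sum_congr rfl fun n _ => by rw [one_mul]

/-- **U4**: pinned objects, powers of the number of objects, products of statistics -/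
theorem UB6.pin (h : UB6 F ep e1 J p K ε) (hK : 6 ≤ K) {q : ℝ} (hq0 : 0 ≤ q) (hq : q ≤ 8 / 3) (a : ℕ)
    (C0 y₁ y₂ : ℝ) (h1 : y₁ < 0) (h2 : 0 < y₂) :
    ∃ m0 : ℕ, ∀ m ≥ m0, ∀ i : ι, F.ok m i → ∀ ρ : ℝ → ℂ, DN C0 m ρ →
    ∀ M : Fin p → ℝ, (∀ j, 0 < M j) → ∀ g g' : (r : ℕ) → (Fin r → Xo) → Fin p → ℂ → ℂ,
      (∀ r O j, BC y₁ y₂ (M j) (g r O j) ∧ BC y₁ y₂ (M j) (g' r O j)) →
    ∀ S : Finset (Fin p),
      FS6 F ep e1 J m i (fun _ => 1) (fun r O _ _ x =>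
          ENNReal.ofReal (((r : ℝ) + 1) ^ a * ∑ j, Real.exp (-(q * |ht (O j)|))) *
          ∏ j ∈ S, (‖nu1 ρ (etaC e1 J m m) true (g r O j) x‖ₑ +
            ‖nu1 ρ (etaC e1 J m m) false (g' r O j) x‖ₑ)) ≤
      ENNReal.ofReal (3 * a.factorial * (m : ℝ) ^ (-(3 / 8 * q * (1 - 4 * e1))) *
        (∏ j ∈ S, M j) * (m : ℝ) ^ ε * F.bd m i) := by
  obtain ⟨m0, h0⟩ := h.stat C0 y₁ y₂ h1 h2
  refine ⟨max m0 1, fun m hm i hi ρ hρ M hM g g' hg S => ?_⟩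
  have hm0 : m0 ≤ m := (le_max_left _ _).trans hm
  have hm1 : (0 : ℝ) < m := by exact_mod_cast (le_max_right m0 1).trans hm
  have hp := pinB_pos q e1 (Real.log m)
  have h3 := h0 m hm0 i hi ρ hρ _ (by positivity) _
    ((OW.pin (e1 := e1) hq0 hq a m).mono (K' := K) (by norm_num) hK (by positivity) le_rfl)
    M hM g g' hg S
  rw [pinB_rpow q e1 hm1] at h3
  exact h3


end PBU.PLX

end
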