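import Pool.Agent.PLX.PB.UBN
import Pool.Agent.PHK.UProps6
import Pool.Agent.PHK.MBd6

/-!
# The particle-hole form (P): U1, U3, U4 on the configuration space

(P) twin of `PLX/PB/UBN`; the linear statistics, `OWs`, `prod_nuE_le`, `prod_Vy_le` are the landed ones.

* `wF6 F ep e1 J m i`: the weight of the family on `CfN6 (F.top m)`;
* `lint_wF6`: `∫ ‖w‖ ‖evN6 Ψ‖ ≤ FS6 φ` for `‖Ψ‖ ≤ φ`; `WI_wF6`;
* `UB6.fs`, `UB6.fs2`, **`UB6.l1`**, **`UB6.m2`**: first and second moments of everything that is at most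
  `w(O) ∏_j ‖Vy (g_j)‖`;
* **`UB6.mbd`**: the interface `MBd6` of the Ward identities.
-/

set_option autoImplicit false
set_option linter.unusedSectionVars false

noncomputable section

open Complex MeasureTheory Finset
open scoped ENNReal
open PLX (Fil)

namespace PBU.PLX

open NUO NUP1 NUP1S NUP1S.Ab NUP1S.AbC NUGC NUGC.PLX PBF PBF.PLX PBP PBP.PLX PBFunc PBFunc.PLX
open PHK

variable [Fil] [NUSea.Sea] {ι : Type} {F : Fam ι} {ep e1 J : ℝ} {m : ℕ} {i : ι}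

/-- **the weight of a family on the configuration space** -/
abbrev wF6 (F : Fam ι) (ep e1 J : ℝ) (m : ℕ) (i : ι) : CfN6 (F.top m) → ℂ :=
  wN6 (fun _ => F.Z ep m i) (fun _ => par6) (F.top m) (fun _ => cr e1 J m)
    (fun _ => cr' e1 J m) (fun _ => F.Pf m i)

/-- the sum of the moduli is the functional `FS6` -/
theorem FAN_wF6 (Ψ : ℕ → Ins) :
    FAN6 (fun _ => F.Z ep m i) (fun _ => par6) (F.top m) (fun _ => cr e1 J m)
      (fun _ => cr' e1 J m) (fun _ => F.Pf m i) Ψ =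
    ∑ n ∈ range (F.top m + 1), ‖F.Pf m i‖ₑ * FE6 (F.Z ep m i) par6 n
      (n + dN (F.top m)) (cr e1 J m) (cr' e1 J m) fun r O a b x => ‖Ψ n r O a b x‖ₑ := by
  unfold FAN6
  refine Finset.sum_congr rfl fun n _ => ?_
  rw [← FA_eq_FE6]

/-- **the integral on the configuration space** -/
theorem lint_wF6 (h : MC6 (F.Z ep m i) par6 (cr e1 J m) (cr' e1 J m)) {Ψ : ℕ → Ins}
    (hΨ : ∀ n ≤ F.top m, MIn (Ψ n)) {φ : InsE}
    (hφ : ∀ n ≤ F.top m, ∀ r O a b x, ‖Ψ n r O a b x‖ₑ ≤ φ r O a b x) :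
    ∫⁻ x, ‖wF6 F ep e1 J m i x‖ₑ * ‖evN6 Ψ x‖ₑ ∂(mN6 (F.top m)) ≤
      FS6 F ep e1 J m i (fun _ => 1) φ := by
  rw [← FAN6_eq (fun n _ => h) hΨ, FAN_wF6]
  unfold FS6
  refine Finset.sum_le_sum fun n hn => ?_
  rw [one_mul]
  exact mul_le_mul' le_rfl (FE_mono6 fun r O a b x =>
    hφ n (by have := Finset.mem_range.1 hn; omega) r O a b x)

/-- integrability -/
theorem WI_wF6 (h : MC6 (F.Z ep m i) par6 (cr e1 J m) (cr' e1 J m)) {Ψ : ℕ → Ins}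
    (hΨ : ∀ n ≤ F.top m, MIn (Ψ n)) {φ : InsE}
    (hφ : ∀ n ≤ F.top m, ∀ r O a b x, ‖Ψ n r O a b x‖ₑ ≤ φ r O a b x)
    (hf : FS6 F ep e1 J m i (fun _ => 1) φ < ⊤) :
    WI (mN6 (F.top m)) (wF6 F ep e1 J m i) (evN6 Ψ) := by
  refine WIN_of6 (fun n _ => h) hΨ ?_
  rw [FAN6_eq (fun n _ => h) hΨ]
  exact (lint_wF6 h hΨ hφ).trans_lt hf

variable {p : ℕ} {K ε : ℝ}

/-- **products of at most `p` statistics** -/
theorem UB6.fs (h : UB6 F ep e1 J p K ε) (C0 y₁ y₂ : ℝ) (h1 : y₁ < 0) (h2 : 0 < y₂) :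
    ∃ m0 : ℕ, ∀ m ≥ m0, ∀ i : ι, F.ok m i → ∀ ρ : ℂ → ℂ, DN C0 m (fun t : ℝ => ρ t) →
    ∀ (q : ℕ), q ≤ p → ∀ M : Fin q → ℝ, (∀ j, 0 < M j) →
    ∀ g : (r : ℕ) → (Fin r → Xo) → Fin q → Bool → ℂ → ℂ,
      (∀ r O j s, BC y₁ y₂ (M j) (g r O j s)) →
    ∀ B : ℝ, 0 ≤ B → ∀ w : (r : ℕ) → (Fin r → Xo) → ℝ, OW e1 K B m w →
      FS6 F ep e1 J m i (fun _ => 1) (fun r O a b x => ENNReal.ofReal (w r O) *
          ∏ j, ‖Vy 0 (cr e1 J m) ρ (g r O j) r O a b x‖ₑ) ≤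
      ENNReal.ofReal (B * (∏ j, M j) * ((m : ℝ) ^ ε * F.bd m i)) := by
  obtain ⟨m0, h0⟩ := h C0 y₁ y₂ h1 h2
  refine ⟨m0, fun m hm i hi ρ hρ q hq M hM g hg B hB w hw => ?_⟩
  obtain ⟨s, rfl⟩ := Nat.exists_eq_add_of_le hq
  have hn : ∀ r O s' j, BC y₁ y₂ 1 (nrm M (g r O) s' j) := fun r O s' j =>
    (hg r O j s').normed (hM j)
  have key := h0 m hm i hi _ hρ B hB w hw
    (fun r O => Fin.append (nrm M (g r O) true) (fun (_ : Fin s) _ => 0))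
    (fun r O => Fin.append (nrm M (g r O) false) (fun (_ : Fin s) _ => 0))
    (fun r O j => ⟨BC_append (hn r O true) (fun _ => zero_BC _ _) j,
      BC_append (hn r O false) (fun _ => zero_BC _ _) j⟩)
  have hP : 0 ≤ ∏ j, M j := Finset.prod_nonneg fun j _ => (hM j).le
  refine (FS_mono6 (fun _ => le_rfl) fun r O a b x => ?_).trans
    ((FS_const_mul6 (c := ENNReal.ofReal (∏ j, M j)) ENNReal.ofReal_ne_top _).le.trans
      ((mul_le_mul' le_rfl key).trans ?_))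
  · rw [← prod_nuE_le]
    calc _ ≤ ENNReal.ofReal (w r O) * (ENNReal.ofReal (∏ j, M j) *
          ∏ j, nuE (fun t => ρ t) (etaC e1 J m m) (nrm M (g r O) true j)
            (nrm M (g r O) false j) x) := mul_le_mul' le_rfl (prod_Vy_le hM ρ (g r O) r O a b x)
      _ = ENNReal.ofReal (∏ j, M j) * (ENNReal.ofReal (w r O) *
          ((∏ j, nuE (fun t => ρ t) (etaC e1 J m m) (nrm M (g r O) true j)
            (nrm M (g r O) false j) x) * 1)) := by ring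
      _ ≤ _ := mul_le_mul' le_rfl (mul_le_mul' le_rfl (mul_le_mul' le_rfl
          (one_le_prod_nuE _ _ _ _ x)))
  · rw [← ENNReal.ofReal_mul hP]
    exact ENNReal.ofReal_le_ofReal (le_of_eq (by ring))

/-- **squares of products of at most `p / 2` statistics** -/
theorem UB6.fs2 (h : UB6 F ep e1 J p K ε) (C0 y₁ y₂ : ℝ) (h1 : y₁ < 0) (h2 : 0 < y₂) :
    ∃ m0 : ℕ, ∀ m ≥ m0, ∀ i : ι, F.ok m i → ∀ ρ : ℂ → ℂ, DN C0 m (fun t : ℝ => ρ t) →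
    ∀ (q : ℕ), 2 * q ≤ p → ∀ M : Fin q → ℝ, (∀ j, 0 < M j) →
    ∀ g : (r : ℕ) → (Fin r → Xo) → Fin q → Bool → ℂ → ℂ,
      (∀ r O j s, BC y₁ y₂ (M j) (g r O j s)) →
    ∀ B : ℝ, 0 ≤ B → ∀ w : (r : ℕ) → (Fin r → Xo) → ℝ, OW e1 K (B ^ 2) m (fun r O => w r O ^ 2) →
      FS6 F ep e1 J m i (fun _ => 1) (fun r O a b x => ENNReal.ofReal (w r O ^ 2) *
          (∏ j, ‖Vy 0 (cr e1 J m) ρ (g r O j) r O a b x‖ₑ) ^ 2) ≤
      ENNReal.ofReal ((B * ∏ j, M j) ^ 2 * ((m : ℝ) ^ ε * F.bd m i)) := by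
  obtain ⟨m0, h0⟩ := h C0 y₁ y₂ h1 h2
  refine ⟨m0, fun m hm i hi ρ hρ q hq M hM g hg B hB w hw => ?_⟩
  obtain ⟨s, rfl⟩ : ∃ s, p = q + (q + s) := ⟨p - 2 * q, by omega⟩
  have hn : ∀ r O s' j, BC y₁ y₂ 1 (nrm M (g r O) s' j) := fun r O s' j =>
    (hg r O j s').normed (hM j)
  have key := h0 m hm i hi _ hρ (B ^ 2) (by positivity) _ hw
    (fun r O => Fin.append (nrm M (g r O) true)
      (Fin.append (nrm M (g r O) true) (fun (_ : Fin s) _ => 0)))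
    (fun r O => Fin.append (nrm M (g r O) false)
      (Fin.append (nrm M (g r O) false) (fun (_ : Fin s) _ => 0)))
    (fun r O j => ⟨BC_append (hn r O true) (BC_append (hn r O true) fun _ => zero_BC _ _) j,
      BC_append (hn r O false) (BC_append (hn r O false) fun _ => zero_BC _ _) j⟩)
  have hP : 0 ≤ ∏ j, M j := Finset.prod_nonneg fun j _ => (hM j).le
  refine (FS_mono6 (fun _ => le_rfl) fun r O a b x => ?_).trans
    ((FS_const_mul6 (c := ENNReal.ofReal ((∏ j, M j) ^ 2)) ENNReal.ofReal_ne_top _).le.trans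
      ((mul_le_mul' le_rfl key).trans ?_))
  · rw [← prod_nuE_le, ← prod_nuE_le]
    obtain ⟨N, hN⟩ : ∃ N, N = ∏ j, nuE (fun t => ρ t) (etaC e1 J m m) (nrm M (g r O) true j)
      (nrm M (g r O) false j) x := ⟨_, rfl⟩
    have h3 := prod_Vy_le (e1 := e1) (J := J) (m := m) hM ρ (g r O) r O a b x
    rw [← hN] at h3 ⊢
    calc _ ≤ ENNReal.ofReal (w r O ^ 2) * (ENNReal.ofReal (∏ j, M j) * N) ^ 2 :=
          mul_le_mul' le_rfl (pow_le_pow_left' h3 2)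
      _ = ENNReal.ofReal ((∏ j, M j) ^ 2) * (ENNReal.ofReal (w r O ^ 2) * (N * (N * 1))) := by
          rw [ENNReal.ofReal_pow hP]
          ring
      _ ≤ _ := mul_le_mul' le_rfl (mul_le_mul' le_rfl (mul_le_mul' le_rfl (mul_le_mul' le_rfl
          (one_le_prod_nuE _ _ _ _ x))))
  · rw [← ENNReal.ofReal_mul (by positivity)]
    exact ENNReal.ofReal_le_ofReal (le_of_eq (by ring))

/-- **first moments** of everything that is at most `w(O) ∏_j ‖Vy (g_j)‖` -/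
theorem UB6.l1 (h : UB6 F ep e1 J p K ε) (C0 y₁ y₂ : ℝ) (h1 : y₁ < 0) (h2 : 0 < y₂) :
    ∃ m0 : ℕ, ∀ m ≥ m0, ∀ i : ι, F.ok m i →
    MC6 (F.Z ep m i) par6 (cr e1 J m) (cr' e1 J m) →
    ∀ ρ : ℂ → ℂ, DN C0 m (fun t : ℝ => ρ t) →
    ∀ (q : ℕ), q ≤ p → ∀ M : Fin q → ℝ, (∀ j, 0 < M j) →
    ∀ g : (r : ℕ) → (Fin r → Xo) → Fin q → Bool → ℂ → ℂ,
      (∀ r O j s, BC y₁ y₂ (M j) (g r O j s)) →
    ∀ B : ℝ, 0 ≤ B → ∀ w : (r : ℕ) → (Fin r → Xo) → ℝ, OW e1 K B m w →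
    ∀ Ψ : ℕ → Ins, (∀ n ≤ F.top m, MIn (Ψ n)) → (∀ n ≤ F.top m, ∀ r O a b x,
      ‖Ψ n r O a b x‖ ≤ w r O * ∏ j, ‖Vy 0 (cr e1 J m) ρ (g r O j) r O a b x‖) →
      L1 (mN6 (F.top m)) (wF6 F ep e1 J m i) (evN6 Ψ)
        (B * (∏ j, M j) * ((m : ℝ) ^ ε * F.bd m i)) := by
  obtain ⟨m0, h0⟩ := h.fs C0 y₁ y₂ h1 h2
  refine ⟨m0, fun m hm i hi hMC ρ hρ q hq M hM g hg B hB w hw Ψ hΨ hle => ?_⟩
  have key := h0 m hm i hi ρ hρ q hq M hM g hg B hB w hw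
  refine le_trans (le_of_eq ?_) ((lint_wF6 hMC hΨ fun n hn r O a b x => ?_).trans key)
  · refine lintegral_congr fun x => ?_
    rw [ENNReal.ofReal_mul (norm_nonneg _), ofReal_norm, ofReal_norm]
  · rw [← ofReal_norm]
    refine (ENNReal.ofReal_le_ofReal (hle n hn r O a b x)).trans (le_of_eq ?_)
    rw [ENNReal.ofReal_mul' (Finset.prod_nonneg fun j _ => norm_nonneg _),
      ENNReal.ofReal_prod_of_nonneg fun j _ => norm_nonneg _]
    simp only [ofReal_norm]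

/-- **second moments** of everything that is at most `w(O) ∏_j ‖Vy (g_j)‖` -/
theorem UB6.m2 (h : UB6 F ep e1 J p K ε) (C0 y₁ y₂ : ℝ) (h1 : y₁ < 0) (h2 : 0 < y₂) :
    ∃ m0 : ℕ, ∀ m ≥ m0, ∀ i : ι, F.ok m i →
    MC6 (F.Z ep m i) par6 (cr e1 J m) (cr' e1 J m) →
    ∀ ρ : ℂ → ℂ, DN C0 m (fun t : ℝ => ρ t) →
    ∀ (q : ℕ), 2 * q ≤ p → ∀ M : Fin q → ℝ, (∀ j, 0 < M j) →
    ∀ g : (r : ℕ) → (Fin r → Xo) → Fin q → Bool → ℂ → ℂ,
      (∀ r O j s, BC y₁ y₂ (M j) (g r O j s)) →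
    ∀ B : ℝ, 0 ≤ B → ∀ w : (r : ℕ) → (Fin r → Xo) → ℝ, OW e1 K (B ^ 2) m (fun r O => w r O ^ 2) →
    ∀ Ψ : ℕ → Ins, (∀ n ≤ F.top m, MIn (Ψ n)) → (∀ n ≤ F.top m, ∀ r O a b x,
      ‖Ψ n r O a b x‖ ≤ w r O * ∏ j, ‖Vy 0 (cr e1 J m) ρ (g r O j) r O a b x‖) →
      M2 (mN6 (F.top m)) (wF6 F ep e1 J m i) ((m : ℝ) ^ ε * F.bd m i) (evN6 Ψ)
        (B * ∏ j, M j) := by
  obtain ⟨m0, h0⟩ := h.fs2 C0 y₁ y₂ h1 h2
  refine ⟨m0, fun m hm i hi hMC ρ hρ q hq M hM g hg B hB w hw Ψ hΨ hle => ?_⟩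
  have key := h0 m hm i hi ρ hρ q hq M hM g hg B hB w hw
  have hΨ2 : ∀ n ≤ F.top m, MIn fun r O a b x => Ψ n r O a b x * Ψ n r O a b x := fun n hn =>
    (hΨ n hn).mul' (hΨ n hn)
  refine le_trans (le_of_eq ?_) ((lint_wF6 (Ψ := fun n r O a b x => Ψ n r O a b x * Ψ n r O a b x)
    hMC hΨ2 fun n hn r O a b x => ?_).trans key)
  · refine lintegral_congr fun x => ?_
    rw [ENNReal.ofReal_mul (norm_nonneg _), ofReal_norm]
    congr 1
    show _ = ‖evN6 Ψ x * evN6 Ψ x‖ₑ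
    rw [enorm_mul, ← ofReal_norm, ← ENNReal.ofReal_mul (norm_nonneg _), ← pow_two]
  · have h3 : ‖Ψ n r O a b x‖ₑ ^ 2 ≤ ENNReal.ofReal (w r O ^ 2) *
        (∏ j, ‖Vy 0 (cr e1 J m) ρ (g r O j) r O a b x‖ₑ) ^ 2 := by
      have h4 := hle n hn r O a b x
      have h5 : 0 ≤ ∏ j, ‖Vy 0 (cr e1 J m) ρ (g r O j) r O a b x‖ :=
        Finset.prod_nonneg fun j _ => norm_nonneg _
      have h6 : ∏ j, ‖Vy 0 (cr e1 J m) ρ (g r O j) r O a b x‖ₑ =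
          ENNReal.ofReal (∏ j, ‖Vy 0 (cr e1 J m) ρ (g r O j) r O a b x‖) := by
        rw [ENNReal.ofReal_prod_of_nonneg fun j _ => norm_nonneg _]
        simp only [ofReal_norm]
      rw [h6, ← ENNReal.ofReal_pow h5, ← ENNReal.ofReal_mul (by positivity), ← mul_pow,
        ← ofReal_norm, ← ENNReal.ofReal_pow (norm_nonneg _)]
      exact ENNReal.ofReal_le_ofReal (pow_le_pow_left₀ (norm_nonneg _) h4 2)
    rw [enorm_mul, ← pow_two]
    exact h3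


/-! ### the interface of the Ward identities -/

/-- **UB6 gives the interface** -/
theorem UB6.mbd (h : UB6 F ep e1 J p K ε) (hp : 2 ≤ p) (hK : 6 ≤ K) {q : ℝ} (hq0 : 0 ≤ q)
    (hq : q ≤ 8 / 3) (C0 y₁ y₂ : ℝ) (h1 : y₁ < 0) (h2 : 0 < y₂) :
    ∃ m0 : ℕ, ∀ m ≥ m0, ∀ i : ι, F.ok m i →
    MC6 (F.Z ep m i) par6 (cr e1 J m) (cr' e1 J m) →
    ∀ ρ : ℂ → ℂ, DN C0 m (fun t : ℝ => ρ t) →
      MBd6 (F.top m) (fun _ => F.Z ep m i) (fun _ => par6) (fun _ => cr e1 J m)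
        (fun _ => cr' e1 J m) (fun _ => F.Pf m i) ρ y₁ y₂ (6 * ((m : ℝ) ^ ε * F.bd m i)) q
        (3 * (m : ℝ) ^ (-(3 / 8 * q * (1 - 4 * e1))) * ((m : ℝ) ^ ε * F.bd m i)) := by
  obtain ⟨m1, hl1⟩ := h.l1 C0 y₁ y₂ h1 h2
  obtain ⟨m2, hm2⟩ := h.m2 C0 y₁ y₂ h1 h2
  refine ⟨max (max m1 m2) 1, fun m hm i hi hMC ρ hρ => ?_⟩
  have hm1 : m1 ≤ m := by omega
  have hm2' : m2 ≤ m := by omega
  have hm0 : (0 : ℝ) < m := by
    have : 0 < m := by omega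
    exact_mod_cast this
  have hs : Real.sqrt 6 ^ 2 = 6 := Real.sq_sqrt (by norm_num)
  have hw : OWs e1 K (Real.sqrt 6) m fun r _ => (r : ℝ) + 1 := by
    have := OWs.pow_sqrt (e1 := e1) 1 m
    have h6 : (3 * (2 * 1).factorial : ℝ) = 6 := by norm_num [Nat.factorial]
    rw [h6] at this
    refine OWs.mono this (fun r O => ?_) (by norm_num) (by linarith) (Real.sqrt_nonneg _) le_rfl
    rw [pow_one, abs_of_nonneg (by positivity)]
  have hw2 : OW e1 K (3 * (m : ℝ) ^ (-(3 / 8 * q * (1 - 4 * e1)))) m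
      fun r O => ((r : ℝ) + 1) * ∑ j, Real.exp (-(q * |ht (O j)|)) := by
    have h3 := OW.pin (e1 := e1) hq0 hq 1 m
    rw [pinB_rpow q e1 hm0] at h3
    have h4 : (3 * (Nat.factorial 1 : ℝ) * (m : ℝ) ^ (-(3 / 8 * q * (1 - 4 * e1)))) =
        3 * (m : ℝ) ^ (-(3 / 8 * q * (1 - 4 * e1))) := by norm_num
    rw [h4] at h3
    have h5 := h3.mono (K' := K) (by norm_num) hK (by positivity) le_rfl
    intro r O
    have h6 := h5 r O
    simpa using h6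
  have e0 : ∀ {f : Fin 0 → ℝ}, ∏ j, f j = 1 := fun {f} => by simp
  constructor
  · have h3 := hm2 m hm2' i hi hMC ρ hρ 0 (by omega) (fun _ => 1) (fun _ => one_pos)
      (fun _ _ j => j.elim0) (fun _ _ j => j.elim0) (Real.sqrt 6) (Real.sqrt_nonneg _)
      (fun r _ => (r : ℝ) + 1) hw (fun _ => cnI) (fun _ _ => MIn.cnI) (fun n _ r O a b x => by
        show ‖(r : ℂ) + 1‖ ≤ _
        rw [norm_cn]
        simp)
    rw [e0] at h3
    have h4 := M2.rescale h3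
    rwa [hs] at h4
  · intro M g hM hg hmeas
    refine M2.of_pos fun M' hM' => ?_
    have hM0 : 0 < M' := hM.trans_lt hM'
    have h3 := hm2 m hm2' i hi hMC ρ hρ 1 (by omega) (fun _ => M') (fun _ => hM0)
      (fun r O _ s => g r O s) (fun r O _ s => (hg r O s).mono hM'.le) (Real.sqrt 6)
      (Real.sqrt_nonneg _) (fun r _ => (r : ℝ) + 1) hw
      (fun n r O a b x => ((r : ℂ) + 1) * Vy 0 (cr e1 J m) ρ (g r O) r O a b x)
      (fun n hn => MIn.mul' MIn.cnI (hmeas n hn)) (fun n _ r O a b x => by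
        rw [norm_mul, norm_cn]
        simp)
    have h4 := M2.rescale (by simpa using h3)
    rwa [hs] at h4
  · have h3 := hl1 m hm1 i hi hMC ρ hρ 0 (by omega) (fun _ => 1) (fun _ => one_pos)
      (fun _ _ j => j.elim0) (fun _ _ j => j.elim0) _ (by positivity) _ hw2
      (fun _ r O a b x => ((r : ℂ) + 1) * pinI q r O a b x)
      (fun _ _ => MIn.mul' MIn.cnI (MIn.pinI q)) (fun n _ r O a b x => by
        rw [norm_mul, norm_cn, norm_pinI]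
        simp)
    rw [e0, mul_one] at h3
    exact h3
  · intro M g hM hg hmeas
    refine L1.of_pos fun M' hM' => ?_
    have hM0 : 0 < M' := hM.trans_lt hM'
    have h3 := hl1 m hm1 i hi hMC ρ hρ 1 (by omega) (fun _ => M') (fun _ => hM0)
      (fun r O _ s => g r O s) (fun r O _ s => (hg r O s).mono hM'.le) _ (by positivity) _ hw2
      (fun n r O a b x =>
        (((r : ℂ) + 1) * pinI q r O a b x) * Vy 0 (cr e1 J m) ρ (g r O) r O a b x)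
      (fun n hn => MIn.mul' (MIn.mul' MIn.cnI (MIn.pinI q)) (hmeas n hn)) (fun n _ r O a b x => by
        rw [norm_mul, norm_mul, norm_cn, norm_pinI]
        simp)
    refine h3.mono (le_of_eq ?_)
    simp only [Finset.univ_unique, Finset.prod_singleton]
    ring

end PBU.PLX

end
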