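import Pool.Agent.PLX.PB.LevH0
import Pool.Agent.PHK.UBN6
import Pool.Agent.PHK.QMomC6
import Pool.Agent.PHK.FamL6

/-!
# (P): the family of the second Ward identity

(P) twin of `PLX/PB/LevH0`. The density `rhS`, the curves `eC`, `eC'`, the prefactor `cF`, the sizes `Kj`,
`dj` and the conditions `SmallP` are the landed ones.

* `ZF6`, `pS6`, `wS6`: one body functions, parameters, weight (`wS_eq6`: it is the weight of `famL6`);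
* **`MomS6`** (class), `mbdS6`, `mom4S6`: the moments of the family, all `s`, `t` in `[0, 1]`, large `j`.
-/

set_option autoImplicit false
set_option linter.unusedSectionVars false

noncomputable section

open Complex MeasureTheory Filter Topology Set
open scoped ENNReal
open PLX (Fil)

namespace PBLX.PLX

open NUO NUP1S NUP1S.Ab NUP1S.AbC NUGC NUGC.PLX PBF PBF.PLX PBFunc PBFunc.PLX PBU PBU.PLX
open NUP1 hiding Kd
open PBEI (rowS rowS_zero rowS_ne rowS_ok)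
open PBQ1 (hr)
open PHK

attribute [local instance] NUSea.seaP

variable [Fil]

/-- the one body functions -/
abbrev ZF6 (ep : ℝ) (j : ℕ) (s t : ℝ) : Bool → Option O3 → ℂ → ℂ :=
  ZL6 (ccS6 (j + 1)) (g0L (j + 1) j (I * s)) j (4 / 3 * (1 - ep)) (I * s) (I * t)

/-- the parameters of the objects -/
abbrev pS6 (_j : ℕ) : ℕ → Par6 := fun _ => par6

/-- **the weight of the family** -/
abbrev wS6 (ep e1 J : ℝ) (j : ℕ) (s t : ℝ) : CfN6 (2 * (j + 1)) → ℂ :=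
  wN6 (fun _ => ZF6 ep j s t) (pS6 j) (2 * (j + 1)) (eC e1 J j) (eC' e1 J j) (cF j s t)

theorem ZF_eq6 (ep : ℝ) (j : ℕ) (s t : ℝ) : ZF6 ep j s t = famL6.Z ep (j + 1) (I * s, I * t) := rfl

theorem wS_eq6 (ep e1 J : ℝ) (j : ℕ) (s t : ℝ) :
    wS6 ep e1 J j s t = wF6 famL6 ep e1 J (j + 1) (I * s, I * t) := rfl

/-! ### the moments -/

theorem MBd6.mono {N : ℕ} {Z : ℕ → Bool → Option O3 → ℂ → ℂ} {P : ℕ → Par6} {η η' : ℕ → Crs}
    {c : ℕ → ℂ} {ρ : ℂ → ℂ} {y₁ y₂ K K' q dp dp' : ℝ} (h : MBd6 N Z P η η' c ρ y₁ y₂ K q dp)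
    (hK0 : 0 ≤ K) (hK : K ≤ K') (hd : dp ≤ dp') : MBd6 N Z P η η' c ρ y₁ y₂ K' q dp' where
  one := M2.mono h.one zero_le_one le_rfl hK hK0
  vy M g hM hg hm := M2.mono (h.vy M g hM hg hm) hM le_rfl hK hK0
  pin := L1.mono h.pin hd
  pinv M g hM hg hm := L1.mono (h.pinv M g hM hg hm) (mul_le_mul_of_nonneg_left hd hM)

/-- the index is admissible -/
theorem ok_famL6 (j : ℕ) {s t : ℝ} (hs : s ∈ Icc (0 : ℝ) 1) (ht : t ∈ Icc (0 : ℝ) 1) :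
    famL6.ok (j + 1) (I * s, I * t) := by
  have hl := NUP1.Bd.l_pos
  have hlog : 0 ≤ Real.log ((j + 1 : ℕ) : ℝ) := Real.log_natCast_nonneg _
  refine ⟨?_, ?_, ?_, ?_, ?_⟩
  · simp only [mul_re, I_re, ofReal_re, I_im, ofReal_im]
    rw [zero_mul, mul_zero, sub_zero, abs_zero]
    positivity
  · simp only [mul_im, I_re, ofReal_re, I_im, ofReal_im]
    rw [zero_mul, one_mul, zero_add, abs_of_nonneg hs.1]
    linarith [hs.2]
  · simp only [mul_re, I_re, ofReal_re, I_im, ofReal_im]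
    linarith
  · simp only [mul_re, I_re, ofReal_re, I_im, ofReal_im]
    linarith
  · simp only [mul_im, I_re, ofReal_re, I_im, ofReal_im]
    rw [zero_mul, one_mul, zero_add, abs_of_nonneg ht.1]
    linarith [ht.2]

/-- **the moments of the family**: second moments, pins and products of four statistics. This is the
only input of the levels which comes from the representation; the instance is in `LevH6` -/
class MomS6 : Prop where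
  /-- second moments and pins -/
  mbd : ∀ {q ε : ℝ}, 0 ≤ q → q ≤ 8 / 3 → 0 < ε →
    ∃ a0 : ℝ, 0 < a0 ∧ ∀ ep e1 J : ℝ, SmallP a0 ep e1 J → ∀ y₁ y₂ : ℝ, y₁ < 0 → 0 < y₂ →
    ∀ᶠ j : ℕ in atTop, ∀ s ∈ Icc (0 : ℝ) 1, ∀ t ∈ Icc (0 : ℝ) 1,
      MBd6 (2 * (j + 1)) (fun _ => ZF6 ep j s t) (pS6 j) (eC e1 J j) (eC' e1 J j) (cF j s t)
        (rhS j s) y₁ y₂ (Kj ε j) q (dj ε e1 q j)
  /-- products of four statistics -/
  mom4 : ∀ {ε : ℝ}, 0 < ε →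
    ∃ a0 : ℝ, 0 < a0 ∧ ∀ ep e1 J : ℝ, SmallP a0 ep e1 J → ∀ y₁ y₂ : ℝ, y₁ < 0 → 0 < y₂ →
    ∀ᶠ j : ℕ in atTop, ∀ s ∈ Icc (0 : ℝ) 1, ∀ t ∈ Icc (0 : ℝ) 1,
      PBQM.PLX.Mom4 (mN6 (2 * (j + 1))) (wS6 ep e1 J j s t)
        (VN6 (2 * (j + 1)) (eC e1 J j) (rhS j s)) y₁ y₂ (Kj ε j)

/-- **the moments of the family** -/
theorem mbdS6 [MomS6] {q ε : ℝ} (hq0 : 0 ≤ q) (hq : q ≤ 8 / 3) (hε : 0 < ε) :
    ∃ a0 : ℝ, 0 < a0 ∧ ∀ ep e1 J : ℝ, SmallP a0 ep e1 J → ∀ y₁ y₂ : ℝ, y₁ < 0 → 0 < y₂ →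
    ∀ᶠ j : ℕ in atTop, ∀ s ∈ Icc (0 : ℝ) 1, ∀ t ∈ Icc (0 : ℝ) 1,
      MBd6 (2 * (j + 1)) (fun _ => ZF6 ep j s t) (pS6 j) (eC e1 J j) (eC' e1 J j) (cF j s t)
        (rhS j s) y₁ y₂ (Kj ε j) q (dj ε e1 q j) := MomS6.mbd hq0 hq hε

/-- **products of four statistics at the family** -/
theorem mom4S6 [MomS6] {ε : ℝ} (hε : 0 < ε) :
    ∃ a0 : ℝ, 0 < a0 ∧ ∀ ep e1 J : ℝ, SmallP a0 ep e1 J → ∀ y₁ y₂ : ℝ, y₁ < 0 → 0 < y₂ →
    ∀ᶠ j : ℕ in atTop, ∀ s ∈ Icc (0 : ℝ) 1, ∀ t ∈ Icc (0 : ℝ) 1,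
      PBQM.PLX.Mom4 (mN6 (2 * (j + 1))) (wS6 ep e1 J j s t)
        (VN6 (2 * (j + 1)) (eC e1 J j) (rhS j s)) y₁ y₂ (Kj ε j) := MomS6.mom4 hε

end PBLX.PLX

end
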