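import Pool.Agent.PHK.RepT6
import Pool.Agent.PHK.InsBr6
import Pool.Agent.PHK.U1Of6
import Pool.Agent.PHK.ClZK6
import Pool.Agent.PHK.LevH06
import Pool.Agent.PLX.PB.ZLegP
import Pool.Agent.PLX.PB.RepF
import Pool.Agent.PB.EInst2

/-!
# (P): the data of the transfer at the dislocated function

Rows `i s, 0^k`, legs at `i t`, cutoff `4 (1 - ep) / 3`, curves `crL e1 J (k + 1)`; the straight lines of the
first Ward identity are the landed ones, `fl (pL (k + 1))`, `3/5 l`.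

* `ClsB6`: the class formula on the class `ClZ6` (the interface);
* `mu1_I_re`: the rows lie on the imaginary axis;
* **`trN_ZL6`**: `TrN6`.
-/

set_option autoImplicit false
set_option linter.unusedSectionVars false

noncomputable section

open Complex MeasureTheory Finset Filter
open scoped ENNReal Classical
open PLX (Fil)

namespace PBI.PLX

open NUP1 hiding Kd
open NUO NUP1S NUP1S.Ab NUP1S.AbC PB PHK
open PBX (ph)
open PBL.PLX (mu1)
open PBF.PLX (Crs MCr dN mcr_const curZ_crs curZ_cont curZ_cont' FE6 FA_eq_FE6)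
open PBT.PLX (crL crL' pL)
open PBV.PLX (TopM6 rwL_mu1)
open Pool.Agent.PB (Pf)
open Pool.Agent.PLX (rwq yq GF6 PhI6)

attribute [local instance] NUSea.seaP _root_.PLX.ends0

variable [Fil]

/-- **the class formula of (P) on the class `ClZ6`** -/
def ClsB6 : Prop := ∀ (Z : Stt) (κ κ' δ : ℝ) (Q : ℤ) (n n' : ℕ) (η η' : Crs), 0 < κ → StP δ par6 →
  (n : ℤ) - n' = Q → (∀ r ≤ 2 * (n + n'), ∀ O, CrvR6 δ (η r O) (η' r O)) →
  ClZ6 Z par6 (3 / 5 * l) κ κ' δ Q →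
  ZobjQ (Z true) (Z false) (51 / 100 * l) n n' (lX6 par6) (lY6 par6) =
    FF6 Z par6 n n' η η' (fun _ _ _ _ _ => 1)

theorem mu1_I_re (k : ℕ) (s : ℝ) (i : Fin (k + 1)) : (mu1 k (I * (s : ℂ)) i).re = 0 := by
  show (PBEI.rowS k s i).re = 0
  unfold PBEI.rowS
  refine Fin.cases ?_ (fun j => ?_) i
  · simp
  · simp

/-- **absolute convergence, each number of quanta**, and the data of the transfer -/
theorem trN_ZL6 (hC : ClsB6) {δ : ℝ} (hM : TopM6 δ) :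
    ∃ a0 : ℝ, 0 < a0 ∧ ∀ ep e1 J : ℝ, 0 < ep → ep ≤ 1 / 100 → 0 < e1 →
    e1 ≤ 1 / 100 → 0 ≤ J → Real.exp (-(2 * Real.pi * J)) + 3 * e1 + 3 * ep ≤ a0 →
    ∃ m0 : ℕ, ∀ k : ℕ, m0 ≤ k → ∀ s t : ℝ, |s| ≤ 1 → |t| ≤ 1 → ∀ c : Bool → ℂ,
      (∀ a, ‖c a‖ = 2 * Real.cos l) → ∀ g0 : Bool → ℂ → ℂ,
      (∀ a, GF6 (rwq (mu1 k (I * s)) a) (g0 a)) →
      (∀ a, ph (4 / 3) (rwq (mu1 k (I * s)) a) (g0 a) =
        phO (NUO.Tb (Real.log (k + 1 : ℕ)) + tauL6) (List.ofFn (rwq (mu1 k (I * s)) a) ++ [])) →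
      PBRep.PLX.TrN6 (ZL6 c g0 k (4 / 3 * (1 - ep)) (I * s) (I * t)) (PBI.PLX.fl (pL (k + 1))) par6
        (3 / 5 * l) (2 * (4 / 3 * (1 - ep))) (2 * (4 / 3 * (1 - ep))) (ep / 4) (2 * (k + 1))
        (fun _ => crL e1 J (k + 1)) (fun _ => crL' e1 J (k + 1)) := by
  obtain ⟨a0, ha0, H⟩ := hM
  refine ⟨a0, ha0, fun ep e1 J hep hep1 he he1 hJ hsm => ?_⟩
  obtain ⟨m1, H⟩ := H ep e1 J hep hep1 he he1 hJ hsm
  obtain ⟨mc, -, Hcur⟩ := curZ_crs he he1 hJ hep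
  obtain ⟨m2, hm2⟩ := PHK.phI6_mu1
  refine ⟨max m1 (max mc m2), fun k hk s t hs ht c hc g0 hg hph => ?_⟩
  have k1 : m1 ≤ k := (le_max_left _ _).trans hk
  have k2 : mc ≤ k + 1 :=
    (((le_max_left _ _).trans (le_max_right _ _)).trans hk).trans (Nat.le_succ k)
  have k3 : m2 ≤ k + 1 :=
    (((le_max_right _ _).trans (le_max_right _ _)).trans hk).trans (Nat.le_succ k)
  have hl := Bd.l_pos
  have hlN : NUP1.l = NUMF.l := rfl
  have hre : ∀ r : ℝ, (I * (r : ℂ)).re = 0 := fun r => by simp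
  have him : ∀ r : ℝ, (I * (r : ℂ)).im = r := fun r => by simp
  have hlog : 0 ≤ Real.log ((k + 1 : ℕ) : ℝ) := Real.log_nonneg (by
    exact_mod_cast Nat.succ_le_succ (Nat.zero_le k))
  have hx2 : |(I * (s : ℂ)).re| ≤ l / 2 := by rw [hre, abs_zero]; positivity
  have hx3 : |(I * (s : ℂ)).im| ≤ 2 := by rw [him]; linarith
  have key := H k k1 (I * s) (I * t) (by rw [hre, abs_zero, ← hlN]; positivity) hx3
    (by rw [hre, ← hlN]; linarith) (by rw [hre, ← hlN]; linarith)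
    (by rw [him]; linarith) c hc g0 (fun a => (hg a).gn.meas) hph
  have hPf : Pf (I * (t : ℂ)) (mu1 k (I * (s : ℂ))) (yq (mu1 k (I * (s : ℂ)))) ≠ 0 :=
    PBLg.PLX.Pf_ne (fun i => mu1_I_re k s i) (hre t)
  have hS : StP (ep / 4) par6 := par6_good.stP (by positivity) (by linarith) (by
    show 7 / 8 + ep / 4 < 1
    linarith)
  have hN : dN (2 * (k + 1)) = Fil.xn (k + 1) := by
    unfold dN
    congr 1
    omega
  have hcr : ∀ r (O : Fin r → Xo), CrvR6 (ep / 4) (crL e1 J (k + 1) r O) (crL' e1 J (k + 1) r O) :=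
    fun r O => crvR6_of (Hcur (k + 1) k2 r O)
  have hcl := clZ6_Q (c := c) (g0 := g0) (ex := fun _ => [I, -I]) (z := I * (t : ℂ)) par6_good
    Pool.Agent.PLX.hI6_par6 (by norm_num [par6]) hep hep1
    (by linarith : (0 : ℝ) < 4 / 3 * (1 - ep)) (by linarith) (PBT.PLX.rws_mu1 k hx2) (fun _ w hw => by
      rw [List.mem_cons, List.mem_singleton] at hw
      rcases hw with rfl | rfl
      · rw [Complex.I_re, abs_zero]
        positivity
      · rw [Complex.neg_re, Complex.I_re, neg_zero, abs_zero]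
        positivity) hg (hm2 k k3 _ (by linarith) (by linarith) _ hx2 hx3)
    (mul_pos two_pos NUO.cos_l_pos) hc
    (by rw [hre]; linarith) (by rw [hre]; linarith) (3 / 5 * l)
  refine ⟨fun n _ => ?_, ?_, fun n hn => ?_⟩
  · refine insQ6_fl (PBRep.PLX.parP_par0 (k + 1)) par6_good (by norm_num [par6]) (by norm_num [par6])
      (by norm_num [par6]) hS (mcr_const (curZ_cont e1 J (k + 1) (k + 1 : ℕ)).measurable
        (curZ_cont' e1 J (k + 1) (k + 1 : ℕ)).measurable) (fun r _ O => hcr r O) (by linarith)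
      (by push_cast; ring) fun Z hZ => ?_
    exact hC Z _ _ _ _ n (n + dN (2 * (k + 1))) _ _ (by linarith) hS (by push_cast; ring)
      (fun r _ O => hcr r O) hZ
  · rw [hN]
    exact hcl
  · have h1 : ENNReal.ofReal ‖Pf (I * (t : ℂ)) (mu1 k (I * (s : ℂ))) (yq (mu1 k (I * (s : ℂ))))‖ *
        FE6 (ZL6 c g0 k (4 / 3 * (1 - ep)) (I * s) (I * t)) par6 n (n + Fil.xn (k + 1))
          (crL e1 J (k + 1)) (crL' e1 J (k + 1)) (fun _ _ _ _ _ => 1) < ∞ := by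
      refine lt_of_le_of_lt ((mul_le_mul_right (Finset.single_le_sum (f := fun n =>
        FE6 (ZL6 c g0 k (4 / 3 * (1 - ep)) (I * s) (I * t)) par6 n (n + Fil.xn (k + 1))
          (crL e1 J (k + 1)) (crL' e1 J (k + 1)) (fun _ _ _ _ _ => 1)) (fun _ _ => zero_le)
          (Finset.mem_range.2 (Nat.lt_succ_of_le hn))) _).trans key) ENNReal.ofReal_lt_top
    have h2 : ENNReal.ofReal ‖Pf (I * (t : ℂ)) (mu1 k (I * (s : ℂ)))
        (yq (mu1 k (I * (s : ℂ))))‖ ≠ 0 := by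
      rw [Ne, ENNReal.ofReal_eq_zero, not_le]
      exact norm_pos_iff.2 hPf
    have h3 : FE6 (ZL6 c g0 k (4 / 3 * (1 - ep)) (I * s) (I * t)) par6 n (n + Fil.xn (k + 1))
          (crL e1 J (k + 1)) (crL' e1 J (k + 1)) (fun _ _ _ _ _ => 1) ≠ ∞ := by
      intro h
      rw [h, ENNReal.mul_top h2] at h1
      exact lt_irrefl _ h1
    rw [FA_eq_FE6, hN]
    simp only [enorm_one]
    exact lt_top_iff_ne_top.2 h3

/-- **the data of the transfer of the family of the dislocated function** -/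
theorem trN_ZF6 (hC : ClsB6) {δ : ℝ} (hM : TopM6 δ) :
    ∃ a0 : ℝ, 0 < a0 ∧ ∀ ep e1 J : ℝ, 0 < ep → ep ≤ 1 / 100 → 0 < e1 →
    e1 ≤ 1 / 100 → 0 ≤ J → Real.exp (-(2 * Real.pi * J)) + 3 * e1 + 3 * ep ≤ a0 →
    ∃ m0 : ℕ, ∀ j : ℕ, m0 ≤ j → ∀ s t : ℝ, |s| ≤ 1 → |t| ≤ 1 →
      PBRep.PLX.TrN6 (PBLX.PLX.ZF6 ep j s t) (PBI.PLX.fl (pL (j + 1))) par6
        (3 / 5 * l) (2 * (4 / 3 * (1 - ep))) (2 * (4 / 3 * (1 - ep))) (ep / 4) (2 * (j + 1))
        (PBLX.PLX.eC e1 J j) (PBLX.PLX.eC' e1 J j) := by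
  obtain ⟨a0, ha0, H⟩ := trN_ZL6 hC hM
  refine ⟨a0, ha0, fun ep e1 J hep hep1 he he1 hJ hsm => ?_⟩
  obtain ⟨m0, H⟩ := H ep e1 J hep hep1 he he1 hJ hsm
  refine ⟨m0, fun j hj s t hs ht => H j hj s t hs ht _ (PBU.PLX.norm_ccS6 _) _ (fun a => ?_) fun a => ?_⟩
  · exact PHK.gF6_L (by simp; linarith [Bd.l_pos]) _ a
  · rw [PBU.PLX.ph_g0L]
    unfold PBU.PLX.T1L
    rw [PBU.PLX.tauL6_eq rfl]

end PBI.PLX

end
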