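import Pool.Agent.PHK.ClsFF6
import Pool.Agent.PHK.RepZ6

/-!
# (P): the class formula on the class `ClZ6` from the word identities

The class of the transfer (`ClZ6`, closed under the twists `1 + ε a`) knows the inverse of the one body
functions only in the strip of the holes and a small open neighbourhood, with its own rate `κ' < 6`.

* **`WordThB`** : the word identities with these hypotheses;
* `wordTh_of` : `WordThB → WordTh`;
* **`clsB6_of : WordThB → ClsB6`**.
-/

set_option autoImplicit false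
set_option linter.unusedSectionVars false

noncomputable section

open Complex MeasureTheory Finset
open scoped ENNReal
open PLX (Fil)

namespace PHK

open NUO NUP1 NUP1S NUP1S.Ab NUP1S.AbC
open PBF.PLX (Crs)
open PBI (Stt)
open NUP1.Bd (Ob)

/-- **the word identities of (P)** -/
def WordThB : Prop :=
  ∀ (Z : Stt) (P : Par6) (κ κ' del : ℝ) (n n' : ℕ), GoodP6 P → Pool.Agent.PLX.HI6 P →
    (∀ s k, Measurable (Z s k)) → DecQ6 Z P κ κ' ((n : ℝ) - n') →
    (∀ s, DecOn (κ + 2 * ((n : ℝ) - n') * sc (s, Ob.A)) (Set.Icc (51 / 100 * l) l) (Z s none)) →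
    0 < del → DifZ6 Z P (51 / 100 * l) del → WordP Z P (51 / 100 * l) n n'

theorem wordTh_of (h : WordThB) : Pool.Agent.PLX.WordTh := by
  intro Z P κ Q n n' hP hI h0 h1 hm hD hV hA hn
  have hl := Bd.l_pos
  have e : ((n : ℝ) - n') = Q := by
    have : (n : ℝ) = n' + Q := by exact_mod_cast hn
    linarith
  have a1 := hI.j1
  have a2 := hI.j2
  have hj := hP.j1e
  have hj' := hP.e45
  refine h Z P κ κ (l / 100) n n' hP hI hm (Pool.Agent.PLX.decQ6_of hP hI h0 h1 hD hV hn) ?_
    (by positivity) ⟨hA, fun s u h1 h2 => hV.an s u ?_ ?_, fun s u h1 h2 => hV.ne s u h1 ?_⟩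
  · rw [e]
    exact hD.A
  · have : (1 / 9 : ℝ) * l < (1 - P.j2) * l - l / 100 := by nlinarith
    exact this.trans h1
  · have : (1 - P.j1) * l + l / 100 < (63 / 64 : ℝ) * l := by nlinarith
    exact h2.trans this
  · have : (1 - P.j1) * l + l / 100 < (63 / 64 : ℝ) * l := by nlinarith
    exact h2.trans this

end PHK

namespace PBI.PLX

open NUO NUP1 NUP1S NUP1S.Ab NUP1S.AbC PHK

attribute [local instance] NUSea.seaP _root_.PLX.ends0

variable [Fil]

/-- **the class formula on the class `ClZ6`** -/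
theorem clsB6_of (h : WordThB) : ClsB6 := by
  intro Z κ κ' δ Q n n' η η' hκ hS hn hη hZ
  have hl := Bd.l_pos
  obtain ⟨κh, del, k1, d0, hH, hF, hN⟩ := hZ.inv
  have e : ((n : ℝ) - n') = Q := by exact_mod_cast hn
  have hA : ∀ s, DecOn (κ + 2 * Q * sc (s, NUP1.Bd.Ob.A)) (Set.Icc (51 / 100 * l) l) (Z s none) :=
    fun s => hZ.dec s none
  have hD : DecQ6 Z par6 κ κh ((n : ℝ) - n') := by
    rw [e]
    refine ⟨hκ, k1, fun s => ?_, fun s => ?_, fun s => ?_, hZ.S, hH⟩
    · refine DecOn.mono (hA s) (Set.Icc_subset_Icc ?_ le_rfl)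
      show 51 / 100 * l ≤ (1 - 7 / 16) * l
      linarith
    · refine DecOn.mono (hZ.dec s (some .L)) ?_
      rw [Set.singleton_subset_iff]
      refine ⟨?_, le_rfl⟩
      show -(5 / 4 * l) ≤ (1 - 129 / 64) * l
      linarith
    · refine DecOn.mono (hZ.dec s (some .T)) ?_
      rw [Set.singleton_subset_iff]
      constructor
      · show -(1 / 2 * l) ≤ -(l / 2)
        linarith
      · show -(l / 2) ≤ -(1 / 2 * l)
        linarith
  have hw := h Z par6 κ κh del n n' par6_good Pool.Agent.PLX.hI6_par6 hZ.m hD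
    (by rw [e]; exact hA) d0 ⟨fun s u h1 h2 => hZ.dif s none u ⟨h1, h2⟩, hF, hN⟩
  have key := ZobjQ_FF6 (ln := lnK par6) (x0 := 51 / 100 * l) (N := 2 * (n + n')) (Q := Q)
    par6_good hZ.m hD hZ.q hS hn (η := η) (η' := η')
    (fun r hr => Filter.Eventually.of_forall fun O => hη r hr O) le_rfl hw
  have e1 : (fun (p p' : ℕ) (k : Fin p → O3) (_ : Fin p' → O3) (i : Fin p) => lnK par6 (k i)) =
      lX6 par6 := by
    funext p p' k k' i
    show lnK par6 (k i) = lnP par6 (k i)
    cases k i
    · rfl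
    · rfl
    · show -(l / 2) = -(1 / 2 * l)
      ring
  have e2 : (fun (p p' : ℕ) (_ : Fin p → O3) (k' : Fin p' → O3) (i : Fin p') => lnK par6 (k' i)) =
      lY6 par6 := by
    funext p p' k k' i
    show lnK par6 (k' i) = lnP par6 (k' i)
    cases k' i
    · rfl
    · rfl
    · show -(l / 2) = -(1 / 2 * l)
      ring
  rw [e1, e2] at key
  exact key

end PBI.PLX

end
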