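import Pool.Agent.PHK.LnMove
import Pool.Agent.NURow.PinK
import Pool.Agent.NURow.Cls

/-!
# The classes of the two half quanta on the lines of (P)

* `loV`, `hiV` : strips: quanta A in `[51/100 l, 3/5 l]`, L in `[-5/4 l, -101/100 l]`, S in
  `[-29/20 l, -5/4 l]`, T on `-l/2`;
* `FmV` : one body functions on the strips, `FmV.x1` : with a spectator;
* `SpV b cw S` : the spectators of a half quantum on the line `b`; `spV_W`, `spV_F`, `spV_P`, `spV_H`,
  `spV_D`;
* **`CD.val_lines`**, **`CD1.val_lines`** : the integral of a class does not change from the landed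
  lines to lines in the strips with the quanta on `51/100 l`; **`cF_lines`** : the final classes.
-/

set_option autoImplicit false
set_option linter.unusedSectionVars false
set_option linter.unreachableTactic false
set_option linter.unusedTactic false
set_option linter.unusedVariables false

noncomputable section

open Complex MeasureTheory

namespace PHK

open NUP1 NUP1S NUP1.Bd NUP1.Leg NURow

/-- left ends of the strips -/
def loV : Option O3 → ℝ
  | none => 51 / 100 * l
  | some .L => -(5 / 4) * l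
  | some .S => -(29 / 20) * l
  | some .T => -(1 / 2) * l

/-- right ends of the strips -/
def hiV : Option O3 → ℝ
  | none => 3 / 5 * l
  | some .L => -(101 / 100) * l
  | some .S => -(5 / 4) * l
  | some .T => -(1 / 2) * l

/-- one body functions analytic on the strips, total charge `Q` -/
structure FmV (κ Q : ℝ) (X : Sp) : Prop where
  meas : ∀ c k, Measurable (X c k)
  dec : ∀ c k, DecOn (κ + 2 * Q * sc4 c k) (Set.Icc (loV k) (hiV k)) (X c k)
  diff : ∀ c k (z : ℂ), z.re ∈ Set.Icc (loV k) (hiV k) → DifferentiableAt ℂ (X c k) z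

/-- the spectators of a half quantum of charge `cw` on the line `b` -/
structure SpV (b cw : ℝ) (S : Sp) : Prop where
  ms : ∀ c k, Measurable (S c k)
  pb : ∀ c k, NURow.PB (2 * (cw * sc4 c k)) (Set.Icc (b - hiV k) (b - loV k)) (S c k)

/-- the factor of a fixed spectator -/
theorem FmV.x1 {κ Q b cw : ℝ} {X S : Sp} (h : FmV κ Q X) (v : SpV b cw S) {w : ℂ} (hw : w.re = b) :
    FmV κ (Q - cw) (X1 X S w) where
  meas c k := (h.meas c k).mul ((v.ms c k).comp (measurable_const.sub measurable_id))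
  dec c k := by
    have h1 := NURow.DecOn.one (h.dec c k) (v.pb c k).1 w fun x hx => by
      rw [hw]
      exact ⟨by linarith [hx.2], by linarith [hx.1]⟩
    rw [show κ + 2 * (Q - cw) * sc4 c k = κ + 2 * Q * sc4 c k - 2 * (cw * sc4 c k) by ring]
    exact h1
  diff c k z hz := by
    refine (h.diff c k z hz).mul ?_
    have h1 := (v.pb c k).2 (w - z) (by
      rw [sub_re, hw]
      exact ⟨by linarith [hz.2], by linarith [hz.1]⟩)
    exact DifferentiableAt.comp z h1 ((differentiableAt_const w).sub differentiableAt_id)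

theorem lo4_V (k : Option O3) :
    lo4 (51 / 100 * l) (-(5 / 4) * l) (-(29 / 20) * l) (-(1 / 2) * l) k = loV k := by
  rcases k with _ | (_ | _ | _) <;> rfl

theorem hi4_V (k : Option O3) :
    lo4 (3 / 5 * l) (-(101 / 100) * l) (-(5 / 4) * l) (-(1 / 2) * l) k = hiV k := by
  rcases k with _ | (_ | _ | _) <;> rfl

/-- the families of the strips -/
theorem FmV.fam {κ Q : ℝ} {X : Sp} (h : FmV κ Q X) (c : Bool) :
    FamB c (51 / 100 * l) (3 / 5 * l) (-(5 / 4) * l) (-(101 / 100) * l) (-(29 / 20) * l)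
      (-(5 / 4) * l) (-(1 / 2) * l) (-(1 / 2) * l) κ Q (X c) where
  meas k := h.meas c k
  dec k := by
    rw [lo4_V, hi4_V]
    exact h.dec c k
  diff k z hz := h.diff c k z (by rwa [lo4_V, hi4_V] at hz)

theorem FamB.monoV {c : Bool} {al ah bl bh sl sh tl th al' ah' bl' bh' sl' sh' tl' th' κ Q : ℝ}
    {X : Option O3 → ℂ → ℂ} (h : FamB c al ah bl bh sl sh tl th κ Q X)
    (h1 : al ≤ al') (h2 : ah' ≤ ah) (h3 : bl ≤ bl') (h4 : bh' ≤ bh) (h5 : sl ≤ sl')
    (h6 : sh' ≤ sh) (h7 : tl ≤ tl') (h8 : th' ≤ th) :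
    FamB c al' ah' bl' bh' sl' sh' tl' th' κ Q X := by
  have hsub : ∀ k, Set.Icc (lo4 al' bl' sl' tl' k) (lo4 ah' bh' sh' th' k) ⊆
      Set.Icc (lo4 al bl sl tl k) (lo4 ah bh sh th k) := by
    intro k
    rcases k with _ | (_ | _ | _)
    · exact Set.Icc_subset_Icc h1 h2
    · exact Set.Icc_subset_Icc h3 h4
    · exact Set.Icc_subset_Icc h5 h6
    · exact Set.Icc_subset_Icc h7 h8
  exact ⟨h.meas, fun k => (h.dec k).mono (hsub k), fun k z hz => h.diff k z (hsub k hz)⟩

theorem stripsV1 : StripsB (51 / 100 * l) (3 / 5 * l) (-(5 / 4) * l) (-(5 / 4) * l) (-(11 / 8) * l)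
    (-(5 / 4) * l) (-(1 / 2) * l) (-(1 / 2) * l) (-(11 / 8) * l) (-(1 / 2) * l) := by
  have hl := Bd.l_pos
  constructor <;> linarith

theorem stripsV2 : StripsB (51 / 100 * l) (51 / 100 * l) (-(5 / 4) * l) (-(101 / 100) * l)
    (-(29 / 20) * l) (-(5 / 4) * l) (-(1 / 2) * l) (-(1 / 2) * l) (-(29 / 20) * l) (-(1 / 2) * l) := by
  have hl := Bd.l_pos
  constructor <;> linarith

/-- **the lines of a joint integral are moved** -/
theorem ZobjQ_V {κ : ℝ} (hκ : 0 < κ) {n n' : ℕ} {X : Sp} (h : FmV κ ((n : ℝ) - n') X)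
    {lnX lnX' : ∀ p p' : ℕ, (Fin p → O3) → (Fin p' → O3) → Fin p → ℝ}
    {lnY lnY' : ∀ p p' : ℕ, (Fin p → O3) → (Fin p' → O3) → Fin p' → ℝ}
    (L : LnA loP hiP lnX lnY)
    (LX : ∀ p p' k k' i, lnX' p p' k k' i ∈ Set.Icc (loV (some (k i))) (hiV (some (k i))))
    (LY : ∀ p p' k k' i, lnY' p p' k k' i ∈ Set.Icc (loV (some (k' i))) (hiV (some (k' i)))) :
    ZobjQ (X true) (X false) (3 / 5 * l) n n' lnX lnY =
      ZobjQ (X true) (X false) (51 / 100 * l) n n' lnX' lnY' := by
  have hl := Bd.l_pos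
  have m1 : ∀ (k : O3) (x : ℝ), x ∈ Set.Icc (loP (some k)) (hiP (some k)) → x ∈ Set.Icc
      (lo4 (51 / 100 * l) (-(5 / 4) * l) (-(11 / 8) * l) (-(1 / 2) * l) (some k))
      (lo4 (3 / 5 * l) (-(5 / 4) * l) (-(5 / 4) * l) (-(1 / 2) * l) (some k)) := by
    intro k x hx
    cases k <;> exact hx
  have m2 : ∀ (k : O3) (x : ℝ), x ∈ Set.Icc (loP (some k)) (hiP (some k)) → x ∈ Set.Icc
      (lo4 (51 / 100 * l) (-(5 / 4) * l) (-(29 / 20) * l) (-(1 / 2) * l) (some k))
      (lo4 (51 / 100 * l) (-(101 / 100) * l) (-(5 / 4) * l) (-(1 / 2) * l) (some k)) := by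
    intro k x hx
    cases k
    · exact ⟨hx.1, hx.2.trans (by show -(5 / 4) * l ≤ -(101 / 100) * l; linarith)⟩
    · exact ⟨(show -(29 / 20) * l ≤ -(11 / 8) * l by linarith).trans hx.1, hx.2⟩
    · exact hx
  have m3 : ∀ (k : O3) (x : ℝ), x ∈ Set.Icc (loV (some k)) (hiV (some k)) → x ∈ Set.Icc
      (lo4 (51 / 100 * l) (-(5 / 4) * l) (-(29 / 20) * l) (-(1 / 2) * l) (some k))
      (lo4 (51 / 100 * l) (-(101 / 100) * l) (-(5 / 4) * l) (-(1 / 2) * l) (some k)) := by
    intro k x hx
    cases k <;> exact hx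
  rw [ZobjQ_move stripsV1 hκ
    ((h.fam true).monoV le_rfl le_rfl le_rfl (by linarith) (by linarith) le_rfl le_rfl le_rfl)
    ((h.fam false).monoV le_rfl le_rfl le_rfl (by linarith) (by linarith) le_rfl le_rfl le_rfl)
    (α := 3 / 5 * l) (α' := 51 / 100 * l) ⟨by linarith, le_rfl⟩ ⟨le_rfl, by linarith⟩ lnX lnX lnY lnY
    (fun p p' k k' i => m1 _ _ (L.hX p p' k k' i)) (fun p p' k k' i => m1 _ _ (L.hX p p' k k' i))
    (fun p p' k k' i => m1 _ _ (L.hY p p' k k' i)) (fun p p' k k' i => m1 _ _ (L.hY p p' k k' i))]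
  exact ZobjQ_move stripsV2 hκ
    ((h.fam true).monoV le_rfl (by linarith) le_rfl le_rfl le_rfl le_rfl le_rfl le_rfl)
    ((h.fam false).monoV le_rfl (by linarith) le_rfl le_rfl le_rfl le_rfl le_rfl le_rfl)
    (α := 51 / 100 * l) (α' := 51 / 100 * l) ⟨le_rfl, le_rfl⟩ ⟨le_rfl, le_rfl⟩ lnX lnX' lnY lnY'
    (fun p p' k k' i => m2 _ _ (L.hX p p' k k' i)) (fun p p' k k' i => m3 _ _ (LX p p' k k' i))
    (fun p p' k k' i => m2 _ _ (L.hY p p' k k' i)) (fun p p' k k' i => m3 _ _ (LY p p' k k' i))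

/-! ## the spectators -/

theorem spV_of_SF {b : ℝ} (h : ∀ c k, NURow.PB (sc (c, ob4 k)) (Set.Icc (b - hiV k) (b - loV k)) (SF c k)) :
    SpV b (1 / 2) SF where
  ms := measurable_SF
  pb c k := (h c k).rate (by rw [show sc4 c k = sc (c, ob4 k) from rfl]; ring)

/-- **alone, right line** -/
theorem spV_W : SpV (5 / 4 * l) (1 / 2) SF := by
  have hl := Bd.l_pos
  refine spV_of_SF fun c k => ?_
  refine PB_SF_of isCompact_Icc c k (fun _ hk d hd => ?_) (fun _ hk d hd => ?_)
    (fun hc hk d hd => ?_)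
  all_goals
    rcases hk with rfl | rfl <;> obtain ⟨h1, h2⟩ := hd <;> simp only [hiV, loV] at h1 h2
  all_goals
    try constructor
  all_goals
    first
      | exact sin_ne_pos (by linarith) (by linarith)
      | exact sin_ne_neg (by linarith) (by linarith)

/-- **alone, left line** -/
theorem spV_F : SpV (-(11 / 4) * l) (1 / 2) SF := by
  have hl := Bd.l_pos
  refine spV_of_SF fun c k => ?_
  refine PB_SF_of isCompact_Icc c k (fun _ hk d hd => ?_) (fun _ hk d hd => ?_)
    (fun hc hk d hd => ?_)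
  all_goals
    rcases hk with rfl | rfl <;> obtain ⟨h1, h2⟩ := hd <;> simp only [hiV, loV] at h1 h2
  all_goals
    try constructor
  all_goals
    first
      | exact sin_ne_mul (Or.inl ⟨by linarith, by linarith⟩)
      | exact sin_ne_mul (Or.inr ⟨by linarith, by linarith⟩)
      | exact sin_ne_pos (by linarith) (by linarith)
      | exact sin_ne_neg (by linarith) (by linarith)

theorem PB_SP_V (c : Bool) (k : Option O3) :
    NURow.PB (-sc (c, ob4 k)) (Set.Icc (-(11 / 4) * l - hiV k) (-(11 / 4) * l - loV k)) (SP c k) := by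
  have hl := Bd.l_pos
  have key : ∀ k : Option O3, k = none ∨ k = some .L →
      NURow.PB (-1) (Set.Icc (-(11 / 4) * l - hiV k) (-(11 / 4) * l - loV k)) CP ∧
      NURow.PB 1 (Set.Icc (-(11 / 4) * l - hiV k) (-(11 / 4) * l - loV k)) DP := by
    intro k hk
    constructor
    · have a1 : NURow.PB 1 (Set.Icc (-(11 / 4) * l - hiV k) (-(11 / 4) * l - loV k)) Ck := by
        refine PB_Ck isCompact_Icc fun d hd => ?_
        rcases hk with rfl | rfl <;> obtain ⟨h1, h2⟩ := hd <;> simp only [hiV, loV] at h1 h2 <;> (first | exact sin_ne_mul (Or.inl ⟨by linarith, by linarith⟩) | exact sin_ne_mul (Or.inr ⟨by linarith, by linarith⟩) | exact sin_ne_pos (by linarith) (by linarith) | exact sin_ne_neg (by linarith) (by linarith))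
      have a2 : NURow.PB (-2) (Set.Icc (-(11 / 4) * l - hiV k + 3 * l) (-(11 / 4) * l - loV k + 3 * l)) qg := by
        refine PB_qg isCompact_Icc (fun d hd => ?_) fun d hd => ?_
        all_goals
          rcases hk with rfl | rfl <;> obtain ⟨h1, h2⟩ := hd <;> simp only [hiV, loV] at h1 h2 <;> (first | exact sin_ne_mul (Or.inl ⟨by linarith, by linarith⟩) | exact sin_ne_mul (Or.inr ⟨by linarith, by linarith⟩) | exact sin_ne_pos (by linarith) (by linarith) | exact sin_ne_neg (by linarith) (by linarith))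
      have a3 := a2.shift (K := Set.Icc (-(11 / 4) * l - hiV k) (-(11 / 4) * l - loV k)) (3 * l)
        fun x hx => ⟨by linarith [hx.1], by linarith [hx.2]⟩
      refine ((a1.mul a3).rate (by norm_num)).congr' fun z => ?_
      unfold CP
      push_cast
      rfl
    · have a2 : NURow.PB 1 (Set.Icc (-(-(11 / 4) * l - loV k) - 3 * l) (-(-(11 / 4) * l - hiV k) - 3 * l)) Ck := by
        refine PB_Ck isCompact_Icc fun d hd => ?_
        rcases hk with rfl | rfl <;> obtain ⟨h1, h2⟩ := hd <;> simp only [hiV, loV] at h1 h2 <;> (first | exact sin_ne_mul (Or.inl ⟨by linarith, by linarith⟩) | exact sin_ne_mul (Or.inr ⟨by linarith, by linarith⟩) | exact sin_ne_pos (by linarith) (by linarith) | exact sin_ne_neg (by linarith) (by linarith))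
      refine (a2.refl (3 * l) fun x hx => ⟨by linarith [hx.2], by linarith [hx.1]⟩).congr' fun z => ?_
      unfold DP
      push_cast
      rfl
  have key2 : ∀ k : Option O3, k = some .S ∨ k = some .T →
      NURow.PB (-2) (Set.Icc (-(11 / 4) * l - hiV k) (-(11 / 4) * l - loV k)) CCP ∧
      NURow.PB 2 (Set.Icc (-(11 / 4) * l - hiV k) (-(11 / 4) * l - loV k)) DDP := by
    intro k hk
    constructor
    · have a2 : NURow.PB (-4) (Set.Icc (-(-(11 / 4) * l - loV k) - 3 * l) (-(-(11 / 4) * l - hiV k) - 3 * l))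
          QQ := by
        refine PB_QQ isCompact_Icc (fun d hd => ?_) fun d hd => ?_
        all_goals
          rcases hk with rfl | rfl <;> obtain ⟨h1, h2⟩ := hd <;> simp only [hiV, loV] at h1 h2 <;> (first | exact sin_ne_mul (Or.inl ⟨by linarith, by linarith⟩) | exact sin_ne_mul (Or.inr ⟨by linarith, by linarith⟩) | exact sin_ne_pos (by linarith) (by linarith) | exact sin_ne_neg (by linarith) (by linarith))
      have a3 := a2.refl (K := Set.Icc (-(11 / 4) * l - hiV k) (-(11 / 4) * l - loV k)) (3 * l)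
        fun x hx => ⟨by linarith [hx.2], by linarith [hx.1]⟩
      refine (((PB_CC _).mul a3).rate (by norm_num)).congr' fun z => ?_
      unfold CCP
      push_cast
      rfl
    · refine ((PB_C2 (Set.Icc (-(-(11 / 4) * l - loV k) - 3 * l)
        (-(-(11 / 4) * l - hiV k) - 3 * l))).refl (3 * l) fun x hx =>
        ⟨by linarith [hx.2], by linarith [hx.1]⟩).congr' fun z => ?_
      unfold DDP
      push_cast
      rfl
  rcases c with _ | _
  · rcases k with _ | (_ | _ | _)
    · exact (key none (Or.inl rfl)).2.rate (by simp [sc, chg, ob4])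
    · exact (key _ (Or.inr rfl)).2.rate (by simp [sc, chg, ob4, ob3])
    · exact (key2 _ (Or.inl rfl)).2.rate (by simp [sc, chg, ob4, ob3])
    · exact (key2 _ (Or.inr rfl)).2.rate (by simp [sc, chg, ob4, ob3])
  · rcases k with _ | (_ | _ | _)
    · exact (key none (Or.inl rfl)).1.rate (by simp [sc, chg, ob4])
    · exact (key _ (Or.inr rfl)).1.rate (by simp [sc, chg, ob4, ob3])
    · exact (key2 _ (Or.inl rfl)).1.rate (by simp [sc, chg, ob4, ob3])
    · exact (key2 _ (Or.inr rfl)).1.rate (by simp [sc, chg, ob4, ob3])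

/-- **left line, with a captured quantum** -/
theorem spV_P : SpV (-(11 / 4) * l) (-1 / 2) SP where
  ms := measurable_SP
  pb c k := (PB_SP_V c k).rate (by rw [show sc4 c k = sc (c, ob4 k) from rfl]; ring)

/-- **bound to a string** -/
theorem spV_H : SpV (5 / 8 * l) (-3 / 2) (hostS false SF) where
  ms := measurable_SH
  pb c k := by
    have hl := Bd.l_pos
    refine (PB_SH (K := Set.Icc (5 / 8 * l - hiV k) (5 / 8 * l - loV k)) isCompact_Icc
      (fun d hd => ?_) c k).rate (by rw [show sc4 c k = sc (c, ob4 k) from rfl]; ring)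
    obtain ⟨h1, h2⟩ := hd
    rcases k with _ | (_ | _ | _) <;> simp only [hiV, loV] at h1 h2 <;>
      exact ⟨by linarith, by linarith, fun h3 => by linarith⟩

/-- **two half quanta at distance `3 l`** -/
theorem spV_D : SpV (-(11 / 4) * l) 0 SD where
  ms c k := by
    cases c
    · rcases k with _ | (_ | _ | _)
      · show Measurable Tk; unfold Tk; fun_prop
      · show Measurable Tk; unfold Tk; fun_prop
      · show Measurable TTk; unfold TTk; fun_prop
      · show Measurable TTk; unfold TTk; fun_prop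
    · rcases k with _ | (_ | _ | _) <;> exact measurable_const
  pb c k := by
    have hl := Bd.l_pos
    have h1 : ∀ K : Set ℝ, NURow.PB 0 K fun _ : ℂ => (1 : ℂ) := fun K =>
      ⟨⟨1, zero_le_one, fun z _ => by simp⟩, fun z _ => differentiableAt_const _⟩
    cases c
    · have t1 : ∀ k : Option O3, k = none ∨ k = some .L →
          NURow.PB 0 (Set.Icc (-(11 / 4) * l - hiV k) (-(11 / 4) * l - loV k)) Tk := by
        intro k hk
        refine PB_Tk isCompact_Icc (fun d hd => ?_) fun d hd => ?_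
        all_goals
          rcases hk with rfl | rfl <;> obtain ⟨h1, h2⟩ := hd <;> simp only [hiV, loV] at h1 h2 <;> (first | exact sin_ne_mul (Or.inl ⟨by linarith, by linarith⟩) | exact sin_ne_mul (Or.inr ⟨by linarith, by linarith⟩) | exact sin_ne_pos (by linarith) (by linarith) | exact sin_ne_neg (by linarith) (by linarith))
      have t2 : ∀ k : Option O3, k = some .S ∨ k = some .T →
          NURow.PB 0 (Set.Icc (-(11 / 4) * l - hiV k) (-(11 / 4) * l - loV k)) TTk := by
        intro k hk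
        refine PB_TTk isCompact_Icc (fun d hd => ?_) fun d hd => ?_
        all_goals
          rcases hk with rfl | rfl <;> obtain ⟨h1, h2⟩ := hd <;> simp only [hiV, loV] at h1 h2 <;> (first | exact sin_ne_mul (Or.inl ⟨by linarith, by linarith⟩) | exact sin_ne_mul (Or.inr ⟨by linarith, by linarith⟩) | exact sin_ne_pos (by linarith) (by linarith) | exact sin_ne_neg (by linarith) (by linarith))
      rcases k with _ | (_ | _ | _)
      · exact (t1 none (Or.inl rfl)).rate (by ring)
      · exact (t1 _ (Or.inr rfl)).rate (by ring)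
      · exact (t2 _ (Or.inl rfl)).rate (by ring)
      · exact (t2 _ (Or.inr rfl)).rate (by ring)
    · rcases k with _ | (_ | _ | _) <;> exact (h1 _).rate (by ring)

/-- no spectator -/
theorem spV_one (b : ℝ) : SpV b 0 fun _ _ _ => 1 where
  ms _ _ := measurable_const
  pb c k := ⟨⟨1, zero_le_one, fun z _ => by simp⟩, fun z _ => differentiableAt_const _⟩

/-- the species exchanged -/
theorem SpV.flip {b cw : ℝ} {S : Sp} (v : SpV b cw S) : SpV b (-cw) (fl S) where
  ms c k := v.ms (!c) k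
  pb c k := (v.pb (!c) k).rate (by
    rw [sc4_not]
    ring)

/-! ## the classes -/

section cls

variable {κ Q cw cw' : ℝ} {X Y : Option O3 → ℂ → ℂ} {n n' : ℕ}
  {lnX lnX' : ∀ p p' : ℕ, (Fin p → O3) → (Fin p' → O3) → Fin p → ℝ}
  {lnY lnY' : ∀ p p' : ℕ, (Fin p → O3) → (Fin p' → O3) → Fin p' → ℝ}

/-- one class, fixed half quanta -/
theorem CD.Z_lines (hκ : 0 < κ) (hF : FmV κ Q (XB X Y)) {c : CD} (v : SpV c.a cw c.S)
    (v' : SpV c.b cw' c.S')
    (hQ : c.dX ≤ n → c.dY ≤ n' →
      cw + cw' + (((n - c.dX : ℕ) : ℝ) - ((n' - c.dY : ℕ) : ℝ)) = Q)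
    (L : LnA loP hiP lnX lnY)
    (LX : ∀ p p' k k' i, lnX' p p' k k' i ∈ Set.Icc (loV (some (k i))) (hiV (some (k i))))
    (LY : ∀ p p' k k' i, lnY' p p' k k' i ∈ Set.Icc (loV (some (k' i))) (hiV (some (k' i))))
    {w w' : ℂ} (hw : w.re = c.a) (hw' : w'.re = c.b) :
    c.Z X Y (3 / 5 * l) n n' lnX lnY w w' = c.Z X Y (51 / 100 * l) n n' lnX' lnY' w w' := by
  unfold CD.Z
  split_ifs with h
  · have h1 := (hF.x1 v hw).x1 v' hw'
    have e1 : X1 (X1 (XB X Y) c.S w) c.S' w' true = XS true X c.S c.S' w w' := by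
      funext k z
      show X k z * c.S true k (w - z) * c.S' true k (w' - z) = X k z * (_ * _)
      ring
    have e2 : X1 (X1 (XB X Y) c.S w) c.S' w' false = XS false Y c.S c.S' w w' := by
      funext k z
      show Y k z * c.S false k (w - z) * c.S' false k (w' - z) = Y k z * (_ * _)
      ring
    have h2 : Q - cw - cw' = ((n - c.dX : ℕ) : ℝ) - ((n' - c.dY : ℕ) : ℝ) := by
      have := hQ h.1 h.2
      linarith
    rw [h2] at h1
    have h3 := ZobjQ_V hκ h1 L LX LY
    rw [e1, e2] at h3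
    exact h3
  · rfl

/-- **one class on other lines** -/
theorem CD.val_lines (hκ : 0 < κ) (hF : FmV κ Q (XB X Y)) {c : CD} (v : SpV c.a cw c.S)
    (v' : SpV c.b cw' c.S')
    (hQ : c.dX ≤ n → c.dY ≤ n' →
      cw + cw' + (((n - c.dX : ℕ) : ℝ) - ((n' - c.dY : ℕ) : ℝ)) = Q)
    (L : LnA loP hiP lnX lnY)
    (LX : ∀ p p' k k' i, lnX' p p' k k' i ∈ Set.Icc (loV (some (k i))) (hiV (some (k i))))
    (LY : ∀ p p' k k' i, lnY' p p' k k' i ∈ Set.Icc (loV (some (k' i))) (hiV (some (k' i)))) :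
    c.val X Y (3 / 5 * l) n n' lnX lnY = c.val X Y (51 / 100 * l) n n' lnX' lnY' := by
  unfold CD.val
  refine integral_congr_ae (Filter.Eventually.of_forall fun y => ?_)
  simp only []
  rw [CD.Z_lines hκ hF v v' hQ L LX LY (NUP1.vlre _ _) (NUP1.vlre _ _)]

/-- one class with one line, fixed half quantum -/
theorem CD1.Z_lines (hκ : 0 < κ) (hF : FmV κ Q (XB X Y)) {c : CD1} (v : SpV c.a 0 c.S)
    (hQ : ((n : ℝ) - n') = Q) (L : LnA loP hiP lnX lnY)
    (LX : ∀ p p' k k' i, lnX' p p' k k' i ∈ Set.Icc (loV (some (k i))) (hiV (some (k i))))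
    (LY : ∀ p p' k k' i, lnY' p p' k k' i ∈ Set.Icc (loV (some (k' i))) (hiV (some (k' i))))
    {w : ℂ} (hw : w.re = c.a) :
    c.Z X Y (3 / 5 * l) n n' lnX lnY w = c.Z X Y (51 / 100 * l) n n' lnX' lnY' w := by
  unfold CD1.Z
  have h1 := (hF.x1 v hw).x1 (spV_one 0) (w := 0) Complex.zero_re
  have e1 : X1 (X1 (XB X Y) c.S w) (fun _ _ _ => 1) 0 true =
      XS true X c.S (fun _ _ _ => 1) w 0 := by
    funext k z
    show X k z * c.S true k (w - z) * 1 = X k z * (_ * 1)
    ring
  have e2 : X1 (X1 (XB X Y) c.S w) (fun _ _ _ => 1) 0 false =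
      XS false Y c.S (fun _ _ _ => 1) w 0 := by
    funext k z
    show Y k z * c.S false k (w - z) * 1 = Y k z * (_ * 1)
    ring
  rw [show Q - 0 - 0 = (n : ℝ) - n' by linarith] at h1
  have h3 := ZobjQ_V hκ h1 L LX LY
  rw [e1, e2] at h3
  exact h3

/-- **one class with one line on other lines** -/
theorem CD1.val_lines (hκ : 0 < κ) (hF : FmV κ Q (XB X Y)) {c : CD1} (v : SpV c.a 0 c.S)
    (hQ : ((n : ℝ) - n') = Q) (L : LnA loP hiP lnX lnY)
    (LX : ∀ p p' k k' i, lnX' p p' k k' i ∈ Set.Icc (loV (some (k i))) (hiV (some (k i))))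
    (LY : ∀ p p' k k' i, lnY' p p' k k' i ∈ Set.Icc (loV (some (k' i))) (hiV (some (k' i)))) :
    c.val X Y (3 / 5 * l) n n' lnX lnY = c.val X Y (51 / 100 * l) n n' lnX' lnY' := by
  unfold CD1.val
  refine integral_congr_ae (Filter.Eventually.of_forall fun y => ?_)
  simp only []
  rw [CD1.Z_lines hκ hF v hQ L LX LY (NUP1.vlre _ _)]

/-- charge of a half quantum of type `t` -/
def cwT : HT → ℝ
  | .W => 1 / 2
  | .F => 1 / 2
  | .P => -1 / 2
  | .H => -3 / 2

/-- final line -/
def lnT : HT → ℝ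
  | .W => 5 / 4 * l
  | .F => -(11 / 4) * l
  | .P => -(11 / 4) * l
  | .H => 5 / 8 * l

/-- final spectators -/
def spT : HT → Sp
  | .W => SF
  | .F => SF
  | .P => SP
  | .H => hostS false SF

theorem spV_T (t : HT) : SpV (lnT t) (cwT t) (spT t) := by
  cases t
  · exact spV_W
  · exact spV_F
  · exact spV_P
  · exact spV_H

variable {kF kP kF' kP' : ℂ → ℂ}

theorem cF_S (t t' : HT) : (cF X Y kF kP kF' kP' t t').S = spT t := by
  cases t <;> cases t' <;> rfl

theorem cF_S' (t t' : HT) : (cF X Y kF kP kF' kP' t t').S' = fl (spT t') := by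
  cases t <;> cases t' <;> first | rfl | exact hostS_true _

theorem cF_a (t t' : HT) : (cF X Y kF kP kF' kP' t t').a = lnT t := by
  cases t <;> cases t' <;> rfl

theorem cF_b (t t' : HT) : (cF X Y kF kP kF' kP' t t').b = lnT t' := by
  cases t <;> cases t' <;> rfl

/-- quanta of the other species which belong to a half quantum -/
def nqT : HT → ℕ
  | .W => 0
  | .F => 0
  | .P => 1
  | .H => 2

theorem cF_dX (t t' : HT) : (cF X Y kF kP kF' kP' t t').dX = nqT t' := by
  cases t <;> cases t' <;> rfl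

theorem cF_dY (t t' : HT) : (cF X Y kF kP kF' kP' t t').dY = nqT t := by
  cases t <;> cases t' <;> rfl

theorem cwT_eq (t : HT) : cwT t = 1 / 2 - nqT t := by
  cases t <;> simp [cwT, nqT] <;> norm_num

/-- **the final classes on the lines of (P)** -/
theorem cF_lines (hκ : 0 < κ) (hF : FmV κ Q (XB X Y)) (hQ : (n : ℝ) - n' = Q) (t t' : HT)
    (L : LnA loP hiP lnX lnY)
    (LX : ∀ p p' k k' i, lnX' p p' k k' i ∈ Set.Icc (loV (some (k i))) (hiV (some (k i))))
    (LY : ∀ p p' k k' i, lnY' p p' k k' i ∈ Set.Icc (loV (some (k' i))) (hiV (some (k' i)))) :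
    (cF X Y kF kP kF' kP' t t').val X Y (3 / 5 * l) n n' lnX lnY =
      (cF X Y kF kP kF' kP' t t').val X Y (51 / 100 * l) n n' lnX' lnY' := by
  refine CD.val_lines (cw := cwT t) (cw' := -cwT t') hκ hF ?_ ?_ (fun h1 h2 => ?_) L LX LY
  · rw [cF_S, cF_a]
    exact spV_T t
  · rw [cF_S', cF_b]
    exact (spV_T t').flip
  · rw [cF_dX] at h1 ⊢
    rw [cF_dY] at h2 ⊢
    rw [Nat.cast_sub h1, Nat.cast_sub h2, cwT_eq, cwT_eq]
    linarith

end cls

end PHK

end
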