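import Pool.Agent.PHK.K06
import Pool.Agent.PHK.RgMv

/-!
# (P): the classes D1, D1' as functionals

* `PB_Tk_inv`: the inverse of the spectator of D1; `sD_q`, `sD_qi`, `sD_k`: the spectator on the strips;
* `oneC6_D`, `dec6_D`, `inv6_D`, **`D_FF6`**: the classes D1, D1' over any base, from `FFth`;
* **`clsD06`**: rows `0`, every height.
-/

set_option autoImplicit false
set_option linter.unusedSectionVars false

noncomputable section

open Complex MeasureTheory Finset
open scoped ENNReal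
open PLX (Fil Ends)

namespace PBR.PLX

open NUO NUP1 NUCR NUP1S NUP1S.Ab NUP1S.AbC NUP1S.AbG NURow NUGC.PLX PBX PBX.PLX
open PBF.PLX (Ins Crs)
open _root_.Pool.Agent.PLX
open PHK

/-- the inverse of the spectator of the other species -/
theorem PB_Tk_inv {K : Set ℝ} (hK : IsCompact K) (h1 : ∀ d ∈ K, Real.sin (d + -l) ≠ 0)
    (h2 : ∀ d ∈ K, Real.sin (d + 2 * l) ≠ 0) : PB 0 K fun z => (Tk z)⁻¹ := by
  have h := ((((PB_sin K (-(2 * l))).mul (PB_sin K l)).mul ((PB_inv_sin hK (-l) h1).mul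
    (PB_inv_sin hK (2 * l) h2))).fneg).rate (show (1 : ℝ) + 1 + (-1 + -1) = 0 by norm_num)
  refine h.congr' fun z => ?_
  unfold NURow.Tk
  push_cast
  rw [← sub_eq_add_neg, ← sub_eq_add_neg, show 2 * (l : ℂ) - z = -(z - 2 * l) by ring,
    Complex.sin_neg, inv_div, one_div_mul_one_div, mul_one_div]
  ring

/-- real parts of `w - z` -/
theorem sD_ne {d : ℝ} (h1 : -(19 / 5 * l) ≤ d) (h2 : d ≤ -(103 / 36 * l)) :
    Real.sin (d + l) ≠ 0 ∧ Real.sin (d - 2 * l) ≠ 0 ∧ Real.sin (d + -l) ≠ 0 ∧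
      Real.sin (d + 2 * l) ≠ 0 := by
  have hl := l_pos
  refine ⟨sin_ne_neg (by linarith) (by linarith), ?_, sin_ne_neg (by linarith) (by linarith),
    sin_ne_neg (by linarith) (by linarith)⟩
  exact sin_ne_neg (by linarith) (by linarith)

/-- the spectator of D1 at the quanta -/
theorem sD_q (c : Bool) {w : ℂ} (hw : w.re = -(11 / 4) * l) :
    PB 0 (Set.Icc (1 / 9 * l) (21 / 20 * l)) fun u => SD c none (w - u) := by
  have hl := l_pos
  cases c
  · have h := PB_Tk (K := Set.Icc (-(19 / 5 * l)) (-(103 / 36 * l))) isCompact_Icc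
      (fun d hd => (sD_ne hd.1 hd.2).1) fun d hd => (sD_ne hd.1 hd.2).2.1
    refine h.one w fun x hx => ?_
    rw [hw]
    exact ⟨by linarith [hx.2], by linarith [hx.1]⟩
  · exact PB.oneW _

/-- its inverse -/
theorem sD_qi (c : Bool) {w : ℂ} (hw : w.re = -(11 / 4) * l) :
    PB 0 (Set.Icc (1 / 9 * l) (21 / 20 * l)) fun u => (SD c none (w - u))⁻¹ := by
  have hl := l_pos
  cases c
  · have h := PB_Tk_inv (K := Set.Icc (-(19 / 5 * l)) (-(103 / 36 * l))) isCompact_Icc
      (fun d hd => (sD_ne hd.1 hd.2).2.2.1) fun d hd => (sD_ne hd.1 hd.2).2.2.2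
    refine h.one w fun x hx => ?_
    rw [hw]
    exact ⟨by linarith [hx.2], by linarith [hx.1]⟩
  · refine (PB.oneW _).congr' fun z => ?_
    show (1 : ℂ) = (1 : ℂ)⁻¹
    rw [inv_one]

/-- it has no zero -/
theorem sD_nz (c : Bool) {w u : ℂ} (hw : w.re = -(11 / 4) * l) (h1 : 1 / 9 * l ≤ u.re)
    (h2 : u.re ≤ 21 / 20 * l) : SD c none (w - u) ≠ 0 := by
  have hl := l_pos
  cases c
  · have hre : (w - u).re = -(11 / 4) * l - u.re := by rw [sub_re, hw]
    obtain ⟨g1, g2, g3, g4⟩ := sD_ne (d := (w - u).re) (by rw [hre]; linarith) (by rw [hre]; linarith)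
    have f : ∀ {z : ℂ} {d : ℝ}, z.re = d → Real.sin d ≠ 0 → sin z ≠ 0 := by
      intro z d e h
      refine NUP1.Bd.sin_ne_zero_of_re ?_
      rwa [e]
    show Tk (w - u) ≠ 0
    unfold NURow.Tk
    refine div_ne_zero (mul_ne_zero (f ?_ g3) (f ?_ g4)) (mul_ne_zero ?_ (f ?_ g1))
    · rw [sub_re, ofReal_re]
      ring
    · simp [add_re]
    · rw [← neg_ne_zero, ← Complex.sin_neg]
      refine f ?_ g2
      simp [sub_re]
    · rw [add_re, ofReal_re]
  · exact one_ne_zero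

/-- the spectator of D1 at the objects -/
theorem sD_k (c : Bool) (k : O3) {w : ℂ} (hw : w.re = -(11 / 4) * l) {x : ℝ}
    (h1 : loV (some k) ≤ x) (h2 : x ≤ hiV (some k)) :
    Bdd {x} 0 fun u => SD c (some k) (w - u) := by
  have h := (spV_D.pb c (some k)).one w (K := {x}) fun y hy => by
    rw [hw, Set.mem_singleton_iff.1 hy]
    exact ⟨by linarith, by linarith⟩
  exact (h.rate (s' := 0) (by ring)).1

/-- the class functions of D1, D1' -/
theorem YD6_eq (X : Bool → Option O3 → ℂ → ℂ) (o : Bool) (w : ℂ) (a : Bool) (k : Option O3) (u : ℂ) :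
    YD6 X o w a k u = X a k u * SD (if o = true then a else !a) k (w - u) := by
  cases o
  · show X a k u * (1 * SD (!a) k (w - u)) = X a k u * SD (!a) k (w - u)
    rw [one_mul]
  · show X a k u * (SD a k (w - u) * 1) = X a k u * SD a k (w - u)
    rw [mul_one]

section base

variable {X : Bool → Option O3 → ℂ → ℂ} {ob : (Bool → ℂ → ℝ) → OB} {x κ : ℝ} {e : ℕ} {E0 : Set ℝ}
  {w : ℂ} {Q : ℝ}

/-- **`OneC6` of the classes D1, D1'** on the strip of the quanta from `51/100 l` -/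
theorem oneC6_D {P : Par6} (hB : Bs6 X ob P x κ e E0) (o : Bool) (hw : w.re = -(11 / 4) * l) :
    ∃ (B : OB) (E : Set ℝ), OneC6 (YD6 X o w) B P x κ (51 / 100 * l) (-(e : ℤ)) E := by
  have hl := l_pos
  have hsp : ∀ c : Bool, Bdd (Set.Icc (51 / 100 * l) (21 / 20 * l)) 0 (fun u => SD c none (w - u)) ∧
      ∀ u : ℂ, u.re ∈ Set.Icc (51 / 100 * l) (21 / 20 * l) →
        DifferentiableAt ℂ (fun u => SD c none (w - u)) u := fun c => by
    have h := sD_q c hw
    exact ⟨Bdd.mono_set h.1 (Set.Icc_subset_Icc (by linarith) le_rfl),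
      fun u hu => h.2 u ⟨by linarith [hu.1], hu.2⟩⟩
  cases o
  · have h := hB.one (51 / 100 * l) le_rfl (by linarith) 0
      (sG (fun _ _ _ => 1) SD 0 w) (s2G (fun _ _ _ => 1) SD 0 w) {(0 : ℂ).im, w.im}
      (measurable_sG (lt6_one 0) lt6_SD 0 w) (measurable_s2G (lt6_one 0) lt6_SD 0 w)
      (fun a => by
        have e : sG (fun _ _ _ => 1) SD 0 w a = fun u => SD (!a) none (w - u) := by
          funext u
          simp [sG]
        rw [e]
        exact ⟨(hsp (!a)).1.rate (by simp), (hsp (!a)).2⟩) (specS_two6 (lt6_one 0) lt6_SD)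
      ((Set.toFinite _).measure_zero _)
    rw [spX_two X (lt6_one 0) lt6_SD 0 w, zero_sub] at h
    exact ⟨_, _, h⟩
  · have h := hB.one (51 / 100 * l) le_rfl (by linarith) 0
      (sG SD (fun _ _ _ => 1) w 0) (s2G SD (fun _ _ _ => 1) w 0) {w.im, (0 : ℂ).im}
      (measurable_sG lt6_SD (lt6_one 0) w 0) (measurable_s2G lt6_SD (lt6_one 0) w 0)
      (fun a => by
        have e : sG SD (fun _ _ _ => 1) w 0 a = fun u => SD a none (w - u) := by
          funext u
          simp [sG]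
        rw [e]
        exact ⟨(hsp a).1.rate (by simp), (hsp a).2⟩) (specS_two6 lt6_SD (lt6_one 0))
      ((Set.toFinite _).measure_zero _)
    rw [spX_two X lt6_SD (lt6_one 0) w 0, zero_sub] at h
    exact ⟨_, _, h⟩

/-- **decay of the class functions of D1, D1'** -/
theorem dec6_D (hX : Pool.Agent.PLX.DecZ6 X par6 (51 / 100 * l) κ Q) (o : Bool)
    (hw : w.re = -(11 / 4) * l) : Pool.Agent.PLX.DecZ6 (YD6 X o w) par6 (51 / 100 * l) κ Q := by
  have hl := l_pos
  have e : ∀ s k, YD6 X o w s k = fun u => X s k u * SD (if o = true then s else !s) k (w - u) :=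
    fun s k => funext fun u => YD6_eq X o w s k u
  have L1 : loV (some .L) ≤ (1 - par6.jL) * l ∧ (1 - par6.jL) * l ≤ hiV (some .L) := by
    unfold par6 loV hiV
    constructor <;> norm_num <;> nlinarith
  have T1 : loV (some .T) ≤ -(l / 2) ∧ -(l / 2) ≤ hiV (some .T) := by
    unfold loV hiV
    constructor <;> linarith
  have S1 : loV (some .S) ≤ -((1 + par6.e) * l) ∧ -((1 + par6.e) * l) ≤ hiV (some .S) := by
    unfold par6 loV hiV
    constructor <;> norm_num <;> nlinarith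
  refine ⟨fun s => ?_, fun s => ?_, fun s => ?_, fun s M => ?_⟩
  · rw [e]
    have h := (sD_q (if o = true then s else !s) hw).1
    have h' : Bdd (Set.Icc (51 / 100 * l) l) 0
        (fun u => SD (if o = true then s else !s) none (w - u)) :=
      Bdd.mono_set h (Set.Icc_subset_Icc (by linarith) (by linarith))
    exact DecOn.mulB (hX.A s) h' (by linarith)
  · rw [e]
    exact DecOn.mulB (hX.L s) (sD_k _ .L hw L1.1 L1.2) (by linarith)
  · rw [e]
    exact DecOn.mulB (hX.T s) (sD_k _ .T hw T1.1 T1.2) (by linarith)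
  · rw [e]
    exact DecOn.mulB (hX.S s M) (sD_k _ .S hw S1.1 S1.2) (by linarith)

/-- **inverses of the class functions of D1, D1'** -/
theorem inv6_D (hX : InvZ6 X κ Q) (o : Bool) (hw : w.re = -(11 / 4) * l) :
    InvZ6 (YD6 X o w) κ Q := by
  have hl := l_pos
  have e : ∀ a, (fun u => (YD6 X o w a none u)⁻¹) = fun u =>
      (X a none u)⁻¹ * (SD (if o = true then a else !a) none (w - u))⁻¹ := by
    intro a
    funext u
    rw [YD6_eq, mul_inv]
  refine ⟨fun a u h1 h2 => ?_, fun a => ?_, fun a u h1 h2 => ?_⟩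
  · rw [e a]
    exact (hX.an a u h1 h2).mul ((sD_qi _ hw).2 u ⟨h1.le, by linarith⟩)
  · rw [e a]
    have h2 := Bdd.mono_set (sD_qi (if o = true then a else !a) hw).1
      (K := Set.Icc (1 / 8 * l) (31 / 32 * l)) (Set.Icc_subset_Icc (by linarith) (by linarith))
    exact ((hX.bd a).mul h2).rate (by ring)
  · rw [YD6_eq]
    exact mul_ne_zero (hX.ne a u h1 h2) (sD_nz _ hw (by linarith) (by linarith))

/-- **The classes D1, D1' at a fixed half quantum are functionals without insertion**, any base. -/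
theorem D_FF6 [Fil] (hFF : FFth) (hB : Bs6 X ob par6 x κ e E0) (hκ : κ ≤ 8 / 3)
    (hX : Pool.Agent.PLX.DecZ6 X par6 (51 / 100 * l) κ (-(e : ℝ))) (hI : InvZ6 X κ (-(e : ℝ)))
    (hx0 : 0 < x) (hx1 : x ≤ 1 / 100) (o : Bool) (hw : w.re = -(11 / 4) * l) (n : ℕ)
    {η η' : Crs} (hη : ∀ r ≤ 2 * (n + (n + e)), ∀ᵐ O ∂(Measure.pi fun _ : Fin r => nu),
      CurB x (η r O) (η' r O)) :
    NURow.ZobjQ (YD6 X o w true) (YD6 X o w false) (51 / 100 * l) n (n + e)
      (fun _ _ k _ i => ln6 par6 (k i)) (fun _ _ _ k' i => ln6 par6 (k' i)) =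
      FF6 (YD6 X o w) par6 n (n + e) η η' (fun _ _ _ _ _ => 1) := by
  obtain ⟨B, E, hO⟩ := oneC6_D hB o hw
  exact hFF (YD6 X o w) _ par6 x κ (-(e : ℤ)) _ n (n + e) η η' par6_good hI6_par6 hx0 hx1 hκ hO
    (by push_cast; exact dec6_D hX o hw) (by push_cast; exact inv6_D hI o hw)
    (by push_cast; ring) hη

end base

end PBR.PLX

/-! ### rows `0` -/

namespace PBO.PLX

open NUO NUP1 NUCR NUP1S NUP1S.Ab NUP1S.AbC NUP1S.AbG NURow NUP1.Leg NUGC NUGC.PLX
open PHK
open PBR.PLX (ClsD6 YD6 R06 D_FF6 phI6_R0 RB6_R0 dec6_RU inv6_RU bs6_RU bs6_R0)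
open PBF.PLX (Ins Crs)
open PBTV.PLX (gV6 meas_gV6)
open NUGC.PLX (beC)
open _root_.Pool.Agent.PLX (FFth)

attribute [local instance] NUSea.seaP PLX.ends1

variable [Fil]

/-- the points of the cutoffs of the quanta -/
theorem exI_re : ∀ w ∈ [I, -I], |w.re| ≤ l / 2 := by
  have hl := NUP1.Bd.l_pos
  intro w hw
  simp only [List.mem_cons, List.not_mem_nil, or_false] at hw
  rcases hw with rfl | rfl
  · rw [I_re, abs_zero]
    positivity
  · rw [neg_re, I_re, neg_zero, abs_zero]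
    positivity

theorem exI_im : ∀ w ∈ [I, -I], |w.im| ≤ 1 := by
  intro w hw
  simp only [List.mem_cons, List.not_mem_nil, or_false] at hw
  rcases hw with rfl | rfl
  · simp
  · simp

/-- the modulus of the constants is positive -/
theorem cosl_pos : 0 < 2 * Real.cos l := by
  have hl := l_pos
  have := Real.cos_pos_of_mem_Ioo (x := l) ⟨by linarith [Real.pi_pos],
    by unfold l; linarith [Real.pi_pos]⟩
  positivity

/-- the base of the classes at rows `0` -/
theorem rB06 {ep : ℝ} (h0 : 0 < ep) (h1 : ep ≤ 1 / 100) (m : ℕ) :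
    PBR.PLX.RB6 (D06 ep m) (fun _ => [I, -I]) (2 * Real.cos l) := by
  obtain ⟨b1, b2, b3⟩ := beC_bd6 h0 h1
  exact RB6_R0 _ _ b3 b2 (meas_gV6 m true) (meas_gV6 m false) exI_re

/-- **The classes D1, D1' at rows `0`.** -/
theorem clsD06 (hFF : FFth) {ep : ℝ} (h0 : 0 < ep) (h1 : ep ≤ 1 / 100) : ∃ m0 : ℕ, ∀ m ≥ m0,
    ∀ (o : Bool) (y : ℝ), ClsD6 (K06 ep m).Z par6 ep (Fil.xe m) o (vl (-(11 / 4) * l) y)
      (zPtD6 (K06 ep m) (kD06 ep m) m o y) := by
  obtain ⟨m1, hm1⟩ := exists_nat_ge (2 ^ 14 * Real.exp (8 / 3 * 1) * (2 : ℕ))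
  refine ⟨m1 + 2, fun m hm o y η η' hη n => ?_⟩
  obtain ⟨b1, b2, b3⟩ := beC_bd6 h0 h1
  have hmm : 2 ^ 14 * Real.exp (8 / 3 * 1) * (([I, -I] : List ℂ).length : ℕ) ≤ ((m - 1 : ℕ) : ℝ) := by
    refine le_trans (by simp) (hm1.trans ?_)
    exact_mod_cast (by omega : m1 ≤ m - 1)
  have hR := rB06 h0 h1 m
  have hM : Fil.q * (m - 1) = m - 1 + Fil.xn (m - 1) := (Fil.add_xn (m - 1)).symm
  have hφ := phI6_R0 (g0 := gV6 m true) (g0' := gV6 m false) b3 b2 exI_re zero_le_one exI_im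
    (by omega : 1 ≤ m - 1) hmm
  have h := D_FF6 hFF (bs6_RU (P := par6) hM hR h0 h1) (by
      show 2 * beC ep ≤ 8 / 3
      linarith) (dec6_RU hM hR par6_good (gF06 m) (gF06' m))
    (inv6_RU hM hR cosl_pos hφ) h0 h1 o (w := vl (-(11 / 4) * l) y) (by simp [vl]) n (η := η) (η' := η')
    (fun r _ => Filter.Eventually.of_forall fun O => hη r O)
  rw [K06_Z]
  refine Eq.trans ?_ h
  show (cDo o (kD06 ep m o)).Z ((K06 ep m).Z true) ((K06 ep m).Z false) (51 / 100 * l) n
    (n + Fil.xe m) lX6 lY6 (vl (-(11 / 4) * l) y) = _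
  rw [K06_Z]
  cases o
  · have e : ∀ a, YD6 (XB (D06 ep m).X (D06 ep m).Y) false (vl (-(11 / 4) * l) y) a =
        XS a ((XB (D06 ep m).X (D06 ep m).Y) a) (fl SD) (fun _ _ _ => 1)
          (vl (-(11 / 4) * l) y) 0 := by
      intro a
      funext k u
      show _ * (1 * SD (!a) k (_ - u)) = _ * (SD (!a) k (_ - u) * 1)
      ring
    rw [e, e]
    rfl
  · rfl

end PBO.PLX

end
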