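import Pool.Agent.PHK.Basic

/-!
# The particle-hole form (P): measurability of the weights

`MB B`: the one body data are measurable.  `measurable_ob6`, `measurable_tau6`, `measurable_gH6`,
`measurable_loc6`, **`measurable_objWc6`**; `measurable_qA6`.
-/

set_option autoImplicit false
set_option linter.unusedSectionVars false

noncomputable section

open Complex MeasureTheory Finset
open scoped ENNReal
open PLX (Fil)

namespace PHK

open NUO NUP1 NUGC.PLX

/-- measurable one body data -/
structure MB (B : OB) : Prop where
  R : ∀ a, Measurable (B.R a)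
  φ : ∀ a, Measurable (B.φ a)
  φ0 : ∀ a, Measurable (B.φ0 a)

section

variable {Y : Type*} [MeasurableSpace Y] {B : OB}

theorem measurable_wq6 (hB : MB B) (s : Bool) : Measurable (wq6 B s) := by
  unfold wq6
  exact (hB.R s).mul (hB.φ s).norm

theorem measurable_w6 (hB : MB B) (k : Kd6) (s c : Bool) (n : ℤ) {f : Y → ℂ} (hf : Measurable f) :
    Measurable fun y => w6 B k ((s, c, f y), n) := by
  unfold w6
  have h1 : Measurable fun y => B.R s (f y) * B.R s (f y - l) :=
    ((hB.R s).comp hf).mul ((hB.R s).comp (hf.sub_const _))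
  have h2 : Measurable fun y => ‖B.φ0 s (f y)‖ := ((hB.φ0 s).comp hf).norm
  have h3 : Measurable fun y => ‖B.φ s (f y) * B.φ s (f y - l) - B.φ0 s (f y)‖ :=
    ((((hB.φ s).comp hf).mul ((hB.φ s).comp (hf.sub_const _))).sub ((hB.φ0 s).comp hf)).norm
  cases c
  · simp only [Bool.false_eq_true, if_false]
    exact ((measurable_wq6 hB s).comp hf).pow_const n
  · by_cases hk : k = .T
    · simp only [hk, if_true]
      exact h1.mul h3
    · simp only [hk, if_true, if_false]
      exact h1.mul h2

theorem measurable_w6_evz (hB : MB B) (k : Kd6) {L : List ((Bool × Bool × (Y → ℂ)) × ℤ)}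
    (hL : ∀ p ∈ L, Measurable p.1.2.2) : Measurable fun y => ((evz L y).map (w6 B k)).prod := by
  induction L with
  | nil => exact measurable_const
  | cons a L ih =>
    have h1 := ih fun p hp => hL p (List.mem_cons_of_mem _ hp)
    have h2 := measurable_w6 hB k a.1.1 a.1.2.1 a.2 (hL a List.mem_cons_self)
    exact h2.mul h1

end

/-- **the one body weight is measurable** -/
theorem measurable_ob6 {B : OB} (hB : MB B) (P : Par6) : Measurable (ob6 B P) := by
  have h := measurable_of6 (F := fun (k : Bool × Kd6) (t : ℝ) =>
    cK6 k.2 * ((prt P k t).map (w6 B k.2)).prod) fun k => by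
      obtain ⟨L, hL, h1⟩ := exists_evz P k (Y := ℝ) measurable_id
      simp only [id] at h1
      simp only [h1]
      exact (measurable_w6_evz hB k.2 hL).const_mul _
  refine (congrArg Measurable (funext fun x => ?_)).mpr h
  unfold ob6
  rw [parts6_eq]

/-! ### the localiser -/

theorem measurable_tau6 : Measurable tau6 := by
  have h1 : Measurable fun z : ℂ => Complex.sin (3 * z) :=
    Complex.measurable_sin.comp (measurable_id.const_mul _)
  have h2 : Measurable fun z : ℂ => Complex.cos (3 * z) :=
    Complex.measurable_cos.comp (measurable_id.const_mul _)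
  exact ((h1.div h2).pow_const 2).neg

variable {r : ℕ}

/-- the localiser, function of the kinds and of the heights -/
def gHK (P : Par6) (K : Fin r → Bool × Kd6) (t : Fin r → ℝ) (s : Bool) (h : ℂ) : ℂ :=
  1 - ∏ i, if (K i).1 = !s ∧ ((K i).2 = .E ∨ (K i).2 = .F) then tau6 (h - posB P.e (t i)) else 1

theorem gH6_eq (P : Par6) (O : Fin r → Xo) (s : Bool) (h : ℂ) :
    gH6 P O s h = gHK P (fun i => (sp (O i), k6 (O i))) (fun i => ht (O i)) s h := by
  unfold gH6 gHK isE
  congr 1

theorem measurable_posB (e : ℝ) : Measurable (posB e) := by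
  unfold posB posS
  exact (measurable_vl measurable_id _).add_const _

theorem measurable_gHK (P : Par6) (K : Fin r → Bool × Kd6) (s : Bool) :
    Measurable fun p : (Fin r → ℝ) × ℂ => gHK P K p.1 s p.2 := by
  unfold gHK
  refine (Finset.measurable_prod _ fun i _ => ?_).const_sub 1
  by_cases h : (K i).1 = !s ∧ ((K i).2 = .E ∨ (K i).2 = .F)
  · simp only [h, and_self, if_true]
    exact measurable_tau6.comp (measurable_snd.sub ((measurable_posB P.e).comp
      ((measurable_pi_apply i).comp measurable_fst)))
  · simp only [h, if_false]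
    exact measurable_const

theorem measurable_gH6 (P : Par6) (s : Bool) :
    Measurable fun p : (Fin r → Xo) × ℂ => gH6 P p.1 s p.2 := by
  simp only [gH6_eq]
  exact measurable_conf6 (F := fun K p => gHK P K p.1 s p.2) fun K => measurable_gHK P K s

/-- the localiser of an object, function of the kinds and of the heights -/
def lcK (P : Par6) (K : Fin r → Bool × Kd6) (t : Fin r → ℝ) (i : Fin r) : ℝ :=
  match (K i).2 with
  | .L => 1
  | .T => 1
  | .E => 1
  | .F => ‖gHK P K t (K i).1 (posB P.e (t i))‖
  | .H1 => ‖gHK P K t (K i).1 (posL P.j1 (t i))‖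
  | .H2 => ‖gHK P K t (K i).1 (posL P.j2 (t i))‖

theorem loc6_eq (P : Par6) (O : Fin r → Xo) (i : Fin r) : loc6 (gH6 P O) P (O i) =
    lcK P (fun i => (sp (O i), k6 (O i))) (fun i => ht (O i)) i := by
  unfold loc6 lcK
  simp only [gH6_eq]
  cases hk : k6 (O i) <;> simp only

theorem measurable_loc6 (P : Par6) (i : Fin r) :
    Measurable fun O : Fin r → Xo => loc6 (gH6 P O) P (O i) := by
  simp only [loc6_eq]
  refine measurable_conf6' (F := fun K t => lcK P K t i) fun K => ?_
  have h0 : ∀ (f : ℝ → ℂ), Measurable f →
      Measurable fun t : Fin r → ℝ => ‖gHK P K t (K i).1 (f (t i))‖ := fun f hf =>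
    ((measurable_gHK P K (K i).1).comp
      (measurable_id.prodMk (hf.comp (measurable_pi_apply i)))).norm
  unfold lcK
  cases (K i).2
  · exact measurable_const
  · exact measurable_const
  · exact measurable_const
  · exact h0 _ (measurable_posB P.e)
  · exact h0 _ (measurable_vl measurable_id _)
  · exact h0 _ (measurable_vl measurable_id _)

/-- **the weight of a configuration is measurable** -/
theorem measurable_objWc6 {B : OB} (hB : MB B) (P : Par6) :
    Measurable fun O : Fin r → Xo => objWc6 B P O := by
  unfold objWc6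
  refine ((Finset.measurable_prod _ fun i _ => (measurable_ob6 hB P).comp
    (measurable_pi_apply i)).mul (Finset.measurable_prod _ fun i _ => measurable_loc6 P i)).mul ?_
  refine Finset.measurable_prod _ fun i _ => Finset.measurable_prod _ fun j _ => ?_
  by_cases h : i < j
  · simp only [h, if_true]
    exact measurable_pairN6 P i j
  · simp only [h, if_false]
    exact measurable_const

section

variable [Fil]

theorem measurable_potN6' {Y : Type*} [MeasurableSpace Y] (P : Par6) (i : Fin r) (a : Bool)
    {f : Y → Fin r → Xo} {g : Y → ℂ} (hf : Measurable f) (hg : Measurable g) :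
    Measurable fun y => potN6 P (f y) i a (g y) := by
  have h := (measurable_potN6 P i a).comp (hf.prodMk hg)
  exact h

/-- the one body factor of a quantum on a curve -/
theorem measurable_qA6 {B : OB} (hB : MB B) (P : Par6) {η : ℝ → ℝ} (hη : Measurable η) (a : Bool) :
    Measurable fun p : (Fin r → Xo) × ℝ => qA6 B P η p.1 a p.2 := by
  have hc : Measurable (Fil.cv a η) := by
    have h : Measurable fun t => η t / Fil.b a := hη.div_const _
    exact (congrArg Measurable (funext fun t => Fil.cv_apply a η t)).mpr h
  have h1 : Measurable fun t : ℝ => NUO.pA (Fil.cv a η) t := by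
    unfold NUO.pA NUP1.vl
    exact (Complex.measurable_ofReal.comp (hc.const_sub _)).add
      (Complex.measurable_ofReal.mul_const _)
  obtain ⟨q, hq⟩ : ∃ q : ℝ → ℂ, q = NUO.pA (Fil.cv a η) := ⟨_, rfl⟩
  rw [← hq] at h1
  unfold qA6
  rw [← hq]
  have hs : Measurable (Prod.snd : (Fin r → Xo) × ℝ → ℝ) := measurable_snd
  have hp : Measurable fun p : (Fin r → Xo) × ℝ => q p.2 := h1.comp hs
  have h2 : Measurable fun p : (Fin r → Xo) × ℝ => B.R a (q p.2) := (hB.R a).comp hp
  have h3 : Measurable fun p : (Fin r → Xo) × ℝ => ‖B.φ a (q p.2)‖ := ((hB.φ a).comp hp).norm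
  have h4 : ∀ i, Measurable fun p : (Fin r → Xo) × ℝ => potN6 P p.1 i a (q p.2) := fun i =>
    measurable_potN6' P i a measurable_fst hp
  exact ((h2.mul h3).const_mul _).mul (Finset.measurable_prod _ fun i _ => h4 i)

end

end PHK

end
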