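import Pool.Agent.NUP1S.Merge

/-!
# Particle-hole form: merging four families of labels (objects X, Y, holes X, Y)

`Phi i k` = a functional of a family of labels indexed by any finite type, invariant under reindexing.

* `merge_lr`: the sum over the words over `A ⊕ B` of every length = the double sum over the words over
  `A` and over `B`;
* `merge4`: labels `(Bool × A) ⊕ (Bool × B)`, four families.
-/

set_option autoImplicit false
set_option linter.unusedSectionVars false

noncomputable section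

namespace PHK

open Finset Nat NUP1S.Mg

variable {R : Type*} [CommSemiring R]

section lr
variable {A B : Type} [Fintype A] [DecidableEq A] [Fintype B] [DecidableEq B]

/-- the functional on words with a redundant first letter -/
def dbl (Phi : ∀ (i : Type) [Fintype i], (i → A ⊕ B) → R) (i : Type) [Fintype i]
    (k : i → Bool × (A ⊕ B)) : R := by
  classical
  exact if ∀ j, (k j).1 = (k j).2.isLeft then Phi i fun j => (k j).2 else 0

theorem dbl_equiv (Phi : ∀ (i : Type) [Fintype i], (i → A ⊕ B) → R)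
    (hPhi : ∀ (i i' : Type) [Fintype i] [Fintype i'] (e : i ≃ i') (k : i' → A ⊕ B),
      Phi i (k ∘ e) = Phi i' k) (i i' : Type) [Fintype i] [Fintype i'] (e : i ≃ i')
    (k : i' → Bool × (A ⊕ B)) : dbl Phi i (k ∘ e) = dbl Phi i' k := by
  classical
  unfold dbl
  have h1 : (∀ j, ((k ∘ e) j).1 = ((k ∘ e) j).2.isLeft) ↔ ∀ j, (k j).1 = (k j).2.isLeft := by
    constructor
    · intro h j
      have := h (e.symm j)
      simpa using this
    · intro h j
      exact h (e j)
  by_cases h : ∀ j, (k j).1 = (k j).2.isLeft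
  · rw [if_pos (h1.2 h), if_pos h]
    exact hPhi i i' e fun j => (k j).2
  · rw [if_neg fun h' => h (h1.1 h'), if_neg h]

theorem sum_dbl (Phi : ∀ (i : Type) [Fintype i], (i → A ⊕ B) → R) (r : ℕ) :
    ∑ k : Fin r → Bool × (A ⊕ B), dbl Phi (Fin r) k = ∑ k : Fin r → A ⊕ B, Phi (Fin r) k := by
  classical
  have e0 : ∑ k : Fin r → Bool × (A ⊕ B), dbl Phi (Fin r) k =
      ∑ k ∈ univ.filter (fun k : Fin r → Bool × (A ⊕ B) => ∀ j, (k j).1 = (k j).2.isLeft),
        Phi (Fin r) fun j => (k j).2 := by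
    rw [sum_filter]
    refine sum_congr rfl fun k _ => ?_
    unfold dbl
    by_cases h : ∀ j, (k j).1 = (k j).2.isLeft
    · rw [if_pos h, if_pos h]
    · rw [if_neg h, if_neg h]
  rw [e0]
  symm
  refine sum_bij (fun k _ => fun j => ((k j).isLeft, k j)) ?_ ?_ ?_ ?_
  · intro k _
    rw [mem_filter]
    exact ⟨mem_univ _, fun _ => rfl⟩
  · intro k _ k' _ h
    funext j
    have := congrFun h j
    exact (Prod.ext_iff.1 this).2
  · intro k hk
    have hk' := (mem_filter.1 hk).2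
    exact ⟨fun j => (k j).2, mem_univ _, funext fun j => Prod.ext (hk' j).symm rfl⟩
  · intro k _
    rfl

theorem sum_dbl_wd (Phi : ∀ (i : Type) [Fintype i], (i → A ⊕ B) → R) (a p : ℕ) :
    ∑ kX : Fin a → A ⊕ B, ∑ kY : Fin p → A ⊕ B, dbl Phi (Fin a ⊕ Fin p) (wd2 kX kY) =
      ∑ kA : Fin a → A, ∑ kB : Fin p → B, Phi (Fin a ⊕ Fin p) (Sum.map kA kB) := by
  classical
  have e1 : ∑ kX : Fin a → A ⊕ B, ∑ kY : Fin p → A ⊕ B, dbl Phi (Fin a ⊕ Fin p) (wd2 kX kY) =
      ∑ q : (Fin a → A ⊕ B) × (Fin p → A ⊕ B), dbl Phi (Fin a ⊕ Fin p) (wd2 q.1 q.2) := by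
    rw [← univ_product_univ, sum_product]
  have e2 : ∑ kA : Fin a → A, ∑ kB : Fin p → B, Phi (Fin a ⊕ Fin p) (Sum.map kA kB) =
      ∑ q : (Fin a → A) × (Fin p → B), Phi (Fin a ⊕ Fin p) (Sum.map q.1 q.2) := by
    rw [← univ_product_univ, sum_product]
  have e3 : ∑ q : (Fin a → A ⊕ B) × (Fin p → A ⊕ B), dbl Phi (Fin a ⊕ Fin p) (wd2 q.1 q.2) =
      ∑ q ∈ univ.filter (fun q : (Fin a → A ⊕ B) × (Fin p → A ⊕ B) =>
        ∀ j, (wd2 q.1 q.2 j).1 = (wd2 q.1 q.2 j).2.isLeft),
        Phi (Fin a ⊕ Fin p) fun j => (wd2 q.1 q.2 j).2 := by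
    rw [sum_filter]
    refine sum_congr rfl fun q _ => ?_
    unfold dbl
    by_cases h : ∀ j, (wd2 q.1 q.2 j).1 = (wd2 q.1 q.2 j).2.isLeft
    · simp only [if_pos h]
    · simp only [if_neg h]
  rw [e1, e2, e3]
  symm
  refine sum_bij (fun q _ => (fun j => Sum.inl (q.1 j), fun j => Sum.inr (q.2 j))) ?_ ?_ ?_ ?_
  · intro q _
    rw [mem_filter]
    refine ⟨mem_univ _, ?_⟩
    rintro (j | j) <;> rfl
  · intro q _ q' _ h
    have h1 := (Prod.ext_iff.1 h).1
    have h2 := (Prod.ext_iff.1 h).2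
    refine Prod.ext (funext fun j => ?_) (funext fun j => ?_)
    · exact Sum.inl.inj (congrFun h1 j)
    · exact Sum.inr.inj (congrFun h2 j)
  · rintro ⟨kX, kY⟩ hk
    have hk' := (mem_filter.1 hk).2
    have hX : ∀ j, ∃ x, kX j = Sum.inl x := by
      intro j
      have h := hk' (Sum.inl j)
      have h' : true = (kX j).isLeft := h
      rcases hh : kX j with x | x
      · exact ⟨x, rfl⟩
      · rw [hh] at h'
        exact absurd h' (by simp)
    have hY : ∀ j, ∃ x, kY j = Sum.inr x := by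
      intro j
      have h := hk' (Sum.inr j)
      have h' : false = (kY j).isLeft := h
      rcases hh : kY j with x | x
      · rw [hh] at h'
        exact absurd h' (by simp)
      · exact ⟨x, rfl⟩
    choose kA hA using hX
    choose kB hB using hY
    refine ⟨(kA, kB), mem_univ _, ?_⟩
    refine Prod.ext (funext fun j => ?_) (funext fun j => ?_)
    · exact (hA j).symm
    · exact (hB j).symm
  · rintro ⟨kA, kB⟩ _
    congr 1
    funext j
    rcases j with j | j <;> rfl

/-- **splitting the words over `A ⊕ B`** -/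
theorem merge_lr (w : ℕ → R) (hw : ∀ a p, w (a + p) * ((a + p).choose a : R) = w a * w p)
    (Phi : ∀ (i : Type) [Fintype i], (i → A ⊕ B) → R)
    (hPhi : ∀ (i i' : Type) [Fintype i] [Fintype i'] (e : i ≃ i') (k : i' → A ⊕ B),
      Phi i (k ∘ e) = Phi i' k) (N : ℕ)
    (h0 : ∀ (a p : ℕ) (kA : Fin a → A) (kB : Fin p → B), N < a ∨ N < p →
      Phi (Fin a ⊕ Fin p) (Sum.map kA kB) = 0) :
    ∑ a ∈ range (N + 1), ∑ p ∈ range (N + 1), w a * w p *
      ∑ kA : Fin a → A, ∑ kB : Fin p → B, Phi (Fin a ⊕ Fin p) (Sum.map kA kB) =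
    ∑ r ∈ range (2 * N + 1), w r * ∑ k : Fin r → A ⊕ B, Phi (Fin r) k := by
  classical
  have h1 : ∀ (a p : ℕ) (kX : Fin a → A ⊕ B) (kY : Fin p → A ⊕ B), N < a ∨ N < p →
      dbl Phi (Fin a ⊕ Fin p) (wd2 kX kY) = 0 := by
    intro a p kX kY h
    unfold dbl
    split_ifs with hk
    swap
    · rfl
    have hX : ∀ j, ∃ x, kX j = Sum.inl x := by
      intro j
      have h := hk (Sum.inl j)
      have h' : true = (kX j).isLeft := h
      rcases hh : kX j with x | x
      · exact ⟨x, rfl⟩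
      · rw [hh] at h'
        exact absurd h' (by simp)
    have hY : ∀ j, ∃ x, kY j = Sum.inr x := by
      intro j
      have h := hk (Sum.inr j)
      have h' : false = (kY j).isLeft := h
      rcases hh : kY j with x | x
      · rw [hh] at h'
        exact absurd h' (by simp)
      · exact ⟨x, rfl⟩
    choose kA hA using hX
    choose kB hB using hY
    have e : (fun j => (wd2 kX kY j).2) = Sum.map kA kB := by
      funext j
      rcases j with j | j
      · exact hA j
      · exact hB j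
    rw [e]
    exact h0 a p kA kB h
  have h2 := merge w hw (dbl Phi) (fun i i' _ _ e k => dbl_equiv Phi hPhi i i' e k) N h1
  simp only [sum_dbl, sum_dbl_wd] at h2
  exact h2

end lr

section four
variable {A B : Type} [Fintype A] [DecidableEq A] [Fintype B] [DecidableEq B]

/-- an inner sum goes outside -/
theorem out4 (w : ℕ → R) (N : ℕ) {V : Type} (t : Finset V)
    (g : (p p' : ℕ) → (Fin p → A) → (Fin p' → A) → V → R) :
    ∑ p ∈ range (N + 1), ∑ p' ∈ range (N + 1), w p * w p' * ∑ k : Fin p → A, ∑ k' : Fin p' → A,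
      ∑ v ∈ t, g p p' k k' v = ∑ v ∈ t, ∑ p ∈ range (N + 1), ∑ p' ∈ range (N + 1), w p * w p' *
        ∑ k : Fin p → A, ∑ k' : Fin p' → A, g p p' k k' v := by
  symm
  rw [sum_comm]
  refine sum_congr rfl fun p _ => ?_
  rw [sum_comm]
  refine sum_congr rfl fun p' _ => ?_
  rw [← mul_sum]
  congr 1
  rw [sum_comm]
  refine sum_congr rfl fun k _ => ?_
  rw [sum_comm]

/-- a constant goes outside -/
theorem mulout4 (w : ℕ → R) (N : ℕ) (c : R)
    (g : (p p' : ℕ) → (Fin p → A) → (Fin p' → A) → R) :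
    c * ∑ p ∈ range (N + 1), ∑ p' ∈ range (N + 1), w p * w p' * ∑ k : Fin p → A, ∑ k' : Fin p' → A,
      g p p' k k' = ∑ p ∈ range (N + 1), ∑ p' ∈ range (N + 1), w p * w p' *
        ∑ k : Fin p → A, ∑ k' : Fin p' → A, c * g p p' k k' := by
  simp only [mul_sum]
  refine sum_congr rfl fun p _ => sum_congr rfl fun p' _ => sum_congr rfl fun k _ =>
    sum_congr rfl fun k' _ => ?_
  rw [mul_left_comm]

/-- **four families**: objects of the two species, holes of the two species -/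
theorem merge4 (w : ℕ → R) (hw : ∀ a p, w (a + p) * ((a + p).choose a : R) = w a * w p)
    (Phi : ∀ (i : Type) [Fintype i], (i → (Bool × A) ⊕ (Bool × B)) → R)
    (hPhi : ∀ (i i' : Type) [Fintype i] [Fintype i'] (e : i ≃ i') (k : i' → (Bool × A) ⊕ (Bool × B)),
      Phi i (k ∘ e) = Phi i' k) (N : ℕ)
    (h0 : ∀ (p p' a b : ℕ) (k : Fin p → A) (k' : Fin p' → A) (s : Fin a → B) (s' : Fin b → B),
      N < p ∨ N < p' ∨ N < a ∨ N < b →
      Phi ((Fin p ⊕ Fin p') ⊕ (Fin a ⊕ Fin b)) (Sum.map (wd2 k k') (wd2 s s')) = 0) :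
    ∑ p ∈ range (N + 1), ∑ p' ∈ range (N + 1), w p * w p' * ∑ k : Fin p → A, ∑ k' : Fin p' → A,
      ∑ a ∈ range (N + 1), ∑ b ∈ range (N + 1), w a * w b * ∑ s : Fin a → B, ∑ s' : Fin b → B,
        Phi ((Fin p ⊕ Fin p') ⊕ (Fin a ⊕ Fin b)) (Sum.map (wd2 k k') (wd2 s s')) =
    ∑ r ∈ range (4 * N + 1), w r * ∑ k : Fin r → (Bool × A) ⊕ (Bool × B), Phi (Fin r) k := by
  classical
  -- every family of labels of two species is equivalent to one of the form `wd2`
  have hsplit : ∀ {C : Type} (u : ℕ) (k : Fin u → Bool × C), ∃ (p p' : ℕ) (e : Fin p ⊕ Fin p' ≃ Fin u)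
      (k1 : Fin p → C) (k2 : Fin p' → C), p + p' = u ∧ k ∘ e = wd2 k1 k2 := by
    intro C u k
    set s : Finset (Fin u) := univ.filter fun i => (k i).1 = true with hs
    refine ⟨s.card, sᶜ.card, finSumEquivOfFinset rfl rfl, fun i => (k ((finSumEquivOfFinset (s := s) rfl rfl)
      (Sum.inl i))).2, fun i => (k ((finSumEquivOfFinset (s := s) rfl rfl) (Sum.inr i))).2, ?_, ?_⟩
    · have := s.card_add_card_compl
      rwa [Fintype.card_fin] at this
    · funext i
      rcases i with i | i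
      · have h1 : (finSumEquivOfFinset (s := s) rfl rfl) (Sum.inl i) ∈ s := by
          rw [finSumEquivOfFinset_inl]
          exact orderEmbOfFin_mem s rfl i
        have h2 := (mem_filter.1 h1).2
        exact Prod.ext h2 rfl
      · have h1 : (finSumEquivOfFinset (s := s) rfl rfl) (Sum.inr i) ∉ s := by
          rw [finSumEquivOfFinset_inr]
          exact mem_compl.1 (orderEmbOfFin_mem sᶜ rfl i)
        have h2 : (k ((finSumEquivOfFinset (s := s) rfl rfl) (Sum.inr i))).1 = false := by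
          rw [← Bool.not_eq_true]
          intro h3
          exact h1 (mem_filter.2 ⟨mem_univ _, h3⟩)
        exact Prod.ext h2 rfl
  -- step 1: objects and holes
  have h1 : ∀ (u v : ℕ) (kA : Fin u → Bool × A) (kB : Fin v → Bool × B), 2 * N < u ∨ 2 * N < v →
      Phi (Fin u ⊕ Fin v) (Sum.map kA kB) = 0 := by
    intro u v kA kB h
    obtain ⟨p, p', e, k1, k2, hp, hk⟩ := hsplit u kA
    obtain ⟨a, b, f, s1, s2, ha, hs⟩ := hsplit v kB
    rw [← hPhi _ _ (Equiv.sumCongr e f) (Sum.map kA kB)]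
    have e1 : Sum.map kA kB ∘ (Equiv.sumCongr e f) = Sum.map (wd2 k1 k2) (wd2 s1 s2) := by
      rw [← hk, ← hs]
      funext i
      rcases i with i | i <;> rfl
    rw [e1]
    refine h0 p p' a b k1 k2 s1 s2 ?_
    omega
  have e1 := merge_lr w hw Phi hPhi (2 * N) h1
  have e4 : 4 * N + 1 = 2 * (2 * N) + 1 := by ring
  rw [e4, ← e1]
  -- step 2: the objects of two species, the holes given
  have h2 : ∀ (v : ℕ) (kB : Fin v → Bool × B),
      ∑ p ∈ range (N + 1), ∑ p' ∈ range (N + 1), w p * w p' * ∑ k : Fin p → A, ∑ k' : Fin p' → A,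
        Phi ((Fin p ⊕ Fin p') ⊕ Fin v) (Sum.map (wd2 k k') kB) =
      ∑ u ∈ range (2 * N + 1), w u * ∑ k : Fin u → Bool × A, Phi (Fin u ⊕ Fin v) (Sum.map k kB) := by
    intro v kB
    refine merge w hw (fun (i : Type) (_ : Fintype i) (k : i → Bool × A) =>
      Phi (i ⊕ Fin v) (Sum.map k kB)) ?_ N ?_
    · intro i i' _ _ e k
      have := hPhi (i ⊕ Fin v) (i' ⊕ Fin v) (Equiv.sumCongr e (Equiv.refl _)) (Sum.map k kB)
      rw [← this]
      congr 1
      funext j
      rcases j with j | j <;> rfl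
    · intro p p' k k' h
      obtain ⟨a, b, f, s1, s2, ha, hs⟩ := hsplit v kB
      rw [← hPhi _ _ (Equiv.sumCongr (Equiv.refl _) f) (Sum.map (wd2 k k') kB)]
      have e2 : Sum.map (wd2 k k') kB ∘ (Equiv.sumCongr (Equiv.refl _) f) =
          Sum.map (wd2 k k') (wd2 s1 s2) := by
        rw [← hs]
        funext i
        rcases i with i | i <;> rfl
      rw [e2]
      refine h0 p p' a b k k' s1 s2 ?_
      omega
  -- step 3: the holes of two species, the objects given by any finite family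
  have h3 : ∀ (i0 : Type) [Fintype i0] (k0 : i0 → Bool × A),
      (∀ (a b : ℕ) (s : Fin a → B) (s' : Fin b → B), N < a ∨ N < b →
        Phi (i0 ⊕ (Fin a ⊕ Fin b)) (Sum.map k0 (wd2 s s')) = 0) →
      ∑ a ∈ range (N + 1), ∑ b ∈ range (N + 1), w a * w b * ∑ s : Fin a → B, ∑ s' : Fin b → B,
        Phi (i0 ⊕ (Fin a ⊕ Fin b)) (Sum.map k0 (wd2 s s')) =
      ∑ v ∈ range (2 * N + 1), w v * ∑ k : Fin v → Bool × B, Phi (i0 ⊕ Fin v) (Sum.map k0 k) := by
    intro i0 _ k0 hz
    refine merge w hw (fun (i : Type) (_ : Fintype i) (k : i → Bool × B) =>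
      Phi (i0 ⊕ i) (Sum.map k0 k)) ?_ N hz
    intro i i' _ _ e k
    have := hPhi (i0 ⊕ i) (i0 ⊕ i') (Equiv.sumCongr (Equiv.refl _) e) (Sum.map k0 k)
    rw [← this]
    congr 1
    funext j
    rcases j with j | j <;> rfl
  -- assemble
  have eL : ∀ (p p' : ℕ) (k : Fin p → A) (k' : Fin p' → A),
      ∑ a ∈ range (N + 1), ∑ b ∈ range (N + 1), w a * w b * ∑ s : Fin a → B, ∑ s' : Fin b → B,
        Phi ((Fin p ⊕ Fin p') ⊕ (Fin a ⊕ Fin b)) (Sum.map (wd2 k k') (wd2 s s')) =
      ∑ v ∈ range (2 * N + 1), w v * ∑ kB : Fin v → Bool × B,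
        Phi ((Fin p ⊕ Fin p') ⊕ Fin v) (Sum.map (wd2 k k') kB) := fun p p' k k' =>
    h3 _ _ fun a b s s' h => h0 p p' a b k k' s s' (by omega)
  simp only [eL]
  rw [out4]
  conv_rhs => rw [sum_comm]
  refine sum_congr rfl fun v _ => ?_
  have hL : ∑ p ∈ range (N + 1), ∑ p' ∈ range (N + 1), w p * w p' * ∑ k : Fin p → A,
      ∑ k' : Fin p' → A, w v * ∑ kB : Fin v → Bool × B,
        Phi ((Fin p ⊕ Fin p') ⊕ Fin v) (Sum.map (wd2 k k') kB) =
      w v * ∑ kB : Fin v → Bool × B, ∑ u ∈ range (2 * N + 1), w u *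
        ∑ kA : Fin u → Bool × A, Phi (Fin u ⊕ Fin v) (Sum.map kA kB) := by
    rw [← mulout4, out4]
    congr 1
    exact sum_congr rfl fun kB _ => h2 v kB
  have hR : ∑ u ∈ range (2 * N + 1), w u * w v * ∑ kA : Fin u → Bool × A,
      ∑ kB : Fin v → Bool × B, Phi (Fin u ⊕ Fin v) (Sum.map kA kB) =
      w v * ∑ kB : Fin v → Bool × B, ∑ u ∈ range (2 * N + 1), w u *
        ∑ kA : Fin u → Bool × A, Phi (Fin u ⊕ Fin v) (Sum.map kA kB) := by
    have e7 : ∑ kB : Fin v → Bool × B, ∑ u ∈ range (2 * N + 1), w u *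
        ∑ kA : Fin u → Bool × A, Phi (Fin u ⊕ Fin v) (Sum.map kA kB) =
        ∑ u ∈ range (2 * N + 1), w u * ∑ kB : Fin v → Bool × B,
          ∑ kA : Fin u → Bool × A, Phi (Fin u ⊕ Fin v) (Sum.map kA kB) := by
      rw [sum_comm]
      refine sum_congr rfl fun u _ => ?_
      rw [← mul_sum]
    rw [e7, mul_sum]
    refine sum_congr rfl fun u _ => ?_
    rw [mul_comm (w u), mul_assoc]
    congr 2
    exact sum_comm
  rw [hR]
  exact hL

end four

end PHK
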