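import Pool.Agent.PHK.Basic

/-!
# Integrals over the configurations as sums over species and kinds

`cm6` = the masses of (species, kind) under `nu` (`1 / 2` for `E`, `F`, `1` otherwise);
`mp_nu`: the image of `nu` under ((species, kind), height) is `cm6.prod volume`;
* **`int_nu6`**: the integral of a function of species, kinds and heights over the configurations;
* `integrable_nu6`, `lint_nu6`.
-/

set_option autoImplicit false
set_option linter.unusedSectionVars false

noncomputable section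

open MeasureTheory Finset
open scoped ENNReal

namespace PHK

open NUO NUP1

/-- mass of a kind -/
def mk6 : Kd6 → ℝ≥0∞
  | .L => 1
  | .T => 1
  | .E => 2⁻¹
  | .F => 2⁻¹
  | .H1 => 1
  | .H2 => 1

theorem mk6_ne_top (k : Kd6) : mk6 k ≠ ∞ := by cases k <;> simp [mk6]

theorem mk6_ne_zero (k : Kd6) : mk6 k ≠ 0 := by cases k <;> simp [mk6]

/-- the measure on the labels -/
def cm6 : Measure (Bool × Kd6) := ∑ k : Bool × Kd6, mk6 k.2 • Measure.dirac k

theorem cm6_apply (s : Set (Bool × Kd6)) :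
    cm6 s = ∑ k : Bool × Kd6, s.indicator (fun k => mk6 k.2) k := by
  classical
  unfold cm6
  rw [Measure.finsetSum_apply]
  refine Finset.sum_congr rfl fun k _ => ?_
  rw [Measure.smul_apply, Measure.dirac_apply]
  by_cases h : k ∈ s
  · simp [h]
  · simp [h]

theorem cm6_singleton (k : Bool × Kd6) : cm6 {k} = mk6 k.2 := by
  classical
  rw [cm6_apply, Finset.sum_eq_single k]
  · simp
  · intro b _ hb
    simp [hb]
  · intro h
    exact absurd (Finset.mem_univ k) h

instance : IsFiniteMeasure cm6 := by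
  refine ⟨?_⟩
  rw [cm6_apply]
  refine ENNReal.sum_lt_top.2 fun k _ => ?_
  simp only [Set.indicator_univ]
  exact (mk6_ne_top _).lt_top

/-- label and height -/
def lh6 (x : Xo) : (Bool × Kd6) × ℝ := ((sp x, k6 x), ht x)

theorem measurable_lh6 : Measurable lh6 := measurable_sk.prodMk measurable_ht

theorem nu_apply (A : Set Xo) (hA : MeasurableSet A) :
    nu A = ∑ K : Bool × Kind, ((volume : Measure ℝ).prod ((volume : Measure ℝ).restrict
      (Set.Ioc 0 1))) (Prod.mk K ⁻¹' A) := by
  unfold nu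
  rw [Measure.prod_apply hA, lintegral_fintype]
  refine Finset.sum_congr rfl fun K _ => ?_
  rw [Measure.count_singleton, mul_one]

theorem sum_labels {M : Type*} [AddCommMonoid M] (f : Bool × Kd6 → M) :
    ∑ k, f k = ∑ s : Bool, (f (s, .L) + f (s, .T) + f (s, .E) + f (s, .F) + f (s, .H1) +
      f (s, .H2)) := by
  rw [Fintype.sum_prod_type]
  refine Finset.sum_congr rfl fun s _ => ?_
  have : (Finset.univ : Finset Kd6) = {.L, .T, .E, .F, .H1, .H2} := rfl
  rw [this]
  simp [Finset.sum_insert, add_assoc]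

theorem sum_kinds {M : Type*} [AddCommMonoid M] (f : Bool × Kind → M) :
    ∑ k, f k = ∑ s : Bool, (f (s, .L) + f (s, .St) + f (s, .S) + f (s, .Sv) + f (s, .Svv)) := by
  rw [Fintype.sum_prod_type]
  refine Finset.sum_congr rfl fun s _ => ?_
  have : (Finset.univ : Finset Kind) = {.L, .St, .S, .Sv, .Svv} := rfl
  rw [this]
  simp [Finset.sum_insert, add_assoc]

theorem map_nu : nu.map lh6 = cm6.prod volume := by
  classical
  symm
  refine Measure.prod_eq fun s t hs ht' => ?_
  rw [Measure.map_apply measurable_lh6 (hs.prod ht'), nu_apply _ (measurable_lh6 (hs.prod ht')),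
    cm6_apply, sum_labels, sum_kinds, Finset.sum_mul]
  refine Finset.sum_congr rfl fun c _ => ?_
  have hv : (volume.restrict (Set.Ioc (0 : ℝ) 1)) Set.univ = 1 := by
    simp
  -- simple kinds
  have h1 : ∀ (K : Kind) (k : Kd6), (∀ y : ℝ × ℝ, k6 ((c, K), y) = k) → mk6 k = 1 →
      ((volume : Measure ℝ).prod ((volume : Measure ℝ).restrict (Set.Ioc 0 1)))
        (Prod.mk (c, K) ⁻¹' (lh6 ⁻¹' s ×ˢ t)) = s.indicator (fun k => mk6 k.2) (c, k) * volume t := by
    intro K k hk hm
    by_cases h : (c, k) ∈ s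
    · have e : (Prod.mk (c, K) ⁻¹' (lh6 ⁻¹' s ×ˢ t)) = t ×ˢ (Set.univ : Set ℝ) := by
        ext y
        simp only [Set.mem_preimage, Set.mem_prod, lh6, hk, h, true_and, Set.mem_univ, and_true]
      rw [e, Measure.prod_prod, hv, mul_one, Set.indicator_of_mem h]
      simp only
      rw [hm, one_mul]
    · have e : (Prod.mk (c, K) ⁻¹' (lh6 ⁻¹' s ×ˢ t)) = ∅ := by
        ext y
        simp only [Set.mem_preimage, Set.mem_prod, lh6, hk, h, false_and, Set.mem_empty_iff_false]
      rw [e, measure_empty, Set.indicator_of_notMem h, zero_mul]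
  have h2 : ((volume : Measure ℝ).prod ((volume : Measure ℝ).restrict (Set.Ioc 0 1)))
        (Prod.mk (c, Kind.Svv) ⁻¹' (lh6 ⁻¹' s ×ˢ t)) =
      s.indicator (fun k => mk6 k.2) (c, .E) * volume t +
      s.indicator (fun k => mk6 k.2) (c, .F) * volume t := by
    have e : (Prod.mk (c, Kind.Svv) ⁻¹' (lh6 ⁻¹' s ×ˢ t)) =
        (t ×ˢ {a : ℝ | a ≤ 1 / 2 ∧ (c, Kd6.E) ∈ s}) ∪
          (t ×ˢ {a : ℝ | 1 / 2 < a ∧ (c, Kd6.F) ∈ s}) := by
      ext ⟨h, a⟩
      simp only [Set.mem_preimage, Set.mem_prod, lh6, Set.mem_union, Set.mem_ofPred_eq]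
      show ((c, k6 ((c, Kind.Svv), (h, a))) ∈ s ∧ h ∈ t) ↔ _
      have hk : k6 ((c, Kind.Svv), (h, a)) = if a ≤ 1 / 2 then Kd6.E else Kd6.F := rfl
      rw [hk]
      by_cases ha : a ≤ 1 / 2
      · rw [if_pos ha]
        have : ¬ 1 / 2 < a := not_lt.2 ha
        tauto
      · rw [if_neg ha]
        have : 1 / 2 < a := not_le.1 ha
        tauto
    have m1 : MeasurableSet {a : ℝ | a ≤ 1 / 2 ∧ (c, Kd6.E) ∈ s} := by
      by_cases h : (c, Kd6.E) ∈ s
      · simp only [h, and_true]
        exact measurableSet_Iic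
      · simp only [h, and_false]
        exact MeasurableSet.empty
    have m2 : MeasurableSet {a : ℝ | 1 / 2 < a ∧ (c, Kd6.F) ∈ s} := by
      by_cases h : (c, Kd6.F) ∈ s
      · simp only [h, and_true]
        exact measurableSet_Ioi
      · simp only [h, and_false]
        exact MeasurableSet.empty
    have hd : Disjoint (t ×ˢ {a : ℝ | a ≤ 1 / 2 ∧ (c, Kd6.E) ∈ s})
        (t ×ˢ {a : ℝ | 1 / 2 < a ∧ (c, Kd6.F) ∈ s}) := by
      rw [Set.disjoint_left]
      rintro ⟨h, a⟩ h1 h2
      exact absurd h1.2.1 (not_le.2 h2.2.1)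
    rw [e, measure_union hd (ht'.prod m2), Measure.prod_prod, Measure.prod_prod]
    have v1 : (volume.restrict (Set.Ioc (0 : ℝ) 1)) {a : ℝ | a ≤ 1 / 2 ∧ (c, Kd6.E) ∈ s} =
        s.indicator (fun k => mk6 k.2) (c, .E) := by
      rw [Measure.restrict_apply m1]
      by_cases h : (c, Kd6.E) ∈ s
      · rw [Set.indicator_of_mem h]
        have e2 : {a : ℝ | a ≤ 1 / 2 ∧ (c, Kd6.E) ∈ s} ∩ Set.Ioc 0 1 = Set.Ioc 0 (1 / 2) := by
          ext a
          simp only [Set.mem_inter_iff, Set.mem_ofPred_eq, Set.mem_Ioc, h, and_true]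
          constructor
          · rintro ⟨h1, h2, h3⟩
            exact ⟨h2, h1⟩
          · rintro ⟨h1, h2⟩
            exact ⟨h2, h1, by linarith⟩
        rw [e2, Real.volume_Ioc]
        show _ = (2⁻¹ : ℝ≥0∞)
        rw [sub_zero, one_div, ENNReal.ofReal_inv_of_pos (by norm_num)]
        norm_num
      · rw [Set.indicator_of_notMem h]
        have e2 : {a : ℝ | a ≤ 1 / 2 ∧ (c, Kd6.E) ∈ s} ∩ Set.Ioc 0 1 = ∅ := by
          ext a
          simp [h]
        rw [e2, measure_empty]
    have v2 : (volume.restrict (Set.Ioc (0 : ℝ) 1)) {a : ℝ | 1 / 2 < a ∧ (c, Kd6.F) ∈ s} =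
        s.indicator (fun k => mk6 k.2) (c, .F) := by
      rw [Measure.restrict_apply m2]
      by_cases h : (c, Kd6.F) ∈ s
      · rw [Set.indicator_of_mem h]
        have e2 : {a : ℝ | 1 / 2 < a ∧ (c, Kd6.F) ∈ s} ∩ Set.Ioc 0 1 = Set.Ioc (1 / 2) 1 := by
          ext a
          simp only [Set.mem_inter_iff, Set.mem_ofPred_eq, Set.mem_Ioc, h, and_true]
          constructor
          · rintro ⟨h1, h2, h3⟩
            exact ⟨h1, h3⟩
          · rintro ⟨h1, h2⟩
            exact ⟨h1, by linarith, h2⟩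
        rw [e2, Real.volume_Ioc]
        show _ = (2⁻¹ : ℝ≥0∞)
        rw [show (1 : ℝ) - 1 / 2 = 2⁻¹ by norm_num, ENNReal.ofReal_inv_of_pos (by norm_num)]
        norm_num
      · rw [Set.indicator_of_notMem h]
        have e2 : {a : ℝ | 1 / 2 < a ∧ (c, Kd6.F) ∈ s} ∩ Set.Ioc 0 1 = ∅ := by
          ext a
          simp [h]
        rw [e2, measure_empty]
    rw [v1, v2, mul_comm (volume t), mul_comm (volume t)]
  rw [h1 .L .L (fun _ => rfl) rfl, h1 .St .T (fun _ => rfl) rfl, h1 .S .H1 (fun _ => rfl) rfl,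
    h1 .Sv .H2 (fun _ => rfl) rfl, h2]
  ring

theorem mp_nu : MeasurePreserving lh6 nu (cm6.prod volume) := ⟨measurable_lh6, map_nu⟩

variable {r : ℕ}

theorem pi_cm6 : (Measure.pi fun _ : Fin r => cm6) =
    ∑ K : Fin r → Bool × Kd6, (∏ i, mk6 (K i).2) • Measure.dirac K := by
  classical
  refine Measure.ext_of_singleton fun K => ?_
  rw [Measure.pi_singleton, Measure.finsetSum_apply]
  simp only [cm6_singleton]
  rw [Finset.sum_eq_single K]
  · simp
  · intro b _ hb
    simp [hb]
  · intro h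
    exact absurd (Finset.mem_univ K) h

/-- labels and heights of a configuration -/
def lhO (O : Fin r → Xo) : (Fin r → Bool × Kd6) × (Fin r → ℝ) :=
  (fun i => (sp (O i), k6 (O i)), fun i => ht (O i))

theorem mp_lhO : MeasurePreserving (lhO (r := r)) (Measure.pi fun _ => nu)
    ((Measure.pi fun _ => cm6).prod (Measure.pi fun _ => volume)) := by
  have h1 := measurePreserving_pi (fun _ : Fin r => nu) (fun _ => cm6.prod (volume : Measure ℝ))
    fun _ => mp_nu
  have h2 := measurePreserving_arrowProdEquivProdArrow (Bool × Kd6) ℝ (Fin r)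
    (fun _ => cm6) (fun _ => (volume : Measure ℝ))
  exact h2.comp h1

theorem prod_cm6 : (Measure.pi fun _ : Fin r => cm6).prod (Measure.pi fun _ : Fin r => (volume : Measure ℝ)) =
    ∑ K : Fin r → Bool × Kd6, (∏ i, mk6 (K i).2) •
      (Measure.pi fun _ : Fin r => (volume : Measure ℝ)).map (Prod.mk K) := by
  rw [pi_cm6]
  rw [← Measure.sum_fintype, ← Measure.sum_fintype, Measure.prod_sum_left]
  congr 1
  funext K
  rw [Measure.prod_smul_left, Measure.dirac_prod]

theorem prod_mk6_ne_top (K : Fin r → Bool × Kd6) : ∏ i, mk6 (K i).2 ≠ ∞ :=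
  ENNReal.prod_ne_top fun i _ => mk6_ne_top _

theorem integrable_cm6 {E : Type*} [NormedAddCommGroup E]
    {F : (Fin r → Bool × Kd6) × (Fin r → ℝ) → E}
    (hF : ∀ K, Integrable (fun t => F (K, t)) (Measure.pi fun _ => volume)) :
    Integrable F ((Measure.pi fun _ => cm6).prod (Measure.pi fun _ => volume)) := by
  rw [prod_cm6]
  refine integrable_finsetSum_measure.2 fun K _ => ?_
  refine Integrable.smul_measure ?_ (prod_mk6_ne_top K)
  rw [(measurableEmbedding_prodMk_left K).integrable_map_iff]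
  exact hF K

/-- integrability of a function of species, kinds and heights -/
theorem integrable_nu6 {E : Type*} [NormedAddCommGroup E]
    {F : (Fin r → Bool × Kd6) → (Fin r → ℝ) → E}
    (hF : ∀ K, Integrable (F K) (Measure.pi fun _ => volume)) :
    Integrable (fun O : Fin r → Xo => F (fun i => (sp (O i), k6 (O i))) fun i => ht (O i))
      (Measure.pi fun _ => nu) :=
  mp_lhO.integrable_comp_of_integrable (integrable_cm6 (F := fun q => F q.1 q.2) hF)

/-- **the integral of a function of species, kinds and heights over the configurations** -/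
theorem int_nu6 {F : (Fin r → Bool × Kd6) → (Fin r → ℝ) → ℂ}
    (hF : ∀ K, Integrable (F K) (Measure.pi fun _ => volume)) :
    ∫ O : Fin r → Xo, F (fun i => (sp (O i), k6 (O i))) (fun i => ht (O i))
      ∂(Measure.pi fun _ => nu) =
      ∑ K : Fin r → Bool × Kd6, (∏ i, ((mk6 (K i).2).toReal : ℂ)) *
        ∫ t, F K t ∂(Measure.pi fun _ => volume) := by
  have hi := integrable_cm6 (F := fun q => F q.1 q.2) hF
  have h1 : ∫ O : Fin r → Xo, F (fun i => (sp (O i), k6 (O i))) (fun i => ht (O i))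
      ∂(Measure.pi fun _ => nu) = ∫ q, F q.1 q.2 ∂((Measure.pi fun _ => cm6).prod
        (Measure.pi fun _ => (volume : Measure ℝ))) := by
    rw [← mp_lhO.map_eq, integral_map mp_lhO.measurable.aemeasurable]
    · rfl
    · rw [mp_lhO.map_eq]
      exact hi.aestronglyMeasurable
  rw [h1]
  rw [prod_cm6] at hi ⊢
  rw [integral_finsetSum_measure fun K hK => integrable_finsetSum_measure.1 hi K hK]
  refine Finset.sum_congr rfl fun K _ => ?_
  rw [integral_smul_measure, (measurableEmbedding_prodMk_left K).integral_map, ENNReal.toReal_prod,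
    Complex.real_smul]
  push_cast
  rfl

/-- the same for the lower integral -/
theorem lint_nu6 {F : (Fin r → Bool × Kd6) → (Fin r → ℝ) → ℝ≥0∞} (hF : ∀ K, Measurable (F K)) :
    ∫⁻ O : Fin r → Xo, F (fun i => (sp (O i), k6 (O i))) (fun i => ht (O i))
      ∂(Measure.pi fun _ => nu) =
      ∑ K : Fin r → Bool × Kd6, (∏ i, mk6 (K i).2) * ∫⁻ t, F K t ∂(Measure.pi fun _ => volume) := by
  have hm : Measurable fun q : (Fin r → Bool × Kd6) × (Fin r → ℝ) => F q.1 q.2 :=
    measurable_from_prod_countable_right hF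
  have h1 : ∫⁻ O : Fin r → Xo, F (fun i => (sp (O i), k6 (O i))) (fun i => ht (O i))
      ∂(Measure.pi fun _ => nu) = ∫⁻ q, F q.1 q.2 ∂((Measure.pi fun _ => cm6).prod
        (Measure.pi fun _ => (volume : Measure ℝ))) := by
    rw [← mp_lhO.map_eq, lintegral_map hm mp_lhO.measurable]
    rfl
  rw [h1, prod_cm6, lintegral_finsetSum_measure]
  refine Finset.sum_congr rfl fun K _ => ?_
  rw [lintegral_smul_measure, (measurableEmbedding_prodMk_left K).lintegral_map]
  rfl

end PHK

end
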