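import Pool.Agent.PHK.FDef6
import Pool.Agent.PHK.NuP
import Pool.Agent.PHK.Merge
import Pool.Agent.PHK.Meas
import Pool.Agent.NUO.MeasGas

/-!
# The particle-hole form (P): families of objects over any finite index type

`xo k t` = the object with label `k` (species, kind) at height `t`.  `qI`, `cntI`, `gHI`, `locI`, `wI`,
`potI`, **`fI`** = charge, number condition, localiser, weight, potential, term of a family of objects
(for `Fin r` they are the functions of `PHK/FDef6` by definition: `fI_fin`);
* `fI_equiv` (reindexing), `fI_congr` (only labels and heights matter);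
* `measurable_fI`.
-/

set_option autoImplicit false
set_option linter.unusedSectionVars false

noncomputable section

open Complex MeasureTheory Finset
open scoped ENNReal

namespace PHK

open NUO NUP1 NUP1S NUP1S.Ab NUP1S.AbC NUGC NUGC.PLX

/-! ### objects by labels -/

/-- the object with label `k` at height `t` -/
def xo (k : Bool × Kd6) (t : ℝ) : Xo :=
  match k.2 with
  | .L => ((k.1, .L), (t, 1))
  | .T => ((k.1, .St), (t, 1))
  | .E => ((k.1, .Svv), (t, 1 / 2))
  | .F => ((k.1, .Svv), (t, 1))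
  | .H1 => ((k.1, .S), (t, 1))
  | .H2 => ((k.1, .Sv), (t, 1))

theorem sp_xo (k : Bool × Kd6) (t : ℝ) : sp (xo k t) = k.1 := by
  obtain ⟨s, k⟩ := k
  cases k <;> rfl

theorem k6_xo (k : Bool × Kd6) (t : ℝ) : k6 (xo k t) = k.2 := by
  obtain ⟨s, k⟩ := k
  cases k
  · rfl
  · rfl
  · show (if (1 / 2 : ℝ) ≤ 1 / 2 then Kd6.E else Kd6.F) = _
    rw [if_pos le_rfl]
  · show (if (1 : ℝ) ≤ 1 / 2 then Kd6.E else Kd6.F) = _
    rw [if_neg (by norm_num)]
  · rfl
  · rfl

theorem ht_xo (k : Bool × Kd6) (t : ℝ) : ht (xo k t) = t := by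
  obtain ⟨s, k⟩ := k
  cases k <;> rfl

theorem sp_xo' (s : Bool) (k : Kd6) (t : ℝ) : sp (xo (s, k) t) = s := sp_xo (s, k) t

theorem k6_xo' (s : Bool) (k : Kd6) (t : ℝ) : k6 (xo (s, k) t) = k := k6_xo (s, k) t

theorem ht_xo' (s : Bool) (k : Kd6) (t : ℝ) : ht (xo (s, k) t) = t := ht_xo (s, k) t

theorem measurable_xo (k : Bool × Kd6) : Measurable (xo k) := by
  obtain ⟨s, k⟩ := k
  cases k <;> exact measurable_const.prodMk (measurable_id.prodMk measurable_const)

/-! ### functions of label and height -/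

section cong

variable {x y : Xo} (h1 : sp x = sp y) (h2 : k6 x = k6 y) (h3 : ht x = ht y)
include h1 h2 h3

theorem parts6_congr (P : Par6) : parts6 P x = parts6 P y := by
  rw [parts6_eq, parts6_eq, h1, h2, h3]

theorem chg6_congr (s : Bool) : chg6 s x = chg6 s y := by
  unfold chg6
  rw [h1, h2]

theorem obK6_congr (Z : Bool → Option O3 → ℂ → ℂ) (P : Par6) : obK6 Z P x = obK6 Z P y := by
  unfold obK6 cst6
  rw [parts6_congr h1 h2 h3 P, h2]

theorem locC6_congr (g : Bool → ℂ → ℂ) (P : Par6) : locC6 g P x = locC6 g P y := by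
  unfold locC6
  rw [h1, h2, h3]

theorem isE_congr : isE x ↔ isE y := by
  unfold isE
  rw [h2]

theorem hl6_congr (s : Bool) : hl6 s x = hl6 s y := by
  unfold hl6
  rw [h1, h2]

theorem sat6_congr (s : Bool) : sat6 s x = sat6 s y := by
  unfold sat6
  rw [h1, h2]

end cong

/-! ### families -/

section fam

variable {ι ι' : Type*} [Fintype ι] [Fintype ι']

/-- charge of a family -/
def qI (O : ι → Xo) (s : Bool) : ℤ := ∑ i, chg6 s (O i)

/-- not more holes of a species than quanta at the points `b` -/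
def cntI (O : ι → Xo) : Prop := ∀ s, ∑ i, hl6 s (O i) ≤ ∑ i, sat6 s (O i)

instance (O : ι → Xo) : Decidable (cntI O) := by unfold cntI; infer_instance

/-- the localiser -/
def gHI (P : Par6) (O : ι → Xo) (s : Bool) (h : ℂ) : ℂ :=
  1 - ∏ i, if sp (O i) = !s ∧ isE (O i) then tau6 (h - posB P.e (ht (O i))) else 1

/-- the localisers of the holes -/
def locI (P : Par6) (O : ι → Xo) : ℂ := ∏ i, locC6 (gHI P O) P (O i)

/-- the weight -/
def wI (Z : Bool → Option O3 → ℂ → ℂ) (P : Par6) (O : ι → Xo) : ℂ :=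
  (∏ i, obK6 Z P (O i)) * locI P O * PU fun i j => pairC6 P (O i) (O j)

/-- the potential on a quantum -/
def potI (P : Par6) (O : ι → Xo) (s : Bool) (z : ℂ) : ℂ := ∏ i, potC6 P (O i) s z

/-- number of the free quanta -/
def nAI (n : ℕ) (O : ι → Xo) (s : Bool) : ℕ := ((n : ℤ) - qI O s).toNat

/-- **the term of a family**, quanta on `Re u = y` -/
def fI (Z : Bool → Option O3 → ℂ → ℂ) (P : Par6) (y : ℝ) (n n' : ℕ) (O : ι → Xo) : ℂ :=
  if qI O true ≤ n ∧ qI O false ≤ n' ∧ cntI O then
    wI Z P O * gas (nAI n O true) (nAI n' O false) y (fun z => Z true none z * potI P O true z)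
      (fun z => Z false none z * potI P O false z)
  else 0

theorem fI_fin (Z : Bool → Option O3 → ℂ → ℂ) (P : Par6) (y : ℝ) (n n' : ℕ) {r : ℕ}
    (O : Fin r → Xo) : fI Z P y n n' O =
    if chgO6 O true ≤ n ∧ chgO6 O false ≤ n' ∧ cnt6 O then
      wK6 Z P O * gas (nA6 n O true) (nA6 n' O false) y
        (fun z => Z true none z * potO6 P O true z) (fun z => Z false none z * potO6 P O false z)
    else 0 := by
  have h1 : cntI O ↔ cnt6 O := Iff.rfl
  have h2 : ∀ s, qI O s = chgO6 O s := fun s => rfl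
  unfold fI
  rw [h2, h2]
  exact if_congr (and_congr_right fun _ => and_congr_right fun _ => h1) rfl rfl

theorem qI_equiv (e : ι ≃ ι') (O : ι' → Xo) (s : Bool) : qI (fun i => O (e i)) s = qI O s :=
  e.sum_comp fun i => chg6 s (O i)

theorem cntI_equiv (e : ι ≃ ι') (O : ι' → Xo) : cntI (fun i => O (e i)) ↔ cntI O := by
  unfold cntI
  refine forall_congr' fun s => ?_
  rw [e.sum_comp fun i => hl6 s (O i), e.sum_comp fun i => sat6 s (O i)]

theorem gHI_equiv (P : Par6) (e : ι ≃ ι') (O : ι' → Xo) :
    gHI P (fun i => O (e i)) = gHI P O := by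
  funext s h
  unfold gHI
  congr 1
  exact e.prod_comp fun i => if sp (O i) = !s ∧ isE (O i) then
    tau6 (h - posB P.e (ht (O i))) else 1

theorem wI_equiv (Z : Bool → Option O3 → ℂ → ℂ) (P : Par6) (e : ι ≃ ι') (O : ι' → Xo) :
    wI Z P (fun i => O (e i)) = wI Z P O := by
  unfold wI locI
  rw [gHI_equiv]
  congr 1
  · congr 1
    · exact e.prod_comp fun i => obK6 Z P (O i)
    · exact e.prod_comp fun i => locC6 (gHI P O) P (O i)
  · exact PU_equiv e (f := fun i j => pairC6 P (O i) (O j)) fun a b => pairC6_symm P (O a) (O b)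

theorem potI_equiv (P : Par6) (e : ι ≃ ι') (O : ι' → Xo) :
    potI P (fun i => O (e i)) = potI P O := by
  funext s z
  exact e.prod_comp fun i => potC6 P (O i) s z

theorem fI_equiv (Z : Bool → Option O3 → ℂ → ℂ) (P : Par6) (y : ℝ) (n n' : ℕ) (e : ι ≃ ι')
    (O : ι' → Xo) : fI Z P y n n' (fun i => O (e i)) = fI Z P y n n' O := by
  unfold fI nAI
  simp only [qI_equiv, cntI_equiv, wI_equiv, potI_equiv]

/-- only labels and heights matter -/
theorem fI_congr (Z : Bool → Option O3 → ℂ → ℂ) (P : Par6) (y : ℝ) (n n' : ℕ) {O O' : ι → Xo}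
    (h1 : ∀ i, sp (O i) = sp (O' i)) (h2 : ∀ i, k6 (O i) = k6 (O' i))
    (h3 : ∀ i, ht (O i) = ht (O' i)) : fI Z P y n n' O = fI Z P y n n' O' := by
  have a1 : ∀ s, qI O s = qI O' s := fun s =>
    Finset.sum_congr rfl fun i _ => chg6_congr (h1 i) (h2 i) (h3 i) s
  have a2 : ∀ i, isE (O i) ↔ isE (O' i) := fun i => isE_congr (h1 i) (h2 i) (h3 i)
  have a3 : ∀ s i, hl6 s (O i) = hl6 s (O' i) := fun s i => hl6_congr (h1 i) (h2 i) (h3 i) s
  have a3' : ∀ s i, sat6 s (O i) = sat6 s (O' i) := fun s i => sat6_congr (h1 i) (h2 i) (h3 i) s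
  have a4 : cntI O ↔ cntI O' := by
    unfold cntI
    simp only [a3, a3']
  have a5 : gHI P O = gHI P O' := by
    funext s h
    unfold gHI
    simp only [h1, a2, h3]
  have a6 : wI Z P O = wI Z P O' := by
    unfold wI locI
    rw [a5]
    congr 1
    · congr 1
      · exact Finset.prod_congr rfl fun i _ => obK6_congr (h1 i) (h2 i) (h3 i) Z P
      · exact Finset.prod_congr rfl fun i _ => locC6_congr (h1 i) (h2 i) (h3 i) _ P
    · refine PU_congr fun i j => ?_
      unfold pairC6
      rw [parts6_congr (h1 i) (h2 i) (h3 i) P, parts6_congr (h1 j) (h2 j) (h3 j) P]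
  have a7 : potI P O = potI P O' := by
    funext s z
    refine Finset.prod_congr rfl fun i _ => ?_
    unfold potC6
    rw [parts6_congr (h1 i) (h2 i) (h3 i) P]
  unfold fI nAI
  rw [a6, a7, a1, a1]
  by_cases h : qI O' true ≤ n ∧ qI O' false ≤ n' ∧ cntI O
  · rw [if_pos h, if_pos ⟨h.1, h.2.1, a4.1 h.2.2⟩]
  · rw [if_neg h, if_neg fun h' => h ⟨h'.1, h'.2.1, a4.2 h'.2.2⟩]

/-- the term of the configuration by labels and heights -/
theorem fI_xo (Z : Bool → Option O3 → ℂ → ℂ) (P : Par6) (y : ℝ) (n n' : ℕ) (O : ι → Xo) :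
    fI Z P y n n' O = fI Z P y n n' fun i => xo (sp (O i), k6 (O i)) (ht (O i)) :=
  fI_congr Z P y n n' (fun i => (sp_xo' (sp (O i)) (k6 (O i)) (ht (O i))).symm)
    (fun i => (k6_xo' (sp (O i)) (k6 (O i)) (ht (O i))).symm)
    fun i => (ht_xo' (sp (O i)) (k6 (O i)) (ht (O i))).symm

end fam

/-! ### measurability -/

section meas

variable {Y : Type*} [MeasurableSpace Y] {Z : Bool → Option O3 → ℂ → ℂ}

theorem measurable_posL' (j : ℝ) {t : Y → ℝ} (ht : Measurable t) :
    Measurable fun y => posL j (t y) := NUO.measurable_vl ht _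

theorem measurable_posB' (e : ℝ) {t : Y → ℝ} (ht : Measurable t) :
    Measurable fun y => posB e (t y) := (NUO.measurable_vl ht _).add_const _

theorem measurable_obK6 (hZ : ∀ s k, Measurable (Z s k)) (P : Par6) :
    Measurable fun x : Xo => obK6 Z P x := by
  have h := measurable_of6 (F := fun (k : Bool × Kd6) (t : ℝ) => obK6 Z P (xo k t)) (fun k => by
    obtain ⟨s, k⟩ := k
    have hL : ∀ j, Measurable fun t : ℝ => posL j t := fun j => measurable_posL' j measurable_id
    have hB : Measurable fun t : ℝ => posB P.e t := measurable_posB' _ measurable_id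
    have hT : Measurable fun t : ℝ => posT t := NUO.measurable_vl measurable_id _
    have hS : Measurable fun t : ℝ => posS P.e t := NUO.measurable_vl measurable_id _
    cases k
    · simp only [obK6_L Z P (k6_xo' s .L _), ht_xo', sp_xo']
      exact ((hZ _ _).comp (hL _)).const_mul _
    · simp only [obK6_T Z P (k6_xo' s .T _), ht_xo', sp_xo']
      exact ((hZ _ _).comp hT).const_mul _
    · simp only [obK6_E Z P (k6_xo' s .E _), ht_xo', sp_xo']
      exact (((hZ _ _).comp hS).mul (((hZ _ _).comp hB).pow_const 2)).const_mul _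
    · simp only [obK6_F Z P (k6_xo' s .F _), ht_xo', sp_xo']
      exact (((hZ _ _).comp hS).mul ((((hZ _ _).comp hB).pow_const 2).mul
        ((hZ _ _).comp hB).inv)).const_mul _
    · simp only [obK6_H1 Z P (k6_xo' s .H1 _), ht_xo', sp_xo']
      exact ((hZ _ _).comp (hL _)).inv.const_mul _
    · simp only [obK6_H2 Z P (k6_xo' s .H2 _), ht_xo', sp_xo']
      exact ((hZ _ _).comp (hL _)).inv.const_mul _)
  refine (congrArg Measurable (funext fun x => ?_)).mpr h
  exact obK6_congr (sp_xo' (sp x) (k6 x) (ht x)).symm (k6_xo' (sp x) (k6 x) (ht x)).symm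
    (ht_xo' (sp x) (k6 x) (ht x)).symm Z P

variable {ι : Type*} [Fintype ι]

theorem measurable_gHI (P : Par6) (K : ι → Bool × Kd6) {t : ι → Y → ℝ}
    (ht' : ∀ i, Measurable (t i)) (s : Bool) {h : Y → ℂ} (hh : Measurable h) :
    Measurable fun y => gHI P (fun i => xo (K i) (t i y)) s (h y) := by
  unfold gHI
  refine measurable_const.sub (Finset.measurable_prod _ fun i _ => ?_)
  have e : ∀ y, isE (xo (K i) (t i y)) ↔ (K i).2 = .E ∨ (K i).2 = .F := fun y => by
    unfold isE
    rw [k6_xo]
  simp only [sp_xo, e, ht_xo]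
  split_ifs
  · exact measurable_tau6.comp (hh.sub (measurable_posB' _ (ht' i)))
  · exact measurable_const

theorem measurable_wI (hZ : ∀ s k, Measurable (Z s k)) (P : Par6) (K : ι → Bool × Kd6)
    {t : ι → Y → ℝ} (ht' : ∀ i, Measurable (t i)) :
    Measurable fun y => wI Z P (fun i => xo (K i) (t i y)) := by
  unfold wI locI
  have hx : ∀ i, Measurable fun y => xo (K i) (t i y) := fun i => (measurable_xo _).comp (ht' i)
  refine Measurable.mul (Measurable.mul ?_ ?_) ?_
  · exact Finset.measurable_prod _ fun i _ => (measurable_obK6 hZ P).comp (hx i)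
  · refine Finset.measurable_prod _ fun i _ => ?_
    unfold locC6
    simp only [k6_xo, sp_xo, ht_xo]
    cases (K i).2
    · exact measurable_const
    · exact measurable_const
    · exact measurable_const
    · exact measurable_gHI P K ht' _ (measurable_posB' _ (ht' i))
    · exact measurable_gHI P K ht' _ (measurable_posL' _ (ht' i))
    · exact measurable_gHI P K ht' _ (measurable_posL' _ (ht' i))
  · exact measurable_PU (fun i j y => pairC6 P (xo (K i) (t i y)) (xo (K j) (t j y)))
      fun i j => (measurable_pairC6 P).comp ((hx i).prodMk (hx j))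

theorem qI_xo (K : ι → Bool × Kd6) (t t' : ι → ℝ) (s : Bool) :
    qI (fun i => xo (K i) (t i)) s = qI (fun i => xo (K i) (t' i)) s := by
  unfold qI chg6
  simp only [k6_xo, sp_xo]

theorem cntI_xo (K : ι → Bool × Kd6) (t t' : ι → ℝ) :
    cntI (fun i => xo (K i) (t i)) ↔ cntI (fun i => xo (K i) (t' i)) := by
  unfold cntI hl6 sat6
  simp only [k6_xo, sp_xo]

/-- the term of a word: condition and numbers of quanta are those of the labels -/
theorem fI_word (P : Par6) (y : ℝ) (n n' : ℕ) (K : ι → Bool × Kd6) (t : ι → ℝ) :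
    fI Z P y n n' (fun i => xo (K i) (t i)) =
      if qI (fun i => xo (K i) 0) true ≤ n ∧ qI (fun i => xo (K i) 0) false ≤ n' ∧
        cntI (fun i => xo (K i) 0) then
        wI Z P (fun i => xo (K i) (t i)) * gas (nAI n (fun i => xo (K i) 0) true)
          (nAI n' (fun i => xo (K i) 0) false) y
          (fun z => Z true none z * potI P (fun i => xo (K i) (t i)) true z)
          (fun z => Z false none z * potI P (fun i => xo (K i) (t i)) false z)
      else 0 := by
  have q1 : qI (fun i => xo (K i) (t i)) true = qI (fun i => xo (K i) 0) true :=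
    qI_xo K t (fun _ => 0) true
  have q2 : qI (fun i => xo (K i) (t i)) false = qI (fun i => xo (K i) 0) false :=
    qI_xo K t (fun _ => 0) false
  have q3 : cntI (fun i => xo (K i) (t i)) ↔ cntI (fun i => xo (K i) 0) :=
    cntI_xo K t fun _ => 0
  unfold fI nAI
  rw [q1, q2]
  by_cases hc : cntI (fun i => xo (K i) 0)
  · have hc' := q3.2 hc
    simp only [hc, hc']
  · have hc' := fun h => hc (q3.1 h)
    rw [if_neg fun h => hc' h.2.2, if_neg fun h => hc h.2.2]

/-- **measurability of the term of a word** -/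
theorem measurable_fI (hZ : ∀ s k, Measurable (Z s k)) (P : Par6) (y : ℝ) (n n' : ℕ)
    (K : ι → Bool × Kd6) {t : ι → Y → ℝ} (ht' : ∀ i, Measurable (t i)) :
    Measurable fun ω => fI Z P y n n' (fun i => xo (K i) (t i ω)) := by
  have hx : ∀ i, Measurable fun y => xo (K i) (t i y) := fun i => (measurable_xo _).comp (ht' i)
  have hpot : ∀ s, Measurable fun p : Y × ℂ => potI P (fun i => xo (K i) (t i p.1)) s p.2 := by
    intro s
    unfold potI
    refine Finset.measurable_prod _ fun i _ => ?_
    have h1 : Measurable fun p : Y × ℂ => (xo (K i) (t i p.1), p.2) :=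
      ((hx i).comp measurable_fst).prodMk measurable_snd
    have h2 := (measurable_potC6 P s).comp h1
    simp only [Function.comp_def] at h2
    exact h2
  have hp1 : Measurable fun p : Y × ℂ => Z true none p.2 *
      potI P (fun i => xo (K i) (t i p.1)) true p.2 :=
    ((hZ true none).comp measurable_snd).mul (hpot true)
  have hp2 : Measurable fun p : Y × ℂ => Z false none p.2 *
      potI P (fun i => xo (K i) (t i p.1)) false p.2 :=
    ((hZ false none).comp measurable_snd).mul (hpot false)
  have key : ∀ (a b : ℕ) (H1 H2 : Y × ℂ → ℂ), Measurable H1 → Measurable H2 →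
      Measurable fun ω : Y => gas a b y (fun z => H1 (ω, z)) (fun z => H2 (ω, z)) :=
    fun a b H1 H2 h1 h2 => NUO.measurable_gas a b y h1 h2
  have hg : ∀ a b : ℕ, Measurable fun ω : Y => gas a b y
      (fun z => Z true none z * potI P (fun i => xo (K i) (t i ω)) true z)
      (fun z => Z false none z * potI P (fun i => xo (K i) (t i ω)) false z) := fun a b =>
    key a b (fun p : Y × ℂ => Z true none p.2 * potI P (fun i => xo (K i) (t i p.1)) true p.2)
      (fun p : Y × ℂ => Z false none p.2 * potI P (fun i => xo (K i) (t i p.1)) false p.2) hp1 hp2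
  have hw := measurable_wI hZ P K ht'
  simp only [fI_word]
  split_ifs
  · exact hw.mul (hg _ _)
  · exact measurable_const

end meas

end PHK

end
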