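import Pool.Agent.PHK.ClsCrv6
import Pool.Agent.PHK.Lab

/-!
# (P): the functional without insertion does not depend on the curves

* `FF6_fI`: it is the sum of the terms `fI` (quanta on the line `Re u = l`);
* **`FF6_crv`**: it does not depend on the curves.
-/

set_option autoImplicit false
set_option linter.unusedSectionVars false

noncomputable section

open Complex MeasureTheory Finset

open PLX (Fil)

namespace PHK

open NUO NUP1 NUCR NUP1S NUP1S.Ab NUP1S.AbC NUGC NUGC.PLX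
open PBF.PLX (Crs)

variable [Fil] {Z : Bool → Option O3 → ℂ → ℂ} {P : Par6} {n n' : ℕ}

/-- the functional without insertion as the sum of the terms `fI` -/
theorem FF6_fI {δ κ : ℝ} {Q : ℤ} (h : QOk6 Z δ κ Q) (hP : StP δ P) {η η' : Crs}
    (hη : ∀ r ≤ 2 * (n + n'), ∀ᵐ O ∂(Measure.pi fun _ : Fin r => nu), CrvR6 δ (η r O) (η' r O))
    (hn : (n : ℤ) - n' = Q) :
    FF6 Z P n n' η η' (fun _ _ _ _ _ => 1) =
      ∑ r ∈ range (2 * (n + n') + 1), ((r.factorial : ℕ) : ℂ)⁻¹ *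
        ∫ O : Fin r → Xo, fI Z P NUP1.l n n' O ∂(Measure.pi fun _ => nu) := by
  unfold FF6
  refine Finset.sum_congr rfl fun r hr => ?_
  congr 1
  refine integral_congr_ae ?_
  filter_upwards [hη r (Nat.lt_succ_iff.1 (Finset.mem_range.1 hr))] with O hO
  rw [trm6_one h hP O hO hn, fI_fin]

/-- **The functional without insertion does not depend on the curves.** -/
theorem FF6_crv {δ κ : ℝ} {Q : ℤ} (h : QOk6 Z δ κ Q) (hP : StP δ P) {η η' ζ ζ' : Crs}
    (hη : ∀ r ≤ 2 * (n + n'), ∀ᵐ O ∂(Measure.pi fun _ : Fin r => nu), CrvR6 δ (η r O) (η' r O))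
    (hζ : ∀ r ≤ 2 * (n + n'), ∀ᵐ O ∂(Measure.pi fun _ : Fin r => nu), CrvR6 δ (ζ r O) (ζ' r O))
    (hn : (n : ℤ) - n' = Q) :
    FF6 Z P n n' η η' (fun _ _ _ _ _ => 1) = FF6 Z P n n' ζ ζ' (fun _ _ _ _ _ => 1) := by
  rw [FF6_fI h hP hη hn, FF6_fI h hP hζ hn]

end PHK

end
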