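import Pool.Agent.PHK.Defs
import Pool.Agent.PHK.Loc

/-!
# Bounds of the localiser of (P)

`gH6 P O s h`: `≤ 2`, `≤ ∑` over the `E`, `F` of the other species of `4 exp (-6 |Im h - ht|)`,
`≤ 2 exp (-6 (|Im h| - X - log (2 r + 2) / 6)_+)` if all `E`, `F` have height `≤ X`; the same for
`loc6 (gH6 P O) P x` (one factor per object): `loc6_le`, `loc6_win`, `prod_loc6_win`.
-/

set_option autoImplicit false

noncomputable section

open Complex Finset

namespace PHK

open NUO NUP1

private theorem tau6_eq (z : ℂ) : tau6 z = tau z := rfl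

private lemma posB_re (e t : ℝ) : (posB e t).re = (1 - e) * NUMF.l := by
  unfold posB posS vl
  simp
  show -((1 + e) * NUMF.l) + 2 * NUMF.l = (1 - e) * NUMF.l
  ring

private lemma posB_im (e t : ℝ) : (posB e t).im = t := by
  unfold posB posS vl
  simp

private lemma posL_re (j t : ℝ) : (posL j t).re = (1 - j) * NUMF.l := by
  unfold posL vl
  simp
  left
  rfl

private lemma posL_im (j t : ℝ) : (posL j t).im = t := by
  unfold posL vl
  simp

variable {P : Par6} {r : ℕ} {O : Fin r → Xo} {s : Bool} {h : ℂ}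

section base

variable (hh : |h.re - (1 - P.e) * NUMF.l| ≤ 2 / 3 * NUMF.l)
include hh

private lemma re_le (t : ℝ) : |(h - posB P.e t).re| ≤ 2 / 3 * NUMF.l := by
  rw [Complex.sub_re, posB_re]
  exact hh

/-- **the localiser is at most `2`** -/
theorem gH6_le_two : ‖gH6 P O s h‖ ≤ 2 := by
  unfold gH6
  refine (norm_sub_le _ _).trans ?_
  have : ‖∏ i, if sp (O i) = !s ∧ isE (O i) then tau6 (h - posB P.e (ht (O i))) else 1‖ ≤ 1 := by
    rw [norm_prod]
    refine Finset.prod_le_one (fun i _ => norm_nonneg _) fun i _ => ?_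
    split_ifs
    · exact norm_tau_le (re_le hh _)
    · rw [norm_one]
  rw [norm_one]
  linarith

/-- **locality** -/
theorem gH6_le_sum : ‖gH6 P O s h‖ ≤ ∑ i, if sp (O i) = !s ∧ isE (O i) then
    4 * Real.exp (-6 * |h.im - ht (O i)|) else 0 := by
  unfold gH6
  refine (norm_one_sub_prod_le _ _ fun i _ => ?_).trans (Finset.sum_le_sum fun i _ => ?_)
  · split_ifs
    · exact norm_tau_le (re_le hh _)
    · rw [norm_one]
  · split_ifs
    · have := norm_one_sub_tau (re_le hh (ht (O i)))
      rwa [Complex.sub_im, posB_im] at this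
    · rw [sub_self, norm_zero]

/-- decay beyond the window of the strings -/
theorem gH6_far {X : ℝ} (hX : ∀ i, sp (O i) = !s → isE (O i) → |ht (O i)| ≤ X) :
    ‖gH6 P O s h‖ ≤ 4 * r * Real.exp (-6 * (|h.im| - X)) := by
  refine (gH6_le_sum hh).trans ?_
  have h0 := Real.exp_pos (-6 * (|h.im| - X))
  have : ∀ i ∈ (Finset.univ : Finset (Fin r)), (if sp (O i) = !s ∧ isE (O i) then
      4 * Real.exp (-6 * |h.im - ht (O i)|) else 0) ≤ 4 * Real.exp (-6 * (|h.im| - X)) := by
    intro i _
    split_ifs with hi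
    · have h1 := abs_sub_abs_le_abs_sub h.im (ht (O i))
      have h2 := hX i hi.1 hi.2
      have : Real.exp (-6 * |h.im - ht (O i)|) ≤ Real.exp (-6 * (|h.im| - X)) :=
        Real.exp_le_exp.2 (by linarith)
      linarith
    · positivity
  refine (Finset.sum_le_sum this).trans (le_of_eq ?_)
  rw [Finset.sum_const, Finset.card_univ, Fintype.card_fin, nsmul_eq_mul]
  ring

/-- constant `2`, window `X + log (2 r + 2) / 6` -/
theorem gH6_win {X : ℝ} (hX : ∀ i, sp (O i) = !s → isE (O i) → |ht (O i)| ≤ X) :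
    ‖gH6 P O s h‖ ≤ 2 * Real.exp (-6 * max 0 (|h.im| - (X + Real.log (2 * r + 2) / 6))) := by
  rcases le_total (|h.im| - (X + Real.log (2 * r + 2) / 6)) 0 with h0 | h0
  · rw [max_eq_left h0, mul_zero, Real.exp_zero, mul_one]
    exact gH6_le_two hh
  · rw [max_eq_right h0]
    refine (gH6_far hh hX).trans ?_
    have hn : (0 : ℝ) ≤ r := Nat.cast_nonneg _
    have e : -6 * (|h.im| - (X + Real.log (2 * r + 2) / 6)) =
        Real.log (2 * r + 2) + -6 * (|h.im| - X) := by ring
    rw [e, Real.exp_add, Real.exp_log (by positivity), ← mul_assoc]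
    refine mul_le_mul_of_nonneg_right ?_ (Real.exp_pos _).le
    linarith

end base

section lines

variable (hP : GoodP6 P)
include hP

/-- the lines of the holes and the points of the strings -/
private lemma line_re {j : ℝ} (h1 : 1 / 40 ≤ j) (h2 : j ≤ 1) (t : ℝ) :
    |(posL j t).re - (1 - P.e) * NUMF.l| ≤ 2 / 3 * NUMF.l := by
  have hl := NUMF.l_pos
  have a := hP.e13
  have b := hP.e45
  rw [posL_re, abs_le]
  constructor <;> nlinarith

omit hP in
private lemma point_re (t : ℝ) : |(posB P.e t).re - (1 - P.e) * NUMF.l| ≤ 2 / 3 * NUMF.l := by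
  have hl := NUMF.l_pos
  rw [posB_re, sub_self, abs_zero]
  positivity

private lemma j1_re (t : ℝ) : |(posL P.j1 t).re - (1 - P.e) * NUMF.l| ≤ 2 / 3 * NUMF.l :=
  line_re hP (by linarith [hP.j1]) (by linarith [hP.j1e, hP.ej2, hP.j2]) t

private lemma j2_re (t : ℝ) : |(posL P.j2 t).re - (1 - P.e) * NUMF.l| ≤ 2 / 3 * NUMF.l :=
  line_re hP (by linarith [hP.j1e, hP.ej2, hP.j1]) hP.j2.le t

theorem loc6_le_two (x : Xo) : loc6 (gH6 P O) P x ≤ 2 := by
  unfold loc6
  cases k6 x
  · norm_num
  · norm_num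
  · norm_num
  · exact gH6_le_two (point_re (ht x))
  · exact gH6_le_two (j1_re hP (ht x))
  · exact gH6_le_two (j2_re hP (ht x))

omit hP in
theorem loc6_one {g : Bool → ℂ → ℂ} {x : Xo} (hx : ¬isH x) : loc6 g P x = 1 := by
  unfold loc6
  unfold isH at hx
  cases hk : k6 x <;> simp_all

/-- **one object**: `loc6 ≤ 2` for holes and `F`, `= 1` otherwise -/
theorem loc6_le (x : Xo) : loc6 (gH6 P O) P x ≤ if isH x then 2 else 1 := by
  by_cases hx : isH x
  · rw [if_pos hx]
    exact loc6_le_two hP x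
  · rw [if_neg hx, loc6_one hx]

/-- **one object, window** -/
theorem loc6_win {X : ℝ} (hX : ∀ i, isE (O i) → |ht (O i)| ≤ X) (x : Xo) :
    loc6 (gH6 P O) P x ≤ if isH x then
      2 * Real.exp (-6 * max 0 (|ht x| - (X + Real.log (2 * r + 2) / 6))) else 1 := by
  by_cases hx : isH x
  · rw [if_pos hx]
    unfold loc6
    unfold isH at hx
    cases hk : k6 x
    · simp [hk] at hx
    · simp [hk] at hx
    · simp [hk] at hx
    · have := gH6_win (O := O) (s := sp x) (point_re (P := P) (ht x)) (X := X) fun i _ hi => hX i hi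
      rwa [posB_im] at this
    · have := gH6_win (O := O) (s := sp x) (j1_re hP (ht x)) (X := X) fun i _ hi => hX i hi
      rwa [posL_im] at this
    · have := gH6_win (O := O) (s := sp x) (j2_re hP (ht x)) (X := X) fun i _ hi => hX i hi
      rwa [posL_im] at this
  · rw [if_neg hx, loc6_one hx]

/-- **one object, sum over the strings** -/
theorem loc6_le_sum (x : Xo) (hx : isH x) : loc6 (gH6 P O) P x ≤
    ∑ i, if sp (O i) = !(sp x) ∧ isE (O i) then 4 * Real.exp (-6 * |ht x - ht (O i)|) else 0 := by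
  unfold loc6
  unfold isH at hx
  cases hk : k6 x
  · simp [hk] at hx
  · simp [hk] at hx
  · simp [hk] at hx
  · have := gH6_le_sum (O := O) (s := sp x) (point_re (P := P) (ht x))
    rwa [posB_im] at this
  · have := gH6_le_sum (O := O) (s := sp x) (j1_re hP (ht x))
    rwa [posL_im] at this
  · have := gH6_le_sum (O := O) (s := sp x) (j2_re hP (ht x))
    rwa [posL_im] at this

/-- the product over the objects -/
theorem prod_loc6_win {X : ℝ} (hX : ∀ i, isE (O i) → |ht (O i)| ≤ X) :
    ∏ i, loc6 (gH6 P O) P (O i) ≤ ∏ i, if isH (O i) then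
      2 * Real.exp (-6 * max 0 (|ht (O i)| - (X + Real.log (2 * r + 2) / 6))) else 1 :=
  Finset.prod_le_prod (fun i _ => loc6_nonneg _ _ _) fun i _ => loc6_win hP hX (O i)

theorem prod_loc6_le : ∏ i, loc6 (gH6 P O) P (O i) ≤ 2 ^ r := by
  refine (Finset.prod_le_prod (fun i _ => loc6_nonneg _ _ _) fun i _ =>
    loc6_le_two hP (O i)).trans (le_of_eq ?_)
  simp

end lines

end PHK

end
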