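import Pool.Agent.PHK.Basic

/-!
# Bounds of the pair weights and of the potentials of (P)

`nrZ L z = ∏ ‖sin (z + n l)‖ ^ m` over a list `L` of pairs `(n, m)` of integers.  The modulus of the pair
weight of two objects of kinds `k`, `k'` is `nrZ (BZ σ k k')` at `(c k - c k') l + i (t - t')`, where
`σ` = same species, and the exponents sum up to `2` times the product of the charges.  Kinds on
different lines: no zero of the denominators; kinds on the same line (`E`, `F`): the powers of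
`|sinh t|` sum up to a nonnegative number.
-/

set_option autoImplicit false

noncomputable section

open Complex Finset

namespace PHK

open NUO NUP1 NUP1.Kn

/-! ### monomials -/

/-- `∏ ‖sin (z + n l)‖ ^ m` -/
def nrZ (L : List (ℤ × ℤ)) (z : ℂ) : ℝ :=
  (L.map fun p => ‖sin (z + ((p.1 * l : ℝ) : ℂ))‖ ^ p.2).prod

/-- sum of the exponents -/
def sE (L : List (ℤ × ℤ)) : ℤ := (L.map Prod.snd).sum

/-- sum of the exponents of the factor without shift -/
def sZ (L : List (ℤ × ℤ)) : ℤ := (L.map fun p => if p.1 = 0 then p.2 else 0).sum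

@[simp] theorem nrZ_nil (z : ℂ) : nrZ [] z = 1 := rfl

@[simp] theorem nrZ_cons (p : ℤ × ℤ) (L : List (ℤ × ℤ)) (z : ℂ) :
    nrZ (p :: L) z = ‖sin (z + ((p.1 * l : ℝ) : ℂ))‖ ^ p.2 * nrZ L z := by simp [nrZ]

@[simp] theorem sE_nil : sE [] = 0 := rfl
@[simp] theorem sE_cons (p : ℤ × ℤ) (L : List (ℤ × ℤ)) : sE (p :: L) = p.2 + sE L := by simp [sE]
@[simp] theorem sZ_nil : sZ [] = 0 := rfl
@[simp] theorem sZ_cons (p : ℤ × ℤ) (L : List (ℤ × ℤ)) :
    sZ (p :: L) = (if p.1 = 0 then p.2 else 0) + sZ L := by simp [sZ]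

theorem nrZ_append (L M : List (ℤ × ℤ)) (z : ℂ) : nrZ (L ++ M) z = nrZ L z * nrZ M z := by
  simp [nrZ]

theorem nrZ_nonneg (L : List (ℤ × ℤ)) (z : ℂ) : 0 ≤ nrZ L z := by
  induction L with
  | nil => simp
  | cons p L ih =>
    rw [nrZ_cons]
    exact mul_nonneg (zpow_nonneg (norm_nonneg _) _) ih

theorem nrZ_shift (L : List (ℤ × ℤ)) (z : ℂ) (k : ℤ) :
    nrZ L (z + ((k * l : ℝ) : ℂ)) = nrZ (L.map fun p => (k + p.1, p.2)) z := by
  induction L with
  | nil => simp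
  | cons p L ih =>
    rw [nrZ_cons, List.map_cons, nrZ_cons, ih]
    congr 4
    push_cast
    ring

theorem nrZ_zpow (L : List (ℤ × ℤ)) (z : ℂ) (k : ℤ) :
    nrZ L z ^ k = nrZ (L.map fun p => (p.1, k * p.2)) z := by
  induction L with
  | nil => simp
  | cons p L ih =>
    rw [nrZ_cons, List.map_cons, nrZ_cons, mul_zpow, ih, ← zpow_mul, mul_comm p.2 k]

/-! ### bounds -/

/-- the sine at a shift is bounded below when the real part stays away from the zeros -/
theorem sin_low {α β : ℝ} {n : ℤ} (h : ∀ x ∈ Set.Icc α β, Real.sin ((x + n) * l) ≠ 0) :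
    ∃ m : ℝ, 0 < m ∧ m ≤ 1 ∧ ∀ z : ℂ, z.re ∈ Set.Icc (α * l) (β * l) →
      m * Real.exp |z.im| ≤ ‖sin (z + ((n * l : ℝ) : ℂ))‖ := by
  have hl := Bd.l_pos
  rcases (Set.Icc α β).eq_empty_or_nonempty with h0 | h0
  · refine ⟨1, one_pos, le_rfl, fun z hz => ?_⟩
    have h1 : z.re / l ∈ Set.Icc α β := by
      rw [Set.mem_Icc, le_div_iff₀ hl, div_le_iff₀ hl]
      exact hz
    rw [h0] at h1
    exact absurd h1 (Set.notMem_empty _)
  · obtain ⟨x0, hx0, hm⟩ := isCompact_Icc.exists_isMinOn h0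
      (f := fun x : ℝ => |Real.sin ((x + n) * l)|) (by fun_prop)
    have hp : 0 < |Real.sin ((x0 + n) * l)| := abs_pos.2 (h x0 hx0)
    have h1 : |Real.sin ((x0 + n) * l)| ≤ 1 := Real.abs_sin_le_one _
    refine ⟨|Real.sin ((x0 + n) * l)| / 2, by positivity, by linarith, fun z hz => ?_⟩
    have h2 : z.re / l ∈ Set.Icc α β := by
      rw [Set.mem_Icc, le_div_iff₀ hl, div_le_iff₀ hl]
      exact hz
    have h3 : |Real.sin ((x0 + n) * l)| ≤ |Real.sin ((z.re / l + n) * l)| := hm h2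
    have e1 : (z.re / l + n) * l = (z + ((n * l : ℝ) : ℂ)).re := by
      rw [add_re, ofReal_re, add_mul, div_mul_cancel₀ _ hl.ne']
    have e2 : (z + ((n * l : ℝ) : ℂ)).im = z.im := by rw [add_im, ofReal_im, add_zero]
    have h4 := Bd.le_norm_sin (z + ((n * l : ℝ) : ℂ))
    rw [e2, ← e1] at h4
    have h5 := Bd.exp_le_cosh z.im
    calc |Real.sin ((x0 + n) * l)| / 2 * Real.exp |z.im|
        ≤ |Real.sin ((x0 + n) * l)| / 2 * (2 * Real.cosh z.im) := by gcongr
      _ = |Real.sin ((x0 + n) * l)| * Real.cosh z.im := by ring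
      _ ≤ |Real.sin ((z.re / l + n) * l)| * Real.cosh z.im :=
          mul_le_mul_of_nonneg_right h3 (Real.cosh_pos _).le
      _ ≤ _ := h4

/-- one factor -/
theorem one_bd {α β : ℝ} {n m : ℤ}
    (h : 0 ≤ m ∨ ∀ x ∈ Set.Icc α β, Real.sin ((x + n) * l) ≠ 0) :
    ∃ C : ℝ, 1 ≤ C ∧ ∀ z : ℂ, z.re ∈ Set.Icc (α * l) (β * l) →
      ‖sin (z + ((n * l : ℝ) : ℂ))‖ ^ m ≤ C * Real.exp (m * |z.im|) := by
  rcases le_or_gt 0 m with hm | hm
  · obtain ⟨k, rfl⟩ := Int.eq_ofNat_of_zero_le hm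
    refine ⟨1, le_rfl, fun z _ => ?_⟩
    have e2 : (z + ((n * l : ℝ) : ℂ)).im = z.im := by rw [add_im, ofReal_im, add_zero]
    have h1 := Bd.norm_sin_le_exp (z + ((n * l : ℝ) : ℂ))
    rw [e2] at h1
    rw [one_mul, zpow_natCast, Int.cast_natCast, Real.exp_nat_mul]
    exact pow_le_pow_left₀ (norm_nonneg _) h1 k
  · obtain ⟨k, hk⟩ := Int.eq_ofNat_of_zero_le (a := -m) (by omega)
    obtain ⟨c, hc, hc1, hb⟩ := sin_low (h.resolve_left (by omega))
    have hm' : m = -(k : ℤ) := by omega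
    subst hm'
    refine ⟨(c ^ k)⁻¹, (one_le_inv₀ (by positivity)).2 (pow_le_one₀ hc.le hc1), fun z hz => ?_⟩
    have h1 := hb z hz
    have h2 : 0 < c * Real.exp |z.im| := by positivity
    rw [zpow_neg, zpow_natCast]
    have h3 : (c * Real.exp |z.im|) ^ k ≤ ‖sin (z + ((n * l : ℝ) : ℂ))‖ ^ k :=
      pow_le_pow_left₀ h2.le h1 k
    calc (‖sin (z + ((n * l : ℝ) : ℂ))‖ ^ k)⁻¹ ≤ ((c * Real.exp |z.im|) ^ k)⁻¹ :=
          inv_anti₀ (by positivity) h3
      _ = _ := by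
          rw [mul_pow, mul_inv, ← Real.exp_nat_mul, ← Real.exp_neg]
          push_cast
          ring_nf

/-- a monomial without zeros of the denominator -/
theorem nrZ_bd {α β : ℝ} {L : List (ℤ × ℤ)}
    (h : ∀ p ∈ L, 0 ≤ p.2 ∨ ∀ x ∈ Set.Icc α β, Real.sin ((x + p.1) * l) ≠ 0) :
    ∃ C : ℝ, 1 ≤ C ∧ ∀ z : ℂ, z.re ∈ Set.Icc (α * l) (β * l) →
      nrZ L z ≤ C * Real.exp (sE L * |z.im|) := by
  induction L with
  | nil => exact ⟨1, le_rfl, fun z _ => by simp⟩
  | cons p L ih =>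
    obtain ⟨C, hC, h1⟩ := one_bd (h p List.mem_cons_self)
    obtain ⟨D, hD, h2⟩ := ih fun q hq => h q (List.mem_cons_of_mem _ hq)
    refine ⟨C * D, one_le_mul_of_one_le_of_one_le hC hD, fun z hz => ?_⟩
    rw [nrZ_cons, sE_cons]
    calc _ ≤ (C * Real.exp (p.2 * |z.im|)) * (D * Real.exp (sE L * |z.im|)) :=
          mul_le_mul (h1 z hz) (h2 z hz) (nrZ_nonneg _ _) (by positivity)
      _ = C * D * Real.exp (p.2 * |z.im| + sE L * |z.im|) := by
          rw [Real.exp_add]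
          ring
      _ = _ := by
          push_cast
          ring_nf

/-- decidable condition: no zero of the denominators for real parts in `(lo / 30, hi / 30) l` -/
def okI (lo hi : ℤ) (L : List (ℤ × ℤ)) : Prop :=
  ∀ p ∈ L, 0 ≤ p.2 ∨ (0 ≤ 30 * p.1 + lo ∧ 30 * p.1 + hi ≤ 240) ∨
    (-240 ≤ 30 * p.1 + lo ∧ 30 * p.1 + hi ≤ 0)

instance (lo hi : ℤ) (L : List (ℤ × ℤ)) : Decidable (okI lo hi L) := by
  unfold okI
  infer_instance

theorem sin_ne_l {x : ℝ} (h : (0 < x ∧ x < 8) ∨ (-8 < x ∧ x < 0)) : Real.sin (x * l) ≠ 0 := by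
  have hl := Bd.l_pos
  have h8 : 8 * l = Real.pi := by unfold l; ring
  rcases h with h | h
  · refine (Real.sin_pos_of_pos_of_lt_pi (mul_pos h.1 hl) ?_).ne'
    rw [← h8]
    exact mul_lt_mul_of_pos_right h.2 hl
  · have h1 : 0 < Real.sin (-(x * l)) := by
      refine Real.sin_pos_of_pos_of_lt_pi ?_ ?_
      · have := mul_pos (neg_pos.2 h.2) hl
        linarith
      · rw [← h8]
        have := mul_lt_mul_of_pos_right h.1 hl
        linarith
    rw [Real.sin_neg] at h1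
    exact (by linarith : Real.sin (x * l) < 0).ne

theorem nrZ_bdI {lo hi : ℤ} {L : List (ℤ × ℤ)} (h : okI lo hi L) {α β : ℝ}
    (h1 : (lo : ℝ) < 30 * α) (h2 : 30 * β < (hi : ℝ)) :
    ∃ C : ℝ, 1 ≤ C ∧ ∀ z : ℂ, z.re ∈ Set.Icc (α * l) (β * l) →
      nrZ L z ≤ C * Real.exp (sE L * |z.im|) := by
  refine nrZ_bd fun p hp => ?_
  rcases h p hp with h3 | h3 | h3
  · exact Or.inl h3
  · right
    intro x hx
    have a1 : (0 : ℝ) ≤ 30 * p.1 + lo := by exact_mod_cast h3.1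
    have a2 : (30 : ℝ) * p.1 + hi ≤ 240 := by exact_mod_cast h3.2
    refine sin_ne_l (Or.inl ⟨?_, ?_⟩)
    · linarith [hx.1]
    · linarith [hx.2]
  · right
    intro x hx
    have a1 : (-240 : ℝ) ≤ 30 * p.1 + lo := by exact_mod_cast h3.1
    have a2 : (30 : ℝ) * p.1 + hi ≤ 0 := by exact_mod_cast h3.2
    refine sin_ne_l (Or.inr ⟨?_, ?_⟩)
    · linarith [hx.1]
    · linarith [hx.2]

/-- decidable condition for kinds on the same line -/
def ok0 (L : List (ℤ × ℤ)) : Prop := 0 ≤ sZ L ∧ ∀ p ∈ L, -8 < p.1 ∧ p.1 < 8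

instance (L : List (ℤ × ℤ)) : Decidable (ok0 L) := by
  unfold ok0
  infer_instance

theorem nrZ_split (L : List (ℤ × ℤ)) {z : ℂ} (hz : sin z ≠ 0) :
    nrZ L z = ‖sin z‖ ^ sZ L * nrZ (L.filter fun p => p.1 ≠ 0) z := by
  have hn : ‖sin z‖ ≠ 0 := norm_ne_zero_iff.2 hz
  induction L with
  | nil => simp
  | cons p L ih =>
    by_cases hp : p.1 = 0
    · rw [nrZ_cons, sZ_cons, if_pos hp, ih, zpow_add₀ hn, List.filter_cons_of_neg (by simp [hp]), hp]
      simp
      ring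
    · rw [nrZ_cons, sZ_cons, if_neg hp, ih, zero_add, List.filter_cons_of_pos (by simp [hp]),
        nrZ_cons]
      ring

theorem sE_split (L : List (ℤ × ℤ)) : sE L = sZ L + sE (L.filter fun p => p.1 ≠ 0) := by
  induction L with
  | nil => simp
  | cons p L ih =>
    by_cases hp : p.1 = 0
    · rw [sE_cons, sZ_cons, if_pos hp, ih, List.filter_cons_of_neg (by simp [hp])]
      ring
    · rw [sE_cons, sZ_cons, if_neg hp, ih, List.filter_cons_of_pos (by simp [hp]), sE_cons]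
      ring

theorem sin_I_ne {t : ℝ} (ht : t ≠ 0) : sin ((t : ℂ) * I) ≠ 0 := by
  intro h
  have h1 := Bd.norm_sin_sq ((t : ℂ) * I)
  rw [h] at h1
  simp only [norm_zero, mul_re, ofReal_re, I_re, mul_zero, ofReal_im, I_im, mul_one, sub_self,
    Real.sin_zero, mul_im, add_zero] at h1
  have h2 : Real.sinh t = 0 := by (clear * - h1; nlinarith [sq_nonneg (Real.sinh t)])
  exact ht (Real.sinh_eq_zero.1 h2)

/-- **kinds on the same line**: the powers of `|sinh t|` cancel -/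
theorem nrZ_bd0 {L : List (ℤ × ℤ)} (h : ok0 L) :
    ∃ C : ℝ, 1 ≤ C ∧ ∀ t : ℝ, nrZ L ((t : ℂ) * I) ≤ C * Real.exp (sE L * |t|) := by
  obtain ⟨C, hC, h1⟩ := nrZ_bd (α := 0) (β := 0) (L := L.filter fun p => p.1 ≠ 0) (by
    intro p hp
    right
    intro x hx
    have hx0 : x = 0 := le_antisymm hx.2 hx.1
    subst hx0
    obtain ⟨hp1, hp2⟩ := List.mem_filter.1 hp
    obtain ⟨h3, h4⟩ := h.2 p hp1
    have h5 : p.1 ≠ 0 := by simpa using hp2
    rw [zero_add]
    rcases lt_or_gt_of_ne h5 with h6 | h6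
    · exact sin_ne_l (Or.inr ⟨by exact_mod_cast h3, by exact_mod_cast h6⟩)
    · exact sin_ne_l (Or.inl ⟨by exact_mod_cast h6, by exact_mod_cast h4⟩))
  refine ⟨max C (nrZ L 0), le_max_of_le_left hC, fun t => ?_⟩
  by_cases ht : t = 0
  · subst ht
    simp
  · refine le_trans ?_ (mul_le_mul_of_nonneg_right (le_max_left _ _) (Real.exp_pos _).le)
    rw [nrZ_split L (sin_I_ne ht)]
    have h2 := h1 ((t : ℂ) * I) (by simp)
    have e1 : ((t : ℂ) * I).im = t := by simp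
    rw [e1] at h2
    obtain ⟨k, hk⟩ := Int.eq_ofNat_of_zero_le h.1
    have h3 := Bd.norm_sin_le_exp ((t : ℂ) * I)
    rw [e1] at h3
    have h4 : ‖sin ((t : ℂ) * I)‖ ^ sZ L ≤ Real.exp (sZ L * |t|) := by
      rw [hk, zpow_natCast, Int.cast_natCast, Real.exp_nat_mul]
      exact pow_le_pow_left₀ (norm_nonneg _) h3 k
    calc _ ≤ Real.exp (sZ L * |t|) *
          (C * Real.exp (sE (L.filter fun p => p.1 ≠ 0) * |t|)) :=
          mul_le_mul h4 h2 (nrZ_nonneg _ _) (Real.exp_pos _).le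
      _ = C * Real.exp (sZ L * |t| + sE (L.filter fun p => p.1 ≠ 0) * |t|) := by
          rw [Real.exp_add]
          ring
      _ = _ := by
          rw [sE_split L]
          push_cast
          ring_nf

/-! ### the pair functions as monomials -/

/-- exponents of the pair functions: same species?, types -/
def blk : Bool → Bool → Bool → List (ℤ × ℤ)
  | true, true, true => [(0, 1), (1, 1), (-2, 1), (3, 1), (-1, 1), (0, 1), (-3, 1), (2, 1)]
  | true, true, false => [(0, 1), (-1, 1), (2, 1), (-3, 1)]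
  | true, false, true => [(0, 1), (1, 1), (-2, 1), (3, 1)]
  | true, false, false => [(0, 2), (2, 1), (-2, 1), (1, -1), (-1, -1)]
  | false, true, true => [(4, 2), (3, -2), (-3, -2), (4, 2), (3, -2), (-3, -2),
      (5, 2), (4, -2), (-2, -2), (3, 2), (2, -2), (-4, -2)]
  | false, true, false => [(4, 2), (3, -2), (-3, -2), (3, 2), (2, -2), (-4, -2)]
  | false, false, true => [(4, 2), (3, -2), (-3, -2), (5, 2), (4, -2), (-2, -2)]
  | false, false, false => [(4, 2), (3, -2), (-3, -2)]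

theorem norm_qg (z : ℂ) : ‖Bd.qg z‖ = nrZ [(4, 2), (3, -2), (-3, -2)] z := by
  have h4 : sin (z + (((4 : ℤ) * l : ℝ) : ℂ)) = cos z := by
    have : (((4 : ℤ) * l : ℝ) : ℂ) = Real.pi / 2 := by
      unfold l
      push_cast
      ring
    rw [this, Complex.sin_add_pi_div_two]
  have e3 : z + (((3 : ℤ) * l : ℝ) : ℂ) = z + 3 * l := by push_cast; ring
  have e4 : z + ((((-3 : ℤ) : ℝ) * l : ℝ) : ℂ) = z - 3 * l := by push_cast; ring
  simp only [nrZ_cons, nrZ_nil, h4, e3, e4]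
  unfold Bd.qg
  rw [norm_div, norm_mul, norm_pow, norm_pow, norm_pow]
  have z2 : ∀ x : ℝ, x ^ (-2 : ℤ) = (x ^ 2)⁻¹ := fun x => by
    rw [zpow_neg]
    norm_cast
  have z3 : ∀ x : ℝ, x ^ (2 : ℤ) = x ^ 2 := fun x => by norm_cast
  rw [z2, z2, z3, div_eq_mul_inv, mul_inv]
  ring

theorem norm_q (z : ℂ) : ‖q z‖ = nrZ [(0, 2), (2, 1), (-2, 1), (1, -1), (-1, -1)] z := by
  have e1 : z + (((1 : ℤ) * l : ℝ) : ℂ) = z + l := by push_cast; ring
  have e2 : z + (((2 : ℤ) * l : ℝ) : ℂ) = z + 2 * l := by push_cast; ring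
  have e3 : z + ((((-2 : ℤ) : ℝ) * l : ℝ) : ℂ) = z - 2 * l := by push_cast; ring
  have e4 : z + ((((-1 : ℤ) : ℝ) * l : ℝ) : ℂ) = z - l := by push_cast; ring
  have e0 : z + (((0 : ℤ) * l : ℝ) : ℂ) = z := by simp
  simp only [nrZ_cons, nrZ_nil, e0, e1, e2, e3, e4]
  unfold q
  have z3 : ∀ x : ℝ, x ^ (2 : ℤ) = x ^ 2 := fun x => by norm_cast
  simp only [norm_inv, norm_mul, norm_neg, norm_pow, zpow_neg, zpow_one, z3, div_eq_mul_inv,
    mul_inv]
  ring

theorem norm_q1 (z : ℂ) : ‖q1 z‖ = nrZ [(0, 1), (1, 1), (-2, 1), (3, 1)] z := by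
  have e1 : z + (((1 : ℤ) * l : ℝ) : ℂ) = z + l := by push_cast; ring
  have e2 : z + (((3 : ℤ) * l : ℝ) : ℂ) = z + 3 * l := by push_cast; ring
  have e3 : z + ((((-2 : ℤ) : ℝ) * l : ℝ) : ℂ) = z - 2 * l := by push_cast; ring
  have e0 : z + (((0 : ℤ) * l : ℝ) : ℂ) = z := by simp
  simp only [nrZ_cons, nrZ_nil, e0, e1, e2, e3]
  unfold q1
  simp only [norm_mul, zpow_one]
  ring

theorem norm_sin_neg_add (z : ℂ) (n : ℤ) :
    ‖sin (-z + ((n * l : ℝ) : ℂ))‖ = ‖sin (z + (((-n : ℤ) * l : ℝ) : ℂ))‖ := by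
  rw [← norm_neg, ← Complex.sin_neg]
  congr 2
  push_cast
  ring

theorem nrZ_neg (L : List (ℤ × ℤ)) (z : ℂ) :
    nrZ L (-z) = nrZ (L.map fun p => (-p.1, p.2)) z := by
  induction L with
  | nil => simp
  | cons p L ih =>
    rw [nrZ_cons, List.map_cons, nrZ_cons, ih, norm_sin_neg_add]

theorem norm_pz (a b : Bool) (z : ℂ) : ‖pz a b z‖ = nrZ (blk true a b) z := by
  rcases a with _ | _ <;> rcases b with _ | _
  · exact norm_q z
  · exact norm_q1 z
  · show ‖q1 (-z)‖ = _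
    rw [norm_q1, nrZ_neg]
    rfl
  · show ‖q1 z * q1 (z - l)‖ = _
    have e : z - l = z + (((-1 : ℤ) * l : ℝ) : ℂ) := by push_cast; ring
    rw [norm_mul, e, norm_q1, norm_q1, nrZ_shift, ← nrZ_append]
    rfl

theorem norm_cz (a b : Bool) (z : ℂ) : ‖cz a b z‖ = nrZ (blk false a b) z := by
  have e : z - l = z + (((-1 : ℤ) * l : ℝ) : ℂ) := by push_cast; ring
  have e' : z + l = z + (((1 : ℤ) * l : ℝ) : ℂ) := by push_cast; ring
  rcases a with _ | _ <;> rcases b with _ | _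
  · exact norm_qg z
  · show ‖Bd.qg z * Bd.qg (z + l)‖ = _
    rw [norm_mul, e', norm_qg, norm_qg, nrZ_shift, ← nrZ_append]
    rfl
  · show ‖Bd.qg z * Bd.qg (z - l)‖ = _
    rw [norm_mul, e, norm_qg, norm_qg, nrZ_shift, ← nrZ_append]
    rfl
  · show ‖Bd.qg z * Bd.qg z * (Bd.qg (z + l) * Bd.qg (z - l))‖ = _
    rw [norm_mul, norm_mul, norm_mul, e, e', norm_qg, norm_qg, norm_qg, nrZ_shift, nrZ_shift,
      ← nrZ_append, ← nrZ_append, ← nrZ_append]
    rfl

/-- pair function of two signed constituents -/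
theorem norm_pp6_blk (s s' a b : Bool) (z z' : ℂ) (m m' : ℤ) :
    ‖pp6 ((s, a, z), m) ((s', b, z'), m')‖ =
      nrZ ((blk (s == s') a b).map fun p => (p.1, m * m' * p.2)) (z - z') := by
  rw [norm_pp6, ← nrZ_zpow]
  congr 1
  unfold pp
  by_cases h : s = s'
  · subst h
    simp only [if_true, beq_self_eq_true]
    exact norm_pz a b _
  · have h' : (s == s') = false := by simpa using h
    simp only [h, if_false, h']
    exact norm_cz a b _

/-! ### the objects -/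

/-- constituents of a kind: own species?, type, shift, multiplicity -/
def ctz : Kd6 → List (Bool × Bool × ℤ × ℤ)
  | .L => [(true, false, 0, 1)]
  | .T => [(true, true, 0, 1)]
  | .E => [(true, true, -2, 1), (false, false, 0, 2)]
  | .F => [(true, true, -2, 1), (false, false, 0, 2), (true, false, 0, -1)]
  | .H1 => [(true, false, 0, -1)]
  | .H2 => [(true, false, 0, -1)]

/-- real part of the line of a kind, in units of `l` -/
def ccP6 (P : Par6) : Kd6 → ℝ
  | .L => 1 - P.jL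
  | .T => -(1 / 2)
  | .E => 1 - P.e
  | .F => 1 - P.e
  | .H1 => 1 - P.j1
  | .H2 => 1 - P.j2

/-- list of a kind at a point -/
def evc (s : Bool) (L : List (Bool × Bool × ℤ × ℤ)) (w : ℂ) : List Part6 :=
  L.map fun c => (((if c.1 = true then s else !s), c.2.1, w + ((c.2.2.1 * l : ℝ) : ℂ)), c.2.2.2)

theorem prt_evc (P : Par6) (s : Bool) (k : Kd6) (t : ℝ) :
    prt P (s, k) t = evc s (ctz k) (((ccP6 P k * l : ℝ) : ℂ) + t * I) := by
  have h0 : ∀ w : ℂ, w + (((0 : ℤ) * l : ℝ) : ℂ) = w := fun w => by simp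
  have hS : posS P.e t = (((1 - P.e) * l : ℝ) : ℂ) + t * I + ((((-2 : ℤ) : ℝ) * l : ℝ) : ℂ) := by
    unfold posS vl
    push_cast
    ring
  have hB : posB P.e t = (((1 - P.e) * l : ℝ) : ℂ) + t * I := by
    unfold posB posS vl
    push_cast
    ring
  have hT : posT t = ((-(1 / 2) * l : ℝ) : ℂ) + t * I := by
    unfold posT vl
    push_cast
    ring
  cases k <;> simp only [prt, evc, ctz, ccP6, List.map_cons, List.map_nil, h0, hS, hB, hT, if_true,
    Bool.false_eq_true, if_false] <;> rfl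

/-- the monomial of two lists -/
def BB (σ : Bool) (A B : List (Bool × Bool × ℤ × ℤ)) : List (ℤ × ℤ) :=
  A.flatMap fun a => B.flatMap fun b =>
    (blk (σ == (a.1 == b.1)) a.2.1 b.2.1).map fun p =>
      (a.2.2.1 - b.2.2.1 + p.1, a.2.2.2 * b.2.2.2 * p.2)

theorem nrZ_flatMap {α : Type*} (A : List α) (f : α → List (ℤ × ℤ)) (z : ℂ) :
    nrZ (A.flatMap f) z = (A.map fun a => nrZ (f a) z).prod := by
  induction A with
  | nil => simp
  | cons a A ih => rw [List.flatMap_cons, nrZ_append, ih, List.map_cons, List.prod_cons]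

theorem norm_ppC6_evc (s s' : Bool) (A B : List (Bool × Bool × ℤ × ℤ)) (w w' : ℂ) :
    ‖ppC6 (evc s A w) (evc s' B w')‖ = nrZ (BB (s == s') A B) (w - w') := by
  rw [norm_ppC6]
  unfold ppN6 evc BB
  rw [nrZ_flatMap, List.map_map]
  congr 1
  refine List.map_congr_left fun a _ => ?_
  simp only [Function.comp]
  rw [nrZ_flatMap, List.map_map]
  congr 1
  refine List.map_congr_left fun b _ => ?_
  simp only [Function.comp]
  rw [norm_pp6_blk]
  have hs : ((if a.1 = true then s else !s) == (if b.1 = true then s' else !s')) =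
      ((s == s') == (a.1 == b.1)) := by
    obtain ⟨a1, a2⟩ := a
    obtain ⟨b1, b2⟩ := b
    cases a1 <;> cases b1 <;> cases s <;> cases s' <;> rfl
  rw [hs]
  have e : w + ((a.2.2.1 * l : ℝ) : ℂ) - (w' + ((b.2.2.1 * l : ℝ) : ℂ)) =
      w - w' + (((a.2.2.1 - b.2.2.1 : ℤ) * l : ℝ) : ℂ) := by
    push_cast
    ring
  rw [e, nrZ_shift, List.map_map]
  rfl

/-- charge of an object: own minus other species -/
def lk6 : Kd6 → ℤ
  | .L => 1
  | .T => 2
  | .E => 0
  | .F => -1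
  | .H1 => -1
  | .H2 => -1

/-- sign of (same species) -/
def sgP6 (σ : Bool) : ℤ := if σ = true then 1 else -1

theorem sgP6_cast (s : Bool) : (sgP6 s : ℝ) = if s = true then 1 else -1 := by
  unfold sgP6
  cases s <;> simp

/-- **charge of an object, species true minus species false** -/
def lc6 (x : Xo) : ℝ := chg6 true x - chg6 false x

theorem lc6_eq (x : Xo) : lc6 x = sgP6 (sp x) * lk6 (k6 x) := by
  unfold lc6 chg6 sgP6 lk6
  cases k6 x <;> cases sp x <;> norm_num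

theorem sE_BB (σ : Bool) (k k' : Kd6) :
    sE (BB σ (ctz k) (ctz k')) = 2 * (sgP6 σ * (lk6 k * lk6 k')) := by
  cases σ <;> cases k <;> cases k' <;> rfl

/-- intervals of the differences of the lines, in units of `l / 30`; `none` = the same line -/
def ivl : Kd6 → Kd6 → Option (ℤ × ℤ)
  | .L, .L => none
  | .L, .T => some (-30, -15)
  | .L, .E => some (-60, -45)
  | .L, .F => some (-60, -45)
  | .L, .H1 => some (-60, -45)
  | .L, .H2 => some (-60, -30)
  | .T, .L => some (15, 30)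
  | .T, .T => none
  | .T, .E => some (-36, -30)
  | .T, .F => some (-36, -30)
  | .T, .H1 => some (-45, -30)
  | .T, .H2 => some (-36, -15)
  | .E, .L => some (45, 60)
  | .E, .T => some (30, 36)
  | .E, .E => none
  | .E, .F => none
  | .E, .H1 => some (-15, 0)
  | .E, .H2 => some (0, 20)
  | .F, .L => some (45, 60)
  | .F, .T => some (30, 36)
  | .F, .E => none
  | .F, .F => none
  | .F, .H1 => some (-15, 0)
  | .F, .H2 => some (0, 20)
  | .H1, .L => some (45, 60)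
  | .H1, .T => some (30, 45)
  | .H1, .E => some (0, 15)
  | .H1, .F => some (0, 15)
  | .H1, .H1 => none
  | .H1, .H2 => some (0, 30)
  | .H2, .L => some (30, 60)
  | .H2, .T => some (15, 36)
  | .H2, .E => some (-20, 0)
  | .H2, .F => some (-20, 0)
  | .H2, .H1 => some (-30, 0)
  | .H2, .H2 => none

/-- what a pair of kinds needs -/
def okP (k k' : Kd6) (L : List (ℤ × ℤ)) : Prop :=
  match ivl k k' with
  | none => ok0 L
  | some p => okI p.1 p.2 L

instance (k k' : Kd6) (L : List (ℤ × ℤ)) : Decidable (okP k k' L) := by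
  unfold okP
  cases ivl k k' <;> infer_instance

set_option maxRecDepth 100000 in
theorem okP_BB (σ : Bool) (k k' : Kd6) : okP k k' (BB σ (ctz k) (ctz k')) := by
  cases σ <;> cases k <;> cases k' <;> decide

/-- the differences of the lines are in the intervals -/
theorem ivl_ok {P : Par6} (h : GoodP6 P) (k k' : Kd6) :
    match ivl k k' with
    | none => ccP6 P k = ccP6 P k'
    | some p => (p.1 : ℝ) < 30 * (ccP6 P k - ccP6 P k') ∧ 30 * (ccP6 P k - ccP6 P k') < p.2 := by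
  have h1 := h.j1
  have h2 := h.j1e
  have h3 := h.ej2
  have h4 := h.j2
  have h5 := h.L2
  have h6 := h.Lj
  have h7 := h.e13
  have h8 := h.e48
  cases k <;> cases k' <;> simp only [ivl, ccP6] <;> first | rfl | (constructor <;> norm_num <;> (clear * - h2 h5 h6 h8 h3 h7 h4; linarith))

/-- the bound for two kinds -/
theorem kinds_bd {P : Par6} (h : GoodP6 P) (σ : Bool) (k k' : Kd6) :
    ∃ C : ℝ, 1 ≤ C ∧ ∀ t : ℝ, nrZ (BB σ (ctz k) (ctz k'))
        ((((ccP6 P k - ccP6 P k') * l : ℝ) : ℂ) + t * I) ≤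
      C * Real.exp (2 * ((sgP6 σ * (lk6 k * lk6 k') : ℤ) * |t|)) := by
  have h1 := okP_BB σ k k'
  have h2 := ivl_ok h k k'
  have h3 := sE_BB σ k k'
  have e1 : ∀ t : ℝ, (sE (BB σ (ctz k) (ctz k')) : ℝ) * |t| =
      2 * ((sgP6 σ * (lk6 k * lk6 k') : ℤ) * |t|) := fun t => by
    rw [h3]
    push_cast
    ring
  unfold okP at h1
  rcases hi : ivl k k' with _ | p
  · simp only [hi] at h1 h2
    obtain ⟨C, hC, h4⟩ := nrZ_bd0 h1
    refine ⟨C, hC, fun t => ?_⟩
    have h5 := h4 t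
    rw [e1] at h5
    rw [h2, sub_self, zero_mul, ofReal_zero, zero_add]
    exact h5
  · simp only [hi] at h1 h2
    obtain ⟨C, hC, h4⟩ := nrZ_bdI h1 h2.1 h2.2
    refine ⟨C, hC, fun t => ?_⟩
    have h5 := h4 ((((ccP6 P k - ccP6 P k') * l : ℝ) : ℂ) + t * I) (by simp)
    have e2 : ((((ccP6 P k - ccP6 P k') * l : ℝ) : ℂ) + t * I).im = t := by simp
    rw [e2, e1] at h5
    exact h5

/-- **the pair weights of all objects** -/
theorem pair_bd6 {P : Par6} (h : GoodP6 P) : ∃ C : ℝ, 1 ≤ C ∧ ∀ x y : Xo,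
    ‖pairC6 P x y‖ ≤ C * Real.exp (2 * (lc6 x * lc6 y * |ht x - ht y|)) := by
  choose C hC hb using fun p : Bool × Kd6 × Kd6 => kinds_bd h p.1 p.2.1 p.2.2
  refine ⟨∑ p, C p, ?_, fun x y => ?_⟩
  · refine (hC (true, .L, .L)).trans ?_
    exact Finset.single_le_sum (f := C) (fun p _ => zero_le_one.trans (hC p)) (Finset.mem_univ _)
  · unfold pairC6
    rw [parts6_eq, parts6_eq, prt_evc, prt_evc, norm_ppC6_evc]
    have e : (((ccP6 P (k6 x) * l : ℝ) : ℂ) + (ht x : ℂ) * I) -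
        (((ccP6 P (k6 y) * l : ℝ) : ℂ) + (ht y : ℂ) * I) =
        (((ccP6 P (k6 x) - ccP6 P (k6 y)) * l : ℝ) : ℂ) + ((ht x - ht y : ℝ) : ℂ) * I := by
      push_cast
      ring
    rw [e]
    refine (hb (sp x == sp y, k6 x, k6 y) (ht x - ht y)).trans ?_
    have e2 : ((sgP6 (sp x == sp y) * (lk6 (k6 x) * lk6 (k6 y)) : ℤ) : ℝ) = lc6 x * lc6 y := by
      rw [lc6_eq, lc6_eq]
      cases sp x <;> cases sp y <;> simp [sgP6]
    rw [e2]
    refine mul_le_mul_of_nonneg_right ?_ (Real.exp_pos _).le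
    exact Finset.single_le_sum (f := C) (fun p _ => zero_le_one.trans (hC p)) (Finset.mem_univ _)

/-! ### the potentials -/

/-- intervals of the offsets with a margin -/
def ivQ : Kd6 → ℤ × ℤ
  | .L => (59, 76)
  | .T => (44, 46)
  | .E => (9, 16)
  | .F => (9, 16)
  | .H1 => (0, 16)
  | .H2 => (9, 31)

/-- a quantum -/
def ctq : List (Bool × Bool × ℤ × ℤ) := [(true, false, 0, 1)]

set_option maxRecDepth 100000 in
theorem okI_BQ (σ : Bool) (k : Kd6) : okI (ivQ k).1 (ivQ k).2 (BB σ ctq (ctz k)) := by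
  cases σ <;> cases k <;> decide

theorem sE_BQ (σ : Bool) (k : Kd6) : sE (BB σ ctq (ctz k)) = 2 * (sgP6 σ * lk6 k) := by
  cases σ <;> cases k <;> rfl

theorem ivQ_ok {P : Par6} (h : GoodP6 P) (k : Kd6) :
    ((ivQ k).1 : ℝ) < 30 * (39 / 40 - ccP6 P k) ∧ 30 * (41 / 40 - ccP6 P k) < (ivQ k).2 := by
  have h1 := h.j1
  have h2 := h.j1e
  have h3 := h.ej2
  have h4 := h.j2
  have h5 := h.L2
  have h6 := h.Lj
  have h7 := h.e13
  have h8 := h.e48
  cases k <;> simp only [ivQ, ccP6] <;> (constructor <;> norm_num <;> (clear * - h2 h5 h6 h8 h7 h1 h3 h4; linarith))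

/-- **the potentials of all objects on a quantum near `A`** (`|Re u - l| ≤ l / 40`: left of the line of
`H1`) -/
theorem pot_bd6 {P : Par6} (h : GoodP6 P) : ∃ C : ℝ, 1 ≤ C ∧ ∀ (s : Bool) (x : Xo) (u : ℂ),
    u.re ∈ Set.Icc (39 / 40 * l) (41 / 40 * l) →
      ‖potC6 P x s u‖ ≤ C * Real.exp (2 * (sgP6 s * lc6 x * |u.im - ht x|)) := by
  have key : ∀ p : Bool × Kd6, ∃ C : ℝ, 1 ≤ C ∧ ∀ z : ℂ,
      z.re ∈ Set.Icc ((39 / 40 - ccP6 P p.2) * l) ((41 / 40 - ccP6 P p.2) * l) →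
      nrZ (BB p.1 ctq (ctz p.2)) z ≤ C * Real.exp (sE (BB p.1 ctq (ctz p.2)) * |z.im|) := fun p =>
    nrZ_bdI (okI_BQ p.1 p.2) (ivQ_ok h p.2).1 (ivQ_ok h p.2).2
  choose C hC hb using key
  refine ⟨∑ p, C p, ?_, fun s x u hu => ?_⟩
  · refine (hC (true, .L)).trans ?_
    exact Finset.single_le_sum (f := C) (fun p _ => zero_le_one.trans (hC p)) (Finset.mem_univ _)
  · unfold potC6
    have e0 : ([((s, false, u), 1)] : List Part6) = evc s ctq u := by
      simp [evc, ctq]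
    rw [parts6_eq, prt_evc, e0, norm_ppC6_evc]
    have h1 := hb (s == sp x, k6 x) (u - (((ccP6 P (k6 x) * l : ℝ) : ℂ) + (ht x : ℂ) * I)) (by
      have e : (u - (((ccP6 P (k6 x) * l : ℝ) : ℂ) + (ht x : ℂ) * I)).re =
          u.re - ccP6 P (k6 x) * l := by simp
      rw [e]
      constructor
      · have := hu.1
        linarith
      · have := hu.2
        linarith)
    have e1 : (u - (((ccP6 P (k6 x) * l : ℝ) : ℂ) + (ht x : ℂ) * I)).im = u.im - ht x := by simp
    rw [e1, sE_BQ] at h1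
    have e2 : ((2 * (sgP6 (s == sp x) * lk6 (k6 x)) : ℤ) : ℝ) * |u.im - ht x| =
        2 * (sgP6 s * lc6 x * |u.im - ht x|) := by
      rw [lc6_eq]
      cases s <;> cases sp x <;> simp [sgP6] <;> ring
    rw [e2] at h1
    refine h1.trans (mul_le_mul_of_nonneg_right ?_ (Real.exp_pos _).le)
    exact Finset.single_le_sum (f := C) (fun p _ => zero_le_one.trans (hC p)) (Finset.mem_univ _)

end PHK

end
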