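import Pool.Agent.PHK.WGas
import Pool.Agent.PHK.Lab
import Pool.Agent.PHK.PairB
import Pool.Agent.PHK.Loc6

/-!
# The particle-hole form (P): the terms are absolutely integrable

`DecQ6 Z P κ κ' q0`: the decay of the class functions (total charge `q0`): quanta, objects `L`, `T` at
the rate `κ` (and the charge), strings `S` at every rate, growth `κ' < 6` of the inverses of the
functions of the quanta on the lines of the holes.

* `obK6_bd`, `locI_bd`: one body weights, localisers;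
* **`fI_bd`**: `‖fI Z P l n n' (xo (K i) (t i))‖ ≤ C ∏ exp (-δ |t i|)`;
* **`integrable_fI`**: over the heights, for every index type.
-/

set_option autoImplicit false
set_option linter.unusedSectionVars false

noncomputable section

open Complex MeasureTheory Finset
open scoped Real ENNReal

namespace PHK

open NUO NUP1 NUP1S NUP1S.Mg NUP1S.Ab NUP1S.AbG NUP1S.AbC NURow
open NUP1.Bd (wt Ob)

private lemma llq : NUP1.l = NUMF.l := rfl

/-! ### growth in the height -/

/-- growth `exp (r |t|)` -/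
def Gr6 (r : ℝ) (f : ℝ → ℂ) : Prop := ∃ C : ℝ, 0 ≤ C ∧ ∀ t, ‖f t‖ ≤ C * Real.exp (r * |t|)

theorem Gr6.mul {r r' : ℝ} {f g : ℝ → ℂ} (h : Gr6 r f) (h' : Gr6 r' g) :
    Gr6 (r + r') fun t => f t * g t := by
  obtain ⟨C, hC, h⟩ := h
  obtain ⟨D, hD, h'⟩ := h'
  refine ⟨C * D, mul_nonneg hC hD, fun t => ?_⟩
  rw [norm_mul]
  calc _ ≤ (C * Real.exp (r * |t|)) * (D * Real.exp (r' * |t|)) :=
        mul_le_mul (h t) (h' t) (norm_nonneg _) (by positivity)
    _ = _ := by
        rw [add_mul, Real.exp_add]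
        ring

theorem Gr6.const (c : ℂ) : Gr6 0 fun _ => c := ⟨‖c‖, norm_nonneg _, fun t => by simp⟩

theorem Gr6.mono {r r' : ℝ} {f : ℝ → ℂ} (h : Gr6 r f) (hr : r ≤ r') : Gr6 r' f := by
  obtain ⟨C, hC, h⟩ := h
  refine ⟨C, hC, fun t => (h t).trans (mul_le_mul_of_nonneg_left ?_ hC)⟩
  exact Real.exp_le_exp.2 (mul_le_mul_of_nonneg_right hr (abs_nonneg t))

theorem Gr6.sq {r : ℝ} {f : ℝ → ℂ} (h : Gr6 r f) : Gr6 (r + r) fun t => f t ^ 2 := by
  have := h.mul h
  simpa only [pow_two] using this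

theorem Gr6.of_decOn {κ : ℝ} {K : Set ℝ} {h : ℂ → ℂ} (hd : DecOn κ K h) {p : ℝ → ℂ}
    (hp : ∀ t, (p t).re ∈ K) (hi : ∀ t, (p t).im = t) : Gr6 (-κ) fun t => h (p t) := by
  obtain ⟨D, hd⟩ := hd
  refine ⟨max D 0, le_max_right _ _, fun t => (hd _ (hp t)).trans ?_⟩
  rw [hi, neg_mul]
  exact mul_le_mul_of_nonneg_right (le_max_left _ _) (Real.exp_pos _).le

theorem Gr6.of_bdd {κ : ℝ} {K : Set ℝ} {h : ℂ → ℂ} (hd : Bdd K κ h) {p : ℝ → ℂ}
    (hp : ∀ t, (p t).re ∈ K) (hi : ∀ t, (p t).im = t) : Gr6 κ fun t => h (p t) := by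
  obtain ⟨D, hD, hd⟩ := hd
  refine ⟨D, hD, fun t => (hd _ (hp t)).trans ?_⟩
  rw [hi]

/-! ### decay of the class functions -/

/-- **decay of the class functions of (P)** -/
structure DecQ6 (Z : Bool → Option O3 → ℂ → ℂ) (P : Par6) (κ κ' q0 : ℝ) : Prop where
  kpos : 0 < κ
  k6 : κ' < 6
  A : ∀ s, DecOn (κ + 2 * q0 * sc (s, Ob.A)) (Set.Icc ((1 - P.e) * l) l) (Z s none)
  L : ∀ s, DecOn (κ + 2 * q0 * sc (s, Ob.L)) {(1 - P.jL) * l} (Z s (some .L))
  T : ∀ s, DecOn (κ + 2 * q0 * sc (s, Ob.S)) {-(l / 2)} (Z s (some .T))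
  S : ∀ s (N : ℕ), DecOn (N : ℝ) {-((1 + P.e) * l)} (Z s (some .S))
  H : ∀ s, Bdd (Set.Icc ((1 - P.j2) * l) ((1 - P.j1) * l)) (κ' + 2 * q0 * sc (s, Ob.A))
    fun u => (Z s none u)⁻¹

variable {Z : Bool → Option O3 → ℂ → ℂ} {P : Par6} {κ κ' q0 : ℝ}

/-- rate of a kind: `M` for the strings -/
def kqI6 (κ κ' M : ℝ) : Kd6 → ℝ
  | .L => κ
  | .T => κ
  | .E => M
  | .F => M
  | .H1 => -κ'
  | .H2 => -κ'

theorem posB_re6 (e t : ℝ) : (posB e t).re = (1 - e) * l := by
  have h1 : (posS e t).re = -((1 + e) * NUMF.l) := NUO.vl_re _ _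
  have h2 : (2 * (NUMF.l : ℂ)).re = 2 * NUMF.l := by simp
  have h3 : (posB e t).re = (posS e t).re + (2 * (NUMF.l : ℂ)).re := rfl
  rw [h3, h1, h2, llq]
  ring

theorem posB_im6 (e t : ℝ) : (posB e t).im = t := by
  have h1 : (posS e t).im = t := NUO.vl_im _ _
  have h2 : (2 * (NUMF.l : ℂ)).im = 0 := by simp
  have h3 : (posB e t).im = (posS e t).im + (2 * (NUMF.l : ℂ)).im := rfl
  rw [h3, h1, h2, add_zero]

theorem sc_A6 (s : Bool) : sc (s, Ob.A) = (sgP6 s : ℝ) := by
  rw [sgP6_cast]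
  cases s <;> simp [sc, Bd.chg]

theorem sc_L6 (s : Bool) : sc (s, Ob.L) = (sgP6 s : ℝ) := by
  rw [sgP6_cast]
  cases s <;> simp [sc, Bd.chg]

theorem sc_S6 (s : Bool) : sc (s, Ob.S) = 2 * (sgP6 s : ℝ) := by
  rw [sgP6_cast]
  cases s <;> simp [sc, Bd.chg]

theorem sgP6_not (s : Bool) : (sgP6 (!s) : ℝ) = -(sgP6 s : ℝ) := by
  cases s <;> simp [sgP6]

theorem ob_xo_bd (hP : GoodP6 P) (h : DecQ6 Z P κ κ' q0) (M : ℕ) (k : Bool × Kd6) :
    Gr6 (-(kqI6 κ κ' M k.2 + 2 * q0 * ((sgP6 k.1 : ℝ) * (lk6 k.2 : ℝ))))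
      fun t => obK6 Z P (xo k t) := by
  obtain ⟨s, k⟩ := k
  have hl := NUMF.l_pos
  have hκ := h.kpos
  have hB : ∀ s', Gr6 (-(κ + 2 * q0 * sc (s', Ob.A))) fun t => Z s' none (posB P.e t) := fun s' =>
    Gr6.of_decOn (h.A s') (fun t => by
      rw [posB_re6]
      refine Set.left_mem_Icc.2 ?_
      have h1 := hP.e13
      have h2 : 0 < NUMF.l := hl
      rw [llq]
      nlinarith) (posB_im6 P.e)
  obtain ⟨N, hN⟩ : ∃ N : ℕ, M + 4 * |q0| + |κ'| ≤ (N : ℝ) := exists_nat_ge _
  have hS := Gr6.of_decOn (h.S s N) (p := fun t => posS P.e t) (fun t => NUO.vl_re _ _)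
    fun t => NUO.vl_im _ _
  have hq1 := le_abs_self q0
  have hq2 := neg_abs_le q0
  have hq3 := le_abs_self κ'
  have hq4 := neg_abs_le κ'
  have hq5 := abs_nonneg q0
  have hH : ∀ j, P.j1 ≤ j → j ≤ P.j2 → ∀ p : ℝ → ℂ, (∀ t, (p t).re = (1 - j) * l) →
      (∀ t, (p t).im = t) → Gr6 (κ' + 2 * q0 * sc (s, Ob.A)) fun t => (Z s none (p t))⁻¹ :=
    fun j h1 h2 p hp hi => Gr6.of_bdd (h.H s) (fun t => by
      rw [hp, llq]
      constructor <;> nlinarith) hi
  cases k
  · have e : ∀ t, obK6 Z P (xo (s, .L) t) = cC6 .L * Z s (some .L) (posL P.jL t) := fun t => by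
      rw [obK6_L Z P (k6_xo' s .L t), sp_xo', ht_xo']
    simp only [e]
    refine ((Gr6.const _).mul (Gr6.of_decOn (h.L s) (fun t => NUO.vl_re _ _)
      fun t => NUO.vl_im _ _)).mono (le_of_eq ?_)
    rw [sc_L6]
    simp [kqI6, lk6]
  · have e : ∀ t, obK6 Z P (xo (s, .T) t) = cC6 .T * Z s (some .T) (posT t) := fun t => by
      rw [obK6_T Z P (k6_xo' s .T t), sp_xo', ht_xo']
    simp only [e]
    refine ((Gr6.const _).mul (Gr6.of_decOn (h.T s) (p := fun t => posT t) (fun t => ?_)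
      fun t => NUO.vl_im _ _)).mono (le_of_eq ?_)
    · have : (posT t).re = -(1 / 2 * NUMF.l) := NUO.vl_re _ _
      simp only [this, Set.mem_singleton_iff, llq]
      ring
    · rw [sc_S6]
      simp only [kqI6, lk6]
      push_cast
      ring
  · have e : ∀ t, obK6 Z P (xo (s, .E) t) = cC6 .E * (Z s (some .S) (posS P.e t) *
        Z (!s) none (posB P.e t) ^ 2) := fun t => by
      rw [obK6_E Z P (k6_xo' s .E t), sp_xo', ht_xo']
    simp only [e]
    refine ((Gr6.const _).mul (hS.mul (hB (!s)).sq)).mono ?_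
    rw [sc_A6, sgP6_not, sgP6_cast]
    simp only [kqI6, lk6, Int.cast_zero, mul_zero]
    cases s <;> simp <;> linarith
  · have e : ∀ t, obK6 Z P (xo (s, .F) t) = cC6 .F * (Z s (some .S) (posS P.e t) *
        (Z (!s) none (posB P.e t) ^ 2 * (Z s none (posB P.e t))⁻¹)) := fun t => by
      rw [obK6_F Z P (k6_xo' s .F t), sp_xo', ht_xo']
    simp only [e]
    refine ((Gr6.const _).mul (hS.mul ((hB (!s)).sq.mul (hH P.e hP.j1e.le hP.ej2.le _
      (posB_re6 P.e) (posB_im6 P.e))))).mono ?_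
    rw [sc_A6, sc_A6, sgP6_not, sgP6_cast]
    simp only [kqI6, lk6]
    cases s <;> simp <;> linarith
  · have e : ∀ t, obK6 Z P (xo (s, .H1) t) = cC6 .H1 * (Z s none (posL P.j1 t))⁻¹ := fun t => by
      rw [obK6_H1 Z P (k6_xo' s .H1 t), sp_xo', ht_xo']
    simp only [e]
    refine ((Gr6.const _).mul (hH P.j1 le_rfl (hP.j1e.trans hP.ej2).le _ (fun t => NUO.vl_re _ _)
      fun t => NUO.vl_im _ _)).mono (le_of_eq ?_)
    rw [sc_A6]
    simp [kqI6, lk6]
    ring
  · have e : ∀ t, obK6 Z P (xo (s, .H2) t) = cC6 .H2 * (Z s none (posL P.j2 t))⁻¹ := fun t => by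
      rw [obK6_H2 Z P (k6_xo' s .H2 t), sp_xo', ht_xo']
    simp only [e]
    refine ((Gr6.const _).mul (hH P.j2 (hP.j1e.trans hP.ej2).le le_rfl _ (fun t => NUO.vl_re _ _)
      fun t => NUO.vl_im _ _)).mono (le_of_eq ?_)
    rw [sc_A6]
    simp [kqI6, lk6]
    ring

/-- one constant for all labels -/
theorem ob_const (hP : GoodP6 P) (h : DecQ6 Z P κ κ' q0) (M : ℕ) : ∃ C : ℝ, 0 ≤ C ∧
    ∀ (k : Bool × Kd6) (t : ℝ), ‖obK6 Z P (xo k t)‖ ≤ C *
      Real.exp (-((kqI6 κ κ' M k.2 + 2 * q0 * ((sgP6 k.1 : ℝ) * (lk6 k.2 : ℝ))) * |t|)) := by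
  choose C hC hb using ob_xo_bd hP h M
  refine ⟨∑ k, C k, Finset.sum_nonneg fun k _ => hC k, fun k t => (hb k t).trans ?_⟩
  rw [neg_mul]
  exact mul_le_mul_of_nonneg_right (Finset.single_le_sum (f := C) (fun p _ => hC p)
    (Finset.mem_univ _)) (Real.exp_pos _).le

/-! ### the localisers -/

variable {ι : Type*} [Fintype ι]

theorem locI_equiv {ι' : Type*} [Fintype ι'] (P : Par6) (e : ι ≃ ι') (O : ι' → Xo) :
    locI P (fun i => O (e i)) = locI P O := by
  unfold locI
  rw [gHI_equiv]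
  exact e.prod_comp fun i => locC6 (gHI P O) P (O i)

private theorem loc_fin (hP : GoodP6 P) {r : ℕ} (O : Fin r → Xo) : ‖locI P O‖ ≤
    (4 * r + 1) ^ r * ∏ i, ((if isH (O i) then Real.exp (-6 * |ht (O i)|) else 1) *
      (if isE (O i) then Real.exp (6 * r * |ht (O i)|) else 1)) := by
  have e0 : ‖locI P O‖ = ∏ i, loc6 (gH6 P O) P (O i) := norm_locK6 P O
  rw [e0]
  set S : ℝ := ∑ j, if isE (O j) then |ht (O j)| else 0 with hS
  have hr : (0 : ℝ) ≤ r := Nat.cast_nonneg _
  have hSj : ∀ j, isE (O j) → |ht (O j)| ≤ S := fun j hj => by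
    have := Finset.single_le_sum (f := fun j => if isE (O j) then |ht (O j)| else 0)
      (fun j _ => by split_ifs <;> positivity) (Finset.mem_univ j)
    simp only [if_pos hj] at this
    exact this
  have hS0 : 0 ≤ S := Finset.sum_nonneg fun j _ => by split_ifs <;> positivity
  have h1 : ∀ i, loc6 (gH6 P O) P (O i) ≤ (4 * r + 1) *
      (if isH (O i) then Real.exp (-6 * |ht (O i)|) else 1) * Real.exp (6 * S) := by
    intro i
    by_cases hi : isH (O i)
    · rw [if_pos hi]
      refine (loc6_le_sum hP (O i) hi).trans ?_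
      have h2 : ∀ j ∈ (Finset.univ : Finset (Fin r)),
          (if sp (O j) = !(sp (O i)) ∧ isE (O j) then
            4 * Real.exp (-6 * |ht (O i) - ht (O j)|) else 0) ≤
            4 * (Real.exp (-6 * |ht (O i)|) * Real.exp (6 * S)) := by
        intro j _
        split_ifs with hj
        · have h3 := hSj j hj.2
          have h4 := abs_sub_abs_le_abs_sub (ht (O i)) (ht (O j))
          rw [← Real.exp_add]
          refine mul_le_mul_of_nonneg_left (Real.exp_le_exp.2 ?_) (by norm_num)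
          linarith
        · positivity
      refine (Finset.sum_le_sum h2).trans ?_
      rw [Finset.sum_const, Finset.card_univ, Fintype.card_fin, nsmul_eq_mul]
      have h5 : 0 ≤ Real.exp (-6 * |ht (O i)|) * Real.exp (6 * S) := by positivity
      nlinarith
    · rw [if_neg hi, loc6_one hi, mul_one]
      have h5 : 1 ≤ Real.exp (6 * S) := Real.one_le_exp (by positivity)
      nlinarith
  have h2 : Real.exp (6 * S) ^ r = ∏ i, (if isE (O i) then Real.exp (6 * r * |ht (O i)|) else 1) := by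
    rw [← Real.exp_nat_mul, hS, Finset.mul_sum, Finset.mul_sum, Real.exp_sum]
    refine Finset.prod_congr rfl fun i _ => ?_
    split_ifs
    · congr 1
      ring
    · simp
  refine (Finset.prod_le_prod (fun i _ => loc6_nonneg _ _ _) fun i _ => h1 i).trans (le_of_eq ?_)
  rw [Finset.prod_mul_distrib, Finset.prod_mul_distrib, Finset.prod_mul_distrib,
    Finset.prod_const, Finset.prod_const, Finset.card_univ, Fintype.card_fin, h2]
  ring

/-- **the localisers: decay at the rate `6` in the heights of the holes, growth in those of the strings** -/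
theorem locI_bd (hP : GoodP6 P) (O : ι → Xo) : ‖locI P O‖ ≤
    (4 * Fintype.card ι + 1) ^ Fintype.card ι *
      ∏ i, ((if isH (O i) then Real.exp (-6 * |ht (O i)|) else 1) *
        (if isE (O i) then Real.exp (6 * Fintype.card ι * |ht (O i)|) else 1)) := by
  have e := (Fintype.equivFin ι).symm
  have h1 := loc_fin hP fun i => O (e i)
  rw [locI_equiv P e O] at h1
  refine h1.trans (le_of_eq ?_)
  congr 1
  exact e.prod_comp fun i => (if isH (O i) then Real.exp (-6 * |ht (O i)|) else 1) *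
        (if isE (O i) then Real.exp (6 * Fintype.card ι * |ht (O i)|) else 1)

/-! ### the terms -/

theorem okAA (s s' : Bool) : ∀ d ∈ ({0} : Set ℝ), NUP1S.Ok (s, Ob.A) (s', Ob.A) d := by
  intro d hd
  rw [Set.mem_singleton_iff] at hd
  subst hd
  have h1 : Real.sin NUMF.l ≠ 0 := by
    have := sinl_pos 1 (by norm_num) (by norm_num)
    rw [Nat.cast_one, one_mul] at this
    exact this.ne'
  have h3 : Real.sin (3 * NUMF.l) ≠ 0 := (sinl_pos 3 (by norm_num) (by norm_num)).ne'
  unfold NUP1S.Ok poles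
  rw [llq]
  split_ifs <;> simp [Real.sin_neg, h1, h3]

/-- **bound of the term of a word** -/
theorem fI_bd (hP : GoodP6 P) {n n' : ℕ} (h : DecQ6 Z P κ κ' ((n : ℝ) - n'))
    (K : ι → Bool × Kd6) : ∃ C δ : ℝ, 0 ≤ C ∧ 0 < δ ∧ ∀ t : ι → ℝ,
      ‖fI Z P l n n' (fun i => xo (K i) (t i))‖ ≤ C * ∏ i, Real.exp (-(δ * |t i|)) := by
  by_cases hc : qI (fun i => xo (K i) 0) true ≤ n ∧ qI (fun i => xo (K i) 0) false ≤ n' ∧
        cntI (fun i => xo (K i) 0)
  swap
  · refine ⟨0, 1, le_rfl, one_pos, fun t => ?_⟩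
    rw [fI_word, if_neg hc, norm_zero, zero_mul]
  set M : ℕ := 6 * Fintype.card ι + 1 with hM
  obtain ⟨D, hD, hob⟩ := ob_const hP h M
  obtain ⟨C1, hC1, hp⟩ := pair_bd6 hP
  obtain ⟨C2, hC2, hv⟩ := pot_bd6 hP
  choose C3 hC3 h3 using fun p : Bool × Bool =>
    bdd_gz (K := {0}) isCompact_singleton (p.1, Ob.A) (p.2, Ob.A) (okAA p.1 p.2)
  choose DA hA using h.A
  have hS3 : 0 ≤ ∑ p, C3 p := Finset.sum_nonneg fun p _ => hC3 p
  have hSA : 0 ≤ ∑ s, |DA s| := Finset.sum_nonneg fun p _ => abs_nonneg _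
  set a := nAI n (fun i => xo (K i) 0) true with ha
  set b := nAI n' (fun i => xo (K i) 0) false with hb
  set c : ι → ℝ := fun i => (sgP6 (K i).1 : ℝ) * (lk6 (K i).2 : ℝ) with hcdef
  have hlc : ∀ i t, lc6 (xo (K i) t) = c i := fun i t => by
    rw [lc6_eq, sp_xo, k6_xo]
  have hq : (∑ i, c i) + ((a : ℝ) - b) = (n : ℝ) - n' := by
    have e1 : ∑ i, c i = (qI (fun i => xo (K i) 0) true : ℝ) -
        (qI (fun i => xo (K i) 0) false : ℝ) := by
      unfold qI
      push_cast
      rw [← Finset.sum_sub_distrib]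
      exact Finset.sum_congr rfl fun i _ => (hlc i 0).symm
    have e2 : ((a : ℤ) : ℝ) = ((n - qI (fun i => xo (K i) 0) true : ℤ) : ℝ) := by
      congr 1
      rw [ha, nAI, Int.toNat_of_nonneg (by have := hc.1; omega)]
    have e3 : ((b : ℤ) : ℝ) = ((n' - qI (fun i => xo (K i) 0) false : ℤ) : ℝ) := by
      congr 1
      rw [hb, nAI, Int.toNat_of_nonneg (by have := hc.2.1; omega)]
    push_cast at e2 e3
    rw [e1, e2, e3]
    ring
  set δ : ℝ := min κ (min 1 (6 - κ')) with hδ
  have hδ0 : 0 < δ := lt_min h.kpos (lt_min one_pos (by have := h.k6; linarith))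
  have hδ1 : δ ≤ κ := min_le_left _ _
  have hδ2 : δ ≤ 1 := (min_le_right _ _).trans (min_le_left _ _)
  have hδ3 : δ ≤ 6 - κ' := (min_le_right _ _).trans (min_le_right _ _)
  set C : ℝ := C1 + C2 + ∑ p, C3 p with hCdef
  have hC : 1 ≤ C := by linarith
  set W : ℝ := ((∏ _i : ι, D) * (∑ s, |DA s|) ^ (a + b) *
        C ^ ((Fintype.card ι + (a + b)) * (Fintype.card ι + (a + b))) *
        ∫ u : Fin a ⊕ Fin b → ℝ, ∏ i, Real.exp (-(κ * |u i|)) ∂(Measure.pi fun _ => volume)) with hW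
  have hW0 : 0 ≤ W := by
    refine mul_nonneg (mul_nonneg (mul_nonneg (Finset.prod_nonneg fun _ _ => hD)
      (pow_nonneg hSA _)) (pow_nonneg (by linarith) _)) (integral_nonneg fun u => ?_)
    exact Finset.prod_nonneg fun i _ => (Real.exp_pos _).le
  refine ⟨(4 * Fintype.card ι + 1) ^ Fintype.card ι * W, δ, by positivity, hδ0, fun t => ?_⟩
  rw [fI_word, if_pos hc]
  have e1 : wI Z P (fun i => xo (K i) (t i)) * gas a b l
      (fun z => Z true none z * potI P (fun i => xo (K i) (t i)) true z)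
      (fun z => Z false none z * potI P (fun i => xo (K i) (t i)) false z) =
      locI P (fun i => xo (K i) (t i)) * (((∏ i, obK6 Z P (xo (K i) (t i))) *
        PU fun i j => pairC6 P (xo (K i) (t i)) (xo (K j) (t j))) * gas a b l
      (fun z => Z true none z * ∏ i, potC6 P (xo (K i) (t i)) true z)
      (fun z => Z false none z * ∏ i, potC6 P (xo (K i) (t i)) false z)) := by
    unfold wI potI
    ring
  rw [e1, norm_mul]
  have h4 := locI_bd hP fun i => xo (K i) (t i)
  have h5 := wGas_le (o := fun i => obK6 Z P (xo (K i) (t i)))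
    (f := fun i j => pairC6 P (xo (K i) (t i)) (xo (K j) (t j)))
    (fun i j => pairC6_symm P _ _)
    (V := fun i s z => potC6 P (xo (K i) (t i)) s z)
    (c := c) (t := t) (kp := fun i => kqI6 κ κ' M (K i).2) (D := fun _ => D)
    (G := fun s z => Z s none z) (y := l) (C := C) (DG := ∑ s, |DA s|) (κ := κ)
    (q0 := (n : ℝ) - n') (a := a) (b := b) h.kpos hC hq (fun _ => hD)
    (fun i => hob (K i) (t i)) hSA
    (fun s u hu => by
      refine (hA s u ?_).trans ?_
      · rw [hu]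
        refine Set.right_mem_Icc.2 ?_
        have h1 := hP.e13
        have h2 := NUMF.l_pos
        rw [llq]
        nlinarith
      · refine mul_le_mul_of_nonneg_right ?_ (Real.exp_pos _).le
        exact (le_abs_self _).trans (Finset.single_le_sum (f := fun s => |DA s|)
          (fun p _ => abs_nonneg _) (Finset.mem_univ _)))
    (fun i j _ => by
      have := hp (xo (K i) (t i)) (xo (K j) (t j))
      rw [hlc, hlc, ht_xo, ht_xo] at this
      refine this.trans ((mul_le_mul_of_nonneg_right (b := C1) (c := C) ?_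
        (Real.exp_pos _).le).trans (le_of_eq ?_))
      · linarith
      · ring_nf)
    (fun i s u hu => by
      have := hv s (xo (K i) (t i)) u (by
        rw [hu]
        have h2 := NUMF.l_pos
        rw [llq]
        constructor <;> linarith)
      rw [hlc, ht_xo] at this
      refine this.trans ((mul_le_mul_of_nonneg_right (b := C2) (c := C) ?_
        (Real.exp_pos _).le).trans (le_of_eq ?_))
      · linarith
      · rw [sc_A6, abs_sub_comm]
        ring_nf)
    (fun s s' u hu => by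
      refine (h3 (s, s') u (by rw [hu]; exact Set.mem_singleton _)).trans
        (mul_le_mul_of_nonneg_right ?_ (Real.exp_pos _).le)
      have := Finset.single_le_sum (f := C3) (fun p _ => hC3 p) (Finset.mem_univ (s, s'))
      linarith)
  refine (mul_le_mul h4 h5 (norm_nonneg _) (mul_nonneg (by positivity)
    (Finset.prod_nonneg fun i _ => by split_ifs <;> positivity))).trans ?_
  rw [← hW]
  have h6 : (∏ i, ((if isH (xo (K i) (t i)) then Real.exp (-6 * |ht (xo (K i) (t i))|) else 1) *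
        (if isE (xo (K i) (t i)) then
          Real.exp (6 * Fintype.card ι * |ht (xo (K i) (t i))|) else 1))) *
      ∏ i, Real.exp (-(kqI6 κ κ' M (K i).2 * |t i|)) ≤ ∏ i, Real.exp (-(δ * |t i|)) := by
    rw [← Finset.prod_mul_distrib]
    refine Finset.prod_le_prod (fun i _ => by split_ifs <;> positivity) fun i _ => ?_
    have ht0 := abs_nonneg (t i)
    have hcd : (0 : ℝ) ≤ Fintype.card ι := Nat.cast_nonneg _
    have hMr : (M : ℝ) = 6 * Fintype.card ι + 1 := by
      rw [hM]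
      push_cast
      ring
    have hiH : isH (xo (K i) (t i)) ↔ (K i).2 = .H1 ∨ (K i).2 = .H2 ∨ (K i).2 = .F := by
      unfold isH
      rw [k6_xo]
    have hiE : isE (xo (K i) (t i)) ↔ (K i).2 = .E ∨ (K i).2 = .F := by
      unfold isE
      rw [k6_xo]
    simp only [hiH, hiE, ht_xo, hMr]
    generalize (K i).2 = q
    cases q
    · simp only [kqI6, reduceCtorEq, or_self, if_false, one_mul]
      exact Real.exp_le_exp.2 (by nlinarith)
    · simp only [kqI6, reduceCtorEq, or_self, if_false, one_mul]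
      exact Real.exp_le_exp.2 (by nlinarith)
    · simp only [kqI6, reduceCtorEq, or_self, or_false, if_false, if_true, one_mul]
      rw [← Real.exp_add]
      exact Real.exp_le_exp.2 (by nlinarith)
    · simp only [kqI6, reduceCtorEq, or_true, if_true]
      rw [← Real.exp_add, ← Real.exp_add]
      exact Real.exp_le_exp.2 (by nlinarith)
    · simp only [kqI6, reduceCtorEq, or_self, or_false, if_false, if_true, mul_one]
      rw [← Real.exp_add]
      exact Real.exp_le_exp.2 (by nlinarith)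
    · simp only [kqI6, reduceCtorEq, or_self, or_false, false_or, if_false, if_true, mul_one]
      rw [← Real.exp_add]
      exact Real.exp_le_exp.2 (by nlinarith)
  have h7 : (0 : ℝ) ≤ (4 * Fintype.card ι + 1) ^ Fintype.card ι * W := by positivity
  refine le_trans (le_of_eq ?_) (mul_le_mul_of_nonneg_left h6 h7)
  ring

/-- **the terms are integrable over the heights** -/
theorem integrable_fI (hP : GoodP6 P) (hZ : ∀ s k, Measurable (Z s k)) {n n' : ℕ}
    (h : DecQ6 Z P κ κ' ((n : ℝ) - n')) (K : ι → Bool × Kd6) :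
    Integrable (fun t : ι → ℝ => fI Z P l n n' (fun i => xo (K i) (t i)))
      (Measure.pi fun _ => volume) := by
  obtain ⟨C, δ, hC, hδ, hb⟩ := fI_bd hP h K
  refine ((integrable_prod_exp' (ι := ι) hδ).const_mul C).mono' ?_
    (Filter.Eventually.of_forall hb)
  exact (measurable_fI hZ P l n n' K fun i => measurable_pi_apply i).aestronglyMeasurable

end PHK

end
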