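import Pool.Agent.PHK.MrgF6
import Pool.Agent.PHK.ClsInt6
import Pool.Agent.PHK.ClsFFc
import Pool.Agent.NURow.StageQ

/-!
# The class formula of (P) from the identity of one word at fixed heights of the objects

* `int_split`: integrals over the heights of objects and holes as iterated integrals;
* `c3_leI`: the charge of the objects of a word is at most the charge of the family;
* **`WordId6`** : the identity of one word, heights of the objects fixed;
* **`ZobjQ_of_word`**, **`ZobjQ_FF6`** : the class formula.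
-/

set_option autoImplicit false
set_option linter.unusedSectionVars false

noncomputable section

open Complex MeasureTheory Finset
open scoped ENNReal Nat

open PLX (Fil)

namespace PHK

open NUO NUP1 NUP1S NUP1S.Mg NURow NUCR
open NUP1.Bd (wt)
open PBF.PLX (Crs)

/-! ### objects and holes -/

section split
variable {ι κ : Type*} [Fintype ι] [Fintype κ]

/-- heights of objects and holes together -/
theorem int_split {F : (ι ⊕ κ → ℝ) → ℂ} (hF : Integrable F (Measure.pi fun _ => volume)) :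
    (Integrable (fun t : ι → ℝ => ∫ h : κ → ℝ, F (Sum.elim t h) ∂(Measure.pi fun _ => volume))
      (Measure.pi fun _ => volume)) ∧
    ∫ t : ι → ℝ, ∫ h : κ → ℝ, F (Sum.elim t h) ∂(Measure.pi fun _ => volume)
      ∂(Measure.pi fun _ => volume) = ∫ x, F x ∂(Measure.pi fun _ => volume) := by
  have mp := measurePreserving_sumPiEquivProdPi_symm (X := fun _ : ι ⊕ κ => ℝ)
    (fun _ => (volume : Measure ℝ))
  set G : (ι → ℝ) × (κ → ℝ) → ℂ := fun q => F (Sum.elim q.1 q.2) with hG
  have e0 : ∀ q : (ι → ℝ) × (κ → ℝ),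
      (MeasurableEquiv.sumPiEquivProdPi fun _ : ι ⊕ κ => ℝ).symm q = Sum.elim q.1 q.2 := by
    intro q
    funext i
    rcases i with i | i <;> rfl
  have e1 : (fun q => F ((MeasurableEquiv.sumPiEquivProdPi fun _ : ι ⊕ κ => ℝ).symm q)) = G := by
    funext q
    rw [e0]
  have hG1 : Integrable G ((Measure.pi fun _ => (volume : Measure ℝ)).prod
      (Measure.pi fun _ => (volume : Measure ℝ))) := by
    rw [← e1]
    exact (mp.integrable_comp_emb (MeasurableEquiv.measurableEmbedding _)).2 hF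
  refine ⟨hG1.integral_prod_left, ?_⟩
  have h1 := mp.integral_comp' F
  rw [e1, integral_prod _ hG1] at h1
  exact h1

end split

/-! ### charges -/

section charge
variable {p p' a b : ℕ}

theorem c3_leI (k : Fin p → O3) (k' : Fin p' → O3) {D : Finset (Fin p)} {D' : Finset (Fin p')}
    (s : Fin a → Bool) (s' : Fin b → Bool)
    (t : (Fin p ⊕ Fin p') ⊕ (Fin a ⊕ Fin b) → ℝ)
    (hc : cntI fun i => xo (labW (fun i => kaD (k i) (decide (i ∈ D)))
      (fun i => kaD (k' i) (decide (i ∈ D'))) s s' i) (t i)) :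
    ((∑ i, c3 (k i) : ℕ) : ℤ) ≤ qI (fun i => xo (labW (fun i => kaD (k i) (decide (i ∈ D)))
      (fun i => kaD (k' i) (decide (i ∈ D'))) s s' i) (t i)) true ∧
    ((∑ i, c3 (k' i) : ℕ) : ℤ) ≤ qI (fun i => xo (labW (fun i => kaD (k i) (decide (i ∈ D)))
      (fun i => kaD (k' i) (decide (i ∈ D'))) s s' i) (t i)) false := by
  set O : (Fin p ⊕ Fin p') ⊕ (Fin a ⊕ Fin b) → Xo :=
    fun i => xo (labW (fun i => kaD (k i) (decide (i ∈ D)))
      (fun i => kaD (k' i) (decide (i ∈ D'))) s s' i) (t i) with hO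
  have h1 := hc true
  have h2 := hc false
  have key : ∀ r : Bool, qI O r = ∑ i, (chg6 r (O i) + (hl6 r (O i) : ℤ) - (sat6 r (O i) : ℤ)) +
      ((∑ i, sat6 r (O i) : ℕ) : ℤ) - ((∑ i, hl6 r (O i) : ℕ) : ℤ) := by
    intro r
    unfold qI
    push_cast
    simp only [Finset.sum_add_distrib, Finset.sum_sub_distrib]
    ring
  have hval : ∀ (i : (Fin p ⊕ Fin p') ⊕ (Fin a ⊕ Fin b)) (r : Bool),
      chg6 r (O i) + (hl6 r (O i) : ℤ) - (sat6 r (O i) : ℤ) =
        Sum.elim (Sum.elim (fun i => if r = true then (c3 (k i) : ℤ) else 0)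
          (fun i => if r = false then (c3 (k' i) : ℤ) else 0)) (fun _ => 0) i := by
    intro i r
    have e1 : k6 (O i) = (labW (fun i => kaD (k i) (decide (i ∈ D)))
      (fun i => kaD (k' i) (decide (i ∈ D'))) s s' i).2 := k6_xo _ _
    have e2 : sp (O i) = (labW (fun i => kaD (k i) (decide (i ∈ D)))
      (fun i => kaD (k' i) (decide (i ∈ D'))) s s' i).1 := sp_xo _ _
    unfold chg6 hl6 sat6
    rw [e1, e2]
    rcases i with (i | i) | (i | i)
    · simp only [labW, Sum.elim_inl]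
      rcases hk : k i with _ | _ | _
      · cases r <;> simp [kaD, kdA, c3, ob3, Bd.chg, NUP1.Bd.chg]
      · by_cases hi : i ∈ D
        · cases r <;> simp [kaD, kdA, c3, ob3, hi, NUP1.Bd.chg]
        · cases r <;> simp [kaD, kdA, c3, ob3, hi, NUP1.Bd.chg]
      · cases r <;> simp [kaD, kdA, c3, ob3, NUP1.Bd.chg]
    · simp only [labW, Sum.elim_inl, Sum.elim_inr]
      rcases hk : k' i with _ | _ | _
      · cases r <;> simp [kaD, kdA, c3, ob3, NUP1.Bd.chg]
      · by_cases hi : i ∈ D'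
        · cases r <;> simp [kaD, kdA, c3, ob3, hi, NUP1.Bd.chg]
        · cases r <;> simp [kaD, kdA, c3, ob3, hi, NUP1.Bd.chg]
      · cases r <;> simp [kaD, kdA, c3, ob3, NUP1.Bd.chg]
    · simp only [labW, Sum.elim_inl, Sum.elim_inr]
      cases s i <;> cases r <;> simp [kdH]
    · simp only [labW, Sum.elim_inr]
      cases s' i <;> cases r <;> simp [kdH]
  have e3 : ∀ r : Bool, ∑ i, (chg6 r (O i) + (hl6 r (O i) : ℤ) - (sat6 r (O i) : ℤ)) =
      (if r = true then ((∑ i, c3 (k i) : ℕ) : ℤ) else 0) +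
        (if r = false then ((∑ i, c3 (k' i) : ℕ) : ℤ) else 0) := by
    intro r
    simp only [hval, Fintype.sum_sum_type, Sum.elim_inl, Sum.elim_inr, Finset.sum_const_zero,
      add_zero]
    cases r <;> simp
  constructor
  · rw [key, e3]
    have : ((∑ i, hl6 true (O i) : ℕ) : ℤ) ≤ ((∑ i, sat6 true (O i) : ℕ) : ℤ) := by
      exact_mod_cast h1
    simp only [if_true, Bool.true_eq_false, if_false]
    linarith
  · rw [key, e3]
    have : ((∑ i, hl6 false (O i) : ℕ) : ℤ) ≤ ((∑ i, sat6 false (O i) : ℕ) : ℤ) := by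
      exact_mod_cast h2
    simp only [if_true, Bool.false_eq_true, if_false]
    linarith

end charge

/-! ### the identity of one word -/

/-- **The identity of one word** with the objects `k`, `k'` on the lines `ln` at the heights `t`:
the weight of the objects times the gas of the quanta on the first line `x0` is the sum over the
strings with a glued hole and over the holes of the integrals over the heights of the holes. -/
def WordId6 (Z : Bool → Option O3 → ℂ → ℂ) (P : Par6) (ln : O3 → ℝ) (x0 : ℝ) (n n' N : ℕ)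
    {p p' : ℕ} (k : Fin p → O3) (k' : Fin p' → O3) (t : Fin p ⊕ Fin p' → ℝ) : Prop :=
  ((∏ i, wt (ob3 (k i))) * (∏ i, wt (ob3 (k' i)))) *
      (Fg (o3 k k') (h3 (Z true) (Z false) k k')
          (pos (Sum.elim (fun i => ln (k i)) (fun i => ln (k' i))) t) *
        gas (nA n k) (nA n' k') x0
          (fld (o3 k k') (pos (Sum.elim (fun i => ln (k i)) (fun i => ln (k' i))) t) (true, .A)
            (Z true none))
          (fld (o3 k k') (pos (Sum.elim (fun i => ln (k i)) (fun i => ln (k' i))) t) (false, .A)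
            (Z false none))) =
    ∑ D ∈ (strS k).powerset, ∑ D' ∈ (strS k').powerset,
      ∑ a ∈ range (N + 1), ∑ b ∈ range (N + 1), ((a ! : ℕ) : ℂ)⁻¹ * ((b ! : ℕ) : ℂ)⁻¹ *
        ∑ s : Fin a → Bool, ∑ s' : Fin b → Bool,
          mI6 (labW (fun i => kaD (k i) (decide (i ∈ D))) (fun i => kaD (k' i) (decide (i ∈ D'))) s s') *
            ∫ h : Fin a ⊕ Fin b → ℝ, fI Z P l n n' (fun i =>
              xo (labW (fun i => kaD (k i) (decide (i ∈ D)))
                (fun i => kaD (k' i) (decide (i ∈ D'))) s s' i) (Sum.elim t h i))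
              ∂(Measure.pi fun _ => volume)

section main
variable {Z : Bool → Option O3 → ℂ → ℂ} {P : Par6} {κ κ' : ℝ} {n n' : ℕ}

/-- **one term of `ZobjQ`** -/
theorem termQ_of_word {ln : O3 → ℝ} {x0 : ℝ} {N : ℕ} (hP : GoodP6 P)
    (hZ : ∀ s k, Measurable (Z s k)) (h : DecQ6 Z P κ κ' ((n : ℝ) - n')) {p p' : ℕ}
    (k : Fin p → O3) (k' : Fin p' → O3)
    (hW : ∀ᵐ t : Fin p ⊕ Fin p' → ℝ ∂(Measure.pi fun _ => volume),
      WordId6 Z P ln x0 n n' N k k' t) :
    termQ (Z true) (Z false) x0 n n' k k' (fun i => ln (k i)) (fun i => ln (k' i)) =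
      ∑ D ∈ (strS k).powerset, ∑ D' ∈ (strS k').powerset,
        ∑ a ∈ range (N + 1), ∑ b ∈ range (N + 1), ((a ! : ℕ) : ℂ)⁻¹ * ((b ! : ℕ) : ℂ)⁻¹ *
          ∑ s : Fin a → Bool, ∑ s' : Fin b → Bool, intI Z P l n n'
            (labW (fun i => kaD (k i) (decide (i ∈ D)))
              (fun i => kaD (k' i) (decide (i ∈ D'))) s s') := by
  unfold termQ
  rw [← integral_const_mul, integral_congr_ae hW]
  have hI : ∀ {a b : ℕ} (K : (Fin p ⊕ Fin p') ⊕ (Fin a ⊕ Fin b) → Bool × Kd6),
      Integrable (fun t : Fin p ⊕ Fin p' → ℝ => ∫ h : Fin a ⊕ Fin b → ℝ,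
        fI Z P l n n' (fun i => xo (K i) (Sum.elim t h i)) ∂(Measure.pi fun _ => volume))
        (Measure.pi fun _ => volume) ∧
      ∫ t : Fin p ⊕ Fin p' → ℝ, ∫ h : Fin a ⊕ Fin b → ℝ,
        fI Z P l n n' (fun i => xo (K i) (Sum.elim t h i)) ∂(Measure.pi fun _ => volume)
        ∂(Measure.pi fun _ => volume) = ∫ t, fI Z P l n n' (fun i => xo (K i) (t i))
          ∂(Measure.pi fun _ => volume) := fun K =>
    int_split (F := fun t => fI Z P l n n' fun i => xo (K i) (t i)) (integrable_fI hP hZ h K)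
  have i1 : ∀ (D : Finset (Fin p)) (D' : Finset (Fin p')) (a b : ℕ) (s : Fin a → Bool)
      (s' : Fin b → Bool), Integrable (fun t : Fin p ⊕ Fin p' → ℝ =>
        mI6 (labW (fun i => kaD (k i) (decide (i ∈ D))) (fun i => kaD (k' i) (decide (i ∈ D'))) s s') *
            ∫ h : Fin a ⊕ Fin b → ℝ, fI Z P l n n' (fun i =>
              xo (labW (fun i => kaD (k i) (decide (i ∈ D)))
                (fun i => kaD (k' i) (decide (i ∈ D'))) s s' i) (Sum.elim t h i))
              ∂(Measure.pi fun _ => volume)) (Measure.pi fun _ => volume) :=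
    fun D D' a b s s' => (hI _).1.const_mul _
  have i2 : ∀ (D : Finset (Fin p)) (D' : Finset (Fin p')) (a b : ℕ), Integrable
      (fun t : Fin p ⊕ Fin p' → ℝ => ((a ! : ℕ) : ℂ)⁻¹ * ((b ! : ℕ) : ℂ)⁻¹ *
        ∑ s : Fin a → Bool, ∑ s' : Fin b → Bool,
          mI6 (labW (fun i => kaD (k i) (decide (i ∈ D))) (fun i => kaD (k' i) (decide (i ∈ D'))) s s') *
            ∫ h : Fin a ⊕ Fin b → ℝ, fI Z P l n n' (fun i =>
              xo (labW (fun i => kaD (k i) (decide (i ∈ D)))
                (fun i => kaD (k' i) (decide (i ∈ D'))) s s' i) (Sum.elim t h i))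
              ∂(Measure.pi fun _ => volume)) (Measure.pi fun _ => volume) :=
    fun D D' a b => (integrable_finsetSum _ fun s _ => integrable_finsetSum _ fun s' _ =>
      i1 D D' a b s s').const_mul _
  rw [integral_finsetSum _ fun D _ => integrable_finsetSum _ fun D' _ =>
    integrable_finsetSum _ fun a _ => integrable_finsetSum _ fun b _ => i2 D D' a b]
  refine Finset.sum_congr rfl fun D _ => ?_
  rw [integral_finsetSum _ fun D' _ =>
    integrable_finsetSum _ fun a _ => integrable_finsetSum _ fun b _ => i2 D D' a b]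
  refine Finset.sum_congr rfl fun D' _ => ?_
  rw [integral_finsetSum _ fun a _ => integrable_finsetSum _ fun b _ => i2 D D' a b]
  refine Finset.sum_congr rfl fun a _ => ?_
  rw [integral_finsetSum _ fun b _ => i2 D D' a b]
  refine Finset.sum_congr rfl fun b _ => ?_
  rw [integral_const_mul, integral_finsetSum _ fun s _ => integrable_finsetSum _ fun s' _ =>
      i1 D D' a b s s']
  congr 1
  refine Finset.sum_congr rfl fun s _ => ?_
  rw [integral_finsetSum _ fun s' _ => i1 D D' a b s s']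
  refine Finset.sum_congr rfl fun s' _ => ?_
  rw [integral_const_mul, (hI _).2]
  rfl

/-- **The class formula of (P)** from the identity of the words. -/
theorem ZobjQ_of_word {ln : O3 → ℝ} {x0 : ℝ} {N : ℕ} (hP : GoodP6 P)
    (hZ : ∀ s k, Measurable (Z s k)) (h : DecQ6 Z P κ κ' ((n : ℝ) - n'))
    (hN : 2 * (n + n') ≤ N)
    (hW : ∀ (p p' : ℕ) (k : Fin p → O3) (k' : Fin p' → O3), ∑ i, c3 (k i) ≤ n →
      ∑ i, c3 (k' i) ≤ n' → ∀ᵐ t : Fin p ⊕ Fin p' → ℝ ∂(Measure.pi fun _ => volume),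
        WordId6 Z P ln x0 n n' N k k' t) :
    NURow.ZobjQ (Z true) (Z false) x0 n n' (fun _ _ k _ i => ln (k i)) (fun _ _ _ k' i => ln (k' i)) =
      ∑ r ∈ range (2 * (n + n') + 1), ((r ! : ℕ) : ℂ)⁻¹ *
        ∫ O : Fin r → Xo, fI Z P l n n' O ∂(Measure.pi fun _ => nu) := by
  rw [← merge_fIS (fun r K => integrable_fI hP hZ h K) hN]
  unfold NURow.ZobjQ
  -- the right side vanishes for words with too much charge
  set T : ∀ p p' : ℕ, (Fin p → O3) → (Fin p' → O3) → ℂ := fun p p' k k' =>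
    ∑ D ∈ (strS k).powerset, ∑ D' ∈ (strS k').powerset,
        ∑ a ∈ range (N + 1), ∑ b ∈ range (N + 1), ((a ! : ℕ) : ℂ)⁻¹ * ((b ! : ℕ) : ℂ)⁻¹ *
          ∑ s : Fin a → Bool, ∑ s' : Fin b → Bool, intI Z P l n n'
            (labW (fun i => kaD (k i) (decide (i ∈ D)))
              (fun i => kaD (k' i) (decide (i ∈ D'))) s s') with hT
  have hT0 : ∀ (p p' : ℕ) (k : Fin p → O3) (k' : Fin p' → O3),
      ¬ (∑ i, c3 (k' i) ≤ n' ∧ ∑ i, c3 (k i) ≤ n) → T p p' k k' = 0 := by
    intro p p' k k' hn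
    rw [hT]
    refine Finset.sum_eq_zero fun D _ => Finset.sum_eq_zero fun D' _ =>
      Finset.sum_eq_zero fun a _ => Finset.sum_eq_zero fun b _ => ?_
    have : ∀ (s : Fin a → Bool) (s' : Fin b → Bool), intI Z P l n n'
            (labW (fun i => kaD (k i) (decide (i ∈ D)))
              (fun i => kaD (k' i) (decide (i ∈ D'))) s s') = 0 := by
      intro s s'
      have hz : ∀ t : (Fin p ⊕ Fin p') ⊕ (Fin a ⊕ Fin b) → ℝ, fI Z P l n n'
          (fun i => xo (labW (fun i => kaD (k i) (decide (i ∈ D)))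
              (fun i => kaD (k' i) (decide (i ∈ D'))) s s' i) (t i)) = 0 := by
        intro t
        unfold fI
        rw [if_neg]
        rintro ⟨h1, h2, h3⟩
        obtain ⟨h4, h5⟩ := c3_leI k k' s s' t h3
        refine hn ⟨?_, ?_⟩
        · exact_mod_cast h5.trans h2
        · exact_mod_cast h4.trans h1
      unfold intI
      simp only [hz, integral_zero, mul_zero]
    simp only [this, Finset.sum_const_zero, mul_zero]
  have hc3 : ∀ {p : ℕ} (k : Fin p → O3), p ≤ ∑ i, c3 (k i) := by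
    intro p k
    calc p = ∑ _i : Fin p, 1 := by simp
      _ ≤ _ := Finset.sum_le_sum fun i _ => c3_pos (k i)
  have hsub' : range (n' + 1) ⊆ range (N + 1) := by
    intro r hr
    rw [mem_range] at hr ⊢
    omega
  have hsub : range (n + 1) ⊆ range (N + 1) := by
    intro r hr
    rw [mem_range] at hr ⊢
    omega
  have e1 : ∀ p' p : ℕ, (∑ k' : Fin p' → O3, ∑ k : Fin p → O3,
      if ∑ i, c3 (k' i) ≤ n' ∧ ∑ i, c3 (k i) ≤ n then
        termQ (Z true) (Z false) x0 n n' k k' (fun i => ln (k i)) (fun i => ln (k' i)) else 0) =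
      ∑ k : Fin p → O3, ∑ k' : Fin p' → O3, T p p' k k' := by
    intro p' p
    rw [Finset.sum_comm]
    refine Finset.sum_congr rfl fun k _ => Finset.sum_congr rfl fun k' _ => ?_
    by_cases hc : ∑ i, c3 (k' i) ≤ n' ∧ ∑ i, c3 (k i) ≤ n
    · rw [if_pos hc]
      exact termQ_of_word hP hZ h k k' (hW p p' k k' hc.2 hc.1)
    · rw [if_neg hc, hT0 p p' k k' hc]
  rw [Finset.sum_comm (s := range (N + 1)) (t := range (N + 1))]
  simp only [e1]
  rw [Finset.sum_subset hsub' fun p' _ hp' => ?_]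
  · refine Finset.sum_congr rfl fun p' _ => ?_
    rw [Finset.sum_subset hsub fun p _ hp => ?_]
    · refine Finset.sum_congr rfl fun p _ => ?_
      rw [mul_comm (((p' ! : ℕ) : ℂ)⁻¹)]
    · rw [mem_range, not_lt] at hp
      rw [Finset.sum_eq_zero fun k _ => Finset.sum_eq_zero fun k' _ => hT0 p p' k k' fun hc => by
        have := hc3 k
        omega, mul_zero]
  · rw [mem_range, not_lt] at hp'
    refine Finset.sum_eq_zero fun p _ => ?_
    rw [Finset.sum_eq_zero fun k _ => Finset.sum_eq_zero fun k' _ => hT0 p p' k k' fun hc => by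
        have := hc3 k'
        omega, mul_zero]

/-- **The class formula of (P)**, functional on curves. -/
theorem ZobjQ_FF6 [Fil] {ln : O3 → ℝ} {x0 δ κ1 : ℝ} {N : ℕ} {Q : ℤ} (hP : GoodP6 P)
    (hZ : ∀ s k, Measurable (Z s k)) (h : DecQ6 Z P κ κ' ((n : ℝ) - n'))
    (hQ : QOk6 Z δ κ1 Q) (hS : StP δ P) (hn : (n : ℤ) - n' = Q) {η η' : Crs}
    (hη : ∀ r ≤ 2 * (n + n'), ∀ᵐ O ∂(Measure.pi fun _ : Fin r => nu), CrvR6 δ (η r O) (η' r O))
    (hN : 2 * (n + n') ≤ N)
    (hW : ∀ (p p' : ℕ) (k : Fin p → O3) (k' : Fin p' → O3), ∑ i, c3 (k i) ≤ n →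
      ∑ i, c3 (k' i) ≤ n' → ∀ᵐ t : Fin p ⊕ Fin p' → ℝ ∂(Measure.pi fun _ => volume),
        WordId6 Z P ln x0 n n' N k k' t) :
    NURow.ZobjQ (Z true) (Z false) x0 n n' (fun _ _ k _ i => ln (k i))
      (fun _ _ _ k' i => ln (k' i)) = FF6 Z P n n' η η' (fun _ _ _ _ _ => 1) := by
  rw [FF6_fI hQ hS hη hn]
  exact ZobjQ_of_word hP hZ h hN hW

end main

end PHK

end
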