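import Pool.Agent.PHK.ClsEqW
import Pool.Agent.PHK.Lines

/-!
# The particle-hole form (P): the word identity (statement)

`lnK P` : the lines of the objects; **`WordP Z P x0 n n'`** : 97's identity of one word `WordId6` for all
words and almost all heights; `famW` : the family of the objects and of the holes `y` (line, height);
`wordS` : the right hand side with the holes integrated over the two lines (`lM`);
**`wordId_of`** : `WordId6` from the identity with `wordS`.
-/

set_option autoImplicit false
set_option linter.unusedSectionVars false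

noncomputable section

open Complex MeasureTheory Finset
open scoped Real ENNReal Nat

namespace PHK

open NUO NUP1 NUP1S NUP1S.Mg NUP1S.Ab NUP1S.AbG NURow
open NUP1.Bd (wt Ob)
open Pool.Agent.PHK (lM)

/-- the lines of the objects -/
def lnK (P : Par6) : O3 → ℝ
  | .L => (1 - P.jL) * l
  | .S => -((1 + P.e) * l)
  | .T => -(l / 2)

/-- **the word identity** -/
def WordP (Z : Bool → Option O3 → ℂ → ℂ) (P : Par6) (x0 : ℝ) (n n' : ℕ) : Prop :=
  ∀ (p p' : ℕ) (k : Fin p → O3) (k' : Fin p' → O3), ∑ i, c3 (k i) ≤ n → ∑ i, c3 (k' i) ≤ n' →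
    ∀ᵐ t ∂(Measure.pi fun _ : Fin p ⊕ Fin p' => (volume : Measure ℝ)),
      WordId6 Z P (lnK P) x0 n n' (2 * (n + n')) k k' t

variable {p p' a b : ℕ}

/-- the family of the objects `k`, `k'` at the heights `t` and of the holes `y` (line and height) -/
def famW (k : Fin p → Ka6) (k' : Fin p' → Ka6) (t : Fin p ⊕ Fin p' → ℝ)
    (y : Fin a ⊕ Fin b → Bool × ℝ) : (Fin p ⊕ Fin p') ⊕ (Fin a ⊕ Fin b) → Xo :=
  Sum.elim (fun i => xo (Sum.elim (fun i => (true, kdA (k i))) (fun i => (false, kdA (k' i))) i) (t i))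
    (fun j => xo (j.isLeft, kdH (y j).1) (y j).2)

theorem famW_eq (k : Fin p → Ka6) (k' : Fin p' → Ka6) (t : Fin p ⊕ Fin p' → ℝ)
    (s : Fin a → Bool) (s' : Fin b → Bool) (h : Fin a ⊕ Fin b → ℝ) :
    famW k k' t (fun j => (Sum.elim s s' j, h j)) =
      fun i => xo (labW k k' s s' i) (Sum.elim t h i) := by
  funext i
  rcases i with (i | i) | (i | i) <;> rfl

/-- integrability over the holes -/
theorem integrable_pi_lM {α : Type*} [Fintype α] [DecidableEq α] {E : Type*}
    [NormedAddCommGroup E] {G : (α → Bool × ℝ) → E}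
    (hG : ∀ s : α → Bool, Integrable (fun t : α → ℝ => G fun i => (s i, t i))
      (Measure.pi fun _ => volume)) : Integrable G (Measure.pi fun _ => lM) := by
  have mp := measurePreserving_arrowProdEquivProdArrow Bool ℝ α
    (fun _ => (Measure.count : Measure Bool)) (fun _ => (volume : Measure ℝ))
  have mp' := mp.symm
  refine (mp'.integrable_comp_emb (MeasurableEquiv.measurableEmbedding _)).1 ?_
  have e0 : (Measure.pi fun _ : α => (Measure.count : Measure Bool)) = Measure.count := by
    refine Measure.ext_of_singleton fun k => ?_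
    rw [Measure.pi_singleton, Measure.count_singleton]
    simp
  rw [e0]
  have h4 : (Measure.count : Measure (α → Bool)).prod (Measure.pi fun _ : α => (volume : Measure ℝ)) =
      ∑ K : α → Bool, (Measure.pi fun _ : α => (volume : Measure ℝ)).map (Prod.mk K) := by
    rw [← Measure.sum_fintype]
    unfold Measure.count
    rw [Measure.prod_sum_left]
    congr 1
    funext K
    rw [Measure.dirac_prod]
  rw [h4]
  refine integrable_finsetSum_measure.2 fun K _ => ?_
  rw [(measurableEmbedding_prodMk_left K).integrable_map_iff]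
  exact hG K

section
variable (Z : Bool → Option O3 → ℂ → ℂ) (P : Par6) (n n' : ℕ)

/-- the right hand side of the word identity, holes on the two lines -/
def wordS (N : ℕ) (k : Fin p → O3) (k' : Fin p' → O3) (t : Fin p ⊕ Fin p' → ℝ) : ℂ :=
  ∑ D ∈ (strS k).powerset, ∑ D' ∈ (strS k').powerset,
    ∑ a ∈ range (N + 1), ∑ b ∈ range (N + 1), ((a ! : ℕ) : ℂ)⁻¹ * ((b ! : ℕ) : ℂ)⁻¹ *
      ((1 / 2 : ℂ) ^ ((strS k).card + (strS k').card) *
        ∫ y : Fin a ⊕ Fin b → Bool × ℝ, fI Z P l n n'
          (famW (fun i => kaD (k i) (decide (i ∈ D))) (fun i => kaD (k' i) (decide (i ∈ D'))) t y)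
          ∂(Measure.pi fun _ => lM))

end

theorem mI6_labW (k : Fin p → O3) (k' : Fin p' → O3) (D : Finset (Fin p)) (D' : Finset (Fin p'))
    (s : Fin a → Bool) (s' : Fin b → Bool) :
    mI6 (labW (fun i => kaD (k i) (decide (i ∈ D))) (fun i => kaD (k' i) (decide (i ∈ D'))) s s') =
      (1 / 2 : ℂ) ^ ((strS k).card + (strS k').card) := by
  have h1 : ∀ (k : O3) (d : Bool), ((mk6 (kdA (kaD k d))).toReal : ℂ) =
      if k = .S then (1 / 2 : ℂ) else 1 := by
    intro k d
    cases k <;> cases d <;> simp [kaD, kdA, mk6]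
  have h2 : ∀ c : Bool, ((mk6 (kdH c)).toReal : ℂ) = 1 := by
    intro c
    cases c <;> simp [kdH, mk6]
  unfold mI6
  rw [Fintype.prod_sum_type, Fintype.prod_sum_type, Fintype.prod_sum_type]
  simp only [labW, Sum.elim_inl, Sum.elim_inr, h1, h2, Finset.prod_const_one, mul_one]
  rw [Finset.prod_ite, Finset.prod_ite]
  simp only [Finset.prod_const_one, mul_one, Finset.prod_const]
  rw [pow_add]
  rfl

/-- **the identity of one word from the form with the holes on the two lines** -/
theorem wordId_of {Z : Bool → Option O3 → ℂ → ℂ} {P : Par6} {κ κ' : ℝ} {n n' N : ℕ} {ln : O3 → ℝ}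
    {x0 : ℝ} (hP : GoodP6 P) (hZ : ∀ s k, Measurable (Z s k))
    (h : DecQ6 Z P κ κ' ((n : ℝ) - n')) {k : Fin p → O3} {k' : Fin p' → O3}
    {t : Fin p ⊕ Fin p' → ℝ}
    (hw : ((∏ i, wt (ob3 (k i))) * (∏ i, wt (ob3 (k' i)))) *
      (Fg (o3 k k') (h3 (Z true) (Z false) k k')
          (pos (Sum.elim (fun i => ln (k i)) (fun i => ln (k' i))) t) *
        gas (nA n k) (nA n' k') x0
          (fld (o3 k k') (pos (Sum.elim (fun i => ln (k i)) (fun i => ln (k' i))) t) (true, .A)
            (Z true none))
          (fld (o3 k k') (pos (Sum.elim (fun i => ln (k i)) (fun i => ln (k' i))) t) (false, .A)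
            (Z false none))) = wordS Z P n n' N k k' t) :
    WordId6 Z P ln x0 n n' N k k' t := by
  unfold WordId6
  rw [hw]
  unfold wordS
  refine Finset.sum_congr rfl fun D _ => Finset.sum_congr rfl fun D' _ =>
    Finset.sum_congr rfl fun a _ => Finset.sum_congr rfl fun b _ => ?_
  congr 1
  have hI : ∀ s : Fin a ⊕ Fin b → Bool, Integrable (fun u : Fin a ⊕ Fin b → ℝ => fI Z P l n n'
      (famW (fun i => kaD (k i) (decide (i ∈ D))) (fun i => kaD (k' i) (decide (i ∈ D'))) t
        fun i => (s i, u i))) (Measure.pi fun _ => volume) := by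
    intro s
    set K : (Fin p ⊕ Fin p') ⊕ (Fin a ⊕ Fin b) → Bool × Kd6 :=
      labW (fun i => kaD (k i) (decide (i ∈ D))) (fun i => kaD (k' i) (decide (i ∈ D')))
        (fun i => s (Sum.inl i)) (fun i => s (Sum.inr i)) with hK
    obtain ⟨C, δ, hC, hδ, hb⟩ := fI_bd hP h K
    have e1 : ∀ u : Fin a ⊕ Fin b → ℝ, fI Z P l n n'
        (famW (fun i => kaD (k i) (decide (i ∈ D))) (fun i => kaD (k' i) (decide (i ∈ D'))) t
          fun i => (s i, u i)) = fI Z P l n n' (fun i => xo (K i) (Sum.elim t u i)) := by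
      intro u
      rw [hK, ← famW_eq]
      congr 2
      funext j
      rcases j with j | j <;> rfl
    simp only [e1]
    refine ((integrable_prod_exp' (ι := Fin a ⊕ Fin b) hδ).const_mul
      (C * ∏ i, Real.exp (-(δ * |t i|)))).mono' ?_ (Filter.Eventually.of_forall fun u => ?_)
    · have ht : ∀ i : (Fin p ⊕ Fin p') ⊕ (Fin a ⊕ Fin b),
          Measurable fun u : Fin a ⊕ Fin b → ℝ => Sum.elim t u i := by
        rintro (i | i)
        · exact measurable_const
        · exact measurable_pi_apply i
      exact (measurable_fI hZ P l n n' K ht).aestronglyMeasurable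
    · refine (hb (Sum.elim t u)).trans (le_of_eq ?_)
      rw [Fintype.prod_sum_type, mul_assoc]
      rfl
  rw [Pool.Agent.PHK.integral_pi_lM (integrable_pi_lM hI)]
  rw [← (Equiv.sumArrowEquivProdArrow (Fin a) (Fin b) Bool).symm.sum_comp, Fintype.sum_prod_type,
    Finset.mul_sum]
  refine Finset.sum_congr rfl fun s _ => ?_
  rw [Finset.mul_sum]
  refine Finset.sum_congr rfl fun s' _ => ?_
  rw [mI6_labW]
  congr 1
  refine integral_congr_ae (Filter.Eventually.of_forall fun u => ?_)
  show fI Z P l n n' _ = fI Z P l n n' _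
  rw [← famW_eq]
  rfl

end PHK

end
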