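import Pool.Agent.PHK.KRep6
import Pool.Agent.PHK.WordP

/-!
# The class formula of (P): the join

* **`WordTh`** : the identity of the words for all class functions of (P) (statement);
* `decQ6_of` : the decay needed by `PHK/ClsInt6`;
* **`ffth_of_word : WordTh → FFth`**.
-/

set_option autoImplicit false
set_option linter.unusedSectionVars false
set_option linter.unusedVariables false

noncomputable section

open Complex MeasureTheory
open scoped ENNReal

namespace Pool.Agent.PLX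

open NUO NUP1 NUP1S NUP1.Bd NURow
open PBF.PLX (Crs)
open _root_.PHK (Par6 GoodP6 OneC6 FF6 WordP WordId6 DecQ6 QOk6 CrvR6)
open _root_.PLX (Fil)

/-- **the word identities of (P)**: all class functions -/
def WordTh : Prop :=
  ∀ (Z : Bool → Option O3 → ℂ → ℂ) (P : Par6) (κ : ℝ) (Q : ℤ) (n n' : ℕ), GoodP6 P → HI6 P →
    0 < κ → κ ≤ 8 / 3 → (∀ s k, Measurable (Z s k)) → DecZ6 Z P (51 / 100 * l) κ Q → InvZ6 Z κ Q →
    (∀ (s : Bool) (u : ℂ), 51 / 100 * l ≤ u.re → u.re ≤ l → DifferentiableAt ℂ (Z s none) u) →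
    (n : ℤ) = n' + Q → WordP Z P (51 / 100 * l) n n'

theorem decQ6_of {Z : Bool → Option O3 → ℂ → ℂ} {P : Par6} {κ : ℝ} {Q : ℤ} {n n' : ℕ}
    (hP : GoodP6 P) (hI : HI6 P) (h0 : 0 < κ) (h1 : κ ≤ 8 / 3) (hD : DecZ6 Z P (51 / 100 * l) κ Q)
    (hV : InvZ6 Z κ Q) (hn : (n : ℤ) = n' + Q) : DecQ6 Z P κ κ ((n : ℝ) - n') := by
  have hl := NUMF.l_pos
  have e : ((n : ℝ) - n') = Q := by
    have : (n : ℝ) = n' + Q := by exact_mod_cast hn
    linarith
  rw [e]
  have he := hP.e45
  have a1 := hI.j1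
  have a2 := hI.j2
  refine ⟨h0, by linarith, fun s => ?_, hD.L, hD.T, hD.S, fun s => ?_⟩
  · obtain ⟨D, hd⟩ := hD.A s
    refine ⟨D, fun u hu => hd u ⟨?_, hu.2⟩⟩
    have h2 := hu.1
    have h3 : (51 / 100 : ℝ) * l ≤ (1 - P.e) * l := by
      have : 0 < l := hl
      nlinarith
    linarith
  · obtain ⟨C, hC, hb⟩ := hV.bd s
    refine ⟨C, hC, fun u ht => hb u ⟨?_, ?_⟩⟩
    · have : 0 < l := hl
      have h3 := ht.1
      nlinarith
    · have : 0 < l := hl
      have h3 := ht.2
      nlinarith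

/-- **the class formula of (P) from the word identities** -/
theorem ffth_of_word [Fil] (hW : WordTh) : FFth := by
  intro Z B P ep κ Q E n n' η η' hP hI hep0 hep hκ hO hD hV hn hη
  have h0 := hO.kpos
  have hQ := QOk6.of_oneC hO (by linarith)
  have hj := hI.j2
  have hS : _root_.PHK.StP (ep / 4) P := hP.stP (by linarith) (by linarith) (by linarith)
  have hw := hW Z P κ Q n n' hP hI h0 hκ hO.meas hD hV (fun s u h1 h2 => hO.dA s u h1 (by
    have hl : 0 < l := NUMF.l_pos
    nlinarith)) hn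
  have hln : ∀ k, _root_.PHK.lnK P k = ln6 P k := by
    intro k
    cases k <;> rfl
  have key := _root_.PHK.ZobjQ_FF6 (ln := _root_.PHK.lnK P) (x0 := 51 / 100 * l) (N := 2 * (n + n')) (Q := Q) hP
    hO.meas (decQ6_of hP hI h0 hκ hD hV hn) hQ hS (by linarith) (η := η) (η' := η')
    (fun r hr => by
      filter_upwards [hη r hr] with O hO'
      exact _root_.PHK.crvR6_of hO') le_rfl hw
  simp only [hln] at key
  exact key

end Pool.Agent.PLX

end
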