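import Pool.Agent.NUSp.Cls
import Pool.Agent.PLX.PB.Own0

/-!
# The letter `hg` of (P): the group `hp` and a hole of the other species at the half quantum

`gpG s σ w`: potential of the group on a quantum of species `s`: half quantum of type `σ` at `w`,
string of the other species at `w - 2 l`, quantum of species `σ` at `w`, and a hole of the other species
at `w` (the class `hp` has a simple zero for the other species there).

* `wXg`, `wYg`, `gpG_eq`: reduced words; `gphG_eq`: phases `6 + p`, `- 1 - p`; `potB_gpG`;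
* `MFoG`, `MFxG`: sea terms, values at `5/8 l`;
* `own_Hg`: the own factor at rows `0`, price `exp (- (mx + 1) Ag (3/8) τ)`.
-/

set_option autoImplicit false

open Complex MeasureTheory Set Filter Topology

namespace PHK

noncomputable section

open NUSp NUHM
open NUO (pp Away bk bk1 yw mlt cp PotB kb)
open PB0.PLX
open NUPref (la)
open NUMF (zj Ag)

/-- reduced word of `hg` on the species of its half quantum -/
def wXg : List (ℤ × ℝ) := [(0, 1), (-2, 2), (-1, -2), (2, 1), (1, -1), (3, 2), (4, -2)]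

/-- reduced word of `hg` on the other species -/
def wYg : List (ℤ × ℝ) := [(0, -1), (4, 3), (3, -2), (-3, -2), (-2, -1), (1, 1), (-1, 1)]

/-- reduced word of `hg` -/
def wcg (o : Bool) : List (ℤ × ℝ) := if o then wXg else wYg

/-- **potential of the letter `hg`** -/
def gpG (s σ : Bool) (w ζ : ℂ) : ℂ := gp s (grp .hp σ w) ζ - cp s (!σ, false, w) ζ

/-- half step of its phase -/
def gphG (s σ : Bool) (w : ℂ) : ℝ :=
  gph s (grp .hp σ w) - wph (mlt (decide (s = !σ)) false) w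

theorem gpG_eq (s σ : Bool) (w ζ : ℂ) : gpG s σ w ζ = wd (wcg (decide (s = σ))) w ζ := by
  unfold gpG
  rw [gp_grp, cp_eq_wd]
  have e : decide (s = (!σ, false, w).1) = !decide (s = σ) := by cases s <;> cases σ <;> rfl
  rw [e]
  show wd (wc .hp (decide (s = σ))) w ζ - wd (mlt (!decide (s = σ)) false) w ζ = _
  cases (decide (s = σ)) <;> simp [wc, wX, wY, wcg, wXg, wYg, mlt] <;> ring

/-- derivative -/
def gpG1 (s σ : Bool) (w ζ : ℂ) : ℂ := wd1 (wcg (decide (s = σ))) w ζ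

theorem gphG_eq' (s σ : Bool) (w : ℂ) : gphG s σ w = wph (wcg (decide (s = σ))) w := by
  unfold gphG
  rw [gph_grp]
  have e : decide (s = !σ) = !decide (s = σ) := by cases s <;> cases σ <;> rfl
  rw [e]
  cases (decide (s = σ)) <;> simp [wc, wX, wY, wcg, wXg, wYg, mlt] <;> ring

/-- charge of `hg` -/
theorem wq_wcg (o : Bool) : wq (wcg o) = if o then 1 else -1 := by
  cases o <;> norm_num [wcg, wXg, wYg, wq]

/-- phases in units `l`, the half quantum at real part `p l`, `0 < p < 1` -/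
def phg (o : Bool) (p : ℝ) : ℝ := if o then 6 + p else -1 - p

theorem gphG_eq (s σ : Bool) {w : ℂ} (h1 : 0 < w.re / NUMF.l) (h2 : w.re / NUMF.l < 1) :
    gphG s σ w = phg (decide (s = σ)) (w.re / NUMF.l) * NUMF.l := by
  rw [gphG_eq']
  have a0 := yw_of w 0 0 (by push_cast; linarith) (by push_cast; linarith)
  have b2 := yw_of w (-2) 1 (by push_cast; linarith) (by push_cast; linarith)
  have b1 := yw_of w (-1) 1 (by push_cast; linarith) (by push_cast; linarith)
  have a1 := yw_of w 1 0 (by push_cast; linarith) (by push_cast; linarith)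
  have a2 := yw_of w 2 0 (by push_cast; linarith) (by push_cast; linarith)
  have a3 := yw_of w 3 0 (by push_cast; linarith) (by push_cast; linarith)
  have a4 := yw_of w 4 0 (by push_cast; linarith) (by push_cast; linarith)
  have b3 := yw_of w (-3) 1 (by push_cast; linarith) (by push_cast; linarith)
  push_cast at a0 a1 a2 a3 a4 b1 b2 b3
  cases (decide (s = σ)) <;>
    simp [wcg, wXg, wYg, phg, a0, a1, a2, a3, a4, b1, b2, b3] <;> ring


/-- **the letter is a potential** -/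
theorem potB_gpG {δ b : ℝ} (hb0 : 0 < b) (hb : b < δ * NUMF.l) (s σ : Bool) {w : ℂ}
    (h : Away δ w) : PotB b (12 * kb δ b) (wq (wcg (decide (s = σ)))) w.im (gpG s σ w)
      (gpG1 s σ w) := by
  have h1 := potB_wd hb0 hb h (wcg (decide (s = σ)))
  have e : gpG s σ w = wd (wcg (decide (s = σ))) w := funext fun ζ => gpG_eq s σ w ζ
  have e1 : gpG1 s σ w = wd1 (wcg (decide (s = σ))) w := rfl
  have hn : wn (wcg (decide (s = σ))) ≤ 12 := by
    cases (decide (s = σ)) <;> norm_num [wcg, wXg, wYg, wn]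
  rw [e, e1]
  exact h1.mono (mul_le_mul_of_nonneg_right hn (NUO.kb_nonneg hb0 hb h))

/-! ### the sea terms -/

/-- sea term on the species of the half quantum -/
def MFoG (w : ℂ) : ℝ := MW0 wXg w

/-- sea term on the other species -/
def MFxG (w : ℂ) : ℝ := MW0 wYg w

theorem MFoG_eq (w : ℂ) : MFoG w = MFo .hp w + MD0 w 4 := by
  have e : HL0 w 5 = HL0 w (-3) := by rw [← HL0_per w 5]; norm_num
  unfold MFoG MFo MD0
  simp only [wXg, wX, MW0_cons, MW0_nil]
  norm_num
  rw [e]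
  ring

theorem MFxG_eq (w : ℂ) : MFxG w = MFx .hp w - (MD0 w 1 + MD0 w (-1)) / 2 := by
  unfold MFxG MFx MD0
  simp only [wYg, wY, MW0_cons, MW0_nil]
  norm_num
  ring

theorem MFoG_val {w : ℂ} (hw : w.re = 5 / 8 * NUMF.l) : MFoG w =
    la w (-2) - 2 * la w 1 + 2 * la w 3 := by
  have hl := NUMF.l_pos
  have hp : w.re / NUMF.l = 5 / 8 := by rw [hw]; field_simp
  have e' : la w (-(4:ℤ) - 1) = la w 3 := by
    rw [← la_sub8 w 3]
    norm_num
  rw [MFoG_eq, MFo_Hp hw, MD0_in w 4 (by rw [hp]; norm_num [abs_le]), e']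

theorem MFxG_val {w : ℂ} (hw : w.re = 5 / 8 * NUMF.l) : MFxG w =
    la w (-3) + la w 4 - 2 * la w 3 - la w 0 - Ag (3 / 8) w.im := by
  have hl := NUMF.l_pos
  have hp : w.re / NUMF.l = 5 / 8 := by rw [hw]; field_simp
  have e2 : dl0 w.im (3 - (-1:ℤ) + w.re / NUMF.l) = 2 * Ag (3 / 8) w.im := by
    rw [hp, ← dl0_refl, dl0_out _ (by norm_num) (by norm_num)]
    norm_num
  rw [MFxG_eq, MFx_Hp hw, MD0_in w 1 (by rw [hp]; norm_num [abs_le]), MD0_eq w (-1), e2]
  norm_num
  ring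

/-- the sea term with `mo + 1`, `mx + 1` effective rows -/
def seaG (mo mx : ℕ) (w : ℂ) : ℝ := e2 mo mx (MFoG w) (MFxG w)

/-- **the own factor of `hg`**: `hp` over the one body function of the hole -/
theorem own_Hg (c c' : ℂ) (β : ℝ) (g0 g g' : ℂ → ℂ) (mo mx : ℕ) (τ : ℝ) :
    ‖XS c g0 mx mo (zj (5 / 8) τ - 2 * NUP1.l)‖ * ‖KF0 mo mx (zj (5 / 8) τ)‖ *
      ‖XN c' β g' mo mx (zj (5 / 8) τ)‖ * ‖XN c β g mx mo (zj (5 / 8) τ)‖⁻¹ *
      Real.exp (seaG mo mx (zj (5 / 8) τ)) =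
      ‖XS c g0 mx mo (zj (5 / 8) τ - 2 * NUP1.l)‖ * ‖KF0 mo mx (zj (5 / 8) τ)‖ *
      ‖XN c' β g' mo mx (zj (5 / 8) τ)‖ * Real.exp (sea2 mo mx .hp (zj (5 / 8) τ)) *
      (‖c‖ * ‖ph0 β g mx (zj (5 / 8) τ)‖)⁻¹ *
      Real.exp (-(ls (5 / 8) τ - ls (-(11 / 8)) τ)) *
      Real.exp (-(((mx + 1 : ℕ) : ℝ) * Ag (3 / 8) τ)) := by
  have e1 : seaG mo mx (zj (5 / 8) τ) = sea2 mo mx .hp (zj (5 / 8) τ) +
      (eQ mx mo (5 / 8) τ - (ls (5 / 8) τ - ls (-(11 / 8)) τ) -
        ((mx + 1 : ℕ) : ℝ) * Ag (3 / 8) τ) := by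
    unfold seaG sea2
    rw [MFoG_val (zj_re _ _), MFxG_val (zj_re _ _), MFo_Hp (zj_re _ _), MFx_Hp (zj_re _ _), la_zj,
      la_zj, la_zj, la_zj, la_zj, la_zj, zj_im]
    rw [show (5 / 8 + -2 : ℝ) = -(11 / 8) by norm_num, show (5 / 8 + 0 : ℝ) = 5 / 8 by norm_num]
    unfold eQ e2
    rw [show (5 / 8 - 2 : ℝ) = -(11 / 8) by norm_num]
    push_cast
    ring
  rw [e1, norm_XN gz_S (v := 5 / 8) c, Real.exp_add, Real.exp_sub, Real.exp_sub, mul_inv, mul_inv,
    mul_inv, Real.exp_neg, Real.exp_neg]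
  have h1 := Real.exp_pos (eQ mx mo (5 / 8) τ)
  field_simp

end

end PHK
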