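import Pool.Agent.PHK.MrgT
import Pool.Agent.PHK.Loc
import Pool.Agent.PHD.Alg

/-!
# The classes with zeros in the strip of the holes

`ζ s : ν s → ℂ` = simple zeros of the class function `Z s none` in the strip of the holes,
`ρ s j` = limit of `Z s none z / (z - ζ s j)`.
* `ZE Z ζ E E'`: holes at the zeros `E` (first species), `E'` (second species); `psE`: insertion;
  `kaE`: weight; **`TZ`**: the term of the class, `TZ_ok`; **`WordIdZ`**: the identity of one word;
* `TE`, `int_TZ`: the sets of holes one by one;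
* `trm6_ins`, `FF6_ins`: the functional with an insertion which depends on the objects only;
* **`ZobjQ_of_wordZ`**, **`ZobjQ_FFZ`**: the class formula.
-/

set_option autoImplicit false
set_option linter.unusedSectionVars false
set_option linter.unusedVariables false

noncomputable section

open Complex MeasureTheory Finset
open scoped ENNReal Nat

open PLX (Fil)

namespace PHK

open NUO NUP1 NUP1S NUP1S.Mg NURow NUCR
open NUP1.Bd (wt qg)
open PBF.PLX (Crs Ins)

variable {ν : Bool → Type} [∀ s, Fintype (ν s)] [∀ s, LinearOrder (ν s)]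

/-- **holes at the zeros** `E` of the first and `E'` of the second species -/
def ZE (Z : Bool → Option O3 → ℂ → ℂ) (ζ : ∀ s, ν s → ℂ) (E : Finset (ν true))
    (E' : Finset (ν false)) (s : Bool) (k : Option O3) (z : ℂ) : ℂ :=
  Z s k z * ((∏ j ∈ E, gz (true, .A) (s, ob4 k) (ζ true j - z)) *
    ∏ j ∈ E', gz (false, .A) (s, ob4 k) (ζ false j - z))⁻¹

/-- the localisers at the holes, not more holes of a species than quanta at the points `b` -/
def psE (P : Par6) (ζ : ∀ s, ν s → ℂ) (E : Finset (ν true))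
    (E' : Finset (ν false)) {ι : Type*} [Fintype ι] (O : ι → Xo) : ℂ :=
  if (∑ i, hl6 true (O i)) + E.card ≤ ∑ i, sat6 true (O i) ∧
      (∑ i, hl6 false (O i)) + E'.card ≤ ∑ i, sat6 false (O i) then
    (∏ j ∈ E, gHI P O true (ζ true j)) * ∏ j ∈ E', gHI P O false (ζ false j)
  else 0

/-- the weight of the holes `E`, `E'` -/
def kaE (ζ ρ : ∀ s, ν s → ℂ) (E : Finset (ν true)) (E' : Finset (ν false)) : ℂ :=
  (∏ j ∈ E, -kp / ρ true j) * (∏ j ∈ E', -kp / ρ false j) *
    (Pool.Agent.PHD.PP (fun j j' => q (ζ true j - ζ true j')) E *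
      Pool.Agent.PHD.PP (fun j j' => q (ζ false j - ζ false j')) E') *
    ∏ j ∈ E, ∏ j' ∈ E', qg (ζ true j - ζ false j')

/-- **the term of a class with zeros** -/
def TZ (Z : Bool → Option O3 → ℂ → ℂ) (P : Par6) (ζ ρ : ∀ s, ν s → ℂ) (n n' : ℕ) : Trm :=
  fun _ _ O => ∑ E : Finset (ν true), ∑ E' : Finset (ν false),
    kaE ζ ρ E E' * (fI (ZE Z ζ E E') P l (n + E.card) (n' + E'.card) O * psE P ζ E E' O)

/-- **the identity of one word of a class with zeros** -/
def WordIdZ (Z : Bool → Option O3 → ℂ → ℂ) (P : Par6) (ζ ρ : ∀ s, ν s → ℂ) (ln : O3 → ℝ)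
    (x0 : ℝ) (n n' N : ℕ) {p p' : ℕ} (k : Fin p → O3) (k' : Fin p' → O3)
    (t : Fin p ⊕ Fin p' → ℝ) : Prop :=
  WordIdT Z (TZ Z P ζ ρ n n') ln x0 n n' N k k' t

/-! ### the insertion -/

section ins
variable {P : Par6} {ζ ρ : ∀ s, ν s → ℂ} {E : Finset (ν true)}
  {E' : Finset (ν false)}

theorem psE_equiv {ι ι' : Type*} [Fintype ι] [Fintype ι'] (e : ι ≃ ι') (O : ι' → Xo) :
    psE P ζ E E' (fun i => O (e i)) = psE P ζ E E' O := by
  unfold psE
  rw [gHI_equiv, e.sum_comp fun i => hl6 true (O i), e.sum_comp fun i => sat6 true (O i),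
    e.sum_comp fun i => hl6 false (O i), e.sum_comp fun i => sat6 false (O i)]

theorem gHI_xo (P : Par6) {ι : Type*} [Fintype ι] (O : ι → Xo) :
    gHI P (fun i => xo (sp (O i), k6 (O i)) (ht (O i))) = gHI P O := by
  funext s h
  unfold gHI isE
  simp only [sp_xo, k6_xo, ht_xo]

theorem psE_xo {ι : Type*} [Fintype ι] (O : ι → Xo) :
    psE P ζ E E' O = psE P ζ E E' fun i => xo (sp (O i), k6 (O i)) (ht (O i)) := by
  unfold psE
  rw [gHI_xo]
  have h1 : ∀ (s : Bool) (x : Xo), hl6 s (xo (sp x, k6 x) (ht x)) = hl6 s x := fun s x =>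
    hl6_congr (sp_xo _ _) (k6_xo _ _) (ht_xo _ _) s
  have h2 : ∀ (s : Bool) (x : Xo), sat6 s (xo (sp x, k6 x) (ht x)) = sat6 s x := fun s x =>
    sat6_congr (sp_xo _ _) (k6_xo _ _) (ht_xo _ _) s
  simp only [h1, h2]

/-- the localiser is at most `2` -/
theorem gHI_le_two {ι : Type*} [Fintype ι] (O : ι → Xo) (s : Bool) {h : ℂ}
    (hh : |h.re - (1 - P.e) * NUMF.l| ≤ 2 / 3 * NUMF.l) : ‖gHI P O s h‖ ≤ 2 := by
  unfold gHI
  refine (norm_sub_le _ _).trans ?_
  have : ‖∏ i, if sp (O i) = !s ∧ isE (O i) then tau6 (h - posB P.e (ht (O i))) else 1‖ ≤ 1 := by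
    rw [norm_prod]
    refine Finset.prod_le_one (fun i _ => norm_nonneg _) fun i _ => ?_
    split_ifs
    · refine norm_tau_le ?_
      rw [Complex.sub_re, posB_re6]
      exact hh
    · rw [norm_one]
  rw [norm_one]
  linarith

/-- the strip of the zeros -/
def ZStrip (P : Par6) (ζ : ∀ s, ν s → ℂ) : Prop :=
  ∀ s j, |(ζ s j).re - (1 - P.e) * NUMF.l| ≤ 2 / 3 * NUMF.l

/-- **the insertion is bounded** -/
theorem psE_le (hζ : ZStrip P ζ) {ι : Type*} [Fintype ι] (O : ι → Xo) :
    ‖psE P ζ E E' O‖ ≤ 2 ^ (E.card + E'.card) := by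
  unfold psE
  split_ifs
  · rw [norm_mul, norm_prod, norm_prod, pow_add]
    refine mul_le_mul ?_ ?_ (Finset.prod_nonneg fun _ _ => norm_nonneg _) (by positivity)
    · rw [← Finset.prod_const]
      exact Finset.prod_le_prod (fun _ _ => norm_nonneg _) fun j _ => gHI_le_two O true (hζ true j)
    · rw [← Finset.prod_const]
      exact Finset.prod_le_prod (fun _ _ => norm_nonneg _) fun j _ => gHI_le_two O false (hζ false j)
  · rw [norm_zero]
    positivity

theorem measurable_psE {Y : Type*} [MeasurableSpace Y] {ι : Type*} [Fintype ι]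
    (K : ι → Bool × Kd6) {t : ι → Y → ℝ} (ht' : ∀ i, Measurable (t i)) :
    Measurable fun y => psE P ζ E E' (fun i => xo (K i) (t i y)) := by
  unfold psE hl6 sat6
  simp only [k6_xo, sp_xo]
  split_ifs
  · exact (Finset.measurable_prod _ fun j _ => measurable_gHI P K ht' _ measurable_const).mul
      (Finset.measurable_prod _ fun j _ => measurable_gHI P K ht' _ measurable_const)
  · exact measurable_const

/-- the number of objects by the charge of the words -/
theorem card_q3I {ι : Type*} [Fintype ι] (O : ι → Xo)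
    (h : ∀ s, ∑ i, hl6 s (O i) ≤ ∑ i, sat6 s (O i)) :
    2 * (Fintype.card ι : ℤ) ≤ 3 * (q3I O true + q3I O false) := by
  have h1 := card_leI (O := O) fun s => h s
  have key : ∀ x : Xo, (2 : ℤ) ≤ 3 * (chg6 true x + chg6 false x) +
      5 * (((hl6 true x : ℤ) + hl6 false x) - ((sat6 true x : ℤ) + sat6 false x)) := by
    intro x
    unfold chg6 hl6 sat6
    cases k6 x <;> cases sp x <;> simp
  have h3 : ∑ i : ι, (2 : ℤ) ≤ ∑ i, (3 * (chg6 true (O i) + chg6 false (O i)) +
      5 * (((hl6 true (O i) : ℤ) + hl6 false (O i)) - ((sat6 true (O i) : ℤ) + sat6 false (O i)))) :=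
    Finset.sum_le_sum fun i _ => key (O i)
  rw [Finset.sum_const, Finset.card_univ, nsmul_eq_mul] at h3
  simp only [Finset.sum_add_distrib, ← Finset.mul_sum, Finset.sum_sub_distrib] at h3
  have h4 : (∑ i, (hl6 true (O i) : ℤ)) ≤ ∑ i, (sat6 true (O i) : ℤ) := by exact_mod_cast h true
  have h5 : (∑ i, (hl6 false (O i) : ℤ)) ≤ ∑ i, (sat6 false (O i) : ℤ) := by exact_mod_cast h false
  unfold q3I qI
  push_cast
  linarith

/-- **conditions of a term which does not vanish** -/
theorem fI_psE_ne {Z : Bool → Option O3 → ℂ → ℂ} {y : ℝ} {n n' : ℕ} {ι : Type*} [Fintype ι]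
    {O : ι → Xo} (h : fI Z P y (n + E.card) (n' + E'.card) O * psE P ζ E E' O ≠ 0) :
    q3I O true ≤ n ∧ q3I O false ≤ n' ∧ Fintype.card ι ≤ 2 * (n + n') := by
  have h1 : fI Z P y (n + E.card) (n' + E'.card) O ≠ 0 := left_ne_zero_of_mul h
  have h2 : psE P ζ E E' O ≠ 0 := right_ne_zero_of_mul h
  have h3 : qI O true ≤ (n + E.card : ℕ) ∧ qI O false ≤ (n' + E'.card : ℕ) ∧ cntI O := by
    by_contra hc
    exact h1 (if_neg hc)
  have h4 : (∑ i, hl6 true (O i)) + E.card ≤ ∑ i, sat6 true (O i) ∧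
      (∑ i, hl6 false (O i)) + E'.card ≤ ∑ i, sat6 false (O i) := by
    by_contra hc
    exact h2 (if_neg hc)
  obtain ⟨a1, a2, a3⟩ := h3
  obtain ⟨b1, b2⟩ := h4
  have c1 : q3I O true ≤ n := by
    unfold q3I
    push_cast at a1 ⊢
    have : ((∑ i, hl6 true (O i) : ℕ) : ℤ) + E.card ≤ ((∑ i, sat6 true (O i) : ℕ) : ℤ) := by
      exact_mod_cast b1
    push_cast at this
    linarith
  have c2 : q3I O false ≤ n' := by
    unfold q3I
    push_cast at a2 ⊢
    have : ((∑ i, hl6 false (O i) : ℕ) : ℤ) + E'.card ≤ ((∑ i, sat6 false (O i) : ℕ) : ℤ) := by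
      exact_mod_cast b2
    push_cast at this
    linarith
  refine ⟨c1, c2, ?_⟩
  have h6 := card_q3I O a3
  omega

end ins

/-! ### the term -/

section term
variable {Z : Bool → Option O3 → ℂ → ℂ} {P : Par6} {ζ ρ : ∀ s, ν s → ℂ} {n n' : ℕ}

/-- **the term of a class with zeros satisfies the conditions** -/
theorem TZ_ok (hζ : ZStrip P ζ)
    (hI : ∀ (E : Finset (ν true)) (E' : Finset (ν false)) {ι : Type} [Fintype ι]
      (K : ι → Bool × Kd6), Integrable (fun t : ι → ℝ =>
        fI (ZE Z ζ E E') P l (n + E.card) (n' + E'.card) fun i => xo (K i) (t i))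
        (Measure.pi fun _ => volume)) :
    TOk (TZ Z P ζ ρ n n') (2 * (n + n')) n n' where
  equiv e O := by
    unfold TZ
    refine sum_congr rfl fun E _ => sum_congr rfl fun E' _ => ?_
    rw [fI_equiv, psE_equiv]
  xo O := by
    unfold TZ
    refine sum_congr rfl fun E _ => sum_congr rfl fun E' _ => ?_
    rw [fI_xo, psE_xo]
  zero {ι} _ O hN := by
    unfold TZ
    refine sum_eq_zero fun E _ => sum_eq_zero fun E' _ => ?_
    by_cases h : fI (ZE Z ζ E E') P l (n + E.card) (n' + E'.card) O * psE P ζ E E' O = 0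
    · rw [h, mul_zero]
    · exact absurd (fI_psE_ne h).2.2 (not_le.2 hN)
  int {ι} _ K := by
    unfold TZ
    refine integrable_finsetSum _ fun E _ => integrable_finsetSum _ fun E' _ =>
      Integrable.const_mul ?_ _
    refine (hI E E' K).mul_bdd (c := 2 ^ (E.card + E'.card)) ?_ ?_
    · exact (measurable_psE K fun i => measurable_pi_apply i).aestronglyMeasurable
    · exact Filter.Eventually.of_forall fun t => psE_le hζ _
  chg {ι} _ O h := by
    unfold TZ at h
    obtain ⟨E, _, h⟩ := exists_ne_zero_of_sum_ne_zero h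
    obtain ⟨E', _, h⟩ := exists_ne_zero_of_sum_ne_zero h
    have h1 := fI_psE_ne (right_ne_zero_of_mul h)
    exact ⟨h1.1, h1.2.1⟩

/-- **The class formula of (P)** of a class with zeros from the identity of the words. -/
theorem ZobjQ_of_wordZ (hζ : ZStrip P ζ)
    (hI : ∀ (E : Finset (ν true)) (E' : Finset (ν false)) {ι : Type} [Fintype ι]
      (K : ι → Bool × Kd6), Integrable (fun t : ι → ℝ =>
        fI (ZE Z ζ E E') P l (n + E.card) (n' + E'.card) fun i => xo (K i) (t i))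
        (Measure.pi fun _ => volume)) {ln : O3 → ℝ} {x0 : ℝ} {N : ℕ} (hN : 2 * (n + n') ≤ N)
    (hW : ∀ (p p' : ℕ) (k : Fin p → O3) (k' : Fin p' → O3), ∑ i, c3 (k i) ≤ n →
      ∑ i, c3 (k' i) ≤ n' → ∀ᵐ t : Fin p ⊕ Fin p' → ℝ ∂(Measure.pi fun _ => volume),
        WordIdZ Z P ζ ρ ln x0 n n' N k k' t) :
    NURow.ZobjQ (Z true) (Z false) x0 n n' (fun _ _ k _ i => ln (k i)) (fun _ _ _ k' i => ln (k' i)) =
      ∑ r ∈ range (2 * (n + n') + 1), ((r ! : ℕ) : ℂ)⁻¹ *
        ∫ O : Fin r → Xo, TZ Z P ζ ρ n n' (Fin r) O ∂(Measure.pi fun _ => nu) :=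
  ZobjQ_of_wordT (TZ_ok hζ hI) hN (by omega) hW

end term

/-! ### one set of holes -/

section oneE
variable {Z : Bool → Option O3 → ℂ → ℂ} {P : Par6} {ζ ρ : ∀ s, ν s → ℂ} {n n' : ℕ}

/-- the term of one set of holes -/
def TE (Z : Bool → Option O3 → ℂ → ℂ) (P : Par6) (ζ : ∀ s, ν s → ℂ) (n n' : ℕ)
    (E : Finset (ν true)) (E' : Finset (ν false)) : Trm :=
  fun _ _ O => fI (ZE Z ζ E E') P l (n + E.card) (n' + E'.card) O * psE P ζ E E' O

theorem TE_ok (hζ : ZStrip P ζ) (E : Finset (ν true)) (E' : Finset (ν false))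
    (hI : ∀ {ι : Type} [Fintype ι] (K : ι → Bool × Kd6), Integrable (fun t : ι → ℝ =>
        fI (ZE Z ζ E E') P l (n + E.card) (n' + E'.card) fun i => xo (K i) (t i))
        (Measure.pi fun _ => volume)) :
    TOk (TE Z P ζ n n' E E') (2 * (n + n')) n n' where
  equiv e O := by
    unfold TE
    rw [fI_equiv, psE_equiv]
  xo O := by
    unfold TE
    rw [fI_xo, psE_xo]
  zero {ι} _ O hN := by
    unfold TE
    by_contra h
    exact absurd (fI_psE_ne h).2.2 (not_le.2 hN)
  int {ι} _ K := by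
    unfold TE
    refine (hI K).mul_bdd (c := 2 ^ (E.card + E'.card)) ?_ ?_
    · exact (measurable_psE K fun i => measurable_pi_apply i).aestronglyMeasurable
    · exact Filter.Eventually.of_forall fun t => psE_le hζ _
  chg {ι} _ O h := by
    have h1 := fI_psE_ne h
    exact ⟨h1.1, h1.2.1⟩

/-- **the sets of holes one by one** -/
theorem int_TZ (hζ : ZStrip P ζ)
    (hI : ∀ (E : Finset (ν true)) (E' : Finset (ν false)) {ι : Type} [Fintype ι]
      (K : ι → Bool × Kd6), Integrable (fun t : ι → ℝ =>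
        fI (ZE Z ζ E E') P l (n + E.card) (n' + E'.card) fun i => xo (K i) (t i))
        (Measure.pi fun _ => volume)) (r : ℕ) :
    ∫ O : Fin r → Xo, TZ Z P ζ ρ n n' (Fin r) O ∂(Measure.pi fun _ => nu) =
      ∑ E : Finset (ν true), ∑ E' : Finset (ν false), kaE ζ ρ E E' *
        ∫ O : Fin r → Xo, TE Z P ζ n n' E E' (Fin r) O ∂(Measure.pi fun _ => nu) := by
  have hE : ∀ E E', TOk (TE Z P ζ n n' E E') (2 * (n + n')) n n' := fun E E' =>
    TE_ok hζ E E' (hI E E')
  rw [int_T (TZ_ok hζ hI)]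
  have e1 : ∀ K : Fin r → Bool × Kd6, intT (TZ Z P ζ ρ n n') K =
      ∑ E : Finset (ν true), ∑ E' : Finset (ν false), kaE ζ ρ E E' *
        intT (TE Z P ζ n n' E E') K := by
    intro K
    unfold intT
    have i1 : ∀ E E', Integrable (fun t : Fin r → ℝ => kaE ζ ρ E E' *
        TE Z P ζ n n' E E' (Fin r) fun i => xo (K i) (t i)) (Measure.pi fun _ => volume) :=
      fun E E' => ((hE E E').int K).const_mul _
    have e2 : ∫ t : Fin r → ℝ, TZ Z P ζ ρ n n' (Fin r) (fun i => xo (K i) (t i))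
        ∂(Measure.pi fun _ => volume) = ∑ E : Finset (ν true), ∑ E' : Finset (ν false),
        kaE ζ ρ E E' * ∫ t : Fin r → ℝ, TE Z P ζ n n' E E' (Fin r) (fun i => xo (K i) (t i))
          ∂(Measure.pi fun _ => volume) := by
      show ∫ t : Fin r → ℝ, (∑ E : Finset (ν true), ∑ E' : Finset (ν false),
        kaE ζ ρ E E' * TE Z P ζ n n' E E' (Fin r) (fun i => xo (K i) (t i)))
          ∂(Measure.pi fun _ => volume) = _
      rw [integral_finsetSum _ fun E _ => integrable_finsetSum _ fun E' _ => i1 E E']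
      refine Finset.sum_congr rfl fun E _ => ?_
      rw [integral_finsetSum _ fun E' _ => i1 E E']
      exact Finset.sum_congr rfl fun E' _ => integral_const_mul _ _
    rw [e2, Finset.mul_sum]
    refine Finset.sum_congr rfl fun E _ => ?_
    rw [Finset.mul_sum]
    exact Finset.sum_congr rfl fun E' _ => by ring
  simp only [e1]
  rw [Finset.sum_comm]
  refine Finset.sum_congr rfl fun E _ => ?_
  rw [Finset.sum_comm]
  refine Finset.sum_congr rfl fun E' _ => ?_
  rw [← Finset.mul_sum, int_T (hE E E')]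

end oneE

/-! ### the functional with an insertion which depends on the objects only -/

section func
variable [Fil] {Z : Bool → Option O3 → ℂ → ℂ} {P : Par6} {n n' : ℕ}

/-- the term with an insertion which depends on the objects only -/
theorem trm6_ins (ψ : (r : ℕ) → (Fin r → Xo) → ℂ) (η η' : Crs) (r : ℕ) (O : Fin r → Xo) :
    trm6 Z P n n' η η' (fun r O _ _ _ => ψ r O) r O =
      trm6 Z P n n' η η' (fun _ _ _ _ _ => 1) r O * ψ r O := by
  unfold trm6
  split_ifs
  · simp only [mul_one]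
    rw [integral_mul_const]
    ring
  · rw [zero_mul]

/-- **the functional with an insertion which depends on the objects only** -/
theorem FF6_ins {δ κ : ℝ} {Q : ℤ} (h : QOk6 Z δ κ Q) (hP : StP δ P) {η η' : Crs}
    (hη : ∀ r ≤ 2 * (n + n'), ∀ᵐ O ∂(Measure.pi fun _ : Fin r => nu), CrvR6 δ (η r O) (η' r O))
    (hn : (n : ℤ) - n' = Q) (ψ : (r : ℕ) → (Fin r → Xo) → ℂ) :
    FF6 Z P n n' η η' (fun r O _ _ _ => ψ r O) =
      ∑ r ∈ range (2 * (n + n') + 1), ((r ! : ℕ) : ℂ)⁻¹ *
        ∫ O : Fin r → Xo, fI Z P NUP1.l n n' O * ψ r O ∂(Measure.pi fun _ => nu) := by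
  unfold FF6
  refine Finset.sum_congr rfl fun r hr => ?_
  congr 1
  refine integral_congr_ae ?_
  filter_upwards [hη r (Nat.lt_succ_iff.1 (Finset.mem_range.1 hr))] with O hO
  rw [trm6_ins, trm6_one h hP O hO hn, fI_fin]

/-- one set of holes as a functional -/
theorem FF6_TE {ζ : ∀ s, ν s → ℂ} (E : Finset (ν true)) (E' : Finset (ν false))
    {δ κ : ℝ} (h : QOk6 (ZE Z ζ E E') δ κ (((n + E.card : ℕ) : ℤ) - ((n' + E'.card : ℕ) : ℤ)))
    (hP : StP δ P) {η η' : Crs}
    (hη : ∀ r ≤ 2 * ((n + E.card) + (n' + E'.card)),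
      ∀ᵐ O ∂(Measure.pi fun _ : Fin r => nu), CrvR6 δ (η r O) (η' r O)) (c : ℂ) :
    FF6 (ZE Z ζ E E') P (n + E.card) (n' + E'.card) η η'
        (fun _ O _ _ _ => c * psE P ζ E E' O) =
      ∑ r ∈ range (2 * (n + n') + 1), ((r ! : ℕ) : ℂ)⁻¹ *
        (c * ∫ O : Fin r → Xo, TE Z P ζ n n' E E' (Fin r) O ∂(Measure.pi fun _ => nu)) := by
  rw [FF6_ins h hP hη rfl fun r O => c * psE P ζ E E' O]
  have hsub : range (2 * (n + n') + 1) ⊆ range (2 * ((n + E.card) + (n' + E'.card)) + 1) := by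
    intro r hr
    rw [mem_range] at hr ⊢
    omega
  rw [← sum_subset hsub fun r _ hr => ?_]
  · refine sum_congr rfl fun r _ => ?_
    have e2 : ∀ O : Fin r → Xo, fI (ZE Z ζ E E') P NUP1.l (n + E.card) (n' + E'.card) O *
        (c * psE P ζ E E' O) = c * TE Z P ζ n n' E E' (Fin r) O := by
      intro O
      show _ = c * (fI (ZE Z ζ E E') P NUP1.l (n + E.card) (n' + E'.card) O * psE P ζ E E' O)
      ring
    simp only [e2]
    rw [integral_const_mul]
  · rw [mem_range, not_lt] at hr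
    have e0 : ∀ O : Fin r → Xo, fI (ZE Z ζ E E') P NUP1.l (n + E.card) (n' + E'.card) O *
        (c * psE P ζ E E' O) = 0 := by
      intro O
      by_contra hc
      have h1 : fI (ZE Z ζ E E') P NUP1.l (n + E.card) (n' + E'.card) O * psE P ζ E E' O ≠ 0 := by
        intro h0
        exact hc (by rw [mul_left_comm, h0, mul_zero])
      have h2 := (fI_psE_ne h1).2.2
      rw [Fintype.card_fin] at h2
      omega
    simp only [e0, integral_zero, mul_zero]

/-- **The class formula of (P)** of a class with zeros, functionals on curves. -/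
theorem ZobjQ_FFZ {ζ ρ : ∀ s, ν s → ℂ} (hζ : ZStrip P ζ)
    (hI : ∀ (E : Finset (ν true)) (E' : Finset (ν false)) {ι : Type} [Fintype ι]
      (K : ι → Bool × Kd6), Integrable (fun t : ι → ℝ =>
        fI (ZE Z ζ E E') P l (n + E.card) (n' + E'.card) fun i => xo (K i) (t i))
        (Measure.pi fun _ => volume)) {ln : O3 → ℝ} {x0 : ℝ} {N : ℕ} (hN : 2 * (n + n') ≤ N)
    (hW : ∀ (p p' : ℕ) (k : Fin p → O3) (k' : Fin p' → O3), ∑ i, c3 (k i) ≤ n →
      ∑ i, c3 (k' i) ≤ n' → ∀ᵐ t : Fin p ⊕ Fin p' → ℝ ∂(Measure.pi fun _ => volume),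
        WordIdZ Z P ζ ρ ln x0 n n' N k k' t) {δ κ : ℝ} (hP : StP δ P)
    (hQ : ∀ (E : Finset (ν true)) (E' : Finset (ν false)),
      QOk6 (ZE Z ζ E E') δ κ (((n + E.card : ℕ) : ℤ) - ((n' + E'.card : ℕ) : ℤ)))
    {η η' : Finset (ν true) → Finset (ν false) → Crs}
    (hη : ∀ E E' (r : ℕ) (O : Fin r → Xo), CrvR6 δ (η E E' r O) (η' E E' r O)) :
    NURow.ZobjQ (Z true) (Z false) x0 n n' (fun _ _ k _ i => ln (k i)) (fun _ _ _ k' i => ln (k' i)) =
      ∑ E : Finset (ν true), ∑ E' : Finset (ν false),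
        FF6 (ZE Z ζ E E') P (n + E.card) (n' + E'.card) (η E E') (η' E E')
          (fun _ O _ _ _ => kaE ζ ρ E E' * psE P ζ E E' O) := by
  rw [ZobjQ_of_wordZ hζ hI hN hW]
  have e1 : ∀ E E', FF6 (ZE Z ζ E E') P (n + E.card) (n' + E'.card) (η E E') (η' E E')
          (fun _ O _ _ _ => kaE ζ ρ E E' * psE P ζ E E' O) =
      ∑ r ∈ range (2 * (n + n') + 1), ((r ! : ℕ) : ℂ)⁻¹ *
        (kaE ζ ρ E E' * ∫ O : Fin r → Xo, TE Z P ζ n n' E E' (Fin r) O
          ∂(Measure.pi fun _ => nu)) := fun E E' =>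
    FF6_TE E E' (hQ E E') hP (fun r _ => Filter.Eventually.of_forall fun O => hη E E' r O) _
  simp only [e1, int_TZ hζ hI]
  simp only [Finset.mul_sum]
  rw [Finset.sum_comm]
  refine Finset.sum_congr rfl fun E _ => ?_
  rw [Finset.sum_comm]

end func

end PHK

end
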