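import Pool.Agent.PHK.Conf6
import Pool.Agent.PHK.ClsMeas6

/-!
# Measurability data of the configurations of the particle-hole form (helper92)

`MC6.of`: measurable one body functions and curves give `MC6`.
-/

set_option autoImplicit false

noncomputable section

open Complex MeasureTheory Finset
open PLX (Fil)

namespace PHK

open NUO NUP1 NUP1S NUP1S.Ab NUP1S.AbC NUGC NUGC.PLX NUCR
open PBF.PLX (gK Ins Crs MCr)

variable [Fil]

/-- **measurability data** from measurable one body functions and curves -/
theorem MC6.of {Z : Bool → Option O3 → ℂ → ℂ} {P : Par6} {η η' : Crs} (hZ : ∀ s k, Measurable (Z s k))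
    (hc : MCr η η') : MC6 Z P η η' :=
  ⟨fun _ => measurable_wK6 hZ P, fun r a b => measurable_gK6 hZ P (hc.m r) (hc.m' r) a b⟩

end PHK

end
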