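import Pool.Agent.NUM3.CF
import Pool.Agent.NUO.PosBase

/-!
# The contact of width `e` minus the core of scale `2 ^ n` (helper93)

* `core_le n`: `-log |tanh (2 ^ n t)| ≤ log ‖sin (e π / 8 + i t)‖ - log |sinh t|` if `4 ≤ 2 ^ n * e`,
  `e ≤ 4`;
* **`pk_core n`**: the same in transforms: with `y = π k / 8`,
  `k ↦ (cosh (4 y) - cosh ((4 - e) y)) / (k sinh (4 y)) - tanh (2 y / 2 ^ n) / k` is `PK`;
* `it_core`: its transform is `log ‖sin (e π / 8 + i t)‖ - GC n t`;
* `pk_core12` (`1 / 1024 ≤ e`), `pk_core8` (`1 / 64 ≤ e`).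
-/

set_option autoImplicit false

noncomputable section

open MeasureTheory Set
open NUMF (sk)

namespace PHK

open NUO NUPosK Pool.Agent.NUM3

lemma pow_mul_abs_sinh_le (n : ℕ) (t : ℝ) :
    2 ^ n * |Real.sinh t| ≤ |Real.sinh (2 ^ n * t)| := by
  induction n with
  | zero => simp
  | succ n ih =>
    have e : Real.sinh (2 ^ (n + 1) * t) = 2 * Real.sinh (2 ^ n * t) * Real.cosh (2 ^ n * t) := by
      rw [← Real.sinh_two_mul]
      congr 1
      ring
    have hc := Real.one_le_cosh (2 ^ n * t)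
    rw [e, abs_mul, abs_mul, abs_two, abs_of_pos (Real.cosh_pos _)]
    have h0 := abs_nonneg (Real.sinh (2 ^ n * t))
    calc (2 : ℝ) ^ (n + 1) * |Real.sinh t| = 2 * (2 ^ n * |Real.sinh t|) := by ring
      _ ≤ 2 * |Real.sinh (2 ^ n * t)| := by linarith
      _ ≤ 2 * |Real.sinh (2 ^ n * t)| * Real.cosh (2 ^ n * t) := by (clear * - hc h0; nlinarith)

/-- the width condition -/
lemma width_le {n : ℕ} {e : ℝ} (h4 : e ≤ 4) (h : 4 ≤ 2 ^ n * e) :
    1 ≤ 2 ^ n * Real.sin (e * (Real.pi / 8)) := by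
  have hpi := Real.pi_pos
  have he : 0 < e := by
    by_contra hcon
    push Not at hcon
    have : (2 : ℝ) ^ n * e ≤ 0 := mul_nonpos_of_nonneg_of_nonpos (by positivity) hcon
    linarith
  have h1 := Real.mul_le_sin (x := e * (Real.pi / 8)) (by positivity) (by (clear * - h4 hpi; nlinarith))
  have h2 : 2 / Real.pi * (e * (Real.pi / 8)) = e / 4 := by
    field_simp
    norm_num
  rw [h2] at h1
  have h3 := mul_le_mul_of_nonneg_left h1 (by positivity : (0 : ℝ) ≤ 2 ^ n)
  clear * - h h3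
  linarith

lemma GC_zero (n : ℕ) : GC n 0 = -(n * Real.log 2) := by
  unfold GC
  simp

/-- **a contact of width `e` is above the core of scale `2 ^ n`** -/
theorem core_le (n : ℕ) {e : ℝ} (h4 : e ≤ 4) (h : 4 ≤ 2 ^ n * e) (t : ℝ) :
    GC n t ≤ Real.log ‖Complex.sin (((e * (Real.pi / 8) : ℝ) : ℂ) + t * Complex.I)‖ := by
  have hw := width_le h4 h
  have h2n : (0 : ℝ) < 2 ^ n := by positivity
  have hs : 0 < Real.sin (e * (Real.pi / 8)) := by
    by_contra hcon
    push Not at hcon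
    have := mul_nonpos_of_nonneg_of_nonpos h2n.le hcon
    clear * - hw this
    linarith
  have hsq := norm_sin_sq (e * (Real.pi / 8)) t
  have hid : (Real.cosh (2 * t) - Real.cos (2 * (e * (Real.pi / 8)))) / 2 =
      Real.sin (e * (Real.pi / 8)) ^ 2 + Real.sinh t ^ 2 := by
    have a1 := Real.cosh_two_mul t
    have a2 := Real.cos_two_mul (e * (Real.pi / 8))
    have a3 := Real.cosh_sq t
    have a4 := Real.sin_sq_add_cos_sq (e * (Real.pi / 8))
    rw [a1, a2, a3]
    clear * - a4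
    linarith
  rw [hid] at hsq
  rcases eq_or_ne t 0 with rfl | ht
  · rw [GC_zero]
    have h5 : ‖Complex.sin (((e * (Real.pi / 8) : ℝ) : ℂ) + ((0 : ℝ) : ℂ) * Complex.I)‖ =
        Real.sin (e * (Real.pi / 8)) := by
      rw [Real.sinh_zero] at hsq
      have h6 : ‖Complex.sin (((e * (Real.pi / 8) : ℝ) : ℂ) + ((0 : ℝ) : ℂ) * Complex.I)‖ ^ 2 =
          Real.sin (e * (Real.pi / 8)) ^ 2 := by rw [hsq]; ring
      exact (pow_left_inj₀ (norm_nonneg _) hs.le two_ne_zero).1 h6
    rw [h5]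
    have h7 := Real.log_nonneg hw
    rw [Real.log_mul h2n.ne' hs.ne', Real.log_pow] at h7
    clear * - h7
    linarith
  · rw [GC_eq n ht]
    have hst : Real.sinh t ≠ 0 := by rwa [Ne, Real.sinh_eq_zero]
    have hS : Real.sinh (2 ^ n * t) ≠ 0 := by
      rw [Ne, Real.sinh_eq_zero]
      positivity
    have hT : Real.tanh (2 ^ n * t) ≠ 0 := by
      rw [Real.tanh_eq_sinh_div_cosh]
      exact div_ne_zero hS (Real.cosh_pos _).ne'
    have hN : 0 < ‖Complex.sin (((e * (Real.pi / 8) : ℝ) : ℂ) + t * Complex.I)‖ := by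
      rcases (norm_nonneg (Complex.sin (((e * (Real.pi / 8) : ℝ) : ℂ) + t * Complex.I))).lt_or_eq
        with h5 | h5
      · exact h5
      · rw [← h5] at hsq
        have := sq_nonneg (Real.sinh t)
        have := pow_pos hs 2
        norm_num at hsq
        linarith
    rw [sub_le_iff_le_add, ← Real.log_mul hN.ne' (abs_ne_zero.2 hT)]
    refine Real.log_le_log (abs_pos.2 hst) ?_
    refine abs_le_of_sq_le_sq ?_ (by positivity)
    rw [mul_pow, sq_abs, hsq, Real.tanh_eq_sinh_div_cosh, div_pow]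
    have hc := Real.cosh_sq (2 ^ n * t)
    have hk := pow_mul_abs_sinh_le n t
    have hk2 : (2 ^ n) ^ 2 * Real.sinh t ^ 2 ≤ Real.sinh (2 ^ n * t) ^ 2 := by
      have h6 := pow_le_pow_left₀ (by positivity) hk 2
      rw [mul_pow, sq_abs, sq_abs] at h6
      exact h6
    have hw2 : 1 ≤ (2 ^ n) ^ 2 * Real.sin (e * (Real.pi / 8)) ^ 2 := by
      have := one_le_pow₀ hw (n := 2)
      rwa [mul_pow] at this
    have hC0 : 0 < Real.cosh (2 ^ n * t) ^ 2 := by have := Real.cosh_pos (2 ^ n * t); positivity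
    rw [← mul_div_assoc, le_div_iff₀ hC0, hc]
    have h8 : Real.sinh t ^ 2 ≤ Real.sin (e * (Real.pi / 8)) ^ 2 * Real.sinh (2 ^ n * t) ^ 2 := by
      calc Real.sinh t ^ 2 = 1 * Real.sinh t ^ 2 := by ring
        _ ≤ ((2 ^ n) ^ 2 * Real.sin (e * (Real.pi / 8)) ^ 2) * Real.sinh t ^ 2 :=
            mul_le_mul_of_nonneg_right hw2 (sq_nonneg _)
        _ = Real.sin (e * (Real.pi / 8)) ^ 2 * ((2 ^ n) ^ 2 * Real.sinh t ^ 2) := by ring
        _ ≤ _ := mul_le_mul_of_nonneg_left hk2 (sq_nonneg _)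
    clear * - h8
    nlinarith

/-- transform of a contact of width `e` minus the core of scale `2 ^ n` -/
def cK (n : ℕ) (e k : ℝ) : ℝ :=
  1 / k * (Real.cosh (4 * yk k) - Real.cosh ((4 - e) * yk k)) / Real.sinh (4 * yk k) -
    Real.tanh (2 * yk k / 2 ^ n) / k

lemma sk_yk (k : ℝ) : sk k = Real.sinh (4 * yk k) := by
  have := sk_scale 4 k
  rwa [show (4 : ℝ) / 4 * k = k by ring] at this

/-- the transform -/
theorem it_core (n : ℕ) {e : ℝ} (h0 : 0 < e) (h8 : e < 8) : IntegrableOn (cK n e) (Ioi 0) ∧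
    ∀ t, ∫ k in Ioi (0 : ℝ), cK n e k * Real.cos (k * t) =
      Real.log ‖Complex.sin (((e * (Real.pi / 8) : ℝ) : ℂ) + t * Complex.I)‖ - GC n t := by
  have hpi := Real.pi_pos
  have h1 := (CF_sin (θ := e * (Real.pi / 8)) (by positivity) (by (clear * - h8 hpi; nlinarith))).sub (CF_GC n)
  have h2 := h1.congr (g := fun t =>
    Real.log ‖Complex.sin (((e * (Real.pi / 8) : ℝ) : ℂ) + t * Complex.I)‖ - GC n t) (N' := 0)
    (m' := fun k => -cK n e k) (fun t => rfl) (by norm_num) (fun k hk => ?_)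
  · obtain ⟨i, f⟩ := h2.eval
    refine ⟨by simpa using i.neg, fun t => ?_⟩
    rw [f t, ← integral_neg]
    congr 1
    funext k
    ring
  · unfold cK gc
    have a1 : Real.pi / 2 * k = 4 * yk k := by unfold yk; ring
    have a2 : Real.pi / 2 ^ (n + 2) * k = 2 * yk k / 2 ^ n := by
      unfold yk
      rw [pow_add]
      field_simp
      norm_num
    have a3 : (Real.pi / 2 - e * (Real.pi / 8)) * k = (4 - e) * yk k := by unfold yk; ring
    rw [a1, a2, a3, sk_yk]
    have hs : Real.sinh (4 * yk k) ≠ 0 := (Real.sinh_pos_iff.2 (by have := yk_pos hk; positivity)).ne'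
    field_simp
    ring

/-- **a contact of width `e` minus the core of scale `2 ^ n` is `PK`** -/
theorem pk_core (n : ℕ) {e : ℝ} (h4 : e ≤ 4) (h : 4 ≤ 2 ^ n * e) : PK (cK n e) := by
  have he : 0 < e := by
    by_contra hcon
    push Not at hcon
    have : (2 : ℝ) ^ n * e ≤ 0 := mul_nonpos_of_nonneg_of_nonpos (by positivity) hcon
    linarith
  obtain ⟨i, f⟩ := it_core n he (by linarith)
  refine ⟨i, fun t => ?_⟩
  rw [f t]
  linarith [core_le n h4 h t]

/-- scale `2 ^ 12`, in the form of `gk 0 e - core` -/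
theorem pk_core12 {e : ℝ} (h4 : e ≤ 4) (h : 1 / 1024 ≤ e) : PK fun k =>
    1 / k * (Real.cosh ((4 - 0) * yk k) - Real.cosh ((4 - e) * yk k)) / Real.sinh (4 * yk k) -
      Real.tanh (yk k / 2048) / k := by
  refine (pk_core 12 h4 (by norm_num; linarith)).congr fun k _ => ?_
  unfold cK
  rw [sub_zero]
  congr 3
  norm_num
  ring

/-- scale `2 ^ 8` -/
theorem pk_core8 {e : ℝ} (h4 : e ≤ 4) (h : 1 / 64 ≤ e) : PK fun k =>
    1 / k * (Real.cosh ((4 - 0) * yk k) - Real.cosh ((4 - e) * yk k)) / Real.sinh (4 * yk k) -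
      Real.tanh (yk k / 128) / k := by
  refine (pk_core 8 h4 (by norm_num; (clear * - h; linarith))).congr fun k _ => ?_
  unfold cK
  rw [sub_zero]
  congr 3
  norm_num
  ring

end PHK

end
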