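import Pool.Agent.PB.Func

/-!
# Products with integer multiplicities (statistics of signed constituents)

A hole is a constituent with the multiplicity `-1`: a multiplicative insertion `g` contributes
`g⁻¹`, a linear statistic `-a`.

* `lz L ε = ∏ (1 + ε a) ^ k`, `wz L = ∑ k a`, `tz L = ∑ |k|` over a list of pairs `(a, k)`;
* `hasDerivAt_lz`, `norm_lz_le`, `norm_dlz_le` for `‖ε‖ C ≤ 1 / 2`;
* **`hasDerivAt_Fz`**: the derivative of the abstract functional at `ε = 0`.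
-/

set_option autoImplicit false
set_option linter.unusedSectionVars false

noncomputable section

open Complex MeasureTheory

namespace PHK

open PBFunc

/-- product of `(1 + ε a) ^ k` -/
def lz (L : List (ℂ × ℤ)) (ε : ℂ) : ℂ := (L.map fun a => (1 + ε * a.1) ^ a.2).prod

/-- the linear statistic -/
def wz (L : List (ℂ × ℤ)) : ℂ := (L.map fun a => (a.2 : ℂ) * a.1).sum

/-- total multiplicity -/
def tz {α : Type*} (L : List (α × ℤ)) : ℕ := (L.map fun a => a.2.natAbs).sum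

/-- derivative of `lz` -/
def dlz : List (ℂ × ℤ) → ℂ → ℂ
  | [], _ => 0
  | a :: L, ε => (a.2 : ℂ) * (1 + ε * a.1) ^ (a.2 - 1) * a.1 * lz L ε +
      (1 + ε * a.1) ^ a.2 * dlz L ε

theorem lz_cons (a : ℂ × ℤ) (L : List (ℂ × ℤ)) (ε : ℂ) :
    lz (a :: L) ε = (1 + ε * a.1) ^ a.2 * lz L ε := by
  simp [lz]

theorem lz_zero (L : List (ℂ × ℤ)) : lz L 0 = 1 := by
  induction L with
  | nil => rfl
  | cons a L ih => rw [lz_cons, ih, zero_mul, add_zero, one_zpow, one_mul]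

theorem wz_cons (a : ℂ × ℤ) (L : List (ℂ × ℤ)) : wz (a :: L) = (a.2 : ℂ) * a.1 + wz L := by
  simp [wz]

theorem tz_cons {α : Type*} (a : α × ℤ) (L : List (α × ℤ)) : tz (a :: L) = a.2.natAbs + tz L := by
  simp [tz]

theorem tz_append {α : Type*} (L L' : List (α × ℤ)) : tz (L ++ L') = tz L + tz L' := by
  simp [tz]

theorem tz_map {α β : Type*} (f : α → β) (L : List (α × ℤ)) :
    tz (L.map fun a => (f a.1, a.2)) = tz L := by
  simp [tz, Function.comp_def]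

theorem dlz_zero (L : List (ℂ × ℤ)) : dlz L 0 = wz L := by
  induction L with
  | nil => rfl
  | cons a L ih =>
    show (a.2 : ℂ) * (1 + 0 * a.1) ^ (a.2 - 1) * a.1 * lz L 0 + (1 + 0 * a.1) ^ a.2 * dlz L 0 = _
    rw [lz_zero, ih, wz_cons, zero_mul, add_zero, one_zpow, one_zpow]
    ring

/-- `1 + ε a` is near `1` -/
theorem one_add_mem {a ε : ℂ} {C : ℝ} (h : ‖a‖ ≤ C) (hε : ‖ε‖ * C ≤ 1 / 2) :
    1 / 2 ≤ ‖1 + ε * a‖ ∧ ‖1 + ε * a‖ ≤ 2 := by
  have h1 : ‖ε * a‖ ≤ 1 / 2 := by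
    rw [norm_mul]
    exact (mul_le_mul_of_nonneg_left h (norm_nonneg _)).trans hε
  constructor
  · have h2 := norm_sub_norm_le (1 : ℂ) (-(ε * a))
    rw [norm_neg, norm_one, sub_neg_eq_add] at h2
    linarith
  · refine (norm_add_le _ _).trans ?_
    rw [norm_one]
    linarith

theorem one_add_ne {a ε : ℂ} {C : ℝ} (h : ‖a‖ ≤ C) (hε : ‖ε‖ * C ≤ 1 / 2) : 1 + ε * a ≠ 0 := by
  have := (one_add_mem h hε).1
  intro h0
  rw [h0, norm_zero] at this
  linarith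

theorem norm_zpow_le {z : ℂ} (h1 : 1 / 2 ≤ ‖z‖) (h2 : ‖z‖ ≤ 2) (k : ℤ) :
    ‖z ^ k‖ ≤ 2 ^ k.natAbs := by
  rcases le_total 0 k with hk | hk
  · obtain ⟨n, rfl⟩ := Int.eq_ofNat_of_zero_le hk
    rw [zpow_natCast, norm_pow, Int.natAbs_natCast]
    exact pow_le_pow_left₀ (norm_nonneg _) h2 n
  · obtain ⟨n, hn⟩ := Int.eq_ofNat_of_zero_le (Int.neg_nonneg_of_nonpos hk)
    have hk' : k = -(n : ℤ) := by omega
    rw [hk', zpow_neg, zpow_natCast, norm_inv, norm_pow, Int.natAbs_neg, Int.natAbs_natCast,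
      ← inv_pow]
    refine pow_le_pow_left₀ (inv_nonneg.2 (norm_nonneg _)) ?_ n
    calc ‖z‖⁻¹ ≤ (1 / 2 : ℝ)⁻¹ := inv_anti₀ (by norm_num) h1
      _ = 2 := by norm_num

theorem norm_lz_le {L : List (ℂ × ℤ)} {C : ℝ} (h : ∀ a ∈ L, ‖a.1‖ ≤ C) {ε : ℂ}
    (hε : ‖ε‖ * C ≤ 1 / 2) : ‖lz L ε‖ ≤ 2 ^ tz L := by
  induction L with
  | nil => simp [lz, tz]
  | cons a L ih =>
    rw [lz_cons, norm_mul, tz_cons, pow_add]
    obtain ⟨h1, h2⟩ := one_add_mem (h a List.mem_cons_self) hε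
    exact mul_le_mul (norm_zpow_le h1 h2 _) (ih fun b hb => h b (List.mem_cons_of_mem _ hb))
      (norm_nonneg _) (by positivity)

theorem hasDerivAt_lz {L : List (ℂ × ℤ)} {C : ℝ} (h : ∀ a ∈ L, ‖a.1‖ ≤ C) {ε : ℂ}
    (hε : ‖ε‖ * C ≤ 1 / 2) : HasDerivAt (lz L) (dlz L ε) ε := by
  induction L with
  | nil => exact hasDerivAt_const _ _
  | cons a L ih =>
    have h1 : HasDerivAt (fun ε : ℂ => 1 + ε * a.1) a.1 ε := by
      simpa using ((hasDerivAt_id ε).mul_const a.1).const_add 1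
    have h0 := one_add_ne (h a List.mem_cons_self) hε
    have h2 : HasDerivAt (fun ε : ℂ => (1 + ε * a.1) ^ a.2)
        ((a.2 : ℂ) * (1 + ε * a.1) ^ (a.2 - 1) * a.1) ε :=
      HasDerivAt.comp (h := fun ε : ℂ => 1 + ε * a.1) (h₂ := fun z : ℂ => z ^ a.2) ε
        (hasDerivAt_zpow a.2 (1 + ε * a.1) (Or.inl h0)) h1
    have h3 := h2.mul (ih fun b hb => h b (List.mem_cons_of_mem _ hb))
    exact h3.congr_of_eventuallyEq (Filter.Eventually.of_forall fun e => lz_cons a L e)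

theorem norm_dlz_le {L : List (ℂ × ℤ)} {C : ℝ} (hC : 0 ≤ C) (h : ∀ a ∈ L, ‖a.1‖ ≤ C) {ε : ℂ}
    (hε : ‖ε‖ * C ≤ 1 / 2) : ‖dlz L ε‖ ≤ tz L * (2 * C * 2 ^ tz L) := by
  induction L with
  | nil => simp [dlz, tz]
  | cons a L ih =>
    have h1 := h a List.mem_cons_self
    have h2 := ih fun b hb => h b (List.mem_cons_of_mem _ hb)
    have h3 := norm_lz_le (fun b hb => h b (List.mem_cons_of_mem _ hb)) (L := L) hε
    obtain ⟨m1, m2⟩ := one_add_mem h1 hε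
    have p1 := norm_zpow_le m1 m2 a.2
    show ‖(a.2 : ℂ) * (1 + ε * a.1) ^ (a.2 - 1) * a.1 * lz L ε + (1 + ε * a.1) ^ a.2 * dlz L ε‖ ≤ _
    refine (norm_add_le _ _).trans ?_
    have e0 : (1 + ε * a.1) ^ (a.2 - 1) = (1 + ε * a.1) ^ a.2 * (1 + ε * a.1)⁻¹ := by
      rw [zpow_sub_one₀ (one_add_ne h1 hε)]
    have i1 : ‖(1 + ε * a.1)⁻¹‖ ≤ 2 := by
      rw [norm_inv]
      calc ‖1 + ε * a.1‖⁻¹ ≤ (1 / 2 : ℝ)⁻¹ := inv_anti₀ (by norm_num) m1
        _ = 2 := by norm_num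
    have hk : ‖(a.2 : ℂ)‖ = a.2.natAbs := by
      rw [Complex.norm_intCast, ← Int.cast_abs, Int.abs_eq_natAbs, Int.cast_natCast]
    have t1 : ‖(a.2 : ℂ) * (1 + ε * a.1) ^ (a.2 - 1) * a.1 * lz L ε‖ ≤
        a.2.natAbs * (2 * C * 2 ^ tz (a :: L)) := by
      rw [norm_mul, norm_mul, norm_mul, hk, e0, norm_mul, tz_cons, pow_add]
      calc (a.2.natAbs : ℝ) * (‖(1 + ε * a.1) ^ a.2‖ * ‖(1 + ε * a.1)⁻¹‖) * ‖a.1‖ * ‖lz L ε‖
          ≤ (a.2.natAbs : ℝ) * (2 ^ a.2.natAbs * 2) * C * 2 ^ tz L := by gcongr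
        _ = _ := by ring
    have t2 : ‖(1 + ε * a.1) ^ a.2 * dlz L ε‖ ≤ tz L * (2 * C * 2 ^ tz (a :: L)) := by
      rw [norm_mul, tz_cons, pow_add]
      calc ‖(1 + ε * a.1) ^ a.2‖ * ‖dlz L ε‖ ≤ 2 ^ a.2.natAbs * (tz L * (2 * C * 2 ^ tz L)) := by
            gcongr
        _ = _ := by ring
    rw [tz_cons] at t1 t2 ⊢
    push_cast at t1 t2 ⊢
    linarith

theorem norm_wz_le {L : List (ℂ × ℤ)} {C : ℝ} (h : ∀ a ∈ L, ‖a.1‖ ≤ C) : ‖wz L‖ ≤ tz L * C := by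
  induction L with
  | nil => simp [wz, tz]
  | cons a L ih =>
    have h1 := h a List.mem_cons_self
    have h2 := ih fun b hb => h b (List.mem_cons_of_mem _ hb)
    rw [wz_cons, tz_cons]
    refine (norm_add_le _ _).trans ?_
    have hk : ‖(a.2 : ℂ)‖ = a.2.natAbs := by
      rw [Complex.norm_intCast, ← Int.cast_abs, Int.abs_eq_natAbs, Int.cast_natCast]
    rw [norm_mul, hk]
    have h3 : (a.2.natAbs : ℝ) * ‖a.1‖ ≤ a.2.natAbs * C :=
      mul_le_mul_of_nonneg_left h1 (Nat.cast_nonneg _)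
    push_cast
    linarith

/-- **derivative of the abstract functional** -/
theorem hasDerivAt_Fz {Ω : Type*} [MeasurableSpace Ω] {μ : Measure Ω} {w O : Ω → ℂ}
    (hI : WI μ w O) {L : Ω → List (ℂ × ℤ)} {N : ℕ} {C : ℝ} (hC : 0 ≤ C)
    (hN : ∀ ω, tz (L ω) ≤ N) (hL : ∀ ω, ∀ a ∈ L ω, ‖a.1‖ ≤ C)
    (hm : ∀ ε : ℂ, AEStronglyMeasurable (fun ω => lz (L ω) ε) μ)
    (hs : AEStronglyMeasurable (fun ω => wz (L ω)) μ) :
    HasDerivAt (fun ε => F μ w fun ω => O ω * lz (L ω) ε) (F μ w fun ω => O ω * wz (L ω)) 0 := by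
  unfold WI at hI
  have hr : (0 : ℝ) < 1 / (2 * (C + 1)) := by positivity
  have hball : ∀ ε ∈ Metric.ball (0 : ℂ) (1 / (2 * (C + 1))), ‖ε‖ * C ≤ 1 / 2 := by
    intro ε hε
    rw [Metric.mem_ball, dist_zero_right] at hε
    have h1 : ‖ε‖ * C ≤ 1 / (2 * (C + 1)) * (C + 1) :=
      mul_le_mul hε.le (by linarith) hC hr.le
    have h2 : 1 / (2 * (C + 1)) * (C + 1) = 1 / 2 := by
      field_simp
    linarith
  have key := hasDerivAt_integral_of_dominated_loc_of_deriv_le (μ := μ) (𝕜 := ℂ)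
    (F := fun ε ω => (w ω * O ω) * lz (L ω) ε)
    (F' := fun ε ω => (w ω * O ω) * dlz (L ω) ε)
    (x₀ := 0) (s := Metric.ball 0 (1 / (2 * (C + 1))))
    (bound := fun ω => ‖w ω * O ω‖ * (N * (2 * C * 2 ^ N)))
    (Metric.ball_mem_nhds _ hr) (Filter.Eventually.of_forall fun ε => hI.1.mul (hm ε))
    (by simpa only [lz_zero, mul_one] using hI)
    (by
      simp only [dlz_zero]
      exact hI.1.mul hs) ?_ (hI.norm.mul_const _) ?_
  · have h2 := key.2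
    refine (h2.congr_deriv ?_).congr_of_eventuallyEq (Filter.Eventually.of_forall fun ε => ?_)
    · unfold F
      refine integral_congr_ae (Filter.Eventually.of_forall fun ω => ?_)
      simp only [dlz_zero]
      ring
    · unfold F
      refine integral_congr_ae (Filter.Eventually.of_forall fun ω => ?_)
      simp only []
      ring
  · refine Filter.Eventually.of_forall fun ω ε hε => ?_
    rw [norm_mul]
    refine mul_le_mul_of_nonneg_left ?_ (norm_nonneg _)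
    refine (norm_dlz_le hC (hL ω) (hball ε hε)).trans ?_
    have h1 : ((tz (L ω) : ℕ) : ℝ) ≤ N := by exact_mod_cast hN ω
    have h2 : (2 : ℝ) ^ tz (L ω) ≤ 2 ^ N := pow_le_pow_right₀ (by norm_num) (hN ω)
    exact mul_le_mul h1 (mul_le_mul_of_nonneg_left h2 (by positivity)) (by positivity)
      (by positivity)
  · refine Filter.Eventually.of_forall fun ω ε hε => ?_
    exact (hasDerivAt_lz (hL ω) (hball ε hε)).const_mul _

end PHK

end
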