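import Pool.Agent.PHK.FDef6
import Pool.Agent.PHK.LpZ
import Pool.Agent.PLX.PB.TRsA
import Pool.Agent.PLX.PB.ClsCrv

/-!
# (P): constituents, multiplicative and additive insertions

* `csA6`: the constituents of a configuration (objects and quanta on the curves) with multiplicities;
  `tz_cst6_le`, `tz_csA6_le`;
* `obF6`, `Fa6`: the multiplicative insertion of `g` (a hole carries `g⁻¹`); `wK6_mul`, `gK_mulG`,
  **`trm6_mul`, `trA6_mul`, `FF6_mul`, `FA6_mul`**: it is absorbed in the one body functions;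
* `obT6`, `stO6`, **`stA6`**: the additive statistic (a hole carries `- D`); explicit forms, `csA6` form
  (`stA6_eq`), linearity, `Fa6_tw`, bounds.
-/

set_option autoImplicit false
set_option linter.unusedSectionVars false

noncomputable section

open Complex MeasureTheory Finset
open scoped ENNReal
open PLX (Fil)

namespace PHK

open NUO NUP1 NUP1S NUP1S.Ab NUP1S.AbC NUGC NUGC.PLX NUCR
open PBF.PLX (gK Ins Crs Zm quF stQ pA_crv)


variable {r : ℕ}

/-! ### objects -/

/-- the multiplicative factor of an object -/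
def obF6 (g : Bool → Option O3 → ℂ → ℂ) (P : Par6) (x : Xo) : ℂ :=
  ((cst6 P x).map fun c => g c.1.1.1 c.1.1.2 c.1.2 ^ c.2).prod

/-- the additive statistic of an object -/
def obT6 (D : Bool → Option O3 → ℂ → ℂ) (P : Par6) (x : Xo) : ℂ :=
  ((cst6 P x).map fun c => (c.2 : ℂ) * D c.1.1.1 c.1.1.2 c.1.2).sum

theorem obK6_eq (Z : Bool → Option O3 → ℂ → ℂ) (P : Par6) (x : Xo) :
    obK6 Z P x = cC6 (k6 x) * obF6 Z P x := rfl

theorem tz_cst6_le (P : Par6) (x : Xo) : tz (cst6 P x) ≤ 4 := by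
  rcases h : k6 x with _ | _ | _ | _ | _ | _
  · simp [cst6_L P h, tz]
  · simp [cst6_T P h, tz]
  · simp [cst6_E P h, tz]
  · simp [cst6_F P h, tz]
  · simp [cst6_H1 P h, tz]
  · simp [cst6_H2 P h, tz]

section forms

variable (D : Bool → Option O3 → ℂ → ℂ) (P : Par6) {x : Xo}

theorem obT6_L (h : k6 x = .L) : obT6 D P x = D (sp x) (some .L) (posL P.jL (ht x)) := by
  simp [obT6, cst6_L P h]

theorem obT6_T (h : k6 x = .T) : obT6 D P x = D (sp x) (some .T) (posT (ht x)) := by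
  simp [obT6, cst6_T P h]

theorem obT6_E (h : k6 x = .E) : obT6 D P x = D (sp x) (some .S) (posS P.e (ht x)) +
    2 * D (!sp x) none (posB P.e (ht x)) := by
  simp [obT6, cst6_E P h]

theorem obT6_F (h : k6 x = .F) : obT6 D P x = D (sp x) (some .S) (posS P.e (ht x)) +
    (2 * D (!sp x) none (posB P.e (ht x)) - D (sp x) none (posB P.e (ht x))) := by
  simp [obT6, cst6_F P h]
  ring

theorem obT6_H1 (h : k6 x = .H1) : obT6 D P x = -D (sp x) none (posL P.j1 (ht x)) := by
  simp [obT6, cst6_H1 P h]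

theorem obT6_H2 (h : k6 x = .H2) : obT6 D P x = -D (sp x) none (posL P.j2 (ht x)) := by
  simp [obT6, cst6_H2 P h]

end forms

theorem obF6_mul (f g : Bool → Option O3 → ℂ → ℂ) (P : Par6) (x : Xo) :
    obF6 (Zm f g) P x = obF6 f P x * obF6 g P x := by
  unfold obF6 Zm
  rw [← List.prod_map_mul]
  congr 1
  exact List.map_congr_left fun c _ => mul_zpow _ _ _

theorem obK6_mul (Z g : Bool → Option O3 → ℂ → ℂ) (P : Par6) (x : Xo) :
    obK6 (Zm Z g) P x = obK6 Z P x * obF6 g P x := by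
  rw [obK6_eq, obF6_mul, obK6_eq, mul_assoc]

theorem wK6_mul (Z g : Bool → Option O3 → ℂ → ℂ) (P : Par6) (O : Fin r → Xo) :
    wK6 (Zm Z g) P O = wK6 Z P O * ∏ i, obF6 g P (O i) := by
  unfold wK6
  simp_rw [obK6_mul]
  rw [Finset.prod_mul_distrib]
  ring

theorem map_sum_add {α : Type*} (L : List α) (f g : α → ℂ) :
    (L.map fun a => f a + g a).sum = (L.map f).sum + (L.map g).sum := by
  induction L with
  | nil => simp
  | cons a L ih =>
    rw [List.map_cons, List.sum_cons, ih, List.map_cons, List.sum_cons, List.map_cons,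
      List.sum_cons]
    ring

theorem map_sum_mul {α : Type*} (L : List α) (c : ℂ) (f : α → ℂ) :
    (L.map fun a => c * f a).sum = c * (L.map f).sum := by
  induction L with
  | nil => simp
  | cons a L ih =>
    rw [List.map_cons, List.sum_cons, ih, List.map_cons, List.sum_cons]
    ring

theorem obT6_add (D D' : Bool → Option O3 → ℂ → ℂ) (P : Par6) (x : Xo) :
    obT6 (fun s k z => D s k z + D' s k z) P x = obT6 D P x + obT6 D' P x := by
  unfold obT6
  rw [← map_sum_add]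
  congr 1
  exact List.map_congr_left fun c _ => mul_add _ _ _

theorem obT6_smul (a : ℂ) (D : Bool → Option O3 → ℂ → ℂ) (P : Par6) (x : Xo) :
    obT6 (fun s k z => a * D s k z) P x = a * obT6 D P x := by
  unfold obT6
  rw [← map_sum_mul]
  congr 1
  exact List.map_congr_left fun c _ => by ring

theorem obF6_exp (D : Bool → Option O3 → ℂ → ℂ) (s : ℂ) (P : Par6) (x : Xo) :
    obF6 (fun b k u => Complex.exp (s * D b k u)) P x = Complex.exp (s * obT6 D P x) := by
  have key : ∀ L : List Cst6, (L.map fun c => Complex.exp (s * D c.1.1.1 c.1.1.2 c.1.2) ^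
      c.2).prod = Complex.exp (s * (L.map fun c => (c.2 : ℂ) * D c.1.1.1 c.1.1.2 c.1.2).sum) := by
    intro L
    induction L with
    | nil => simp
    | cons c L ih =>
      rw [List.map_cons, List.prod_cons, ih, List.map_cons, List.sum_cons, mul_add,
        Complex.exp_add, ← Complex.exp_int_mul]
      congr 2
      ring
  exact key _

theorem norm_wsum_le {α : Type*} (L : List (α × ℤ)) (f : α → ℂ) {C : ℝ}
    (h : ∀ c ∈ L, ‖f c.1‖ ≤ C) : ‖(L.map fun c => (c.2 : ℂ) * f c.1).sum‖ ≤ tz L * C := by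
  induction L with
  | nil => simp [tz]
  | cons c L ih =>
    rw [List.map_cons, List.sum_cons, tz_cons]
    refine (norm_add_le _ _).trans ?_
    have h1 := h c List.mem_cons_self
    have h2 := ih fun b hb => h b (List.mem_cons_of_mem _ hb)
    have h3 : ‖((c.2 : ℤ) : ℂ)‖ = (c.2.natAbs : ℝ) := by
      rw [Complex.norm_intCast, Nat.cast_natAbs, Int.cast_abs]
    rw [norm_mul, h3]
    push_cast
    nlinarith [mul_le_mul_of_nonneg_left h1 (Nat.cast_nonneg (α := ℝ) c.2.natAbs)]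

theorem norm_obT6_le {D : Bool → Option O3 → ℂ → ℂ} {P : Par6} {x : Xo} {C : ℝ} (hC : 0 ≤ C)
    (h : ∀ c ∈ cst6 P x, ‖D c.1.1.1 c.1.1.2 c.1.2‖ ≤ C) : ‖obT6 D P x‖ ≤ 4 * C := by
  refine (norm_wsum_le (cst6 P x) (fun c => D c.1.1 c.1.2 c.2) h).trans ?_
  have h1 : (tz (cst6 P x) : ℝ) ≤ 4 := by exact_mod_cast tz_cst6_le P x
  exact mul_le_mul_of_nonneg_right h1 hC

/-- the statistic of the objects -/
def stO6 (D : Bool → Option O3 → ℂ → ℂ) (P : Par6) (O : Fin r → Xo) : ℂ := ∑ i, obT6 D P (O i)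

theorem stO6_add (D D' : Bool → Option O3 → ℂ → ℂ) (P : Par6) (O : Fin r → Xo) :
    stO6 (fun s k z => D s k z + D' s k z) P O = stO6 D P O + stO6 D' P O := by
  unfold stO6
  simp only [obT6_add, Finset.sum_add_distrib]

theorem stO6_smul (a : ℂ) (D : Bool → Option O3 → ℂ → ℂ) (P : Par6) (O : Fin r → Xo) :
    stO6 (fun s k z => a * D s k z) P O = a * stO6 D P O := by
  unfold stO6
  simp only [obT6_smul, Finset.mul_sum]

theorem norm_stO6_le {D : Bool → Option O3 → ℂ → ℂ} {P : Par6} {O : Fin r → Xo} {C : ℝ}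
    (hC : 0 ≤ C) (h : ∀ i, ∀ c ∈ cst6 P (O i), ‖D c.1.1.1 c.1.1.2 c.1.2‖ ≤ C) :
    ‖stO6 D P O‖ ≤ 4 * r * C := by
  unfold stO6
  refine (norm_sum_le _ _).trans ?_
  refine (Finset.sum_le_sum fun i _ => norm_obT6_le hC (h i)).trans (le_of_eq ?_)
  rw [Finset.sum_const, Finset.card_univ, Fintype.card_fin, nsmul_eq_mul]
  ring

/-! ### quanta -/

section

variable [Fil]

theorem hh_G (G : Bool → ℂ → ℂ) (s : Bool) (η η' : ℝ → ℝ) (t : ℝ) :
    hh p0 G (crvC s NUP1.l (dA η) (dA η')) t =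
      (2 * Real.pi : ℂ)⁻¹ * (1 + dA η' t) * G s (NUO.pA η t) := by
  show (2 * Real.pi : ℂ)⁻¹ * (1 + dA η' t) * Wt p0 G s (vl NUP1.l t + I * dA η t) = _
  rw [Wt_p0, pA_crv]

/-- factors of the one body functions of the quanta -/
theorem gK_mulG (G : Bool → ℂ → ℂ) (g : Bool → Option O3 → ℂ → ℂ) (η η' : ℝ → ℝ) {a b : ℕ}
    (x : (Fin a → ℝ) × (Fin b → ℝ)) :
    gK (fun s z => G s z * g s none z) η η' a b x = gK G η η' a b x * quF g η x := by
  unfold PBF.PLX.gK Fc PBF.PLX.quF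
  rw [Fintype.prod_sum_type, Fintype.prod_sum_type]
  have e : ∀ (s : Bool) (η η' : ℝ → ℝ) (t : ℝ),
      hh p0 (fun s z => G s z * g s none z) (crvC s NUP1.l (dA η) (dA η')) t =
      hh p0 G (crvC s NUP1.l (dA η) (dA η')) t * g s none (NUO.pA η t) := by
    intro s η η' t
    rw [hh_G, hh_G]
    ring
  simp only [cCt, Sum.elim_inl, Sum.elim_inr, e]
  rw [Finset.prod_mul_distrib, Finset.prod_mul_distrib]
  ring

theorem gK6_mul (Z g : Bool → Option O3 → ℂ → ℂ) (P : Par6) (O : Fin r → Xo) (η η' : ℝ → ℝ)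
    {a b : ℕ} (x : (Fin a → ℝ) × (Fin b → ℝ)) :
    gK (gF6 (Zm Z g) P O) η η' a b x = gK (gF6 Z P O) η η' a b x * quF g η x := by
  rw [← gK_mulG]
  congr 1
  funext s z
  show Z s none z * g s none z * potO6 P O s z = Z s none z * potO6 P O s z * g s none z
  ring

/-- **the multiplicative insertion** -/
def Fa6 (g : Bool → Option O3 → ℂ → ℂ) (P : Par6) (η : Crs) : Ins := fun r O _ _ x =>
  (∏ i, obF6 g P (O i)) * quF g (η r O) x

/-- **the total statistic** -/
def stA6 (D : Bool → Option O3 → ℂ → ℂ) (P : Par6) (η : Crs) : Ins :=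
  fun r O a b x => stO6 D P O + stQ D (η r O) a b x

theorem trm6_mul (Z g : Bool → Option O3 → ℂ → ℂ) (P : Par6) (n n' : ℕ) (η η' : Crs) (Ψ : Ins)
    (r : ℕ) (O : Fin r → Xo) :
    trm6 (Zm Z g) P n n' η η' Ψ r O = trm6 Z P n n' η η' (fun r O a b x => Fa6 g P η r O a b x *
      Ψ r O a b x) r O := by
  unfold trm6
  split_ifs
  · rw [wK6_mul]
    simp only [gK6_mul]
    unfold Fa6
    have e : ∀ x, gK (gF6 Z P O) (η r O) (η' r O) (nA6 n O true) (nA6 n' O false) x *
        ((∏ i, obF6 g P (O i)) * quF g (η r O) x * Ψ r O (nA6 n O true) (nA6 n' O false) x) =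
        (∏ i, obF6 g P (O i)) *
        (gK (gF6 Z P O) (η r O) (η' r O) (nA6 n O true) (nA6 n' O false) x *
          quF g (η r O) x * Ψ r O (nA6 n O true) (nA6 n' O false) x) := fun x => by ring
    simp only [e]
    rw [integral_const_mul]
    ring
  · rfl

/-- **Multiplicative insertions are absorbed in the one body functions.** -/
theorem FF6_mul (Z g : Bool → Option O3 → ℂ → ℂ) (P : Par6) (n n' : ℕ) (η η' : Crs) (Ψ : Ins) :
    FF6 (Zm Z g) P n n' η η' Ψ = FF6 Z P n n' η η' (fun r O a b x => Fa6 g P η r O a b x *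
      Ψ r O a b x) := by
  unfold FF6
  simp only [trm6_mul]

theorem trA6_mul (Z g : Bool → Option O3 → ℂ → ℂ) (P : Par6) (n n' : ℕ) (η η' : Crs) (Ψ : Ins)
    (r : ℕ) (O : Fin r → Xo) :
    trA6 (Zm Z g) P n n' η η' Ψ r O = trA6 Z P n n' η η' (fun r O a b x => Fa6 g P η r O a b x *
      Ψ r O a b x) r O := by
  unfold trA6
  split_ifs
  · rw [wK6_mul]
    simp only [gK6_mul]
    unfold Fa6
    have e : ∀ x, ‖gK (gF6 Z P O) (η r O) (η' r O) (nA6 n O true) (nA6 n' O false) x‖ₑ *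
        ‖(∏ i, obF6 g P (O i)) * quF g (η r O) x *
          Ψ r O (nA6 n O true) (nA6 n' O false) x‖ₑ =
        ‖∏ i, obF6 g P (O i)‖ₑ *
        (‖gK (gF6 Z P O) (η r O) (η' r O) (nA6 n O true) (nA6 n' O false) x *
          quF g (η r O) x‖ₑ * ‖Ψ r O (nA6 n O true) (nA6 n' O false) x‖ₑ) := fun x => by
      simp only [enorm_mul]
      ring
    simp only [e]
    rw [lintegral_const_mul' _ _ enorm_ne_top, enorm_mul]
    ring
  · rfl

theorem FA6_mul (Z g : Bool → Option O3 → ℂ → ℂ) (P : Par6) (n n' : ℕ) (η η' : Crs) (Ψ : Ins) :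
    FA6 (Zm Z g) P n n' η η' Ψ = FA6 Z P n n' η η' (fun r O a b x => Fa6 g P η r O a b x *
      Ψ r O a b x) := by
  unfold FA6
  simp only [trA6_mul]

/-! ### the list of all constituents -/

variable {a b : ℕ}

/-- the constituents of a configuration, quanta on the curves included -/
def csA6 (P : Par6) (η : ℝ → ℝ) (O : Fin r → Xo) (x : (Fin a → ℝ) × (Fin b → ℝ)) : List Cst6 :=
  (List.ofFn fun i => cst6 P (O i)).flatten ++
    ((List.ofFn fun i => ((((true, none), NUO.pA (Fil.cv true η) (x.1 i)), 1) : Cst6)) ++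
      List.ofFn fun j => ((((false, none), NUO.pA (Fil.cv false η) (x.2 j)), 1) : Cst6))

theorem mem_csA6 {P : Par6} {η : ℝ → ℝ} {O : Fin r → Xo} {x : (Fin a → ℝ) × (Fin b → ℝ)}
    {c : Cst6} : c ∈ csA6 P η O x ↔ (∃ i, c ∈ cst6 P (O i)) ∨
      ((∃ i, (((true, none), NUO.pA (Fil.cv true η) (x.1 i)), 1) = c) ∨
        ∃ j, (((false, none), NUO.pA (Fil.cv false η) (x.2 j)), 1) = c) := by
  unfold csA6
  simp only [List.mem_append, List.mem_flatten, List.mem_ofFn]
  constructor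
  · rintro (⟨L, ⟨i, rfl⟩, h⟩ | h | h)
    · exact Or.inl ⟨i, h⟩
    · exact Or.inr (Or.inl h)
    · exact Or.inr (Or.inr h)
  · rintro (⟨i, h⟩ | h | h)
    · exact Or.inl ⟨_, ⟨i, rfl⟩, h⟩
    · exact Or.inr (Or.inl h)
    · exact Or.inr (Or.inr h)

theorem tz_flatten {α : Type*} (L : List (List (α × ℤ))) : tz L.flatten = (L.map tz).sum := by
  induction L with
  | nil => rfl
  | cons A L ih => rw [List.flatten_cons, tz_append, ih, List.map_cons, List.sum_cons]

theorem tz_csA6_le (P : Par6) (η : ℝ → ℝ) (O : Fin r → Xo) (x : (Fin a → ℝ) × (Fin b → ℝ)) :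
    tz (csA6 P η O x) ≤ 4 * r + (a + b) := by
  unfold csA6
  rw [tz_append, tz_append, tz_flatten, List.map_ofFn, List.sum_ofFn]
  have h1 : ∀ {m : ℕ} (f : Fin m → (Bool × Option O3) × ℂ),
      tz (List.ofFn fun i => (f i, (1 : ℤ))) = m := by
    intro m f
    unfold tz
    rw [List.map_ofFn, List.sum_ofFn]
    simp
  refine Nat.add_le_add ?_ (Nat.add_le_add (h1 _).le (h1 _).le)
  calc _ ≤ ∑ _i : Fin r, 4 := Finset.sum_le_sum fun i _ => tz_cst6_le _ _
    _ = _ := by
      rw [Finset.sum_const, Finset.card_univ, Fintype.card_fin, smul_eq_mul, mul_comm]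

/-- **the product over the constituents** -/
theorem Fa6_eq (g : Bool → Option O3 → ℂ → ℂ) (P : Par6) (η : Crs) (O : Fin r → Xo)
    (x : (Fin a → ℝ) × (Fin b → ℝ)) :
    Fa6 g P η r O a b x =
      ((csA6 P (η r O) O x).map fun c => g c.1.1.1 c.1.1.2 c.1.2 ^ c.2).prod := by
  unfold Fa6 csA6 PBF.PLX.quF
  rw [List.map_append, List.prod_append, List.map_append, List.prod_append, List.map_ofFn,
    List.map_ofFn, List.prod_ofFn, List.prod_ofFn, List.map_flatten, List.prod_flatten,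
    List.map_map, List.map_ofFn, List.prod_ofFn]
  simp only [Function.comp, zpow_one]
  rfl

/-- **the sum over the constituents** -/
theorem stA6_eq (D : Bool → Option O3 → ℂ → ℂ) (P : Par6) (η : Crs) (O : Fin r → Xo)
    (x : (Fin a → ℝ) × (Fin b → ℝ)) :
    stA6 D P η r O a b x =
      ((csA6 P (η r O) O x).map fun c => (c.2 : ℂ) * D c.1.1.1 c.1.1.2 c.1.2).sum := by
  unfold stA6 csA6 stO6 PBF.PLX.stQ
  rw [List.map_append, List.sum_append, List.map_append, List.sum_append, List.map_ofFn,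
    List.map_ofFn, List.sum_ofFn, List.sum_ofFn, List.map_flatten, List.sum_flatten,
    List.map_map, List.map_ofFn, List.sum_ofFn]
  simp only [Function.comp, Int.cast_one, one_mul]
  rfl

/-- value of a one body function, with the multiplicity -/
def apz (s : Bool → Option O3 → ℂ → ℂ) (c : Cst6) : ℂ × ℤ := (s c.1.1.1 c.1.1.2 c.1.2, c.2)

theorem stA6_wz (s : Bool → Option O3 → ℂ → ℂ) (P : Par6) (η : Crs) (O : Fin r → Xo)
    (x : (Fin a → ℝ) × (Fin b → ℝ)) :
    stA6 s P η r O a b x = wz ((csA6 P (η r O) O x).map (apz s)) := by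
  rw [stA6_eq]
  unfold wz
  rw [List.map_map]
  rfl

theorem Fa6_tw (s : Bool → Option O3 → ℂ → ℂ) (ε : ℂ) (P : Par6) (η : Crs) (O : Fin r → Xo)
    (x : (Fin a → ℝ) × (Fin b → ℝ)) :
    Fa6 (fun c k z => 1 + ε * s c k z) P η r O a b x =
      lz ((csA6 P (η r O) O x).map (apz s)) ε := by
  rw [Fa6_eq]
  unfold lz
  rw [List.map_map]
  rfl

theorem tz_apz (s : Bool → Option O3 → ℂ → ℂ) (L : List Cst6) : tz (L.map (apz s)) = tz L := by
  unfold tz
  rw [List.map_map]
  rfl

end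

end PHK

end
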