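import Pool.Agent.PHK.OneAct6
import Pool.Agent.PLX.PotH.Crv
import Pool.Agent.PLX.NUGC.CurEx

/-!
# Particle-hole form: the currents against the price of a hole

A Lipschitz current which vanishes outside the bulk `|t| ≤ Tb (log m)` is at most
`κ * (m P t) + Kh`, `Kh` depending only on `κ` and on the Lipschitz constant (`cur_le`): at distance
`d` from the end of the bulk the current is at most `Λ (d + 1)`, `m P` at least `7 / 10 exp (8 d / 3)`.

* `cur_le6`: currents `h` with slope `≤ 1` (`2 π h`);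
* `crvP_cur_le6`: the current `m P η` of every admissible curve `CrvP`;
* `hC_cur_le6`: the current `hC e1 J m` (tent and plateau), large `m`.
-/

set_option autoImplicit false

noncomputable section

open Complex MeasureTheory Set

namespace PHK

open NUP1 NUO NUGC.PLX

/-- **every Lipschitz current supported in the bulk is below any multiple of `m P`** -/
theorem cur_le {κ Λ : ℝ} (hκ : 0 < κ) (hΛ : 0 ≤ Λ) : ∃ Kh : ℝ, 0 ≤ Kh ∧ ∀ m : ℕ, 1 ≤ m →
    ∀ h : ℝ → ℝ, (∀ t t', |h t - h t'| ≤ Λ * |t - t'|) →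
      (∀ t, Tb (Real.log m) < |t| → h t ≤ 0) → ∀ t, h t ≤ κ * (m * NUMF.P t) + Kh := by
  refine ⟨Λ + Λ ^ 2 / (8 * κ), by positivity, fun m hm h hl h0 t => ?_⟩
  have hm0 : (0 : ℝ) < m := by exact_mod_cast hm
  have hP := P_nonneg6 t
  have hK : 0 ≤ Λ + Λ ^ 2 / (8 * κ) := by positivity
  have hR : 0 ≤ κ * (m * NUMF.P t) := by positivity
  rcases lt_or_ge (Tb (Real.log m)) |t| with ht | ht
  · linarith [h0 t ht]
  · have hT0 : 0 ≤ Tb (Real.log m) := by
      unfold Tb
      have := Real.log_nonneg (show (1 : ℝ) ≤ m by exact_mod_cast hm)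
      linarith
    obtain ⟨d, hd⟩ : ∃ d, d = Tb (Real.log m) - |t| := ⟨_, rfl⟩
    have hd0 : 0 ≤ d := by linarith
    -- the current
    have h1 : h t ≤ Λ * (d + 1) := by
      rcases le_total 0 t with hs | hs
      · rw [abs_of_nonneg hs] at hd ht
        have a1 := hl t (Tb (Real.log m) + 1)
        have a2 := h0 (Tb (Real.log m) + 1) (by rw [abs_of_nonneg (by linarith)]; linarith)
        rw [abs_of_nonpos (show t - (Tb (Real.log m) + 1) ≤ 0 by linarith)] at a1
        have a3 := (le_abs_self _).trans a1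
        have e : -(t - (Tb (Real.log m) + 1)) = d + 1 := by linarith
        rw [e] at a3
        linarith
      · rw [abs_of_nonpos hs] at hd ht
        have a1 := hl t (-(Tb (Real.log m) + 1))
        have a2 := h0 (-(Tb (Real.log m) + 1)) (by
          rw [abs_neg, abs_of_nonneg (by linarith)]; linarith)
        rw [abs_of_nonneg (show 0 ≤ t - -(Tb (Real.log m) + 1) by linarith)] at a1
        have a3 := (le_abs_self _).trans a1
        have e : t - -(Tb (Real.log m) + 1) = d + 1 := by linarith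
        rw [e] at a3
        linarith
    -- the density
    have h2 : 7 / 10 * Real.exp (8 / 3 * d) ≤ m * NUMF.P t := by
      have b1 := seven_tenths_le_P t
      have b2 : Real.exp (8 / 3 * d) = m * Real.exp (-(8 / 3) * |t|) := by
        rw [hd]
        unfold Tb
        rw [show 8 / 3 * (3 / 8 * Real.log m - |t|) = Real.log m + -(8 / 3) * |t| by ring,
          Real.exp_add, Real.exp_log hm0]
      rw [b2]
      calc 7 / 10 * (m * Real.exp (-(8 / 3) * |t|)) = m * (7 / 10 * Real.exp (-(8 / 3) * |t|)) := by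
            ring
        _ ≤ _ := mul_le_mul_of_nonneg_left b1 hm0.le
    have h3 : 2 * d ^ 2 ≤ 7 / 10 * Real.exp (8 / 3 * d) := by
      have c1 := Real.quadratic_le_exp_of_nonneg (show 0 ≤ 8 / 3 * d by positivity)
      nlinarith
    have h4 : κ * (2 * d ^ 2) ≤ κ * (m * NUMF.P t) :=
      mul_le_mul_of_nonneg_left (h3.trans h2) hκ.le
    have h5 : Λ * d ≤ κ * (2 * d ^ 2) + Λ ^ 2 / (8 * κ) := by
      have e : κ * (2 * d ^ 2) + Λ ^ 2 / (8 * κ) - Λ * d = 2 * κ * (d - Λ / (4 * κ)) ^ 2 := by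
        field_simp
        ring
      have : 0 ≤ 2 * κ * (d - Λ / (4 * κ)) ^ 2 := by positivity
      linarith
    calc h t ≤ Λ * (d + 1) := h1
      _ = Λ * d + Λ := by ring
      _ ≤ _ := by linarith

/-- **currents with slope at most one** -/
theorem cur_le6 : ∃ Kh : ℝ, 0 ≤ Kh ∧ ∀ m : ℕ, 1 ≤ m →
    ∀ h : ℝ → ℝ, (∀ t t', |h t - h t'| ≤ |t - t'|) → (∀ t, Tb (Real.log m) < |t| → h t ≤ 0) →
      ∀ t, 2 * Real.pi * h t ≤ pH6 / 4 * (m * NUMF.P t) + Kh := by
  have hpi := Real.pi_pos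
  obtain ⟨Kh, hK, H⟩ := cur_le (κ := pH6 / 4) (Λ := 2 * Real.pi)
    (by have := pH6_pos; linarith) (by positivity)
  refine ⟨Kh, hK, fun m hm h hl h0 t => H m hm (fun t => 2 * Real.pi * h t) (fun t t' => ?_)
    (fun t ht => ?_) t⟩
  · show |2 * Real.pi * h t - 2 * Real.pi * h t'| ≤ _
    rw [← mul_sub, abs_mul, abs_of_pos (by positivity : (0 : ℝ) < 2 * Real.pi)]
    exact mul_le_mul_of_nonneg_left (hl t t') (by positivity)
  · have := h0 t ht
    show 2 * Real.pi * h t ≤ 0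
    nlinarith

/-- **with a tent**: `2 π h + g`, `g` Lipschitz and supported in the bulk -/
theorem cur_leT6 {G : ℝ} (hG : 0 ≤ G) : ∃ Kh : ℝ, 0 ≤ Kh ∧ ∀ m : ℕ, 1 ≤ m →
    ∀ h g : ℝ → ℝ, (∀ t t', |h t - h t'| ≤ |t - t'|) → (∀ t, Tb (Real.log m) < |t| → h t ≤ 0) →
      (∀ t t', |g t - g t'| ≤ G * |t - t'|) → (∀ t, Tb (Real.log m) < |t| → g t ≤ 0) →
      ∀ t, 2 * Real.pi * h t + g t ≤ pH6 / 4 * (m * NUMF.P t) + Kh := by
  have hpi := Real.pi_pos
  obtain ⟨Kh, hK, H⟩ := cur_le (κ := pH6 / 4) (Λ := 2 * Real.pi + G)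
    (by have := pH6_pos; linarith) (by positivity)
  refine ⟨Kh, hK, fun m hm h g hl h0 gl g0 t =>
    H m hm (fun t => 2 * Real.pi * h t + g t) (fun t t' => ?_) (fun t ht => ?_) t⟩
  · show |2 * Real.pi * h t + g t - (2 * Real.pi * h t' + g t')| ≤ _
    have e : 2 * Real.pi * h t + g t - (2 * Real.pi * h t' + g t') =
        2 * Real.pi * (h t - h t') + (g t - g t') := by ring
    rw [e]
    refine (abs_add_le _ _).trans ?_
    rw [abs_mul, abs_of_pos (by positivity : (0 : ℝ) < 2 * Real.pi)]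
    have a1 := mul_le_mul_of_nonneg_left (hl t t') (by positivity : (0 : ℝ) ≤ 2 * Real.pi)
    have a2 := gl t t'
    rw [add_mul]
    linarith
  · have := h0 t ht
    have := g0 t ht
    show 2 * Real.pi * h t + g t ≤ 0
    nlinarith

section crv

variable [NUSea.Sea]

/-- the current of an admissible curve vanishes outside the bulk -/
theorem CrvP_zero {e1 Cc : ℝ} {m : ℕ} {η η1 : ℝ → ℝ} (he1 : 0 ≤ e1) (hm : 1 ≤ m)
    (h : PotH.PLX.CrvP e1 Cc m η η1) {t : ℝ} (ht : Tb (Real.log m) < |t|) : η t = 0 := by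
  obtain ⟨ε, e, hc, -, -, -⟩ := h.cur
  have hT0 : 0 ≤ Tb (Real.log m) := by
    unfold Tb
    have := Real.log_nonneg (show (1 : ℝ) ≤ m by exact_mod_cast hm)
    linarith
  have h1 : e t = 0 := hc.supp t (lt_of_le_of_lt (by nlinarith) ht)
  let _ := PLX.Fil.one
  have h2 := hc.abs_le t
  rw [h1] at h2
  exact abs_nonpos_iff.1 h2

end crv

section

attribute [local instance] NUSea.seaP

/-- **the currents of all admissible curves** -/
theorem crvP_cur_le6 : ∃ Kh : ℝ, 0 ≤ Kh ∧ ∀ (e1 Cc : ℝ) (m : ℕ) (η η1 : ℝ → ℝ), 0 ≤ e1 → 1 ≤ m →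
    PotH.PLX.CrvP e1 Cc m η η1 →
      ∀ t, 2 * Real.pi * ((m : ℝ) * NUSea.P t * η t) ≤ pH6 / 4 * (m * NUMF.P t) + Kh := by
  obtain ⟨Kh, hK, H⟩ := cur_le6
  refine ⟨Kh, hK, fun e1 Cc m η η1 he1 hm h t => ?_⟩
  exact H m hm (fun t => (m : ℝ) * NUSea.P t * η t) h.lip (fun t ht => by
    show (m : ℝ) * NUSea.P t * η t ≤ 0
    rw [CrvP_zero he1 hm h ht, mul_zero]) t

end

/-- **the current `hC`** (tent and plateau), absolute constant, large `m` -/
theorem hC_cur_le6 : ∃ Kh : ℝ, 0 ≤ Kh ∧ ∀ e1 J : ℝ, 0 < e1 → e1 ≤ 1 / 100 → 0 ≤ J →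
    ∃ m1 : ℕ, ∀ m ≥ m1, ∀ t, 2 * Real.pi * hC e1 J m t ≤ pH6 / 4 * (m * NUMF.P t) + Kh := by
  obtain ⟨Kh, hK, H⟩ := cur_le6
  refine ⟨Kh, hK, fun e1 J he1 he2 hJ => ?_⟩
  obtain ⟨C, hC0, HL⟩ := hC_lip he1
  have hT : Filter.Tendsto (fun m : ℕ => Tb (Real.log m)) Filter.atTop Filter.atTop := by
    unfold Tb
    exact (Real.tendsto_log_atTop.comp tendsto_natCast_atTop_atTop).const_mul_atTop (by norm_num)
  obtain ⟨m1, h1⟩ := Filter.eventually_atTop.1 (hT.eventually_ge_atTop (20 + 2 * (C * J)))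
  refine ⟨max m1 1, fun m hm t => ?_⟩
  have h2 := h1 m (le_trans (le_max_left _ _) hm)
  have hm1 : 1 ≤ m := le_trans (le_max_right _ _) hm
  have hCJ : 0 ≤ C * J := by positivity
  have h20 : 20 ≤ Tb (Real.log m) := by linarith
  have ha : NUGC.aC ≤ 1 / 2 := NUGC.aC_le
  refine H m hm1 (hC e1 J m) (fun t t' => ?_) (fun t ht => ?_) t
  · refine (HL J hJ m he2 h20 t t').trans ?_
    have h3 : C * J / Tb (Real.log m) ≤ 1 / 2 := by
      rw [div_le_iff₀ (by linarith)]
      linarith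
    calc _ ≤ (1 / 2 + 1 / 2) * |t - t'| :=
          mul_le_mul_of_nonneg_right (add_le_add ha h3) (abs_nonneg _)
      _ = |t - t'| := by ring
  · rw [hC_zero he1 he2 h20 (by nlinarith)]

end PHK

end
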