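import Pool.Agent.PHK.ZFamR6
import Pool.Agent.PHK.FamL6
import Pool.Agent.PLX.PB.TopG0
import Pool.Agent.PLX.PB.F0Ln

/-!
# (P): the bound of the cut term of the first Ward identity, as a hypothesis

Rows `i η0, 0^k` (`rwx k η0`), every one `q`-fold in the second group, legs at `z`, `b = 4 (1 - ep) / 3`,
landed straight lines `fl (pL (k + 1))`, cutoff of the strings with the exponent `omA (T1L (k + 1))`
transported by the field `xiR (rwx k η0) 0` (helper89's family `ZR6`).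

* **`CutAll6`**: `‖Pf * ∑ n, F0D .. (Zcut ..)‖ ≤ (k + 1)^(-2 + d) e^(2 |Im z|)` for large `k`.
-/

set_option autoImplicit false

noncomputable section

attribute [local instance] NUSea.seaP

open Complex Finset
open PLX (Fil)

namespace PBI.PLX

open NUP1 hiding Kd
open PBZF (Lz)
open PBZF.PLX (ZR6 ZdR6 ZpR6 vE)
open PBT.PLX (pL)
open PBU.PLX (T1L)
open Pool.Agent.PB (Pf)
open _root_.Pool.Agent.PLX (yq)

variable [Fil]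

/-- **the bound of the cut term of the first Ward identity** -/
def CutAll6 : Prop := ∀ d : ℝ, 0 < d → ∃ a0 : ℝ, 0 < a0 ∧
    ∀ ep : ℝ, 0 < ep → ep ≤ 1 / 100 → ∀ e1 : ℝ, 0 < e1 → e1 ≤ 1 / 100 → ∀ J : ℝ, 0 ≤ J →
    Real.exp (-(2 * Real.pi * J)) + 3 * e1 + 3 * ep ≤ a0 → ∃ m0 : ℕ, ∀ k : ℕ, m0 ≤ k →
    ∀ η0 : ℝ, |η0| ≤ 1 → ∀ z : ℂ, Lz z → |z.im| ≤ 3 / 20 * Real.log (k + 1 : ℕ) + 2 →
    ∀ cc : Bool → ℂ, (∀ a, ‖cc a‖ = 2 * Real.cos NUP1.l) →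
    ∀ v : Bool → Fin 2 → ℂ, v = vE (4 / 3 * (1 - ep)) k η0 (PBFar.xe k η0) →
    ∀ X : ℂ → ℂ, X = PBForce.xiR (PBZF.rwx k (η0 : ℂ)) 0 →
    ‖Pf z (PBZF.rwx k (η0 : ℂ)) (yq (PBZF.rwx k (η0 : ℂ))) *
      ∑ n ∈ range (2 * (k + 1) + 1), F0D (3 / 5 * NUP1.l) n (n + Fil.xn (k + 1)) (fl (pL (k + 1)))
        (ZR6 cc (4 / 3 * (1 - ep)) k z η0 v (T1L (k + 1)) X η0)
        (Zcut (ZR6 cc (4 / 3 * (1 - ep)) k z η0 v (T1L (k + 1)) X η0)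
          (ZdR6 cc (4 / 3 * (1 - ep)) k z η0 v (T1L (k + 1)) X η0)
          (ZpR6 cc (4 / 3 * (1 - ep)) k z η0 v (T1L (k + 1)) X) (PBQ1.xiK (PBZF.rwx k (η0 : ℂ)) 0)
          (PBQ1.krK2 (PBZF.rwx k (η0 : ℂ))) (PBQ1.r1K2 (PBZF.rwx k (η0 : ℂ)) 0) (PBQ1.lamK z))‖ ≤
      ((k + 1 : ℕ) : ℝ) ^ (-2 + d) * Real.exp (2 * |z.im|)

end PBI.PLX

end
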