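import Pool.Agent.PHK.InsTwo6
import Pool.Agent.PLX.PB.CutZ

/-!
# (P): the cut term of the first Ward identity by Cauchy's estimate

`Zep Z Zc ε = Z + ε Zc`. The functional of the straight lines is entire in `ε`; its derivative at
`ε = 0` (one factor `Z` replaced by `Zc`) is bounded by `sup_{|ε| = E} |FF6 (Z + ε Zc)| / E`.

* `ZcOk6 Z Zc P κ δ C Q`: what is needed of the replaced factors (relative bound `C` for the quanta in the
  whole strip `[99/800 l, (1 + δ) l]`, in particular in the strip of the holes, for `L` and the strings on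
  their boxes; `T`: decay); **`clZ6_ep`**: the class is closed under `Zep`, `‖ε‖ C ≤ 1/2`;
* `zBd_box6`: bounds on the lines of all words from the decay on the boxes;
* **`F0D_sum_le6`**: `‖Pf * ∑_{n ∈ S} F0D_n Z Zc‖ <= B / E` when `∑ ‖Pf‖ FA6 (Z + ε Zc) <= B` on `|ε| = E`,
  `E C ≤ 1/2`; **`cut_le6`**: the same for `Zd` equal to `Zc` on the lines.
-/

set_option autoImplicit false
set_option linter.unusedSectionVars false

noncomputable section

open Complex MeasureTheory Finset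
open scoped ENNReal Classical

open PLX (Fil)

namespace PBI.PLX

open NUP1 NUP1S NUP1.Bd NURow PB PHK
open NUP1S.Ab NUP1S.AbC
open NUO (posT)
open PBF.PLX (Crs)

variable {Z Zc : Stt} {P : Par6} {x0 κ κ' δ C : ℝ} {Q : ℤ} {n n' : ℕ} {L : Lns}

/-- **what is needed of the replaced factors** -/
structure ZcOk6 (Z Zc : Stt) (P : Par6) (κ δ C : ℝ) (Q : ℤ) : Prop where
  m : ∀ s k, Measurable (Zc s k)
  a : ∀ s (u : ℂ), 99 / 800 * l ≤ u.re → u.re ≤ (1 + δ) * l → DifferentiableAt ℂ (Zc s none) u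
  bA : ∀ s (u : ℂ), 99 / 800 * l ≤ u.re → u.re ≤ (1 + δ) * l → ‖Zc s none u‖ ≤ C * ‖Z s none u‖
  dO : ∀ s (o : O3) (u : ℂ), u.re ∈ Set.Icc (loB P (some o)) (hiB P (some o)) →
    DifferentiableAt ℂ (Zc s (some o)) u
  bL : ∀ s (u : ℂ), u.re ∈ Set.Icc (loB P (some .L)) (hiB P (some .L)) →
    ‖Zc s (some .L) u‖ ≤ C * ‖Z s (some .L) u‖
  bS : ∀ s (u : ℂ), u.re ∈ Set.Icc (loB P (some .S)) (hiB P (some .S)) →
    ‖Zc s (some .S) u‖ ≤ C * ‖Z s (some .S) u‖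
  bT : ∀ s, DecOn (κ + 2 * Q * sc (s, Ob.S)) {-(1 / 2 * l)} (Zc s (some .T))

theorem norm_Zep_le {z w ε : ℂ} (h : ‖w‖ ≤ C * ‖z‖) : ‖z + ε * w‖ ≤ (1 + ‖ε‖ * C) * ‖z‖ := by
  refine (norm_add_le _ _).trans ?_
  rw [norm_mul]
  have := mul_le_mul_of_nonneg_left h (norm_nonneg ε)
  linarith

theorem decOn_le6 {κ : ℝ} {K : Set ℝ} {f g : ℂ → ℂ} (hf : DecOn κ K f) {B : ℝ} (hB : 0 ≤ B)
    (h : ∀ z : ℂ, z.re ∈ K → ‖g z‖ ≤ B * ‖f z‖) : DecOn κ K g := by
  obtain ⟨D, hD⟩ := hf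
  refine ⟨B * D, fun z hz => (h z hz).trans ?_⟩
  rw [mul_assoc]
  exact mul_le_mul_of_nonneg_left (hD z hz) hB

/-- the inverse of `Z + ε Zc` -/
theorem inv_Zep {z w ε : ℂ} (h : ‖w‖ ≤ C * ‖z‖) :
    (z + ε * w)⁻¹ = z⁻¹ * (1 + ε * (w * z⁻¹))⁻¹ := by
  rcases eq_or_ne z 0 with h0 | h0
  · have : w = 0 := by
      rw [h0, norm_zero, mul_zero] at h
      exact norm_le_zero_iff.1 h
    rw [h0, this]
    simp
  · rw [← mul_inv]
    congr 1
    field_simp

theorem norm_quot {z w : ℂ} (hC : 0 ≤ C) (h : ‖w‖ ≤ C * ‖z‖) : ‖w * z⁻¹‖ ≤ C := by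
  rcases eq_or_ne z 0 with h0 | h0
  · rw [h0, inv_zero, mul_zero, norm_zero]
    exact hC
  · rw [norm_mul, norm_inv, ← div_eq_mul_inv, div_le_iff₀ (norm_pos_iff.2 h0)]
    exact h

theorem Zep_ne {z w ε : ℂ} (hz : z ≠ 0) (h : ‖w‖ ≤ C * ‖z‖) (hε : ‖ε‖ * C ≤ 1 / 2) :
    z + ε * w ≠ 0 := by
  intro h0
  have h1 : ‖z‖ = ‖ε * w‖ := by
    rw [← norm_neg (ε * w)]
    congr 1
    exact eq_neg_of_add_eq_zero_left h0
  rw [norm_mul] at h1
  have h2 := mul_le_mul_of_nonneg_left h (norm_nonneg ε)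
  have h3 := mul_le_mul_of_nonneg_right hε (norm_nonneg z)
  have h4 : 0 < ‖z‖ := norm_pos_iff.2 hz
  nlinarith

/-- **the class is closed under small relative perturbations** -/
theorem clZ6_ep (h : ClZ6 Z P x0 κ κ' δ Q) (hc : ZcOk6 Z Zc P κ δ C Q) (hG : GoodP6 P)
    (hj : P.j2 ≤ 7 / 8) (hS : StP δ P) (hC : 0 ≤ C) {ε : ℂ} (hε : ‖ε‖ * C ≤ 1 / 2) :
    ClZ6 (Zep Z Zc ε) P x0 κ κ' δ Q := by
  have hl := Bd.l_pos
  have hδ0 := hS.d0
  have hδ1 := hS.d1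
  have g1 := hG.j1
  have g2 := hG.j1e
  have g3 := hG.ej2
  have g6 := hG.e13
  have hle : l ≤ (1 + δ) * l := by nlinarith
  have hx1 : 99 / 800 * l ≤ (1 - δ) * l := by nlinarith
  have hB : 0 ≤ 1 + ‖ε‖ * C := by positivity
  obtain ⟨κh, del, k1, d0, hH, hF, hN⟩ := h.inv
  refine ⟨fun s k => measurable_Zep h.m hc.m ε s k,
    ⟨h.q.kpos, fun s => ?_, fun s u hu => ?_, fun s => ?_⟩, fun s o => ?_, fun s o u hu => ?_,
    fun s N => ?_,
    κh, min del (1 / 800 * l), k1, lt_min d0 (by positivity), fun s => ?_, fun s u h1 h2 => ?_,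
    fun s u h1 h2 => ?_⟩
  · exact measurable_Zep h.m hc.m ε s none
  · exact (h.q.d s u hu).add ((hc.a s u (hx1.trans hu.1) hu.2).const_mul ε)
  · obtain ⟨B, hB1, hb⟩ := h.q.b s
    refine ⟨(1 + ‖ε‖ * C) * B, mul_nonneg hB hB1, fun u hu =>
      (norm_Zep_le (hc.bA s u (hx1.trans hu.1) hu.2)).trans ?_⟩
    rw [mul_assoc]
    exact mul_le_mul_of_nonneg_left (hb u hu) hB
  · rcases o with _ | o
    · refine decOn_le6 (h.dec s none) hB fun z hz => norm_Zep_le (hc.bA s z ?_ (hz.2.trans hle))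
      refine le_trans ?_ hz.1
      show 99 / 800 * l ≤ 51 / 100 * l
      nlinarith
    · cases o
      · exact decOn_le6 (h.dec s (some .L)) hB fun z hz => norm_Zep_le (hc.bL s z hz)
      · exact decOn_le6 (h.dec s (some .S)) hB fun z hz => norm_Zep_le (hc.bS s z hz)
      · refine DecOn_ep (h.dec s (some .T)) ?_ ε
        obtain ⟨D, hD⟩ := hc.bT s
        exact ⟨D, fun z hz => hD z (le_antisymm hz.2 hz.1)⟩
  · refine (h.dif s o u hu).add ?_
    rcases o with _ | o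
    · refine (hc.a s u (le_trans ?_ hu.1) (hu.2.trans hle)).const_mul ε
      show 99 / 800 * l ≤ 51 / 100 * l
      nlinarith
    · exact (hc.dO s o u hu).const_mul ε
  · refine decOn_le6 (h.S s N) hB fun z hz => norm_Zep_le (hc.bS s z ?_)
    rw [Set.mem_singleton_iff] at hz
    rw [hz]
    refine ⟨le_rfl, ?_⟩
    show -((1 + P.e) * l) ≤ -(5 / 4 * l)
    nlinarith
  · obtain ⟨B, hB1, hb⟩ := hH s
    refine ⟨B * 2, by positivity, fun u hu => ?_⟩
    have u1 : 99 / 800 * l ≤ u.re := by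
      have := hu.1
      nlinarith
    have u2 : u.re ≤ (1 + δ) * l := by
      have := hu.2
      nlinarith
    have hw := hc.bA s u u1 u2
    show ‖(Z s none u + ε * Zc s none u)⁻¹‖ ≤ _
    rw [inv_Zep hw, norm_mul]
    have h3 := mul_le_mul (hb u hu) (norm_inv_tw (norm_quot hC hw) hε) (norm_nonneg _)
      ((norm_nonneg _).trans (hb u hu))
    refine h3.trans (le_of_eq ?_)
    ring
  · have m1 : min del (1 / 800 * l) ≤ del := min_le_left _ _
    have m2 : min del (1 / 800 * l) ≤ 1 / 800 * l := min_le_right _ _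
    have hd := hF s u (by linarith) (by linarith)
    have key : ∀ v : ℂ, 99 / 800 * l ≤ v.re → v.re ≤ (1 + δ) * l →
        (Zep Z Zc ε s none v)⁻¹ =
          (Z s none v)⁻¹ * (1 + ε * (Zc s none v * (Z s none v)⁻¹))⁻¹ := fun v v1 v2 =>
      inv_Zep (hc.bA s v v1 v2)
    have u1 : 99 / 800 * l < u.re := by nlinarith
    have u2 : u.re < (1 + δ) * l := by nlinarith
    have hev : (fun v => (Zep Z Zc ε s none v)⁻¹) =ᶠ[nhds u] fun v =>
        (Z s none v)⁻¹ * (1 + ε * (Zc s none v * (Z s none v)⁻¹))⁻¹ := by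
      have ho : IsOpen {v : ℂ | 99 / 800 * l < v.re ∧ v.re < (1 + δ) * l} :=
        (isOpen_lt continuous_const continuous_re).inter (isOpen_lt continuous_re continuous_const)
      filter_upwards [ho.mem_nhds ⟨u1, u2⟩] with v hv
      exact key v hv.1.le hv.2.le
    refine DifferentiableAt.congr_of_eventuallyEq (hd.mul ?_) hev
    refine ((((hc.a s u u1.le u2.le).mul hd).const_mul ε).const_add 1).inv ?_
    exact one_tw_ne (norm_quot hC (hc.bA s u u1.le u2.le)) hε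
  · have m1 : min del (1 / 800 * l) ≤ del := min_le_left _ _
    have m2 : min del (1 / 800 * l) ≤ 1 / 800 * l := min_le_right _ _
    have u1 : 99 / 800 * l ≤ u.re := by nlinarith
    have u2 : u.re ≤ (1 + δ) * l := by nlinarith
    exact Zep_ne (hN s u h1 (by linarith)) (hc.bA s u u1 u2) hε

/-! ### the functional of the straight lines -/

/-- bounds on the lines of all words from the decay on the boxes -/
theorem zBd_box6 (hd : ∀ s o, DecOn (κ + 2 * Q * sc (s, ob4 o)) (Set.Icc (loB P o) (hiB P o)) (Z s o))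
    (hw : AllW x0 n n' L fun c x => ∀ i, x i ∈ Set.Icc (loB P (c i).2) (hiB P (c i).2))
    (hn : (n : ℤ) - n' = Q) :
    ∃ D : ℝ, AllW x0 n n' L fun c x => ZBdQ c x κ ((n' : ℝ) - n) D Z := by
  choose D hD using hd
  have hQ : (Q : ℝ) = (n : ℝ) - n' := by
    rw [← hn]
    push_cast
    ring
  obtain ⟨M, hM⟩ : ∃ M : ℝ, M = ∑ s : Bool, (|D s none| + ∑ o : O3, |D s (some o)|) := ⟨_, rfl⟩
  have hle : ∀ s o, |D s o| ≤ M := by
    intro s o
    have h1 : |D s o| ≤ |D s none| + ∑ o : O3, |D s (some o)| := by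
      rcases o with _ | o
      · have : 0 ≤ ∑ o : O3, |D s (some o)| := Finset.sum_nonneg fun _ _ => abs_nonneg _
        linarith
      · have h2 := Finset.single_le_sum (f := fun o : O3 => |D s (some o)|)
          (fun _ _ => abs_nonneg _) (Finset.mem_univ o)
        have h3 := abs_nonneg (D s none)
        linarith
    have h4 := Finset.single_le_sum (f := fun s : Bool => |D s none| + ∑ o : O3, |D s (some o)|)
      (fun s _ => add_nonneg (abs_nonneg _) (Finset.sum_nonneg fun _ _ => abs_nonneg _))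
      (Finset.mem_univ s)
    rw [hM]
    exact h1.trans h4
  refine ⟨M, fun p p' k k' h1 h2 i t => ?_⟩
  have h3 := hw p p' k k' h1 h2 i
  generalize hc : cl n n' k k' i = c at h3 ⊢
  obtain ⟨s, o⟩ := c
  have h4 := hD s o (vl ((L.all x0 n n' k k') i) t) (by simpa [vl] using h3)
  have e1 : (vl ((L.all x0 n n' k k') i) t).im = t := by simp [vl]
  rw [e1] at h4
  refine (h4.trans (mul_le_mul_of_nonneg_right ((le_abs_self _).trans (hle s o))
    (Real.exp_pos _).le)).trans (le_of_eq ?_)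
  congr 2
  show -((κ + 2 * (Q : ℝ) * sc (s, ob4 o)) * |t|) =
    -(κ * |t|) + 2 * ((n' : ℝ) - n) * sc (co (s, o)) * |t|
  rw [hQ]
  unfold co
  ring

section FF

variable [Fil] {η η' : Crs}

/-- **the cut term, summed over the numbers of quanta** -/
theorem F0D_sum_le6 {S : Finset ℕ} {d : ℕ} {Pf : ℂ}
    (hI : ∀ n ∈ S, InsQ6 L P x0 κ κ' δ (-(d : ℤ)) n (n + d) η η')
    (hok : ∀ n ∈ S, AllW x0 n (n + d) L fun c x => LnOk c x) (hκ : 0 < κ)
    (hZ : ClZ6 Z P x0 κ κ' δ (-(d : ℤ))) (hc : ZcOk6 Z Zc P κ δ C (-(d : ℤ))) (hC : 0 ≤ C)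
    {E B : ℝ} (hE : 0 < E) (hEC : E * C ≤ 1 / 2) (hB0 : 0 ≤ B)
    (hB : ∀ ε : ℂ, ‖ε‖ = E → ∑ n ∈ S, ‖Pf‖ₑ *
      FA6 (Zep Z Zc ε) P n (n + d) η η' (fun _ _ _ _ _ => 1) ≤ ENNReal.ofReal B) :
    ‖Pf * ∑ n ∈ S, F0D x0 n (n + d) L Z Zc‖ ≤ B / E := by
  have hn : ∀ n : ℕ, (n : ℤ) - ((n + d : ℕ) : ℤ) = -(d : ℤ) := fun n => by
    push_cast
    ring
  rcases eq_or_ne Pf 0 with h0 | h0
  · rw [h0, zero_mul, norm_zero]
    positivity
  have hPf : 0 < ‖Pf‖ := norm_pos_iff.2 h0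
  -- decay of the replaced factors on the boxes
  have hdc : ∀ n ∈ S, ∃ D : ℝ, AllW x0 n (n + d) L fun c x =>
      ZBdQ c x κ (((n + d : ℕ) : ℝ) - n) D Zc := by
    intro m hm
    have h := hI m hm
    have hG := h.hG
    have hl := Bd.l_pos
    have hδ0 := h.hS.d0
    have hle : l ≤ (1 + δ) * l := by nlinarith
    refine zBd_box6 (Q := -(d : ℤ)) (fun s o => ?_) h.hw (hn m)
    rcases o with _ | o
    · refine decOn_le6 (hZ.dec s none) hC fun z hz => hc.bA s z ?_ (hz.2.trans hle)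
      refine le_trans ?_ hz.1
      show 99 / 800 * l ≤ 51 / 100 * l
      nlinarith
    · cases o
      · exact decOn_le6 (hZ.dec s (some .L)) hC fun z hz => hc.bL s z hz
      · exact decOn_le6 (hZ.dec s (some .S)) hC fun z hz => hc.bS s z hz
      · obtain ⟨D, hD⟩ := hc.bT s
        exact ⟨D, fun z hz => hD z (le_antisymm hz.2 hz.1)⟩
  have key : ‖∑ n ∈ S, F0D x0 n (n + d) L Z Zc‖ ≤ (B / ‖Pf‖) / E := by
    refine F0D_sum_cauchy hκ hok hZ.m hc.m
      (fun n hn' => zBd_box6 (Q := -(d : ℤ)) hZ.dec (hI n hn').hw (hn n)) hdc hE fun ε hε => ?_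
    have e1 : ∀ n ∈ S, F0 x0 n (n + d) L (Zep Z Zc ε) (fun _ _ _ _ => 1) =
        FF6 (Zep Z Zc ε) P n (n + d) η η' (fun _ _ _ _ _ => 1) := fun n hn' =>
      (hI n hn').cls _ (clZ6_ep hZ hc (hI n hn').hG (hI n hn').hj (hI n hn').hS hC (by rw [hε]; exact hEC))
    rw [Finset.sum_congr rfl e1, le_div_iff₀ hPf, mul_comm, ← norm_mul, Finset.mul_sum]
    have h2 : ‖∑ n ∈ S, Pf * FF6 (Zep Z Zc ε) P n (n + d) η η' (fun _ _ _ _ _ => 1)‖ₑ ≤
        ENNReal.ofReal B := by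
      refine (enorm_sum_le _ _).trans (le_trans (Finset.sum_le_sum fun n _ => ?_) (hB ε hε))
      rw [enorm_mul]
      exact mul_le_mul' le_rfl (FF6_le _)
    rw [← ofReal_norm] at h2
    exact (ENNReal.ofReal_le_ofReal_iff hB0).1 h2
  rw [norm_mul]
  calc ‖Pf‖ * ‖∑ n ∈ S, F0D x0 n (n + d) L Z Zc‖ ≤ ‖Pf‖ * ((B / ‖Pf‖) / E) := by gcongr
    _ = B / E := by field_simp

/-- **the cut term**: `Zd = Zc` on the lines -/
theorem cut_le6 {S : Finset ℕ} {d : ℕ} {Pf : ℂ} {Zd : Stt}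
    (hI : ∀ n ∈ S, InsQ6 L P x0 κ κ' δ (-(d : ℤ)) n (n + d) η η')
    (hok : ∀ n ∈ S, AllW x0 n (n + d) L fun c x => LnOk c x) (hκ : 0 < κ)
    (hZ : ClZ6 Z P x0 κ κ' δ (-(d : ℤ))) (hc : ZcOk6 Z Zc P κ δ C (-(d : ℤ))) (hC : 0 ≤ C)
    (hd : ∀ n ∈ S, AllW x0 n (n + d) L fun c x => ∀ i, ∀ t : ℝ,
      Zd (c i).1 (c i).2 (vl (x i) t) = Zc (c i).1 (c i).2 (vl (x i) t))
    {E B : ℝ} (hE : 0 < E) (hEC : E * C ≤ 1 / 2) (hB0 : 0 ≤ B)
    (hB : ∀ ε : ℂ, ‖ε‖ = E → ∑ n ∈ S, ‖Pf‖ₑ *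
      FA6 (Zep Z Zc ε) P n (n + d) η η' (fun _ _ _ _ _ => 1) ≤ ENNReal.ofReal B) :
    ‖Pf * ∑ n ∈ S, F0D x0 n (n + d) L Z Zd‖ ≤ B / E := by
  rw [Finset.sum_congr rfl fun n hn => F0D_congr (hd n hn)]
  exact F0D_sum_le6 hI hok hκ hZ hc hC hE hEC hB0 hB

end FF

end PBI.PLX

end
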