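import Pool.Agent.PHK.ZcOkX6
import Pool.Agent.PHK.FamL6
import Pool.Agent.PLX.PB.ZcCa

/-!
# (P): the cut term with legs at the rows `η I, 0 ^ k`

* `ZcL6`: the cut term with legs at `z`; `zL6_eq`: the class functions are `XXF6`;
* **`cutZ6_L`**, **`zcOk6_L`**: `CutZ6`, `ZcOk6` of the dislocated function from `CutH6`;
* `MT_cut6`: the moved cut of `T` against the clouds of `Fil.ne a m`, `m = k + 1 + e` rows;
* **`cut_data6`**: all data of the cut term, `T1 ≥ (3/8) log (k + 1) + tauF`.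
-/

set_option autoImplicit false
set_option linter.unusedVariables false
set_option linter.unusedSectionVars false

noncomputable section

open Complex Set

namespace PBC.PLX

open NUP1 NUP1S.AbC NURow NUO NUGC NUGC.PLX PBX PBX.PLX
open NUP1S hiding R0
open PBFar hiding W0 phi_W0 phi_R0 phi_le phi_ge phi_le_R phi_ge_R vI DW DR hasDerivAt_W hasDerivAt_R
  CW trW far_W far_W_prod trR far_R_prod far_R_tr norm_vI_le cutT DT hasDerivAt_T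
  eMF eMF_pos prods DT_eq far_T_form far_T_all exact_rows far_R0 far_R0_prod Ep_row
open PBFar.PLX
open PBL.PLX (mu1)
open PHK (om omA pP phO gO Par6 GoodP6 CutZ6 obU6 obL6 ZL6 par6 par6_good tau0)
open PBI.PLX (ZcOk6)
open PBU.PLX (tauF)
open _root_.PLX (Fil Ends)
open _root_.Pool.Agent.PLX (XXU RRU TTU rwq)

variable [Fil]

/-- the cut term with legs at `z` -/
def ZcL6 (c : Bool → ℂ) (k : ℕ) (b : ℝ) (η : ℝ) (z : ℂ) (T1 : ℝ) (X : ℂ → ℂ) :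
    Bool → Option O3 → ℂ → ℂ :=
  ZcF6 c (rwq (rwx k η)) Fil.n b (fun a => Fil.n a * k) ((η : ℂ) * I) I (xe k η) T1 X
    (fun _ => Lg z z) (fun _ w => Lg z z w * Lg z z (w - l))

theorem zL6_eq (c : Bool → ℂ) (k : ℕ) (b : ℝ) (η : ℝ) (z : ℂ) (T1 : ℝ) :
    ZL6 c (fun a => gO T1 [] (rwq (mu1 k ((η : ℂ) * I)) a)) k b ((η : ℂ) * I) z =
      XXF6 c b (rwq (rwx k η)) T1 (fun _ => Lg z z) (fun _ w => Lg z z w * Lg z z (w - l)) := rfl

theorem obL6_eq (T1 : ℝ) (k : ℕ) (b : ℝ) (η : ℝ) (z : ℂ) :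
    obU6 (2 * Real.cos l) b (rwq (rwx k η)) (fun _ => [I, -I])
      (fun a => ph (4 / 3) (rwq (rwx k η) a) (gO T1 [] (rwq (rwx k η) a)))
      (fun _ u => ‖Lg z z u‖) = obL6 T1 k b ((η : ℂ) * I) z := by
  rw [PHK.obU6_rwq]
  have e : (fun a => ph (4 / 3) (rwq (rwx k η) a) (gO T1 [] (rwq (rwx k η) a))) =
      fun a => phO T1 (List.ofFn (rwq (rwx k η) a) ++ []) := funext fun a => PHK.ph_gO_fun _ _ _
  rw [e]
  simp only [PBX.PLX.norm_Lg]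
  rfl

variable {k : ℕ} {ep : ℝ} {C0 : ℝ} {η : ℝ} {X : ℂ → ℂ} {T1 c1 : ℝ} {M : Bool → ℝ → ℝ} {z : ℂ}
  {cc : Bool → ℂ} {P : Par6}

/-- **the cut term relative to the class functions** -/
theorem cutZ6_L (hep : 0 < ep) (hep1 : ep ≤ 1 / 100) (hη : |η| ≤ 1) (hF : FlX6 k C0 X (xe k η))
    (hCH : CutH6 (4 / 3 * (1 - ep)) Fil.n (fun a => Fil.n a * k) ((η : ℂ) * I) I (xe k η) T1 X c1 M
      (ep / 4)) (z1 : -(9 / 10 * l) ≤ z.re) (z2 : z.re < 37 / 10 * l)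
    (hcc : ∀ a, ‖cc a‖ = 2 * Real.cos l) {x0 : ℝ} (hx0 : 51 / 100 * l ≤ x0)
    (hx0' : x0 ≤ 19 / 20 * l) (hP : GoodP6 P) (hj2 : P.j2 ≤ 8 / 9) :
    CutZ6 (ZL6 cc (fun a => gO T1 [] (rwq (mu1 k ((η : ℂ) * I)) a)) k (4 / 3 * (1 - ep))
        ((η : ℂ) * I) z) (ZcL6 cc k (4 / 3 * (1 - ep)) η z T1 X)
      (obL6 T1 k (4 / 3 * (1 - ep)) ((η : ℂ) * I) z) P ep (2 * (4 / 3 * (1 - ep))) x0
      (-Fil.xn (k + 1)) (Set.range fun i => (mu1 k ((η : ℂ) * I) i).im) c1 M := by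
  have hl := Bd.l_pos
  have hrows : Rws (rwx k η) := PBT.PLX.rws_mu1 k (re_row η)
  have key := cutZ6_X (N := fun a => cond a (k + 1) (Fil.q * (k + 1))) (c := cc)
    (y := rwq (rwx k η)) (s1 := fun _ => Lg z z)
    (s2 := fun _ w => Lg z z w * Lg z z (w - l)) (E := ∅) (q := 0) hx0 hx0' hP hj2 hep hep1
    (by linarith : 0 < 4 / 3 * (1 - ep)) (by linarith) (PBC.hyp_ep hep hep1) le_rfl
    (fun a => Pool.Agent.PLX.Rws_rwq hrows a) (re_row η) (rwP_rwx k η) hcc hF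
    (fun _ => Lg_meas z z) (fun _ => (Lg_meas z z).mul ((Lg_meas z z).comp
      (measurable_id.sub_const _)))
    (fun a => PHK.Lg_SpecAt6 hx0 a z1 z2) (fun _ => PHK.Lg_SpecS6 z) (by simp) hCH
  rw [PBX.PLX.iUnion_range_rwq, Set.empty_union, obL6_eq] at key
  have e : (0 : ℤ) + ((cond true (k + 1) (Fil.q * (k + 1)) : ℕ) : ℤ) -
      ((cond false (k + 1) (Fil.q * (k + 1)) : ℕ) : ℤ) = -Fil.xn (k + 1) := by
    show (0 : ℤ) + ((k + 1 : ℕ) : ℤ) - ((Fil.q * (k + 1) : ℕ) : ℤ) = -Fil.xn (k + 1)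
    rw [← Fil.add_xn]
    push_cast
    ring
  rw [e] at key
  exact key

theorem re_rwx {i : Fin (k + 1)} (η : ℝ) : (rwx k η i).re = 0 := by
  refine Fin.cases ?_ (fun j => ?_) i
  · show ((η : ℂ) * I).re = 0
    simp
  · rw [rwx_succ]
    rfl

theorem im_rwx (hη : |η| ≤ 1) (i : Fin (k + 1)) : |(rwx k η i).im| ≤ 2 := by
  refine Fin.cases ?_ (fun j => ?_) i
  · show |((η : ℂ) * I).im| ≤ 2
    simp
    linarith
  · rw [rwx_succ]
    simp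

/-- **the hypotheses of the cut estimate** -/
theorem zcOk6_L (hep : 0 < ep) (hep1 : ep ≤ 1 / 100) (hη : |η| ≤ 1) (hF : FlX6 k C0 X (xe k η))
    (hCH : CutH6 (4 / 3 * (1 - ep)) Fil.n (fun a => Fil.n a * k) ((η : ℂ) * I) I (xe k η) T1 X c1 M
      (ep / 4)) {D0 κ : ℝ} (hM : ∀ a t, M a t ≤ D0 * Real.exp (-(κ * |t|)))
    (z1 : -(9 / 10 * l) ≤ z.re) (z2 : z.re < 31 / 10 * l) (hP : GoodP6 P) (hj : P.jL ≤ 9 / 4) :
    ZcOk6 (ZL6 cc (fun a => gO T1 [] (rwq (mu1 k ((η : ℂ) * I)) a)) k (4 / 3 * (1 - ep))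
        ((η : ℂ) * I) z) (ZcL6 cc k (4 / 3 * (1 - ep)) η z T1 X) P κ (ep / 4) c1
      (-(Fil.xn (k + 1) : ℤ)) := by
  have hl := Bd.l_pos
  have dL : ∀ u : ℂ, -(5 / 2 * l) < u.re → u.re < 11 / 10 * l → DifferentiableAt ℂ (Lg z z) u := by
    intro u u1 u2
    refine Lg_diff (NUGC.sin_pos_ne ?_ ?_)
    · linarith
    · linarith
  have hth : ∀ u : ℂ, -(5 / 2 * l) ≤ u.re → u.re ≤ l → ‖Lg z z u‖ ≤ PBO.PLX.cZ := by
    intro u u1 u2
    rw [PBX.PLX.norm_Lg]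
    exact PBO.PLX.leg_up z1 z2.le u1 u2
  rw [zL6_eq]
  refine zcOk6_X (c := cc) (h0 := 2) hP hj (by linarith) (by linarith) (PBC.hyp_ep hep hep1) le_rfl
    (fun i => by rw [re_rwx, abs_zero]; positivity)
    (fun i => ⟨by rw [re_rwx, abs_zero]; positivity, im_rwx hη i⟩) (re_row η) (rwP_rwx k η) hF
    (fun _ => Lg_meas z z)
    (fun _ => (Lg_meas z z).mul ((Lg_meas z z).comp (measurable_id.sub_const _)))
    (fun a u u1 u2 => dL u (by linarith) (by nlinarith)) (fun a u u1 u2 => dL u (by linarith)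
      (by linarith)) (fun a u u1 u2 => ?_) (S2 := PBO.PLX.cZ * PBO.PLX.cZ) (fun a t => ?_) hM hCH
  · refine (dL u (by linarith) (by linarith)).mul ?_
    refine DifferentiableAt.comp (g := Lg z z) u (dL (u - l) ?_ ?_)
      (differentiableAt_id.sub_const _)
    · rw [sub_re, ofReal_re]
      linarith
    · rw [sub_re, ofReal_re]
      linarith
  · have r1 : (posT t).re = -(1 / 2 * l) := posT_re t
    have r2 : (posT t - l).re = -(3 / 2 * l) := by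
      rw [sub_re, r1, ofReal_re]
      ring
    show ‖Lg z z (posT t) * Lg z z (posT t - l)‖ ≤ _
    rw [norm_mul]
    exact mul_le_mul (hth _ (by rw [r1]; linarith) (by rw [r1]; linarith))
      (hth _ (by rw [r2]; linarith) (by rw [r2]; linarith)) (norm_nonneg _)
      PBO.PLX.cZ_pos.le

/-! ### the moved cut of `T` against the clouds -/

variable [Ends]

theorem ne_row (ho : Ends.o = 0) (a : Bool) (k : ℕ) :
    Fil.ne a (k + 1 + Ends.e) = Fil.n a * k + (Fil.n a + Ends.e) := by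
  unfold Fil.ne
  rw [Nat.add_sub_cancel, ho]
  cases a <;> simp <;> ring

/-- **the moved cut of `T` against the clouds of all rows** -/
theorem MT_cut6 (ho : Ends.o = 0) {K : ℝ} (hK : 0 < K) {b : ℝ} (hb : b ≤ 4 / 3)
    (hb1 : 10 / 9 ≤ b) : ∃ N : ℕ, 1 ≤ N ∧ ∀ k : ℕ, N ≤ k → ∀ E : ℝ, 0 ≤ E →
      E ≤ ((k : ℝ) + 1) ^ 2 → ∀ (η : ℝ) (a : Bool) (t : ℝ),
      Real.exp ((Fil.ne a (k + 1 + Ends.e) : ℕ) * NUMF.Ag (1 / 2) t) * (E * MT K b k η a t) ≤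
        1 * NUO.cut (k + 1 + Ends.e) b t := by
  have hq1 : (1 : ℝ) ≤ (Fil.q : ℕ) := by exact_mod_cast Fil.one_le_q
  have hA := PBO.PLX.cA_nonneg
  obtain ⟨A, hAe⟩ : ∃ A : ℝ, A = Real.exp (((Fil.q : ℕ) + (Ends.e : ℕ)) * PBO.PLX.cA) := ⟨_, rfl⟩
  have hA0 : 0 < A := by rw [hAe]; exact Real.exp_pos _
  obtain ⟨N, hN, H⟩ := PBC.small_k (K := A * (K * (Fil.q : ℕ))) (by positivity)
    (p := -(9 / 4 * b)) (by linarith)
  refine ⟨N, hN, fun k hk E hE0 hE η a t => ?_⟩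
  have hk1 : 1 ≤ k := hN.trans hk
  have hkp : (0 : ℝ) < k := by exact_mod_cast hk1
  have h3 := H k hk
  have h4 := MT_mf hK.le hb k η a t
  have hc0 := NUO.cut_nonneg (k + 1 + Ends.e) b t
  have hn1 : 1 ≤ Fil.n a := Fil.one_le_n a
  have hnq : Fil.n a ≤ Fil.q := Fil.n_le a
  have hnk : k ≤ Fil.n a * k := Nat.le_mul_of_pos_left k hn1
  have hnk' : (k : ℝ) ≤ ((Fil.n a * k : ℕ) : ℝ) := by exact_mod_cast hnk
  have hpow : ((Fil.n a * k : ℕ) : ℝ) ^ (-(9 / 4 * b)) ≤ (k : ℝ) ^ (-(9 / 4 * b)) :=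
    Real.rpow_le_rpow_of_nonpos hkp hnk' (by linarith)
  have hcut : NUO.cut (Fil.n a * k + 1) b t ≤ (Fil.q : ℕ) * NUO.cut (k + 1 + Ends.e) b t := by
    unfold NUO.cut
    have e0 := Real.exp_pos (-(2 * b) * |t|)
    have h5 : ((Fil.n a * k + 1 : ℕ) : ℝ) ≤ (Fil.q : ℕ) * ((k + 1 + Ends.e : ℕ) : ℝ) := by
      have h6 : Fil.n a * k + 1 ≤ Fil.q * (k + 1 + Ends.e) := by
        have h7 : Fil.n a * k ≤ Fil.q * k := Nat.mul_le_mul_right k hnq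
        have h8 : Fil.q * (k + 1 + Ends.e) = Fil.q * k + Fil.q * (1 + Ends.e) := by ring
        have h9 : 1 ≤ Fil.q * (1 + Ends.e) := Nat.mul_pos Fil.one_le_q (by omega)
        omega
      exact_mod_cast h6
    rcases le_total (1 : ℝ) (((k + 1 + Ends.e : ℕ) : ℝ) * Real.exp (-(2 * b) * |t|)) with h | h
    · rw [min_eq_left h, mul_one]
      exact (min_le_left _ _).trans hq1
    · rw [min_eq_right h, ← mul_assoc]
      exact (min_le_right _ _).trans (mul_le_mul_of_nonneg_right h5 e0.le)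
  have hAg : Real.exp ((Fil.ne a (k + 1 + Ends.e) : ℕ) * NUMF.Ag (1 / 2) t) ≤
      A * Real.exp (((Fil.n a * k : ℕ) : ℝ) * NUMF.Ag (1 / 2) t) := by
    rw [ne_row ho, hAe, ← Real.exp_add, Real.exp_le_exp]
    have h5 := (abs_le.1 (PBO.PLX.Ag_bdd (a := 1 / 2) (by norm_num [abs_of_pos]) t)).2
    have h6 := PBC.Ag_half_nn t
    have h7 : ((Fil.n a : ℕ) : ℝ) ≤ (Fil.q : ℕ) := by exact_mod_cast hnq
    have h8 : (0 : ℝ) ≤ (Ends.e : ℕ) := Nat.cast_nonneg _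
    have h9 : (((Fil.n a : ℕ) : ℝ) + (Ends.e : ℕ)) * NUMF.Ag (1 / 2) t ≤
        ((Fil.q : ℕ) + (Ends.e : ℕ)) * PBO.PLX.cA :=
      mul_le_mul (by linarith) h5 h6 (by positivity)
    push_cast
    linarith
  have hM0 := MT_nonneg hK.le b k η a t
  calc _ ≤ (A * Real.exp (((Fil.n a * k : ℕ) : ℝ) * NUMF.Ag (1 / 2) t)) * (E * MT K b k η a t) :=
        mul_le_mul_of_nonneg_right hAg (mul_nonneg hE0 hM0)
    _ = E * A * (Real.exp (((Fil.n a * k : ℕ) : ℝ) * NUMF.Ag (1 / 2) t) * MT K b k η a t) := by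
        ring
    _ ≤ ((k : ℝ) + 1) ^ 2 * A * (K * (k : ℝ) ^ (-(9 / 4 * b)) *
          ((Fil.q : ℕ) * NUO.cut (k + 1 + Ends.e) b t)) := by
        refine mul_le_mul (mul_le_mul_of_nonneg_right hE hA0.le) (h4.trans ?_)
          (mul_nonneg (Real.exp_pos _).le hM0) (by positivity)
        refine mul_le_mul (mul_le_mul_of_nonneg_left hpow hK.le) hcut (NUO.cut_nonneg _ _ _)
          (mul_nonneg hK.le (Real.rpow_nonneg hkp.le _))
    _ = ((k : ℝ) + 1) ^ 2 * (A * (K * (Fil.q : ℕ)) * (k : ℝ) ^ (-(9 / 4 * b))) *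
          NUO.cut (k + 1 + Ends.e) b t := by ring
    _ ≤ 1 * NUO.cut (k + 1 + Ends.e) b t := mul_le_mul_of_nonneg_right h3 hc0

/-- **all data of the cut term**: `Zc` relative to `Z`, and the moved cut of `T` against the clouds of
`m = k + 1 + e` rows -/
theorem cut_data6 (ho : Ends.o = 0) {C0 : ℝ} (hC0 : 1 ≤ C0) {ep : ℝ} (hep : 0 < ep)
    (hep1 : ep ≤ 1 / 100) : ∃ Cc K : ℝ, 0 < Cc ∧ 0 < K ∧
    ∃ k0 : ℕ, 1 ≤ k0 ∧ ∀ k : ℕ, k0 ≤ k → ∀ η : ℝ, |η| ≤ 1 → ∀ X : ℂ → ℂ, FlX6 k C0 X (xe k η) →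
    ∀ z : ℂ, -(9 / 10 * l) ≤ z.re → z.re < 31 / 10 * l →
    ∀ T1 : ℝ, 3 / 8 * Real.log ((k + 1 : ℕ) : ℝ) + tauF ≤ T1 →
    (∀ cc : Bool → ℂ, (∀ a, ‖cc a‖ = 2 * Real.cos l) →
      (∀ x0 : ℝ, 51 / 100 * l ≤ x0 → x0 ≤ 19 / 20 * l →
        CutZ6 (ZL6 cc (fun a => gO T1 [] (rwq (mu1 k ((η : ℂ) * I)) a)) k (4 / 3 * (1 - ep))
          ((η : ℂ) * I) z) (ZcL6 cc k (4 / 3 * (1 - ep)) η z T1 X)
        (obL6 T1 k (4 / 3 * (1 - ep)) ((η : ℂ) * I) z) par6 ep (2 * (4 / 3 * (1 - ep)))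
        x0 (-Fil.xn (k + 1)) (Set.range fun i => (mu1 k ((η : ℂ) * I) i).im)
        (Cc / (k : ℝ) ^ 3) (MT K (4 / 3 * (1 - ep)) k η)) ∧
      ZcOk6 (ZL6 cc (fun a => gO T1 [] (rwq (mu1 k ((η : ℂ) * I)) a)) k (4 / 3 * (1 - ep))
          ((η : ℂ) * I) z) (ZcL6 cc k (4 / 3 * (1 - ep)) η z T1 X) par6
        (2 * (4 / 3 * (1 - ep))) (ep / 4) (Cc / (k : ℝ) ^ 3) (-(Fil.xn (k + 1) : ℤ))) ∧
    ∀ E : ℝ, 0 ≤ E → E ≤ ((k : ℝ) + 1) ^ 2 → ∀ (a : Bool) (t : ℝ),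
      Real.exp ((Fil.ne a (k + 1 + Ends.e) : ℕ) * NUMF.Ag (1 / 2) t) *
        (E * MT K (4 / 3 * (1 - ep)) k η a t) ≤
        1 * NUO.cut (k + 1 + Ends.e) (4 / 3 * (1 - ep)) t := by
  have hl := Bd.l_pos
  obtain ⟨Cc, K, N0, hCc, hK, HC⟩ := cutH6_R0 hep hep1 hC0
  set b := 4 / 3 * (1 - ep) with hb
  have hb1 : b ≤ 4 / 3 := by rw [hb]; linarith
  have hb2 : 10 / 9 ≤ b := by rw [hb]; linarith
  obtain ⟨N2, hN2, h2⟩ := MT_cut6 ho hK hb1 hb2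
  refine ⟨Cc, K, hCc, hK, max N0 N2, hN2.trans (le_max_right _ _),
    fun k hk η hη X hF z z1 z2 T1 hT1 => ?_⟩
  simp only [max_le_iff] at hk
  obtain ⟨k1, k3⟩ := hk
  have htau : ∀ a : Bool, tau0 2 ((Fil.n a : ℕ) : ℝ) ≤ tauF := by
    intro a
    have h3 : ((Fil.n a : ℕ) : ℝ) ≤ (Fil.q : ℕ) + (2 : ℕ) := by
      have h5 : ((Fil.n a : ℕ) : ℝ) ≤ (Fil.q : ℕ) := by exact_mod_cast Fil.n_le a
      push_cast
      linarith
    unfold PBU.PLX.tauF tau0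
    have h7 := PHK.cL_ge (h0 := 2) (Nat.cast_nonneg (Fil.n a) : (0 : ℝ) ≤ _)
    have h6 : PHK.cL 2 (Fil.n a : ℕ) ≤ PHK.cL 2 ((Fil.q : ℕ) + (2 : ℕ)) := by
      unfold PHK.cL
      have h9 := Real.exp_pos (8 / 3 * (2 : ℝ))
      have h10 := mul_le_mul_of_nonneg_left h3 (by positivity : (0 : ℝ) ≤ 8 * Real.exp (8 / 3 * 2))
      exact add_le_add_left h10 2
    have h8 : Real.log (5 * PHK.cL 2 (Fil.n a : ℕ)) ≤
        Real.log (5 * PHK.cL 2 ((Fil.q : ℕ) + (2 : ℕ))) :=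
      Real.log_le_log (by linarith) (by linarith)
    exact mul_le_mul_of_nonneg_left h8 (by norm_num)
  have hCH := HC k k1 η hη X hF T1 fun a => by
    have := htau a
    linarith
  obtain ⟨D, hD⟩ : ∃ D : Bool → ℝ, D = fun a =>
    K * ((Fil.n a * k : ℕ) : ℝ) ^ (-(9 / 4 * b)) * (Fil.n a * k : ℕ) := ⟨_, rfl⟩
  have hD0 : ∀ a, 0 ≤ D a := fun a => by
    rw [hD]
    exact mul_nonneg (mul_nonneg hK.le (Real.rpow_nonneg (Nat.cast_nonneg _) _))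
      (Nat.cast_nonneg _)
  refine ⟨fun cc hcc => ⟨fun x0 hx0 hx0' => ?_, ?_⟩, fun E hE hE1 a t => h2 k k3 E hE hE1 η a t⟩
  · exact cutZ6_L hep hep1 hη hF hCH z1 (by linarith) hcc hx0 hx0' par6_good
      (by norm_num [par6])
  · refine zcOk6_L (D0 := D true + D false) hep hep1 hη hF hCH (fun a t => ?_) z1 z2 par6_good
      (by norm_num [par6])
    have h3 := MT_dec hK.le hb1 k η a t
    have h4 : D a ≤ D true + D false := by
      cases a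
      · linarith [hD0 true]
      · linarith [hD0 false]
    have h5 : K * ((Fil.n a * k : ℕ) : ℝ) ^ (-(9 / 4 * b)) * (Fil.n a * k : ℕ) = D a := by
      rw [hD]
    rw [h5] at h3
    exact h3.trans (mul_le_mul_of_nonneg_right h4 (Real.exp_pos _).le)

end PBC.PLX

end
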