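import Pool.Agent.PHK.CutBd6
import Pool.Agent.PHK.CutEps6
import Pool.Agent.PHK.ZcC6
import Pool.Agent.PHK.CutAllP6
import Pool.Agent.PHK.RepZ6

/-!
# (P): the cut term of the first Ward identity at the rows `i η, 0, …, 0`

**`cutAll6`**: `‖Pf ∑ n, F0D n Z Zcut‖ ≤ (k + 1) ^ (- 2 + d) exp (2 |Im z|)` for the family `ZR6` of
`PHK/ZFamR6` (`CutAll6` of `PHK/CutAllP6`), from the class formula `ClsB6` and the stability.
-/

set_option autoImplicit false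
set_option maxHeartbeats 1000000
set_option linter.unusedSectionVars false

noncomputable section

open Complex MeasureTheory Finset
open scoped ENNReal Classical
open PLX (Fil)

namespace PBI.PLX

open NUP1 hiding Kd
open NUO NUP1S NUP1S.Ab NUP1S.AbC PB PHK
open PBX (ph)
open PBL.PLX (mu1)
open PBZF (Lz)
open PBZF.PLX (ZR6 ZdR6 ZpR6 vE)
open PBF.PLX (Crs MCr dN mcr_const curZ_crs curZ_cont curZ_cont' FE6 FA_eq_FE6)
open PBT.PLX (crL crL' pL)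
open PBU.PLX (T1L tauF)
open Pool.Agent.PB (Pf)
open Pool.Agent.PLX (rwq yq GF6 PhI6)

attribute [local instance] NUSea.seaP _root_.PLX.ends0

variable [Fil]

/-- **the cut term of the first Ward identity** -/
theorem cutAll6 (hC : ClsB6) (hSt : StabE par6 fun _ O => enC6 par6 O) : CutAll6 := by
  intro d hd
  obtain ⟨C0, hC0, HX⟩ := PBC.PLX.flX6_xiR
  obtain ⟨a0, ha0, HT⟩ := PBT.PLX.cutSup6_M (τ := tauF) (CM := 1) (δ := d / 2) rfl hSt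
    (PBU.PLX.tauL6_eq rfl).le zero_le_one (by linarith)
  refine ⟨a0, ha0, fun ep hep hep1 e1 he he1 J hJ hsm => ?_⟩
  obtain ⟨mt, HT⟩ := HT ep hep hep1 e1 he he1 J hJ hsm
  obtain ⟨Cc, Kz, hCc, hKz, k0, hk0, HD⟩ := PBC.PLX.cut_data6 rfl hC0 hep hep1
  obtain ⟨mc, -, Hcur⟩ := curZ_crs he he1 hJ hep
  obtain ⟨m2, hm2⟩ := PHK.phI6_mu1
  have t1 : Filter.Tendsto (fun m : ℕ => (m : ℝ) ^ (d / 2)) Filter.atTop Filter.atTop :=
    (tendsto_rpow_atTop (by positivity : 0 < d / 2)).comp tendsto_natCast_atTop_atTop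
  obtain ⟨mx, hmx⟩ := Filter.eventually_atTop.1 (t1.eventually_ge_atTop (8 * Cc))
  refine ⟨max (max mt k0) (max mx (max mc m2)), fun k hk η0 hη0 z hz z3 cc hcc v hv X hX => ?_⟩
  have k1 : mt ≤ k := (le_max_left _ _).trans ((le_max_left _ _).trans hk)
  have k2 : k0 ≤ k := (le_max_right _ _).trans ((le_max_left _ _).trans hk)
  have k3 : mx ≤ k + 1 := ((le_max_left _ _).trans ((le_max_right _ _).trans hk)).trans
    (Nat.le_succ k)
  have k5 : mc ≤ k + 1 := ((le_max_left _ _).trans ((le_max_right _ _).trans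
    ((le_max_right _ _).trans hk))).trans (Nat.le_succ k)
  have k6 : m2 ≤ k + 1 := ((le_max_right _ _).trans ((le_max_right _ _).trans
    ((le_max_right _ _).trans hk))).trans (Nat.le_succ k)
  have k4 : 1 ≤ k := hk0.trans k2
  have hl := NUMF.l_pos
  have hlN : NUP1.l = NUMF.l := rfl
  have hl' := Bd.l_pos
  have hkp : (0 : ℝ) < (k : ℝ) := by exact_mod_cast k4
  have hk1 : (1 : ℝ) ≤ (k : ℝ) := by exact_mod_cast k4
  have ek : ((k + 1 : ℕ) : ℝ) = (k : ℝ) + 1 := by push_cast; ring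
  have hmp : (0 : ℝ) < ((k + 1 : ℕ) : ℝ) := by positivity
  have hm1 : (1 : ℝ) ≤ ((k + 1 : ℕ) : ℝ) := by rw [ek]; linarith
  obtain ⟨E, hE⟩ : ∃ E : ℝ, E = ((k + 1 : ℕ) : ℝ) ^ (2 - d / 2) := ⟨_, rfl⟩
  have hE0 : 0 < E := by rw [hE]; exact Real.rpow_pos_of_pos hmp _
  have hE2 : E ≤ ((k : ℝ) + 1) ^ 2 := by
    rw [hE, ← ek, ← Real.rpow_natCast]
    exact Real.rpow_le_rpow_of_exponent_le hm1 (by push_cast; linarith)
  have hEd : E * ((k + 1 : ℕ) : ℝ) ^ (d / 2) = ((k + 1 : ℕ) : ℝ) ^ 2 := by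
    rw [hE, ← Real.rpow_add hmp, ← Real.rpow_natCast]
    congr 1
    push_cast
    ring
  have hδ0 : 0 ≤ E * (Cc / (k : ℝ) ^ 3) := by positivity
  have hδ1 : E * (Cc / (k : ℝ) ^ 3) ≤ 1 / ((k + 1 : ℕ) : ℝ) := by
    have h1 := hmx (k + 1) k3
    have h2 : ((k + 1 : ℕ) : ℝ) ^ 3 ≤ 8 * (k : ℝ) ^ 3 := by
      have h3 : ((k + 1 : ℕ) : ℝ) ≤ 2 * k := by rw [ek]; linarith
      calc ((k + 1 : ℕ) : ℝ) ^ 3 ≤ (2 * (k : ℝ)) ^ 3 := pow_le_pow_left₀ hmp.le h3 3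
        _ = 8 * (k : ℝ) ^ 3 := by ring
    have h4 : E * (8 * Cc) ≤ ((k + 1 : ℕ) : ℝ) ^ 2 := by
      rw [← hEd]
      exact mul_le_mul_of_nonneg_left h1 hE0.le
    rw [mul_div_assoc', div_le_div_iff₀ (by positivity) hmp]
    have h5 : E * (8 * Cc) * ((k + 1 : ℕ) : ℝ) ≤ ((k + 1 : ℕ) : ℝ) ^ 2 * ((k + 1 : ℕ) : ℝ) :=
      mul_le_mul_of_nonneg_right h4 hmp.le
    have h6 : ((k + 1 : ℕ) : ℝ) ^ 2 * ((k + 1 : ℕ) : ℝ) = ((k + 1 : ℕ) : ℝ) ^ 3 := by ring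
    linarith
  have hδ2 : E * (Cc / (k : ℝ) ^ 3) ≤ 1 / 2 := hδ1.trans (by
    rw [ek]
    exact one_div_le_one_div_of_le (by norm_num) (by linarith))
  obtain ⟨z1, z2⟩ := id hz
  have z2a : z.re < 31 / 10 * NUP1.l := by linarith
  have hre : |((η0 : ℂ) * I).re| ≤ NUMF.l / 10 := by
    simp
    positivity
  have hre' : |((η0 : ℂ) * I).re| ≤ NUP1.l / 2 := by
    simp
    positivity
  have him : |((η0 : ℂ) * I).im| ≤ 2 := by
    have : ((η0 : ℂ) * I).im = η0 := by simp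
    rw [this]
    linarith
  have hFX : PBC.PLX.FlX6 k C0 X (PBFar.xe k η0) := by rw [hX]; exact HX k k4 η0 hη0
  obtain ⟨b, hb⟩ : ∃ b : ℝ, b = 4 / 3 * (1 - ep) := ⟨_, rfl⟩
  have hb0 : 0 < b := by rw [hb]; linarith
  have hb1 : b ≤ 4 / 3 := by rw [hb]; linarith
  have hb2 : 1 ≤ b := by rw [hb]; linarith
  obtain ⟨T1, hT1⟩ : ∃ T1 : ℝ, T1 = T1L (k + 1) := ⟨_, rfl⟩
  have hT1' : T1 = Tb (Real.log ((k + 1 : ℕ) : ℝ)) + tauF := hT1
  have hT1a : 3 / 8 * Real.log ((k + 1 : ℕ) : ℝ) + tauF ≤ T1 := by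
    rw [hT1']
    exact le_of_eq rfl
  obtain ⟨hD1, hD2⟩ := HD k k2 η0 hη0 X hFX z z1 z2a T1 hT1a
  obtain ⟨hcut, hzc⟩ := hD1 cc hcc
  have hcut := hcut (51 / 100 * NUP1.l) le_rfl (by linarith)
  have hact := hD2 E hE0.le hE2
  rw [← hb] at hcut hzc hact ⊢
  rw [← hT1]
  obtain ⟨ZL, hZL⟩ : ∃ ZL : Stt, ZL = ZL6 cc (fun a => gO T1 [] (rwq (mu1 k ((η0 : ℂ) * I)) a)) k b
    ((η0 : ℂ) * I) z := ⟨_, rfl⟩
  have hZR : ZR6 cc b k z η0 v T1 X η0 = ZL := by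
    rw [hZL, PBZF.PLX.ZR6_at]
    rfl
  obtain ⟨Zd, hZd⟩ : ∃ Zd : Stt, Zd = Zcut (ZR6 cc b k z η0 v T1 X η0) (ZdR6 cc b k z η0 v T1 X η0)
    (ZpR6 cc b k z η0 v T1 X) (PBQ1.xiK (PBZF.rwx k (η0 : ℂ)) 0)
          (PBQ1.krK2 (PBZF.rwx k (η0 : ℂ))) (PBQ1.r1K2 (PBZF.rwx k (η0 : ℂ)) 0)
          (PBQ1.lamK z) := ⟨_, rfl⟩
  rw [← hZd, hZR]
  -- the class of the functions
  have hex : ∀ _ : Bool, ∀ w ∈ ([I, -I] : List ℂ), |w.re| ≤ NUP1.l / 2 := fun _ w hw => by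
    rw [List.mem_cons, List.mem_singleton] at hw
    rcases hw with rfl | rfl
    · rw [Complex.I_re, abs_zero]
      positivity
    · rw [Complex.neg_re, Complex.I_re, neg_zero, abs_zero]
      positivity
  have hg6 : ∀ a, GF6 (rwq (mu1 k ((η0 : ℂ) * I)) a) (gO T1 [] (rwq (mu1 k ((η0 : ℂ) * I)) a)) :=
    fun a => PHK.gF6_L hre' T1 a
  have hcl : ClZ6 ZL par6 (3 / 5 * NUP1.l) (2 * b) (2 * b) (ep / 4) (-(Fil.xn (k + 1) : ℤ)) := by
    rw [hZL]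
    have h := clZ6_Q (c := cc) (g0 := fun a => gO T1 [] (rwq (mu1 k ((η0 : ℂ) * I)) a))
      (ex := fun _ => [I, -I]) (z := z) (β := b) par6_good
      Pool.Agent.PLX.hI6_par6 (by norm_num [par6]) hep hep1 hb0 hb1
      (PBT.PLX.rws_mu1 k hre') hex hg6 (hm2 k k6 _ hb0 hb1 _ hre' him)
      (mul_pos two_pos NUO.cos_l_pos) hcc z1 (by linarith) (3 / 5 * NUP1.l)
    exact h
  have hone : OneC6 ZL (obL6 T1 k b ((η0 : ℂ) * I) z) par6 ep (2 * b) (51 / 100 * NUP1.l)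
      (-Fil.xn (k + 1)) (Set.range fun i => (mu1 k ((η0 : ℂ) * I) i).im) := by
    rw [hZL]
    exact oneC6_L hep hep1 hb0 hb1 hre' hcc (fun a => (hg6 a).gn.meas)
      (fun a => PHK.ph_gO_fun T1 [] _) z1 (by linarith)
  rw [← hZL] at hcut hzc
  have hS : StP (ep / 4) par6 := par6_good.stP (by positivity) (by linarith) (by
    show 7 / 8 + ep / 4 < 1
    linarith)
  have hcr : ∀ r (O : Fin r → Xo), CrvR6 (ep / 4) (crL e1 J (k + 1) r O) (crL' e1 J (k + 1) r O) :=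
    fun r O => crvR6_of (Hcur (k + 1) k5 r O)
  have hQn : ∀ n : ℕ, (n : ℤ) - ((n + Fil.xn (k + 1) : ℕ) : ℤ) = -(Fil.xn (k + 1) : ℤ) := fun n => by
    push_cast
    ring
  have hI : ∀ n : ℕ, InsQ6 (PBI.PLX.fl (pL (k + 1))) par6 (3 / 5 * NUP1.l) (2 * b) (2 * b) (ep / 4)
      (-(Fil.xn (k + 1) : ℤ)) n (n + Fil.xn (k + 1)) (crL e1 J (k + 1)) (crL' e1 J (k + 1)) := by
    intro n
    refine insQ6_fl (PBRep.PLX.parP_par0 (k + 1)) par6_good (by norm_num [par6]) (by norm_num [par6])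
      (by norm_num [par6]) hS (mcr_const (curZ_cont e1 J (k + 1) (k + 1 : ℕ)).measurable
        (curZ_cont' e1 J (k + 1) (k + 1 : ℕ)).measurable) (fun r _ O => hcr r O) (by linarith)
      (hQn n) fun Z hZ => ?_
    exact hC Z _ _ _ _ n (n + Fil.xn (k + 1)) _ _ (by linarith) hS (hQn n)
      (fun r _ O => hcr r O) hZ
  have hP : NUGC.PLX.ParC (pL (k + 1)) := PBF.PLX.parZ_parC (k + 1)
  have hFd : PBZF.PLX.FdX X := by rw [hX]; exact PBZF.PLX.fdX_xiR k4 hη0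
  obtain ⟨Dz, -, hZF⟩ := PBZF.PLX.exists_zfam6_P cc k η0 v T1 hFd hb0 hb1 hz
  have hok : ∀ n ∈ range (2 * (k + 1) + 1), AllW (3 / 5 * NUP1.l) n (n + Fil.xn (k + 1))
      (PBI.PLX.fl (pL (k + 1))) fun c x => LnOk c x := fun n _ => (hZF _ hP n _ rfl).hok
  have hline : ∀ n ∈ range (2 * (k + 1) + 1),
      AllW (3 / 5 * NUP1.l) n (n + Fil.xn (k + 1)) (PBI.PLX.fl (pL (k + 1))) fun c x => ∀ i, ∀ t : ℝ,
        Zd (c i).1 (c i).2 (NUP1.vl (x i) t) =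
          PBC.PLX.ZcL6 cc k b η0 z T1 X (c i).1 (c i).2 (NUP1.vl (x i) t) := by
    intro n _
    have h1 := PBZF.PLX.zcut6_K (a := k) (b := b) (z0 := z) cc hb2 hb1 hz η0 (PBFar.xe k η0) T1
      (by rw [← hX]; exact hFd) (α := 3 / 5 * NUP1.l) le_rfl (by linarith)
      (L := PBI.PLX.fl (pL (k + 1))) (NURow.LnH_P hP.goodP hP.j1 hP.j2 fun r => by
          have h3 := hP.e2 r
          have h4 := hP.d0 r
          linarith) n (n + Fil.xn (k + 1))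
    rw [← hX, hb, ← hv, ← hb, ← hZd] at h1
    exact h1
  have key := cut_le6 (S := range (2 * (k + 1) + 1)) (d := Fil.xn (k + 1))
    (Pf := Pf z (PBZF.rwx k (η0 : ℂ)) (yq (PBZF.rwx k (η0 : ℂ)))) (fun n _ => hI n) hok (by linarith)
    hcl hzc (by positivity) hline hE0 hδ2
    (B := ((k + 1 : ℕ) : ℝ) ^ (d / 2) * Real.exp (2 * |z.im|)) (by positivity) ?_
  · refine key.trans (le_of_eq ?_)
    rw [hE, div_eq_mul_inv, ← Real.rpow_neg hmp.le, mul_right_comm, ← Real.rpow_add hmp]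
    congr 2
    ring
  intro ε hε
  have hone2 := hone.eps hcut par6_good (ε := ε) (δ := E * (Cc / (k : ℝ) ^ 3)) hδ0
    (by linarith) (by rw [hε]) (M' := fun a t => E * PBC.PLX.MT Kz b k η0 a t)
    (fun s t => by rw [hε])
  have h1 := HT k k1 (k + 1) rfl ((η0 : ℂ) * I) z hre him z1 (by linarith) z3 _ _ _ _ _ _ _ _ hδ0 hδ1
    (rE6_RE hδ0) (fun a t => mul_nonneg hE0.le (hcut.M0 a t))
    (fun a t => by rw [← hb]; exact hact a t) (by rw [← hb, ← hT1']; exact hone2)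
  refine le_trans (le_of_eq ?_) h1
  rw [Finset.mul_sum]
  refine Finset.sum_congr rfl fun n _ => ?_
  rw [FA_eq_FE6, ofReal_norm]
  simp only [enorm_one]
  rfl

end PBI.PLX

end
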