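import Pool.Agent.PHK.H0.DatC
import Pool.Agent.PLX.NUBR.Z1C
import Pool.Agent.PLX.PB.Z1S

/-!
# The positive gas of a configuration of (P), with a statistic inside

As `PLX/NUBR/Z1C`, `PLX/PB/Z1S` for the kinds `Kd6`; the quanta of the species `a` are on the curve
`Fil.cv a η`.

* `qA6_nonneg`, `qA6_le_inp`;
* `Z1S6 B P η η' O p q Ψ = (p! q!)⁻¹ ∫ WO * Ψ`: `Z1S6_one`, `Z1S6_mono`, `Z1S6_const`, `Z1S6_le_const`,
  `Z1S6_le_W0`, **`Z1S6_le_inp`**.
-/

set_option autoImplicit false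
set_option linter.unusedSectionVars false

noncomputable section

open MeasureTheory Finset
open scoped ENNReal
open PLX (Fil)

namespace NUBR.PLX

open NUO NU42 NUGC NUGC.PLX PHK

theorem prod_potN6_nonneg (P : Par6) {r : ℕ} (O : Fin r → Xo) (s : Bool) (u : ℂ) :
    0 ≤ ∏ i, potN6 P O i s u := Finset.prod_nonneg fun _ _ => potN6_nonneg _ _ _ _ _

theorem qA6_nonneg [Fil] {B : OB} (hB : B.Nn) (P : Par6) (η : ℝ → ℝ) {r : ℕ} (O : Fin r → Xo)
    (a : Bool) (t : ℝ) : 0 ≤ qA6 B P η O a t := by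
  have h1 := hB a (NUO.pA (Fil.cv a η) t)
  have h2 := prod_potN6_nonneg P O a (NUO.pA (Fil.cv a η) t)
  have := Real.pi_pos
  unfold qA6
  positivity

/-- the one body factor of a configuration on the curve -/
theorem qA6_le_inp [NUSea.Sea] [Fil] {B : OB} {I : NUSea.PLX.H0.Inp} {P : Par6} {δ : ℝ}
    (hP : PG6 δ P) {η : ℝ → ℝ} {a : Bool} (hI : I.η a = Fil.cv a η)
    (hη : ∀ t, |I.η a t| < δ * NUMF.l) {r : ℕ} (O : Fin r → Xo) {t κ e cf : ℝ}
    (h : B.R a (NUO.pA (I.η a) t) * ‖B.φ a (NUO.pA (I.η a) t)‖ ≤ 2 * Real.cos NUP1.l * Real.exp κ *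
      (Real.exp ((NUSea.PLX.vb I.s a (NUAct.zt (NUKer.iD (I.η a)) t)).re +
        (I.A a (NUAct.zt (NUKer.iD (I.η a)) t)).re + e) * cf)) :
    qA6 B P η O a t ≤ NUMFC.act * Real.exp κ *
      (Real.exp ((NUSea.PLX.vb I.s a (NUAct.zt (NUKer.iD (I.η a)) t)).re +
        (NUSea.PLX.H0.FA6 I P O a (NUAct.zt (NUKer.iD (I.η a)) t)).re + e) * cf) := by
  have h1 : ∏ i, potN6 P O i a (NUO.pA (I.η a) t) =
      Real.exp (FO6 P O a (NUAct.zt (NUKer.iD (I.η a)) t)).re := prod_potN6 O hP a (hη t)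
  have hpi := Real.pi_pos
  set w := NUAct.zt (NUKer.iD (I.η a)) t
  have h2 : (NUSea.PLX.H0.FA6 I P O a w).re = (FO6 P O a w).re + (I.A a w).re := by
    unfold NUSea.PLX.H0.FA6
    rw [Complex.add_re]
  unfold qA6
  rw [← hI, h1, h2, ← act_cos]
  calc (2 * Real.pi)⁻¹ * (B.R a (NUO.pA (I.η a) t) * ‖B.φ a (NUO.pA (I.η a) t)‖) *
        Real.exp (FO6 P O a w).re ≤ (2 * Real.pi)⁻¹ * (2 * Real.cos NUP1.l * Real.exp κ *
          (Real.exp ((NUSea.PLX.vb I.s a w).re + (I.A a w).re + e) * cf)) *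
        Real.exp (FO6 P O a w).re := by gcongr
    _ = _ := by
        rw [show (NUSea.PLX.vb I.s a w).re + ((FO6 P O a w).re + (I.A a w).re) + e =
          ((NUSea.PLX.vb I.s a w).re + (I.A a w).re + e) + (FO6 P O a w).re by ring, Real.exp_add
            ((NUSea.PLX.vb I.s a w).re + (I.A a w).re + e)]
        ring

end NUBR.PLX

namespace PBZ.PLX

open NUO NU42 NUGC NUGC.PLX NUBR NUBR.PLX PHK

variable [Fil]

/-- **the positive gas of `p` quanta X and `q` quanta Y on their curves with a statistic `Ψ`** -/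
def Z1S6 (B : OB) (P : Par6) (η η' : ℝ → ℝ) {r : ℕ} (O : Fin r → Xo) (p q : ℕ)
    (Ψ : (Fin p → ℝ) × (Fin q → ℝ) → ℝ≥0∞) : ℝ≥0∞ :=
  ((p.factorial : ℝ≥0∞) * q.factorial)⁻¹ * ∫⁻ x : (Fin p → ℝ) × (Fin q → ℝ),
    ENNReal.ofReal (NU42.WO (dA (Fil.cv true η)) (dA (Fil.cv true η')) (dA (Fil.cv false η))
      (dA (Fil.cv false η')) (qA6 B P η O true)
      (qA6 B P η O false) x.1 x.2) * Ψ x

section basic

variable {B : OB} {P : Par6} {η η' : ℝ → ℝ} {r : ℕ} {O : Fin r → Xo} {p q : ℕ}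

theorem Z1S6_one : Z1S6 B P η η' O p q (fun _ => 1) = Z1c6 B P η η' O p q := by
  unfold Z1S6 Z1c6
  simp only [mul_one]

theorem Z1S6_mono {Ψ Ψ' : (Fin p → ℝ) × (Fin q → ℝ) → ℝ≥0∞} (h : ∀ x, Ψ x ≤ Ψ' x) :
    Z1S6 B P η η' O p q Ψ ≤ Z1S6 B P η η' O p q Ψ' := by
  unfold Z1S6
  exact mul_le_mul_right (lintegral_mono fun x => mul_le_mul_right (h x) _) _

theorem Z1S6_const {c : ℝ≥0∞} (hc : c ≠ ⊤) :
    Z1S6 B P η η' O p q (fun _ => c) = c * Z1c6 B P η η' O p q := by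
  unfold Z1S6 Z1c6
  rw [lintegral_mul_const' _ _ hc]
  ring

theorem Z1S6_le_const {Ψ : (Fin p → ℝ) × (Fin q → ℝ) → ℝ≥0∞} {c : ℝ≥0∞} (hc : c ≠ ⊤)
    (h : ∀ x, Ψ x ≤ c) : Z1S6 B P η η' O p q Ψ ≤ c * Z1c6 B P η η' O p q :=
  (Z1S6_mono h).trans (Z1S6_const hc).le

end basic

/-- **from `W0` to `Z1S`**: `X` the data of the sea, one body factors dominated up to constants -/
theorem Z1S6_le_W0 [NUSea.Sea] {B : OB} (hB : B.Nn) {P : Par6} {η η' : ℝ → ℝ} {r : ℕ}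
    {O : Fin r → Xo} {p n : ℕ} {X : NUSea.PLX.H0.Dat} {aX aY cf : ℝ → ℝ} {cX cY E : ℝ} {s : Bool → ℝ}
    {Ψ : (Fin p → ℝ) × (Fin n → ℝ) → ℝ≥0∞} {Y : ℝ≥0∞}
    (hD : ∀ a, X.D a = dA (Fil.cv a η)) (hD1 : ∀ a, X.D1 a = dA (Fil.cv a η'))
    (hX : ∀ t, qA6 B P η O true t ≤ NUMFC.act * Real.exp cX * (aX t * cf t))
    (hY : ∀ t, qA6 B P η O false t ≤ NUMFC.act * Real.exp cY * (aY t * cf t))
    (h : ∫⁻ x, ENNReal.ofReal (NUSea.PLX.H0.W0 X p n aX aY cf x) * Ψ x ≤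
      ENNReal.ofReal ((p.factorial : ℝ) * n.factorial * Real.exp (NUSea.PLX.MFs s p n + E)) * Y) :
    Z1S6 B P η η' O p n Ψ ≤ ENNReal.ofReal (Real.exp (NUSea.PLX.MF s + E + cX * p + cY * n)) * Y := by
  have hact := NUMFC.act_pos
  have hc : 0 ≤ (NUMFC.act * Real.exp cX) ^ p * (NUMFC.act * Real.exp cY) ^ n := by positivity
  have h1 : ∀ x : (Fin p → ℝ) × (Fin n → ℝ),
      ENNReal.ofReal (WO (dA (Fil.cv true η)) (dA (Fil.cv true η')) (dA (Fil.cv false η))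
        (dA (Fil.cv false η')) (qA6 B P η O true) (qA6 B P η O false)
        x.1 x.2) * Ψ x ≤
        ENNReal.ofReal ((NUMFC.act * Real.exp cX) ^ p * (NUMFC.act * Real.exp cY) ^ n) *
        (ENNReal.ofReal (NUSea.PLX.H0.W0 X p n aX aY cf x) * Ψ x) := by
    intro x
    rw [← mul_assoc, ← ENNReal.ofReal_mul hc]
    refine mul_le_mul_left (ENNReal.ofReal_le_ofReal ?_) _
    unfold NUSea.PLX.H0.W0
    rw [hD, hD, hD1, hD1, ← WO_smul2]
    exact WO_mono _ _ _ _ (fun t => qA6_nonneg hB P η O true t)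
      (fun t => qA6_nonneg hB P η O false t) hX hY _ _
  have e1 : (NUMFC.act * Real.exp cX) ^ p * (NUMFC.act * Real.exp cY) ^ n *
      Real.exp (NUSea.PLX.MFs s p n + E) = Real.exp (NUSea.PLX.MF s + E + cX * p + cY * n) := by
    have e2 : NUMFC.act ^ (p + n) * Real.exp (NUSea.PLX.MFs s p n) = Real.exp (NUSea.PLX.MF s) :=
      NUSea.PLX.act_MFs s p n
    rw [show NUSea.PLX.MF s + E + cX * p + cY * n = NUSea.PLX.MF s + (E + (p * cX + n * cY)) by ring,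
      Real.exp_add, Real.exp_add, Real.exp_add, Real.exp_add, Real.exp_nat_mul, Real.exp_nat_mul,
      ← e2]
    ring
  unfold Z1S6
  calc ((p.factorial : ℝ≥0∞) * n.factorial)⁻¹ * ∫⁻ x : (Fin p → ℝ) × (Fin n → ℝ),
        ENNReal.ofReal (WO (dA (Fil.cv true η)) (dA (Fil.cv true η')) (dA (Fil.cv false η))
        (dA (Fil.cv false η')) (qA6 B P η O true) (qA6 B P η O false)
          x.1 x.2) * Ψ x ≤
      ((p.factorial : ℝ≥0∞) * n.factorial)⁻¹ * (ENNReal.ofReal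
        ((NUMFC.act * Real.exp cX) ^ p * (NUMFC.act * Real.exp cY) ^ n) *
        (ENNReal.ofReal ((p.factorial : ℝ) * n.factorial * Real.exp (NUSea.PLX.MFs s p n + E)) * Y)) := by
        refine mul_le_mul_right ?_ _
        refine (lintegral_mono h1).trans ?_
        rw [lintegral_const_mul' _ _ ENNReal.ofReal_ne_top]
        exact mul_le_mul_right h _
    _ = ENNReal.ofReal ((NUMFC.act * Real.exp cX) ^ p * (NUMFC.act * Real.exp cY) ^ n) *
        (((p.factorial : ℝ≥0∞) * n.factorial)⁻¹ *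
          ENNReal.ofReal ((p.factorial : ℝ) * n.factorial * Real.exp (NUSea.PLX.MFs s p n + E))) *
          Y := by
        ring
    _ = _ := by rw [fac_cancel p n hc e1]

/-- **from `W0` of the data of a configuration to `Z1S`**: `cc` the constants of the two species
(`cc = 0` for near groups), `e` a real exponent, `c` the tilt per quantum -/
theorem Z1S6_le_inp [NUSea.Sea] {B : OB} (hB : B.Nn) {I : NUSea.PLX.H0.Inp} {P : Par6} {δ : ℝ}
    (hP : PG6 δ P) {η η' : ℝ → ℝ} (hI : ∀ a, I.η a = Fil.cv a η) (hI1 : ∀ a, I.η1 a = Fil.cv a η')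
    (hη : ∀ a t, |I.η a t| < δ * NUMF.l) {r : ℕ} {O : Fin r → Xo} {p n : ℕ}
    {cc : Bool → ℝ} {e : Bool → ℝ → ℝ} {cf : ℝ → ℝ} {c E : ℝ}
    {Ψ : (Fin p → ℝ) × (Fin n → ℝ) → ℝ≥0∞} {Y : ℝ≥0∞}
    (h1 : ∀ a t, B.R a (NUO.pA (I.η a) t) * ‖B.φ a (NUO.pA (I.η a) t)‖ ≤
      2 * Real.cos NUP1.l * Real.exp (cc a) *
      (Real.exp ((NUSea.PLX.vb I.s a (NUAct.zt (NUKer.iD (I.η a)) t)).re +
        (I.A a (NUAct.zt (NUKer.iD (I.η a)) t)).re + e a t) * cf t))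
    (h : ∫⁻ x, ENNReal.ofReal (NUSea.PLX.H0.W0 (NUSea.PLX.H0.datO6 I P O) p n
        (aFe (NUSea.PLX.H0.datO6 I P O) (fun a t => e a t + c) true)
        (aFe (NUSea.PLX.H0.datO6 I P O) (fun a t => e a t + c) false) cf x) * Ψ x ≤
      ENNReal.ofReal ((p.factorial : ℝ) * n.factorial * Real.exp (NUSea.PLX.MFs I.s p n + E)) * Y) :
    ENNReal.ofReal (Real.exp (c * ((p : ℝ) + n))) * Z1S6 B P η η' O p n Ψ ≤
      ENNReal.ofReal (Real.exp (NUSea.PLX.MF I.s + E + cc true * p + cc false * n)) * Y := by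
  have key : ∀ a t, qA6 B P η O a t ≤ NUMFC.act * Real.exp (cc a - c) *
      (aFe (NUSea.PLX.H0.datO6 I P O) (fun a t => e a t + c) a t * cf t) := by
    intro a t
    refine qA6_le_inp (κ := cc a - c) (e := e a t + c) (cf := cf t) hP (hI a) (hη a) O ?_
    refine (h1 a t).trans (le_of_eq ?_)
    set w := NUAct.zt (NUKer.iD (I.η a)) t
    rw [show (NUSea.PLX.vb I.s a w).re + (I.A a w).re + (e a t + c) =
      ((NUSea.PLX.vb I.s a w).re + (I.A a w).re + e a t) + c by ring, Real.exp_add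
        ((NUSea.PLX.vb I.s a w).re + (I.A a w).re + e a t) c,
      show cc a = (cc a - c) + c by ring, Real.exp_add (cc a - c) c,
      show cc a - c + c - c = cc a - c by ring]
    ring
  have h2 := Z1S6_le_W0 (cX := cc true - c) (cY := cc false - c) hB
    (fun a => (NUSea.PLX.H0.datO6_D I P O a).trans (by rw [hI]; rfl))
    (fun a => (NUSea.PLX.H0.datO6_D1 I P O a).trans (by rw [hI1]; rfl)) (key true) (key false) h
  calc ENNReal.ofReal (Real.exp (c * ((p : ℝ) + n))) * Z1S6 B P η η' O p n Ψ ≤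
      ENNReal.ofReal (Real.exp (c * ((p : ℝ) + n))) * (ENNReal.ofReal (Real.exp (NUSea.PLX.MF I.s + E +
        (cc true - c) * p + (cc false - c) * n)) * Y) := by gcongr
    _ = _ := by
        rw [← mul_assoc, ← ENNReal.ofReal_mul (Real.exp_pos _).le, ← Real.exp_add]
        congr 3
        ring

end PBZ.PLX

end
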