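import Pool.Agent.PHK.OneKB6
import Pool.Agent.PHK.PotH.Red6

/-!
# Rows `0`: `OneR6`, `OneRT6` in terms of the exponents `oneEH6`

* `crH_etaC6`: the current of the curve `etaC` is `hC`; `oneEH6_etaC`;
* **`oneRT6_seaP`, `oneR6_seaP`** (data `Ob6`), **`oneRT6_seaP_wkb`, `oneR6_seaP_wkb`** (data `WKB6`):
  for every geometry with `one ≤ oneEH6 m (etaC e1 J m m) (TW ep e1 m) + Kc`.
-/

set_option autoImplicit false

noncomputable section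

open Complex MeasureTheory Set
open PLX (Fil Ends)

namespace PBI.PLX

open PHK
open PBO.PLX (Geo OneR6)
open NUO hiding vl_re vl_im
open NUP1 NUGC.PLX
open PotH.PLX (oneEH6 crH)

attribute [local instance] NUSea.seaP

variable [Fil] [Ends]

omit [Fil] [Ends] in
/-- the current of the curve of TARGET-C with `m` rows -/
theorem crH_etaC6 (e1 J : ℝ) {m : ℕ} (hm : 1 ≤ m) (t : ℝ) :
    crH (etaC e1 J m m) m t = hC e1 J m t := by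
  have h1 : (0 : ℝ) < m := by exact_mod_cast hm
  have h2 : 0 < NUSea.P t := NUSea.P_pos t
  unfold crH etaC
  field_simp

theorem oneEH6_etaC (ep e1 J : ℝ) {m : ℕ} (hm : 1 ≤ m) {r : ℕ} (O : Fin r → Xo) (i : Fin r) :
    oneEH6 m (etaC e1 J m m) (TW ep e1 m) O i = oneE6 m ep e1 J O i := by
  unfold oneEH6 oneE6
  rw [crH_etaC6 e1 J hm]

variable {G : Geo} {Kc : ℝ}

/-- **`OneRT6` for every geometry at rows `0`**, data `WKB6` -/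
theorem oneRT6_seaP_wkb (τ : ℝ) {B0 : ℝ} (hB0 : 0 < B0)
    (hB : ∀ ep : ℝ, 0 < ep → ep ≤ 1 / 100 → ∃ m0 : ℕ, ∀ m ≥ m0,
      WKB6 B0 par6 (fun a => Fil.ne a m) m (4 / 3 * (1 - ep)) (Tb (Real.log m) + τ)
        (G.B m (4 / 3 * (1 - ep))) ∧ (G.B m (4 / 3 * (1 - ep))).Nn)
    (h1 : ∀ (m : ℕ) (ep e1 J : ℝ), 1 ≤ m → 0 < ep → 0 < e1 → 0 ≤ J →
      ∀ (r : ℕ) (O : Fin r → Xo) (i : Fin r), G.one m ep e1 J r O i ≤
        oneEH6 m (etaC e1 J m m) (TW ep e1 m) O i + Kc) : OneRT6 G :=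
  oneRT6_wkb τ hB0 hB (Kc := Kc) fun m ep e1 J a1 a2 a3 a4 r O i => by
    rw [← oneEH6_etaC ep e1 J a1]
    exact h1 m ep e1 J a1 a2 a3 a4 r O i

/-- **`OneR6` for every geometry at rows `0`**, data `WKB6` -/
theorem oneR6_seaP_wkb (τ : ℝ) {B0 : ℝ} (hB0 : 0 < B0)
    (hB : ∀ ep : ℝ, 0 < ep → ep ≤ 1 / 100 → ∃ m0 : ℕ, ∀ m ≥ m0,
      WKB6 B0 par6 (fun a => Fil.ne a m) m (4 / 3 * (1 - ep)) (Tb (Real.log m) + τ)
        (G.B m (4 / 3 * (1 - ep))) ∧ (G.B m (4 / 3 * (1 - ep))).Nn)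
    (h1 : ∀ (m : ℕ) (ep e1 J : ℝ), 1 ≤ m → 0 < ep → 0 < e1 → 0 ≤ J →
      ∀ (r : ℕ) (O : Fin r → Xo) (i : Fin r), G.one m ep e1 J r O i ≤
        oneEH6 m (etaC e1 J m m) (TW ep e1 m) O i + Kc) : OneR6 G :=
  (oneRT6_seaP_wkb τ hB0 hB h1).oneR6

/-- **`OneRT6` for every geometry at rows `0`**, data `Ob6` -/
theorem oneRT6_seaP {C : ℝ} (hC : 0 < C) (τ : ℝ)
    (hB : ∀ ep : ℝ, 0 < ep → ep ≤ 1 / 100 → ∃ m0 : ℕ, ∀ m ≥ m0,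
      Ob6 par6 C (fun a => Fil.ne a m) m (4 / 3 * (1 - ep)) (Tb (Real.log m) + τ)
        (G.B m (4 / 3 * (1 - ep))))
    (h1 : ∀ (m : ℕ) (ep e1 J : ℝ), 1 ≤ m → 0 < ep → 0 < e1 → 0 ≤ J →
      ∀ (r : ℕ) (O : Fin r → Xo) (i : Fin r), G.one m ep e1 J r O i ≤
        oneEH6 m (etaC e1 J m m) (TW ep e1 m) O i + Kc) : OneRT6 G :=
  oneRT6_of hC τ hB (Kc := Kc) fun m ep e1 J a1 a2 a3 a4 r O i => by
    rw [← oneEH6_etaC ep e1 J a1]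
    exact h1 m ep e1 J a1 a2 a3 a4 r O i

/-- **`OneR6` for every geometry at rows `0`**, data `Ob6` -/
theorem oneR6_seaP {C : ℝ} (hC : 0 < C) (τ : ℝ)
    (hB : ∀ ep : ℝ, 0 < ep → ep ≤ 1 / 100 → ∃ m0 : ℕ, ∀ m ≥ m0,
      Ob6 par6 C (fun a => Fil.ne a m) m (4 / 3 * (1 - ep)) (Tb (Real.log m) + τ)
        (G.B m (4 / 3 * (1 - ep))))
    (h1 : ∀ (m : ℕ) (ep e1 J : ℝ), 1 ≤ m → 0 < ep → 0 < e1 → 0 ≤ J →
      ∀ (r : ℕ) (O : Fin r → Xo) (i : Fin r), G.one m ep e1 J r O i ≤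
        oneEH6 m (etaC e1 J m m) (TW ep e1 m) O i + Kc) : OneR6 G :=
  (oneRT6_seaP hC τ hB h1).oneR6

end PBI.PLX

end
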