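import Pool.Agent.PHK.TopC6
import Pool.Agent.PHK.OneR0
import Pool.Agent.PLX.PB.TopG0
import Pool.Agent.PLX.PB.ParZ

/-!
# (P): the functional from the bound of its gas, abstract one body functions and data

`m`: number of rows of the sea (curve `etL e1 J m`, window `TW ep e1 m`).

* `OneB6`: the one body bounds of the data `B`, with the gain `gT`; `OneB6.mono`;
* **`oneB6_wkb`**, **`oneB6_ob6`**: `OneB6` of data with `WKB6`, `Ob6`;
* `StabProd6.stabE`: the stability bound in the form of `FE_sum6`;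
* **`topB6`**: if the tilted gas of every configuration with the insertion `φ` is at most
  `w Q exp (lin + ∑ oneEH6 + K r + enC6 + c1 win)` and `Nf exp lin ≤ CV exp (-(1 - e1) Tb + y)`, then
  `Nf ∑ n ≤ N, FE6 Z (n + aX) (n + aY) (φ n) ≤
    CV Bw Q m ^ (- 3/8 + δ) exp y exp (d |ν - m|) (2 / (1 - exp (-d)))`, `N ≤ 3 m`,
  `aX + aY ≤ Fil.xe m + 40`.
-/

set_option autoImplicit false
set_option linter.unusedSectionVars false

noncomputable section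

open Complex MeasureTheory Finset
open scoped ENNReal
open PLX (Fil Ends)

namespace PHK

open NUO NUStabP NUDispW

/-- the stability bound in the form of the functional -/
theorem StabProd6.stabE {P : Par6} (h : StabProd6 P) : StabE P fun _ O => enC6 P O := by
  obtain ⟨C, c1, -, hc1, h⟩ := h
  exact ⟨C, c1, hc1, h⟩

end PHK

namespace PBT.PLX

open NUO hiding vl_re vl_im
open NUP1 NUP1S NUP1S.Ab NUP1S.AbC NUGC.PLX NUCR PBF.PLX PHK
open PBP.PLX (gT)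
open PotH.PLX (crH oneEH6)

attribute [local instance] NUSea.seaP

variable [Fil] [Ends]

/-- the one body bounds of the data `B` (constants `C`, `c`, `c2`, `aS`, `τ` of the activities, one
body constant `K'`, gain `gT` kept) -/
def OneB6 (C c c2 aS τ : ℝ) (k : ℕ) (K' ep e1 J : ℝ) (m : ℕ) (B : OB) : Prop :=
  ∀ (r : ℕ) (O : Fin r → Xo) (i : Fin r),
    ob6 B par6 (O i) * Real.exp (oneEH6 m (etL e1 J m) (TW ep e1 m) O i + K') ≤
      act6 C c c2 aS τ k (Real.log m) ep e1 J r (k6 (O i)) (ht (O i)) *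
        Real.exp (-gT e1 (Real.log m) (ht (O i)))

/-- **`OneB6` of data with `WKB6`**: one constant `A` for every `m`, `ep`, `B` -/
theorem oneB6_wkb (K' τ : ℝ) {B0 : ℝ} (hB0 : 0 < B0) : ∃ A : ℝ, 0 < A ∧
    ∀ e1 : ℝ, 0 < e1 → e1 ≤ 1 / 100 → ∀ J : ℝ, 0 ≤ J → ∃ m1 : ℕ, 3 ≤ m1 ∧ ∀ m : ℕ, m1 ≤ m →
    ∀ ep : ℝ, 0 < ep → ep ≤ 1 / 100 → ∀ B : OB, B.Nn →
      WKB6 B0 par6 (fun a => Fil.ne a m) m (4 / 3 * (1 - ep)) (Tb (Real.log m) + τ) B →
      OneB6 A (7 / 10 * (pH6 / 4)) (1 / 5) 6 τ 6 K' ep e1 J m B := by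
  obtain ⟨A, hA, H⟩ := one_hC6T K' τ hB0
  refine ⟨A, hA, fun e1 he he1 J hJ => ?_⟩
  obtain ⟨m1, hm1, H⟩ := H e1 he he1 J hJ
  refine ⟨m1, hm1, fun m hm ep hep hep1 B hBn hB r O i => ?_⟩
  have hL := log_ge_one (hm1.trans hm)
  have hN : ∀ a, (m : ℝ) ≤ 2 * ((Fil.ne a m : ℕ) : ℝ) := fun a => by
    have h2 : (m : ℝ) ≤ ((Fil.ne a m : ℕ) : ℝ) := Fil.le_ner a m
    have h3 : (0 : ℝ) ≤ m := Nat.cast_nonneg m
    linarith
  have key := H m hm 6 ep hep hep1 (TW ep e1 m) (PBI.PLX.TW_ge6 hep hep1 he.le (by linarith)) par6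
    par6_good (fun a => Fil.ne a m) hN B hBn hB r (O i)
  have e : oneEH6 m (etL e1 J m) (TW ep e1 m) O i = PBI.PLX.oneE6 m ep e1 J O i :=
    PBI.PLX.oneEH6_etaC ep e1 J (by omega) O i
  rw [e]
  exact key

/-- **`OneB6` of data with `Ob6`** -/
theorem oneB6_ob6 (K' τ : ℝ) {C : ℝ} (hC : 0 < C) : ∃ A : ℝ, 0 < A ∧
    ∀ e1 : ℝ, 0 < e1 → e1 ≤ 1 / 100 → ∀ J : ℝ, 0 ≤ J → ∃ m1 : ℕ, 3 ≤ m1 ∧ ∀ m : ℕ, m1 ≤ m →
    ∀ ep : ℝ, 0 < ep → ep ≤ 1 / 100 → ∀ B : OB,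
      Ob6 par6 C (fun a => Fil.ne a m) m (4 / 3 * (1 - ep)) (Tb (Real.log m) + τ) B →
      OneB6 A (7 / 10 * (pH6 / 4)) (1 / 5) 6 τ 6 K' ep e1 J m B := by
  obtain ⟨B0, hB0, hW⟩ := wkb6_of hC
  obtain ⟨A, hA, H⟩ := oneB6_wkb K' τ hB0
  refine ⟨A, hA, fun e1 he he1 J hJ => ?_⟩
  obtain ⟨m1, hm1, H⟩ := H e1 he he1 J hJ
  exact ⟨m1, hm1, fun m hm ep hep hep1 B hB =>
    H m hm ep hep hep1 B hB.nn (hW par6 par6_good _ m _ _ _ (by linarith) hB)⟩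

/-- the number of the objects is at most `m ^ 2` for large `m` -/
theorem count6 : ∃ m0 : ℕ, 1 ≤ m0 ∧ ∀ m ≥ m0, ∀ N aX aY : ℕ, N ≤ 3 * m → aX + aY ≤ Fil.xe m + 40 →
    ((2 * (2 * N + (aX + aY)) + 1 : ℕ) : ℝ) ≤ Real.exp (2 * Real.log m) := by
  refine ⟨93 + 2 * Fil.q + 2 * Ends.o, by omega, fun m hm N aX aY hN ha => ?_⟩
  have hm1 : 1 ≤ m := by omega
  have hmp : (0 : ℝ) < m := by exact_mod_cast hm1
  have e1 : Real.exp (2 * Real.log m) = ((m * m : ℕ) : ℝ) := by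
    rw [two_mul, Real.exp_add, Real.exp_log hmp]
    push_cast
    rfl
  rw [e1]
  have h1 := Fil.xe_le m
  have h2 : (93 + 2 * Fil.q + 2 * Ends.o) * m ≤ m * m := Nat.mul_le_mul_right m hm
  have h3 : 2 * (2 * N + (aX + aY)) + 1 ≤ (93 + 2 * Fil.q + 2 * Ends.o) * m := by
    have h4 : (93 + 2 * Fil.q + 2 * Ends.o) * m = 93 * m + 2 * (Fil.q * m) + 2 * (Ends.o * m) := by
      ring
    have h5 : Ends.o ≤ Ends.o * m := Nat.le_mul_of_pos_right _ hm1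
    rw [h4]
    omega
  exact_mod_cast h3.trans h2

/-- **the functional of abstract one body functions from the bound of the gas** -/
theorem topB6 (hS : StabProd6 par6) (K K2 : ℝ) : ∃ K' c1 : ℝ, 0 < c1 ∧
    ∀ (C c c2 aS τ c' : ℝ) (k : ℕ), 0 < C → 0 < c → 0 < c2 → 0 ≤ aS → 0 ≤ c' →
    ∀ δ : ℝ, 0 < δ → ∃ a0 : ℝ, 0 < a0 ∧ ∀ ep : ℝ, 0 < ep → ep ≤ 1 / 100 → ∀ e1 : ℝ, 0 < e1 →
    e1 ≤ 1 / 100 → ∀ J : ℝ, 0 ≤ J → Real.exp (-(2 * Real.pi * J)) + 3 * e1 + 3 * ep ≤ a0 →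
    ∃ m0 : ℕ, ∀ m : ℕ, m0 ≤ m → ∀ N aX aY : ℕ, N ≤ 3 * m → aX + aY ≤ Fil.xe m + 40 →
      ∀ (Z : Bool → Option O3 → ℂ → ℂ) (B : OB) (κ x0 : ℝ) (Qc : ℤ) (E : Set ℝ),
      OneC6 Z B par6 ep κ x0 Qc E → B.Nn → OneB6 C c c2 aS τ k K' ep e1 J m B →
      ∀ Nf lin y CV : ℝ, 0 ≤ Nf → 0 ≤ CV →
      Nf * Real.exp lin ≤ CV * Real.exp (-((1 - e1) * Tb (Real.log m)) + y) →
      ∀ (φ : ℕ → InsE) (w : ℕ → (r : ℕ) → (Fin r → Xo) → ℝ) (Q Bw d ν : ℝ), 0 ≤ Q → 0 ≤ Bw →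
      0 < d →
      (∀ n ≤ N, ∀ r ≤ 2 * (2 * n + (aX + aY)), ∀ O : Fin r → Xo, 0 ≤ w n r O ∧
        w n r O ≤ (if (r : ℝ) ≤ Real.log m then Bw else
          Bw * Real.exp (c' * Real.log m)) * Real.exp (K2 * r) *
            Real.exp (∑ i, gT e1 (Real.log m) (ht (O i)))) →
      (∀ b' : ℝ, |b'| = d → ∀ n ≤ N, ∀ r ≤ 2 * (2 * n + (aX + aY)), ∀ O : Fin r → Xo,
        chgO6 O true ≤ ((n + aX : ℕ) : ℤ) → chgO6 O false ≤ ((n + aY : ℕ) : ℤ) → cnt6 O →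
        ENNReal.ofReal (Real.exp (b' * (ν - n))) *
          gasI6 B par6 (etL e1 J m) (etL' e1 J m) O (nA6 (n + aX) O true) (nA6 (n + aY) O false)
            (φ n r O (nA6 (n + aX) O true) (nA6 (n + aY) O false)) ≤
        ENNReal.ofReal (w n r O * (Q * Real.exp (lin +
          (∑ i, oneEH6 m (etL e1 J m) (TW ep e1 m) O i + K * r +
            enC6 par6 O + c1 * NUDispW.win univ fun i => ht (O i)))))) →
      ENNReal.ofReal Nf *
        ∑ n ∈ range (N + 1), FE6 Z par6 (n + aX) (n + aY) (crL e1 J m) (crL' e1 J m) (φ n) ≤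
        ENNReal.ofReal (CV * Bw * Q * (m : ℝ) ^ (-(3 / 8 : ℝ) + δ) * Real.exp y *
          (Real.exp (d * |ν - m|) * (2 / (1 - Real.exp (-d))))) := by
  obtain ⟨K', c1, hc1, HF⟩ := FE_sum6 par6_good hS.stabE K K2
  refine ⟨K', c1, hc1, fun C c c2 aS τ c' k hC hc hc2 haS hc' δ hδ => ?_⟩
  obtain ⟨a0, ha0, L0, HF⟩ := HF C c c2 aS τ c' k hC hc hc2 haS hc' (δ / 2) (by linarith)
  refine ⟨min a0 δ, lt_min ha0 hδ, fun ep hep hep1 e1 he he1 J hJ hsm => ?_⟩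
  obtain ⟨mc, -, Hcur⟩ := curZ_crs he he1 hJ hep
  obtain ⟨mk, hmk1, hmk⟩ := count6
  have t1 := Real.tendsto_log_atTop.comp tendsto_natCast_atTop_atTop
  obtain ⟨ml, hml⟩ := Filter.eventually_atTop.1 (t1.eventually_ge_atTop L0)
  refine ⟨max mc (max ml mk), fun m hm N aX aY hN haXY Z B κ x0 Qc E hone hB hact Nf lin y CV hNf hCV
    hv φ w Q Bw d ν hQ hBw hd hw hgas => ?_⟩
  have k4 : mc ≤ m := (le_max_left _ _).trans hm
  have k5 : ml ≤ m := (le_max_left _ _).trans ((le_max_right _ _).trans hm)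
  have k6' : mk ≤ m := (le_max_right _ _).trans ((le_max_right _ _).trans hm)
  have hm1 : (1 : ℝ) ≤ (m : ℝ) := by exact_mod_cast hmk1.trans k6'
  have hmp : (0 : ℝ) < (m : ℝ) := by linarith
  have hL0 : L0 ≤ Real.log m := hml m k5
  have hsm' : Real.exp (-(2 * Real.pi * J)) + 3 * e1 + 3 * ep ≤ a0 := hsm.trans (min_le_left _ _)
  have hsd : 3 * e1 ≤ δ := by
    have h1 := hsm.trans (min_le_right _ _)
    have h2 := Real.exp_pos (-(2 * Real.pi * J))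
    linarith
  have key := HF (Real.log m) hL0 ep hep.le (by linarith) e1 he (by linarith) J hJ hsm'
    Z m N aX aY (crL e1 J m) (crL' e1 J m) B ep κ x0 Qc E hone hB
    (fun r O => Hcur m k4 r O) hep1 (hmk m k6' N aX aY hN haXY) φ (gT e1 (Real.log m))
    (fun r O i => oneEH6 m (etL e1 J m) (TW ep e1 m) O i) w
    (Q * Real.exp lin) Bw d ν (by positivity) hBw hd hw (fun r _ O i => hact r O i) ?_
  · obtain ⟨D, hD⟩ : ∃ D, D = Real.exp (d * |ν - m|) * (2 / (1 - Real.exp (-d))) := ⟨_, rfl⟩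
    have hD0 : 0 ≤ D := by
      rw [hD]
      have : Real.exp (-d) < 1 := by
        rw [← Real.exp_zero]; exact Real.exp_lt_exp.2 (by linarith)
      exact mul_nonneg (Real.exp_pos _).le (div_nonneg (by norm_num) (by linarith))
    rw [← hD] at key
    rw [← hD]
    refine (mul_le_mul' le_rfl key).trans ?_
    rw [← ENNReal.ofReal_mul hNf]
    refine ENNReal.ofReal_le_ofReal ?_
    have hTb : Tb (Real.log m) = 3 / 8 * Real.log m := rfl
    have hLm : 0 ≤ Real.log m := Real.log_nonneg hm1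
    have hpow : Real.exp (-((1 - e1) * Tb (Real.log m)) + y) *
        Real.exp (δ / 2 * Real.log m) ≤
        (m : ℝ) ^ (-(3 / 8 : ℝ) + δ) * Real.exp y := by
      rw [Real.rpow_def_of_pos hmp, ← Real.exp_add, ← Real.exp_add]
      refine Real.exp_le_exp.2 ?_
      rw [hTb]
      nlinarith
    calc Nf * (Bw * (Q * Real.exp lin) * Real.exp (δ / 2 * Real.log m) * D)
        = (Nf * Real.exp lin) * (Real.exp (δ / 2 * Real.log m) * (Bw * Q * D)) := by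
          ring
      _ ≤ (CV * Real.exp (-((1 - e1) * Tb (Real.log m)) + y)) *
          (Real.exp (δ / 2 * Real.log m) * (Bw * Q * D)) :=
          mul_le_mul_of_nonneg_right hv (by positivity)
      _ = CV * (Bw * Q * D) * (Real.exp (-((1 - e1) * Tb (Real.log m)) + y) *
          Real.exp (δ / 2 * Real.log m)) := by ring
      _ ≤ CV * (Bw * Q * D) * ((m : ℝ) ^ (-(3 / 8 : ℝ) + δ) * Real.exp y) :=
          mul_le_mul_of_nonneg_left hpow (by positivity)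
      _ = _ := by ring
  · intro b' hb' n hn r hr O h1 h2 h3
    refine (hgas b' hb' n hn r hr O h1 h2 h3).trans (le_of_eq ?_)
    congr 2
    rw [mul_assoc Q, ← Real.exp_add]

end PBT.PLX

end
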