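import Pool.Agent.PHK.OneC
import Pool.Agent.PHK.Ob6

/-!
# (P): one body functions perturbed by `ε Zc` (cut term of the first Ward identity)

The landed `PLX/PB/UseW` for the six kinds.  The holes need the exact modulus of the perturbed one body
function on their lines, so the row factors are multiplied by `r a u`: `1 + δ` outside of
`0 ≤ Re u ≤ 37 / 38 l`, the (clipped) ratio `‖Z + ε Zc‖ / ‖Z‖` there (`rE6`); always
`1 - δ ≤ r ≤ 1 + δ`.

* `obE6 B r M`: row factors times `r`, additional own weight `M a t` of `T`;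
* `CutZ6`: the perturbation; **`OneC6.eps`**: `OneC6 (Z + ε Zc) (obE6 B (rE6 ..) M') ..`;
* **`ob6_obE6_le`**: the own weights are at most `16` times those of `B`, plus `M` for `T`;
* `qA6_obE6`: the quanta on the curves: exactly `(1 + δ)` times; `wq6_obE6`;
* **`KB6_obE6`**: the bounds by kinds.
-/

set_option autoImplicit false
set_option linter.unusedVariables false

noncomputable section

open Complex MeasureTheory Finset
open scoped ENNReal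
open PLX (Fil)

namespace PHK

open NUO hiding vl_re vl_im
open NUP1 NUCR NUP1S NUP1S.Ab NUP1S.AbC NUGC.PLX

/-! ## the data -/

/-- **one body data with row factors times `r` and an additional weight `M` of `T`** -/
def obE6 (B : OB) (r : Bool → ℂ → ℝ) (M : Bool → ℝ → ℝ) : OB where
  R a u := r a u * B.R a u
  φ := B.φ
  φ0 a u := if u.re = -(1 / 2 * NUP1.l) then B.φ a u * B.φ a (u - NUP1.l) -
    ((‖B.φ a u * B.φ a (u - NUP1.l) - B.φ0 a u‖ + M a u.im : ℝ) : ℂ) else B.φ0 a u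

/-- the factor is between `1 - δ` and `1 + δ` -/
def RE6 (r : Bool → ℂ → ℝ) (δ : ℝ) : Prop := ∀ a u, 1 - δ ≤ r a u ∧ r a u ≤ 1 + δ

/-- the lines of the holes -/
def hol6 (u : ℂ) : Prop := 0 ≤ u.re ∧ u.re ≤ 37 / 38 * NUP1.l

instance (u : ℂ) : Decidable (hol6 u) := by unfold hol6; infer_instance

/-- **the factor of `Z + ε Zc`**: `1 + δ`, on the lines of the holes the ratio of the moduli -/
def rE6 (Z Zc : Bool → Option O3 → ℂ → ℂ) (ε : ℂ) (δ : ℝ) (a : Bool) (u : ℂ) : ℝ :=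
  if hol6 u then max (1 - δ) (min (1 + δ) (‖Z a none u + ε * Zc a none u‖ / ‖Z a none u‖))
  else 1 + δ

theorem rE6_RE {Z Zc : Bool → Option O3 → ℂ → ℂ} {ε : ℂ} {δ : ℝ} (hδ : 0 ≤ δ) :
    RE6 (rE6 Z Zc ε δ) δ := by
  intro a u
  unfold rE6
  split_ifs
  · exact ⟨le_max_left _ _, max_le (by (clear * - hδ; linarith)) (min_le_left _ _)⟩
  · exact ⟨by linarith, le_rfl⟩

theorem rE6_out {Z Zc : Bool → Option O3 → ℂ → ℂ} {ε : ℂ} {δ : ℝ} {a : Bool} {u : ℂ}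
    (h : ¬ hol6 u) : rE6 Z Zc ε δ a u = 1 + δ := by
  unfold rE6
  rw [if_neg h]

/-- on the lines of the holes: the exact ratio -/
theorem rE6_in {Z Zc : Bool → Option O3 → ℂ → ℂ} {ε : ℂ} {c δ : ℝ} {a : Bool} {u : ℂ}
    (hu : hol6 u) (h0 : Z a none u ≠ 0) (hc : ‖Zc a none u‖ ≤ c * ‖Z a none u‖)
    (hε : ‖ε‖ * c ≤ δ) : rE6 Z Zc ε δ a u * ‖Z a none u‖ = ‖Z a none u + ε * Zc a none u‖ := by
  have hz : 0 < ‖Z a none u‖ := norm_pos_iff.2 h0
  have h1 : ‖ε * Zc a none u‖ ≤ δ * ‖Z a none u‖ := by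
    rw [norm_mul]
    calc ‖ε‖ * ‖Zc a none u‖ ≤ ‖ε‖ * (c * ‖Z a none u‖) :=
          mul_le_mul_of_nonneg_left hc (norm_nonneg _)
      _ = ‖ε‖ * c * ‖Z a none u‖ := by ring
      _ ≤ _ := mul_le_mul_of_nonneg_right hε hz.le
  have h2 : ‖Z a none u + ε * Zc a none u‖ ≤ (1 + δ) * ‖Z a none u‖ := by
    refine (norm_add_le _ _).trans ?_
    linarith
  have h3 : (1 - δ) * ‖Z a none u‖ ≤ ‖Z a none u + ε * Zc a none u‖ := by
    have := norm_sub_norm_le (Z a none u) (-(ε * Zc a none u))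
    rw [norm_neg, sub_neg_eq_add] at this
    linarith
  unfold rE6
  rw [if_pos hu, min_eq_right (by rwa [div_le_iff₀ hz]), max_eq_right (by rwa [le_div_iff₀ hz]),
    div_mul_cancel₀ _ hz.ne']

section basic

variable {B : OB} {r : Bool → ℂ → ℝ} {δ : ℝ} {M : Bool → ℝ → ℝ} {a : Bool}

theorem obE6_nn (hB : B.Nn) (hr : RE6 r δ) (hδ : δ ≤ 1) : (obE6 B r M).Nn := fun a u =>
  mul_nonneg (by linarith [(hr a u).1]) (hB a u)

theorem wq6_obE6 (u : ℂ) : wq6 (obE6 B r M) a u = r a u * wq6 B a u := by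
  show r a u * B.R a u * ‖B.φ a u‖ = r a u * (B.R a u * ‖B.φ a u‖)
  ring

theorem posT_reE (t : ℝ) : (posT t).re = -(1 / 2 * NUP1.l) := by
  unfold posT vl
  simp

theorem posT_imE (t : ℝ) : (posT t).im = t := by
  unfold posT vl
  simp

theorem posS_reE (e t : ℝ) : (posS e t).re = -((1 + e) * NUP1.l) := by
  unfold posS vl
  simp

theorem posL_reE (j t : ℝ) : (posL j t).re = (1 - j) * NUP1.l := by
  unfold posL vl
  simp

theorem posB_reE (e t : ℝ) : (posB e t).re = (1 - e) * NUP1.l := by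
  unfold posB
  rw [add_re, posS_reE]
  simp
  ring

/-- the bracket of `T` -/
theorem obE6_T (hM : ∀ a t, 0 ≤ M a t) (t : ℝ) :
    ‖(obE6 B r M).φ a (posT t) * (obE6 B r M).φ a (posT t - NUP1.l) - (obE6 B r M).φ0 a (posT t)‖ =
      ‖B.φ a (posT t) * B.φ a (posT t - NUP1.l) - B.φ0 a (posT t)‖ + M a t := by
  show ‖B.φ a (posT t) * B.φ a (posT t - NUP1.l) - (if (posT t).re = -(1 / 2 * NUP1.l) then
    B.φ a (posT t) * B.φ a (posT t - NUP1.l) - ((‖B.φ a (posT t) * B.φ a (posT t - NUP1.l) -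
      B.φ0 a (posT t)‖ + M a (posT t).im : ℝ) : ℂ) else B.φ0 a (posT t))‖ = _
  rw [if_pos (posT_reE t), sub_sub_cancel, Complex.norm_real, posT_imE, Real.norm_of_nonneg]
  have := hM a t
  clear * - this
  positivity

/-- the cutoff of the strings -/
theorem obE6_S {e : ℝ} (he : 0 ≤ e) (t : ℝ) :
    (obE6 B r M).φ0 a (posS e t) = B.φ0 a (posS e t) := by
  have hl := NUP1.l_pos
  show (if (posS e t).re = -(1 / 2 * NUP1.l) then _ else B.φ0 a (posS e t)) = _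
  rw [if_neg]
  rw [posS_reE]
  intro h
  clear * - hl h he
  nlinarith

end basic

/-! ## the perturbation -/

variable {Z Zc : Bool → Option O3 → ℂ → ℂ} {B : OB} {P : Par6} {ep κ x0 : ℝ} {Q : ℤ} {E : Set ℝ}

/-- **the perturbation `Zc`**: bounded by `c` times the one body data of `Z` (strings), by `c ‖Z‖`
(quanta, lines of the holes); `T`: own weight `M` -/
structure CutZ6 (Z Zc : Bool → Option O3 → ℂ → ℂ) (B : OB) (P : Par6) (ep κ x0 : ℝ) (Q : ℤ)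
    (E : Set ℝ) (c : ℝ) (M : Bool → ℝ → ℝ) : Prop where
  c0 : 0 ≤ c
  M0 : ∀ s t, 0 ≤ M s t
  meas : ∀ s k, Measurable (Zc s k)
  L : ∀ s t, t ∉ E → ‖Zc s (some .L) (posL P.jL t)‖ ≤ c * wq6 B s (posL P.jL t)
  T : ∀ s t, t ∉ E → ‖Zc s (some .T) (posT t)‖ ≤
    (B.R s (posT t) * B.R s (posT t - NUP1.l)) * M s t
  S : ∀ s t, t ∉ E → ‖Zc s (some .S) (posS P.e t)‖ ≤
    c * ((B.R s (posS P.e t) * B.R s (posS P.e t - NUP1.l)) * ‖B.φ0 s (posS P.e t)‖)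
  V : ∀ s t, t ∉ E → ‖Zc s none (posB P.e t)‖ ≤ c * ‖Z s none (posB P.e t)‖
  H1 : ∀ s t, t ∉ E → ‖Zc s none (posL P.j1 t)‖ ≤ c * ‖Z s none (posL P.j1 t)‖
  H2 : ∀ s t, t ∉ E → ‖Zc s none (posL P.j2 t)‖ ≤ c * ‖Z s none (posL P.j2 t)‖
  A : ∀ s (u : ℂ), u.re ∈ Ks (ep / 4) → ‖Zc s none u‖ ≤ c * ‖Z s none u‖
  dA : ∀ s (u : ℂ), x0 ≤ u.re → u.re ≤ (1 + ep / 4) * NUP1.l → DifferentiableAt ℂ (Zc s none) u
  bA : ∀ s, Bdd (Set.Icc x0 ((1 + ep / 4) * NUP1.l)) (-(κ + 2 * (sg s * Q : ℤ))) (Zc s none)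

/-- `‖Zc‖ ≤ c ‖Z‖` for the quanta on the strip of the lines: all fields of the quanta -/
theorem CutZ6.of (hP : GoodP6 P) (hep : 0 ≤ ep) {c a0 : ℝ} {M : Bool → ℝ → ℝ} (hc : 0 ≤ c)
    (hM : ∀ s t, 0 ≤ M s t) (hm : ∀ s k, Measurable (Zc s k))
    (L : ∀ s t, t ∉ E → ‖Zc s (some .L) (posL P.jL t)‖ ≤ c * wq6 B s (posL P.jL t))
    (T : ∀ s t, t ∉ E → ‖Zc s (some .T) (posT t)‖ ≤
      (B.R s (posT t) * B.R s (posT t - NUP1.l)) * M s t)
    (S : ∀ s t, t ∉ E → ‖Zc s (some .S) (posS P.e t)‖ ≤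
      c * ((B.R s (posS P.e t) * B.R s (posS P.e t - NUP1.l)) * ‖B.φ0 s (posS P.e t)‖))
    (ha : a0 ≤ (1 - P.j2) * NUP1.l)
    (A : ∀ s (u : ℂ), a0 ≤ u.re → u.re ≤ (1 + ep / 4) * NUP1.l →
      ‖Zc s none u‖ ≤ c * ‖Z s none u‖)
    (ha0 : a0 ≤ 19 / 20 * NUP1.l)
    (dA : ∀ s (u : ℂ), x0 ≤ u.re → u.re ≤ (1 + ep / 4) * NUP1.l → DifferentiableAt ℂ (Zc s none) u)
    (bA : ∀ s, Bdd (Set.Icc x0 ((1 + ep / 4) * NUP1.l)) (-(κ + 2 * (sg s * Q : ℤ))) (Zc s none)) :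
    CutZ6 Z Zc B P ep κ x0 Q E c M := by
  have hl := NUP1.l_pos
  have h1 := hP.j1
  have h2 := hP.j1e
  have h3 := hP.ej2
  have h4 := hP.j2
  have key : ∀ j : ℝ, 1 / 38 ≤ j → j ≤ P.j2 →
      a0 ≤ (1 - j) * NUP1.l ∧ (1 - j) * NUP1.l ≤ (1 + ep / 4) * NUP1.l := fun j a b =>
    ⟨ha.trans (by (clear * - hl b; nlinarith)), by (clear * - hep hl h1 h2 h3 h4 a; nlinarith)⟩
  refine ⟨hc, hM, hm, L, T, S, fun s t _ => ?_, fun s t _ => ?_, fun s t _ => ?_,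
    fun s u hu => A s u (ha0.trans hu.1) hu.2, dA, bA⟩
  · obtain ⟨k1, k2⟩ := key P.e (by linarith) h3.le
    exact A s _ (by rwa [posB_reE]) (by rwa [posB_reE])
  · obtain ⟨k1, k2⟩ := key P.j1 h1.le (by linarith)
    exact A s _ (by rwa [posL_reE]) (by rwa [posL_reE])
  · obtain ⟨k1, k2⟩ := key P.j2 (by (clear * - h1 h2 h3; linarith)) le_rfl
    exact A s _ (by rwa [posL_reE]) (by rwa [posL_reE])

theorem norm_eps6_le {z zc : ℂ} {ε : ℂ} {c δ X : ℝ} (hX : 0 ≤ X) (hz : ‖z‖ ≤ X)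
    (hzc : ‖zc‖ ≤ c * X) (hε : ‖ε‖ * c ≤ δ) : ‖z + ε * zc‖ ≤ (1 + δ) * X := by
  refine (norm_add_le _ _).trans ?_
  rw [norm_mul]
  have h1 : ‖ε‖ * ‖zc‖ ≤ ‖ε‖ * (c * X) := mul_le_mul_of_nonneg_left hzc (norm_nonneg _)
  have h2 : ‖ε‖ * c * X ≤ δ * X := mul_le_mul_of_nonneg_right hε hX
  clear * - hz h1 h2
  nlinarith

/-- a quantum on the lines of the holes: upper bound -/
theorem eps6_up {c δ : ℝ} {s : Bool} {u : ℂ} {ε : ℂ} (hu : hol6 u) (hδ : 0 ≤ δ) (hδ1 : δ ≤ 1)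
    (hc : ‖Zc s none u‖ ≤ c * ‖Z s none u‖) (hε : ‖ε‖ * c ≤ δ) {X : ℝ} (hX : 0 ≤ X)
    (hz : ‖Z s none u‖ ≤ X) :
    ‖Z s none u + ε * Zc s none u‖ ≤ rE6 Z Zc ε δ s u * X := by
  have hr := (rE6_RE (Z := Z) (Zc := Zc) (ε := ε) hδ s u).1
  have hr0 : 0 ≤ rE6 Z Zc ε δ s u := by linarith
  rcases eq_or_ne (Z s none u) 0 with h0 | h0
  · have h1 : Zc s none u = 0 := by
      rw [h0, norm_zero, mul_zero] at hc
      exact norm_le_zero_iff.1 hc
    rw [h0, h1, mul_zero, add_zero, norm_zero]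
    positivity
  · rw [← rE6_in hu h0 hc hε]
    exact mul_le_mul_of_nonneg_left hz hr0

/-- a quantum on the lines of the holes: lower bound -/
theorem eps6_lo {c δ : ℝ} {s : Bool} {u : ℂ} {ε : ℂ} (hu : hol6 u) (hδ : 0 ≤ δ) (hδ1 : δ < 1)
    (hc : ‖Zc s none u‖ ≤ c * ‖Z s none u‖) (hε : ‖ε‖ * c ≤ δ) {X : ℝ} (hX : 0 ≤ X)
    (hz : ‖(Z s none u)⁻¹‖ ≤ X⁻¹) :
    ‖(Z s none u + ε * Zc s none u)⁻¹‖ ≤ (rE6 Z Zc ε δ s u * X)⁻¹ := by
  have hr := (rE6_RE (Z := Z) (Zc := Zc) (ε := ε) hδ s u).1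
  have hr0 : 0 < rE6 Z Zc ε δ s u := by linarith
  rcases eq_or_ne (Z s none u) 0 with h0 | h0
  · have h1 : Zc s none u = 0 := by
      rw [h0, norm_zero, mul_zero] at hc
      exact norm_le_zero_iff.1 hc
    rw [h0, h1, mul_zero, add_zero, inv_zero, norm_zero]
    positivity
  · rw [norm_inv, ← rE6_in hu h0 hc hε, mul_inv, mul_inv, ← norm_inv]
    exact mul_le_mul_of_nonneg_left hz (inv_nonneg.2 hr0.le)

theorem Bdd6.add {K : Set ℝ} {s : ℝ} {g g' : ℂ → ℂ} (h : Bdd K s g) (h' : Bdd K s g') :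
    Bdd K s (fun z => g z + g' z) := by
  obtain ⟨C, hC, h⟩ := h
  obtain ⟨D, hD, h'⟩ := h'
  refine ⟨C + D, add_nonneg hC hD, fun z hz => ?_⟩
  refine (norm_add_le _ _).trans ?_
  rw [add_mul]
  exact add_le_add (h z hz) (h' z hz)

theorem Bdd6.cmul {K : Set ℝ} {s : ℝ} {g : ℂ → ℂ} (h : Bdd K s g) (ε : ℂ) :
    Bdd K s (fun z => ε * g z) := by
  obtain ⟨C, hC, h⟩ := h
  refine ⟨‖ε‖ * C, by positivity, fun z hz => ?_⟩
  rw [norm_mul, mul_assoc]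
  exact mul_le_mul_of_nonneg_left (h z hz) (norm_nonneg _)

/-- **the perturbed one body functions** -/
theorem OneC6.eps (h : OneC6 Z B P ep κ x0 Q E) {c : ℝ} {M : Bool → ℝ → ℝ}
    (hc : CutZ6 Z Zc B P ep κ x0 Q E c M) (hP : GoodP6 P) {ε : ℂ} {δ : ℝ} (hδ : 0 ≤ δ)
    (hδ1 : δ < 1) (hε : ‖ε‖ * c ≤ δ) {M' : Bool → ℝ → ℝ} (hM' : ∀ s t, ‖ε‖ * M s t ≤ M' s t) :
    OneC6 (fun s k u => Z s k u + ε * Zc s k u) (obE6 B (rE6 Z Zc ε δ) M') P ep κ x0 Q E := by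
  have hl := NUP1.l_pos
  have hnn : ∀ a u, 0 ≤ B.R a u := h.nn
  have h1 : (1 : ℝ) ≤ 1 + δ := by linarith
  have e13 := hP.e13
  have e48 := hP.e48
  have j1 := hP.j1
  have j2 := hP.j2
  have j1e := hP.j1e
  have ej2 := hP.ej2
  have jL := hP.L2
  have hM0 : ∀ s t, 0 ≤ M' s t := fun s t =>
    (mul_nonneg (norm_nonneg _) (hc.M0 s t)).trans (hM' s t)
  have hwn : ∀ s u, 0 ≤ wq6 B s u := fun s u => wq6_nonneg h.nn s u
  have hB : ∀ t, hol6 (posB P.e t) := fun t => by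
    refine ⟨?_, ?_⟩ <;> rw [posB_reE] <;> (clear * - hl e48 e13; nlinarith)
  have hJ1 : ∀ t, hol6 (posL P.j1 t) := fun t => by
    refine ⟨?_, ?_⟩ <;> rw [posL_reE] <;> (clear * - hl e48 j1e j1; nlinarith)
  have hJ2 : ∀ t, hol6 (posL P.j2 t) := fun t => by
    refine ⟨?_, ?_⟩ <;> rw [posL_reE] <;> (clear * - hl j2 j1 j1e ej2; nlinarith)
  have hneg : ∀ {u : ℂ}, u.re < 0 → ¬ hol6 u := fun hu h => by linarith [h.1]
  have hTl : ∀ t, ¬ hol6 (posT t) := fun t => hneg (by rw [posT_reE]; (clear * - hl; nlinarith))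
  have hTl' : ∀ t, ¬ hol6 (posT t - NUP1.l) := fun t => hneg (by
    rw [sub_re, posT_reE, ofReal_re]; (clear * - hl; nlinarith))
  have hSl : ∀ t, ¬ hol6 (posS P.e t) := fun t => hneg (by rw [posS_reE]; (clear * - hl e13; nlinarith))
  have hSl' : ∀ t, ¬ hol6 (posS P.e t - NUP1.l) := fun t => hneg (by
    rw [sub_re, posS_reE, ofReal_re]; (clear * - hl e13; nlinarith))
  have hLl : ∀ t, ¬ hol6 (posL P.jL t) := fun t => hneg (by rw [posL_reE]; (clear * - hl jL; nlinarith))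
  refine
    { kpos := h.kpos
      nn := obE6_nn h.nn (rE6_RE hδ) hδ1.le
      nul := h.nul
      meas := fun s k => (h.meas s k).add ((hc.meas s k).const_mul ε)
      L := ?_
      T := ?_
      S := ?_
      V := ?_
      F := ?_
      H1 := ?_
      H2 := ?_
      A := ?_
      x1 := h.x1
      dA := fun s u h1 h2 => (h.dA s u h1 h2).add ((hc.dA s u h1 h2).const_mul ε)
      bA := fun s => Bdd6.add (h.bA s) (Bdd6.cmul (hc.bA s) ε) }
  · intro s t ht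
    rw [wq6_obE6, rE6_out (hLl t)]
    exact norm_eps6_le (hwn _ _) (h.L s t ht) (hc.L s t ht) hε
  · intro s t ht
    rw [obE6_T hM0]
    show _ ≤ (rE6 Z Zc ε δ s (posT t) * B.R s (posT t) *
      (rE6 Z Zc ε δ s (posT t - NUP1.l) * B.R s (posT t - NUP1.l))) * _
    rw [rE6_out (hTl t), rE6_out (hTl' t)]
    have hR : 0 ≤ B.R s (posT t) * B.R s (posT t - NUP1.l) := mul_nonneg (hnn _ _) (hnn _ _)
    have e1 := h.T s t ht
    have e2 := hc.T s t ht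
    set X := B.R s (posT t) * B.R s (posT t - NUP1.l) with hX
    set Y := ‖B.φ s (posT t) * B.φ s (posT t - NUP1.l) - B.φ0 s (posT t)‖ with hY
    have hY0 : 0 ≤ Y := norm_nonneg _
    have e3 : ‖Z s (some .T) (posT t) + ε * Zc s (some .T) (posT t)‖ ≤ X * (Y + M' s t) := by
      refine (norm_add_le _ _).trans ?_
      rw [norm_mul, mul_add]
      refine add_le_add e1 ?_
      calc ‖ε‖ * ‖Zc s (some .T) (posT t)‖ ≤ ‖ε‖ * (X * M s t) :=
            mul_le_mul_of_nonneg_left e2 (norm_nonneg _)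
        _ = X * (‖ε‖ * M s t) := by ring
        _ ≤ X * M' s t := mul_le_mul_of_nonneg_left (hM' s t) hR
    refine e3.trans ?_
    have e4 : 0 ≤ X * (Y + M' s t) := mul_nonneg hR (add_nonneg hY0 (hM0 s t))
    calc X * (Y + M' s t) = 1 * (X * (Y + M' s t)) := (one_mul _).symm
      _ ≤ ((1 + δ) * (1 + δ)) * (X * (Y + M' s t)) :=
          mul_le_mul_of_nonneg_right (by (clear * - hδ; nlinarith)) e4
      _ = _ := by
          rw [hX]
          ring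
  · intro s t ht
    rw [obE6_S (by linarith)]
    show _ ≤ (rE6 Z Zc ε δ s (posS P.e t) * B.R s (posS P.e t) *
      (rE6 Z Zc ε δ s (posS P.e t - NUP1.l) * B.R s (posS P.e t - NUP1.l))) * _
    rw [rE6_out (hSl t), rE6_out (hSl' t)]
    have hR : 0 ≤ (B.R s (posS P.e t) * B.R s (posS P.e t - NUP1.l)) * ‖B.φ0 s (posS P.e t)‖ :=
      mul_nonneg (mul_nonneg (hnn _ _) (hnn _ _)) (norm_nonneg _)
    have e1 := norm_eps6_le (ε := ε) (δ := δ) hR (h.S s t ht) (hc.S s t ht) hε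
    refine e1.trans ?_
    calc (1 + δ) * ((B.R s (posS P.e t) * B.R s (posS P.e t - NUP1.l)) *
          ‖B.φ0 s (posS P.e t)‖) ≤
        ((1 + δ) * (1 + δ)) * ((B.R s (posS P.e t) * B.R s (posS P.e t - NUP1.l)) *
          ‖B.φ0 s (posS P.e t)‖) := mul_le_mul_of_nonneg_right (by (clear * - hδ; nlinarith)) hR
      _ = _ := by ring
  · intro s t ht
    rw [wq6_obE6]
    exact eps6_up (hB t) hδ hδ1.le (hc.V s t ht) hε (hwn _ _) (h.V s t ht)
  · intro s t ht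
    rw [wq6_obE6]
    exact eps6_lo (hB t) hδ hδ1 (hc.V s t ht) hε (hwn _ _) (h.F s t ht)
  · intro s t ht
    rw [wq6_obE6]
    exact eps6_lo (hJ1 t) hδ hδ1 (hc.H1 s t ht) hε (hwn _ _) (h.H1 s t ht)
  · intro s t ht
    rw [wq6_obE6]
    exact eps6_lo (hJ2 t) hδ hδ1 (hc.H2 s t ht) hε (hwn _ _) (h.H2 s t ht)
  · intro s u hu
    show _ ≤ rE6 Z Zc ε δ s u * B.R s u * ‖B.φ s u‖
    rw [mul_assoc]
    have hX : 0 ≤ B.R s u * ‖B.φ s u‖ := mul_nonneg (hnn _ _) (norm_nonneg _)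
    by_cases hh : hol6 u
    · exact eps6_up hh hδ hδ1.le (hc.A s u hu) hε hX (h.A s u hu)
    · rw [rE6_out hh]
      refine norm_eps6_le (c := c) hX (h.A s u hu) ((hc.A s u hu).trans ?_) hε
      exact mul_le_mul_of_nonneg_left (h.A s u hu) hc.c0

/-! ## the own weights -/

/-- the additional own weight of `T` -/
def wT6 (B : OB) (M : Bool → ℝ → ℝ) (x : Xo) : ℝ :=
  match k6 x with
  | .T => aS * (B.R (sp x) (posT (ht x)) * B.R (sp x) (posT (ht x) - NUP1.l)) * M (sp x) (ht x)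
  | _ => 0

theorem wT6_nonneg {B : OB} (hB : B.Nn) {M : Bool → ℝ → ℝ} (hM : ∀ a t, 0 ≤ M a t) (x : Xo) :
    0 ≤ wT6 B M x := by
  unfold wT6
  have h1 := NUO.aS_pos
  have h2 := hB (sp x) (posT (ht x))
  have h3 := hB (sp x) (posT (ht x) - NUP1.l)
  have h4 := hM (sp x) (ht x)
  cases k6 x <;> first | exact le_rfl | positivity

theorem sixteen6 {r1 r2 r3 : ℝ} {δ : ℝ} (hδ : 0 ≤ δ) (hδ1 : δ ≤ 1 / 2) (h1 : 0 ≤ r1)
    (h1' : r1 ≤ 1 + δ) (h2 : 0 ≤ r2) (h2' : r2 ≤ 1 + δ) (h3 : 0 ≤ r3) (h3' : r3 ≤ 1 + δ) :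
    r1 * r2 * r3 ^ 2 ≤ 8 := by
  have a1 : r1 ≤ 3 / 2 := h1'.trans (by (clear * - hδ1; linarith))
  have a2 : r2 ≤ 3 / 2 := h2'.trans (by (clear * - hδ1; linarith))
  have a3 : r3 ≤ 3 / 2 := h3'.trans (by (clear * - hδ1; linarith))
  calc r1 * r2 * r3 ^ 2 ≤ 3 / 2 * (3 / 2) * (3 / 2) ^ 2 := by (clear * - a1 a2 h2 h3 a3; gcongr)
    _ ≤ 8 := by norm_num

/-- **the own weights** -/
theorem ob6_obE6_le {B : OB} (hB : B.Nn) {r : Bool → ℂ → ℝ} {δ : ℝ} (hr : RE6 r δ) (hδ : 0 ≤ δ)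
    (hδ1 : δ ≤ 1 / 2) {M : Bool → ℝ → ℝ} (hM : ∀ a t, 0 ≤ M a t) (he : 0 ≤ P.e) (x : Xo) :
    ob6 (obE6 B r M) P x ≤ 16 * (ob6 B P x + wT6 B M x) := by
  have hnn : ∀ a u, 0 ≤ B.R a u := hB
  have hpi := Real.pi_pos
  have haS := NUO.aS_pos
  have r0 : ∀ a u, 0 ≤ r a u := fun a u => by linarith [(hr a u).1]
  have rp : ∀ a u, 0 < r a u := fun a u => by linarith [(hr a u).1]
  have r1 : ∀ a u, r a u ≤ 3 / 2 := fun a u => by linarith [(hr a u).2]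
  have r2 : ∀ a u, (r a u)⁻¹ ≤ 2 := fun a u => by
    rw [inv_le_comm₀ (rp a u) (by norm_num)]
    linarith [(hr a u).1]
  have hwn : ∀ a u, 0 ≤ wq6 B a u := fun a u => wq6_nonneg hB a u
  have hW := ob6_nonneg hB P x
  have hS : ∀ a : Bool, oSc (obE6 B r M) a (posS P.e (ht x)) =
      r a (posS P.e (ht x)) * r a (posS P.e (ht x) - NUP1.l) * oSc B a (posS P.e (ht x)) := by
    intro a
    unfold oSc
    rw [obE6_S he]
    show aS * (r a (posS P.e (ht x)) * B.R a (posS P.e (ht x)) *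
      (r a (posS P.e (ht x) - NUP1.l) * B.R a (posS P.e (ht x) - NUP1.l))) *
      ‖B.φ0 a (posS P.e (ht x))‖ = _
    ring
  have hS0 : ∀ a : Bool, 0 ≤ oSc B a (posS P.e (ht x)) := by
    intro a
    unfold oSc
    have := hnn a (posS P.e (ht x))
    have := hnn a (posS P.e (ht x) - NUP1.l)
    positivity
  have hq : ∀ a u, (obE6 B r M).R a u * ‖(obE6 B r M).φ a u‖ = r a u * (B.R a u * ‖B.φ a u‖) :=
    fun a u => by
      show r a u * B.R a u * ‖B.φ a u‖ = _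
      ring
  have hqn : ∀ a u, 0 ≤ B.R a u * ‖B.φ a u‖ := fun a u => mul_nonneg (hnn a u) (norm_nonneg _)
  have h5 : 0 < Real.sin (5 * l) := by simpa using sinl_pos 5 (by norm_num) (by norm_num)
  rcases hk : k6 x with _ | _ | _ | _ | _ | _
  · -- L
    have ew : wT6 B M x = 0 := by unfold wT6; rw [hk]
    rw [ew, add_zero, ob6_L _ P hk, ob6_L _ P hk, hq]
    have h0 : 0 ≤ (2 * Real.pi)⁻¹ * (B.R (sp x) (posL P.jL (ht x)) *
        ‖B.φ (sp x) (posL P.jL (ht x))‖) := by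
      have := hqn (sp x) (posL P.jL (ht x))
      positivity
    have h3 := r1 (sp x) (posL P.jL (ht x))
    calc _ = r (sp x) (posL P.jL (ht x)) * ((2 * Real.pi)⁻¹ * (B.R (sp x) (posL P.jL (ht x)) *
          ‖B.φ (sp x) (posL P.jL (ht x))‖)) := by ring
      _ ≤ _ := mul_le_mul_of_nonneg_right (h3.trans (by norm_num)) h0
  · -- T
    have ew : wT6 B M x = aS * (B.R (sp x) (posT (ht x)) * B.R (sp x) (posT (ht x) - NUP1.l)) *
        M (sp x) (ht x) := by unfold wT6; rw [hk]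
    rw [ew, ob6_T _ P hk, ob6_T _ P hk, obE6_T hM]
    have a1 := hnn (sp x) (posT (ht x))
    have a2 := hnn (sp x) (posT (ht x) - NUP1.l)
    have a3 := hM (sp x) (ht x)
    have h0 : 0 ≤ aS * (B.R (sp x) (posT (ht x)) * B.R (sp x) (posT (ht x) - NUP1.l)) *
        (‖B.φ (sp x) (posT (ht x)) * B.φ (sp x) (posT (ht x) - NUP1.l) - B.φ0 (sp x) (posT (ht x))‖ +
          M (sp x) (ht x)) := by (clear * - haS a1 a2 a3; positivity)
    have h6 : r (sp x) (posT (ht x)) * r (sp x) (posT (ht x) - NUP1.l) ≤ 16 := by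
      have b1 := r1 (sp x) (posT (ht x))
      have b2 := r1 (sp x) (posT (ht x) - NUP1.l)
      have b3 := r0 (sp x) (posT (ht x) - NUP1.l)
      calc _ ≤ (3 / 2 : ℝ) * (3 / 2) := by (clear * - b1 b2 b3; gcongr)
        _ ≤ 16 := by norm_num
    calc aS * (r (sp x) (posT (ht x)) * B.R (sp x) (posT (ht x)) *
          (r (sp x) (posT (ht x) - NUP1.l) * B.R (sp x) (posT (ht x) - NUP1.l))) *
          (‖B.φ (sp x) (posT (ht x)) * B.φ (sp x) (posT (ht x) - NUP1.l) -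
            B.φ0 (sp x) (posT (ht x))‖ + M (sp x) (ht x)) =
        (r (sp x) (posT (ht x)) * r (sp x) (posT (ht x) - NUP1.l)) *
          (aS * (B.R (sp x) (posT (ht x)) * B.R (sp x) (posT (ht x) - NUP1.l)) *
          (‖B.φ (sp x) (posT (ht x)) * B.φ (sp x) (posT (ht x) - NUP1.l) -
            B.φ0 (sp x) (posT (ht x))‖ + M (sp x) (ht x))) := by ring
      _ ≤ 16 * (aS * (B.R (sp x) (posT (ht x)) * B.R (sp x) (posT (ht x) - NUP1.l)) *
          (‖B.φ (sp x) (posT (ht x)) * B.φ (sp x) (posT (ht x) - NUP1.l) -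
            B.φ0 (sp x) (posT (ht x))‖ + M (sp x) (ht x))) :=
          mul_le_mul_of_nonneg_right h6 h0
      _ = _ := by ring
  · -- E
    have ew : wT6 B M x = 0 := by unfold wT6; rw [hk]
    rw [ew, add_zero]
    have h0 := hW
    rw [ob6_E _ P hk] at h0
    rw [ob6_E _ P hk, ob6_E _ P hk, hq, hS]
    have h8 := sixteen6 hδ hδ1 (r0 (sp x) (posS P.e (ht x))) (hr _ _).2
      (r0 (sp x) (posS P.e (ht x) - NUP1.l)) (hr _ _).2 (r0 (!sp x) (posB P.e (ht x))) (hr _ _).2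
    calc _ = (r (sp x) (posS P.e (ht x)) * r (sp x) (posS P.e (ht x) - NUP1.l) *
          r (!sp x) (posB P.e (ht x)) ^ 2) *
          (2 * (oSc B (sp x) (posS P.e (ht x)) * (4 * Real.cos l ^ 2 *
      (B.R (!sp x) (posB P.e (ht x)) * ‖B.φ (!sp x) (posB P.e (ht x))‖ /
        Real.sin (5 * l) ^ 2) ^ 2))) := by ring
      _ ≤ _ := mul_le_mul_of_nonneg_right (h8.trans (by norm_num)) h0
  · -- F
    have ew : wT6 B M x = 0 := by unfold wT6; rw [hk]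
    rw [ew, add_zero]
    have h0 := hW
    rw [ob6_F _ P hk] at h0
    rw [ob6_F _ P hk, ob6_F _ P hk, hq, hq, hS]
    have h8 := sixteen6 hδ hδ1 (r0 (sp x) (posS P.e (ht x))) (hr _ _).2
      (r0 (sp x) (posS P.e (ht x) - NUP1.l)) (hr _ _).2 (r0 (!sp x) (posB P.e (ht x))) (hr _ _).2
    have h9 := r2 (sp x) (posB P.e (ht x))
    have h10 : 0 ≤ r (sp x) (posS P.e (ht x)) * r (sp x) (posS P.e (ht x) - NUP1.l) *
          r (!sp x) (posB P.e (ht x)) ^ 2 := by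
      have := r0 (sp x) (posS P.e (ht x))
      have := r0 (sp x) (posS P.e (ht x) - NUP1.l)
      positivity
    calc _ = (r (sp x) (posS P.e (ht x)) * r (sp x) (posS P.e (ht x) - NUP1.l) *
          r (!sp x) (posB P.e (ht x)) ^ 2 * (r (sp x) (posB P.e (ht x)))⁻¹) *
          (2 * (oSc B (sp x) (posS P.e (ht x)) * (4 * Real.cos l ^ 2 *
      (B.R (!sp x) (posB P.e (ht x)) * ‖B.φ (!sp x) (posB P.e (ht x))‖ /
        Real.sin (5 * l) ^ 2) ^ 2)) *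
    (4 * Real.cos l ^ 2 / (B.R (sp x) (posB P.e (ht x)) * ‖B.φ (sp x) (posB P.e (ht x))‖) *
      (Real.sin (3 * l) ^ 8 /
        (Real.sin (2 * l) * Real.sin (3 * l) * Real.sin (5 * l))))) := by
          simp only [div_eq_mul_inv, mul_inv]
          ring
      _ ≤ _ := by
          refine mul_le_mul_of_nonneg_right ?_ h0
          calc _ ≤ (8 : ℝ) * 2 := by
                refine mul_le_mul h8 h9 (inv_nonneg.2 (r0 _ _)) (by norm_num)
            _ = 16 := by norm_num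
  · -- H1
    have ew : wT6 B M x = 0 := by unfold wT6; rw [hk]
    rw [ew, add_zero]
    have h0 := hW
    rw [ob6_H1 _ P hk] at h0
    rw [ob6_H1 _ P hk, ob6_H1 _ P hk, hq]
    calc _ = (r (sp x) (posL P.j1 (ht x)))⁻¹ * ((2 * Real.pi)⁻¹ * (4 * Real.cos l ^ 2 /
      (B.R (sp x) (posL P.j1 (ht x)) * ‖B.φ (sp x) (posL P.j1 (ht x))‖))) := by
          simp only [div_eq_mul_inv, mul_inv]
          ring
      _ ≤ _ := mul_le_mul_of_nonneg_right ((r2 _ _).trans (by norm_num)) h0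
  · -- H2
    have ew : wT6 B M x = 0 := by unfold wT6; rw [hk]
    rw [ew, add_zero]
    have h0 := hW
    rw [ob6_H2 _ P hk] at h0
    rw [ob6_H2 _ P hk, ob6_H2 _ P hk, hq]
    calc _ = (r (sp x) (posL P.j2 (ht x)))⁻¹ * ((2 * Real.pi)⁻¹ * (4 * Real.cos l ^ 2 /
      (B.R (sp x) (posL P.j2 (ht x)) * ‖B.φ (sp x) (posL P.j2 (ht x))‖))) := by
          simp only [div_eq_mul_inv, mul_inv]
          ring
      _ ≤ _ := mul_le_mul_of_nonneg_right ((r2 _ _).trans (by norm_num)) h0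

/-! ## the quanta on the curves -/

/-- **the quanta on curves right of the lines of the holes** -/
theorem qA6_obE6 [Fil] (B : OB) (P : Par6) (Z Zc : Bool → Option O3 → ℂ → ℂ) (ε : ℂ) (δ : ℝ)
    (M : Bool → ℝ → ℝ) (η : ℝ → ℝ) {r : ℕ} (O : Fin r → Xo) (a : Bool) (t : ℝ)
    (h : 37 / 38 * NUP1.l < (NUO.pA (Fil.cv a η) t).re) :
    qA6 (obE6 B (rE6 Z Zc ε δ) M) P η O a t = (1 + δ) * qA6 B P η O a t := by
  show (2 * Real.pi)⁻¹ * (rE6 Z Zc ε δ a (NUO.pA (Fil.cv a η) t) *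
    B.R a (NUO.pA (Fil.cv a η) t) * ‖B.φ a (NUO.pA (Fil.cv a η) t)‖) * _ =
    (1 + δ) * ((2 * Real.pi)⁻¹ * (B.R a (NUO.pA (Fil.cv a η) t) *
      ‖B.φ a (NUO.pA (Fil.cv a η) t)‖) * _)
  rw [rE6_out fun hh => by (clear * - h hh; linarith [hh.2])]
  ring

/-- the quanta, any factor: inequality -/
theorem qA6_obE6_le [Fil] {B : OB} (hB : B.Nn) (P : Par6) {r' : Bool → ℂ → ℝ} {δ : ℝ}
    (hr : RE6 r' δ) (hδ1 : δ ≤ 1) (M : Bool → ℝ → ℝ) (η : ℝ → ℝ) {r : ℕ} (O : Fin r → Xo) (a : Bool)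
    (t : ℝ) : 0 ≤ qA6 (obE6 B r' M) P η O a t ∧
      qA6 (obE6 B r' M) P η O a t ≤ (1 + δ) * qA6 B P η O a t := by
  have hpi := Real.pi_pos
  have h1 := hB a (NUO.pA (Fil.cv a η) t)
  have h2 : 0 ≤ ∏ i, potN6 P O i a (NUO.pA (Fil.cv a η) t) :=
    prod_nonneg fun i _ => potN6_nonneg _ _ _ _ _
  have h3 := hr a (NUO.pA (Fil.cv a η) t)
  have h4 : qA6 (obE6 B r' M) P η O a t = r' a (NUO.pA (Fil.cv a η) t) * qA6 B P η O a t := by
    show (2 * Real.pi)⁻¹ * (r' a (NUO.pA (Fil.cv a η) t) *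
      B.R a (NUO.pA (Fil.cv a η) t) * ‖B.φ a (NUO.pA (Fil.cv a η) t)‖) * _ =
      _ * ((2 * Real.pi)⁻¹ * (B.R a (NUO.pA (Fil.cv a η) t) *
        ‖B.φ a (NUO.pA (Fil.cv a η) t)‖) * _)
    ring
  have h5 : 0 ≤ qA6 B P η O a t := by
    unfold qA6
    clear * - h1 h2
    positivity
  rw [h4]
  exact ⟨mul_nonneg (by linarith [h3.1]) h5, mul_le_mul_of_nonneg_right h3.2 h5⟩

/-! ## the bounds by kinds -/

/-- **all kinds: from the bounds `KB6` of `B` and of the additional weight of `T`** -/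
theorem KB6_obE6 {B : OB} (hB : B.Nn) {r : Bool → ℂ → ℝ} {δ : ℝ} (hr : RE6 r δ) (hδ : 0 ≤ δ)
    (hδ1 : δ ≤ 1 / 2) {M : Bool → ℝ → ℝ} (hM : ∀ a t, 0 ≤ M a t) (he : 0 ≤ P.e) (x : Xo)
    {N : Bool → ℕ} {m : ℕ} {β T1 C0 C1 v : ℝ} (hC1 : 0 ≤ C1) (hv : 0 ≤ v)
    (h0 : KB6 C0 P N m β T1 (ob6 B P x * v) (sp x) (k6 x) (ht x))
    (h1 : k6 x = .T → wT6 B M x * v ≤ C1 * cut m β (ht x)) :
    KB6 (16 * (C0 + C1)) P N m β T1 (ob6 (obE6 B r M) P x * v) (sp x) (k6 x) (ht x) := by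
  have key := ob6_obE6_le hB hr hδ hδ1 hM he x
  have key2 : ob6 (obE6 B r M) P x * v ≤ 16 * ((ob6 B P x + wT6 B M x) * v) := by
    calc _ ≤ (16 * (ob6 B P x + wT6 B M x)) * v := mul_le_mul_of_nonneg_right key hv
      _ = _ := by ring
  have c1 := cut_nonneg m β (ht x)
  have c2 := cS6_nonneg m T1 (ht x)
  rcases hk : k6 x with _ | _ | _ | _ | _ | _ <;> rw [hk] at h0
  · have ew : wT6 B M x = 0 := by unfold wT6; rw [hk]
    rw [ew, add_zero] at key2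
    refine key2.trans ?_
    have h0' : ob6 B P x * v ≤ C0 * cut m β (ht x) := h0
    clear * - h0' hC1 c1
    nlinarith [mul_nonneg hC1 c1]
  · have h1' := h1 hk
    refine key2.trans ?_
    have h0' : ob6 B P x * v ≤ C0 * cut m β (ht x) := h0
    clear * - h1' h0'
    nlinarith
  · have ew : wT6 B M x = 0 := by unfold wT6; rw [hk]
    rw [ew, add_zero] at key2
    refine key2.trans ?_
    have h0' : ob6 B P x * v ≤ C0 * cS6 m T1 (ht x) := h0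
    clear * - h0' hC1 c2
    nlinarith [mul_nonneg hC1 c2]
  · have ew : wT6 B M x = 0 := by unfold wT6; rw [hk]
    rw [ew, add_zero] at key2
    refine key2.trans ?_
    have c3 := mul_nonneg c2 (hw6_nonneg (N (sp x)) m β P.e (ht x))
    have h0' : ob6 B P x * v ≤ C0 * (cS6 m T1 (ht x) * hw6 (N (sp x)) m β P.e (ht x)) := h0
    clear * - h0' hC1 c3
    nlinarith [mul_nonneg hC1 c3]
  · have ew : wT6 B M x = 0 := by unfold wT6; rw [hk]
    rw [ew, add_zero] at key2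
    refine key2.trans ?_
    have c3 := hw6_nonneg (N (sp x)) m β P.j1 (ht x)
    have h0' : ob6 B P x * v ≤ C0 * hw6 (N (sp x)) m β P.j1 (ht x) := h0
    clear * - h0' hC1 c3
    nlinarith [mul_nonneg hC1 c3]
  · have ew : wT6 B M x = 0 := by unfold wT6; rw [hk]
    rw [ew, add_zero] at key2
    refine key2.trans ?_
    have c3 := hw6_nonneg (N (sp x)) m β P.j2 (ht x)
    have h0' : ob6 B P x * v ≤ C0 * hw6 (N (sp x)) m β P.j2 (ht x) := h0
    clear * - h0' hC1 c3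
    nlinarith [mul_nonneg hC1 c3]

end PHK

end
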