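import Pool.Agent.PHK.TopD6
import Pool.Agent.PHK.TopB6
import Pool.Agent.PHK.UseW

/-!
# (P): the cut term of the first Ward identity, the supremum over the perturbations

* `gasI6_obE`: the gas of the perturbed data `obE6 B r M`, `1 - δ ≤ r ≤ 1 + δ`, is at most
  `(1 + δ) ^ (p + q)` times the gas of `B`;
* **`cutSup6`**: one body functions `Z` with data `obE6 (obL6 T1 k β x z) r M`, `δ₀ ≤ 1 / m`,
  `m = k + 1 + e`: `‖Pf‖ ∑ n ≤ 2 m, FE6 Z n (n + xe m) 1 ≤ m ^ δ exp (2 |Im z|)`.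
-/

set_option autoImplicit false
set_option linter.unusedSectionVars false

noncomputable section

open Complex MeasureTheory Finset
open scoped ENNReal

open PLX (Fil Ends)

namespace PBT.PLX

open NUO NUP1 NUP1S NUP1S.Ab NUP1S.AbC NUGC.PLX PBF.PLX
open PBX (ph)
open PBL.PLX (mu1)
open PBP.PLX (gT)
open PotH.PLX PHK
open Pool.Agent.PLX (rwq yq)

/-! ### the perturbed gas -/

/-- **the gas of the perturbed one body data** -/
theorem gasI6_obE [Fil] {B : OB} (hB : B.Nn) (P : Par6) {r' : Bool → ℂ → ℝ} {δ : ℝ}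
    (hr : RE6 r' δ) (hδ : 0 ≤ δ) (hδ1 : δ ≤ 1) (M : Bool → ℝ → ℝ) (η η' : ℝ → ℝ) {r : ℕ}
    (O : Fin r → Xo) (p q : ℕ) (ψ : (Fin p → ℝ) × (Fin q → ℝ) → ℝ≥0∞) :
    gasI6 (obE6 B r' M) P η η' O p q ψ ≤
      ENNReal.ofReal ((1 + δ) ^ (p + q)) * gasI6 B P η η' O p q ψ := by
  have h0 : (0 : ℝ) ≤ (1 + δ) ^ (p + q) := by positivity
  have hq := fun a t => qA6_obE6_le hB P hr hδ1 M η O a t
  have e : ∀ x : (Fin p → ℝ) × (Fin q → ℝ),
      ENNReal.ofReal (NU42.WO (dA (Fil.cv true η)) (dA (Fil.cv true η')) (dA (Fil.cv false η))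
        (dA (Fil.cv false η')) (qA6 (obE6 B r' M) P η O true) (qA6 (obE6 B r' M) P η O false)
        x.1 x.2) * ψ x ≤
      ENNReal.ofReal ((1 + δ) ^ (p + q)) *
        (ENNReal.ofReal (NU42.WO (dA (Fil.cv true η)) (dA (Fil.cv true η')) (dA (Fil.cv false η))
          (dA (Fil.cv false η')) (qA6 B P η O true) (qA6 B P η O false) x.1 x.2) * ψ x) := by
    intro x
    rw [← mul_assoc, ← ENNReal.ofReal_mul h0, ← NUBR.WO_smul]
    refine mul_le_mul' (ENNReal.ofReal_le_ofReal ?_) le_rfl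
    exact WO_mono _ _ _ _ (fun t => (hq true t).1) (fun t => (hq true t).2)
      (fun t => (hq false t).1) (fun t => (hq false t).2) _ _
  unfold gasI6
  calc _ ≤ ((p.factorial : ℝ≥0∞) * q.factorial)⁻¹ * ∫⁻ x : (Fin p → ℝ) × (Fin q → ℝ),
        ENNReal.ofReal ((1 + δ) ^ (p + q)) *
        (ENNReal.ofReal (NU42.WO (dA (Fil.cv true η)) (dA (Fil.cv true η')) (dA (Fil.cv false η))
          (dA (Fil.cv false η')) (qA6 B P η O true) (qA6 B P η O false) x.1 x.2) * ψ x) :=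
        mul_le_mul' le_rfl (lintegral_mono e)
    _ = _ := by
        rw [lintegral_const_mul' _ _ ENNReal.ofReal_ne_top]
        ring

/-- `(1 + δ) ^ N ≤ e ^ c` for `N ≤ c m`, `δ ≤ 1 / m` -/
theorem pow_obE_le6 {δ : ℝ} (hδ : 0 ≤ δ) {m N c : ℕ} (hm : 1 ≤ m) (hN : N ≤ c * m)
    (h : δ ≤ 1 / (m : ℝ)) : (1 + δ) ^ N ≤ Real.exp c := by
  have hmp : (0 : ℝ) < m := by exact_mod_cast hm
  calc (1 + δ) ^ N ≤ Real.exp δ ^ N :=
        pow_le_pow_left₀ (by linarith) (by linarith [Real.add_one_le_exp δ]) N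
    _ = Real.exp (N * δ) := by rw [Real.exp_nat_mul]
    _ ≤ Real.exp c := by
        refine Real.exp_le_exp.2 ?_
        have h1 : (N : ℝ) ≤ c * m := by exact_mod_cast hN
        calc (N : ℝ) * δ ≤ (c * m) * (1 / m) := mul_le_mul h1 h hδ (by positivity)
          _ = c := by field_simp

attribute [local instance] NUSea.seaP

variable [Fil] [Ends]

/-- **the supremum over the perturbations** -/
theorem cutSup6 (ho : Ends.o = 0) (hS : StabE par6 fun _ O => enC6 par6 O) :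
    ∃ K' : ℝ, ∀ (C c c2 aS τ : ℝ) (k0 : ℕ), 0 < C → 0 < c → 0 < c2 → 0 ≤ aS →
    ∀ δ : ℝ, 0 < δ → ∃ a0 : ℝ, 0 < a0 ∧
    ∀ ep : ℝ, 0 < ep → ep ≤ 1 / 100 → ∀ e1 : ℝ, 0 < e1 → e1 ≤ 1 / 100 → ∀ J : ℝ, 0 ≤ J →
    Real.exp (-(2 * Real.pi * J)) + 3 * e1 + 3 * ep ≤ a0 →
    ∃ m0 : ℕ, ∀ k : ℕ, m0 ≤ k → ∀ m : ℕ, m = k + 1 + Ends.e →
      ∀ x z : ℂ, |x.re| ≤ NUMF.l / 10 → |x.im| ≤ 2 →
      -(9 / 10 * NUMF.l) ≤ z.re → z.re ≤ 37 / 10 * NUMF.l →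
      |z.im| ≤ 3 / 20 * Real.log m + 2 →
      ∀ (Z : Bool → Option O3 → ℂ → ℂ) (r' : Bool → ℂ → ℝ) (δ₀ : ℝ) (M : Bool → ℝ → ℝ)
        (T1 κ x0 : ℝ) (Qc : ℤ) (E : Set ℝ),
      0 ≤ δ₀ → δ₀ ≤ 1 / (m : ℝ) → RE6 r' δ₀ →
      OneC6 Z (obE6 (obL6 T1 k (4 / 3 * (1 - ep)) x z) r' M) par6 ep κ x0 Qc E →
      OneB6 C c c2 aS τ k0 K' ep e1 J m (obE6 (obL6 T1 k (4 / 3 * (1 - ep)) x z) r' M) →
      ENNReal.ofReal ‖Pool.Agent.PB.Pf z (mu1 k x) (yq (mu1 k x))‖ *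
        ∑ n ∈ range (2 * m + 1), FE6 Z par6 n (n + Fil.xe m)
          (crL e1 J m) (crL' e1 J m) (fun _ _ _ _ _ => 1) ≤
        ENNReal.ofReal ((m : ℝ) ^ δ * Real.exp (2 * |z.im|)) := by
  obtain ⟨K, Ca, hK, hCa, HG⟩ := gas_L6 ho
  obtain ⟨K', c1, hc1, HT⟩ := topV6 hS K 0
  refine ⟨K', fun C c c2 aS τ k0 hC hc hc2 haS δ hδ => ?_⟩
  obtain ⟨a0, ha0, HT⟩ := HT C c c2 aS τ 0 k0 hC hc hc2 haS le_rfl (δ / 4) (by linarith)
  have hCa1 : 0 < Ca + 1 := by linarith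
  refine ⟨min a0 (δ / (8 * (Ca + 1))), lt_min ha0 (by positivity),
    fun ep hep hep1 e1 he he1 J hJ hsm => ?_⟩
  have hsm1 : Real.exp (-(2 * Real.pi * J)) + 3 * e1 + 3 * ep ≤ a0 := hsm.trans (min_le_left _ _)
  have hJ0 := Real.exp_pos (-(2 * Real.pi * J))
  have hs2 : ep + e1 ≤ δ / (8 * (Ca + 1)) := by
    have h1 := hsm.trans (min_le_right _ _)
    linarith
  have hCs : Ca * (ep + e1) + e1 ≤ δ / 4 := by
    have h3 : (Ca + 1) * (ep + e1) ≤ (Ca + 1) * (δ / (8 * (Ca + 1))) :=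
      mul_le_mul_of_nonneg_left hs2 hCa1.le
    have h4 : (Ca + 1) * (δ / (8 * (Ca + 1))) = δ / 8 := by field_simp
    nlinarith
  obtain ⟨mt, hmt, HT⟩ := HT ep hep hep1 e1 he he1 J hJ hsm1
  obtain ⟨CV, hCV, mv, HV⟩ := valS ho he he1 hJ
  obtain ⟨d, Cst, hd, hCst, mg, HG⟩ := HG c1 hc1 ep hep hep1 e1 he he1 J hJ (δ / 4) (by linarith)
  obtain ⟨cq, hcq⟩ : ∃ cq : ℕ, cq = 4 + Fil.qo := ⟨_, rfl⟩
  obtain ⟨X, hX⟩ : ∃ X : ℝ, X = CV * (Real.exp cq * Cst) * (2 / (1 - Real.exp (-d))) := ⟨_, rfl⟩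
  have t1 : Filter.Tendsto (fun m : ℕ => (m : ℝ) ^ (δ / 4)) Filter.atTop Filter.atTop :=
    (tendsto_rpow_atTop (by linarith : 0 < δ / 4)).comp tendsto_natCast_atTop_atTop
  obtain ⟨mx, hmx⟩ := Filter.eventually_atTop.1 (t1.eventually_ge_atTop X)
  refine ⟨max (max mt mv) (max mg mx), fun k hk m hm x z hx hx' z1 z2 z3 Z r' δ₀ M T1 κ x0 Qc E
    h0 h1 hr' hone hact => ?_⟩
  have hkm : k ≤ m := by omega
  have k1 : mt ≤ m := ((le_max_left _ _).trans ((le_max_left _ _).trans hk)).trans hkm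
  have k2 : mv ≤ k := (le_max_right _ _).trans ((le_max_left _ _).trans hk)
  have k3 : mg ≤ k := (le_max_left _ _).trans ((le_max_right _ _).trans hk)
  have k4 : mx ≤ m := ((le_max_right _ _).trans ((le_max_right _ _).trans hk)).trans hkm
  have hm1' : 1 ≤ m := by omega
  have hmp : (0 : ℝ) < (m : ℝ) := by exact_mod_cast hm1'
  have hm1 : (1 : ℝ) ≤ (m : ℝ) := by exact_mod_cast hm1'
  have hδ₀1 : δ₀ ≤ 1 := h1.trans (by rw [div_le_one hmp]; exact hm1)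
  obtain ⟨W, hW⟩ : ∃ W : ℝ, W = Real.exp cq * Cst * (m : ℝ) ^ (3 / 8 + Ca * (ep + e1) + δ / 4) :=
    ⟨_, rfl⟩
  have hW0 : 0 ≤ W := by
    rw [hW]
    positivity
  have hv := HV k k2 x z hx z1 z2 (by rw [← hm]; exact z3)
  rw [← hm] at hv
  have hnB : (obL6 T1 k (4 / 3 * (1 - ep)) x z).Nn := obL6_nn _ _ _ _ _
  have key := HT m k1 Z (obE6 (obL6 T1 k (4 / 3 * (1 - ep)) x z) r' M) κ x0 Qc E hone
    (obE6_nn hnB hr' hδ₀1) (fun r _ => hact r) (fun _ _ _ _ _ _ => 1) (fun _ _ _ => 1) W 1 d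
    ‖Pool.Agent.PB.Pf z (mu1 k x) (yq (mu1 k x))‖ (linS e1 J m x z) _ hW0 zero_le_one hd
    (norm_nonneg _) hv ?_ ?_
  · refine key.trans (ENNReal.ofReal_le_ofReal ?_)
    obtain ⟨D, hD⟩ : ∃ D, D = 2 / (1 - Real.exp (-d)) := ⟨_, rfl⟩
    have hD0 : 0 ≤ D := by
      rw [hD]
      have : Real.exp (-d) < 1 := by
        rw [← Real.exp_zero]; exact Real.exp_lt_exp.2 (by linarith)
      exact div_nonneg (by norm_num) (by linarith)
    rw [← hD] at hX ⊢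
    have hX0 : 0 ≤ X := by rw [hX]; positivity
    have hTb : Real.exp (-((1 - e1) * Tb (Real.log m))) = (m : ℝ) ^ (-(3 / 8 * (1 - e1))) := by
      have : Tb (Real.log m) = 3 / 8 * Real.log m := rfl
      rw [Real.rpow_def_of_pos hmp, this]
      congr 1
      ring
    have e1' : (m : ℝ) ^ (3 / 8 + Ca * (ep + e1) + δ / 4) * (m : ℝ) ^ (-(3 / 8 * (1 - e1))) *
        (m : ℝ) ^ (δ / 4) ≤ (m : ℝ) ^ (3 / 4 * δ) := by
      rw [← Real.rpow_add hmp, ← Real.rpow_add hmp]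
      refine Real.rpow_le_rpow_of_exponent_le hm1 ?_
      linarith
    have e2 : X * (m : ℝ) ^ (3 / 4 * δ) ≤ (m : ℝ) ^ δ := by
      calc X * (m : ℝ) ^ (3 / 4 * δ) ≤ (m : ℝ) ^ (δ / 4) * (m : ℝ) ^ (3 / 4 * δ) :=
            mul_le_mul_of_nonneg_right (hmx m k4) (Real.rpow_nonneg hmp.le _)
        _ = (m : ℝ) ^ δ := by
            rw [← Real.rpow_add hmp]
            congr 1
            ring
    have hE : Real.exp (-((1 - e1) * Tb (Real.log m)) + 2 * |z.im|) =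
        (m : ℝ) ^ (-(3 / 8 * (1 - e1))) * Real.exp (2 * |z.im|) := by
      rw [Real.exp_add, hTb]
    rw [hE]
    calc 1 * W * (CV * ((m : ℝ) ^ (-(3 / 8 * (1 - e1))) * Real.exp (2 * |z.im|))) *
          (m : ℝ) ^ (δ / 4) * D
        = X * ((m : ℝ) ^ (3 / 8 + Ca * (ep + e1) + δ / 4) * (m : ℝ) ^ (-(3 / 8 * (1 - e1))) *
          (m : ℝ) ^ (δ / 4)) * Real.exp (2 * |z.im|) := by
          rw [hX, hW]
          ring
      _ ≤ X * (m : ℝ) ^ (3 / 4 * δ) * Real.exp (2 * |z.im|) := by gcongr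
      _ ≤ _ := mul_le_mul_of_nonneg_right e2 (Real.exp_pos _).le
  · intro n _ r _ O
    refine ⟨zero_le_one, ?_⟩
    have hs : 0 ≤ ∑ i, gT e1 (Real.log m) (ht (O i)) :=
      Finset.sum_nonneg fun i _ => PBP.PLX.gT_nonneg _ _ _
    have h2 : (if (r : ℝ) ≤ Real.log m then (1 : ℝ) else
        1 * Real.exp (0 * Real.log m)) = 1 := by
      split_ifs
      · rfl
      · rw [zero_mul, Real.exp_zero, one_mul]
    rw [h2, zero_mul, Real.exp_zero, one_mul, one_mul]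
    exact Real.one_le_exp hs
  · intro b' hb' n hn r hr O g1 g2 g3
    have hg := HG k k3 m hm x z hx hx' z1 z2 T1 n hn b' hb'.le r O hr g1 g2
    have hN : nA6 n O true + nA6 (n + Fil.xe m) O false ≤ cq * m := by
      have a1 := nA6_le (n := n) g3 true
      have a2 := nA6_le (n := n + Fil.xe m) g3 false
      have a3 : Fil.xe m ≤ Fil.qo * m := Fil.xe_le_qo hm1'
      rw [hcq]
      calc nA6 n O true + nA6 (n + Fil.xe m) O false ≤ n + (n + Fil.xe m) := by omega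
        _ ≤ 4 * m + Fil.qo * m := by omega
        _ = _ := by ring
    have hp := pow_obE_le6 h0 hm1' hN h1
    have hgE := gasI6_obE hnB par6 hr' h0 hδ₀1 M (etL e1 J m) (etL' e1 J m) O (nA6 n O true)
      (nA6 (n + Fil.xe m) O false) (fun _ => 1)
    obtain ⟨G, hGd⟩ : ∃ G, G = gasI6 (obL6 T1 k (4 / 3 * (1 - ep)) x z) par6
      (etL e1 J m) (etL' e1 J m) O (nA6 n O true) (nA6 (n + Fil.xe m) O false)
      (fun _ => 1) := ⟨_, rfl⟩
    rw [← hGd] at hg hgE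
    obtain ⟨N, hNd⟩ : ∃ N, N = nA6 n O true + nA6 (n + Fil.xe m) O false := ⟨_, rfl⟩
    rw [← hNd] at hgE hp
    calc ENNReal.ofReal (Real.exp (b' * ((m : ℝ) - n))) *
          gasI6 (obE6 (obL6 T1 k (4 / 3 * (1 - ep)) x z) r' M) par6 (etL e1 J m) (etL' e1 J m) O
            (nA6 n O true) (nA6 (n + Fil.xe m) O false) (fun _ => 1)
        ≤ ENNReal.ofReal (Real.exp (b' * ((m : ℝ) - n))) * (ENNReal.ofReal ((1 + δ₀) ^ N) * G) :=
          mul_le_mul' le_rfl hgE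
      _ = ENNReal.ofReal ((1 + δ₀) ^ N) *
          (ENNReal.ofReal (Real.exp (b' * ((m : ℝ) - n))) * G) := by ring
      _ ≤ ENNReal.ofReal (Real.exp cq) * ENNReal.ofReal (Cst *
          (m : ℝ) ^ (3 / 8 + Ca * (ep + e1) + δ / 4) *
          Real.exp (linS e1 J m x z +
            (∑ i, oneEH6 m (etL e1 J m) (TW ep e1 m) O i + K * r +
              enC6 par6 O + c1 * NUDispW.win univ fun i => ht (O i)))) :=
          mul_le_mul' (ENNReal.ofReal_le_ofReal hp) hg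
      _ = _ := by
          rw [← ENNReal.ofReal_mul (Real.exp_pos _).le, hW]
          congr 1
          ring

/-- **the supremum over the perturbations**, one body side discharged: additional own weight `M` of `T`
with `exp (n_a Ag (1/2) t) M a t ≤ CM cut m β t` -/
theorem cutSup6_M (ho : Ends.o = 0) (hS : StabE par6 fun _ O => enC6 par6 O) {τ : ℝ}
    (hτ : tauL6 ≤ τ) {CM : ℝ} (hCM : 0 ≤ CM) {δ : ℝ} (hδ : 0 < δ) : ∃ a0 : ℝ, 0 < a0 ∧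
    ∀ ep : ℝ, 0 < ep → ep ≤ 1 / 100 → ∀ e1 : ℝ, 0 < e1 → e1 ≤ 1 / 100 → ∀ J : ℝ, 0 ≤ J →
    Real.exp (-(2 * Real.pi * J)) + 3 * e1 + 3 * ep ≤ a0 →
    ∃ m0 : ℕ, ∀ k : ℕ, m0 ≤ k → ∀ m : ℕ, m = k + 1 + Ends.e →
      ∀ x z : ℂ, |x.re| ≤ NUMF.l / 10 → |x.im| ≤ 2 →
      -(9 / 10 * NUMF.l) ≤ z.re → z.re ≤ 31 / 10 * NUMF.l →
      |z.im| ≤ 3 / 20 * Real.log m + 2 →
      ∀ (Z : Bool → Option O3 → ℂ → ℂ) (r' : Bool → ℂ → ℝ) (δ₀ : ℝ) (M : Bool → ℝ → ℝ)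
        (κ x0 : ℝ) (Qc : ℤ) (E : Set ℝ),
      0 ≤ δ₀ → δ₀ ≤ 1 / (m : ℝ) → RE6 r' δ₀ → (∀ a t, 0 ≤ M a t) →
      (∀ a t, Real.exp ((Fil.ne a m : ℕ) * NUMF.Ag (1 / 2) t) * M a t ≤
        CM * cut m (4 / 3 * (1 - ep)) t) →
      OneC6 Z (obE6 (obL6 (Tb (Real.log m) + τ) k (4 / 3 * (1 - ep)) x z) r' M) par6 ep κ x0 Qc E →
      ENNReal.ofReal ‖Pool.Agent.PB.Pf z (mu1 k x) (yq (mu1 k x))‖ *
        ∑ n ∈ range (2 * m + 1), FE6 Z par6 n (n + Fil.xe m)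
          (crL e1 J m) (crL' e1 J m) (fun _ _ _ _ _ => 1) ≤
        ENNReal.ofReal ((m : ℝ) ^ δ * Real.exp (2 * |z.im|)) := by
  obtain ⟨K', HT⟩ := cutSup6 ho hS
  obtain ⟨mo, hmo, HL⟩ := ob6_leg ho
  obtain ⟨B0, hB0, HB⟩ := wkb6_of cL6_pos
  have haS := NUO.aS_pos
  have hB1 : 0 < 16 * (B0 + NUO.aS * PHK.cL6 ^ 2 * CM) := by positivity
  obtain ⟨A, hA, HA⟩ := oneB6_wkb K' τ hB1
  have hp := pH6_pos
  obtain ⟨a0, ha0, HT⟩ := HT A (7 / 10 * (pH6 / 4)) (1 / 5) 6 τ 6 hA (by positivity) (by norm_num)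
    (by norm_num) δ hδ
  refine ⟨a0, ha0, fun ep hep hep1 e1 he he1 J hJ hsm => ?_⟩
  obtain ⟨mt, HT⟩ := HT ep hep hep1 e1 he he1 J hJ hsm
  obtain ⟨ma, hma, HA⟩ := HA e1 he he1 J hJ
  refine ⟨max (max mt mo) (max ma 2), fun k hk m hm x z hx hx' z1 z2 z3 Z r' δ₀ M κ x0 Qc E h0 h1
    hr' hM0 hM hone => ?_⟩
  have hkm : k ≤ m := by omega
  have k1 : mt ≤ k := (le_max_left _ _).trans ((le_max_left _ _).trans hk)
  have k2 : mo ≤ m := ((le_max_right _ _).trans ((le_max_left _ _).trans hk)).trans hkm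
  have k3 : ma ≤ m := ((le_max_left _ _).trans ((le_max_right _ _).trans hk)).trans hkm
  have k4 : 2 ≤ m := ((le_max_right _ _).trans ((le_max_right _ _).trans hk)).trans hkm
  have hm2 : (2 : ℝ) ≤ (m : ℝ) := by exact_mod_cast k4
  have hδ₀ : δ₀ ≤ 1 / 2 := h1.trans (one_div_le_one_div_of_le (by norm_num) hm2)
  have hl := NUMF.l_pos
  have hT : 3 / 8 * Real.log (k + 1 + Ends.e : ℕ) + tauL6 ≤ Tb (Real.log m) + τ := by
    rw [← hm]
    unfold Tb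
    linarith
  have hOb := HL k (by rw [← hm]; exact k2) (4 / 3 * (1 - ep)) (by linarith) (by linarith) x z hx hx'
    z1 z2 _ hT
  rw [← hm] at hOb
  have hW := HB par6 par6_good _ m _ _ _ (by linarith) hOb
  have hW2 := wkb6_obE6 hOb cL6_pos.le (by norm_num [par6]) hW hr' h0 hδ₀ hM0 hCM hM
  exact HT k k1 m hm x z hx hx' z1 (by linarith) z3 Z r' δ₀ M _ κ x0 Qc E h0 h1 hr' hone
    (HA m k3 ep hep hep1 _ (obE6_nn (obL6_nn _ _ _ _ _) hr' (by linarith)) hW2)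

end PBT.PLX

end
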