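import Pool.Agent.PHK.Om

/-!
# The cut of the strings: derivatives (helper20)

* `hasDerivAt_om` : along a parameter (rows move): `d om = - omA * dP * om`;
* `omAd`, `hasDerivAt_omAd`, `norm_omAd_le`, `norm_omAd_om` : the same for the derivative in `w`;
* **`norm_omA_om`** : `‖omA‖ ‖om‖ ≤ 60 e ^ 3 exp (- exp (11 / 2 (|Im w| - T1)) / 6)` at every height, and
  `norm_om_six` : `‖om‖ ≤ e ^ 3 exp (- exp (11 / 2 (|Im w| - T1)) / 6)`;
* `dexp_shift` : `exp (- exp (11 / 2 (t - T1)) / 6) = exp (- exp (11 / 2 (t - T1')) / 5)`,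
  `T1' = T1 + 2 / 11 log (6 / 5)`;
* **`norm_om_sub`** : two functions `P`, `P'` : `‖om P - om P'‖ ≤ 60 e ^ 3 ‖P - P'‖ exp (- .. / 6)`
  if the segment between the two values satisfies the conditions.
-/

set_option autoImplicit false

noncomputable section

open Complex

namespace PHK

open NUMF (l l_pos)

/-- the cut as a function of the value `p` of the product of the rows -/
theorem om_val (T1 : ℝ) (P : ℂ → ℂ) (w : ℂ) : om T1 P w = Complex.exp (-(omA T1 w * P w)) := rfl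

/-- derivative along a parameter -/
theorem hasDerivAt_om {T1 : ℝ} {w : ℂ} {F : ℂ → ℂ → ℂ} {f' x : ℂ}
    (h : HasDerivAt (fun η => F η w) f' x) :
    HasDerivAt (fun η => om T1 (F η) w) (-(omA T1 w * f') * om T1 (F x) w) x := by
  have h1 := ((h.const_mul (omA T1 w)).neg).cexp
  have e : Complex.exp (-(omA T1 w * F x w)) * -(omA T1 w * f') =
      -(omA T1 w * f') * om T1 (F x) w := by
    rw [om_val]
    ring
  rw [← e]
  exact h1

/-- derivative along a real parameter -/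
theorem hasDerivAt_om_real {T1 : ℝ} {w : ℂ} {F : ℝ → ℂ → ℂ} {f' : ℂ} {x : ℝ}
    (h : HasDerivAt (fun η => F η w) f' x) :
    HasDerivAt (fun η => om T1 (F η) w) (-(omA T1 w * f') * om T1 (F x) w) x := by
  have h1 := ((h.const_mul (omA T1 w)).neg).cexp
  have e : Complex.exp (-(omA T1 w * F x w)) * -(omA T1 w * f') =
      -(omA T1 w * f') * om T1 (F x) w := by
    rw [om_val]
    ring
  rw [← e]
  exact h1

/-- derivative in `w` -/
theorem hasDerivAt_om_w {T1 : ℝ} {P : ℂ → ℂ} {w a' p' : ℂ} (ha : HasDerivAt (omA T1) a' w)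
    (hp : HasDerivAt P p' w) :
    HasDerivAt (om T1 P) (-(a' * P w + omA T1 w * p') * om T1 P w) w := by
  have h1 := ((ha.mul hp).neg).cexp
  have e : Complex.exp (-(omA T1 w * P w)) * -(a' * P w + omA T1 w * p') =
      -(a' * P w + omA T1 w * p') * om T1 P w := by
    rw [om_val]
    ring
  rw [← e]
  exact h1

/-- the derivative of `omA` in `w` -/
def omAd (T1 : ℝ) (w : ℂ) : ℂ :=
  -(11 * Real.exp (-(11 / 2) * T1) * Complex.sin (11 / 2 * (w + 31 / 32 * l)))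

theorem hasDerivAt_omAd (T1 : ℝ) (w : ℂ) : HasDerivAt (omA T1) (omAd T1 w) w := by
  have h1 : HasDerivAt (fun w : ℂ => ((11 / 2 : ℝ) : ℂ) * (w + ((31 / 32 * l : ℝ) : ℂ)))
      ((11 / 2 : ℝ) : ℂ) w := by
    simpa using ((hasDerivAt_id w).add_const ((31 / 32 * l : ℝ) : ℂ)).const_mul ((11 / 2 : ℝ) : ℂ)
  have h2 := (h1.ccos).const_mul (2 * (Real.exp (-(11 / 2) * T1) : ℂ))
  have e : 2 * (Real.exp (-(11 / 2) * T1) : ℂ) *
      (-Complex.sin (((11 / 2 : ℝ) : ℂ) * (w + ((31 / 32 * l : ℝ) : ℂ))) * ((11 / 2 : ℝ) : ℂ)) =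
      omAd T1 w := by
    unfold omAd
    push_cast
    ring
  rw [← e]
  exact h2

lemma norm_sin_le_coshD (z : ℂ) : ‖Complex.sin z‖ ≤ Real.cosh z.im := by
  have h := norm_cos_le_cosh (z - Real.pi / 2)
  rw [Complex.cos_sub_pi_div_two] at h
  have e : (z - (Real.pi : ℂ) / 2).im = z.im := by
    have : (Real.pi : ℂ) / 2 = ((Real.pi / 2 : ℝ) : ℂ) := by push_cast; rfl
    rw [this, sub_im, ofReal_im, sub_zero]
  rwa [e] at h

theorem norm_omAd_le (T1 : ℝ) (w : ℂ) : ‖omAd T1 w‖ ≤ 11 * Real.exp (11 / 2 * (|w.im| - T1)) := by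
  unfold omAd
  rw [norm_neg, norm_mul, norm_mul, Complex.norm_real, Real.norm_of_nonneg (Real.exp_pos _).le]
  have h0 : ‖(11 : ℂ)‖ = 11 := by simp
  rw [h0]
  have h1 := norm_sin_le_coshD (11 / 2 * (w + 31 / 32 * l))
  have e1 : (11 / 2 * (w + 31 / 32 * l) : ℂ).im = 11 / 2 * w.im := by
    have a : (11 / 2 * (w + 31 / 32 * l) : ℂ) =
        ((11 / 2 : ℝ) : ℂ) * (w + ((31 / 32 * l : ℝ) : ℂ)) := by push_cast; ring
    rw [a, Complex.im_ofReal_mul, add_im, ofReal_im, add_zero]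
  rw [e1] at h1
  have h2 := cosh_le_exp_abs (11 / 2 * w.im)
  rw [abs_mul, abs_of_nonneg (by norm_num : (0 : ℝ) ≤ 11 / 2)] at h2
  have e2 : Real.exp (11 / 2 * (|w.im| - T1)) =
      Real.exp (-(11 / 2) * T1) * Real.exp (11 / 2 * |w.im|) := by
    rw [← Real.exp_add]
    ring_nf
  rw [e2]
  have := mul_le_mul_of_nonneg_left (h1.trans h2) (Real.exp_pos (-(11 / 2) * T1)).le
  linarith

/-- the double exponential with `1 / 6` is the one with `1 / 5` at `T1' = T1 + 2 / 11 log (6 / 5)` -/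
theorem dexp_shift (t T1 : ℝ) : Real.exp (-(Real.exp (11 / 2 * (t - T1)) / 6)) =
    Real.exp (-(Real.exp (11 / 2 * (t - (T1 + 2 / 11 * Real.log (6 / 5)))) / 5)) := by
  have e : 11 / 2 * (t - (T1 + 2 / 11 * Real.log (6 / 5))) =
      11 / 2 * (t - T1) - Real.log (6 / 5) := by ring
  rw [e, Real.exp_sub, Real.exp_log (by norm_num)]
  congr 2
  ring

private lemma le_exp_div (y : ℝ) : y ≤ 30 * Real.exp (y / 30) := by
  have := Real.add_one_le_exp (y / 30)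
  linarith

/-- value form of the one bound for all heights -/
theorem norm_exp_omA_le {T1 : ℝ} {w p : ℂ} (hw : |w.re + 31 / 32 * l| ≤ 77 / 160 * l)
    (h1 : |w.im| ≤ T1 → ‖p‖ ≤ 1) (h2 : T1 ≤ |w.im| → ‖p - 1‖ ≤ 1 / 5) :
    ‖Complex.exp (-(omA T1 w * p))‖ ≤
      Real.exp 3 * Real.exp (-(Real.exp (11 / 2 * (|w.im| - T1)) / 5)) :=
  norm_om_le (P := fun _ => p) hw h1 h2

/-- `‖omA‖ ‖om‖` at every height, value form -/
theorem norm_omA_exp {T1 : ℝ} {w p : ℂ} (hw : |w.re + 31 / 32 * l| ≤ 77 / 160 * l)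
    (h1 : |w.im| ≤ T1 → ‖p‖ ≤ 1) (h2 : T1 ≤ |w.im| → ‖p - 1‖ ≤ 1 / 5) :
    ‖omA T1 w‖ * ‖Complex.exp (-(omA T1 w * p))‖ ≤
      60 * Real.exp 3 * Real.exp (-(Real.exp (11 / 2 * (|w.im| - T1)) / 6)) := by
  obtain ⟨y, hy⟩ : ∃ y, y = Real.exp (11 / 2 * (|w.im| - T1)) := ⟨_, rfl⟩
  have a := norm_omA_le T1 w
  have b := norm_exp_omA_le hw h1 h2
  rw [← hy] at a b ⊢
  have hy0 : 0 < y := by rw [hy]; exact Real.exp_pos _
  have c := le_exp_div y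
  have e : Real.exp (-(y / 5)) * Real.exp (y / 30) = Real.exp (-(y / 6)) := by
    rw [← Real.exp_add]
    congr 1
    ring
  calc ‖omA T1 w‖ * ‖Complex.exp (-(omA T1 w * p))‖ ≤ 2 * y * (Real.exp 3 * Real.exp (-(y / 5))) :=
        mul_le_mul a b (norm_nonneg _) (by positivity)
    _ ≤ 2 * (30 * Real.exp (y / 30)) * (Real.exp 3 * Real.exp (-(y / 5))) :=
        mul_le_mul_of_nonneg_right (by linarith) (by positivity)
    _ = 60 * Real.exp 3 * (Real.exp (-(y / 5)) * Real.exp (y / 30)) := by ring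
    _ = _ := by rw [e]

/-- **`‖omA‖ ‖om‖` at every height** -/
theorem norm_omA_om {T1 : ℝ} {P : ℂ → ℂ} {w : ℂ} (hw : |w.re + 31 / 32 * l| ≤ 77 / 160 * l)
    (h1 : |w.im| ≤ T1 → ‖P w‖ ≤ 1) (h2 : T1 ≤ |w.im| → ‖P w - 1‖ ≤ 1 / 5) :
    ‖omA T1 w‖ * ‖om T1 P w‖ ≤
      60 * Real.exp 3 * Real.exp (-(Real.exp (11 / 2 * (|w.im| - T1)) / 6)) :=
  norm_omA_exp hw h1 h2

/-- **`‖omAd‖ ‖om‖` at every height** (the point `w` moves) -/
theorem norm_omAd_om {T1 : ℝ} {P : ℂ → ℂ} {w : ℂ} (hw : |w.re + 31 / 32 * l| ≤ 77 / 160 * l)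
    (h1 : |w.im| ≤ T1 → ‖P w‖ ≤ 1) (h2 : T1 ≤ |w.im| → ‖P w - 1‖ ≤ 1 / 5) :
    ‖omAd T1 w‖ * ‖om T1 P w‖ ≤
      330 * Real.exp 3 * Real.exp (-(Real.exp (11 / 2 * (|w.im| - T1)) / 6)) := by
  obtain ⟨y, hy⟩ : ∃ y, y = Real.exp (11 / 2 * (|w.im| - T1)) := ⟨_, rfl⟩
  have a := norm_omAd_le T1 w
  have b := norm_om_le hw h1 h2
  rw [← hy] at a b ⊢
  have hy0 : 0 < y := by rw [hy]; exact Real.exp_pos _
  have c := le_exp_div y
  have e : Real.exp (-(y / 5)) * Real.exp (y / 30) = Real.exp (-(y / 6)) := by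
    rw [← Real.exp_add]
    congr 1
    ring
  calc ‖omAd T1 w‖ * ‖om T1 P w‖ ≤ 11 * y * (Real.exp 3 * Real.exp (-(y / 5))) :=
        mul_le_mul a b (norm_nonneg _) (by positivity)
    _ ≤ 11 * (30 * Real.exp (y / 30)) * (Real.exp 3 * Real.exp (-(y / 5))) :=
        mul_le_mul_of_nonneg_right (by linarith) (by positivity)
    _ = 330 * Real.exp 3 * (Real.exp (-(y / 5)) * Real.exp (y / 30)) := by ring
    _ = _ := by rw [e]

/-- the cut with `1 / 6` -/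
theorem norm_om_six {T1 : ℝ} {P : ℂ → ℂ} {w : ℂ} (hw : |w.re + 31 / 32 * l| ≤ 77 / 160 * l)
    (h1 : |w.im| ≤ T1 → ‖P w‖ ≤ 1) (h2 : T1 ≤ |w.im| → ‖P w - 1‖ ≤ 1 / 5) :
    ‖om T1 P w‖ ≤ Real.exp 3 * Real.exp (-(Real.exp (11 / 2 * (|w.im| - T1)) / 6)) := by
  refine (norm_om_le hw h1 h2).trans ?_
  have h := Real.exp_pos (11 / 2 * (|w.im| - T1))
  exact mul_le_mul_of_nonneg_left (Real.exp_le_exp.2 (by linarith)) (Real.exp_pos _).le

/-- **derivative of `φ om`** along a parameter (rows move), `‖φ‖ ≤ M`, `‖φ'‖ ≤ D`, `‖P'‖ ≤ D'` :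
`‖(φ om)'‖ ≤ e ^ 3 (D + 60 M D') exp (- exp (11 / 2 (|Im w| - T1)) / 6)` -/
theorem norm_deriv_phi_om {T1 M D D' : ℝ} {P : ℂ → ℂ} {w φ φ' p' : ℂ}
    (hw : |w.re + 31 / 32 * l| ≤ 77 / 160 * l)
    (h1 : |w.im| ≤ T1 → ‖P w‖ ≤ 1) (h2 : T1 ≤ |w.im| → ‖P w - 1‖ ≤ 1 / 5) (hM : ‖φ‖ ≤ M)
    (hD : ‖φ'‖ ≤ D) (hD' : ‖p'‖ ≤ D') :
    ‖φ' * om T1 P w + φ * (-(omA T1 w * p') * om T1 P w)‖ ≤ Real.exp 3 * (D + 60 * (M * D')) *
      Real.exp (-(Real.exp (11 / 2 * (|w.im| - T1)) / 6)) := by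
  have a := norm_om_six hw h1 h2
  have b := norm_omA_om hw h1 h2
  obtain ⟨E, hE⟩ : ∃ E, E = Real.exp (-(Real.exp (11 / 2 * (|w.im| - T1)) / 6)) := ⟨_, rfl⟩
  rw [← hE] at a b ⊢
  have hE0 : 0 < E := by rw [hE]; exact Real.exp_pos _
  have hM0 : 0 ≤ M := (norm_nonneg _).trans hM
  have hD0 : 0 ≤ D := (norm_nonneg _).trans hD
  have hD0' : 0 ≤ D' := (norm_nonneg _).trans hD'
  have c1 : ‖φ' * om T1 P w‖ ≤ D * (Real.exp 3 * E) := by
    rw [norm_mul]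
    exact mul_le_mul hD a (norm_nonneg _) hD0
  have c2 : ‖φ * (-(omA T1 w * p') * om T1 P w)‖ ≤ M * D' * (60 * Real.exp 3 * E) := by
    have e : ‖φ * (-(omA T1 w * p') * om T1 P w)‖ = ‖φ‖ * ‖p'‖ * (‖omA T1 w‖ * ‖om T1 P w‖) := by
      rw [norm_mul, norm_mul, norm_neg, norm_mul]
      ring
    rw [e]
    exact mul_le_mul (mul_le_mul hM hD' (norm_nonneg _) hM0) b (by positivity) (by positivity)
  refine (norm_add_le _ _).trans ((add_le_add c1 c2).trans (le_of_eq ?_))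
  ring

/-- the conditions pass to the segment -/
private lemma seg_cond {T1 : ℝ} {w p q : ℂ} (h1 : |w.im| ≤ T1 → ‖p‖ ≤ 1) (h2 : T1 ≤ |w.im| → ‖p - 1‖ ≤ 1 / 5)
    (h3 : |w.im| ≤ T1 → ‖q‖ ≤ 1) (h4 : T1 ≤ |w.im| → ‖q - 1‖ ≤ 1 / 5) {x : ℂ}
    (hx : x ∈ segment ℝ p q) : (|w.im| ≤ T1 → ‖x‖ ≤ 1) ∧ (T1 ≤ |w.im| → ‖x - 1‖ ≤ 1 / 5) := by
  constructor
  · intro h
    have hp : p ∈ Metric.closedBall (0 : ℂ) 1 := by rw [mem_closedBall_zero_iff]; exact h1 h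
    have hq : q ∈ Metric.closedBall (0 : ℂ) 1 := by rw [mem_closedBall_zero_iff]; exact h3 h
    have := (convex_closedBall (0 : ℂ) 1).segment_subset hp hq hx
    rwa [mem_closedBall_zero_iff] at this
  · intro h
    have hp : p ∈ Metric.closedBall (1 : ℂ) (1 / 5) := by rw [mem_closedBall_iff_norm]; exact h2 h
    have hq : q ∈ Metric.closedBall (1 : ℂ) (1 / 5) := by rw [mem_closedBall_iff_norm]; exact h4 h
    have := (convex_closedBall (1 : ℂ) (1 / 5)).segment_subset hp hq hx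
    rwa [mem_closedBall_iff_norm] at this

/-- **difference of two cuts** -/
theorem norm_om_sub {T1 : ℝ} {P Q : ℂ → ℂ} {w : ℂ} (hw : |w.re + 31 / 32 * l| ≤ 77 / 160 * l)
    (h1 : |w.im| ≤ T1 → ‖P w‖ ≤ 1) (h2 : T1 ≤ |w.im| → ‖P w - 1‖ ≤ 1 / 5)
    (h3 : |w.im| ≤ T1 → ‖Q w‖ ≤ 1) (h4 : T1 ≤ |w.im| → ‖Q w - 1‖ ≤ 1 / 5) :
    ‖om T1 P w - om T1 Q w‖ ≤
      60 * Real.exp 3 * Real.exp (-(Real.exp (11 / 2 * (|w.im| - T1)) / 6)) * ‖P w - Q w‖ := by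
  have key := (convex_segment (𝕜 := ℝ) (Q w) (P w)).norm_image_sub_le_of_norm_hasDerivWithin_le
    (f := fun x => Complex.exp (-(omA T1 w * x)))
    (f' := fun x => Complex.exp (-(omA T1 w * x)) * -(omA T1 w))
    (C := 60 * Real.exp 3 * Real.exp (-(Real.exp (11 / 2 * (|w.im| - T1)) / 6)))
    (x := Q w) (y := P w) ?_ ?_ (left_mem_segment ℝ _ _) (right_mem_segment ℝ _ _)
  · exact key
  · intro x _
    have h : HasDerivAt (fun x : ℂ => omA T1 w * x) (omA T1 w) x := by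
      simpa using (hasDerivAt_id x).const_mul (omA T1 w)
    exact h.neg.cexp.hasDerivWithinAt
  · intro x hx
    obtain ⟨c1, c2⟩ := seg_cond h3 h4 h1 h2 hx
    have := norm_omA_exp hw c1 c2
    rw [norm_mul, norm_neg, mul_comm]
    exact this

end PHK

end
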