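import Pool.Agent.PLX.PB.ZcCa
import Pool.Agent.PHK.BrT
import Pool.Agent.PHK.OmD

/-!
# (P): the moved cutoffs of the first Ward identity

In the family of the cut term the cutoff of the strings is `phi_0 exp (- A P)`, `P` the product of the
functions `psi_0` of the moved rows, and the exponent `A` is transported by the field.  So
`(∂_η + I ξ ∂_w)` of it is `DS6 = DR om (1 + omA phi_0)`, `DR = (∂_η + I ξ ∂_w) phi_0`.

* `FlX6`: the field, analytic for `l / 9 ≤ Re ≤ 31 l / 20` (holes); **`flX6_xiR`**;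
* `DS6`, `DT6`: the moved cut of the strings `E`, `F` and of `T`;
* `norm_DS6_le`: `‖DS6‖ ≤ C k ^ (-3) ‖phi_0 om‖` for every `T1 ≥ 3 / 8 log k`;
* `DR_form`: `‖DR‖ ≤ K e^{-6 b |t|} e^{-MF} e^{-κ a e^{-(8/3)|t|}}` on the line of `T`, all heights;
* **`cutH6_R0`**: `CutH6` for the rows `η I, 0 ^ k`, the bound `MT` of `T` as landed.
-/

set_option autoImplicit false
set_option linter.unusedVariables false
set_option linter.unusedSectionVars false

noncomputable section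

open Complex Set

namespace PBC.PLX

open NUP1 NUP1S.AbC NURow NUO NUGC NUGC.PLX PBX PBX.PLX
open NUP1S hiding R0
open PBFar hiding W0 phi_W0 phi_R0 phi_le phi_ge phi_le_R phi_ge_R vI DW DR hasDerivAt_W hasDerivAt_R
  CW trW far_W far_W_prod trR far_R_prod far_R_tr norm_vI_le cutT DT hasDerivAt_T
  eMF eMF_pos prods DT_eq far_T_form far_T_all exact_rows far_R0 far_R0_prod Ep_row
open PBFar.PLX
open PBForce (xiR)
open PBL (mu1)
open PHK (om omA pP phO tau0)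
open PBO.PLX (RwL)
open _root_.PLX (Fil)

/-! ## the field -/

/-- **the field at the heads**, with the lines of the holes -/
structure FlX6 (k : ℕ) (C0 : ℝ) (X : ℂ → ℂ) (ξe : ℝ → ℂ) : Prop where
  me : Measurable X
  fl : ∀ r, 1 / 9 * l ≤ r → r ≤ 31 / 20 * l → Fl k C0 (fun t => X (vl r t)) ξe
  df : ∀ u : ℂ, 1 / 9 * l ≤ u.re → u.re ≤ 31 / 20 * l → DifferentiableAt ℂ X u

theorem FlX6.flX {k : ℕ} {C0 : ℝ} {X : ℂ → ℂ} {ξe : ℝ → ℂ} (h : FlX6 k C0 X ξe) :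
    FlX k C0 X ξe := by
  have hl := Bd.l_pos
  exact ⟨h.me, fun r r0 r1 => h.fl r (by linarith) r1, fun u u0 u1 => h.df u (by linarith) u1⟩

/-- the field is bounded -/
theorem FlX6.norm_le {k : ℕ} {C0 : ℝ} {X : ℂ → ℂ} {ξe : ℝ → ℂ} (h : FlX6 k C0 X ξe) {u : ℂ}
    (u0 : 1 / 9 * l ≤ u.re) (u1 : u.re ≤ 31 / 20 * l) : ‖X u‖ ≤ 2 * C0 / k := by
  have h1 := (h.fl u.re u0 u1).norm_le u.im
  have e : vl u.re u.im = u := by
    unfold vl
    exact re_add_im u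
  beta_reduce at h1
  rwa [e] at h1

theorem flX6_xiR : ∃ C0 : ℝ, 1 ≤ C0 ∧ ∀ k : ℕ, 1 ≤ k → ∀ η : ℝ, |η| ≤ 1 →
    FlX6 k C0 (xiR (rwx k η) 0) (xe k η) := by
  have hl := Bd.l_pos
  obtain ⟨C0, h1, H⟩ := fl_xiR (b := 8 / 9 * l) (by positivity) (by linarith)
  refine ⟨C0, h1, fun k hk η hη => ⟨PBC.meas_xiR _ _, fun r r0 r1 => H k hk η hη r ?_,
    fun u u0 u1 => PBForce.xiR_diff0 (rws_rwx k hη) 0 ?_⟩⟩
  · rw [abs_le]
    constructor <;> (clear * - r0 hl r1; linarith)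
  · have e : (u - l).re = u.re - l := by simp
    rw [e, abs_lt]
    constructor <;> (clear * - hl u0 u1; linarith)

/-! ## the moved cuts of the strings -/

/-- `(∂_η + ξ ∂_t) (phi_0 om)`, the exponent of `om` transported -/
def DS6 (q a : ℕ) (x v : ℂ) (T1 : ℝ) (ξ w : ℂ) : ℂ :=
  DR q (4 / 3) a x v ξ w * (om T1 (pP (R0 q a x)) w * (1 + omA T1 w * NUP1.phi (4 / 3) (R0 q a x) w))

/-- the cut of `T` -/
def cutT6 (q : ℕ) (b : ℝ) (a : ℕ) (x : ℂ) (e : Fin 2 → ℂ) (T1 : ℝ) (w : ℂ) : ℂ :=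
  NUP1.phi b (W0 q a x e) w * NUP1.phi b (W0 q a x e) (w - l) - phO T1 (R0 q a x) w

/-- `(∂_η + ξ ∂_t)` of the cut of `T` -/
def DT6 (q : ℕ) (b : ℝ) (a : ℕ) (x v : ℂ) (ξe : ℝ → ℂ) (T1 : ℝ) (ξ w : ℂ) : ℂ :=
  DW q b a x v ξe ξ w * NUP1.phi b (W0 q a x wE) (w - l) +
    NUP1.phi b (W0 q a x wE) w * DW q b a x v ξe ξ (w - l) - DS6 q a x v T1 ξ w

theorem DT6_eq (q : ℕ) (b : ℝ) (a : ℕ) (x v : ℂ) (ξe : ℝ → ℂ) (T1 : ℝ) (ξ w : ℂ) :
    DT6 q b a x v ξe T1 ξ w = DT q b a x v ξe ξ w + DR q (4 / 3) a x v ξ w *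
      (1 - om T1 (pP (R0 q a x)) w * (1 + omA T1 w * NUP1.phi (4 / 3) (R0 q a x) w)) := by
  unfold DT6 DT DS6
  ring

/-! ## the strings -/

theorem re_R0 {q a : ℕ} {x : ℂ} (hx : |x.re| ≤ l / 2) : ∀ y ∈ R0 q a x, |y.re| ≤ l / 2 := by
  have hl := Bd.l_pos
  intro y hy
  rcases List.mem_append.1 hy with h | h
  · rw [List.eq_of_mem_replicate h]
    exact hx
  · rw [List.eq_of_mem_replicate h, zero_re, abs_zero]
    positivity

/-- the rows as a list of the machine -/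
theorem rwL_R0 {q a : ℕ} {x : ℂ} {h0 : ℝ} (hh : 0 ≤ h0) (hx : |x.re| ≤ l / 2) (hx' : |x.im| ≤ h0) :
    RwL q h0 a (R0 q a x) (List.replicate q x) where
  perm := List.perm_append_comm
  len := by simp
  re y hy := by
    rw [List.eq_of_mem_replicate hy]
    exact hx
  im y hy := by
    rw [List.eq_of_mem_replicate hy]
    exact hx'

theorem phi_R0_two {q a : ℕ} {x u : ℂ} (hx : |x.re| ≤ l / 2) (hx' : |x.im| ≤ 2)
    (hu : |u.re + l / 2| ≤ l) : ‖NUP1.phi (4 / 3) (R0 q a x) u‖ ≤ 2 :=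
  (PHK.phiL_cut (m := 1) (β := 4 / 3) (by norm_num) le_rfl (by norm_num)
    (rwL_R0 (h0 := 2) (q := q) (a := a) (by norm_num) hx hx')
    (Nat.cast_nonneg (R0 q a x).length) (by simp) hu).1

theorem pP_R0_le {q a : ℕ} {x u : ℂ} (hx : |x.re| ≤ l / 2) (hx' : |x.im| ≤ 2)
    (hu : |u.re + l / 2| ≤ l) : ‖pP (R0 q a x) u‖ ≤ 1 :=
  PHK.pP_le (h0 := 2) (by norm_num) (rwL_R0 (q := q) (a := a) (by norm_num) hx hx') hu

theorem exp8_le {k : ℕ} (hk : 1 ≤ k) {T1 : ℝ} (hT : 3 / 8 * Real.log k ≤ T1) :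
    Real.exp (-(8 * T1)) ≤ 1 / (k : ℝ) ^ 3 := by
  have hk0 : (0 : ℝ) < k := by exact_mod_cast hk
  have e : 1 / (k : ℝ) ^ 3 = Real.exp (-(3 * Real.log k)) := by
    rw [Real.exp_neg, one_div, mul_comm, Real.exp_mul, Real.exp_log hk0]
    norm_cast
  rw [e]
  exact Real.exp_le_exp.2 (by (clear * - hT; linarith))

/-- **the moved cut of the strings**, relative -/
theorem norm_DS6_le {q a k : ℕ} (hk : 1 ≤ k) {x v ξ u : ℂ} (hx : |x.re| ≤ l / 2) (hx' : |x.im| ≤ 2)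
    {T1 : ℝ} (hT3 : 3 ≤ T1) (hT : 3 / 8 * Real.log k ≤ T1) (hu : |u.re + l / 2| ≤ l)
    {c K : ℝ} (hc : 0 ≤ c) (hK : 0 ≤ K)
    (h1 : ‖DR q (4 / 3) a x v ξ u‖ ≤ c / (k : ℝ) ^ 3 * ‖NUP1.phi (4 / 3) (R0 q a x) u‖)
    (h2 : 3 ≤ |u.im| → ‖DR q (4 / 3) a x v ξ u‖ ≤
      K * Real.exp (-(8 * |u.im|)) * ‖1 - NUP1.phi (4 / 3) (R0 q a x) u‖) :
    ‖DS6 q a x v T1 ξ u‖ ≤ (5 * c + 2 * K) / (k : ℝ) ^ 3 * ‖phO T1 (R0 q a x) u‖ := by
  have hk0 : (0 : ℝ) < k := by exact_mod_cast hk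
  have hk3 : (0 : ℝ) < (k : ℝ) ^ 3 := by positivity
  have p2 := phi_R0_two (q := q) (a := a) hx hx' hu
  have q1 := pP_R0_le (q := q) (a := a) hx hx' hu
  obtain ⟨φ, hφ⟩ : ∃ φ, φ = NUP1.phi (4 / 3) (R0 q a x) u := ⟨_, rfl⟩
  obtain ⟨D, hD⟩ : ∃ D, D = DR q (4 / 3) a x v ξ u := ⟨_, rfl⟩
  obtain ⟨A, hA⟩ : ∃ A, A = omA T1 u := ⟨_, rfl⟩
  have hA1 := PHK.norm_omA_le T1 u
  rw [← hA] at hA1
  rw [← hφ] at h1 h2 p2
  rw [← hD] at h1 h2
  -- the product with the exponent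
  have key : ‖D‖ * ‖A‖ ≤ (4 * c + 2 * K) / (k : ℝ) ^ 3 := by
    rcases le_total |u.im| T1 with h | h
    · have b : Real.exp (11 / 2 * (|u.im| - T1)) ≤ 1 := Real.exp_le_one_iff.2 (by (clear * - h; linarith))
      have b2 : ‖A‖ ≤ 2 := by linarith
      have b3 : ‖D‖ ≤ c / (k : ℝ) ^ 3 * 2 :=
        h1.trans (mul_le_mul_of_nonneg_left p2 (by positivity))
      calc ‖D‖ * ‖A‖ ≤ c / (k : ℝ) ^ 3 * 2 * 2 :=
            mul_le_mul b3 b2 (norm_nonneg _) (by positivity)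
        _ = 4 * c / (k : ℝ) ^ 3 := by ring
        _ ≤ _ := div_le_div_of_nonneg_right (by (clear * - hK; linarith)) hk3.le
    · have b1 := h2 (hT3.trans h)
      have e0 : 1 - φ = pP (R0 q a x) u := by
        rw [hφ, PHK.phi_pP, sub_sub_cancel]
      rw [e0] at b1
      have b3 : ‖D‖ ≤ K * Real.exp (-(8 * |u.im|)) :=
        b1.trans (mul_le_of_le_one_right (by positivity) q1)
      calc ‖D‖ * ‖A‖ ≤ (K * Real.exp (-(8 * |u.im|))) * (2 * Real.exp (11 / 2 * (|u.im| - T1))) :=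
            mul_le_mul b3 hA1 (norm_nonneg _) (by positivity)
        _ = 2 * K * Real.exp (-(8 * T1) + -(5 / 2 * (|u.im| - T1))) := by
            rw [show K * Real.exp (-(8 * |u.im|)) * (2 * Real.exp (11 / 2 * (|u.im| - T1))) =
              2 * K * (Real.exp (-(8 * |u.im|)) * Real.exp (11 / 2 * (|u.im| - T1))) by ring,
              ← Real.exp_add]
            congr 2
            ring
        _ ≤ 2 * K * Real.exp (-(8 * T1)) :=
            mul_le_mul_of_nonneg_left (Real.exp_le_exp.2 (by (clear * - h; linarith))) (by positivity)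
        _ ≤ 2 * K * (1 / (k : ℝ) ^ 3) := mul_le_mul_of_nonneg_left (exp8_le hk hT) (by positivity)
        _ = 2 * K / (k : ℝ) ^ 3 := by ring
        _ ≤ _ := div_le_div_of_nonneg_right (by linarith) hk3.le
  unfold DS6 phO
  rw [← hφ, ← hD, ← hA, norm_mul, norm_mul, norm_mul]
  have hb : ‖1 + A * φ‖ ≤ 1 + ‖A‖ * ‖φ‖ := by
    refine (norm_add_le _ _).trans ?_
    rw [norm_one, norm_mul]
  obtain ⟨o, ho⟩ : ∃ o, o = ‖om T1 (pP (R0 q a x)) u‖ := ⟨_, rfl⟩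
  have ho0 : 0 ≤ o := by rw [ho]; exact norm_nonneg _
  rw [← ho]
  have k1 : ‖D‖ * (1 + ‖A‖ * ‖φ‖) ≤ (5 * c + 2 * K) / (k : ℝ) ^ 3 * ‖φ‖ := by
    calc ‖D‖ * (1 + ‖A‖ * ‖φ‖) = ‖D‖ + ‖D‖ * ‖A‖ * ‖φ‖ := by ring
      _ ≤ c / (k : ℝ) ^ 3 * ‖φ‖ + (4 * c + 2 * K) / (k : ℝ) ^ 3 * ‖φ‖ :=
          add_le_add h1 (mul_le_mul_of_nonneg_right key (norm_nonneg _))
      _ = _ := by ring
  calc ‖D‖ * (o * ‖1 + A * φ‖) ≤ ‖D‖ * (o * (1 + ‖A‖ * ‖φ‖)) := by (clear * - hb ho0; gcongr)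
    _ = ‖D‖ * (1 + ‖A‖ * ‖φ‖) * o := by ring
    _ ≤ (5 * c + 2 * K) / (k : ℝ) ^ 3 * ‖φ‖ * o := mul_le_mul_of_nonneg_right k1 ho0
    _ = _ := by ring

/-! ## the line of `T` -/

/-- `DR` on the line of `T`, near the axis -/
theorem norm_DR_near {κ b : ℝ} (hG : PB.K11.Good κ b) (hκ : 0 ≤ κ) (hκ1 : κ ≤ 1 / 100) (q a : ℕ)
    {η : ℝ} (hη : |η| ≤ 1) (t : ℝ) (ξ : ℂ) :
    ‖DR q (4 / 3) a ((η : ℂ) * I) I ξ (posT t)‖ ≤
      688 * Real.exp 3 * ((a + q) * ‖ξ‖ + q) * Real.exp (-(8 / 3) * |t|) *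
        (eMF q a η t * Real.exp (-(κ * (a * Real.exp (-(8 / 3) * |t|))))) := by
  classical
  have hl := Bd.l_pos
  obtain ⟨s1, s2, s3⟩ := posT_strip t
  let ι := Fin q ⊕ Fin a
  let y : ι → ℝ → ℂ := Sum.elim (fun _ s => ((η + s : ℝ) : ℂ) * I) (fun _ _ => 0)
  let v : ι → ℂ := Sum.elim (fun _ => I) (fun _ => 0)
  have dlin : ∀ p r : ℂ, HasDerivAt (fun s : ℝ => p + s * r) r 0 := by
    intro p r
    have := ((Complex.ofRealCLM.hasDerivAt (x := (0 : ℝ))).mul_const r).const_add p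
    simpa using this
  have hX : HasDerivAt (fun s : ℝ => ((η + s : ℝ) : ℂ) * I) I 0 := by
    have := dlin ((η : ℂ) * I) I
    refine this.congr_of_eventuallyEq (Filter.Eventually.of_forall fun s => ?_)
    show ((η + s : ℝ) : ℂ) * I = (η : ℂ) * I + s * I
    push_cast
    ring
  have hu : HasDerivAt (fun s : ℝ => posT t + I * (ξ * s)) (I * ξ) 0 := by
    have := (((Complex.ofRealCLM.hasDerivAt (x := (0 : ℝ))).const_mul ξ).const_mul I).const_add (posT t)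
    simpa using this
  have hu0 : posT t + I * (ξ * ((0 : ℝ) : ℂ)) = posT t := by simp
  have dy : ∀ i, HasDerivAt (y i) (v i) 0 := by
    rintro (i | i)
    · exact hX
    · exact hasDerivAt_const _ _
  have hre : ∀ i, (y i 0).re = 0 := by
    rintro (i | i)
    · show (((η + 0 : ℝ) : ℂ) * I).re = 0
      simp
    · rfl
  have him : ∀ i, |(y i 0).im| ≤ 1 := by
    rintro (i | i)
    · show |(((η + 0 : ℝ) : ℂ) * I).im| ≤ 1
      simpa using hη
    · show |(0 : ℂ).im| ≤ 1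
      simp
  have hz : ∀ i, |(posT t - y i 0).re + l / 2| ≤ 3 * l / 2 := by
    intro i
    rw [sub_re, hre i, PB.K11.posT_re, abs_le]
    constructor <;> (clear * - hl; linarith)
  -- the derivative along the path
  have hT := hasDerivAt_R hyp_43 (q := q) (a := a) (x := (η : ℂ) * I) (v := I) (re_row η)
    (X := fun s : ℝ => ((η + s : ℝ) : ℂ) * I) (u := fun s : ℝ => posT t + I * (ξ * s)) (ξ := ξ)
    (τ := 0) hX (by simp) hu (by simp only [hu0]; exact s1)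
  simp only [hu0] at hT
  have hprod := PB.K11.hasDerivAt_prod_psi (β := 4 / 3) (by norm_num) le_rfl (Finset.univ : Finset ι)
    dy hu (fun i => by simp only [hu0]; exact hz i)
  simp only [hu0] at hprod
  have hfun : (fun s : ℝ => NUP1.phi (4 / 3) (R0 q a (((η + s : ℝ) : ℂ) * I)) (posT t + I * (ξ * s))) =
      fun s : ℝ => 1 - ∏ i : ι, psi (4 / 3) (posT t + I * (ξ * s) - y i s) := by
    funext s
    rw [show (∏ i : ι, psi (4 / 3) (posT t + I * (ξ * s) - y i s)) =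
      ∏ i : Fin q ⊕ Fin a, psi (4 / 3) (posT t + I * (ξ * s) - y i s) from rfl, Fintype.prod_sum_type]
    simp only [y, Sum.elim_inl, Sum.elim_inr, Finset.prod_const, Finset.card_univ, Fintype.card_fin]
    unfold NUP1.phi R0
    rw [List.map_append, List.prod_append, List.map_replicate, List.map_replicate,
      List.prod_replicate, List.prod_replicate]
  rw [hfun] at hT
  rw [hT.unique (hprod.const_sub 1), norm_neg]
  -- the bound
  have him2 : ∀ i, (posT t - y i 0).im = t - (y i 0).im := fun i => by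
    rw [sub_im, PB.K11.posT_im]
  have hy2 : ∀ i, |(y i 0).re| ≤ l / 2 := fun i => by rw [hre i, abs_zero]; positivity
  set g : ι → ℝ := fun i => ‖psi (4 / 3) (posT t - l - y i 0)‖ with hg
  set ww : ι → ℝ := fun i => PB.K11.wt (y i 0) t with hww
  have h8 : ∀ i ∈ (Finset.univ : Finset ι), 1 / 8 ≤ g i * Real.exp (-(κ * ww i)) := by
    intro i _
    have a1 : 1 / 4 ≤ g i := by
      refine PB.K11.psi43_ge ?_ ?_
      · rw [sub_re, sub_re, PB.K11.posT_re, ofReal_re, hre i,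
          show -(1 / 2 * l) - l - 0 + l / 2 = -l by ring, abs_neg, abs_of_pos hl]
      · rw [sub_re, sub_re, PB.K11.posT_re, ofReal_re, hre i,
          show -(1 / 2 * l) - l - 0 + l / 2 = -l by ring, abs_neg, abs_of_pos hl]
        clear * - hl
        linarith
    have a2 : 1 / 2 ≤ Real.exp (-(κ * ww i)) := by
      have b1 : κ * ww i ≤ 1 / 2 := by
        have := PB.K11.wt_le_one (y i 0) t
        have := PB.K11.wt_nonneg (y i 0) t
        nlinarith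
      have := Real.add_one_le_exp (-(κ * ww i))
      clear * - ww b1 this
      linarith
    clear * - g ww a1 a2
    nlinarith
  have nD := PB.K11.norm_dprod_le (β := 4 / 3) (c := fun i => I * ξ - v i) (g := g) (w := ww) (κ := κ)
    (by norm_num) le_rfl (Finset.Subset.refl (Finset.univ : Finset ι)) hz
    (fun i _ => (hG (y i 0) t (hy2 i)).2.2.1) h8
  simp only [him2] at nD
  refine nD.trans ?_
  -- the product
  have hP : ∏ i : ι, g i = eMF q a η t := by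
    have h := PB.K11.PLX.prod_row0 q a η t
    unfold eMF
    rw [← h]
    unfold PB.K11.PLX.row0
    rw [List.map_append, List.prod_append, List.map_replicate, List.map_replicate,
      List.prod_replicate, List.prod_replicate,
      show (∏ i : ι, g i) = ∏ i : Fin q ⊕ Fin a, g i from rfl, Fintype.prod_sum_type]
    simp only [hg, y, Sum.elim_inl, Sum.elim_inr, Finset.prod_const, Finset.card_univ,
      Fintype.card_fin, add_zero]
    rw [mul_comm I]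
  have hS : a * Real.exp (-(8 / 3) * |t|) ≤ ∑ i : ι, ww i := by
    rw [show (∑ i : ι, ww i) = ∑ i : Fin q ⊕ Fin a, ww i from rfl, Fintype.sum_sum_type]
    have e : ∀ i : Fin a, ww (Sum.inr i) = Real.exp (-(8 / 3) * |t|) := by
      intro i
      simp only [hww, y, Sum.elim_inr]
      unfold PB.K11.wt
      simp
    have h0 : 0 ≤ ∑ i : Fin q, ww (Sum.inl i) := Finset.sum_nonneg fun i _ => PB.K11.wt_nonneg _ _
    simp only [e, Finset.sum_const, Finset.card_univ, Fintype.card_fin, nsmul_eq_mul]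
    clear * - ww h0
    linarith
  have hexp : ∀ i, Real.exp (-(2 * (4 / 3)) * |t - (y i 0).im|) ≤
      Real.exp 3 * Real.exp (-(8 / 3) * |t|) := by
    intro i
    rw [← Real.exp_add]
    refine Real.exp_le_exp.2 ?_
    have a1 : |t| ≤ |t - (y i 0).im| + 1 := by
      have := abs_add_le (t - (y i 0).im) (y i 0).im
      rw [sub_add_cancel] at this
      linarith [him i]
    clear * - y a1
    linarith
  have hsum : ∑ i : ι, ‖I * ξ - v i‖ * Real.exp (-(2 * (4 / 3)) * |t - (y i 0).im|) ≤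
      ((a + q) * ‖ξ‖ + q) * (Real.exp 3 * Real.exp (-(8 / 3) * |t|)) := by
    calc _ ≤ ∑ i : ι, (‖ξ‖ + ‖v i‖) * (Real.exp 3 * Real.exp (-(8 / 3) * |t|)) := by
          refine Finset.sum_le_sum fun i _ => mul_le_mul ?_ (hexp i) (Real.exp_pos _).le (by positivity)
          refine (norm_sub_le _ _).trans ?_
          rw [norm_mul, Complex.norm_I, one_mul]
      _ = (∑ i : ι, (‖ξ‖ + ‖v i‖)) * (Real.exp 3 * Real.exp (-(8 / 3) * |t|)) := by
          rw [Finset.sum_mul]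
      _ = _ := by
          congr 1
          rw [show (∑ i : ι, (‖ξ‖ + ‖v i‖)) = ∑ i : Fin q ⊕ Fin a, (‖ξ‖ + ‖v i‖) from rfl,
            Fintype.sum_sum_type]
          simp only [v, Sum.elim_inl, Sum.elim_inr, norm_zero, Complex.norm_I, add_zero,
            Finset.sum_const, Finset.card_univ, Fintype.card_fin, nsmul_eq_mul]
          ring
  have hQ : (∏ i : ι, g i) * Real.exp (-(κ * ∑ i : ι, ww i)) ≤
      eMF q a η t * Real.exp (-(κ * (a * Real.exp (-(8 / 3) * |t|)))) := by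
    rw [hP]
    exact mul_le_mul_of_nonneg_left (Real.exp_le_exp.2 (neg_le_neg
      (mul_le_mul_of_nonneg_left hS hκ))) (eMF_pos q a η t).le
  have hQ0 : 0 ≤ (∏ i : ι, g i) * Real.exp (-(κ * ∑ i : ι, ww i)) :=
    mul_nonneg (Finset.prod_nonneg fun i _ => norm_nonneg _) (Real.exp_pos _).le
  calc _ ≤ 688 * (((a + q) * ‖ξ‖ + q) * (Real.exp 3 * Real.exp (-(8 / 3) * |t|))) *
        (eMF q a η t * Real.exp (-(κ * (a * Real.exp (-(8 / 3) * |t|))))) :=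
        mul_le_mul (mul_le_mul_of_nonneg_left hsum (by norm_num)) hQ hQ0 (by (clear * -; positivity))
    _ = _ := by ring

/-- **`DR` on the line of `T`**, all heights -/
theorem DR_form {b : ℝ} (h1 : 1 ≤ b) (h2 : b < 4 / 3) {κ : ℝ} (hG : PB.K11.Good κ b) (hκ : 0 ≤ κ)
    (hκ1 : κ ≤ 1 / 100) {q : ℕ} (hq : 1 ≤ q) {C0 : ℝ} (hC0 : 1 ≤ C0) :
    ∃ K : ℝ, 0 < K ∧ ∀ k : ℕ, 1 ≤ k → ∀ η : ℝ, |η| ≤ 1 → ∀ ξ : ℝ → ℂ, Fl k C0 ξ (xe k η) → ∀ t : ℝ,
      ‖DR q (4 / 3) (q * k) ((η : ℂ) * I) I (ξ t) (posT t)‖ ≤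
        K * Real.exp (-(6 * b * |t|)) * eMF q (q * k) η t *
          Real.exp (-(κ * ((q * k : ℕ) * Real.exp (-(8 / 3) * |t|)))) := by
  have H' := hyp_43
  have hq1 : (1 : ℝ) ≤ q := by exact_mod_cast hq
  have hqC : 1 ≤ (q : ℝ) * C0 := by (clear * - hq1 hC0; nlinarith)
  set K2 := q * C0 * (11 * (2 + q * Real.exp (4 * (4 / 3))) +
    200 * Real.exp (12 * (4 / 3)) * q * 3 + 800) with hK2
  set K3 := 688 * Real.exp 3 * (2 * (q + 1) * (q * C0) + q) with hK3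
  have p2 : 0 ≤ K2 := by rw [hK2]; positivity
  have p3 : 0 < K3 := by rw [hK3]; positivity
  refine ⟨K2 + K3 * Real.exp (18 * b), by positivity, fun k hk1 η hη ξ hF0 t => ?_⟩
  have ha1 : 1 ≤ q * k := Nat.mul_pos hq hk1
  set a := q * k with ha
  have ha0 : (1 : ℝ) ≤ a := by exact_mod_cast ha1
  have hF := fl_mul hq hF0
  rw [← ha] at hF
  obtain ⟨s1, s2, s3⟩ := posT_strip t
  have i1 : (posT t).im = t := NUO.vl_im _ _
  obtain ⟨q1, q2, q3⟩ := prods hG hκ q a η t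
  set E := eMF q a η t * Real.exp (-(κ * (a * Real.exp (-(8 / 3) * |t|)))) with hE
  have hE0 : 0 < E := mul_pos (eMF_pos _ _ _ _) (Real.exp_pos _)
  have goal_eq : (K2 + K3 * Real.exp (18 * b)) * Real.exp (-(6 * b * |t|)) * eMF q a η t *
        Real.exp (-(κ * (a * Real.exp (-(8 / 3) * |t|)))) =
      (K2 + K3 * Real.exp (18 * b)) * (Real.exp (-(6 * b * |t|)) * E) := by
    rw [hE]; ring
  rw [goal_eq]
  rcases le_total 3 |t| with ht | ht
  · have a3 := far_R0_prod H' hq (by rw [← ha]; exact ha1) hη hC0 hF0 s1 (by rw [i1]; exact ht)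
    rw [← ha, i1] at a3
    set F := Real.exp (-(6 * b * |t|)) with hFF
    have hF0' : 0 < F := Real.exp_pos _
    have hF8 : Real.exp (-(8 * |t|)) ≤ F := by
      rw [hFF]
      refine Real.exp_le_exp.2 ?_
      clear * - h2 ht
      nlinarith [abs_nonneg t]
    have d3 : ‖DR q (4 / 3) a ((η : ℂ) * I) I (ξ t) (posT t)‖ ≤ K2 * F * E :=
      a3.trans (mul_le_mul (mul_le_mul_of_nonneg_left hF8 p2) q3 (norm_nonneg _) (by positivity))
    have m4 : 0 ≤ K3 * Real.exp (18 * b) * (F * E) := by positivity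
    calc _ ≤ K2 * F * E := d3
      _ ≤ _ := by (clear * - K2 F E K3 a m4; linarith)
  · have a1 := norm_DR_near hG hκ hκ1 q a hη t (ξ t)
    have a4 := hF.norm_le t
    have a5 : (a + q) * ‖ξ t‖ ≤ 2 * (q + 1) * (q * C0) := by
      have h5 : (a + q : ℝ) * ‖ξ t‖ ≤ (a + q) * (2 * (q * C0) / a) :=
        mul_le_mul_of_nonneg_left a4 (by positivity)
      refine h5.trans ?_
      rw [← mul_div_assoc, div_le_iff₀ (by (clear * - a ha0; linarith))]
      have h6 : (a + q : ℝ) ≤ (q + 1) * a := by (clear * - a ha0; nlinarith)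
      have h7 : 0 ≤ 2 * ((q : ℝ) * C0) := by positivity
      calc (a + q : ℝ) * (2 * (q * C0)) ≤ ((q + 1) * a) * (2 * (q * C0)) :=
            mul_le_mul_of_nonneg_right h6 h7
        _ = _ := by ring
    have a6 : Real.exp (-(8 / 3) * |t|) ≤ Real.exp (18 * b) * Real.exp (-(6 * b * |t|)) := by
      rw [← Real.exp_add]
      refine Real.exp_le_exp.2 ?_
      clear * - ht h1
      nlinarith [abs_nonneg t]
    refine a1.trans ?_
    rw [← hE]
    have a7 : 688 * Real.exp 3 * ((a + q) * ‖ξ t‖ + q) ≤ K3 := by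
      rw [hK3]
      exact mul_le_mul_of_nonneg_left (by (clear * - a a5; linarith)) (by positivity)
    have a8 := mul_le_mul (mul_le_mul a7 a6 (Real.exp_pos _).le p3.le) (le_refl E) hE0.le (by positivity)
    refine a8.trans ?_
    have a9 : 0 ≤ K2 * (Real.exp (-(6 * b * |t|)) * E) := by positivity
    clear * - K3 E K2 a a9
    linarith

/-- **the moved cut of `T`**, all heights -/
theorem far_T6_all {b : ℝ} (h1 : 1 ≤ b) (h2 : b < 4 / 3) {κ : ℝ} (hG : PB.K11.Good κ b) (hκ : 0 < κ)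
    (hκ1 : κ ≤ 1 / 100) {q : ℕ} (hq : 1 ≤ q) {C0 : ℝ} (hC0 : 1 ≤ C0) :
    ∃ (K : ℝ) (N0 : ℕ), 0 < K ∧ ∀ k : ℕ, N0 ≤ k →
    ∀ η : ℝ, |η| ≤ 1 → ∀ ξ : ℝ → ℂ, Fl k C0 ξ (xe k η) → ∀ T1 : ℝ,
      3 / 8 * Real.log ((k + 1 : ℕ) : ℝ) + tau0 2 q ≤ T1 → ∀ t : ℝ,
      ‖DT6 q b (q * k) ((η : ℂ) * I) I (xe k η) T1 (ξ t) (posT t)‖ ≤
        K * ((q * k : ℕ) : ℝ) ^ (-(9 / 4 * b)) * eMF q (q * k) η t *
          min 1 ((q * k : ℕ) * Real.exp (-(8 / 3) * |t|)) := by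
  obtain ⟨K, N0, hK, H⟩ := far_T_form h1 h2 hG hκ.le hκ1 hq hC0
  obtain ⟨K', hK', H'⟩ := DR_form h1 h2 hG hκ.le hκ1 hq hC0
  have he3 := Real.exp_pos 3
  refine ⟨(K + K' * (1 + 121 * Real.exp 3)) * (1 + 6 / κ ^ 3), max N0 1, by positivity,
    fun k hk η hη ξ hF T1 hT t => ?_⟩
  have hk1 : 1 ≤ k := (le_max_right _ _).trans hk
  have ha1' : 1 ≤ q * k := Nat.mul_pos hq hk1
  have A1 := H k ((le_max_left _ _).trans hk) η hη ξ hF t
  have A2 := H' k hk1 η hη ξ hF t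
  have hl := Bd.l_pos
  have hxr := re_row η
  have hxi := im_row hη
  -- the factor of `DR`
  have r1 : (posT t).re = -(1 / 2 * l) := PB.K11.posT_re t
  have hu : |(posT t).re + l / 2| ≤ l := by
    rw [r1, show -(1 / 2 * l) + l / 2 = 0 by ring, abs_zero]
    exact hl.le
  have ho : |(posT t).re + 31 / 32 * NUMF.l| ≤ 77 / 160 * NUMF.l :=
    PHK.range_win (by rw [r1]; show -(29 / 20 * l) ≤ _; (clear * - hl; linarith))
      (by rw [r1]; show _ ≤ -(l / 2); (clear * -; linarith))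
  have hlen : ((R0 q (q * k) ((η : ℂ) * I)).length : ℝ) ≤ (q : ℝ) * ((k + 1 : ℕ) : ℝ) := by
    unfold R0
    rw [List.length_append, List.length_replicate, List.length_replicate]
    push_cast
    clear * -
    linarith
  have hR := rwL_R0 (q := q) (a := q * k) (h0 := 2) (by norm_num) hxr hxi
  have hP1 : |(posT t).im| ≤ T1 → ‖pP (R0 q (q * k) ((η : ℂ) * I)) (posT t)‖ ≤ 1 := fun _ =>
    pP_R0_le hxr hxi hu
  have hP2 : T1 ≤ |(posT t).im| → ‖pP (R0 q (q * k) ((η : ℂ) * I)) (posT t) - 1‖ ≤ 1 / 5 := fun h =>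
    PHK.pP_vac (by norm_num) hR (Nat.cast_nonneg q) (Nat.le_add_left 1 k) hlen hu hT h
  have o1 : ‖om T1 (pP (R0 q (q * k) ((η : ℂ) * I))) (posT t)‖ ≤ Real.exp 3 := by
    refine (PHK.norm_om_le ho hP1 hP2).trans (mul_le_of_le_one_right he3.le ?_)
    rw [Real.exp_le_one_iff]
    have := Real.exp_pos (11 / 2 * (|(posT t).im| - T1))
    clear * - this
    linarith
  have o2 : ‖omA T1 (posT t)‖ * ‖om T1 (pP (R0 q (q * k) ((η : ℂ) * I))) (posT t)‖ ≤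
      60 * Real.exp 3 := by
    refine (PHK.norm_omA_om ho hP1 hP2).trans (mul_le_of_le_one_right (by positivity) ?_)
    rw [Real.exp_le_one_iff]
    have := Real.exp_pos (11 / 2 * (|(posT t).im| - T1))
    clear * - this
    linarith
  have o3 := phi_R0_two (q := q) (a := q * k) hxr hxi hu
  obtain ⟨F, hF'⟩ : ∃ F, F = 1 - om T1 (pP (R0 q (q * k) ((η : ℂ) * I))) (posT t) *
      (1 + omA T1 (posT t) * NUP1.phi (4 / 3) (R0 q (q * k) ((η : ℂ) * I)) (posT t)) := ⟨_, rfl⟩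
  have hFn : ‖F‖ ≤ 1 + 121 * Real.exp 3 := by
    obtain ⟨o, eo⟩ : ∃ o, o = om T1 (pP (R0 q (q * k) ((η : ℂ) * I))) (posT t) := ⟨_, rfl⟩
    obtain ⟨A, eA⟩ : ∃ A, A = omA T1 (posT t) := ⟨_, rfl⟩
    obtain ⟨φ, eφ⟩ : ∃ φ, φ = NUP1.phi (4 / 3) (R0 q (q * k) ((η : ℂ) * I)) (posT t) := ⟨_, rfl⟩
    rw [← eo] at o1 o2
    rw [← eA] at o2
    rw [← eφ] at o3
    rw [hF', ← eo, ← eA, ← eφ]
    have e : 1 - o * (1 + A * φ) = 1 - (o + A * o * φ) := by ring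
    rw [e]
    refine (norm_sub_le _ _).trans ?_
    rw [norm_one]
    have k1 := norm_add_le o (A * o * φ)
    rw [norm_mul, norm_mul] at k1
    have k2 : ‖A‖ * ‖o‖ * ‖φ‖ ≤ 60 * Real.exp 3 * 2 := mul_le_mul o2 o3 (norm_nonneg _) (by positivity)
    clear * - o1 k1 k2
    linarith
  have H1 : ‖DT6 q b (q * k) ((η : ℂ) * I) I (xe k η) T1 (ξ t) (posT t)‖ ≤
      (K + K' * (1 + 121 * Real.exp 3)) * Real.exp (-(6 * b * |t|)) * eMF q (q * k) η t *
        Real.exp (-(κ * ((q * k : ℕ) * Real.exp (-(8 / 3) * |t|)))) := by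
    rw [DT6_eq, ← hF']
    refine (norm_add_le _ _).trans ?_
    rw [norm_mul]
    obtain ⟨G, hGe⟩ : ∃ G, G = Real.exp (-(6 * b * |t|)) * eMF q (q * k) η t *
        Real.exp (-(κ * ((q * k : ℕ) * Real.exp (-(8 / 3) * |t|)))) := ⟨_, rfl⟩
    have hG0 : 0 ≤ G := by
      rw [hGe]
      have := (eMF_pos q (q * k) η t).le
      positivity
    have B1 : ‖DT q b (q * k) ((η : ℂ) * I) I (xe k η) (ξ t) (posT t)‖ ≤ K * G := by
      refine A1.trans (le_of_eq ?_)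
      rw [hGe]; ring
    have B2 : ‖DR q (4 / 3) (q * k) ((η : ℂ) * I) I (ξ t) (posT t)‖ ≤ K' * G := by
      refine A2.trans (le_of_eq ?_)
      rw [hGe]; ring
    have B3 := mul_le_mul B2 hFn (norm_nonneg _) (by positivity)
    calc _ ≤ K * G + K' * G * (1 + 121 * Real.exp 3) := add_le_add B1 B3
      _ = _ := by rw [hGe]; ring
  set a := q * k with ha
  have ha1 : (1 : ℝ) ≤ a := by exact_mod_cast ha1'
  have ha0 : (0 : ℝ) < a := by (clear * - a hκ hκ1 ha1; linarith)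
  refine H1.trans ?_
  set y := (a : ℝ) * Real.exp (-(8 / 3) * |t|) with hy
  have hy0 : 0 < y := by rw [hy]; positivity
  have e1 : Real.exp (-(6 * b * |t|)) = (a : ℝ) ^ (-(9 / 4 * b)) * y ^ (9 / 4 * b) := by
    rw [hy, Real.mul_rpow ha0.le (Real.exp_pos _).le, ← mul_assoc, ← Real.rpow_add ha0,
      neg_add_cancel, Real.rpow_zero, one_mul, ← Real.exp_mul]
    congr 1
    ring
  rw [e1]
  have e2 := rpow_exp_le (p := 9 / 4 * b) hκ (by (clear * - h1 hκ hκ1; linarith)) (by (clear * - h2; linarith)) hy0.le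
  obtain ⟨KK, hKK⟩ : ∃ KK, KK = K + K' * (1 + 121 * Real.exp 3) := ⟨_, rfl⟩
  have hKK0 : 0 ≤ KK := by rw [hKK]; positivity
  rw [← hKK]
  have e3 : 0 ≤ KK * (a : ℝ) ^ (-(9 / 4 * b)) * eMF q a η t :=
    mul_nonneg (mul_nonneg hKK0 (Real.rpow_nonneg ha0.le _)) (eMF_pos _ _ _ _).le
  have e4 := mul_le_mul_of_nonneg_left e2 e3
  calc KK * ((a : ℝ) ^ (-(9 / 4 * b)) * y ^ (9 / 4 * b)) * eMF q a η t * Real.exp (-(κ * y)) =
      KK * (a : ℝ) ^ (-(9 / 4 * b)) * eMF q a η t * (y ^ (9 / 4 * b) * Real.exp (-(κ * y))) := by ring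
    _ ≤ _ := e4
    _ = _ := by ring

/-! ## the moved cutoffs of the two species -/

/-- **bounds of the moved cutoffs**: species `a` has the list `x ^ (qa a), 0 ^ (nz a)` -/
structure CutH6 (b : ℝ) (qa nz : Bool → ℕ) (x v : ℂ) (ξe : ℝ → ℂ) (T1 : ℝ) (X : ℂ → ℂ) (c : ℝ)
    (M : Bool → ℝ → ℝ) (δ : ℝ) : Prop where
  c0 : 0 ≤ c
  M0 : ∀ a t, 0 ≤ M a t
  A : ∀ (a : Bool) (u : ℂ), 1 / 9 * l ≤ u.re → u.re ≤ (1 + δ) * l →
    ‖DW (qa a) b (nz a) x v ξe (X u) u‖ ≤ c * ‖NUP1.phi b (W0 (qa a) (nz a) x PBFar.wE) u‖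
  L : ∀ (a : Bool) (u : ℂ), -(3 / 2 * l) ≤ u.re → u.re ≤ -l →
    ‖DW (qa a) b (nz a) x v ξe (X (u + 2 * l)) u‖ ≤
      c * ‖NUP1.phi b (W0 (qa a) (nz a) x PBFar.wE) u‖
  S : ∀ (a : Bool) (w : ℂ), -(3 / 2 * l) ≤ w.re → w.re ≤ -l →
    ‖DS6 (qa a) (nz a) x v T1 (X (w + 2 * l)) w‖ ≤ c * ‖phO T1 (R0 (qa a) (nz a) x) w‖
  T : ∀ (a : Bool) t, ‖DT6 (qa a) b (nz a) x v ξe T1 (X (posT t + 2 * l)) (posT t)‖ ≤ M a t

/-- the moved cutoffs of one species -/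
theorem cutH6_q {q : ℕ} (hq : 1 ≤ q) {ep : ℝ} (h0 : 0 < ep) (h1 : ep ≤ 1 / 100) {C0 : ℝ}
    (hC0 : 1 ≤ C0) :
    ∃ (Cc K : ℝ) (N0 : ℕ), 0 < Cc ∧ 0 < K ∧ ∀ k : ℕ, N0 ≤ k → ∀ η : ℝ, |η| ≤ 1 → ∀ X : ℂ → ℂ,
      FlX6 k C0 X (xe k η) → ∀ T1 : ℝ, 3 / 8 * Real.log ((k + 1 : ℕ) : ℝ) + tau0 2 q ≤ T1 →
      (∀ (u h : ℂ), |u.re + l / 2| ≤ (3 / 2 + ep / 4) * l → h.im = u.im → 1 / 9 * l ≤ h.re →
        h.re ≤ 31 / 20 * l →
        ‖DW q (4 / 3 * (1 - ep)) (q * k) ((η : ℂ) * I) I (xe k η) (X h) u‖ ≤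
          Cc / (k : ℝ) ^ 3 * ‖NUP1.phi (4 / 3 * (1 - ep)) (W0 q (q * k) ((η : ℂ) * I) PBFar.wE) u‖) ∧
      (∀ (u h : ℂ), |u.re + l / 2| ≤ l → h.im = u.im → 1 / 9 * l ≤ h.re → h.re ≤ 31 / 20 * l →
        ‖DS6 q (q * k) ((η : ℂ) * I) I T1 (X h) u‖ ≤
          Cc / (k : ℝ) ^ 3 * ‖phO T1 (R0 q (q * k) ((η : ℂ) * I)) u‖) ∧
      (∀ (t : ℝ) (h : ℂ), h.im = t → 1 / 9 * l ≤ h.re → h.re ≤ 31 / 20 * l →
        ‖DT6 q (4 / 3 * (1 - ep)) (q * k) ((η : ℂ) * I) I (xe k η) T1 (X h) (posT t)‖ ≤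
          K * ((q * k : ℕ) : ℝ) ^ (-(9 / 4 * (4 / 3 * (1 - ep)))) * eMF q (q * k) η t *
            min 1 ((q * k : ℕ) * Real.exp (-(8 / 3) * |t|))) := by
  have hl := Bd.l_pos
  have hH := PBC.hyp_ep h0 h1
  have hH' := hyp_43
  have hqr : (1 : ℝ) ≤ q := by exact_mod_cast hq
  have hqC : (1 : ℝ) ≤ q * C0 := by (clear * - hqr hC0; nlinarith)
  obtain ⟨κ, hκ, hκ1, hG⟩ := PB.K11.exists_good h0 (by linarith)
  obtain ⟨K, N1, hK, hT⟩ := far_T6_all (b := 4 / 3 * (1 - ep)) (by linarith) (by linarith)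
    (hG _ (by linarith) le_rfl) hκ hκ1 hq hC0
  set b := 4 / 3 * (1 - ep) with hb
  set s := (3 / 2 + ep / 4) * l with hs
  set c3 := CF (4 / 3) l (q * C0) q with hc3
  set K2 := q * C0 * (11 * (2 + q * Real.exp (4 * (4 / 3))) +
    200 * Real.exp (12 * (4 / 3)) * q * 3 + 800) with hK2
  have hK20 : 0 ≤ K2 := by rw [hK2]; positivity
  set c4 := max c3 0 with hc4
  have hc40 : 0 ≤ c4 := le_max_right _ _
  set Cc := max 1 (max (CW q b s (q * C0)) (5 * c4 + 2 * K2)) with hCc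
  obtain ⟨N2, hN2⟩ := exists_nat_ge (n0 b s (q + 2))
  obtain ⟨N3, hN3⟩ := exists_nat_ge (n0 (4 / 3) l q)
  obtain ⟨N4, hN4⟩ := exists_nat_ge (Real.exp 8)
  refine ⟨Cc, K, max (max (max N1 1) (max N2 N3)) N4, lt_of_lt_of_le one_pos (le_max_left _ _), hK,
    fun k hk η hη X hF T1 hT1 => ?_⟩
  simp only [max_le_iff] at hk
  obtain ⟨⟨⟨k1, k2⟩, k3, k4⟩, k5⟩ := hk
  have hkq : k ≤ q * k := Nat.le_mul_of_pos_left k hq
  have hkq' : (k : ℝ) ≤ ((q * k : ℕ) : ℝ) := by exact_mod_cast hkq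
  have kn1 : n0 b s (q + 2) ≤ ((q * k : ℕ) : ℝ) := by
    refine hN2.trans (le_trans ?_ hkq')
    exact_mod_cast k3
  have kn2 : n0 (4 / 3) l q ≤ ((q * k : ℕ) : ℝ) := by
    refine hN3.trans (le_trans ?_ hkq')
    exact_mod_cast k4
  have hk0 : (0 : ℝ) < k := by exact_mod_cast k2
  have hkp : (0 : ℝ) < (k : ℝ) ^ 3 := by positivity
  have hkp' : (k : ℝ) ^ 3 ≤ ((q * k : ℕ) : ℝ) ^ 3 := pow_le_pow_left₀ hk0.le hkq' 3
  have hCc0 : 0 < Cc := lt_of_lt_of_le one_pos (le_max_left _ _)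
  have cc : Cc / ((q * k : ℕ) : ℝ) ^ 3 ≤ Cc / (k : ℝ) ^ 3 :=
    div_le_div_of_nonneg_left hCc0.le hkp hkp'
  have hqk : (0 : ℝ) ≤ ((q * k : ℕ) : ℝ) ^ 3 := by positivity
  have c1 : CW q b s (q * C0) / ((q * k : ℕ) : ℝ) ^ 3 ≤ Cc / (k : ℝ) ^ 3 :=
    (div_le_div_of_nonneg_right ((le_max_left _ _).trans (le_max_right _ _)) hqk).trans cc
  have c2 : c3 / ((q * k : ℕ) : ℝ) ^ 3 ≤ c4 / (k : ℝ) ^ 3 :=
    (div_le_div_of_nonneg_right (le_max_left _ _) hqk).trans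
      (div_le_div_of_nonneg_left hc40 hkp hkp')
  have c5 : (5 * c4 + 2 * K2) / (k : ℝ) ^ 3 ≤ Cc / (k : ℝ) ^ 3 :=
    div_le_div_of_nonneg_right ((le_max_right _ _).trans (le_max_right _ _)) hkp.le
  have hv : ‖I‖ ≤ q * C0 := by rw [Complex.norm_I]; exact hqC
  have hvl : ∀ u : ℂ, vl u.re u.im = u := fun u => by
    unfold vl
    exact re_add_im u
  -- the end of the window
  have ht0 : 0 ≤ tau0 2 (q : ℝ) := PHK.tau0_nonneg (Nat.cast_nonneg q)
  have hlk : Real.log k ≤ Real.log ((k + 1 : ℕ) : ℝ) :=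
    Real.log_le_log hk0 (by push_cast; (clear * - h0 h1; linarith))
  have hT2 : 3 / 8 * Real.log k ≤ T1 := by (clear * - hT1 ht0 hlk; linarith)
  have hT3 : 3 ≤ T1 := by
    have : (8 : ℝ) ≤ Real.log k := by
      rw [Real.le_log_iff_exp_le hk0]
      exact hN4.trans (by exact_mod_cast k5)
    clear * - hT1 ht0 hlk this
    linarith
  refine ⟨fun u h hu him r0 r1 => ?_, fun u h hu him r0 r1 => ?_, fun t h him r0 r1 => ?_⟩
  · have key := far_W (q := q) hH kn1 (re_row η) (im_row hη) hv (fl_mul hq (hF.fl h.re r0 r1))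
      (u := u) hu
    beta_reduce at key
    rw [← him, hvl] at key
    exact key.trans (mul_le_mul_of_nonneg_right c1 (norm_nonneg _))
  · have key := far_R0 hH' hq kn2 hη hC0 (hF.fl h.re r0 r1) (u := u) hu
    beta_reduce at key
    rw [← him, hvl] at key
    refine (norm_DS6_le k2 (re_row η) (im_row hη) hT3 hT2 hu hc40 hK20
      (key.trans (mul_le_mul_of_nonneg_right c2 (norm_nonneg _))) fun h3 => ?_).trans
      (mul_le_mul_of_nonneg_right c5 (norm_nonneg _))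
    have key2 := far_R0_prod hH' hq (Nat.mul_pos hq k2) hη hC0 (hF.fl h.re r0 r1) (u := u) hu h3
    beta_reduce at key2
    rw [← him, hvl] at key2
    rw [← him]
    exact key2
  · have e : X h = (fun t => X (vl h.re t)) t := by
      show X h = X (vl h.re t)
      have h2 := hvl h
      rw [him] at h2
      rw [h2]
    rw [e]
    exact hT k k1 η hη _ (hF.fl _ r0 r1) T1 hT1 t

variable [Fil]

/-- **the moved cutoffs** -/
theorem cutH6_R0 {ep : ℝ} (h0 : 0 < ep) (h1 : ep ≤ 1 / 100) {C0 : ℝ} (hC0 : 1 ≤ C0) :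
    ∃ (Cc K : ℝ) (N0 : ℕ), 0 < Cc ∧ 0 < K ∧ ∀ k : ℕ, N0 ≤ k → ∀ η : ℝ, |η| ≤ 1 → ∀ X : ℂ → ℂ,
      FlX6 k C0 X (xe k η) → ∀ T1 : ℝ,
      (∀ a, 3 / 8 * Real.log ((k + 1 : ℕ) : ℝ) + tau0 2 (Fil.n a) ≤ T1) →
      CutH6 (4 / 3 * (1 - ep)) Fil.n (fun a => Fil.n a * k) ((η : ℂ) * I) I (xe k η) T1 X
        (Cc / (k : ℝ) ^ 3) (MT K (4 / 3 * (1 - ep)) k η) (ep / 4) := by
  have hl := Bd.l_pos
  have H := fun a : Bool => cutH6_q (Fil.one_le_n a) h0 h1 hC0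
  choose Cc K N0 hCc hK H using H
  have hCt := hCc true
  have hCf := hCc false
  have hKt := hK true
  have hKf := hK false
  refine ⟨Cc true + Cc false, K true + K false, max (max (N0 true) (N0 false)) 1, by positivity,
    by positivity, fun k hk η hη X hF T1 hT1 => ?_⟩
  simp only [max_le_iff] at hk
  obtain ⟨⟨kt, kf⟩, k1⟩ := hk
  have hN : ∀ a, N0 a ≤ k := fun a => by cases a <;> assumption
  have hC : ∀ a, Cc a ≤ Cc true + Cc false := fun a => by cases a <;> simp [hCt.le, hCf.le]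
  have hKK : ∀ a, K a ≤ K true + K false := fun a => by cases a <;> simp [hKt.le, hKf.le]
  have hk0 : (0 : ℝ) < k := by exact_mod_cast k1
  have hCk : ∀ a, Cc a / (k : ℝ) ^ 3 ≤ (Cc true + Cc false) / (k : ℝ) ^ 3 := fun a =>
    div_le_div_of_nonneg_right (hC a) (by positivity)
  have him2 : ∀ u : ℂ, (u + 2 * l).im = u.im := fun u => by simp
  have hre2 : ∀ u : ℂ, (u + 2 * l).re = u.re + 2 * l := fun u => by simp
  refine
    { c0 := by positivity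
      M0 := fun a t => MT_nonneg (by positivity) _ _ _ _ _
      A := fun a u u0 u1 => ((H a k (hN a) η hη X hF T1 (hT1 a)).1 u u
        (by rw [abs_of_pos (by linarith)]; (clear * - u1; nlinarith)) rfl u0 (u1.trans (by (clear * - hl h1; nlinarith)))).trans
        (mul_le_mul_of_nonneg_right (hCk a) (norm_nonneg _))
      L := fun a u u0 u1 => ((H a k (hN a) η hη X hF T1 (hT1 a)).1 u (u + 2 * l)
        (by rw [abs_le]; constructor <;> (clear * - hl u0 h0 u1; nlinarith)) (him2 u)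
        (by rw [hre2]; linarith) (by rw [hre2]; linarith)).trans
        (mul_le_mul_of_nonneg_right (hCk a) (norm_nonneg _))
      S := fun a u u0 u1 => ((H a k (hN a) η hη X hF T1 (hT1 a)).2.1 u (u + 2 * l)
        (by rw [abs_le]; constructor <;> linarith) (him2 u)
        (by rw [hre2]; linarith) (by rw [hre2]; (clear * - hl u1; linarith))).trans
        (mul_le_mul_of_nonneg_right (hCk a) (norm_nonneg _))
      T := fun a t => ?_ }
  have r1 : (posT t).re = -(1 / 2 * l) := posT_re t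
  refine ((H a k (hN a) η hη X hF T1 (hT1 a)).2.2 t (posT t + 2 * l) (by rw [him2, posT_im])
    (by rw [hre2, r1]; linarith) (by rw [hre2, r1]; linarith)).trans ?_
  unfold MT
  have e1 := (eMF_pos (Fil.n a) (Fil.n a * k) η t).le
  have e2 : 0 ≤ min 1 (((Fil.n a * k : ℕ) : ℝ) * Real.exp (-(8 / 3) * |t|)) :=
    le_min zero_le_one (by positivity)
  have e3 : 0 ≤ ((Fil.n a * k : ℕ) : ℝ) ^ (-(9 / 4 * (4 / 3 * (1 - ep)))) :=
    Real.rpow_nonneg (Nat.cast_nonneg _) _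
  have := hKK a
  clear * - this e1
  gcongr

end PBC.PLX

end
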