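import Pool.Agent.PHK.Zv6
import Pool.Agent.PLX.PB.CutW

/-!
# (P): the bounds of the cutoffs at the places of the half quanta, cutoffs of the rows `0`

* `norm_V6`: the cutoff of the strings `gV6 k a` is at most `e ^ 3` times the cutoff without the factor `om`
  at the place `-11/8 l`;
* **`cutB_V6`**: `CutB` for the quanta over the rows and `± i`, the strings `gV6 k a`.
-/

set_option autoImplicit false
set_option linter.unusedSectionVars false

noncomputable section

open Complex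
open PLX (Fil)

namespace PHK

open NUP1 NUO PB0.PLX
open NUMF (zj)
open PBX (gP)
open PBTV.PLX (gV6)
open PBU.PLX (T1L tauF)
open PBO.PLX (RwL)
open _root_.Pool.Agent.PLX (rwq yq)

variable [Fil]

theorem rwq_zero (k : ℕ) (a : Bool) :
    rwq (fun _ : Fin k => (0 : ℂ)) a = fun _ => (0 : ℂ) := by
  cases a <;> rfl

/-- **the cutoff of the strings at the place of a host string** -/
theorem norm_V6 {k : ℕ} (hk : 1 ≤ k) (a : Bool) (τ : ℝ) :
    ‖ph0 (4 / 3) (gV6 k a) (cond a (k - 1) (Fil.q * (k - 1))) (zj (-(11 / 8)) τ)‖ ≤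
      Real.exp 3 * ‖ph0 (4 / 3) (gP (4 / 3) []) (cond a (k - 1) (Fil.q * (k - 1)))
        (zj (-(11 / 8)) τ)‖ := by
  have hl := NUP1.Bd.l_pos
  have hll : NUMF.l = l := rfl
  set u := zj (-(11 / 8)) τ with hu
  have hre : u.re = -(11 / 8) * l := by rw [hu, PB0.PLX.zj_re]; rfl
  set r := cond a (k - 1) (Fil.q * (k - 1)) with hr
  have e1 : ph0 (4 / 3) (gV6 k a) r u = ph0 (4 / 3) (gP (4 / 3) []) r u *
      om (T1L k) (pP (List.ofFn (fun _ : Fin r => (0 : ℂ)) ++ [])) u := by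
    have h := ph_gO_om (T1L k) [] (fun _ : Fin r => (0 : ℂ)) u
    have e2 : gV6 k a = gO (T1L k) [] (fun _ : Fin r => (0 : ℂ)) := by
      unfold PBTV.PLX.gV6
      rw [rwq_zero]
    unfold PB0.PLX.ph0
    rw [e2, h]
    congr 2
    funext v
    exact (pP_append _ _ v).symm
  have hRw : RwL 0 2 r (List.ofFn (fun _ : Fin r => (0 : ℂ)) ++ []) [] := by
    refine ⟨?_, le_rfl, by simp, by simp⟩
    rw [List.ofFn_const]
  have huu : |u.re + l / 2| ≤ l := by
    rw [hre, abs_le]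
    constructor <;> linarith
  have hlen : ((List.ofFn (fun _ : Fin r => (0 : ℂ)) ++ []).length : ℝ) ≤
      (((Fil.q : ℕ) : ℝ) + (2 : ℕ)) * k := by
    rw [List.append_nil, List.length_ofFn]
    have h := rows_le (k := k) (by omega) a
    rw [← hr] at h
    have hk' : (0 : ℝ) ≤ k := Nat.cast_nonneg k
    push_cast at h ⊢
    nlinarith
  have hom := norm_om_le (T1 := T1L k) (P := pP (List.ofFn (fun _ : Fin r => (0 : ℂ)) ++ []))
    (w := u) (by
      show |u.re + 31 / 32 * NUMF.l| ≤ 77 / 160 * NUMF.l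
      rw [hll, hre, abs_le]
      constructor <;> linarith)
    (fun _ => pP_le (by norm_num) hRw huu)
    fun h => pP_vac (by norm_num) hRw (by positivity) hk hlen huu le_rfl h
  rw [e1, norm_mul, mul_comm]
  refine mul_le_mul_of_nonneg_right (hom.trans ?_) (norm_nonneg _)
  have h1 : Real.exp (-(Real.exp (11 / 2 * (|u.im| - T1L k)) / 5)) ≤ 1 :=
    Real.exp_le_one_iff.2 (by linarith [Real.exp_pos (11 / 2 * (|u.im| - T1L k))])
  have h3 := Real.exp_pos 3
  nlinarith

/-- the constant of `cutB_V6` -/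
def aV6 : ℝ := (Fil.q : ℝ) * cWA 1 [I, -I] [] * Real.exp 3

theorem one_le_aV6 : 1 ≤ aV6 := by
  have h1 : (1 : ℝ) ≤ Fil.q := by exact_mod_cast Fil.one_le_q (self := inferInstance)
  have h2 := one_le_cWA 1 [I, -I] []
  have h3 : 1 ≤ Real.exp 3 := Real.one_le_exp (by norm_num)
  unfold aV6
  have h4 : 1 ≤ (Fil.q : ℝ) * cWA 1 [I, -I] [] := by nlinarith
  nlinarith

/-- **the bounds of the cutoffs**: quanta over the rows and `± i`, strings `gV6 k a` -/
theorem cutB_V6 {ep : ℝ} (h0 : 0 ≤ ep) (h1 : ep < 1) {k : ℕ} (hk : 1 ≤ k) (a : Bool) :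
    CutB (cond a (k - 1) (Fil.q * (k - 1))) k ep aV6 (4 / 3 * (1 - ep))
      (gP (4 / 3 * (1 - ep)) [I, -I]) (gV6 k a) := by
  have hq : (1 : ℝ) ≤ Fil.q := by exact_mod_cast Fil.one_le_q (self := inferInstance)
  have h := cutBI h0 h1 (r := cond a (k - 1) (Fil.q * (k - 1))) (k := k) (by omega) hq
    (rows_le (by omega) a)
  have hw := one_le_cWA 1 [I, -I] []
  have hA : 1 ≤ (Fil.q : ℝ) * cWA 1 [I, -I] [] := by nlinarith
  have h3 : 1 ≤ Real.exp 3 := Real.one_le_exp (by norm_num)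
  have hAV : (Fil.q : ℝ) * cWA 1 [I, -I] [] ≤ aV6 := by
    unfold aV6
    nlinarith
  refine ⟨fun τ => (h.q τ).trans (mul_le_mul_of_nonneg_right hAV (NUGC.cut_nonneg _ _ _ _)),
    fun τ => (h.h τ).trans hAV, fun τ => (norm_V6 hk a τ).trans ?_⟩
  have h4 := mul_le_mul_of_nonneg_left (h.s τ) (Real.exp_pos 3).le
  refine h4.trans (le_of_eq ?_)
  unfold aV6
  ring

end PHK

end
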