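import Pool.Agent.PHK.CutV6
import Pool.Agent.PHK.LetO
import Pool.Agent.PLX.PhiLow

/-!
# (P): `CutB6` for the cutoffs of the rows `0`

* `ph0_low`: the cutoff of the quanta over the rows `0` and `± i` from below at the place `5/8 l`;
* `norm_V6'`: the cutoff of the strings with the factor `om` at the place `-11/8 l`;
* **`cutB6_V6`**: `CutB6` for the quanta over the rows and `± i`, the strings `gV6 k a`.
-/

set_option autoImplicit false
set_option linter.unusedSectionVars false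

noncomputable section

open Complex
open PLX (Fil)

namespace PHK

open NUP1 NUO PB0.PLX
open NUMF (zj)
open PBX (gP)
open PBTV.PLX (gV6)
open PBU.PLX (T1L tauF tauF_nonneg)
open PBO.PLX (RwL sH norm_psi_sH one_sub_exp_ge)
open _root_.Pool.Agent.PLX (rwq yq)

/-- **the cutoff over `0^r` and `± i` from below** at `5/8 l` -/
theorem ph0_low {ep : ℝ} (h0 : 0 ≤ ep) (h1 : ep < 1) {r k : ℕ} (hk : 1 ≤ k) (hr : k ≤ r + 1)
    (τ : ℝ) : NUGC.cut (Real.log k) ep (-1) τ / (512 * Real.exp (8 / 3)) ≤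
      ‖ph0 (4 / 3 * (1 - ep)) (gP (4 / 3 * (1 - ep)) [I, -I]) r (zj (5 / 8) τ)‖ := by
  have hl := NUP1.Bd.l_pos
  set β := 4 / 3 * (1 - ep) with hβ
  have hβ0 : 0 < β := by rw [hβ]; linarith
  have hβ1 : β ≤ 4 / 3 := by rw [hβ]; linarith
  set u := zj (5 / 8) τ with hu
  have hre : u.re = 5 / 8 * l := by rw [hu, PB0.PLX.zj_re]; rfl
  have him : u.im = τ := by rw [hu, PB0.PLX.zj_im]
  set E := Real.exp (-(2 * β) * |τ|) with hE
  have hE0 : 0 < E := Real.exp_pos _
  set c : ℝ := Real.exp (-(8 / 3)) / 256 with hc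
  have hc0 : 0 < c := by positivity
  have hc1 : c ≤ 1 := by
    have h : Real.exp (-(8 / 3 : ℝ)) ≤ 1 := Real.exp_le_one_iff.2 (by norm_num)
    rw [hc]
    linarith
  have key : ∀ x : ℂ, x.re = 0 → |x.im| ≤ 1 → ‖psi β (u - x)‖ ≤ Real.exp (-(c * E)) := by
    intro x hx hi
    have h3 : |(u - x).re + l / 2| ≤ sH := by
      rw [Complex.sub_re, hx, hre]
      unfold PBO.PLX.sH
      rw [abs_le]
      constructor <;> linarith
    refine (norm_psi_sH hβ0 hβ1 h3).trans (Real.exp_le_exp.2 (neg_le_neg ?_))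
    have h4 : |(u - x).im| ≤ |τ| + 1 := by
      rw [Complex.sub_im, him]
      have := abs_sub τ x.im
      linarith
    have h5 : Real.exp (-(8 / 3)) * E ≤ Real.exp (-(2 * β) * |(u - x).im|) := by
      rw [hE, ← Real.exp_add]
      refine Real.exp_le_exp.2 ?_
      have h6 : 2 * β * |(u - x).im| ≤ 2 * β * (|τ| + 1) :=
        mul_le_mul_of_nonneg_left h4 (by linarith)
      linarith
    rw [hc]
    linarith
  have e : ph0 β (gP β [I, -I]) r u = 1 - psi β u ^ r * (psi β (u - I) * psi β (u - -I)) := by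
    unfold ph0 PBX.ph
    rw [PBX.gP_cons, PBX.gP_cons, PBX.gP_nil, mul_one]
    simp only [sub_zero, Finset.prod_const, Finset.card_univ, Fintype.card_fin]
  have a0 := key 0 rfl (by simp)
  have a1 := key I I_re (by simp)
  have a2 := key (-I) (by simp) (by simp)
  rw [sub_zero] at a0
  have a3 : ‖psi β u ^ r * (psi β (u - I) * psi β (u - -I))‖ ≤
      Real.exp (-(c * (k * E))) := by
    rw [norm_mul, norm_pow, norm_mul]
    have b1 : ‖psi β u‖ ^ r ≤ Real.exp (-(c * E)) ^ r := pow_le_pow_left₀ (norm_nonneg _) a0 r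
    have b2 : ‖psi β (u - I)‖ * ‖psi β (u - -I)‖ ≤ Real.exp (-(c * E)) * Real.exp (-(c * E)) :=
      mul_le_mul a1 a2 (norm_nonneg _) (Real.exp_pos _).le
    refine (mul_le_mul b1 b2 (by positivity) (by positivity)).trans ?_
    rw [← Real.exp_nat_mul, ← Real.exp_add, ← Real.exp_add]
    refine Real.exp_le_exp.2 ?_
    have b3 : (k : ℝ) ≤ r + 1 := by exact_mod_cast hr
    have b4 : c * E * k ≤ c * E * (r + 1) := mul_le_mul_of_nonneg_left b3 (by positivity)
    have b5 : 0 < c * E := by positivity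
    linarith
  have a4 : 1 - Real.exp (-(c * (k * E))) ≤ ‖ph0 β (gP β [I, -I]) r u‖ := by
    rw [e]
    have b1 := norm_sub_norm_le (1 : ℂ) (psi β u ^ r * (psi β (u - I) * psi β (u - -I)))
    rw [norm_one] at b1
    linarith
  have hk0 : (0 : ℝ) < k := by exact_mod_cast hk
  have hkE : 0 ≤ c * (k * E) := by positivity
  refine le_trans ?_ ((one_sub_exp_ge hkE).trans a4)
  have e3 : NUGC.cut (Real.log k) ep (-1) τ = min 1 (k * E) := by
    unfold NUGC.cut
    rw [if_neg (by norm_num), Real.exp_sub, Real.exp_log hk0, hE, div_eq_mul_inv, ← Real.exp_neg]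
    congr 3
    rw [hβ]
    ring
  rw [e3]
  have e4 : min 1 (k * E) / (512 * Real.exp (8 / 3)) = c * min 1 (k * E) / 2 := by
    rw [hc, Real.exp_neg]
    field_simp
    norm_num
  rw [e4]
  refine div_le_div_of_nonneg_right (le_min ?_ ?_) two_pos.le
  · have h := min_le_left 1 (k * E)
    have h' : 0 ≤ min 1 (k * E) := le_min zero_le_one (by positivity)
    nlinarith
  · exact mul_le_mul_of_nonneg_left (min_le_right _ _) hc0.le

/-- the decay of `om` against the cut -/
theorem om_cut {ep : ℝ} (h0 : 0 ≤ ep) {k : ℕ} (hk : 1 ≤ k) {c : ℝ} (hc : 0 ≤ c) (τ : ℝ) :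
    Real.exp (-(Real.exp (11 / 2 * (|τ| - (Tb (Real.log k) + c))) / 5)) ≤
      Real.exp (8 / 3 * c) * NUGC.cut (Real.log k) ep (-1) τ := by
  set x := |τ| - (Tb (Real.log k) + c) with hx
  have hk0 : (0 : ℝ) < k := by exact_mod_cast hk
  have h1 : Real.exp (-(Real.exp (11 / 2 * x) / 5)) ≤ min 1 (Real.exp (-(8 / 3) * x)) := by
    have hp := Real.exp_pos (11 / 2 * x)
    refine le_min (Real.exp_le_one_iff.2 (by linarith)) (Real.exp_le_exp.2 ?_)
    rcases le_total x 0 with h | h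
    · linarith
    · have h2 : Real.exp 1 * (11 / 2 * x) ≤ Real.exp (11 / 2 * x) := by
        have h3 : Real.exp (11 / 2 * x) = Real.exp 1 * Real.exp (11 / 2 * x - 1) := by
          rw [← Real.exp_add]
          congr 1
          ring
        rw [h3]
        refine mul_le_mul_of_nonneg_left ?_ (Real.exp_pos 1).le
        linarith [Real.add_one_le_exp (11 / 2 * x - 1)]
      have h4 : (2.7 : ℝ) ≤ Real.exp 1 := by linarith [Real.exp_one_gt_d9]
      nlinarith
  refine h1.trans ?_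
  unfold NUGC.cut
  rw [if_neg (by norm_num)]
  have hE : 1 ≤ Real.exp (8 / 3 * c) := Real.one_le_exp (by positivity)
  have h2 : Real.exp (-(8 / 3) * x) ≤
      Real.exp (8 / 3 * c) * Real.exp (Real.log k - 8 / 3 * (1 - ep) * |τ|) := by
    rw [← Real.exp_add]
    refine Real.exp_le_exp.2 ?_
    have h3 : 0 ≤ 8 / 3 * ep * |τ| := by positivity
    rw [hx]
    unfold NUO.Tb
    linarith
  rcases le_total 1 (Real.exp (Real.log k - 8 / 3 * (1 - ep) * |τ|)) with h | h
  · rw [min_eq_left h, mul_one]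
    exact (min_le_left _ _).trans hE
  · rw [min_eq_right h]
    exact (min_le_right _ _).trans h2

variable [Fil]

/-- **the cutoff of the strings at the place of a host string**, with the factor `om` -/
theorem norm_V6' {k : ℕ} (hk : 1 ≤ k) (a : Bool) (τ : ℝ) :
    ‖ph0 (4 / 3) (gV6 k a) (cond a (k - 1) (Fil.q * (k - 1))) (zj (-(11 / 8)) τ)‖ ≤
      (Real.exp 3 * Real.exp (-(Real.exp (11 / 2 * (|τ| - T1L k)) / 5))) *
        ‖ph0 (4 / 3) (gP (4 / 3) []) (cond a (k - 1) (Fil.q * (k - 1)))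
          (zj (-(11 / 8)) τ)‖ := by
  have hl := NUP1.Bd.l_pos
  have hll : NUMF.l = l := rfl
  set u := zj (-(11 / 8)) τ with hu
  have hre : u.re = -(11 / 8) * l := by rw [hu, PB0.PLX.zj_re]; rfl
  have him : u.im = τ := by rw [hu, PB0.PLX.zj_im]
  set r := cond a (k - 1) (Fil.q * (k - 1)) with hr
  have e1 : ph0 (4 / 3) (gV6 k a) r u = ph0 (4 / 3) (gP (4 / 3) []) r u *
      om (T1L k) (pP (List.ofFn (fun _ : Fin r => (0 : ℂ)) ++ [])) u := by
    have h := ph_gO_om (T1L k) [] (fun _ : Fin r => (0 : ℂ)) u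
    have e2 : gV6 k a = gO (T1L k) [] (fun _ : Fin r => (0 : ℂ)) := by
      unfold PBTV.PLX.gV6
      rw [rwq_zero]
    unfold PB0.PLX.ph0
    rw [e2, h]
    congr 2
    funext v
    exact (pP_append _ _ v).symm
  have hRw : RwL 0 2 r (List.ofFn (fun _ : Fin r => (0 : ℂ)) ++ []) [] := by
    refine ⟨?_, le_rfl, by simp, by simp⟩
    rw [List.ofFn_const]
  have huu : |u.re + l / 2| ≤ l := by
    rw [hre, abs_le]
    constructor <;> linarith
  have hlen : ((List.ofFn (fun _ : Fin r => (0 : ℂ)) ++ []).length : ℝ) ≤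
      (((Fil.q : ℕ) : ℝ) + (2 : ℕ)) * k := by
    rw [List.append_nil, List.length_ofFn]
    have h := rows_le (k := k) (by omega) a
    rw [← hr] at h
    have hk' : (0 : ℝ) ≤ k := Nat.cast_nonneg k
    push_cast at h ⊢
    nlinarith
  have hom := norm_om_le (T1 := T1L k) (P := pP (List.ofFn (fun _ : Fin r => (0 : ℂ)) ++ []))
    (w := u) (by
      show |u.re + 31 / 32 * NUMF.l| ≤ 77 / 160 * NUMF.l
      rw [hll, hre, abs_le]
      constructor <;> linarith)
    (fun _ => pP_le (by norm_num) hRw huu)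
    fun h => pP_vac (by norm_num) hRw (by positivity) hk hlen huu le_rfl h
  rw [him] at hom
  rw [e1, norm_mul, mul_comm]
  exact mul_le_mul_of_nonneg_right hom (norm_nonneg _)

/-- the constant of `cutB6_V6` -/
def aW6 : ℝ := aV6 * (512 * Real.exp (8 / 3) * Real.exp (8 / 3 * tauF))

theorem aW6_aux : 512 ≤ 512 * Real.exp (8 / 3) * Real.exp (8 / 3 * tauF) := by
  have h1 : 1 ≤ Real.exp (8 / 3) := Real.one_le_exp (by norm_num)
  have h2 : 1 ≤ Real.exp (8 / 3 * tauF) := Real.one_le_exp (by have := tauF_nonneg; positivity)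
  have h3 : 1 ≤ Real.exp (8 / 3) * Real.exp (8 / 3 * tauF) := by nlinarith
  linarith

theorem aV6_le : aV6 ≤ aW6 := by
  have h1 := aW6_aux
  have h2 := one_le_aV6
  unfold aW6
  nlinarith

theorem one_le_aW6 : 1 ≤ aW6 := one_le_aV6.trans aV6_le

/-- **the bounds of the cutoffs**: quanta over the rows and `± i`, strings `gV6 k a` -/
theorem cutB6_V6 {ep : ℝ} (h0 : 0 ≤ ep) (h1 : ep < 1) {k : ℕ} (hk : 1 ≤ k) (a : Bool) :
    CutB6 (cond a (k - 1) (Fil.q * (k - 1))) k ep aW6 (4 / 3 * (1 - ep))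
      (gP (4 / 3 * (1 - ep)) [I, -I]) (gV6 k a) := by
  have hq : 1 ≤ Fil.q := Fil.one_le_q (self := inferInstance)
  have hq' : (1 : ℝ) ≤ Fil.q := by exact_mod_cast hq
  have hc := NUGC.cut_nonneg (Real.log k) ep (-1)
  have h := cutB_V6 h0 h1 hk a
  have hA := aV6_le
  have hV1 := one_le_aV6
  have hX := aW6_aux
  have hk0 : (0 : ℝ) < k := by exact_mod_cast hk
  refine ⟨⟨fun τ => (h.q τ).trans (mul_le_mul_of_nonneg_right hA (hc τ)),
    fun τ => (h.h τ).trans hA, fun τ => (h.s τ).trans (mul_le_mul_of_nonneg_right hA (hc τ))⟩,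
    fun τ => ?_, fun τ => ?_⟩
  · have hr : k ≤ cond a (k - 1) (Fil.q * (k - 1)) + 1 := by
      cases a
      · show k ≤ Fil.q * (k - 1) + 1
        have h3 : 1 * (k - 1) ≤ Fil.q * (k - 1) := Nat.mul_le_mul_right _ hq
        omega
      · show k ≤ (k - 1) + 1
        omega
    have h3 := ph0_low h0 h1 hk hr τ
    have hcp : 0 < NUGC.cut (Real.log k) ep (-1) τ := by
      unfold NUGC.cut
      rw [if_neg (by norm_num)]
      exact lt_min one_pos (Real.exp_pos _)
    have hE := Real.exp_pos (8 / 3 : ℝ)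
    refine (inv_anti₀ (by positivity) h3).trans ?_
    rw [inv_div, div_eq_mul_inv]
    refine mul_le_mul_of_nonneg_right ?_ (inv_pos.2 hcp).le
    have h4 : 1 ≤ Real.exp (8 / 3 * tauF) :=
      Real.one_le_exp (by have := tauF_nonneg; positivity)
    have h5 : 512 * Real.exp (8 / 3) ≤ 512 * Real.exp (8 / 3) * Real.exp (8 / 3 * tauF) :=
      le_mul_of_one_le_right (by positivity) h4
    refine h5.trans ?_
    unfold aW6
    exact le_mul_of_one_le_left (by positivity) hV1
  · have h5 := norm_V6' hk a τ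
    have hw := one_le_cWA 1 [I, -I] []
    have h6 := (cutBI h0 h1 (r := cond a (k - 1) (Fil.q * (k - 1))) (k := k) (by omega) hq'
      (rows_le (by omega) a)).s τ
    have h7 := om_cut h0 hk tauF_nonneg (ep := ep) τ
    have h8 : Real.exp (-(Real.exp (11 / 2 * (|τ| - T1L k)) / 5)) ≤
      Real.exp (8 / 3 * tauF) * NUGC.cut (Real.log k) ep (-1) τ := h7
    set Y := NUGC.cut (Real.log k) ep (-1) τ with hY
    have hY0 : 0 ≤ Y := hc τ
    have hE3 := Real.exp_pos (3 : ℝ)
    have hET := Real.exp_pos (8 / 3 * tauF)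
    have hEE := Real.one_le_exp (x := (8 / 3 : ℝ)) (by norm_num)
    have hqc : 0 ≤ (Fil.q : ℝ) * cWA 1 [I, -I] [] := by positivity
    calc _ ≤ (Real.exp 3 * Real.exp (-(Real.exp (11 / 2 * (|τ| - T1L k)) / 5))) *
          ‖ph0 (4 / 3) (gP (4 / 3) []) (cond a (k - 1) (Fil.q * (k - 1)))
            (zj (-(11 / 8)) τ)‖ := h5
      _ ≤ (Real.exp 3 * (Real.exp (8 / 3 * tauF) * Y)) *
          ((Fil.q : ℝ) * cWA 1 [I, -I] [] * Y) :=
        mul_le_mul (mul_le_mul_of_nonneg_left h8 hE3.le) h6 (norm_nonneg _) (by positivity)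
      _ = aV6 * Real.exp (8 / 3 * tauF) * Y ^ 2 := by
        unfold aV6
        ring
      _ ≤ aW6 * Y ^ 2 := by
        refine mul_le_mul_of_nonneg_right ?_ (sq_nonneg _)
        unfold aW6
        refine mul_le_mul_of_nonneg_left ?_ (by linarith)
        nlinarith

end PHK

end
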