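import Pool.Agent.PLX.ExU

/-!
# The one body functions `XXU` with a general cutoff of the strings

The cutoff `ph (4 / 3) x g0` of the strings only needs its correction `g0` on the strip `KS` of the
strings: `GOkS`, **`GO0 g0 = GOkS (4 / 3) g0`**.  `bdd_TTUS`, `diffAt_TTUS` : strings T; `bdd_SS`,
`diffAt_SS` : strings S on `[-11/8 l, -7/10 l]`; **`dataXUS`, `stageXUS`** : the data of stage 2 and
the class formula on the landed lines.
-/

set_option autoImplicit false
set_option linter.unusedSectionVars false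
set_option linter.unusedVariables false

noncomputable section

open Complex MeasureTheory

namespace PHK

open NUP1 NUP1S NUP1.Bd NURow
open NUP1.N (Z3 Gr0)
open PBX (Rws ph GOk KK K1_KK K2_KK K2_KK' im_le box NPr_K1 NPr_S NPr_K2' shiftK2 NQr_KK NQ_KK bdd_ph
  diffAt_ph measurable_ph Pm Am Cm Am_mul Cm_mul K2_sub_re sin_or sin_pos_row sin_row2 NQ_neg bdd_glueR
  bdd_prod)
open Pool.Agent.PLX

/-- the strip of the strings -/
def KS : Set ℝ := Set.Icc (-(11 / 8 * l)) (-(l / 2))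

theorem isCompact_KS : IsCompact KS := isCompact_Icc

theorem KS_KK {x : ℝ} (h : x ∈ KS) : x ∈ KK := by
  have hl := Bd.l_pos
  obtain ⟨h1, h2⟩ := h
  constructor <;> linarith

theorem K2_KS {x : ℝ} (h : x ∈ K2) : x ∈ KS := by
  have hl := Bd.l_pos
  obtain ⟨h1, h2⟩ := h
  constructor <;> linarith

/-- corrections of the cutoff of the strings -/
structure GOkS (β : ℝ) (g : ℂ → ℂ) : Prop where
  meas : Measurable g
  bd : Bdd KS (-(2 * β)) (fun z => 1 - g z)
  diff : ∀ z : ℂ, z.re ∈ KS → DifferentiableAt ℂ g z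

/-- the hypothesis on the correction of the cutoff of the strings -/
abbrev GO0 (g : ℂ → ℂ) : Prop := GOkS (4 / 3) g

theorem GOkS.of {β : ℝ} {g : ℂ → ℂ} (h : GOk β g) : GOkS β g where
  meas := h.meas
  bd := Bdd.mono_set h.bd fun x hx => KS_KK hx
  diff z hz := h.diff z (KS_KK hz)

variable {m M : ℕ}

section cut

variable {β : ℝ} {x : Fin m → ℂ} {g : ℂ → ℂ}

theorem bdd_phS (hβ : 0 < β) (hβ' : β ≤ 4 / 3) (hx : Rws x) (hg : GOkS β g) :
    Bdd KS (-(2 * β)) (ph β x g) := by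
  have h1 : Bdd KS (-(2 * β)) (ph β x fun _ => 1) :=
    Bdd.mono_set (bdd_ph hβ hβ' hx (GOk.one β)) fun x hx => KS_KK hx
  have h2 := ((Bdd.mono_set (bdd_prod hβ hβ' hx) fun x hx => KS_KK hx).mul hg.bd).rate
    (s' := -(2 * β)) (by ring)
  obtain ⟨C, hC, h1⟩ := h1
  obtain ⟨D, hD, h2⟩ := h2
  refine ⟨C + D, by positivity, fun z hz => ?_⟩
  have e : ph β x g z = ph β x (fun _ => 1) z + (∏ i, psi β (z - x i)) * (1 - g z) := by
    unfold PBX.ph
    ring
  rw [e, add_mul]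
  exact (norm_add_le _ _).trans (add_le_add (h1 z hz) (h2 z hz))

theorem diffAt_phS (hβ : 0 < β) (hβ' : β ≤ 4 / 3) (hx : Rws x) (hg : GOkS β g) {z : ℂ}
    (hz : z.re ∈ KS) : DifferentiableAt ℂ (ph β x g) z := by
  have d1 := DifferentiableAt.fun_finsetProd (𝕜 := ℂ) (u := Finset.univ)
    (f := fun (i : Fin m) s => psi β (s - x i)) (x := z) (fun i _ =>
      (diff_psi' (NQ_KK hβ hβ' hx (KS_KK hz) i)).comp z (differentiableAt_id.sub_const _))
  exact (d1.mul (hg.diff z hz)).const_sub 1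

end cut

/-! ## the strings T -/

section strT

variable {c : ℂ} {x : Fin m → ℂ} {y : Fin M → ℂ} {β β' : ℝ} {g g0 : ℂ → ℂ} {w : ℂ}

theorem diffAt_TTUS (c : ℂ) (hβ : 0 < β) (hβ1 : β ≤ 4 / 3) (hβ' : 0 < β') (hβ1' : β' ≤ 4 / 3)
    (hx : Rws x) (hg : GOk β g) (hg0 : GOkS β' g0) (hw : w.re ∈ K2) :
    DifferentiableAt ℂ (TTU c β β' x y g g0) w := by
  have hK := K2_KK hw
  have hK' : (w - l).re ∈ KK := by
    have := K2_KK' hw
    simpa using this
  have hR : DifferentiableAt ℂ (RgU c x y) w := by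
    unfold RgU
    refine (((differentiableAt_const c).mul ?_).mul ?_).mul ?_
    · refine DifferentiableAt.fun_finsetProd fun i _ => ?_
      split_ifs with h
      · exact differentiableAt_const _
      · have hs := sin_pos_row hx hw h
        fun_prop (disch := exact hs)
    · refine DifferentiableAt.fun_finsetProd fun i _ => ?_
      have hs := sin_row2 hx hw i
      fun_prop (disch := exact hs)
    · refine DifferentiableAt.fun_finsetProd fun i _ => ?_
      fun_prop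
  have hA : ∀ {b : ℝ} {k : ℂ → ℂ}, 0 < b → b ≤ 4 / 3 → DifferentiableAt ℂ k w →
      DifferentiableAt ℂ (Am b x k) w := by
    intro b k h0 h1 hk
    unfold Am
    refine DifferentiableAt.mul ?_ hk
    refine DifferentiableAt.fun_finsetProd fun i _ => ?_
    split_ifs with h
    · exact (differentiableAt_qs (NQ_KK h0 h1 hx hK i) (sin_or hx hw i)).comp w
        (differentiableAt_id.sub_const _)
    · exact (diff_psi' (NQ_KK h0 h1 hx hK i)).comp w (differentiableAt_id.sub_const _)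
  have hC : DifferentiableAt ℂ (Cm β x g) w := by
    unfold Cm
    refine DifferentiableAt.mul ?_ ((hg.diff (w - l) hK').comp w
      (differentiableAt_id.sub_const _))
    refine DifferentiableAt.fun_finsetProd fun i _ => ?_
    split_ifs with h
    · refine ((differentiableAt_qs (NQ_neg hβ hβ1 hx hw i h) ?_).comp w
        ((differentiableAt_id.sub_const _).neg)).neg
      rcases sin_or hx hw i with h0 | h0
      · left
        rw [h0, neg_zero]
      · right
        rw [Complex.sin_neg]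
        exact neg_ne_zero.2 h0
    · exact (diff_psi' (z := w - l - x i) (NQ_KK hβ hβ1 hx hK' i)).comp w
        ((differentiableAt_id.sub_const _).sub_const _)
  unfold TTU
  exact (hR.mul (RRU_shift_diff c hx hw)).mul (((hA hβ' hβ1' (hg0.diff w (K2_KS hw))).sub
    (hA hβ hβ1 (hg.diff w hK))).sub ((diffAt_ph hβ hβ1 hx hg hK).mul hC))

/-- **The strings T decay on strips containing the rows `- l / 2`.** -/
theorem bdd_TTUS (c : ℂ) (hβ : 0 < β) (hββ' : β ≤ β') (hβ1' : β' ≤ 4 / 3)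
    (hx : Rws x) (hy : Rws y) (hg : GOk β g) (hg0 : GOkS β' g0) :
    Bdd K2 (-(2 * β) + 4 * ((M : ℝ) - m)) (TTU c β β' x y g g0) := by
  have hβ' : 0 < β' := hβ.trans_le hββ'
  have hβ1 : β ≤ 4 / 3 := hββ'.trans hβ1'
  have hl := Bd.l_pos
  obtain ⟨C1, R1, hC1, g1⟩ := Gr_RRU c l (-(23 / 10 * l)) x y
  obtain ⟨C2, hC2, g2⟩ := RRU_shift_bdd c hx hy
  obtain ⟨C3, hC3, g3⟩ := bdd_ph hβ hβ1 hx hg
  obtain ⟨C4, hC4, g4⟩ := bdd_phS hβ' hβ1' hx hg0
  refine bdd_glueR (R := max R1 (1 + ∑ j, |(x j).im|)) isCompact_K2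
    (fun z hz => (diffAt_TTUS c hβ hβ1 hβ' hβ1' hx hg hg0 hz).continuousAt)
    ⟨C1 * C2 * (C3 * C3 + C4), by positivity, fun z hz hi => ?_⟩
  have hK := K2_KK hz
  have hK' : (z - l).re ∈ KK := by
    have := K2_KK' hz
    simpa using this
  have hi1 := (le_max_left _ _).trans hi
  have hi2 := (le_max_right _ _).trans hi
  have hs : ∀ i, (x i).re = -(l / 2) → sin (z - x i) ≠ 0 := by
    intro i _
    refine NUP1.sin_ne_im ?_
    rw [sub_im]
    intro h0
    have h1 : z.im = (x i).im := by linarith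
    have h2 := im_le x i
    rw [h1] at hi2
    linarith
  rw [TTU_eq (fun i => NQ_KK hβ hβ1 hx hK i) (fun i => NQ_KK hβ' hβ1' hx hK i)
    (fun i h => NQ_neg hβ hβ1 hx hz i h) hs, norm_mul, norm_mul]
  have a1 : ‖RRU c x y z‖ ≤ C1 * Real.exp (2 * ((M : ℝ) - m) * |z.im|) := g1 z hK.1 hK.2 hi1
  have a2 : ‖RRU c x y (z - l)‖ ≤ C2 * Real.exp (2 * ((M : ℝ) - m) * |z.im|) := g2 z hz
  have a3 := g3 z hK
  have a4 := g3 (z - l) hK'
  have a5 := g4 z (K2_KS hz)
  have e1 : (z - (l : ℂ)).im = z.im := by simp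
  rw [e1] at a4
  have b1 : Real.exp (-(2 * β) * |z.im|) ≤ 1 := by
    rw [Real.exp_le_one_iff]
    have := abs_nonneg z.im
    nlinarith
  have b2 : Real.exp (-(2 * β') * |z.im|) ≤ Real.exp (-(2 * β) * |z.im|) := by
    refine Real.exp_le_exp.2 ?_
    have := abs_nonneg z.im
    nlinarith
  have hE := (Real.exp_pos (-(2 * β) * |z.im|)).le
  have a6 : ‖ph β x g z * ph β x g (z - l) - ph β' x g0 z‖ ≤
      (C3 * C3 + C4) * Real.exp (-(2 * β) * |z.im|) := by
    refine (norm_sub_le _ _).trans ?_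
    rw [norm_mul, add_mul]
    refine add_le_add ?_ ?_
    · calc ‖ph β x g z‖ * ‖ph β x g (z - l)‖ ≤
          (C3 * Real.exp (-(2 * β) * |z.im|)) * (C3 * 1) :=
            mul_le_mul a3 (a4.trans (mul_le_mul_of_nonneg_left b1 hC3)) (norm_nonneg _)
              (by positivity)
        _ = _ := by ring
    · exact a5.trans (mul_le_mul_of_nonneg_left b2 hC4)
  calc _ ≤ (C1 * Real.exp (2 * ((M : ℝ) - m) * |z.im|)) * (C2 * Real.exp (2 * ((M : ℝ) - m) * |z.im|)) *
          ((C3 * C3 + C4) * Real.exp (-(2 * β) * |z.im|)) :=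
        mul_le_mul (mul_le_mul a1 a2 (norm_nonneg _) (by positivity)) a6 (norm_nonneg _) (by positivity)
    _ = _ := by
        have e2 : Real.exp ((-(2 * β) + 4 * ((M : ℝ) - m)) * |z.im|) =
            Real.exp (2 * ((M : ℝ) - m) * |z.im|) *
            Real.exp (2 * ((M : ℝ) - m) * |z.im|) * Real.exp (-(2 * β) * |z.im|) := by
          rw [← Real.exp_add, ← Real.exp_add]
          congr 1
          ring
        rw [e2]
        ring

end strT

/-! ## the strings S -/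

section data

variable {c : ℂ} {x : Fin m → ℂ} {y : Fin M → ℂ} {β : ℝ} {g g0 s1 s2 : ℂ → ℂ} {b : Bool} {Q Q' : ℝ}

/-- the strip of the strings S -/
def KSS : Set ℝ := Set.Icc (-(11 / 8 * l)) (-(7 / 10 * l))

theorem KSS_KS {x : ℝ} (h : x ∈ KSS) : x ∈ KS := ⟨h.1, by linarith [h.2, Bd.l_pos]⟩

theorem NPr_KSS : NPr (l / 2) KSS := by
  have hl := Bd.l_pos
  refine NPr_neg fun d hd => ?_
  obtain ⟨h1, h2⟩ := hd
  constructor <;> linarith

theorem NPr_KSS' : NPr (l / 2) ((fun d => d + -l) '' KSS) := by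
  have hl := Bd.l_pos
  refine NPr_neg fun d hd => ?_
  obtain ⟨e, ⟨h1, h2⟩, rfl⟩ := hd
  constructor <;> linarith

/-- strings S without spectators -/
theorem bdd_SS (hx : Rws x) (hy : Rws y) (hg0 : GOkS (4 / 3) g0) :
    Bdd KSS (-(2 * (4 / 3)) + 4 * ((M : ℝ) - m))
      (fun w => RRU c x y w * RRU c x y (w - l) * ph (4 / 3) x g0 w) := by
  have h1 := bdd_RRU c hx hy (K := KSS) isCompact_Icc NPr_KSS
  have h2 : Bdd KSS (2 * ((M : ℝ) - m)) (fun w => RRU c x y (w - l)) :=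
    bdd_shift_l (bdd_RRU c hx hy ((isCompact_Icc (a := -(11 / 8 * l))
      (b := -(7 / 10 * l))).image (by fun_prop)) NPr_KSS')
  have h3 : Bdd KSS (-(2 * (4 / 3))) (ph (4 / 3) x g0) :=
    Bdd.mono_set (bdd_phS (by norm_num) le_rfl hx hg0) fun x hx => KSS_KS hx
  exact ((h1.mul h2).mul h3).rate (by ring)

theorem diffAt_SS (hx : Rws x) (hg0 : GOkS (4 / 3) g0) {z : ℂ} (hz : z.re ∈ KSS) :
    DifferentiableAt ℂ (fun w => RRU c x y w * RRU c x y (w - l) * ph (4 / 3) x g0 w) z := by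
  have d1 : DifferentiableAt ℂ (fun w => RRU c x y (w - l)) z := by
    refine (diffAt_RRU (y := y) c NPr_KSS' hx (z := z - l) ?_).comp z
      (differentiableAt_id.sub_const _)
    refine ⟨z.re, hz, ?_⟩
    simp [sub_eq_add_neg]
  exact ((diffAt_RRU c NPr_KSS hx hz).mul d1).mul
    (diffAt_phS (by norm_num) le_rfl hx hg0 (KSS_KS hz))

theorem S_KSS {x : ℝ} (h : x ∈ Set.Icc (-(13 / 10 * l)) (-(7 / 10 * l))) : x ∈ KSS :=
  ⟨by linarith [h.1, Bd.l_pos], h.2⟩

/-- **The data of stage 2**, general cutoff of the strings. -/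
theorem dataXUS (hβ : 0 < β) (hβ' : β ≤ 4 / 3) (hx : Rws x) (hy : Rws y) (hg : GOk β g)
    (hg0 : GOkS (4 / 3) g0) (h : SpecQ b Q' s1 s2)
    (hQ : Q * sc (b, .A) = Q' * sc (b, .A) - ((M : ℝ) - m)) :
    DataQ b (3 / 5 * l) (-(17 / 10 * l)) (-(17 / 10 * l)) (-(5 / 4 * l)) (-(13 / 10 * l))
      (-(7 / 10 * l)) (-(7 / 10 * l)) (-(l / 2)) (2 * β) Q (GXU c β x y g s1)
      (XXU c β x y g g0 s1 s2) where
  meas := measurable_XXU hg.meas hg0.meas h.m1 h.m2
  dec k := by
    have hl := Bd.l_pos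
    rcases k with _ | k
    · refine DecOn_of (Bdd.mono_set (bdd_GXU hβ hβ' hx hy hg h hQ) ?_)
        (by simp only [sc4, ob4, Option.elim]; linarith)
      rintro x ⟨h1, h2⟩
      have h1 : 3 / 5 * l ≤ x := h1
      have h2 : x ≤ 3 / 5 * l := h2
      exact Or.inl ⟨h1, by linarith⟩
    · cases k
      · refine DecOn_of (Bdd.mono_set (bdd_GXU hβ hβ' hx hy hg h hQ) ?_)
          (by simp only [sc4, ob4, ob3, Option.elim]; exact le_of_eq (by cases b <;> simp [sc, chg] <;> ring))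
        rintro x ⟨h1, h2⟩
        exact Or.inr ⟨h1, h2⟩
      · refine DecOn_of (((Bdd.mono_set (bdd_SS hx hy hg0) fun x hx => S_KSS hx).mul
          (Bdd.mono_set h.b2 fun x hx => K2_sub hx)).rate
          (s' := -(2 * (4 / 3)) + -(2 * Q * sc (b, .S))) (by rw [sc_S]; linarith))
          (by simp only [sc4, ob4, ob3, Option.elim]; linarith)
      · refine DecOn_of (Bdd.mono_set
          (((bdd_TTUS c hβ hβ' le_rfl hx hy hg hg0).mul h.b2).rate
            (s' := -(2 * β) + -(2 * Q * sc (b, .S))) (by rw [sc_S]; linarith)) ?_)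
          (by simp only [sc4, ob4, ob3, Option.elim]; linarith)
        rintro x ⟨h1, h2⟩
        exact K2_subT ⟨h1, h2⟩
  cont k := by
    intro z hz
    refine ContinuousAt.continuousWithinAt ?_
    cases k
    · exact (diffAt_GXU hβ hβ' hx hg h (Or.inr ⟨hz.1, hz.2⟩)).continuousAt
    · exact ((diffAt_SS hx hg0 (S_KSS ⟨hz.1, hz.2⟩)).mul (h.d2 z (K2_sub ⟨hz.1, hz.2⟩))).continuousAt
    · exact ((diffAt_TTUS c hβ hβ' (by norm_num) le_rfl hx hg hg0 (K2_subT ⟨hz.1, hz.2⟩)).mul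
        (h.d2 z (K2_subT ⟨hz.1, hz.2⟩))).continuousAt
  diff k := by
    intro z hz
    refine DifferentiableAt.differentiableWithinAt ?_
    cases k
    · exact diffAt_GXU hβ hβ' hx hg h (Or.inr ⟨hz.1.le, hz.2.le⟩)
    · exact (diffAt_SS hx hg0 (S_KSS ⟨hz.1.le, hz.2.le⟩)).mul (h.d2 z (K2_sub ⟨hz.1.le, hz.2.le⟩))
    · exact (diffAt_TTUS c hβ hβ' (by norm_num) le_rfl hx hg hg0 (K2_subT ⟨hz.1.le, hz.2.le⟩)).mul
        (h.d2 z (K2_subT ⟨hz.1.le, hz.2.le⟩))
  split k t := by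
    have e : ∀ a, one4L (3 / 5 * l) (-(17 / 10 * l)) (XXU c β x y g g0 s1 s2) a t =
        XXU c β x y g g0 s1 s2 a (pt (3 / 5 * l) (-(17 / 10 * l)) (ob4 a) t) := fun _ => rfl
    unfold oneL
    cases k
    · have : (Finset.univ.filter fun a => ob4 a = Ob.A) = {none} := by decide
      rw [this, Finset.sum_singleton, e]
      rfl
    · have : (Finset.univ.filter fun a => ob4 a = Ob.L) = {some .L} := by decide
      rw [this, Finset.sum_singleton, e]
      rfl
    · have : (Finset.univ.filter fun a => ob4 a = Ob.S) = {some .S, some .T} := by decide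
      rw [this, Finset.sum_pair (by decide), e, e]
      have hw : (pt (3 / 5 * l) (-(17 / 10 * l)) .S t).re = -(7 / 10 * l) := by
        show (vl (-(17 / 10 * l) + l) t).re = _
        rw [re_vl]
        ring
      exact GXU_mul hβ hβ' hx h hw

end data

/-- **The class formula on the landed lines**, general cutoff of the strings. -/
theorem stageXUS {c c' : ℂ} {x : Fin m → ℂ} {y : Fin M → ℂ} {β q : ℝ}
    {g g0 g' g0' s1 s2 t1 t2 : ℂ → ℂ} (hβ : 0 < β) (hβ' : β ≤ 4 / 3) (hx : Rws x) (hy : Rws y)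
    (hg : GOk β g) (hg0 : GOkS (4 / 3) g0) (hh : GOk β g') (hh0 : GOkS (4 / 3) g0') (n n' : ℕ)
    (hn : (n' : ℝ) + m = n + M + q) (hX : SpecQ true (-q) s1 s2) (hY : SpecQ false (-q) t1 t2)
    (lnX : ∀ p p' : ℕ, (Fin p → O3) → (Fin p' → O3) → Fin p → ℝ)
    (lnY : ∀ p p' : ℕ, (Fin p → O3) → (Fin p' → O3) → Fin p' → ℝ)
    (hlX : ∀ p p' k k' i, lnX p p' k k' i ∈ Set.Icc
      (lo4 (3 / 5 * l) (-(17 / 10 * l)) (-(13 / 10 * l)) (-(7 / 10 * l)) (some (k i)))
      (lo4 (3 / 5 * l) (-(5 / 4 * l)) (-(7 / 10 * l)) (-(l / 2)) (some (k i))))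
    (hlY : ∀ p p' k k' i, lnY p p' k k' i ∈ Set.Icc
      (lo4 (3 / 5 * l) (-(17 / 10 * l)) (-(13 / 10 * l)) (-(7 / 10 * l)) (some (k' i)))
      (lo4 (3 / 5 * l) (-(5 / 4 * l)) (-(7 / 10 * l)) (-(l / 2)) (some (k' i)))) :
    Z3 (3 / 5 * l) (-(17 / 10 * l)) n n' (GXU c β x y g s1) (GXU c' β y x g' t1) =
      ZobjQ (XXU c β x y g g0 s1 s2) (XXU c' β y x g' g0' t1 t2) (3 / 5 * l) n n' lnX lnY := by
  have hl := Bd.l_pos
  refine stage2Z stripsH ⟨le_rfl, by linarith⟩ ⟨by linarith, by linarith⟩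
    ⟨by linarith, by linarith⟩ (κ := 2 * β) (by linarith) n n' (dataXUS hβ hβ' hx hy hg hg0 hX ?_)
    (dataXUS hβ hβ' hy hx hh hh0 hY ?_) lnX lnY hlX hlY
  · have e : sc (true, .A) = 1 := by simp [sc, chg]
    rw [e]
    linarith
  · have e : sc (false, .A) = -1 := by simp [sc, chg]
    rw [e]
    linarith

end PHK

end
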