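import Pool.Agent.PHK.Defs
import Pool.Agent.NUP1S.Gen
import Pool.Agent.NUP1S.HostO
import Pool.Agent.PB.F0

/-!
# The particle-hole form (P): hypotheses of the class formula, the lines

* `lnP P`, `fl6 P`: the lines of the objects (constant: `L` at `(1 - jL) l`, `T` at `-l/2`, strings at
  `-(1 + e) l`);
* `DecZ6`: decay of the one body functions on the lines, bound of the inverse in the strip of the holes;
* `loB`, `hiB`, `Adm6`, `AdS6`: boxes, admissible statistics;
* `DifZ6`: holomorphy of the one body functions of the quanta, of their inverses in the strip of the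
  holes, no zeros to the right of `51/100 l`.
-/

set_option autoImplicit false

noncomputable section

open Complex

namespace PHK

open NUP1 NUP1S NUP1S.Ab
open NUP1.Bd (Ob)

/-- the lines of the objects of (P) -/
def lnP (P : Par6) : O3 → ℝ
  | .L => (1 - P.jL) * l
  | .S => -((1 + P.e) * l)
  | .T => -(1 / 2 * l)

/-- lines of the objects X of a word -/
def lX6 (P : Par6) (p p' : ℕ) (k : Fin p → O3) (_ : Fin p' → O3) (i : Fin p) : ℝ := lnP P (k i)

/-- lines of the objects Y of a word -/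
def lY6 (P : Par6) (p p' : ℕ) (_ : Fin p → O3) (k' : Fin p' → O3) (i : Fin p') : ℝ := lnP P (k' i)

/-- the lines of all words -/
def fl6 (P : Par6) : PBI.Lns := ⟨lX6 P, lY6 P⟩

/-- **decay on the lines, bound of the inverse in the strip of the holes** -/
structure DecZ6 (Z : Bool → Option O3 → ℂ → ℂ) (P : Par6) (x0 κ κ' q0 : ℝ) : Prop where
  A : ∀ s, DecOn (κ + 2 * q0 * sc (s, Ob.A)) (Set.Icc x0 l) (Z s none)
  L : ∀ s, DecOn (κ + 2 * q0 * sc (s, Ob.L)) {(1 - P.jL) * l} (Z s (some .L))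
  T : ∀ s, DecOn (κ + 2 * q0 * sc (s, Ob.S)) {-(1 / 2 * l)} (Z s (some .T))
  S : ∀ s (N : ℕ), DecOn (N : ℝ) {-((1 + P.e) * l)} (Z s (some .S))
  H : ∀ s, Bdd (Set.Icc ((1 - P.j2) * l) ((1 - P.j1) * l)) (κ' + 2 * q0 * sc (s, Ob.A))
    fun u => (Z s none u)⁻¹

/-- **holomorphy** -/
structure DifZ6 (Z : Bool → Option O3 → ℂ → ℂ) (P : Par6) (x0 del : ℝ) : Prop where
  dA : ∀ s (u : ℂ), x0 ≤ u.re → u.re ≤ l → DifferentiableAt ℂ (Z s none) u
  dH : ∀ s (u : ℂ), (1 - P.j2) * l - del < u.re → u.re < (1 - P.j1) * l + del →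
    DifferentiableAt ℂ (fun u => (Z s none u)⁻¹) u
  ne : ∀ s (u : ℂ), 51 / 100 * l ≤ u.re → u.re < (1 - P.j1) * l + del → Z s none u ≠ 0

/-! ### the class and the statistics on boxes -/

/-- left ends of the boxes of the lines: quanta, `L`, strings, `T` -/
def loB (P : Par6) : Option O3 → ℝ
  | none => 51 / 100 * l
  | some .L => -(5 / 4 * l)
  | some .S => -((1 + P.e) * l)
  | some .T => -(1 / 2 * l)

/-- right ends -/
def hiB (P : Par6) : Option O3 → ℝ
  | none => l
  | some .L => (1 - P.jL) * l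
  | some .S => -(5 / 4 * l)
  | some .T => -(1 / 2 * l)

/-- **admissible statistics**: analytic and bounded on the boxes, on the strip
`[99/800 l, (1 + δ) l]` of the quanta and of the holes (`x0` is not used) -/
structure Adm6 (a : PBI.Stt) (P : Par6) (_x0 δ C : ℝ) : Prop where
  m : ∀ s k, Measurable (a s k)
  d : ∀ s (u : ℂ), 99 / 800 * l ≤ u.re → u.re ≤ (1 + δ) * l → DifferentiableAt ℂ (a s none) u
  A : ∀ s (u : ℂ), 99 / 800 * l ≤ u.re → u.re ≤ (1 + δ) * l → ‖a s none u‖ ≤ C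
  dO : ∀ s (o : O3) (u : ℂ), u.re ∈ Set.Icc (loB P (some o)) (hiB P (some o)) →
    DifferentiableAt ℂ (a s (some o)) u
  bO : ∀ s (o : O3) (u : ℂ), u.re ∈ Set.Icc (loB P (some o)) (hiB P (some o)) →
    ‖a s (some o) u‖ ≤ C

/-- **admissible statistics** -/
def AdS6 (P : Par6) (x0 δ : ℝ) (D : PBI.Stt) : Prop := ∃ C, Adm6 D P x0 δ C

end PHK

end
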