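import Pool.Agent.PLX.NUGC.DefC

/-!
# The particle-hole form (P): kinds, signed constituents, weights, terms

The space of objects `Xo = (Bool × Kind) × (ℝ × ℝ)` with its measure `nu` is the landed one, the kind of
an object is `k6 : Xo → Kd6` (`L → L`, `St → T`, `S → H1`, `Sv → H2`, `Svv → E` for `an ≤ 1 / 2`, `F`
otherwise, so the activities of `E`, `F` carry a factor `2`).

* `L`: a quantum at offset `jL`; `T`: a string at offset `3 / 2`;
* `E`: a string at offset `2 + e` and two quanta of the other species at its point `b = w + 2 l`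
  (offset `e`);
* `F`: `E` and a hole of the OWN species at `b`;
* `H1`, `H2`: a hole at offset `j1`, `j2`; the species of the object is the species of the removed
  quantum.

A constituent is a landed constituent with a multiplicity in `ℤ` (`-1` = hole), the pair function is
`pp6 a b = pp a.1 b.1 ^ (a.2 * b.2)`.  The free quanta are `nA6 n O s = (n - chgO6 O s).toNat`,
`cnt6 O`: not more holes of a species (glued holes included) than quanta at the points `b`; so
`2 r ≤ 3 (nX + nY)` (`card_le6`), `r ≤ 2 (nX + nY)` (`r_le6`).  The holes carry the localiser `g s h` (`s` = species of the hole),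
`gH6` is `1 - ∏ tau6 (h - b i)` over the `E`, `F` of the other species.
-/

set_option autoImplicit false

noncomputable section

open Complex MeasureTheory Finset
open scoped ENNReal
open PLX (Fil)

namespace PHK

open NUO NUP1 NUCR NUGC.PLX

/-! ### kinds, parameters -/

/-- the kinds of (P) -/
inductive Kd6
  | L | T | E | F | H1 | H2
  deriving DecidableEq

instance : Fintype Kd6 := ⟨{.L, .T, .E, .F, .H1, .H2}, fun x => by cases x <;> decide⟩
instance : MeasurableSpace Kd6 := ⊤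
instance : DiscreteMeasurableSpace Kd6 := ⟨fun _ => trivial⟩
instance : Nonempty Kd6 := ⟨Kd6.L⟩

/-- the kind of an object -/
def k6 (x : Xo) : Kd6 :=
  match NUO.kd x with
  | .L => .L
  | .St => .T
  | .S => .H1
  | .Sv => .H2
  | .Svv => if an x ≤ 1 / 2 then .E else .F

/-- the parameters: offset of `L`, the strings `E`, `F` at offset `2 + e`, the lines of the holes -/
structure Par6 where
  /-- offset of the objects `L` -/
  jL : ℝ
  /-- the strings `E`, `F` are at offset `2 + e`, their points `b` at offset `e` -/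
  e : ℝ
  /-- offset of the holes `H1` -/
  j1 : ℝ
  /-- offset of the holes `H2` -/
  j2 : ℝ

/-- conditions on the parameters -/
structure GoodP6 (P : Par6) : Prop where
  j1 : 1 / 38 < P.j1
  j1e : P.j1 < P.e
  ej2 : P.e < P.j2
  j2 : P.j2 < 1
  L2 : 201 / 100 ≤ P.jL
  Lj : P.jL < 2 + P.j1
  e13 : 1 / 3 ≤ P.e
  e45 : P.e ≤ 9 / 20

/-- the parameters of the application (use only `par6_good`) -/
def par6 : Par6 := ⟨129 / 64, 7 / 16, 1 / 32, 7 / 8⟩

theorem par6_good : GoodP6 par6 := by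
  constructor <;> norm_num [par6]

theorem GoodP6.e48 {P : Par6} (h : GoodP6 P) : P.e ≤ 12 / 25 := h.e45.trans (by norm_num)

/-! ### constituents -/

/-- a signed constituent: (species, type, position), multiplicity -/
abbrev Part6 := (Bool × Bool × ℂ) × ℤ

/-- the point `b` of the string at offset `2 + e`: offset `e` -/
def posB (e t : ℝ) : ℂ := posS e t + 2 * l

/-- the signed constituents of an object -/
def parts6 (P : Par6) (x : Xo) : List Part6 :=
  match k6 x with
  | .L => [((sp x, false, posL P.jL (ht x)), 1)]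
  | .T => [((sp x, true, posT (ht x)), 1)]
  | .E => [((sp x, true, posS P.e (ht x)), 1), ((!sp x, false, posB P.e (ht x)), 2)]
  | .F => [((sp x, true, posS P.e (ht x)), 1), ((!sp x, false, posB P.e (ht x)), 2),
      ((sp x, false, posB P.e (ht x)), -1)]
  | .H1 => [((sp x, false, posL P.j1 (ht x)), -1)]
  | .H2 => [((sp x, false, posL P.j2 (ht x)), -1)]

/-- pair function of two signed constituents -/
def pp6 (a b : Part6) : ℂ := NUO.pp a.1 b.1 ^ (a.2 * b.2)

/-- modulus of the pair weight of two lists of signed constituents -/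
def ppN6 (A B : List Part6) : ℝ := (A.map fun a => (B.map fun b => ‖pp6 a b‖).prod).prod

/-- the signed constituents of the object `i` of the configuration `O` -/
def cons6 (P : Par6) {r : ℕ} (O : Fin r → Xo) (i : Fin r) : List Part6 := parts6 P (O i)

/-- modulus of the pair weight of the objects `i`, `j` -/
def pairN6 (P : Par6) {r : ℕ} (O : Fin r → Xo) (i j : Fin r) : ℝ :=
  ppN6 (cons6 P O i) (cons6 P O j)

/-- modulus of the pair weight of the object `i` and of a quantum of species `s` at `z` -/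
def potN6 (P : Par6) {r : ℕ} (O : Fin r → Xo) (i : Fin r) (s : Bool) (z : ℂ) : ℝ :=
  ppN6 [((s, false, z), 1)] (cons6 P O i)

/-- number of quanta of species `s` of an object -/
def chg6 (s : Bool) (x : Xo) : ℤ :=
  match k6 x with
  | .L => if sp x = s then 1 else 0
  | .T => if sp x = s then 2 else 0
  | .E => 2
  | .F => if sp x = s then 1 else 2
  | .H1 => if sp x = s then -1 else 0
  | .H2 => if sp x = s then -1 else 0

/-- number of quanta of species `s` of all objects -/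
def chgO6 {r : ℕ} (O : Fin r → Xo) (s : Bool) : ℤ := ∑ i, chg6 s (O i)

/-- number of free quanta of species `s` -/
def nA6 (n : ℕ) {r : ℕ} (O : Fin r → Xo) (s : Bool) : ℕ := ((n : ℤ) - chgO6 O s).toNat

/-- the objects with a string `E`, `F` -/
def isE (x : Xo) : Prop := k6 x = .E ∨ k6 x = .F

/-- the objects with a hole -/
def isH (x : Xo) : Prop := k6 x = .H1 ∨ k6 x = .H2 ∨ k6 x = .F

instance (x : Xo) : Decidable (isE x) := by unfold isE; infer_instance
instance (x : Xo) : Decidable (isH x) := by unfold isH; infer_instance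

/-- holes of species `s` of an object (glued holes included) -/
def hl6 (s : Bool) (x : Xo) : ℕ :=
  match k6 x with
  | .L => 0
  | .T => 0
  | .E => 0
  | .F => if sp x = s then 1 else 0
  | .H1 => if sp x = s then 1 else 0
  | .H2 => if sp x = s then 1 else 0

/-- quanta of species `s` at the points `b` of an object -/
def sat6 (s : Bool) (x : Xo) : ℕ :=
  match k6 x with
  | .L => 0
  | .T => 0
  | .E => if sp x = s then 0 else 2
  | .F => if sp x = s then 0 else 2
  | .H1 => 0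
  | .H2 => 0

/-- **not more holes of a species than quanta at the points `b`** -/
def cnt6 {r : ℕ} (O : Fin r → Xo) : Prop := ∀ s, ∑ i, hl6 s (O i) ≤ ∑ i, sat6 s (O i)

instance {r : ℕ} (O : Fin r → Xo) : Decidable (cnt6 O) := by unfold cnt6; infer_instance

/-- **the number of objects** -/
theorem card_le6 {r : ℕ} {O : Fin r → Xo} (hO : cnt6 O) :
    2 * (r : ℤ) ≤ 3 * (chgO6 O true + chgO6 O false) := by
  have h1 := hO true
  have h2 := hO false
  have key : ∀ x : Xo, (2 : ℤ) ≤ 3 * (chg6 true x + chg6 false x) +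
      5 * (((hl6 true x : ℤ) + hl6 false x) - ((sat6 true x : ℤ) + sat6 false x)) := by
    intro x
    unfold chg6 hl6 sat6
    cases k6 x <;> cases sp x <;> simp
  have h3 : ∑ i : Fin r, (2 : ℤ) ≤ ∑ i, (3 * (chg6 true (O i) + chg6 false (O i)) +
      5 * (((hl6 true (O i) : ℤ) + hl6 false (O i)) - ((sat6 true (O i) : ℤ) + sat6 false (O i)))) :=
    Finset.sum_le_sum fun i _ => key (O i)
  rw [Finset.sum_const, Finset.card_univ, Fintype.card_fin, nsmul_eq_mul] at h3
  simp only [Finset.sum_add_distrib, ← Finset.mul_sum, Finset.sum_sub_distrib] at h3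
  have h4 : (∑ i, (hl6 true (O i) : ℤ)) ≤ ∑ i, (sat6 true (O i) : ℤ) := by exact_mod_cast h1
  have h5 : (∑ i, (hl6 false (O i) : ℤ)) ≤ ∑ i, (sat6 false (O i) : ℤ) := by exact_mod_cast h2
  unfold chgO6
  linarith

/-- the charges are nonnegative -/
theorem chgO6_nonneg {r : ℕ} {O : Fin r → Xo} (hO : cnt6 O) (s : Bool) : 0 ≤ chgO6 O s := by
  have h1 := hO s
  have key : ∀ x : Xo, (sat6 s x : ℤ) - hl6 s x ≤ chg6 s x := by
    intro x
    unfold chg6 hl6 sat6
    cases k6 x <;> cases sp x <;> cases s <;> simp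
  have h3 : ∑ i, ((sat6 s (O i) : ℤ) - hl6 s (O i)) ≤ ∑ i, chg6 s (O i) :=
    Finset.sum_le_sum fun i _ => key (O i)
  rw [Finset.sum_sub_distrib] at h3
  have h4 : (∑ i, (hl6 s (O i) : ℤ)) ≤ ∑ i, (sat6 s (O i) : ℤ) := by exact_mod_cast h1
  unfold chgO6
  linarith

/-- number of objects of a term -/
theorem r_le6 {r : ℕ} {O : Fin r → Xo} {nX nY : ℕ} (hX : chgO6 O true ≤ nX)
    (hY : chgO6 O false ≤ nY) (h : cnt6 O) : r ≤ 2 * (nX + nY) := by
  have := card_le6 h
  omega

theorem chg6_parts (P : Par6) (s : Bool) (x : Xo) : chg6 s x =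
    ((parts6 P x).map fun a => if a.1.1 = s then a.2 * (Kn.ch a.1.2.1 : ℤ) else 0).sum := by
  obtain ⟨⟨c, k⟩, t, a⟩ := x
  unfold chg6 parts6
  generalize k6 ((c, k), t, a) = q
  cases q <;> cases c <;> cases s <;> simp [Kn.ch]

/-! ### one body weights -/

/-- modulus of the one body function of a quantum -/
def wq6 (B : OB) (s : Bool) (z : ℂ) : ℝ := B.R s z * ‖B.φ s z‖

/-- modulus of the one body function of a signed constituent of an object of kind `k` -/
def w6 (B : OB) (k : Kd6) (a : Part6) : ℝ :=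
  if a.1.2.1 = true then
    B.R a.1.1 a.1.2.2 * B.R a.1.1 (a.1.2.2 - l) *
      (if k = .T then ‖B.φ a.1.1 a.1.2.2 * B.φ a.1.1 (a.1.2.2 - l) - B.φ0 a.1.1 a.1.2.2‖
        else ‖B.φ0 a.1.1 a.1.2.2‖)
  else wq6 B a.1.1 a.1.2.2 ^ a.2

/-- the contact constant of a kind (factor `2` of `E`, `F` included) -/
def cK6 : Kd6 → ℝ
  | .L => (2 * Real.pi)⁻¹
  | .T => aS
  | .E => 2 * (aS * (4 * Real.cos l ^ 2 / Real.sin (5 * l) ^ 4))
  | .F => 2 * (aS * (4 * Real.cos l ^ 2 / Real.sin (5 * l) ^ 4)) *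
      (4 * Real.cos l ^ 2 * Real.sin (3 * l) ^ 8 /
        (Real.sin (2 * l) * Real.sin (3 * l) * Real.sin (5 * l)))
  | .H1 => (2 * Real.pi)⁻¹ * (4 * Real.cos l ^ 2)
  | .H2 => (2 * Real.pi)⁻¹ * (4 * Real.cos l ^ 2)

/-- modulus of the one body weight of an object -/
def ob6 (B : OB) (P : Par6) (x : Xo) : ℝ := cK6 (k6 x) * ((parts6 P x).map (w6 B (k6 x))).prod

/-! ### the localiser of the holes -/

/-- localiser factor of an object, `g s h` = localiser of a hole of species `s` at `h` -/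
def loc6 (g : Bool → ℂ → ℂ) (P : Par6) (x : Xo) : ℝ :=
  match k6 x with
  | .L => 1
  | .T => 1
  | .E => 1
  | .F => ‖g (sp x) (posB P.e (ht x))‖
  | .H1 => ‖g (sp x) (posL P.j1 (ht x))‖
  | .H2 => ‖g (sp x) (posL P.j2 (ht x))‖

/-- `- tan (3 z) ^ 2` -/
def tau6 (z : ℂ) : ℂ := -(Complex.tan (3 * z)) ^ 2

/-- the localiser of the holes of species `s`: the strings `E`, `F` of the other species -/
def gH6 (P : Par6) {r : ℕ} (O : Fin r → Xo) (s : Bool) (h : ℂ) : ℂ :=
  1 - ∏ i, if sp (O i) = !s ∧ isE (O i) then tau6 (h - posB P.e (ht (O i))) else 1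

/-- modulus of the weight of the configuration without the quanta on `A'` -/
def objWc6 (B : OB) (P : Par6) {r : ℕ} (O : Fin r → Xo) : ℝ :=
  (∏ i, ob6 B P (O i)) * (∏ i, loc6 (gH6 P O) P (O i)) *
    ∏ i, ∏ j, if i < j then pairN6 P O i j else 1

/-! ### terms -/

section

variable [Fil]

/-- one body factor of a quantum of species `a` on its curve, with the potentials of the objects -/
def qA6 (B : OB) (P : Par6) (η : ℝ → ℝ) {r : ℕ} (O : Fin r → Xo) (a : Bool) (t : ℝ) : ℝ :=
  (2 * Real.pi)⁻¹ * (B.R a (NUO.pA (Fil.cv a η) t) * ‖B.φ a (NUO.pA (Fil.cv a η) t)‖) *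
    ∏ i, potN6 P O i a (NUO.pA (Fil.cv a η) t)

/-- the positive gas of `p` quanta X and `q` quanta Y on their curves -/
def Z1c6 (B : OB) (P : Par6) (η η' : ℝ → ℝ) {r : ℕ} (O : Fin r → Xo) (p q : ℕ) : ℝ≥0∞ :=
  ((p.factorial : ℝ≥0∞) * q.factorial)⁻¹ * ∫⁻ x : (Fin p → ℝ) × (Fin q → ℝ),
    ENNReal.ofReal (NU42.WO (dA (Fil.cv true η)) (dA (Fil.cv true η')) (dA (Fil.cv false η))
      (dA (Fil.cv false η')) (qA6 B P η O true) (qA6 B P η O false) x.1 x.2)

/-- the term of the configuration `O` with `nX` quanta X and `nY` quanta Y -/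
def Fnc6 (B : OB) (P : Par6) (η η' : ℝ → ℝ) (nX nY : ℕ) {r : ℕ} (O : Fin r → Xo) : ℝ≥0∞ :=
  if chgO6 O true ≤ nX ∧ chgO6 O false ≤ nY ∧ cnt6 O then
    ENNReal.ofReal (objWc6 B P O) * Z1c6 B P η η' O (nA6 nX O true) (nA6 nY O false)
  else 0

end

/-- **representation of a class by terms**, curve depending on the objects (`a` extra quanta), at
most `2 (nX + nY)` objects -/
def R4gen6 (ep : ℝ) (a : ℕ) (T : Term) (Z : ℕ → ℂ) : Prop :=
  ∀ η η' : (r : ℕ) → (Fin r → Xo) → ℝ → ℝ,
    (∀ (r : ℕ) (O : Fin r → Xo), CurB ep (η r O) (η' r O)) → ∀ n : ℕ,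
    ‖Z n‖ₑ ≤ ∑ r ∈ range (2 * (2 * n + a) + 1), ((r.factorial : ℝ≥0∞))⁻¹ *
      ∫⁻ O : Fin r → Xo, T n r O (η r O) (η' r O) ∂(Measure.pi fun _ => nu)

/-- **the tilted bound of one term** with the prefactor `Q`, `ν` the mean number of quanta, `N` a bound
of the numbers -/
def PerG6 (C C' c b : ℝ) (k : ℕ) (c1 c' L ep e1 J ν d : ℝ) (N a : ℕ) (T : Term) (Q : ℝ) : Prop :=
  ∀ n ≤ N, ∀ b' : ℝ, b' = d ∨ b' = -d → ∀ r ≤ 2 * (2 * n + a), ∀ O : Fin r → Xo,
    ∃ η η' : ℝ → ℝ, CurB ep η η' ∧ ∀ W : Finset ℤ,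
      ENNReal.ofReal (Real.exp (b' * (ν - n))) * T n r O η η' ≤
        ENNReal.ofReal (Q * (if (r : ℝ) ≤ L then 1 else Real.exp (c' * L)) *
          (∏ i, act C C' c b k L ep e1 J r (ht (O i))) *
          Real.exp (-(c1 * ∑ w ∈ W, (cO O w : ℝ) ^ 2)))

section

variable [Fil]

/-- the terms of a class: `n + aX` quanta X, `n + aY` quanta Y, one body data which may depend on the
configuration -/
def TmC6 (B : (r : ℕ) → (Fin r → Xo) → OB) (P : Par6) (aX aY : ℕ) : Term :=
  fun n r O η η' => Fnc6 (B r O) P η η' (n + aX) (n + aY) O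

/-- **the representation corollary of one class** -/
def R4Cof6 (ep : ℝ) (B : OB) (P : Par6) (aX aY : ℕ) (Z : ℕ → ℂ) : Prop :=
  R4gen6 ep (aX + aY) (TmC6 (fun _ _ => B) P aX aY) Z

/-- the terms of a class with a marked object `i`: weight `w` and one body data depend on the
configuration and on the mark -/
def TmM6 (w : (r : ℕ) → (Fin r → Xo) → Fin r → ℝ≥0∞)
    (B : (r : ℕ) → (Fin r → Xo) → Fin r → OB) (P : Par6) (aX aY : ℕ) : Term :=
  fun n r O η η' => ∑ i : Fin r, w r O i * Fnc6 (B r O i) P η η' (n + aX) (n + aY) O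

end

/-! ### signs, explicit forms -/

theorem ppN6_nonneg (A B : List Part6) : 0 ≤ ppN6 A B := by
  unfold ppN6
  refine List.prod_nonneg fun x hx => ?_
  obtain ⟨a, _, rfl⟩ := List.mem_map.1 hx
  refine List.prod_nonneg fun y hy => ?_
  obtain ⟨b, _, rfl⟩ := List.mem_map.1 hy
  exact norm_nonneg _

theorem pairN6_nonneg (P : Par6) {r : ℕ} (O : Fin r → Xo) (i j : Fin r) : 0 ≤ pairN6 P O i j :=
  ppN6_nonneg _ _

theorem potN6_nonneg (P : Par6) {r : ℕ} (O : Fin r → Xo) (i : Fin r) (s : Bool) (z : ℂ) :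
    0 ≤ potN6 P O i s z := ppN6_nonneg _ _

theorem loc6_nonneg (g : Bool → ℂ → ℂ) (P : Par6) (x : Xo) : 0 ≤ loc6 g P x := by
  unfold loc6
  cases k6 x <;> first | exact zero_le_one | exact norm_nonneg _

theorem sinl_pos (k : ℕ) (h1 : 0 < k) (h2 : k < 8) : 0 < Real.sin (k * l) := by
  have hp := Real.pi_pos
  have h3 : (1 : ℝ) ≤ k := by exact_mod_cast h1
  have h4 : (k : ℝ) ≤ 7 := by exact_mod_cast (by omega : k ≤ 7)
  refine Real.sin_pos_of_pos_of_lt_pi ?_ ?_ <;> unfold l <;> nlinarith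

theorem cK6_nonneg (k : Kd6) : 0 ≤ cK6 k := by
  have h1 := aS_pos
  have h2 : 0 < Real.sin (2 * l) := by simpa using sinl_pos 2 (by norm_num) (by norm_num)
  have h3 : 0 < Real.sin (3 * l) := by simpa using sinl_pos 3 (by norm_num) (by norm_num)
  have h5 : 0 < Real.sin (5 * l) := by simpa using sinl_pos 5 (by norm_num) (by norm_num)
  cases k <;> simp only [cK6] <;> positivity

theorem wq6_nonneg {B : OB} (hB : B.Nn) (s : Bool) (z : ℂ) : 0 ≤ wq6 B s z :=
  mul_nonneg (hB s z) (norm_nonneg _)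

theorem w6_nonneg {B : OB} (hB : B.Nn) (k : Kd6) (a : Part6) : 0 ≤ w6 B k a := by
  unfold w6
  have h1 := hB a.1.1 a.1.2.2
  have h2 := hB a.1.1 (a.1.2.2 - l)
  split_ifs
  · positivity
  · positivity
  · exact zpow_nonneg (wq6_nonneg hB _ _) _

theorem ob6_nonneg {B : OB} (hB : B.Nn) (P : Par6) (x : Xo) : 0 ≤ ob6 B P x := by
  unfold ob6
  refine mul_nonneg (cK6_nonneg _) (List.prod_nonneg fun y hy => ?_)
  obtain ⟨a, _, rfl⟩ := List.mem_map.1 hy
  exact w6_nonneg hB _ _

theorem objWc6_nonneg {B : OB} (hB : B.Nn) (P : Par6) {r : ℕ} (O : Fin r → Xo) :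
    0 ≤ objWc6 B P O := by
  unfold objWc6
  refine mul_nonneg (mul_nonneg (prod_nonneg fun i _ => ob6_nonneg hB _ _)
    (prod_nonneg fun i _ => loc6_nonneg _ _ _)) ?_
  refine prod_nonneg fun i _ => prod_nonneg fun j _ => ?_
  split_ifs
  · exact pairN6_nonneg _ _ _ _
  · exact zero_le_one

section forms

variable (B : OB) (P : Par6) {x : Xo}

theorem ob6_L (h : k6 x = .L) : ob6 B P x =
    (2 * Real.pi)⁻¹ * (B.R (sp x) (posL P.jL (ht x)) * ‖B.φ (sp x) (posL P.jL (ht x))‖) := by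
  simp [ob6, parts6, h, cK6, w6, wq6]

theorem ob6_T (h : k6 x = .T) : ob6 B P x =
    aS * (B.R (sp x) (posT (ht x)) * B.R (sp x) (posT (ht x) - l)) *
      ‖B.φ (sp x) (posT (ht x)) * B.φ (sp x) (posT (ht x) - l) - B.φ0 (sp x) (posT (ht x))‖ := by
  simp [ob6, parts6, h, cK6, w6]
  ring

theorem ob6_E (h : k6 x = .E) : ob6 B P x =
    2 * (oSc B (sp x) (posS P.e (ht x)) * (4 * Real.cos l ^ 2 *
      (B.R (!sp x) (posB P.e (ht x)) * ‖B.φ (!sp x) (posB P.e (ht x))‖ /
        Real.sin (5 * l) ^ 2) ^ 2)) := by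
  simp [ob6, parts6, h, cK6, w6, wq6, oSc]
  ring

theorem ob6_F (h : k6 x = .F) : ob6 B P x =
    2 * (oSc B (sp x) (posS P.e (ht x)) * (4 * Real.cos l ^ 2 *
      (B.R (!sp x) (posB P.e (ht x)) * ‖B.φ (!sp x) (posB P.e (ht x))‖ /
        Real.sin (5 * l) ^ 2) ^ 2)) *
    (4 * Real.cos l ^ 2 / (B.R (sp x) (posB P.e (ht x)) * ‖B.φ (sp x) (posB P.e (ht x))‖) *
      (Real.sin (3 * l) ^ 8 /
        (Real.sin (2 * l) * Real.sin (3 * l) * Real.sin (5 * l)))) := by
  simp [ob6, parts6, h, cK6, w6, wq6, oSc]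
  ring

theorem ob6_H1 (h : k6 x = .H1) : ob6 B P x =
    (2 * Real.pi)⁻¹ * (4 * Real.cos l ^ 2 /
      (B.R (sp x) (posL P.j1 (ht x)) * ‖B.φ (sp x) (posL P.j1 (ht x))‖)) := by
  simp [ob6, parts6, h, cK6, w6, wq6]
  ring

theorem ob6_H2 (h : k6 x = .H2) : ob6 B P x =
    (2 * Real.pi)⁻¹ * (4 * Real.cos l ^ 2 /
      (B.R (sp x) (posL P.j2 (ht x)) * ‖B.φ (sp x) (posL P.j2 (ht x))‖)) := by
  simp [ob6, parts6, h, cK6, w6, wq6]
  ring

end forms

end PHK

end
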