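import Pool.Agent.PHK.Defs
import Pool.Agent.NUO.DispO

/-!
# Direct pair weights of the six kinds (helper64)

`cd6 P κ`: the signed constituents of a kind: (own species, string, real part in units of `l`),
multiplicity.  `Dr6 k P σ κ κ' t` = the direct energy of two objects at the height difference `t`
(`σ` = same species), every core `log |tanh (2 ^ k t)|` of a vanishing sine removed;
`Q6 P σ κ κ'` = the number of the cores.

* **`log_pair6`**: `log (pairN6 P O i j) = - Dr6 + Q6 * log |tanh (2 ^ k (t_i - t_j))|` whenever the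
  pair weight is positive (all positions are exact: no displacement, no collision cost);
* **`pair6_ge`**: `Dr6 ≤ - log (pairN6 P O i j)` if `0 ≤ Q6`.
-/

set_option autoImplicit false

noncomputable section

open Complex

namespace PHK

open NUP1 NUO NUDispR NUDispO

/-! ### logarithms of products of sines -/

/-- the core of a sine -/
def co6 (k : ℕ) (x t : ℝ) : ℝ := if Real.sin x = 0 then Real.log |Real.tanh (2 ^ k * t)| else 0

lemma norm_tanh_real (x : ℝ) : ‖Complex.tanh (x : ℂ)‖ = |Real.tanh x| := by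
  rw [← Complex.ofReal_tanh, Complex.norm_real, Real.norm_eq_abs]

/-- one sine: regular part and core -/
theorem log_sin6 (k : ℕ) {x t : ℝ} (h : Complex.sin (x + t * I) ≠ 0) :
    Real.log ‖Complex.sin (x + t * I)‖ = lam k x t + co6 k x t := by
  unfold co6
  by_cases hx : Real.sin x = 0
  · rw [lam_core hx, if_pos hx, norm_sin_x hx, norm_sin_I]
    have h0 : sinh (t : ℂ) ≠ 0 := by
      intro h1
      apply h
      rw [← norm_eq_zero, norm_sin_x hx, norm_sin_I, h1, norm_zero]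
    have h2 := GK_eq (k := k) (ζ := (t : ℂ)) (by simp; positivity) h0
    rw [show ((2 : ℂ) ^ k * (t : ℂ)) = ((2 ^ k * t : ℝ) : ℂ) by push_cast; rfl, norm_tanh_real] at h2
    linarith
  · rw [lam_reg hx, if_neg hx, add_zero]

/-- number of the cores of a product of sines -/
theorem log_PZ6 (k : ℕ) (L : List (ℤ × ℤ)) {x t : ℝ} (hx : ∀ p ∈ L, p.2 ≠ 0)
    (h : PZ L (((x * l : ℝ) : ℂ) + t * I) ≠ 0) :
    Real.log (PZ L (((x * l : ℝ) : ℂ) + t * I)) =
      Lam k L x t + n0 L x * Real.log |Real.tanh (2 ^ k * t)| := by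
  induction L with
  | nil => simp [PZ_nil, Lam, n0]
  | cons p L ih =>
    rw [PZ_cons] at h ⊢
    have h1 := left_ne_zero_of_mul h
    have h2 := right_ne_zero_of_mul h
    have hp : p.2 ≠ 0 := hx p (by simp)
    have h3 : ‖Complex.sin (((x * l : ℝ) : ℂ) + t * I + p.1 * l)‖ ≠ 0 := by
      intro h4
      rw [h4, zero_zpow _ hp] at h1
      exact h1 rfl
    have e : ((x * l : ℝ) : ℂ) + t * I + p.1 * l = (((x + p.1) * l : ℝ) : ℂ) + t * I := by
      push_cast; ring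
    rw [e] at h1 h3
    rw [Real.log_mul (by rw [e]; exact h1) h2, ih (fun q hq => hx q (by simp [hq])) h2, e,
      Real.log_zpow, log_sin6 k (norm_ne_zero_iff.1 h3), Lam_cons, n0_cons]
    unfold co6
    split_ifs <;> push_cast <;> ring

/-! ### the pair functions as products of sines, exactly -/

lemma qq_eq6 (z : ℂ) (h : ‖Bd.qg z * Bd.qg (z + l)‖ ≠ 0) : ‖Bd.qg z * Bd.qg (z + l)‖ =
    ‖sin (z + 3 * l)‖ ^ (-2 : ℤ) * ‖sin (z - 2 * l)‖ ^ (-2 : ℤ) := by
  rw [norm_mul, qg_norm, qg_norm] at h ⊢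
  have e1 : ‖sin (z + l + 4 * l)‖ = ‖sin (z - 3 * l)‖ := by
    rw [← norm_sin_add8 (z - 3 * l)]; ring_nf
  have e2 : z + l + 3 * l = z + 4 * l := by ring
  have e3 : z + l - 3 * l = z - 2 * l := by ring
  rw [e1, e2, e3] at h ⊢
  rw [zpow_m2, zpow_m2]
  set a := ‖sin (z + 4 * l)‖
  set b := ‖sin (z + 3 * l)‖
  set c := ‖sin (z - 3 * l)‖
  set d := ‖sin (z - 2 * l)‖
  have ha : a ≠ 0 := by rintro h1; apply h; simp [h1]
  have hb : b ≠ 0 := by rintro h1; apply h; simp [h1]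
  have hc : c ≠ 0 := by rintro h1; apply h; simp [h1]
  have hd : d ≠ 0 := by rintro h1; apply h; simp [h1]
  field_simp

lemma qg_norm_neg (w : ℂ) : ‖Bd.qg (-w)‖ = ‖Bd.qg w‖ := by
  unfold Bd.qg
  rw [Complex.cos_neg, show -w + 3 * l = -(w - 3 * l) by ring,
    show -w - 3 * l = -(w + 3 * l) by ring, Complex.sin_neg, Complex.sin_neg]
  congr 2
  ring

lemma qq_eq6' (z : ℂ) (h : ‖Bd.qg z * Bd.qg (z - l)‖ ≠ 0) : ‖Bd.qg z * Bd.qg (z - l)‖ =
    ‖sin (z - 3 * l)‖ ^ (-2 : ℤ) * ‖sin (z + 2 * l)‖ ^ (-2 : ℤ) := by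
  have e := qg_norm_neg
  have e0 : ‖Bd.qg (-z) * Bd.qg (-z + l)‖ = ‖Bd.qg z * Bd.qg (z - l)‖ := by
    rw [norm_mul, norm_mul, e, show -z + l = -(z - l) by ring, e]
  have h1 := qq_eq6 (-z) (by rwa [e0])
  rw [e0, show -z + 3 * l = -(z - 3 * l) by ring, show -z - 2 * l = -(z + 2 * l) by ring,
    Complex.sin_neg, Complex.sin_neg, norm_neg, norm_neg] at h1
  exact h1

theorem cz_eq6 (s s' : Bool) (z : ℂ) (h : ‖Kn.cz s s' z‖ ≠ 0) : ‖Kn.cz s s' z‖ = PZ (Lc s s') z := by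
  rcases s with _ | _ <;> rcases s' with _ | _ <;>
    simp only [Kn.cz, Lc, PZ_cons, PZ_nil,
      Int.cast_neg, Int.cast_ofNat, neg_mul, mul_one, ← sub_eq_add_neg] at h ⊢
  · rw [qg_norm, zpow_m2, zpow_m2]
    have h2 : (2 : ℤ) = ((2 : ℕ) : ℤ) := rfl
    rw [h2, zpow_natCast]
    ring
  · exact qq_eq6 z h
  · exact qq_eq6' z h
  · have e : Bd.qg z * Bd.qg z * (Bd.qg (z + l) * Bd.qg (z - l)) =
        (Bd.qg z * Bd.qg (z + l)) * (Bd.qg z * Bd.qg (z - l)) := by ring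
    rw [e, norm_mul] at h ⊢
    rw [qq_eq6 z (left_ne_zero_of_mul h), qq_eq6' z (right_ne_zero_of_mul h)]
    ring

theorem pp_eq6 (a b : Bool × Bool × ℂ) (h : ‖NUO.pp a b‖ ≠ 0) :
    ‖NUO.pp a b‖ = PZ (Ls (a.1 == b.1) a.2.1 b.2.1) (a.2.2 - b.2.2) := by
  unfold NUO.pp Ls at *
  by_cases h1 : a.1 = b.1
  · rw [if_pos h1, if_pos (by simpa using h1), pz_eq]
  · rw [if_neg h1] at h ⊢
    rw [if_neg (by simpa using h1)]
    exact cz_eq6 _ _ _ h

lemma Ls_ne (eq s s' : Bool) : ∀ p ∈ Ls eq s s', p.2 ≠ 0 := by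
  cases eq <;> cases s <;> cases s' <;> simp [Ls, Lp, Lc]

/-! ### constituents -/

/-- signed constituents of a kind: (own species, string, real part in units of `l`), multiplicity -/
def cd6 (P : Par6) : Kd6 → List ((Bool × Bool × ℝ) × ℤ)
  | .L => [((true, false, 1 - P.jL), 1)]
  | .T => [((true, true, -(1 / 2)), 1)]
  | .E => [((true, true, -(1 + P.e)), 1), ((false, false, 1 - P.e), 2)]
  | .F => [((true, true, -(1 + P.e)), 1), ((false, false, 1 - P.e), 2), ((true, false, 1 - P.e), -1)]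
  | .H1 => [((true, false, 1 - P.j1), -1)]
  | .H2 => [((true, false, 1 - P.j2), -1)]

/-- the constituent of an object -/
def pt6 (s : Bool) (t : ℝ) (c : (Bool × Bool × ℝ) × ℤ) : Part6 :=
  ((if c.1.1 then s else !s, c.1.2.1, vl (c.1.2.2 * l) t), c.2)

theorem parts6_cd (P : Par6) (x : Xo) : parts6 P x = (cd6 P (k6 x)).map (pt6 (sp x) (ht x)) := by
  have hb : posB P.e (ht x) = vl ((1 - P.e) * l) (ht x) := by
    unfold posB posS vl; push_cast; ring
  have hs : posS P.e (ht x) = vl (-(1 + P.e) * l) (ht x) := by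
    unfold posS; rw [show -((1 + P.e) * l) = -(1 + P.e) * l by ring]
  have ht' : posT (ht x) = vl (-(1 / 2) * l) (ht x) := by
    unfold posT; rw [show -(1 / 2 * l) = -(1 / 2) * l by ring]
  unfold parts6
  cases k6 x <;> simp [cd6, pt6, hb, hs, ht', posL]

/-- the sines of two constituents -/
def LL6 (σ : Bool) (a b : (Bool × Bool × ℝ) × ℤ) : List (ℤ × ℤ) :=
  Ls (σ == (a.1.1 == b.1.1)) a.1.2.1 b.1.2.1

/-- **direct energy of two objects**, cores of scale `2 ^ k` removed -/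
def Dr6 (k : ℕ) (P : Par6) (σ : Bool) (κ κ' : Kd6) (t : ℝ) : ℝ :=
  -((cd6 P κ).map fun a => ((cd6 P κ').map fun b =>
    ((a.2 * b.2 : ℤ) : ℝ) * Lam k (LL6 σ a b) (a.1.2.2 - b.1.2.2) t).sum).sum

/-- number of the cores of two objects -/
def Q6 (P : Par6) (σ : Bool) (κ κ' : Kd6) : ℤ :=
  ((cd6 P κ).map fun a => ((cd6 P κ').map fun b =>
    a.2 * b.2 * n0 (LL6 σ a b) (a.1.2.2 - b.1.2.2)).sum).sum

lemma mul_ne6 {P : Par6} {κ : Kd6} : ∀ a ∈ cd6 P κ, a.2 ≠ 0 := by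
  cases κ <;> simp [cd6]

lemma norm_pp6_pt6 {s s' : Bool} {t t' : ℝ} {a b : (Bool × Bool × ℝ) × ℤ} (ha : a.2 ≠ 0)
    (hb : b.2 ≠ 0) (h : ‖pp6 (pt6 s t a) (pt6 s' t' b)‖ ≠ 0) :
    PZ (LL6 (s == s') a b) ((((a.1.2.2 - b.1.2.2) * l : ℝ) : ℂ) + (t - t' : ℝ) * I) ≠ 0 ∧
    ‖pp6 (pt6 s t a) (pt6 s' t' b)‖ =
      PZ (LL6 (s == s') a b) ((((a.1.2.2 - b.1.2.2) * l : ℝ) : ℂ) + (t - t' : ℝ) * I) ^ (a.2 * b.2) := by
  have hab : a.2 * b.2 ≠ 0 := mul_ne_zero ha hb
  unfold pp6 at h ⊢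
  rw [norm_zpow] at h ⊢
  have h1 : ‖NUO.pp (pt6 s t a).1 (pt6 s' t' b).1‖ ≠ 0 := by
    intro h2
    rw [h2] at h
    exact h (zero_zpow _ hab)
  have e := pp_eq6 _ _ h1
  have e1 : ((pt6 s t a).1.1 == (pt6 s' t' b).1.1) = ((s == s') == (a.1.1 == b.1.1)) := by
    unfold pt6
    cases a.1.1 <;> cases b.1.1 <;> cases s <;> cases s' <;> rfl
  have e2 : (pt6 s t a).1.2.2 - (pt6 s' t' b).1.2.2 =
      (((a.1.2.2 - b.1.2.2) * l : ℝ) : ℂ) + (t - t' : ℝ) * I := by
    unfold pt6 vl; push_cast; ring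
  rw [e1, e2] at e
  refine ⟨?_, ?_⟩
  · intro h3
    apply h1
    rw [e]
    exact h3
  · rw [e]
    rfl

/-- the logarithm of a product of signed pair weights -/
lemma log_prod_map {γ : Type*} (L : List γ) (f : γ → ℝ) (g : γ → ℝ) (h0 : (L.map f).prod ≠ 0)
    (h : ∀ c ∈ L, f c ≠ 0 → Real.log (f c) = g c) : Real.log (L.map f).prod = (L.map g).sum := by
  induction L with
  | nil => simp
  | cons c L ih =>
    rw [List.map_cons, List.prod_cons] at h0 ⊢
    have h1 := left_ne_zero_of_mul h0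
    have h2 := right_ne_zero_of_mul h0
    rw [Real.log_mul h1 h2, h c (by simp) h1, ih h2 fun d hd => h d (by simp [hd])]
    simp

lemma sum_lin6 {γ : Type*} (L : List γ) (f g : γ → ℝ) (c : ℝ) :
    (L.map fun a => f a + g a * c).sum = (L.map f).sum + (L.map g).sum * c := by
  induction L with
  | nil => simp
  | cons a L ih => simp only [List.map_cons, List.sum_cons, ih]; ring

lemma Q6_cast (P : Par6) (σ : Bool) (κ κ' : Kd6) : ((Q6 P σ κ κ' : ℤ) : ℝ) =
    ((cd6 P κ).map fun a => ((cd6 P κ').map fun b =>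
      ((a.2 * b.2 : ℤ) : ℝ) * (n0 (LL6 σ a b) (a.1.2.2 - b.1.2.2) : ℝ)).sum).sum := by
  have hc : ∀ {γ : Type} (L : List γ) (f : γ → ℤ), (((L.map f).sum : ℤ) : ℝ) =
      (L.map fun a => (f a : ℝ)).sum := by
    intro γ L f
    induction L with
    | nil => simp
    | cons a L ih => simp only [List.map_cons, List.sum_cons, Int.cast_add, ih]
  unfold Q6
  rw [hc]
  congr 1
  refine List.map_congr_left fun a _ => ?_
  rw [hc]
  congr 1
  refine List.map_congr_left fun b _ => ?_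
  push_cast
  ring

/-- **the pair weight of two objects, exactly** -/
theorem log_pair6 (k : ℕ) (P : Par6) {r : ℕ} (O : Fin r → Xo) (i j : Fin r)
    (h : 0 < pairN6 P O i j) :
    Real.log (pairN6 P O i j) =
      -Dr6 k P (sp (O i) == sp (O j)) (k6 (O i)) (k6 (O j)) (ht (O i) - ht (O j)) +
        Q6 P (sp (O i) == sp (O j)) (k6 (O i)) (k6 (O j)) *
          Real.log |Real.tanh (2 ^ k * (ht (O i) - ht (O j)))| := by
  have h0 := h.ne'
  unfold pairN6 ppN6 cons6 at h0 ⊢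
  rw [parts6_cd, parts6_cd] at h0 ⊢
  simp only [List.map_map] at h0 ⊢
  set σ := sp (O i) == sp (O j)
  set κ := k6 (O i)
  set κ' := k6 (O j)
  set t := ht (O i) - ht (O j)
  rw [log_prod_map _ _ (fun a => ((cd6 P κ').map fun b => ((a.2 * b.2 : ℤ) : ℝ) *
    (Lam k (LL6 σ a b) (a.1.2.2 - b.1.2.2) t +
      n0 (LL6 σ a b) (a.1.2.2 - b.1.2.2) * Real.log |Real.tanh (2 ^ k * t)|)).sum) h0]
  · unfold Dr6
    rw [neg_neg, Q6_cast, ← sum_lin6]
    congr 1
    refine List.map_congr_left fun a _ => ?_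
    rw [← sum_lin6]
    congr 1
    refine List.map_congr_left fun b _ => ?_
    ring
  · intro a ha hne
    refine log_prod_map _ _ _ hne fun b hb hne' => ?_
    have hpp := norm_pp6_pt6 (mul_ne6 a ha) (mul_ne6 b hb) hne'
    show Real.log ‖pp6 (pt6 (sp (O i)) (ht (O i)) a) (pt6 (sp (O j)) (ht (O j)) b)‖ = _
    rw [hpp.2, Real.log_zpow, log_PZ6 k (LL6 (sp (O i) == sp (O j)) a b) (Ls_ne _ _ _) hpp.1]

/-- **lower bound of the pair energy by the direct energy** -/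
theorem pair6_ge (k : ℕ) (P : Par6) {r : ℕ} (O : Fin r → Xo) (i j : Fin r)
    (h : 0 < pairN6 P O i j)
    (hQ : 0 ≤ Q6 P (sp (O i) == sp (O j)) (k6 (O i)) (k6 (O j))) :
    Dr6 k P (sp (O i) == sp (O j)) (k6 (O i)) (k6 (O j)) (ht (O i) - ht (O j)) ≤
      -Real.log (pairN6 P O i j) := by
  rw [log_pair6 k P O i j h]
  have h1 : Real.log |Real.tanh (2 ^ k * (ht (O i) - ht (O j)))| ≤ 0 := by
    refine Real.log_nonpos (abs_nonneg _) ?_
    exact (Real.abs_tanh_lt_one _).le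
  have h2 : (0 : ℝ) ≤ Q6 P (sp (O i) == sp (O j)) (k6 (O i)) (k6 (O j)) := by exact_mod_cast hQ
  nlinarith [mul_nonneg h2 (neg_nonneg.2 h1)]

end PHK

end
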