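import Pool.Agent.PHK.Ch6
import Pool.Agent.PHK.ClsG
import Pool.Agent.PHK.Congr
import Pool.Agent.PLX.NUGC.ExD
import Pool.Agent.PLX.NUGC.RedC
import Pool.Agent.PLX.NUGC.AsmK
import Pool.Agent.PLX.PB.HPotA
import Pool.Agent.PLX.PB.Geo

/-!
# (P): the letters as a landed group times a neutral factor of sines

Letters: a type `t` with a choice `u : Ch6`.

* `bc6`, `br6`, `gd6 t u σ τ`: the base group; `qh6`: its charge; `ph6`: its phase;
* `wl6 t u o`: the word of the letter at its place; `lw L w z`: logarithm of a word of sines at any `z`;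
* `Gn x`: `x.re` is no multiple of `l`; `exp_lw_grp`: a group; **`norm_vF6_lw`**: a letter;
* `dv6`: the neutral factor; **`norm_v6`**: letter = base group times `dv6`;
* `at6`: the atoms; `at6_ok`; **`dv6_line`**: on a curve `dv6` is the exponential of the atoms;
* `norm_SD_lw`, `norm_D6`: the classes D1, D1'.
-/

set_option autoImplicit false
set_option linter.unusedSectionVars false

noncomputable section

open Complex

namespace PHK

open NUP1 NUP1S NURow NUP1.Leg NUP1.Bd NUGC.PLX PBR.PLX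
open NUO (Away pA bk yw wz mlt cp pp ll_pos ll_eq)
open NUSp (Cl grp gp wG kG spo wc wX wY wd wd_cons wd_nil wq wn hlt hqp psG ekp ew)
open NUGC (hq sq Ek)
open NUSea.PLX.H0 (Gd)
open PBH.PLX (Atm HS AtOk pw)

/-! ### the data -/

/-- base class of a letter -/
def bc6 : HT → Ch6 → Cl
  | .W, _ => .w
  | .F, _ => .w
  | .P, u => if u.2 = true then .w else .p
  | .H, u => if u.1 = true then (if u.2 = true then .w else .hp) else (if u.2 = true then .hp else .hs)

/-- line of the base class -/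
def br6 : HT → Ch6 → Bool
  | .W, _ => true
  | .F, _ => false
  | .P, _ => false
  | .H, u => u.1 && u.2

/-- **base group** of a letter of species `σ` at height `τ` -/
def gd6 (t : HT) (u : Ch6) (σ : Bool) (τ : ℝ) : Gd := ⟨bc6 t u, br6 t u, σ, τ⟩

/-- charge of a letter on the species of its half quantum -/
def qh6 (t : HT) (u : Ch6) : ℝ := NUSp.qc (bc6 t u)

/-- phase of a letter -/
def ph6 (t : HT) (u : Ch6) : ℝ := PBO.PLX.phC (bc6 t u)

/-- word of `hs'` (string and hole of the other species) on the species of the half quantum -/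
def wXs : List (ℤ × ℝ) := [(0, -1), (-2, 1), (-1, -1), (4, -2), (3, 2)]

/-- word of `hs'` on the other species -/
def wYs : List (ℤ × ℝ) := [(0, -1), (4, 1), (-2, -1), (1, 1), (-1, 1)]

/-- word of `hs'` -/
def wcs (o : Bool) : List (ℤ × ℝ) := if o = true then wXs else wYs

/-- **the word of a letter** at its place `vl (htL t) τ`, `o` = on the species of the half quantum -/
def wl6 : HT → Ch6 → Bool → List (ℤ × ℝ)
  | .W, _, o => wc .w o
  | .F, _, o => wc .w o
  | .P, u, o => wc (if u.2 = true then .w else .p) o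
  | .H, u, o => if u.1 = true then (if u.2 = true then wcg o else wc .hp o) else
      (if u.2 = true then wcs o else wc .hs o)

/-- place of the base group -/
def pb6 (t : HT) (u : Ch6) (τ : ℝ) : ℂ := wG (bc6 t u) (br6 t u) τ

theorem gd6_w (t : HT) (u : Ch6) (σ : Bool) (τ : ℝ) : (gd6 t u σ τ).w = pb6 t u τ := rfl

/-- charge of the words -/
theorem wq_wl6 (t : HT) (u : Ch6) (o : Bool) : wq (wl6 t u o) = wq (wc (bc6 t u) o) := by
  obtain ⟨u1, u2⟩ := u
  cases t <;> cases u1 <;> cases u2 <;> cases o <;>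
    norm_num [wl6, bc6, wcg, wXg, wYg, wcs, wXs, wYs, wc, wX, wY, wq]

/-- number of sines -/
theorem wn_wl6 (t : HT) (u : Ch6) (o : Bool) : wn (wl6 t u o) ≤ 12 ∧ wn (wc (bc6 t u) o) ≤ 12 := by
  obtain ⟨u1, u2⟩ := u
  cases t <;> cases u1 <;> cases u2 <;> cases o <;>
    norm_num [wl6, bc6, wcg, wXg, wYg, wcs, wXs, wYs, wc, wX, wY, wn]

/-! ### logarithms of words of sines -/

/-- **logarithm of a word of sines** with its centre at `w` -/
def lw (L : List (ℤ × ℝ)) (w z : ℂ) : ℝ :=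
  (L.map fun kc => kc.2 * Real.log ‖sin (z - w + kc.1 * l)‖).sum

@[simp] theorem lw_nil (w z : ℂ) : lw [] w z = 0 := rfl

@[simp] theorem lw_cons (a : ℤ × ℝ) (L : List (ℤ × ℝ)) (w z : ℂ) :
    lw (a :: L) w z = a.2 * Real.log ‖sin (z - w + a.1 * l)‖ + lw L w z := by simp [lw]

theorem lw_shift (L : List (ℤ × ℝ)) (w z s : ℂ) : lw L (w + s) (z + s) = lw L w z := by
  unfold lw
  rw [add_sub_add_right_eq_sub]

theorem lw_wd (L : List (ℤ × ℝ)) (w ζ : ℂ) : (wd L w ζ).re = lw L w (l + I * ζ) := by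
  induction L with
  | nil => simp
  | cons a L ih =>
    rw [wd_cons, Complex.add_re, ih, lw_cons, Complex.re_ofReal_mul]
    congr 2
    unfold NUO.bk
    rw [Complex.log_re, ← NUO.norm_sin_bk]
    rfl

/-- `x.re` is no multiple of `l` -/
def Gn (x : ℂ) : Prop := ∀ n : ℤ, x.re ≠ n * l

theorem Gn.sin {x : ℂ} (h : Gn x) (k : ℤ) : sin (x + k * l) ≠ 0 := by
  have hl := NUP1.l_pos
  intro h0
  obtain ⟨n, hn⟩ := Complex.sin_eq_zero_iff.1 h0
  have h1 := congrArg Complex.re hn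
  have e8 : (Real.pi : ℝ) = 8 * l := by unfold l; ring
  have e : (x + k * l).re = x.re + k * l := by
    rw [add_re, ← ofReal_intCast, ← ofReal_mul, ofReal_re]
  have e' : ((n : ℂ) * Real.pi).re = n * (8 * l) := by
    rw [← e8, ← ofReal_intCast, ← ofReal_mul, ofReal_re]
  rw [e, e'] at h1
  refine h (8 * n - k) ?_
  push_cast
  linarith

theorem Gn.of_sub {x : ℂ} (h : Gn x) (n : ℤ) : Gn (x + n * l) := by
  intro m hm
  have e : (x + n * l).re = x.re + n * l := by
    rw [add_re, ← ofReal_intCast, ← ofReal_mul, ofReal_re]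
  rw [e] at hm
  refine h (m - n) ?_
  push_cast
  linarith

theorem Gn.neg {x : ℂ} (h : Gn x) : Gn (-x) := by
  intro m hm
  rw [neg_re] at hm
  refine h (-m) ?_
  push_cast
  linarith

/-- a translate for which the second argument is on the line `l` -/
theorem Gn.away {w z : ℂ} (h : Gn (z - w)) : ∃ (s : ℝ) (δ : ℝ), 0 < δ ∧ Away δ (w + s) ∧
    z + s = l + I * (z.im : ℂ) := by
  have hl := NUP1.l_pos
  have hx : ∀ n : ℤ, w.re + (l - z.re) ≠ n * l := by
    intro n hn
    refine h (1 - n) ?_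
    rw [sub_re]
    push_cast
    linarith
  obtain ⟨x, hx0⟩ : ∃ x : ℝ, x = (w.re + (l - z.re)) / l := ⟨_, rfl⟩
  have hxl : w.re + (l - z.re) = x * l := by rw [hx0]; field_simp
  have h1 : (⌊x⌋ : ℝ) < x := by
    refine lt_of_le_of_ne (Int.floor_le x) fun he => hx ⌊x⌋ ?_
    rw [hxl, he]
  have h2 : x < ⌊x⌋ + 1 := Int.lt_floor_add_one x
  refine ⟨l - z.re, min (x - ⌊x⌋) (⌊x⌋ + 1 - x), lt_min (by linarith) (by linarith), ?_, ?_⟩
  · refine NUO.away_of (x := x) ?_ ⌊x⌋ ?_ ?_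
    · rw [add_re, ofReal_re, hxl]
      rfl
    · linarith [min_le_left (x - ⌊x⌋) (⌊x⌋ + 1 - x)]
    · linarith [min_le_right (x - ⌊x⌋) (⌊x⌋ + 1 - x)]
  · apply Complex.ext
    · simp
    · simp

/-- **a constituent** -/
theorem exp_lw_cp (s a ty : Bool) {w z : ℂ} (h : Gn (z - w)) :
    Real.exp (lw (mlt (decide (s = a)) ty) w z) = ‖pp (s, false, z) (a, ty, w)‖ := by
  obtain ⟨s0, δ, hδ, hA, hz⟩ := h.away
  have h1 := NUO.exp_cp s (x := (a, ty, w + s0)) hA (ζ := (z.im : ℂ)) (by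
    rw [ofReal_im, abs_zero]
    exact mul_pos hδ ll_pos)
  have e1 : (cp s (a, ty, w + s0) (z.im : ℂ)).re = lw (mlt (decide (s = a)) ty) w z := by
    rw [NUSp.cp_eq_wd, lw_wd, ← hz, lw_shift]
  rw [e1] at h1
  rw [h1]
  have e2 : (NUMF.l + I * (z.im : ℂ) : ℂ) - (w + s0) = z - w := by
    have : (NUMF.l + I * (z.im : ℂ) : ℂ) = z + s0 := hz.symm
    rw [this]
    ring
  unfold pp
  simp only
  rw [e2]

/-- **a half quantum** -/
theorem exp_lw_hp (s a : Bool) {w z : ℂ} (h : Gn (z - w)) :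
    Real.exp (lw (hlt (decide (s = a))) w z) = ‖hqp (s, false, z) (a, w)‖ := by
  obtain ⟨s0, δ, hδ, hA, hz⟩ := h.away
  have h1 := NUSp.exp_hp s (h := (a, w + s0)) hA (ζ := (z.im : ℂ)) (by
    rw [ofReal_im, abs_zero]
    exact mul_pos hδ ll_pos)
  have e1 : (NUSp.hp s (a, w + s0) (z.im : ℂ)).re = lw (hlt (decide (s = a))) w z := by
    show (wd (hlt (decide (s = a))) (w + s0) (z.im : ℂ)).re = _
    rw [lw_wd, ← hz, lw_shift]
  rw [e1] at h1
  rw [h1]
  have e2 : (w + s0) - (NUMF.l + I * (z.im : ℂ) : ℂ) = w - z := by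
    have : (NUMF.l + I * (z.im : ℂ) : ℂ) = z + s0 := hz.symm
    rw [this]
    ring
  unfold hqp
  simp only [Bool.false_eq_true, if_false]
  rw [e2]

/-! ### elementary spectators and groups -/

/-- word of an elementary spectator, `o` = same species -/
def wek (k : Ek) (o : Bool) : List (ℤ × ℝ) :=
  match k with
  | .h5 | .hm | .h1 | .hs => hlt o
  | .q1 | .qs => mlt o false
  | .sr => mlt o true

theorem norm_pp_sq (s a : Bool) (w z : ℂ) : ‖pp (s, false, z) (a, false, w)‖ = sq a w s z := by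
  unfold pp NUGC.sq
  simp only [NUP1.Kn.pz, NUP1.Kn.cz]
  split_ifs
  · rw [← NUP1.q_neg, neg_sub]
  · rw [← NUP1.Bd.qg_neg, neg_sub]

theorem norm_hqp_hq (s a : Bool) (w z : ℂ) : ‖hqp (s, false, z) (a, w)‖ = hq a w s z := by
  unfold hqp hq
  simp only [Bool.false_eq_true, if_false]
  split_ifs <;> rfl

/-- **a quantum** -/
theorem sq_lw (s a : Bool) {w z : ℂ} (h : Gn (z - w)) :
    sq a w s z = Real.exp (lw (mlt (decide (s = a)) false) w z) := by
  rw [exp_lw_cp s a false h, norm_pp_sq]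

/-- **a half quantum** -/
theorem hq_lw (s a : Bool) {w z : ℂ} (h : Gn (z - w)) :
    hq a w s z = Real.exp (lw (hlt (decide (s = a))) w z) := by
  rw [exp_lw_hp s a h, norm_hqp_hq]

/-- a string -/
private theorem norm_pp_sr (s a : Bool) {w z : ℂ} (h : Gn (z - w)) :
    ‖pp (s, false, z) (a, true, w)‖ = sq a w s z * sq a (w - l) s z := by
  have n0 := h.sin 0
  have n1 := h.sin 1
  have n2 := h.sin (-1)
  have n3 := h.sin 2
  have c1 : z - w + ((0 : ℤ) : ℂ) * l = z - w := by push_cast; ring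
  have c2 : z - w + ((1 : ℤ) : ℂ) * l = z - w + l := by push_cast; ring
  have c3 : z - w + ((-1 : ℤ) : ℂ) * l = z - w - l := by push_cast; ring
  have c4 : z - w + ((2 : ℤ) : ℂ) * l = z - w + 2 * l := by push_cast; ring
  rw [c1] at n0
  rw [c2] at n1
  rw [c3] at n2
  rw [c4] at n3
  have hq1 := NUP1.q1_eq n0 n1 n2 n3
  have d : w - l - z = -(z - w + l) := by ring
  have d0 : w - z = -(z - w) := by ring
  unfold pp NUGC.sq
  simp only [NUP1.Kn.pz, NUP1.Kn.cz]
  split_ifs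
  · rw [← hq1, norm_mul, d, d0, NUP1.q_neg, NUP1.q_neg]
  · rw [norm_mul, d, d0, NUP1.Bd.qg_neg, NUP1.Bd.qg_neg]

/-- **an elementary spectator** -/
theorem exp_lw_ek (s a : Bool) (k : Ek) (τ : ℝ) {z : ℂ} (h : Gn (z - ew k τ)) :
    Real.exp (lw (wek k (decide (s = a))) (ew k τ) z) = Ek.f a k τ s z := by
  have hH := hq_lw s a h
  have hQ := sq_lw s a h
  have hS := exp_lw_cp s a true h
  rw [norm_pp_sr s a h] at hS
  have e4 : ew k τ - l = vl ((k.ps - 1) * l) τ := by
    unfold NUSp.ew vl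
    push_cast
    ring
  rw [e4] at hS
  cases k
  · exact hH.symm
  · exact hH.symm
  · exact hH.symm
  · exact hH.symm
  · exact hQ.symm
  · exact hQ.symm
  · exact hS

/-- the places of a group differ from the place of its half quantum by multiples of `l` -/
theorem ew_wG (c : Cl) (rt : Bool) (τ : ℝ) {x : Bool × Ek} (hx : x ∈ kG c rt) :
    ∃ n : ℤ, ew x.2 τ = wG c rt τ + n * l := by
  have key : ∀ (a b : ℝ) (n : ℤ), a = b + n → vl (a * l) τ = vl (b * l) τ + n * l := by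
    intro a b n hn
    unfold vl
    rw [hn]
    push_cast
    ring
  unfold NUSp.ew NUSp.wG
  cases c <;> cases rt <;>
    simp only [kG, List.mem_cons, List.not_mem_nil, or_false] at hx <;>
    first
    | (subst hx
       refine ⟨0, key _ _ 0 ?_⟩
       norm_num [psG, Ek.ps, Ek.x])
    | (rcases hx with hx | hx <;> subst hx <;>
        first
        | (refine ⟨0, key _ _ 0 ?_⟩
           norm_num [psG, Ek.ps, Ek.x]
           done)
        | (refine ⟨3, key _ _ 3 ?_⟩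
           norm_num [psG, Ek.ps, Ek.x]
           done)
        | (refine ⟨-2, key _ _ (-2) ?_⟩
           norm_num [psG, Ek.ps, Ek.x]
           done))
    | (rcases hx with hx | hx | hx <;> subst hx <;>
        first
        | (refine ⟨0, key _ _ 0 ?_⟩
           norm_num [psG, Ek.ps, Ek.x]
           done)
        | (refine ⟨-2, key _ _ (-2) ?_⟩
           norm_num [psG, Ek.ps, Ek.x]
           done))

/-- **a group** at any generic point -/
theorem spL_lw (g : Gd) (a : Bool) {z : ℂ} (h : Gn (z - g.w)) :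
    spL (lsG g) a z = Real.exp (lw (wc g.c (decide (a = g.σ))) g.w z) := by
  obtain ⟨c, rt, σ, τ⟩ := g
  have h1 : (gp a (grp c σ (wG c rt τ)) (-I * (z - l))).re =
      lw (wc c (decide (a = σ))) (wG c rt τ) z := by
    rw [NUSp.gp_grp, lw_wd]
    congr 1
    rw [← mul_assoc, mul_neg, I_mul_I, neg_neg, one_mul]
    ring
  show spL (lsG ⟨c, rt, σ, τ⟩) a z = Real.exp (lw (wc c (decide (a = σ))) (wG c rt τ) z)
  rw [← h1, NUGC.PLX.gp_kG, NUGC.PLX.spL_lsG]
  have h2 : ∀ x ∈ kG c rt, Gn (z - ew x.2 τ) := by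
    intro x hx
    obtain ⟨n, hn⟩ := ew_wG c rt τ hx
    rw [hn]
    have := Gn.of_sub (x := z - wG c rt τ) h (-n)
    have e : z - wG c rt τ + ((-n : ℤ) : ℂ) * l = z - (wG c rt τ + n * l) := by
      push_cast
      ring
    rwa [e] at this
  have h3 : ∀ L : List (Bool × Ek), (∀ x ∈ L, Gn (z - ew x.2 τ)) →
      (L.map fun x => Ek.f (spo σ x.1) x.2 τ a z).prod =
      Real.exp (L.map fun x => ekp a (spo σ x.1) x.2 (ew x.2 τ) (-I * (z - l))).sum.re := by
    intro L hL
    induction L with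
    | nil => simp
    | cons x L ih =>
      rw [List.map_cons, List.prod_cons, List.map_cons, List.sum_cons, Complex.add_re, Real.exp_add,
        ih fun y hy => hL y (by simp [hy]), ← exp_lw_ek a (spo σ x.1) x.2 τ (hL x (by simp))]
      congr 2
      have e : lw (wek x.2 (decide (a = spo σ x.1))) (ew x.2 τ) z =
          (wd (wek x.2 (decide (a = spo σ x.1))) (ew x.2 τ) (-I * (z - l))).re := by
        rw [lw_wd]
        congr 1
        rw [← mul_assoc, mul_neg, I_mul_I, neg_neg, one_mul]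
        ring
      rw [e]
      cases x.2 <;> rfl
  exact h3 _ h2

/-! ### the letters -/

/-- **a landed type** at any generic point (`norm_grp` without the strips) -/
theorem norm_htF_G (s a : Bool) (t : HT) (τ : ℝ) {u : ℂ} (h : Gn (u - vl (htL t) τ)) :
    ‖htF t (a == s) none (vl (htL t) τ - u)‖ = spL (NUGC.PLX.grp s t false τ) a u := by
  have hs : ∀ k : ℤ, sin (k * l - (vl (htL t) τ - u)) ≠ 0 := by
    intro k
    have := h.sin k
    rwa [show u - vl (htL t) τ + k * l = k * l - (vl (htL t) τ - u) by ring] at this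
  have hs' : ∀ k : ℤ, sin (k * l + (vl (htL t) τ - u)) ≠ 0 := by
    intro k
    have := h.neg.sin k
    rwa [show -(u - vl (htL t) τ) + k * l = k * l + (vl (htL t) τ - u) by ring] at this
  have d2 : sin (3 * (l : ℂ) - (vl (htL t) τ - u)) ≠ 0 := by simpa using hs 3
  have d3 : sin (3 * (l : ℂ) + (vl (htL t) τ - u)) ≠ 0 := by simpa using hs' 3
  have d1 : cos (vl (htL t) τ - u) ≠ 0 := by
    have := hs' 4
    rw [← sin_4l]
    simpa [add_comm] using this
  have d5 : sin (2 * (l : ℂ) - (vl (htL t) τ - u)) ≠ 0 := by simpa using hs 2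
  have d6 : sin ((l : ℂ) - (vl (htL t) τ - u)) ≠ 0 := by simpa using hs 1
  have d7 : sin (4 * (l : ℂ) - (vl (htL t) τ - u)) ≠ 0 := by simpa using hs 4
  cases t
  · show ‖SF (a == s) none (vl (5 / 4 * l) τ - u)‖ = hq s (vl (Ek.ps .h5 * l) τ) a u * 1
    rw [hq_SF, vl_ps .h5 (x := 5 / 4) (by norm_num [Ek.x]), mul_one]
  · show ‖SF (a == s) none (vl (-(11 / 4) * l) τ - u)‖ = hq s (vl (Ek.ps .hm * l) τ) a u * 1
    rw [hq_SF, vl_ps .hm (x := -(11 / 4)) (by norm_num [Ek.x]), mul_one]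
  · show ‖SP (a == s) none (vl (-(11 / 4) * l) τ - u)‖ =
      hq s (vl (Ek.ps .hm * l) τ) a u * (NUGC.sq (!s) (vl (Ek.ps .q1 * l) τ) a u * 1)
    rw [vl_ps .hm (x := -(11 / 4)) (by norm_num [Ek.x]), vl_ps .q1 (x := 1 / 4)
      (by norm_num [Ek.x])]
    have hv : vl (1 / 4 * l) τ - u = vl (-(11 / 4) * l) τ - u + 3 * l := by
      unfold vl
      push_cast
      ring
    have hown : ‖CP (vl (-(11 / 4) * l) τ - u)‖ = ‖Ck (vl (-(11 / 4) * l) τ - u)‖ *
        ‖Bd.qg (vl (1 / 4 * l) τ - u)‖ := by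
      rw [hv, ← norm_mul]
      rfl
    have hoth : ‖DP (vl (-(11 / 4) * l) τ - u)‖ = ‖Dk (vl (-(11 / 4) * l) τ - u)‖ *
        ‖q (vl (1 / 4 * l) τ - u)‖ := by
      rw [hv, ← norm_mul, Dk_q (x := vl (-(11 / 4) * l) τ - u) d1 d2 d3]
      rfl
    rw [mul_one]
    cases a <;> cases s
    · exact hown
    · exact hoth
    · exact hoth
    · exact hown
  · have p1 : vl (Ek.ps .hs * l) τ = vl (5 / 8 * l) τ := vl_ps .hs (by norm_num [Ek.x]) τ
    have p2 : vl (Ek.ps .sr * l) τ - u = vl (5 / 8 * l) τ - u - 2 * l := by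
      rw [vl_ps .sr (x := -(11 / 8)) (by norm_num [Ek.x])]
      unfold vl
      push_cast
      ring
    have p3 : vl ((Ek.ps .sr - 1) * l) τ - u = vl (5 / 8 * l) τ - u - 3 * l := by
      have : (Ek.ps .sr - 1) * l = -(19 / 8) * l := by
        unfold Ek.ps
        norm_num [Ek.x]
      rw [this]
      unfold vl
      push_cast
      ring
    have hown : ‖hostS false SF true none (vl (5 / 8 * l) τ - u)‖ =
        ‖Ck (vl (5 / 8 * l) τ - u)‖ * (‖Bd.qg (vl (Ek.ps .sr * l) τ - u)‖ *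
          ‖Bd.qg (vl ((Ek.ps .sr - 1) * l) τ - u)‖) := by
      rw [p2, p3, ← norm_mul, ← norm_mul]
      congr 1
      show Bd.qg (vl (5 / 8 * l) τ - u - 2 * l) * Bd.qg (vl (5 / 8 * l) τ - u - 2 * l - l) *
        Ck (vl (5 / 8 * l) τ - u) = _
      rw [show vl (5 / 8 * l) τ - u - 2 * (l : ℂ) - l = vl (5 / 8 * l) τ - u - 3 * l by ring]
      ring
    have hoth : ‖hostS false SF false none (vl (5 / 8 * l) τ - u)‖ =
        ‖Dk (vl (5 / 8 * l) τ - u)‖ * (‖q (vl (Ek.ps .sr * l) τ - u)‖ *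
          ‖q (vl ((Ek.ps .sr - 1) * l) τ - u)‖) := by
      rw [p2, p3, ← norm_mul, ← norm_mul]
      congr 1
      show gz (false, .S) (false, .A) (vl (5 / 8 * l) τ - u - 2 * l) *
        Dk (vl (5 / 8 * l) τ - u) = _
      rw [host_q (x := vl (5 / 8 * l) τ - u) d5 d2 d6 d7]
      ring
    show ‖hostS false SF (a == s) none (vl (5 / 8 * l) τ - u)‖ =
      hq s (vl (Ek.ps .hs * l) τ) a u * (NUGC.sq (!s) (vl (Ek.ps .sr * l) τ) a u *
        NUGC.sq (!s) (vl ((Ek.ps .sr - 1) * l) τ) a u * 1)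
    rw [p1, mul_one]
    cases a <;> cases s
    · exact hown
    · exact hoth
    · exact hoth
    · exact hown

theorem norm_htF_lw (σ a : Bool) (t : HT) (τ : ℝ) {z : ℂ} (h : Gn (z - vl (htL t) τ)) :
    ‖htF t (a == σ) none (vl (htL t) τ - z)‖ =
      Real.exp (lw (wc (clh t false) (decide (a = σ))) (vl (htL t) τ) z) := by
  rw [norm_htF_G σ a t τ h, ← lsG_gd σ t false τ]
  have h1 := w_gd σ t false τ
  rw [spL_lw _ a (by rw [h1]; exact h), h1]

private theorem exp_zpow (x : ℝ) (n : ℤ) : Real.exp x ^ n = Real.exp (n * x) := by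
  rw [mul_comm, Real.exp_mul, Real.rpow_intCast]

/-- the factor of quanta and holes at the half quantum -/
theorem norm_gzA_lw (b σ a : Bool) {w z : ℂ} (h : Gn (z - w)) :
    ‖gz (b, .A) ((a == σ), .A) (w - z)‖ =
      Real.exp (lw (mlt (decide ((a == σ) = b)) false) w z) := by
  have h1 := exp_lw_cp (a == σ) b false h
  rw [h1, norm_pp_sq]
  unfold gz NUGC.sq
  by_cases hb : b = (a == σ)
  · rw [if_pos hb, if_pos hb.symm]
    rfl
  · rw [if_neg hb, if_neg fun h => hb h.symm]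
    rfl

/-- **the modulus of a letter is the exponential of its word** -/
theorem norm_vF6_lw {t : HT} {u : Ch6} (hu : okC6 t u) (σ a : Bool) (τ : ℝ) {z : ℂ}
    (h : Gn (z - vl (htL t) τ)) : ‖vF6 t u (a == σ) none (vl (htL t) τ - z)‖ =
      Real.exp (lw (wl6 t u (decide (a = σ))) (vl (htL t) τ) z) := by
  have hF := norm_htF_lw σ a t τ h
  cases t
  · exact hF
  · exact hF
  · show ‖(if u.2 = true then SF else SP) (a == σ) none (vl (htL .P) τ - z)‖ = _
    by_cases h2 : u.2 = true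
    · have h1 : Gn (z - vl (htL .F) τ) := h
      have := norm_htF_lw σ a .F τ h1
      rw [if_pos h2]
      show _ = Real.exp (lw (wc (if u.2 = true then .w else .p) (decide (a = σ))) _ z)
      rw [if_pos h2]
      exact this
    · rw [if_neg h2]
      show _ = Real.exp (lw (wc (if u.2 = true then .w else .p) (decide (a = σ))) _ z)
      rw [if_neg h2]
      exact hF
  · obtain ⟨u1, u2⟩ := u
    have e : vF6 .H (u1, u2) (a == σ) none (vl (htL .H) τ - z) =
        hostS false SF (a == σ) none (vl (htL .H) τ - z) *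
          gz (true, .A) ((a == σ), .A) (vl (htL .H) τ - z) ^ (u1.toNat : ℤ) *
          gz (false, .A) ((a == σ), .A) (vl (htL .H) τ - z) ^ (-(u2.toNat : ℤ)) := rfl
    have hH : ‖hostS false SF (a == σ) none (vl (htL .H) τ - z)‖ =
      Real.exp (lw (wc .hs (decide (a = σ))) (vl (htL .H) τ) z) := hF
    rw [e, norm_mul, norm_mul, norm_zpow, norm_zpow, hH, norm_gzA_lw true σ a h,
      norm_gzA_lw false σ a h, exp_zpow, exp_zpow, ← Real.exp_add,
      ← Real.exp_add]
    congr 1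
    have hd : decide (a = σ) = (a == σ) := by cases a <;> cases σ <;> rfl
    rw [hd]
    cases (a == σ) <;> cases u1 <;> cases u2 <;>
      simp [wl6, wc, wX, wY, wcg, wXg, wYg, wcs, wXs, wYs, mlt] <;> ring

/-! ### the neutral factor -/

/-- **the neutral factor** of a letter -/
def dv6 (t : HT) (u : Ch6) (σ : Bool) (τ : ℝ) (a : Bool) (z : ℂ) : ℝ :=
  Real.exp (lw (wl6 t u (decide (a = σ))) (vl (htL t) τ) z -
    lw (wc (bc6 t u) (decide (a = σ))) (pb6 t u τ) z)

theorem dv6_pos (t : HT) (u : Ch6) (σ : Bool) (τ : ℝ) (a : Bool) (z : ℂ) : 0 < dv6 t u σ τ a z :=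
  Real.exp_pos _

/-- **letter = base group times the neutral factor** -/
theorem norm_v6 {t : HT} {u : Ch6} (hu : okC6 t u) (σ a : Bool) (τ : ℝ) {z : ℂ}
    (h : Gn (z - vl (htL t) τ)) (h' : Gn (z - pb6 t u τ)) :
    ‖vF6 t u (a == σ) none (vl (htL t) τ - z)‖ =
      spL (lsG (gd6 t u σ τ)) a z * dv6 t u σ τ a z := by
  rw [norm_vF6_lw hu σ a τ h, spL_lw (gd6 t u σ τ) a h', dv6, ← Real.exp_add]
  congr 1
  show _ = lw (wc (bc6 t u) (decide (a = σ))) (pb6 t u τ) z + _
  ring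

/-- the landed letters, and `P` with the hole, have no neutral factor -/
theorem dv6_one {t : HT} {u : Ch6} (h : t = .H → u.2 = false) (σ : Bool) (τ : ℝ) (a : Bool) (z : ℂ) :
    dv6 t u σ τ a z = 1 := by
  have e1 : wl6 t u (decide (a = σ)) = wc (bc6 t u) (decide (a = σ)) := by
    obtain ⟨u1, u2⟩ := u
    cases t <;> cases u1 <;> cases u2 <;> simp_all [wl6, bc6]
  have e2 : pb6 t u τ = vl (htL t) τ := by
    obtain ⟨u1, u2⟩ := u
    cases t <;> cases u1 <;> cases u2 <;> first | rfl | exact absurd (h rfl) (by simp)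
  unfold dv6
  rw [e1, e2, sub_self, Real.exp_zero]

/-! ### the classes D1, D1' -/

theorem norm_SD_lw (o a : Bool) (τ : ℝ) {z : ℂ} (h : Gn (z - vl (-(11 / 4) * l) τ)) :
    ‖SD (if o then a else !a) none (vl (-(11 / 4) * l) τ - z)‖ =
      spL (lsG ⟨.d, false, !o, τ⟩) a z := by
  have hs : ∀ k : ℤ, sin (k * l - (vl (-(11 / 4) * l) τ - z)) ≠ 0 := by
    intro k
    have := h.sin k
    rwa [show z - vl (-(11 / 4) * l) τ + k * l = k * l - (vl (-(11 / 4) * l) τ - z) by ring] at this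
  have hs' : ∀ k : ℤ, sin (k * l + (vl (-(11 / 4) * l) τ - z)) ≠ 0 := by
    intro k
    have := h.neg.sin k
    rwa [show -(z - vl (-(11 / 4) * l) τ) + k * l = k * l + (vl (-(11 / 4) * l) τ - z) by ring] at this
  have d2 : sin (3 * (l : ℂ) - (vl (-(11 / 4) * l) τ - z)) ≠ 0 := by simpa using hs 3
  have d3 : sin (3 * (l : ℂ) + (vl (-(11 / 4) * l) τ - z)) ≠ 0 := by simpa using hs' 3
  have d4 : sin (vl (-(11 / 4) * l) τ - z) ≠ 0 := by simpa using hs' 0
  have d1 : cos (vl (-(11 / 4) * l) τ - z) ≠ 0 := by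
    have := hs' 4
    rw [← sin_4l]
    simpa [add_comm] using this
  have hv : vl (1 / 4 * l) τ - z = vl (-(11 / 4) * l) τ - z + 3 * l := by
    unfold vl
    push_cast
    ring
  have k1 : ‖(1 : ℂ)‖ = ‖Ck (vl (1 / 4 * l) τ - z)‖ * ‖Dk (vl (-(11 / 4) * l) τ - z)‖ := by
    rw [hv, ← norm_mul, Dk_Ck d1 d2 d3]
  have k2 : ‖NURow.Tk (vl (-(11 / 4) * l) τ - z)‖ = ‖Dk (vl (1 / 4 * l) τ - z)‖ *
      ‖Ck (vl (-(11 / 4) * l) τ - z)‖ := by
    rw [hv, ← norm_mul, Tk_eq d4]
  have e : spL (lsG ⟨.d, false, !o, τ⟩) a z = hq (!o) (vl (-(11 / 4) * l) τ) a z *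
      hq o (vl (1 / 4 * l) τ) a z := by
    have h1 : spL (lsG ⟨.d, false, !o, τ⟩) a z = hq (!o) (vl (Ek.ps .hm * l) τ) a z *
        (hq (!(!o)) (vl (Ek.ps .h1 * l) τ) a z * 1) := rfl
    rw [h1, vl_ps .hm (x := -(11 / 4)) (by norm_num [Ek.x]), vl_ps .h1 (x := 1 / 4)
      (by norm_num [Ek.x]), mul_one, Bool.not_not]
  rw [e, mul_comm (hq (!o) (vl (-(11 / 4) * l) τ) a z)]
  cases o <;> cases a
  · exact k1
  · exact k2
  · exact k2
  · exact k1

/-! ### the atoms -/

/-- atoms of a word with the sign `s` -/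
def atl (L : List (ℤ × ℝ)) (w : ℂ) (s : ℝ) : List Atm :=
  L.map fun kc => ⟨s * kc.2, yw w kc.1, 0, w.im⟩

/-- **the atoms** of a letter -/
def at6 (t : HT) (u : Ch6) (σ : Bool) (τ : ℝ) (a : Bool) (i : Fin 16) : Atm :=
  (atl (wl6 t u (decide (a = σ))) (vl (htL t) τ) 1 ++
    atl (wc (bc6 t u) (decide (a = σ))) (pb6 t u τ) (-1)).getD i ⟨0, 0, 0, 0⟩

private theorem sum_getD {α : Type*} (f : α → ℝ) {d : α} (hd : f d = 0) : ∀ (L : List α) {n : ℕ},
    L.length ≤ n → ∑ i : Fin n, f (L.getD i d) = (L.map f).sum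
  | [], n, _ => by simp [hd]
  | x :: L, 0, h => by simp at h
  | x :: L, n + 1, h => by
    rw [Fin.sum_univ_succ, List.map_cons, List.sum_cons, ← sum_getD f hd L (n := n) (by simpa using h)]
    rfl

private theorem norm_sin_pw (w : ℂ) (k : ℤ) (η : ℝ → ℝ) (t : ℝ) :
    ‖sin (pA η t - w + k * l)‖ = ‖Complex.cosh (pw (yw w k) w.im η t)‖ := by
  have h := NUO.norm_sin_bk w k ((t : ℂ) + η t * I)
  have e1 : (NUMF.l + I * ((t : ℂ) + η t * I) : ℂ) = pA η t := by
    unfold NUO.pA NUP1.vl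
    rw [show NUP1.l = NUMF.l from rfl]
    push_cast
    linear_combination (η t : ℂ) * Complex.I_mul_I
  rw [e1] at h
  have e2 : wz w k ((t : ℂ) + η t * I) = pw (yw w k) w.im η t := by
    unfold NUO.wz PBH.PLX.pw
    push_cast
    ring
  rw [e2] at h
  exact h

private theorem sum_atl (L : List (ℤ × ℝ)) (w : ℂ) (s : ℝ) (η : ℝ → ℝ) (t : ℝ) :
    ((atl L w s).map fun x => x.k * PBH.AT x.y1 x.y2 x.c η t).sum =
      s * lw L w (pA η t) - s * wq L * Real.log ‖Complex.cosh (pw 0 w.im η t)‖ := by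
  induction L with
  | nil => simp [atl]
  | cons a L ih =>
    have e : atl (a :: L) w s = ⟨s * a.2, yw w a.1, 0, w.im⟩ :: atl L w s := rfl
    rw [e, List.map_cons, List.sum_cons, ih, lw_cons, NUSp.wq_cons, norm_sin_pw]
    simp only
    rw [PBH.PLX.AT_log]
    ring

theorem pb6_im (t : HT) (u : Ch6) (τ : ℝ) : (pb6 t u τ).im = τ := NUSp.wG_im _ _ _

theorem vl_im6 (x τ : ℝ) : (vl x τ).im = τ := by
  unfold vl
  simp

private theorem len_at6 (t : HT) (u : Ch6) (o : Bool) : (wl6 t u o).length + (wc (bc6 t u) o).length ≤ 16 := by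
  obtain ⟨u1, u2⟩ := u
  cases t <;> cases u1 <;> cases u2 <;> cases o <;>
    simp [wl6, bc6, wcg, wXg, wYg, wcs, wXs, wYs, wc, wX, wY]

/-- **on a curve the neutral factor is the exponential of the atoms** -/
theorem dv6_line (t : HT) (u : Ch6) (σ : Bool) (τ : ℝ) (a : Bool) (ζ : Bool → ℝ → ℝ) (x : ℝ) :
    dv6 t u σ τ a (pA (ζ a) x) = Real.exp (HS (at6 t u σ τ) ζ a x) := by
  unfold dv6 PBH.PLX.HS
  congr 1
  have h1 := sum_getD (fun A : Atm => A.k * PBH.AT A.y1 A.y2 A.c (ζ a) x) (d := ⟨0, 0, 0, 0⟩)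
    (by simp) (atl (wl6 t u (decide (a = σ))) (vl (htL t) τ) 1 ++
      atl (wc (bc6 t u) (decide (a = σ))) (pb6 t u τ) (-1)) (n := 16) (by
    rw [List.length_append]
    unfold atl
    rw [List.length_map, List.length_map]
    exact len_at6 t u _)
  refine Eq.trans ?_ h1.symm
  rw [List.map_append, List.sum_append, sum_atl, sum_atl, wq_wl6, pb6_im, vl_im6]
  ring

/-! ### the bounds of the atoms -/

theorem away_htL (t : HT) (τ : ℝ) : Away (1 / 4) (vl (htL t) τ) := by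
  have hr : (vl (htL t) τ).re = htL t := vl_re6 _ _
  cases t
  · exact NUO.away_of (x := 5 / 4) (by rw [hr]; rfl) 1 (by norm_num) (by norm_num)
  · exact NUO.away_of (x := -(11 / 4)) (by rw [hr]; rfl) (-3) (by norm_num) (by norm_num)
  · exact NUO.away_of (x := -(11 / 4)) (by rw [hr]; rfl) (-3) (by norm_num) (by norm_num)
  · exact NUO.away_of (x := 5 / 8) (by rw [hr]; rfl) 0 (by norm_num) (by norm_num)

private theorem coef_wl6 (t : HT) (u : Ch6) (o : Bool) : (∀ kc ∈ wl6 t u o, |kc.2| ≤ 3) ∧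
    ∀ kc ∈ wc (bc6 t u) o, |kc.2| ≤ 3 := by
  obtain ⟨u1, u2⟩ := u
  cases t <;> cases u1 <;> cases u2 <;> cases o <;>
    norm_num [wl6, bc6, wcg, wXg, wYg, wcs, wXs, wYs, wc, wX, wY]

theorem at6_ok (t : HT) (u : Ch6) (σ : Bool) (τ : ℝ) : AtOk 3 (NUMF.l / 4) (at6 t u σ τ) := by
  have hl := NUMF.l_pos
  have hpi : Real.pi / 2 = 4 * NUMF.l := by unfold NUMF.l; ring
  intro a i
  obtain ⟨L, hL⟩ : ∃ L : List Atm, L = atl (wl6 t u (decide (a = σ))) (vl (htL t) τ) 1 ++
      atl (wc (bc6 t u) (decide (a = σ))) (pb6 t u τ) (-1) := ⟨_, rfl⟩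
  have key : ∀ x ∈ L, |x.k| ≤ 3 ∧ |x.y1| ≤ 4 * NUMF.l - NUMF.l / 4 ∧
      |x.y2| ≤ 4 * NUMF.l - NUMF.l / 4 := by
    have h1 : ∀ (M : List (ℤ × ℝ)) (w : ℂ) (s : ℝ), |s| = 1 → Away (1 / 4) w →
        (∀ kc ∈ M, |kc.2| ≤ 3) → ∀ x ∈ atl M w s, |x.k| ≤ 3 ∧
          |x.y1| ≤ 4 * NUMF.l - NUMF.l / 4 ∧ |x.y2| ≤ 4 * NUMF.l - NUMF.l / 4 := by
      intro M w s hs hw hM x hx
      obtain ⟨kc, hkc, rfl⟩ := List.mem_map.1 hx
      refine ⟨?_, ?_, ?_⟩
      · show |s * kc.2| ≤ 3
        rw [abs_mul, hs, one_mul]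
        exact hM kc hkc
      · have := NUO.yw_le hw kc.1
        rw [hpi] at this
        show |yw w kc.1| ≤ _
        linarith
      · show |(0 : ℝ)| ≤ _
        rw [abs_zero]
        linarith
    intro x hx
    rw [hL] at hx
    rcases List.mem_append.1 hx with hx | hx
    · exact h1 _ _ 1 (by norm_num) (away_htL t τ) (coef_wl6 t u _).1 x hx
    · exact h1 _ _ (-1) (by norm_num) (NUSp.wG_away _ _ _) (coef_wl6 t u _).2 x hx
  have e : at6 t u σ τ a i = L.getD i ⟨0, 0, 0, 0⟩ := by rw [hL]; rfl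
  rw [e]
  by_cases hi : (i : ℕ) < L.length
  · rw [List.getD_eq_getElem _ _ hi]
    exact key _ (List.getElem_mem hi)
  · rw [List.getD_eq_default _ _ (not_lt.1 hi)]
    refine ⟨?_, ?_, ?_⟩ <;> show |(0 : ℝ)| ≤ _ <;> rw [abs_zero] <;> linarith

end PHK

end
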