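import Pool.Agent.PHK.PairB
import Pool.Agent.PHK.LetD
import Pool.Agent.PHK.LetW
import Pool.Agent.PLX.NUGC.DirLe

/-!
# (P): the direct factors of two letters (`Dir6Le` of `PHK/AsmKR`)

The direct factor `gO6 t t' u u' w w'` is the monomial `nrZ (wO6 t t' u u')` of sines of `w - w'`; its
exponents sum up to `-(q q' + 1) / 2`, and the exponents of the sines which vanish on the difference of
the two lines sum up to a nonnegative number.

* `sR n L`, **`nrZ_pt`**: a monomial on the line `Re = n l / 8`;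
* `sh`, `ng`, `iv`: words of a shift, a reflection, an inverse;
* `wGt`, `wSt`, `wFt`, `wO6`; **`gO6_eq`**: `gO6 t t' u u' w w' = nrZ (wO6 t t' u u') (w - w')`;
* **`dir6Le`** (namespace `PHK`; the words are in `PHK.Dir`).
-/

set_option autoImplicit false
set_option linter.unusedSectionVars false

noncomputable section

open Complex Finset

namespace PHK.Dir

open NUO NUP1 NUP1S NURow NUP1.Leg NUP1.Bd NUGC.PLX PBR.PLX

/-! ### a monomial on a line `Re = n l / 8` -/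

/-- sum of the exponents of the sines which vanish at the real part `n l / 8` -/
def sR (n : ℤ) (L : List (ℤ × ℤ)) : ℤ := (L.map fun p => if (n + 8 * p.1) % 64 = 0 then p.2 else 0).sum

@[simp] theorem sR_nil (n : ℤ) : sR n [] = 0 := rfl

@[simp] theorem sR_cons (n : ℤ) (p : ℤ × ℤ) (L : List (ℤ × ℤ)) :
    sR n (p :: L) = (if (n + 8 * p.1) % 64 = 0 then p.2 else 0) + sR n L := by simp [sR]

/-- the modulus of a sine on a line through its zeros -/
theorem norm_sin_res {n k : ℤ} (h : (n + 8 * k) % 64 = 0) {z : ℂ} (hz : z.re = n * (l / 8)) :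
    ‖sin (z + ((k * l : ℝ) : ℂ))‖ = |Real.sinh z.im| := by
  have h1 := Bd.norm_sin_sq (z + ((k * l : ℝ) : ℂ))
  have e1 : (z + ((k * l : ℝ) : ℂ)).re = ((n + 8 * k : ℤ) : ℝ) * (l / 8) := by
    rw [add_re, ofReal_re, hz]
    push_cast
    ring
  have e2 : (z + ((k * l : ℝ) : ℂ)).im = z.im := by rw [add_im, ofReal_im, add_zero]
  have e3 : Real.sin ((z + ((k * l : ℝ) : ℂ)).re) = 0 := by
    rw [e1, Real.sin_eq_zero_iff]
    refine ⟨(n + 8 * k) / 64, ?_⟩
    have h2 : 64 * ((n + 8 * k) / 64) = n + 8 * k := by omega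
    have h3 : ((64 * ((n + 8 * k) / 64) : ℤ) : ℝ) = ((n + 8 * k : ℤ) : ℝ) := by rw [h2]
    rw [← h3]
    push_cast
    unfold l
    ring
  rw [e2, e3] at h1
  have h4 : ‖sin (z + ((k * l : ℝ) : ℂ))‖ ^ 2 = |Real.sinh z.im| ^ 2 := by
    rw [h1, sq_abs]
    ring
  exact (pow_left_inj₀ (norm_nonneg _) (abs_nonneg _) two_ne_zero).1 h4

theorem nrZ_splitR {n : ℤ} (L : List (ℤ × ℤ)) {z : ℂ} (hz : z.re = n * (l / 8)) (h0 : z.im ≠ 0) :
    nrZ L z = |Real.sinh z.im| ^ sR n L *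
      nrZ (L.filter fun p => (n + 8 * p.1) % 64 ≠ 0) z := by
  have hn : |Real.sinh z.im| ≠ 0 := abs_ne_zero.2 (Real.sinh_ne_zero.2 h0)
  induction L with
  | nil => simp
  | cons p L ih =>
    by_cases hp : (n + 8 * p.1) % 64 = 0
    · rw [nrZ_cons, sR_cons, if_pos hp, ih, zpow_add₀ hn, List.filter_cons_of_neg (by simp [hp]),
        norm_sin_res hp hz]
      ring
    · rw [nrZ_cons, sR_cons, if_neg hp, ih, zero_add, List.filter_cons_of_pos (by simp [hp]),
        nrZ_cons]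
      ring

theorem sE_splitR (n : ℤ) (L : List (ℤ × ℤ)) :
    sE L = sR n L + sE (L.filter fun p => (n + 8 * p.1) % 64 ≠ 0) := by
  induction L with
  | nil => simp
  | cons p L ih =>
    by_cases hp : (n + 8 * p.1) % 64 = 0
    · rw [sE_cons, sR_cons, if_pos hp, ih, List.filter_cons_of_neg (by simp [hp])]
      ring
    · rw [sE_cons, sR_cons, if_neg hp, ih, List.filter_cons_of_pos (by simp [hp]), sE_cons]
      ring

theorem abs_sinh_le (t : ℝ) : |Real.sinh t| ≤ Real.exp |t| := by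
  rw [Real.abs_sinh, Real.sinh_eq]
  have h1 := Real.exp_pos (-|t|)
  have h2 := Real.exp_pos |t|
  linarith

/-- **a monomial on a line**: the powers of `|sinh|` sum up to a nonnegative number -/
theorem nrZ_pt {n : ℤ} {L : List (ℤ × ℤ)} (h : 0 ≤ sR n L) :
    ∃ C : ℝ, 1 ≤ C ∧ ∀ z : ℂ, z.re = n * (l / 8) → nrZ L z ≤ C * Real.exp (sE L * |z.im|) := by
  obtain ⟨C, hC, h1⟩ := nrZ_bd (α := n / 8) (β := n / 8)
    (L := L.filter fun p => (n + 8 * p.1) % 64 ≠ 0) (by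
      intro p hp
      right
      intro x hx
      have hx0 : x = n / 8 := le_antisymm hx.2 hx.1
      subst hx0
      obtain ⟨-, hp2⟩ := List.mem_filter.1 hp
      have hp3 : (n + 8 * p.1) % 64 ≠ 0 := by simpa using hp2
      have h2 := NUGC.sin_pt8 hp3
      have e : ((n : ℝ) / 8 + p.1) * l = ((n + 8 * p.1 : ℤ) : ℝ) * (l / 8) := by
        push_cast
        ring
      rw [e]
      exact h2)
  refine ⟨max C (nrZ L ((n * (l / 8) : ℝ) : ℂ)), le_max_of_le_left hC, fun z hz => ?_⟩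
  by_cases h0 : z.im = 0
  · have e : z = ((n * (l / 8) : ℝ) : ℂ) := by
      apply Complex.ext
      · rw [hz, ofReal_re]
      · rw [h0, ofReal_im]
    rw [h0, abs_zero, mul_zero, Real.exp_zero, mul_one, ← e]
    exact le_max_right _ _
  · refine le_trans ?_ (mul_le_mul_of_nonneg_right (le_max_left _ _) (Real.exp_pos _).le)
    rw [nrZ_splitR L hz h0]
    have h2 := h1 z (by
      rw [hz]
      constructor <;> exact le_of_eq (by ring))
    obtain ⟨k, hk⟩ := Int.eq_ofNat_of_zero_le h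
    have h4 : |Real.sinh z.im| ^ sR n L ≤ Real.exp (sR n L * |z.im|) := by
      rw [hk, zpow_natCast, Int.cast_natCast, Real.exp_nat_mul]
      exact pow_le_pow_left₀ (abs_nonneg _) (abs_sinh_le _) k
    calc _ ≤ Real.exp (sR n L * |z.im|) *
          (C * Real.exp (sE (L.filter fun p => (n + 8 * p.1) % 64 ≠ 0) * |z.im|)) :=
          mul_le_mul h4 h2 (nrZ_nonneg _ _) (Real.exp_pos _).le
      _ = C * Real.exp (sR n L * |z.im| +
          sE (L.filter fun p => (n + 8 * p.1) % 64 ≠ 0) * |z.im|) := by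
          rw [Real.exp_add]
          ring
      _ = _ := by
          rw [sE_splitR n L]
          push_cast
          ring_nf

/-! ### words -/

/-- word of a shift -/
def sh (k : ℤ) (L : List (ℤ × ℤ)) : List (ℤ × ℤ) := L.map fun p => (k + p.1, p.2)

/-- word of the reflection -/
def ng (L : List (ℤ × ℤ)) : List (ℤ × ℤ) := L.map fun p => (-p.1, p.2)

/-- word of the inverse -/
def iv (L : List (ℤ × ℤ)) : List (ℤ × ℤ) := L.map fun p => (p.1, -1 * p.2)

theorem nrZ_sh (L : List (ℤ × ℤ)) (z : ℂ) (k : ℤ) :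
    nrZ (sh k L) z = nrZ L (z + ((k * l : ℝ) : ℂ)) := (nrZ_shift L z k).symm

theorem nrZ_ng (L : List (ℤ × ℤ)) (z : ℂ) : nrZ (ng L) z = nrZ L (-z) := (nrZ_neg L z).symm

theorem nrZ_iv (L : List (ℤ × ℤ)) (z : ℂ) : nrZ (iv L) z = (nrZ L z)⁻¹ := by
  rw [← zpow_neg_one, nrZ_zpow]
  rfl

/-- words of `Dk`, `Ck`, `CC`, `CCP`, `qg` -/
def wD : List (ℤ × ℤ) := [(4, 1), (3, -1), (-3, -1)]
def wK : List (ℤ × ℤ) := [(0, 1), (2, 1), (1, -1)]
def wC : List (ℤ × ℤ) := [(0, 1), (3, 1)]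
def wQ : List (ℤ × ℤ) := [(4, 2), (3, -2), (-3, -2)]
def wR : List (ℤ × ℤ) := [(-3, -2), (2, -2)]

private theorem sin_4 (z : ℂ) : sin (z + (((4 : ℤ) * l : ℝ) : ℂ)) = cos z := by
  have : (((4 : ℤ) * l : ℝ) : ℂ) = Real.pi / 2 := by
    unfold l
    push_cast
    ring
  rw [this, Complex.sin_add_pi_div_two]

private theorem norm_sin_sub_comm (a b : ℂ) : ‖sin (a - b)‖ = ‖sin (b - a)‖ := by
  rw [← norm_neg, ← Complex.sin_neg, neg_sub]

theorem norm_Dk (z : ℂ) : ‖Dk z‖ = nrZ wD z := by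
  have e3 : z + (((3 : ℤ) * l : ℝ) : ℂ) = 3 * l + z := by push_cast; ring
  have e4 : z + ((((-3 : ℤ) : ℝ) * l : ℝ) : ℂ) = z - 3 * l := by push_cast; ring
  unfold wD Dk
  simp only [nrZ_cons, nrZ_nil, sin_4, e3, e4]
  rw [norm_div, norm_mul, norm_sin_sub_comm (3 * l) z, zpow_one, zpow_neg_one, zpow_neg_one,
    div_eq_mul_inv, mul_inv]
  ring

theorem norm_Ck (z : ℂ) : ‖Ck z‖ = nrZ wK z := by
  have e0 : z + (((0 : ℤ) * l : ℝ) : ℂ) = z := by simp
  have e1 : z + (((1 : ℤ) * l : ℝ) : ℂ) = z + l := by push_cast; ring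
  have e2 : z + (((2 : ℤ) * l : ℝ) : ℂ) = z + 2 * l := by push_cast; ring
  unfold wK Ck
  simp only [nrZ_cons, nrZ_nil, e0, e1, e2]
  rw [norm_div, norm_mul, zpow_one, zpow_one, zpow_neg_one, div_eq_mul_inv]
  ring

theorem norm_CC (z : ℂ) : ‖CC z‖ = nrZ wC z := by
  have e0 : z + (((0 : ℤ) * l : ℝ) : ℂ) = z := by simp
  have e3 : z + (((3 : ℤ) * l : ℝ) : ℂ) = z + 3 * l := by push_cast; ring
  unfold wC CC
  simp only [nrZ_cons, nrZ_nil, e0, e3]
  rw [norm_mul, zpow_one, zpow_one, mul_one]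

theorem norm_QQ (z : ℂ) : ‖QQ z‖ = nrZ wR z := by
  have e2 : z + (((2 : ℤ) * l : ℝ) : ℂ) = z + 2 * l := by push_cast; ring
  have e4 : z + ((((-3 : ℤ) : ℝ) * l : ℝ) : ℂ) = z - 3 * l := by push_cast; ring
  unfold wR QQ
  simp only [nrZ_cons, nrZ_nil, e2, e4]
  have z2 : ∀ x : ℝ, x ^ (-2 : ℤ) = (x ^ 2)⁻¹ := fun x => by
    rw [zpow_neg]
    norm_cast
  rw [norm_div, norm_mul, norm_pow, norm_pow, norm_one, z2, z2, one_div, mul_inv, mul_one]

theorem norm_CCP (z : ℂ) : ‖CCP z‖ = nrZ (wC ++ sh 3 (ng wR)) z := by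
  rw [nrZ_append, nrZ_sh, nrZ_ng, ← norm_CC, ← norm_QQ, ← norm_mul]
  unfold CCP
  congr 3
  push_cast
  ring

/-- word of the pair function of two half quanta -/
def wGt : HT → HT → List (ℤ × ℤ)
  | .P, .P => wD ++ (sh 3 (ng wK) ++ (sh (-3) wK ++ wQ))
  | .P, .H => wD ++ (sh 3 (ng wK) ++ sh 2 (wC ++ sh 3 (ng wR)))
  | .P, _ => wD ++ sh 3 (ng wK)
  | .H, .P => wD ++ (sh (-3) wK ++ sh (-2) (ng (wC ++ sh 3 (ng wR))))
  | .H, .H => wD ++ (sh (-2) (ng wC) ++ (blk false true true ++ sh 2 wC))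
  | .H, _ => wD ++ sh (-2) (ng wC)
  | _, .P => wD ++ sh (-3) wK
  | _, .H => wD ++ sh 2 wC
  | _, _ => wD

private theorem eN3 (x : ℂ) : -x - 3 * l = -(x + (((3 : ℤ) * l : ℝ) : ℂ)) := by push_cast; ring

private theorem eM3 (x : ℂ) : x - 3 * l = x + ((((-3 : ℤ) : ℝ) * l : ℝ) : ℂ) := by push_cast; ring

private theorem eM2 (x : ℂ) : x - 2 * l = x + ((((-2 : ℤ) : ℝ) * l : ℝ) : ℂ) := by push_cast; ring

private theorem eP2 (x : ℂ) : x + 2 * l = x + (((2 : ℤ) * l : ℝ) : ℂ) := by push_cast; ring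

private theorem eN2 (x : ℂ) : 2 * l - x = -(x + ((((-2 : ℤ) : ℝ) * l : ℝ) : ℂ)) := by
  push_cast; ring

/-- the host strings -/
theorem norm_SS (x : ℂ) : ‖gz (false, .S) (true, .S) x‖ = nrZ (blk false true true) x :=
  norm_cz true true x

/-- **the pair functions are monomials** -/
theorem norm_gwc (t t' : HT) (x : ℂ) : ‖NUGC.gwc t t' x‖ = nrZ (wGt t t') x := by
  have hD := norm_Dk x
  have hR : ‖Ck (-x - 3 * l)‖ = nrZ (sh 3 (ng wK)) x := by rw [eN3, norm_Ck, nrZ_sh, nrZ_ng]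
  have hL : ‖Ck (x - 3 * l)‖ = nrZ (sh (-3) wK) x := by rw [eM3, norm_Ck, nrZ_sh]
  have hC : ‖CC (x + 2 * l)‖ = nrZ (sh 2 wC) x := by rw [eP2, norm_CC, nrZ_sh]
  have hC' : ‖CC (2 * l - x)‖ = nrZ (sh (-2) (ng wC)) x := by rw [eN2, norm_CC, nrZ_sh, nrZ_ng]
  have hP : ‖CCP (x + 2 * l)‖ = nrZ (sh 2 (wC ++ sh 3 (ng wR))) x := by rw [eP2, norm_CCP, nrZ_sh]
  have hP' : ‖CCP (2 * l - x)‖ = nrZ (sh (-2) (ng (wC ++ sh 3 (ng wR)))) x := by
    rw [eN2, norm_CCP, nrZ_sh, nrZ_ng]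
  have hQ : ‖Bd.qg x‖ = nrZ wQ x := norm_qg x
  have two : ∀ {a b : ℂ} {L M : List (ℤ × ℤ)}, ‖a‖ = nrZ L x → ‖b‖ = nrZ M x →
      ‖a * b‖ = nrZ (L ++ M) x := by
    intro a b L M h1 h2
    rw [norm_mul, nrZ_append, h1, h2]
  cases t <;> cases t'
  · exact hD
  · exact hD
  · exact two hD hL
  · exact two hD hC
  · exact hD
  · exact hD
  · exact two hD hL
  · exact two hD hC
  · exact two hD hR
  · exact two hD hR
  · have e : NUGC.gwc .P .P x = Dk x * (Ck (-x - 3 * l) * (Ck (x - 3 * l) * Bd.qg x)) := by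
      show Dk x * Ck (-x - 3 * l) * Ck (x - 3 * l) * Bd.qg x = _
      ring
    rw [e]
    exact two hD (two hR (two hL hQ))
  · have e : NUGC.gwc .P .H x = Dk x * (Ck (-x - 3 * l) * CCP (x + 2 * l)) := by
      show Dk x * Ck (-x - 3 * l) * CCP (x + 2 * l) = _
      ring
    rw [e]
    exact two hD (two hR hP)
  · exact two hD hC'
  · exact two hD hC'
  · have e : NUGC.gwc .H .P x = Dk x * (Ck (x - 3 * l) * CCP (2 * l - x)) := by
      show Dk x * Ck (x - 3 * l) * CCP (2 * l - x) = _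
      ring
    rw [e]
    exact two hD (two hL hP')
  · have e : NUGC.gwc .H .H x = Dk x * (CC (2 * l - x) * (gz (false, .S) (true, .S) x *
        CC (x + 2 * l))) := by
      show Dk x * CC (2 * l - x) * (gz (false, .S) (true, .S) (x + 2 * l - 2 * l) *
        CC (x + 2 * l)) = _
      rw [add_sub_cancel_right]
      ring
    rw [e]
    exact two hD (two hC' (two (norm_SS x) hC))

/-- word of the spectators of a half quantum on a quantum of the other species -/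
def wSt : HT → List (ℤ × ℤ)
  | .W => wD
  | .F => wD
  | .P => sh 3 (ng wK)
  | .H => sh (-2) (blk true true false) ++ wD

theorem norm_htT (t : HT) (x : ℂ) : ‖htT t false x‖ = nrZ (wSt t) x := by
  cases t
  · exact norm_Dk x
  · exact norm_Dk x
  · show ‖Ck (-x - 3 * l)‖ = nrZ (sh 3 (ng wK)) x
    rw [eN3, norm_Ck, nrZ_sh, nrZ_ng]
  · show ‖q1 (-(x - 2 * l)) * Dk x‖ = nrZ (sh (-2) (blk true true false) ++ wD) x
    rw [norm_mul, nrZ_append, norm_Dk, nrZ_sh, ← eM2]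
    congr 1
    exact norm_pz true false (x - 2 * l)

/-- word of the spectators of a letter on a quantum of its own species -/
def wFt : HT → Bool → List (ℤ × ℤ)
  | .W, _ => wK
  | .F, _ => wK
  | .P, _ => wK ++ sh 3 wQ
  | .H, i => (sh (-2) (blk false true false) ++ wK) ++ (if i = true then blk true false false else [])

theorem norm_hF6 (t : HT) (u : Ch6) (x : ℂ) : hF6 t u x = nrZ (wFt t u.1) x := by
  obtain ⟨u1, u2⟩ := u
  unfold hF6
  cases t
  · exact norm_Ck x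
  · exact norm_Ck x
  · show ‖Ck x * Bd.qg (x + 3 * l)‖ = nrZ (wK ++ sh 3 wQ) x
    rw [norm_mul, nrZ_append, norm_Ck, nrZ_sh, norm_qg]
    congr 2
    push_cast
    ring
  · have h1 : ‖hostS false SF true none x‖ = nrZ (sh (-2) (blk false true false) ++ wK) x := by
      show ‖(Bd.qg (x - 2 * l) * Bd.qg (x - 2 * l - l)) * Ck x‖ = _
      rw [norm_mul, nrZ_append, norm_Ck, nrZ_sh, ← eM2]
      congr 1
      exact norm_cz true false (x - 2 * l)
    have h2 : vF6 .H (u1, false) true none x =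
        hostS false SF true none x * gz (true, .A) (true, .A) x ^ ((u1.toNat : ℕ) : ℤ) := by
      show hostS false SF true none x * gz (true, .A) (true, .A) x ^ ((u1.toNat : ℕ) : ℤ) *
        gz (false, .A) (true, .A) x ^ (-((false.toNat : ℕ) : ℤ)) = _
      simp
    rw [h2, norm_mul, h1]
    cases u1
    · simp [wFt]
    · have h3 : ‖gz (true, .A) (true, .A) x‖ = nrZ (blk true false false) x :=
        norm_pz false false x
      simp only [wFt, if_true, Bool.toNat_true, Nat.cast_one, zpow_one]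
      rw [h3, ← nrZ_append]

/-- shift of the place of the hole of a letter -/
def dx6 (t : HT) : ℤ := if t = .P then 3 else 0

theorem hx6_eq (t : HT) (w : ℂ) : hx6 t w = w + ((dx6 t * l : ℝ) : ℂ) := by
  unfold hx6 dx6
  split_ifs <;> push_cast <;> ring

/-- **word of the direct factor of two letters** -/
def wO6 (t t' : HT) (u u' : Ch6) : List (ℤ × ℤ) :=
  (((wGt t t' ++ (if u.1 = true then ng (wSt t') else [])) ++
    (if u'.1 = true then wSt t else [])) ++ (if (u.1 && u'.1) = true then wQ else [])) ++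
  (((if u.2 = true then sh (dx6 t) (ng (iv (wFt t' u'.1))) else []) ++
    (if u'.2 = true then sh (-dx6 t') (iv (wFt t u.1)) else [])) ++
    (if (u.2 && u'.2) = true then sh (dx6 t - dx6 t') wQ else []))

/-- **the direct factor of two letters is a monomial** -/
theorem gO6_eq (t t' : HT) (u u' : Ch6) (w w' : ℂ) :
    gO6 t t' u u' w w' = nrZ (wO6 t t' u u') (w - w') := by
  have h1 : ‖(clC 0 0 t t').gw (w - w')‖ = nrZ (wGt t t') (w - w') := by
    have : (clC 0 0 t t').gw = NUGC.gwc t t' := by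
      unfold clC
      rw [NUGC.cF_gw]
    rw [this, norm_gwc]
  have h2 : ‖htT t' false (w' - w)‖ = nrZ (ng (wSt t')) (w - w') := by
    rw [norm_htT, nrZ_ng, neg_sub]
  have h3 : ‖htT t false (w - w')‖ = nrZ (wSt t) (w - w') := norm_htT t _
  have h4 : ‖Bd.qg (w - w')‖ = nrZ wQ (w - w') := norm_qg _
  have h5 : (hF6 t' u' (w' - hx6 t w))⁻¹ = nrZ (sh (dx6 t) (ng (iv (wFt t' u'.1)))) (w - w') := by
    rw [norm_hF6, nrZ_sh, nrZ_ng, nrZ_iv, hx6_eq]
    congr 2
    ring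
  have h6 : (hF6 t u (w - hx6 t' w'))⁻¹ = nrZ (sh (-dx6 t') (iv (wFt t u.1))) (w - w') := by
    rw [norm_hF6, nrZ_sh, nrZ_iv, hx6_eq]
    congr 2
    push_cast
    ring
  have h7 : ‖Bd.qg (hx6 t w - hx6 t' w')‖ = nrZ (sh (dx6 t - dx6 t') wQ) (w - w') := by
    rw [norm_qg, nrZ_sh, hx6_eq, hx6_eq]
    unfold wQ
    congr 1
    push_cast
    ring
  have ite : ∀ (c : Prop) [Decidable c] (a : ℝ) (L : List (ℤ × ℤ)), a = nrZ L (w - w') →
      (if c then a else 1) = nrZ (if c then L else []) (w - w') := by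
    intro c _ a L h
    split_ifs
    · exact h
    · simp
  unfold gO6 gH6' NUGC.PLX.gO wO6
  rw [h1, nrZ_append, nrZ_append, nrZ_append, nrZ_append, nrZ_append, nrZ_append,
    ite _ _ _ h2, ite _ _ _ h3, ite _ _ _ h4, ite _ _ _ h5, ite _ _ _ h6, ite _ _ _ h7]

/-! ### the bound -/

/-- charge of a letter -/
def qz6 : HT → Ch6 → ℤ
  | .W, _ => 1
  | .F, _ => 1
  | .P, u => if u.2 = true then 1 else -1
  | .H, u => if u.1 = true then (if u.2 = true then 1 else -1) else (if u.2 = true then -1 else -3)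

theorem qh6_eq (t : HT) (u : Ch6) : qh6 t u = (qz6 t u : ℝ) := by
  obtain ⟨u1, u2⟩ := u
  cases t <;> cases u1 <;> cases u2 <;> norm_num [qh6, qz6, bc6, NUSp.qc]

set_option maxRecDepth 100000 in
/-- the exponents of the words -/
theorem wO6_ok : ∀ (t t' : HT) (u u' : Ch6), okC6 t u → okC6 t' u' →
    0 ≤ sR (NUGC.zHT t - NUGC.zHT t') (wO6 t t' u u') ∧
      2 * sE (wO6 t t' u u') = -(qz6 t u * qz6 t' u' + 1) := by
  decide

end PHK.Dir

namespace PHK

open NUO NUP1 NUP1S NURow NUP1.Leg NUP1.Bd NUGC.PLX PBR.PLX PHK.Dir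

/-- **the direct factors of two letters** -/
theorem dir6Le : ∃ C : ℝ, 0 ≤ C ∧ ∀ (t t' : HT) (u u' : Ch6), okC6 t u → okC6 t' u' →
    ∀ τ τ' : ℝ, gO6 t t' u u' (vl (htL t) τ) (vl (htL t') τ') ≤
      C * Real.exp (-((qh6 t u * qh6 t' u' + 1) / 2) * |τ - τ'|) := by
  have h1 : ∀ x : HT × HT × Ch6 × Ch6, ∃ C : ℝ, 0 ≤ C ∧ (okC6 x.1 x.2.2.1 → okC6 x.2.1 x.2.2.2 →
      ∀ τ τ' : ℝ, gO6 x.1 x.2.1 x.2.2.1 x.2.2.2 (vl (htL x.1) τ) (vl (htL x.2.1) τ') ≤
        C * Real.exp (-((qh6 x.1 x.2.2.1 * qh6 x.2.1 x.2.2.2 + 1) / 2) * |τ - τ'|)) := by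
    rintro ⟨t, t', u, u'⟩
    by_cases hu : okC6 t u
    swap
    · exact ⟨0, le_rfl, fun h => absurd h hu⟩
    by_cases hu' : okC6 t' u'
    swap
    · exact ⟨0, le_rfl, fun _ h => absurd h hu'⟩
    obtain ⟨k1, k2⟩ := wO6_ok t t' u u' hu hu'
    obtain ⟨C, hC, hb⟩ := nrZ_pt k1
    refine ⟨C, by linarith, fun _ _ τ τ' => ?_⟩
    obtain ⟨e1, e2⟩ := NUGC.vl_sub_pt (a := htL t) (b := htL t') (n := NUGC.zHT t - NUGC.zHT t') (by
      rw [htL_z, htL_z]
      push_cast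
      ring) τ τ'
    have h := hb _ e1
    rw [e2] at h
    show gO6 t t' u u' (vl (htL t) τ) (vl (htL t') τ') ≤
      C * Real.exp (-((qh6 t u * qh6 t' u' + 1) / 2) * |τ - τ'|)
    rw [gO6_eq, qh6_eq, qh6_eq]
    have k3 : (2 : ℝ) * (sE (wO6 t t' u u') : ℝ) = -((qz6 t u : ℝ) * qz6 t' u' + 1) := by
      exact_mod_cast k2
    have e3 : -(((qz6 t u : ℝ) * qz6 t' u' + 1) / 2) = (sE (wO6 t t' u u') : ℝ) := by linarith
    rw [e3]
    exact h
  choose C hC h using h1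
  refine ⟨∑ x, C x, Finset.sum_nonneg fun x _ => hC x, fun t t' u u' hu hu' τ τ' => ?_⟩
  exact (h (t, t', u, u') hu hu' τ τ').trans (mul_le_mul_of_nonneg_right
    (Finset.single_le_sum (f := C) (fun x _ => hC x) (Finset.mem_univ (t, t', u, u')))
    (Real.exp_pos _).le)

end PHK

end
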