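import Pool.Agent.PHK.Defs
import Pool.Agent.NUC43.Cfg

/-!
# The charges of the six kinds

`chgK6 : Chg (-al6 P) (kq6 K) (kA6 P K) (kB6 P K) (kAh6 P K) (kBh6 P K) (kF6 P K) (kG6 P K)`.
-/

set_option autoImplicit false

open MeasureTheory Set Filter Topology

namespace PHK

noncomputable section

open NUMF (l l_pos g h V Lh Uh ck1 sk sk_pos lq lqg)
open NUC43

/-- admissible offsets -/
structure Ok6 (P : Par6) : Prop where
  jL2 : 2 < P.jL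
  jL3 : P.jL < 3
  j10 : 0 < P.j1
  j1e : P.j1 < P.e
  ej2 : P.e < P.j2
  j21 : P.j2 < 1

theorem GoodP6.ok {P : Par6} (h : GoodP6 P) : Ok6 P := by
  have h1 := h.j1
  have h2 := h.j1e
  have h3 := h.ej2
  have h4 := h.j2
  have h5 := h.L2
  have h6 := h.Lj
  exact ⟨by linarith, by linarith, by linarith, h2, h3, h4⟩

/-- charge (own minus other quanta) -/
def kq6 : Kd6 → ℝ
  | .L => 1
  | .T => 2
  | .E => 0
  | .F => -1
  | .H1 => -1
  | .H2 => -1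

variable (P : Par6)

/-- potential on the own species -/
def kA6 : Kd6 → ℝ → ℝ
  | .L => lq P.jL
  | .T => fun t => lq (3 / 2) t + lq (5 / 2) t
  | .E => fun t => lq (2 + P.e) t + lq (3 + P.e) t + 2 * lqg P.e t
  | .F => fun t => lq (2 + P.e) t + lq (3 + P.e) t + 2 * lqg P.e t - lq P.e t
  | .H1 => fun t => -lq P.j1 t
  | .H2 => fun t => -lq P.j2 t

/-- potential on the other species -/
def kB6 : Kd6 → ℝ → ℝ
  | .L => lqg P.jL
  | .T => fun t => lqg (3 / 2) t + lqg (5 / 2) t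
  | .E => fun t => lqg (2 + P.e) t + lqg (3 + P.e) t + 2 * lq P.e t
  | .F => fun t => lqg (2 + P.e) t + lqg (3 + P.e) t + 2 * lq P.e t - lqg P.e t
  | .H1 => fun t => -lqg P.j1 t
  | .H2 => fun t => -lqg P.j2 t

/-- minus the transform of `kA6` -/
def kAh6 : Kd6 → ℝ → ℝ
  | .L => Ah P.jL P.e .L
  | .T => Ah P.jL P.e .T
  | .E => fun k => Ah P.jL P.e .S k + 2 * Bh P.jL P.e .V k
  | .F => fun k => Ah P.jL P.e .S k + 2 * Bh P.jL P.e .V k - Ah P.jL P.e .V k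
  | .H1 => fun k => -Ah P.jL P.j1 .V k
  | .H2 => fun k => -Ah P.jL P.j2 .V k

/-- minus the transform of `kB6` -/
def kBh6 : Kd6 → ℝ → ℝ
  | .L => Bh P.jL P.e .L
  | .T => Bh P.jL P.e .T
  | .E => fun k => Bh P.jL P.e .S k + 2 * Ah P.jL P.e .V k
  | .F => fun k => Bh P.jL P.e .S k + 2 * Ah P.jL P.e .V k - Bh P.jL P.e .V k
  | .H1 => fun k => -Bh P.jL P.j1 .V k
  | .H2 => fun k => -Bh P.jL P.j2 .V k

/-- symbol `-(A + B) / U₊` -/
def kF6 : Kd6 → ℂ → ℂ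
  | .L => sp P.jL P.e .L
  | .T => sp P.jL P.e .T
  | .E => fun z => sp P.jL P.e .S z + (2 : ℝ) * sp P.jL P.e .V z
  | .F => fun z => sp P.jL P.e .S z + (1 : ℝ) * sp P.jL P.e .V z
  | .H1 => fun z => ((-1 : ℝ) : ℂ) * sp P.jL P.j1 .V z
  | .H2 => fun z => ((-1 : ℝ) : ℂ) * sp P.jL P.j2 .V z

/-- symbol `-(A - B) / U₋` -/
def kG6 : Kd6 → ℂ → ℂ
  | .L => sm P.jL P.e .L
  | .T => sm P.jL P.e .T
  | .E => fun z => sm P.jL P.e .S z - (2 : ℝ) * sm P.jL P.e .V z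
  | .F => fun z => sm P.jL P.e .S z - (3 : ℝ) * sm P.jL P.e .V z
  | .H1 => fun z => ((-1 : ℝ) : ℂ) * sm P.jL P.j1 .V z
  | .H2 => fun z => ((-1 : ℝ) : ℂ) * sm P.jL P.j2 .V z

/-- decay exponent of the symbols -/
def al6 : ℝ := min (kap P.jL P.e) (min (kap P.jL P.j1) (kap P.jL P.j2))

variable {P}

namespace Ok6

variable (h : Ok6 P)

include h

lemma adm : Adm P.jL P.e := by
  obtain ⟨h1, h2, h3, h4, h5, h6⟩ := h
  exact ⟨h1, h2, by linarith, by linarith⟩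

lemma adm1 : Adm P.jL P.j1 := by
  obtain ⟨h1, h2, h3, h4, h5, h6⟩ := h
  exact ⟨h1, h2, h3, by linarith⟩

lemma adm2 : Adm P.jL P.j2 := by
  obtain ⟨h1, h2, h3, h4, h5, h6⟩ := h
  exact ⟨h1, h2, by linarith, h6⟩

lemma al_pos : 0 < al6 P := lt_min (kap_pos h.adm) (lt_min (kap_pos h.adm1) (kap_pos h.adm2))

end Ok6

theorem chgK6 (h : Ok6 P) (K : Kd6) :
    Chg (-al6 P) (kq6 K) (kA6 P K) (kB6 P K) (kAh6 P K) (kBh6 P K) (kF6 P K) (kG6 P K) := by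
  have h0 := h.al_pos
  have m1 : al6 P ≤ kap P.jL P.e := min_le_left _ _
  have m2 : al6 P ≤ kap P.jL P.j1 := (min_le_right _ _).trans (min_le_left _ _)
  have m3 : al6 P ≤ kap P.jL P.j2 := (min_le_right _ _).trans (min_le_right _ _)
  have hg : ∀ γ, Chg (-al6 P) (qc γ) (pO P.jL P.e γ) (pX P.jL P.e γ) (Ah P.jL P.e γ) (Bh P.jL P.e γ)
      (sp P.jL P.e γ) (sm P.jL P.e γ) := fun γ => (chg_grp h.adm γ).mono (by linarith) (by linarith)
  have g1 : Chg (-al6 P) (qc .V) (pO P.jL P.j1 .V) (pX P.jL P.j1 .V) (Ah P.jL P.j1 .V) (Bh P.jL P.j1 .V)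
      (sp P.jL P.j1 .V) (sm P.jL P.j1 .V) := (chg_grp h.adm1 .V).mono (by linarith) (by linarith)
  have g2 : Chg (-al6 P) (qc .V) (pO P.jL P.j2 .V) (pX P.jL P.j2 .V) (Ah P.jL P.j2 .V) (Bh P.jL P.j2 .V)
      (sp P.jL P.j2 .V) (sm P.jL P.j2 .V) := (chg_grp h.adm2 .V).mono (by linarith) (by linarith)
  cases K
  · exact hg .L
  · exact hg .T
  · refine ((hg .S).add ((hg .V).flip.smul 2)).congr ?_ ?_ ?_ ?_ ?_ ?_ ?_ <;> (try intro x) <;>
      simp only [kq6, kA6, kB6, kAh6, kBh6, kF6, kG6, qc, pO, pX] <;> ring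
  · refine (((hg .S).add ((hg .V).flip.smul 2)).add ((hg .V).smul (-1))).congr ?_ ?_ ?_ ?_ ?_ ?_ ?_ <;>
      (try intro x) <;> simp only [kq6, kA6, kB6, kAh6, kBh6, kF6, kG6, qc, pO, pX] <;> push_cast <;> ring
  · refine (g1.smul (-1)).congr ?_ ?_ ?_ ?_ ?_ ?_ ?_ <;>
      (try intro x) <;> simp only [kq6, kA6, kB6, kAh6, kBh6, kF6, kG6, qc, pO, pX] <;> ring
  · refine (g2.smul (-1)).congr ?_ ?_ ?_ ?_ ?_ ?_ ?_ <;>
      (try intro x) <;> simp only [kq6, kA6, kB6, kAh6, kBh6, kF6, kG6, qc, pO, pX] <;> ring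

end

end PHK
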