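import Pool.Agent.PHK.Dir
import Pool.Agent.PHK.Knd

/-!
# The cores of the pair weights of the six kinds (helper64)

`Q6_nonneg`: the number of the cores of two objects is never negative (same family: `L L`, `T T`,
`E E`, `F F`, `H1 H1`, `H2 H2` two, `E F` one; different families: `E E` four, `E F` two; all others
none), so `pair6_ge'`: the direct energy with the cores removed is a lower bound of the pair energy.
-/

set_option autoImplicit false

noncomputable section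

open Complex

namespace PHK

open NUP1 NUO NUDispR NUDispO

/-- fractional parts of the offsets -/
def fr6 (P : Par6) : Fin 5 → ℝ
  | 0 => P.jL - 2
  | 1 => 1 / 2
  | 2 => P.e
  | 3 => P.j1
  | 4 => P.j2

/-- conditions under which the only coincidences are those of equal offsets -/
structure Nd6 (P : Par6) : Prop where
  j1L : P.jL < 2 + P.j1
  e2 : P.e < 1 / 2
  j22 : P.j2 ≠ 1 / 2

theorem GoodP6.nd6 {P : Par6} (h : GoodP6 P) (h2 : P.j2 ≠ 1 / 2) : Nd6 P :=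
  ⟨h.Lj, lt_of_le_of_lt h.e45 (by norm_num), h2⟩

theorem nd6_par6 : Nd6 par6 := par6_good.nd6 (by norm_num [par6])

/-- constituents with their offsets: (own species, string, (class, integer part)), multiplicity -/
def ci6 : Kd6 → List ((Bool × Bool × (Fin 5 × ℤ)) × ℤ)
  | .L => [((true, false, (0, -1)), 1)]
  | .T => [((true, true, (1, 0)), 1)]
  | .E => [((true, true, (2, -1)), 1), ((false, false, (2, 1)), 2)]
  | .F => [((true, true, (2, -1)), 1), ((false, false, (2, 1)), 2), ((true, false, (2, 1)), -1)]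
  | .H1 => [((true, false, (3, 1)), -1)]
  | .H2 => [((true, false, (4, 1)), -1)]

/-- the constituent with its real position -/
def ic6 (P : Par6) (c : (Bool × Bool × (Fin 5 × ℤ)) × ℤ) : (Bool × Bool × ℝ) × ℤ :=
  ((c.1.1, c.1.2.1, (c.1.2.2.2 : ℝ) - fr6 P c.1.2.2.1), c.2)

theorem cd6_ci (P : Par6) (κ : Kd6) : cd6 P κ = (ci6 κ).map (ic6 P) := by
  cases κ <;> simp [cd6, ci6, ic6, fr6] <;> ring

/-- total power at an integer -/
def nI6 (L : List (ℤ × ℤ)) (m : ℤ) : ℤ := (L.map fun p => if m + p.1 = 0 then p.2 else 0).sum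

lemma n0_non6 (L : List (ℤ × ℤ)) {x : ℝ} (h : ∀ m : ℤ, x ≠ m) : n0 L x = 0 := by
  unfold n0
  refine List.sum_eq_zero fun y hy => ?_
  obtain ⟨p, _, rfl⟩ := List.mem_map.1 hy
  rw [if_neg]
  intro h0
  rw [Real.sin_eq_zero_iff] at h0
  obtain ⟨n, hn⟩ := h0
  have hpi := Real.pi_pos
  have h1 : (n : ℝ) * 8 = x + p.1 := by
    have : (n : ℝ) * 8 * NUP1.l = (x + p.1) * NUP1.l := by
      rw [← hn]; unfold NUP1.l; ring
    exact mul_right_cancel₀ (by unfold NUP1.l; positivity) this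
  apply h (n * 8 - p.1)
  push_cast
  linarith

lemma n0_I6 (L : List (ℤ × ℤ)) (m : ℤ) (hL : ∀ p ∈ L, |m + p.1| < 8) : n0 L m = nI6 L m := by
  unfold n0 nI6
  congr 1
  refine List.map_congr_left fun p hp => ?_
  have h8 := hL p hp
  have hi : (Real.sin (((m : ℝ) + p.1) * l) = 0) ↔ m + p.1 = 0 := by
    constructor
    · intro h0
      by_contra h1
      refine sin_l_ne (y := (m : ℝ) + p.1) (by exact_mod_cast h1) ?_ ?_ h0
      · have := (abs_lt.1 h8).1
        exact_mod_cast this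
      · have := (abs_lt.1 h8).2
        exact_mod_cast this
    · intro h0
      have : ((m : ℝ) + p.1) = 0 := by exact_mod_cast h0
      rw [this, zero_mul, Real.sin_zero]
  by_cases h : m + p.1 = 0
  · rw [if_pos (hi.2 h), if_pos h]
  · rw [if_neg (fun h' => h (hi.1 h')), if_neg h]

variable {P : Par6}

lemma fr6_mem (h : Ok6 P) (i : Fin 5) : 0 < fr6 P i ∧ fr6 P i < 1 := by
  obtain ⟨h1, h2, h3, h4, h5, h6⟩ := h
  fin_cases i <;> simp only [fr6] <;> constructor <;> linarith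

lemma fr6_inj (h : Ok6 P) (h' : Nd6 P) {i j : Fin 5} (hij : i ≠ j) : fr6 P i ≠ fr6 P j := by
  obtain ⟨h1, h2, h3, h4, h5, h6⟩ := h
  obtain ⟨g1, g2, g3⟩ := h'
  intro he
  fin_cases i <;> fin_cases j <;> simp only [fr6] at he <;>
    first | exact hij rfl | linarith | exact g3 he.symm | exact g3 he

/-- the integer list of the sines -/
def LI6 (σ : Bool) (a b : (Bool × Bool × (Fin 5 × ℤ)) × ℤ) : List (ℤ × ℤ) :=
  Ls (σ == (a.1.1 == b.1.1)) a.1.2.1 b.1.2.1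

/-- number of the cores, decidable form -/
def QI6 (σ : Bool) (κ κ' : Kd6) : ℤ :=
  ((ci6 κ).map fun a => ((ci6 κ').map fun b =>
    a.2 * b.2 * (if a.1.2.2.1 = b.1.2.2.1 then nI6 (LI6 σ a b) (a.1.2.2.2 - b.1.2.2.2) else 0)).sum).sum

lemma chk6 : ∀ σ : Bool, ∀ κ κ' : Kd6, ∀ a ∈ ci6 κ, ∀ b ∈ ci6 κ', ∀ p ∈ LI6 σ a b,
    |(a.1.2.2.2 - b.1.2.2.2) + p.1| < 8 := by
  decide

theorem Q6_eq (h : Ok6 P) (h' : Nd6 P) (σ : Bool) (κ κ' : Kd6) : Q6 P σ κ κ' = QI6 σ κ κ' := by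
  unfold Q6 QI6
  rw [cd6_ci, cd6_ci]
  simp only [List.map_map]
  congr 1
  refine List.map_congr_left fun a ha => ?_
  simp only [Function.comp]
  congr 1
  refine List.map_congr_left fun b hb => ?_
  simp only [Function.comp]
  have e : LL6 σ (ic6 P a) (ic6 P b) = LI6 σ a b := rfl
  show a.2 * b.2 * n0 (LL6 σ (ic6 P a) (ic6 P b)) _ = _
  rw [e]
  congr 1
  show n0 (LI6 σ a b) ((a.1.2.2.2 : ℝ) - fr6 P a.1.2.2.1 - ((b.1.2.2.2 : ℝ) - fr6 P b.1.2.2.1)) = _
  split_ifs with hc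
  · rw [hc, show ((a.1.2.2.2 : ℝ) - fr6 P b.1.2.2.1 - ((b.1.2.2.2 : ℝ) - fr6 P b.1.2.2.1)) =
      ((a.1.2.2.2 - b.1.2.2.2 : ℤ) : ℝ) by push_cast; ring]
    exact n0_I6 _ _ (chk6 σ κ κ' a ha b hb)
  · refine n0_non6 _ fun m hm => ?_
    have h1 := fr6_mem h a.1.2.2.1
    have h2 := fr6_mem h b.1.2.2.1
    have h3 := fr6_inj h h' hc
    have h4 : fr6 P b.1.2.2.1 - fr6 P a.1.2.2.1 =
        ((m - a.1.2.2.2 + b.1.2.2.2 : ℤ) : ℝ) := by push_cast; linarith
    have h5 : (-1 : ℝ) < ((m - a.1.2.2.2 + b.1.2.2.2 : ℤ) : ℝ) := by rw [← h4]; linarith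
    have h6 : ((m - a.1.2.2.2 + b.1.2.2.2 : ℤ) : ℝ) < 1 := by rw [← h4]; linarith
    have h7 : m - a.1.2.2.2 + b.1.2.2.2 = 0 := by
      have h8 : (-1 : ℤ) < m - a.1.2.2.2 + b.1.2.2.2 := by exact_mod_cast h5
      have h9 : m - a.1.2.2.2 + b.1.2.2.2 < (1 : ℤ) := by exact_mod_cast h6
      omega
    rw [h7] at h4
    apply h3
    push_cast at h4
    linarith

lemma QI6_nonneg : ∀ σ : Bool, ∀ κ κ' : Kd6, 0 ≤ QI6 σ κ κ' := by
  decide

theorem Q6_nonneg (h : Ok6 P) (h' : Nd6 P) (σ : Bool) (κ κ' : Kd6) : 0 ≤ Q6 P σ κ κ' := by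
  rw [Q6_eq h h']
  exact QI6_nonneg σ κ κ'

/-- **lower bound of the pair energy by the direct energy** -/
theorem pair6_ge' (h : Ok6 P) (h' : Nd6 P) (k : ℕ) {r : ℕ} (O : Fin r → Xo) (i j : Fin r)
    (hp : 0 < pairN6 P O i j) :
    Dr6 k P (sp (O i) == sp (O j)) (k6 (O i)) (k6 (O j)) (ht (O i) - ht (O j)) ≤
      -Real.log (pairN6 P O i j) :=
  pair6_ge k P O i j hp (Q6_nonneg h h' _ _ _)

end PHK

end
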