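import Pool.Agent.PHK.Cfg
import Pool.Agent.PHK.Pot
import Pool.Agent.NUO.DispV

/-!
# Displacement fields of the six kinds

`dFB6 P O η s t` = log of the weight of the objects against a quantum of species `s` on the curve `η`,
minus the same for `η = 0` (`linC6`).
-/

set_option autoImplicit false

open MeasureTheory Set Filter Topology

namespace PHK

noncomputable section

open NUMF (l l_pos lq lqg)
open NUO (Xo sp ht Off posL posT posS)
open NUDispE NUDispP NUDispW NUDispQ NUDispV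

/-- offsets of the constituents: ((own species?, string?, offset), multiplicity) -/
def cf6 (P : Par6) : Kd6 → List ((Bool × Bool × ℝ) × ℤ)
  | .L => [((true, false, P.jL), 1)]
  | .T => [((true, true, 3 / 2), 1)]
  | .E => [((true, true, 2 + P.e), 1), ((false, false, P.e), 2)]
  | .F => [((true, true, 2 + P.e), 1), ((false, false, P.e), 2), ((true, false, P.e), -1)]
  | .H1 => [((true, false, P.j1), -1)]
  | .H2 => [((true, false, P.j2), -1)]

/-- own or other species -/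
def osp (s o : Bool) : Bool := if o then s else !s

theorem parts6_cf (P : Par6) (x : Xo) : parts6 P x =
    (cf6 P (k6 x)).map fun y => ((osp (sp x) y.1.1, y.1.2.1, posL y.1.2.2 (ht x)), y.2) := by
  unfold parts6 cf6
  cases k6 x <;> simp [osp, posT_eq, posS_eq, posB_eq]

/-- potential of a list of constituents, offsets shifted by `d` -/
def PT6 (s sx : Bool) (L : List ((Bool × Bool × ℝ) × ℤ)) (d t : ℝ) : ℝ :=
  (L.map fun y => (y.2 : ℝ) * lpt s (osp sx y.1.1) y.1.2.1 (y.1.2.2 + d) t).sum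

/-- the potential of an object at the base positions -/
theorem PT6_base (P : Par6) (x : Xo) (s : Bool) (t : ℝ) :
    PT6 s (sp x) (cf6 P (k6 x)) 0 t = kS6 P (sp x == s) (k6 x) t := by
  have c1 : (2 : ℝ) + P.e + 1 = 3 + P.e := by ring
  have c2 : (3 : ℝ) / 2 + 1 = 5 / 2 := by norm_num
  unfold PT6
  generalize k6 x = K
  generalize sp x = c
  cases K <;> cases c <;> cases s <;>
    simp [cf6, kS6, kA6, kB6, lpt, NUDispP.lp, osp, c1, c2] <;> (try ring)

lemma cf6_off {δ : ℝ} {P : Par6} (h : PG6 δ P) (K : Kd6) : ∀ y ∈ cf6 P K, Off δ y.1.2.2 := by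
  have t1 : Off δ (3 / 2) := by
    have := Off_int (Off_half h.δ1) 1
    push_cast at this
    rwa [show (1:ℝ) / 2 + 1 = 3 / 2 by norm_num] at this
  have s2 : Off δ (2 + P.e) := by
    have := Off_int h.oe 2
    push_cast at this
    rwa [add_comm P.e 2] at this
  cases K <;> simp only [cf6, List.forall_mem_cons]
  · exact ⟨h.oL, by simp⟩
  · exact ⟨t1, by simp⟩
  · exact ⟨s2, h.oe, by simp⟩
  · exact ⟨s2, h.oe, h.oe, by simp⟩
  · exact ⟨h.o1, by simp⟩
  · exact ⟨h.o2, by simp⟩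

/-- **log of the weight of an object against a quantum on the curve** -/
theorem log_potN6 {δ y : ℝ} (hδ : 0 < δ) (hδ1 : δ ≤ 1) (P : Par6) {r : ℕ} (O : Fin r → Xo) (i : Fin r)
    (s : Bool) (t : ℝ) (h : ∀ p ∈ cf6 P (k6 (O i)), Off δ (p.1.2.2 - y / NUMF.l)) :
    Real.log (potN6 P O i s (NUP1.vl (NUP1.l - y) t)) =
      PT6 s (sp (O i)) (cf6 P (k6 (O i))) (-(y / NUMF.l)) (t - ht (O i)) := by
  unfold potN6 ppN6 cons6 pp6 PT6
  rw [List.map_cons, List.map_nil, List.prod_cons, List.prod_nil, mul_one, parts6_cf]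
  simp only [one_mul, norm_zpow, List.map_map]
  generalize cf6 P (k6 (O i)) = L at h
  have key : 0 < (L.map fun p : (Bool × Bool × ℝ) × ℤ => ‖NUO.pp (s, false, NUP1.vl (NUP1.l - y) t)
      (osp (sp (O i)) p.1.1, p.1.2.1, posL p.1.2.2 (ht (O i)))‖ ^ p.2).prod ∧
      Real.log (L.map fun p : (Bool × Bool × ℝ) × ℤ => ‖NUO.pp (s, false, NUP1.vl (NUP1.l - y) t)
      (osp (sp (O i)) p.1.1, p.1.2.1, posL p.1.2.2 (ht (O i)))‖ ^ p.2).prod =
      (L.map fun p => (p.2 : ℝ) * lpt s (osp (sp (O i)) p.1.1) p.1.2.1 (p.1.2.2 + -(y / NUMF.l))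
        (t - ht (O i))).sum := by
    induction L with
    | nil => simp
    | cons a L ih =>
      obtain ⟨i1, i2⟩ := ih fun p hp => h p (by simp [hp])
      obtain ⟨a1, a2⟩ := log_pp hδ hδ1 (h a (by simp)) s (osp (sp (O i)) a.1.1) a.1.2.1 t (ht (O i))
      have b1 : 0 < ‖NUO.pp (s, false, NUP1.vl (NUP1.l - y) t)
          (osp (sp (O i)) a.1.1, a.1.2.1, posL a.1.2.2 (ht (O i)))‖ ^ a.2 := zpow_pos a1 _
      simp only [List.map_cons, List.prod_cons, List.sum_cons]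
      refine ⟨mul_pos b1 i1, ?_⟩
      rw [Real.log_mul b1.ne' i1.ne', i2, Real.log_zpow]
      congr 2
  exact key.2

/-- size of the displacement field of an object -/
def Bd6 (δ0 ε : ℝ) : ℝ := 400 * ε / Real.sin (δ0 * NUMF.l) ^ 4

/-- **the displacement field of an object** -/
theorem SFe_potN6 {δ0 ε ε1 : ℝ} {η η' : ℝ → ℝ} {P : Par6} {r : ℕ} (O : Fin r → Xo) (i : Fin r)
    (h0 : 0 < δ0) (hP : PG6 (δ0 + ε) P) (hη : ∀ t, |η t| ≤ ε1) (hη' : ∀ t, |η' t| ≤ ε1)
    (hdη : ∀ t, HasDerivAt η (η' t) t) (hcη : Continuous η') (he : ε1 / NUMF.l ≤ ε) (s : Bool) :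
    SFe (Bd6 δ0 ε) (ht (O i)) (fun t => Real.log (potN6 P O i s (NUP1.vl (NUP1.l - η t) t)) -
      kS6 P (sp (O i) == s) (k6 (O i)) (t - ht (O i))) := by
  have hl := l_pos
  have hfl := NUO.four_l
  obtain ⟨D1, D2, D3, D4, D5⟩ := disp_bounds (Δ := 0) (ε := ε) hη hη' hdη hcη (by
    rw [abs_zero]; linarith)
  simp only [zero_sub] at D1 D3
  have h1 := hP.δ1
  have h01 : δ0 ≤ 1 := by linarith
  have hs : 0 < Real.sin (δ0 * NUMF.l) := by
    refine Real.sin_pos_of_pos_of_lt_pi (by positivity) ?_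
    nlinarith [Real.pi_pos]
  have hoff := cf6_off hP (k6 (O i))
  have key : ∀ L : List ((Bool × Bool × ℝ) × ℤ), (∀ y ∈ L, Off (δ0 + ε) y.1.2.2) →
      SFe ((L.map fun y => |(y.2 : ℝ)| * ((if y.1.2.1 then 72 else 36) * ε /
        Real.sin (δ0 * NUMF.l) ^ 4)).sum) (ht (O i))
        (fun t => PT6 s (sp (O i)) L (-(η t / NUMF.l)) (t - ht (O i)) -
          PT6 s (sp (O i)) L 0 (t - ht (O i))) := by
    intro L hL
    induction L with
    | nil => exact (SFe.zero _).congr fun t => by simp [PT6]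
    | cons a L ih =>
      have i1 := ih fun y hy => hL y (by simp [hy])
      have i2 := (SFe_lpt (τ := ht (O i)) h0 h01 D5 D1 D2 D3 D4 (hL a (by simp)) s
        (osp (sp (O i)) a.1.1) a.1.2.1).smul (a.2 : ℝ)
      rw [List.map_cons, List.sum_cons]
      refine (i2.add i1).congr fun t => ?_
      simp only [PT6, List.map_cons, List.sum_cons, add_zero]
      ring
  have k1 := key _ hoff
  have hle : ((cf6 P (k6 (O i))).map fun y => |(y.2 : ℝ)| * ((if y.1.2.1 then 72 else 36) * ε /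
      Real.sin (δ0 * NUMF.l) ^ 4)).sum ≤ Bd6 δ0 ε := by
    have hq : 0 ≤ ε / Real.sin (δ0 * NUMF.l) ^ 4 := by positivity
    have e1 : Bd6 δ0 ε = 400 * (ε / Real.sin (δ0 * NUMF.l) ^ 4) := by unfold Bd6; ring
    have e2 : (72 : ℝ) * ε / Real.sin (δ0 * NUMF.l) ^ 4 = 72 * (ε / Real.sin (δ0 * NUMF.l) ^ 4) := by ring
    have e3 : (36 : ℝ) * ε / Real.sin (δ0 * NUMF.l) ^ 4 = 36 * (ε / Real.sin (δ0 * NUMF.l) ^ 4) := by ring
    rw [e1]
    cases k6 (O i) <;> simp [cf6, e2, e3] <;> linarith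
  refine (k1.mono hle).congr fun t => ?_
  rw [log_potN6 h0 h01 P O i s t fun p hp => ?_, ← PT6_base]
  have e : p.1.2.2 - η t / NUMF.l = p.1.2.2 + -(η t / NUMF.l) := by ring
  rw [e]
  exact Off_shift (hoff p hp) (D3 t)

/-- the displacement field of the configuration against the base configuration, on the quanta of
species `s` -/
def dFB6 (P : Par6) {r : ℕ} (O : Fin r → Xo) (η : ℝ → ℝ) (s : Bool) (t : ℝ) : ℝ :=
  ∑ i, (Real.log (potN6 P O i s (NUP1.vl (NUP1.l - η t) t)) -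
    kS6 P (sp (O i) == s) (k6 (O i)) (t - ht (O i)))

/-- the potentials on the path -/
theorem FO6_re {δ : ℝ} {P : Par6} {r : ℕ} (O : Fin r → Xo) (hP : PG6 δ P) (a : Bool) {η : ℝ → ℝ} {t : ℝ}
    (ht : |η t| < δ * NUMF.l) :
    (FO6 P O a (t + (η t : ℂ) * Complex.I)).re = dFB6 P O η a t + linC6 P O a t := by
  have h1 := prod_potN6 O hP a ht
  have h2 : ∀ i, potN6 P O i a (NUP1.vl (NUP1.l - η t) t) ≠ 0 := by
    intro i
    rw [NUO.vl_eq]
    exact (potN6_pos hP O i a (by simpa using ht)).ne'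
  have h3 : (FO6 P O a (t + (η t : ℂ) * Complex.I)).re =
      ∑ i, Real.log (potN6 P O i a (NUP1.vl (NUP1.l - η t) t)) := by
    rw [← Real.log_prod (fun i _ => h2 i), h1, Real.log_exp]
  rw [h3, dFB6, linC6, ← Finset.sum_add_distrib]
  exact Finset.sum_congr rfl fun i _ => by ring

/-- **the displacement fields of the objects**: `C^1`, with decaying derivative -/
theorem exists_dFB6 {δ0 ε ε1 : ℝ} {η η' : ℝ → ℝ} {P : Par6} {r : ℕ} (O : Fin r → Xo)
    (h0 : 0 < δ0) (hP : PG6 (δ0 + ε) P) (hη : ∀ t, |η t| ≤ ε1) (hη' : ∀ t, |η' t| ≤ ε1)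
    (hdη : ∀ t, HasDerivAt η (η' t) t) (hcη : Continuous η') (he : ε1 / NUMF.l ≤ ε) (s : Bool) :
    ∃ F' : ℝ → ℝ, (∀ t, HasDerivAt (dFB6 P O η s) (F' t) t) ∧ Continuous F' ∧
    (∀ t, |dFB6 P O η s t| ≤ Bd6 δ0 ε * bmaj Finset.univ (fun i => ht (O i)) 2 t) ∧
    ∀ t, |F' t| ≤ Bd6 δ0 ε * bmaj Finset.univ (fun i => ht (O i)) 2 t := by
  choose f' hf' using fun i => SFe_potN6 O i h0 hP hη hη' hdη hcη he s
  refine ⟨fun t => ∑ i, f' i t, fun t => ?_, ?_, fun t => ?_, fun t => ?_⟩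
  · unfold dFB6
    exact HasDerivAt.fun_sum fun i _ => (hf' i).deriv t
  · exact continuous_finsetSum _ fun i _ => (hf' i).cont
  · exact sum_abs_le Finset.univ (fun i => ht (O i))
      (fun i t => Real.log (potN6 P O i s (NUP1.vl (NUP1.l - η t) t)) -
        kS6 P (sp (O i) == s) (k6 (O i)) (t - ht (O i))) t fun i _ => (hf' i).le t
  · exact sum_abs_le Finset.univ (fun i => ht (O i)) f' t fun i _ => (hf' i).le' t

/-- pointwise bound of the total displacement field -/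
theorem dFB6_le {δ0 ε ε1 : ℝ} {η η' : ℝ → ℝ} {P : Par6} {r : ℕ} (O : Fin r → Xo)
    (h0 : 0 < δ0) (hP : PG6 (δ0 + ε) P) (hη : ∀ t, |η t| ≤ ε1) (hη' : ∀ t, |η' t| ≤ ε1)
    (hdη : ∀ t, HasDerivAt η (η' t) t) (hcη : Continuous η') (he : ε1 / NUMF.l ≤ ε) (s : Bool) (t : ℝ) :
    |dFB6 P O η s t| ≤ Bd6 δ0 ε * bmaj Finset.univ (fun i => ht (O i)) 2 t := by
  obtain ⟨_, _, _, h, _⟩ := exists_dFB6 O h0 hP hη hη' hdη hcη he s
  exact h t

end

end PHK
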