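import Pool.Agent.PHK.Cfg

/-!
# Cosine form of the response energies of the six kinds

`ER6_CF`: `ER6 P σ κ κ' x y = F (x - y)` with the growth charge `-(2 sgn σ q q')` and the transform
`-(1 / 2π) ((A + B) (A' + B') / U₊ + sgn σ (A - B) (A' - B') / U₋)`, `A = kAh6 P κ`, `B = kBh6 P κ`,
`U₊ = Uh`, `U₋ = Uh + 2 Lh`.
-/

set_option autoImplicit false

open MeasureTheory Set Filter Topology

namespace PHK

noncomputable section

open NUMF (V Lh Uh sk)
open NUC43 (dO dX dT Dn)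
open Pool.Agent.NUM3 (EV EU CF EV_CF EU_CF int_prod sgn)

variable {P : Par6}

/-- **cosine form of the response energies, in terms of the symbols** -/
theorem ER6_CF0 (h : Ok6 P) (σ : Bool) (κ κ' : Kd6) : ∃ F : ℝ → ℝ,
    (∀ x y, ER6 P σ κ κ' x y = F (x - y)) ∧
    CF F (-(sgn σ * (2 * (kq6 κ * kq6 κ')))) (fun k => -(1 / (2 * Real.pi) *
      (Uh k * (kF6 P κ k).re * (kF6 P κ' k).re +
        sgn σ * ((Uh k + 2 * Lh k) * (kG6 P κ k).re * (kG6 P κ' k).re)))) := by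
  have hpi := Real.pi_pos
  have c := chgK6 h κ
  have c' := chgK6 h κ'
  have iF := c.gF.inv_rep c.neg
  have iG := c.gG.inv_rep c.neg
  have iF' := c'.gF.inv_rep c'.neg
  have iG' := c'.gG.inv_rep c'.neg
  have iX : IntegrableOn (fun k : ℝ => ((kF6 P κ k).re + (kG6 P κ k).re) / 2) (Ioi 0) :=
    (iF.add iG).div_const 2
  have iY : IntegrableOn (fun k : ℝ => ((kF6 P κ k).re - (kG6 P κ k).re) / 2) (Ioi 0) :=
    (iF.sub iG).div_const 2
  have iX' : IntegrableOn (fun k : ℝ => ((kF6 P κ' k).re + (kG6 P κ' k).re) / 2) (Ioi 0) :=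
    (iF'.add iG').div_const 2
  have iY' : IntegrableOn (fun k : ℝ => ((kF6 P κ' k).re - (kG6 P κ' k).re) / 2) (Ioi 0) :=
    (iF'.sub iG').div_const 2
  obtain ⟨CX, hX0, hCX⟩ := (dnX6 h κ').bdd
  obtain ⟨CY, hY0, hCY⟩ := (dnY6 h κ').bdd
  obtain ⟨F1, e1, c1⟩ := EV_CF c.ctO c'.ctO c'.contO hCX (int_prod c.ctO iX iX')
  obtain ⟨F2, e2, c2⟩ := EV_CF c.ctX c'.ctX c'.contX hCY (int_prod c.ctX iY iY')
  obtain ⟨F3, e3, c3⟩ := EV_CF c.ctO c'.ctX c'.contX hCY (int_prod c.ctO iX iY')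
  obtain ⟨F4, e4, c4⟩ := EV_CF c.ctX c'.ctO c'.contO hCX (int_prod c.ctX iY iX')
  obtain ⟨F5, e5, c5⟩ := EU_CF c.ctT c'.ctT (dnT6 h κ).wint (dnT6 h κ').wint
  rw [c.intT, c'.intT] at c5
  rcases σ
  · refine ⟨fun t => (F3 t + F4 t) + 1 * F5 t, fun x y => ?_, ?_⟩
    · simp only [ER6, Bool.false_eq_true, if_false, sgn]
      unfold sgX6 sgY6 sgT6
      rw [e3, e4, e5]
      ring
    · refine ((c3.add c4).add (c5.smul 1)).congr (fun t => rfl) ?_ fun k hk => ?_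
      · simp only [sgn, Bool.false_eq_true, if_false]; ring
      · simp only [sgn, Bool.false_eq_true, if_false]
        field_simp
        ring
  · refine ⟨fun t => (F1 t + F2 t) + -1 * F5 t, fun x y => ?_, ?_⟩
    · simp only [ER6, if_true, sgn]
      unfold sgX6 sgY6 sgT6
      rw [e1, e2, e5]
      ring
    · refine ((c1.add c2).add (c5.smul (-1))).congr (fun t => rfl) ?_ fun k hk => ?_
      · simp only [sgn, if_true]; ring
      · simp only [sgn, if_true]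
        field_simp
        ring

/-- **cosine form of the response energies** -/
theorem ER6_CF (h : Ok6 P) (σ : Bool) (κ κ' : Kd6) : ∃ F : ℝ → ℝ,
    (∀ x y, ER6 P σ κ κ' x y = F (x - y)) ∧
    CF F (-(sgn σ * (2 * (kq6 κ * kq6 κ')))) (fun k => -(1 / (2 * Real.pi) *
      ((kAh6 P κ k + kBh6 P κ k) * (kAh6 P κ' k + kBh6 P κ' k) / Uh k +
        sgn σ * ((kAh6 P κ k - kBh6 P κ k) * (kAh6 P κ' k - kBh6 P κ' k) / (Uh k + 2 * Lh k))))) := by
  obtain ⟨F, e, cF⟩ := ER6_CF0 h σ κ κ'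
  refine ⟨F, e, cF.congr (fun _ => rfl) rfl fun k hk => ?_⟩
  have p1 := (chgK6 h κ).hp k hk
  have p2 := (chgK6 h κ').hp k hk
  have m1 := (chgK6 h κ).hm k hk
  have m2 := (chgK6 h κ').hm k hk
  have u0 : Uh k ≠ 0 := (NUMF.Uh_pos hk.ne').ne'
  have u1 : Uh k + 2 * Lh k ≠ 0 := by
    have h1 := NUMF.Uh_pos hk.ne'
    have h2 := NUMF.Lh_pos hk.ne'
    linarith
  have q1 : (kAh6 P κ k + kBh6 P κ k) * (kAh6 P κ' k + kBh6 P κ' k) / Uh k =
      Uh k * (kF6 P κ k).re * (kF6 P κ' k).re := by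
    rw [div_eq_iff u0, show kAh6 P κ k + kBh6 P κ k = -(Uh k * (kF6 P κ k).re) by linarith,
      show kAh6 P κ' k + kBh6 P κ' k = -(Uh k * (kF6 P κ' k).re) by linarith]
    ring
  have q2 : (kAh6 P κ k - kBh6 P κ k) * (kAh6 P κ' k - kBh6 P κ' k) / (Uh k + 2 * Lh k) =
      (Uh k + 2 * Lh k) * (kG6 P κ k).re * (kG6 P κ' k).re := by
    rw [div_eq_iff u1, show kAh6 P κ k - kBh6 P κ k = -((Uh k + 2 * Lh k) * (kG6 P κ k).re) by linarith,
      show kAh6 P κ' k - kBh6 P κ' k = -((Uh k + 2 * Lh k) * (kG6 P κ' k).re) by linarith]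
    ring
  rw [q1, q2]

end

end PHK
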