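import Pool.Agent.NUP1S.TwoSat
import Pool.Agent.PHK.Rect

/-!
# Both species: the gas on the line `x` is the gas on the line `y` and on the rectangle
-/

set_option autoImplicit false
set_option linter.unusedSectionVars false

noncomputable section

open Complex MeasureTheory NUP1 Set Filter Topology
open scoped Real

namespace NUP1S

variable {pl : Bool → Finset ℂ} {κ x y R : ℝ} {g : Bool → ℂ → ℂ}

/-- the poles are inside the rectangle -/
def InR (pl : Bool → Finset ℂ) (x y R : ℝ) : Prop :=
  ∀ s, ∀ p ∈ pl s, x < p.re ∧ p.re < y ∧ |p.im| < R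

theorem InR.geo (h : InR pl x y R) (hκ : 0 < κ) (hxy : x ≤ y) (hw : y - x < l) :
    Geo pl κ x y where
  kpos := hκ
  ab := hxy
  wd := hw
  pin s p hp := ⟨(h s p hp).1.le, (h s p hp).2.1.le⟩

theorem okLine (h : InR pl x y R) (hκ : 0 < κ) (hxy : x ≤ y) (s : Bool) {σ : ℝ}
    (hσ : σ = x ∨ σ = y) : OkC pl κ x y (lineC s σ) where
  mom := measurable_const
  mpos := by
    show Measurable fun t : ℝ => vl σ t
    unfold vl
    fun_prop
  re1 t := by
    show x ≤ (vl σ t).re
    rw [re_vl]
    rcases hσ with rfl | rfl
    · exact le_rfl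
    · exact hxy
  re2 t := by
    show (vl σ t).re ≤ y
    rw [re_vl]
    rcases hσ with rfl | rfl
    · exact hxy
    · exact le_rfl
  away := by
    obtain ⟨δ, hδ, hd⟩ := rect_dist (h s)
    refine ⟨δ, hδ, fun t p hp => ?_⟩
    obtain ⟨k1, k2, -⟩ := hd p hp
    have n1 := Complex.abs_re_le_norm (vl σ t - p)
    rw [sub_re, re_vl] at n1
    show δ ≤ ‖vl σ t - p‖
    rcases hσ with rfl | rfl
    · have := neg_le_abs (σ - p.re)
      linarith
    · have := le_abs_self (σ - p.re)
      linarith
  int := by
    have h1 := integrable_exp_neg_abs hκ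
    refine (h1.const_mul ‖(2 * π : ℂ)⁻¹‖).congr (Eventually.of_forall fun t => ?_)
    show ‖(2 * π : ℂ)⁻¹‖ * Real.exp (-κ * |t|) =
      ‖(2 * π : ℂ)⁻¹‖ * Real.exp (-(κ * |(vl σ t).im|))
    rw [im_vl, neg_mul]

/-- the satellites before the evaluation -/
def RR (k k' : ℕ) (x y R : ℝ) : List Ct :=
  List.replicate k (rectC true x y R) ++ List.replicate k' (rectC false x y R)

theorem chL_RR (k k' : ℕ) : chL (RR k k' x y R) = k * sg true + k' * sg false := by
  unfold RR
  rw [chL_append, chL_replicate, chL_replicate]
  rfl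

/-- the quanta on the line `y` -/
def LL (a a' : ℕ) (y : ℝ) : List Ct :=
  List.replicate a (lineC true y) ++ List.replicate a' (lineC false y)

theorem chL_LL (a a' : ℕ) : chL (LL a a' y) = a * sg true + a' * sg false := by
  unfold LL
  rw [chL_append, chL_replicate, chL_replicate]
  rfl

theorem okRR (h : InR pl x y R) (hκ : 0 < κ) (hxy : x ≤ y) (hR : 0 ≤ R) (k k' : ℕ) :
    ∀ c ∈ RR k k' x y R, OkC pl κ x y c :=
  ok_app (ok_rep (OkC.rect hxy hR le_rfl le_rfl hκ.le (h true)) _)
    (ok_rep (OkC.rect hxy hR le_rfl le_rfl hκ.le (h false)) _)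

theorem okLL (h : InR pl x y R) (hκ : 0 < κ) (hxy : x ≤ y) (a a' : ℕ) :
    ∀ c ∈ LL a a' y, OkC pl κ x y c :=
  ok_app (ok_rep (okLine h hκ hxy true (Or.inr rfl)) _) (ok_rep (okLine h hκ hxy false (Or.inr rfl)) _)

/-- **the binomial expansion for both species** -/
theorem ZZ_rect (h : InR pl x y R) (hκ : 0 < κ) (hxy : x ≤ y) (hw : y - x < l) (hR : 0 ≤ R)
    (a a' : ℕ) (hg : Reg pl κ x y (a * sg true + a' * sg false) g) :
    ZZ pl x a a' g = ∑ k ∈ Finset.range (a + 1), ∑ k' ∈ Finset.range (a' + 1),
      ((((a - k).factorial : ℕ) : ℂ)⁻¹ * (((a' - k').factorial : ℕ) : ℂ)⁻¹ *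
        (((k.factorial : ℕ) : ℂ)⁻¹ * ((k'.factorial : ℕ) : ℂ)⁻¹)) *
        NI pl (LL (a - k) (a' - k') y ++ RR k k' x y R) g := by
  have G := h.geo hκ hxy hw
  have ox : ∀ s, OkC pl κ x y (lineC s x) := fun s => okLine h hκ hxy s (Or.inl rfl)
  have oy : ∀ s, OkC pl κ x y (lineC s y) := fun s => okLine h hκ hxy s (Or.inr rfl)
  have oR : ∀ s, OkC pl κ x y (rectC s x y R) := fun s =>
    OkC.rect hxy hR le_rfl le_rfl hκ.le (h s)
  have rp : ∀ s, Rep pl κ x y (lineC s x) (lineC s y) (rectC s x y R) := fun s =>
    rect_rep G hxy hR le_rfl le_rfl (h s)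
  have s1 : ZZ pl x a a' g = ((a'.factorial : ℕ) : ℂ)⁻¹ *
      Z1 pl (lineC true x) a (List.replicate a' (lineC false x)) g := by
    unfold ZZ Z1
    ring
  rw [s1, Z1_sum G (e := lineC true x) (c := lineC true y) (d := rectC true x y R) rfl rfl
    (ox true) (oy true) (oR true) (rp true) (ok_rep (ox false) a') a (by
      rw [chL_replicate]
      exact hg), Finset.mul_sum]
  refine Finset.sum_congr rfl fun k hk => ?_
  have hk' : k ≤ a := by
    have := Finset.mem_range.1 hk
    omega
  -- reorder
  set M : List Ct := List.replicate (a - k) (lineC true y) ++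
    List.replicate k (rectC true x y R) with hM
  have okM : ∀ c ∈ M, OkC pl κ x y c := ok_app (ok_rep (oy true) _) (ok_rep (oR true) _)
  have chM : chL M = a * sg true := by
    rw [hM, chL_append, chL_replicate, chL_replicate]
    show ((a - k : ℕ) : ℤ) * sg true + (k : ℤ) * sg true = _
    push_cast [hk']
    ring
  have hperm : (List.replicate (a - k) (lineC true y) ++ (List.replicate k (rectC true x y R) ++
      List.replicate a' (lineC false x))).Perm (List.replicate a' (lineC false x) ++ M) := by
    rw [← List.append_assoc]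
    exact List.perm_append_comm
  have ok1 : ∀ c ∈ List.replicate (a - k) (lineC true y) ++ (List.replicate k (rectC true x y R) ++
      List.replicate a' (lineC false x)), OkC pl κ x y c :=
    ok_app (ok_rep (oy true) _) (ok_app (ok_rep (oR true) _) (ok_rep (ox false) _))
  have hch : chL (List.replicate (a - k) (lineC true y) ++ (List.replicate k (rectC true x y R) ++
      List.replicate a' (lineC false x))) = a * sg true + a' * sg false := by
    rw [chL_perm hperm, chL_append, chM, chL_replicate]
    show (a' : ℤ) * sg false + _ = _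
    ring
  have e1 : Z1 pl (lineC true y) (a - k) (List.replicate k (rectC true x y R) ++
      List.replicate a' (lineC false x)) g = (((a - k).factorial : ℕ) : ℂ)⁻¹ *
        ((a'.factorial : ℕ) : ℂ) * Z1 pl (lineC false x) a' M g := by
    unfold Z1
    rw [NI_perm G hperm ok1 g (by rw [hch]; exact hg)]
    have : ((a'.factorial : ℕ) : ℂ) ≠ 0 := by exact_mod_cast Nat.factorial_ne_zero a'
    field_simp
  rw [e1, Z1_sum G (e := lineC false x) (c := lineC false y) (d := rectC false x y R) rfl rfl
    (ox false) (oy false) (oR false) (rp false) okM a' (by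
      rw [chM]
      show Reg pl κ x y (a' * sg false + a * sg true) g
      rw [add_comm]
      exact hg), Finset.mul_sum, Finset.mul_sum, Finset.mul_sum]
  refine Finset.sum_congr rfl fun k' hk2 => ?_
  have hk2' : k' ≤ a' := by
    have := Finset.mem_range.1 hk2
    omega
  have hperm2 : (List.replicate (a' - k') (lineC false y) ++
      (List.replicate k' (rectC false x y R) ++ M)).Perm
      (LL (a - k) (a' - k') y ++ RR k k' x y R) := by
    unfold LL RR
    rw [hM]
    have p1 : (List.replicate (a' - k') (lineC false y) ++ (List.replicate k' (rectC false x y R) ++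
        (List.replicate (a - k) (lineC true y) ++ List.replicate k (rectC true x y R)))).Perm
        (List.replicate (a' - k') (lineC false y) ++ (List.replicate (a - k) (lineC true y) ++
          (List.replicate k (rectC true x y R) ++ List.replicate k' (rectC false x y R)))) := by
      refine List.Perm.append_left _ ?_
      refine List.perm_append_comm.trans ?_
      rw [List.append_assoc]
    refine p1.trans ?_
    rw [← List.append_assoc]
    exact List.Perm.append_right _ List.perm_append_comm
  have ok2 : ∀ c ∈ List.replicate (a' - k') (lineC false y) ++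
      (List.replicate k' (rectC false x y R) ++ M), OkC pl κ x y c :=
    ok_app (ok_rep (oy false) _) (ok_app (ok_rep (oR false) _) okM)
  have hch2 : chL (List.replicate (a' - k') (lineC false y) ++
      (List.replicate k' (rectC false x y R) ++ M)) = a * sg true + a' * sg false := by
    rw [chL_append, chL_append, chM, chL_replicate, chL_replicate]
    show ((a' - k' : ℕ) : ℤ) * sg false + ((k' : ℤ) * sg false + _) = _
    push_cast [hk2']
    ring
  unfold Z1
  rw [NI_perm G hperm2 ok2 g (by rw [hch2]; exact hg)]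
  have : ((a'.factorial : ℕ) : ℂ) ≠ 0 := by exact_mod_cast Nat.factorial_ne_zero a'
  field_simp

end NUP1S

end
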