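import Pool.Agent.PLX.NUGC.ExpC
import Pool.Agent.PHK.H0.DatNC
import Pool.Agent.PHK.CfgC
import Pool.Agent.PHK.Stab
import Pool.Agent.PHK.H0.DatEC6

/-!
# The exponent of a configuration of the six kinds with spectators, upper bound

* `EnOk6`: what is needed of the data `datO6 I P O` and of the sources `T` of the spectators;
* `oneH6`: mean field and current of an object;
* **`exists_enG6`**: `En ≤ one body + densities + sources + sea + linear term + energy of the current`.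

The groups `GrOk`, the current `curI`, `CuOk` are the landed ones (`PLX/NUGC/ExpC`).
-/

set_option autoImplicit false
set_option linter.unusedSectionVars false

noncomputable section

open MeasureTheory Finset Filter Topology

namespace NUGC.PLX

open PHK
open NUO (Xo ht sp Tb)
open NUDispW (win)
open NUMF (l l_pos)
open NUSea (P)
open NUSea.PLX (Cur hd)
open NUSea.PLX.H0 (Inp IOk6 datO6 wO)

variable [NUSea.Sea]

/-! ### structures -/

/-- **what the exponent needs of the data.**  `κ`: the curve has size `m^(-κ)`; `k`: power of the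
logarithm in the mass of the curve; `W`: bound of the extra remainder; `CB`: mass of the densities of
the spectators -/
structure EnOk6 (e1 κ W CB : ℝ) (k m : ℕ) (I : Inp) (Q : Par6) {r : ℕ} (O : Fin r → Xo)
    {ι : Type} [Fintype ι] (T : ι → Sr) : Prop where
  ok : ∃ (dl ε M : ℝ) (e : ℝ → ℝ), IOk6 dl ε M ((1 - e1) * Tb (Real.log m)) e I Q ∧
    ε ≤ (m : ℝ) ^ (-κ) ∧ M ≤ Real.log m ^ k ∧ dl ≤ 3 * (m : ℝ) ^ (-κ)
  Tok : ∀ d, (T d).Ok
  sy : ∀ i d, Sym (obSr6 Q (O i)) (T d)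
  nu : ∀ a, I.ν a = muS T a
  tau : I.τD = tauS T
  mass : ∀ a, ∫ t, |I.ν a t| ≤ CB
  w0 : ∀ a t, |wO I a t| ≤ W

/-- mean field and current of the object `i` -/
def oneH6 (I : Inp) (Q : Par6) {r : ℕ} (O : Fin r → Xo) (h : ℝ → ℝ) (i : Fin r) : ℝ :=
  mfo6 I.s (parts6 Q (O i)) - 2 * Real.pi * wind6 (k6 (O i)) * h (ht (O i))

/-! ### the exponent -/

/-- **the exponent of a configuration with spectators**, the linear term and the energy of the current
kept -/
theorem exists_enG6 {Q : Par6} (hP : Ok6 Q) (hPG : PG6 (1 / 64) Q) {W : ℝ} (hW : 0 ≤ W) : ∃ K0 : ℝ, 0 ≤ K0 ∧ ∀ kap : ℝ, 0 < kap → ∀ κ CB : ℝ, 0 < κ →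
    0 ≤ CB → ∀ k : ℕ, ∃ (Cc : ℝ) (m0 : ℕ), ∀ m ≥ m0, ∀ e1 : ℝ, 0 < e1 → e1 ≤ 1 / 100 →
    ∀ (I : Inp) (r : ℕ) (O : Fin r → Xo) (ι : Type) [Fintype ι] (T : ι → Sr),
    EnOk6 e1 κ W CB k m I Q O T → (∀ t t', |curI I t - curI I t'| ≤ |t - t'|) →
    ∀ (δ : Type) [Fintype δ] (kp a φ τ : δ → ℝ) (Ψ : δ → ℂ → ℂ), GrOk CB I kp a φ τ Ψ →
      (datO6 I Q O).En ≤ (∑ i, oneH6 I Q O (curI I) i) + enC6 Q O +
        (∑ i, ∑ d, ES (obSr6 Q (O i)) (T d)) + 1 / 2 * (∑ d, ∑ d', ES (T d) (T d')) +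
        (∫ t : ℝ, P t * (I.s true * (I.A true t).re + I.s false * (I.A false t).re)) +
        (∑ a, ∫ t, I.s a * P t * I.B a t) -
        2 * (∑ d, φ d * curI I (τ d)) +
        NUCR.bil (hd (I.s true) (I.η true) (I.η1 true)) (hd (I.s true) (I.η true) (I.η1 true)) +
        K0 * r + kap * win univ (fun i => ht (O i)) + Cc := by
  obtain ⟨C, hC, H⟩ := NUSea.PLX.H0.En_cfgC6 (δ := 1 / 64) (by norm_num) (by norm_num)
  obtain ⟨K2, hK2, H2⟩ := NUSea.PLX.H0.exists_muphi_tot6 hP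
  obtain ⟨C3, hC3, H3⟩ := NUSea.PLX.H0.exists_linS
  refine ⟨2 * C + 2 * K2 * (2 + W) + 2, by positivity, ?_⟩
  intro kap hkap κ CB hκ hCB k
  obtain ⟨m0, hm0⟩ := exists_numC C (6 * K2 + 6 * CB * K2) hkap k hκ
  obtain ⟨m1, hm1⟩ := polylogC 4 (k + 2) hκ one_pos
  have hl := l_pos
  refine ⟨1 + CB + C3 * CB + C3 * (CB / (1 / 100)) + 2 * K2 + 2 * CB * (3 * K2 + W),
    max m0 m1, ?_⟩
  intro m hm e1 he1 he1' I r O ι _ T hE hL δ _ kp a φ τ Ψ hG
  obtain ⟨n1, n2, n3, n4, n5, n6, n7, n8⟩ := hm0 m ((le_max_left _ _).trans hm)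
  have n9 := hm1 m ((le_max_right _ _).trans hm)
  obtain ⟨mk, hmk⟩ : ∃ mk, mk = (m : ℝ) ^ (-κ) := ⟨_, rfl⟩
  obtain ⟨L, hLd⟩ : ∃ L, L = Real.log m := ⟨_, rfl⟩
  obtain ⟨dl, ε, M, e, hok, hε, hM, hdl⟩ := hE.ok
  rw [← hmk] at n2 n3 n4 n5 n6 n7 n8 n9 hε hdl
  rw [← hLd] at n1 n3 n4 n5 n6 n9 hM
  have hmk0 : 0 ≤ mk := by rw [hmk]; positivity
  have hC0 : 0 < C := by linarith
  have hK20 : 0 < K2 := by linarith
  have hr0 : (0 : ℝ) ≤ r := Nat.cast_nonneg r
  have hε0 : 0 ≤ ε := (hok.cur true).ε0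
  have hM0 : 0 ≤ M := (hok.cur true).M0 (hok.s0 true)
  have hTL : Tb (Real.log m) = 3 / 8 * L := by rw [hLd]; rfl
  obtain ⟨b, hb⟩ : ∃ b, b = (1 - e1) * Tb (Real.log m) := ⟨_, rfl⟩
  have hb0 : 0 ≤ b := hb ▸ hok.b0
  have hbL : b + 1 ≤ 2 * L := by
    rw [hb, hTL]
    nlinarith
  have hbL1 : b ≤ L := by
    rw [hb, hTL]
    nlinarith
  have hL0 : 0 ≤ L := by linarith
  have hMε : M * ε ≤ L ^ k * mk := mul_le_mul hM hε hε0 (by positivity)
  have hMε0 : 0 ≤ M * ε := mul_nonneg hM0 hε0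
  have hMε1 : M * ε ≤ 1 := hMε.trans n4
  have t7 : C * (b + 1) ^ 7 * ε ≤ 1 := by
    calc C * (b + 1) ^ 7 * ε ≤ C * (2 * L) ^ 7 * mk := by gcongr
      _ ≤ 1 := n3
  have t9 : C * (b + 1) ^ 9 * M ^ 2 * ε ≤ 1 := by
    calc C * (b + 1) ^ 9 * M ^ 2 * ε ≤ C * (2 * L) ^ 9 * (L ^ k) ^ 2 * mk := by gcongr
      _ = C * (2 * L) ^ 9 * L ^ (2 * k) * mk := by rw [← pow_mul, mul_comm k 2]
      _ ≤ 1 := n6
  have tb : b * (M * ε) ≤ 1 := by
    calc b * (M * ε) ≤ L * (L ^ k * mk) := by gcongr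
      _ = L ^ (k + 1) * mk := by ring
      _ ≤ 1 := n5
  have tb2 : (b + 1) ^ 2 * (M * ε) ≤ 1 := by
    calc (b + 1) ^ 2 * (M * ε) ≤ (2 * L) ^ 2 * (L ^ k * mk) := by gcongr
      _ = 4 * L ^ (k + 2) * mk := by ring
      _ ≤ 1 := n9
  -- the exponent of the data
  have hPB : ∀ a, Integrable fun t => P t * I.B a t := fun a => by
    obtain ⟨c, hc⟩ := hok.Bb a
    exact NUSea.PLX.H0.P_B_int (hok.Bc a) hc
  have hL' : ∀ t t', |I.s true * P t * I.η true t - I.s true * P t' * I.η true t'| ≤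
      1 * |t - t'| := fun t t' => by
    rw [one_mul]
    exact hL t t'
  have h1 := H ε M b 1 e I Q r O ι T hP hPG hok.s0 (hb ▸ hok.cur) hok.der hok.com hb0 t7
    zero_le_one hL' (fun a => ext_mono (by linarith) (hok.Ae a)) hPB hE.Tok hE.sy hE.nu hE.tau
  have h1' := (abs_le.1 h1).2
  -- one body
  have s1 : (∑ i, (mfo6 I.s (parts6 Q (O i)) -
      2 * Real.pi * (wind6 (k6 (O i)) * (I.s true * P (ht (O i)) * I.η true (ht (O i)))))) =
      ∑ i, oneH6 I Q O (curI I) i := by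
    refine sum_congr rfl fun i _ => ?_
    unfold oneH6 curI
    ring
  have s2 : 1 / 2 * (∑ i, ∑ k, ER6 Q (sp (O i) == sp (O k)) (k6 (O i)) (k6 (O k)) (ht (O i))
      (ht (O k))) = enC6 Q O := (cfg_energy6 hP O).symm
  -- the linear term
  have hη : ε + 1 / 100 ≤ l / 10 := by
    have h0 := hok.ε1
    have := Real.pi_gt_d2
    show ε + 1 / 100 ≤ Real.pi / 8 / 10
    linarith
  have s3 := (H3 (A := 1) (r := 1 / 100) hok.s0 (hok.ε1.trans (by norm_num)) (hb ▸ hok.cur) hok.der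
    hok.com hb0 (by norm_num) (by norm_num) hη hG.asy hG.diff hG.dA hG.lip hG.sum
    (hd_le (hok.der true) hL)).2
  rw [Complex.re_sum] at s3
  have s3' := (abs_le.1 s3).2
  have hsz : ∑ d, kp d ≤ CB := by
    refine (sum_le_sum fun d _ => ?_).trans hG.size
    have := abs_nonneg (a d)
    have := abs_nonneg (φ d)
    linarith
  have s3'' : (∑ d, kp d) * 1 + C3 * (∑ d, (|a d| + |φ d| + kp d)) * b * (M * ε) +
      C3 * (b + 1) ^ 2 * (CB / (1 / 100)) * (M * ε) ≤
      CB + C3 * CB + C3 * (CB / (1 / 100)) := by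
    have h2 : C3 * (∑ d, (|a d| + |φ d| + kp d)) * b * (M * ε) ≤ C3 * CB * 1 := by
      rw [mul_assoc (C3 * _)]
      exact mul_le_mul (mul_le_mul_of_nonneg_left hG.size (by linarith)) tb (by positivity)
        (by positivity)
    have h3 : C3 * (b + 1) ^ 2 * (CB / (1 / 100)) * (M * ε) ≤ C3 * (CB / (1 / 100)) := by
      have h4 : 0 ≤ C3 * (CB / (1 / 100)) := by positivity
      calc C3 * (b + 1) ^ 2 * (CB / (1 / 100)) * (M * ε) =
          C3 * (CB / (1 / 100)) * ((b + 1) ^ 2 * (M * ε)) := by ring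
        _ ≤ C3 * (CB / (1 / 100)) * 1 := mul_le_mul_of_nonneg_left tb2 h4
        _ = _ := by ring
    linarith
  -- the remainder
  have hwin0 : 0 ≤ win univ (fun i => ht (O i)) := NUDispW.win_nonneg _ _
  have hwin1 : win univ (fun i => ht (O i)) ≤ (r : ℝ) ^ 2 := by
    have := NUDispW.win_le_card_sq univ (fun i => ht (O i))
    rwa [card_univ, Fintype.card_fin] at this
  have hdl0 := hok.dl0
  have s4 : (∑ a, ∫ t, (datO6 I Q O).μ a t * (datO6 I Q O).φ a t) ≤
      (2 * K2 * (2 + W) + 1) * r + 2 * K2 + 2 * CB * (3 * K2 + W) +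
        kap * win univ (fun i => ht (O i)) := by
    have h0 : ∀ a, (∫ t, (datO6 I Q O).μ a t * (datO6 I Q O).φ a t) ≤
        (K2 * (2 + W) + 1 / 2) * r + K2 + CB * (3 * K2 + W) +
          kap / 2 * win univ (fun i => ht (O i)) := by
      intro a
      refine (le_abs_self _).trans (((H2 (O := O) hok a W (hE.w0 a)).2).trans ?_)
      have q1 : dl * win univ (fun i => ht (O i)) ≤ 1 + 3 * mk * win univ (fun i => ht (O i)) := by
        linarith [mul_le_mul_of_nonneg_right hdl hwin0]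
      have q2 : dl * r ≤ 1 + 3 * mk * r := by
        linarith [mul_le_mul_of_nonneg_right hdl hr0]
      have q3 : (∫ t, |I.ν a t|) * (K2 * (M * ε + dl * r) + W) ≤
          CB * (K2 * (1 + (1 + 3 * mk * r) + 1) + W) := by
        refine mul_le_mul (hE.mass a) ?_ (by positivity) hCB
        have : K2 * (M * ε + dl * r) ≤ K2 * (1 + (1 + 3 * mk * r) + 1) :=
          mul_le_mul_of_nonneg_left (by linarith) hK20.le
        linarith
      have q4 : K2 * (r * (M * ε + W) + dl * win univ (fun i => ht (O i))) ≤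
          K2 * (r * (2 + W) + (1 + 3 * mk * win univ (fun i => ht (O i)))) := by
        refine mul_le_mul_of_nonneg_left ?_ hK20.le
        have : (r : ℝ) * (M * ε + W) ≤ r * (2 + W) :=
          mul_le_mul_of_nonneg_left (by linarith) hr0
        linarith
      have q5 : K2 * (3 * mk * win univ (fun i => ht (O i))) ≤
          kap / 2 * win univ (fun i => ht (O i)) := by
        have h5 : 6 * K2 * mk ≤ kap := by
          have : 0 ≤ 6 * CB * K2 * mk := by positivity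
          linarith
        have h6 : K2 * (3 * mk) ≤ kap / 2 := by linarith
        calc K2 * (3 * mk * win univ (fun i => ht (O i))) =
            K2 * (3 * mk) * win univ (fun i => ht (O i)) := by ring
          _ ≤ _ := mul_le_mul_of_nonneg_right h6 hwin0
      have q6 : CB * (K2 * (3 * mk * r)) ≤ 1 / 2 * r := by
        have h5 : 6 * CB * K2 * mk ≤ 1 := by
          have : 0 ≤ 6 * K2 * mk := by positivity
          linarith
        have h6 : CB * (K2 * (3 * mk)) ≤ 1 / 2 := by linarith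
        calc CB * (K2 * (3 * mk * r)) = CB * (K2 * (3 * mk)) * r := by ring
          _ ≤ _ := mul_le_mul_of_nonneg_right h6 hr0
      linarith
    rw [Fintype.sum_bool]
    have g1 := h0 true
    have g2 := h0 false
    linarith
  have s5 : C * r * (M * ε + 1) ≤ 2 * C * r := by
    have : C * r * (M * ε + 1) ≤ C * r * (1 + 1) := mul_le_mul_of_nonneg_left (by linarith)
      (by positivity)
    linarith
  have e4 : (∑ d, φ d * (I.s true * P (τ d) * I.η true (τ d))) = ∑ d, φ d * curI I (τ d) := rfl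
  rw [s1, s2] at h1'
  rw [e4] at s3'
  linarith only [h1', s3', s3'', s4, s5, t9, hr0]

end NUGC.PLX

end
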