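import Pool.Agent.NURow.StageQ

/-!
# The class formula on other lines

`StripsB` = `StripsQ` with a strip `[al, ah]` for the quanta on A; `termQ_move`, **`ZobjQ_move`**: the
class formula does not depend on the lines in the strips, the line of the quanta on A included.
-/

set_option autoImplicit false
set_option linter.unusedSectionVars false

noncomputable section

open Complex MeasureTheory

namespace PHK

open NUP1 NUP1S NUP1.Bd NURow

variable {ι ι' : Type*} [Fintype ι] [Fintype ι']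

/-- the strips: quanta on A in `[al, ah]`, L in `[bl, bh]`, S in `[sl, sh]`, T in `[tl, th]`,
`[gl, gh]` contains both strips of the strings -/
structure StripsB (al ah bl bh sl sh tl th gl gh : ℝ) : Prop where
  s1 : gl ≤ sl
  s2 : sh ≤ gh
  t1 : gl ≤ tl
  t2 : th ≤ gh
  h0 : ah - al < l
  h1 : bh + l < al
  h2 : ah - bl < 3 * l
  h3 : bh - bl < l
  h4 : ah - gl < 2 * l
  h5 : gh - al < 3 * l
  h6 : bh - gl < 2 * l
  h7 : gh - bl < 3 * l
  h8 : gh - gl < 2 * l

theorem RO_stripsB {al ah bl bh sl sh tl th gl gh : ℝ} (hs : StripsB al ah bl bh sl sh tl th gl gh)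
    (c c' : Bool) (k k' : Option O3) {u v : ℝ}
    (hu : u ∈ Set.Icc (lo4 al bl sl tl k) (lo4 ah bh sh th k))
    (hv : v ∈ Set.Icc (lo4 al bl sl tl k') (lo4 ah bh sh th k')) :
    RO (c, ob4 k) (c', ob4 k') (u - v) := by
  have hl := l_pos
  obtain ⟨s1, s2, t1, t2, h0, h1, h2, h3, h4, h5, h6, h7, h8⟩ := hs
  obtain ⟨hu1, hu2⟩ := hu
  obtain ⟨hv1, hv2⟩ := hv
  have e0 : ∀ {u v : ℝ}, al ≤ u → u ≤ ah → al ≤ v → v ≤ ah → |u - v| < l := by
    intro u v a b c d
    rw [abs_lt]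
    constructor <;> linarith
  have e1 : ∀ {u v : ℝ}, al ≤ u → u ≤ ah → bl ≤ v → v ≤ bh → l < |u - v| ∧ |u - v| < 7 * l := by
    intro u v a b c d
    rw [abs_of_pos (by linarith)]
    constructor <;> linarith
  have e2 : ∀ {u v : ℝ}, bl ≤ u → u ≤ bh → al ≤ v → v ≤ ah → l < |u - v| ∧ |u - v| < 7 * l := by
    intro u v a b c d
    rw [abs_of_neg (by linarith)]
    constructor <;> linarith
  have e3 : ∀ {u v : ℝ}, bl ≤ u → u ≤ bh → bl ≤ v → v ≤ bh → |u - v| < l := by
    intro u v a b c d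
    rw [abs_lt]
    constructor <;> linarith
  have hcc : c = c' ∨ c ≠ c' := em _
  unfold RO
  rcases hcc with rfl | hc
  · simp only [if_true]
    rcases k with _ | k
    · rcases k' with _ | k'
      · exact Or.inl (e0 hu1 hu2 hv1 hv2)
      · cases k'
        · exact Or.inr (e1 hu1 hu2 hv1 hv2)
        · trivial
        · trivial
    · rcases k' with _ | k'
      · cases k
        · exact Or.inr (e2 hu1 hu2 hv1 hv2)
        · trivial
        · trivial
      · cases k <;> cases k' <;> first | trivial | exact Or.inl (e3 hu1 hu2 hv1 hv2)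
  · simp only [hc, if_false]
    rcases k with _ | k <;> rcases k' with _ | k' <;> (try cases k) <;> (try cases k') <;>
      simp only [lo4] at hu1 hu2 hv1 hv2 <;> simp only [ob4, ob3, Option.elim] <;>
      constructor <;> linarith

/-- one body functions of a species analytic on the strips, total charge `Q` -/
structure FamB (c : Bool) (al ah bl bh sl sh tl th κ Q : ℝ) (X : Option O3 → ℂ → ℂ) : Prop where
  meas : ∀ k, Measurable (X k)
  dec : ∀ k, DecOn (κ + 2 * Q * sc4 c k) (Set.Icc (lo4 al bl sl tl k) (lo4 ah bh sh th k)) (X k)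
  diff : ∀ k (z : ℂ), z.re ∈ Set.Icc (lo4 al bl sl tl k) (lo4 ah bh sh th k) →
    DifferentiableAt ℂ (X k) z

section

variable {al ah bl bh sl sh tl th gl gh κ : ℝ} {n n' : ℕ} {X Y : Option O3 → ℂ → ℂ}

/-- **moving the lines** of a joint integral -/
theorem Ig_moveB (hs : StripsB al ah bl bh sl sh tl th gl gh) (hκ : 0 < κ)
    (hX : FamB true al ah bl bh sl sh tl th κ ((n : ℝ) - n') X)
    (hY : FamB false al ah bl bh sl sh tl th κ ((n : ℝ) - n') Y)
    (k : ι → Option O3) (k' : ι' → Option O3) (hk : ∑ i, chg (ob4 (k i)) = n)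
    (hk' : ∑ i, chg (ob4 (k' i)) = n') (x y : ι → ℝ) (x' y' : ι' → ℝ)
    (hx : ∀ i, x i ∈ Set.Icc (lo4 al bl sl tl (k i)) (lo4 ah bh sh th (k i)))
    (hx' : ∀ i, x' i ∈ Set.Icc (lo4 al bl sl tl (k' i)) (lo4 ah bh sh th (k' i)))
    (hy : ∀ i, y i ∈ Set.Icc (lo4 al bl sl tl (k i)) (lo4 ah bh sh th (k i)))
    (hy' : ∀ i, y' i ∈ Set.Icc (lo4 al bl sl tl (k' i)) (lo4 ah bh sh th (k' i))) :
    Ig (oo (fun i => ob4 (k i)) (fun i => ob4 (k' i)))
      (Sum.elim (fun i => X (k i)) (fun i => Y (k' i))) (Sum.elim x x') =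
    Ig (oo (fun i => ob4 (k i)) (fun i => ob4 (k' i)))
      (Sum.elim (fun i => X (k i)) (fun i => Y (k' i))) (Sum.elim y y') := by
  refine shift_allQ (sum_scQ hk hk')
    (lo := Sum.elim (fun i => lo4 al bl sl tl (k i)) (fun i => lo4 al bl sl tl (k' i)))
    (hi := Sum.elim (fun i => lo4 ah bh sh th (k i)) (fun i => lo4 ah bh sh th (k' i)))
    hκ ?_ ?_ ?_ ?_ ?_ ?_ ?_
  · rintro (i | i)
    · exact hX.meas _
    · exact hY.meas _
  · rintro (i | i)
    · exact hx i
    · exact hx' i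
  · rintro (i | i)
    · exact hy i
    · exact hy' i
  · rintro (i | i)
    · exact hX.dec _
    · exact hY.dec _
  · rintro (i | i) _ z hz
    · exact (hX.diff _ z ⟨hz.1, hz.2⟩).continuousAt.continuousWithinAt
    · exact (hY.diff _ z ⟨hz.1, hz.2⟩).continuousAt.continuousWithinAt
  · rintro (i | i) _ z hz
    · exact (hX.diff _ z ⟨hz.1.le, hz.2.le⟩).differentiableWithinAt
    · exact (hY.diff _ z ⟨hz.1.le, hz.2.le⟩).differentiableWithinAt
  · rintro (a | a) (b | b) _ u hu v hv <;> exact Ok_of_RO (RO_stripsB hs _ _ _ _ hu hv)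

/-- integrability on all systems of lines in the strips -/
theorem integrable_stripsB (hs : StripsB al ah bl bh sl sh tl th gl gh) (hκ : 0 < κ)
    (hX : FamB true al ah bl bh sl sh tl th κ ((n : ℝ) - n') X)
    (hY : FamB false al ah bl bh sl sh tl th κ ((n : ℝ) - n') Y)
    (k : ι → Option O3) (k' : ι' → Option O3)
    (hk : ∑ i, chg (ob4 (k i)) = n) (hk' : ∑ i, chg (ob4 (k' i)) = n') (x : ι → ℝ) (x' : ι' → ℝ)
    (hx : ∀ i, x i ∈ Set.Icc (lo4 al bl sl tl (k i)) (lo4 ah bh sh th (k i)))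
    (hx' : ∀ i, x' i ∈ Set.Icc (lo4 al bl sl tl (k' i)) (lo4 ah bh sh th (k' i))) :
    Integrable (fun t => Fg (oo (fun i => ob4 (k i)) (fun i => ob4 (k' i)))
      (Sum.elim (fun i => X (k i)) (fun i => Y (k' i))) (pos (Sum.elim x x') t))
      (Measure.pi fun _ => volume) := by
  refine integrable_FgQ (sum_scQ hk hk') hκ ?_ ?_ ?_
  · rintro (i | i)
    · exact hX.meas _
    · exact hY.meas _
  · rintro (i | i)
    · refine (hX.dec (k i)).mono fun y hy => ?_
      rw [Set.mem_singleton_iff] at hy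
      rw [hy]
      exact hx i
    · refine (hY.dec (k' i)).mono fun y hy => ?_
      rw [Set.mem_singleton_iff] at hy
      rw [hy]
      exact hx' i
  · have hin : ∀ a : ι ⊕ ι', ∃ (c : Bool) (k0 : Option O3), oo (fun i => ob4 (k i))
        (fun i => ob4 (k' i)) a = (c, ob4 k0) ∧
        Sum.elim x x' a ∈ Set.Icc (lo4 al bl sl tl k0) (lo4 ah bh sh th k0) := by
      rintro (a | a)
      · exact ⟨true, k a, rfl, hx a⟩
      · exact ⟨false, k' a, rfl, hx' a⟩
    intro a b _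
    obtain ⟨c, k0, e0, h0⟩ := hin a
    obtain ⟨c', k1, e1, h1⟩ := hin b
    rw [e0, e1]
    exact Ok_of_RO (RO_stripsB hs _ _ _ _ h0 h1)

/-- the term of given objects as one joint integral -/
theorem termQ_eq_Ig (hs : StripsB al ah bl bh sl sh tl th gl gh) (hκ : 0 < κ)
    (hX : FamB true al ah bl bh sl sh tl th κ ((n : ℝ) - n') X)
    (hY : FamB false al ah bl bh sl sh tl th κ ((n : ℝ) - n') Y)
    {α : ℝ} (hα : α ∈ Set.Icc al ah) {p p' : ℕ} (k : Fin p → O3) (k' : Fin p' → O3)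
    (hk : ∑ i, c3 (k i) ≤ n) (hk' : ∑ i, c3 (k' i) ≤ n') (x : Fin p → ℝ) (x' : Fin p' → ℝ)
    (hx : ∀ i, x i ∈ Set.Icc (lo4 al bl sl tl (some (k i))) (lo4 ah bh sh th (some (k i))))
    (hx' : ∀ i, x' i ∈ Set.Icc (lo4 al bl sl tl (some (k' i))) (lo4 ah bh sh th (some (k' i)))) :
    termQ X Y α n n' k k' x x' =
      (((nA n' k').factorial : ℕ) : ℂ)⁻¹ * ((∏ i, wt (ob4 (kA (nA n' k') k' i))) *
        ((((nA n k).factorial : ℕ) : ℂ)⁻¹ * ((∏ i, wt (ob4 (kA (nA n k) k i))) *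
          Ig (oo (fun i => ob4 (kA (nA n k) k i)) (fun i => ob4 (kA (nA n' k') k' i)))
            (Sum.elim (fun i => X (kA (nA n k) k i)) (fun i => Y (kA (nA n' k') k' i)))
            (Sum.elim (Sum.elim (fun _ => α) x) (Sum.elim (fun _ => α) x'))))) := by
  have hch := sum_chg_kA n k hk
  have hch' := sum_chg_kA n' k' hk'
  have hx1 : ∀ i, Sum.elim (fun _ => α) x i ∈
      Set.Icc (lo4 al bl sl tl (kA (nA n k) k i)) (lo4 ah bh sh th (kA (nA n k) k i)) := by
    rintro (i | i)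
    · exact hα
    · exact hx i
  have hx2 : ∀ i, Sum.elim (fun _ => α) x' i ∈
      Set.Icc (lo4 al bl sl tl (kA (nA n' k') k' i)) (lo4 ah bh sh th (kA (nA n' k') k' i)) := by
    rintro (i | i)
    · exact hα
    · exact hx' i
  rw [Ig_canon X Y α _ _ k k' _ _ (integrable_stripsB hs hκ hX hY
      (kA (nA n k) k) (kA (nA n' k') k') hch hch' _ _ hx1 hx2),
    prod_wt_kA, prod_wt_kA]
  unfold termQ gas
  rw [← integral_const_mul, ← integral_const_mul, ← integral_const_mul, ← integral_const_mul,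
    ← integral_const_mul]
  refine integral_congr_ae (Filter.Eventually.of_forall fun t => ?_)
  simp only [wt]
  ring

/-- **the term of given objects does not depend on the lines** -/
theorem termQ_move (hs : StripsB al ah bl bh sl sh tl th gl gh) (hκ : 0 < κ)
    (hX : FamB true al ah bl bh sl sh tl th κ ((n : ℝ) - n') X)
    (hY : FamB false al ah bl bh sl sh tl th κ ((n : ℝ) - n') Y)
    {α α' : ℝ} (hα : α ∈ Set.Icc al ah) (hα' : α' ∈ Set.Icc al ah) {p p' : ℕ} (k : Fin p → O3)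
    (k' : Fin p' → O3) (hk : ∑ i, c3 (k i) ≤ n) (hk' : ∑ i, c3 (k' i) ≤ n') (x y : Fin p → ℝ)
    (x' y' : Fin p' → ℝ)
    (hx : ∀ i, x i ∈ Set.Icc (lo4 al bl sl tl (some (k i))) (lo4 ah bh sh th (some (k i))))
    (hx' : ∀ i, x' i ∈ Set.Icc (lo4 al bl sl tl (some (k' i))) (lo4 ah bh sh th (some (k' i))))
    (hy : ∀ i, y i ∈ Set.Icc (lo4 al bl sl tl (some (k i))) (lo4 ah bh sh th (some (k i))))
    (hy' : ∀ i, y' i ∈ Set.Icc (lo4 al bl sl tl (some (k' i))) (lo4 ah bh sh th (some (k' i)))) :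
    termQ X Y α n n' k k' x x' = termQ X Y α' n n' k k' y y' := by
  have hin : ∀ {a : ℝ}, a ∈ Set.Icc al ah → ∀ (z : Fin p → ℝ), (∀ i, z i ∈
      Set.Icc (lo4 al bl sl tl (some (k i))) (lo4 ah bh sh th (some (k i)))) →
      ∀ i, Sum.elim (fun _ => a) z i ∈
        Set.Icc (lo4 al bl sl tl (kA (nA n k) k i)) (lo4 ah bh sh th (kA (nA n k) k i)) := by
    rintro a ha z hz (i | i)
    · exact ha
    · exact hz i
  have hin' : ∀ {a : ℝ}, a ∈ Set.Icc al ah → ∀ (z : Fin p' → ℝ), (∀ i, z i ∈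
      Set.Icc (lo4 al bl sl tl (some (k' i))) (lo4 ah bh sh th (some (k' i)))) →
      ∀ i, Sum.elim (fun _ => a) z i ∈
        Set.Icc (lo4 al bl sl tl (kA (nA n' k') k' i)) (lo4 ah bh sh th (kA (nA n' k') k' i)) := by
    rintro a ha z hz (i | i)
    · exact ha
    · exact hz i
  rw [termQ_eq_Ig hs hκ hX hY hα k k' hk hk' x x' hx hx',
    termQ_eq_Ig hs hκ hX hY hα' k k' hk hk' y y' hy hy',
    Ig_moveB hs hκ hX hY (kA (nA n k) k) (kA (nA n' k') k') (sum_chg_kA n k hk)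
      (sum_chg_kA n' k' hk') _ (Sum.elim (fun _ => α') y) _ (Sum.elim (fun _ => α') y')
      (hin hα x hx) (hin' hα x' hx') (hin hα' y hy) (hin' hα' y' hy')]

/-- **the class formula does not depend on the lines** -/
theorem ZobjQ_move (hs : StripsB al ah bl bh sl sh tl th gl gh) (hκ : 0 < κ)
    (hX : FamB true al ah bl bh sl sh tl th κ ((n : ℝ) - n') X)
    (hY : FamB false al ah bl bh sl sh tl th κ ((n : ℝ) - n') Y)
    {α α' : ℝ} (hα : α ∈ Set.Icc al ah) (hα' : α' ∈ Set.Icc al ah)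
    (lnX lnX' : ∀ p p' : ℕ, (Fin p → O3) → (Fin p' → O3) → Fin p → ℝ)
    (lnY lnY' : ∀ p p' : ℕ, (Fin p → O3) → (Fin p' → O3) → Fin p' → ℝ)
    (hlX : ∀ p p' k k' i,
      lnX p p' k k' i ∈ Set.Icc (lo4 al bl sl tl (some (k i))) (lo4 ah bh sh th (some (k i))))
    (hlX' : ∀ p p' k k' i,
      lnX' p p' k k' i ∈ Set.Icc (lo4 al bl sl tl (some (k i))) (lo4 ah bh sh th (some (k i))))
    (hlY : ∀ p p' k k' i,
      lnY p p' k k' i ∈ Set.Icc (lo4 al bl sl tl (some (k' i))) (lo4 ah bh sh th (some (k' i))))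
    (hlY' : ∀ p p' k k' i,
      lnY' p p' k k' i ∈ Set.Icc (lo4 al bl sl tl (some (k' i))) (lo4 ah bh sh th (some (k' i)))) :
    ZobjQ X Y α n n' lnX lnY = ZobjQ X Y α' n n' lnX' lnY' := by
  unfold ZobjQ
  refine Finset.sum_congr rfl fun p' _ => Finset.sum_congr rfl fun p _ => ?_
  congr 1
  refine Finset.sum_congr rfl fun k' _ => Finset.sum_congr rfl fun k _ => ?_
  split_ifs with h
  · exact termQ_move hs hκ hX hY hα hα' k k' h.2 h.1 _ _ _ _ (hlX p p' k k') (hlY p p' k k')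
      (hlX' p p' k k') (hlY' p p' k k')
  · rfl

end

end PHK

end
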