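import Pool.Agent.PHK.F0Ln6
import Pool.Agent.PHK.LnMove
import Pool.Agent.PB.ChnO

/-!
# (P): from the straight lines of the first Ward identity to the lines of (P)

* `BoxZ Z P κ Q`: decay and holomorphy of the one body functions on the boxes `[loB P, hiB P]`;
* `LnB L P x0`: the lines `L` of the objects in the boxes, the strings in `[-11/8 l, -5/4 l]`, the
  line `x0` of the quanta in `[51/100 l, 3/5 l]`; `lnB_fl`: the landed lines `fl P0`, `ParP P0`;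
* `F0Ok_box`: integrability of all words; `F0_box`: `F0 .. 1 = ZobjQ ..`;
* **`ZobjQ_box`**, **`F0_br`**: `F0 x0 n n' L Z 1 = ZobjQ (Z true) (Z false) (51/100 l) .. (lX6 P) (lY6 P)`.
-/

set_option autoImplicit false
set_option linter.unusedSectionVars false

noncomputable section

open Complex MeasureTheory Finset

namespace PHK

open NUP1 NUO NUP1S NUP1S.Ab NURow
open NUP1.Bd (Ob)
open PBI (Stt F0 F0Ok AllW cl Fz IzOk F0_one sum_sc_cl fl)

/-- **the class on the boxes** -/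
structure BoxZ (Z : Stt) (P : Par6) (κ : ℝ) (Q : ℤ) : Prop where
  m : ∀ s k, Measurable (Z s k)
  dec : ∀ s o, DecOn (κ + 2 * Q * sc (s, ob4 o)) (Set.Icc (loB P o) (hiB P o)) (Z s o)
  dif : ∀ s o (u : ℂ), u.re ∈ Set.Icc (loB P o) (hiB P o) → DifferentiableAt ℂ (Z s o) u

/-- left ends of the strips of the lines of the first Ward identity -/
def loC : O3 → ℝ
  | .L => -(5 / 4 * l)
  | .S => -(11 / 8 * l)
  | .T => -(1 / 2 * l)

/-- **the lines of the first Ward identity** -/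
structure LnB (L : PBI.Lns) (P : Par6) (x0 : ℝ) : Prop where
  a : 51 / 100 * l ≤ x0
  b : x0 ≤ 3 / 5 * l
  X : ∀ p p' k k' i, L.X p p' k k' i ∈ Set.Icc (loC (k i)) (hiB P (some (k i)))
  Y : ∀ p p' k k' i, L.Y p p' k k' i ∈ Set.Icc (loC (k' i)) (hiB P (some (k' i)))

section strips

variable {P : Par6}

theorem stripsC1 (h : GoodP6 P) : StripsB (51 / 100 * l) (3 / 5 * l) (-(5 / 4 * l))
    ((1 - P.jL) * l) (-(11 / 8 * l)) (-(5 / 4 * l)) (-(1 / 2 * l)) (-(1 / 2 * l)) (-(11 / 8 * l))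
    (-(1 / 2 * l)) := by
  have hl := Bd.l_pos
  have a4 := h.L2
  constructor <;> nlinarith

theorem stripsC2 (h : GoodP6 P) : StripsB (51 / 100 * l) (51 / 100 * l) (-(5 / 4 * l))
    ((1 - P.jL) * l) (-((1 + P.e) * l)) (-(5 / 4 * l)) (-(1 / 2 * l)) (-(1 / 2 * l))
    (-((1 + P.e) * l)) (-(1 / 2 * l)) := by
  have hl := Bd.l_pos
  have a4 := h.L2
  have a6 := h.e13
  have a7 := h.e45
  constructor <;> nlinarith

theorem lo_le (he : 3 / 8 ≤ P.e) (k : O3) : loB P (some k) ≤ loC k := by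
  have hl := Bd.l_pos
  cases k
  · exact le_rfl
  · show -((1 + P.e) * l) ≤ -(11 / 8 * l)
    nlinarith
  · exact le_rfl

end strips

variable {P : Par6} {Z : Stt} {κ : ℝ} {Q : ℤ} {n n' : ℕ}

theorem BoxZ.fam1 (hZ : BoxZ Z P κ Q) (he : 3 / 8 ≤ P.e) (hn : (n : ℤ) - n' = Q) (s : Bool) :
    FamB s (51 / 100 * l) (3 / 5 * l) (-(5 / 4 * l)) ((1 - P.jL) * l) (-(11 / 8 * l))
      (-(5 / 4 * l)) (-(1 / 2 * l)) (-(1 / 2 * l)) κ ((n : ℝ) - n') (Z s) := by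
  have hl := Bd.l_pos
  have hQ : (n : ℝ) - n' = Q := by
    rw [← hn]
    push_cast
    ring
  have hsub : ∀ k, Set.Icc (lo4 (51 / 100 * l) (-(5 / 4 * l)) (-(11 / 8 * l)) (-(1 / 2 * l)) k)
      (lo4 (3 / 5 * l) ((1 - P.jL) * l) (-(5 / 4 * l)) (-(1 / 2 * l)) k) ⊆
      Set.Icc (loB P k) (hiB P k) := by
    intro k
    rcases k with _ | (_ | _ | _)
    · exact Set.Icc_subset_Icc le_rfl (show 3 / 5 * l ≤ l by linarith)
    · exact Set.Icc_subset_Icc le_rfl le_rfl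
    · exact Set.Icc_subset_Icc (show -((1 + P.e) * l) ≤ -(11 / 8 * l) by nlinarith) le_rfl
    · exact Set.Icc_subset_Icc le_rfl le_rfl
  refine ⟨hZ.m s, fun k => ?_, fun k z hz => hZ.dif s k z (hsub k hz)⟩
  rw [hQ]
  exact (hZ.dec s k).mono (hsub k)

theorem BoxZ.fam2 (hZ : BoxZ Z P κ Q) (hn : (n : ℤ) - n' = Q) (s : Bool) :
    FamB s (51 / 100 * l) (51 / 100 * l) (-(5 / 4 * l)) ((1 - P.jL) * l) (-((1 + P.e) * l))
      (-(5 / 4 * l)) (-(1 / 2 * l)) (-(1 / 2 * l)) κ ((n : ℝ) - n') (Z s) := by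
  have hl := Bd.l_pos
  have hQ : (n : ℝ) - n' = Q := by
    rw [← hn]
    push_cast
    ring
  have hsub : ∀ k, Set.Icc (lo4 (51 / 100 * l) (-(5 / 4 * l)) (-((1 + P.e) * l)) (-(1 / 2 * l)) k)
      (lo4 (51 / 100 * l) ((1 - P.jL) * l) (-(5 / 4 * l)) (-(1 / 2 * l)) k) ⊆
      Set.Icc (loB P k) (hiB P k) := by
    intro k
    rcases k with _ | (_ | _ | _)
    · exact Set.Icc_subset_Icc le_rfl (show 51 / 100 * l ≤ l by linarith)
    · exact Set.Icc_subset_Icc le_rfl le_rfl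
    · exact Set.Icc_subset_Icc le_rfl le_rfl
    · exact Set.Icc_subset_Icc le_rfl le_rfl
  refine ⟨hZ.m s, fun k => ?_, fun k z hz => hZ.dif s k z (hsub k hz)⟩
  rw [hQ]
  exact (hZ.dec s k).mono (hsub k)

theorem loC_lo4 (a : ℝ) (k : O3) :
    loC k = lo4 a (-(5 / 4 * l)) (-(11 / 8 * l)) (-(1 / 2 * l)) (some k) := by
  cases k <;> rfl

theorem hiB_lo4 (a : ℝ) (k : O3) :
    hiB P (some k) = lo4 a ((1 - P.jL) * l) (-(5 / 4 * l)) (-(1 / 2 * l)) (some k) := by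
  cases k <;> rfl

theorem loB_lo4 (a : ℝ) (k : O3) :
    loB P (some k) = lo4 a (-(5 / 4 * l)) (-((1 + P.e) * l)) (-(1 / 2 * l)) (some k) := by
  cases k <;> rfl

/-- the lines of (P) lie in the boxes -/
theorem lnP_box (h : GoodP6 P) (hj : P.jL ≤ 9 / 4) (k : O3) :
    lnP P k ∈ Set.Icc (loB P (some k)) (hiB P (some k)) := by
  have hl := Bd.l_pos
  have a6 := h.e13
  cases k
  · exact ⟨show -(5 / 4 * l) ≤ (1 - P.jL) * l by nlinarith, le_rfl⟩
  · exact ⟨le_rfl, show -((1 + P.e) * l) ≤ -(5 / 4 * l) by nlinarith⟩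
  · exact ⟨le_rfl, le_rfl⟩

/-- **integrability of all words** -/
theorem F0Ok_box {L : PBI.Lns} {x0 : ℝ} (h : GoodP6 P) (he : 3 / 8 ≤ P.e) (hL : LnB L P x0)
    (hκ : 0 < κ) (hZ : BoxZ Z P κ Q) (hn : (n : ℤ) - n' = Q) :
    F0Ok x0 n n' L Z fun _ _ _ _ => 1 := by
  intro p p' k k' h1 h2
  unfold IzOk Fz
  simp only [one_mul]
  have hl := Bd.l_pos
  have hQ : (n : ℝ) - n' = Q := by
    rw [← hn]
    push_cast
    ring
  have hin : ∀ i, L.all x0 n n' k k' i ∈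
      Set.Icc (lo4 (51 / 100 * l) (-(5 / 4 * l)) (-(11 / 8 * l)) (-(1 / 2 * l)) (cl n n' k k' i).2)
      (lo4 (3 / 5 * l) ((1 - P.jL) * l) (-(5 / 4 * l)) (-(1 / 2 * l)) (cl n n' k k' i).2) := by
    rintro ((i | i) | (i | i))
    · exact ⟨hL.a, hL.b⟩
    · have := hL.X p p' k k' i
      rw [loC_lo4 (51 / 100 * l), hiB_lo4 (3 / 5 * l)] at this
      exact this
    · exact ⟨hL.a, hL.b⟩
    · have := hL.Y p p' k k' i
      rw [loC_lo4 (51 / 100 * l), hiB_lo4 (3 / 5 * l)] at this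
      exact this
  refine integrable_FgQ (Q := (Q : ℝ)) (by rw [sum_sc_cl h1 h2, hQ]) hκ (fun i => hZ.m _ _)
    (fun i => ?_) (fun a b _ => Ok_of_RO (RO_stripsB (stripsC1 h) _ _ _ _ (hin a) (hin b)))
  have h3 := (hZ.fam1 he hn (cl n n' k k' i).1).dec (cl n n' k k' i).2
  rw [hQ] at h3
  refine h3.mono fun y hy => ?_
  rw [Set.mem_singleton_iff] at hy
  rw [hy]
  exact hin i

/-- the insertion `1` -/
theorem F0_box {L : PBI.Lns} {x0 : ℝ} (h : GoodP6 P) (he : 3 / 8 ≤ P.e) (hL : LnB L P x0)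
    (hκ : 0 < κ) (hZ : BoxZ Z P κ Q) (hn : (n : ℤ) - n' = Q) :
    F0 x0 n n' L Z (fun _ _ _ _ => 1) = ZobjQ (Z true) (Z false) x0 n n' L.X L.Y :=
  F0_one (F0Ok_box h he hL hκ hZ hn)

/-- **moving the lines to the lines of (P)** -/
theorem ZobjQ_box {L : PBI.Lns} {x0 : ℝ} (h : GoodP6 P) (he : 3 / 8 ≤ P.e) (hj : P.jL ≤ 9 / 4)
    (hL : LnB L P x0) (hκ : 0 < κ) (hZ : BoxZ Z P κ Q) (hn : (n : ℤ) - n' = Q) :
    ZobjQ (Z true) (Z false) x0 n n' L.X L.Y =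
      ZobjQ (Z true) (Z false) (51 / 100 * l) n n' (lX6 P) (lY6 P) := by
  have hl := Bd.l_pos
  have hC : ∀ (k : O3) (x : ℝ), x ∈ Set.Icc (loC k) (hiB P (some k)) →
      x ∈ Set.Icc (loB P (some k)) (hiB P (some k)) := fun k x hx => ⟨(lo_le he k).trans hx.1, hx.2⟩
  rw [ZobjQ_move (stripsC1 h) hκ (hZ.fam1 he hn true) (hZ.fam1 he hn false) (α := x0)
    (α' := 51 / 100 * l) ⟨hL.a, hL.b⟩ ⟨le_rfl, by linarith⟩ L.X L.X L.Y L.Y
    (fun p p' k k' i => by rw [← loC_lo4, ← hiB_lo4]; exact hL.X p p' k k' i)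
    (fun p p' k k' i => by rw [← loC_lo4, ← hiB_lo4]; exact hL.X p p' k k' i)
    (fun p p' k k' i => by rw [← loC_lo4, ← hiB_lo4]; exact hL.Y p p' k k' i)
    (fun p p' k k' i => by rw [← loC_lo4, ← hiB_lo4]; exact hL.Y p p' k k' i)]
  exact ZobjQ_move (stripsC2 h) hκ (hZ.fam2 hn true) (hZ.fam2 hn false) (α := 51 / 100 * l)
    (α' := 51 / 100 * l) ⟨le_rfl, le_rfl⟩ ⟨le_rfl, le_rfl⟩ L.X (lX6 P) L.Y (lY6 P)
    (fun p p' k k' i => by rw [← loB_lo4, ← hiB_lo4]; exact hC _ _ (hL.X p p' k k' i))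
    (fun p p' k k' i => by rw [← loB_lo4, ← hiB_lo4]; exact lnP_box h hj (k i))
    (fun p p' k k' i => by rw [← loB_lo4, ← hiB_lo4]; exact hC _ _ (hL.Y p p' k k' i))
    (fun p p' k k' i => by rw [← loB_lo4, ← hiB_lo4]; exact lnP_box h hj (k' i))

/-- **the bridge**: the functional of the first Ward identity = the class formula on the lines of
(P) -/
theorem F0_br {L : PBI.Lns} {x0 : ℝ} (h : GoodP6 P) (he : 3 / 8 ≤ P.e) (hj : P.jL ≤ 9 / 4)
    (hL : LnB L P x0) (hκ : 0 < κ) (hZ : BoxZ Z P κ Q) (hn : (n : ℤ) - n' = Q) :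
    F0 x0 n n' L Z (fun _ _ _ _ => 1) =
      ZobjQ (Z true) (Z false) (51 / 100 * l) n n' (lX6 P) (lY6 P) := by
  rw [F0_box h he hL hκ hZ hn, ZobjQ_box h he hj hL hκ hZ hn]

/-- the landed lines -/
theorem lnB_fl {P0 : NUO.Par} (hP0 : NURow.ParP P0) (hj : P.jL ≤ 9 / 4) :
    LnB (fl P0) P (3 / 5 * l) := by
  have hl := Bd.l_pos
  have key : ∀ (k : O3) (x : ℝ), x ∈ Set.Icc (NURow.loP (some k)) (NURow.hiP (some k)) →
      x ∈ Set.Icc (loC k) (hiB P (some k)) := by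
    rintro k x ⟨a, b⟩
    cases k
    · change -(5 / 4) * l ≤ x at a
      change x ≤ -(5 / 4) * l at b
      exact ⟨show -(5 / 4 * l) ≤ x by linarith, show x ≤ (1 - P.jL) * l by nlinarith⟩
    · change -(11 / 8) * l ≤ x at a
      change x ≤ -(5 / 4) * l at b
      exact ⟨show -(11 / 8 * l) ≤ x by linarith, show x ≤ -(5 / 4 * l) by linarith⟩
    · change -(1 / 2) * l ≤ x at a
      change x ≤ -(1 / 2) * l at b
      exact ⟨show -(1 / 2 * l) ≤ x by linarith, show x ≤ -(1 / 2 * l) by linarith⟩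
  exact ⟨by linarith, le_rfl, fun p p' k k' i => key _ _ ((NURow.lnA_P hP0).hX p p' k k' i),
    fun p p' k k' i => key _ _ ((NURow.lnA_P hP0).hY p p' k k' i)⟩

/-- the words of the lines lie in the boxes -/
theorem LnB.word {L : PBI.Lns} {x0 : ℝ} (he : 3 / 8 ≤ P.e) (hL : LnB L P x0) (n n' : ℕ) :
    AllW x0 n n' L fun c x => ∀ i, x i ∈ Set.Icc (loB P (c i).2) (hiB P (c i).2) := by
  have hl := Bd.l_pos
  have h0 : x0 ∈ Set.Icc (loB P none) (hiB P none) :=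
    ⟨hL.a, show x0 ≤ l by linarith [hL.b]⟩
  intro p p' k k' _ _ i
  rcases i with (i | i) | (i | i)
  · exact h0
  · exact ⟨(lo_le he _).trans (hL.X p p' k k' i).1, (hL.X p p' k k' i).2⟩
  · exact h0
  · exact ⟨(lo_le he _).trans (hL.Y p p' k k' i).1, (hL.Y p p' k k' i).2⟩

end PHK

end
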