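import Pool.Agent.PHK.DecZ6
import Pool.Agent.PLX.PB.F0W
import Pool.Agent.PLX.PB.ClsOk

/-!
# (P): the functional of the straight lines

* `lnOk_fl6`: no pole of the pair functions on the lines, start line `0 ≤ x0 < (1 - e) l`;
* **`F0Ok_dec6`**: integrability of all words from the decay `DecZ6` (any charge `Q = n - n'`);
* `zBd_word6`: the bounds `ZBd`;
* **`F0_ZobjQ6`**: `F0 .. 1 = ZobjQ .. (lX6 P) (lY6 P)`.
-/

set_option autoImplicit false
set_option linter.unusedSectionVars false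

noncomputable section

open Complex MeasureTheory Finset

namespace PHK

open NUP1 NUO NUP1S NUP1S.Ab NUP1S.AbG NUP1S.AbC NURow
open NUP1.Bd (wt Ob)
open PBI (Stt F0 F0Ok AllW cl Fz IzOk F0_one sum_sc_cl Lns)
open PBI.PLX (ZBd)
open PBC.PLX (Ok_symm Ok_small)

/-- the lines of the quanta and of the objects -/
def lnQ (P : Par6) (x0 : ℝ) : Option O3 → ℝ
  | none => x0
  | some o => lnP P o

section ok

variable {P : Par6} {x0 : ℝ}

/-- two objects -/
theorem ok_oo6 (h : GoodP6 P) (s s' : Bool) (o o' : O3) :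
    Ok (s, ob4 (some o)) (s', ob4 (some o')) (lnP P o - lnP P o') := by
  have hl := Bd.l_pos
  have a1 := h.j1
  have a1' := h.j1e
  have a2 := h.ej2
  have a3 := h.j2
  have a4 := h.L2
  have a5 := h.Lj
  have a6 := h.e13
  have a7 := h.e45
  refine Ok_small ?_ ?_
  · rw [abs_lt]
    cases o <;> cases o' <;> simp only [lnP] <;> constructor <;> nlinarith
  · intro _ h2 h3
    cases o <;> cases o' <;> first
      | exact absurd rfl h2
      | exact absurd rfl h3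
      | (show |lnP P .L - lnP P .L| < NUP1.l
         rw [sub_self, abs_zero]
         exact hl)

/-- quantum and object -/
theorem ok_qo6 (h : GoodP6 P) (hx : 0 ≤ x0) (hx0 : x0 < (1 - P.e) * NUP1.l) (s s' : Bool) (o : O3) :
    Ok (s, ob4 none) (s', ob4 (some o)) (x0 - lnP P o) := by
  have hl := Bd.l_pos
  have a4 := h.L2
  have a5 := h.Lj
  have a5' := h.j1e
  have a6 := h.e13
  have a7 := h.e45
  cases o
  · show Ok (s, .A) (s', .L) (x0 - (1 - P.jL) * NUP1.l)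
    have h1 : Ok (s, Ob.A) (s', Ob.A) (x0 - (1 - P.jL) * NUP1.l) :=
      okA (by nlinarith) (by nlinarith) (Or.inr (by nlinarith))
    exact h1
  · show Ok (s, .A) (s', .S) (x0 - -((1 + P.e) * NUP1.l))
    exact okS (by nlinarith) (by nlinarith) (ne_of_lt (by nlinarith))
  · show Ok (s, .A) (s', .S) (x0 - -(1 / 2 * NUP1.l))
    exact okS (by nlinarith) (by nlinarith) (ne_of_lt (by nlinarith))

/-- all pairs -/
theorem ok_all6 (h : GoodP6 P) (hx : 0 ≤ x0) (hx0 : x0 < (1 - P.e) * NUP1.l) (s s' : Bool)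
    (o o' : Option O3) : Ok (s, ob4 o) (s', ob4 o') (lnQ P x0 o - lnQ P x0 o') := by
  have hl := Bd.l_pos
  rcases o with _ | o <;> rcases o' with _ | o'
  · show Ok (s, .A) (s', .A) (x0 - x0)
    rw [sub_self]
    exact okA (by linarith) (by linarith) (Or.inl (by rw [abs_zero]; exact hl))
  · exact ok_qo6 h hx hx0 s s' o'
  · have h1 := Ok_symm (ok_qo6 (s := s') (s' := s) h hx hx0 (o := o))
    rwa [neg_sub] at h1
  · exact ok_oo6 h s s' o o'

theorem all_eq6 (n n' : ℕ) {p p' : ℕ} (k : Fin p → O3) (k' : Fin p' → O3)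
    (i : (Fin (nA n k) ⊕ Fin p) ⊕ (Fin (nA n' k') ⊕ Fin p')) :
    (fl6 P).all x0 n n' k k' i = lnQ P x0 (cl n n' k k' i).2 := by
  rcases i with (i | i) | (i | i) <;> rfl

/-- **no pole on the lines** -/
theorem lnOk_word6 (h : GoodP6 P) (hx : 0 ≤ x0) (hx0 : x0 < (1 - P.e) * NUP1.l) (n n' : ℕ)
    {p p' : ℕ} (k : Fin p → O3) (k' : Fin p' → O3) :
    PBI.LnOk (cl n n' k k') ((fl6 P).all x0 n n' k k') := by
  intro a b _
  rw [all_eq6, all_eq6]
  exact ok_all6 h hx hx0 _ _ _ _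

theorem lnOk_fl6 (h : GoodP6 P) (hx : 0 ≤ x0) (hx0 : x0 < (1 - P.e) * NUP1.l) (n n' : ℕ) :
    AllW x0 n n' (fl6 P) fun c x => PBI.LnOk c x :=
  fun _ _ k k' _ _ => lnOk_word6 h hx hx0 n n' k k'

end ok

/-! ### decay -/

/-- a larger rate -/
theorem DecOn.rate_le {κ κ' : ℝ} (h : κ ≤ κ') {K : Set ℝ} {f : ℂ → ℂ} (hf : DecOn κ' K f) :
    DecOn κ K f := by
  obtain ⟨D, hD⟩ := hf
  refine ⟨|D|, fun z hz => (hD z hz).trans ?_⟩
  refine mul_le_mul (le_abs_self D) (Real.exp_le_exp.2 ?_) (Real.exp_pos _).le (abs_nonneg _)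
  have := mul_le_mul_of_nonneg_right h (abs_nonneg z.im)
  linarith

variable {P : Par6} {x0 : ℝ} {n n' : ℕ}

/-- the decay of the one body functions on the lines of a word -/
theorem dec_word6 {Z : Stt} {κ κ' q0 : ℝ} (hx0 : x0 ≤ NUP1.l) (hZ : DecZ6 Z P x0 κ κ' q0)
    (s : Bool) (o : Option O3) : DecOn (κ + 2 * q0 * sc (s, ob4 o)) {lnQ P x0 o} (Z s o) := by
  rcases o with _ | o
  · obtain ⟨D, hD⟩ := hZ.A s
    exact ⟨D, fun z hz => hD z (by
      rw [Set.mem_singleton_iff] at hz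
      rw [hz]
      exact ⟨le_rfl, hx0⟩)⟩
  · cases o
    · exact hZ.L s
    · obtain ⟨N, hN⟩ := exists_nat_ge (κ + 2 * q0 * sc (s, ob4 (some .S)))
      exact DecOn.rate_le hN (hZ.S s N)
    · exact hZ.T s

/-- **integrability of all words** -/
theorem F0Ok_dec6 {Z : Stt} {κ κ' : ℝ} {Q : ℤ} (h : GoodP6 P) (hx : 0 ≤ x0)
    (hx0 : x0 < (1 - P.e) * NUP1.l) (hκ : 0 < κ)
    (hm : ∀ s k, Measurable (Z s k)) (hZ : DecZ6 Z P x0 κ κ' Q) (hn : (n : ℤ) - n' = Q) :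
    F0Ok x0 n n' (fl6 P) Z fun _ _ _ _ => 1 := by
  intro p p' k k' h1 h2
  unfold IzOk Fz
  simp only [one_mul]
  have hl := Bd.l_pos
  have he := h.e13
  have hQ : (n : ℝ) - n' = Q := by
    rw [← hn]
    push_cast
    ring
  refine integrable_FgQ (Q := (Q : ℝ)) (by rw [sum_sc_cl h1 h2, hQ]) hκ (fun i => hm _ _)
    (fun i => ?_) (lnOk_word6 h hx hx0 n n' k k')
  rw [all_eq6]
  exact dec_word6 (by nlinarith) hZ _ _

/-- the bounds `ZBd` -/
theorem zBd_word6 {Z : Stt} {κ κ' : ℝ} {Q : ℤ} (hx0 : x0 ≤ NUP1.l) (hZ : DecZ6 Z P x0 κ κ' Q)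
    {p p' : ℕ} (k : Fin p → O3) (k' : Fin p' → O3) (h1 : ∑ i, c3 (k' i) ≤ n')
    (h2 : ∑ i, c3 (k i) ≤ n) (hn : (n : ℤ) - n' = Q) :
    ∃ D : ℝ, ZBd (cl n n' k k') ((fl6 P).all x0 n n' k k') κ D Z := by
  choose D hD using fun i => dec_word6 hx0 hZ (cl n n' k k' i).1 (cl n n' k k' i).2
  have hQ : (n : ℝ) - n' = Q := by
    rw [← hn]
    push_cast
    ring
  refine ⟨∑ i, |D i|, fun i t => ?_⟩
  rw [all_eq6]
  have h3 := hD i (vl (lnQ P x0 (cl n n' k k' i).2) t) (by simp [vl])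
  rw [sum_sc_cl h1 h2, hQ]
  refine (h3.trans (le_of_eq ?_)).trans (mul_le_mul_of_nonneg_right ((le_abs_self _).trans
    (Finset.single_le_sum (f := fun i => |D i|) (fun i _ => abs_nonneg _) (Finset.mem_univ i)))
    (Real.exp_pos _).le)
  have e : (vl (lnQ P x0 (cl n n' k k' i).2) t).im = t := by simp [vl]
  rw [e]
  rfl

/-- **the insertion `1`: the sum of stage 2 on the lines of (P)** -/
theorem F0_ZobjQ6 {Z : Stt} {κ κ' : ℝ} {Q : ℤ} (h : GoodP6 P) (hx : 0 ≤ x0)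
    (hx0 : x0 < (1 - P.e) * NUP1.l) (hκ : 0 < κ)
    (hm : ∀ s k, Measurable (Z s k)) (hZ : DecZ6 Z P x0 κ κ' Q) (hn : (n : ℤ) - n' = Q) :
    F0 x0 n n' (fl6 P) Z (fun _ _ _ _ => 1) =
      NURow.ZobjQ (Z true) (Z false) x0 n n' (lX6 P) (lY6 P) :=
  F0_one (F0Ok_dec6 h hx hx0 hκ hm hZ hn)

end PHK

end
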