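import Pool.Agent.PB.ObKer

/-!
# The pair kernels of the first Ward identity on the strips of the particle hole form

The strip dependent part of `PB/ObKer` with
* quanta and holes in `[3/25 l, 221/200 l]`, `L` in `[-63/50 l, -l]`, `S` in `[-73/50 l, -31/25 l]`,
  `T` in `[-13/25 l, -12/25 l]`; the field on `[1/10 l, 31/20 l]`;
* the distance to the zeros of the sines `l / 100`, rate of the product decomposition `7`.
-/

set_option autoImplicit false
set_option linter.unusedSectionVars false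
set_option linter.unusedVariables false

noncomputable section

open Complex MeasureTheory Set

namespace PBOb

open NUP1 NUP1.Bd NUP1S PBI PB

/-- left ends of the strips -/
def lo6 : Option O3 → ℝ
  | none => 3 / 25 * l
  | some .L => -(63 / 50) * l
  | some .S => -(73 / 50) * l
  | some .T => -(13 / 25) * l

/-- right ends of the strips -/
def hi6 : Option O3 → ℝ
  | none => 221 / 200 * l
  | some .L => -l
  | some .S => -(31 / 25) * l
  | some .T => -(12 / 25) * l

/-- the strip of the heads of a kind -/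
def Str6 (k : Option O3) : Set ℂ := {z | lo6 k ≤ z.re ∧ z.re ≤ hi6 k}

/-- the strip of the field -/
def Fst6 : Set ℂ := {u | 1 / 10 * l ≤ u.re ∧ u.re ≤ 31 / 20 * l}

theorem pf_mem6 {k : Option O3} {z : ℂ} (h : z ∈ Str6 k) : pf k z ∈ Fst6 := by
  have hl := Bd.l_pos
  obtain ⟨h1, h2⟩ := h
  show _ ≤ (pf k z).re ∧ (pf k z).re ≤ _
  rw [pf_re]
  rcases k with _ | (_ | _ | _) <;> simp only [lo6, hi6, sh, shO, ob4, ob3, Option.elim] at * <;>
    constructor <;> (clear * - hl h1 h2; linarith)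

/-- away from the multiples of `π` -/
structure Awy6 (w : ℝ) : Prop where
  ge : 1 / 100 * l ≤ |w|
  le : |w| ≤ 799 / 100 * l

theorem Awy6.mk' {w : ℝ} (h : (1 / 100 * l ≤ w ∧ w ≤ 799 / 100 * l) ∨
    (1 / 100 * l ≤ -w ∧ -w ≤ 799 / 100 * l)) : Awy6 w := by
  have hl := Bd.l_pos
  rcases h with h | h
  · exact ⟨by rw [abs_of_pos (by (clear * - hl h; linarith [h.1]))]; exact h.1,
      by rw [abs_of_pos (by (clear * - hl h; linarith [h.1]))]; exact h.2⟩
  · exact ⟨by rw [abs_of_neg (by (clear * - hl h; linarith [h.1]))]; exact h.1,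
      by rw [abs_of_neg (by (clear * - hl h; linarith [h.1]))]; exact h.2⟩

theorem oth_far6 {b c : Bool × Option O3} {z z' : ℂ} (hz : z ∈ Str6 b.2) (hz' : z' ∈ Str6 c.2) :
    ∀ p ∈ oth (co b) (co c), Awy6 ((z - z').re + p.1) := by
  have hl := Bd.l_pos
  obtain ⟨s, k⟩ := b
  obtain ⟨s', k'⟩ := c
  obtain ⟨h1, h2⟩ := hz
  obtain ⟨h3, h4⟩ := hz'
  rw [sub_re]
  generalize z.re = x at *
  generalize z'.re = y at *
  unfold oth co
  by_cases hc : s = s'
  · simp only [hc, if_true]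
    rcases k with _ | (_ | _ | _) <;> rcases k' with _ | (_ | _ | _) <;>
      simp only [lo6, hi6, ob4, ob3, Option.elim, oS] at * <;>
      simp only [List.mem_cons, List.not_mem_nil, or_false, forall_eq_or_imp, forall_eq] <;>
      (repeat' apply And.intro) <;> refine Awy6.mk' ?_ <;>
      first
        | exact Or.inl ⟨by (clear * - hl h1 h4; linarith), by (clear * - hl h2 h3; linarith)⟩
        | exact Or.inr ⟨by (clear * - hl h2 h3; linarith), by (clear * - hl h1 h4; linarith)⟩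
  · simp only [hc, if_false]
    rcases k with _ | (_ | _ | _) <;> rcases k' with _ | (_ | _ | _) <;>
      simp only [lo6, hi6, ob4, ob3, Option.elim, oC] at * <;>
      simp only [List.mem_cons, List.not_mem_nil, or_false, forall_eq_or_imp, forall_eq] <;>
      (repeat' apply And.intro) <;> refine Awy6.mk' ?_ <;>
      first
        | exact Or.inl ⟨by (clear * - hl h1 h4; linarith), by (clear * - hl h2 h3; linarith)⟩
        | exact Or.inr ⟨by (clear * - hl h2 h3; linarith), by (clear * - hl h1 h4; linarith)⟩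

/-- the lower bound of the sines -/
def dl6 : ℝ := Real.sin (1 / 100 * l)

theorem dl_pos6 : 0 < dl6 := by
  have hl := Bd.l_pos
  refine Real.sin_pos_of_pos_of_lt_pi (by positivity) ?_
  unfold l
  clear * -
  linarith [Real.pi_pos]

theorem Awy6.sin_ge {w : ℝ} (h : Awy6 w) : dl6 ≤ |Real.sin w| := by
  have hl := Bd.l_pos
  have e : 799 / 100 * l = Real.pi - 1 / 100 * l := by
    unfold l
    ring
  have key := PBV.sin_ge_of (a := 1 / 100 * l) (x := |w|) (by positivity) h.ge (by rw [← e]; exact h.le)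
  unfold dl6
  rcases abs_cases w with ⟨h1, -⟩ | ⟨h1, -⟩
  · rw [h1] at key
    exact key.trans (le_abs_self _)
  · rw [h1, Real.sin_neg] at key
    exact key.trans (neg_le_abs _)

theorem norm_oth_le6 {b c : Bool × Option O3} {z z' : ℂ} (hz : z ∈ Str6 b.2) (hz' : z' ∈ Str6 c.2) :
    ‖LL (oth (co b) (co c)) (z - z')‖ ≤ 26 / dl6 := by
  refine (norm_LL_le dl_pos6 fun p hp => (oth_far6 hz hz' p hp).sin_ge).trans ?_
  exact div_le_div_of_nonneg_right (am_oth _ _) dl_pos6.le

theorem Awy6.sin_ne {w : ℝ} (h : Awy6 w) : Real.sin w ≠ 0 := by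
  intro h0
  have := h.sin_ge
  rw [h0, abs_zero] at this
  linarith [dl_pos6]

theorem mem_Str6 {k : Option O3} {x : ℝ} (h1 : lo6 k ≤ x) (h2 : x ≤ hi6 k) (t : ℝ) :
    vl x t ∈ Str6 k := by
  show lo6 k ≤ (vl x t).re ∧ (vl x t).re ≤ hi6 k
  have e : (vl x t).re = x := by simp [vl]
  rw [e]
  exact ⟨h1, h2⟩

/-- **the strips contain the landed strips of the lines** -/
theorem mem_Str_P6 {k : Option O3} {x : ℝ} (h : x ∈ Set.Icc (NURow.loP k) (NURow.hiP k)) (t : ℝ) :
    vl x t ∈ Str6 k := by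
  have hl := Bd.l_pos
  obtain ⟨h1, h2⟩ := h
  show lo6 k ≤ (vl x t).re ∧ (vl x t).re ≤ hi6 k
  have e : (vl x t).re = x := by simp [vl]
  rw [e]
  rcases k with _ | (_ | _ | _) <;> simp only [lo6, hi6, NURow.loP, NURow.hiP] at * <;>
    constructor <;> (clear * - hl h1 h2; linarith)

/-! ## the kernel -/

/-- the open strip where the field is analytic -/
def FS6 : Set ℂ := {u | 1 / 20 * l < u.re ∧ u.re < 8 / 5 * l}

theorem isOpen_FS6 : IsOpen FS6 :=
  (isOpen_lt continuous_const continuous_re).inter (isOpen_lt continuous_re continuous_const)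

theorem Fst_sub_FS6 : Fst6 ⊆ FS6 := by
  have hl := Bd.l_pos
  rintro u ⟨h1, h2⟩
  exact ⟨by (clear * - hl h1; linarith), by (clear * - hl h2; linarith)⟩

/-- **the field**: analytic, exponentially close to its limits -/
structure FX6 (X : ℂ → ℂ) (xp xm : ℂ) (M : ℝ) : Prop where
  dif : DifferentiableOn ℂ X FS6
  der : ∀ u ∈ Fst6, ‖deriv X u‖ ≤ M * Real.exp (-4 * |u.im|)
  xp' : ∀ u ∈ Fst6, 0 ≤ u.im → ‖xp - X u‖ ≤ M * Real.exp (-4 * |u.im|)
  xm' : ∀ u ∈ Fst6, u.im ≤ 0 → ‖xm - X u‖ ≤ M * Real.exp (-4 * |u.im|)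

theorem re_sub_lt6 {u v : ℂ} (hu : u ∈ Fst6) (hv : v ∈ Fst6) : |(u - v).re| ≤ Real.pi / 2 := by
  have hl := Bd.l_pos
  have e : Real.pi = 8 * l := by unfold l; ring
  rw [sub_re, e, abs_le]
  constructor <;> (clear * - hl hu hv; linarith [hu.1, hu.2, hv.1, hv.2])

/-- analytic in the second variable -/
theorem aK_diff6 {X : ℂ → ℂ} (hX : DifferentiableOn ℂ X FS6) {b c : Bool × Option O3} {z z' : ℂ}
    (hz : z ∈ Str6 b.2) (hz' : z' ∈ Str6 c.2) : DifferentiableAt ℂ (aK X b c z) z' := by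
  have hp := Real.pi_pos
  have hu := pf_mem6 hz
  have hv := pf_mem6 hz'
  have h0 : DifferentiableAt ℂ (fun z' : ℂ => pf c.2 z') z' := by
    unfold pf
    fun_prop
  have h1 : DifferentiableAt ℂ (fun z' : ℂ => rg X (pf b.2 z) (pf c.2 z')) z' :=
    (rg_diff isOpen_FS6 hX (Fst_sub_FS6 hu) (Fst_sub_FS6 hv)
      (lt_of_le_of_lt (re_sub_lt6 hu hv) (by linarith))).comp z' h0
  have h2 : DifferentiableAt ℂ (fun z' : ℂ => X (pf c.2 z')) z' :=
    ((hX _ (Fst_sub_FS6 hv)).differentiableAt (isOpen_FS6.mem_nhds (Fst_sub_FS6 hv))).comp z' h0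
  have h3 : DifferentiableAt ℂ (fun z' : ℂ => LL (oth (co b) (co c)) (z - z')) z' := by
    have h4 := LL_diff (L := oth (co b) (co c)) (z := z - z')
      fun p hp => (oth_far6 hz hz' p hp).sin_ne
    exact h4.comp z' ((differentiableAt_const z).sub differentiableAt_id)
  unfold aK
  exact ((h1.const_mul _).add (((differentiableAt_const _).sub h2).mul h3)).const_mul _

/-! ## near bounds -/

section bounds
variable {X : ℂ → ℂ} {xp xm : ℂ} {M : ℝ}

theorem FX6.M_nonneg (h : FX6 X xp xm M) : 0 ≤ M := by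
  have hl := Bd.l_pos
  have h1 := (norm_nonneg _).trans (h.der (l : ℂ) ⟨by rw [ofReal_re]; linarith,
    by rw [ofReal_re]; linarith⟩)
  exact nonneg_of_mul_nonneg_left h1 (Real.exp_pos _)

/-- the divided difference of the field -/
theorem FX6.dslope_le (h : FX6 X xp xm M) {u v : ℂ} (hu : u ∈ Fst6) (hv : v ∈ Fst6)
    (hd : |u.im - v.im| ≤ 1) : ‖dslope X u v‖ ≤
      M * (Real.exp 2 * (Real.exp (-2 * |u.im|) * Real.exp (-2 * |v.im|))) := by
  have hM := h.M_nonneg
  rcases eq_or_ne v u with rfl | hne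
  · rw [dslope_same]
    refine (h.der v hv).trans (mul_le_mul_of_nonneg_left (exp_mid (by simp) ?_) hM)
    exact Set.left_mem_uIcc
  · have hconv : Convex ℝ ({w : ℂ | 1 / 10 * l ≤ w.re ∧ w.re ≤ 31 / 20 * l} ∩
        {w : ℂ | w.im ∈ Set.uIcc u.im v.im}) := by
      refine Convex.inter ?_ ?_
      · have : {w : ℂ | 1 / 10 * l ≤ w.re ∧ w.re ≤ 31 / 20 * l} =
            Complex.reLm ⁻¹' (Set.Icc (1 / 10 * l) (31 / 20 * l)) := by
          ext w
          simp
        rw [this]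
        exact (convex_Icc _ _).linear_preimage _
      · have : {w : ℂ | w.im ∈ Set.uIcc u.im v.im} = Complex.imLm ⁻¹' (Set.uIcc u.im v.im) := by
          ext w
          simp
        rw [this]
        exact (convex_uIcc _ _).linear_preimage _
    have hu' : u ∈ ({w : ℂ | 1 / 10 * l ≤ w.re ∧ w.re ≤ 31 / 20 * l} ∩
        {w : ℂ | w.im ∈ Set.uIcc u.im v.im}) := ⟨hu, Set.left_mem_uIcc⟩
    have hv' : v ∈ ({w : ℂ | 1 / 10 * l ≤ w.re ∧ w.re ≤ 31 / 20 * l} ∩
        {w : ℂ | w.im ∈ Set.uIcc u.im v.im}) := ⟨hv, Set.right_mem_uIcc⟩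
    have key := hconv.norm_image_sub_le_of_norm_deriv_le (𝕜 := ℂ) (f := X)
      (C := M * (Real.exp 2 * (Real.exp (-2 * |u.im|) * Real.exp (-2 * |v.im|))))
      (fun w hw => (h.dif w (Fst_sub_FS6 hw.1)).differentiableAt
        (isOpen_FS6.mem_nhds (Fst_sub_FS6 hw.1)))
      (fun w hw => (h.der w hw.1).trans
        (mul_le_mul_of_nonneg_left (exp_mid hd hw.2) hM))
      hu' hv'
    rw [dslope_of_ne _ hne, slope_def_field, norm_div, div_le_iff₀ (norm_pos_iff.2 (sub_ne_zero.2 hne))]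
    exact key

theorem FX6.sub_le (h : FX6 X xp xm M) {u v : ℂ} (hu : u ∈ Fst6) (hv : v ∈ Fst6)
    (hd : |u.im - v.im| ≤ 1) : ‖X u - X v‖ ≤
      (‖xp - xm‖ + 2 * M) * (Real.exp 2 * (Real.exp (-2 * |u.im|) * Real.exp (-2 * |v.im|))) := by
  have hM := h.M_nonneg
  have hJ := norm_nonneg (xp - xm)
  set E := Real.exp 2 * (Real.exp (-2 * |u.im|) * Real.exp (-2 * |v.im|)) with hE
  have hE0 : 0 < E := by positivity
  have e1 : Real.exp (-4 * |u.im|) ≤ E := exp_mid hd Set.left_mem_uIcc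
  have e2 : Real.exp (-4 * |v.im|) ≤ E := exp_mid hd Set.right_mem_uIcc
  have m1 := mul_le_mul_of_nonneg_left e1 hM
  have m2 := mul_le_mul_of_nonneg_left e2 hM
  have m3 : 0 ≤ ‖xp - xm‖ * E := by positivity
  -- opposite signs
  have opp : (0 ≤ u.im ∧ v.im ≤ 0) ∨ (u.im ≤ 0 ∧ 0 ≤ v.im) → 1 ≤ E := by
    intro ho
    have h1 : |u.im| + |v.im| = |u.im - v.im| := by
      rcases ho with ⟨a, b⟩ | ⟨a, b⟩
      · rw [abs_of_nonneg a, abs_of_nonpos b, abs_of_nonneg (by linarith)]
        ring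
      · rw [abs_of_nonpos a, abs_of_nonneg b, abs_of_nonpos (by linarith)]
        ring
    rw [hE, ← Real.exp_add, ← Real.exp_add]
    refine Real.one_le_exp ?_
    linarith
  rcases le_total 0 u.im with a | a <;> rcases le_total 0 v.im with b | b
  · have e : X u - X v = (xp - X v) - (xp - X u) := by ring
    rw [e]
    refine (norm_sub_le _ _).trans ?_
    have := h.xp' u hu a
    have := h.xp' v hv b
    nlinarith
  · have e : X u - X v = (xm - X v) - (xp - X u) + (xp - xm) := by ring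
    rw [e]
    refine (norm_add_le _ _).trans (le_trans (add_le_add_left (norm_sub_le _ _) _) ?_)
    have := h.xp' u hu a
    have := h.xm' v hv b
    have h1 := mul_le_mul_of_nonneg_left (opp (Or.inl ⟨a, b⟩)) hJ
    nlinarith
  · have e : X u - X v = (xp - X v) - (xm - X u) - (xp - xm) := by ring
    rw [e]
    refine (norm_sub_le _ _).trans (le_trans (add_le_add_left (norm_sub_le _ _) _) ?_)
    have := h.xm' u hu a
    have := h.xp' v hv b
    have h1 := mul_le_mul_of_nonneg_left (opp (Or.inr ⟨a, b⟩)) hJ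
    nlinarith
  · have e : X u - X v = (xm - X v) - (xm - X u) := by ring
    rw [e]
    refine (norm_sub_le _ _).trans ?_
    have := h.xm' u hu a
    have := h.xm' v hv b
    nlinarith

/-- the constant of the near bound -/
def cN6 : ℝ := Real.exp 2 * (8 + 52 / dl6)

theorem cN_nonneg6 : 0 ≤ cN6 := by
  have := dl_pos6
  unfold cN6
  positivity

/-- **near bound** -/
theorem norm_aK_near6 (h : FX6 X xp xm M) {b c : Bool × Option O3} {z z' : ℂ} (hz : z ∈ Str6 b.2)
    (hz' : z' ∈ Str6 c.2) (hd : |z.im - z'.im| ≤ 1) : ‖aK X b c z z'‖ ≤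
      cN6 * (‖xp - xm‖ + M) * (Real.exp (-2 * |z.im|) * Real.exp (-2 * |z'.im|)) := by
  have hM := h.M_nonneg
  have hJ := norm_nonneg (xp - xm)
  have hdl := dl_pos6
  have hu := pf_mem6 hz
  have hv := pf_mem6 hz'
  have hd' : |(pf b.2 z).im - (pf c.2 z').im| ≤ 1 := by rwa [pf_im, pf_im]
  have h1 := h.dslope_le hu hv hd'
  have h2 := h.sub_le hu hv hd'
  rw [pf_im, pf_im] at h1 h2
  set F := Real.exp (-2 * |z.im|) * Real.exp (-2 * |z'.im|) with hF
  have hF0 : 0 < F := by positivity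
  have h3 : ‖wc (pf b.2 z - pf c.2 z')‖ ≤ 4 :=
    norm_wc_le (re_sub_lt6 hu hv) (by rw [sub_im]; exact hd')
  have h4 := norm_oth_le6 (b := b) (c := c) hz hz'
  have h5 := abs_m0 (co b) (co c)
  have he := Real.exp_pos 2
  unfold aK rg
  rw [norm_mul, norm_I, one_mul]
  refine (norm_add_le _ _).trans ?_
  rw [norm_mul, norm_mul, norm_mul, norm_real, Real.norm_eq_abs]
  have a1 : |m0 (co b) (co c)| * (‖dslope X (pf b.2 z) (pf c.2 z')‖ *
      ‖wc (pf b.2 z - pf c.2 z')‖) ≤ 2 * ((M * (Real.exp 2 * F)) * 4) := by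
    apply mul_le_mul h5 _ (by positivity) (by norm_num)
    exact mul_le_mul h1 h3 (norm_nonneg _) (by positivity)
  have a2 : ‖X (pf b.2 z) - X (pf c.2 z')‖ * ‖LL (oth (co b) (co c)) (z - z')‖ ≤
      ((‖xp - xm‖ + 2 * M) * (Real.exp 2 * F)) * (26 / dl6) :=
    mul_le_mul h2 h4 (norm_nonneg _) (by positivity)
  refine (add_le_add a1 a2).trans ?_
  have e : cN6 * (‖xp - xm‖ + M) * F - (2 * ((M * (Real.exp 2 * F)) * 4) +
      ((‖xp - xm‖ + 2 * M) * (Real.exp 2 * F)) * (26 / dl6)) =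
      Real.exp 2 * F * (8 * ‖xp - xm‖ + 26 / dl6 * ‖xp - xm‖) := by
    unfold cN6
    ring
  have : 0 ≤ Real.exp 2 * F * (8 * ‖xp - xm‖ + 26 / dl6 * ‖xp - xm‖) := by (clear * - F hdl; positivity)
  clear * - F e this
  linarith

end bounds

/-! ## the local part of the kernel -/

theorem sgU_im6 {u : ℂ} (hu : u ∈ FS6) : |(-I * (u - l)).im| ≤ Real.pi / 8 := by
  have hl := Bd.l_pos
  rw [(sgU_arg u).2, abs_le]
  have e : Real.pi / 8 = l := rfl
  rw [e]
  constructor <;> linarith [hu.1, hu.2]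

theorem sgU_diff6 {u : ℂ} (hu : u ∈ FS6) : DifferentiableAt ℂ sgU u := by
  have h1 := NX.differentiableAt_sgC (sgU_im6 hu)
  exact h1.comp u (by fun_prop)

theorem FX6.plt {X : ℂ → ℂ} {xp xm : ℂ} {M : ℝ} (h : FX6 X xp xm M) {u : ℂ} (hu : u ∈ Fst6) :
    NX.Plt xp xm M 2 (X u) (sgU u) u.im := by
  have key := NX.Plt.mk_sgC (xp := xp) (xm := xm) (M := M) (x := X u) (z := -I * (u - l))
    (sgU_im6 (Fst_sub_FS6 hu)) (by rw [(sgU_arg u).1]; exact h.xp' u hu)
    (by rw [(sgU_arg u).1]; exact h.xm' u hu)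
  rw [(sgU_arg u).1] at key
  exact key

/-- the constant of the local part -/
def cL6 : ℝ := cN6 + 2 * (2 * 2) * (24 * (2 + 2) ^ 2 + 2 * 104)

theorem cL_nonneg6 : 0 ≤ cL6 := by
  have := cN_nonneg6
  unfold cL6
  positivity

/-- **the bound of the local part, all kinds** -/
theorem norm_lK_le6 {X : ℂ → ℂ} {xp xm : ℂ} {M : ℝ} (h : FX6 X xp xm M) {b c : Bool × Option O3}
    {z z' : ℂ} (hz : z ∈ Str6 b.2) (hz' : z' ∈ Str6 c.2) : ‖lK X xp xm b c z z'‖ ≤
      cL6 * (‖xp - xm‖ + M) * (Real.exp (-2 * |z.im|) * Real.exp (-2 * |z'.im|)) := by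
  have hM := h.M_nonneg
  have hJ := norm_nonneg (xp - xm)
  have hcN := cN_nonneg6
  have p1 := h.plt (pf_mem6 hz)
  have p2 := h.plt (pf_mem6 hz')
  rw [pf_im] at p1 p2
  obtain ⟨q1, q2⟩ := abs_sc (co b)
  obtain ⟨q3, q4⟩ := abs_sc (co c)
  have hq : ‖2 * (qb b * qb c)‖ ≤ 2 * (2 * 2) := by
    unfold qb
    rw [norm_mul, norm_mul, norm_real, norm_real, Real.norm_eq_abs, Real.norm_eq_abs,
      Complex.norm_ofNat]
    exact mul_le_mul_of_nonneg_left (mul_le_mul q2 q4 (abs_nonneg _) (by norm_num)) (by norm_num)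
  set F := Real.exp (-2 * |z.im|) * Real.exp (-2 * |z'.im|) with hF
  have hF0 : 0 < F := by positivity
  have hG : 0 ≤ (‖xp - xm‖ + M) * F := by positivity
  unfold lK pK
  rcases le_or_gt |z.im - z'.im| 1 with hd | hd
  · have h1 := norm_aK_near6 h hz hz' hd
    have h2 := NX.norm_plat_near p1 p2 hd
    rw [← hF] at h1 h2
    refine (norm_sub_le _ _).trans ?_
    rw [norm_mul]
    have h3 := mul_le_mul hq h2 (norm_nonneg _) (by norm_num)
    refine (add_le_add h1 h3).trans ?_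
    unfold cL6
    clear * - F hG
    nlinarith
  · -- far
    have hq0 : (sc (co b) * sc (co c) : ℝ) ≠ 0 := by
      apply mul_ne_zero
      · intro h0
        rw [h0, abs_zero] at q1
        linarith
      · intro h0
        rw [h0, abs_zero] at q3
        linarith
    have hqc : 2 * (qb b * qb c) ≠ 0 := by
      unfold qb
      refine mul_ne_zero two_ne_zero ?_
      rw [← ofReal_mul]
      exact_mod_cast hq0
    have hne : z.im ≠ z'.im := by
      intro e
      rw [e, sub_self, abs_zero] at hd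
      linarith
    have hne' : (z - z').im ≠ 0 := by
      rw [sub_im]
      exact sub_ne_zero.2 hne
    obtain ⟨κ, hκ⟩ : ∃ κ : ℂ, κ = I * lz (co b) (co c) (z - z') / (2 * (qb b * qb c)) := ⟨_, rfl⟩
    have e1 : aK X b c z z' = 2 * (qb b * qb c) * ((X (pf b.2 z) - X (pf c.2 z')) * κ) := by
      have e0 : ∀ T x L : ℂ, T ≠ 0 → x * L = T * (x * (L / T)) := by
        intro T x L hT
        field_simp
      rw [aK_eq X b c hne, hκ]
      exact e0 _ _ _ hqc
    have hsm : ((sm (zs (co b) (co c)) : ℝ) : ℂ) = 2 * (qb b * qb c) := by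
      rw [sm_zs]
      unfold qb
      push_cast
      ring
    have ham := am_zs (co b) (co c)
    have hqn : 2 ≤ ‖2 * (qb b * qb c)‖ := by
      unfold qb
      rw [norm_mul, norm_mul, norm_real, norm_real, Real.norm_eq_abs, Real.norm_eq_abs,
        Complex.norm_ofNat]
      clear * - q1 q3
      nlinarith
    have k1 : z'.im + 1 ≤ z.im → ‖κ - 1‖ ≤ 104 * Real.exp (-2 * |z.im - z'.im|) := by
      intro ht
      have h1 := LL_far (L := zs (co b) (co c)) (z := z - z') (by rw [sub_im]; linarith)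
      rw [hsm, ← lz_eq _ _ hne', sub_im] at h1
      have e2 : κ - 1 = (I * lz (co b) (co c) (z - z') - 2 * (qb b * qb c)) / (2 * (qb b * qb c)) := by
        rw [hκ, sub_div, div_self hqc]
      rw [e2, norm_div, div_le_iff₀ (by linarith), abs_of_nonneg (by linarith : 0 ≤ z.im - z'.im)]
      refine h1.trans ?_
      have h0 := Real.exp_pos (-2 * (z.im - z'.im))
      calc am (zs (co b) (co c)) * (4 * Real.exp (-2 * (z.im - z'.im)))
          ≤ 26 * (4 * Real.exp (-2 * (z.im - z'.im))) :=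
            mul_le_mul_of_nonneg_right ham (by positivity)
        _ = 104 * Real.exp (-2 * (z.im - z'.im)) * 1 := by ring
        _ ≤ _ := mul_le_mul_of_nonneg_left (by linarith) (by positivity)
    have k2 : z.im + 1 ≤ z'.im → ‖κ + 1‖ ≤ 104 * Real.exp (-2 * |z.im - z'.im|) := by
      intro ht
      have h1 := LL_far' (L := zs (co b) (co c)) (z := z - z') (by rw [sub_im]; linarith)
      rw [hsm, ← lz_eq _ _ hne', sub_im] at h1
      have e2 : κ + 1 = (I * lz (co b) (co c) (z - z') + 2 * (qb b * qb c)) / (2 * (qb b * qb c)) := by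
        rw [hκ, add_div, div_self hqc]
      have e3 : -2 * |z.im - z'.im| = 2 * (z.im - z'.im) := by
        rw [abs_of_nonpos (by linarith)]
        ring
      rw [e2, norm_div, div_le_iff₀ (by linarith), e3]
      refine h1.trans ?_
      have h0 := Real.exp_pos (2 * (z.im - z'.im))
      calc am (zs (co b) (co c)) * (4 * Real.exp (2 * (z.im - z'.im)))
          ≤ 26 * (4 * Real.exp (2 * (z.im - z'.im))) :=
            mul_le_mul_of_nonneg_right ham (by positivity)
        _ = 104 * Real.exp (2 * (z.im - z'.im)) * 1 := by ring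
        _ ≤ _ := mul_le_mul_of_nonneg_left (by linarith) (by positivity)
    have key := NX.norm_loc (D := 0) p1 p2 (by norm_num) le_rfl k1 k2 (fun h3 => by linarith)
    rw [← hF] at key
    rw [e1, ← mul_sub, norm_mul]
    refine (mul_le_mul hq key (norm_nonneg _) (by norm_num)).trans ?_
    unfold cL6
    clear * - F hcN hG
    nlinarith

/-- analytic in the second variable -/
theorem lK_diff6 {X : ℂ → ℂ} (hX : DifferentiableOn ℂ X FS6) (xp xm : ℂ) {b c : Bool × Option O3}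
    {z z' : ℂ} (hz : z ∈ Str6 b.2) (hz' : z' ∈ Str6 c.2) :
    DifferentiableAt ℂ (lK X xp xm b c z) z' := by
  have hv := pf_mem6 hz'
  have h0 : DifferentiableAt ℂ (fun z' : ℂ => pf c.2 z') z' := by
    unfold pf
    fun_prop
  have h1 : DifferentiableAt ℂ (fun z' : ℂ => X (pf c.2 z')) z' :=
    ((hX _ (Fst_sub_FS6 hv)).differentiableAt (isOpen_FS6.mem_nhds (Fst_sub_FS6 hv))).comp z' h0
  have h2 : DifferentiableAt ℂ (fun z' : ℂ => sgU (pf c.2 z')) z' :=
    (sgU_diff6 (Fst_sub_FS6 hv)).comp z' h0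
  have h3 : DifferentiableAt ℂ (pK X xp xm b c z) z' := by
    unfold pK NX.plat NX.be
    exact (((((differentiableAt_const _).add ((h2).const_mul _)).add
      ((((differentiableAt_const _).sub h1).add (h2.const_mul _)).mul_const _)).sub
      ((h2.const_mul _).const_mul _)).const_mul _)
  exact (aK_diff6 hX hz hz').sub h3

/-! ## product decomposition -/

/-- the second factor -/
def Bf6 (σ y s : ℝ) (z' : ℂ) : ℂ := PBV.bE 7 σ (-y) s (-I * z')

theorem norm_Af_le6 {X : ℂ → ℂ} {xp xm : ℂ} {M : ℝ} (h : FX6 X xp xm M) {b c : Bool × Option O3}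
    {y : ℝ} (hy : y = lo6 c.2 ∨ y = hi6 c.2) (s : ℝ) {z : ℂ} (hz : z ∈ Str6 b.2) :
    ‖Af X xp xm b c y s z‖ ≤
      cL6 * (‖xp - xm‖ + M) * (Real.exp (-2 * |z.im|) * Real.exp (-2 * |s|)) := by
  have hl := Bd.l_pos
  have hle : lo6 c.2 ≤ hi6 c.2 := by
    rcases c.2 with _ | (_ | _ | _) <;> simp only [lo6, hi6] <;> (clear * - hl; linarith)
  have e1 : (vl y s).re = y := by simp [vl]
  have e2 : (vl y s).im = s := by simp [vl]
  have hz' : vl y s ∈ Str6 c.2 := by
    show lo6 c.2 ≤ (vl y s).re ∧ (vl y s).re ≤ hi6 c.2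
    rw [e1]
    rcases hy with rfl | rfl
    · exact ⟨le_rfl, hle⟩
    · exact ⟨hle, le_rfl⟩
  have := norm_lK_le6 h hz hz'
  rwa [e2] at this

theorem width_lt6 (k : Option O3) : 7 * (-lo6 k - -hi6 k) < Real.pi := by
  have hp := Real.pi_pos
  rcases k with _ | (_ | _ | _) <;> simp only [lo6, hi6, l] <;> (clear * - hp; linarith)

/-- the second factor is localised at `s` -/
theorem norm_Bf_le6 {k : Option O3} {θ σ y : ℝ} (hθ : 0 < θ) (hσ : σ = 1 ∨ σ = -1)
    (hy : y = lo6 k ∨ y = hi6 k) (s : ℝ) {z' : ℂ} (h1 : lo6 k + θ ≤ z'.re) (h2 : z'.re ≤ hi6 k - θ) :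
    ‖Bf6 σ y s z'‖ ≤ PBV.cE 7 θ * Real.exp (-(7 * |s - z'.im|)) := by
  have key := PBV.norm_bE_le (α := 7) (y₁ := -hi6 k) (y₂ := -lo6 k) (θ := θ) (σ := σ) (y := -y)
    (s := s) (by norm_num) hθ (width_lt6 k) hσ (by
      rcases hy with rfl | rfl
      · exact Or.inr rfl
      · exact Or.inl rfl) (z := -I * z') ⟨by rw [(Bf_arg z').2]; linarith, by
        rw [(Bf_arg z').2]; linarith⟩
  rw [(Bf_arg z').1] at key
  exact key

/-- **product decomposition of the local part**, all kinds -/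
theorem lK_decomp6 {X : ℂ → ℂ} {xp xm : ℂ} {M : ℝ} (h : FX6 X xp xm M) {b c : Bool × Option O3}
    {z z' : ℂ} (hz : z ∈ Str6 b.2) (h1 : lo6 c.2 < z'.re) (h2 : z'.re < hi6 c.2) :
    Integrable (fun s : ℝ => Af X xp xm b c (hi6 c.2) s z * Bf6 (-1) (hi6 c.2) s z') ∧
    Integrable (fun s : ℝ => Af X xp xm b c (lo6 c.2) s z * Bf6 1 (lo6 c.2) s z') ∧
    lK X xp xm b c z z' = (∫ s : ℝ, Af X xp xm b c (hi6 c.2) s z * Bf6 (-1) (hi6 c.2) s z') +
      ∫ s : ℝ, Af X xp xm b c (lo6 c.2) s z * Bf6 1 (lo6 c.2) s z' := by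
  have hM := h.M_nonneg
  have hJ := norm_nonneg (xp - xm)
  have hcL := cL_nonneg6
  have hmem : ∀ w ∈ PBV.St (-hi6 c.2) (-lo6 c.2), I * w ∈ Str6 c.2 := by
    rintro w ⟨a, b⟩
    show lo6 c.2 ≤ (I * w).re ∧ (I * w).re ≤ hi6 c.2
    have e : (I * w).re = -w.im := by simp
    rw [e]
    constructor <;> linarith
  have hdif : ∀ w ∈ PBV.St (-hi6 c.2) (-lo6 c.2),
      DifferentiableAt ℂ (fun w => lK X xp xm b c z (I * w)) w := fun w hw =>
    (lK_diff6 h.dif xp xm hz (hmem w hw)).comp w (by fun_prop)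
  have key := PBV.strip_cauchy (f := fun w => lK X xp xm b c z (I * w)) (y₁ := -hi6 c.2)
    (y₂ := -lo6 c.2) (α := 7) (β := 0) (M := cL6 * (‖xp - xm‖ + M)) (by norm_num) (width_lt6 c.2)
    (by norm_num) (fun w hw => (hdif w hw).continuousAt.continuousWithinAt)
    (fun w hw => (hdif w (PBV.So_sub_St _ _ hw)).differentiableWithinAt) (fun w hw => by
      refine (norm_lK_le6 h hz (hmem w hw)).trans ?_
      rw [zero_mul, Real.exp_zero, mul_one]
      refine mul_le_of_le_one_right (by positivity) ?_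
      refine mul_le_one₀ (Real.exp_le_one_iff.2 ?_) (Real.exp_pos _).le (Real.exp_le_one_iff.2 ?_) <;>
        linarith [abs_nonneg z.im, abs_nonneg (I * w).im]) (z := -I * z')
    ⟨by rw [(Bf_arg z').2]; linarith, by rw [(Bf_arg z').2]; linarith⟩
  have e0 : I * (-I * z') = z' := by
    linear_combination (-z') * I_mul_I
  have e1 : ∀ s y : ℝ, I * ((s : ℂ) + ((-y : ℝ) : ℂ) * I) = vl y s := by
    intro s y
    unfold vl
    push_cast
    linear_combination (-(y : ℂ)) * I_mul_I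
  simp only [e0, e1] at key
  exact key

end PBOb

end
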