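import Pool.Agent.PB.FBd
import Pool.Agent.PHK.ObKer6

/-!
# (P): bounds of the row and leg forces on the strips of `PHK/ObKer6`

* `kO_rowD_bd6`, **`row_bd6`**: the row forces are bounded on the strips `PBOb.Str6`, rows at `Re x = 0`;
* **`leg_bd6`** (`C`, `|Re z| ≤ l / 2`), constants absolute.
-/

set_option autoImplicit false
set_option linter.unusedSectionVars false

noncomputable section

open MeasureTheory Set Filter Topology Finset
open scoped Classical

namespace PBQ1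

open NUMF PBForce Pool.Agent.PB NUP1S PBOb

variable {m : ℕ}

/-- **bound of the row forces on the strips** -/
theorem kO_rowD_bd6 : ∃ C : ℝ, 0 ≤ C ∧ ∀ (k : Option O3) (w x : ℂ), w ∈ Str6 k → x.re = 0 →
    ‖kO rowD (ob4 k) (w - l - x)‖ ≤ C := by
  have hl := l_pos
  obtain ⟨A1, a1, HA⟩ := rowD_gd (a := -(22 / 25) * l) (b := 21 / 200 * l)
    (Or.inl ⟨by linarith, by linarith⟩) (Or.inl ⟨by linarith, by linarith⟩)
    (Or.inr ⟨by linarith, by linarith⟩)
  obtain ⟨B1, b1, HB⟩ := rowD_gd (a := -(5 / 2) * l) (b := -2 * l)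
    (Or.inl ⟨by linarith, by linarith⟩) (Or.inr ⟨by linarith, by linarith⟩)
    (Or.inr ⟨by linarith, by linarith⟩)
  obtain ⟨B2, b2, HB2⟩ := rowD_gd (a := -(7 / 2) * l) (b := -(16 / 5) * l)
    (Or.inl ⟨by linarith, by linarith⟩) (Or.inr ⟨by linarith, by linarith⟩)
    (Or.inr ⟨by linarith, by linarith⟩)
  obtain ⟨T1, t1, HT⟩ := rowD_gd (a := -(31 / 20) * l) (b := -(29 / 20) * l)
    (Or.inl ⟨by linarith, by linarith⟩) (Or.inr ⟨by linarith, by linarith⟩)
    (Or.inr ⟨by linarith, by linarith⟩)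
  obtain ⟨T2, t2, HT2⟩ := rowD_gd (a := -(51 / 20) * l) (b := -(49 / 20) * l)
    (Or.inl ⟨by linarith, by linarith⟩) (Or.inr ⟨by linarith, by linarith⟩)
    (Or.inr ⟨by linarith, by linarith⟩)
  refine ⟨A1 + (B1 + B2) + (T1 + T2), by positivity, fun k w x hw hx => ?_⟩
  obtain ⟨hw1, hw2⟩ := hw
  have r1 : (w - l - x : ℂ).re = w.re - l := by simp [hx]
  have r2 : (w - l - x - l : ℂ).re = w.re - l - l := by simp [hx]
  rcases k with _ | (_ | _ | _)
  · change 3 / 25 * l ≤ w.re at hw1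
    change w.re ≤ 221 / 200 * l at hw2
    have := HA (w - l - x) (by rw [r1]; linarith) (by rw [r1]; linarith)
    change ‖rowD (w - l - x)‖ ≤ _
    linarith
  · change -(63 / 50) * l ≤ w.re at hw1
    change w.re ≤ -l at hw2
    have := HB (w - l - x) (by rw [r1]; linarith) (by rw [r1]; linarith)
    change ‖rowD (w - l - x)‖ ≤ _
    linarith
  · change -(73 / 50) * l ≤ w.re at hw1
    change w.re ≤ -(31 / 25) * l at hw2
    have h1 := HB (w - l - x) (by rw [r1]; linarith) (by rw [r1]; linarith)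
    have h2 := HB2 (w - l - x - l) (by rw [r2]; linarith) (by rw [r2]; linarith)
    change ‖rowD (w - l - x) + rowD (w - l - x - l)‖ ≤ _
    refine (norm_add_le _ _).trans ?_
    linarith
  · change -(13 / 25) * l ≤ w.re at hw1
    change w.re ≤ -(12 / 25) * l at hw2
    have h1 := HT (w - l - x) (by rw [r1]; linarith) (by rw [r1]; linarith)
    have h2 := HT2 (w - l - x - l) (by rw [r2]; linarith) (by rw [r2]; linarith)
    change ‖rowD (w - l - x) + rowD (w - l - x - l)‖ ≤ _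
    refine (norm_add_le _ _).trans ?_
    linarith

/-- **bounds of the row forces**: constant absolute -/
theorem row_bd6 : ∃ C : ℝ, 0 ≤ C ∧ ∀ (m : ℕ) (x : Fin m → ℂ), (∀ i, (x i).re = 0) →
    ∀ (b : K4) (w : ℂ), w ∈ Str6 b.2 → ‖krK x b w‖ ≤ m * C ∧ ∀ i0, ‖r1K x i0 b w‖ ≤ C := by
  obtain ⟨C, hC, H⟩ := kO_rowD_bd6
  refine ⟨C, hC, fun m x hx b w hw => ⟨?_, fun i0 => ?_⟩⟩
  · unfold krK krR
    refine (norm_sum_le _ _).trans ?_
    calc ∑ i, ‖kO rowD (ob4 b.2) (w - l - x i)‖ ≤ ∑ _i : Fin m, C :=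
          Finset.sum_le_sum fun i _ => H b.2 w (x i) hw (hx i)
      _ = m * C := by simp
  · unfold r1K r1R
    rw [norm_neg]
    exact H b.2 w (x i0) hw (hx i0)

/-- **bound of the leg force** -/
theorem leg_bd6 : ∃ C : ℝ, 0 ≤ C ∧ ∀ (z : ℂ), |z.re| ≤ l / 2 → ∀ (b : K4) (w : ℂ), w ∈ Str6 b.2 →
    ‖lamK z b w‖ ≤ C := by
  have hl := l_pos
  obtain ⟨C, hC, H⟩ := fSd_bound (a := 3 / 10 * l) (b := 497 / 100 * l) (by linarith) (by linarith)
  refine ⟨C + C, by positivity, fun z hz b w hw => ?_⟩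
  obtain ⟨hw1, hw2⟩ := hw
  have hz' := abs_le.1 hz
  have hL : ∀ u : ℂ, -(247 / 100) * l ≤ u.re → u.re ≤ 6 / 5 * l → ‖lamL z u‖ ≤ C := by
    intro u h1 h2
    unfold lamL
    rw [norm_mul, Complex.norm_I, one_mul]
    have r : (z + 2 * l - u : ℂ).re = z.re + 2 * l - u.re := by simp
    exact H _ (by rw [r]; linarith) (by rw [r]; linarith)
  have r2 : (w - l : ℂ).re = w.re - l := by simp
  obtain ⟨σ, k⟩ := b
  rcases k with _ | (_ | _ | _)
  · change 3 / 25 * l ≤ w.re at hw1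
    change w.re ≤ 221 / 200 * l at hw2
    have := hL w (by linarith) (by linarith)
    change ‖lamL z w‖ ≤ _
    linarith
  · change -(63 / 50) * l ≤ w.re at hw1
    change w.re ≤ -l at hw2
    have := hL w (by linarith) (by linarith)
    change ‖lamL z w‖ ≤ _
    linarith
  · change -(73 / 50) * l ≤ w.re at hw1
    change w.re ≤ -(31 / 25) * l at hw2
    have h1 := hL w (by linarith) (by linarith)
    have h2 := hL (w - l) (by rw [r2]; linarith) (by rw [r2]; linarith)
    change ‖lamL z w + lamL z (w - l)‖ ≤ _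
    exact (norm_add_le _ _).trans (add_le_add h1 h2)
  · change -(13 / 25) * l ≤ w.re at hw1
    change w.re ≤ -(12 / 25) * l at hw2
    have h1 := hL w (by linarith) (by linarith)
    have h2 := hL (w - l) (by rw [r2]; linarith) (by rw [r2]; linarith)
    change ‖lamL z w + lamL z (w - l)‖ ≤ _
    exact (norm_add_le _ _).trans (add_le_add h1 h2)

end PBQ1

end
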