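import Pool.Agent.PHK.OneC
import Pool.Agent.PHK.HolU6
import Pool.Agent.PLX.PB.FDef

/-!
# The particle-hole form (P): the functional is bounded by the positive gas

* `norm_obK6_le`, **`norm_wK6_le`**: `‖wK6 Z P O‖ ≤ objWc6 B P O` under `OneC6`;
* **`trA6_le`, `FA6_le`**: one configuration and the functional against `FnI6`;
* `trE6_le`, `FE6_le`: the same for nonnegative insertions.
-/

set_option autoImplicit false
set_option linter.unusedSectionVars false

noncomputable section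

open Complex MeasureTheory Finset
open scoped ENNReal
open PLX (Fil)

namespace PHK

open NUO NUP1 NUP1S NUP1S.Ab NUP1S.AbC NUGC NUGC.PLX NUCR
open PBF.PLX (gK Ins InsE Crs trE6 FE6)

variable {Z : Bool → Option O3 → ℂ → ℂ} {P : Par6} {n n' : ℕ} {η η' : Crs} {B : OB}
  {ep κ x0 : ℝ} {Q : ℤ} {E : Set ℝ}

/-- **one object** -/
theorem norm_obK6_le (h : OneC6 Z B P ep κ x0 Q E) {x : Xo} (hE : ht x ∉ E) :
    ‖obK6 Z P x‖ ≤ ob6 B P x := by
  have hc := cK6_nonneg (k6 x)
  have hB := h.nn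
  cases hk : k6 x
  · rw [obK6_L _ _ hk, norm_mul, norm_cC6]
    simp only [ob6, hk, parts6, List.map_cons, List.map_nil, List.prod_cons, List.prod_nil, mul_one,
      w6, zpow_one, if_false, Bool.false_eq_true]
    rw [hk] at hc
    exact mul_le_mul_of_nonneg_left (h.L _ _ hE) hc
  · rw [obK6_T _ _ hk, norm_mul, norm_cC6]
    simp only [ob6, hk, parts6, List.map_cons, List.map_nil, List.prod_cons, List.prod_nil, mul_one,
      w6, if_true]
    rw [hk] at hc
    exact mul_le_mul_of_nonneg_left (h.T _ _ hE) hc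
  · rw [obK6_E _ _ hk, norm_mul, norm_cC6, norm_mul, norm_pow]
    simp only [ob6, hk, parts6, List.map_cons, List.map_nil, List.prod_cons, List.prod_nil, mul_one,
      w6, if_true, if_false, Bool.false_eq_true]
    rw [hk] at hc
    refine mul_le_mul_of_nonneg_left ?_ hc
    refine mul_le_mul (h.S _ _ hE) ?_ (by positivity) ?_
    · exact_mod_cast pow_le_pow_left₀ (norm_nonneg _) (h.V _ _ hE) 2
    · have h1 := hB (sp x) (posS P.e (ht x))
      have h2 := hB (sp x) (posS P.e (ht x) - l)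
      positivity
  · rw [obK6_F _ _ hk, norm_mul, norm_cC6, norm_mul, norm_mul, norm_pow]
    simp only [ob6, hk, parts6, List.map_cons, List.map_nil, List.prod_cons, List.prod_nil, mul_one,
      w6, if_true, if_false, Bool.false_eq_true]
    rw [hk] at hc
    refine mul_le_mul_of_nonneg_left ?_ hc
    have h1 := hB (sp x) (posS P.e (ht x))
    have h2 := hB (sp x) (posS P.e (ht x) - l)
    have h3 : ‖Z (!sp x) none (posB P.e (ht x))‖ ^ 2 ≤ wq6 B (!sp x) (posB P.e (ht x)) ^ (2 : ℤ) := by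
      exact_mod_cast pow_le_pow_left₀ (norm_nonneg _) (h.V _ _ hE) 2
    have h4 := zpow_nonneg (wq6_nonneg hB (!sp x) (posB P.e (ht x))) 2
    refine mul_le_mul (h.S _ _ hE) (mul_le_mul h3 ?_ (norm_nonneg _) h4) (by positivity) (by positivity)
    have h5 := h.F (sp x) _ hE
    simpa [zpow_neg] using h5
  · rw [obK6_H1 _ _ hk, norm_mul, norm_cC6]
    simp only [ob6, hk, parts6, List.map_cons, List.map_nil, List.prod_cons, List.prod_nil, mul_one,
      w6, if_false, Bool.false_eq_true]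
    rw [hk] at hc
    refine mul_le_mul_of_nonneg_left ?_ hc
    have h5 := h.H1 (sp x) _ hE
    simpa [zpow_neg] using h5
  · rw [obK6_H2 _ _ hk, norm_mul, norm_cC6]
    simp only [ob6, hk, parts6, List.map_cons, List.map_nil, List.prod_cons, List.prod_nil, mul_one,
      w6, if_false, Bool.false_eq_true]
    rw [hk] at hc
    refine mul_le_mul_of_nonneg_left ?_ hc
    have h5 := h.H2 (sp x) _ hE
    simpa [zpow_neg] using h5

/-- **the weight of a configuration** -/
theorem norm_wK6_le (h : OneC6 Z B P ep κ x0 Q E) {r : ℕ} (O : Fin r → Xo)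
    (hE : ∀ i, ht (O i) ∉ E) : ‖wK6 Z P O‖ ≤ objWc6 B P O := by
  rw [norm_wK6]
  unfold objWc6
  refine mul_le_mul_of_nonneg_right (mul_le_mul_of_nonneg_right ?_
    (prod_nonneg fun i _ => loc6_nonneg _ _ _)) ?_
  · exact Finset.prod_le_prod (fun i _ => norm_nonneg _) fun i _ => norm_obK6_le h (hE i)
  · refine prod_nonneg fun i _ => prod_nonneg fun j _ => ?_
    split_ifs
    · exact pairN6_nonneg _ _ _ _
    · exact zero_le_one

variable [Fil]

/-- the integrand of the quanta -/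
theorem norm_gK6_le (h : OneC6 Z B P ep κ x0 Q E) {r : ℕ} (O : Fin r → Xo) {η η' : ℝ → ℝ}
    (hη : CurB ep η η') (hep : ep ≤ 1 / 100) (a b : ℕ) (x : (Fin a → ℝ) × (Fin b → ℝ)) :
    ‖gK (gF6 Z P O) η η' a b x‖ ≤ NU42.WO (dA (Fil.cv true η)) (dA (Fil.cv true η'))
      (dA (Fil.cv false η)) (dA (Fil.cv false η')) (qA6 B P η O true) (qA6 B P η O false)
      x.1 x.2 := by
  have hep0 : 0 ≤ ep := by
    have h1 := (abs_nonneg _).trans (hη.h1 0)
    have hl := Bd.l_pos
    by_contra hc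
    nlinarith
  have hcr : CrvR (ep / 4) η η' := by
    have hl := Bd.l_pos
    refine ⟨hη.hd, hη.hc, fun t => ?_, fun t => ?_, hη.hb⟩
    · have := (abs_le.1 (hη.h1 t)).1
      linarith
    · have := (abs_le.1 (hη.h1 t)).2
      nlinarith
  rw [norm_gK6]
  have hq : ∀ s t, qG6 (Z s none) P (Fil.cv s η) O s t ≤ qA6 B P η O s t := by
    intro s t
    unfold qG6 qA6
    refine mul_le_mul_of_nonneg_right (mul_le_mul_of_nonneg_left (h.A s _ ?_) (by positivity))
      (Finset.prod_nonneg fun i _ => potN6_nonneg _ _ _ _ _)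
    exact NUO.pA_cv_mem hcr (by positivity) s t
  have h0 : ∀ s t, 0 ≤ qG6 (Z s none) P (Fil.cv s η) O s t := by
    intro s t
    unfold qG6
    exact mul_nonneg (by positivity) (Finset.prod_nonneg fun i _ => potN6_nonneg _ _ _ _ _)
  exact WO_mono _ _ _ _ (h0 true) (hq true) (h0 false) (hq false) _ _

/-- **one configuration**: `trE6` is bounded by the term of the positive gas -/
theorem trE6_le (h : OneC6 Z B P ep κ x0 Q E) {r : ℕ} (O : Fin r → Xo) (hE : ∀ i, ht (O i) ∉ E)
    (hη : CurB ep (η r O) (η' r O)) (hep : ep ≤ 1 / 100) (φ : InsE) :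
    trE6 Z P n n' η η' φ r O ≤ FnI6 B P (η r O) (η' r O) n n' O (φ r O) := by
  unfold trE6 FnI6
  split_ifs with hc
  swap
  · exact le_rfl
  refine mul_le_mul' ?_ (mul_le_mul' le_rfl (lintegral_mono fun x => mul_le_mul' ?_ le_rfl))
  · rw [← ofReal_norm]
    exact ENNReal.ofReal_le_ofReal (norm_wK6_le h O hE)
  · rw [← ofReal_norm]
    exact ENNReal.ofReal_le_ofReal (norm_gK6_le h O hη hep _ _ _)

/-- **`FE6` is bounded by the positive gas with the insertion** -/
theorem FE6_le (h : OneC6 Z B P ep κ x0 Q E) (hη : ∀ r O, CurB ep (η r O) (η' r O))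
    (hep : ep ≤ 1 / 100) (φ : InsE) :
    FE6 Z P n n' η η' φ ≤ ∑ r ∈ range (2 * (n + n') + 1), ((r.factorial : ℕ) : ℝ≥0∞)⁻¹ *
      ∫⁻ O : Fin r → Xo, FnI6 B P (η r O) (η' r O) n n' O (φ r O) ∂(Measure.pi fun _ => nu) := by
  unfold FE6
  refine Finset.sum_le_sum fun r _ => mul_le_mul' le_rfl (lintegral_mono_ae ?_)
  filter_upwards [ae_ht6 (r := r) h.nul] with O hO
  exact trE6_le h O hO (hη r O) hep φ

/-- **one configuration**: `trA6` is bounded by the term of the positive gas -/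
theorem trA6_le (h : OneC6 Z B P ep κ x0 Q E) {r : ℕ} (O : Fin r → Xo) (hE : ∀ i, ht (O i) ∉ E)
    (hη : CurB ep (η r O) (η' r O)) (hep : ep ≤ 1 / 100) (Ψ : Ins) :
    trA6 Z P n n' η η' Ψ r O ≤
      FnI6 B P (η r O) (η' r O) n n' O fun a b x => ‖Ψ r O a b x‖ₑ :=
  trE6_le h O hE hη hep fun r O a b x => ‖Ψ r O a b x‖ₑ

/-- **`FA6` is bounded by the positive gas with the insertion** -/
theorem FA6_le (h : OneC6 Z B P ep κ x0 Q E) (hη : ∀ r O, CurB ep (η r O) (η' r O))
    (hep : ep ≤ 1 / 100) (Ψ : Ins) :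
    FA6 Z P n n' η η' Ψ ≤ ∑ r ∈ range (2 * (n + n') + 1), ((r.factorial : ℕ) : ℝ≥0∞)⁻¹ *
      ∫⁻ O : Fin r → Xo, FnI6 B P (η r O) (η' r O) n n' O (fun a b x => ‖Ψ r O a b x‖ₑ)
        ∂(Measure.pi fun _ => nu) :=
  FE6_le h hη hep fun r O a b x => ‖Ψ r O a b x‖ₑ

end PHK

end
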