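import Pool.Agent.PHK.KRep6
import Pool.Agent.PHK.ZL6
import Pool.Agent.PLX.PB.FNeq

/-!
# (P): the literal function is the functional of its class

Every row of species Y is a `q`-fold row (`q = Fil.q`): rows `x`, `yq x`; `n`, `n + xn m` quanta.

* `ZQ6 c g0 β x ex z`: class functions of the dislocated function (constants `c`, string cut `g0` without the rows,
  cutoff points `rwq x a`, `ex a`, legs at `z`); `ZL6 = ZQ6` at the rows `mu1 k x`, `ex = [I, -I]` (by `rfl`);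
* `oneC6_Q`, `decZ6_Q`, `invZ6_Q`;
* `phI6_rwq`, **`phI6_mu1`**: the cutoffs have no zero in the strip of the holes (few rows off `0`);
* `DZ_FF6`: state sum = `FF6`, every family of admissible curves, any spectators of a charge;
* **`nz_FF6`**, **`fN_FF6`**: `fQ q x z = Pf z x (yq x) * ∑ n ≤ 2 m, FF6 (ZQ6 ..) P n (n + xn m) η η' 1`,
  `-9/10 l ≤ Re z ≤ 31/10 l`; **`fN_le6`**: the bound by the functional with moduli;
* **`fN_FF6_mu1`**, **`fN_le6_mu1`**: the same with `ZL6`.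
-/

set_option autoImplicit false
set_option linter.unusedSectionVars false
set_option linter.unusedVariables false

noncomputable section

open Complex MeasureTheory Finset
open scoped ENNReal

namespace PHK

open NUO NUP1 NUCR NUP1S NUP1S.Ab NUP1S.AbC NURow NUGC.PLX
open NUP1.Bd (Ob)
open PBF.PLX (Crs)
open PBX (Rws ph Lg gP GOk Lg_meas)
open PBL.PLX (mu1)
open PBO.PLX (RwL)
open Pool.Agent.PB (Pf LS cn)
open Pool.Agent.PLX (XXU ZK6 DZU yq rwq Rws_rwq SpW6 GF6 PhI6 phI6_low FFth HI6 DZ_ZK6 nzU fQ fQ_right sumU_q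
  oneC6_ZK6 decZ6_ZK6 invZ6_ZK6 ofFn_rwq length_ofFn_rwq ofFn_rwq_cons)
open _root_.PLX (Fil)

variable [Fil] {m : ℕ} {P : Par6}

/-! ### the class functions -/

/-- **the class functions of the dislocated function**, any rows `x` -/
def ZQ6 (c : Bool → ℂ) (g0 : Bool → ℂ → ℂ) (β : ℝ) (x : Fin m → ℂ) (ex : Bool → List ℂ) (z : ℂ) :
    Bool → Option O3 → ℂ → ℂ := fun a =>
  XXU (c a) β (rwq x a) (rwq x !a) (gP β (ex a)) (g0 a) (Lg z z) (fun w => Lg z z w * Lg z z (w - NUP1.l))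

theorem ZL6_eq (c : Bool → ℂ) (g0 : Bool → ℂ → ℂ) (k : ℕ) (β : ℝ) (x z : ℂ) :
    ZL6 c g0 k β x z = ZQ6 c g0 β (mu1 k x) (fun _ => [I, -I]) z := rfl

/-- number of the rows of a species -/
abbrev Nq (m : ℕ) (a : Bool) : ℕ := cond a m (Fil.q * m)

theorem ZQ6_eq (c : Bool → ℂ) (g0 : Bool → ℂ → ℂ) (β : ℝ) (x : Fin m → ℂ) (ex : Bool → List ℂ) (z : ℂ) :
    ZQ6 c g0 β x ex z = ZK6 (N := Nq m) c β (rwq x) ex g0 (fun _ => Lg z z) := rfl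

theorem charge_q (m : ℕ) (q : ℤ) : -q + ((Nq m true : ℕ) : ℤ) - ((Nq m false : ℕ) : ℤ) = -q - Fil.xn m := by
  show -q + (m : ℤ) - ((Fil.q * m : ℕ) : ℤ) = -q - Fil.xn m
  rw [← Fil.add_xn]
  push_cast
  ring

theorem charge_qR (m : ℕ) (q : ℤ) : -(q : ℝ) + ((Nq m true : ℕ) : ℝ) - ((Nq m false : ℕ) : ℝ) =
    ((-q - Fil.xn m : ℤ) : ℝ) := by
  rw [← charge_q]
  push_cast
  ring

/-! ### the cutoffs in the strip of the holes -/

private theorem flat_perm (n : ℕ) {A B E : List ℂ} (h : A.Perm (B ++ E)) :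
    ((List.replicate n A).flatten).Perm ((List.replicate n B).flatten ++ (List.replicate n E).flatten) := by
  induction n with
  | zero => simp
  | succ n ih =>
    rw [List.replicate_succ, List.replicate_succ, List.replicate_succ, List.flatten_cons, List.flatten_cons,
      List.flatten_cons]
    rw [← Multiset.coe_eq_coe] at h ih ⊢
    simp only [← Multiset.coe_add] at h ih ⊢
    rw [h, ih]
    abel

private theorem mem_flat {n : ℕ} {E : List ℂ} {w : ℂ} (h : w ∈ (List.replicate n E).flatten) : w ∈ E := by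
  obtain ⟨A, hA, hw⟩ := List.mem_flatten.1 h
  rw [List.mem_replicate] at hA
  rw [← hA.2]
  exact hw

/-- the rows of a species and further points -/
theorem rwL_rwq {n0 n1 : ℕ} {h0 : ℝ} {K : ℕ} {x : Fin m → ℂ} {E : List ℂ} (h : RwL n0 h0 K (List.ofFn x) E)
    {W : List ℂ} (hW : W.length ≤ n1) (hre : ∀ w ∈ W, |w.re| ≤ l / 2) (him : ∀ w ∈ W, |w.im| ≤ h0) (a : Bool) :
    RwL (Fil.q * n0 + n1) h0 (Fil.n a * K) (List.ofFn (rwq x a) ++ W)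
      ((List.replicate (Fil.n a) E).flatten ++ W) where
  perm := by
    rw [ofFn_rwq, ← List.append_assoc]
    refine List.Perm.append_right W ((flat_perm _ h.perm).trans ?_)
    rw [List.flatten_replicate_replicate]
  len := by
    rw [List.length_append, List.length_flatten, List.map_replicate, List.sum_replicate, smul_eq_mul]
    have h1 := h.len
    have h2 : Fil.n a ≤ Fil.q := by
      cases a
      · exact le_rfl
      · exact Fil.one_le_q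
    exact add_le_add (Nat.mul_le_mul h2 h1) hW
  re := by
    intro w hw
    rcases List.mem_append.1 hw with h1 | h1
    · exact h.re w (mem_flat h1)
    · exact hre w h1
  im := by
    intro w hw
    rcases List.mem_append.1 hw with h1 | h1
    · exact h.im w (mem_flat h1)
    · exact him w h1

/-- **few rows off `0`** -/
theorem phI6_rwq {β : ℝ} (hβ : 0 < β) (hβ' : β ≤ 4 / 3) {n0 n1 : ℕ} {h0 : ℝ} (hh : 0 ≤ h0) {K : ℕ}
    {x : Fin m → ℂ} {E : List ℂ} (h : RwL n0 h0 K (List.ofFn x) E) {ex : Bool → List ℂ}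
    (hl : ∀ a, (ex a).length ≤ n1) (hre : ∀ a, ∀ w ∈ ex a, |w.re| ≤ l / 2) (him : ∀ a, ∀ w ∈ ex a, |w.im| ≤ h0)
    (hm1 : 1 ≤ m) (hm : 2 ^ 14 * Real.exp (8 / 3 * h0) * ((Fil.q * n0 + n1 : ℕ) : ℝ) ≤ m) :
    PhI6 (N := Nq m) β (rwq x) ex := by
  refine phI6_low (m := m) (n0 := Fil.q * n0 + n1) (h0 := h0) (K := fun a => Fil.n a * K)
    (E := fun a => (List.replicate (Fil.n a) E).flatten ++ ex a) hβ hβ' hh
    (fun a => rwL_rwq h (hl a) (hre a) (him a) a) (fun a => ?_) hm1 hm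
  have h1 : m = K + E.length := by
    have := h.perm.length_eq
    rw [List.length_ofFn, List.length_append, List.length_replicate] at this
    exact this
  have h2 : 1 ≤ Fil.n a := by
    cases a
    · exact Fil.one_le_q
    · exact le_rfl
  have h3 := h.len
  have h4 : K ≤ Fil.n a * K := Nat.le_mul_of_pos_left _ h2
  have h5 : n0 ≤ Fil.q * n0 := Nat.le_mul_of_pos_left _ Fil.one_le_q
  show m ≤ Fil.n a * K + (Fil.q * n0 + n1)
  omega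

/-- the rows `x, 0, .., 0` -/
theorem rwLm_mu1 {h0 : ℝ} (k : ℕ) {x : ℂ} (hx : |x.re| ≤ l / 2) (hx' : |x.im| ≤ h0) :
    RwL 1 h0 k (List.ofFn (mu1 k x)) [x] where
  perm := by
    unfold PBL.PLX.mu1
    rw [List.ofFn_succ]
    simp only [Fin.cons_zero, Fin.cons_succ, List.ofFn_const]
    exact (List.perm_append_singleton x _).symm
  len := le_rfl
  re := by
    intro w hw
    rw [List.mem_singleton.1 hw]
    exact hx
  im := by
    intro w hw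
    rw [List.mem_singleton.1 hw]
    exact hx'

/-- **the rows `x, 0, .., 0`** -/
theorem phI6_mu1 : ∃ m0 : ℕ, ∀ k : ℕ, m0 ≤ k + 1 → ∀ β : ℝ, 0 < β → β ≤ 4 / 3 → ∀ x : ℂ, |x.re| ≤ l / 2 →
    |x.im| ≤ 2 → PhI6 (N := Nq (k + 1)) β (rwq (mu1 k x)) fun _ => [I, -I] := by
  obtain ⟨m0, hm0⟩ := exists_nat_ge (2 ^ 14 * Real.exp (8 / 3 * 2) * ((Fil.q * 1 + 2 : ℕ) : ℝ))
  refine ⟨m0, fun k hk β hβ hβ' x hx hx' => ?_⟩
  have hl := NUP1.l_pos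
  refine phI6_rwq (n0 := 1) (n1 := 2) (h0 := 2) hβ hβ' (by norm_num) (rwLm_mu1 k hx hx') (fun _ => le_rfl)
    (fun _ w hw => ?_) (fun _ w hw => ?_) (by omega) (hm0.trans (by exact_mod_cast hk))
  · rw [List.mem_cons, List.mem_singleton] at hw
    rcases hw with rfl | rfl
    · rw [Complex.I_re, abs_zero]; positivity
    · rw [Complex.neg_re, Complex.I_re, neg_zero, abs_zero]; positivity
  · rw [List.mem_cons, List.mem_singleton] at hw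
    rcases hw with rfl | rfl
    · rw [Complex.I_im]; norm_num
    · rw [Complex.neg_im, Complex.I_im]; norm_num

/-! ### bounds, decay, inverses -/

section cls

variable {ep β : ℝ} {c : Bool → ℂ} {g0 : Bool → ℂ → ℂ} {x : Fin m → ℂ} {ex : Bool → List ℂ} {z : ℂ}

private theorem spL (h1 : -(9 / 10 * l) ≤ z.re) (h2 : z.re ≤ 31 / 10 * l) (a : Bool) :
    SpW6 (sc (a, .A) * ((0 : ℤ) : ℝ)) (Lg z z) := by
  have := SpW6.leg (z := z) h1 h2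
  simpa using this

theorem oneC6_Q (hep0 : 0 < ep) (hep : ep ≤ 1 / 100) (hβ : 0 < β) (hβ' : β ≤ 4 / 3) (hx : Rws x)
    (hex : ∀ a, ∀ w ∈ ex a, |w.re| ≤ l / 2) (hg0 : ∀ a, Measurable (g0 a)) {c0 : ℝ} (hc : ∀ a, ‖c a‖ = c0)
    (h1 : -(9 / 10 * l) ≤ z.re) (h2 : z.re < 37 / 10 * l) :
    OneC6 (ZQ6 c g0 β x ex z)
      (obX6 c0 β x ex (fun a => ph (4 / 3) (rwq x a) (g0 a)) fun _ u => PBX.PLX.thZ z u) P ep (2 * β)
      (51 / 100 * l) (-Fil.xn m) (Set.range fun i => (x i).im) := by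
  have hl := NUP1.l_pos
  exact oneC6_Lg le_rfl (by linarith) hep0 hep hβ hβ' hx hex hg0 hc h1 h2

theorem decZ6_Q (hP : GoodP6 P) (hβ : 0 < β) (hβ' : β ≤ 4 / 3) (hx : Rws x)
    (hex : ∀ a, ∀ w ∈ ex a, |w.re| ≤ l / 2) (hg0 : ∀ a, GF6 (rwq x a) (g0 a))
    (h1 : -(9 / 10 * l) ≤ z.re) (h2 : z.re ≤ 31 / 10 * l) :
    Pool.Agent.PLX.DecZ6 (ZQ6 c g0 β x ex z) P (51 / 100 * l) (2 * β) ((-Fil.xn m : ℤ) : ℝ) := by
  have h := decZ6_ZK6 (N := Nq m) (ro := rwq x) (c := c) (q := 0) hP hβ hβ' (fun a => Rws_rwq hx a) hex hg0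
    (spL h1 h2)
  rw [charge_qR, neg_zero, zero_sub] at h
  exact h

theorem invZ6_Q (hβ : 0 < β) (hβ' : β ≤ 4 / 3) (hx : Rws x)
    (hex : ∀ a, ∀ w ∈ ex a, |w.re| ≤ l / 2) (hφ : PhI6 (N := Nq m) β (rwq x) ex) (hc : ∀ a, c a ≠ 0)
    (h1 : -(9 / 10 * l) ≤ z.re) (h2 : z.re ≤ 31 / 10 * l) :
    Pool.Agent.PLX.InvZ6 (ZQ6 c g0 β x ex z) (2 * β) ((-Fil.xn m : ℤ) : ℝ) := by
  have h := invZ6_ZK6 (N := Nq m) (ro := rwq x) (c := c) (g0 := g0) (q := 0) hβ hβ' (fun a => Rws_rwq hx a) hex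
    hφ hc (spL h1 h2)
  rw [charge_qR, neg_zero, zero_sub] at h
  exact h

end cls

/-! ### the state sum is the functional -/

section main

variable {ep β : ℝ} {c : Bool → ℂ} {g0 : Bool → ℂ → ℂ} {x : Fin m → ℂ} {ex : Bool → List ℂ}

/-- the constants do not vanish -/
theorem norm_cc_pos (m : ℕ) : 0 < ‖Leg.cc m‖ := by
  have h := Pool.Agent.PLX.norm_cn m
  have h2 := Pool.Agent.PLX.norm_cn0_pos
  rw [← h] at h2
  exact h2

/-- **the state sum is the functional**, spectators of the charge `q` -/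
theorem DZ_FF6 (hFF : FFth) (hP : GoodP6 P) (hI : HI6 P) (hep0 : 0 < ep) (hep : ep ≤ 1 / 100) (hβ : 0 < β)
    (hβ' : β ≤ 4 / 3) (hx : Rws x) (hex : ∀ a, ∀ w ∈ ex a, |w.re| ≤ l / 2)
    (hg0 : ∀ a, GF6 (rwq x a) (g0 a)) (hφ : PhI6 (N := Nq m) β (rwq x) ex) {c0 : ℝ} (hc0 : 0 < c0)
    (hc : ∀ a, ‖c a‖ = c0) {s : Bool → ℂ → ℂ} {q : ℤ} (hs : ∀ a, SpW6 (sc (a, .A) * (q : ℝ)) (s a)) {n n' : ℕ}
    (hn : (n' : ℤ) = n + Fil.xn m + q) {η η' : Crs}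
    (hη : ∀ r ≤ 2 * (n + n'), ∀ᵐ O ∂(Measure.pi fun _ : Fin r => nu), CurB ep (η r O) (η' r O)) :
    DZU (c true) (c false) (s true) (s false) x (yq x) n n' =
      FF6 (ZK6 (N := Nq m) c β (rwq x) ex g0 s) P n n' η η' (fun _ _ _ _ _ => 1) := by
  refine DZ_ZK6 (N := Nq m) (ro := rwq x) hFF hP hI hep0 hep hβ hβ' (fun a => Rws_rwq hx a) hex hg0 hφ hc0
    hc hs ?_ hη
  have h := charge_q m q
  show (n' : ℤ) + ((Nq m true : ℕ) : ℤ) = n + ((Nq m false : ℕ) : ℤ) + q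
  linarith

variable {z : ℂ}

/-- **the function at all rows is the functional**, `-9/10 l ≤ Re z ≤ 31/10 l` -/
theorem nz_FF6 (hFF : FFth) (hP : GoodP6 P) (hI : HI6 P) (hep0 : 0 < ep) (hep : ep ≤ 1 / 100) (hβ : 0 < β)
    (hβ' : β ≤ 4 / 3) (hx : Rws x) (hex : ∀ a, ∀ w ∈ ex a, |w.re| ≤ l / 2)
    (hg0 : ∀ a, GF6 (rwq x a) (g0 a)) (hφ : PhI6 (N := Nq m) β (rwq x) ex)
    (h1 : -(9 / 10 * l) ≤ z.re) (h2 : z.re ≤ 31 / 10 * l) {η η' : ℕ → Crs}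
    (hη : ∀ n ∈ range (2 * m + 1), ∀ r ≤ 2 * (n + (n + Fil.xn m)),
      ∀ᵐ O ∂(Measure.pi fun _ : Fin r => nu), CurB ep (η n r O) (η' n r O)) :
    nzU z x (yq x) = Pf z x (yq x) * ∑ n ∈ range (2 * m + 1),
      FF6 (ZQ6 (fun a => Leg.cc (cond a m (Fil.q * m))) g0 β x ex z) P n (n + Fil.xn m) (η n) (η' n)
        (fun _ _ _ _ _ => 1) := by
  unfold Pool.Agent.PLX.nzU
  congr 1
  rw [sumU_q Fil.one_le_q]
  refine Finset.sum_congr rfl fun n hn => ?_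
  rw [ZQ6_eq, ← DZ_FF6 (c0 := ‖Leg.cc m‖) (q := 0) hFF hP hI hep0 hep hβ hβ' hx hex hg0 hφ
    (norm_cc_pos m) (fun a => PBX.PLX.norm_ccU a m) (spL h1 h2) (by push_cast; ring) (hη n hn)]
  rfl

/-- **the literal function is the functional** -/
theorem fN_FF6 (hFF : FFth) (hP : GoodP6 P) (hI : HI6 P) (hep0 : 0 < ep) (hep : ep ≤ 1 / 100) (hβ : 0 < β)
    (hβ' : β ≤ 4 / 3) (hx : Rws x) (hex : ∀ a, ∀ w ∈ ex a, |w.re| ≤ l / 2)
    (hg0 : ∀ a, GF6 (rwq x a) (g0 a)) (hφ : PhI6 (N := Nq m) β (rwq x) ex)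
    (h1 : -(9 / 10 * l) ≤ z.re) (h2 : z.re ≤ 31 / 10 * l) {η η' : ℕ → Crs}
    (hη : ∀ n ∈ range (2 * m + 1), ∀ r ≤ 2 * (n + (n + Fil.xn m)),
      ∀ᵐ O ∂(Measure.pi fun _ : Fin r => nu), CurB ep (η n r O) (η' n r O)) :
    fQ Fil.q x z = Pf z x (yq x) * ∑ n ∈ range (2 * m + 1),
      FF6 (ZQ6 (fun a => Leg.cc (cond a m (Fil.q * m))) g0 β x ex z) P n (n + Fil.xn m) (η n) (η' n)
        (fun _ _ _ _ _ => 1) := by
  have hl := Bd.l_pos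
  rw [fQ_right (Pool.Agent.PB.Rws.rwo hx) ⟨by linarith, by linarith⟩]
  exact nz_FF6 hFF hP hI hep0 hep hβ hβ' hx hex hg0 hφ h1 h2 hη

/-- **the bound by the functional with moduli** -/
theorem fN_le6 (hFF : FFth) (hP : GoodP6 P) (hI : HI6 P) (hep0 : 0 < ep) (hep : ep ≤ 1 / 100) (hβ : 0 < β)
    (hβ' : β ≤ 4 / 3) (hx : Rws x) (hex : ∀ a, ∀ w ∈ ex a, |w.re| ≤ l / 2)
    (hg0 : ∀ a, GF6 (rwq x a) (g0 a)) (hφ : PhI6 (N := Nq m) β (rwq x) ex)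
    (h1 : -(9 / 10 * l) ≤ z.re) (h2 : z.re ≤ 31 / 10 * l) {η η' : ℕ → Crs}
    (hη : ∀ n ∈ range (2 * m + 1), ∀ r ≤ 2 * (n + (n + Fil.xn m)),
      ∀ᵐ O ∂(Measure.pi fun _ : Fin r => nu), CurB ep (η n r O) (η' n r O)) :
    ‖fQ Fil.q x z‖ₑ ≤ ‖Pf z x (yq x)‖ₑ * ∑ n ∈ range (2 * m + 1),
      FA6 (ZQ6 (fun a => Leg.cc (cond a m (Fil.q * m))) g0 β x ex z) P n (n + Fil.xn m) (η n) (η' n)
        (fun _ _ _ _ _ => 1) := by
  rw [fN_FF6 hFF hP hI hep0 hep hβ hβ' hx hex hg0 hφ h1 h2 hη, enorm_mul]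
  refine mul_le_mul_right ((enorm_sum_le _ _).trans (Finset.sum_le_sum fun n _ => ?_)) _
  exact FF6_le _

end main

/-! ### the rows `x, 0, .., 0` -/

theorem re_II : ∀ w ∈ ([I, -I] : List ℂ), |w.re| ≤ l / 2 := by
  intro w hw
  have hl := NUP1.l_pos
  rw [List.mem_cons, List.mem_singleton] at hw
  rcases hw with rfl | rfl
  · rw [Complex.I_re, abs_zero]; positivity
  · rw [Complex.neg_re, Complex.I_re, neg_zero, abs_zero]; positivity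

/-- **the literal function is the functional**, rows `x, 0, .., 0` -/
theorem fN_FF6_mu1 (hFF : FFth) : ∃ m0 : ℕ, ∀ k : ℕ, m0 ≤ k + 1 → ∀ (P : Par6) (ep β : ℝ), GoodP6 P → HI6 P →
    0 < ep → ep ≤ 1 / 100 → 0 < β → β ≤ 4 / 3 → ∀ x z : ℂ, |x.re| ≤ l / 2 → |x.im| ≤ 2 → ∀ g0 : Bool → ℂ → ℂ,
    (∀ a, GF6 (rwq (mu1 k x) a) (g0 a)) → -(9 / 10 * l) ≤ z.re → z.re ≤ 31 / 10 * l → ∀ η η' : ℕ → Crs,
    (∀ n ∈ range (2 * (k + 1) + 1), ∀ r ≤ 2 * (n + (n + Fil.xn (k + 1))),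
      ∀ᵐ O ∂(Measure.pi fun _ : Fin r => nu), CurB ep (η n r O) (η' n r O)) →
    fQ Fil.q (mu1 k x) z = Pf z (mu1 k x) (yq (mu1 k x)) * ∑ n ∈ range (2 * (k + 1) + 1),
      FF6 (ZL6 (fun a => Leg.cc (cond a (k + 1) (Fil.q * (k + 1)))) g0 k β x z) P n (n + Fil.xn (k + 1))
        (η n) (η' n) (fun _ _ _ _ _ => 1) := by
  obtain ⟨m0, hm0⟩ := phI6_mu1
  refine ⟨m0, fun k hk P ep β hP hI hep0 hep hβ hβ' x z hx hx' g0 hg0 h1 h2 η η' hη => ?_⟩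
  exact fN_FF6 hFF hP hI hep0 hep hβ hβ' (PBT.PLX.rws_mu1 k hx) (fun _ => re_II) hg0
    (hm0 k hk β hβ hβ' x hx hx') h1 h2 hη

/-- **the bound by the functional with moduli**, rows `x, 0, .., 0` -/
theorem fN_le6_mu1 (hFF : FFth) : ∃ m0 : ℕ, ∀ k : ℕ, m0 ≤ k + 1 → ∀ (P : Par6) (ep β : ℝ), GoodP6 P → HI6 P →
    0 < ep → ep ≤ 1 / 100 → 0 < β → β ≤ 4 / 3 → ∀ x z : ℂ, |x.re| ≤ l / 2 → |x.im| ≤ 2 → ∀ g0 : Bool → ℂ → ℂ,
    (∀ a, GF6 (rwq (mu1 k x) a) (g0 a)) → -(9 / 10 * l) ≤ z.re → z.re ≤ 31 / 10 * l → ∀ η η' : ℕ → Crs,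
    (∀ n ∈ range (2 * (k + 1) + 1), ∀ r ≤ 2 * (n + (n + Fil.xn (k + 1))),
      ∀ᵐ O ∂(Measure.pi fun _ : Fin r => nu), CurB ep (η n r O) (η' n r O)) →
    ‖fQ Fil.q (mu1 k x) z‖ₑ ≤ ‖Pf z (mu1 k x) (yq (mu1 k x))‖ₑ * ∑ n ∈ range (2 * (k + 1) + 1),
      FA6 (ZL6 (fun a => Leg.cc (cond a (k + 1) (Fil.q * (k + 1)))) g0 k β x z) P n (n + Fil.xn (k + 1))
        (η n) (η' n) (fun _ _ _ _ _ => 1) := by
  obtain ⟨m0, hm0⟩ := phI6_mu1
  refine ⟨m0, fun k hk P ep β hP hI hep0 hep hβ hβ' x z hx hx' g0 hg0 h1 h2 η η' hη => ?_⟩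
  exact fN_le6 hFF hP hI hep0 hep hβ hβ' (PBT.PLX.rws_mu1 k hx) (fun _ => re_II) hg0
    (hm0 k hk β hβ hβ' x hx hx') h1 h2 hη

/-- the string cutoff with `om` is admissible -/
theorem gF6_L {k : ℕ} {x : ℂ} (hx : |x.re| ≤ l / 2) (T1 : ℝ) (a : Bool) :
    GF6 (rwq (mu1 k x) a) (gO T1 [] (rwq (mu1 k x) a)) :=
  Pool.Agent.PLX.gF6_gO T1 (Rws_rwq (PBT.PLX.rws_mu1 k hx) a) (by simp)

end PHK

end
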