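import Pool.Agent.NUO.Sum

/-!
# PLAX-P: holes beyond the end of the sea

Holes grow like `exp (a (|t| - T)_+)`; the localiser makes every hole stay near a string, at most
`∑_j 4 exp (-6 |t i - t j|)`; the strings have a doubly exponential cutoff.

* `dT T t = (|t| - T)_+`;
* `exp_dbl`: doubly exponential against polynomials of degree 3 and against `exp (- b D)`;
* **`far_prod`**: the product of the holes and strings is at most
  `K ∏ holes (4 n exp (-b d)) ∏ strings (K exp (-b d)) exp (c1 ∑_w n_w ^ 2)`.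
-/

set_option autoImplicit false

noncomputable section

open Finset

namespace PHK

open NUO

/-- distance of the height `t` beyond `T` -/
def dT (T t : ℝ) : ℝ := max (|t| - T) 0

theorem dT_nonneg (T t : ℝ) : 0 ≤ dT T t := le_max_right _ _

theorem le_dT (T t : ℝ) : |t| ≤ T + dT T t := by
  have := le_max_left (|t| - T) 0
  unfold dT
  linarith

theorem dT_eq {T t : ℝ} (h : 0 < dT T t) : |t| = T + dT T t := by
  unfold dT at h ⊢
  rcases max_cases (|t| - T) 0 with ⟨h1, _⟩ | ⟨h1, _⟩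
  · rw [h1]; ring
  · rw [h1] at h; exact absurd h (lt_irrefl _)

/-- quartic against cubic -/
theorem cubic_le {A c : ℝ} (hA : 0 ≤ A) (hc : 0 < c) (x : ℝ) (hx : 0 ≤ x) :
    A * x ^ 3 ≤ c * x ^ 4 + A * (A / c) ^ 3 := by
  rcases le_total (A / c) x with h | h
  · have h1 : A ≤ c * x := by rwa [div_le_iff₀' hc] at h
    have h2 : A * x ^ 3 ≤ c * x * x ^ 3 := mul_le_mul_of_nonneg_right h1 (by positivity)
    have h3 : 0 ≤ A * (A / c) ^ 3 := by positivity
    clear * - h2 h3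
    nlinarith
  · have h1 : x ^ 3 ≤ (A / c) ^ 3 := pow_le_pow_left₀ hx h 3
    have h2 : A * x ^ 3 ≤ A * (A / c) ^ 3 := mul_le_mul_of_nonneg_left h1 hA
    have h3 : 0 ≤ c * x ^ 4 := by positivity
    clear * - h2 h3
    linarith

/-- doubly exponential decay beats cubic growth -/
theorem exp_dbl {A c τ : ℝ} (hA : 0 ≤ A) (hc : 0 < c) :
    ∃ K : ℝ, 0 ≤ K ∧ ∀ D : ℝ, 0 ≤ D → A * (1 + D) ^ 3 ≤ K + c * Real.exp (2 * (D - τ)) := by
  obtain ⟨c', hc'⟩ : ∃ c', c' = c * Real.exp (-(2 * τ)) * (2 / 3) / 8 := ⟨_, rfl⟩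
  have hc'0 : 0 < c' := by rw [hc']; positivity
  refine ⟨A * (A / c') ^ 3 + 8 * c', by positivity, fun D hD => ?_⟩
  have h1 := cubic_le hA hc'0 (1 + D) (by (clear * - hD; linarith))
  have h2 : (1 + D) ^ 4 ≤ 8 * (1 + D ^ 4) := by
    clear * - hD
    nlinarith [sq_nonneg (1 - D), sq_nonneg (1 - D ^ 2), sq_nonneg (1 + D), mul_nonneg hD hD,
      mul_nonneg (sq_nonneg (1 - D)) (sq_nonneg (1 + D)), sq_nonneg ((1 - D) * (1 - D)),
      mul_nonneg (mul_nonneg hD (sq_nonneg (1 - D))) (sq_nonneg (1 : ℝ))]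
  have h3 : 2 / 3 * D ^ 4 ≤ Real.exp (2 * D) := by
    have h := Real.pow_div_factorial_le_exp (2 * D) (by positivity) 4
    have e : (2 * D) ^ 4 / (Nat.factorial 4 : ℝ) = 2 / 3 * D ^ 4 := by
      simp only [Nat.factorial]
      push_cast
      ring
    rw [e] at h
    exact h
  have h4 : c * Real.exp (2 * (D - τ)) = c * Real.exp (-(2 * τ)) * Real.exp (2 * D) := by
    rw [mul_assoc, ← Real.exp_add]
    congr 2
    ring
  have h5 : 0 < c * Real.exp (-(2 * τ)) := by positivity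
  have h6 : c' * (8 * D ^ 4) ≤ c * Real.exp (2 * (D - τ)) := by
    rw [h4]
    calc c' * (8 * D ^ 4) = c * Real.exp (-(2 * τ)) * (2 / 3 * D ^ 4) := by rw [hc']; ring
      _ ≤ _ := mul_le_mul_of_nonneg_left h3 h5.le
  have h7 : c' * (1 + D) ^ 4 ≤ c' * (8 * (1 + D ^ 4)) := mul_le_mul_of_nonneg_left h2 hc'0.le
  linarith

/-- the exponent of one hole: growth, decay asked for, localiser -/
theorem hole_exp {a b d D : ℝ} (ha : 0 ≤ a) (hb : 0 ≤ b) (hab : a + b < 6) (hd : 0 ≤ d)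
    (hD : 0 ≤ D) : (a + b) * d - 6 * max (d - D) 0 ≤
      if 0 < d ∧ d ≤ 6 / (6 - a - b) * D then (a + b) * D else 0 := by
  have h8 : 0 < 6 - a - b := by linarith
  have hab0 : 0 ≤ a + b := by linarith
  split_ifs with h
  · rcases le_total d D with h1 | h1
    · rw [max_eq_right (by linarith)]
      clear * - ha h1 hb
      nlinarith
    · rw [max_eq_left (by linarith)]
      nlinarith
  · rcases hd.eq_or_lt with h0 | h0
    · rw [← h0, max_eq_right (by linarith)]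
      linarith
    · have h1 : 6 / (6 - a - b) * D < d := by
        by_contra hc
        exact h ⟨h0, not_lt.1 hc⟩
      rw [div_mul_eq_mul_div, div_lt_iff₀ h8] at h1
      have h2 : D ≤ d := by
        have : (6 - a - b) * D ≤ 6 * D := by (clear * - ha hD hb; nlinarith)
        clear * - h1 ha hd hb
        nlinarith
      rw [max_eq_left (by linarith)]
      clear * - h1
      nlinarith

/-- the windows between `T` and `T + x` -/
def ZW (T x : ℝ) (W : Finset ℤ) : Finset ℤ :=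
  W.filter fun w => T - 1 ≤ |(w : ℝ)| ∧ |(w : ℝ)| ≤ T + x + 1

theorem card_ZW {T x : ℝ} (hx : 0 ≤ x) (W : Finset ℤ) : ((ZW T x W).card : ℝ) ≤ 2 * x + 6 := by
  classical
  set A : ℤ := ⌈T - 1⌉ with hA
  set B : ℤ := ⌊T + x + 1⌋ with hB
  have hsub : ZW T x W ⊆ Finset.Icc A B ∪ Finset.Icc (-B) (-A) := by
    intro w hw
    unfold ZW at hw
    rw [mem_filter] at hw
    obtain ⟨-, h1, h2⟩ := hw
    rw [mem_union, mem_Icc, mem_Icc]
    rcases abs_cases (w : ℝ) with ⟨h3, -⟩ | ⟨h3, -⟩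
    · rw [h3] at h1 h2
      exact Or.inl ⟨Int.ceil_le.2 h1, Int.le_floor.2 h2⟩
    · rw [h3] at h1 h2
      have h4 : A ≤ -w := Int.ceil_le.2 (by push_cast; exact h1)
      have h5 : -w ≤ B := Int.le_floor.2 (by push_cast; exact h2)
      exact Or.inr ⟨by omega, by omega⟩
  have hc := (card_le_card hsub).trans (card_union_le _ _)
  rw [Int.card_Icc, Int.card_Icc] at hc
  have e1 : (T - 1 : ℝ) ≤ A := Int.le_ceil _
  have e2 : (B : ℝ) ≤ T + x + 1 := Int.floor_le _
  have e3 : (((B + 1 - A).toNat : ℕ) : ℝ) ≤ x + 3 := by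
    rcases le_total 0 (B + 1 - A) with h | h
    · have h1 : (((B + 1 - A).toNat : ℤ) : ℝ) = ((B + 1 - A : ℤ) : ℝ) := by
        rw [Int.toNat_of_nonneg h]
      push_cast at h1
      rw [h1]
      linarith
    · rw [Int.toNat_of_nonpos h]
      push_cast
      linarith
  have e4 : (-A + 1 - -B : ℤ) = B + 1 - A := by ring
  rw [e4] at hc
  have hc' : ((ZW T x W).card : ℝ) ≤ ((B + 1 - A).toNat : ℝ) + ((B + 1 - A).toNat : ℝ) := by
    exact_mod_cast hc
  linarith

/-- **the holes between `T` and `T + x` are paid by the squares of the windows** -/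
theorem zone_le {ι : Type*} [Fintype ι] {T x lam c1 : ℝ} (hx : 0 ≤ x) (hl : 0 ≤ lam)
    (hc1 : 0 < c1) (t : ι → ℝ) (H : Finset ι) (W : Finset ℤ) (hW : ∀ i, ⌊t i⌋ ∈ W) :
    ∑ i ∈ H, (if 0 < dT T (t i) ∧ dT T (t i) ≤ x then lam else 0) ≤
      c1 * ∑ w ∈ W, (cnt t w : ℝ) ^ 2 + (2 * x + 6) * (lam ^ 2 / (4 * c1)) := by
  have h1 : ∀ i, (if 0 < dT T (t i) ∧ dT T (t i) ≤ x then lam else 0) ≤
      tilt (ZW T x W) (fun _ => lam) (t i) := by
    intro i
    unfold tilt
    split_ifs with h2 h3 h3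
    · exact le_rfl
    · exfalso
      apply h3
      unfold ZW
      rw [mem_filter]
      have h4 := dT_eq h2.1
      have f1 := Int.floor_le (t i)
      have f2 := Int.lt_floor_add_one (t i)
      have f3 : |((⌊t i⌋ : ℤ) : ℝ) - t i| ≤ 1 := by
        rw [abs_le]
        constructor <;> linarith
      have f4 := abs_sub_abs_le_abs_sub ((⌊t i⌋ : ℤ) : ℝ) (t i)
      have f5 := abs_sub_abs_le_abs_sub (t i) ((⌊t i⌋ : ℤ) : ℝ)
      rw [abs_sub_comm (t i)] at f5
      exact ⟨hW i, by linarith [h2.1], by linarith [h2.2]⟩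
    · exact hl
    · exact le_rfl
  calc ∑ i ∈ H, (if 0 < dT T (t i) ∧ dT T (t i) ≤ x then lam else 0)
      ≤ ∑ i, (if 0 < dT T (t i) ∧ dT T (t i) ≤ x then lam else 0) := by
        refine sum_le_sum_of_subset_of_nonneg (subset_univ _) fun i _ _ => ?_
        split_ifs
        · exact hl
        · exact le_rfl
    _ ≤ ∑ i, tilt (ZW T x W) (fun _ => lam) (t i) := sum_le_sum fun i _ => h1 i
    _ = ∑ w ∈ ZW T x W, lam * (cnt t w : ℝ) := (sum_cnt _ _ _).symm
    _ ≤ ∑ w ∈ ZW T x W, (c1 * (cnt t w : ℝ) ^ 2 + lam ^ 2 / (4 * c1)) := by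
        refine sum_le_sum fun w _ => ?_
        have h : c1 * (cnt t w : ℝ) ^ 2 + lam ^ 2 / (4 * c1) - lam * (cnt t w : ℝ) =
            c1 * ((cnt t w : ℝ) - lam / (2 * c1)) ^ 2 := by
          field_simp
          ring
        have h2 : 0 ≤ c1 * ((cnt t w : ℝ) - lam / (2 * c1)) ^ 2 := by positivity
        clear * - h h2
        linarith
    _ = c1 * ∑ w ∈ ZW T x W, (cnt t w : ℝ) ^ 2 + (ZW T x W).card * (lam ^ 2 / (4 * c1)) := by
        rw [sum_add_distrib, ← mul_sum, sum_const, nsmul_eq_mul]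
    _ ≤ _ := by
        have h3 : ∑ w ∈ ZW T x W, (cnt t w : ℝ) ^ 2 ≤ ∑ w ∈ W, (cnt t w : ℝ) ^ 2 :=
          sum_le_sum_of_subset_of_nonneg (filter_subset _ _) fun _ _ _ => sq_nonneg _
        have h4 := card_ZW (T := T) hx W
        have h5 : 0 ≤ lam ^ 2 / (4 * c1) := by positivity
        exact add_le_add (mul_le_mul_of_nonneg_left h3 hc1.le) (mul_le_mul_of_nonneg_right h4 h5)

/-- the localiser of one hole: at most `4 n exp (-6 (d - D)_+)` when every string is within `T + D` -/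
theorem loc_le {ι : Type*} [Fintype ι] {T D : ℝ} {t : ι → ℝ} {S : Finset ι} {i : ι} {gi : ℝ}
    (hD : ∀ j ∈ S, dT T (t j) ≤ D)
    (hg : gi ≤ ∑ j ∈ S, 4 * Real.exp (-(6 * |t i - t j|))) :
    gi ≤ 4 * (Fintype.card ι : ℝ) * Real.exp (-(6 * max (dT T (t i) - D) 0)) := by
  have h1 : ∀ j ∈ S, 4 * Real.exp (-(6 * |t i - t j|)) ≤
      4 * Real.exp (-(6 * max (dT T (t i) - D) 0)) := by
    intro j hj
    refine mul_le_mul_of_nonneg_left (Real.exp_le_exp.2 ?_) (by norm_num)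
    have h2 : max (dT T (t i) - D) 0 ≤ |t i - t j| := by
      refine max_le ?_ (abs_nonneg _)
      rcases (dT_nonneg T (t i)).eq_or_lt with h | h
      · have h3 := (dT_nonneg T (t j)).trans (hD j hj)
        rw [← h]
        have := abs_nonneg (t i - t j)
        linarith
      · have h3 := dT_eq h
        have h4 := le_dT T (t j)
        have h5 := hD j hj
        have h6 := abs_sub_abs_le_abs_sub (t i) (t j)
        linarith
    linarith
  have hE : 0 ≤ 4 * Real.exp (-(6 * max (dT T (t i) - D) 0)) := by positivity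
  calc gi ≤ ∑ j ∈ S, 4 * Real.exp (-(6 * |t i - t j|)) := hg
    _ ≤ ∑ _j ∈ S, 4 * Real.exp (-(6 * max (dT T (t i) - D) 0)) := sum_le_sum h1
    _ = (S.card : ℝ) * (4 * Real.exp (-(6 * max (dT T (t i) - D) 0))) := by
        rw [sum_const, nsmul_eq_mul]
    _ ≤ (Fintype.card ι : ℝ) * (4 * Real.exp (-(6 * max (dT T (t i) - D) 0))) :=
        mul_le_mul_of_nonneg_right (by exact_mod_cast card_le_univ S) hE
    _ = _ := by ring

/-- **the holes near the strings are paid**: `g` localisers, holes grow like `exp (a d)`, strings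
like `exp (a' d - c exp (2 (|t| - T - τ)))` -/
theorem far_prod {a a' b c c1 τ : ℝ} (ha : 0 ≤ a) (ha' : 0 ≤ a') (hb : 0 ≤ b) (hab : a + b < 6)
    (hc : 0 < c) (hc1 : 0 < c1) : ∃ K : ℝ, 1 ≤ K ∧ ∀ (ι : Type) [Fintype ι] (T : ℝ) (t g : ι → ℝ)
      (H S : Finset ι) (W : Finset ℤ), (∀ i, ⌊t i⌋ ∈ W) → (∀ i ∈ H, 0 ≤ g i) →
      (∀ i ∈ H, g i ≤ ∑ j ∈ S, 4 * Real.exp (-(6 * |t i - t j|))) →
      (∏ i ∈ H, (g i * Real.exp (a * dT T (t i)))) *
          ∏ j ∈ S, Real.exp (a' * dT T (t j) - c * Real.exp (2 * (|t j| - T - τ))) ≤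
        K * (∏ i ∈ H, (4 * (Fintype.card ι : ℝ) * Real.exp (-(b * dT T (t i))))) *
          (∏ j ∈ S, (K * Real.exp (-(b * dT T (t j))))) *
          Real.exp (c1 * ∑ w ∈ W, (cnt t w : ℝ) ^ 2) := by
  have hab0 : 0 ≤ a + b := by linarith
  have hab1 : 0 ≤ a' + b := by linarith
  obtain ⟨K2, hK2, h2⟩ := exp_dbl (A := a' + b) (c := c / 2) (τ := τ) hab1 (by positivity)
  obtain ⟨κ, hκ⟩ : ∃ κ, κ = 6 / (6 - a - b) := ⟨_, rfl⟩
  have hκ0 : 0 ≤ κ := by
    rw [hκ]
    have : 0 < 6 - a - b := by linarith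
    positivity
  obtain ⟨A, hA⟩ : ∃ A, A = (2 * κ + 6) * ((a + b) ^ 2 / (4 * c1)) := ⟨_, rfl⟩
  have hA0 : 0 ≤ A := by rw [hA]; positivity
  obtain ⟨K3, hK3, h3⟩ := exp_dbl (A := A) (c := c / 2) (τ := τ) hA0 (by positivity)
  have hK1 : 1 ≤ Real.exp (K2 + K3) := Real.one_le_exp (by positivity)
  refine ⟨Real.exp (K2 + K3), hK1, ?_⟩
  intro ι _ T t g H S W hW hg0 hg
  have hX0 : 0 ≤ c1 * ∑ w ∈ W, (cnt t w : ℝ) ^ 2 :=
    mul_nonneg hc1.le (sum_nonneg fun _ _ => sq_nonneg _)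
  rcases S.eq_empty_or_nonempty with hS | hS
  · subst hS
    rcases H.eq_empty_or_nonempty with hH | hH
    · subst hH
      simp only [prod_empty, mul_one]
      have h5 : 1 ≤ Real.exp (c1 * ∑ w ∈ W, (cnt t w : ℝ) ^ 2) := Real.one_le_exp hX0
      clear * - hK1 h5
      nlinarith
    · obtain ⟨i0, hi0⟩ := hH
      have h6 : g i0 = 0 := le_antisymm (by simpa using hg i0 hi0) (hg0 i0 hi0)
      have h7 : ∏ i ∈ H, (g i * Real.exp (a * dT T (t i))) = 0 :=
        prod_eq_zero hi0 (by rw [h6, zero_mul])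
      rw [h7, zero_mul]
      have h8 : 0 ≤ ∏ i ∈ H, (4 * (Fintype.card ι : ℝ) * Real.exp (-(b * dT T (t i)))) :=
        prod_nonneg fun i _ => by positivity
      have h9 : 0 ≤ ∏ j ∈ (∅ : Finset ι), (Real.exp (K2 + K3) * Real.exp (-(b * dT T (t j)))) :=
        prod_nonneg fun i _ => by positivity
      positivity
  obtain ⟨j0, hj0, hmax⟩ := S.exists_max_image (fun j => dT T (t j)) hS
  obtain ⟨D, hDd⟩ : ∃ D, D = dT T (t j0) := ⟨_, rfl⟩
  have hD0 : 0 ≤ D := by rw [hDd]; exact dT_nonneg _ _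
  have hD : ∀ j ∈ S, dT T (t j) ≤ D := fun j hj => by rw [hDd]; exact hmax j hj
  -- the holes
  obtain ⟨z, hz⟩ : ∃ z : ι → ℝ, z = fun i =>
    if 0 < dT T (t i) ∧ dT T (t i) ≤ κ * D then (a + b) * D else 0 := ⟨_, rfl⟩
  have hole : ∀ i ∈ H, g i * Real.exp (a * dT T (t i)) ≤
      4 * (Fintype.card ι : ℝ) * Real.exp (-(b * dT T (t i))) * Real.exp (z i) := by
    intro i hi
    have e1 := loc_le hD (hg i hi)
    have e2 := hole_exp (d := dT T (t i)) (D := D) ha hb hab (dT_nonneg _ _) hD0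
    have hn : (0 : ℝ) ≤ 4 * (Fintype.card ι : ℝ) := by positivity
    calc g i * Real.exp (a * dT T (t i))
        ≤ 4 * (Fintype.card ι : ℝ) * Real.exp (-(6 * max (dT T (t i) - D) 0)) *
          Real.exp (a * dT T (t i)) := mul_le_mul_of_nonneg_right e1 (Real.exp_pos _).le
      _ = 4 * (Fintype.card ι : ℝ) *
          Real.exp (-(6 * max (dT T (t i) - D) 0) + a * dT T (t i)) := by
          rw [Real.exp_add]; ring
      _ ≤ 4 * (Fintype.card ι : ℝ) * Real.exp (-(b * dT T (t i)) + z i) := by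
          refine mul_le_mul_of_nonneg_left (Real.exp_le_exp.2 ?_) hn
          rw [hz, hκ]
          simp only
          linarith
      _ = _ := by rw [Real.exp_add]; ring
  have hz1 : ∑ i ∈ H, z i ≤ c1 * ∑ w ∈ W, (cnt t w : ℝ) ^ 2 +
      (2 * (κ * D) + 6) * (((a + b) * D) ^ 2 / (4 * c1)) := by
    rw [hz]
    exact zone_le (mul_nonneg hκ0 hD0) (mul_nonneg hab0 hD0) hc1 t H W hW
  have hH1 : ∏ i ∈ H, (g i * Real.exp (a * dT T (t i))) ≤
      (∏ i ∈ H, (4 * (Fintype.card ι : ℝ) * Real.exp (-(b * dT T (t i))))) *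
        Real.exp (∑ i ∈ H, z i) := by
    rw [Real.exp_sum, ← prod_mul_distrib]
    exact prod_le_prod (fun i hi => mul_nonneg (hg0 i hi) (Real.exp_pos _).le) hole
  -- the strings
  obtain ⟨X, hX⟩ : ∃ X : ι → ℝ, X = fun j => c * Real.exp (2 * (|t j| - T - τ)) := ⟨_, rfl⟩
  have hXn : ∀ j, 0 ≤ X j := fun j => by rw [hX]; positivity
  have hXD : ∀ j, 0 < dT T (t j) → X j = c * Real.exp (2 * (dT T (t j) - τ)) := by
    intro j hj
    rw [hX]
    simp only
    rw [dT_eq hj]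
    congr 2
    ring
  have string : ∀ j ∈ S, Real.exp (a' * dT T (t j) - X j) ≤
      Real.exp K2 * Real.exp (-(b * dT T (t j))) * Real.exp (-(X j / 2)) := by
    intro j _
    rw [← Real.exp_add, ← Real.exp_add]
    refine Real.exp_le_exp.2 ?_
    rcases (dT_nonneg T (t j)).eq_or_lt with h | h
    · rw [← h]
      have := hXn j
      linarith
    · have e1 := h2 (dT T (t j)) h.le
      have e2 : (a' + b) * dT T (t j) ≤ (a' + b) * (1 + dT T (t j)) ^ 3 := by
        refine mul_le_mul_of_nonneg_left ?_ hab1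
        clear * - h
        nlinarith [pow_pos h 3, sq_nonneg (dT T (t j))]
      have e3 := hXD j h
      rw [e3]
      linarith
  have hS1 : ∏ j ∈ S, Real.exp (a' * dT T (t j) - X j) ≤
      (∏ j ∈ S, (Real.exp K2 * Real.exp (-(b * dT T (t j))))) * Real.exp (-(X j0 / 2)) := by
    calc ∏ j ∈ S, Real.exp (a' * dT T (t j) - X j)
        ≤ ∏ j ∈ S, (Real.exp K2 * Real.exp (-(b * dT T (t j))) * Real.exp (-(X j / 2))) :=
          prod_le_prod (fun j _ => (Real.exp_pos _).le) string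
      _ = (∏ j ∈ S, (Real.exp K2 * Real.exp (-(b * dT T (t j))))) *
          Real.exp (∑ j ∈ S, -(X j / 2)) := by rw [prod_mul_distrib, Real.exp_sum]
      _ ≤ _ := by
          refine mul_le_mul_of_nonneg_left (Real.exp_le_exp.2 ?_)
            (prod_nonneg fun j _ => by positivity)
          rw [sum_neg_distrib, neg_le_neg_iff]
          exact single_le_sum (f := fun j => X j / 2)
            (fun j _ => by have := hXn j; positivity) hj0
  -- the cost of the zone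
  have hzone : (2 * (κ * D) + 6) * (((a + b) * D) ^ 2 / (4 * c1)) - X j0 / 2 ≤ K3 := by
    rcases hD0.eq_or_lt with h | h
    · rw [← h]
      have := hXn j0
      simp only [mul_zero]
      norm_num
      clear * - hK3 this
      linarith
    · have e1 := h3 D h.le
      have e2 := hXD j0 (by rw [← hDd]; exact h)
      rw [← hDd] at e2
      rw [e2]
      have e3 : (2 * (κ * D) + 6) * (((a + b) * D) ^ 2 / (4 * c1)) ≤ A * (1 + D) ^ 3 := by
        have f1 : (2 * (κ * D) + 6) * (((a + b) * D) ^ 2 / (4 * c1)) =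
            (a + b) ^ 2 / (4 * c1) * ((2 * κ * D + 6) * D ^ 2) := by ring
        have f2 : A * (1 + D) ^ 3 = (a + b) ^ 2 / (4 * c1) * ((2 * κ + 6) * (1 + D) ^ 3) := by
          rw [hA]; ring
        rw [f1, f2]
        refine mul_le_mul_of_nonneg_left ?_ (by (clear * - hc1; positivity))
        have f3 : D ^ 3 ≤ (1 + D) ^ 3 := pow_le_pow_left₀ hD0 (by (clear * -; linarith)) 3
        have f4 : D ^ 2 ≤ (1 + D) ^ 3 := by (clear * - h; nlinarith [pow_pos h 3, sq_nonneg D])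
        have f5 := mul_le_mul_of_nonneg_left f3 (show 0 ≤ 2 * κ by linarith)
        calc (2 * κ * D + 6) * D ^ 2 = 2 * κ * D ^ 3 + 6 * D ^ 2 := by ring
          _ ≤ 2 * κ * (1 + D) ^ 3 + 6 * (1 + D) ^ 3 := by linarith
          _ = _ := by ring
      clear * - e1 e3
      linarith
  -- together
  have hP1 : 0 ≤ ∏ i ∈ H, (4 * (Fintype.card ι : ℝ) * Real.exp (-(b * dT T (t i)))) :=
    prod_nonneg fun i _ => by positivity
  have hP2 : 0 ≤ ∏ j ∈ S, (Real.exp K2 * Real.exp (-(b * dT T (t j)))) :=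
    prod_nonneg fun i _ => by positivity
  have hP3 : ∏ j ∈ S, (Real.exp K2 * Real.exp (-(b * dT T (t j)))) ≤
      ∏ j ∈ S, (Real.exp (K2 + K3) * Real.exp (-(b * dT T (t j)))) := by
    refine prod_le_prod (fun j _ => by positivity) fun j _ => ?_
    exact mul_le_mul_of_nonneg_right (Real.exp_le_exp.2 (by linarith)) (Real.exp_pos _).le
  have hS2 : ∏ j ∈ S, Real.exp (a' * dT T (t j) - c * Real.exp (2 * (|t j| - T - τ))) ≤
      (∏ j ∈ S, (Real.exp K2 * Real.exp (-(b * dT T (t j))))) * Real.exp (-(X j0 / 2)) := by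
    rw [hX] at hS1
    rw [hX]
    exact hS1
  calc (∏ i ∈ H, (g i * Real.exp (a * dT T (t i)))) *
          ∏ j ∈ S, Real.exp (a' * dT T (t j) - c * Real.exp (2 * (|t j| - T - τ)))
      ≤ ((∏ i ∈ H, (4 * (Fintype.card ι : ℝ) * Real.exp (-(b * dT T (t i))))) *
          Real.exp (∑ i ∈ H, z i)) *
        ((∏ j ∈ S, (Real.exp K2 * Real.exp (-(b * dT T (t j))))) * Real.exp (-(X j0 / 2))) :=
        mul_le_mul hH1 hS2 (prod_nonneg fun j _ => (Real.exp_pos _).le)
          (mul_nonneg hP1 (Real.exp_pos _).le)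
    _ = (∏ i ∈ H, (4 * (Fintype.card ι : ℝ) * Real.exp (-(b * dT T (t i))))) *
        (∏ j ∈ S, (Real.exp K2 * Real.exp (-(b * dT T (t j))))) *
          Real.exp (∑ i ∈ H, z i + -(X j0 / 2)) := by rw [Real.exp_add]; ring
    _ ≤ (∏ i ∈ H, (4 * (Fintype.card ι : ℝ) * Real.exp (-(b * dT T (t i))))) *
        (∏ j ∈ S, (Real.exp (K2 + K3) * Real.exp (-(b * dT T (t j))))) *
          Real.exp (K2 + K3 + c1 * ∑ w ∈ W, (cnt t w : ℝ) ^ 2) := by
        refine mul_le_mul (mul_le_mul_of_nonneg_left hP3 hP1) (Real.exp_le_exp.2 ?_)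
          (Real.exp_pos _).le (mul_nonneg hP1 (hP2.trans hP3))
        clear * - hK2 hz1 hzone
        linarith
    _ = _ := by
        rw [Real.exp_add (K2 + K3)]
        obtain ⟨P1, h1⟩ : ∃ P1, P1 =
          ∏ i ∈ H, (4 * (Fintype.card ι : ℝ) * Real.exp (-(b * dT T (t i)))) := ⟨_, rfl⟩
        obtain ⟨P2, h2⟩ : ∃ P2, P2 =
          ∏ j ∈ S, (Real.exp (K2 + K3) * Real.exp (-(b * dT T (t j)))) := ⟨_, rfl⟩
        obtain ⟨k, hk⟩ : ∃ k, k = Real.exp (K2 + K3) := ⟨_, rfl⟩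
        rw [← h1, ← h2, ← hk]
        ring

end PHK

end
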