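import Pool.Agent.PHK.FibX6
import Pool.Agent.PHK.FamL6

/-!
# (P): the data of all fibres at the family of the dislocated function

The class functions `ZL6` (any string cutoff `g0`).

* `logD6_L`: `LogD6` of `ZL6` (rows `mu1 k x` on the imaginary axis) and of the objects;
* `meas_ZL6`; `mc6_L`: measurability;
* **`fibN6_L0`**: `FibN6` for `ZL6`, legs at `z`, on the fixed curve `cr e1 J M`; `N` with
  `dN N = xn (k + 1)`;
* **`fibN6_fL`**: the instance at `fx j` (rows `mu1 j (I s)`, legs `I t`), `N = 2 (j + 1)`, string cutoff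
  `g0L`.
-/

set_option autoImplicit false
set_option linter.unusedSectionVars false

noncomputable section

open Complex MeasureTheory Finset
open PLX (Fil)

namespace PBFX.PLX

open NUP1 NUO NUP1S NUP1S.Ab NUGC NUGC.PLX PBF PBF.PLX PBLZ PBLZ.PLX
open PHK
open PBL.PLX (mu1)
open PBT.PLX (rws_mu1)
open Pool.Agent.PLX (rwq)
open PBX (Lg ph)

theorem mu1_re' (k : ℕ) {x : ℂ} (hx : x.re = 0) (i : Fin (k + 1)) : (mu1 k x i).re = 0 := by
  refine Fin.cases ?_ (fun i => ?_) i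
  · simpa [PBL.PLX.mu1] using hx
  · simp [PBL.PLX.mu1]

variable [Fil]

/-- **`LogD6` of the dislocated function**, any string cutoff -/
theorem logD6_L {ep : ℝ} (h0 : 0 < ep) (h1 : ep ≤ 1 / 100) (c : Bool → ℂ) (g0 : Bool → ℂ → ℂ) (k : ℕ)
    {x z : ℂ} (hx : x.re = 0) (hz : |z.re| ≤ l / 2) {P : Par6} {c' : ℝ} (hd : DsC P (ep / 4) c') :
    LogD6 (ZL6 c g0 k (4 / 3 * (1 - ep)) x z) P (ep / 4)
      (fun u => LZX u (4 / 3 * (1 - ep)) (mu1 k x) [I, -I] z) (LPo6 P) :=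
  LogD6_XX (lzOk_std h0 h1 (Nat.succ_pos k) (mu1_re' k hx) re_pm hz) c g0
    (fun _ w => Lg z z w * Lg z z (w - NUP1.l)) hd

/-- the class functions are measurable -/
theorem meas_ZL6 (c : Bool → ℂ) {g0 : Bool → ℂ → ℂ} (hg : ∀ a, Measurable (g0 a)) (k : ℕ) (β : ℝ)
    (x z : ℂ) (a : Bool) (q : Option O3) : Measurable (ZL6 c g0 k β x z a q) :=
  Pool.Agent.PLX.measurable_XXU (PBX.measurable_gP _ _) (hg a) (PBX.Lg_meas z z)
    ((PBX.Lg_meas z z).mul ((PBX.Lg_meas z z).comp (measurable_id.sub_const _))) q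

variable [NUSea.Sea]

/-- measurability of the fibres -/
theorem mc6_L (e1 J : ℝ) (M : ℕ) (c : Bool → ℂ) {g0 : Bool → ℂ → ℂ} (hg : ∀ a, Measurable (g0 a))
    (k : ℕ) (β : ℝ) (x z : ℂ) (P : Par6) :
    MC6 (ZL6 c g0 k β x z) P (PBU.PLX.cr e1 J M) (PBU.PLX.cr' e1 J M) :=
  MC6.of (fun s q => meas_ZL6 c hg k β x z s q) (mcr_cr' e1 J M)

/-- **the data of all fibres**: row `x` on the imaginary axis, legs `z`, any sea `ρ` -/
theorem fibN6_L0 {ep e1 J : ℝ} (hep0 : 0 < ep) (hep : ep ≤ 1 / 100) (he : 0 < e1)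
    (he1 : e1 ≤ 1 / 100) (hJ : 0 ≤ J) :
    ∃ m0 : ℕ, ∀ M ≥ m0, ∀ (k : ℕ) (x : ℂ), x.re = 0 → ∀ (T1 : ℝ) (c : Bool → ℂ) (g0 : Bool → ℂ → ℂ),
      (∀ a, ‖c a‖ = 2 * Real.cos NUP1.l) → (∀ a, Measurable (g0 a)) →
      (∀ a, ph (4 / 3) (rwq (mu1 k x) a) (g0 a) = phO T1 (List.ofFn (rwq (mu1 k x) a) ++ [])) →
      ∀ (z : ℂ), |z.re| ≤ l / 2 →
      ∀ (ρ : ℂ → ℂ) (b0 b1 : ℝ), ep * l / 4 ≤ b0 → b0 < b1 → 2 * b1 ≤ l → PB.SeaF b1 ρ →
      ∀ κ : ℕ → ℝ, (∀ n, 0 < κ n) → (∀ n, κ n ≤ 2 * (4 / 3 * (1 - ep))) →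
      ∀ N : ℕ, dN N = Fil.xn (k + 1) → FibN6 N (fun _ => ZL6 c g0 k (4 / 3 * (1 - ep)) x z)
        (fun _ => par6) (fun _ => PBU.PLX.cr e1 J M) (fun _ => PBU.PLX.cr' e1 J M)
        (ep / 4) 0 b0 b1 κ (fun _ u => LZX u (4 / 3 * (1 - ep)) (mu1 k x) [I, -I] z)
        (fun _ => LPo6 par6) ρ := by
  have hl := Bd.l_pos
  obtain ⟨m0, -, H⟩ := curOKC he he1 hJ hep0
  refine ⟨m0, fun M hM k x hx T1 c g0 hc hg hph z hz ρ b0 b1 hb0 hb01 hb1l hρ κ hκ0 hκ N hN => ?_⟩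
  have hC := H M hM M (by have : (0:ℝ) ≤ M := Nat.cast_nonneg M; linarith)
  have hz' := abs_le.1 hz
  have hone := oneC6_L (P := par6) (ep := ep) (β := 4 / 3 * (1 - ep)) (T1 := T1) (k := k) (x := x)
    (z := z) hep0 hep (by linarith) (by linarith) (by rw [hx, abs_zero]; positivity) hc hg hph
    (by linarith) (by linarith)
  have hq : QOk6 (ZL6 c g0 k (4 / 3 * (1 - ep)) x z) (ep / 4) (2 * (4 / 3 * (1 - ep)))
      (-Fil.xn (k + 1)) := QOk6.of_oneC hone (by linarith)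
  have hmc := mcr_cr' e1 J M
  exact {
    hQ := fun n _ => by
      rw [hN]
      exact QOk6.mono hq (hκ0 n) (hκ n)
    hS := fun n _ => par6_good.stP (by positivity) (by linarith)
      (by show (7 / 8 : ℝ) + ep / 4 < 1; linarith)
    crv := fun n _ r O => crvR6_of hC
    hL := fun n _ => logD6_L hep0 hep c g0 k hx hz (dsC_par6 hep0 hep)
    hs := fun n _ => InS.of fun r O t => (hC.h1 t).trans hb0
    b1p := lt_of_le_of_lt (by positivity) (lt_of_le_of_lt hb0 hb01)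
    b01 := hb01
    b1l := hb1l
    sea := hρ
    mc := fun n _ => hmc
    mZ := fun n _ => mc6_L e1 J M c hg k _ x z par6
    mP := fun n _ r s => meas_LPo6 par6 r s }

/-- **the data of all fibres of `fx j`**: rows `I s, 0, .., 0`, legs `I t`, on the curve of order
`j + 1`, any sea `ρ` -/
theorem fibN6_fL {ep e1 J : ℝ} (hep0 : 0 < ep) (hep : ep ≤ 1 / 100) (he : 0 < e1)
    (he1 : e1 ≤ 1 / 100) (hJ : 0 ≤ J) :
    ∃ j0 : ℕ, ∀ j ≥ j0, ∀ (s t : ℝ) (ρ : ℂ → ℂ) (b0 b1 : ℝ), ep * l / 4 ≤ b0 → b0 < b1 →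
      2 * b1 ≤ l → PB.SeaF b1 ρ →
      ∀ κ : ℕ → ℝ, (∀ n, 0 < κ n) → (∀ n, κ n ≤ 2 * (4 / 3 * (1 - ep))) →
      FibN6 (2 * (j + 1))
        (fun _ => ZL6 (PBU.PLX.ccS6 (j + 1)) (PBU.PLX.g0L (j + 1) j (I * s)) j (4 / 3 * (1 - ep))
          (I * s) (I * t))
        (fun _ => par6) (fun _ => PBU.PLX.cr e1 J (j + 1))
        (fun _ => PBU.PLX.cr' e1 J (j + 1)) (ep / 4) 0 b0 b1 κ
        (fun _ u => LZX u (4 / 3 * (1 - ep)) (mu1 j (I * s)) [I, -I] (I * t))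
        (fun _ => LPo6 par6) ρ := by
  have hl := Bd.l_pos
  obtain ⟨m0, H⟩ := fibN6_L0 hep0 hep he he1 hJ
  refine ⟨m0, fun j hj s t ρ b0 b1 hb0 hb01 hb1l hρ κ hκ0 hκ => ?_⟩
  have hre : (I * (s : ℂ)).re = 0 := by simp
  refine H (j + 1) (by omega) j (I * s) hre (PBU.PLX.T1L (j + 1)) _ _
    (fun a => PBU.PLX.norm_ccS6 _ a)
    (fun a => PBU.PLX.meas_g0L _ _ (by rw [hre, abs_zero]; positivity) a)
    (fun a => PBU.PLX.ph_g0L _ _ _ a) (I * t) ?_ ρ b0 b1 hb0 hb01 hb1l hρ κ hκ0 hκ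
    (2 * (j + 1)) (dN_two _)
  simp
  positivity

end PBFX.PLX

end
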