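import Pool.Agent.PHK.LogP
import Pool.Agent.PLX.PB.LPoK

/-!
# (P): joint measurability of the force of the objects

* **`meas_LPo26`**: `LPo6 P r O s z` is measurable in `(O, z)`.
-/

set_option autoImplicit false
set_option linter.unusedSectionVars false

noncomputable section

open Complex MeasureTheory Finset

namespace PHK

open NUO NUP1 NUP1.Bd NUP1S NUP1S.Ab NUGC NUGC.PLX
open PBF.PLX (lpp)

/-- the force of a list of constituents -/
def lsum (s : Bool) (A : List Part6) (z : ℂ) : ℂ := (A.map fun b => (b.2 : ℂ) * lpp s b.1 z).sum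

theorem meas_lsum (s : Bool) {L : List ((Bool × Bool × (ℝ × ℂ → ℂ)) × ℤ)}
    (hL : ∀ p ∈ L, Measurable p.1.2.2) : Measurable fun p : ℝ × ℂ => lsum s (evz L p) p.2 := by
  induction L with
  | nil => exact measurable_const
  | cons a L ih =>
    have h2 := ih fun p hp => hL p (List.mem_cons_of_mem _ hp)
    have h3 : Measurable fun y : ℝ × ℂ => lpp s (a.1.1, a.1.2.1, a.1.2.2 y) y.2 :=
      PBWP.PLX.meas_lpp s a.1.1 a.1.2.1 (hL a List.mem_cons_self) measurable_snd
    exact (h3.const_mul (a.2 : ℂ)).add h2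

/-- the force of one object, jointly measurable -/
theorem meas_lpo26 (P : Par6) (s : Bool) :
    Measurable fun p : Xo × ℂ => lsum s (parts6 P p.1) p.2 := by
  have h : ∀ k : Bool × Kd6, Measurable fun p : ℝ × ℂ => lsum s (prt P k p.1) p.2 := by
    intro k
    obtain ⟨L, hL, h1⟩ := exists_evz P k (Y := ℝ × ℂ) measurable_fst
    have e : (fun p : ℝ × ℂ => lsum s (prt P k p.1) p.2) = fun p : ℝ × ℂ => lsum s (evz L p) p.2 :=
      funext fun p => by rw [h1 p]
    rw [e]
    exact meas_lsum s hL
  have e : (fun p : Xo × ℂ => lsum s (parts6 P p.1) p.2) =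
      fun p : Xo × ℂ => lsum s (prt P (sp p.1, k6 p.1) (ht p.1)) p.2 :=
    funext fun p => by rw [parts6_eq]
  rw [e]
  exact measurable_of6' (Y := ℂ) (F := fun k q => lsum s (prt P k q.1) q.2) h

/-- **joint measurability in the objects and the point** -/
theorem meas_LPo26 (P : Par6) (r : ℕ) (s : Bool) :
    Measurable fun p : (Fin r → Xo) × ℂ => LPo6 P r p.1 s p.2 := by
  have key : ∀ i : Fin r, Measurable fun p : (Fin r → Xo) × ℂ => lsum s (cons6 P p.1 i) p.2 := by
    intro i
    have h1 : Measurable fun p : (Fin r → Xo) × ℂ => p.1 i :=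
      (measurable_pi_apply i).comp measurable_fst
    have hq : Measurable fun p : (Fin r → Xo) × ℂ => (p.1 i, p.2) := h1.prodMk measurable_snd
    have h := (meas_lpo26 P s).comp hq
    exact h
  have e : (fun p : (Fin r → Xo) × ℂ => LPo6 P r p.1 s p.2) =
      fun p : (Fin r → Xo) × ℂ => ∑ i : Fin r, lsum s (cons6 P p.1 i) p.2 := by
    funext p
    unfold LPo6 lsum
    rfl
  rw [e]
  exact Finset.measurable_fun_sum _ fun i _ => key i

/-- the same, name used by `FibX6` -/
theorem meas_LPo6 (P : Par6) (r : ℕ) (s : Bool) :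
    Measurable fun p : (Fin r → Xo) × ℂ => LPo6 P r p.1 s p.2 := meas_LPo26 P r s

end PHK

end
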