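import Pool.Agent.PHK.LogP
import Pool.Agent.PLX.PB.LogZ

/-!
# Log derivatives of the one body functions of the quanta, six kinds

`LogD6_XX`: as `PBLZ.PLX.LogD_XX` (the function `Z s none` is the same).
-/

set_option autoImplicit false
set_option linter.unusedSectionVars false

noncomputable section

open Complex MeasureTheory Set Filter Topology
open PLX (Fil)

namespace PHK

open NUP1 (psi phi Adm kap cl)
open NUO (Ks Xo)
open Pool.Agent.PLX (rwq XXU)
open PBLZ.PLX (LZX LZOk LZX_meas LZX_bd hasDerivAt_XX)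

variable [Fil] {m : ℕ} {β s δ r : ℝ} {x : Fin m → ℂ} {W : List ℂ} {p : ℂ}

private theorem Ks6_sub (h : δ ≤ 1 / 20) : Ks6 δ ⊆ Ks δ := by
  have hl := NUP1.Bd.l_pos
  unfold Ks6 NUO.Ks
  exact Set.Icc_subset_Icc (by nlinarith) le_rfl

/-- **log derivatives of the one body functions, six kinds** -/
theorem LogD6_XX (h : LZOk β s δ r x W p) (c : Bool → ℂ) (g0 s2 : Bool → ℂ → ℂ) {P : Par6}
    {c' : ℝ} (hd : DsC P δ c') :
    LogD6 (fun a => XXU (c a) β (rwq x a) (rwq x (!a)) (PBX.gP β W) (g0 a) (PBX.Lg p p)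
      (s2 a)) P δ (fun a => LZX a β x W p) (LPo6 P) :=
  logD_of6 hd (fun a z hz => hasDerivAt_XX h a (c a) (g0 a) (s2 a) (Ks6_sub h.δ1 hz))
    (fun a => LZX_meas a β x W p) (by
      obtain ⟨B, hB⟩ := LZX_bd h
      exact ⟨B, fun a z hz => hB a z (Ks6_sub h.δ1 hz)⟩)

end PHK

end
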