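import Pool.Agent.PHK.OneC
import Pool.Agent.PLX.PB.OneD

/-!
# (P): the class functions of the dislocated function are bounded by their one body data

The landed `PLX/PB/OneD` for the lines of (P), **any cutoff `F0 a = ph (4 / 3) (xr a) (g0 a)` of the
strings**.

* `obU6 c0 β xr ex F0 g` : one body data (cutoffs `NUP1.phi β (ofFn (xr a) ++ ex a)`, `F0 a`);
* `SpecS6 P E s1 s2` : spectators of the strings;
* **`oneC6_XXU`** : `OneC6` for the functions `XXU`, charge `q + N true - N false`;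
* `obX6 c0 β x ex F0 g`, **`obU6_rwq`**, **`oneC6_XX`** : rows `(x | x^q)`;
* `oneC6_Lg` : legs at `z`, `- 9 l / 10 ≤ Re z < 37 l / 10`.
-/

set_option autoImplicit false
set_option linter.unusedSectionVars false
set_option linter.unusedVariables false

noncomputable section

open Complex MeasureTheory Finset
open scoped ENNReal
open PLX (Fil)

namespace PHK

open NUO NUP1 NUCR NUP1S NUP1S.Ab NUP1S.AbC NURow NUGC NUGC.PLX
open PBX PBX.PLX
open _root_.Pool.Agent.PLX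

variable {m : ℕ}

/-- regularity on `[x0, 21/20 l]` right of the rows -/
theorem NPr_A6 {x0 : ℝ} (hx0 : 51 / 100 * l ≤ x0) : NPr (l / 2) (Set.Icc x0 (21 / 20 * l)) := by
  have hl := Bd.l_pos
  intro d hd e he
  obtain ⟨h3, h4⟩ := abs_le.1 he
  exact NP_pos (by linarith [hd.1]) (by linarith [hd.2])

theorem NQr_A6 {x0 β : ℝ} (hx0 : 51 / 100 * l ≤ x0) (hβ : 0 < β) (hβ' : β ≤ 4 / 3) :
    NQr β (l / 2) (Set.Icc x0 (21 / 20 * l)) := by
  have hl := Bd.l_pos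
  refine NQr_strip hβ hβ' fun d hd => ?_
  obtain ⟨h1, h2⟩ := hd
  constructor <;> linarith

/-- spectators of the strings from the spectators of the quanta, outside a null set of heights -/
def SpecS6 (P : Par6) (E : Set ℝ) (s1 s2 : ℂ → ℂ) : Prop :=
  (∀ t ∉ E, ‖s2 (posT t)‖ ≤ ‖s1 (posT t)‖ * ‖s1 (posT t - l)‖) ∧
  ∀ t ∉ E, ‖s2 (posS P.e t)‖ ≤ ‖s1 (posS P.e t)‖ * ‖s1 (posS P.e t - l)‖

section gen

variable {N : Bool → ℕ}

/-- one body data: rows `xr a` of the species `a`, cutoff points `xr a` and `ex a` (quanta), cutoff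
`F0 a` of the strings -/
def obU6 (c0 : ℝ) (β : ℝ) (xr : ∀ a, Fin (N a) → ℂ) (ex : Bool → List ℂ) (F0 : Bool → ℂ → ℂ)
    (g : Bool → ℂ → ℝ) : OB where
  R a u := c0 * ((∏ i, 1 / (‖Complex.sin (u - xr a i)‖ * ‖Complex.sin (u - xr a i - 2 * l)‖)) *
    ∏ j, ‖Complex.sin (u - xr (!a) j + 3 * l)‖ ^ 2) * g a u
  φ a := NUP1.phi β (List.ofFn (xr a) ++ ex a)
  φ0 := F0

theorem obU6_R (c0 : ℝ) (β : ℝ) (xr : ∀ a, Fin (N a) → ℂ) (ex : Bool → List ℂ) (F0 : Bool → ℂ → ℂ)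
    (g : Bool → ℂ → ℝ) (a : Bool) (u : ℂ) :
    (obU6 c0 β xr ex F0 g).R a u = c0 * rwU (xr a) (xr !a) u * g a u := rfl

theorem obU6_nn {c0 : ℝ} (hc : 0 ≤ c0) (β : ℝ) (xr : ∀ a, Fin (N a) → ℂ) (ex : Bool → List ℂ)
    (F0 : Bool → ℂ → ℂ) {g : Bool → ℂ → ℝ} (hg : ∀ a u, 0 ≤ g a u) :
    (obU6 c0 β xr ex F0 g).Nn := fun a u =>
  mul_nonneg (mul_nonneg hc (rwU_nonneg _ _ _)) (hg a u)

/-- the modulus of the one body function of a quantum -/
theorem norm_XXU_none {c : Bool → ℂ} {c0 β : ℝ} (hc : ∀ a, ‖c a‖ = c0) (xr : ∀ a, Fin (N a) → ℂ)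
    (ex : Bool → List ℂ) (F0 g0 : Bool → ℂ → ℂ) (s1 s2 : Bool → ℂ → ℂ) (a : Bool) (u : ℂ) :
    ‖XXU (c a) β (xr a) (xr !a) (gP β (ex a)) (g0 a) (s1 a) (s2 a) none u‖ =
      wq6 (obU6 c0 β xr ex F0 fun a u => ‖s1 a u‖) a u := by
  show ‖RRU (c a) (xr a) (xr !a) u * ph β (xr a) (gP β (ex a)) u * s1 a u‖ =
    (obU6 c0 β xr ex F0 fun a u => ‖s1 a u‖).R a u * ‖NUP1.phi β (List.ofFn (xr a) ++ ex a) u‖
  rw [norm_mul, norm_mul, ph_gP, norm_RRU, hc, obU6_R]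
  ring

variable {P : Par6} {ep β : ℝ} {c : Bool → ℂ} {s1 s2 : Bool → ℂ → ℂ} {E : Set ℝ}

/-- **The class functions are bounded by the one body data.** -/
theorem oneC6_XXU {x0 : ℝ} (hx0 : 51 / 100 * l ≤ x0) (hx0' : x0 ≤ 19 / 20 * l)
    (hep0 : 0 < ep) (hep : ep ≤ 1 / 100) (hβ : 0 < β) (hβ' : β ≤ 4 / 3)
    {xr : ∀ a, Fin (N a) → ℂ} (hx : ∀ a, Rws (xr a)) {ex : Bool → List ℂ}
    (hex : ∀ a, ∀ w ∈ ex a, |w.re| ≤ l / 2) {g0 : Bool → ℂ → ℂ} (hg0 : ∀ a, Measurable (g0 a))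
    {c0 : ℝ} (hc : ∀ a, ‖c a‖ = c0) {q : ℤ}
    (hm1 : ∀ a, Measurable (s1 a)) (hm2 : ∀ a, Measurable (s2 a))
    (hA : ∀ a, SpecAt x0 a q (s1 a)) (hS : ∀ a, SpecS6 P E (s1 a) (s2 a))
    (hE : volume E = 0) :
    OneC6 (fun a => XXU (c a) β (xr a) (xr !a) (gP β (ex a)) (g0 a) (s1 a) (s2 a))
      (obU6 c0 β xr ex (fun a => ph (4 / 3) (xr a) (g0 a)) fun a u => ‖s1 a u‖) P ep (2 * β) x0
      (q + N true - N false) (E ∪ ⋃ a, Set.range fun i => (xr a i).im) := by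
  have hl := Bd.l_pos
  have hc0 : 0 ≤ c0 := by
    rw [← hc true]
    exact norm_nonneg _
  have hone : ∀ a (u : ℂ), ‖XXU (c a) β (xr a) (xr !a) (gP β (ex a)) (g0 a) (s1 a) (s2 a) none u‖ =
      wq6 (obU6 c0 β xr ex (fun a => ph (4 / 3) (xr a) (g0 a)) fun a u => ‖s1 a u‖) a u := fun a u =>
    norm_XXU_none hc xr ex _ g0 s1 s2 a u
  have hinv : ∀ a (u : ℂ),
      ‖(XXU (c a) β (xr a) (xr !a) (gP β (ex a)) (g0 a) (s1 a) (s2 a) none u)⁻¹‖ ≤
      (wq6 (obU6 c0 β xr ex (fun a => ph (4 / 3) (xr a) (g0 a)) fun a u => ‖s1 a u‖) a u)⁻¹ :=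
    fun a u => by rw [norm_inv, hone]
  have hstr : ∀ a (u : ℂ), ‖s2 a u‖ ≤ ‖s1 a u‖ * ‖s1 a (u - l)‖ →
      ‖RRU (c a) (xr a) (xr !a) u‖ * ‖RRU (c a) (xr a) (xr !a) (u - l)‖ * ‖s2 a u‖ ≤
      (c0 * rwU (xr a) (xr !a) u * ‖s1 a u‖) *
        (c0 * rwU (xr a) (xr !a) (u - l) * ‖s1 a (u - l)‖) := by
    intro a u h5
    rw [norm_RRU, norm_RRU, hc]
    have p1 : 0 ≤ rwU (xr a) (xr !a) u := rwU_nonneg _ _ _
    have p2 : 0 ≤ rwU (xr a) (xr !a) (u - l) := rwU_nonneg _ _ _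
    calc _ ≤ c0 * rwU (xr a) (xr !a) u * (c0 * rwU (xr a) (xr !a) (u - l)) *
          (‖s1 a u‖ * ‖s1 a (u - l)‖) := mul_le_mul_of_nonneg_left h5 (by positivity)
      _ = _ := by ring
  refine
    { kpos := by linarith
      nn := obU6_nn hc0 β xr ex _ fun a u => norm_nonneg _
      nul := ?_
      meas := fun a k => measurable_XXU (measurable_gP _ _) (hg0 a) (hm1 a) (hm2 a) k
      L := fun a t _ => le_of_eq (hone a _)
      T := ?_
      S := ?_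
      V := fun a t _ => le_of_eq (hone a _)
      F := fun a t _ => hinv a _
      H1 := fun a t _ => hinv a _
      H2 := fun a t _ => hinv a _
      A := fun a u _ => le_of_eq (hone a u)
      x1 := hx0'
      dA := ?_
      bA := ?_ }
  · rw [measure_union_null_iff]
    exact ⟨hE, measure_iUnion_null fun a => (Set.finite_range _).measure_zero _⟩
  · intro a t ht
    have htE : t ∉ E := fun h => ht (Or.inl h)
    have hre : (posT t).re = -(1 / 2 * l) := by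
      unfold posT vl
      simp
    have him : (posT t).im = t := by
      unfold posT vl
      simp
    have hK : (posT t).re ∈ K2 := by
      rw [hre]
      exact ⟨by linarith, by linarith⟩
    have hs : ∀ i, (xr a i).re = -(l / 2) → Complex.sin (posT t - xr a i) ≠ 0 := by
      intro i _
      refine NUP1.sin_ne_im ?_
      rw [sub_im, him]
      intro h0
      exact ht (Or.inr (Set.mem_iUnion.2 ⟨a, i, by linarith⟩))
    show ‖TTU (c a) β (4 / 3) (xr a) (xr !a) (gP β (ex a)) (g0 a) (posT t) * s2 a (posT t)‖ ≤ _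
    rw [TTU_eq (fun i => NQ_KK hβ hβ' (hx a) (K2_KK hK) i)
      (fun i => NQ_KK (by norm_num) le_rfl (hx a) (K2_KK hK) i)
      (fun i hi => NQ_neg hβ hβ' (hx a) hK i hi) hs, norm_mul, norm_mul, norm_mul, ph_gP, ph_gP]
    have key := hstr a (posT t) ((hS a).1 t htE)
    calc _ = (‖RRU (c a) (xr a) (xr !a) (posT t)‖ * ‖RRU (c a) (xr a) (xr !a) (posT t - l)‖ *
            ‖s2 a (posT t)‖) *
          ‖NUP1.phi β (List.ofFn (xr a) ++ ex a) (posT t) *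
            NUP1.phi β (List.ofFn (xr a) ++ ex a) (posT t - l) -
            ph (4 / 3) (xr a) (g0 a) (posT t)‖ := by ring
      _ ≤ _ := mul_le_mul_of_nonneg_right key (norm_nonneg _)
  · intro a t ht
    have htE : t ∉ E := fun h => ht (Or.inl h)
    show ‖RRU (c a) (xr a) (xr !a) (posS P.e t) * RRU (c a) (xr a) (xr !a) (posS P.e t - l) *
      ph (4 / 3) (xr a) (g0 a) (posS P.e t) * s2 a (posS P.e t)‖ ≤ _
    rw [norm_mul, norm_mul, norm_mul]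
    have key := hstr a (posS P.e t) ((hS a).2 t htE)
    calc _ = (‖RRU (c a) (xr a) (xr !a) (posS P.e t)‖ *
            ‖RRU (c a) (xr a) (xr !a) (posS P.e t - l)‖ * ‖s2 a (posS P.e t)‖) *
          ‖ph (4 / 3) (xr a) (g0 a) (posS P.e t)‖ := by ring
      _ ≤ _ := mul_le_mul_of_nonneg_right key (norm_nonneg _)
  · intro a u u1 u2
    have u3 : u.re ≤ 21 / 20 * l := by nlinarith
    have hu : u.re ∈ Set.Icc x0 (21 / 20 * l) := ⟨u1, u3⟩
    have h2 := diffAt_RRU (c a) (y := xr !a) (NPr_A6 hx0) (hx a) hu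
    have h3 : DifferentiableAt ℂ (ph β (xr a) (gP β (ex a))) u := by
      have d1 := DifferentiableAt.fun_finsetProd (𝕜 := ℂ) (u := Finset.univ)
        (f := fun (i : Fin (N a)) s => psi β (s - xr a i)) (x := u) (fun i _ =>
          diffAt_psiw (NQr_A6 hx0 hβ hβ') (hx a i) hu)
      exact (d1.mul (diffAt_gP (NQr_A6 hx0 hβ hβ') (hex a) hu)).const_sub 1
    exact (h2.mul h3).mul ((hA a).df u ⟨u1, u3⟩)
  · intro a
    have h2 := bdd_RRU (c a) (hx a) (hx !a) isCompact_Icc (NPr_A6 hx0)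
    have h3 : Bdd (Set.Icc x0 (21 / 20 * l)) (-(2 * β)) (ph β (xr a) (gP β (ex a))) := by
      have hW : ∀ w ∈ List.ofFn (xr a) ++ ex a, |w.re| ≤ l / 2 := by
        intro w hw
        rcases List.mem_append.1 hw with h | h
        · obtain ⟨i, rfl⟩ := (List.mem_ofFn' _ _).1 h
          exact hx a i
        · exact hex a w h
      have h := (bdd_gP hβ (K := Set.Icc x0 (21 / 20 * l)) isCompact_Icc
        (NQr_A6 hx0 hβ hβ') hW).1
      refine Bdd.cg h fun z _ => ?_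
      rw [ph_gP]
      rfl
    have h4 := (h2.mul h3).mul (hA a).bd
    have h5 : Bdd (Set.Icc x0 (21 / 20 * l)) (-(2 * β + 2 * (sg a * (q + N true - N false) : ℤ)))
        (XXU (c a) β (xr a) (xr !a) (gP β (ex a)) (g0 a) (s1 a) (s2 a) none) := by
      refine h4.rate ?_
      cases a <;> simp [sc, sg, Bd.chg] <;> ring
    obtain ⟨C, hC, hb⟩ := h5
    exact ⟨C, hC, fun z hz => hb z ⟨hz.1, hz.2.trans (by nlinarith)⟩⟩

end gen

/-! ## the legs -/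

theorem Lg_SpecAt6 {x0 : ℝ} (hx0 : 51 / 100 * l ≤ x0) (b : Bool) {z : ℂ}
    (h1 : -(9 / 10 * l) ≤ z.re) (h2 : z.re < 37 / 10 * l) :
    SpecAt x0 b ((0 : ℤ) : ℝ) (Lg z z) := by
  have hl := Bd.l_pos
  have hs : ∀ r ∈ Set.Icc x0 (21 / 20 * l), Real.sin (z.re - r + 2 * l) ≠ 0 := by
    intro r hr
    exact sin_pos_ne (by linarith [hr.2]) (by linarith [hr.1])
  constructor
  · have h := Bdd_of_Gr (K := Set.Icc x0 (21 / 20 * l)) (f := Lg z z) isCompact_Icc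
      (α := 21 / 20 * l) (β := x0) (s := 0) (fun r hr => hr) (Lg_gr _ _ z z)
      (fun u hu => (Lg_diff (hs _ hu)).continuousAt)
    refine h.rate ?_
    simp
  · intro u hu
    exact Lg_diff (hs _ hu)

theorem Lg_SpecS6 {P : Par6} (z : ℂ) :
    SpecS6 P ∅ (Lg z z) (fun w => Lg z z w * Lg z z (w - l)) :=
  ⟨fun t _ => le_of_eq (norm_mul _ _), fun t _ => le_of_eq (norm_mul _ _)⟩

/-! ## the `q`-fold rows -/

variable [Fil]

/-- one body data: rows `(x | x^q)`, cutoff points `rwq x a` and `ex a` (quanta), cutoff `F0 a` of the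
strings -/
def obX6 (c0 : ℝ) (β : ℝ) (x : Fin m → ℂ) (ex : Bool → List ℂ) (F0 : Bool → ℂ → ℂ)
    (g : Bool → ℂ → ℝ) : OB where
  R a u := c0 * (∏ i, rwC a (x i) u) * g a u
  φ a := NUP1.phi β (List.ofFn (rwq x a) ++ ex a)
  φ0 := F0

theorem obX6_nn {c0 : ℝ} (hc : 0 ≤ c0) (β : ℝ) (x : Fin m → ℂ) (ex : Bool → List ℂ)
    (F0 : Bool → ℂ → ℂ) {g : Bool → ℂ → ℝ} (hg : ∀ a u, 0 ≤ g a u) :
    (obX6 c0 β x ex F0 g).Nn := fun a u =>
  mul_nonneg (mul_nonneg hc (Finset.prod_nonneg fun i _ => rwC_nonneg _ _ _)) (hg a u)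

/-- **rows `(x | x^q)`** -/
theorem obU6_rwq (c0 : ℝ) (β : ℝ) (x : Fin m → ℂ) (ex : Bool → List ℂ) (F0 : Bool → ℂ → ℂ)
    (g : Bool → ℂ → ℝ) : obU6 c0 β (rwq x) ex F0 g = obX6 c0 β x ex F0 g := by
  unfold obU6 obX6
  congr 1
  funext a u
  show c0 * rwU (rwq x a) (rwq x !a) u * g a u = _
  rw [rwU_rwq]

variable {P : Par6} {ep β : ℝ} {c : Bool → ℂ} {s1 s2 : Bool → ℂ → ℂ} {E : Set ℝ}

/-- **The class functions are bounded by the one body data**, rows `(x | x^q)`: the charge of the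
spectators is `q`, the charge is `q - (Fil.q - 1) m`. -/
theorem oneC6_XX {x0 : ℝ} (hx0 : 51 / 100 * l ≤ x0) (hx0' : x0 ≤ 19 / 20 * l)
    (hep0 : 0 < ep) (hep : ep ≤ 1 / 100) (hβ : 0 < β) (hβ' : β ≤ 4 / 3)
    {x : Fin m → ℂ} (hx : Rws x) {ex : Bool → List ℂ} (hex : ∀ a, ∀ w ∈ ex a, |w.re| ≤ l / 2)
    {g0 : Bool → ℂ → ℂ} (hg0 : ∀ a, Measurable (g0 a)) {c0 : ℝ}
    (hc : ∀ a, ‖c a‖ = c0) {q : ℤ}
    (hm1 : ∀ a, Measurable (s1 a)) (hm2 : ∀ a, Measurable (s2 a))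
    (hA : ∀ a, SpecAt x0 a q (s1 a)) (hS : ∀ a, SpecS6 P E (s1 a) (s2 a))
    (hE : volume E = 0) :
    OneC6 (fun a => XXU (c a) β (rwq x a) (rwq x !a) (gP β (ex a)) (g0 a) (s1 a) (s2 a))
      (obX6 c0 β x ex (fun a => ph (4 / 3) (rwq x a) (g0 a)) fun a u => ‖s1 a u‖) P ep (2 * β) x0
      (q - Fil.xn m) (E ∪ Set.range fun i => (x i).im) := by
  have h := oneC6_XXU (N := fun a => cond a m (Fil.q * m)) (xr := rwq x) hx0 hx0' hep0 hep hβ hβ'
    (fun a => Rws_rwq hx a) hex hg0 hc (q := q) hm1 hm2 hA hS hE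
  rw [iUnion_range_rwq, obU6_rwq] at h
  have e : q + ((cond true m (Fil.q * m) : ℕ) : ℤ) - ((cond false m (Fil.q * m) : ℕ) : ℤ) =
      q - Fil.xn m := by
    show q + (m : ℤ) - ((Fil.q * m : ℕ) : ℤ) = q - Fil.xn m
    rw [← Fil.add_xn]
    push_cast
    ring
  rw [e] at h
  exact h

/-- **The dislocated function with legs at `z`.** -/
theorem oneC6_Lg {x0 : ℝ} (hx0 : 51 / 100 * l ≤ x0) (hx0' : x0 ≤ 19 / 20 * l)
    (hep0 : 0 < ep) (hep : ep ≤ 1 / 100) (hβ : 0 < β) (hβ' : β ≤ 4 / 3)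
    {x : Fin m → ℂ} (hx : Rws x) {ex : Bool → List ℂ} (hex : ∀ a, ∀ w ∈ ex a, |w.re| ≤ l / 2)
    {g0 : Bool → ℂ → ℂ} (hg0 : ∀ a, Measurable (g0 a)) {c0 : ℝ}
    (hc : ∀ a, ‖c a‖ = c0) {z : ℂ} (h1 : -(9 / 10 * l) ≤ z.re) (h2 : z.re < 37 / 10 * l) :
    OneC6 (fun a => XXU (c a) β (rwq x a) (rwq x !a) (gP β (ex a)) (g0 a) (Lg z z)
        (fun w => Lg z z w * Lg z z (w - l)))
      (obX6 c0 β x ex (fun a => ph (4 / 3) (rwq x a) (g0 a)) fun _ u => thZ z u) P ep (2 * β) x0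
      (-Fil.xn m) (Set.range fun i => (x i).im) := by
  have h := oneC6_XX (P := P) (E := ∅) (q := 0) (s1 := fun _ => Lg z z)
    (s2 := fun _ w => Lg z z w * Lg z z (w - l)) hx0 hx0' hep0 hep hβ hβ' hx hex hg0 hc
    (fun _ => Lg_meas z z)
    (fun _ => (Lg_meas z z).mul ((Lg_meas z z).comp (measurable_id.sub_const _)))
    (fun a => Lg_SpecAt6 hx0 a h1 h2) (fun _ => Lg_SpecS6 z) (by simp)
  rw [Set.empty_union, zero_sub] at h
  simp only [norm_Lg] at h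
  exact h

end PHK

end
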