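import Pool.Agent.PHK.WardFF6
import Pool.Agent.PHK.Conf6
import Pool.Agent.PLX.PB.WardCf

/-!
# The second Ward identity as an identity of the functional `F (mN6 N) (wN6 ..)`

* `F_zero6`: all inner integrals vanish;
* `FibN6`: the data of all fibres; **`ward_N6`**: for a differentiable insertion
  `F[V Ψ] = F[(Q + S) Ψ] + F[D_X Ψ]` for the functional summed over the numbers of quanta;
* `ward_one6`, `ward_vh6`.
-/

set_option autoImplicit false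
set_option linter.unusedSectionVars false

noncomputable section

open Complex MeasureTheory Finset
open scoped ENNReal

open PLX (Fil)

namespace PHK

open NUO NUP1 NUCR NUP1S NUP1S.Ab NUP1S.AbC NUGC NUGC.PLX PBFunc PBFunc.PLX
open PBF.PLX (gK Ins Crs DIns Flds InsD FldD DX WS Wd LT Vy Qy Sy lamY XCy X1Cy InS MCr MIn dN RmY
  zy zy_strip zqy dSm DX_vy Sy_eq meas_zqy meas_fld meas_lamY meas_dvy)

section functional

variable [Fil]

variable {N : ℕ} {Z : ℕ → Bool → Option O3 → ℂ → ℂ} {P : ℕ → Par6} {η η' : ℕ → Crs}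
  {c : ℕ → ℂ}

/-- an insertion whose functionals all vanish -/
theorem F_zero6 (h : ∀ n ≤ N, MC6 (Z n) (P n) (η n) (η' n)) {Ψ : ℕ → Ins}
    (hΨ : ∀ n ≤ N, MIn (Ψ n)) (hW : WI (mN6 N) (wN6 Z P N η η' c) (evN6 Ψ))
    (hz : ∀ n ≤ N, FF6 (Z n) (P n) n (n + dN N) (η n) (η' n) (Ψ n) = 0) :
    F (mN6 N) (wN6 Z P N η η' c) (evN6 Ψ) = 0 := by
  have hf : FAN6 Z P N η η' c Ψ < ∞ := by
    rw [FAN6_eq h hΨ]
    have := hW.2
    unfold HasFiniteIntegral at this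
    simpa only [enorm_mul] using this
  rw [← FFN6_eq h hΨ hf]
  unfold FFN6
  refine Finset.sum_eq_zero fun n hn => ?_
  rw [hz n (by have := Finset.mem_range.1 hn; omega), mul_zero]

variable (N Z P η η') in
/-- the data of all fibres: weights, curves, log derivatives, the sea -/
structure FibN6 (δ y0 b0 b1 : ℝ) (κ : ℕ → ℝ) (LZ : ℕ → Bool → ℂ → ℂ)
    (LP : ℕ → (r : ℕ) → (Fin r → Xo) → Bool → ℂ → ℂ) (ρ : ℂ → ℂ) : Prop where
  hQ : ∀ n ≤ N, QOk6 (Z n) δ (κ n) (-(dN N : ℤ))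
  hS : ∀ n ≤ N, StP δ (P n)
  crv : ∀ n ≤ N, ∀ r O, CrvR6 δ (η n r O) (η' n r O)
  hL : ∀ n ≤ N, LogD6 (Z n) (P n) δ (LZ n) (LP n)
  hs : ∀ n ≤ N, InS y0 b0 (η n)
  b1p : 0 < b1
  b01 : b0 < b1
  b1l : 2 * b1 ≤ NUP1.l
  sea : PB.SeaF b1 ρ
  mc : ∀ n ≤ N, MCr (η n) (η' n)
  mZ : ∀ n ≤ N, MC6 (Z n) (P n) (η n) (η' n)
  mP : ∀ n ≤ N, ∀ r s, Measurable fun p : (Fin r → Xo) × ℂ => LP n r p.1 s p.2

variable {δ y0 b0 b1 : ℝ} {κ : ℕ → ℝ} {LZ : ℕ → Bool → ℂ → ℂ}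
  {LP : ℕ → (r : ℕ) → (Fin r → Xo) → Bool → ℂ → ℂ} {ρ : ℂ → ℂ}

theorem FibN6.mRm (h : FibN6 N Z P η η' δ y0 b0 b1 κ LZ LP ρ) {X : Bool → ℂ → ℂ}
    (hX : PB.FldF b1 X) {n : ℕ} (hn : n ≤ N) :
    MIn (RmY y0 (η n) ρ X (LT (LZ n) (LP n))) := by
  refine (MIn.qy (h.mc n hn) (h.hs n hn) h.b1p h.b01 h.sea hX).add' (MIn.sy fun r s => ?_)
  exact (meas_fld (h.mc n hn) (h.hs n hn) h.b01 hX.d r s).mul
    (meas_lamY (h.mc n hn) (h.hs n hn) h.b01 h.sea (h.hL n hn).mZ (h.mP n hn) r s)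

/-- **the second Ward identity**, insertion `Ψ` -/
theorem ward_N6 (h : FibN6 N Z P η η' δ y0 b0 b1 κ LZ LP ρ) {X g : Bool → ℂ → ℂ}
    (hX : PB.FldF b1 X)
    (hg : ∀ s (z : ℂ), |z.im| < b1 → g s z = PB.rsp (PB.mulF2 ρ X) s z)
    (hgd : ∀ s (z : ℂ), |z.im| < b1 → DifferentiableAt ℂ (g s) z) {Ψ : ℕ → Ins} {dΨ : ℕ → DIns}
    (hΨ : ∀ n ≤ N, InsD (η' n) (Ψ n) (dΨ n)) (mΨ : ∀ n ≤ N, MIn (Ψ n))
    (mdΨ : ∀ n ≤ N, ∀ r a b (k : Fin a ⊕ Fin b), Measurable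
      fun p : (Fin r → Xo) × ((Fin a → ℝ) × (Fin b → ℝ)) => dΨ n r p.1 a b k p.2)
    (i1 : WI (mN6 N) (wN6 Z P N η η' c) fun ω => evN6 (fun n => Vy y0 (η n) ρ g) ω * evN6 Ψ ω)
    (i2 : WI (mN6 N) (wN6 Z P N η η' c)
      fun ω => evN6 (fun n => RmY y0 (η n) ρ X (LT (LZ n) (LP n))) ω * evN6 Ψ ω)
    (i3 : WI (mN6 N) (wN6 Z P N η η' c) (evN6 fun n => DX (XCy y0 (η n) X) (dΨ n))) :
    F (mN6 N) (wN6 Z P N η η' c) (fun ω => evN6 (fun n => Vy y0 (η n) ρ g) ω * evN6 Ψ ω) =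
      F (mN6 N) (wN6 Z P N η η' c)
        (fun ω => evN6 (fun n => RmY y0 (η n) ρ X (LT (LZ n) (LP n))) ω * evN6 Ψ ω) +
      F (mN6 N) (wN6 Z P N η η' c) (evN6 fun n => DX (XCy y0 (η n) X) (dΨ n)) := by
  set μ := mN6 N
  set w := wN6 Z P N η η' c
  set V : CfN6 N → ℂ := evN6 (fun n => Vy y0 (η n) ρ g)
  set R : CfN6 N → ℂ := evN6 (fun n => RmY y0 (η n) ρ X (LT (LZ n) (LP n)))
  set D : CfN6 N → ℂ := evN6 fun n => DX (XCy y0 (η n) X) (dΨ n)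
  have hVy : ∀ n ≤ N, Vy y0 (η n) ρ (PB.rsp (PB.mulF2 ρ X)) = Vy y0 (η n) ρ g := by
    intro n hn
    funext r O a b x
    unfold PBF.PLX.Vy PB.NX.nuL
    congr 1
    · refine Finset.sum_congr rfl fun k _ => ?_
      exact (hg _ _ ((zy_strip (h.hs n hn) r O _ _).trans_lt h.b01)).symm
    · refine Finset.sum_congr rfl fun s _ => integral_congr_ae (Filter.Eventually.of_forall
        fun u => ?_)
      simp only []
      rw [hg s (PB.eR u) (by simp [PB.eR, h.b1p])]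
  have hI : WI μ w fun ω => -1 * (V ω * evN6 Ψ ω) + (R ω * evN6 Ψ ω + D ω) :=
    (i1.smul (-1)).add (i2.add i3)
  have hz : F μ w (evN6 fun n => fun r O a b x => (-Vy y0 (η n) ρ g r O a b x +
      RmY y0 (η n) ρ X (LT (LZ n) (LP n)) r O a b x) * Ψ n r O a b x +
      DX (XCy y0 (η n) X) (dΨ n) r O a b x) = 0 := by
    refine F_zero6 h.mZ (fun n hn => ?_) ?_ fun n hn => ?_
    · refine MIn.add' (MIn.mul' (MIn.add' (MIn.neg' ?_) (h.mRm hX hn)) (mΨ n hn)) ?_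
      · exact MIn.vy (h.mc n hn) (h.hs n hn) h.b01 ρ hgd
      · exact MIn.dx (h.mc n hn) (h.hs n hn) h.b01 hX (mdΨ n hn)
    · refine hI.congr (Filter.Eventually.of_forall fun ω => ?_)
      simp only [V, R, D, evN6, ev6]
      ring
    · have key := ward_Vy6 (h.hQ n hn) (h.hS n hn) (h.crv n hn)
        (n := n) (n' := n + dN N) (by push_cast; ring) (h.hL n hn) (h.hs n hn) h.b1p h.b01 h.b1l
        h.sea hX (hΨ n hn)
      rw [hVy n hn] at key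
      rw [← key]
      congr 1
      funext r O a b x
      unfold PBF.PLX.RmY
      ring
  have e : F μ w (fun ω => -1 * (V ω * evN6 Ψ ω) + (R ω * evN6 Ψ ω + D ω)) = 0 := by
    rw [← hz]
    congr 1
    funext ω
    simp only [V, R, D, evN6, ev6]
    ring
  rw [F_add (i1.smul (-1)) (i2.add i3), F_add i2 i3, F_smul] at e
  linear_combination -e

/-- **insertion `1`** -/
theorem ward_one6 (h : FibN6 N Z P η η' δ y0 b0 b1 κ LZ LP ρ) {X g : Bool → ℂ → ℂ}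
    (hX : PB.FldF b1 X)
    (hg : ∀ s (z : ℂ), |z.im| < b1 → g s z = PB.rsp (PB.mulF2 ρ X) s z)
    (hgd : ∀ s (z : ℂ), |z.im| < b1 → DifferentiableAt ℂ (g s) z)
    (i1 : WI (mN6 N) (wN6 Z P N η η' c) (evN6 fun n => Vy y0 (η n) ρ g))
    (i2 : WI (mN6 N) (wN6 Z P N η η' c)
      (evN6 fun n => RmY y0 (η n) ρ X (LT (LZ n) (LP n)))) :
    F (mN6 N) (wN6 Z P N η η' c) (evN6 fun n => Vy y0 (η n) ρ g) =
      F (mN6 N) (wN6 Z P N η η' c) (evN6 fun n => RmY y0 (η n) ρ X (LT (LZ n) (LP n))) := by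
  have e1 : ∀ A : CfN6 N → ℂ, (fun ω => A ω * evN6 (fun _ _ _ _ _ _ => (1 : ℂ)) ω) = A := by
    intro A
    funext ω
    exact mul_one _
  have e2 : (evN6 fun n => DX (XCy y0 (η n) X) fun _ _ _ _ _ _ => (0 : ℂ)) =
      fun _ : CfN6 N => (0 : ℂ) := by
    funext ω
    simp only [evN6, ev6, PBF.PLX.DX, mul_zero, Finset.sum_const_zero]
  have key := ward_N6 (c := c) h hX hg hgd (Ψ := fun _ _ _ _ _ _ => 1)
    (dΨ := fun _ _ _ _ _ _ _ => 0) (fun n _ => InsD.const _ 1) (fun n _ => MIn.one)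
    (fun n _ r a b k => measurable_const) (by rw [e1]; exact i1) (by rw [e1]; exact i2)
    (by
      rw [e2]
      unfold WI
      simp only [mul_zero]
      exact integrable_zero _ _ _)
  rw [e1, e1, e2] at key
  rw [key]
  unfold F
  simp

/-- **insertion `V h`** -/
theorem ward_vh6 (h : FibN6 N Z P η η' δ y0 b0 b1 κ LZ LP ρ) {X g f : Bool → ℂ → ℂ}
    (hX : PB.FldF b1 X)
    (hg : ∀ s (z : ℂ), |z.im| < b1 → g s z = PB.rsp (PB.mulF2 ρ X) s z)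
    (hgd : ∀ s (z : ℂ), |z.im| < b1 → DifferentiableAt ℂ (g s) z) (hf : PB.FldF b1 f)
    (i1 : WI (mN6 N) (wN6 Z P N η η' c)
      fun ω => evN6 (fun n => Vy y0 (η n) ρ g) ω * evN6 (fun n => Vy y0 (η n) ρ f) ω)
    (i2 : WI (mN6 N) (wN6 Z P N η η' c)
      fun ω => evN6 (fun n => RmY y0 (η n) ρ X (LT (LZ n) (LP n))) ω *
        evN6 (fun n => Vy y0 (η n) ρ f) ω)
    (i3 : WI (mN6 N) (wN6 Z P N η η' c)
      (evN6 fun n => Vy y0 (η n) ρ fun s z => X s z * deriv (f s) z))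
    (i4 : WI (mN6 N) (wN6 Z P N η η' c) fun _ => 1) :
    F (mN6 N) (wN6 Z P N η η' c)
        (fun ω => evN6 (fun n => Vy y0 (η n) ρ g) ω * evN6 (fun n => Vy y0 (η n) ρ f) ω) =
      F (mN6 N) (wN6 Z P N η η' c)
        (fun ω => evN6 (fun n => RmY y0 (η n) ρ X (LT (LZ n) (LP n))) ω *
          evN6 (fun n => Vy y0 (η n) ρ f) ω) +
      ((∑ s, ∫ u : ℝ, (Fil.b s : ℂ) * ρ u * (X s u * deriv (f s) u)) *
        F (mN6 N) (wN6 Z P N η η' c) (fun _ => 1) +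
      F (mN6 N) (wN6 Z P N η η' c)
        (evN6 fun n => Vy y0 (η n) ρ fun s z => X s z * deriv (f s) z)) := by
  set C : ℂ := ∑ s, ∫ u : ℝ, (Fil.b s : ℂ) * ρ u * (X s u * deriv (f s) u) with hC
  have e2 : (evN6 fun n => DX (XCy y0 (η n) X) (dSm (XCy y0 (η n) fun s => deriv (f s)))) =
      fun ω : CfN6 N => C * 1 +
        evN6 (fun n => Vy y0 (η n) ρ fun s z => X s z * deriv (f s) z) ω := by
    funext ω
    show DX (XCy y0 (η ω.1) X) (dSm (XCy y0 (η ω.1) fun s => deriv (f s))) ω.2.1.1 ω.2.2.1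
      ω.2.1.2.1 ω.2.1.2.2 ω.2.2.2 = _
    rw [DX_vy, Sy_eq (ρ := ρ), mul_one]
    rfl
  have i5 : WI (mN6 N) (wN6 Z P N η η' c) fun ω : CfN6 N => C * 1 +
      evN6 (fun n => Vy y0 (η n) ρ fun s z => X s z * deriv (f s) z) ω := (i4.smul C).add i3
  have key := ward_N6 (c := c) h hX hg hgd (Ψ := fun n => Vy y0 (η n) ρ f)
    (dΨ := fun n => dSm (XCy y0 (η n) fun s => deriv (f s)))
    (fun n hn => InsD.vy (fun r O => (h.crv n hn r O).toR (h.hS n hn).d1) (h.hs n hn) h.b01 ρ hf)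
    (fun n hn => MIn.vy (h.mc n hn) (h.hs n hn) h.b01 ρ hf.d)
    (fun n hn r a b k => meas_dvy (h.mc n hn) (h.hs n hn) h.b01 hf.d r a b k) i1 i2
    (by rw [e2]; exact i5)
  rw [key, e2, F_add (i4.smul C) i3, F_smul]

end functional

end PHK

end
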