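import Pool.Agent.PLX.PB.FibX
import Pool.Agent.PHK.WardCf6
import Pool.Agent.PHK.LPoM6
import Pool.Agent.PHK.LogZ
import Pool.Agent.PHK.ConfM
import Pool.Agent.PHK.OneD
import Pool.Agent.PHK.FamL6

/-!
# The particle-hole form (P): the data of all fibres at the dislocated function

(P) twin of `PLX/PB/FibX`; `mu1_re`, `re_pm`, `mcr_cr'` are the landed ones. The class functions are
`XXU` with any constants `c` of one modulus and any measurable string cutoff `g0`.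

* `logD6_XXL`: `LogD6` of the class functions (rows on the imaginary axis) and of the objects;
* **`fibN6_XXL`**: `FibN6` with arbitrary rows on the imaginary axis and legs at `z`, on the fixed
  curve `cr e1 J M`; `N` with `dN N = xn m`;
* `fibN6_Lc`: the instance `ZL6 c g0 k`, rows `mu1 k (I s)`, legs `I t`;
* **`fibN6_fx`**: the instance at the family `famL6` at `m = j + 1`, index `(I s, I t)`, `N = 2 (j + 1)`.
-/

set_option autoImplicit false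
set_option linter.unusedSectionVars false

noncomputable section

open Complex MeasureTheory Finset
open PLX (Fil)

namespace PBFX.PLX

open NUP1 NUO NUP1S NUP1S.Ab NUGC NUGC.PLX PBF PBF.PLX PBLZ PBLZ.PLX
open PHK

variable [Fil]

/-- the class functions with legs at `p`, any constants and string cutoff -/
abbrev ZXL {m : ℕ} (c : Bool → ℂ) (g0 : Bool → ℂ → ℂ) (β : ℝ) (x : Fin m → ℂ) (W : List ℂ) (p : ℂ) :
    Bool → Option O3 → ℂ → ℂ := fun a =>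
  Pool.Agent.PLX.XXU (c a) β (Pool.Agent.PLX.rwq x a) (Pool.Agent.PLX.rwq x !a) (PBX.gP β W) (g0 a)
    (PBX.Lg p p) fun w => PBX.Lg p p w * PBX.Lg p p (w - l)

/-- **`LogD6` of the dislocated function** -/
theorem logD6_XXL {ep : ℝ} (h0 : 0 < ep) (h1 : ep ≤ 1 / 100) {m : ℕ} (hm : 0 < m) {x : Fin m → ℂ}
    (hx : ∀ i, (x i).re = 0) {W : List ℂ} (hW : ∀ w ∈ W, w.re = 0) {p : ℂ}
    (hp : |p.re| ≤ l / 2) {P : Par6} {c' : ℝ} (hd : DsC P (ep / 4) c') (c : Bool → ℂ)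
    (g0 : Bool → ℂ → ℂ) :
    LogD6 (ZXL c g0 (4 / 3 * (1 - ep)) x W p) P (ep / 4)
      (fun u => LZX u (4 / 3 * (1 - ep)) x W p) (LPo6 P) :=
  LogD6_XX (lzOk_std h0 h1 hm hx hW hp) c g0 (fun _ w => PBX.Lg p p w * PBX.Lg p p (w - l)) hd

/-- the strip of the curves of the application is at distance `l / 100` from the zeros and the poles -/
theorem dsC_par6 {ep : ℝ} (h0 : 0 < ep) (h1 : ep ≤ 1 / 100) : DsC par6 (ep / 4) (1 / 100) :=
  dsC_of par6_good (by positivity) (by norm_num)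
    (by show ep / 4 + 1 / 100 ≤ 129 / 64 - 2; linarith)
    (by show ep / 4 + 1 / 100 ≤ 1 / 32; linarith)
    (by show ep / 4 + 1 / 100 ≤ 1 - 7 / 8; linarith)

theorem measurable_ZXL {m : ℕ} {c : Bool → ℂ} {g0 : Bool → ℂ → ℂ} (hg : ∀ a, Measurable (g0 a)) {β : ℝ}
    {x : Fin m → ℂ} {W : List ℂ} {p : ℂ} (a : Bool) (k : Option O3) :
    Measurable (ZXL c g0 β x W p a k) :=
  Pool.Agent.PLX.measurable_XXU (PBX.measurable_gP _ _) (hg a) (PBX.Lg_meas p p)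
    ((PBX.Lg_meas p p).mul ((PBX.Lg_meas p p).comp (measurable_id.sub_const _))) k

variable [NUSea.Sea]

/-- **the data of all fibres**: rows on the imaginary axis, legs `z`, any sea `ρ` -/
theorem fibN6_XXL {ep e1 J : ℝ} (hep0 : 0 < ep) (hep : ep ≤ 1 / 100) (he : 0 < e1)
    (he1 : e1 ≤ 1 / 100) (hJ : 0 ≤ J) :
    ∃ m0 : ℕ, ∀ M ≥ m0, ∀ (m : ℕ) (x : Fin m → ℂ), 0 < m → (∀ i, (x i).re = 0) →
      ∀ W : List ℂ, (∀ w ∈ W, w.re = 0) → ∀ z : ℂ, |z.re| ≤ l / 2 →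
      ∀ (c : Bool → ℂ) (c0 : ℝ), (∀ a, ‖c a‖ = c0) →
      ∀ g0 : Bool → ℂ → ℂ, (∀ a, Measurable (g0 a)) →
      ∀ (ρ : ℂ → ℂ) (b0 b1 : ℝ), ep * l / 4 ≤ b0 → b0 < b1 → 2 * b1 ≤ l → PB.SeaF b1 ρ →
      ∀ κ : ℕ → ℝ, (∀ n, 0 < κ n) → (∀ n, κ n ≤ 2 * (4 / 3 * (1 - ep))) →
      ∀ N : ℕ, dN N = Fil.xn m → FibN6 N (fun _ => ZXL c g0 (4 / 3 * (1 - ep)) x W z)
        (fun _ => par6) (fun _ => PBU.PLX.cr e1 J M) (fun _ => PBU.PLX.cr' e1 J M)
        (ep / 4) 0 b0 b1 κ (fun _ u => LZX u (4 / 3 * (1 - ep)) x W z)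
        (fun _ => LPo6 par6) ρ := by
  have hl := Bd.l_pos
  obtain ⟨m0, -, H⟩ := curOKC he he1 hJ hep0
  refine ⟨m0, fun M hM m x hm hx W hW z hz c c0 hc g0 hg ρ b0 b1 hb0 hb01 hb1l hρ κ hκ0 hκ N
    hN => ?_⟩
  have hC := H M hM M (by have : (0:ℝ) ≤ M := Nat.cast_nonneg M; linarith)
  have hrw : PBX.Rws x := by
    intro i
    rw [hx i, abs_zero]
    positivity
  have hex : ∀ w ∈ W, |w.re| ≤ l / 2 := by
    intro w hw
    rw [hW w hw, abs_zero]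
    positivity
  have hz' := abs_le.1 hz
  have hone := oneC6_Lg (P := par6) (ep := ep) (β := 4 / 3 * (1 - ep)) (x0 := 19 / 20 * l)
    (c := c) (g0 := g0) (ex := fun _ => W) (by linarith)
    le_rfl hep0 hep (by linarith) (by linarith) hrw (fun _ => hex)
    hg hc (z := z) (by linarith) (by linarith)
  have hq : QOk6 (ZXL c g0 (4 / 3 * (1 - ep)) x W z) (ep / 4) (2 * (4 / 3 * (1 - ep)))
      (-Fil.xn m) := QOk6.of_oneC hone (by linarith)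
  have hmc := mcr_cr' e1 J M
  exact {
    hQ := fun n _ => by
      rw [hN]
      exact QOk6.mono hq (hκ0 n) (hκ n)
    hS := fun n _ => par6_good.stP (by positivity) (by linarith)
      (by show (7 / 8 : ℝ) + ep / 4 < 1; linarith)
    crv := fun n _ r O => crvR6_of hC
    hL := fun n _ => logD6_XXL hep0 hep hm hx hW hz (dsC_par6 hep0 hep) c g0
    hs := fun n _ => InS.of fun r O t => (hC.h1 t).trans hb0
    b1p := lt_of_le_of_lt (by positivity) (lt_of_le_of_lt hb0 hb01)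
    b01 := hb01
    b1l := hb1l
    sea := hρ
    mc := fun n _ => hmc
    mZ := fun n _ => MC6.of (fun s k => measurable_ZXL hg s k) hmc
    mP := fun n _ r s => by first | exact meas_LPo26 par6 r s | exact meas_LPo6 par6 r s }

/-- **the data of all fibres of the dislocated function**: rows `mu1 k (I s)`, legs `I t` -/
theorem fibN6_Lc {ep e1 J : ℝ} (hep0 : 0 < ep) (hep : ep ≤ 1 / 100) (he : 0 < e1)
    (he1 : e1 ≤ 1 / 100) (hJ : 0 ≤ J) :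
    ∃ m0 : ℕ, ∀ M ≥ m0, ∀ (k : ℕ) (c : Bool → ℂ) (c0 : ℝ), (∀ a, ‖c a‖ = c0) →
      ∀ g0 : Bool → ℂ → ℂ, (∀ a, Measurable (g0 a)) →
      ∀ (s t : ℝ) (ρ : ℂ → ℂ) (b0 b1 : ℝ), ep * l / 4 ≤ b0 → b0 < b1 →
      2 * b1 ≤ l → PB.SeaF b1 ρ →
      ∀ κ : ℕ → ℝ, (∀ n, 0 < κ n) → (∀ n, κ n ≤ 2 * (4 / 3 * (1 - ep))) →
      ∀ N : ℕ, dN N = Fil.xn (k + 1) →
      FibN6 N (fun _ => ZL6 c g0 k (4 / 3 * (1 - ep)) (I * s) (I * t))
        (fun _ => par6) (fun _ => PBU.PLX.cr e1 J M) (fun _ => PBU.PLX.cr' e1 J M)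
        (ep / 4) 0 b0 b1 κ
        (fun _ u => LZX u (4 / 3 * (1 - ep)) (PBL.PLX.mu1 k (I * s)) [I, -I] (I * t))
        (fun _ => LPo6 par6) ρ := by
  have hl := Bd.l_pos
  obtain ⟨m0, H⟩ := fibN6_XXL hep0 hep he he1 hJ
  refine ⟨m0, fun M hM k c c0 hc g0 hg s t ρ b0 b1 hb0 hb01 hb1l hρ κ hκ0 hκ N hN => ?_⟩
  refine H M hM (k + 1) (PBL.PLX.mu1 k (I * s)) (by omega) (mu1_re k s) [I, -I] re_pm
    (I * t) ?_ c c0 hc g0 hg ρ b0 b1 hb0 hb01 hb1l hρ κ hκ0 hκ N hN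
  simp
  positivity

/-- **the data of all fibres of `fx j`**: the family `famL6` at `m = j + 1`, index `(I s, I t)`, on the
curve of order `j + 1`, any sea `ρ` -/
theorem fibN6_fx {ep e1 J : ℝ} (hep0 : 0 < ep) (hep : ep ≤ 1 / 100) (he : 0 < e1)
    (he1 : e1 ≤ 1 / 100) (hJ : 0 ≤ J) :
    ∃ j0 : ℕ, ∀ j ≥ j0, ∀ (s t : ℝ) (ρ : ℂ → ℂ) (b0 b1 : ℝ), ep * l / 4 ≤ b0 → b0 < b1 →
      2 * b1 ≤ l → PB.SeaF b1 ρ →
      ∀ κ : ℕ → ℝ, (∀ n, 0 < κ n) → (∀ n, κ n ≤ 2 * (4 / 3 * (1 - ep))) →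
      FibN6 (2 * (j + 1)) (fun _ => PBU.PLX.famL6.Z ep (j + 1) (I * s, I * t))
        (fun _ => par6) (fun _ => PBU.PLX.cr e1 J (j + 1))
        (fun _ => PBU.PLX.cr' e1 J (j + 1)) (ep / 4) 0 b0 b1 κ
        (fun _ u => LZX u (4 / 3 * (1 - ep)) (PBL.PLX.mu1 j (I * s)) [I, -I] (I * t))
        (fun _ => LPo6 par6) ρ := by
  have hl := Bd.l_pos
  obtain ⟨m0, H⟩ := fibN6_Lc hep0 hep he he1 hJ
  refine ⟨m0, fun j hj s t ρ b0 b1 hb0 hb01 hb1l hρ κ hκ0 hκ => ?_⟩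
  exact H (j + 1) (by omega) j (PBU.PLX.ccS6 (j + 1)) _ (PBU.PLX.norm_ccS6 (j + 1))
    (PBU.PLX.g0L (j + 1) j (I * s)) (PBU.PLX.meas_g0L (j + 1) j (by simp; positivity)) s t ρ b0 b1
    hb0 hb01 hb1l hρ κ hκ0 hκ (2 * (j + 1)) (dN_two _)

end PBFX.PLX

end
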