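import Pool.Agent.PLX.PB.ObB

/-!
# (P): the factor of the legs on the lines of the objects, two sided

`thZ z u = ‖sin (z - u - 3 l)‖ / ‖sin (z - u + 2 l)‖`, `-9/10 l ≤ re z ≤ 31/10 l`.

* `thZ_ge`: away from the zero; `thZ_inv_le`;
* **`leg_up`**: `thZ z u ≤ cZ` for `-(5/2) l ≤ re u ≤ l` (all lines of `L`, `T`, `E`, `F`, both quanta of the
  strings, the points `b`, the holes);
* **`leg_lo`**: `cZ⁻¹ ≤ thZ z u` for `l / 8 ≤ re u ≤ l` (points `b`, holes); `leg_inv`: the same for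
  the inverse; `leg_two`: both.
-/

set_option autoImplicit false

noncomputable section

open Complex

namespace PBO.PLX

open NUP1

theorem thZ_ge {z u : ℂ} (h1 : l / 1000 ≤ |z.re - u.re - 3 * l|)
    (h2 : |z.re - u.re - 3 * l| ≤ 8 * l - l / 1000) (h3 : l / 1000 ≤ |z.re - u.re + 2 * l|)
    (h4 : |z.re - u.re + 2 * l| ≤ 8 * l - l / 1000) : cZ⁻¹ ≤ thZ z u := by
  have hs := s1_pos
  have e1 : (z - u - 3 * l).re = z.re - u.re - 3 * l := by simp
  have e2 : (z - u + 2 * l).re = z.re - u.re + 2 * l := by simp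
  have i1 : (z - u + 2 * l).im = (z - u).im := by simp
  have i2 : (z - u - 3 * l).im = (z - u).im := by simp
  have a1 := sin_dn (z := z - u - 3 * l) (by rw [e1]; exact h1) (by rw [e1]; exact h2)
  have a2 := sin_up (z - u + 2 * l)
  have a3 := sin_dn (z := z - u + 2 * l) (by rw [e2]; exact h3) (by rw [e2]; exact h4)
  rw [i2] at a1
  rw [i1] at a2 a3
  have hc := Real.cosh_pos (z - u).im
  have h0 : 0 < ‖sin (z - u + 2 * l)‖ := lt_of_lt_of_le (by positivity) a3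
  unfold thZ cZ
  rw [inv_inv, le_div_iff₀ h0]
  calc s1 * ‖sin (z - u + 2 * l)‖ ≤ s1 * Real.cosh (z - u).im := by gcongr
    _ ≤ _ := a1

section
variable {z u : ℂ} (h1 : -(9 / 10 * l) ≤ z.re) (h2 : z.re ≤ 31 / 10 * l)

include h1 h2

/-- **the legs from above on all lines** -/
theorem leg_up (h3 : -(5 / 2 * l) ≤ u.re) (h4 : u.re ≤ l) : thZ z u ≤ cZ := by
  have hl := l_pos
  have h5 : 0 < z.re - u.re + 2 * l := by linarith
  refine thZ_le ?_ ?_ <;> rw [abs_of_pos h5] <;> linarith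

/-- **the legs from below on the lines of the holes and of the points `b`** -/
theorem leg_lo (h3 : l / 8 ≤ u.re) (h4 : u.re ≤ l) : cZ⁻¹ ≤ thZ z u := by
  have hl := l_pos
  have h5 : 0 < z.re - u.re + 2 * l := by linarith
  have h6 : z.re - u.re - 3 * l < 0 := by linarith
  refine thZ_ge ?_ ?_ ?_ ?_
  · rw [abs_of_neg h6]; linarith
  · rw [abs_of_neg h6]; linarith
  · rw [abs_of_pos h5]; linarith
  · rw [abs_of_pos h5]; linarith

/-- the inverse -/
theorem leg_inv (h3 : l / 8 ≤ u.re) (h4 : u.re ≤ l) : (thZ z u)⁻¹ ≤ cZ := by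
  have h5 := leg_lo h1 h2 h3 h4
  have h6 : 0 < cZ⁻¹ := inv_pos.2 cZ_pos
  calc (thZ z u)⁻¹ ≤ (cZ⁻¹)⁻¹ := inv_anti₀ h6 h5
    _ = cZ := inv_inv _

/-- the legs do not vanish on the lines of the holes and of the points `b` -/
theorem leg_pos (h3 : l / 8 ≤ u.re) (h4 : u.re ≤ l) : 0 < thZ z u :=
  lt_of_lt_of_le (inv_pos.2 cZ_pos) (leg_lo h1 h2 h3 h4)

/-- both bounds -/
theorem leg_two (h3 : l / 8 ≤ u.re) (h4 : u.re ≤ l) : cZ⁻¹ ≤ thZ z u ∧ thZ z u ≤ cZ := by
  have hl := l_pos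
  exact ⟨leg_lo h1 h2 h3 h4, leg_up h1 h2 (by linarith) h4⟩

end

end PBO.PLX

end
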