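import Pool.Agent.PHK.Ob6R
import Pool.Agent.PHK.BrT
import Pool.Agent.PHK.OneD

/-!
# One body data of (P): the instance

The data `obU6 c0 β xr W1 F0 g` with the cutoff `F0 a = phO T1 (ofFn (xr a) ++ W2 a)` of the strings.

* `PtL n h0 W`: at most `n` points, `|re| ≤ l / 2`, `|im| ≤ h0`; `RwL.append`;
* `In6`: hypotheses on rows, points and the further factor; `In6.obR`: the data as `ObR`;
* **`ob6_obU6`**: `Ob6` with a constant which depends only on the numbers of `In6`;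
* `ob6_obX6`: rows `(x | x^q)`.
-/

set_option autoImplicit false

noncomputable section

open Complex MeasureTheory Set

namespace PHK

open NUP1 NUGC.PLX PBO.PLX
open NUO (cut posT posS)
open Pool.Agent.PLX (rwq)

/-- at most `n` points -/
structure PtL (n : ℕ) (h0 : ℝ) (W : List ℂ) : Prop where
  len : W.length ≤ n
  re : ∀ x ∈ W, |x.re| ≤ l / 2
  im : ∀ x ∈ W, |x.im| ≤ h0

theorem PtL.nil (n : ℕ) (h0 : ℝ) : PtL n h0 [] := ⟨Nat.zero_le _, by simp, by simp⟩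

theorem PtL.II {n : ℕ} (hn : 2 ≤ n) {h0 : ℝ} (h : 1 ≤ h0) : PtL n h0 [I, -I] := by
  have hl := l_pos
  refine ⟨hn, fun x hx => ?_, fun x hx => ?_⟩
  · rw [List.mem_cons, List.mem_singleton] at hx
    rcases hx with rfl | rfl
    · rw [I_re, abs_zero]; positivity
    · rw [neg_re, I_re, neg_zero, abs_zero]; positivity
  · rw [List.mem_cons, List.mem_singleton] at hx
    rcases hx with rfl | rfl
    · rw [I_im, abs_one]; exact h
    · rw [neg_im, I_im, abs_neg, abs_one]; exact h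

theorem rwL_append {n0 n1 n2 K : ℕ} {h0 : ℝ} {W ex W1 : List ℂ} (h : RwL n0 h0 K W ex)
    (h1 : PtL n1 h0 W1) (hn : n0 + n1 ≤ n2) : RwL n2 h0 K (W ++ W1) (ex ++ W1) where
  perm := by
    rw [← List.append_assoc]
    exact h.perm.append_right W1
  len := by
    have a := h.len
    have b := h1.len
    rw [List.length_append]
    omega
  re x hx := by
    rcases List.mem_append.1 hx with hx | hx
    · exact h.re x hx
    · exact h1.re x hx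
  im x hx := by
    rcases List.mem_append.1 hx with hx | hx
    · exact h.im x hx
    · exact h1.im x hx

/-- hypotheses on the rows `xr`, the points `W1`, `W2` of the cutoffs and the further factor `g` -/
structure In6 (n0 n1 miss : ℕ) (h0 G d1 : ℝ) (P : Par6) (N : Bool → ℕ) (m : ℕ) (β : ℝ)
    {M : Bool → ℕ} (xr : ∀ a, Fin (M a) → ℂ) (W1 W2 : Bool → List ℂ) (g : Bool → ℂ → ℝ) :
    Prop where
  β0 : 0 < β
  β1 : β ≤ 4 / 3
  rows : RwU n0 h0 miss N fun a => List.ofFn (xr a)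
  num : ∀ a, (N a : ℝ) ≤ d1 * m
  mN : ∀ a, m ≤ N a + n0
  w1 : ∀ a, PtL n1 h0 (W1 a)
  w2 : ∀ a, PtL n1 h0 (W2 a)
  gp : ∀ a u, 0 ≤ g a u
  gu : ∀ j ∈ upL P, ∀ (a : Bool) (t : ℝ), g a (vl ((1 - j) * l) t) ≤ G
  gl : ∀ j ∈ loL P, ∀ (a : Bool) (t : ℝ), (g a (vl ((1 - j) * l) t))⁻¹ ≤ G

section
variable {n0 n1 miss : ℕ} {h0 G c0 d1 : ℝ} {P : Par6} {N : Bool → ℕ} {m : ℕ} {β : ℝ}
  {M : Bool → ℕ} {xr : ∀ a, Fin (M a) → ℂ} {W1 W2 : Bool → List ℂ} {g : Bool → ℂ → ℝ}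

/-- the lists of points of the cutoffs -/
theorem In6.pts (h : In6 n0 n1 miss h0 G d1 P N m β xr W1 W2 g) {V : Bool → List ℂ}
    (hV : ∀ a, PtL n1 h0 (V a)) (a : Bool) : ∃ (K : ℕ) (ex : List ℂ),
      RwL (3 * n0 + n1) h0 K (List.ofFn (xr a) ++ V a) ex ∧ m ≤ K + (3 * n0 + n1) ∧
        N a ≤ K + (3 * n0 + n1) := by
  obtain ⟨K, ex, hK⟩ := h.rows.ex a
  have h1 := h.rows.len a
  have h2 := h.mN a
  have h3 := h.rows.ms
  have h4 : (List.ofFn (xr a)).length = K + ex.length := by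
    rw [hK.perm.length_eq, List.length_append, List.length_replicate]
  have h5 := hK.len

  exact ⟨K, ex ++ V a, rwL_append hK (hV a) (by omega), by omega, by omega⟩

theorem In6.len (h : In6 n0 n1 miss h0 G d1 P N m β xr W1 W2 g) (hm : 1 ≤ m) {V : Bool → List ℂ}
    (hV : ∀ a, PtL n1 h0 (V a)) (a : Bool) :
    ((List.ofFn (xr a) ++ V a).length : ℝ) ≤ (d1 + n1) * m := by
  have h1 := h.rows.len a

  have h2 : (List.ofFn (xr a)).length ≤ N a := by omega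
  have h3 := (hV a).len
  have h4 : ((List.ofFn (xr a) ++ V a).length : ℝ) ≤ N a + n1 := by
    rw [List.length_append]
    exact_mod_cast Nat.add_le_add h2 h3
  have h5 := h.num a
  have h6 : (n1 : ℝ) ≤ n1 * m := le_mul_of_one_le_right (Nat.cast_nonneg _) (by exact_mod_cast hm)
  linarith

/-- the data of the instance -/
theorem In6.obR (h : In6 n0 n1 miss h0 G d1 P N m β xr W1 W2 g) (hh : 0 ≤ h0) (hc : 0 < c0)
    (hd : 1 ≤ d1) (hG : 0 ≤ G) (hm : 1 ≤ m)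
    (hm2 : 2 ^ 14 * Real.exp (8 / 3 * h0) * (3 * n0 + n1 : ℕ) ≤ m) (F0 : Bool → ℂ → ℂ) :
    ObR (3 * n0 + n1) miss h0 G c0 (d1 + n1) P N m β (obU6 c0 β xr W1 F0 g)
      (fun a => List.ofFn (xr a)) (fun a => List.ofFn (xr a) ++ W1 a) g where
  hh := hh
  cc := hc
  one_le := by
    have : (0 : ℝ) ≤ n1 := Nat.cast_nonneg n1
    linarith
  G0 := hG
  m0 := hm
  mL := hm2
  β0 := h.β0
  β1 := h.β1
  rows := by
    refine ⟨fun a => ?_, h.rows.lt, h.rows.len, h.rows.ms.trans (by omega)⟩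
    obtain ⟨K, ex, hK⟩ := h.rows.ex a
    exact ⟨K, ex, hK.perm, hK.len.trans (by omega), hK.re, hK.im⟩
  num a := (h.num a).trans (by
    have : (0 : ℝ) ≤ n1 := Nat.cast_nonneg n1
    have h2 : (0 : ℝ) ≤ m := Nat.cast_nonneg m
    nlinarith)
  pts a := by
    obtain ⟨K, ex, h1, h2, -⟩ := h.pts h.w1 a
    exact ⟨K, ex, h1, h2⟩
  lenV a := h.len hm h.w1 a
  R a u := by
    rw [obU6_R, rwU_list]
  φ _ := rfl
  gp := h.gp
  gu := h.gu
  gl := h.gl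

/-- `m ≤ 2 N a` -/
theorem In6.hN (h : In6 n0 n1 miss h0 G d1 P N m β xr W1 W2 g)
    (hh : 0 ≤ h0) (hm2 : 2 ^ 14 * Real.exp (8 / 3 * h0) * (3 * n0 + n1 : ℕ) ≤ m) (a : Bool) :
    m ≤ 2 * N a := by
  have h1 := h.mN a
  have h2 : (1 : ℝ) ≤ Real.exp (8 / 3 * h0) := Real.one_le_exp (by positivity)
  have h3 : (2 * n0 : ℝ) ≤ m := by
    refine le_trans ?_ hm2
    push_cast
    have h4 : (0 : ℝ) ≤ n0 := Nat.cast_nonneg n0
    have h5 : (0 : ℝ) ≤ n1 := Nat.cast_nonneg n1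
    nlinarith [mul_nonneg (by linarith : (0 : ℝ) ≤ Real.exp (8 / 3 * h0) - 1)
      (by positivity : (0 : ℝ) ≤ 3 * (n0 : ℝ) + n1)]
  have h4 : 2 * n0 ≤ m := by exact_mod_cast h3
  omega

/-- the constant of the instance -/
def cI6 (n0 n1 : ℕ) (h0 G c0 d1 : ℝ) : ℝ :=
  cOR (3 * n0 + n1) h0 G c0 (d1 + n1) +
    (4 + 4 * Real.exp 2) * Real.exp ((3 * n0 + n1 : ℕ) * cA) +
    (2 + Real.exp 3) * cL h0 (d1 + n1)

/-- **the one body data of (P), the instance** -/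
theorem In6.ob6 (h : In6 n0 n1 miss h0 G d1 P N m β xr W1 W2 g) (hP : GoodP6 P)
    (h9 : P.j2 ≤ 999 / 1000) (hh : 0 ≤ h0) (hc : 0 < c0)
    (hd : 1 ≤ d1) (hG : 0 ≤ G) (hm : 1 ≤ m)
    (hm2 : 2 ^ 14 * Real.exp (8 / 3 * h0) * (3 * n0 + n1 : ℕ) ≤ m) {T1 : ℝ}
    (hT : 3 / 8 * Real.log m + tau0 h0 (d1 + n1) ≤ T1) :
    Ob6 P (cI6 n0 n1 h0 G c0 d1) N m β T1
      (obU6 c0 β xr W1 (fun a => phO T1 (List.ofFn (xr a) ++ W2 a)) g) := by
  have hO := h.obR hh hc hd hG hm hm2 fun a => phO T1 (List.ofFn (xr a) ++ W2 a)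
  have hn1 : (0 : ℝ) ≤ n1 := Nat.cast_nonneg n1
  have hd0 : 0 ≤ d1 + n1 := by linarith
  have hcL := cL_ge (h0 := h0) hd0
  have e2 := Real.exp_pos 2
  have e3 := Real.exp_pos 3
  have p1 : 0 ≤ cOR (3 * n0 + n1) h0 G c0 (d1 + n1) :=
    le_trans (by norm_num) (cOR_ge hO).2.2.2.1
  have p2 : 0 ≤ (4 + 4 * Real.exp 2) * Real.exp ((3 * n0 + n1 : ℕ) * cA) := by positivity
  have p3 : 0 ≤ (2 + Real.exp 3) * cL h0 (d1 + n1) := by positivity
  refine hO.ob6 hP h9 (by unfold cI6; linarith) (fun a t => ?_) (fun a t => ?_) fun a t => ?_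
  · obtain ⟨K1, ex1, a1, -, b1⟩ := h.pts h.w1 a
    obtain ⟨K2, ex2, a2, -, b2⟩ := h.pts h.w2 a
    refine (br_bulk h.β0 h.β1 hh a1 a2 b1 b2 hd0 hm (h.len hm h.w2 a) hT t).trans ?_
    refine mul_le_mul_of_nonneg_right ?_ (Real.exp_pos _).le
    unfold cI6
    linarith
  · obtain ⟨K1, ex1, a1, -, -⟩ := h.pts h.w1 a
    obtain ⟨K2, ex2, a2, -, -⟩ := h.pts h.w2 a
    refine (br_cut h.β0 h.β1 hh a1 a2 hd0 hm (h.len hm h.w1 a) (h.len hm h.w2 a) hT t).trans ?_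
    refine mul_le_mul_of_nonneg_right ?_ (NUO.cut_nonneg _ _ _)
    unfold cI6
    linarith
  · obtain ⟨K2, ex2, a2, -, -⟩ := h.pts h.w2 a
    have he : 0 ≤ P.e := by linarith [hP.e13]
    refine (phi0_om hh a2 hd0 hm (h.len hm h.w2 a) hT he hP.e45 t).trans ?_
    rw [mul_assoc (Real.exp 3 * cL h0 (d1 + n1))]
    unfold cS6
    refine mul_le_mul_of_nonneg_right ?_ (mul_nonneg (NUO.cut_nonneg _ _ _) (Real.exp_pos _).le)
    unfold cI6
    have : 0 ≤ 2 * cL h0 (d1 + n1) := by linarith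
    linarith

end

/-- **rows `(x | x^q)`** -/
theorem In6.ob6X [PLX.Fil] {n0 n1 miss : ℕ} {h0 G c0 d1 : ℝ} {P : Par6} {N : Bool → ℕ} {m k : ℕ}
    {β : ℝ} {x : Fin k → ℂ} {W1 W2 : Bool → List ℂ} {g : Bool → ℂ → ℝ}
    (h : In6 n0 n1 miss h0 G d1 P N m β (rwq x) W1 W2 g) (hP : GoodP6 P)
    (h9 : P.j2 ≤ 999 / 1000) (hh : 0 ≤ h0) (hc : 0 < c0)
    (hd : 1 ≤ d1) (hG : 0 ≤ G) (hm : 1 ≤ m)
    (hm2 : 2 ^ 14 * Real.exp (8 / 3 * h0) * (3 * n0 + n1 : ℕ) ≤ m) {T1 : ℝ}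
    (hT : 3 / 8 * Real.log m + tau0 h0 (d1 + n1) ≤ T1) :
    Ob6 P (cI6 n0 n1 h0 G c0 d1) N m β T1
      (obX6 c0 β x W1 (fun a => phO T1 (List.ofFn (rwq x a) ++ W2 a)) g) := by
  rw [← obU6_rwq]
  exact h.ob6 hP h9 hh hc hd hG hm hm2 hT

end PHK

end
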