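import Pool.Agent.PHK.Pot
import Pool.Agent.PLX.NUSea.OOneB

/-!
# Clouds of the objects of (P), two numbers of rows

`mfo6 s B`: interaction of the signed constituents `B` with the clouds of `s true` rows of the first,
`s false` rows of the second species; `Cloud6 s B v`: integrability and value.

* `offX6 L`: the quanta `((species, offset, height), multiplicity)` of the signed constituents `L`,
  `offS6 P x = offX6 (parts6 P x)` with the explicit forms `offS6_L`, ..;
* **`cloud6`**: `Cloud6 s L (∑ k * clo s species offset height)` for EVERY list, `mfo6_eq`, `mfo6_L`, ..;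
* `log_ppN6_ae`: the logarithm over the quanta at almost every height.
-/

set_option autoImplicit false
set_option linter.unusedSectionVars false

noncomputable section

open Complex MeasureTheory Set

namespace PHK

open NUP1
open NUO hiding Cloud clo mfo vl_re vl_im posS_eq posT_eq posL_eq
open NUSea (Sea)
open NUSea.PLX.O (Cloud clo cloP cloC lpS mfo)

/-! ### the quanta of the signed constituents -/

/-- the quanta of a list of signed constituents: ((species, offset, height), multiplicity) -/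
def offX6 (L : List Part6) : List ((Bool × ℝ × ℝ) × ℤ) :=
  L.flatMap fun x => (offs x.1).map fun p => ((x.1.1, p), x.2)

/-- the quanta of an object -/
def offS6 (P : Par6) (x : Xo) : List ((Bool × ℝ × ℝ) × ℤ) := offX6 (parts6 P x)

theorem offX6_nil : offX6 [] = [] := rfl

theorem offX6_cons (x : Part6) (L : List Part6) :
    offX6 (x :: L) = ((offs x.1).map fun p => ((x.1.1, p), x.2)) ++ offX6 L := by
  unfold offX6
  rw [List.flatMap_cons]

theorem offs_q (a : Bool) (w : ℂ) : offs (a, false, w) = [(off w, w.im)] := rfl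

theorem offs_s (a : Bool) (w : ℂ) : offs (a, true, w) = [(off w, w.im), (off w + 1, w.im)] := rfl

section forms

variable (P : Par6) {x : Xo}

theorem offS6_L (h : k6 x = .L) : offS6 P x = [((sp x, P.jL, ht x), 1)] := by
  simp [offS6, parts6, h, offX6, offs_q, off_posL, posL_im]

theorem offS6_T (h : k6 x = .T) : offS6 P x =
    [((sp x, 3 / 2, ht x), 1), ((sp x, 3 / 2 + 1, ht x), 1)] := by
  simp [offS6, parts6, h, offX6, offs_s, PHK.posT_eq, off_posL, posL_im]

theorem offS6_E (h : k6 x = .E) : offS6 P x =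
    [((sp x, 2 + P.e, ht x), 1), ((sp x, 2 + P.e + 1, ht x), 1), ((!sp x, P.e, ht x), 2)] := by
  simp [offS6, parts6, h, offX6, offs_s, offs_q, PHK.posS_eq, PHK.posB_eq, off_posL, posL_im]

theorem offS6_F (h : k6 x = .F) : offS6 P x =
    [((sp x, 2 + P.e, ht x), 1), ((sp x, 2 + P.e + 1, ht x), 1), ((!sp x, P.e, ht x), 2),
      ((sp x, P.e, ht x), -1)] := by
  simp [offS6, parts6, h, offX6, offs_s, offs_q, PHK.posS_eq, PHK.posB_eq, off_posL, posL_im]

theorem offS6_H1 (h : k6 x = .H1) : offS6 P x = [((sp x, P.j1, ht x), -1)] := by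
  simp [offS6, parts6, h, offX6, offs_q, off_posL, posL_im]

theorem offS6_H2 (h : k6 x = .H2) : offS6 P x = [((sp x, P.j2, ht x), -1)] := by
  simp [offS6, parts6, h, offX6, offs_q, off_posL, posL_im]

/-- the list `offK6` of `PHK/Pot` -/
theorem offS6_offK6 (x : Xo) : offS6 P x =
    (offK6 P (k6 x)).map fun p => ((if p.1 = true then sp x else !sp x, p.2.1, ht x), p.2.2) := by
  have e1 : (3 : ℝ) / 2 + 1 = 5 / 2 := by norm_num
  have e2 : (2 : ℝ) + P.e + 1 = 3 + P.e := by ring
  rcases h : k6 x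
  · rw [offS6_L P h]; simp [offK6]
  · rw [offS6_T P h]; simp [offK6, e1]
  · rw [offS6_E P h]; simp [offK6, e2]
  · rw [offS6_F P h]; simp [offK6, e2]
  · rw [offS6_H1 P h]; simp [offK6]
  · rw [offS6_H2 P h]; simp [offK6]

end forms

/-- all quanta of an object are at its height -/
theorem offS6_ht (P : Par6) (x : Xo) : ∀ p ∈ offS6 P x, p.1.2.2 = ht x := by
  intro p hp
  rcases h : k6 x
  · rw [offS6_L P h] at hp; simp at hp; simp [hp]
  · rw [offS6_T P h] at hp; simp at hp; rcases hp with hp | hp <;> simp [hp]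
  · rw [offS6_E P h] at hp; simp at hp; rcases hp with hp | hp | hp <;> simp [hp]
  · rw [offS6_F P h] at hp; simp at hp; rcases hp with hp | hp | hp | hp <;> simp [hp]
  · rw [offS6_H1 P h] at hp; simp at hp; simp [hp]
  · rw [offS6_H2 P h] at hp; simp at hp; simp [hp]

/-- the offsets of an object -/
theorem offS6_mem (P : Par6) (x : Xo) : ∀ p ∈ offS6 P x, p.1.2.1 = P.jL ∨ p.1.2.1 = 3 / 2 ∨
    p.1.2.1 = 3 / 2 + 1 ∨ p.1.2.1 = P.e ∨ p.1.2.1 = 2 + P.e ∨ p.1.2.1 = 2 + P.e + 1 ∨
    p.1.2.1 = P.j1 ∨ p.1.2.1 = P.j2 := by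
  intro p hp
  rcases h : k6 x
  · rw [offS6_L P h] at hp; simp at hp; simp [hp]
  · rw [offS6_T P h] at hp; simp at hp; rcases hp with hp | hp <;> simp [hp]
  · rw [offS6_E P h] at hp; simp at hp; rcases hp with hp | hp | hp <;> simp [hp]
  · rw [offS6_F P h] at hp; simp at hp; rcases hp with hp | hp | hp | hp <;> simp [hp]
  · rw [offS6_H1 P h] at hp; simp at hp; simp [hp]
  · rw [offS6_H2 P h] at hp; simp at hp; simp [hp]

/-- total multiplicity at most `5` -/
theorem offS6_abs (P : Par6) (x : Xo) : ((offS6 P x).map fun p => |(p.2 : ℝ)|).sum ≤ 5 := by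
  rcases h : k6 x
  · rw [offS6_L P h]; norm_num
  · rw [offS6_T P h]; norm_num
  · rw [offS6_E P h]; norm_num
  · rw [offS6_F P h]; norm_num
  · rw [offS6_H1 P h]; norm_num
  · rw [offS6_H2 P h]; norm_num

/-- the charge of an object over its quanta -/
theorem offS6_chg (P : Par6) (s : Bool) (x : Xo) :
    ((offS6 P x).map fun p => if p.1.1 = s then p.2 else 0).sum = chg6 s x := by
  rcases h : k6 x
  · rw [offS6_L P h]; simp [chg6, h]
  · rw [offS6_T P h]; simp only [chg6, h, List.map_cons, List.map_nil, List.sum_cons, List.sum_nil]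
    split_ifs <;> norm_num
  · rw [offS6_E P h]; simp only [chg6, h, List.map_cons, List.map_nil, List.sum_cons, List.sum_nil]
    cases sp x <;> cases s <;> norm_num
  · rw [offS6_F P h]; simp only [chg6, h, List.map_cons, List.map_nil, List.sum_cons, List.sum_nil]
    cases sp x <;> cases s <;> norm_num
  · rw [offS6_H1 P h]; simp [chg6, h]
  · rw [offS6_H2 P h]; simp [chg6, h]

/-! ### a quantum against the signed constituents -/

theorem ppN6_q (a : Bool) (z : ℂ) (L : List Part6) :
    ppN6 [((a, false, z), 1)] L = (L.map fun b => ‖pp (a, false, z) b.1‖ ^ b.2).prod := by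
  unfold ppN6 pp6
  rw [List.map_singleton, List.prod_singleton]
  congr 1
  refine List.map_congr_left fun b _ => ?_
  rw [norm_zpow, one_mul]

theorem ppN6_q_nil (a : Bool) (z : ℂ) : ppN6 [((a, false, z), 1)] [] = 1 := by
  rw [ppN6_q, List.map_nil, List.prod_nil]

theorem ppN6_q_cons (a : Bool) (z : ℂ) (b : Part6) (L : List Part6) :
    ppN6 [((a, false, z), 1)] (b :: L) = ppN [(a, false, z)] [b.1] ^ b.2 *
      ppN6 [((a, false, z), 1)] L := by
  rw [ppN6_q, ppN6_q, ppN_single, List.map_cons, List.prod_cons, List.map_singleton,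
    List.prod_singleton]

variable [Sea]

/-- logarithm of the factors of a quantum of species `true` (`s true` times) and of a quantum of
species `false` (`s false` times) against `B` -/
def lpS6 (s : Bool → ℝ) (B : List Part6) (z : ℂ) : ℝ :=
  s true * Real.log (ppN6 [((true, false, z), 1)] B) +
    s false * Real.log (ppN6 [((false, false, z), 1)] B)

/-- interaction of the signed constituents `B` with the clouds of the rows -/
def mfo6 (s : Bool → ℝ) (B : List Part6) : ℝ := ∫ t, NUSea.P t * lpS6 s B (vl l t)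

/-- `v` is the interaction of `B` with the clouds -/
structure Cloud6 (s : Bool → ℝ) (B : List Part6) (v : ℝ) : Prop where
  ia : ∀ a : Bool, Integrable fun t => NUSea.P t * Real.log (ppN6 [((a, false, vl l t), 1)] B)
  val : mfo6 s B = v
  ne : ∀ᵐ t : ℝ, ∀ s, ppN6 [((s, false, vl l t), 1)] B ≠ 0

theorem Cloud6.int {s : Bool → ℝ} {B : List Part6} {v : ℝ} (h : Cloud6 s B v) :
    Integrable fun t => NUSea.P t * lpS6 s B (vl l t) := by
  refine (((h.ia true).const_mul (s true)).add ((h.ia false).const_mul (s false))).congr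
    (Filter.Eventually.of_forall fun t => ?_)
  simp only [Pi.add_apply, lpS6]
  ring

theorem Cloud6.nil {s : Bool → ℝ} : Cloud6 s [] 0 := by
  have h : ∀ z, lpS6 s [] z = 0 := fun z => by simp [lpS6, ppN6_q_nil]
  refine ⟨fun a => by simp [ppN6_q_nil], by simp [mfo6, h],
    Filter.Eventually.of_forall fun t s => by simp [ppN6_q_nil]⟩

/-- one constituent with a multiplicity -/
theorem Cloud6.cons {s : Bool → ℝ} {b : Part6} {B : List Part6} {v v' : ℝ}
    (hb : Cloud s [b.1] v) (hB : Cloud6 s B v') : Cloud6 s (b :: B) (b.2 * v + v') := by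
  have e0 : ∀ᵐ t : ℝ, ∀ a, Real.log (ppN6 [((a, false, vl l t), 1)] (b :: B)) =
      b.2 * Real.log (ppN [(a, false, vl l t)] [b.1]) +
        Real.log (ppN6 [((a, false, vl l t), 1)] B) := by
    filter_upwards [hb.ne, hB.ne] with t h1 h2 a
    rw [ppN6_q_cons, Real.log_mul (zpow_ne_zero _ (h1 a)) (h2 a), Real.log_zpow]
  have e' : (fun t => NUSea.P t * lpS6 s (b :: B) (vl l t)) =ᵐ[volume]
      fun t => b.2 * (NUSea.P t * lpS s [b.1] (vl l t)) + NUSea.P t * lpS6 s B (vl l t) := by
    filter_upwards [e0] with t ht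
    unfold lpS lpS6
    rw [ht, ht]
    ring
  refine ⟨fun a => ?_, ?_, ?_⟩
  · refine (((hb.ia a).const_mul (b.2 : ℝ)).add (hB.ia a)).congr ?_
    filter_upwards [e0] with t ht
    simp only [Pi.add_apply]
    rw [ht]
    ring
  · unfold mfo6
    rw [integral_congr_ae e', integral_add (hb.int.const_mul _) hB.int, integral_const_mul, ← hb.val,
      ← hB.val]
    rfl
  · filter_upwards [hb.ne, hB.ne] with t h1 h2 s
    rw [ppN6_q_cons]
    exact mul_ne_zero (zpow_ne_zero _ (h1 s)) (h2 s)

theorem vl_off6 (w : ℂ) : vl ((1 - off w) * l) w.im = w := by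
  have hl : NUMF.l ≠ 0 := NUMF.l_pos.ne'
  have e : (1 - off w) * l = w.re := by
    unfold off
    rw [show (NUP1.l : ℝ) = NUMF.l from rfl]
    field_simp
    ring
  rw [e]
  unfold vl
  exact Complex.re_add_im w

/-- the cloud of a constituent, over its quanta -/
theorem cloud_part (s : Bool → ℝ) (b : Bool × Bool × ℂ) :
    Cloud s [b] ((offs b).map fun p => clo s b.1 p.1 p.2).sum := by
  obtain ⟨σ, ty, w⟩ := b
  cases ty
  · have h := NUSea.PLX.O.good_quantum s σ (off w) w.im
    rw [vl_off6] at h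
    rw [offs_q, List.map_singleton, List.sum_singleton]
    exact h
  · have h := NUSea.PLX.O.good_string s σ (off w) w.im
    rw [vl_off6] at h
    rw [offs_s, List.map_cons, List.map_singleton, List.sum_cons, List.sum_singleton]
    exact h

/-- **the clouds of signed constituents** -/
theorem cloud6 (s : Bool → ℝ) (L : List Part6) :
    Cloud6 s L ((offX6 L).map fun p => (p.2 : ℝ) * clo s p.1.1 p.1.2.1 p.1.2.2).sum := by
  induction L with
  | nil =>
    rw [offX6_nil, List.map_nil, List.sum_nil]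
    exact Cloud6.nil
  | cons b L ih =>
    rw [offX6_cons, List.map_append, List.sum_append, List.map_map]
    have e : ((offs b.1).map ((fun p : (Bool × ℝ × ℝ) × ℤ => (p.2 : ℝ) * clo s p.1.1 p.1.2.1 p.1.2.2) ∘
        fun p => ((b.1.1, p), b.2))).sum = b.2 * ((offs b.1).map fun p => clo s b.1.1 p.1 p.2).sum := by
      rw [← List.sum_map_mul_left]
      rfl
    rw [e]
    exact Cloud6.cons (cloud_part s b.1) ih

/-- **the interaction with the clouds, over the quanta** -/
theorem mfo6_eq (s : Bool → ℝ) (L : List Part6) :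
    mfo6 s L = ((offX6 L).map fun p => (p.2 : ℝ) * clo s p.1.1 p.1.2.1 p.1.2.2).sum :=
  (cloud6 s L).val

theorem mfo6_parts (s : Bool → ℝ) (P : Par6) (x : Xo) : mfo6 s (parts6 P x) =
    ((offS6 P x).map fun p => (p.2 : ℝ) * clo s p.1.1 p.1.2.1 p.1.2.2).sum :=
  mfo6_eq s _

section forms

variable (s : Bool → ℝ) (P : Par6) {x : Xo}

theorem mfo6_L (h : k6 x = .L) : mfo6 s (parts6 P x) = clo s (sp x) P.jL (ht x) := by
  rw [mfo6_parts, offS6_L P h]
  simp

theorem mfo6_T (h : k6 x = .T) : mfo6 s (parts6 P x) =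
    clo s (sp x) (3 / 2) (ht x) + clo s (sp x) (3 / 2 + 1) (ht x) := by
  rw [mfo6_parts, offS6_T P h]
  simp

theorem mfo6_E (h : k6 x = .E) : mfo6 s (parts6 P x) =
    clo s (sp x) (2 + P.e) (ht x) + clo s (sp x) (2 + P.e + 1) (ht x) +
      2 * clo s (!sp x) P.e (ht x) := by
  rw [mfo6_parts, offS6_E P h]
  simp
  ring

theorem mfo6_F (h : k6 x = .F) : mfo6 s (parts6 P x) =
    clo s (sp x) (2 + P.e) (ht x) + clo s (sp x) (2 + P.e + 1) (ht x) +
      2 * clo s (!sp x) P.e (ht x) - clo s (sp x) P.e (ht x) := by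
  rw [mfo6_parts, offS6_F P h]
  simp
  ring

theorem mfo6_H1 (h : k6 x = .H1) : mfo6 s (parts6 P x) = -clo s (sp x) P.j1 (ht x) := by
  rw [mfo6_parts, offS6_H1 P h]
  simp

theorem mfo6_H2 (h : k6 x = .H2) : mfo6 s (parts6 P x) = -clo s (sp x) P.j2 (ht x) := by
  rw [mfo6_parts, offS6_H2 P h]
  simp

end forms

/-! ### the logarithm over the quanta -/

theorem log_part0 (a σ ty : Bool) (j τ t : ℝ) (ht : t ≠ τ) :
    ppN [(a, false, vl l t)] [(σ, ty, vl ((1 - j) * l) τ)] ≠ 0 ∧
    Real.log (ppN [(a, false, vl l t)] [(σ, ty, vl ((1 - j) * l) τ)]) =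
      if ty = true then
        (if a = σ then NUMF.lq j (τ - t) else NUMF.lqg j (τ - t)) +
          (if a = σ then NUMF.lq (j + 1) (τ - t) else NUMF.lqg (j + 1) (τ - t))
      else if a = σ then NUMF.lq j (τ - t) else NUMF.lqg j (τ - t) := by
  have hne := sub_ne_zero.2 ht
  rw [ppN_single, List.map_singleton, List.prod_singleton, pp_false, vl_sub]
  by_cases ha : a = σ
  · simp only [if_pos ha]
    cases ty
    · rw [if_neg (by decide)]
      have := NUMF.log_q (j := j) hne
      change ‖q _‖ ≠ 0 ∧ Real.log ‖q _‖ = _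
      rw [q_bridge]
      refine ⟨norm_ne_zero_iff.2 this.1, this.2.trans ?_⟩
      rw [← lq_neg, neg_sub]
    · rw [if_pos rfl]
      have k1 := NUMF.log_q (j := j) hne
      have k2 := NUMF.log_q (j := j + 1) hne
      rw [← q_bridge] at k1 k2
      change ‖q1 _‖ ≠ 0 ∧ Real.log ‖q1 _‖ = _
      have hz := zj_l j (t - τ)
      have n0 := NUMF.zsin_ne (j := j) hne
      have n1 := NUMF.zsin_ne (j := j + 1) hne
      have n2 := NUMF.zsin_ne (j := j + 2) hne
      have n3 := NUMF.zsin_ne (j := j + -1) hne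
      have e2 := NUMF.zj_add j (t - τ) 2
      have e3 := NUMF.zj_add j (t - τ) (-1)
      rw [l_eq] at e2 e3
      rw [← hz] at n1 k2
      rw [← e2] at n2
      rw [← e3] at n3
      have hq := q1_eq n0 n1 (by
        rw [sub_eq_add_neg]
        convert n3 using 3
        push_cast
        ring) (by
        convert n2 using 3
        push_cast
        ring)
      rw [← hq, norm_mul, Real.log_mul (norm_ne_zero_iff.2 k1.1) (norm_ne_zero_iff.2 k2.1), k1.2, k2.2]
      refine ⟨mul_ne_zero (norm_ne_zero_iff.2 k1.1) (norm_ne_zero_iff.2 k2.1), ?_⟩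
      rw [← lq_neg, neg_sub, ← lq_neg (j + 1), neg_sub]
  · simp only [if_neg ha]
    cases ty
    · rw [if_neg (by decide)]
      have := NUMF.log_qg (j := j) hne
      change ‖Bd.qg _‖ ≠ 0 ∧ Real.log ‖Bd.qg _‖ = _
      rw [qg_bridge]
      refine ⟨norm_ne_zero_iff.2 this.1, this.2.trans ?_⟩
      rw [← lqg_neg, neg_sub]
    · rw [if_pos rfl]
      have k1 := NUMF.log_qg (j := j) hne
      have k2 := NUMF.log_qg (j := j + 1) hne
      rw [← qg_bridge] at k1 k2
      change ‖Bd.qg _ * Bd.qg _‖ ≠ 0 ∧ Real.log ‖Bd.qg _ * Bd.qg _‖ = _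
      rw [← zj_l] at k2
      rw [norm_mul, Real.log_mul (norm_ne_zero_iff.2 k1.1) (norm_ne_zero_iff.2 k2.1), k1.2, k2.2]
      refine ⟨mul_ne_zero (norm_ne_zero_iff.2 k1.1) (norm_ne_zero_iff.2 k2.1), ?_⟩
      rw [← lqg_neg, neg_sub, ← lqg_neg (j + 1), neg_sub]

/-- the logarithm of a quantum against a constituent -/
theorem log_part (a : Bool) (b : Bool × Bool × ℂ) (t : ℝ) (ht : t ≠ b.2.2.im) :
    ppN [(a, false, vl l t)] [b] ≠ 0 ∧ Real.log (ppN [(a, false, vl l t)] [b]) =
      ((offs b).map fun p => if a = b.1 then NUMF.lq p.1 (p.2 - t) else NUMF.lqg p.1 (p.2 - t)).sum := by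
  obtain ⟨σ, ty, w⟩ := b
  have h := log_part0 a σ ty (off w) w.im t ht
  rw [vl_off6] at h
  cases ty
  · rw [if_neg (by decide)] at h
    rw [offs_q, List.map_singleton, List.sum_singleton]
    exact h
  · rw [if_pos rfl] at h
    rw [offs_s, List.map_cons, List.map_singleton, List.sum_cons, List.sum_singleton]
    exact h

/-- **the logarithm over the quanta**, at all heights different from those of the constituents -/
theorem log_ppN6_offX (a : Bool) (L : List Part6) (t : ℝ) (ht : ∀ b ∈ L, t ≠ b.1.2.2.im) :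
    ppN6 [((a, false, vl l t), 1)] L ≠ 0 ∧ Real.log (ppN6 [((a, false, vl l t), 1)] L) =
      ((offX6 L).map fun p => (p.2 : ℝ) *
        if a = p.1.1 then NUMF.lq p.1.2.1 (p.1.2.2 - t) else NUMF.lqg p.1.2.1 (p.1.2.2 - t)).sum := by
  induction L with
  | nil => simp [ppN6_q_nil, offX6_nil]
  | cons b L ih =>
    obtain ⟨h1, h2⟩ := ih fun c hc => ht c (List.mem_cons_of_mem _ hc)
    obtain ⟨g1, g2⟩ := log_part a b.1 t (ht b List.mem_cons_self)
    rw [ppN6_q_cons]
    refine ⟨mul_ne_zero (zpow_ne_zero _ g1) h1, ?_⟩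
    rw [Real.log_mul (zpow_ne_zero _ g1) h1, Real.log_zpow, h2, g2, offX6_cons, List.map_append,
      List.sum_append, List.map_map, ← List.sum_map_mul_left]
    rfl

end PHK

end
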