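import Pool.Agent.PHK.Knd
import Pool.Agent.PHK.Pot

/-!
# Winding numbers of the six kinds

`wnu_sum6`: the sum of the winding numbers of the quanta of an object, with multiplicities, is `wind6`.
-/

set_option autoImplicit false

namespace PHK

noncomputable section

open NUO (wnu wnu_01 wnu_12 wnu_23 wnu_34)

/-- winding number of an object, by kinds -/
def wind6 : Kd6 → ℝ
  | .L => 1
  | .T => 1
  | .E => 2
  | .F => 1
  | .H1 => -1
  | .H2 => -1

/-- **winding numbers, over the quanta** -/
theorem wnu_sum6 {P : Par6} (h : Ok6 P) (K : Kd6) :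
    ((offK6 P K).map fun p => (p.2.2 : ℝ) * wnu p.2.1).sum = wind6 K ∧
    ((offK6 P K).map fun p => |(p.2.2 : ℝ)| * (1 + |wnu p.2.1|)).sum ≤ 10 := by
  obtain ⟨h1, h2, h3, h4, h5, h6⟩ := h
  have wL : wnu P.jL = 1 := wnu_23 h1 h2
  have wT : wnu (3 / 2) = 0 := wnu_12 (by norm_num) (by norm_num)
  have wT' : wnu (5 / 2) = 1 := wnu_23 (by norm_num) (by norm_num)
  have wS : wnu (2 + P.e) = 1 := wnu_23 (by linarith) (by linarith)
  have wS' : wnu (3 + P.e) = -1 := wnu_34 (by linarith) (by linarith)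
  have we : wnu P.e = 1 := wnu_01 (by linarith) (by linarith)
  have w1 : wnu P.j1 = 1 := wnu_01 h3 (by linarith)
  have w2 : wnu P.j2 = 1 := wnu_01 (by linarith) h6
  cases K <;> simp only [offK6, wind6, List.map_cons, List.map_nil, List.sum_cons, List.sum_nil, wL, wT,
    wT', wS, wS', we, w1, w2] <;> norm_num

end

end PHK
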