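import Pool.Agent.PHK.Ob6
import Pool.Agent.PHK.Act
import Pool.Agent.PHK.WK
import Pool.Agent.PHK.OneB
import Pool.Agent.NUGC.ActGen

/-!
# Particle-hole form: one body factors of the six kinds and the activity `act6`

* `pH6`: the price of a hole: `pH6 / 2 * (m P t) ≤ n * Ag j t` for `m ≤ 2 n`, `1 / 40 ≤ j < 1`;
* `cl6_mfo6`: the clouds of an object are `mfo6`;
* **`kb6_act`**: a weight with `KB6` times `exp (- 2 π wind6 h + exc + K0)` is at most `act6`, for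
  every current `h ≥ 0` with `2 π h ≤ pH6 / 4 * (m P t) + Kh`;
* **`one_act6`**: `Ob6`: `ob6 B P x * exp (mfo6 N - 2 π wind6 h + exc + K0) ≤ act6`.

Constants of `act6`: `c = 7 / 10 * (pH6 / 4)`, `c2 = 1 / 5`, growth `6` (`E`, `F`), `τ` of the string
cutoff `T1 = Tb (log m) + τ`; the power `k` is free.
-/

set_option autoImplicit false

noncomputable section

open Complex MeasureTheory Set

namespace PHK

open NUP1 NUO NUGC.PLX
open NUGC (flat_actG)

/-! ### the price of a hole -/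

/-- the price of a hole: `pH6 / 2 * (m P t) ≤ n * Ag j t` -/
def pH6 : ℝ := 3 * Real.pi / 4 * Real.sin (8 / 3 * (1 / 40 * NUMF.l))

theorem pH6_pos : 0 < pH6 := by
  have hpi := Real.pi_pos
  have hl : NUMF.l = Real.pi / 8 := rfl
  unfold pH6
  refine mul_pos (by positivity) (Real.sin_pos_of_pos_of_lt_pi ?_ ?_) <;> rw [hl] <;> (clear * - hpi; nlinarith)

theorem P_nonneg6 (t : ℝ) : 0 ≤ NUMF.P t :=
  le_trans (by positivity) (seven_tenths_le_P t)

theorem price6 {n : ℝ} {m : ℕ} (hn : (m : ℝ) ≤ 2 * n) {j : ℝ} (h1 : 1 / 40 ≤ j) (h2 : j < 1)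
    (t : ℝ) : pH6 / 2 * (m * NUMF.P t) ≤ n * NUMF.Ag j t := by
  have hP := P_nonneg6 t
  have hA := Ag_ge (j0 := 1 / 40) (by norm_num) (by norm_num) h1 h2 t
  have hp := pH6_pos
  have hm : (0 : ℝ) ≤ m := Nat.cast_nonneg m
  have hn0 : 0 ≤ n := by (clear * - hn; linarith)
  have e : pH6 * NUMF.P t ≤ NUMF.Ag j t := hA
  calc pH6 / 2 * (m * NUMF.P t) = (m : ℝ) / 2 * (pH6 * NUMF.P t) := by ring
    _ ≤ n * (pH6 * NUMF.P t) := mul_le_mul_of_nonneg_right (by linarith) (by positivity)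
    _ ≤ n * NUMF.Ag j t := mul_le_mul_of_nonneg_left e hn0

/-- the cutoff from below -/
theorem cut_inv6 {m : ℕ} (hm : 1 ≤ m) {β : ℝ} (hβ : β ≤ 4 / 3) (t : ℝ) :
    (cut m β t)⁻¹ ≤ Real.exp (8 / 3 * dT (Tb (Real.log m)) t) := by
  have hm0 : (0 : ℝ) < m := by exact_mod_cast hm
  have hd : 0 ≤ dT (Tb (Real.log m)) t := le_max_right _ _
  have hd2 : |t| - Tb (Real.log m) ≤ dT (Tb (Real.log m)) t := le_max_left _ _
  have h1 : Real.exp (-(8 / 3 * dT (Tb (Real.log m)) t)) ≤ cut m β t := by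
    unfold cut
    refine le_min (Real.exp_le_one_iff.2 (by (clear * - hd; linarith))) ?_
    have e : (m : ℝ) * Real.exp (-(2 * β) * |t|) = Real.exp (Real.log m - 2 * β * |t|) := by
      rw [sub_eq_add_neg, Real.exp_add, Real.exp_log hm0, neg_mul]
    rw [e]
    refine Real.exp_le_exp.2 ?_
    have hd3 : |t| - 3 / 8 * Real.log m ≤ dT (Tb (Real.log m)) t := hd2
    have h0 := abs_nonneg t
    clear * - hd3 hβ h0
    nlinarith
  calc (cut m β t)⁻¹ ≤ (Real.exp (-(8 / 3 * dT (Tb (Real.log m)) t)))⁻¹ :=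
        inv_anti₀ (Real.exp_pos _) h1
    _ = _ := by rw [← Real.exp_neg, neg_neg]

theorem hw6_le {n m : ℕ} (hm : 1 ≤ m) (hn : (m : ℝ) ≤ 2 * n) {β j : ℝ} (hβ : β ≤ 4 / 3)
    (h1 : 1 / 40 ≤ j) (h2 : j < 1) (t : ℝ) : hw6 n m β j t ≤
      Real.exp (-(pH6 / 2 * (m * NUMF.P t))) * Real.exp (8 / 3 * dT (Tb (Real.log m)) t) := by
  unfold hw6
  refine mul_le_mul (Real.exp_le_exp.2 (by linarith [price6 hn h1 h2 t])) (cut_inv6 hm hβ t)
    (inv_nonneg.2 (cut_nonneg _ _ _)) (Real.exp_pos _).le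

theorem supp6 {m : ℕ} (hm : 1 ≤ m) {κ : ℝ} (hκ : 0 ≤ κ) (t : ℝ) :
    Real.exp (-(κ * (m * NUMF.P t))) ≤ sup6 (7 / 10 * κ) (Real.log m) t := by
  unfold sup6
  refine Real.exp_le_exp.2 ?_
  have := mul_le_mul_of_nonneg_left (dens_ge hm t) hκ
  clear * - this
  linarith

/-- the rate of the cutoff of the strings -/
theorem rateS6 {c ρ : ℝ} (hc : 0 ≤ c) (hρ : 2 ≤ ρ) (x : ℝ) :
    Real.exp (-(c * Real.exp (ρ * x))) ≤ Real.exp c * Real.exp (-(c * Real.exp (2 * x))) := by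
  rw [← Real.exp_add]
  refine Real.exp_le_exp.2 ?_
  have h : Real.exp (2 * x) ≤ 1 + Real.exp (ρ * x) := by
    rcases le_total 0 x with h0 | h0
    · have h1 : Real.exp (2 * x) ≤ Real.exp (ρ * x) := Real.exp_le_exp.2 (by nlinarith)
      linarith
    · have h1 : Real.exp (2 * x) ≤ 1 := Real.exp_le_one_iff.2 (by linarith)
      have h2 := Real.exp_pos (ρ * x)
      linarith
  have := mul_le_mul_of_nonneg_left h hc
  linarith

theorem exc_le6 {m : ℕ} {T' t : ℝ} (hT : Tb (Real.log m) ≤ T') :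
    exc T' t ≤ 5 / 2 * dT (Tb (Real.log m)) t := by
  unfold exc dT
  refine mul_le_mul_of_nonneg_left (max_le_max (by linarith) le_rfl) (by norm_num)

/-! ### from the bounds by kinds to the activity -/

/-- a hole: weight `W ≤ B0 hw6`, any exponent `v ≤ pH6 / 4 * (m P t) + Kh` -/
theorem hole_act6 {B0 Kh K0 C : ℝ} (hB0 : 0 ≤ B0) (hC : B0 * Real.exp (Kh + K0) ≤ C) {n m : ℕ}
    (hm : 3 ≤ m) (hn : (m : ℝ) ≤ 2 * n) {β j T' t W v : ℝ} (hβ : β ≤ 4 / 3) (h1 : 1 / 40 ≤ j)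
    (h2 : j < 1) (hT : Tb (Real.log m) ≤ T') (hv : v ≤ pH6 / 4 * (m * NUMF.P t) + Kh)
    (hW : W ≤ B0 * hw6 n m β j t) (k r : ℕ) :
    W * Real.exp (v + exc T' t + K0) ≤ C * ((r : ℝ) + Real.log m) ^ k *
      sup6 (7 / 10 * (pH6 / 4)) (Real.log m) t * Real.exp (31 / 6 * dT (Tb (Real.log m)) t) := by
  have hL := log_ge_one hm
  have hm1 : 1 ≤ m := by omega
  have hp := pH6_pos
  have hd : 0 ≤ dT (Tb (Real.log m)) t := le_max_right _ _
  have q1 := hw6_le hm1 hn hβ h1 h2 t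
  have q2 := supp6 hm1 (κ := pH6 / 4) (by (clear * - hp; linarith)) t
  have q3 := exc_le6 (t := t) hT
  have hs := sup6_pos (7 / 10 * (pH6 / 4)) (Real.log m) t
  have hrL : (1 : ℝ) ≤ (r : ℝ) + Real.log m := by
    have : (0 : ℝ) ≤ r := Nat.cast_nonneg r
    clear * - hL
    linarith
  have hk : (1 : ℝ) ≤ ((r : ℝ) + Real.log m) ^ k := one_le_pow₀ hrL
  set X := m * NUMF.P t with hX
  set d := dT (Tb (Real.log m)) t with hdd
  have e1 : Real.exp (-(pH6 / 2 * X)) * Real.exp (8 / 3 * d) * Real.exp (v + exc T' t + K0) ≤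
      Real.exp (Kh + K0) * (Real.exp (-(pH6 / 4 * X)) * Real.exp (31 / 6 * d)) := by
    rw [← Real.exp_add, ← Real.exp_add, ← Real.exp_add, ← Real.exp_add]
    refine Real.exp_le_exp.2 ?_
    clear * - X d hv q3
    linarith
  have hC0 : 0 ≤ C := le_trans (by positivity) hC
  calc W * Real.exp (v + exc T' t + K0)
      ≤ (B0 * (Real.exp (-(pH6 / 2 * X)) * Real.exp (8 / 3 * d))) *
        Real.exp (v + exc T' t + K0) :=
        mul_le_mul_of_nonneg_right (hW.trans (mul_le_mul_of_nonneg_left q1 hB0)) (Real.exp_pos _).le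
    _ = B0 * (Real.exp (-(pH6 / 2 * X)) * Real.exp (8 / 3 * d) *
        Real.exp (v + exc T' t + K0)) := by ring
    _ ≤ B0 * (Real.exp (Kh + K0) * (Real.exp (-(pH6 / 4 * X)) * Real.exp (31 / 6 * d))) :=
        mul_le_mul_of_nonneg_left e1 hB0
    _ = B0 * Real.exp (Kh + K0) * (Real.exp (-(pH6 / 4 * X)) * Real.exp (31 / 6 * d)) := by ring
    _ ≤ C * (sup6 (7 / 10 * (pH6 / 4)) (Real.log m) t * Real.exp (31 / 6 * d)) := by gcongr
    _ = C * 1 * sup6 (7 / 10 * (pH6 / 4)) (Real.log m) t * Real.exp (31 / 6 * d) := by ring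
    _ ≤ _ := by (clear * - d hk hC0 hs; gcongr)

/-- **from the bounds by kinds to the activity** -/
theorem kb6_act (K0 Kh τ : ℝ) {B0 : ℝ} (hB0 : 0 < B0) : ∃ C : ℝ, 0 < C ∧ ∀ (k m : ℕ), 3 ≤ m →
    ∀ ep : ℝ, 0 < ep → ep ≤ 1 / 100 → ∀ e1 J T' : ℝ, Tb (Real.log m) / (1 - ep) ≤ T' →
    ∀ (r : ℕ) (q : Kd6) (t : ℝ) (P : Par6), GoodP6 P → ∀ (N : Bool → ℕ) (a : Bool),
      (m : ℝ) ≤ 2 * N a → ∀ W h : ℝ, 0 ≤ h → (|t| ≤ (1 - 3 * e1) * Tb (Real.log m) → J ≤ h) →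
      2 * Real.pi * h ≤ pH6 / 4 * (m * NUMF.P t) + Kh →
      KB6 B0 P N m (4 / 3 * (1 - ep)) (Tb (Real.log m) + τ) W a q t →
        W * Real.exp (-(2 * Real.pi * wind6 q * h) + exc T' t + K0) ≤
          act6 C (7 / 10 * (pH6 / 4)) (1 / 5) 6 τ k (Real.log m) ep e1 J r q t := by
  have hpi := Real.pi_pos
  have hp := pH6_pos
  obtain ⟨C, hCd⟩ : ∃ C : ℝ, C = B0 * Real.exp (1 / 5) * Real.exp (|Kh| + K0) := ⟨_, rfl⟩
  have hC0 : 0 < C := by rw [hCd]; positivity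
  have hE5 : (1 : ℝ) ≤ Real.exp (1 / 5) := Real.one_le_exp (by norm_num)
  have hEK : Real.exp K0 ≤ Real.exp (|Kh| + K0) :=
    Real.exp_le_exp.2 (by linarith [abs_nonneg Kh])
  have hEh : Real.exp (Kh + K0) ≤ Real.exp (|Kh| + K0) :=
    Real.exp_le_exp.2 (by linarith [le_abs_self Kh])
  -- the constants
  have c1 : B0 * Real.exp K0 ≤ C := by
    rw [hCd]
    calc B0 * Real.exp K0 = B0 * 1 * Real.exp K0 := by ring
      _ ≤ _ := by (clear * - hE5 hB0 hEK; gcongr)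
  have c2 : B0 * Real.exp (1 / 5) * Real.exp K0 ≤ C := by
    rw [hCd]
    gcongr
  have c3 : B0 * Real.exp (Kh + K0) ≤ C := by
    rw [hCd]
    calc B0 * Real.exp (Kh + K0) = B0 * 1 * Real.exp (Kh + K0) := by ring
      _ ≤ _ := by gcongr
  have c4 : B0 * Real.exp (1 / 5) * Real.exp (Kh + K0) ≤ C := by
    rw [hCd]
    gcongr
  refine ⟨C, hC0, fun k m hm ep hep hep1 e1 J T' hT' r q t P hP N a hN W h hh hhJ hhP hW => ?_⟩
  have hL := log_ge_one hm
  have hm1 : 1 ≤ m := by omega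
  have hTT : Tb (Real.log m) ≤ T' := by
    refine le_trans ?_ hT'
    have : 0 < Tb (Real.log m) := by
      unfold Tb
      clear * - hep hep1 hL
      linarith
    rw [le_div_iff₀ (by linarith)]
    clear * - hep this
    nlinarith
  have hβ1 : 4 / 3 * (1 - ep) ≤ 4 / 3 := by linarith
  have hd : 0 ≤ dT (Tb (Real.log m)) t := le_max_right _ _
  have j1 : 1 / 40 ≤ P.j1 := by linarith [hP.j1]
  have je : 1 / 40 ≤ P.e := by linarith [hP.j1e]
  have j2 : 1 / 40 ≤ P.j2 := by linarith [hP.ej2]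
  have l2 := hP.j2
  have le' : P.e < 1 := by linarith [hP.ej2]
  have l1 : P.j1 < 1 := by linarith [hP.j1e]
  have hs := sup6_pos (7 / 10 * (pH6 / 4)) (Real.log m) t
  have hrL : (0 : ℝ) ≤ (r : ℝ) + Real.log m := by
    have : (0 : ℝ) ≤ r := Nat.cast_nonneg r
    linarith
  -- the cutoff of the strings
  have hS : Real.exp (-(Real.exp (11 / 2 * (|t| - (Tb (Real.log m) + τ))) / 5)) ≤
      Real.exp (1 / 5) * Real.exp (-(1 / 5 * Real.exp (2 * (|t| - Tb (Real.log m) - τ)))) := by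
    have := rateS6 (c := 1 / 5) (ρ := 11 / 2) (by norm_num) (by norm_num)
      (|t| - (Tb (Real.log m) + τ))
    rw [show |t| - Tb (Real.log m) - τ = |t| - (Tb (Real.log m) + τ) by ring]
    rwa [show Real.exp (11 / 2 * (|t| - (Tb (Real.log m) + τ))) / 5 =
      1 / 5 * Real.exp (11 / 2 * (|t| - (Tb (Real.log m) + τ))) by ring]
  set G := Real.exp (-(1 / 5 * Real.exp (2 * (|t| - Tb (Real.log m) - τ)))) with hG
  have hG0 : 0 < G := Real.exp_pos _
  set d := dT (Tb (Real.log m)) t with hdd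
  have hX : Real.exp (6 * d - 1 / 5 * Real.exp (2 * (|t| - Tb (Real.log m) - τ))) =
      Real.exp (6 * d) * G := by
    rw [hG, sub_eq_add_neg, Real.exp_add]
  cases q with
  | L =>
    have hW' : W ≤ B0 * cut m (4 / 3 * (1 - ep)) t := hW
    have h4 := flat_actG (C := C) (K0 := K0) (c := 7 / 10 * (pH6 / 4)) (r := r) hB0.le c1 hm1
      (w := 1) hep1 hh hhJ le_rfl hT' hW' k
    simp only [wind6, act6]
    rwa [zero_sub] at h4
  | T =>
    have hW' : W ≤ B0 * cut m (4 / 3 * (1 - ep)) t := hW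
    have h4 := flat_actG (C := C) (K0 := K0) (c := 7 / 10 * (pH6 / 4)) (r := r) hB0.le c1 hm1
      (w := 1) hep1 hh hhJ le_rfl hT' hW' k
    simp only [wind6, act6]
    rwa [zero_sub] at h4
  | E =>
    have hW' : W ≤ B0 * cS6 m (Tb (Real.log m) + τ) t := hW
    have h2 : cut m (4 / 3) t ≤ cut m (4 / 3 * (1 - ep)) t := cut_anti m hβ1 _
    have h3 := cut_nonneg m (4 / 3 * (1 - ep)) t
    have h4 := flat_actG (C := C) (K0 := K0) (c := 7 / 10 * (pH6 / 4)) (r := r)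
      (W := B0 * Real.exp (1 / 5) * cut m (4 / 3 * (1 - ep)) t) (by positivity) c2 hm1
      (w := 2) hep1 hh hhJ (by norm_num) hT' le_rfl k
    rw [zero_sub] at h4
    simp only [wind6, act6]
    rw [hX]
    have hA := act_nonneg (C := C) (C' := 1) (c := 7 / 10 * (pH6 / 4)) (b := 1 / 10) (k := k)
      (L := Real.log m) (ep := ep) (e1 := e1) (J := J) (r := r) (t := t) hC0.le zero_le_one
      (by (clear * - hep hep1 hL; linarith))
    have hx := Real.exp_pos (-(2 * Real.pi * 2 * h) + exc T' t + K0)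
    have hE6 : (1 : ℝ) ≤ Real.exp (6 * d) := Real.one_le_exp (by positivity)
    have hWW : W ≤ B0 * Real.exp (1 / 5) * cut m (4 / 3 * (1 - ep)) t * G := by
      refine hW'.trans ?_
      unfold cS6
      calc B0 * (cut m (4 / 3) t * Real.exp (-(Real.exp (11 / 2 *
            (|t| - (Tb (Real.log m) + τ))) / 5)))
          ≤ B0 * (cut m (4 / 3 * (1 - ep)) t * (Real.exp (1 / 5) * G)) := by gcongr
        _ = _ := by ring
    calc W * Real.exp (-(2 * Real.pi * 2 * h) + exc T' t + K0)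
        ≤ B0 * Real.exp (1 / 5) * cut m (4 / 3 * (1 - ep)) t * G *
          Real.exp (-(2 * Real.pi * 2 * h) + exc T' t + K0) :=
          mul_le_mul_of_nonneg_right hWW hx.le
      _ = (B0 * Real.exp (1 / 5) * cut m (4 / 3 * (1 - ep)) t *
          Real.exp (-(2 * Real.pi * 2 * h) + exc T' t + K0)) * G := by ring
      _ ≤ act C 1 (7 / 10 * (pH6 / 4)) (1 / 10) k (Real.log m) ep e1 J r t * (1 * G) := by
          rw [one_mul]
          exact mul_le_mul_of_nonneg_right h4 hG0.le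
      _ ≤ _ := by (clear * - G d hE6 hA; gcongr)
  | F =>
    have hW' : W ≤ B0 * (cS6 m (Tb (Real.log m) + τ) t * hw6 (N a) m (4 / 3 * (1 - ep)) P.e t) := hW
    have hh6 := hw6_nonneg (N a) m (4 / 3 * (1 - ep)) P.e t
    have h3 := cut_le_one m (4 / 3) t
    have h30 := cut_nonneg m (4 / 3) t
    have hWW : W ≤ B0 * Real.exp (1 / 5) * G * hw6 (N a) m (4 / 3 * (1 - ep)) P.e t := by
      refine hW'.trans ?_
      unfold cS6
      calc B0 * (cut m (4 / 3) t * Real.exp (-(Real.exp (11 / 2 *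
            (|t| - (Tb (Real.log m) + τ))) / 5)) * hw6 (N a) m (4 / 3 * (1 - ep)) P.e t)
          ≤ B0 * (1 * (Real.exp (1 / 5) * G) * hw6 (N a) m (4 / 3 * (1 - ep)) P.e t) := by (clear * - G h3 hS hh6 hB0; gcongr)
        _ = _ := by ring
    have h5 := hole_act6 (B0 := B0 * Real.exp (1 / 5)) (Kh := Kh) (K0 := K0) (C := C)
      (by positivity) c4 hm hN hβ1 je le' hTT (t := t)
      (v := -(2 * Real.pi * 1 * h)) (by
        have : 0 ≤ 2 * Real.pi * h := by positivity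
        clear * - hhP this
        linarith) le_rfl k r
    simp only [wind6, act6]
    rw [hX]
    have hx := Real.exp_pos (-(2 * Real.pi * 1 * h) + exc T' t + K0)
    have h6 : Real.exp (31 / 6 * d) ≤ Real.exp (6 * d) := Real.exp_le_exp.2 (by (clear * - d hd; linarith))
    calc W * Real.exp (-(2 * Real.pi * 1 * h) + exc T' t + K0)
        ≤ B0 * Real.exp (1 / 5) * G * hw6 (N a) m (4 / 3 * (1 - ep)) P.e t *
          Real.exp (-(2 * Real.pi * 1 * h) + exc T' t + K0) :=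
          mul_le_mul_of_nonneg_right hWW hx.le
      _ = (B0 * Real.exp (1 / 5) * hw6 (N a) m (4 / 3 * (1 - ep)) P.e t *
          Real.exp (-(2 * Real.pi * 1 * h) + exc T' t + K0)) * G := by ring
      _ ≤ (C * ((r : ℝ) + Real.log m) ^ k * sup6 (7 / 10 * (pH6 / 4)) (Real.log m) t *
          Real.exp (31 / 6 * d)) * G := mul_le_mul_of_nonneg_right h5 hG0.le
      _ ≤ (C * ((r : ℝ) + Real.log m) ^ k * sup6 (7 / 10 * (pH6 / 4)) (Real.log m) t *
          Real.exp (6 * d)) * G := by (clear * - G d h6 hC0 hL hs; gcongr)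
      _ = _ := by ring
  | H1 =>
    have hW' : W ≤ B0 * hw6 (N a) m (4 / 3 * (1 - ep)) P.j1 t := hW
    have h5 := hole_act6 (Kh := Kh) (K0 := K0) (C := C) hB0.le c3 hm hN hβ1 j1 l1 hTT (t := t)
      (v := -(2 * Real.pi * (-1) * h)) (by (clear * - hhP; linarith)) hW' k r
    simp only [wind6, act6]
    refine h5.trans ?_
    have h6 : Real.exp (31 / 6 * d) ≤ Real.exp (11 / 2 * d) := Real.exp_le_exp.2 (by (clear * - d hd; linarith))
    gcongr
  | H2 =>
    have hW' : W ≤ B0 * hw6 (N a) m (4 / 3 * (1 - ep)) P.j2 t := hW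
    have h5 := hole_act6 (Kh := Kh) (K0 := K0) (C := C) hB0.le c3 hm hN hβ1 j2 l2 hTT (t := t)
      (v := -(2 * Real.pi * (-1) * h)) (by (clear * - hhP; linarith)) hW' k r
    simp only [wind6, act6]
    refine h5.trans ?_
    have h6 : Real.exp (31 / 6 * d) ≤ Real.exp (11 / 2 * d) := Real.exp_le_exp.2 (by (clear * - d hd; linarith))
    gcongr

/-! ### the data -/

section
attribute [local instance] NUSea.seaP

/-- the clouds of an object -/
theorem cl6_mfo6 (s : Bool → ℝ) (P : Par6) (x : Xo) : cl6 s P x = mfo6 s (parts6 P x) := by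
  have e1 : (3 : ℝ) / 2 + 1 = 5 / 2 := by norm_num
  have e2 : (2 : ℝ) + P.e + 1 = 3 + P.e := by ring
  unfold cl6
  rcases h : k6 x with _ | _ | _ | _ | _ | _
  · rw [mfo6_L s P h]
  · rw [mfo6_T s P h, e1]
  · rw [mfo6_E s P h, e2]
  · rw [mfo6_F s P h, e2]
  · rw [mfo6_H1 s P h]
  · rw [mfo6_H2 s P h]

/-- **the one body factor of an object, its clouds and the current** -/
theorem one_act6 {C : ℝ} (hC : 0 < C) (K0 Kh τ : ℝ) : ∃ A : ℝ, 0 < A ∧ ∀ (k m : ℕ), 3 ≤ m →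
    ∀ ep : ℝ, 0 < ep → ep ≤ 1 / 100 → ∀ e1 J T' : ℝ, Tb (Real.log m) / (1 - ep) ≤ T' →
    ∀ (P : Par6), GoodP6 P → ∀ (N : Bool → ℕ), (∀ a, (m : ℝ) ≤ 2 * N a) → ∀ B : OB,
      Ob6 P C N m (4 / 3 * (1 - ep)) (Tb (Real.log m) + τ) B → ∀ h : ℝ → ℝ, (∀ t, 0 ≤ h t) →
      (∀ t, |t| ≤ (1 - 3 * e1) * Tb (Real.log m) → J ≤ h t) →
      (∀ t, 2 * Real.pi * h t ≤ pH6 / 4 * (m * NUMF.P t) + Kh) → ∀ (r : ℕ) (x : Xo),
        ob6 B P x * Real.exp (mfo6 (fun b => (N b : ℝ)) (parts6 P x) -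
            2 * Real.pi * wind6 (k6 x) * h (ht x) + exc T' (ht x) + K0) ≤
          act6 A (7 / 10 * (pH6 / 4)) (1 / 5) 6 τ k (Real.log m) ep e1 J r (k6 x) (ht x) := by
  obtain ⟨B0, hB0, hK⟩ := wZ6_KB hC
  obtain ⟨A, hA, H⟩ := kb6_act K0 Kh τ hB0
  refine ⟨A, hA, fun k m hm ep hep hep1 e1 J T' hT' P hP N hN B hB h h0 hJ hh r x => ?_⟩
  have h1 := hK P hP N m (4 / 3 * (1 - ep)) (Tb (Real.log m) + τ) B (by (clear * - hep; linarith)) hB x
  have h2 := H k m hm ep hep hep1 e1 J T' hT' r (k6 x) (ht x) P hP N (sp x) (hN _) _ _ (h0 _)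
    (hJ _) (hh _) h1
  refine le_trans (le_of_eq ?_) h2
  rw [mul_assoc (ob6 B P x), ← Real.exp_add, cl6_mfo6]
  congr 2
  ring

end

end PHK

end
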