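import Pool.Agent.PLX.PB.KGeoB
import Pool.Agent.PHK.Ob6I
import Pool.Agent.PHK.OneAct6
import Pool.Agent.PHK.Leg6

/-!
# (P): the instances of (K), one body data and one body bounds for the six kinds (helper91)

* `KI.B6 y T1 β`: the one body data of an instance of (K), string cutoff `phO T1` over the rows and `± i`; its row factors
  and cutoffs of the quanta are those of `KI.B` (`rfl`): `KI.B6_R`, `KI.B6_φ`;
* `SpG G S`: the spectators are between `1 / G` and `G` on the lines of the six kinds (`Sp` of `KOk`);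
* `tauK`, `T1K m = Tb (log m) + tauK`: the string cutoff at the size `m`;
* **`ob6_KI`**: `Ob6` with a constant independent of the instance;
* **`one_KI6`**: the one body factors of all admissible instances are at most `act6` (one constant).
-/

set_option autoImplicit false
set_option linter.unusedSectionVars false

open MeasureTheory Filter Topology Set
open PLX (Fil Ends)

namespace PBK.PLX

open NUMF (l l_pos)
open NUP1 (vl)
open NUO (pA Tb TW exc Xo sp ht)
open NUGC.PLX (OB hC etaC etaC')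
open PotH.PLX (sN)
open PBO.PLX (thZ thZ_nonneg cZ cZ_pos)
open Pool.Agent.PLX (zr Ax)
open PHK

noncomputable section

attribute [local instance] NUSea.seaP

variable {n : ℕ}

/-- **the one body data of an instance, six kinds** -/
def KI.B6 (y : KI n) (T1 β : ℝ) : OB :=
  obU6 (2 * Real.cos NUP1.l) β (fun a => (y.W a).get) exI
    (fun a => phO T1 (List.ofFn (y.W a).get ++ exI a)) fun a u => thZ y.z u * y.S a u

theorem KI.B6_R (y : KI n) (T1 β : ℝ) : (y.B6 T1 β).R = (y.B β).R := rfl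

theorem KI.B6_φ (y : KI n) (T1 β : ℝ) : (y.B6 T1 β).φ = (y.B β).φ := rfl

/-- **the spectators on the lines of the six kinds** -/
def SpG (G : ℝ) (S : Bool → ℂ → ℝ) : Prop :=
  (∀ j ∈ upL par6, ∀ (a : Bool) (t : ℝ), S a (vl ((1 - j) * l) t) ≤ G) ∧
    ∀ j ∈ loL par6, ∀ (a : Bool) (t : ℝ), (S a (vl ((1 - j) * l) t))⁻¹ ≤ G

theorem SpG.one {G : ℝ} (hG : 1 ≤ G) : SpG G fun _ _ => 1 :=
  ⟨fun _ _ _ _ => hG, fun _ _ _ _ => by simpa using hG⟩

variable [Fil] [Ends] {n' : ℕ} {K δ G : ℝ} {m : ℕ} {y : KI n}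

/-- the rows of an instance -/
theorem rwU_KI (hy : KOk n' K δ (SpG G) m y) :
    RwU n' 1 0 (fun a => Fil.ne a m) fun a => List.ofFn (y.W a).get := by
  have hl := l_pos
  have e : ∀ a, List.ofFn (y.W a).get = y.W a := fun a => List.ofFn_get _
  refine ⟨fun a => ⟨y.k a, y.E a, ?_, ?_, ?_, ?_⟩, fun a x hx => ?_, fun a => ?_, Nat.zero_le _⟩
  · rw [e]
    exact List.perm_append_comm
  · have := hy.len
    cases a <;> omega
  · intro x hx
    rw [(hy.ax a x hx).1, abs_zero]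
    show 0 ≤ l / 2
    positivity
  · exact fun x hx => (hy.ax a x hx).2
  · rw [e] at hx
    rcases List.mem_append.1 hx with hx | hx
    · rw [(hy.ax a x hx).1, abs_zero]
      show 0 ≤ 499 / 1000 * l
      positivity
    · rw [List.eq_of_mem_replicate hx, Complex.zero_re, abs_zero]
      show 0 ≤ 499 / 1000 * l
      positivity
  · rw [e]
    show (y.E a ++ List.replicate (y.k a) 0).length + 0 = _
    rw [List.length_append, List.length_replicate, add_zero]
    exact hy.num a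

/-- the offsets of the lines -/
theorem up_par6 {j : ℝ} (hj : j ∈ upL par6) : 7 / 16 ≤ j ∧ j ≤ 55 / 16 := by
  unfold upL par6 at hj
  simp only [List.mem_cons, List.not_mem_nil, or_false] at hj
  rcases hj with rfl | rfl | rfl | rfl | rfl | rfl <;> norm_num

theorem lo_par6 {j : ℝ} (hj : j ∈ loL par6) : 0 ≤ j ∧ j ≤ 7 / 8 := by
  unfold loL par6 at hj
  simp only [List.mem_cons, List.not_mem_nil, or_false] at hj
  rcases hj with rfl | rfl | rfl <;> norm_num

theorem vl_reK (x t : ℝ) : (vl x t).re = x := by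
  unfold NUP1.vl
  simp

/-- the data of an instance -/
theorem in6_KI (hy : KOk n' K δ (SpG G) m y) (hm : 1 ≤ m) {β : ℝ} (hβ : 0 < β)
    (hβ' : β ≤ 4 / 3) :
    In6 n' 2 0 1 (cZ * G) (Fil.qo : ℕ) par6 (fun a => Fil.ne a m) m β (fun a => (y.W a).get) exI exI
      fun a u => thZ y.z u * y.S a u := by
  have hl := l_pos
  have hcZ := cZ_pos
  have z1 : -(9 / 10 * NUP1.l) ≤ y.z.re := by
    rw [hy.z.1]
    show -(9 / 10 * l) ≤ 0
    clear * - hl
    linarith
  have z2 : y.z.re ≤ 31 / 10 * NUP1.l := by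
    rw [hy.z.1]
    show (0 : ℝ) ≤ 31 / 10 * l
    positivity
  refine ⟨hβ, hβ', rwU_KI hy, fun a => ?_, fun a => ?_, fun a => PtL.II le_rfl le_rfl,
    fun a => PtL.II le_rfl le_rfl, fun a u => mul_nonneg (thZ_nonneg _ _) (hy.nn a u), ?_, ?_⟩
  · have := Fil.ne_le_qo a hm
    exact_mod_cast this
  · have := Fil.le_ne a m
    omega
  · intro j hj a t
    obtain ⟨j1, j2⟩ := up_par6 hj
    have h1 : thZ y.z (vl ((1 - j) * l) t) ≤ cZ := PBO.PLX.leg_up z1 z2
      (by rw [vl_reK]; show -(5 / 2 * l) ≤ (1 - j) * l; (clear * - hl j2; nlinarith))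
      (by rw [vl_reK]; show (1 - j) * l ≤ l; (clear * - hl j1; nlinarith))
    have h2 := hy.sp.1 j hj a t
    exact mul_le_mul h1 h2 (hy.nn _ _) hcZ.le
  · intro j hj a t
    obtain ⟨j1, j2⟩ := lo_par6 hj
    have h1 : (thZ y.z (vl ((1 - j) * l) t))⁻¹ ≤ cZ := PBO.PLX.leg_inv z1 z2
      (by rw [vl_reK]; show l / 8 ≤ (1 - j) * l; (clear * - hl j2; nlinarith))
      (by rw [vl_reK]; show (1 - j) * l ≤ l; (clear * - hl j1; nlinarith))
    have h2 := hy.sp.2 j hj a t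
    rw [mul_inv]
    exact mul_le_mul h1 h2 (inv_nonneg.2 (hy.nn _ _)) hcZ.le

/-- the shift of the string cutoff -/
def tauK : ℝ := tau0 1 ((Fil.qo : ℕ) + (2 : ℕ))

/-- the string cutoff at the size `m` -/
def T1K (m : ℕ) : ℝ := Tb (Real.log m) + tauK

/-- the constant of `Ob6` -/
def cK91 (n' : ℕ) (G : ℝ) : ℝ := cI6 n' 2 1 (cZ * G) (2 * Real.cos NUP1.l) (Fil.qo : ℕ)

theorem two_cosK : 0 < 2 * Real.cos NUP1.l := by
  have := Real.cos_pos_of_mem_Ioo (x := NUP1.l) ⟨by unfold NUP1.l; (clear * -; linarith [Real.pi_pos]),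
    by unfold NUP1.l; (clear * -; linarith [Real.pi_pos])⟩
  positivity

theorem one_le_qoK : (1 : ℝ) ≤ (Fil.qo : ℕ) := by
  have h1 := Fil.one_le_q
  have : 1 ≤ Fil.qo := by
    unfold Fil.qo
    omega
  exact_mod_cast this

/-- **`Ob6` for the instances** -/
theorem ob6_KI (hG : 0 ≤ G) (hy : KOk n' K δ (SpG G) m y) (hm : 1 ≤ m)
    (hm2 : 2 ^ 14 * Real.exp (8 / 3 * 1) * (3 * n' + 2 : ℕ) ≤ m) {β : ℝ} (hβ : 0 < β) (hβ' : β ≤ 4 / 3) :
    Ob6 par6 (cK91 n' G) (fun a => Fil.ne a m) m β (T1K m) (y.B6 (T1K m) β) := by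
  have hcZ := cZ_pos
  refine (in6_KI hy hm hβ hβ').ob6 par6_good (by norm_num [par6]) zero_le_one two_cosK
    one_le_qoK (by positivity) hm hm2 (le_of_eq ?_)
  unfold T1K tauK Tb
  rfl

theorem KI.B6_nn {Sp : (Bool → ℂ → ℝ) → Prop} (hy : KOk n' K δ Sp m y) (T1 β : ℝ) :
    (y.B6 T1 β).Nn :=
  obU6_nn two_cosK.le _ _ _ _ fun a u => mul_nonneg (thZ_nonneg _ _) (hy.nn a u)

/-- `CurB (1 / 100)`: the current costs at most a quarter of the price of a hole -/
theorem cur_price {η η' : ℝ → ℝ} (h : NUCR.CurB (1 / 100) η η') (m : ℕ) (t : ℝ) :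
    2 * Real.pi * (m * NUSea.P t * η t) ≤ pH6 / 4 * (m * NUMF.P t) := by
  have hpi := Real.pi_pos
  have hm : (0 : ℝ) ≤ m := Nat.cast_nonneg m
  have hP : 0 ≤ NUMF.P t := (NUMF.P_pos t).le
  have h1 := (le_abs_self _).trans (h.h1 t)
  have e : NUSea.P t = NUMF.P t := rfl
  have h2 : 2 * Real.pi * (1 / 100 * NUP1.l / 4) ≤ pH6 / 4 := by
    unfold pH6
    have h3 : NUMF.l = Real.pi / 8 := rfl
    have h4 : NUP1.l = Real.pi / 8 := rfl
    have h5 : 2 / Real.pi * (8 / 3 * (1 / 40 * NUMF.l)) ≤ Real.sin (8 / 3 * (1 / 40 * NUMF.l)) :=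
      Real.mul_le_sin (by rw [h3]; positivity) (by rw [h3]; (clear * - hpi; nlinarith))
    have h6 : 2 / Real.pi * (8 / 3 * (1 / 40 * NUMF.l)) = 1 / 60 := by
      rw [h3]
      field_simp
      norm_num
    rw [h6] at h5
    rw [h4]
    have h7 : Real.pi ≤ 3.15 := Real.pi_lt_d2.le
    clear * - hpi h5 h7
    nlinarith
  rw [e]
  calc 2 * Real.pi * (m * NUMF.P t * η t) = (2 * Real.pi * η t) * (m * NUMF.P t) := by ring
    _ ≤ pH6 / 4 * (m * NUMF.P t) := mul_le_mul_of_nonneg_right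
        ((mul_le_mul_of_nonneg_left h1 (by positivity)).trans h2) (by positivity)

/-- the end of the window -/
theorem TW_ge {ep e1 : ℝ} (hep : 0 < ep) (hep1 : ep ≤ 1 / 100) (he : 0 < e1) {m : ℕ} (hm : 1 ≤ m) :
    Tb (Real.log m) / (1 - ep) ≤ TW ep e1 m := by
  have hL : 0 ≤ Tb (Real.log m) := by
    unfold Tb
    have : (1 : ℝ) ≤ m := by exact_mod_cast hm
    have := Real.log_nonneg this
    positivity
  unfold TW
  rw [div_le_iff₀ (by (clear * - hep hep1; linarith))]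
  have h1 : 1 ≤ (1 + 2 * e1 + 2 * ep) * (1 - ep) := by (clear * - he hep hep1; nlinarith)
  calc Tb (Real.log m) = 1 * Tb (Real.log m) := (one_mul _).symm
    _ ≤ ((1 + 2 * e1 + 2 * ep) * (1 - ep)) * Tb (Real.log m) := mul_le_mul_of_nonneg_right h1 hL
    _ = _ := by ring

/-- **the one body factors of all admissible instances** -/
theorem one_KI6 (n' : ℕ) {G : ℝ} (hG : 0 ≤ G) (K0 : ℝ) : ∃ A : ℝ, 0 < A ∧ ∀ ep : ℝ, 0 < ep →
    ep ≤ 1 / 100 → ∀ e1 : ℝ, 0 < e1 → e1 ≤ 1 / 100 → ∀ J : ℝ, 0 ≤ J → ∃ m0 : ℕ, 1 ≤ m0 ∧ ∀ m ≥ m0,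
    ∀ (n : ℕ) (K δ : ℝ) (y : KI n), KOk n' K δ (SpG G) m y → ∀ (k r : ℕ) (x : Xo),
      ob6 (y.B6 (T1K m) (4 / 3 * (1 - ep))) par6 x *
        Real.exp (mfo6 (sN m) (parts6 par6 x) -
          2 * Real.pi * wind6 (k6 x) * (m * NUSea.P (ht x) * etaC e1 J m m (ht x)) +
            exc (TW ep e1 m) (ht x) + K0) ≤
      act6 A (7 / 10 * (pH6 / 4)) (1 / 5) 6 tauK k (Real.log m) ep e1 J r (k6 x) (ht x) := by
  have hcZ := cZ_pos
  have hc : 0 < cK91 n' G := by
    have hh : (0 : ℝ) ≤ (Fil.qo : ℕ) + (2 : ℕ) := by positivity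
    have h1 := one_le_qoK
    have h2 := PHK.cL_ge (h0 := 1) hh
    have h3 : 0 ≤ cOR (3 * n' + 2) 1 (cZ * G) (2 * Real.cos NUP1.l) ((Fil.qo : ℕ) + (2 : ℕ)) := by
      unfold cOR
      have a1 := two_cosK
      have a2 := PBO.PLX.cRh_pos 1
      have a3 := PBO.PLX.cR_pos
      have a4 := one_le_cPw (3 * n' + 2) 1
      clear * - a1 a2 a3 hcZ hG a4 h1
      positivity
    have h4 := Real.exp_pos 2
    have h5 := Real.exp_pos 3
    unfold cK91 cI6
    positivity
  obtain ⟨A, hA, H⟩ := one_act6 hc K0 0 tauK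
  refine ⟨A, hA, fun ep hep hep1 e1 he he1 J hJ => ?_⟩
  obtain ⟨m1, hm1, hcur⟩ := NUGC.PLX.curOKC he he1 hJ (ep := 1 / 100) (by norm_num)
  obtain ⟨m2, hm2⟩ := exists_nat_ge (2 ^ 14 * Real.exp (8 / 3 * 1) * (3 * n' + 2 : ℕ))
  obtain ⟨m3, hm3⟩ := exists_nat_ge (Real.exp (20 * (8 / 3)))
  refine ⟨max (max m1 m2) (max m3 3), hm1.trans ((le_max_left _ _).trans (le_max_left _ _)),
    fun m hm n K δ y hy k r x => ?_⟩
  simp only [ge_iff_le, max_le_iff] at hm
  obtain ⟨⟨k1, k2⟩, k3, k4⟩ := hm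
  have hm' : 1 ≤ m := by omega
  have hmr : (0 : ℝ) < m := by exact_mod_cast hm'
  have hT : 20 ≤ Tb (Real.log m) := by
    unfold Tb
    have h1 : Real.exp (20 * (8 / 3)) ≤ m := hm3.trans (by exact_mod_cast k3)
    have h2 := (Real.le_log_iff_exp_le hmr).2 h1
    clear * - h2
    linarith
  have hO := ob6_KI hG hy hm' (hm2.trans (by exact_mod_cast k2)) (β := 4 / 3 * (1 - ep))
    (by (clear * - hep hep1; linarith)) (by (clear * - hep; linarith))
  have hcu : ∀ t, (m : ℝ) * NUSea.P t * etaC e1 J m m t = hC e1 J m t :=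
    NUGC.PLX.mul_etaC hmr
  refine H k m k4 ep hep hep1 e1 J (TW ep e1 m) (TW_ge hep hep1 he hm') par6 par6_good
    (fun a => Fil.ne a m) (fun a => ?_) _ hO (fun t => (m : ℝ) * NUSea.P t * etaC e1 J m m t)
    (fun t => ?_) (fun t ht => ?_) (fun t => ?_) r x
  · have h1 := Fil.le_ne a m
    have h2 : (m : ℝ) ≤ Fil.ne a m := by exact_mod_cast h1
    linarith
  · rw [hcu]
    exact NUGC.PLX.hC_nonneg he1 hJ hT t
  · rw [hcu]
    refine NUGC.PLX.hC_ge he he1 hT (ht.trans ?_)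
    clear * - hep he hep1 hT
    nlinarith
  · have := cur_price (hcur m k1 m (by linarith)) m t
    linarith

end

end PBK.PLX
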