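import Pool.Agent.PHK.BsR6
import Pool.Agent.PHK.Ob6I
import Pool.Agent.PHK.OneR0
import Pool.Agent.PHK.FamL6
import Pool.Agent.PHK.KOne6
import Pool.Agent.PLX.PB.OwnLe0
import Pool.Agent.PLX.EM2

/-!
# (P): the geometry at rows `0`, ends `0`

Sea `NUSea.seaP`, `PLX.ends1`.

* `F0K k`: the cutoff of the strings at the size `k` (`k - 1`, `q (k - 1)` rows at `0`, end of the window
  `T1L k`); `F00_gO`;
* `G06 ex F0`: one body data `ob06 (k - 1) β ex (F0 k)`, exponent `oneEH6` of the curve `etaC`, bulk exponent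
  `MF (sN k)`, mean field values `MFo`, `MFx`; `G06_nn`, `G06_one`, `G06_MF`, **`G06_bs6`**: the base;
* **`ob6_0`**: the one body data `(ob06 (k - 1) β ex (F0K k)).mul g` on the lines of the objects, `SpG Gc g`;
* **`oneRT6_0`**, `oneR6_0`: the one body bounds of the objects for every geometry with these data;
  **`oneR_G06`**, **`oneRT_G06`**.
-/

set_option autoImplicit false
set_option linter.unusedSectionVars false

noncomputable section

open Complex MeasureTheory Set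
open PLX (Fil Ends)

namespace PBR.PLX

open PHK
open NUP1 NUGC.PLX PBX.PLX
open NUO (Xo Tb TW ht)
open NURow (XB)
open PBX (Th0 Th0_nonneg)
open PBO.PLX (Geo OneR6 s1 s1_pos sin_up sin_dn cR cR_pos)
open PBI.PLX (OneRT6)
open PotH.PLX (sN oneEH6)
open PBU.PLX (T1L tauF)
open PBK.PLX (SpG)
open PB0.PLX (mfs MFo MFx MFk)
open _root_.Pool.Agent.PLX (rwq)

attribute [local instance] NUSea.seaP PLX.ends1

variable [Fil]

/-! ### the cutoff of the strings -/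

/-- **the cutoff of the strings** at the size `k` -/
def F0K (k : ℕ) (a : Bool) : ℂ → ℂ :=
  phO (T1L k) (List.ofFn (rwq (fun _ : Fin (k - 1) => (0 : ℂ)) a) ++ [])

theorem F00_gO (k : ℕ) : F00 (k - 1) (gO (T1L k) [] (rwq (fun _ : Fin (k - 1) => (0 : ℂ)) true))
    (gO (T1L k) [] (rwq (fun _ : Fin (k - 1) => (0 : ℂ)) false)) = F0K k := by
  funext a
  cases a
  · exact ph_gO_fun _ _ _
  · have e : F00 (k - 1) (gO (T1L k) [] (rwq (fun _ : Fin (k - 1) => (0 : ℂ)) true))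
        (gO (T1L k) [] (rwq (fun _ : Fin (k - 1) => (0 : ℂ)) false)) true =
        PBX.ph (4 / 3) (fun _ : Fin (k - 1) => (0 : ℂ))
          (gO (T1L k) [] (rwq (fun _ : Fin (k - 1) => (0 : ℂ)) true)) := by
      show PBX.ph (4 / 3) (fun _ : Fin (1 * (k - 1)) => (0 : ℂ)) _ = _
      rw [one_mul]
      rfl
    rw [e]
    exact ph_gO_fun _ _ _

/-! ### the geometry -/

/-- **the geometry at rows `0`, ends `0`** -/
def G06 (ex : List ℂ) (F0 : ℕ → Bool → ℂ → ℂ) : Geo where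
  B k β := ob06 (k - 1) β ex (F0 k)
  one k ep e1 J _ O i := oneEH6 k (etaC e1 J k k) (TW ep e1 k) O i
  EM k := NUSea.PLX.MF (sN k)
  MF k a c w := mfs (sN k) MFo MFx a c w

variable {ex : List ℂ} {F0 : ℕ → Bool → ℂ → ℂ}

theorem G06_B (k : ℕ) (β : ℝ) : (G06 ex F0).B k β = ob06 (k - 1) β ex (F0 k) := rfl

theorem G06_nn (k : ℕ) (β : ℝ) : ((G06 ex F0).B k β).Nn := ob06_nn _ _ _ _

theorem G06_one (k : ℕ) (ep e1 J : ℝ) {r : ℕ} (O : Fin r → Xo) (i : Fin r) :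
    (G06 ex F0).one k ep e1 J r O i = oneEH6 k (etaC e1 J k k) (TW ep e1 k) O i := rfl

theorem G06_EM (k : ℕ) : (G06 ex F0).EM k = _root_.PLX.EMs (sN k) :=
  _root_.PLX.EMs_eq _

theorem G06_MF (k : ℕ) (a : Bool) (c : NUSp.Cl) (w : ℂ) : (G06 ex F0).MF k a c w = MFk k a c w := by
  show mfs (sN k) MFo MFx a c w = mfs (fun a => (Fil.nn a k : ℝ)) MFo MFx a c w
  have e : sN k = fun a => (Fil.nn a k : ℝ) := by
    funext a
    cases a <;> rfl
  rw [e]

/-- **the base at rows `0`, ends `0`** -/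
theorem G06_bs6 {k : ℕ} (hk : 2 ≤ k) {β : ℝ} (hβ : 0 < β) (hβ' : β ≤ 4 / 3) {g0 g0' : ℂ → ℂ}
    (hg : Measurable g0) (hg' : Measurable g0') (hex : ∀ w ∈ ex, |w.re| ≤ l / 2)
    (hF : F0 k = F00 (k - 1) g0 g0') {P : Par6} {ep : ℝ} (hep0 : 0 < ep) (hep : ep ≤ 1 / 100) :
    Bs6 (XB (R06 (k - 1) β ex g0 g0').X (R06 (k - 1) β ex g0 g0').Y)
      (fun g => ((G06 ex F0).B k β).mul g) P ep (2 * β) (Fil.xe k) {0} := by
  have h := bs6_R0 (P := P) (show 1 ≤ k - 1 by omega) hβ hβ' hg hg' hex hep0 hep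
  refine h.congr (fun _ _ _ => rfl) fun g => ?_
  rw [G06_B, hF]

/-! ### the factor of the ends on the lines of the objects -/

/-- one row and the ends at `0` on the lines above -/
theorem rwTh_up {u : ℂ} (h1 : -(5 / 2 * l) ≤ u.re) (h2 : u.re ≤ l) : rw1 u * Th0 u ≤ cR := by
  have hl := l_pos
  have hs := s1_pos
  have hc := Real.cosh_pos u.im
  have a1 := sin_up (u + 3 * l)
  have a2 := sin_dn (z := u - 2 * l)
    (by rw [abs_of_nonpos (by simp; linarith)]; simp; linarith)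
    (by rw [abs_of_nonpos (by simp; linarith)]; simp; linarith)
  have i1 : (u - 2 * l).im = u.im := by simp
  have i2 : (u + 3 * l).im = u.im := by simp
  rw [i1] at a2
  rw [i2] at a1
  have hd : 0 < ‖Complex.sin (u - 2 * l)‖ := lt_of_lt_of_le (by positivity) a2
  have e2 : cR = Real.cosh u.im ^ 2 / (s1 * Real.cosh u.im) ^ 2 := by
    unfold PBO.PLX.cR
    field_simp
  by_cases hu : Complex.sin u = 0
  · have h0 : rw1 u = 0 := by
      unfold rw1
      rw [hu, norm_zero, zero_mul, div_zero]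
    rw [h0, zero_mul]
    exact cR_pos.le
  · have hu0 : 0 < ‖Complex.sin u‖ := norm_pos_iff.2 hu
    have e : rw1 u * Th0 u = ‖Complex.sin (u + 3 * l)‖ ^ 2 / ‖Complex.sin (u - 2 * l)‖ ^ 2 := by
      unfold rw1 PBX.Th0
      field_simp
    rw [e, e2]
    gcongr

/-- one row and the ends at `0` on the lines of the holes -/
theorem rwTh_lo {u : ℂ} (h1 : l / 8 ≤ u.re) (h2 : u.re ≤ l) : (rw1 u * Th0 u)⁻¹ ≤ cR := by
  have hl := l_pos
  have hs := s1_pos
  have hc := Real.cosh_pos u.im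
  have a1 := sin_up (u - 2 * l)
  have a2 := sin_dn (z := u + 3 * l)
    (by rw [abs_of_nonneg (by simp; linarith)]; simp; linarith)
    (by rw [abs_of_nonneg (by simp; linarith)]; simp; linarith)
  have a3 := sin_dn (z := u)
    (by rw [abs_of_nonneg (by linarith)]; linarith)
    (by rw [abs_of_nonneg (by linarith)]; linarith)
  have i1 : (u - 2 * l).im = u.im := by simp
  have i2 : (u + 3 * l).im = u.im := by simp
  rw [i1] at a1
  rw [i2] at a2
  have hd : 0 < ‖Complex.sin (u + 3 * l)‖ := lt_of_lt_of_le (by positivity) a2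
  have hu0 : 0 < ‖Complex.sin u‖ := lt_of_lt_of_le (by positivity) a3
  have e2 : cR = Real.cosh u.im ^ 2 / (s1 * Real.cosh u.im) ^ 2 := by
    unfold PBO.PLX.cR
    field_simp
  have e : (rw1 u * Th0 u)⁻¹ = ‖Complex.sin (u - 2 * l)‖ ^ 2 / ‖Complex.sin (u + 3 * l)‖ ^ 2 := by
    unfold rw1 PBX.Th0
    rw [← one_div]
    by_cases hv : ‖Complex.sin (u - 2 * l)‖ = 0
    · rw [hv]
      simp
    · field_simp
  rw [e, e2]
  gcongr

/-! ### the one body data on the lines of the objects -/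

theorem ob06_mul (m : ℕ) (β : ℝ) (ex : List ℂ) (F : Bool → ℂ → ℂ) (g : Bool → ℂ → ℝ) :
    (ob06 m β ex F).mul g = obX6 (2 * Real.cos l) β (fun _ : Fin m => (0 : ℂ)) (fun _ => ex) F
      fun a u => rw1 u * Th0 u * g a u := by
  have eL : ∀ a : Bool, List.ofFn (rwq (fun _ : Fin m => (0 : ℂ)) a) =
      List.replicate (Fil.n a * m) 0 := by
    intro a
    cases a
    · exact List.ofFn_const _ 0
    · show List.ofFn (fun _ : Fin m => (0 : ℂ)) = List.replicate (1 * m) 0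
      rw [one_mul]
      exact List.ofFn_const m 0
  unfold NUGC.PLX.OB.mul ob06 obX6
  simp only [eL, Finset.prod_const, Finset.card_univ, Fintype.card_fin]
  congr 1
  funext a u
  ring

/-- the rows at `0`, the ends as one missing row -/
theorem in6_0 {k : ℕ} (hk : 1 ≤ k) {β : ℝ} (hβ : 0 < β) (hβ' : β ≤ 4 / 3) (hex : PtL 2 2 ex)
    {Gc : ℝ} {g : Bool → ℂ → ℝ} (hg0 : ∀ a u, 0 ≤ g a u) (hg : SpG Gc g) :
    In6 1 2 1 2 (cR * Gc) (Fil.qo : ℕ) par6 (fun a => Fil.ne a k) k β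
      (rwq (fun _ : Fin (k - 1) => (0 : ℂ))) (fun _ => ex) (fun _ => [])
      fun a u => rw1 u * Th0 u * g a u where
  β0 := hβ
  β1 := hβ'
  rows := by
    have hl := l_pos
    have eL : ∀ a : Bool, List.ofFn (rwq (fun _ : Fin (k - 1) => (0 : ℂ)) a) =
        List.replicate (Fil.n a * (k - 1)) 0 := by
      intro a
      cases a
      · exact List.ofFn_const _ 0
      · show List.ofFn (fun _ : Fin (k - 1) => (0 : ℂ)) = List.replicate (1 * (k - 1)) 0
        rw [one_mul]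
        exact List.ofFn_const (k - 1) 0
    refine ⟨fun a => ⟨Fil.n a * (k - 1), [], ?_, by simp, by simp, by simp⟩, fun a x hx => ?_,
      fun a => ?_, le_rfl⟩
    · rw [eL, List.append_nil]
    · rw [eL] at hx
      rw [List.eq_of_mem_replicate hx, zero_re, abs_zero]
      positivity
    · rw [eL, List.length_replicate]
      cases a <;> rfl
  num a := Fil.ner_le_qo a hk
  mN a := (Fil.le_ne a _).trans (Nat.le_add_right _ _)
  w1 _ := hex
  w2 _ := PtL.nil _ _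
  gp a u := mul_nonneg (mul_nonneg (rw1_nonneg u) (Th0_nonneg u)) (hg0 a u)
  gu j hj a t := by
    have hl := l_pos
    obtain ⟨j1, j2⟩ := PBK.PLX.up_par6 hj
    have hr := PBK.PLX.vl_reK ((1 - j) * l) t
    have h1 : rw1 (vl ((1 - j) * l) t) * Th0 (vl ((1 - j) * l) t) ≤ cR :=
      rwTh_up (by rw [hr]; nlinarith) (by rw [hr]; nlinarith)
    exact mul_le_mul h1 (hg.1 j hj a t) (hg0 _ _) cR_pos.le
  gl j hj a t := by
    have hl := l_pos
    obtain ⟨j1, j2⟩ := PBK.PLX.lo_par6 hj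
    have hr := PBK.PLX.vl_reK ((1 - j) * l) t
    have h1 : (rw1 (vl ((1 - j) * l) t) * Th0 (vl ((1 - j) * l) t))⁻¹ ≤ cR :=
      rwTh_lo (by rw [hr]; nlinarith) (by rw [hr]; nlinarith)
    rw [mul_inv]
    exact mul_le_mul h1 (hg.2 j hj a t) (inv_nonneg.2 (hg0 _ _)) cR_pos.le

/-- the constant of the one body data -/
def c06 (Gc : ℝ) : ℝ := cI6 1 2 2 (cR * Gc) (2 * Real.cos l) (Fil.qo : ℕ)

theorem c06_pos {Gc : ℝ} (hG : 0 ≤ Gc) : 0 < c06 Gc := by
  have hh : (0 : ℝ) ≤ (Fil.qo : ℕ) + (2 : ℕ) := by positivity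
  have h1 := PBK.PLX.one_le_qoK
  have h2 := PHK.cL_ge (h0 := 2) hh
  have h3 : 0 ≤ cOR (3 * 1 + 2) 2 (cR * Gc) (2 * Real.cos l) ((Fil.qo : ℕ) + (2 : ℕ)) := by
    unfold cOR
    have a1 := PBK.PLX.two_cosK
    have a2 := PBO.PLX.cRh_pos 2
    have a3 := PBO.PLX.cR_pos
    have a4 := one_le_cPw (3 * 1 + 2) 2
    positivity
  have h4 := Real.exp_pos 2
  have h5 := Real.exp_pos 3
  unfold c06 cI6
  positivity

/-- **the one body data at rows `0` on the lines of the objects** -/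
theorem ob6_0 {k : ℕ} (hk : 1 ≤ k) (hk2 : 2 ^ 14 * Real.exp (8 / 3 * 2) * (3 * 1 + 2 : ℕ) ≤ k) {β : ℝ}
    (hβ : 0 < β) (hβ' : β ≤ 4 / 3) (hex : PtL 2 2 ex) {Gc : ℝ} (hG : 0 ≤ Gc) {g : Bool → ℂ → ℝ}
    (hg0 : ∀ a u, 0 ≤ g a u) (hg : SpG Gc g) :
    Ob6 par6 (c06 Gc) (fun a => Fil.ne a k) k β (Tb (Real.log k) + tauF)
      ((ob06 (k - 1) β ex (F0K k)).mul g) := by
  have hcR := cR_pos
  rw [ob06_mul]
  exact (in6_0 hk hβ hβ' hex hg0 hg).ob6X par6_good (by norm_num [par6]) zero_le_two PBK.PLX.two_cosK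
    PBK.PLX.one_le_qoK (by positivity) hk hk2 (le_of_eq rfl)

/-- **the one body bounds with the gain of the tent**, rows `0`, ends `0`, factor `g m` -/
theorem oneRT6_0 {G : Geo} (hex : PtL 2 2 ex) {Gc : ℝ} (hG : 0 ≤ Gc) {g : ℕ → Bool → ℂ → ℝ}
    (hg0 : ∀ m a u, 0 ≤ g m a u) (hg : ∀ m, SpG Gc (g m))
    (hB : ∀ m : ℕ, 1 ≤ m → ∀ β : ℝ, G.B m β = (ob06 (m - 1) β ex (F0K m)).mul (g m)) {Kc : ℝ}
    (h1 : ∀ (m : ℕ) (ep e1 J : ℝ), 1 ≤ m → 0 < ep → 0 < e1 → 0 ≤ J →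
      ∀ (r : ℕ) (O : Fin r → Xo) (i : Fin r), G.one m ep e1 J r O i ≤
        oneEH6 m (etaC e1 J m m) (TW ep e1 m) O i + Kc) : OneRT6 G := by
  refine PBI.PLX.oneRT6_seaP (c06_pos hG) tauF (fun ep hep hep1 => ?_) h1
  obtain ⟨m1, hm1⟩ := exists_nat_ge (2 ^ 14 * Real.exp (8 / 3 * 2) * (3 * 1 + 2 : ℕ))
  refine ⟨max m1 1, fun m hm => ?_⟩
  rw [hB m ((le_max_right _ _).trans hm)]
  exact ob6_0 ((le_max_right _ _).trans hm) (hm1.trans (by exact_mod_cast (le_max_left _ _).trans hm))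
    (by linarith) (by linarith) hex hG (hg0 m) (hg m)

theorem oneR6_0 {G : Geo} (hex : PtL 2 2 ex) {Gc : ℝ} (hG : 0 ≤ Gc) {g : ℕ → Bool → ℂ → ℝ}
    (hg0 : ∀ m a u, 0 ≤ g m a u) (hg : ∀ m, SpG Gc (g m))
    (hB : ∀ m : ℕ, 1 ≤ m → ∀ β : ℝ, G.B m β = (ob06 (m - 1) β ex (F0K m)).mul (g m)) {Kc : ℝ}
    (h1 : ∀ (m : ℕ) (ep e1 J : ℝ), 1 ≤ m → 0 < ep → 0 < e1 → 0 ≤ J →
      ∀ (r : ℕ) (O : Fin r → Xo) (i : Fin r), G.one m ep e1 J r O i ≤
        oneEH6 m (etaC e1 J m m) (TW ep e1 m) O i + Kc) : OneR6 G :=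
  (oneRT6_0 hex hG hg0 hg hB h1).oneR6

/-- **the one body bounds of the geometry at rows `0`** with the gain of the tent -/
theorem oneRT_G06 (hex : PtL 2 2 ex) (hF : ∀ k : ℕ, 1 ≤ k → F0 k = F0K k) : OneRT6 (G06 ex F0) :=
  oneRT6_0 (g := fun _ _ _ => 1) hex zero_le_one (fun _ _ _ => zero_le_one)
    (fun _ => PBK.PLX.SpG.one le_rfl) (fun m hm β => by
      rw [G06_B, hF m hm]
      unfold NUGC.PLX.OB.mul ob06
      simp only [mul_one]) (Kc := 0) fun m ep e1 J _ _ _ _ r O i => by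
        rw [G06_one, add_zero]

/-- **the one body bounds of the geometry at rows `0`** -/
theorem oneR_G06 (hex : PtL 2 2 ex) (hF : ∀ k : ℕ, 1 ≤ k → F0 k = F0K k) : OneR6 (G06 ex F0) :=
  (oneRT_G06 hex hF).oneR6

end PBR.PLX

end
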