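import Pool.Agent.NUO.PosConv

/-!
# The logarithmic kernels of the certificate (helper38)

`gk a b k = (1/k) (cosh ((4 - a) y) - cosh ((4 - b) y)) / sinh (4 y)`, `y = yk k = π k / 8`,
`0 ≤ a < b ≤ 4`; `ck s k = (1/k) tanh (2 y / 2 ^ s)`, the core of scale `2 ^ s`.

* `int_gk`: the inverse cosine transform of `gk a b` (`0 < a`) is
  `(log (cosh (2 x) - cos (b π / 4)) - log (cosh (2 x) - cos (a π / 4))) / 2`;
* `pk_gk` (`0 < a`), `mk_gk`, `pk_gkA` (`gk a b / (2 cosh y - 1)`, `a = 0` allowed),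
  `pk_g0` (`gk 0 b - ck s`, as soon as `1 ≤ 2 ^ s sin (b π / 8)`): positivity;
* `gk_low`: strict positivity for `|x| ≤ 1`;
* `NL L D`: sums of such kernels, `PK_NL`, `NL_low`.
-/

set_option autoImplicit false

open MeasureTheory Set Filter Topology

noncomputable section

namespace PHK

open NUMF NUPosK NUO

/-! ### definitions -/

/-- the logarithmic kernel -/
def gk (a b k : ℝ) : ℝ :=
  1 / k * (Real.cosh ((4 - a) * yk k) - Real.cosh ((4 - b) * yk k)) / Real.sinh (4 * yk k)

/-- the core of scale `2 ^ s` -/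
def ck (s : ℕ) (k : ℝ) : ℝ := 1 / k * Real.tanh (2 * yk k / 2 ^ s)

/-- the denominator `2 cosh y - 1` -/
def aA (k : ℝ) : ℝ := 2 * Real.cosh (yk k) - 1

lemma aA_pos (k : ℝ) : 0 < aA k := by
  have := Real.one_le_cosh (yk k)
  unfold aA
  linarith

lemma gk_add (a b c k : ℝ) : gk a b k + gk b c k = gk a c k := by
  unfold gk
  rw [← add_div]
  ring_nf

/-! ### positivity -/

theorem pk_gk {a b : ℝ} (ha : 0 < a) (hab : a < b) (hb : b ≤ 4) : PK (gk a b) :=
  (pk_log (N := 4) (a := 4 - b) (b := 4 - a) (by linarith) (by linarith) (by linarith)).congr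
    fun _ _ => rfl

theorem mk_gk {a b : ℝ} (ha : 0 ≤ a) (hab : a < b) (hb : b ≤ 4) : MK (gk a b) :=
  (mk_log (N := 4) (a := 4 - b) (b := 4 - a) (by linarith) (by linarith) (by linarith)).congr
    fun _ _ => rfl

/-- the multiplier `1 / (2 cosh y - 1)` -/
theorem mk_aA : MK fun k => 1 / aA k := by
  refine (mk_cc (N := 3 / 2) (a := 1 / 2) (by norm_num) (by norm_num)).congr fun k _ => ?_
  have h1 : Real.cosh (3 / 2 * yk k) = Real.cosh (1 / 2 * yk k) * aA k := by
    unfold aA
    have h2 : Real.cosh (yk k) = 2 * Real.cosh (1 / 2 * yk k) ^ 2 - 1 := by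
      rw [show yk k = 2 * (1 / 2 * yk k) by ring, Real.cosh_two_mul (1 / 2 * yk k), Real.sinh_sq,
        show 2 * (1 / 2 * yk k) = yk k by ring]
      ring
    rw [show (3 / 2 : ℝ) * yk k = 3 * (1 / 2 * yk k) by ring, Real.cosh_three_mul, h2]
    ring
  rw [h1]
  have h2 := Real.cosh_pos (1 / 2 * yk k)
  have h3 := aA_pos k
  field_simp

lemma cosh_le_exp' {x : ℝ} (hx : 0 ≤ x) : Real.cosh x ≤ Real.exp x := by
  rw [Real.cosh_eq]
  have : Real.exp (-x) ≤ Real.exp x := Real.exp_le_exp.2 (by linarith)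
  linarith

lemma sinh_le_mul_cosh {x : ℝ} (hx : 0 ≤ x) : Real.sinh x ≤ x * Real.cosh x := by
  have h : ∀ x ∈ Ici (0:ℝ), Real.sinh x - x * Real.cosh x ≤ 0 := by
    have hd : ∀ x : ℝ, HasDerivAt (fun x => Real.sinh x - x * Real.cosh x)
        (Real.cosh x - (1 * Real.cosh x + x * Real.sinh x)) x := fun x =>
      (Real.hasDerivAt_sinh x).sub ((hasDerivAt_id x).mul (Real.hasDerivAt_cosh x))
    have hanti : AntitoneOn (fun x => Real.sinh x - x * Real.cosh x) (Ici 0) := by
      refine antitoneOn_of_deriv_nonpos (convex_Ici 0) ?_ ?_ ?_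
      · exact fun x _ => (hd x).continuousAt.continuousWithinAt
      · exact fun x _ => (hd x).differentiableAt.differentiableWithinAt
      · intro x hx
        rw [interior_Ici] at hx
        rw [(hd x).deriv]
        have h1 : 0 < Real.sinh x := Real.sinh_pos_iff.2 hx
        have h2 : 0 < x := hx
        nlinarith
    intro x hx
    have := hanti self_mem_Ici hx hx
    simpa using this
  have := h x hx
  linarith

/-- near the core: `gk 0 b ≤ (π / 8) b cosh (b y / 2)` -/
lemma gk0_le {b k : ℝ} (hb0 : 0 < b) (hb : b ≤ 4) (hk : 0 < k) :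
    0 ≤ gk 0 b k ∧ gk 0 b k ≤ Real.pi / 8 * b * Real.exp (b / 2 * yk k) := by
  have hy := yk_pos hk
  have hpi := Real.pi_pos
  have hs : 0 < Real.sinh (4 * yk k) := Real.sinh_pos_iff.2 (by positivity)
  have e : Real.cosh ((4 - 0) * yk k) - Real.cosh ((4 - b) * yk k) =
      2 * Real.sinh ((4 - b / 2) * yk k) * Real.sinh (b / 2 * yk k) := by
    have q1 : (4 - 0) * yk k = (4 - b / 2) * yk k + b / 2 * yk k := by ring
    have q2 : (4 - b) * yk k = (4 - b / 2) * yk k - b / 2 * yk k := by ring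
    rw [q1, q2, Real.cosh_add, Real.cosh_sub]
    ring
  have s1 : 0 ≤ Real.sinh ((4 - b / 2) * yk k) := Real.sinh_nonneg_iff.2 (by nlinarith)
  have s2 : 0 ≤ Real.sinh (b / 2 * yk k) := Real.sinh_nonneg_iff.2 (by positivity)
  have s3 : Real.sinh ((4 - b / 2) * yk k) ≤ Real.sinh (4 * yk k) :=
    Real.sinh_le_sinh.2 (by nlinarith)
  unfold gk
  rw [e]
  refine ⟨by positivity, ?_⟩
  have h1 : Real.sinh (b / 2 * yk k) ≤ b / 2 * yk k * Real.exp (b / 2 * yk k) :=
    (sinh_le_mul_cosh (by positivity)).trans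
      (mul_le_mul_of_nonneg_left (cosh_le_exp' (by positivity)) (by positivity))
  calc 1 / k * (2 * Real.sinh ((4 - b / 2) * yk k) * Real.sinh (b / 2 * yk k)) / Real.sinh (4 * yk k)
      = 2 / k * Real.sinh (b / 2 * yk k) * (Real.sinh ((4 - b / 2) * yk k) / Real.sinh (4 * yk k)) := by
        ring
    _ ≤ 2 / k * Real.sinh (b / 2 * yk k) * 1 := by
        refine mul_le_mul_of_nonneg_left ?_ (by positivity)
        rw [div_le_one hs]
        exact s3
    _ ≤ 2 / k * (b / 2 * yk k * Real.exp (b / 2 * yk k)) * 1 := by gcongr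
    _ = Real.pi / 8 * b * Real.exp (b / 2 * yk k) := by
        unfold yk
        field_simp

lemma gk_meas (a b : ℝ) : Measurable (gk a b) := by
  unfold gk yk
  fun_prop

lemma aA_meas : Measurable aA := by
  unfold aA yk
  fun_prop

lemma aA_ge (k : ℝ) : Real.exp (yk k) / 2 ≤ aA k := by
  have h1 := Real.one_le_cosh (yk k)
  have h2 := Real.cosh_eq (yk k)
  have h3 := Real.exp_pos (-yk k)
  unfold aA
  linarith

lemma exp_yk_int {c : ℝ} (hc : 0 < c) : IntegrableOn (fun k => Real.exp (-(c * yk k))) (Ioi 0) := by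
  have hpi := Real.pi_pos
  have h := integrableOn_exp_mul_Ioi (a := -(c * (Real.pi / 8))) (by
    have : 0 < c * (Real.pi / 8) := by positivity
    linarith) 0
  refine h.congr_fun (fun k _ => ?_) measurableSet_Ioi
  show Real.exp (-(c * (Real.pi / 8)) * k) = Real.exp (-(c * yk k))
  congr 1
  unfold yk
  ring

lemma int_gkA0 {b : ℝ} (hb0 : 0 < b) (hb : b ≤ 1) :
    IntegrableOn (fun k => gk 0 b k / aA k) (Ioi 0) := by
  have hpi := Real.pi_pos
  refine Integrable.mono' (g := fun k => Real.pi / 4 * Real.exp (-(1 / 2 * yk k)))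
    ((exp_yk_int (by norm_num)).const_mul _)
    (Measurable.aestronglyMeasurable ((gk_meas 0 b).div aA_meas)) ?_
  refine (ae_restrict_iff' measurableSet_Ioi).2 (Eventually.of_forall fun k hk => ?_)
  have hk' : 0 < k := hk
  have hy := yk_pos hk'
  obtain ⟨h1, h2⟩ := gk0_le hb0 (by linarith : b ≤ 4) hk'
  have h3 := aA_pos k
  have h4 := aA_ge k
  rw [Real.norm_eq_abs, abs_of_nonneg (by positivity), div_le_iff₀ h3]
  have h5 : Real.exp (b / 2 * yk k) ≤ Real.exp (1 / 2 * yk k) := Real.exp_le_exp.2 (by nlinarith)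
  have h6 : Real.exp (-(1 / 2 * yk k)) * Real.exp (yk k) = Real.exp (1 / 2 * yk k) := by
    rw [← Real.exp_add]; congr 1; ring
  calc gk 0 b k ≤ Real.pi / 8 * b * Real.exp (b / 2 * yk k) := h2
    _ ≤ Real.pi / 8 * 1 * Real.exp (1 / 2 * yk k) := by gcongr
    _ = Real.pi / 4 * Real.exp (-(1 / 2 * yk k)) * (Real.exp (yk k) / 2) := by
        rw [← h6]; ring
    _ ≤ Real.pi / 4 * Real.exp (-(1 / 2 * yk k)) * aA k := by gcongr

/-- **with the multiplier**: `a = 0` allowed -/
theorem pk_gkA {a b : ℝ} (ha : 0 ≤ a) (hab : a < b) (hb : b ≤ 4) :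
    PK fun k => gk a b k / aA k := by
  rcases ha.lt_or_eq with ha0 | ha0
  · refine ((pk_gk ha0 hab hb).mul mk_aA).congr fun k _ => ?_
    ring
  subst ha0
  have key : ∀ c : ℝ, 0 < c → c ≤ 1 → c ≤ 4 → PK fun k => gk 0 c k / aA k := by
    intro c h1 h2 h3
    refine MK.toPK (((mk_gk le_rfl h1 h3).mul mk_aA).congr fun k _ => ?_) (int_gkA0 h1 h2)
    ring
  by_cases h : b ≤ 1
  · exact key b hab h hb
  push Not at h
  refine ((key 1 one_pos le_rfl (by norm_num)).add ((pk_gk one_pos h hb).mul mk_aA)).congr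
    fun k _ => ?_
  rw [← gk_add 0 1 b, add_div]
  ring

/-! ### the inverse transform -/

theorem int_gk {a b : ℝ} (ha : 0 < a) (hab : a < b) (hb : b ≤ 4) (x : ℝ) :
    ∫ k in Ioi (0:ℝ), gk a b k * Real.cos (k * x) =
      1 / 2 * (Real.log (Real.cosh (2 * x) - Real.cos (b * (Real.pi / 4))) -
        Real.log (Real.cosh (2 * x) - Real.cos (a * (Real.pi / 4)))) := by
  have hpi := Real.pi_pos
  have h1 := (h_sub_fourier (a := (4 - b) * (Real.pi / 8)) (b := (4 - a) * (Real.pi / 8))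
    (by rw [abs_lt]; constructor <;> nlinarith) (by rw [abs_lt]; constructor <;> nlinarith) x).2
  have e : ∀ c : ℝ, h x ((4 - c) * (Real.pi / 8)) =
      Real.log (Real.cosh (2 * x) - Real.cos (c * (Real.pi / 4))) := by
    intro c
    unfold h
    rw [show 2 * ((4 - c) * (Real.pi / 8)) = Real.pi - c * (Real.pi / 4) by ring, Real.cos_pi_sub]
    ring_nf
  rw [e, e] at h1
  rw [h1, ← integral_const_mul]
  refine setIntegral_congr_fun measurableSet_Ioi fun k _ => ?_
  show gk a b k * Real.cos (k * x) = 1 / 2 * (2 * Real.cos (x * k) *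
    (Real.cosh ((4 - a) * (Real.pi / 8) * k) - Real.cosh ((4 - b) * (Real.pi / 8) * k)) / (k * sk k))
  unfold gk sk yk
  rw [mul_comm x k, show (4 - a) * (Real.pi / 8) * k = (4 - a) * (Real.pi * k / 8) by ring,
    show (4 - b) * (Real.pi / 8) * k = (4 - b) * (Real.pi * k / 8) by ring,
    show Real.pi / 2 * k = 4 * (Real.pi * k / 8) by ring]
  ring

/-- strict positivity near `0` -/
theorem gk_low {a b : ℝ} (ha : 0 < a) (hab : a < b) (hb : b ≤ 4) :
    ∃ c0 : ℝ, 0 < c0 ∧ ∀ x : ℝ, |x| ≤ 1 → c0 ≤ ∫ k in Ioi (0:ℝ), gk a b k * Real.cos (k * x) := by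
  have hpi := Real.pi_pos
  set A := Real.cos (a * (Real.pi / 4)) with hA
  set B := Real.cos (b * (Real.pi / 4)) with hB
  have hBA : B < A := Real.cos_lt_cos_of_nonneg_of_le_pi (by positivity) (by nlinarith) (by gcongr)
  have hA1 : A < 1 := by
    rw [← Real.cos_zero]
    exact Real.cos_lt_cos_of_nonneg_of_le_pi le_rfl (by nlinarith) (by positivity)
  have hA0 : -1 ≤ A := Real.neg_one_le_cos _
  set M := Real.cosh 2 with hM
  have hM1 : 1 ≤ M := Real.one_le_cosh _
  have hMA : 0 < M - A := by linarith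
  refine ⟨1 / 2 * (Real.log (M - B) - Real.log (M - A)), ?_, fun x hx => ?_⟩
  · have : Real.log (M - A) < Real.log (M - B) := Real.log_lt_log hMA (by linarith)
    linarith
  · rw [int_gk ha hab hb]
    have h1 : Real.cosh (2 * x) ≤ M := by
      rw [hM]
      refine Real.cosh_le_cosh.2 ?_
      rw [abs_mul, abs_two]
      linarith
    have h2 := Real.one_le_cosh (2 * x)
    have p1 : 0 < Real.cosh (2 * x) - A := by linarith
    have p2 : 0 < Real.cosh (2 * x) - B := by linarith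
    have p3 : 0 < M - B := by linarith
    have h3 : Real.log (M - B) + Real.log (Real.cosh (2 * x) - A) ≤
        Real.log (Real.cosh (2 * x) - B) + Real.log (M - A) := by
      rw [← Real.log_mul p3.ne' p1.ne', ← Real.log_mul p2.ne' hMA.ne']
      refine Real.log_le_log (by positivity) ?_
      nlinarith
    linarith

/-! ### the core -/

lemma tanh_le_self {x : ℝ} (hx : 0 ≤ x) : Real.tanh x ≤ x := by
  rw [Real.tanh_eq_sinh_div_cosh, div_le_iff₀ (Real.cosh_pos x)]
  exact sinh_le_mul_cosh hx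

lemma tanh_dbl (x : ℝ) : Real.tanh (2 * x) - Real.tanh x = Real.tanh x / Real.cosh (2 * x) := by
  have h1 := (Real.cosh_pos x).ne'
  have h2 := (Real.cosh_pos (2 * x)).ne'
  rw [Real.tanh_eq_sinh_div_cosh, Real.tanh_eq_sinh_div_cosh]
  rw [div_sub_div _ _ h2 h1, div_div, div_eq_div_iff (by positivity) (by positivity)]
  have h3 : Real.sinh (2 * x) * Real.cosh x - Real.cosh (2 * x) * Real.sinh x = Real.sinh x := by
    rw [← Real.sinh_sub]
    congr 1
    ring
  rw [h3]
  ring

lemma ck_meas (s : ℕ) : Measurable (ck s) := by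
  unfold ck yk
  have : Measurable Real.tanh := by
    have h : Real.tanh = fun x => Real.sinh x / Real.cosh x := by
      funext x; exact Real.tanh_eq_sinh_div_cosh x
    rw [h]; fun_prop
  fun_prop

lemma gk04 (k : ℝ) : gk 0 4 k = ck 0 k := by
  unfold gk ck
  rw [pow_zero, div_one, Real.tanh_eq_sinh_div_cosh, sub_self, zero_mul, Real.cosh_zero, sub_zero]
  have e : (4 : ℝ) * yk k = 2 * (2 * yk k) := by ring
  rw [e]
  generalize 2 * yk k = u
  rw [Real.cosh_two_mul u, Real.sinh_two_mul u]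
  rcases eq_or_ne (Real.sinh u) 0 with h | h
  · rw [h]; simp
  have h2 := (Real.cosh_pos u).ne'
  rw [Real.cosh_sq u]
  field_simp
  ring

lemma int_ck_step (s : ℕ) : IntegrableOn (fun k => ck s k - ck (s + 1) k) (Ioi 0) := by
  have hpi := Real.pi_pos
  set N : ℝ := 2 ^ (s + 1) with hN
  have hN0 : 0 < N := by positivity
  refine Integrable.mono' (g := fun k => Real.pi / 2 / N * Real.exp (-(4 / N * yk k)))
    ((exp_yk_int (by positivity)).const_mul _)
    (Measurable.aestronglyMeasurable ((ck_meas s).sub (ck_meas (s + 1)))) ?_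
  refine (ae_restrict_iff' measurableSet_Ioi).2 (Eventually.of_forall fun k hk => ?_)
  have hk' : 0 < k := hk
  have hy := yk_pos hk'
  set x := 2 * yk k / N with hx
  have hx0 : 0 ≤ x := by positivity
  have e1 : ck s k - ck (s + 1) k = 1 / k * (Real.tanh x / Real.cosh (2 * x)) := by
    unfold ck
    rw [← tanh_dbl x, hx, hN]
    have : 2 * yk k / 2 ^ s = 2 * (2 * yk k / 2 ^ (s + 1)) := by rw [pow_succ]; field_simp
    rw [this]
    ring
  have t0 : 0 ≤ Real.tanh x := by
    rw [Real.tanh_eq_sinh_div_cosh]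
    exact div_nonneg (Real.sinh_nonneg_iff.2 hx0) (Real.cosh_pos x).le
  have c0 := Real.cosh_pos (2 * x)
  rw [e1, Real.norm_eq_abs, abs_of_nonneg (by positivity)]
  have h1 : Real.exp (2 * x) / 2 ≤ Real.cosh (2 * x) := by
    rw [Real.cosh_eq]
    have := Real.exp_pos (-(2 * x))
    linarith
  have h2 : 1 / Real.cosh (2 * x) ≤ 2 * Real.exp (-(2 * x)) := by
    rw [div_le_iff₀ c0]
    calc (1:ℝ) = 2 * Real.exp (-(2 * x)) * (Real.exp (2 * x) / 2) := by
          rw [show 2 * Real.exp (-(2 * x)) * (Real.exp (2 * x) / 2) =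
            Real.exp (-(2 * x)) * Real.exp (2 * x) by ring, ← Real.exp_add]
          simp
      _ ≤ _ := by gcongr
  calc 1 / k * (Real.tanh x / Real.cosh (2 * x)) = 1 / k * (Real.tanh x * (1 / Real.cosh (2 * x))) := by
        ring
    _ ≤ 1 / k * (x * (2 * Real.exp (-(2 * x)))) := by
        have := tanh_le_self hx0
        gcongr
    _ = Real.pi / 2 / N * Real.exp (-(4 / N * yk k)) := by
        rw [show 4 / N * yk k = 2 * x by rw [hx]; ring, hx]
        unfold yk
        field_simp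
        norm_num

lemma int_ck (s : ℕ) : IntegrableOn (fun k => ck 0 k - ck s k) (Ioi 0) := by
  induction s with
  | zero => simp
  | succ s ih =>
    refine IntegrableOn.congr_fun (ih.add (int_ck_step s)) (fun k _ => ?_) measurableSet_Ioi
    simp

/-- the contact kernel minus the core is integrable -/
lemma int_g0 {b : ℝ} (hb0 : 0 < b) (hb : b ≤ 4) (s : ℕ) :
    IntegrableOn (fun k => gk 0 b k - ck s k) (Ioi 0) := by
  rcases hb.lt_or_eq with h | h
  · refine IntegrableOn.congr_fun ((int_ck s).sub (pk_gk hb0 h le_rfl).1) (fun k _ => ?_)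
      measurableSet_Ioi
    have := gk_add 0 b 4 k
    rw [gk04] at this
    simp only [Pi.sub_apply]
    linarith
  · subst h
    refine IntegrableOn.congr_fun (int_ck s) (fun k _ => ?_) measurableSet_Ioi
    simp only [gk04]

lemma nat_sinh_le (n : ℕ) {w : ℝ} (hw : 0 ≤ w) : (n : ℝ) * Real.sinh w ≤ Real.sinh (n * w) := by
  induction n with
  | zero => simp
  | succ n ih =>
    push_cast
    rw [add_mul, add_mul, one_mul, one_mul, Real.sinh_add]
    have h1 := Real.one_le_cosh w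
    have h2 := Real.one_le_cosh (n * w)
    have h3 : 0 ≤ Real.sinh w := Real.sinh_nonneg_iff.2 hw
    have h4 : 0 ≤ Real.sinh (n * w) := Real.sinh_nonneg_iff.2 (by positivity)
    nlinarith

/-- real space: the logarithm of the contact kernel dominates the core -/
lemma core_dom {b : ℝ} {s : ℕ} (hs : 1 ≤ 2 ^ s * Real.sin (b * (Real.pi / 8))) {t : ℝ}
    (ht : t ≠ 0) : h (2 ^ s * t) 0 - h (2 ^ s * t) (Real.pi / 2) ≤
      h t ((4 - b) * (Real.pi / 8)) - h t (Real.pi / 2) := by
  have hpi := Real.pi_pos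
  have key : ∀ t : ℝ, 0 < t → h (2 ^ s * t) 0 - h (2 ^ s * t) (Real.pi / 2) ≤
      h t ((4 - b) * (Real.pi / 8)) - h t (Real.pi / 2) := by
    intro t ht
    set T := 2 ^ s * t with hT
    have hT0 : 0 < T := by positivity
    set σ := Real.sin (b * (Real.pi / 8)) with hσ
    have e1 : ∀ u : ℝ, Real.cosh (2 * u) = 2 * Real.sinh u ^ 2 + 1 := by
      intro u
      rw [Real.cosh_two_mul, Real.cosh_sq]
      ring
    have a0 : 0 < Real.sinh t := Real.sinh_pos_iff.2 ht
    have A0 : 0 < Real.sinh T := Real.sinh_pos_iff.2 hT0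
    have hle : 2 ^ s * Real.sinh t ≤ Real.sinh T := by
      have := nat_sinh_le (2 ^ s) ht.le
      push_cast at this
      exact this
    have c1 : Real.cos (2 * ((4 - b) * (Real.pi / 8))) = 2 * σ ^ 2 - 1 := by
      rw [show 2 * ((4 - b) * (Real.pi / 8)) = Real.pi - 2 * (b * (Real.pi / 8)) by ring,
        Real.cos_pi_sub, Real.cos_two_mul, Real.cos_sq']
      ring
    have c2 : Real.cos (2 * (Real.pi / 2)) = -1 := by
      rw [show 2 * (Real.pi / 2) = Real.pi by ring, Real.cos_pi]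
    unfold h
    rw [c1, c2, mul_zero, Real.cos_zero, e1 T, e1 t]
    have p1 : 0 < 2 * Real.sinh T ^ 2 + 1 + 1 := by positivity
    have p2 : 0 < 2 * Real.sinh T ^ 2 + 1 + -1 := by have := pow_pos A0 2; linarith
    have p3 : 0 < 2 * Real.sinh t ^ 2 + 1 + (2 * σ ^ 2 - 1) := by
      have := pow_pos a0 2
      have := sq_nonneg σ
      linarith
    have p4 : 0 < 2 * Real.sinh t ^ 2 + 1 + -1 := by have := pow_pos a0 2; linarith
    have h1 : Real.log (2 * Real.sinh T ^ 2 + 1 + 1) + Real.log (2 * Real.sinh t ^ 2 + 1 + -1) ≤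
        Real.log (2 * Real.sinh t ^ 2 + 1 + (2 * σ ^ 2 - 1)) +
          Real.log (2 * Real.sinh T ^ 2 + 1 + -1) := by
      rw [← Real.log_mul p1.ne' p4.ne', ← Real.log_mul p3.ne' p2.ne']
      refine Real.log_le_log (by positivity) ?_
      have h2 : Real.sinh t ≤ σ * Real.sinh T := by
        have hσ0 : 0 ≤ σ := by
          by_contra hneg
          push Not at hneg
          have : (2:ℝ) ^ s * σ < 0 := mul_neg_of_pos_of_neg (by positivity) hneg
          linarith
        calc Real.sinh t ≤ (2 ^ s * σ) * Real.sinh t := le_mul_of_one_le_left a0.le hs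
          _ = σ * (2 ^ s * Real.sinh t) := by ring
          _ ≤ σ * Real.sinh T := by gcongr
      have h3 : Real.sinh t ^ 2 ≤ σ ^ 2 * Real.sinh T ^ 2 := by
        rw [← mul_pow]
        exact pow_le_pow_left₀ a0.le h2 2
      nlinarith
    linarith
  have ev : ∀ u y : ℝ, h (-u) y = h u y := by
    intro u y
    unfold h
    rw [mul_neg, Real.cosh_neg]
  rcases lt_or_gt_of_ne ht with h0 | h0
  · have := key (-t) (by linarith)
    rw [mul_neg, ev, ev, ev, ev] at this
    exact this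
  · exact key t h0

theorem mk_g0 {b : ℝ} (hb0 : 0 < b) (hb : b ≤ 4) {s : ℕ}
    (hs : 1 ≤ 2 ^ s * Real.sin (b * (Real.pi / 8))) : MK fun k => gk 0 b k - ck s k := by
  have hpi := Real.pi_pos
  have hl : 4 * l = Real.pi / 2 := by unfold l; ring
  have hc0 : (0 : ℝ) < 2 ^ s := by positivity
  have hb1 : |(4 - b) * (Real.pi / 8)| ≤ Real.pi / 2 := by
    rw [abs_of_nonneg (by nlinarith)]; nlinarith
  have hp1 : |Real.pi / 2| ≤ Real.pi / 2 := by rw [abs_of_pos (by positivity)]
  have hz1 : |(0 : ℝ)| ≤ Real.pi / 2 := by rw [abs_zero]; positivity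
  have I1 := (integral_h_sub (y := (4 - b) * (Real.pi / 8)) (y' := Real.pi / 2)
    (hl ▸ hb1) (hl ▸ hp1)).1
  have I2 := (integral_h_sub (y := 0) (y' := Real.pi / 2) (hl ▸ hz1) (hl ▸ hp1)).1.comp_mul_left'
    hc0.ne'
  set D : ℝ → ℝ := fun t => (h t ((4 - b) * (Real.pi / 8)) - h t (Real.pi / 2)) -
    (h (2 ^ s * t) 0 - h (2 ^ s * t) (Real.pi / 2)) with hD
  refine ⟨fun t => if t = 0 then 0 else 1 / (2 * Real.pi) * D t, ?_, ?_, ?_⟩
  · refine ((I1.sub I2).const_mul (1 / (2 * Real.pi))).congr ?_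
    filter_upwards [ae_ne_zero] with t ht
    rw [if_neg ht]
    rfl
  · intro t
    show 0 ≤ if t = 0 then (0:ℝ) else 1 / (2 * Real.pi) * D t
    split_ifs with ht
    · exact le_rfl
    · have := core_dom hs ht
      have h0 : 0 ≤ D t := by simp only [hD]; linarith
      positivity
  · intro k hk
    have e : (fun t => (if t = 0 then (0:ℝ) else 1 / (2 * Real.pi) * D t) * Real.cos (k * t)) =ᵐ[volume]
        fun t => 1 / (2 * Real.pi) * ((h t ((4 - b) * (Real.pi / 8)) - h t (Real.pi / 2)) *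
          Real.cos (k * t) - (fun u => (h u 0 - h u (Real.pi / 2)) * Real.cos (k / 2 ^ s * u)) (2 ^ s * t)) := by
      filter_upwards [ae_ne_zero] with t ht
      rw [if_neg ht]
      have : k / 2 ^ s * (2 ^ s * t) = k * t := by field_simp
      simp only [hD, this]
      ring
    have hk2 : 0 < k / 2 ^ s := by positivity
    obtain ⟨i1, f1⟩ := h_forward hb1 hp1 hk
    obtain ⟨i2, f2⟩ := h_forward hz1 hp1 hk2
    have f3 := Measure.integral_comp_mul_left
      (fun u => (h u 0 - h u (Real.pi / 2)) * Real.cos (k / 2 ^ s * u)) (2 ^ s)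
    rw [integral_congr_ae e, integral_const_mul, integral_sub i1 (i2.comp_mul_left' hc0.ne')]
    rw [f3, f1, f2]
    have hy := yk_pos hk
    have s4 : 0 < Real.sinh (4 * yk k) := Real.sinh_pos_iff.2 (by positivity)
    set θ := 2 * yk k / 2 ^ s with hθ
    have hθ0 : 0 < θ := by positivity
    have sθ : 0 < Real.sinh θ := Real.sinh_pos_iff.2 hθ0
    have cθ := Real.cosh_pos θ
    have q1 : Real.cosh (Real.pi / 2 * k) = Real.cosh ((4 - 0) * yk k) := by
      congr 1; unfold yk; ring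
    have q2 : Real.cosh ((4 - b) * (Real.pi / 8) * k) = Real.cosh ((4 - b) * yk k) := by
      congr 1; unfold yk; ring
    have q3 : sk k = Real.sinh (4 * yk k) := by unfold sk; congr 1; unfold yk; ring
    have q4 : Real.cosh (Real.pi / 2 * (k / 2 ^ s)) = 2 * Real.sinh θ ^ 2 + 1 := by
      rw [show Real.pi / 2 * (k / 2 ^ s) = 2 * θ by rw [hθ]; unfold yk; field_simp; ring,
        Real.cosh_two_mul, Real.cosh_sq]
      ring
    have q5 : sk (k / 2 ^ s) = 2 * Real.sinh θ * Real.cosh θ := by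
      unfold sk
      rw [show Real.pi / 2 * (k / 2 ^ s) = 2 * θ by rw [hθ]; unfold yk; field_simp; ring,
        Real.sinh_two_mul]
    have q6 : ck s k = 1 / k * (Real.sinh θ / Real.cosh θ) := by
      unfold ck
      rw [← hθ, Real.tanh_eq_sinh_div_cosh]
    rw [q1, q2, q3, q4, q5, zero_mul, Real.cosh_zero, abs_of_pos (by positivity), smul_eq_mul]
    simp only [q6]
    unfold gk
    field_simp
    ring

/-- **the contact kernel dominates the core** -/
theorem pk_g0 {b : ℝ} (hb0 : 0 < b) (hb : b ≤ 4) {s : ℕ}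
    (hs : 1 ≤ 2 ^ s * Real.sin (b * (Real.pi / 8))) : PK fun k => gk 0 b k - ck s k :=
  (mk_g0 hb0 hb hs).toPK (int_g0 hb0 hb s)

/-- the same with a numerical condition -/
theorem pk_g0' {b : ℝ} (hb : b ≤ 4) {s : ℕ} (hs : 4 ≤ 2 ^ s * b) :
    PK fun k => gk 0 b k - ck s k := by
  have hpi := Real.pi_pos
  have hb0 : 0 < b := by
    by_contra hneg
    push Not at hneg
    have : (2:ℝ) ^ s * b ≤ 0 := mul_nonpos_of_nonneg_of_nonpos (by positivity) hneg
    linarith
  refine pk_g0 hb0 hb ?_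
  have h1 := Real.mul_le_sin (x := b * (Real.pi / 8)) (by positivity) (by nlinarith)
  have h2 : 2 / Real.pi * (b * (Real.pi / 8)) = b / 4 := by field_simp; norm_num
  rw [h2] at h1
  calc (1:ℝ) ≤ 2 ^ s * (b / 4) := by linarith
    _ ≤ _ := by gcongr

/-! ### sums -/

/-- sum of kernels: `L` without, `D` with the multiplier; entries (coefficient, `a`, `b`) -/
def NL (L D : List (ℝ × ℝ × ℝ)) (k : ℝ) : ℝ :=
  (L.map fun p => p.1 * gk p.2.1 p.2.2 k).sum + (D.map fun p => p.1 * gk p.2.1 p.2.2 k).sum / aA k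

/-- side conditions, `a > 0` without the multiplier -/
def OkL (L : List (ℝ × ℝ × ℝ)) : Prop := ∀ p ∈ L, 0 ≤ p.1 ∧ 0 < p.2.1 ∧ p.2.1 < p.2.2 ∧ p.2.2 ≤ 4
/-- side conditions, with the multiplier -/
def OkD (L : List (ℝ × ℝ × ℝ)) : Prop := ∀ p ∈ L, 0 ≤ p.1 ∧ 0 ≤ p.2.1 ∧ p.2.1 < p.2.2 ∧ p.2.2 ≤ 4

lemma PK_L {L : List (ℝ × ℝ × ℝ)} (h : OkL L) : PK fun k => (L.map fun p => p.1 * gk p.2.1 p.2.2 k).sum := by
  induction L with
  | nil => simpa using PK.zero
  | cons p L ih =>
    obtain ⟨h1, h2, h3, h4⟩ := h p (by simp)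
    refine (((pk_gk h2 h3 h4).smul h1).add (ih fun q hq => h q (by simp [hq]))).congr fun k _ => ?_
    simp

lemma PK_D {L : List (ℝ × ℝ × ℝ)} (h : OkD L) :
    PK fun k => (L.map fun p => p.1 * gk p.2.1 p.2.2 k).sum / aA k := by
  induction L with
  | nil => simpa using PK.zero
  | cons p L ih =>
    obtain ⟨h1, h2, h3, h4⟩ := h p (by simp)
    refine (((pk_gkA h2 h3 h4).smul h1).add (ih fun q hq => h q (by simp [hq]))).congr fun k _ => ?_
    simp only [List.map_cons, List.sum_cons]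
    ring

theorem PK_NL {L D : List (ℝ × ℝ × ℝ)} (hL : OkL L) (hD : OkD D) : PK (NL L D) :=
  (PK_L hL).add (PK_D hD)

lemma int_PK_add {m m' : ℝ → ℝ} (h : PK m) (h' : PK m') (x : ℝ) :
    ∫ k in Ioi (0:ℝ), (m k + m' k) * Real.cos (k * x) =
      (∫ k in Ioi (0:ℝ), m k * Real.cos (k * x)) + ∫ k in Ioi (0:ℝ), m' k * Real.cos (k * x) := by
  rw [← integral_add (intOn_mul_cos h.1 x) (intOn_mul_cos h'.1 x)]
  exact integral_congr_ae (Eventually.of_forall fun k => by simp only []; ring)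

lemma L_low {L : List (ℝ × ℝ × ℝ)} (h : OkL L) {p : ℝ × ℝ × ℝ} (hp : p ∈ L) (x : ℝ) :
    p.1 * ∫ k in Ioi (0:ℝ), gk p.2.1 p.2.2 k * Real.cos (k * x) ≤
      ∫ k in Ioi (0:ℝ), (L.map fun p => p.1 * gk p.2.1 p.2.2 k).sum * Real.cos (k * x) := by
  induction L with
  | nil => simp at hp
  | cons q L ih =>
    have hL : OkL L := fun r hr => h r (by simp [hr])
    obtain ⟨h1, h2, h3, h4⟩ := h q (by simp)
    have e : ∫ k in Ioi (0:ℝ), ((q :: L).map fun p => p.1 * gk p.2.1 p.2.2 k).sum * Real.cos (k * x) =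
        q.1 * (∫ k in Ioi (0:ℝ), gk q.2.1 q.2.2 k * Real.cos (k * x)) +
          ∫ k in Ioi (0:ℝ), (L.map fun p => p.1 * gk p.2.1 p.2.2 k).sum * Real.cos (k * x) := by
      rw [← integral_const_mul]
      have := int_PK_add ((pk_gk h2 h3 h4).smul h1) (PK_L hL) x
      simp only [List.map_cons, List.sum_cons]
      rw [this]
      congr 1
      exact integral_congr_ae (Eventually.of_forall fun k => by simp only []; ring)
    rw [e]
    rcases List.mem_cons.1 hp with rfl | hp
    · have := (PK_L hL).2 x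
      linarith
    · have := ih hL hp
      have h5 := (pk_gk h2 h3 h4).2 x
      have := mul_nonneg h1 h5
      linarith

/-- **strict positivity of a sum** -/
theorem NL_low {L D : List (ℝ × ℝ × ℝ)} (hL : OkL L) (hD : OkD D) {p : ℝ × ℝ × ℝ} (hp : p ∈ L)
    (hp0 : 0 < p.1) : ∃ c0 : ℝ, 0 < c0 ∧ ∀ x : ℝ, |x| ≤ 1 →
      c0 ≤ ∫ k in Ioi (0:ℝ), NL L D k * Real.cos (k * x) := by
  obtain ⟨_, h2, h3, h4⟩ := hL p hp
  obtain ⟨c, hc, H⟩ := gk_low h2 h3 h4
  refine ⟨p.1 * c, by positivity, fun x hx => ?_⟩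
  have e := int_PK_add (PK_L hL) (PK_D hD) x
  have h5 := (PK_D hD).2 x
  have h6 := L_low hL hp x
  have h7 := mul_le_mul_of_nonneg_left (H x hx) hp0.le
  unfold NL
  rw [e]
  linarith

end PHK

end
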