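import Pool.Agent.PHK.GOm

/-!
# (P): the cutoff of the strings with a general exponent

The family of the first Ward identity moves the exponent of the factor `om`: in place of `omA T1` a
function `A` on the window `KWo = [-29 / 20 l, -39 / 80 l]` of the strings.

* `GAc C c A`: `‖A‖ ≤ C e^{11/2 |Im|}`, `c e^{11/2 |Im|} ≤ Re (A p)` for `‖p - 1‖ ≤ 1 / 5`;
  `GA A`: with regularity; **`ga_omA`**;
* `omX A P = exp (-(A P))`, `phX A X = phi (4 / 3) X * omX A (pP X)`, **`gOA A W x`**: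
  `ph (4 / 3) x (gOA A W x) = phX A (List.ofFn x ++ W)` (`ph_gOA`); `gOA (omA T1) = gO T1` (`gOA_omA`);
* **`goN_gOA`**, **`dec_gOA`**: admissible correction, decay of every rate;
* `AmT T1 η0 X θ`: the exponent transported by the field `X`, affine in `θ`; **`ga_AmT`**.
-/

set_option autoImplicit false
set_option linter.unusedSectionVars false
set_option linter.unusedVariables false

noncomputable section

open Complex

namespace PHK

open NUP1 (l lpos psi phi)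
open NUP1S (Bdd DecOn)
open PBX (ph gP GOk Rws KK ph_gP)
open PBO.PLX (RwL)
open Pool.Agent.PLX (K2P GOn)

/-! ### the exponent -/

/-- the window of the strings -/
def KWo : Set ℝ := Set.Icc (-(29 / 20 * l)) (-(39 / 80 * l))

theorem KW_win {w : ℂ} (h : w.re ∈ KWo) : |w.re + 31 / 32 * l| ≤ 77 / 160 * l := by
  have hl := lpos
  obtain ⟨h1, h2⟩ := h
  rw [abs_le]
  constructor <;> linarith

theorem K2_KW {t : ℝ} (h : t ∈ K2P (-(29 / 20 * l))) : t ∈ KWo := by
  have hl := lpos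
  obtain ⟨h1, h2⟩ := h
  exact ⟨h1, by linarith⟩

/-- growth and positivity of an exponent -/
structure GAc (C c : ℝ) (A : ℂ → ℂ) : Prop where
  bd : ∀ z : ℂ, z.re ∈ KWo → ‖A z‖ ≤ C * Real.exp (11 / 2 * |z.im|)
  pos : ∀ z : ℂ, z.re ∈ KWo → ∀ p : ℂ, ‖p - 1‖ ≤ 1 / 5 →
    c * Real.exp (11 / 2 * |z.im|) ≤ (A z * p).re

/-- an exponent of the cut of the strings -/
structure GA (A : ℂ → ℂ) : Prop where
  meas : Measurable A
  diff : ∀ z : ℂ, z.re ∈ KWo → DifferentiableAt ℂ A z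
  bd : ∃ C c : ℝ, 0 ≤ C ∧ 0 < c ∧ GAc C c A

theorem gac_omA (T1 : ℝ) : GAc (2 * Real.exp (-(11 / 2 * T1))) (Real.exp (-(11 / 2 * T1)) / 5)
    (omA T1) where
  bd z hz := by
    refine (norm_omA_le T1 z).trans (le_of_eq ?_)
    rw [mul_assoc, ← Real.exp_add]
    congr 2
    ring
  pos z hz p hp := by
    have h := re_omG_mul (κ := 11 / 2) (x0 := 31 / 32 * l) (T1 := T1) (by norm_num) (w := z) (p := p)
      (range_om (KW_win hz)) hp
    refine le_trans (le_of_eq ?_) h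
    rw [div_mul_eq_mul_div, ← Real.exp_add]
    congr 2
    ring

/-- **the exponent of (P)** -/
theorem ga_omA (T1 : ℝ) : GA (omA T1) :=
  ⟨(diff_omA T1).continuous.measurable, fun z _ => diff_omA T1 z, _, _, by positivity, by positivity,
    gac_omA T1⟩

/-! ### the factor -/

/-- the factor -/
def omX (A P : ℂ → ℂ) (w : ℂ) : ℂ := Complex.exp (-(A w * P w))

/-- the cutoff with the factor -/
def phX (A : ℂ → ℂ) (X : List ℂ) (w : ℂ) : ℂ := phi (4 / 3) X w * omX A (pP X) w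

theorem phX_omA (T1 : ℝ) (X : List ℂ) : phX (omA T1) X = phO T1 X := rfl

private theorem re_app {m : ℕ} {x : Fin m → ℂ} {W : List ℂ} (hx : Rws x) (hW : ∀ w ∈ W, |w.re| ≤ l / 2) :
    ∀ w ∈ List.ofFn x ++ W, |w.re| ≤ l / 2 := by
  intro w hw
  rcases List.mem_append.1 hw with h | h
  · obtain ⟨i, rfl⟩ := (List.mem_ofFn).1 h
    exact hx i
  · exact hW w h

/-- bound of the factor where `‖P‖ ≤ B` -/
theorem norm_omX_le {C c B T : ℝ} {A P : ℂ → ℂ} (hC : 0 ≤ C) (h : GAc C c A) {w : ℂ} (hw : w.re ∈ KWo)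
    (hB : ‖P w‖ ≤ B) (hT : |w.im| ≤ T) : ‖omX A P w‖ ≤ Real.exp (C * Real.exp (11 / 2 * T) * B) := by
  unfold omX
  refine (Complex.norm_exp_le_exp_norm _).trans (Real.exp_le_exp.2 ?_)
  rw [norm_neg, norm_mul]
  have h1 : ‖A w‖ ≤ C * Real.exp (11 / 2 * T) :=
    (h.bd w hw).trans (mul_le_mul_of_nonneg_left (Real.exp_le_exp.2 (by linarith)) hC)
  exact mul_le_mul h1 hB (norm_nonneg _) (by positivity)

/-- the factor in the vacuum -/
theorem norm_omX_vac {C c : ℝ} {A P : ℂ → ℂ} (h : GAc C c A) {w : ℂ} (hw : w.re ∈ KWo)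
    (hP : ‖P w - 1‖ ≤ 1 / 5) : ‖omX A P w‖ ≤ Real.exp (-(c * Real.exp (11 / 2 * |w.im|))) := by
  unfold omX
  rw [Complex.norm_exp, Complex.neg_re, Real.exp_le_exp, neg_le_neg_iff]
  exact h.pos w hw _ hP

theorem dexp_le' {a c y : ℝ} (hc : 0 < c) (hy : 0 ≤ y) :
    -(c * Real.exp (11 / 2 * y)) ≤ a ^ 2 / (4 * c) - a * y := by
  have h1 : 1 + 11 / 2 * y + (11 / 2 * y) ^ 2 / 2 ≤ Real.exp (11 / 2 * y) :=
    Real.quadratic_le_exp_of_nonneg (by positivity)
  have h2 : y ^ 2 ≤ Real.exp (11 / 2 * y) := by nlinarith [sq_nonneg y]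
  have h3 := mul_le_mul_of_nonneg_left h2 hc.le
  have h4 : a * y ≤ a ^ 2 / (4 * c) + c * y ^ 2 := by
    have e : a ^ 2 / (4 * c) + c * y ^ 2 - a * y = (a - 2 * c * y) ^ 2 / (4 * c) := by
      field_simp
      ring
    have : 0 ≤ (a - 2 * c * y) ^ 2 / (4 * c) := by positivity
    linarith
  linarith

/-- **the factor decays at every rate** -/
theorem dec_omX {A : ℂ → ℂ} (hA : GA A) {X : List ℂ} (hX : ∀ w ∈ X, |w.re| ≤ l / 2) {a : ℝ}
    (ha : 0 ≤ a) : DecOn a (K2P (-(29 / 20 * l))) (omX A (pP X)) := by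
  obtain ⟨T, hT, H⟩ := pP_one hX
  obtain ⟨C, c, hC, hc, hb⟩ := hA.bd
  obtain ⟨D1, hD1⟩ : ∃ D1, D1 = Real.exp (C * Real.exp (11 / 2 * T) * 1) * Real.exp (a * T) := ⟨_, rfl⟩
  obtain ⟨D2, hD2⟩ : ∃ D2, D2 = Real.exp (a ^ 2 / (4 * c)) := ⟨_, rfl⟩
  refine ⟨D1 + D2, fun u hu => ?_⟩
  have hE := Real.exp_pos (-(a * |u.im|))
  have hD10 : 0 ≤ D1 := by rw [hD1]; positivity
  have hD20 : 0 ≤ D2 := by rw [hD2]; positivity
  rcases le_total |u.im| T with h | h
  · have h1 := norm_omX_le hC hb (K2_KW hu) (pP_norm hX hu) h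
    have h2 : 1 ≤ Real.exp (a * T) * Real.exp (-(a * |u.im|)) := by
      rw [← Real.exp_add]
      refine Real.one_le_exp ?_
      nlinarith
    calc ‖omX A (pP X) u‖ ≤ Real.exp (C * Real.exp (11 / 2 * T) * 1) * 1 := by rw [mul_one _]; exact h1
      _ ≤ Real.exp (C * Real.exp (11 / 2 * T) * 1) * (Real.exp (a * T) * Real.exp (-(a * |u.im|))) :=
          mul_le_mul_of_nonneg_left h2 (Real.exp_pos _).le
      _ = D1 * Real.exp (-(a * |u.im|)) := by rw [hD1]; ring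
      _ ≤ _ := mul_le_mul_of_nonneg_right (by linarith) hE.le
  · have h1 := norm_omX_vac hb (K2_KW hu) (H u hu h)
    have h5 : Real.exp (-(c * Real.exp (11 / 2 * |u.im|))) ≤ D2 * Real.exp (-(a * |u.im|)) := by
      rw [hD2, ← Real.exp_add]
      refine Real.exp_le_exp.2 ?_
      have := dexp_le' (a := a) hc (abs_nonneg u.im)
      linarith
    exact (h1.trans h5).trans (mul_le_mul_of_nonneg_right (by linarith) hE.le)

/-- **the cutoff of the strings decays at every rate** -/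
theorem dec_phX {A : ℂ → ℂ} (hA : GA A) {X : List ℂ} (hX : ∀ w ∈ X, |w.re| ≤ l / 2) {a : ℝ}
    (ha : 0 ≤ a) : DecOn a (K2P (-(29 / 20 * l))) (phX A X) := by
  obtain ⟨D, hD⟩ := dec_omX hA hX ha
  refine ⟨2 * D, fun u hu => ?_⟩
  unfold phX
  rw [norm_mul, mul_assoc]
  exact mul_le_mul (phi_le_two hX hu) (hD u hu) (norm_nonneg _) (by norm_num)

/-! ### the correction -/

section gOA

variable {m : ℕ} {x : Fin m → ℂ} {W : List ℂ} {A : ℂ → ℂ}

/-- **the correction of the cutoff of the strings**: further points `W` and the factor `omX A` -/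
def gOA (A : ℂ → ℂ) (W : List ℂ) (x : Fin m → ℂ) (u : ℂ) : ℂ :=
  gP (4 / 3) W u * (Complex.exp (-(A u * pP (List.ofFn x ++ W) u)) +
    A u * Ez (A u * pP (List.ofFn x ++ W) u))

theorem gOA_omA (T1 : ℝ) (W : List ℂ) (x : Fin m → ℂ) : gOA (omA T1) W x = gO T1 W x := rfl

theorem ph_gOA (A : ℂ → ℂ) (W : List ℂ) (x : Fin m → ℂ) (u : ℂ) :
    ph (4 / 3) x (gOA A W x) u = phX A (List.ofFn x ++ W) u := by
  have h1 := pP_append x W u
  have h2 := Ez_mul (A u * pP (List.ofFn x ++ W) u)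
  obtain ⟨p, hp⟩ : ∃ p, p = pP (List.ofFn x ++ W) u := ⟨_, rfl⟩
  obtain ⟨E, hE⟩ : ∃ E, E = Ez (A u * p) := ⟨_, rfl⟩
  unfold PBX.ph gOA phX omX
  rw [phi_pP]
  rw [← hp] at h1 h2 ⊢
  rw [← hE] at h2 ⊢
  have h3 : (∏ i, psi (4 / 3) (u - x i)) * (gP (4 / 3) W u * (Complex.exp (-(A u * p)) +
      A u * E)) = p * (Complex.exp (-(A u * p)) + A u * E) := by
    rw [h1]
    ring
  rw [h3]
  linear_combination -h2

theorem ph_gOA_fun (A : ℂ → ℂ) (W : List ℂ) (x : Fin m → ℂ) :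
    ph (4 / 3) x (gOA A W x) = phX A (List.ofFn x ++ W) := funext fun u => ph_gOA A W x u

theorem meas_gOA (hA : Measurable A) (hx : Rws x) (hW : ∀ w ∈ W, |w.re| ≤ l / 2) :
    Measurable (gOA A W x) := by
  have m1 : Measurable (gP (4 / 3) W) := (GOk.gP (by norm_num) le_rfl hW).meas
  have m2 : Measurable (pP (List.ofFn x ++ W)) := (gOk_pP (re_app hx hW)).meas
  have m4 : Measurable Ez := diff_Ez.continuous.measurable
  exact m1.mul (((hA.mul m2).neg.cexp).add (hA.mul (m4.comp (hA.mul m2))))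

theorem diff_gOA (hx : Rws x) (hW : ∀ w ∈ W, |w.re| ≤ l / 2) {z : ℂ} (hz : z.re ∈ KK)
    (hA : DifferentiableAt ℂ A z) : DifferentiableAt ℂ (gOA A W x) z := by
  have d1 : DifferentiableAt ℂ (gP (4 / 3) W) z := (GOk.gP (by norm_num) le_rfl hW).diff z hz
  have d2 : DifferentiableAt ℂ (pP (List.ofFn x ++ W)) z := (gOk_pP (re_app hx hW)).diff z hz
  have d5 : DifferentiableAt ℂ (fun u => Ez (A u * pP (List.ofFn x ++ W) u)) z :=
    (diff_Ez _).comp z (hA.mul d2)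
  exact d1.mul (((hA.mul d2).neg.cexp).add (hA.mul d5))

/-- **the correction is admissible** -/
theorem goN_gOA (hA : GA A) (hx : Rws x) (hW : ∀ w ∈ W, |w.re| ≤ l / 2) :
    GOn (K2P (-(29 / 20 * l))) (4 / 3) (gOA A W x) where
  meas := meas_gOA hA.meas hx hW
  diff z hz := diff_gOA hx hW (K2_KKP hz) (hA.diff z (K2_KW hz))
  bd := by
    have hl := lpos
    have hX := re_app hx hW
    have hx' : ∀ w ∈ List.ofFn x, |w.re| ≤ l / 2 := by
      intro w hw
      exact re_app (W := []) hx (by simp) w (by simpa using hw)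
    obtain ⟨D, hD⟩ := dec_phX hA hX (a := 8 / 3) (by norm_num)
    obtain ⟨C, hC, hC1⟩ := (gOk_pP hx').bd
    obtain ⟨T, hT, H⟩ := pP_one hx'
    -- the box
    have hcpt : IsCompact (Set.Icc (-(29 / 20 * l)) (-(l / 2)) ×ℂ Set.Icc (-T) T) :=
      isCompact_Icc.reProdIm isCompact_Icc
    have hcon : ContinuousOn (fun z => 1 - gOA A W x z)
        (Set.Icc (-(29 / 20 * l)) (-(l / 2)) ×ℂ Set.Icc (-T) T) := fun z hz =>
      ((diff_gOA hx hW (K2_KKP (t := z.re) hz.1) (hA.diff z (K2_KW hz.1))).const_sub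
        1).continuousAt.continuousWithinAt
    obtain ⟨M, hM⟩ := hcpt.exists_bound_of_continuousOn hcon
    refine ⟨|M| * Real.exp (8 / 3 * T) + 5 / 4 * (C + |D|), by positivity, fun z hz => ?_⟩
    have hE := Real.exp_pos (-(2 * (4 / 3)) * |z.im|)
    rcases le_total |z.im| T with h | h
    · have h1 := hM z ⟨hz, (abs_le.1 h)⟩
      have h2 : 1 ≤ Real.exp (8 / 3 * T) * Real.exp (-(2 * (4 / 3)) * |z.im|) := by
        rw [← Real.exp_add]
        refine Real.one_le_exp ?_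
        linarith
      calc ‖1 - gOA A W x z‖ ≤ |M| * 1 := by rw [mul_one]; exact h1.trans (le_abs_self _)
        _ ≤ |M| * (Real.exp (8 / 3 * T) * Real.exp (-(2 * (4 / 3)) * |z.im|)) :=
            mul_le_mul_of_nonneg_left h2 (abs_nonneg _)
        _ = |M| * Real.exp (8 / 3 * T) * Real.exp (-(2 * (4 / 3)) * |z.im|) := by ring
        _ ≤ _ := mul_le_mul_of_nonneg_right (by
            have : 0 ≤ 5 / 4 * (C + |D|) := by positivity
            linarith) hE.le
    · have h1 := H z hz h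
      obtain ⟨Q, hQ⟩ : ∃ Q, Q = pP (List.ofFn x) z := ⟨_, rfl⟩
      rw [← hQ] at h1
      have hQ1 : 4 / 5 ≤ ‖Q‖ := by
        have := norm_sub_norm_le (1 : ℂ) (1 - Q)
        rw [norm_one, sub_sub_cancel, norm_sub_rev] at this
        linarith
      have e : (1 - gOA A W x z) * Q = (Q - 1) + phX A (List.ofFn x ++ W) z := by
        have h2 := ph_gOA A W x z
        have h3 : Q = ∏ i, psi (4 / 3) (z - x i) := by
          rw [hQ]
          have := pP_append x [] z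
          rw [List.append_nil] at this
          rw [this]
          unfold PBX.gP
          simp
        unfold PBX.ph at h2
        rw [← h3] at h2
        rw [← h2]
        ring
      have e2 : ‖1 - gOA A W x z‖ * ‖Q‖ ≤ (C + |D|) * Real.exp (-(2 * (4 / 3)) * |z.im|) := by
        rw [← norm_mul, e, add_mul]
        refine (norm_add_le _ _).trans (add_le_add ?_ ?_)
        · rw [norm_sub_rev, hQ]
          exact hC1 z (K2_KKP hz)
        · refine (hD z hz).trans ?_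
          have e3 : -(8 / 3 * |z.im|) = -(2 * (4 / 3)) * |z.im| := by ring
          rw [e3]
          exact mul_le_mul_of_nonneg_right (le_abs_self _) hE.le
      have h4 : ‖1 - gOA A W x z‖ ≤ 5 / 4 * (‖1 - gOA A W x z‖ * ‖Q‖) := by
        nlinarith [norm_nonneg (1 - gOA A W x z)]
      calc ‖1 - gOA A W x z‖ ≤ 5 / 4 * ((C + |D|) * Real.exp (-(2 * (4 / 3)) * |z.im|)) := by linarith
        _ = 5 / 4 * (C + |D|) * Real.exp (-(2 * (4 / 3)) * |z.im|) := by ring
        _ ≤ _ := mul_le_mul_of_nonneg_right (by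
            have : 0 ≤ |M| * Real.exp (8 / 3 * T) := by positivity
            linarith) hE.le

/-- **the cutoff decays at every rate** -/
theorem dec_gOA (hA : GA A) (hx : Rws x) (hW : ∀ w ∈ W, |w.re| ≤ l / 2) {a : ℝ} (ha : 0 ≤ a) :
    DecOn a (K2P (-(29 / 20 * l))) (ph (4 / 3) x (gOA A W x)) := by
  rw [ph_gOA_fun]
  exact dec_phX hA (re_app hx hW) ha

end gOA

/-! ### the transported exponent -/

/-- the derivative of `omA` -/
def omA' (T1 : ℝ) (w : ℂ) : ℂ :=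
  -(11 * Real.exp (-(11 / 2) * T1) * Complex.sin ((11 / 2 : ℝ) * (w + (31 / 32 * l : ℝ))))

theorem hasDerivAt_omA (T1 : ℝ) (w : ℂ) : HasDerivAt (omA T1) (omA' T1 w) w := by
  unfold omA omG omA'
  have h1 : HasDerivAt (fun w : ℂ => ((11 / 2 : ℝ) : ℂ) * (w + ((31 / 32 * l : ℝ) : ℂ)))
      (((11 / 2 : ℝ) : ℂ) * 1) w := (((hasDerivAt_id w).add_const _).const_mul _)
  have h2 := (h1.ccos).const_mul ((2 : ℂ) * ((Real.exp (-(11 / 2) * T1) : ℝ) : ℂ))
  refine h2.congr_deriv ?_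
  push_cast
  ring

lemma norm_sin_le_cosh (z : ℂ) : ‖Complex.sin z‖ ≤ Real.cosh z.im := by
  have h := norm_cos_le_cosh (z - (Real.pi / 2 : ℝ))
  have e : Complex.cos (z - (Real.pi / 2 : ℝ)) = Complex.sin z := by
    push_cast
    rw [Complex.cos_sub_pi_div_two]
  rw [e] at h
  simpa using h

theorem norm_omA'_le (T1 : ℝ) (w : ℂ) : ‖omA' T1 w‖ ≤ 11 * Real.exp (11 / 2 * (|w.im| - T1)) := by
  unfold omA'
  rw [norm_neg, norm_mul, norm_mul, Complex.norm_real, Real.norm_of_nonneg (Real.exp_pos _).le,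
    Complex.norm_ofNat]
  have h1 := norm_sin_le_cosh ((11 / 2 : ℝ) * (w + (31 / 32 * l : ℝ)))
  have e1 : ((11 / 2 : ℝ) * (w + (31 / 32 * l : ℝ)) : ℂ).im = 11 / 2 * w.im := by
    rw [Complex.im_ofReal_mul]
    simp
  rw [e1] at h1
  have h2 := cosh_le_exp_abs (11 / 2 * w.im)
  rw [abs_mul, abs_of_pos (by norm_num : (0 : ℝ) < 11 / 2)] at h2
  have e2 : Real.exp (11 / 2 * (|w.im| - T1)) = Real.exp (-(11 / 2) * T1) * Real.exp (11 / 2 * |w.im|) := by
    rw [← Real.exp_add]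
    ring_nf
  rw [e2]
  have := mul_le_mul_of_nonneg_left (h1.trans h2) (Real.exp_pos (-(11 / 2) * T1)).le
  nlinarith

theorem diff_omA' (T1 : ℝ) : Differentiable ℂ (omA' T1) := by
  unfold omA'
  fun_prop

/-- **the exponent transported by the field `X`**, affine in the parameter `θ` -/
def AmT (T1 η0 : ℝ) (X : ℂ → ℂ) (θ : ℂ) (w : ℂ) : ℂ :=
  omA T1 w - (θ - η0) * (I * X (w + 2 * l)) * omA' T1 w

theorem AmT_at (T1 η0 : ℝ) (X : ℂ → ℂ) : AmT T1 η0 X (η0 : ℂ) = omA T1 := by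
  funext w
  unfold AmT
  rw [sub_self, zero_mul, zero_mul, sub_zero]

/-- the field on the strings -/
structure FdS (B : ℝ) (X : ℂ → ℂ) : Prop where
  meas : Measurable X
  b0 : 0 ≤ B
  bd : ∀ w : ℂ, w.re ∈ KWo → ‖X (w + 2 * l)‖ ≤ B
  diff : ∀ w : ℂ, w.re ∈ KWo → DifferentiableAt ℂ X (w + 2 * l)

theorem gac_AmT {T1 η0 B : ℝ} {X : ℂ → ℂ} (hX : FdS B X) {θ : ℂ} (hθ : ‖θ - η0‖ * B ≤ 1 / 132) :
    GAc (3 * Real.exp (-(11 / 2 * T1))) (Real.exp (-(11 / 2 * T1)) / 10) (AmT T1 η0 X θ) := by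
  have key : ∀ z : ℂ, z.re ∈ KWo → ‖(θ - η0) * (I * X (z + 2 * l)) * omA' T1 z‖ ≤
      1 / 12 * (Real.exp (-(11 / 2 * T1)) * Real.exp (11 / 2 * |z.im|)) := by
    intro z hz
    have h1 := norm_omA'_le T1 z
    have e1 : Real.exp (11 / 2 * (|z.im| - T1)) = Real.exp (-(11 / 2 * T1)) * Real.exp (11 / 2 * |z.im|) := by
      rw [← Real.exp_add]
      ring_nf
    rw [e1] at h1
    rw [norm_mul, norm_mul, norm_mul, norm_I, one_mul]
    have h2 : ‖θ - η0‖ * ‖X (z + 2 * l)‖ ≤ 1 / 132 :=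
      (mul_le_mul_of_nonneg_left (hX.bd z hz) (norm_nonneg _)).trans hθ
    have h3 := mul_le_mul h2 h1 (norm_nonneg _) (by norm_num)
    refine h3.trans (le_of_eq ?_)
    ring
  have hE := Real.exp_pos (-(11 / 2 * T1))
  refine ⟨fun z hz => ?_, fun z hz p hp => ?_⟩
  · have h1 := (gac_omA T1).bd z hz
    have h2 := key z hz
    have h3 := norm_sub_le (omA T1 z) ((θ - η0) * (I * X (z + 2 * l)) * omA' T1 z)
    unfold AmT
    have h4 : 0 ≤ Real.exp (-(11 / 2 * T1)) * Real.exp (11 / 2 * |z.im|) := by positivity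
    nlinarith
  · have h1 := (gac_omA T1).pos z hz p hp
    have h2 := key z hz
    have hp1 : ‖p‖ ≤ 6 / 5 := by
      have := norm_sub_norm_le p 1
      rw [norm_one] at this
      linarith
    have h3 : ‖(θ - η0) * (I * X (z + 2 * l)) * omA' T1 z * p‖ ≤
        1 / 10 * (Real.exp (-(11 / 2 * T1)) * Real.exp (11 / 2 * |z.im|)) := by
      rw [norm_mul]
      refine (mul_le_mul h2 hp1 (norm_nonneg _) (by positivity)).trans (le_of_eq ?_)
      ring
    have h4 := (Complex.re_le_norm _).trans h3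
    unfold AmT
    rw [sub_mul, Complex.sub_re]
    linarith

/-- **the transported exponent is admissible** -/
theorem ga_AmT {T1 η0 B : ℝ} {X : ℂ → ℂ} (hX : FdS B X) {θ : ℂ} (hθ : ‖θ - η0‖ * B ≤ 1 / 132) :
    GA (AmT T1 η0 X θ) := by
  refine ⟨?_, fun z hz => ?_, _, _, by positivity, by positivity, gac_AmT hX hθ⟩
  · unfold AmT
    exact (diff_omA T1).continuous.measurable.sub
      ((((hX.meas.comp (measurable_id.add_const _)).const_mul I).const_mul (θ - η0)).mul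
        (diff_omA' T1).continuous.measurable)
  · unfold AmT
    have h1 : DifferentiableAt ℂ (fun w : ℂ => X (w + 2 * l)) z :=
      (hX.diff z hz).comp z (f := fun w : ℂ => w + 2 * l) (differentiableAt_id.add_const _)
    exact (diff_omA T1 z).sub (((h1.const_mul I).const_mul (θ - η0)).mul (diff_omA' T1 z))

/-! ### joint regularity in the parameter and the position -/

theorem diff_AmT {T1 η0 : ℝ} {X : ℂ → ℂ} {θ w : ℂ} (hX : DifferentiableAt ℂ X (w + 2 * l)) :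
    DifferentiableAt ℂ (fun p : ℂ × ℂ => AmT T1 η0 X p.1 p.2) (θ, w) := by
  unfold AmT
  have h2 : DifferentiableAt ℂ (fun p : ℂ × ℂ => p.2) (θ, w) := differentiableAt_snd
  have h1 : DifferentiableAt ℂ (fun p : ℂ × ℂ => p.1) (θ, w) := differentiableAt_fst
  have h3 : DifferentiableAt ℂ (fun p : ℂ × ℂ => X (p.2 + 2 * l)) (θ, w) :=
    DifferentiableAt.comp (g := X) (f := fun p : ℂ × ℂ => p.2 + 2 * l) (θ, w) hX (h2.add_const _)
  have h4 : DifferentiableAt ℂ (fun p : ℂ × ℂ => omA T1 p.2) (θ, w) :=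
    DifferentiableAt.comp (g := omA T1) (f := fun p : ℂ × ℂ => p.2) (θ, w) (diff_omA T1 w) h2
  have h5 : DifferentiableAt ℂ (fun p : ℂ × ℂ => omA' T1 p.2) (θ, w) :=
    DifferentiableAt.comp (g := omA' T1) (f := fun p : ℂ × ℂ => p.2) (θ, w) (diff_omA' T1 w) h2
  exact h4.sub (((h1.sub_const _).mul (h3.const_mul I)).mul h5)

/-- **the exponent is constant along the flow**, at the base parameter -/
theorem path_AmT {T1 η0 : ℝ} {X : ℂ → ℂ} {u : ℂ} (hX : DifferentiableAt ℂ X (u + 2 * l)) :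
    HasDerivAt (fun τ : ℝ => AmT T1 η0 X ((η0 : ℂ) + τ) (u + I * X (u + 2 * l) * τ)) 0 0 := by
  have hid : HasDerivAt (fun τ : ℝ => ((τ : ℝ) : ℂ)) 1 0 := by
    simpa using (hasDerivAt_id ((0 : ℝ) : ℂ)).comp_ofReal
  obtain ⟨ξ, hξ⟩ : ∃ ξ, ξ = X (u + 2 * l) := ⟨_, rfl⟩
  rw [← hξ]
  have hU : HasDerivAt (fun τ : ℝ => u + I * ξ * τ) (I * ξ) 0 := by
    simpa using (hid.const_mul (I * ξ)).const_add u
  have hU0 : u + I * ξ * ((0 : ℝ) : ℂ) = u := by simp
  have h1 : HasDerivAt (fun τ : ℝ => omA T1 (u + I * ξ * τ)) (omA' T1 u * (I * ξ)) 0 := by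
    have := (hasDerivAt_omA T1 (u + I * ξ * ((0 : ℝ) : ℂ))).comp_of_eq (0 : ℝ) hU rfl
    rw [hU0] at this
    exact this
  have h3 : DifferentiableAt ℝ (fun τ : ℝ => (I * X (u + I * ξ * τ + 2 * l)) * omA' T1 (u + I * ξ * τ)) 0 := by
    have hd : DifferentiableAt ℂ (fun w : ℂ => (I * X (w + 2 * l)) * omA' T1 w) (u + I * ξ * ((0 : ℝ) : ℂ)) := by
      rw [hU0]
      have h1 : DifferentiableAt ℂ (fun w : ℂ => X (w + 2 * l)) u :=
        hX.comp u (f := fun w : ℂ => w + 2 * l) (differentiableAt_id.add_const _)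
      exact (h1.const_mul I).mul (diff_omA' T1 u)
    exact (hd.restrictScalars ℝ).comp (0 : ℝ) hU.differentiableAt
  have h4 : HasDerivAt (fun τ : ℝ => (((η0 : ℂ) + τ - η0)) * ((I * X (u + I * ξ * τ + 2 * l)) *
      omA' T1 (u + I * ξ * τ))) (I * ξ * omA' T1 u) 0 := by
    have h5 : HasDerivAt (fun τ : ℝ => (η0 : ℂ) + τ - η0) 1 0 := by
      simpa using (hid.const_add (η0 : ℂ)).sub_const (η0 : ℂ)
    have h6 := h5.mul h3.hasDerivAt
    refine h6.congr_deriv ?_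
    simp only [ofReal_zero, add_zero, sub_self, zero_mul, one_mul, mul_zero, ← hξ]
  have h7 := h1.sub h4
  refine (h7.congr_deriv (by ring)).congr_of_eventuallyEq (Filter.Eventually.of_forall fun τ => ?_)
  show AmT T1 η0 X ((η0 : ℂ) + τ) (u + I * ξ * τ) = _
  unfold AmT
  simp only [Pi.sub_apply]
  ring

end PHK

end
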