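import Pool.Agent.PLX.NUSea.SEval

/-!
# The constant of the action of the transported two species gas, constituents with coefficients

`NUSea.PLX.Ev.main` for `F_a = ∑ k c * (if a = sp c then fq else fg) (j c) (z - τ c) + Ψ_a`, `k c` real.
-/

set_option autoImplicit false
set_option linter.unusedSectionVars false

open MeasureTheory Set Filter Topology Complex

namespace NUSea.PLX.Ev

open NUMF (l l_pos V w g lq lqg)
open NUKer NUAct
open NUSea NUSea.PLX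

noncomputable section

variable [Sea]

section

variable {ι : Type} [Fintype ι] {k : ι → ℝ} {sp : ι → Bool} {j τ : ι → ℝ} {Fe Ψ : Bool → ℂ → ℂ} {δ : ℝ}
  {s : Bool → ℝ}

lemma sum_gq6 (hsum : ∀ (a : Bool) (z : ℂ), |z.im| ≤ δ * l / 2 → Fe a z =
      ∑ c, (k c : ℂ) * (if a = sp c then NUO.fq (j c) else NUO.fg (j c)) (z - τ c) + Ψ a z) (a : Bool) {z : ℂ}
    (hz : |z.im| ≤ δ * l / 2) : Fe a z = ∑ c, (k c : ℂ) * gq (sp c) (j c) (τ c) a z + Ψ a z := hsum a z hz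

/-- **the potentials on the line** -/
theorem part_line6 (hδ : 0 < δ) (hδ1 : δ ≤ 2 / 7) (hj : ∀ c, NUO.Off δ (j c))
    (hF : ∀ a, Ext (δ * l / 2) (Fe a))
    (hsum : ∀ (a : Bool) (z : ℂ), |z.im| ≤ δ * l / 2 → Fe a z =
      ∑ c, (k c : ℂ) * (if a = sp c then NUO.fq (j c) else NUO.fg (j c)) (z - τ c) + Ψ a z) :
    (∑ a, ∫ t : ℝ, ((s a * P t : ℝ) : ℂ) * Fe a t).re =
      (∑ c, k c * O.clo s (sp c) (j c) (τ c)) +
        ∫ t : ℝ, P t * (s true * (Ψ true t).re + s false * (Ψ false t).re) := by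
  have hl := l_pos
  have hβ0 : 0 ≤ δ * l / 2 := by positivity
  obtain ⟨A, hA, HO⟩ := obj_gq hδ hδ1
  have him : ∀ t : ℝ, |(t : ℂ).im| ≤ δ * l / 2 := fun t => by
    rw [Complex.ofReal_im, abs_zero]
    exact hβ0
  have i1 : ∀ a, Integrable fun t : ℝ => ((s a * P t : ℝ) : ℂ) * Fe a t := fun a =>
    int_rF (s a) hβ0 (hF a)
  have i0 : ∀ a c, Integrable fun t : ℝ => ((s a * P t : ℝ) : ℂ) * gq (sp c) (j c) (τ c) a t := by
    intro a c
    obtain ⟨f1, f2, h⟩ := HO (sp c) (j c) (τ c) a (hj c)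
    exact int_rF (s a) hβ0 (h.ext hβ0)
  have i2 : ∀ a c, Integrable fun t : ℝ => (k c : ℂ) * (((s a * P t : ℝ) : ℂ) *
      gq (sp c) (j c) (τ c) a t) := fun a c => (i0 a c).const_mul _
  have i3 : ∀ a, Integrable fun t : ℝ => ∑ c, (k c : ℂ) * (((s a * P t : ℝ) : ℂ) *
      gq (sp c) (j c) (τ c) a t) := fun a => integrable_finsetSum _ fun c _ => i2 a c
  have e1 : ∀ a (t : ℝ), ((s a * P t : ℝ) : ℂ) * Fe a t =
      (∑ c, (k c : ℂ) * (((s a * P t : ℝ) : ℂ) * gq (sp c) (j c) (τ c) a t)) +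
        ((s a * P t : ℝ) : ℂ) * Ψ a t := by
    intro a t
    rw [sum_gq6 hsum a (him t), mul_add, Finset.mul_sum]
    congr 1
    exact Finset.sum_congr rfl fun c _ => by ring
  have i4 : ∀ a, Integrable fun t : ℝ => ((s a * P t : ℝ) : ℂ) * Ψ a t := by
    intro a
    refine ((i1 a).sub (i3 a)).congr (Eventually.of_forall fun t => ?_)
    simp only [Pi.sub_apply]
    rw [e1]
    ring
  have e2 : ∀ a, (∫ t : ℝ, ((s a * P t : ℝ) : ℂ) * Fe a t).re =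
      (∑ c, k c * (s a * if a = sp c then O.cloP (j c) (τ c) else O.cloC (j c) (τ c))) +
        ∫ t : ℝ, s a * P t * (Ψ a t).re := by
    intro a
    have h1 : (∫ t : ℝ, ((s a * P t : ℝ) : ℂ) * Fe a t) =
        (∑ c, ∫ t : ℝ, (k c : ℂ) * (((s a * P t : ℝ) : ℂ) * gq (sp c) (j c) (τ c) a t)) +
          ∫ t : ℝ, ((s a * P t : ℝ) : ℂ) * Ψ a t := by
      rw [← integral_finsetSum _ fun c _ => i2 a c, ← integral_add (i3 a) (i4 a)]
      exact integral_congr_ae (Eventually.of_forall (e1 a))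
    rw [h1, Complex.add_re, Complex.re_sum]
    congr 1
    · refine Finset.sum_congr rfl fun c _ => ?_
      rw [integral_const_mul, Complex.re_ofReal_mul,
        gq_line hδ (hj c) (sp c) a (τ c) (s a) (i0 a c)]
    · have h2 : (∫ t : ℝ, ((s a * P t : ℝ) : ℂ) * Ψ a t).re =
          ∫ t : ℝ, (((s a * P t : ℝ) : ℂ) * Ψ a t).re :=
        (Complex.reCLM.integral_comp_comm (i4 a)).symm
      rw [h2]
      simp_rw [Complex.re_ofReal_mul]
  have i5 : ∀ a, Integrable fun t : ℝ => s a * P t * (Ψ a t).re := by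
    intro a
    refine (i4 a).re.congr (Eventually.of_forall fun t => ?_)
    simp only [RCLike.re_to_complex, Complex.re_ofReal_mul]
  have e3 : (∫ t : ℝ, P t * (s true * (Ψ true t).re + s false * (Ψ false t).re)) =
      ∑ a, ∫ t : ℝ, s a * P t * (Ψ a t).re := by
    rw [Fintype.sum_bool, ← integral_add (i5 true) (i5 false)]
    exact integral_congr_ae (Eventually.of_forall fun t => by simp only; ring)
  rw [Complex.re_sum]
  simp_rw [e2]
  rw [Finset.sum_add_distrib, Finset.sum_comm, e3]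
  congr 1
  refine Finset.sum_congr rfl fun c _ => ?_
  rw [← Finset.mul_sum, clo_sum s (sp c) (j c) (τ c)]

/-- **the potentials on the paths** -/
theorem part_path6 {ε M b : ℝ} {e : ℝ → ℝ} {η η1 : Bool → ℝ → ℝ} (hδ : 0 < δ) (hδ1 : δ ≤ 2 / 7)
    (hj : ∀ c, NUO.Off δ (j c)) (hs : ∀ a, 0 ≤ s a) (hε : ε ≤ 1 / 20) (hεβ : ε ≤ δ * l / 2)
    (hc : ∀ a, Cur (s a) ε M b e (η a)) (hη : ∀ a t, HasDerivAt (η a) (η1 a t) t)
    (hF : ∀ a, Ext (δ * l / 2) (Fe a))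
    (hsum : ∀ (a : Bool) (z : ℂ), |z.im| ≤ δ * l / 2 → Fe a z =
      ∑ c, (k c : ℂ) * (if a = sp c then NUO.fq (j c) else NUO.fg (j c)) (z - τ c) + Ψ a z) :
    (∑ a, ∫ t, Bf (s a) (iD (η a)) (iD (η1 a)) t * Fe a (zt (iD (η a)) t)).re =
      (∑ c, k c * ∑ a, (∫ t, Bf (s a) (iD (η a)) (iD (η1 a)) t *
        gq (sp c) (j c) (τ c) a (zt (iD (η a)) t)).re) +
      ∑ a, (∫ t, Bf (s a) (iD (η a)) (iD (η1 a)) t * Ψ a (zt (iD (η a)) t)).re := by
  have hl := l_pos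
  have hβ0 : 0 ≤ δ * l / 2 := by positivity
  have hβ : δ * l / 2 ≤ l / 7 := by nlinarith
  obtain ⟨A, hA, HO⟩ := obj_gq hδ hδ1
  have him : ∀ a (t : ℝ), |(zt (iD (η a)) t).im| ≤ δ * l / 2 := fun a =>
    (path_of_cur_w (hs a) hε hεβ (hc a) (hη a)).im_le
  have i1 : ∀ a, Integrable fun t : ℝ => Bf (s a) (iD (η a)) (iD (η1 a)) t *
      Fe a (zt (iD (η a)) t) := fun a => int_B (hF a) hβ (hs a) hε hεβ (hc a) (hη a)
  have i0 : ∀ a c, Integrable fun t : ℝ => Bf (s a) (iD (η a)) (iD (η1 a)) t *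
      gq (sp c) (j c) (τ c) a (zt (iD (η a)) t) := by
    intro a c
    obtain ⟨f1, f2, h⟩ := HO (sp c) (j c) (τ c) a (hj c)
    exact int_B (h.ext hβ0) hβ (hs a) hε hεβ (hc a) (hη a)
  have i2 : ∀ a c, Integrable fun t : ℝ => (k c : ℂ) * (Bf (s a) (iD (η a)) (iD (η1 a)) t *
      gq (sp c) (j c) (τ c) a (zt (iD (η a)) t)) := fun a c => (i0 a c).const_mul _
  have i3 : ∀ a, Integrable fun t : ℝ => ∑ c, (k c : ℂ) * (Bf (s a) (iD (η a)) (iD (η1 a)) t *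
      gq (sp c) (j c) (τ c) a (zt (iD (η a)) t)) :=
    fun a => integrable_finsetSum _ fun c _ => i2 a c
  have e1 : ∀ a (t : ℝ), Bf (s a) (iD (η a)) (iD (η1 a)) t * Fe a (zt (iD (η a)) t) =
      (∑ c, (k c : ℂ) * (Bf (s a) (iD (η a)) (iD (η1 a)) t *
        gq (sp c) (j c) (τ c) a (zt (iD (η a)) t))) +
        Bf (s a) (iD (η a)) (iD (η1 a)) t * Ψ a (zt (iD (η a)) t) := by
    intro a t
    rw [sum_gq6 hsum a (him a t), mul_add, Finset.mul_sum]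
    congr 1
    exact Finset.sum_congr rfl fun c _ => by ring
  have i4 : ∀ a, Integrable fun t : ℝ => Bf (s a) (iD (η a)) (iD (η1 a)) t *
      Ψ a (zt (iD (η a)) t) := by
    intro a
    refine ((i1 a).sub (i3 a)).congr (Eventually.of_forall fun t => ?_)
    simp only [Pi.sub_apply]
    rw [e1]
    ring
  have e2 : ∀ a, (∫ t, Bf (s a) (iD (η a)) (iD (η1 a)) t * Fe a (zt (iD (η a)) t)).re =
      (∑ c, k c * (∫ t, Bf (s a) (iD (η a)) (iD (η1 a)) t *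
        gq (sp c) (j c) (τ c) a (zt (iD (η a)) t)).re) +
      (∫ t, Bf (s a) (iD (η a)) (iD (η1 a)) t * Ψ a (zt (iD (η a)) t)).re := by
    intro a
    have h1 : (∫ t, Bf (s a) (iD (η a)) (iD (η1 a)) t * Fe a (zt (iD (η a)) t)) =
        (∑ c, ∫ t, (k c : ℂ) * (Bf (s a) (iD (η a)) (iD (η1 a)) t *
          gq (sp c) (j c) (τ c) a (zt (iD (η a)) t))) +
          ∫ t, Bf (s a) (iD (η a)) (iD (η1 a)) t * Ψ a (zt (iD (η a)) t) := by
      rw [← integral_finsetSum _ fun c _ => i2 a c, ← integral_add (i3 a) (i4 a)]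
      exact integral_congr_ae (Eventually.of_forall (e1 a))
    rw [h1, Complex.add_re, Complex.re_sum]
    congr 1
    refine Finset.sum_congr rfl fun c _ => ?_
    rw [integral_const_mul, Complex.re_ofReal_mul]
  rw [Complex.re_sum]
  simp_rw [e2]
  rw [Finset.sum_add_distrib, Finset.sum_comm]
  congr 1
  exact Finset.sum_congr rfl fun c _ => (Finset.mul_sum _ _ _).symm

end


/-- **the constant of the action** -/
theorem main6 {δ : ℝ} (hδ : 0 < δ) (hδ1 : δ ≤ 2 / 7) : ∃ C : ℝ, 1 ≤ C ∧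
    ∀ (s : Bool → ℝ) (ε M b K R : ℝ) (e : ℝ → ℝ) (η η1 : Bool → ℝ → ℝ) (Fe Ψ : Bool → ℂ → ℂ)
      (ι : Type) [Fintype ι] (k : ι → ℝ) (sp : ι → Bool) (j τ t0 : ι → ℝ), (∀ a, 0 ≤ s a) →
      (∀ a, Cur (s a) ε M b e (η a)) → (∀ a t, HasDerivAt (η a) (η1 a t) t) → Com M s e η η1 →
      0 ≤ b → C * (b + 1) ^ 7 * ε ≤ 1 → 0 ≤ K →
      (∀ t t', |s true * P t * η true t - s true * P t' * η true t'| ≤ K * |t - t'|) →
      (∀ a, Ext (δ * l / 2) (Fe a)) → (∀ c, NUO.Off δ (j c)) → (∀ c, |τ c - t0 c| ≤ R) →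
      (∀ (a : Bool) (z : ℂ), |z.im| ≤ δ * l / 2 → Fe a z =
        ∑ c, (k c : ℂ) * (if a = sp c then NUO.fq (j c) else NUO.fg (j c)) (z - τ c) + Ψ a z) →
      |(gas s η η1 Fe).S - ((∑ c, k c * O.clo s (sp c) (j c) (τ c)) +
        (∫ t : ℝ, P t * (s true * (Ψ true t).re + s false * (Ψ false t).re)) -
        2 * Real.pi * (∑ c, k c * (NUO.wnu (j c) * (s true * P (t0 c) * η true (t0 c)))) +
        NUCR.bil (hd (s true) (η true) (η1 true)) (hd (s true) (η true) (η1 true)) -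
        ∑ a, (∫ t, Bf (s a) (iD (η a)) (iD (η1 a)) t * Ψ a (zt (iD (η a)) t)).re)| ≤
        C * (∑ c, |k c| * (1 + |NUO.wnu (j c)|)) * (M * ε + K * (1 + R)) + C * (b + 1) ^ 9 * M ^ 2 * ε := by
  have hl := l_pos
  obtain ⟨C1, hC1, H1⟩ := exists_S'
  obtain ⟨CE, hCE, HE⟩ := Ecur_bil
  obtain ⟨C2, hC2, H2⟩ := exists_one hδ hδ1
  have hdl : 0 < δ * l / 2 := by positivity
  refine ⟨20 + C1 + CE + C2 + 1 / (δ * l / 2), by
    have : 0 < 1 / (δ * l / 2) := by positivity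
    linarith, ?_⟩
  intro s ε M b K R e η η1 Fe Ψ ι _ k sp j τ t0 hs hc hη hcom hb hsm hK hKL hF hj hR hsum
  have hε0 := (hc true).ε0
  have hM0 := (hc true).M0 (hs true)
  have hR7 : 1 ≤ (b + 1) ^ 7 := one_le_pow₀ (by linarith)
  obtain ⟨X, hX⟩ : ∃ X : ℝ, X = (b + 1) ^ 7 * ε := ⟨_, rfl⟩
  have hX0 : 0 ≤ X := by rw [hX]; positivity
  have hεX : ε ≤ X := by rw [hX]; exact le_mul_of_one_le_left hε0 hR7
  have hi : 0 < 1 / (δ * l / 2) := by positivity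
  have hsm' : (20 + C1 + CE + C2 + 1 / (δ * l / 2)) * X ≤ 1 := by
    rw [hX]
    refine le_trans (le_of_eq ?_) hsm
    ring
  have q1 : 0 ≤ C1 * X := by positivity
  have q2 : 0 ≤ C2 * X := by positivity
  have q3 : 0 ≤ 1 / (δ * l / 2) * X := by positivity
  have q4 : 0 ≤ CE * X := by positivity
  have hε20 : ε ≤ 1 / 20 := by linarith
  have hεδ : ε ≤ δ * l / 2 := by
    have : 1 / (δ * l / 2) * X ≤ 1 := by linarith
    rw [one_div, inv_mul_le_iff₀ hdl, mul_one] at this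
    linarith
  have s1 : C1 * (b + 1) ^ 7 * ε ≤ 1 := by
    have e1 : C1 * (b + 1) ^ 7 * ε = C1 * X := by rw [hX]; ring
    rw [e1]
    linarith
  have a1 := H1 (b + 1) (by linarith) (by linarith) hs hc hη s1 Fe
  have a2 := HE hs hb hε20 hc hη hcom
  rw [Complex.sub_re, part_line6 hδ hδ1 hj hF hsum, part_path6 hδ hδ1 hj hs hε20 hεδ hc hη hF hsum] at a1
  have hsumc : |∑ c, (-(k c * ∑ a, (∫ t, Bf (s a) (iD (η a)) (iD (η1 a)) t *
        gq (sp c) (j c) (τ c) a (zt (iD (η a)) t)).re) +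
      2 * Real.pi * (k c * (NUO.wnu (j c) * (s true * P (t0 c) * η true (t0 c)))))| ≤
      C2 * (∑ c, |k c| * (1 + |NUO.wnu (j c)|)) * (M * ε + K * (1 + R)) := by
    have e0 : C2 * (∑ c, |k c| * (1 + |NUO.wnu (j c)|)) * (M * ε + K * (1 + R)) =
        ∑ c, |k c| * (C2 * (1 + |NUO.wnu (j c)|) * (M * ε + K * (1 + R))) := by
      rw [Finset.mul_sum, Finset.sum_mul]
      exact Finset.sum_congr rfl fun c _ => by ring
    rw [e0]
    refine (Finset.abs_sum_le_sum_abs _ _).trans (Finset.sum_le_sum fun c _ => ?_)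
    have h := H2 (sp c) (j c) (τ c) (t0 c) hs hε20 hεδ hc hη hcom hK hKL (hj c) (hR c)
    rw [show -(k c * ∑ a, (∫ t, Bf (s a) (iD (η a)) (iD (η1 a)) t *
      gq (sp c) (j c) (τ c) a (zt (iD (η a)) t)).re) +
      2 * Real.pi * (k c * (NUO.wnu (j c) * (s true * P (t0 c) * η true (t0 c)))) =
      k c * (-(∑ a, (∫ t, Bf (s a) (iD (η a)) (iD (η1 a)) t *
      gq (sp c) (j c) (τ c) a (zt (iD (η a)) t)).re) +
      2 * Real.pi * (NUO.wnu (j c) * (s true * P (t0 c) * η true (t0 c)))) by ring, abs_mul]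
    exact mul_le_mul_of_nonneg_left h (abs_nonneg _)
  rw [Finset.sum_add_distrib, Finset.sum_neg_distrib, ← Finset.mul_sum] at hsumc
  obtain ⟨N, hN⟩ : ∃ N : ℝ, N = ∑ c, |k c| * (1 + |NUO.wnu (j c)|) := ⟨_, rfl⟩
  rw [← hN] at hsumc ⊢
  have hN0 : 0 ≤ N := by rw [hN]; exact Finset.sum_nonneg fun c _ => by positivity
  have hG : 0 ≤ N * (M * ε + K * (1 + R)) := by
    rcases isEmpty_or_nonempty ι with hE | ⟨⟨c⟩⟩
    · have : N = 0 := by rw [hN, Finset.univ_eq_empty, Finset.sum_empty]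
      rw [this, zero_mul]
    · have hR0 : 0 ≤ R := (abs_nonneg _).trans (hR c)
      positivity
  have g1 : C2 * N * (M * ε + K * (1 + R)) ≤
      (20 + C1 + CE + C2 + 1 / (δ * l / 2)) * N * (M * ε + K * (1 + R)) := by
    rw [mul_assoc, mul_assoc]
    exact mul_le_mul_of_nonneg_right (by linarith) hG
  have g2 : C1 * (b + 1) ^ 9 * (M ^ 2 * ε) + CE * (b + 1) ^ 3 * (M ^ 2 * ε) ≤
      (20 + C1 + CE + C2 + 1 / (δ * l / 2)) * (b + 1) ^ 9 * M ^ 2 * ε := by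
    have h9 : 0 ≤ (b + 1) ^ 9 * (M ^ 2 * ε) := by positivity
    have h39 : (b + 1) ^ 3 ≤ (b + 1) ^ 9 := pow_le_pow_right₀ (by linarith) (by norm_num)
    have hMM : 0 ≤ M ^ 2 * ε := by positivity
    calc C1 * (b + 1) ^ 9 * (M ^ 2 * ε) + CE * (b + 1) ^ 3 * (M ^ 2 * ε) ≤
          C1 * (b + 1) ^ 9 * (M ^ 2 * ε) + CE * (b + 1) ^ 9 * (M ^ 2 * ε) := by gcongr
      _ = (C1 + CE) * ((b + 1) ^ 9 * (M ^ 2 * ε)) := by ring
      _ ≤ (20 + C1 + CE + C2 + 1 / (δ * l / 2)) * ((b + 1) ^ 9 * (M ^ 2 * ε)) :=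
          mul_le_mul_of_nonneg_right (by linarith) h9
      _ = _ := by ring
  rw [abs_le] at hsumc a1 a2 ⊢
  constructor <;> linarith [hsumc.1, hsumc.2, a1.1, a1.2, a2.1, a2.2]

end

end NUSea.PLX.Ev
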