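import Pool.Agent.PHK.WordTh1
import Pool.Agent.PHK.ClsB6

/-!
# The word identities (P) of the classes without zeros

* **`wordThB`** : `WordThB`; **`wordTh`** : `WordTh`.
-/

set_option autoImplicit false

noncomputable section

namespace PHK

/-- **the word identities (P)** -/
theorem wordThB : WordThB := fun _ _ _ _ _ _ _ hP _ hm hD hA hdel hF =>
  wordP_base hP hm hD hA hdel hF

theorem wordTh : Pool.Agent.PLX.WordTh := wordTh_of wordThB

end PHK

end
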