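import Pool.Agent.PHK.I1G6
import Pool.Agent.PHK.CutAll6
import Pool.Agent.PHK.BordI
import Pool.Agent.PHK.WordThB

/-!
# (P): the first Ward identity of the dislocated function

* **`hD6_W`**: `HD6 c`, `0 ≤ c ≤ 13/20`, from `WordThB` (the certificate and the cut term are plugged in);
* **`hD6_half`**: `HD6 (1 / 2)` for every filling, no hypothesis.
-/

set_option autoImplicit false

noncomputable section

namespace PBI.PLX

open _root_.PLX (Fil)
open PHK (WordThB par6 enC6 StabE stabProd_par6)

/-- **`HD6`** from the base statement of the word theorem -/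
theorem hD6_W [Fil] (hW : WordThB) {c : ℝ} (hc0 : 0 ≤ c) (hc : c ≤ 13 / 20) : PBLX.PLX.HD6 c :=
  hD_fin6 (clsB6_of hW) (PBU.PLX.stabE6 stabProd_par6)
    (cutAll6 (clsB6_of hW) (PBU.PLX.stabE6 stabProd_par6)) hc0 hc

/-- **`HD6 (1 / 2)`** for every filling -/
theorem hD6_half (F : Fil) : @PBLX.PLX.HD6 F (1 / 2) :=
  @hD6_W F PHK.wordThB _ (by norm_num) (by norm_num)

end PBI.PLX

end
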