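import Pool.Agent.PHK.Qua
import Pool.Agent.PHK.Lines
import Pool.Agent.PHD.HolL
import Pool.Agent.PHD.Two

/-!
# Signed gas of holes and quanta: pair weights, energy bound, integrability, Fubini

* `gpw s ε z`: pair weight of charges `ε i` of species `s i` at `z i`; `gpw_sum`;
* `PPi_bound`: the inverse of the pair function; **`sg_bound`**: the energy bound;
* `adH`: field of holes; **`intHQ`**: holes and quanta, integrable; **`swapHQ`**: Fubini.
-/

set_option autoImplicit false
set_option linter.unusedSectionVars false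

noncomputable section

open Complex MeasureTheory NUP1 Set Filter Topology
open scoped Real
open Pool.Agent.PHD (one QP JJ oP xP JJ2)
open Pool.Agent.PHK (lM lG lK meas_lG int_w integrable_lM lG_re lG_im)
open NUP1.Bd (qg)

namespace NUP1S

variable {pl : Bool → Finset ℂ} {κ x y R : ℝ}

/-! ### the inverse of the pair functions -/

theorem PPi_bound {w δ : ℝ} (hw : w < l) (hδ : 0 < δ) : ∃ C : ℝ, 1 ≤ C ∧
    ∀ (s s' : Bool) (z : ℂ), |z.re| ≤ w → δ ≤ |z.re| →
      ‖(PP s s' z)⁻¹‖ ≤ C * Real.exp (-(2 * ((sg s * sg s' : ℤ) * |z.im|))) := by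
  have hl := Bd.l_pos
  have hpi := Bd.pi_eq
  have hpi0 := Real.pi_pos
  set m : ℝ := min (Real.sin δ) (min (Real.sin l) (Real.cos l)) / 2 with hm
  rcases lt_or_ge w δ with hwd | hwd
  · exact ⟨1, le_rfl, fun s s' z h1 h2 => absurd (h2.trans h1) (not_le.2 hwd)⟩
  have hw0 : 0 < w := hδ.trans_le hwd
  have s1 : 0 < Real.sin δ := Real.sin_pos_of_pos_of_lt_pi hδ (by linarith)
  have s2 : 0 < Real.sin l := Real.sin_pos_of_pos_of_lt_pi hl (by linarith)
  have s3 : 0 < Real.cos l := Real.cos_pos_of_mem_Ioo ⟨by linarith, by linarith⟩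
  have hm0 : 0 < m := by
    rw [hm]
    have := lt_min s1 (lt_min s2 s3)
    linarith
  have m1 : m ≤ Real.sin δ / 2 := by
    rw [hm]
    have := min_le_left (Real.sin δ) (min (Real.sin l) (Real.cos l))
    linarith
  have m2 : m ≤ Real.sin l / 2 := by
    rw [hm]
    have := (min_le_right (Real.sin δ) (min (Real.sin l) (Real.cos l))).trans (min_le_left _ _)
    linarith
  have m3 : m ≤ Real.cos l / 2 := by
    rw [hm]
    have := (min_le_right (Real.sin δ) (min (Real.sin l) (Real.cos l))).trans (min_le_right _ _)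
    linarith
  have mle : m ≤ 1 / 2 := by
    have := Real.sin_le_one l
    linarith
  have mi1 : 1 ≤ m⁻¹ := (one_le_inv₀ hm0).2 (by linarith)
  refine ⟨(m⁻¹) ^ 4, one_le_pow₀ mi1, fun s s' z hz hz' => ?_⟩
  obtain ⟨z1, z2⟩ := abs_le.1 hz
  set E := Real.exp |z.im| with hE
  have hE0 : 0 < E := Real.exp_pos _
  -- upper bounds
  have up : ∀ w : ℂ, w.im = z.im → ‖sin w‖ ≤ E := fun w hw => by
    have := Pool.Agent.PHD.sin_up w
    rwa [hw] at this
  -- lower bounds
  have lo : ∀ w : ℂ, w.im = z.im → 2 * m ≤ |Real.sin w.re| → m * E ≤ ‖sin w‖ := fun w hw h => by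
    have h1 := Pool.Agent.PHD.sin_low w
    rw [hw] at h1
    nlinarith
  have l0 : m * E ≤ ‖sin z‖ := by
    refine lo z rfl ?_
    have h1 : Real.sin δ ≤ Real.sin |z.re| :=
      Real.sin_le_sin_of_le_of_le_pi_div_two (by linarith) (by linarith) hz'
    have h2 : Real.sin |z.re| = |Real.sin z.re| := by
      rcases abs_cases z.re with ⟨h3, h4⟩ | ⟨h3, h4⟩
      · rw [h3, abs_of_nonneg (Real.sin_nonneg_of_nonneg_of_le_pi h4 (by linarith))]
      · rw [h3, Real.sin_neg, abs_of_nonpos]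
        have := Real.sin_nonneg_of_nonneg_of_le_pi (x := -z.re) (by linarith) (by linarith)
        rw [Real.sin_neg] at this
        linarith
    rw [← h2]
    linarith
  have l2 : m * E ≤ ‖sin (z + 2 * l)‖ := by
    have e : (z + 2 * (l : ℂ)).re = z.re + 2 * l := by simp
    refine lo _ (by simp) ?_
    rw [e]
    have h1 : Real.sin l ≤ Real.sin (z.re + 2 * l) := by
      rcases le_total (z.re + 2 * l) (Real.pi / 2) with h | h
      · exact Real.sin_le_sin_of_le_of_le_pi_div_two (by linarith) h (by linarith)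
      · rw [← Real.sin_pi_sub (z.re + 2 * l)]
        exact Real.sin_le_sin_of_le_of_le_pi_div_two (by linarith) (by linarith) (by linarith)
    have := le_abs_self (Real.sin (z.re + 2 * l))
    linarith
  have l2' : m * E ≤ ‖sin (z - 2 * l)‖ := by
    have e : (z - 2 * (l : ℂ)).re = z.re - 2 * l := by simp
    refine lo _ (by simp) ?_
    rw [e]
    have h1 : Real.sin l ≤ Real.sin (2 * l - z.re) := by
      rcases le_total (2 * l - z.re) (Real.pi / 2) with h | h
      · exact Real.sin_le_sin_of_le_of_le_pi_div_two (by linarith) h (by linarith)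
      · rw [← Real.sin_pi_sub (2 * l - z.re)]
        exact Real.sin_le_sin_of_le_of_le_pi_div_two (by linarith) (by linarith) (by linarith)
    have h2 : Real.sin (2 * l - z.re) = -Real.sin (z.re - 2 * l) := by
      rw [← Real.sin_neg]
      ring_nf
    have := neg_abs_le (Real.sin (z.re - 2 * l))
    linarith
  have lc : m * E ≤ ‖cos z‖ := by
    have e0 : cos z = sin (z + Real.pi / 2) := by
      rw [Complex.sin_add_pi_div_two]
    rw [e0]
    have e : (z + (Real.pi : ℂ) / 2).re = z.re + Real.pi / 2 := by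
      have : ((Real.pi : ℂ) / 2) = ((Real.pi / 2 : ℝ) : ℂ) := by push_cast; rfl
      rw [this, Complex.add_re, Complex.ofReal_re]
    have e' : (z + (Real.pi : ℂ) / 2).im = z.im := by
      have : ((Real.pi : ℂ) / 2) = ((Real.pi / 2 : ℝ) : ℂ) := by push_cast; rfl
      rw [this, Complex.add_im, Complex.ofReal_im, add_zero]
    refine lo _ e' ?_
    rw [e, Real.sin_add_pi_div_two]
    have h1 : Real.cos l ≤ Real.cos |z.re| :=
      Real.cos_le_cos_of_nonneg_of_le_pi (abs_nonneg _) (by linarith) (by linarith)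
    rw [Real.cos_abs] at h1
    have := le_abs_self (Real.cos z.re)
    linarith
  have hmE : 0 < m * E := mul_pos hm0 hE0
  have key1 : ‖(q z)⁻¹‖ ≤ (m⁻¹) ^ 4 * Real.exp (-(2 * |z.im|)) := by
    unfold q
    rw [norm_inv, norm_div, norm_neg, norm_mul, norm_mul, norm_mul, norm_pow, inv_div]
    have u1 := up (z + l) (by simp)
    have u2 := up (z - l) (by simp)
    calc ‖sin (z + l)‖ * ‖sin (z - l)‖ / (‖sin z‖ ^ 2 * ‖sin (z + 2 * l)‖ * ‖sin (z - 2 * l)‖)
        ≤ E * E / ((m * E) ^ 2 * (m * E) * (m * E)) := by gcongr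
      _ = (m⁻¹) ^ 4 * (E * E)⁻¹ := by field_simp
      _ = _ := by rw [Real.exp_neg, two_mul, Real.exp_add]
  have key2 : ‖(qg z)⁻¹‖ ≤ (m⁻¹) ^ 4 * Real.exp (2 * |z.im|) := by
    unfold qg
    rw [norm_inv, norm_div, norm_mul, norm_pow, norm_pow, norm_pow, inv_div]
    have u1 := up (z + 3 * l) (by simp)
    have u2 := up (z - 3 * l) (by simp)
    have h4 : (m⁻¹) ^ 2 ≤ (m⁻¹) ^ 4 := pow_le_pow_right₀ mi1 (by norm_num)
    calc ‖sin (z + 3 * l)‖ ^ 2 * ‖sin (z - 3 * l)‖ ^ 2 / ‖cos z‖ ^ 2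
        ≤ E ^ 2 * E ^ 2 / (m * E) ^ 2 := by gcongr
      _ = (m⁻¹) ^ 2 * (E * E) := by field_simp
      _ ≤ (m⁻¹) ^ 4 * (E * E) := by gcongr
      _ = _ := by rw [two_mul |z.im|, Real.exp_add]
  unfold PP
  cases s <;> cases s' <;> simp only [sg, if_true, if_false, reduceCtorEq, Bool.false_eq_true]
  · refine key1.trans (le_of_eq ?_)
    norm_num
  · refine key2.trans (le_of_eq ?_)
    norm_num
  · refine key2.trans (le_of_eq ?_)
    norm_num
  · refine key1.trans (le_of_eq ?_)
    norm_num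

/-! ### signed charges -/

/-- pair weight of a family of signed charges -/
def gpw {J : Type*} [Fintype J] (s : J → Bool) (ε : J → ℤ) (z : J → ℂ) : ℂ :=
  PU fun i j => PP (s i) (s j) (z i - z j) ^ (ε i * ε j)

theorem gpw_symm {J : Type*} (s : J → Bool) (ε : J → ℤ) (z : J → ℂ) (i j : J) :
    PP (s i) (s j) (z i - z j) ^ (ε i * ε j) = PP (s j) (s i) (z j - z i) ^ (ε j * ε i) := by
  rw [PP_comm, ← PP_neg, neg_sub, mul_comm (ε i)]

theorem gpw_sum {J J' : Type*} [Fintype J] [Fintype J'] (s : J ⊕ J' → Bool) (ε : J ⊕ J' → ℤ)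
    (z : J ⊕ J' → ℂ) : gpw s ε z = gpw (fun i => s (.inl i)) (fun i => ε (.inl i))
      (fun i => z (.inl i)) * gpw (fun i => s (.inr i)) (fun i => ε (.inr i))
      (fun i => z (.inr i)) * ∏ a, ∏ b, PP (s (.inl a)) (s (.inr b)) (z (.inl a) - z (.inr b)) ^
        (ε (.inl a) * ε (.inr b)) := by
  unfold gpw
  rw [PU_sum (gpw_symm s ε z)]

/-- bound of the pair functions and their inverses -/
def PBd (w δ C : ℝ) : Prop := 1 ≤ C ∧ ∀ (s s' : Bool) (n : ℤ) (z : ℂ), |z.re| ≤ w →
  (n = 1 ∨ (n = -1 ∧ δ ≤ |z.re|)) → ‖PP s s' z ^ n‖ ≤ C * Real.exp (2 * ((n * (sg s * sg s') : ℤ) * |z.im|))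

theorem exists_PBd {w δ : ℝ} (hw0 : 0 ≤ w) (hw : w < l) (hδ : 0 < δ) : ∃ C, PBd w δ C := by
  obtain ⟨C1, h1, h2⟩ := PP_bound hw0 hw
  obtain ⟨C2, h3, h4⟩ := PPi_bound hw hδ
  refine ⟨max C1 C2, h1.trans (le_max_left _ _), fun s s' n z hz hn => ?_⟩
  rcases hn with rfl | ⟨rfl, hd⟩
  · rw [zpow_one, one_mul]
    exact (h2 s s' z hz).trans (mul_le_mul_of_nonneg_right (le_max_left _ _) (Real.exp_pos _).le)
  · rw [zpow_neg_one]
    refine (h4 s s' z hz hd).trans ?_
    have e : -(2 * (((sg s * sg s' : ℤ) : ℝ) * |z.im|)) =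
        2 * (((-1 * (sg s * sg s') : ℤ) : ℝ) * |z.im|) := by
      push_cast
      ring
    rw [e]
    exact mul_le_mul_of_nonneg_right (le_max_right _ _) (Real.exp_pos _).le

/-- energy inequality, any index type -/
theorem energy_J {J : Type*} [Fintype J] (c : J → ℝ) (y : J → ℝ) :
    ∑ i, ∑ j, c i * c j * |y i - y j| ≤ 2 * (∑ i, c i) * ∑ i, c i * |y i| := by
  set e := (Fintype.equivFin J).symm
  have := energy_origin (fun i => c (e i)) fun i => y (e i)
  rw [← e.sum_comp (fun i => c i), ← e.sum_comp (fun i => c i * |y i|),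
    ← e.sum_comp (fun i => ∑ j, c i * c j * |y i - y j|)]
  have h : ∀ i, ∑ j, c (e i) * c j * |y (e i) - y j| =
      ∑ j, c (e i) * c (e j) * |y (e i) - y (e j)| := fun i =>
    (e.sum_comp fun j => c (e i) * c j * |y (e i) - y j|).symm
  simp only [h]
  exact this

/-- **the energy bound of a signed gas** -/
theorem sg_bound {w δ C : ℝ} (hC : PBd w δ C) {J : Type*} [Fintype J] (s : J → Bool) (ε : J → ℤ)
    (hε : ∀ i, ε i = 1 ∨ ε i = -1) (z : J → ℂ) (hz : ∀ i j, |(z i - z j).re| ≤ w)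
    (hz' : ∀ i j, ε i ≠ ε j → δ ≤ |(z i - z j).re|) (b : J → ℂ) (K κ : J → ℝ) (hK : ∀ i, 0 ≤ K i)
    {T : ℝ} (hT : ∑ i, ((ε i * sg (s i) : ℤ) : ℝ) = T)
    (hb : ∀ i, ‖b i‖ ≤ K i * Real.exp (-((κ i + 2 * T * ((ε i * sg (s i) : ℤ) : ℝ)) * |(z i).im|))) :
    ‖(∏ i, b i) * gpw s ε z‖ ≤ (∏ i, K i) * C ^ (Fintype.card J * Fintype.card J) *
      ∏ i, Real.exp (-(κ i * |(z i).im|)) := by
  set c : J → ℝ := fun i => ((ε i * sg (s i) : ℤ) : ℝ) with hc
  have hC0 : 0 ≤ C := zero_le_one.trans hC.1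
  have b1 : ‖gpw s ε z‖ ≤ C ^ (Fintype.card J * Fintype.card J) *
      Real.exp (∑ i, ∑ j, c i * c j * |(z i).im - (z j).im|) := by
    unfold gpw
    refine PU_norm_le _ (fun i j => c i * c j * |(z i).im - (z j).im|) (fun i j => ?_)
      (fun i => by simp) hC.1 fun i j _ => ?_
    · rw [abs_sub_comm]
      ring
    · have hn : ε i * ε j = 1 ∨ (ε i * ε j = -1 ∧ δ ≤ |(z i - z j).re|) := by
        rcases hε i with h1 | h1 <;> rcases hε j with h2 | h2
        · left; rw [h1, h2]; rfl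
        · right; refine ⟨by rw [h1, h2]; rfl, hz' i j (by rw [h1, h2]; decide)⟩
        · right; refine ⟨by rw [h1, h2]; rfl, hz' i j (by rw [h1, h2]; decide)⟩
        · left; rw [h1, h2]; rfl
      refine (hC.2 (s i) (s j) _ _ (hz i j) hn).trans (le_of_eq ?_)
      rw [sub_im]
      congr 2
      simp only [hc]
      push_cast
      ring
  have b2 : ‖∏ i, b i‖ ≤ ∏ i, (K i * Real.exp (-((κ i + 2 * T * c i) * |(z i).im|))) := by
    rw [norm_prod]
    exact Finset.prod_le_prod (fun _ _ => norm_nonneg _) fun i _ => hb i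
  have b3 := energy_J c fun i => (z i).im
  rw [hT] at b3
  have e1 : ∏ i, (K i * Real.exp (-((κ i + 2 * T * c i) * |(z i).im|))) =
      (∏ i, K i) * (∏ i, Real.exp (-(κ i * |(z i).im|))) *
        Real.exp (-(2 * T * ∑ i, c i * |(z i).im|)) := by
    rw [Finset.mul_sum, ← Finset.sum_neg_distrib, Real.exp_sum, ← Finset.prod_mul_distrib,
      ← Finset.prod_mul_distrib]
    refine Finset.prod_congr rfl fun i _ => ?_
    rw [show -((κ i + 2 * T * c i) * |(z i).im|) = -(κ i * |(z i).im|) +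
      -(2 * T * (c i * |(z i).im|)) by ring, Real.exp_add]
    ring
  have p1 : 0 ≤ ∏ i, K i := Finset.prod_nonneg fun i _ => hK i
  have p2 : 0 ≤ ∏ i, Real.exp (-(κ i * |(z i).im|)) :=
    Finset.prod_nonneg fun i _ => (Real.exp_pos _).le
  have p3 : 0 ≤ C ^ (Fintype.card J * Fintype.card J) := pow_nonneg hC0 _
  rw [norm_mul]
  calc ‖∏ i, b i‖ * ‖gpw s ε z‖ ≤ ((∏ i, K i) * (∏ i, Real.exp (-(κ i * |(z i).im|))) *
        Real.exp (-(2 * T * ∑ i, c i * |(z i).im|))) * (C ^ (Fintype.card J * Fintype.card J) *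
      Real.exp (∑ i, ∑ j, c i * c j * |(z i).im - (z j).im|)) := by
        rw [← e1]
        exact mul_le_mul b2 b1 (norm_nonneg _) (Finset.prod_nonneg fun i _ =>
          mul_nonneg (hK i) (Real.exp_pos _).le)
    _ = ((∏ i, K i) * C ^ (Fintype.card J * Fintype.card J) *
        ∏ i, Real.exp (-(κ i * |(z i).im|))) *
        Real.exp (∑ i, ∑ j, c i * c j * |(z i).im - (z j).im| - 2 * T * ∑ i, c i * |(z i).im|) := by
        rw [sub_eq_add_neg, Real.exp_add]
        ring
    _ ≤ _ := mul_le_of_le_one_right (mul_nonneg (mul_nonneg p1 p3) p2)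
        (Real.exp_le_one_iff.2 (by linarith))

/-! ### holes and quanta -/

/-- one body data in the presence of holes -/
def adH {ι : Type*} [Fintype ι] (g : Bool → ℂ → ℂ) (s : ι → Bool) (z : ι → ℂ) : Bool → ℂ → ℂ :=
  fun r u => g r u * ∏ i, (PP r (s i) (u - z i))⁻¹

/-- species of the holes -/
def hS (h h' : ℕ) : Fin h ⊕ Fin h' → Bool := Sum.elim (fun _ => true) (fun _ => false)

/-- positions of the holes -/
def hZ (xx : Bool → ℝ) {h h' : ℕ} (p : (Fin h → Bool × ℝ) × (Fin h' → Bool × ℝ)) :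
    Fin h ⊕ Fin h' → ℂ := Sum.elim (fun a => lG xx (p.1 a)) (fun b => lG xx (p.2 b))

/-- the weight of the holes -/
def hW (b : Bool → Bool × ℝ → ℂ) (xx : Bool → ℝ) {h h' : ℕ}
    (p : (Fin h → Bool × ℝ) × (Fin h' → Bool × ℝ)) : ℂ :=
  ((∏ a, b true (p.1 a)) * ∏ a, b false (p.2 a)) * gpw (hS h h') (fun _ => -1) (hZ xx p)

theorem gpw_holes (xx : Bool → ℝ) {h h' : ℕ} (p : (Fin h → Bool × ℝ) × (Fin h' → Bool × ℝ)) :
    gpw (hS h h') (fun _ => -1) (hZ xx p) = (QP q fun a => lG xx (p.1 a)) *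
      (QP q fun a => lG xx (p.2 a)) * xP (lG xx) (lG xx) qg p.1 p.2 := by
  rw [gpw_sum]
  unfold gpw xP
  have e : ((-1 : ℤ) * -1) = 1 := rfl
  simp only [hS, hZ, Sum.elim_inl, Sum.elim_inr, e, zpow_one]
  have e1 : ∀ z, PP true true z = q z := fun z => by simp [PP]
  have e2 : ∀ z, PP false false z = q z := fun z => by simp [PP]
  have e3 : ∀ z, PP true false z = qg z := fun z => by simp [PP]
  simp only [e1, e2, e3]
  rw [PU_QP, PU_QP]

theorem Fc_adH {ι ιh : Type*} [Fintype ι] [Fintype ιh] (g : Bool → ℂ → ℂ) (C : ι → Ct) (t : ι → ℝ)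
    (s : ιh → Bool) (z : ιh → ℂ) : Fc pl (adH g s z) C t = Fc pl g C t *
      ∏ a, ∏ i, (PP (C i).sp (s a) ((C i).pos (t i) - z a))⁻¹ := by
  unfold Fc
  have e : ∏ i, hh pl (adH g s z) (C i) (t i) = (∏ i, hh pl g (C i) (t i)) *
      ∏ a, ∏ i, (PP (C i).sp (s a) ((C i).pos (t i) - z a))⁻¹ := by
    rw [Finset.prod_comm, ← Finset.prod_mul_distrib]
    refine Finset.prod_congr rfl fun i _ => ?_
    unfold hh Wt adH
    ring
  rw [e]
  ring

/-- data of a gas of `h + h'` holes on the lines and of `a + a'` quanta on the line `y` -/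
structure HQ (pl : Bool → Finset ℂ) (g : Bool → ℂ → ℂ) (b : Bool → Bool × ℝ → ℂ) (xx : Bool → ℝ)
    (y : ℝ) (T : ℝ) : Prop where
  mg : ∀ s, Measurable fun t : ℝ => Wt pl g s (vl y t)
  mb : ∀ s, Measurable (b s)
  x12 : xx false < xx true
  x2y : xx true < y
  wd : y - xx false < l
  bg : ∃ κ D : ℝ, 0 < κ ∧ 0 ≤ D ∧ ∀ s (t : ℝ), ‖Wt pl g s (vl y t)‖ ≤
    D * Real.exp (-((κ + 2 * T * (sg s : ℤ)) * |t|))
  bb : ∃ κ D : ℝ, 0 < κ ∧ 0 ≤ D ∧ ∀ s (ξ : Bool × ℝ), ‖b s ξ‖ ≤
    D * Real.exp (-((κ - 2 * T * (sg s : ℤ)) * |ξ.2|))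

/-- the holes -/
abbrev HP (h h' : ℕ) : Type := (Fin h → Bool × ℝ) × (Fin h' → Bool × ℝ)

/-- the measure of the holes -/
abbrev nuH (h h' : ℕ) : Measure (HP h h') :=
  (Measure.pi fun _ : Fin h => lM).prod (Measure.pi fun _ : Fin h' => lM)

instance : SigmaFinite lM := by
  unfold lM
  infer_instance

variable {g : Bool → ℂ → ℂ} {b : Bool → Bool × ℝ → ℂ} {xx : Bool → ℝ} {T : ℝ} {h h' a a' : ℕ}

theorem meas_zpow {X : Type*} [MeasurableSpace X] {f : X → ℂ} (hf : Measurable f) (n : ℤ) :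
    Measurable fun x => f x ^ n := by
  rcases n with n | n
  · simp only [Int.ofNat_eq_natCast, zpow_natCast]
    exact hf.pow_const n
  · simp only [zpow_negSucc]
    exact (hf.pow_const _).inv

/-- all charges -/
def sJ (h h' a a' : ℕ) : (Fin h ⊕ Fin h') ⊕ (Fin a ⊕ Fin a') → Bool :=
  Sum.elim (hS h h') (Sum.elim (fun _ => true) (fun _ => false))

/-- signs -/
def eJ (h h' a a' : ℕ) : (Fin h ⊕ Fin h') ⊕ (Fin a ⊕ Fin a') → ℤ :=
  Sum.elim (fun _ => -1) (fun _ => 1)

/-- positions -/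
def zJ (xx : Bool → ℝ) (y : ℝ) (p : HP h h') (t : Fin a ⊕ Fin a' → ℝ) :
    (Fin h ⊕ Fin h') ⊕ (Fin a ⊕ Fin a') → ℂ := Sum.elim (hZ xx p) (fun i => vl y (t i))

/-- one body weights -/
def bJ (pl : Bool → Finset ℂ) (g : Bool → ℂ → ℂ) (b : Bool → Bool × ℝ → ℂ) (y : ℝ) (p : HP h h')
    (t : Fin a ⊕ Fin a' → ℝ) : (Fin h ⊕ Fin h') ⊕ (Fin a ⊕ Fin a') → ℂ :=
  Sum.elim (Sum.elim (fun i => b true (p.1 i)) (fun i => b false (p.2 i)))
    (fun i => hh pl g (qC y a a' i) (t i))

theorem qC_sp (y : ℝ) (a a' : ℕ) (i : Fin a ⊕ Fin a') :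
    (qC y a a' i).sp = Sum.elim (fun _ => true) (fun _ => false) i := by
  rcases i with i | i <;> rfl

theorem hWF_eq (p : HP h h') (t : Fin a ⊕ Fin a' → ℝ) :
    hW b xx p * Fc pl (adH g (hS h h') (hZ xx p)) (qC y a a') t =
      (∏ j, bJ pl g b y p t j) * gpw (sJ h h' a a') (eJ h h' a a') (zJ xx y p t) := by
  have e0 : ∏ j, bJ pl g b y p t j = (∏ i, bJ pl g b y p t (Sum.inl i)) *
      ∏ i, bJ pl g b y p t (Sum.inr i) := Fintype.prod_sum_type _
  rw [gpw_sum, Fc_adH, e0]
  unfold hW Fc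
  have e1 : ∏ i, bJ pl g b y p t (Sum.inl i) = (∏ i, b true (p.1 i)) * ∏ i, b false (p.2 i) := by
    rw [Fintype.prod_sum_type]
    rfl
  have e2 : gpw (fun i => sJ h h' a a' (Sum.inr i)) (fun i => eJ h h' a a' (Sum.inr i))
      (fun i => zJ xx y p t (Sum.inr i)) =
      PU fun i j => pwc (qC y a a' i) (qC y a a' j) (t i) (t j) := by
    unfold gpw
    refine PU_congr' fun i j => ?_
    unfold pwc sJ eJ zJ
    simp only [Sum.elim_inr, qC_sp, qC_pos, mul_one, zpow_one]
  have e3 : ∏ i, ∏ j, PP (sJ h h' a a' (Sum.inl i)) (sJ h h' a a' (Sum.inr j))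
      (zJ xx y p t (Sum.inl i) - zJ xx y p t (Sum.inr j)) ^
        (eJ h h' a a' (Sum.inl i) * eJ h h' a a' (Sum.inr j)) =
      ∏ i, ∏ j, (PP (qC y a a' j).sp (hS h h' i) ((qC y a a' j).pos (t j) - hZ xx p i))⁻¹ := by
    refine Finset.prod_congr rfl fun i _ => Finset.prod_congr rfl fun j _ => ?_
    unfold sJ eJ zJ
    simp only [Sum.elim_inl, Sum.elim_inr, qC_sp, qC_pos, mul_one, zpow_neg_one]
    rw [PP_comm, ← PP_neg, neg_sub]
  rw [e1, e2, e3]
  have e4 : gpw (fun i => sJ h h' a a' (Sum.inl i)) (fun i => eJ h h' a a' (Sum.inl i))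
      (fun i => zJ xx y p t (Sum.inl i)) = gpw (hS h h') (fun _ => -1) (hZ xx p) := rfl
  have e5 : ∏ i, bJ pl g b y p t (Sum.inr i) = ∏ i, hh pl g (qC y a a' i) (t i) := rfl
  rw [e4, e5]
  ring

theorem measurable_hZ (xx : Bool → ℝ) (i : Fin h ⊕ Fin h') :
    Measurable fun p : HP h h' => hZ xx p i := by
  rcases i with i | i
  · exact (meas_lG xx).comp ((measurable_pi_apply i).comp measurable_fst)
  · exact (meas_lG xx).comp ((measurable_pi_apply i).comp measurable_snd)

theorem measurable_zJ (xx : Bool → ℝ) (y : ℝ) (j : (Fin h ⊕ Fin h') ⊕ (Fin a ⊕ Fin a')) :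
    Measurable fun pt : HP h h' × (Fin a ⊕ Fin a' → ℝ) => zJ xx y pt.1 pt.2 j := by
  rcases j with i | i
  · exact (measurable_hZ xx i).comp measurable_fst
  · have h1 : Measurable fun t : ℝ => vl y t := by
      unfold vl
      fun_prop
    exact h1.comp ((measurable_pi_apply i).comp measurable_snd)

theorem HQ.measurable_hh (H : HQ pl g b xx y T) (i : Fin a ⊕ Fin a') :
    Measurable fun t : ℝ => hh pl g (qC y a a' i) t := by
  unfold hh
  simp only [qC_sp, qC_pos]
  refine Measurable.mul ?_ (H.mg _)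
  rcases i with i | i <;> exact measurable_const

theorem HQ.measurable_bJ (H : HQ pl g b xx y T) (j : (Fin h ⊕ Fin h') ⊕ (Fin a ⊕ Fin a')) :
    Measurable fun pt : HP h h' × (Fin a ⊕ Fin a' → ℝ) => bJ pl g b y pt.1 pt.2 j := by
  rcases j with (i | i) | i
  · exact (H.mb true).comp ((measurable_pi_apply i).comp (measurable_fst.comp measurable_fst))
  · exact (H.mb false).comp ((measurable_pi_apply i).comp (measurable_snd.comp measurable_fst))
  · exact (H.measurable_hh i).comp ((measurable_pi_apply i).comp measurable_snd)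

theorem exp_int {κ : ℝ} (hκ : 0 < κ) : Integrable fun t : ℝ => Real.exp (-(κ * |t|)) := by
  have := int_w (δ := κ) hκ
  rw [integrable_lM] at this
  exact this true

/-- **holes and quanta, integrable** -/
theorem intHQ (H : HQ pl g b xx y T) (hT : (a : ℝ) - a' - h + h' = T) :
    Integrable (fun pt : HP h h' × (Fin a ⊕ Fin a' → ℝ) =>
      hW b xx pt.1 * Fc pl (adH g (hS h h') (hZ xx pt.1)) (qC y a a') pt.2)
      ((nuH h h').prod (Measure.pi fun _ => volume)) := by
  obtain ⟨κ, D, hκ, hD, hbg⟩ := H.bg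
  obtain ⟨κ', D', hκ', hD', hbb⟩ := H.bb
  have hx := H.x12
  have hy := H.x2y
  have hw := H.wd
  obtain ⟨C, hC⟩ := exists_PBd (w := y - xx false) (δ := y - xx true) (by linarith) hw (by linarith)
  have i1 : Integrable (fun pt : HP h h' × (Fin a ⊕ Fin a' → ℝ) =>
      ((∏ i, Real.exp (-(κ' * |(pt.1.1 i).2|))) * ∏ i, Real.exp (-(κ' * |(pt.1.2 i).2|))) *
        ∏ i, Real.exp (-(κ * |pt.2 i|))) ((nuH h h').prod (Measure.pi fun _ => volume)) := by
    refine Integrable.mul_prod (f := fun p : HP h h' => (∏ i, Real.exp (-(κ' * |(p.1 i).2|))) *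
      ∏ i, Real.exp (-(κ' * |(p.2 i).2|))) (g := fun t : Fin a ⊕ Fin a' → ℝ =>
        ∏ i, Real.exp (-(κ * |t i|))) ?_ ?_
    · exact (Integrable.fintype_prod (f := fun _ (x : Bool × ℝ) => Real.exp (-(κ' * |x.2|)))
        fun _ => int_w hκ').mul_prod
        (Integrable.fintype_prod (f := fun _ (x : Bool × ℝ) => Real.exp (-(κ' * |x.2|)))
        fun _ => int_w hκ')
    · exact Integrable.fintype_prod (f := fun _ (x : ℝ) => Real.exp (-(κ * |x|)))
        fun _ => exp_int hκ
  simp only [hWF_eq]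
  set J := (Fin h ⊕ Fin h') ⊕ (Fin a ⊕ Fin a')
  set KJ : J → ℝ := Sum.elim (fun _ => D') (fun _ => (2 * π)⁻¹ * D) with hKJ
  set kJ : J → ℝ := Sum.elim (fun _ => κ') (fun _ => κ) with hkJ
  refine (i1.const_mul ((∏ i, KJ i) * C ^ (Fintype.card J * Fintype.card J))).mono' ?_
    (Eventually.of_forall fun pt => ?_)
  · refine Measurable.aestronglyMeasurable ?_
    refine (Finset.measurable_prod _ fun j _ => H.measurable_bJ j).mul ?_
    unfold gpw
    refine measurable_PU (fun i j (pt : HP h h' × (Fin a ⊕ Fin a' → ℝ)) =>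
      PP (sJ h h' a a' i) (sJ h h' a a' j) (zJ xx y pt.1 pt.2 i - zJ xx y pt.1 pt.2 j) ^
        (eJ h h' a a' i * eJ h h' a a' j)) fun i j => ?_
    exact meas_zpow ((measurable_PP _ _).comp ((measurable_zJ xx y i).sub (measurable_zJ xx y j))) _
  · obtain ⟨p, t⟩ := pt
    have hre : ∀ i : Fin h ⊕ Fin h', (hZ xx p i).re = xx false ∨ (hZ xx p i).re = xx true := by
      intro i
      rcases i with i | i
      · show (lG xx (p.1 i)).re = _ ∨ (lG xx (p.1 i)).re = _
        rw [lG_re]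
        cases (p.1 i).1
        · exact Or.inl rfl
        · exact Or.inr rfl
      · show (lG xx (p.2 i)).re = _ ∨ (lG xx (p.2 i)).re = _
        rw [lG_re]
        cases (p.2 i).1
        · exact Or.inl rfl
        · exact Or.inr rfl
    have hre1 : ∀ j : J, xx false ≤ (zJ xx y p t j).re ∧ (zJ xx y p t j).re ≤ y := by
      intro j
      rcases j with i | i
      · show xx false ≤ (hZ xx p i).re ∧ (hZ xx p i).re ≤ y
        rcases hre i with h1 | h1 <;> rw [h1] <;> constructor <;> linarith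
      · show xx false ≤ (vl y (t i)).re ∧ (vl y (t i)).re ≤ y
        rw [re_vl]
        constructor <;> linarith
    have key := sg_bound hC (sJ h h' a a') (eJ h h' a a') (fun j => by
        rcases j with i | i
        · exact Or.inr rfl
        · exact Or.inl rfl) (zJ xx y p t) (fun i j => by
          have h1 := hre1 i
          have h2 := hre1 j
          rw [sub_re, abs_le]
          constructor <;> linarith [h1.1, h1.2, h2.1, h2.2]) (fun i j hij => by
          rcases i with i | i <;> rcases j with j | j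
          · exact absurd rfl hij
          · rw [sub_re]
            show y - xx true ≤ |(hZ xx p i).re - (vl y (t j)).re|
            rw [re_vl, abs_sub_comm]
            refine le_trans ?_ (le_abs_self _)
            rcases hre i with h1 | h1 <;> rw [h1] <;> linarith
          · rw [sub_re]
            show y - xx true ≤ |(vl y (t i)).re - (hZ xx p j).re|
            rw [re_vl]
            refine le_trans ?_ (le_abs_self _)
            rcases hre j with h1 | h1 <;> rw [h1] <;> linarith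
          · exact absurd rfl hij) (bJ pl g b y p t) KJ kJ (fun j => by
            rcases j with i | i
            · exact hD'
            · show 0 ≤ (2 * π)⁻¹ * D
              positivity) (T := T) (by
              rw [Fintype.sum_sum_type, Fintype.sum_sum_type, Fintype.sum_sum_type, ← hT]
              simp [sJ, eJ, hS, sg]
              ring) (fun j => by
            rcases j with (i | i) | i
            · refine (hbb true (p.1 i)).trans (le_of_eq ?_)
              have e : (zJ xx y p t (Sum.inl (Sum.inl i))).im = (p.1 i).2 := lG_im _ _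
              rw [e]
              simp [KJ, kJ, eJ, sJ, hS, sg]
              try (left; left; ring)
            · refine (hbb false (p.2 i)).trans (le_of_eq ?_)
              have e : (zJ xx y p t (Sum.inl (Sum.inr i))).im = (p.2 i).2 := lG_im _ _
              rw [e]
              simp [KJ, kJ, eJ, sJ, hS, sg]
              try (left; left; ring)
            · have e : (zJ xx y p t (Sum.inr i)).im = t i := im_vl _ _
              rw [e]
              have e2 : ‖bJ pl g b y p t (Sum.inr i)‖ =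
                  (2 * π)⁻¹ * ‖Wt pl g (Sum.elim (fun _ => true) (fun _ => false) i) (vl y (t i))‖ := by
                show ‖hh pl g (qC y a a' i) (t i)‖ = _
                unfold hh
                rw [norm_mul, qC_sp, qC_pos]
                congr 1
                have : (qC y a a' i).om (t i) = (2 * π : ℂ)⁻¹ := by
                  rcases i with i | i <;> rfl
                rw [this, norm_inv, norm_mul, Complex.norm_real, Complex.norm_two,
                  Real.norm_of_nonneg Real.pi_pos.le]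
              rw [e2]
              refine (mul_le_mul_of_nonneg_left (hbg (Sum.elim (fun _ => true) (fun _ => false) i)
                (t i)) (by positivity)).trans (le_of_eq ?_)
              rw [← mul_assoc]
              simp [KJ, kJ, eJ, sJ])
    refine key.trans (le_of_eq ?_)
    congr 1
    rw [Fintype.prod_sum_type, Fintype.prod_sum_type]
    have e1 : ∀ i, (zJ xx y p t (Sum.inl (Sum.inl i))).im = (p.1 i).2 := fun i => lG_im _ _
    have e2 : ∀ i, (zJ xx y p t (Sum.inl (Sum.inr i))).im = (p.2 i).2 := fun i => lG_im _ _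
    have e3 : ∀ i, (zJ xx y p t (Sum.inr i)).im = t i := fun i => im_vl _ _
    simp only [e1, e2, e3]
    rfl

/-- **Fubini, holes and quanta** -/
theorem swapHQ (H : HQ pl g b xx y T) (hT : (a : ℝ) - a' - h + h' = T) :
    Integrable (fun t : Fin a ⊕ Fin a' → ℝ => Fc pl g (qC y a a') t *
      ∫ p : HP h h', hW b xx p * ∏ j, ∏ i,
        (PP (qC y a a' i).sp (hS h h' j) (vl y (t i) - hZ xx p j))⁻¹ ∂(nuH h h'))
      (Measure.pi fun _ => volume) ∧
    ∫ t : Fin a ⊕ Fin a' → ℝ, Fc pl g (qC y a a') t *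
      ∫ p : HP h h', hW b xx p * ∏ j, ∏ i,
        (PP (qC y a a' i).sp (hS h h' j) (vl y (t i) - hZ xx p j))⁻¹ ∂(nuH h h')
      ∂(Measure.pi fun _ => volume) =
    ∫ p : HP h h', hW b xx p * ∫ t : Fin a ⊕ Fin a' → ℝ,
      Fc pl (adH g (hS h h') (hZ xx p)) (qC y a a') t ∂(Measure.pi fun _ => volume)
      ∂(nuH h h') := by
  have hi := intHQ (a := a) (a' := a') (h := h) (h' := h') H hT
  have e : ∀ t : Fin a ⊕ Fin a' → ℝ, Fc pl g (qC y a a') t *
      ∫ p : HP h h', hW b xx p * ∏ j, ∏ i,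
        (PP (qC y a a' i).sp (hS h h' j) (vl y (t i) - hZ xx p j))⁻¹ ∂(nuH h h') =
      ∫ p : HP h h', hW b xx p * Fc pl (adH g (hS h h') (hZ xx p)) (qC y a a') t ∂(nuH h h') := by
    intro t
    rw [← integral_const_mul]
    refine integral_congr_ae (Eventually.of_forall fun p => ?_)
    simp only []
    rw [Fc_adH]
    simp only [qC_pos]
    ring
  constructor
  · simp only [e]
    exact hi.integral_prod_right
  · simp only [e]
    rw [integral_integral_swap (f := fun (t : Fin a ⊕ Fin a' → ℝ) (p : HP h h') =>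
      hW b xx p * Fc pl (adH g (hS h h') (hZ xx p)) (qC y a a') t) hi.swap]
    refine integral_congr_ae (Eventually.of_forall fun p => ?_)
    simp only []
    rw [integral_const_mul]

end NUP1S

end
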