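import Pool.Agent.PHK.ObResp6
import Pool.Agent.PLX.PB.LPoK

/-!
# (P): the closed form of the force of the objects

* **`LPo_eq6`**: `LPo6 P r O s z = kP6 P O s z`, everywhere (no hypothesis);
* `obF_eq6`, `obF_dAt6`, `obF_le6`, `obF_leR6`: the force at the height `z`, `|Im z| ≤ h l`, from
  `DsC P h c`;
* **`Pp_eq6`**: the response of the objects to `β` is `∑ i, kapO6`; **`Pp_le_plus6`**: in the plus
  channel it is bounded by pins.
-/

set_option autoImplicit false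
set_option linter.unusedSectionVars false

noncomputable section

open Complex MeasureTheory Finset Filter Topology

namespace PBWP.PLX

open NUO NUP1 NUCR NUP1S NUP1S.Ab NUP1S.AbC NUGC NUGC.PLX PBFunc PBFunc.PLX PBF PBF.PLX
open PHK

/-- **the two forms of the force of the objects agree** -/
theorem LPo_eq6 (P : Par6) {r : ℕ} (O : Fin r → Xo) (s : Bool) (z : ℂ) :
    LPo6 P r O s z = kP6 P O s z := by
  unfold LPo6 kP6 kO6 kls6
  refine Finset.sum_congr rfl fun i _ => ?_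
  congr 1
  exact List.map_congr_left fun b _ => by rw [lpp_eq s b.1 z]

/-! ### the force at the height `z` -/

section force

variable {P : Par6} {r : ℕ} {O : Fin r → Xo} {h c : ℝ}

theorem obF_eq6 (P : Par6) (O : Fin r → Xo) (s : Bool) (z : ℂ) :
    obF (LPo6 P) r O s z = I * kP6 P O s (NUP1.l + I * z) := by
  unfold obF
  rw [LPo_eq6]

theorem obF_dAt6 (hd : DsC P h c) (O : Fin r → Xo) (s : Bool) {z : ℂ}
    (hz : |z.im| ≤ h * NUP1.l) : DifferentiableAt ℂ (obF (LPo6 P) r O s) z := by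
  have e : obF (LPo6 P) r O s = fun z => I * kP6 P O s (NUP1.l + I * z) :=
    funext fun z => obF_eq6 P O s z
  rw [e]
  exact (PBOR.PLX.kP_dAt6 hd O s hz).const_mul I

theorem obF_le6 (hd : DsC P h c) (O : Fin r → Xo) (s : Bool) {z : ℂ}
    (hz : |z.im| ≤ h * NUP1.l) : ‖obF (LPo6 P) r O s z‖ ≤ r * (COc c + 4) := by
  rw [obF_eq6, norm_mul, norm_I, one_mul]
  exact PBOR.PLX.kP_lI_le6 hd O s hz

theorem obF_leR6 (hd : DsC P h c) (O : Fin r → Xo) (s : Bool) (t : ℝ) :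
    ‖obF (LPo6 P) r O s t‖ ≤ r * (COc c + 4) := by
  refine obF_le6 hd O s ?_
  have := Bd.l_pos
  rw [ofReal_im, abs_zero]
  exact mul_nonneg hd.h0 this.le

/-- the response of the objects -/
theorem Pp_eq6 (hP : GoodP6 P) (hj : P.j2 ≤ 19 / 20) (O : Fin r → Xo) {β : Bool → ℂ → ℂ}
    (hβ : ∀ s, Integrable fun t : ℝ => β s t) (a b : ℕ) (x : (Fin a → ℝ) × (Fin b → ℝ)) :
    Pp (LPo6 P) β r O a b x = ∑ i, PBOR.PLX.kapO6 P O i fun s t => β s t := by
  rw [← PBOR.PLX.sum_kapO6 hP hj O (β := fun s t => β s t) hβ]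
  unfold Pp
  refine Finset.sum_congr rfl fun s _ => integral_congr_ae (Eventually.of_forall fun t => ?_)
  simp only
  rw [obF_eq6]

/-- **in the plus channel the response of the objects is bounded by pins** -/
theorem Pp_le_plus6 (hP : GoodP6 P) (hj : P.j2 ≤ 19 / 20) (O : Fin r → Xo) {b κ q M : ℝ}
    {β : ℂ → ℂ} (hβ : PBE.TC (-b) b κ M β) (hb : 0 < b) (hκ : 0 < κ) (hκ2 : κ < 2) (hq : q ≤ κ)
    (hM : 0 ≤ M) (a b' : ℕ) (x : (Fin a → ℝ) × (Fin b' → ℝ)) :
    ‖Pp (LPo6 P) (fun _ => β) r O a b' x‖ ≤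
      PBOR.PLX.CK6 κ * M * ∑ i : Fin r, Real.exp (-(q * |ht (O i)|)) := by
  have hi := (hβ.real hκ (by linarith) hb).1
  have hc := Pool.Agent.PB.TC_cont hβ (by linarith) hb
  rw [Pp_eq6 hP hj O (fun _ => hi), Finset.mul_sum]
  refine (norm_sum_le _ _).trans (Finset.sum_le_sum fun i _ => ?_)
  have h1 := PBOR.PLX.kapO_lim6 hP hj O hκ hκ2 hM (β := fun _ t => β t)
    (fun _ => hc.aestronglyMeasurable) (fun _ t => Pool.Agent.PB.TC_bd hβ (by linarith) hb t) i
  have h2 : ∑ c : Bool, ((chg6 c (O i) : ℂ) - (chg6 (!c) (O i) : ℂ)) * ∫ t : ℝ, β t = 0 := by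
    rw [Fintype.sum_bool]
    simp only [Bool.not_true, Bool.not_false]
    ring
  rw [h2, mul_zero, add_zero] at h1
  refine h1.trans ?_
  have h3 := PBOR.PLX.CK6_nonneg hκ hκ2
  rw [mul_comm M]
  refine mul_le_mul_of_nonneg_left (Real.exp_le_exp.2 ?_) (mul_nonneg h3 hM)
  have := mul_le_mul_of_nonneg_right hq (abs_nonneg (ht (O i)))
  linarith

end force

end PBWP.PLX

end
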