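import Pool.Agent.PLX.PB.QpR
import Pool.Agent.PHK.WPlusS6

/-!
# Second moment of the remainder without the quadratic statistic: the particle-hole form (P)

(P) twin of `PLX/PB/QpR` (`mVob`, `cQp` are the landed ones).

* **`qpr_M26`**: the second moment of `Qp - Qy`.
-/

set_option autoImplicit false
set_option linter.unusedSectionVars false

noncomputable section

open Complex MeasureTheory Finset Filter Topology

open PLX (Fil)

namespace PBWP.PLX

open NUO NUP1 NUCR NUP1S NUP1S.Ab NUP1S.AbC NUGC NUGC.PLX PBFunc PBFunc.PLX PBF PBF.PLX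
open PHK
open PBE.PLX (ib b_ib)

variable [Fil]

variable {N : ℕ} {Z : ℕ → Bool → Option O3 → ℂ → ℂ} {P : ℕ → Par6} {η η' : ℕ → Crs}
  {c : ℕ → ℂ} {ρ : ℂ → ℂ} {Y₁ Y₂ K q dp b b1 b0 b'' : ℝ}
  {LP : (r : ℕ) → (Fin r → Xo) → Bool → ℂ → ℂ}

/-- **the second moment of `Qp - Qy`** -/
theorem qpr_M26 (hM : PBU.PLX.MBd6 N Z P η η' c ρ Y₁ Y₂ K q dp) (hK : 0 ≤ K)
    (hmZ : ∀ n ≤ N, MC6 (Z n) (P n) (η n) (η' n)) (mc : ∀ n ≤ N, MCr (η n) (η' n))
    (hs : ∀ n ≤ N, InS 0 b0 (η n)) (hb : b0 < b'') (hb'' : 0 < b'') (hρ : PB.SeaF b1 ρ)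
    (hb1 : b'' ≤ b1) (hb2 : b'' ≤ b) (hY1 : -b ≤ Y₁) (hY2 : Y₂ ≤ b)
    (mP : ∀ r s, Measurable fun p : (Fin r → Xo) × ℂ => LP r p.1 s p.2) {X e leg cut : Bool → ℂ → ℂ}
    {κ₁ T Te Ml Mc Co Tc : ℝ} (hκ1 : 0 < κ₁) (hT : 0 ≤ T) (hTe : 0 ≤ Te) (hMl : 0 ≤ Ml)
    (hMc : 0 ≤ Mc) (hCo : 0 ≤ Co) (hTc : 0 ≤ Tc)
    (hX : ∀ s, PBE.TC (-b) b κ₁ T (X s)) (he : ∀ s, PBU.PLX.BC Y₁ Y₂ Te (e s))
    (hed : ∀ s (z : ℂ), |z.im| < b'' → DifferentiableAt ℂ (e s) z)
    (hld : ∀ s (z : ℂ), |z.im| < b → DifferentiableAt ℂ (leg s) z)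
    (hlb : ∀ s (z : ℂ), |z.im| < b → ‖leg s z‖ ≤ Ml)
    (hcd : ∀ s (z : ℂ), |z.im| < b'' → DifferentiableAt ℂ (cut s) z)
    (hcb : ∀ s, PBU.PLX.BC Y₁ Y₂ Mc (cut s))
    (hod : ∀ r O s (z : ℂ), |z.im| < b → DifferentiableAt ℂ (obF LP r O s) z)
    (hob : ∀ r O s (z : ℂ), |z.im| < b → ‖obF LP r O s z‖ ≤ r * Co)
    (hrc : ‖∑ s, ∫ t : ℝ, ρ t * (X s t * cut s t)‖ ≤ Tc) :
    M2 (mN6 N) (wN6 Z P N η η' c) K
      (evN6 fun n r O a b x => Qp (η n) ρ (ib X) e leg cut LP r O a b x -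
        Qy 0 (η n) ρ (ib X) r O a b x)
      (Te + T * Ml + T * Mc + T * Co +
        (Tc + 2 * (T * (2 / κ₁) * Ml) + 2 * (T * (2 / κ₁) * Co))) := by
  have hb0' : 0 < b := hb''.trans_le hb2
  obtain ⟨W, hW⟩ : ∃ W : Bool → ℂ → ℂ, W = ib X := ⟨_, rfl⟩
  rw [← hW]
  have hWX : ∀ s, PBE.TC (-b) b κ₁ T (W s) := fun s => by
    rw [hW]
    exact PBE.PLX.TC.ib s (hX s)
  have hXd : ∀ s (z : ℂ), |z.im| < b → DifferentiableAt ℂ (W s) z := fun s z hz =>
    (hWX s).an.differentiableAt ((Pool.Agent.PB.isOpen_Sp _ _).mem_nhds (abs_lt.1 hz))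
  have hXb : ∀ s, PBU.PLX.BC Y₁ Y₂ T (W s) := fun s => BC_of (hWX s) hκ1.le hT hY1 hY2
  have hsub : ∀ z, z ∈ PBE.Sp Y₁ Y₂ → |z.im| < b := fun z hz =>
    abs_lt.2 ⟨lt_of_le_of_lt hY1 hz.1, lt_of_lt_of_le hz.2 hY2⟩
  have hw : AEStronglyMeasurable (wN6 Z P N η η' c) (mN6 N) := (wN_meas6 hmZ).aestronglyMeasurable
  have mV : ∀ {f : Bool → ℂ → ℂ}, (∀ s (z : ℂ), |z.im| < b'' → DifferentiableAt ℂ (f s) z) →
      AEStronglyMeasurable (evN6 fun n => Vy 0 (η n) ρ f) (mN6 N) := fun hd =>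
    (evN_meas6 fun n hn => MIn.vy (mc n hn) (hs n hn) hb ρ hd).aestronglyMeasurable
  -- the pieces
  have p1 := M2_vy6 hM mc hs hb hTe he hed
  have dl : ∀ s (z : ℂ), |z.im| < b'' → DifferentiableAt ℂ (fun z => W s z * leg s z) z :=
    fun s z hz => (hXd s z (hz.trans_le hb2)).mul (hld s z (hz.trans_le hb2))
  have p2 := M2_vy6 hM mc hs hb (M := T * Ml) (by positivity) (f := fun s z => W s z * leg s z)
    (fun s => ⟨(hXb s).an.mul fun z hz =>
      (hld s z (hsub z hz)).differentiableWithinAt, fun z hz => by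
        rw [norm_mul]
        exact mul_le_mul ((hXb s).bd z hz) (hlb s z (hsub z hz)) (norm_nonneg _) hT⟩) dl
  have dc : ∀ s (z : ℂ), |z.im| < b'' → DifferentiableAt ℂ (fun z => W s z * cut s z) z :=
    fun s z hz => (hXd s z (hz.trans_le hb2)).mul (hcd s z hz)
  have p3 := M2_vy6 hM mc hs hb (M := T * Mc) (by positivity) (f := fun s z => W s z * cut s z)
    (fun s => ⟨(hXb s).an.mul (hcb s).an, fun z hz => by
        rw [norm_mul]
        exact mul_le_mul ((hXb s).bd z hz) ((hcb s).bd z hz) (norm_nonneg _) hT⟩) dc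
  have mO : ∀ n ≤ N, MIn fun r O a b x =>
      Vy 0 (η n) ρ (fun s z => W s z * obF LP r O s z) r O a b x := fun n hn =>
    mVob (mc n hn) (hs n hn) hb hb'' hρ hb1 mP fun s z hz => hXd s z (hz.trans_le hb2)
  have hVs : ∀ n (r : ℕ) (O : Fin r → Xo) (a b : ℕ) (x : (Fin a → ℝ) × (Fin b → ℝ)),
      Vy 0 (η n) ρ (fun s z => ((r : ℂ) + 1)⁻¹ * (W s z * obF LP r O s z)) r O a b x =
        ((r : ℂ) + 1)⁻¹ * Vy 0 (η n) ρ (fun s z => W s z * obF LP r O s z) r O a b x := by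
    intro n r O a b x
    unfold Vy PB.NX.nuL
    rw [mul_sub, Finset.mul_sum, Finset.mul_sum]
    congr 1
    refine Finset.sum_congr rfl fun s _ => ?_
    rw [← integral_const_mul]
    refine integral_congr_ae (Eventually.of_forall fun u => ?_)
    simp only
    ring
  have hr1 : ∀ r : ℕ, (r : ℂ) + 1 ≠ 0 := fun r => by
    have := norm_cn0 r
    intro h
    rw [h, norm_zero] at this
    have := Nat.cast_nonneg (α := ℝ) r
    linarith
  have p4 : M2 (mN6 N) (wN6 Z P N η η' c) K (evN6 fun n r O a b x =>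
      Vy 0 (η n) ρ (fun s z => W s z * obF LP r O s z) r O a b x) (T * Co) := by
    have h1 := hM.vy (T * Co) (fun r O s z => ((r : ℂ) + 1)⁻¹ * (W s z * obF LP r O s z))
      (by positivity) (fun r O s => ⟨((hXb s).an.mul fun z hz =>
        (hod r O s z (hsub z hz)).differentiableWithinAt).const_mul _, fun z hz => by
          rw [norm_mul, norm_mul, norm_inv, norm_cn0]
          have h2 := (hXb s).bd z hz
          have h3 := hob r O s z (hsub z hz)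
          have h4 : 0 ≤ (r : ℝ) := Nat.cast_nonneg r
          rw [inv_mul_le_iff₀ (by positivity)]
          calc ‖W s z‖ * ‖obF LP r O s z‖ ≤ T * (r * Co) := mul_le_mul h2 h3 (norm_nonneg _) hT
            _ ≤ ((r : ℝ) + 1) * (T * Co) := by nlinarith [mul_nonneg hT hCo]⟩)
      (fun n hn => by
        intro r a b
        have e : (fun p : (Fin r → Xo) × ((Fin a → ℝ) × (Fin b → ℝ)) =>
            Vy 0 (η n) ρ (fun s z => ((r : ℂ) + 1)⁻¹ * (W s z * obF LP r p.1 s z)) r p.1 a b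
              p.2) = fun p => ((r : ℂ) + 1)⁻¹ *
            Vy 0 (η n) ρ (fun s z => W s z * obF LP r p.1 s z) r p.1 a b p.2 := by
          funext p
          exact hVs n r p.1 a b p.2
        rw [e]
        exact (mO n hn r a b).const_mul _)
    refine M2.congr h1 fun ω => ?_
    simp only [evN6, ev6]
    rw [hVs, ← mul_assoc, mul_inv_cancel₀ (hr1 _), one_mul]
  have intX : ∀ s {f : ℂ → ℂ} {B : ℝ}, (∀ t : ℝ, ‖f t‖ ≤ B) →
      ‖∫ t : ℝ, X s t * f t‖ ≤ T * (2 / κ₁) * B := fun s {f B} hf => by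
    have := PBE.int_XD_le (hX s) hb0' hκ1 hT 0 (f := fun t : ℝ => f t) hf
    simpa using this
  have hre : ∀ t : ℝ, |((t : ℂ)).im| < b := fun t => by simpa using hb0'
  have p5 : M2 (mN6 N) (wN6 Z P N η η' c) K (evN6 fun _ => cQp ρ X leg cut LP)
      (Tc + 2 * (T * (2 / κ₁) * Ml) + 2 * (T * (2 / κ₁) * Co)) := by
    set Ct := Tc + 2 * (T * (2 / κ₁) * Ml) + 2 * (T * (2 / κ₁) * Co) with hCt
    have hCt0 : 0 ≤ Ct := by positivity
    have h1 := hM.one.smul (Ct : ℂ)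
    rw [mul_one, Complex.norm_real, Real.norm_of_nonneg hCt0] at h1
    refine M2.le' h1 fun ω => ?_
    simp only [evN6, ev6, PBU.PLX.cnI, cQp]
    rw [norm_mul, norm_cn0, Complex.norm_real, Real.norm_of_nonneg hCt0]
    have h4 : 0 ≤ ((ω.2.1.1 : ℕ) : ℝ) := Nat.cast_nonneg _
    have h5 : ‖∑ s, ∫ t : ℝ, X s t * leg s t‖ ≤ 2 * (T * (2 / κ₁) * Ml) := by
      rw [Fintype.sum_bool]
      refine (norm_add_le _ _).trans ?_
      have h6 := intX true (f := leg true) (fun t => hlb true t (hre t))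
      have h7 := intX false (f := leg false) (fun t => hlb false t (hre t))
      linarith
    have h6 : ‖∑ s, ∫ t : ℝ, X s t * obF LP ω.2.1.1 ω.2.2.1 s t‖ ≤
        2 * (T * (2 / κ₁) * (((ω.2.1.1 : ℕ) : ℝ) * Co)) := by
      rw [Fintype.sum_bool]
      refine (norm_add_le _ _).trans ?_
      have h7 := intX true (f := obF LP ω.2.1.1 ω.2.2.1 true)
        (fun t => hob _ _ true t (hre t))
      have h8 := intX false (f := obF LP ω.2.1.1 ω.2.2.1 false)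
        (fun t => hob _ _ false t (hre t))
      linarith
    refine (norm_sub_le _ _).trans ((add_le_add (norm_sub_le _ _) h6).trans ?_)
    have h9 : 0 ≤ T * (2 / κ₁) * Ml := by positivity
    have h10 : 0 ≤ T * (2 / κ₁) * Co := by positivity
    have h11 : 0 ≤ Tc * ((ω.2.1.1 : ℕ) : ℝ) := by positivity
    have h12 : 0 ≤ T * (2 / κ₁) * Ml * ((ω.2.1.1 : ℕ) : ℝ) := by positivity
    rw [hCt]
    nlinarith [h5, hrc]
  have mVo : AEStronglyMeasurable (evN6 fun n r O a b x =>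
      Vy 0 (η n) ρ (fun s z => W s z * obF LP r O s z) r O a b x) (mN6 N) :=
    (evN_meas6 mO).aestronglyMeasurable
  have q1 := PBWP.PLX.M2.add0 hTe (by positivity) hK hw (mV hed) p1 p2
  have q2 := PBWP.PLX.M2.add0 (by positivity) (by positivity) hK hw ((mV hed).add (mV dl)) q1 p3
  have q3 := PBWP.PLX.M2.add0 (by positivity) (by positivity) hK hw
    (((mV hed).add (mV dl)).add (mV dc)) q2 p4
  have q4 := PBWP.PLX.M2.add0 (by positivity) (by positivity) hK hw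
    ((((mV hed).add (mV dl)).add (mV dc)).add mVo) q3 p5
  refine q4.congr fun ω => ?_
  have ec := cQp_ib (ρ := ρ) (X := X) (leg := leg) (cut := cut) (LP := LP) ω.2.1.1 ω.2.2.1
  rw [← hW] at ec
  simp only [evN6, ev6, Qp, cQp, Pi.add_apply] at ec ⊢
  rw [← ec]
  ring

end PBWP.PLX

end
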