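import Pool.Agent.PHK.WardCf6
import Pool.Agent.PHK.QMomC6
import Pool.Agent.PLX.PB.QyF

/-!
# Second moment of the quadratic statistic, in the form of the fibres (six kinds)

* **`qy_fib6`**: `M2` of `Qy` for every field in `PBE.TC (-b) b κ₁ Θ` from `FibN6` and `Mom4`.
-/

set_option autoImplicit false
set_option linter.unusedSectionVars false

noncomputable section

open Complex MeasureTheory Finset Filter Topology

open PLX (Fil)

namespace PHK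

open NUO NUP1 NUCR NUP1S NUP1S.Ab NUP1S.AbC NUGC NUGC.PLX PBFunc PBFunc.PLX PBF PBV PBQM PBQM.PLX
open PBF.PLX (gK Ins Crs DIns Flds InsD FldD DX WS Wd LT Vy Qy Sy lamY XCy X1Cy InS MCr MIn dN RmY
  zy zy_strip zqy dSm DX_vy Sy_eq meas_zqy meas_fld meas_lamY meas_dvy)

variable [Fil]

/-- **second moment of the quadratic statistic** -/
theorem qy_fib6 {b κ₁ y₁ y₂ : ℝ} (hb : b ≤ NUP1.l / 4) (hκ0 : 0 < κ₁) (hκ1 : κ₁ ≤ 1)
    (h1 : -b < y₁) (h1' : y₁ < 0) (h2' : 0 < y₂) (h2 : y₂ < b) :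
    ∃ C : ℝ, 0 ≤ C ∧ ∀ {N : ℕ} {Z : ℕ → Bool → Option O3 → ℂ → ℂ} {P : ℕ → Par6}
      {η η' : ℕ → Crs} {c : ℕ → ℂ} {δ b0 b1 : ℝ} {κf : ℕ → ℝ} {LZ : ℕ → Bool → ℂ → ℂ}
      {LP : ℕ → (r : ℕ) → (Fin r → Xo) → Bool → ℂ → ℂ} {ρ : ℂ → ℂ} {K : ℝ}
      (_ : FibN6 N Z P η η' δ 0 b0 b1 κf LZ LP ρ) (_ : b0 < -y₁) (_ : b0 < y₂) (_ : 0 ≤ K)
      (_ : Mom4 (mN6 N) (wN6 Z P N η η' c) (VN6 N η ρ) y₁ y₂ K) {Θ : ℝ}
      {X : Bool → ℂ → ℂ}, (∀ s, PBE.TC (-b) b κ₁ Θ (X s)) →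
      M2 (mN6 N) (wN6 Z P N η η' c) K (evN6 fun n => Qy 0 (η n) ρ X) (C * Θ) := by
  have hl := Bd.l_pos
  have hlM : (NUMF.l : ℝ) = NUP1.l := rfl
  have hpi := Real.pi_gt_three
  have hl1 : NUP1.l ≤ 1 := by
    unfold NUP1.l
    linarith [Real.pi_le_four]
  obtain ⟨C, hC, H⟩ := exists_qy6 (Y := 2 * b) (α := 1)
    (θ := (b - max (-y₁) y₂) / 4) (by rw [hlM]; linarith)
  obtain ⟨M0, hM0⟩ : ∃ M0 : ℝ, M0 = max (-y₁) y₂ := ⟨_, rfl⟩
  rw [← hM0] at H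
  have hm1 : -y₁ ≤ M0 := hM0 ▸ le_max_left _ _
  have hm2 : y₂ ≤ M0 := hM0 ▸ le_max_right _ _
  have hmb : M0 < b := by
    rw [hM0]
    exact max_lt (by linarith) h2
  obtain ⟨θ, hθ⟩ : ∃ θ : ℝ, θ = (b - M0) / 4 := ⟨_, rfl⟩
  rw [← hθ] at H
  have hθ0 : 0 < θ := by rw [hθ]; linarith
  obtain ⟨b₂, hb₂⟩ : ∃ b₂ : ℝ, b₂ = (b + M0) / 2 := ⟨_, rfl⟩
  have hbb : b₂ < b := by rw [hb₂]; linarith
  have hb20 : 0 < b₂ := by rw [hb₂]; linarith
  have hθb : M0 + θ < b₂ := by rw [hθ, hb₂]; linarith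
  have G : PBV.Geo y₁ y₂ (y₁ - θ) (y₂ + θ) θ 1 b₂ (2 * b) :=
    ⟨hθ0, by linarith, by linarith, one_pos, by linarith, by
      rw [abs_lt]; constructor <;> linarith, by rw [abs_lt]; constructor <;> linarith,
      by rw [hlM]; linarith, by rw [hlM]; linarith, by linarith, by linarith⟩
  refine ⟨C * (1 + Real.exp (κ₁ * ((b - b₂) / 2)) / ((b - b₂) / 2)) / κ₁, by
    have : 0 < (b - b₂) / 2 := by linarith
    positivity, ?_⟩
  intro N Z P η η' c δ b0 b1 κf LZ LP ρ K hF hb01 hb02 hK h4 Θ X hX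
  have hΘ : 0 ≤ Θ := (hX true).nonneg (by linarith) (by linarith)
  have hr : ∀ t : ℝ, |((t : ℂ)).im| < b1 := fun t => by simpa using hF.b1p
  have c1 : Continuous fun t : ℝ => ρ t := continuous_iff_continuousAt.2 fun t =>
    (hF.sea.d _ (hr t)).continuousAt.comp Complex.continuous_ofReal.continuousAt
  have i1 : Integrable fun t : ℝ => ρ t := by
    have h := PBWP.PLX.int_rho hF.sea hF.b1p (f := fun _ => (1 : ℂ)) (B := 1)
      (fun z _ => differentiableAt_const _) (fun t => by simp)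
    simpa using h
  have key := H G h1' h2' (by rw [hlM]; linarith)
    (fun s => PBWP.PLX.xiA_TC (hX s) hbb hb20 hκ0.le hΘ) hκ0 hκ1 (N := N)
    (w := wN6 Z P N η η' c) (η := η) (η' := η') (ρ := ρ) (K := K)
    (wN_meas6 hF.mZ).aestronglyMeasurable hK hF.mc
    (fun n hn r O t => by
      have h5 := hF.hs n hn r O true t
      rw [Fil.cv_true, sub_zero, abs_le] at h5
      exact ⟨by linarith, by linarith⟩) i1 c1.measurable h4
  refine key.mono ?_ (le_of_eq ?_) le_rfl hK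
  · have : 0 < (b - b₂) / 2 := by linarith
    positivity
  · ring

end PHK

end
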