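import Pool.Agent.PLX.PB.HQf
import Pool.Agent.PHK.LevH06
import Pool.Agent.PHK.FibL6
import Pool.Agent.PHK.LPoK6
import Pool.Agent.PHK.QpR6
import Pool.Agent.PHK.QyF6

/-!
# (P): the second moment of the quadratic remainder at the family

(P) twin of `PLX/PB/HQf`. `bb6 = 19/2000 l`, `bb6' = 9/1000 l`, `κ = 189/100`, `κ₁ = 1/100`, `κ₂ = 1/200`
(the strip of the quanta must not meet the zeros and the poles of the fields of the objects, at distance
`l / 100`).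

* `fib_S6`: the fibres;
* **`hQ_gen6`**: second moment of the remainder at the family, all fields;
* **`hQ_plus6`**, **`hQ_minus6`**: the hypothesis `hQ` of the plus and of the minus channel.
-/

set_option autoImplicit false
set_option linter.unusedSectionVars false

noncomputable section

open Complex MeasureTheory Finset Filter Topology

open PLX (Fil)

namespace PBWP.PLX

open NUO NUP1 NUCR NUP1S NUP1S.Ab NUP1S.AbC NUGC NUGC.PLX PBFunc PBFunc.PLX PBF PBF.PLX PBE PBE.PLX PBLX PBLX.PLX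
open PBEI (rowS h0T mfL cL)
open PHK hiding cL

attribute [local instance] NUSea.seaP

/-- half width of the strip of the test functions -/
def bb6 : ℝ := 19 / 2000 * NUP1.l

/-- half width of the strip of the correction -/
def bb6' : ℝ := 9 / 1000 * NUP1.l

theorem bb6_pos : 0 < bb6 := by
  have hl := Bd.l_pos
  unfold bb6
  positivity

theorem bb6'_pos : 0 < bb6' := by
  have hl := Bd.l_pos
  unfold bb6'
  positivity

theorem bb6'_lt : bb6' < bb6 := by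
  have hl := Bd.l_pos
  unfold bb6 bb6'
  linarith

/-- the strip of the test functions is at distance `l / 200` from the zeros and the poles -/
theorem dsC_bb6 : DsC par6 (1 / 100) (1 / 200) :=
  dsC_of par6_good (by norm_num) (by norm_num)
    (by show (1 / 100 : ℝ) + 1 / 200 ≤ 129 / 64 - 2; norm_num)
    (by show (1 / 100 : ℝ) + 1 / 200 ≤ 1 / 32; norm_num)
    (by show (1 / 100 : ℝ) + 1 / 200 ≤ 1 - 7 / 8; norm_num)

variable [Fil]

/-- the fibres -/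
theorem fib_S6 {ep e1 J : ℝ} (h0 : 0 < ep) (h1 : ep ≤ 1 / 100) (h2 : 0 < e1) (h3 : e1 ≤ 1 / 100)
    (h4 : 0 ≤ J) {b1 : ℝ} (hb : ep * NUP1.l / 4 < b1) (hb1 : 2 * b1 ≤ NUP1.l) :
    ∀ᶠ j : ℕ in atTop, ∀ s ∈ Set.Icc (0 : ℝ) 1, ∀ t : ℝ,
      FibN6 (2 * (j + 1)) (fun _ => ZF6 ep j s t) (pS6 j) (eC e1 J j) (eC' e1 J j) (ep / 4) 0
        (ep * NUP1.l / 4) b1 (fun _ => 2 * (4 / 3 * (1 - ep)))
        (fun _ u => PBLZ.PLX.LZX u (4 / 3 * (1 - ep)) (rowS j s) [I, -I] (I * t))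
        (fun _ => LPo6 par6) (rhS j s) := by
  have hl := Bd.l_pos
  have hb0 : 0 < b1 := lt_of_le_of_lt (by positivity) hb
  obtain ⟨j0, H⟩ := PBFX.PLX.fibN6_fL h0 h1 h2 h3 h4
  obtain ⟨c0, -, hc⟩ := seaL_rhS (b := b1) hb0.le (by linarith)
  filter_upwards [eventually_ge_atTop j0] with j hj s hs t
  have hsea := (hc j s (abs_le.2 ⟨by linarith [hs.1], hs.2⟩)).2
  exact H j hj s t (rhS j s) (ep * NUP1.l / 4) b1 le_rfl hb hb1 hsea _ (fun _ => by linarith)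
    (fun _ => le_rfl)

/-- **second moment of the remainder at the family**, all fields -/
theorem hQ_gen6 [MomS6] {ε : ℝ} (hε : 0 < ε) :
    ∃ a0 : ℝ, 0 < a0 ∧ ∀ ep e1 J : ℝ, SmallP a0 ep e1 J → ∃ CQ : ℝ, 0 ≤ CQ ∧
      ∀ᶠ j : ℕ in atTop, ∀ s ∈ Set.Icc (0 : ℝ) 1, ∀ t ∈ Set.Icc (0 : ℝ) 1,
        ∀ (T Te Tc : ℝ) (X e : Bool → ℂ → ℂ), 0 ≤ Te → 0 ≤ Tc →
          (∀ u, TC (-bb6) bb6 (1 / 100) T (X u)) → (∀ u, PBU.PLX.BC (-(ep / 4)) bb6' Te (e u)) →
          (∀ u (z : ℂ), |z.im| < ep / 4 → DifferentiableAt ℂ (e u) z) →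
          ‖∑ u, ∫ x : ℝ, rhS j s x * (X u x * cutJ ep u j s x)‖ ≤ Tc →
          M2 (mN6 (2 * (j + 1))) (wS6 ep e1 J j s t) (Kj ε j)
            (evN6 fun n => Qp (eC e1 J j n) (rhS j s) (ib X) e (fun _ => h0T t)
              (fun u => cutJ ep u j s) (LPo6 par6)) (CQ * (T + Te + Tc)) := by
  have hl := Bd.l_pos
  have hl1 : NUP1.l < 1 := by
    unfold NUP1.l
    linarith [Real.pi_lt_d2]
  have hl2 : 3 / 8 < NUP1.l := by
    unfold NUP1.l
    linarith [Real.pi_gt_three]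
  obtain ⟨a1, ha1, H1⟩ := mbdS6 (q := 0) le_rfl (by norm_num) hε
  obtain ⟨a2, ha2, H2⟩ := mom4S6 hε
  refine ⟨min a1 a2, lt_min ha1 ha2, fun ep e1 J hp => ?_⟩
  have hep0 := hp.ep0
  have hep1 := hp.ep1
  obtain ⟨Cq, hCq, HQ⟩ := qy_fib6 (b := bb6) (κ₁ := 1 / 100) (y₁ := -(ep / 4)) (y₂ := bb6')
    (by unfold bb6; linarith) (by norm_num) (by norm_num) (by unfold bb6; linarith)
    (by linarith) bb6'_pos bb6'_lt
  have hK := KJ_pos hep0 hep1
  obtain ⟨c0, -, hc⟩ := seaL_rhS (b := bb6) bb6_pos.le (by unfold bb6; linarith)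
  obtain ⟨Co, hCo⟩ : ∃ Co : ℝ, Co = COc (1 / 200) + 4 := ⟨_, rfl⟩
  have hCo0 : 0 ≤ Co := by
    have := COc_pos dsC_bb6
    rw [hCo]; linarith
  have hcL : 0 ≤ cL := (norm_nonneg _).trans
    ((h0T_fam le_rfl 0).2 0 (by rw [zero_im, abs_zero]; positivity))
  obtain ⟨A, hA⟩ : ∃ A : ℝ, A = Cq + cL + KJ ep + Co + 400 * cL + 400 * Co := ⟨_, rfl⟩
  have hA0 : 0 ≤ A := by rw [hA]; positivity
  refine ⟨1 + A, by positivity, ?_⟩
  have hb0 : ep * NUP1.l / 4 < ep / 4 := by nlinarith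
  have hb1 : ep / 4 < bb6 := by unfold bb6; linarith
  filter_upwards [H1 ep e1 J (hp.mono (min_le_left _ _)) (-(ep / 4)) bb6' (by linarith) bb6'_pos,
    H2 ep e1 J (hp.mono (min_le_right _ _)) (-(ep / 4)) bb6' (by linarith) bb6'_pos,
    fib_S6 hep0 hep1 hp.e0 hp.e1' hp.J0 (hb0.trans hb1) (by unfold bb6; linarith)]
    with j h1 h2 h3 s hs t ht T Te Tc X e hTe hTc hX he hed hrc
  have hM := h1 s hs t ht
  have hF := h3 s hs t
  have hT : 0 ≤ T := (hX true).nonneg (by linarith [bb6_pos]) bb6_pos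
  have hKj := (Kj_pos ε j).le
  have hsea := (hc j s (abs_le.2 ⟨by linarith [hs.1], hs.2⟩)).2
  have hleg := h0T_fam (b := bb6) (by unfold bb6; linarith) t
  have key := qpr_M26 (b0 := ep * NUP1.l / 4) (b'' := ep / 4) (b1 := bb6) (b := bb6)
    (κ₁ := 1 / 100) (T := T) (Te := Te) (Ml := cL) (Mc := KJ ep) (Co := Co) (Tc := Tc) hM hKj
    hF.mZ hF.mc hF.hs hb0 (by linarith) hsea hb1.le hb1.le (by linarith) bb6'_lt.le
    (hF.mP 0 (Nat.zero_le _)) (X := X) (e := e) (leg := fun _ => h0T t)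
    (cut := fun u => cutJ ep u j s) (by norm_num) hT hTe hcL hK.le hCo0 hTc hX he hed
    (fun _ => hleg.1) (fun _ => hleg.2)
    (fun u z hz => cutJ_an hep0 hep1 u j s (by have := (abs_lt.1 hz).1; linarith)
      (by have := (abs_lt.1 hz).2; linarith))
    (fun u => ⟨fun z hz => (cutJ_an hep0 hep1 u j s (by have := hz.1; linarith)
      (by have := hz.2; unfold bb6' at this; linarith)).differentiableWithinAt,
      fun z hz => cutJ_le hep0 hep1 u j s (by have := hz.1; linarith)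
        (by have := hz.2; unfold bb6' at this; linarith)⟩)
    (fun r O u z hz => obF_dAt6 dsC_bb6 O u (by unfold bb6 at hz; linarith))
    (fun r O u z hz => by
      rw [hCo]
      exact obF_le6 dsC_bb6 O u (by unfold bb6 at hz; linarith)) hrc
  have kq := HQ (c := cF j s t) hF (by linarith) (by unfold bb6'; linarith) hKj
    (h2 s hs t ht) (fun u => TC.ib u (hX u))
  have hXF : PB.FldF bb6 X := ⟨fun u z hz => (hX u).an.differentiableAt
    ((Pool.Agent.PB.isOpen_Sp _ _).mem_nhds (abs_lt.1 hz)), T, hT, fun u z hz => by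
      exact ((BC_of (hX u) (by norm_num) hT le_rfl le_rfl)).bd z (abs_lt.1 hz)⟩
  have mQ : AEStronglyMeasurable (evN6 fun n => Qy 0 (eC e1 J j n) (rhS j s) (ib X))
      (mN6 (2 * (j + 1))) := (evN_meas6 fun n hn =>
    MIn.qy (hF.mc n hn) (hF.hs n hn) hF.b1p hF.b01 hF.sea (FldF.ib hXF)).aestronglyMeasurable
  have hw : AEStronglyMeasurable (wS6 ep e1 J j s t) (mN6 (2 * (j + 1))) :=
    (wN_meas6 hF.mZ).aestronglyMeasurable
  have k2 := PBWP.PLX.M2.add0 (mul_nonneg hCq hT) (by positivity) hKj hw mQ kq key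
  have k3 := k2.congr (B := evN6 fun n => Qp (eC e1 J j n) (rhS j s) (ib X) e (fun _ => h0T t)
      (fun u => cutJ ep u j s) (LPo6 par6)) fun ω => by
    simp only [evN6, ev6]
    ring
  refine k3.mono (by positivity) ?_ le_rfl hKj
  rw [hA]
  have e1 : 0 ≤ Cq * Te := by positivity
  have e2 : 0 ≤ Cq * Tc := by positivity
  have e3 : 0 ≤ cL * Te := by positivity
  have e4 : 0 ≤ cL * Tc := by positivity
  have e5 : 0 ≤ KJ ep * Te := by positivity
  have e6 : 0 ≤ KJ ep * Tc := by positivity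
  have e7 : 0 ≤ Co * Te := by positivity
  have e8 : 0 ≤ Co * Tc := by positivity
  nlinarith

/-- **the hypothesis `hQ` of `wplus` at the family** -/
theorem hQ_plus6 [MomS6] {ε : ℝ} (hε : 0 < ε) {c0 : ℝ}
    (hc : ∀ (j : ℕ) (s : ℝ), |s| ≤ 1 → SeaL bb6 c0 ((j + 1 : ℕ) : ℝ) (rhS j s)) :
    ∃ a0 : ℝ, 0 < a0 ∧ ∀ ep e1 J : ℝ, SmallP a0 ep e1 J → ∃ CQ : ℝ, 0 ≤ CQ ∧
      ∀ᶠ j : ℕ in atTop, ∀ s ∈ Set.Icc (0 : ℝ) 1, ∀ t ∈ Set.Icc (0 : ℝ) 1,
        ∀ (M : ℝ) (β e : ℂ → ℂ), 0 ≤ M → TC (-bb6) bb6 (189 / 100) M β →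
          TC (-bb6') bb6' (1 / 200) (thS c0 j * M) e →
          M2 (mN6 (2 * (j + 1))) (wS6 ep e1 J j s t) (Kj ε j)
            (evN6 fun n => Qp (eC e1 J j n) (rhS j s) (ib fun _ => XS (rhS j s) 0 β) (fun _ => e)
              (fun _ => h0T t) (fun u => cutJ ep u j s) (LPo6 par6))
            (CQ * (thS c0 j * M)) := by
  have hl := Bd.l_pos
  have hl2 : 3 / 8 < NUP1.l := by
    unfold NUP1.l
    linarith [Real.pi_gt_three]
  obtain ⟨a0, ha0, H⟩ := hQ_gen6 hε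
  refine ⟨a0, ha0, fun ep e1 J hp => ?_⟩
  have hep0 := hp.ep0
  have hep1 := hp.ep1
  obtain ⟨CQ, hCQ, H1⟩ := H ep e1 J hp
  obtain ⟨Cr, hCr, H2⟩ := rho_cutJ hep0 hep1 (b := bb6) (c0 := c0) (κ := 189 / 100)
    (κ₁ := 1 / 100) bb6_pos (by norm_num) (by norm_num) (by norm_num)
  refine ⟨CQ * (2 + 2 * Cr), by positivity, ?_⟩
  filter_upwards [H1] with j h1 s hs t ht M β e hM hβ he
  have hs1 : |s| ≤ 1 := abs_le.2 ⟨by linarith [hs.1], hs.2⟩
  have hρ := hc j s hs1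
  have hth : 0 ≤ thS c0 j := thX_nonneg hρ.Np
  have tX := XS_TC hρ hβ hM (κ₁ := 1 / 100) (by norm_num) (by norm_num) 0
  have hTe : 0 ≤ thS c0 j * M := mul_nonneg hth hM
  obtain ⟨th, hth'⟩ : ∃ th : ℝ, th = thS c0 j * M := ⟨_, rfl⟩
  have hrc : ∀ u, ‖∫ x : ℝ, rhS j s x * (XS (rhS j s) 0 β x * cutJ ep u j s x)‖ ≤ Cr * th :=
    fun u => (H2 u j s hs1 (rhS j s) hρ M β hβ).trans (le_of_eq (by rw [hth']))
  have k := h1 s hs t ht (thS c0 j * M) (thS c0 j * M) (2 * (Cr * (thS c0 j * M)))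
    (fun _ => XS (rhS j s) 0 β) (fun _ => e) hTe (by positivity) (fun _ => tX)
    (fun _ => BC_of he (by norm_num) hTe (by unfold bb6'; linarith) le_rfl)
    (fun _ z hz => TC.dAt' he le_rfl le_rfl (hz.trans (by unfold bb6'; linarith)))
    (by
      rw [Fintype.sum_bool, ← hth']
      refine (norm_add_le _ _).trans ?_
      have e1 := hrc true
      have e2 := hrc false
      linarith)
  refine k.mono (by positivity) (le_of_eq ?_) le_rfl (Kj_pos ε j).le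
  ring

/-- **the hypothesis `hQ` of `PBWM.wm_of` at the family** -/
theorem hQ_minus6 [MomS6] {ε : ℝ} (hε : 0 < ε) {c0 : ℝ}
    (hc : ∀ (j : ℕ) (s : ℝ), |s| ≤ 1 → SeaL bb6 c0 ((j + 1 : ℕ) : ℝ) (rhS j s)) :
    ∃ a0 : ℝ, 0 < a0 ∧ ∀ ep e1 J : ℝ, SmallP a0 ep e1 J → ∃ CQ : ℝ, 0 ≤ CQ ∧
      ∀ᶠ j : ℕ in atTop, ∀ s ∈ Set.Icc (0 : ℝ) 1, ∀ t ∈ Set.Icc (0 : ℝ) 1,
        ∀ (M : ℝ) (β e : ℂ → ℂ), 0 ≤ M → TC (-bb6) bb6 (189 / 100) M β →
          TC (-bb6') bb6' (1 / 200) (thS c0 j * M) e →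
          M2 (mN6 (2 * (j + 1))) (wS6 ep e1 J j s t) (Kj ε j)
            (evN6 fun n => Qp (eC e1 J j n) (rhS j s) (ib (sg2 (XS (rhS j s) 0 β)))
              (sg2 fun z => e z + 4 * mass (XS (rhS j s) 0 β) * PBV.tgh z)
              (fun _ => h0T t) (fun u => cutJ ep u j s) (LPo6 par6))
            (CQ * (thS c0 j * M)) := by
  have hl := Bd.l_pos
  have hl2 : 3 / 8 < NUP1.l := by
    unfold NUP1.l
    linarith [Real.pi_gt_three]
  obtain ⟨a0, ha0, H⟩ := hQ_gen6 hε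
  refine ⟨a0, ha0, fun ep e1 J hp => ?_⟩
  have hep0 := hp.ep0
  have hep1 := hp.ep1
  obtain ⟨CQ, hCQ, H1⟩ := H ep e1 J hp
  obtain ⟨Cr, hCr, H2⟩ := rho_cutJ hep0 hep1 (b := bb6) (c0 := c0) (κ := 189 / 100)
    (κ₁ := 1 / 100) bb6_pos (by norm_num) (by norm_num) (by norm_num)
  refine ⟨CQ * (2402 + 2 * Cr), by positivity, ?_⟩
  filter_upwards [H1] with j h1 s hs t ht M β e hM hβ he
  have hs1 : |s| ≤ 1 := abs_le.2 ⟨by linarith [hs.1], hs.2⟩
  have hρ := hc j s hs1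
  have hth : 0 ≤ thS c0 j := thX_nonneg hρ.Np
  have tX := XS_TC hρ hβ hM (κ₁ := 1 / 100) (by norm_num) (by norm_num) 0
  have hTe : 0 ≤ thS c0 j * M := mul_nonneg hth hM
  have hm : ‖mass (XS (rhS j s) 0 β)‖ ≤ thS c0 j * M * 200 := by
    have := PBE.int_XD_le tX bb6_pos (by norm_num) hTe 0 (f := fun _ => 1) (B := 1)
      (fun _ => by simp)
    unfold mass
    simp only [ofReal_zero, sub_zero, mul_one] at this
    refine this.trans (le_of_eq ?_)
    ring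
  have hed : ∀ z : ℂ, |z.im| < bb6' → DifferentiableAt ℂ
      (fun z => e z + 4 * mass (XS (rhS j s) 0 β) * PBV.tgh z) z := fun z hz =>
    (TC.dAt' he le_rfl le_rfl hz).add
      ((PBWM.PLX.tgh_dAt bb6'_pos (by unfold bb6'; linarith) hz).const_mul _)
  have heb : ∀ z : ℂ, |z.im| < bb6' → ‖e z + 4 * mass (XS (rhS j s) 0 β) * PBV.tgh z‖ ≤
      thS c0 j * M * 2401 := fun z hz => by
    have h2 := (BC_of he (by norm_num) hTe le_rfl le_rfl).bd z (abs_lt.1 hz)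
    have h3 := PBWM.PLX.tgh_le (by unfold bb6'; linarith) hz
    refine (norm_add_le _ _).trans ?_
    rw [norm_mul, norm_mul]
    have h4 : ‖(4 : ℂ)‖ = 4 := by norm_num
    rw [h4]
    have h5 : 4 * ‖mass (XS (rhS j s) 0 β)‖ * ‖PBV.tgh z‖ ≤ 4 * (thS c0 j * M * 200) * 3 :=
      mul_le_mul (by linarith) h3 (norm_nonneg _) (by positivity)
    linarith
  have hsub : ∀ z ∈ PBE.Sp (-(ep / 4)) bb6', |z.im| < bb6' := fun z hz =>
    abs_lt.2 ⟨by have h5 := hz.1; unfold bb6'; linarith, hz.2⟩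
  obtain ⟨th, hth'⟩ : ∃ th : ℝ, th = thS c0 j * M := ⟨_, rfl⟩
  have hrc : ∀ u, ‖∫ x : ℝ, rhS j s x * (sg2 (XS (rhS j s) 0 β) u x * cutJ ep u j s x)‖ ≤
      Cr * th := fun u => by
    have e1 : ∫ x : ℝ, rhS j s x * (sg2 (XS (rhS j s) 0 β) u x * cutJ ep u j s x) =
        (if u then (-1 : ℂ) else 1) *
          ∫ x : ℝ, rhS j s x * (XS (rhS j s) 0 β x * cutJ ep u j s x) := by
      rw [← integral_const_mul]
      refine integral_congr_ae (Eventually.of_forall fun x => ?_)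
      cases u <;> simp [sg2]
    have e2 : ‖(if u then (-1 : ℂ) else 1)‖ = 1 := by cases u <;> simp
    rw [e1, norm_mul, e2, one_mul, hth']
    exact H2 u j s hs1 (rhS j s) hρ M β hβ
  have k := h1 s hs t ht (thS c0 j * M) (thS c0 j * M * 2401) (2 * (Cr * (thS c0 j * M)))
    (sg2 (XS (rhS j s) 0 β)) (sg2 fun z => e z + 4 * mass (XS (rhS j s) 0 β) * PBV.tgh z)
    (by positivity) (by positivity) (fun u => PBE.TC.sg2 tX u)
    (fun u => ⟨fun z hz => by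
      rw [PBWM.PLX.sg2_fun]
      exact ((hed z (hsub z hz)).const_mul _).differentiableWithinAt, fun z hz => by
      rw [PBWM.PLX.norm_sg2]
      exact heb z (hsub z hz)⟩)
    (fun u z hz => by
      rw [PBWM.PLX.sg2_fun]
      exact (hed z (hz.trans (by unfold bb6'; linarith))).const_mul _)
    (by
      rw [Fintype.sum_bool, ← hth']
      refine (norm_add_le _ _).trans ?_
      have e1 := hrc true
      have e2 := hrc false
      linarith)
  refine k.mono (by positivity) (le_of_eq ?_) le_rfl (Kj_pos ε j).le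
  ring

end PBWP.PLX

end
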