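import Pool.Agent.PHK.TopS6
import Pool.Agent.PHK.PotH.S4H
import Pool.Agent.PLX.PB.TopD0

/-!
# (P): the dislocated function, masses (U1)

* `gas_S4H6`: `PotH.PLX.s4H6` without groups; `env6_L`: the environment of the data `obL6`; `gas_L6`: the
  bound of the gas;
* **`topD6_w`**: `‖Pf‖ ∑ n ≤ 2 m, (1 + |n - m|) ^ p FE6 (w) ≤ B m ^ δ exp (2 |Im z|)` for weights
  `w r O ≤ B exp (K2 r) ∏ exp gT` of the objects, `-(9/10) l ≤ Re z < (31/10) l`,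
  `|Im z| ≤ (3/20) log m + 2`, moved row `|Re x| ≤ l/10`, `|Im x| ≤ 2`, `m = k + 1 + e`;
  `topD6_mass`: `w = 1`, `p = 0`.
-/

set_option autoImplicit false
set_option linter.unusedSectionVars false

noncomputable section

open Complex MeasureTheory Finset
open scoped ENNReal

open PLX (Fil Ends)

namespace PBT.PLX

open NUO NUP1 NUP1S NUP1S.Ab NUP1S.AbC NUGC.PLX PBF.PLX
open PBX (ph)
open PBL.PLX (mu1)
open PBP.PLX (gT)
open PotH.PLX PHK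
open Pool.Agent.PLX (rwq yq)

/-! ### the gas without groups -/

section gen

variable [NUSea.Sea] [Fil] [Ends]

/-- mean field value, energy and linear terms of the current, potential against the sea -/
def linE6 (η η1 : ℝ → ℝ) (m : ℕ) (H : Bool → ℝ → ℝ) : ℝ :=
  NUSea.PLX.MF (sN m) + (NUCR.bil (NUSea.PLX.hd m η η1) (NUSea.PLX.hd m η η1) -
    24 * NUMF.l * crH η m 0 + ∑ a, ∫ t, sN m a * NUSea.P t * H a t)

theorem rgH6_g0 (ep e1 : ℝ) {m n r : ℕ} (hn : n ≤ 3 * m) (hr : r ≤ 2 * (2 * n + Fil.xe m))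
    {O : Fin r → Xo} (h1 : chgO6 O true ≤ n) (h2 : chgO6 O false ≤ (n + Fil.xe m : ℕ)) :
    RgH6 ep e1 m g0 0 (Fil.xe m) m n O 0 0 where
  n2 := by norm_num
  sp := fun i => i.elim0
  ax := by norm_num
  ay := by omega
  ay' := by omega
  q := by simp
  nu := by simp
  hN := hn
  hr := by omega
  hc1 := h1
  hc2 := h2
  E0 := le_rfl
  hE := fun i => i.elim0
  x0 := le_rfl
  hx := fun i => i.elim0

theorem prefH6_g0 (m : ℕ) (Cst : ℝ) : prefH m g0 0 0 Cst = Cst * Real.exp (NUSea.PLX.MF (sN m)) := by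
  unfold prefH
  simp

theorem linH6_g0 (η η1 : ℝ → ℝ) (m : ℕ) (T1 : ℝ) (H : Bool → ℝ → ℝ) :
    NUSea.PLX.MF (sN m) + linH η η1 m g0 T1 H = linE6 η η1 m H := by
  unfold linH linE6
  rw [Finset.univ_eq_empty (α := Fin 0), Finset.sum_empty, mul_zero, sub_zero]

theorem enH6_g0 (m : ℕ) {r : ℕ} (O : Fin r → Xo) (T1 : ℝ) (p q : ℕ) : enH6 m g0 O T1 p q = 0 := by
  unfold enH6 NUSea.PLX.H0.cstF
  simp

/-- **the gas without groups** -/
theorem gas_S4H6 : ∀ B0 N0 : ℝ, 0 ≤ B0 → 0 ≤ N0 → ∃ K Ca : ℝ, 0 ≤ K ∧ 0 ≤ Ca ∧ ∀ kap : ℝ, 0 < kap →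
    ∀ ep : ℝ, 0 < ep → ep ≤ 1 / 100 → ∀ e1 : ℝ, 0 < e1 → e1 ≤ 1 / 100 →
    ∀ Cc C0 : ℝ, 1 ≤ Cc → 1 ≤ C0 → ∀ δ : ℝ, 0 < δ →
    ∃ d Cst : ℝ, 0 < d ∧ 0 ≤ Cst ∧ ∃ m0 : ℕ, ∀ m : ℕ, m0 ≤ m →
    ∀ (η η1 cr Bc Bc' : ℝ → ℝ) (H H' : Bool → ℝ → ℝ) (B : OB),
    EnvH ep e1 Cc C0 B0 N0 d m η η1 cr Bc Bc' H H' B g0 →
    ∀ n : ℕ, n ≤ 3 * m → ∀ b' : ℝ, |b'| ≤ d → ∀ (r : ℕ) (O : Fin r → Xo),
      r ≤ 2 * (2 * n + Fil.xe m) →
      chgO6 O true ≤ n → chgO6 O false ≤ (n + Fil.xe m : ℕ) →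
      ENNReal.ofReal (Real.exp (b' * ((m : ℝ) - n))) *
        gasI6 B par6 η η1 O (nA6 n O true) (nA6 (n + Fil.xe m) O false) (fun _ => 1) ≤
      ENNReal.ofReal (Cst * (m : ℝ) ^ (3 / 8 + Ca * (ep + e1) + δ) *
        Real.exp (linE6 η η1 m H + (∑ i, oneEH6 m η (TW ep e1 m) O i + K * r + enC6 par6 O +
          kap * NUDispW.win univ fun i => ht (O i)))) := by
  intro B0 N0 hB0 hN0
  obtain ⟨K, Ca, hK, hCa, HS⟩ := s4H6 B0 N0 hB0 hN0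
  refine ⟨K, Ca, hK, hCa, ?_⟩
  intro kap hkap ep hep hep1 e1 he he1 Cc C0 hCc hC0 δ hδ
  obtain ⟨d, Cst, hd, hCst, m0, HS⟩ := HS kap hkap ep hep hep1 e1 he he1 Cc C0 hCc hC0 δ hδ
  refine ⟨d, Cst, hd, hCst, m0, ?_⟩
  intro m hm η η1 cr Bc Bc' H H' B hE n hn b' hb' r O hr h1 h2
  have key := HS m hm 0 η η1 cr Bc Bc' H H' B g0 hE 0 (Fil.xe m) m n b' r O 0 0 hb'
    (rgH6_g0 ep e1 hn hr h1 h2)
  rw [prefH6_g0, if_pos (show ∀ i : Fin 0, |(g0 i).τ| ≤ Real.log m ^ 2 from fun i => i.elim0),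
    mul_one, enH6_g0] at key
  have e : Real.exp (linE6 η η1 m H + (∑ i, oneEH6 m η (TW ep e1 m) O i + K * r + enC6 par6 O +
      kap * NUDispW.win univ fun i => ht (O i))) = Real.exp (NUSea.PLX.MF (sN m)) *
      Real.exp (confEH6 m η (TW ep e1 m) K kap O + linH η η1 m g0 (T1H ep e1 m O 0) H + 0) := by
    rw [← Real.exp_add, ← linH6_g0 η η1 m (T1H ep e1 m O 0) H]
    unfold confEH6
    congr 1
    ring
  refine (le_of_eq ?_).trans (key.trans (le_of_eq ?_))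
  · rfl
  · congr 1
    rw [e]
    ring

end gen

attribute [local instance] NUSea.seaP

variable [Fil] [Ends]

/-- the environment of the data with the cut of the strings -/
theorem env6_L {ep e1 Cc C0 B0 N0 th : ℝ} {m : ℕ} {η η1 cr Bc Bc' : ℝ → ℝ} {H H' : Bool → ℝ → ℝ}
    {k : ℕ} {β : ℝ} {x z : ℂ} (T1 : ℝ)
    (h : EnvH ep e1 Cc C0 B0 N0 th m η η1 cr Bc Bc' H H' (obL k β x z) g0) :
    EnvH ep e1 Cc C0 B0 N0 th m η η1 cr Bc Bc' H H' (obL6 T1 k β x z) g0 where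
  crv := h.crv
  cut := h.cut
  hok := h.hok
  nn := obL6_nn _ _ _ _ _
  dom := h.dom

/-- **the bound of the gas of the dislocated function** -/
theorem gas_L6 (ho : Ends.o = 0) : ∃ K Ca : ℝ, 0 ≤ K ∧ 0 ≤ Ca ∧ ∀ kap : ℝ, 0 < kap →
    ∀ ep : ℝ, 0 < ep → ep ≤ 1 / 100 → ∀ e1 : ℝ, 0 < e1 → e1 ≤ 1 / 100 → ∀ J : ℝ, 0 ≤ J →
    ∀ δ : ℝ, 0 < δ → ∃ d Cst : ℝ, 0 < d ∧ 0 ≤ Cst ∧ ∃ m0 : ℕ, ∀ k : ℕ, m0 ≤ k →
    ∀ m : ℕ, m = k + 1 + Ends.e → ∀ x z : ℂ, |x.re| ≤ NUMF.l / 10 → |x.im| ≤ 2 →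
      -(9 / 10 * NUMF.l) ≤ z.re → z.re ≤ 37 / 10 * NUMF.l → ∀ T1 : ℝ,
    ∀ n ≤ 2 * m, ∀ b' : ℝ, |b'| ≤ d → ∀ (r : ℕ) (O : Fin r → Xo), r ≤ 2 * (2 * n + Fil.xe m) →
      chgO6 O true ≤ n → chgO6 O false ≤ (n + Fil.xe m : ℕ) →
      ENNReal.ofReal (Real.exp (b' * ((m : ℝ) - n))) *
        gasI6 (obL6 T1 k (4 / 3 * (1 - ep)) x z) par6 (etL e1 J m) (etL' e1 J m) O
          (nA6 n O true) (nA6 (n + Fil.xe m) O false) (fun _ => 1) ≤
      ENNReal.ofReal (Cst * (m : ℝ) ^ (3 / 8 + Ca * (ep + e1) + δ) *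
        Real.exp (linS e1 J m x z + (∑ i, oneEH6 m (etL e1 J m) (TW ep e1 m) O i + K * r +
          enC6 par6 O + kap * NUDispW.win univ fun i => ht (O i)))) := by
  obtain ⟨B0, N0, hB0, hN0, HE⟩ := envS ho
  obtain ⟨K, Ca, hK, hCa, HG⟩ := gas_S4H6 B0 N0 hB0 hN0
  refine ⟨K, Ca, hK, hCa, ?_⟩
  intro kap hkap ep hep hep1 e1 he he1 J hJ δ hδ
  obtain ⟨Cc, C0, hCc, hC0, mE, HE⟩ := HE ep hep hep1 e1 he he1 J hJ
  obtain ⟨d, Cst, hd, hCst, mG, HG⟩ := HG kap hkap ep hep hep1 e1 he he1 Cc C0 hCc hC0 δ hδ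
  refine ⟨d, Cst, hd, hCst, max mE mG, ?_⟩
  intro k hk m hm x z hx hx' z1 z2 T1 n hn b' hb' r O hr h1 h2
  have k1 : mE ≤ k := (le_max_left _ _).trans hk
  have k2 : mG ≤ m := by
    have := (le_max_right mE mG).trans hk
    omega
  obtain ⟨cr, Bc, Bc', H', hEnv⟩ := HE k k1 x z hx hx' z1 z2 d hd.le
  rw [← hm] at hEnv
  exact HG m k2 _ _ cr Bc Bc' _ H' _ (env6_L T1 hEnv) n (by omega) b' hb' r O hr h1 h2

/-- **U1 with weights**: objects and number of quanta -/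
theorem topD6_w (ho : Ends.o = 0) (hS : StabE par6 fun _ O => enC6 par6 O) {τ : ℝ} (hτ : tauL6 ≤ τ)
    (p : ℕ) (K2 : ℝ) {del : ℝ} (hdel : 0 < del) :
    ∃ a0 : ℝ, 0 < a0 ∧ ∀ ep : ℝ, 0 < ep → ep ≤ 1 / 100 → ∀ e1 : ℝ, 0 < e1 → e1 ≤ 1 / 100 →
    ∀ J : ℝ, 0 ≤ J → Real.exp (-(2 * Real.pi * J)) + 3 * e1 + 3 * ep ≤ a0 →
    ∃ m0 : ℕ, ∀ k : ℕ, m0 ≤ k → ∀ m : ℕ, m = k + 1 + Ends.e →
      ∀ x z : ℂ, |x.re| ≤ NUMF.l / 10 → |x.im| ≤ 2 →
      -(9 / 10 * NUMF.l) ≤ z.re → z.re < 31 / 10 * NUMF.l →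
      |z.im| ≤ 3 / 20 * Real.log m + 2 → ∀ c : Bool → ℂ,
      (∀ a, ‖c a‖ = 2 * Real.cos NUP1.l) →
      ∀ gs : Bool → ℂ → ℂ, (∀ a, Measurable (gs a)) →
      (∀ a, ph (4 / 3) (rwq (mu1 k x) a) (gs a) =
        phO (Tb (Real.log m) + τ) (List.ofFn (rwq (mu1 k x) a) ++ [])) →
      ∀ (w : (r : ℕ) → (Fin r → Xo) → ℝ) (B : ℝ), 0 ≤ B →
      (∀ (r : ℕ) (O : Fin r → Xo), w r O ≤ B * Real.exp (K2 * r) *
        Real.exp (∑ i, gT e1 (Real.log m) (ht (O i)))) →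
      ENNReal.ofReal ‖Pool.Agent.PB.Pf z (mu1 k x) (yq (mu1 k x))‖ *
        ∑ n ∈ range (2 * m + 1), FE6 (ZL6 c gs k (4 / 3 * (1 - ep)) x z) par6 n (n + Fil.xe m)
          (crL e1 J m) (crL' e1 J m) (fun r O _ _ _ =>
            ENNReal.ofReal ((1 + |(n : ℝ) - m|) ^ p * w r O)) ≤
        ENNReal.ofReal (B * (m : ℝ) ^ del * Real.exp (2 * |z.im|)) := by
  obtain ⟨K, Ca, hK, hCa, HG⟩ := gas_L6 ho
  obtain ⟨c1, hc1, HT⟩ := topS6 ho hS hτ K K2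
  obtain ⟨a0, ha0, HT⟩ := HT 0 le_rfl (del / 4) (by linarith)
  have hCa1 : 0 < Ca + 1 := by linarith
  refine ⟨min a0 (del / (4 * (Ca + 1))), lt_min ha0 (by positivity), ?_⟩
  intro ep hep hep1 e1 he he1 J hJ hsm
  obtain ⟨d, Cst, hd, hCst, mG, HG⟩ := HG c1 hc1 ep hep hep1 e1 he he1 J hJ (del / 4)
    (by linarith)
  obtain ⟨CT, hCT, mT, HT⟩ := HT ep hep hep1 e1 he he1 J hJ (hsm.trans (min_le_left _ _))
  obtain ⟨Cp, hCp, HP⟩ := tilt_poly p (d := d / 2) (by linarith)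
  obtain ⟨Dd, hDd⟩ : ∃ D, D = 2 / (1 - Real.exp (-(d / 2))) := ⟨_, rfl⟩
  have hDd0 : 0 ≤ Dd := by
    rw [hDd]
    have : Real.exp (-(d / 2)) < 1 := by
      rw [← Real.exp_zero]
      exact Real.exp_lt_exp.2 (by linarith)
    exact div_nonneg (by norm_num) (by linarith)
  have t2 := (tendsto_rpow_atTop (show 0 < del / 4 by linarith)).comp
    (tendsto_natCast_atTop_atTop (R := ℝ))
  obtain ⟨m5, hm5⟩ := Filter.eventually_atTop.1 (t2.eventually_ge_atTop (CT * (Cst * Cp) * Dd))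
  refine ⟨max mG (max mT m5), ?_⟩
  intro k hk m hm x z hx hx' z1 z2 z3 c hc gs hgs hph w B hB hw
  have k2 : mG ≤ k := (le_max_left _ _).trans hk
  have k3 : mT ≤ k := (le_max_left _ _).trans ((le_max_right _ _).trans hk)
  have k4 : m5 ≤ m := by
    have := ((le_max_right mT m5).trans (le_max_right _ _)).trans hk
    omega
  have HG := HG k k2 m hm x z hx hx' z1 (by have := NUMF.l_pos; linarith)
    (Tb (Real.log m) + τ)
  obtain ⟨M, hM⟩ : ∃ M : ℝ, M = (m : ℝ) := ⟨_, rfl⟩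
  have hM1 : 1 ≤ M := by
    rw [hM]
    exact_mod_cast (by omega : 1 ≤ m)
  have hM0 : 0 < M := by linarith
  obtain ⟨ex, hex⟩ : ∃ e : ℝ, e = 3 / 8 + Ca * (ep + e1) + del / 4 := ⟨_, rfl⟩
  have key := HT k k3 m hm x z hx hx' z1 z2 z3 c hc gs hgs hph (fun n r O _ _ _ =>
    ENNReal.ofReal ((1 + |(n : ℝ) - m|) ^ p * w r O)) (fun _ r O => max (w r O) 0)
    (Cst * Cp * M ^ ex) B (d / 2) (by positivity) hB (by linarith) ?_ ?_
  · refine key.trans (ENNReal.ofReal_le_ofReal ?_)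
    rw [← hDd, ← hM]
    have hsm2 := hsm.trans (min_le_right _ _)
    have hsum : Ca * (ep + e1) ≤ del / 4 := by
      have h1 := Real.exp_pos (-(2 * Real.pi * J))
      have h2 : ep + e1 ≤ del / (4 * (Ca + 1)) := by linarith
      calc Ca * (ep + e1) ≤ (Ca + 1) * (ep + e1) := by nlinarith
        _ ≤ (Ca + 1) * (del / (4 * (Ca + 1))) := mul_le_mul_of_nonneg_left h2 hCa1.le
        _ = del / 4 := by field_simp
    have h5 : CT * (Cst * Cp) * Dd ≤ M ^ (del / 4) := by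
      rw [hM]
      exact hm5 m k4
    have h6 : M ^ ex * M ^ (-(3 / 8 : ℝ) + del / 4) ≤ M ^ (3 * del / 4) := by
      rw [← Real.rpow_add hM0, hex]
      refine Real.rpow_le_rpow_of_exponent_le hM1 ?_
      linarith
    have h7 : M ^ (del / 4) * M ^ (3 * del / 4) = M ^ del := by
      rw [← Real.rpow_add hM0]
      congr 1
      ring
    have he0 := Real.exp_pos (2 * |z.im|)
    calc CT * B * (Cst * Cp * M ^ ex) * M ^ (-(3 / 8 : ℝ) + del / 4) * Real.exp (2 * |z.im|) * Dd =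
        B * (CT * (Cst * Cp) * Dd) * (M ^ ex * M ^ (-(3 / 8 : ℝ) + del / 4)) *
          Real.exp (2 * |z.im|) := by ring
      _ ≤ B * M ^ (del / 4) * M ^ (3 * del / 4) * Real.exp (2 * |z.im|) := by
          refine mul_le_mul_of_nonneg_right ?_ he0.le
          refine mul_le_mul (mul_le_mul_of_nonneg_left h5 hB) h6 (by positivity) (by positivity)
      _ = _ := by
          rw [mul_assoc B, h7]
  · intro n _ r _ O
    refine ⟨le_max_right _ _, max_le ?_ (by split_ifs <;> positivity)⟩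
    have h1 := hw r O
    split_ifs
    · exact h1
    · rw [zero_mul, Real.exp_zero, mul_one]
      exact h1
  · intro b' hb' n hn r hr O h1 h2 _
    have hw0 : 0 ≤ max (w r O) 0 := le_max_right _ _
    obtain ⟨b'', hb'', hP⟩ := HP b' hb' (m : ℝ) n
    have hgas := HG n hn b'' (by linarith) r O hr h1 h2
    obtain ⟨g1, hg1⟩ : ∃ g1, g1 = gasI6 (obL6 (Tb (Real.log m) + τ) k (4 / 3 * (1 - ep)) x z) par6
      (etL e1 J m) (etL' e1 J m) O (nA6 n O true) (nA6 (n + Fil.xe m) O false)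
      (fun _ => 1) := ⟨_, rfl⟩
    have hc0 : gasI6 (obL6 (Tb (Real.log m) + τ) k (4 / 3 * (1 - ep)) x z) par6 (etL e1 J m)
        (etL' e1 J m) O (nA6 n O true) (nA6 (n + Fil.xe m) O false)
        (fun _ => ENNReal.ofReal ((1 + |(n : ℝ) - m|) ^ p * w r O)) =
        ENNReal.ofReal ((1 + |(n : ℝ) - m|) ^ p * w r O) * g1 := by
      rw [hg1]
      unfold gasI6
      simp only [mul_one]
      rw [lintegral_mul_const' _ _ ENNReal.ofReal_ne_top]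
      ring
    show ENNReal.ofReal (Real.exp (b' * ((m : ℝ) - n))) *
      gasI6 (obL6 (Tb (Real.log m) + τ) k (4 / 3 * (1 - ep)) x z) par6 (etL e1 J m)
        (etL' e1 J m) O (nA6 n O true) (nA6 (n + Fil.xe m) O false)
        (fun _ => ENNReal.ofReal ((1 + |(n : ℝ) - m|) ^ p * w r O)) ≤ _
    rw [hc0, ← mul_assoc, ← ENNReal.ofReal_mul (Real.exp_pos _).le]
    obtain ⟨R, hR⟩ : ∃ R : ℝ, R = Cst * (m : ℝ) ^ (3 / 8 + Ca * (ep + e1) + del / 4) *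
        Real.exp (linS e1 J m x z + (∑ i, oneEH6 m (etL e1 J m)
          (TW ep e1 m) O i + K * r + enC6 par6 O +
          c1 * NUDispW.win univ fun i => ht (O i))) := ⟨_, rfl⟩
    rw [← hg1, ← hR] at hgas
    calc ENNReal.ofReal (Real.exp (b' * ((m : ℝ) - n)) *
          ((1 + |(n : ℝ) - m|) ^ p * w r O)) * g1 ≤
        ENNReal.ofReal (max (w r O) 0 * Cp * Real.exp (b'' * ((m : ℝ) - n))) * g1 := by
          refine mul_le_mul_left (ENNReal.ofReal_le_ofReal ?_) _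
          calc Real.exp (b' * ((m : ℝ) - n)) *
                ((1 + |(n : ℝ) - m|) ^ p * w r O) =
              (Real.exp (b' * ((m : ℝ) - n)) *
                (1 + |(n : ℝ) - m|) ^ p) * w r O := by ring
            _ ≤ (Real.exp (b' * ((m : ℝ) - n)) *
                (1 + |(n : ℝ) - m|) ^ p) * max (w r O) 0 :=
                mul_le_mul_of_nonneg_left (le_max_left _ _) (by positivity)
            _ ≤ (Cp * Real.exp (b'' * ((m : ℝ) - n))) * max (w r O) 0 :=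
                mul_le_mul_of_nonneg_right hP hw0
            _ = _ := by ring
      _ = ENNReal.ofReal (max (w r O) 0 * Cp) *
          (ENNReal.ofReal (Real.exp (b'' * ((m : ℝ) - n))) * g1) := by
          rw [ENNReal.ofReal_mul (by positivity), mul_assoc]
      _ ≤ ENNReal.ofReal (max (w r O) 0 * Cp) * ENNReal.ofReal R := mul_le_mul_right hgas _
      _ = _ := by
          rw [← ENNReal.ofReal_mul (by positivity)]
          congr 1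
          rw [hR, hM, hex]
          ring

/-- **U1**: the mass of the dislocated function -/
theorem topD6_mass (ho : Ends.o = 0) (hS : StabE par6 fun _ O => enC6 par6 O) {τ : ℝ}
    (hτ : tauL6 ≤ τ) {del : ℝ} (hdel : 0 < del) :
    ∃ a0 : ℝ, 0 < a0 ∧ ∀ ep : ℝ, 0 < ep → ep ≤ 1 / 100 → ∀ e1 : ℝ, 0 < e1 → e1 ≤ 1 / 100 →
    ∀ J : ℝ, 0 ≤ J → Real.exp (-(2 * Real.pi * J)) + 3 * e1 + 3 * ep ≤ a0 →
    ∃ m0 : ℕ, ∀ k : ℕ, m0 ≤ k → ∀ m : ℕ, m = k + 1 + Ends.e →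
      ∀ x z : ℂ, |x.re| ≤ NUMF.l / 10 → |x.im| ≤ 2 →
      -(9 / 10 * NUMF.l) ≤ z.re → z.re < 31 / 10 * NUMF.l →
      |z.im| ≤ 3 / 20 * Real.log m + 2 → ∀ c : Bool → ℂ,
      (∀ a, ‖c a‖ = 2 * Real.cos NUP1.l) →
      ∀ gs : Bool → ℂ → ℂ, (∀ a, Measurable (gs a)) →
      (∀ a, ph (4 / 3) (rwq (mu1 k x) a) (gs a) =
        phO (Tb (Real.log m) + τ) (List.ofFn (rwq (mu1 k x) a) ++ [])) →
      ENNReal.ofReal ‖Pool.Agent.PB.Pf z (mu1 k x) (yq (mu1 k x))‖ *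
        ∑ n ∈ range (2 * m + 1), FE6 (ZL6 c gs k (4 / 3 * (1 - ep)) x z) par6 n (n + Fil.xe m)
          (crL e1 J m) (crL' e1 J m) (fun _ _ _ _ _ => 1) ≤
        ENNReal.ofReal ((m : ℝ) ^ del * Real.exp (2 * |z.im|)) := by
  obtain ⟨a0, ha0, H⟩ := topD6_w ho hS hτ 0 0 hdel
  refine ⟨a0, ha0, ?_⟩
  intro ep hep hep1 e1 he he1 J hJ hsm
  obtain ⟨m0, H⟩ := H ep hep hep1 e1 he he1 J hJ hsm
  refine ⟨m0, ?_⟩
  intro k hk m hm x z hx hx' z1 z2 z3 c hc gs hgs hph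
  have h := H k hk m hm x z hx hx' z1 z2 z3 c hc gs hgs hph (fun _ _ => 1) 1 zero_le_one
    (fun r O => by
      rw [one_mul, zero_mul, Real.exp_zero, one_mul]
      refine Real.one_le_exp (Finset.sum_nonneg fun i _ => ?_)
      exact PBP.PLX.gT_nonneg _ _ _)
  simpa using h

end PBT.PLX

end
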