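import Pool.Agent.PHK.UXof6
import Pool.Agent.PHK.FamL6
import Pool.Agent.PHK.TopD6

/-!
# (P): U1, U3, U4 for the dislocated function

* `BS6`, `linFS6`: one body data and exponent of the family `famS6 e` (`e = Ends.e` rows missing);
* `topF_S6`: `TopF6` (72's `topS6`); `envF_S6`: `EnvF6`;
* **`ux_famS6`**, `ux_famL6`, `ux_famT6`.
-/

set_option autoImplicit false
set_option linter.unusedSectionVars false

noncomputable section

open Complex MeasureTheory Finset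
open scoped ENNReal
open PLX (Fil Ends)

namespace PBU.PLX

open NUO NUP1 NUP1S NUP1S.Ab NUP1S.AbC NUGC.PLX PBF.PLX PBP.PLX
open PBL.PLX (mu1)
open PBT.PLX (linS etL etL' crL crL' envS env6_L)
open Pool.Agent.PLX (rwq yq)
open PHK

attribute [local instance] NUSea.seaP

variable [Fil] [Ends]

/-- one body data of `famS6 e` -/
def BS6 (ep : ℝ) (m : ℕ) (i : ℂ × ℂ) : OB :=
  obL6 (T1L m) (m - 1 - Ends.e) (4 / 3 * (1 - ep)) i.1 i.2

/-- exponent of `famS6 e` -/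
def linFS6 (e1 J : ℝ) (m : ℕ) (i : ℂ × ℂ) : ℝ := linS e1 J m i.1 i.2

/-- **`TopF6` for the dislocated function** -/
theorem topF_S6 (ho : Ends.o = 0) (hS : StabE par6 fun _ O => enC6 par6 O) :
    TopF6 (famS6 Ends.e) BS6 linFS6 := by
  intro K K2
  obtain ⟨c1, hc1, H⟩ := topS6 ho hS (τ := tauF) (tauL6_eq ho).le K K2
  refine ⟨c1, hc1, fun c' hc' δ hδ => ?_⟩
  obtain ⟨a0, ha0, H⟩ := H c' hc' δ hδ
  refine ⟨a0, ha0, fun ep hep hep1 e1 he he1 J hJ hsm => ?_⟩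
  obtain ⟨C, hC, m0, H⟩ := H ep hep hep1 e1 he he1 J hJ hsm
  refine ⟨C, hC, m0 + 2, fun m hm i hi φ w Q Bw d hQ hBw hd hw hg => ?_⟩
  have he' := Ends.le
  obtain ⟨k, hk⟩ : ∃ k, k = m - 1 - Ends.e := ⟨_, rfl⟩
  have hkm : m = k + 1 + Ends.e := by omega
  obtain ⟨x, z⟩ := i
  obtain ⟨h1, h2, h3, h4, h5⟩ := hi
  dsimp only at h1 h2 h3 h4 h5
  have hl := NUP1.l_pos
  have hx : |x.re| ≤ NUP1.l / 2 := by linarith
  have key := H k (by omega) m hkm x z h1 h2 h3 h4 h5 (ccS6 (k + 1)) (norm_ccS6 (k + 1))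
    (g0L m k x) (meas_g0L m k hx) (ph_g0L m k x) φ w Q Bw d hQ hBw hd hw
  have hg' := hg
  unfold BS6 linFS6 at hg'
  rw [← hk] at hg'
  have key := key hg'
  have hx6 := famS6_xe ho m
  have hZ : (famS6 Ends.e).Z ep m (x, z) =
      ZL6 (ccS6 (k + 1)) (g0L m k x) k (4 / 3 * (1 - ep)) x z := by
    rw [hk]
    rfl
  have hPf : (famS6 Ends.e).Pf m (x, z) = Pool.Agent.PB.Pf z (mu1 k x) (yq (mu1 k x)) := by
    rw [hk]
    rfl
  have htop : (famS6 Ends.e).top m ≤ 2 * m := by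
    show 2 * (m - Ends.e) ≤ 2 * m
    omega
  rw [hx6, hZ, hPf]
  refine (mul_le_mul' le_rfl (Finset.sum_le_sum_of_subset (Finset.range_mono ?_))).trans key
  omega

/-- **curve, cutoff, potential and one body data of the dislocated function** -/
theorem envF_S6 (ho : Ends.o = 0) : EnvF6 (famS6 Ends.e) BS6 linFS6 := by
  obtain ⟨B0, N0, hB0, hN0, HH⟩ := envS ho
  refine ⟨B0, N0, hB0, hN0, fun ep hep hep1 e1 he he1 J hJ => ?_⟩
  obtain ⟨Cc, C0, hCc, hC0, m0, HH⟩ := HH ep hep hep1 e1 he he1 J hJ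
  refine ⟨Cc, C0, hCc, hC0, m0 + 2, fun m hm i hi th hth => ?_⟩
  have he' := Ends.le
  obtain ⟨k, hk⟩ : ∃ k, k = m - 1 - Ends.e := ⟨_, rfl⟩
  have hkm : k + 1 + Ends.e = m := by omega
  obtain ⟨x, z⟩ := i
  obtain ⟨h1, h2, h3, h4, h5⟩ := hi
  dsimp only at h1 h2 h3 h4 h5
  have hl := NUP1.l_pos
  have h4' : z.re ≤ 37 / 10 * NUP1.l := by linarith
  obtain ⟨cr, Bc, Bc', H', hEnv⟩ := HH k (by omega) x z h1 h2 h3 h4' th hth
  rw [hkm] at hEnv
  have hB : BS6 ep m (x, z) = obL6 (T1L m) k (4 / 3 * (1 - ep)) x z := by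
    rw [hk]
    rfl
  rw [hB]
  exact ⟨cr, Bc, Bc', _, H', env6_L (T1L m) hEnv, le_rfl⟩

/-- **U1, U3, U4 for the dislocated function**, `e = Ends.e` rows missing -/
theorem ux_famS6 (ho : Ends.o = 0) (hS : StabE par6 fun _ O => enC6 par6 O) :
    UX6 (famS6 Ends.e) :=
  ux_of6 (fun _ _ => (Real.exp_pos _).le) (topF_S6 ho hS) (envF_S6 ho)

omit [Ends] in
/-- **U1, U3, U4 for the dislocated function** -/
theorem ux_famL6 (hS : StabE par6 fun _ O => enC6 par6 O) : UX6 famL6 :=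
  @ux_famS6 _ _root_.PLX.ends0 rfl hS

omit [Ends] in
/-- **U1, U3, U4 for the left end of (TR)** -/
theorem ux_famT6 (hS : StabE par6 fun _ O => enC6 par6 O) : UX6 famT6 :=
  @ux_famS6 _ _root_.PLX.ends1 rfl hS

end PBU.PLX

end
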