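import Pool.Agent.PHK.ZLegL6
import Pool.Agent.PHK.CloseE6
import Pool.Agent.PHK.UXT6

/-!
# (P): the derivatives in the height of the legs, in the form of `closeE6`

* `hz_of6`: `HZ6 c` for `0 ≤ c ≤ 7/10` from `FFth` and `UX6 famL6`;
* **`hz6`**: `HZ6 (1/2)` from `FFth` and the certificate `StabE`.
-/

set_option autoImplicit false

noncomputable section

open Complex MeasureTheory Filter Topology Set

open PLX (Fil)

namespace PBLX.PLX

open Pool.Agent.PLX (FFth)
open PHK (StabE par6 enC6)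
open PBU.PLX (famL6 UX6)

attribute [local instance] NUSea.seaP

variable [Fil]

theorem hz_of6 (hFF : FFth) (hX : UX6 famL6) {c : ℝ} (hc0 : 0 ≤ c) (hc : c ≤ 7 / 10) : HZ6 c := by
  obtain ⟨a0, ha0, H⟩ := hX 1 6 (1 / 100) (by norm_num)
  refine ⟨a0, ha0, fun ep e1 J h1 h2 h3 h4 h5 h6 => ?_⟩
  exact PBLg.PLX.zleg6 hFF (H ep e1 J h1 h3 h5 h6) one_pos le_rfl h1 h2 h3 h4 h5 hc0 (by linarith)

/-- **the derivatives in the height of the legs** -/
theorem hz6 (hFF : FFth) (hS : StabE par6 fun _ O => enC6 par6 O) : HZ6 (1 / 2) :=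
  hz_of6 hFF (PBU.PLX.ux_famL6 hS) (by norm_num) (by norm_num)

end PBLX.PLX

end
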