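import Pool.Agent.PHK.HolU6

/-!
The Hölder inequality for the functional with moduli of (P) is in `PHK/HolU6` (namespace `PBF.PLX`).
-/
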