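import Pool.Agent.PHK.HEn
import Pool.Agent.PHD.SeaL
import Pool.Agent.PHD.HolG
import Pool.Agent.PHD.Dbl

/-!
# Particles on the rectangles, quanta on the line, holes on the full lines: data

* `Geo6`: positions (hole lines `xl`, rectangles `[x, y]`, quanta on `yl`, open strips);
* `Sp6`: one species (one body function `W`, double poles `b i`, regular part `F`, inverse `E`,
  zeros `d j`);
* `Wq`: field of the quanta; **`GPk`**: `n + n'` quanta on the line and `k + k'` particles on the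
  rectangles.
-/

set_option autoImplicit false
set_option linter.unusedSectionVars false

noncomputable section

open Complex MeasureTheory NUP1 Set Filter Topology
open scoped Real
open Pool.Agent.PHD (one QP JJ oP xP JJ2 db hol qr WW wG gN hX lcn)
open Pool.Agent.PHK (lM lG lK)
open NUP1.Bd (qg)

namespace NUP1S

/-- no double poles -/
abbrev p00 : Bool → Finset ℂ := fun _ => ∅

theorem Wt_p00 (W : Bool → ℂ → ℂ) (s : Bool) (u : ℂ) : Wt p00 W s u = W s u := by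
  simp [Wt]

/-- positions: hole lines `xl`, rectangles `[x, y]`, quanta on `yl`, open strips `(a₁, b₁)` of the
particles, `(a, b₂)` of the holes -/
structure Geo6 (xl : Bool → ℝ) (a a₁ x y b₁ b₂ yl : ℝ) : Prop where
  h1 : a < xl false
  h2 : xl false ≤ x
  h3 : x < y
  h4 : y ≤ xl true
  h5 : a ≤ a₁
  h6 : a₁ < x
  h7 : y < b₁
  h8 : b₁ ≤ a + l
  h9 : xl true < b₂
  h10 : b₂ ≤ yl
  h11 : yl < a + l

/-- one species: one body function `W` (charge `q0` of the gas), double poles `b i`, regular part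
`F`, inverse `E`, zeros `d j` -/
structure Sp6 (xl : Bool → ℝ) (a a₁ x y b₁ b₂ yl : ℝ) (κ κ' q0 : ℝ) (s : Bool) {ιb ν : Type*}
    [Fintype ιb] [Fintype ν] (b : ιb → ℂ) (d : ν → ℂ) (W F E : ℂ → ℂ) : Prop where
  bin : ∀ i, x < (b i).re ∧ (b i).re < y
  din : ∀ j, xl false < (d j).re ∧ (d j).re < xl true
  dinj : Function.Injective d
  bd : ∀ i j, b i ≠ d j
  fan : DifferentiableOn ℂ F (OS a₁ b₁)
  ean : DifferentiableOn ℂ E (OS a b₂)
  fe : ∀ z ∈ OS a₁ b₁, z ∈ OS a b₂ → F z * E z = ∏ j, (z - d j)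
  wl : ∀ z : ℂ, z.re = xl false ∨ z.re = xl true →
    W z * (∏ i, (z - b i) ^ 2) * E z = ∏ j, (z - d j) ∨ (W z = 0 ∧ E z = 0)
  eb : ∃ C : ℝ, 0 ≤ C ∧ ∀ z ∈ CS (xl false) (xl true),
    ‖E z‖ ≤ C * Real.exp ((κ' + 2 * q0 * (sg s : ℤ)) * |z.im|)
  wm : Measurable fun t : ℝ => W (vl yl t)
  wb : ∃ C : ℝ, 0 ≤ C ∧ ∀ t : ℝ, ‖W (vl yl t)‖ ≤ C * Real.exp (-((κ + 2 * q0 * (sg s : ℤ)) * |t|))

/-- field of the quanta on the line -/
def Wq (yl : ℝ) {n n' : ℕ} (t : Fin n ⊕ Fin n' → ℝ) (s : Bool) (z : ℂ) : ℂ :=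
  ∏ i, PP s (qC yl n n' i).sp (z - vl yl (t i))

/-- `k + k'` particles on the rectangles in the field of the quanta -/
def Jr (x y R yl : ℝ) {ιb ιb' : Type*} [Fintype ιb] [Fintype ιb'] (b : ιb → ℂ) (b' : ιb' → ℂ)
    (F F' : ℂ → ℂ) (k k' : ℕ) {n n' : ℕ} (t : Fin n ⊕ Fin n' → ℝ) : ℂ :=
  JJ2 Pool.Agent.PHK.rM (rP x y R) (fun t => -rO x y R t) Pool.Agent.PHK.rM (rP x y R) (fun t => -rO x y R t)
    (fun z => F z * Wq yl t true z) (fun z => F' z * Wq yl t false z) q qg (db b) (db b') k k' /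
      (k.factorial * k'.factorial)

/-- **`n + n'` quanta on the line, `k + k'` particles on the rectangles** -/
def GPk (x y R yl : ℝ) {ιb ιb' : Type*} [Fintype ιb] [Fintype ιb'] (b : ιb → ℂ) (b' : ιb' → ℂ)
    (W : Bool → ℂ → ℂ) (F F' : ℂ → ℂ) (n n' k k' : ℕ) : ℂ :=
  ((n.factorial : ℕ) : ℂ)⁻¹ * ((n'.factorial : ℕ) : ℂ)⁻¹ *
    ∫ t : Fin n ⊕ Fin n' → ℝ, Fc p00 W (qC yl n n') t * ((-1) ^ (k + k') *
      Jr x y R yl b b' F F' k k' t) ∂(Measure.pi fun _ => volume)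

end NUP1S

end
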