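import Pool.Agent.PHK.HoleT

/-!
# The exact identity (P): data of the right side

`N = card (ιb ×ₗ Bool)` double points `db b` of the first species, zeros `d`; second species `b'`, `d'`.
* `bH`: weight of a hole of a species; `gD`: one body functions of the quanta; `cH`: constant;
* **`TH`**: the term of `h + h'` free holes and the glued holes `D`, `D'`.
-/

set_option autoImplicit false
set_option linter.unusedSectionVars false

noncomputable section

open Complex MeasureTheory NUP1 Set Filter Topology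
open scoped Real
open Pool.Agent.PHD (one QP JJ oP xP JJ2 db hol qr WW wG gN hX lcn)
open Pool.Agent.PHK (lM lG lK)
open NUP1.Bd (qg)

namespace NUP1S

section

variable {ιb ν ιb' ν' : Type} [LinearOrder ιb] [Fintype ιb] [LinearOrder ν] [Fintype ν]
  [LinearOrder ιb'] [Fintype ιb'] [LinearOrder ν'] [Fintype ν']

/-- one body weight of a free hole of the first species -/
def bH1 (xl : Bool → ℝ) (b : ιb → ℂ) (d : ν → ℂ) (D : Finset ν) (b' : ιb' → ℂ) (d' : ν' → ℂ)
    (D' : Finset ν') (E : ℂ → ℂ) (ξ : Bool × ℝ) : ℂ :=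
  one (lG xl) lK (hX (hol (fun _ => E) qr (db b)) q qg d D (db b') d' D') (Sum.elim (db b) d) ξ

/-- one body weights of the free holes -/
def bH (xl : Bool → ℝ) (b : ιb → ℂ) (d : ν → ℂ) (D : Finset ν) (b' : ιb' → ℂ) (d' : ν' → ℂ)
    (D' : Finset ν') (E E' : ℂ → ℂ) (s : Bool) (ξ : Bool × ℝ) : ℂ :=
  if s then bH1 xl b d D b' d' D' E ξ else bH1 xl b' d' D' b d D E' ξ

/-- one body functions of the quanta -/
def gD (W : Bool → ℂ → ℂ) (b : ιb → ℂ) (d : ν → ℂ) (D : Finset ν) (b' : ιb' → ℂ) (d' : ν' → ℂ)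
    (D' : Finset ν') (s : Bool) (u : ℂ) : ℂ :=
  W s u * (((∏ i, PP s true (u - db b i)) * ∏ i, PP s false (u - db b' i)) *
    ((∏ j ∈ D, (PP s true (u - d j))⁻¹) * ∏ j ∈ D', (PP s false (u - d' j))⁻¹))

/-- the constant of the double points and of the glued holes -/
def cH (b : ιb → ℂ) (d : ν → ℂ) (D : Finset ν) (b' : ιb' → ℂ) (d' : ν' → ℂ) (D' : Finset ν')
    (F E F' E' : ℂ → ℂ) : ℂ :=
  WW F qr (db b) * WW F' qr (db b') * (∏ i, ∏ i', qg (db b i - db b' i')) *
    (wG (gN (hol (fun _ => E) qr (db b)) qg (db b')) q (db b) d D *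
      wG (gN (hol (fun _ => E') qr (db b')) qg (db b)) q (db b') d' D' *
      ∏ j ∈ D, ∏ j' ∈ D', qg (d j - d' j'))

/-- **the term of `h + h'` free holes and of the glued holes `D`, `D'`**, `n + n'` quanta -/
def TH (xl : Bool → ℝ) (yl : ℝ) (W : Bool → ℂ → ℂ) (b : ιb → ℂ) (d : ν → ℂ) (D : Finset ν)
    (b' : ιb' → ℂ) (d' : ν' → ℂ) (D' : Finset ν') (F E F' E' : ℂ → ℂ) (h h' n n' : ℕ) : ℂ :=
  cH b d D b' d' D' F E F' E' * (((h.factorial : ℕ) : ℂ)⁻¹ * ((h'.factorial : ℕ) : ℂ)⁻¹) *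
    ∫ p : HP h h', hW (bH xl b d D b' d' D' E E') xl p *
      gas n n' yl (adH (gD W b d D b' d' D') (hS h h') (hZ xl p) true)
        (adH (gD W b d D b' d' D') (hS h h') (hZ xl p) false) ∂(nuH h h')

/-- **the right side of the exact identity**, `a + a'` quanta -/
def exR (xl : Bool → ℝ) (yl : ℝ) (W : Bool → ℂ → ℂ) (b : ιb → ℂ) (d : ν → ℂ) (b' : ιb' → ℂ)
    (d' : ν' → ℂ) (F E F' E' : ℂ → ℂ) (a a' : ℕ) : ℂ :=
  ∑ D ∈ (Finset.univ : Finset ν).powerset, ∑ D' ∈ (Finset.univ : Finset ν').powerset,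
    ∑ h ∈ Finset.range (2 * Fintype.card ιb + 1), ∑ h' ∈ Finset.range (2 * Fintype.card ιb' + 1),
      if (D.card + h ≤ 2 * Fintype.card ιb ∧ 2 * Fintype.card ιb ≤ a + D.card + h) ∧
        (D'.card + h' ≤ 2 * Fintype.card ιb' ∧ 2 * Fintype.card ιb' ≤ a' + D'.card + h') then
        (-1 : ℂ) ^ (h + h') * TH xl yl W b d D b' d' D' F E F' E' h h'
          (a + D.card + h - 2 * Fintype.card ιb) (a' + D'.card + h' - 2 * Fintype.card ιb')
      else 0

end

end NUP1S

end
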