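import Pool.Agent.PHK.HoleE

/-!
# The field of the quanta split off; holes and quanta together

* `hol_mul`, `gN_mul`, `hX_mul`, `hW_eq`; **`seaR_split`**;
* `Fc_gD`: the field of the double points and of the glued holes on the quanta;
* **`hqD`**: the hypotheses `HQ` of the Fubini theorem.
-/

set_option autoImplicit false
set_option linter.unusedSectionVars false
set_option linter.unusedVariables false

noncomputable section

open Complex MeasureTheory NUP1 Set Filter Topology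
open scoped Real
open Pool.Agent.PHD (one QP JJ oP xP JJ2 db hol qr WW wG gN hX lcn fG Gf Fa Rf Pq Gp Vl Cg)
open Pool.Agent.PHK (lM lG lK)
open NUP1.Bd (qg)

namespace NUP1S

/-! ### algebra -/

theorem hol_mul {ι : Type*} [Fintype ι] (E P : ℂ → ℂ) (c : ι → ℂ) :
    hol (fun _ z => E z * P z) qr c = fun z => hol (fun _ => E) qr c z * P z := by
  funext z
  unfold hol
  ring

theorem gN_mul {ι : Type*} [Fintype ι] (G P g : ℂ → ℂ) (c : ι → ℂ) :
    gN (fun z => G z * P z) g c = fun z => gN G g c z * P z := by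
  funext z
  unfold gN
  ring

theorem hX_mul {ι ν ν₂ : Type*} [Fintype ι] (G P q g : ℂ → ℂ) (d : ν → ℂ) (D : Finset ν)
    (c : ι → ℂ) (d₂ : ν₂ → ℂ) (D₂ : Finset ν₂) : hX (fun z => G z * P z) q g d D c d₂ D₂ =
      fun z => hX G q g d D c d₂ D₂ z * P z := by
  funext z
  unfold hX fG gN
  ring

section

variable {ιb ν ιb' ν' : Type} [LinearOrder ιb] [Fintype ιb] [LinearOrder ν] [Fintype ν]
  [LinearOrder ιb'] [Fintype ιb'] [LinearOrder ν'] [Fintype ν']
  {b : ιb → ℂ} {d : ν → ℂ} {b' : ιb' → ℂ} {d' : ν' → ℂ} {xl : Bool → ℝ}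

theorem hW_eq (D : Finset ν) (D' : Finset ν') (E E' : ℂ → ℂ) {h h' : ℕ} (p : HP h h') :
    hW (bH xl b d D b' d' D' E E') xl p =
      oP (lG xl) lK (hX (hol (fun _ => E) qr (db b)) q qg d D (db b') d' D') q (Sum.elim (db b) d) p.1 *
      oP (lG xl) lK (hX (hol (fun _ => E') qr (db b')) q qg d' D' (db b) d D) q
        (Sum.elim (db b') d') p.2 * xP (lG xl) (lG xl) qg p.1 p.2 := by
  unfold hW
  rw [gpw_holes]
  unfold oP
  have e1 : ∀ ξ, bH xl b d D b' d' D' E E' true ξ =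
      one (lG xl) lK (hX (hol (fun _ => E) qr (db b)) q qg d D (db b') d' D') (Sum.elim (db b) d) ξ :=
    fun ξ => rfl
  have e2 : ∀ ξ, bH xl b d D b' d' D' E E' false ξ =
      one (lG xl) lK (hX (hol (fun _ => E') qr (db b')) q qg d' D' (db b) d D)
        (Sum.elim (db b') d') ξ := fun ξ => rfl
  simp only [e1, e2]
  ring

/-- **the field of the quanta split off** -/
theorem seaR_split (P P' F E F' E' : ℂ → ℂ) (m m' : ℕ) :
    seaR xl b d b' d' (fun z => F z * P z) (fun z => E z * (P z)⁻¹) (fun z => F' z * P' z)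
      (fun z => E' z * (P' z)⁻¹) m m' =
    ∑ D ∈ (Finset.univ : Finset ν).powerset, ∑ D' ∈ (Finset.univ : Finset ν').powerset,
      if D.card ≤ m ∧ D'.card ≤ m' then (-1 : ℂ) ^ (D.card + D'.card) *
        (cH b d D b' d' D' F E F' E' * (((m - D.card).factorial : ℂ)⁻¹ *
          ((m' - D'.card).factorial : ℂ)⁻¹)) *
        (((∏ i, P (db b i)) * (∏ i, P' (db b' i)) *
          ((∏ j ∈ D, (P (d j))⁻¹) * ∏ j ∈ D', (P' (d' j))⁻¹)) *
          ∫ p : HP (m - D.card) (m' - D'.card), hW (bH xl b d D b' d' D' E E') xl p *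
            ((∏ i, (P (lG xl (p.1 i)))⁻¹) * ∏ i, (P' (lG xl (p.2 i)))⁻¹)
            ∂(nuH (m - D.card) (m' - D'.card))) else 0 := by
  unfold seaR
  rw [Finset.mul_sum]
  refine Finset.sum_congr rfl fun D _ => ?_
  rw [Finset.mul_sum]
  refine Finset.sum_congr rfl fun D' _ => ?_
  split_ifs with hD
  · have e1 := hol_mul E (fun z => (P z)⁻¹) (db b)
    have e2 := hol_mul E' (fun z => (P' z)⁻¹) (db b')
    simp only [e1, e2, gN_mul, hX_mul]
    rw [Pool.Agent.PHD.WW_mul, Pool.Agent.PHD.WW_mul, Pool.Agent.PHD.wG_mul, Pool.Agent.PHD.wG_mul]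
    have e3 : JJ2 lM (lG xl) lK lM (lG xl) lK
        (fun z => hX (hol (fun _ => E) qr (db b)) q qg d D (db b') d' D' z * (P z)⁻¹)
        (fun z => hX (hol (fun _ => E') qr (db b')) q qg d' D' (db b) d D z * (P' z)⁻¹) q qg
        (Sum.elim (db b) d) (Sum.elim (db b') d') (m - D.card) (m' - D'.card) =
        ∫ p : HP (m - D.card) (m' - D'.card), hW (bH xl b d D b' d' D' E E') xl p *
            ((∏ i, (P (lG xl (p.1 i)))⁻¹) * ∏ i, (P' (lG xl (p.2 i)))⁻¹)
            ∂(nuH (m - D.card) (m' - D'.card)) := by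
      unfold JJ2
      refine integral_congr_ae (Eventually.of_forall fun p => ?_)
      simp only []
      rw [Pool.Agent.PHD.oP_mul, Pool.Agent.PHD.oP_mul, hW_eq]
      ring
    rw [e3]
    unfold cH
    rw [div_eq_mul_inv, mul_inv]
    ring
  · rw [mul_zero]

/-! ### the quanta -/

theorem prod_Wq {yl : ℝ} {n n' : ℕ} (t : Fin n ⊕ Fin n' → ℝ) (s : Bool) {ι : Type*}
    (T : Finset ι) (c : ι → ℂ) : ∏ i ∈ T, Wq yl t s (c i) =
      ∏ a, ∏ i ∈ T, PP (qC yl n n' a).sp s ((qC yl n n' a).pos (t a) - c i) := by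
  unfold Wq
  rw [Finset.prod_comm]
  refine Finset.prod_congr rfl fun a _ => Finset.prod_congr rfl fun i _ => ?_
  rw [PP_comm, ← PP_neg, neg_sub, qC_pos]

/-- the field of the double points and of the glued holes -/
theorem Fc_gD {yl : ℝ} {n n' : ℕ} (W : Bool → ℂ → ℂ) (D : Finset ν) (D' : Finset ν')
    (t : Fin n ⊕ Fin n' → ℝ) : Fc p00 (gD W b d D b' d' D') (qC yl n n') t =
      Fc p00 W (qC yl n n') t * ((∏ i, Wq yl t true (db b i)) * (∏ i, Wq yl t false (db b' i)) *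
          ((∏ j ∈ D, (Wq yl t true (d j))⁻¹) * ∏ j ∈ D', (Wq yl t false (d' j))⁻¹)) := by
  rw [Finset.prod_inv_distrib, Finset.prod_inv_distrib, prod_Wq, prod_Wq, prod_Wq, prod_Wq,
    ← Finset.prod_inv_distrib, ← Finset.prod_inv_distrib, ← Finset.prod_mul_distrib,
    ← Finset.prod_mul_distrib, ← Finset.prod_mul_distrib]
  unfold Fc
  rw [mul_right_comm]
  congr 1
  rw [← Finset.prod_mul_distrib]
  refine Finset.prod_congr rfl fun a _ => ?_
  unfold hh
  rw [Wt_p00, Wt_p00]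
  unfold gD
  simp only [Finset.prod_inv_distrib]
  ring

/-- the field of the free holes -/
theorem prod_holes {yl : ℝ} {n n' h h' : ℕ} (t : Fin n ⊕ Fin n' → ℝ) (p : HP h h') :
    ((∏ i, (Wq yl t true (lG xl (p.1 i)))⁻¹) * ∏ i, (Wq yl t false (lG xl (p.2 i)))⁻¹) =
      ∏ j, ∏ i, (PP (qC yl n n' i).sp (hS h h' j) (vl yl (t i) - hZ xl p j))⁻¹ := by
  rw [Fintype.prod_sum_type]
  simp only [Finset.prod_inv_distrib]
  congr 2
  · rw [prod_Wq t true Finset.univ (fun i => lG xl (p.1 i)), Finset.prod_comm]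
    refine Finset.prod_congr rfl fun a _ => Finset.prod_congr rfl fun i _ => ?_
    rw [qC_pos]
    rfl
  · rw [prod_Wq t false Finset.univ (fun i => lG xl (p.2 i)), Finset.prod_comm]
    refine Finset.prod_congr rfl fun a _ => Finset.prod_congr rfl fun i _ => ?_
    rw [qC_pos]
    rfl

/-! ### bounds -/

/-- one fixed point and a quantum -/
theorem PPv_bd {y w δ : ℝ} {z : ℂ} (hw : w < l) (hδ : 0 < δ) (h1 : y - z.re ≤ w)
    (h2 : δ ≤ y - z.re) : ∃ C : ℝ, 1 ≤ C ∧ ∀ (s s' : Bool) (t : ℝ),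
      ‖PP s s' (vl y t - z)‖ ≤ C * Real.exp (2 * (sg s * sg s' : ℤ) * |t|) ∧
      ‖(PP s s' (vl y t - z))⁻¹‖ ≤ C * Real.exp (-(2 * (sg s * sg s' : ℤ) * |t|)) := by
  have hre : |(vl y 0 - z).re| = y - z.re := by
    rw [sub_re, re_vl, abs_of_nonneg]
    linarith
  obtain ⟨C, hC, hb⟩ := PP_bound (w := w) (by linarith) hw
  obtain ⟨C', hC', hb'⟩ := PPi_bound hw hδ
  refine ⟨max C C' * Real.exp (2 * |z.im|), ?_, fun s s' t => ?_⟩
  · have e1 : 1 ≤ max C C' := hC.trans (le_max_left _ _)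
    have e2 : 1 ≤ Real.exp (2 * |z.im|) := Real.one_le_exp (by positivity)
    nlinarith
  · have a0 : |(vl y t - z).re| = y - z.re := by
      rw [sub_re, re_vl, abs_of_nonneg]
      linarith
    have a1 : |(vl y t - z).im| ≤ |t| + |z.im| := by
      rw [sub_im, im_vl]
      exact abs_sub _ _
    have a2 : |t| ≤ |(vl y t - z).im| + |z.im| := by
      rw [sub_im, im_vl]
      have := abs_add_le (t - z.im) z.im
      rwa [sub_add_cancel] at this
    have m0 : 0 ≤ max C C' := zero_le_one.trans (hC.trans (le_max_left _ _))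
    constructor
    · refine (hb s s' _ (by rw [a0]; exact h1)).trans ?_
      refine (mul_le_mul_of_nonneg_right (le_max_left C C') (Real.exp_pos _).le).trans ?_
      rw [mul_assoc, ← Real.exp_add]
      refine mul_le_mul_of_nonneg_left (Real.exp_le_exp.2 ?_) m0
      cases s <;> cases s' <;> simp only [sg, if_true, if_false, Bool.false_eq_true] <;>
        push_cast <;> nlinarith
    · refine (hb' s s' _ (by rw [a0]; exact h1) (by rw [a0]; exact h2)).trans ?_
      refine (mul_le_mul_of_nonneg_right (le_max_right C C') (Real.exp_pos _).le).trans ?_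
      rw [mul_assoc, ← Real.exp_add]
      refine mul_le_mul_of_nonneg_left (Real.exp_le_exp.2 ?_) m0
      cases s <;> cases s' <;> simp only [sg, if_true, if_false, Bool.false_eq_true] <;>
        push_cast <;> nlinarith

/-- products of bounded factors -/
theorem prod_bdt {ι : Type*} (T : Finset ι) {f : ι → ℝ → ℂ} {a : ℝ}
    (h : ∀ i ∈ T, ∃ C : ℝ, 0 ≤ C ∧ ∀ t, ‖f i t‖ ≤ C * Real.exp (a * |t|)) :
    ∃ C : ℝ, 0 ≤ C ∧ ∀ t, ‖∏ i ∈ T, f i t‖ ≤ C * Real.exp (T.card * a * |t|) := by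
  classical
  choose! C h1 h2 using h
  refine ⟨∏ i ∈ T, C i, Finset.prod_nonneg fun i hi => h1 i hi, fun t => ?_⟩
  rw [norm_prod]
  refine (Finset.prod_le_prod (fun _ _ => norm_nonneg _) fun i hi => h2 i hi t).trans
    (le_of_eq ?_)
  rw [Finset.prod_mul_distrib, Finset.prod_const, ← Real.exp_nat_mul]
  congr 2
  ring

theorem bdt_mul {f g : ℝ → ℂ} {a a' : ℝ} (h : ∃ C : ℝ, 0 ≤ C ∧ ∀ t, ‖f t‖ ≤ C * Real.exp (a * |t|))
    (h' : ∃ C : ℝ, 0 ≤ C ∧ ∀ t, ‖g t‖ ≤ C * Real.exp (a' * |t|)) :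
    ∃ C : ℝ, 0 ≤ C ∧ ∀ t, ‖f t * g t‖ ≤ C * Real.exp ((a + a') * |t|) := by
  obtain ⟨C, h1, h2⟩ := h
  obtain ⟨C', h3, h4⟩ := h'
  refine ⟨C * C', mul_nonneg h1 h3, fun t => ?_⟩
  rw [norm_mul, add_mul, Real.exp_add]
  refine (mul_le_mul (h2 t) (h4 t) (norm_nonneg _) (mul_nonneg h1 (Real.exp_pos _).le)).trans
    (le_of_eq ?_)
  ring

variable {a a₁ x y b₁ b₂ yl κ κ' q0 R : ℝ} {W W' F E F' E' : ℂ → ℂ}

theorem gD_bd (M : Geo6 xl a a₁ x y b₁ b₂ yl) {s : Bool} {Wf : Bool → ℂ → ℂ} {q1 : ℝ}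
    (hb : ∀ i, xl false < (b i).re ∧ (b i).re < xl true)
    (hb' : ∀ i, xl false < (b' i).re ∧ (b' i).re < xl true)
    (hd : ∀ i, xl false < (d i).re ∧ (d i).re < xl true)
    (hd' : ∀ i, xl false < (d' i).re ∧ (d' i).re < xl true)
    (hW : ∃ C : ℝ, 0 ≤ C ∧ ∀ t : ℝ, ‖Wf s (vl yl t)‖ ≤ C * Real.exp (-(κ + 2 * q1 * (sg s : ℤ)) * |t|))
    (D : Finset ν) (D' : Finset ν') {T : ℝ}
    (hT : T = q1 - 2 * Fintype.card ιb + 2 * Fintype.card ιb' + D.card - D'.card) :
    ∃ C : ℝ, 0 ≤ C ∧ ∀ t : ℝ, ‖gD Wf b d D b' d' D' s (vl yl t)‖ ≤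
      C * Real.exp (-((κ + 2 * T * (sg s : ℤ)) * |t|)) := by
  have g8 := M.h9
  have g9 := M.h10
  have g10 := M.h11
  have g0 := M.h1
  have pb : ∀ z : ℂ, xl false < z.re ∧ z.re < xl true → ∀ s' : Bool,
      (∃ C : ℝ, 0 ≤ C ∧ ∀ t, ‖PP s s' (vl yl t - z)‖ ≤ C * Real.exp (2 * (sg s * sg s' : ℤ) * |t|)) ∧
      ∃ C : ℝ, 0 ≤ C ∧ ∀ t, ‖(PP s s' (vl yl t - z))⁻¹‖ ≤
        C * Real.exp (-(2 * (sg s * sg s' : ℤ)) * |t|) := by
    intro z hz s'
    obtain ⟨C, hC, hp⟩ := PPv_bd (y := yl) (w := yl - xl false) (δ := yl - xl true) (z := z)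
      (by linarith) (by linarith) (by linarith [hz.1]) (by linarith [hz.2])
    refine ⟨⟨C, zero_le_one.trans hC, fun t => (hp s s' t).1⟩,
      ⟨C, zero_le_one.trans hC, fun t => ?_⟩⟩
    have := (hp s s' t).2
    rwa [← neg_mul] at this
  have hdb : ∀ i, xl false < (db b i).re ∧ (db b i).re < xl true := fun i => hb _
  have hdb' : ∀ i, xl false < (db b' i).re ∧ (db b' i).re < xl true := fun i => hb' _
  have c1 := prod_bdt Finset.univ (f := fun i t => PP s true (vl yl t - db b i))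
    fun i _ => (pb _ (hdb i) true).1
  have c2 := prod_bdt Finset.univ (f := fun i t => PP s false (vl yl t - db b' i))
    fun i _ => (pb _ (hdb' i) false).1
  have c3 := prod_bdt D (f := fun i t => (PP s true (vl yl t - d i))⁻¹)
    fun i _ => (pb _ (hd i) true).2
  have c4 := prod_bdt D' (f := fun i t => (PP s false (vl yl t - d' i))⁻¹)
    fun i _ => (pb _ (hd' i) false).2
  obtain ⟨C, hC, hc⟩ := bdt_mul hW (bdt_mul (bdt_mul c1 c2) (bdt_mul c3 c4))
  refine ⟨C, hC, fun t => (hc t).trans (le_of_eq ?_)⟩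
  congr 2
  rw [Finset.card_univ, Finset.card_univ, Pool.Agent.PHD.card_db, Pool.Agent.PHD.card_db, hT]
  cases s <;> simp only [sg, if_true, if_false, Bool.false_eq_true] <;> push_cast <;> ring

theorem bH1_bd (M : Geo6 xl a a₁ x y b₁ b₂ yl) {s : Bool} {W : ℂ → ℂ}
    (S : Sp6 xl a a₁ x y b₁ b₂ yl κ κ' q0 s b d W F E) (hκ' : κ' < 6)
    (hb' : ∀ i, xl false < (b' i).re ∧ (b' i).re < xl true)
    (hd' : ∀ i, xl false < (d' i).re ∧ (d' i).re < xl true) (D : Finset ν) (D' : Finset ν') :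
    Measurable (bH1 xl b d D b' d' D' E) ∧ ∃ C : ℝ, 0 ≤ C ∧ ∀ ξ : Bool × ℝ,
      ‖bH1 xl b d D b' d' D' E ξ‖ ≤ C * Real.exp (-(((6 - κ') / 2 - 2 * (q0 * (sg s : ℤ) -
        2 * Fintype.card ιb + 2 * Fintype.card ιb' + D.card - D'.card)) * |ξ.2|)) := by
  have hl := Bd.l_pos
  have g1 := M.h1
  have g2 := M.h2
  have g3 := M.h3
  have g4 := M.h4
  have g9 := M.h9
  have g10 := M.h10
  have g11 := M.h11
  have hpi := M.lpi
  have hδ0 : 0 < (6 - κ') / 2 := by linarith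
  have hA' := Pool.Agent.PHK.lines_cg M.xl12 (by linarith) M.h1 M.h9 (p := 2) (by norm_num) hδ0
  have hqA' := Pool.Agent.PHD.pq_lines (a := a) (b := b₂) (x := xl false) (y := xl true)
    (by linarith) (by linarith [M.xl12])
  have hU : ∀ z ∈ OS a (a + l), ∀ w ∈ OS a (a + l), z - w ∈ Vl :=
    Pool.Agent.PHD.sub_Vl (by linarith) (by linarith)
  have sub3 : CS (xl false) (xl true) ⊆ OS a (a + l) := fun z hz =>
    ⟨g1.trans_le hz.1, by linarith [hz.2]⟩
  have subU' : OS a b₂ ⊆ OS a (a + l) := fun z hz => ⟨hz.1, by linarith [hz.2]⟩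
  have hg := Pool.Agent.PHD.gp_qg (𝒰 := OS a (a + l)) (𝒮 := CS (xl false) (xl true)) hU sub3
  have inC : ∀ z : ℂ, xl false < z.re ∧ z.re < xl true → z ∈ CS (xl false) (xl true) :=
    fun z hz => ⟨hz.1.le, hz.2.le⟩
  have inU : ∀ z : ℂ, xl false < z.re ∧ z.re < xl true → z ∈ OS a b₂ :=
    fun z hz => ⟨by linarith [hz.1], by linarith [hz.2]⟩
  have hb : ∀ i, xl false < (db b i).re ∧ (db b i).re < xl true := fun i =>
    ⟨by have := (S.bin (ofLex i).1).1; show xl false < (b (ofLex i).1).re; linarith,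
     by have := (S.bin (ofLex i).1).2; show (b (ofLex i).1).re < xl true; linarith⟩
  have hdb' : ∀ i, xl false < (db b' i).re ∧ (db b' i).re < xl true := fun i => hb' _
  have hG := S.gf0 M (α := (6 - κ') / 2 + 2 * Fintype.card (ιb ×ₗ Bool) - 2 * q0 * (sg s : ℤ))
    (by linarith)
  have hcO : ∀ i, db b i ∈ OS (xl false) (xl true) := fun i => ⟨(hb i).1, (hb i).2⟩
  have hdif := hG.an (db b) hcO
  constructor
  · exact hA'.meas_one (Pool.Agent.PHD.hX_cont hg subU' hqA' hdif.continuousOn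
      (fun j => inU _ (S.din j)) D (fun i => subU' (inU _ (hdb' i)))
      (fun j => subU' (inU _ (hd' j))) D')
  · obtain ⟨C1, p1, c1⟩ := hG.bd (db b) hcO
    have bG : ∃ B : ℝ, 0 ≤ B ∧ ∀ z ∈ CS (xl false) (xl true), ‖hol (fun _ => E) qr (db b) z‖ ≤
      B * Real.exp (-((6 - κ') / 2 + 2 * Fintype.card (ιb ×ₗ Bool) - 2 * q0 * (sg s : ℤ)) * |z.im|) :=
      ⟨C1, p1, c1.self_of_nhds⟩
    obtain ⟨B, b0, hB⟩ := Pool.Agent.PHD.hX_bd hg subset_rfl
      (Pool.Agent.PHD.q_exp (by linarith [M.xl12])) bG (fun j => inC _ (S.din j)) D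
      (fun i => inC _ (hdb' i)) (fun j => inC _ (hd' j)) D'
    obtain ⟨C0, h0⟩ := hA'.bκ
    obtain ⟨B2, h4, h5⟩ := hA'.off_all (c := Sum.elim (db b) d) (by
      rintro (i | j)
      · exact hcO i
      · exact ⟨(S.din j).1, (S.din j).2⟩)
    refine ⟨|C0| * B * B2, by positivity, fun ξ => ?_⟩
    have a2 := hB _ (hA'.mem ξ)
    have a3 := (h0 ξ).trans (le_abs_self C0)
    have a4 := h5 ξ
    unfold bH1 one
    rw [norm_mul, norm_div, div_eq_mul_inv]
    have e1 : (lG xl ξ).im = ξ.2 := Pool.Agent.PHK.lG_im _ _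
    rw [e1] at a2
    calc ‖lK ξ‖ * (‖hX (hol (fun _ => E) qr (db b)) q qg d D (db b') d' D' (lG xl ξ)‖ *
          ‖∏ i, (lG xl ξ - Sum.elim (db b) d i)‖⁻¹) ≤ |C0| * ((B * Real.exp
          ((-((6 - κ') / 2 + 2 * Fintype.card (ιb ×ₗ Bool) - 2 * q0 * (sg s : ℤ)) + D.card * 2 +
            ((Fintype.card (ιb' ×ₗ Bool) : ℝ) * 2 + D'.card * (-2))) * |ξ.2|)) * B2) := by
          gcongr
      _ = _ := by
          rw [Pool.Agent.PHD.card_db, Pool.Agent.PHD.card_db]
          have e2 : (-((6 - κ') / 2 + 2 * ((2 * Fintype.card ιb : ℕ) : ℝ) - 2 * q0 * (sg s : ℤ)) +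
              D.card * 2 + (((2 * Fintype.card ιb' : ℕ) : ℝ) * 2 + D'.card * (-2))) * |ξ.2| =
              -(((6 - κ') / 2 - 2 * (q0 * (sg s : ℤ) -
                2 * Fintype.card ιb + 2 * Fintype.card ιb' + D.card - D'.card)) * |ξ.2|) := by
            push_cast
            ring
          rw [e2]
          ring

theorem measurable_gD (M : Geo6 xl a a₁ x y b₁ b₂ yl) {s : Bool} {Wf : Bool → ℂ → ℂ}
    (hm : Measurable fun t : ℝ => Wf s (vl yl t)) (D : Finset ν) (D' : Finset ν') :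
    Measurable fun t : ℝ => gD Wf b d D b' d' D' s (vl yl t) := by
  have h1 : ∀ (s' : Bool) (z : ℂ), Measurable fun t : ℝ => PP s s' (vl yl t - z) := by
    intro s' z
    refine (measurable_PP s s').comp ?_
    unfold vl
    fun_prop
  unfold gD
  refine hm.mul (Measurable.mul (Measurable.mul ?_ ?_) (Measurable.mul ?_ ?_))
  · exact Finset.measurable_prod _ fun i _ => h1 true _
  · exact Finset.measurable_prod _ fun i _ => h1 false _
  · exact Finset.measurable_prod _ fun i _ => (h1 true _).inv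
  · exact Finset.measurable_prod _ fun i _ => (h1 false _).inv

/-- **the hypotheses of the Fubini theorem** -/
theorem hqD {Wf : Bool → ℂ → ℂ} (M : Geo6 xl a a₁ x y b₁ b₂ yl)
    (S : Sp6 xl a a₁ x y b₁ b₂ yl κ κ' q0 true b d (Wf true) F E)
    (S' : Sp6 xl a a₁ x y b₁ b₂ yl κ κ' q0 false b' d' (Wf false) F' E') (hκ : 0 < κ) (hκ' : κ' < 6)
    (D : Finset ν) (D' : Finset ν') {T : ℝ}
    (hT : T = q0 - 2 * Fintype.card ιb + 2 * Fintype.card ιb' + D.card - D'.card) :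
    HQ p00 (gD Wf b d D b' d' D') (bH xl b d D b' d' D' E E') xl yl T := by
  have g2 := M.h2
  have g3 := M.h3
  have g4 := M.h4
  have hb : ∀ i, xl false < (b i).re ∧ (b i).re < xl true := fun i =>
    ⟨by linarith [(S.bin i).1], by linarith [(S.bin i).2]⟩
  have hb' : ∀ i, xl false < (b' i).re ∧ (b' i).re < xl true := fun i =>
    ⟨by linarith [(S'.bin i).1], by linarith [(S'.bin i).2]⟩
  obtain ⟨m1, C1, p1, c1⟩ := bH1_bd M S hκ' hb' S'.din D D'
  obtain ⟨m2, C2, p2, c2⟩ := bH1_bd M S' hκ' hb S.din D' D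
  have w1 := gD_bd (κ := κ) (s := true) (Wf := Wf) (q1 := q0) M hb hb' S.din S'.din (by
    obtain ⟨C, hC, h⟩ := S.wb
    refine ⟨C, hC, fun t => (h t).trans (le_of_eq ?_)⟩
    rw [neg_mul]) D D' hT
  have w2 := gD_bd (κ := κ) (s := false) (Wf := Wf) (q1 := q0) M hb hb' S.din S'.din (by
    obtain ⟨C, hC, h⟩ := S'.wb
    refine ⟨C, hC, fun t => (h t).trans (le_of_eq ?_)⟩
    rw [neg_mul]) D D' hT
  obtain ⟨A1, q1, a1⟩ := w1
  obtain ⟨A2, q2, a2⟩ := w2
  refine ⟨fun s => ?_, fun s => ?_, M.xl12, by linarith [M.h9, M.h10], by linarith [M.h1, M.h11],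
    ⟨κ, max A1 A2, hκ, q1.trans (le_max_left _ _), fun s t => ?_⟩,
    ⟨(6 - κ') / 2, max C1 C2, by linarith, p1.trans (le_max_left _ _), fun s ξ => ?_⟩⟩
  · simp only [Wt_p00]
    cases s
    · exact measurable_gD M S'.wm D D'
    · exact measurable_gD M S.wm D D'
  · cases s
    · exact m2
    · exact m1
  · rw [Wt_p00]
    cases s
    · exact (a2 t).trans (mul_le_mul_of_nonneg_right (le_max_right _ _) (Real.exp_pos _).le)
    · exact (a1 t).trans (mul_le_mul_of_nonneg_right (le_max_left _ _) (Real.exp_pos _).le)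
  · cases s
    · refine (c2 ξ).trans ((mul_le_mul_of_nonneg_right (le_max_right C1 C2)
        (Real.exp_pos _).le).trans (le_of_eq ?_))
      rw [hT]
      simp only [sg, if_false, Bool.false_eq_true]
      push_cast
      congr 2
      ring
    · refine (c1 ξ).trans ((mul_le_mul_of_nonneg_right (le_max_left C1 C2)
        (Real.exp_pos _).le).trans (le_of_eq ?_))
      rw [hT]
      simp only [sg, if_true]
      push_cast
      congr 2
      ring

/-- **T1: the particles on the rectangles become holes, the quanta on the line integrated** -/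
theorem GPk_eq {Wf : Bool → ℂ → ℂ} (M : Geo6 xl a a₁ x y b₁ b₂ yl)
    (S : Sp6 xl a a₁ x y b₁ b₂ yl κ κ' q0 true b d (Wf true) F E)
    (S' : Sp6 xl a a₁ x y b₁ b₂ yl κ κ' q0 false b' d' (Wf false) F' E') (hκ : 0 < κ) (hκ' : κ' < 6)
    (hR : 0 < R) (hb : ∀ i, |(b i).im| < R) (hb' : ∀ i, |(b' i).im| < R)
    {n n' k k' m m' : ℕ} (hq : (n : ℝ) + k - (n' + k') = q0) (hk : k + m = 2 * Fintype.card ιb)
    (hk' : k' + m' = 2 * Fintype.card ιb') :
    GPk x y R yl b b' Wf F F' n n' k k' = ∑ D ∈ (Finset.univ : Finset ν).powerset,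
      ∑ D' ∈ (Finset.univ : Finset ν').powerset, if D.card ≤ m ∧ D'.card ≤ m' then
        (-1 : ℂ) ^ (k + k' + (D.card + D'.card)) *
          TH xl yl Wf b d D b' d' D' F E F' E' (m - D.card) (m' - D'.card) n n' else 0 := by
  have k1 : (k : ℝ) + m = 2 * Fintype.card ιb := by exact_mod_cast hk
  have k1' : (k' : ℝ) + m' = 2 * Fintype.card ιb' := by exact_mod_cast hk'
  unfold GPk
  have e0 : ∀ t : Fin n ⊕ Fin n' → ℝ, Fc p00 Wf (qC yl n n') t * ((-1) ^ (k + k') *
      Jr x y R yl b b' F F' k k' t) = ∑ D ∈ (Finset.univ : Finset ν).powerset,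
      ∑ D' ∈ (Finset.univ : Finset ν').powerset, if D.card ≤ m ∧ D'.card ≤ m' then
        ((-1 : ℂ) ^ (k + k' + (D.card + D'.card)) * (cH b d D b' d' D' F E F' E' *
          (((m - D.card).factorial : ℂ)⁻¹ * ((m' - D'.card).factorial : ℂ)⁻¹))) *
        (Fc p00 (gD Wf b d D b' d' D') (qC yl n n') t *
          ∫ p : HP (m - D.card) (m' - D'.card), hW (bH xl b d D b' d' D' E E') xl p * ∏ j, ∏ i,
            (PP (qC yl n n' i).sp (hS (m - D.card) (m' - D'.card) j) (vl yl (t i) - hZ xl p j))⁻¹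
            ∂(nuH (m - D.card) (m' - D'.card))) else 0 := by
    intro t
    rw [sea_raw M S S' hκ' hR hb hb' hq hk hk' t, seaR_split, Finset.mul_sum, Finset.mul_sum]
    refine Finset.sum_congr rfl fun D _ => ?_
    rw [Finset.mul_sum, Finset.mul_sum]
    refine Finset.sum_congr rfl fun D' _ => ?_
    split_ifs with hD
    · rw [Fc_gD]
      simp only [prod_holes]
      ring
    · simp
  simp only [e0]
  have hQ : ∀ (D : Finset ν) (D' : Finset ν'), D.card ≤ m ∧ D'.card ≤ m' →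
      HQ p00 (gD Wf b d D b' d' D') (bH xl b d D b' d' D' E E') xl yl
        (n - n' - ((m - D.card : ℕ) : ℝ) + ((m' - D'.card : ℕ) : ℝ)) := by
    intro D D' hD
    refine hqD M S S' hκ hκ' D D' ?_
    push_cast [hD.1, hD.2]
    linarith
  have hi : ∀ (D : Finset ν) (D' : Finset ν'), Integrable (fun t : Fin n ⊕ Fin n' → ℝ =>
      if D.card ≤ m ∧ D'.card ≤ m' then
        ((-1 : ℂ) ^ (k + k' + (D.card + D'.card)) * (cH b d D b' d' D' F E F' E' *
          (((m - D.card).factorial : ℂ)⁻¹ * ((m' - D'.card).factorial : ℂ)⁻¹))) *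
        (Fc p00 (gD Wf b d D b' d' D') (qC yl n n') t *
          ∫ p : HP (m - D.card) (m' - D'.card), hW (bH xl b d D b' d' D' E E') xl p * ∏ j, ∏ i,
            (PP (qC yl n n' i).sp (hS (m - D.card) (m' - D'.card) j) (vl yl (t i) - hZ xl p j))⁻¹
            ∂(nuH (m - D.card) (m' - D'.card))) else 0) (Measure.pi fun _ => volume) := by
    intro D D'
    by_cases hD : D.card ≤ m ∧ D'.card ≤ m'
    · simp only [if_pos hD]
      exact (swapHQ (hQ D D' hD) (a := n) (a' := n') (h := m - D.card) (h' := m' - D'.card)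
        rfl).1.const_mul _
    · simp only [if_neg hD]
      exact integrable_zero _ _ _
  rw [integral_finsetSum _ fun D _ => integrable_finsetSum _ fun D' _ => hi D D', Finset.mul_sum]
  refine Finset.sum_congr rfl fun D _ => ?_
  rw [integral_finsetSum _ fun D' _ => hi D D', Finset.mul_sum]
  refine Finset.sum_congr rfl fun D' _ => ?_
  by_cases hD : D.card ≤ m ∧ D'.card ≤ m'
  swap
  · simp only [if_neg hD, integral_zero, mul_zero]
  simp only [if_pos hD]
  rw [integral_const_mul, (swapHQ (hQ D D' hD) (a := n) (a' := n') (h := m - D.card)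
    (h' := m' - D'.card) rfl).2]
  unfold TH
  have e1 : ∀ p : HP (m - D.card) (m' - D'.card),
      gas n n' yl (adH (gD Wf b d D b' d' D') (hS (m - D.card) (m' - D'.card)) (hZ xl p) true)
        (adH (gD Wf b d D b' d' D') (hS (m - D.card) (m' - D'.card)) (hZ xl p) false) =
      ((n.factorial : ℕ) : ℂ)⁻¹ * ((n'.factorial : ℕ) : ℂ)⁻¹ * ∫ t : Fin n ⊕ Fin n' → ℝ,
        Fc p00 (adH (gD Wf b d D b' d' D') (hS (m - D.card) (m' - D'.card)) (hZ xl p))
          (qC yl n n') t ∂(Measure.pi fun _ => volume) := fun p =>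
    gas_Fc n n' (fun u _ => (Wt_p00 _ _ _).symm) (fun u _ => (Wt_p00 _ _ _).symm)
  simp only [e1]
  have e2 : ∫ p : HP (m - D.card) (m' - D'.card), hW (bH xl b d D b' d' D' E E') xl p *
      (((n.factorial : ℕ) : ℂ)⁻¹ * ((n'.factorial : ℕ) : ℂ)⁻¹ * ∫ t : Fin n ⊕ Fin n' → ℝ,
        Fc p00 (adH (gD Wf b d D b' d' D') (hS (m - D.card) (m' - D'.card)) (hZ xl p))
          (qC yl n n') t ∂(Measure.pi fun _ => volume)) ∂(nuH (m - D.card) (m' - D'.card)) =
      ((n.factorial : ℕ) : ℂ)⁻¹ * ((n'.factorial : ℕ) : ℂ)⁻¹ *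
        ∫ p : HP (m - D.card) (m' - D'.card), hW (bH xl b d D b' d' D' E E') xl p *
          ∫ t : Fin n ⊕ Fin n' → ℝ,
            Fc p00 (adH (gD Wf b d D b' d' D') (hS (m - D.card) (m' - D'.card)) (hZ xl p))
          (qC yl n n') t ∂(Measure.pi fun _ => volume) ∂(nuH (m - D.card) (m' - D'.card)) := by
    rw [← integral_const_mul]
    refine integral_congr_ae (Eventually.of_forall fun p => ?_)
    simp only []
    ring
  rw [e2]
  ring


end

end NUP1S

end
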