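import Pool.Agent.PHK.HoleG

/-!
# The sum over the numbers of particles on the rectangles = the right side of the exact identity

* `reidx`: from the number of particles to the number of free holes; **`sumGPk_exR`**.
-/

set_option autoImplicit false
set_option linter.unusedSectionVars false
set_option linter.unusedVariables false

noncomputable section

open Complex MeasureTheory NUP1 Set Filter Topology
open scoped Real
open Pool.Agent.PHD (one QP JJ oP xP JJ2 db hol qr WW wG gN hX lcn)
open Pool.Agent.PHK (lM lG lK)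
open NUP1.Bd (qg)

namespace NUP1S

/-- from the number `k` of particles to the number `h` of free holes -/
theorem reidx {M : Type*} [AddCommMonoid M] (N a e : ℕ) (g : ℕ → ℕ → M) :
    (∑ k ∈ Finset.range (a + 1), if k ≤ N ∧ e ≤ N - k then g (N - k - e) (a - k) else 0) =
      ∑ h ∈ Finset.range (N + 1), if e + h ≤ N ∧ N ≤ a + e + h then g h (a + e + h - N) else 0 := by
  rw [← Finset.sum_filter, ← Finset.sum_filter]
  refine Finset.sum_nbij' (fun k => N - k - e) (fun h => N - e - h) ?_ ?_ ?_ ?_ ?_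
  · intro k hk
    rw [Finset.mem_filter, Finset.mem_range] at hk ⊢
    omega
  · intro h hh
    rw [Finset.mem_filter, Finset.mem_range] at hh ⊢
    omega
  · intro k hk
    rw [Finset.mem_filter, Finset.mem_range] at hk
    show N - e - (N - k - e) = k
    omega
  · intro h hh
    rw [Finset.mem_filter, Finset.mem_range] at hh
    show N - (N - e - h) - e = h
    omega
  · intro k hk
    rw [Finset.mem_filter, Finset.mem_range] at hk
    have : a - k = a + e + (N - k - e) - N := by omega
    rw [← this]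

theorem neg_pow_of {N k e : ℕ} (hN : Even N) (h1 : k ≤ N) (h2 : e ≤ N - k) :
    (-1 : ℂ) ^ (k + e) = (-1) ^ (N - k - e) := by
  have h : N = k + e + (N - k - e) := by omega
  rcases Nat.even_or_odd (k + e) with h3 | h3
  · have h4 : Even (N - k - e) := by
      rw [h] at hN
      exact (Nat.even_add.1 hN).1 h3
    rw [h3.neg_one_pow, h4.neg_one_pow]
  · have h4 : Odd (N - k - e) := by
      rw [h] at hN
      have := Nat.even_add.1 hN
      rw [← Nat.not_even_iff_odd] at h3 ⊢
      exact fun h5 => h3 (this.2 h5)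
    rw [h3.neg_one_pow, h4.neg_one_pow]

section

variable {ιb ν ιb' ν' : Type} [LinearOrder ιb] [Fintype ιb] [LinearOrder ν] [Fintype ν]
  [LinearOrder ιb'] [Fintype ιb'] [LinearOrder ν'] [Fintype ν']
  {b : ιb → ℂ} {d : ν → ℂ} {b' : ιb' → ℂ} {d' : ν' → ℂ} {xl : Bool → ℝ}
  {a₀ a₁ x y b₁ b₂ yl κ κ' q0 R : ℝ} {W W' F E F' E' : ℂ → ℂ} {a a' : ℕ}

/-- **the sum over the numbers of particles = the right side of the exact identity** -/
theorem sumGPk_exR {Wf : Bool → ℂ → ℂ} (M : Geo6 xl a₀ a₁ x y b₁ b₂ yl)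
    (S : Sp6 xl a₀ a₁ x y b₁ b₂ yl κ κ' q0 true b d (Wf true) F E)
    (S' : Sp6 xl a₀ a₁ x y b₁ b₂ yl κ κ' q0 false b' d' (Wf false) F' E') (hκ : 0 < κ)
    (hκ' : κ' < 6) (hR : 0 < R) (hb : ∀ i, |(b i).im| < R) (hb' : ∀ i, |(b' i).im| < R)
    (hq : (a : ℝ) - a' = q0) :
    (∑ k ∈ Finset.range (a + 1), ∑ k' ∈ Finset.range (a' + 1),
      if k ≤ 2 * Fintype.card ιb ∧ k' ≤ 2 * Fintype.card ιb' then
        GPk x y R yl b b' Wf F F' (a - k) (a' - k') k k' else 0) =
      exR xl yl Wf b d b' d' F E F' E' a a' := by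
  set N := 2 * Fintype.card ιb with hN
  set N' := 2 * Fintype.card ιb' with hN'
  have eN : Even N := ⟨Fintype.card ιb, by rw [hN]; ring⟩
  have eN' : Even N' := ⟨Fintype.card ιb', by rw [hN']; ring⟩
  -- the terms
  have e1 : ∀ k ∈ Finset.range (a + 1), ∀ k' ∈ Finset.range (a' + 1),
      (if k ≤ N ∧ k' ≤ N' then GPk x y R yl b b' Wf F F' (a - k) (a' - k') k k' else 0) =
      ∑ D ∈ (Finset.univ : Finset ν).powerset, ∑ D' ∈ (Finset.univ : Finset ν').powerset,
        if k ≤ N ∧ D.card ≤ N - k then (if k' ≤ N' ∧ D'.card ≤ N' - k' then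
          (-1 : ℂ) ^ ((N - k - D.card) + (N' - k' - D'.card)) *
            TH xl yl Wf b d D b' d' D' F E F' E' (N - k - D.card) (N' - k' - D'.card) (a - k)
              (a' - k') else 0) else 0 := by
    intro k hk k' hk'
    rw [Finset.mem_range] at hk hk'
    by_cases hc : k ≤ N ∧ k' ≤ N'
    · rw [if_pos hc, GPk_eq M S S' hκ hκ' hR hb hb' (m := N - k) (m' := N' - k') (by
        have h1 : k ≤ a := by omega
        have h2 : k' ≤ a' := by omega
        push_cast [h1, h2]
        linarith) (by omega) (by omega)]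
      refine Finset.sum_congr rfl fun D _ => Finset.sum_congr rfl fun D' _ => ?_
      by_cases h1 : D.card ≤ N - k
      · by_cases h2 : D'.card ≤ N' - k'
        · rw [if_pos ⟨h1, h2⟩, if_pos ⟨hc.1, h1⟩, if_pos ⟨hc.2, h2⟩]
          congr 1
          rw [pow_add _ (N - k - D.card), ← neg_pow_of eN hc.1 h1, ← neg_pow_of eN' hc.2 h2,
            ← pow_add]
          congr 1
          omega
        · rw [if_neg (fun h => h2 h.2), if_pos ⟨hc.1, h1⟩, if_neg (fun h => h2 h.2)]
      · rw [if_neg (fun h => h1 h.1), if_neg (fun h => h1 h.2)]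
    · rw [if_neg hc]
      symm
      refine Finset.sum_eq_zero fun D _ => Finset.sum_eq_zero fun D' _ => ?_
      by_cases h1 : k ≤ N ∧ D.card ≤ N - k
      · rw [if_pos h1, if_neg (fun h => hc ⟨h1.1, h.1⟩)]
      · rw [if_neg h1]
  rw [Finset.sum_congr rfl fun k hk => Finset.sum_congr rfl fun k' hk' => e1 k hk k' hk']
  unfold exR
  rw [← hN, ← hN']
  -- the sums over `D`, `D'` outside
  have e2 : ∀ f : ℕ → ℕ → Finset ν → Finset ν' → ℂ,
      (∑ k ∈ Finset.range (a + 1), ∑ k' ∈ Finset.range (a' + 1),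
        ∑ D ∈ (Finset.univ : Finset ν).powerset, ∑ D' ∈ (Finset.univ : Finset ν').powerset,
          f k k' D D') = ∑ D ∈ (Finset.univ : Finset ν).powerset,
          ∑ D' ∈ (Finset.univ : Finset ν').powerset, ∑ k ∈ Finset.range (a + 1),
            ∑ k' ∈ Finset.range (a' + 1), f k k' D D' := by
    intro f
    have s1 : ∀ k ∈ Finset.range (a + 1), (∑ k' ∈ Finset.range (a' + 1),
        ∑ D ∈ (Finset.univ : Finset ν).powerset, ∑ D' ∈ (Finset.univ : Finset ν').powerset,
          f k k' D D') = ∑ D ∈ (Finset.univ : Finset ν).powerset,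
          ∑ D' ∈ (Finset.univ : Finset ν').powerset, ∑ k' ∈ Finset.range (a' + 1), f k k' D D' := by
      intro k _
      rw [Finset.sum_comm]
      exact Finset.sum_congr rfl fun D _ => Finset.sum_comm
    rw [Finset.sum_congr rfl s1, Finset.sum_comm]
    exact Finset.sum_congr rfl fun D _ => Finset.sum_comm
  rw [e2]
  refine Finset.sum_congr rfl fun D _ => Finset.sum_congr rfl fun D' _ => ?_
  -- reindexing
  have e3 : ∀ k : ℕ, (∑ k' ∈ Finset.range (a' + 1),
      if k ≤ N ∧ D.card ≤ N - k then (if k' ≤ N' ∧ D'.card ≤ N' - k' then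
          (-1 : ℂ) ^ ((N - k - D.card) + (N' - k' - D'.card)) *
            TH xl yl Wf b d D b' d' D' F E F' E' (N - k - D.card) (N' - k' - D'.card) (a - k)
              (a' - k') else 0) else 0) =
      if k ≤ N ∧ D.card ≤ N - k then (∑ h' ∈ Finset.range (N' + 1),
        if D'.card + h' ≤ N' ∧ N' ≤ a' + D'.card + h' then
          (-1 : ℂ) ^ ((N - k - D.card) + h') *
            TH xl yl Wf b d D b' d' D' F E F' E' (N - k - D.card) h' (a - k)
              (a' + D'.card + h' - N') else 0) else 0 := by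
    intro k
    by_cases h1 : k ≤ N ∧ D.card ≤ N - k
    · simp only [if_pos h1]
      exact reidx N' a' D'.card fun h' n' => (-1 : ℂ) ^ ((N - k - D.card) + h') *
        TH xl yl Wf b d D b' d' D' F E F' E' (N - k - D.card) h' (a - k) n'
    · simp only [if_neg h1, Finset.sum_const_zero]
  rw [Finset.sum_congr rfl fun k _ => e3 k, reidx N a D.card fun h n =>
    ∑ h' ∈ Finset.range (N' + 1), if D'.card + h' ≤ N' ∧ N' ≤ a' + D'.card + h' then
          (-1 : ℂ) ^ (h + h') * TH xl yl Wf b d D b' d' D' F E F' E' h h' n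
              (a' + D'.card + h' - N') else 0]
  refine Finset.sum_congr rfl fun h _ => ?_
  by_cases h1 : D.card + h ≤ N ∧ N ≤ a + D.card + h
  · rw [if_pos h1]
    refine Finset.sum_congr rfl fun h' _ => ?_
    by_cases h2 : D'.card + h' ≤ N' ∧ N' ≤ a' + D'.card + h'
    · rw [if_pos h2, if_pos ⟨h1, h2⟩]
    · rw [if_neg h2, if_neg (fun h => h2 h.2)]
  · rw [if_neg h1]
    symm
    exact Finset.sum_eq_zero fun h' _ => if_neg fun h => h1 h.1

end

end NUP1S

end
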