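import Pool.Agent.PHK.HoleD

/-!
# Particles become holes, the quanta on the line fixed

* `Wq`: analytic, without zeros, bounds; `Sp6.gf`: the holes in the field of the quanta;
* **`sea_t`**: the duality of 21's `JJ2_sea` for fixed quanta, the field of the quanta split off.
-/

set_option autoImplicit false
set_option linter.unusedSectionVars false
set_option linter.unusedVariables false

noncomputable section

open Complex MeasureTheory NUP1 Set Filter Topology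
open scoped Real
open Pool.Agent.PHD (one QP JJ oP xP JJ2 db hol qr WW wG gN hX lcn fG Gf Fa Rf Pq Gp Vl Cg)
open Pool.Agent.PHK (lM lG lK)
open NUP1.Bd (qg)

namespace NUP1S

variable {xl : Bool → ℝ} {a a₁ x y b₁ b₂ yl : ℝ}

/-! ### the field of the quanta -/

theorem PP_ne {s s' : Bool} {z : ℂ} (h1 : |z.re| < l) (h2 : z.re < 0) : PP s s' z ≠ 0 := by
  have hV : z ∈ Vl := h1
  have hz : z ≠ 0 := by
    intro h
    rw [h] at h2
    simp at h2
  unfold PP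
  split_ifs
  · rw [Pool.Agent.PHD.q_qr]
    exact mul_ne_zero (pow_ne_zero _ hz) (Pool.Agent.PHD.qr_ne hV)
  · exact Pool.Agent.PHD.qg_ne hV

namespace Geo6

variable (M : Geo6 xl a a₁ x y b₁ b₂ yl)
include M

theorem re_h {z : ℂ} (hz : z ∈ OS a b₂) (t : ℝ) : |(z - vl yl t).re| < l ∧ (z - vl yl t).re < 0 := by
  have h1 := hz.1
  have h2 := hz.2
  have := M.h10
  have := M.h11
  have := Bd.l_pos
  rw [sub_re, re_vl, abs_lt]
  refine ⟨⟨?_, ?_⟩, ?_⟩ <;> linarith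

theorem re_p {z : ℂ} (hz : z ∈ OS a₁ b₁) (t : ℝ) : |(z - vl yl t).re| < l := by
  have h1 := hz.1
  have h2 := hz.2
  have := M.h10
  have := M.h11
  have := M.h8
  have := M.h5
  have := M.h1
  have := M.h9
  have := M.h4
  have := M.h3
  have := M.h2
  rw [sub_re, re_vl, abs_lt]
  constructor <;> linarith

theorem Wq_ne {n n' : ℕ} (t : Fin n ⊕ Fin n' → ℝ) (s : Bool) {z : ℂ} (hz : z ∈ OS a b₂) :
    Wq yl t s z ≠ 0 :=
  Finset.prod_ne_zero_iff.2 fun i _ => PP_ne (M.re_h hz _).1 (M.re_h hz _).2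

theorem Wq_an {n n' : ℕ} (t : Fin n ⊕ Fin n' → ℝ) (s : Bool) {U : Set ℂ}
    (hU : ∀ z ∈ U, ∀ t, |(z - vl yl t).re| < l) : DifferentiableOn ℂ (Wq yl t s) U := by
  unfold Wq
  refine DifferentiableOn.fun_finsetProd fun i _ => ?_
  intro z hz
  have h := PP_diff s (qC yl n n' i).sp (hU z hz (t i))
  exact (h.comp z (differentiableAt_id.sub_const (vl yl (t i)))).differentiableWithinAt

theorem rKU {R : ℝ} : Pool.Agent.PHK.rK x y R ⊆ OS a₁ b₁ := fun z hz =>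
  ⟨M.h6.trans_le hz.1, hz.2.1.trans_lt M.h7⟩

theorem csU : CS (xl false) (xl true) ⊆ OS a b₂ := fun z hz =>
  ⟨M.h1.trans_le hz.1, hz.2.trans_lt M.h9⟩

theorem xl12 : xl false < xl true := by
  have := M.h2
  have := M.h3
  have := M.h4
  linarith

theorem lpi : l < Real.pi := by
  have := Bd.l_pos
  have := Bd.pi_eq
  linarith

end Geo6

/-- inverse of the field of the quanta between the hole lines -/
theorem Wqi_bd (M : Geo6 xl a a₁ x y b₁ b₂ yl) {n n' : ℕ} (t : Fin n ⊕ Fin n' → ℝ) (s : Bool) :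
    ∃ C : ℝ, 0 ≤ C ∧ ∀ z ∈ CS (xl false) (xl true), ‖(Wq yl t s z)⁻¹‖ ≤
      C * Real.exp (-(2 * (sg s : ℤ) * ((n : ℝ) - n')) * |z.im|) := by
  have hl := Bd.l_pos
  obtain ⟨C, hC, hb⟩ := PPi_bound (w := yl - xl false) (δ := yl - xl true)
    (by have := M.h1; have := M.h11; linarith) (by have := M.h9; have := M.h10; linarith)
  have key : ∀ i : Fin n ⊕ Fin n', ∀ z ∈ CS (xl false) (xl true),
      ‖(PP s (qC yl n n' i).sp (z - vl yl (t i)))⁻¹‖ ≤ (C * Real.exp (2 * |t i|)) *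
        Real.exp (-(2 * ((sg s * sg (qC yl n n' i).sp : ℤ) : ℝ)) * |z.im|) := by
    intro i z hz
    have h1 := hz.1
    have h2 := hz.2
    have h3 : |(z - vl yl (t i)).re| ≤ yl - xl false := by
      rw [sub_re, re_vl, abs_le]
      have := M.h9
      have := M.h10
      constructor <;> linarith
    have h4 : yl - xl true ≤ |(z - vl yl (t i)).re| := by
      rw [sub_re, re_vl, abs_sub_comm]
      exact le_trans (by linarith) (le_abs_self _)
    refine (hb s _ _ h3 h4).trans ?_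
    rw [mul_assoc, ← Real.exp_add]
    refine mul_le_mul_of_nonneg_left (Real.exp_le_exp.2 ?_) (zero_le_one.trans hC)
    have a1 : |(z - vl yl (t i)).im| ≤ |z.im| + |t i| := by
      rw [sub_im, im_vl]
      exact abs_sub _ _
    have a2 : |z.im| ≤ |(z - vl yl (t i)).im| + |t i| := by
      rw [sub_im, im_vl]
      have := abs_add_le (z.im - t i) (t i)
      rwa [sub_add_cancel] at this
    rcases i with i | i <;> cases s <;> simp only [qC, Sum.elim_inl, Sum.elim_inr, lineC, sg,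
      if_true, if_false, Bool.false_eq_true] <;> push_cast <;> nlinarith
  refine ⟨∏ i, (C * Real.exp (2 * |t i|)), Finset.prod_nonneg fun i _ => by positivity,
    fun z hz => ?_⟩
  unfold Wq
  rw [← Finset.prod_inv_distrib, norm_prod]
  refine (Finset.prod_le_prod (fun _ _ => norm_nonneg _) fun i _ => key i z hz).trans
    (le_of_eq ?_)
  rw [Finset.prod_mul_distrib, ← Real.exp_sum]
  congr 2
  rw [Fintype.sum_sum_type]
  simp only [qC, Sum.elim_inl, Sum.elim_inr, lineC, Finset.sum_const, Finset.card_univ,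
    Fintype.card_fin, nsmul_eq_mul]
  cases s <;> simp [sg] <;> ring

section sp

variable {ιb ν : Type*} [Fintype ιb] [Fintype ν] {b : ιb → ℂ} {d : ν → ℂ} {κ κ' q0 R : ℝ}
  {s : Bool} {W F E : ℂ → ℂ}

theorem Sp6.meas_wm (S : Sp6 xl a a₁ x y b₁ b₂ yl κ κ' q0 s b d W F E) :
    Measurable fun t : ℝ => W (vl yl t) := S.wm

/-- growth of the holes in the field of the quanta -/
theorem Sp6.gf (M : Geo6 xl a a₁ x y b₁ b₂ yl) (S : Sp6 xl a a₁ x y b₁ b₂ yl κ κ' q0 s b d W F E)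
    {n n' : ℕ} (t : Fin n ⊕ Fin n' → ℝ) {α : ℝ}
    (hα : κ' + 2 * q0 * (sg s : ℤ) - 2 * (sg s : ℤ) * ((n : ℝ) - n') + α <
      2 * Fintype.card (ιb ×ₗ Bool) + 6) :
    Gf (ι := ιb ×ₗ Bool) (OS a b₂) (CS (xl false) (xl true)) (OS (xl false) (xl true)) (-α)
      (hol (fun _ z => E z * (Wq yl t s z)⁻¹) qr) := by
  have hl := Bd.l_pos
  have := M.h1
  have := M.h9
  have := M.h10
  have := M.h11
  obtain ⟨C1, p1, c1⟩ := S.eb
  obtain ⟨C2, p2, c2⟩ := Wqi_bd M t s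
  refine Pool.Agent.PHD.gf_hol' Pool.Agent.PHD.even_db M.csU (isOpen_OS _ _) ?_
    (d := xl true - xl false) (by linarith [M.xl12]) (by linarith) ?_ hα ?_
  · intro z hz w hw
    show |(z - w).re| < l
    have h1 := hz.1
    have h2 := hz.2
    have h3 := hw.1
    have h4 := hw.2
    rw [sub_re, abs_lt]
    constructor <;> linarith
  · intro z hz w hw
    have h1 := hz.1
    have h2 := hz.2
    have h3 := hw.1
    have h4 := hw.2
    rw [sub_re, abs_le]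
    constructor <;> linarith
  · refine Gf.const (C := C1 * C2) ?_ (by positivity) ?_
    · refine S.ean.mul ((M.Wq_an t s fun z hz t => (M.re_h hz t).1).inv fun z hz => M.Wq_ne t s hz)
    · intro z hz
      rw [norm_mul]
      refine (mul_le_mul (c1 z hz) (c2 z hz) (norm_nonneg _) (by positivity)).trans (le_of_eq ?_)
      rw [mul_mul_mul_comm, ← Real.exp_add]
      congr 2
      ring

/-- growth of the holes -/
theorem Sp6.gf0 (M : Geo6 xl a a₁ x y b₁ b₂ yl) (S : Sp6 xl a a₁ x y b₁ b₂ yl κ κ' q0 s b d W F E)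
    {α : ℝ} (hα : κ' + 2 * q0 * (sg s : ℤ) + α < 2 * Fintype.card (ιb ×ₗ Bool) + 6) :
    Gf (ι := ιb ×ₗ Bool) (OS a b₂) (CS (xl false) (xl true)) (OS (xl false) (xl true)) (-α)
      (hol (fun _ => E) qr) := by
  have h := S.gf M (n := 0) (n' := 0) (fun _ => 0) (α := α) (by simpa using hα)
  have e : (fun (_ : ιb ×ₗ Bool → ℂ) (z : ℂ) => E z * (Wq yl (n := 0) (n' := 0) (fun _ => 0) s z)⁻¹) =
      fun _ => E := by
    funext c z
    simp [Wq]
  rwa [e] at h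

/-- the points of the rectangles which are not zeros -/
def OmR (x y R : ℝ) (d : ν → ℂ) : Set ℂ := Pool.Agent.PHK.rI x y R ∩ {z | ∀ j, z ≠ d j}

theorem isOpen_OmR (x y R : ℝ) (d : ν → ℂ) : IsOpen (OmR x y R d) := by
  refine Pool.Agent.PHK.isOpen_rI.inter ?_
  have : {z : ℂ | ∀ j, z ≠ d j} = ⋂ j, {z | z ≠ d j} := by
    ext z
    simp
  rw [this]
  exact isOpen_iInter_of_finite fun j => isOpen_ne

theorem Sp6.f_ne (M : Geo6 xl a a₁ x y b₁ b₂ yl) (S : Sp6 xl a a₁ x y b₁ b₂ yl κ κ' q0 s b d W F E)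
    {z : ℂ} (hz : z ∈ OmR x y R d) : z ∈ OS a₁ b₁ ∧ z ∈ OS a b₂ ∧ F z ≠ 0 ∧
      E z = (∏ j, (z - d j)) / F z := by
  obtain ⟨⟨h1, h2, h3⟩, h4⟩ := hz
  have m1 : z ∈ OS a₁ b₁ := ⟨by linarith [M.h6], by linarith [M.h7]⟩
  have m2 : z ∈ OS a b₂ := ⟨by linarith [M.h6, M.h5], by linarith [M.h4, M.h9]⟩
  have h5 := S.fe z m1 m2
  have h6 : F z ≠ 0 := by
    intro h
    rw [h, zero_mul] at h5
    exact Finset.prod_ne_zero_iff.2 (fun j _ => sub_ne_zero.2 (h4 j)) h5.symm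
  exact ⟨m1, m2, h6, by rw [eq_div_iff h6, ← h5]; ring⟩

end sp

/-! ### the duality for fixed quanta -/

section sea

variable {ιb ν ιb' ν' : Type} [LinearOrder ιb] [Fintype ιb] [LinearOrder ν] [Fintype ν]
  [LinearOrder ιb'] [Fintype ιb'] [LinearOrder ν'] [Fintype ν']
  {b : ιb → ℂ} {d : ν → ℂ} {b' : ιb' → ℂ} {d' : ν' → ℂ} {κ κ' q0 R : ℝ}
  {W W' F E F' E' : ℂ → ℂ}

/-- the sum over the glued holes, raw form -/
def seaR (xl : Bool → ℝ) (b : ιb → ℂ) (d : ν → ℂ) (b' : ιb' → ℂ) (d' : ν' → ℂ)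
    (F E F' E' : ℂ → ℂ) (m m' : ℕ) : ℂ :=
  WW F qr (db b) * WW F' qr (db b') * (∏ i, ∏ i', qg (db b i - db b' i')) *
    ∑ D ∈ (Finset.univ : Finset ν).powerset, ∑ D' ∈ (Finset.univ : Finset ν').powerset,
      if D.card ≤ m ∧ D'.card ≤ m' then (-1 : ℂ) ^ (D.card + D'.card) *
        (wG (gN (hol (fun _ => E) qr (db b)) qg (db b')) q (db b) d D *
          wG (gN (hol (fun _ => E') qr (db b')) qg (db b)) q (db b') d' D' *
          ∏ j ∈ D, ∏ j' ∈ D', qg (d j - d' j')) *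
        (JJ2 lM (lG xl) lK lM (lG xl) lK
          (hX (hol (fun _ => E) qr (db b)) q qg d D (db b') d' D')
          (hX (hol (fun _ => E') qr (db b')) q qg d' D' (db b) d D)
          q qg (Sum.elim (db b) d) (Sum.elim (db b') d') (m - D.card) (m' - D'.card) /
          ((m - D.card).factorial * (m' - D'.card).factorial)) else 0

theorem sea_raw (M : Geo6 xl a a₁ x y b₁ b₂ yl)
    (S : Sp6 xl a a₁ x y b₁ b₂ yl κ κ' q0 true b d W F E)
    (S' : Sp6 xl a a₁ x y b₁ b₂ yl κ κ' q0 false b' d' W' F' E') (hκ' : κ' < 6)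
    (hR : 0 < R) (hb : ∀ i, |(b i).im| < R) (hb' : ∀ i, |(b' i).im| < R)
    {n n' k k' m m' : ℕ} (hq : (n : ℝ) + k - (n' + k') = q0) (hk : k + m = 2 * Fintype.card ιb)
    (hk' : k' + m' = 2 * Fintype.card ιb') (t : Fin n ⊕ Fin n' → ℝ) :
    Jr x y R yl b b' F F' k k' t = seaR xl b d b' d' (fun z => F z * Wq yl t true z)
      (fun z => E z * (Wq yl t true z)⁻¹) (fun z => F' z * Wq yl t false z)
      (fun z => E' z * (Wq yl t false z)⁻¹) m m' := by
  have hl := Bd.l_pos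
  have g1 := M.h1
  have g2 := M.h2
  have g3 := M.h3
  have g4 := M.h4
  have g5 := M.h5
  have g6 := M.h6
  have g7 := M.h7
  have g8 := M.h8
  have g9 := M.h9
  have g10 := M.h10
  have g11 := M.h11
  have hpi := M.lpi
  set δ : ℝ := (6 - κ') / 2 with hδ
  have hδ0 : 0 < δ := by rw [hδ]; linarith
  have hδ1 : κ' + δ < 6 := by rw [hδ]; linarith
  have hA : ∀ {ν₀ : Type} [Fintype ν₀] (d₀ : ν₀ → ℂ), Cg Pool.Agent.PHK.rM (rP x y R)
      (fun t => -rO x y R t) (OS a₁ b₁) (Pool.Agent.PHK.rK x y R) (OmR x y R d₀) (fun _ => 1)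
      (fun _ => 1) := fun d₀ =>
    (Pool.Agent.PHK.rect_cg (R := R) M.h3 (by linarith) hR (isOpen_OS a₁ b₁) M.rKU).shrink
      (isOpen_OmR x y R d₀) inter_subset_left
  have hA' := Pool.Agent.PHK.lines_cg M.xl12 (by linarith) M.h1 M.h9 (p := 2) (by norm_num) hδ0
  have hr : Rf q qr (OS a₁ b₁) Vl := Pool.Agent.PHD.rf_lines (by linarith)
  have hqA := Pool.Agent.PHK.pq_cpt (S := Pool.Agent.PHK.rK x y R)
    Pool.Agent.PHK.isCompact_rK M.rKU hr.pf
  have hqA' := Pool.Agent.PHD.pq_lines (a := a) (b := b₂) (x := xl false) (y := xl true)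
    (by linarith) (by linarith [M.xl12])
  -- the joint regions
  have sub1 : Pool.Agent.PHK.rK x y R ⊆ CS (xl false) (xl true) := fun z hz =>
    ⟨by linarith [hz.1], by linarith [hz.2.1]⟩
  have hU : ∀ z ∈ OS a (a + l), ∀ w ∈ OS a (a + l), z - w ∈ Vl :=
    Pool.Agent.PHD.sub_Vl (by linarith) (by linarith)
  have sub3 : CS (xl false) (xl true) ⊆ OS a (a + l) := fun z hz =>
    ⟨g1.trans_le hz.1, by linarith [hz.2]⟩
  have subU : OS a₁ b₁ ⊆ OS a (a + l) := fun z hz => ⟨by linarith [hz.1], by linarith [hz.2]⟩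
  have subU' : OS a b₂ ⊆ OS a (a + l) := fun z hz => ⟨hz.1, by linarith [hz.2]⟩
  have c1 : (Fintype.card (ιb ×ₗ Bool) : ℝ) = 2 * Fintype.card ιb := by
    rw [Pool.Agent.PHD.card_db]
    push_cast
    rfl
  have c1' : (Fintype.card (ιb' ×ₗ Bool) : ℝ) = 2 * Fintype.card ιb' := by
    rw [Pool.Agent.PHD.card_db]
    push_cast
    rfl
  have k1 : (k : ℝ) + m = 2 * Fintype.card ιb := by exact_mod_cast hk
  have k1' : (k' : ℝ) + m' = 2 * Fintype.card ιb' := by exact_mod_cast hk'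
  have hG := S.gf M t (α := δ + 2 * m + 2 * k') (by
    rw [c1]
    simp [sg]
    linarith)
  have hG' := S'.gf M t (α := δ + 2 * m' + 2 * k) (by
    rw [c1']
    simp [sg]
    linarith)
  have memO : ∀ {ν₀ : Type} [Fintype ν₀] {ι₀ : Type} (b₀ : ι₀ → ℂ) (d₀ : ν₀ → ℂ),
      (∀ i, x < (b₀ i).re ∧ (b₀ i).re < y) → (∀ i, |(b₀ i).im| < R) → (∀ i j, b₀ i ≠ d₀ j) →
      (∀ i, db b₀ i ∈ OmR x y R d₀) ∧ ∀ i, db b₀ i ∈ OS (xl false) (xl true) := by
    intro ν₀ _ ι₀ b₀ d₀ h1 h2 h3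
    refine ⟨fun i => ⟨⟨(h1 _).1, (h1 _).2, h2 _⟩, fun j => h3 _ j⟩, fun i => ⟨?_, ?_⟩⟩
    · have := (h1 (ofLex i).1).1
      show xl false < (b₀ (ofLex i).1).re
      linarith
    · have := (h1 (ofLex i).1).2
      show (b₀ (ofLex i).1).re < xl true
      linarith
  have m1 := memO b d S.bin hb S.bd
  have m1' := memO b' d' S'.bin hb' S'.bd
  have fa : ∀ {ν₀ : Type} [Fintype ν₀] {ι₀ : Type} [Fintype ι₀] (d₀ : ν₀ → ℂ) {F₀ : ℂ → ℂ} (s : Bool) (k₀ : ℕ),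
      DifferentiableOn ℂ F₀ (OS a₁ b₁) → Fa (ι := ι₀ ×ₗ Bool) (OS a₁ b₁) (Pool.Agent.PHK.rK x y R)
        (OmR x y R d₀) (fun _ => 1) (fun _ => 1) k₀ fun _ z => F₀ z * Wq yl t s z := by
    intro ν₀ _ ι₀ _ d₀ F₀ s k₀ hF
    have an : DifferentiableOn ℂ (fun z => F₀ z * Wq yl t s z) (OS a₁ b₁) :=
      hF.mul (M.Wq_an t s fun z hz t => M.re_p hz t)
    refine Pool.Agent.PHK.fa_cpt Pool.Agent.PHK.isCompact_rK M.rKU (isOpen_OmR x y R d₀) ?_ ?_ k₀
    · intro c _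
      exact an
    · exact an.continuousOn.comp continuousOn_snd fun p hp => hp.2
  have node : ∀ {s : Bool} {ν₀ : Type} [Fintype ν₀] {ι₀ : Type} [Fintype ι₀] {b₀ : ι₀ → ℂ}
      {d₀ : ν₀ → ℂ} {W₀ F₀ E₀ : ℂ → ℂ},
      Sp6 xl a a₁ x y b₁ b₂ yl κ κ' q0 s b₀ d₀ W₀ F₀ E₀ → ∀ c : ι₀ ×ₗ Bool → ℂ,
      (∀ i, c i ∈ OmR x y R d₀) → ∀ i, hol (fun _ z => E₀ z * (Wq yl t s z)⁻¹) qr c (c i) /
        ∏ j, (c i - d₀ j) = Pool.Agent.PHD.fH (fun z => F₀ z * Wq yl t s z) qr c (c i) := by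
    intro s ν₀ _ ι₀ _ b₀ d₀ W₀ F₀ E₀ S₀ c h1 i
    obtain ⟨n1, n2, n3, n4⟩ := S₀.f_ne M (h1 i)
    have n5 := M.Wq_ne t s n2
    have n6 : ∏ j, (c i - d₀ j) ≠ 0 := Finset.prod_ne_zero_iff.2 fun j _ => sub_ne_zero.2 ((h1 i).2 j)
    unfold hol Pool.Agent.PHD.fH
    rw [Pool.Agent.PHD.lcn_node, mul_one]
    show E₀ (c i) * (Wq yl t s (c i))⁻¹ * (qr 0 / ∏ j, qr (c i - c j)) / ∏ j, (c i - d₀ j) =
      qr 0 / (F₀ (c i) * Wq yl t s (c i) * ∏ j, qr (c i - c j))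
    rw [n4]
    field_simp
  have key := Pool.Agent.PHD.JJ2_sea (hA d) hA' (hA d') hA' hqA hqA' hqA hqA' hr hr
    (Pool.Agent.PHD.gp_qg (𝒰 := OS a (a + l)) (𝒮 := CS (xl false) (xl true)) hU sub3)
    subU subU' subU subU' sub1 subset_rfl sub1 subset_rfl
    (Pool.Agent.PHD.q_exp (by linarith [M.xl12])) (fun z hz => hz.2.2)
    (k := k) (m := m) (k₂ := k') (m₂ := m') (by rw [Pool.Agent.PHD.card_db]; exact hk)
    (by rw [Pool.Agent.PHD.card_db]; exact hk')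
    (F := fun _ z => F z * Wq yl t true z) (F₂ := fun _ z => F' z * Wq yl t false z)
    (α := δ + 2 * m + 2 * k') (α₂ := δ + 2 * m' + 2 * k) le_rfl le_rfl (fa d true k S.fan) hG
    (fa d' false k' S'.fan) hG'
    (fun c hc i => mul_ne_zero (S.f_ne M (hc i)).2.2.1 (M.Wq_ne t true (S.f_ne M (hc i)).2.1))
    (fun c hc i => mul_ne_zero (S'.f_ne M (hc i)).2.2.1 (M.Wq_ne t false (S'.f_ne M (hc i)).2.1))
    S.dinj (fun j => ⟨(S.din j).1, (S.din j).2⟩) S'.dinj (fun j => ⟨(S'.din j).1, (S'.din j).2⟩)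
    (fun c h1 _ _ _ => node S c h1) (fun c h1 _ _ _ => node S' c h1)
    m1.1 m1.2 (fun i j => S.bd _ j) m1'.1 m1'.2 (fun i j => S'.bd _ j)
  exact key

end sea

end NUP1S

end
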