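import Pool.Agent.PHK.HoleT

/-!
# The gas on the host line: quanta on the line `yl`, particles on the rectangles

* `line_move`: a line is moved over a strip without poles; `rect_rep'`: `line x = line yl + rectangle
  [x, y]`; `ZZ_rect'`: the binomial expansion;
* `NI_RR2`: both species on the rectangle are the integral `JJ2` of PHD (flat form);
* **`gas_GPk`**: `gas a a' x (W true) (W false) = ∑ k, ∑ k', GPk (a - k) (a' - k') k k'`;
* `JJ2_zero1`, `Jr_zero`: more particles than poles; **`gas_GPk6`**: at most as many particles as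
  poles (`Geo6`, `Sp6`).
-/

set_option autoImplicit false
set_option linter.unusedSectionVars false

noncomputable section

open Complex MeasureTheory NUP1 Set Filter Topology
open scoped Real
open Pool.Agent.PHD (one QP JJ oP xP JJ2 db hol qr WW wG gN hX lcn oP_mul)
open NUP1.Bd (qg)

namespace NUP1S

attribute [local simp] re_vl im_vl

variable {pl : Bool → Finset ℂ} {κ x y yl R : ℝ} {g : Bool → ℂ → ℂ}

/-! ### the strip up to the line of the quanta -/

theorem InR.geo' (h : InR pl x y R) (hκ : 0 < κ) (hxy : x ≤ y) (hyl : y ≤ yl) (hw : yl - x < l) :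
    Geo pl κ x yl where
  kpos := hκ
  ab := hxy.trans hyl
  wd := hw
  pin s p hp := ⟨(h s p hp).1.le, (h s p hp).2.1.le.trans hyl⟩

theorem okLine' (h : InR pl x y R) (hκ : 0 < κ) (s : Bool) {σ : ℝ} (h0 : x ≤ σ) (h1 : σ ≤ yl)
    (hσ : σ = x ∨ y ≤ σ) : OkC pl κ x yl (lineC s σ) where
  mom := measurable_const
  mpos := by
    show Measurable fun t : ℝ => vl σ t
    unfold vl
    fun_prop
  re1 t := by
    show x ≤ (vl σ t).re
    rw [re_vl]
    exact h0
  re2 t := by
    show (vl σ t).re ≤ yl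
    rw [re_vl]
    exact h1
  away := by
    obtain ⟨δ, hδ, hd⟩ := rect_dist (h s)
    refine ⟨δ, hδ, fun t p hp => ?_⟩
    obtain ⟨k1, k2, -⟩ := hd p hp
    have n1 := Complex.abs_re_le_norm (vl σ t - p)
    rw [sub_re, re_vl] at n1
    show δ ≤ ‖vl σ t - p‖
    rcases hσ with rfl | h3
    · have := neg_le_abs (σ - p.re)
      linarith
    · have := le_abs_self (σ - p.re)
      linarith
  int := by
    have h1 := integrable_exp_neg_abs hκ
    refine (h1.const_mul ‖(2 * π : ℂ)⁻¹‖).congr (Eventually.of_forall fun t => ?_)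
    show ‖(2 * π : ℂ)⁻¹‖ * Real.exp (-κ * |t|) =
      ‖(2 * π : ℂ)⁻¹‖ * Real.exp (-(κ * |(vl σ t).im|))
    rw [im_vl, neg_mul]

/-- **a line is moved over a strip without poles** -/
theorem line_move (h : InR pl x y R) (G : Geo pl κ x yl) (hxy : x ≤ y) (hyl : y ≤ yl) {s : Bool}
    (hg : Reg pl κ x yl (sg s) g) :
    ∫ t, hh pl g (lineC s y) t = ∫ t, hh pl g (lineC s yl) t := by
  obtain ⟨δ, hδ, hd⟩ := rect_dist (h s)
  obtain ⟨m, hm, hml⟩ := prod_lower hδ G.wd (G.pin s)
  obtain ⟨D, hD, hgb⟩ := hg.bd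
  have hne : ∀ z : ℂ, y ≤ z.re → ∀ p ∈ pl s, z ≠ p := by
    rintro z h1 p hp rfl
    obtain ⟨k1, k2, k3⟩ := h s z hp
    linarith
  have hcl : ∀ σ : ℝ, y ≤ σ → σ ≤ yl → Continuous fun t : ℝ => Wt pl g s (vl σ t) := by
    intro σ h1 h2
    rw [continuous_iff_continuousAt]
    intro t
    have h4 : DifferentiableAt ℂ (Wt pl g s) (vl σ t) := by
      refine diff_Wt G hg (by simpa using hxy.trans h1) (by simpa using h2) (hne _ ?_)
      rw [re_vl]
      exact h1
    refine ContinuousAt.comp (f := fun t : ℝ => vl σ t) h4.continuousAt ?_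
    unfold vl
    fun_prop
  have hdf : ∀ z : ℂ, y ≤ z.re → z.re ≤ yl → (0 : ℝ) ≤ |z.im| → DifferentiableAt ℂ (Wt pl g s) z :=
    fun z h1 h2 _ => diff_Wt G hg (hxy.trans h1) h2 (hne z h1)
  have key := line_eq_rect (F := Wt pl g s) (C := D / m) (δ := κ + 2) hyl le_rfl
    (by have := G.kpos; linarith) (hcl y le_rfl hyl) (hcl yl hyl le_rfl) hdf ?_
  · have e1 : ∀ σ : ℝ, ∫ t, hh pl g (lineC s σ) t =
        (2 * π : ℂ)⁻¹ * ∫ t : ℝ, Wt pl g s (vl σ t) := fun σ => by
      rw [← integral_const_mul]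
      rfl
    rw [e1, e1, key, int_rO hyl le_rfl]
    · simp
    · intro z hz
      exact (hdf z hz.1 hz.2.1 (abs_nonneg _)).continuousAt.continuousWithinAt
  · intro z h1 h2 _
    have h4 := hgb s z (hxy.trans h1) h2
    have h5 := hml z (hxy.trans h1) h2 fun p hp => by
      obtain ⟨k1, k2, k3⟩ := hd p hp
      have n2 := Complex.abs_re_le_norm (z - p)
      rw [sub_re] at n2
      have := le_abs_self (z.re - p.re)
      linarith
    unfold Wt
    rw [norm_div]
    have hpos : 0 < m * Real.exp (2 * (pl s).card * |z.im|) := by positivity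
    refine (div_le_div₀ (by positivity) h4 hpos h5).trans (le_of_eq ?_)
    rw [mul_div_mul_comm, ← Real.exp_sub]
    congr 2
    have : ((sg s * sg s : ℤ) : ℝ) = 1 := by rw [sg_sq]; simp
    rw [this]
    ring

/-- **the line `x` is replaced by the line `yl` and the rectangle** -/
theorem rect_rep' (h : InR pl x y R) (G : Geo pl κ x yl) (hxy : x ≤ y) (hyl : y ≤ yl) (hR : 0 ≤ R)
    (s : Bool) : Rep pl κ x yl (lineC s x) (lineC s yl) (rectC s x y R) := by
  intro g hg
  have h1 := rect_rep G hxy hR le_rfl hyl (h s) g hg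
  rw [h1, line_move h G hxy hyl (s := s) hg]

/-- **the binomial expansion for both species** -/
theorem ZZ_rect' (h : InR pl x y R) (hκ : 0 < κ) (hxy : x ≤ y) (hyl : y ≤ yl) (hw : yl - x < l)
    (hR : 0 ≤ R) (a a' : ℕ) (hg : Reg pl κ x yl (a * sg true + a' * sg false) g) :
    ZZ pl x a a' g = ∑ k ∈ Finset.range (a + 1), ∑ k' ∈ Finset.range (a' + 1),
      ((((a - k).factorial : ℕ) : ℂ)⁻¹ * (((a' - k').factorial : ℕ) : ℂ)⁻¹ *
        (((k.factorial : ℕ) : ℂ)⁻¹ * ((k'.factorial : ℕ) : ℂ)⁻¹)) *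
        NI pl (LL (a - k) (a' - k') yl ++ RR k k' x y R) g := by
  have G := h.geo' hκ hxy hyl hw
  have ox : ∀ s, OkC pl κ x yl (lineC s x) := fun s =>
    okLine' h hκ s le_rfl (hxy.trans hyl) (Or.inl rfl)
  have oy : ∀ s, OkC pl κ x yl (lineC s yl) := fun s =>
    okLine' h hκ s (hxy.trans hyl) le_rfl (Or.inr hyl)
  have oR : ∀ s, OkC pl κ x yl (rectC s x y R) := fun s =>
    OkC.rect hxy hR le_rfl hyl hκ.le (h s)
  have rp : ∀ s, Rep pl κ x yl (lineC s x) (lineC s yl) (rectC s x y R) := fun s =>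
    rect_rep' h G hxy hyl hR s
  have s1 : ZZ pl x a a' g = ((a'.factorial : ℕ) : ℂ)⁻¹ *
      Z1 pl (lineC true x) a (List.replicate a' (lineC false x)) g := by
    unfold ZZ Z1
    ring
  rw [s1, Z1_sum G (e := lineC true x) (c := lineC true yl) (d := rectC true x y R) rfl rfl
    (ox true) (oy true) (oR true) (rp true) (ok_rep (ox false) a') a (by
      rw [chL_replicate]
      exact hg), Finset.mul_sum]
  refine Finset.sum_congr rfl fun k hk => ?_
  have hk' : k ≤ a := by
    have := Finset.mem_range.1 hk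
    omega
  -- reorder
  set M : List Ct := List.replicate (a - k) (lineC true yl) ++
    List.replicate k (rectC true x y R) with hM
  have okM : ∀ c ∈ M, OkC pl κ x yl c := ok_app (ok_rep (oy true) _) (ok_rep (oR true) _)
  have chM : chL M = a * sg true := by
    rw [hM, chL_append, chL_replicate, chL_replicate]
    show ((a - k : ℕ) : ℤ) * sg true + (k : ℤ) * sg true = _
    push_cast [hk']
    ring
  have hperm : (List.replicate (a - k) (lineC true yl) ++ (List.replicate k (rectC true x y R) ++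
      List.replicate a' (lineC false x))).Perm (List.replicate a' (lineC false x) ++ M) := by
    rw [← List.append_assoc]
    exact List.perm_append_comm
  have ok1 : ∀ c ∈ List.replicate (a - k) (lineC true yl) ++ (List.replicate k (rectC true x y R) ++
      List.replicate a' (lineC false x)), OkC pl κ x yl c :=
    ok_app (ok_rep (oy true) _) (ok_app (ok_rep (oR true) _) (ok_rep (ox false) _))
  have hch : chL (List.replicate (a - k) (lineC true yl) ++ (List.replicate k (rectC true x y R) ++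
      List.replicate a' (lineC false x))) = a * sg true + a' * sg false := by
    rw [chL_perm hperm, chL_append, chM, chL_replicate]
    show (a' : ℤ) * sg false + _ = _
    ring
  have e1 : Z1 pl (lineC true yl) (a - k) (List.replicate k (rectC true x y R) ++
      List.replicate a' (lineC false x)) g = (((a - k).factorial : ℕ) : ℂ)⁻¹ *
        ((a'.factorial : ℕ) : ℂ) * Z1 pl (lineC false x) a' M g := by
    unfold Z1
    rw [NI_perm G hperm ok1 g (by rw [hch]; exact hg)]
    have : ((a'.factorial : ℕ) : ℂ) ≠ 0 := by exact_mod_cast Nat.factorial_ne_zero a'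
    field_simp
  rw [e1, Z1_sum G (e := lineC false x) (c := lineC false yl) (d := rectC false x y R) rfl rfl
    (ox false) (oy false) (oR false) (rp false) okM a' (by
      rw [chM]
      show Reg pl κ x yl (a' * sg false + a * sg true) g
      rw [add_comm]
      exact hg), Finset.mul_sum, Finset.mul_sum, Finset.mul_sum]
  refine Finset.sum_congr rfl fun k' hk2 => ?_
  have hk2' : k' ≤ a' := by
    have := Finset.mem_range.1 hk2
    omega
  have hperm2 : (List.replicate (a' - k') (lineC false yl) ++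
      (List.replicate k' (rectC false x y R) ++ M)).Perm
      (LL (a - k) (a' - k') yl ++ RR k k' x y R) := by
    unfold LL RR
    rw [hM]
    have p1 : (List.replicate (a' - k') (lineC false yl) ++ (List.replicate k' (rectC false x y R) ++
        (List.replicate (a - k) (lineC true yl) ++ List.replicate k (rectC true x y R)))).Perm
        (List.replicate (a' - k') (lineC false yl) ++ (List.replicate (a - k) (lineC true yl) ++
          (List.replicate k (rectC true x y R) ++ List.replicate k' (rectC false x y R)))) := by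
      refine List.Perm.append_left _ ?_
      refine List.perm_append_comm.trans ?_
      rw [List.append_assoc]
    refine p1.trans ?_
    rw [← List.append_assoc]
    exact List.Perm.append_right _ List.perm_append_comm
  have ok2 : ∀ c ∈ List.replicate (a' - k') (lineC false yl) ++
      (List.replicate k' (rectC false x y R) ++ M), OkC pl κ x yl c :=
    ok_app (ok_rep (oy false) _) (ok_app (ok_rep (oR false) _) okM)
  have hch2 : chL (List.replicate (a' - k') (lineC false yl) ++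
      (List.replicate k' (rectC false x y R) ++ M)) = a * sg true + a' * sg false := by
    rw [chL_append, chL_append, chM, chL_replicate]
    show ((a' - k' : ℕ) : ℤ) * sg false + (chL (List.replicate k' (rectC false x y R)) + _) = _
    rw [chL_replicate]
    show ((a' - k' : ℕ) : ℤ) * sg false + ((k' : ℤ) * sg false + _) = _
    push_cast [hk2']
    ring
  unfold Z1
  rw [NI_perm G hperm2 ok2 g (by rw [hch2]; exact hg)]
  have : ((a'.factorial : ℕ) : ℂ) ≠ 0 := by exact_mod_cast Nat.factorial_ne_zero a'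
  field_simp

/-! ### both species on the rectangle -/

section two

variable {ι ι' : Type*} [Fintype ι] [Fintype ι'] {f f' : ℂ → ℂ} {c : ι → ℂ} {c' : ι' → ℂ}

/-- the integrand of both species on the rectangle -/
theorem Fc_rect2 {k k' : ℕ} (hf : ∀ t, Wt pl g true (rP x y R t) =
      f (rP x y R t) / ∏ i, (rP x y R t - c i))
    (hf' : ∀ t, Wt pl g false (rP x y R t) = f' (rP x y R t) / ∏ i, (rP x y R t - c' i))
    (t : Fin k → ℝ) (t' : Fin k' → ℝ) :
    Fc pl g (Sum.elim (fun _ : Fin k => rectC true x y R) fun _ : Fin k' => rectC false x y R)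
      (Sum.elim t t') = (-1) ^ (k + k') *
      (oP (rP x y R) (rK x y R) f q c t * oP (rP x y R) (rK x y R) f' q c' t' *
        xP (rP x y R) (rP x y R) qg t t') := by
  rw [Fc_sum, Fc_rect t fun a => hf (t a),
    Fc_rect (f := fun z => f' z * ∏ i, qg (z - rP x y R (t i))) (c := c') t' fun a => ?_]
  · have e1 : (∏ a, one (rP x y R) (rK x y R) (fun z => f' z * ∏ i, qg (z - rP x y R (t i))) c'
        (t' a)) * QP q (fun a => rP x y R (t' a)) = oP (rP x y R) (rK x y R) f' q c' t' *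
          ∏ a, ∏ i, qg (rP x y R (t' a) - rP x y R (t i)) :=
      oP_mul (rP x y R) (rK x y R) f' (fun z => ∏ i, qg (z - rP x y R (t i))) q c' t'
    have e2 : ∏ a, ∏ i, qg (rP x y R (t' a) - rP x y R (t i)) =
        xP (rP x y R) (rP x y R) qg t t' := by
      unfold Pool.Agent.PHD.xP
      rw [Finset.prod_comm]
      refine Finset.prod_congr rfl fun i _ => Finset.prod_congr rfl fun a _ => ?_
      rw [← Bd.qg_neg, neg_sub]
    rw [e1, e2, pow_add]
    unfold Pool.Agent.PHD.oP
    ring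
  · rw [Wt_adI, hf']
    have : ∏ i, PP false (rectC true x y R).sp (rP x y R (t' a) - (rectC true x y R).pos (t i)) =
        ∏ i, qg (rP x y R (t' a) - rP x y R (t i)) := by
      refine Finset.prod_congr rfl fun i _ => ?_
      unfold PP rectC
      simp
    rw [this]
    ring

theorem RR_enum (k k' : ℕ) (x y R : ℝ) : ∃ e : Fin k ⊕ Fin k' ≃ Fin (RR k k' x y R).length,
    ∀ i, (Sum.elim (fun _ : Fin k => rectC true x y R) (fun _ : Fin k' => rectC false x y R) i) =
      (RR k k' x y R).get (e i) := by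
  unfold RR
  have hlen : k + k' = (List.replicate k (rectC true x y R) ++
      List.replicate k' (rectC false x y R)).length := by
    rw [List.length_append, List.length_replicate, List.length_replicate]
  refine ⟨finSumFinEquiv.trans (finCongr hlen), ?_⟩
  rintro (i | i)
  · simp
  · simp

theorem oP_rzero {n : ℕ} {ι₀ : Type*} [Fintype ι₀] (F : ℂ → ℂ) (cc : ι₀ → ℂ) (u : Fin n → ℝ)
    (hu : u ∉ Set.pi univ (fun _ => Ioc (0 : ℝ) 4)) :
    oP (rP x y R) (rK x y R) F q cc u = 0 := by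
  rw [mem_univ_pi, not_forall] at hu
  obtain ⟨a, ha⟩ := hu
  have h0 : one (rP x y R) (rK x y R) F cc (u a) = 0 := by
    unfold Pool.Agent.PHD.one rK
    rw [rO_zero ha]
    simp
  unfold Pool.Agent.PHD.oP
  rw [Finset.prod_eq_zero (Finset.mem_univ a) h0, zero_mul]

theorem pi_mu4 (k : ℕ) : (Measure.pi fun _ : Fin k => mu4) =
    (Measure.pi fun _ : Fin k => (volume : Measure ℝ)).restrict
      (Set.pi univ fun _ => Ioc (0 : ℝ) 4) := (Measure.restrict_pi_pi _ _).symm

/-- **both species on the rectangle** -/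
theorem NI_RR2 (h : InR pl x y R) (hκ : 0 < κ) (hxy : x ≤ y) (hw : y - x < l) (hR : 0 ≤ R)
    {k k' : ℕ} (hg : Reg pl κ x y (k * sg true + k' * sg false) g)
    (hf : ∀ t, Wt pl g true (rP x y R t) = f (rP x y R t) / ∏ i, (rP x y R t - c i))
    (hf' : ∀ t, Wt pl g false (rP x y R t) = f' (rP x y R t) / ∏ i, (rP x y R t - c' i)) :
    NI pl (RR k k' x y R) g = (-1) ^ (k + k') *
      JJ2 mu4 (rP x y R) (rK x y R) mu4 (rP x y R) (rK x y R) f f' q qg c c' k k' := by
  have G := h.geo hκ hxy hw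
  obtain ⟨e, he⟩ := RR_enum k k' x y R
  rw [NI_eq_int G _ (okRR h hκ hxy hR k k') g (by rw [chL_RR]; exact hg) _ e he, integral_sum]
  simp only [Fc_rect2 hf hf']
  rw [integral_const_mul]
  congr 1
  unfold Pool.Agent.PHD.JJ2
  rw [pi_mu4, pi_mu4, Measure.prod_restrict, setIntegral_eq_integral_of_forall_compl_eq_zero]
  rintro ⟨t, t'⟩ ht
  rw [mem_prod, not_and_or] at ht
  rcases ht with ht | ht
  · simp only [oP_rzero f c t ht, zero_mul]
  · simp only [oP_rzero f' c' t' ht, mul_zero, zero_mul]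

end two

/-! ### the gas -/

theorem Reg.mono_b {a b b' : ℝ} {Q : ℤ} (hg : Reg pl κ a b Q g) (h : b' ≤ b) :
    Reg pl κ a b' Q g where
  meas := hg.meas
  diff s u h1 h2 := hg.diff s u h1 (h2.trans h)
  bd := by
    obtain ⟨D, hD, hb⟩ := hg.bd
    exact ⟨D, hD, fun s u h1 h2 => hb s u h1 (h2.trans h)⟩

/-- **the gas on the line `x`: quanta on the line `yl` and particles on the rectangles** -/
theorem gas_GPk (h : InR pl x y R) (hκ : 0 < κ) (hxy : x ≤ y) (hyl : y ≤ yl) (hw : yl - x < l)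
    (hR : 0 ≤ R) (a a' : ℕ) (hg : Reg pl κ x yl (a * sg true + a' * sg false) g)
    {W : Bool → ℂ → ℂ} (hx : ∀ s (u : ℂ), u.re = x → W s u = Wt pl g s u)
    (hy : ∀ s (u : ℂ), u.re = yl → W s u = Wt pl g s u)
    {ιb ιb' : Type*} [Fintype ιb] [Fintype ιb'] {b : ιb → ℂ} {b' : ιb' → ℂ} {F F' : ℂ → ℂ}
    (hF : ∀ t, Wt pl g true (rP x y R t) = F (rP x y R t) / ∏ i, (rP x y R t - db b i))
    (hF' : ∀ t, Wt pl g false (rP x y R t) = F' (rP x y R t) / ∏ i, (rP x y R t - db b' i)) :
    gas a a' x (W true) (W false) = ∑ k ∈ Finset.range (a + 1), ∑ k' ∈ Finset.range (a' + 1),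
      GPk x y R yl b b' W F F' (a - k) (a' - k') k k' := by
  have G := h.geo' hκ hxy hyl hw
  rw [gas_eq_ZZ G x (fun s => okLine' h hκ s le_rfl (hxy.trans hyl) (Or.inl rfl)) a a' hg
    (hx true) (hx false), ZZ_rect' h hκ hxy hyl hw hR a a' hg]
  refine Finset.sum_congr rfl fun k hk => Finset.sum_congr rfl fun k' hk' => ?_
  have hk1 : k ≤ a := Nat.lt_succ_iff.1 (Finset.mem_range.1 hk)
  have hk2 : k' ≤ a' := Nat.lt_succ_iff.1 (Finset.mem_range.1 hk')
  have hq : ∀ i, OkC pl κ x yl (qC yl (a - k) (a' - k') i) := by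
    rintro (i | i)
    · exact okLine' h hκ true (hxy.trans hyl) le_rfl (Or.inr hyl)
    · exact okLine' h hκ false (hxy.trans hyl) le_rfl (Or.inr hyl)
  have hRR : ∀ c ∈ RR k k' x y R, OkC pl κ x yl c :=
    ok_app (ok_rep (OkC.rect hxy hR le_rfl hyl hκ.le (h true)) _)
      (ok_rep (OkC.rect hxy hR le_rfl hyl hκ.le (h false)) _)
  have hch : chL (LL (a - k) (a' - k') yl) + chL (RR k k' x y R) =
      a * sg true + a' * sg false := by
    rw [chL_LL, chL_RR]
    push_cast [hk1, hk2]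
    ring
  have hg2 : Reg pl κ x yl (chL (LL (a - k) (a' - k') yl) + chL (RR k k' x y R)) g := by
    rw [hch]
    exact hg
  rw [(NI_LL G hq _ hRR hg2).2]
  unfold GPk
  have e1 : ∀ t : Fin (a - k) ⊕ Fin (a' - k') → ℝ, Fc pl g (qC yl (a - k) (a' - k')) t =
      Fc p00 W (qC yl (a - k) (a' - k')) t := by
    intro t
    unfold Fc
    congr 1
    refine Finset.prod_congr rfl fun i _ => ?_
    unfold hh
    rw [Wt_p00]
    congr 1
    rw [hy]
    rw [qC_pos, re_vl]
  have e2 : ∀ t : Fin (a - k) ⊕ Fin (a' - k') → ℝ,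
      NI pl (RR k k' x y R) (adI g (fun i => (qC yl (a - k) (a' - k') i).sp) fun i => vl yl (t i)) =
        (k.factorial * k'.factorial) * ((-1) ^ (k + k') * Jr x y R yl b b' F F' k k' t) := by
    intro t
    have hr : Reg pl κ x yl (k * sg true + k' * sg false)
        (adI g (fun i => (qC yl (a - k) (a' - k') i).sp) fun i => vl yl (t i)) := by
      have h1 := hg2.adF G (fun i => (qC yl (a - k) (a' - k') i).sp) (z := fun i => vl yl (t i))
        (fun i => by rw [re_vl]; exact hxy.trans hyl) (fun i => by rw [re_vl])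
      have h2 : ∑ i, sg (qC yl (a - k) (a' - k') i).sp = chL (LL (a - k) (a' - k') yl) := by
        rw [chL_LL, Fintype.sum_sum_type]
        simp [qC, lineC]
      rwa [h2, add_sub_cancel_left, chL_RR] at h1
    have hW : ∀ (s : Bool) (u : ℂ) (F₀ : ℂ → ℂ) (P : ℂ), Wt pl g s u = F₀ u / P →
        Wt pl (adI g (fun i => (qC yl (a - k) (a' - k') i).sp) fun i => vl yl (t i)) s u =
          F₀ u * Wq yl t s u / P := by
      intro s u F₀ P hu
      rw [Wt_adI, hu]
      unfold Wq
      ring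
    rw [NI_RR2 h hκ hxy (by linarith) hR (hr.mono_b hyl)
      (f := fun z => F z * Wq yl t true z) (f' := fun z => F' z * Wq yl t false z)
      (fun u => hW true _ F _ (hF u)) (fun u => hW false _ F' _ (hF' u))]
    have k1 : ((k.factorial : ℕ) : ℂ) ≠ 0 := by exact_mod_cast Nat.factorial_ne_zero k
    have k2 : ((k'.factorial : ℕ) : ℂ) ≠ 0 := by exact_mod_cast Nat.factorial_ne_zero k'
    have e3 : JJ2 mu4 (rP x y R) (rK x y R) mu4 (rP x y R) (rK x y R)
        (fun z => F z * Wq yl t true z) (fun z => F' z * Wq yl t false z) q qg (db b) (db b') k k' =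
        (k.factorial * k'.factorial) * Jr x y R yl b b' F F' k k' t := by
      unfold Jr
      rw [mul_div_cancel₀]
      · rfl
      · exact mul_ne_zero k1 k2
    rw [e3]
    ring
  simp only [e1, e2]
  have k1 : ((k.factorial : ℕ) : ℂ) ≠ 0 := by exact_mod_cast Nat.factorial_ne_zero k
  have k2 : ((k'.factorial : ℕ) : ℂ) ≠ 0 := by exact_mod_cast Nat.factorial_ne_zero k'
  have e4 : ∀ t : Fin (a - k) ⊕ Fin (a' - k') → ℝ, Fc p00 W (qC yl (a - k) (a' - k')) t *
      ((k.factorial * k'.factorial) * ((-1) ^ (k + k') * Jr x y R yl b b' F F' k k' t)) =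
      ((k.factorial : ℂ) * k'.factorial) * (Fc p00 W (qC yl (a - k) (a' - k')) t *
        ((-1) ^ (k + k') * Jr x y R yl b b' F F' k k' t)) := fun t => by ring
  simp only [e4]
  rw [integral_const_mul, ← mul_assoc]
  congr 1
  field_simp

/-! ### more particles than poles -/

section zero

variable {ιb ν ιb' ν' : Type} [LinearOrder ιb] [Fintype ιb] [Fintype ν]
  [LinearOrder ιb'] [Fintype ιb'] [Fintype ν']
  {b : ιb → ℂ} {d : ν → ℂ} {b' : ιb' → ℂ} {d' : ν' → ℂ} {xl : Bool → ℝ} {a₀ a₁ b₁ b₂ κ' q0 : ℝ}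
  {W W' F E F' E' : ℂ → ℂ}

/-- more particles of the first species than poles -/
theorem JJ2_zero1 (M : Geo6 xl a₀ a₁ x y b₁ b₂ yl) (hR : 0 < R)
    {ι ι' : Type*} [LinearOrder ι] [Fintype ι] [Fintype ι'] {c : ι → ℂ} {c' : ι' → ℂ} {f f' : ℂ → ℂ}
    (hc : ∀ i, c i ∈ Pool.Agent.PHK.rI x y R) (hc' : ∀ i, c' i ∈ Pool.Agent.PHK.rI x y R)
    (hf : DifferentiableOn ℂ f (OS a₁ b₁)) (hf' : DifferentiableOn ℂ f' (OS a₁ b₁)) {k k' : ℕ}
    (hk : Fintype.card ι < k) :
    JJ2 Pool.Agent.PHK.rM (rP x y R) (fun t => -rO x y R t) Pool.Agent.PHK.rM (rP x y R)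
      (fun t => -rO x y R t) f f' q qg c c' k k' = 0 := by
  have hl := Bd.l_pos
  have g1 := M.h1
  have g2 := M.h2
  have g3 := M.h3
  have g4 := M.h4
  have g5 := M.h5
  have g6 := M.h6
  have g7 := M.h7
  have g8 := M.h8
  have g9 := M.h9
  have g10 := M.h10
  have g11 := M.h11
  have hpi := M.lpi
  have hA : Pool.Agent.PHD.Cg Pool.Agent.PHK.rM (rP x y R)
      (fun t => -rO x y R t) (OS a₁ b₁) (Pool.Agent.PHK.rK x y R) (Pool.Agent.PHK.rI x y R)
      (fun _ => 1) (fun _ => 1) :=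
    Pool.Agent.PHK.rect_cg (R := R) M.h3 (by linarith) hR (isOpen_OS a₁ b₁) M.rKU
  have hr : Pool.Agent.PHD.Rf q qr (OS a₁ b₁) Pool.Agent.PHD.Vl :=
    Pool.Agent.PHD.rf_lines (by linarith)
  have hqA := Pool.Agent.PHK.pq_cpt (S := Pool.Agent.PHK.rK x y R)
    Pool.Agent.PHK.isCompact_rK M.rKU hr.pf
  have hU : ∀ z ∈ OS a₁ b₁, ∀ w ∈ OS a₁ b₁, z - w ∈ Pool.Agent.PHD.Vl :=
    Pool.Agent.PHD.sub_Vl (by linarith) (by linarith)
  have hg := (Pool.Agent.PHD.gp_qg (𝒰 := OS a₁ b₁) (𝒮 := Pool.Agent.PHK.rK x y R) hU M.rKU).x1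
    (U := OS a₁ b₁) (U₂ := OS a₁ b₁) (S := Pool.Agent.PHK.rK x y R) (S₂ := Pool.Agent.PHK.rK x y R)
    subset_rfl subset_rfl subset_rfl subset_rfl
  have bd : ∀ {f₀ : ℂ → ℂ}, DifferentiableOn ℂ f₀ (OS a₁ b₁) → ∀ n m : ℕ, ∃ C : ℝ, 0 ≤ C ∧
      ∀ z ∈ Pool.Agent.PHK.rK x y R, ‖f₀ z‖ * (1 : ℝ) ^ n * (1 : ℝ) ^ m ≤ C * 1 := by
    intro f₀ h n m
    obtain ⟨C, h5⟩ := Pool.Agent.PHK.isCompact_rK.exists_bound_of_continuousOn
      (h.continuousOn.mono M.rKU)
    refine ⟨|C|, abs_nonneg _, fun z hz => ?_⟩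
    rw [one_pow, one_pow, mul_one, mul_one, mul_one]
    exact (h5 z hz).trans (le_abs_self C)
  rw [Pool.Agent.PHD.JJ2_fub hA hA hqA hqA hg hf.continuousOn hf'.continuousOn
    (hA.BJ_of hc hqA (fun _ => zero_le_one) (bd hf _ _))
    (hA.BJ_of hc' hqA (fun _ => zero_le_one) (bd hf' _ _))]
  rw [integral_eq_zero_of_ae (Eventually.of_forall fun u => ?_)]
  show _ * _ = 0
  rw [hA.JJ_zero (c := c) hqA hr.q0
    (F := fun _ z => f z * Pool.Agent.PHD.fY (rP x y R) qg u z) ?_ hc hk, mul_zero]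
  have an : DifferentiableOn ℂ (fun z => f z * Pool.Agent.PHD.fY (rP x y R) qg u z) (OS a₁ b₁) :=
    hf.mul (hg.fY_an fun i => M.rKU (hA.mem _))
  refine Pool.Agent.PHK.fa_cpt Pool.Agent.PHK.isCompact_rK M.rKU Pool.Agent.PHK.isOpen_rI ?_ ?_ k
  · intro c _
    exact an
  · exact an.continuousOn.comp continuousOn_snd fun p hp => hp.2

/-- **more particles than poles** -/
theorem Jr_zero (M : Geo6 xl a₀ a₁ x y b₁ b₂ yl)
    (S : Sp6 xl a₀ a₁ x y b₁ b₂ yl κ κ' q0 true b d W F E)
    (S' : Sp6 xl a₀ a₁ x y b₁ b₂ yl κ κ' q0 false b' d' W' F' E') (hR : 0 < R)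
    (hb : ∀ i, |(b i).im| < R) (hb' : ∀ i, |(b' i).im| < R) {n n' k k' : ℕ}
    (hk : ¬(k ≤ 2 * Fintype.card ιb ∧ k' ≤ 2 * Fintype.card ιb')) (t : Fin n ⊕ Fin n' → ℝ) :
    Jr x y R yl b b' F F' k k' t = 0 := by
  have m1 : ∀ i, db b i ∈ Pool.Agent.PHK.rI x y R := fun i => ⟨(S.bin _).1, (S.bin _).2, hb _⟩
  have m2 : ∀ i, db b' i ∈ Pool.Agent.PHK.rI x y R := fun i => ⟨(S'.bin _).1, (S'.bin _).2, hb' _⟩
  have an : DifferentiableOn ℂ (fun z => F z * Wq yl t true z) (OS a₁ b₁) :=
    S.fan.mul (M.Wq_an t true fun z hz t => M.re_p hz t)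
  have an' : DifferentiableOn ℂ (fun z => F' z * Wq yl t false z) (OS a₁ b₁) :=
    S'.fan.mul (M.Wq_an t false fun z hz t => M.re_p hz t)
  unfold Jr
  rw [not_and_or, not_le, not_le] at hk
  rcases hk with hk | hk
  · rw [JJ2_zero1 M hR m1 m2 an an' (by rwa [Pool.Agent.PHD.card_db]), zero_div]
  · haveI := (Pool.Agent.PHK.rect_cg (R := R) M.h3 (by
      have := M.lpi
      have := M.h1
      have := M.h2
      have := M.h4
      have := M.h9
      have := M.h10
      have := M.h11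
      linarith) hR (isOpen_OS a₁ b₁) M.rKU).sf
    rw [Pool.Agent.PHD.JJ2_symm _ _ _ _ _ _ _ Pool.Agent.PHD.qg_even,
      JJ2_zero1 M hR m2 m1 an' an (by rwa [Pool.Agent.PHD.card_db]), zero_div]

/-- **the gas on the host line**: quanta on the line `yl`, particles on the rectangles, at most as
many particles as poles -/
theorem gas_GPk6 (M : Geo6 xl a₀ a₁ x y b₁ b₂ yl) {W : Bool → ℂ → ℂ}
    (S : Sp6 xl a₀ a₁ x y b₁ b₂ yl κ κ' q0 true b d (W true) F E)
    (S' : Sp6 xl a₀ a₁ x y b₁ b₂ yl κ κ' q0 false b' d' (W false) F' E')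
    (hκ : 0 < κ) (hR : 0 < R) (hb : ∀ i, |(b i).im| < R) (hb' : ∀ i, |(b' i).im| < R)
    (h : InR pl x y R) (a a' : ℕ) (hg : Reg pl κ x yl (a * sg true + a' * sg false) g)
    (hx : ∀ s (u : ℂ), u.re = x → W s u = Wt pl g s u)
    (hy : ∀ s (u : ℂ), u.re = yl → W s u = Wt pl g s u)
    (hF : ∀ t, Wt pl g true (rP x y R t) = F (rP x y R t) / ∏ i, (rP x y R t - db b i))
    (hF' : ∀ t, Wt pl g false (rP x y R t) = F' (rP x y R t) / ∏ i, (rP x y R t - db b' i)) :
    gas a a' x (W true) (W false) = ∑ k ∈ Finset.range (a + 1), ∑ k' ∈ Finset.range (a' + 1),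
      if k ≤ 2 * Fintype.card ιb ∧ k' ≤ 2 * Fintype.card ιb' then
        GPk x y R yl b b' W F F' (a - k) (a' - k') k k' else 0 := by
  have g1 := M.h1
  have g2 := M.h2
  have g3 := M.h3
  have g4 := M.h4
  have g9 := M.h9
  have g10 := M.h10
  have g11 := M.h11
  rw [gas_GPk h hκ g3.le (by linarith) (by linarith) hR.le a a' hg hx hy hF hF']
  refine Finset.sum_congr rfl fun k _ => Finset.sum_congr rfl fun k' _ => ?_
  split_ifs with hk
  · rfl
  · unfold GPk
    simp only [Jr_zero M S S' hR hb hb' hk, mul_zero, integral_zero]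

end zero

end NUP1S

end
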