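import Pool.Agent.PHK.HoleD
import Pool.Agent.NUP1S.Simple3
import Pool.Agent.PHD.CaptR

/-!
# The line of the quanta moves over one simple pole, particles on the rectangles fixed

* `gas_pole`: one gas, one simple pole `w` of species `s0`;
* `GPk_fub`: the particles outside of the integral over the quanta;
* **`GPk_pole`**, `GPk_pole'`: the line of the quanta of `GPk` moves over `w`.
-/

set_option autoImplicit false
set_option linter.unusedSectionVars false

noncomputable section

open Complex MeasureTheory NUP1 Set Filter Topology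
open scoped Real
open Pool.Agent.PHD (one QP JJ oP xP JJ2 db I2 Vl)
open Pool.Agent.PHK (rM rI)
open NUP1.Bd (qg)

namespace NUP1S

/-! ### one gas -/

/-- the pole -/
def pW (s0 : Bool) (w : ℂ) : Bool → Finset ℂ := fun s => if s = s0 then {w} else ∅

/-- the data of the pole -/
def EW (s0 : Bool) (w : ℂ) (r : ℝ) : SD Unit := ⟨fun _ => s0, fun _ => w, fun _ => r⟩

/-- no other pole -/
def D0 : SD Empty := ⟨fun i => i.elim, fun i => i.elim, fun i => i.elim⟩

/-- nothing -/
abbrev act0 : Empty → Prop := fun _ => False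

theorem pl_EW (s0 : Bool) (w : ℂ) (r : ℝ) : (D0.sum (EW s0 w r)).pl (acS Unit act0) = pW s0 w := by
  funext s
  ext p
  rw [SD.mem_pl]
  unfold pW
  constructor
  · rintro ⟨i | i, h1, h2, h3⟩
    · exact i.elim
    · have h4 : s0 = s := h2
      have h5 : w = p := h3
      rw [if_pos h4.symm, Finset.mem_singleton, h5]
  · intro h
    split_ifs at h with h1
    · rw [Finset.mem_singleton] at h
      exact ⟨.inr (), trivial, h1.symm, h.symm⟩
    · exact absurd h (Finset.notMem_empty _)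

/-- the weights at the pole -/
theorem Wt_pW (s0 : Bool) (w : ℂ) (g : Bool → ℂ → ℂ) (s : Bool) (u : ℂ) :
    Wt (pW s0 w) g s u = if s = s0 then g s u / sin (u - w) ^ 2 else g s u := by
  unfold Wt pW
  split_ifs <;> simp

theorem rs_pW (s0 : Bool) (w : ℂ) (g : Bool → ℂ → ℂ) : rs (pW s0 w) g s0 w = deriv (g s0) w := by
  unfold rs pW
  simp

/-- the numbers of the quanta besides the one at the pole -/
def nW (s s0 : Bool) : ℕ := if s0 = s then 1 else 0

theorem univ_unit_fin3 : (Finset.univ : Finset (Unit → Fin 3)) = {fun _ => 0, fun _ => 1, fun _ => 2} := by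
  decide

/-- **one gas, the line moves over one simple pole** -/
theorem gas_pole {x y κ : ℝ} (hwd : y - x < l) (hκ : 0 < κ) {w : ℂ} (h1 : x < w.re)
    (h2 : w.re < y) (s0 : Bool) (n n' : ℕ) {g : Bool → ℂ → ℂ}
    (hg : Reg (pW s0 w) κ x y (n * sg true + n' * sg false) g) (h0 : g s0 w = 0)
    {W : Bool → ℂ → ℂ} (hW : ∀ s, ∀ u : ℂ, (u.re = x ∨ u.re = y) → W s u = Wt (pW s0 w) g s u) :
    gas n n' x (W true) (W false) = gas n n' y (W true) (W false) +
      if nW true s0 ≤ n ∧ nW false s0 ≤ n' then -deriv (g s0) w *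
        gas (n - nW true s0) (n' - nW false s0) y (fun u => W true u * PP true s0 (u - w))
          (fun u => W false u * PP false s0 (u - w)) else 0 := by
  obtain ⟨r, hr⟩ : ∃ r : ℝ, r = min (w.re - x) (y - w.re) / 2 := ⟨_, rfl⟩
  have hm : 0 < min (w.re - x) (y - w.re) := lt_min (by linarith) (by linarith)
  have hr0 : 0 < r := by rw [hr]; linarith
  have hr1 : r < w.re - x := by
    have := min_le_left (w.re - x) (y - w.re)
    rw [hr]; linarith
  have hr2 : r < y - w.re := by
    have := min_le_right (w.re - x) (y - w.re)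
    rw [hr]; linarith
  have Ge : (D0.sum (EW s0 w r)).Geom (acS Unit act0) x y :=
    { xy := by linarith
      wd := hwd
      r0 := by
        rintro (i | i) _
        · exact i.elim
        · exact hr0
      lo := by
        rintro (i | i) _
        · exact i.elim
        · show x < w.re - r
          linarith
      hi := by
        rintro (i | i) _
        · exact i.elim
        · show w.re + r < y
          linarith
      sep := by
        rintro (i | i) (j | j) _ _ hij
        · exact i.elim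
        · exact i.elim
        · exact j.elim
        · exact absurd rfl hij }
  have G := Ge.geo hκ
  have ln := Ge.line hκ
  have key := SD.expandS Ge hκ n n' (g := g) (by rw [pl_EW]; exact hg) (fun _ => h0)
  rw [pl_EW] at key G ln
  have e1 := gas_eq_ZZ G x (fun s => (ln s).1) n n' hg (fun u hu => hW true u (Or.inl hu))
    (fun u hu => hW false u (Or.inl hu))
  have e2 := gas_eq_ZZ G y (fun s => (ln s).2) n n' hg (fun u hu => hW true u (Or.inr hu))
    (fun u hu => hW false u (Or.inr hu))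
  have hU : (EW s0 w r).aU (fun _ => 1) g = ad g s0 w := by
    funext s u
    unfold SD.aU ad EW
    simp
  have h3 := hg.ad G s0 (z0 := w) h1.le h2.le
  rw [e1, e2, key, univ_unit_fin3]
  rw [Finset.sum_insert (by decide), Finset.sum_insert (by decide), Finset.sum_singleton]
  simp only [Fintype.sum_unique]
  have n0 : ∀ s, ∀ τ : Empty → Fin 3, D0.nn s τ = 0 := fun s τ => rfl
  have n1 : ∀ s, (EW s0 w r).nn s (fun _ => 0) = 0 := fun s => by
    unfold SD.nn
    simp
  have n2 : ∀ s, (EW s0 w r).nn s (fun _ => 1) = nW s s0 := fun s => by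
    unfold SD.nn nW EW
    rw [Finset.sum_filter]
    simp
  have hS : ∀ τ : Empty → Fin 3, ∀ g' : Bool → ℂ → ℂ, ∀ θ : Empty → ℝ,
      D0.SW τ (pW s0 w) g' θ = 1 := by
    intro τ g' θ
    unfold SD.SW PU PR
    simp
  have hA : ∀ τ : Empty → Fin 3, ∀ g' : Bool → ℂ → ℂ, ∀ θ : Empty → ℝ, D0.aS τ g' θ = g' := by
    intro τ g' θ
    funext s u
    unfold SD.aS
    simp
  have hP : ∀ f : Unit → Unit → ℂ, PU f = 1 := by
    intro f
    unfold PU PR er
    simp only [lt_self_iff_false, if_false, Finset.prod_const_one]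
  have hI : ∀ c : ℂ, ∫ _θ : Empty → ℝ, c ∂(Measure.pi fun _ => mu1) = c := by
    intro c
    rw [integral_const]
    simp
  simp only [n0, n1, n2, hS, hA, hP, hU, one_mul, mul_one, zero_add, hI, Nat.sub_zero,
    zero_le, and_self, and_true]
  rw [if_pos ⟨fun _ => by decide, fun i => i.elim⟩]
  simp only [ne_eq, not_true_eq_false, forall_const, false_and, if_false, add_zero]
  have o0 : (∏ j, (EW s0 w r).om0 (fun _ => 0) (pW s0 w) g j) = 1 := by
    unfold SD.om0
    simp
  have o1 : (∏ j, (EW s0 w r).om0 (fun _ => 1) (pW s0 w) g j) = -deriv (g s0) w := by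
    unfold SD.om0
    simp only [if_true, EW, rs_pW, Finset.prod_const, Finset.card_univ, Fintype.card_unit, pow_one]
  have a0 : (EW s0 w r).aU (fun _ => 0) g = g := by
    funext s u
    unfold SD.aU
    simp
  rw [o0, o1, a0, one_mul]
  congr 1
  by_cases hc : nW true s0 ≤ n ∧ nW false s0 ≤ n'
  · rw [if_pos hc, if_pos ⟨by decide, fun i => i.elim, hc⟩]
    congr 1
    have hn : (n : ℤ) * sg true + n' * sg false - sg s0 = ((n - nW true s0 : ℕ) : ℤ) * sg true +
        ((n' - nW false s0 : ℕ) : ℤ) * sg false := by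
      obtain ⟨c1, c2⟩ := hc
      push_cast [c1, c2]
      cases s0 <;> simp [nW, sg] <;> ring
    rw [hn] at h3
    symm
    refine gas_eq_ZZ G y (fun s => (ln s).2) _ _ h3 (fun u hu => ?_) fun u hu => ?_
    · rw [hW true u (Or.inr hu)]
      unfold Wt ad
      ring
    · rw [hW false u (Or.inr hu)]
      unfold Wt ad
      ring
  · rw [if_neg hc, if_neg fun h => hc h.2.2]


/-! ### the particles outside -/

/-- measurability and decay on the line `c`, charge `Q` -/
structure LB (W : Bool → ℂ → ℂ) (c κ : ℝ) (Q : ℤ) : Prop where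
  m : ∀ s, Measurable fun t : ℝ => W s (vl c t)
  b : ∃ D : ℝ, 0 ≤ D ∧ ∀ s (t : ℝ), ‖W s (vl c t)‖ ≤
    D * Real.exp (-((κ + 2 * (sg s * Q : ℤ)) * |t|))

theorem Fc_adI {ι ι' : Type*} [Fintype ι] [Fintype ι'] {pl : Bool → Finset ℂ} (g : Bool → ℂ → ℂ)
    (C : ι → Ct) (t : ι → ℝ) (s : ι' → Bool) (z : ι' → ℂ) :
    Fc pl (adI g s z) C t = Fc pl g C t * ∏ a, ∏ i, PP (C i).sp (s a) ((C i).pos (t i) - z a) := by
  unfold Fc
  have e : ∏ i, hh pl (adI g s z) (C i) (t i) = (∏ i, hh pl g (C i) (t i)) *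
      ∏ a, ∏ i, PP (C i).sp (s a) ((C i).pos (t i) - z a) := by
    rw [Finset.prod_comm, ← Finset.prod_mul_distrib]
    refine Finset.prod_congr rfl fun i _ => ?_
    unfold hh Wt adI
    ring
  rw [e]
  ring

/-- the field of particles, pointwise bound -/
theorem adI_pt {C ω R : ℝ} (hC : 1 ≤ C) (hP : ∀ (s s' : Bool) (z : ℂ), |z.re| ≤ ω →
    ‖PP s s' z‖ ≤ C * Real.exp (2 * ((sg s * sg s' : ℤ) * |z.im|))) {J : Type*} [Fintype J]
    (s : J → Bool) {z : J → ℂ} {u : ℂ} (h1 : ∀ j, |u.re - (z j).re| ≤ ω)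
    (h2 : ∀ j, |(z j).im| ≤ R) (r : Bool) : ‖∏ j, PP r (s j) (u - z j)‖ ≤
      (C * Real.exp (2 * R)) ^ Fintype.card J *
        Real.exp (2 * ((sg r * ∑ j, sg (s j) : ℤ) * |u.im|)) := by
  have hC0 : 0 ≤ C := zero_le_one.trans hC
  have b1 : ∀ j, ‖PP r (s j) (u - z j)‖ ≤
      C * Real.exp (2 * R) * Real.exp (2 * ((sg r * sg (s j) : ℤ) * |u.im|)) := by
    intro j
    have e1 : (u - z j).re = u.re - (z j).re := sub_re _ _
    have e2 : (u - z j).im = u.im - (z j).im := sub_im _ _
    refine (hP r (s j) _ (by rw [e1]; exact h1 j)).trans ?_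
    rw [mul_assoc, ← Real.exp_add, e2]
    refine mul_le_mul_of_nonneg_left (Real.exp_le_exp.2 ?_) hC0
    have a1 := abs_sub_abs_le_abs_sub u.im (z j).im
    have a2 : |u.im - (z j).im| ≤ |u.im| + |(z j).im| := abs_sub _ _
    have a3 := h2 j
    cases r <;> cases s j <;> simp only [sg, if_true, if_false, Bool.false_eq_true] <;>
      norm_num <;> linarith
  have e0 : 2 * (((sg r * ∑ j, sg (s j) : ℤ) : ℝ) * |u.im|) =
      ∑ j, 2 * ((sg r * sg (s j) : ℤ) * |u.im|) := by
    push_cast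
    rw [Finset.mul_sum, Finset.sum_mul, Finset.mul_sum]
  rw [norm_prod, e0, Real.exp_sum]
  calc ∏ j, ‖PP r (s j) (u - z j)‖
      ≤ ∏ j, (C * Real.exp (2 * R) * Real.exp (2 * ((sg r * sg (s j) : ℤ) * |u.im|))) :=
        Finset.prod_le_prod (fun _ _ => norm_nonneg _) fun j _ => b1 j
    _ = _ := by rw [Finset.prod_mul_distrib, Finset.prod_const, Finset.card_univ]

/-- the field of particles in a bounded set, uniform bound -/
theorem adI_bd {W : Bool → ℂ → ℂ} {c κ R ω : ℝ} {Q : ℤ} (H : LB W c κ Q) {J : Type*} [Fintype J]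
    (s : J → Bool) (hω0 : 0 ≤ ω) (hω : ω < l) : ∃ D : ℝ, 0 ≤ D ∧ ∀ z : J → ℂ,
      (∀ j, |c - (z j).re| ≤ ω) → (∀ j, |(z j).im| ≤ R) → ∀ r (t : ℝ),
      ‖adI W s z r (vl c t)‖ ≤ D * Real.exp (-((κ + 2 * (sg r * (Q - ∑ j, sg (s j)) : ℤ)) * |t|)) := by
  obtain ⟨D, hD, hb⟩ := H.b
  obtain ⟨C, hC, hP⟩ := PP_bound hω0 hω
  have hC0 : 0 ≤ C := zero_le_one.trans hC
  refine ⟨D * (C * Real.exp (2 * R)) ^ Fintype.card J, by positivity, fun z h1 h2 r t => ?_⟩
  have b1 := adI_pt hC hP s (z := z) (u := vl c t) (by simpa only [re_vl] using h1) h2 r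
  rw [im_vl] at b1
  have e0 : -((κ + 2 * (sg r * (Q - ∑ j, sg (s j)) : ℤ)) * |t|) =
      -((κ + 2 * (sg r * Q : ℤ)) * |t|) + 2 * ((sg r * ∑ j, sg (s j) : ℤ) * |t|) := by
    push_cast
    ring
  unfold adI
  rw [norm_mul, e0, Real.exp_add]
  calc ‖W r (vl c t)‖ * ‖∏ j, PP r (s j) (vl c t - z j)‖
      ≤ (D * Real.exp (-((κ + 2 * (sg r * Q : ℤ)) * |t|))) *
        ((C * Real.exp (2 * R)) ^ Fintype.card J *
          Real.exp (2 * ((sg r * ∑ j, sg (s j) : ℤ) * |t|))) :=
        mul_le_mul (hb r t) b1 (norm_nonneg _) (by positivity)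
    _ = _ := by ring

/-- regularity in the field of particles outside of the strip -/
theorem Reg.adO {pl : Bool → Finset ℂ} {κ a b ω : ℝ} {Q : ℤ} {g : Bool → ℂ → ℂ}
    (h : Reg pl κ a b Q g) {J : Type*} [Fintype J] (s : J → Bool) {z : J → ℂ} (hω0 : 0 ≤ ω)
    (hω : ω < l) (h1 : ∀ j, ∀ x : ℝ, a ≤ x → x ≤ b → |x - (z j).re| ≤ ω) :
    Reg pl κ a b (Q - ∑ j, sg (s j)) (NUP1S.adI g s z) := by
  obtain ⟨C, hC, hP⟩ := PP_bound hω0 hω
  have hC0 : 0 ≤ C := zero_le_one.trans hC
  obtain ⟨D, hD, hg⟩ := h.bd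
  set R := ∑ j, |(z j).im| with hR
  have h2 : ∀ j, |(z j).im| ≤ R := fun j =>
    Finset.single_le_sum (f := fun j => |(z j).im|) (fun _ _ => abs_nonneg _) (Finset.mem_univ j)
  refine ⟨fun r => ?_, fun r u a1 a2 => ?_, D * (C * Real.exp (2 * R)) ^ Fintype.card J,
    by positivity, fun r u a1 a2 => ?_⟩
  · unfold NUP1S.adI
    exact (h.meas r).mul (Finset.measurable_prod _ fun j _ =>
      (measurable_PP r (s j)).comp (measurable_id.sub_const (z j)))
  · unfold NUP1S.adI
    refine (h.diff r u a1 a2).mul (DifferentiableAt.fun_finsetProd fun j _ => ?_)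
    have := PP_diff r (s j) (z := u - z j) (by rw [sub_re]; exact (h1 j _ a1 a2).trans_lt hω)
    exact this.comp u (differentiableAt_id.sub_const (z j))
  · have b1 := adI_pt hC hP s (z := z) (u := u) (fun j => h1 j _ a1 a2) h2 r
    have b2 := hg r u a1 a2
    have e0 : -((κ + 2 * (sg r * (Q - ∑ j, sg (s j)) : ℤ) - 2 * (pl r).card) * |u.im|) =
        -((κ + 2 * (sg r * Q : ℤ) - 2 * (pl r).card) * |u.im|) +
          2 * ((sg r * ∑ j, sg (s j) : ℤ) * |u.im|) := by
      push_cast
      ring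
    unfold NUP1S.adI
    rw [norm_mul, e0, Real.exp_add]
    calc ‖g r u‖ * ‖∏ j, PP r (s j) (u - z j)‖
        ≤ (D * Real.exp (-((κ + 2 * (sg r * Q : ℤ) - 2 * (pl r).card) * |u.im|))) *
          ((C * Real.exp (2 * R)) ^ Fintype.card J *
            Real.exp (2 * ((sg r * ∑ j, sg (s j) : ℤ) * |u.im|))) :=
          mul_le_mul b2 b1 (norm_nonneg _) (by positivity)
      _ = _ := by ring

/-- uniform bound of the integrand of the quanta -/
theorem Fc_bd {W : Bool → ℂ → ℂ} {c κ R ω : ℝ} {Q : ℤ} (H : LB W c κ Q) {J : Type*} [Fintype J]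
    (s : J → Bool) (hω0 : 0 ≤ ω) (hω : ω < l) {n n' : ℕ} (hQ : Q = n - n' + ∑ j, sg (s j)) :
    ∃ D : ℝ, 0 ≤ D ∧ ∀ z : J → ℂ, (∀ j, |c - (z j).re| ≤ ω) → (∀ j, |(z j).im| ≤ R) →
      ∀ t : Fin n ⊕ Fin n' → ℝ, ‖Fc p00 (adI W s z) (qC c n n') t‖ ≤
        D * ∏ i, Real.exp (-(κ * |t i|)) := by
  obtain ⟨D, hD, hb⟩ := adI_bd (R := R) H s hω0 hω
  obtain ⟨C, hC⟩ := exists_PBd (w := 0) (δ := 1) le_rfl Bd.l_pos one_pos
  have hC0 : 0 ≤ C := zero_le_one.trans hC.1
  refine ⟨(∏ _i : Fin n ⊕ Fin n', ((2 * π)⁻¹ * D)) *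
    C ^ (Fintype.card (Fin n ⊕ Fin n') * Fintype.card (Fin n ⊕ Fin n')), by positivity,
    fun z h1 h2 t => ?_⟩
  have key := sg_bound hC (J := Fin n ⊕ Fin n') (fun i => (qC c n n' i).sp) (fun _ => 1)
    (fun _ => Or.inl rfl) (fun i => vl c (t i)) (fun i j => by
      rw [sub_re, re_vl, re_vl, sub_self, abs_zero]) (fun i j h => absurd rfl h)
    (fun i => hh p00 (adI W s z) (qC c n n' i) (t i)) (fun _ => (2 * π)⁻¹ * D) (fun _ => κ)
    (fun _ => by positivity) (T := (n : ℝ) - n') (by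
      rw [Fintype.sum_sum_type]
      simp [qC_sp, sg]
      ring) (fun i => by
      have e1 : ‖hh p00 (adI W s z) (qC c n n' i) (t i)‖ =
          (2 * π)⁻¹ * ‖adI W s z (qC c n n' i).sp (vl c (t i))‖ := by
        unfold hh
        rw [norm_mul, qC_pos, Wt_p00]
        congr 1
        have : (qC c n n' i).om (t i) = (2 * π : ℂ)⁻¹ := by
          rcases i with i | i <;> rfl
        rw [this, norm_inv, norm_mul, Complex.norm_real, Complex.norm_two,
          Real.norm_of_nonneg Real.pi_pos.le]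
      rw [e1, im_vl]
      refine (mul_le_mul_of_nonneg_left (hb z h1 h2 _ (t i)) (by positivity)).trans (le_of_eq ?_)
      rw [← mul_assoc, hQ]
      congr 3
      push_cast
      ring)
  have e2 : gpw (fun i => (qC c n n' i).sp) (fun _ => (1 : ℤ)) (fun i => vl c (t i)) =
      PU fun i j => pwc (qC c n n' i) (qC c n n' j) (t i) (t j) := by
    unfold gpw
    refine PU_congr' fun i j => ?_
    unfold pwc
    simp only [qC_pos, mul_one, zpow_one]
  rw [e2] at key
  refine key.trans (le_of_eq ?_)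
  simp only [im_vl]

theorem measurable_vlc (c : ℝ) : Measurable fun t : ℝ => vl c t := by
  unfold vl
  fun_prop

/-- measurable in the quanta and in the particles -/
theorem meas_FcI {W : Bool → ℂ → ℂ} {c κ : ℝ} {Q : ℤ} (H : LB W c κ Q) {J : Type*} [Fintype J]
    (s : J → Bool) {X : Type*} [MeasurableSpace X] {z : X → J → ℂ}
    (hz : ∀ j, Measurable fun p => z p j) {n n' : ℕ} :
    Measurable fun pt : X × (Fin n ⊕ Fin n' → ℝ) =>
      Fc p00 (adI W s (z pt.1)) (qC c n n') pt.2 := by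
  unfold Fc
  have mv : ∀ i : Fin n ⊕ Fin n', Measurable fun pt : X × (Fin n ⊕ Fin n' → ℝ) => vl c (pt.2 i) :=
    fun i => (measurable_vlc c).comp ((measurable_pi_apply i).comp measurable_snd)
  refine (Finset.measurable_prod _ fun i _ => ?_).mul ?_
  · unfold hh
    simp only [qC_pos, Wt_p00]
    refine Measurable.mul ?_ ?_
    · rcases i with i | i <;> exact measurable_const
    · unfold adI
      refine Measurable.mul ?_ (Finset.measurable_prod _ fun j _ => ?_)
      · exact (H.m _).comp ((measurable_pi_apply i).comp measurable_snd)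
      · exact (measurable_PP _ _).comp ((mv i).sub ((hz j).comp measurable_fst))
  · refine measurable_PU (fun i j (pt : X × (Fin n ⊕ Fin n' → ℝ)) =>
      pwc (qC c n n' i) (qC c n n' j) (pt.2 i) (pt.2 j)) fun i j => ?_
    unfold pwc
    simp only [qC_pos]
    exact (measurable_PP _ _).comp ((mv i).sub (mv j))

/-- **particles and quanta, integrable** -/
theorem int_PQ {W : Bool → ℂ → ℂ} {c κ R ω : ℝ} {Q : ℤ} (hκ : 0 < κ) (H : LB W c κ Q)
    {J : Type*} [Fintype J] (s : J → Bool) (hω0 : 0 ≤ ω) (hω : ω < l) {n n' : ℕ}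
    (hQ : Q = n - n' + ∑ j, sg (s j)) {X : Type*} [MeasurableSpace X] {ν : Measure X}
    [SigmaFinite ν] {w : X → ℂ} (hw : Integrable w ν) {z : X → J → ℂ}
    (hz : ∀ j, Measurable fun p => z p j) (h1 : ∀ p j, |c - (z p j).re| ≤ ω)
    (h2 : ∀ p j, |(z p j).im| ≤ R) :
    Integrable (fun pt : X × (Fin n ⊕ Fin n' → ℝ) =>
      w pt.1 * Fc p00 (adI W s (z pt.1)) (qC c n n') pt.2) (ν.prod (Measure.pi fun _ => volume)) := by
  obtain ⟨D, hD, hb⟩ := Fc_bd (R := R) (n := n) (n' := n') H s hω0 hω hQ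
  have i1 : Integrable (fun pt : X × (Fin n ⊕ Fin n' → ℝ) =>
      w pt.1 * (((∏ i, Real.exp (-(κ * |pt.2 i|)) : ℝ)) : ℂ)) (ν.prod (Measure.pi fun _ => volume)) := by
    refine hw.mul_prod (g := fun t : Fin n ⊕ Fin n' → ℝ =>
      ((∏ i, Real.exp (-(κ * |t i|)) : ℝ) : ℂ)) ?_
    exact (Integrable.fintype_prod (f := fun _ (x : ℝ) => Real.exp (-(κ * |x|)))
        fun _ => exp_int hκ).ofReal
  refine (i1.norm.const_mul D).mono' ?_ (Eventually.of_forall fun pt => ?_)
  · exact (hw.aestronglyMeasurable.comp_fst).mul (meas_FcI H s hz).aestronglyMeasurable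
  · have hp : 0 ≤ ∏ i, Real.exp (-(κ * |pt.2 i|)) :=
      Finset.prod_nonneg fun i _ => (Real.exp_pos _).le
    rw [norm_mul, norm_mul, Complex.norm_real, Real.norm_of_nonneg hp]
    calc ‖w pt.1‖ * ‖Fc p00 (adI W s (z pt.1)) (qC c n n') pt.2‖
        ≤ ‖w pt.1‖ * (D * ∏ i, Real.exp (-(κ * |pt.2 i|))) :=
          mul_le_mul_of_nonneg_left (hb _ (h1 pt.1) (h2 pt.1) pt.2) (norm_nonneg _)
      _ = _ := by ring


/-! ### the particles on the rectangles -/

variable {x y R : ℝ}

/-- positions of the particles -/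
def zR (x y R : ℝ) {k k' : ℕ} (p : (Fin k → ℝ) × (Fin k' → ℝ)) : Fin k ⊕ Fin k' → ℂ :=
  Sum.elim (fun a => rP x y R (p.1 a)) (fun a => rP x y R (p.2 a))

/-- the weight of the particles -/
def wR (x y R : ℝ) {ιb ιb' : Type*} [Fintype ιb] [Fintype ιb'] (b : ιb → ℂ) (b' : ιb' → ℂ)
    (F F' : ℂ → ℂ) {k k' : ℕ} (p : (Fin k → ℝ) × (Fin k' → ℝ)) : ℂ :=
  I2 (rP x y R) (fun t => -rO x y R t) (rP x y R) (fun t => -rO x y R t) F F' q qg (db b) (db b') p

/-- the measure of the particles -/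
abbrev nuR (k k' : ℕ) : Measure ((Fin k → ℝ) × (Fin k' → ℝ)) :=
  (Measure.pi fun _ : Fin k => rM).prod (Measure.pi fun _ : Fin k' => rM)

instance : IsFiniteMeasure rM := ⟨by unfold rM; simp⟩

section
variable {ιb ιb' : Type*} [Fintype ιb] [Fintype ιb'] {b : ιb → ℂ} {b' : ιb' → ℂ}
  {F F' : ℂ → ℂ} {W : Bool → ℂ → ℂ} {c κ : ℝ} {n n' k k' : ℕ}

theorem Jr_Fc (t : Fin n ⊕ Fin n' → ℝ) : Fc p00 W (qC c n n') t * ((-1) ^ (k + k') *
    Jr x y R c b b' F F' k k' t) = ((-1) ^ (k + k') / (k.factorial * k'.factorial)) *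
      ∫ p, wR x y R b b' F F' p * Fc p00 (adI W (hS k k') (zR x y R p)) (qC c n n') t
        ∂(nuR k k') := by
  have e : ∀ p : (Fin k → ℝ) × (Fin k' → ℝ),
      oP (rP x y R) (fun t => -rO x y R t) (fun z => F z * Wq c t true z) q (db b) p.1 *
        oP (rP x y R) (fun t => -rO x y R t) (fun z => F' z * Wq c t false z) q (db b') p.2 *
        xP (rP x y R) (rP x y R) qg p.1 p.2 =
      wR x y R b b' F F' p * ∏ a, ∏ i, PP (qC c n n' i).sp (hS k k' a)
        ((qC c n n' i).pos (t i) - zR x y R p a) := by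
    intro p
    rw [Pool.Agent.PHD.oP_mul, Pool.Agent.PHD.oP_mul]
    unfold wR I2
    have e2 : ∏ a, ∏ i, PP (qC c n n' i).sp (hS k k' a)
        ((qC c n n' i).pos (t i) - zR x y R p a) = (∏ a, Wq c t true (rP x y R (p.1 a))) *
          ∏ a, Wq c t false (rP x y R (p.2 a)) := by
      rw [Fintype.prod_sum_type]
      unfold Wq
      congr 1
      · refine Finset.prod_congr rfl fun a _ => Finset.prod_congr rfl fun i _ => ?_
        rw [PP_comm, ← PP_neg, neg_sub, qC_pos]
        rfl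
      · refine Finset.prod_congr rfl fun a _ => Finset.prod_congr rfl fun i _ => ?_
        rw [PP_comm, ← PP_neg, neg_sub, qC_pos]
        rfl
    rw [e2]
    ring
  have e3 : ∀ p : (Fin k → ℝ) × (Fin k' → ℝ),
      wR x y R b b' F F' p * Fc p00 (adI W (hS k k') (zR x y R p)) (qC c n n') t =
      Fc p00 W (qC c n n') t * (wR x y R b b' F F' p * ∏ a, ∏ i, PP (qC c n n' i).sp (hS k k' a)
        ((qC c n n' i).pos (t i) - zR x y R p a)) := by
    intro p
    rw [Fc_adI]
    ring
  unfold Jr JJ2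
  simp only [e, e3]
  rw [integral_const_mul]
  ring

/-- **the particles outside** -/
theorem GPk_fub {Q : ℤ} (hκ : 0 < κ) (H : LB W c κ Q) {ω : ℝ} (hω0 : 0 ≤ ω) (hω : ω < l)
    (hQ : Q = n - n' + ∑ j, sg (hS k k' j)) (hw : Integrable (wR x y R b b' F F') (nuR k k'))
    (hxy : x ≤ y) (hR : 0 ≤ R) (h1 : ∀ v : ℝ, x ≤ v → v ≤ y → |c - v| ≤ ω) :
    Integrable (fun p => wR x y R b b' F F' p *
      gas n n' c (adI W (hS k k') (zR x y R p) true) (adI W (hS k k') (zR x y R p) false))
        (nuR k k') ∧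
    GPk x y R c b b' W F F' n n' k k' = ((-1) ^ (k + k') / (k.factorial * k'.factorial)) *
      ∫ p, wR x y R b b' F F' p *
        gas n n' c (adI W (hS k k') (zR x y R p) true) (adI W (hS k k') (zR x y R p) false)
          ∂(nuR k k') := by
  have mem : ∀ (p : (Fin k → ℝ) × (Fin k' → ℝ)) j, zR x y R p j ∈ rS x y R := by
    intro p j
    rcases j with j | j
    · exact rP_mem hxy hR _
    · exact rP_mem hxy hR _
  have mz : ∀ j, Measurable fun p : (Fin k → ℝ) × (Fin k' → ℝ) => zR x y R p j := by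
    intro j
    rcases j with j | j
    · exact measurable_rP.comp ((measurable_pi_apply j).comp measurable_fst)
    · exact measurable_rP.comp ((measurable_pi_apply j).comp measurable_snd)
  have i0 := int_PQ (n := n) (n' := n') (R := R) hκ H (hS k k') hω0 hω hQ hw mz
    (fun p j => h1 _ (mem p j).1 (mem p j).2.1) (fun p j => (mem p j).2.2.1)
  have eg : ∀ p : (Fin k → ℝ) × (Fin k' → ℝ), wR x y R b b' F F' p *
      gas n n' c (adI W (hS k k') (zR x y R p) true) (adI W (hS k k') (zR x y R p) false) =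
      (((n.factorial : ℕ) : ℂ)⁻¹ * ((n'.factorial : ℕ) : ℂ)⁻¹) *
        ∫ t : Fin n ⊕ Fin n' → ℝ, wR x y R b b' F F' p *
          Fc p00 (adI W (hS k k') (zR x y R p)) (qC c n n') t ∂(Measure.pi fun _ => volume) := by
    intro p
    rw [gas_Fc (pl := p00) n n' (g := adI W (hS k k') (zR x y R p))
      (fun u _ => (Wt_p00 _ _ _).symm) (fun u _ => (Wt_p00 _ _ _).symm), integral_const_mul]
    ring
  constructor
  · simp only [eg]
    exact i0.integral_prod_left.const_mul _
  · simp only [eg]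
    unfold GPk
    simp only [Jr_Fc]
    rw [integral_const_mul, integral_const_mul, integral_integral_swap (f := fun
      (t : Fin n ⊕ Fin n' → ℝ) (p : (Fin k → ℝ) × (Fin k' → ℝ)) => wR x y R b b' F F' p *
        Fc p00 (adI W (hS k k') (zR x y R p)) (qC c n n') t) i0.swap]
    ring


theorem sum_hS (k k' : ℕ) : ∑ j, sg (hS k k' j) = (k : ℤ) - k' := by
  rw [Fintype.sum_sum_type]
  simp [hS, sg]
  ring

/-- decay on a line of the strip -/
theorem LB.of {pl : Bool → Finset ℂ} {y1 yl : ℝ} {Q : ℤ} {g : Bool → ℂ → ℂ} (G : Geo pl κ y1 yl)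
    (hg : Reg pl κ y1 yl Q g) (ok : ∀ s, OkC pl κ y1 yl (lineC s c))
    (hW : ∀ s, ∀ u : ℂ, u.re = c → W s u = Wt pl g s u) : LB W c κ Q where
  m s := by
    have h1 : (fun t : ℝ => W s (vl c t)) = fun t => Wt pl g s (vl c t) := by
      funext t
      exact hW s _ (re_vl _ _)
    rw [h1]
    unfold Wt
    refine Measurable.div ((hg.meas s).comp (measurable_vlc c)) ?_
    refine Finset.measurable_prod _ fun p _ => ?_
    exact (Complex.measurable_sin.comp ((measurable_vlc c).sub_const p)).pow_const 2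
  b := by
    obtain ⟨D1, d1, h1⟩ := Wt_bound G hg (ok true)
    obtain ⟨D2, d2, h2⟩ := Wt_bound G hg (ok false)
    refine ⟨max D1 D2, d1.trans (le_max_left _ _), fun s t => ?_⟩
    rw [hW s _ (re_vl _ _)]
    cases s
    · have := h2 t
      have e : (lineC false c).pos t = vl c t := rfl
      rw [e, im_vl] at this
      exact this.trans (mul_le_mul_of_nonneg_right (le_max_right _ _) (Real.exp_pos _).le)
    · have := h1 t
      have e : (lineC true c).pos t = vl c t := rfl
      rw [e, im_vl] at this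
      exact this.trans (mul_le_mul_of_nonneg_right (le_max_left _ _) (Real.exp_pos _).le)

/-- the weight of the particles with one more factor -/
theorem wR_mul (P P' : ℂ → ℂ) (p : (Fin k → ℝ) × (Fin k' → ℝ)) :
    wR x y R b b' (fun z => F z * P z) (fun z => F' z * P' z) p = wR x y R b b' F F' p *
      ((∏ a, P (rP x y R (p.1 a))) * ∏ a, P' (rP x y R (p.2 a))) := by
  unfold wR I2
  rw [Pool.Agent.PHD.oP_mul, Pool.Agent.PHD.oP_mul]
  ring

/-- the factors at the pole -/
theorem prod_pole (s0 : Bool) (w : ℂ) (p : (Fin k → ℝ) × (Fin k' → ℝ)) :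
    ∏ j, PP s0 (hS k k' j) (w - zR x y R p j) =
      (∏ a, PP true s0 (rP x y R (p.1 a) - w)) * ∏ a, PP false s0 (rP x y R (p.2 a) - w) := by
  rw [Fintype.prod_sum_type]
  congr 1
  · refine Finset.prod_congr rfl fun a _ => ?_
    rw [PP_comm, ← PP_neg, neg_sub]
    rfl
  · refine Finset.prod_congr rfl fun a _ => ?_
    rw [PP_comm, ← PP_neg, neg_sub]
    rfl

/-- **the line of the quanta moves over one simple pole** -/
theorem GPk_pole {a₁ b₁ y1 yl : ℝ} {Q : ℤ} (h1 : a₁ < x) (h2 : x < y) (h3 : y < b₁)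
    (h4 : b₁ ≤ a₁ + l) (h5 : y < y1) (h6 : yl < a₁ + l) (hR : 0 < R)
    (hb : ∀ i, b i ∈ rI x y R) (hb' : ∀ i, b' i ∈ rI x y R)
    (hF : ContinuousOn F (OS a₁ b₁)) (hF' : ContinuousOn F' (OS a₁ b₁)) (hκ : 0 < κ)
    {w : ℂ} (hw1 : y1 < w.re) (hw2 : w.re < yl) (s0 : Bool)
    (hQ : Q = (n + k : ℕ) * sg true + (n' + k' : ℕ) * sg false) {g : Bool → ℂ → ℂ}
    (hg : Reg (pW s0 w) κ y1 yl Q g) (h0 : g s0 w = 0)
    (hW : ∀ s, ∀ u : ℂ, (u.re = y1 ∨ u.re = yl) → W s u = Wt (pW s0 w) g s u) :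
    GPk x y R y1 b b' W F F' n n' k k' = GPk x y R yl b b' W F F' n n' k k' +
      if nW true s0 ≤ n ∧ nW false s0 ≤ n' then -deriv (g s0) w *
        GPk x y R yl b b' (ad W s0 w) (fun z => F z * PP true s0 (z - w))
          (fun z => F' z * PP false s0 (z - w)) (n - nW true s0) (n' - nW false s0) k k' else 0 := by
  have hl := Bd.l_pos
  have hpi := Bd.pi_eq
  have G : Geo (pW s0 w) κ y1 yl := ⟨hκ, by linarith, by linarith, fun s p hp => by
    unfold pW at hp
    split_ifs at hp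
    · rw [Finset.mem_singleton] at hp
      rw [hp]
      exact ⟨hw1.le, hw2.le⟩
    · exact absurd hp (Finset.notMem_empty _)⟩
  have ok1 : ∀ s, OkC (pW s0 w) κ y1 yl (lineC s y1) := fun s =>
    okC_line hκ le_rfl (by linarith) fun p hp => by
      unfold pW at hp
      split_ifs at hp
      · rw [Finset.mem_singleton] at hp
        rw [hp]
        exact hw1.ne'
      · exact absurd hp (Finset.notMem_empty _)
  have ok2 : ∀ s, OkC (pW s0 w) κ y1 yl (lineC s yl) := fun s =>
    okC_line hκ (by linarith) le_rfl fun p hp => by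
      unfold pW at hp
      split_ifs at hp
      · rw [Finset.mem_singleton] at hp
        rw [hp]
        exact hw2.ne
      · exact absurd hp (Finset.notMem_empty _)
  have L1 : LB W y1 κ Q := LB.of G hg ok1 fun s u hu => hW s u (Or.inl hu)
  have L2 : LB W yl κ Q := LB.of G hg ok2 fun s u hu => hW s u (Or.inr hu)
  have hg' := hg.ad G s0 (z0 := w) hw1.le hw2.le
  have L3 : LB (ad W s0 w) yl κ (Q - sg s0) := LB.of G hg' ok2 fun s u hu => by
    unfold Wt ad
    rw [hW s u (Or.inr hu)]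
    unfold Wt
    ring
  -- the strip
  set ω : ℝ := yl - x with hω
  have hω0 : 0 ≤ ω := by rw [hω]; linarith
  have hωl : ω < l := by rw [hω]; linarith
  have d1 : ∀ v : ℝ, x ≤ v → v ≤ y → |y1 - v| ≤ ω := fun v a1 a2 => by
    rw [abs_le, hω]
    constructor <;> linarith
  have d2 : ∀ v : ℝ, x ≤ v → v ≤ y → |yl - v| ≤ ω := fun v a1 a2 => by
    rw [abs_le, hω]
    constructor <;> linarith
  -- the weights
  have hUr : Pool.Agent.PHK.rK x y R ⊆ OS a₁ b₁ := fun z hz => ⟨h1.trans_le hz.1, hz.2.1.trans_lt h3⟩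
  have dif : ∀ z ∈ OS a₁ b₁, ∀ w ∈ OS a₁ b₁, z - w ∈ Vl :=
    Pool.Agent.PHD.sub_Vl (by linarith) (by linarith)
  have hwR : ∀ {F F' : ℂ → ℂ}, ContinuousOn F (OS a₁ b₁) → ContinuousOn F' (OS a₁ b₁) →
      Integrable (wR x y R b b' F F') (nuR k k') := fun hF hF' =>
    Pool.Agent.PHD.int_rr h2 (by linarith) hR (isOpen_OS _ _) hUr dif h2 (by linarith) hR
      (isOpen_OS _ _) hUr dif dif hF hF' (Pool.Agent.PHD.db_mem hb) (Pool.Agent.PHD.db_mem hb') k k'
  have cP : ∀ s, ContinuousOn (fun z => PP s s0 (z - w)) (OS a₁ b₁) := fun s z hz => by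
    have hz1 := hz.1
    have hz2 := hz.2
    have : DifferentiableAt ℂ (fun z => PP s s0 (z - w)) z :=
      (PP_diff s s0 (z := z - w) (by
        rw [sub_re, abs_lt]
        constructor <;> linarith)).comp z (differentiableAt_id.sub_const w)
    exact this.continuousAt.continuousWithinAt
  have hQ1 : Q = n - n' + ∑ j, sg (hS k k' j) := by
    rw [hQ, sum_hS]
    simp only [sg]
    push_cast
    simp
    ring
  obtain ⟨-, f1⟩ := GPk_fub (b := b) (b' := b') hκ L1 hω0 hωl hQ1 (hwR hF hF') h2.le hR.le d1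
  obtain ⟨i2, f2⟩ := GPk_fub (b := b) (b' := b') hκ L2 hω0 hωl hQ1 (hwR hF hF') h2.le hR.le d2
  -- one configuration
  have mem : ∀ (p : (Fin k → ℝ) × (Fin k' → ℝ)) j, zR x y R p j ∈ rS x y R := by
    intro p j
    rcases j with j | j
    · exact rP_mem h2.le hR.le _
    · exact rP_mem h2.le hR.le _
  have one : ∀ p : (Fin k → ℝ) × (Fin k' → ℝ),
      gas n n' y1 (adI W (hS k k') (zR x y R p) true) (adI W (hS k k') (zR x y R p) false) =
      gas n n' yl (adI W (hS k k') (zR x y R p) true) (adI W (hS k k') (zR x y R p) false) +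
      if nW true s0 ≤ n ∧ nW false s0 ≤ n' then
        -(deriv (g s0) w * ∏ j, PP s0 (hS k k' j) (w - zR x y R p j)) *
        gas (n - nW true s0) (n' - nW false s0) yl (adI (ad W s0 w) (hS k k') (zR x y R p) true)
          (adI (ad W s0 w) (hS k k') (zR x y R p) false) else 0 := by
    intro p
    have r1 := hg.adO (hS k k') (z := zR x y R p) hω0 hωl fun j v a1 a2 => by
      have := mem p j
      rw [abs_le, hω]
      constructor <;> linarith [this.1, this.2.1]
    have e1 : Q - ∑ j, sg (hS k k' j) = n * sg true + n' * sg false := by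
      rw [hQ1]
      simp [sg]
      ring
    rw [e1] at r1
    have z0 : NUP1S.adI g (hS k k') (zR x y R p) s0 w = 0 := by
      unfold NUP1S.adI
      rw [h0, zero_mul]
    have key := gas_pole (by linarith) hκ hw1 hw2 s0 n n' r1 z0 (W := adI W (hS k k') (zR x y R p))
      fun s u hu => by
        rw [Wt_adI]
        unfold adI
        rw [hW s u hu]
    have e2 : deriv (NUP1S.adI g (hS k k') (zR x y R p) s0) w =
        deriv (g s0) w * ∏ j, PP s0 (hS k k' j) (w - zR x y R p j) := by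
      have hd : DifferentiableAt ℂ (fun u => ∏ j, PP s0 (hS k k' j) (u - zR x y R p j)) w := by
        refine DifferentiableAt.fun_finsetProd fun j _ => ?_
        have := mem p j
        have h7 := PP_diff s0 (hS k k' j) (z := w - zR x y R p j) (by
          rw [sub_re, abs_lt]
          constructor <;> linarith [this.1, this.2.1])
        exact h7.comp w (differentiableAt_id.sub_const _)
      have := ((hg.diff s0 w hw1.le hw2.le).hasDerivAt.mul hd.hasDerivAt).deriv
      rw [h0, zero_mul, add_zero] at this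
      exact this
    rw [key, e2]
    congr 1
    split_ifs
    · congr 1
      have e3 : ∀ s, (fun u => adI W (hS k k') (zR x y R p) s u * PP s s0 (u - w)) =
          adI (ad W s0 w) (hS k k') (zR x y R p) s := by
        intro s
        funext u
        unfold adI ad
        ring
      rw [e3, e3]
    · rfl
  rw [f1, f2]
  by_cases hc : nW true s0 ≤ n ∧ nW false s0 ≤ n'
  · simp only [one, if_pos hc]
    have hQ3 : Q - sg s0 = ((n - nW true s0 : ℕ) : ℤ) - ((n' - nW false s0 : ℕ) : ℤ) +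
        ∑ j, sg (hS k k' j) := by
      obtain ⟨c1, c2⟩ := hc
      rw [hQ1]
      push_cast [c1, c2]
      cases s0 <;> simp [nW, sg] <;> ring
    obtain ⟨i3, f3⟩ := GPk_fub (b := b) (b' := b') (F := fun z => F z * PP true s0 (z - w))
      (F' := fun z => F' z * PP false s0 (z - w)) hκ L3 hω0 hωl hQ3
      (hwR (hF.mul (cP true)) (hF'.mul (cP false))) h2.le hR.le d2
    rw [f3, ← mul_assoc, mul_comm (-deriv (g s0) w), mul_assoc, ← mul_add]
    congr 1
    rw [← integral_const_mul, ← integral_add i2 (i3.const_mul _)]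
    refine integral_congr_ae (Eventually.of_forall fun p => ?_)
    simp only []
    rw [wR_mul, ← prod_pole]
    ring
  · simp only [one, if_neg hc, add_zero]

end

end NUP1S

end
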