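import Pool.Agent.PHK.HoleT3

/-!
# The line of the quanta moves over one simple pole of each species at once

The poles `w true`, `w false` (one of each species, same real part allowed; no pole: `g s` has a
double zero there).  `α = (α.1, α.2)`: `w true` filled, `w false` filled.

* `gas_pole2`: one gas;
* **`GPk_pole2`**: the quanta of `GPk`.
-/

set_option autoImplicit false
set_option linter.unusedSectionVars false

noncomputable section

open Complex MeasureTheory NUP1 Set Filter Topology
open scoped Real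
open Pool.Agent.PHD (one QP JJ oP xP JJ2 db I2 Vl)
open Pool.Agent.PHK (rM rI)
open NUP1.Bd (qg)

namespace NUP1S

/-- number of the quanta at a pole -/
def uB (b : Bool) : ℕ := if b then 1 else 0

/-- weight of the quanta at the poles -/
def cB (w : Bool → ℂ) (g : Bool → ℂ → ℂ) (α : Bool × Bool) : ℂ :=
  (if α.1 then -deriv (g true) (w true) else 1) *
    (if α.2 then -deriv (g false) (w false) else 1) *
    (if α.1 ∧ α.2 then qg (w true - w false) else 1)

/-- the field of the quanta at the poles -/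
def fB (w : Bool → ℂ) (α : Bool × Bool) (s : Bool) (u : ℂ) : ℂ :=
  (if α.1 then PP s true (u - w true) else 1) * (if α.2 then PP s false (u - w false) else 1)

/-- one body functions with the quanta at the poles -/
def WB (w : Bool → ℂ) (α : Bool × Bool) (W : Bool → ℂ → ℂ) : Bool → ℂ → ℂ :=
  fun s u => W s u * fB w α s u

/-- the data of the poles -/
def E2 (w : Bool → ℂ) (r : ℝ) : SD Bool := ⟨fun s => s, w, fun _ => r⟩

/-- the poles -/
def pW2 (w : Bool → ℂ) : Bool → Finset ℂ := fun s => {w s}

theorem pl_E2 (w : Bool → ℂ) (r : ℝ) : (D0.sum (E2 w r)).pl (acS Bool act0) = pW2 w := by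
  funext s
  ext p
  rw [SD.mem_pl]
  unfold pW2
  rw [Finset.mem_singleton]
  constructor
  · rintro ⟨i | i, h1, h2, h3⟩
    · exact i.elim
    · have h4 : i = s := h2
      have h5 : w i = p := h3
      rw [← h5, h4]
  · intro h
    exact ⟨.inr s, trivial, rfl, h.symm⟩

theorem rs_pW2 (w : Bool → ℂ) (g : Bool → ℂ → ℂ) (s : Bool) :
    rs (pW2 w) g s (w s) = deriv (g s) (w s) := by
  unfold rs pW2
  simp

/-- occupation numbers -/
def eB (α : Bool × Bool) : Bool → Fin 3 := fun s => if (if s then α.1 else α.2) then 1 else 0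

theorem eB_inj : Function.Injective eB := by
  intro α β h
  have h1 := congrFun h true
  have h2 := congrFun h false
  obtain ⟨a1, a2⟩ := α
  obtain ⟨b1, b2⟩ := β
  simp only [eB] at h1 h2
  cases a1 <;> cases a2 <;> cases b1 <;> cases b2 <;> simp_all

theorem eB_range {υ : Bool → Fin 3} (h : υ ∉ Set.range eB) : ¬ ∀ j, υ j ≠ 2 := by
  intro h2
  refine h ⟨(υ true = 1, υ false = 1), ?_⟩
  funext s
  have h3 := h2 s
  rcases fin3_cases (υ s) with h4 | h4 | h4
  · cases s <;> simp [eB, h4]
  · cases s <;> simp [eB, h4]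
  · exact absurd h4 h3

theorem PU_bool {f : Bool → Bool → ℂ} (hf : ∀ a b, f a b = f b a) : PU f = f true false := by
  rw [← PU_equiv finTwoEquiv hf, PU_fin fun a b => hf _ _]
  unfold Grand.P
  simp [finTwoEquiv, hf false true]

/-- **one gas, the line moves over one simple pole of each species** -/
theorem gas_pole2 {x y κ : ℝ} (hwd : y - x < l) (hκ : 0 < κ) {w : Bool → ℂ}
    (h1 : ∀ s, x < (w s).re) (h2 : ∀ s, (w s).re < y) (n n' : ℕ) {g : Bool → ℂ → ℂ}
    (hg : Reg (pW2 w) κ x y (n * sg true + n' * sg false) g) (h0 : ∀ s, g s (w s) = 0)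
    {W : Bool → ℂ → ℂ} (hW : ∀ s, ∀ u : ℂ, (u.re = x ∨ u.re = y) → W s u = Wt (pW2 w) g s u) :
    gas n n' x (W true) (W false) = ∑ α : Bool × Bool, if uB α.1 ≤ n ∧ uB α.2 ≤ n' then
      cB w g α * gas (n - uB α.1) (n' - uB α.2) y (WB w α W true) (WB w α W false) else 0 := by
  have hxy : x < y := (h1 true).trans (h2 true)
  obtain ⟨r, hr0, hr1, hr2⟩ : ∃ r : ℝ, 0 < r ∧ (∀ s, r < (w s).re - x) ∧ ∀ s, r < y - (w s).re := by
    have m1 : 0 < min (min ((w true).re - x) ((w false).re - x))
        (min (y - (w true).re) (y - (w false).re)) := by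
      refine lt_min (lt_min ?_ ?_) (lt_min ?_ ?_) <;> linarith [h1 true, h1 false, h2 true, h2 false]
    refine ⟨_, half_pos m1, fun s => ?_, fun s => ?_⟩
    · refine (half_lt_self m1).trans_le ((min_le_left _ _).trans ?_)
      cases s
      · exact min_le_right _ _
      · exact min_le_left _ _
    · refine (half_lt_self m1).trans_le ((min_le_right _ _).trans ?_)
      cases s
      · exact min_le_right _ _
      · exact min_le_left _ _
  have Ge : (D0.sum (E2 w r)).Geom (acS Bool act0) x y :=
    { xy := hxy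
      wd := hwd
      r0 := by
        rintro (i | i) _
        · exact i.elim
        · exact hr0
      lo := by
        rintro (i | i) _
        · exact i.elim
        · show x < (w i).re - r
          linarith [hr1 i]
      hi := by
        rintro (i | i) _
        · exact i.elim
        · show (w i).re + r < y
          linarith [hr2 i]
      sep := by
        rintro (i | i) (j | j) _ _ hij hs
        · exact i.elim
        · exact i.elim
        · exact j.elim
        · exact absurd (congrArg Sum.inr (show i = j from hs)) hij }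
  have G := Ge.geo hκ
  have ln := Ge.line hκ
  have key := SD.expandS Ge hκ n n' (g := g) (by rw [pl_E2]; exact hg) h0
  rw [pl_E2] at key G ln
  have e1 := gas_eq_ZZ G x (fun s => (ln s).1) n n' hg (fun u hu => hW true u (Or.inl hu))
    (fun u hu => hW false u (Or.inl hu))
  rw [e1, key]
  symm
  refine Fintype.sum_of_injective eB eB_inj _ _ (fun υ hυ => ?_) fun α => ?_
  · refine Finset.sum_eq_zero fun τ _ => if_neg fun h => eB_range hυ h.1
  simp only [Fintype.sum_unique]
  have n0 : ∀ s, ∀ τ : Empty → Fin 3, D0.nn s τ = 0 := fun s τ => rfl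
  have n2 : ∀ s (υ : Bool → Fin 3), (E2 w r).nn s υ = υ s := fun s υ => by
    unfold SD.nn E2
    rw [Finset.sum_filter]
    simp
  have n3 : ((eB α true : Fin 3) : ℕ) = uB α.1 := by
    unfold eB uB
    cases α.1 <;> simp
  have n4 : ((eB α false : Fin 3) : ℕ) = uB α.2 := by
    unfold eB uB
    cases α.2 <;> simp
  have hS : ∀ τ : Empty → Fin 3, ∀ g' : Bool → ℂ → ℂ, ∀ θ : Empty → ℝ,
      D0.SW τ (pW2 w) g' θ = 1 := by
    intro τ g' θ
    unfold SD.SW PU PR
    simp
  have hA : ∀ τ : Empty → Fin 3, ∀ g' : Bool → ℂ → ℂ, ∀ θ : Empty → ℝ, D0.aS τ g' θ = g' := by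
    intro τ g' θ
    funext s u
    unfold SD.aS
    simp
  have hI : ∀ c : ℂ, ∫ _θ : Empty → ℝ, c ∂(Measure.pi fun _ => mu1) = c := by
    intro c
    rw [integral_const]
    simp
  simp only [n0, n2, n3, n4, hS, hA, one_mul, zero_add, hI]
  have c2 : ∀ j, eB α j ≠ 2 := by
    intro j
    unfold eB
    split_ifs <;> decide
  by_cases hc : uB α.1 ≤ n ∧ uB α.2 ≤ n'
  · rw [if_pos hc, if_pos ⟨c2, fun i => i.elim, hc⟩]
    have o1 : (∏ j, (E2 w r).om0 (eB α) (pW2 w) g j) * PU (fun i j => (E2 w r).pr0 (eB α) i j) =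
        cB w g α := by
      rw [PU_bool fun i j => SD.pr0_symm i j, Fintype.prod_bool]
      unfold SD.om0 SD.pr0 cB
      have e3 : (E2 w r).sp = fun s => s := rfl
      have e4 : (E2 w r).p = w := rfl
      simp only [e3, e4, rs_pW2, n3, n4]
      have e5 : ∀ z, PP true false z = qg z := fun z => by simp [PP]
      rw [e5]
      obtain ⟨a1, a2⟩ := α
      cases a1 <;> cases a2 <;> simp [eB, uB]
    have e2 : (E2 w r).aU (eB α) g = WB w α g := by
      funext s u
      unfold SD.aU WB fB
      rw [Fintype.prod_bool]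
      have e3 : (E2 w r).sp = fun s => s := rfl
      have e4 : (E2 w r).p = w := rfl
      simp only [e3, e4, n3, n4]
      obtain ⟨a1, a2⟩ := α
      cases a1 <;> cases a2 <;> simp [uB]
    rw [o1, e2]
    congr 1
    have h3 := hg.aU G (E := E2 w r) (υ := eB α) (fun j => ⟨(h1 j).le, (h2 j).le⟩)
    rw [e2, n2, n2, n3, n4] at h3
    have hn : (n : ℤ) * sg true + n' * sg false - (uB α.1 * sg true + uB α.2 * sg false) =
        ((n - uB α.1 : ℕ) : ℤ) * sg true + ((n' - uB α.2 : ℕ) : ℤ) * sg false := by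
      obtain ⟨c1, c2⟩ := hc
      push_cast [c1, c2]
      ring
    rw [hn] at h3
    refine gas_eq_ZZ G y (fun s => (ln s).2) _ _ h3 (fun u hu => ?_) fun u hu => ?_
    · unfold WB
      rw [hW true u (Or.inr hu)]
      unfold Wt
      ring
    · unfold WB
      rw [hW false u (Or.inr hu)]
      unfold Wt
      ring
  · rw [if_neg hc, if_neg fun h => hc h.2.2]

/-- regularity with the quanta at the poles -/
theorem Reg.WB {pl : Bool → Finset ℂ} {κ a b : ℝ} (G : Geo pl κ a b) {w : Bool → ℂ}
    (h1 : ∀ s, a ≤ (w s).re) (h2 : ∀ s, (w s).re ≤ b) (α : Bool × Bool) {Q : ℤ}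
    {g : Bool → ℂ → ℂ} (h : Reg pl κ a b Q g) :
    Reg pl κ a b (Q - (uB α.1 * sg true + uB α.2 * sg false)) (NUP1S.WB w α g) := by
  have h3 := h.aU G (E := E2 w 0) (υ := eB α) fun j => ⟨h1 j, h2 j⟩
  have n2 : ∀ s (υ : Bool → Fin 3), (E2 w 0).nn s υ = υ s := fun s υ => by
    unfold SD.nn E2
    rw [Finset.sum_filter]
    simp
  have n3 : ((eB α true : Fin 3) : ℕ) = uB α.1 := by
    unfold eB uB
    cases α.1 <;> simp
  have n4 : ((eB α false : Fin 3) : ℕ) = uB α.2 := by
    unfold eB uB
    cases α.2 <;> simp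
  have e2 : (E2 w 0).aU (eB α) g = NUP1S.WB w α g := by
    funext s u
    unfold SD.aU NUP1S.WB fB
    rw [Fintype.prod_bool]
    have e3 : (E2 w 0).sp = fun s => s := rfl
    have e4 : (E2 w 0).p = w := rfl
    simp only [e3, e4, n3, n4]
    obtain ⟨a1, a2⟩ := α
    cases a1 <;> cases a2 <;> simp [uB]
  rwa [e2, n2, n2, n3, n4] at h3

section
variable {ιb ιb' : Type*} [Fintype ιb] [Fintype ιb'] {b : ιb → ℂ} {b' : ιb' → ℂ}
  {F F' : ℂ → ℂ} {W : Bool → ℂ → ℂ} {x y R c κ : ℝ} {n n' k k' : ℕ}

/-- the factors at the poles -/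
def xB (w : Bool → ℂ) (α : Bool × Bool) {J : Type*} [Fintype J] (s : J → Bool) (z : J → ℂ) : ℂ :=
  (if α.1 then ∏ j, PP true (s j) (w true - z j) else 1) *
    (if α.2 then ∏ j, PP false (s j) (w false - z j) else 1)

theorem wR_fB (w : Bool → ℂ) (α : Bool × Bool) (p : (Fin k → ℝ) × (Fin k' → ℝ)) :
    wR x y R b b' (fun z => F z * fB w α true z) (fun z => F' z * fB w α false z) p =
      wR x y R b b' F F' p * xB w α (hS k k') (zR x y R p) := by
  rw [wR_mul]
  congr 1
  unfold xB fB
  rw [prod_pole true (w true) p, prod_pole false (w false) p]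
  obtain ⟨a1, a2⟩ := α
  cases a1 <;> cases a2 <;> simp [Finset.prod_mul_distrib]
  ring

/-- **the line of the quanta moves over one simple pole of each species** -/
theorem GPk_pole2 {a₁ b₁ y1 yl : ℝ} {Q : ℤ} (h1 : a₁ < x) (h2 : x < y) (h3 : y < b₁)
    (h4 : b₁ ≤ a₁ + l) (h5 : y < y1) (h6 : yl < a₁ + l) (hR : 0 < R)
    (hb : ∀ i, b i ∈ rI x y R) (hb' : ∀ i, b' i ∈ rI x y R)
    (hF : ContinuousOn F (OS a₁ b₁)) (hF' : ContinuousOn F' (OS a₁ b₁)) (hκ : 0 < κ)
    {w : Bool → ℂ} (hw1 : ∀ s, y1 < (w s).re) (hw2 : ∀ s, (w s).re < yl)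
    (hQ : Q = (n + k : ℕ) * sg true + (n' + k' : ℕ) * sg false) {g : Bool → ℂ → ℂ}
    (hg : Reg (pW2 w) κ y1 yl Q g) (h0 : ∀ s, g s (w s) = 0)
    (hW : ∀ s, ∀ u : ℂ, (u.re = y1 ∨ u.re = yl) → W s u = Wt (pW2 w) g s u) :
    GPk x y R y1 b b' W F F' n n' k k' = ∑ α : Bool × Bool,
      if uB α.1 ≤ n ∧ uB α.2 ≤ n' then cB w g α *
        GPk x y R yl b b' (WB w α W) (fun z => F z * fB w α true z)
          (fun z => F' z * fB w α false z) (n - uB α.1) (n' - uB α.2) k k' else 0 := by
  have hl := Bd.l_pos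
  have hpi := Bd.pi_eq
  have hy : y1 < yl := (hw1 true).trans (hw2 true)
  have G : Geo (pW2 w) κ y1 yl := ⟨hκ, hy.le, by linarith, fun s p hp => by
    unfold pW2 at hp
    rw [Finset.mem_singleton] at hp
    rw [hp]
    exact ⟨(hw1 s).le, (hw2 s).le⟩⟩
  have ok1 : ∀ s, OkC (pW2 w) κ y1 yl (lineC s y1) := fun s =>
    okC_line hκ le_rfl hy.le fun p hp => by
      unfold pW2 at hp
      rw [Finset.mem_singleton] at hp
      rw [hp]
      exact (hw1 s).ne'
  have ok2 : ∀ s, OkC (pW2 w) κ y1 yl (lineC s yl) := fun s =>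
    okC_line hκ hy.le le_rfl fun p hp => by
      unfold pW2 at hp
      rw [Finset.mem_singleton] at hp
      rw [hp]
      exact (hw2 s).ne
  have L1 : LB W y1 κ Q := LB.of G hg ok1 fun s u hu => hW s u (Or.inl hu)
  have L3 : ∀ α, LB (WB w α W) yl κ (Q - (uB α.1 * sg true + uB α.2 * sg false)) := fun α =>
    LB.of G (hg.WB G (fun s => (hw1 s).le) (fun s => (hw2 s).le) α) ok2 fun s u hu => by
      unfold WB
      rw [hW s u (Or.inr hu)]
      unfold Wt
      ring
  -- the strip
  set ω : ℝ := yl - x with hω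
  have hω0 : 0 ≤ ω := by rw [hω]; linarith
  have hωl : ω < l := by rw [hω]; linarith
  have d1 : ∀ v : ℝ, x ≤ v → v ≤ y → |y1 - v| ≤ ω := fun v a1 a2 => by
    rw [abs_le, hω]
    constructor <;> linarith
  have d2 : ∀ v : ℝ, x ≤ v → v ≤ y → |yl - v| ≤ ω := fun v a1 a2 => by
    rw [abs_le, hω]
    constructor <;> linarith
  -- the weights
  have hUr : Pool.Agent.PHK.rK x y R ⊆ OS a₁ b₁ :=
    fun z hz => ⟨h1.trans_le hz.1, hz.2.1.trans_lt h3⟩
  have dif : ∀ z ∈ OS a₁ b₁, ∀ w ∈ OS a₁ b₁, z - w ∈ Vl :=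
    Pool.Agent.PHD.sub_Vl (by linarith) (by linarith)
  have hwR : ∀ {F F' : ℂ → ℂ}, ContinuousOn F (OS a₁ b₁) → ContinuousOn F' (OS a₁ b₁) →
      Integrable (wR x y R b b' F F') (nuR k k') := fun hF hF' =>
    Pool.Agent.PHD.int_rr h2 (by linarith) hR (isOpen_OS _ _) hUr dif h2 (by linarith) hR
      (isOpen_OS _ _) hUr dif dif hF hF' (Pool.Agent.PHD.db_mem hb) (Pool.Agent.PHD.db_mem hb') k k'
  have cP : ∀ s s0, ContinuousOn (fun z => PP s s0 (z - w s0)) (OS a₁ b₁) := fun s s0 z hz => by
    have hz1 := hz.1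
    have hz2 := hz.2
    have a1 := hw1 s0
    have a2 := hw2 s0
    have : DifferentiableAt ℂ (fun z => PP s s0 (z - w s0)) z :=
      (PP_diff s s0 (z := z - w s0) (by
        rw [sub_re, abs_lt]
        constructor <;> linarith)).comp z (differentiableAt_id.sub_const (w s0))
    exact this.continuousAt.continuousWithinAt
  have cB' : ∀ α s, ContinuousOn (fun z => fB w α s z) (OS a₁ b₁) := fun α s => by
    unfold fB
    refine ContinuousOn.mul ?_ ?_
    · split_ifs
      · exact cP s true
      · exact continuousOn_const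
    · split_ifs
      · exact cP s false
      · exact continuousOn_const
  have hQ1 : Q = n - n' + ∑ j, sg (hS k k' j) := by
    rw [hQ, sum_hS]
    simp only [sg]
    push_cast
    simp
    ring
  obtain ⟨-, f1⟩ := GPk_fub (b := b) (b' := b') hκ L1 hω0 hωl hQ1 (hwR hF hF') h2.le hR.le d1
  -- one configuration
  have mem : ∀ (p : (Fin k → ℝ) × (Fin k' → ℝ)) j, zR x y R p j ∈ rS x y R := by
    intro p j
    rcases j with j | j
    · exact rP_mem h2.le hR.le _
    · exact rP_mem h2.le hR.le _
  have one : ∀ p : (Fin k → ℝ) × (Fin k' → ℝ),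
      gas n n' y1 (adI W (hS k k') (zR x y R p) true) (adI W (hS k k') (zR x y R p) false) =
      ∑ α : Bool × Bool, if uB α.1 ≤ n ∧ uB α.2 ≤ n' then
        cB w g α * xB w α (hS k k') (zR x y R p) *
        gas (n - uB α.1) (n' - uB α.2) yl (adI (WB w α W) (hS k k') (zR x y R p) true)
          (adI (WB w α W) (hS k k') (zR x y R p) false) else 0 := by
    intro p
    have r1 := hg.adO (hS k k') (z := zR x y R p) hω0 hωl fun j v a1 a2 => by
      have := mem p j
      rw [abs_le, hω]
      constructor <;> linarith [this.1, this.2.1]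
    have e1 : Q - ∑ j, sg (hS k k' j) = n * sg true + n' * sg false := by
      rw [hQ1]
      simp [sg]
      ring
    rw [e1] at r1
    have z0 : ∀ s, NUP1S.adI g (hS k k') (zR x y R p) s (w s) = 0 := by
      intro s
      unfold NUP1S.adI
      rw [h0, zero_mul]
    have key := gas_pole2 (by linarith) hκ hw1 hw2 n n' r1 z0
      (W := adI W (hS k k') (zR x y R p)) fun s u hu => by
        rw [Wt_adI]
        unfold adI
        rw [hW s u hu]
    have e2 : ∀ s, deriv (NUP1S.adI g (hS k k') (zR x y R p) s) (w s) =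
        deriv (g s) (w s) * ∏ j, PP s (hS k k' j) (w s - zR x y R p j) := by
      intro s
      have a1 := hw1 s
      have a2 := hw2 s
      have hd : DifferentiableAt ℂ (fun u => ∏ j, PP s (hS k k' j) (u - zR x y R p j)) (w s) := by
        refine DifferentiableAt.fun_finsetProd fun j _ => ?_
        have := mem p j
        have h7 := PP_diff s (hS k k' j) (z := w s - zR x y R p j) (by
          rw [sub_re, abs_lt]
          constructor <;> linarith [this.1, this.2.1])
        exact h7.comp (w s) (differentiableAt_id.sub_const _)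
      have := ((hg.diff s (w s) a1.le a2.le).hasDerivAt.mul hd.hasDerivAt).deriv
      rw [h0, zero_mul, add_zero] at this
      exact this
    have e4 : ∀ α, cB w (NUP1S.adI g (hS k k') (zR x y R p)) α =
        cB w g α * xB w α (hS k k') (zR x y R p) := by
      intro α
      unfold cB xB
      rw [e2, e2]
      obtain ⟨a1, a2⟩ := α
      cases a1 <;> cases a2 <;> simp
      ring
    rw [key]
    refine Finset.sum_congr rfl fun α _ => ?_
    split_ifs
    · rw [e4]
      congr 1
      have e3 : ∀ s, WB w α (adI W (hS k k') (zR x y R p)) s =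
          adI (WB w α W) (hS k k') (zR x y R p) s := by
        intro s
        funext u
        unfold adI WB
        ring
      rw [e3, e3]
    · rfl
  have i3 : ∀ α : Bool × Bool, uB α.1 ≤ n ∧ uB α.2 ≤ n' → _ := fun α hc =>
    GPk_fub (n := n - uB α.1) (n' := n' - uB α.2) (k := k) (k' := k') (b := b) (b' := b')
      (F := fun z => F z * fB w α true z) (F' := fun z => F' z * fB w α false z) hκ (L3 α) hω0 hωl
      (by
        obtain ⟨c1, c2⟩ := hc
        rw [hQ1]
        push_cast [c1, c2]
        simp only [sg]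
        push_cast
        simp
        ring) (hwR (hF.mul (cB' α true)) (hF'.mul (cB' α false))) h2.le hR.le d2
  rw [f1]
  simp only [one, Finset.mul_sum]
  rw [integral_finsetSum]
  · rw [Finset.mul_sum]
    refine Finset.sum_congr rfl fun α _ => ?_
    by_cases hc : uB α.1 ≤ n ∧ uB α.2 ≤ n'
    · simp only [if_pos hc]
      rw [(i3 α hc).2, mul_left_comm (cB w g α), ← integral_const_mul (cB w g α)]
      congr 1
      refine integral_congr_ae (Eventually.of_forall fun p => ?_)
      simp only []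
      rw [wR_fB]
      ring
    · simp only [if_neg hc, mul_zero, integral_zero]
  · intro α _
    by_cases hc : uB α.1 ≤ n ∧ uB α.2 ≤ n'
    · simp only [if_pos hc]
      refine ((i3 α hc).1.const_mul (cB w g α)).congr (Eventually.of_forall fun p => ?_)
      simp only []
      rw [wR_fB]
      ring
    · simp only [if_neg hc, mul_zero]
      exact integrable_zero _ _ _

end

end NUP1S
end
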