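import Pool.Agent.NUP1S.Exact

/-!
# PLAX (P): lower bounds for the field of fixed objects on a strip (helper45)

`Lw K s g` : the mirror image of `Bdd K s g`. `gr_low` : lower bound of the regular part of the field, all the strings may be at the
same real part (no radius, no separation).
-/

set_option autoImplicit false
set_option linter.unusedSectionVars false

noncomputable section

open Complex MeasureTheory NUP1 Set Filter Topology
open scoped Real

namespace NUP1S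

open NUP1.Bd (cwz pwz qg chg sin_pos_of Ob)

/-- exponential lower bound over a set of real parts -/
def Lw (K : Set ℝ) (s : ℝ) (g : ℂ → ℂ) : Prop :=
  ∃ c : ℝ, 0 < c ∧ ∀ z : ℂ, z.re ∈ K → c * Real.exp (s * |z.im|) ≤ ‖g z‖

theorem Lw.mul {K : Set ℝ} {s s' : ℝ} {g g' : ℂ → ℂ} (h : Lw K s g) (h' : Lw K s' g') :
    Lw K (s + s') (fun z => g z * g' z) := by
  obtain ⟨c, hc, h⟩ := h
  obtain ⟨d, hd, h'⟩ := h'
  refine ⟨c * d, mul_pos hc hd, fun z hz => ?_⟩
  rw [norm_mul]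
  calc c * d * Real.exp ((s + s') * |z.im|) = (c * Real.exp (s * |z.im|)) * (d * Real.exp (s' * |z.im|)) := by
        rw [add_mul, Real.exp_add]
        ring
    _ ≤ _ := mul_le_mul (h z hz) (h' z hz) (by positivity) (norm_nonneg _)

theorem Lw.pow {K : Set ℝ} {s : ℝ} {g : ℂ → ℂ} (h : Lw K s g) (n : ℕ) : Lw K (n * s) (fun z => g z ^ n) := by
  obtain ⟨c, hc, h⟩ := h
  refine ⟨c ^ n, by positivity, fun z hz => ?_⟩
  rw [norm_pow]
  calc c ^ n * Real.exp (n * s * |z.im|) = (c * Real.exp (s * |z.im|)) ^ n := by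
        rw [mul_pow, ← Real.exp_nat_mul, mul_assoc]
    _ ≤ _ := pow_le_pow_left₀ (by positivity) (h z hz) n

theorem Lw.rate {K : Set ℝ} {s s' : ℝ} {g : ℂ → ℂ} (h : Lw K s g) (e : s = s') : Lw K s' g := e ▸ h

theorem Lw.congr {K : Set ℝ} {s : ℝ} {g g' : ℂ → ℂ} (h : Lw K s g) (e : ∀ z : ℂ, z.re ∈ K → ‖g z‖ ≤ ‖g' z‖) : Lw K s g' := by
  obtain ⟨c, hc, h⟩ := h
  exact ⟨c, hc, fun z hz => (h z hz).trans (e z hz)⟩

theorem Lw.mono {K K' : Set ℝ} {s : ℝ} {g : ℂ → ℂ} (h : Lw K s g) (hK : K' ⊆ K) : Lw K' s g := by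
  obtain ⟨c, hc, h⟩ := h
  exact ⟨c, hc, fun z hz => h z (hK hz)⟩

theorem Lw.shift {K : Set ℝ} {s : ℝ} {g : ℂ → ℂ} (a : ℝ) (h : Lw ((fun d => d + a) '' K) s g) :
    Lw K s (fun z => g (z + a)) := by
  obtain ⟨c, hc, h⟩ := h
  refine ⟨c, hc, fun z hz => ?_⟩
  have := h (z + a) ⟨z.re, hz, by simp⟩
  rwa [add_im, ofReal_im, add_zero] at this

/-- lower bounds of a translate -/
theorem Lw.translate {K : Set ℝ} {r : ℝ} {f : ℂ → ℂ} {z0 : ℂ}
    (h : Lw ((fun v => v + -z0.re) '' K) r f) : Lw K r fun u => f (u - z0) := by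
  obtain ⟨c, hc, h⟩ := h
  refine ⟨c * Real.exp (-(|r| * |z0.im|)), by positivity, fun u hu => ?_⟩
  refine le_trans ?_ (h (u - z0) ⟨u.re, hu, by rw [sub_re]; rfl⟩)
  rw [mul_assoc, ← Real.exp_add]
  refine mul_le_mul_of_nonneg_left (Real.exp_le_exp.2 ?_) hc.le
  rw [sub_im]
  have h1 := abs_sub_abs_le_abs_sub u.im z0.im
  have h2 := abs_sub u.im z0.im
  rcases le_total 0 r with hr | hr
  · rw [abs_of_nonneg hr]
    nlinarith
  · rw [abs_of_nonpos hr]
    nlinarith

theorem lw_prod {ι : Type*} [Fintype ι] {K : Set ℝ} {r : ι → ℝ} {f : ι → ℂ → ℂ} (h : ∀ b, Lw K (r b) (f b)) :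
    Lw K (∑ b, r b) fun u => ∏ b, f b u := by
  choose c hc h using h
  refine ⟨∏ b, c b, Finset.prod_pos fun b _ => hc b, fun u hu => ?_⟩
  rw [norm_prod, Finset.sum_mul, Real.exp_sum, ← Finset.prod_mul_distrib]
  exact Finset.prod_le_prod (fun b _ => mul_nonneg (hc b).le (Real.exp_pos _).le) fun b _ => h b u hu

/-! ## sines -/

theorem lw_sin {K : Set ℝ} (hK : IsCompact K) (a : ℝ) (h : ∀ d ∈ K, Real.sin (d + a) ≠ 0) :
    Lw K 1 (fun z => sin (z + a)) := by
  obtain ⟨δ, hδ, h⟩ := exists_deltaK hK a h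
  refine ⟨δ / 2, by positivity, fun z hz => ?_⟩
  have h1 := Bd.le_norm_sin_add z a
  have h2 := h _ hz
  have h3 := Bd.exp_le_cosh z.im
  rw [one_mul]
  calc δ / 2 * Real.exp |z.im| ≤ δ * Real.cosh z.im := by nlinarith
    _ ≤ |Real.sin (z.re + a)| * Real.cosh z.im := mul_le_mul_of_nonneg_right h2 (Real.cosh_pos _).le
    _ ≤ _ := h1

theorem lw_cos {K : Set ℝ} (hK : IsCompact K) (h : ∀ d ∈ K, Real.sin (d + π / 2) ≠ 0) : Lw K 1 (fun z => cos z) := by
  refine (lw_sin hK (π / 2) h).congr fun z _ => ?_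
  push_cast
  rw [sin_add_pi_div_two]

theorem lw_inv_sin {K : Set ℝ} (a : ℝ) (h : ∀ d ∈ K, Real.sin (d + a) ≠ 0) :
    Lw K (-1) (fun z => 1 / sin (z + a)) := by
  refine ⟨1, one_pos, fun z hz => ?_⟩
  have h0 : 0 < ‖sin (z + a)‖ := by
    have h1 := Bd.le_norm_sin_add z a
    have h2 := abs_pos.2 (h _ hz)
    have h3 := Real.cosh_pos z.im
    have h4 := mul_pos h2 h3
    linarith
  have h1 : ‖sin (z + a)‖ ≤ Real.exp |z.im| := (Bd.norm_sin_add_le z a).trans (Bd.cosh_le_exp _)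
  rw [norm_div, norm_one, one_mul, neg_one_mul, Real.exp_neg, ← one_div]
  exact one_div_le_one_div_of_le h0 h1

/-! ## pair weights -/

/-- regular part of `q1` at a string point -/
def q1r (z : ℂ) : ℂ := sin z * sin (z + l) * sin (z + 3 * l)

theorem q1_split (z : ℂ) : q1 z = sin (z - 2 * l) * q1r z := by
  unfold q1 q1r
  ring

theorem lw_q1r {K : Set ℝ} (hK : IsCompact K) (h1 : ∀ d ∈ K, Real.sin d ≠ 0) (h2 : ∀ d ∈ K, Real.sin (d + l) ≠ 0)
    (h3 : ∀ d ∈ K, Real.sin (d + 3 * l) ≠ 0) : Lw K 3 q1r := by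
  have a1 := lw_sin hK 0 (fun d hd => by rw [add_zero]; exact h1 d hd)
  have a2 := lw_sin hK l h2
  have a3 := lw_sin hK (3 * l) h3
  refine (((a1.mul a2).mul a3).rate (by norm_num)).congr fun z _ => le_of_eq ?_
  unfold q1r
  simp

theorem lw_q1 {K : Set ℝ} (hK : IsCompact K) (h1 : ∀ d ∈ K, Real.sin d ≠ 0) (h2 : ∀ d ∈ K, Real.sin (d + l) ≠ 0)
    (h3 : ∀ d ∈ K, Real.sin (d + 3 * l) ≠ 0) (h4 : ∀ d ∈ K, Real.sin (d + -(2 * l)) ≠ 0) : Lw K 4 q1 := by
  have a1 := lw_sin hK (-(2 * l)) h4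
  refine ((a1.mul (lw_q1r hK h1 h2 h3)).rate (by norm_num)).congr fun z _ => le_of_eq ?_
  rw [q1_split]
  congr 3
  push_cast
  ring

theorem lw_q {K : Set ℝ} (hK : IsCompact K) (h0 : ∀ d ∈ K, Real.sin d ≠ 0) (h1 : ∀ d ∈ K, Real.sin (d + l) ≠ 0)
    (h2 : ∀ d ∈ K, Real.sin (d + -l) ≠ 0) (h3 : ∀ d ∈ K, Real.sin (d + 2 * l) ≠ 0)
    (h4 : ∀ d ∈ K, Real.sin (d + -(2 * l)) ≠ 0) : Lw K 2 q := by
  have a0 := (lw_sin hK 0 (fun d hd => by rw [add_zero]; exact h0 d hd)).pow 2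
  have a1 := lw_inv_sin (K := K) l h1
  have a2 := lw_inv_sin (K := K) (-l) h2
  have a3 := lw_sin hK (2 * l) h3
  have a4 := lw_sin hK (-(2 * l)) h4
  refine (((((a0.mul a3).mul a4).mul a1).mul a2).rate (by norm_num)).congr fun z _ => le_of_eq ?_
  unfold q
  rw [neg_div, norm_neg]
  congr 1
  push_cast
  rw [add_zero, ← sub_eq_add_neg, ← sub_eq_add_neg]
  simp only [div_eq_mul_inv, one_mul, mul_inv]
  ring

theorem lw_qg {K : Set ℝ} (hK : IsCompact K) (h0 : ∀ d ∈ K, Real.sin (d + π / 2) ≠ 0)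
    (h1 : ∀ d ∈ K, Real.sin (d + 3 * l) ≠ 0) (h2 : ∀ d ∈ K, Real.sin (d + -(3 * l)) ≠ 0) : Lw K (-2) qg := by
  have a0 := (lw_cos hK h0).pow 2
  have a1 := (lw_inv_sin (K := K) (3 * l) h1).pow 2
  have a2 := (lw_inv_sin (K := K) (-(3 * l)) h2).pow 2
  refine (((a0.mul a1).mul a2).rate (by norm_num)).congr fun z _ => le_of_eq ?_
  unfold qg
  congr 1
  push_cast
  rw [← sub_eq_add_neg]
  simp only [div_eq_mul_inv, one_mul, mul_inv, inv_pow]
  ring

/-! ## the field -/

variable {ι : Type*} [Fintype ι] [DecidableEq ι]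
variable {o : ι → CO} {z : ι → ℂ} {act : ι → Prop} [DecidablePred act] {x y κ : ℝ} {G : Bool → ℂ → ℂ}

/-- rate of the pair weight of a quantum and an object, without poles and own string points -/
def rl (o : ι → CO) (act : ι → Prop) [DecidablePred act] (s : Bool) (b : ι) : ℝ :=
  rt (s, .A) (o b) + (if act b ∧ (o b).1 ≠ s then 2 else 0) - if act b ∧ (o b).1 = s then 1 else 0

/-- own string points -/
def osp (o : ι → CO) (z : ι → ℂ) (act : ι → Prop) [DecidablePred act] (s : Bool) (b : ι) (u : ℂ) : ℂ :=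
  if act b ∧ (o b).1 = s then sin (u - (z b + 2 * l)) else 1

theorem rt_S {b : ι} {s : Bool} (h : (o b).2 = .S) : rt (s, .A) (o b) = if (o b).1 = s then 4 else -4 := by
  unfold rt sc
  rw [h]
  cases s <;> cases h5 : (o b).1 <;> simp [chg] <;> norm_num

/-- one factor -/
theorem gR_low (hS : ∀ b, act b → (o b).2 = .S) (hlo : ∀ b, act b → l < x - (z b).re)
    (hhi : ∀ b, act b → y - (z b).re < 3 * l) (s : Bool) (b : ι)
    (hin : ¬ act b → Lw ((fun v => v + -(z b).re) '' Icc x y) (rt (s, .A) (o b)) (gz (s, .A) (o b))) :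
    ∃ c : ℝ, 0 < c ∧ ∀ u : ℂ, u.re ∈ Icc x y →
      c * ‖osp o z act s b u‖ * Real.exp (rl o act s b * |u.im|) ≤ ‖gR o act s b (u - z b)‖ := by
  have hl := Bd.l_pos
  have hpi := Bd.pi_eq
  have hK : IsCompact ((fun v => v + -(z b).re) '' Icc x y) := isCompact_Icc.image (by fun_prop)
  by_cases ha : act b
  · have hb := hS b ha
    have r1 : ∀ d ∈ (fun v => v + -(z b).re) '' Icc x y, l < d ∧ d < 3 * l := by
      rintro _ ⟨v, ⟨hv1, hv2⟩, rfl⟩
      have := hlo b ha
      have := hhi b ha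
      constructor <;> simp only [] <;> linarith
    by_cases hs : (o b).1 = s
    · -- own string
      have e1 : rl o act s b = 3 := by
        unfold rl
        rw [rt_S hb, if_pos hs, if_neg (fun h => h.2 hs), if_pos ⟨ha, hs⟩]
        norm_num
      have n1 : ∀ d ∈ (fun v => v + -(z b).re) '' Icc x y, Real.sin d ≠ 0 := fun d hd => by
        obtain ⟨h1, h2⟩ := r1 d hd
        exact (sin_pos_of (by linarith) (by linarith)).ne'
      have n2 : ∀ d ∈ (fun v => v + -(z b).re) '' Icc x y, Real.sin (d + l) ≠ 0 := fun d hd => by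
        obtain ⟨h1, h2⟩ := r1 d hd
        exact (sin_pos_of (by linarith) (by linarith)).ne'
      have n3 : ∀ d ∈ (fun v => v + -(z b).re) '' Icc x y, Real.sin (d + 3 * l) ≠ 0 := fun d hd => by
        obtain ⟨h1, h2⟩ := r1 d hd
        exact (sin_pos_of (by linarith) (by linarith)).ne'
      obtain ⟨c, hc, h1⟩ := Lw.translate (z0 := z b) (lw_q1r hK n1 n2 n3)
      refine ⟨c, hc, fun u hu => ?_⟩
      have e2 : gR o act s b (u - z b) = sin (u - (z b + 2 * l)) * q1r (u - z b) := by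
        unfold gR
        rw [if_neg (fun h => h.2 hs)]
        unfold gz
        have hs' : s = (o b).1 := hs.symm
        simp only [if_pos hs', hb]
        show q1 (u - z b) = _
        rw [q1_split]
        congr 2
        ring
      have e3 : osp o z act s b u = sin (u - (z b + 2 * l)) := if_pos ⟨ha, hs⟩
      rw [e1, e2, e3, norm_mul]
      have := mul_le_mul_of_nonneg_left (h1 u hu) (norm_nonneg (sin (u - (z b + 2 * l))))
      linarith
    · -- string of the other species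
      have e1 : rl o act s b = -2 := by
        unfold rl
        rw [rt_S hb, if_neg hs, if_pos ⟨ha, hs⟩, if_neg (fun h => hs h.2)]
        norm_num
      have n3 : ∀ d ∈ (fun v => v + -(z b).re) '' Icc x y, Real.sin (d + 3 * l) ≠ 0 := fun d hd => by
        obtain ⟨h1, h2⟩ := r1 d hd
        exact (sin_pos_of (by linarith) (by linarith)).ne'
      have h0 : Lw ((fun v => v + -(z b).re) '' Icc x y) (-2) (fun w => 1 / sin (w + 3 * l) ^ 2) := by
        refine (((lw_inv_sin (3 * l) n3).pow 2).rate (by norm_num)).congr fun w _ => le_of_eq ?_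
        congr 1
        push_cast
        rw [div_pow, one_pow]
      obtain ⟨c, hc, h1⟩ := Lw.translate (z0 := z b) h0
      refine ⟨c, hc, fun u hu => ?_⟩
      have e2 : gR o act s b (u - z b) = 1 / sin (u - z b + 3 * l) ^ 2 := if_pos ⟨ha, hs⟩
      have e3 : osp o z act s b u = 1 := if_neg fun h => hs h.2
      rw [e1, e2, e3, norm_one, mul_one]
      exact h1 u hu
  · have e1 : rl o act s b = rt (s, .A) (o b) := by
      unfold rl
      rw [if_neg (fun h => ha h.1), if_neg (fun h => ha h.1)]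
      ring
    obtain ⟨c, hc, h1⟩ := Lw.translate (z0 := z b) (hin ha)
    refine ⟨c, hc, fun u hu => ?_⟩
    have e2 : gR o act s b (u - z b) = gz (s, .A) (o b) (u - z b) := by
      unfold gR
      rw [if_neg (fun h => ha h.1)]
    have e3 : osp o z act s b u = 1 := if_neg fun h => ha h.1
    rw [e1, e2, e3, norm_one, mul_one]
    exact h1 u hu

/-- **lower bound of the regular part of the field**: `act b` are strings whose point `z b + 2 l` is inside the strip `(x, y)` of width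
less than `l`; all of them may be on one line. -/
theorem gr_low (hS : ∀ b, act b → (o b).2 = .S) (hlo : ∀ b, act b → l < x - (z b).re)
    (hhi : ∀ b, act b → y - (z b).re < 3 * l)
    (hin : ∀ s b, ¬ act b → Lw ((fun v => v + -(z b).re) '' Icc x y) (rt (s, .A) (o b)) (gz (s, .A) (o b)))
    (hG : ∀ s, Lw (Icc x y) (-κ) (G s)) {Q : ℤ} (hQ : (Q : ℝ) + ∑ b, sc (o b) = 0) (s : Bool) :
    ∃ c : ℝ, 0 < c ∧ ∀ u : ℂ, x ≤ u.re → u.re ≤ y →
      c * (∏ b, ‖osp o z act s b u‖) * Real.exp (-((κ + 2 * ((sg s * Q : ℤ) : ℝ) -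
        2 * (∑ b, if act b ∧ (o b).1 ≠ s then (1 : ℝ) else 0) + ∑ b, if act b ∧ (o b).1 = s then (1 : ℝ) else 0) *
          |u.im|)) ≤ ‖gr o z act G s u‖ := by
  obtain ⟨c0, hc0, h0⟩ := hG s
  choose c hc h using fun b => gR_low hS hlo hhi s b (hin s b)
  refine ⟨c0 * ∏ b, c b, mul_pos hc0 (Finset.prod_pos fun b _ => hc b), fun u h1 h2 => ?_⟩
  have hsum : ∑ b, rl o act s b = -(2 * ((sg s * Q : ℤ) : ℝ) -
        2 * (∑ b, if act b ∧ (o b).1 ≠ s then (1 : ℝ) else 0) + ∑ b, if act b ∧ (o b).1 = s then (1 : ℝ) else 0) := by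
    unfold rl rt
    rw [Finset.sum_sub_distrib, Finset.sum_add_distrib, ← Finset.mul_sum, ← Finset.mul_sum, sc_sA]
    have e : (∑ b, if act b ∧ (o b).1 ≠ s then (2 : ℝ) else 0) =
        2 * ∑ b, if act b ∧ (o b).1 ≠ s then (1 : ℝ) else 0 := by
      rw [Finset.mul_sum]
      refine Finset.sum_congr rfl fun b _ => ?_
      split_ifs <;> norm_num
    rw [e, show ∑ b, sc (o b) = -(Q : ℝ) by linarith]
    push_cast
    ring
  have hprod : (∏ b, c b) * (∏ b, ‖osp o z act s b u‖) * Real.exp ((∑ b, rl o act s b) * |u.im|) ≤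
      ∏ b, ‖gR o act s b (u - z b)‖ := by
    rw [Finset.sum_mul, Real.exp_sum, ← Finset.prod_mul_distrib, ← Finset.prod_mul_distrib]
    refine Finset.prod_le_prod (fun b _ => ?_) fun b _ => h b u ⟨h1, h2⟩
    have := (hc b).le
    positivity
  unfold gr
  rw [norm_mul, norm_prod]
  have h3 := h0 u ⟨h1, h2⟩
  calc _ = (c0 * Real.exp (-κ * |u.im|)) *
        ((∏ b, c b) * (∏ b, ‖osp o z act s b u‖) * Real.exp ((∑ b, rl o act s b) * |u.im|)) := by
        rw [hsum]
        have e : Real.exp (-((κ + 2 * ((sg s * Q : ℤ) : ℝ) -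
            2 * (∑ b, if act b ∧ (o b).1 ≠ s then (1 : ℝ) else 0) + ∑ b, if act b ∧ (o b).1 = s then (1 : ℝ) else 0) *
              |u.im|)) = Real.exp (-κ * |u.im|) * Real.exp (-(2 * ((sg s * Q : ℤ) : ℝ) -
            2 * (∑ b, if act b ∧ (o b).1 ≠ s then (1 : ℝ) else 0) + ∑ b, if act b ∧ (o b).1 = s then (1 : ℝ) else 0) *
              |u.im|) := by
          rw [← Real.exp_add]
          congr 1
          ring
        rw [e]
        ring
    _ ≤ _ := mul_le_mul h3 hprod (by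
        have : 0 ≤ ∏ b, c b := Finset.prod_nonneg fun b _ => (hc b).le
        have : 0 ≤ ∏ b, ‖osp o z act s b u‖ := Finset.prod_nonneg fun b _ => norm_nonneg _
        positivity) (norm_nonneg _)

end NUP1S

end
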