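import Pool.Agent.PHK.HoleD
import Pool.Agent.PHK.HostLow
import Pool.Agent.PHK.Lines

/-!
# PLAX (P): the host of the holes, definitions (helper45)

`α` = own strings (positions `zo`), `β` = strings of the other species (positions `zt`), `K` = product of the other factors, `G` =
one body function of the class, `Ei` = its inverse (`G u * Ei u = ∏ (u - ζ j)`), `ζ` = its zeros.
`WH` = the field of a quantum, `FH` = its regular part, `EH` = the inverse, `bH0`, `dH` = double poles and zeros.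
-/

set_option autoImplicit false

noncomputable section

open Complex NUP1

namespace NUP1S.HF

open NUP1.Bd (qg)
open Pool.Agent.PHK (sn)

/-- field of a string of the other species -/
def cA (w : ℂ) : ℂ := qg w * qg (w + l)

/-- its regular part -/
def cF (w : ℂ) : ℂ := 1 / (sn (w - 2 * l) ^ 2 * sin (w + 3 * l) ^ 2)

/-- inverse of its regular part -/
def cE (w : ℂ) : ℂ := sn (w - 2 * l) ^ 2 * sin (w + 3 * l) ^ 2

/-- inverse of the field of an own string, without its zero -/
def oE (w : ℂ) : ℂ := 1 / (sn (w - 2 * l) * q1r w)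

variable {α β ν : Type} [Fintype α] [Fintype β]

/-- field of a quantum -/
def WH (G : ℂ → ℂ) (zo : α → ℂ) (zt : β → ℂ) (K : ℂ → ℂ) (u : ℂ) : ℂ :=
  G u * (∏ i, q1 (u - zo i)) * (∏ i, cA (u - zt i)) * K u

/-- its regular part -/
def FH (G : ℂ → ℂ) (zo : α → ℂ) (zt : β → ℂ) (K : ℂ → ℂ) (u : ℂ) : ℂ :=
  G u * (∏ i, q1 (u - zo i)) * (∏ i, cF (u - zt i)) * K u

/-- the inverse -/
def EH (Ei : ℂ → ℂ) (zo : α → ℂ) (zt : β → ℂ) (K : ℂ → ℂ) (u : ℂ) : ℂ :=
  Ei u * (∏ i, oE (u - zo i)) * (∏ i, cE (u - zt i)) * (K u)⁻¹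

/-- the double poles -/
def bT (zt : β → ℂ) (i : β) : ℂ := zt i + 2 * l

/-- the zeros: own strings, zeros of the class -/
def dH (zo : α → ℂ) (ζ : ν → ℂ) (j : α ⊕ₗ ν) : ℂ := Sum.elim (fun i => zo i + 2 * l) ζ (ofLex j)

end NUP1S.HF

end
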