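import Pool.Agent.PHK.HostFS

/-!
# PLAX (P): the host of the holes, the objects that are not strings on the line `S` (helper45)

Ranges of the difference `w` of the positions of a quantum and an object: `NK k` = no poles, no zeros; `DK k` = no poles.
-/

set_option autoImplicit false
set_option linter.unusedSectionVars false

noncomputable section

open Complex MeasureTheory NUP1 Set Filter Topology
open scoped Real

namespace NUP1S.HF

open NUP1.Bd (qg cwz pwz chg sin_pos_of Ob)

/-- a range of the real parts without poles and zeros -/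
def NK (k : O3) : Set ℝ := if k = .L then Ioo l (2 * l) else Ioo 0 (2 * l)

/-- a range of the real parts without poles -/
def DK (k : O3) : Set ℝ := if k = .L then Ioo l (3 * l) else Ioo 0 (2 * l)

theorem nk_dk (k : O3) : NK k ⊆ DK k := by
  have hl := Bd.l_pos
  unfold NK DK
  split_ifs
  · exact Ioo_subset_Ioo le_rfl (by linarith)
  · exact le_rfl

theorem ok_dk {k : O3} {d : ℝ} (h : d ∈ DK k) (s s' : Bool) : Ok (s, .A) (s', ob3 k) d := by
  have hl := Bd.l_pos
  have hpi := Bd.pi_eq
  have sp : ∀ x : ℝ, 0 < x → x < 8 * l → Real.sin x ≠ 0 := fun x h1 h2 => (sin_pos_of h1 (by linarith)).ne'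
  have sm : ∀ x : ℝ, -(8 * l) < x → x < 0 → Real.sin x ≠ 0 := fun x h1 h2 => by
    have := sp (-x) (by linarith) (by linarith)
    rwa [Real.sin_neg, neg_ne_zero] at this
  unfold DK at h
  intro r hr
  cases k
  · -- L
    rw [if_pos rfl] at h
    obtain ⟨h1, h2⟩ := h
    unfold poles at hr
    by_cases hs : s = s'
    · rw [if_pos hs] at hr
      simp only [ob3, List.mem_cons, List.not_mem_nil, or_false] at hr
      rcases hr with rfl | rfl
      · exact sp _ (by linarith) (by linarith)
      · exact sp _ (by linarith) (by linarith)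
    · rw [if_neg hs] at hr
      simp only [ob3, List.mem_cons, List.not_mem_nil, or_false] at hr
      rcases hr with rfl | rfl
      · exact sp _ (by linarith) (by linarith)
      · exact sm _ (by linarith) (by linarith)
  all_goals
    rw [if_neg (by decide)] at h
    obtain ⟨h1, h2⟩ := h
    unfold poles at hr
    by_cases hs : s = s'
    · rw [if_pos hs] at hr
      simp [ob3] at hr
    · rw [if_neg hs] at hr
      simp only [ob3, List.mem_cons, List.not_mem_nil, or_false] at hr
      rcases hr with rfl | rfl | rfl | rfl
      · exact sp _ (by linarith) (by linarith)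
      · exact sm _ (by linarith) (by linarith)
      · exact sp _ (by linarith) (by linarith)
      · exact sm _ (by linarith) (by linarith)

/-- **lower bounds** -/
theorem lw_gz {K : Set ℝ} (hK : IsCompact K) {k : O3} (h : K ⊆ NK k) (s s' : Bool) :
    Lw K (rt (s, .A) (s', ob3 k)) (gz (s, .A) (s', ob3 k)) := by
  have hl := Bd.l_pos
  have hpi := Bd.pi_eq
  have sp : ∀ x : ℝ, 0 < x → x < 8 * l → Real.sin x ≠ 0 := fun x h1 h2 => (sin_pos_of h1 (by linarith)).ne'
  have sm : ∀ x : ℝ, -(8 * l) < x → x < 0 → Real.sin x ≠ 0 := fun x h1 h2 => by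
    have := sp (-x) (by linarith) (by linarith)
    rwa [Real.sin_neg, neg_ne_zero] at this
  unfold NK at h
  cases k
  · -- L
    rw [if_pos rfl] at h
    by_cases hs : s = s'
    · subst hs
      have e1 : rt (s, .A) (s, ob3 .L) = 2 := by
        unfold rt sc
        cases s <;> simp [chg, ob3]
      have e2 : gz (s, .A) (s, ob3 .L) = q := by
        funext w
        unfold gz
        rw [if_pos rfl]
        rfl
      rw [e1, e2]
      refine lw_q hK ?_ ?_ ?_ ?_ ?_ <;> intro d hd <;> obtain ⟨h1, h2⟩ := h hd
      · exact sp _ (by linarith) (by linarith)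
      · exact sp _ (by linarith) (by linarith)
      · exact sp _ (by linarith) (by linarith)
      · exact sp _ (by linarith) (by linarith)
      · exact sm _ (by linarith) (by linarith)
    · have e1 : rt (s, .A) (s', ob3 .L) = -2 := by
        unfold rt sc
        cases s <;> cases s' <;> simp_all [chg, ob3]
      have e2 : gz (s, .A) (s', ob3 .L) = qg := by
        funext w
        unfold gz
        rw [if_neg hs]
        rfl
      rw [e1, e2]
      refine lw_qg hK ?_ ?_ ?_ <;> intro d hd <;> obtain ⟨h1, h2⟩ := h hd
      · exact sp _ (by linarith) (by linarith)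
      · exact sp _ (by linarith) (by linarith)
      · exact sm _ (by linarith) (by linarith)
  all_goals
    rw [if_neg (by decide)] at h
    by_cases hs : s = s'
    · subst hs
      have e1 : rt (s, .A) (s, Ob.S) = 4 := by
        unfold rt sc
        cases s <;> simp [chg] <;> norm_num
      have e2 : gz (s, .A) (s, Ob.S) = q1 := by
        funext w
        unfold gz
        rw [if_pos rfl]
        rfl
      show Lw K (rt (s, .A) (s, Ob.S)) (gz (s, .A) (s, Ob.S))
      rw [e1, e2]
      refine lw_q1 hK ?_ ?_ ?_ ?_ <;> intro d hd <;> obtain ⟨h1, h2⟩ := h hd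
      · exact sp _ (by linarith) (by linarith)
      · exact sp _ (by linarith) (by linarith)
      · exact sp _ (by linarith) (by linarith)
      · exact sm _ (by linarith) (by linarith)
    · have e1 : rt (s, .A) (s', Ob.S) = -2 + -2 := by
        unfold rt sc
        cases s <;> cases s' <;> simp_all [chg] <;> norm_num
      have e2 : gz (s, .A) (s', Ob.S) = fun w => qg w * qg (w + l) := by
        funext w
        unfold gz
        rw [if_neg hs]
        rfl
      show Lw K (rt (s, .A) (s', Ob.S)) (gz (s, .A) (s', Ob.S))
      rw [e1, e2]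
      refine Lw.mul (lw_qg hK ?_ ?_ ?_) (Lw.shift (l : ℝ) (lw_qg (hK.image (by fun_prop)) ?_ ?_ ?_))
      · intro d hd
        obtain ⟨h1, h2⟩ := h hd
        exact sp _ (by linarith) (by linarith)
      · intro d hd
        obtain ⟨h1, h2⟩ := h hd
        exact sp _ (by linarith) (by linarith)
      · intro d hd
        obtain ⟨h1, h2⟩ := h hd
        exact sm _ (by linarith) (by linarith)
      · rintro _ ⟨d, hd, rfl⟩
        obtain ⟨h1, h2⟩ := h hd
        exact sp _ (by linarith) (by linarith)
      · rintro _ ⟨d, hd, rfl⟩
        obtain ⟨h1, h2⟩ := h hd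
        exact sp _ (by linarith) (by linarith)
      · rintro _ ⟨d, hd, rfl⟩
        obtain ⟨h1, h2⟩ := h hd
        show Real.sin (d + l + -(3 * l)) ≠ 0
        rcases lt_or_ge (d + l + -(3 * l)) 0 with h3 | h3
        · exact sm _ (by linarith) h3
        · exact absurd h3 (by linarith)

theorem gz_ne {k : O3} {w : ℂ} (h : w.re ∈ NK k) (s s' : Bool) : gz (s, .A) (s', ob3 k) w ≠ 0 := by
  obtain ⟨c, hc, h1⟩ := lw_gz (K := {w.re}) isCompact_singleton (k := k) (by simpa using h) s s'
  have h2 := h1 w rfl
  have h3 : 0 < c * Real.exp (rt (s, .A) (s', ob3 k) * |w.im|) := by positivity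
  exact norm_pos_iff.1 (h3.trans_le h2)

theorem gz_diff {k : O3} {w : ℂ} (h : w.re ∈ DK k) (s s' : Bool) : DifferentiableAt ℂ (gz (s, .A) (s', ob3 k)) w :=
  differentiableAt_gz _ _ (ok_dk h s s')

end NUP1S.HF

end
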