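import Pool.Agent.PHK.HostFD

/-!
# (P): local values at the points of the strings

* `cA_eq`, `cF_eq`, `cE_eq`, `oE_eq`: the regularised pair functions; `cF_two`, `oE_two`, `cE_two`;
* **`FH_node`**: `F (b i) = rb i * ∏ (b i - b i')^2`;
* **`EH_str`**, **`EH_zero`**: `E (d j) * rd j * ∏ (d j - b i)^2 = ∏ (d j - d j')`.
-/

set_option autoImplicit false
set_option linter.unusedSectionVars false

noncomputable section

open Complex MeasureTheory NUP1 Set Filter Topology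
open scoped Real
open NUP1.Bd (qg)
open Pool.Agent.PHK (sn sn_zero sn_ne sin_ne)

namespace NUP1S.HF

/-! ### the pair functions -/

/-- strip of the arguments of the pair functions -/
def Sw (w : ℂ) : Prop := l < w.re ∧ w.re < 3 * l

theorem two_l : (((2 * l : ℝ)) : ℂ) = 2 * l := by push_cast; ring

theorem Sw.s3 {w : ℂ} (h : Sw w) : sin (w + 3 * l) ≠ 0 := by
  have hl := Bd.l_pos
  have hpi := Bd.pi_eq
  obtain ⟨h1, h2⟩ := h
  refine sin_ne_strip ?_ ?_ <;> rw [add_re] <;> simp only [mul_re, ofReal_re, ofReal_im] <;>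
    norm_num <;> linarith

theorem Sw.s0 {w : ℂ} (h : Sw w) : sin w ≠ 0 := by
  have hl := Bd.l_pos
  have hpi := Bd.pi_eq
  obtain ⟨h1, h2⟩ := h
  exact sin_ne_strip (by linarith) (by linarith)

theorem Sw.s1 {w : ℂ} (h : Sw w) : sin (w + l) ≠ 0 := by
  have hl := Bd.l_pos
  have hpi := Bd.pi_eq
  obtain ⟨h1, h2⟩ := h
  refine sin_ne_strip ?_ ?_ <;> rw [add_re] <;> simp only [ofReal_re] <;> linarith

theorem Sw.q1r {w : ℂ} (h : Sw w) : q1r w ≠ 0 :=
  mul_ne_zero (mul_ne_zero h.s0 h.s1) h.s3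

theorem Sw.sn {w : ℂ} (h : Sw w) : sn (w - 2 * l) ≠ 0 := by
  have hl := Bd.l_pos
  have hpi := Bd.pi_eq
  obtain ⟨h1, h2⟩ := h
  by_cases h0 : w - 2 * l = 0
  · rw [h0, sn_zero]
    exact one_ne_zero
  · rw [sn_ne h0]
    refine div_ne_zero (sin_ne h0 ?_) h0
    rw [sub_re]
    simp only [mul_re, ofReal_re, ofReal_im]
    norm_num
    rw [abs_lt]
    constructor <;> linarith

theorem sin_snL (w : ℂ) : sin w = w * sn w := by
  by_cases h : w = 0
  · rw [h, sin_zero, zero_mul]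
  · rw [sn_ne h, mul_div_cancel₀ _ h]

theorem cA_eq {w : ℂ} (h : Sw w) : cA w = 1 / sin (w + 3 * l) ^ 2 / sin (w - 2 * l) ^ 2 :=
  cwz_AS h.1 h.2

/-- double pole at `2 l` -/
theorem cF_eq {w : ℂ} (h : Sw w) (h0 : w ≠ 2 * l) : cF w = (w - 2 * l) ^ 2 * cA w := by
  have n0 : w - 2 * l ≠ 0 := sub_ne_zero.2 h0
  have n1 := h.sn
  have n2 := h.s3
  rw [cA_eq h, cF, sin_snL (w - 2 * l)]
  field_simp

theorem cF_two : cF (2 * l) = 1 / sin (3 * l) ^ 2 := by
  have hpiC : (π : ℂ) = 8 * l := by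
    rw [Bd.pi_eq]
    push_cast
    ring
  have e : (2 * l + 3 * l : ℂ) = π - 3 * l := by
    rw [hpiC]
    ring
  unfold cF
  rw [sub_self, sn_zero, one_pow, one_mul, e, sin_pi_sub]

theorem cE_cA {w : ℂ} (h : Sw w) (h0 : w ≠ 2 * l) : cE w * (cA w * (w - 2 * l) ^ 2) = 1 := by
  have n0 : w - 2 * l ≠ 0 := sub_ne_zero.2 h0
  have n1 := h.sn
  have n2 := h.s3
  rw [cA_eq h, cE, sin_snL (w - 2 * l)]
  set v := w - 2 * l with hv
  set s := sin (w + 3 * l) with hs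
  field_simp

/-- simple zero at `2 l` -/
theorem oE_q1 {w : ℂ} (h : Sw w) : oE w * q1 w = w - 2 * l := by
  have n1 := h.sn
  have n2 := h.q1r
  rw [oE, q1_split, sin_snL (w - 2 * l)]
  field_simp

theorem oE_two : oE (2 * l) = 1 / (sin (2 * l) * sin (3 * l) * sin (5 * l)) := by
  unfold oE q1r
  rw [sub_self, sn_zero, one_mul]
  have e1 : (2 * l + l : ℂ) = 3 * l := by ring
  have e2 : (2 * l + 3 * l : ℂ) = 5 * l := by ring
  rw [e1, e2]

theorem sin_two_ne : sin (2 * l : ℂ) ≠ 0 ∧ sin (3 * l : ℂ) ≠ 0 ∧ sin (5 * l : ℂ) ≠ 0 := by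
  have hl := Bd.l_pos
  have hpi := Bd.pi_eq
  refine ⟨?_, ?_, ?_⟩ <;> refine sin_ne_strip ?_ ?_ <;>
    simp only [mul_re, ofReal_re, ofReal_im] <;> norm_num <;> linarith

section nodes

variable {α β ν : Type} [Fintype α] [Fintype β] [Fintype ν] [DecidableEq α] [DecidableEq β]
  [DecidableEq ν] {G Ei K : ℂ → ℂ} {zo : α → ℂ} {zt : β → ℂ} {ζ : ν → ℂ}

/-- **local value at a double pole** -/
theorem FH_node (hs : ∀ i i', Sw (zt i + 2 * l - zt i')) (inj : Function.Injective zt) (i : β) :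
    FH G zo zt K (zt i + 2 * l) = (G (zt i + 2 * l) * (∏ j, q1 (zt i + 2 * l - zo j)) *
      (1 / sin (3 * l) ^ 2) * (∏ i' ∈ Finset.univ.erase i, cA (zt i + 2 * l - zt i')) *
      K (zt i + 2 * l)) * ∏ i' ∈ Finset.univ.erase i, (zt i + 2 * l - (zt i' + 2 * l)) ^ 2 := by
  unfold FH
  have e1 : ∏ i', cF (zt i + 2 * l - zt i') = (1 / sin (3 * l) ^ 2) *
      ((∏ i' ∈ Finset.univ.erase i, cA (zt i + 2 * l - zt i')) *
        ∏ i' ∈ Finset.univ.erase i, (zt i + 2 * l - (zt i' + 2 * l)) ^ 2) := by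
    rw [← Finset.mul_prod_erase Finset.univ _ (Finset.mem_univ i), ← Finset.prod_mul_distrib]
    congr 1
    · rw [add_sub_cancel_left, cF_two]
    · refine Finset.prod_congr rfl fun i' hi' => ?_
      have hne : i' ≠ i := Finset.ne_of_mem_erase hi'
      rw [cF_eq (hs i i') ?_]
      · ring
      · intro h
        apply hne
        apply inj
        linear_combination -h
  rw [e1]
  ring

theorem prod_erase_ite {ι M : Type*} [Fintype ι] [DecidableEq ι] [CommMonoid M] (a : ι)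
    (f : ι → M) : ∏ j ∈ Finset.univ.erase a, f j = ∏ j, if j = a then 1 else f j := by
  rw [← Finset.mul_prod_erase Finset.univ _ (Finset.mem_univ a), if_pos rfl, one_mul]
  exact Finset.prod_congr rfl fun j hj => (if_neg (Finset.ne_of_mem_erase hj)).symm

theorem prod_lexS {M : Type*} [CommMonoid M] (g : α ⊕ₗ ν → M) :
    ∏ j, g j = (∏ i, g (toLex (Sum.inl i))) * ∏ j, g (toLex (Sum.inr j)) := by
  rw [← Fintype.prod_sum_type (f := fun j => g (toLex j))]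
  exact (Equiv.prod_comp (toLex : α ⊕ ν ≃ _) g).symm

theorem prod_lex_inl {M : Type*} [CommMonoid M] [DecidableEq (α ⊕ₗ ν)] (i : α)
    (f : α ⊕ₗ ν → M) : ∏ j ∈ Finset.univ.erase (toLex (Sum.inl i)), f j =
      (∏ i' ∈ Finset.univ.erase i, f (toLex (Sum.inl i'))) * ∏ j, f (toLex (Sum.inr j)) := by
  rw [prod_erase_ite, prod_erase_ite, prod_lexS]
  congr 1
  · refine Finset.prod_congr rfl fun i' _ => ?_
    have e : (toLex (Sum.inl i') : α ⊕ₗ ν) = toLex (Sum.inl i) ↔ i' = i :=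
      ⟨fun h => Sum.inl_injective (toLex.injective h), fun h => by rw [h]⟩
    simp only [e]
  · refine Finset.prod_congr rfl fun j _ => if_neg fun h => ?_
    exact Sum.inr_ne_inl (toLex.injective h)

theorem prod_lex_inr {M : Type*} [CommMonoid M] [DecidableEq (α ⊕ₗ ν)] (i : ν)
    (f : α ⊕ₗ ν → M) : ∏ j ∈ Finset.univ.erase (toLex (Sum.inr i)), f j =
      (∏ i', f (toLex (Sum.inl i'))) * ∏ j ∈ Finset.univ.erase i, f (toLex (Sum.inr j)) := by
  rw [prod_erase_ite, prod_erase_ite, prod_lexS]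
  congr 1
  · refine Finset.prod_congr rfl fun j _ => if_neg fun h => ?_
    exact Sum.inl_ne_inr (toLex.injective h)
  · refine Finset.prod_congr rfl fun i' _ => ?_
    have e : (toLex (Sum.inr i') : α ⊕ₗ ν) = toLex (Sum.inr i) ↔ i' = i :=
      ⟨fun h => Sum.inr_injective (toLex.injective h), fun h => by rw [h]⟩
    simp only [e]

theorem dH_inl (i : α) : dH zo ζ (toLex (Sum.inl i)) = zo i + 2 * l := rfl

theorem dH_inr (j : ν) : dH zo ζ (toLex (Sum.inr j)) = ζ j := rfl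

/-- the strings of the other species -/
theorem prod_cE {d : ℂ} (hst : ∀ i, Sw (d - zt i)) (hne : ∀ i, d ≠ zt i + 2 * l) :
    (∏ i, cE (d - zt i)) * ((∏ i, cA (d - zt i)) * ∏ i, (d - (zt i + 2 * l)) ^ 2) = 1 := by
  rw [← Finset.prod_mul_distrib, ← Finset.prod_mul_distrib]
  refine Finset.prod_eq_one fun i _ => ?_
  have h := cE_cA (hst i) fun h => hne i (by linear_combination h)
  rw [← h]
  congr 3
  ring

/-- **local value at the zero of an own string** -/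
theorem EH_str [DecidableEq (α ⊕ₗ ν)] (hs : ∀ i i', Sw (zo i + 2 * l - zo i'))
    (hst : ∀ i i', Sw (zo i + 2 * l - zt i')) (hne : ∀ i i', zo i ≠ zt i')
    (hK : ∀ i, K (zo i + 2 * l) ≠ 0)
    (hE : ∀ i, G (zo i + 2 * l) * Ei (zo i + 2 * l) = ∏ j, (zo i + 2 * l - ζ j)) (i : α) :
    EH Ei zo zt K (dH zo ζ (toLex (Sum.inl i))) *
      (G (zo i + 2 * l) * (sin (2 * l) * sin (3 * l) * sin (5 * l)) *
        (∏ i' ∈ Finset.univ.erase i, q1 (zo i + 2 * l - zo i')) *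
        (∏ i', cA (zo i + 2 * l - zt i')) * K (zo i + 2 * l)) *
      ∏ i', (dH zo ζ (toLex (Sum.inl i)) - (zt i' + 2 * l)) ^ 2 =
    ∏ j' ∈ Finset.univ.erase (toLex (Sum.inl i)), (dH zo ζ (toLex (Sum.inl i)) - dH zo ζ j') := by
  simp only [dH_inl]
  have e1 : oE (zo i + 2 * l - zo i) * (sin (2 * l) * sin (3 * l) * sin (5 * l)) = 1 := by
    obtain ⟨h1, h2, h3⟩ := sin_two_ne
    rw [add_sub_cancel_left, oE_two, one_div, inv_mul_cancel₀ (mul_ne_zero (mul_ne_zero h1 h2) h3)]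
  have e2 : (∏ i' ∈ Finset.univ.erase i, oE (zo i + 2 * l - zo i')) *
      (∏ i' ∈ Finset.univ.erase i, q1 (zo i + 2 * l - zo i')) =
      ∏ i' ∈ Finset.univ.erase i, (zo i + 2 * l - (zo i' + 2 * l)) := by
    rw [← Finset.prod_mul_distrib]
    refine Finset.prod_congr rfl fun i' _ => ?_
    rw [oE_q1 (hs i i')]
    ring
  have e3 := prod_cE (hst i) fun i' h => hne i i' (by linear_combination h)
  have e4 : K (zo i + 2 * l) * (K (zo i + 2 * l))⁻¹ = 1 := mul_inv_cancel₀ (hK i)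
  have e5 := hE i
  rw [prod_lex_inl]
  simp only [dH_inl, dH_inr]
  rw [← e2, ← e5]
  unfold EH
  rw [← Finset.mul_prod_erase Finset.univ (fun i' => oE (zo i + 2 * l - zo i')) (Finset.mem_univ i)]
  set c1 := ∏ i' ∈ Finset.univ.erase i, oE (zo i + 2 * l - zo i')
  set c2 := ∏ i' ∈ Finset.univ.erase i, q1 (zo i + 2 * l - zo i')
  set c3 := ∏ i', cA (zo i + 2 * l - zt i')
  set c4 := ∏ i', cE (zo i + 2 * l - zt i')
  set c5 := ∏ i', (zo i + 2 * l - (zt i' + 2 * l)) ^ 2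
  set c6 := sin (2 * l : ℂ) * sin (3 * l) * sin (5 * l)
  set c7 := oE (zo i + 2 * l - zo i)
  set c8 := K (zo i + 2 * l)
  set c9 := G (zo i + 2 * l)
  set c10 := Ei (zo i + 2 * l)
  linear_combination (c10 * c9 * c1 * c2) * (c4 * (c3 * c5) * (c8 * c8⁻¹) * e1 +
    c8 * c8⁻¹ * e3 + e4)

/-- **local value at a zero of the one body function** -/
theorem EH_zero [DecidableEq (α ⊕ₗ ν)] {ρ : ν → ℂ} (hs : ∀ j i', Sw (ζ j - zo i'))
    (hst : ∀ j i', Sw (ζ j - zt i')) (hne : ∀ j i', ζ j ≠ zt i' + 2 * l)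
    (hK : ∀ j, K (ζ j) ≠ 0)
    (hρ : ∀ j, Ei (ζ j) * ρ j = ∏ j' ∈ Finset.univ.erase j, (ζ j - ζ j')) (j : ν) :
    EH Ei zo zt K (dH zo ζ (toLex (Sum.inr j))) *
      (ρ j * (∏ i', q1 (ζ j - zo i')) * (∏ i', cA (ζ j - zt i')) * K (ζ j)) *
      ∏ i', (dH zo ζ (toLex (Sum.inr j)) - (zt i' + 2 * l)) ^ 2 =
    ∏ j' ∈ Finset.univ.erase (toLex (Sum.inr j)), (dH zo ζ (toLex (Sum.inr j)) - dH zo ζ j') := by
  simp only [dH_inr]
  have e2 : (∏ i', oE (ζ j - zo i')) * (∏ i', q1 (ζ j - zo i')) =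
      ∏ i', (ζ j - (zo i' + 2 * l)) := by
    rw [← Finset.prod_mul_distrib]
    refine Finset.prod_congr rfl fun i' _ => ?_
    rw [oE_q1 (hs j i')]
    ring
  have e3 := prod_cE (hst j) (hne j)
  have e4 : K (ζ j) * (K (ζ j))⁻¹ = 1 := mul_inv_cancel₀ (hK j)
  rw [prod_lex_inr]
  simp only [dH_inl, dH_inr]
  rw [← e2, ← hρ j]
  unfold EH
  set c1 := ∏ i', oE (ζ j - zo i')
  set c2 := ∏ i', q1 (ζ j - zo i')
  set c3 := ∏ i', cA (ζ j - zt i')
  set c4 := ∏ i', cE (ζ j - zt i')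
  set c5 := ∏ i', (ζ j - (zt i' + 2 * l)) ^ 2
  set c8 := K (ζ j)
  set c10 := Ei (ζ j)
  linear_combination (c10 * ρ j * c1 * c2) * (c8 * c8⁻¹ * e3 + e4)

end nodes

end NUP1S.HF

end
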