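import Pool.Agent.PHK.HostFD

/-!
# PLAX (P): the host of the holes, one species (helper45)

**`sp6_of`** : the data `FH`, `EH` of the holes satisfy `Sp6`.
-/

set_option autoImplicit false
set_option linter.unusedSectionVars false

noncomputable section

open Complex MeasureTheory NUP1 Set Filter Topology
open scoped Real

namespace NUP1S.HF

open NUP1.Bd (qg cwz chg sin_pos_of Ob)
open Pool.Agent.PHK (sn sn_ne sn_zero sn_diff sin_ne)

/-! ### `sin z / z` -/

private theorem sin_sn (w : ℂ) : sin w = w * sn w := by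
  by_cases h : w = 0
  · rw [h, Complex.sin_zero, zero_mul]
  · rw [sn_ne h]
    field_simp

theorem sn_ne0 {w : ℂ} (h : |w.re| < Real.pi) : sn w ≠ 0 := by
  by_cases h0 : w = 0
  · rw [h0, sn_zero]
    exact one_ne_zero
  · rw [sn_ne h0]
    exact div_ne_zero (sin_ne h0 h) h0

theorem bdd_sn (K : Set ℝ) : Bdd K 1 sn := by
  have h1 : IsCompact (Metric.closedBall (0 : ℂ) 1) := isCompact_closedBall 0 1
  obtain ⟨C, hC⟩ := h1.exists_bound_of_continuousOn sn_diff.continuous.continuousOn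
  refine ⟨max C 1, le_max_of_le_right zero_le_one, fun z _ => ?_⟩
  rw [one_mul]
  have h2 : 1 ≤ Real.exp |z.im| := Real.one_le_exp (abs_nonneg _)
  rcases le_or_gt ‖z‖ 1 with h3 | h3
  · have h4 := hC z (by simpa using h3)
    have h5 : (0 : ℝ) ≤ max C 1 := le_max_of_le_right zero_le_one
    calc ‖sn z‖ ≤ C := h4
      _ ≤ max C 1 * 1 := by rw [mul_one]; exact le_max_left _ _
      _ ≤ _ := mul_le_mul_of_nonneg_left h2 h5
  · have h0 : z ≠ 0 := by
      rintro rfl
      rw [norm_zero] at h3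
      linarith
    rw [sn_ne h0, norm_div]
    have h4 : ‖sin z‖ ≤ Real.exp |z.im| := by
      have := (Bd.norm_sin_add_le z 0).trans (Bd.cosh_le_exp _)
      simpa using this
    rw [div_le_iff₀ (by linarith)]
    have h5 : (1 : ℝ) ≤ max C 1 := le_max_right _ _
    have h6 : 0 < Real.exp |z.im| := Real.exp_pos _
    calc ‖sin z‖ ≤ 1 * Real.exp |z.im| * 1 := by linarith
      _ ≤ max C 1 * Real.exp |z.im| * ‖z‖ := by
          refine mul_le_mul (mul_le_mul_of_nonneg_right h5 h6.le) h3.le zero_le_one (by positivity)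

theorem exp_lin {η r t : ℝ} (hη : 0 < η) (hr : 0 ≤ r) (ht : 0 ≤ t) : r + t ≤ (r + 1 / η) * Real.exp (η * t) := by
  have h1 : 1 ≤ Real.exp (η * t) := Real.one_le_exp (by positivity)
  have h2 : η * t ≤ Real.exp (η * t) := by linarith [Real.add_one_le_exp (η * t)]
  have h3 : t ≤ 1 / η * Real.exp (η * t) := by
    rw [one_div_mul_eq_div, le_div_iff₀ hη]
    linarith
  nlinarith

theorem bdd_sn_inv {r η : ℝ} (hr : 0 ≤ r) (hr' : r < Real.pi) (hη : 0 < η) :
    Bdd (Icc (-r) r) (-1 + η) (fun w => (sn w)⁻¹) := by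
  have hc : IsCompact (Icc (-r) r ×ℂ Icc (-1 : ℝ) 1) := isCompact_Icc.reProdIm isCompact_Icc
  have h0 : ∀ w ∈ Icc (-r) r ×ℂ Icc (-1 : ℝ) 1, sn w ≠ 0 := by
    intro w hw
    rw [mem_reProdIm] at hw
    exact sn_ne0 ((abs_le.2 hw.1).trans_lt hr')
  obtain ⟨C, hC⟩ := hc.exists_bound_of_continuousOn
    (sn_diff.continuous.continuousOn.inv₀ h0)
  have e1 := Real.exp_pos 1
  refine ⟨max C 0 * Real.exp 1 + 4 * (r + 1 / η), by positivity, fun w hw => ?_⟩
  have hD : 0 ≤ max C 0 * Real.exp 1 := by positivity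
  have hD2 : 0 ≤ 4 * (r + 1 / η) := by positivity
  rcases le_or_gt |w.im| 1 with h1 | h1
  · have h2 := hC w (mem_reProdIm.2 ⟨hw, abs_le.1 h1⟩)
    have h3 : Real.exp (-1) ≤ Real.exp ((-1 + η) * |w.im|) := by
      refine Real.exp_le_exp.2 ?_
      have := mul_nonneg hη.le (abs_nonneg w.im)
      nlinarith
    have h4 : 0 ≤ Real.exp ((-1 + η) * |w.im|) := (Real.exp_pos _).le
    have h5 : Real.exp 1 * Real.exp (-1) = 1 := by rw [← Real.exp_add]; simp
    calc ‖(sn w)⁻¹‖ ≤ C := h2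
      _ ≤ max C 0 * (Real.exp 1 * Real.exp (-1)) := by rw [h5, mul_one]; exact le_max_left _ _
      _ = max C 0 * Real.exp 1 * Real.exp (-1) := by ring
      _ ≤ max C 0 * Real.exp 1 * Real.exp ((-1 + η) * |w.im|) := mul_le_mul_of_nonneg_left h3 hD
      _ ≤ _ := mul_le_mul_of_nonneg_right (by linarith) h4
  · have h00 : w ≠ 0 := by
      rintro rfl
      rw [Complex.zero_im, abs_zero] at h1
      linarith
    show ‖(sn w)⁻¹‖ ≤ _
    rw [sn_ne h00, inv_div, norm_div]
    have h2 := abs_sinh_le_norm_sin w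
    have h3 : Real.exp |w.im| / 4 ≤ |Real.sinh w.im| := by
      rw [Real.abs_sinh]
      have h4 : Real.exp (-|w.im|) ≤ Real.exp |w.im| / 2 := by
        have h5 : Real.exp (-|w.im|) * Real.exp |w.im| = 1 := by rw [← Real.exp_add]; simp
        have h6 : (2 : ℝ) ≤ Real.exp |w.im| := by
          have := Real.add_one_le_exp |w.im|
          linarith
        have h7 : 0 < Real.exp (-|w.im|) := Real.exp_pos _
        nlinarith
      have h8 : 0 < Real.exp |w.im| := Real.exp_pos _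
      rw [Real.sinh_eq]
      linarith
    have h4 : ‖w‖ ≤ r + |w.im| := by
      refine (Complex.norm_le_abs_re_add_abs_im w).trans ?_
      have := abs_le.2 hw
      linarith
    have h5 : 0 < Real.exp |w.im| := Real.exp_pos _
    have h6 : 0 < ‖sin w‖ := by linarith
    rw [div_le_iff₀ h6]
    have h7 := exp_lin hη hr (abs_nonneg w.im)
    have h8 : Real.exp ((-1 + η) * |w.im|) * Real.exp |w.im| = Real.exp (η * |w.im|) := by
      rw [← Real.exp_add]
      congr 1
      ring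
    have h9 : 0 ≤ Real.exp ((-1 + η) * |w.im|) := (Real.exp_pos _).le
    calc ‖w‖ ≤ (r + 1 / η) * Real.exp (η * |w.im|) := h4.trans h7
      _ = 4 * (r + 1 / η) * Real.exp ((-1 + η) * |w.im|) * (Real.exp |w.im| / 4) := by
          rw [← h8]
          ring
      _ ≤ (max C 0 * Real.exp 1 + 4 * (r + 1 / η)) * Real.exp ((-1 + η) * |w.im|) * ‖sin w‖ := by
          refine mul_le_mul (mul_le_mul_of_nonneg_right (by linarith) h9) (h3.trans h2) (by positivity) (by positivity)

theorem Bdd.mono' {K K' : Set ℝ} {s : ℝ} {g : ℂ → ℂ} (h : Bdd K s g) (hK : K' ⊆ K) : Bdd K' s g := by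
  obtain ⟨C, hC, h⟩ := h
  exact ⟨C, hC, fun z hz => h z (hK hz)⟩

theorem Bdd.le' {K : Set ℝ} {s s' : ℝ} {g : ℂ → ℂ} (h : Bdd K s g) (hs : s ≤ s') : Bdd K s' g := by
  obtain ⟨C, hC, h⟩ := h
  exact ⟨C, hC, fun z hz => (h z hz).trans (mul_le_mul_of_nonneg_left
    (Real.exp_le_exp.2 (mul_le_mul_of_nonneg_right hs (abs_nonneg _))) hC)⟩

theorem bdd_prod' {ι : Type*} [Fintype ι] {K : Set ℝ} {r : ℝ} {f : ι → ℂ → ℂ} (h : ∀ b, Bdd K r (f b)) :
    Bdd K (Fintype.card ι * r) fun u => ∏ b, f b u := by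
  choose C hC h using h
  refine ⟨∏ b, C b, Finset.prod_nonneg fun b _ => hC b, fun u hu => ?_⟩
  rw [norm_prod, mul_assoc, Real.exp_nat_mul, ← Finset.card_univ, ← Finset.prod_const, ← Finset.prod_mul_distrib]
  exact Finset.prod_le_prod (fun b _ => norm_nonneg _) fun b _ => h b u hu

theorem Lw.inv {K : Set ℝ} {s : ℝ} {g : ℂ → ℂ} (h : Lw K s g) : Bdd K (-s) fun w => (g w)⁻¹ := by
  obtain ⟨c, hc, h⟩ := h
  refine ⟨c⁻¹, by positivity, fun z hz => ?_⟩
  have h1 := h z hz
  have h2 : 0 < c * Real.exp (s * |z.im|) := by positivity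
  rw [norm_inv, neg_mul, Real.exp_neg, ← mul_inv]
  exact inv_anti₀ h2 h1

/-! ### the factors -/

theorem abs_lt_pi {w : ℂ} (h1 : l < w.re) (h2 : w.re < 3 * l) : |(w - 2 * l).re| < Real.pi := by
  have hl := Bd.l_pos
  have hpi := Bd.pi_eq
  have e : (w - 2 * l).re = w.re - 2 * l := by simp
  rw [e, abs_lt]
  constructor <;> linarith

theorem q1r_ne {w : ℂ} (h1 : l < w.re) (h2 : w.re < 3 * l) : q1r w ≠ 0 := by
  have hl := Bd.l_pos
  have hpi := Bd.pi_eq
  unfold q1r
  refine mul_ne_zero (mul_ne_zero ?_ ?_) ?_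
  · exact sin_ne_strip (by linarith) (by linarith)
  · refine sin_ne_strip ?_ ?_ <;> rw [add_re, ofReal_re] <;> linarith
  · refine sin_ne_strip ?_ ?_ <;> rw [add_re] <;> simp only [mul_re, ofReal_re, ofReal_im] <;> norm_num <;> linarith

theorem sin3_ne {w : ℂ} (h1 : l < w.re) (h2 : w.re < 3 * l) : sin (w + 3 * l) ≠ 0 := by
  have hl := Bd.l_pos
  have hpi := Bd.pi_eq
  refine sin_ne_strip ?_ ?_ <;> rw [add_re] <;> simp only [mul_re, ofReal_re, ofReal_im] <;> norm_num <;> linarith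

theorem q1_oE {w : ℂ} (h1 : l < w.re) (h2 : w.re < 3 * l) : q1 w * oE w = w - 2 * l := by
  have a1 := sn_ne0 (abs_lt_pi h1 h2)
  have a2 := q1r_ne h1 h2
  unfold oE
  rw [q1_split, sin_sn]
  field_simp

theorem cF_cE {w : ℂ} (h1 : l < w.re) (h2 : w.re < 3 * l) : cF w * cE w = 1 := by
  have a1 := sn_ne0 (abs_lt_pi h1 h2)
  have a2 := sin3_ne h1 h2
  unfold cF cE
  rw [one_div, inv_mul_cancel₀ (mul_ne_zero (pow_ne_zero 2 a1) (pow_ne_zero 2 a2))]

theorem cA_cF {w : ℂ} (h1 : l < w.re) (h2 : w.re < 3 * l) (h0 : w ≠ 2 * l) : cA w * (w - 2 * l) ^ 2 = cF w := by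
  have a1 := sn_ne0 (abs_lt_pi h1 h2)
  have a2 := sin3_ne h1 h2
  have a3 : w - 2 * l ≠ 0 := sub_ne_zero.2 h0
  have e : cA w = cwz .A .S w := rfl
  rw [e, cwz_AS h1 h2]
  unfold cF
  rw [sin_sn (w - 2 * l)]
  generalize w - 2 * (l : ℂ) = v at *
  generalize sin (w + 3 * (l : ℂ)) = c at *
  field_simp

theorem cF_diff {w : ℂ} (h1 : l < w.re) (h2 : w.re < 3 * l) : DifferentiableAt ℂ cF w := by
  have a1 := sn_ne0 (abs_lt_pi h1 h2)
  have a2 := sin3_ne h1 h2
  unfold cF
  have d1 : DifferentiableAt ℂ (fun w : ℂ => sn (w - 2 * l)) w := (sn_diff _).comp w (by fun_prop)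
  exact DifferentiableAt.div (by fun_prop) ((d1.pow 2).mul (by fun_prop)) (mul_ne_zero (pow_ne_zero 2 a1) (pow_ne_zero 2 a2))

theorem cE_diff (w : ℂ) : DifferentiableAt ℂ cE w := by
  unfold cE
  have d1 : DifferentiableAt ℂ (fun w : ℂ => sn (w - 2 * l)) w := (sn_diff _).comp w (by fun_prop)
  exact (d1.pow 2).mul (by fun_prop)

theorem oE_diff {w : ℂ} (h1 : l < w.re) (h2 : w.re < 3 * l) : DifferentiableAt ℂ oE w := by
  have a1 := sn_ne0 (abs_lt_pi h1 h2)
  have a2 := q1r_ne h1 h2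
  unfold oE
  have d1 : DifferentiableAt ℂ (fun w : ℂ => sn (w - 2 * l)) w := (sn_diff _).comp w (by fun_prop)
  have d2 : DifferentiableAt ℂ q1r w := by unfold q1r; fun_prop
  exact DifferentiableAt.div (by fun_prop) (d1.mul d2) (mul_ne_zero a1 a2)

/-- bounds of a factor of the inverse -/
theorem bdd_cE (K : Set ℝ) : Bdd K 4 cE := by
  have h1 : Bdd K 1 fun w => sn (w - (2 * l : ℝ)) := by
    obtain ⟨C, hC, h⟩ := bdd_sn univ
    refine ⟨C, hC, fun z _ => ?_⟩
    have := h (z - (2 * l : ℝ)) (mem_univ _)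
    rwa [sub_im, ofReal_im, sub_zero] at this
  have h2 : Bdd K 1 fun w : ℂ => sin (w + (3 * l : ℝ)) := by
    refine ⟨1, zero_le_one, fun z _ => ?_⟩
    rw [one_mul, one_mul]
    exact (Bd.norm_sin_add_le z _).trans (Bd.cosh_le_exp _)
  have h3 := ((h1.mul h1).mul (h2.mul h2)).rate (by norm_num : (1 : ℝ) + 1 + (1 + 1) = 4)
  obtain ⟨C, hC, h⟩ := h3
  refine ⟨C, hC, fun z hz => (le_of_eq ?_).trans (h z hz)⟩
  unfold cE
  push_cast
  congr 1
  ring

theorem bdd_oE {u v η : ℝ} (hu : l < u) (hv : v < 3 * l) (hη : 0 < η) : Bdd (Icc u v) (-4 + η) oE := by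
  have hl := Bd.l_pos
  have hpi := Bd.pi_eq
  have h1 : Bdd (Icc u v) (-1 + η) fun w => (sn (w - (2 * l : ℝ)))⁻¹ := by
    obtain ⟨C, hC, h⟩ := bdd_sn_inv (r := l) (by linarith) (by linarith) hη
    refine ⟨C, hC, fun z hz => ?_⟩
    have := h (z - (2 * l : ℝ)) (by
      rw [sub_re, ofReal_re]
      exact ⟨by linarith [hz.1], by linarith [hz.2]⟩)
    rwa [sub_im, ofReal_im, sub_zero] at this
  have hn : ∀ d ∈ Icc u v, l < d ∧ d < 3 * l := fun d hd => ⟨by linarith [hd.1], by linarith [hd.2]⟩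
  have h2 := Lw.inv (lw_q1r (K := Icc u v) isCompact_Icc (fun d hd => by
      have := hn d hd
      exact (sin_pos_of (by linarith) (by linarith)).ne') (fun d hd => by
      have := hn d hd
      exact (sin_pos_of (by linarith) (by linarith)).ne') (fun d hd => by
      have := hn d hd
      exact (sin_pos_of (by linarith) (by linarith)).ne'))
  obtain ⟨C, hC, h⟩ := (h1.mul h2).rate (by ring : -1 + η + -3 = -4 + η)
  refine ⟨C, hC, fun z hz => (le_of_eq ?_).trans (h z hz)⟩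
  unfold oE
  push_cast
  rw [one_div, mul_inv]

/-! ### one species -/

variable {α β ν : Type} [Fintype α] [Fintype β] [Fintype ν]

/-- the hypotheses of a species: `G`, its inverse `Ei`, the product `K` of the other objects -/
structure HFin (xl : Bool → ℝ) (a a₁ b₁ b₂ yl κ κ' q0 : ℝ) (s : Bool) (zo : α → ℂ) (zt : β → ℂ) (ζ : ν → ℂ)
    (G Ei K : ℂ → ℂ) (x y rE rK : ℝ) : Prop where
  ho : ∀ i, x < (zo i).re + 2 * l ∧ (zo i).re + 2 * l < y
  ht : ∀ i, x < (zt i).re + 2 * l ∧ (zt i).re + 2 * l < y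
  hζ : ∀ j, xl false < (ζ j).re ∧ (ζ j).re < xl true
  inj : Function.Injective (dH zo ζ)
  bd : ∀ i j, bT zt i ≠ dH zo ζ j
  gan : DifferentiableOn ℂ G (OS a₁ b₁)
  kan : DifferentiableOn ℂ K (OS a₁ b₁)
  ean : DifferentiableOn ℂ Ei (OS a b₂)
  kin : DifferentiableOn ℂ (fun u => (K u)⁻¹) (OS a b₂)
  k0 : ∀ u ∈ OS a b₂, K u ≠ 0
  ge : ∀ u ∈ OS a₁ b₁, u ∈ OS a b₂ → G u * Ei u = ∏ j, (u - ζ j)
  gl : ∀ u : ℂ, u.re = xl false ∨ u.re = xl true →
    G u * Ei u = ∏ j, (u - ζ j) ∨ (G u = 0 ∧ Ei u = 0)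
  eb : Bdd (Icc (xl false) (xl true)) rE Ei
  kb : Bdd (Icc (xl false) (xl true)) (-rK) fun u => (K u)⁻¹
  rate : rE - 4 * Fintype.card α + 4 * Fintype.card β - rK < κ' + 2 * q0 * (sg s : ℤ)
  gm : Measurable G
  km : Measurable K
  gb : Bdd {yl} (-(κ + 2 * q0 * (sg s : ℤ)) - (4 * Fintype.card α - 4 * Fintype.card β + rK)) G
  kby : Bdd {yl} rK K

theorem prod_dH (zo : α → ℂ) (ζ : ν → ℂ) (f : ℂ → ℂ) :
    ∏ j, f (dH zo ζ j) = (∏ i, f (zo i + 2 * l)) * ∏ j, f (ζ j) := by
  unfold dH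
  rw [← Fintype.prod_equiv toLex (fun j : α ⊕ ν => f (Sum.elim (fun i => zo i + 2 * l) ζ j)) _ (fun j => rfl),
    Fintype.prod_sum_type]
  rfl

/-- **one species** -/
theorem sp6_of {xl : Bool → ℝ} {a a₁ x y b₁ b₂ yl κ κ' q0 rE rK : ℝ} {s : Bool} {zo : α → ℂ} {zt : β → ℂ}
    {ζ : ν → ℂ} {G Ei K : ℂ → ℂ} (M : Geo6 xl a a₁ x y b₁ b₂ yl)
    (h : HFin xl a a₁ b₁ b₂ yl κ κ' q0 s zo zt ζ G Ei K x y rE rK) :
    Sp6 xl a a₁ x y b₁ b₂ yl κ κ' q0 s (bT zt) (dH zo ζ) (WH G zo zt K) (FH G zo zt K) (EH Ei zo zt K) := by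
  have hl := Bd.l_pos
  have hpi := Bd.pi_eq
  obtain ⟨M1, M2, M3, M4, M5, M6, M7, M8, M9, M10, M11⟩ := M
  have hre : ∀ z : ℂ, (z + 2 * l).re = z.re + 2 * l := fun z => by simp
  -- the range of the strings
  have rg : ∀ z u : ℂ, x < z.re + 2 * l → z.re + 2 * l < y → a < u.re → u.re < a + l → l < (u - z).re ∧ (u - z).re < 3 * l := by
    intro z u h1 h2 h3 h4
    rw [sub_re]
    constructor <;> linarith
  have r1 : ∀ u ∈ OS a₁ b₁, a < u.re ∧ u.re < a + l := fun u hu => ⟨by linarith [hu.1], by linarith [hu.2]⟩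
  have r2 : ∀ u ∈ OS a b₂, a < u.re ∧ u.re < a + l := fun u hu => ⟨hu.1, by linarith [hu.2]⟩
  constructor
  · intro i
    unfold bT
    rw [hre]
    exact h.ht i
  · intro j
    rcases j with i | j
    · show xl false < (zo i + 2 * l).re ∧ (zo i + 2 * l).re < xl true
      rw [hre]
      have := h.ho i
      constructor <;> linarith
    · exact h.hζ j
  · exact h.inj
  · exact h.bd
  · -- F
    intro u hu
    obtain ⟨u1, u2⟩ := r1 u hu
    have hop : OS a₁ b₁ ∈ 𝓝 u := (isOpen_OS _ _).mem_nhds hu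
    refine DifferentiableAt.differentiableWithinAt ?_
    unfold FH
    refine ((((h.gan u hu).differentiableAt hop).mul ?_).mul ?_).mul ((h.kan u hu).differentiableAt hop)
    · refine DifferentiableAt.fun_finsetProd fun i _ => ?_
      unfold q1
      fun_prop
    · refine DifferentiableAt.fun_finsetProd fun i _ => ?_
      obtain ⟨h1, h2⟩ := rg (zt i) u (h.ht i).1 (h.ht i).2 u1 u2
      exact DifferentiableAt.comp (g := cF) (f := fun u => u - zt i) u (cF_diff h1 h2) (by fun_prop)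
  · -- E
    intro u hu
    obtain ⟨u1, u2⟩ := r2 u hu
    have hop : OS a b₂ ∈ 𝓝 u := (isOpen_OS _ _).mem_nhds hu
    refine DifferentiableAt.differentiableWithinAt ?_
    unfold EH
    refine ((((h.ean u hu).differentiableAt hop).mul ?_).mul ?_).mul ((h.kin u hu).differentiableAt hop)
    · refine DifferentiableAt.fun_finsetProd fun i _ => ?_
      obtain ⟨h1, h2⟩ := rg (zo i) u (h.ho i).1 (h.ho i).2 u1 u2
      exact DifferentiableAt.comp (g := oE) (f := fun u => u - zo i) u (oE_diff h1 h2) (by fun_prop)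
    · refine DifferentiableAt.fun_finsetProd fun i _ => ?_
      exact DifferentiableAt.comp (g := cE) (f := fun u => u - zt i) u (cE_diff _) (by fun_prop)
  · -- F E
    intro u hu hu'
    obtain ⟨u1, u2⟩ := r1 u hu
    have e1 : ∏ j, (u - dH zo ζ j) = (∏ i, (u - (zo i + 2 * l))) * ∏ j, (u - ζ j) := prod_dH zo ζ fun z => u - z
    rw [e1, ← h.ge u hu hu']
    unfold FH EH
    have e2 : (∏ i, q1 (u - zo i)) * ∏ i, oE (u - zo i) = ∏ i, (u - (zo i + 2 * l)) := by
      rw [← Finset.prod_mul_distrib]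
      refine Finset.prod_congr rfl fun i _ => ?_
      obtain ⟨h1, h2⟩ := rg (zo i) u (h.ho i).1 (h.ho i).2 u1 u2
      rw [q1_oE h1 h2]
      ring
    have e3 : (∏ i, cF (u - zt i)) * ∏ i, cE (u - zt i) = 1 := by
      rw [← Finset.prod_mul_distrib]
      refine Finset.prod_eq_one fun i _ => ?_
      obtain ⟨h1, h2⟩ := rg (zt i) u (h.ht i).1 (h.ht i).2 u1 u2
      exact cF_cE h1 h2
    have e4 : K u * (K u)⁻¹ = 1 := mul_inv_cancel₀ (h.k0 u hu')
    rw [← e2]
    calc _ = G u * Ei u * ((∏ i, q1 (u - zo i)) * ∏ i, oE (u - zo i)) *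
          ((∏ i, cF (u - zt i)) * ∏ i, cE (u - zt i)) * (K u * (K u)⁻¹) := by ring
      _ = _ := by
          rw [e3, e4]
          ring
  · -- the hole lines
    intro u hu
    have hu' : u ∈ OS a b₂ := by
      rcases hu with hu | hu <;> constructor <;> rw [hu] <;> linarith
    obtain ⟨u1, u2⟩ := r2 u hu'
    have e1 : ∏ j, (u - dH zo ζ j) = (∏ i, (u - (zo i + 2 * l))) * ∏ j, (u - ζ j) := prod_dH zo ζ fun z => u - z
    rw [e1]
    rcases h.gl u hu with hgl | hgl
    swap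
    · right
      unfold WH EH
      rw [hgl.1, hgl.2]
      simp
    left
    rw [← hgl]
    unfold WH EH
    have e2 : (∏ i, q1 (u - zo i)) * ∏ i, oE (u - zo i) = ∏ i, (u - (zo i + 2 * l)) := by
      rw [← Finset.prod_mul_distrib]
      refine Finset.prod_congr rfl fun i _ => ?_
      obtain ⟨h1, h2⟩ := rg (zo i) u (h.ho i).1 (h.ho i).2 u1 u2
      rw [q1_oE h1 h2]
      ring
    have e3 : (∏ i, cA (u - zt i)) * (∏ i, (u - bT zt i) ^ 2) * ∏ i, cE (u - zt i) = 1 := by
      rw [← Finset.prod_mul_distrib, ← Finset.prod_mul_distrib]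
      refine Finset.prod_eq_one fun i _ => ?_
      obtain ⟨h1, h2⟩ := rg (zt i) u (h.ht i).1 (h.ht i).2 u1 u2
      have h0 : u - zt i ≠ 2 * l := by
        intro h3
        have h4 : u.re = (zt i).re + 2 * l := by
          have := congrArg Complex.re h3
          simp at this
          linarith
        have := h.ht i
        rcases hu with hu | hu <;> rw [hu] at h4 <;> linarith
      have e5 : u - bT zt i = u - zt i - 2 * l := by
        unfold bT
        ring
      rw [e5, cA_cF h1 h2 h0, cF_cE h1 h2]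
    have e4 : K u * (K u)⁻¹ = 1 := mul_inv_cancel₀ (h.k0 u hu')
    rw [← e2]
    calc _ = G u * Ei u * ((∏ i, q1 (u - zo i)) * ∏ i, oE (u - zo i)) *
          ((∏ i, cA (u - zt i)) * (∏ i, (u - bT zt i) ^ 2) * ∏ i, cE (u - zt i)) * (K u * (K u)⁻¹) := by ring
      _ = _ := by
          rw [e3, e4]
          ring
  · -- the bound of the inverse
    obtain ⟨η, hη, hr⟩ : ∃ η : ℝ, 0 < η ∧ rE + Fintype.card α * (-4 + η) + Fintype.card β * 4 + -rK ≤
        κ' + 2 * q0 * (sg s : ℤ) := by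
      refine ⟨(κ' + 2 * q0 * (sg s : ℤ) - (rE - 4 * Fintype.card α + 4 * Fintype.card β - rK)) / (Fintype.card α + 1), ?_, ?_⟩
      · have := h.rate
        exact div_pos (by linarith) (by positivity)
      · have h1 := h.rate
        have h2 : (Fintype.card α : ℝ) * ((κ' + 2 * q0 * (sg s : ℤ) - (rE - 4 * Fintype.card α + 4 * Fintype.card β - rK)) /
            (Fintype.card α + 1)) ≤ κ' + 2 * q0 * (sg s : ℤ) - (rE - 4 * Fintype.card α + 4 * Fintype.card β - rK) := by
          rw [mul_div_assoc', div_le_iff₀ (by positivity)]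
          nlinarith
        linarith
    have b1 : Bdd (Icc (xl false) (xl true)) (Fintype.card α * (-4 + η)) fun u => ∏ i, oE (u - zo i) := by
      refine bdd_prod' fun i => ?_
      refine Bdd.translate (Bdd.mono' (bdd_oE (u := xl false - (zo i).re) (v := xl true - (zo i).re) ?_ ?_ hη) ?_)
      · have := (h.ho i).2
        linarith
      · have := (h.ho i).1
        linarith
      · rintro _ ⟨v, hv, rfl⟩
        exact ⟨by show xl false - _ ≤ v + -_; linarith [hv.1], by show v + -_ ≤ xl true - _; linarith [hv.2]⟩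
    have b2 : Bdd (Icc (xl false) (xl true)) (Fintype.card β * 4) fun u => ∏ i, cE (u - zt i) :=
      bdd_prod' fun i => Bdd.translate (bdd_cE _)
    obtain ⟨C, hC, hb⟩ := Bdd.le' (((h.eb.mul b1).mul b2).mul h.kb) hr
    exact ⟨C, hC, fun z hz => hb z hz⟩
  · -- measurability
    have e : (fun t : ℝ => WH G zo zt K (vl yl t)) = (WH G zo zt K) ∘ vl yl := rfl
    rw [e]
    have hv : Measurable (vl yl) := by
      unfold vl
      fun_prop
    refine Measurable.comp ?_ hv
    unfold WH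
    refine ((h.gm.mul ?_).mul ?_).mul h.km
    · exact Finset.measurable_prod _ fun i _ => by unfold q1; fun_prop
    · exact Finset.measurable_prod _ fun i _ => by unfold cA qg; fun_prop
  · -- decay on the line of the quanta
    have b1 : Bdd {yl} (Fintype.card α * 4) fun u => ∏ i, q1 (u - zo i) :=
      bdd_prod' fun i => Bdd.translate (bdd_q1 _)
    have b2 : Bdd {yl} (Fintype.card β * -4) fun u => ∏ i, cA (u - zt i) := by
      refine bdd_prod' fun i => Bdd.translate ?_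
      have hi := h.ht i
      have hK : IsCompact ((fun v : ℝ => v + -(zt i).re) '' {yl}) := isCompact_singleton.image (by fun_prop)
      have hd : ∀ d ∈ (fun v : ℝ => v + -(zt i).re) '' {yl}, d = yl - (zt i).re := by
        rintro _ ⟨v, hv, rfl⟩
        rw [mem_singleton_iff.1 hv]
        ring
      have c1 := (bdd_inv_sin hK (3 * l) fun d hd' => by
        rw [hd d hd']
        exact (sin_pos_of (by linarith) (by linarith)).ne').pow 2
      have c2 := (bdd_inv_sin hK (-(2 * l)) fun d hd' => by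
        rw [hd d hd']
        exact (sin_pos_of (by linarith) (by linarith)).ne').pow 2
      obtain ⟨C, hC, hb⟩ := (c1.mul c2).rate (by norm_num : ((2 : ℕ) : ℝ) * -1 + ((2 : ℕ) : ℝ) * -1 = -4)
      refine ⟨C, hC, fun w hw => (le_of_eq ?_).trans (hb w hw)⟩
      have e1 := hd _ hw
      have e : cA w = cwz .A .S w := rfl
      rw [e, cwz_AS (by rw [e1]; linarith) (by rw [e1]; linarith)]
      congr 1
      push_cast
      rw [← sub_eq_add_neg]
      ring
    obtain ⟨C, hC, hb⟩ := ((h.gb.mul b1).mul b2).mul h.kby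
    refine ⟨C, hC, fun t => (hb (vl yl t) (by simp [vl])).trans (le_of_eq ?_)⟩
    have e1 : (vl yl t).im = t := by simp [vl]
    rw [e1]
    congr 2
    ring

end NUP1S.HF

end
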