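import Pool.Agent.PHK.HostFD
import Pool.Agent.PHK.HoleT2
import Pool.Agent.PHK.Defs

/-!
# (P): geometry of the host of the holes, move of the line of the quanta

* `xlP`, `xG`, `b2G`, **`geoP`**: the hole lines, the rectangle, the strips of (P);
* `line_moveG`, `Z1_eq`, `ZZ_move`, **`gas_move`**: the line of the quanta is moved over a strip without
  poles.
-/

set_option autoImplicit false
set_option linter.unusedSectionVars false

noncomputable section

open Complex MeasureTheory NUP1 Set Filter Topology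
open scoped Real
open PHK (Par6 GoodP6)

namespace NUP1S

/-! ### the geometry of (P) -/

/-- the lines of the holes -/
def xlP (P : Par6) (c : Bool) : ℝ := if c then (1 - P.j1) * l else (1 - P.j2) * l

/-- left side of the rectangle -/
def xG (P : Par6) : ℝ := max (52 / 100 * l) ((1 - (P.e + P.j2) / 2) * l)

/-- right end of the strip of the holes -/
def b2G (P : Par6) : ℝ := min (63 / 64 * l) ((2 - (P.j1 + P.jL) / 2) * l)

theorem xG_lo (P : Par6) : 51 / 100 * l < xG P :=
  lt_of_lt_of_le (by have := Bd.l_pos; linarith) (le_max_left _ _)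

theorem xG_hi {P : Par6} (hG : GoodP6 P) : xG P < (1 - P.e) * l := by
  have hl := Bd.l_pos
  have h1 := hG.e45
  have h2 := hG.ej2
  refine max_lt ?_ ?_ <;> nlinarith

theorem b2G_hi {P : Par6} (hG : GoodP6 P) : b2G P < (3 - P.jL) * l := by
  have hl := Bd.l_pos
  have h1 := hG.Lj
  exact lt_of_le_of_lt (min_le_right _ _) (by nlinarith)

theorem b2G_64 (P : Par6) : b2G P ≤ 63 / 64 * l := min_le_left _ _

/-- **the geometry of (P)** -/
theorem geoP {P : Par6} (hG : GoodP6 P) (h1 : 1 / 32 ≤ P.j1) (h2 : P.j2 ≤ 7 / 8) {y b₁ : ℝ}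
    (hy : (1 - P.e) * l < y) (hy1 : y ≤ (1 - P.j1) * l) (hyb : y < b₁) (hb : b₁ ≤ l) :
    Geo6 (xlP P) (1 / 9 * l) (51 / 100 * l) (xG P) y b₁ (b2G P) l := by
  have hl := Bd.l_pos
  have k1 := hG.e45
  have k2 := hG.ej2
  have k3 := hG.Lj
  have k4 := hG.L2
  have e1 : xlP P true = (1 - P.j1) * l := rfl
  have e2 : xlP P false = (1 - P.j2) * l := rfl
  refine ⟨?_, ?_, (xG_hi hG).trans hy, hy1, by linarith, xG_lo P, hyb, by linarith, ?_, ?_,
    by linarith⟩
  · rw [e2]
    nlinarith
  · rw [e2]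
    exact le_trans (by nlinarith) (le_max_right _ _)
  · rw [e1]
    refine lt_min ?_ ?_ <;> nlinarith
  · exact (b2G_64 P).trans (by linarith)

/-! ### the line of the quanta is moved -/

variable {pl : Bool → Finset ℂ} {κ a b x y : ℝ} {g : Bool → ℂ → ℂ}

/-- distance of the poles from a strip -/
theorem exists_dist {B : Finset ℂ} (hxy : x ≤ y) (h : ∀ p ∈ B, p.re < x ∨ y < p.re) :
    ∃ δ : ℝ, 0 < δ ∧ ∀ p ∈ B, ∀ z : ℂ, x ≤ z.re → z.re ≤ y → δ ≤ ‖z - p‖ := by
  classical
  induction B using Finset.induction_on with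
  | empty => exact ⟨1, one_pos, fun p hp => absurd hp (Finset.notMem_empty p)⟩
  | insert q B hq ih =>
    obtain ⟨δ, hδ, h1⟩ := ih fun p hp => h p (Finset.mem_insert_of_mem hp)
    have h2 := h q (Finset.mem_insert_self q B)
    have h3 : ∃ ε : ℝ, 0 < ε ∧ ∀ z : ℂ, x ≤ z.re → z.re ≤ y → ε ≤ ‖z - q‖ := by
      rcases h2 with h2 | h2
      · refine ⟨x - q.re, by linarith, fun z a1 a2 => ?_⟩
        have n1 := Complex.abs_re_le_norm (z - q)
        rw [sub_re] at n1
        have := le_abs_self (z.re - q.re)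
        linarith
      · refine ⟨q.re - y, by linarith, fun z a1 a2 => ?_⟩
        have n1 := Complex.abs_re_le_norm (z - q)
        rw [sub_re] at n1
        have := neg_le_abs (z.re - q.re)
        linarith
    obtain ⟨ε, hε, h3⟩ := h3
    refine ⟨min δ ε, lt_min hδ hε, fun p hp z a1 a2 => ?_⟩
    rcases Finset.mem_insert.1 hp with rfl | hp
    · exact (min_le_right _ _).trans (h3 z a1 a2)
    · exact (min_le_left _ _).trans (h1 p hp z a1 a2)

/-- **a line is moved over a strip without poles** -/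
theorem line_moveG (G : Geo pl κ a b) (ha : a ≤ x) (hxy : x ≤ y) (hb : y ≤ b) {s : Bool}
    (hp : ∀ p ∈ pl s, p.re < x ∨ y < p.re) (hg : Reg pl κ a b (sg s) g) :
    ∫ t, hh pl g (lineC s x) t = ∫ t, hh pl g (lineC s y) t := by
  obtain ⟨δ, hδ, hd⟩ := exists_dist hxy hp
  obtain ⟨m, hm, hml⟩ := prod_lower hδ G.wd (G.pin s)
  obtain ⟨D, hD, hgb⟩ := hg.bd
  have hne : ∀ z : ℂ, x ≤ z.re → z.re ≤ y → ∀ p ∈ pl s, z ≠ p := by
    rintro z h1 h2 p hp rfl
    have := hd z hp z h1 h2
    rw [sub_self, norm_zero] at this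
    linarith
  have hdf : ∀ z : ℂ, x ≤ z.re → z.re ≤ y → (0 : ℝ) ≤ |z.im| → DifferentiableAt ℂ (Wt pl g s) z :=
    fun z h1 h2 _ => diff_Wt G hg (ha.trans h1) (h2.trans hb) (hne z h1 h2)
  have hcl : ∀ σ : ℝ, x ≤ σ → σ ≤ y → Continuous fun t : ℝ => Wt pl g s (vl σ t) := by
    intro σ h1 h2
    rw [continuous_iff_continuousAt]
    intro t
    have h4 : DifferentiableAt ℂ (Wt pl g s) (vl σ t) :=
      hdf _ (by rw [re_vl]; exact h1) (by rw [re_vl]; exact h2) (abs_nonneg _)
    refine ContinuousAt.comp (f := fun t : ℝ => vl σ t) h4.continuousAt ?_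
    unfold vl
    fun_prop
  have key := line_eq_rect (F := Wt pl g s) (C := D / m) (δ := κ + 2) hxy le_rfl
    (by have := G.kpos; linarith) (hcl x le_rfl hxy) (hcl y hxy le_rfl) hdf ?_
  · have e1 : ∀ σ : ℝ, ∫ t, hh pl g (lineC s σ) t =
        (2 * π : ℂ)⁻¹ * ∫ t : ℝ, Wt pl g s (vl σ t) := fun σ => by
      rw [← integral_const_mul]
      rfl
    rw [e1, e1, key, int_rO hxy le_rfl]
    · simp
    · intro z hz
      exact (hdf z hz.1 hz.2.1 (abs_nonneg _)).continuousAt.continuousWithinAt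
  · intro z h1 h2 _
    have h4 := hgb s z (ha.trans h1) (h2.trans hb)
    have h5 := hml z (ha.trans h1) (h2.trans hb) fun p hp => hd p hp z h1 h2
    unfold Wt
    rw [norm_div]
    have hpos : 0 < m * Real.exp (2 * (pl s).card * |z.im|) := by positivity
    refine (div_le_div₀ (by positivity) h4 hpos h5).trans (le_of_eq ?_)
    rw [mul_div_mul_comm, ← Real.exp_sub]
    congr 2
    have : ((sg s * sg s : ℤ) : ℝ) = 1 := by rw [sg_sq]; simp
    rw [this]
    ring

theorem NI_zero {L : List Ct} (h : ∃ c ∈ L, c.om = fun _ => 0) (g : Bool → ℂ → ℂ) :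
    NI pl L g = 0 := by
  induction L generalizing g with
  | nil =>
    obtain ⟨c, hc, -⟩ := h
    exact absurd hc List.not_mem_nil
  | cons c L ih =>
    show ∫ t, hh pl g c t * NI pl L (ad g c.sp (c.pos t)) = 0
    obtain ⟨c', hc', h0⟩ := h
    rcases List.mem_cons.1 hc' with rfl | hc'
    · unfold hh
      rw [h0]
      simp
    · simp only [ih ⟨c', hc', h0⟩, mul_zero, integral_zero]

theorem Z1_eq (G : Geo pl κ a b) {e c : Ct} (hc' : c.sp = e.sp) (he : OkC pl κ a b e)
    (hc : OkC pl κ a b c) (hr : ∀ g, Reg pl κ a b (sg e.sp) g → ∫ t, hh pl g e t = ∫ t, hh pl g c t)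
    {L : List Ct} (hL : ∀ x ∈ L, OkC pl κ a b x) (n : ℕ)
    (h : Reg pl κ a b (n * sg e.sp + chL L) g) : Z1 pl e n L g = Z1 pl c n L g := by
  set d : Ct := ⟨e.sp, fun _ => 0, e.pos⟩ with hd
  have od : OkC pl κ a b d :=
    { mom := measurable_const
      mpos := he.mpos
      re1 := he.re1
      re2 := he.re2
      away := he.away
      int := by simp [hd] }
  have rp : Rep pl κ a b e c d := by
    intro g hg
    rw [hr g hg]
    have : ∫ t, hh pl g d t = 0 := by
      unfold hh
      simp [hd]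
    rw [this, add_zero]
  rw [Z1_sum G hc' (d := d) rfl he hc od rp hL n h, Finset.sum_range_succ']
  rw [Finset.sum_eq_zero, zero_add]
  · simp
  · intro k hk
    unfold Z1
    rw [NI_zero ⟨d, by simp, rfl⟩, mul_zero, mul_zero]

/-- **the lines of the quanta are moved over a strip without poles** -/
theorem ZZ_move (G : Geo pl κ a b) (ha : a ≤ x) (hxy : x ≤ y) (hb : y ≤ b)
    (hp : ∀ s, ∀ p ∈ pl s, p.re < x ∨ y < p.re) (ox : ∀ s, OkC pl κ a b (lineC s x))
    (oy : ∀ s, OkC pl κ a b (lineC s y)) (n n' : ℕ)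
    (hg : Reg pl κ a b (n * sg true + n' * sg false) g) : ZZ pl x n n' g = ZZ pl y n n' g := by
  have rp : ∀ s g, Reg pl κ a b (sg s) g →
      ∫ t, hh pl g (lineC s x) t = ∫ t, hh pl g (lineC s y) t := fun s g h =>
    line_moveG G ha hxy hb (hp s) h
  have s1 : ∀ x, ZZ pl x n n' g = ((n'.factorial : ℕ) : ℂ)⁻¹ *
      Z1 pl (lineC true x) n (List.replicate n' (lineC false x)) g := by
    intro x
    unfold ZZ Z1
    ring
  rw [s1, s1, Z1_eq G (e := lineC true x) (c := lineC true y) rfl (ox true) (oy true) (rp true)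
    (ok_rep (ox false) n') n (by
      rw [chL_replicate]
      exact hg)]
  have swap : ∀ x', OkC pl κ a b (lineC false x') → Z1 pl (lineC true y) n
      (List.replicate n' (lineC false x')) g = ((n.factorial : ℕ) : ℂ)⁻¹ *
        ((n'.factorial : ℕ) : ℂ) * Z1 pl (lineC false x') n' (List.replicate n (lineC true y)) g := by
    intro x' ox'
    unfold Z1
    rw [NI_perm G (List.perm_append_comm (l₁ := List.replicate n (lineC true y))
      (l₂ := List.replicate n' (lineC false x'))) (ok_app (ok_rep (oy true) _) (ok_rep ox' _)) g (by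
        rw [chL_append, chL_replicate, chL_replicate]
        exact hg)]
    have : ((n'.factorial : ℕ) : ℂ) ≠ 0 := by exact_mod_cast Nat.factorial_ne_zero n'
    field_simp
  rw [swap x (ox false), swap y (oy false), Z1_eq G (e := lineC false x) (c := lineC false y) rfl
    (ox false) (oy false) (rp false) (ok_rep (oy true) n) n' (by
      rw [chL_replicate]
      show Reg pl κ a b (n' * sg false + n * sg true) g
      rw [add_comm]
      exact hg)]

/-- **the gas on another line** -/
theorem gas_move (G : Geo pl κ a b) (ha : a ≤ x) (hxy : x ≤ y) (hb : y ≤ b)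
    (hp : ∀ s, ∀ p ∈ pl s, p.re < x ∨ y < p.re) (n n' : ℕ)
    (hg : Reg pl κ a b (n * sg true + n' * sg false) g) {W : Bool → ℂ → ℂ}
    (hx : ∀ s (u : ℂ), u.re = x → W s u = Wt pl g s u)
    (hy : ∀ s (u : ℂ), u.re = y → W s u = Wt pl g s u) :
    gas n n' x (W true) (W false) = gas n n' y (W true) (W false) := by
  have ox : ∀ s, OkC pl κ a b (lineC s x) := fun s => okC_line G.kpos ha (hxy.trans hb)
    fun p hp' => by rcases hp s p hp' with h | h <;> [exact ne_of_lt h; exact ne_of_gt (hxy.trans_lt h)]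
  have oy : ∀ s, OkC pl κ a b (lineC s y) := fun s => okC_line G.kpos (ha.trans hxy) hb
    fun p hp' => by rcases hp s p hp' with h | h <;> [exact ne_of_lt (h.trans_le hxy); exact ne_of_gt h]
  rw [gas_eq_ZZ G x ox n n' hg (hx true) (hx false), gas_eq_ZZ G y oy n n' hg (hy true) (hy false),
    ZZ_move G ha hxy hb hp ox oy n n' hg]

end NUP1S

end
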