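import Pool.Agent.PHK.HoleS
import Pool.Agent.PHK.HoleT2

/-!
# The exact identity (P)

* `exists_InR`, `exists_R`: large rectangles; `sumGPk`: the sum over the numbers of particles;
* **`HostP.exact`**: the gas on the host line = `exR` (free holes on the two lines, glued holes, quanta
  on the line `yl`).
-/

set_option autoImplicit false
set_option linter.unusedSectionVars false
set_option linter.unusedVariables false

noncomputable section

open Complex MeasureTheory NUP1 Set Filter Topology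
open scoped Real
open Pool.Agent.PHD (one QP JJ oP xP JJ2 db hol qr WW wG gN hX lcn)
open Pool.Agent.PHK (lM lG lK)
open NUP1.Bd (qg)

namespace NUP1S

theorem exists_R {ι : Type*} [Fintype ι] (b : ι → ℂ) : ∃ R₀ : ℝ, ∀ i, |(b i).im| < R₀ := by
  refine ⟨(∑ i, |(b i).im|) + 1, fun i => ?_⟩
  have := Finset.single_le_sum (f := fun i => |(b i).im|) (fun j _ => abs_nonneg _)
    (Finset.mem_univ i)
  linarith

theorem exists_InR {pl : Bool → Finset ℂ} {x y : ℝ} (h : ∀ s, ∀ p ∈ pl s, x < p.re ∧ p.re < y) :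
    ∃ R₀ : ℝ, ∀ R, R₀ ≤ R → InR pl x y R := by
  refine ⟨(∑ p ∈ pl true, |p.im|) + (∑ p ∈ pl false, |p.im|) + 1, fun R hR s p hp => ?_⟩
  refine ⟨(h s p hp).1, (h s p hp).2, ?_⟩
  have n1 : 0 ≤ ∑ p ∈ pl true, |p.im| := Finset.sum_nonneg fun _ _ => abs_nonneg _
  have n2 : 0 ≤ ∑ p ∈ pl false, |p.im| := Finset.sum_nonneg fun _ _ => abs_nonneg _
  cases s
  · have := Finset.single_le_sum (f := fun p : ℂ => |p.im|) (fun j _ => abs_nonneg _) hp
    linarith
  · have := Finset.single_le_sum (f := fun p : ℂ => |p.im|) (fun j _ => abs_nonneg _) hp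
    linarith

section

variable {ιb ν ιb' ν' : Type} [LinearOrder ιb] [Fintype ιb] [LinearOrder ν] [Fintype ν]
  [LinearOrder ιb'] [Fintype ιb'] [LinearOrder ν'] [Fintype ν']
  {b : ιb → ℂ} {d : ν → ℂ} {b' : ιb' → ℂ} {d' : ν' → ℂ} {xl : Bool → ℝ}
  {a₀ a₁ x y b₁ b₂ yl κ κ₁ κ' q0 R : ℝ} {F E F' E' : ℂ → ℂ}

/-- the sum over all the numbers of particles -/
theorem sumGPk {Wf : Bool → ℂ → ℂ} (M : Geo6 xl a₀ a₁ x y b₁ b₂ yl)
    (S : Sp6 xl a₀ a₁ x y b₁ b₂ yl κ κ' q0 true b d (Wf true) F E)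
    (S' : Sp6 xl a₀ a₁ x y b₁ b₂ yl κ κ' q0 false b' d' (Wf false) F' E') (hκ : 0 < κ)
    (hκ' : κ' < 6) (hR : 0 < R) (hb : ∀ i, |(b i).im| < R) (hb' : ∀ i, |(b' i).im| < R)
    {a a' : ℕ} (hq : (a : ℝ) - a' = q0) :
    (∑ k ∈ Finset.range (a + 1), ∑ k' ∈ Finset.range (a' + 1),
        GPk x y R yl b b' Wf F F' (a - k) (a' - k') k k') =
      exR xl yl Wf b d b' d' F E F' E' a a' := by
  rw [← sumGPk_exR M S S' hκ hκ' hR hb hb' hq]
  refine Finset.sum_congr rfl fun k _ => Finset.sum_congr rfl fun k' _ => ?_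
  split_ifs with hk
  · rfl
  · unfold GPk
    simp only [Jr_zero M S S' hR hb hb' hk, mul_zero, integral_zero]

/-- **the exact identity (P)** -/
theorem HostP.exact {W : Bool → ℂ → ℂ} (M : Geo6 xl a₀ a₁ x y b₁ b₂ yl)
    (S : Sp6 xl a₀ a₁ x y b₁ b₂ yl κ κ' q0 true b d (W true) F E)
    (S' : Sp6 xl a₀ a₁ x y b₁ b₂ yl κ κ' q0 false b' d' (W false) F' E') (hκ : 0 < κ)
    (hκ' : κ' < 6) {a a' : ℕ} (hq : (a : ℝ) - a' = q0) {pl : Bool → Finset ℂ}
    (hpl : ∀ s, ∀ p ∈ pl s, x < p.re ∧ p.re < y) {g : Bool → ℂ → ℂ} (hκ₁ : 0 < κ₁)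
    (hg : Reg pl κ₁ x yl (a * sg true + a' * sg false) g)
    (hx : ∀ s (u : ℂ), u.re = x → W s u = Wt pl g s u)
    (hy : ∀ s (u : ℂ), u.re = yl → W s u = Wt pl g s u)
    (hF : ∀ z : ℂ, x ≤ z.re → z.re ≤ y → Wt pl g true z = F z / ∏ i, (z - db b i))
    (hF' : ∀ z : ℂ, x ≤ z.re → z.re ≤ y → Wt pl g false z = F' z / ∏ i, (z - db b' i)) :
    gas a a' x (W true) (W false) = exR xl yl W b d b' d' F E F' E' a a' := by
  have g1 := M.h1
  have g2 := M.h2
  have g3 := M.h3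
  have g4 := M.h4
  have g9 := M.h9
  have g10 := M.h10
  have g11 := M.h11
  obtain ⟨R1, r1⟩ := exists_R b
  obtain ⟨R2, r2⟩ := exists_R b'
  obtain ⟨R3, r3⟩ := exists_InR hpl
  set R : ℝ := max 1 (max R1 (max R2 R3)) with hRdef
  have hR : 0 < R := lt_of_lt_of_le zero_lt_one (le_max_left _ _)
  have m1 : R1 ≤ R := (le_max_left _ _).trans (le_max_right _ _)
  have m2 : R2 ≤ R := (le_max_left _ _).trans ((le_max_right _ _).trans (le_max_right _ _))
  have m3 : R3 ≤ R := (le_max_right _ _).trans ((le_max_right _ _).trans (le_max_right _ _))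
  have re : ∀ t, x ≤ (rP x y R t).re ∧ (rP x y R t).re ≤ y := fun t => by
    have := rP_mem g3.le hR.le t
    exact ⟨this.1, this.2.1⟩
  rw [gas_GPk (r3 R m3) hκ₁ g3.le (by linarith) (by linarith) hR.le a a' hg hx hy
    (fun t => hF _ (re t).1 (re t).2) (fun t => hF' _ (re t).1 (re t).2)]
  exact sumGPk M S S' hκ hκ' hR (fun i => (r1 i).trans_le m1) (fun i => (r2 i).trans_le m2) hq

end

end NUP1S

end
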