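import Pool.Agent.PHK.HostFL
import Pool.Agent.PHK.HostG
import Pool.Agent.PHK.HostP

/-!
# (P): the field of the objects is regular up to the double poles, no radius, no separation

* `plS`: points of the strings of the other species; `HR`: geometry of the objects, strips `[x, y]`;
* `HR.Wt_gr`, **`HR.reg`**; `Wt_FH`: the hypothesis `hF` of `HostP.exact`;
* **`HostP.exact0`**: the gas on a line `x0` left of the rectangle.
-/

set_option autoImplicit false
set_option linter.unusedSectionVars false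

noncomputable section

open Complex MeasureTheory NUP1 Set Filter Topology
open scoped Real
open Pool.Agent.PHD (one QP JJ oP xP JJ2 db hol qr WW wG gN hX lcn)

namespace NUP1S

open NUP1.Bd (cwz pwz qg chg sin_pos_of Ob)

variable {ι : Type*} [Fintype ι] [DecidableEq ι]
variable {o : ι → CO} {z : ι → ℂ} {act : ι → Prop} [DecidablePred act] {x y κ : ℝ} {G : Bool → ℂ → ℂ}

/-- the double poles of a species: the points of the strings of the other species -/
def plS (o : ι → CO) (z : ι → ℂ) (act : ι → Prop) [DecidablePred act] (s : Bool) : Finset ℂ :=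
  (Finset.univ.filter fun i => act i ∧ (o i).1 ≠ s).image fun i => z i + 2 * l

theorem mem_plS {s : Bool} {p : ℂ} : p ∈ plS o z act s ↔ ∃ i, (act i ∧ (o i).1 ≠ s) ∧ z i + 2 * l = p := by
  simp [plS]

/-- the objects, `act i` = strings with a double pole in the strip -/
structure HR (o : ι → CO) (z : ι → ℂ) (act : ι → Prop) (x y : ℝ) : Prop where
  str : ∀ i, act i → (o i).2 = .S
  lo : ∀ i, act i → l < x - (z i).re
  hi : ∀ i, act i → y - (z i).re < 3 * l
  inj : ∀ i j, act i → act j → (o i).1 = (o j).1 → z i = z j → i = j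
  ok : ∀ i, ¬ act i → ∀ s, ∀ v ∈ Icc x y, Ok (s, .A) (o i) (v - (z i).re)

namespace HR

variable (h : HR o z act x y)
include h

theorem sw {i : ι} (hi : act i) {u : ℂ} (h1 : x ≤ u.re) (h2 : u.re ≤ y) : HF.Sw (u - z i) := by
  have := h.lo i hi
  have := h.hi i hi
  unfold HF.Sw
  rw [sub_re]
  constructor <;> linarith

theorem inj' {s : Bool} : Set.InjOn (fun i => z i + 2 * (l : ℂ))
    (Finset.univ.filter fun i => act i ∧ (o i).1 ≠ s : Finset ι) := by
  intro i hi j hj hij
  have hi := (Finset.mem_filter.1 (Finset.mem_coe.1 hi)).2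
  have hj := (Finset.mem_filter.1 (Finset.mem_coe.1 hj)).2
  refine h.inj i j hi.1 hj.1 ?_ (add_right_cancel hij)
  have h1 := hi.2
  have h2 := hj.2
  cases h3 : (o i).1 <;> cases h4 : (o j).1 <;> cases s <;> simp_all

theorem prod_pl (s : Bool) (F : ℂ → ℂ) :
    ∏ p ∈ plS o z act s, F p = ∏ i, if act i ∧ (o i).1 ≠ s then F (z i + 2 * l) else 1 := by
  unfold plS
  rw [Finset.prod_image h.inj', Finset.prod_filter]

theorem card_pl (s : Bool) :
    ((plS o z act s).card : ℝ) = ∑ b, if act b ∧ (o b).1 ≠ s then 1 else 0 := by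
  unfold plS
  rw [Finset.card_image_of_injOn h.inj', Finset.card_filter]
  push_cast
  rfl

theorem split {s : Bool} {b : ι} (hb : act b) (hs : (o b).1 ≠ s) {u : ℂ} (h1 : x ≤ u.re)
    (h2 : u.re ≤ y) :
    gz (s, .A) (o b) (u - z b) = gR o act s b (u - z b) / sin (u - (z b + 2 * l)) ^ 2 := by
  obtain ⟨h3, h4⟩ := h.sw hb h1 h2
  unfold gR
  rw [if_pos ⟨hb, hs⟩]
  have e := h.str b hb
  have hs' : ¬ s = (o b).1 := fun h => hs h.symm
  unfold gz
  simp only [if_neg hs', e]
  rw [cwz_AS h3 h4]
  congr 3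
  ring

/-- the field is the regular part divided by the double poles -/
theorem Wt_gr (s : Bool) {u : ℂ} (h1 : x ≤ u.re) (h2 : u.re ≤ y) :
    Wt (plS o z act) (gr o z act G) s u = fld o z (s, .A) (G s) u := by
  unfold Wt gr fld
  rw [h.prod_pl s fun p => sin (u - p) ^ 2, mul_div_assoc, ← Finset.prod_div_distrib]
  congr 1
  refine Finset.prod_congr rfl fun b _ => ?_
  by_cases hb : act b ∧ (o b).1 ≠ s
  · rw [if_pos hb, h.split hb.1 hb.2 h1 h2]
  · rw [if_neg hb, _root_.div_one]
    unfold gR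
    rw [if_neg hb]

theorem okz {s : Bool} {b : ι} (hb : ¬ (act b ∧ (o b).1 ≠ s)) {v : ℝ} (hv : v ∈ Icc x y) :
    Ok (s, .A) (o b) (v - (z b).re) := by
  by_cases h1 : act b
  · have h2 : s = (o b).1 := by
      by_contra hne
      exact hb ⟨h1, fun h => hne h.symm⟩
    have h3 := h.str b h1
    intro t ht
    unfold poles at ht
    rw [if_pos h2, h3] at ht
    simp at ht
  · exact h.ok b h1 s v hv

theorem diff_gR (s : Bool) (b : ι) {u : ℂ} (h1 : x ≤ u.re) (h2 : u.re ≤ y) :
    DifferentiableAt ℂ (gR o act s b) (u - z b) := by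
  by_cases hb : act b ∧ (o b).1 ≠ s
  · have n := (h.sw hb.1 h1 h2).s3
    unfold gR
    simp only [if_pos hb]
    refine DifferentiableAt.div (by fun_prop) (by fun_prop) (pow_ne_zero 2 n)
  · unfold gR
    simp only [if_neg hb]
    refine differentiableAt_gz _ _ ?_
    rw [sub_re]
    exact h.okz hb ⟨h1, h2⟩

theorem bdd_gR (s : Bool) (b : ι) :
    Bdd ((fun v => v + -(z b).re) '' Icc x y) (rR o act s b) (gR o act s b) := by
  have hl := Bd.l_pos
  have hpi := Bd.pi_eq
  have hK : IsCompact ((fun v => v + -(z b).re) '' Icc x y) :=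
    isCompact_Icc.image (by fun_prop)
  by_cases hb : act b ∧ (o b).1 ≠ s
  · have h1 := (bdd_inv_sin hK (3 * l) fun d hd => by
      obtain ⟨v, hv, rfl⟩ := hd
      have := h.lo b hb.1
      have := h.hi b hb.1
      have h1 := hv.1
      have h2 := hv.2
      exact (sin_pos_of (by linarith) (by linarith)).ne').pow 2
    have e : rR o act s b = ((2 : ℕ) : ℝ) * -1 := by
      unfold rR rt
      rw [if_pos hb]
      have h3 := h.str b hb.1
      have h4 := hb.2
      unfold sc
      rw [h3]
      cases s <;> cases h5 : (o b).1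
      · exact absurd h5 h4
      · simp [chg]
        norm_num
      · simp [chg]
        norm_num
      · exact absurd h5 h4
    rw [e]
    obtain ⟨C, hC, h2⟩ := h1
    refine ⟨C, hC, fun w hw => (le_of_eq ?_).trans (h2 w hw)⟩
    unfold gR
    rw [if_pos hb]
    congr 1
    push_cast
    rw [div_pow, one_pow]
  · have e : rR o act s b = rt (s, .A) (o b) := by
      unfold rR
      rw [if_neg hb, add_zero]
    have e2 : gR o act s b = gz (s, .A) (o b) := by
      funext w
      unfold gR
      rw [if_neg hb]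
    rw [e, e2]
    refine bdd_gz hK _ _ ?_
    rintro _ ⟨v, hv, rfl⟩
    exact h.okz hb hv

/-- **the regular part is regular** -/
theorem reg (hm : ∀ s, Measurable (G s))
    (hd : ∀ s, ∀ u : ℂ, x ≤ u.re → u.re ≤ y → DifferentiableAt ℂ (G s) u)
    {r : Bool → ℝ} (hb : ∀ s, Bdd (Icc x y) (-(r s)) (G s)) {Q : ℤ}
    (hr : ∀ s, κ + 2 * (sg s * Q : ℤ) ≤ r s - 2 * ∑ b, (sg s : ℝ) * sc (o b)) :
    Reg (plS o z act) κ x y Q (gr o z act G) where
  meas s := by
    unfold gr
    refine (hm s).mul (Finset.measurable_prod _ fun b _ => ?_)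
    exact (measurable_gR s b).comp (measurable_id.sub_const _)
  diff s u h1 h2 := by
    unfold gr
    refine (hd s u h1 h2).mul ?_
    refine DifferentiableAt.fun_finsetProd fun b _ => ?_
    exact (h.diff_gR s b h1 h2).comp u (differentiableAt_id.sub_const _)
  bd := by
    have h1 : ∀ s, Bdd (Icc x y) (∑ b, rR o act s b) fun u => ∏ b, gR o act s b (u - z b) :=
      fun s => bdd_prod fun b => (h.bdd_gR s b).translate
    have h2 : ∀ s, ∑ b, rR o act s b =
        2 * (∑ b, (sg s : ℝ) * sc (o b)) + 2 * (plS o z act s).card := by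
      intro s
      unfold rR rt
      rw [Finset.sum_add_distrib, h.card_pl s, Finset.mul_sum, Finset.mul_sum, ← Finset.sum_add_distrib,
        ← Finset.sum_add_distrib]
      refine Finset.sum_congr rfl fun b _ => ?_
      rw [sc_sA]
      split_ifs <;> ring
    choose C hC hG using hb
    choose C' hC' hG' using h1
    refine ⟨C true * C' true + C false * C' false, ?_, fun s u a1 a2 => ?_⟩
    · have := hC true
      have := hC false
      have := hC' true
      have := hC' false
      positivity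
    · have b1 := hG s u ⟨a1, a2⟩
      have b2 := hG' s u ⟨a1, a2⟩
      rw [h2 s] at b2
      unfold gr
      rw [norm_mul]
      refine (mul_le_mul b1 b2 (norm_nonneg _) (by have := hC s; positivity)).trans ?_
      rw [mul_mul_mul_comm, ← Real.exp_add]
      have e : Real.exp (-(r s) * |u.im| + (2 * (∑ b, (sg s : ℝ) * sc (o b)) +
          2 * (plS o z act s).card) * |u.im|) ≤
          Real.exp (-((κ + 2 * ((sg s * Q : ℤ) : ℝ) - 2 * (plS o z act s).card) * |u.im|)) := by
        refine Real.exp_le_exp.2 ?_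
        have := mul_le_mul_of_nonneg_right (hr s) (abs_nonneg u.im)
        linarith
      refine mul_le_mul ?_ e (Real.exp_pos _).le ?_
      · have := hC true
        have := hC false
        have := hC' true
        have := hC' false
        have n1 : 0 ≤ C true * C' true := by positivity
        have n2 : 0 ≤ C false * C' false := by positivity
        cases s <;> linarith
      · have := hC true
        have := hC false
        have := hC' true
        have := hC' false
        positivity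

end HR

/-! ### the hypothesis on the rectangle -/

/-- the regular part on the rectangle, the poles included -/
theorem Wt_FH {α β : Type} [Fintype α] [Fintype β] {pl : Bool → Finset ℂ} {g : Bool → ℂ → ℂ}
    {s : Bool} {Gs K : ℂ → ℂ} {zo : α → ℂ} {zt : β → ℂ} (hpl : ∀ i, HF.bT zt i ∈ pl s) {u : ℂ}
    (hs : ∀ i, HF.Sw (u - zt i))
    (hW : (∀ i, u ≠ HF.bT zt i) → Wt pl g s u = HF.WH Gs zo zt K u) :
    Wt pl g s u = HF.FH Gs zo zt K u / ∏ i, (u - db (HF.bT zt) i) := by
  rw [Pool.Agent.PHD.den_db]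
  by_cases h : ∀ i, u ≠ HF.bT zt i
  · rw [hW h]
    unfold HF.WH HF.FH
    have e1 : ∏ i, HF.cF (u - zt i) = (∏ i, HF.cA (u - zt i)) * ∏ i, (u - HF.bT zt i) ^ 2 := by
      rw [← Finset.prod_mul_distrib]
      refine Finset.prod_congr rfl fun i _ => ?_
      rw [HF.cF_eq (hs i) fun h2 => h i ?_]
      · unfold HF.bT
        ring
      · unfold HF.bT
        linear_combination h2
    have n1 : ∏ i, (u - HF.bT zt i) ^ 2 ≠ 0 :=
      Finset.prod_ne_zero_iff.2 fun i _ => pow_ne_zero 2 (sub_ne_zero.2 (h i))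
    rw [e1]
    field_simp
  · push Not at h
    obtain ⟨i, hi⟩ := h
    have z1 : ∏ i, (u - HF.bT zt i) ^ 2 = 0 :=
      Finset.prod_eq_zero (Finset.mem_univ i) (by rw [hi, sub_self]; ring)
    have z2 : ∏ p ∈ pl s, sin (u - p) ^ 2 = 0 :=
      Finset.prod_eq_zero (hpl i) (by rw [hi, sub_self, sin_zero]; ring)
    unfold Wt
    rw [z1, z2, div_zero, div_zero]

/-! ### the exact identity from a line left of the rectangle -/

section

variable {ιb ν ιb' ν' : Type} [LinearOrder ιb] [Fintype ιb] [LinearOrder ν] [Fintype ν]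
  [LinearOrder ιb'] [Fintype ιb'] [LinearOrder ν'] [Fintype ν']
  {b : ιb → ℂ} {d : ν → ℂ} {b' : ιb' → ℂ} {d' : ν' → ℂ} {xl : Bool → ℝ}
  {a₀ a₁ b₁ b₂ yl κ₁ κ' q0 x0 : ℝ} {F E F' E' : ℂ → ℂ}

/-- the poles right of `x0`: the lines `x0` and `x` -/
theorem Reg.mono_a {pl : Bool → Finset ℂ} {a a' b : ℝ} {Q : ℤ} {g : Bool → ℂ → ℂ}
    (hg : Reg pl κ a b Q g) (h : a ≤ a') : Reg pl κ a' b Q g where
  meas := hg.meas
  diff s u h1 h2 := hg.diff s u (h.trans h1) h2
  bd := by
    obtain ⟨D, hD, hb⟩ := hg.bd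
    exact ⟨D, hD, fun s u h1 h2 => hb s u (h.trans h1) h2⟩

/-- **the exact identity (P) from a line `x0` left of the rectangle** -/
theorem HostP.exact0 {W : Bool → ℂ → ℂ} (M : Geo6 xl a₀ a₁ x y b₁ b₂ yl)
    (S : Sp6 xl a₀ a₁ x y b₁ b₂ yl κ κ' q0 true b d (W true) F E)
    (S' : Sp6 xl a₀ a₁ x y b₁ b₂ yl κ κ' q0 false b' d' (W false) F' E') (hκ : 0 < κ)
    (hκ' : κ' < 6) {a a' : ℕ} (hq : (a : ℝ) - a' = q0) (h0 : x0 ≤ x) (hw : yl - x0 < l)
    {pl : Bool → Finset ℂ} (hpl : ∀ s, ∀ p ∈ pl s, x < p.re ∧ p.re < y) {g : Bool → ℂ → ℂ}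
    (hκ₁ : 0 < κ₁) (hg : Reg pl κ₁ x0 yl (a * sg true + a' * sg false) g)
    (hW : ∀ s (u : ℂ), x0 ≤ u.re → u.re ≤ yl → W s u = Wt pl g s u)
    (hF : ∀ z : ℂ, x ≤ z.re → z.re ≤ y → Wt pl g true z = F z / ∏ i, (z - db b i))
    (hF' : ∀ z : ℂ, x ≤ z.re → z.re ≤ y → Wt pl g false z = F' z / ∏ i, (z - db b' i)) :
    gas a a' x0 (W true) (W false) = exR xl yl W b d b' d' F E F' E' a a' := by
  have g2 := M.h2
  have g3 := M.h3
  have g4 := M.h4
  have g9 := M.h9
  have g10 := M.h10
  have G0 : Geo pl κ₁ x0 yl :=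
    { kpos := hκ₁
      ab := by linarith
      wd := hw
      pin := fun s p hp => ⟨by linarith [(hpl s p hp).1], by linarith [(hpl s p hp).2]⟩ }
  rw [gas_move G0 le_rfl h0 (by linarith) (fun s p hp => Or.inr (hpl s p hp).1) a a' hg
    (fun s u hu => hW s u (by linarith) (by linarith))
    (fun s u hu => hW s u (by linarith) (by linarith))]
  exact HostP.exact M S S' hκ hκ' hq hpl hκ₁ (hg.mono_a h0)
    (fun s u hu => hW s u (by linarith) (by linarith))
    (fun s u hu => hW s u (by linarith) (by linarith)) hF hF'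

end

end NUP1S

end
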