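import Pool.Agent.PHK.HostP

/-!
# The exact identity (P) with a simple pole `w` between the rectangles and the line of the quanta

* `GPk_congr`: the functions on the rectangle;
* `exact_w_of`: from the step over the pole for large rectangles.
-/

set_option autoImplicit false
set_option linter.unusedSectionVars false
set_option linter.unusedVariables false

noncomputable section

open Complex MeasureTheory NUP1 Set Filter Topology
open scoped Real
open Pool.Agent.PHD (one QP JJ oP xP JJ2 db hol qr WW wG gN hX lcn)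
open Pool.Agent.PHK (lM lG lK)
open NUP1.Bd (qg)

namespace NUP1S

section

variable {ιb ν ιb' ν' ν₁ ν₁' : Type} [LinearOrder ιb] [Fintype ιb] [LinearOrder ν] [Fintype ν]
  [LinearOrder ιb'] [Fintype ιb'] [LinearOrder ν'] [Fintype ν'] [LinearOrder ν₁] [Fintype ν₁]
  [LinearOrder ν₁'] [Fintype ν₁']
  {b : ιb → ℂ} {d : ν → ℂ} {b' : ιb' → ℂ} {d' : ν' → ℂ} {d₁ : ν₁ → ℂ} {d₁' : ν₁' → ℂ} {xl : Bool → ℝ}
  {a₀ a₁ x y b₁ b₂ yl κ κ₁ κ₂ κ' κ₂' q0 q1 R : ℝ} {F E F' E' F1 E1 F1' E1' : ℂ → ℂ}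

theorem Jr_congr (hxy : x ≤ y) (hR : 0 ≤ R) (b : ιb → ℂ) (b' : ιb' → ℂ)
    (hF : ∀ z : ℂ, x ≤ z.re → z.re ≤ y → F1 z = F z)
    (hF' : ∀ z : ℂ, x ≤ z.re → z.re ≤ y → F1' z = F' z) (k k' : ℕ) {n n' : ℕ}
    (t : Fin n ⊕ Fin n' → ℝ) : Jr x y R yl b b' F1 F1' k k' t = Jr x y R yl b b' F F' k k' t := by
  unfold Jr JJ2
  congr 1
  refine integral_congr_ae (Eventually.of_forall fun p => ?_)
  simp only []
  have re : ∀ t, x ≤ (rP x y R t).re ∧ (rP x y R t).re ≤ y := fun t =>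
    ⟨(rP_mem hxy hR t).1, (rP_mem hxy hR t).2.1⟩
  unfold oP one
  have e1 : ∀ t, F1 (rP x y R t) = F (rP x y R t) := fun t => hF _ (re t).1 (re t).2
  have e2 : ∀ t, F1' (rP x y R t) = F' (rP x y R t) := fun t => hF' _ (re t).1 (re t).2
  simp only [e1, e2]

theorem GPk_congr (hxy : x ≤ y) (hR : 0 ≤ R) (b : ιb → ℂ) (b' : ιb' → ℂ) (W : Bool → ℂ → ℂ)
    (hF : ∀ z : ℂ, x ≤ z.re → z.re ≤ y → F1 z = F z)
    (hF' : ∀ z : ℂ, x ≤ z.re → z.re ≤ y → F1' z = F' z) (n n' k k' : ℕ) :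
    GPk x y R yl b b' W F1 F1' n n' k k' = GPk x y R yl b b' W F F' n n' k k' := by
  unfold GPk
  simp only [Jr_congr hxy hR b b' hF hF']

/-- number of quanta of species `s` at the pole of species `s0` -/
def nWp (s s0 : Bool) : ℕ := if s0 = s then 1 else 0

/-- sums over the numbers of particles: one quantum less -/
theorem sum_less (u u' a a' : ℕ) (G : ℕ → ℕ → ℕ → ℕ → ℂ) (c : ℂ) :
    (∑ k ∈ Finset.range (a + 1), ∑ k' ∈ Finset.range (a' + 1),
      if u ≤ a - k ∧ u' ≤ a' - k' then c * G (a - k - u) (a' - k' - u') k k' else 0) =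
      if u ≤ a ∧ u' ≤ a' then c * ∑ k ∈ Finset.range (a - u + 1), ∑ k' ∈ Finset.range (a' - u' + 1),
        G (a - u - k) (a' - u' - k') k k' else 0 := by
  by_cases h : u ≤ a ∧ u' ≤ a'
  swap
  · rw [if_neg h]
    refine Finset.sum_eq_zero fun k _ => Finset.sum_eq_zero fun k' _ => if_neg ?_
    rintro ⟨h1, h2⟩
    exact h ⟨h1.trans (Nat.sub_le _ _), h2.trans (Nat.sub_le _ _)⟩
  · rw [if_pos h, Finset.mul_sum]
    have s1 : ∑ k ∈ Finset.range (a + 1), ∑ k' ∈ Finset.range (a' + 1),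
        (if u ≤ a - k ∧ u' ≤ a' - k' then c * G (a - k - u) (a' - k' - u') k k' else 0) =
        ∑ k ∈ Finset.range (a - u + 1), ∑ k' ∈ Finset.range (a' + 1),
        (if u ≤ a - k ∧ u' ≤ a' - k' then c * G (a - k - u) (a' - k' - u') k k' else 0) := by
      symm
      refine Finset.sum_subset (fun k hk => ?_) fun k hk hk2 => Finset.sum_eq_zero fun k' _ => ?_
      · rw [Finset.mem_range] at hk ⊢
        omega
      · rw [if_neg]
        rintro ⟨h1, h2⟩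
        rw [Finset.mem_range] at hk hk2
        omega
    rw [s1]
    refine Finset.sum_congr rfl fun k hk => ?_
    rw [Finset.mem_range] at hk
    rw [Finset.mul_sum]
    have s2 : ∑ k' ∈ Finset.range (a' + 1),
        (if u ≤ a - k ∧ u' ≤ a' - k' then c * G (a - k - u) (a' - k' - u') k k' else 0) =
        ∑ k' ∈ Finset.range (a' - u' + 1),
        (if u ≤ a - k ∧ u' ≤ a' - k' then c * G (a - k - u) (a' - k' - u') k k' else 0) := by
      symm
      refine Finset.sum_subset (fun k' hk' => ?_) fun k' hk' hk2 => ?_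
      · rw [Finset.mem_range] at hk' ⊢
        omega
      · rw [if_neg]
        rintro ⟨h1, h2⟩
        rw [Finset.mem_range] at hk' hk2
        omega
    rw [s2]
    refine Finset.sum_congr rfl fun k' hk' => ?_
    rw [Finset.mem_range] at hk'
    rw [if_pos ⟨by omega, by omega⟩]
    have e1 : a - k - u = a - u - k := by omega
    have e2 : a' - k' - u' = a' - u' - k' := by omega
    rw [e1, e2]

/-- **the exact identity with one simple pole**, from the step over the pole -/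
theorem exact_w_of {W : Bool → ℂ → ℂ} {s0 : Bool} {w : ℂ} (M : Geo6 xl a₀ a₁ x y b₁ b₂ yl)
    (S : Sp6 xl a₀ a₁ x y b₁ b₂ yl κ κ' q0 true b d (W true) F E)
    (S' : Sp6 xl a₀ a₁ x y b₁ b₂ yl κ κ' q0 false b' d' (W false) F' E') (hκ : 0 < κ)
    (hκ' : κ' < 6)
    (S1 : Sp6 xl a₀ a₁ x y b₁ b₂ yl κ₂ κ₂' q1 true b d₁ (ad W s0 w true) F1 E1)
    (S1' : Sp6 xl a₀ a₁ x y b₁ b₂ yl κ₂ κ₂' q1 false b' d₁' (ad W s0 w false) F1' E1')
    (hκ₂ : 0 < κ₂) (hκ₂' : κ₂' < 6) (hq1 : q1 = q0 - sg s0)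
    (hF1 : ∀ z : ℂ, x ≤ z.re → z.re ≤ y → F1 z = F z * PP true s0 (z - w))
    (hF1' : ∀ z : ℂ, x ≤ z.re → z.re ≤ y → F1' z = F' z * PP false s0 (z - w))
    {a a' : ℕ} (hq : (a : ℝ) - a' = q0) {pl : Bool → Finset ℂ}
    (hpl : ∀ s, ∀ p ∈ pl s, x < p.re ∧ p.re < y) {g : Bool → ℂ → ℂ} (hκ₁ : 0 < κ₁) {y1 : ℝ}
    (hy1 : y ≤ y1) (hyl : y1 ≤ yl)
    (hg : Reg pl κ₁ x y1 (a * sg true + a' * sg false) g)
    (hx : ∀ s (u : ℂ), u.re = x → W s u = Wt pl g s u)
    (hy : ∀ s (u : ℂ), u.re = y1 → W s u = Wt pl g s u)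
    (hF : ∀ z : ℂ, x ≤ z.re → z.re ≤ y → Wt pl g true z = F z / ∏ i, (z - db b i))
    (hF' : ∀ z : ℂ, x ≤ z.re → z.re ≤ y → Wt pl g false z = F' z / ∏ i, (z - db b' i)) {c : ℂ}
    (hP : ∃ R₀ : ℝ, ∀ R, R₀ ≤ R → ∀ k ≤ a, ∀ k' ≤ a',
      GPk x y R y1 b b' W F F' (a - k) (a' - k') k k' =
        GPk x y R yl b b' W F F' (a - k) (a' - k') k k' +
        if nWp true s0 ≤ a - k ∧ nWp false s0 ≤ a' - k' then c *
          GPk x y R yl b b' (ad W s0 w) (fun z => F z * PP true s0 (z - w))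
            (fun z => F' z * PP false s0 (z - w)) (a - k - nWp true s0) (a' - k' - nWp false s0) k k'
          else 0) :
    gas a a' x (W true) (W false) = exR xl yl W b d b' d' F E F' E' a a' +
      if nWp true s0 ≤ a ∧ nWp false s0 ≤ a' then c *
        exR xl yl (ad W s0 w) b d₁ b' d₁' F1 E1 F1' E1' (a - nWp true s0) (a' - nWp false s0)
      else 0 := by
  have g1 := M.h1
  have g2 := M.h2
  have g3 := M.h3
  have g4 := M.h4
  have g9 := M.h9
  have g10 := M.h10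
  have g11 := M.h11
  obtain ⟨R1, r1⟩ := exists_R b
  obtain ⟨R2, r2⟩ := exists_R b'
  obtain ⟨R3, r3⟩ := exists_InR hpl
  obtain ⟨R4, r4⟩ := hP
  set R : ℝ := max 1 (max R1 (max R2 (max R3 R4))) with hRdef
  have hR : 0 < R := lt_of_lt_of_le zero_lt_one (le_max_left _ _)
  have m0 : max R1 (max R2 (max R3 R4)) ≤ R := le_max_right _ _
  have m1 : R1 ≤ R := (le_max_left _ _).trans m0
  have m2' : max R2 (max R3 R4) ≤ R := (le_max_right _ _).trans m0
  have m2 : R2 ≤ R := (le_max_left _ _).trans m2'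
  have m3' : max R3 R4 ≤ R := (le_max_right _ _).trans m2'
  have m3 : R3 ≤ R := (le_max_left _ _).trans m3'
  have m4 : R4 ≤ R := (le_max_right _ _).trans m3'
  have re : ∀ t, x ≤ (rP x y R t).re ∧ (rP x y R t).re ≤ y := fun t =>
    ⟨(rP_mem g3.le hR.le t).1, (rP_mem g3.le hR.le t).2.1⟩
  have hb : ∀ i, |(b i).im| < R := fun i => (r1 i).trans_le m1
  have hb' : ∀ i, |(b' i).im| < R := fun i => (r2 i).trans_le m2
  rw [gas_GPk (r3 R m3) hκ₁ g3.le hy1 (by linarith) hR.le a a' hg hx hy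
    (fun t => hF _ (re t).1 (re t).2) (fun t => hF' _ (re t).1 (re t).2)]
  have e1 : ∀ k ∈ Finset.range (a + 1), ∀ k' ∈ Finset.range (a' + 1),
      GPk x y R y1 b b' W F F' (a - k) (a' - k') k k' =
        GPk x y R yl b b' W F F' (a - k) (a' - k') k k' +
        if nWp true s0 ≤ a - k ∧ nWp false s0 ≤ a' - k' then c *
          GPk x y R yl b b' (ad W s0 w) F1 F1' (a - k - nWp true s0) (a' - k' - nWp false s0) k k'
          else 0 := by
    intro k hk k' hk'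
    rw [Finset.mem_range] at hk hk'
    rw [r4 R m4 k (by omega) k' (by omega), GPk_congr g3.le hR.le b b' (ad W s0 w) hF1 hF1']
  rw [Finset.sum_congr rfl fun k hk => Finset.sum_congr rfl fun k' hk' => e1 k hk k' hk']
  simp only [Finset.sum_add_distrib]
  rw [sumGPk M S S' hκ hκ' hR hb hb' hq,
    sum_less (nWp true s0) (nWp false s0) a a'
      (fun n n' k k' => GPk x y R yl b b' (ad W s0 w) F1 F1' n n' k k') c]
  congr 1
  by_cases h : nWp true s0 ≤ a ∧ nWp false s0 ≤ a'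
  · rw [if_pos h, if_pos h, sumGPk M S1 S1' hκ₂ hκ₂' hR hb hb' (by
      rw [hq1, ← hq]
      obtain ⟨h1, h2⟩ := h
      push_cast [h1, h2]
      cases s0 <;> simp [nWp, sg] <;> ring)]
  · rw [if_neg h, if_neg h]

/-- **the exact identity with poles between the rectangles and the line of the quanta**, from the
step over the poles: `U` = the finite family of the filled fields, `uX α`, `uY α` = numbers of the
quanta at the poles -/
theorem exact_U_of {U : Type*} [Fintype U] {νX νY : U → Type} [∀ α, LinearOrder (νX α)]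
    [∀ α, Fintype (νX α)] [∀ α, LinearOrder (νY α)] [∀ α, Fintype (νY α)]
    {dX : ∀ α, νX α → ℂ} {dY : ∀ α, νY α → ℂ} {Wf : U → Bool → ℂ → ℂ} {Fx Ex Fy Ey : U → ℂ → ℂ}
    {κU κU' qU : U → ℝ} {uX uY : U → ℕ} {c : U → ℂ} (M : Geo6 xl a₀ a₁ x y b₁ b₂ yl)
    (SX : ∀ α, Sp6 xl a₀ a₁ x y b₁ b₂ yl (κU α) (κU' α) (qU α) true b (dX α) (Wf α true) (Fx α) (Ex α))
    (SY : ∀ α, Sp6 xl a₀ a₁ x y b₁ b₂ yl (κU α) (κU' α) (qU α) false b' (dY α) (Wf α false) (Fy α)
      (Ey α))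
    (hκ : ∀ α, 0 < κU α) (hκ' : ∀ α, κU' α < 6) {a a' : ℕ}
    (hq : ∀ α, uX α ≤ a → uY α ≤ a' → qU α = ((a - uX α : ℕ) : ℝ) - ((a' - uY α : ℕ) : ℝ))
    {W : Bool → ℂ → ℂ} {pl : Bool → Finset ℂ}
    (hpl : ∀ s, ∀ p ∈ pl s, x < p.re ∧ p.re < y) {g : Bool → ℂ → ℂ} (hκ₁ : 0 < κ₁) {y1 : ℝ}
    (hy1 : y ≤ y1) (hyl : y1 ≤ yl)
    (hg : Reg pl κ₁ x y1 (a * sg true + a' * sg false) g)
    (hx : ∀ s (u : ℂ), u.re = x → W s u = Wt pl g s u)
    (hy : ∀ s (u : ℂ), u.re = y1 → W s u = Wt pl g s u)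
    (hF : ∀ z : ℂ, x ≤ z.re → z.re ≤ y → Wt pl g true z = F z / ∏ i, (z - db b i))
    (hF' : ∀ z : ℂ, x ≤ z.re → z.re ≤ y → Wt pl g false z = F' z / ∏ i, (z - db b' i))
    (hP : ∃ R₀ : ℝ, ∀ R, R₀ ≤ R → ∀ k ≤ a, ∀ k' ≤ a',
      GPk x y R y1 b b' W F F' (a - k) (a' - k') k k' = ∑ α, if uX α ≤ a - k ∧ uY α ≤ a' - k' then
        c α * GPk x y R yl b b' (Wf α) (Fx α) (Fy α) (a - k - uX α) (a' - k' - uY α) k k' else 0) :
    gas a a' x (W true) (W false) = ∑ α, if uX α ≤ a ∧ uY α ≤ a' then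
      c α * exR xl yl (Wf α) b (dX α) b' (dY α) (Fx α) (Ex α) (Fy α) (Ey α) (a - uX α) (a' - uY α)
      else 0 := by
  have g1 := M.h1
  have g2 := M.h2
  have g3 := M.h3
  have g4 := M.h4
  have g9 := M.h9
  have g10 := M.h10
  have g11 := M.h11
  obtain ⟨R1, r1⟩ := exists_R b
  obtain ⟨R2, r2⟩ := exists_R b'
  obtain ⟨R3, r3⟩ := exists_InR hpl
  obtain ⟨R4, r4⟩ := hP
  set R : ℝ := max 1 (max R1 (max R2 (max R3 R4))) with hRdef
  have hR : 0 < R := lt_of_lt_of_le zero_lt_one (le_max_left _ _)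
  have m0 : max R1 (max R2 (max R3 R4)) ≤ R := le_max_right _ _
  have m1 : R1 ≤ R := (le_max_left _ _).trans m0
  have m2' : max R2 (max R3 R4) ≤ R := (le_max_right _ _).trans m0
  have m2 : R2 ≤ R := (le_max_left _ _).trans m2'
  have m3' : max R3 R4 ≤ R := (le_max_right _ _).trans m2'
  have m3 : R3 ≤ R := (le_max_left _ _).trans m3'
  have m4 : R4 ≤ R := (le_max_right _ _).trans m3'
  have re : ∀ t, x ≤ (rP x y R t).re ∧ (rP x y R t).re ≤ y := fun t =>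
    ⟨(rP_mem g3.le hR.le t).1, (rP_mem g3.le hR.le t).2.1⟩
  have hb : ∀ i, |(b i).im| < R := fun i => (r1 i).trans_le m1
  have hb' : ∀ i, |(b' i).im| < R := fun i => (r2 i).trans_le m2
  rw [gas_GPk (r3 R m3) hκ₁ g3.le hy1 (by linarith) hR.le a a' hg hx hy
    (fun t => hF _ (re t).1 (re t).2) (fun t => hF' _ (re t).1 (re t).2)]
  have e1 : ∀ k ∈ Finset.range (a + 1), ∀ k' ∈ Finset.range (a' + 1),
      GPk x y R y1 b b' W F F' (a - k) (a' - k') k k' = ∑ α, if uX α ≤ a - k ∧ uY α ≤ a' - k' then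
        c α * GPk x y R yl b b' (Wf α) (Fx α) (Fy α) (a - k - uX α) (a' - k' - uY α) k k' else 0 := by
    intro k hk k' hk'
    rw [Finset.mem_range] at hk hk'
    exact r4 R m4 k (by omega) k' (by omega)
  rw [Finset.sum_congr rfl fun k hk => Finset.sum_congr rfl fun k' hk' => e1 k hk k' hk']
  have e2 : ∀ f : ℕ → ℕ → U → ℂ, (∑ k ∈ Finset.range (a + 1), ∑ k' ∈ Finset.range (a' + 1),
      ∑ α, f k k' α) = ∑ α, ∑ k ∈ Finset.range (a + 1), ∑ k' ∈ Finset.range (a' + 1), f k k' α := by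
    intro f
    rw [Finset.sum_comm (s := Finset.univ)]
    exact Finset.sum_congr rfl fun k _ => Finset.sum_comm
  rw [e2]
  refine Finset.sum_congr rfl fun α _ => ?_
  rw [sum_less (uX α) (uY α) a a'
      (fun n n' k k' => GPk x y R yl b b' (Wf α) (Fx α) (Fy α) n n' k k') (c α)]
  by_cases h : uX α ≤ a ∧ uY α ≤ a'
  · rw [if_pos h, if_pos h, sumGPk M (SX α) (SY α) (hκ α) (hκ' α) hR hb hb' (hq α h.1 h.2).symm]
  · rw [if_neg h, if_neg h]

end

end NUP1S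

end
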