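import Pool.Agent.PHK.HostX

/-!
# (P): the gas in the field of a word on `51/100 l`

* **`geoG`**: the geometry, strips free; **`hr_word`**: the objects of a word; `reg_word`, `fW_Wt`;
* **`hex_word`**: the gas on `51/100 l` is `exR`.
-/

set_option autoImplicit false
set_option linter.unusedSectionVars false

noncomputable section

open Complex MeasureTheory Finset
open scoped Real ENNReal

namespace PHK

open NUO NUP1 NUP1S NUP1S.Mg NUP1S.Ab NUP1S.AbG NURow NUP1S.HF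
open NUP1.Bd (wt Ob)
open Pool.Agent.PHK (lM lG lK)
open NUP1.Bd (qg)

/-- **the geometry of (P)**, strips free -/
theorem geoG {P : Par6} (hG : GoodP6 P) {a₀ y b₁ b₂ : ℝ} (ha : 0 < a₀) (ha2 : a₀ < (1 - P.j2) * l)
    (ha5 : a₀ ≤ 51 / 100 * l) (hy : (1 - P.e) * l < y) (hy1 : y ≤ (1 - P.j1) * l) (hyb : y < b₁)
    (hb : b₁ ≤ l) (hb2 : (1 - P.j1) * l < b₂) (hb3 : b₂ ≤ l) :
    Geo6 (lnH P) a₀ (51 / 100 * l) (xG P) y b₁ b₂ l := by
  have hl := Bd.l_pos
  have k2 := hG.ej2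
  have e1 : lnH P true = (1 - P.j1) * l := rfl
  have e2 : lnH P false = (1 - P.j2) * l := rfl
  refine ⟨?_, ?_, (xG_hi hG).trans hy, hy1, ha5, xG_lo P, hyb, by linarith, ?_, hb3, by linarith⟩
  · rw [e2]
    exact ha2
  · rw [e2]
    exact le_trans (by nlinarith) (le_max_right _ _)
  · rw [e1]
    exact hb2

section word

variable {Z : Bool → Option O3 → ℂ → ℂ} {P : Par6} {p p' : ℕ} {k : Fin p → O3} {k' : Fin p' → O3}
  {t : Fin p ⊕ Fin p' → ℝ}

/-- the strings of a word -/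
abbrev acW (k : Fin p → O3) (k' : Fin p' → O3) (i : Fin p ⊕ Fin p') : Prop := kkW k k' i = .S

/-- **the objects of a word** -/
theorem hr_word (hP : GoodP6 P) (ht : Function.Injective t) {u v : ℝ} (hu : 51 / 100 * l ≤ u)
    (hv : v ≤ l) : HR (o3 k k') (zW P k k' t) (acW k k') u v where
  str i hi := by
    rw [o3_eq, hi]
    rfl
  lo i hi := by
    have hl := Bd.l_pos
    have h1 := hP.e13
    rw [zW_re, hi]
    show l < u - -((1 + P.e) * l)
    nlinarith
  hi i hi := by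
    have hl := Bd.l_pos
    have h1 := hP.e45
    rw [zW_re, hi]
    show v - -((1 + P.e) * l) < 3 * l
    nlinarith
  inj i j _ _ _ hz := by
    have h1 := congrArg Complex.im hz
    rw [zW_im, zW_im] at h1
    exact ht h1
  ok i hi s r hr := by
    have hl := Bd.l_pos
    have := rng_dk (t := t) hP (u := ((r : ℝ) : ℂ)) (by rw [ofReal_re]; linarith [hr.1])
      (by rw [ofReal_re]; linarith [hr.2]) hi
    rw [sub_re, ofReal_re] at this
    rw [o3_eq]
    exact ok_dk this _ _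

theorem sum_sc : ∑ i, sc (o3 k k' i) = cW k k' := by
  rw [Fintype.sum_sum_type]
  unfold cW
  simp only [o3_eq, sW, kkW, Sum.isLeft_inl, Sum.isLeft_inr, Sum.elim_inl, Sum.elim_inr]
  unfold sc
  simp only [if_true, Bool.false_eq_true, if_false, Finset.sum_neg_distrib]
  rw [sub_eq_add_neg]
  rfl

/-- **the regular part of the field of a word** -/
theorem reg_word (hP : GoodP6 P) (ht : Function.Injective t) {u v κ Q : ℝ} (hu : 51 / 100 * l ≤ u)
    (hv : v ≤ l) (hm : ∀ s, Measurable (Z s none))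
    (hd : ∀ s (z : ℂ), u ≤ z.re → z.re ≤ v → DifferentiableAt ℂ (Z s none) z)
    (hb : ∀ s, DecOn (κ + 2 * Q * sc (s, Ob.A)) (Set.Icc u v) (Z s none)) {a a' : ℕ}
    (hq : (a : ℝ) - a' = Q - cW k k') :
    Reg (plS (o3 k k') (zW P k k' t) (acW k k')) κ u v (a * sg true + a' * sg false)
      (gr (o3 k k') (zW P k k' t) (acW k k') fun s => Z s none) := by
  refine (hr_word hP ht hu hv).reg hm hd (r := fun s => κ + 2 * Q * sc (s, Ob.A))
    (fun s => decOn_bdd (hb s)) fun s => le_of_eq ?_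
  rw [← Finset.mul_sum, sum_sc, sc_sA]
  have e : Q = ((a : ℝ) - a') + cW k k' := by linarith
  rw [e]
  cases s <;> simp [sg] <;> ring

/-- **the field of a word** -/
theorem fW_Wt (hP : GoodP6 P) (ht : Function.Injective t) {u v : ℝ} (hu : 51 / 100 * l ≤ u)
    (hv : v ≤ l) (s : Bool) {z : ℂ} (h1 : u ≤ z.re) (h2 : z.re ≤ v) :
    fW Z P k k' t s z = Wt (plS (o3 k k') (zW P k k' t) (acW k k'))
      (gr (o3 k k') (zW P k k' t) (acW k k') fun s => Z s none) s z := by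
  rw [(hr_word hP ht hu hv).Wt_gr s h1 h2]
  rfl

theorem pl_word (hP : GoodP6 P) {s : Bool} {q : ℂ}
    (hq : q ∈ plS (o3 k k') (zW P k k' t) (acW k k') s) : q.re = (1 - P.e) * l := by
  obtain ⟨i, ⟨hi, -⟩, rfl⟩ := mem_plS.1 hq
  rw [add_re, zW_re, hi]
  show -((1 + P.e) * l) + _ = _
  simp only [mul_re, ofReal_re, ofReal_im]
  norm_num
  ring

theorem bY_pl (i : {i : Fin p' // k' i = .S}) :
    bT (zY P k k' t) i ∈ plS (o3 k k') (zW P k k' t) (acW k k') true := by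
  refine mem_plS.2 ⟨Sum.inr i.1, ⟨i.2, ?_⟩, rfl⟩
  rw [o3_S']
  exact Bool.false_ne_true

theorem bX_pl (i : {i : Fin p // k i = .S}) :
    bT (zX P k k' t) i ∈ plS (o3 k k') (zW P k k' t) (acW k k') false := by
  refine mem_plS.2 ⟨Sum.inl i.1, ⟨i.2, ?_⟩, rfl⟩
  rw [o3_S]
  exact Bool.false_ne_true.symm

theorem sw_strip {z z' : ℂ} (hP : GoodP6 P) (h : z'.re = -((1 + P.e) * l)) (h1 : 51 / 100 * l ≤ z.re)
    (h2 : z.re ≤ l) : Sw (z - z') := by
  have hl := Bd.l_pos
  have h3 := hP.e45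
  have h4 := hP.e13
  unfold Sw
  rw [sub_re, h]
  constructor <;> nlinarith

/-- the first species on the rectangle -/
theorem hF_word (hP : GoodP6 P) (ht : Function.Injective t) {z : ℂ} (h1 : 51 / 100 * l ≤ z.re)
    (h2 : z.re ≤ l) : Wt (plS (o3 k k') (zW P k k' t) (acW k k'))
      (gr (o3 k k') (zW P k k' t) (acW k k') fun s => Z s none) true z =
    FH (Z true none) (zX P k k' t) (zY P k k' t) (KW P k k' t true) z /
      ∏ i, (z - Pool.Agent.PHD.db (bY P k k' t) i) := by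
  refine Wt_FH (zt := zY P k k' t) bY_pl (fun i => sw_strip hP (zY_re i) h1 h2) fun _ => ?_
  rw [← fW_Wt hP ht le_rfl le_rfl true h1 h2, fW_true]

/-- the second species on the rectangle -/
theorem hF_word' (hP : GoodP6 P) (ht : Function.Injective t) {z : ℂ} (h1 : 51 / 100 * l ≤ z.re)
    (h2 : z.re ≤ l) : Wt (plS (o3 k k') (zW P k k' t) (acW k k'))
      (gr (o3 k k') (zW P k k' t) (acW k k') fun s => Z s none) false z =
    FH (Z false none) (zY P k k' t) (zX P k k' t) (KW P k k' t false) z /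
      ∏ i, (z - Pool.Agent.PHD.db (bX P k k' t) i) := by
  refine Wt_FH (zt := zX P k k' t) bX_pl (fun i => sw_strip hP (zX_re i) h1 h2) fun _ => ?_
  rw [← fW_Wt hP ht le_rfl le_rfl false h1 h2, fW_false]

/-- the numbers of the free quanta -/
theorem nA_cW {n n' : ℕ} {Q : ℤ} (hc : ∑ i, c3 (k i) ≤ n) (hc' : ∑ i, c3 (k' i) ≤ n')
    (hn : (n : ℤ) = n' + Q) : ((nA n k : ℕ) : ℝ) - (nA n' k' : ℕ) = (Q : ℝ) - cW k k' := by
  have hn' : (n : ℝ) = n' + Q := by exact_mod_cast hn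
  unfold nA cW
  push_cast [hc, hc']
  linarith

/-- **the gas of a word on the line `51/100 l`** -/
theorem hex_word {ν ν' : Type} [Fintype ν] [Fintype ν'] [LinearOrder ν] [LinearOrder ν']
    {d : ν → ℂ} {d' : ν' → ℂ} {a₀ a₁ y b₁ b₂ κ κ' : ℝ} {E E' : ℂ → ℂ} {Q : ℤ} {n n' : ℕ}
    (hP : GoodP6 P) (ht : Function.Injective t) (M : Geo6 (lnH P) a₀ a₁ (xG P) y b₁ b₂ l)
    (hy : (1 - P.e) * l < y) (hyl : y ≤ l)
    (S : Sp6 (lnH P) a₀ a₁ (xG P) y b₁ b₂ l κ κ' (Q - cW k k') true (bY P k k' t) d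
      (fW Z P k k' t true) (FH (Z true none) (zX P k k' t) (zY P k k' t) (KW P k k' t true)) E)
    (S' : Sp6 (lnH P) a₀ a₁ (xG P) y b₁ b₂ l κ κ' (Q - cW k k') false (bX P k k' t) d'
      (fW Z P k k' t false) (FH (Z false none) (zY P k k' t) (zX P k k' t) (KW P k k' t false)) E')
    (hκ : 0 < κ) (hκ' : κ' < 6) (hm : ∀ s, Measurable (Z s none))
    (hd : ∀ s (z : ℂ), 51 / 100 * l ≤ z.re → z.re ≤ l → DifferentiableAt ℂ (Z s none) z)
    (hb : ∀ s, DecOn (κ + 2 * Q * sc (s, Ob.A)) (Set.Icc (51 / 100 * l) l) (Z s none))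
    (hc : ∑ i, c3 (k i) ≤ n) (hc' : ∑ i, c3 (k' i) ≤ n') (hn : (n : ℤ) = n' + Q) :
    gas (nA n k) (nA n' k') (51 / 100 * l) (fW Z P k k' t true) (fW Z P k k' t false) =
      exR (lnH P) l (fW Z P k k' t) (bY P k k' t) d (bX P k k' t) d'
        (FH (Z true none) (zX P k k' t) (zY P k k' t) (KW P k k' t true)) E
        (FH (Z false none) (zY P k k' t) (zX P k k' t) (KW P k k' t false)) E'
        (nA n k) (nA n' k') := by
  have hl := Bd.l_pos
  have hx := xG_lo P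
  have hx2 := xG_hi hP
  have hq := nA_cW (k := k) (k' := k') hc hc' hn
  exact HostP.exact0 M S S' hκ hκ' hq hx.le (by linarith)
    (pl := plS (o3 k k') (zW P k k' t) (acW k k'))
    (fun s q hq => by rw [pl_word hP hq]; exact ⟨hx2, hy⟩)
    (g := gr (o3 k k') (zW P k k' t) (acW k k') fun s => Z s none) hκ
    (reg_word hP ht le_rfl le_rfl hm hd hb hq)
    (fun s u h1 h2 => fW_Wt hP ht le_rfl le_rfl s h1 h2)
    (fun z h1 h2 => hF_word hP ht (by linarith) (by linarith))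
    (fun z h1 h2 => hF_word' hP ht (by linarith) (by linarith))

end word

end PHK

end
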