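import Pool.Agent.PLX.KRep
import Pool.Agent.PLX.DZUclsP

/-!
# (P): spectators with their inverses

* `SpW6 q s`: spectators of growth `exp (2 q |Im|)`, analytic on `-49/20 l ≤ Re ≤ 21/20 l`, without zeros on
  `1/10 l < Re ≤ 21/20 l` (the strip of the holes), the inverse of growth `exp (-2 q |Im|)`;
* `SpW6.toW`, `SpW6.specP`, `SpW6.inv_bdd`: the landed forms;
* instances: `SpW6.leg` (`-9/10 l ≤ Re z ≤ 31/10 l`), `SpW6.minusX`, `SpW6.minusY`, `SpW6.sX`, `SpW6.sY`
  (`Re w` in `[-47/50 l, 1/10 l]`), `SpW6.far` (the states of a far row).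
-/

set_option autoImplicit false
set_option linter.unusedSectionVars false
set_option linter.unusedVariables false

noncomputable section

open Complex MeasureTheory
open scoped ENNReal

namespace Pool.Agent.PLX

open NUO NUP1 NUP1S NUP1.Bd NURow
open PBX (Rws ph GOk KK K1_KK Lg gP Lg_meas Lg_diff Lg_gr Bdd_of_Gr)
open NUGC.PLX (SpecAt SpecS)
open _root_.RX (Wo Vo kO kX k1 LL Fr Fr_of)
open PBS (Th)

/-- **spectators of growth `exp (2 q |Im|)` with their inverses** -/
structure SpW6 (q : ℝ) (s : ℂ → ℂ) : Prop where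
  meas : Measurable s
  diff : ∀ z : ℂ, -(49 / 20 * l) ≤ z.re → z.re ≤ 21 / 20 * l → DifferentiableAt ℂ s z
  gr : Gr (21 / 20 * l) (-(49 / 20 * l)) (2 * q) s
  ne : ∀ z : ℂ, 1 / 10 * l < z.re → z.re ≤ 21 / 20 * l → s z ≠ 0
  gri : Gr (21 / 20 * l) (-(49 / 20 * l)) (-(2 * q)) fun z => (s z)⁻¹

theorem SpW6.mul {q r : ℝ} {s t : ℂ → ℂ} (h : SpW6 q s) (k : SpW6 r t) :
    SpW6 (q + r) (fun u => s u * t u) where
  meas := h.meas.mul k.meas
  diff z h1 h2 := (h.diff z h1 h2).mul (k.diff z h1 h2)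
  gr := (h.gr.mul k.gr).mono (le_of_eq (by ring))
  ne z h1 h2 := mul_ne_zero (h.ne z h1 h2) (k.ne z h1 h2)
  gri := ((h.gri.mul k.gri).mono (le_of_eq (by ring))).congr 0 fun u _ _ _ => mul_inv _ _

/-- the landed form -/
theorem SpW6.toW {q : ℝ} {s : ℂ → ℂ} (h : SpW6 q s) : SpW q s where
  meas := h.meas
  diff z h1 h2 := by
    have hl := lpos
    exact h.diff z (by linarith) h2
  gr := h.gr.strip (by have hl := lpos; linarith) le_rfl

theorem SpW6.one : SpW6 0 fun _ => 1 where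
  meas := measurable_const
  diff z _ _ := differentiableAt_const _
  gr := by
    rw [mul_zero]
    exact Gr.const 1
  ne z _ _ := one_ne_zero
  gri := by
    rw [mul_zero, neg_zero]
    simpa using (Gr.const (α := 21 / 20 * l) (β := -(49 / 20 * l)) 1)

/-- the lines of (P) -/
theorem lnR6 : LnR (51 / 100 * l) (-(29 / 20 * l)) := by
  have hl := lpos
  constructor <;> linarith

/-- **the data of the class formula on the lines of (P)** -/
theorem SpW6.specP {a : Bool} {q : ℝ} {s : ℂ → ℂ} (h : SpW6 (sc (a, .A) * q) s) :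
    SpecP (51 / 100 * l) (-(29 / 20 * l)) a (-q) s (fun w => s w * s (w - l)) := by
  have hl := lpos
  have d1 : ∀ z : ℂ, z.re ∈ K1P (51 / 100 * l) → DifferentiableAt ℂ s z := by
    rintro z (⟨h1, h2⟩ | ⟨h1, h2⟩)
    · exact h.diff z (by linarith) (by linarith)
    · exact h.diff z (by linarith) (by linarith)
  have d2 : ∀ w : ℂ, w.re ∈ K2P (-(29 / 20 * l)) → DifferentiableAt ℂ (fun w => s w * s (w - l)) w := by
    rintro w ⟨h1, h2⟩
    refine (h.diff w (by linarith) (by linarith)).mul ?_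
    refine (h.diff (w - l) ?_ ?_).comp w (differentiableAt_id.sub_const _)
    · have e : (w - (l : ℂ)).re = w.re - l := by simp
      rw [e]
      linarith
    · have e : (w - (l : ℂ)).re = w.re - l := by simp
      rw [e]
      linarith
  refine ⟨h.meas, h.meas.mul (h.meas.comp (measurable_id.sub_const _)), ?_, ?_, d1, d2, fun z _ => rfl⟩
  · have h1 := Bdd_of_Gr (K := K1P (51 / 100 * l)) isCompact_K1P (α := 21 / 20 * l) (β := -(49 / 20 * l))
      (s := 2 * (sc (a, .A) * q)) (by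
        rintro r (⟨h1, h2⟩ | ⟨h1, h2⟩)
        · constructor <;> linarith
        · constructor <;> linarith) h.gr (fun z hz => (d1 z hz).continuousAt)
    exact h1.rate (by ring)
  · obtain ⟨C, R, hC, hb⟩ := h.gr
    have h2 : Bdd (K2P (-(29 / 20 * l))) (4 * (sc (a, .A) * q)) fun w => s w * s (w - l) := by
      refine PBX.bdd_glueR (R := R) isCompact_K2P (fun z hz => (d2 z hz).continuousAt)
        ⟨C * C, by positivity, fun z hz hi => ?_⟩
      have e : (z - (l : ℂ)).re = z.re - l := by simp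
      have e' : (z - (l : ℂ)).im = z.im := by simp
      obtain ⟨h1, h2⟩ := hz
      have b1 := hb z (by linarith) (by linarith) hi
      have b2 := hb (z - l) (by rw [e]; linarith) (by rw [e]; linarith) (by rw [e']; exact hi)
      rw [e'] at b2
      rw [norm_mul]
      calc ‖s z‖ * ‖s (z - l)‖ ≤ (C * Real.exp (2 * (sc (a, .A) * q) * |z.im|)) *
            (C * Real.exp (2 * (sc (a, .A) * q) * |z.im|)) :=
            mul_le_mul b1 b2 (norm_nonneg _) (by positivity)
        _ = C * C * Real.exp (4 * (sc (a, .A) * q) * |z.im|) := by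
            have e3 : Real.exp (4 * (sc (a, .A) * q) * |z.im|) =
                Real.exp (2 * (sc (a, .A) * q) * |z.im|) * Real.exp (2 * (sc (a, .A) * q) * |z.im|) := by
              rw [← Real.exp_add]
              congr 1
              ring
            rw [e3]
            ring
    refine h2.rate ?_
    rw [sc_S]
    ring

/-- the quanta from any line on -/
theorem SpW6.specAt {a : Bool} {q : ℝ} {s : ℂ → ℂ} (h : SpW6 (sc (a, .A) * q) s) {x0 : ℝ}
    (hx0 : 51 / 100 * l ≤ x0) : SpecAt x0 a (-q) s := by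
  have hl := lpos
  have hd : ∀ z : ℂ, z.re ∈ Set.Icc x0 (21 / 20 * l) → DifferentiableAt ℂ s z := fun z hz =>
    h.diff z (by linarith [hz.1]) hz.2
  refine ⟨?_, hd⟩
  have h1 := Bdd_of_Gr (K := Set.Icc x0 (21 / 20 * l)) isCompact_Icc (α := 21 / 20 * l)
    (β := -(49 / 20 * l)) (s := 2 * (sc (a, .A) * q)) (by
      rintro r ⟨h1, h2⟩
      constructor <;> linarith) h.gr (fun z hz => (hd z hz).continuousAt)
  exact h1.rate (by ring)

/-- the inverse in the strip of the holes -/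
theorem SpW6.inv_diff {q : ℝ} {s : ℂ → ℂ} (h : SpW6 q s) {z : ℂ} (h1 : 1 / 10 * l < z.re)
    (h2 : z.re ≤ 21 / 20 * l) : DifferentiableAt ℂ (fun z => (s z)⁻¹) z := by
  have hl := lpos
  exact (h.diff z (by linarith) h2).inv (h.ne z h1 h2)

theorem SpW6.inv_bdd {q : ℝ} {s : ℂ → ℂ} (h : SpW6 q s) {r : ℝ} (hr : 1 / 10 * l < r) :
    Bdd (Set.Icc r (21 / 20 * l)) (-(2 * q)) fun z => (s z)⁻¹ := by
  have hl := lpos
  refine Bdd_of_Gr (K := Set.Icc r (21 / 20 * l)) isCompact_Icc (α := 21 / 20 * l)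
    (β := -(49 / 20 * l)) (s := -(2 * q)) (fun t ht => ⟨by linarith [ht.1], ht.2⟩) h.gri fun z hz =>
      (h.inv_diff (lt_of_lt_of_le hr hz.1) hz.2).continuousAt

/-! ### instances -/

/-- zeros of the sine -/
theorem sin_ne_re {u : ℂ} {a : ℝ} (he : u.re = a) (h : Real.sin a ≠ 0) : sin u ≠ 0 := by
  refine Bd.sin_ne_zero_of_re ?_
  rw [he]
  exact h

/-- the legs -/
theorem SpW6.leg {z : ℂ} (h1 : -(9 / 10 * l) ≤ z.re) (h2 : z.re ≤ 31 / 10 * l) : SpW6 0 (Lg z z) where
  meas := Lg_meas z z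
  diff u h3 h4 := by
    have hl := lpos
    exact Lg_diff (sin_pos_of (by linarith) (by linarith)).ne'
  gr := by
    rw [mul_zero]
    exact Lg_gr _ _ z z
  ne u h3 h4 := by
    have hl := lpos
    unfold PBX.Lg
    refine div_ne_zero (sin_ne_re (a := z.re - u.re - 3 * l) (by simp) ?_)
      (sin_ne_re (a := z.re - u.re + 2 * l) (by simp) ?_)
    · have := sin_pos_of (x := -(z.re - u.re - 3 * l)) (by linarith) (by linarith)
      rw [Real.sin_neg] at this
      linarith
    · exact (sin_pos_of (by linarith) (by linarith)).ne'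
  gri := by
    rw [mul_zero, neg_zero]
    have g1 := Gr.sin (α := 21 / 20 * l) (β := -(49 / 20 * l)) (z + 2 * l)
    have g2 := Gr.inv_sin (α := 21 / 20 * l) (β := -(49 / 20 * l)) (z - 3 * l)
    refine ((g1.mul g2).mono (κ' := 0) (by norm_num)).congr 0 fun u _ _ _ => ?_
    unfold PBX.Lg
    rw [show z - u - 3 * l = -(u - (z - 3 * l)) by ring,
      show z - u + 2 * l = -(u - (z + 2 * l)) by ring, Complex.sin_neg, Complex.sin_neg,
      neg_div_neg_eq, inv_div, div_eq_mul_inv]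

/-- the minus row, own group -/
theorem SpW6.minusX {w : ℂ} (h1 : -(47 / 50 * l) ≤ w.re) (h2 : w.re ≤ 1 / 10 * l) :
    SpW6 1 (fun u => sin (u - w) * sin (u - w - 2 * l)) where
  meas := by fun_prop
  diff u _ _ := by fun_prop
  gr := sX_gr _ _ w
  ne u h3 h4 := by
    have hl := lpos
    refine mul_ne_zero (sin_ne_re (a := u.re - w.re) (by simp) (sin_pos_of (by linarith) (by linarith)).ne')
      (sin_ne_re (a := u.re - w.re - 2 * l) (by simp) ?_)
    have := sin_pos_of (x := -(u.re - w.re - 2 * l)) (by linarith) (by linarith)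
    rw [Real.sin_neg] at this
    linarith
  gri := by
    have g1 := Gr.inv_sin (α := 21 / 20 * l) (β := -(49 / 20 * l)) w
    have g2 := Gr.inv_sin (α := 21 / 20 * l) (β := -(49 / 20 * l)) (w + 2 * l)
    refine ((g1.mul g2).mono (κ' := -(2 * 1)) (by norm_num)).congr 0 fun u _ _ _ => ?_
    rw [show u - (w + 2 * (l : ℂ)) = u - w - 2 * l by ring, mul_inv]

/-- the minus row, other group -/
theorem SpW6.minusY {w : ℂ} (h1 : -(47 / 50 * l) ≤ w.re) (h2 : w.re ≤ 1 / 2 * l) :
    SpW6 (-1) (fun v => 1 / sin (v - w + 3 * l) ^ 2) := by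
  have hl := lpos
  have hs : ∀ u : ℂ, -(49 / 20 * l) ≤ u.re → u.re ≤ 21 / 20 * l → sin (u - w + 3 * l) ≠ 0 := fun u h3 h4 =>
    sin_ne_re (a := u.re - w.re + 3 * l) (by simp) (sin_pos_of (by linarith) (by linarith)).ne'
  refine ⟨by fun_prop, fun u h3 h4 => ?_, sY_gr _ _ w, fun u h3 h4 => ?_, ?_⟩
  · have h0 := pow_ne_zero 2 (hs u h3 h4)
    fun_prop (disch := exact h0)
  · exact one_div_ne_zero (pow_ne_zero 2 (hs u (by linarith) h4))
  · have g := Gr.sin (α := 21 / 20 * l) (β := -(49 / 20 * l)) (w - 3 * l)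
    refine ((g.mul g).mono (κ' := -(2 * -1)) (by norm_num)).congr 0 fun u _ _ _ => ?_
    rw [show u - (w - 3 * (l : ℂ)) = u - w + 3 * l by ring, one_div, inv_inv, sq]

/-- the spectators of `JU` -/
theorem SpW6.sX {z w : ℂ} (hz : |z.re| < 7 / 10 * l) (h1 : -(47 / 50 * l) ≤ w.re) (h2 : w.re ≤ 1 / 10 * l) :
    SpW6 1 (sX z w) := by
  have hl := lpos
  obtain ⟨z1, z2⟩ := abs_lt.1 hz
  have h := (SpW6.leg (z := z) (by linarith) (by linarith)).mul (SpW6.minusX h1 h2)
  rw [zero_add] at h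
  exact h

theorem SpW6.sY {z w : ℂ} (hz : |z.re| < 7 / 10 * l) (h1 : -(47 / 50 * l) ≤ w.re) (h2 : w.re ≤ 1 / 2 * l) :
    SpW6 (-1) (sY z w) := by
  have hl := lpos
  obtain ⟨z1, z2⟩ := abs_lt.1 hz
  have h := (SpW6.leg (z := z) (by linarith) (by linarith)).mul (SpW6.minusY h1 h2)
  rw [zero_add] at h
  exact h

/-- the far factors: places of the zeros and poles -/
theorem SpW6.WV (e : SignType) {x0 : ℂ} (h1 : 41 / 20 * l < x0.re)
    (h2 : x0.re ≤ (if e = .neg then 31 / 10 * l else 21 / 10 * l)) :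
    SpW6 ((ch e : ℤ) : ℝ) (fun u => Wo e (u - x0)) ∧ SpW6 (-((ch e : ℤ) : ℝ)) (fun u => Vo e (u - x0)) := by
  have hl := lpos
  have h3 : x0.re ≤ 31 / 10 * l := by
    refine h2.trans ?_
    split_ifs <;> linarith
  have hv : ∀ u : ℂ, -(49 / 20 * l) ≤ u.re → u.re ≤ 21 / 20 * l →
      -(6 * l) < (u - x0).re ∧ (u - x0).re < -l := fun u h3 h4 => by
    rw [sub_re]
    constructor <;> linarith
  -- growth of the two kinds of factors
  have s : ∀ c : ℂ, Gr (21 / 20 * l) (-(49 / 20 * l)) 1 (fun u => sin (u - x0 + c)) := fun c => by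
    have := Gr.sin (α := 21 / 20 * l) (β := -(49 / 20 * l)) (x0 - c)
    have e : (fun u => sin (u - (x0 - c))) = fun u => sin (u - x0 + c) := by
      funext u
      congr 1
      ring
    rwa [e] at this
  have i : ∀ c : ℂ, Gr (21 / 20 * l) (-(49 / 20 * l)) (-1) (fun u => (sin (u - x0 + c))⁻¹) := fun c => by
    have := Gr.inv_sin (α := 21 / 20 * l) (β := -(49 / 20 * l)) (x0 - c)
    have e : (fun u => (sin (u - (x0 - c)))⁻¹) = fun u => (sin (u - x0 + c))⁻¹ := by
      funext u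
      congr 2
      ring
    rwa [e] at this
  have a0 : ∀ u : ℂ, u - x0 + 0 = u - x0 := fun u => add_zero _
  have am : ∀ (u : ℂ) (c : ℂ), u - x0 + -c = u - x0 - c := fun u c => by ring
  have cosv : ∀ u : ℂ, cos (u - x0) = sin (u - x0 + 4 * l) := fun u => by
    rw [show (4 * l : ℂ) = Real.pi / 2 by unfold NUP1.l; push_cast; ring, Complex.sin_add_pi_div_two]
  have P : ∀ (u : ℂ) (c : ℝ), 0 < u.re - x0.re + c → u.re - x0.re + c < 8 * l → sin (u - x0 + c) ≠ 0 :=
    fun u c h3 h4 => sin_ne_re (a := u.re - x0.re + c) (by simp)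
      (sin_pos_of h3 (by linarith)).ne'
  have N : ∀ (u : ℂ) (c : ℝ), -(8 * l) < u.re - x0.re + c → u.re - x0.re + c < 0 → sin (u - x0 + c) ≠ 0 :=
    fun u c h3 h4 => sin_ne_re (a := u.re - x0.re + c) (by simp) (by
      have := sin_pos_of (x := -(u.re - x0.re + c)) (by linarith) (by linarith)
      rw [Real.sin_neg] at this
      linarith)
  cases e
  · rw [ch_zero]
    have h2 : x0.re ≤ 21 / 10 * l := by simpa using h2
    have n0 : ∀ u : ℂ, -(49 / 20 * l) ≤ u.re → u.re ≤ 21 / 20 * l → sin (u - x0) ≠ 0 := fun u h4 h5 => by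
      have := N u 0 (by linarith) (by linarith)
      simpa using this
    have n1 : ∀ u : ℂ, -(49 / 20 * l) ≤ u.re → u.re ≤ 21 / 20 * l → sin (u - x0 + l) ≠ 0 := fun u h4 h5 =>
      N u l (by linarith) (by linarith)
    have n2 : ∀ u : ℂ, -(49 / 20 * l) ≤ u.re → u.re ≤ 21 / 20 * l → sin (u - x0 - l) ≠ 0 := fun u h4 h5 => by
      have := N u (-l) (by linarith) (by linarith)
      rw [← am]
      simpa using this
    have n3 : ∀ u : ℂ, -(49 / 20 * l) ≤ u.re → u.re ≤ 21 / 20 * l → sin (u - x0 - 3 * l) ≠ 0 := fun u h4 h5 => by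
      have := N u (-(3 * l)) (by linarith) (by linarith)
      rw [← am]
      simpa using this
    have n4 : ∀ u : ℂ, 1 / 10 * l < u.re → u.re ≤ 21 / 20 * l → sin (u - x0 + 2 * l) ≠ 0 := fun u h4 h5 => by
      have := P u (2 * l) (by linarith) (by linarith)
      simpa using this
    have n5 : ∀ u : ℂ, 1 / 10 * l < u.re → u.re ≤ 21 / 20 * l → cos (u - x0) ≠ 0 := fun u h4 h5 => by
      rw [cosv]
      have := P u (4 * l) (by linarith) (by linarith)
      simpa using this
    refine ⟨⟨(Wo_meas _).comp (measurable_id.sub_const _), fun u h4 h5 => ?_, by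
      have := (far_gr .zero (21 / 20 * l) (-(49 / 20 * l)) x0).1; rwa [ch_zero] at this,
      fun u h4 h5 => ?_, ?_⟩, ⟨(Vo_meas _).comp (measurable_id.sub_const _), fun u h4 h5 => ?_,
      by have := (far_gr .zero (21 / 20 * l) (-(49 / 20 * l)) x0).2; rwa [ch_zero] at this,
      fun u h4 h5 => ?_, ?_⟩⟩
    · show DifferentiableAt ℂ (fun u => sin (u - x0) * sin (u - x0 + 2 * l) /
        (sin (u - x0 - l) * sin (u - x0 + l))) u
      have hh := mul_ne_zero (n2 u h4 h5) (n1 u h4 h5)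
      fun_prop (disch := exact hh)
    · show sin (u - x0) * sin (u - x0 + 2 * l) / (sin (u - x0 - l) * sin (u - x0 + l)) ≠ 0
      have h4' : -(49 / 20 * l) ≤ u.re := by linarith
      exact div_ne_zero (mul_ne_zero (n0 u h4' h5) (n4 u h4 h5)) (mul_ne_zero (n2 u h4' h5) (n1 u h4' h5))
    · refine ((((i 0).mul (i (2 * l))).mul ((s (-l)).mul (s l))).mono (κ' := -(2 * 0))
        (by norm_num)).congr 0 fun u _ _ _ => ?_
      show (sin (u - x0) * sin (u - x0 + 2 * l) / (sin (u - x0 - l) * sin (u - x0 + l)))⁻¹ = _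
      rw [a0, am, inv_div, div_eq_mul_inv, mul_inv]
      ring
    · show DifferentiableAt ℂ (fun u => cos (u - x0) ^ 2 / sin (u - x0 - 3 * l) ^ 2) u
      have hh := pow_ne_zero 2 (n3 u h4 h5)
      fun_prop (disch := exact hh)
    · show cos (u - x0) ^ 2 / sin (u - x0 - 3 * l) ^ 2 ≠ 0
      exact div_ne_zero (pow_ne_zero 2 (n5 u h4 h5)) (pow_ne_zero 2 (n3 u (by linarith) h5))
    · refine ((((i (4 * l)).mul (i (4 * l))).mul ((s (-(3 * l))).mul (s (-(3 * l))))).mono
        (κ' := -(2 * -0)) (by norm_num)).congr 0 fun u _ _ _ => ?_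
      show (cos (u - x0) ^ 2 / sin (u - x0 - 3 * l) ^ 2)⁻¹ = _
      rw [am, cosv, inv_div, div_eq_mul_inv, sq, sq, mul_inv]
      ring
  · rw [ch_neg]
    have n1 : ∀ u : ℂ, -(49 / 20 * l) ≤ u.re → u.re ≤ 21 / 20 * l → sin (u - x0 + l) ≠ 0 := fun u h4 h5 =>
      N u l (by linarith) (by linarith)
    have n2 : ∀ u : ℂ, -(49 / 20 * l) ≤ u.re → u.re ≤ 21 / 20 * l → sin (u - x0 - 2 * l) ≠ 0 := fun u h4 h5 => by
      have := N u (-(2 * l)) (by linarith) (by linarith)
      rw [← am]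
      simpa using this
    have n3 : ∀ u : ℂ, 1 / 10 * l < u.re → u.re ≤ 21 / 20 * l → sin (u - x0 + 3 * l) ≠ 0 := fun u h4 h5 => by
      have := P u (3 * l) (by linarith) (by linarith)
      simpa using this
    refine ⟨⟨(Wo_meas _).comp (measurable_id.sub_const _), fun u h4 h5 => ?_, by
      have := (far_gr .neg (21 / 20 * l) (-(49 / 20 * l)) x0).1; rwa [ch_neg] at this,
      fun u h4 h5 => ?_, ?_⟩, ⟨(Vo_meas _).comp (measurable_id.sub_const _), fun u h4 h5 => ?_,
      by have := (far_gr .neg (21 / 20 * l) (-(49 / 20 * l)) x0).2; rwa [ch_neg] at this,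
      fun u h4 h5 => ?_, ?_⟩⟩
    · show DifferentiableAt ℂ (fun u => -(sin (u - x0 + l) * sin (u - x0 + 3 * l))) u
      fun_prop
    · show -(sin (u - x0 + l) * sin (u - x0 + 3 * l)) ≠ 0
      exact neg_ne_zero.2 (mul_ne_zero (n1 u (by linarith) h5) (n3 u h4 h5))
    · refine (((((i l).mul (i (3 * l)))).cmul (-1)).mono (κ' := -(2 * 1)) (by norm_num)).congr 0
        fun u _ _ _ => ?_
      show (-(sin (u - x0 + l) * sin (u - x0 + 3 * l)))⁻¹ = _
      rw [inv_neg, mul_inv]
      ring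
    · show DifferentiableAt ℂ (fun u => 1 / sin (u - x0 - 2 * l) ^ 2) u
      have hh := pow_ne_zero 2 (n2 u h4 h5)
      fun_prop (disch := exact hh)
    · exact one_div_ne_zero (pow_ne_zero 2 (n2 u (by linarith) h5))
    · refine (((s (-(2 * l))).mul (s (-(2 * l)))).mono (κ' := -(2 * -1)) (by norm_num)).congr 0
        fun u _ _ _ => ?_
      show (1 / sin (u - x0 - 2 * l) ^ 2)⁻¹ = _
      rw [am, one_div, inv_inv, sq]
  · rw [ch_pos]
    have h2 : x0.re ≤ 21 / 10 * l := by simpa using h2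
    have n0 : ∀ u : ℂ, -(49 / 20 * l) ≤ u.re → u.re ≤ 21 / 20 * l → sin (u - x0) ≠ 0 := fun u h4 h5 => by
      have := N u 0 (by linarith) (by linarith)
      simpa using this
    have n2 : ∀ u : ℂ, -(49 / 20 * l) ≤ u.re → u.re ≤ 21 / 20 * l → sin (u - x0 - 2 * l) ≠ 0 := fun u h4 h5 => by
      have := N u (-(2 * l)) (by linarith) (by linarith)
      rw [← am]
      simpa using this
    have n3 : ∀ u : ℂ, 1 / 10 * l < u.re → u.re ≤ 21 / 20 * l → sin (u - x0 + 3 * l) ≠ 0 := fun u h4 h5 => by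
      have := P u (3 * l) (by linarith) (by linarith)
      simpa using this
    refine ⟨⟨(Wo_meas _).comp (measurable_id.sub_const _), fun u h4 h5 => ?_, by
      have := (far_gr .pos (21 / 20 * l) (-(49 / 20 * l)) x0).1; rwa [ch_pos] at this,
      fun u h4 h5 => ?_, ?_⟩, ⟨(Vo_meas _).comp (measurable_id.sub_const _), fun u h4 h5 => ?_,
      by have := (far_gr .pos (21 / 20 * l) (-(49 / 20 * l)) x0).2; rwa [ch_pos] at this,
      fun u h4 h5 => ?_, ?_⟩⟩
    · show DifferentiableAt ℂ (fun u => -1 / (sin (u - x0) * sin (u - x0 - 2 * l))) u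
      have hh := mul_ne_zero (n0 u h4 h5) (n2 u h4 h5)
      fun_prop (disch := exact hh)
    · show -1 / (sin (u - x0) * sin (u - x0 - 2 * l)) ≠ 0
      have h4' : -(49 / 20 * l) ≤ u.re := by linarith
      exact div_ne_zero (by norm_num) (mul_ne_zero (n0 u h4' h5) (n2 u h4' h5))
    · refine (((((s 0).mul (s (-(2 * l))))).cmul (-1)).mono (κ' := -(2 * -1)) (by norm_num)).congr 0
        fun u _ _ _ => ?_
      show (-1 / (sin (u - x0) * sin (u - x0 - 2 * l)))⁻¹ = _
      rw [a0, am, neg_div, one_div, inv_neg, inv_inv]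
      ring
    · show DifferentiableAt ℂ (fun u => sin (u - x0 + 3 * l) ^ 2) u
      fun_prop
    · show sin (u - x0 + 3 * l) ^ 2 ≠ 0
      exact pow_ne_zero 2 (n3 u h4 h5)
    · refine (((i (3 * l)).mul (i (3 * l))).mono (κ' := -(2 * - -1)) (by norm_num)).congr 0
        fun u _ _ _ => ?_
      show (sin (u - x0 + 3 * l) ^ 2)⁻¹ = _
      rw [sq, mul_inv]

/-- the states of a far row -/
theorem SpW6.far (e : SignType) {z x0 : ℂ} (hz : |z.re| < 7 / 10 * l) (h1 : 41 / 20 * l < x0.re)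
    (h2 : x0.re ≤ (if e = .neg then 31 / 10 * l else 21 / 10 * l)) :
    SpW6 ((ch e : ℤ) : ℝ) (fun u => Th z u * Wo e (u - x0)) ∧
      SpW6 (-((ch e : ℤ) : ℝ)) (fun u => Th z u * Vo e (u - x0)) := by
  have hl := lpos
  obtain ⟨z1, z2⟩ := abs_lt.1 hz
  have hL : SpW6 0 (Th z) := SpW6.leg (z := z) (by linarith) (by linarith)
  have h := SpW6.WV e h1 h2
  have k1 := hL.mul h.1
  have k2 := hL.mul h.2
  rw [zero_add] at k1 k2
  exact ⟨k1, k2⟩

theorem SpW6.spS {σ : Bool} {κ : ℤ} {S T : ℂ → ℂ} (hS : SpW6 κ S) (hT : SpW6 (-(κ : ℝ)) T) (a : Bool) :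
    SpW6 (sc (a, .A) * ((kq σ κ : ℤ) : ℝ)) (spS σ S T a) := by
  rw [kq_cast, sc_A, sc_A]
  cases σ <;> cases a <;> simp [PLX.spS] <;> assumption

end Pool.Agent.PLX

end
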