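import Pool.Agent.PLX.PB.ZRow
import Pool.Agent.PLX.DZUclsP
import Pool.Agent.PHK.SpW6

/-!
# (P): the first Ward identity of the dislocated function, one moved row, any cutoff of the strings

`ZRow` of the landed form with a correction `g0` of the cutoff of the strings which is needed on the
lines of the strings only (`GOn`), so that the cutoff `gO` of the particle-hole form is allowed.

* `decZ_XXUn`: decay of the class functions on the final lines;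
* `F0_DZ6`: the functional `F0 .. [1]` of the straight lines is the state sum `SQt`;
* **`fx_F06`**: `fxQ q a (i η) z = Pf * ∑ n, F0 (class functions) n (n + xn (a + 1)) [1]`;
* **`fx_I16`**: the first Ward identity of `fxQ` for any family `Z η` of such class functions.
-/

set_option autoImplicit false
set_option linter.unusedSectionVars false

noncomputable section

open Complex MeasureTheory Filter Topology Finset

open PLX (Fil)

namespace PBZF.PLX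

open NUP1 NUP1S NUP1.Bd NURow PB
open PBX (XX ph gP Lg Rws)
open PBI PBI.PLX
open Pool.Agent.PB (Pf xr)
open Pool.Agent.PLX (XXU DZU yq rwq SQt fxQ GOn K1P K2P SpecP LnR lnR_P1 DZU_clsP bdd_GXUP famXU)

/-- the spectators on the smaller sets -/
theorem specP_P1 {c : Bool} {Q : ℝ} {s1 s2 : ℂ → ℂ} (h : SpecP (51 / 100 * l) (-(29 / 20 * l)) c Q s1 s2) :
    SpecP (3 / 5 * l) (-(69 / 50 * l)) c Q s1 s2 := by
  have hl := Bd.l_pos
  have k1 : ∀ x ∈ K1P (3 / 5 * l), x ∈ K1P (51 / 100 * l) := by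
    rintro x (⟨h1, h2⟩ | h1)
    · exact Or.inl ⟨by linarith, h2⟩
    · exact Or.inr h1
  have k2 : ∀ x ∈ K2P (-(69 / 50 * l)), x ∈ K2P (-(29 / 20 * l)) := by
    rintro x ⟨h1, h2⟩
    exact ⟨by linarith, h2⟩
  exact ⟨h.m1, h.m2, Bdd.mono_set h.b1 k1, Bdd.mono_set h.b2 k2, fun z hz => h.d1 z (k1 _ hz),
    fun z hz => h.d2 z (k2 _ hz), h.mul⟩

theorem gon_P1 {g : ℂ → ℂ} (h : GOn (K2P (-(29 / 20 * l))) (4 / 3) g) :
    GOn (K2P (-(69 / 50 * l))) (4 / 3) g := h.mono fun x hx => by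
  have hl := Bd.l_pos
  exact ⟨by linarith [hx.1], hx.2⟩

/-- **decay of the class functions on the final lines**, sizes `N a`, spectators of charge `Q'`,
total charge `Q = Q' - (N false - N true)` -/
theorem decZ_XXUn {P : NUO.Par} (hP : NUGC.PLX.ParC P) {c : Bool → ℂ} {β Q Q' : ℝ} (hβ : 0 < β)
    (hβ' : β ≤ 4 / 3) {N : Bool → ℕ} {ro : ∀ a, Fin (N a) → ℂ} (hr : ∀ a, Rws (ro a))
    {g g0 : Bool → ℂ → ℂ} (hg : ∀ a, PBX.GOk β (g a))
    (hg0 : ∀ a, GOn (K2P (-(69 / 50 * l))) (4 / 3) (g0 a)) {s1 s2 : Bool → ℂ → ℂ}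
    (h : ∀ a, SpecP (3 / 5 * l) (-(69 / 50 * l)) a Q' (s1 a) (s2 a))
    (hQ : Q = Q' - ((N false : ℝ) - N true)) :
    PBC.PLX.DecZ (fun a => XXU (c a) β (ro a) (ro (!a)) (g a) (g0 a) (s1 a) (s2 a)) P (3 / 5 * l)
      (2 * β) Q := by
  have hl := Bd.l_pos
  have hQa : ∀ a : Bool, Q * sc (a, .A) = Q' * sc (a, .A) - ((N (!a) : ℝ) - N a) := by
    rintro (_ | _)
    · have e : sc (false, .A) = -1 := by simp [sc, Bd.chg]
      rw [e, hQ]
      show _ = _ - ((N true : ℝ) - N false)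
      ring
    · have e : sc (true, .A) = 1 := by simp [sc, Bd.chg]
      rw [e, hQ]
      show _ = _ - ((N false : ℝ) - N true)
      ring
  have hD := fun a => (famXU lnR_P1 (c := c a) hβ hβ' (hr a) (hr (!a)) (hg a) (hg0 a) (h a)
    (hQa a)).dec
  have j1 := hP.j1
  have j2 := hP.j2
  refine ⟨fun a => ?_, fun a => ?_, fun a => ?_, fun a r i hi => ?_⟩
  · refine DecOn_of (Bdd.mono_set (bdd_GXUP lnR_P1 (c := c a) hβ hβ' (hr a) (hr (!a)) (hg a) (h a)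
      (hQa a)) ?_) (by linarith)
    rintro y ⟨h1, h2⟩
    exact Or.inl ⟨h1, by linarith⟩
  · refine DecOn.mono (hD a (some .L)) ?_
    rw [Set.singleton_subset_iff]
    constructor
    · show -(17 / 10 * l) ≤ (1 - P.jL) * l
      nlinarith
    · show (1 - P.jL) * l ≤ -(101 / 100 * l)
      nlinarith
  · refine DecOn.mono (hD a (some .T)) ?_
    rw [Set.singleton_subset_iff]
    constructor
    · show -(7 / 10 * l) ≤ -(1 / 2 * l)
      linarith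
    · show -(1 / 2 * l) ≤ -(l / 2)
      linarith
  · refine DecOn.mono (hD a (some .S)) ?_
    rw [Set.singleton_subset_iff]
    have h3 := hP.e2 r
    have h4 := hP.d0 r
    have h5 : lnO P r i .S ∈ Set.Icc (-(13 / 10 * l)) (-(7 / 10 * l)) :=
      lnO_memL hP.goodP j1 j2 (by linarith) hi .S
    exact ⟨by simp only [lo4]; linarith [h5.1], h5.2⟩

variable {P : NUO.Par} {b : ℝ} {a : ℕ} {z0 : ℂ} {η0 : ℝ}

variable [Fil]

/-- the class functions of the rows `rwx a η`, legs at `z0`, corrections `g`, `g0` of the cutoffs -/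
def ZC6 (c : Bool → ℂ) (b : ℝ) (a : ℕ) (z0 : ℂ) (η : ℝ) (g g0 : Bool → ℂ → ℂ) : Stt := fun s =>
  XXU (c s) b (rwq (rwx a (η : ℂ)) s) (rwq (rwx a (η : ℂ)) (!s)) (g s) (g0 s) (Lg z0 z0)
    (fun w => Lg z0 z0 w * Lg z0 z0 (w - l))

/-- **the functional of the straight lines is the state sum** -/
theorem F0_DZ6 (hP : NUGC.PLX.ParC P) (hb : 0 < b) (hb' : b ≤ 4 / 3) (hz : Lz z0) {η : ℝ}
    {g g0 : Bool → ℂ → ℂ} (hg : ∀ s, PBX.GOk b (g s))
    (hg0 : ∀ s, GOn (K2P (-(29 / 20 * l))) (4 / 3) (g0 s)) (n : ℕ) :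
    F0 (3 / 5 * l) n (n + Fil.xn (a + 1)) (fl P) (ZC6 (cR a) b a z0 η g g0) (fun _ _ _ _ => 1) =
      SQt Fil.q z0 (rwx a (η : ℂ)) n := by
  have hl := Bd.l_pos
  obtain ⟨z1, z2⟩ := hz
  have hx := Rws_rwx a η
  have hy : ∀ s, Rws (rwq (rwx a (η : ℂ)) s) := fun s => Pool.Agent.PLX.Rws_rwq hx s
  have L : LnH (lX P) (lY P) := LnH_P hP.goodP hP.j1 hP.j2 fun r => by
    have h3 := hP.e2 r
    have h4 := hP.d0 r
    linarith
  have hxn : (((n + Fil.xn (a + 1) : ℕ) : ℝ)) + ((a + 1 : ℕ) : ℝ) =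
      (n : ℝ) + ((Fil.q * (a + 1) : ℕ) : ℝ) + 0 := by
    rw [← Fil.add_xn]
    push_cast
    ring
  have s1 : Pool.Agent.PLX.SpU 0 (Lg z0 z0) :=
    Pool.Agent.PLX.SpU.of_SpA (PBX.Lg_SpA (by linarith) (by linarith))
  have sw : Pool.Agent.PLX.SpW6 0 (Lg z0 z0) := Pool.Agent.PLX.SpW6.leg z1 (by linarith)
  have sp : ∀ s : Bool, SpecP (3 / 5 * l) (-(69 / 50 * l)) s 0 (Lg z0 z0)
      (fun w => Lg z0 z0 w * Lg z0 z0 (w - l)) := fun s => specP_P1 (by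
    have h := Pool.Agent.PLX.SpW6.specP (a := s) (q := 0) (s := Lg z0 z0) (by simpa using sw)
    simpa using h)
  have hX : ∀ p p' k k' i, lX P p p' k k' i ∈ Set.Icc
      (lo4 (3 / 5 * l) (-(17 / 10 * l)) (-(69 / 50 * l)) (-(7 / 10 * l)) (some (k i)))
      (lo4 (3 / 5 * l) (-(101 / 100 * l)) (-(7 / 10 * l)) (-(l / 2)) (some (k i))) := by
    intro p p' k k' i
    have h := L.hX p p' k k' i
    cases hk : k i <;> rw [hk] at h <;> exact ⟨le_trans (by simp only [lo4]; linarith) h.1,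
      h.2.trans (by simp only [lo4]; linarith)⟩
  have hY : ∀ p p' k k' i, lY P p p' k k' i ∈ Set.Icc
      (lo4 (3 / 5 * l) (-(17 / 10 * l)) (-(69 / 50 * l)) (-(7 / 10 * l)) (some (k' i)))
      (lo4 (3 / 5 * l) (-(101 / 100 * l)) (-(7 / 10 * l)) (-(l / 2)) (some (k' i))) := by
    intro p p' k k' i
    have h := L.hY p p' k k' i
    cases hk : k' i <;> rw [hk] at h <;> exact ⟨le_trans (by simp only [lo4]; linarith) h.1,
      h.2.trans (by simp only [lo4]; linarith)⟩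
  have e := DZU_clsP (c := Leg.cc (a + 1)) (c' := Leg.cc (Fil.q * (a + 1)))
    (s := Lg z0 z0) (t := Lg z0 z0) (q := 0) hb hb' hx (Pool.Agent.PLX.Rws_yq hx) lnR_P1
    (g := g true) (g' := g false) (g0 := g0 true) (g0' := g0 false)
    (s2 := fun w => Lg z0 z0 w * Lg z0 z0 (w - l))
    (t2 := fun w => Lg z0 z0 w * Lg z0 z0 (w - l)) (hg true) (hg false) (gon_P1 (hg0 true))
    (gon_P1 (hg0 false)) s1 (by simpa using s1) (by simpa using sp true) (by simpa using sp false)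
    hxn (lX P) (lY P) hX hY
  have e0 : SQt Fil.q z0 (rwx a (η : ℂ)) n = DZU (Leg.cc (a + 1)) (Leg.cc (Fil.q * (a + 1)))
      (Lg z0 z0) (Lg z0 z0) (rwx a (η : ℂ)) (yq (rwx a (η : ℂ))) n (n + Fil.xn (a + 1)) := rfl
  rw [e0, e]
  refine F0_ZobjQ (Q := -(Fil.xn (a + 1) : ℤ)) hP.goodQ (by linarith) (by linarith : (0 : ℝ) < 2 * b)
    (fun s k => ?_) ?_ (by push_cast; ring)
  · exact Pool.Agent.PLX.measurable_XXU (hg s).meas (hg0 s).meas (PBX.Lg_meas z0 z0)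
      ((PBX.Lg_meas z0 z0).mul ((PBX.Lg_meas z0 z0).comp (measurable_id.sub_const _))) k
  · have h := decZ_XXUn (P := P) (N := fun s => cond s (a + 1) (Fil.q * (a + 1)))
      (ro := rwq (rwx a (η : ℂ))) hP (c := cR a) (Q' := 0) hb hb' hy (g := g) (g0 := g0)
      (s1 := fun _ => Lg z0 z0) (s2 := fun _ w => Lg z0 z0 w * Lg z0 z0 (w - l)) hg
      (fun s => gon_P1 (hg0 s)) sp (PBX.PLX.cast_xnQ (a + 1) 0)
    have e1 : ((-(Fil.xn (a + 1) : ℤ) : ℤ) : ℝ) = 0 - (Fil.xn (a + 1) : ℝ) := by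
      push_cast
      ring
    rw [e1]
    exact h

/-- **the function at one moved row is the functional of the straight lines** -/
theorem fx_F06 (hP : NUGC.PLX.ParC P) (hb : 0 < b) (hb' : b ≤ 4 / 3) (hz : Lz z0) {η : ℝ}
    {g g0 : Bool → ℂ → ℂ} (hg : ∀ s, PBX.GOk b (g s))
    (hg0 : ∀ s, GOn (K2P (-(29 / 20 * l))) (4 / 3) (g0 s)) :
    fxQ Fil.q a ((η : ℂ) * I) z0 = Pf z0 (rwx a (η : ℂ)) (yq (rwx a (η : ℂ))) *
      ∑ n ∈ range (2 * (a + 1) + 1),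
        F0 (3 / 5 * l) n (n + Fil.xn (a + 1)) (fl P) (ZC6 (cR a) b a z0 η g g0)
          (fun _ _ _ _ => 1) := by
  have hl := Bd.l_pos
  have hz' := hz
  obtain ⟨z1, z2⟩ := hz'
  have h := Pool.Agent.PLX.fQ_eq (q := Fil.q) Fil.one_le_q (mu := rwx a (η : ℂ))
    (Pool.Agent.PB.Rws.rwo (Rws_rwx a η)) (z := z0) ⟨by linarith, by linarith⟩
  refine Eq.trans (b := Pool.Agent.PLX.fQ Fil.q (rwx a (η : ℂ)) z0) rfl (h.trans ?_)
  unfold Pool.Agent.PLX.SQ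
  congr 1
  refine Finset.sum_congr rfl fun n _ => ?_
  rw [F0_DZ6 hP hb hb' hz hg hg0 n]

/-- **The first Ward identity of the function at one moved row**, any family `ZF` of class functions. -/
theorem fx_I16 (hP : NUGC.PLX.ParC P) (hb : 0 < b) (hb' : b ≤ 4 / 3) (hz : Lz z0) {D rr : ℝ}
    {ZF Zd : ℝ → Stt} {Zp : Stt}
    (hev : ∀ᶠ η : ℝ in 𝓝 η0, ∃ g g0 : Bool → ℂ → ℂ, (∀ s, PBX.GOk b (g s)) ∧
      (∀ s, GOn (K2P (-(29 / 20 * l))) (4 / 3) (g0 s)) ∧ ZF η = ZC6 (cR a) b a z0 η g g0)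
    (hZ : ∀ n n' : ℕ, n' = n + Fil.xn (a + 1) → PBI.PLX.ZFam (3 / 5 * l) n n' (fl P) (2 * b) D rr η0 ZF Zd Zp)
    {Ξ Ξ' : PBI.Kd → ℂ → ℂ} {A : PBI.Kd → PBI.Kd → ℂ → ℂ → ℂ} {ρ : PBI.Kd → ℝ → ℂ} {κr r1 lam : PBI.Kd → ℂ → ℂ}
    (hF : ∀ n ∈ range (2 * (a + 1) + 1), ∃ B,
      FFam (3 / 5 * l) n (n + Fil.xn (a + 1)) (fl P) B Ξ Ξ' A ρ κr r1 lam) {Pf' : ℂ}
    (hPf : HasDerivAt (fun η : ℝ => Pf z0 (rwx a (η : ℂ)) (yq (rwx a (η : ℂ)))) Pf' η0)
    (hN : Pf' + Pf z0 (rwx a (η0 : ℂ)) (yq (rwx a (η0 : ℂ))) * (C0 ρ r1 + C1 ρ Ξ lam) = 0) :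
    HasDerivAt (fun η : ℝ => fxQ Fil.q a ((η : ℂ) * I) z0)
      (Pf z0 (rwx a (η0 : ℂ)) (yq (rwx a (η0 : ℂ))) * ∑ n ∈ range (2 * (a + 1) + 1),
        (F0 (3 / 5 * l) n (n + Fil.xn (a + 1)) (fl P) (ZF η0) (nuW ρ A Ξ lam) +
          F0D (3 / 5 * l) n (n + Fil.xn (a + 1)) (fl P) (ZF η0)
            (Zcut (ZF η0) (Zd η0) Zp Ξ κr r1 lam))) η0 := by
  obtain ⟨B, hF⟩ := FFam.unif hF
  have key := PBI.PLX.I1A (S := range (2 * (a + 1) + 1)) (u := fun n => n)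
    (v := fun n => n + Fil.xn (a + 1))
    (Pf := fun η : ℝ => Pf z0 (rwx a (η : ℂ)) (yq (rwx a (η : ℂ))))
    (fun n _ => hZ n _ rfl) hF hPf hN
  refine key.congr_of_eventuallyEq ?_
  filter_upwards [hev] with η hη
  obtain ⟨g, g0, hg, hg0, e⟩ := hη
  rw [e]
  exact fx_F06 hP hb hb' hz hg hg0

end PBZF.PLX

end
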