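import Pool.Agent.PLX.PB.I1F0
import Pool.Agent.PHK.ZRow6
import Pool.Agent.PHK.RepT6
import Pool.Agent.PHK.LevH06
import Pool.Agent.PHK.CutAllP6

/-!
# (P): the first Ward identity of the dislocated function, from the total insertion

(P) twin of `PLX/PB/I1` and `PLX/PB/I1F0`: the family of the one body functions is helper89's `ZR6`
(cutoff of the strings `phO (T1L (j + 1))` at the base parameter), so that the functional of the straight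
lines is the one of the class functions `ZF6`.

* `fx_D6`: the exact derivative of `fxQ`;
* `F0T6 ep j s t`: the value of the total insertion `insT`, class functions `ZF6 ep j s t`;
* **`hD_of6`**: `‖(j + 1) F0T6 - main‖ ≤ δa j` for large `j` gives the derivative with
  `δ0 j = δa j + e^2 (j + 1)^(-1 + d)`; hypothesis `CutAll6`.
-/

set_option autoImplicit false
set_option linter.unusedSectionVars false
set_option linter.unusedVariables false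

noncomputable section

attribute [local instance] NUSea.seaP

open Complex MeasureTheory Finset Filter Topology
open scoped Classical
open PLX (Fil)

namespace PBI.PLX

open NUP1 hiding Kd
open NUP1S NUP1.Bd NURow PB PBQ1 PBForce
open PBX (Lg gP GOk)
open PBZF (Lz rwx vx)
open PBZF.PLX (ZR6 ZdR6 ZpR6 vE FdX fdX_xiR exists_zfam6_P ZR6_XXU ZR6_at ZC6 fx_I16 cR Rws_rwx vx_ev
  ex_vx SB6_rad rad6 Bx Bx_nonneg)
open PBRep.PLX (F0N6)
open PBT.PLX (pL)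
open PBU.PLX (T1L)
open PBLX.PLX (ZF6 cF)
open PHK (gOA AmT goN_gOA ga_AmT gO)
open Pool.Agent.PB (Pf)
open _root_.Pool.Agent.PLX (fxQ yq rwq Rws_rwq GOn K2P)

variable [Fil]

/-- near the base parameter the family is a family of class functions -/
theorem zR6_ev {b : ℝ} {k : ℕ} {s : ℝ} {z0 : ℂ} {v : Bool → Fin 2 → ℂ} {T1 : ℝ} {X : ℂ → ℂ}
    (hb : 0 < b) (hb' : b ≤ 4 / 3) (hX : FdX X) (c : Bool → ℂ) :
    ∀ᶠ η : ℝ in 𝓝 s, ∃ g g0 : Bool → ℂ → ℂ, (∀ a, GOk b (g a)) ∧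
      (∀ a, GOn (K2P (-(29 / 20 * l))) (4 / 3) (g0 a)) ∧
      ZR6 c b k z0 s v T1 X η = ZC6 c b k z0 η g g0 := by
  have hB := Bx_nonneg X
  have h1 : ∀ᶠ η : ℝ in 𝓝 s, ‖((η : ℂ) - (s : ℂ))‖ * Bx X ≤ 1 / 132 := by
    have hc : Continuous fun η : ℝ => ‖((η : ℂ) - (s : ℂ))‖ * Bx X := by fun_prop
    have h0 : ‖((s : ℂ) - (s : ℂ))‖ * Bx X < 1 / 132 := by
      rw [sub_self, norm_zero, zero_mul]
      norm_num
    filter_upwards [hc.continuousAt.eventually_lt continuousAt_const h0] with η hη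
    exact hη.le
  filter_upwards [h1, vx_ev s v] with η h2 h3
  refine ⟨fun a => gP b [vx s (v a) (η : ℂ) 0, vx s (v a) (η : ℂ) 1],
    fun a => gOA (AmT T1 s X (η : ℂ)) [] (rwq (rwx k (η : ℂ)) a), fun a => GOk.gP hb hb' (ex_vx (h3 a)),
    fun a => goN_gOA (ga_AmT hX.fd h2) (Rws_rwq (Rws_rwx k η) a) (by simp), ?_⟩
  rw [ZR6_XXU]
  rfl

/-- **the exact derivative** -/
theorem fx_D6 {k : ℕ} {s b : ℝ} {z0 : ℂ} {P : NUO.Par} {v : Bool → Fin 2 → ℂ} {T1 : ℝ} {X : ℂ → ℂ}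
    (hP : NUGC.PLX.ParC P) (hb : 0 < b) (hb' : b ≤ 4 / 3) (hz : Lz z0) (hX : FdX X)
    (hF : ∀ n ∈ range (2 * (k + 1) + 1), ∃ B, FFam (3 / 5 * l) n (n + Fil.xn (k + 1)) (fl P) B
      (xiK (PBZF.rwx k s) 0) (fun b w => deriv (xiR (PBZF.rwx k s) 0) (fp b w))
      (PBOb.aK (xiR (PBZF.rwx k s) 0)) (rhK2 (PBZF.rwx k s)) (krK2 (PBZF.rwx k s))
      (r1K2 (PBZF.rwx k s) 0) (lamK z0)) :
    HasDerivAt (fun η : ℝ => fxQ Fil.q k ((η : ℂ) * I) z0)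
      (F0N6 (ZR6 (ccq (k + 1)) b k z0 s v T1 X s) (fl P) (3 / 5 * l) (2 * (k + 1))
          (fun _ => Pf z0 (PBZF.rwx k s) (yq (PBZF.rwx k s)))
          (fun ι _ c z => nuQI (rhK2 (PBZF.rwx k s)) (PBOb.aK (xiR (PBZF.rwx k s) 0)) ι c z +
            nuI (rhK2 (PBZF.rwx k s)) (glK z0 (PBZF.rwx k s) 0) ι c z) +
        Pf z0 (PBZF.rwx k s) (yq (PBZF.rwx k s)) * ∑ n ∈ range (2 * (k + 1) + 1),
          F0D (3 / 5 * l) n (n + Fil.xn (k + 1)) (fl P) (ZR6 (ccq (k + 1)) b k z0 s v T1 X s)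
            (Zcut (ZR6 (ccq (k + 1)) b k z0 s v T1 X s)
              (ZdR6 (ccq (k + 1)) b k z0 s v T1 X s)
              (ZpR6 (ccq (k + 1)) b k z0 s v T1 X)
              (xiK (PBZF.rwx k s) 0) (krK2 (PBZF.rwx k s)) (r1K2 (PBZF.rwx k s) 0) (lamK z0))) s := by
  have hl := Bd.l_pos
  have hnum := Num2 (m := k + 1) (y := fun η : ℝ => PBZF.rwx k (η : ℂ)) (t := s) (z := z0) 0
    (rwx_deriv k s) (rwx_re k s)
    (by
      have h1 := hz.1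
      have e : NUMF.l = NUP1.l := rfl
      rw [e]
      linarith)
    (by
      have h1 := hz.2
      have e : NUMF.l = NUP1.l := rfl
      rw [e]
      linarith)
  have hN : -(Pf z0 (PBZF.rwx k s) (yq (PBZF.rwx k s)) *
      (C02 (PBZF.rwx k s) 0 + C1v2 z0 (PBZF.rwx k s) 0)) +
      Pf z0 (PBZF.rwx k s) (yq (PBZF.rwx k s)) *
        (PBI.C0 (rhK2 (PBZF.rwx k s)) (r1K2 (PBZF.rwx k s) 0) +
          C1 (rhK2 (PBZF.rwx k s)) (xiK (PBZF.rwx k s) 0) (lamK z0)) = 0 := by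
    have e1 : PBI.C0 (rhK2 (PBZF.rwx k s)) (r1K2 (PBZF.rwx k s) 0) = C02 (PBZF.rwx k s) 0 := rfl
    have e2 : C1 (rhK2 (PBZF.rwx k s)) (xiK (PBZF.rwx k s) 0) (lamK z0) =
      C1v2 z0 (PBZF.rwx k s) 0 := rfl
    rw [e1, e2]
    ring
  obtain ⟨D, hD, hZ⟩ := exists_zfam6_P (cR k) k s v T1 hX hb hb' hz
  have key := fx_I16 (a := k) hP hb hb' hz (zR6_ev (k := k) (z0 := z0) (v := v) (T1 := T1) hb hb' hX (cR k))
    (fun n n' hn => hZ P hP n n' hn) hF hnum hN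
  refine key.congr_deriv ?_
  rw [Finset.sum_add_distrib, mul_add]
  congr 1
  unfold PBRep.PLX.F0N6
  rw [Finset.mul_sum, PBF.PLX.dN_two]
  rfl

/-- at the base parameter the class functions are those of the family `famL6` -/
theorem ZR6_ZF6 (ep : ℝ) (j : ℕ) (s t : ℝ) (v : Bool → Fin 2 → ℂ) (X : ℂ → ℂ) :
    ZR6 (ccq (j + 1)) (4 / 3 * (1 - ep)) j (I * t) s v (T1L (j + 1)) X s = ZF6 ep j s t := by
  rw [ZR6_at]
  have e : rwx j (s : ℂ) = PBL.PLX.mu1 j (I * (s : ℂ)) := by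
    rw [rwx_rowS]
    rfl
  rw [e]
  rfl

/-- **the total insertion**, sum over the number of quanta, coefficients `Pf` -/
def F0T6 (ep : ℝ) (j : ℕ) (s t : ℝ) : ℂ :=
  F0N6 (ZF6 ep j s t) (fl (pL (j + 1))) (3 / 5 * NUP1.l) (2 * (j + 1)) (cF j s t) (insT j s t)

/-- **`hD` for large `j`** -/
theorem hD_of6 (hcut : CutAll6) {d : ℝ} (hd : 0 < d) : ∃ a0 : ℝ, 0 < a0 ∧
    ∀ ep : ℝ, 0 < ep → ep ≤ 1 / 100 → ∀ e1 : ℝ, 0 < e1 → e1 ≤ 1 / 100 → ∀ J : ℝ, 0 ≤ J →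
    Real.exp (-(2 * Real.pi * J)) + 3 * e1 + 3 * ep ≤ a0 →
    ∀ {main : ℕ → ℝ → ℝ → ℂ} {δa : ℕ → ℝ},
    (∀ᶠ j : ℕ in atTop, ∀ s ∈ Set.Icc (0 : ℝ) 1, ∀ t ∈ Set.Icc (0 : ℝ) 1,
      ‖((j + 1 : ℝ) : ℂ) * F0T6 ep j s t - main j s t‖ ≤ δa j) →
    ∀ᶠ j : ℕ in atTop, ∀ s ∈ Set.Icc (0 : ℝ) 1, ∀ t ∈ Set.Icc (0 : ℝ) 1, ∃ D : ℂ,
      HasDerivAt (fun s : ℝ => fxQ Fil.q j (I * s) (I * t)) D s ∧
      ‖((j + 1 : ℝ) : ℂ) * D - main j s t‖ ≤
        δa j + Real.exp 2 * ((j + 1 : ℕ) : ℝ) ^ (-1 + d) := by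
  obtain ⟨a0, ha0, HT⟩ := hcut d hd
  refine ⟨a0, ha0, fun ep hep hep1 e1 he he1 J hJ hsm main δa hmain => ?_⟩
  obtain ⟨m0, HT⟩ := HT ep hep hep1 e1 he he1 J hJ hsm
  filter_upwards [hmain, eventually_ge_atTop m0, eventually_ge_atTop 1] with j h1 hj hj1 s hs t ht
  have hl := Bd.l_pos
  have hs1 : |s| ≤ 1 := abs_le.2 ⟨by linarith [hs.1], hs.2⟩
  have ht1 : |t| ≤ 1 := abs_le.2 ⟨by linarith [ht.1], ht.2⟩
  have hre : (I * (t : ℂ)).re = 0 := by simp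
  have him : (I * (t : ℂ)).im = t := by simp
  have hz : Lz (I * (t : ℂ)) := by
    constructor <;> rw [hre] <;> linarith
  have hP : NUGC.PLX.ParC (pL (j + 1)) := PBF.PLX.parZ_parC (j + 1)
  set v : Bool → Fin 2 → ℂ := vE (4 / 3 * (1 - ep)) j s (PBFar.xe j s) with hv
  have hb : (0 : ℝ) < 4 / 3 * (1 - ep) := by linarith
  have hb' : 4 / 3 * (1 - ep) ≤ 4 / 3 := by linarith
  have hX : FdX (PBForce.xiR (PBZF.rwx j (s : ℂ)) 0) := fdX_xiR hj1 hs1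
  have key := fx_D6 (k := j) (s := s) (b := 4 / 3 * (1 - ep)) (z0 := I * t) (v := v)
    (T1 := T1L (j + 1)) hP hb hb' hz hX
    (fun n _ => by
      have := ffamH j s t n (n + Fil.xn (j + 1)) hs1 ht1
      rw [← rwx_rowS] at this
      exact this)
  have hlog : 0 ≤ Real.log ((j + 1 : ℕ) : ℝ) := Real.log_nonneg (by
    have : (1 : ℝ) ≤ ((j + 1 : ℕ) : ℝ) := by exact_mod_cast Nat.succ_le_succ (Nat.zero_le j)
    exact this)
  have hc := HT j hj s hs1 (I * t) hz (by rw [him]; linarith [ht1]) (ccq (j + 1))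
    (norm_ccq (j + 1)) v hv _ rfl
  have efx : (fun s : ℝ => fxQ Fil.q j (I * s) (I * t)) =
      fun η : ℝ => fxQ Fil.q j ((η : ℂ) * I) (I * t) := by
    funext η
    rw [mul_comm]
  rw [efx]
  have eA : F0T6 ep j s t = F0N6 (ZR6 (ccq (j + 1)) (4 / 3 * (1 - ep)) j (I * t) s v (T1L (j + 1))
        (PBForce.xiR (PBZF.rwx j (s : ℂ)) 0) s)
      (fl (pL (j + 1))) (3 / 5 * NUP1.l) (2 * (j + 1))
      (fun _ => Pf (I * t) (PBZF.rwx j s) (yq (PBZF.rwx j s)))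
      (fun ι _ c z => nuQI (rhK2 (PBZF.rwx j s)) (PBOb.aK (xiR (PBZF.rwx j s) 0)) ι c z +
        nuI (rhK2 (PBZF.rwx j s)) (glK (I * t) (PBZF.rwx j s) 0) ι c z) := by
    rw [ZR6_ZF6]
    unfold F0T6 insT
    rw [rwx_rowS]
  have h2 := h1 s hs t ht
  rw [eA] at h2
  have hcn := hD_one key h2 hc
  obtain ⟨D, hD, hb2⟩ := hcn
  refine ⟨D, hD, hb2.trans ?_⟩
  have hj0 : (0 : ℝ) < ((j + 1 : ℕ) : ℝ) := by positivity
  have en : ‖(((j : ℝ) + 1 : ℝ) : ℂ)‖ = ((j + 1 : ℕ) : ℝ) := by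
    rw [Complex.norm_real, Real.norm_of_nonneg (by positivity)]
    push_cast
    ring
  have e2 : Real.exp (2 * |(I * (t : ℂ)).im|) ≤ Real.exp 2 := by
    rw [him]
    exact Real.exp_le_exp.2 (by linarith)
  have e3 : ((j + 1 : ℕ) : ℝ) * ((j + 1 : ℕ) : ℝ) ^ (-2 + d) = ((j + 1 : ℕ) : ℝ) ^ (-1 + d) := by
    have h := Real.rpow_add hj0 1 (-2 + d)
    rw [Real.rpow_one] at h
    rw [← h]
    congr 1
    ring
  rw [en]
  have hp : 0 ≤ ((j + 1 : ℕ) : ℝ) ^ (-2 + d) := Real.rpow_nonneg hj0.le _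
  calc δa j + ((j + 1 : ℕ) : ℝ) * (((j + 1 : ℕ) : ℝ) ^ (-2 + d) * Real.exp (2 * |(I * (t : ℂ)).im|))
      ≤ δa j + ((j + 1 : ℕ) : ℝ) * (((j + 1 : ℕ) : ℝ) ^ (-2 + d) * Real.exp 2) := by gcongr
    _ = δa j + Real.exp 2 * (((j + 1 : ℕ) : ℝ) * ((j + 1 : ℕ) : ℝ) ^ (-2 + d)) := by ring
    _ = _ := by rw [e3]

end PBI.PLX

end
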