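import Pool.Agent.PHK.ObKer6
import Pool.Agent.PB.ObRep

/-!
# The local parts of the pair kernels on the strips of the particle hole form

The strip dependent part of `PB/ObRep` on the strips of `PHK/ObKer6`; margin `l / 400`, rate `7`,
test functions on `-(l / 10) < im < 351 / 400 l`.
-/

set_option autoImplicit false
set_option linter.unusedSectionVars false
set_option linter.unusedVariables false

noncomputable section

open Complex MeasureTheory Set
open scoped Classical

namespace PBOb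

open NUP1 NUP1.Bd NUP1S PBI PB

/-! ## the index space -/

/-- the edge of the strip of the second particle -/
def ed6 (i : (PBI.Kd × PBI.Kd) × Bool) : ℝ := if i.2 then hi6 i.1.2.2 else lo6 i.1.2.2

theorem ed_or6 (i : (PBI.Kd × PBI.Kd) × Bool) : ed6 i = lo6 i.1.2.2 ∨ ed6 i = hi6 i.1.2.2 := by
  unfold ed6
  split_ifs
  · exact Or.inr rfl
  · exact Or.inl rfl

/-- the first factor -/
def A36 (X : ℂ → ℂ) (xp xm : ℂ) (q : IxO) (b : PBI.Kd) (z : ℂ) : ℂ :=
  if b = q.1.1.1 ∧ hasO q.1.1 then Af X xp xm q.1.1.1 q.1.1.2 (ed6 q.1) q.2 z else 0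

/-- the second factor -/
def B36 (q : IxO) (c : PBI.Kd) (w : ℂ) : ℂ :=
  if c = q.1.1.2 ∧ hasO q.1.1 then Bf6 (eds q.1) (ed6 q.1) q.2 w else 0

/-- closed strips inside the strips of the heads -/
def DQ6 (b : PBI.Kd) : Set ℂ :=
  {z | lo6 b.2 + 1 / 400 * l ≤ z.re ∧ z.re ≤ hi6 b.2 - 1 / 400 * l}

theorem DQ_sub6 (b : PBI.Kd) : DQ6 b ⊆ Str6 b.2 := by
  have hl := Bd.l_pos
  rintro z ⟨h1, h2⟩
  exact ⟨by linarith, by linarith⟩

/-! ## measurability -/

attribute [local irreducible] lK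

theorem measurable_Bf6' (σ y : ℝ) {α : Type*} [MeasurableSpace α] {f : α → ℝ} {g : α → ℂ}
    (hf : Measurable f) (hg : Measurable g) : Measurable fun a => Bf6 σ y (f a) (g a) := by
  have h := (PBV.bE_measurable 7 σ (-y)).comp (hf.prodMk (hg.const_mul (-I)))
  have e : (fun q : ℝ × ℂ => PBV.bE 7 σ (-y) q.1 q.2) ∘ (fun a => (f a, -I * g a)) =
      fun a => Bf6 σ y (f a) (g a) := by
    funext a
    simp only [Function.comp, Bf6]
  rw [e] at h
  exact h

theorem measurable_A36 {X : ℂ → ℂ} (hX : Measurable X) (xp xm : ℂ) (b : PBI.Kd) :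
    Measurable fun p : IxO × ℂ => A36 X xp xm p.1 b p.2 := by
  refine meas_IxO fun i => ?_
  simp only [A36]
  by_cases h : b = i.1.1 ∧ hasO i.1
  · simp only [h, and_self, if_true]
    exact measurable_Af' hX xp xm _ _ _ measurable_fst measurable_snd
  · simp only [h, if_false]
    exact measurable_const

theorem measurable_B36 (c : PBI.Kd) : Measurable fun p : IxO × ℂ => B36 p.1 c p.2 := by
  refine meas_IxO fun i => ?_
  simp only [B36]
  by_cases h : c = i.1.2 ∧ hasO i.1
  · simp only [h, and_self, if_true]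
    exact measurable_Bf6' _ _ measurable_fst measurable_snd
  · simp only [h, if_false]
    exact measurable_const

/-! ## bounds -/

/-- the size of the first factor -/
def alO6 (C : ℝ) (q : IxO) : ℝ := cL6 * C * Real.exp (-2 * |q.2|)

/-- the size of the second factor -/
def beO6 (a : ℝ) (q : IxO) : ℝ := PBV.cE 7 (1 / 400 * l) * Real.exp (a * |q.2|)

theorem cE_pos6' : 0 < PBV.cE 7 (1 / 400 * l) := by
  have hl := Bd.l_pos
  refine PBV.cE_pos (by norm_num) (by positivity) ?_
  unfold l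
  linarith [Real.pi_pos]

theorem alO_nonneg6 {C : ℝ} (hC : 0 ≤ C) (q : IxO) : 0 ≤ alO6 C q := by
  have := cL_nonneg6
  unfold alO6
  positivity

theorem beO_nonneg6 (a : ℝ) (q : IxO) : 0 ≤ beO6 a q := by
  have := cE_pos6'
  unfold beO6
  positivity

theorem norm_A3_le6 {X : ℂ → ℂ} {xp xm : ℂ} {M : ℝ} (h : FX6 X xp xm M) (q : IxO)
    {b : PBI.Kd} {z : ℂ} (hz : z ∈ Str6 b.2) :
    ‖A36 X xp xm q b z‖ ≤ alO6 (‖xp - xm‖ + M) q * Real.exp (-2 * |z.im|) := by
  have hM := h.M_nonneg
  unfold A36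
  by_cases hc : b = q.1.1.1 ∧ hasO q.1.1
  · rw [if_pos hc]
    have hz' : z ∈ Str6 q.1.1.1.2 := by rw [← hc.1]; exact hz
    refine (norm_Af_le6 h (ed_or6 q.1) q.2 hz').trans (le_of_eq ?_)
    unfold alO6
    ring
  · rw [if_neg hc, norm_zero]
    have := alO_nonneg6 (C := ‖xp - xm‖ + M) (by positivity) q
    positivity

theorem norm_B3_le6 {a : ℝ} (ha0 : 0 ≤ a) (ha : a ≤ 7) (q : IxO) {c : PBI.Kd} {z : ℂ}
    (hz : z ∈ DQ6 c) : ‖B36 q c z‖ ≤ beO6 a q * Real.exp (-a * |z.im|) := by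
  have hl := Bd.l_pos
  have h0 := cE_pos6'
  unfold B36
  by_cases h : c = q.1.1.2 ∧ hasO q.1.1
  · rw [if_pos h]
    have hz' := hz
    rw [h.1] at hz'
    refine (norm_Bf_le6 (by positivity) (eds_or q.1) (ed_or6 q.1) q.2 hz'.1 hz'.2).trans ?_
    unfold beO6
    rw [mul_assoc, ← Real.exp_add]
    refine mul_le_mul_of_nonneg_left (Real.exp_le_exp.2 ?_) h0.le
    have h1 : |z.im| ≤ |q.2| + |q.2 - z.im| := by
      have := abs_sub_abs_le_abs_sub z.im q.2
      rw [abs_sub_comm] at this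
      linarith
    have h2 : a * |z.im| ≤ a * |q.2| + a * |q.2 - z.im| := by nlinarith
    have h3 : a * |q.2 - z.im| ≤ 7 * |q.2 - z.im| :=
      mul_le_mul_of_nonneg_right ha (abs_nonneg _)
    linarith
  · rw [if_neg h, norm_zero]
    have := beO_nonneg6 a q
    positivity

/-! ## the representation -/

/-- the piece `(b, c)` of the index space -/
theorem aO_int6 {X : ℂ → ℂ} {xp xm : ℂ} {M : ℝ} (h : FX6 X xp xm M) {b c : PBI.Kd} {z w : ℂ}
    (hz : z ∈ Str6 b.2) (hw : w ∈ DQ6 c) :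
    Integrable (fun q => A36 X xp xm q b z * B36 q c w) muO ∧
    aO X xp xm b c z w = ∫ q, A36 X xp xm q b z * B36 q c w ∂muO := by
  have hl := Bd.l_pos
  obtain ⟨k1, k2, k3⟩ := lK_decomp6 (c := c) h hz (by linarith [hw.1]) (by linarith [hw.2])
  have e0 : ∀ i : (PBI.Kd × PBI.Kd) × Bool, i.1 ≠ (b, c) ∨ ¬ hasO i.1 →
      (fun s : ℝ => A36 X xp xm ⟨i, s⟩ b z * B36 ⟨i, s⟩ c w) = fun _ => 0 := by
    intro i hi
    funext s
    unfold A36 B36
    by_cases h1 : b = i.1.1 ∧ hasO i.1
    · by_cases h2 : c = i.1.2 ∧ hasO i.1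
      · exfalso
        rcases hi with hi | hi
        · exact hi (Prod.ext h1.1.symm h2.1.symm)
        · exact hi h1.2
      · rw [if_neg h2, mul_zero]
    · rw [if_neg h1, zero_mul]
  have e1 : ∀ u : Bool, hasO (b, c) →
      (fun s : ℝ => A36 X xp xm ⟨((b, c), u), s⟩ b z * B36 ⟨((b, c), u), s⟩ c w) =
      fun s => Af X xp xm b c (ed6 ((b, c), u)) s z * Bf6 (eds ((b, c), u)) (ed6 ((b, c), u)) s w := by
    intro u ho
    funext s
    unfold A36 B36
    rw [if_pos ⟨rfl, ho⟩, if_pos ⟨rfl, ho⟩]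
  have hI : ∀ i : (PBI.Kd × PBI.Kd) × Bool,
      Integrable fun s : ℝ => A36 X xp xm ⟨i, s⟩ b z * B36 ⟨i, s⟩ c w := by
    rintro ⟨p, u⟩
    by_cases hp : p = (b, c)
    · subst hp
      by_cases ho : hasO (b, c)
      · rw [e1 u ho]
        cases u
        · exact k2
        · exact k1
      · rw [e0 _ (Or.inr ho)]
        exact integrable_zero _ _ _
    · rw [e0 _ (Or.inl hp)]
      exact integrable_zero _ _ _
  refine ⟨PBFunc.integrable_sig.2 hI, ?_⟩
  unfold muO
  rw [PBFunc.integral_sig hI, Fintype.sum_prod_type, Finset.sum_eq_single (b, c)]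
  · rw [Fintype.sum_bool]
    by_cases ho : hasO (b, c)
    · rw [e1 true ho, e1 false ho]
      unfold aO
      rw [if_neg ho, k3]
      rfl
    · rw [e0 _ (Or.inr ho), e0 _ (Or.inr ho)]
      unfold aO
      have ho' : b.2 = none ∧ c.2 = none := not_not.1 ho
      rw [if_pos ho']
      simp
  · intro p _ hp
    refine Finset.sum_eq_zero fun u _ => ?_
    rw [e0 _ (Or.inl hp)]
    simp
  · intro hc
    exact absurd (Finset.mem_univ _) hc

/-- total mass of the representation -/
theorem ab_integrable6 {a : ℝ} (ha : a < 2) (C : ℝ) : Integrable (fun q => alO6 C q * beO6 a q) muO := by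
  have h1 : Integrable (fun q : IxO => ((alO6 C q * beO6 a q : ℝ) : ℂ)) muO := by
    refine PBFunc.integrable_sig.2 fun i => ?_
    have h2 : Integrable fun s : ℝ => Real.exp (-((2 - a) * |s|)) := by
      have := (PBV.int_exp_abs_shift (c := 2 - a) (by linarith) 0).1
      simpa using this
    have h3 := (h2.const_mul (cL6 * C * PBV.cE 7 (1 / 400 * l))).ofReal (𝕜 := ℂ)
    refine h3.congr (Filter.Eventually.of_forall fun s => ?_)
    have e : Real.exp (-((2 - a) * |s|)) = Real.exp (-2 * |s|) * Real.exp (a * |s|) := by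
      rw [← Real.exp_add]
      congr 1
      ring
    have e2 : cL6 * C * PBV.cE 7 (1 / 400 * l) * Real.exp (-((2 - a) * |s|)) =
        alO6 C ⟨i, s⟩ * beO6 a ⟨i, s⟩ := by
      unfold alO6 beO6
      rw [e]
      ring
    exact congrArg Complex.ofReal e2
  have h4 := h1.re
  simpa using h4

/-- **the instance of `NX.PRep`**: pairs of kinds with an object -/
theorem rep36 {X : ℂ → ℂ} {xp xm : ℂ} {M : ℝ} (hX : Measurable X) (h : FX6 X xp xm M)
    {D : PBI.Kd → Set ℂ} (hD : ∀ b, D b ⊆ DQ6 b) {ρ : PBI.Kd → ℝ → ℂ} (hρ : ∀ b, Integrable (ρ b))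
    (hρ0 : ∀ s k u, ρ (s, some k) u = 0) (hl : ∀ s u, vl l u ∈ D (s, none)) {a : ℝ}
    (ha0 : 0 ≤ a) (ha : a < 2) :
    NX.PRep muO D (vl l) ρ (aO X xp xm) (A36 X xp xm) B36 (alO6 (‖xp - xm‖ + M)) (beO6 a)
      (fun _ z => Real.exp (-2 * |z.im|)) (fun _ z => Real.exp (-a * |z.im|)) := by
  have hM := h.M_nonneg
  have hvl : Measurable fun t : ℝ => vl l t := by
    unfold vl
    fun_prop
  have hbd : ∀ c : ℝ, 0 ≤ c → ∀ t : ℝ, Real.exp (-c * |(vl l t).im|) ≤ 1 := by
    intro c hc t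
    rw [Real.exp_le_one_iff]
    nlinarith [abs_nonneg (vl l t).im]
  have hint : ∀ (b : PBI.Kd) (c : ℝ), 0 ≤ c →
      Integrable fun u => ‖ρ b u‖ * Real.exp (-c * |(vl l u).im|) := by
    intro b c hc
    refine (hρ b).norm.mono' ?_ (Filter.Eventually.of_forall fun u => ?_)
    · refine (hρ b).1.norm.mul ?_
      have h1 : Measurable fun u : ℝ => Real.exp (-c * |(vl l u).im|) := by
        have h2 : Measurable fun u : ℝ => (vl l u).im := Complex.measurable_im.comp hvl
        exact Real.measurable_exp.comp ((h2.abs).const_mul _)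
      exact h1.aestronglyMeasurable
    · rw [norm_mul, norm_norm, Real.norm_of_nonneg (Real.exp_pos _).le]
      exact mul_le_of_le_one_right (norm_nonneg _) (hbd c hc u)
  refine ⟨?_, ?_, ?_, ?_, ?_, ?_, ?_, ?_, ?_, ?_, ?_, ?_, ?_, ?_⟩
  · intro b c x y hx hy
    exact (aO_int6 h (DQ_sub6 b (hD b hx)) (hD c hy)).2
  · intro b c x y _ _
    exact aO_symm X xp xm b c x y
  · intro b x _
    exact ((measurable_A36 hX xp xm b).comp
      (measurable_id.prodMk measurable_const)).aestronglyMeasurable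
  · intro b x _
    exact ((measurable_B36 b).comp (measurable_id.prodMk measurable_const)).aestronglyMeasurable
  · intro b
    have h1 : Measurable fun p : IxO × ℝ => A36 X xp xm p.1 b (vl l p.2) :=
      (measurable_A36 hX xp xm b).comp (measurable_fst.prodMk (hvl.comp measurable_snd))
    exact ((hρ b).1.comp_snd).mul h1.aestronglyMeasurable
  · intro b
    have h1 : Measurable fun p : IxO × ℝ => B36 p.1 b (vl l p.2) :=
      (measurable_B36 b).comp (measurable_fst.prodMk (hvl.comp measurable_snd))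
    exact ((hρ b).1.comp_snd).mul h1.aestronglyMeasurable
  · intro q b x hx
    exact norm_A3_le6 h q (DQ_sub6 b (hD b hx))
  · intro q b x hx
    exact norm_B3_le6 ha0 (by linarith) q (hD b hx)
  · exact ab_integrable6 ha _
  · exact fun q => alO_nonneg6 (by positivity) q
  · exact fun q => beO_nonneg6 a q
  · exact fun b => hint b 2 (by norm_num)
  · exact fun b => hint b a ha0
  · rintro ⟨s, k⟩ u hu
    cases k with
    | none => exact hl s u
    | some k => exact absurd (hρ0 s k u) hu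

/-! ## the quanta kinds as test functions -/

theorem Sp_mem6 {w : ℂ} (hw : w ∈ PBE.Sp (-(l / 10)) (351 / 400 * l)) :
    l + I * w ∈ DQ6 (true, none) ∧ (l + I * w).im = w.re := by
  have hl := Bd.l_pos
  obtain ⟨h1, h2⟩ := hw
  have e1 : (l + I * w : ℂ).re = l - w.im := by simp [sub_eq_add_neg]
  have e2 : (l + I * w : ℂ).im = w.re := by simp
  refine ⟨?_, e2⟩
  show lo6 none + 1 / 400 * l ≤ (l + I * w).re ∧ (l + I * w).re ≤ hi6 none - 1 / 400 * l
  rw [e1]
  simp only [lo6, hi6]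
  constructor <;> linarith

/-- analytic in the first variable -/
theorem lK_diff6' {X : ℂ → ℂ} (hX : DifferentiableOn ℂ X FS6) (xp xm : ℂ) {b c : PBI.Kd} {z z' : ℂ}
    (hz : z ∈ Str6 b.2) (hz' : z' ∈ Str6 c.2) :
    DifferentiableAt ℂ (fun z => lK X xp xm b c z z') z := by
  have e : (fun z => lK X xp xm b c z z') = lK X xp xm c b z' := funext fun z => lK_symm X xp xm b c z z'
  rw [e]
  exact lK_diff6 hX xp xm hz' hz

theorem ed_mem6 (i : (PBI.Kd × PBI.Kd) × Bool) (s : ℝ) : vl (ed6 i) s ∈ Str6 i.1.2.2 := by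
  have hl := Bd.l_pos
  have hle : lo6 i.1.2.2 ≤ hi6 i.1.2.2 := by
    rcases i.1.2.2 with _ | (_ | _ | _) <;> simp only [lo6, hi6] <;> linarith
  have e1 : (vl (ed6 i) s).re = ed6 i := by simp [vl]
  show lo6 i.1.2.2 ≤ (vl (ed6 i) s).re ∧ (vl (ed6 i) s).re ≤ hi6 i.1.2.2
  rw [e1]
  rcases ed_or6 i with h | h <;> rw [h]
  · exact ⟨le_rfl, hle⟩
  · exact ⟨hle, le_rfl⟩

/-- the first factor is analytic on the strips -/
theorem A3_diff6 {X : ℂ → ℂ} (hX : DifferentiableOn ℂ X FS6) (xp xm : ℂ) (q : IxO) (b : PBI.Kd) {z : ℂ}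
    (hz : z ∈ Str6 b.2) : DifferentiableAt ℂ (A36 X xp xm q b) z := by
  by_cases hc : b = q.1.1.1 ∧ hasO q.1.1
  · have e : A36 X xp xm q b = fun z => lK X xp xm q.1.1.1 q.1.1.2 z (vl (ed6 q.1) q.2) := by
      funext z
      unfold A36
      rw [if_pos hc]
      rfl
    rw [e]
    exact lK_diff6' hX xp xm (by rw [← hc.1]; exact hz) (ed_mem6 q.1 q.2)
  · have e : A36 X xp xm q b = fun _ => 0 := by
      funext z
      unfold A36
      rw [if_neg hc]
    rw [e]
    exact differentiableAt_const _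

/-- the second factor is analytic inside the strips -/
theorem B3_diff6 (q : IxO) (c : PBI.Kd) {w : ℂ} (h1 : lo6 c.2 < w.re) (h2 : w.re < hi6 c.2) :
    DifferentiableAt ℂ (B36 q c) w := by
  by_cases hc : c = q.1.1.2 ∧ hasO q.1.1
  · have e : B36 q c = fun w => PBV.bE 7 (eds q.1) (-(ed6 q.1)) q.2 (-I * w) := by
      funext z
      unfold B36
      rw [if_pos hc]
      rfl
    rw [e]
    have hw : -I * w ∈ PBV.So (-hi6 c.2) (-lo6 c.2) := by
      constructor
      · rw [(Bf_arg w).2]; linarith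
      · rw [(Bf_arg w).2]; linarith
    have key := PBV.bE_differentiableOn (α := 7) (y₁ := -hi6 c.2) (y₂ := -lo6 c.2) (σ := eds q.1)
      (y := -(ed6 q.1)) (s := q.2) (by norm_num) (width_lt6 c.2) (by
        rcases ed_or6 q.1 with h | h
        · right; rw [h, ← hc.1]
        · left; rw [h, ← hc.1])
    exact ((key _ hw).differentiableAt ((PBV.isOpen_So _ _).mem_nhds hw)).comp w (by fun_prop)
  · have e : B36 q c = fun _ => 0 := by
      funext z
      unfold B36
      rw [if_neg hc]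
    rw [e]
    exact differentiableAt_const _

/-- the quanta kinds of the first factor are test functions -/
theorem A3_tc6 {X : ℂ → ℂ} {xp xm : ℂ} {M : ℝ} (h : FX6 X xp xm M) {a : ℝ} (ha : a ≤ 2) (q : IxO)
    (s : Bool) : PBE.TC (-(l / 10)) (351 / 400 * l) a (alO6 (‖xp - xm‖ + M) q)
      (fun w => A36 X xp xm q (s, none) (l + I * w)) := by
  have hM := h.M_nonneg
  constructor
  · intro w hw
    obtain ⟨h1, -⟩ := Sp_mem6 hw
    have h2 : l + I * w ∈ Str6 (s, (none : Option O3)).2 := DQ_sub6 (true, none) h1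
    have h3 := (A3_diff6 h.dif xp xm q (s, none) h2).comp w
      (show DifferentiableAt ℂ (fun w : ℂ => (l : ℂ) + I * w) w by fun_prop)
    exact h3.differentiableWithinAt
  · intro w hw
    obtain ⟨h1, h0⟩ := Sp_mem6 hw
    have h2 : l + I * w ∈ Str6 (s, (none : Option O3)).2 := DQ_sub6 (true, none) h1
    have h3 := norm_A3_le6 h q (b := (s, none)) h2
    rw [h0] at h3
    refine h3.trans (mul_le_mul_of_nonneg_left (Real.exp_le_exp.2 ?_)
      (alO_nonneg6 (by positivity) q))
    nlinarith [abs_nonneg w.re]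

/-- the quanta kinds of the second factor are test functions -/
theorem B3_tc6 {a : ℝ} (ha0 : 0 ≤ a) (ha : a ≤ 7) (q : IxO) (s : Bool) :
    PBE.TC (-(l / 10)) (351 / 400 * l) a (beO6 a q) (fun w => B36 q (s, none) (l + I * w)) := by
  have hl := Bd.l_pos
  constructor
  · intro w hw
    obtain ⟨h1, -⟩ := Sp_mem6 hw
    have h3 := (B3_diff6 q (s, none) (w := l + I * w) (by
      have := h1.1
      simp only at this ⊢
      linarith) (by
      have := h1.2
      simp only at this ⊢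
      linarith)).comp w
      (show DifferentiableAt ℂ (fun w : ℂ => (l : ℂ) + I * w) w by fun_prop)
    exact h3.differentiableWithinAt
  · intro w hw
    obtain ⟨h1, h0⟩ := Sp_mem6 hw
    have h2 : l + I * w ∈ DQ6 (s, none) := h1
    have h3 := norm_B3_le6 ha0 ha q h2
    rw [h0] at h3
    refine h3.trans (le_of_eq ?_)
    rw [neg_mul]

end PBOb

end
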