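import Pool.Agent.PB.LamDec
import Pool.Agent.PHK.ObRep6

/-!
# (P): decay of the leg force on all kinds, wide strips

Twin of `PB.LamDec` over the strips `Str6`, `DQ6` of `PHK/ObKer6`, `PHK/ObRep6`:
`lamL_dec6`, **`lamK_dec6`**, `lamK_dec6'`, `lamK_DQ6`.
-/

set_option autoImplicit false
set_option linter.unusedSectionVars false

noncomputable section

open MeasureTheory Set Filter Topology
open scoped Classical

namespace PBQ1

open NUMF PBForce Pool.Agent.PB NUP1S PBOb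

/-- decay of the leg force -/
lemma lamL_dec6 : ∃ C : ℝ, 0 < C ∧ ∀ z : ℂ, |z.re| ≤ l / 2 → |z.im| ≤ 1 → ∀ u : ℂ,
    -(247 / 100) * l ≤ u.re → u.re ≤ 6 / 5 * l → ‖lamL z u‖ ≤ C * Real.exp (-2 * |u.im|) := by
  have hl := l_pos
  obtain ⟨C, hC, H⟩ := fSd_dec (a := 3 / 10 * l) (b := 497 / 100 * l) (by linarith) (by linarith) (by linarith)
  refine ⟨C * Real.exp 2, by positivity, fun z hz1 hz2 u h1 h2 => ?_⟩
  obtain ⟨a1, a2⟩ := abs_le.1 hz1
  have r : (z + 2 * l - u : ℂ).re = z.re + 2 * l - u.re := by simp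
  have i : (z + 2 * l - u : ℂ).im = z.im - u.im := by simp
  have h := H (z + 2 * l - u) (by rw [r]; linarith) (by rw [r]; linarith)
  unfold lamL
  rw [norm_mul, Complex.norm_I, one_mul]
  refine h.trans ?_
  rw [i, mul_assoc, ← Real.exp_add]
  refine mul_le_mul_of_nonneg_left (Real.exp_le_exp.2 ?_) hC.le
  have h3 : |u.im| ≤ |z.im - u.im| + |z.im| := by
    have := abs_add_le (u.im - z.im) z.im
    rw [sub_add_cancel, abs_sub_comm] at this
    exact this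
  linarith

/-- **decay of the leg force, all kinds** -/
theorem lamK_dec6 : ∃ C : ℝ, 0 < C ∧ ∀ z : ℂ, |z.re| ≤ l / 2 → |z.im| ≤ 1 → ∀ (b : K4) (w : ℂ),
    w ∈ Str6 b.2 → ‖lamK z b w‖ ≤ C * Real.exp (-2 * |w.im|) := by
  have hl := l_pos
  obtain ⟨C, hC, H⟩ := lamL_dec6
  refine ⟨C + C, by positivity, fun z hz1 hz2 b w hw => ?_⟩
  obtain ⟨hw1, hw2⟩ := hw
  have hE := Real.exp_pos (-2 * |w.im|)
  have hL := H z hz1 hz2
  have r2 : (w - l : ℂ).re = w.re - l := by simp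
  have i2 : (w - l : ℂ).im = w.im := by simp
  have hCE : 0 < C * Real.exp (-2 * |w.im|) := by positivity
  rw [add_mul]
  obtain ⟨σ, k⟩ := b
  rcases k with _ | (_ | _ | _)
  · change 3 / 25 * l ≤ w.re at hw1
    change w.re ≤ 221 / 200 * l at hw2
    have := hL w (by linarith) (by linarith)
    change ‖lamL z w‖ ≤ _
    linarith
  · change -(63 / 50) * l ≤ w.re at hw1
    change w.re ≤ -l at hw2
    have := hL w (by linarith) (by linarith)
    change ‖lamL z w‖ ≤ _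
    linarith
  · change -(73 / 50) * l ≤ w.re at hw1
    change w.re ≤ -(31 / 25) * l at hw2
    have h1 := hL w (by linarith) (by linarith)
    have h2 := hL (w - l) (by rw [r2]; linarith) (by rw [r2]; linarith)
    rw [i2] at h2
    change ‖lamL z w + lamL z (w - l)‖ ≤ _
    exact (norm_add_le _ _).trans (add_le_add h1 h2)
  · change -(13 / 25) * l ≤ w.re at hw1
    change w.re ≤ -(12 / 25) * l at hw2
    have h1 := hL w (by linarith) (by linarith)
    have h2 := hL (w - l) (by rw [r2]; linarith) (by rw [r2]; linarith)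
    rw [i2] at h2
    change ‖lamL z w + lamL z (w - l)‖ ≤ _
    exact (norm_add_le _ _).trans (add_le_add h1 h2)

/-- any rate `a ≤ 2` -/
theorem lamK_dec6' : ∃ C : ℝ, 0 < C ∧ ∀ z : ℂ, |z.re| ≤ l / 2 → |z.im| ≤ 1 → ∀ a : ℝ, a ≤ 2 →
    ∀ (b : K4) (w : ℂ), w ∈ Str6 b.2 → ‖lamK z b w‖ ≤ C * Real.exp (-a * |w.im|) := by
  obtain ⟨C, hC, H⟩ := lamK_dec6
  refine ⟨C, hC, fun z hz1 hz2 a ha b w hw => (H z hz1 hz2 b w hw).trans ?_⟩
  refine mul_le_mul_of_nonneg_left (Real.exp_le_exp.2 ?_) hC.le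
  have := abs_nonneg w.im
  nlinarith

/-- **the hypothesis of `pinO_VO`** -/
theorem lamK_DQ6 : ∃ C : ℝ, 0 < C ∧ ∀ z : ℂ, |z.re| ≤ l / 2 → |z.im| ≤ 1 → ∀ a : ℝ, a ≤ 2 →
    ∀ b : PBI.Kd, ∀ w ∈ DQ6 b, ‖lamK z b w‖ ≤ C * Real.exp (-a * |w.im|) := by
  obtain ⟨C, hC, H⟩ := lamK_dec6'
  exact ⟨C, hC, fun z hz1 hz2 a ha b w hw => H z hz1 hz2 a ha b w (DQ_sub6 b hw)⟩

end PBQ1

end
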