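import Pool.Agent.PHK.RepI6
import Pool.Agent.PHK.InsBr6
import Pool.Agent.PLX.PB.RepF

/-!
# (P): the hypotheses of `repI6` at the dislocated function

* `DR6`: the domain; **`ln_row6`**: the landed lines of the first Ward identity, the density of the
  rows; `parP_par0` is the landed one;
* `lnB_flX`, **`insQ6_flX`**: the bridge for the lines `PBI.PLX.fl`.
-/

set_option autoImplicit false
set_option linter.unusedSectionVars false

noncomputable section

open Complex MeasureTheory Finset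
open scoped ENNReal Classical

open PLX (Fil)

namespace PHK

open NUO NUP1 NUP1S NURow
open PBF.PLX (Crs MCr)
open PBI (Stt F0)

/-- the landed lines -/
theorem lnB_flX {P : Par6} {P0 : NUO.Par} (hP0 : NURow.ParP P0) (hj : P.jL ≤ 9 / 4) :
    LnB (PBI.PLX.fl P0) P (3 / 5 * l) := lnB_fl hP0 hj

/-- **the data of the transfer from the landed lines of the first Ward identity** -/
theorem insQ6_flX [Fil] {P : Par6} {κ κ' δ : ℝ} {Q : ℤ} {n n' : ℕ} {η η' : Crs} {P0 : NUO.Par}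
    (hP0 : NURow.ParP P0) (hG : GoodP6 P) (he : 3 / 8 ≤ P.e)
    (hj : P.j2 ≤ 7 / 8) (hJ : P.jL ≤ 9 / 4)
    (hS : StP δ P) (hc : MCr η η') (hη : ∀ r ≤ 2 * (n + n'), ∀ O, CrvR6 δ (η r O) (η' r O))
    (hκ : 0 < κ) (hn : (n : ℤ) - n' = Q)
    (hcls : ∀ Z : Stt, ClZ6 Z P (3 / 5 * l) κ κ' δ Q →
      ZobjQ (Z true) (Z false) (51 / 100 * l) n n' (lX6 P) (lY6 P) =
        FF6 Z P n n' η η' (fun _ _ _ _ _ => 1)) :
    InsQ6 (PBI.PLX.fl P0) P (3 / 5 * l) κ κ' δ Q n n' η η' :=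
  insQ6_of hG he hj hJ hS hc hη hκ hn (lnB_flX hP0 hJ) hcls

end PHK

namespace PBRep.PLX

open NUP1 hiding Kd
open NUO NUP1S NUP1S.Ab NUP1S.AbC PBF PBF.PLX PBFunc PBFunc.PLX PB
open PBI (Stt Kd F0 F0Ok nuI nuQI mnI InD PAll F0_rep nuI_eq)
open PBI.PLX (fl)
open PBForce (xiR rhoR Rws0)

/-- the domain -/
def DR6 (b : Kd) : Set ℂ :=
  {z | z ∈ PBOb.DQ6 b ∧ (b.2 = none → 49 / 400 * l < z.re ∧ z.re < 11 / 10 * l)}

theorem dOk_DR6 : DOk6 DR6 := by
  have hl := Bd.l_pos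
  refine ⟨fun b z hz => hz.1, fun s z hz => hz.2 rfl, fun s u => ⟨?_, fun _ => ?_⟩⟩
  · have e : (vl l u).re = l := by simp [vl]
    show PBOb.lo6 none + 1 / 400 * l ≤ (vl l u).re ∧ (vl l u).re ≤ PBOb.hi6 none - 1 / 400 * l
    rw [e]
    simp only [PBOb.lo6, PBOb.hi6]
    constructor <;> linarith
  · have e : (vl l u).re = l := by simp [vl]
    rw [e]
    constructor <;> linarith

/-- the lines of a word -/
theorem all_DR6 {P : NUO.Par} (hP : NURow.ParP P) {x0 : ℝ} (h0 : 49 / 400 * l < x0)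
    (h1 : x0 < 11 / 10 * l) (n n' : ℕ) {p p' : ℕ} (k : Fin p → O3) (k' : Fin p' → O3)
    (i : (Fin (nA n k) ⊕ Fin p) ⊕ (Fin (nA n' k') ⊕ Fin p')) (t : ℝ) :
    vl ((fl P).all x0 n n' k k' i) t ∈ DR6 (PBI.cl n n' k k' i) := by
  have hl := Bd.l_pos
  have hre : ∀ y : ℝ, (vl y t).re = y := fun y => by simp [vl]
  have key : ∀ (s : Bool) (k : O3) (x : ℝ), x ∈ Set.Icc (NURow.loP (some k)) (NURow.hiP (some k)) →
      vl x t ∈ DR6 (s, some k) := by
    rintro s k x ⟨a, b⟩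
    refine ⟨?_, fun h => absurd h (by simp)⟩
    show PBOb.lo6 (some k) + 1 / 400 * l ≤ (vl x t).re ∧
      (vl x t).re ≤ PBOb.hi6 (some k) - 1 / 400 * l
    rw [hre]
    cases k <;> simp only [PBOb.lo6, PBOb.hi6, NURow.loP, NURow.hiP] at * <;> constructor <;> linarith
  have hA : ∀ s : Bool, vl x0 t ∈ DR6 (s, none) := by
    intro s
    refine ⟨?_, fun _ => ?_⟩
    · show PBOb.lo6 none + 1 / 400 * l ≤ (vl x0 t).re ∧ (vl x0 t).re ≤ PBOb.hi6 none - 1 / 400 * l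
      rw [hre]
      simp only [PBOb.lo6, PBOb.hi6]
      constructor <;> linarith
    · rw [hre]
      exact ⟨h0, h1⟩
  rcases i with (i | i) | (i | i)
  · exact hA true
  · exact key true (k i) _ ((NURow.lnA_P hP).hX p p' k k' i)
  · exact hA false
  · exact key false (k' i) _ ((NURow.lnA_P hP).hY p p' k k' i)

variable [Fil]

/-- **the lines and the density of the rows** -/
theorem ln_row6 {P : NUO.Par} (hP : NURow.ParP P) {x0 : ℝ} (h0 : 49 / 400 * l < x0)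
    (h1 : x0 < 11 / 10 * l) {m N : ℕ} (hN : N = 2 * m) {x : Fin m → ℂ} (hx : Rws0 x) :
    Ln6 (fl P) x0 N DR6 (PBQ1.rhK2 x) fun t => rhoR x (vl l t) where
  hD := dOk_DR6
  hw := fun n _ _ _ k k' _ _ i t => all_DR6 hP h0 h1 n (n + dN N) k k' i t
  hρ := rhoK_rows hx
  ch := by
    rw [(rho_mass hx).2, hN, dN_two, ← Complex.ofReal_natCast (Fil.xn m), Fil.cast_xn]
    push_cast
    ring

end PBRep.PLX

end
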