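import Pool.Agent.PLX.PB.RepK

/-!
# (P): the local part of the pair kernel of two quanta on the wide strip of the statistics

`PB/RepK` with the window `49/400 l ≤ Re ≤ 11/10 l` of the quanta (the statistics of the particle-hole
form live on the curves too): `cosh_hgt6`, **`lK_quanta6`**.
-/

set_option autoImplicit false
set_option linter.unusedSectionVars false

noncomputable section

open Complex MeasureTheory

namespace PBRep.PLX

open PBForce PBOb PBOb.PLX PBF PBF.PLX

section quanta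

lemma cosh_hgt6 {z : ℂ} (h1 : 49 / 400 * NUP1.l ≤ z.re) (h2 : z.re ≤ 11 / 10 * NUP1.l) :
    |(hgt z).im| ≤ NUMF.l := by
  have hl : 0 < NUMF.l := NUMF.l_pos
  have hll : NUP1.l = NUMF.l := rfl
  rw [hgt_im, abs_le, hll]
  rw [hll] at h1 h2
  constructor <;> linarith

/-- **the local part of the kernel of two quanta in the channels, wide window** -/
theorem lK_quanta6 (X : ℂ → ℂ) (xp xm : ℂ) (s s' : Bool) {z w : ℂ} (hz1 : 49 / 400 * NUP1.l ≤ z.re)
    (hz2 : z.re ≤ 11 / 10 * NUP1.l) (hw1 : 49 / 400 * NUP1.l ≤ w.re) (hw2 : w.re ≤ 11 / 10 * NUP1.l) :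
    lK X xp xm (s, none) (s', none) z w =
      2 * PBV.Ep (fun v => X ((NUP1.l : ℂ) + I * v)) xp xm (hgt z) (hgt w) +
      2 * (eM s * eM s') * PBV.Em (fun v => X ((NUP1.l : ℂ) + I * v)) xp xm (hgt z) (hgt w) := by
  obtain ⟨ξ, hξ⟩ : ∃ ξ : ℂ → ℂ, ξ = fun v : ℂ => X ((NUP1.l : ℂ) + I * v) := ⟨_, rfl⟩
  rw [← hξ]
  have hl : 0 < NUMF.l := NUMF.l_pos
  have hll : NUP1.l = NUMF.l := rfl
  have iz := cosh_hgt6 hz1 hz2
  have iw := cosh_hgt6 hw1 hw2
  have izw : |(hgt z - hgt w).im| < NUMF.l := by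
    rw [Complex.sub_im, hgt_im, hgt_im, abs_lt, hll]
    rw [hll] at hz1 hz2 hw1 hw2
    constructor <;> linarith
  have xz : ξ (hgt z) = X z := by rw [hξ]; show X _ = _; rw [hgt_inv]
  have xw : ξ (hgt w) = X w := by rw [hξ]; show X _ = _; rw [hgt_inv]
  have hpz : ∀ z : ℂ, pf none z = z := fun z => by
    unfold pf
    rw [sh_none]
    simp
  have hp : pK X xp xm (s, none) (s', none) z w =
      2 * (eM s * eM s') * PBV.Pl ξ xp xm (hgt z) (hgt w) := by
    unfold pK
    simp only [hpz]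
    rw [qb_none, qb_none, sgU_tgh iz, sgU_tgh iw]
    unfold PB.NX.plat PB.NX.be PBV.Pl PBV.beC
    rw [xz, xw]
  unfold lK
  rw [hp]
  rcases eq_or_ne z w with hzw | hzw
  · subst hzw
    have d1 := PBV.Ep_diag ξ xp xm iz
    have d2 := PBV.Em_diag ξ xp xm iz
    have dx : deriv ξ (hgt z) = I * deriv X z := by rw [hξ]; exact deriv_xi X z
    rw [dx] at d1 d2
    by_cases hs : s = s'
    · subst hs
      rw [aK_self, hpz]
      have e : eM s * eM s = 1 := by cases s <;> simp [eM]
      rw [e]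
      linear_combination (-(1 / 2 : ℂ)) * d1 + (-(1 / 2 : ℂ)) * d2
    · have e : eM s * eM s' = -1 := by
        cases s <;> cases s' <;> simp [eM] at hs ⊢
      have ha : aK X (s, none) (s', none) z z = 0 := by
        unfold aK
        have hco : ∀ s : Bool, PBI.co (s, none) = (s, .A) := fun s => rfl
        rw [hco, hco]
        have e1 : m0 (s, .A) (s', .A) = 0 := by simp [m0, PBOb.mC, hs]
        rw [e1]
        simp
      rw [ha, e]
      linear_combination (-(1 / 2 : ℂ)) * d1 + (1 / 2 : ℂ) * d2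
  · have hne : hgt z ≠ hgt w := by
      intro h0
      have h1 := sub_hgt z w
      rw [h0, sub_self, zero_mul] at h1
      exact hzw (sub_eq_zero.1 h1)
    rw [aK_quanta X s s' hzw izw, ← xz, ← xw]
    have d1 := PBV.Ep_eq ξ xp xm iz iw izw.le hne
    have d2 := PBV.Em_eq ξ xp xm iz iw izw.le hne
    by_cases hs : s = s'
    · subst hs
      rw [if_pos rfl]
      have e : eM s * eM s = 1 := by cases s <;> simp [eM]
      rw [e]
      linear_combination (1 / 2 : ℂ) * d1 + (1 / 2 : ℂ) * d2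
    · rw [if_neg hs]
      have e : eM s * eM s' = -1 := by
        cases s <;> cases s' <;> simp [eM] at hs ⊢
      rw [e]
      linear_combination (1 / 2 : ℂ) * d1 - (1 / 2 : ℂ) * d2

end quanta

end PBRep.PLX

end
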