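import Pool.Agent.PLX.PB.RepQ

import Pool.Agent.PHK.RepM6
import Pool.Agent.PHK.RepT6
import Pool.Agent.PHK.ObRep6

/-!
# (P): the channels of the quanta in the first Ward identity

Twin of `PLX/PB/RepQ` for `Par6`, strip `-(l / 10) < im < 351 / 400 * l` (quanta in
`49 / 400 l < re < 11 / 10 l`); `qK`, `RhoK`, `kQ`, `qD_meas` .. are the landed ones.

* `VC_p6`, `VC_m6`: `VC6 = Vp6 + VO6`, `VC6 = Vm6 + VO6`;
* `hgt_mem6`, `adS_q6`: admissible statistics from test functions;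
* `pinO_VO6`, `Vp_meas6`, `Vm_meas6`, **`obs_p6`, `obs_m6`**: the statistics are `Obs`;
* `DOk6`: the domain; **`chn_q6`**: the representation of the kernel `kQ` of the quanta.
-/

set_option autoImplicit false
set_option linter.unusedSectionVars false
set_option maxHeartbeats 1000000

noncomputable section

open Complex MeasureTheory Finset
open scoped ENNReal Classical

open PLX (Fil)

namespace PBRep.PLX

open NUP1 hiding Kd
open NUO NUP1S NUP1S.Ab NUP1S.AbC PBF PBF.PLX PBFunc PBFunc.PLX PB PHK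
open PBI (Stt Kd F0 F0Ok nuI nuQI mnI InD PAll F0_rep nuI_eq)

variable [Fil] {P : Par6} {x0 δ : ℝ} {N : ℕ} {η η' : ℕ → Crs}

/-- **plus channel** -/
theorem VC_p6 {ρ : Kd → ℝ → ℂ} {ρ0 : ℝ → ℂ} (h : RhoK ρ ρ0) (g : ℂ → ℂ) (ω : CfN6 N) :
    VC6 ρ P η (qK eP g) ω = Vp6 ρ0 η g ω + VO6 (qD eP g) P ω := by
  unfold VC6 Vp6
  rw [mnI_p h, sK_qK, VA6_eq, Fil.b_true, ofReal_one]
  ring

/-- **minus channel** -/
theorem VC_m6 {ρ : Kd → ℝ → ℂ} {ρ0 : ℝ → ℂ} (h : RhoK ρ ρ0) (g : ℂ → ℂ) (ω : CfN6 N) :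
    VC6 ρ P η (qK eM g) ω = Vm6 ρ0 η g ω + VO6 (qD eM g) P ω := by
  unfold VC6 Vm6
  rw [mnI_m h, sK_qK, VA6_eq, Fil.b_true, ofReal_one]
  ring

/-! ### admissible statistics -/

theorem hgt_mem6 {z : ℂ} (h1 : 49 / 400 * l < z.re) (h2 : z.re < 11 / 10 * l) :
    hgt z ∈ PBE.Sp (-(l / 10)) (351 / 400 * l) := by
  constructor
  · rw [hgt_im]
    linarith
  · rw [hgt_im]
    linarith

/-- **admissible statistics from test functions** -/
theorem adS_q6 {ε : Bool → ℂ} (hε : ∀ s, ‖ε s‖ ≤ 1) {g : ℂ → ℂ} {a M : ℝ} (ha : 0 ≤ a)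
    (hM : 0 ≤ M) (hg : PBE.TC (-(l / 10)) (351 / 400 * l) a M g) (mg : Measurable g)
    (hδ : δ < 1 / 10) : AdS6 P x0 δ (qD ε g) := by
  have hl := Bd.l_pos
  have hmem : ∀ u : ℂ, 99 / 800 * l ≤ u.re → u.re ≤ (1 + δ) * l →
      hgt u ∈ PBE.Sp (-(l / 10)) (351 / 400 * l) :=
    fun u h1 h2 => hgt_mem6 (by linarith) (by nlinarith)
  refine ⟨M, qD_meas mg, fun s u h1 h2 => ?_, fun s u h1 h2 => ?_, ?_, ?_⟩
  · have h3 : DifferentiableAt ℂ g (hgt u) :=
      hg.an.differentiableAt ((PBEI.Sp_open _ _).mem_nhds (hmem u h1 h2))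
    exact (h3.comp u (diff_hgt u)).const_mul (ε s)
  · show ‖ε s * g (hgt u)‖ ≤ M
    rw [norm_mul]
    have h3 := hg.bd _ (hmem u h1 h2)
    have h4 : Real.exp (-(a * |(hgt u).re|)) ≤ 1 :=
      Real.exp_le_one_iff.2 (neg_nonpos.2 (mul_nonneg ha (abs_nonneg _)))
    calc ‖ε s‖ * ‖g (hgt u)‖ ≤ 1 * (M * 1) :=
          mul_le_mul (hε s) (h3.trans (mul_le_mul_of_nonneg_left h4 hM)) (norm_nonneg _)
            zero_le_one
      _ = M := by ring
  · intro s o u _
    exact differentiableAt_const (0 : ℂ)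
  · intro s o u _
    show ‖(0 : ℂ)‖ ≤ M
    rwa [norm_zero]

/-! ### the satellites and the holes -/

/-- **the statistic of the objects is pinned** -/
theorem pinO_VO6 (hG : GoodP6 P) (hj : P.j2 ≤ 7 / 8)
    {ε : Bool → ℂ} (hε : ∀ s, ‖ε s‖ ≤ 1) {g : ℂ → ℂ} {a M : ℝ}
    (hM : 0 ≤ M) (hg : PBE.TC (-(l / 10)) (351 / 400 * l) a M g) (mg : Measurable g) :
    PinO (mN6 N) (pinN6 a) (VO6 (N := N) (qD ε g) P) (40 * M) := by
  have hl := Bd.l_pos
  refine ⟨?_, by positivity, fun ω => ?_⟩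
  · have h1 := evN_stO_s6 (T := Unit) (D := fun _ => qD ε g)
      (fun s k => (qD_meas mg s k).comp measurable_snd) (N := N) (fun _ => P)
    have h2 : Measurable fun ω : CfN6 N => ((), ω) := measurable_const.prodMk measurable_id
    exact (h1.comp h2).aestronglyMeasurable
  · refine stO_leC6 hG hj hM ω.2.2.1 ?_ ?_ ?_ ?_
    · intro s t
      show ‖(0 : ℂ)‖ ≤ _
      rw [norm_zero]
      positivity
    · intro s t
      show ‖(0 : ℂ)‖ ≤ _
      rw [norm_zero]
      positivity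
    · intro s t
      show ‖(0 : ℂ)‖ ≤ _
      rw [norm_zero]
      positivity
    · intro s z h1 h2
      show ‖ε s * g (hgt z)‖ ≤ _
      rw [norm_mul]
      have h3 := hg.bd _ (hgt_mem6 (z := z) h1 h2)
      rw [hgt_re] at h3
      calc ‖ε s‖ * ‖g (hgt z)‖ ≤ 1 * (M * Real.exp (-(a * |z.im|))) :=
            mul_le_mul (hε s) h3 (norm_nonneg _) zero_le_one
        _ = _ := by ring

theorem Vp_meas6 {ρ0 : ℝ → ℂ} (hc : ∀ n ≤ N, MCr (η n) (η' n)) {g : ℂ → ℂ} (mg : Measurable g) :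
    AEStronglyMeasurable (Vp6 ρ0 η g : CfN6 N → ℂ) (mN6 N) := by
  have h1 := evN_stQ_s6 (T := Unit) (D := fun _ => qD eP g)
    (fun s k => (qD_meas mg s k).comp measurable_snd) (N := N) hc
  have h2 : Measurable fun ω : CfN6 N => ((), ω) := measurable_const.prodMk measurable_id
  exact ((h1.comp h2).sub_const _).aestronglyMeasurable

theorem Vm_meas6 {ρ0 : ℝ → ℂ} (hc : ∀ n ≤ N, MCr (η n) (η' n)) {g : ℂ → ℂ} (mg : Measurable g) :
    AEStronglyMeasurable (Vm6 ρ0 η g : CfN6 N → ℂ) (mN6 N) := by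
  have h1 := evN_stQ_s6 (T := Unit) (D := fun _ => qD eM g)
    (fun s k => (qD_meas mg s k).comp measurable_snd) (N := N) hc
  have h2 : Measurable fun ω : CfN6 N => ((), ω) := measurable_const.prodMk measurable_id
  exact ((h1.comp h2).sub_const _).aestronglyMeasurable

/-- **the statistic of all constituents, plus channel** -/
theorem obs_p6 (hG : GoodP6 P) (hj : P.j2 ≤ 7 / 8)
    (hc : ∀ n ≤ N, MCr (η n) (η' n)) {ρ : Kd → ℝ → ℂ} {ρ0 : ℝ → ℂ} (hρ : RhoK ρ ρ0)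
    {g : ℂ → ℂ} {a M : ℝ} (hM : 0 ≤ M)
    (hg : PBE.TC (-(l / 10)) (351 / 400 * l) a M g) (mg : Measurable g) :
    Obs (-(l / 10)) (351 / 400 * l) a (mN6 N) (Vp6 ρ0 η) (pinN6 a) 40 (VC6 ρ P η (qK eP g)) g M
    where
  tc := hg
  m := Vp_meas6 hc mg
  O := by
    have e : (fun ω : CfN6 N => VC6 ρ P η (qK eP g) ω - Vp6 ρ0 η g ω) = VO6 (qD eP g) P := by
      funext ω
      rw [VC_p6 hρ]
      ring
    rw [e]
    exact pinO_VO6 hG hj eP_le hM hg mg

/-- **the statistic of all constituents, minus channel** -/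
theorem obs_m6 (hG : GoodP6 P) (hj : P.j2 ≤ 7 / 8)
    (hc : ∀ n ≤ N, MCr (η n) (η' n)) {ρ : Kd → ℝ → ℂ} {ρ0 : ℝ → ℂ} (hρ : RhoK ρ ρ0)
    {g : ℂ → ℂ} {a M : ℝ} (hM : 0 ≤ M)
    (hg : PBE.TC (-(l / 10)) (351 / 400 * l) a M g) (mg : Measurable g) :
    Obs (-(l / 10)) (351 / 400 * l) a (mN6 N) (Vm6 ρ0 η) (pinN6 a) 40 (VC6 ρ P η (qK eM g)) g M
    where
  tc := hg
  m := Vm_meas6 hc mg
  O := by
    have e : (fun ω : CfN6 N => VC6 ρ P η (qK eM g) ω - Vm6 ρ0 η g ω) = VO6 (qD eM g) P := by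
      funext ω
      rw [VC_m6 hρ]
      ring
    rw [e]
    exact pinO_VO6 hG hj eM_le hM hg mg

/-! ### the kernels of the quanta -/

/-- the domain -/
structure DOk6 (D : Kd → Set ℂ) : Prop where
  q : ∀ b, D b ⊆ PBOb.DQ6 b
  n : ∀ s, D (s, none) ⊆ {z | 49 / 400 * l < z.re ∧ z.re < 11 / 10 * l}
  ln : ∀ s u, vl l u ∈ D (s, none)

theorem DOk6.he {D : Kd → Set ℂ} (h : DOk6 D) {ρ : Kd → ℝ → ℂ} {ρ0 : ℝ → ℂ} (hρ : RhoK ρ ρ0) :
    ∀ b u, ρ b u ≠ 0 → vl l u ∈ D b := by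
  rintro ⟨s, k⟩ u hu
  cases k with
  | none => exact h.ln s u
  | some k => exact absurd (hρ.o s k u) hu

section chn

variable {T : Type*} [MeasurableSpace T] {μ : Measure T} [SFinite μ]

/-- **representation of the kernel of the quanta** -/
theorem chn_q6 {L : PBI.Lns} {ε : Bool → ℂ} (hε : ∀ s, ‖ε s‖ ≤ 1) {D : Kd → Set ℂ}
    (hD : DOk6 D)
    {ρ : Kd → ℝ → ℂ} {ρ0 : ℝ → ℂ} (hρ : RhoK ρ ρ0) {K : ℂ → ℂ → ℂ} {A B : T → ℂ → ℂ}
    {al be : T → ℝ} {a : ℝ} (ha : 0 ≤ a) (hδ : δ < 1 / 10)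
    (hR : PBE.Rep (-(l / 10)) (351 / 400 * l) a μ A B al be)
    (hK : ∀ z ∈ PBE.Sp (-(l / 10)) (351 / 400 * l), ∀ w ∈ PBE.Sp (-(l / 10)) (351 / 400 * l),
      K z w = ∫ q, A q z * B q w ∂μ)
    (hs : ∀ z w, K z w = K w z) (mK : Measurable fun p : ℂ × ℂ => K p.1 p.2)
    (mA : Measurable fun p : T × ℂ => A p.1 p.2) (mB : Measurable fun p : T × ℂ => B p.1 p.2)
    (hd : ∀ n ≤ N, PBI.AllW x0 n (n + dN N) L fun c x => ∀ i, ∀ t : ℝ, vl (x i) t ∈ D (c i)) :
    Chn6 L P x0 δ N μ D ρ (kQ ε K) (fun q => qK ε (A q)) (fun q => qK ε fun z => 2 * B q z) al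
      (fun q => 2 * be q) (fun _ z => Real.exp (-(a * |z.im|)))
      (fun _ z => Real.exp (-(a * |z.im|))) := by
  have hl := Bd.l_pos
  have y1 : -(l / 10) < 0 := by linarith
  have y2 : 0 < 351 / 400 * l := by linarith
  have a0 : ∀ q, 0 ≤ al q := fun q => (hR.tA q).nonneg y1 y2
  have b0 : ∀ q, 0 ≤ be q := fun q => (hR.tB q).nonneg y1 y2
  have mB2 : Measurable fun p : T × ℂ => 2 * B p.1 p.2 := mB.const_mul 2
  have mA1 : ∀ q, Measurable (A q) := fun q => mA.comp (measurable_const.prodMk measurable_id)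
  have mB1 : ∀ q, Measurable fun z => 2 * B q z := fun q =>
    mB2.comp (measurable_const.prodMk measurable_id)
  have tB2 : ∀ q, PBE.TC (-(l / 10)) (351 / 400 * l) a (2 * be q) (fun z => 2 * B q z) := by
    intro q
    refine ⟨(hR.tB q).an.const_mul 2, fun z hz => ?_⟩
    rw [norm_mul, Complex.norm_ofNat]
    have := (hR.tB q).bd z hz
    linarith
  have mem : ∀ {b : Kd} {z : ℂ}, z ∈ D b → b.2 = none →
      hgt z ∈ PBE.Sp (-(l / 10)) (351 / 400 * l) := by
    rintro ⟨s, k⟩ z hz hb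
    simp only at hb
    subst hb
    exact hgt_mem6 (hD.n s hz).1 (hD.n s hz).2
  have bd : ∀ {g : ℂ → ℂ} {M : ℝ}, 0 ≤ M → PBE.TC (-(l / 10)) (351 / 400 * l) a M g →
      ∀ (b : Kd) (z : ℂ), z ∈ D b → ‖qK ε g b z‖ ≤ M * Real.exp (-(a * |z.im|)) := by
    intro g M hM hg b z hz
    by_cases hb : b.2 = none
    · rw [qK_none ε g hb, norm_mul]
      have h3 := hg.bd _ (mem hz hb)
      rw [hgt_re] at h3
      calc ‖ε b.1‖ * ‖g (hgt z)‖ ≤ 1 * (M * Real.exp (-(a * |z.im|))) :=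
            mul_le_mul (hε _) h3 (norm_nonneg _) zero_le_one
        _ = _ := by ring
    · rw [qK_some ε g hb, norm_zero]
      positivity
  have hint : ∀ b : Kd, Integrable fun u => ‖ρ b u‖ * Real.exp (-(a * |(vl l u).im|)) := by
    intro b
    refine (hρ.int b).norm.mono' ?_ (Filter.Eventually.of_forall fun u => ?_)
    · refine (hρ.int b).1.norm.mul ?_
      have h1 : Continuous fun u : ℝ => Real.exp (-(a * |(vl l u).im|)) := by
        unfold vl
        fun_prop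
      exact h1.aestronglyMeasurable
    · rw [norm_mul, norm_norm, Real.norm_of_nonneg (Real.exp_pos _).le]
      refine mul_le_of_le_one_right (norm_nonneg _) ?_
      exact Real.exp_le_one_iff.2 (neg_nonpos.2 (mul_nonneg ha (abs_nonneg _)))
  have hvl : Measurable fun t : ℝ => vl l t := by
    unfold vl
    fun_prop
  have one : ∀ z : ℂ, Real.exp (-(a * |z.im|)) ≤ 1 := fun z =>
    Real.exp_le_one_iff.2 (neg_nonpos.2 (mul_nonneg ha (abs_nonneg _)))
  refine ⟨⟨?_, ?_, ?_, ?_, ?_, ?_, ?_, ?_, ?_, a0, ?_, hint, hint, hD.he hρ⟩, ?_, ?_, ?_, ?_, ?_, ?_⟩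
  · intro b c x y hx hy
    unfold kQ
    by_cases h : b.2 = none ∧ c.2 = none
    · rw [if_pos h, hK _ (mem hx h.1) _ (mem hy h.2), ← integral_const_mul]
      refine integral_congr_ae (Filter.Eventually.of_forall fun q => ?_)
      simp only []
      rw [qK_none _ _ h.1, qK_none _ _ h.2]
      ring
    · rw [if_neg h]
      have e : ∀ q, qK ε (A q) b x * qK ε (fun z => 2 * B q z) c y = 0 := by
        intro q
        by_cases hb : b.2 = none
        · rw [qK_some ε (fun z => 2 * B q z) (b := c) fun hc => h ⟨hb, hc⟩, mul_zero]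
        · rw [qK_some ε (A q) hb, zero_mul]
      simp only [e, integral_zero]
  · intro b c x y _ _
    unfold kQ
    by_cases h : b.2 = none ∧ c.2 = none
    · rw [if_pos h, if_pos h.symm, hs]
      ring
    · rw [if_neg h, if_neg fun h' => h h'.symm]
  · intro b x _
    exact ((qK_meas ε mA b).comp (measurable_id.prodMk measurable_const)).aestronglyMeasurable
  · intro b x _
    exact ((qK_meas ε (A := fun q z => 2 * B q z) mB2 b).comp
      (measurable_id.prodMk measurable_const)).aestronglyMeasurable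
  · intro b
    exact ((hρ.int b).1.comp_snd).mul ((qK_meas ε mA b).comp
      (measurable_fst.prodMk (hvl.comp measurable_snd))).aestronglyMeasurable
  · intro b
    exact ((hρ.int b).1.comp_snd).mul ((qK_meas ε (A := fun q z => 2 * B q z) mB2 b).comp
      (measurable_fst.prodMk (hvl.comp measurable_snd))).aestronglyMeasurable
  · intro q b x hx
    exact bd (a0 q) (hR.tA q) b x hx
  · intro q b x hx
    exact bd (mul_nonneg zero_le_two (b0 q)) (tB2 q) b x hx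
  · refine (hR.int.const_mul 2).congr (Filter.Eventually.of_forall fun q => ?_)
    simp only []
    ring
  · exact fun q => mul_nonneg zero_le_two (b0 q)
  · intro b c x _
    refine AEStronglyMeasurable.mul ?_ (hρ.int c).1
    unfold kQ
    by_cases h : b.2 = none ∧ c.2 = none
    · simp only [if_pos h]
      have h1 : Measurable fun u : ℝ => (hgt x, hgt (vl l u)) :=
        measurable_const.prodMk (measurable_hgt.comp hvl)
      exact ((mK.comp h1).const_mul _).aestronglyMeasurable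
    · simp only [if_neg h]
      exact aestronglyMeasurable_const
  · exact qK_meas ε mA
  · exact qK_meas ε (A := fun q z => 2 * B q z) mB2
  · intro q
    show AdS6 P x0 δ (qD ε (A q))
    exact adS_q6 hε ha (a0 q) (hR.tA q) (mA1 q) hδ
  · intro q
    show AdS6 P x0 δ (qD ε fun z => 2 * B q z)
    exact adS_q6 hε ha (mul_nonneg zero_le_two (b0 q)) (tB2 q) (mB1 q) hδ
  · intro n hn
    exact ⟨hd n hn, fun _ _ _ _ _ _ => ⟨1, fun _ _ => one _⟩,
      fun _ _ _ _ _ _ => ⟨1, fun _ _ => one _⟩⟩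

end chn

end PBRep.PLX

end
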