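import Pool.Agent.PHK.ObKer6
import Pool.Agent.PHK.EInst6
import Pool.Agent.PHK.RepM6
import Pool.Agent.PHK.RepT6
import Pool.Agent.PLX.PB.RepU

/-!
# (P): the localised field and the step as observables

The landed file `PLX/PB/RepU` on `CfN6 N`; `fX`, `sX`, `chK_none`, `sgC_tgh`, `mnI_ch`, `sgK_none`,
`beK_none`, `measurable_beK`, `measurable_sgK` are the landed ones.

* `VC_sg6`: the centred statistic of `sgK sX` is the step `SN6`;
* `VQ6_congr`: statistics of the quanta depend on the strip of the curves only;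
* `adS_be6`, `adS_sg6`: `beK xp xm (fX X) sX` and `sgK sX` are admissible;
* `VC_be6`, **`obs_u6`**: the localised field is `Vm6` of `beC` plus a pinned observable.
-/

set_option autoImplicit false
set_option linter.unusedSectionVars false
set_option linter.unusedVariables false
set_option maxHeartbeats 1000000

noncomputable section

open Complex MeasureTheory Finset
open scoped ENNReal Classical

open PLX (Fil)

namespace PBRep.PLX

open NUP1 hiding Kd
open NUO NUP1S NUP1S.Ab NUP1S.AbC PBF PBF.PLX PBFunc PBFunc.PLX PB PHK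
open PBI (Stt Kd F0 F0Ok nuI nuQI mnI InD PAll F0_rep nuI_eq)
open PBEI (y1 y26)

variable [Fil] {Z : Stt} {L : PBI.Lns} {P : Par6} {x0 κ κ' δ : ℝ} {N : ℕ} {η η' : ℕ → Crs}
  {c : ℕ → ℂ}

/-- **the step** -/
theorem VC_sg6 {ρ : Kd → ℝ → ℂ} {ρ0 : ℝ → ℂ} (h : RhoK ρ ρ0) (ω : CfN6 N) :
    VC6 ρ P η (PBI.sgK sX) ω = SN6 ρ0 P η ω := by
  rw [SN6_sgU]
  unfold VC6
  rw [mnI_ch h sgK_none, sK_sgK, Fil.b_true, ofReal_one]

/-- **statistics of the quanta depend on the strip of the curves only** -/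
theorem VQ6_congr (hT : TrN6 Z L P x0 κ κ' δ N η η') {D D' : Stt}
    (hD : ∀ s z, (1 - δ) * l ≤ z.re → z.re ≤ (1 + δ) * l → D s none z = D' s none z) :
    (VQ6 D η : CfN6 N → ℂ) = VQ6 D' η := by
  funext ω
  have hn : (ω.1 : ℕ) ≤ N := Nat.lt_succ_iff.1 ω.1.2
  have hc1 := (hT.ins ω.1 hn).hη ω.2.1.1 (Nat.lt_succ_iff.1 ω.2.1.1.2) ω.2.2.1
  have key : ∀ (s : Bool) (t : ℝ), D s none (NUO.pA (Fil.cv s (η ω.1 ω.2.1.1 ω.2.2.1)) t) =
      D' s none (NUO.pA (Fil.cv s (η ω.1 ω.2.1.1 ω.2.2.1)) t) := by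
    intro s t
    obtain ⟨h1, h2⟩ := pA_mem6 (hc1.cv s) t
    exact hD s _ h1 h2
  rw [VQ6_eq, VQ6_eq]
  simp only [key]

/-! ### bounds -/

variable {X : ℂ → ℂ} {xp xm : ℂ} {M : ℝ}

theorem norm_beK_le6 (h : PBOb.FX6 X xp xm M) {b : Kd} {z : ℂ} (hz : z ∈ PBOb.Str6 b.2) :
    ‖PBI.beK xp xm (fX X) sX b z‖ ≤ 2 * (M + 2 * ‖xp - xm‖) * Real.exp (-4 * |z.im|) := by
  have h1 := (h.plt (PBOb.pf_mem6 hz)).be_le
  rw [PBOb.pf_im] at h1
  unfold PBI.beK fX sX
  rw [norm_mul, mul_assoc]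
  exact mul_le_mul (norm_chK_le b) h1 (norm_nonneg _) zero_le_two

theorem norm_sgK_le6 {b : Kd} {z : ℂ} (hz : z ∈ PBOb.Str6 b.2) : ‖PBI.sgK sX b z‖ ≤ 6 := by
  have hu := PBOb.pf_mem6 hz
  have h1 := NX.Plt.mk_sgC (xp := 0) (xm := 0) (M := 0) (x := 0) (z := -I * (PBOb.pf b.2 z - l))
    (PBOb.sgU_im6 (PBOb.Fst_sub_FS6 hu)) (fun _ => by simp) (fun _ => by simp)
  have h2 := h1.s_le
  unfold PBI.sgK sX PBOb.sgU
  rw [norm_mul]
  calc ‖PBI.chK b‖ * ‖NX.sgC (-I * (PBOb.pf b.2 z - l))‖ ≤ 2 * (1 + 2) :=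
        mul_le_mul (norm_chK_le b) h2 (norm_nonneg _) zero_le_two
    _ = 6 := by norm_num

private theorem diff_pf (k : Option O3) (z : ℂ) : DifferentiableAt ℂ (PBOb.pf k) z := by
  unfold PBOb.pf
  fun_prop

theorem beK_diff6 (h : PBOb.FX6 X xp xm M) {b : Kd} {u : ℂ} (hu : u ∈ PBOb.Str6 b.2) :
    DifferentiableAt ℂ (PBI.beK xp xm (fX X) sX b) u := by
  have hF := PBOb.Fst_sub_FS6 (PBOb.pf_mem6 hu)
  have d1 : DifferentiableAt ℂ (fun z => X (PBOb.pf b.2 z)) u :=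
    (h.dif.differentiableAt (PBOb.isOpen_FS6.mem_nhds hF)).comp u (diff_pf b.2 u)
  have d2 : DifferentiableAt ℂ (fun z => PBOb.sgU (PBOb.pf b.2 z)) u :=
    (PBOb.sgU_diff6 hF).comp u (diff_pf b.2 u)
  have e : PBI.beK xp xm (fX X) sX b =
      fun z => PBI.chK b * NX.be xp xm (X (PBOb.pf b.2 z)) (PBOb.sgU (PBOb.pf b.2 z)) := rfl
  rw [e]
  unfold NX.be
  exact (((differentiableAt_const _).sub d1).add (d2.const_mul _)).const_mul _

theorem sgK_diff6 {b : Kd} {u : ℂ} (hu : u ∈ PBOb.Str6 b.2) :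
    DifferentiableAt ℂ (PBI.sgK sX b) u := by
  have hF := PBOb.Fst_sub_FS6 (PBOb.pf_mem6 hu)
  have d2 : DifferentiableAt ℂ (fun z => PBOb.sgU (PBOb.pf b.2 z)) u :=
    (PBOb.sgU_diff6 hF).comp u (diff_pf b.2 u)
  have e : PBI.sgK sX b = fun z => PBI.chK b * PBOb.sgU (PBOb.pf b.2 z) := rfl
  rw [e]
  exact d2.const_mul _

/-- the strip of the quanta and of the holes -/
theorem str6_none {u : ℂ} (hδ : δ ≤ 1 / 10) (h1 : 49 / 400 * l ≤ u.re)
    (h2 : u.re ≤ (1 + δ) * l) : u ∈ PBOb.Str6 none := by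
  have hl := Bd.l_pos
  show PBOb.lo6 none ≤ u.re ∧ u.re ≤ PBOb.hi6 none
  simp only [PBOb.lo6, PBOb.hi6]
  constructor
  · linarith
  · have : (1 + δ) * l ≤ (1 + 1 / 10) * l := mul_le_mul_of_nonneg_right (by linarith) hl.le
    linarith

/-- the boxes of the objects lie in the strips of the kernels -/
theorem str6_box (hG : GoodP6 P) {u : ℂ} {o : O3}
    (h : u.re ∈ Set.Icc (loB P (some o)) (hiB P (some o))) : u ∈ PBOb.Str6 (some o) := by
  have hl := Bd.l_pos
  have h1 := hG.L2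
  have h2 := hG.e45
  obtain ⟨a, b⟩ := h
  show PBOb.lo6 (some o) ≤ u.re ∧ u.re ≤ PBOb.hi6 (some o)
  rcases o with _ | _ | _ <;> simp only [PBOb.lo6, PBOb.hi6, loB, hiB] at * <;> constructor <;>
    nlinarith

/-- **a statistic, analytic and bounded on the strips of the kernels, is admissible** -/
theorem adm_str6 (hG : GoodP6 P) (hδ : δ ≤ 1 / 10) {C : ℝ} {g : Kd → ℂ → ℂ}
    (hm : ∀ b, Measurable (g b)) (hd : ∀ (b : Kd) (u : ℂ), u ∈ PBOb.Str6 b.2 →
      DifferentiableAt ℂ (g b) u) (hC : ∀ (b : Kd) (u : ℂ), u ∈ PBOb.Str6 b.2 → ‖g b u‖ ≤ C) :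
    Adm6 (sK g) P x0 δ C := by
  have hl := Bd.l_pos
  have h0 : 49 / 400 * l ≤ 99 / 800 * l := by linarith
  exact {
    m := fun s k => hm (s, k)
    d := fun s u h1 h2 => hd (s, none) u (str6_none hδ (h0.trans h1) h2)
    A := fun s u h1 h2 => hC (s, none) u (str6_none hδ (h0.trans h1) h2)
    dO := fun s o u h => hd (s, some o) u (str6_box hG h)
    bO := fun s o u h => hC (s, some o) u (str6_box hG h) }

/-- **the localised field is admissible** -/
theorem adS_be6 (hG : GoodP6 P) (hδ : δ ≤ 1 / 10) (hX : Measurable X)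
    (h : PBOb.FX6 X xp xm M) : AdS6 P x0 δ (sK (PBI.beK xp xm (fX X) sX)) := by
  refine ⟨2 * (M + 2 * ‖xp - xm‖), adm_str6 hG hδ (fun b => measurable_beK hX b)
    (fun b u hu => beK_diff6 h hu) fun b u hu => ?_⟩
  have hM := h.M_nonneg
  refine (norm_beK_le6 h hu).trans (mul_le_of_le_one_right (by positivity) ?_)
  rw [Real.exp_le_one_iff]
  nlinarith [abs_nonneg u.im]

/-- **the step is admissible** -/
theorem adS_sg6 (hG : GoodP6 P) (hδ : δ ≤ 1 / 10) : AdS6 P x0 δ (sK (PBI.sgK sX)) :=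
  ⟨6, adm_str6 hG hδ (fun b => measurable_sgK b) (fun b u hu => sgK_diff6 hu)
    fun b u hu => norm_sgK_le6 hu⟩

/-! ### the observable -/

/-- the two forms of the localised field on the strip of the curves -/
theorem be_beC6 {z : ℂ} (hz : z ∈ PBOb.FS6) :
    NX.be xp xm (X z) (PBOb.sgU z) = PBV.beC (fun v => X (l + I * v)) xp xm (hgt z) := by
  have e1 : (l : ℂ) + I * hgt z = z := by
    unfold hgt
    linear_combination (-(z - l)) * I_mul_I
  have h1 := PBOb.sgU_im6 hz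
  unfold NX.be PBV.beC PBOb.sgU
  rw [sgC_tgh h1]
  simp only [e1]
  rfl

/-- the part of the quanta -/
theorem VQ6_be (hT : TrN6 Z L P x0 κ κ' δ N η η') :
    (VQ6 (sK (PBI.beK xp xm (fX X) sX)) η : CfN6 N → ℂ) =
      VQ6 (qD eM (PBV.beC (fun v => X (l + I * v)) xp xm)) η := by
  have hl := Bd.l_pos
  have hδ := (hT.ins 0 (Nat.zero_le _)).hS.d1
  refine VQ6_congr hT fun s z h1 h2 => ?_
  show PBI.beK xp xm (fX X) sX (s, none) z = eM s * PBV.beC (fun v => X (l + I * v)) xp xm (hgt z)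
  rw [beK_none, be_beC6 ⟨by nlinarith, by nlinarith⟩]

/-- **`VC6` of the localised field** -/
theorem VC_be6 (hT : TrN6 Z L P x0 κ κ' δ N η η') {ρ : Kd → ℝ → ℂ} {ρ0 : ℝ → ℂ}
    (hρ : RhoK ρ ρ0) (ω : CfN6 N) : VC6 ρ P η (PBI.beK xp xm (fX X) sX) ω =
      Vm6 ρ0 η (PBV.beC (fun v => X (l + I * v)) xp xm) ω +
        VO6 (sK (PBI.beK xp xm (fX X) sX)) P ω := by
  have e : ∀ u : ℝ, NX.be xp xm (X (vl l u)) (PBOb.sgU (vl l u)) =
      PBV.beC (fun v => X (l + I * v)) xp xm u := by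
    intro u
    have hl := Bd.l_pos
    have e1 : (vl l u).re = l := by simp [vl]
    rw [be_beC6 ⟨by rw [e1]; linarith, by rw [e1]; linarith⟩, hgt_line]
  unfold VC6 Vm6
  rw [mnI_ch hρ (beK_none xp xm X), VA6_eq, VQ6_be hT, Fil.b_true, ofReal_one]
  simp only [e]
  ring

private theorem measU_VO6 {g : Kd → ℂ → ℂ} (hg : ∀ b, Measurable (g b)) :
    Measurable (VO6 (sK g) P : CfN6 N → ℂ) := by
  have h := evN_stO_s6 (T := Unit) (D := fun _ => sK g)
    (fun s k => (hg (s, k)).comp measurable_snd) (N := N) (fun _ => P)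
  exact h.comp (measurable_const.prodMk measurable_id :
    Measurable fun ω : CfN6 N => (((), ω) : Unit × CfN6 N))

private theorem measU_Vm6 {ρ0 : ℝ → ℂ} (hc : ∀ n ≤ N, MCr (η n) (η' n)) {g : ℂ → ℂ}
    (hg : Measurable g) : Measurable (Vm6 ρ0 η g : CfN6 N → ℂ) := by
  have h : Measurable fun p : Unit × CfN6 N => VQ6 (qD eM g) η p.2 :=
    evN_stQ_s6 (T := Unit) (D := fun _ => qD eM g)
      (fun s k => (qD_meas hg s k).comp measurable_snd) hc
  have h2 : Measurable fun ω : CfN6 N => VQ6 (qD eM g) η ω :=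
    Measurable.comp (g := fun p : Unit × CfN6 N => VQ6 (qD eM g) η p.2)
      (f := fun ω : CfN6 N => (((), ω) : Unit × CfN6 N)) h (measurable_const.prodMk measurable_id)
  exact h2.sub_const _

/-- **the localised field is `Vm6` plus a pinned observable** -/
theorem obs_u6 (hT : TrN6 Z L P x0 κ κ' δ N η η') {ρ : Kd → ℝ → ℂ} {ρ0 : ℝ → ℂ}
    (hρ : RhoK ρ ρ0) (hX : Measurable X) (h : PBOb.FX6 X xp xm M) {a Mu : ℝ} (ha0 : 0 ≤ a)
    (ha : a ≤ 2) (htc : PBE.TC y1 y26 a Mu (PBV.beC (fun v => X (l + I * v)) xp xm))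
    (hMu : 2 * (M + 2 * ‖xp - xm‖) ≤ Mu) :
    Obs y1 y26 a (mN6 N) (Vm6 ρ0 η) (pinN6 a) 40
      (VC6 ρ P η (PBI.beK xp xm (fX X) sX)) (PBV.beC (fun v => X (l + I * v)) xp xm) Mu where
  tc := htc
  m := (measU_Vm6 (fun n hn => (hT.ins n hn).hc)
    (PBV.beC_measurable (hX.comp (by fun_prop)) xp xm)).aestronglyMeasurable
  O := by
    have hM := h.M_nonneg
    have hi := hT.ins 0 (Nat.zero_le _)
    have hM0 : 0 ≤ Mu := le_trans (by positivity) hMu
    have hl := Bd.l_pos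
    have e : (fun ω : CfN6 N => VC6 ρ P η (PBI.beK xp xm (fX X) sX) ω -
        Vm6 ρ0 η (PBV.beC (fun v => X (l + I * v)) xp xm) ω) =
        VO6 (sK (PBI.beK xp xm (fX X) sX)) P := by
      funext ω
      rw [VC_be6 hT hρ]
      ring
    rw [e]
    refine ⟨(measU_VO6 fun b => measurable_beK hX b).aestronglyMeasurable, by positivity,
      fun ω => ?_⟩
    have hre : ∀ y t : ℝ, (vl y t).re = y := fun y t => by simp [vl]
    have him : ∀ y t : ℝ, (vl y t).im = t := fun y t => by simp [vl]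
    have key : ∀ (b : Kd) (z : ℂ), z ∈ PBOb.Str6 b.2 →
        ‖PBI.beK xp xm (fX X) sX b z‖ ≤ Mu * Real.exp (-(a * |z.im|)) := fun b z hz =>
      (norm_beK_le6 h hz).trans (mul_le_mul hMu
        (Real.exp_le_exp.2 (by nlinarith [abs_nonneg z.im])) (Real.exp_pos _).le hM0)
    have hG := hi.hG
    refine stO_leC6 (D := sK (PBI.beK xp xm (fX X) sX)) hG hi.hj hM0 ω.2.2.1 (fun s t => ?_)
      (fun s t => ?_) (fun s t => ?_) (fun s z h1 h2 => ?_)
    · have h3 := key (s, some .L) (posL P.jL t) (str6_box (o := .L) hG (by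
        rw [show (posL P.jL t).re = (1 - P.jL) * l from hre _ _]
        have := hi.hL
        simp only [loB, hiB]
        exact ⟨by nlinarith, le_rfl⟩))
      rwa [show (posL P.jL t).im = t from him _ _] at h3
    · have h3 := key (s, some .T) (posT t) (str6_box (o := .T) hG (by
        rw [show (posT t).re = -(1 / 2 * l) from hre _ _]
        simp only [loB, hiB]
        exact ⟨le_rfl, le_rfl⟩))
      rwa [show (posT t).im = t from him _ _] at h3
    · have h3 := key (s, some .S) (posS P.e t) (str6_box (o := .S) hG (by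
        rw [show (posS P.e t).re = -((1 + P.e) * l) from hre _ _]
        have := hG.e13
        simp only [loB, hiB]
        exact ⟨le_rfl, by nlinarith⟩))
      rwa [show (posS P.e t).im = t from him _ _] at h3
    · exact key (s, none) z (str6_none (δ := 1 / 10) le_rfl h1.le (by linarith))

end PBRep.PLX

end
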