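import Pool.Agent.PHK.RepN6
import Pool.Agent.PHK.ChnO26
import Pool.Agent.PHK.FXi6
import Pool.Agent.PHK.RepK6
import Pool.Agent.PHK.RepU6
import Pool.Agent.PHK.RepQ6
import Pool.Agent.PLX.PB.RepI

/-!
# Plan B: the quadratic part of the first Ward identity in terms of the free quanta (helper15)

**`repI6`**: rows `x` on the imaginary axis, row `i0`, rate `a' < 2`; sum over `n ≤ N`, weights `c n`:
`m * F0N6 (nuQ aK + nu gl)` equals
`∫ F[Vp6 (Apl6 q) Vp6 (Bch6 q)] dwm + (∫ F[Vm6 (Ami6 q) Vm6 (Bch6 q)] dwm + 2 F[Vm6 uF S] -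
  (rP - rM)/2 F[S S]) + F[Vp6 qF]`
up to `K (1 + Mq) δ`, where `δ` bounds the moments with one pinned factor (`Pins`).
-/

set_option autoImplicit false
set_option linter.unusedSectionVars false
set_option maxHeartbeats 1000000

noncomputable section

open Complex MeasureTheory Finset
open scoped ENNReal Classical

open PLX (Fil)

namespace PBRep.PLX

open NUP1 hiding Kd
open NUO NUP1S NUP1S.Ab NUP1S.AbC PBF PBF.PLX PBFunc PBFunc.PLX PB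
open PBI (Stt Kd F0 F0Ok nuI nuQI mnI InD PAll F0_rep nuI_eq)
open PHK
open PBForce (xiR Rws0)
open PBV (Ep Em wm)
open PBEI (Apl6 Ami6 Bch6 rP rM rF uF qF)

variable [Fil] {Z : Stt} {L : PBI.Lns} {P : Par6} {x0 κ κ' δ : ℝ} {N : ℕ} {η η' : ℕ → Crs} {c : ℕ → ℂ}

/-- linearity of the centred statistic -/
theorem VC_smul6 (ρ : Kd → ℝ → ℂ) (r : ℂ) (g : Kd → ℂ → ℂ) (ω : CfN6 N) :
    VC6 ρ P η (fun b z => r * g b z) ω = r * VC6 ρ P η g ω := by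
  have h1 : mnI ρ (fun b z => r * g b z) = r * mnI ρ g := by
    unfold mnI NX.mn
    rw [Finset.mul_sum]
    refine Finset.sum_congr rfl fun b _ => ?_
    rw [← integral_const_mul]
    refine integral_congr_ae (Filter.Eventually.of_forall fun u => ?_)
    simp only []
    ring
  have h2 : VA6 (sK fun b z => r * g b z) P η ω = r * VA6 (sK g) P η ω := by
    have h3 : VO6 (sK fun b z => r * g b z) P ω = r * VO6 (sK g) P ω := by
      show stO6 _ P _ = r * stO6 _ P _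
      unfold stO6
      rw [Finset.mul_sum]
      refine Finset.sum_congr rfl fun i _ => ?_
      unfold obT6
      rw [← List.sum_map_mul_left]
      congr 1
      refine List.map_congr_left fun c _ => ?_
      simp only [sK]
      ring
    rw [VA6_eq, VA6_eq, h3, VQ6_eq, VQ6_eq]
    simp only [sK]
    rw [← Finset.mul_sum, ← Finset.mul_sum]
    ring
  unfold VC6
  rw [h1, h2]
  ring

/-- the three channels -/
theorem lK_split6 {X : ℂ → ℂ} (hX : DifferentiableOn ℂ X PBOb.FS6) (xp xm : ℂ) {D : Kd → Set ℂ} (hD : DOk6 D)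
    (b c : Kd) (z w : ℂ) (hz : z ∈ D b) (hw : w ∈ D c) :
    PBI.aLoc xp xm (fX X) sX (PBOb.aK X) b c z w =
      kQ eP (Ep (fun v => X (l + I * v)) xp xm) b c z w +
        kQ eM (Em (fun v => X (l + I * v)) xp xm) b c z w + PBOb.aO X xp xm b c z w := by
  have hl := Bd.l_pos
  rw [aLoc_eq]
  unfold kQ PBOb.aO
  by_cases h : b.2 = none ∧ c.2 = none
  · obtain ⟨s, k⟩ := b
    obtain ⟨s', k'⟩ := c
    simp only at h
    obtain ⟨rfl, rfl⟩ := h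
    simp only [and_self, if_true]
    have h1 := hD.n s hz
    have h2 := hD.n s' hw
    rw [lK_quanta6 X xp xm s s' (by linarith [h1.1]) h1.2.le (by linarith [h2.1]) h2.2.le]
    simp only [eP]
    ring
  · simp only [if_neg h]
    ring

/-- scaling of the whole insertion -/
theorem F0N_scale6 (ρ : Kd → ℝ → ℂ) (r : ℂ) (X : ℂ → ℂ) (gl : Kd → ℂ → ℂ) :
    r * F0N6 Z L x0 N c (fun ι _ s z => nuQI ρ (PBOb.aK X) ι s z + nuI ρ gl ι s z) =
      F0N6 Z L x0 N c (fun ι _ s z => nuQI ρ (PBOb.aK fun u => r * X u) ι s z +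
        nuI ρ (fun b z => r * gl b z) ι s z) := by
  rw [← F0N6_smul]
  congr 1
  funext ι _ s z
  have e : PBOb.aK (fun u => r * X u) = fun b c z w => r * PBOb.aK X b c z w := by
    funext b c z w
    exact aK_smul r X b c z w
  rw [e, nuQI_smul]
  have e2 : nuI ρ (fun b z => r * gl b z) ι s z = r * nuI ρ gl ι s z := by
    rw [nuI_eq, nuI_eq, mul_sub]
    congr 1
    · unfold PBI.St
      rw [Finset.mul_sum]
    · unfold mnI NX.mn
      rw [Finset.mul_sum]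
      refine Finset.sum_congr rfl fun b _ => ?_
      rw [← integral_const_mul]
      refine integral_congr_ae (Filter.Eventually.of_forall fun u => ?_)
      simp only []
      ring
  rw [e2]
  ring

/-- the mean of an admissible statistic exists -/
theorem int_ad6 {g : Kd → ℂ → ℂ} (hA : AdS6 P x0 δ (sK g)) {ρ : Kd → ℝ → ℂ} {ρ0 : ℝ → ℂ}
    (hρ : RhoK ρ ρ0) (hδ : 0 ≤ δ) (b : Kd) :
    Integrable fun u => ρ b u * g b (vl l u) := by
  have hl := Bd.l_pos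
  obtain ⟨C, hA⟩ := hA
  obtain ⟨s, k⟩ := b
  cases k with
  | some k =>
    simp only [hρ.o, zero_mul]
    exact integrable_zero _ _ _
  | none =>
    have hv : Measurable fun u : ℝ => vl l u := by
      unfold vl
      fun_prop
    have hm : Measurable fun u : ℝ => g (s, none) (vl l u) := (hA.m s none).comp hv
    have h1 := (hρ.int (s, none)).bdd_mul (c := C) hm.aestronglyMeasurable
      (Filter.Eventually.of_forall fun u => hA.A s (vl l u)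
        (by
          have e : (vl l u).re = l := by simp [vl]
          rw [e]
          linarith)
        (by
          have e : (vl l u).re = l := by simp [vl]
          rw [e]
          nlinarith))
    refine h1.congr (Filter.Eventually.of_forall fun u => ?_)
    simp only []
    ring

theorem VC_two6 (ρ : Kd → ℝ → ℂ) (ε : Bool → ℂ) (g : ℂ → ℂ) (ω : CfN6 N) :
    VC6 ρ P η (qK ε fun z => 2 * g z) ω = 2 * VC6 ρ P η (qK ε g) ω := by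
  have e : qK ε (fun z => 2 * g z) = fun b z => 2 * qK ε g b z := by
    funext b z
    obtain ⟨s, k⟩ := b
    cases k with
    | none =>
      show ε s * (2 * g (hgt z)) = 2 * (ε s * g (hgt z))
      ring
    | some k =>
      show (0 : ℂ) = 2 * 0
      ring
  rw [e, VC_smul6]

/-- constants of the objects -/
def cO6 (a : ℝ) : ℝ := ∫ q, PBOb.alO6 1 q * PBOb.beO6 a q ∂PBOb.muO

theorem cO_eq6 (a C : ℝ) : ∫ q, PBOb.alO6 C q * PBOb.beO6 a q ∂PBOb.muO = C * cO6 a := by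
  unfold cO6
  rw [← integral_const_mul]
  refine integral_congr_ae (Filter.Eventually.of_forall fun q => ?_)
  simp only [PBOb.alO6]
  ring

theorem cO_nonneg6 (a : ℝ) : 0 ≤ cO6 a := integral_nonneg fun q =>
  mul_nonneg (PBOb.alO_nonneg6 zero_le_one q) (PBOb.beO_nonneg6 a q)

section gen

variable {T : Type*} [MeasurableSpace T] {σ : Measure T} [SFinite σ] {A B A' : T → ℂ → ℂ}
  {al be al' : T → ℝ} {a M : ℝ} {X : ℂ → ℂ} {xp xm : ℂ} {D : Kd → Set ℂ} {ρ : Kd → ℝ → ℂ}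
  {ρ0 : ℝ → ℂ} {gl : Kd → ℂ → ℂ}

/-- what is used of the field and of the representations -/
structure Rp6 (a M : ℝ) (σ : Measure T) (X : ℂ → ℂ) (xp xm : ℂ) (A B A' : T → ℂ → ℂ)
    (al be al' : T → ℝ) : Prop where
  mX : Measurable X
  fx : PBOb.FX6 X xp xm M
  r1 : PBE.Rep (-(l / 10)) (351 / 400 * l) a σ A B al be
  r2 : PBE.Rep (-(l / 10)) (351 / 400 * l) a σ A' B al' be
  k1 : ∀ z ∈ PBE.Sp (-(l / 10)) (351 / 400 * l), ∀ w ∈ PBE.Sp (-(l / 10)) (351 / 400 * l),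
    Ep (fun v => X (l + I * v)) xp xm z w = ∫ q, A q z * B q w ∂σ
  k2 : ∀ z ∈ PBE.Sp (-(l / 10)) (351 / 400 * l), ∀ w ∈ PBE.Sp (-(l / 10)) (351 / 400 * l),
    Em (fun v => X (l + I * v)) xp xm z w = ∫ q, A' q z * B q w ∂σ
  mE1 : Measurable fun p : ℂ × ℂ => Ep (fun v => X (l + I * v)) xp xm p.1 p.2
  mE2 : Measurable fun p : ℂ × ℂ => Em (fun v => X (l + I * v)) xp xm p.1 p.2
  mA : Measurable fun p : T × ℂ => A p.1 p.2
  mB : Measurable fun p : T × ℂ => B p.1 p.2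
  mA' : Measurable fun p : T × ℂ => A' p.1 p.2

/-- what is used of the lines and of the density -/
structure Ln6 (L : PBI.Lns) (x0 : ℝ) (N : ℕ) (D : Kd → Set ℂ) (ρ : Kd → ℝ → ℂ)
    (ρ0 : ℝ → ℂ) : Prop where
  hD : DOk6 D
  hw : ∀ n ≤ N, PBI.AllW x0 n (n + dN N) L fun c x => ∀ i, ∀ t : ℝ, vl (x i) t ∈ D (c i)
  hρ : RhoK ρ ρ0
  ch : (Fil.b false - 1) * ∫ u : ℝ, ρ0 u = dN N

theorem rp_ch36 (hT : TrN6 Z L P x0 κ κ' δ N η η') (hR : Rp6 a M σ X xp xm A B A' al be al')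
    (hL : Ln6 L x0 N D ρ ρ0) (ha0 : 0 ≤ a) (ha : a < 2) :
    Chn6 L P x0 δ N PBOb.muO D ρ (PBOb.aO X xp xm) (PBOb.A36 X xp xm) PBOb.B36
      (PBOb.alO6 (‖xp - xm‖ + M)) (PBOb.beO6 a) (fun _ z => Real.exp (-2 * |z.im|))
      (fun _ z => Real.exp (-a * |z.im|)) := by
  have hl := Bd.l_pos
  have hbd : ∀ (a : ℝ), 0 ≤ a → ∀ z : ℂ, Real.exp (-a * |z.im|) ≤ 1 := fun a ha z =>
    Real.exp_le_one_iff.2 (by nlinarith [abs_nonneg z.im])
  have hd : δ ≤ 1 / 20 := by linarith [(hT.ins 0 (Nat.zero_le _)).hS.d1]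
  exact PBOb.PLX.chnO6 (a := a) hR.mX hR.fx (hT.ins 0 (Nat.zero_le _)).hG hd hL.hD.q hL.hρ.int
    hL.hρ.o hL.hD.ln ha0 ha fun n hn => ⟨hL.hw n hn, fun _ _ _ _ _ _ => ⟨1, fun _ _ =>
      hbd 2 (by norm_num) _⟩, fun _ _ _ _ _ _ => ⟨1, fun _ _ => hbd a ha0 _⟩⟩

/-- **the total insertion**, channels without factors -/
theorem rp_total6 (hT : TrN6 Z L P x0 κ κ' δ N η η') (hR : Rp6 a M σ X xp xm A B A' al be al')
    (hL : Ln6 L x0 N D ρ ρ0) (ha0 : 0 ≤ a) (ha : a < 2) (hgl : AdS6 P x0 δ (sK gl)) :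
    Integrable (fun q => F (mN6 N) (wT6 Z P N η η' c) fun ω =>
      VC6 ρ P η (qK eP (A q)) ω * VC6 ρ P η (qK eP (B q)) ω) σ ∧
    Integrable (fun q => F (mN6 N) (wT6 Z P N η η' c) fun ω =>
      VC6 ρ P η (qK eM (A' q)) ω * VC6 ρ P η (qK eM (B q)) ω) σ ∧
    F0N6 Z L x0 N c (fun ι _ s z => nuQI ρ (PBOb.aK X) ι s z + nuI ρ gl ι s z) =
      (∫ q, (F (mN6 N) (wT6 Z P N η η' c) fun ω =>
        VC6 ρ P η (qK eP (A q)) ω * VC6 ρ P η (qK eP (B q)) ω) ∂σ) +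
      (∫ q, (F (mN6 N) (wT6 Z P N η η' c) fun ω =>
        VC6 ρ P η (qK eM (A' q)) ω * VC6 ρ P η (qK eM (B q)) ω) ∂σ) +
      (1 / 2) * (∫ q, (F (mN6 N) (wT6 Z P N η η' c) fun ω =>
        VC6 ρ P η (PBOb.A36 X xp xm q) ω * VC6 ρ P η (PBOb.B36 q) ω) ∂PBOb.muO) +
      2 * (F (mN6 N) (wT6 Z P N η η' c) fun ω =>
        VC6 ρ P η (PBI.beK xp xm (fX X) sX) ω * SN6 ρ0 P η ω) -
      (xp - xm) / 2 * (F (mN6 N) (wT6 Z P N η η' c) fun ω => SN6 ρ0 P η ω * SN6 ρ0 P η ω) +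
      F (mN6 N) (wT6 Z P N η η' c) (VC6 ρ P η gl) := by
  have hl := Bd.l_pos
  have i0' := hT.ins 0 (Nat.zero_le _)
  have hδ : δ ≤ 1 / 20 := by linarith [i0'.hS.d1]
  have hρ := hL.hρ
  have ch1 := chn_q6 (δ := δ) (N := N) (P := P) eP_le hL.hD hρ ha0 (by linarith) hR.r1
    hR.k1 (fun z w => PBV.Ec_symm _ _ _ _ _ z w) hR.mE1 hR.mA hR.mB hL.hw
  have ch2 := chn_q6 (δ := δ) (N := N) (P := P) eM_le hL.hD hρ ha0 (by linarith) hR.r2
    hR.k2 (fun z w => PBV.Ec_symm _ _ _ _ _ z w) hR.mE2 hR.mA' hR.mB hL.hw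
  have ch3 := rp_ch36 hT hR hL ha0 ha
  have adb : AdS6 P x0 δ (sK (PBI.beK xp xm (fX X) sX)) := adS_be6 i0'.hG (by linarith) hR.mX hR.fx
  have ads : AdS6 P x0 δ (sK (PBI.sgK sX)) := adS_sg6 i0'.hG (by linarith)
  have tot := F0N6_total (c := c) hT ch1 ch2 ch3
    (fun b c z w hz hw => lK_split6 hR.fx.dif _ _ hL.hD b c z w hz hw)
    (qid_aK6 hR.mX hR.fx hL.hD.q hρ.int hρ.o hL.hD.ln) hρ.int
    (by rw [chK_mean hρ]; linear_combination (-1 : ℂ) * hL.ch)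
    (int_ad6 adb hρ i0'.hS.d0) (int_ad6 ads hρ i0'.hS.d0) adb ads hgl
  have f1 : ∀ q, (F (mN6 N) (wT6 Z P N η η' c) fun ω => VC6 ρ P η (qK eP (A q)) ω *
      VC6 ρ P η (qK eP fun z => 2 * B q z) ω) = 2 * F (mN6 N) (wT6 Z P N η η' c) fun ω =>
      VC6 ρ P η (qK eP (A q)) ω * VC6 ρ P η (qK eP (B q)) ω := fun q =>
    F_two fun ω => VC_two6 ρ eP (B q) ω
  have f2 : ∀ q, (F (mN6 N) (wT6 Z P N η η' c) fun ω => VC6 ρ P η (qK eM (A' q)) ω *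
      VC6 ρ P η (qK eM fun z => 2 * B q z) ω) = 2 * F (mN6 N) (wT6 Z P N η η' c) fun ω =>
      VC6 ρ P η (qK eM (A' q)) ω * VC6 ρ P η (qK eM (B q)) ω := fun q =>
    F_two fun ω => VC_two6 ρ eM (B q) ω
  have j1 := (ch1.F0N_nuQ (c := c) hT).1
  have j2 := (ch2.F0N_nuQ (c := c) hT).1
  have e3 : (VC6 ρ P η (PBI.sgK sX) : CfN6 N → ℂ) = SN6 ρ0 P η := funext fun ω => VC_sg6 hρ ω
  simp only [f1] at j1 tot
  simp only [f2] at j2 tot
  rw [integral_const_mul, integral_const_mul, e3] at tot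
  refine ⟨?_, ?_, ?_⟩
  · refine (j1.const_mul (1 / 2)).congr (Filter.Eventually.of_forall fun q => ?_)
    simp only []
    ring
  · refine (j2.const_mul (1 / 2)).congr (Filter.Eventually.of_forall fun q => ?_)
    simp only []
    ring
  · rw [tot]
    ring

/-- what is used of the moments -/
structure Mo6 (a : ℝ) (w : CfN6 N → ℂ) (ρ0 : ℝ → ℂ) (P : Par6) (η : ℕ → Crs) (K2 dp : ℝ) : Prop where
  K0 : 0 ≤ K2
  wm : AEStronglyMeasurable w (mN6 N)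
  pin : Pins (-(l / 10)) (351 / 400 * l) a (mN6 N) w (Vp6 ρ0 η) (Vm6 ρ0 η) (SN6 ρ0 P η) (pinN6 a) dp
  one : M2 (mN6 N) w K2 (fun _ => 1) 1
  vp : ∀ M h, PBE.TC (-(l / 10)) (351 / 400 * l) a M h →
    AEStronglyMeasurable (Vp6 ρ0 η h : CfN6 N → ℂ) (mN6 N) → M2 (mN6 N) w K2 (Vp6 ρ0 η h) M
  vm : ∀ M h, PBE.TC (-(l / 10)) (351 / 400 * l) a M h →
    AEStronglyMeasurable (Vm6 ρ0 η h : CfN6 N → ℂ) (mN6 N) → M2 (mN6 N) w K2 (Vm6 ρ0 η h) M
  sm : AEStronglyMeasurable (SN6 ρ0 P η : CfN6 N → ℂ) (mN6 N)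
  s : M2 (mN6 N) w K2 (SN6 ρ0 P η) 1

/-- **the total insertion in terms of the free quanta** -/
theorem rp_bd6 {K2 dp Mu Mq : ℝ} {u qf : ℂ → ℂ} (hT : TrN6 Z L P x0 κ κ' δ N η η')
    (hR : Rp6 a M σ X xp xm A B A' al be al')
    (hL : Ln6 L x0 N D ρ ρ0) (ha0 : 0 ≤ a) (ha : a < 2) (hgl : AdS6 P x0 δ (sK gl))
    (hm : Mo6 a (wT6 Z P N η η' c) ρ0 P η K2 dp)
    (i1 : Integrable (fun q => F (mN6 N) (wT6 Z P N η η' c) fun ω =>
      Vp6 ρ0 η (A q) ω * Vp6 ρ0 η (B q) ω) σ)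
    (i2 : Integrable (fun q => F (mN6 N) (wT6 Z P N η η' c) fun ω =>
      Vm6 ρ0 η (A' q) ω * Vm6 ρ0 η (B q) ω) σ)
    (hu : Obs (-(l / 10)) (351 / 400 * l) a (mN6 N) (Vm6 ρ0 η) (pinN6 a) 40
      (VC6 ρ P η (PBI.beK xp xm (fX X) sX)) u Mu)
    (hq : Obs (-(l / 10)) (351 / 400 * l) a (mN6 N) (Vp6 ρ0 η) (pinN6 a) 40 (VC6 ρ P η gl) qf Mq) :
    ‖F0N6 Z L x0 N c (fun ι _ s z => nuQI ρ (PBOb.aK X) ι s z + nuI ρ gl ι s z) -
      ((∫ q, (F (mN6 N) (wT6 Z P N η η' c) fun ω =>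
          Vp6 ρ0 η (A q) ω * Vp6 ρ0 η (B q) ω) ∂σ) +
        ((∫ q, (F (mN6 N) (wT6 Z P N η η' c) fun ω => Vm6 ρ0 η (A' q) ω * Vm6 ρ0 η (B q) ω) ∂σ) +
          2 * (F (mN6 N) (wT6 Z P N η η' c) fun ω => Vm6 ρ0 η u ω * SN6 ρ0 P η ω) -
          (xp - xm) / 2 * (F (mN6 N) (wT6 Z P N η η' c) fun ω => SN6 ρ0 P η ω * SN6 ρ0 P η ω)) +
        F (mN6 N) (wT6 Z P N η η' c) (Vp6 ρ0 η qf))‖ ≤
      ((2 * 40 + 40 ^ 2) * ((∫ q, al q * be q ∂σ) + ∫ q, al' q * be q ∂σ) +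
        40 * (1 + 40) * ((‖xp - xm‖ + M) * cO6 a) + 2 * (40 * Mu) + 40 * Mq) * dp := by
  have hl := Bd.l_pos
  have y1 : -(l / 10) < 0 := by linarith
  have y2 : 0 < 351 / 400 * l := by linarith
  have i0' := hT.ins 0 (Nat.zero_le _)
  have hG := i0'.hG
  have hO : PBOb.PLX.ParO6 P := ⟨i0'.hL, i0'.hj⟩
  have hc : ∀ n ≤ N, MCr (η n) (η' n) := fun n hn => (hT.ins n hn).hc
  have hρ := hL.hρ
  have ch3 := rp_ch36 hT hR hL ha0 ha
  obtain ⟨j1, j2, tot⟩ := rp_total6 (c := c) hT hR hL ha0 ha hgl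
  have mA1 : ∀ q, Measurable (A q) := fun q => hR.mA.comp (measurable_const.prodMk measurable_id)
  have mA2 : ∀ q, Measurable (A' q) := fun q => hR.mA'.comp (measurable_const.prodMk measurable_id)
  have mB1 : ∀ q, Measurable (B q) := fun q => hR.mB.comp (measurable_const.prodMk measurable_id)
  have key := repI_abs (J := xp - xm) hm.wm hm.pin hm.one hm.vp hm.vm hm.sm hm.s y1 y2 hm.K0
    (by norm_num : (0 : ℝ) ≤ 40) hR.r1.int
    (fun q => obs_p6 (P := P) hG hO.j2 hc hρ ((hR.r1.tA q).nonneg y1 y2)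
      (hR.r1.tA q) (mA1 q))
    (fun q => obs_p6 (P := P) hG hO.j2 hc hρ ((hR.r1.tB q).nonneg y1 y2)
      (hR.r1.tB q) (mB1 q))
    j1 i1 hR.r2.int
    (fun q => obs_m6 (P := P) hG hO.j2 hc hρ ((hR.r2.tA q).nonneg y1 y2)
      (hR.r2.tA q) (mA2 q))
    (fun q => obs_m6 (P := P) hG hO.j2 hc hρ ((hR.r2.tB q).nonneg y1 y2)
      (hR.r2.tB q) (mB1 q))
    j2 i2 ch3.R.ab ch3.R.a0 ch3.R.b0
    (fun q => PBOb.PLX.h3O6 hR.mX hR.fx hG hO hc hρ.o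
      hρ.q ha0 ha.le q)
    hu hq
  rw [cO_eq6] at key
  rw [tot]
  exact key

end gen

/-! ### the field of a row -/

/-- the data of a row -/
theorem rp_row6 {a' : ℝ} (ha0 : 0 ≤ a') (ha : a' < 2) : ∃ C : ℝ, 0 < C ∧
    ∀ (m : ℕ) (x : Fin m → ℂ) (i0 : Fin m), Rws0 x →
      (∃ al be : Bool × ℝ → ℝ, Rp6 a' C wm (fun u => m * xiR x i0 u) (rP x i0) (rM x i0)
        (Apl6 x i0) Bch6 (Ami6 x i0) al be al ∧ ∫ q, al q * be q ∂wm ≤ C) ∧
      ‖rP x i0 - rM x i0‖ ≤ C ∧ PBE.TC (-(l / 10)) (351 / 400 * l) a' C (uF x i0) := by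
  have hl := Bd.l_pos
  obtain ⟨C1, hC1, h1⟩ := PBEI.rep_EF6 (a := (a' + 2) / 2) ha0 (by linarith) (by linarith)
  obtain ⟨C2, hC2, h2⟩ := fx_xiR6
  obtain ⟨C3, hC3, h3⟩ := PBEI.uF_TC6
  have hW : 0 < (a' + 2) / 2 - a' := by linarith
  have hW0 : 0 < C1 ^ 2 * (4 / ((a' + 2) / 2 - a')) := by positivity
  refine ⟨C1 ^ 2 * (4 / ((a' + 2) / 2 - a')) + C2 + C3, by positivity, fun m x i0 hx => ?_⟩
  obtain ⟨hX, hJ, -, -, -⟩ := h2 m x i0 hx
  obtain ⟨r1, r2, r3⟩ := h1 m x i0 hx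
  have hX' : PBOb.FX6 (fun u => m * xiR x i0 u) (rP x i0) (rM x i0)
      (C1 ^ 2 * (4 / ((a' + 2) / 2 - a')) + C2 + C3) := by
    have hle : C2 ≤ C1 ^ 2 * (4 / ((a' + 2) / 2 - a')) + C2 + C3 := by linarith
    refine ⟨hX.dif, fun u hu => (hX.der u hu).trans ?_, fun u hu h => (hX.xp' u hu h).trans ?_,
      fun u hu h => (hX.xm' u hu h).trans ?_⟩ <;>
    exact mul_le_mul_of_nonneg_right hle (Real.exp_pos _).le
  refine ⟨⟨_, _, ⟨(PBEI.xiR_measurable x i0).const_mul _, hX', r1, r2,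
    fun z hz w hw => (PBEI.Apl_eq6 x i0 hx hz hw).2, fun z hz w hw => (PBEI.Ami_eq6 x i0 hx hz hw).2,
    PBV.Ec_measurable _ _ (PBEI.rF_measurable x i0) _ _,
    PBV.Ec_measurable _ _ (PBEI.rF_measurable x i0) _ _, PBEI.Apl_measurable6 x i0,
    PBEI.Bch_measurable6, PBEI.Ami_measurable6 x i0⟩, by rw [r3]; linarith⟩, by linarith,
    (h3 m x i0 hx a' (by linarith)).mono (by linarith)⟩

/-- **The quadratic part of the first Ward identity, in terms of the free quanta.** -/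
theorem repI6 {a' : ℝ} (ha0 : 0 ≤ a') (ha : a' < 2) : ∃ K : ℝ, 0 < K ∧
    ∀ (m : ℕ) (x : Fin m → ℂ) (i0 : Fin m), Rws0 x → ∀ (Z : Stt) (L : PBI.Lns) (P : Par6)
      (x0 κ κ' δ : ℝ) (N : ℕ) (η η' : ℕ → Crs) (c : ℕ → ℂ) (D : Kd → Set ℂ) (ρ : Kd → ℝ → ℂ)
      (ρ0 : ℝ → ℂ) (gl : Kd → ℂ → ℂ) (τ Mq K2 dp : ℝ),
      TrN6 Z L P x0 κ κ' δ N η η' → Ln6 L x0 N D ρ ρ0 →
      Mo6 a' (wT6 Z P N η η' c) ρ0 P η K2 dp →
      AdS6 P x0 δ (sK fun b z => m * gl b z) →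
      Obs (-(l / 10)) (351 / 400 * l) a' (mN6 N) (Vp6 ρ0 η) (pinN6 a') 40
        (VC6 ρ P η fun b z => m * gl b z) (qF x i0 τ) Mq →
      Integrable (fun q => F (mN6 N) (wT6 Z P N η η' c) fun ω =>
        Vp6 ρ0 η (Apl6 x i0 q) ω * Vp6 ρ0 η (Bch6 q) ω) wm →
      Integrable (fun q => F (mN6 N) (wT6 Z P N η η' c) fun ω =>
        Vm6 ρ0 η (Ami6 x i0 q) ω * Vm6 ρ0 η (Bch6 q) ω) wm →
      ‖(m : ℂ) * F0N6 Z L x0 N c (fun ι _ s z =>
          nuQI ρ (PBOb.aK (xiR x i0)) ι s z + nuI ρ gl ι s z) -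
        ((∫ q, (F (mN6 N) (wT6 Z P N η η' c) fun ω =>
            Vp6 ρ0 η (Apl6 x i0 q) ω * Vp6 ρ0 η (Bch6 q) ω) ∂wm) +
          ((∫ q, (F (mN6 N) (wT6 Z P N η η' c) fun ω =>
              Vm6 ρ0 η (Ami6 x i0 q) ω * Vm6 ρ0 η (Bch6 q) ω) ∂wm) +
            2 * (F (mN6 N) (wT6 Z P N η η' c) fun ω => Vm6 ρ0 η (uF x i0) ω * SN6 ρ0 P η ω) -
            (rP x i0 - rM x i0) / 2 *
              (F (mN6 N) (wT6 Z P N η η' c) fun ω => SN6 ρ0 P η ω * SN6 ρ0 P η ω)) +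
          F (mN6 N) (wT6 Z P N η η' c) (Vp6 ρ0 η (qF x i0 τ)))‖ ≤ K * (1 + Mq) * dp := by
  have hl := Bd.l_pos
  have y1 : -(l / 10) < 0 := by linarith
  have y2 : 0 < 351 / 400 * l := by linarith
  obtain ⟨C, hC, h⟩ := rp_row6 ha0 ha
  have hcO := cO_nonneg6 a'
  refine ⟨(2 * 40 + 40 ^ 2) * (C + C) + 40 * (1 + 40) * ((C + C) * cO6 a') + 2 * (40 * (6 * C)) + 40,
    by positivity, fun m x i0 hx Z L P x0 κ κ' δ N η η' c D ρ ρ0 gl τ Mq K2 dp hT hL hm hgl hq i1 i2 => ?_⟩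
  obtain ⟨⟨al, be, hR, hab⟩, hJ, hu⟩ := h m x i0 hx
  have hMq : 0 ≤ Mq := hq.tc.nonneg y1 y2
  have hu' := obs_u6 (η := η) hT hL.hρ hR.mX hR.fx ha0 ha.le (Mu := 6 * C)
    (hu.mono (by linarith)) (by linarith)
  have key := rp_bd6 (c := c) hT hR hL ha0 ha hgl hm i1 i2 hu' hq
  rw [F0N_scale6]
  refine key.trans (mul_le_mul_of_nonneg_right ?_ hm.pin.δ0)
  have h1 : (‖rP x i0 - rM x i0‖ + C) * cO6 a' ≤ (C + C) * cO6 a' :=
    mul_le_mul_of_nonneg_right (by linarith) hcO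
  have h2 : 0 ≤ ((2 * 40 + 40 ^ 2) * (C + C) + 40 * (1 + 40) * ((C + C) * cO6 a') +
      2 * (40 * (6 * C))) * Mq := by positivity
  nlinarith

end PBRep.PLX

end
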