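import Pool.Agent.PHK.Conf6
import Pool.Agent.PHK.Cst6
import Pool.Agent.PLX.PB.StatN

/-!
# (P): the literal statistics on the configurations of all numbers of quanta

On `CfN6 N` (`Conf6`), curves `η n`, `ρ` = density of a ONE-fold row on the line `A`:

* `VO6`, `VQ6`, `VA6`: statistic of the objects (a hole carries `- D`), of the quanta on the curve, of all
  constituents; **`Vp6`, `Vm6`, `SN6`**: plus channel, minus channel, step, centred; `pinN6`: the pins;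
* `Vp6_lin`, `Vm6_lin`: `VLin`; `Vp6_mD`, `Vm6_mD`, `SN6_mD`, `SN6_sgU`: the general form; `SN6_Vm`.

`hgt`, `eP`, `eM`, `qD`, `sgD`, `mD`, `int_rho` are the landed ones (`PBF.PLX`).
-/

set_option autoImplicit false
set_option linter.unusedSectionVars false

noncomputable section

open Complex MeasureTheory Finset
open PLX (Fil)

namespace PHK

open NUO NUP1 NUP1S NUP1S.Ab NUP1S.AbC NUGC NUGC.PLX NUCR
open PBI (Stt Kd)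
open PBF.PLX (gK Ins Crs MCr MIn dN quF stQ hgt hgt_line eP eM qD sgD int_rho int_rho_lin mD mD_eq
  mD_qD mD_sgD sgU_hgt sgU_vl sgD_nn)

/-- statistic of the objects and their satellites -/
def VO6 {N : ℕ} [Fil] (D : Stt) (P : Par6) : CfN6 N → ℂ := evN6 fun _ _ O _ _ _ => stO6 D P O

/-- pinning -/
def pinN6 {N : ℕ} [Fil] (a : ℝ) : CfN6 N → ℝ := fun ω => ∑ i, Real.exp (-(a * |ht (ω.2.2.1 i)|))

variable [Fil]

variable {N : ℕ}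

/-- statistic of the quanta on the curve -/
def VQ6 (D : Stt) (η : ℕ → Crs) : CfN6 N → ℂ :=
  evN6 fun n r O a b x => stQ D (η n r O) a b x

/-- statistic of all constituents -/
def VA6 (D : Stt) (P : Par6) (η : ℕ → Crs) : CfN6 N → ℂ := evN6 fun n => stA6 D P (η n)

/-- **plus channel** -/
def Vp6 (ρ : ℝ → ℂ) (η : ℕ → Crs) (g : ℂ → ℂ) : CfN6 N → ℂ := fun ω =>
  VQ6 (qD eP g) η ω - ((Fil.b true : ℂ) + Fil.b false) * ∫ u : ℝ, ρ u * g u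

/-- **minus channel** -/
def Vm6 (ρ : ℝ → ℂ) (η : ℕ → Crs) (g : ℂ → ℂ) : CfN6 N → ℂ := fun ω =>
  VQ6 (qD eM g) η ω - ((Fil.b true : ℂ) - Fil.b false) * ∫ u : ℝ, ρ u * g u

/-- **the step** -/
def SN6 (ρ : ℝ → ℂ) (P : Par6) (η : ℕ → Crs) : CfN6 N → ℂ := fun ω =>
  VA6 sgD P η ω - ((Fil.b true : ℂ) - Fil.b false) * ∫ u : ℝ, ρ u * PB.NX.sgC u

theorem pinN6_nonneg (a : ℝ) (ω : CfN6 N) : 0 ≤ pinN6 a ω :=
  Finset.sum_nonneg fun _ _ => (Real.exp_pos _).le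

theorem VA6_eq (D : Stt) (P : Par6) (η : ℕ → Crs) (ω : CfN6 N) :
    VA6 D P η ω = VO6 D P ω + VQ6 D η ω := rfl

/-- the statistics of the quanta on the curve -/
theorem VQ6_eq (D : Stt) (η : ℕ → Crs) (ω : CfN6 N) :
    VQ6 D η ω = ∑ i, D true none (NUO.pA (Fil.cv true (η ω.1 ω.2.1.1 ω.2.2.1)) (ω.2.2.2.1 i)) +
      ∑ j, D false none (NUO.pA (Fil.cv false (η ω.1 ω.2.1.1 ω.2.2.1)) (ω.2.2.2.2 j)) := rfl

theorem Vp6_eq (ρ : ℝ → ℂ) (η : ℕ → Crs) (g : ℂ → ℂ) (ω : CfN6 N) :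
    Vp6 ρ η g ω = ∑ i, g (hgt (NUO.pA (Fil.cv true (η ω.1 ω.2.1.1 ω.2.2.1)) (ω.2.2.2.1 i))) +
      ∑ j, g (hgt (NUO.pA (Fil.cv false (η ω.1 ω.2.1.1 ω.2.2.1)) (ω.2.2.2.2 j))) -
      ((Fil.b true : ℂ) + Fil.b false) * ∫ u : ℝ, ρ u * g u := by
  unfold Vp6
  rw [VQ6_eq]
  simp only [qD, eP, one_mul]

theorem Vm6_eq (ρ : ℝ → ℂ) (η : ℕ → Crs) (g : ℂ → ℂ) (ω : CfN6 N) :
    Vm6 ρ η g ω = ∑ i, g (hgt (NUO.pA (Fil.cv true (η ω.1 ω.2.1.1 ω.2.2.1)) (ω.2.2.2.1 i))) -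
      ∑ j, g (hgt (NUO.pA (Fil.cv false (η ω.1 ω.2.1.1 ω.2.2.1)) (ω.2.2.2.2 j))) -
      ((Fil.b true : ℂ) - Fil.b false) * ∫ u : ℝ, ρ u * g u := by
  unfold Vm6
  rw [VQ6_eq]
  simp only [qD, eM, if_true, Bool.false_eq_true, if_false, one_mul, neg_mul,
    Finset.sum_neg_distrib]
  ring

theorem VQ6_qD_lin (ε : Bool → ℂ) (η : ℕ → Crs) (g h : ℂ → ℂ) (c : ℂ) (ω : CfN6 N) :
    VQ6 (qD ε fun z => c * g z + h z) η ω = c * VQ6 (qD ε g) η ω + VQ6 (qD ε h) η ω := by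
  simp only [VQ6_eq, qD]
  have e : ∀ {ι : Type} [Fintype ι] (s : Bool) (u : ι → ℂ),
      ∑ i, ε s * (c * g (u i) + h (u i)) = c * ∑ i, ε s * g (u i) + ∑ i, ε s * h (u i) := by
    intro ι _ s u
    rw [Finset.mul_sum, ← Finset.sum_add_distrib]
    exact Finset.sum_congr rfl fun i _ => by ring
  rw [e true, e false]
  ring

theorem Vp6_lin {y₁ y₂ a : ℝ} {ρ : ℝ → ℂ} (η : ℕ → Crs) (ha : 0 < a) (h1 : y₁ < 0) (h2 : 0 < y₂)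
    (hm : AEStronglyMeasurable ρ volume) {B : ℝ} (hB : ∀ u, ‖ρ u‖ ≤ B) :
    PBE.VLin y₁ y₂ a (Vp6 ρ η : (ℂ → ℂ) → CfN6 N → ℂ) := by
  intro M M' g h c ω hg hh
  unfold Vp6
  rw [VQ6_qD_lin, int_rho_lin hg hh ha h1 h2 hm hB c]
  ring

theorem Vm6_lin {y₁ y₂ a : ℝ} {ρ : ℝ → ℂ} (η : ℕ → Crs) (ha : 0 < a) (h1 : y₁ < 0) (h2 : 0 < y₂)
    (hm : AEStronglyMeasurable ρ volume) {B : ℝ} (hB : ∀ u, ‖ρ u‖ ≤ B) :
    PBE.VLin y₁ y₂ a (Vm6 ρ η : (ℂ → ℂ) → CfN6 N → ℂ) := by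
  intro M M' g h c ω hg hh
  unfold Vm6
  rw [VQ6_qD_lin, int_rho_lin hg hh ha h1 h2 hm hB c]
  ring

theorem Vp6_mD (ρ : ℝ → ℂ) (η : ℕ → Crs) (g : ℂ → ℂ) (ω : CfN6 N) :
    Vp6 ρ η g ω = VQ6 (qD eP g) η ω - mD ρ (qD eP g) := by
  unfold Vp6
  rw [mD_qD]
  simp only [eP, mul_one]

theorem Vm6_mD (ρ : ℝ → ℂ) (η : ℕ → Crs) (g : ℂ → ℂ) (ω : CfN6 N) :
    Vm6 ρ η g ω = VQ6 (qD eM g) η ω - mD ρ (qD eM g) := by
  unfold Vm6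
  rw [mD_qD]
  simp only [eM, if_true, Bool.false_eq_true, if_false]
  ring

theorem SN6_mD (ρ : ℝ → ℂ) (P : Par6) (η : ℕ → Crs) (ω : CfN6 N) :
    SN6 ρ P η ω = VA6 sgD P η ω - mD ρ sgD := by
  unfold SN6
  rw [mD_sgD]

theorem SN6_sgU (ρ : ℝ → ℂ) (P : Par6) (η : ℕ → Crs) (ω : CfN6 N) :
    SN6 ρ P η ω = VA6 sgD P η ω -
      ((Fil.b true : ℂ) - Fil.b false) * ∫ u : ℝ, ρ u * PBOb.sgU (vl NUP1.l u) := by
  unfold SN6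
  simp only [sgU_vl]

/-- the statistics of the step of the quanta -/
theorem VQ6_sgD (η : ℕ → Crs) (ω : CfN6 N) : VQ6 sgD η ω = VQ6 (qD eM PB.NX.sgC) η ω := by
  simp only [VQ6_eq, sgD_nn, qD]

/-- **the step is the minus channel of `sgC` and the statistic of the objects** -/
theorem SN6_Vm (ρ : ℝ → ℂ) (P : Par6) (η : ℕ → Crs) (ω : CfN6 N) :
    SN6 ρ P η ω = Vm6 ρ η PB.NX.sgC ω + VO6 sgD P ω := by
  unfold SN6 Vm6
  rw [VA6_eq, VQ6_sgD]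
  ring

end PHK

end
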