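import Pool.Agent.PHK.RepM6
import Pool.Agent.PHK.StatN6
import Pool.Agent.PHK.EInst6
import Pool.Agent.PLX.PB.RepJ

/-!
# (P), I1: the values of the product representations are integrable

The landed file with the configurations `CfN6 N`, the measure `mN6 N` and the statistics `Vp6`, `Vm6`;
`meas_hgt`, `meas_qD`, `meas_mean`, `sup_prod`, `sup_int` are the landed ones.

* `meas_VQ_s6`, `meas_Vp_s6`, `meas_Vm_s6`; `jVp6`, `jVm6`, `mVp6`, `mVm6`;
* `i2_Vp6`, `i2_Vm6`: any product representation; **`i26`, `i2'6`**: the two channels.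
-/

set_option autoImplicit false
set_option linter.unusedSectionVars false

noncomputable section

open Complex MeasureTheory Finset Filter
open scoped ENNReal

open PLX (Fil)

namespace PBRep.PLX

open PBFunc PBFunc.PLX PBE PBE.PLX PBF PBF.PLX NUGC NUGC.PLX PHK
open NUO (Xo)

variable [Fil] {T : Type*} [MeasurableSpace T] {N : ℕ} {η η' : ℕ → Crs}

/-! ### joint measurability -/

theorem meas_VQ_s6 {A : T → ℂ → ℂ} (hA : Measurable fun p : T × ℂ => A p.1 p.2) (ε : Bool → ℂ)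
    (hc : ∀ n ≤ N, MCr (η n) (η' n)) :
    Measurable fun p : T × CfN6 N => VQ6 (qD ε (A p.1)) η p.2 :=
  evN_stQ_s6 (D := fun t => qD ε (A t)) (fun s k => meas_qD hA ε s k) hc

theorem meas_Vp_s6 {A : T → ℂ → ℂ} (hA : Measurable fun p : T × ℂ => A p.1 p.2) {ρ : ℝ → ℂ}
    (hρ : AEStronglyMeasurable ρ volume) (hc : ∀ n ≤ N, MCr (η n) (η' n)) :
    Measurable fun p : T × CfN6 N => Vp6 ρ η (A p.1) p.2 := by
  unfold Vp6
  exact (meas_VQ_s6 hA eP hc).sub (((meas_mean hA hρ).comp measurable_fst).const_mul _)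

theorem meas_Vm_s6 {A : T → ℂ → ℂ} (hA : Measurable fun p : T × ℂ => A p.1 p.2) {ρ : ℝ → ℂ}
    (hρ : AEStronglyMeasurable ρ volume) (hc : ∀ n ≤ N, MCr (η n) (η' n)) :
    Measurable fun p : T × CfN6 N => Vm6 ρ η (A p.1) p.2 := by
  unfold Vm6
  exact (meas_VQ_s6 hA eM hc).sub (((meas_mean hA hρ).comp measurable_fst).const_mul _)

variable {σ : Measure T}

/-- joint measurability on `CfN6 N × T`, plus channel -/
theorem jVp6 {A : T → ℂ → ℂ} (hA : Measurable fun p : T × ℂ => A p.1 p.2) {ρ : ℝ → ℂ}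
    (hρ : AEStronglyMeasurable ρ volume) (hc : ∀ n ≤ N, MCr (η n) (η' n)) :
    AEStronglyMeasurable (fun p : CfN6 N × T => Vp6 ρ η (A p.2) p.1) ((mN6 N).prod σ) := by
  have h := (meas_Vp_s6 (N := N) hA hρ hc).comp (measurable_swap (α := CfN6 N) (β := T))
  exact ((congrArg Measurable (funext fun p => rfl)).mpr h).aestronglyMeasurable

/-- joint measurability on `CfN6 N × T`, minus channel -/
theorem jVm6 {A : T → ℂ → ℂ} (hA : Measurable fun p : T × ℂ => A p.1 p.2) {ρ : ℝ → ℂ}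
    (hρ : AEStronglyMeasurable ρ volume) (hc : ∀ n ≤ N, MCr (η n) (η' n)) :
    AEStronglyMeasurable (fun p : CfN6 N × T => Vm6 ρ η (A p.2) p.1) ((mN6 N).prod σ) := by
  have h := (meas_Vm_s6 (N := N) hA hρ hc).comp (measurable_swap (α := CfN6 N) (β := T))
  exact ((congrArg Measurable (funext fun p => rfl)).mpr h).aestronglyMeasurable

theorem mVp6 {A : T → ℂ → ℂ} (hA : Measurable fun p : T × ℂ => A p.1 p.2) {ρ : ℝ → ℂ}
    (hρ : AEStronglyMeasurable ρ volume) (hc : ∀ n ≤ N, MCr (η n) (η' n)) (t : T) :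
    Measurable (Vp6 ρ η (A t) : CfN6 N → ℂ) := by
  have h := meas_Vp_s6 (N := N) hA hρ hc
  have h1 : Measurable fun ω : CfN6 N => ((t, ω) : T × CfN6 N) :=
    measurable_const.prodMk measurable_id
  refine (congrArg Measurable (funext fun ω => ?_)).mpr (h.comp h1)
  rfl

theorem mVm6 {A : T → ℂ → ℂ} (hA : Measurable fun p : T × ℂ => A p.1 p.2) {ρ : ℝ → ℂ}
    (hρ : AEStronglyMeasurable ρ volume) (hc : ∀ n ≤ N, MCr (η n) (η' n)) (t : T) :
    Measurable (Vm6 ρ η (A t) : CfN6 N → ℂ) := by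
  have h := meas_Vm_s6 (N := N) hA hρ hc
  have h1 : Measurable fun ω : CfN6 N => ((t, ω) : T × CfN6 N) :=
    measurable_const.prodMk measurable_id
  refine (congrArg Measurable (funext fun ω => ?_)).mpr (h.comp h1)
  rfl

section inst

variable {y₁ y₂ a K : ℝ} {w : CfN6 N → ℂ} {A B : T → ℂ → ℂ} {al be : T → ℝ}

/-- plus channel, any product representation -/
theorem i2_Vp6 [SFinite σ] (hR : Rep y₁ y₂ a σ A B al be) (hy1 : y₁ < 0) (hy2 : 0 < y₂)
    (hA : Measurable fun p : T × ℂ => A p.1 p.2) (hB : Measurable fun p : T × ℂ => B p.1 p.2)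
    {ρ : ℝ → ℂ} (hρ : AEStronglyMeasurable ρ volume) (hc : ∀ n ≤ N, MCr (η n) (η' n))
    (hw : AEStronglyMeasurable w (mN6 N)) (hK : 0 ≤ K)
    (v2 : ∀ M h, TC y₁ y₂ a M h → AEStronglyMeasurable (Vp6 ρ η h) (mN6 N) →
      M2 (mN6 N) w K (Vp6 ρ η h) M) :
    Integrable (fun q => F (mN6 N) w fun ω => Vp6 ρ η (A q) ω * Vp6 ρ η (B q) ω) σ :=
  sup_int (V := Vp6 ρ η) hR hy1 hy2 hw hK (fun q => (mVp6 hA hρ hc q).aestronglyMeasurable)
    (fun q => (mVp6 hB hρ hc q).aestronglyMeasurable) v2 (jVp6 hA hρ hc) (jVp6 hB hρ hc)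

/-- minus channel, any product representation -/
theorem i2_Vm6 [SFinite σ] (hR : Rep y₁ y₂ a σ A B al be) (hy1 : y₁ < 0) (hy2 : 0 < y₂)
    (hA : Measurable fun p : T × ℂ => A p.1 p.2) (hB : Measurable fun p : T × ℂ => B p.1 p.2)
    {ρ : ℝ → ℂ} (hρ : AEStronglyMeasurable ρ volume) (hc : ∀ n ≤ N, MCr (η n) (η' n))
    (hw : AEStronglyMeasurable w (mN6 N)) (hK : 0 ≤ K)
    (v2 : ∀ M h, TC y₁ y₂ a M h → AEStronglyMeasurable (Vm6 ρ η h) (mN6 N) →
      M2 (mN6 N) w K (Vm6 ρ η h) M) :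
    Integrable (fun q => F (mN6 N) w fun ω => Vm6 ρ η (A q) ω * Vm6 ρ η (B q) ω) σ :=
  sup_int (V := Vm6 ρ η) hR hy1 hy2 hw hK (fun q => (mVm6 hA hρ hc q).aestronglyMeasurable)
    (fun q => (mVm6 hB hρ hc q).aestronglyMeasurable) v2 (jVm6 hA hρ hc) (jVm6 hB hρ hc)

end inst

/-! ### the two channels -/

section chan

open PBEI (Apl6 Ami6 Bch6 Apl_measurable6 Ami_measurable6 Bch_measurable6)
open PBV (wm)

variable {m : ℕ} (x : Fin m → ℂ) (i0 : Fin m) {y₁ y₂ a K : ℝ} {w : CfN6 N → ℂ}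
  {al be : Bool × ℝ → ℝ}

/-- **plus channel** -/
theorem i26 (hR : Rep y₁ y₂ a wm (Apl6 x i0) Bch6 al be) (hy1 : y₁ < 0) (hy2 : 0 < y₂)
    {ρ : ℝ → ℂ} (hρ : AEStronglyMeasurable ρ volume) (hc : ∀ n ≤ N, MCr (η n) (η' n))
    (hw : AEStronglyMeasurable w (mN6 N)) (hK : 0 ≤ K)
    (v2 : ∀ M h, TC y₁ y₂ a M h → AEStronglyMeasurable (Vp6 ρ η h) (mN6 N) →
      M2 (mN6 N) w K (Vp6 ρ η h) M) :
    Integrable (fun q => F (mN6 N) w fun ω => Vp6 ρ η (Apl6 x i0 q) ω * Vp6 ρ η (Bch6 q) ω) wm :=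
  i2_Vp6 hR hy1 hy2 (Apl_measurable6 x i0) Bch_measurable6 hρ hc hw hK v2

/-- **minus channel** -/
theorem i2'6 (hR : Rep y₁ y₂ a wm (Ami6 x i0) Bch6 al be) (hy1 : y₁ < 0) (hy2 : 0 < y₂)
    {ρ : ℝ → ℂ} (hρ : AEStronglyMeasurable ρ volume) (hc : ∀ n ≤ N, MCr (η n) (η' n))
    (hw : AEStronglyMeasurable w (mN6 N)) (hK : 0 ≤ K)
    (v2 : ∀ M h, TC y₁ y₂ a M h → AEStronglyMeasurable (Vm6 ρ η h) (mN6 N) →
      M2 (mN6 N) w K (Vm6 ρ η h) M) :
    Integrable (fun q => F (mN6 N) w fun ω => Vm6 ρ η (Ami6 x i0 q) ω * Vm6 ρ η (Bch6 q) ω) wm :=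
  i2_Vm6 hR hy1 hy2 (Ami_measurable6 x i0) Bch_measurable6 hρ hc hw hK v2

/-- joint measurability of the statistics of the first factors, plus channel -/
theorem jApl6 {ρ : ℝ → ℂ} (hρ : AEStronglyMeasurable ρ volume) (hc : ∀ n ≤ N, MCr (η n) (η' n)) :
    AEStronglyMeasurable (fun p : CfN6 N × (Bool × ℝ) => Vp6 ρ η (Apl6 x i0 p.2) p.1)
      ((mN6 N).prod wm) := jVp6 (Apl_measurable6 x i0) hρ hc

/-- joint measurability of the statistics of the second factors, plus channel -/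
theorem jBpl6 {ρ : ℝ → ℂ} (hρ : AEStronglyMeasurable ρ volume) (hc : ∀ n ≤ N, MCr (η n) (η' n)) :
    AEStronglyMeasurable (fun p : CfN6 N × (Bool × ℝ) => Vp6 ρ η (Bch6 p.2) p.1)
      ((mN6 N).prod wm) := jVp6 Bch_measurable6 hρ hc

/-- joint measurability of the statistics of the first factors, minus channel -/
theorem jAmi6 {ρ : ℝ → ℂ} (hρ : AEStronglyMeasurable ρ volume) (hc : ∀ n ≤ N, MCr (η n) (η' n)) :
    AEStronglyMeasurable (fun p : CfN6 N × (Bool × ℝ) => Vm6 ρ η (Ami6 x i0 p.2) p.1)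
      ((mN6 N).prod wm) := jVm6 (Ami_measurable6 x i0) hρ hc

/-- joint measurability of the statistics of the second factors, minus channel -/
theorem jBmi6 {ρ : ℝ → ℂ} (hρ : AEStronglyMeasurable ρ volume) (hc : ∀ n ≤ N, MCr (η n) (η' n)) :
    AEStronglyMeasurable (fun p : CfN6 N × (Bool × ℝ) => Vm6 ρ η (Bch6 p.2) p.1)
      ((mN6 N).prod wm) := jVm6 Bch_measurable6 hρ hc

end chan

end PBRep.PLX

end
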