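import Pool.Agent.PHK.ChnO26
import Pool.Agent.PHK.EInst6
import Pool.Agent.PHK.DecZ6
import Pool.Agent.PHK.GasPot
import Pool.Agent.PLX.PB.RepL

/-!
# (P): the linear insertion of the first Ward identity

`gl x i0 p b z = xiK x i0 b z * lamK p b z` (field times leg force, all kinds), `gH`, `gH_eq`: landed.

* `exists_lam6`, **`exists_gl6`**: all values `≤ C / m` (quanta down to `l / 10`, strings to `- 37/25 l`);
* **`adS_gl6`**: `gl` is an admissible statistic; **`VC_gl6`**: `VC6 (rhK x) P η gl = Vp6 ρ η gH + VO6 gl P`;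
* `Vp_gH6`, **`obs_gl6`**, **`exists_gl_dec6`**.
-/

set_option autoImplicit false
set_option linter.unusedSectionVars false

noncomputable section

open Complex MeasureTheory Finset

open PLX (Fil)

namespace PBRep.PLX

open NUP1 hiding Kd
open NUO NUP1S NUGC NUGC.PLX PHK
open PBI (Stt Kd mnI)
open PBForce (Rws0 xiR rhoR kO)
open PBQ1 (xiK lamK lamL rhK fp hr fSd)
open PBF.PLX (MCr hgt hgt_line hgt_im dN eP qD)

variable [Fil] {m : ℕ}

/-- the bound of the leg force where it is used -/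
theorem exists_lam6 : ∃ C : ℝ, 0 < C ∧ ∀ p u : ℂ, |p.re| ≤ NUP1.l / 2 →
    -(249 / 100 * NUP1.l) ≤ u.re → u.re ≤ 21 / 20 * NUP1.l → ‖lamL p u‖ ≤ C := by
  have hl := Bd.l_pos
  have hlM : NUMF.l = NUP1.l := rfl
  obtain ⟨C, hC, h⟩ := PBQ1.fSd_bound (a := 9 / 20 * NUP1.l) (b := 499 / 100 * NUP1.l)
    (by positivity) (by rw [hlM]; linarith)
  refine ⟨C + 1, by linarith, fun p u hp h1 h2 => ?_⟩
  obtain ⟨h3, h4⟩ := abs_le.1 hp
  unfold PBQ1.lamL
  rw [norm_mul, norm_I, one_mul, hlM]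
  have e : (p + 2 * NUP1.l - u).re = p.re + 2 * NUP1.l - u.re := by simp
  refine (h _ ?_ ?_).trans (by linarith)
  · rw [e]; linarith
  · rw [e]; linarith

/-- **all values of the linear insertion are `≤ C / m`** -/
theorem exists_gl6 : ∃ C : ℝ, 0 < C ∧ ∀ (m : ℕ) (x : Fin m → ℂ) (i0 : Fin m) (p : ℂ), Rws0 x →
    |p.re| ≤ NUP1.l / 2 →
    (∀ s (u : ℂ), 1 / 10 * NUP1.l ≤ u.re → u.re ≤ 21 / 20 * NUP1.l →
      ‖gl x i0 p (s, none) u‖ ≤ C / m) ∧
    (∀ s (k : O3) (u : ℂ), -(17 / 10 * NUP1.l) ≤ u.re → u.re ≤ -(3 / 10 * NUP1.l) →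
      (k ≠ .L → -(149 / 100 * NUP1.l) ≤ u.re) → ‖gl x i0 p (s, some k) u‖ ≤ C / m) := by
  have hl := Bd.l_pos
  have hlM : NUMF.l = NUP1.l := rfl
  obtain ⟨C1, hC1, h1⟩ := PBForce.xiR_le (b := 9 / 10 * NUP1.l) (by positivity) (by
    show 9 / 10 * NUP1.l < NUP1.l
    linarith)
  obtain ⟨C2, hC2, h2⟩ := exists_lam6
  refine ⟨C1 * (2 * C2), by positivity, fun m x i0 p hx hp => ⟨fun s u a b => ?_,
    fun s k u a b c => ?_⟩⟩
  · have hm : (0 : ℝ) < m := by exact_mod_cast i0.pos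
    show ‖xiR x i0 u * lamL p u‖ ≤ _
    rw [norm_mul]
    have k1 := h1 m x i0 hx u (by
      have e : (u - NUP1.l : ℂ).re = u.re - NUP1.l := by
        rw [sub_re, ofReal_re]
      rw [e, abs_le]
      constructor <;> linarith)
    have k2 := h2 p u hp (by linarith) b
    calc ‖xiR x i0 u‖ * ‖lamL p u‖ ≤ C1 / m * C2 :=
          mul_le_mul k1 k2 (norm_nonneg _) (by positivity)
      _ ≤ C1 / m * (2 * C2) := mul_le_mul_of_nonneg_left (by linarith) (by positivity)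
      _ = _ := by ring
  · have hm : (0 : ℝ) < m := by exact_mod_cast i0.pos
    have k1 := h1 m x i0 hx (u + 2 * NUP1.l) (by
      have e : (u + 2 * NUP1.l - NUP1.l : ℂ).re = u.re + NUP1.l := by
        simp
        ring
      rw [e, abs_le]
      constructor <;> linarith)
    have hl1 : ‖lamL p u‖ ≤ C2 := h2 p u hp (by linarith) (by linarith)
    have key : ‖lamK p (s, some k) u‖ ≤ 2 * C2 := by
      have hS : k ≠ .L → ‖lamL p u + lamL p (u - NUP1.l)‖ ≤ 2 * C2 := by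
        intro hk
        have e : (u - NUP1.l : ℂ).re = u.re - NUP1.l := by rw [sub_re, ofReal_re]
        have k3 := h2 p (u - NUP1.l) hp (by rw [e]; linarith [c hk]) (by rw [e]; linarith)
        refine (norm_add_le _ _).trans ?_
        linarith
      cases k
      · show ‖lamL p u‖ ≤ _
        linarith
      · exact hS (by decide)
      · exact hS (by decide)
    show ‖xiR x i0 (u + 2 * NUP1.l) * lamK p (s, some k) u‖ ≤ _
    rw [norm_mul]
    calc ‖xiR x i0 (u + 2 * NUP1.l)‖ * ‖lamK p (s, some k) u‖ ≤ C1 / m * (2 * C2) :=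
          mul_le_mul k1 key (norm_nonneg _) (by positivity)
      _ = _ := by ring

/-- the leg force is analytic where it is used -/
theorem lamL_diff6 {p u : ℂ} (hp : |p.re| ≤ NUP1.l / 2) (h1 : -(249 / 100 * NUP1.l) ≤ u.re)
    (h2 : u.re ≤ 21 / 20 * NUP1.l) : DifferentiableAt ℂ (lamL p) u := by
  have hl := Bd.l_pos
  have e : (p + 2 * NUP1.l - u).re = p.re + 2 * NUP1.l - u.re := by simp
  obtain ⟨h5, h6⟩ := abs_le.1 hp
  have hpi : Real.pi = 8 * NUP1.l := PBQ1.pi8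
  have n1 : Complex.sin (p + 2 * NUP1.l - u) ≠ 0 :=
    PBQ1.sin_ne_of_re (by rw [e]; linarith) (by rw [e, hpi]; linarith)
  have n2 : Complex.sin (p + 2 * NUP1.l - u + 3 * NUP1.l) ≠ 0 := by
    have e2 : (p + 2 * NUP1.l - u + 3 * NUP1.l).re = p.re + 2 * NUP1.l - u.re + 3 * NUP1.l := by
      simp
    exact PBQ1.sin_ne_of_re (by rw [e2]; linarith) (by rw [e2, hpi]; linarith)
  unfold PBQ1.lamL PBQ1.fSd PBQ1.ct
  refine DifferentiableAt.const_mul (DifferentiableAt.sub ?_ ?_) I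
  · exact DifferentiableAt.div (by fun_prop) (by fun_prop) n1
  · exact DifferentiableAt.div (by fun_prop) (by fun_prop) n2

/-- the linear insertion is analytic -/
theorem gl_diff6 {x : Fin m → ℂ} (hx : Rws0 x) (i0 : Fin m) {p : ℂ} (hp : |p.re| ≤ NUP1.l / 2)
    (s : Bool) : (∀ u : ℂ, 1 / 10 * NUP1.l ≤ u.re → u.re ≤ 21 / 20 * NUP1.l →
      DifferentiableAt ℂ (gl x i0 p (s, none)) u) ∧
    ∀ (k : O3) (u : ℂ), -(149 / 100 * NUP1.l) ≤ u.re → u.re ≤ -(3 / 10 * NUP1.l) →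
      DifferentiableAt ℂ (gl x i0 p (s, some k)) u := by
  have hl := Bd.l_pos
  refine ⟨fun u h1 h3 => ?_, fun k u h1 h3 => ?_⟩
  · have d1 : DifferentiableAt ℂ (xiR x i0) u := PBForce.xiR_diff0 hx i0 (by
      have e : (u - NUP1.l : ℂ).re = u.re - NUP1.l := by
        rw [sub_re, ofReal_re]
      rw [e, abs_lt]
      constructor <;> linarith)
    exact d1.mul (lamL_diff6 hp (by linarith) h3)
  · have d1 : DifferentiableAt ℂ (xiR x i0) (u + 2 * NUP1.l) := PBForce.xiR_diff0 hx i0 (by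
      have e : (u + 2 * NUP1.l - NUP1.l : ℂ).re = u.re + NUP1.l := by
        simp
        ring
      rw [e, abs_lt]
      constructor <;> linarith)
    have d2 : DifferentiableAt ℂ (fun u : ℂ => xiR x i0 (u + 2 * NUP1.l)) u :=
      d1.comp u (differentiableAt_id.add_const _)
    have d3 : DifferentiableAt ℂ (lamL p) u := lamL_diff6 hp (by linarith) (by linarith)
    have d4 : DifferentiableAt ℂ (fun u : ℂ => lamL p (u - NUP1.l)) u := by
      have h4 : DifferentiableAt ℂ (lamL p) (u - NUP1.l) := by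
        have e : (u - NUP1.l : ℂ).re = u.re - NUP1.l := by rw [sub_re, ofReal_re]
        exact lamL_diff6 hp (by rw [e]; linarith) (by rw [e]; linarith)
      exact DifferentiableAt.comp (g := lamL p) (f := fun u : ℂ => u - NUP1.l) u h4
        (differentiableAt_id.sub_const _)
    cases k
    · exact d2.mul d3
    · exact d2.mul (d3.add d4)
    · exact d2.mul (d3.add d4)

/-- **the linear insertion is an admissible statistic** -/
theorem adS_gl6 {P : Par6} (hG : GoodP6 P) {x0 δ : ℝ} (hδ : δ ≤ 1 / 20) {x : Fin m → ℂ}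
    (hx : Rws0 x) (i0 : Fin m) {p : ℂ} (hp : |p.re| ≤ NUP1.l / 2) :
    AdS6 P x0 δ (sK (gl x i0 p)) := by
  have hl := Bd.l_pos
  obtain ⟨C, hC, h⟩ := exists_gl6
  obtain ⟨h1, h2⟩ := h m x i0 p hx hp
  have hL := hG.L2
  have hLj := hG.Lj
  have he := hG.e45
  have he3 := hG.e13
  have hj := hG.j1e
  have box : ∀ (o : O3) (u : ℂ), u.re ∈ Set.Icc (loB P (some o)) (hiB P (some o)) →
      -(149 / 100 * NUP1.l) ≤ u.re ∧ u.re ≤ -(3 / 10 * NUP1.l) := by
    rintro o u ⟨a, b⟩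
    cases o <;> simp only [loB, hiB] at a b <;> constructor <;> nlinarith
  refine ⟨C / m, fun s k => gl_meas x i0 p (s, k), fun s u a b => ?_, fun s u a b => ?_,
    fun s o u a => ?_, fun s o u a => ?_⟩
  · exact (gl_diff6 hx i0 hp s).1 u (by linarith) (by nlinarith)
  · exact h1 s u (by linarith) (by nlinarith)
  · obtain ⟨b, c⟩ := box o u a
    exact (gl_diff6 hx i0 hp s).2 o u b c
  · obtain ⟨b, c⟩ := box o u a
    exact h2 s o u (by linarith) c fun _ => b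

/-- **the split of the linear insertion** -/
theorem VC_gl6 {N : ℕ} {ρ : Kd → ℝ → ℂ} {ρ0 : ℝ → ℂ} (h : RhoK ρ ρ0) (P : Par6) (η : ℕ → PBF.PLX.Crs)
    (x : Fin m → ℂ) (i0 : Fin m) (p : ℂ) (ω : CfN6 N) : VC6 ρ P η (gl x i0 p) ω =
      Vp6 ρ0 η (gH x i0 p) ω + VO6 (sK (gl x i0 p)) P ω := by
  unfold VC6
  rw [VA6_eq, mnI_gl h]
  have e1 : VQ6 (sK (gl x i0 p)) η ω = VQ6 (qD eP (gH x i0 p)) η ω := by
    rw [VQ6_eq, VQ6_eq]
    simp only [sK, gl_none, qD, eP, one_mul]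
  rw [e1]
  unfold Vp6
  rw [Fil.b_true, ofReal_one]
  ring

/-- the statistic of the quanta, leg at `i τ` -/
theorem Vp_gH6 {N : ℕ} {ρ0 : ℝ → ℂ} {δ : ℝ} (hδ : δ ≤ 1 / 20) {η η' : ℕ → PBF.PLX.Crs}
    (hη : ∀ n ≤ N, ∀ r O, CrvR6 δ (η n r O) (η' n r O)) (x : Fin m → ℂ) (i0 : Fin m)
    (τ : ℝ) (ω : CfN6 N) :
    (m : ℂ) * Vp6 ρ0 η (gH x i0 (I * τ)) ω = Vp6 ρ0 η (PBEI.qF x i0 τ) ω := by
  have hl := Bd.l_pos
  have hm : (m : ℂ) ≠ 0 := by exact_mod_cast i0.pos.ne'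
  have e0 : ∀ h : ℂ, |h.im| < NUP1.l → (m : ℂ) * gH x i0 (I * τ) h = PBEI.qF x i0 τ h := by
    intro h hh
    rw [gH_eq x i0 τ hh]
    unfold PBEI.qF
    rw [← mul_assoc, mul_inv_cancel₀ hm, one_mul]
  have hc := hη ω.1 (Nat.lt_succ_iff.1 ω.1.2) ω.2.1.1 ω.2.2.1
  have hh : ∀ s t, |(hgt (NUO.pA (Fil.cv s (η ω.1 ω.2.1.1 ω.2.2.1)) t)).im| < NUP1.l := by
    intro s t
    have e : (hgt (NUO.pA (Fil.cv s (η ω.1 ω.2.1.1 ω.2.2.1)) t)).im =
        Fil.cv s (η ω.1 ω.2.1.1 ω.2.2.1) t := by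
      rw [hgt_im]
      unfold NUO.pA
      rw [vl_re59]
      ring
    rw [e]
    have h1 := (hc.cv s).h1 t
    nlinarith
  rw [Vp6_eq, Vp6_eq, mul_sub, mul_add, Finset.mul_sum, Finset.mul_sum]
  have e1 : (m : ℂ) * (((Fil.b true : ℂ) + Fil.b false) * ∫ u : ℝ, ρ0 u * gH x i0 (I * τ) u) =
      ((Fil.b true : ℂ) + Fil.b false) * ∫ u : ℝ, ρ0 u * PBEI.qF x i0 τ u := by
    rw [mul_left_comm, ← integral_const_mul]
    congr 1
    refine integral_congr_ae (Filter.Eventually.of_forall fun u => ?_)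
    simp only []
    rw [← e0 u (by rw [ofReal_im, abs_zero]; exact hl)]
    ring
  rw [e1]
  congr 2
  · exact Finset.sum_congr rfl fun i _ => e0 _ (hh _ _)
  · exact Finset.sum_congr rfl fun i _ => e0 _ (hh _ _)

/-- **the linear insertion is the statistic of `qF` plus a pinned observable** -/
theorem obs_gl6 {N : ℕ} {P : Par6} {δ a Mq : ℝ} {η η' : ℕ → PBF.PLX.Crs} {ρ : Kd → ℝ → ℂ}
    {ρ0 : ℝ → ℂ} (hG : GoodP6 P) (hP : PBOb.PLX.ParO6 P)
    (hc : ∀ n ≤ N, MCr (η n) (η' n)) (hδ : δ ≤ 1 / 20)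
    (hη : ∀ n ≤ N, ∀ r O, CrvR6 δ (η n r O) (η' n r O)) (hρ : RhoK ρ ρ0)
    (x : Fin m → ℂ) (i0 : Fin m) (τ : ℝ) (ha0 : 0 ≤ a) (ha : a ≤ 2) (hM : 0 ≤ Mq)
    (tc : PBE.TC PBEI.y1 PBEI.y26 a Mq (PBEI.qF x i0 τ))
    (hb : ∀ b, ∀ z ∈ PBOb.DQ6 b, ‖(m : ℂ) * gl x i0 (I * τ) b z‖ ≤ Mq * Real.exp (-a * |z.im|)) :
    Obs PBEI.y1 PBEI.y26 a (mN6 N) (Vp6 ρ0 η) (pinN6 a) 40
      (fun ω => (m : ℂ) * VC6 ρ P η (gl x i0 (I * τ)) ω) (PBEI.qF x i0 τ) Mq where
  tc := tc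
  m := (PBOb.PLX.meas_Vp6 hc (qF_meas x i0 τ)).aestronglyMeasurable
  O := by
    have key := PBOb.PLX.pinO_VO6 (N := N) hG hP (g := fun b z => (m : ℂ) * gl x i0 (I * τ) b z)
      (fun b => (gl_meas x i0 (I * τ) b).const_mul _) hM ha0 ha hb
    have e : (fun ω : CfN6 N => (m : ℂ) * VC6 ρ P η (gl x i0 (I * τ)) ω -
        Vp6 ρ0 η (PBEI.qF x i0 τ) ω) =
        VO6 (sK fun b z => (m : ℂ) * gl x i0 (I * τ) b z) P := by
      funext ω
      rw [VC_gl6 hρ, mul_add, Vp_gH6 hδ hη]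
      have e2 : (VO6 (sK fun b z => (m : ℂ) * gl x i0 (I * τ) b z) P ω : ℂ) =
          (m : ℂ) * VO6 (sK (gl x i0 (I * τ))) P ω := by
        exact stO6_smul _ (sK (gl x i0 (I * τ))) P ω.2.2.1
      rw [e2]
      ring
    rw [e]
    exact key

/-- **the constants**: one constant for all numbers of rows, from the decay of the leg force -/
theorem exists_gl_dec6 {C2 : ℝ} (hC2 : 0 ≤ C2)
    (hL : ∀ z : ℂ, z.re = 0 → |z.im| ≤ 1 → ∀ (b : Kd), ∀ u ∈ PBOb.DQ6 b,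
      ‖lamK z b u‖ ≤ C2 * Real.exp (-2 * |u.im|)) :
    ∃ C : ℝ, 0 < C ∧ ∀ (m : ℕ) (x : Fin m → ℂ) (i0 : Fin m), Rws0 x → ∀ τ : ℝ, |τ| ≤ 1 →
      ∀ a : ℝ, 0 ≤ a → a ≤ 2 →
      PBE.TC PBEI.y1 PBEI.y26 a C (PBEI.qF x i0 τ) ∧
      ∀ b, ∀ z ∈ PBOb.DQ6 b, ‖(m : ℂ) * gl x i0 (I * τ) b z‖ ≤ C * Real.exp (-a * |z.im|) := by
  have hl := Bd.l_pos
  obtain ⟨C1, hC1, h1⟩ := PBForce.xiR_le (b := 9 / 10 * NUP1.l) (by positivity) (by
    show 9 / 10 * NUP1.l < NUP1.l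
    linarith)
  obtain ⟨C3, hC3, h3⟩ := PBEI.qF_TC6
  refine ⟨C3 * Real.exp 2 + C1 * C2 + 1, by positivity, fun m x i0 hx τ hτ a ha0 ha =>
    ⟨⟨(h3 m x i0 hx a ha0 ha τ).an, fun z hz => ?_⟩, fun b u hu => ?_⟩⟩
  · refine ((h3 m x i0 hx a ha0 ha τ).bd z hz).trans ?_
    refine mul_le_mul_of_nonneg_right ?_ (Real.exp_pos _).le
    have h4 : Real.exp (a * |τ|) ≤ Real.exp 2 := by
      refine Real.exp_le_exp.2 ?_
      have := mul_le_mul ha hτ (abs_nonneg τ) (by norm_num : (0 : ℝ) ≤ 2)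
      linarith
    have h5 := mul_le_mul_of_nonneg_left h4 hC3.le
    have h6 : 0 ≤ C1 * C2 := by positivity
    linarith
  · have hm : (0 : ℝ) < m := by exact_mod_cast i0.pos
    have k1 : ‖xiK x i0 b u‖ ≤ C1 / m := by
      refine h1 m x i0 hx _ ?_
      obtain ⟨s, k⟩ := b
      obtain ⟨h4, h5⟩ := hu
      rcases k with _ | k
      · show |(u - NUP1.l : ℂ).re| ≤ _
        rw [sub_re, ofReal_re]
        simp only [PBOb.lo6, PBOb.hi6] at h4 h5
        rw [abs_le]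
        constructor <;> linarith
      · show |(u + 2 * NUP1.l - NUP1.l : ℂ).re| ≤ _
        have e : (u + 2 * NUP1.l - NUP1.l : ℂ).re = u.re + NUP1.l := by
          simp
          ring
        rw [e, abs_le]
        cases k <;> simp only [PBOb.lo6, PBOb.hi6] at h4 h5 <;> constructor <;> linarith
    have k2 := hL (I * τ) (by simp) (by simpa using hτ) b u hu
    have k3 : Real.exp (-2 * |u.im|) ≤ Real.exp (-a * |u.im|) := by
      refine Real.exp_le_exp.2 ?_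
      have := mul_le_mul_of_nonneg_right ha (abs_nonneg u.im)
      linarith
    unfold gl
    rw [norm_mul, norm_mul, Complex.norm_natCast]
    calc (m : ℝ) * (‖xiK x i0 b u‖ * ‖lamK (I * τ) b u‖) ≤
          (m : ℝ) * (C1 / m * (C2 * Real.exp (-a * |u.im|))) := by
          refine mul_le_mul_of_nonneg_left ?_ hm.le
          exact mul_le_mul k1 (k2.trans (mul_le_mul_of_nonneg_left k3 hC2)) (norm_nonneg _)
            (by positivity)
      _ = C1 * C2 * Real.exp (-a * |u.im|) := by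
          field_simp
      _ ≤ _ := by
          refine mul_le_mul_of_nonneg_right ?_ (Real.exp_pos _).le
          have : 0 ≤ C3 * Real.exp 2 := by positivity
          linarith

end PBRep.PLX

end
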