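import Pool.Agent.PLX.PB.UInst
import Pool.Agent.PHK.UBN6
import Pool.Agent.PHK.StatN6

/-!
# The particle-hole form (P): the moments on the configurations from the master bound (helper93)

(P) twin of `PLX/PB/UInst`: `F : Fam ι` a family of functionals, `wF6` its weight on `CfN6 (F.top m)`.

* `lint_wC_le6`, `lint_wN_le6`: the integral of the modulus of an insertion is at most `FA6`, `FS6`;
* `M2_one6`, `M2_Vp6`, `M2_Vm6`, `M2_SN6`, `M2_all6`: second moments (`PBFunc.M2`);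
* **`pins6`**: the structure `PBRep.Pins` (moments with one pinned factor).

`nz`, `vpI`, `vmI`, `pinI`, `dl`, `stQ_sgD`, `norm_sgD_le`, `le_of_lim` are the landed ones.
-/

set_option autoImplicit false
set_option linter.unusedSectionVars false

noncomputable section

open Complex MeasureTheory Finset
open scoped ENNReal
open PLX (Fil)

namespace PBUI.PLX

open NUO NUP1 NUP1S NUP1S.Ab NUP1S.AbC NUGC NUGC.PLX NUCR PBF PBF.PLX PBP PBP.PLX PBU PBU.PLX PBFunc PBFunc.PLX PBE PBE.PLX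
open PHK

section piece

variable [Fil] {Z : Bool → Option O3 → ℂ → ℂ} {P : Par6} {n n' : ℕ} {η η' : Crs}

theorem lint_wC_le6 (Ψ : Ins) :
    ∫⁻ c, ‖wC6 Z P n n' η η' c‖ₑ * ‖ev6 Ψ c‖ₑ ∂(mC6 n n') ≤ FA6 Z P n n' η η' Ψ := by
  have e1 : ∫⁻ c, ‖wC6 Z P n n' η η' c‖ₑ * ‖ev6 Ψ c‖ₑ ∂(mC6 n n') =
      ∑ i : CIx6 n n', ∫⁻ p : Pc6 i, ‖wP6 Z P n n' η η' i p‖ₑ * ‖Ψ i.1 p.1 i.2.1 i.2.2 p.2‖ₑ ∂(mP6 i) := by
    unfold mC6
    rw [lintegral_sig]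
    rfl
  have e2 : ∀ i : CIx6 n n', ∫⁻ p : Pc6 i, ‖wP6 Z P n n' η η' i p‖ₑ *
      ‖Ψ i.1 p.1 i.2.1 i.2.2 p.2‖ₑ ∂(mP6 i) ≤
      ∫⁻ O : Fin (i.1 : ℕ) → Xo, (∫⁻ x, ‖wP6 Z P n n' η η' i (O, x)‖ₑ *
        ‖Ψ i.1 O i.2.1 i.2.2 x‖ₑ) ∂(Measure.pi fun _ => nu) := by
    intro i
    unfold mP6
    exact lintegral_prod_le _
  rw [e1, Fintype.sum_prod_type]
  unfold PHK.FA6
  rw [Finset.sum_range]
  refine Finset.sum_le_sum fun r _ => ?_
  have e4 : (((r : ℕ).factorial : ℕ) : ℝ≥0∞)⁻¹ *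
      ∫⁻ O : Fin (r : ℕ) → Xo, trA6 Z P n n' η η' Ψ r O ∂(Measure.pi fun _ => nu) =
      ∫⁻ O : Fin (r : ℕ) → Xo, (((r : ℕ).factorial : ℕ) : ℝ≥0∞)⁻¹ * trA6 Z P n n' η η' Ψ r O
        ∂(Measure.pi fun _ => nu) :=
    (lintegral_const_mul' _ _ (ENNReal.inv_ne_top.2
      (by exact_mod_cast Nat.factorial_ne_zero _))).symm
  rw [e4]
  refine (Finset.sum_le_sum fun ab _ => e2 (r, ab)).trans ?_
  refine (sum_lint_le (μ := Measure.pi fun _ => nu) univ (fun (ab : Fin (n + 1) × Fin (n' + 1)) (O : Fin (r : ℕ) → Xo) =>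
    ∫⁻ x, ‖wP6 Z P n n' η η' (r, ab) (O, x)‖ₑ * ‖Ψ r O ab.1 ab.2 x‖ₑ)).trans (le_of_eq ?_)
  exact lintegral_congr fun O => sum_wP_enorm6 Ψ r O

end piece

/-! ### a family -/

section fam

variable [Fil] [NUSea.Sea] {ι : Type} (F : Fam ι) (ep e1 J : ℝ) (m : ℕ) (i : ι)

variable {F ep e1 J m i}

theorem lint_wN_le6 (Ψ : Ins) :
    ∫⁻ ω, ‖wF6 F ep e1 J m i ω‖ₑ * ‖(evN6 (fun _ => Ψ) : CfN6 (F.top m) → ℂ) ω‖ₑ
      ∂(mN6 (F.top m)) ≤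
    FS6 F ep e1 J m i (fun _ => 1) fun r O a b x => ‖Ψ r O a b x‖ₑ := by
  unfold FS6 mN6
  rw [lintegral_sig, Finset.sum_range]
  refine Finset.sum_le_sum fun n _ => ?_
  rw [one_mul, ← FA_eq_FE6]
  refine le_trans (le_of_eq ?_) (mul_le_mul' (le_refl ‖F.Pf m i‖ₑ) (lint_wC_le6 (Z := F.Z ep m i)
    (P := par6) (n := n) (n' := n + dN (F.top m)) (η := cr e1 J m) (η' := cr' e1 J m) Ψ))
  rw [← lintegral_const_mul' _ _ enorm_ne_top]
  refine lintegral_congr fun x => ?_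
  unfold wF6 wN6 evN6
  rw [enorm_mul, mul_assoc]

theorem L1_of6 {Ψ : Ins} {B : ℝ}
    (h : FS6 F ep e1 J m i (fun _ => 1) (fun r O a b x => ‖Ψ r O a b x‖ₑ) ≤ ENNReal.ofReal B) :
    L1 (mN6 (F.top m)) (wF6 F ep e1 J m i) (evN6 fun _ => Ψ) B := by
  unfold L1
  refine le_trans (le_of_eq ?_) ((lint_wN_le6 Ψ).trans h)
  refine lintegral_congr fun ω => ?_
  rw [ENNReal.ofReal_mul (norm_nonneg _), ofReal_norm, ofReal_norm]

theorem M2_of6 {Ψ : Ins} {a K : ℝ}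
    (h : FS6 F ep e1 J m i (fun _ => 1) (fun r O c d x => ‖Ψ r O c d x * Ψ r O c d x‖ₑ) ≤
      ENNReal.ofReal (a ^ 2 * K)) :
    M2 (mN6 (F.top m)) (wF6 F ep e1 J m i) K (evN6 fun _ => Ψ) a := by
  unfold M2
  refine le_trans (le_of_eq ?_) ((lint_wN_le6 (fun r O c d x => Ψ r O c d x * Ψ r O c d x)).trans h)
  refine lintegral_congr fun ω => ?_
  rw [ENNReal.ofReal_mul (norm_nonneg _), ofReal_norm, ← ofReal_norm (evN6 _ ω)]
  congr 2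
  rw [show (evN6 (fun _ => fun r O c d x => Ψ r O c d x * Ψ r O c d x) : CfN6 (F.top m) → ℂ) ω =
    (evN6 (fun _ => Ψ) : CfN6 (F.top m) → ℂ) ω * (evN6 (fun _ => Ψ) : CfN6 (F.top m) → ℂ) ω from rfl,
    norm_mul, pow_two]

/-! ### statistics as insertions -/

theorem Vp_ins6 {N : ℕ} (ρ : ℝ → ℂ) (η : Crs) (h : ℂ → ℂ) :
    (Vp6 ρ (fun _ => η) h : CfN6 N → ℂ) = evN6 fun _ => vpI ρ η h := by
  funext ω
  rw [Vp6_eq]
  show _ = nu1 ρ (η ω.2.1.1 ω.2.2.1) true h ω.2.2.2 + nu1 ρ (η ω.2.1.1 ω.2.2.1) false h ω.2.2.2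
  unfold nu1
  simp only [hgt_pA, if_true, Bool.false_eq_true, if_false]
  ring

theorem Vm_ins6 {N : ℕ} (ρ : ℝ → ℂ) (η : Crs) (h : ℂ → ℂ) :
    (Vm6 ρ (fun _ => η) h : CfN6 N → ℂ) = evN6 fun _ => vmI ρ η h := by
  funext ω
  rw [Vm6_eq]
  show _ = nu1 ρ (η ω.2.1.1 ω.2.2.1) true h ω.2.2.2 - nu1 ρ (η ω.2.1.1 ω.2.2.1) false h ω.2.2.2
  unfold nu1
  simp only [hgt_pA, if_true, Bool.false_eq_true, if_false]
  ring

/-! ### the master bound with majorants -/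

variable {K ε : ℝ}

/-- without pin -/
theorem FS_maj6 (h : UB6 F ep e1 J 2 K ε) (hK : 6 ≤ K) (s : ℕ) (C0 y₁ y₂ : ℝ) (h1 : y₁ < 0)
    (h2 : 0 < y₂) :
    ∃ m0 : ℕ, ∀ m ≥ m0, ∀ i : ι, F.ok m i → ∀ ρ : ℝ → ℂ, DN C0 m ρ → ∀ M : ℝ, 0 ≤ M →
    ∀ g g' : Fin 2 → ℂ → ℂ, (∀ j, BC y₁ y₂ 1 (g j) ∧ BC y₁ y₂ 1 (g' j)) →
    ∀ φ : InsE, (∀ r O c d x, φ r O c d x ≤ ENNReal.ofReal (M * ((r : ℝ) + 1) ^ s) *
        (nuE ρ (etaC e1 J m m) (g 0) (g' 0) x * nuE ρ (etaC e1 J m m) (g 1) (g' 1) x)) →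
      FS6 F ep e1 J m i (fun _ => 1) φ ≤
        ENNReal.ofReal (M * (3 * s.factorial) * (m : ℝ) ^ ε * F.bd m i) := by
  obtain ⟨m0, h0⟩ := h C0 y₁ y₂ h1 h2
  refine ⟨m0, fun m hm i hi ρ hρ M hM g g' hg φ hφ => ?_⟩
  have hw := ((OW.pow (e1 := e1) s m).mono (K' := K) (by norm_num) (by linarith) (by positivity)
    le_rfl).smul hM
  have h3 := h0 m hm i hi ρ hρ _ (mul_nonneg hM (by positivity)) _ hw (fun _ _ => g)
    (fun _ _ => g') (fun _ _ j => hg j)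
  refine (FS_mono6 (fun _ => le_rfl) ?_).trans h3
  intro r O c d x
  rw [Fin.prod_univ_two]
  exact hφ r O c d x

/-- with pin -/
theorem FS_pin6 (h : UB6 F ep e1 J 2 K ε) (hK : 6 ≤ K) {q : ℝ} (hq0 : 0 ≤ q) (hq : q ≤ 8 / 3)
    (s : ℕ) (C0 y₁ y₂ : ℝ) (h1 : y₁ < 0) (h2 : 0 < y₂) :
    ∃ m0 : ℕ, ∀ m ≥ m0, ∀ i : ι, F.ok m i → ∀ ρ : ℝ → ℂ, DN C0 m ρ → ∀ M : ℝ, 0 ≤ M →
    ∀ g g' : Fin 2 → ℂ → ℂ, (∀ j, BC y₁ y₂ 1 (g j) ∧ BC y₁ y₂ 1 (g' j)) →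
    ∀ φ : InsE, (∀ r O c d x, φ r O c d x ≤
        ENNReal.ofReal (M * (((r : ℝ) + 1) ^ s * ∑ j, Real.exp (-(q * |ht (O j)|)))) *
        (nuE ρ (etaC e1 J m m) (g 0) (g' 0) x * nuE ρ (etaC e1 J m m) (g 1) (g' 1) x)) →
      FS6 F ep e1 J m i (fun _ => 1) φ ≤
        ENNReal.ofReal (M * (3 * s.factorial * (m : ℝ) ^ (-(3 / 8 * q * (1 - 4 * e1)))) *
          (m : ℝ) ^ ε * F.bd m i) := by
  obtain ⟨m0, h0⟩ := h C0 y₁ y₂ h1 h2
  refine ⟨max m0 1, fun m hm i hi ρ hρ M hM g g' hg φ hφ => ?_⟩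
  have hm0 : m0 ≤ m := (le_max_left _ _).trans hm
  have hm1 : (0 : ℝ) < m := by exact_mod_cast (le_max_right m0 1).trans hm
  have hp := pinB_pos q e1 (Real.log m)
  have hw := ((OW.pin (e1 := e1) hq0 hq s m).mono (K' := K) (by norm_num) hK (by positivity)
    le_rfl).smul hM
  have h3 := h0 m hm0 i hi ρ hρ _ (mul_nonneg hM (by positivity)) _ hw (fun _ _ => g)
    (fun _ _ => g') (fun _ _ j => hg j)
  rw [pinB_rpow q e1 hm1] at h3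
  refine (FS_mono6 (fun _ => le_rfl) ?_).trans h3
  intro r O c d x
  rw [Fin.prod_univ_two]
  exact hφ r O c d x

/-! ### second moments -/

/-- **the mass** -/
theorem M2_one6 (h : UB6 F ep e1 J 2 K ε) (hK : 6 ≤ K) :
    ∃ m0 : ℕ, ∀ m ≥ m0, ∀ i : ι, F.ok m i →
      M2 (mN6 (F.top m)) (wF6 F ep e1 J m i) (3 * (m : ℝ) ^ ε * F.bd m i) (fun _ => 1) 1 := by
  obtain ⟨m0, h0⟩ := FS_maj6 h hK 0 0 (-1) 1 (by norm_num) one_pos
  refine ⟨m0, fun m hm i hi => ?_⟩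
  refine M2_of6 (Ψ := fun _ _ _ _ _ => 1) ?_
  refine (h0 m hm i hi _ (DN.std m) 1 zero_le_one (fun _ _ => 0) (fun _ _ => 0)
    (fun j => ⟨BC.zero _ _, BC.zero _ _⟩) _ fun r O c d x => ?_).trans (le_of_eq ?_)
  · simp only [pow_zero, mul_one, ENNReal.ofReal_one, one_mul, enorm_one]
    exact one_le_mul_of_one_le_of_one_le (one_le_nuE _ _ _ _ _) (one_le_nuE _ _ _ _ _)
  · congr 1
    simp [Nat.factorial]

/-- **a statistic of the quanta**, plus -/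
theorem M2_Vp6 (h : UB6 F ep e1 J 2 K ε) (hK : 6 ≤ K) (C0 y₁ y₂ : ℝ) (h1 : y₁ < 0) (h2 : 0 < y₂) :
    ∃ m0 : ℕ, ∀ m ≥ m0, ∀ i : ι, F.ok m i → ∀ ρ : ℝ → ℂ, DN C0 m ρ → ∀ M : ℝ, 0 ≤ M →
      ∀ g : ℂ → ℂ, BC y₁ y₂ M g →
      M2 (mN6 (F.top m)) (wF6 F ep e1 J m i) (3 * (m : ℝ) ^ ε * F.bd m i)
        (Vp6 ρ (fun _ => cr e1 J m) g) M := by
  obtain ⟨m0, h0⟩ := FS_maj6 h hK 0 C0 y₁ y₂ h1 h2
  refine ⟨m0, fun m hm i hi ρ hρ M hM g hg => ?_⟩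
  rw [Vp_ins6]
  refine le_of_lim (f := fun M => M ^ 2 * (3 * (m : ℝ) ^ ε * F.bd m i)) (by fun_prop)
    fun M' hM' => ?_
  have hM0 : 0 < M' := hM.trans_lt hM'
  have hg' := (hg.mono hM'.le).normed hM0
  refine M2_of6 (a := M') ?_
  refine (h0 m hm i hi ρ hρ (M' ^ 2) (by positivity) (fun _ => nz M' g) (fun _ => nz M' g)
    (fun j => ⟨hg', hg'⟩) _ fun r O c d x => ?_).trans (le_of_eq ?_)
  · rw [enorm_mul, pow_zero, mul_one, pow_two, ENNReal.ofReal_mul hM0.le]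
    have := vpI_le ρ (cr e1 J m) g hM0 r O c d x
    refine (mul_le_mul' this this).trans (le_of_eq ?_)
    unfold cr
    ring
  · congr 1
    simp [Nat.factorial]
    ring

/-- **a statistic of the quanta**, minus -/
theorem M2_Vm6 (h : UB6 F ep e1 J 2 K ε) (hK : 6 ≤ K) (C0 y₁ y₂ : ℝ) (h1 : y₁ < 0) (h2 : 0 < y₂) :
    ∃ m0 : ℕ, ∀ m ≥ m0, ∀ i : ι, F.ok m i → ∀ ρ : ℝ → ℂ, DN C0 m ρ → ∀ M : ℝ, 0 ≤ M →
      ∀ g : ℂ → ℂ, BC y₁ y₂ M g →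
      M2 (mN6 (F.top m)) (wF6 F ep e1 J m i) (3 * (m : ℝ) ^ ε * F.bd m i)
        (Vm6 ρ (fun _ => cr e1 J m) g) M := by
  obtain ⟨m0, h0⟩ := FS_maj6 h hK 0 C0 y₁ y₂ h1 h2
  refine ⟨m0, fun m hm i hi ρ hρ M hM g hg => ?_⟩
  rw [Vm_ins6]
  refine le_of_lim (f := fun M => M ^ 2 * (3 * (m : ℝ) ^ ε * F.bd m i)) (by fun_prop)
    fun M' hM' => ?_
  have hM0 : 0 < M' := hM.trans_lt hM'
  have hg' := (hg.mono hM'.le).normed hM0
  refine M2_of6 (a := M') ?_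
  refine (h0 m hm i hi ρ hρ (M' ^ 2) (by positivity) (fun _ => nz M' g)
    (fun _ => nz M' g) (fun j => ⟨hg', hg'⟩) _ fun r O c d x => ?_).trans (le_of_eq ?_)
  · rw [enorm_mul, pow_zero, mul_one, pow_two, ENNReal.ofReal_mul hM0.le]
    have := vmI_le ρ (cr e1 J m) g hM0 r O c d x
    refine (mul_le_mul' this this).trans (le_of_eq ?_)
    unfold cr
    ring
  · congr 1
    simp [Nat.factorial]
    ring

/-! ### the step -/

theorem stO_sgD_le6 {r : ℕ} (O : Fin r → Xo) : ‖stO6 sgD par6 O‖ ≤ 240 * r := by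
  have hl := NUP1.Bd.l_pos
  have h : ‖stO6 sgD par6 O‖ ≤ 4 * r * 6 := by
    refine norm_stO6_le (by norm_num) fun i c hc => ?_
    apply norm_sgD_le
    rw [PBOb.pf_re]
    have hb : (posB par6.e (ht (O i))).re = (1 - par6.e) * NUP1.l := by simp [posB, posS, vl]; ring
    have hs : (posS par6.e (ht (O i))).re = -((1 + par6.e) * NUP1.l) := by simp [posS, vl]
    have hT : (posT (ht (O i))).re = -(1 / 2 * NUP1.l) := by simp [posT, vl]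
    have hL : ∀ j : ℝ, (posL j (ht (O i))).re = (1 - j) * NUP1.l := fun j => by simp [posL, vl]
    rcases hk : k6 (O i) with _ | _ | _ | _ | _ | _
    · rw [cst6_L par6 hk] at hc
      simp only [List.mem_cons, List.not_mem_nil, or_false] at hc
      subst hc
      simp only [PBOb.sh_some, hL, par6]
      rw [abs_le]
      constructor <;> nlinarith
    · rw [cst6_T par6 hk] at hc
      simp only [List.mem_cons, List.not_mem_nil, or_false] at hc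
      subst hc
      simp only [PBOb.sh_some, hT]
      rw [abs_le]
      constructor <;> nlinarith
    · rw [cst6_E par6 hk] at hc
      simp only [List.mem_cons, List.not_mem_nil, or_false] at hc
      rcases hc with rfl | rfl
      · simp only [PBOb.sh_some, hs]
        simp only [par6]
        rw [abs_le]
        constructor <;> nlinarith
      · simp only [PBOb.sh_none, hb]
        simp only [par6]
        rw [abs_le]
        constructor <;> nlinarith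
    · rw [cst6_F par6 hk] at hc
      simp only [List.mem_cons, List.not_mem_nil, or_false] at hc
      rcases hc with rfl | rfl | rfl
      · simp only [PBOb.sh_some, hs]
        simp only [par6]
        rw [abs_le]
        constructor <;> nlinarith
      · simp only [PBOb.sh_none, hb]
        simp only [par6]
        rw [abs_le]
        constructor <;> nlinarith
      · simp only [PBOb.sh_none, hb]
        simp only [par6]
        rw [abs_le]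
        constructor <;> nlinarith
    · rw [cst6_H1 par6 hk] at hc
      simp only [List.mem_cons, List.not_mem_nil, or_false] at hc
      subst hc
      simp only [PBOb.sh_none, hL, par6]
      rw [abs_le]
      constructor <;> nlinarith
    · rw [cst6_H2 par6 hk] at hc
      simp only [List.mem_cons, List.not_mem_nil, or_false] at hc
      subst hc
      simp only [PBOb.sh_none, hL, par6]
      rw [abs_le]
      constructor <;> nlinarith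
  have h0 : (0 : ℝ) ≤ r := Nat.cast_nonneg r
  linarith

/-- the centred step -/
def snI6 (ρ : ℝ → ℂ) (P : Par6) (η : Crs) : Ins := fun r O a b x =>
  stA6 sgD P η r O a b x - ((Fil.b true : ℂ) - Fil.b false) * ∫ t : ℝ, ρ t * PB.NX.sgC t

theorem SN_ins6 {N : ℕ} (ρ : ℝ → ℂ) (P : Par6) (η : Crs) :
    (SN6 ρ P (fun _ => η) : CfN6 N → ℂ) = evN6 fun _ => snI6 ρ P η := rfl

theorem snI_eq6 (ρ : ℝ → ℂ) (P : Par6) (η : Crs) (r : ℕ) (O : Fin r → Xo) (a b : ℕ)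
    (x : (Fin a → ℝ) × (Fin b → ℝ)) :
    snI6 ρ P η r O a b x = stO6 sgD P O + vmI ρ η PB.NX.sgC r O a b x := by
  unfold snI6 stA6
  rw [stQ_sgD ρ η]
  ring

/-- the step against one factor `nuE` -/
theorem step_le6 (ρ : ℝ → ℂ) (η : Crs) (r : ℕ) (O : Fin r → Xo) (a b : ℕ)
    (x : (Fin a → ℝ) × (Fin b → ℝ)) :
    ‖snI6 ρ par6 η r O a b x‖ₑ ≤ ENNReal.ofReal (240 * ((r : ℝ) + 1)) *
      nuE ρ (η r O) (nz 3 PB.NX.sgC) (nz 3 PB.NX.sgC) x := by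
  rw [snI_eq6]
  refine (enorm_add_le _ _).trans ?_
  have h1 : ‖stO6 sgD par6 O‖ₑ ≤ ENNReal.ofReal (240 * r) := by
    rw [← ofReal_norm]
    exact ENNReal.ofReal_le_ofReal (stO_sgD_le6 O)
  have h2 := vmI_le ρ η PB.NX.sgC (M := 3) (by norm_num) r O a b x
  have h3 := one_le_nuE ρ (η r O) (nz 3 PB.NX.sgC) (nz 3 PB.NX.sgC) x
  calc _ ≤ ENNReal.ofReal (240 * r) * nuE ρ (η r O) (nz 3 PB.NX.sgC) (nz 3 PB.NX.sgC) x +
        ENNReal.ofReal 3 * nuE ρ (η r O) (nz 3 PB.NX.sgC) (nz 3 PB.NX.sgC) x :=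
        add_le_add (h1.trans (le_mul_of_one_le_right' h3)) h2
    _ = ENNReal.ofReal (240 * r + 3) * nuE ρ (η r O) (nz 3 PB.NX.sgC) (nz 3 PB.NX.sgC) x := by
        rw [ENNReal.ofReal_add (by positivity) (by norm_num), add_mul]
    _ ≤ _ := mul_le_mul' (ENNReal.ofReal_le_ofReal (by linarith)) le_rfl

/-- **the step** -/
theorem M2_SN6 (h : UB6 F ep e1 J 2 K ε) (hK : 6 ≤ K) (C0 : ℝ) :
    ∃ m0 : ℕ, ∀ m ≥ m0, ∀ i : ι, F.ok m i → ∀ ρ : ℝ → ℂ, DN C0 m ρ →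
      M2 (mN6 (F.top m)) (wF6 F ep e1 J m i) (345600 * (m : ℝ) ^ ε * F.bd m i)
        (SN6 ρ par6 fun _ => cr e1 J m) 1 := by
  have hl := NUP1.Bd.l_pos
  obtain ⟨m0, h0⟩ := FS_maj6 h hK 2 C0 (-(NUP1.l / 2)) (NUP1.l / 2) (by linarith) (by linarith)
  refine ⟨m0, fun m hm i hi ρ hρ => ?_⟩
  rw [SN_ins6]
  refine M2_of6 (Ψ := snI6 ρ par6 (cr e1 J m)) ?_
  refine (h0 m hm i hi ρ hρ (240 ^ 2) (by positivity) (fun _ => nz 3 PB.NX.sgC)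
    (fun _ => nz 3 PB.NX.sgC) (fun j => ⟨BC_nz, BC_nz⟩) _ fun r O c d x => ?_).trans (le_of_eq ?_)
  · rw [enorm_mul]
    have := step_le6 ρ (cr e1 J m) r O c d x
    refine (mul_le_mul' this this).trans (le_of_eq ?_)
    rw [show (240 : ℝ) ^ 2 * ((r : ℝ) + 1) ^ 2 = (240 * ((r : ℝ) + 1)) * (240 * ((r : ℝ) + 1)) by ring,
      ENNReal.ofReal_mul (p := 240 * ((r : ℝ) + 1)) (by positivity)]
    unfold cr
    ring
  · congr 1
    rw [show Nat.factorial 2 = 2 from rfl]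
    push_cast
    ring

/-! ### one pinned factor -/

/-- **a pinned factor times an insertion with a majorant** -/
theorem L1_pin6 (h : UB6 F ep e1 J 2 K ε) (hK : 6 ≤ K) {a : ℝ} (ha0 : 0 ≤ a) (ha : a ≤ 8 / 3)
    (s : ℕ) (C0 y₁ y₂ : ℝ) (h1 : y₁ < 0) (h2 : 0 < y₂) :
    ∃ m0 : ℕ, ∀ m ≥ m0, ∀ i : ι, F.ok m i → ∀ ρ : ℝ → ℂ, DN C0 m ρ → ∀ M : ℝ, 0 ≤ M →
    ∀ g g' : Fin 2 → ℂ → ℂ, (∀ j, BC y₁ y₂ 1 (g j) ∧ BC y₁ y₂ 1 (g' j)) →
    ∀ Ψ : Ins, (∀ r O c d x, ‖Ψ r O c d x‖ₑ ≤ ENNReal.ofReal (M * ((r : ℝ) + 1) ^ s) *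
        (nuE ρ (cr e1 J m r O) (g 0) (g' 0) x * nuE ρ (cr e1 J m r O) (g 1) (g' 1) x)) →
      L1 (mN6 (F.top m)) (wF6 F ep e1 J m i)
        (fun ω => (pinN6 a ω : ℂ) * (evN6 (fun _ => Ψ) : CfN6 (F.top m) → ℂ) ω)
        (M * dl (3 * s.factorial) e1 a ε (F.bd m i) m) := by
  obtain ⟨m0, h0⟩ := FS_pin6 h hK ha0 ha s C0 y₁ y₂ h1 h2
  refine ⟨m0, fun m hm i hi ρ hρ M hM g g' hg Ψ hΨ => ?_⟩
  have e : (fun ω : CfN6 (F.top m) => (pinN6 a ω : ℂ) * (evN6 (fun _ => Ψ) : CfN6 (F.top m) → ℂ) ω) =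
      evN6 fun _ => fun r O c d x => pinI a r O c d x * Ψ r O c d x := rfl
  rw [e]
  refine L1_of6 ?_
  refine (h0 m hm i hi ρ hρ M hM g g' hg _ fun r O c d x => ?_).trans (le_of_eq ?_)
  · rw [enorm_mul, pinI_enorm]
    refine (mul_le_mul' le_rfl (hΨ r O c d x)).trans (le_of_eq ?_)
    have hp : 0 ≤ ∑ j, Real.exp (-(a * |ht (O j)|)) := Finset.sum_nonneg fun _ _ => (Real.exp_pos _).le
    rw [show M * (((r : ℝ) + 1) ^ s * ∑ j, Real.exp (-(a * |ht (O j)|))) =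
      (∑ j, Real.exp (-(a * |ht (O j)|))) * (M * ((r : ℝ) + 1) ^ s) by ring,
      ENNReal.ofReal_mul hp]
    unfold cr
    ring
  · congr 1
    unfold dl
    ring

/-- **the moments with one pinned factor** -/
theorem pins6 (h : UB6 F ep e1 J 2 K ε) (hK : 6 ≤ K) {a : ℝ} (ha0 : 0 ≤ a) (ha : a ≤ 8 / 3)
    (C0 y₁ y₂ : ℝ) (h1 : y₁ < 0) (h2 : 0 < y₂) :
    ∃ m0 : ℕ, ∀ m ≥ m0, ∀ i : ι, F.ok m i → 0 ≤ F.bd m i → ∀ ρ : ℝ → ℂ, DN C0 m ρ →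
      PBRep.Pins y₁ y₂ a (mN6 (F.top m)) (wF6 F ep e1 J m i) (Vp6 ρ fun _ => cr e1 J m)
        (Vm6 ρ fun _ => cr e1 J m) (SN6 ρ par6 fun _ => cr e1 J m) (pinN6 a)
        (dl 720 e1 a ε (F.bd m i) m) := by
  have hl := NUP1.Bd.l_pos
  obtain ⟨n0, g0⟩ := L1_pin6 h hK ha0 ha 0 C0 y₁ y₂ h1 h2
  obtain ⟨n1, g1⟩ := L1_pin6 h hK ha0 ha 1 C0 (-(NUP1.l / 2)) (NUP1.l / 2) (by linarith) (by linarith)
  refine ⟨max n0 n1, fun m hm i hi hb ρ hρ => ?_⟩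
  have hm0 : n0 ≤ m := (le_max_left _ _).trans hm
  have hm1 : n1 ≤ m := (le_max_right _ _).trans hm
  have z0 : ∀ j : Fin 2, BC y₁ y₂ 1 ((fun _ _ => 0 : Fin 2 → ℂ → ℂ) j) ∧
      BC y₁ y₂ 1 ((fun _ _ => 0 : Fin 2 → ℂ → ℂ) j) := fun j => ⟨BC.zero _ _, BC.zero _ _⟩
  have z1 : ∀ j : Fin 2, BC (-(NUP1.l / 2)) (NUP1.l / 2) 1 ((fun _ _ => 0 : Fin 2 → ℂ → ℂ) j) ∧
      BC (-(NUP1.l / 2)) (NUP1.l / 2) 1 ((fun _ _ => 0 : Fin 2 → ℂ → ℂ) j) :=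
    fun j => ⟨BC.zero _ _, BC.zero _ _⟩
  have d3 : dl (3 * Nat.factorial 0) e1 a ε (F.bd m i) m ≤ dl 720 e1 a ε (F.bd m i) m :=
    dl_mono (by norm_num) hb
  have d0 : 0 ≤ dl 720 e1 a ε (F.bd m i) m := by
    unfold dl
    positivity
  have nn : ∀ (r : ℕ) (O : Fin r → Xo) (c d : ℕ) (x : (Fin c → ℝ) × (Fin d → ℝ)),
      1 ≤ nuE ρ (cr e1 J m r O) (fun _ => 0) (fun _ => 0) x * nuE ρ (cr e1 J m r O) (fun _ => 0)
        (fun _ => 0) x := fun r O c d x =>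
    one_le_mul_of_one_le_of_one_le (one_le_nuE _ _ _ _ _) (one_le_nuE _ _ _ _ _)
  -- a statistic of the quanta
  have vv : ∀ (V : (ℂ → ℂ) → Ins), (∀ (M : ℝ) (_ : 0 < M) (g : ℂ → ℂ) (r : ℕ) (O : Fin r → Xo)
      (c d : ℕ) (x : (Fin c → ℝ) × (Fin d → ℝ)), ‖V g r O c d x‖ₑ ≤
        ENNReal.ofReal M * nuE ρ (cr e1 J m r O) (nz M g) (nz M g) x) →
      ∀ M g, PBE.TC y₁ y₂ a M g → L1 (mN6 (F.top m)) (wF6 F ep e1 J m i)
        (fun ω => (pinN6 a ω : ℂ) * (evN6 (fun _ => V g) : CfN6 (F.top m) → ℂ) ω)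
        (M * dl 720 e1 a ε (F.bd m i) m) := by
    intro V hV M g hg
    have M0 := hg.nonneg h1 h2
    refine le_of_lim (f := fun M => M * dl 720 e1 a ε (F.bd m i) m) (by fun_prop) fun M' hM' => ?_
    have hM0 : 0 < M' := M0.trans_lt hM'
    have hg' := ((BC.of_TC hg ha0 M0).mono hM'.le).normed hM0
    have := g0 m hm0 i hi ρ hρ M' hM0.le (fun j => if j = 0 then nz M' g else fun _ => 0)
      (fun j => if j = 0 then nz M' g else fun _ => 0) (fun j => by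
        by_cases hj : j = 0
        · simp only [hj, if_true]
          exact ⟨hg', hg'⟩
        · simp only [hj, if_false]
          exact ⟨BC.zero _ _, BC.zero _ _⟩) (V g) (fun r O c d x => by
        rw [pow_zero, mul_one]
        refine (hV M' hM0 g r O c d x).trans (mul_le_mul' le_rfl ?_)
        exact le_mul_of_one_le_right' (one_le_nuE _ _ _ _ _))
    exact this.mono (mul_le_mul_of_nonneg_left d3 hM0.le)
  refine ⟨d0, fun ω => pinN6_nonneg a ω, ?_, ?_, ?_, ?_, ?_⟩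
  · have := g0 m hm0 i hi ρ hρ 1 zero_le_one (fun _ _ => 0) (fun _ _ => 0) z0
      (fun _ _ _ _ _ => 1) (fun r O c d x => by
        rw [enorm_one, pow_zero, mul_one, ENNReal.ofReal_one, one_mul]
        exact nn r O c d x)
    have e : (fun ω : CfN6 (F.top m) => (pinN6 a ω : ℂ)) = fun ω : CfN6 (F.top m) => (pinN6 a ω : ℂ) *
        (evN6 (fun _ => fun _ _ _ _ _ => 1) : CfN6 (F.top m) → ℂ) ω := by
      funext ω
      exact (mul_one _).symm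
    rw [e]
    exact this.mono (by rw [one_mul]; exact d3)
  · have := g1 m hm1 i hi ρ hρ 1 zero_le_one (fun _ _ => 0) (fun _ _ => 0) z1
      (pinI a) (fun r O c d x => by
        rw [pinI_enorm, pow_one, one_mul]
        refine (ENNReal.ofReal_le_ofReal (pin_le ha0 O)).trans (le_mul_of_one_le_right' ?_)
        exact one_le_mul_of_one_le_of_one_le (one_le_nuE _ _ _ _ _) (one_le_nuE _ _ _ _ _))
    refine this.mono ?_
    rw [one_mul]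
    exact dl_mono (by norm_num) hb
  · have := g1 m hm1 i hi ρ hρ 240 (by norm_num) (fun _ => nz 3 PB.NX.sgC)
      (fun _ => nz 3 PB.NX.sgC) (fun j => ⟨BC_nz, BC_nz⟩)
      (snI6 ρ par6 (cr e1 J m)) (fun r O c d x => by
        rw [pow_one]
        refine (step_le6 ρ (cr e1 J m)
          r O c d x).trans (mul_le_mul' le_rfl ?_)
        exact le_mul_of_one_le_right' (one_le_nuE _ _ _ _ _))
    refine this.mono (le_of_eq ?_)
    unfold dl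
    norm_num
    ring
  · intro M g hg
    rw [Vp_ins6]
    exact vv (vpI ρ (cr e1 J m)) (fun M hM g r O c d x => vpI_le ρ (cr e1 J m) g hM r O c d x)
      M g hg
  · intro M g hg
    rw [Vm_ins6]
    exact vv (vmI ρ (cr e1 J m)) (fun M hM g r O c d x => vmI_le ρ (cr e1 J m) g hM r O c d x)
      M g hg

/-- **all second moments with one constant** -/
theorem M2_all6 (h : UB6 F ep e1 J 2 K ε) (hK : 6 ≤ K) (C0 y₁ y₂ : ℝ) (h1 : y₁ < 0) (h2 : 0 < y₂) :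
    ∃ m0 : ℕ, ∀ m ≥ m0, ∀ i : ι, F.ok m i → 0 ≤ F.bd m i → ∀ ρ : ℝ → ℂ, DN C0 m ρ →
      M2 (mN6 (F.top m)) (wF6 F ep e1 J m i) (345600 * (m : ℝ) ^ ε * F.bd m i) (fun _ => 1) 1 ∧
      (∀ M g, 0 ≤ M → BC y₁ y₂ M g → M2 (mN6 (F.top m)) (wF6 F ep e1 J m i)
        (345600 * (m : ℝ) ^ ε * F.bd m i) (Vp6 ρ (fun _ => cr e1 J m) g) M) ∧
      (∀ M g, 0 ≤ M → BC y₁ y₂ M g → M2 (mN6 (F.top m)) (wF6 F ep e1 J m i)
        (345600 * (m : ℝ) ^ ε * F.bd m i) (Vm6 ρ (fun _ => cr e1 J m) g) M) ∧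
      M2 (mN6 (F.top m)) (wF6 F ep e1 J m i) (345600 * (m : ℝ) ^ ε * F.bd m i)
        (SN6 ρ par6 fun _ => cr e1 J m) 1 := by
  obtain ⟨n0, g0⟩ := M2_one6 h hK
  obtain ⟨n1, g1⟩ := M2_Vp6 h hK C0 y₁ y₂ h1 h2
  obtain ⟨n2, g2⟩ := M2_Vm6 h hK C0 y₁ y₂ h1 h2
  obtain ⟨n3, g3⟩ := M2_SN6 h hK C0
  refine ⟨max (max n0 n1) (max n2 n3), fun m hm i hi hb ρ hρ => ?_⟩
  have m0 : n0 ≤ m := ((le_max_left _ _).trans (le_max_left _ _)).trans hm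
  have m1 : n1 ≤ m := ((le_max_right _ _).trans (le_max_left _ _)).trans hm
  have m2 : n2 ≤ m := ((le_max_left _ _).trans (le_max_right _ _)).trans hm
  have m3 : n3 ≤ m := ((le_max_right _ _).trans (le_max_right _ _)).trans hm
  have k0 : 0 ≤ 3 * (m : ℝ) ^ ε * F.bd m i := by positivity
  have kk : 3 * (m : ℝ) ^ ε * F.bd m i ≤ 345600 * (m : ℝ) ^ ε * F.bd m i := by
    have : (0 : ℝ) ≤ (m : ℝ) ^ ε := by positivity
    gcongr
    norm_num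
  exact ⟨(g0 m m0 i hi).mono zero_le_one le_rfl kk k0,
    fun M g hM hg => (g1 m m1 i hi ρ hρ M hM g hg).mono hM le_rfl kk k0,
    fun M g hM hg => (g2 m m2 i hi ρ hρ M hM g hg).mono hM le_rfl kk k0, g3 m m3 i hi ρ hρ⟩

end fam

end PBUI.PLX

end
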