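import Pool.Agent.PHK.UXT6
import Pool.Agent.PHK.FibL6

/-!
# (P): U1, U3, U4 of the dislocated function, final form

* `stabE6`: the stability of the pairs in the form of the sums;
* **`uxL6`**, `uxT6`: U1, U3, U4 of `famL6`, `famT6` from the stability of the pairs;
* `mc_famS6`, `mc_famL6`, `mc_famT6`: measurability of the families.
-/

set_option autoImplicit false
set_option linter.unusedSectionVars false

noncomputable section

open Complex MeasureTheory Finset
open scoped ENNReal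
open PLX (Fil Ends)

namespace PBU.PLX

open NUO NUP1 NUP1S NUP1S.Ab NUP1S.AbC NUGC.PLX PBF.PLX PBP.PLX
open PHK

/-- the stability of the pairs in the form of the sums over the configurations -/
theorem stabE6 {P : Par6} (h : StabProd6 P) : StabE P fun _ O => enC6 P O := by
  obtain ⟨C, c1, -, hc1, H⟩ := h
  exact ⟨C, c1, hc1, H⟩

section meas

variable [Fil] [NUSea.Sea]

theorem mc_famS6 (s : ℕ) (ep e1 J : ℝ) (m : ℕ) {i : ℂ × ℂ} (hi : |i.1.re| ≤ NUP1.l / 2) :
    MC6 ((famS6 s).Z ep m i) par6 (cr e1 J m) (cr' e1 J m) :=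
  PBFX.PLX.mc6_L e1 J m _ (meas_g0L m (m - 1 - s) hi) _ _ _ _ _

theorem mc_famL6 (ep e1 J : ℝ) (m : ℕ) {i : ℂ × ℂ} (hi : |i.1.re| ≤ NUP1.l / 2) :
    MC6 (famL6.Z ep m i) par6 (cr e1 J m) (cr' e1 J m) := mc_famS6 0 ep e1 J m hi

theorem mc_famT6 (ep e1 J : ℝ) (m : ℕ) {i : ℂ × ℂ} (hi : |i.1.re| ≤ NUP1.l / 2) :
    MC6 (famT6.Z ep m i) par6 (cr e1 J m) (cr' e1 J m) := mc_famS6 1 ep e1 J m hi

/-- admissible indices -/
theorem famS6_ok_re {s m : ℕ} {i : ℂ × ℂ} (h : (famS6 s).ok m i) : |i.1.re| ≤ NUP1.l / 2 := by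
  have hl := NUP1.l_pos
  have h1 : |i.1.re| ≤ NUP1.l / 10 := h.1
  linarith

end meas

attribute [local instance] NUSea.seaP

variable [Fil]

/-- **U1, U3, U4 of the dislocated function** -/
theorem uxL6 (h : StabProd6 par6) : UX6 famL6 := ux_famL6 (stabE6 h)

/-- **U1, U3, U4 of the left end of (TR)** -/
theorem uxT6 (h : StabProd6 par6) : UX6 famT6 := ux_famT6 (stabE6 h)

end PBU.PLX

end
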