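import Pool.Agent.PHK.I1F6
import Pool.Agent.PHK.RepF6
import Pool.Agent.PHK.RepZ6
import Pool.Agent.PHK.RepL6
import Pool.Agent.PHK.RepI6
import Pool.Agent.PHK.RepJ6
import Pool.Agent.PHK.UInst6
import Pool.Agent.PHK.UXfin6
import Pool.Agent.PHK.CloseF6
import Pool.Agent.PHK.LamDec6
import Pool.Agent.PHK.CloseE6
import Pool.Agent.PHK.ClsB6

/-!
# (P): the first Ward identity of the dislocated function, final form

* `moL6`: the moments `PBRep.PLX.Mo6` of the family; `total_le6`: the total insertion against the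
  bracket `mainE6` of `PBEM.E2_of6`;
* **`hD_fin6`**: `HD6 c` for `0 ≤ c ≤ 13/20` from the class formula `ClsB6`, the stability `StabE` and
  the cut term `CutAll6`.
-/

set_option autoImplicit false
set_option linter.unusedSectionVars false
set_option linter.unusedVariables false
set_option maxHeartbeats 1000000

noncomputable section

attribute [local instance] NUSea.seaP

open Complex MeasureTheory Finset Filter
open scoped Classical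
open PLX (Fil)

namespace PBI.PLX

open NUP1 hiding Kd
open NUO NUP1S NUP1S.Ab NUP1S.AbC PBF PBF.PLX PBFunc PBFunc.PLX PB
open PBRep.PLX (F0N6 Mo6 Ln6 TrN6 VC6 VC_smul6 sK adS_gl6 obs_gl6 exists_gl_dec6 gl ln_row6 parP_par0
  RhoK wT6 i26 i2'6)
open PBForce (xiR rhoR Rws0)
open PBV (wm)
open PBEI (Apl6 Ami6 Bch6 rF uF qF rowS)
open PBLX.PLX (wS6 ZF6 cF eC eC' rh0 mainE6 HD6)
open PHK
open Pool.Agent.PB (Pf)
open _root_.Pool.Agent.PLX (fxQ yq)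

variable [Fil]

omit [Fil] in
theorem measurable_pf6 (k : Option O3) : Measurable (PBOb.pf k) := by
  unfold PBOb.pf
  fun_prop

omit [Fil] in
theorem measurable_sgD6 (s : Bool) (k : Option O3) : Measurable (PBF.PLX.sgD s k) := by
  unfold PBF.PLX.sgD
  exact (PBOb.measurable_sgU.comp (measurable_pf6 k)).const_mul _

/-- the step is measurable -/
theorem meas_SN6 {N : ℕ} {P : Par6} {η η' : ℕ → PBF.PLX.Crs}
    (hc : ∀ n ≤ N, PBF.PLX.MCr (η n) (η' n)) (ρ : ℝ → ℂ) : Measurable (SN6 ρ P η : CfN6 N → ℂ) := by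
  have h1 := PBOb.PLX.meas_VO6 (N := N) (P := P) (g := fun b => PBF.PLX.sgD b.1 b.2) fun b =>
    measurable_sgD6 b.1 b.2
  have h2 := PBOb.PLX.meas_VQ6 (N := N) (η := η) (η' := η') hc (D := PBF.PLX.sgD) measurable_sgD6
  exact (h1.add h2).sub_const _

/-- **the moments of the family** -/
theorem moL6 {ep e1 J ε a : ℝ} {Kc : ℝ} (hU : PBU.PLX.UB6 PBU.PLX.famL6 ep e1 J 2 Kc ε) (hK : 6 ≤ Kc)
    (ha0 : 0 ≤ a) (ha : a ≤ 8 / 3) : ∃ m0 : ℕ, ∀ j : ℕ, m0 ≤ j → ∀ s ∈ Set.Icc (0 : ℝ) 1,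
      ∀ t ∈ Set.Icc (0 : ℝ) 1,
      AEStronglyMeasurable (wS6 ep e1 J j s t) (mN6 (2 * (j + 1))) →
      Mo6 a (wS6 ep e1 J j s t) (rh0 j s) par6 (eC e1 J j)
        (345600 * ((j + 1 : ℕ) : ℝ) ^ ε * Real.exp (2 * |t|))
        (PBUI.PLX.dl 720 e1 a ε (Real.exp (2 * |t|)) (j + 1)) := by
  have hl := Bd.l_pos
  obtain ⟨C0, -, hC0⟩ := PBLX.PLX.dn_rows
  obtain ⟨n1, h1⟩ := PBUI.PLX.M2_all6 hU hK C0 (-(l / 10)) (351 / 400 * l) (by linarith) (by linarith)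
  obtain ⟨n2, h2⟩ := PBUI.PLX.pins6 hU hK ha0 ha C0 (-(l / 10)) (351 / 400 * l) (by linarith)
    (by linarith)
  refine ⟨max n1 n2, fun j hj s hs t ht hw => ?_⟩
  have j1 : n1 ≤ j + 1 := ((le_max_left _ _).trans hj).trans (Nat.le_succ j)
  have j2 : n2 ≤ j + 1 := ((le_max_right _ _).trans hj).trans (Nat.le_succ j)
  have hok := PBLX.PLX.ok_famL6 j hs ht
  have hDN : PBU.PLX.DN C0 (j + 1) (rh0 j s) := by
    rw [show rh0 j s = fun u : ℝ => PBLX.PLX.rhS j s u from (PBLX.PLX.rho0_eq j s).symm]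
    exact hC0 j s
  have hbd : PBU.PLX.famL6.bd (j + 1) ((I * s, I * t) : ℂ × ℂ) = Real.exp (2 * |t|) := by
    show Real.exp (2 * |(I * (t : ℂ)).im|) = _
    simp
  have hb0 : 0 ≤ PBU.PLX.famL6.bd (j + 1) ((I * s, I * t) : ℂ × ℂ) := by
    rw [hbd]
    positivity
  obtain ⟨k1, k2, k3, k4⟩ := h1 (j + 1) j1 _ hok hb0 _ hDN
  have k5 := h2 (j + 1) j2 _ hok hb0 _ hDN
  rw [hbd] at k1 k2 k3 k4 k5
  refine ⟨by positivity, hw, k5, k1, fun M h hh _ => ?_, fun M h hh _ => ?_, ?_, k4⟩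
  · have hM := hh.nonneg (by linarith) (by linarith)
    exact k2 M h hM (PBU.PLX.BC.of_TC hh ha0 hM)
  · have hM := hh.nonneg (by linarith) (by linarith)
    exact k3 M h hM (PBU.PLX.BC.of_TC hh ha0 hM)
  · exact (meas_SN6 (η' := eC' e1 J j) (fun n _ => PBF.PLX.mcr_const
      (PBF.PLX.curZ_cont e1 J (j + 1) (j + 1 : ℕ)).measurable
      (PBF.PLX.curZ_cont' e1 J (j + 1) (j + 1 : ℕ)).measurable) _).aestronglyMeasurable

/-- **the total insertion against the main term** -/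
theorem total_le6 (hC : ClsB6) (hSt : StabE par6 fun _ O => enC6 par6 O) {c : ℝ} (hc : c ≤ 13 / 20) :
    ∃ a0 : ℝ, 0 < a0 ∧
    ∀ ep e1 J : ℝ, 0 < ep → ep ≤ 1 / 100 → 0 < e1 → e1 ≤ 1 / 100 → 0 ≤ J →
    Real.exp (-(2 * Real.pi * J)) + 3 * e1 + 3 * ep ≤ a0 → ∃ C : ℝ, 0 < C ∧
    ∀ᶠ j : ℕ in atTop, ∀ s ∈ Set.Icc (0 : ℝ) 1, ∀ t ∈ Set.Icc (0 : ℝ) 1,
      ‖((j + 1 : ℝ) : ℂ) * F0T6 ep j s t - mainE6 ep e1 J j s t‖ ≤
        C * ((j + 1 : ℕ) : ℝ) ^ (-c) := by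
  have hl := Bd.l_pos
  have hlN : NUP1.l = NUMF.l := rfl
  obtain ⟨a1, ha1, HT⟩ := trN_ZF6 hC (PBC.PLX.topM6 hSt (δ := 1) one_pos)
  obtain ⟨a2, ha2, HU⟩ := PBU.PLX.ux_famL6 hSt 2 6 (1 / 40) (by norm_num)
  obtain ⟨Kr, hKr, HR⟩ := PBRep.PLX.repI6 (a' := 19 / 10) (by norm_num) (by norm_num)
  obtain ⟨C1, hC1, HE⟩ := PBEI.rep_EF6 (a := 39 / 20) (a' := 19 / 10) (by norm_num) (by norm_num)
    (by norm_num)
  obtain ⟨C2, hC2, HL⟩ := PBQ1.lamK_DQ6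
  obtain ⟨Mq, hMq, HQ⟩ := exists_gl_dec6 hC2.le (fun z h1 h2 b u hu =>
    HL z (by rw [h1, abs_zero]; exact (half_pos NUMF.l_pos).le) h2 2 le_rfl b u hu)
  refine ⟨min a1 a2, lt_min ha1 ha2, fun ep e1 J hep hep1 he he1 hJ hsm => ?_⟩
  obtain ⟨m1, HT⟩ := HT ep e1 J hep hep1 he he1 hJ (hsm.trans (min_le_left _ _))
  have hU := HU ep e1 J hep he hJ (hsm.trans (min_le_right _ _))
  obtain ⟨m2, HM⟩ := moL6 hU le_rfl (a := 19 / 10) (by norm_num) (by norm_num)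
  obtain ⟨mc, -, Hcur⟩ := PBF.PLX.curZ_crs he he1 hJ hep
  refine ⟨Kr * (1 + Mq) * (720 * Real.exp 2), by positivity, ?_⟩
  filter_upwards [eventually_ge_atTop m1, eventually_ge_atTop m2, eventually_ge_atTop mc]
    with j j1 j2 j3 s hs t ht
  have hs1 : |s| ≤ 1 := abs_le.2 ⟨by linarith [hs.1], hs.2⟩
  have ht1 : |t| ≤ 1 := abs_le.2 ⟨by linarith [ht.1], ht.2⟩
  have hx := PBEI.rowS_ok j hs1
  have hT := HT j j1 s t hs1 ht1
  have hP : NURow.ParP (PBT.PLX.pL (j + 1)) := parP_par0 (j + 1)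
  have hL := ln_row6 (N := 2 * (j + 1)) hP (x0 := 3 / 5 * l) (by linarith) (by linarith) rfl hx
  have hw : AEStronglyMeasurable (wS6 ep e1 J j s t) (mN6 (2 * (j + 1))) :=
    (wN_meas6 hT.mc).aestronglyMeasurable
  have hM := HM j j2 s hs t ht hw
  have hcc : ∀ n ≤ 2 * (j + 1), PBF.PLX.MCr (eC e1 J j n) (eC' e1 J j n) := fun n hn =>
    (hT.ins n hn).hc
  have hcr : ∀ n ≤ 2 * (j + 1), ∀ r (O : Fin r → Xo),
      CrvR6 (ep / 4) (eC e1 J j n r O) (eC' e1 J j n r O) :=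
    fun n hn r O => crvR6_of (Hcur (j + 1) (j3.trans (Nat.le_succ j)) r O)
  have hre : |(I * (t : ℂ)).re| ≤ l / 2 := by
    rw [show (I * (t : ℂ)).re = 0 by simp, abs_zero]
    positivity
  -- the linear insertion
  have hadl : AdS6 par6 (3 / 5 * l) (ep / 4)
      (sK fun b z => ((j + 1 : ℕ) : ℂ) * gl (rowS j s) 0 (I * t) b z) :=
    (adS_gl6 par6_good (by linarith) hx 0 hre).cmul _
  obtain ⟨q1, q2⟩ := HQ (j + 1) (rowS j s) 0 hx t ht1 (19 / 10) (by norm_num) (by norm_num)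
  have hobs := obs_gl6 (N := 2 * (j + 1)) (P := par6) (δ := ep / 4)
    (a := 19 / 10) (Mq := Mq) (η := eC e1 J j) (η' := eC' e1 J j) par6_good PBOb.PLX.par6_O hcc
    (by linarith) hcr hL.hρ (rowS j s) 0 t (by norm_num) (by norm_num) hMq.le q1 q2
  have evc : (VC6 (PBQ1.rhK2 (rowS j s)) par6 (eC e1 J j)
      fun b z => ((j + 1 : ℕ) : ℂ) * gl (rowS j s) 0 (I * t) b z : CfN6 (2 * (j + 1)) → ℂ) =
      fun ω => ((j + 1 : ℕ) : ℂ) * VC6 (PBQ1.rhK2 (rowS j s)) par6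
        (eC e1 J j) (gl (rowS j s) 0 (I * t)) ω := by
    funext ω
    exact VC_smul6 _ _ _ ω
  rw [← evc] at hobs
  -- integrability of the two channels
  obtain ⟨r1, r2, -⟩ := HE (j + 1) (rowS j s) 0 hx
  have y1 : -(NUMF.l / 10) < 0 := by rw [← hlN]; linarith
  have y2 : 0 < 351 / 400 * NUMF.l := by rw [← hlN]; linarith
  have hρm : AEStronglyMeasurable (rh0 j s) volume := by
    rw [show rh0 j s = fun u : ℝ => PBLX.PLX.rhS j s u from (PBLX.PLX.rho0_eq j s).symm]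
    exact (PBLX.PLX.rhS_integrable j s).1
  have i1 := i26 (N := 2 * (j + 1)) (η := eC e1 J j) (η' := eC' e1 J j) (x := rowS j s) (i0 := 0)
    r1 y1 y2 hρm hcc hw hM.K0 hM.vp
  have i1' := i2'6 (N := 2 * (j + 1)) (η := eC e1 J j) (η' := eC' e1 J j) (x := rowS j s) (i0 := 0)
    r2 y1 y2 hρm hcc hw hM.K0 hM.vm
  have key := HR (j + 1) (rowS j s) 0 hx _ (PBI.PLX.fl (PBT.PLX.pL (j + 1))) par6 (3 / 5 * l) _ _ _
    (2 * (j + 1)) _ _ (cF j s t) _ (PBQ1.rhK2 (rowS j s)) (rh0 j s)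
    (gl (rowS j s) 0 (I * t)) t Mq _ _ hT hL hM hadl hobs i1 i1'
  have e1' : ((j + 1 : ℝ) : ℂ) = ((j + 1 : ℕ) : ℂ) := by push_cast; ring
  have eP : PBEI.rP (rowS j s) 0 = (PBV.rP j s : ℂ) := PBEI.rP_rowS j s
  have eM : PBEI.rM (rowS j s) 0 = (PBV.rM j s : ℂ) := PBEI.rM_rowS j s
  rw [eP, eM] at key
  rw [e1']
  refine (key).trans ?_
  -- sizes
  have hm0 : (0 : ℝ) < ((j + 1 : ℕ) : ℝ) := by positivity
  have hm1 : (1 : ℝ) ≤ ((j + 1 : ℕ) : ℝ) := by exact_mod_cast Nat.succ_le_succ (Nat.zero_le j)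
  have hexp : Real.exp (2 * |t|) ≤ Real.exp 2 := Real.exp_le_exp.2 (by linarith)
  have hpow : ((j + 1 : ℕ) : ℝ) ^ (-(3 / 8 * (19 / 10) * (1 - 4 * e1))) *
      ((j + 1 : ℕ) : ℝ) ^ (1 / 40 : ℝ) ≤ ((j + 1 : ℕ) : ℝ) ^ (-c) := by
    rw [← Real.rpow_add hm0]
    refine Real.rpow_le_rpow_of_exponent_le hm1 ?_
    linarith
  have hdl : PBUI.PLX.dl 720 e1 (19 / 10) (1 / 40) (Real.exp (2 * |t|)) (j + 1) ≤
      720 * Real.exp 2 * ((j + 1 : ℕ) : ℝ) ^ (-c) := by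
    unfold PBUI.PLX.dl
    calc 720 * ((j + 1 : ℕ) : ℝ) ^ (-(3 / 8 * (19 / 10) * (1 - 4 * e1))) *
          ((j + 1 : ℕ) : ℝ) ^ (1 / 40 : ℝ) * Real.exp (2 * |t|) =
        720 * (((j + 1 : ℕ) : ℝ) ^ (-(3 / 8 * (19 / 10) * (1 - 4 * e1))) *
          ((j + 1 : ℕ) : ℝ) ^ (1 / 40 : ℝ)) * Real.exp (2 * |t|) := by ring
      _ ≤ 720 * ((j + 1 : ℕ) : ℝ) ^ (-c) * Real.exp 2 := by gcongr
      _ = _ := by ring
  have hK0 : 0 ≤ Kr * (1 + Mq) := by positivity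
  calc Kr * (1 + Mq) * PBUI.PLX.dl 720 e1 (19 / 10) (1 / 40) (Real.exp (2 * |t|)) (j + 1) ≤
      Kr * (1 + Mq) * (720 * Real.exp 2 * ((j + 1 : ℕ) : ℝ) ^ (-c)) :=
        mul_le_mul_of_nonneg_left hdl hK0
    _ = _ := by ring

/-- **hypothesis `hD` of `PBEM.E2_of6`**, literal of `CloseE6` -/
theorem hD_fin6 (hC : ClsB6) (hSt : StabE par6 fun _ O => enC6 par6 O) (hcut : CutAll6) {c : ℝ}
    (hc0 : 0 ≤ c) (hc : c ≤ 13 / 20) : HD6 c := by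
  obtain ⟨a1, ha1, H1⟩ := total_le6 hC hSt hc
  obtain ⟨a2, ha2, H2⟩ := hD_of6 hcut (d := 1 / 4) (by norm_num)
  refine ⟨min a1 a2, lt_min ha1 ha2, fun ep e1 J hep hep1 he he1 hJ hsm => ?_⟩
  obtain ⟨C, hC, H1⟩ := H1 ep e1 J hep hep1 he he1 hJ (hsm.trans (min_le_left _ _))
  have H := H2 ep hep hep1 e1 he he1 J hJ (hsm.trans (min_le_right _ _))
    (main := fun j s t => mainE6 ep e1 J j s t) (δa := fun j => C * ((j + 1 : ℕ) : ℝ) ^ (-c)) H1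
  refine ⟨C + Real.exp 2, by positivity, ?_⟩
  filter_upwards [H, eventually_ge_atTop 1] with j h1 h2 s hs t ht
  obtain ⟨D, hD, hb⟩ := h1 s hs t ht
  refine ⟨D, hD, hb.trans ?_⟩
  have hm1 : (1 : ℝ) ≤ ((j + 1 : ℕ) : ℝ) := by exact_mod_cast Nat.succ_le_succ (Nat.zero_le j)
  have hj0 : (0 : ℝ) < j := by exact_mod_cast h2
  have p1 : ((j + 1 : ℕ) : ℝ) ^ (-1 + 1 / 4 : ℝ) ≤ ((j + 1 : ℕ) : ℝ) ^ (-c) :=
    Real.rpow_le_rpow_of_exponent_le hm1 (by linarith)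
  have p2 : ((j + 1 : ℕ) : ℝ) ^ (-c) ≤ (j : ℝ) ^ (-c) := by
    refine Real.rpow_le_rpow_of_nonpos hj0 ?_ (by linarith)
    push_cast
    linarith
  have hE := Real.exp_pos (2 : ℝ)
  calc C * ((j + 1 : ℕ) : ℝ) ^ (-c) + Real.exp 2 * ((j + 1 : ℕ) : ℝ) ^ (-1 + 1 / 4 : ℝ) ≤
      C * (j : ℝ) ^ (-c) + Real.exp 2 * (j : ℝ) ^ (-c) := by
        have := p1.trans p2
        gcongr
    _ = _ := by ring

/-- `hD_fin6` from the base statement of the word theorem and the stability of the pairs -/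
theorem hD_finW (hW : WordThB) (hSt : StabProd6 par6) (hcut : CutAll6) {c : ℝ}
    (hc0 : 0 ≤ c) (hc : c ≤ 13 / 20) : HD6 c :=
  hD_fin6 (clsB6_of hW) (PBU.PLX.stabE6 hSt) hcut hc0 hc

end PBI.PLX

end
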