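import Pool.Agent.PHK.FDef6
import Pool.Agent.PHK.GasPot

/-!
# Log derivatives of the one body functions (six kinds)

* `nA6_coe`; `FF6_zero`: a functional all whose inner integrals vanish; **`LogD6`** (on `Ks6 δ`).
-/

set_option autoImplicit false
set_option linter.unusedSectionVars false

noncomputable section

open Complex MeasureTheory Finset
open scoped ENNReal
open PLX (Fil)

namespace PHK

open NUO NUP1 NUCR NUP1S NUP1S.Ab NUP1S.AbC NUGC NUGC.PLX
open PBF.PLX (gK Ins Crs)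

variable {r : ℕ}

theorem nA6_coe {n : ℕ} {O : Fin r → Xo} {s : Bool} (h : chgO6 O s ≤ n) :
    (nA6 n O s : ℤ) + chgO6 O s = n := by
  unfold nA6
  omega

variable [Fil] {Z : Bool → Option O3 → ℂ → ℂ} {P : Par6} {n n' : ℕ} {η η' : Crs}

/-- a functional all whose inner integrals vanish -/
theorem FF6_zero {Ψ : Ins} (h : ∀ r (O : Fin r → Xo), chgO6 O true ≤ n → chgO6 O false ≤ n' →
    ∫ x, gK (gF6 Z P O) (η r O) (η' r O) (nA6 n O true) (nA6 n' O false) x *
      Ψ r O (nA6 n O true) (nA6 n' O false) x = 0) : FF6 Z P n n' η η' Ψ = 0 := by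
  unfold FF6
  refine Finset.sum_eq_zero fun r _ => ?_
  have e : ∀ O : Fin r → Xo, trm6 Z P n n' η η' Ψ r O = 0 := by
    intro O
    unfold trm6
    split_ifs with hc
    · rw [h r O hc.1 hc.2.1, mul_zero, mul_zero]
    · rfl
  simp only [e, integral_zero, mul_zero]

/-- log derivatives of the one body functions, bounded in the strip -/
structure LogD6 (Z : Bool → Option O3 → ℂ → ℂ) (P : Par6) (δ : ℝ) (LZ : Bool → ℂ → ℂ)
    (LP : (r : ℕ) → (Fin r → Xo) → Bool → ℂ → ℂ) : Prop where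
  dZ : ∀ s (z : ℂ), z.re ∈ Ks6 δ → HasDerivAt (Z s none) (LZ s z * Z s none z) z
  mZ : ∀ s, Measurable (LZ s)
  bZ : ∃ B, ∀ s (z : ℂ), z.re ∈ Ks6 δ → ‖LZ s z‖ ≤ B
  dP : ∀ r (O : Fin r → Xo) s (z : ℂ), z.re ∈ Ks6 δ →
    HasDerivAt (potO6 P O s) (LP r O s z * potO6 P O s z) z
  mP : ∀ r (O : Fin r → Xo) s, Measurable (LP r O s)
  bP : ∀ r (O : Fin r → Xo), ∃ B, ∀ s (z : ℂ), z.re ∈ Ks6 δ → ‖LP r O s z‖ ≤ B

end PHK

end
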