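import Pool.Agent.PHK.W1FF6

/-!
# (P): rows 0, ends 0: the class W W as the functional `FF6`

* `phI6_R0`: the cutoffs have no zero in the strip of the holes, `m` large;
* `gF6_R0`: the cutoff of the strings with `om`;
* **`R0_WW_FF6`**: from the class formula `FFth`: `RZW (R06 m β ex g0 g0')` at fixed half quanta.
-/

set_option autoImplicit false
set_option linter.unusedSectionVars false

noncomputable section

open Complex MeasureTheory Finset
open scoped ENNReal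

open PLX (Fil)

namespace PBR.PLX

open NUO NUP1 NUCR NUP1S NUP1S.Ab NUP1S.AbC NUP1S.AbG NURow NUGC.PLX PBX PBX.PLX
open PBF.PLX (Ins Crs)
open PBO.PLX (RwL)
open _root_.Pool.Agent.PLX
open PHK

variable [Fil] {m : ℕ} {β : ℝ} {ex : List ℂ} {g0 g0' : ℂ → ℂ} {P : Par6} {ep : ℝ} {w w' : ℂ}

/-- **the cutoffs at rows 0 have no zero in the strip of the holes** -/
theorem phI6_R0 (hβ : 0 < β) (hβ' : β ≤ 4 / 3) (hex : ∀ w ∈ ex, |w.re| ≤ l / 2) {h0 : ℝ}
    (hh : 0 ≤ h0) (him : ∀ w ∈ ex, |w.im| ≤ h0) (hm1 : 1 ≤ m)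
    (hm : 2 ^ 14 * Real.exp (8 / 3 * h0) * (ex.length : ℕ) ≤ m) :
    PhI6 (N := fun a => cond a m (Fil.q * m)) β (xrU (R06 m β ex g0 g0')) (fun _ => ex) := by
  refine phI6_low (n0 := ex.length) (m := m) (h0 := h0) hβ hβ' hh
    (K := fun a => cond a m (Fil.q * m)) (E := fun _ => ex) (fun a => ⟨?_, le_rfl, hex, him⟩)
    (fun a => ?_) hm1 (by exact_mod_cast hm)
  · have e : List.ofFn (xrU (R06 m β ex g0 g0') a) = List.replicate (cond a m (Fil.q * m)) 0 := by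
      cases a
      · exact List.ofFn_const _ 0
      · exact List.ofFn_const _ 0
    rw [e]
  · cases a
    · show m ≤ Fil.q * m + ex.length
      have := Fil.one_le_q
      nlinarith
    · show m ≤ m + ex.length
      omega

omit [Fil] in
/-- **the cutoff of the strings at rows 0** -/
theorem gF6_R0 (T1 : ℝ) {W : List ℂ} (hW : ∀ w ∈ W, |w.re| ≤ l / 2) (n : ℕ) :
    GF6 (fun _ : Fin n => (0 : ℂ)) (gO T1 W fun _ : Fin n => (0 : ℂ)) := by
  have hl := l_pos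
  refine gF6_gO T1 (fun _ => ?_) hW
  show |(0 : ℂ).re| ≤ l / 2
  rw [zero_re, abs_zero]
  linarith

/-- **The class W W at rows 0, ends 0, at fixed half quanta is the functional without insertion.** -/
theorem R0_WW_FF6 (hFF : FFth) (hH : HI6 P) (hβ : 0 < β) (hβ' : β ≤ 4 / 3)
    (hex : ∀ w ∈ ex, |w.re| ≤ l / 2) {h0 : ℝ} (hh : 0 ≤ h0) (him : ∀ w ∈ ex, |w.im| ≤ h0)
    (hm1 : 1 ≤ m) (hm : 2 ^ 14 * Real.exp (8 / 3 * h0) * (ex.length : ℕ) ≤ m)
    (hg : GF6 (fun _ : Fin m => (0 : ℂ)) g0) (hg' : GF6 (fun _ : Fin (Fil.q * m) => (0 : ℂ)) g0')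
    (hP : GoodP6 P) (hep0 : 0 < ep) (hep : ep ≤ 1 / 100)
    (hw : w.re = 5 / 4 * l) (hw' : w'.re = 5 / 4 * l) (n : ℕ)
    {η η' : Crs} (hη : ∀ r ≤ 2 * (n + (n + Fil.xn m)), ∀ᵐ O ∂(Measure.pi fun _ : Fin r => nu),
      CurB ep (η r O) (η' r O)) :
    NURow.ZobjQ (RZW (R06 m β ex g0 g0') w w' true) (RZW (R06 m β ex g0 g0') w w' false)
      (51 / 100 * l) n (n + Fil.xn m)
      (fun _ _ k _ i => ln6 P (k i)) (fun _ _ _ k' i => ln6 P (k' i)) =
      FF6 (RZW (R06 m β ex g0 g0') w w') P n (n + Fil.xn m) η η' (fun _ _ _ _ _ => 1) :=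
  RWW_FF6 hFF hH (RQ6_R0 m hβ hβ' hg.gn.meas hg'.gn.meas hex) (by
    have hl := l_pos
    have := Real.cos_pos_of_mem_Ioo (x := l) ⟨by linarith [Real.pi_pos],
      by unfold l; linarith [Real.pi_pos]⟩
    positivity) hg hg'
    (phI6_R0 hβ hβ' hex hh him hm1 hm) hP hep0 hep hw hw' n hη

end PBR.PLX

end
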