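import Pool.Agent.PHK.AsmS
import Pool.Agent.PLX.NUGC.SpPin

/-!
# (P): groups of spectators against the objects, pinned energies

`spec_pin6`: for an object of height at most `T1`, the modulus of the factor of the groups at their true
heights, times the exponential of the energies with the groups pinned at `T1`, times the share of the
object in the far constants, is at most a constant.
-/

set_option autoImplicit false

noncomputable section

open MeasureTheory Finset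
open scoped ENNReal

namespace PHK

open NUO NUP1 NUGC NUGC.PLX
open NUC43 (sg)
open NUSea.PLX.H0 (Gd IG TG cstF)
open NUSp (kG spo qc)
open Pool.Agent.NUM3 (sgn)

lemma kq_abs6 (K : Kd6) : |kq6 K| ≤ 2 := by
  cases K <;> norm_num [kq6]

/-- one elementary spectator -/
theorem ek_pin6 : ∃ C : ℝ, 1 ≤ C ∧ ∀ (x : Xo) (T1 : ℝ), |ht x| ≤ T1 →
    ∀ (a : Bool) (k : Ek) (τ : ℝ),
    facL6 (Ek.f a k τ) (parts6 par6 x) *
      Real.exp (ES (obSr6 par6 x) (Ek.src a k (NUSp.pin T1 τ))) ≤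
        C * Real.exp (sg (sp x) * kq6 (k6 x) * (2 * (sg a * k.q)) * NUSp.exc T1 τ) := by
  obtain ⟨C, h0, hC⟩ := ES_ek6
  obtain ⟨C', h0', hC'⟩ := facL_ek6
  refine ⟨Real.exp (C' + C + 8), Real.one_le_exp (by linarith), fun x T1 hT a k τ => ?_⟩
  have h1 := hC' x a k τ
  have h2 := (abs_le.1 (hC x a k (NUSp.pin T1 τ))).2
  rw [sgn_beq67] at h1 h2
  obtain ⟨A, hA⟩ : ∃ A, A = sg (sp x) * sg a * (kq6 (k6 x) * k.q) := ⟨_, rfl⟩
  rw [← hA] at h1 h2
  obtain ⟨E, hE⟩ : ∃ E, E = ES (obSr6 par6 x) (Ek.src a k (NUSp.pin T1 τ)) := ⟨_, rfl⟩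
  rw [← hE] at h2 ⊢
  have hAb : |2 * A| ≤ 8 := by
    rw [hA, abs_mul, abs_mul, abs_mul, abs_mul]
    have s1 : |sg (sp x)| = 1 := by cases sp x <;> norm_num [sg]
    have s2 : |sg a| = 1 := by cases a <;> norm_num [sg]
    have s3 := kq_abs6 (k6 x)
    have s4 := Ek.q_abs67 k
    rw [s1, s2, abs_of_pos (by norm_num : (0 : ℝ) < 2)]
    have : |kq6 (k6 x)| * |k.q| ≤ 2 * 2 :=
      mul_le_mul s3 s4 (abs_nonneg _) (by norm_num)
    linarith
  obtain ⟨u, hu⟩ : ∃ u, u = Real.log (Real.cosh (ht x - τ)) := ⟨_, rfl⟩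
  obtain ⟨v, hv⟩ : ∃ v, v = Real.log (Real.cosh (ht x - NUSp.pin T1 τ)) := ⟨_, rfl⟩
  rw [← hu] at h1
  rw [← hv] at h2
  have hd : |u - v - NUSp.exc T1 τ| ≤ 1 := by
    have a1 := abs_sub_pinT (τ := τ) hT
    have l1 := log_cosh_ge (ht x - τ)
    have l2 := log_cosh_le (ht x - τ)
    have l3 := log_cosh_ge (ht x - NUSp.pin T1 τ)
    have l4 := log_cosh_le (ht x - NUSp.pin T1 τ)
    have l5 := Real.log_two_lt_d9
    rw [← hu] at l1 l2
    rw [← hv] at l3 l4
    have l2' := (abs_le.1 l2).2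
    have l4' := (abs_le.1 l4).2
    rw [abs_le]
    constructor <;> linarith
  have hfin : 2 * A * u + E ≤ C + 8 + 2 * A * NUSp.exc T1 τ := by
    have h3 : 2 * A * (u - v - NUSp.exc T1 τ) ≤ 8 := by
      refine (le_abs_self _).trans ?_
      rw [abs_mul]
      calc |2 * A| * |u - v - NUSp.exc T1 τ| ≤ 8 * 1 :=
            mul_le_mul hAb hd (abs_nonneg _) (by norm_num)
        _ = 8 := by norm_num
    nlinarith
  calc facL6 (Ek.f a k τ) (parts6 par6 x) * Real.exp E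
      ≤ Real.exp C' * Real.exp (2 * A * u) * Real.exp E :=
        mul_le_mul_of_nonneg_right h1 (Real.exp_pos _).le
    _ = Real.exp (C' + (2 * A * u + E)) := by rw [Real.exp_add, Real.exp_add]; ring
    _ ≤ Real.exp (C' + (C + 8 + 2 * A * NUSp.exc T1 τ)) := Real.exp_le_exp.2 (by linarith)
    _ = _ := by
        rw [show C' + (C + 8 + 2 * A * NUSp.exc T1 τ) = (C' + C + 8) + 2 * A * NUSp.exc T1 τ by ring,
          Real.exp_add]
        rw [show 2 * A * NUSp.exc T1 τ =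
          sg (sp x) * kq6 (k6 x) * (2 * (sg a * k.q)) * NUSp.exc T1 τ by rw [hA]; ring]

/-- one group -/
theorem grp_pin6 : ∃ C : ℝ, 1 ≤ C ∧ ∀ (x : Xo) (T1 : ℝ), |ht x| ≤ T1 → ∀ g : Gd,
    facL6 (spL (lsG g)) (parts6 par6 x) *
      Real.exp (∑ j, ES (obSr6 par6 x)
        (NUSp.srcG g.c g.rt g.σ (NUSp.pin T1 g.τ) j)) ≤
        C * Real.exp (sg (sp x) * kq6 (k6 x) * (NUSp.gq true g.G * NUSp.exc T1 g.τ)) := by
  obtain ⟨C, h1, hC⟩ := ek_pin6
  refine ⟨C ^ 3, one_le_pow₀ h1, fun x T1 hT g => ?_⟩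
  have e1 : facL6 (spL (lsG g)) (parts6 par6 x) = ∏ j : Fin (kG g.c g.rt).length,
      facL6 (Ek.f (spo g.σ ((kG g.c g.rt).get j).1) ((kG g.c g.rt).get j).2 g.τ)
        (parts6 par6 x) := by
    have e0 : spL (lsG g) = fun a u => ∏ j : Fin (kG g.c g.rt).length,
        Ek.f (spo g.σ ((kG g.c g.rt).get j).1) ((kG g.c g.rt).get j).2 g.τ a u := by
      funext a u
      unfold spL lsG
      rw [List.map_map, ← List.prod_ofFn]
      congr 1
      conv_lhs => rw [← List.ofFn_get (kG g.c g.rt)]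
      rw [List.map_ofFn]
      rfl
    rw [e0]
    exact facL6_prod _ _ _
  rw [e1, Real.exp_sum, ← prod_mul_distrib]
  have hC0 : 0 ≤ C := by linarith
  calc ∏ j : Fin (kG g.c g.rt).length,
        facL6 (Ek.f (spo g.σ ((kG g.c g.rt).get j).1) ((kG g.c g.rt).get j).2 g.τ)
          (parts6 par6 x) * Real.exp (ES (obSr6 par6 x)
            (NUSp.srcG g.c g.rt g.σ (NUSp.pin T1 g.τ) j))
      ≤ ∏ j : Fin (kG g.c g.rt).length, C * Real.exp (sg (sp x) * kq6 (k6 x) *
          (2 * (sg (spo g.σ ((kG g.c g.rt).get j).1) * ((kG g.c g.rt).get j).2.q)) *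
            NUSp.exc T1 g.τ) :=
        prod_le_prod (fun j _ => mul_nonneg
          (facL6_nonneg (fun s u => Ek.f_nonneg _ _ _ _ _) _) (Real.exp_pos _).le)
          fun j _ => hC x T1 hT _ _ _
    _ = C ^ (kG g.c g.rt).length * Real.exp (sg (sp x) * kq6 (k6 x) *
          (NUSp.gq true g.G * NUSp.exc T1 g.τ)) := by
        rw [prod_mul_distrib, prod_const, card_univ, Fintype.card_fin, ← Real.exp_sum]
        congr 2
        rw [gq_true, ← sum_q, ← sum_mul, ← mul_sum]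
        ring
    _ ≤ _ := by
        refine mul_le_mul_of_nonneg_right ?_ (Real.exp_pos _).le
        exact pow_le_pow_right₀ h1 (NUSp.kG_len _ _)

/-- **a family of groups against an object**, pinned energies and far constants -/
theorem spec_pin6 : ∃ C : ℝ, 1 ≤ C ∧ ∀ (x : Xo) (T1 : ℝ), |ht x| ≤ T1 →
    ∀ (n : ℕ) (g : Fin n → Gd), n ≤ 2 →
    facL6 (spF g) (parts6 par6 x) *
      Real.exp (∑ d, ES (obSr6 par6 x) (TG (fun i => (g i).pin T1) d) -
        cstF T1 g true * (sg (sp x) * kq6 (k6 x))) ≤ C := by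
  obtain ⟨C, h1, hC⟩ := grp_pin6
  refine ⟨C ^ 2, one_le_pow₀ h1, fun x T1 hT n g hn => ?_⟩
  have hC0 : 0 ≤ C := by linarith
  have e1 : facL6 (spF g) (parts6 par6 x) =
      ∏ l, facL6 (spL (lsG (g l))) (parts6 par6 x) := facL6_prod _ _ _
  have e2 : ∑ d, ES (obSr6 par6 x) (TG (fun i => (g i).pin T1) d) =
      ∑ l, ∑ j, ES (obSr6 par6 x)
        (NUSp.srcG (g l).c (g l).rt (g l).σ (NUSp.pin T1 (g l).τ) j) := NUSea.PLX.H0.sum_TG _ _
  have e3 : ∑ l, ∑ j, ES (obSr6 par6 x)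
        (NUSp.srcG (g l).c (g l).rt (g l).σ (NUSp.pin T1 (g l).τ) j) -
        cstF T1 g true * (sg (sp x) * kq6 (k6 x)) =
      ∑ l, (∑ j, ES (obSr6 par6 x)
        (NUSp.srcG (g l).c (g l).rt (g l).σ (NUSp.pin T1 (g l).τ) j) -
        sg (sp x) * kq6 (k6 x) * (NUSp.gq true (g l).G * NUSp.exc T1 (g l).τ)) := by
    rw [sum_sub_distrib, ← mul_sum]
    unfold cstF
    ring
  rw [e1, e2, e3, Real.exp_sum, ← prod_mul_distrib]
  calc ∏ l, facL6 (spL (lsG (g l))) (parts6 par6 x) * Real.exp (∑ j, ES (obSr6 par6 x)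
        (NUSp.srcG (g l).c (g l).rt (g l).σ (NUSp.pin T1 (g l).τ) j) -
        sg (sp x) * kq6 (k6 x) * (NUSp.gq true (g l).G * NUSp.exc T1 (g l).τ))
      ≤ ∏ _l : Fin n, C := by
        refine prod_le_prod (fun l _ => mul_nonneg (facL6_nonneg (fun s u => ?_) _)
          (Real.exp_pos _).le) fun l _ => ?_
        · rw [← spM_get]
          exact spM_nonneg _ _ _
        · have h := hC x T1 hT (g l)
          rw [Real.exp_sub, ← mul_div_assoc, div_le_iff₀ (Real.exp_pos _)]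
          exact h
    _ = C ^ n := by rw [prod_const, card_univ, Fintype.card_fin]
    _ ≤ C ^ 2 := pow_le_pow_right₀ h1 hn

end PHK

end
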