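import Pool.Agent.PHK.S4R0
import Pool.Agent.PHK.SpPin
import Pool.Agent.PHK.G0
import Pool.Agent.PLX.PotH.DomR
import Pool.Agent.PLX.PotH.CutI
import Pool.Agent.PLX.PB.HPot
import Pool.Agent.PLX.PB.KGeoA

/-!
# (P): the gas bound for geometries with rows `0`, ends `0`, and atoms

Sea `NUSea.seaP`.

* **`gOk_at6`**: a geometry with the effective numbers of rows `Fil.ne a m` at `0`, the ends at `0` and a
  further factor `dV` dominated by atoms (`HS (x m)`, `AtOk K δ (x m)`) satisfies `GOk6`;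
* **`gOk_0`**: the same for the one body data `(ob06 (m - 1) β ex (F0 m)).mul (dV m)`;
* **`gOk_G06`**, `s4R_G06`, `perG_G06`: the geometry `G06 ex F0`; `s4R_GI6`.
-/

set_option autoImplicit false
set_option linter.unusedSectionVars false

noncomputable section

open Complex MeasureTheory Set Filter Topology
open PLX (Fil Ends)

namespace PBR.PLX

open NUGC.PLX (OB ThN etaC etaC' seaG)
open NUO (Xo pA Tb TW)
open NUMF (l l_pos)
open NUAct (zt)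
open NUKer (iD)
open PBH.PLX (Atm AtOk HS HS')
open PotH.PLX (sN oneEH6)
open PBO.PLX (Geo GOk6 rwO rwX)

attribute [local instance] NUSea.seaP

/-- the potential of a continuous bounded function is integrable -/
private theorem int_PH {f : ℝ → ℝ} {B : ℝ} (c : ℝ) (hc : Continuous f) (hB : ∀ t, |f t| ≤ B) :
    Integrable fun t => c * NUSea.P t * f t := by
  have h1 : Integrable fun t => c * NUSea.P t := NUSea.P_int.const_mul c
  exact h1.mul_bdd hc.aestronglyMeasurable (Filter.Eventually.of_forall fun t => by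
    rw [Real.norm_eq_abs]
    exact hB t)

variable [Fil]

section gen

variable [Ends]

/-- **the geometry with rows `0`, ends `0` and atoms** -/
theorem gOk_at6 {G : Geo} {n n0 : ℕ} {h0 K δ : ℝ} (hK : 0 ≤ K) (hδ : 0 < δ) (hδ1 : δ ≤ l / 2)
    (hh : 0 ≤ h0) {x : ℕ → Bool → Fin n → Atm} (hx : ∀ m, AtOk K δ (x m))
    {dV : ℕ → Bool → ℂ → ℝ}
    (hd : ∀ (m : ℕ) (a : Bool) (η : ℝ → ℝ), (∀ t, |η t| ≤ δ / 2) → ∀ t,
      dV m a (pA η t) ≤ Real.exp (HS (x m) (fun _ => η) a t))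
    (hn : ∀ m β, (G.B m β).Nn)
    (hR : ∀ m : ℕ, 1 ≤ m → ∀ (β : ℝ) (a : Bool) (u : ℂ), (G.B m β).R a u =
      2 * Real.cos NUP1.l * (rwO 0 u ^ Fil.ne a m * rwX 0 u ^ Fil.ne (!a) m) * PotH.PLX.Th0 u *
        dV m a u)
    (hφ : ∀ m : ℕ, 1 ≤ m → ∀ (β : ℝ) (a : Bool), ∃ (Kr : ℕ) (W ex : List ℂ),
      (G.B m β).φ a = NUP1.phi β W ∧ PotH.RwI n0 h0 (Fil.ne a m) Kr W ex)
    (hEM : ∀ e1 : ℝ, 0 < e1 → e1 ≤ 1 / 100 → ∀ J : ℝ, 0 ≤ J → ∃ CH : ℝ, ∃ m0 : ℕ, ∀ m ≥ m0,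
      NUSea.PLX.MF (sN m) + ∑ a, ∫ t, sN m a * NUSea.P t *
        HS (x m) (fun a => Fil.cv a (etaC e1 J m m)) a t ≤ G.EM m + CH)
    (h1 : ∃ K1 : ℝ, 0 ≤ K1 ∧ ∀ ep : ℝ, 0 < ep → ep ≤ 1 / 100 → ∀ e1 : ℝ, 0 < e1 → e1 ≤ 1 / 100 →
      ∀ J : ℝ, 0 ≤ J → ∃ m0 : ℕ, ∀ m ≥ m0, ∀ (r : ℕ) (O : Fin r → Xo) (i : Fin r),
        oneEH6 m (etaC e1 J m m) (TW ep e1 m) O i ≤ G.one m ep e1 J r O i + K1)
    (hM : ∃ C : ℝ, 0 ≤ C ∧ ∀ (m : ℕ) (g : NUSea.PLX.H0.Gd), seaG (sN m) g ≤ G.MF m g.σ g.c g.w + C) :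
    GOk6 G where
  nn := hn
  pot := by
    have hl := l_pos
    have hpi := Real.pi_lt_four
    have h8 := PBH.l8
    obtain ⟨B0, N0, hB0, hN0, H⟩ := PBH.PLX.hok (3 + n) (K := max 1 K) (δ := δ)
      (zero_le_one.trans (le_max_left _ _)) hδ (by linarith)
    refine ⟨B0, N0, hB0, hN0, ?_⟩
    intro ep hep hep1 e1 he he1 J hJ
    obtain ⟨Cc, hCc, Cb, m1, hcrv⟩ := PBO.PLX.crvP_etaC (J := J) he he1 hJ
    obtain ⟨C, hC, hint⟩ := PotH.PLX.int_end (e1 := e1) (Cc := Cc) he (by linarith) (by linarith)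
    obtain ⟨m2, H⟩ := H e1 he
    obtain ⟨CH, m3, hEM⟩ := hEM e1 he he1 J hJ
    obtain ⟨m4, hm4⟩ := PBH.PLX.eventually_small (A0 := 0) he (by linarith : (0 : ℝ) < δ / 4)
    refine ⟨2 * C + CH, max (max m1 m2) (max m3 m4), fun m hm => ?_⟩
    simp only [ge_iff_le, max_le_iff] at hm
    obtain ⟨⟨g1, g2⟩, g3, g4⟩ := hm
    obtain ⟨hm1, hT, hc, -⟩ := hcrv m g1
    have hS := PBH.PLX.sm_of hc (hm4 m g4).1
    have hη2 : ∀ t, |etaC e1 J m m t| ≤ δ / 2 := fun t => (hS.le t).trans (by linarith)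
    have hη3 : ∀ a t, |Fil.cv a (etaC e1 J m m) t| ≤ δ / 2 := fun a t => Fil.abs_cv_le_of (hη2 t)
    have hE := PotH.PLX.Hend_eq hδ hδ1 hη2
    have hat : AtOk (max 1 K) δ (PBK.PLX.app PotH.PLX.aend (x m)) :=
      PBK.PLX.AtOk.app (PBK.PLX.AtOk.mono (PotH.PLX.aend_ok hδ1) (le_max_left _ _))
        (PBK.PLX.AtOk.mono (hx m) (le_max_right _ _))
    have hcv : ∀ a, Continuous (Fil.cv a (etaC e1 J m m)) := fun a =>
      continuous_iff_continuousAt.2 fun t => ((hS.cv a).d t).continuousAt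
    have hoks : ∀ {k : ℕ} {y : Bool → Fin k → Atm} {K' : ℝ}, 0 ≤ K' → AtOk K' δ y → ∀ a : Bool,
        Integrable fun t => sN m a * NUSea.P t * HS y (fun a => Fil.cv a (etaC e1 J m m)) a t := by
      intro k y K' hK' hy a
      obtain ⟨B1, N1, -, -, A1, hA1, H1⟩ := PBH.PLX.hok_sm k hK' hδ (by linarith)
      have h7 := H1 (fun a => Fil.cv a (etaC e1 J m m)) _ (fun a => hS.cv a) y hy 0 0 A1 le_rfl le_rfl
      exact int_PH _ (continuous_iff_continuousAt.2 fun t => (h7.d a t).continuousAt) (h7.le a)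
    refine ⟨HS (PBK.PLX.app PotH.PLX.aend (x m)) fun a => Fil.cv a (etaC e1 J m m), _,
      fun d hd => (H m g2 Cc _ _ hc _ hat d _ hd).hsk,
      fun a t => ?_, ?_⟩
    · have p1 := (PotH.PLX.Th0_pA hδ (by linarith) (hη3 a) t).1
      have p4 := (PBH.PLX.ThN_pA hδ hδ1 (hη3 a) t).1
      have e2 : PotH.PLX.Th0 (pA (Fil.cv a (etaC e1 J m m)) t) =
          ThN (pA (Fil.cv a (etaC e1 J m m)) t) *
            Real.exp (HS PotH.PLX.aend (fun a => Fil.cv a (etaC e1 J m m)) a t) := by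
        rw [← hE]
        unfold PotH.PLX.Hend
        rw [Real.exp_sub, Real.exp_log p1, Real.exp_log p4]
        field_simp
      rw [hR m hm1, PotH.PLX.rw0_vb m a ((hη3 a t).trans_lt (by linarith)), e2, PBK.PLX.HS_app,
        Real.exp_add]
      have h3 := hd m a _ (hη3 a) t
      have h5 : HS (x m) (fun _ => Fil.cv a (etaC e1 J m m)) a t =
          HS (x m) (fun a => Fil.cv a (etaC e1 J m m)) a t := rfl
      rw [h5] at h3
      have hcos : 0 ≤ Real.cos NUP1.l := NUGC.PLX.cosl_nonneg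
      calc 2 * Real.cos NUP1.l * Real.exp (NUSea.PLX.vb (sN m) a
              (zt (iD (Fil.cv a (etaC e1 J m m))) t)).re *
            (ThN (pA (Fil.cv a (etaC e1 J m m)) t) *
              Real.exp (HS PotH.PLX.aend (fun a => Fil.cv a (etaC e1 J m m)) a t)) *
            dV m a (pA (Fil.cv a (etaC e1 J m m)) t) ≤
          2 * Real.cos NUP1.l * Real.exp (NUSea.PLX.vb (sN m) a
              (zt (iD (Fil.cv a (etaC e1 J m m))) t)).re *
            (ThN (pA (Fil.cv a (etaC e1 J m m)) t) *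
              Real.exp (HS PotH.PLX.aend (fun a => Fil.cv a (etaC e1 J m m)) a t)) *
            Real.exp (HS (x m) (fun a => Fil.cv a (etaC e1 J m m)) a t) :=
            mul_le_mul_of_nonneg_left h3 (by positivity)
        _ = _ := by ring
    · have c1 := (abs_le.1 (hint m _ _ hm1 hc true)).2
      have c2 := (abs_le.1 (hint m _ _ hm1 hc false)).2
      rw [hE] at c1 c2
      have h6 := hEM m g3
      have q1 := hoks zero_le_one (PotH.PLX.aend_ok hδ1)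
      have q2 := hoks hK (hx m)
      have e3 : ∀ a : Bool, ∫ t, sN m a * NUSea.P t *
          HS (PBK.PLX.app PotH.PLX.aend (x m)) (fun a => Fil.cv a (etaC e1 J m m)) a t =
          (∫ t, sN m a * NUSea.P t * HS PotH.PLX.aend (fun a => Fil.cv a (etaC e1 J m m)) a t) +
            ∫ t, sN m a * NUSea.P t * HS (x m) (fun a => Fil.cv a (etaC e1 J m m)) a t := by
        intro a
        rw [← integral_add (q1 a) (q2 a)]
        refine integral_congr_ae (ae_of_all _ fun t => ?_)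
        simp only [PBK.PLX.HS_app]
        ring
      rw [Fintype.sum_bool] at h6 ⊢
      rw [e3, e3]
      linarith
  cut := by
    intro ep hep hep1 e1 he he1 J hJ
    obtain ⟨Cc, hCc, Cb, m1, hcrv⟩ := PBO.PLX.crvP_etaC (J := J) he he1 hJ
    obtain ⟨C0, hC0, m2, hm2, H⟩ := PotH.PLX.exists_cutR hep hep1 he he1 Cc n0 hh
    refine ⟨C0, hC0, max m1 m2, fun m hm => ?_⟩
    obtain ⟨hm1, hT, hc, -⟩ := hcrv m ((le_max_left _ _).trans hm)
    obtain ⟨cr, Bc, Bc', hB, hle⟩ := H m ((le_max_right _ _).trans hm)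
    refine ⟨cr, Bc, Bc', hB, fun a t => ?_⟩
    obtain ⟨Kr, W, ex, e1', hW⟩ := hφ m hm1 (4 / 3 * (1 - ep)) a
    rw [e1']
    exact hle a Kr W ex hW _ _ hc t
  one := h1
  MF := hM

end gen

/-! ### rows `0`, ends `0` -/

section ends

attribute [local instance] PLX.ends1

/-- the own and the cross part of the rows at `0` -/
theorem rows_0 (m : ℕ) (a : Bool) (u : ℂ) :
    PBX.PLX.rwC a 0 u ^ (m - 1) * rw1 u = rwO 0 u ^ Fil.ne a m * rwX 0 u ^ Fil.ne (!a) m := by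
  have e : ∀ b : Bool, Fil.ne b m = Fil.n b * (m - 1) + 1 := by
    intro b
    cases b <;> rfl
  have e1 : PBX.PLX.rwC a 0 u = rwO 0 u ^ Fil.n a * rwX 0 u ^ Fil.n (!a) := by
    unfold PBX.PLX.rwC PBO.PLX.rwO PBO.PLX.rwX
    rw [sub_zero, inv_pow, ← pow_mul, div_eq_mul_inv]
    ring
  have e2 : rw1 u = rwO 0 u * rwX 0 u := by
    unfold rw1 PBO.PLX.rwO PBO.PLX.rwX
    rw [sub_zero, div_eq_mul_inv]
    ring
  rw [e a, e (!a), e1, e2, mul_pow, ← pow_mul, ← pow_mul, pow_succ, pow_succ]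
  ring

/-- **the geometry with rows `0`, ends `0`, one body data `(ob06 ..).mul (dV m)`** -/
theorem gOk_0 {G : Geo} {n n0 : ℕ} {h0 K δ : ℝ} (hK : 0 ≤ K) (hδ : 0 < δ) (hδ1 : δ ≤ l / 2)
    (hh : 0 ≤ h0) {ex : List ℂ} (hl : ex.length ≤ n0)
    (hex : ∀ w ∈ ex, |w.re| ≤ l / 5 ∧ |w.im| ≤ h0) {F0 : ℕ → Bool → ℂ → ℂ}
    {x : ℕ → Bool → Fin n → Atm} (hx : ∀ m, AtOk K δ (x m)) {dV : ℕ → Bool → ℂ → ℝ}
    (hd : ∀ (m : ℕ) (a : Bool) (η : ℝ → ℝ), (∀ t, |η t| ≤ δ / 2) → ∀ t,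
      dV m a (pA η t) ≤ Real.exp (HS (x m) (fun _ => η) a t))
    (hn : ∀ m β, (G.B m β).Nn)
    (hB : ∀ m : ℕ, 1 ≤ m → ∀ β : ℝ, G.B m β = (ob06 (m - 1) β ex (F0 m)).mul (dV m))
    (hEM : ∀ e1 : ℝ, 0 < e1 → e1 ≤ 1 / 100 → ∀ J : ℝ, 0 ≤ J → ∃ CH : ℝ, ∃ m0 : ℕ, ∀ m ≥ m0,
      NUSea.PLX.MF (sN m) + ∑ a, ∫ t, sN m a * NUSea.P t *
        HS (x m) (fun a => Fil.cv a (etaC e1 J m m)) a t ≤ G.EM m + CH)
    (h1 : ∃ K1 : ℝ, 0 ≤ K1 ∧ ∀ ep : ℝ, 0 < ep → ep ≤ 1 / 100 → ∀ e1 : ℝ, 0 < e1 → e1 ≤ 1 / 100 →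
      ∀ J : ℝ, 0 ≤ J → ∃ m0 : ℕ, ∀ m ≥ m0, ∀ (r : ℕ) (O : Fin r → Xo) (i : Fin r),
        oneEH6 m (etaC e1 J m m) (TW ep e1 m) O i ≤ G.one m ep e1 J r O i + K1)
    (hM : ∃ C : ℝ, 0 ≤ C ∧ ∀ (m : ℕ) (g : NUSea.PLX.H0.Gd), seaG (sN m) g ≤ G.MF m g.σ g.c g.w + C) :
    GOk6 G := by
  refine gOk_at6 (n0 := n0 + 1) hK hδ hδ1 hh hx hd hn (fun m hm β a u => ?_) (fun m hm β a => ?_)
    hEM h1 hM
  · rw [hB m hm β]
    show 2 * Real.cos NUP1.l * PBX.PLX.rwC a 0 u ^ (m - 1) * (rw1 u * PBX.Th0 u) * dV m a u = _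
    rw [← rows_0]
    have e : PBX.Th0 u = PotH.PLX.Th0 u := rfl
    rw [e]
    ring
  · rw [hB m hm β]
    refine ⟨Fil.n a * (m - 1), List.replicate (Fil.n a * (m - 1)) 0 ++ ex, ex, rfl, ?_⟩
    have e : Fil.ne a m = Fil.n a * (m - 1) + 1 := by
      cases a <;> rfl
    exact { perm := List.Perm.refl _
            len := hl.trans (by omega)
            pt := hex
            up := by omega
            dn := by omega }

/-- the sea term of the groups -/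
theorem seaG_mfs (s : Bool → ℝ) (g : NUSea.PLX.H0.Gd) :
    seaG s g = PB0.PLX.mfs s PB0.PLX.MFo PB0.PLX.MFx g.σ g.c g.w := by
  rw [NUGC.PLX.seaG_eq]
  exact PB0.PLX.sum_gp0 s g.c g.σ g.w

variable {n0 : ℕ} {h0 : ℝ} {ex : List ℂ} {F0 : ℕ → Bool → ℂ → ℂ}

/-- **the geometry at rows `0`** -/
theorem gOk_G06 (hh : 0 ≤ h0) (hl : ex.length ≤ n0) (hex : ∀ w ∈ ex, |w.re| ≤ l / 5 ∧ |w.im| ≤ h0) :
    GOk6 (G06 ex F0) := by
  have hl0 := l_pos
  refine gOk_0 (n := 0) (K := 0) (δ := l / 2) (F0 := F0) (x := fun _ _ => Fin.elim0)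
    (dV := fun _ _ _ => 1) le_rfl (by positivity) le_rfl hh hl hex (fun m a i => i.elim0)
    (fun m a η _ t => ?_) G06_nn (fun m hm β => ?_) (fun e1 _ _ J _ => ⟨0, 0, fun m _ => ?_⟩)
    ⟨0, le_rfl, fun ep _ _ e1 _ _ J _ => ⟨0, fun m _ r O i => ?_⟩⟩ ⟨0, le_rfl, fun m g => ?_⟩
  · unfold PBH.PLX.HS
    simp
  · rw [G06_B]
    unfold NUGC.PLX.OB.mul ob06
    simp only [mul_one]
  · unfold PBH.PLX.HS
    simp only [Finset.univ_eq_empty, Finset.sum_empty, mul_zero, integral_zero,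
      Finset.sum_const_zero, add_zero]
    exact le_rfl
  · rw [G06_one, add_zero]
  · rw [seaG_mfs, add_zero]
    exact le_rfl

/-- **the gas in the presence of objects and groups at rows `0`** -/
theorem s4R_G06 (hh : 0 ≤ h0) (hl : ex.length ≤ n0) (hex : ∀ w ∈ ex, |w.re| ≤ l / 5 ∧ |w.im| ≤ h0) :
    PBO.PLX.S4R6 (G06 ex F0) := PBO.PLX.s4R6 (gOk_G06 hh hl hex)

/-- the points `± i` -/
theorem exI_pt : ∀ w ∈ [I, -I], |w.re| ≤ l / 5 ∧ |w.im| ≤ 1 := by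
  have hl := l_pos
  intro w hw
  simp only [List.mem_cons, List.not_mem_nil, or_false] at hw
  rcases hw with rfl | rfl
  · simp only [I_re, abs_zero, I_im, abs_one, le_refl, and_true]
    positivity
  · simp only [neg_re, I_re, neg_zero, abs_zero, neg_im, I_im, abs_neg, abs_one, le_refl, and_true]
    positivity

/-- **cutoffs of the quanta over `± i`** -/
theorem gOk_GI6 : GOk6 (G06 [I, -I] F0) := gOk_G06 (n0 := 2) zero_le_one le_rfl exI_pt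

theorem s4R_GI6 : PBO.PLX.S4R6 (G06 [I, -I] F0) := PBO.PLX.s4R6 gOk_GI6

/-- **the tilted bounds for the families of groups at rows `0`** -/
theorem perG_G06 (hS : PHK.StabProd6 PHK.par6) (hh : 0 ≤ h0) (hl : ex.length ≤ n0)
    (hex : ∀ w ∈ ex, |w.re| ≤ l / 5 ∧ |w.im| ≤ h0) (h2 : PHK.PtL 2 2 ex)
    (hF : ∀ k : ℕ, 1 ≤ k → F0 k = F0K k) :
    ∃ (C c b c1 Ca : ℝ) (k : ℕ), 0 < C ∧ 0 < c ∧ 0 < b ∧ 0 < c1 ∧ 0 ≤ Ca ∧
      PBO.PLX.PerGR6 (G06 ex F0) C c b k c1 Ca := by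
  obtain ⟨C3, -, h3⟩ := PHK.spec_pin6
  exact PBO.PLX.perG_ofR6 G06_nn hS h3 (s4R_G06 hh hl hex) (oneR_G06 h2 hF)

theorem perG_GI6 (hS : PHK.StabProd6 PHK.par6) (hF : ∀ k : ℕ, 1 ≤ k → F0 k = F0K k) :
    ∃ (C c b c1 Ca : ℝ) (k : ℕ), 0 < C ∧ 0 < c ∧ 0 < b ∧ 0 < c1 ∧ 0 ≤ Ca ∧
      PBO.PLX.PerGR6 (G06 [I, -I] F0) C c b k c1 Ca :=
  perG_G06 hS (n0 := 2) zero_le_one le_rfl exI_pt (PHK.PtL.II le_rfl one_le_two) hF

end ends

end PBR.PLX

end
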