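import Pool.Agent.PHK.Oth16
import Pool.Agent.PHK.CutV6
import Pool.Agent.PHK.R0FF6
import Pool.Agent.PHK.Dir6
import Pool.Agent.PHK.S4G0
import Pool.Agent.PHK.LogD6

/-!
# (P): the classes at rows `0`, ends `0`

* `D06 ep k`: the data with `k` effective rows `0`, cutoffs of the quanta over the rows and `± i`, of the
  strings `gV6 k a`; `K06`: its classes; `kD06`: the kernels of D1, D1'; `isK06`, `cut06`;
* **`clsW06`**: the class formula of W W at every height from `FFth`; **`ownD06`**: D1, D1'.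
-/

set_option autoImplicit false
set_option linter.unusedSectionVars false

noncomputable section

open Complex MeasureTheory Finset
open scoped ENNReal
open PLX (Fil Ends)

namespace PBO.PLX

open NUO NUP1 NUCR NUP1S NUP1S.Ab NUP1S.AbC NUP1S.AbG NURow NUP1.Leg NUGC NUGC.PLX
open PHK
open PBR.PLX (Ch6 okC6 aXv aYv obV6 ClsV6 ClsD6 YV6 YD6 R06 RZW R0_WW_FF6 gF6_R0)
open PBF.PLX (Ins Crs)
open PBTV.PLX (gV6 meas_gV6)
open PBU.PLX (T1L)
open PB0.PLX (KRU kDRU IsK CutB isK_RU kDRU_0 ownDLe0 MFk MFk_eq le_rows)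
open NUGC.PLX (beC)
open _root_.Pool.Agent.PLX (RU rwq yq GF6 FFth hI6_par6)

attribute [local instance] NUSea.seaP PLX.ends1

variable [Fil]

/-- **the data with `k` effective rows `0`** -/
def D06 (ep : ℝ) (k : ℕ) : RU (k - 1) (Fil.q * (k - 1)) :=
  R06 (k - 1) (beC ep) [I, -I] (gV6 k true) (gV6 k false)

/-- its classes -/
def K06 (ep : ℝ) (k : ℕ) : PBQ.PLX.KD := KRU (D06 ep k)

/-- the kernels of D1 (`true`), D1' -/
def kD06 (ep : ℝ) (k : ℕ) : Bool → ℂ → ℂ := kDRU (D06 ep k)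

theorem K06_Z (ep : ℝ) (k : ℕ) : (K06 ep k).Z = XB (D06 ep k).X (D06 ep k).Y := by
  funext a
  cases a <;> rfl

theorem isK06 (ep : ℝ) (k : ℕ) : IsK (K06 ep k) (fun a => cond a (k - 1) (Fil.q * (k - 1)))
    (NUP1.Leg.cc (k - 1)) (NUP1.Leg.cc (Fil.q * (k - 1))) (beC ep) (PBX.gP (beC ep) [I, -I])
    (PBX.gP (beC ep) [I, -I]) (gV6 k true) (gV6 k false) :=
  isK_RU _ _ _ _ _ _ _

theorem beC_bd6 {ep : ℝ} (h0 : 0 < ep) (h1 : ep ≤ 1 / 100) :
    1 < beC ep ∧ beC ep ≤ 4 / 3 ∧ 0 < beC ep := by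
  unfold NUGC.PLX.beC
  refine ⟨by linarith, by linarith, by linarith⟩

theorem norm_cc_two (m : ℕ) : ‖NUP1.Leg.cc m‖ ≤ 2 := by
  rw [PBX.norm_cc]
  have := Real.cos_le_one NUP1.l
  linarith

/-- the bounds of the cutoffs -/
theorem cut06 {ep : ℝ} (h0 : 0 < ep) (h1 : ep ≤ 1 / 100) {k : ℕ} (hk : 1 ≤ k) (a : Bool) :
    CutB (cond a (k - 1) (Fil.q * (k - 1))) k ep aV6 (beC ep) (PBX.gP (beC ep) [I, -I])
      (gV6 k a) := cutB_V6 h0.le (by linarith) hk a

/-! ### W W -/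

theorem gV6_rep (k : ℕ) (a : Bool) : gV6 k a =
    gO (T1L k) [] (fun _ : Fin (cond a (k - 1) (Fil.q * (k - 1))) => (0 : ℂ)) := by
  unfold PBTV.PLX.gV6
  rw [rwq_zero]

theorem gF06 (k : ℕ) : GF6 (fun _ : Fin (k - 1) => (0 : ℂ)) (gV6 k true) := by
  rw [gV6_rep]
  exact gF6_R0 (T1L k) (by simp) (k - 1)

theorem gF06' (k : ℕ) : GF6 (fun _ : Fin (Fil.q * (k - 1)) => (0 : ℂ)) (gV6 k false) := by
  rw [gV6_rep]
  exact gF6_R0 (T1L k) (by simp) (Fil.q * (k - 1))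

/-- the functional with the insertion `0` -/
theorem FF6_zero_ins (Z : Bool → Option O3 → ℂ → ℂ) (P : Par6) (n n' : ℕ) (η η' : Crs) :
    FF6 Z P n n' η η' (fun _ _ _ _ _ => 0) = 0 := by
  refine FF6_zero fun r O _ _ => ?_
  simp only [mul_zero, integral_zero]

/-- **The class formula of W W at every height.** -/
theorem clsW06 (hFF : FFth) {ep : ℝ} (h0 : 0 < ep) (h1 : ep ≤ 1 / 100) : ∃ m0 : ℕ, ∀ m ≥ m0,
    ∀ y : ℝ × ℝ, ClsV6 (K06 ep m).Z par6 ep (Fil.xe m) .W .W (vl (htL .W) y.1) (vl (htL .W) y.2)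
      (fun u => cw6 (K06 ep m) .W .W (vl (htL .W) y.1) (vl (htL .W) y.2) u)
      (zPt6 (K06 ep m) m .W .W y) := by
  obtain ⟨m1, hm1⟩ := exists_nat_ge (2 ^ 14 * Real.exp (8 / 3 * 1) * (2 : ℕ))
  refine ⟨m1 + 2, fun m hm y η η' hη n => ?_⟩
  obtain ⟨b1, b2, b3⟩ := beC_bd6 h0 h1
  have hl := NUP1.Bd.l_pos
  have hre : ∀ w ∈ [I, -I], |w.re| ≤ l / 2 := by
    intro w hw
    simp only [List.mem_cons, List.not_mem_nil, or_false] at hw
    rcases hw with rfl | rfl
    · rw [I_re, abs_zero]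
      positivity
    · rw [neg_re, I_re, neg_zero, abs_zero]
      positivity
  have him : ∀ w ∈ [I, -I], |w.im| ≤ 1 := by
    intro w hw
    simp only [List.mem_cons, List.not_mem_nil, or_false] at hw
    rcases hw with rfl | rfl
    · simp
    · simp
  have hmm : 2 ^ 14 * Real.exp (8 / 3 * 1) * (([I, -I] : List ℂ).length : ℕ) ≤ ((m - 1 : ℕ) : ℝ) := by
    refine le_trans (by simp) (hm1.trans ?_)
    exact_mod_cast (by omega : m1 ≤ m - 1)
  obtain ⟨u0, hu0⟩ : ∃ u0 : Ch6 × Ch6, u0 = ((false, false), (false, false)) := ⟨_, rfl⟩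
  refine ⟨fun u _ _ _ _ _ => if u = u0 then 1 else 0, fun u r O a a' z => ?_, ?_⟩
  · show ‖(if u = u0 then (1 : ℂ) else 0)‖ ≤ cw6 (K06 ep m) .W .W _ _ u
    by_cases hu : u = u0
    · rw [if_pos hu, norm_one, hu, hu0]
      refine le_of_eq ?_
      unfold cw6
      rw [if_pos ⟨⟨by simp, by simp⟩, ⟨by simp, by simp⟩⟩]
      simp [PBQ.PLX.KD.wt, wgt2, ownH6, gH6']
    · rw [if_neg hu, norm_zero]
      exact cw6_nonneg _ _ _ _ _ _
  · have h := R0_WW_FF6 (ep := ep) hFF hI6_par6 b3 b2 hre zero_le_one him (by omega : 1 ≤ m - 1) hmm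
      (gF06 m) (gF06' m) par6_good h0 h1 (w := vl (htL .W) y.1) (w' := vl (htL .W) y.2)
      (by simp [vl, htL]) (by simp [vl, htL]) n (η := η u0) (η' := η' u0)
      (fun r _ => Filter.Eventually.of_forall fun O => hη u0 r O)
    have e0 : ∀ u : Ch6 × Ch6, (if u.1.1.toNat ≤ n + aXv (Fil.xe m) .W .W u ∧
        u.2.1.toNat ≤ n + aYv (Fil.xe m) .W .W u then
        FF6 (YV6 (K06 ep m).Z .W .W (vl (htL .W) y.1) (vl (htL .W) y.2) u) par6
          (n + aXv (Fil.xe m) .W .W u - u.1.1.toNat) (n + aYv (Fil.xe m) .W .W u - u.2.1.toNat)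
          (η u) (η' u) (fun _ _ _ _ _ => if u = u0 then 1 else 0) else 0) =
        if u = u0 then FF6 (RZW (D06 ep m) (vl (htL .W) y.1) (vl (htL .W) y.2)) par6
          n (n + Fil.xn (m - 1)) (η u0) (η' u0) (fun _ _ _ _ _ => 1) else 0 := by
      intro u
      by_cases hu : u = u0
      · subst hu
        subst hu0
        rw [if_pos rfl]
        have a1 : aXv (Fil.xe m) .W .W ((false, false), (false, false)) = 0 := by
          unfold PBR.PLX.aXv aXt htN htD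
          simp
        have a2 : aYv (Fil.xe m) .W .W ((false, false), (false, false)) = Fil.xe m := by
          unfold PBR.PLX.aYv aYt htN htD
          simp
        rw [a1, a2]
        simp only [Bool.toNat_false, Nat.add_zero, Nat.sub_zero, Nat.zero_le, and_self, if_true]
        have eY : YV6 (K06 ep m).Z .W .W (vl (htL .W) y.1) (vl (htL .W) y.2)
            ((false, false), (false, false)) =
            RZW (D06 ep m) (vl (htL .W) y.1) (vl (htL .W) y.2) := by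
          funext a
          cases a <;> rfl
        rw [eY]
        rfl
      · rw [if_neg hu]
        simp only [if_neg hu]
        split_ifs
        · exact FF6_zero_ins _ _ _ _ _ _
        · rfl
    rw [Finset.sum_congr rfl fun u _ => e0 u, Finset.sum_ite_eq' , if_pos (Finset.mem_univ u0)]
    refine Eq.trans ?_ h
    show (((K06 ep m).cl .W .W).Z ((K06 ep m).Z true) ((K06 ep m).Z false) (51 / 100 * l)
      (n + htN (Fil.xe m) .W .W) (n + htN (Fil.xe m) .W .W + Fil.xe m) lX6 lY6 (vl (htL .W) y.1)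
      (vl (htL .W) y.2)) = _
    have a0 : htN (Fil.xe m) .W .W = 0 := by
      unfold htN htD
      simp
    rw [a0]
    rfl

/-! ### D1, D1' -/

/-- **the own factors of D1, D1'** -/
theorem ownD06 {MF : ℕ → Bool → NUSp.Cl → ℂ → ℝ} (hM : ∀ k a c w, MF k a c w = MFk k a c w) :
    ∀ ep : ℝ, 0 < ep → ep ≤ 1 / 100 → ∃ C : ℝ, 0 ≤ C ∧ ∃ m0 : ℕ, ∀ m ≥ m0,
      PBQ.PLX.OwnDLe (kD06 ep m) MF m C := by
  obtain ⟨C, hC, h⟩ := ownDLe0
  intro ep _ _
  refine ⟨C, hC.le, 0, fun m _ => ?_⟩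
  have e : kD06 ep m = fun o => PB0.PLX.XD0 (cond (!o) (m - 1) (Fil.q * (m - 1))) := by
    funext o
    exact kDRU_0 _ _ _ _ _ _ _ o
  rw [e]
  exact h (fun a => cond a (m - 1) (Fil.q * (m - 1))) m MF fun a c w => by rw [hM, MFk_eq]

end PBO.PLX

end
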