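import Pool.Agent.PHK.Stab

/-!
# The stability bound of the six kinds from the quadratic forms (helper92)

* `qs6 A B s K K' k = (A K K' k + sgn s * B K K' k) / 2 / (k * sk k)`: kernel of the two channels;
* `form6_nonneg`: a nonnegative form on `Kd6 → ℝ` gives a nonnegative cosine sum over a configuration;
* `Cert6 n P c0 MP MM NP NM`: the certificate: the pair energy (cores of scale `2 ^ n` removed) is the cosine
  integral of `MP`, `MM`; the forms `MP - NP`, `MM - NM` are nonnegative for every `k > 0`; the cosine integrals of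
  `NP`, `NM` are nonnegative, at least `c0` for distances `≤ 1`;
* `StabDrN6 n P c0`: the bound for ordered pairs with cores of scale `2 ^ n`; **`stabDrN6_of`**:
  `Cert6 n P c0 MP MM NP NM → StabDrN6 n P c0` (`= StabDr6 n P c0`); `stabDr6_of`.
-/

set_option autoImplicit false

open MeasureTheory Set Finset

noncomputable section

namespace PHK

open NUO (Xo sp ht)
open NUMF (sk sk_pos)
open Pool.Agent.NUM3 (sgn W2)

/-- kernel of the two channels -/
def qs6 (A B : Kd6 → Kd6 → ℝ → ℝ) (s : Bool) (K K' : Kd6) (k : ℝ) : ℝ :=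
  (A K K' k + sgn s * B K K' k) / 2 / (k * sk k)

/-- the cosine integral -/
def IQ6 (A B : Kd6 → Kd6 → ℝ → ℝ) (s : Bool) (K K' : Kd6) (t : ℝ) : ℝ :=
  ∫ k in Ioi (0 : ℝ), qs6 A B s K K' k * Real.cos (k * t)

/-! ### forms -/

theorem form_class (D : Kd6 → Kd6 → ℝ) {r : ℕ} (κ : Fin r → Kd6) (a : Fin r → ℝ) :
    ∑ i, ∑ j, a i * a j * D (κ i) (κ j) =
      ∑ K, ∑ K', (∑ i, if κ i = K then a i else 0) * (∑ j, if κ j = K' then a j else 0) * D K K' := by
  have e1 : ∀ K K' : Kd6, (∑ i, if κ i = K then a i else 0) * (∑ j, if κ j = K' then a j else 0) *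
      D K K' = ∑ i, ∑ j, if κ i = K then (if κ j = K' then a i * a j * D K K' else 0) else 0 := by
    intro K K'
    rw [Finset.sum_mul_sum, Finset.sum_mul]
    refine Finset.sum_congr rfl fun i _ => ?_
    rw [Finset.sum_mul]
    refine Finset.sum_congr rfl fun j _ => ?_
    split_ifs <;> ring
  simp only [e1]
  have e2 : ∀ K : Kd6, ∑ K', ∑ i, ∑ j, (if κ i = K then (if κ j = K' then a i * a j * D K K' else 0)
      else 0) = ∑ i, ∑ j, if κ i = K then a i * a j * D K (κ j) else 0 := by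
    intro K
    rw [Finset.sum_comm]
    refine Finset.sum_congr rfl fun i _ => ?_
    rw [Finset.sum_comm]
    refine Finset.sum_congr rfl fun j _ => ?_
    split_ifs
    · simp
    · simp
  simp only [e2]
  symm
  rw [Finset.sum_comm]
  refine Finset.sum_congr rfl fun i _ => ?_
  rw [Finset.sum_comm]
  refine Finset.sum_congr rfl fun j _ => ?_
  simp

/-- **a nonnegative form gives a nonnegative cosine sum** -/
theorem form6_nonneg {D : Kd6 → Kd6 → ℝ} (h : ∀ x : Kd6 → ℝ, 0 ≤ ∑ K, ∑ K', x K * x K' * D K K')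
    {r : ℕ} (κ : Fin r → Kd6) (w θ : Fin r → ℝ) :
    0 ≤ ∑ i, ∑ j, w i * w j * D (κ i) (κ j) * Real.cos (θ i - θ j) := by
  have h1 := h fun K => ∑ i, if κ i = K then w i * Real.cos (θ i) else 0
  have h2 := h fun K => ∑ i, if κ i = K then w i * Real.sin (θ i) else 0
  rw [← form_class D κ fun i => w i * Real.cos (θ i)] at h1
  rw [← form_class D κ fun i => w i * Real.sin (θ i)] at h2
  refine (add_nonneg h1 h2).trans (le_of_eq ?_)
  rw [← Finset.sum_add_distrib]
  refine Finset.sum_congr rfl fun i _ => ?_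
  rw [← Finset.sum_add_distrib]
  refine Finset.sum_congr rfl fun j _ => ?_
  rw [Real.cos_sub]
  ring

/-! ### the certificate -/

/-- **the certificate of the stability bound** -/
structure Cert6 (n : ℕ) (P : Par6) (c0 : ℝ) (MP MM NP NM : Kd6 → Kd6 → ℝ → ℝ) : Prop where
  mint : ∀ s K K', IntegrableOn (qs6 MP MM s K K') (Ioi 0)
  pair : ∀ s K K' x y, Dr6 n P s K K' (x - y) - ER6 P s K K' x y = IQ6 MP MM s K K' (x - y)
  nint : ∀ s K K', IntegrableOn (qs6 NP NM s K K') (Ioi 0)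
  fP : ∀ k : ℝ, 0 < k → ∀ x : Kd6 → ℝ, 0 ≤ ∑ K, ∑ K', x K * x K' * (MP K K' k - NP K K' k)
  fM : ∀ k : ℝ, 0 < k → ∀ x : Kd6 → ℝ, 0 ≤ ∑ K, ∑ K', x K * x K' * (MM K K' k - NM K K' k)
  nn : ∀ s K K' t, 0 ≤ IQ6 NP NM s K K' t
  low : ∀ s K K' t, |t| ≤ 1 → c0 ≤ IQ6 NP NM s K K' t

theorem int_cos {q : ℝ → ℝ} (h : IntegrableOn q (Ioi 0)) (t : ℝ) :
    IntegrableOn (fun k => q k * Real.cos (k * t)) (Ioi 0) :=
  Integrable.mul_bdd (c := 1) h (Continuous.aestronglyMeasurable (by fun_prop))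
    (ae_of_all _ fun k => by rw [Real.norm_eq_abs]; exact Real.abs_cos_le_one _)

/-- species sign -/
def sg6 (a : Bool) : ℝ := if a then 1 else -1

theorem sgn_same (a b : Bool) : sgn (a == b) = sg6 a * sg6 b := by
  cases a <;> cases b <;> simp [sgn, sg6]

section cert

variable {n : ℕ} {P : Par6} {c0 : ℝ} {MP MM NP NM : Kd6 → Kd6 → ℝ → ℝ}

/-- the two energies at one `k` -/
theorem point6 (h : Cert6 n P c0 MP MM NP NM) {r : ℕ} (O : Fin r → Xo) {k : ℝ} (hk : 0 < k) :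
    ∑ i, ∑ j, qs6 NP NM (sp (O i) == sp (O j)) (k6 (O i)) (k6 (O j)) k *
        Real.cos (k * (ht (O i) - ht (O j))) ≤
      ∑ i, ∑ j, qs6 MP MM (sp (O i) == sp (O j)) (k6 (O i)) (k6 (O j)) k *
        Real.cos (k * (ht (O i) - ht (O j))) := by
  have h1 := form6_nonneg (h.fP k hk) (fun i => k6 (O i)) (fun _ => 1) fun i => k * ht (O i)
  have h2 := form6_nonneg (h.fM k hk) (fun i => k6 (O i)) (fun i => sg6 (sp (O i))) fun i => k * ht (O i)
  have hs : 0 < k * sk k := mul_pos hk (sk_pos hk)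
  have h3 : 0 ≤ (∑ i, ∑ j, (1 : ℝ) * 1 * (MP (k6 (O i)) (k6 (O j)) k - NP (k6 (O i)) (k6 (O j)) k) *
        Real.cos (k * ht (O i) - k * ht (O j)) +
      ∑ i, ∑ j, sg6 (sp (O i)) * sg6 (sp (O j)) *
        (MM (k6 (O i)) (k6 (O j)) k - NM (k6 (O i)) (k6 (O j)) k) *
          Real.cos (k * ht (O i) - k * ht (O j))) / 2 / (k * sk k) :=
    div_nonneg (div_nonneg (add_nonneg h1 h2) (by norm_num)) hs.le
  rw [← sub_nonneg, ← Finset.sum_sub_distrib]
  refine h3.trans (le_of_eq ?_)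
  rw [← Finset.sum_add_distrib, Finset.sum_div, Finset.sum_div]
  refine Finset.sum_congr rfl fun i _ => ?_
  rw [← Finset.sum_add_distrib, ← Finset.sum_sub_distrib, Finset.sum_div, Finset.sum_div]
  refine Finset.sum_congr rfl fun j _ => ?_
  unfold qs6
  rw [sgn_same, mul_sub k]
  ring

/-- the sums of the cosine integrals -/
theorem sum_IQ6 (A B : Kd6 → Kd6 → ℝ → ℝ) (h : ∀ s K K', IntegrableOn (qs6 A B s K K') (Ioi 0)) {r : ℕ}
    (O : Fin r → Xo) :
    IntegrableOn (fun k => ∑ i, ∑ j, qs6 A B (sp (O i) == sp (O j)) (k6 (O i)) (k6 (O j)) k *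
      Real.cos (k * (ht (O i) - ht (O j)))) (Ioi 0) ∧
    ∑ i, ∑ j, IQ6 A B (sp (O i) == sp (O j)) (k6 (O i)) (k6 (O j)) (ht (O i) - ht (O j)) =
      ∫ k in Ioi (0 : ℝ), ∑ i, ∑ j, qs6 A B (sp (O i) == sp (O j)) (k6 (O i)) (k6 (O j)) k *
        Real.cos (k * (ht (O i) - ht (O j))) := by
  have h1 : ∀ i j, IntegrableOn (fun k => qs6 A B (sp (O i) == sp (O j)) (k6 (O i)) (k6 (O j)) k *
      Real.cos (k * (ht (O i) - ht (O j)))) (Ioi 0) := fun i j => int_cos (h _ _ _) _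
  refine ⟨integrable_finsetSum _ fun i _ => integrable_finsetSum _ fun j _ => h1 i j, ?_⟩
  rw [integral_finsetSum _ fun i _ => integrable_finsetSum _ fun j _ => h1 i j]
  refine Finset.sum_congr rfl fun i _ => ?_
  rw [integral_finsetSum _ fun j _ => h1 i j]
  rfl

/-- the bound for ordered pairs, cores of scale `2 ^ n` removed -/
abbrev StabDrN6 (n : ℕ) (P : Par6) (c0 : ℝ) : Prop := StabDr6 n P c0

/-- **the certificate gives the bound for ordered pairs** -/
theorem stabDrN6_of (h : Cert6 n P c0 MP MM NP NM) : StabDrN6 n P c0 := by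
  refine ⟨∑ K : Kd6, |IQ6 MP MM true K K 0|, Finset.sum_nonneg fun _ _ => abs_nonneg _, fun r O => ?_⟩
  set C1 : ℝ := ∑ K : Kd6, |IQ6 MP MM true K K 0| with hC1
  have hself : ∀ i, IQ6 MP MM (sp (O i) == sp (O i)) (k6 (O i)) (k6 (O i)) (ht (O i) - ht (O i)) ≤ C1 := by
    intro i
    rw [beq_self_eq_true, sub_self]
    exact (le_abs_self _).trans (Finset.single_le_sum (f := fun K => |IQ6 MP MM true K K 0|)
      (fun _ _ => abs_nonneg _) (Finset.mem_univ (k6 (O i))))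
  -- the sum without the diagonal
  have e1 : ∑ i, ∑ j ∈ univ.erase i,
      (Dr6 n P (sp (O i) == sp (O j)) (k6 (O i)) (k6 (O j)) (ht (O i) - ht (O j)) -
        ER6 P (sp (O i) == sp (O j)) (k6 (O i)) (k6 (O j)) (ht (O i)) (ht (O j))) =
      ∑ i, ∑ j, IQ6 MP MM (sp (O i) == sp (O j)) (k6 (O i)) (k6 (O j)) (ht (O i) - ht (O j)) -
        ∑ i, IQ6 MP MM (sp (O i) == sp (O i)) (k6 (O i)) (k6 (O i)) (ht (O i) - ht (O i)) := by
    rw [← Finset.sum_sub_distrib]
    refine Finset.sum_congr rfl fun i _ => ?_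
    rw [← Finset.add_sum_erase univ (fun j => IQ6 MP MM (sp (O i) == sp (O j)) (k6 (O i)) (k6 (O j))
      (ht (O i) - ht (O j))) (Finset.mem_univ i), add_sub_cancel_left]
    exact Finset.sum_congr rfl fun j _ => h.pair _ _ _ _ _
  -- the comparison
  obtain ⟨iM, eM⟩ := sum_IQ6 MP MM h.mint O
  obtain ⟨iN, eN⟩ := sum_IQ6 NP NM h.nint O
  have e2 : ∑ i, ∑ j, IQ6 NP NM (sp (O i) == sp (O j)) (k6 (O i)) (k6 (O j)) (ht (O i) - ht (O j)) ≤
      ∑ i, ∑ j, IQ6 MP MM (sp (O i) == sp (O j)) (k6 (O i)) (k6 (O j)) (ht (O i) - ht (O j)) := by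
    rw [eM, eN]
    exact setIntegral_mono_on iN iM measurableSet_Ioi fun k hk => point6 h O hk
  have e3 : c0 * W2 univ (fun i => ⌊ht (O i)⌋) ≤
      ∑ i, ∑ j, IQ6 NP NM (sp (O i) == sp (O j)) (k6 (O i)) (k6 (O j)) (ht (O i) - ht (O j)) := by
    unfold W2
    rw [Finset.mul_sum]
    refine Finset.sum_le_sum fun i _ => ?_
    rw [Finset.mul_sum]
    refine Finset.sum_le_sum fun j _ => ?_
    split_ifs with hij
    · rw [mul_one]
      exact h.low _ _ _ _ (Int.abs_sub_lt_one_of_floor_eq_floor hij).le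
    · rw [mul_zero]
      exact h.nn _ _ _ _
  have e4 : ∑ i, IQ6 MP MM (sp (O i) == sp (O i)) (k6 (O i)) (k6 (O i)) (ht (O i) - ht (O i)) ≤ C1 * r := by
    calc ∑ i, IQ6 MP MM (sp (O i) == sp (O i)) (k6 (O i)) (k6 (O i)) (ht (O i) - ht (O i)) ≤
        ∑ _i : Fin r, C1 := Finset.sum_le_sum fun i _ => hself i
      _ = C1 * r := by
          rw [Finset.sum_const, Finset.card_univ, Fintype.card_fin, nsmul_eq_mul, mul_comm]
  rw [e1]
  linarith

theorem stabDr6_of (h : Cert6 n P c0 MP MM NP NM) : StabDr6 n P c0 := stabDrN6_of h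

end cert

end PHK

end
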