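import Pool.Agent.PHK.AsmR
import Pool.Agent.PHK.TopI6
import Pool.Agent.PHK.Congr
import Pool.Agent.PLX.KPair

/-!
# (P): the class of (K) with groups of spectators at every height, gas side

Abstract geometry `G : PBO.PLX.Geo`, groups of spectators at every height, no statistic.

* `KBd6`: the sum over the numbers of quanta of the functional `FA6`; **`clsK6`**: the bound of the class
  from `StabProd6 par6`, `SpecPin6`, `S4R6`, `OneR6`; **`clsKU6`**: constants uniform in a family of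
  geometries, if every selection `m ↦ G (i m)` of the family has `S4R6`, `OneR6`;
* `KBdP6`, `KBdZ6`: the bounds with the pair of a unit charge and without groups, power `m ^ 4`;
  **`clsKP6`**: both, uniform in the family.
-/

set_option autoImplicit false
set_option linter.unusedSectionVars false

noncomputable section

open MeasureTheory Finset
open scoped ENNReal

open PLX (Fil Ends)

namespace PBO.PLX

open PHK
open NUGC NUGC.PLX PBF.PLX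
open NUO NUP1 NUStabP NUDispW NUCR NUP1S.Ab NUP1S.AbC
open NUP1S (O3)
open NUSea.PLX.H0 (Gd IG TG cstF)
open NUSp (qc)

variable [NUSea.Sea] [Fil] [Ends]

/-- **the bound of the class** at size `m`, exponent `ρ` of `m` -/
def KBd6 (G : Geo) (ρ ep e1 J : ℝ) (m : ℕ) (Cst : ℝ) : Prop :=
  ∀ (n : ℕ) (g : Fin n → Gd) (aX aY : ℕ) (ν E Qe : ℝ), GrpR ep e1 m g aX aY ν E Qe →
  ∀ (Z : Bool → Option O3 → ℂ → ℂ) (B' : OB) (κ x0 : ℝ) (Qz : ℤ) (E0 : Set ℝ),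
    OneC6 Z B' par6 ep κ x0 Qz E0 → ∀ D : Set ℂ, DomK par6 ep D →
    (∀ a, ∀ z ∈ D, ((G.B m (4 / 3 * (1 - ep))).mul (spF g)).R a z = B'.R a z) →
    (G.B m (4 / 3 * (1 - ep))).φ = B'.φ → (G.B m (4 / 3 * (1 - ep))).φ0 = B'.φ0 →
    ∑ N ∈ range (2 * m + 1), FA6 Z par6 (N + aX) (N + aY)
        (fun _ _ => etaC e1 J m m) (fun _ _ => etaC' e1 J m m) (fun _ _ _ _ _ => 1) ≤
      ENNReal.ofReal (Cst * (m : ℝ) ^ ρ * Real.exp (G.EM m) *
        Real.exp (∑ i, G.MF m (g i).σ (g i).c (g i).w) *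
        (if ∀ i, |(g i).τ| ≤ TW ep e1 m then 1 else Real.exp (Real.log m / 2)) *
        Real.exp (-gnF e1 J m g) * Qe)

theorem KBd6.mono {G : Geo} {ρ ep e1 J : ℝ} {m : ℕ} {C C' : ℝ} (h : KBd6 G ρ ep e1 J m C)
    (hC : C ≤ C') : KBd6 G ρ ep e1 J m C' := by
  intro n g aX aY ν E Qe hg Z B' κ x0 Qz E0 hZ D hD hR hφ hφ0
  refine (h n g aX aY ν E Qe hg Z B' κ x0 Qz E0 hZ D hD hR hφ hφ0).trans
    (ENNReal.ofReal_le_ofReal ?_)
  have h1 := hg.Q0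
  have h2 : 0 ≤ (if ∀ i, |(g i).τ| ≤ TW ep e1 m then 1 else Real.exp (Real.log m / 2)) := by
    split_ifs
    · exact zero_le_one
    · exact (Real.exp_pos _).le
  gcongr

theorem nX_le6 {m aX aY : ℕ} (hm : 2 * Fil.qo + 24 ≤ m) (hX : aX ≤ 3) (hY : aY ≤ Fil.xe m + 3) :
    2 * (2 * (2 * m) + (aX + aY)) + 1 ≤ m * m := by
  have h1 : 1 ≤ m := by omega
  have h2 := Fil.xe_le_qo h1
  have h3 : (2 * Fil.qo + 24) * m ≤ m * m := Nat.mul_le_mul_right _ hm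
  have h4 : (2 * Fil.qo + 24) * m = 2 * (Fil.qo * m) + 24 * m := by ring
  omega

/-- **the class with groups at every height** -/
theorem clsK6 {G : Geo} (hB : ∀ m β, (G.B m β).Nn) (hS : StabProd6 par6) {C3 : ℝ}
    (hspec : SpecPin6 C3) (h4 : S4R6 G) (h1 : OneR6 G) {ρ : ℝ}
    (hρ : 0 < ρ) : ∃ κ0 : ℝ, 0 < κ0 ∧ κ0 ≤ 1 / 100 ∧
      ∀ ep : ℝ, 0 < ep → ep ≤ κ0 → ∀ e1 : ℝ, 0 < e1 → e1 ≤ κ0 →
      ∀ J : ℝ, 0 ≤ J → Real.exp (-(2 * Real.pi * J)) ≤ κ0 →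
      ∃ Cst : ℝ, 0 ≤ Cst ∧ ∃ m0 : ℕ, ∀ m ≥ m0, KBd6 G ρ ep e1 J m Cst := by
  obtain ⟨C, c, b, c1, Ca, k, hC, hc, hb, hc1, hCa, hper⟩ := perX_ofR6 hB hS hspec h4 h1
  obtain ⟨a0, ha0, hsum⟩ := fa_sum6 (k := k) hC hc hb hc1 le_rfl (δ := ρ / 4) (by linarith)
  refine ⟨min (1 / 100) (min (a0 / 7) (ρ / (4 * (Ca + 1)))), by positivity, min_le_left _ _, ?_⟩
  intro ep hep hep1 e1 he1 he11 J hJ hJ1
  have b1 : ep ≤ 1 / 100 := hep1.trans (min_le_left _ _)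
  have b2 : ep ≤ a0 / 7 := hep1.trans ((min_le_right _ _).trans (min_le_left _ _))
  have b3 : ep ≤ ρ / (4 * (Ca + 1)) := hep1.trans ((min_le_right _ _).trans (min_le_right _ _))
  have e1' : e1 ≤ 1 / 100 := he11.trans (min_le_left _ _)
  have e2' : e1 ≤ a0 / 7 := he11.trans ((min_le_right _ _).trans (min_le_left _ _))
  have e3' : e1 ≤ ρ / (4 * (Ca + 1)) := he11.trans ((min_le_right _ _).trans (min_le_right _ _))
  have d2 : Real.exp (-(2 * Real.pi * J)) ≤ a0 / 7 :=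
    hJ1.trans ((min_le_right _ _).trans (min_le_left _ _))
  obtain ⟨L0, hsum⟩ := hsum 1 zero_le_one
  obtain ⟨d, Cst, hd, hCst, M0, hper⟩ := hper ep hep b1 e1 he1 e1' J hJ (ρ / 4) (by linarith)
  obtain ⟨m1, hm1, hcur⟩ := curOKC he1 e1' hJ hep
  obtain ⟨m2, hm2⟩ := Filter.eventually_atTop.1
    ((Real.tendsto_log_atTop.comp tendsto_natCast_atTop_atTop).eventually_ge_atTop L0)
  refine ⟨4 * (1 + 1 / d) * Cst, by positivity, max (max M0 m1) (max m2 (2 * Fil.qo + 24)),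
    fun m hm => ?_⟩
  have hM0 : M0 ≤ m := ((le_max_left _ _).trans (le_max_left _ _)).trans hm
  have hM1 : m1 ≤ m := ((le_max_right _ _).trans (le_max_left _ _)).trans hm
  have hM2 : m2 ≤ m := ((le_max_left _ _).trans (le_max_right _ _)).trans hm
  have hMq : 2 * Fil.qo + 24 ≤ m := ((le_max_right _ _).trans (le_max_right _ _)).trans hm
  have hm1' : 1 ≤ m := by omega
  have hmp : (0 : ℝ) < m := by exact_mod_cast hm1'
  have hmr : (1 : ℝ) ≤ m := by exact_mod_cast hm1'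
  have hL0 : L0 ≤ Real.log m := hm2 m hM2
  have hcurm : CurB ep (etaC e1 J m m) (etaC' e1 J m m) := hcur m hM1 _ (by linarith)
  intro n g aX aY ν E Qe hg Z B' κ x0 Qz E0 hZ D hD hR hφ hφ0
  have key := hper m hM0 n g aX aY ν E Qe hg.n2 hg.sp hg.ax hg.ay hg.ay' hg.q hg.nu hg.E0 hg.hE
    hg.Q0 hg.pin
  have key2 : PBF.PLX.PerI6 C 1 c b k c1 0 (Real.log m) ep e1 J ν d (2 * m) B' par6 aX aY
      (fun _ _ _ => etaC e1 J m m) (fun _ _ _ => etaC' e1 J m m)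
      (fun _ _ _ _ _ _ => ‖(1 : ℂ)‖ₑ) (PfR6 G Ca ep e1 J (ρ / 4) Cst m g Qe) := by
    intro N hN b' hb' r hr O W
    have h := key N hN b' hb' r hr O W
    refine le_trans (le_of_eq ?_) h
    congr 1
    show FnI6 B' par6 (etaC e1 J m m) (etaC' e1 J m m) (N + aX) (N + aY) O
      (fun _ _ _ => ‖(1 : ℂ)‖ₑ) = _
    rw [enorm_one, FnI6_one]
    exact (Fnc6_congr hD hR hφ hφ0 hcurm _ _ O).symm
  have hnum : ((2 * (2 * (2 * m) + (aX + aY)) + 1 : ℕ) : ℝ) ≤ Real.exp (2 * Real.log m) := by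
    have e : Real.exp (2 * Real.log m) = (m : ℝ) * m := by
      rw [two_mul, Real.exp_add, Real.exp_log hmp]
    rw [e]
    exact_mod_cast nX_le6 hMq hg.ax hg.ay
  have hF0 : 0 ≤ (if ∀ i, |(g i).τ| ≤ TW ep e1 m then 1 else Real.exp (Real.log m / 2)) := by
    split_ifs
    · exact zero_le_one
    · exact (Real.exp_pos _).le
  have hQ0 := hg.Q0
  have hPf : 0 ≤ PfR6 G Ca ep e1 J (ρ / 4) Cst m g Qe := by
    unfold PfR6
    positivity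
  have h5 := hsum (Real.log m) hL0 ep hep.le b1 e1 he1 (by linarith) J hJ (by linarith) ν d
    (PfR6 G Ca ep e1 J (ρ / 4) Cst m g Qe) (2 * m)
    aX aY Z B' par6 κ x0 Qz E0 (fun _ _ _ => etaC e1 J m m) (fun _ _ _ => etaC' e1 J m m)
    (fun _ _ _ _ _ _ => 1) hd hPf hnum hZ (fun n _ r O => hcurm) key2
  refine h5.trans (ENNReal.ofReal_le_ofReal ?_)
  have e4 : Real.exp (ρ / 4 * Real.log m) = (m : ℝ) ^ (ρ / 4) := by
    rw [Real.rpow_def_of_pos hmp, mul_comm]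
  rw [e4]
  have hpow : (m : ℝ) ^ (Ca * (ep + e1) + ρ / 4) * (m : ℝ) ^ (ρ / 4) ≤ (m : ℝ) ^ ρ := by
    rw [← Real.rpow_add hmp]
    refine Real.rpow_le_rpow_of_exponent_le hmr ?_
    have h4 : ep + e1 ≤ ρ / (2 * (Ca + 1)) := by
      have : ρ / (2 * (Ca + 1)) = ρ / (4 * (Ca + 1)) + ρ / (4 * (Ca + 1)) := by
        field_simp
        norm_num
      linarith
    rw [le_div_iff₀ (by positivity)] at h4
    nlinarith
  unfold PfR6
  calc 4 * (1 + 1 / d) * (Cst * Real.exp (G.EM m) * (m : ℝ) ^ (Ca * (ep + e1) + ρ / 4) *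
        Real.exp (∑ i, G.MF m (g i).σ (g i).c (g i).w) *
        (if ∀ i, |(g i).τ| ≤ TW ep e1 m then 1 else Real.exp (Real.log m / 2)) *
        Real.exp (-gnF e1 J m g) * Qe * (m : ℝ) ^ (ρ / 4))
      = 4 * (1 + 1 / d) * Cst * ((m : ℝ) ^ (Ca * (ep + e1) + ρ / 4) * (m : ℝ) ^ (ρ / 4)) *
        Real.exp (G.EM m) * Real.exp (∑ i, G.MF m (g i).σ (g i).c (g i).w) *
        (if ∀ i, |(g i).τ| ≤ TW ep e1 m then 1 else Real.exp (Real.log m / 2)) *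
        Real.exp (-gnF e1 J m g) * Qe := by ring
    _ ≤ _ := by gcongr

/-- **the class with groups at every height**, constants uniform in a family of geometries -/
theorem clsKU6 {ι : Type*} [Nonempty ι] (G : ι → Geo) (hB : ∀ i m β, ((G i).B m β).Nn)
    (hS : StabProd6 par6) {C3 : ℝ} (hspec : SpecPin6 C3)
    (h4 : ∀ i : ℕ → ι, S4R6 (Geo.sel G i)) (h1 : ∀ i : ℕ → ι, OneR6 (Geo.sel G i)) {ρ : ℝ}
    (hρ : 0 < ρ) :
    ∃ κ0 : ℝ, 0 < κ0 ∧ κ0 ≤ 1 / 100 ∧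
      ∀ ep : ℝ, 0 < ep → ep ≤ κ0 → ∀ e1 : ℝ, 0 < e1 → e1 ≤ κ0 →
      ∀ J : ℝ, 0 ≤ J → Real.exp (-(2 * Real.pi * J)) ≤ κ0 →
      ∃ Cst : ℝ, 0 ≤ Cst ∧ ∃ m0 : ℕ, ∀ m ≥ m0, ∀ i, KBd6 (G i) ρ ep e1 J m Cst := by
  obtain ⟨κ0, hκ0, h⟩ := unif_sel (ι := ι) (α := ℝ × ℝ × ℝ)
    (fun κ p => (0 < p.1 ∧ p.1 ≤ κ) ∧ (0 < p.2.1 ∧ p.2.1 ≤ κ) ∧ 0 ≤ p.2.2 ∧
      Real.exp (-(2 * Real.pi * p.2.2)) ≤ κ)
    (fun κ κ' p hκ hp => ⟨⟨hp.1.1, hp.1.2.trans hκ⟩, ⟨hp.2.1.1, hp.2.1.2.trans hκ⟩, hp.2.2.1,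
      hp.2.2.2.trans hκ⟩)
    (fun i p m C => KBd6 (G i) ρ p.1 p.2.1 p.2.2 m C)
    (fun i p m C C' hC h => h.mono hC) (fun i => by
      obtain ⟨κ0, hκ0, -, h⟩ := clsK6 (G := Geo.sel G i) (fun m β => hB _ _ _) hS hspec (h4 i)
        (h1 i) hρ
      refine ⟨κ0, hκ0, fun p hp => ?_⟩
      exact h p.1 hp.1.1 hp.1.2 p.2.1 hp.2.1.1 hp.2.1.2 p.2.2 hp.2.2.1 hp.2.2.2)
  refine ⟨min κ0 (1 / 100), lt_min hκ0 (by norm_num), min_le_right _ _, ?_⟩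
  intro ep hep hep1 e1 he1 he11 J hJ hJ1
  exact h (ep, e1, J) ⟨⟨hep, hep1.trans (min_le_left _ _)⟩, ⟨he1, he11.trans (min_le_left _ _)⟩, hJ,
    hJ1.trans (min_le_left _ _)⟩

/-- **the bound with a unit charge** at size `m` -/
def KBdP6 (G : Geo) (ep e1 J : ℝ) (m : ℕ) (Cst : ℝ) : Prop :=
  ∀ (b : Bool) (h : ℝ), |h| ≤ 2 / 3 * Real.log m → ∀ aX aY : ℕ, aX ≤ 2 →
  (aY : ℤ) = aX + Fil.xe m + (if b then 1 else -1) →
  ∀ (Z : Bool → Option O3 → ℂ → ℂ) (B' : OB) (κ x0 : ℝ) (Qz : ℤ) (E0 : Set ℝ),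
    OneC6 Z B' par6 ep κ x0 Qz E0 → ∀ D : Set ℂ, DomK par6 ep D →
    (∀ a, ∀ z ∈ D, ((G.B m (4 / 3 * (1 - ep))).mul (spF (pK b h))).R a z = B'.R a z) →
    (G.B m (4 / 3 * (1 - ep))).φ = B'.φ → (G.B m (4 / 3 * (1 - ep))).φ0 = B'.φ0 →
    ∑ N ∈ range (2 * m + 1), FA6 Z par6 (N + aX) (N + aY)
        (fun _ _ => etaC e1 J m m) (fun _ _ => etaC' e1 J m m) (fun _ _ _ _ _ => 1) ≤
      ENNReal.ofReal (Cst * (m : ℝ) ^ 4 * Real.exp (G.EM m +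
        ∑ i, G.MF m (pK b h i).σ (pK b h i).c (pK b h i).w))

/-- **the bound without groups** at size `m` -/
def KBdZ6 (G : Geo) (ep e1 J : ℝ) (m : ℕ) (Cst : ℝ) : Prop :=
  ∀ aX aY : ℕ, aX ≤ 3 → aY = aX + Fil.xe m →
  ∀ (Z : Bool → Option O3 → ℂ → ℂ) (B' : OB) (κ x0 : ℝ) (Qz : ℤ) (E0 : Set ℝ),
    OneC6 Z B' par6 ep κ x0 Qz E0 → ∀ D : Set ℂ, DomK par6 ep D →
    (∀ a, ∀ z ∈ D, (G.B m (4 / 3 * (1 - ep))).R a z = B'.R a z) →
    (G.B m (4 / 3 * (1 - ep))).φ = B'.φ → (G.B m (4 / 3 * (1 - ep))).φ0 = B'.φ0 →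
    ∑ N ∈ range (2 * m + 1), FA6 Z par6 (N + aX) (N + aY)
        (fun _ _ => etaC e1 J m m) (fun _ _ => etaC' e1 J m m) (fun _ _ _ _ _ => 1) ≤
      ENNReal.ofReal (Cst * (m : ℝ) ^ 4 * Real.exp (G.EM m))

/-- **the classes of (K)**: a unit charge at a height at most `(2 / 3) log m`, or none; constants uniform
in a family of geometries -/
theorem clsKP6 {ι : Type*} [Nonempty ι] (G : ι → Geo) (hB : ∀ i m β, ((G i).B m β).Nn)
    (hS : StabProd6 par6) {C3 : ℝ} (hspec : SpecPin6 C3)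
    (h4 : ∀ i : ℕ → ι, S4R6 (Geo.sel G i)) (h1 : ∀ i : ℕ → ι, OneR6 (Geo.sel G i)) :
    ∃ κ0 : ℝ, 0 < κ0 ∧ κ0 ≤ 1 / 100 ∧
      ∀ ep : ℝ, 0 < ep → ep ≤ κ0 → ∀ e1 : ℝ, 0 < e1 → e1 ≤ κ0 →
      ∀ J : ℝ, 0 ≤ J → Real.exp (-(2 * Real.pi * J)) ≤ κ0 →
      ∃ Cst : ℝ, 0 ≤ Cst ∧ ∃ m0 : ℕ, ∀ m ≥ m0, CurB ep (etaC e1 J m m) (etaC' e1 J m m) ∧
        ∀ i, KBdP6 (G i) ep e1 J m Cst ∧ KBdZ6 (G i) ep e1 J m Cst := by
  obtain ⟨κ0, hκ0, hκ1, hcls⟩ := clsKU6 G hB hS hspec h4 h1 (ρ := 1 / 2) (by norm_num)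
  obtain ⟨Q, hQ, hgr⟩ := grpR_pK
  refine ⟨κ0, hκ0, hκ1, fun ep hep hep1 e1 he1 he11 J hJ hJ1 => ?_⟩
  obtain ⟨Cst, hCst, m0, hcls⟩ := hcls ep hep hep1 e1 he1 he11 J hJ hJ1
  have b1 : ep ≤ 1 / 100 := hep1.trans hκ1
  have c1 : e1 ≤ 1 / 100 := he11.trans hκ1
  obtain ⟨m1, hm1, hcur⟩ := curOKC he1 c1 hJ hep
  obtain ⟨m2, hm2⟩ := Filter.eventually_atTop.1
    ((Real.tendsto_log_atTop.comp tendsto_natCast_atTop_atTop).eventually_ge_atTop (60 : ℝ))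
  refine ⟨Cst * (Q + 1), by positivity, max (max m0 m1) (max m2 2), fun m hm => ?_⟩
  have hM0 : m0 ≤ m := ((le_max_left _ _).trans (le_max_left _ _)).trans hm
  have hM1 : m1 ≤ m := ((le_max_right _ _).trans (le_max_left _ _)).trans hm
  have hM2 : m2 ≤ m := ((le_max_left _ _).trans (le_max_right _ _)).trans hm
  have hM3 : 2 ≤ m := ((le_max_right _ _).trans (le_max_right _ _)).trans hm
  have hm1' : 1 ≤ m := by omega
  have hmp : (0 : ℝ) < m := by exact_mod_cast hm1'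
  have hmr : (1 : ℝ) ≤ m := by exact_mod_cast hm1'
  have hL60 : (60 : ℝ) ≤ Real.log m := hm2 m hM2
  have hT : 20 ≤ Tb (Real.log m) := by
    show 20 ≤ 3 / 8 * Real.log m
    linarith
  have hhalf : Real.exp (Real.log m / 2) = (m : ℝ) ^ (1 / 2 : ℝ) := by
    rw [Real.rpow_def_of_pos hmp]
    congr 1
    ring
  have h1h : (1 : ℝ) ≤ (m : ℝ) ^ (1 / 2 : ℝ) := Real.one_le_rpow hmr (by norm_num)
  have hhh : (m : ℝ) ^ (1 / 2 : ℝ) * (m : ℝ) ^ (1 / 2 : ℝ) = m := by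
    rw [← Real.rpow_add hmp]
    norm_num
  refine ⟨hcur m hM1 _ (by linarith), fun i => ⟨?_, ?_⟩⟩
  · intro b h hh aX aY haX haY Z B' κ x0 Qz E0 hZ D hD hR hφ hφ0
    have key := hcls m hM0 i 2 (pK b h) aX aY m _ _ (hgr ep e1 hep.le he1.le m hm1' b h hh aX aY haX haY)
      Z B' κ x0 Qz E0 hZ D hD hR hφ hφ0
    refine key.trans (ENNReal.ofReal_le_ofReal ?_)
    have hg := gnF_pK c1 hJ hT b h
    have hg1 : Real.exp (-gnF e1 J m (pK b h)) ≤ 1 := by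
      rw [Real.exp_le_one_iff]
      linarith
    have hF : (if ∀ i, |(pK b h i).τ| ≤ TW ep e1 m then 1 else Real.exp (Real.log m / 2)) ≤
        (m : ℝ) ^ (1 / 2 : ℝ) := by
      split_ifs
      · exact h1h
      · exact hhalf.le
    have hF0 : 0 ≤ (if ∀ i, |(pK b h i).τ| ≤ TW ep e1 m then 1 else Real.exp (Real.log m / 2)) := by
      split_ifs
      · exact zero_le_one
      · exact (Real.exp_pos _).le
    rw [Real.exp_add]
    calc Cst * (m : ℝ) ^ (1 / 2 : ℝ) * Real.exp ((G i).EM m) *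
          Real.exp (∑ j, (G i).MF m (pK b h j).σ (pK b h j).c (pK b h j).w) *
          (if ∀ i, |(pK b h i).τ| ≤ TW ep e1 m then 1 else Real.exp (Real.log m / 2)) *
          Real.exp (-gnF e1 J m (pK b h)) * (Q * (m : ℝ) ^ 3)
        ≤ Cst * (m : ℝ) ^ (1 / 2 : ℝ) * Real.exp ((G i).EM m) *
          Real.exp (∑ j, (G i).MF m (pK b h j).σ (pK b h j).c (pK b h j).w) *
          (m : ℝ) ^ (1 / 2 : ℝ) * 1 * (Q * (m : ℝ) ^ 3) := by gcongr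
      _ = Cst * Q * ((m : ℝ) ^ (1 / 2 : ℝ) * (m : ℝ) ^ (1 / 2 : ℝ)) * (m : ℝ) ^ 3 *
          (Real.exp ((G i).EM m) *
          Real.exp (∑ j, (G i).MF m (pK b h j).σ (pK b h j).c (pK b h j).w)) := by ring
      _ = Cst * Q * (m : ℝ) ^ 4 * (Real.exp ((G i).EM m) *
          Real.exp (∑ j, (G i).MF m (pK b h j).σ (pK b h j).c (pK b h j).w)) := by
          rw [hhh]
          ring
      _ ≤ Cst * (Q + 1) * (m : ℝ) ^ 4 * (Real.exp ((G i).EM m) *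
          Real.exp (∑ j, (G i).MF m (pK b h j).σ (pK b h j).c (pK b h j).w)) := by
          gcongr
          linarith
  · intro aX aY haX haY Z B' κ x0 Qz E0 hZ D hD hR hφ hφ0
    have key := hcls m hM0 i 0 Fin.elim0 aX aY m _ _ (grpR_zero haX haY)
      Z B' κ x0 Qz E0 hZ D hD (fun a z hz => by
        rw [← hR a z hz]
        show ((G i).B m (4 / 3 * (1 - ep))).R a z * spF (Fin.elim0 : Fin 0 → Gd) a z = _
        unfold spF
        simp) hφ hφ0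
    refine key.trans (ENNReal.ofReal_le_ofReal ?_)
    have hg := gnF_zero c1 hJ hT
    have hg1 : Real.exp (-gnF e1 J m (Fin.elim0 : Fin 0 → Gd)) ≤ 1 := by
      rw [Real.exp_le_one_iff]
      linarith
    rw [if_pos (fun i => i.elim0), mul_one, mul_one]
    simp only [univ_eq_empty, sum_empty, Real.exp_zero, mul_one]
    have hp : (m : ℝ) ^ (1 / 2 : ℝ) ≤ (m : ℝ) ^ 4 := by
      rw [← Real.rpow_natCast]
      exact Real.rpow_le_rpow_of_exponent_le hmr (by norm_num)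
    calc Cst * (m : ℝ) ^ (1 / 2 : ℝ) * Real.exp ((G i).EM m) *
          Real.exp (-gnF e1 J m (Fin.elim0 : Fin 0 → Gd))
        ≤ Cst * (m : ℝ) ^ 4 * Real.exp ((G i).EM m) * 1 := by gcongr
      _ = Cst * 1 * (m : ℝ) ^ 4 * Real.exp ((G i).EM m) := by ring
      _ ≤ Cst * (Q + 1) * (m : ℝ) ^ 4 * Real.exp ((G i).EM m) := by
          gcongr
          linarith

end PBO.PLX

end
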