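import Pool.Agent.PHK.GOk
import Pool.Agent.PHK.PotH.S4H

/-!
# (P): the gas in the presence of objects and groups, from the bound with a real potential

**`s4R_of6 : S4H6 → GOk6 G → S4R6 G`**, **`s4R6 : GOk6 G → S4R6 G`**.
-/

set_option autoImplicit false
set_option linter.unusedSectionVars false

noncomputable section

open MeasureTheory Finset Filter Topology
open scoped ENNReal

open PLX (Fil Ends)

namespace PBO.PLX

open NUGC NUGC.PLX
open PHK
open NUO (Xo ht TW Tb excS exc)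
open NUDispW (win)
open NUSea.PLX.H0 (Gd TG cstF)
open PotH.PLX (CrvP CutR HSk DomH EnvH S4H6 RgH6 crH phG linH T1H lhsH6 prefH oneEH6 confEH6 enH6 sN)

variable [NUSea.Sea] [Fil] [Ends]

/-- **the gas in the presence of objects and groups** -/
theorem s4R_of6 (h4 : S4H6) {G : Geo} (hG : GOk6 G) : S4R6 G := by
  obtain ⟨B0, N0, hB0, hN0, henv⟩ := hG.env
  obtain ⟨K, Ca, hK, hCa, h4⟩ := h4 B0 N0 hB0 hN0
  obtain ⟨K1, hK1, hone⟩ := hG.one
  obtain ⟨CP, hCP, hpref⟩ := hG.pref_le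
  refine ⟨K + K1, Ca + 1, by linarith, by linarith, ?_⟩
  intro kap hkap ep hep hep1 e1 he he1 J hJ δ hδ
  obtain ⟨Cc, C0, hCc, hC0, CL, m1, henv⟩ := henv ep hep hep1 e1 he he1 J hJ
  obtain ⟨m3, hone⟩ := hone ep hep hep1 e1 he he1 J hJ
  obtain ⟨d, Cst, hd, hCst, m5, h4⟩ := h4 kap hkap ep hep hep1 e1 he he1 Cc C0 hCc hC0 δ hδ
  refine ⟨d, Cst * Real.exp (CP + CL), hd, by positivity, max m1 (max m3 m5), ?_⟩
  intro m hm n g aX aY ν N b' r O E x hb' hR
  have a1 : m1 ≤ m := (le_max_left _ _).trans hm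
  have a3 : m3 ≤ m := ((le_max_left _ _).trans (le_max_right _ _)).trans hm
  have a5 : m5 ≤ m := ((le_max_right _ _).trans (le_max_right _ _)).trans hm
  obtain ⟨hm1, hT, cr, Bc, Bc', H, H', hE, hlin⟩ := henv m a1
  have hRH : RgH6 ep e1 m g aX aY ν N O E x :=
    ⟨hR.n2, hR.sp, hR.ax, hR.ay, hR.ay', hR.q, hR.nu.trans (by norm_num), hR.hN.trans (by omega), by have := hR.hr; omega,
      hR.hc1, hR.hc2, hR.E0, hR.hE, hR.x0, hR.hx⟩
  have hbd : |b'| ≤ d := by
    rcases hb' with rfl | rfl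
    · exact (abs_of_pos hd).le
    · rw [abs_neg, abs_of_pos hd]
  have key := h4 m a5 n _ _ cr Bc Bc' H H' _ g (hE n g d hd.le) aX aY ν N b' r O E x hbd hRH
  have e0 : lhsR6 G ep e1 J m g aX aY ν N b' O =
      lhsH6 ((G.B m (4 / 3 * (1 - ep))).mul (spF g)) m (etaC e1 J m m) (etaC' e1 J m m) aX aY ν N b' O
        (fun _ => 1) := by
    unfold lhsR6 lhsH6
    rw [PBZ.PLX.Z1S6_one]
  rw [e0]
  refine key.trans (ENNReal.ofReal_le_ofReal ?_)
  -- the linear term
  have hT1 : (1 - e1) * Tb (Real.log m) ≤ T1H ep e1 m O E := by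
    have h1 := TW_geR hep he hT
    have h2 : TW ep e1 m ≤ T1H ep e1 m O E := by
      unfold T1H
      linarith [le_max_right (excS (TW ep e1 m) O) E, hR.E0]
    linarith
  have hlin := hlin n g _ hT1
  have hconf := confEH6_le (G := G) (K := K) (kap := kap) O fun i => hone m a3 r O i
  have hen : enH6 m g O (T1H ep e1 m O E) (nA6 (N + aX) O true) (nA6 (N + aY) O false) =
      enR6 m g O (T1R ep e1 m O E) (nA6 (N + aX) O true) (nA6 (N + aY) O false) := rfl
  rw [hen]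
  obtain ⟨EN, hEN⟩ : ∃ EN, EN = enR6 m g O (T1R ep e1 m O E) (nA6 (N + aX) O true)
    (nA6 (N + aY) O false) := ⟨_, rfl⟩
  rw [← hEN]
  have e1' : 3 / 8 + Ca * (ep + e1) + δ = 3 / 8 + (Ca * (ep + e1) + δ) := by ring
  have e2' : confEH6 m (etaC e1 J m m) (TW ep e1 m) K kap O +
      linH (etaC e1 J m m) (etaC' e1 J m m) m g (T1H ep e1 m O E) H + EN =
      (confEH6 m (etaC e1 J m m) (TW ep e1 m) K kap O + EN) +
      linH (etaC e1 J m m) (etaC' e1 J m m) m g (T1H ep e1 m O E) H := by ring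
  rw [e1', e2']
  refine pref_alg (e1 := e1) hm1 hCst (far_le hep1 he1 hm1 hT g) ?_ (hpref m n g hR.n2) hlin
    (by linarith) (by nlinarith)
  split_ifs
  · exact zero_le_one
  · exact (Real.exp_pos _).le

/-- **the gas in the presence of objects and groups**, unconditional -/
theorem s4R6 {G : Geo} (hG : GOk6 G) : S4R6 G := s4R_of6 PotH.PLX.s4H6 hG

end PBO.PLX

end
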