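import Pool.Agent.PHK.KGeo6
import Pool.Agent.PHK.S4R0
import Pool.Agent.PHK.KClsP6

/-!
# (P): the geometries of (K) are admissible (helper91)

* **`gOk6_KG`**: `GOk6` for every selection of the geometries `KG6`, one constant `CE`;
* **`s4R6_KG`**: `S4R6` for every selection;
* **`clsKG6`**: the class bound of (K) for the geometries `KG6` (75's `clsKP6`).
-/

set_option autoImplicit false
set_option linter.unusedSectionVars false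

open MeasureTheory Filter Topology Set
open PLX (Fil Ends)

namespace PBK.PLX

open NUMF (l l_pos)
open NUO (Tb)
open NUGC.PLX (etaC etaC' seaG)
open PotH.PLX (sN)
open NUCR NUP1S.Ab NUP1S.AbC
open PBO.PLX (Geo OneR6 GOk6 S4R6 s4R6 clsKP6 KBdP6 KBdZ6 SpecPin6)
open PB0.PLX (mfs MFo MFx sum_gp0)
open PHK

noncomputable section

attribute [local instance] NUSea.seaP

variable [Fil] [Ends]

/-- **the geometries of (K) are admissible**, one constant for all selections -/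
theorem gOk6_KG (n n' : ℕ) {K δ : ℝ} (hK : 0 ≤ K) (hδ : 0 < δ) (hδ1 : δ ≤ l / 2) {G : ℝ} (hG : 1 ≤ G) :
    ∃ CE : ℝ, 0 ≤ CE ∧ ∀ i : ℕ → KI n, GOk6 (Geo.sel (KG6 n' K δ G CE) i) := by
  have hl := l_pos
  have hδ4 : δ ≤ 4 * l := by linarith
  obtain ⟨CE, hCE, H⟩ := pot_KG6 n n' hK hδ hδ1 hG
  refine ⟨CE, hCE, fun i =>
    { nn := sel_nn hK hδ4 hG i
      pot := H i
      cut := cut_KG6 hK hδ4 hG i
      one := ⟨0, le_rfl, fun ep _ _ e1 _ _ J _ => ⟨0, fun m _ r O j => ?_⟩⟩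
      MF := ⟨0, le_rfl, fun m g => ?_⟩ }⟩
  · rw [add_zero]
    exact le_rfl
  · rw [add_zero]
    refine le_of_eq ?_
    show seaG (sN m) g = mfs (sN m) MFo MFx g.σ g.c g.w
    rw [← sum_gp0]
    exact NUGC.PLX.seaG_eq (sN m) g

/-- **the bound of the gas for every selection** -/
theorem s4R6_KG (n n' : ℕ) {K δ : ℝ} (hK : 0 ≤ K) (hδ : 0 < δ) (hδ1 : δ ≤ l / 2) {G : ℝ} (hG : 1 ≤ G) :
    ∃ CE : ℝ, 0 ≤ CE ∧ ∀ i : ℕ → KI n, S4R6 (Geo.sel (KG6 n' K δ G CE) i) := by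
  obtain ⟨CE, hCE, H⟩ := gOk6_KG n n' hK hδ hδ1 hG
  exact ⟨CE, hCE, fun i => s4R6 (H i)⟩

/-- **the class bound of (K)** for the geometries of the instances -/
theorem clsKG6 (n n' : ℕ) {K δ : ℝ} (hK : 0 ≤ K) (hδ : 0 < δ) (hδ1 : δ ≤ l / 2) {G : ℝ} (hG : 1 ≤ G)
    (hS : StabProd6 par6) {C3 : ℝ} (hspec : SpecPin6 C3) :
    ∃ CE : ℝ, 0 ≤ CE ∧ ∃ κ0 : ℝ, 0 < κ0 ∧ κ0 ≤ 1 / 100 ∧
      ∀ ep : ℝ, 0 < ep → ep ≤ κ0 → ∀ e1 : ℝ, 0 < e1 → e1 ≤ κ0 →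
      ∀ J : ℝ, 0 ≤ J → Real.exp (-(2 * Real.pi * J)) ≤ κ0 →
      ∃ Cst : ℝ, 0 ≤ Cst ∧ ∃ m0 : ℕ, ∀ m ≥ m0, CurB ep (etaC e1 J m m) (etaC' e1 J m m) ∧
        ∀ y : KI n, KBdP6 (KG6 n' K δ G CE y) ep e1 J m Cst ∧ KBdZ6 (KG6 n' K δ G CE y) ep e1 J m Cst := by
  have hl := l_pos
  have hδ4 : δ ≤ 4 * l := by linarith
  obtain ⟨CE, hCE, H⟩ := s4R6_KG n n' hK hδ hδ1 hG
  exact ⟨CE, hCE, clsKP6 (KG6 n' K δ G CE) (KG6_nn hK hδ4 hG) hS hspec H (oneR6_KG hK hδ4 hG)⟩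

end

end PBK.PLX
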