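import Pool.Agent.PHK.KJoin6
import Pool.Agent.PHK.KGOk6
import Pool.Agent.PHK.SpPin

/-!
# (K) for (P): the bound of the class from the gas side

* `spG_Gk`: the spectators of a state are bounded on the lines of the six kinds;
* `R_far`: legs, neutral rest and groups give the moduli of the spectators on the evaluation points;
* **`kCls6_of`**: `KCls6` (`PHK/KJoin6`) from the class bound `clsKG6` (`PHK/KGOk6`), for a certificate and a pinned
  weight; `kCls6`: with the pinned weight inserted;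
* **`kRows6_FF`**: (K) from the class formula and the certificate.
-/

set_option autoImplicit false
set_option linter.unusedSectionVars false
set_option linter.unusedVariables false

noncomputable section

open Complex MeasureTheory Filter Topology
open scoped ENNReal

namespace Pool.Agent.PLX

open NUP1 (l lpos vl)
open NUP1S (O3)
open PBX (Rws gP ph)
open PBX.PLX (rwU)
open PHK (Par6 GoodP6 FA6 par6 par6_good StabProd6 OneC6 obU6 upL loL DomP domP phO gO ph_gO_fun)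
open NUSea.PLX.H0 (Gd)
open NUGC.PLX (spF etaC etaC')
open PBK.PLX (KI KOk exI KG6 SpG T1K KG6_B KG6_EM clsKG6)
open PotH.PLX (sN)
open PB0.PLX (MFo MFx mfs)
open PBO.PLX (SpecPin6 pK KBdP6 KBdZ6 thZ)
open Pool.Agent.PB (Pf cn)
open _root_.RX (Wo Vo kO kX k1)
open PBS (Th)
open _root_.PLX (Fil Ends)

attribute [local instance] NUSea.seaP

/-- **the spectators of a state on the lines of the six kinds** -/
theorem spG_Gk : ∃ G : ℝ, 1 ≤ G ∧ ∀ (e : SignType) (σ : Bool) (x0 : ℂ), Win6 e x0.re →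
    SpG G (Gk e σ x0) := by
  obtain ⟨G, hG, H⟩ := Gk_six
  have hP := par6_good
  have p2 : (13 / 16 : ℝ) ≤ par6.j2 := by norm_num [par6]
  have p3 : par6.j2 ≤ 7 / 8 := by norm_num [par6]
  have hre : ∀ x t : ℝ, (vl x t).re = x := fun x t => by
    unfold NUP1.vl
    simp
  refine ⟨G, hG, fun e σ x0 hx => ⟨fun j hj a t => ?_, fun j hj a t => ?_⟩⟩
  · refine (H par6 hP p2 p3 e σ x0 hx a (vl ((1 - j) * l) t)).2.1 ?_
    rw [hre]
    unfold upL at hj
    simp only [List.mem_cons, List.not_mem_nil, or_false] at hj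
    unfold Ln6
    rcases hj with h | h | h | h | h | h <;> rw [h]
    · exact Or.inl rfl
    · exact Or.inr (Or.inl (by ring))
    · exact Or.inr (Or.inr (Or.inl (by ring)))
    · exact Or.inr (Or.inr (Or.inr (Or.inl (by ring))))
    · exact Or.inr (Or.inr (Or.inr (Or.inr (Or.inl (by ring)))))
    · exact Or.inr (Or.inr (Or.inr (Or.inr (Or.inr (Or.inl rfl)))))
  · have h := (H par6 hP p2 p3 e σ x0 hx a (vl ((1 - j) * l) t)).2.2 (by
      rw [hre]
      unfold loL at hj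
      simp only [List.mem_cons, List.not_mem_nil, or_false] at hj
      unfold Lo6
      rcases hj with h | h | h <;> rw [h]
      · exact Or.inl rfl
      · exact Or.inr (Or.inl rfl)
      · exact Or.inr (Or.inr rfl))
    exact inv_le_of_inv_le₀ (by linarith) h

/-- the factor of the groups is positive on the evaluation points -/
theorem gF_dom {ep : ℝ} (hep : ep ≤ 1 / 100) (e : SignType) (σ : Bool) (h : ℝ) (a : Bool) {u : ℂ}
    (hu : u ∈ DomP par6 ep) : 0 < gF e σ h a u := by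
  have hl := lpos
  have hP := par6_good
  have p2 : (13 / 16 : ℝ) ≤ par6.j2 := by norm_num [par6]
  have p3 : par6.j2 ≤ 7 / 8 := by norm_num [par6]
  have key : Ln6 par6 u.re ∨ |u.re - l| ≤ ep * l / 4 := by
    unfold DomP at hu
    rcases hu with h | h | h | h | h | h | h | h | h
    · exact Or.inl (Or.inl h)
    · exact Or.inl (Or.inr (Or.inl (by rw [h]; show -(1 / 2 * l) = -(l / 2); ring)))
    · exact Or.inl (Or.inr (Or.inr (Or.inl h)))
    · exact Or.inl (Or.inr (Or.inr (Or.inr (Or.inl h))))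
    · exact Or.inl (Or.inr (Or.inr (Or.inr (Or.inr (Or.inl h)))))
    · exact Or.inl (Or.inr (Or.inr (Or.inr (Or.inr (Or.inr (Or.inl h))))))
    · exact Or.inl (Or.inr (Or.inr (Or.inr (Or.inr (Or.inr (Or.inr (Or.inl h)))))))
    · exact Or.inl (Or.inr (Or.inr (Or.inr (Or.inr (Or.inr (Or.inr (Or.inr h)))))))
    · exact Or.inr h
  rcases key with h1 | h1
  · exact gF_six hP p2 p3 e σ h a h1
  · obtain ⟨h2, h3⟩ := abs_le.1 h1
    have h4 : ep * l ≤ 1 / 100 * l := mul_le_mul_of_nonneg_right hep hl.le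
    exact gF_posA e σ h a (by linarith) (by linarith)

/-- the modulus of the legs times a spectator -/
theorem norm_spTh (z : ℂ) (σ a : Bool) (f g : ℂ → ℂ) (u : ℂ) :
    ‖spS σ (fun u => Th z u * f u) (fun u => Th z u * g u) a u‖ = thZ z u * ‖spS σ f g a u‖ := by
  have e : ‖Th z u‖ = thZ z u := by
    unfold PBS.Th PBO.PLX.thZ
    rw [norm_div]
  unfold PLX.spS
  split_ifs <;> rw [norm_mul, e]

/-- **legs, neutral rest, groups** -/
theorem R_far {ep : ℝ} (hep : ep ≤ 1 / 100) (z : ℂ) (e : SignType) (σ : Bool) (x0 : ℂ) (a : Bool) {u : ℂ}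
    (hu : u ∈ DomP par6 ep) :
    thZ z u * Gk e σ x0 a u * gF e σ x0.im a u =
      ‖spS σ (fun u => Th z u * Wo e (u - x0)) (fun u => Th z u * Vo e (u - x0)) a u‖ := by
  rw [mul_assoc, Gk_mul' (gF_dom hep e σ x0.im a hu)]
  exact (norm_spTh z σ a (fun u => Wo e (u - x0)) (fun u => Vo e (u - x0)) u).symm

/-- the constant of the one body functions -/
theorem norm_cn_cos (m : ℕ) : ‖cn m‖ = 2 * Real.cos NUP1.l := by
  have hl := lpos
  have h1 : 0 < Real.sin NUP1.l := by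
    refine Real.sin_pos_of_pos_of_lt_pi hl ?_
    unfold NUP1.l
    linarith [Real.pi_pos]
  have h2 : 0 < Real.cos NUP1.l := by
    refine Real.cos_pos_of_mem_Ioo ⟨?_, ?_⟩ <;> unfold NUP1.l <;> linarith [Real.pi_pos]
  have e : sin (2 * (NUP1.l : ℂ)) / sin NUP1.l = ((2 * Real.cos NUP1.l : ℝ) : ℂ) := by
    rw [Complex.sin_two_mul]
    have : sin (NUP1.l : ℂ) ≠ 0 := by
      rw [← Complex.ofReal_sin]
      exact_mod_cast h1.ne'
    field_simp
    push_cast
    ring
  unfold Pool.Agent.PB.cn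
  rw [norm_mul, norm_pow, norm_neg, norm_one, one_pow, one_mul, e, Complex.norm_real,
    Real.norm_eq_abs, abs_of_nonneg (by positivity)]

/-- **the charges of the states** -/
theorem kq_zero (σ : Bool) : kq σ (ch .zero) = 0 := by cases σ <;> decide

theorem kq_neg (σ : Bool) : kq σ (ch .neg) = if σ then 1 else -1 := by cases σ <;> decide

theorem kq_pos (σ : Bool) : kq σ (ch .pos) = if (!σ) then 1 else -1 := by cases σ <;> decide

/-- the constants -/
theorem cls_fin {m : ℕ} (hm : 1 ≤ m) {Cst CE : ℝ} (hC : 0 ≤ Cst) (hCm : Cst ≤ m) (A S : ℝ) :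
    Cst * (m : ℝ) ^ 4 * Real.exp (A + CE * Real.log m + S) ≤ (m : ℝ) ^ (CE + 5) * Real.exp (A + S) := by
  have hm0 : (0 : ℝ) < m := by exact_mod_cast hm
  have e1 : Real.exp (A + CE * Real.log m + S) = (m : ℝ) ^ CE * Real.exp (A + S) := by
    rw [Real.rpow_def_of_pos hm0, ← Real.exp_add]
    congr 1
    ring
  have e2 : (m : ℝ) ^ (CE + 5) = (m : ℝ) * (m : ℝ) ^ 4 * (m : ℝ) ^ CE := by
    rw [show CE + 5 = CE + (1 + 4 : ℕ) by norm_num, Real.rpow_add hm0, Real.rpow_natCast, pow_add, pow_one]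
    ring
  rw [e1, e2]
  have h4 : 0 ≤ (m : ℝ) ^ 4 * ((m : ℝ) ^ CE * Real.exp (A + S)) := by positivity
  calc Cst * (m : ℝ) ^ 4 * ((m : ℝ) ^ CE * Real.exp (A + S))
      = Cst * ((m : ℝ) ^ 4 * ((m : ℝ) ^ CE * Real.exp (A + S))) := by ring
    _ ≤ m * ((m : ℝ) ^ 4 * ((m : ℝ) ^ CE * Real.exp (A + S))) := mul_le_mul_of_nonneg_right hCm h4
    _ = _ := by ring

/-- **the bound of the class of (K)** from the gas side -/
theorem kCls6_of [Fil] [Ends] (hS : StabProd6 par6) {C3 : ℝ} (hspec : SpecPin6 C3) : KCls6 := by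
  intro n'
  obtain ⟨G, hG, HG⟩ := spG_Gk
  have hl := lpos
  have hδ : 1 / 20 * l ≤ NUMF.l / 2 := by
    show 1 / 20 * l ≤ l / 2
    linarith
  obtain ⟨CE, hCE, κ0, hκ0, hκ1, H⟩ := clsKG6 13 n' (K := 2) (δ := 1 / 20 * l) (by norm_num) (by positivity) hδ hG
    hS hspec
  obtain ⟨J, hJ, hJ1⟩ : ∃ J : ℝ, 0 ≤ J ∧ Real.exp (-(2 * Real.pi * J)) ≤ κ0 := by
    refine ⟨1 / κ0, by positivity, ?_⟩
    have h1 : κ0⁻¹ ≤ Real.exp (2 * Real.pi * (1 / κ0)) := by
      have h2 := Real.add_one_le_exp (2 * Real.pi * (1 / κ0))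
      have h3 := Real.pi_gt_three
      have h5 : 0 < κ0⁻¹ := inv_pos.2 hκ0
      rw [one_div] at h2 ⊢
      nlinarith
    rw [Real.exp_neg]
    exact inv_le_of_inv_le₀ hκ0 h1
  obtain ⟨Cst, hCst, m0, H⟩ := H κ0 hκ0 le_rfl κ0 hκ0 le_rfl J hJ hJ1
  have hβ : 0 < 4 / 3 * (1 - κ0) := by linarith
  have hβ' : 4 / 3 * (1 - κ0) ≤ 4 / 3 := by linarith
  obtain ⟨m1, hm1⟩ := exists_nat_ge Cst
  refine ⟨κ0, 4 / 3 * (1 - κ0), CE + 5, hκ0, hκ1, hβ, hβ', max (max m0 m1) 1, fun m hm =>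
    ⟨T1K m, etaC κ0 J m m, etaC' κ0 J m m, ⟨?_, ?_⟩⟩⟩
  · exact (H m (((le_max_left _ _).trans (le_max_left _ _)).trans hm)).1
  intro E k z hE hz e σ x0 hx h41 hh aX aY haX haY
  have hM0 : m0 ≤ m := ((le_max_left _ _).trans (le_max_left _ _)).trans hm
  have hM1 : m1 ≤ m := ((le_max_right _ _).trans (le_max_left _ _)).trans hm
  have hM2 : 1 ≤ m := (le_max_right _ _).trans hm
  have hCm : Cst ≤ m := hm1.trans (by exact_mod_cast hM1)
  have hy : KOk n' 2 (1 / 20 * l) (SpG G) m (yK E k z e σ x0) := yK_ok hE hz hx (HG e σ x0 hx)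
  have hB := KG6_B (CE := CE) hy (4 / 3 * (1 - κ0))
  have hEM := KG6_EM (CE := CE) hy
  have hz7 : |z.re| < 7 / 10 * l := by
    rw [hz.1, abs_zero]
    positivity
  obtain ⟨s1, s2⟩ := SpW6.far e hz7 h41 hx.2
  have hZ := oneC6_ZK6 (N := fun a => (WK E k a).length) (P := par6) (ep := κ0) (x0 := 51 / 100 * l)
    (q := kq σ (ch e)) (c := fun a => cn (WK E k a).length) (c0 := 2 * Real.cos NUP1.l)
    (ro := fun a => (WK E k a).get) (ex := exI) (g0 := fun a => gO (T1K m) (exI a) (WK E k a).get)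
    le_rfl (by linarith) hκ0 hκ1 hβ hβ' (WK_rws hE) (fun a => exI_re a)
    (fun a => (gF6_gO (T1K m) (WK_rws hE a) (exI_re a)).gn.meas) (fun a => norm_cn_cos _)
    (fun a => SpW6.spS s1 s2 a)
  obtain ⟨B', hB'⟩ : ∃ B', B' = obU6 (2 * Real.cos NUP1.l) (4 / 3 * (1 - κ0)) (fun a => (WK E k a).get) exI
    (fun a => ph (4 / 3) (WK E k a).get (gO (T1K m) (exI a) (WK E k a).get))
    (fun a u => ‖spS σ (fun u => Th z u * Wo e (u - x0)) (fun u => Th z u * Vo e (u - x0)) a u‖) := ⟨_, rfl⟩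
  rw [← hB'] at hZ
  have hφ : ((KG6 n' 2 (1 / 20 * l) G CE (yK E k z e σ x0)).B m (4 / 3 * (1 - κ0))).φ = B'.φ := by
    rw [hB, hB']
    rfl
  have hφ0 : ((KG6 n' 2 (1 / 20 * l) G CE (yK E k z e σ x0)).B m (4 / 3 * (1 - κ0))).φ0 = B'.φ0 := by
    rw [hB, hB']
    funext a
    exact (ph_gO_fun (T1K m) (exI a) (WK E k a).get).symm
  have hR : ∀ a, ∀ u ∈ DomP par6 κ0,
      ((KG6 n' 2 (1 / 20 * l) G CE (yK E k z e σ x0)).B m (4 / 3 * (1 - κ0))).R a u * gF e σ x0.im a u =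
        B'.R a u := by
    intro a u hu
    rw [hB, hB']
    show (2 * Real.cos NUP1.l * rwU (WK E k a).get (WK E k !a).get u * (thZ z u * Gk e σ x0 a u)) *
      gF e σ x0.im a u = 2 * Real.cos NUP1.l * rwU (WK E k a).get (WK E k !a).get u *
      ‖spS σ (fun u => Th z u * Wo e (u - x0)) (fun u => Th z u * Vo e (u - x0)) a u‖
    rw [← R_far hκ1 z e σ x0 a hu]
    ring
  have hcl := (H m hM0).2 (yK E k z e σ x0)
  have hfin : ∀ S : ℝ, ENNReal.ofReal (Cst * (m : ℝ) ^ 4 *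
      Real.exp ((KG6 n' 2 (1 / 20 * l) G CE (yK E k z e σ x0)).EM m + S)) ≤
      ENNReal.ofReal ((m : ℝ) ^ (CE + 5) * Real.exp ((yK E k z e σ x0).em + S)) := fun S => by
    rw [hEM]
    exact ENNReal.ofReal_le_ofReal (cls_fin hM2 hCst hCm _ _)
  cases e
  · have h0 : aY = aX + Fil.xe m := by
      rw [kq_zero] at haY
      omega
    have key := hcl.2 aX aY (by omega) h0 _ B' _ _ _ _ hZ (DomP par6 κ0) (domP _ _)
      (fun a u hu => by
        rw [← hR a u hu]
        exact (mul_one _).symm) hφ hφ0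
    refine key.trans ?_
    have h5 := hfin 0
    rw [add_zero] at h5
    exact h5
  · have h0 : (aY : ℤ) = aX + Fil.xe m + (if σ then 1 else -1) := by
      rw [haY, kq_neg]
    have key := hcl.1 σ x0.im hh aX aY haX h0 _ B' _ _ _ _ hZ (DomP par6 κ0) (domP _ _)
      (fun a u hu => hR a u hu) hφ hφ0
    exact key.trans (hfin _)
  · have h0 : (aY : ℤ) = aX + Fil.xe m + (if (!σ) then 1 else -1) := by
      rw [haY, kq_pos]
    have key := hcl.1 (!σ) x0.im hh aX aY haX h0 _ B' _ _ _ _ hZ (DomP par6 κ0) (domP _ _)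
      (fun a u hu => hR a u hu) hφ hφ0
    exact key.trans (hfin _)

/-- **the bound of the class of (K)** -/
theorem kCls6 [Fil] [Ends] (hS : StabProd6 par6) : KCls6 := by
  obtain ⟨C3, -, hspec⟩ := PHK.spec_pin6
  exact kCls6_of hS hspec

/-- **(K)** from the class formula and the certificate -/
theorem kRows6_FF (hFF : ∀ F : Fil, @FFth F) (hS : StabProd6 par6) {b : ℕ} (hb : 1 ≤ b) : KRows nL b :=
  kRows6 hFF (fun F A => @kCls6 F A hS) hb

end Pool.Agent.PLX

end
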