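import Pool.Agent.PHK.KClsF6
import Pool.Agent.PHK.BordI

/-!
# (K) for (P) from the class formula

**`kRows_FF`**: (K) from the class formula `FFth` alone (the certificate is `PHK.stabProd_par6`).
-/

set_option autoImplicit false

namespace Pool.Agent.PLX

open _root_.PLX (Fil)

/-- **(K)** from the class formula alone -/
theorem kRows_FF (hFF : ∀ F : Fil, @FFth F) {b : ℕ} (hb : 1 ≤ b) : KRows nL b :=
  kRows6_FF hFF PHK.stabProd_par6 hb

end Pool.Agent.PLX
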