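import Pool.Agent.PHK.KOne6
import Pool.Agent.PHK.AsmR
import Pool.Agent.PLX.KPair

/-!
# (P): the geometries of (K) (helper91)

* `oneK6 m e1 J ep O i`: exponent of an object: clouds of all rows, current of `etaC`, far factor;
* `KG6 n' K δ G CE y`: the geometry of the instance `y` (`KI.fix` at each size), bulk exponent `y.em + CE log m`;
* **`oneR6_KG`**: `OneR6` for every selection of instances;
* `KG6_B`, `KG6_EM`: the data at a size where the instance is admissible; `KG6_nn`;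
* `pot_KG6`, `cut_KG6`: the potential, the cutoff (fields of the class theorem which do not see the kinds) for every
  selection.
-/

set_option autoImplicit false
set_option linter.unusedSectionVars false

open MeasureTheory Filter Topology Set
open PLX (Fil Ends)

namespace PBK.PLX

open NUMF (l l_pos)
open NUP1 (vl)
open NUO (pA Tb TW exc Xo sp ht)
open NUGC.PLX (OB ThN hC etaC etaC')
open PotH.PLX (HOk HSk CrvP CutR sN)
open PBO.PLX (Geo OneR6)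
open PB0.PLX (mfs MFo MFx sum_gp0)
open PHK

noncomputable section

attribute [local instance] NUSea.seaP

variable [Fil] [Ends] {n n' : ℕ} {K δ G CE : ℝ} {m : ℕ} {y : KI n}

/-- **exponent of an object**: clouds of all rows, current, far factor -/
def oneK6 (m : ℕ) (ep e1 J : ℝ) {r : ℕ} (O : Fin r → Xo) (i : Fin r) : ℝ :=
  mfo6 (sN m) (parts6 par6 (O i)) -
    2 * Real.pi * wind6 (k6 (O i)) * (m * NUSea.P (ht (O i)) * etaC e1 J m m (ht (O i))) +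
      exc (TW ep e1 m) (ht (O i))

/-- **the geometry of an instance** -/
def KG6 (n' : ℕ) (K δ G CE : ℝ) (y : KI n) : Geo where
  B m β := (KI.fix n' K δ (SpG G) m y).B6 (T1K m) β
  one m ep e1 J _ O i := oneK6 m ep e1 J O i
  EM m := (KI.fix n' K δ (SpG G) m y).em + CE * Real.log m
  MF m a c w := mfs (sN m) MFo MFx a c w

theorem KG6_B (h : KOk n' K δ (SpG G) m y) (β : ℝ) : (KG6 n' K δ G CE y).B m β = y.B6 (T1K m) β := by
  show (KI.fix n' K δ (SpG G) m y).B6 (T1K m) β = _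
  rw [KI.fix_eq h]

theorem KG6_EM (h : KOk n' K δ (SpG G) m y) : (KG6 n' K δ G CE y).EM m = y.em + CE * Real.log m := by
  show (KI.fix n' K δ (SpG G) m y).em + _ = _
  rw [KI.fix_eq h]

theorem fixK_ok (hK : 0 ≤ K) (hδ : δ ≤ 4 * l) (hG : 1 ≤ G) (m : ℕ) (y : KI n) :
    KOk n' K δ (SpG G) m (KI.fix n' K δ (SpG G) m y) := KI.fix_ok hK hδ (SpG.one hG) m y

theorem KG6_nn (hK : 0 ≤ K) (hδ : δ ≤ 4 * l) (hG : 1 ≤ G) (y : KI n) (m : ℕ) (β : ℝ) :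
    ((KG6 n' K δ G CE y).B m β).Nn := KI.B6_nn (fixK_ok hK hδ hG m y) _ β

theorem sel_nn (hK : 0 ≤ K) (hδ : δ ≤ 4 * l) (hG : 1 ≤ G) (i : ℕ → KI n) (m : ℕ) (β : ℝ) :
    ((Geo.sel (KG6 n' K δ G CE) i).B m β).Nn := KI.B6_nn (fixK_ok hK hδ hG m (i m)) _ β

/-- **one body bounds for every selection** -/
theorem oneR6_KG (hK : 0 ≤ K) (hδ : δ ≤ 4 * l) (hG : 1 ≤ G) (i : ℕ → KI n) :
    OneR6 (Geo.sel (KG6 n' K δ G CE) i) := by
  have hp := pH6_pos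
  refine ⟨6, 1 / 5, tauK, by norm_num, by norm_num, fun K0 => ?_⟩
  obtain ⟨A, hA, H⟩ := one_KI6 n' (zero_le_one.trans hG) K0
  refine ⟨A, 7 / 10 * (pH6 / 4), hA, by positivity, fun ep hep hep1 e1 he he1 J hJ => ?_⟩
  obtain ⟨m0, -, H⟩ := H ep hep hep1 e1 he he1 J hJ
  exact ⟨m0, fun m hm r O j => H m hm n K δ _ (fixK_ok hK hδ hG m (i m)) 6 r (O j)⟩

/-! ### the fields of the class theorem which do not see the kinds -/

/-- **potential**, one constant for all selections -/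
theorem pot_KG6 (n n' : ℕ) {K δ : ℝ} (hK : 0 ≤ K) (hδ : 0 < δ) (hδ1 : δ ≤ l / 2) {G : ℝ} (hG : 1 ≤ G) :
    ∃ CE : ℝ, 0 ≤ CE ∧ ∀ i : ℕ → KI n,
      ∃ B0 N0 : ℝ, 0 ≤ B0 ∧ 0 ≤ N0 ∧ ∀ ep : ℝ, 0 < ep → ep ≤ 1 / 100 → ∀ e1 : ℝ, 0 < e1 →
        e1 ≤ 1 / 100 → ∀ J : ℝ, 0 ≤ J → ∃ CH : ℝ, ∃ m0 : ℕ, ∀ m ≥ m0, ∃ H H' : Bool → ℝ → ℝ,
          (∀ d : ℝ, 0 ≤ d → HSk B0 N0 d ((1 - e1) * Tb (Real.log m)) (Real.log m ^ 3) H H') ∧
          (∀ a t, ((Geo.sel (KG6 n' K δ G CE) i).B m (4 / 3 * (1 - ep))).R a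
              (NUO.pA (Fil.cv a (etaC e1 J m m)) t) ≤ 2 * Real.cos NUP1.l *
            Real.exp (NUSea.PLX.vb (sN m) a (NUAct.zt (NUKer.iD (Fil.cv a (etaC e1 J m m))) t)).re *
            ThN (NUO.pA (Fil.cv a (etaC e1 J m m)) t) * Real.exp (H a t)) ∧
          NUSea.PLX.MF (sN m) + ∑ a, ∫ t, sN m a * NUSea.P t * H a t ≤
            (Geo.sel (KG6 n' K δ G CE) i).EM m + CH := by
  have hl := l_pos
  obtain ⟨B0, N0, CE, hB0, hN0, hCE, H⟩ := pot_etaC n n' hK hδ hδ1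
  refine ⟨CE, hCE, fun i => ⟨B0, N0, hB0, hN0, fun ep _ _ e1 he he1 J hJ => ?_⟩⟩
  obtain ⟨m0, H⟩ := H e1 he he1 J hJ
  refine ⟨CE * J, m0, fun m hm => ?_⟩
  obtain ⟨HH, HH', a1, a2, a3⟩ := H m hm _ _ (fixK_ok (n' := n') (G := G) hK (by linarith) hG m (i m))
  exact ⟨HH, HH', a1, a2 (4 / 3 * (1 - ep)), a3⟩

/-- **cutoff**, every selection -/
theorem cut_KG6 (hK : 0 ≤ K) (hδ : δ ≤ 4 * l) (hG : 1 ≤ G) (i : ℕ → KI n) :
    ∀ ep : ℝ, 0 < ep → ep ≤ 1 / 100 → ∀ e1 : ℝ, 0 < e1 → e1 ≤ 1 / 100 → ∀ J : ℝ, 0 ≤ J →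
      ∃ C0 : ℝ, 1 ≤ C0 ∧ ∃ m0 : ℕ, ∀ m ≥ m0, ∃ cr Bc Bc' : ℝ → ℝ,
        CutR ep C0 ((1 - e1) * Tb (Real.log m)) m cr Bc Bc' ∧
        ∀ a t, ‖((Geo.sel (KG6 n' K δ G CE) i).B m (4 / 3 * (1 - ep))).φ a
          (NUO.pA (Fil.cv a (etaC e1 J m m)) t)‖ ≤ cr t := by
  intro ep hep hep1 e1 he he1 J hJ
  obtain ⟨C0, hC0, m0, H⟩ := cut_etaC n n' hep hep1 he he1 hJ
  refine ⟨C0, hC0, m0, fun m hm => ?_⟩
  obtain ⟨cr, Bc, Bc', h2, h3⟩ := H m hm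
  exact ⟨cr, Bc, Bc', h2, h3 K δ _ _ (fixK_ok (G := G) hK hδ hG m (i m))⟩

end

end PBK.PLX
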