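import Pool.Agent.PHK.KRep6
import Pool.Agent.PLX.KSpk6
import Pool.Agent.PLX.KJoinP
import Pool.Agent.PLX.KAsmP

/-!
# (K) for (P): the join

* `gK6 e σ h` : the groups of the state `e`; `yK E k z e σ x0` : the instance `KI`, **`yK_ok`**;
* **`KB6s`**, `KCls6` : the bound of the class (interface to the gas side): the functional of the class functions of a
  content with a far row in the state `e` is at most `m ^ C exp (em + masses of the groups)`;
* **`cF_bd`** : `‖cF e z x0 ..‖ ≤ m ^ C exp (- m gn)`.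
-/

set_option autoImplicit false
set_option linter.unusedSectionVars false
set_option linter.unusedVariables false

noncomputable section

open Complex MeasureTheory Filter Topology
open scoped ENNReal

namespace Pool.Agent.PLX

open NUP1 (l lpos)
open NUP1S (O3)
open NUO (pA)
open PBX (Rws gP)
open PHK (Par6 GoodP6 FA6 par6 par6_good)
open NUSea.PLX.H0 (Gd)
open NUGC.PLX (spF)
open PBK.PLX (KI KOk exI exists_KJIP)
open PotH.PLX (sN)
open PB0.PLX (MFo MFx mfs)
open PBH.PLX (AtOk HS)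
open PBV.PLX (Sfar)
open PBO.PLX (RwL)
open Pool.Agent.PB (Pf cn)
open _root_.RX (Wo Vo kO kX k1)
open PBS (Th)
open _root_.PLX (Fil Ends)

/-! ### the groups of a state -/

/-- number of groups of a state -/
def nK : SignType → ℕ
  | .zero => 0
  | .neg => 2
  | .pos => 2

/-- **the groups of the state `e`** of the species `σ` at the height `h` -/
def gK6 : (e : SignType) → Bool → ℝ → Fin (nK e) → Gd
  | .zero, _, _ => Fin.elim0
  | .neg, σ, h => PK σ h
  | .pos, σ, h => PK (!σ) h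

theorem spF_gK6 (e : SignType) (σ : Bool) (h : ℝ) (a : Bool) (u : ℂ) :
    spF (gK6 e σ h) a u = gF e σ h a u := by
  cases e
  · show spF (Fin.elim0 : Fin 0 → Gd) a u = 1
    unfold NUGC.PLX.spF
    simp
  · rfl
  · rfl

/-! ### the instance -/

/-- **the instance of a content with a far row `x0` in the state `e` of the species `σ`** -/
def yK (E : Bool → List ℂ) (k : Bool → ℕ) (z : ℂ) (e : SignType) (σ : Bool) (x0 : ℂ) : KI 13 :=
  ⟨E, k, z, xK e σ x0, Gk e σ x0⟩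

/-- the rows of a content -/
def WK (E : Bool → List ℂ) (k : Bool → ℕ) (a : Bool) : List ℂ := E a ++ zr (k a)

theorem Gk_nonneg (e : SignType) (σ : Bool) (x0 : ℂ) (a : Bool) (u : ℂ) : 0 ≤ Gk e σ x0 a u := by
  rw [Gk_pF]
  exact pF_nonneg _ _ _

/-- an admissible content of the size `m` -/
structure EK [Fil] [Ends] (n' m : ℕ) (E : Bool → List ℂ) (k : Bool → ℕ) : Prop where
  num : ∀ a, (E a).length + k a = Fil.ne a m
  len : (E true).length + (E false).length ≤ n'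
  ax : ∀ a, ∀ w ∈ E a, Ax w

theorem yK_ok [Fil] [Ends] {n' m : ℕ} {Sp : (Bool → ℂ → ℝ) → Prop} {E : Bool → List ℂ} {k : Bool → ℕ}
    (h : EK n' m E k) {z : ℂ} (hz : Ax z) {e : SignType} {σ : Bool} {x0 : ℂ} (hx : Win6 e x0.re)
    (hS : Sp (Gk e σ x0)) : KOk n' 2 (1 / 20 * l) Sp m (yK E k z e σ x0) where
  num := h.num
  len := h.len
  ax := h.ax
  z := hz
  atm := xK_okD (by norm_num) (by norm_num) hx.winD
  nn a u := Gk_nonneg e σ x0 a u
  cur ζ hζ a t := Gk_curve (by norm_num) (by norm_num) hx.winD (ζ := fun _ => ζ) (fun _ t => hζ t) a t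
  sp := hS

/-- the spectators on the line -/
theorem Sfar_line {e : SignType} {σ : Bool} {x0 : ℂ} (hx : Win6 e x0.re) (a : Bool) (t : ℝ) :
    ‖Sfar e x0 σ a (pA (fun _ => 0) t)‖ =
      spF (gK6 e σ x0.im) a (pA (fun _ => 0) t) * Gk e σ x0 a (pA (fun _ => 0) t) := by
  have hl := lpos
  have hz0 : ∀ (a : Bool) (t : ℝ), |(fun (_ : Bool) (_ : ℝ) => (0 : ℝ)) a t| ≤ 1 / 20 * l / 2 := fun a t => by
    rw [abs_zero]
    positivity
  have h1 := KSpkD (d := 1 / 20) (by norm_num) (by norm_num) hx.winD (σ := σ) (ζ := fun _ _ => 0) hz0 a t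
  have h2 := Gk_curve (d := 1 / 20) (by norm_num) (by norm_num) hx.winD (σ := σ) (ζ := fun _ _ => 0) hz0 a t
  rw [spF_gK6, h2, ← h1]
  unfold PBV.PLX.Sfar PLX.spS
  split_ifs <;> rfl

/-! ### the class bound: interface -/

/-- **the bound of the class at the size `m`** -/
structure KB6s [Fil] [Ends] (n' : ℕ) (ep β C : ℝ) (m : ℕ) (T1 : ℝ) (η η' : ℝ → ℝ) : Prop where
  cur : NUCR.CurB ep η η'
  bd : ∀ (E : Bool → List ℂ) (k : Bool → ℕ) (z : ℂ), EK n' m E k → Ax z → ∀ (e : SignType) (σ : Bool) (x0 : ℂ),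
    Win6 e x0.re → 41 / 20 * l < x0.re → |x0.im| ≤ 2 / 3 * Real.log m → ∀ aX aY : ℕ, aX ≤ 2 →
    (aY : ℤ) = aX + Fil.xe m + kq σ (ch e) →
    ∑ n ∈ Finset.range (2 * m + 1), FA6 (ZK6 (N := fun a => (WK E k a).length)
        (fun a => cn (WK E k a).length) β (fun a => (WK E k a).get) exI
        (fun a => PHK.gO T1 (exI a) (WK E k a).get)
        (spS σ (fun u => Th z u * Wo e (u - x0)) (fun u => Th z u * Vo e (u - x0)))) par6 (n + aX) (n + aY)
        (fun _ _ => η) (fun _ _ => η') (fun _ _ _ _ _ => 1) ≤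
      ENNReal.ofReal ((m : ℝ) ^ C * Real.exp ((yK E k z e σ x0).em +
        ∑ i, mfs (sN m) MFo MFx (gK6 e σ x0.im i).σ (gK6 e σ x0.im i).c (gK6 e σ x0.im i).w))

/-- **the bound of the class**, constants of the number `n'` of the moved rows only -/
def KCls6 [Fil] [Ends] : Prop := ∀ n' : ℕ, ∃ (ep β C : ℝ), 0 < ep ∧ ep ≤ 1 / 100 ∧ 0 < β ∧ β ≤ 4 / 3 ∧
  ∃ m0 : ℕ, ∀ m ≥ m0, ∃ (T1 : ℝ) (η η' : ℝ → ℝ), KB6s n' ep β C m T1 η η'

/-! ### the rows -/

section rows

variable [Fil] [Ends] {n' m : ℕ} {E : Bool → List ℂ} {k : Bool → ℕ}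

theorem WK_len (h : EK n' m E k) (a : Bool) : (WK E k a).length = Fil.ne a m := by
  unfold WK zr
  rw [List.length_append, List.length_replicate]
  exact h.num a

theorem WK_ax (h : EK n' m E k) (a : Bool) : ∀ w ∈ WK E k a, Ax w := by
  intro w hw
  rcases List.mem_append.1 hw with h1 | h1
  · exact h.ax a w h1
  · rw [(List.mem_replicate.1 h1).2]
    exact ⟨rfl, by simp⟩

theorem WK_rws (h : EK n' m E k) (a : Bool) : Rws (WK E k a).get := by
  intro i
  have h1 := WK_ax h a _ (List.get_mem _ i)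
  rw [h1.1, abs_zero]
  have := lpos
  positivity

theorem exI_re : ∀ a, ∀ w ∈ exI a, |w.re| ≤ l / 2 := by
  intro a w hw
  have hl := lpos
  have h1 : w = I ∨ w = -I := by
    unfold PBK.PLX.exI at hw
    simpa using hw
  rcases h1 with rfl | rfl <;> simp <;> positivity

theorem WK_low (h : EK n' m E k) (a : Bool) :
    RwL (n' + 2) 1 (k a) (List.ofFn (WK E k a).get ++ exI a) (E a ++ exI a) where
  perm := by
    rw [List.ofFn_get]
    unfold WK zr
    rw [List.append_assoc]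
    refine (List.perm_append_comm).trans ?_
    rw [List.append_assoc]
    exact List.Perm.append_left _ (List.perm_append_comm)
  len := by
    rw [List.length_append]
    have h1 := h.len
    have h2 : (exI a).length = 2 := rfl
    rw [h2]
    cases a <;> omega
  re := by
    intro x hx
    rcases List.mem_append.1 hx with h1 | h1
    · rw [(h.ax a x h1).1, abs_zero]
      have := lpos
      unfold NUP1.l
      positivity
    · exact exI_re a x h1
  im := by
    intro x hx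
    rcases List.mem_append.1 hx with h1 | h1
    · exact (h.ax a x h1).2
    · have h2 : x = I ∨ x = -I := by
        unfold PBK.PLX.exI at h1
        simpa using h1
      rcases h2 with rfl | rfl <;> simp

theorem WK_phI {β : ℝ} (hβ : 0 < β) (hβ' : β ≤ 4 / 3) (h : EK n' m E k) (hm1 : 1 ≤ m)
    (hm : 2 ^ 14 * Real.exp (8 / 3 * 1) * ((n' + 2 : ℕ) : ℝ) ≤ m) :
    PhI6 (N := fun a => (WK E k a).length) β (fun a => (WK E k a).get) exI := by
  refine phI6_low (m := m) (n0 := n' + 2) (h0 := 1) (K := k) (E := fun a => E a ++ exI a) hβ hβ' zero_le_one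
    (fun a => WK_low h a) (fun a => ?_) hm1 hm
  have h1 := h.num a
  have h2 := h.len
  have h3 := Fil.le_ne a m
  cases a <;> omega

end rows

/-! ### the bound of a state -/

theorem norm_cn0 : ∀ k : ℕ, ‖cn k‖ = ‖cn 0‖ := norm_cn

/-- the numbers of the extra quanta -/
theorem exists_aXY (x : ℕ) (κ : ℤ) (hκ : -1 ≤ κ) : ∃ aX aY : ℕ, aX ≤ 2 ∧ (aY : ℤ) = aX + x + κ ∧
    (aX = 0 ∨ aY = 0) := by
  rcases le_or_gt 0 ((x : ℤ) + κ) with h | h
  · exact ⟨0, ((x : ℤ) + κ).toNat, by omega, by omega, Or.inl rfl⟩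
  · exact ⟨1, 0, by omega, by omega, Or.inr rfl⟩

theorem kq_ge (σ : Bool) (e : SignType) : -1 ≤ kq σ (ch e) := by
  cases σ <;> cases e <;> decide

/-- **the bound of a state of a far row** -/
theorem cF_bd [Fil] [Ends] (hFF : FFth) (hCl : KCls6) (n' : ℕ) : ∃ (C : ℝ) (m0 : ℕ), 0 ≤ C ∧ ∀ m ≥ m0,
    ∀ (E : Bool → List ℂ) (k : Bool → ℕ) (z : ℂ), EK n' m E k → Ax z → ∀ (e : SignType) (σ : Bool) (x0 : ℂ),
    Win6 e x0.re → 41 / 20 * l < x0.re → |x0.im| ≤ 2 / 3 * Real.log m →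
    ‖cF e z x0 (WK E k σ).get (WK E k !σ).get‖ ≤ (m : ℝ) ^ C * Real.exp (-((m : ℝ) * P.gn e x0.im)) := by
  have hl := lpos
  obtain ⟨ep, β, C1, hep0, hep, hβ, hβ', m1, H⟩ := hCl n'
  obtain ⟨C2, hC2, J⟩ := exists_KJIP n' (K := 2) (δ := 1 / 20 * l) (by positivity)
    (by show 1 / 20 * l ≤ l / 2; linarith)
  obtain ⟨m2, hm2⟩ := exists_nat_ge (2 ^ 14 * Real.exp (8 / 3 * 1) * ((n' + 2 : ℕ) : ℝ))
  refine ⟨max C1 0 + 2 * C2, max (max m1 m2) 3, by positivity, fun m hm E k z hE hz e σ x0 hx h41 hh => ?_⟩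
  have hM1 : m1 ≤ m := ((le_max_left _ _).trans (le_max_left _ _)).trans hm
  have hM2 : m2 ≤ m := ((le_max_right _ _).trans (le_max_left _ _)).trans hm
  have hM3 : 3 ≤ m := (le_max_right _ _).trans hm
  have hmr : (3 : ℝ) ≤ m := by exact_mod_cast hM3
  have hm0 : (0 : ℝ) < m := by linarith
  have hL : 1 ≤ Real.log m := by
    rw [Real.le_log_iff_exp_le hm0]
    have := Real.exp_one_lt_d9
    linarith
  obtain ⟨T1, η, η', K⟩ := H m hM1
  obtain ⟨aX, aY, haX, haY, h0⟩ := exists_aXY (Fil.xe m) (kq σ (ch e)) (kq_ge σ e)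
  have hnum := WK_len hE
  have hlt : (WK E k true).length = m := by rw [hnum, Fil.ne_true (by omega)]
  have hlf : ((WK E k false).length : ℤ) = m + Fil.xe m := by
    rw [hnum, ← Fil.ne_true_add, Fil.ne_true (by omega)]
    push_cast
    ring
  have hφ := WK_phI hβ hβ' hE (by omega) (hm2.trans (by exact_mod_cast hM2))
  have hz7 : |z.re| < 7 / 10 * l := by
    rw [hz.1, abs_zero]
    positivity
  have key := cF_KRep6 (N := fun a => (WK E k a).length) (ro := fun a => (WK E k a).get) (ex := exI)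
    (g0 := fun a => PHK.gO T1 (exI a) (WK E k a).get) (P := par6) hFF e par6_good hI6_par6 hep0 hep hβ hβ'
    (WK_rws hE) exI_re (fun a => gF6_gO T1 (WK_rws hE a) (exI_re a)) hφ
    (z := z) (x0 := x0) hz7 h41 hx.2 (σ := σ) (aX := aX) (aY := aY) (by
      show (aY : ℤ) + ((WK E k true).length : ℕ) = aX + ((WK E k false).length : ℕ) + kq σ (ch e)
      rw [hlf, hlt]
      linarith) h0 (η := fun _ _ _ => η) (η' := fun _ _ _ => η')
    (fun _ _ r _ => Filter.Eventually.of_forall fun _ => K.cur)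
  have hr2 : Finset.range (2 * (WK E k true).length + 1) = Finset.range (2 * m + 1) := by rw [hlt]
  have hb := K.bd E k z hE hz e σ x0 hx h41 hh aX aY haX haY
  have hJ := J 13 (fun _ => True) m (yK E k z e σ x0) (yK_ok hE hz hx trivial) e x0 (by
    unfold P.KF P.Kn P.Kf
    have h1 := hx.1
    have h2 := hx.2
    split_ifs at h2 ⊢ <;> constructor <;> linarith) σ (nK e) (gK6 e σ x0.im) (fun a t => Sfar_line hx a t)
  obtain ⟨A, hA⟩ : ∃ A : ℂ, A = Pf z (WK E k σ).get (WK E k !σ).get * (k1 z e x0 *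
      ((∏ i, kO e (x0 - (WK E k σ).get i)) * ∏ j, kX e (x0 - (WK E k !σ).get j))) := ⟨_, rfl⟩
  have hJ' : ‖A‖ * Real.exp ((yK E k z e σ x0).em +
      ∑ i, mfs (sN m) MFo MFx (gK6 e σ x0.im i).σ (gK6 e σ x0.im i).c (gK6 e σ x0.im i).w) ≤
      Real.exp (C2 * (1 + |x0.im|)) * Real.exp (-(sN m σ * P.gn e x0.im)) := by
    rw [hA]
    exact hJ
  have key2 : ‖cF e z x0 (WK E k σ).get (WK E k !σ).get‖ₑ ≤ ‖A‖ₑ * ENNReal.ofReal ((m : ℝ) ^ C1 *
      Real.exp ((yK E k z e σ x0).em +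
        ∑ i, mfs (sN m) MFo MFx (gK6 e σ x0.im i).σ (gK6 e σ x0.im i).c (gK6 e σ x0.im i).w)) := by
    rw [hA]
    refine key.trans (mul_le_mul' le_rfl ?_)
    simp only [hr2]
    exact hb
  rw [← ofReal_norm, ← ofReal_norm, ← ENNReal.ofReal_mul (norm_nonneg _),
    ENNReal.ofReal_le_ofReal_iff (by positivity)] at key2
  have hC1 : (m : ℝ) ^ C1 ≤ (m : ℝ) ^ (max C1 0) :=
    Real.rpow_le_rpow_of_exponent_le (by linarith) (le_max_left _ _)
  have hE2 : Real.exp (C2 * (1 + |x0.im|)) ≤ (m : ℝ) ^ (2 * C2) := by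
    rw [Real.rpow_def_of_pos hm0]
    refine Real.exp_le_exp.2 ?_
    nlinarith
  have hg : Real.exp (-(sN m σ * P.gn e x0.im)) ≤ Real.exp (-((m : ℝ) * P.gn e x0.im)) :=
    Real.exp_le_exp.2 (neg_le_neg (mul_le_mul_of_nonneg_right (PotH.PLX.le_sN m σ) (P.gn_nonneg _ _)))
  calc ‖cF e z x0 (WK E k σ).get (WK E k !σ).get‖ ≤ _ := key2
    _ = (m : ℝ) ^ C1 * (‖A‖ * Real.exp ((yK E k z e σ x0).em +
        ∑ i, mfs (sN m) MFo MFx (gK6 e σ x0.im i).σ (gK6 e σ x0.im i).c (gK6 e σ x0.im i).w)) := by ring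
    _ ≤ (m : ℝ) ^ (max C1 0) * ((m : ℝ) ^ (2 * C2) * Real.exp (-((m : ℝ) * P.gn e x0.im))) := by
        refine mul_le_mul hC1 (hJ'.trans (mul_le_mul hE2 hg (Real.exp_pos _).le (by positivity)))
          (by positivity) (by positivity)
    _ = _ := by
        rw [Real.rpow_add hm0]
        ring

/-- the gain of a state -/
abbrev gn6 (e : SignType) (h : ℝ) : ℝ := P.gn e h

theorem gn6_nonneg (e : SignType) (h : ℝ) : 0 ≤ gn6 e h := P.gn_nonneg e h

theorem gn6_neg (h : ℝ) : gn6 .neg h = 0 := by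
  unfold gn6 P.gn
  rw [if_pos rfl]

theorem gn6_ne {e : SignType} (he : e ≠ .neg) (h : ℝ) : gn6 e h = 1 / 20 * Real.exp (-(8 / 3) * |h|) := by
  unfold gn6 P.gn
  rw [if_neg he]

/-! ### contents -/

/-- the bound for one proportion -/
def SB (n' : ℕ) (F : Fil) (A : Ends) (C : ℝ) (m0 : ℕ) : Prop := ∀ m ≥ m0,
    ∀ (E : Bool → List ℂ) (k : Bool → ℕ) (z : ℂ), @EK F A n' m E k → Ax z → ∀ (e : SignType) (σ : Bool) (x0 : ℂ),
    Win6 e x0.re → 41 / 20 * l < x0.re → |x0.im| ≤ 2 / 3 * Real.log m →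
    ‖cF e z x0 (WK E k σ).get (WK E k !σ).get‖ ≤ (m : ℝ) ^ C * Real.exp (-((m : ℝ) * gn6 e x0.im))

theorem SB.mono {n' : ℕ} {F : Fil} {A : Ends} {C C' : ℝ} {m0 m0' : ℕ} (h : SB n' F A C m0) (hC : C ≤ C')
    (hm : m0 ≤ m0') (h1 : 1 ≤ m0') : SB n' F A C' m0' := by
  intro m hm' E k z hE hz e σ x0 hx h41 hh
  refine (h m (hm.trans hm') E k z hE hz e σ x0 hx h41 hh).trans ?_
  have h2 : (1 : ℝ) ≤ m := by exact_mod_cast h1.trans hm'
  exact mul_le_mul_of_nonneg_right (Real.rpow_le_rpow_of_exponent_le h2 hC) (Real.exp_pos _).le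

/-- **common constants** -/
theorem SB_all (hFF : ∀ F : Fil, @FFth F) (hCl : ∀ (F : Fil) (A : Ends), @KCls6 F A) (n' : ℕ) {ι : Type}
    (s : Finset ι) (f : ι → Fil × Ends) :
    ∃ (C : ℝ) (m0 : ℕ), 0 ≤ C ∧ 1 ≤ m0 ∧ ∀ i ∈ s, SB n' (f i).1 (f i).2 C m0 := by
  classical
  induction s using Finset.induction_on with
  | empty => exact ⟨0, 1, le_rfl, le_rfl, by simp⟩
  | insert a s ha ih =>
    obtain ⟨C, m0, hC, hm0, h⟩ := ih
    obtain ⟨C', m1, hC', h'⟩ := @cF_bd (f a).1 (f a).2 (hFF _) (hCl _ _) n'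
    refine ⟨max C C', max m0 m1, hC.trans (le_max_left _ _), hm0.trans (le_max_left _ _), fun i hi => ?_⟩
    have h1 : 1 ≤ max m0 m1 := hm0.trans (le_max_left _ _)
    rcases Finset.mem_insert.1 hi with rfl | hi
    · exact SB.mono (C := C') (m0 := m1) h' (le_max_right _ _) (le_max_right _ _) h1
    · exact (h i hi).mono (le_max_left _ _) (le_max_left _ _) h1

/-- the proportions of a content: `i ≤ 2 b`: `n | b n + i`; `2 b + 1`: `n | b n - 1` -/
def fEnd (b : ℕ) (hb : 1 ≤ b) (i : ℕ) : Fil × Ends :=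
  if i ≤ 2 * b then (⟨b, hb⟩, ⟨0, i, Nat.zero_le _⟩) else (⟨b, hb⟩, ⟨1, b - 2, le_rfl⟩)

/-- **a content is an instance** -/
theorem CtOk.inst {b m m1 m2 : ℕ} {EX EY : List ℂ} (hb : 1 ≤ b) (hm : 6 ≤ m) (h : CtOk b m m1 m2 EX EY) :
    ∃ (i m' : ℕ) (σ : Bool) (E : Bool → List ℂ) (k : Bool → ℕ), i ∈ Finset.range (2 * b + 2) ∧
      WK E k σ = EX ++ zr m1 ∧ WK E k (!σ) = EY ++ zr m2 ∧
      @EK (fEnd b hb i).1 (fEnd b hb i).2 (b + 1) m' E k ∧ m ≤ m' + 3 ∧ m' ≤ m + b + 3 := by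
  obtain ⟨le1, ge1, le2, ge2, len, ax, ay, lo, hi⟩ := h
  obtain ⟨nX, hnX⟩ : ∃ nX, nX = m1 + EX.length := ⟨_, rfl⟩
  obtain ⟨nY, hnY⟩ : ∃ nY, nY = m2 + EY.length := ⟨_, rfl⟩
  rw [← hnX, ← hnY] at lo hi
  rcases le_or_gt (b * nX) nY with h1 | h1
  · -- `nY = b nX + t`
    obtain ⟨t, ht⟩ := Nat.exists_eq_add_of_le h1
    have ht2 : t ≤ 2 * b := by omega
    refine ⟨t, nX, true, fun a => cond a EX EY, fun a => cond a m1 m2, Finset.mem_range.2 (by omega), rfl, rfl,
      ?_, by omega, by omega⟩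
    have e : fEnd b hb t = (⟨b, hb⟩, ⟨0, t, Nat.zero_le _⟩) := if_pos ht2
    rw [e]
    refine @EK.mk ⟨b, hb⟩ ⟨0, t, Nat.zero_le _⟩ _ _ _ _ (fun a => ?_) (by simpa using len) (fun a => ?_)
    · cases a
      · show EY.length + m2 = b * (nX - 0) + 0 + t
        rw [Nat.sub_zero]
        omega
      · show EX.length + m1 = 1 * (nX - 0) + 0 + 0
        omega
    · cases a
      · exact ay
      · exact ax
  · -- `nY = b nX - 1`
    have h2 : nY + 1 = b * nX := by omega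
    rcases Nat.lt_or_ge b 2 with hb2 | hb2
    · -- `b = 1`: exchange
      have hb1 : b = 1 := by omega
      subst hb1
      rw [one_mul] at h2
      refine ⟨1, nY, false, fun a => cond a EY EX, fun a => cond a m2 m1, Finset.mem_range.2 (by omega), rfl,
        rfl, ?_, by omega, by omega⟩
      have e : fEnd 1 hb 1 = (⟨1, hb⟩, ⟨0, 1, Nat.zero_le _⟩) := if_pos (by norm_num)
      rw [e]
      refine @EK.mk ⟨1, hb⟩ ⟨0, 1, Nat.zero_le _⟩ _ _ _ _ (fun a => ?_)
        (by show EY.length + EX.length ≤ 1 + 1; omega) (fun a => ?_)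
      · cases a
        · show EX.length + m1 = 1 * (nY - 0) + 0 + 1
          omega
        · show EY.length + m2 = 1 * (nY - 0) + 0 + 0
          omega
      · cases a
        · exact ax
        · exact ay
    · refine ⟨2 * b + 1, nX, true, fun a => cond a EX EY, fun a => cond a m1 m2,
        Finset.mem_range.2 (by omega), rfl, rfl, ?_, by omega, by omega⟩
      have e : fEnd b hb (2 * b + 1) = (⟨b, hb⟩, ⟨1, b - 2, le_rfl⟩) := if_neg (by omega)
      rw [e]
      have hn1 : 1 ≤ nX := by omega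
      refine @EK.mk ⟨b, hb⟩ ⟨1, b - 2, le_rfl⟩ _ _ _ _ (fun a => ?_) (by simpa using len) (fun a => ?_)
      · cases a
        · show EY.length + m2 = b * (nX - 1) + 1 + (b - 2)
          obtain ⟨j, hj⟩ := Nat.exists_eq_add_of_le hn1
          have h3 : b * nX = b * j + b := by rw [hj]; ring
          have h4 : nX - 1 = j := by omega
          rw [h4]
          omega
        · show EX.length + m1 = 1 * (nX - 1) + 1 + 0
          omega
      · cases a
        · exact ay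
        · exact ax

/-- **the bound of a state for a content** -/
theorem cF_cont (hFF : ∀ F : Fil, @FFth F) (hCl : ∀ (F : Fil) (A : Ends), @KCls6 F A) {b : ℕ} (hb : 1 ≤ b) :
    ∃ (C : ℝ) (m0 : ℕ), 0 ≤ C ∧ 1024 ≤ m0 ∧ ∀ m ≥ m0, ∀ P Q : List ℂ, Cont b m P Q → ∀ z : ℂ, Ax z →
      ∀ (e : SignType) (x0 : ℂ), Win6 e x0.re → 41 / 20 * l < x0.re → |x0.im| ≤ 3 / 5 * Real.log m →
      ‖cF e z x0 P.get Q.get‖ ≤ (m : ℝ) ^ C * Real.exp (-((m : ℝ) / 2 * gn6 e x0.im)) := by
  obtain ⟨C, m0, hC, hm01, H⟩ := SB_all hFF hCl (b + 1) (Finset.range (2 * b + 2)) (fEnd b hb)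
  refine ⟨2 * C, max (2 * m0 + 6) (max (b + 3) 1024), by positivity,
    (le_max_right _ _).trans (le_max_right _ _), fun m hm P Q hPQ z hz e x0 hx h41 hh => ?_⟩
  have hA : 2 * m0 + 6 ≤ m := (le_max_left _ _).trans hm
  have hB : b + 3 ≤ m := ((le_max_left _ _).trans (le_max_right _ _)).trans hm
  have hD : 1024 ≤ m := ((le_max_right _ _).trans (le_max_right _ _)).trans hm
  have hmr : (1024 : ℝ) ≤ m := by exact_mod_cast hD
  have hm0 : (0 : ℝ) < m := by linarith
  -- the core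
  have core : ∀ (i m' : ℕ) (σ : Bool) (E : Bool → List ℂ) (k : Bool → ℕ), i ∈ Finset.range (2 * b + 2) →
      @EK (fEnd b hb i).1 (fEnd b hb i).2 (b + 1) m' E k → m ≤ m' + 3 → m' ≤ m + b + 3 →
      ‖cF e z x0 (WK E k σ).get (WK E k !σ).get‖ ≤
        (m : ℝ) ^ (2 * C) * Real.exp (-((m : ℝ) / 2 * gn6 e x0.im)) := by
    intro i m' σ E k hi hE h1 h2
    have h3 : m ≤ 2 * m' := by omega
    have h4 : m' ≤ 2 * m := by omega
    have h3r : (m : ℝ) ≤ 2 * m' := by exact_mod_cast h3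
    have h4r : (m' : ℝ) ≤ 2 * m := by exact_mod_cast h4
    have hm'0 : (0 : ℝ) < m' := by linarith
    have hlog : 3 / 5 * Real.log m ≤ 2 / 3 * Real.log m' := by
      have e1 : Real.log m ≤ Real.log 2 + Real.log m' := by
        rw [← Real.log_mul (by norm_num) hm'0.ne']
        exact Real.log_le_log hm0 h3r
      have e2 : 10 * Real.log 2 ≤ Real.log m := by
        have : 10 * Real.log 2 = Real.log (2 ^ 10) := by
          rw [Real.log_pow]
          norm_num
        rw [this]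
        refine Real.log_le_log (by norm_num) ?_
        linarith
      linarith
    have key := H i hi m' (by omega) E k z hE hz e σ x0 hx h41 (hh.trans hlog)
    refine key.trans (mul_le_mul ?_ (Real.exp_le_exp.2 ?_) (Real.exp_pos _).le (by positivity))
    · calc (m' : ℝ) ^ C ≤ ((m : ℝ) ^ 2) ^ C := by
            refine Real.rpow_le_rpow hm'0.le (h4r.trans ?_) hC
            rw [sq]
            exact mul_le_mul_of_nonneg_right (by linarith only [hmr]) hm0.le
        _ = (m : ℝ) ^ (2 * C) := by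
            rw [← Real.rpow_natCast, ← Real.rpow_mul hm0.le]
            norm_num
    · have h5 := gn6_nonneg e x0.im
      have h6 : (m : ℝ) / 2 ≤ m' := by linarith only [h3r]
      exact neg_le_neg (mul_le_mul_of_nonneg_right h6 h5)
  cases hPQ with
  | fst h =>
    obtain ⟨i, m', σ, E, k, hi, e1, e2, hE, h1, h2⟩ := h.inst hb (by omega)
    have := core i m' σ E k hi hE h1 h2
    rw [e1, e2] at this
    exact this
  | snd h =>
    obtain ⟨i, m', σ, E, k, hi, e1, e2, hE, h1, h2⟩ := h.inst hb (by omega)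
    have := core i m' (!σ) E k hi hE h1 h2
    rw [Bool.not_not, e1, e2] at this
    exact this

/-! ### the three bounds of (K) -/

theorem zP_win {e : SignType} {x : ℂ} (h1 : 206 / 100 * l ≤ x.re)
    (h2 : x.re ≤ (if e = .neg then 31 / 10 * l else 21 / 10 * l)) : Win6 e x.re ∧ 41 / 20 * l < x.re := by
  have hl := lpos
  exact ⟨⟨by linarith, h2⟩, by linarith⟩

/-- **(K2)** -/
theorem minP6 (hFF : ∀ F : Fil, @FFth F) (hCl : ∀ (F : Fil) (A : Ends), @KCls6 F A) {b : ℕ} (hb : 1 ≤ b) :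
    MinP zP b := by
  have hl := lpos
  have hll : ll = l := rfl
  obtain ⟨C, m0, hC, hm0, H⟩ := cF_cont hFF hCl hb
  have key : ∀ m ≥ m0, ∀ P Q : List ℂ, Cont b m P Q → ∀ z : ℂ, Ax z → ∀ w : ℂ, (206 / 100 - 3) * l ≤ w.re →
      w.re ≤ 1 / 10 * l → |w.im| ≤ 3 / 5 * Real.log m → ‖JU z P.get Q.get w‖ ≤ (m : ℝ) ^ C := by
    intro m hm P Q hPQ z hz w h1 h2 h3
    have hmr : (1024 : ℝ) ≤ m := by exact_mod_cast hm0.trans hm
    have hz7 : |z.re| < 7 / 10 * l := by
      rw [hz.1, abs_zero]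
      positivity
    have e1 : (w + 3 * (l : ℂ)).re = w.re + 3 * l := by simp
    have e2 : (w + 3 * (l : ℂ)).im = w.im := by simp
    obtain ⟨nP, nQ⟩ := hPQ.nr
    rw [← JU_far hz7 (by rw [abs_lt]; constructor <;> linarith) nP.get nQ.get]
    obtain ⟨w1, w2⟩ := zP_win (e := .neg) (x := w + 3 * l) (by rw [e1]; linarith) (by
      rw [if_pos rfl, e1]
      linarith)
    refine (H m hm P Q hPQ z hz .neg _ w1 w2 (by rw [e2]; exact h3)).trans ?_
    rw [gn6_neg, mul_zero, neg_zero, Real.exp_zero, mul_one]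
  refine ⟨⟨C, m0, fun m hm P Q hPQ z hz w h1 h2 h3 => ?_⟩, ⟨C, m0, fun m hm P Q hPQ z hz w h1 h2 h3 => ?_⟩⟩
  · have hmr : (1024 : ℝ) ≤ m := by exact_mod_cast hm0.trans hm
    have hL : 0 ≤ Real.log m := Real.log_nonneg (by linarith)
    have h1' : (206 / 100 - 3) * l ≤ w.re := h1
    have h2' : w.re ≤ (210 / 100 - 3) * l := h2
    have h3' : |w.im| ≤ 11 / 20 * Real.log m := h3
    exact key m hm P Q hPQ z hz w h1' (by linarith) (by linarith)
  · have hmr : (1024 : ℝ) ≤ m := by exact_mod_cast hm0.trans hm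
    have hL : 2 ≤ Real.log m := by
      rw [Real.le_log_iff_exp_le (by linarith)]
      have h5 : Real.exp 2 = Real.exp 1 * Real.exp 1 := by rw [← Real.exp_add]; norm_num
      have := Real.exp_one_lt_d9
      have := Real.exp_pos 1
      rw [h5]
      nlinarith
    have h1' : (206 / 100 - 3) * l ≤ w.re := h1
    have h2' : w.re ≤ 1 / 10 * l := h2
    have h3' : |w.im| ≤ 1 / 50 * Real.log m + 1 := h3
    exact key m hm P Q hPQ z hz w h1' h2' (by linarith)

/-- **(K3)** -/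
theorem farP6 (hFF : ∀ F : Fil, @FFth F) (hCl : ∀ (F : Fil) (A : Ends), @KCls6 F A) {b : ℕ} (hb : 1 ≤ b) :
    FarP zP b := by
  have hl := lpos
  obtain ⟨C, m0, hC, hm0, H⟩ := cF_cont hFF hCl hb
  refine ⟨C, m0, fun m hm P Q hPQ z hz e he x h1 h2 h3 => ?_⟩
  have hmr : (1024 : ℝ) ≤ m := by exact_mod_cast hm0.trans hm
  have hL : 0 ≤ Real.log m := Real.log_nonneg (by linarith)
  have h1' : 206 / 100 * l ≤ x.re := h1
  have h2' : x.re ≤ 210 / 100 * l := h2
  have h3' : |x.im| ≤ 11 / 20 * Real.log m := h3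
  obtain ⟨w1, w2⟩ := zP_win (e := e) (x := x) h1' (by rw [if_neg he]; linarith)
  refine (H m hm P Q hPQ z hz e x w1 w2 (by linarith)).trans ?_
  refine mul_le_of_le_one_right (by positivity) ?_
  rw [Real.exp_le_one_iff]
  have := gn6_nonneg e x.im
  have : 0 ≤ (m : ℝ) / 2 * gn6 e x.im := by positivity
  linarith

/-- **(K4)** -/
theorem farSP6 (hFF : ∀ F : Fil, @FFth F) (hCl : ∀ (F : Fil) (A : Ends), @KCls6 F A) {b : ℕ} (hb : 1 ≤ b) :
    FarSP zP b := by
  have hl := lpos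
  obtain ⟨C, m0, hC, hm0, H⟩ := cF_cont hFF hCl hb
  refine FarSP.of_exp (c := 1 / 2) (by norm_num) ?_
  -- `m ^ C exp (- m ^ (73 / 75) / 40) ≤ exp (- m ^ (1 / 2))`
  have h1 : ∀ᶠ m : ℕ in atTop, C * Real.log m + (m : ℝ) ^ (1 / 2 : ℝ) ≤ (m : ℝ) ^ (9 / 10 : ℝ) / 40 := by
    have a1 := tendsto_natCast_atTop_atTop.eventually
      ((isLittleO_log_rpow_atTop (r := 9 / 10) (by norm_num)).bound (show 0 < 1 / (80 * (C + 1)) by positivity))
    have a2 := tendsto_natCast_atTop_atTop.eventually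
      ((tendsto_rpow_atTop (y := 2 / 5) (by norm_num)).eventually_ge_atTop (80 : ℝ))
    filter_upwards [a1, a2, eventually_ge_atTop 2] with m b1 b2 b3
    have hm2 : (2 : ℝ) ≤ m := by exact_mod_cast b3
    have hL : 0 < Real.log m := Real.log_pos (by linarith)
    rw [Real.norm_of_nonneg hL.le, Real.norm_of_nonneg (by positivity)] at b1
    have b5 : (m : ℝ) ^ (9 / 10 : ℝ) = (m : ℝ) ^ (1 / 2 : ℝ) * (m : ℝ) ^ (2 / 5 : ℝ) := by
      rw [← Real.rpow_add (by linarith)]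
      norm_num
    have b6 : (m : ℝ) ^ (1 / 2 : ℝ) ≤ (m : ℝ) ^ (9 / 10 : ℝ) / 80 := by
      rw [b5]
      have : 0 ≤ (m : ℝ) ^ (1 / 2 : ℝ) := by positivity
      nlinarith
    have b4 : C * Real.log m ≤ (m : ℝ) ^ (9 / 10 : ℝ) / 80 := by
      calc C * Real.log m ≤ C * (1 / (80 * (C + 1)) * (m : ℝ) ^ (9 / 10 : ℝ)) :=
            mul_le_mul_of_nonneg_left b1 hC
        _ = C / (C + 1) * ((m : ℝ) ^ (9 / 10 : ℝ) / 80) := by
            field_simp
        _ ≤ 1 * ((m : ℝ) ^ (9 / 10 : ℝ) / 80) := by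
            refine mul_le_mul_of_nonneg_right ?_ (by positivity)
            rw [div_le_one (by positivity)]
            linarith
        _ = _ := one_mul _
    linarith
  obtain ⟨m1, hm1⟩ := h1.exists_forall_of_atTop
  refine ⟨max m0 m1, fun m hm P Q hPQ z hz e he x h2 h3 h4 => ?_⟩
  have hm' : m0 ≤ m := (le_max_left _ _).trans hm
  have hmr : (1024 : ℝ) ≤ m := by exact_mod_cast hm0.trans hm'
  have hmp : (0 : ℝ) < m := by linarith
  have hL : 0 ≤ Real.log m := Real.log_nonneg (by linarith)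
  have h2' : 206 / 100 * l ≤ x.re := h2
  have h3' : x.re ≤ 210 / 100 * l := h3
  have h4' : |x.im| ≤ 1 / 100 * Real.log m := h4
  obtain ⟨w1, w2⟩ := zP_win (e := e) (x := x) h2' (by rw [if_neg he]; linarith)
  refine (H m hm' P Q hPQ z hz e x w1 w2 (by linarith)).trans ?_
  rw [gn6_ne he, Real.rpow_def_of_pos hmp, ← Real.exp_add]
  refine Real.exp_le_exp.2 ?_
  have h5 := hm1 m ((le_max_right _ _).trans hm)
  have h6 : (m : ℝ) ^ (9 / 10 : ℝ) ≤ m * Real.exp (-(8 / 3) * |x.im|) := by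
    have e4 : (m : ℝ) * Real.exp (-(8 / 3) * |x.im|) = Real.exp (Real.log m + -(8 / 3) * |x.im|) := by
      rw [Real.exp_add, Real.exp_log hmp]
    rw [e4, Real.rpow_def_of_pos hmp]
    refine Real.exp_le_exp.2 ?_
    linarith
  linarith

/-- **(K)** from the class formula and the class bound -/
theorem kRows6 (hFF : ∀ F : Fil, @FFth F) (hCl : ∀ (F : Fil) (A : Ends), @KCls6 F A) {b : ℕ} (hb : 1 ≤ b) :
    KRows nL b :=
  kRows_ofP (Z := zP) (by show (17 / 10 : ℝ) < 206 / 100; norm_num) hb (minP6 hFF hCl hb) (farP6 hFF hCl hb)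
    (farSP6 hFF hCl hb)

end Pool.Agent.PLX

end
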