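import Pool.Agent.PHK.ZK6

/-!
# (P): the exact half of the bounds, contents of any sizes, one group with spectators of a charge

* **`FFth`** : the class formula of (P): `ZobjQ` on the lines of (P) is the functional `FF6`, for class functions with
  `OneC6`, `DecZ6`, `InvZ6` (the interface; a hypothesis of the theorems below);
* `DZ_ZK6` : the state sum is the functional `FF6 (ZK6 ..)`;
* **`KRep6`** : the sum over the charges `κ` with first group the rows of the species `σ` is at most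
  `∑ k < 2 m + 1, FA6 (ZK6 ..) P (k + aX) (k + aY) .. 1`;
* `nzU_KRep6`, `JU_KRep6`, `cF_KRep6` : the three functions.
-/

set_option autoImplicit false
set_option linter.unusedSectionVars false
set_option linter.unusedVariables false

noncomputable section

open Complex MeasureTheory
open scoped ENNReal

namespace Pool.Agent.PLX

open NUO NUP1 NUP1S NUP1.Bd NURow
open PBX (Rws ph Lg gP)
open PBF.PLX (Crs)
open PHK (Par6 GoodP6 OneC6 FF6 FA6 FF6_le)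
open _root_.RX (sumU Wo Vo kO kX k1)
open Pool.Agent.PB (Pf LS cn)
open PBS (Th)
open _root_.PLX (Fil)

/-- the lines of the holes are in `[l / 8, 31 / 32 l]` -/
structure HI6 (P : Par6) : Prop where
  j1 : 1 / 32 ≤ P.j1
  j2 : P.j2 ≤ 7 / 8

theorem hI6_par6 : HI6 PHK.par6 := by
  constructor <;> norm_num [PHK.par6]

/-- **the class formula of (P)** -/
def FFth [Fil] : Prop :=
  ∀ (Z : Bool → Option O3 → ℂ → ℂ) (B : NUGC.PLX.OB) (P : Par6) (ep κ : ℝ) (Q : ℤ) (E : Set ℝ) (n n' : ℕ)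
    (η η' : Crs), GoodP6 P → HI6 P → 0 < ep → ep ≤ 1 / 100 → κ ≤ 8 / 3 → OneC6 Z B P ep κ (51 / 100 * l) Q E →
    DecZ6 Z P (51 / 100 * l) κ Q → InvZ6 Z κ Q → (n : ℤ) = n' + Q →
    (∀ r ≤ 2 * (n + n'), ∀ᵐ O ∂(Measure.pi fun _ : Fin r => NUO.nu), NUCR.CurB ep (η r O) (η' r O)) →
    ZobjQ (Z true) (Z false) (51 / 100 * l) n n' (fun _ _ k _ i => ln6 P (k i))
      (fun _ _ _ k' i => ln6 P (k' i)) = FF6 Z P n n' η η' (fun _ _ _ _ _ => 1)

variable {N : Bool → ℕ} {P : Par6} {ep β : ℝ} {c : Bool → ℂ} {c0 : ℝ} {ro : ∀ a, Fin (N a) → ℂ}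
  {ex : Bool → List ℂ} {g0 : Bool → ℂ → ℂ} {s : Bool → ℂ → ℂ} {q : ℤ}

/-- the constants do not vanish -/
theorem norm_cn0_pos : 0 < ‖cn 0‖ := by
  have hl := lpos
  rw [norm_pos_iff]
  unfold Pool.Agent.PB.cn
  rw [pow_zero, one_mul]
  refine div_ne_zero (sin_ne_re (a := 2 * l) (by simp) ?_) (sin_ne_re (a := l) (by simp) ?_)
  · exact (sin_pos_of (by linarith) (by linarith)).ne'
  · exact (sin_pos_of (by linarith) (by linarith)).ne'

/-- **the state sum is the functional** -/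
theorem DZ_ZK6 [Fil] (hFF : FFth) (hP : GoodP6 P) (hI : HI6 P) (hep0 : 0 < ep) (hep : ep ≤ 1 / 100) (hβ : 0 < β)
    (hβ' : β ≤ 4 / 3) (hr : ∀ a, Rws (ro a)) (hex : ∀ a, ∀ w ∈ ex a, |w.re| ≤ l / 2) (hg0 : ∀ a, GF6 (ro a) (g0 a))
    (hφ : PhI6 β ro ex) (hc0 : 0 < c0) (hc : ∀ a, ‖c a‖ = c0) (hs : ∀ a, SpW6 (sc (a, .A) * (q : ℝ)) (s a))
    {n n' : ℕ}
    (hn : (n' : ℤ) + N true = n + N false + q) {η η' : Crs}
    (hη : ∀ r ≤ 2 * (n + n'), ∀ᵐ O ∂(Measure.pi fun _ : Fin r => NUO.nu), NUCR.CurB ep (η r O) (η' r O)) :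
    DZU (c true) (c false) (s true) (s false) (ro true) (ro false) n n' =
      FF6 (ZK6 c β ro ex g0 s) P n n' η η' (fun _ _ _ _ _ => 1) := by
  have hl := lpos
  rw [DZ_Zobj6 (g0 := g0) hP hβ hβ' hr hex (fun a => (hg0 a).gn) hs hn]
  have h1 := oneC6_ZK6 (P := P) (x0 := 51 / 100 * l) le_rfl (by linarith) hep0 hep hβ hβ' hr hex
    (fun a => (hg0 a).gn.meas) hc hs
  have h2 := decZ6_ZK6 (c := c) hP hβ hβ' hr hex hg0 hs
  have h3 := invZ6_ZK6 (c := c) (g0 := g0) hβ hβ' hr hex hφ (fun a => norm_pos_iff.1 (by rw [hc a]; exact hc0)) hs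
  have e : ((-q + N true - N false : ℤ) : ℝ) = -(q : ℝ) + N true - N false := by push_cast; ring
  exact hFF (ZK6 c β ro ex g0 s) _ P ep (2 * β) (-q + N true - N false) _ n n' η η' hP hI hep0 hep
    (by linarith) h1 (by rw [e]; exact h2) (by rw [e]; exact h3) (by linarith) hη

/-- **the exact half of (K)**: first group = the rows of the species `σ`, spectators `S` of charge `κ` on it
and `T` of charge `-κ` on the other one; the numbers of quanta `k + aX`, `k + aY` -/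
theorem KRep6 [Fil] (hFF : FFth) (hP : GoodP6 P) (hI : HI6 P) (hep0 : 0 < ep) (hep : ep ≤ 1 / 100) (hβ : 0 < β)
    (hβ' : β ≤ 4 / 3) (hr : ∀ a, Rws (ro a)) (hex : ∀ a, ∀ w ∈ ex a, |w.re| ≤ l / 2) (hg0 : ∀ a, GF6 (ro a) (g0 a))
    (hφ : PhI6 β ro ex) (hc0 : 0 < c0) {C C' : ℂ} (hC : ‖C‖ = c0) (hC' : ‖C'‖ = c0)
    {σ : Bool} {κ : ℤ} {S T : ℂ → ℂ} (hS : SpW6 κ S) (hT : SpW6 (-(κ : ℝ)) T) {aX aY : ℕ}
    (ha : (aY : ℤ) + N true = aX + N false + kq σ κ) (h0 : aX = 0 ∨ aY = 0) {η η' : ℕ → Crs}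
    (hη : ∀ k ∈ Finset.range (2 * N true + 1), ∀ r ≤ 2 * ((k + aX) + (k + aY)),
      ∀ᵐ O ∂(Measure.pi fun _ : Fin r => NUO.nu), NUCR.CurB ep (η k r O) (η' k r O)) :
    ‖sumU (N σ) (N (!σ)) κ fun n n' => DZU C C' S T (ro σ) (ro (!σ)) n n'‖ₑ ≤
      ∑ k ∈ Finset.range (2 * N true + 1), FA6 (ZK6 (spS σ C C') β ro ex g0 (spS σ S T)) P
        (k + aX) (k + aY) (η k) (η' k) (fun _ _ _ _ _ => 1) := by
  have hc : ∀ a, ‖spS σ C C' a‖ = c0 := by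
    intro a
    unfold spS
    split_ifs
    · exact hC
    · exact hC'
  have hs : ∀ a, SpW6 (sc (a, .A) * ((kq σ κ : ℤ) : ℝ)) (spS σ S T a) := fun a => SpW6.spS hS hT a
  -- the sum with the species X first
  have e : (sumU (N σ) (N (!σ)) κ fun n n' => DZU C C' S T (ro σ) (ro (!σ)) n n') =
      sumU (N true) (N false) (kq σ κ) fun n n' => DZU (spS σ C C' true) (spS σ C C' false)
        (spS σ S T true) (spS σ S T false) (ro true) (ro false) n n' := by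
    cases σ
    · rw [sumU_swap]
      show sumU (N true) (N false) (-κ) (fun n n' => DZU C C' S T (ro false) (ro true) n' n) =
        sumU (N true) (N false) (-κ) fun n n' => DZU C' C T S (ro true) (ro false) n n'
      congr 1
      funext n n'
      exact DZU_swap _ _ _ _ _ _ _ _
    · rfl
  rw [e]
  refine sumU_enorm_le' ha h0 fun k hk => ?_
  rw [DZ_ZK6 hFF hP hI hep0 hep hβ hβ' hr hex hg0 hφ hc0 hc hs (by push_cast; linarith) (hη k hk)]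
  exact FF6_le _

/-! ### the three functions -/

/-- **the content** -/
theorem nzU_KRep6 [Fil] (hFF : FFth) (hP : GoodP6 P) (hI : HI6 P) (hep0 : 0 < ep) (hep : ep ≤ 1 / 100) (hβ : 0 < β)
    (hβ' : β ≤ 4 / 3) (hr : ∀ a, Rws (ro a)) (hex : ∀ a, ∀ w ∈ ex a, |w.re| ≤ l / 2) (hg0 : ∀ a, GF6 (ro a) (g0 a))
    (hφ : PhI6 β ro ex) {z : ℂ} (h1 : -(9 / 10 * l) ≤ z.re) (h2 : z.re ≤ 31 / 10 * l) {aX aY : ℕ}
    (ha : (aY : ℤ) + N true = aX + N false) (h0 : aX = 0 ∨ aY = 0) {η η' : ℕ → Crs}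
    (hη : ∀ k ∈ Finset.range (2 * N true + 1), ∀ r ≤ 2 * ((k + aX) + (k + aY)),
      ∀ᵐ O ∂(Measure.pi fun _ : Fin r => NUO.nu), NUCR.CurB ep (η k r O) (η' k r O)) :
    ‖nzU z (ro true) (ro false)‖ₑ ≤ ‖Pf z (ro true) (ro false)‖ₑ *
      ∑ k ∈ Finset.range (2 * N true + 1), FA6 (ZK6 (fun a => cn (N a)) β ro ex g0 fun _ => Lg z z) P
        (k + aX) (k + aY) (η k) (η' k) (fun _ _ _ _ _ => 1) := by
  have hL : SpW6 ((0 : ℤ) : ℝ) (Lg z z) := by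
    have := SpW6.leg (z := z) h1 h2
    simpa using this
  have hL' : SpW6 (-((0 : ℤ) : ℝ)) (Lg z z) := by simpa using hL
  have h := KRep6 (σ := true) (κ := 0) (C := cn (N true)) (C' := cn (N (!true))) hFF hP hI hep0 hep hβ hβ'
    hr hex hg0 hφ norm_cn0_pos (norm_cn _) (norm_cn _) hL hL' (by
      show (aY : ℤ) + N true = aX + N false + 0
      linarith) h0 hη
  rw [spS_cn, spS_same] at h
  unfold nzU
  rw [enorm_mul]
  exact mul_le_mul' le_rfl h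

/-- **a row removed from the species `σ`**, `-47/50 l ≤ Re w ≤ 1/10 l` -/
theorem JU_KRep6 [Fil] (hFF : FFth) (hP : GoodP6 P) (hI : HI6 P) (hep0 : 0 < ep) (hep : ep ≤ 1 / 100) (hβ : 0 < β)
    (hβ' : β ≤ 4 / 3) (hr : ∀ a, Rws (ro a)) (hex : ∀ a, ∀ w ∈ ex a, |w.re| ≤ l / 2) (hg0 : ∀ a, GF6 (ro a) (g0 a))
    (hφ : PhI6 β ro ex) {z w : ℂ} (hz : |z.re| < 7 / 10 * l)
    (hw : -(47 / 50 * l) ≤ w.re) (hw' : w.re ≤ 1 / 10 * l) {σ : Bool} {aX aY : ℕ}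
    (ha : (aY : ℤ) + N true = aX + N false + kq σ 1) (h0 : aX = 0 ∨ aY = 0) {η η' : ℕ → Crs}
    (hη : ∀ k ∈ Finset.range (2 * N true + 1), ∀ r ≤ 2 * ((k + aX) + (k + aY)),
      ∀ᵐ O ∂(Measure.pi fun _ : Fin r => NUO.nu), NUCR.CurB ep (η k r O) (η' k r O)) :
    ‖JU z (ro σ) (ro (!σ)) w‖ₑ ≤ ‖Pf z (ro σ) (ro (!σ)) * PJU z (ro σ) (ro (!σ)) w‖ₑ *
      ∑ k ∈ Finset.range (2 * N true + 1), FA6 (ZK6 (spS σ (-cn (N σ)) (cn (N (!σ)))) β ro ex g0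
        (spS σ (sX z w) (sY z w))) P (k + aX) (k + aY) (η k) (η' k) (fun _ _ _ _ _ => 1) := by
  have hl := lpos
  have hS : SpW6 ((1 : ℤ) : ℝ) (sX z w) := by
    have := SpW6.sX (z := z) (w := w) hz hw hw'
    simpa using this
  have hT : SpW6 (-((1 : ℤ) : ℝ)) (sY z w) := by
    have := SpW6.sY (z := z) (w := w) hz hw (by linarith)
    simpa using this
  have h := KRep6 (σ := σ) (κ := 1) (C := -cn (N σ)) (C' := cn (N (!σ))) hFF hP hI hep0 hep hβ hβ'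
    hr hex hg0 hφ norm_cn0_pos (by rw [norm_neg]; exact norm_cn _) (norm_cn _) hS hT ha h0 hη
  unfold JU
  rw [enorm_mul]
  exact mul_le_mul' le_rfl h

/-- **the state `e` of a far row in the species `σ`** -/
theorem cF_KRep6 [Fil] (hFF : FFth) (e : SignType) (hP : GoodP6 P) (hI : HI6 P) (hep0 : 0 < ep) (hep : ep ≤ 1 / 100)
    (hβ : 0 < β) (hβ' : β ≤ 4 / 3) (hr : ∀ a, Rws (ro a)) (hex : ∀ a, ∀ w ∈ ex a, |w.re| ≤ l / 2)
    (hg0 : ∀ a, GF6 (ro a) (g0 a)) (hφ : PhI6 β ro ex) {z x0 : ℂ} (hz : |z.re| < 7 / 10 * l)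
    (h1 : 41 / 20 * l < x0.re) (h2 : x0.re ≤ (if e = .neg then 31 / 10 * l else 21 / 10 * l)) {σ : Bool}
    {aX aY : ℕ} (ha : (aY : ℤ) + N true = aX + N false + kq σ (ch e)) (h0 : aX = 0 ∨ aY = 0)
    {η η' : ℕ → Crs}
    (hη : ∀ k ∈ Finset.range (2 * N true + 1), ∀ r ≤ 2 * ((k + aX) + (k + aY)),
      ∀ᵐ O ∂(Measure.pi fun _ : Fin r => NUO.nu), NUCR.CurB ep (η k r O) (η' k r O)) :
    ‖cF e z x0 (ro σ) (ro (!σ))‖ₑ ≤ ‖Pf z (ro σ) (ro (!σ)) *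
        (k1 z e x0 * ((∏ i, kO e (x0 - ro σ i)) * ∏ j, kX e (x0 - ro (!σ) j)))‖ₑ *
      ∑ k ∈ Finset.range (2 * N true + 1), FA6 (ZK6 (fun a => cn (N a)) β ro ex g0
        (spS σ (fun u => Th z u * Wo e (u - x0)) (fun u => Th z u * Vo e (u - x0)))) P
        (k + aX) (k + aY) (η k) (η' k) (fun _ _ _ _ _ => 1) := by
  obtain ⟨hS, hT⟩ := SpW6.far e hz h1 h2
  have h := KRep6 (σ := σ) (κ := ch e) (C := cn (N σ)) (C' := cn (N (!σ))) hFF hP hI hep0 hep hβ hβ'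
    hr hex hg0 hφ norm_cn0_pos (norm_cn _) (norm_cn _) hS hT ha h0 hη
  rw [spS_cn] at h
  unfold cF
  rw [enorm_mul]
  exact mul_le_mul' le_rfl h

end Pool.Agent.PLX

end
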