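import Pool.Agent.PHK.Ob6I
import Pool.Agent.PHK.OneAct6
import Pool.Agent.PHK.Leg6
import Pool.Agent.PLX.PB.TopG0
import Pool.Agent.PLX.YqL

/-!
# (P): the one body data of the dislocated function

Rows `mu1 k x`, legs at `z`, `m = k + 1 + e` effective rows (`e = Ends.e`, `Ends.o = 0`), cutoff of the
strings with the factor `om` at `T1`.

* `obL6 T1 k β x z`: one body data; `obL6_R`, `obL6_φ`: as `PBT.PLX.obL`;
* `in6_L`: hypotheses of the instance; **`ob6_leg`**: `Ob6` for `-(9/10) l ≤ Re z ≤ (31/10) l`;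
* `cL6`: the constant; `tauL6`: the end of the window.
-/

set_option autoImplicit false
set_option linter.unusedSectionVars false

noncomputable section

open Complex MeasureTheory Set
open PLX (Fil Ends)

namespace PHK

open NUP1 NUO NUGC.PLX
open PBO.PLX (cZ cZ_pos leg_up leg_inv)
open PBL.PLX (mu1)
open Pool.Agent.PLX (rwq)

variable [Fil]

/-- one body data: rows `x, 0, …, 0`, legs at `z`, cutoff with the points `± i` -/
def obL6 (T1 : ℝ) (k : ℕ) (β : ℝ) (x z : ℂ) : OB :=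
  obX6 (2 * Real.cos NUP1.l) β (mu1 k x) (fun _ => [I, -I])
    (fun a => phO T1 (List.ofFn (rwq (mu1 k x) a) ++ [])) fun _ u => PBX.PLX.thZ z u

theorem obL6_R (T1 : ℝ) (k : ℕ) (β : ℝ) (x z : ℂ) : (obL6 T1 k β x z).R = (PBT.PLX.obL k β x z).R :=
  rfl

theorem obL6_φ (T1 : ℝ) (k : ℕ) (β : ℝ) (x z : ℂ) : (obL6 T1 k β x z).φ = (PBT.PLX.obL k β x z).φ :=
  rfl

theorem obL6_nn (T1 : ℝ) (k : ℕ) (β : ℝ) (x z : ℂ) : (obL6 T1 k β x z).Nn :=
  obX6_nn PBT.PLX.two_cos.1 β _ _ _ fun _ u => PBX.PLX.thZ_nonneg z u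

variable [Ends]

/-- at most this number of rows is not `0` -/
def nL6 : ℕ := Fil.q + 1

/-- **the hypotheses of the instance** -/
theorem in6_L (ho : Ends.o = 0) {k : ℕ} {β : ℝ} (hβ : 0 < β) (hβ' : β ≤ 4 / 3) {x z : ℂ}
    (hx : |x.re| ≤ l / 10) (hx' : |x.im| ≤ 2) (h1 : -(9 / 10 * l) ≤ z.re) (h2 : z.re ≤ 31 / 10 * l) :
    In6 nL6 2 Ends.e 2 cZ (Fil.qo : ℕ) par6 (fun a => Fil.ne a (k + 1 + Ends.e)) (k + 1 + Ends.e) β
      (M := fun a => cond a (k + 1) (Fil.q * (k + 1))) (rwq (mu1 k x)) (fun _ => [I, -I])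
      (fun _ => []) fun _ u => PBX.PLX.thZ z u where
  β0 := hβ
  β1 := hβ'
  rows := by
    have hl := l_pos
    refine ⟨fun a => ⟨Fil.n a * k, List.replicate (Fil.n a) x, ?_, ?_, ?_, ?_⟩, fun a => ?_,
      fun a => ?_, ?_⟩
    · exact (Pool.Agent.PLX.ofFn_rwq_cons k x 0 a).trans List.perm_append_comm
    · rw [List.length_replicate]
      have := Fil.n_le a
      unfold nL6
      omega
    · intro y hy
      rw [List.eq_of_mem_replicate hy]
      linarith
    · intro y hy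
      rw [List.eq_of_mem_replicate hy]
      exact hx'
    · intro y hy
      have hy' := (Pool.Agent.PLX.ofFn_rwq_cons k x 0 a).mem_iff.1 hy
      rcases List.mem_append.1 hy' with h | h
      · rw [List.eq_of_mem_replicate h]
        linarith
      · rw [List.eq_of_mem_replicate h, zero_re, abs_zero]
        positivity
    · have hp : (List.ofFn (rwq (mu1 k x) a)).Perm
        (List.replicate (Fil.n a) x ++ List.replicate (Fil.n a * k) 0) :=
        Pool.Agent.PLX.ofFn_rwq_cons k x 0 a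
      show (List.ofFn (rwq (mu1 k x) a)).length + Ends.e = Fil.ne a (k + 1 + Ends.e)
      rw [hp.length_eq, List.length_append, List.length_replicate, List.length_replicate]
      unfold Fil.ne
      rw [Nat.add_sub_cancel, ho]
      cases a <;> simp <;> ring
    · have := Ends.le
      unfold nL6
      omega
  num a := by
    have := Fil.ner_le_qo a (k := k + 1 + Ends.e) (by omega)
    exact this
  mN a := (Fil.le_ne a _).trans (Nat.le_add_right _ _)
  w1 _ := PtL.II le_rfl (by norm_num)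
  w2 _ := PtL.nil _ _
  gp _ u := PBX.PLX.thZ_nonneg z u
  gu j hj a t := by
    have hl := l_pos
    have hr : (vl ((1 - j) * l) t).re = (1 - j) * l := vlr _ _
    have hj' : j ≤ 7 / 2 ∧ 0 ≤ j := by
      simp only [upL, par6, List.mem_cons, List.not_mem_nil, or_false] at hj
      rcases hj with rfl | rfl | rfl | rfl | rfl | rfl <;> constructor <;> norm_num
    refine leg_up h1 h2 ?_ ?_ <;> rw [hr] <;> nlinarith [hj'.1, hj'.2]
  gl j hj a t := by
    have hl := l_pos
    have hr : (vl ((1 - j) * l) t).re = (1 - j) * l := vlr _ _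
    have hj' : j ≤ 7 / 8 ∧ 0 ≤ j := by
      simp only [loL, par6, List.mem_cons, List.not_mem_nil, or_false] at hj
      rcases hj with rfl | rfl | rfl <;> constructor <;> norm_num
    refine leg_inv h1 h2 ?_ ?_ <;> rw [hr] <;> nlinarith [hj'.1, hj'.2]

/-- the constant of the one body data -/
def cL6 : ℝ := cI6 nL6 2 2 cZ (2 * Real.cos l) (Fil.qo : ℕ)

/-- the end of the window, `T1 ≥ (3/8) log m + tauL6` -/
def tauL6 : ℝ := tau0 2 ((Fil.qo : ℕ) + (2 : ℕ))

theorem two_cos_pos : 0 < 2 * Real.cos l := by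
  have hp := Real.pi_pos
  have h : 0 < Real.cos l := Real.cos_pos_of_mem_Ioo ⟨by unfold l; linarith, by unfold l; linarith⟩
  linarith

/-- **the one body data of the dislocated function on the lines of the six kinds** -/
theorem ob6_leg (ho : Ends.o = 0) : ∃ m0 : ℕ, 1 ≤ m0 ∧ ∀ k : ℕ, m0 ≤ k + 1 + Ends.e → ∀ β : ℝ, 0 < β →
    β ≤ 4 / 3 → ∀ x z : ℂ, |x.re| ≤ l / 10 → |x.im| ≤ 2 → -(9 / 10 * l) ≤ z.re →
    z.re ≤ 31 / 10 * l → ∀ T1 : ℝ,
      3 / 8 * Real.log (k + 1 + Ends.e : ℕ) + tauL6 ≤ T1 →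
      Ob6 par6 cL6 (fun a => Fil.ne a (k + 1 + Ends.e)) (k + 1 + Ends.e) β T1
        (obL6 T1 k β x z) := by
  obtain ⟨m0, hm0⟩ := exists_nat_ge (2 ^ 14 * Real.exp (8 / 3 * 2) * (3 * nL6 + 2 : ℕ))
  refine ⟨max m0 1, le_max_right _ _, fun k hk β hβ hβ' x z hx hx' h1 h2 T1 hT => ?_⟩
  have h3 : m0 ≤ k + 1 + Ends.e := (le_max_left _ _).trans hk
  have h4 : (m0 : ℝ) ≤ ((k + 1 + Ends.e : ℕ) : ℝ) := by exact_mod_cast h3
  have hq : (1 : ℝ) ≤ ((Fil.qo : ℕ) : ℝ) := Fil.one_le_qor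
  exact (in6_L ho hβ hβ' hx hx' h1 h2).ob6X par6_good (by norm_num [par6]) (by norm_num)
    two_cos_pos hq cZ_pos.le ((le_max_right _ _).trans hk) (hm0.trans h4) hT

end PHK

end
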