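import Pool.Agent.PHK.LetD
import Pool.Agent.PHK.Ob6

/-!
# (P): the letters on the evaluation points: bounds of the neutral factors, pairs of letters

* `away_dom`: the points of `DomP par6 ep` are `l / 16` away from the places of the letters, mod `l`;
* `log_sin_bd`, `lw_bd`: two sided bound of words; **`dv6_le`**, `dv6_inv_le` (constant `kV6`);
* two letters: `gdK6`, `atK6`, `dvK6`; **`obV_eq`**, `dvK6_line`, `atK6_ok`, `dvK6_le`, `dvK6_inv_le`.
-/

set_option autoImplicit false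
set_option linter.unusedSectionVars false

noncomputable section

open Complex

namespace PHK

open NUP1 NUP1S NURow NUP1.Leg NUP1.Bd NUGC.PLX PBR.PLX
open NUO (Away pA bk yw wz ll_pos)
open NUSp (Cl wG wc wq wn wq_cons wn_cons)
open NUSea.PLX.H0 (Gd)
open PBH.PLX (Atm HS AtOk pw)

/-! ### distance to the places of the letters -/

theorem Away.gn {δ : ℝ} (hδ : 0 < δ) {x : ℂ} (h : Away δ x) : Gn x := by
  have hl := NUP1.l_pos
  intro n hn
  have h1 := h n
  rw [show NUMF.l = l from rfl, hn, sub_self, abs_zero] at h1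
  have : 0 < δ * l := by positivity
  linarith

/-- **the evaluation points are away from the places of the letters** -/
theorem away_dom {ep : ℝ} (hep : ep ≤ 1 / 100) {z : ℂ} (hz : z ∈ DomP par6 ep) {p : ℝ}
    (hp : p = 5 / 4 ∨ p = -(11 / 4) ∨ p = 5 / 8) (τ : ℝ) : Away (1 / 16) (z - vl (p * l) τ) := by
  have hl := NUP1.l_pos
  have hr : (z - vl (p * l) τ).re = z.re - p * l := by rw [sub_re, vl_re6]
  have key : ∀ (x : ℝ) (n : ℤ), z.re = x * l → n + 1 / 16 ≤ x - p → x - p ≤ n + 1 - 1 / 16 →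
      Away (1 / 16) (z - vl (p * l) τ) := by
    intro x n hx h1 h2
    refine NUO.away_of (x := x - p) ?_ n h1 h2
    rw [hr, hx]
    show _ = (x - p) * l
    ring
  unfold DomP par6 at hz
  simp only [Set.mem_ofPred_eq] at hz
  rcases hz with h | h | h | h | h | h | h | h | h
  · rcases hp with rfl | rfl | rfl
    · exact key (1 - 129 / 64) (-3) h (by norm_num) (by norm_num)
    · exact key (1 - 129 / 64) 1 h (by norm_num) (by norm_num)
    · exact key (1 - 129 / 64) (-2) h (by norm_num) (by norm_num)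
  · rcases hp with rfl | rfl | rfl
    · exact key (-(1 / 2)) (-2) (by rw [h]; ring) (by norm_num) (by norm_num)
    · exact key (-(1 / 2)) 2 (by rw [h]; ring) (by norm_num) (by norm_num)
    · exact key (-(1 / 2)) (-2) (by rw [h]; ring) (by norm_num) (by norm_num)
  · rcases hp with rfl | rfl | rfl
    · exact key (-(3 / 2)) (-3) (by rw [h]; ring) (by norm_num) (by norm_num)
    · exact key (-(3 / 2)) 1 (by rw [h]; ring) (by norm_num) (by norm_num)
    · exact key (-(3 / 2)) (-3) (by rw [h]; ring) (by norm_num) (by norm_num)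
  · rcases hp with rfl | rfl | rfl
    · exact key (-(1 + 7 / 16)) (-3) (by rw [h]; ring) (by norm_num) (by norm_num)
    · exact key (-(1 + 7 / 16)) 1 (by rw [h]; ring) (by norm_num) (by norm_num)
    · exact key (-(1 + 7 / 16)) (-3) (by rw [h]; ring) (by norm_num) (by norm_num)
  · rcases hp with rfl | rfl | rfl
    · exact key (-(2 + 7 / 16)) (-4) (by rw [h]; ring) (by norm_num) (by norm_num)
    · exact key (-(2 + 7 / 16)) 0 (by rw [h]; ring) (by norm_num) (by norm_num)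
    · exact key (-(2 + 7 / 16)) (-4) (by rw [h]; ring) (by norm_num) (by norm_num)
  · rcases hp with rfl | rfl | rfl
    · exact key (1 - 7 / 16) (-1) h (by norm_num) (by norm_num)
    · exact key (1 - 7 / 16) 3 h (by norm_num) (by norm_num)
    · exact key (1 - 7 / 16) (-1) h (by norm_num) (by norm_num)
  · rcases hp with rfl | rfl | rfl
    · exact key (1 - 1 / 32) (-1) h (by norm_num) (by norm_num)
    · exact key (1 - 1 / 32) 3 h (by norm_num) (by norm_num)
    · exact key (1 - 1 / 32) 0 h (by norm_num) (by norm_num)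
  · rcases hp with rfl | rfl | rfl
    · exact key (1 - 7 / 8) (-2) h (by norm_num) (by norm_num)
    · exact key (1 - 7 / 8) 2 h (by norm_num) (by norm_num)
    · exact key (1 - 7 / 8) (-1) h (by norm_num) (by norm_num)
  · have h2 : |z.re - l| ≤ l / 400 := by
      refine h.trans ?_
      have := mul_le_mul_of_nonneg_right hep hl.le
      linarith
    obtain ⟨a1, a2⟩ := abs_le.1 h2
    have e : z.re = (z.re / l) * l := by field_simp
    have b1 : 399 / 400 ≤ z.re / l := by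
      rw [le_div_iff₀ hl]
      linarith
    have b2 : z.re / l ≤ 401 / 400 := by
      rw [div_le_iff₀ hl]
      linarith
    rcases hp with rfl | rfl | rfl
    · exact key _ (-1) e (by push_cast; linarith) (by push_cast; linarith)
    · exact key _ 3 e (by push_cast; linarith) (by push_cast; linarith)
    · exact key _ 0 e (by push_cast; linarith) (by push_cast; linarith)

theorem away_let {ep : ℝ} (hep : ep ≤ 1 / 100) {z : ℂ} (hz : z ∈ DomP par6 ep) (t : HT) (τ : ℝ) :
    Away (1 / 16) (z - vl (htL t) τ) := by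
  cases t
  · exact away_dom hep hz (Or.inl rfl) τ
  · exact away_dom hep hz (Or.inr (Or.inl rfl)) τ
  · exact away_dom hep hz (Or.inr (Or.inl rfl)) τ
  · exact away_dom hep hz (Or.inr (Or.inr rfl)) τ

theorem away_pb {ep : ℝ} (hep : ep ≤ 1 / 100) {z : ℂ} (hz : z ∈ DomP par6 ep) (t : HT) (u : Ch6)
    (τ : ℝ) : Away (1 / 16) (z - pb6 t u τ) := by
  obtain ⟨u1, u2⟩ := u
  cases t <;> cases u1 <;> cases u2 <;>
    first
    | exact away_dom hep hz (Or.inl rfl) τ
    | exact away_dom hep hz (Or.inr (Or.inl rfl)) τ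
    | exact away_dom hep hz (Or.inr (Or.inr rfl)) τ

/-! ### two sided bounds of words -/

/-- two sided bound of one sine -/
theorem log_sin_bd {s : ℝ} (hs : 0 < s) (hs1 : s ≤ 1) {x : ℂ} (h : Away s x) (k : ℤ) :
    |Real.log ‖sin (x + k * l)‖ - Real.log (Real.cosh x.im)| ≤ -Real.log (PBH.c0 (2 * (s * l))) := by
  have hl := NUP1.l_pos
  have hpi : Real.pi / 2 = 4 * NUMF.l := by unfold NUMF.l; ring
  have hA : Away s ((l - x.re : ℝ) : ℂ) := by
    intro n
    have h1 := h (1 - n)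
    rw [ofReal_re, show (l - x.re) - n * NUMF.l = -(x.re - ((1 - n : ℤ) : ℝ) * NUMF.l) by
      show (NUMF.l - x.re) - n * NUMF.l = _
      push_cast
      ring, abs_neg]
    exact h1
  have e := NUO.norm_sin_bk ((l - x.re : ℝ) : ℂ) k (x.im : ℂ)
  have e1 : (NUMF.l + I * (x.im : ℂ)) - ((l - x.re : ℝ) : ℂ) + k * NUMF.l = x + k * l := by
    apply Complex.ext
    · simp
      show NUMF.l - (l - x.re) + _ = _
      rw [show l = NUMF.l from rfl]
      ring
    · simp
  rw [e1] at e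
  have hy := NUO.yw_le hA k
  rw [hpi] at hy
  have h4 : s * l ≤ 4 * l := by nlinarith
  have n1 := PBH.norm_ge (δ := 2 * (s * l)) (by positivity) (by
    show 2 * (s * l) ≤ 4 * l
    nlinarith) (w := wz ((l - x.re : ℝ) : ℂ) k (x.im : ℂ)) (by
      rw [NUO.wz_im, ofReal_im, zero_add]
      show |yw _ k| ≤ 4 * NUMF.l - 2 * (s * l) / 2
      refine hy.trans (le_of_eq ?_)
      rw [show l = NUMF.l from rfl]
      ring)
  rw [← e, NUO.wz_re, ofReal_re, ofReal_im, sub_zero] at n1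
  have n2 : ‖sin (x + k * l)‖ ≤ Real.cosh x.im := by
    have := Bd.norm_sin_le (x + k * l)
    have e3 : (x + k * l).im = x.im := by
      rw [add_im, ← ofReal_intCast, ← ofReal_mul, ofReal_im, add_zero]
    rwa [e3] at this
  have hc0 := PBH.c0_pos (δ := 2 * (s * l)) (by positivity) (by
    show 2 * (s * l) ≤ 4 * l
    nlinarith)
  have hC := Real.cosh_pos x.im
  have hp : 0 < ‖sin (x + k * l)‖ := lt_of_lt_of_le (by positivity) n1
  have a1 := Real.log_le_log hp n2
  have a2 := Real.log_le_log (by positivity) n1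
  rw [Real.log_mul hc0.ne' hC.ne'] at a2
  rw [abs_le]
  have hneg : Real.log (PBH.c0 (2 * (s * l))) ≤ 0 :=
    Real.log_nonpos hc0.le (Real.sin_le_one _)
  constructor <;> linarith

/-- **two sided bound of a word** -/
theorem lw_bd {s : ℝ} (hs : 0 < s) (hs1 : s ≤ 1) {w z : ℂ} (h : Away s (z - w))
    (L : List (ℤ × ℝ)) : |lw L w z - wq L * Real.log (Real.cosh (z - w).im)| ≤
      wn L * -Real.log (PBH.c0 (2 * (s * l))) := by
  induction L with
  | nil => simp
  | cons a L ih =>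
    have h1 := log_sin_bd hs hs1 h a.1
    rw [lw_cons, wq_cons, wn_cons]
    have e : a.2 * Real.log ‖sin (z - w + a.1 * l)‖ + lw L w z -
        (a.2 + wq L) * Real.log (Real.cosh (z - w).im) =
        a.2 * (Real.log ‖sin (z - w + a.1 * l)‖ - Real.log (Real.cosh (z - w).im)) +
          (lw L w z - wq L * Real.log (Real.cosh (z - w).im)) := by ring
    rw [e]
    refine (abs_add_le _ _).trans ?_
    rw [abs_mul, add_mul]
    exact add_le_add (mul_le_mul_of_nonneg_left h1 (abs_nonneg _)) ih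

/-- constant of the neutral factors -/
def kV6 : ℝ := Real.exp (24 * -Real.log (PBH.c0 (2 * (1 / 16 * l))))

theorem kV6_pos : 0 < kV6 := Real.exp_pos _

theorem abs_log_dv6 {ep : ℝ} (hep : ep ≤ 1 / 100) {z : ℂ} (hz : z ∈ DomP par6 ep) (t : HT) (u : Ch6)
    (σ : Bool) (τ : ℝ) (a : Bool) : |Real.log (dv6 t u σ τ a z)| ≤
      24 * -Real.log (PBH.c0 (2 * (1 / 16 * l))) := by
  have hl := NUP1.l_pos
  have h1 := lw_bd (by norm_num) (by norm_num) (away_let hep hz t τ) (wl6 t u (decide (a = σ)))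
  have h2 := lw_bd (by norm_num) (by norm_num) (away_pb hep hz t u τ) (wc (bc6 t u) (decide (a = σ)))
  have e1 : (z - vl (htL t) τ).im = z.im - τ := by rw [sub_im, vl_im6]
  have e2 : (z - pb6 t u τ).im = z.im - τ := by rw [sub_im, pb6_im]
  rw [e1, wq_wl6] at h1
  rw [e2] at h2
  obtain ⟨n1, n2⟩ := wn_wl6 t u (decide (a = σ))
  have hc0 := PBH.c0_pos (δ := 2 * (1 / 16 * l)) (by positivity) (by
    show 2 * (1 / 16 * l) ≤ 4 * l
    linarith)
  have hB : 0 ≤ -Real.log (PBH.c0 (2 * (1 / 16 * l))) := by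
    have := Real.log_nonpos hc0.le (Real.sin_le_one _)
    unfold PBH.c0 at this ⊢
    linarith
  have k1 := mul_le_mul_of_nonneg_right n1 hB
  have k2 := mul_le_mul_of_nonneg_right n2 hB
  unfold dv6
  rw [Real.log_exp]
  have e : lw (wl6 t u (decide (a = σ))) (vl (htL t) τ) z -
      lw (wc (bc6 t u) (decide (a = σ))) (pb6 t u τ) z =
      (lw (wl6 t u (decide (a = σ))) (vl (htL t) τ) z - wq (wc (bc6 t u) (decide (a = σ))) *
        Real.log (Real.cosh (z.im - τ))) -
      (lw (wc (bc6 t u) (decide (a = σ))) (pb6 t u τ) z - wq (wc (bc6 t u) (decide (a = σ))) *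
        Real.log (Real.cosh (z.im - τ))) := by ring
  rw [e]
  refine (abs_sub _ _).trans ?_
  linarith

/-- **the neutral factor is bounded** on the evaluation points -/
theorem dv6_le {ep : ℝ} (hep : ep ≤ 1 / 100) {z : ℂ} (hz : z ∈ DomP par6 ep) (t : HT) (u : Ch6)
    (σ : Bool) (τ : ℝ) (a : Bool) : dv6 t u σ τ a z ≤ kV6 := by
  have h := (abs_le.1 (abs_log_dv6 hep hz t u σ τ a)).2
  rw [← Real.exp_log (dv6_pos t u σ τ a z)]
  exact Real.exp_le_exp.2 h

/-- **the neutral factor is bounded from below** -/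
theorem dv6_inv_le {ep : ℝ} (hep : ep ≤ 1 / 100) {z : ℂ} (hz : z ∈ DomP par6 ep) (t : HT) (u : Ch6)
    (σ : Bool) (τ : ℝ) (a : Bool) : (dv6 t u σ τ a z)⁻¹ ≤ kV6 := by
  have h := (abs_le.1 (abs_log_dv6 hep hz t u σ τ a)).1
  rw [← Real.exp_log (dv6_pos t u σ τ a z), ← Real.exp_neg]
  exact Real.exp_le_exp.2 (by linarith)

/-! ### two letters -/

/-- **the base groups** of two letters -/
def gdK6 (t t' : HT) (u : Ch6 × Ch6) (y : ℝ × ℝ) : Fin 2 → Gd :=
  ![gd6 t u.1 true y.1, gd6 t' u.2 false y.2]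

/-- **the atoms** of two letters -/
def atK6 (t t' : HT) (u : Ch6 × Ch6) (y : ℝ × ℝ) (a : Bool) : Fin (16 + 16) → Atm :=
  Fin.append (at6 t u.1 true y.1 a) (at6 t' u.2 false y.2 a)

/-- **the neutral factor** of two letters -/
def dvK6 (t t' : HT) (u : Ch6 × Ch6) (y : ℝ × ℝ) (a : Bool) (z : ℂ) : ℝ :=
  dv6 t u.1 true y.1 a z * dv6 t' u.2 false y.2 a z

theorem dvK6_pos (t t' : HT) (u : Ch6 × Ch6) (y : ℝ × ℝ) (a : Bool) (z : ℂ) :
    0 < dvK6 t t' u y a z := mul_pos (dv6_pos _ _ _ _ _ _) (dv6_pos _ _ _ _ _ _)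

/-- **the spectators of two letters** on the evaluation points -/
theorem obV_eq {ep : ℝ} (hep : ep ≤ 1 / 100) {z : ℂ} (hz : z ∈ DomP par6 ep) {t t' : HT}
    {u : Ch6 × Ch6} (h : okC6 t u.1) (h' : okC6 t' u.2) (y : ℝ × ℝ) (a : Bool) :
    ‖sG (vF6 t u.1) (vF6 t' u.2) (vl (htL t) y.1) (vl (htL t') y.2) a z‖ =
      spF (gdK6 t t' u y) a z * dvK6 t t' u y a z := by
  have h16 : (0 : ℝ) < 1 / 16 := by norm_num
  have e1 := norm_v6 h true a y.1 (Away.gn h16 (away_let hep hz t y.1))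
    (Away.gn h16 (away_pb hep hz t u.1 y.1))
  have e2 := norm_v6 h' false a y.2 (Away.gn h16 (away_let hep hz t' y.2))
    (Away.gn h16 (away_pb hep hz t' u.2 y.2))
  have b1 : (a == true) = a := by cases a <;> rfl
  have b2 : (a == false) = !a := by cases a <;> rfl
  rw [b1] at e1
  rw [b2] at e2
  show ‖vF6 t u.1 a none (vl (htL t) y.1 - z) * vF6 t' u.2 (!a) none (vl (htL t') y.2 - z)‖ = _
  rw [norm_mul, e1, e2]
  unfold spF dvK6
  rw [Fin.prod_univ_two]
  show _ = spL (lsG (gd6 t u.1 true y.1)) a z * spL (lsG (gd6 t' u.2 false y.2)) a z * _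
  ring

theorem HS_append {m n : ℕ} (x : Bool → Fin m → Atm) (x' : Bool → Fin n → Atm)
    (ζ : Bool → ℝ → ℝ) (a : Bool) (t : ℝ) :
    HS (fun b => Fin.append (x b) (x' b)) ζ a t = HS x ζ a t + HS x' ζ a t := by
  unfold PBH.PLX.HS
  rw [Fin.sum_univ_add]
  simp only [Fin.append_left, Fin.append_right]

/-- **the neutral factor on curves** -/
theorem dvK6_line (t t' : HT) (u : Ch6 × Ch6) (y : ℝ × ℝ) (a : Bool) (ζ : Bool → ℝ → ℝ) (x : ℝ) :
    dvK6 t t' u y a (pA (ζ a) x) = Real.exp (HS (atK6 t t' u y) ζ a x) := by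
  unfold dvK6
  rw [dv6_line, dv6_line, ← Real.exp_add]
  congr 1
  exact (HS_append _ _ ζ a x).symm

theorem atOk_append {K δ : ℝ} {m n : ℕ} {x : Bool → Fin m → Atm} {x' : Bool → Fin n → Atm}
    (h : AtOk K δ x) (h' : AtOk K δ x') : AtOk K δ fun b => Fin.append (x b) (x' b) := by
  intro a i
  refine Fin.addCases (fun j => ?_) (fun j => ?_) i
  · beta_reduce
    rw [Fin.append_left]
    exact h a j
  · beta_reduce
    rw [Fin.append_right]
    exact h' a j

/-- **the atoms are bounded** -/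
theorem atK6_ok (t t' : HT) (u : Ch6 × Ch6) (y : ℝ × ℝ) : AtOk 3 (NUMF.l / 4) (atK6 t t' u y) :=
  atOk_append (at6_ok t u.1 true y.1) (at6_ok t' u.2 false y.2)

theorem dvK6_le {ep : ℝ} (hep : ep ≤ 1 / 100) {z : ℂ} (hz : z ∈ DomP par6 ep) (t t' : HT)
    (u : Ch6 × Ch6) (y : ℝ × ℝ) (a : Bool) : dvK6 t t' u y a z ≤ kV6 * kV6 :=
  mul_le_mul (dv6_le hep hz t u.1 true y.1 a) (dv6_le hep hz t' u.2 false y.2 a)
    (dv6_pos _ _ _ _ _ _).le kV6_pos.le

theorem dvK6_inv_le {ep : ℝ} (hep : ep ≤ 1 / 100) {z : ℂ} (hz : z ∈ DomP par6 ep) (t t' : HT)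
    (u : Ch6 × Ch6) (y : ℝ × ℝ) (a : Bool) : (dvK6 t t' u y a z)⁻¹ ≤ kV6 * kV6 := by
  unfold dvK6
  rw [mul_inv]
  exact mul_le_mul (dv6_inv_le hep hz t u.1 true y.1 a) (dv6_inv_le hep hz t' u.2 false y.2 a)
    (inv_nonneg.2 (dv6_pos _ _ _ _ _ _).le) kV6_pos.le

/-- the lines of the upper bounds of `Ob6` -/
theorem upL_dom {ep : ℝ} {j : ℝ} (hj : j ∈ upL par6) (t : ℝ) : vl ((1 - j) * l) t ∈ DomP par6 ep := by
  have hr : (vl ((1 - j) * l) t).re = (1 - j) * l := vl_re6 _ _
  unfold upL at hj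
  simp only [List.mem_cons, List.not_mem_nil, or_false] at hj
  show _ ∨ _ ∨ _ ∨ _ ∨ _ ∨ _ ∨ _ ∨ _ ∨ _
  rw [hr]
  rcases hj with h | h | h | h | h | h <;> subst h
  · exact Or.inl rfl
  · exact Or.inr (Or.inl (by ring))
  · exact Or.inr (Or.inr (Or.inl (by ring)))
  · exact Or.inr (Or.inr (Or.inr (Or.inl (by ring))))
  · exact Or.inr (Or.inr (Or.inr (Or.inr (Or.inl (by ring)))))
  · exact Or.inr (Or.inr (Or.inr (Or.inr (Or.inr (Or.inl rfl)))))

/-- the lines of the lower bounds of `Ob6` -/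
theorem loL_dom {ep : ℝ} {j : ℝ} (hj : j ∈ loL par6) (t : ℝ) : vl ((1 - j) * l) t ∈ DomP par6 ep := by
  have hr : (vl ((1 - j) * l) t).re = (1 - j) * l := vl_re6 _ _
  unfold loL at hj
  simp only [List.mem_cons, List.not_mem_nil, or_false] at hj
  show _ ∨ _ ∨ _ ∨ _ ∨ _ ∨ _ ∨ _ ∨ _ ∨ _
  rw [hr]
  rcases hj with h | h | h <;> subst h
  · exact Or.inr (Or.inr (Or.inr (Or.inr (Or.inr (Or.inl rfl)))))
  · exact Or.inr (Or.inr (Or.inr (Or.inr (Or.inr (Or.inr (Or.inl rfl))))))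
  · exact Or.inr (Or.inr (Or.inr (Or.inr (Or.inr (Or.inr (Or.inr (Or.inl rfl)))))))

end PHK

end
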