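import Pool.Agent.PHK.ObRes6
import Pool.Agent.PLX.PB.ObResp

/-!
# (P): the response of an object to a field

(P) twin of `PLX/PB/ObResp`; a hole carries the negative of the response of a quantum.

* `kap6 B β = ∑ b, ∫ β b t (I kls6 b B (l + I t)) dt`: the response of the signed parts `B`;
* **`kap_lim6`**: one object `x`, `‖β b t‖ ≤ M e^{-a|t|}`, `0 < a < 2`:
  `‖kap6 + 2 sgn (ht x) ∑ b, (chg6 b x - chg6 (!b) x) ∫ β b‖ ≤ M CK6 a e^{-a |ht x|}`;
* configuration: `kapO6 P O i β`, `kapO_lim6`, `sum_kapO6`; `kP_dAt6`, `kP_lI_le6`: the force in the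
  coordinate `u = l + I z`, `|Im z| ≤ h l`, from `DsC P h c`.
-/

set_option autoImplicit false
set_option linter.unusedSectionVars false

noncomputable section

open Complex MeasureTheory Finset

namespace PBOR.PLX

open NUP1 NUO NUP1S NUP1S.Ab
open PHK

/-- the response of the signed parts `B` to the field `β` on the real line -/
def kap6 (B : List Part6) (β : Bool → ℝ → ℂ) : ℂ :=
  ∑ b, ∫ t : ℝ, β b t * (I * kls6 b B ((l : ℂ) + I * t))

theorem lI_re_l (t : ℝ) : ((l : ℂ) + I * t).re = l := by simp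

section one

variable {P : Par6} (hP : GoodP6 P) (hj : P.j2 ≤ 19 / 20)
include hP hj

theorem cont_kls6 (b : Bool) (x : Xo) :
    Continuous fun t : ℝ => kls6 b (parts6 P x) ((l : ℂ) + I * t) := by
  refine continuous_iff_continuousAt.2 fun t => ?_
  exact ContinuousAt.comp (f := fun t : ℝ => (t : ℂ)) (dA_kls6 hP hj b x t).continuousAt
    Complex.continuous_ofReal.continuousAt

theorem kls_real_le6 (b : Bool) (x : Xo) (t : ℝ) :
    ‖I * kls6 b (parts6 P x) ((l : ℂ) + I * t)‖ ≤ CO6 + 4 := by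
  rw [norm_mul, norm_I, one_mul]
  exact kls_le6 hP hj b x (lI_re_l t)

theorem int_kls6 {β : ℝ → ℂ} (hβ : Integrable β) (b : Bool) (x : Xo) :
    Integrable fun t : ℝ => β t * (I * kls6 b (parts6 P x) ((l : ℂ) + I * t)) :=
  hβ.mul_bdd (c := CO6 + 4) ((cont_kls6 hP hj b x).const_mul I |>.aestronglyMeasurable)
    (Filter.Eventually.of_forall fun t => kls_real_le6 hP hj b x t)

/-- the kernel against its limit on the side of the origin -/
theorem ker_o6 (b : Bool) (x : Xo) (t : ℝ) :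
    ‖I * kls6 b (parts6 P x) ((l : ℂ) + I * t) +
      2 * ((chg6 b x : ℂ) - (chg6 (!b) x : ℂ)) * (sgn (ht x) : ℂ)‖ ≤
      CO6 * Real.exp (-(2 * |t - ht x|)) + if |ht x| ≤ |t| then 8 else 0 := by
  have h := kls_lim6 hP hj b x (lI_re_l t)
  rw [lI_real_im] at h
  have hd := chg_diff6 b x
  have e1 : I * kls6 b (parts6 P x) ((l : ℂ) + I * t) +
      2 * ((chg6 b x : ℂ) - (chg6 (!b) x : ℂ)) * (sgn (ht x) : ℂ) =
      (I * kls6 b (parts6 P x) ((l : ℂ) + I * t) -
        2 * ((chg6 b x : ℂ) - (chg6 (!b) x : ℂ)) * (sgn (t - ht x) : ℂ)) +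
      2 * ((chg6 b x : ℂ) - (chg6 (!b) x : ℂ)) * ((sgn (t - ht x) + sgn (ht x) : ℝ) : ℂ) := by
    push_cast
    ring
  rw [e1]
  refine (norm_add_le _ _).trans (add_le_add h ?_)
  split_ifs with hc
  · rw [norm_mul, norm_mul, Complex.norm_real, Real.norm_eq_abs]
    have h1 : |sgn (t - ht x) + sgn (ht x)| ≤ 2 := by
      have := abs_add_le (sgn (t - ht x)) (sgn (ht x))
      rw [abs_sgn, abs_sgn] at this
      linarith
    have h2 : ‖(2 : ℂ)‖ = 2 := by simp
    rw [h2]
    nlinarith [norm_nonneg ((chg6 b x : ℂ) - (chg6 (!b) x : ℂ)),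
      abs_nonneg (sgn (t - ht x) + sgn (ht x))]
  · rw [not_le] at hc
    have h0 : sgn (t - ht x) + sgn (ht x) = 0 := by
      unfold sgn
      rcases le_or_gt 0 (ht x) with h3 | h3
      · rw [abs_of_nonneg h3] at hc
        have := le_abs_self t
        rw [if_neg (by linarith), if_pos h3]
        ring
      · rw [abs_of_neg h3] at hc
        have := neg_abs_le t
        rw [if_pos (by linarith), if_neg (by linarith)]
        ring
    rw [h0]
    simp

/-- constant of the response -/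
def CK6 (a : ℝ) : ℝ := 2 * (CO6 * (2 / (2 - a)) + 32 / a)

omit hP hj in
theorem CK6_nonneg {a : ℝ} (ha : 0 < a) (ha2 : a < 2) : 0 ≤ CK6 a := by
  have := CO6_pos
  have : 0 < 2 - a := by linarith
  unfold CK6
  positivity

/-- **the response of an object** -/
theorem kap_lim6 {a M : ℝ} (ha : 0 < a) (ha2 : a < 2) (hM : 0 ≤ M) {β : Bool → ℝ → ℂ}
    (hm : ∀ b, AEStronglyMeasurable (β b)) (hβ : ∀ b t, ‖β b t‖ ≤ M * Real.exp (-(a * |t|)))
    (x : Xo) :
    ‖kap6 (parts6 P x) β +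
      2 * (sgn (ht x) : ℂ) * ∑ b, ((chg6 b x : ℂ) - (chg6 (!b) x : ℂ)) * ∫ t : ℝ, β b t‖ ≤
      M * CK6 a * Real.exp (-(a * |ht x|)) := by
  have hCO := CO6_pos
  have hi : ∀ b, Integrable (β b) := fun b =>
    ((PBTs.int_ea ha).1.const_mul M).mono' (hm b) (Filter.Eventually.of_forall (hβ b))
  have e1 : kap6 (parts6 P x) β +
      2 * (sgn (ht x) : ℂ) * ∑ b, ((chg6 b x : ℂ) - (chg6 (!b) x : ℂ)) * ∫ t : ℝ, β b t =
      ∑ b, ∫ t : ℝ, β b t * (I * kls6 b (parts6 P x) ((l : ℂ) + I * t) +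
        2 * ((chg6 b x : ℂ) - (chg6 (!b) x : ℂ)) * (sgn (ht x) : ℂ)) := by
    unfold kap6
    rw [Finset.mul_sum, ← Finset.sum_add_distrib]
    refine Finset.sum_congr rfl fun b _ => ?_
    have e2 : (fun t : ℝ => β b t * (I * kls6 b (parts6 P x) ((l : ℂ) + I * t) +
        2 * ((chg6 b x : ℂ) - (chg6 (!b) x : ℂ)) * (sgn (ht x) : ℂ))) = fun t : ℝ =>
        β b t * (I * kls6 b (parts6 P x) ((l : ℂ) + I * t)) +
        β b t * (2 * ((chg6 b x : ℂ) - (chg6 (!b) x : ℂ)) * (sgn (ht x) : ℂ)) := by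
      funext t
      ring
    rw [e2, integral_add (int_kls6 hP hj (hi b) b x) ((hi b).mul_const _),
      integral_mul_const]
    ring
  rw [e1]
  set E := Real.exp (-(a * |ht x|)) with hE
  have hE0 : 0 < E := Real.exp_pos _
  have key : ∀ b, ‖∫ t : ℝ, β b t * (I * kls6 b (parts6 P x) ((l : ℂ) + I * t) +
        2 * ((chg6 b x : ℂ) - (chg6 (!b) x : ℂ)) * (sgn (ht x) : ℂ))‖ ≤
      M * E * (CO6 * (2 / (2 - a)) + 32 / a) := by
    intro b
    have i1 := PBTs.int_ea_sh (a := 2 - a) (by linarith) (ht x)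
    have i2 := PBTs.int_ea_sh ha (ht x)
    have i3 := PBTs.int_ea_sh ha (-ht x)
    have hb : ∀ t : ℝ, ‖β b t * (I * kls6 b (parts6 P x) ((l : ℂ) + I * t) +
        2 * ((chg6 b x : ℂ) - (chg6 (!b) x : ℂ)) * (sgn (ht x) : ℂ))‖ ≤
        M * E * (CO6 * Real.exp (-((2 - a) * |t - ht x|)) +
          8 * (Real.exp (-(a * |t - ht x|)) + Real.exp (-(a * |t - -ht x|)))) := by
      intro t
      rw [norm_mul]
      have h1 := hβ b t
      have h2 := ker_o6 hP hj b x t
      have h0 : 0 ≤ CO6 * Real.exp (-(2 * |t - ht x|)) + if |ht x| ≤ |t| then (8 : ℝ) else 0 := by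
        split_ifs <;> positivity
      refine (mul_le_mul h1 h2 (norm_nonneg _) (by positivity)).trans ?_
      have h3 : Real.exp (-(a * |t|)) * Real.exp (-(2 * |t - ht x|)) ≤
          E * Real.exp (-((2 - a) * |t - ht x|)) := by
        rw [hE, ← Real.exp_add, ← Real.exp_add, Real.exp_le_exp]
        have := abs_sub_abs_le_abs_sub (ht x) t
        rw [abs_sub_comm] at this
        nlinarith
      have h4 : Real.exp (-(a * |t|)) * (if |ht x| ≤ |t| then (8 : ℝ) else 0) ≤
          E * (8 * (Real.exp (-(a * |t - ht x|)) + Real.exp (-(a * |t - -ht x|)))) := by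
        split_ifs with hc
        · have := exp_far ha hc
          rw [← hE] at this
          linarith
        · rw [mul_zero]
          positivity
      calc _ = M * (CO6 * (Real.exp (-(a * |t|)) * Real.exp (-(2 * |t - ht x|))) +
            Real.exp (-(a * |t|)) * (if |ht x| ≤ |t| then (8 : ℝ) else 0)) := by ring
        _ ≤ M * (CO6 * (E * Real.exp (-((2 - a) * |t - ht x|))) +
            E * (8 * (Real.exp (-(a * |t - ht x|)) + Real.exp (-(a * |t - -ht x|))))) := by
            gcongr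
        _ = _ := by ring
    have hI : Integrable fun t : ℝ => M * E * (CO6 * Real.exp (-((2 - a) * |t - ht x|)) +
          8 * (Real.exp (-(a * |t - ht x|)) + Real.exp (-(a * |t - -ht x|)))) :=
      ((i1.1.const_mul CO6).add ((i2.1.add i3.1).const_mul 8)).const_mul _
    refine (norm_integral_le_of_norm_le hI (Filter.Eventually.of_forall hb)).trans (le_of_eq ?_)
    have i4 : Integrable fun t : ℝ => 8 * (Real.exp (-(a * |t - ht x|)) +
        Real.exp (-(a * |t - -ht x|))) := (i2.1.add i3.1).const_mul 8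
    rw [integral_const_mul, integral_add (i1.1.const_mul CO6) i4,
      integral_const_mul, integral_const_mul, integral_add i2.1 i3.1, i1.2, i2.2, i3.2]
    ring
  refine (norm_sum_le _ _).trans ((Finset.sum_le_sum fun b _ => key b).trans (le_of_eq ?_))
  rw [Finset.sum_const, Finset.card_univ, Fintype.card_bool, nsmul_eq_mul]
  unfold CK6
  push_cast
  ring

end one

/-! ### the objects of a configuration -/

variable {r : ℕ}

/-- the response of the object `i` -/
def kapO6 (P : Par6) (O : Fin r → Xo) (i : Fin r) (β : Bool → ℝ → ℂ) : ℂ := kap6 (cons6 P O i) β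

theorem kapO_eq6 (P : Par6) (O : Fin r → Xo) (i : Fin r) (β : Bool → ℝ → ℂ) :
    kapO6 P O i β = ∑ b, ∫ t : ℝ, β b t * (I * kO6 P O i b ((l : ℂ) + I * t)) := rfl

theorem kapO_lim6 {P : Par6} (hP : GoodP6 P) (hj : P.j2 ≤ 19 / 20) (O : Fin r → Xo) {a M : ℝ}
    (ha : 0 < a) (ha2 : a < 2) (hM : 0 ≤ M) {β : Bool → ℝ → ℂ}
    (hm : ∀ b, AEStronglyMeasurable (β b))
    (hβ : ∀ b t, ‖β b t‖ ≤ M * Real.exp (-(a * |t|))) (i : Fin r) :
    ‖kapO6 P O i β + 2 * (sgn (ht (O i)) : ℂ) *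
      ∑ b, ((chg6 b (O i) : ℂ) - (chg6 (!b) (O i) : ℂ)) * ∫ t : ℝ, β b t‖ ≤
      M * CK6 a * Real.exp (-(a * |ht (O i)|)) :=
  kap_lim6 hP hj ha ha2 hM hm hβ (O i)

/-- the mean of the force of the objects against a field -/
theorem sum_kapO6 {P : Par6} (hP : GoodP6 P) (hj : P.j2 ≤ 19 / 20) (O : Fin r → Xo)
    {β : Bool → ℝ → ℂ} (hβ : ∀ b, Integrable (β b)) :
    ∑ b, ∫ t : ℝ, β b t * (I * kP6 P O b ((l : ℂ) + I * t)) = ∑ i, kapO6 P O i β := by
  simp only [kapO_eq6]
  rw [Finset.sum_comm]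
  refine Finset.sum_congr rfl fun b _ => ?_
  rw [← integral_finsetSum]
  · refine integral_congr_ae (Filter.Eventually.of_forall fun t => ?_)
    simp only [kP6]
    rw [Finset.mul_sum, Finset.mul_sum]
  · intro i _
    exact int_kls6 hP hj (hβ b) b (O i)

/-- the force in the coordinate `u = l + I z` -/
theorem kP_dAt6 {P : Par6} {h c : ℝ} (hd : DsC P h c) (O : Fin r → Xo) (s : Bool) {z : ℂ}
    (hz : |z.im| ≤ h * l) : DifferentiableAt ℂ (fun z => kP6 P O s ((l : ℂ) + I * z)) z := by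
  have h0 : DifferentiableAt ℂ (fun w : ℂ => (l : ℂ) + I * w) z := by fun_prop
  exact DifferentiableAt.comp (g := kP6 P O s) z
    (hasDerivAt_kP6 hd O s (strip_lI hz)).differentiableAt h0

theorem kP_lI_le6 {P : Par6} {h c : ℝ} (hd : DsC P h c) (O : Fin r → Xo) (s : Bool) {z : ℂ}
    (hz : |z.im| ≤ h * l) : ‖kP6 P O s ((l : ℂ) + I * z)‖ ≤ r * (COc c + 4) :=
  kP_leD hd O s (strip_lI hz)

end PBOR.PLX

end
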