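import Pool.Agent.PHK.StatN6
import Pool.Agent.PHK.ObResp6
import Pool.Agent.PHK.ClsCrv6
import Pool.Agent.PLX.PB.ObStep

/-!
# (P): the step statistic and the objects (minus channel)

(P) twin of `PLX/PB/ObStep`; a hole carries `- D`.

* **`obT_lim6`**: the step statistic of an object `x` is `(chg6 true x - chg6 false x) sgn (ht x)` up to
  `20 e^{-4 |ht x|}`; `obT_le6`, `stO_sg_le6`: `‖stO6 sgD‖ ≤ CS6 r`;
* **`stepO6`**: `stO6 sgD + ∑ i, kapO6 β` is pinned if `∫ β true = 1/4 = -∫ β false`;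
  **`kapO_pin6`**: `∑ i, kapO6 β` is pinned if `∫ β b = 0`;
* `Vm_evN6`, `Vp_evN6`, `stA_sg6`, `SN_eq6`, `SN_evN6`, `InsD.sn6`.
-/

set_option autoImplicit false
set_option linter.unusedSectionVars false

noncomputable section

open Complex MeasureTheory Finset
open scoped ENNReal
open PLX (Fil)

namespace PBOR.PLX

open NUP1 NUO NUP1S NUP1S.Ab PBF PBF.PLX PBOb PBOb.PLX PB.NX
open PBI (Stt Kd)
open PHK

/-! ### the step statistic of an object -/

theorem sgD_line {s : Bool} {k : Option O3} {x t : ℝ} (h1 : 0 ≤ x * l + sh k)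
    (h2 : x * l + sh k ≤ 2 * l) :
    ‖sgD s k (((x * l : ℝ) : ℂ) + t * I) - qb (s, k) * (sgn t : ℂ)‖ ≤
      ‖qb (s, k)‖ * (4 * Real.exp (-(4 * |t|))) := by
  have h := sgD_near (s := s) (k := k) (u := ((x * l : ℝ) : ℂ) + t * I) (b := t) (d := 0)
    (by
      have e : (((x * l : ℝ) : ℂ) + t * I).re = x * l := by simp
      rw [e]
      exact abs_le_l h1 h2)
    (by simp)
  rw [mul_zero, Real.exp_zero, mul_one] at h
  exact h

/-- **the step statistic of an object** -/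
theorem obT_lim6 {P : Par6} (hP : GoodP6 P) (x : Xo) :
    ‖obT6 sgD P x - ((chg6 true x : ℂ) - (chg6 false x : ℂ)) * (sgn (ht x) : ℂ)‖ ≤
      20 * Real.exp (-(4 * |ht x|)) := by
  have hl := Bd.l_pos
  have g1 := hP.j1
  have g2 := hP.j1e
  have g3 := hP.ej2
  have g4 := hP.j2
  have g5 := hP.L2
  have g6 := hP.Lj
  have g7 := hP.e48
  set t := ht x with ht'
  set E := 4 * Real.exp (-(4 * |t|)) with hE
  have hE0 : 0 < E := by positivity
  have hS : ∀ s, ‖sgD s (some .S) (posS P.e t) - qb (s, some .S) * (sgn t : ℂ)‖ ≤ 2 * E := by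
    intro s
    have e : posS P.e t = ((-(1 + P.e) * l : ℝ) : ℂ) + t * I := by
      unfold posS vl
      push_cast
      ring
    rw [e]
    have h := sgD_line (s := s) (k := some .S) (x := -(1 + P.e)) (t := t)
      (by rw [sh_some]; nlinarith) (by rw [sh_some]; nlinarith)
    have q4 : ‖qb (s, some O3.S)‖ = 2 := by rw [qb_S, norm_mul, norm_eM]; simp
    rwa [q4] at h
  have hB : ∀ s, ‖sgD s none (posB P.e t) - qb (s, none) * (sgn t : ℂ)‖ ≤ E := by
    intro s
    have e : posB P.e t = (((1 - P.e) * l : ℝ) : ℂ) + t * I := by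
      unfold posB posS vl
      push_cast
      ring
    rw [e]
    have h := sgD_line (s := s) (k := none) (x := 1 - P.e) (t := t)
      (by rw [sh_none]; nlinarith) (by rw [sh_none]; nlinarith)
    rwa [qb_none, norm_eM, one_mul, ← qb_none] at h
  have hH : ∀ s, ∀ j : ℝ, 0 ≤ j → j ≤ 1 →
      ‖sgD s none (posL j t) - qb (s, none) * (sgn t : ℂ)‖ ≤ E := by
    intro s j h1 h2
    have e : posL j t = (((1 - j) * l : ℝ) : ℂ) + t * I := rfl
    rw [e]
    have h := sgD_line (s := s) (k := none) (x := 1 - j) (t := t)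
      (by rw [sh_none]; nlinarith) (by rw [sh_none]; nlinarith)
    rwa [qb_none, norm_eM, one_mul, ← qb_none] at h
  have hL : ∀ s, ‖sgD s (some .L) (posL P.jL t) - qb (s, some .L) * (sgn t : ℂ)‖ ≤ E := by
    intro s
    have e : posL P.jL t = (((1 - P.jL) * l : ℝ) : ℂ) + t * I := rfl
    rw [e]
    have h := sgD_line (s := s) (k := some .L) (x := 1 - P.jL) (t := t)
      (by rw [sh_some]; nlinarith) (by rw [sh_some]; nlinarith)
    have q2 : ‖qb (s, some O3.L)‖ = 1 := by rw [qb_L, norm_eM]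
    rwa [q2, one_mul] at h
  have hT : ∀ s, ‖sgD s (some .T) (posT t) - qb (s, some .T) * (sgn t : ℂ)‖ ≤ 2 * E := by
    intro s
    have e : posT t = ((-(1 / 2) * l : ℝ) : ℂ) + t * I := by
      unfold posT vl
      push_cast
      ring
    rw [e]
    have h := sgD_line (s := s) (k := some .T) (x := -(1 / 2)) (t := t)
      (by rw [sh_some]; nlinarith) (by rw [sh_some]; nlinarith)
    have q3 : ‖qb (s, some O3.T)‖ = 2 := by rw [qb_T, norm_mul, norm_eM]; simp
    rwa [q3] at h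
  have e20 : 20 * Real.exp (-(4 * |t|)) = 5 * E := by rw [hE]; ring
  rw [e20]
  rcases hk : k6 x with _ | _ | _ | _ | _ | _
  · have h1 := hL (sp x)
    have e2 : obT6 sgD P x - ((chg6 true x : ℂ) - (chg6 false x : ℂ)) * (sgn t : ℂ) =
        sgD (sp x) (some .L) (posL P.jL t) - qb (sp x, some .L) * (sgn t : ℂ) := by
      rw [obT6_L sgD P hk, ← ht', qb_L]
      unfold chg6
      rw [hk]
      cases sp x <;> simp [eM]
    rw [e2]
    linarith
  · have h1 := hT (sp x)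
    have e2 : obT6 sgD P x - ((chg6 true x : ℂ) - (chg6 false x : ℂ)) * (sgn t : ℂ) =
        sgD (sp x) (some .T) (posT t) - qb (sp x, some .T) * (sgn t : ℂ) := by
      rw [obT6_T sgD P hk, ← ht', qb_T]
      unfold chg6
      rw [hk]
      cases sp x <;> simp [eM]
    rw [e2]
    linarith
  · have h1 := hS (sp x)
    have h2 := hB (!sp x)
    have e2 : obT6 sgD P x - ((chg6 true x : ℂ) - (chg6 false x : ℂ)) * (sgn t : ℂ) =
        (sgD (sp x) (some .S) (posS P.e t) - qb (sp x, some .S) * (sgn t : ℂ)) +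
          2 * (sgD (!sp x) none (posB P.e t) - qb (!sp x, none) * (sgn t : ℂ)) := by
      rw [obT6_E sgD P hk, ← ht', qb_S, qb_none]
      unfold chg6
      rw [hk]
      cases sp x <;> simp [eM] <;> ring
    rw [e2]
    refine (norm_add_le _ _).trans ?_
    rw [norm_mul, Complex.norm_ofNat]
    linarith
  · have h1 := hS (sp x)
    have h2 := hB (!sp x)
    have h3 := hB (sp x)
    have e2 : obT6 sgD P x - ((chg6 true x : ℂ) - (chg6 false x : ℂ)) * (sgn t : ℂ) =
        (sgD (sp x) (some .S) (posS P.e t) - qb (sp x, some .S) * (sgn t : ℂ)) +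
          2 * (sgD (!sp x) none (posB P.e t) - qb (!sp x, none) * (sgn t : ℂ)) -
          (sgD (sp x) none (posB P.e t) - qb (sp x, none) * (sgn t : ℂ)) := by
      rw [obT6_F sgD P hk, ← ht', qb_S, qb_none, qb_none]
      unfold chg6
      rw [hk]
      cases sp x <;> simp [eM] <;> ring
    rw [e2]
    refine (norm_sub_le _ _).trans ?_
    have h4 := norm_add_le (sgD (sp x) (some .S) (posS P.e t) - qb (sp x, some .S) * (sgn t : ℂ))
      (2 * (sgD (!sp x) none (posB P.e t) - qb (!sp x, none) * (sgn t : ℂ)))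
    rw [norm_mul, Complex.norm_ofNat] at h4
    linarith
  · have h1 := hH (sp x) P.j1 (by linarith) (by linarith)
    have e2 : obT6 sgD P x - ((chg6 true x : ℂ) - (chg6 false x : ℂ)) * (sgn t : ℂ) =
        -(sgD (sp x) none (posL P.j1 t) - qb (sp x, none) * (sgn t : ℂ)) := by
      rw [obT6_H1 sgD P hk, ← ht', qb_none]
      unfold chg6
      rw [hk]
      cases sp x <;> simp [eM] <;> ring
    rw [e2, norm_neg]
    linarith
  · have h1 := hH (sp x) P.j2 (by linarith) (by linarith)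
    have e2 : obT6 sgD P x - ((chg6 true x : ℂ) - (chg6 false x : ℂ)) * (sgn t : ℂ) =
        -(sgD (sp x) none (posL P.j2 t) - qb (sp x, none) * (sgn t : ℂ)) := by
      rw [obT6_H2 sgD P hk, ← ht', qb_none]
      unfold chg6
      rw [hk]
      cases sp x <;> simp [eM] <;> ring
    rw [e2, norm_neg]
    linarith

/-! ### the objects of a configuration -/

variable {r : ℕ}

/-- constant of the step statistic of an object -/
def CS6 : ℝ := 22

theorem CS6_pos : 0 < CS6 := by unfold CS6; norm_num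

theorem chg_diffR6 (x : Xo) :
    ‖((chg6 true x : ℂ) - (chg6 false x : ℂ)) * (sgn (ht x) : ℂ)‖ ≤ 2 := by
  have h := chg_diff6 true x
  rw [norm_mul, Complex.norm_real, Real.norm_eq_abs, abs_sgn, mul_one]
  exact h

theorem obT_le6 {P : Par6} (hP : GoodP6 P) (x : Xo) : ‖obT6 sgD P x‖ ≤ CS6 := by
  have h1 := obT_lim6 hP x
  have h2 := chg_diffR6 x
  have h3 := norm_le_norm_add_norm_sub' (obT6 sgD P x)
    (((chg6 true x : ℂ) - (chg6 false x : ℂ)) * (sgn (ht x) : ℂ))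
  have h4 : 20 * Real.exp (-(4 * |ht x|)) ≤ 20 * 1 :=
    mul_le_mul_of_nonneg_left (Real.exp_le_one_iff.2 (by
      have := abs_nonneg (ht x); linarith)) (by positivity)
  unfold CS6
  linarith

theorem stO_sg_le6 {P : Par6} (hP : GoodP6 P) (O : Fin r → Xo) : ‖stO6 sgD P O‖ ≤ CS6 * r := by
  unfold stO6
  refine (norm_sum_le _ _).trans ?_
  refine (Finset.sum_le_card_nsmul _ _ _ fun i _ => obT_le6 hP (O i)).trans ?_
  rw [Finset.card_univ, Fintype.card_fin, nsmul_eq_mul, mul_comm]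

/-- **the response of the objects to a field without mass** -/
theorem kapO_pin6 {P : Par6} (hP : GoodP6 P) (hj : P.j2 ≤ 19 / 20) (O : Fin r → Xo) {a M : ℝ}
    (ha : 0 < a) (ha2 : a < 2) (hM : 0 ≤ M) {β : Bool → ℝ → ℂ}
    (hm : ∀ b, AEStronglyMeasurable (β b))
    (hβ : ∀ b t, ‖β b t‖ ≤ M * Real.exp (-(a * |t|)))
    (h0 : ∀ x : Xo, ∑ b, ((chg6 b x : ℂ) - (chg6 (!b) x : ℂ)) * ∫ t : ℝ, β b t = 0) :
    ‖∑ i, kapO6 P O i β‖ ≤ M * CK6 a * pinR a O := by
  unfold pinR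
  rw [Finset.mul_sum]
  refine (norm_sum_le _ _).trans (Finset.sum_le_sum fun i _ => ?_)
  have h1 := kapO_lim6 hP hj O ha ha2 hM hm hβ i
  rw [h0, mul_zero, add_zero] at h1
  exact h1

/-- **the step: the statistic of the objects and the response cancel** -/
theorem stepO6 {P : Par6} (hP : GoodP6 P) (hj : P.j2 ≤ 19 / 20) (O : Fin r → Xo) {a M : ℝ}
    (ha : 0 < a) (ha2 : a < 2) (hM : 0 ≤ M) {β : Bool → ℝ → ℂ}
    (hm : ∀ b, AEStronglyMeasurable (β b))
    (hβ : ∀ b t, ‖β b t‖ ≤ M * Real.exp (-(a * |t|)))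
    (h0 : ∀ b, ∫ t : ℝ, β b t = eM b * (1 / 4)) :
    ‖stO6 sgD P O + ∑ i, kapO6 P O i β‖ ≤ (CS6 + M * CK6 a) * pinR a O := by
  unfold stO6 pinR
  rw [← Finset.sum_add_distrib, Finset.mul_sum]
  refine (norm_sum_le _ _).trans (Finset.sum_le_sum fun i _ => ?_)
  have h1 := kapO_lim6 hP hj O ha ha2 hM hm hβ i
  have h2 := obT_lim6 hP (O i)
  have e1 : 2 * (sgn (ht (O i)) : ℂ) * ∑ b, ((chg6 b (O i) : ℂ) - (chg6 (!b) (O i) : ℂ)) *
      ∫ t : ℝ, β b t = ((chg6 true (O i) : ℂ) - (chg6 false (O i) : ℂ)) *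
        (sgn (ht (O i)) : ℂ) := by
    rw [Fintype.sum_bool, h0, h0]
    simp only [eM, Bool.not_true, Bool.not_false, if_true, Bool.false_eq_true, if_false]
    ring
  rw [e1] at h1
  have e2 : obT6 sgD P (O i) + kapO6 P O i β =
      (obT6 sgD P (O i) -
        ((chg6 true (O i) : ℂ) - (chg6 false (O i) : ℂ)) * (sgn (ht (O i)) : ℂ)) +
      (kapO6 P O i β + ((chg6 true (O i) : ℂ) - (chg6 false (O i) : ℂ)) *
        (sgn (ht (O i)) : ℂ)) := by ring
  rw [e2]
  refine (norm_add_le _ _).trans ?_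
  have h3 : Real.exp (-(4 * |ht (O i)|)) ≤ Real.exp (-(a * |ht (O i)|)) :=
    Real.exp_le_exp.2 (by
      have := mul_le_mul_of_nonneg_right (by linarith : a ≤ 4) (abs_nonneg (ht (O i)))
      linarith)
  have h4 : 20 * Real.exp (-(4 * |ht (O i)|)) ≤ CS6 * Real.exp (-(a * |ht (O i)|)) := by
    refine mul_le_mul ?_ h3 (Real.exp_pos _).le CS6_pos.le
    unfold CS6
    norm_num
  linarith

end PBOR.PLX

namespace PBF.PLX

open NUO NUP1 NUP1S NUP1S.Ab NUP1S.AbC NUGC NUGC.PLX NUCR PBOb PBOb.PLX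
open PBI (Stt Kd)
open PHK

section stat

variable [Fil] {N : ℕ}

/-- minus channel -/
theorem Vm_evN6 (ρ : ℂ → ℂ) (η : ℕ → Crs) (g : ℂ → ℂ) :
    (Vm6 (fun u => ρ u) η g : CfN6 N → ℂ) = evN6 fun n => Vy 0 (η n) ρ fun s z => eM s * g z := by
  funext ω
  have e : (Fil.b true : ℂ) * eM true + (Fil.b false : ℂ) * eM false =
      (Fil.b true : ℂ) - Fil.b false := by
    simp only [eM, if_true, Bool.false_eq_true, if_false]
    ring
  show stQ (qD eM g) _ _ _ _ - _ = Vy 0 (η ω.1) ρ (fun s z => eM s * g z) _ _ _ _ _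
  rw [stQ_qD (η ω.1) eM g ρ, e, add_sub_cancel_right]

/-- plus channel -/
theorem Vp_evN6 (ρ : ℂ → ℂ) (η : ℕ → Crs) (g : ℂ → ℂ) :
    (Vp6 (fun u => ρ u) η g : CfN6 N → ℂ) = evN6 fun n => Vy 0 (η n) ρ fun _ z => g z := by
  funext ω
  have e : (Fil.b true : ℂ) * eP true + (Fil.b false : ℂ) * eP false =
      (Fil.b true : ℂ) + Fil.b false := by
    simp only [eP, mul_one]
  have e2 : (fun s z => eP s * g z) = fun (_ : Bool) z => g z := by
    funext s z
    simp only [eP, one_mul]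
  show stQ (qD eP g) _ _ _ _ - _ = Vy 0 (η ω.1) ρ (fun _ z => g z) _ _ _ _ _
  rw [stQ_qD (η ω.1) eP g ρ, e, e2, add_sub_cancel_right]

/-- the step statistic of one configuration -/
theorem stA_sg6 (P : Par6) (η : Crs) (ρ : ℂ → ℂ) (r : ℕ) (O : Fin r → Xo)
    (a b : ℕ) (x : (Fin a → ℝ) × (Fin b → ℝ)) :
    stA6 sgD P η r O a b x =
      Vy 0 η ρ (fun s z => eM s * PB.NX.sgC z) r O a b x + stO6 sgD P O +
        ((Fil.b true : ℂ) - Fil.b false) * ∫ u : ℝ, ρ u * PB.NX.sgC u := by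
  have e0 : stA6 sgD P η r O a b x = stO6 sgD P O + stQ sgD (η r O) a b x := rfl
  rw [e0]
  have e : stQ sgD (η r O) a b x = stQ (qD eM PB.NX.sgC) (η r O) a b x := by
    unfold stQ
    simp only [sgD_nn, qD]
  rw [e, stQ_qD η eM _ ρ]
  simp only [eM, if_true, Bool.false_eq_true, if_false]
  ring

/-- the centred step statistic of one configuration -/
theorem stA_sg6' (P : Par6) (η : Crs) (ρ : ℂ → ℂ) (r : ℕ) (O : Fin r → Xo)
    (a b : ℕ) (x : (Fin a → ℝ) × (Fin b → ℝ)) :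
    stA6 sgD P η r O a b x - ((Fil.b true : ℂ) - Fil.b false) * ∫ u : ℝ, ρ u * PB.NX.sgC u =
      Vy 0 η ρ (fun s z => eM s * PB.NX.sgC z) r O a b x + stO6 sgD P O := by
  rw [stA_sg6 P η ρ]
  ring

/-- **the step** -/
theorem SN_eq6 (ρ : ℝ → ℂ) (P : Par6) (η : ℕ → Crs) (ω : CfN6 N) :
    SN6 ρ P η ω = Vm6 ρ η PB.NX.sgC ω + VO6 sgD P ω := SN6_Vm ρ P η ω

/-- the step as an insertion -/
theorem SN_evN6 (ρ : ℂ → ℂ) (P : Par6) (η : ℕ → Crs) :
    (SN6 (fun u => ρ u) P η : CfN6 N → ℂ) = evN6 fun n r O a b x =>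
      stA6 sgD P (η n) r O a b x -
        ((Fil.b true : ℂ) - Fil.b false) * ∫ u : ℝ, ρ u * PB.NX.sgC u := rfl

end stat

section ins

variable [Fil]

/-- the step is a differentiable insertion -/
theorem InsD.sn6 {δ b0 b1 : ℝ} {η η' : Crs} (hc : ∀ r O, CrvR6 δ (η r O) (η' r O))
    (hδ : δ ≤ 1 / 20) (hs : InS 0 b0 η) (hb : b0 < b1) (hb1 : b1 ≤ NUP1.l) (P : Par6) :
    InsD η' (stA6 sgD P η)
      (dSm (XCy 0 η fun s => deriv fun z => eM s * PB.NX.sgC z)) := by
  have h1 := (InsD.vy (fun r O => (hc r O).toR hδ) hs hb (fun _ => 0) (fldF_sg hb1)).add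
    (InsD.obj η' fun r O => stO6 sgD P O)
  have e1 : (fun (r : ℕ) (O : Fin r → Xo) (a b : ℕ) (x : (Fin a → ℝ) × (Fin b → ℝ)) =>
      Vy 0 η (fun _ => 0) (fun s z => eM s * PB.NX.sgC z) r O a b x + stO6 sgD P O) =
      stA6 sgD P η := by
    funext r O a b x
    rw [stA_sg6 P η fun _ => 0]
    simp
  have e2 : (fun (r : ℕ) (O : Fin r → Xo) (a b : ℕ) (k : Fin a ⊕ Fin b)
      (x : (Fin a → ℝ) × (Fin b → ℝ)) =>
      dSm (XCy 0 η fun s => deriv fun z => eM s * PB.NX.sgC z) r O a b k x + 0) =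
      dSm (XCy 0 η fun s => deriv fun z => eM s * PB.NX.sgC z) := by
    funext r O a b k x
    rw [add_zero]
  rw [e1, e2] at h1
  exact h1

/-- the centred step is a differentiable insertion -/
theorem InsD.sn6' {δ b0 b1 : ℝ} {η η' : Crs} (hc : ∀ r O, CrvR6 δ (η r O) (η' r O))
    (hδ : δ ≤ 1 / 20) (hs : InS 0 b0 η) (hb : b0 < b1) (hb1 : b1 ≤ NUP1.l) (P : Par6) (ρ : ℂ → ℂ) :
    InsD η' (fun r O a b x => stA6 sgD P η r O a b x -
        ((Fil.b true : ℂ) - Fil.b false) * ∫ u : ℝ, ρ u * PB.NX.sgC u)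
      (dSm (XCy 0 η fun s => deriv fun z => eM s * PB.NX.sgC z)) := by
  have h1 := (InsD.vy (fun r O => (hc r O).toR hδ) hs hb ρ (fldF_sg hb1)).add
    (InsD.obj η' fun r O => stO6 sgD P O)
  have e1 : (fun (r : ℕ) (O : Fin r → Xo) (a b : ℕ) (x : (Fin a → ℝ) × (Fin b → ℝ)) =>
      Vy 0 η ρ (fun s z => eM s * PB.NX.sgC z) r O a b x + stO6 sgD P O) =
      fun r O a b x => stA6 sgD P η r O a b x -
        ((Fil.b true : ℂ) - Fil.b false) * ∫ u : ℝ, ρ u * PB.NX.sgC u := by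
    funext r O a b x
    rw [stA_sg6' P η ρ]
  have e2 : (fun (r : ℕ) (O : Fin r → Xo) (a b : ℕ) (k : Fin a ⊕ Fin b)
      (x : (Fin a → ℝ) × (Fin b → ℝ)) =>
      dSm (XCy 0 η fun s => deriv fun z => eM s * PB.NX.sgC z) r O a b k x + 0) =
      dSm (XCy 0 η fun s => deriv fun z => eM s * PB.NX.sgC z) := by
    funext r O a b k x
    rw [add_zero]
  rw [e1, e2] at h1
  exact h1

end ins

end PBF.PLX

end
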