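import Pool.Agent.PHK.Cst6

/-!
# The particle-hole form (P): the family `Z e^{s D}` of one body functions

(P) twin of `PLX/PB/TRsA`; the family `expZ`, the statistic `stQ` of the quanta and `exp_interp` are the
landed ones, the statistics `obT6`, `stO6`, `stA6` are those of `PHK/Cst6`.

* `obK_expZ6`, `wK_expZ6`, `gK_expZ6`; `insE6`, `FF_expZ6`, `FA_expZ6`; `FA_lin6`, `MeasI6`, `FA_conv6`,
  `FA_geo6`.
-/

set_option autoImplicit false
set_option linter.unusedSectionVars false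

noncomputable section

open Complex MeasureTheory Finset
open scoped ENNReal
open PLX (Fil)

namespace PBF.PLX

open NUO NUP1 NUP1S NUP1S.Ab NUP1S.AbC NUGC NUGC.PLX NUCR
open PHK

variable {r : ℕ}

/-! ### the family -/

variable [Fil]

/-- product over signed constituents of the family -/
theorem prod_expZ (Z D : Bool → Option O3 → ℂ → ℂ) (s : ℂ) (L : List Cst6) :
    (L.map fun c => expZ Z D s c.1.1.1 c.1.1.2 c.1.2 ^ c.2).prod =
      (L.map fun c => Z c.1.1.1 c.1.1.2 c.1.2 ^ c.2).prod *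
        Complex.exp (s * (L.map fun c => (c.2 : ℂ) * D c.1.1.1 c.1.1.2 c.1.2).sum) := by
  induction L with
  | nil => simp
  | cons c L ih =>
    rw [List.map_cons, List.map_cons, List.map_cons, List.prod_cons, List.prod_cons, List.sum_cons,
      ih, mul_add, Complex.exp_add]
    have e : expZ Z D s c.1.1.1 c.1.1.2 c.1.2 ^ c.2 = Z c.1.1.1 c.1.1.2 c.1.2 ^ c.2 *
        Complex.exp (s * ((c.2 : ℂ) * D c.1.1.1 c.1.1.2 c.1.2)) := by
      unfold expZ
      rw [mul_zpow, ← Complex.exp_int_mul]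
      congr 2
      ring
    rw [e]
    ring

theorem obK_expZ6 (Z D : Bool → Option O3 → ℂ → ℂ) (s : ℂ) (P : Par6) (x : Xo) :
    obK6 (expZ Z D s) P x = obK6 Z P x * Complex.exp (s * obT6 D P x) := by
  unfold obK6 obT6
  rw [prod_expZ]
  ring

theorem wK_expZ6 (Z D : Bool → Option O3 → ℂ → ℂ) (s : ℂ) (P : Par6) (O : Fin r → Xo) :
    wK6 (expZ Z D s) P O = wK6 Z P O * Complex.exp (s * stO6 D P O) := by
  unfold wK6 stO6
  simp only [obK_expZ6]
  rw [Finset.prod_mul_distrib, ← Complex.exp_sum, Finset.mul_sum]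
  ring

/-- the quanta, any one body functions -/
theorem gK_expG (G G' : Bool → ℂ → ℂ) (D : Bool → Option O3 → ℂ → ℂ) (s : ℂ)
    (hG : ∀ b z, G' b z = G b z * Complex.exp (s * D b none z))
    (η η' : ℝ → ℝ) (a b : ℕ) (x : (Fin a → ℝ) × (Fin b → ℝ)) :
    gK G' η η' a b x = gK G η η' a b x * Complex.exp (s * stQ D η a b x) := by
  unfold gK Fc
  rw [show (∏ i, NUP1S.hh p0 G' (cCt a b (crvC true NUP1.l (dA (Fil.cv true η)) (dA (Fil.cv true η')))
      (crvC false NUP1.l (dA (Fil.cv false η)) (dA (Fil.cv false η'))) i) (Sum.elim x.1 x.2 i)) =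
      (∏ i, NUP1S.hh p0 G (cCt a b (crvC true NUP1.l (dA (Fil.cv true η)) (dA (Fil.cv true η')))
      (crvC false NUP1.l (dA (Fil.cv false η)) (dA (Fil.cv false η'))) i) (Sum.elim x.1 x.2 i)) *
        Complex.exp (s * stQ D η a b x) by
    rw [Fintype.prod_sum_type, Fintype.prod_sum_type]
    unfold stQ
    rw [mul_add, Complex.exp_add, Finset.mul_sum, Finset.mul_sum, Complex.exp_sum, Complex.exp_sum]
    have e1 : ∀ i, NUP1S.hh p0 G' (cCt a b (crvC true NUP1.l (dA (Fil.cv true η)) (dA (Fil.cv true η')))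
        (crvC false NUP1.l (dA (Fil.cv false η)) (dA (Fil.cv false η'))) (Sum.inl i)) (Sum.elim x.1 x.2 (Sum.inl i)) =
        NUP1S.hh p0 G (cCt a b (crvC true NUP1.l (dA (Fil.cv true η)) (dA (Fil.cv true η')))
        (crvC false NUP1.l (dA (Fil.cv false η)) (dA (Fil.cv false η'))) (Sum.inl i)) (Sum.elim x.1 x.2 (Sum.inl i)) *
          Complex.exp (s * D true none (NUO.pA (Fil.cv true η) (x.1 i))) := by
      intro i
      unfold NUP1S.hh
      rw [Wt_p0, Wt_p0]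
      simp only [cCt, Sum.elim_inl, crvC]
      rw [pA_crv]
      simp only [g2, hG, if_true]
      ring
    have e2 : ∀ j, NUP1S.hh p0 G' (cCt a b (crvC true NUP1.l (dA (Fil.cv true η)) (dA (Fil.cv true η')))
        (crvC false NUP1.l (dA (Fil.cv false η)) (dA (Fil.cv false η'))) (Sum.inr j)) (Sum.elim x.1 x.2 (Sum.inr j)) =
        NUP1S.hh p0 G (cCt a b (crvC true NUP1.l (dA (Fil.cv true η)) (dA (Fil.cv true η')))
        (crvC false NUP1.l (dA (Fil.cv false η)) (dA (Fil.cv false η'))) (Sum.inr j)) (Sum.elim x.1 x.2 (Sum.inr j)) *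
          Complex.exp (s * D false none (NUO.pA (Fil.cv false η) (x.2 j))) := by
      intro j
      unfold NUP1S.hh
      rw [Wt_p0, Wt_p0]
      simp only [cCt, Sum.elim_inr, crvC]
      rw [pA_crv]
      simp only [g2, hG, Bool.false_eq_true, if_false]
      ring
    rw [Finset.prod_congr rfl fun i _ => e1 i, Finset.prod_congr rfl fun j _ => e2 j,
      Finset.prod_mul_distrib, Finset.prod_mul_distrib]
    ring]
  ring

theorem gK_expZ6 (Z D : Bool → Option O3 → ℂ → ℂ) (s : ℂ) (P : Par6) (O : Fin r → Xo)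
    (η η' : ℝ → ℝ) (a b : ℕ) (x : (Fin a → ℝ) × (Fin b → ℝ)) :
    gK (gF6 (expZ Z D s) P O) η η' a b x =
      gK (gF6 Z P O) η η' a b x * Complex.exp (s * stQ D η a b x) := by
  refine gK_expG _ _ D s (fun c z => ?_) η η' a b x
  unfold gF6 expZ
  ring

variable {Z D : Bool → Option O3 → ℂ → ℂ} {P : Par6} {n n' : ℕ} {η η' : Crs}

/-- the insertion `exp (s A) Ψ` -/
def insE6 (D : Bool → Option O3 → ℂ → ℂ) (P : Par6) (η : Crs) (s : ℂ) (Ψ : Ins) : Ins :=
  fun r O a b x => Complex.exp (s * stA6 D P η r O a b x) * Ψ r O a b x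

theorem trm_expZ6 (s : ℂ) (Ψ : Ins) (O : Fin r → Xo) :
    trm6 (expZ Z D s) P n n' η η' Ψ r O = trm6 Z P n n' η η' (insE6 D P η s Ψ) r O := by
  unfold trm6
  split_ifs with h
  · rw [wK_expZ6]
    have e : ∀ x, gK (gF6 (expZ Z D s) P O) (η r O) (η' r O) (nA6 n O true) (nA6 n' O false) x *
        Ψ r O (nA6 n O true) (nA6 n' O false) x =
        Complex.exp (-(s * stO6 D P O)) * (gK (gF6 Z P O) (η r O) (η' r O) (nA6 n O true)
          (nA6 n' O false) x * insE6 D P η s Ψ r O (nA6 n O true) (nA6 n' O false) x) := by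
      intro x
      rw [gK_expZ6]
      unfold insE6 stA6
      rw [mul_add, Complex.exp_add, Complex.exp_neg]
      field_simp
    simp only [e]
    rw [integral_const_mul, Complex.exp_neg]
    field_simp
  · rfl

/-- **the functional of the family** -/
theorem FF_expZ6 (s : ℂ) (Ψ : Ins) :
    FF6 (expZ Z D s) P n n' η η' Ψ = FF6 Z P n n' η η' (insE6 D P η s Ψ) := by
  unfold FF6
  simp only [trm_expZ6]

theorem trA_expZ6 (s : ℂ) (Ψ : Ins) (O : Fin r → Xo) :
    trA6 (expZ Z D s) P n n' η η' Ψ r O = trA6 Z P n n' η η' (insE6 D P η s Ψ) r O := by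
  unfold trA6
  split_ifs with h
  · have e : ∀ x, ‖gK (gF6 (expZ Z D s) P O) (η r O) (η' r O) (nA6 n O true)
        (nA6 n' O false) x‖ₑ * ‖Ψ r O (nA6 n O true) (nA6 n' O false) x‖ₑ =
        ‖Complex.exp (-(s * stO6 D P O))‖ₑ * (‖gK (gF6 Z P O) (η r O) (η' r O) (nA6 n O true)
          (nA6 n' O false) x‖ₑ *
          ‖insE6 D P η s Ψ r O (nA6 n O true) (nA6 n' O false) x‖ₑ) := by
      intro x
      rw [← enorm_mul, ← enorm_mul, ← enorm_mul, gK_expZ6]
      congr 1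
      unfold insE6 stA6
      rw [mul_add, Complex.exp_add, Complex.exp_neg]
      field_simp
    simp only [e]
    rw [lintegral_const_mul' _ _ enorm_ne_top, wK_expZ6, enorm_mul]
    rw [show ∀ a b c d I : ℝ≥0∞, a * b * (c * (d * I)) = a * (c * ((b * d) * I)) from
      fun a b c d I => by ring]
    rw [← enorm_mul, ← Complex.exp_add, add_neg_cancel, Complex.exp_zero, enorm_one, one_mul]
  · rfl

/-- **the functional with moduli of the family** -/
theorem FA_expZ6 (s : ℂ) (Ψ : Ins) :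
    FA6 (expZ Z D s) P n n' η η' Ψ = FA6 Z P n n' η η' (insE6 D P η s Ψ) := by
  unfold FA6
  simp only [trA_expZ6]

/-! ### linear bounds of the functional with moduli -/

/-- the functional with moduli only depends on the moduli of the insertion on the relevant numbers -/
theorem FA_lin6 {Ψ Ψ1 Ψ2 : Ins} {a b : ℝ≥0∞} (ha : a ≠ ∞) (hb : b ≠ ∞)
    (hm : ∀ (r : ℕ) (O : Fin r → Xo), AEMeasurable (fun x =>
      ‖gK (gF6 Z P O) (η r O) (η' r O) (nA6 n O true) (nA6 n' O false) x‖ₑ *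
        ‖Ψ1 r O (nA6 n O true) (nA6 n' O false) x‖ₑ))
    (hM : ∀ r : ℕ, AEMeasurable (fun O : Fin r → Xo => trA6 Z P n n' η η' Ψ1 r O)
      (Measure.pi fun _ => nu))
    (h : ∀ r O p q x, ‖Ψ r O p q x‖ₑ ≤ a * ‖Ψ1 r O p q x‖ₑ + b * ‖Ψ2 r O p q x‖ₑ) :
    FA6 Z P n n' η η' Ψ ≤ a * FA6 Z P n n' η η' Ψ1 + b * FA6 Z P n n' η η' Ψ2 := by
  have h1 : ∀ (r : ℕ) (O : Fin r → Xo), trA6 Z P n n' η η' Ψ r O ≤
      a * trA6 Z P n n' η η' Ψ1 r O + b * trA6 Z P n n' η η' Ψ2 r O := by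
    intro r O
    unfold trA6
    split_ifs with hc
    · calc ‖wK6 Z P O‖ₑ * ((((nA6 n O true).factorial : ℝ≥0∞) * (nA6 n' O false).factorial)⁻¹ *
          ∫⁻ x, ‖gK (gF6 Z P O) (η r O) (η' r O) (nA6 n O true) (nA6 n' O false) x‖ₑ *
            ‖Ψ r O (nA6 n O true) (nA6 n' O false) x‖ₑ)
        ≤ ‖wK6 Z P O‖ₑ * ((((nA6 n O true).factorial : ℝ≥0∞) * (nA6 n' O false).factorial)⁻¹ *
          ∫⁻ x, (a * (‖gK (gF6 Z P O) (η r O) (η' r O) (nA6 n O true) (nA6 n' O false) x‖ₑ *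
            ‖Ψ1 r O (nA6 n O true) (nA6 n' O false) x‖ₑ) +
            b * (‖gK (gF6 Z P O) (η r O) (η' r O) (nA6 n O true) (nA6 n' O false) x‖ₑ *
            ‖Ψ2 r O (nA6 n O true) (nA6 n' O false) x‖ₑ))) := by
              refine mul_le_mul' le_rfl (mul_le_mul' le_rfl (lintegral_mono fun x => ?_))
              refine (mul_le_mul' le_rfl (h r O _ _ x)).trans (le_of_eq ?_)
              ring
        _ = _ := by
              rw [lintegral_add_left' ((hm r O).const_mul _), lintegral_const_mul' _ _ ha,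
                lintegral_const_mul' _ _ hb]
              ring
    · simp
  unfold FA6
  rw [Finset.mul_sum, Finset.mul_sum, ← Finset.sum_add_distrib]
  refine Finset.sum_le_sum fun r _ => ?_
  calc ((r.factorial : ℕ) : ℝ≥0∞)⁻¹ *
        ∫⁻ O : Fin r → Xo, trA6 Z P n n' η η' Ψ r O ∂(Measure.pi fun _ => nu)
      ≤ ((r.factorial : ℕ) : ℝ≥0∞)⁻¹ *
        ∫⁻ O : Fin r → Xo, (a * trA6 Z P n n' η η' Ψ1 r O + b * trA6 Z P n n' η η' Ψ2 r O)
          ∂(Measure.pi fun _ => nu) :=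
        mul_le_mul' le_rfl (lintegral_mono fun O => h1 r O)
    _ = _ := by
        rw [lintegral_add_left' ((hM r).const_mul _), lintegral_const_mul' _ _ ha,
          lintegral_const_mul' _ _ hb]
        ring

theorem enorm_insE_le6 {s lam : ℝ} (h0 : 0 ≤ s) (h1 : s ≤ 1) (hl : 0 < lam) (Ψ : Ins)
    (r : ℕ) (O : Fin r → Xo) (a b : ℕ) (x : (Fin a → ℝ) × (Fin b → ℝ)) :
    ‖insE6 D P η (s : ℂ) Ψ r O a b x‖ₑ ≤ ENNReal.ofReal ((1 - s) * lam ^ s) * ‖Ψ r O a b x‖ₑ +
      ENNReal.ofReal (s * lam ^ (s - 1)) * ‖insE6 D P η 1 Ψ r O a b x‖ₑ := by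
  unfold insE6
  rw [enorm_mul, enorm_mul, ← mul_assoc, ← add_mul]
  refine mul_le_mul' ?_ le_rfl
  have e : ∀ z : ℂ, ‖Complex.exp z‖ₑ = ENNReal.ofReal (Real.exp z.re) := by
    intro z
    rw [← ofReal_norm, Complex.norm_exp]
  rw [e, e, one_mul, ← ENNReal.ofReal_mul (mul_nonneg h0 (Real.rpow_nonneg hl.le _)),
    ← ENNReal.ofReal_add (mul_nonneg (by linarith) (Real.rpow_nonneg hl.le _))
      (mul_nonneg (mul_nonneg h0 (Real.rpow_nonneg hl.le _)) (Real.exp_pos _).le)]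
  refine ENNReal.ofReal_le_ofReal ?_
  have : ((s : ℂ) * stA6 D P η r O a b x).re = s * (stA6 D P η r O a b x).re := by simp
  rw [this]
  exact exp_interp h0 h1 hl

/-- measurability of an insertion against the weights -/
structure MeasI6 (Z : Bool → Option O3 → ℂ → ℂ) (P : Par6) (n n' : ℕ) (η η' : Crs) (Ψ : Ins) :
    Prop where
  /-- the quanta -/
  q : ∀ (r : ℕ) (O : Fin r → Xo), AEMeasurable (fun x =>
      ‖gK (gF6 Z P O) (η r O) (η' r O) (nA6 n O true) (nA6 n' O false) x‖ₑ *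
        ‖Ψ r O (nA6 n O true) (nA6 n' O false) x‖ₑ)
  /-- the objects -/
  o : ∀ r : ℕ, AEMeasurable (fun O : Fin r → Xo => trA6 Z P n n' η η' Ψ r O)
      (Measure.pi fun _ => nu)

/-- **convexity** -/
theorem FA_conv6 {s lam : ℝ} (h0 : 0 ≤ s) (h1 : s ≤ 1) (hl : 0 < lam) {Ψ : Ins}
    (hM : MeasI6 Z P n n' η η' Ψ) :
    FA6 (expZ Z D s) P n n' η η' Ψ ≤ ENNReal.ofReal ((1 - s) * lam ^ s) * FA6 Z P n n' η η' Ψ +
      ENNReal.ofReal (s * lam ^ (s - 1)) * FA6 (expZ Z D 1) P n n' η η' Ψ := by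
  rw [FA_expZ6, FA_expZ6]
  exact FA_lin6 ENNReal.ofReal_ne_top ENNReal.ofReal_ne_top hM.q hM.o
    fun r O p q x => enorm_insE_le6 h0 h1 hl Ψ r O p q x

/-- **the masses on the path are bounded by the geometric mean of the two ends** -/
theorem FA_geo6 {s M0 M1 : ℝ} (h0 : 0 ≤ s) (h1 : s ≤ 1) (hM0 : 0 < M0) (hM1 : 0 < M1) {Ψ : Ins}
    (hM : MeasI6 Z P n n' η η' Ψ) (b0 : FA6 Z P n n' η η' Ψ ≤ ENNReal.ofReal M0)
    (b1 : FA6 (expZ Z D 1) P n n' η η' Ψ ≤ ENNReal.ofReal M1) :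
    FA6 (expZ Z D s) P n n' η η' Ψ ≤ ENNReal.ofReal (M0 ^ (1 - s) * M1 ^ s) := by
  have hl : 0 < M1 / M0 := div_pos hM1 hM0
  refine (FA_conv6 (D := D) h0 h1 hl hM).trans ?_
  have hs : 0 ≤ (1 - s) * (M1 / M0) ^ s := mul_nonneg (by linarith) (Real.rpow_nonneg hl.le _)
  have hs' : 0 ≤ s * (M1 / M0) ^ (s - 1) := mul_nonneg h0 (Real.rpow_nonneg hl.le _)
  calc ENNReal.ofReal ((1 - s) * (M1 / M0) ^ s) * FA6 Z P n n' η η' Ψ +
        ENNReal.ofReal (s * (M1 / M0) ^ (s - 1)) * FA6 (expZ Z D 1) P n n' η η' Ψ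
      ≤ ENNReal.ofReal ((1 - s) * (M1 / M0) ^ s) * ENNReal.ofReal M0 +
        ENNReal.ofReal (s * (M1 / M0) ^ (s - 1)) * ENNReal.ofReal M1 := by gcongr
    _ = ENNReal.ofReal (M0 ^ (1 - s) * M1 ^ s) := by
        rw [← ENNReal.ofReal_mul hs, ← ENNReal.ofReal_mul hs', ← ENNReal.ofReal_add
          (mul_nonneg hs hM0.le) (mul_nonneg hs' hM1.le)]
        congr 1
        have e1 : (M1 / M0) ^ (s - 1) * M1 = (M1 / M0) ^ s * M0 := by
          rw [Real.rpow_sub_one hl.ne']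
          field_simp
        have e2 : (M1 / M0) ^ s * M0 = M0 ^ (1 - s) * M1 ^ s := by
          rw [Real.div_rpow hM1.le hM0.le, Real.rpow_sub hM0, Real.rpow_one]
          field_simp
        calc (1 - s) * (M1 / M0) ^ s * M0 + s * (M1 / M0) ^ (s - 1) * M1
            = (1 - s) * ((M1 / M0) ^ s * M0) + s * ((M1 / M0) ^ (s - 1) * M1) := by ring
          _ = (M1 / M0) ^ s * M0 := by rw [e1]; ring
          _ = _ := e2

end PBF.PLX

end
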