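import Pool.Agent.PHK.Conf6
import Pool.Agent.PHK.ConfM
import Pool.Agent.PHK.TRsA6
import Pool.Agent.PLX.PB.TRsB

/-!
# The particle-hole form (P): (TR), s-path on one measure space

(P) twin of `PLX/PB/TRsB`; `expN`, `measurable_expZ`, `MIn_stQ`, `norm_stQ_le`, `lint_geo` are the landed
ones.

* `wP_expZ6`, `wC_expZ6`, `wN_expN6`: the weight of the family `expN Z D s` is `w e^{s A}`,
  `A = evN6 (stN6 D)`;
* `norm_stA_le6`: bound of the total statistic; `PathD6` (no field `hP`);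
* `F_expN6`, `PathD6.hasDerivAt`: the functional on the path and its derivative `F_s[A Ψ]`;
* `UN_geo6`, `FAN_geo6`: masses on the path are bounded by the geometric mean of the two ends;
* `nF6`, `hasDerivAt_nF6`, `nF_err6`: normalised functional, its derivative, the error.
-/

set_option autoImplicit false
set_option linter.unusedSectionVars false

noncomputable section

open Complex MeasureTheory Finset
open scoped ENNReal
open PLX (Fil)

namespace PBF.PLX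

open NUO NUP1 NUCR NUP1S NUP1S.Ab NUP1S.AbC NUGC NUGC.PLX PBFunc PBFunc.PLX
open PHK

variable [Fil]

/-! ### the weights of the family -/

section one

variable {Z D : Bool → Option O3 → ℂ → ℂ} {P : Par6} {n n' : ℕ} {η η' : Crs}

theorem wP_expZ6 (s : ℂ) (i : CIx6 n n') (p : Pc6 i) :
    wP6 (expZ Z D s) P n n' η η' i p = wP6 Z P n n' η η' i p *
      Complex.exp (s * stA6 D P η i.1 p.1 i.2.1 i.2.2 p.2) := by
  unfold wP6
  split_ifs
  · rw [wK_expZ6, gK_expZ6]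
    unfold stA6
    rw [mul_add s, Complex.exp_add]
    ring
  · rw [zero_mul]

theorem wC_expZ6 (s : ℂ) (x : Cf6 n n') : wC6 (expZ Z D s) P n n' η η' x =
    wC6 Z P n n' η η' x * Complex.exp (s * ev6 (stA6 D P η) x) := wP_expZ6 s x.1 x.2

/-! ### measurability of the total statistic -/

/-- the statistic as a function of species, kind and height -/
def obTf (D : Bool → Option O3 → ℂ → ℂ) (P : Par6) (k : Bool × Kd6) (t : ℝ) : ℂ :=
  match k.2 with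
  | .L => D k.1 (some .L) (posL P.jL t)
  | .T => D k.1 (some .T) (posT t)
  | .E => D k.1 (some .S) (posS P.e t) + 2 * D (!k.1) none (posB P.e t)
  | .F => D k.1 (some .S) (posS P.e t) + (2 * D (!k.1) none (posB P.e t) -
      D k.1 none (posB P.e t))
  | .H1 => -D k.1 none (posL P.j1 t)
  | .H2 => -D k.1 none (posL P.j2 t)

theorem obT6_obTf (D : Bool → Option O3 → ℂ → ℂ) (P : Par6) (x : Xo) :
    obT6 D P x = obTf D P (sp x, k6 x) (ht x) := by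
  unfold obTf
  rcases h : k6 x with _ | _ | _ | _ | _ | _
  · exact obT6_L D P h
  · exact obT6_T D P h
  · exact obT6_E D P h
  · exact obT6_F D P h
  · exact obT6_H1 D P h
  · exact obT6_H2 D P h

theorem measurable_obT6 (P : Par6) (hD : ∀ s k, Measurable (D s k)) :
    Measurable fun x : Xo => obT6 D P x := by
  have hi : Measurable fun t : ℝ => t := measurable_id
  have hL : ∀ j : ℝ, Measurable fun t : ℝ => posL j t := fun j => NUO.measurable_vl hi _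
  have hT : Measurable fun t : ℝ => posT t := NUO.measurable_vl hi _
  have hS : Measurable fun t : ℝ => posS P.e t := NUO.measurable_vl hi _
  have hB : Measurable fun t : ℝ => posB P.e t := hS.add_const _
  simp only [obT6_obTf]
  refine measurable_of6 (F := obTf D P) fun k => ?_
  obtain ⟨s, k⟩ := k
  cases k
  · exact (hD s (some .L)).comp (hL _)
  · exact (hD s (some .T)).comp hT
  · exact ((hD s (some .S)).comp hS).add (((hD (!s) none).comp hB).const_mul _)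
  · exact ((hD s (some .S)).comp hS).add ((((hD (!s) none).comp hB).const_mul _).sub
      ((hD s none).comp hB))
  · exact ((hD s none).comp (hL _)).neg
  · exact ((hD s none).comp (hL _)).neg

theorem measurable_stO6 {r : ℕ} (P : Par6) (hD : ∀ s k, Measurable (D s k)) :
    Measurable fun O : Fin r → Xo => stO6 D P O := by
  unfold stO6
  exact Finset.measurable_sum _ fun i _ => (measurable_obT6 P hD).comp (measurable_pi_apply i)

theorem MIn_stO6 (P : Par6) (hD : ∀ s k, Measurable (D s k)) :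
    MIn fun _ O _ _ _ => stO6 D P O := fun r _ _ =>
  (measurable_stO6 P hD).comp measurable_fst

theorem MIn_stA6 (P : Par6) (hD : ∀ s k, Measurable (D s k))
    (hc : MCr η η') : MIn (stA6 D P η) := fun r a b =>
  (MIn_stO6 P hD r a b).add (MIn_stQ (fun s => hD s none) hc r a b)

/-! ### bound of the total statistic -/

theorem norm_stA_le6 {r : ℕ} {O : Fin r → Xo} {B : ℝ}
    (hB : ∀ s t, ‖D s none (NUO.pA (Fil.cv s (η r O)) t)‖ ≤ B)
    (hB' : ∀ i, ‖obT6 D P (O i)‖ ≤ B) (a b : ℕ)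
    (x : (Fin a → ℝ) × (Fin b → ℝ)) : ‖stA6 D P η r O a b x‖ ≤ B * (r + a + b) := by
  unfold stA6 stO6
  refine (norm_add_le _ _).trans ?_
  have h1 : ‖∑ i, obT6 D P (O i)‖ ≤ ∑ _i : Fin r, B :=
    norm_sum_le_of_le _ fun i _ => hB' i
  simp only [Finset.sum_const, Finset.card_univ, Fintype.card_fin, nsmul_eq_mul] at h1
  have h2 := norm_stQ_le hB a b x
  linarith

end one

/-! ### all numbers of quanta -/

section path

variable (Z D : ℕ → Bool → Option O3 → ℂ → ℂ) (P : ℕ → Par6) (N : ℕ) (η η' : ℕ → Crs)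
  (c : ℕ → ℂ)

/-- the total statistic -/
def stN6 : ℕ → Ins := fun n => stA6 (D n) (P n) (η n)

variable {Z D P N η η' c}

theorem wN_expN6 (s : ℂ) (x : CfN6 N) : wN6 (expN Z D s) P N η η' c x =
    wN6 Z P N η η' c x * Complex.exp (s * evN6 (stN6 D P η) x) := by
  unfold wN6 expN evN6 stN6
  rw [wC_expZ6]
  ring

/-- **the functional of the family** -/
theorem F_expN6 (s : ℂ) (O : CfN6 N → ℂ) : F (mN6 N) (wN6 (expN Z D s) P N η η' c) O =
    F (mN6 N) (wN6 Z P N η η' c) (fun x => Complex.exp (s * evN6 (stN6 D P η) x) * O x) := by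
  unfold F
  refine integral_congr_ae (Filter.Eventually.of_forall fun x => ?_)
  simp only [wN_expN6]
  ring

/-- data of the path -/
structure PathD6 (Z D : ℕ → Bool → Option O3 → ℂ → ℂ) (P : ℕ → Par6) (N : ℕ) (η η' : ℕ → Crs)
    (B : ℝ) : Prop where
  hZ : ∀ n ≤ N, ∀ s k, Measurable (Z n s k)
  hD : ∀ n ≤ N, ∀ s k, Measurable (D n s k)
  hc : ∀ n ≤ N, MCr (η n) (η' n)
  B0 : 0 ≤ B
  bq : ∀ n ≤ N, ∀ (r : ℕ) (O : Fin r → Xo) s t, ‖D n s none (NUO.pA (Fil.cv s (η n r O)) t)‖ ≤ B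
  bo : ∀ n ≤ N, ∀ (r : ℕ) (O : Fin r → Xo) i,
    ‖obT6 (D n) (P n) (O i)‖ ≤ B

variable {B : ℝ}

theorem PathD6.mc (h : PathD6 Z D P N η η' B) (s : ℂ) :
    ∀ n ≤ N, MC6 (expN Z D s n) (P n) (η n) (η' n) := fun n hn =>
  MC6.of (fun b k => measurable_expZ (h.hZ n hn) (h.hD n hn) s b k) (h.hc n hn)

theorem PathD6.mc0 (h : PathD6 Z D P N η η' B) : ∀ n ≤ N, MC6 (Z n) (P n) (η n) (η' n) :=
  fun n hn => MC6.of (h.hZ n hn) (h.hc n hn)

theorem PathD6.mst (h : PathD6 Z D P N η η' B) : ∀ n ≤ N, MIn (stN6 D P η n) := fun n hn =>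
  MIn_stA6 _ (h.hD n hn) (h.hc n hn)

theorem PathD6.mA (h : PathD6 Z D P N η η' B) :
    Measurable (evN6 (stN6 D P η) : CfN6 N → ℂ) := evN_meas6 h.mst

theorem PathD6.mw (h : PathD6 Z D P N η η' B) : Measurable (wN6 Z P N η η' c) := wN_meas6 h.mc0

/-- the total statistic is bounded -/
theorem PathD6.le (h : PathD6 Z D P N η η' B) (x : CfN6 N) :
    ‖evN6 (stN6 D P η) x‖ ≤ B * (6 * N + 3 * dN N) := by
  obtain ⟨⟨n, hn⟩, ⟨⟨r, a, b⟩, O, y⟩⟩ := x
  have hn' : n ≤ N := by omega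
  have h1 := norm_stA_le6 (η := η n) (h.bq n hn' r O) (h.bo n hn' r O) a b y
  refine h1.trans (mul_le_mul_of_nonneg_left ?_ h.B0)
  have hr : (r : ℕ) ≤ 4 * N + 2 * dN N := by
    have := r.2
    simp only at this
    omega
  have ha : (a : ℕ) ≤ N := by
    have := a.2
    simp only at this
    omega
  have hb : (b : ℕ) ≤ N + dN N := by
    have := b.2
    simp only at this
    omega
  have hr' : ((r : ℕ) : ℝ) ≤ 4 * N + 2 * dN N := by exact_mod_cast hr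
  have ha' : ((a : ℕ) : ℝ) ≤ N := by exact_mod_cast ha
  have hb' : ((b : ℕ) : ℝ) ≤ N + dN N := by exact_mod_cast hb
  linarith

/-- integrability on the whole path -/
theorem PathD6.int_exp (h : PathD6 Z D P N η η' B) {K : CfN6 N → ℂ} (hI : WI (mN6 N) (wN6 Z P N η η' c) K)
    (r' : ℝ) : Integrable (fun x => ‖wN6 Z P N η η' c x‖ *
      Real.exp (r' * ‖evN6 (stN6 D P η) x‖) * ‖K x‖) (mN6 N) := by
  have h1 : Integrable (fun x => ‖wN6 Z P N η η' c x * K x‖) (mN6 N) := hI.norm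
  have h2 : Measurable fun x : CfN6 N => Real.exp (r' * ‖evN6 (stN6 D P η) x‖) :=
    Real.measurable_exp.comp (h.mA.norm.const_mul _)
  refine (h1.bdd_mul (c := Real.exp (|r'| * (B * (6 * N + 3 * dN N)))) h2.aestronglyMeasurable
    (Filter.Eventually.of_forall fun x => ?_)).congr (Filter.Eventually.of_forall fun x => ?_)
  · rw [Real.norm_of_nonneg (Real.exp_pos _).le]
    refine Real.exp_le_exp.2 ?_
    calc r' * ‖evN6 (stN6 D P η) x‖ ≤ |r'| * ‖evN6 (stN6 D P η) x‖ :=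
          mul_le_mul_of_nonneg_right (le_abs_self _) (norm_nonneg _)
      _ ≤ _ := mul_le_mul_of_nonneg_left (h.le x) (abs_nonneg _)
  · simp only [norm_mul]
    ring

/-- **the derivative on the path** -/
theorem PathD6.hasDerivAt (h : PathD6 Z D P N η η' B) {K : CfN6 N → ℂ} (hK : Measurable K)
    (hI : WI (mN6 N) (wN6 Z P N η η' c) K) (s : ℂ) :
    HasDerivAt (fun s : ℂ => F (mN6 N) (wN6 (expN Z D s) P N η η' c) K)
      (F (mN6 N) (wN6 (expN Z D s) P N η η' c) (fun x => evN6 (stN6 D P η) x * K x)) s := by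
  have h1 := hasDerivAt_F (μ := mN6 N) (w := wN6 Z P N η η' c) (B := evN6 (stN6 D P η)) (K := K)
    (r' := ‖s‖ + 1) (by positivity) (h.mw).aestronglyMeasurable h.mA.aestronglyMeasurable
    hK.aestronglyMeasurable (h.int_exp hI _) (z := s) (by linarith)
  simp only [← F_expN6] at h1
  exact h1

theorem PathD6.wi (h : PathD6 Z D P N η η' B) {K : CfN6 N → ℂ}
    (hI : WI (mN6 N) (wN6 Z P N η η' c) K) (s : ℂ) :
    WI (mN6 N) (wN6 (expN Z D s) P N η η' c) K := by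
  have h1 : Measurable fun x : CfN6 N => Complex.exp (s * evN6 (stN6 D P η) x) :=
    Complex.measurable_exp.comp (h.mA.const_mul _)
  refine (Integrable.bdd_mul (c := Real.exp (‖s‖ * (B * (6 * N + 3 * dN N)))) hI h1.aestronglyMeasurable
    (Filter.Eventually.of_forall fun x => ?_)).congr (Filter.Eventually.of_forall fun x => ?_)
  · rw [Complex.norm_exp]
    refine Real.exp_le_exp.2 ((Complex.re_le_norm _).trans ?_)
    rw [norm_mul]
    exact mul_le_mul_of_nonneg_left (h.le x) (norm_nonneg _)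
  · simp only [wN_expN6]
    ring

/-- a bounded measurable factor -/
theorem PathD6.wiA (h : PathD6 Z D P N η η' B) {K : CfN6 N → ℂ}
    (hI : WI (mN6 N) (wN6 Z P N η η' c) K) :
    WI (mN6 N) (wN6 Z P N η η' c) (fun x => evN6 (stN6 D P η) x * K x) := by
  refine (Integrable.bdd_mul (c := B * (6 * N + 3 * dN N)) hI h.mA.aestronglyMeasurable
    (Filter.Eventually.of_forall fun x => h.le x)).congr (Filter.Eventually.of_forall fun x => ?_)
  simp only []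
  ring

end path

/-! ### masses on the path -/

section mass

variable {Z D : ℕ → Bool → Option O3 → ℂ → ℂ} {P : ℕ → Par6} {N : ℕ} {η η' : ℕ → Crs}
  {c : ℕ → ℂ} {B : ℝ}

/-- **masses of the family**: insertions `Y ≥ 0` on the configuration space -/
theorem UN_geo6 (h : PathD6 Z D P N η η' B) {Y : CfN6 N → ℝ≥0∞} (hY : Measurable Y)
    {s M0 M1 : ℝ} (h0 : 0 ≤ s) (h1 : s ≤ 1) (hM0 : 0 < M0) (hM1 : 0 < M1)
    (b0 : ∫⁻ x, ‖wN6 Z P N η η' c x‖ₑ * Y x ∂(mN6 N) ≤ ENNReal.ofReal M0)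
    (b1 : ∫⁻ x, ‖wN6 (expN Z D 1) P N η η' c x‖ₑ * Y x ∂(mN6 N) ≤ ENNReal.ofReal M1) :
    ∫⁻ x, ‖wN6 (expN Z D s) P N η η' c x‖ₑ * Y x ∂(mN6 N) ≤
      ENNReal.ofReal (M0 ^ (1 - s) * M1 ^ s) := by
  have e1 : ∀ s : ℂ, ∀ x, ‖wN6 (expN Z D s) P N η η' c x‖ₑ * Y x =
      ‖wN6 Z P N η η' c x * Complex.exp (s * evN6 (stN6 D P η) x)‖ₑ * Y x := fun s x => by
    rw [wN_expN6]
  simp only [e1] at b1 ⊢
  simp only [one_mul] at b1
  exact lint_geo h0 h1 hM0 hM1 h.mw hY b0 b1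

/-- the same for the functional with moduli `FAN6` -/
theorem FAN_geo6 (h : PathD6 Z D P N η η' B) {Ψ : ℕ → Ins} (hΨ : ∀ n ≤ N, MIn (Ψ n))
    {s M0 M1 : ℝ} (h0 : 0 ≤ s) (h1 : s ≤ 1) (hM0 : 0 < M0) (hM1 : 0 < M1)
    (b0 : FAN6 Z P N η η' c Ψ ≤ ENNReal.ofReal M0)
    (b1 : FAN6 (expN Z D 1) P N η η' c Ψ ≤ ENNReal.ofReal M1) :
    FAN6 (expN Z D s) P N η η' c Ψ ≤ ENNReal.ofReal (M0 ^ (1 - s) * M1 ^ s) := by
  rw [FAN6_eq h.mc0 hΨ] at b0
  rw [FAN6_eq (h.mc 1) hΨ] at b1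
  rw [FAN6_eq (h.mc s) hΨ]
  exact UN_geo6 h (evN_meas6 hΨ).enorm h0 h1 hM0 hM1 b0 b1

end mass

/-! ### the normalised functional -/

section nrm

variable {Z D : ℕ → Bool → Option O3 → ℂ → ℂ} {P : ℕ → Par6} {N : ℕ} {η η' : ℕ → Crs}
  {c : ℕ → ℂ} {B : ℝ}

variable (Z D P N η η' c) in
/-- the normalised functional on the path -/
def nF6 (ν0 κ0 : ℂ) (s : ℝ) : ℂ :=
  ν0 * Complex.exp (-(s * κ0)) * F (mN6 N) (wN6 (expN Z D s) P N η η' c) (fun _ => 1)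

variable (Z D P N η η' c) in
/-- its derivative -/
def nF'6 (ν0 κ0 : ℂ) (s : ℝ) : ℂ :=
  ν0 * Complex.exp (-(s * κ0)) * (F (mN6 N) (wN6 (expN Z D s) P N η η' c) (evN6 (stN6 D P η)) -
    κ0 * F (mN6 N) (wN6 (expN Z D s) P N η η' c) (fun _ => 1))

theorem hasDerivAt_nF6 (h : PathD6 Z D P N η η' B) (hI : WI (mN6 N) (wN6 Z P N η η' c) (fun _ => 1))
    (ν0 κ0 : ℂ) (s : ℝ) :
    HasDerivAt (nF6 Z D P N η η' c ν0 κ0) (nF'6 Z D P N η η' c ν0 κ0 s) s := by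
  have h1 := (h.hasDerivAt measurable_const hI (s : ℂ)).comp_ofReal
  simp only [mul_one] at h1
  have h2 : HasDerivAt (fun s : ℝ => ν0 * Complex.exp (-(s * κ0)))
      (ν0 * (Complex.exp (-(s * κ0)) * -κ0)) s := by
    have h3 : HasDerivAt (fun s : ℂ => -(s * κ0)) (-(1 * κ0)) (s : ℂ) :=
      ((hasDerivAt_id (s : ℂ)).mul_const κ0).neg
    rw [one_mul] at h3
    exact (h3.cexp.const_mul ν0).comp_ofReal
  refine (h2.mul h1).congr_deriv ?_
  unfold nF'6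
  ring

/-- **error on the path**: `Y j` nonnegative insertions on the configuration space -/
theorem nF_err6 (h : PathD6 Z D P N η η' B) {ι : Type*} (J : Finset ι) {Y : ι → CfN6 N → ℝ≥0∞}
    (hY : ∀ j ∈ J, Measurable (Y j)) {ν0 κ0 p q : ℂ} {s : ℝ} (h0 : 0 ≤ s) (h1 : s ≤ 1)
    {E : ι → ℝ} {μ0 μ1 : ℝ} (hμ0 : 0 < μ0) (hμ1 : 0 < μ1) (hE : ∀ j ∈ J, 0 < E j) (hν : ν0 ≠ 0)
    (b0 : ∀ j ∈ J, ENNReal.ofReal ‖ν0‖ * ∫⁻ x, ‖wN6 Z P N η η' c x‖ₑ * Y j x ∂(mN6 N) ≤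
      ENNReal.ofReal (E j * μ0))
    (b1 : ∀ j ∈ J, ENNReal.ofReal (‖ν0‖ * Real.exp (-κ0.re)) *
      ∫⁻ x, ‖wN6 (expN Z D 1) P N η η' c x‖ₑ * Y j x ∂(mN6 N) ≤ ENNReal.ofReal (E j * μ1))
    (hm : ENNReal.ofReal ‖F (mN6 N) (wN6 (expN Z D s) P N η η' c) (evN6 (stN6 D P η)) -
      (κ0 + s * q + p) * F (mN6 N) (wN6 (expN Z D s) P N η η' c) (fun _ => 1)‖ ≤
      ∑ j ∈ J, ∫⁻ x, ‖wN6 (expN Z D s) P N η η' c x‖ₑ * Y j x ∂(mN6 N)) :
    ‖nF'6 Z D P N η η' c ν0 κ0 s - (s * q + p) * nF6 Z D P N η η' c ν0 κ0 s‖ ≤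
      (∑ j ∈ J, E j) * (μ0 ^ (1 - s) * μ1 ^ s) := by
  have hn : 0 < ‖ν0‖ := norm_pos_iff.2 hν
  have he := Real.exp_pos (-κ0.re)
  have hb : ∀ j ∈ J, ∫⁻ x, ‖wN6 (expN Z D s) P N η η' c x‖ₑ * Y j x ∂(mN6 N) ≤
      ENNReal.ofReal ((‖ν0‖ * Real.exp (-(s * κ0.re)))⁻¹ * (E j * (μ0 ^ (1 - s) * μ1 ^ s))) := by
    intro j hj
    have hEj := hE j hj
    have c0 : ∫⁻ x, ‖wN6 Z P N η η' c x‖ₑ * Y j x ∂(mN6 N) ≤
        ENNReal.ofReal (‖ν0‖⁻¹ * (E j * μ0)) := by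
      rw [ENNReal.ofReal_mul (inv_nonneg.2 hn.le), ENNReal.ofReal_inv_of_pos hn]
      calc ∫⁻ x, ‖wN6 Z P N η η' c x‖ₑ * Y j x ∂(mN6 N)
          = (ENNReal.ofReal ‖ν0‖)⁻¹ * (ENNReal.ofReal ‖ν0‖ *
            ∫⁻ x, ‖wN6 Z P N η η' c x‖ₑ * Y j x ∂(mN6 N)) := by
            rw [← mul_assoc, ENNReal.inv_mul_cancel (ENNReal.ofReal_pos.2 hn).ne'
              ENNReal.ofReal_ne_top, one_mul]
        _ ≤ _ := mul_le_mul' le_rfl (b0 j hj)
    have hn1 : 0 < ‖ν0‖ * Real.exp (-κ0.re) := by positivity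
    have c1 : ∫⁻ x, ‖wN6 (expN Z D 1) P N η η' c x‖ₑ * Y j x ∂(mN6 N) ≤
        ENNReal.ofReal ((‖ν0‖ * Real.exp (-κ0.re))⁻¹ * (E j * μ1)) := by
      rw [ENNReal.ofReal_mul (inv_nonneg.2 hn1.le), ENNReal.ofReal_inv_of_pos hn1]
      calc ∫⁻ x, ‖wN6 (expN Z D 1) P N η η' c x‖ₑ * Y j x ∂(mN6 N)
          = (ENNReal.ofReal (‖ν0‖ * Real.exp (-κ0.re)))⁻¹ *
            (ENNReal.ofReal (‖ν0‖ * Real.exp (-κ0.re)) *
            ∫⁻ x, ‖wN6 (expN Z D 1) P N η η' c x‖ₑ * Y j x ∂(mN6 N)) := by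
            rw [← mul_assoc, ENNReal.inv_mul_cancel (ENNReal.ofReal_pos.2 hn1).ne'
              ENNReal.ofReal_ne_top, one_mul]
        _ ≤ _ := mul_le_mul' le_rfl (b1 j hj)
    have := UN_geo6 h (hY j hj) h0 h1 (by positivity) (by positivity) c0 c1
    refine this.trans (le_of_eq ?_)
    congr 1
    have e1 : ∀ x y t : ℝ, 0 < x → 0 < y → (x * y) ^ t = x ^ t * y ^ t := fun x y t hx hy =>
      Real.mul_rpow hx.le hy.le
    rw [e1 _ _ _ (inv_pos.2 hn) (by positivity), e1 _ _ _ hEj hμ0,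
      e1 _ _ _ (inv_pos.2 hn1) (by positivity), e1 _ _ _ hEj hμ1, Real.inv_rpow hn.le,
      Real.inv_rpow hn1.le, e1 _ _ _ hn he]
    have e2 : Real.exp (-κ0.re) ^ s = Real.exp (-(s * κ0.re)) := by
      rw [← Real.exp_mul]
      congr 1
      ring
    have e3 : ‖ν0‖ ^ (1 - s) * ‖ν0‖ ^ s = ‖ν0‖ := by
      rw [← Real.rpow_add hn]
      simp
    have e4 : E j ^ (1 - s) * E j ^ s = E j := by
      rw [← Real.rpow_add hEj]
      simp
    rw [e2, mul_inv, mul_inv]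
    calc (‖ν0‖ ^ (1 - s))⁻¹ * (E j ^ (1 - s) * μ0 ^ (1 - s)) *
          ((‖ν0‖ ^ s)⁻¹ * (Real.exp (-(s * κ0.re)))⁻¹ * (E j ^ s * μ1 ^ s))
        = (‖ν0‖ ^ (1 - s) * ‖ν0‖ ^ s)⁻¹ * (Real.exp (-(s * κ0.re)))⁻¹ *
          ((E j ^ (1 - s) * E j ^ s) * (μ0 ^ (1 - s) * μ1 ^ s)) := by
          rw [mul_inv]
          ring
      _ = _ := by rw [e3, e4]
  have hx : 0 ≤ μ0 ^ (1 - s) * μ1 ^ s :=
    mul_nonneg (Real.rpow_nonneg hμ0.le _) (Real.rpow_nonneg hμ1.le _)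
  have hpos : 0 < ‖ν0‖ * Real.exp (-(s * κ0.re)) := by positivity
  have hm2 : ‖F (mN6 N) (wN6 (expN Z D s) P N η η' c) (evN6 (stN6 D P η)) -
      (κ0 + s * q + p) * F (mN6 N) (wN6 (expN Z D s) P N η η' c) (fun _ => 1)‖ ≤
      (‖ν0‖ * Real.exp (-(s * κ0.re)))⁻¹ * ((∑ j ∈ J, E j) * (μ0 ^ (1 - s) * μ1 ^ s)) := by
    have h2 := hm.trans (Finset.sum_le_sum hb)
    rw [← ENNReal.ofReal_sum_of_nonneg (fun j hj => by
      have := hE j hj
      positivity)] at h2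
    have h3 : ∑ j ∈ J, (‖ν0‖ * Real.exp (-(s * κ0.re)))⁻¹ * (E j * (μ0 ^ (1 - s) * μ1 ^ s)) =
        (‖ν0‖ * Real.exp (-(s * κ0.re)))⁻¹ * ((∑ j ∈ J, E j) * (μ0 ^ (1 - s) * μ1 ^ s)) := by
      rw [← Finset.mul_sum, ← Finset.sum_mul]
    rw [h3] at h2
    refine (ENNReal.ofReal_le_ofReal_iff ?_).1 h2
    have : 0 ≤ ∑ j ∈ J, E j := Finset.sum_nonneg fun j hj => (hE j hj).le
    positivity
  have e5 : nF'6 Z D P N η η' c ν0 κ0 s - (s * q + p) * nF6 Z D P N η η' c ν0 κ0 s =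
      ν0 * Complex.exp (-(s * κ0)) *
        (F (mN6 N) (wN6 (expN Z D s) P N η η' c) (evN6 (stN6 D P η)) -
      (κ0 + s * q + p) * F (mN6 N) (wN6 (expN Z D s) P N η η' c) (fun _ => 1)) := by
    unfold nF'6 nF6
    ring
  have e6 : ‖Complex.exp (-(s * κ0))‖ = Real.exp (-(s * κ0.re)) := by
    rw [Complex.norm_exp]
    simp
  rw [e5, norm_mul, norm_mul, e6]
  calc _ ≤ ‖ν0‖ * Real.exp (-(s * κ0.re)) * ((‖ν0‖ * Real.exp (-(s * κ0.re)))⁻¹ *
        ((∑ j ∈ J, E j) * (μ0 ^ (1 - s) * μ1 ^ s))) := mul_le_mul_of_nonneg_left hm2 hpos.le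
    _ = _ := by rw [← mul_assoc, mul_inv_cancel₀ hpos.ne', one_mul]

end nrm

end PBF.PLX

end
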