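import Pool.Agent.PLX.PB.LevG
import Pool.Agent.PHK.WPlusS6
import Pool.Agent.PHK.StatN6
import Pool.Agent.PHK.TRsB6
import Pool.Agent.PHK.ObStep6
import Pool.Agent.PHK.RepJ6

/-!
# The particle-hole form (P): the data of level two, generic part

(P) twin of `PLX/PB/LevG` (`M2_rescale`, `BC_sg`, `BC_eM` are the landed ones).

* `KS6`; `Bas6`: the measurability part of the fibres;
* **`levD_of6`**: `PBEM.LevD` from the moments `PBU.PLX.MBd6` and the second Ward identities.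
-/

set_option autoImplicit false
set_option linter.unusedSectionVars false

noncomputable section

open Complex MeasureTheory Filter Topology Set
open scoped ENNReal
open PLX (Fil)

namespace PBLX.PLX

open NUO NUP1S NUP1S.Ab NUP1S.AbC NUGC NUGC.PLX PBF PBF.PLX PBFunc PBFunc.PLX PBRep PBRep.PLX PBWP PBWP.PLX
open NUP1 hiding Kd
open PBE (TC mass WPl WMi)
open PHK

section data

variable [Fil] {N : ℕ} {Z : ℕ → Bool → Option O3 → ℂ → ℂ} {P0 : Par6} {η η' : ℕ → Crs}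
  {c : ℕ → ℂ} {ρ : ℂ → ℂ} {Y₁ Y₂ b0 b' K q dp : ℝ}

/-- the constant of the step -/
def KS6 : ℝ := (3 + PBOR.PLX.CS6) ^ 2

theorem one_le_KS6 : 1 ≤ KS6 := by
  have := PBOR.PLX.CS6_pos
  unfold KS6
  nlinarith

/-- the fibres, measurability part -/
structure Bas6 (N : ℕ) (Z : ℕ → Bool → Option O3 → ℂ → ℂ) (P0 : Par6) (η η' : ℕ → Crs)
    (b0 b' : ℝ) : Prop where
  mc : ∀ n ≤ N, MCr (η n) (η' n)
  hs : ∀ n ≤ N, InS 0 b0 (η n)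
  hb : b0 < b'
  hbl : b' ≤ NUP1.l
  mZ : ∀ n ≤ N, MC6 (Z n) P0 (η n) (η' n)
  gP : GoodP6 P0

variable (hB : Bas6 N Z P0 η η' b0 b')

include hB

theorem Bas6.w : AEStronglyMeasurable (wN6 Z (fun _ => P0) N η η' c) (mN6 N) :=
  (wN_meas6 hB.mZ).aestronglyMeasurable

theorem Bas6.vy (ρ : ℂ → ℂ) {g : Bool → ℂ → ℂ}
    (hg : ∀ s (z : ℂ), |z.im| < b' → DifferentiableAt ℂ (g s) z) :
    AEStronglyMeasurable (evN6 fun n => Vy 0 (η n) ρ g) (mN6 N) :=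
  (evN_meas6 fun n hn => MIn.vy (hB.mc n hn) (hB.hs n hn) hB.hb ρ hg).aestronglyMeasurable

theorem Bas6.msV {g : ℂ → ℂ} (hg : ∀ z : ℂ, |z.im| < b' → DifferentiableAt ℂ g z) :
    AEStronglyMeasurable (Vp6 (fun u => ρ u) η g : CfN6 N → ℂ) (mN6 N) := by
  rw [Vp_evN6]
  exact hB.vy ρ fun _ => hg

theorem Bas6.msVm {g : ℂ → ℂ} (hg : ∀ z : ℂ, |z.im| < b' → DifferentiableAt ℂ g z) :
    AEStronglyMeasurable (Vm6 (fun u => ρ u) η g : CfN6 N → ℂ) (mN6 N) := by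
  rw [Vm_evN6]
  exact hB.vy _ fun s z hz => (hg z hz).const_mul _

theorem Bas6.dsg (z : ℂ) (hz : |z.im| < b') : DifferentiableAt ℂ PB.NX.sgC z :=
  PB.NX.differentiableAt_sgC (z := z) (by
    have : Real.pi / 8 = NUP1.l := rfl
    rw [this]; exact (hz.trans_le hB.hbl).le)

theorem Bas6.msO : AEStronglyMeasurable (VO6 sgD P0 : CfN6 N → ℂ) (mN6 N) := by
  have hD : ∀ s k, Measurable (sgD s k) := by
    intro s k
    have h1 : Measurable fun z : ℂ => PBOb.pf k z := measurable_id.add_const _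
    exact (PBOb.measurable_sgU.comp h1).const_mul _
  exact (evN_meas6 fun n hn => MIn_stO6 P0 hD).aestronglyMeasurable

theorem Bas6.msS : AEStronglyMeasurable (SN6 (fun u => ρ u) P0 η : CfN6 N → ℂ) (mN6 N) := by
  have e : (SN6 (fun u => ρ u) P0 η : CfN6 N → ℂ) =
      fun ω => Vm6 (fun u => ρ u) η PB.NX.sgC ω + VO6 sgD P0 ω := funext fun ω =>
    SN6_Vm _ P0 η ω
  rw [e]
  exact (hB.msVm hB.dsg).add hB.msO

variable (hM : PBU.PLX.MBd6 N Z (fun _ => P0) η η' c ρ Y₁ Y₂ K q dp)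

include hM

theorem Bas6.m2V {M : ℝ} (hM0 : 0 ≤ M) {g : ℂ → ℂ}
    (hg : ∀ z : ℂ, |z.im| < b' → DifferentiableAt ℂ g z) (hb : PBU.PLX.BC Y₁ Y₂ M g) :
    M2 (mN6 N) (wN6 Z (fun _ => P0) N η η' c) K (Vp6 (fun u => ρ u) η g) M := by
  rw [Vp_evN6]
  exact M2_vy6 hM hB.mc hB.hs hB.hb hM0 (fun _ => hb) fun _ => hg

theorem Bas6.m2Vm {M : ℝ} (hM0 : 0 ≤ M) {g : ℂ → ℂ}
    (hg : ∀ z : ℂ, |z.im| < b' → DifferentiableAt ℂ g z) (hb : PBU.PLX.BC Y₁ Y₂ M g) :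
    M2 (mN6 N) (wN6 Z (fun _ => P0) N η η' c) K (Vm6 (fun u => ρ u) η g) M := by
  rw [Vm_evN6]
  exact M2_vy6 hM hB.mc hB.hs hB.hb hM0 (fun s => BC_eM hb s) fun s z hz =>
    (hg z hz).const_mul _

theorem Bas6.m2O : M2 (mN6 N) (wN6 Z (fun _ => P0) N η η' c) K (VO6 sgD P0) PBOR.PLX.CS6 := by
  have h1 := hM.one.smul (PBOR.PLX.CS6 : ℂ)
  have hc := PBOR.PLX.CS6_pos
  rw [Complex.norm_real, Real.norm_of_nonneg hc.le, mul_one] at h1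
  refine M2.le' h1 fun ω => ?_
  simp only [evN6, ev6, PBU.PLX.cnI]
  rw [norm_mul, norm_cn0, Complex.norm_real, Real.norm_of_nonneg hc.le]
  refine (PBOR.PLX.stO_sg_le6 hB.gP ω.2.2.1).trans (mul_le_mul_of_nonneg_left ?_ hc.le)
  linarith

theorem Bas6.m2S (hK : 0 ≤ K) (h1 : -NUP1.l ≤ Y₁) (h2 : Y₂ ≤ NUP1.l) :
    M2 (mN6 N) (wN6 Z (fun _ => P0) N η η' c) (KS6 * K) (SN6 (fun u => ρ u) P0 η) 1 := by
  have e : (SN6 (fun u => ρ u) P0 η : CfN6 N → ℂ) =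
      fun ω => Vm6 (fun u => ρ u) η PB.NX.sgC ω + VO6 sgD P0 ω := funext fun ω =>
    SN6_Vm _ P0 η ω
  rw [e]
  refine M2_rescale ?_
  rw [mul_one]
  exact M2.add0 (by norm_num) PBOR.PLX.CS6_pos.le hK hB.w (hB.msVm hB.dsg)
    (hB.m2Vm hM (by norm_num) hB.dsg (BC_sg h1 h2)) (hB.m2O hM)

/-- **the data of level two** -/
theorem levD_of6 {y₁ y₂ a th dp' : ℝ} {K' : ℝ} {mf : ℝ → ℂ} {s' : ℝ → ℂ} {T : Type*}
    [MeasurableSpace T] {σ : Measure T} {ap am bc : T → ℂ → ℂ} (ha : 0 < a) (h1 : y₁ < 0)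
    (h2 : 0 < y₂) (hY1 : y₁ ≤ Y₁) (hY2 : Y₂ ≤ y₂) (hY1' : -NUP1.l ≤ Y₁) (hY2' : Y₂ ≤ NUP1.l)
    (hb1 : y₁ ≤ -b') (hb2 : b' ≤ y₂) (hK : 0 ≤ K) (hK' : KS6 * K ≤ K') (hth : 0 ≤ th)
    (hdp : 0 ≤ dp') (hρ : AEStronglyMeasurable (fun u : ℝ => ρ u) volume)
    {Bρ : ℝ} (hρB : ∀ u : ℝ, ‖ρ u‖ ≤ Bρ)
    (hwp : ∀ M g, TC y₁ y₂ a M g → mass g = 0 →
      ∃ (D : (ℂ → ℂ) → CfN6 N → ℂ) (Q P : CfN6 N → ℂ),
      WPl y₁ y₂ a (mN6 N) (wN6 Z (fun _ => P0) N η η' c) K' th dp' M (Vp6 (fun u => ρ u) η) g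
        (Pool.Agent.PB.mV mf g) (Pool.Agent.PB.CV g) D Q P)
    (hwm : ∀ M g, TC y₁ y₂ a M g → ∃ (D : (ℂ → ℂ) → CfN6 N → ℂ) (Ds Q P : CfN6 N → ℂ),
      WMi y₁ y₂ a (mN6 N) (wN6 Z (fun _ => P0) N η η' c) K' th dp' M (Vm6 (fun u => ρ u) η)
        (SN6 (fun u => ρ u) P0 η) (Vm6 (fun u => ρ u) η g)
        (Pool.Agent.PB.CmV g) (Pool.Agent.PB.CsV s' g) D Ds Q P)
    (hws : ∃ (C : (ℂ → ℂ) → ℂ) (D : (ℂ → ℂ) → CfN6 N → ℂ) (Ds Q P : CfN6 N → ℂ),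
      WMi y₁ y₂ a (mN6 N) (wN6 Z (fun _ => P0) N η η' c) K' th dp' 1 (Vm6 (fun u => ρ u) η)
        (SN6 (fun u => ρ u) P0 η) (SN6 (fun u => ρ u) P0 η) C
        (Pool.Agent.PB.CssV s') D Ds Q P)
    (hap : Measurable fun p : T × ℂ => ap p.1 p.2) (ham : Measurable fun p : T × ℂ => am p.1 p.2)
    (hbc : Measurable fun p : T × ℂ => bc p.1 p.2) :
    PBEM.LevD y₁ y₂ a (mN6 N) (wN6 Z (fun _ => P0) N η η' c) (Vp6 (fun u => ρ u) η)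
      (Vm6 (fun u => ρ u) η) (SN6 (fun u => ρ u) P0 η)
      K' th dp' mf s' σ ap am bc := by
  have hKS := one_le_KS6
  have hKK : K ≤ K' := by nlinarith
  have hBC : ∀ M h, TC y₁ y₂ a M h → PBU.PLX.BC Y₁ Y₂ M h := fun M h hh =>
    BC_of hh ha.le (hh.nonneg h1 h2) hY1 hY2
  have hd : ∀ M h, TC y₁ y₂ a M h → ∀ z : ℂ, |z.im| < b' → DifferentiableAt ℂ h z :=
    fun M h hh z hz => TC.dAt' hh hb1 hb2 hz
  exact
  { hw := hB.w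
    K0 := hK.trans hKK
    th0 := hth
    dp0 := hdp
    one := (M2_one6 hM).mono zero_le_one le_rfl hKK hK
    lin := Vp6_lin η ha h1 h2 hρ hρB
    msV := fun M h hh => hB.msV (hd M h hh)
    v2 := fun M h hh => (hB.m2V hM (hh.nonneg h1 h2) (hd M h hh) (hBC M h hh)).mono
      (hh.nonneg h1 h2) le_rfl hKK hK
    msVm := fun M h hh => hB.msVm (hd M h hh)
    v2m := fun M h hh => (hB.m2Vm hM (hh.nonneg h1 h2) (hd M h hh) (hBC M h hh)).mono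
      (hh.nonneg h1 h2) le_rfl hKK hK
    msS := hB.msS
    s2 := (hB.m2S hM hK hY1' hY2').mono zero_le_one le_rfl hK' (by positivity)
    wp := hwp
    wm := hwm
    ws := hws
    jA := PBRep.PLX.jVp6 hap hρ hB.mc
    jB := PBRep.PLX.jVp6 hbc hρ hB.mc
    jA' := PBRep.PLX.jVm6 ham hρ hB.mc
    jB' := PBRep.PLX.jVm6 hbc hρ hB.mc }

end data

end PBLX.PLX

end
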