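import Pool.Agent.PLX.PB.Mom4F
import Pool.Agent.PHK.UBN6
import Pool.Agent.PHK.QMomC6

/-!
# The particle-hole form (P): products of four linear statistics

(P) twin of `PLX/PB/Mom4F`; `exists_strip`, `Vy_congr`, `ctS`, `MIn_vy`, `MIn.prod` are the landed ones.

* `UB6.momq`: products of `q ≤ p` linear statistics on the configuration space;
* **`UB6.mom4`**: `Mom4` for every family with the bounds `UB6` (`4 ≤ p`).
-/

set_option autoImplicit false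
set_option linter.unusedSectionVars false

noncomputable section

open Complex MeasureTheory Finset
open scoped ENNReal
open PLX (Fil)

namespace PBU.PLX

open NUO NUP1 NUP1S NUP1S.Ab NUP1S.AbC NUGC NUGC.PLX PBF PBF.PLX PBP PBP.PLX PBFunc PBFunc.PLX
open PBQM.PLX (Mom4 BB)
open PHK

variable [NUSea.Sea]

variable [Fil]

variable {ι : Type} {F : Fam ι} {ep e1 J : ℝ} {p : ℕ} {K ε : ℝ}

/-- **products of `q ≤ p` linear statistics**, no measurability of the test functions -/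
theorem UB6.momq (h : UB6 F ep e1 J p K ε) {q : ℕ} (hq : q ≤ p) (hK : 1 ≤ K) (he : 0 < e1)
    (he1 : e1 ≤ 1 / 100) (hJ : 0 ≤ J) (C0 y₁ y₂ : ℝ) (h1 : y₁ < 0) (h2 : 0 < y₂) :
    ∃ m0 : ℕ, ∀ m ≥ m0, ∀ i : ι, F.ok m i →
    MC6 (F.Z ep m i) par6 (cr e1 J m) (cr' e1 J m) →
    ∀ ρ : ℂ → ℂ, (Measurable fun u : ℝ => ρ u) → DN C0 m (fun t : ℝ => ρ t) →
    ∀ (M : Fin q → ℝ) (g : Fin q → Bool → ℂ → ℂ), (∀ j, 0 ≤ M j) →
      (∀ j s, BC y₁ y₂ (M j) (g j s)) →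
      ∫⁻ ω, ‖wF6 F ep e1 J m i ω‖ₑ * ∏ j, ‖VN6 (F.top m) (fun _ => cr e1 J m) ρ (g j) ω‖ₑ
        ∂(mN6 (F.top m)) ≤ ENNReal.ofReal ((∏ j, M j) * ((m : ℝ) ^ ε * F.bd m i)) := by
  obtain ⟨m1, hl1⟩ := h.l1 C0 y₁ y₂ h1 h2
  obtain ⟨m2, hs⟩ := exists_strip (J := J) he he1 hJ (r := min (-y₁ / 2) (y₂ / 2))
    (lt_min (by linarith) (by linarith))
  refine ⟨max m1 m2, fun m hm i hi hMC ρ hρm hρ M g hM hg => ?_⟩
  have k1 : m1 ≤ m := by omega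
  have k2 : m2 ≤ m := by omega
  have hη : ∀ r (O : Fin r → Xo) t, y₁ < cr e1 J m r O t ∧ cr e1 J m r O t < y₂ := by
    intro r O t
    have h3 := hs m k2 t
    have h4 := abs_le.1 h3
    have h5 := min_le_left (-y₁ / 2) (y₂ / 2)
    have h6 := min_le_right (-y₁ / 2) (y₂ / 2)
    constructor
    · show y₁ < etaC e1 J m m t
      linarith
    · show etaC e1 J m m t < y₂
      linarith
  have hmeas : ∀ j, MIn (Vy 0 (cr e1 J m) ρ (ctS y₁ y₂ (g j))) := fun j =>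
    MIn_vy (η' := cr' e1 J m) ⟨fun r => PBF.PLX.curZ_meas e1 J m m r, fun r => PBF.PLX.curZ_meas' e1 J m m r⟩
      hρm fun s => ctS_meas (hg j s)
  have e0 : ∀ ω : CfN6 (F.top m), ∏ j, ‖VN6 (F.top m) (fun _ => cr e1 J m) ρ (g j) ω‖ₑ =
      ‖evN6 (fun _ r O a b x => ∏ j, Vy 0 (cr e1 J m) ρ (ctS y₁ y₂ (g j)) r O a b x) ω‖ₑ := by
    intro ω
    have hV : ∀ j, VN6 (F.top m) (fun _ => cr e1 J m) ρ (g j) ω =
        Vy 0 (cr e1 J m) ρ (ctS y₁ y₂ (g j)) ω.2.1.1 ω.2.2.1 ω.2.1.2.1 ω.2.1.2.2 ω.2.2.2 :=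
      fun j => Vy_congr h1 h2 (fun s z hz => (ctS_eq (g j) s hz).symm) hη _ _ _ _ _
    simp only [hV]
    show _ = ‖∏ j, Vy 0 (cr e1 J m) ρ (ctS y₁ y₂ (g j)) ω.2.1.1 ω.2.2.1 ω.2.1.2.1 ω.2.1.2.2
      ω.2.2.2‖ₑ
    rw [← ofReal_norm, norm_prod, ENNReal.ofReal_prod_of_nonneg fun j _ => norm_nonneg _]
    simp only [ofReal_norm]
  simp only [e0]
  have key : ∀ δ : ℝ, 0 < δ →
      ∫⁻ ω, ‖wF6 F ep e1 J m i ω‖ₑ *
        ‖evN6 (fun _ r O a b x => ∏ j, Vy 0 (cr e1 J m) ρ (ctS y₁ y₂ (g j)) r O a b x) ω‖ₑ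
        ∂(mN6 (F.top m)) ≤ ENNReal.ofReal ((∏ j, (M j + δ)) * ((m : ℝ) ^ ε * F.bd m i)) := by
    intro δ hδ
    have h3 := hl1 m k1 i hi hMC ρ hρ q hq (fun j => M j + δ)
      (fun j => add_pos_of_nonneg_of_pos (hM j) hδ)
      (fun _ _ j s => ctS y₁ y₂ (g j) s)
      (fun _ _ j s => (ctS_BC (hg j s)).mono (by linarith)) 1 zero_le_one (fun _ _ => 1)
      (OW.one hK m) (fun _ r O a b x => ∏ j, Vy 0 (cr e1 J m) ρ (ctS y₁ y₂ (g j)) r O a b x)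
      (fun _ _ => MIn.prod hmeas) (fun n _ r O a b x => by
        rw [one_mul, norm_prod])
    unfold L1 at h3
    rw [one_mul] at h3
    refine le_trans (le_of_eq ?_) h3
    refine lintegral_congr fun ω => ?_
    rw [ENNReal.ofReal_mul (norm_nonneg _), ofReal_norm, ofReal_norm]
  have ht : Filter.Tendsto (fun δ : ℝ => ENNReal.ofReal ((∏ j, (M j + δ)) *
      ((m : ℝ) ^ ε * F.bd m i))) (nhdsWithin 0 (Set.Ioi 0))
      (nhds (ENNReal.ofReal ((∏ j, (M j + 0)) * ((m : ℝ) ^ ε * F.bd m i)))) := by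
    refine ENNReal.tendsto_ofReal (Filter.Tendsto.mono_left ?_ nhdsWithin_le_nhds)
    exact Continuous.tendsto (by fun_prop) 0
  simp only [add_zero] at ht
  exact ge_of_tendsto ht (Filter.eventually_of_mem self_mem_nhdsWithin fun δ hδ => key δ hδ)

/-- **`Mom4` of the linear statistics** -/
theorem UB6.mom4 (h : UB6 F ep e1 J p K ε) (hp : 4 ≤ p) (hK : 1 ≤ K) (he : 0 < e1)
    (he1 : e1 ≤ 1 / 100) (hJ : 0 ≤ J) (C0 y₁ y₂ : ℝ) (h1 : y₁ < 0) (h2 : 0 < y₂) :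
    ∃ m0 : ℕ, ∀ m ≥ m0, ∀ i : ι, F.ok m i →
    MC6 (F.Z ep m i) par6 (cr e1 J m) (cr' e1 J m) →
    ∀ ρ : ℂ → ℂ, (Measurable fun u : ℝ => ρ u) → DN C0 m (fun t : ℝ => ρ t) →
      Mom4 (mN6 (F.top m)) (wF6 F ep e1 J m i) (VN6 (F.top m) (fun _ => cr e1 J m) ρ) y₁ y₂
        ((m : ℝ) ^ ε * F.bd m i) := by
  obtain ⟨m0, h0⟩ := h.momq hp hK he he1 hJ C0 y₁ y₂ h1 h2
  exact ⟨m0, fun m hm i hi hMC ρ hρm hρ M g hM hg =>
    h0 m hm i hi hMC ρ hρm hρ M g hM fun j s => ⟨(hg j s).1, (hg j s).2⟩⟩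

end PBU.PLX

end
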