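import Pool.Agent.PHK.LevH06
import Pool.Agent.PHK.FibL6
import Pool.Agent.PHK.Mom4F6
import Pool.Agent.PHK.UXT6

/-!
# (P): the moments of the family, from the bounds of the dislocated function

* `mc_famL6`: measurability of the fibres of `famL6`;
* **`MomS6.of`**: the class `MomS6` from `UX6 famL6`; `MomS6.of_stab`: from the stability certificate.
-/

set_option autoImplicit false
set_option linter.unusedSectionVars false

noncomputable section

open Complex MeasureTheory Filter Topology Set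
open scoped ENNReal
open PLX (Fil)

namespace PBLX.PLX

open NUO NUP1S NUP1S.Ab NUP1S.AbC NUGC NUGC.PLX PBF PBF.PLX PBFunc PBFunc.PLX PBU PBU.PLX
open NUP1 hiding Kd
open PHK

attribute [local instance] NUSea.seaP

variable [Fil]

/-- measurability of the fibres of the family -/
theorem mc_famL6 (ep e1 J : ℝ) (j : ℕ) (s t : ℝ) :
    MC6 (famL6.Z ep (j + 1) (I * s, I * t)) par6 (cr e1 J (j + 1)) (cr' e1 J (j + 1)) :=
  PBFX.PLX.mc6_L e1 J (j + 1) (ccS6 (j + 1)) (g0 := g0L (j + 1) j (I * s))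
    (fun a => meas_g0L _ _ (by
      have hl := NUP1.Bd.l_pos
      have hre : (I * (s : ℂ)).re = 0 := by simp
      rw [hre, abs_zero]
      positivity) a) j _ (I * s) (I * t) par6

theorem bd_famL6 (j : ℕ) {s t : ℝ} (ht : t ∈ Icc (0 : ℝ) 1) :
    famL6.bd (j + 1) (I * (s : ℂ), I * (t : ℂ)) ≤ Real.exp 2 := by
  show Real.exp (2 * |(I * (t : ℂ)).im|) ≤ _
  simp only [mul_im, I_re, ofReal_re, I_im, ofReal_im]
  rw [zero_mul, one_mul, zero_add, abs_of_nonneg ht.1, Real.exp_le_exp]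
  linarith [ht.2]

/-- **the moments of the family** -/
theorem MomS6.of (hU : UX6 famL6) : MomS6 where
  mbd := by
    intro q ε hq0 hq hε
    obtain ⟨a0, ha0, H⟩ := hU 2 6 ε hε
    obtain ⟨C0, -, hC0⟩ := dn_rows
    refine ⟨a0, ha0, fun ep e1 J hp y₁ y₂ h1 h2 => ?_⟩
    have hUB : UB6 famL6 ep e1 J 2 6 ε := H ep e1 J hp.ep0 hp.e0 hp.J0 hp.sm
    obtain ⟨m0, hm0⟩ := hUB.mbd le_rfl le_rfl hq0 hq C0 y₁ y₂ h1 h2
    filter_upwards [eventually_ge_atTop m0] with j hj s hs t ht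
    have key := hm0 (j + 1) (by omega) (I * s, I * t) (ok_famL6 j hs ht)
      (mc_famL6 ep e1 J j s t) (rhS j s) (hC0 j s)
    have hb := bd_famL6 j (s := s) ht
    have hb0 : 0 ≤ famL6.bd (j + 1) (I * (s : ℂ), I * (t : ℂ)) := (Real.exp_pos _).le
    have hj1 : (0 : ℝ) < ((j + 1 : ℕ) : ℝ) := by positivity
    have ec : ((j + 1 : ℕ) : ℝ) = (j : ℝ) + 1 := by push_cast; rfl
    refine MBd6.mono key (by positivity) ?_ ?_
    · unfold Kj
      rw [← ec]
      gcongr
    · unfold dj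
      rw [← ec]
      gcongr
  mom4 := by
    intro ε hε
    obtain ⟨a0, ha0, H⟩ := hU 4 1 ε hε
    obtain ⟨C0, -, hC0⟩ := dn_rows
    refine ⟨a0, ha0, fun ep e1 J hp y₁ y₂ h1 h2 => ?_⟩
    obtain ⟨m0, hm0⟩ := (H ep e1 J hp.ep0 hp.e0 hp.J0 hp.sm).mom4 le_rfl le_rfl hp.e0 hp.e1' hp.J0
      C0 y₁ y₂ h1 h2
    filter_upwards [eventually_ge_atTop m0] with j hj s hs t ht
    have key := hm0 (j + 1) (by omega) (I * s, I * t) (ok_famL6 j hs ht)
      (mc_famL6 ep e1 J j s t) (rhS j s)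
      (rhS_meas j (abs_le.2 ⟨by linarith [hs.1], hs.2⟩)) (hC0 j s)
    have hb := bd_famL6 j (s := s) ht
    have ec : ((j + 1 : ℕ) : ℝ) = (j : ℝ) + 1 := by push_cast; rfl
    intro M g hM hg
    refine (key M g hM hg).trans (ENNReal.ofReal_le_ofReal
      (mul_le_mul_of_nonneg_left ?_ (Finset.prod_nonneg fun j _ => hM j)))
    unfold Kj
    rw [ec]
    have h5 : ((j : ℝ) + 1) ^ ε * famL6.bd (j + 1) (I * (s : ℂ), I * (t : ℂ)) ≤
        ((j : ℝ) + 1) ^ ε * Real.exp 2 := mul_le_mul_of_nonneg_left hb (by positivity)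
    have h6 : 0 ≤ ((j : ℝ) + 1) ^ ε * Real.exp 2 := by positivity
    linarith

/-- **the moments of the family, from the stability certificate** -/
theorem MomS6.of_stab (hS : StabE par6 fun _ O => enC6 par6 O) : MomS6 := MomS6.of (ux_famL6 hS)

end PBLX.PLX

end
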