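import Pool.Agent.PHK.LPoK6
import Pool.Agent.PHK.FibX6
import Pool.Agent.PLX.PB.LevI

/-!
# (P): instances at the family of the dislocated function, both channels

`hl_fam`, `h0T_fam`, `kp2_congr`, `hr_rowS` are the landed ones (kind free).

* `hl_fibN6`: the force on the curves of `FibN6`, in the form of `wplus6`, `wm_of6`;
* `LPo_line6`, `obF_line6`: the force of the objects on the line.
-/

set_option autoImplicit false
set_option linter.unusedSectionVars false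

noncomputable section

open Complex MeasureTheory Finset Filter Topology

open PLX (Fil)

namespace PBWP.PLX

open NUO NUP1 NUCR NUP1S NUP1S.Ab NUP1S.AbC NUGC NUGC.PLX PBFunc PBFunc.PLX PBF PBF.PLX
open PHK
open _root_.Pool.Agent.PLX (rwq)

variable [Fil]

/-- **the force on the curves**, in the form of `wplus6` and `wm_of6` -/
theorem hl_fibN6 {N : ℕ} {Z : ℕ → Bool → Option O3 → ℂ → ℂ} {P : ℕ → Par6} {η η' : ℕ → Crs}
    {δ b0 b1 : ℝ} {κ : ℕ → ℝ} {LP : ℕ → (r : ℕ) → (Fin r → Xo) → Bool → ℂ → ℂ} {β : ℝ}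
    {W : List ℂ} {j : ℕ} {s t : ℝ} {ρ : ℂ → ℂ}
    (h : FibN6 N Z P η η' δ 0 b0 b1 κ (fun _ u => PBLZ.PLX.LZX u β (PBEI.rowS j s) W (I * t)) LP ρ)
    (hρ : ρ = fun z => PBForce.rhoR (PBEI.rowS j s) (NUP1.l + I * z)) (n : ℕ) (hn : n ≤ N)
    (r : ℕ) (O : Fin r → Xo) (u : Bool) (y : ℝ) :
    I * PBLZ.PLX.LZX u β (PBEI.rowS j s) W (I * t) (NUP1.l + I * zy 0 (Fil.cv u (η n r O)) y) -
      PB.kp2 ρ u (zy 0 (Fil.cv u (η n r O)) y) =
      PBEI.h0T t (zy 0 (Fil.cv u (η n r O)) y) +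
        (fun u : Bool => PBLZ.PLX.cutI β (List.ofFn (rwq (PBEI.rowS j s) u) ++ W)) u
          (zy 0 (Fil.cv u (η n r O)) y) := by
  subst hρ
  refine hl_fam β W u j s t ?_
  have h1 := zy_strip (h.hs n hn) r O u y
  have h2 := h.b01
  have h3 := h.b1l
  have h4 := h.b1p
  linarith

/-- the closed form is the force, in the form of `wm_of6` -/
theorem LPo_line6 (P : Par6) (r : ℕ) (O : Fin r → Xo) (s : Bool) (t : ℝ) :
    LPo6 P r O s (NUP1.l + I * t) = kP6 P O s (NUP1.l + I * t) := LPo_eq6 P O s _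

/-- in the form of `wplus6` -/
theorem obF_line6 (r : ℕ) (O : Fin r → Xo) (s : Bool) :
    ∃ B : ℝ, ∀ t : ℝ, ‖obF (LPo6 par6) r O s t‖ ≤ B :=
  ⟨_, fun t => obF_leR6 (PBFX.PLX.dsC_par6 (ep := 1 / 100) (by norm_num) le_rfl) O s t⟩

end PBWP.PLX

end
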