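import Pool.Agent.PHK.WardCf6
import Pool.Agent.PLX.PB.WPc

/-!
# The second Ward identity, pieces of the remainder (six kinds)

Field `X s = β s / (b s (ρ + 1))`, `ρ` one fold, `g = rsp β`, `e = rsp (b X)`; force
`leg + cut + obF` (legs, cutoff, objects); `obF`, `Pp`, `Qp`, `FdW`, `mB`: the landed ones.
* **`ward_pc6`**: for every differentiable insertion
  `F[V g Ψ] = (∑ ∫ β leg) F[Ψ] + F[(Qp + Pp) Ψ] + F[D_X Ψ]`; `ward_pc_one6`, `ward_pc_vh6`;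
* `FdW.mP6`, `FdW.mQ6`: measurability.
-/

set_option autoImplicit false
set_option linter.unusedSectionVars false

noncomputable section

open Complex MeasureTheory Finset
open scoped ENNReal

open PLX (Fil)

namespace PHK

open NUO NUP1 NUCR NUP1S NUP1S.Ab NUP1S.AbC NUGC NUGC.PLX PBFunc PBFunc.PLX
open PBF.PLX (gK Ins Crs DIns Flds InsD FldD DX WS Wd LT Vy Qy Sy lamY XCy X1Cy InS MCr MIn dN RmY
  zy zy_strip zqy dSm DX_vy Sy_eq meas_zqy meas_fld meas_lamY meas_dvy)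
open PBWP.PLX (obF Pp Qp sum_rho pc_eq meas_obF mPp FdW mB)

variable [Fil]

/-! ### the identity of the functional -/

section ward

variable {N : ℕ} {Z : ℕ → Bool → Option O3 → ℂ → ℂ} {P : ℕ → Par6} {η η' : ℕ → Crs}
  {c : ℕ → ℂ} {δ b0 b1 : ℝ} {κ : ℕ → ℝ} {LZ : ℕ → Bool → ℂ → ℂ}
  {LP : ℕ → (r : ℕ) → (Fin r → Xo) → Bool → ℂ → ℂ} {ρ : ℂ → ℂ}
  {β X g e leg cut : Bool → ℂ → ℂ}

theorem _root_.PBWP.PLX.FdW.evN_eq6 (w : FdW N η b1 LZ LP ρ β X g e leg cut) (ω : CfN6 N) :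
    evN6 (fun n => Vy 0 (η n) ρ e) ω + evN6 (fun n => RmY 0 (η n) ρ X (PBF.PLX.LT (LZ n) (LP n))) ω =
      mB β leg + (evN6 (fun n => Qp (η n) ρ X e leg cut (LP n)) ω +
        evN6 (fun n => Pp (LP n) β) ω) :=
  w.eq (by have := ω.1.2; omega) _ _ _ _ _

theorem _root_.PBWP.PLX.FdW.mP6 (h : FibN6 N Z P η η' δ 0 b0 b1 κ LZ LP ρ)
    (w : FdW N η b1 LZ LP ρ β X g e leg cut) {n : ℕ} (hn : n ≤ N) : MIn (Pp (LP n) β) :=
  mPp (h.mP n hn) w.mβ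

theorem _root_.PBWP.PLX.FdW.mQ6 (h : FibN6 N Z P η η' δ 0 b0 b1 κ LZ LP ρ)
    (w : FdW N η b1 LZ LP ρ β X g e leg cut) {n : ℕ} (hn : n ≤ N) :
    MIn (Qp (η n) ρ X e leg cut (LP n)) := by
  have h1 := MIn.vy (h.mc n hn) (h.hs n hn) h.b01 ρ w.ed
  have h2 := h.mRm w.fX hn
  have h3 := w.mP6 h hn
  intro r a b
  have e1 : (fun p : (Fin r → Xo) × ((Fin a → ℝ) × (Fin b → ℝ)) =>
      Qp (η n) ρ X e leg cut (LP n) r p.1 a b p.2) = fun p =>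
      Vy 0 (η n) ρ e r p.1 a b p.2 + RmY 0 (η n) ρ X (PBF.PLX.LT (LZ n) (LP n)) r p.1 a b p.2 -
        mB β leg - Pp (LP n) β r p.1 a b p.2 := by
    funext p
    rw [w.eq hn]
    ring
  rw [e1]
  exact (((h1 r a b).add (h2 r a b)).sub measurable_const).sub (h3 r a b)

/-- **the second Ward identity in pieces** -/
theorem ward_pc6 (h : FibN6 N Z P η η' δ 0 b0 b1 κ LZ LP ρ)
    (w : FdW N η b1 LZ LP ρ β X g e leg cut) {Ψ : ℕ → Ins} {dΨ : ℕ → DIns}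
    (hΨ : ∀ n ≤ N, PBF.PLX.InsD (η' n) (Ψ n) (dΨ n)) (mΨ : ∀ n ≤ N, MIn (Ψ n))
    (mdΨ : ∀ n ≤ N, ∀ r a b (k : Fin a ⊕ Fin b), Measurable
      fun p : (Fin r → Xo) × ((Fin a → ℝ) × (Fin b → ℝ)) => dΨ n r p.1 a b k p.2)
    (j1 : WI (mN6 N) (wN6 Z P N η η' c) fun ω => evN6 (fun n => Vy 0 (η n) ρ g) ω * evN6 Ψ ω)
    (j2 : WI (mN6 N) (wN6 Z P N η η' c) fun ω => evN6 (fun n => Vy 0 (η n) ρ e) ω * evN6 Ψ ω)
    (j3 : WI (mN6 N) (wN6 Z P N η η' c) fun ω =>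
      (evN6 (fun n => Qp (η n) ρ X e leg cut (LP n)) ω + evN6 (fun n => Pp (LP n) β) ω) *
        evN6 Ψ ω)
    (j4 : WI (mN6 N) (wN6 Z P N η η' c) (evN6 Ψ))
    (j5 : WI (mN6 N) (wN6 Z P N η η' c) (evN6 fun n => DX (XCy 0 (η n) X) (dΨ n))) :
    F (mN6 N) (wN6 Z P N η η' c) (fun ω => evN6 (fun n => Vy 0 (η n) ρ g) ω * evN6 Ψ ω) =
      mB β leg * F (mN6 N) (wN6 Z P N η η' c) (evN6 Ψ) +
      F (mN6 N) (wN6 Z P N η η' c) (fun ω =>
        (evN6 (fun n => Qp (η n) ρ X e leg cut (LP n)) ω + evN6 (fun n => Pp (LP n) β) ω) *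
          evN6 Ψ ω) +
      F (mN6 N) (wN6 Z P N η η' c) (evN6 fun n => DX (XCy 0 (η n) X) (dΨ n)) := by
  set μ := mN6 N
  set ww := wN6 Z P N η η' c
  have e1 : (fun ω : CfN6 N => evN6 (fun n => Vy 0 (η n) ρ fun s z => g s z - e s z) ω *
      evN6 Ψ ω) = fun ω => evN6 (fun n => Vy 0 (η n) ρ g) ω * evN6 Ψ ω +
        -1 * (evN6 (fun n => Vy 0 (η n) ρ e) ω * evN6 Ψ ω) := by
    funext ω
    simp only [evN6, ev6]
    rw [w.vy_sub]
    ring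
  have e2 : (fun ω : CfN6 N => evN6 (fun n => RmY 0 (η n) ρ X (PBF.PLX.LT (LZ n) (LP n))) ω *
      evN6 Ψ ω) = fun ω => mB β leg * evN6 Ψ ω +
        ((evN6 (fun n => Qp (η n) ρ X e leg cut (LP n)) ω + evN6 (fun n => Pp (LP n) β) ω) *
          evN6 Ψ ω + -1 * (evN6 (fun n => Vy 0 (η n) ρ e) ω * evN6 Ψ ω)) := by
    funext ω
    have := w.evN_eq6 ω
    linear_combination (evN6 Ψ ω) * this
  have key := ward_N6 (c := c) h w.fX w.rs (fun s z hz => (w.gd s z hz).sub (w.ed s z hz)) hΨ mΨ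
    mdΨ (by rw [e1]; exact j1.add (j2.smul (-1)))
    (by rw [e2]; exact (j4.smul _).add (j3.add (j2.smul (-1)))) j5
  rw [e1, e2, F_add j1 (j2.smul (-1)), F_add (j4.smul _) (j3.add (j2.smul (-1))),
    F_add j3 (j2.smul (-1)), F_smul, F_smul] at key
  linear_combination key

/-- **insertion `1`** -/
theorem ward_pc_one6 (h : FibN6 N Z P η η' δ 0 b0 b1 κ LZ LP ρ)
    (w : FdW N η b1 LZ LP ρ β X g e leg cut)
    (j1 : WI (mN6 N) (wN6 Z P N η η' c) (evN6 fun n => Vy 0 (η n) ρ g))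
    (j2 : WI (mN6 N) (wN6 Z P N η η' c) (evN6 fun n => Vy 0 (η n) ρ e))
    (j3 : WI (mN6 N) (wN6 Z P N η η' c) fun ω =>
      evN6 (fun n => Qp (η n) ρ X e leg cut (LP n)) ω + evN6 (fun n => Pp (LP n) β) ω)
    (j4 : WI (mN6 N) (wN6 Z P N η η' c) fun _ => 1) :
    F (mN6 N) (wN6 Z P N η η' c) (evN6 fun n => Vy 0 (η n) ρ g) =
      mB β leg * F (mN6 N) (wN6 Z P N η η' c) (fun _ => 1) +
      F (mN6 N) (wN6 Z P N η η' c) (fun ω =>
        evN6 (fun n => Qp (η n) ρ X e leg cut (LP n)) ω + evN6 (fun n => Pp (LP n) β) ω) := by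
  have e1 : ∀ A : CfN6 N → ℂ, (fun ω => A ω * evN6 (fun _ _ _ _ _ _ => (1 : ℂ)) ω) = A := by
    intro A
    funext ω
    exact mul_one _
  have e0 : (evN6 (fun _ _ _ _ _ _ => (1 : ℂ)) : CfN6 N → ℂ) = fun _ => 1 := rfl
  have e2 : (evN6 fun n => DX (XCy 0 (η n) X) fun _ _ _ _ _ _ => (0 : ℂ)) =
      fun _ : CfN6 N => (0 : ℂ) := by
    funext ω
    simp only [evN6, ev6, PBF.PLX.DX, mul_zero, Finset.sum_const_zero]
  have key := ward_pc6 (c := c) h w (Ψ := fun _ _ _ _ _ _ => 1)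
    (dΨ := fun _ _ _ _ _ _ _ => 0) (fun n _ => PBF.PLX.InsD.const _ 1) (fun n _ => MIn.one)
    (fun n _ r a b _ => measurable_const) (by rw [e1]; exact j1) (by rw [e1]; exact j2)
    (by rw [e1]; exact j3) (by rw [e0]; exact j4)
    (by
      rw [e2]
      unfold WI
      simp only [mul_zero]
      exact integrable_zero _ _ _)
  rw [e1, e1, e0, e2] at key
  rw [key]
  unfold F
  simp

/-- **insertion `V f`** -/
theorem ward_pc_vh6 (h : FibN6 N Z P η η' δ 0 b0 b1 κ LZ LP ρ)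
    (w : FdW N η b1 LZ LP ρ β X g e leg cut) {f : Bool → ℂ → ℂ} (hf : PB.FldF b1 f)
    (j1 : WI (mN6 N) (wN6 Z P N η η' c)
      fun ω => evN6 (fun n => Vy 0 (η n) ρ g) ω * evN6 (fun n => Vy 0 (η n) ρ f) ω)
    (j2 : WI (mN6 N) (wN6 Z P N η η' c)
      fun ω => evN6 (fun n => Vy 0 (η n) ρ e) ω * evN6 (fun n => Vy 0 (η n) ρ f) ω)
    (j3 : WI (mN6 N) (wN6 Z P N η η' c) fun ω =>
      (evN6 (fun n => Qp (η n) ρ X e leg cut (LP n)) ω + evN6 (fun n => Pp (LP n) β) ω) *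
        evN6 (fun n => Vy 0 (η n) ρ f) ω)
    (j4 : WI (mN6 N) (wN6 Z P N η η' c) (evN6 fun n => Vy 0 (η n) ρ f))
    (j5 : WI (mN6 N) (wN6 Z P N η η' c)
      (evN6 fun n => Vy 0 (η n) ρ fun s z => X s z * deriv (f s) z))
    (j6 : WI (mN6 N) (wN6 Z P N η η' c) fun _ => 1) :
    F (mN6 N) (wN6 Z P N η η' c)
        (fun ω => evN6 (fun n => Vy 0 (η n) ρ g) ω * evN6 (fun n => Vy 0 (η n) ρ f) ω) =
      mB β leg * F (mN6 N) (wN6 Z P N η η' c) (evN6 fun n => Vy 0 (η n) ρ f) +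
      F (mN6 N) (wN6 Z P N η η' c) (fun ω =>
        (evN6 (fun n => Qp (η n) ρ X e leg cut (LP n)) ω + evN6 (fun n => Pp (LP n) β) ω) *
          evN6 (fun n => Vy 0 (η n) ρ f) ω) +
      ((∑ s, ∫ u : ℝ, (Fil.b s : ℂ) * ρ u * (X s u * deriv (f s) u)) *
        F (mN6 N) (wN6 Z P N η η' c) (fun _ => 1) +
      F (mN6 N) (wN6 Z P N η η' c)
        (evN6 fun n => Vy 0 (η n) ρ fun s z => X s z * deriv (f s) z)) := by
  set C : ℂ := ∑ s, ∫ u : ℝ, (Fil.b s : ℂ) * ρ u * (X s u * deriv (f s) u) with hC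
  have e2 : (evN6 fun n => DX (XCy 0 (η n) X) (dSm (XCy 0 (η n) fun s => deriv (f s)))) =
      fun ω : CfN6 N => C * 1 +
        evN6 (fun n => Vy 0 (η n) ρ fun s z => X s z * deriv (f s) z) ω := by
    funext ω
    show DX (XCy 0 (η ω.1) X) (dSm (XCy 0 (η ω.1) fun s => deriv (f s))) ω.2.1.1 ω.2.2.1
      ω.2.1.2.1 ω.2.1.2.2 ω.2.2.2 = _
    rw [DX_vy, Sy_eq (ρ := ρ), mul_one]
    rfl
  have j7 : WI (mN6 N) (wN6 Z P N η η' c) fun ω : CfN6 N => C * 1 +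
      evN6 (fun n => Vy 0 (η n) ρ fun s z => X s z * deriv (f s) z) ω := (j6.smul C).add j5
  have key := ward_pc6 (c := c) h w (Ψ := fun n => Vy 0 (η n) ρ f)
    (dΨ := fun n => dSm (XCy 0 (η n) fun s => deriv (f s)))
    (fun n hn => PBF.PLX.InsD.vy (fun r O => (h.crv n hn r O).toR (h.hS n hn).d1) (h.hs n hn) h.b01 ρ hf)
    (fun n hn => MIn.vy (h.mc n hn) (h.hs n hn) h.b01 ρ hf.d)
    (fun n hn r a b k => meas_dvy (h.mc n hn) (h.hs n hn) h.b01 hf.d r a b k) j1 j2 j3 j4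
    (by rw [e2]; exact j7)
  rw [key, e2, F_add (j6.smul C) j5, F_smul]

end ward

end PHK

end
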