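import Pool.Agent.PLX.PB.WMin0
import Pool.Agent.PHK.ObStep6
import Pool.Agent.PHK.WPc6
import Pool.Agent.PHK.MBd6

/-!
# The particle-hole form (P): minus channel of level two, the fields

(P) twin of the configuration part of `PLX/PB/WMin0` (`m2_add`, `m2_c`, `m2_le_c`, `l1_le_c`, `wmi_mono`,
`dk_step`, `dk_TC`, `mass_zero`, `bc_mul`, `bc_sg2`, `bc_eM`, `bd_TC`, `int_sg2`, `sg2_real_le`, `cont_real`,
`dh_const`, `int_rho_bd`, `tgh_dAt`, `tgh_le`, `eX`, `mulF2_ib`, `mB_zero` are the landed ones).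

* `m2_V6`, `m2_r6`, `l1_pV6`, `l1_pO6`; **`Pp_min6`, `Pp_step6`**: the response of the objects is pinned;
* **`wm_fdw6`**: the data of a field, minus channel.
-/

set_option autoImplicit false
set_option linter.unusedSectionVars false

noncomputable section

open Complex MeasureTheory Finset
open scoped ENNReal
open PLX (Fil)

namespace PBWM.PLX

open NUO NUP1 NUCR NUP1S NUP1S.Ab NUP1S.AbC NUGC NUGC.PLX PBFunc PBFunc.PLX PBF PBF.PLX PBWP PBWP.PLX PBOR PBOR.PLX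
open Pool.Agent.PB (CmV CsV CssV)
open PBE (TC SeaL XS thX sg2 mass bS)
open PBE.PLX (ib b_ib norm_ib_le)
open PBU.PLX (BC MBd6)
open PHK

variable [Fil]

variable {N : ℕ} {Z : ℕ → Bool → Option O3 → ℂ → ℂ} {P : Par6} {η η' : ℕ → Crs}
  {c : ℕ → ℂ} {δ b0 b1 : ℝ} {kk : ℕ → ℝ} {LZ : ℕ → Bool → ℂ → ℂ}
  {LP : (r : ℕ) → (Fin r → Xo) → Bool → ℂ → ℂ} {ρ : ℂ → ℂ} {K q dp : ℝ}

theorem norm_evN_mul6 (Ψ : ℕ → Ins) (ω : CfN6 N) :
    ‖evN6 (fun n r O a b x => ((r : ℂ) + 1) * Ψ n r O a b x) ω‖ =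
      ((ω.2.1.1 : ℕ) + 1) * ‖evN6 Ψ ω‖ := by
  show ‖(((ω.2.1.1 : ℕ) : ℂ) + 1) * _‖ = _
  rw [norm_mul, PBU.PLX.norm_cn]
  rfl

theorem mVy6 (h : FibN6 N Z (fun _ => P) η η' δ 0 b0 b1 kk LZ (fun _ => LP) ρ)
    {g : Bool → ℂ → ℂ} {G : ℝ} (hg : ∀ s, BC (-b1) b1 G (g s)) :
    ∀ n ≤ N, MIn (Vy 0 (η n) ρ g) := fun n hn =>
  MIn.vy (h.mc n hn) (h.hs n hn) h.b01 ρ fun s _ hz =>
    ((hg s).an.differentiableAt ((Pool.Agent.PB.isOpen_Sp _ _).mem_nhds (abs_lt.1 hz)))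

/-- second moment of a statistic -/
theorem m2_V6 (h : FibN6 N Z (fun _ => P) η η' δ 0 b0 b1 kk LZ (fun _ => LP) ρ)
    (Bd : MBd6 N Z (fun _ => P) η η' c ρ (-b1) b1 K q dp) {g : Bool → ℂ → ℂ} {G : ℝ}
    (hG : 0 ≤ G) (hg : ∀ s, BC (-b1) b1 G (g s)) :
    M2 (mN6 N) (wN6 Z (fun _ => P) N η η' c) K (evN6 fun n => Vy 0 (η n) ρ g) G := by
  have h1 := Bd.vy G (fun _ _ => g) hG (fun _ _ s => hg s) (mVy6 h hg)
  refine PBWP.PLX.M2.le' h1 fun ω => ?_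
  rw [norm_evN_mul6 (fun n => Vy 0 (η n) ρ g) ω]
  have := norm_nonneg (evN6 (fun n => Vy 0 (η n) ρ g) ω)
  nlinarith [Nat.cast_nonneg (α := ℝ) (ω.2.1.1 : ℕ)]

theorem m2_one6 (Bd : MBd6 N Z (fun _ => P) η η' c ρ (-b1) b1 K q dp) :
    M2 (mN6 N) (wN6 Z (fun _ => P) N η η' c) K (fun _ => 1) 1 := by
  refine PBWP.PLX.M2.le' Bd.one fun ω => ?_
  show _ ≤ ‖(((ω.2.1.1 : ℕ) : ℂ) + 1)‖
  rw [PBU.PLX.norm_cn, norm_one]
  have := Nat.cast_nonneg (α := ℝ) (ω.2.1.1 : ℕ)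
  linarith

/-- a function of the objects at most linear in their number -/
theorem m2_r6 (Bd : MBd6 N Z (fun _ => P) η η' c ρ (-b1) b1 K q dp) {A : CfN6 N → ℂ} {C : ℝ}
    (hC : 0 ≤ C) (hA : ∀ ω : CfN6 N, ‖A ω‖ ≤ C * (ω.2.1.1 : ℕ)) :
    M2 (mN6 N) (wN6 Z (fun _ => P) N η η' c) K A C := by
  have h1 := m2_le_c (A := A) Bd.one fun ω => by
    show _ ≤ C * ‖(((ω.2.1.1 : ℕ) : ℂ) + 1)‖
    rw [PBU.PLX.norm_cn]
    have h2 := hA ω
    have : C * ((ω.2.1.1 : ℕ) : ℝ) ≤ C * (((ω.2.1.1 : ℕ) : ℝ) + 1) :=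
      mul_le_mul_of_nonneg_left (by linarith) hC
    linarith
  rwa [mul_one] at h1

theorem norm_pin6 (ω : CfN6 N) (r0 : ℝ) :
    ‖evN6 (fun _ r O a b x => ((r : ℂ) + 1) * PBU.PLX.pinI r0 r O a b x) ω‖ =
      ((ω.2.1.1 : ℕ) + 1) * pinR r0 ω.2.2.1 := by
  show ‖(((ω.2.1.1 : ℕ) : ℂ) + 1) * _‖ = _
  rw [norm_mul, PBU.PLX.norm_cn, PBU.PLX.norm_pinI]
  rfl

/-- pinned term against a statistic -/
theorem l1_pV6 (h : FibN6 N Z (fun _ => P) η η' δ 0 b0 b1 kk LZ (fun _ => LP) ρ)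
    (Bd : MBd6 N Z (fun _ => P) η η' c ρ (-b1) b1 K q dp) {g : Bool → ℂ → ℂ} {G : ℝ}
    (hG : 0 ≤ G) (hg : ∀ s, BC (-b1) b1 G (g s)) {A : CfN6 N → ℂ} {C : ℝ} (hC : 0 ≤ C)
    (hA : ∀ ω : CfN6 N, ‖A ω‖ ≤ C * pinR q ω.2.2.1) :
    L1 (mN6 N) (wN6 Z (fun _ => P) N η η' c)
      (fun ω => A ω * evN6 (fun n => Vy 0 (η n) ρ g) ω) (C * (G * dp)) := by
  have h1 := Bd.pinv G (fun _ _ => g) hG (fun _ _ s => hg s) (mVy6 h hg)
  refine l1_le_c hC h1 fun ω => ?_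
  have e : evN6 (fun n r O a b x =>
      (((r : ℂ) + 1) * PBU.PLX.pinI q r O a b x) * Vy 0 (η n) ρ g r O a b x) ω =
      evN6 (fun _ r O a b x => ((r : ℂ) + 1) * PBU.PLX.pinI q r O a b x) ω *
        evN6 (fun n => Vy 0 (η n) ρ g) ω := rfl
  rw [e, norm_mul, norm_mul, norm_pin6]
  have h2 := hA ω
  have h3 := pinR_nonneg q ω.2.2.1
  have h4 := norm_nonneg (evN6 (fun n => Vy 0 (η n) ρ g) ω)
  have h5 : 0 ≤ ((ω.2.1.1 : ℕ) : ℝ) := Nat.cast_nonneg _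
  calc ‖A ω‖ * ‖evN6 (fun n => Vy 0 (η n) ρ g) ω‖ ≤
        C * pinR q ω.2.2.1 * ‖evN6 (fun n => Vy 0 (η n) ρ g) ω‖ :=
        mul_le_mul_of_nonneg_right h2 h4
    _ = C * (1 * pinR q ω.2.2.1 * ‖evN6 (fun n => Vy 0 (η n) ρ g) ω‖) := by ring
    _ ≤ _ := by
        gcongr
        linarith

/-- pinned term against a function of the objects -/
theorem l1_pO6 (Bd : MBd6 N Z (fun _ => P) η η' c ρ (-b1) b1 K q dp) {A B : CfN6 N → ℂ} {C D : ℝ}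
    (hC : 0 ≤ C) (hD : 0 ≤ D) (hA : ∀ ω : CfN6 N, ‖A ω‖ ≤ C * pinR q ω.2.2.1)
    (hB : ∀ ω : CfN6 N, ‖B ω‖ ≤ D * (ω.2.1.1 : ℕ)) :
    L1 (mN6 N) (wN6 Z (fun _ => P) N η η' c) (fun ω => A ω * B ω) (C * D * dp) := by
  refine l1_le_c (by positivity) Bd.pin fun ω => ?_
  rw [norm_mul, norm_pin6]
  have h2 := hA ω
  have h3 := pinR_nonneg q ω.2.2.1
  have h5 : 0 ≤ ((ω.2.1.1 : ℕ) : ℝ) := Nat.cast_nonneg _
  calc ‖A ω‖ * ‖B ω‖ ≤ C * pinR q ω.2.2.1 * (D * (ω.2.1.1 : ℕ)) :=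
        mul_le_mul h2 (hB ω) (norm_nonneg _) (by positivity)
    _ = C * D * (((ω.2.1.1 : ℕ) : ℝ) * pinR q ω.2.2.1) := by ring
    _ ≤ _ := by
        gcongr
        linarith

/-! ### the response of the objects -/

/-- the forces of the objects in the two forms -/
abbrev OkLP6 (P : Par6) (LP : (r : ℕ) → (Fin r → Xo) → Bool → ℂ → ℂ) : Prop :=
  ∀ (r : ℕ) (O : Fin r → Xo) (s : Bool) (t : ℝ),
    LP r O s ((NUP1.l : ℂ) + I * t) = kP6 P O s ((NUP1.l : ℂ) + I * t)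

theorem Pp_eq6 (hP : GoodP6 P) (hj : P.j2 ≤ 19 / 20) (hLP : OkLP6 P LP)
    {β : Bool → ℂ → ℂ} (hi : ∀ s, Integrable fun t : ℝ => β s t) (r : ℕ) (O : Fin r → Xo)
    (a b : ℕ) (x : (Fin a → ℝ) × (Fin b → ℝ)) :
    Pp LP β r O a b x = ∑ i, kapO6 P O i fun s (t : ℝ) => β s t := by
  unfold Pp PBWP.PLX.obF
  simp only [hLP r O]
  exact sum_kapO6 hP hj O hi

section resp

variable {b κ B : ℝ} {β0 : ℂ → ℂ}

/-- **the response of the objects to the field of a test function is pinned** -/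
theorem Pp_min6 (hP : GoodP6 P) (hj : P.j2 ≤ 19 / 20) (hLP : OkLP6 P LP)
    (hβ : TC (-b) b κ B β0) (hκ0 : 0 < κ) (hκ2 : κ < 2) (hb : 0 < b) (hm : mass β0 = 0)
    (hq : q ≤ κ) (r : ℕ) (O : Fin r → Xo) (a b' : ℕ) (x : (Fin a → ℝ) × (Fin b' → ℝ)) :
    ‖Pp LP (sg2 β0) r O a b' x‖ ≤ B * CK6 κ * pinR q O := by
  have hB := hβ.nonneg (by linarith) hb
  rw [Pp_eq6 hP hj hLP (int_sg2 hβ hκ0 hb)]
  refine (kapO_pin6 hP hj O hκ0 hκ2 hB
    (fun s => (int_sg2 hβ hκ0 hb s).aestronglyMeasurable) (sg2_real_le hβ hb)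
    (fun x => ?_)).trans (mul_le_mul_of_nonneg_left (pinR_mono hq O)
      (mul_nonneg hB (CK6_nonneg hκ0 hκ2)))
  refine Finset.sum_eq_zero fun s _ => ?_
  have e : (∫ t : ℝ, sg2 β0 s t) = 0 := by
    have e1 : (fun t : ℝ => sg2 β0 s t) = fun t : ℝ => -eM s * β0 t :=
      funext fun t => sg2_eq β0 s t
    rw [e1, integral_const_mul]
    unfold mass at hm
    rw [hm, mul_zero]
  rw [e, mul_zero]

/-- **the response of the objects to the field of the step, with their own step statistic** -/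
theorem Pp_step6 (hP : GoodP6 P) (hj : P.j2 ≤ 19 / 20) (hLP : OkLP6 P LP)
    (hβ : TC (-b) b κ B bS) (hκ0 : 0 < κ) (hκ2 : κ < 2) (hb : 0 < b) (hq : q ≤ κ)
    (r : ℕ) (O : Fin r → Xo) (a b' : ℕ) (x : (Fin a → ℝ) × (Fin b' → ℝ)) :
    ‖Pp LP (sg2 bS) r O a b' x + -stO6 sgD P O‖ ≤ (PBOR.PLX.CS6 + B * CK6 κ) * pinR q O := by
  have hB := hβ.nonneg (by linarith) hb
  have hi : ∀ s, Integrable fun t : ℝ => eM s * bS t := fun s =>
    (hβ.real hκ0 (by linarith) hb).1.const_mul _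
  have h1 := stepO6 hP hj O (β := fun s (t : ℝ) => eM s * bS t) hκ0 hκ2 hB
    (fun s => (hi s).aestronglyMeasurable) (fun s t => by
      rw [norm_mul, norm_eM, one_mul, ← norm_sg2 bS s]
      exact sg2_real_le hβ hb s t) (fun s => by
      rw [integral_const_mul]
      have := PBE.mass_bS
      unfold mass at this
      rw [this])
  have e : Pp LP (sg2 bS) r O a b' x =
      -∑ i, kapO6 P O i fun s (t : ℝ) => eM s * bS t := by
    rw [Pp_eq6 hP hj hLP (int_sg2 hβ hκ0 hb), ← Finset.sum_neg_distrib]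
    refine Finset.sum_congr rfl fun i _ => ?_
    rw [kapO_eq6, kapO_eq6, ← Finset.sum_neg_distrib]
    refine Finset.sum_congr rfl fun s _ => ?_
    rw [← integral_neg]
    refine integral_congr_ae (Filter.Eventually.of_forall fun t => ?_)
    simp only [sg2_eq]
    ring
  have e2 : Pp LP (sg2 bS) r O a b' x + -stO6 sgD P O =
      -(stO6 sgD P O + ∑ i, kapO6 P O i fun s (t : ℝ) => eM s * bS t) := by
    rw [e]; ring
  rw [e2, norm_neg]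
  exact h1.trans (mul_le_mul_of_nonneg_left (pinR_mono hq O)
    (add_nonneg PBOR.PLX.CS6_pos.le (mul_nonneg hB (CK6_nonneg hκ0 hκ2))))

end resp

/-! ### one field -/

section core

variable {b b' c0 Nr κ κ₁ κ₂ B G : ℝ} {β0 g0 e0 h0 : ℂ → ℂ} {cut : Bool → ℂ → ℂ}

/-- **the data of a field, minus channel** -/
theorem wm_fdw6 (h : FibN6 N Z (fun _ => P) η η' δ 0 b0 b1 kk LZ (fun _ => LP) ρ)
    (hP : GoodP6 P) (hj : P.j2 ≤ 19 / 20) (hLP : OkLP6 P LP) (hsea : SeaL b c0 Nr ρ)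
    (hb1 : b1 ≤ b') (hbb : b' ≤ b) (hb1l : b1 ≤ NUP1.l) (hβ : TC (-b) b κ B β0) (hB : 0 ≤ B)
    (hκ1 : 0 < κ₁) (hκ2 : 0 ≤ κ₂) (h1 : κ₁ ≤ κ) (h2 : κ - κ₁ ≤ 8 / 3)
    (te : TC (-b') b' κ₂ (thX c0 Nr (κ - κ₁) 0 * B) e0)
    (re : ∀ z : ℂ, |z.im| < b' → ∀ t : Bool,
      PB.rsp (PB.mulF ρ (sg2 (XS ρ 0 β0))) t z =
        sg2 (fun w => g0 w - e0 w - 4 * mass (XS ρ 0 β0) * PBV.tgh w) t z)
    (gd : ∀ z : ℂ, |z.im| < b1 → DifferentiableAt ℂ g0 z)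
    (gb : ∀ z : ℂ, |z.im| < b1 → ‖g0 z‖ ≤ G)
    (hd0 : ∀ z : ℂ, |z.im| < b1 → DifferentiableAt ℂ h0 z) {M0 : ℝ}
    (hb0 : ∀ z : ℂ, |z.im| < b1 → ‖h0 z‖ ≤ M0)
    (hl : ∀ n ≤ N, ∀ r O s (t : ℝ), I * LZ n s (NUP1.l + I * zy 0 (Fil.cv s (η n r O)) t) -
      PB.kp2 ρ s (zy 0 (Fil.cv s (η n r O)) t) =
      h0 (zy 0 (Fil.cv s (η n r O)) t) + cut s (zy 0 (Fil.cv s (η n r O)) t)) :
    FdW N η b1 LZ (fun _ => LP) ρ (sg2 β0) (ib (sg2 (XS ρ 0 β0))) (sg2 g0)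
      (eX e0 (mass (XS ρ 0 β0))) (fun _ => h0) cut := by
  have hb1p := h.b1p
  have hb'p : 0 < b' := hb1p.trans_le hb1
  have hbp : 0 < b := hb'p.trans_le hbb
  have hκ : 0 < κ := by linarith
  have tX := PBE.XS_TC hsea hβ hB h1 h2 0
  have hT : 0 ≤ thX c0 Nr (κ - κ₁) 0 * B := mul_nonneg (PBE.thX_nonneg hsea.Np) hB
  have h0t : ∀ t : ℝ, |(t : ℂ).im| < b1 := fun t => by rw [ofReal_im, abs_zero]; exact hb1p
  have ed : ∀ z : ℂ, |z.im| < b1 → DifferentiableAt ℂ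
      (fun z => e0 z + 4 * mass (XS ρ 0 β0) * PBV.tgh z) z := fun z hz =>
    (te.dAt (abs_lt.1 (hz.trans_le hb1))).add ((tgh_dAt hb1p hb1l hz).const_mul _)
  have eb : ∀ z : ℂ, |z.im| < b1 → ‖e0 z + 4 * mass (XS ρ 0 β0) * PBV.tgh z‖ ≤
      thX c0 Nr (κ - κ₁) 0 * B + ‖4 * mass (XS ρ 0 β0)‖ * 3 := fun z hz => by
    refine (norm_add_le _ _).trans (add_le_add (bd_TC te hκ2 hT le_rfl le_rfl
      (hz.trans_le hb1)) ?_)
    rw [norm_mul]
    exact mul_le_mul_of_nonneg_left (tgh_le hb1l hz) (norm_nonneg _)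
  have dsg : ∀ (f : ℂ → ℂ), (∀ z : ℂ, |z.im| < b1 → DifferentiableAt ℂ f z) → ∀ (s : Bool)
      (z : ℂ), |z.im| < b1 → DifferentiableAt ℂ (sg2 f s) z := fun f hf s z hz => by
    rw [sg2_fun]
    exact (hf z hz).const_mul _
  have irho : ∀ (f : ℂ → ℂ) (G : ℝ), (∀ z : ℂ, |z.im| < b1 → DifferentiableAt ℂ f z) →
      (∀ z : ℂ, |z.im| < b1 → ‖f z‖ ≤ G) → ∀ s : Bool,
      Integrable fun t : ℝ => ρ t * sg2 f s t := fun f G hf hG s =>
    int_rho_bd h.sea hb1p (dsg f hf s) fun z hz => by rw [norm_sg2]; exact hG z hz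
  have iF : ∀ s : Bool, (Integrable fun t : ℝ => sg2 β0 s t) ∧
      Integrable fun t : ℝ => ib (sg2 (XS ρ 0 β0)) s t := fun s =>
    ⟨int_sg2 hβ hκ hbp s, (int_sg2 tX hκ1 hbp s).const_mul _⟩
  have iL : ∀ {f : ℝ → ℂ}, Integrable f → Integrable fun t : ℝ => f t * h0 t := fun hf =>
    hf.mul_bdd (c := M0) (cont_real hb1p hd0).aestronglyMeasurable
      (Filter.Eventually.of_forall fun t => hb0 _ (h0t t))
  have iO : ∀ {f : ℝ → ℂ}, Integrable f → ∀ (r : ℕ) (O : Fin r → Xo) (s : Bool),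
      Integrable fun t : ℝ => f t * PBWP.PLX.obF LP r O s t := by
    intro f hf r O s
    have hl0 := Bd.l_pos
    have e1 : (fun t : ℝ => PBWP.PLX.obF LP r O s t) =
        fun t : ℝ => I * kP6 P O s ((NUP1.l : ℂ) + I * t) := by
      funext t
      show I * LP r O s ((NUP1.l : ℂ) + I * t) = _
      rw [hLP]
    have hc : Continuous fun t : ℝ => I * kP6 P O s ((NUP1.l : ℂ) + I * t) := by
      refine continuous_const.mul ?_
      rw [continuous_iff_continuousAt]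
      intro t
      have h3 := (kP_dAt6 (dsC_line hP hj) O s (z := (t : ℂ)) (by
        rw [ofReal_im, abs_zero]; positivity)).continuousAt
      exact ContinuousAt.comp (f := fun t : ℝ => (t : ℂ)) h3
        continuous_ofReal.continuousAt
    refine hf.mul_bdd (c := r * (COc (1 / 100) + 4)) (by rw [e1]; exact hc.aestronglyMeasurable)
      (Filter.Eventually.of_forall fun t => ?_)
    have e2 : PBWP.PLX.obF LP r O s t = I * kP6 P O s ((NUP1.l : ℂ) + I * t) := congrFun e1 t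
    rw [e2, norm_mul, norm_I, one_mul]
    exact kP_lI_le6 (dsC_line hP hj) O s (by rw [ofReal_im, abs_zero]; positivity)
  exact
    { fX := PBE.PLX.FldF.ib
        { d := fun s z hz => by
            rw [sg2_fun]
            exact (tX.dAt (abs_lt.1 (hz.trans_le (hb1.trans hbb)))).const_mul _
          bd := ⟨_, hT, fun s z hz => by
            rw [norm_sg2]
            exact bd_TC tX hκ1.le hT le_rfl le_rfl (hz.trans_le (hb1.trans hbb))⟩ }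
      rs := fun s z hz => by
        rw [mulF2_ib, re z (hz.trans_le hb1) s]
        simp only [eX, sg2_eq]
        ring
      gd := fun s z hz => dsg g0 gd s z hz
      ed := fun s z hz => dsg _ ed s z hz
      ig := irho g0 G gd gb
      ie := irho _ _ ed eb
      mβ := fun s => by
        have : Continuous fun t : ℝ => sg2 β0 s t := cont_real hbp fun z hz => by
          rw [sg2_fun]
          exact (hβ.dAt (abs_lt.1 hz)).const_mul _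
        exact this.measurable
      hβ := fun s t => by
        have h3 := PBE.XS_mul (β := β0) hsea 0 (z := (t : ℂ)) (by
          rw [ofReal_im, abs_zero]; exact hbp)
        rw [ofReal_zero, add_zero] at h3
        have h4 := b_ib (sg2 (XS ρ 0 β0)) s t
        rw [sg2_eq] at h4
        rw [sg2_eq]
        linear_combination (-eM s) * h3 + (ρ t + 1) * h4
      hl := hl
      i1 := fun s => iL (iF s).1
      i2 := fun s => iL (iF s).2
      i3 := fun n _ r O s => iO (iF s).1 r O s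
      i4 := fun n _ r O s => iO (iF s).2 r O s }

end core

end PBWM.PLX

end
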