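import Pool.Agent.PLX.PB.WMinA
import Pool.Agent.PHK.ObStep6
import Pool.Agent.PHK.WPc6
import Pool.Agent.PHK.TRsB6

/-!
# The particle-hole form (P): the second Ward identity in the minus channel, form `PBE.WMi`

(P) twin of `PLX/PB/WMinA`: `Dh6`, `DX_eq6`, **`wmi_gen6`** (no hypothesis on the radii).
-/

set_option autoImplicit false
set_option linter.unusedSectionVars false

noncomputable section

open Complex MeasureTheory Finset
open scoped ENNReal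
open PLX (Fil)

namespace PBWP.PLX

open NUO NUP1 NUCR NUP1S NUP1S.Ab NUP1S.AbC NUGC NUGC.PLX PBFunc PBFunc.PLX PBF PBF.PLX
open PHK

variable [Fil]

variable {N : ℕ} {Z : ℕ → Bool → Option O3 → ℂ → ℂ} {P : Par6} {η η' : ℕ → Crs}
  {c : ℕ → ℂ} {δ b0 b1 : ℝ} {κ : ℕ → ℝ} {LZ : ℕ → Bool → ℂ → ℂ}
  {LP : ℕ → (r : ℕ) → (Fin r → Xo) → Bool → ℂ → ℂ} {ρ : ℂ → ℂ}
  {β X g e leg cut : Bool → ℂ → ℂ}

/-- the derivative term: `∑ over the quanta of X f'`, `f = eM h` -/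
def Dh6 (η : ℕ → Crs) (ρ : ℂ → ℂ) (X : Bool → ℂ → ℂ) (h : ℂ → ℂ) (C : ℂ) : CfN6 N → ℂ :=
  fun ω => evN6 (fun n => Vy 0 (η n) ρ fun s z => X s z * (eM s * deriv h z)) ω +
    ((∑ s, ∫ u : ℝ, (Fil.b s : ℂ) * ρ u * (X s u * (eM s * deriv h u))) - C)

theorem DX_eq6 (X : Bool → ℂ → ℂ) (h : ℂ → ℂ) (C : ℂ) (ρ : ℂ → ℂ) (ω : CfN6 N) :
    evN6 (fun n => DX (XCy 0 (η n) X) (dSm (XCy 0 (η n) fun s => deriv fun z => eM s * h z))) ω =
      C + Dh6 η ρ X h C ω := by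
  show DX (XCy 0 (η ω.1) X) (dSm (XCy 0 (η ω.1) fun s => deriv fun z => eM s * h z)) ω.2.1.1
    ω.2.2.1 ω.2.1.2.1 ω.2.1.2.2 ω.2.2.2 = _
  rw [DX_vy, Sy_eq (ρ := ρ)]
  simp only [deriv_const_mul_field]
  unfold Dh6 evN6 ev6
  ring

/-- **the second Ward identity, minus channel** -/
theorem wmi_gen6 {y₁ y₂ a K θ δp M : ℝ}
    (h : FibN6 N Z (fun _ => P) η η' δ 0 b0 b1 κ LZ LP ρ)
    (w : FdW N η b1 LZ LP ρ β X g e leg cut) (h0 : mB β leg = 0)
    (hy1 : y₁ ≤ -b1) (hy2 : b1 ≤ y₂) (hb1 : b1 ≤ NUP1.l) (ha : 0 ≤ a) {YO : CfN6 N → ℂ}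
    (mYO : AEStronglyMeasurable YO (mN6 N)) (hK : 0 ≤ K) {a1 a2 a3 a4 : ℝ} (h1 : 0 ≤ a1)
    (h2 : 0 ≤ a2) (h3 : 0 ≤ a3) (h4 : 0 ≤ a4) (hM : 0 ≤ M) (hθ : 0 ≤ θ)
    (one : M2 (mN6 N) (wN6 Z (fun _ => P) N η η' c) K (fun _ => 1) 1)
    (g2 : M2 (mN6 N) (wN6 Z (fun _ => P) N η η' c) K (evN6 fun n => Vy 0 (η n) ρ g) a1)
    (e2 : M2 (mN6 N) (wN6 Z (fun _ => P) N η η' c) K (evN6 fun n => Vy 0 (η n) ρ e) a2)
    (q2 : M2 (mN6 N) (wN6 Z (fun _ => P) N η η' c) K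
      (evN6 fun n => Qp (η n) ρ X e leg cut (LP n)) (M * θ))
    (p3 : M2 (mN6 N) (wN6 Z (fun _ => P) N η η' c) K (evN6 fun n => Pp (LP n) β) a3)
    (y4 : M2 (mN6 N) (wN6 Z (fun _ => P) N η η' c) K YO a4)
    (v2m : ∀ M h, PBE.TC y₁ y₂ a M h →
      M2 (mN6 N) (wN6 Z (fun _ => P) N η η' c) K (Vm6 (fun u => ρ u) η h) M)
    (s2 : M2 (mN6 N) (wN6 Z (fun _ => P) N η η' c) K (SN6 (fun u => ρ u) P η) 1)
    {C : (ℂ → ℂ) → ℂ} {Cs : ℂ}
    (d2 : ∀ M' h, PBE.TC y₁ y₂ a M' h →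
      M2 (mN6 N) (wN6 Z (fun _ => P) N η η' c) K (Dh6 η ρ X h (C h)) (M * M' * θ))
    (ds2 : M2 (mN6 N) (wN6 Z (fun _ => P) N η η' c) K (Dh6 η ρ X PB.NX.sgC Cs) (M * θ))
    (p2 : ∀ M' h, PBE.TC y₁ y₂ a M' h → L1 (mN6 N) (wN6 Z (fun _ => P) N η η' c)
      (fun ω => (evN6 (fun n => Pp (LP n) β) ω + YO ω) * Vm6 (fun u => ρ u) η h ω) (M * M' * δp))
    (ps : L1 (mN6 N) (wN6 Z (fun _ => P) N η η' c)
      (fun ω => (evN6 (fun n => Pp (LP n) β) ω + YO ω) * SN6 (fun u => ρ u) P η ω) (M * δp)) :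
    PBE.WMi y₁ y₂ a (mN6 N) (wN6 Z (fun _ => P) N η η' c) K θ δp M (Vm6 (fun u => ρ u) η)
      (SN6 (fun u => ρ u) P η)
      (fun ω => evN6 (fun n => Vy 0 (η n) ρ g) ω + YO ω) C Cs (fun h => Dh6 η ρ X h (C h))
      (Dh6 η ρ X PB.NX.sgC Cs) (evN6 fun n => Qp (η n) ρ X e leg cut (LP n))
      (fun ω => evN6 (fun n => Pp (LP n) β) ω + YO ω) := by
  have hb1p := h.b1p
  have hy1' : y₁ < 0 := by linarith
  have hy2' : 0 < y₂ := by linarith
  set μ := mN6 N with hμ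
  set ww := wN6 Z (fun _ => P) N η η' c with hww
  have mw : AEStronglyMeasurable ww μ := (wN_meas6 h.mZ).aestronglyMeasurable
  have mg : AEStronglyMeasurable (evN6 fun n => Vy 0 (η n) ρ g : CfN6 N → ℂ) μ :=
    (evN_meas6 fun n hn => MIn.vy (h.mc n hn) (h.hs n hn) h.b01 ρ w.gd).aestronglyMeasurable
  have me : AEStronglyMeasurable (evN6 fun n => Vy 0 (η n) ρ e : CfN6 N → ℂ) μ :=
    (evN_meas6 fun n hn => MIn.vy (h.mc n hn) (h.hs n hn) h.b01 ρ w.ed).aestronglyMeasurable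
  have mQ : AEStronglyMeasurable
      (evN6 fun n => Qp (η n) ρ X e leg cut (LP n) : CfN6 N → ℂ) μ :=
    (evN_meas6 fun n hn => w.mQ6 h hn).aestronglyMeasurable
  have mP : AEStronglyMeasurable (evN6 fun n => Pp (LP n) β : CfN6 N → ℂ) μ :=
    (evN_meas6 fun n hn => w.mP6 h hn).aestronglyMeasurable
  have hTd : ∀ M' k, PBE.TC y₁ y₂ a M' k → ∀ s (z : ℂ), |z.im| < b1 →
      DifferentiableAt ℂ (fun z => eM s * k z) z :=
    fun M' k hk s z hz => (TC_dAt hk hy1 hy2 hz).const_mul _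
  have mV : ∀ M' k, PBE.TC y₁ y₂ a M' k → AEStronglyMeasurable (Vm6 (fun u => ρ u) η k : CfN6 N → ℂ) μ := by
    intro M' k hk
    rw [Vm_evN6 ρ]
    exact (evN_meas6 fun n hn => MIn.vy (h.mc n hn) (h.hs n hn) h.b01 ρ
      (hTd M' k hk)).aestronglyMeasurable
  have mSA : ∀ n ≤ N, MIn fun r O a b x => stA6 sgD P (η n) r O a b x -
      ((Fil.b true : ℂ) - Fil.b false) * ∫ u : ℝ, ρ u * PB.NX.sgC u := fun n hn r a b =>
    (MIn_stA6 P mS_sgD (h.mc n hn) r a b).sub measurable_const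
  have mS : AEStronglyMeasurable (SN6 (fun u => ρ u) P η : CfN6 N → ℂ) μ := by
    rw [SN_evN6]
    exact (evN_meas6 mSA).aestronglyMeasurable
  -- the derivative terms are measurable
  have hdd : ∀ (k : ℂ → ℂ), (∀ z : ℂ, |z.im| < b1 → DifferentiableAt ℂ k z) →
      ∀ s (z : ℂ), |z.im| < b1 → DifferentiableAt ℂ (fun z => X s z * (eM s * deriv k z)) z := by
    intro k hk s z hz
    have ho : IsOpen {w : ℂ | |w.im| < b1} := Pool.Agent.PB.strip_open b1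
    have hd : DifferentiableOn ℂ k {w : ℂ | |w.im| < b1} :=
      fun z hz => (hk z hz).differentiableWithinAt
    exact (w.fX.d s z hz).mul (((hd.deriv ho).differentiableAt (ho.mem_nhds hz)).const_mul _)
  have mD : ∀ (k : ℂ → ℂ), (∀ z : ℂ, |z.im| < b1 → DifferentiableAt ℂ k z) → ∀ C0 : ℂ,
      AEStronglyMeasurable (Dh6 η ρ X k C0 : CfN6 N → ℂ) μ := by
    intro k hk C0
    unfold Dh6
    exact (evN_meas6 fun n hn => MIn.vy (h.mc n hn) (h.hs n hn) h.b01 ρ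
      (hdd k hk)).aestronglyMeasurable.add aestronglyMeasurable_const
  have hsg : ∀ z : ℂ, |z.im| < b1 → DifferentiableAt ℂ PB.NX.sgC z := fun z hz =>
    PB.NX.differentiableAt_sgC (by
      have : Real.pi / 8 = NUP1.l := rfl
      rw [this]; linarith)
  -- the identity for one insertion
  have key : ∀ (k : ℂ → ℂ) (Ψ : ℕ → Ins) (T : CfN6 N → ℂ) (C0 : ℂ) (m d : ℝ), 0 ≤ m → 0 ≤ d →
      evN6 Ψ = T → (∀ n ≤ N, PBF.PLX.InsD (η' n) (Ψ n)
        (dSm (XCy 0 (η n) fun s => deriv fun z => eM s * k z))) → (∀ n ≤ N, MIn (Ψ n)) →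
      (∀ z : ℂ, |z.im| < b1 → DifferentiableAt ℂ k z) → M2 μ ww K T m →
      M2 μ ww K (Dh6 η ρ X k C0) d →
      F μ ww (fun ω => (evN6 (fun n => Vy 0 (η n) ρ g) ω + YO ω) * T ω) =
        C0 * F μ ww (fun _ => 1) + F μ ww (Dh6 η ρ X k C0) +
        F μ ww (fun ω => (evN6 (fun n => Qp (η n) ρ X e leg cut (LP n)) ω +
          (evN6 (fun n => Pp (LP n) β) ω + YO ω)) * T ω) := by
    intro k Ψ T C0 m d hm hd hΨT hΨ mΨ hk mT mDk
    have mTm : AEStronglyMeasurable T μ := by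
      rw [← hΨT]
      exact (evN_meas6 mΨ).aestronglyMeasurable
    have wi : ∀ {A : CfN6 N → ℂ} {α : ℝ}, 0 ≤ α → AEStronglyMeasurable A μ →
        M2 μ ww K A α → WI μ ww fun ω => A ω * T ω := fun hα mA hA =>
      (hA.mul' hα hm hK mw mA mT).wi mw (mA.mul mTm)
    have wg := wi h1 mg g2
    have we := wi h2 me e2
    have wq := wi (by positivity : 0 ≤ M * θ) mQ q2
    have wp := wi h3 mP p3
    have wy := wi h4 mYO y4
    have wT : WI μ ww T := (mT.l1 hm hK mw mTm one).wi mw mTm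
    have w1 : WI μ ww fun _ => 1 := by
      have := (one.l1 zero_le_one hK mw aestronglyMeasurable_const one).wi mw
        (aestronglyMeasurable_const (b := (1 : ℂ)))
      exact this
    have wD : WI μ ww (Dh6 η ρ X k C0) := (mDk.l1 hd hK mw (mD k hk C0) one).wi mw (mD k hk C0)
    have eD : (evN6 fun n => DX (XCy 0 (η n) X)
        (dSm (XCy 0 (η n) fun s => deriv fun z => eM s * k z)) : CfN6 N → ℂ) =
        fun ω => C0 * 1 + Dh6 η ρ X k C0 ω := by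
      funext ω
      rw [DX_eq6 X k C0 ρ ω, mul_one]
    have wqp : WI μ ww fun ω => (evN6 (fun n => Qp (η n) ρ X e leg cut (LP n)) ω +
        evN6 (fun n => Pp (LP n) β) ω) * T ω := (wq.add wp).congr
          (Filter.Eventually.of_forall fun ω => by simp only []; ring)
    have key := ward_pc6 (c := c) h w (Ψ := Ψ)
      (dΨ := fun n => dSm (XCy 0 (η n) fun s => deriv fun z => eM s * k z)) hΨ mΨ
      (fun n hn r a b kk => meas_dvy (h.mc n hn) (h.hs n hn) h.b01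
        (fun s z hz => (hk z hz).const_mul (eM s)) r a b kk)
      (by rw [hΨT]; exact wg) (by rw [hΨT]; exact we) (by rw [hΨT]; exact wqp)
      (by rw [hΨT]; exact wT) (by rw [eD]; exact (w1.smul C0).add wD)
    rw [hΨT, h0, zero_mul, zero_add, eD] at key
    have eL : (fun ω => (evN6 (fun n => Vy 0 (η n) ρ g) ω + YO ω) * T ω) =
        fun ω => evN6 (fun n => Vy 0 (η n) ρ g) ω * T ω + YO ω * T ω := by
      funext ω
      ring
    have eR : (fun ω => (evN6 (fun n => Qp (η n) ρ X e leg cut (LP n)) ω +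
          (evN6 (fun n => Pp (LP n) β) ω + YO ω)) * T ω) =
        fun ω => (evN6 (fun n => Qp (η n) ρ X e leg cut (LP n)) ω +
          evN6 (fun n => Pp (LP n) β) ω) * T ω + YO ω * T ω := by
      funext ω
      ring
    rw [eL, eR, F_add wg wy, F_add wqp wy, key, F_add (w1.smul C0) wD, F_smul]
    ring
  exact
    { two := fun M' k hk => by
        refine key k (fun n => Vy 0 (η n) ρ fun s z => eM s * k z) (Vm6 (fun u => ρ u) η k) (C k) M'
          (M * M' * θ) (hk.nonneg hy1' hy2')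
          (mul_nonneg (mul_nonneg hM (hk.nonneg hy1' hy2')) hθ) (Vm_evN6 ρ η k).symm
          (fun n hn => PBF.PLX.InsD.vy (fun r O => (h.crv n hn r O).toR (h.hS n hn).d1) (h.hs n hn) h.b01 ρ
            (fldF_TC hk hy1 hy2 ha (hk.nonneg hy1' hy2') eM fun s => (PBOR.PLX.norm_eM s).le))
          (fun n hn => MIn.vy (h.mc n hn) (h.hs n hn) h.b01 ρ (hTd M' k hk))
          (fun z hz => TC_dAt hk hy1 hy2 hz) (v2m M' k hk) (d2 M' k hk)
      step := key PB.NX.sgC (fun n r O a b x => stA6 sgD P (η n) r O a b x -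
          ((Fil.b true : ℂ) - Fil.b false) * ∫ u : ℝ, ρ u * PB.NX.sgC u)
        (SN6 (fun u => ρ u) P η) Cs 1 (M * θ) zero_le_one (mul_nonneg hM hθ) (SN_evN6 ρ P η).symm
        (fun n hn => InsD.sn6' (h.crv n hn) (h.hS n hn).d1 (h.hs n hn) h.b01 hb1 P ρ) mSA hsg s2 ds2
      mQ := mQ
      mP := mP.add mYO
      q2 := q2
      mD := fun M' k hk => mD k (fun z hz => TC_dAt hk hy1 hy2 hz) _
      mDs := mD _ hsg _
      d2 := d2
      ds2 := ds2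
      p2 := p2
      ps := ps }

end PBWP.PLX

end
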