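import Pool.Agent.PHK.LevX6
import Pool.Agent.PHK.LevI6
import Pool.Agent.PHK.HQf6
import Pool.Agent.PHK.WMin6

/-!
# (P): level two at the family of the dislocated function, minus channel

**`levN6`**: `PBLX.PLX.WmS6` (the fields `wm`, `ws` of `PBEM.LevD` at the family), for all sizes
`K ≥ C Kj`, `th ≥ C (j + 1)^(-141/200)`, `dp ≥ C dj`.
-/

set_option autoImplicit false
set_option linter.unusedSectionVars false

noncomputable section

open Complex MeasureTheory Filter Topology Set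
open scoped ENNReal

open PLX (Fil)

namespace PBLX.PLX

open NUO NUP1S NUP1S.Ab NUP1S.AbC NUGC NUGC.PLX PBF PBF.PLX PBFunc PBFunc.PLX PBU PBU.PLX PBWP PBWP.PLX
open PBEI (rowS h0T cL y1 y26)
open PBE (TC SeaL XS thX sg2 mass)
open PHK

attribute [local instance] NUSea.seaP

variable [Fil]

theorem thX_zero6 (c0 : ℝ) (j : ℕ) : thX c0 ((j + 1 : ℕ) : ℝ) (189 / 100 - 1 / 100) 0 =
    max 1 c0⁻¹ * ((j : ℝ) + 1) ^ (-(141 / 200 : ℝ)) := by
  unfold thX
  rw [abs_zero, mul_zero, Real.exp_zero, mul_one]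
  congr 2
  · push_cast
    rfl
  · norm_num

/-- **level two at the family, minus channel** -/
theorem levN6 [MomS6] : ∃ a0 : ℝ, 0 < a0 ∧ ∀ ep e1 J : ℝ, SmallP a0 ep e1 J → ∃ C : ℝ, 1 ≤ C ∧
    ∀ K th dp : ℕ → ℝ, (∀ j, C * Kj (1 / 100) j ≤ K j) →
      (∀ j : ℕ, C * ((j : ℝ) + 1) ^ (-(141 / 200 : ℝ)) ≤ th j) →
      (∀ j, C * dj (1 / 100) e1 (189 / 100) j ≤ dp j) → WmS6 (19 / 10) K th dp ep e1 J := by
  have hl := NUP1.Bd.l_pos
  have hl3 : 3 / 8 < NUP1.l := by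
    unfold NUP1.l
    linarith [Real.pi_gt_three]
  have hy1 : y1 = -(NUP1.l / 10) := rfl
  have hy2 : y26 = 351 / 400 * NUP1.l := rfl
  have hb6 : bb6 = 19 / 2000 * NUP1.l := rfl
  have hb6' : bb6' = 9 / 1000 * NUP1.l := rfl
  have hb : bb6 < NUP1.l := by
    rw [hb6]
    linarith
  obtain ⟨c0, hc0, hc⟩ := seaL_rhS (b := bb6) bb6_pos.le hb
  obtain ⟨a1, ha1, H1⟩ := mbdS6 (q := 189 / 100) (ε := 1 / 100) (by norm_num) (by norm_num)
    (by norm_num)
  obtain ⟨a2, ha2, H2⟩ := hQ_minus6 (ε := 1 / 100) (by norm_num) (c0 := c0)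
    (fun j s hs => (hc j s hs).1)
  refine ⟨min a1 a2, lt_min ha1 ha2, fun ep e1 J hp => ?_⟩
  have hep0 := hp.ep0
  have hep1 := hp.ep1
  obtain ⟨CQ, hCQ, hQ⟩ := H2 ep e1 J (hp.mono (min_le_right _ _))
  obtain ⟨C, hC, W⟩ := PBWM.PLX.wm_of6 (y₁ := y1) (y₂ := y26) (a := 19 / 10) (κ := 189 / 100)
    (κ₁ := 1 / 100) (κ₂ := 1 / 200) (b := bb6) (b' := bb6') (q := 189 / 100) (CQ := CQ)
    (by norm_num) (by norm_num) (by norm_num) (by norm_num) (by norm_num) (by norm_num)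
    (by norm_num) (by norm_num) bb6'_pos bb6'_lt
    (by rw [hy1, hb6]; linarith) (by rw [hy2, hb6]; linarith) hb (by norm_num)
    le_rfl hCQ
  have hm1 : (1 : ℝ) ≤ max 1 c0⁻¹ := le_max_left _ _
  have hCm : C ≤ C * max 1 c0⁻¹ := le_mul_of_one_le_right (by linarith) hm1
  refine ⟨C * max 1 c0⁻¹, hC.trans hCm, fun K th dp hK hth hdp => ?_⟩
  have hM := H1 ep e1 J (hp.mono (min_le_left _ _)) (-(ep / 4)) bb6' (by linarith) bb6'_pos
  have hF := fib_S6 hep0 hep1 hp.e0 hp.e1' hp.J0 (b1 := bb6') (by rw [hb6']; nlinarith)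
    (by rw [hb6']; linarith)
  filter_upwards [hM, hF, hQ] with j hMj hFj hQj s hs t ht
  have hs1 : |s| ≤ 1 := abs_le.2 ⟨by linarith [hs.1], hs.2⟩
  have hb25 : bb6' ≤ 2 / 5 * NUP1.l := by
    rw [hb6']
    linarith
  have hKj := Kj_pos (1 / 100) j
  have hdj := dj_pos (1 / 100) e1 (189 / 100) j
  exact W (hFj s hs t) le_rfl (hc j s hs1).1 par6_good (by norm_num [par6])
    (fun r O u y => LPo_line6 _ r O u y) (h0T_fam hb25 t).1
    (h0T_fam hb25 t).2 (hl_fibN6 (hFj s hs t) rfl) (hQj s hs t ht) hKj.le hdj.le (hMj s hs t ht)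
    (by rw [hb6']; linarith) le_rfl (K j) (th j) (dp j)
    ((mul_le_mul_of_nonneg_right hCm hKj.le).trans (hK j))
    (by
      rw [thX_zero6, ← mul_assoc]
      exact hth j)
    ((mul_le_mul_of_nonneg_right hCm hdj.le).trans (hdp j))

end PBLX.PLX

end
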