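import Pool.Agent.PHK.WPlusS6
import Pool.Agent.PLX.PB.WPlus

/-!
# (P): the second Ward identity of neutral test functions, plus channel

* **`wplus6`**: `PBE.WPl` for every neutral test function, from the fibres, the bounds of the moments and the
  second moment of the remainder `Qp`, with constants which do not depend on the number of rows.
-/

set_option autoImplicit false
set_option linter.unusedSectionVars false

noncomputable section

open Complex MeasureTheory Finset Filter Topology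
open scoped ENNReal
open PLX (Fil)

namespace PBWP.PLX

open NUO NUP1 NUCR NUP1S NUP1S.Ab NUP1S.AbC NUGC NUGC.PLX PBFunc PBFunc.PLX PBF PBF.PLX PHK

variable [Fil]

section plus

open PBE PBE.PLX
open Pool.Agent.PB (rl MeanDat mV CV)

variable {N : ℕ} {Z : ℕ → Bool → Option O3 → ℂ → ℂ} {P : ℕ → Par6} {η η' : ℕ → Crs}
  {c : ℕ → ℂ} {ρ : ℂ → ℂ}

/-- **neutral test functions, plus channel** -/
theorem wplus6 {y₁ y₂ a κ κ₁ κ₂ b b' Y₁ Y₂ CQ CP : ℝ} (ha : 1 / 2 ≤ a) (ha2 : a < 2)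
    (hκ2 : 0 ≤ κ₂) (hκ12 : κ₂ < κ₁) (hκ1 : κ₁ ≤ κ) (hκ : κ < a) (hκh : 1 / 2 ≤ κ)
    (hb' : 0 < b') (hb : b' < b) (hb1 : y₁ < -b) (hb2 : b < y₂) (hY1 : -b' ≤ Y₁)
    (hY2 : Y₂ ≤ b') (hCQ : 0 ≤ CQ) (hCP : 0 ≤ CP) :
    ∃ C : ℝ, 0 ≤ C ∧ ∀ {N : ℕ} {Z : ℕ → Bool → Option O3 → ℂ → ℂ} {P : ℕ → Par6}
      {η η' : ℕ → Crs} {c : ℕ → ℂ} {δ b0 : ℝ} {κf : ℕ → ℝ} {LZ : ℕ → Bool → ℂ → ℂ}
      {LP : (r : ℕ) → (Fin r → Xo) → Bool → ℂ → ℂ} {ρ : ℂ → ℂ} {c0 Nr : ℝ} {h0 : ℂ → ℂ}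
      {cut : Bool → ℂ → ℂ} {mf mf' D0 : ℝ → ℂ} {B : ℝ} {mp mm : ℂ} {M0 K q dp : ℝ}
      (_ : FibN6 N Z P η η' δ 0 b0 b' κf LZ (fun _ => LP) ρ) (_ : SeaL b c0 Nr ρ)
      (_ : MeanDat mf mf' D0 (rl h0) B mp mm) (_ : TC y₁ y₂ a M0 h0)
      (_ : ∀ n ≤ N, ∀ r O s (t : ℝ), I * LZ n s (NUP1.l + I * zy 0 (Fil.cv s (η n r O)) t) -
        PB.kp2 ρ s (zy 0 (Fil.cv s (η n r O)) t) =
        h0 (zy 0 (Fil.cv s (η n r O)) t) + cut s (zy 0 (Fil.cv s (η n r O)) t))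
      (_ : ∀ r O s, ∃ B : ℝ, ∀ t : ℝ, ‖obF LP r O s t‖ ≤ B)
      (_ : ∀ M β, 0 ≤ M → TC (-b) b κ M β → ∀ r O a b x, ‖Pp LP (fun _ => β) r O a b x‖ ≤
        CP * M * ∑ i : Fin r, Real.exp (-(q * |ht (O i)|)))
      (_ : ∀ M β e, 0 ≤ M → TC (-b) b κ M β →
        TC (-b') b' κ₂ (thX c0 Nr (κ - κ₁) 0 * M) e →
        M2 (mN6 N) (wN6 Z P N η η' c) K (evN6 fun n => Qp (η n) ρ (ib fun _ => XS ρ 0 β)
          (fun _ => e) (fun _ => h0) cut LP) (CQ * (thX c0 Nr (κ - κ₁) 0 * M)))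
      (_ : 0 ≤ K) (_ : 0 ≤ dp) (_ : PBU.PLX.MBd6 N Z P η η' c ρ Y₁ Y₂ K q dp),
      ∀ M g, TC y₁ y₂ a M g → mass g = 0 → ∃ (D : (ℂ → ℂ) → CfN6 N → ℂ) (Q P' : CfN6 N → ℂ),
        WPl y₁ y₂ a (mN6 N) (wN6 Z P N η η' c) K (C * thX c0 Nr (κ - κ₁) 0) (C * dp) M
          (fun h => evN6 fun n => Vy 0 (η n) ρ fun _ => h) g (mV mf g) (CV g) D Q P' := by
  have hb0 : 0 < b := hb'.trans hb
  have h1 : y₁ < 0 := by linarith
  have h2 : 0 < y₂ := by linarith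
  have ha0 : 0 ≤ a := by linarith
  have hκ10 : 0 < κ₁ := by linarith
  have hκ0 : 0 < κ := by linarith
  obtain ⟨C1, hC1, H⟩ := fldx_plus (y₁ := y₁) (y₂ := y₂) (by linarith : a < 8 / 3) hκ2 hκ12 hκ1
    hκ (by linarith : κ₁ < 2) hb' hb hb1 hb2
  obtain ⟨r0, hr0⟩ : ∃ r0 : ℝ, r0 = min (-b - y₁) (y₂ - b) := ⟨_, rfl⟩
  have hr : 0 < r0 := by
    rw [hr0]
    exact lt_min (by linarith) (by linarith)
  have hr1 : y₁ + r0 ≤ -b := by
    have := min_le_left (-b - y₁) (y₂ - b)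
    linarith
  have hr2 : b ≤ y₂ - r0 := by
    have := min_le_right (-b - y₁) (y₂ - b)
    linarith
  obtain ⟨E, hE⟩ : ∃ E : ℝ, E = Real.exp (a * r0) / r0 := ⟨_, rfl⟩
  have hE0 : 0 ≤ E := by rw [hE]; positivity
  refine ⟨C1 * (CQ + CP + E * (1 + 4 / κ₁)), by positivity, ?_⟩
  intro N Z P η η' c δ b0 κf LZ LP ρ c0 Nr h0 cut mf mf' D0 B mp mm M0 K q dp hF hρ hm hh0 hl hLb
    hP hQ hK hdp hM M g hg hmg
  have hM0 : 0 ≤ M := hg.nonneg h1 h2
  obtain ⟨β, tβ, rβ, H2⟩ := H M g hg hmg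
  obtain ⟨tX, fX, e, te, re⟩ := H2 c0 Nr ρ hρ 0
  set ν := thX c0 Nr (κ - κ₁) 0 with hν
  have hν0 : 0 ≤ ν := thX_nonneg hρ.Np
  set X := XS ρ 0 β with hX
  simp only [ofReal_zero, sub_zero] at fX re
  -- derivatives of test functions on the real line
  have hder : ∀ M' h, TC y₁ y₂ a M' h → (Continuous fun t : ℝ => deriv h t) ∧
      ∀ t : ℝ, ‖deriv h t‖ ≤ M' * E := by
    intro M' h hh
    have hM' := hh.nonneg h1 h2
    have hd := Pool.Agent.PB.TC_derivTC hh ha0 hM' hr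
    refine ⟨Pool.Agent.PB.TC_cont hd (by linarith) (by linarith), fun t => ?_⟩
    have := TC.bdR hd (by linarith) (by linarith) ha0 t
    rw [hE]
    rwa [mul_div_assoc] at this
  have hobm : ∀ r O s, AEStronglyMeasurable (fun t : ℝ => obF LP r O s t) volume := fun r O s =>
    ((meas_obF (hF.mP 0 (Nat.zero_le N)) r s).comp
      (measurable_const.prodMk Complex.measurable_ofReal)).aestronglyMeasurable
  have h0c := Pool.Agent.PB.TC_cont hh0 h1 h2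
  have h0b := TC.bdR hh0 h1 h2 ha0
  have hmul : PB.mulF2 ρ (ib fun _ => X) = PB.mulF ρ fun _ => X := by
    funext s z
    unfold PB.mulF2 PB.mulF
    rw [ib_dens]
  -- the data of the field
  have w : FdW N η b' LZ (fun _ => LP) ρ (fun _ => β) (ib fun _ => X) (fun _ => g) (fun _ => e)
      (fun _ => h0) cut :=
  { fX := FldF.ib (X := fun _ => X) ⟨fun t z hz => fX.d t z (hz.trans hb), by
      obtain ⟨B, hB, h3⟩ := fX.bd
      exact ⟨B, hB, fun t z hz => h3 t z (hz.trans hb)⟩⟩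
    rs := fun s z hz => (re z hz s).symm.trans (by rw [hmul])
    gd := fun s z hz => TC.dAt' hg (by linarith) (by linarith) hz
    ed := fun s z hz => TC.dAt' te le_rfl le_rfl hz
    ig := fun s => int_rho hF.sea hF.b1p (fun z hz => TC.dAt' hg (by linarith) (by linarith) hz)
      (TC.bdR hg h1 h2 ha0)
    ie := fun s => int_rho hF.sea hF.b1p (fun z hz => TC.dAt' te le_rfl le_rfl hz)
      (TC.bdR te (by linarith) hb' hκ2)
    mβ := fun s => (Pool.Agent.PB.TC_cont tβ (by linarith) hb0).measurable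
    hβ := fun s t => by
      have h3 := XS_mul (β := β) hρ 0 (z := (t : ℂ)) (by simpa using hb0)
      simp only [ofReal_zero, add_zero] at h3
      rw [ib_dens', b_ib, mul_comm]
      exact h3
    hl := hl
    i1 := fun s => int_mul_bdd tβ hb0 hκ0 h0c.aestronglyMeasurable h0b
    i2 := fun s => ib_int (X := fun _ => X) s (int_mul_bdd tX hb0 hκ10 h0c.aestronglyMeasurable h0b)
    i3 := fun n hn r O s => by
      obtain ⟨B, hB⟩ := hLb r O s
      exact int_mul_bdd tβ hb0 hκ0 (hobm r O s) hB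
    i4 := fun n hn r O s => by
      obtain ⟨B, hB⟩ := hLb r O s
      exact ib_int (X := fun _ => X) s (int_mul_bdd tX hb0 hκ10 (hobm r O s) hB) }
  have hrβ : ∀ t : ℝ, PB.rsp (fun _ => β) true t = g t := fun t =>
    rβ t (by simpa using hb0) true
  have em : mB (fun _ => β) (fun _ => h0) = mV mf g := by
    rw [← (Pool.Agent.PB.dictR_m hm tβ hκh hb0 hh0 (by linarith) h1 h2 hrβ).2]
    unfold mB
    rw [Fintype.sum_bool]
    ring
  have hCM : 0 ≤ C1 * M := mul_nonneg hC1 hM0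
  have hνCM : 0 ≤ ν * (C1 * M) := mul_nonneg hν0 hCM
  have eC : ∀ M' h, TC y₁ y₂ a M' h → ∑ s : Bool, ∫ u : ℝ, (Fil.b s : ℂ) * ρ u *
      (ib (fun _ => X) s u * deriv h u) = CV g h + -2 * ∫ u : ℝ, X u * deriv h u := by
    intro M' h hh
    have e0 : ∑ s : Bool, ∫ u : ℝ, (Fil.b s : ℂ) * ρ u * (ib (fun _ => X) s u * deriv h u) =
        ∑ _s : Bool, ∫ u : ℝ, ρ u * (X u * deriv h u) := by
      refine Finset.sum_congr rfl fun s _ => integral_congr_ae (Eventually.of_forall fun u => ?_)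
      simp only []
      rw [← mul_assoc, ib_dens', mul_assoc]
    rw [e0]
    have h3 := sumD_plus hρ hb0 tβ hCM hκ10 hκ1 (by linarith) 0 (hder M' h hh).1 (hder M' h hh).2
    simp only [ofReal_zero, sub_zero] at h3
    rw [h3, (Pool.Agent.PB.dictR_C tβ hκh hb0 hh ha hb0 hb1 hb2 hrβ).2]
    ring
  -- moments
  have hw : AEStronglyMeasurable (wN6 Z P N η η' c) (mN6 N) :=
    (wN_meas6 hF.mZ).aestronglyMeasurable
  have hmV : ∀ {f : Bool → ℂ → ℂ}, (∀ s (z : ℂ), |z.im| < b' → DifferentiableAt ℂ (f s) z) →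
      AEStronglyMeasurable (evN6 fun n => Vy 0 (η n) ρ f) (mN6 N) := fun hd =>
    (evN_meas6 fun n hn => MIn.vy (hF.mc n hn) (hF.hs n hn) hF.b01 ρ hd).aestronglyMeasurable
  have dV : ∀ {M' : ℝ} {h : ℂ → ℂ}, TC y₁ y₂ a M' h → ∀ (_ : Bool) (z : ℂ), |z.im| < b' →
      DifferentiableAt ℂ h z := fun hh _ z hz => TC.dAt' hh (by linarith) (by linarith) hz
  have mV' : ∀ {M' : ℝ} {h : ℂ → ℂ}, TC y₁ y₂ a M' h →
      M2 (mN6 N) (wN6 Z P N η η' c) K (evN6 fun n => Vy 0 (η n) ρ fun _ => h) M' := fun hh =>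
    M2_vy6 hM hF.mc hF.hs hF.b01 (hh.nonneg h1 h2)
      (fun _ => BC_of hh ha0 (hh.nonneg h1 h2) (by linarith) (by linarith)) (dV hh)
  have dE : ∀ (_ : Bool) (z : ℂ), |z.im| < b' → DifferentiableAt ℂ e z :=
    fun _ z hz => TC.dAt' te le_rfl le_rfl hz
  have mE : M2 (mN6 N) (wN6 Z P N η η' c) K (evN6 fun n => Vy 0 (η n) ρ fun _ => e)
      (ν * (C1 * M)) :=
    M2_vy6 hM hF.mc hF.hs hF.b01 hνCM (fun _ => BC_of te hκ2 hνCM hY1 hY2) dE
  have dX0 : ∀ {M' : ℝ} {h : ℂ → ℂ}, TC y₁ y₂ a M' h → ∀ (z : ℂ), |z.im| < b' →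
      DifferentiableAt ℂ (fun z => X z * deriv h z) z := fun hh z hz =>
    TC.dAt' (XD_TC tX hνCM hh ha0 (hh.nonneg h1 h2) hr hr1 hr2) (by linarith) hb.le hz
  have eI : ∀ (h : ℂ → ℂ) (s : Bool), (fun z => ib (fun _ => X) s z * deriv h z) =
      ib (fun _ z => X z * deriv h z) s := fun h s => by
    funext z
    exact mul_assoc _ _ _
  have dX : ∀ {M' : ℝ} {h : ℂ → ℂ}, TC y₁ y₂ a M' h → ∀ (s : Bool) (z : ℂ), |z.im| < b' →
      DifferentiableAt ℂ (fun z => ib (fun _ => X) s z * deriv h z) z := fun {M' h} hh s z hz => by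
    rw [eI h s]
    exact (dX0 hh z hz).const_mul _
  have mX : ∀ {M' : ℝ} {h : ℂ → ℂ}, TC y₁ y₂ a M' h →
      M2 (mN6 N) (wN6 Z P N η η' c) K (evN6 fun n => Vy 0 (η n) ρ fun s z => ib (fun _ => X) s z * deriv h z)
        (ν * (C1 * M) * (M' * E)) := fun {M' h} hh => by
    have hM' := hh.nonneg h1 h2
    have h3 := XD_TC tX hνCM hh ha0 hM' hr hr1 hr2
    have e1 : M' * Real.exp (a * r0) / r0 = M' * E := by rw [hE, mul_div_assoc]
    rw [e1] at h3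
    refine M2_vy6 hM hF.mc hF.hs hF.b01 (by (clear * - ν hν0 hC1 hM0 hM' hE0; positivity)) (fun s => ?_) (dX hh)
    rw [eI h s]
    exact BC_of (TC.ib (X := fun _ z => X z * deriv h z) s h3) (by linarith) (by (clear * - ν hν0 hC1 hM0 hM' hE0; positivity))
      (by linarith) (by linarith)
  have m1 : M2 (mN6 N) (wN6 Z P N η η' c) K (fun _ => 1) 1 := M2_one6 hM
  have mQ := hQ (C1 * M) β e hCM tβ te
  have sQ : AEStronglyMeasurable (evN6 fun n => Qp (η n) ρ (ib fun _ => X) (fun _ => e)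
      (fun _ => h0) cut LP) (mN6 N) := (evN_meas6 fun n hn => w.mQ6 hF hn).aestronglyMeasurable
  have sP : AEStronglyMeasurable (evN6 fun _ => Pp LP fun _ => β) (mN6 N) :=
    (evN_meas6 fun n hn => w.mP6 hF hn).aestronglyMeasurable
  have lP : L1 (mN6 N) (wN6 Z P N η η' c) (evN6 fun _ => Pp LP fun _ => β)
      (CP * (C1 * M) * dp) :=
    L1_pin6 hM (by (clear * - hCP hC1 hM0; positivity)) fun _ r O a b x => hP (C1 * M) β hCM tβ r O a b x
  have lPV : ∀ {M' : ℝ} {h : ℂ → ℂ}, TC y₁ y₂ a M' h → L1 (mN6 N) (wN6 Z P N η η' c)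
      (fun ω => evN6 (fun _ => Pp LP fun _ => β) ω * evN6 (fun n => Vy 0 (η n) ρ fun _ => h) ω)
      (CP * (C1 * M) * (M' * dp)) := fun hh =>
    L1_pinv6 hM hF.mc hF.hs hF.b01 (hh.nonneg h1 h2)
      (fun _ => BC_of hh ha0 (hh.nonneg h1 h2) (by linarith) (by linarith)) (dV hh)
      (by (clear * - hCP hC1 hM0; positivity)) fun _ r O a b x => hP (C1 * M) β hCM tβ r O a b x
  have hCQ' : 0 ≤ CQ * (ν * (C1 * M)) := mul_nonneg hCQ hνCM
  -- integrability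
  have w1 : WI (mN6 N) (wN6 Z P N η η' c) fun _ => 1 :=
    (m1.l1 zero_le_one hK hw aestronglyMeasurable_const m1).wi hw aestronglyMeasurable_const
  have wV : ∀ {M' : ℝ} {h : ℂ → ℂ}, TC y₁ y₂ a M' h →
      WI (mN6 N) (wN6 Z P N η η' c) (evN6 fun n => Vy 0 (η n) ρ fun _ => h) := fun hh =>
    ((mV' hh).l1 (hh.nonneg h1 h2) hK hw (hmV (dV hh)) m1).wi hw (hmV (dV hh))
  have wQP : WI (mN6 N) (wN6 Z P N η η' c) fun ω => evN6 (fun n => Qp (η n) ρ (ib fun _ => X)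
      (fun _ => e) (fun _ => h0) cut LP) ω + evN6 (fun _ => Pp LP fun _ => β) ω :=
    ((mQ.l1 hCQ' hK hw sQ m1).wi hw sQ).add (lP.wi hw sP)
  refine ⟨fun h ω => evN6 (fun n => Vy 0 (η n) ρ fun s z => ib (fun _ => X) s z * deriv h z) ω +
    -2 * ∫ u : ℝ, X u * deriv h u, _, _, ?_, ?_, sQ, sP, ?_, ?_, ?_, ?_, ?_⟩
  · -- insertion 1
    have key := ward_pc_one6 (c := c) hF w (wV hg)
      ((mE.l1 hνCM hK hw (hmV dE) m1).wi hw (hmV dE)) wQP w1
    rw [em] at key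
    exact key
  · -- insertion V h
    intro M' h hh
    have hM' := hh.nonneg h1 h2
    have fh : PB.FldF b' fun _ : Bool => h := ⟨dV hh, M', hM', fun _ z hz => by
      obtain ⟨h3, h4⟩ := abs_lt.1 hz
      exact (PBU.PLX.BC.of_TC hh ha0 hM').bd z ⟨by (clear * - hb hb1 h3; linarith), by (clear * - hb hb2 h4; linarith)⟩⟩
    have mh := mV' hh
    have key := ward_pc_vh6 (c := c) hF w fh
      (((mV' hg).mul' hM0 hM' hK hw (hmV (dV hg)) mh).wi hw ((hmV (dV hg)).mul (hmV (dV hh))))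
      ((mE.mul' hνCM hM' hK hw (hmV dE) mh).wi hw ((hmV dE).mul (hmV (dV hh))))
      (by
        have e1 : (fun ω : CfN6 N => (evN6 (fun n => Qp (η n) ρ (ib fun _ => X) (fun _ => e)
            (fun _ => h0) cut LP) ω + evN6 (fun _ => Pp LP fun _ => β) ω) *
            evN6 (fun n => Vy 0 (η n) ρ fun _ => h) ω) = fun ω =>
            evN6 (fun n => Qp (η n) ρ (ib fun _ => X) (fun _ => e) (fun _ => h0) cut LP) ω *
              evN6 (fun n => Vy 0 (η n) ρ fun _ => h) ω +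
            evN6 (fun _ => Pp LP fun _ => β) ω * evN6 (fun n => Vy 0 (η n) ρ fun _ => h) ω := by
          funext ω
          ring
        rw [e1]
        exact ((mQ.mul' hCQ' hM' hK hw sQ mh).wi hw (sQ.mul (hmV (dV hh)))).add
          ((lPV hh).wi hw (sP.mul (hmV (dV hh)))))
      (wV hh) (((mX hh).l1 (by (clear * - ν hν0 hC1 hM0 hM' hE0; positivity)) hK hw (hmV (dX hh)) m1).wi hw (hmV (dX hh))) w1
    rw [em, eC M' h hh] at key
    rw [F_add (((mX hh).l1 (by (clear * - ν hν0 hC1 hM0 hM' hE0; positivity)) hK hw (hmV (dX hh)) m1).wi hw (hmV (dX hh)))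
      ((w1.smul (-2 * ∫ u : ℝ, X u * deriv h u)).congr (Eventually.of_forall fun ω => by
        simp only [mul_one]))]
    have e2 : F (mN6 N) (wN6 Z P N η η' c) (fun _ => -2 * ∫ u : ℝ, X u * deriv h u) =
        (-2 * ∫ u : ℝ, X u * deriv h u) * F (mN6 N) (wN6 Z P N η η' c) (fun _ => 1) := by
      rw [← F_smul]
      simp only [mul_one]
    rw [e2]
    linear_combination key
  · -- Q
    refine mQ.mono hCQ' ?_ le_rfl hK
    have h3 : 0 ≤ ν * (C1 * M) * (CP + E * (1 + 4 / κ₁)) := by (clear * - ν hν0 hC1 hM0 hCP hE0 hκ10; positivity)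
    clear * - ν h3
    linarith [h3]
  · -- P
    refine lP.mono ?_
    have h3 : 0 ≤ C1 * M * dp * (CQ + E * (1 + 4 / κ₁)) := by (clear * - hC1 hM0 hdp hCQ hE0 hκ10; positivity)
    linarith [h3]
  · -- D
    intro M' h hh
    exact (hmV (dX hh)).add aestronglyMeasurable_const
  · intro M' h hh
    have hM' := hh.nonneg h1 h2
    have hk : ‖-2 * ∫ u : ℝ, X u * deriv h u‖ ≤ 2 * (ν * (C1 * M) * (2 / κ₁) * (M' * E)) := by
      have h3 := int_XD_le tX hb0 hκ10 hνCM 0 (f := fun u : ℝ => deriv h u) (hder M' h hh).2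
      simp only [ofReal_zero, sub_zero] at h3
      rw [norm_mul]
      have h4 : ‖(-2 : ℂ)‖ = 2 := by simp
      rw [h4]
      linarith
    have h5 := PBWP.PLX.M2.add0 (by (clear * - ν hν0 hC1 hM0 hM' hE0; positivity)) (norm_nonneg _) hK hw (hmV (dX hh)) (mX hh)
      (M2_const6 hM (-2 * ∫ u : ℝ, X u * deriv h u))
    refine h5.mono (by (clear * - ν X hν0 hC1 hM0 hM' hE0; positivity)) ?_ le_rfl hK
    have h6 : 0 ≤ ν * (C1 * M) * M' * (CQ + CP) := by (clear * - ν hν0 hC1 hM0 hM' hCQ hCP; positivity)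
    calc _ ≤ ν * (C1 * M) * (M' * E) + 2 * (ν * (C1 * M) * (2 / κ₁) * (M' * E)) := by
          linarith
      _ = ν * (C1 * M) * M' * (E * (1 + 4 / κ₁)) := by ring
      _ ≤ _ := by linarith [h6]
  · intro M' h hh
    have hM' := hh.nonneg h1 h2
    refine (lPV hh).mono ?_
    have h3 : 0 ≤ C1 * M * M' * dp * (CQ + E * (1 + 4 / κ₁)) := by (clear * - hC1 hM0 hM' hdp hCQ hE0 hκ10; positivity)
    clear * - h3
    linarith [h3]

end plus

end PBWP.PLX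

end
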