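import Pool.Agent.PHK.HQf6
import Pool.Agent.PHK.WPlus6
import Pool.Agent.PHK.EMain6
import Pool.Agent.PHK.LevI6
import Pool.Agent.PB.EMain

/-!
# (P): level two, plus channel, at the family of the dislocated function

* `WPl.mono6`: larger sizes;
* **`levP6`**: `WPl` for every neutral test function at the family, `K = Kj ε j`,
  `θ = C (j+1)^{-(3/8)(κ - κ₁)}`, `δp = C dj ε e1 κ j`, constants independent of `j, s, t`.
-/

set_option autoImplicit false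
set_option linter.unusedSectionVars false

noncomputable section

open Complex MeasureTheory Finset Filter Topology

open PLX (Fil)

namespace PBWP.PLX

open NUO NUP1 NUCR NUP1S NUP1S.Ab NUP1S.AbC NUGC NUGC.PLX PBFunc PBFunc.PLX PBF PBF.PLX PBE PBE.PLX PBLX PBLX.PLX
open PBEI (y1 y26 rowS h0T mfL cL)
open Pool.Agent.PB (mV CV)
open PHK

attribute [local instance] NUSea.seaP

/-- larger sizes -/
theorem WPl.mono6 {Ω : Type*} [MeasurableSpace Ω] {μ : Measure Ω}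
    {y₁ y₂ a K K' θ δp M θ' δp' : ℝ}
    {w : Ω → ℂ} {V : (ℂ → ℂ) → Ω → ℂ} {g : ℂ → ℂ} {m : ℂ} {C : (ℂ → ℂ) → ℂ}
    {D : (ℂ → ℂ) → Ω → ℂ} {Q P : Ω → ℂ} (h : WPl y₁ y₂ a μ w K θ δp M V g m C D Q P)
    (h1 : y₁ < 0) (h2 : 0 < y₂) (hM : 0 ≤ M) (hK : 0 ≤ K) (hK' : K ≤ K') (hθ : 0 ≤ θ)
    (hθ' : θ ≤ θ') (hδ : δp ≤ δp') : WPl y₁ y₂ a μ w K' θ' δp' M V g m C D Q P where
  one := h.one
  two := h.two
  mQ := h.mQ
  mP := h.mP
  q2 := h.q2.mono (mul_nonneg hM hθ) (mul_le_mul_of_nonneg_left hθ' hM) hK' hK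
  p1 := h.p1.mono (mul_le_mul_of_nonneg_left hδ hM)
  mD := h.mD
  d2 M' k hk := (h.d2 M' k hk).mono (mul_nonneg (mul_nonneg hM (hk.nonneg h1 h2)) hθ)
    (mul_le_mul_of_nonneg_left hθ' (mul_nonneg hM (hk.nonneg h1 h2))) hK' hK
  p2 M' k hk := (h.p2 M' k hk).mono
    (mul_le_mul_of_nonneg_left hδ (mul_nonneg hM (hk.nonneg h1 h2)))

variable [Fil]

/-- **level two, plus channel, at the family** -/
theorem levP6 [MomS6] {ε : ℝ} (hε : 0 < ε) :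
    ∃ a0 : ℝ, 0 < a0 ∧ ∀ ep e1 J : ℝ, SmallP a0 ep e1 J → ∃ C : ℝ, 0 ≤ C ∧
      ∀ᶠ j : ℕ in atTop, ∀ s ∈ Set.Icc (0 : ℝ) 1, ∀ t ∈ Set.Icc (0 : ℝ) 1,
        ∀ (M : ℝ) (g : ℂ → ℂ), TC y1 y26 (19 / 10) M g → mass g = 0 →
          ∃ (D : (ℂ → ℂ) → CfN6 (2 * (j + 1)) → ℂ) (Q P : CfN6 (2 * (j + 1)) → ℂ),
            WPl y1 y26 (19 / 10) (mN6 (2 * (j + 1))) (wS6 ep e1 J j s t) (Kj ε j)
              (C * ((j : ℝ) + 1) ^ (-(3 / 8 * (189 / 100 - 1 / 100) : ℝ)))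
              (C * dj ε e1 (189 / 100) j) M
              (fun h => evN6 fun n => Vy 0 (eC e1 J j n) (rhS j s) fun _ => h) g
              (mV (mfL t) g) (CV g) D Q P := by
  have hl := Bd.l_pos
  have hlM : (NUMF.l : ℝ) = NUP1.l := rfl
  have hl1 : NUP1.l < 1 := by
    unfold NUP1.l
    linarith [Real.pi_lt_d2]
  have hl3 : 3 / 8 < NUP1.l := by
    unfold NUP1.l
    linarith [Real.pi_gt_three]
  have hy1 : y1 = -(NUP1.l / 10) := rfl
  have hy2 : y26 = 351 / 400 * NUP1.l := rfl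
  have hb6 : bb6 = 19 / 2000 * NUP1.l := rfl
  have hb6' : bb6' = 9 / 1000 * NUP1.l := rfl
  obtain ⟨c0, hc0, hc⟩ := seaL_rhS (b := bb6) bb6_pos.le (by rw [hb6]; linarith)
  obtain ⟨a1, ha1, H1⟩ := hQ_plus6 hε (c0 := c0) fun j s hs => (hc j s hs).1
  obtain ⟨a2, ha2, H2⟩ := mbdS6 (q := 189 / 100) (by norm_num) (by norm_num) hε
  refine ⟨min a1 a2, lt_min ha1 ha2, fun ep e1 J hp => ?_⟩
  have hep0 := hp.ep0
  have hep1 := hp.ep1
  obtain ⟨CQ, hCQ, H3⟩ := H1 ep e1 J (hp.mono (min_le_left _ _))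
  have hCP : 0 ≤ PBOR.PLX.CK6 (189 / 100) := PBOR.PLX.CK6_nonneg (by norm_num) (by norm_num)
  obtain ⟨C1, hC1, H4⟩ := wplus6 (y₁ := y1) (y₂ := y26) (a := 19 / 10) (κ := 189 / 100)
    (κ₁ := 1 / 100) (κ₂ := 1 / 200) (b := bb6) (b' := bb6') (Y₁ := -(ep / 4)) (Y₂ := bb6')
    (CQ := CQ) (CP := PBOR.PLX.CK6 (189 / 100)) (by norm_num) (by norm_num) (by norm_num)
    (by norm_num) (by norm_num) (by norm_num) (by norm_num) bb6'_pos bb6'_lt
    (by rw [hy1, hb6]; linarith) (by rw [hy2, hb6]; linarith)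
    (by rw [hb6']; linarith) le_rfl hCQ hCP
  obtain ⟨B, hB, hmd⟩ := PBEI.meanDat
  refine ⟨C1 * max 1 (max 1 c0⁻¹), by positivity, ?_⟩
  have hb0 : ep * NUP1.l / 4 < bb6' := by rw [hb6']; nlinarith
  filter_upwards [H3, H2 ep e1 J (hp.mono (min_le_right _ _)) (-(ep / 4)) bb6' (by linarith)
      bb6'_pos, fib_S6 hep0 hep1 hp.e0 hp.e1' hp.J0 hb0 (by rw [hb6']; linarith)]
    with j h3 h2 h1 s hs t ht M g hg hmg
  have hs1 : |s| ≤ 1 := abs_le.2 ⟨by linarith [hs.1], hs.2⟩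
  have ht1 : |t| ≤ 1 := abs_le.2 ⟨by linarith [ht.1], ht.2⟩
  have hM0 : 0 ≤ M := hg.nonneg (by rw [hy1]; linarith) (by rw [hy2]; linarith)
  have hF := h1 s hs t
  have hρ := (hc j s hs1).1
  have hth : 0 ≤ thS c0 j := thX_nonneg hρ.Np
  obtain ⟨D, Q, P, h5⟩ := H4 (c := cF j s t) hF hρ (hmd t ht1)
    (PBEI.h0_TC6 (by norm_num : (0 : ℝ) ≤ 19 / 10) (by norm_num) t)
    (cut := fun u => cutJ ep u j s) (fun n hn r O u y => hl_fibN6 hF rfl n hn r O u y)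
    (fun r O u => obF_line6 r O u)
    (fun M β hM hβ r O a b x => Pp_le_plus6 par6_good (by norm_num [par6]) O hβ bb6_pos (by norm_num)
      (by norm_num) le_rfl hM a b x)
    (h3 s hs t ht) (Kj_pos ε j).le (dj_pos ε e1 (189 / 100) j).le (h2 s hs t ht) M g hg hmg
  refine ⟨D, Q, P, WPl.mono6 h5 (by rw [hy1]; linarith) (by rw [hy2]; linarith) hM0
    (Kj_pos ε j).le le_rfl (mul_nonneg hC1 hth) ?_ ?_⟩
  · have e : thX c0 ((j + 1 : ℕ) : ℝ) (189 / 100 - 1 / 100) 0 =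
        max 1 c0⁻¹ * ((j : ℝ) + 1) ^ (-(3 / 8 * (189 / 100 - 1 / 100) : ℝ)) := by
      unfold thX
      rw [abs_zero, mul_zero, Real.exp_zero, mul_one]
      push_cast
      rfl
    rw [e, ← mul_assoc]
    refine mul_le_mul_of_nonneg_right ?_ (by positivity)
    exact mul_le_mul_of_nonneg_left (le_max_right _ _) hC1
  · refine mul_le_mul_of_nonneg_right ?_ (dj_pos ε e1 (189 / 100) j).le
    exact le_mul_of_one_le_right hC1 (le_max_left _ _)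

end PBWP.PLX

end
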