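import Pool.Agent.PLX.PB.LevX
import Pool.Agent.PHK.LevH06
import Pool.Agent.PHK.LevG6
import Pool.Agent.PHK.FibL6
import Pool.Agent.PHK.EMain6

/-!
# (P): the data of level two at the family

(P) twin of `PLX/PB/LevX`. The sizes `sz_th`, `sz_dp` and the density `rhS_bd`, `rho0_eq`, `rh0` are the
landed ones.

* `bas_fx6`: measurability of the fibres of the family;
* `WpS6`, `WmS6`: the second Ward identities; **`levX6`**: `PBEM.LevD` at the family for large `j`, all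
  `s`, `t` in `[0, 1]`.
-/

set_option autoImplicit false
set_option linter.unusedSectionVars false

noncomputable section

open Complex MeasureTheory Filter Topology Set
open scoped ENNReal

open PLX (Fil)

namespace PBLX.PLX

open NUO NUP1S NUP1S.Ab NUP1S.AbC NUGC NUGC.PLX PBF PBF.PLX PBFunc PBFunc.PLX PBU PBU.PLX PBWP PBWP.PLX
open NUP1 hiding Kd
open PBEI (rowS rowS_zero rowS_ne rowS_ok)
open PBE (TC mass)
open PHK

attribute [local instance] NUSea.seaP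

variable [Fil]

/-- **the fibres of the family** -/
theorem bas_fx6 {a0 ep e1 J : ℝ} (hp : SmallP a0 ep e1 J) {b' : ℝ} (hb : NUP1.l / 200 < b')
    (hb' : b' ≤ 9 / 1000 * NUP1.l) : ∀ᶠ j : ℕ in atTop, ∀ s ∈ Icc (0 : ℝ) 1, ∀ t ∈ Icc (0 : ℝ) 1,
      Bas6 (2 * (j + 1)) (fun _ => ZF6 ep j s t) par6 (eC e1 J j) (eC' e1 J j)
        (NUP1.l / 200) b' := by
  have hl := NUP1.Bd.l_pos
  obtain ⟨j0, H⟩ := PBFX.PLX.fibN6_fL hp.ep0 hp.ep1 hp.e0 hp.e1' hp.J0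
  obtain ⟨c0, -, hs0⟩ := seaL_rhS (b := b') (by linarith) (by linarith)
  filter_upwards [eventually_ge_atTop j0] with j hj s hs t ht
  have hF := H j hj s t (rhS j s) (NUP1.l / 200) b' (by nlinarith [hp.ep1]) hb (by linarith)
    (hs0 j s (abs_le.2 ⟨by linarith [hs.1], hs.2⟩)).2 (fun _ => 1) (fun _ => one_pos)
    (fun _ => by linarith [hp.ep1])
  exact
  { mc := hF.mc
    hs := hF.hs
    hb := hb
    hbl := by linarith
    mZ := hF.mZ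
    gP := par6_good }

/-! ### the assembly -/

open PBE (WPl WMi)
open PBEI (y1 y26 Apl6 Ami6 Bch6)
open PBV (wm)

/-- the identities of neutral test functions, plus channel -/
def WpS6 (a : ℝ) (mf : ℝ → ℝ → ℂ) (K th dp : ℕ → ℝ) (ep e1 J : ℝ) : Prop :=
  ∀ᶠ j : ℕ in atTop, ∀ s ∈ Icc (0 : ℝ) 1, ∀ t ∈ Icc (0 : ℝ) 1, ∀ M g, TC y1 y26 a M g →
    mass g = 0 → ∃ (D : (ℂ → ℂ) → CfN6 (2 * (j + 1)) → ℂ) (Q P : CfN6 (2 * (j + 1)) → ℂ),
      WPl y1 y26 a (mN6 (2 * (j + 1))) (wS6 ep e1 J j s t) (K j) (th j) (dp j) M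
        (fun h => evN6 fun n => Vy 0 (eC e1 J j n) (rhS j s) fun _ => h) g
        (Pool.Agent.PB.mV (mf t) g) (Pool.Agent.PB.CV g) D Q P

/-- the identities of test functions, minus channel -/
def WmS6 (a : ℝ) (K th dp : ℕ → ℝ) (ep e1 J : ℝ) : Prop :=
  ∀ᶠ j : ℕ in atTop, ∀ s ∈ Icc (0 : ℝ) 1, ∀ t ∈ Icc (0 : ℝ) 1,
    (∀ M g, TC y1 y26 a M g →
      ∃ (D : (ℂ → ℂ) → CfN6 (2 * (j + 1)) → ℂ) (Ds Q P : CfN6 (2 * (j + 1)) → ℂ),
      WMi y1 y26 a (mN6 (2 * (j + 1))) (wS6 ep e1 J j s t) (K j) (th j) (dp j) M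
        (Vm6 (fun u : ℝ => rhS j s u) (eC e1 J j))
        (SN6 (fun u : ℝ => rhS j s u) par6 (eC e1 J j))
        (Vm6 (fun u : ℝ => rhS j s u) (eC e1 J j) g)
        (Pool.Agent.PB.CmV g) (Pool.Agent.PB.CsV PBEI.sg' g) D Ds Q P) ∧
    ∃ (C : (ℂ → ℂ) → ℂ) (D : (ℂ → ℂ) → CfN6 (2 * (j + 1)) → ℂ)
      (Ds Q P : CfN6 (2 * (j + 1)) → ℂ),
      WMi y1 y26 a (mN6 (2 * (j + 1))) (wS6 ep e1 J j s t) (K j) (th j) (dp j) 1
        (Vm6 (fun u : ℝ => rhS j s u) (eC e1 J j))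
        (SN6 (fun u : ℝ => rhS j s u) par6 (eC e1 J j))
        (SN6 (fun u : ℝ => rhS j s u) par6 (eC e1 J j)) C
        (Pool.Agent.PB.CssV PBEI.sg') D Ds Q P

theorem Vp_rh06 {N : ℕ} (η : ℕ → Crs) (j : ℕ) (s : ℝ) :
    (Vp6 (rh0 j s) η : (ℂ → ℂ) → CfN6 N → ℂ) =
      fun h => evN6 fun n => Vy 0 (η n) (rhS j s) fun _ => h := by
  funext h
  rw [show rh0 j s = fun u : ℝ => rhS j s u from (rho0_eq j s).symm, Vp_evN6]

/-- **the data of level two at the family** -/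
theorem levX6 {a0 ep e1 J a ε q A : ℝ} (hp : SmallP a0 ep e1 J) (ha : 0 < a) {mf : ℝ → ℝ → ℂ}
    {th dp : ℕ → ℝ} (hA : KS6 ≤ A) (hth : ∀ j, 0 ≤ th j) (hdp : ∀ j, 0 ≤ dp j)
    (hM : ∀ᶠ j : ℕ in atTop, ∀ s ∈ Icc (0 : ℝ) 1, ∀ t ∈ Icc (0 : ℝ) 1,
      MBd6 (2 * (j + 1)) (fun _ => ZF6 ep j s t) (pS6 j) (eC e1 J j) (eC' e1 J j) (cF j s t)
        (rhS j s) (-(ep / 4)) (9 / 1000 * NUP1.l) (Kj ε j) q (dj ε e1 q j))
    (hwp : WpS6 a mf (fun j => A * Kj ε j) th dp ep e1 J)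
    (hwm : WmS6 a (fun j => A * Kj ε j) th dp ep e1 J) :
    ∀ᶠ j : ℕ in atTop, ∀ s ∈ Icc (0 : ℝ) 1, ∀ t ∈ Icc (0 : ℝ) 1,
      PBEM.LevD y1 y26 a (mN6 (2 * (j + 1))) (wS6 ep e1 J j s t) (Vp6 (rh0 j s) (eC e1 J j))
        (Vm6 (rh0 j s) (eC e1 J j)) (SN6 (rh0 j s) par6 (eC e1 J j))
        (A * Kj ε j) (th j) (dp j) (mf t)
        PBEI.sg' wm (Apl6 (rowS j s) 0) (Ami6 (rowS j s) 0) Bch6 := by
  have hl := NUP1.Bd.l_pos
  have hlM : NUMF.l = NUP1.l := rfl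
  have hl1 : NUP1.l ≤ 1 := by
    unfold NUP1.l
    linarith [Real.pi_le_four]
  have hl3 : 3 / 8 ≤ NUP1.l := by
    unfold NUP1.l
    linarith [Real.pi_gt_three]
  have he := hp.ep0
  have he' := hp.ep1
  filter_upwards [hM, hwp, hwm, bas_fx6 hp (b' := 9 / 1000 * NUP1.l) (by linarith) le_rfl] with j h1 h2
    h3 h4 s hs t ht
  have hs1 : |s| ≤ 1 := abs_le.2 ⟨by linarith [hs.1], hs.2⟩
  obtain ⟨B, hB⟩ := rhS_bd j hs1
  obtain ⟨hm, hm'⟩ := h3 s hs t ht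
  have e0 : rh0 j s = fun u : ℝ => rhS j s u := (rho0_eq j s).symm
  have e1' : (Vp6 (fun u : ℝ => rhS j s u) (eC e1 J j) : (ℂ → ℂ) → CfN6 (2 * (j + 1)) → ℂ) =
      fun h => evN6 fun n => Vy 0 (eC e1 J j n) (rhS j s) fun _ => h := funext fun h => Vp_evN6 _ _ _
  have key := levD_of6 (h4 s hs t ht) (h1 s hs t ht) (y₁ := y1) (y₂ := y26) (a := a) (th := th j)
    (dp' := dp j) (K' := A * Kj ε j) (mf := mf t) (s' := PBEI.sg') (σ := wm)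
    (ap := Apl6 (rowS j s) 0) (am := Ami6 (rowS j s) 0) (bc := Bch6) (Bρ := B) ha PBEM.y1_neg
    (by unfold PBEI.y26; rw [hlM]; linarith) (by unfold PBEI.y1; rw [hlM]; linarith)
    (by unfold PBEI.y26; rw [hlM]; linarith)
    (by linarith) (by linarith) (by unfold PBEI.y1; rw [hlM]; linarith)
    (by unfold PBEI.y26; rw [hlM]; linarith) (Kj_pos ε j).le
    (mul_le_mul_of_nonneg_right hA (Kj_pos ε j).le) (hth j) (hdp j)
    (rhS_meas j hs1).aestronglyMeasurable hB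
    (by rw [e1']; exact h2 s hs t ht) hm hm'
    (PBEI.Apl_measurable6 _ _) (PBEI.Ami_measurable6 _ _)
    PBEI.Bch_measurable6
  rw [e0]
  exact key

end PBLX.PLX

end
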