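import Pool.Agent.PHK.LgDef
import Pool.Agent.PHK.LogD6

/-!
# (P): the class formula by choices from the term `TV6`

* `psV6_le`: the insertion is at most `2 ^ (number of the holes)`; `psV6_equiv`, `psV6_xo`,
  `measurable_psV6`;
* `TVu`, `TVu_ok`: the term of one choice; `int_TV6`: the choices one by one;
* **`clsV6_of`**: `ClsV6` from the sum over the numbers of objects of the integrals of `TV6`;
* `zPt_Zc6`: a class at fixed half quanta is the state sum of `Zc6`.
-/

set_option autoImplicit false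
set_option linter.unusedSectionVars false
set_option linter.unusedVariables false

noncomputable section

open Complex MeasureTheory Finset
open scoped ENNReal Nat

open PLX (Fil)

namespace PHK

open NUO NUP1 NUP1S NUP1S.Mg NURow NUCR NUP1.Leg NUGC.PLX PBR.PLX
open NUP1.Bd (wt qg Ob)
open PBF.PLX (Crs Ins)

/-! ### the insertion -/

section ins
variable {P : Par6} {ι : Type*} [Fintype ι]

/-- one minus the localiser is at most `1` -/
theorem gHI_sub_le (O : ι → Xo) (s : Bool) {h : ℂ}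
    (hh : |h.re - (1 - P.e) * NUMF.l| ≤ 2 / 3 * NUMF.l) : ‖1 - gHI P O s h‖ ≤ 1 := by
  unfold gHI
  rw [sub_sub_cancel, norm_prod]
  refine Finset.prod_le_one (fun i _ => norm_nonneg _) fun i _ => ?_
  split_ifs
  · refine norm_tau_le ?_
    rw [Complex.sub_re, posB_re6]
    exact hh
  · rw [norm_one]

theorem ps1_le (O : ι → Xo) (s H : Bool) (m : ℕ) {w : ℂ}
    (hw : H = true → |w.re - (1 - P.e) * NUMF.l| ≤ 2 / 3 * NUMF.l) : ‖ps1 P O s H m w‖ ≤ 1 := by
  unfold ps1
  by_cases h1 : (∑ i, hl6 s (O i)) + m ≤ ∑ i, sat6 s (O i)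
  · rw [if_pos h1]
    by_cases h2 : H = true ∧ (∑ i, hl6 s (O i)) + m + 1 ≤ ∑ i, sat6 s (O i)
    · rw [if_pos h2]
      exact gHI_sub_le O s (hw h2.1)
    · rw [if_neg h2, sub_zero, norm_one]
  · rw [if_neg h1, if_neg (fun h2 => h1 (by omega)), sub_zero, norm_zero]
    norm_num

/-- a factor of the insertion which does not vanish -/
theorem ps1_ne {O : ι → Xo} {s H : Bool} {m : ℕ} {w : ℂ} (h : ps1 P O s H m w ≠ 0) :
    (∑ i, hl6 s (O i)) + m ≤ ∑ i, sat6 s (O i) := by
  by_contra h1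
  refine h ?_
  unfold ps1
  rw [if_neg h1, if_neg (fun h2 => h1 (by omega)), sub_zero]

theorem ps1_equiv {ι ι' : Type*} [Fintype ι] [Fintype ι'] (e : ι ≃ ι') (O : ι' → Xo) (s H : Bool)
    (m : ℕ) (w : ℂ) : ps1 P (fun i => O (e i)) s H m w = ps1 P O s H m w := by
  unfold ps1
  rw [gHI_equiv, e.sum_comp fun i => hl6 s (O i), e.sum_comp fun i => sat6 s (O i)]

theorem ps1_xo (O : ι → Xo) (s H : Bool) (m : ℕ) (w : ℂ) :
    ps1 P O s H m w = ps1 P (fun i => xo (sp (O i), k6 (O i)) (ht (O i))) s H m w := by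
  unfold ps1
  rw [gHI_xo]
  have h1 : ∀ x : Xo, hl6 s (xo (sp x, k6 x) (ht x)) = hl6 s x := fun x =>
    hl6_congr (sp_xo _ _) (k6_xo _ _) (ht_xo _ _) s
  have h2 : ∀ x : Xo, sat6 s (xo (sp x, k6 x) (ht x)) = sat6 s x := fun x =>
    sat6_congr (sp_xo _ _) (k6_xo _ _) (ht_xo _ _) s
  simp only [h1, h2]

theorem measurable_ps1 {Y : Type*} [MeasurableSpace Y] (K : ι → Bool × Kd6) {t : ι → Y → ℝ}
    (ht' : ∀ i, Measurable (t i)) (s H : Bool) (m : ℕ) (w : ℂ) :
    Measurable fun y => ps1 P (fun i => xo (K i) (t i y)) s H m w := by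
  unfold ps1 hl6 sat6
  simp only [k6_xo, sp_xo]
  refine measurable_const.sub ?_
  split_ifs
  · exact measurable_gHI P K ht' _ measurable_const
  · exact measurable_const

variable {t t' : HT} {w w' : ℂ} {u : Ch6 × Ch6}

theorem psV6_equiv {ι ι' : Type*} [Fintype ι] [Fintype ι'] (e : ι ≃ ι') (O : ι' → Xo) :
    psV6 P t t' w w' u (fun i => O (e i)) = psV6 P t t' w w' u O := by
  unfold psV6
  rw [ps1_equiv, ps1_equiv, gHI_equiv]

theorem psV6_xo (O : ι → Xo) :
    psV6 P t t' w w' u O = psV6 P t t' w w' u fun i => xo (sp (O i), k6 (O i)) (ht (O i)) := by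
  unfold psV6
  rw [gHI_xo, ← ps1_xo O, ← ps1_xo O]

theorem measurable_psV6 {Y : Type*} [MeasurableSpace Y] (K : ι → Bool × Kd6) {τ : ι → Y → ℝ}
    (ht' : ∀ i, Measurable (τ i)) :
    Measurable fun y => psV6 P t t' w w' u (fun i => xo (K i) (τ i y)) := by
  unfold psV6
  refine ((measurable_ps1 K ht' _ _ _ _).mul (measurable_ps1 K ht' _ _ _ _)).mul (Measurable.mul ?_ ?_)
  · split_ifs
    · exact measurable_gHI P K ht' _ measurable_const
    · exact measurable_const
  · split_ifs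
    · exact measurable_gHI P K ht' _ measurable_const
    · exact measurable_const

/-- the place of a hole of a letter -/
theorem hx6_strip {t : HT} {v : Ch6} (h : okC6 t v) (h2 : v.2 = true) {w : ℂ} (hw : w.re = htL t) :
    |(hx6 t w).re - (1 - par6.e) * NUMF.l| ≤ 2 / 3 * NUMF.l := by
  have hl := NUMF.l_pos
  have hll : NUP1.l = NUMF.l := rfl
  have he : (1 : ℝ) - par6.e = 9 / 16 := by
    unfold par6
    norm_num
  rw [he]
  cases t
  · exact absurd (h.2 h2) (by simp)
  · exact absurd (h.2 h2) (by simp)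
  · have e : (hx6 .P w).re = 1 / 4 * NUMF.l := by
      unfold hx6
      simp only [if_true, add_re, mul_re, ofReal_re, ofReal_im]
      rw [hw]
      show -(11 / 4) * NUP1.l + _ = _
      rw [hll]
      norm_num
      ring
    rw [e, abs_le]
    constructor <;> linarith
  · have e : (hx6 .H w).re = 5 / 8 * NUMF.l := by
      unfold hx6
      rw [if_neg (by simp), hw]
      rfl
    rw [e, abs_le]
    constructor <;> linarith

/-- **the insertion of a choice is bounded** -/
theorem psV6_le (h : okC6 t u.1) (h' : okC6 t' u.2) (hw : w.re = htL t) (hw' : w'.re = htL t')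
    (O : ι → Xo) : ‖psV6 par6 t t' w w' u O‖ ≤ 2 ^ (u.1.2.toNat + u.2.2.toNat) := by
  have hl := NUMF.l_pos
  have he : (1 : ℝ) - par6.e = 9 / 16 := by
    unfold par6
    norm_num
  have key : ∀ (t : HT) (v : Ch6) (w : ℂ), w.re = htL t → (decide (t = .H) && !v.1) = true →
      |w.re - (1 - par6.e) * NUMF.l| ≤ 2 / 3 * NUMF.l := by
    intro t v w hw hH
    have ht : t = .H := by simpa using (Bool.and_eq_true_iff.1 hH).1
    subst ht
    have e : w.re = 5 / 8 * NUMF.l := hw
    rw [e, he, abs_le]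
    constructor <;> linarith
  unfold psV6
  rw [norm_mul, norm_mul, norm_mul]
  have a1 := ps1_le (P := par6) O true (decide (t = .H) && !u.1.1) u.2.2.toNat (key t u.1 w hw)
  have a2 := ps1_le (P := par6) O false (decide (t' = .H) && !u.2.1) u.1.2.toNat (key t' u.2 w' hw')
  have b1 : ‖(if u.1.2 = true then gHI par6 O false (hx6 t w) else 1)‖ ≤ 2 ^ u.1.2.toNat := by
    by_cases hc : u.1.2 = true
    · rw [if_pos hc, hc]
      simpa using gHI_le_two O false (hx6_strip h hc hw)
    · rw [if_neg hc, norm_one]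
      exact one_le_pow₀ (by norm_num)
  have b2 : ‖(if u.2.2 = true then gHI par6 O true (hx6 t' w') else 1)‖ ≤ 2 ^ u.2.2.toNat := by
    by_cases hc : u.2.2 = true
    · rw [if_pos hc, hc]
      simpa using gHI_le_two O true (hx6_strip h' hc hw')
    · rw [if_neg hc, norm_one]
      exact one_le_pow₀ (by norm_num)
  rw [pow_add]
  have h12 := mul_le_mul (mul_le_mul a1 a2 (norm_nonneg _) zero_le_one)
    (mul_le_mul b1 b2 (norm_nonneg _) (by positivity)) (by positivity) (by norm_num)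
  rw [one_mul, one_mul] at h12
  exact h12

/-- **conditions of the term of a choice which does not vanish** -/
theorem fI_psV_ne {Y : Bool → Option O3 → ℂ → ℂ} {y : ℝ} {N N' : ℕ} (hN : u.1.1.toNat ≤ N)
    (hN' : u.2.1.toNat ≤ N') {O : ι → Xo}
    (h : fI Y P y (N + u.2.2.toNat - u.1.1.toNat) (N' + u.1.2.toNat - u.2.1.toNat) O *
      psV6 P t t' w w' u O ≠ 0) :
    q3I O true ≤ N ∧ q3I O false ≤ N' ∧ Fintype.card ι ≤ 2 * (N + N') := by
  have h1 : fI Y P y (N + u.2.2.toNat - u.1.1.toNat) (N' + u.1.2.toNat - u.2.1.toNat) O ≠ 0 :=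
    left_ne_zero_of_mul h
  have h2 : psV6 P t t' w w' u O ≠ 0 := right_ne_zero_of_mul h
  have h3 : qI O true ≤ (N + u.2.2.toNat - u.1.1.toNat : ℕ) ∧
      qI O false ≤ (N' + u.1.2.toNat - u.2.1.toNat : ℕ) ∧ cntI O := by
    by_contra hc
    exact h1 (if_neg hc)
  have h4 := left_ne_zero_of_mul h2
  have b1 := ps1_ne (left_ne_zero_of_mul h4)
  have b2 := ps1_ne (right_ne_zero_of_mul h4)
  obtain ⟨a1, a2, a3⟩ := h3
  have c1 : q3I O true ≤ N := by
    unfold q3I
    omega
  have c2 : q3I O false ≤ N' := by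
    unfold q3I
    omega
  refine ⟨c1, c2, ?_⟩
  have h6 := card_q3I O a3
  omega

end ins

/-! ### one choice -/

section one
variable {P : Par6} {t t' : HT} {w w' : ℂ} {u : Ch6 × Ch6} {N N' : ℕ}

/-- the term of one choice -/
def TVu (Y : Bool → Option O3 → ℂ → ℂ) (P : Par6) (t t' : HT) (w w' : ℂ) (u : Ch6 × Ch6)
    (N N' : ℕ) : Trm :=
  fun _ _ O => fI Y P l (N + u.2.2.toNat - u.1.1.toNat) (N' + u.1.2.toNat - u.2.1.toNat) O *
    psV6 P t t' w w' u O

/-- integrability of the term of a choice over the heights -/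
def IntV (Y : Bool → Option O3 → ℂ → ℂ) (P : Par6) (u : Ch6 × Ch6) (N N' : ℕ) : Prop :=
  ∀ {ι : Type} [Fintype ι] (K : ι → Bool × Kd6), Integrable (fun t : ι → ℝ =>
    fI Y P l (N + u.2.2.toNat - u.1.1.toNat) (N' + u.1.2.toNat - u.2.1.toNat)
      fun i => xo (K i) (t i)) (Measure.pi fun _ => volume)

theorem TVu_ok {Y : Bool → Option O3 → ℂ → ℂ} (h : okC6 t u.1) (h' : okC6 t' u.2)
    (hw : w.re = htL t) (hw' : w'.re = htL t') (hN : u.1.1.toNat ≤ N) (hN' : u.2.1.toNat ≤ N')
    (hI : IntV Y par6 u N N') : TOk (TVu Y par6 t t' w w' u N N') (2 * (N + N')) N N' where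
  equiv e O := by
    unfold TVu
    rw [fI_equiv, psV6_equiv]
  xo O := by
    unfold TVu
    rw [fI_xo, psV6_xo]
  zero {ι} _ O hc := by
    unfold TVu
    by_contra hne
    exact absurd (fI_psV_ne hN hN' hne).2.2 (not_le.2 hc)
  int {ι} _ K := by
    unfold TVu
    refine (hI K).mul_bdd (c := 2 ^ (u.1.2.toNat + u.2.2.toNat)) ?_ ?_
    · exact (measurable_psV6 K fun i => measurable_pi_apply i).aestronglyMeasurable
    · exact Filter.Eventually.of_forall fun τ => psV6_le h h' hw hw' _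
  chg {ι} _ O hne := by
    have h1 := fI_psV_ne hN hN' hne
    exact ⟨h1.1, h1.2.1⟩

end one

/-- integrability of a term over the configurations -/
theorem TOk.integrable {T : Trm} {N0 n n' : ℕ} (h : TOk T N0 n n') (r : ℕ) :
    Integrable (fun O : Fin r → Xo => T (Fin r) O) (Measure.pi fun _ => nu) :=
  (integrable_nu6 (F := fun K τ => T (Fin r) fun i => PHK.xo (K i) (τ i)) fun K => h.int K).congr
    (Filter.Eventually.of_forall fun O => (h.xo O).symm)

/-- a sum over two ranges outside which the terms vanish -/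
theorem sum_range_two {g : ℕ → ℂ} {a b : ℕ} (ha : ∀ r, a < r → g r = 0) (hb : ∀ r, b < r → g r = 0) :
    ∑ r ∈ range (a + 1), g r = ∑ r ∈ range (b + 1), g r := by
  have key : ∀ c : ℕ, (∀ r, c < r → g r = 0) → c ≤ max a b →
      ∑ r ∈ range (c + 1), g r = ∑ r ∈ range (max a b + 1), g r := by
    intro c hc hcM
    refine Finset.sum_subset (fun r hr => ?_) fun r _ hr => ?_
    · rw [Finset.mem_range] at hr ⊢
      omega
    · rw [Finset.mem_range, not_lt] at hr
      exact hc r (by omega)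
  rw [key a ha (le_max_left _ _), key b hb (le_max_right _ _)]

/-- **one choice as a functional** -/
theorem FF6_TVu [Fil] {Y : Bool → Option O3 → ℂ → ℂ} {P : Par6} {t t' : HT} {w w' : ℂ}
    {u : Ch6 × Ch6} {N N' : ℕ} {δ κ : ℝ} {Q : ℤ} (hQ : QOk6 Y δ κ Q) (hP : StP δ P)
    {η η' : Crs} (hη : ∀ (r : ℕ) (O : Fin r → Xo), CrvR6 δ (η r O) (η' r O))
    (hN : u.1.1.toNat ≤ N) (hN' : u.2.1.toNat ≤ N')
    (hn : ((N + u.2.2.toNat - u.1.1.toNat : ℕ) : ℤ) - ((N' + u.1.2.toNat - u.2.1.toNat : ℕ) : ℤ) = Q)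
    (c : ℂ) :
    FF6 Y P (N + u.2.2.toNat - u.1.1.toNat) (N' + u.1.2.toNat - u.2.1.toNat) η η'
        (fun _ O _ _ _ => c * psV6 P t t' w w' u O) =
      ∑ r ∈ range (2 * (N + N') + 1), ((r ! : ℕ) : ℂ)⁻¹ *
        (c * ∫ O : Fin r → Xo, TVu Y P t t' w w' u N N' (Fin r) O ∂(Measure.pi fun _ => nu)) := by
  rw [FF6_ins hQ hP (fun r _ => Filter.Eventually.of_forall fun O => hη r O) hn
    fun r O => c * psV6 P t t' w w' u O]
  have e2 : ∀ (r : ℕ) (O : Fin r → Xo), fI Y P NUP1.l (N + u.2.2.toNat - u.1.1.toNat)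
      (N' + u.1.2.toNat - u.2.1.toNat) O * (c * psV6 P t t' w w' u O) =
      c * TVu Y P t t' w w' u N N' (Fin r) O := by
    intro r O
    unfold TVu
    ring
  simp only [e2, integral_const_mul]
  refine sum_range_two (fun r hr => ?_) fun r hr => ?_
  · have e0 : ∀ O : Fin r → Xo, TVu Y P t t' w w' u N N' (Fin r) O = 0 := by
      intro O
      unfold TVu
      rw [fI_zero _ _ _ O (by rwa [Fintype.card_fin]), zero_mul]
    simp only [e0, integral_zero, mul_zero]
  · have e0 : ∀ O : Fin r → Xo, TVu Y P t t' w w' u N N' (Fin r) O = 0 := by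
      intro O
      unfold TVu
      by_contra hc
      have h2 := (fI_psV_ne hN hN' hc).2.2
      rw [Fintype.card_fin] at h2
      omega
    simp only [e0, integral_zero, mul_zero]

/-! ### the choices -/

section all
variable {X : Bool → Option O3 → ℂ → ℂ} {t t' : HT} {w w' : ℂ} {N N' : ℕ}

/-- the condition of a choice -/
def OkV (t t' : HT) (N N' : ℕ) (u : Ch6 × Ch6) : Prop :=
  (okC6 t u.1 ∧ okC6 t' u.2) ∧ u.1.1.toNat ≤ N ∧ u.2.1.toNat ≤ N'

instance (t t' : HT) (N N' : ℕ) (u : Ch6 × Ch6) : Decidable (OkV t t' N N' u) := by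
  unfold OkV okC6
  infer_instance

/-- **the choices one by one** -/
theorem int_TV6 (hw : w.re = htL t) (hw' : w'.re = htL t')
    (hI : ∀ u, OkV t t' N N' u → IntV (YV6 X t t' w w' u) par6 u N N') (r : ℕ) :
    ∫ O : Fin r → Xo, TV6 X par6 t t' w w' N N' (Fin r) O ∂(Measure.pi fun _ => nu) =
      ∑ u : Ch6 × Ch6, if OkV t t' N N' u then cV6 X t t' w w' u *
        ∫ O : Fin r → Xo, TVu (YV6 X t t' w w' u) par6 t t' w w' u N N' (Fin r) O
          ∂(Measure.pi fun _ => nu) else 0 := by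
  have hT : ∀ u, OkV t t' N N' u →
      TOk (TVu (YV6 X t t' w w' u) par6 t t' w w' u N N') (2 * (N + N')) N N' := fun u hu =>
    TVu_ok hu.1.1 hu.1.2 hw hw' hu.2.1 hu.2.2 (hI u hu)
  have hint : ∀ u, OkV t t' N N' u → Integrable (fun O : Fin r → Xo =>
      TVu (YV6 X t t' w w' u) par6 t t' w w' u N N' (Fin r) O) (Measure.pi fun _ => nu) :=
    fun u hu => (hT u hu).integrable r
  have e1 : ∀ O : Fin r → Xo, TV6 X par6 t t' w w' N N' (Fin r) O =
      ∑ u : Ch6 × Ch6, if OkV t t' N N' u then cV6 X t t' w w' u *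
        TVu (YV6 X t t' w w' u) par6 t t' w w' u N N' (Fin r) O else 0 := fun O => by
    unfold TV6 TVu OkV
    rfl
  simp only [e1]
  rw [integral_finsetSum]
  · refine Finset.sum_congr rfl fun u _ => ?_
    split_ifs with hu
    · rw [integral_const_mul]
    · rw [integral_zero]
  · intro u _
    split_ifs with hu
    · exact (hint u hu).const_mul _
    · exact integrable_zero _ _ _

/-- **`ClsV6` from the sum over the numbers of objects of the integrals of `TV6`** -/
theorem clsV6_of [Fil] {ob : (Bool → ℂ → ℝ) → OB} {x κ : ℝ} {e : ℕ} {E0 : Set ℝ}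
    (hB : Bs6 X ob par6 x κ e E0) (hx0 : 0 < x) (hx1 : x ≤ 1 / 100) (hw : w.re = htL t)
    (hw' : w'.re = htL t') {cw : Ch6 × Ch6 → ℝ} (hcw0 : ∀ u, 0 ≤ cw u)
    (hcw : ∀ u : Ch6 × Ch6, okC6 t u.1 → okC6 t' u.2 →
      ‖cV6 X t t' w w' u‖ * 2 ^ (u.1.2.toNat + u.2.2.toNat) ≤ cw u)
    (hI : ∀ (n : ℕ) (u : Ch6 × Ch6), OkV t t' (n + aXt e t t') (n + aYt e t t') u →
      IntV (YV6 X t t' w w' u) par6 u (n + aXt e t t') (n + aYt e t t')) {Zn : ℕ → ℂ}
    (hZ : ∀ n, Zn n = ∑ r ∈ range (2 * ((n + aXt e t t') + (n + aYt e t t')) + 1),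
      ((r ! : ℕ) : ℂ)⁻¹ * ∫ O : Fin r → Xo,
        TV6 X par6 t t' w w' (n + aXt e t t') (n + aYt e t t') (Fin r) O
          ∂(Measure.pi fun _ => nu)) : ClsV6 X par6 x e t t' w w' cw Zn := by
  intro η η' hη n
  have hS : StP (x / 4) par6 := par6_good.stP (by positivity) (by linarith) (by
    unfold par6
    norm_num
    linarith)
  refine ⟨fun u r O _ _ _ => if OkV t t' (n + aXt e t t') (n + aYt e t t') u then
    cV6 X t t' w w' u * psV6 par6 t t' w w' u O else 0, fun u r O a a' z => ?_, ?_⟩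
  · show ‖(if OkV t t' (n + aXt e t t') (n + aYt e t t') u then
      cV6 X t t' w w' u * psV6 par6 t t' w w' u O else 0)‖ ≤ cw u
    split_ifs with hu
    · rw [norm_mul]
      exact (mul_le_mul_of_nonneg_left (psV6_le hu.1.1 hu.1.2 hw hw' O) (norm_nonneg _)).trans
        (hcw u hu.1.1 hu.1.2)
    · rw [norm_zero]
      exact hcw0 u
  · rw [hZ n]
    have e1 : ∀ u : Ch6 × Ch6, (if u.1.1.toNat ≤ n + aXv e t t' u ∧ u.2.1.toNat ≤ n + aYv e t t' u then
        FF6 (YV6 X t t' w w' u) par6 (n + aXv e t t' u - u.1.1.toNat) (n + aYv e t t' u - u.2.1.toNat)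
          (η u) (η' u) (fun r O _ _ _ => if OkV t t' (n + aXt e t t') (n + aYt e t t') u then
            cV6 X t t' w w' u * psV6 par6 t t' w w' u O else 0) else 0) =
        ∑ r ∈ range (2 * ((n + aXt e t t') + (n + aYt e t t')) + 1), ((r ! : ℕ) : ℂ)⁻¹ *
          (if OkV t t' (n + aXt e t t') (n + aYt e t t') u then cV6 X t t' w w' u *
            ∫ O : Fin r → Xo, TVu (YV6 X t t' w w' u) par6 t t' w w' u (n + aXt e t t')
              (n + aYt e t t') (Fin r) O ∂(Measure.pi fun _ => nu) else 0) := by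
      intro u
      by_cases hu : OkV t t' (n + aXt e t t') (n + aYt e t t') u
      · have c1 : u.1.1.toNat ≤ n + aXv e t t' u := by
          have := hu.2.1
          unfold PBR.PLX.aXv
          omega
        have c2 : u.2.1.toNat ≤ n + aYv e t t' u := by
          have := hu.2.2
          unfold PBR.PLX.aYv
          omega
        rw [if_pos ⟨c1, c2⟩]
        simp only [if_pos hu]
        have hO := cls_oneV hB hu.1.1 hu.1.2 hw hw'
        have hQ := QOk6.of_oneC hO (by linarith)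
        have h1 := hu.2.1
        have h2 := hu.2.2
        have key := FF6_TVu (t := t) (t' := t') (w := w) (w' := w') (u := u)
          (N := n + aXt e t t') (N' := n + aYt e t t') hQ hS
          (η := η u) (η' := η' u) (fun r O => crvR6_of (hη u r O)) h1 h2 (by omega)
          (cV6 X t t' w w' u)
        rw [← key]
        unfold PBR.PLX.aXv PBR.PLX.aYv
        rw [← Nat.add_assoc, ← Nat.add_assoc]
      · simp only [if_neg hu, mul_zero, Finset.sum_const_zero]
        split_ifs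
        · refine FF6_zero fun r O _ _ => ?_
          simp only [mul_zero, integral_zero]
        · rfl
    rw [Finset.sum_congr rfl fun u _ => e1 u, Finset.sum_comm]
    refine Finset.sum_congr rfl fun r _ => ?_
    rw [int_TV6 hw hw' (hI n) r, Finset.mul_sum]

end all

/-! ### the state sum of a class -/

theorem htF_v (t : HT) : htF t = vF6 t (false, false) := by
  cases t
  · rfl
  · rfl
  · rfl
  · show hostS false SF = adF false (-((false.toNat : ℕ) : ℤ)) (adF true ((false.toNat : ℕ) : ℤ)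
      (hostS false SF))
    simp [adF_zero]

/-- **a class at fixed half quanta is the state sum of `Zc6`** -/
theorem cF_Zc6 (X : Bool → Option O3 → ℂ → ℂ) (kF kP kF' kP' : ℂ → ℂ) (t t' : HT) (x0 : ℝ)
    (e n : ℕ) (lnX : ∀ p p' : ℕ, (Fin p → O3) → (Fin p' → O3) → Fin p → ℝ)
    (lnY : ∀ p p' : ℕ, (Fin p → O3) → (Fin p' → O3) → Fin p' → ℝ) (w w' : ℂ) :
    (cF (X true) (X false) kF kP kF' kP' t t').Z (X true) (X false) x0 (n + htN e t t')
        (n + htN e t t' + e) lnX lnY w w' =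
      NURow.ZobjQ (Zc6 X t t' w w' true) (Zc6 X t t' w w' false) x0 (n + aXt e t t')
        (n + aYt e t t') lnX lnY := by
  have h1 := htN_X e t t'
  have h2 := htN_Y e t t'
  unfold CD.Z
  rw [cF_dX, cF_dY, cF_S, cF_S', if_pos ⟨by omega, by omega⟩]
  have e1 : n + htN e t t' - htD t' = n + aXt e t t' := by
    unfold aXt
    omega
  have e2 : n + htN e t t' + e - htD t = n + aYt e t t' := by
    unfold aYt
    omega
  rw [e1, e2, htF_v, htF_v]
  rfl

end PHK

end
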