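import Pool.Agent.PHK.LgDef
import Pool.Agent.PHK.RgMv

/-!
# Bounds of the letters of (P) over the strips of the quanta

`x = w - z`, `w` = half quantum on its line `htL t`, `z` = quantum.
* **`eL_bd`**: the regular inverse of a letter;
* `pL_bd`: the regular part of the own pole of `H`;
* **`vA_bd`**, `vA_H`: the functions of the letters on the quanta without own pole;
* **`vK_bd`**, `vL_bd`, `vS_bd`, `vT_bd`: the functions on the kinds `L`, `S`, `T`.
-/

set_option autoImplicit false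
set_option linter.unusedSectionVars false

noncomputable section

open Complex

namespace PHK

open NUO NUP1 NUP1S NUP1.Leg NURow NUGC.PLX PBR.PLX
open NUP1.Bd (qg)

/-! ### tools -/

private theorem cgB {K : Set ℝ} {s s' : ℝ} {g g' : ℂ → ℂ} (h : NUP1S.Bdd K s g) (hs : s ≤ s')
    (e : ∀ z, g z = g' z) : NUP1S.Bdd K s' g' := by
  rw [← funext e]
  exact h.mono_rate hs

private theorem bs (K : Set ℝ) (a : ℝ) : NUP1S.Bdd K 1 fun z => sin (z + (a * l : ℝ)) :=
  bdd_sin K _

private theorem bi {K : Set ℝ} (hK : IsCompact K) (a : ℝ)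
    (h : ∀ d ∈ K, Real.sin (d + a * l) ≠ 0) :
    NUP1S.Bdd K (-1) fun z => 1 / sin (z + (a * l : ℝ)) :=
  bdd_inv_sin hK _ h

/-- `x / sin x` near the imaginary axis -/
theorem bdd_inv_sc {K : Set ℝ} (a : ℝ) (h : ∀ d ∈ K, |d + a * l| ≤ l) :
    NUP1S.Bdd K (-3 / 4) fun z => 1 / Pool.Agent.PHD.sc (z + (a * l : ℝ)) := by
  refine ⟨32, by norm_num, fun z hz => ?_⟩
  have h1 := Pool.Agent.PHD.sc_low (z := z + (a * l : ℝ)) (by
    rw [add_re, ofReal_re]
    exact h _ hz)
  rw [add_im, ofReal_im, add_zero] at h1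
  set y := |z.im| with hy
  have hy0 : 0 ≤ y := abs_nonneg _
  have hp : 0 < Real.exp y / (8 * (1 + y)) := by positivity
  rw [norm_div, norm_one, one_div]
  refine (inv_anti₀ hp h1).trans ?_
  rw [inv_div, div_le_iff₀ (Real.exp_pos y), mul_assoc, ← Real.exp_add]
  have h2 : y / 4 + 1 ≤ Real.exp (-3 / 4 * y + y) := by
    rw [show -3 / 4 * y + y = y / 4 by ring]
    exact Real.add_one_le_exp _
  linarith

private theorem cos4 (z : ℂ) : cos z = sin (z + 4 * l) := by
  rw [add_comm z (4 * (l : ℂ)), sin_4l]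

/-! ### the regular inverse -/

section fns
variable {K : Set ℝ} (hK : IsCompact K)
include hK

private theorem f1 (h0 : ∀ d ∈ K, Real.sin (d + 0 * l) ≠ 0)
    (h2 : ∀ d ∈ K, Real.sin (d + 2 * l) ≠ 0) :
    NUP1S.Bdd K (-1) fun x => sin (x + l) / (sin x * sin (x + 2 * l)) := by
  refine cgB ((bs K 1).mul ((bi hK 0 h0).mul (bi hK 2 h2))) (by norm_num) fun z => ?_
  push_cast
  rw [zero_mul, add_zero, one_mul]
  ring

private theorem f2 (h4 : ∀ d ∈ K, Real.sin (d + 4 * l) ≠ 0) :
    NUP1S.Bdd K 1 fun x => sin (3 * l - x) * sin (3 * l + x) / cos x := by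
  refine cgB (((NUP1S.Bdd.const K (-1)).mul ((bs K 3).mul (bs K (-3)))).mul (bi hK 4 h4))
    (by norm_num) fun z => ?_
  push_cast
  rw [cos4, show 3 * (l : ℂ) - z = -(z + -3 * l) by ring, Complex.sin_neg,
    show 3 * (l : ℂ) + z = z + 3 * l by ring]
  ring

private theorem f3 (h2 : ∀ d ∈ K, Real.sin (d + 2 * l) ≠ 0)
    (h7 : ∀ d ∈ K, Real.sin (d + 7 * l) ≠ 0) :
    NUP1S.Bdd K 1 fun x => sin (x + l) * sin x * sin (x + 6 * l) ^ 2 /
      (sin (x + 2 * l) * cos (x + 3 * l) ^ 2) := by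
  refine cgB ((((bs K 1).mul (bs K 0)).mul ((bs K 6).mul (bs K 6))).mul
    ((bi hK 2 h2).mul ((bi hK 7 h7).mul (bi hK 7 h7)))) (by norm_num) fun z => ?_
  push_cast
  rw [cos4, show z + 3 * (l : ℂ) + 4 * l = z + 7 * l by ring, zero_mul, add_zero, one_mul]
  ring

private theorem f4 (h2 : ∀ d ∈ K, Real.sin (d + 2 * l) ≠ 0) :
    NUP1S.Bdd K 3 fun x => sin (x + l) * sin x * sin (x - 5 * l) ^ 2 / sin (x + 2 * l) := by
  refine cgB ((((bs K 1).mul (bs K 0)).mul ((bs K (-5)).mul (bs K (-5)))).mul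
    (bi hK 2 h2)) (by norm_num) fun z => ?_
  push_cast
  rw [show z + -5 * (l : ℂ) = z - 5 * l by ring, zero_mul, add_zero, one_mul]
  ring

private theorem f5 (h2 : ∀ d ∈ K, Real.sin (d + 2 * l) ≠ 0)
    (h2' : ∀ d ∈ K, Real.sin (d + -2 * l) ≠ 0) (h0 : ∀ d ∈ K, |d + 0 * l| ≤ l) :
    NUP1S.Bdd K (5 / 4) fun x => sin (x + l) ^ 2 * sin (x - l) * sin (x - 5 * l) ^ 2 /
      (Pool.Agent.PHD.sc x * sin (x + 2 * l) ^ 2 * sin (x - 2 * l)) := by
  refine cgB (((((bs K 1).mul (bs K 1)).mul (bs K (-1))).mul ((bs K (-5)).mul (bs K (-5)))).mul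
    (((bdd_inv_sc 0 h0).mul ((bi hK 2 h2).mul (bi hK 2 h2))).mul (bi hK (-2) h2')))
    (by norm_num) fun z => ?_
  push_cast
  rw [show z + -5 * (l : ℂ) = z - 5 * l by ring, show z + -2 * (l : ℂ) = z - 2 * l by ring,
    show z + -1 * (l : ℂ) = z - l by ring, zero_mul, add_zero, one_mul]
  ring

private theorem f6 (h1 : ∀ d ∈ K, Real.sin (d + 1 * l) ≠ 0) (h3 : ∀ d ∈ K, |d + 3 * l| ≤ l) :
    NUP1S.Bdd K (-3 / 4) fun x => sin (x + 2 * l) /
      (Pool.Agent.PHD.sc (x + 3 * l) * sin (x + l)) := by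
  refine cgB ((bs K 2).mul ((bdd_inv_sc 3 h3).mul (bi hK 1 h1))) (by norm_num) fun z => ?_
  push_cast
  rw [one_mul]
  ring

private theorem f7 (h4 : ∀ d ∈ K, Real.sin (d + 4 * l) ≠ 0)
    (h2' : ∀ d ∈ K, Real.sin (d + -2 * l) ≠ 0) (h0 : ∀ d ∈ K, |d + 0 * l| ≤ l) :
    NUP1S.Bdd K (-11 / 4) fun x => -(1 / (Pool.Agent.PHD.sc x * cos x * sin (x - 2 * l))) := by
  refine cgB ((NUP1S.Bdd.const K (-1)).mul (((bdd_inv_sc 0 h0).mul (bi hK 4 h4)).mul
    (bi hK (-2) h2'))) (by norm_num) fun z => ?_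
  push_cast
  rw [cos4, show z + -2 * (l : ℂ) = z - 2 * l by ring, zero_mul, add_zero]
  ring

private theorem f8 (h4 : ∀ d ∈ K, Real.sin (d + 4 * l) ≠ 0)
    (h2' : ∀ d ∈ K, Real.sin (d + -2 * l) ≠ 0) (h0 : ∀ d ∈ K, |d + 0 * l| ≤ l) :
    NUP1S.Bdd K (-3 / 4) fun x => -(sin (x + 3 * l) ^ 2 * sin (x - 3 * l) ^ 2 /
      (Pool.Agent.PHD.sc x * cos x ^ 3 * sin (x - 2 * l))) := by
  refine cgB ((NUP1S.Bdd.const K (-1)).mul ((((bs K 3).mul (bs K 3)).mul
    ((bs K (-3)).mul (bs K (-3)))).mul (((bdd_inv_sc 0 h0).mul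
    ((bi hK 4 h4).mul ((bi hK 4 h4).mul (bi hK 4 h4)))).mul (bi hK (-2) h2'))))
    (by norm_num) fun z => ?_
  push_cast
  rw [cos4, show z + -2 * (l : ℂ) = z - 2 * l by ring, show z + -3 * (l : ℂ) = z - 3 * l by ring,
    zero_mul, add_zero]
  ring

private theorem f9 (h1 : ∀ d ∈ K, Real.sin (d + 1 * l) ≠ 0)
    (h5 : ∀ d ∈ K, Real.sin (d + -5 * l) ≠ 0) : NUP1S.Bdd K (-2) pL := by
  refine cgB ((bs K 2).mul ((bi hK 1 h1).mul ((bi hK (-5) h5).mul (bi hK (-5) h5))))
    (by norm_num) fun z => ?_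
  show _ = sin (z + 2 * l) / (sin (z + l) * sin (z - 5 * l) ^ 2)
  push_cast
  rw [show z + -5 * (l : ℂ) = z - 5 * l by ring, one_mul]
  ring

end fns

/-- **bounds of the regular inverse of a letter** -/
theorem eL_bd {t : HT} {i : Bool} (h : i = true → t = .H) (c : Bool) :
    NUP1S.Bdd (Set.Icc (htL t - 31 / 32 * l) (htL t - 1 / 8 * l))
      (1 / 4 - (htQ t + 2 * i.toNat) * NUP1S.sc (c, NUP1.Bd.Ob.A)) (eL t i c) := by
  have hl := Bd.l_pos
  have hi : t ≠ .H → i = false := fun ht => by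
    cases i
    · rfl
    · exact absurd (h rfl) ht
  rcases t with _ | _ | _ | _
  · obtain rfl := hi (by decide)
    rcases c with _ | _
    · refine cgB (f2 isCompact_Icc fun d hd => ?_) (by norm_num [htQ, NUP1S.sc, NUP1.Bd.chg]) fun z => rfl
      obtain ⟨a, b⟩ := hd
      simp only [htL] at a b
      exact sin_ne_pos (by linarith) (by linarith)
    · refine cgB (f1 isCompact_Icc (fun d hd => ?_) fun d hd => ?_)
        (by norm_num [htQ, NUP1S.sc, NUP1.Bd.chg]) fun z => rfl
      all_goals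
        obtain ⟨a, b⟩ := hd
        simp only [htL] at a b
        exact sin_ne_pos (by linarith) (by linarith)
  · obtain rfl := hi (by decide)
    rcases c with _ | _
    · refine cgB (f2 isCompact_Icc fun d hd => ?_) (by norm_num [htQ, NUP1S.sc, NUP1.Bd.chg]) fun z => rfl
      obtain ⟨a, b⟩ := hd
      simp only [htL] at a b
      exact sin_ne_pos (by linarith) (by linarith)
    · refine cgB (f1 isCompact_Icc (fun d hd => ?_) fun d hd => ?_)
        (by norm_num [htQ, NUP1S.sc, NUP1.Bd.chg]) fun z => rfl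
      all_goals
        obtain ⟨a, b⟩ := hd
        simp only [htL] at a b
        exact sin_ne_neg (by linarith) (by linarith)
  · obtain rfl := hi (by decide)
    rcases c with _ | _
    · refine cgB (f6 isCompact_Icc (fun d hd => ?_) fun d hd => ?_)
        (by norm_num [htQ, NUP1S.sc, NUP1.Bd.chg]) fun z => rfl
      · obtain ⟨a, b⟩ := hd
        simp only [htL] at a b
        exact sin_ne_neg (by linarith) (by linarith)
      · obtain ⟨a, b⟩ := hd
        simp only [htL] at a b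
        exact abs_le.2 ⟨by linarith, by linarith⟩
    · refine cgB (f3 isCompact_Icc (fun d hd => ?_) fun d hd => ?_)
        (by norm_num [htQ, NUP1S.sc, NUP1.Bd.chg]) fun z => rfl
      · obtain ⟨a, b⟩ := hd
        simp only [htL] at a b
        exact sin_ne_neg (by linarith) (by linarith)
      · obtain ⟨a, b⟩ := hd
        simp only [htL] at a b
        exact sin_ne_pos (by linarith) (by linarith)
  · have g0 : ∀ d ∈ Set.Icc (htL .H - 31 / 32 * l) (htL .H - 1 / 8 * l), |d + 0 * l| ≤ l := by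
      rintro d ⟨a, b⟩
      simp only [htL] at a b
      exact abs_le.2 ⟨by linarith, by linarith⟩
    have g2 : ∀ d ∈ Set.Icc (htL .H - 31 / 32 * l) (htL .H - 1 / 8 * l),
        Real.sin (d + 2 * l) ≠ 0 := by
      rintro d ⟨a, b⟩
      simp only [htL] at a b
      exact sin_ne_pos (by linarith) (by linarith)
    have g2' : ∀ d ∈ Set.Icc (htL .H - 31 / 32 * l) (htL .H - 1 / 8 * l),
        Real.sin (d + -2 * l) ≠ 0 := by
      rintro d ⟨a, b⟩
      simp only [htL] at a b
      exact sin_ne_neg (by linarith) (by linarith)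
    have g4 : ∀ d ∈ Set.Icc (htL .H - 31 / 32 * l) (htL .H - 1 / 8 * l),
        Real.sin (d + 4 * l) ≠ 0 := by
      rintro d ⟨a, b⟩
      simp only [htL] at a b
      exact sin_ne_pos (by linarith) (by linarith)
    rcases i with _ | _ <;> rcases c with _ | _
    · exact cgB (f7 isCompact_Icc g4 g2' g0) (by norm_num [htQ, NUP1S.sc, NUP1.Bd.chg]) fun z => rfl
    · exact cgB (f4 isCompact_Icc g2) (by norm_num [htQ, NUP1S.sc, NUP1.Bd.chg]) fun z => rfl
    · exact cgB (f8 isCompact_Icc g4 g2' g0) (by norm_num [htQ, NUP1S.sc, NUP1.Bd.chg]) fun z => rfl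
    · exact cgB (f5 isCompact_Icc g2 g2' g0) (by norm_num [htQ, NUP1S.sc, NUP1.Bd.chg]) fun z => rfl

/-- **bounds of the regular part of the own pole** -/
theorem pL_bd : NUP1S.Bdd (Set.Icc (-(3 / 8) * l) (23 / 200 * l)) (-2) pL := by
  have hl := Bd.l_pos
  refine f9 isCompact_Icc ?_ ?_
  · rintro d ⟨a, b⟩
    exact sin_ne_pos (by linarith) (by linarith)
  · rintro d ⟨a, b⟩
    exact sin_ne_neg (by linarith) (by linarith)

/-! ### the functions of the letters -/

/-- **the function of a letter on the quanta**, no own pole -/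
theorem vA_bd {t : HT} {c : Bool} (hc : t = .H → c = false) :
    NURow.PB (htQ t * NUP1S.sc (c, NUP1.Bd.Ob.A)) (Set.Icc (htL t - l) (htL t - 51 / 100 * l))
      (vF6 t (false, false) c none) := by
  have hl := Bd.l_pos
  rw [vF6_ff]
  rcases t with _ | _ | _ | _
  · refine (PB_SF_of (K := Set.Icc (htL .W - l) (htL .W - 51 / 100 * l)) isCompact_Icc c none
      (fun _ _ d hd => ?_) (fun _ _ d hd => ?_) (fun _ hk d hd => ?_)).rate (by simp [htQ, ob4])
    · obtain ⟨a, b⟩ := hd
      simp only [htL] at a b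
      exact sin_ne_pos (by linarith) (by linarith)
    · obtain ⟨a, b⟩ := hd
      simp only [htL] at a b
      exact ⟨sin_ne_pos (by linarith) (by linarith), sin_ne_neg (by linarith) (by linarith)⟩
    · rcases hk with hk | hk <;> exact absurd hk (by simp)
  · refine (PB_SF_of (K := Set.Icc (htL .F - l) (htL .F - 51 / 100 * l)) isCompact_Icc c none
      (fun _ _ d hd => ?_) (fun _ _ d hd => ?_) (fun _ hk d hd => ?_)).rate (by simp [htQ, ob4])
    · obtain ⟨a, b⟩ := hd
      simp only [htL] at a b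
      exact sin_ne_neg (by linarith) (by linarith)
    · obtain ⟨a, b⟩ := hd
      simp only [htL] at a b
      exact ⟨sin_ne_neg (by linarith) (by linarith), sin_ne_neg (by linarith) (by linarith)⟩
    · rcases hk with hk | hk <;> exact absurd hk (by simp)
  · rcases c with _ | _
    · have a2 : NURow.PB 1 (Set.Icc (1 / 5 * l) (4 / 5 * l)) Ck := by
        refine PB_Ck isCompact_Icc fun d hd => ?_
        obtain ⟨a, b⟩ := hd
        exact sin_ne_pos (by linarith) (by linarith)
      refine ((a2.refl (K := Set.Icc (htL .P - l) (htL .P - 51 / 100 * l)) (3 * l)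
        fun x hx => ?_).rate (by norm_num [htQ, NUP1S.sc, NUP1.Bd.chg])).congr' fun z => ?_
      · obtain ⟨a, b⟩ := hx
        simp only [htL] at a b
        exact ⟨by linarith, by linarith⟩
      · show _ = Ck (-z - 3 * l)
        push_cast
        rfl
    · have a1 : NURow.PB 1 (Set.Icc (htL .P - l) (htL .P - 51 / 100 * l)) Ck := by
        refine PB_Ck isCompact_Icc fun d hd => ?_
        obtain ⟨a, b⟩ := hd
        simp only [htL] at a b
        exact sin_ne_neg (by linarith) (by linarith)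
      have a2 : NURow.PB (-2) (Set.Icc (-(4 / 5) * l) (-(1 / 5) * l)) qg := by
        refine PB_qg isCompact_Icc (fun d hd => ?_) fun d hd => ?_
        · obtain ⟨a, b⟩ := hd
          exact sin_ne_pos (by linarith) (by linarith)
        · obtain ⟨a, b⟩ := hd
          exact sin_ne_neg (by linarith) (by linarith)
      have a3 := a2.shift (K := Set.Icc (htL .P - l) (htL .P - 51 / 100 * l)) (3 * l)
        fun x hx => by
          obtain ⟨a, b⟩ := hx
          simp only [htL] at a b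
          exact ⟨by linarith, by linarith⟩
      refine ((a1.mul a3).rate (by norm_num [htQ, NUP1S.sc, NUP1.Bd.chg])).congr' fun z => ?_
      show _ = Ck z * qg (z + 3 * l)
      push_cast
      rfl
  · obtain rfl := hc rfl
    refine (PB_SH_false (K := Set.Icc (htL .H - l) (htL .H - 51 / 100 * l)) (fun d hd => ?_)
      none).rate (by norm_num [htQ, NUP1S.sc, NUP1.Bd.chg, ob4])
    obtain ⟨a, b⟩ := hd
    simp only [htL] at a b
    exact ⟨by linarith, by linarith⟩

/-- the own species of `H`, away from the pole -/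
theorem vA_H {K : Set ℝ} (hK : IsCompact K) (h : ∀ d ∈ K, -l < d ∧ d < 3 * l ∧ d ≠ 0) (c : Bool) :
    NURow.PB (htQ .H * NUP1S.sc (c, NUP1.Bd.Ob.A)) K (vF6 .H (false, false) c none) := by
  rw [vF6_ff]
  exact (PB_SH hK h c none).rate (by norm_num [htQ, ob4])

/-- the own species of `H`, left of the pole -/
theorem vA_Hl (c : Bool) : NURow.PB (htQ .H * NUP1S.sc (c, NUP1.Bd.Ob.A))
    (Set.Icc (-(3 / 8) * l) (-(1 / 64) * l)) (vF6 .H (false, false) c none) := by
  have hl := Bd.l_pos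
  refine vA_H isCompact_Icc (fun d hd => ?_) c
  obtain ⟨a, b⟩ := hd
  exact ⟨by linarith, by linarith, fun h => by rw [h] at b; linarith⟩

/-- the own species of `H`, right of the pole -/
theorem vA_Hr (c : Bool) : NURow.PB (htQ .H * NUP1S.sc (c, NUP1.Bd.Ob.A))
    (Set.Icc (1 / 64 * l) (23 / 200 * l)) (vF6 .H (false, false) c none) := by
  have hl := Bd.l_pos
  refine vA_H isCompact_Icc (fun d hd => ?_) c
  obtain ⟨a, b⟩ := hd
  exact ⟨by linarith, by linarith, fun h => by rw [h] at a; linarith⟩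

/-- **the function of a letter on all kinds**, over the strips of `RgMv` -/
theorem vK_bd (t : HT) (c : Bool) (k : Option O3) :
    NURow.PB (htQ t * NUP1S.sc (c, ob4 k)) (Set.Icc (htL t - hiV k) (htL t - loV k))
      (vF6 t (false, false) c k) := by
  rw [vF6_ff]
  rcases t with _ | _ | _ | _
  · exact (spV_W.pb c k).rate (by rw [show sc4 c k = NUP1S.sc (c, ob4 k) from rfl]; simp [htQ])
  · exact (spV_F.pb c k).rate (by rw [show sc4 c k = NUP1S.sc (c, ob4 k) from rfl]; simp [htQ])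
  · exact (spV_P.pb c k).rate (by
      rw [show sc4 c k = NUP1S.sc (c, ob4 k) from rfl]; simp only [htQ]; ring)
  · exact (spV_H.pb c k).rate (by
      rw [show sc4 c k = NUP1S.sc (c, ob4 k) from rfl]; simp only [htQ]; ring)

/-- the kind `L` at its line -/
theorem vL_bd (t : HT) (c : Bool) : NURow.PB (htQ t * NUP1S.sc (c, ob4 (some .L)))
    {htL t + 65 / 64 * l} (vF6 t (false, false) c (some .L)) := by
  have hl := Bd.l_pos
  refine (vK_bd t c (some .L)).mono ?_
  rintro x rfl
  exact ⟨by simp only [hiV]; linarith, by simp only [loV]; linarith⟩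

/-- the kind `S` at its line -/
theorem vS_bd (t : HT) (c : Bool) : NURow.PB (htQ t * NUP1S.sc (c, ob4 (some .S)))
    {htL t + 23 / 16 * l} (vF6 t (false, false) c (some .S)) := by
  have hl := Bd.l_pos
  refine (vK_bd t c (some .S)).mono ?_
  rintro x rfl
  exact ⟨by simp only [hiV]; linarith, by simp only [loV]; linarith⟩

/-- the kind `T` at its line -/
theorem vT_bd (t : HT) (c : Bool) : NURow.PB (htQ t * NUP1S.sc (c, ob4 (some .T)))
    {htL t + 1 / 2 * l} (vF6 t (false, false) c (some .T)) := by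
  have hl := Bd.l_pos
  refine (vK_bd t c (some .T)).mono ?_
  rintro x rfl
  exact ⟨by simp only [hiV]; linarith, by simp only [loV]; linarith⟩

end PHK

end
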