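import Pool.Agent.PHK.LgDec0
import Pool.Agent.PHK.LgBd

/-!
# (P): the poles of the classes of two letters

* `vH_eq`, `pL_an`: the regular part of the own pole of the letter `H`;
* **`polZ_Zc6`**: `PolZ (Zc6 X t t' w w') κ Q (av6 t t') (po6 t t' w w') (hp6 X t t' w w')`, any types,
  `w.im ≠ w'.im`.
-/

set_option autoImplicit false
set_option linter.unusedSectionVars false

noncomputable section

open Complex MeasureTheory Finset
open scoped ENNReal

open PLX (Fil)

namespace PHK

open NUO NUP1 NUP1S NUP1S.Mg NURow NUCR NUP1.Leg NUGC.PLX PBR.PLX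
open NUP1.Bd (wt qg Ob)
open Pool.Agent.PLX (InvZ6)

namespace Pol

theorem sinc_pos {x : ℂ} (h0 : 0 < x.re) (h1 : x.re < 8 * l) : sin x ≠ 0 := by
  intro h
  rw [Complex.sin_eq_zero_iff] at h
  obtain ⟨k, hk⟩ := h
  have hre : x.re = k * Real.pi := by
    rw [hk]
    simp
  have hpi : Real.pi = 8 * l := by
    show Real.pi = 8 * (Real.pi / 8)
    ring
  have hp := Real.pi_pos
  rw [hre, hpi] at h0 h1
  have hl := l_pos
  have k0 : (0 : ℝ) < k := by
    by_contra hc
    have := not_lt.1 hc
    nlinarith
  have k1 : (k : ℝ) < 1 := by nlinarith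
  have k0' : (0 : ℤ) < k := by exact_mod_cast k0
  have k1' : k < (1 : ℤ) := by exact_mod_cast k1
  omega

theorem sinc_neg {x : ℂ} (h0 : -(8 * l) < x.re) (h1 : x.re < 0) : sin x ≠ 0 := by
  intro h
  refine sinc_pos (x := -x) (by simpa using h1) ?_ (by rw [Complex.sin_neg, h, neg_zero])
  rw [neg_re]
  linarith

/-- the sine of a difference of two points of the strip -/
theorem sinc_ne {x : ℂ} (h0 : -(8 * l) < x.re) (h1 : x.re < 8 * l) (hx : x ≠ 0) : sin x ≠ 0 := by
  rcases lt_trichotomy x.re 0 with h | h | h
  · exact sinc_neg h0 h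
  · intro hs
    rw [Complex.sin_eq_zero_iff] at hs
    obtain ⟨k, hk⟩ := hs
    have hre : x.re = k * Real.pi := by
      rw [hk]
      simp
    rw [h] at hre
    have hp := Real.pi_pos
    have : (k : ℝ) = 0 := by
      rcases mul_eq_zero.1 hre.symm with h1 | h1
      · exact h1
      · exact absurd h1 hp.ne'
    have k0 : k = 0 := by exact_mod_cast this
    rw [k0] at hk
    simp at hk
    exact hx hk
  · exact sinc_pos h h1

end Pol

open Pol

/-- **the own function of the letter `H`** near its pole -/
theorem vH_eq {x : ℂ} (h0 : -(3 / 8) * l ≤ x.re) (h1 : x.re ≤ 23 / 200 * l) (hx : x ≠ 0) :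
    vF6 .H (false, false) true none x = pL x / sin x := by
  have hl := l_pos
  have s0 : sin x ≠ 0 := sinc_ne (by linarith) (by linarith) hx
  have s1 : sin (x + l) ≠ 0 := sinc_pos (by
    rw [add_re, ofReal_re]
    linarith) (by
    rw [add_re, ofReal_re]
    linarith)
  have s2 : sin (x + 2 * l) ≠ 0 := sinc_pos (by
    simp only [add_re, mul_re, ofReal_re, ofReal_im, mul_zero, sub_zero]
    norm_num
    linarith) (by
    simp only [add_re, mul_re, ofReal_re, ofReal_im, mul_zero, sub_zero]
    norm_num
    linarith)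
  have s5 : sin (x - 5 * l) ≠ 0 := sinc_neg (by
    simp only [sub_re, mul_re, ofReal_re, ofReal_im, mul_zero, sub_zero]
    norm_num
    linarith) (by
    simp only [sub_re, mul_re, ofReal_re, ofReal_im, mul_zero, sub_zero]
    norm_num
    linarith)
  have hpi : (Real.pi : ℂ) = 8 * (l : ℂ) := by
    have : Real.pi = 8 * l := by
      show Real.pi = 8 * (Real.pi / 8)
      ring
    rw [this]
    push_cast
    rfl
  rw [vF6_ff]
  show qg (x - 2 * l) * qg (x - 2 * l - l) * (sin x * sin (x + 2 * l) / sin (x + l)) = _
  have e1 : cos (x - 2 * l) = sin (x + 2 * l) := by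
    rw [← Complex.sin_add_pi_div_two]
    congr 1
    rw [hpi]
    ring
  have e2 : cos (x - 2 * l - l) = sin (x + l) := by
    rw [← Complex.sin_add_pi_div_two]
    congr 1
    rw [hpi]
    ring
  have e3 : sin (x - 2 * l - l - 3 * l) = -sin (x + 2 * l) := by
    rw [← Complex.sin_sub_pi]
    congr 1
    rw [hpi]
    ring
  unfold qg pL
  rw [e1, e2, e3, show x - 2 * (l : ℂ) + 3 * l = x + l by ring,
    show x - 2 * (l : ℂ) - 3 * l = x - 5 * l by ring, show x - 2 * (l : ℂ) - l + 3 * l = x by ring]
  field_simp

/-- the regular part of the own pole is analytic near the pole -/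
theorem pL_an {x : ℂ} (h0 : -(3 / 8) * l ≤ x.re) (h1 : x.re ≤ 23 / 200 * l) :
    DifferentiableAt ℂ pL x := by
  have hl := l_pos
  have s1 : sin (x + l) ≠ 0 := sinc_pos (by
    rw [add_re, ofReal_re]
    linarith) (by
    rw [add_re, ofReal_re]
    linarith)
  have s5 : sin (x - 5 * l) ≠ 0 := sinc_neg (by
    simp only [sub_re, mul_re, ofReal_re, ofReal_im, mul_zero, sub_zero]
    norm_num
    linarith) (by
    simp only [sub_re, mul_re, ofReal_re, ofReal_im, mul_zero, sub_zero]
    norm_num
    linarith)
  unfold pL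
  exact DifferentiableAt.div (by fun_prop) (by fun_prop) (mul_ne_zero s1 (pow_ne_zero 2 s5))

/-- the function of the own species without its pole -/
def ownP (T : HT) (p π u : ℂ) : ℂ :=
  if T = .H then -pL (p - u) else vF6 T (false, false) true none (p - u) * sin (u - π)

theorem ownP_pb {T : HT} {p : ℂ} (hp : p.re = htL T) (π : ℂ) :
    PB (htQ T * sc (true, Ob.A) + 1) (Set.Icc (51 / 100 * l) l) (ownP T p π) := by
  have hl := l_pos
  by_cases hT : T = .H
  · subst hT
    have h1 : PB (-2) (Set.Icc (-(3 / 8) * l) (23 / 200 * l)) pL :=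
      ⟨pL_bd, fun z hz => pL_an hz.1 hz.2⟩
    refine ((h1.one (K := Set.Icc (51 / 100 * l) l) p fun x hx => ?_).fneg.rate
      (by norm_num [htQ, NUP1S.sc, NUP1.Bd.chg])).congr' fun z => ?_
    · rw [hp]
      simp only [htL]
      exact ⟨by linarith [hx.2], by linarith [hx.1]⟩
    · unfold ownP
      rw [if_pos rfl]
  · have h1 := vA_bd (t := T) (c := true) fun h => absurd h hT
    have h2 := h1.one (K := Set.Icc (51 / 100 * l) l) p fun x hx => by
      rw [hp]
      exact ⟨by linarith [hx.2], by linarith [hx.1]⟩
    have h3 : PB 1 Set.univ sin := (PB_sin Set.univ 0).congr' fun z => by simp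
    have h4 := h3.one' (K := Set.Icc (51 / 100 * l) l) π fun x _ => Set.mem_univ _
    refine (h2.mul h4).congr' fun z => ?_
    unfold ownP
    rw [if_neg hT]

theorem othP_pb {T : HT} {p : ℂ} (hp : p.re = htL T) :
    PB (htQ T * sc (false, Ob.A)) (Set.Icc (51 / 100 * l) l)
      fun u => vF6 T (false, false) false none (p - u) := by
  have hl := l_pos
  have h1 := vA_bd (t := T) (c := false) fun _ => rfl
  exact h1.one (K := Set.Icc (51 / 100 * l) l) p fun x hx => by
    rw [hp]
    exact ⟨by linarith [hx.2], by linarith [hx.1]⟩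

/-- the own function is the regular part over the sine -/
theorem ownP_eq {T : HT} {p π u : ℂ} (hp : p.re = htL T) (hπ : π.re = 5 / 8 * l)
    (h : T = .H → π = p) (h0 : 51 / 100 * l ≤ u.re) (h1 : u.re ≤ l) (hu : u ≠ π) :
    vF6 T (false, false) true none (p - u) = ownP T p π u / sin (u - π) := by
  have hl := l_pos
  have s0 : sin (u - π) ≠ 0 := sinc_ne (by
    rw [sub_re, hπ]
    linarith) (by
    rw [sub_re, hπ]
    linarith) (sub_ne_zero.2 hu)
  unfold ownP
  by_cases hT : T = .H
  · rw [if_pos hT, hT, h hT]
    rw [h hT] at hu s0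
    rw [hT] at hp
    simp only [htL] at hp
    rw [vH_eq (by rw [sub_re, hp]; linarith) (by rw [sub_re, hp]; linarith)
      (sub_ne_zero.2 (Ne.symm hu)), ← neg_sub u p, Complex.sin_neg, div_neg, neg_div]
  · rw [if_neg hT, mul_div_cancel_right₀ _ s0]

section cls

variable {X : Bool → Option O3 → ℂ → ℂ} {κ : ℝ} {e : ℕ} {t t' : HT} {w w' : ℂ}

theorem po6_re (hw : w.re = htL t) (hw' : w'.re = htL t') (s : Bool) :
    (po6 t t' w w' s).re = 5 / 8 * l := by
  unfold po6
  split_ifs with h1 h2 h3
  · rw [hw, h2]
    rfl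
  · exact NUO.vl_re _ _
  · rw [hw', h3]
    rfl
  · exact NUO.vl_re _ _

theorem po6_im_true : (po6 t t' w w' true).im = w.im := by
  unfold po6
  rw [if_pos rfl]
  split_ifs
  · rfl
  · exact NUO.vl_im _ _

theorem po6_im_false : (po6 t t' w w' false).im = w'.im := by
  unfold po6
  rw [if_neg (by simp)]
  split_ifs
  · rfl
  · exact NUO.vl_im _ _

theorem Zc6_true (u : ℂ) : Zc6 X t t' w w' true none u = X true none u *
    (vF6 t (false, false) true none (w - u) * vF6 t' (false, false) false none (w' - u)) := rfl

theorem Zc6_false (u : ℂ) : Zc6 X t t' w w' false none u = X false none u *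
    (vF6 t (false, false) false none (w - u) * vF6 t' (false, false) true none (w' - u)) := rfl

theorem hp6_true (u : ℂ) : hp6 X t t' w w' true u = X true none u *
    (ownP t w (po6 t t' w w' true) u * vF6 t' (false, false) false none (w' - u)) := by
  unfold hp6 ownP
  rw [if_pos rfl, Zc6_true]
  split_ifs <;> ring

theorem hp6_false (u : ℂ) : hp6 X t t' w w' false u = X false none u *
    (ownP t' w' (po6 t t' w w' false) u * vF6 t (false, false) false none (w - u)) := by
  unfold hp6 ownP
  rw [if_neg (by simp), Zc6_false]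
  split_ifs <;> ring

theorem X_pb (hB : LgB X κ e) (s : Bool) :
    PB (-(κ + 2 * (-(e : ℝ)) * sc (s, Ob.A))) (Set.Icc (51 / 100 * l) l) (X s none) := by
  refine ⟨?_, fun z hz => hB.an s z hz.1 hz.2⟩
  obtain ⟨D, hD⟩ := hB.dec.A s
  refine ⟨|D|, abs_nonneg _, fun z hz => (hD z hz).trans ?_⟩
  rw [neg_mul]
  exact mul_le_mul_of_nonneg_right (le_abs_self D) (Real.exp_pos _).le

theorem hp6_pb (hB : LgB X κ e) (hw : w.re = htL t) (hw' : w'.re = htL t') (s : Bool) :
    PB (1 - (κ + 2 * (((aXt e t t' : ℤ) - aYt e t t' : ℤ) : ℝ) * sc (s, Ob.A)))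
      (Set.Icc (51 / 100 * l) l) (hp6 X t t' w w' s) := by
  rw [rate_charge]
  rcases s with _ | _
  · refine (((X_pb hB false).mul ((ownP_pb hw' (po6 t t' w w' false)).mul (othP_pb hw))).rate
      ?_).congr' fun u => (hp6_false u).symm
    norm_num [NUP1S.sc, NUP1.Bd.chg]
    ring
  · refine (((X_pb hB true).mul ((ownP_pb hw (po6 t t' w w' true)).mul (othP_pb hw'))).rate
      ?_).congr' fun u => (hp6_true u).symm
    norm_num [NUP1S.sc, NUP1.Bd.chg]
    ring

theorem ms_pL : Measurable pL := by
  unfold pL
  fun_prop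

theorem ms_hp6 (hB : LgB X κ e) (s : Bool) : Measurable (hp6 X t t' w w' s) := by
  have hZ := fun s => ms_Zc6 (t := t) (t' := t') (w := w) (w' := w') hB s none
  have hs : Measurable fun u : ℂ => sin (u - po6 t t' w w' s) := by fun_prop
  have h1 := ms_pL
  have m1 : Measurable fun u : ℂ => vF6 t' (false, false) false none (w' - u) :=
    ((lt6_v (okC6_ff t')).ms false none).comp (measurable_const.sub measurable_id)
  have m2 : Measurable fun u : ℂ => vF6 t (false, false) false none (w - u) :=
    ((lt6_v (okC6_ff t)).ms false none).comp (measurable_const.sub measurable_id)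
  have m3 : Measurable fun u : ℂ => pL (w - u) := h1.comp (measurable_const.sub measurable_id)
  have m4 : Measurable fun u : ℂ => pL (w' - u) := h1.comp (measurable_const.sub measurable_id)
  rcases s with _ | _
  · by_cases h : t' = .H
    · have e1 : hp6 X t t' w w' false = fun u => -(X false none u * pL (w' - u) *
          vF6 t (false, false) false none (w - u)) := by
        funext u
        unfold hp6
        rw [if_neg (by simp), if_pos h]
      rw [e1]
      exact (((hB.ms false none).mul m4).mul m2).neg
    · have e1 : hp6 X t t' w w' false = fun u => Zc6 X t t' w w' false none u *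
          sin (u - po6 t t' w w' false) := by
        funext u
        unfold hp6
        rw [if_neg (by simp), if_neg h]
      rw [e1]
      exact (hZ false).mul hs
  · by_cases h : t = .H
    · have e1 : hp6 X t t' w w' true = fun u => -(X true none u * pL (w - u) *
          vF6 t' (false, false) false none (w' - u)) := by
        funext u
        unfold hp6
        rw [if_pos rfl, if_pos h]
      rw [e1]
      exact (((hB.ms true none).mul m3).mul m1).neg
    · have e1 : hp6 X t t' w w' true = fun u => Zc6 X t t' w w' true none u *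
          sin (u - po6 t t' w w' true) := by
        funext u
        unfold hp6
        rw [if_pos rfl, if_neg h]
      rw [e1]
      exact (hZ true).mul hs

/-- **the poles of the class**, any types, letters at different heights -/
theorem polZ_Zc6 (hB : LgB X κ e) (hw : w.re = htL t) (hw' : w'.re = htL t')
    (him : w.im ≠ w'.im) :
    PolZ (Zc6 X t t' w w') κ (((aXt e t t' : ℤ) - aYt e t t' : ℤ) : ℝ) (av6 t t')
      (po6 t t' w w') (hp6 X t t' w w') := by
  constructor
  · exact po6_re hw hw'
  · rw [po6_im_true, po6_im_false]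
    exact him
  · intro s u h0 h1
    exact (hp6_pb hB hw hw' s).2 u ⟨h0, h1⟩
  · intro s u h0 h1 hu
    have hre := po6_re (t := t) (t' := t') (w := w) (w' := w') hw hw' s
    rcases s with _ | _
    · have key := ownP_eq (T := t') (p := w') (π := po6 t t' w w' false) hw' hre (fun h => by
        unfold po6
        rw [if_neg (by simp), if_pos h]) h0 h1 hu
      rw [Zc6_false, key, hp6_false]
      ring
    · have key := ownP_eq (T := t) (p := w) (π := po6 t t' w w' true) hw hre (fun h => by
        unfold po6
        rw [if_pos rfl, if_pos h]) h0 h1 hu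
      rw [Zc6_true, key, hp6_true]
      ring
  · intro s hs
    unfold hp6
    unfold av6 at hs
    rcases s with _ | _
    · rw [if_neg (by simp)] at hs
      rw [if_neg (by simp), if_neg (by simpa using hs), sub_self, Complex.sin_zero, mul_zero]
    · rw [if_pos rfl] at hs
      rw [if_pos rfl, if_neg (by simpa using hs), sub_self, Complex.sin_zero, mul_zero]
  · exact fun s => ms_hp6 hB s
  · exact fun s => (hp6_pb hB hw hw' s).1

end cls

end PHK

end
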