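import Pool.Agent.PHK.LetD
import Pool.Agent.PHK.LetW
import Pool.Agent.PHK.Cls6

/-!
# (P): the letters with holes and own quanta as pair functions at fixed points

* `Gn` facts: `gz_ne`: the pair function of a quantum and an object has no zero at generic points;
* **`SP_hole`**: `SP c k x * (gz (false, .A) (c, ob4 k) (x + 3 l))⁻¹ = SF c k x`;
* **`YV6_hole`**, **`YV6_qu`**, `YV6_qu'`: the class functions of the choices;
* **`vF6_hole`**: a letter with the hole of the other species is the letter without it divided by the pair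
  function of a quantum at `hx6 t w`; **`vF6_qu`**: the own quantum at the half quantum; `vF6_hole_fl`,
  `vF6_qu_fl`: the second letter.
-/

set_option autoImplicit false
set_option linter.unusedSectionVars false

noncomputable section

open Complex

namespace PHK

open NUP1 NUP1S NURow NUP1.Leg NUP1.Bd NUGC.PLX PBR.PLX

section pair

variable {x : ℂ}

theorem gn_s0 (h : Gn x) : sin x ≠ 0 := by simpa using h.sin 0

theorem gn_add (h : Gn x) (k : ℤ) {y : ℂ} (e : y = x + k * l) : Gn y := by
  rw [e]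
  exact h.of_sub k

theorem gn_sl (h : Gn x) : sin (x + l) ≠ 0 := by simpa using h.sin 1

theorem gn_s2l (h : Gn x) : sin (x + 2 * l) ≠ 0 := by simpa using h.sin 2

theorem gn_s3l (h : Gn x) : sin (x + 3 * l) ≠ 0 := by simpa using h.sin 3

theorem gn_sml (h : Gn x) : sin (x - l) ≠ 0 := by
  have := h.sin (-1)
  simpa [sub_eq_add_neg] using this

theorem gn_sm2l (h : Gn x) : sin (x - 2 * l) ≠ 0 := by
  have := h.sin (-2)
  simpa [sub_eq_add_neg] using this

theorem gn_sm3l (h : Gn x) : sin (x - 3 * l) ≠ 0 := by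
  have := h.sin (-3)
  simpa [sub_eq_add_neg] using this

theorem gn_cs (h : Gn x) : cos x ≠ 0 := by
  have h4 := h.sin 4
  have e : x + ((4 : ℤ) : ℂ) * l = 4 * l + x := by push_cast; ring
  rw [e, sin_4l] at h4
  exact h4

theorem gn_qne (h : Gn x) : q x ≠ 0 := by
  unfold q
  exact div_ne_zero (neg_ne_zero.2 (mul_ne_zero (mul_ne_zero (pow_ne_zero 2 (gn_s0 h)) (gn_s2l h)) (gn_sm2l h)))
    (mul_ne_zero (gn_sl h) (gn_sml h))

theorem gn_q1ne (h : Gn x) : q1 x ≠ 0 := by
  unfold q1
  exact mul_ne_zero (mul_ne_zero (mul_ne_zero (gn_s0 h) (gn_sl h)) (gn_sm2l h)) (gn_s3l h)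

theorem gn_qgne (h : Gn x) : qg x ≠ 0 := by
  unfold qg
  exact div_ne_zero (pow_ne_zero 2 (gn_cs h)) (mul_ne_zero (pow_ne_zero 2 (gn_s3l h)) (pow_ne_zero 2 (gn_sm3l h)))

/-- **no zeros of the pair function** of a quantum and an object at generic points -/
theorem gz_ne_gn (h : Gn x) (b c : Bool) (o : Ob) : gz (b, .A) (c, o) x ≠ 0 := by
  have h1 : Gn (x + l) := gn_add h 1 (by push_cast; ring)
  unfold gz
  by_cases hbc : b = c
  · simp only [if_pos hbc]
    cases o
    · exact (gn_qne h)
    · exact (gn_qne h)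
    · exact (gn_q1ne h)
  · simp only [if_neg hbc]
    cases o
    · exact (gn_qgne h)
    · exact (gn_qgne h)
    · exact mul_ne_zero (gn_qgne h) (gn_qgne h1)

theorem gz_not (b c : Bool) (o o' : Ob) : gz (!b, o) (!c, o') = gz (b, o) (c, o') := by
  funext z
  cases b <;> cases c <;> rfl

/-! ### the captured quantum of `SP` -/

theorem Ck_hole (h : Gn x) : CP x * (qg (x + 3 * l))⁻¹ = Ck x := by
  have h3 : Gn (x + 3 * l) := gn_add h 3 (by push_cast; ring)
  unfold CP
  rw [mul_assoc, mul_inv_cancel₀ (gn_qgne h3), mul_one]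

theorem CC_hole (h : Gn x) : CCP x * (qg (x + 3 * l) * qg (x + 3 * l + l))⁻¹ = CC x := by
  have h3 : Gn (x + 3 * l) := gn_add h 3 (by push_cast; ring)
  have h4 : Gn (x + 3 * l + l) := gn_add h 4 (by push_cast; ring)
  have hc : cos (-x - 3 * l) ≠ 0 := by
    rw [show -x - 3 * (l : ℂ) = -(x + 3 * l) by ring, Complex.cos_neg]
    exact (gn_cs h3)
  have hs : sin (3 * l + (-x - 3 * l)) ≠ 0 := by
    rw [show 3 * (l : ℂ) + (-x - 3 * l) = -x by ring, Complex.sin_neg]
    exact neg_ne_zero.2 (gn_s0 h)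
  have e := QQ_eq hc hs
  rw [show -x - 3 * (l : ℂ) = -(x + 3 * l) by ring, show -(x + 3 * (l : ℂ)) - l = -(x + 3 * l + l) by ring,
    qg_neg, qg_neg] at e
  unfold CCP
  rw [show -x - 3 * (l : ℂ) = -(x + 3 * l) by ring, ← e, mul_assoc,
    mul_inv_cancel₀ (mul_ne_zero (gn_qgne h3) (gn_qgne h4)), mul_one]

theorem Dk_hole (h : Gn x) : DP x * (q (x + 3 * l))⁻¹ = Dk x := by
  have a0 : sin (x + 3 * l) ≠ 0 := (gn_s3l h)
  have a1 : sin (x + 4 * l) ≠ 0 := by simpa using h.sin 4
  have a2 : sin (x + 2 * l) ≠ 0 := (gn_s2l h)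
  have a3 : sin (x + 5 * l) ≠ 0 := by simpa using h.sin 5
  have a4 : sin (x + l) ≠ 0 := (gn_sl h)
  have e5 : sin (3 * l - x) = sin (x + 5 * l) := by
    rw [show (3 : ℂ) * l - x = 8 * l - (x + 5 * l) by ring, l8, Complex.sin_pi_sub]
  have ec : cos x = sin (x + 4 * l) := by rw [add_comm, sin_4l]
  unfold DP Ck Dk q
  rw [show -x - 3 * (l : ℂ) = -(x + 3 * l) by ring, show -(x + 3 * (l : ℂ)) + 2 * l = -(x + l) by ring,
    show -(x + 3 * (l : ℂ)) + l = -(x + 2 * l) by ring, show x + 3 * (l : ℂ) + 2 * l = x + 5 * l by ring,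
    show x + 3 * (l : ℂ) - 2 * l = x + l by ring, show x + 3 * (l : ℂ) + l = x + 4 * l by ring,
    show x + 3 * (l : ℂ) - l = x + 2 * l by ring, Complex.sin_neg, Complex.sin_neg, Complex.sin_neg,
    e5, ec, add_comm (3 * (l : ℂ)) x]
  generalize sin (x + 3 * l) = A0 at *
  generalize sin (x + 4 * l) = A1 at *
  generalize sin (x + 2 * l) = A2 at *
  generalize sin (x + 5 * l) = A3 at *
  generalize sin (x + l) = A4 at *
  field_simp

theorem DD_hole (h : Gn x) : DDP x * (q1 (x + 3 * l))⁻¹ = NURow.DD x := by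
  have a0 : sin (x + 3 * l) ≠ 0 := (gn_s3l h)
  have a1 : sin (x + 4 * l) ≠ 0 := by simpa using h.sin 4
  have a4 : sin (x + l) ≠ 0 := (gn_sl h)
  have a6 : sin (x + 6 * l) ≠ 0 := by simpa using h.sin 6
  have e6 : sin (2 * l - x) = sin (x + 6 * l) := by
    rw [show (2 : ℂ) * l - x = 8 * l - (x + 6 * l) by ring, l8, Complex.sin_pi_sub]
  unfold DDP C2 NURow.DD q1
  rw [show -x - 3 * (l : ℂ) + 2 * l = -(x + l) by ring, show -x - 3 * (l : ℂ) - l = -(x + 4 * l) by ring,
    show x + 3 * (l : ℂ) - 2 * l = x + l by ring, show x + 3 * (l : ℂ) + l = x + 4 * l by ring,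
    show x + 3 * (l : ℂ) + 3 * l = x + 6 * l by ring, Complex.sin_neg, Complex.sin_neg,
    e6, add_comm (3 * (l : ℂ)) x]
  generalize sin (x + 3 * l) = A0 at *
  generalize sin (x + 4 * l) = A1 at *
  generalize sin (x + 6 * l) = A3 at *
  generalize sin (x + l) = A4 at *
  field_simp

/-- **the half quantum with a captured quantum and the hole at its place is the half quantum alone** -/
theorem SP_hole (h : Gn x) (c : Bool) (k : Option O3) :
    SP c k x * (gz (false, .A) (c, ob4 k) (x + 3 * l))⁻¹ = SF c k x := by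
  cases c
  · rcases k with _ | (_ | _ | _)
    · exact Dk_hole h
    · exact Dk_hole h
    · exact DD_hole h
    · exact DD_hole h
  · rcases k with _ | (_ | _ | _)
    · exact Ck_hole h
    · exact Ck_hole h
    · exact CC_hole h
    · exact CC_hole h

end pair

/-! ### the letters -/

section let_

variable {t : HT} {w z : ℂ}

/-- **the hole of the other species** of a letter -/
theorem vF6_hole {i : Bool} (h : okC6 t (i, true)) (hg : Gn (w - z)) (c : Bool) (k : Option O3) :
    vF6 t (i, true) c k (w - z) =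
      vF6 t (i, false) c k (w - z) * (gz (false, .A) (c, ob4 k) (hx6 t w - z))⁻¹ := by
  obtain ⟨h1, h2⟩ := h
  rcases h2 rfl with rfl | rfl
  · have e : hx6 .P w - z = w - z + 3 * l := by
      unfold hx6
      rw [if_pos rfl]
      ring
    rw [e]
    show SF c k (w - z) = SP c k (w - z) * _
    exact (SP_hole hg c k).symm
  · have e : hx6 .H w - z = w - z := by
      unfold hx6
      rw [if_neg (by decide)]
    rw [e]
    simp [vF6, adF]

/-- **the own quantum** at the half quantum of a letter (type `H`) -/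
theorem vF6_qu (j : Bool) (c : Bool) (k : Option O3) (y : ℂ) :
    vF6 .H (true, j) c k y = vF6 .H (false, j) c k y * gz (true, .A) (c, ob4 k) y := by
  simp only [vF6, adF, Bool.toNat_true, Bool.toNat_false, Nat.cast_one, Nat.cast_zero, zpow_one,
    zpow_zero, mul_one]
  ring

/-- the hole of the other species of the second letter -/
theorem vF6_hole_fl {i : Bool} (h : okC6 t (i, true)) (hg : Gn (w - z)) (c : Bool) (k : Option O3) :
    fl (vF6 t (i, true)) c k (w - z) =
      fl (vF6 t (i, false)) c k (w - z) * (gz (true, .A) (c, ob4 k) (hx6 t w - z))⁻¹ := by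
  show vF6 t (i, true) (!c) k (w - z) = vF6 t (i, false) (!c) k (w - z) * _
  have e : gz (false, .A) (!c, ob4 k) = gz (true, .A) (c, ob4 k) := gz_not true c _ _
  rw [vF6_hole h hg, e]

/-- the own quantum of the second letter (type `H`) -/
theorem vF6_qu_fl (j : Bool) (c : Bool) (k : Option O3) (y : ℂ) :
    fl (vF6 .H (true, j)) c k y = fl (vF6 .H (false, j)) c k y * gz (false, .A) (c, ob4 k) y := by
  show vF6 .H (true, j) (!c) k y = vF6 .H (false, j) (!c) k y * _
  have e : gz (true, .A) (!c, ob4 k) = gz (false, .A) (c, ob4 k) := gz_not false c _ _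
  rw [vF6_qu, e]

/-- **the class functions of the choices**: holes (`j`: species Y, at `hx6 t w`; `j'`: species X, at
`hx6 t' w'`) -/
theorem YV6_hole (X : Bool → Option O3 → ℂ → ℂ) {t' : HT} {w' : ℂ} {i j i' j' : Bool}
    (h : okC6 t (i, j)) (h' : okC6 t' (i', j')) (hg : Gn (w - z)) (hg' : Gn (w' - z)) (a : Bool)
    (k : Option O3) : YV6 X t t' w w' ((i, j), (i', j')) a k z =
      YV6 X t t' w w' ((i, false), (i', false)) a k z *
        ((if j' = true then gz (true, .A) (a, ob4 k) (hx6 t' w' - z) else 1) *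
          (if j = true then gz (false, .A) (a, ob4 k) (hx6 t w - z) else 1))⁻¹ := by
  show X a k z * (vF6 t (i, j) a k (w - z) * fl (vF6 t' (i', j')) a k (w' - z)) =
    X a k z * (vF6 t (i, false) a k (w - z) * fl (vF6 t' (i', false)) a k (w' - z)) * _
  have e1 : vF6 t (i, j) a k (w - z) = vF6 t (i, false) a k (w - z) *
      (if j = true then gz (false, .A) (a, ob4 k) (hx6 t w - z) else 1)⁻¹ := by
    cases j
    · simp
    · rw [vF6_hole h hg, if_pos rfl]
  have e2 : fl (vF6 t' (i', j')) a k (w' - z) = fl (vF6 t' (i', false)) a k (w' - z) *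
      (if j' = true then gz (true, .A) (a, ob4 k) (hx6 t' w' - z) else 1)⁻¹ := by
    cases j'
    · simp
    · rw [vF6_hole_fl h' hg', if_pos rfl]
  rw [e1, e2, mul_inv]
  ring

/-- **the class functions of the choices**: the own quantum of the first letter -/
theorem YV6_qu (X : Bool → Option O3 → ℂ → ℂ) {t' : HT} {w' : ℂ} (j : Bool) (u' : Ch6) (a : Bool)
    (k : Option O3) : YV6 X .H t' w w' ((true, j), u') a k z =
      YV6 X .H t' w w' ((false, j), u') a k z * gz (true, .A) (a, ob4 k) (w - z) := by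
  show X a k z * (vF6 .H (true, j) a k (w - z) * fl (vF6 t' u') a k (w' - z)) =
    X a k z * (vF6 .H (false, j) a k (w - z) * fl (vF6 t' u') a k (w' - z)) * _
  rw [vF6_qu]
  ring

/-- **the class functions of the choices**: the own quantum of the second letter -/
theorem YV6_qu' (X : Bool → Option O3 → ℂ → ℂ) {w' : ℂ} (u : Ch6) (j' : Bool) (a : Bool)
    (k : Option O3) : YV6 X t .H w w' (u, (true, j')) a k z =
      YV6 X t .H w w' (u, (false, j')) a k z * gz (false, .A) (a, ob4 k) (w' - z) := by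
  show X a k z * (vF6 t u a k (w - z) * fl (vF6 .H (true, j')) a k (w' - z)) =
    X a k z * (vF6 t u a k (w - z) * fl (vF6 .H (false, j')) a k (w' - z)) * _
  rw [vF6_qu_fl]
  ring

end let_

end PHK

end
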