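import Pool.Agent.PHK.LgDef

/-!
# (P): the letters, their regular inverses

`x = w - z`.
* `Gx x`: generic point (no sine of `x + k l` vanishes), `Gx.sn`, `Gx.cs`;
* **`eL_eq`**: `vF6 t (i, false) c none x * eL t i c x = 1` or `-(x - x06 t c)`; **`eL_diff`**: `eL` is
  analytic in `(htL t - 63/64 l, htL t - 1/9 l)`;
* **`pL_eq`**, `pL_diff`: the own pole of the letter `H`;
* `rL_P`, `rL_Hff`, `rL_Htf`, **`rL_Htt`**, `rL_ne`, `pL0_ne`: the values at the zeros.
-/

set_option autoImplicit false
set_option linter.unusedSectionVars false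

noncomputable section

open Complex

namespace PHK

open NUP1 NURow NUP1.Leg NUP1.Bd NUGC.PLX PBR.PLX
open NUP1S hiding sc
open Pool.Agent.PHD (sc sin_sc sc_ne sc_diff sc_zero)

/-! ### generic points -/

/-- generic point -/
def Gx (x : ℂ) : Prop := x.im ≠ 0 ∨ ∀ k : ℤ, x.re ≠ k * l

/-- **no sine vanishes at a generic point** -/
theorem Gx.sn {x : ℂ} (h : Gx x) (k : ℤ) {y : ℂ} (e : y = x + k * l) : sin y ≠ 0 := by
  intro h0
  obtain ⟨m, hm⟩ := Complex.sin_eq_zero_iff.1 h0
  have hl8 : Real.pi = 8 * l := by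
    unfold NUP1.l
    ring
  have e1 := congrArg Complex.im hm
  have e2 := congrArg Complex.re hm
  rw [e] at e1 e2
  have i1 : (x + (k : ℂ) * (l : ℂ)).im = x.im := by simp
  have i2 : ((m : ℂ) * (Real.pi : ℂ)).im = 0 := by simp
  have i3 : (x + (k : ℂ) * (l : ℂ)).re = x.re + k * l := by simp
  have i4 : ((m : ℂ) * (Real.pi : ℂ)).re = m * Real.pi := by simp
  rw [i1, i2] at e1
  rw [i3, i4, hl8] at e2
  rcases h with h | h
  · exact h e1
  · refine h (8 * m - k) ?_
    push_cast
    linarith

theorem cos_eq_sin (y : ℂ) : cos y = sin (y + 4 * l) := by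
  have e : (4 : ℂ) * (l : ℂ) = Real.pi / 2 := by
    rw [← l8]
    ring
  rw [e, Complex.sin_add_pi_div_two]

/-- **no cosine vanishes at a generic point** -/
theorem Gx.cs {x : ℂ} (h : Gx x) (k : ℤ) {y : ℂ} (e : y = x + k * l) : cos y ≠ 0 := by
  rw [cos_eq_sin]
  refine h.sn (k + 4) ?_
  rw [e]
  push_cast
  ring

theorem Gx.neg {x : ℂ} (h : Gx x) : Gx (-x) := by
  rcases h with h | h
  · exact Or.inl (by rw [neg_im]; exact neg_ne_zero.2 h)
  · refine Or.inr fun k hk => h (-k) ?_
    rw [neg_re] at hk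
    push_cast
    linarith

theorem sc_ne_of {y : ℂ} (h : sin y ≠ 0) : sc y ≠ 0 := by
  intro h0
  rw [sin_sc, h0, mul_zero] at h
  exact h rfl

theorem ne_of_sin {y : ℂ} (h : sin y ≠ 0) : y ≠ 0 := by
  rintro rfl
  exact h Complex.sin_zero

/-! ### the functions of the letters on quanta -/

theorem vF6_W (c : Bool) (x : ℂ) : vF6 .W (false, false) c none x = if c = true then Ck x else Dk x := by
  cases c <;> rfl

theorem vF6_F (c : Bool) (x : ℂ) : vF6 .F (false, false) c none x = if c = true then Ck x else Dk x := by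
  cases c <;> rfl

theorem vF6_Pt (i : Bool) (x : ℂ) : vF6 .P (i, false) true none x = Ck x * qg (x + 3 * l) := rfl

theorem vF6_Pf (i : Bool) (x : ℂ) : vF6 .P (i, false) false none x = Ck (-x - 3 * l) := rfl

theorem vF6_Ht (i : Bool) (x : ℂ) : vF6 .H (i, false) true none x =
    qg (x - 2 * l) * qg (x - 2 * l - l) * Ck x * q x ^ i.toNat := by
  have e : vF6 .H (i, false) true none x =
      qg (x - 2 * l) * qg (x - 2 * l - l) * Ck x * q x ^ (i.toNat : ℤ) *
        qg x ^ (-((0 : ℕ) : ℤ)) := rfl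
  rw [e, zpow_natCast]
  simp

theorem vF6_Hf (i : Bool) (x : ℂ) : vF6 .H (i, false) false none x =
    q1 (-(x - 2 * l)) * Dk x * qg x ^ i.toNat := by
  have e : vF6 .H (i, false) false none x =
      q1 (-(x - 2 * l)) * Dk x * qg x ^ (i.toNat : ℤ) * q x ^ (-((0 : ℕ) : ℤ)) := rfl
  rw [e, zpow_natCast]
  simp

theorem Ck_ne {x : ℂ} (hx : Gx x) : Ck x * (sin (x + l) / (sin x * sin (x + 2 * l))) = 1 := by
  have h0 := hx.sn 0 (y := x) (by push_cast; ring)
  have h1 := hx.sn 1 (y := x + l) (by push_cast; ring)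
  have h2 := hx.sn 2 (y := x + 2 * l) (by push_cast; ring)
  unfold Ck
  field_simp

theorem Dk_ne {x : ℂ} (hx : Gx x) : Dk x * (sin (3 * l - x) * sin (3 * l + x) / cos x) = 1 := by
  have h0 := hx.neg.sn 3 (y := 3 * l - x) (by push_cast; ring)
  have h1 := hx.sn 3 (y := 3 * l + x) (by push_cast; ring)
  have h2 := hx.cs 0 (y := x) (by push_cast; ring)
  unfold Dk
  field_simp

/-- the own function of `H` on quanta -/
theorem vF6_Ht_eq {x : ℂ} (hx : Gx x) : qg (x - 2 * l) * qg (x - 2 * l - l) * Ck x =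
    sin (x + 2 * l) / (sin (x + l) * sin (x - 5 * l) ^ 2 * sin x) := by
  have h0 := hx.sn 0 (y := x) (by push_cast; ring)
  have h1 := hx.sn 1 (y := x + l) (by push_cast; ring)
  have h2 := hx.sn 2 (y := x + 2 * l) (by push_cast; ring)
  have h5 := hx.sn (-5) (y := x - 5 * l) (by push_cast; ring)
  have e1 : cos (x - 2 * l) = sin (x + 2 * l) := by
    rw [cos_eq_sin]
    congr 1
    ring
  have e2 : cos (x - 2 * l - l) = sin (x + l) := by
    rw [cos_eq_sin]
    congr 1
    ring
  have e3 : sin (x - 2 * l - l - 3 * l) = -sin (x + 2 * l) := by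
    rw [show x - 2 * (l : ℂ) - l - 3 * l = x + 2 * l - 8 * l by ring, l8, Complex.sin_sub_pi]
  unfold qg Ck
  rw [e1, e2, e3, show x - 2 * (l : ℂ) + 3 * l = x + l by ring,
    show x - 2 * (l : ℂ) - 3 * l = x - 5 * l by ring, show x - 2 * (l : ℂ) - l + 3 * l = x by ring]
  field_simp

/-- the other function of `H` on quanta -/
theorem vF6_Hf_eq {x : ℂ} (hx : Gx x) : q1 (-(x - 2 * l)) * Dk x =
    cos x * sin (x - 2 * l) * sin x := by
  have h0 := hx.neg.sn 3 (y := 3 * l - x) (by push_cast; ring)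
  have h1 := hx.sn 3 (y := 3 * l + x) (by push_cast; ring)
  have e1 : sin (-(x - 2 * (l : ℂ)) + 3 * l) = sin (3 * l + x) := by
    rw [show -(x - 2 * (l : ℂ)) + 3 * l = 8 * l - (3 * l + x) by ring, l8, Complex.sin_pi_sub]
  have e2 : sin (-(x - 2 * (l : ℂ)) - 2 * l) = -sin x := by
    rw [← Complex.sin_neg]
    congr 1
    ring
  unfold q1 Dk
  rw [e1, e2, Complex.sin_neg, show -(x - 2 * (l : ℂ)) + l = 3 * l - x by ring]
  generalize sin (3 * (l : ℂ) - x) = A at h0 ⊢
  generalize sin (3 * (l : ℂ) + x) = B at h1 ⊢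
  generalize sin (x - 2 * (l : ℂ)) = C
  field_simp

/-- **the regular part of the own pole** -/
theorem pL_eq {x : ℂ} (hx : Gx x) : vF6 .H (false, false) true none x = pL x / sin x := by
  rw [vF6_Ht]
  show _ * q x ^ 0 = _
  rw [pow_zero, mul_one, vF6_Ht_eq hx]
  unfold pL
  rw [div_div]

/-- **the regular inverse** -/
theorem eL_eq {t : HT} {i c : Bool} {x : ℂ} (h : i = true → t = .H) (hx : Gx x) :
    vF6 t (i, false) c none x * eL t i c x = if zz6 t i c = true then -(x - x06 t c) else 1 := by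
  have hi : t ≠ .H → i = false := by
    intro ht
    by_contra hc
    exact ht (h (by simpa using hc))
  rcases t with _ | _ | _ | _
  · obtain rfl := hi (by simp)
    cases c
    · exact Dk_ne hx
    · exact Ck_ne hx
  · obtain rfl := hi (by simp)
    cases c
    · exact Dk_ne hx
    · exact Ck_ne hx
  · obtain rfl := hi (by simp)
    cases c
    · show Ck (-x - 3 * l) * (sin (x + 2 * l) / (sc (x + 3 * l) * sin (x + l))) = -(x - -(3 * l))
      have h1 := hx.sn 1 (y := x + l) (by push_cast; ring)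
      have h2 := hx.sn 2 (y := x + 2 * l) (by push_cast; ring)
      have h3 := sc_ne_of (hx.sn 3 (y := x + 3 * l) (by push_cast; ring))
      have e1 : sin (-x - 3 * (l : ℂ)) = -((x + 3 * l) * sc (x + 3 * l)) := by
        rw [← sin_sc, ← Complex.sin_neg]
        congr 1
        ring
      have e2 : sin (-x - 3 * (l : ℂ) + 2 * l) = -sin (x + l) := by
        rw [← Complex.sin_neg]
        congr 1
        ring
      have e3 : sin (-x - 3 * (l : ℂ) + l) = -sin (x + 2 * l) := by
        rw [← Complex.sin_neg]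
        congr 1
        ring
      unfold Ck
      rw [e1, e2, e3]
      clear h hi e1 e2 e3
      generalize sin (x + l) = A at *
      generalize sin (x + 2 * (l : ℂ)) = B at *
      generalize sc (x + 3 * (l : ℂ)) = C at *
      field_simp
      ring
    · show Ck x * qg (x + 3 * l) * (sin (x + l) * sin x * sin (x + 6 * l) ^ 2 /
        (sin (x + 2 * l) * cos (x + 3 * l) ^ 2)) = 1
      have h0 := hx.sn 0 (y := x) (by push_cast; ring)
      have h1 := hx.sn 1 (y := x + l) (by push_cast; ring)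
      have h2 := hx.sn 2 (y := x + 2 * l) (by push_cast; ring)
      have h6 := hx.sn 6 (y := x + 6 * l) (by push_cast; ring)
      have h3 := hx.cs 3 (y := x + 3 * l) (by push_cast; ring)
      unfold Ck qg
      rw [show x + 3 * (l : ℂ) + 3 * l = x + 6 * l by ring, show x + 3 * (l : ℂ) - 3 * l = x by ring]
      clear h hi
      generalize sin x = A at *
      generalize sin (x + l) = B at *
      generalize sin (x + 2 * (l : ℂ)) = C at *
      generalize sin (x + 6 * (l : ℂ)) = D at *
      generalize cos (x + 3 * (l : ℂ)) = E at *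
      field_simp
  · have h0 := hx.sn 0 (y := x) (by push_cast; ring)
    have h1 := hx.sn 1 (y := x + l) (by push_cast; ring)
    have h2 := hx.sn 2 (y := x + 2 * l) (by push_cast; ring)
    have h3 := hx.sn 3 (y := x + 3 * l) (by push_cast; ring)
    have m1 := hx.sn (-1) (y := x - l) (by push_cast; ring)
    have m2 := hx.sn (-2) (y := x - 2 * l) (by push_cast; ring)
    have m3 := hx.sn (-3) (y := x - 3 * l) (by push_cast; ring)
    have m5 := hx.sn (-5) (y := x - 5 * l) (by push_cast; ring)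
    have c0 := hx.cs 0 (y := x) (by push_cast; ring)
    have s0 := sc_ne_of h0
    cases c
    · rw [vF6_Hf, vF6_Hf_eq hx]
      cases i
      · show cos x * sin (x - 2 * l) * sin x * qg x ^ 0 * (-(1 / (sc x * cos x * sin (x - 2 * l)))) =
          -(x - 0)
        rw [pow_zero, mul_one, sin_sc x]
        generalize sc x = S at *
        generalize cos x = C at *
        generalize sin (x - 2 * (l : ℂ)) = A at *
        field_simp
        try ring
      · show cos x * sin (x - 2 * l) * sin x * qg x ^ 1 *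
          (-(sin (x + 3 * l) ^ 2 * sin (x - 3 * l) ^ 2 / (sc x * cos x ^ 3 * sin (x - 2 * l)))) =
          -(x - 0)
        rw [pow_one, sin_sc x]
        unfold qg
        generalize sc x = S at *
        generalize cos x = C at *
        generalize sin (x - 2 * (l : ℂ)) = A at *
        generalize sin (x + 3 * (l : ℂ)) = B at *
        generalize sin (x - 3 * (l : ℂ)) = D at *
        field_simp
        try ring
    · rw [vF6_Ht, vF6_Ht_eq hx]
      cases i
      · show sin (x + 2 * l) / (sin (x + l) * sin (x - 5 * l) ^ 2 * sin x) * q x ^ 0 *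
          (sin (x + l) * sin x * sin (x - 5 * l) ^ 2 / sin (x + 2 * l)) = 1
        rw [pow_zero, mul_one]
        generalize sin x = S at *
        generalize sin (x + l) = A at *
        generalize sin (x + 2 * (l : ℂ)) = B at *
        generalize sin (x - 5 * (l : ℂ)) = D at *
        field_simp
      · show sin (x + 2 * l) / (sin (x + l) * sin (x - 5 * l) ^ 2 * sin x) * q x ^ 1 *
          (sin (x + l) ^ 2 * sin (x - l) * sin (x - 5 * l) ^ 2 /
            (sc x * sin (x + 2 * l) ^ 2 * sin (x - 2 * l))) = -(x - 0)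
        have e : q x = -(x * sc x * sin x * sin (x + 2 * l) * sin (x - 2 * l)) /
            (sin (x + l) * sin (x - l)) := by
          unfold q
          rw [← sin_sc x]
          ring
        rw [pow_one, e]
        clear e
        generalize sc x = S at *
        generalize sin x = T at *
        generalize sin (x + l) = A at *
        generalize sin (x - l) = A' at *
        generalize sin (x + 2 * (l : ℂ)) = B at *
        generalize sin (x - 2 * (l : ℂ)) = B' at *
        generalize sin (x - 5 * (l : ℂ)) = D at *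
        field_simp
        try ring

/-! ### analyticity -/

theorem sin_neL {y : ℂ} (h0 : 0 < y.re) (h1 : y.re < 8 * l) : sin y ≠ 0 := by
  refine Pool.Agent.PHD.sin_ne h0 ?_
  have : (8 : ℝ) * l = Real.pi := by
    unfold NUP1.l
    ring
  linarith

theorem sin_neL' {y : ℂ} (h0 : y.re < 0) (h1 : -(8 * l) < y.re) : sin y ≠ 0 := by
  refine Pool.Agent.PHD.sin_ne' h0 ?_
  have : (8 : ℝ) * l = Real.pi := by
    unfold NUP1.l
    ring
  linarith

theorem cos_neL {y : ℂ} (h0 : -(4 * l) < y.re) (h1 : y.re < 4 * l) : cos y ≠ 0 := by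
  rw [cos_eq_sin]
  have e : (y + 4 * (l : ℂ)).re = y.re + 4 * l := by simp
  refine sin_neL ?_ ?_ <;> rw [e] <;> linarith

theorem cos_neL' {y : ℂ} (h0 : -(12 * l) < y.re) (h1 : y.re < -(4 * l)) : cos y ≠ 0 := by
  rw [cos_eq_sin]
  have e : (y + 4 * (l : ℂ)).re = y.re + 4 * l := by simp
  refine sin_neL' ?_ ?_ <;> rw [e] <;> linarith

theorem sc_neL {y : ℂ} (h0 : -(8 * l) < y.re) (h1 : y.re < 8 * l) : sc y ≠ 0 := by
  refine sc_ne ?_
  have : (8 : ℝ) * l = Real.pi := by
    unfold NUP1.l
    ring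
  rw [abs_lt]
  constructor <;> linarith

theorem sc_at (f : ℂ → ℂ) {x : ℂ} (hf : DifferentiableAt ℂ f x) :
    DifferentiableAt ℂ (fun x => sc (f x)) x := (sc_diff (f x)).comp x hf

/-- **`eL` is analytic in the strip of the quanta** -/
theorem eL_diff {t : HT} {i c : Bool} {x : ℂ} (h : i = true → t = .H)
    (h1 : htL t - 63 / 64 * l < x.re) (h2 : x.re < htL t - 1 / 9 * l) :
    DifferentiableAt ℂ (eL t i c) x := by
  have hl : 0 < l := Bd.l_pos
  have r1 : ∀ a : ℝ, (x + (a : ℂ) * (l : ℂ)).re = x.re + a * l := fun a => by simp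
  have e1 : (x + (l : ℂ)).re = x.re + l := by simp
  have e2 : (x + 2 * (l : ℂ)).re = x.re + 2 * l := by simp
  have e3 : (x + 3 * (l : ℂ)).re = x.re + 3 * l := by simp
  have m2 : (x - 2 * (l : ℂ)).re = x.re - 2 * l := by simp
  rcases t with _ | _ | _ | _
  · simp only [htL] at h1 h2
    cases c
    · show DifferentiableAt ℂ (fun x => sin (3 * l - x) * sin (3 * l + x) / cos x) x
      refine DifferentiableAt.div (by fun_prop) (by fun_prop) (cos_neL ?_ ?_) <;> linarith
    · show DifferentiableAt ℂ (fun x => sin (x + l) / (sin x * sin (x + 2 * l))) x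
      refine DifferentiableAt.div (by fun_prop) (by fun_prop)
        (mul_ne_zero (sin_neL ?_ ?_) (sin_neL ?_ ?_)) <;> (try rw [e2]) <;> linarith
  · simp only [htL] at h1 h2
    cases c
    · show DifferentiableAt ℂ (fun x => sin (3 * l - x) * sin (3 * l + x) / cos x) x
      refine DifferentiableAt.div (by fun_prop) (by fun_prop) (cos_neL ?_ ?_) <;> linarith
    · show DifferentiableAt ℂ (fun x => sin (x + l) / (sin x * sin (x + 2 * l))) x
      refine DifferentiableAt.div (by fun_prop) (by fun_prop)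
        (mul_ne_zero (sin_neL' ?_ ?_) (sin_neL' ?_ ?_)) <;> (try rw [e2]) <;> linarith
  · simp only [htL] at h1 h2
    cases c
    · show DifferentiableAt ℂ (fun x => sin (x + 2 * l) / (sc (x + 3 * l) * sin (x + l))) x
      refine DifferentiableAt.div (by fun_prop)
        (DifferentiableAt.mul (sc_at _ (by fun_prop)) (by fun_prop))
        (mul_ne_zero (sc_neL ?_ ?_) (sin_neL' ?_ ?_)) <;> (try rw [e3]) <;> (try rw [e1]) <;> linarith
    · show DifferentiableAt ℂ (fun x => sin (x + l) * sin x * sin (x + 6 * l) ^ 2 /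
        (sin (x + 2 * l) * cos (x + 3 * l) ^ 2)) x
      refine DifferentiableAt.div (by fun_prop) (by fun_prop)
        (mul_ne_zero (sin_neL' ?_ ?_) (pow_ne_zero 2 (cos_neL ?_ ?_))) <;> (try rw [e2]) <;>
        (try rw [e3]) <;> linarith
  · simp only [htL] at h1 h2
    have hs : DifferentiableAt ℂ sc x := sc_diff x
    have n0 : sc x ≠ 0 := sc_neL (by linarith) (by linarith)
    have n1 : cos x ≠ 0 := cos_neL (by linarith) (by linarith)
    have n2 : sin (x - 2 * (l : ℂ)) ≠ 0 := sin_neL' (by rw [m2]; linarith) (by rw [m2]; linarith)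
    have n3 : sin (x + 2 * (l : ℂ)) ≠ 0 := sin_neL (by rw [e2]; linarith) (by rw [e2]; linarith)
    have d1 : DifferentiableAt ℂ (fun x : ℂ => cos x) x := by fun_prop
    have d2 : DifferentiableAt ℂ (fun x : ℂ => sin (x - 2 * l)) x := by fun_prop
    have d3 : DifferentiableAt ℂ (fun x : ℂ => sin (x + 2 * l) ^ 2) x := by fun_prop
    cases c
    · cases i
      · have hd : DifferentiableAt ℂ (fun x => sc x * cos x * sin (x - 2 * l)) x :=
          (hs.mul d1).mul d2
        exact ((differentiableAt_const (1 : ℂ)).div hd (mul_ne_zero (mul_ne_zero n0 n1) n2)).neg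
      · have hd : DifferentiableAt ℂ (fun x => sc x * cos x ^ 3 * sin (x - 2 * l)) x :=
          (hs.mul (d1.pow 3)).mul d2
        have hn : DifferentiableAt ℂ (fun x : ℂ => sin (x + 3 * l) ^ 2 * sin (x - 3 * l) ^ 2) x := by
          fun_prop
        exact (hn.div hd (mul_ne_zero (mul_ne_zero n0 (pow_ne_zero 3 n1)) n2)).neg
    · cases i
      · have hn : DifferentiableAt ℂ (fun x : ℂ => sin (x + l) * sin x * sin (x - 5 * l) ^ 2) x := by
          fun_prop
        have hd : DifferentiableAt ℂ (fun x : ℂ => sin (x + 2 * l)) x := by fun_prop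
        exact hn.div hd n3
      · have hn : DifferentiableAt ℂ
            (fun x : ℂ => sin (x + l) ^ 2 * sin (x - l) * sin (x - 5 * l) ^ 2) x := by fun_prop
        have hd : DifferentiableAt ℂ (fun x => sc x * sin (x + 2 * l) ^ 2 * sin (x - 2 * l)) x :=
          (hs.mul d3).mul d2
        exact hn.div hd (mul_ne_zero (mul_ne_zero n0 (pow_ne_zero 2 n3)) n2)

theorem pL_diff {x : ℂ} (h1 : -(3 / 8) * l ≤ x.re) (h2 : x.re ≤ 23 / 200 * l) :
    DifferentiableAt ℂ pL x := by
  have hl : 0 < l := Bd.l_pos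
  have e1 : (x + (l : ℂ)).re = x.re + l := by simp
  have m5 : (x - 5 * (l : ℂ)).re = x.re - 5 * l := by simp
  show DifferentiableAt ℂ (fun x => sin (x + 2 * l) / (sin (x + l) * sin (x - 5 * l) ^ 2)) x
  refine DifferentiableAt.div (by fun_prop) (by fun_prop)
    (mul_ne_zero (sin_neL ?_ ?_) (pow_ne_zero 2 (sin_neL' ?_ ?_))) <;> (try rw [e1]) <;>
    (try rw [m5]) <;> linarith

/-! ### the values at the zeros -/

private theorem slk (k : ℕ) (h0 : 0 < k) (h8 : k < 8) : sin ((k : ℂ) * l) ≠ 0 := by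
  have h := sinl_pos k h0 h8
  have e : sin ((k : ℂ) * l) = ((Real.sin (k * l) : ℝ) : ℂ) := by push_cast; rfl
  rw [e]
  exact_mod_cast h.ne'

theorem sl1_ne : sin (l : ℂ) ≠ 0 := by simpa using slk 1 (by norm_num) (by norm_num)

theorem sl2_ne : sin (2 * (l : ℂ)) ≠ 0 := by simpa using slk 2 (by norm_num) (by norm_num)

theorem sl3_ne : sin (3 * (l : ℂ)) ≠ 0 := by simpa using slk 3 (by norm_num) (by norm_num)

theorem sl5_ne : sin (5 * (l : ℂ)) ≠ 0 := by simpa using slk 5 (by norm_num) (by norm_num)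

theorem cl1_ne : cos (l : ℂ) ≠ 0 := by
  intro h
  refine sl2_ne ?_
  rw [Complex.sin_two_mul, h, mul_zero]

theorem x06_P : x06 .P false = -(3 * l) := by simp [x06]

theorem x06_H (c : Bool) : x06 .H c = 0 := by simp [x06]

theorem eL_P (i : Bool) (x : ℂ) :
    eL .P i false x = sin (x + 2 * l) / (sc (x + 3 * l) * sin (x + l)) := rfl

theorem eL_Hff (x : ℂ) : eL .H false false x = -(1 / (sc x * cos x * sin (x - 2 * l))) := rfl

theorem eL_Htf (x : ℂ) : eL .H true false x = -(sin (x + 3 * l) ^ 2 * sin (x - 3 * l) ^ 2 /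
    (sc x * cos x ^ 3 * sin (x - 2 * l))) := rfl

theorem eL_Htt (x : ℂ) : eL .H true true x = sin (x + l) ^ 2 * sin (x - l) * sin (x - 5 * l) ^ 2 /
    (sc x * sin (x + 2 * l) ^ 2 * sin (x - 2 * l)) := rfl

theorem rL_P (i : Bool) : rL .P i false = 2 * cos l := by
  unfold rL
  rw [x06_P, eL_P, show -(3 * (l : ℂ)) + 2 * l = -l by ring, show -(3 * (l : ℂ)) + 3 * l = 0 by ring,
    show -(3 * (l : ℂ)) + l = -(2 * l) by ring, sc_zero, Complex.sin_neg, Complex.sin_neg,
    Complex.sin_two_mul]
  have h1 := sl1_ne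
  have h2 := cl1_ne
  field_simp

theorem rL_Hff : rL .H false false = sin (2 * l) := by
  unfold rL
  rw [x06_H, eL_Hff, sc_zero, Complex.cos_zero, zero_sub, Complex.sin_neg]
  have h2 := sl2_ne
  field_simp

theorem rL_Htf : rL .H true false = sin (2 * l) / sin (3 * l) ^ 4 := by
  unfold rL
  rw [x06_H, eL_Htf, sc_zero, Complex.cos_zero, zero_sub, zero_sub, zero_add, Complex.sin_neg, Complex.sin_neg]
  have h2 := sl2_ne
  have h3 := sl3_ne
  field_simp
  try ring

theorem pL0 : pL 0 = sin (2 * l) / (sin l * sin (5 * l) ^ 2) := by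
  show sin (0 + 2 * l) / (sin (0 + l) * sin (0 - 5 * l) ^ 2) = _
  rw [zero_add, zero_add, zero_sub, Complex.sin_neg, neg_sq]

theorem pL0_ne : pL 0 ≠ 0 := by
  rw [pL0]
  exact div_ne_zero sl2_ne (mul_ne_zero sl1_ne (pow_ne_zero 2 sl5_ne))

/-- **the own zero of the filled letter `H`: the residue of the own pole** -/
theorem rL_Htt : rL .H true true = kp * pL 0 := by
  rw [pL0]
  unfold rL kp
  rw [x06_H, eL_Htt, sc_zero, zero_sub, zero_sub, zero_sub, zero_add, zero_add, Complex.sin_neg, Complex.sin_neg,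
    Complex.sin_neg]
  have h1 := sl1_ne
  have h2 := sl2_ne
  have h5 := sl5_ne
  field_simp

/-- **the derivatives at the zeros do not vanish** -/
theorem rL_ne {t : HT} {i c : Bool} (h : i = true → t = .H) (hz : zz6 t i c = true) :
    rL t i c ≠ 0 := by
  cases c
  · have ht : t = .P ∨ t = .H := by
      simpa [zz6, hz6] using hz
    rcases ht with rfl | rfl
    · rw [rL_P]
      exact mul_ne_zero two_ne_zero cl1_ne
    · cases i
      · rw [rL_Hff]
        exact sl2_ne
      · rw [rL_Htf]
        exact div_ne_zero sl2_ne (pow_ne_zero 4 sl3_ne)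
  · have hi : i = true := by
      simpa [zz6] using hz
    subst hi
    obtain rfl := h rfl
    rw [rL_Htt]
    refine mul_ne_zero ?_ pL0_ne
    unfold kp
    exact pow_ne_zero 2 (div_ne_zero sl2_ne sl1_ne)

end PHK

end
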