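import Pool.Agent.PHK.LgGn
import Pool.Agent.PHK.LgBd
import Pool.Agent.PHK.LgBr
import Pool.Agent.PHK.LgLet
import Pool.Agent.PHK.LgZL

/-!
# (P): the zeros of the filled classes of two letters

* `LgZ.ZFl_Zc6`: the class with the quanta at the poles, letter by letter;
* `LgZ.prod_nu`, `LgZ.prod_nu_erase`: products over the zeros;
* `LgZ.zB6_re`, `LgZ.ze6_inj`, **`stZ6_Lg`**: the places of the zeros;
* `LgZ.Ei6_mul`: class times regular inverse; **`LgZ.Ei6_rho`**: the residues; `LgZ.Ei6_bd`: the bound;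
* **`zerZ_Lg`**: `ZerZ (ZFl (Zc6 X t t' w w') (po6 t t' w w') i) par6 bZ (κ + 1 / 2) ..`;
  **`zerZ_fil`** (`bZ = 39/64 l`, any types), **`zerZ_reg`** (`bZ = 63/64 l`, `t, t' ≠ H`, no filling).
-/

set_option autoImplicit false
set_option linter.unusedSectionVars false

noncomputable section

open Complex MeasureTheory Finset
open scoped ENNReal

open PLX (Fil)

namespace PHK

open NUO NUP1 NUP1S NUP1S.Mg NURow NUCR NUP1.Leg NUGC.PLX PBR.PLX
open NUP1.Bd (wt qg Ob)
open Pool.Agent.PLX (InvZ6)

namespace LgZ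

/-! ### tools -/

/-- a bound for a function of `w - u` -/
theorem bdd_one6 {K K' : Set ℝ} {s : ℝ} {g : ℂ → ℂ} (h : Bdd K' s g) (w : ℂ)
    (hK : ∀ x ∈ K, w.re - x ∈ K') : Bdd K s fun u => g (w - u) := by
  obtain ⟨C, hC, h1⟩ := h
  refine ⟨C * Real.exp (|s| * |w.im|), by positivity, fun u hu => ?_⟩
  refine (h1 (w - u) (by rw [sub_re]; exact hK _ hu)).trans ?_
  rw [mul_assoc, ← Real.exp_add]
  refine mul_le_mul_of_nonneg_left (Real.exp_le_exp.2 ?_) hC
  rw [sub_im]
  have e1 : s * |w.im - u.im| - s * |u.im| ≤ |s| * |w.im| := by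
    rw [← mul_sub]
    refine (le_abs_self _).trans ?_
    rw [abs_mul]
    refine mul_le_mul_of_nonneg_left ?_ (abs_nonneg s)
    have := abs_abs_sub_abs_le_abs_sub (w.im - u.im) (-u.im)
    rw [abs_neg] at this
    refine this.trans (le_of_eq ?_)
    congr 1
    ring
  linarith

/-- a product over a subtype of `Bool` -/
theorem prod_nu (p : Bool → Bool) (g : Bool → ℂ) : ∏ j : {j : Bool // p j = true}, g j.1 =
    (if p false = true then g false else 1) * (if p true = true then g true else 1) := by
  have h := prod_eB (p := p) (e := (p false, p true)) ⟨id, id⟩ g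
  rw [← h]
  refine Finset.prod_congr ?_ fun _ _ => rfl
  ext ⟨j, hj⟩
  rw [mem_eB]
  cases j <;> simpa using hj

/-- a product over the others -/
theorem prod_nu_erase (p : Bool → Bool) {b : Bool} (hb : p b = true) (g : Bool → ℂ)
    [DecidableEq {j : Bool // p j = true}] :
    ∏ j ∈ univ.erase (⟨b, hb⟩ : {j : Bool // p j = true}), g j.1 =
      if p (!b) = true then g (!b) else 1 := by
  by_cases h : p (!b) = true
  · have e : univ.erase (⟨b, hb⟩ : {j : Bool // p j = true}) = {⟨!b, h⟩} := by
      ext ⟨c, hc⟩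
      rw [Finset.mem_erase, Finset.mem_singleton]
      cases b <;> cases c <;> simp
    rw [e, Finset.prod_singleton, if_pos h]
  · have e : univ.erase (⟨b, hb⟩ : {j : Bool // p j = true}) = ∅ := by
      ext ⟨c, hc⟩
      rw [Finset.mem_erase]
      cases b <;> cases c <;> simp_all
    rw [e, Finset.prod_empty, if_neg h]

theorem gx_of_nm {x : ℂ} (h : NM6 x.re) : Gx x := Or.inr h

theorem gx_of_im {x : ℂ} (h : x.im ≠ 0) : Gx x := Or.inl h

section cls

variable {X : Bool → Option O3 → ℂ → ℂ} {κ : ℝ} {e : ℕ} {t t' : HT} {w w' : ℂ} {i : Bool × Bool}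

theorem okI_fst (h : OkI (av6 t t') i) : i.1 = true → t = .H := fun h1 => by
  simpa [av6] using h.1 h1

theorem okI_snd (h : OkI (av6 t t') i) : i.2 = true → t' = .H := fun h1 => by
  simpa [av6] using h.2 h1

/-- **the class with the quanta at the poles** -/
theorem ZFl_Zc6 (h : OkI (av6 t t') i) (s : Bool) (k : Option O3) (u : ℂ) :
    ZFl (Zc6 X t t' w w') (po6 t t' w w') i s k u =
      X s k u * (vF6 t (i.1, false) s k (w - u) * vF6 t' (i.2, false) (!s) k (w' - u)) := by
  obtain ⟨i1, i2⟩ := i
  have h1 := okI_fst h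
  have h2 := okI_snd h
  simp only at h1 h2
  show X s k u * (vF6 t (false, false) s k (w - u) * vF6 t' (false, false) (!s) k (w' - u)) *
    ((if i1 = true then gz (true, .A) (s, ob4 k) (po6 t t' w w' true - u) else 1) *
      (if i2 = true then gz (false, .A) (s, ob4 k) (po6 t t' w w' false - u) else 1)) = _
  have e1 : vF6 t (i1, false) s k (w - u) = vF6 t (false, false) s k (w - u) *
      (if i1 = true then gz (true, .A) (s, ob4 k) (po6 t t' w w' true - u) else 1) := by
    cases i1
    · simp
    · obtain rfl := h1 rfl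
      rw [vF6_qu false s k (w - u)]
      simp [po6]
  have e2 : vF6 t' (i2, false) (!s) k (w' - u) = vF6 t' (false, false) (!s) k (w' - u) *
      (if i2 = true then gz (false, .A) (s, ob4 k) (po6 t t' w w' false - u) else 1) := by
    cases i2
    · simp
    · obtain rfl := h2 rfl
      have := vF6_qu_fl false s k (w' - u)
      have h3 : fl (vF6 .H (true, false)) s k (w' - u) = vF6 .H (true, false) (!s) k (w' - u) := rfl
      have h4 : fl (vF6 .H (false, false)) s k (w' - u) = vF6 .H (false, false) (!s) k (w' - u) := rfl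
      rw [h3, h4] at this
      rw [this]
      simp [po6]
  show _ = X s k u * (vF6 t (i1, false) s k (w - u) * vF6 t' (i2, false) (!s) k (w' - u))
  rw [e1, e2]
  ring

/-! ### the places of the zeros -/

theorem hx6_im (t : HT) (w : ℂ) : (hx6 t w).im = w.im := by
  have e : (3 * (l : ℂ)).im = 0 := by
    rw [show 3 * (l : ℂ) = ((3 * l : ℝ) : ℂ) by push_cast; ring, ofReal_im]
  unfold hx6
  split_ifs
  · rw [add_im, e, add_zero]
  · rfl

theorem hx6_P_re {w : ℂ} (hw : w.re = htL .P) : (hx6 .P w).re = 1 / 4 * l := by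
  have e : (3 * (l : ℂ)).re = 3 * l := by
    rw [show 3 * (l : ℂ) = ((3 * l : ℝ) : ℂ) by push_cast; ring, ofReal_re]
  unfold hx6
  rw [if_pos rfl, add_re, e, hw]
  show -(11 / 4) * l + 3 * l = 1 / 4 * l
  ring

theorem hx6_H (w : ℂ) : hx6 .H w = w := by
  unfold hx6
  rw [if_neg (by decide)]

theorem hx6_eq (t : HT) (ht : hz6 t = true) (w : ℂ) : hx6 t w = w - x06 t false := by
  have h : t = .P ∨ t = .H := by simpa [hz6] using ht
  rcases h with rfl | rfl
  · unfold hx6 x06
    rw [if_pos rfl, if_neg (by decide), if_pos rfl]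
    ring
  · unfold hx6 x06
    rw [if_neg (by decide), if_neg (by decide), if_neg (by decide), sub_zero]

theorem hx6_re {t : HT} (ht : hz6 t = true) {w : ℂ} (hw : w.re = htL t) :
    (t = .P ∧ (hx6 t w).re = 1 / 4 * l) ∨ (t = .H ∧ (hx6 t w).re = 5 / 8 * l) := by
  have h : t = .P ∨ t = .H := by simpa [hz6] using ht
  rcases h with rfl | rfl
  · exact Or.inl ⟨rfl, hx6_P_re hw⟩
  · refine Or.inr ⟨rfl, ?_⟩
    rw [hx6_H, hw]
    rfl

/-- the real part of the zeros -/
theorem zB6_re (h : OkI (av6 t t') i) (hw : w.re = htL t) (hw' : w'.re = htL t') (s j : Bool)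
    (hj : ac6 t t' i s j = true) :
    (zB6 t t' w w' s j).re = 1 / 4 * l ∨ (zB6 t t' w w' s j).re = 5 / 8 * l := by
  have h1 := okI_fst h
  have h2 := okI_snd h
  cases s <;> cases j
  · have hz : hz6 t = true := by simpa [ac6] using hj
    rcases hx6_re hz hw with ⟨-, h⟩ | ⟨-, h⟩
    · exact Or.inl (by simpa [zB6] using h)
    · exact Or.inr (by simpa [zB6] using h)
  · have hz : i.2 = true := by simpa [ac6] using hj
    refine Or.inr ?_
    show (if (true = true) then (if (false = true) then w else w') else _).re = _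
    simp only [if_true, Bool.false_eq_true, if_false]
    rw [hw', h2 hz]
    rfl
  · have hz : hz6 t' = true := by simpa [ac6] using hj
    rcases hx6_re hz hw' with ⟨-, h⟩ | ⟨-, h⟩
    · exact Or.inl (by simpa [zB6] using h)
    · exact Or.inr (by simpa [zB6] using h)
  · have hz : i.1 = true := by simpa [ac6] using hj
    refine Or.inr ?_
    show (if (true = true) then (if (true = true) then w else w') else _).re = _
    simp only [if_true]
    rw [hw, h1 hz]
    rfl

/-- the imaginary parts: the two zeros of a species have different heights -/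
theorem zB6_im (t t' : HT) (w w' : ℂ) (s : Bool) : ((zB6 t t' w w' s false).im = w'.im ∧
    (zB6 t t' w w' s true).im = w.im) ∨ ((zB6 t t' w w' s false).im = w.im ∧
    (zB6 t t' w w' s true).im = w'.im) := by
  cases s
  · right
    simp [zB6, hx6_im]
  · left
    simp [zB6, hx6_im]

theorem ze6_inj (him : w.im ≠ w'.im) (s : Bool) : Function.Injective (ze6 t t' w w' i s) := by
  rintro ⟨a, ha⟩ ⟨b, hb⟩ hab
  have e : zB6 t t' w w' s a = zB6 t t' w w' s b := hab
  have key : zB6 t t' w w' s false ≠ zB6 t t' w w' s true := by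
    intro h0
    rcases zB6_im t t' w w' s with ⟨h1, h2⟩ | ⟨h1, h2⟩
    · rw [h0, h2] at h1
      exact him h1
    · rw [h0, h2] at h1
      exact him h1.symm
  cases a <;> cases b
  · rfl
  · exact absurd e key
  · exact absurd e.symm key
  · rfl

/-- the zeros are between the lines of the holes, off the line of the points `b` -/
theorem stZ6 (h : OkI (av6 t t') i) (hw : w.re = htL t) (hw' : w'.re = htL t') :
    StZ6 par6 (ze6 t t' w w' i) := by
  have hl := NUP1.l_pos
  have e1 : (1 - par6.j2) * l = 1 / 8 * l := by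
    show (1 - 7 / 8) * l = _
    ring
  have e2 : (1 - par6.j1) * l = 31 / 32 * l := by
    show (1 - 1 / 32) * l = _
    ring
  have e3 : (1 - par6.e) * l = 9 / 16 * l := by
    show (1 - 7 / 16) * l = _
    ring
  refine ⟨fun s j => ?_, fun s j => ?_⟩
  · rw [e1, e2]
    rcases zB6_re h hw hw' s j.1 j.2 with h | h
    · show _ < (zB6 t t' w w' s j.1).re ∧ (zB6 t t' w w' s j.1).re < _
      rw [h]
      constructor <;> linarith
    · show _ < (zB6 t t' w w' s j.1).re ∧ (zB6 t t' w w' s j.1).re < _
      rw [h]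
      constructor <;> linarith
  · rw [e3]
    rcases zB6_re h hw hw' s j.1 j.2 with h | h
    · show (zB6 t t' w w' s j.1).re ≠ _
      rw [h]
      intro hc
      linarith
    · show (zB6 t t' w w' s j.1).re ≠ _
      rw [h]
      intro hc
      linarith

/-! ### class times regular inverse -/

/-- **the linear factors** -/
theorem lin_prod (i : Bool × Bool) (s : Bool) (u : ℂ) :
    (if zz6 t i.1 s = true then -((w - u) - x06 t s) else 1) *
      (if zz6 t' i.2 (!s) = true then -((w' - u) - x06 t' (!s)) else 1) =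
    ∏ j, (u - ze6 t t' w w' i s j) := by
  have e := prod_nu (fun j => ac6 t t' i s j) fun j => u - zB6 t t' w w' s j
  have e' : ∏ j, (u - ze6 t t' w w' i s j) =
      (if ac6 t t' i s false = true then u - zB6 t t' w w' s false else 1) *
        (if ac6 t t' i s true = true then u - zB6 t t' w w' s true else 1) := e
  rw [e']
  cases s
  · have a1 : (if zz6 t i.1 false = true then -((w - u) - x06 t false) else 1) =
        if ac6 t t' i false false = true then u - zB6 t t' w w' false false else 1 := by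
      show (if hz6 t = true then _ else _) = if hz6 t = true then u - hx6 t w else 1
      split_ifs with hz
      · rw [hx6_eq t hz]
        ring
      · rfl
    have a2 : (if zz6 t' i.2 (!false) = true then -((w' - u) - x06 t' (!false)) else 1) =
        if ac6 t t' i false true = true then u - zB6 t t' w w' false true else 1 := by
      show (if i.2 = true then -((w' - u) - 0) else 1) = if i.2 = true then u - w' else 1
      split_ifs
      · ring
      · rfl
    rw [a1, a2]
  · have a1 : (if zz6 t i.1 true = true then -((w - u) - x06 t true) else 1) =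
        if ac6 t t' i true true = true then u - zB6 t t' w w' true true else 1 := by
      show (if i.1 = true then -((w - u) - 0) else 1) = if i.1 = true then u - w else 1
      split_ifs
      · ring
      · rfl
    have a2 : (if zz6 t' i.2 (!true) = true then -((w' - u) - x06 t' (!true)) else 1) =
        if ac6 t t' i true false = true then u - zB6 t t' w w' true false else 1 := by
      show (if hz6 t' = true then _ else _) = if hz6 t' = true then u - hx6 t' w' else 1
      split_ifs with hz
      · rw [hx6_eq t' hz]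
        show -(w' - u - x06 t' false) = _
        ring
      · rfl
    rw [a1, a2, mul_comm]

/-- **class times regular inverse** -/
theorem Ei6_mul (h : OkI (av6 t t') i) {s : Bool} {u : ℂ} (hX : X s none u ≠ 0)
    (hg : Gx (w - u)) (hg' : Gx (w' - u)) :
    ZFl (Zc6 X t t' w w') (po6 t t' w w') i s none u * Ei6 X t t' w w' i s u =
      ∏ j, (u - ze6 t t' w w' i s j) := by
  have a1 := eL_eq (c := s) (okI_fst h) hg
  have a2 := eL_eq (c := !s) (okI_snd h) hg'
  rw [ZFl_Zc6 h, ← lin_prod i s u, ← a1, ← a2]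
  unfold Ei6
  field_simp

/-- the positions off the multiples of `l` -/
theorem gx_strip {t : HT} {w u : ℂ} (hw : w.re = htL t) (h1 : 51 / 100 * l ≤ u.re)
    (h2 : u.re ≤ l) (h3 : t = .H → u.re < 39 / 64 * l) : Gx (w - u) := by
  have hl := NUP1.l_pos
  refine gx_of_nm ?_
  rw [sub_re, hw]
  by_cases ht : t = .H
  · exact nm6_stH t (Or.inl ⟨h1, (h3 ht).le⟩)
  · exact nm6_strip ht h1 h2

theorem gx_line {t : HT} {w u : ℂ} (hw : w.re = htL t)
    (h1 : u.re = (1 - par6.j2) * l ∨ u.re = (1 - par6.j1) * l) : Gx (w - u) := by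
  refine gx_of_nm ?_
  rw [sub_re, hw]
  refine nm6_ln (htL_ps6 t) ?_
  rcases h1 with h1 | h1
  · rw [h1]
    right; right; right; right; right; left
    show (1 - 7 / 8) * l = 1 / 8 * l
    ring
  · rw [h1]
    right; right; right; right; right; right
    show (1 - 1 / 32) * l = 31 / 32 * l
    ring

/-! ### the residues -/

/-- a letter at its zero -/
theorem rL_mul {t : HT} {i c : Bool} (h : i = true → t = .H) (hz : zz6 t i c = true) :
    eL t i c (x06 t c) * rL t i c = 1 := by
  have h1 := rL_ne h hz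
  unfold rL at h1 ⊢
  refine mul_inv_cancel₀ fun h0 => h1 ?_
  rw [h0, inv_zero]

private theorem aux1 {x a r v b c : ℂ} (hX : x ≠ 0) (h1 : a * r = 1) (h2 : v * b = c) :
    x⁻¹ * (a * b) * (x * (r * v)) = c := by
  have e : x⁻¹ * (a * b) * (x * (r * v)) = (x⁻¹ * x) * (a * r) * (v * b) := by ring
  rw [e, inv_mul_cancel₀ hX, h1, h2]
  ring

private theorem aux2 {x a r v b c : ℂ} (hX : x ≠ 0) (h1 : a * r = 1) (h2 : v * b = c) :
    x⁻¹ * (b * a) * (x * (r * v)) = c := by
  rw [mul_comm b a]
  exact aux1 hX h1 h2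

/-- **the residues** -/
theorem Ei6_rho (h : OkI (av6 t t') i) (him : w.im ≠ w'.im) {s : Bool} (j : nu6 t t' i s)
    (hX : X s none (ze6 t t' w w' i s j) ≠ 0) [DecidableEq (nu6 t t' i s)] :
    Ei6 X t t' w w' i s (ze6 t t' w w' i s j) * rh6 X t t' w w' i s j =
      ∏ j' ∈ univ.erase j, (ze6 t t' w w' i s j - ze6 t t' w w' i s j') := by
  obtain ⟨b, hb⟩ := j
  have h1 := okI_fst h
  have h2 := okI_snd h
  have e0 := prod_nu_erase (fun j => ac6 t t' i s j) hb fun j =>
    zB6 t t' w w' s b - zB6 t t' w w' s j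
  have e1 : ∏ j' ∈ univ.erase (⟨b, hb⟩ : nu6 t t' i s),
      (ze6 t t' w w' i s ⟨b, hb⟩ - ze6 t t' w w' i s j') =
      if ac6 t t' i s (!b) = true then zB6 t t' w w' s b - zB6 t t' w w' s (!b) else 1 := e0
  rw [e1]
  have him' : w'.im - w.im ≠ 0 := sub_ne_zero.2 him.symm
  have him2 : w.im - w'.im ≠ 0 := sub_ne_zero.2 him
  cases s <;> cases b
  · -- Y, zero of the letter of X
    have hz : hz6 t = true := hb
    have hX' : X false none (hx6 t w) ≠ 0 := hX
    have g : Gx (w' - hx6 t w) := gx_of_im (by rw [sub_im, hx6_im]; exact him')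
    have a1 : eL t i.1 false (w - hx6 t w) * rL t i.1 false = 1 := by
      rw [hx6_eq t hz, sub_sub_cancel]
      exact rL_mul h1 hz
    have a2 := eL_eq (c := true) h2 g
    show (X false none (hx6 t w))⁻¹ * (eL t i.1 false (w - hx6 t w) *
      eL t' i.2 true (w' - hx6 t w)) * (X false none (hx6 t w) *
        (rL t i.1 false * vF6 t' (i.2, false) true none (w' - hx6 t w))) =
      if i.2 = true then hx6 t w - w' else 1
    rw [aux1 hX' a1 a2]
    show (if i.2 = true then -(w' - hx6 t w - 0) else 1) = _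
    split_ifs
    · ring
    · rfl
  · -- Y, filled
    have hz : i.2 = true := hb
    have hX' : X false none w' ≠ 0 := hX
    have g : Gx (w - w') := gx_of_im (by rw [sub_im]; exact him2)
    have a1 : eL t' i.2 true (w' - w') * rL t' i.2 true = 1 := by
      rw [sub_self]
      exact rL_mul h2 hz
    have a2 := eL_eq (c := false) h1 g
    show (X false none w')⁻¹ * (eL t i.1 false (w - w') *
      eL t' i.2 true (w' - w')) * (X false none w' *
        (rL t' i.2 true * vF6 t (i.1, false) false none (w - w'))) =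
      if hz6 t = true then w' - hx6 t w else 1
    rw [aux2 hX' a1 a2]
    show (if hz6 t = true then -(w - w' - x06 t false) else 1) = _
    split_ifs with hh
    · rw [hx6_eq t hh]
      ring
    · rfl
  · -- X, zero of the letter of Y
    have hz : hz6 t' = true := hb
    have hX' : X true none (hx6 t' w') ≠ 0 := hX
    have g : Gx (w - hx6 t' w') := gx_of_im (by rw [sub_im, hx6_im]; exact him2)
    have a1 : eL t' i.2 false (w' - hx6 t' w') * rL t' i.2 false = 1 := by
      rw [hx6_eq t' hz, sub_sub_cancel]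
      exact rL_mul h2 hz
    have a2 := eL_eq (c := true) h1 g
    show (X true none (hx6 t' w'))⁻¹ * (eL t i.1 true (w - hx6 t' w') *
      eL t' i.2 false (w' - hx6 t' w')) * (X true none (hx6 t' w') *
        (rL t' i.2 false * vF6 t (i.1, false) true none (w - hx6 t' w'))) =
      if i.1 = true then hx6 t' w' - w else 1
    rw [aux2 hX' a1 a2]
    show (if i.1 = true then -(w - hx6 t' w' - 0) else 1) = _
    split_ifs
    · ring
    · rfl
  · -- X, filled
    have hz : i.1 = true := hb
    have hX' : X true none w ≠ 0 := hX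
    have g : Gx (w' - w) := gx_of_im (by rw [sub_im]; exact him')
    have a1 : eL t i.1 true (w - w) * rL t i.1 true = 1 := by
      rw [sub_self]
      exact rL_mul h1 hz
    have a2 := eL_eq (c := false) h2 g
    show (X true none w)⁻¹ * (eL t i.1 true (w - w) *
      eL t' i.2 false (w' - w)) * (X true none w *
        (rL t i.1 true * vF6 t' (i.2, false) false none (w' - w))) =
      if hz6 t' = true then w - hx6 t' w' else 1
    rw [aux1 hX' a1 a2]
    show (if hz6 t' = true then -(w' - w - x06 t' false) else 1) = _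
    split_ifs with hh
    · rw [hx6_eq t' hh]
      ring
    · rfl

/-! ### decay -/

/-- the rate of the filled class -/
theorem rate_fill (e : ℕ) (t t' : HT) (i : Bool × Bool) (c : ℝ) :
    (κ + 2 * (-(e : ℝ)) * c) + ((1 / 4 - (htQ t + 2 * i.1.toNat) * c) +
      (1 / 4 - (htQ t' + 2 * i.2.toNat) * -c)) =
      (κ + 1 / 2) + 2 * ((((aXt e t t' : ℤ) - aYt e t t' : ℤ) : ℝ) - i.1.toNat + i.2.toNat) * c := by
  rw [← htQ_charge]
  ring

theorem Ei6_bd (hB : LgB X κ e) (h : OkI (av6 t t') i) (hw : w.re = htL t) (hw' : w'.re = htL t')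
    (s : Bool) : Bdd (Set.Icc (1 / 8 * l) (31 / 32 * l))
      ((κ + 1 / 2) + 2 * ((((aXt e t t' : ℤ) - aYt e t t' : ℤ) : ℝ) - i.1.toNat + i.2.toNat) *
        sc (s, Ob.A)) (Ei6 X t t' w w' i s) := by
  have a0 := hB.inv.bd s
  have a1 : Bdd (Set.Icc (1 / 8 * l) (31 / 32 * l)) (1 / 4 - (htQ t + 2 * i.1.toNat) * sc (s, Ob.A))
      fun u => eL t i.1 s (w - u) := bdd_one6 (eL_bd (okI_fst h) s) w fun x hx => by
    rw [hw]
    exact ⟨by linarith [hx.2], by linarith [hx.1]⟩
  have a2 : Bdd (Set.Icc (1 / 8 * l) (31 / 32 * l))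
      (1 / 4 - (htQ t' + 2 * i.2.toNat) * sc (!s, Ob.A)) fun u => eL t' i.2 (!s) (w' - u) :=
    bdd_one6 (eL_bd (okI_snd h) (!s)) w' fun x hx => by
      rw [hw']
      exact ⟨by linarith [hx.2], by linarith [hx.1]⟩
  have e1 : sc (!s, Ob.A) = -sc (s, Ob.A) := by
    cases s <;> simp [sc]
  rw [e1] at a2
  exact (a0.mul (a1.mul a2)).rate (rate_fill e t t' i _)

end cls

end LgZ

/-! ### the conditions -/

open LgZ

variable {X : Bool → Option O3 → ℂ → ℂ} {κ : ℝ} {e : ℕ} {t t' : HT} {w w' : ℂ} {i : Bool × Bool}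

/-- **the zeros are between the lines of the holes, off the line of the points `b`** -/
theorem stZ6_Lg (h : OkI (av6 t t') i) (hw : w.re = htL t) (hw' : w'.re = htL t') :
    StZ6 par6 (ze6 t t' w w' i) := LgZ.stZ6 h hw hw'

/-- **the zeros of the filled classes of two letters** -/
theorem zerZ_Lg (hB : LgB X κ e) (h : OkI (av6 t t') i) (hw : w.re = htL t) (hw' : w'.re = htL t')
    (him : w.im ≠ w'.im) {bZ : ℝ} (hb1 : bZ ≤ l) (hb2 : t = .H ∨ t' = .H → bZ ≤ 39 / 64 * l)
    (hb3 : ∀ s (u : ℂ), 51 / 100 * l ≤ u.re → u.re < bZ → X s none u ≠ 0)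
    (hP : t = .P → X false none (hx6 t w) ≠ 0) (hP' : t' = .P → X true none (hx6 t' w') ≠ 0) :
    ZerZ (ZFl (Zc6 X t t' w w') (po6 t t' w w') i) par6 bZ (κ + 1 / 2)
      ((((aXt e t t' : ℤ) - aYt e t t' : ℤ) : ℝ) - i.1.toNat + i.2.toNat) (ze6 t t' w w' i)
      (rh6 X t t' w w' i) (Ei6 X t t' w w' i) := by
  have hl := NUP1.l_pos
  have hst := stZ6_Lg (w := w) (w' := w') h hw hw'
  refine ⟨fun s => ze6_inj him s, hst.st, fun s u hu1 hu2 => ?_, hst.off, fun s u hu1 hu2 => ?_,
    fun s u hu => ?_, fun s => Ei6_bd hB h hw hw' s, fun s j => ?_⟩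
  · have a1 : DifferentiableAt ℂ (eL t i.1 s) (w - u) := eL_diff (okI_fst h)
      (by rw [sub_re, hw]; linarith) (by rw [sub_re, hw]; linarith)
    have a2 : DifferentiableAt ℂ (eL t' i.2 (!s)) (w' - u) := eL_diff (okI_snd h)
      (by rw [sub_re, hw']; linarith) (by rw [sub_re, hw']; linarith)
    have b1 : DifferentiableAt ℂ (fun u => eL t i.1 s (w - u)) u :=
      DifferentiableAt.comp u a1 ((differentiableAt_const w).sub differentiableAt_id)
    have b2 : DifferentiableAt ℂ (fun u => eL t' i.2 (!s) (w' - u)) u :=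
      DifferentiableAt.comp u a2 ((differentiableAt_const w').sub differentiableAt_id)
    exact (hB.inv.an s u hu1 hu2).mul (b1.mul b2)
  · exact Ei6_mul h (hb3 s u hu1 hu2)
      (gx_strip hw hu1 (hu2.le.trans hb1) fun ht => lt_of_lt_of_le hu2 (hb2 (Or.inl ht)))
      (gx_strip hw' hu1 (hu2.le.trans hb1) fun ht => lt_of_lt_of_le hu2 (hb2 (Or.inr ht)))
  · by_cases hX : X s none u = 0
    · right
      constructor
      · rw [ZFl_Zc6 h, hX, zero_mul]
      · unfold Ei6
        rw [hX, inv_zero, zero_mul]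
    · exact Or.inl (Ei6_mul h hX (gx_line hw hu) (gx_line hw' hu))
  · refine Ei6_rho h him j ?_
    rcases zB6_re h hw hw' s j.1 j.2 with h5 | h5
    · -- the zero of a letter of type P
      have h1 := okI_fst h
      have h2 := okI_snd h
      obtain ⟨b, hb⟩ := j
      cases s <;> cases b
      · have hz : hz6 t = true := hb
        rcases hx6_re hz hw with ⟨rfl, -⟩ | ⟨rfl, h6⟩
        · exact hP rfl
        · have h7 : (hx6 .H w).re = 1 / 4 * l := h5
          rw [h7] at h6
          linarith
      · have hz : i.2 = true := hb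
        have h7 : w'.re = 1 / 4 * l := h5
        rw [hw', h2 hz] at h7
        have h8 : 5 / 8 * l = 1 / 4 * l := h7
        linarith
      · have hz : hz6 t' = true := hb
        rcases hx6_re hz hw' with ⟨rfl, -⟩ | ⟨rfl, h6⟩
        · exact hP' rfl
        · have h7 : (hx6 .H w').re = 1 / 4 * l := h5
          rw [h7] at h6
          linarith
      · have hz : i.1 = true := hb
        have h7 : w.re = 1 / 4 * l := h5
        rw [hw, h1 hz] at h7
        have h8 : 5 / 8 * l = 1 / 4 * l := h7
        linarith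
    · refine hB.inv.ne s _ ?_ ?_
      · show _ ≤ (zB6 t t' w w' s j.1).re
        rw [h5]
        linarith
      · show (zB6 t t' w w' s j.1).re < _
        rw [h5]
        linarith

/-- **the filled classes**, the strip of `WordThP`, any types -/
theorem zerZ_fil (hB : LgB X κ e) (hg : GnX X t t' w w') (hw : w.re = htL t)
    (hw' : w'.re = htL t') {i : Bool × Bool} (hi : OkI (av6 t t') i) :
    ZerZ (ZFl (Zc6 X t t' w w') (po6 t t' w w') i) par6 (39 / 64 * l) (κ + 1 / 2)
      ((((aXt e t t' : ℤ) - aYt e t t' : ℤ) : ℝ) - i.1.toNat + i.2.toNat) (ze6 t t' w w' i)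
      (rh6 X t t' w w' i) (Ei6 X t t' w w' i) := by
  have hl := NUP1.l_pos
  exact zerZ_Lg hB hi hw hw' hg.im (by linarith) (fun _ => le_rfl)
    (fun s u h1 h2 => hB.inv.ne s u h1 (by linarith)) (fun h => hg.x0 (by rw [h]; decide))
    (fun h => hg.x1 (by rw [h]; decide))

/-- **the class without filling**, the strip of `WordThZ`, `t, t' ≠ H` -/
theorem zerZ_reg (hB : LgB X κ e) (hg : GnX X t t' w w') (hw : w.re = htL t)
    (hw' : w'.re = htL t') (ht : t ≠ .H) (ht' : t' ≠ .H) :
    ZerZ (Zc6 X t t' w w') par6 (63 / 64 * l) (κ + 1 / 2)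
      (((aXt e t t' : ℤ) - aYt e t t' : ℤ) : ℝ) (ze6 t t' w w' (false, false))
      (rh6 X t t' w w' (false, false)) (Ei6 X t t' w w' (false, false)) := by
  have hl := NUP1.l_pos
  have key := zerZ_Lg (i := (false, false)) hB ⟨by simp, by simp⟩ hw hw' hg.im (bZ := 63 / 64 * l)
    (by linarith) (fun h => by rcases h with h | h <;> contradiction)
    (fun s u h1 h2 => hB.inv.ne s u h1 h2) (fun h => hg.x0 (by rw [h]; decide))
    (fun h => hg.x1 (by rw [h]; decide))
  have e1 : ZFl (Zc6 X t t' w w') (po6 t t' w w') (false, false) = Zc6 X t t' w w' := by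
    funext s k u
    simp [ZFl]
  have e2 : (((aXt e t t' : ℤ) - aYt e t t' : ℤ) : ℝ) - (false, false).1.toNat +
      (false, false).2.toNat = (((aXt e t t' : ℤ) - aYt e t t' : ℤ) : ℝ) := by
    simp
  rw [e1, e2] at key
  exact key

end PHK

end
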