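import Pool.Agent.PHK.SpW6
import Pool.Agent.PHK.OneD
import Pool.Agent.PHK.FDef6
import Pool.Agent.PHK.GOm

/-!
# (P): the class functions of groups of any sizes and charge: decay, inverses

* `DecZ6 Z P x0 κ q0` : decay of the class functions on the lines of (P), total charge `q0` (strings S: every rate);
  `InvZ6 Z κ q0` : the inverses of the one body functions of the quanta in the strip of the holes;
* `GF6 x g0` : the cutoff of the strings `ph (4 / 3) x g0` decays at every rate; **`gF6_gO`** : the cutoff with `om`;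
* `PhI6 β ro ex` : the cutoffs have no zero in the strip of the holes; **`phI6_low`** : true for lists of rows with few
  elements off `0`;
* `ZK6 c β ro ex g0 s` : the class functions (spectators `s a` with `SpW6`, any cutoff `g0 a` of the strings);
  **`oneC6_ZK6`**, **`decZ6_ZK6`**, **`invZ6_ZK6`**;
* `ln6 P k` : the lines of the objects; **`DZ_Zobj6`** : `DZU = ZobjQ (ZK6 .. true) (ZK6 .. false) (51/100 l) ..`.
-/

set_option autoImplicit false
set_option linter.unusedSectionVars false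
set_option linter.unusedVariables false

noncomputable section

open Complex MeasureTheory
open scoped ENNReal

namespace Pool.Agent.PLX

open NUO NUP1 NUP1S NUP1.Bd NURow
open NUP1.N (Z3)
open PBX (Rws ph GOk KK Lg gP Bdd_of_Gr)
open PHK (Par6 GoodP6 OneC6 SpecS6 obU6 oneC6_XXU)
open NUGC.PLX (SpecAt)
open PBO.PLX (RwL phi_inv sH)

/-! ### decay and inverses -/

/-- **decay of the class functions on the lines of (P)** -/
structure DecZ6 (Z : Bool → Option O3 → ℂ → ℂ) (P : Par6) (x0 κ q0 : ℝ) : Prop where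
  A : ∀ s, DecOn (κ + 2 * q0 * sc (s, Ob.A)) (Set.Icc x0 l) (Z s none)
  L : ∀ s, DecOn (κ + 2 * q0 * sc (s, Ob.L)) {(1 - P.jL) * l} (Z s (some .L))
  T : ∀ s, DecOn (κ + 2 * q0 * sc (s, Ob.S)) {-(l / 2)} (Z s (some .T))
  S : ∀ s (M : ℕ), DecOn (M : ℝ) {-((1 + P.e) * l)} (Z s (some .S))

/-- **the inverses of the one body functions of the quanta in the strip of the holes** -/
structure InvZ6 (Z : Bool → Option O3 → ℂ → ℂ) (κ q0 : ℝ) : Prop where
  an : ∀ s (u : ℂ), 1 / 9 * l < u.re → u.re < 63 / 64 * l → DifferentiableAt ℂ (fun u => (Z s none u)⁻¹) u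
  bd : ∀ s, Bdd (Set.Icc (1 / 8 * l) (31 / 32 * l)) (κ + 2 * q0 * sc (s, Ob.A)) fun u => (Z s none u)⁻¹
  ne : ∀ s (u : ℂ), 51 / 100 * l ≤ u.re → u.re < 63 / 64 * l → Z s none u ≠ 0

variable {N : Bool → ℕ}

/-- **the cutoffs have no zero in the strip of the holes** -/
structure PhI6 (β : ℝ) (ro : ∀ a, Fin (N a) → ℂ) (ex : Bool → List ℂ) : Prop where
  ne : ∀ a (u : ℂ), 1 / 9 * l < u.re → u.re < 63 / 64 * l → ph β (ro a) (gP β (ex a)) u ≠ 0
  bd : ∀ a, Bdd (Set.Icc (1 / 8 * l) (31 / 32 * l)) (2 * β) fun u => (ph β (ro a) (gP β (ex a)) u)⁻¹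

/-- **few rows off `0`** -/
theorem phI6_low {β : ℝ} (hβ : 0 < β) (hβ' : β ≤ 4 / 3) {ro : ∀ a, Fin (N a) → ℂ} {ex : Bool → List ℂ}
    {n0 m : ℕ} {h0 : ℝ} (hh : 0 ≤ h0) {K : Bool → ℕ} {E : Bool → List ℂ}
    (h : ∀ a, RwL n0 h0 (K a) (List.ofFn (ro a) ++ ex a) (E a)) (hK : ∀ a, m ≤ K a + n0) (hm1 : 1 ≤ m)
    (hm : 2 ^ 14 * Real.exp (8 / 3 * h0) * n0 ≤ m) : PhI6 β ro ex := by
  have hl := lpos
  have key : ∀ a (u : ℂ), 1 / 9 * l < u.re → u.re < 63 / 64 * l →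
      ph β (ro a) (gP β (ex a)) u ≠ 0 ∧ ‖(ph β (ro a) (gP β (ex a)) u)⁻¹‖ ≤
        2048 * Real.exp (2 * β * |u.im|) := by
    intro a u h1 h2
    have hu : |u.re + NUP1.l / 2| ≤ sH := by
      unfold PBO.PLX.sH
      rw [abs_le]
      constructor <;> linarith
    have h3 := phi_inv hβ hβ' hh (h a) (hK a) hm1 hm hu
    rw [PBX.ph_gP]
    refine ⟨h3.1, ?_⟩
    rw [norm_inv]
    refine h3.2.trans ?_
    have hmr : (1 : ℝ) ≤ m := by exact_mod_cast hm1
    have hE : (1 : ℝ) ≤ Real.exp (2 * β * |u.im|) := Real.one_le_exp (by positivity)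
    have h4 : max 1 (Real.exp (2 * β * |u.im|) / m) ≤ Real.exp (2 * β * |u.im|) :=
      max_le hE (div_le_self (by positivity) hmr)
    linarith
  exact ⟨fun a u h1 h2 => (key a u h1 h2).1, fun a => ⟨2048, by norm_num, fun u hu =>
    (key a u (by linarith [hu.1]) (by linarith [hu.2])).2⟩⟩

/-! ### the row factor -/

section row

variable {m M : ℕ} {c : ℂ} {x : Fin m → ℂ} {y : Fin M → ℂ}

theorem RRU_inv (u : ℂ) : (RRU c x y u)⁻¹ =
    c⁻¹ * (∏ i, sin (u - x i)) * (∏ i, sin (u - x i - 2 * l)) * ∏ j, (sin (u - y j + 3 * l) ^ 2)⁻¹ := by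
  unfold RRU
  rw [mul_inv, mul_inv, mul_inv, ← Finset.prod_inv_distrib, ← Finset.prod_inv_distrib,
    ← Finset.prod_inv_distrib]
  simp only [one_div, inv_inv]

theorem sin_row3 (hy : Rws y) {u : ℂ} (h1 : 1 / 9 * l < u.re) (h2 : u.re < 63 / 64 * l) (j : Fin M) :
    sin (u - y j + 3 * l) ≠ 0 := by
  have hl := lpos
  obtain ⟨h3, h4⟩ := abs_le.1 (hy j)
  exact sin_ne_re (a := u.re - (y j).re + 3 * l) (by simp) (sin_pos_of (by linarith) (by linarith)).ne'

theorem diffAt_RRU_inv (hy : Rws y) {u : ℂ} (h1 : 1 / 9 * l < u.re) (h2 : u.re < 63 / 64 * l) :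
    DifferentiableAt ℂ (fun u => (RRU c x y u)⁻¹) u := by
  have e : (fun u => (RRU c x y u)⁻¹) = fun u =>
    c⁻¹ * (∏ i, sin (u - x i)) * (∏ i, sin (u - x i - 2 * l)) * ∏ j, (sin (u - y j + 3 * l) ^ 2)⁻¹ :=
    funext fun u => RRU_inv u
  rw [e]
  refine ((((differentiableAt_const _).mul ?_)).mul ?_).mul ?_
  · exact DifferentiableAt.fun_finsetProd fun i _ => by fun_prop
  · exact DifferentiableAt.fun_finsetProd fun i _ => by fun_prop
  · refine DifferentiableAt.fun_finsetProd fun j _ => ?_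
    have hs := pow_ne_zero 2 (sin_row3 hy h1 h2 j)
    fun_prop (disch := exact hs)

theorem RRU_ne (hc : c ≠ 0) (hx : Rws x) (hy : Rws y) {u : ℂ} (h1 : 51 / 100 * l ≤ u.re)
    (h2 : u.re < 63 / 64 * l) : RRU c x y u ≠ 0 := by
  have hl := lpos
  intro h0
  have h00 : (RRU c x y u)⁻¹ = 0 := by rw [h0, inv_zero]
  revert h00
  rw [RRU_inv]
  refine mul_ne_zero (mul_ne_zero (mul_ne_zero (inv_ne_zero hc) ?_) ?_) ?_
  · refine Finset.prod_ne_zero_iff.2 fun i _ => ?_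
    obtain ⟨h3, h4⟩ := abs_le.1 (hx i)
    exact sin_ne_re (a := u.re - (x i).re) (by simp) (sin_pos_of (by linarith) (by linarith)).ne'
  · refine Finset.prod_ne_zero_iff.2 fun i _ => ?_
    obtain ⟨h3, h4⟩ := abs_le.1 (hx i)
    have e : Real.sin (u.re - (x i).re - 2 * l) ≠ 0 := by
      have h5 := sin_pos_of (x := 2 * l - (u.re - (x i).re)) (by linarith) (by linarith)
      have e6 : u.re - (x i).re - 2 * l = -(2 * l - (u.re - (x i).re)) := by ring
      rw [e6, Real.sin_neg]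
      exact neg_ne_zero.2 h5.ne'
    exact sin_ne_re (a := u.re - (x i).re - 2 * l) (by simp) e
  · refine Finset.prod_ne_zero_iff.2 fun j _ => inv_ne_zero (pow_ne_zero 2 (sin_row3 hy (by linarith) h2 j))

theorem Gr_RRU_inv (α β : ℝ) : Gr α β (2 * ((m : ℝ) - M)) fun u => (RRU c x y u)⁻¹ := by
  have g1 := Gr.finProd (α := α) (β := β) (fun i u => sin (u - x i)) (fun _ => 1) fun i => Gr.sin _
  have g2 := Gr.finProd (α := α) (β := β) (fun i u => sin (u - x i - 2 * l)) (fun _ => 1) fun i =>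
    (Gr.sin (x i + 2 * l)).congr 0 fun u _ _ _ => by
      rw [show u - (x i + 2 * (l : ℂ)) = u - x i - 2 * l by ring]
  have g3 := Gr.finProd (α := α) (β := β) (fun j u => (sin (u - y j + 3 * l) ^ 2)⁻¹) (fun _ => -1 + -1)
    fun j => ((Gr.inv_sin (y j - 3 * l)).mul (Gr.inv_sin (y j - 3 * l))).congr 0 fun u _ _ _ => by
      rw [show u - (y j - 3 * (l : ℂ)) = u - y j + 3 * l by ring, sq, mul_inv]
  refine ((((Gr.const c⁻¹).mul g1).mul g2).mul g3 |>.mono (le_of_eq ?_)).congr 0 fun u _ _ _ => ?_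
  · simp
    ring
  · exact RRU_inv u

theorem bdd_RRU_inv (hx : Rws x) (hy : Rws y) :
    Bdd (Set.Icc (1 / 8 * l) (31 / 32 * l)) (2 * ((m : ℝ) - M)) fun u => (RRU c x y u)⁻¹ := by
  have hl := lpos
  refine Bdd_of_Gr (K := Set.Icc (1 / 8 * l) (31 / 32 * l)) isCompact_Icc (α := 31 / 32 * l)
    (β := 1 / 8 * l) (s := 2 * ((m : ℝ) - M)) (fun r hr => hr) (Gr_RRU_inv _ _) fun z hz =>
      (diffAt_RRU_inv hy (by linarith [hz.1]) (by linarith [hz.2])).continuousAt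

end row

/-! ### the class functions -/

/-- **the class functions**: constants `c a`, rows `ro a`, cutoff points `ex a` (quanta), cutoff of the strings
`ph (4 / 3) (ro a) (g0 a)`, spectators `s a` -/
def ZK6 (c : Bool → ℂ) (β : ℝ) (ro : ∀ a, Fin (N a) → ℂ) (ex : Bool → List ℂ) (g0 : Bool → ℂ → ℂ)
    (s : Bool → ℂ → ℂ) : Bool → Option O3 → ℂ → ℂ := fun a =>
  XXU (c a) β (ro a) (ro (!a)) (gP β (ex a)) (g0 a) (s a) (fun w => s a w * s a (w - l))

variable {P : Par6} {ep β : ℝ} {c : Bool → ℂ} {c0 : ℝ} {ro : ∀ a, Fin (N a) → ℂ}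
  {ex : Bool → List ℂ} {g0 : Bool → ℂ → ℂ} {s : Bool → ℂ → ℂ} {q : ℤ}

/-- the cutoffs of the strings -/
abbrev GO6 (g0 : ℂ → ℂ) : Prop := GOn (K2P (-(29 / 20 * l))) (4 / 3) g0

/-- **the cutoff of the strings** for the rows `x`: it decays at every rate on the lines of the strings -/
structure GF6 {m : ℕ} (x : Fin m → ℂ) (g0 : ℂ → ℂ) : Prop where
  gn : GO6 g0
  fast : ∀ M : ℕ, DecOn (M : ℝ) (K2P (-(29 / 20 * l))) (ph (4 / 3) x g0)

theorem gF6_gO {m : ℕ} {x : Fin m → ℂ} {W : List ℂ} (T1 : ℝ) (hx : Rws x) (hW : ∀ w ∈ W, |w.re| ≤ l / 2) :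
    GF6 x (PHK.gO T1 W x) :=
  ⟨PHK.goN_gO hx hW, fun M => PHK.dec_gO hx hW (Nat.cast_nonneg M)⟩

/-- a bounded function times one of every rate -/
theorem DecOn_fast {K : Set ℝ} {r : ℝ} {f g : ℂ → ℂ} (hf : Bdd K r f) (hg : ∀ M : ℕ, DecOn (M : ℝ) K g)
    (M : ℕ) : DecOn (M : ℝ) K fun z => f z * g z := by
  obtain ⟨C, hC, h1⟩ := hf
  obtain ⟨M', hM'⟩ := exists_nat_ge ((M : ℝ) + r)
  obtain ⟨D, h2⟩ := hg M'
  refine ⟨C * |D|, fun z hz => ?_⟩
  have h3 : ‖g z‖ ≤ |D| * Real.exp (-(M' * |z.im|)) :=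
    (h2 z hz).trans (mul_le_mul_of_nonneg_right (le_abs_self _) (Real.exp_pos _).le)
  rw [norm_mul]
  calc ‖f z‖ * ‖g z‖ ≤ (C * Real.exp (r * |z.im|)) * (|D| * Real.exp (-(M' * |z.im|))) :=
        mul_le_mul (h1 z hz) h3 (norm_nonneg _) (by positivity)
    _ = C * |D| * Real.exp (r * |z.im| + -(M' * |z.im|)) := by rw [Real.exp_add]; ring
    _ ≤ C * |D| * Real.exp (-(M * |z.im|)) := by
        refine mul_le_mul_of_nonneg_left (Real.exp_le_exp.2 ?_) (by positivity)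
        have := mul_le_mul_of_nonneg_right hM' (abs_nonneg z.im)
        linarith

/-- **the bounds of the class functions** -/
theorem oneC6_ZK6 {x0 : ℝ} (hx0 : 51 / 100 * l ≤ x0) (hx0' : x0 ≤ 19 / 20 * l)
    (hep0 : 0 < ep) (hep : ep ≤ 1 / 100) (hβ : 0 < β) (hβ' : β ≤ 4 / 3)
    (hr : ∀ a, Rws (ro a)) (hex : ∀ a, ∀ w ∈ ex a, |w.re| ≤ l / 2) (hg0 : ∀ a, Measurable (g0 a))
    (hc : ∀ a, ‖c a‖ = c0) (hs : ∀ a, SpW6 (sc (a, .A) * (q : ℝ)) (s a)) :
    OneC6 (ZK6 c β ro ex g0 s) (obU6 c0 β ro ex (fun a => ph (4 / 3) (ro a) (g0 a)) fun a u => ‖s a u‖)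
      P ep (2 * β) x0 (-q + N true - N false) (⋃ a, Set.range fun i => (ro a i).im) := by
  have h := oneC6_XXU (P := P) (ep := ep) (β := β) (x0 := x0) (q := -q) (E := ∅) (c := c) (s1 := s)
    (s2 := fun a w => s a w * s a (w - l)) hx0 hx0' hep0 hep hβ hβ' hr hex hg0 hc
    (fun a => (hs a).meas) (fun a => (hs a).meas.mul ((hs a).meas.comp (measurable_id.sub_const _)))
    (fun a => by
      have := (hs a).specAt hx0
      push_cast
      exact this) (fun a => ⟨fun t _ => le_of_eq (norm_mul _ _), fun t _ => le_of_eq (norm_mul _ _)⟩)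
    (by simp)
  rw [Set.empty_union] at h
  exact h

theorem charge_ZK (a : Bool) : (-(q : ℝ) + N true - N false) * sc (a, .A) =
    -(q : ℝ) * sc (a, .A) - ((N (!a) : ℝ) - N a) := by
  cases a
  · have e : sc (false, .A) = -1 := by simp [sc, Bd.chg]
    rw [e]
    show _ = _ - ((N true : ℝ) - N false)
    ring
  · have e : sc (true, .A) = 1 := by simp [sc, Bd.chg]
    rw [e]
    show _ = _ - ((N false : ℝ) - N true)
    ring

/-- **decay on the lines** -/
theorem decZ6_ZK6 (hP : GoodP6 P) (hβ : 0 < β) (hβ' : β ≤ 4 / 3)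
    (hr : ∀ a, Rws (ro a))
    (hex : ∀ a, ∀ w ∈ ex a, |w.re| ≤ l / 2) (hg0 : ∀ a, GF6 (ro a) (g0 a))
    (hs : ∀ a, SpW6 (sc (a, .A) * (q : ℝ)) (s a)) :
    DecZ6 (ZK6 c β ro ex g0 s) P (51 / 100 * l) (2 * β) (-(q : ℝ) + N true - N false) := by
  have hl := lpos
  have hj2 := hP.L2
  have he3 := hP.e13
  have he := hP.e45
  have hj : P.jL ≤ 27 / 10 := by linarith [hP.Lj, hP.j1e]
  have hQa : ∀ a : Bool, (-(q : ℝ) + N true - N false) * sc (a, .A) =
      -(q : ℝ) * sc (a, .A) - ((N (!a) : ℝ) - N a) := fun a => charge_ZK a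
  have hsp : ∀ a, SpecP (51 / 100 * l) (-(29 / 20 * l)) a (-(q : ℝ)) (s a) (fun w => s a w * s a (w - l)) :=
    fun a => (hs a).specP
  have F : ∀ a, FamA a (51 / 100 * l) (3 / 5 * l) (-(17 / 10 * l)) (-(101 / 100 * l)) (-(29 / 20 * l))
      (-(7 / 10 * l)) (-(7 / 10 * l)) (-(l / 2)) (2 * β) (-(q : ℝ) + N true - N false)
      (ZK6 c β ro ex g0 s a) := fun a =>
    famXU lnR6 hβ hβ' (hr a) (hr (!a)) (GOk.gP hβ hβ' (hex a)) (hg0 a).gn (hsp a) (hQa a)
  refine ⟨fun a => ?_, fun a => ?_, fun a => ?_, fun a M => ?_⟩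
  · have h1 := bdd_GXUP (c := c a) lnR6 hβ hβ' (hr a) (hr (!a)) (GOk.gP hβ hβ' (hex a)) (hsp a) (hQa a)
    refine DecOn_of (Bdd.mono_set h1 ?_) (by linarith)
    intro y hy
    exact Or.inl hy
  · refine DecOn.mono ((F a).dec (some .L)) ?_
    rw [Set.singleton_subset_iff]
    constructor
    · show -(17 / 10 * l) ≤ (1 - P.jL) * l
      nlinarith
    · show (1 - P.jL) * l ≤ -(101 / 100 * l)
      nlinarith
  · refine DecOn.mono ((F a).dec (some .T)) ?_
    rw [Set.singleton_subset_iff]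
    constructor
    · show -(7 / 10 * l) ≤ -(l / 2)
      linarith
    · show -(l / 2) ≤ -(l / 2)
      linarith
  · have h1 := bdd_RRU (c a) (hr a) (hr (!a)) isCompact_Icc (NPr_SP lnR6)
    have h2 : Bdd (Set.Icc (-(29 / 20 * l)) (-(7 / 10 * l))) _ (fun w => RRU (c a) (ro a) (ro (!a)) (w - l)) :=
      Bdd.mono_set (RRU_shift_bddP lnR6 (c a) (hr a) (hr (!a))) fun x hx => SP_K2P lnR6 hx
    have h3 : Bdd (Set.Icc (-(29 / 20 * l)) (-(7 / 10 * l))) _ (fun w => s a w * s a (w - l)) :=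
      Bdd.mono_set (hsp a).b2 fun x hx => SP_K2P lnR6 hx
    have h4 : ∀ M : ℕ, DecOn (M : ℝ) (Set.Icc (-(29 / 20 * l)) (-(7 / 10 * l))) (ph (4 / 3) (ro a) (g0 a)) :=
      fun M => DecOn.mono ((hg0 a).fast M) fun x hx => SP_K2P lnR6 hx
    have h5 := DecOn_fast ((h1.mul h2).mul h3) h4 M
    refine DecOn.mono (K' := Set.Icc (-(29 / 20 * l)) (-(7 / 10 * l))) ?_ ?_
    · obtain ⟨D, hD⟩ := h5
      refine ⟨D, fun z hz => ?_⟩
      have e : ZK6 c β ro ex g0 s a (some .S) z = RRU (c a) (ro a) (ro (!a)) z *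
          RRU (c a) (ro a) (ro (!a)) (z - l) * (s a z * s a (z - l)) * ph (4 / 3) (ro a) (g0 a) z := by
        show RRU (c a) (ro a) (ro (!a)) z * RRU (c a) (ro a) (ro (!a)) (z - l) * ph (4 / 3) (ro a) (g0 a) z *
          (s a z * s a (z - l)) = _
        ring
      rw [e]
      exact hD z hz
    · rw [Set.singleton_subset_iff]
      constructor
      · show -(29 / 20 * l) ≤ -((1 + P.e) * l)
        nlinarith
      · show -((1 + P.e) * l) ≤ -(7 / 10 * l)
        nlinarith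

/-- **the inverses in the strip of the holes** -/
theorem invZ6_ZK6 (hβ : 0 < β) (hβ' : β ≤ 4 / 3) (hr : ∀ a, Rws (ro a))
    (hex : ∀ a, ∀ w ∈ ex a, |w.re| ≤ l / 2) (hφ : PhI6 β ro ex) (hc : ∀ a, c a ≠ 0)
    (hs : ∀ a, SpW6 (sc (a, .A) * (q : ℝ)) (s a)) :
    InvZ6 (ZK6 c β ro ex g0 s) (2 * β) (-(q : ℝ) + N true - N false) := by
  have hl := lpos
  have e : ∀ a, (fun u => (ZK6 c β ro ex g0 s a none u)⁻¹) = fun u =>
      (RRU (c a) (ro a) (ro (!a)) u)⁻¹ * (ph β (ro a) (gP β (ex a)) u)⁻¹ * (s a u)⁻¹ := by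
    intro a
    funext u
    show (RRU (c a) (ro a) (ro (!a)) u * ph β (ro a) (gP β (ex a)) u * s a u)⁻¹ = _
    rw [mul_inv, mul_inv]
  refine ⟨fun a u h1 h2 => ?_, fun a => ?_, fun a u h1 h2 => ?_⟩
  · rw [e a]
    refine ((diffAt_RRU_inv (hr (!a)) h1 h2).mul ?_).mul ((hs a).inv_diff (by linarith) (by linarith))
    exact (PBX.diffAt_ph hβ hβ' (hr a) (GOk.gP hβ hβ' (hex a)) (z := u)
      ⟨by linarith, by linarith⟩).inv (hφ.ne a u h1 h2)
  · rw [e a]
    have h1 := bdd_RRU_inv (c := c a) (hr a) (hr (!a))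
    have h3 := Bdd.mono_set ((hs a).inv_bdd (r := 1 / 8 * l) (by linarith)) (K := Set.Icc (1 / 8 * l) (31 / 32 * l))
      fun t ht => ⟨ht.1, by linarith [ht.2]⟩
    refine ((h1.mul (hφ.bd a)).mul h3).rate ?_
    have := charge_ZK (N := N) (q := q) a
    linarith
  · show RRU (c a) (ro a) (ro (!a)) u * ph β (ro a) (gP β (ex a)) u * s a u ≠ 0
    exact mul_ne_zero (mul_ne_zero (RRU_ne (hc a) (hr a) (hr (!a)) h1 h2)
      (hφ.ne a u (by linarith) h2)) ((hs a).ne u (by linarith) (by linarith))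

/-! ### the state sum -/

/-- the lines of the objects -/
def ln6 (P : Par6) : O3 → ℝ
  | .L => (1 - P.jL) * l
  | .S => -((1 + P.e) * l)
  | .T => -(l / 2)

/-- **the state sum on the lines of (P)** -/
theorem DZ_Zobj6 (hP : GoodP6 P) (hβ : 0 < β) (hβ' : β ≤ 4 / 3)
    (hr : ∀ a, Rws (ro a)) (hex : ∀ a, ∀ w ∈ ex a, |w.re| ≤ l / 2) (hg0 : ∀ a, GO6 (g0 a))
    (hs : ∀ a, SpW6 (sc (a, .A) * (q : ℝ)) (s a)) {n n' : ℕ} (hn : (n' : ℤ) + N true = n + N false + q) :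
    DZU (c true) (c false) (s true) (s false) (ro true) (ro false) n n' =
      ZobjQ (ZK6 c β ro ex g0 s true) (ZK6 c β ro ex g0 s false) (51 / 100 * l) n n'
        (fun _ _ k _ i => ln6 P (k i)) (fun _ _ _ k' i => ln6 P (k' i)) := by
  have hl := lpos
  have hj2 := hP.L2
  have he3 := hP.e13
  have he := hP.e45
  have hj : P.jL ≤ 27 / 10 := by linarith [hP.Lj, hP.j1e]
  have eT : sc (true, .A) * (q : ℝ) = q := by rw [sc_A]; simp
  have eF : sc (false, .A) * (q : ℝ) = -(q : ℝ) := by rw [sc_A]; simp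
  have hn' : (n' : ℝ) + N true = n + N false + (q : ℝ) := by exact_mod_cast hn
  have hsT : SpU (q : ℝ) (s true) := by
    rw [← eT]
    exact (hs true).toW.spU
  have hsF : SpU (-(q : ℝ)) (s false) := by
    rw [← eF]
    exact (hs false).toW.spU
  have hln : ∀ k : O3, ln6 P k ∈ Set.Icc
      (lo4 (51 / 100 * l) (-(17 / 10 * l)) (-(29 / 20 * l)) (-(7 / 10 * l)) (some k))
      (lo4 (51 / 100 * l) (-(101 / 100 * l)) (-(7 / 10 * l)) (-(l / 2)) (some k)) := by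
    intro k
    cases k <;> simp only [ln6, lo4] <;> constructor <;> nlinarith
  exact DZU_clsP (c := c true) (c' := c false) (s := s true) (t := s false) hβ hβ' (hr true) (hr false)
    lnR6 (g := gP β (ex true)) (g' := gP β (ex false)) (GOk.gP hβ hβ' (hex true))
    (GOk.gP hβ hβ' (hex false)) (hg0 true) (hg0 false) hsT hsF (hs true).specP (hs false).specP hn'
    _ _ (fun _ _ k _ i => hln (k i)) (fun _ _ _ k' i => hln (k' i))

end Pool.Agent.PLX

end
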