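import Pool.Agent.PHK.LgTP
import Pool.Agent.PHK.LgZer
import Pool.Agent.PHK.LgPol
import Pool.Agent.PHK.LgFin
import Pool.Agent.PHK.LgZL
import Pool.Agent.PHK.ZK6

/-!
# The class formulas of all pairs of letters from the word identities

* `TP_reg`, `gen6_of`, `int_YV6`, `int_Fl6`;
* **`zobj_TV6`**: the state sum of the class `t, t'` is the sum of the integrals of `TV6`, generic half
  quanta, from `WordThZ` and `WordThP`;
* **`cls_gen`**, **`cls_ae`**: the class formula `ClsV6`.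
-/

set_option autoImplicit false
set_option linter.unusedSectionVars false
set_option linter.unusedVariables false

noncomputable section

open Complex MeasureTheory Finset
open scoped ENNReal Nat

open PLX (Fil)

namespace PHK

open NUO NUP1 NUP1S NUP1S.Mg NURow NUCR NUP1.Leg NUGC.PLX PBR.PLX
open NUP1.Bd (wt qg Ob)
open Pool.Agent.PLX (hI6_par6 ln6)

/-- without poles the term is that of a class with zeros -/
theorem TP_reg {Z : Bool → Option O3 → ℂ → ℂ} {P : Par6} {a : Bool → Bool} (ha : ∀ s, a s = false)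
    (π : Bool → ℂ) (h : Bool → ℂ → ℂ) {ν : Bool × Bool → Bool → Type} [∀ i s, Fintype (ν i s)]
    [∀ i s, LinearOrder (ν i s)] (ζ ρ : ∀ i s, ν i s → ℂ) (n n' : ℕ) {ι : Type} [Fintype ι]
    (O : ι → Xo) : TP Z P a π h ζ ρ n n' ι O = TZ Z P (ζ (false, false)) (ρ (false, false)) n n' ι O := by
  have e1 : ∀ i : Bool × Bool, OkI a i ↔ i = (false, false) := by
    rintro ⟨b, c⟩
    unfold OkI
    rw [ha, ha]
    cases b <;> cases c <;> simp
  have e2 : ZFl Z π (false, false) = Z := by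
    funext s k z
    unfold ZFl
    simp
  unfold TP
  rw [Finset.sum_eq_single (false, false)]
  · rw [if_pos ⟨(e1 _).2 rfl, by simp, by simp⟩, e2]
    unfold cPl
    simp
  · intro i _ hi
    rw [if_neg fun hc => hi ((e1 i).1 hc.1)]
  · intro h0
    exact absurd (Finset.mem_univ _) h0

section cls

variable {X : Bool → Option O3 → ℂ → ℂ} {κ : ℝ} {e : ℕ} {t t' : HT} {w w' : ℂ}

theorem hx6_im (t : HT) (w : ℂ) : (hx6 t w).im = w.im := by
  unfold hx6
  split_ifs
  · simp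
  · rfl

/-- generic positions -/
theorem gen6_of (hB : LgB X κ e) (hg : GnX X t t' w w') (hw : w.re = htL t) (hw' : w'.re = htL t') :
    Gen6 X t t' w w' := by
  have hl := l_pos
  have him : ∀ a b : ℂ, a.im ≠ b.im → Gx (a - b) := fun a b h => Or.inl (by
    rw [sub_im]
    exact sub_ne_zero.2 h)
  refine ⟨pL0_ne, fun h => hB.inv.ne true w ?_ ?_, fun h => hB.inv.ne false w' ?_ ?_,
    fun _ => him _ _ hg.im, fun _ _ => him _ _ ?_, fun _ _ => him _ _ ?_⟩
  · rw [hw, h]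
    show 51 / 100 * l ≤ 5 / 8 * l
    linarith
  · rw [hw, h]
    show 5 / 8 * l < 63 / 64 * l
    linarith
  · rw [hw', h]
    show 51 / 100 * l ≤ 5 / 8 * l
    linarith
  · rw [hw', h]
    show 5 / 8 * l < 63 / 64 * l
    linarith
  · rw [hx6_im]
    exact hg.im
  · rw [hx6_im]
    exact hg.im.symm

/-- **the terms of the choices are integrable** -/
theorem int_YV6 (hB : LgB X κ e) (hw : w.re = htL t) (hw' : w'.re = htL t') {N N' : ℕ}
    (hN : (N : ℤ) = N' + ((aXt e t t' : ℤ) - aYt e t t')) {u : Ch6 × Ch6} (hu : OkV t t' N N' u) :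
    IntV (YV6 X t t' w w' u) par6 u N N' := by
  intro ι _ K
  refine integrable_fIL par6_good (ms_YV6 hB hu.1.1 hu.1.2) (κ := κ) (κ' := κ) ?_ K
  have h := decL6_Lg hB hu.1.1 hu.1.2 hw hw'
  have h1 := hu.2.1
  have h2 := hu.2.2
  have e1 : (((aXt e t t' : ℕ) : ℝ) + (u.2.2.toNat : ℝ) - (u.1.1.toNat : ℝ)) -
        (((aYt e t t' : ℕ) : ℝ) + (u.1.2.toNat : ℝ) - (u.2.1.toNat : ℝ)) =
      ((N + u.2.2.toNat - u.1.1.toNat : ℕ) : ℝ) - ((N' + u.1.2.toNat - u.2.1.toNat : ℕ) : ℝ) := by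
    rw [Nat.cast_sub (by omega), Nat.cast_sub (by omega)]
    have hN' : (N : ℝ) = N' + ((aXt e t t' : ℝ) - aYt e t t') := by exact_mod_cast hN
    push_cast
    linarith
  rw [← e1]
  exact h

/-- every subset is one of the explicit ones -/
theorem exists_eB {p : Bool → Bool} (E : Finset {j : Bool // p j = true}) :
    ∃ e, OkB p e ∧ E = eB p e := by
  classical
  by_contra hc
  push Not at hc
  have h := sum_eB (M := ℕ) p fun F => if F = E then 1 else 0
  rw [Finset.sum_ite_eq' , if_pos (Finset.mem_univ _)] at h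
  rw [Finset.sum_eq_zero] at h
  · exact one_ne_zero h
  · intro x _
    split_ifs with h1 h2
    · exact absurd h2.symm (hc x h1)
    · rfl
    · rfl

/-- **the terms of the filled classes are integrable** -/
theorem int_Fl6 (hB : LgB X κ e) (hw : w.re = htL t) (hw' : w'.re = htL t') {N N' : ℕ}
    (hN : (N : ℤ) = N' + ((aXt e t t' : ℤ) - aYt e t t')) {i : Bool × Bool} (hi : OkI (av6 t t') i)
    (hi1 : i.1.toNat ≤ N) (hi2 : i.2.toNat ≤ N') (E : Finset (nu6 t t' i true))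
    (E' : Finset (nu6 t t' i false)) {ι : Type} [Fintype ι] (K : ι → Bool × Kd6) :
    Integrable (fun τ : ι → ℝ =>
      fI (ZE (ZFl (Zc6 X t t' w w') (po6 t t' w w') i) (ze6 t t' w w' i) E E') par6 l
        (N - i.1.toNat + E.card) (N' - i.2.toNat + E'.card) fun j => xo (K j) (τ j))
      (Measure.pi fun _ => volume) := by
  obtain ⟨f, hf, rfl⟩ := exists_eB E
  obtain ⟨f', hf', rfl⟩ := exists_eB E'
  simp only [fI_congrZ (eqL_zeYV hw hw' hi hf hf'), card_eB hf, card_eB hf']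
  obtain ⟨i1, i2⟩ := i
  obtain ⟨f1, f2⟩ := f
  obtain ⟨g1, g2⟩ := f'
  have a1 : i1 = true → t = .H := fun h => by simpa [av6] using hi.1 h
  have a2 : i2 = true → t' = .H := fun h => by simpa [av6] using hi.2 h
  have b1 : (f1 = true → hz6 t' = true) ∧ (f2 = true → i1 = true) := by
    simpa [OkB, ac6] using hf
  have b2 : (g1 = true → hz6 t = true) ∧ (g2 = true → i2 = true) := by
    simpa [OkB, ac6] using hf'
  simp only at hi1 hi2
  have hu : OkV t t' N N' ((i1 && !f2, g1), (i2 && !g2, f1)) := by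
    refine ⟨⟨⟨fun h => a1 ?_, fun h => ?_⟩, ⟨fun h => a2 ?_, fun h => ?_⟩⟩, ?_, ?_⟩
    · exact (Bool.and_eq_true _ _ ▸ h).1
    · simpa [hz6] using b2.1 h
    · exact (Bool.and_eq_true _ _ ▸ h).1
    · simpa [hz6] using b1.1 h
    · cases i1 <;> cases f2 <;> simp at hi1 ⊢ <;> omega
    · cases i2 <;> cases g2 <;> simp at hi2 ⊢ <;> omega
  have h := int_YV6 hB hw hw' hN hu K
  simp only at h ⊢
  have e1 : N - i1.toNat + (f1.toNat + f2.toNat) = N + f1.toNat - (i1 && !f2).toNat := by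
    have := b1.2
    cases i1 <;> cases f2 <;> simp at this hi1 ⊢ <;> omega
  have e2 : N' - i2.toNat + (g1.toNat + g2.toNat) = N' + g1.toNat - (i2 && !g2).toNat := by
    have := b2.2
    cases i2 <;> cases g2 <;> simp at this hi2 ⊢ <;> omega
  rw [e1, e2]
  exact h

/-! ### the state sum -/

theorem strip6_of {bZ κ' q0 : ℝ} {Z : Bool → Option O3 → ℂ → ℂ} {ν : Bool → Type}
    [∀ s, Fintype (ν s)] [∀ s, LinearOrder (ν s)] {ζ ρ : ∀ s, ν s → ℂ} {Ei : Bool → ℂ → ℂ}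
    (h : ZerZ Z par6 bZ κ' q0 ζ ρ Ei) : ZStrip par6 ζ := by
  intro s j
  have hl := l_pos
  have h1 := h.st s j
  have e1 : (1 - par6.j2) * l = 1 / 8 * l := by
    show (1 - 7 / 8) * l = 1 / 8 * l
    ring
  have e2 : (1 - par6.j1) * l = 31 / 32 * l := by
    show (1 - 1 / 32) * l = 31 / 32 * l
    ring
  have e3 : (1 - par6.e) * l = 9 / 16 * l := by
    show (1 - 7 / 16) * l = 9 / 16 * l
    ring
  rw [e1, e2] at h1
  show |(ζ s j).re - (1 - par6.e) * l| ≤ 2 / 3 * l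
  rw [e3]
  exact abs_le.2 ⟨by linarith [h1.1], by linarith [h1.2]⟩

theorem lnK_ln6 (P : Par6) : lnK P = ln6 P := by
  funext k
  cases k <;> rfl

/-- **the state sum of the class `t, t'` at generic half quanta** -/
theorem zobj_TV6 (hWZ : WordThZ) (hWP : WordThP) (hB : LgB X κ e) (hg : GnX X t t' w w')
    (hw : w.re = htL t) (hw' : w'.re = htL t') {N N' : ℕ}
    (hN : (N : ℤ) = N' + ((aXt e t t' : ℤ) - aYt e t t')) :
    NURow.ZobjQ (Zc6 X t t' w w' true) (Zc6 X t t' w w' false) (51 / 100 * l) N N'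
      (fun _ _ k _ i => ln6 par6 (k i)) (fun _ _ _ k' i => ln6 par6 (k' i)) =
      ∑ r ∈ range (2 * (N + N') + 1), ((r ! : ℕ) : ℂ)⁻¹ *
        ∫ O : Fin r → Xo, TV6 X par6 t t' w w' N N' (Fin r) O ∂(Measure.pi fun _ => nu) := by
  have hG := gen6_of hB hg hw hw'
  have hκ : κ + 1 / 2 < 6 := by linarith [hB.k1]
  have key : ∀ T : Trm, TOk T (2 * (N + N')) N N' →
      (∀ (p p' : ℕ) (k : Fin p → O3) (k' : Fin p' → O3), ∑ i, c3 (k i) ≤ N →
      ∑ i, c3 (k' i) ≤ N' → ∀ᵐ τ : Fin p ⊕ Fin p' → ℝ ∂(Measure.pi fun _ => volume),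
        WordIdT (Zc6 X t t' w w') T (lnK par6) (51 / 100 * l) N N' (2 * (N + N')) k k' τ) →
      (∀ (r : ℕ) (O : Fin r → Xo), T (Fin r) O = TV6 X par6 t t' w w' N N' (Fin r) O) →
      NURow.ZobjQ (Zc6 X t t' w w' true) (Zc6 X t t' w w' false) (51 / 100 * l) N N'
      (fun _ _ k _ i => ln6 par6 (k i)) (fun _ _ _ k' i => ln6 par6 (k' i)) =
      ∑ r ∈ range (2 * (N + N') + 1), ((r ! : ℕ) : ℂ)⁻¹ *
        ∫ O : Fin r → Xo, TV6 X par6 t t' w w' N N' (Fin r) O ∂(Measure.pi fun _ => nu) := by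
    intro T hT hW hTV
    have h := ZobjQ_of_wordT hT le_rfl (by omega) hW
    rw [← lnK_ln6]
    refine h.trans (Finset.sum_congr rfl fun r _ => ?_)
    simp only [hTV r]
  by_cases ht : t = .H ∨ t' = .H
  · refine key (TP (Zc6 X t t' w w') par6 (av6 t t') (po6 t t' w w') (hp6 X t t' w w')
      (ze6 t t' w w') (rh6 X t t' w w') N N') ?_ ?_ fun r O => TP_TV6 hG hw hw' N N' O
    · exact TP_ok (fun i hi => strip6_of (zerZ_fil hB hg hw hw' hi))
        fun i E E' _ _ K hi h1 h2 => int_Fl6 hB hw hw' hN hi h1 h2 E E' K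
    · exact hWP (Zc6 X t t' w w') par6 κ (κ + 1 / 2) ((aXt e t t' : ℤ) - aYt e t t') N N'
        (av6 t t') (po6 t t' w w') (hp6 X t t' w w') (fun i s => nu6 t t' i s) (ze6 t t' w w')
        (rh6 X t t' w w') (fun i => Ei6 X t t' w w' i) par6_good hI6_par6 (by
          have hl := l_pos
          show (1 - 7 / 16) * l < 19 / 32 * l
          linarith) hB.k0 hκ (ms_Zc6 hB) (decA_Zc6 hB hw hw') (decL_Zc6 hB hw hw')
        (decT_Zc6 hB hw hw') (decS_Zc6 hB hw hw') (polZ_Zc6 hB hw hw' hg.im)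
        (fun i hi => zerZ_fil hB hg hw hw' hi) hN
  · push Not at ht
    have ha : ∀ s, av6 t t' s = false := by
      intro s
      cases s
      · simp [av6, ht.2]
      · simp [av6, ht.1]
    have hreg := zerZ_reg hB hg hw hw' ht.1 ht.2
    refine key (TZ (Zc6 X t t' w w') par6 (ze6 t t' w w' (false, false))
      (rh6 X t t' w w' (false, false)) N N') ?_ ?_ fun r O => ?_
    · refine TZ_ok (strip6_of hreg) fun E E' _ _ K => ?_
      have h := int_Fl6 hB hw hw' hN (i := (false, false)) ⟨by simp, by simp⟩ (by simp) (by simp) E E' K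
      have e2 : ZFl (Zc6 X t t' w w') (po6 t t' w w') (false, false) = Zc6 X t t' w w' := by
        funext s k z
        unfold ZFl
        simp
      rw [e2] at h
      exact h
    · exact hWZ (Zc6 X t t' w w') par6 κ (κ + 1 / 2) ((aXt e t t' : ℤ) - aYt e t t') N N'
        (fun s => nu6 t t' (false, false) s) (ze6 t t' w w' (false, false))
        (rh6 X t t' w w' (false, false)) (Ei6 X t t' w w' (false, false)) par6_good hI6_par6
        hB.k0 hκ (ms_Zc6 hB) (decZ6_Zc6 hB ht.1 ht.2 hw hw') (diff_Zc6 hB ht.1 ht.2 hw hw')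
        hreg hN
    · rw [← TP_TV6 hG hw hw' N N' O, TP_reg ha]

/-- **the class formula at generic half quanta** -/
theorem cls_gen [Fil] (hWZ : WordThZ) (hWP : WordThP) {ob : (Bool → ℂ → ℝ) → OB} {x κ₁ : ℝ}
    {E0 : Set ℝ} (hB : LgB X κ e) (hBs : Bs6 X ob par6 x κ₁ e E0) (hx0 : 0 < x) (hx1 : x ≤ 1 / 100)
    (hg : GnX X t t' w w') (hw : w.re = htL t) (hw' : w'.re = htL t') {cw : Ch6 × Ch6 → ℝ}
    (hcw0 : ∀ u, 0 ≤ cw u) (hcw : ∀ u : Ch6 × Ch6, okC6 t u.1 → okC6 t' u.2 →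
      ‖cV6 X t t' w w' u‖ * 2 ^ (u.1.2.toNat + u.2.2.toNat) ≤ cw u) :
    ClsV6 X par6 x e t t' w w' cw fun n => NURow.ZobjQ (Zc6 X t t' w w' true)
      (Zc6 X t t' w w' false) (51 / 100 * l) (n + aXt e t t') (n + aYt e t t')
      (fun _ _ k _ i => ln6 par6 (k i)) (fun _ _ _ k' i => ln6 par6 (k' i)) := by
  refine clsV6_of hBs hx0 hx1 hw hw' hcw0 hcw (fun n u hu => int_YV6 hB hw hw' ?_ hu) fun n => ?_
  · push_cast
    ring
  · exact zobj_TV6 hWZ hWP hB hg hw hw' (by push_cast; ring)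

/-- **the class formula for almost all heights** -/
theorem cls_ae [Fil] (hWZ : WordThZ) (hWP : WordThP) {ob : (Bool → ℂ → ℝ) → OB} {x κ₁ : ℝ}
    {E0 : Set ℝ} (hB : LgB X κ e) (hBs : Bs6 X ob par6 x κ₁ e E0) (hx0 : 0 < x) (hx1 : x ≤ 1 / 100)
    (t t' : HT) {cw : ℝ × ℝ → Ch6 × Ch6 → ℝ} (hcw0 : ∀ y u, 0 ≤ cw y u)
    (hcw : ∀ (y : ℝ × ℝ) (u : Ch6 × Ch6), okC6 t u.1 → okC6 t' u.2 →
      ‖cV6 X t t' (vl (htL t) y.1) (vl (htL t') y.2) u‖ * 2 ^ (u.1.2.toNat + u.2.2.toNat) ≤ cw y u) :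
    ∀ᵐ y : ℝ × ℝ, ClsV6 X par6 x e t t' (vl (htL t) y.1) (vl (htL t') y.2) (cw y)
      fun n => NURow.ZobjQ (Zc6 X t t' (vl (htL t) y.1) (vl (htL t') y.2) true)
      (Zc6 X t t' (vl (htL t) y.1) (vl (htL t') y.2) false) (51 / 100 * l) (n + aXt e t t')
      (n + aYt e t t') (fun _ _ k _ i => ln6 par6 (k i)) (fun _ _ _ k' i => ln6 par6 (k' i)) := by
  filter_upwards [gnX_ae hB t t'] with y hy
  exact cls_gen hWZ hWP hB hBs hx0 hx1 hy (by simp [vl]) (by simp [vl]) (hcw0 y) (hcw y)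

end cls

end PHK

end
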