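import Pool.Agent.PHK.LgUI
import Pool.Agent.PHK.Cls6
import Pool.Agent.PHK.ZK6
import Pool.Agent.PLX.PB.W1FFa
import Pool.Agent.PHK.ClsIntL

/-!
# (P): decay and inverses of the class functions of two letters on the lines of `par6`

* `pi_two6`: the spectators of two letters over a compact set of real parts with no multiple of `l` in
  the differences, `bdd_two6`, `bdd_two6_inv`, `diff_two6`, `diff_two6_inv`;
* `noM6 t x`: no line of `par6` meets a zero or a pole of a letter of type `t`;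
* **`decL6_YV`**: `DecQL6` of the class `YV6 X t t' w w' u`, any base with `DecZ6`, `InvZ6` of charge `Q`:
  charge `Q + (vQ6 t' u.2 - vQ6 t u.1) / 2`; **`decL6_YVe`**, **`decL6_YVn`** (base charge `-e`);
* `decL6_YD`: the classes D1, D1'.
-/

set_option autoImplicit false
set_option linter.unusedSectionVars false

noncomputable section

open Complex MeasureTheory Finset
open scoped ENNReal

open PLX (Fil)

namespace PBR.PLX

open NUO NUP1 NUCR NUP1S NUP1S.Ab NUP1S.AbC NUP1S.AbG NURow NUP1.Leg NUGC.PLX PBX PBX.PLX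
open _root_.Pool.Agent.PLX
open PHK

/-- no multiple of `l` -/
def NM6 (x : ℝ) : Prop := ∀ n : ℤ, x ≠ n * l

/-- a real between two consecutive multiples of `l` -/
theorem nm6_of {x : ℝ} (m : ℤ) (h1 : m * l < x) (h2 : x < (m + 1) * l) : NM6 x := by
  intro n hn
  have hl := l_pos
  rw [hn] at h1 h2
  have a1 : (m : ℝ) < n := lt_of_mul_lt_mul_right h1 hl.le
  have a2 : (n : ℝ) < m + 1 := lt_of_mul_lt_mul_right h2 hl.le
  have b1 : m < n := by exact_mod_cast a1
  have b2 : n < m + 1 := by exact_mod_cast a2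
  omega

/-- a function of `w - u` -/
theorem UI6.one {s : ℝ} {f : ℂ → ℂ} (h : UI6 s f) (w : ℂ) {K : Set ℝ} (hK : IsCompact K)
    (hn : ∀ x ∈ K, NM6 (w.re - x)) : PI6 s K fun u => f (w - u) := by
  have hK' : IsCompact ((fun x : ℝ => w.re - x) '' K) := hK.image (by fun_prop)
  have hn' : NoM ((fun x : ℝ => w.re - x) '' K) := by
    rintro _ ⟨x, hx, rfl⟩ n
    exact hn x hx n
  obtain ⟨h1, h2, h3⟩ := h _ hK' hn'
  exact ⟨h1.one w fun x hx => ⟨x, hx, rfl⟩, h2.one w fun x hx => ⟨x, hx, rfl⟩,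
    fun z hz => h3 _ ⟨z.re, hz, by simp⟩⟩

/-- **the spectators of two letters** -/
theorem pi_two6 {F F' : Bool → Option O3 → ℂ → ℂ} {q q' : ℝ}
    (h : ∀ c k, UI6 (q * sc (c, ob4 k)) (F c k)) (h' : ∀ c k, UI6 (q' * sc (c, ob4 k)) (F' c k))
    {w w' : ℂ} {K : Set ℝ} (hK : IsCompact K) (hn : ∀ x ∈ K, NM6 (w.re - x))
    (hn' : ∀ x ∈ K, NM6 (w'.re - x)) (a : Bool) (k : Option O3) :
    PI6 ((q - q') * sc (a, ob4 k)) K (fun u => F a k (w - u) * F' (!a) k (w' - u)) := by
  have h1 := (h a k).one w hK hn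
  have h2 := (h' (!a) k).one w' hK hn'
  have e : sc (!a, ob4 k) = -sc (a, ob4 k) := by
    cases a <;> simp [sc]
  refine ⟨(h1.a.mul h2.a).rate ?_, ((h1.b.mul h2.b).rate ?_).congr' fun z => (mul_inv _ _).symm,
    fun z hz => mul_ne_zero (h1.ne z hz) (h2.ne z hz)⟩
  · rw [e]
    ring
  · rw [e]
    ring

/-- the lines of `par6` -/
def ln6S : Set ℝ := {9 / 16 * l, l, -(65 / 64 * l), -(l / 2), -(23 / 16 * l), 1 / 8 * l, 31 / 32 * l}

/-- the positions of the letters -/
def ps6S : Set ℝ := {5 / 4 * l, -(11 / 4) * l, 5 / 8 * l, 1 / 3 * l}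

theorem htL_ps6 (t : HT) : htL t ∈ ps6S := by
  unfold ps6S
  cases t <;> simp [htL]

/-- **no line of `par6` meets a zero or a pole of a letter** -/
theorem nm6_ln {p x : ℝ} (hp : p ∈ ps6S) (hx : x ∈ ln6S) : NM6 (p - x) := by
  have hl := l_pos
  unfold ps6S at hp
  unfold ln6S at hx
  simp only [Set.mem_insert_iff, Set.mem_singleton_iff] at hp hx
  rcases hp with rfl | rfl | rfl | rfl <;> rcases hx with rfl | rfl | rfl | rfl | rfl | rfl | rfl
  · exact nm6_of 0 (by push_cast; linarith) (by push_cast; linarith)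
  · exact nm6_of 0 (by push_cast; linarith) (by push_cast; linarith)
  · exact nm6_of 2 (by push_cast; linarith) (by push_cast; linarith)
  · exact nm6_of 1 (by push_cast; linarith) (by push_cast; linarith)
  · exact nm6_of 2 (by push_cast; linarith) (by push_cast; linarith)
  · exact nm6_of 1 (by push_cast; linarith) (by push_cast; linarith)
  · exact nm6_of 0 (by push_cast; linarith) (by push_cast; linarith)
  · exact nm6_of (-4) (by push_cast; linarith) (by push_cast; linarith)
  · exact nm6_of (-4) (by push_cast; linarith) (by push_cast; linarith)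
  · exact nm6_of (-2) (by push_cast; linarith) (by push_cast; linarith)
  · exact nm6_of (-3) (by push_cast; linarith) (by push_cast; linarith)
  · exact nm6_of (-2) (by push_cast; linarith) (by push_cast; linarith)
  · exact nm6_of (-3) (by push_cast; linarith) (by push_cast; linarith)
  · exact nm6_of (-4) (by push_cast; linarith) (by push_cast; linarith)
  · exact nm6_of 0 (by push_cast; linarith) (by push_cast; linarith)
  · exact nm6_of (-1) (by push_cast; linarith) (by push_cast; linarith)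
  · exact nm6_of 1 (by push_cast; linarith) (by push_cast; linarith)
  · exact nm6_of 1 (by push_cast; linarith) (by push_cast; linarith)
  · exact nm6_of 2 (by push_cast; linarith) (by push_cast; linarith)
  · exact nm6_of 0 (by push_cast; linarith) (by push_cast; linarith)
  · exact nm6_of (-1) (by push_cast; linarith) (by push_cast; linarith)
  · exact nm6_of (-1) (by push_cast; linarith) (by push_cast; linarith)
  · exact nm6_of (-1) (by push_cast; linarith) (by push_cast; linarith)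
  · exact nm6_of 1 (by push_cast; linarith) (by push_cast; linarith)
  · exact nm6_of 0 (by push_cast; linarith) (by push_cast; linarith)
  · exact nm6_of 1 (by push_cast; linarith) (by push_cast; linarith)
  · exact nm6_of 0 (by push_cast; linarith) (by push_cast; linarith)
  · exact nm6_of (-1) (by push_cast; linarith) (by push_cast; linarith)

section base

variable {X : Bool → Option O3 → ℂ → ℂ} {x0 κ κ' Q : ℝ} {w w' : ℂ}

theorem decOn_line {r : ℝ} {K : Set ℝ} {f : ℂ → ℂ} (h : DecOn r K f) {K' : Set ℝ} (hK : K' ⊆ K) :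
    DecOn r K' f := decOn_sub h hK rfl

/-- **decay and inverses of the class functions of two spectators** on the lines of `par6` -/
theorem decL6_two {F F' : Bool → Option O3 → ℂ → ℂ} {q q' : ℝ}
    (h : ∀ c k, UI6 (q * sc (c, ob4 k)) (F c k)) (h' : ∀ c k, UI6 (q' * sc (c, ob4 k)) (F' c k))
    (hw : w.re ∈ ps6S) (hw' : w'.re ∈ ps6S) (hκ : 0 < κ) (hκ' : κ < 6) (hx0 : x0 ≤ 9 / 16 * l)
    (hX : Pool.Agent.PLX.DecZ6 X par6 x0 κ Q) (hI : InvZ6 X κ Q) :
    DecQL6 (fun a => XS a (X a) F (fl F') w w') par6 κ κ (Q + (q' - q) / 2) := by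
  have hl := l_pos
  have key : ∀ (K : Set ℝ), K.Finite → K ⊆ ln6S → ∀ (a : Bool) (k : Option O3),
      PI6 ((q - q') * sc (a, ob4 k)) K (fun u => F a k (w - u) * F' (!a) k (w' - u)) :=
    fun K hK hs a k => pi_two6 h h' hK.isCompact (fun x hx => nm6_ln hw (hs hx))
      (fun x hx => nm6_ln hw' (hs hx)) a k
  refine ⟨hκ, hκ', fun s => ?_, fun s => ?_, fun s => ?_, fun s M => ?_, fun s => ?_⟩
  · have h1 := (key {(1 - par6.e) * l, l} (Set.toFinite _) (fun x hx => by
      rcases hx with hx | hx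
      · rw [hx]
        left
        show (1 - 7 / 16) * l = 9 / 16 * l
        ring
      · rw [hx]
        exact Or.inr (Or.inl rfl)) s none).a.1
    have h2 : DecOn (κ + 2 * Q * sc (s, Bd.Ob.A)) {(1 - par6.e) * l, l} (X s none) :=
      decOn_line (hX.A s) fun x hx => by
        rcases hx with hx | hx
        · rw [hx]
          show x0 ≤ (1 - 7 / 16) * l ∧ (1 - 7 / 16) * l ≤ l
          constructor <;> linarith
        · rw [hx]
          exact ⟨by linarith, le_rfl⟩
    exact DecOn.mulB h2 h1 (le_of_eq (by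
      show _ = κ + 2 * Q * sc (s, Bd.Ob.A) - (q - q') * sc (s, Bd.Ob.A)
      ring))
  · have h1 := (key {(1 - par6.jL) * l} (Set.toFinite _) (fun x hx => by
      rw [Set.mem_singleton_iff.1 hx]
      right; right; left
      show (1 - 129 / 64) * l = -(65 / 64 * l)
      ring) s (some .L)).a.1
    exact DecOn.mulB (hX.L s) h1 (le_of_eq (by
      show _ = κ + 2 * Q * sc (s, Bd.Ob.L) - (q - q') * sc (s, Bd.Ob.L)
      ring))
  · have h1 := (key {-(l / 2)} (Set.toFinite _) (fun x hx => by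
      rw [Set.mem_singleton_iff.1 hx]
      right; right; right; left
      rfl) s (some .T)).a.1
    exact DecOn.mulB (hX.T s) h1 (le_of_eq (by
      show _ = κ + 2 * Q * sc (s, Bd.Ob.S) - (q - q') * sc (s, Bd.Ob.S)
      ring))
  · have h1 := (key {-((1 + par6.e) * l)} (Set.toFinite _) (fun x hx => by
      rw [Set.mem_singleton_iff.1 hx]
      right; right; right; right; left
      show -((1 + 7 / 16) * l) = -(23 / 16 * l)
      ring) s (some .S)).a.1
    obtain ⟨M', hM'⟩ := exists_nat_ge ((M : ℝ) + (q - q') * sc (s, Bd.Ob.S))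
    exact DecOn.mulB (hX.S s M') h1 (by
      show (M : ℝ) ≤ M' - (q - q') * sc (s, Bd.Ob.S)
      linarith)
  · have h1 := (key {(1 - par6.j2) * l, (1 - par6.e) * l, (1 - par6.j1) * l} (Set.toFinite _)
      (fun x hx => by
      rcases hx with hx | hx | hx
      · rw [hx]
        right; right; right; right; right; left
        show (1 - 7 / 8) * l = 1 / 8 * l
        ring
      · rw [hx]
        left
        show (1 - 7 / 16) * l = 9 / 16 * l
        ring
      · rw [hx]
        right; right; right; right; right; right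
        show (1 - 1 / 32) * l = 31 / 32 * l
        ring) s none).b.1
    have h2 : Bdd {(1 - par6.j2) * l, (1 - par6.e) * l, (1 - par6.j1) * l}
        (κ + 2 * Q * sc (s, Bd.Ob.A)) fun u => (X s none u)⁻¹ :=
      Bdd.mono_set (hI.bd s) fun x hx => by
        rcases hx with hx | hx | hx
        · rw [hx]
          show 1 / 8 * l ≤ (1 - 7 / 8) * l ∧ (1 - 7 / 8) * l ≤ 31 / 32 * l
          constructor <;> linarith
        · rw [hx]
          show 1 / 8 * l ≤ (1 - 7 / 16) * l ∧ (1 - 7 / 16) * l ≤ 31 / 32 * l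
          constructor <;> linarith
        · rw [hx]
          show 1 / 8 * l ≤ (1 - 1 / 32) * l ∧ (1 - 1 / 32) * l ≤ 31 / 32 * l
          constructor <;> linarith
    have h3 := (h2.mul h1).rate (s' := κ + 2 * (Q + (q' - q) / 2) * sc (s, Bd.Ob.A)) (by
      show κ + 2 * Q * sc (s, Bd.Ob.A) + -((q - q') * sc (s, Bd.Ob.A)) = _
      ring)
    have e : (fun u => (XS s (X s) F (fl F') w w' none u)⁻¹) = fun u =>
        (X s none u)⁻¹ * (F s none (w - u) * F' (!s) none (w' - u))⁻¹ := by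
      funext u
      show (X s none u * (F s none (w - u) * F' (!s) none (w' - u)))⁻¹ = _
      rw [mul_inv]
    rw [e]
    exact h3

variable {t t' : HT} {u : Ch6 × Ch6}

/-- **the class of two letters**, base of charge `Q` -/
theorem decL6_YV (h : okC6 t u.1) (h' : okC6 t' u.2) (hw : w.re = htL t) (hw' : w'.re = htL t')
    (hκ : 0 < κ) (hκ' : κ < 6) (hx0 : x0 ≤ 9 / 16 * l)
    (hX : Pool.Agent.PLX.DecZ6 X par6 x0 κ Q) (hI : InvZ6 X κ Q) :
    DecQL6 (YV6 X t t' w w' u) par6 κ κ (Q + (vQ6 t' u.2 - vQ6 t u.1) / 2) :=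
  decL6_two (ui_v h) (ui_v h') (hw ▸ htL_ps6 t) (hw' ▸ htL_ps6 t') hκ hκ' hx0 hX hI

theorem vQ6_sub (e : ℕ) (t t' : HT) (u : Ch6 × Ch6) : -(e : ℝ) + (vQ6 t' u.2 - vQ6 t u.1) / 2 =
    ((aXv e t t' u + u.2.1.toNat : ℕ) : ℝ) - ((aYv e t t' u + u.1.1.toNat : ℕ) : ℝ) := by
  have h1 := aXt_q e t t'
  unfold vQ6 aXv aYv
  rw [htQ_eq, htQ_eq]
  push_cast
  linarith

/-- **the class of two letters**, base of charge `-e` -/
theorem decL6_YVe {e : ℕ} (h : okC6 t u.1) (h' : okC6 t' u.2) (hw : w.re = htL t)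
    (hw' : w'.re = htL t') (hκ : 0 < κ) (hκ' : κ < 6) (hx0 : x0 ≤ 9 / 16 * l)
    (hX : Pool.Agent.PLX.DecZ6 X par6 x0 κ (-(e : ℝ))) (hI : InvZ6 X κ (-(e : ℝ))) :
    DecQL6 (YV6 X t t' w w' u) par6 κ κ
      (((aXv e t t' u + u.2.1.toNat : ℕ) : ℝ) - ((aYv e t t' u + u.1.1.toNat : ℕ) : ℝ)) := by
  have key := decL6_YV h h' hw hw' hκ hκ' hx0 hX hI
  rw [vQ6_sub] at key
  exact key

/-- **the class of two letters**, base of charge `-e`, at given numbers of quanta -/
theorem decL6_YVn {e n : ℕ} (h : okC6 t u.1) (h' : okC6 t' u.2) (hw : w.re = htL t)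
    (hw' : w'.re = htL t') (hκ : 0 < κ) (hκ' : κ < 6) (hx0 : x0 ≤ 9 / 16 * l)
    (hX : Pool.Agent.PLX.DecZ6 X par6 x0 κ (-(e : ℝ))) (hI : InvZ6 X κ (-(e : ℝ)))
    (hn : u.1.1.toNat ≤ n + aXv e t t' u) (hn' : u.2.1.toNat ≤ n + aYv e t t' u) :
    DecQL6 (YV6 X t t' w w' u) par6 κ κ (((n + aXv e t t' u - u.1.1.toNat : ℕ) : ℝ) -
      ((n + aYv e t t' u - u.2.1.toNat : ℕ) : ℝ)) := by
  have key := decL6_YVe h h' hw hw' hκ hκ' hx0 hX hI
  have e1 : (((n + aXv e t t' u - u.1.1.toNat : ℕ) : ℝ) - ((n + aYv e t t' u - u.2.1.toNat : ℕ) : ℝ)) =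
      ((aXv e t t' u + u.2.1.toNat : ℕ) : ℝ) - ((aYv e t t' u + u.1.1.toNat : ℕ) : ℝ) := by
    rw [Nat.cast_sub hn, Nat.cast_sub hn']
    push_cast
    ring
  rw [e1]
  exact key

/-- **the classes D1, D1'** -/
theorem decL6_YD (o : Bool) (hw : w.re = -(11 / 4) * l) (hκ : 0 < κ) (hκ' : κ < 6)
    (hx0 : x0 ≤ 9 / 16 * l) (hX : Pool.Agent.PLX.DecZ6 X par6 x0 κ Q) (hI : InvZ6 X κ Q) :
    DecQL6 (YD6 X o w) par6 κ κ Q := by
  have hD : ∀ c k, UI6 (0 * sc (c, ob4 k)) (SD c k) := fun c k => (ui_SD c k).rate (by simp)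
  have h1 : ∀ (c : Bool) (k : Option O3), UI6 (0 * sc (c, ob4 k)) ((fun _ _ _ => 1 :
      Bool → Option O3 → ℂ → ℂ) c k) := fun c k => (UI6.const one_ne_zero).rate (by simp)
  have hw1 : w.re ∈ ps6S := Or.inr (Or.inl hw)
  have hw0 : (((1 / 3 * l : ℝ) : ℂ)).re ∈ ps6S := by
    rw [ofReal_re]
    exact Or.inr (Or.inr (Or.inr rfl))
  cases o
  · have key := decL6_two h1 hD hw0 hw1 hκ hκ' hx0 hX hI
    rw [sub_self, zero_div, add_zero] at key
    exact key
  · have key := decL6_two hD h1 hw1 hw0 hκ hκ' hx0 hX hI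
    rw [sub_self, zero_div, add_zero] at key
    exact key

end base

end PBR.PLX

end
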