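import Pool.Agent.PHK.LgDec0

/-!
# (P): the heights at which the holes of the letters are generic

* `GnX X t t' w w'`: the heights of the half quanta differ, the base is not `0` at the places of the holes;
* `ne_line_ae`: the base is not `0` at almost every point of a line in the strip of the holes;
* **`gnX_ae`**: almost all heights are generic.
-/

set_option autoImplicit false
set_option linter.unusedSectionVars false

noncomputable section

open Complex MeasureTheory Finset
open scoped ENNReal

open PLX (Fil)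

namespace PHK

open NUO NUP1 NUP1S NUP1S.Mg NURow NUCR NUP1.Leg NUGC.PLX PBR.PLX
open NUP1.Bd (wt qg Ob)
open Pool.Agent.PLX (InvZ6)

/-- **generic half quanta**: different heights, the base `X` is not `0` at the holes -/
structure GnX (X : Bool → Option O3 → ℂ → ℂ) (t t' : HT) (w w' : ℂ) : Prop where
  im : w.im ≠ w'.im
  x0 : hz6 t = true → X false none (hx6 t w) ≠ 0
  x1 : hz6 t' = true → X true none (hx6 t' w') ≠ 0

/-- zeros of an analytic function on a strip: almost no point of a vertical line -/
theorem ae_ne_of_strip {f : ℂ → ℂ} {a b c : ℝ} (hac : a < c) (hcb : c < b)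
    (hf : ∀ u : ℂ, a < u.re → u.re < b → DifferentiableAt ℂ f u) {p : ℂ} (hp : a < p.re)
    (hp' : p.re < b) (hfp : f p ≠ 0) : ∀ᵐ y : ℝ, f (vl c y) ≠ 0 := by
  set U : Set ℂ := {u | a < u.re ∧ u.re < b} with hU
  have hUo : IsOpen U := (isOpen_lt continuous_const Complex.continuous_re).inter
    (isOpen_lt Complex.continuous_re continuous_const)
  have hUc : Convex ℝ U := by
    have e : U = Complex.reLm ⁻¹' Set.Ioo a b := rfl
    rw [e]
    exact (convex_Ioo a b).linear_preimage _
  have hUn : U.Nonempty := ⟨p, hp, hp'⟩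
  have hA : AnalyticOnNhd ℂ f U :=
    DifferentiableOn.analyticOnNhd (fun u hu => (hf u hu.1 hu.2).differentiableWithinAt) hUo
  have h2 := hA.preimage_zero_mem_codiscreteWithin (x := p) hfp ⟨hp, hp'⟩
    ⟨hUn, hUc.isPreconnected⟩
  have h3 : IsDiscrete (f ⁻¹' {0} ∩ U) := isDiscrete_of_codiscreteWithin h2
  have h4 : (f ⁻¹' {0} ∩ U).Countable :=
    (HereditarilyLindelofSpace.isLindelof _).countable_of_isDiscrete h3
  have hinj : Function.Injective fun y : ℝ => vl c y := by
    intro y y' h
    have := congrArg Complex.im h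
    simpa [vl] using this
  have h5 : ((fun y : ℝ => vl c y) ⁻¹' (f ⁻¹' {0} ∩ U)).Countable := h4.preimage hinj
  have h6 := h5.measure_zero volume
  have h7 := measure_eq_zero_iff_ae_notMem.1 h6
  filter_upwards [h7] with y hy h0
  refine hy ⟨h0, ?_⟩
  constructor
  · simpa [vl] using hac
  · simpa [vl] using hcb

variable {X : Bool → Option O3 → ℂ → ℂ} {κ : ℝ} {e : ℕ}

/-- **the base is not `0` at almost every point of a line** in the strip of the holes -/
theorem ne_line_ae (hB : LgB X κ e) (s : Bool) {c : ℝ} (h1 : 1 / 9 * l < c) (h2 : c < 63 / 64 * l) :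
    ∀ᵐ y : ℝ, X s none (vl c y) ≠ 0 := by
  have hl := NUP1.l_pos
  have hp : ((3 / 5 * l : ℝ) : ℂ).re = 3 / 5 * l := ofReal_re _
  have h := ae_ne_of_strip (f := fun u => (X s none u)⁻¹) (a := 1 / 9 * l) (b := 63 / 64 * l) h1 h2
    (fun u h3 h4 => hB.inv.an s u h3 h4) (p := ((3 / 5 * l : ℝ) : ℂ)) (by rw [hp]; linarith)
    (by rw [hp]; linarith)
    (inv_ne_zero (hB.inv.ne s _ (by rw [hp]; linarith) (by rw [hp]; linarith)))
  filter_upwards [h] with y hy
  exact fun h0 => hy (by simp only [h0, inv_zero])

/-- one half quantum -/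
theorem hx_ae (hB : LgB X κ e) (t : HT) (s : Bool) :
    ∀ᵐ y : ℝ, hz6 t = true → X s none (hx6 t (vl (htL t) y)) ≠ 0 := by
  have hl := NUP1.l_pos
  cases t
  · exact Filter.Eventually.of_forall fun y h => absurd h (by decide)
  · exact Filter.Eventually.of_forall fun y h => absurd h (by decide)
  · have h := ne_line_ae hB s (c := 1 / 4 * l) (by linarith) (by linarith)
    filter_upwards [h] with y hy _
    have e1 : hx6 .P (vl (htL .P) y) = vl (1 / 4 * l) y := by
      unfold hx6
      rw [if_pos rfl]
      simp only [vl, htL]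
      push_cast
      ring
    rw [e1]
    exact hy
  · have h := ne_line_ae hB s (c := 5 / 8 * l) (by linarith) (by linarith)
    filter_upwards [h] with y hy _
    have e1 : hx6 .H (vl (htL .H) y) = vl (5 / 8 * l) y := by
      unfold hx6
      rw [if_neg (by decide)]
      rfl
    rw [e1]
    exact hy

/-- almost all pairs of heights are different -/
theorem ae_ne_pair : ∀ᵐ y : ℝ × ℝ, y.1 ≠ y.2 := by
  have h1 : ∀ᵐ x : ℝ, ∀ᵐ y : ℝ, x ≠ y := Filter.Eventually.of_forall fun x => by
    have := measure_eq_zero_iff_ae_notMem.1 (measure_singleton (μ := (volume : Measure ℝ)) x)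
    filter_upwards [this] with y hy h
    exact hy (by rw [h]; exact Set.mem_singleton _)
  exact (Measure.ae_prod_iff_ae_ae (measurableSet_eq_fun measurable_fst measurable_snd).compl).2 h1

/-- **almost all heights are generic** -/
theorem gnX_ae (hB : LgB X κ e) (t t' : HT) :
    ∀ᵐ y : ℝ × ℝ, GnX X t t' (vl (htL t) y.1) (vl (htL t') y.2) := by
  have h1 : ∀ᵐ y : ℝ × ℝ, hz6 t = true → X false none (hx6 t (vl (htL t) y.1)) ≠ 0 :=
    Measure.quasiMeasurePreserving_fst.ae (hx_ae hB t false)
  have h2 : ∀ᵐ y : ℝ × ℝ, hz6 t' = true → X true none (hx6 t' (vl (htL t') y.2)) ≠ 0 :=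
    Measure.quasiMeasurePreserving_snd.ae (hx_ae hB t' true)
  filter_upwards [ae_ne_pair, h1, h2] with y hy a b
  refine ⟨?_, a, b⟩
  simpa [vl] using hy

end PHK

end
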