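import Pool.Agent.PHK.WordZT

/-!
# Classes with zeros: the terms

* `gas_congrL`, `fI_congrZ`: the term of a family depends on the class functions on the lines only;
* `eB`, `prod_eB`, `PP_eB`, `sum_eB`: subsets of a subtype of `Bool`.
-/

set_option autoImplicit false
set_option linter.unusedSectionVars false
set_option linter.unusedVariables false

noncomputable section

open Complex MeasureTheory Finset
open scoped ENNReal

open PLX (Fil)

namespace PHK

open NUO NUP1 NUP1S NUP1S.Mg NURow NUCR
open NUP1.Bd (wt qg Ob)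

/-- the gas depends on the functions on the line only -/
theorem gas_congrL {a a' : ℕ} {x : ℝ} {H H' G G' : ℂ → ℂ} (h : ∀ u : ℂ, u.re = x → H u = G u)
    (h' : ∀ u : ℂ, u.re = x → H' u = G' u) : gas a a' x H H' = gas a a' x G G' := by
  unfold gas Ig
  congr 1
  refine integral_congr_ae (Filter.Eventually.of_forall fun t => ?_)
  simp only
  unfold Fg
  congr 1
  refine Finset.prod_congr rfl fun i _ => ?_
  rcases i with i | i
  · exact h _ (by simp [pos, vl])
  · exact h' _ (by simp [pos, vl])

/-- **equal on the lines of (P)** -/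
structure EqL6 (P : Par6) (Z Z' : Bool → Option O3 → ℂ → ℂ) : Prop where
  A : ∀ s (z : ℂ), (z.re = l ∨ z.re = (1 - P.e) * l ∨ z.re = (1 - P.j1) * l ∨
    z.re = (1 - P.j2) * l) → Z s none z = Z' s none z
  L : ∀ s (z : ℂ), z.re = (1 - P.jL) * l → Z s (some .L) z = Z' s (some .L) z
  T : ∀ s (z : ℂ), z.re = -(l / 2) → Z s (some .T) z = Z' s (some .T) z
  S : ∀ s (z : ℂ), z.re = -((1 + P.e) * l) → Z s (some .S) z = Z' s (some .S) z

theorem obK6_congrZ {P : Par6} {Z Z' : Bool → Option O3 → ℂ → ℂ} (h : EqL6 P Z Z') (x : Xo) :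
    obK6 Z P x = obK6 Z' P x := by
  have e1 : ∀ (s : Bool) (t : ℝ), Z s none (posB P.e t) = Z' s none (posB P.e t) := fun s t =>
    h.A s _ (Or.inr (Or.inl (posB_re6 P.e t)))
  have e2 : ∀ (s : Bool) (t : ℝ), Z s (some .S) (posS P.e t) = Z' s (some .S) (posS P.e t) :=
    fun s t => h.S s _ (NUO.vl_re _ _)
  have e3 : ∀ (s : Bool) (t : ℝ), Z s (some .L) (posL P.jL t) = Z' s (some .L) (posL P.jL t) :=
    fun s t => h.L s _ (NUO.vl_re _ _)
  have e4 : ∀ (s : Bool) (t : ℝ), Z s (some .T) (posT t) = Z' s (some .T) (posT t) := fun s t =>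
    h.T s _ (by
      have : (posT t).re = -(1 / 2 * NUMF.l) := NUO.vl_re _ _
      rw [this]
      show -(1 / 2 * NUMF.l) = -(NUMF.l / 2)
      ring)
  have e5 : ∀ (s : Bool) (t : ℝ), Z s none (posL P.j1 t) = Z' s none (posL P.j1 t) := fun s t =>
    h.A s _ (Or.inr (Or.inr (Or.inl (NUO.vl_re _ _))))
  have e6 : ∀ (s : Bool) (t : ℝ), Z s none (posL P.j2 t) = Z' s none (posL P.j2 t) := fun s t =>
    h.A s _ (Or.inr (Or.inr (Or.inr (NUO.vl_re _ _))))
  rcases hk : k6 x with _ | _ | _ | _ | _ | _
  · rw [obK6_L Z P hk, obK6_L Z' P hk, e3]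
  · rw [obK6_T Z P hk, obK6_T Z' P hk, e4]
  · rw [obK6_E Z P hk, obK6_E Z' P hk, e1, e2]
  · rw [obK6_F Z P hk, obK6_F Z' P hk, e1, e1, e2]
  · rw [obK6_H1 Z P hk, obK6_H1 Z' P hk, e5]
  · rw [obK6_H2 Z P hk, obK6_H2 Z' P hk, e6]

/-- **the term of a family depends on the class functions on the lines only** -/
theorem fI_congrZ {P : Par6} {Z Z' : Bool → Option O3 → ℂ → ℂ} (h : EqL6 P Z Z') (n n' : ℕ)
    {ι : Type*} [Fintype ι] (O : ι → Xo) : fI Z P l n n' O = fI Z' P l n n' O := by
  unfold fI wI
  simp only [obK6_congrZ h]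
  split_ifs
  · congr 1
    refine gas_congrL (fun u hu => ?_) fun u hu => ?_
    · rw [h.A true u (Or.inl hu)]
    · rw [h.A false u (Or.inl hu)]
  · rfl

/-! ### subsets of a subtype of `Bool` -/

/-- the subset with `false` (`e.1`) and `true` (`e.2`) -/
def eB (p : Bool → Bool) (e : Bool × Bool) : Finset {j : Bool // p j = true} :=
  univ.filter fun j => (if j.1 = true then e.2 else e.1) = true

/-- a choice in the subtype -/
def OkB (p : Bool → Bool) (e : Bool × Bool) : Prop :=
  (e.1 = true → p false = true) ∧ (e.2 = true → p true = true)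

instance (p : Bool → Bool) (e : Bool × Bool) : Decidable (OkB p e) := by
  unfold OkB
  infer_instance

theorem mem_eB {p : Bool → Bool} {e : Bool × Bool} (j : {j : Bool // p j = true}) :
    j ∈ eB p e ↔ (if j.1 = true then e.2 else e.1) = true := by
  unfold eB
  rw [Finset.mem_filter]
  simp

/-- a product over the subset -/
theorem prod_eB {M : Type*} [CommMonoid M] {p : Bool → Bool} {e : Bool × Bool} (he : OkB p e)
    (g : Bool → M) : ∏ j ∈ eB p e, g j.1 =
      (if e.1 = true then g false else 1) * (if e.2 = true then g true else 1) := by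
  obtain ⟨e1, e2⟩ := e
  obtain ⟨h1, h2⟩ := he
  unfold eB
  rw [Finset.prod_filter]
  have key : ∀ f : Bool → M, (∀ b, p b = false → f b = 1) →
      ∏ j : {j : Bool // p j = true}, f j.1 = f false * f true := by
    intro f hf
    have h3 : ∏ j : {j : Bool // p j = true}, f j.1 =
        ∏ b ∈ univ.filter (fun b => p b = true), f b := by
      rw [Finset.prod_subtype (univ.filter fun b => p b = true) (p := fun b => p b = true)
        (by simp)]
    rw [h3, Finset.prod_filter]
    have h4 : ∀ b, (if p b = true then f b else 1) = f b := by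
      intro b
      by_cases hb : p b = true
      · rw [if_pos hb]
      · rw [if_neg hb, hf b (by simpa using hb)]
    simp only [h4]
    rw [Fintype.prod_bool, mul_comm]
  rw [key (fun b => if (if b = true then e2 else e1) = true then g b else 1) ?_]
  · simp
  · intro b hb
    rw [if_neg]
    intro hc
    cases b
    · rw [h1 (by simpa using hc)] at hb
      exact absurd hb (by simp)
    · rw [h2 (by simpa using hc)] at hb
      exact absurd hb (by simp)

theorem card_eB {p : Bool → Bool} {e : Bool × Bool} (he : OkB p e) :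
    (eB p e).card = e.1.toNat + e.2.toNat := by
  have h := prod_eB (M := Multiplicative ℕ) he fun _ => Multiplicative.ofAdd 1
  have h2 := congrArg Multiplicative.toAdd h
  rw [Finset.prod_const] at h2
  have h3 : Multiplicative.toAdd (Multiplicative.ofAdd (1 : ℕ) ^ (eB p e).card) = (eB p e).card := by
    rw [toAdd_pow, toAdd_ofAdd, smul_eq_mul, mul_one]
  rw [h3] at h2
  rw [h2]
  obtain ⟨e1, e2⟩ := e
  cases e1 <;> cases e2 <;> rfl

/-- the pairs of the subset -/
theorem PP_eB {p : Bool → Bool} {e : Bool × Bool} (he : OkB p e) (A : Bool → Bool → ℂ) :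
    Pool.Agent.PHD.PP (fun j j' : {j : Bool // p j = true} => A j.1 j'.1) (eB p e) =
      if e.1 = true ∧ e.2 = true then A false true else 1 := by
  obtain ⟨e1, e2⟩ := e
  obtain ⟨h1, h2⟩ := he
  unfold Pool.Agent.PHD.PP
  by_cases hc : e1 = true ∧ e2 = true
  · obtain ⟨rfl, rfl⟩ := hc
    have f1 := h1 rfl
    have f2 := h2 rfl
    have e : ((eB p (true, true) ×ˢ eB p (true, true)).filter fun q => q.1 < q.2) =
        {((⟨false, f1⟩ : {j : Bool // p j = true}), (⟨true, f2⟩ : {j : Bool // p j = true}))} := by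
      ext ⟨⟨a, ha⟩, ⟨b, hb⟩⟩
      rw [Finset.mem_filter, Finset.mem_product, mem_eB, mem_eB, Finset.mem_singleton]
      cases a <;> cases b <;> simp
    rw [e, Finset.prod_singleton]
    simp
  · rw [if_neg hc]
    refine Finset.prod_eq_one fun q hq => ?_
    exfalso
    rw [Finset.mem_filter, Finset.mem_product, mem_eB, mem_eB] at hq
    obtain ⟨⟨q1, q2⟩, q3⟩ := hq
    obtain ⟨⟨a, ha⟩, ⟨b, hb⟩⟩ := q
    cases a <;> cases b
    · exact absurd q3 (by simp)
    · exact hc ⟨by simpa using q1, by simpa using q2⟩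
    · exact absurd q3 (by simp)
    · exact absurd q3 (by simp)

/-- **the sum over the subsets** -/
theorem sum_eB {M : Type*} [AddCommMonoid M] (p : Bool → Bool)
    (f : Finset {j : Bool // p j = true} → M) :
    ∑ E : Finset {j : Bool // p j = true}, f E =
      ∑ e : Bool × Bool, if OkB p e then f (eB p e) else 0 := by
  classical
  rw [← Finset.sum_filter]
  refine (Finset.sum_bij (fun e _ => eB p e) (fun e _ => Finset.mem_univ _) ?_ ?_ fun e _ => rfl).symm
  · intro e he e' he' heq
    have he := (Finset.mem_filter.1 he).2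
    have he' := (Finset.mem_filter.1 he').2
    have key : ∀ j : {j : Bool // p j = true}, ((if j.1 = true then e.2 else e.1) = true ↔
        (if j.1 = true then e'.2 else e'.1) = true) := fun j => by
      rw [← mem_eB, ← mem_eB, heq]
    obtain ⟨a, b⟩ := e
    obtain ⟨a', b'⟩ := e'
    obtain ⟨h1, h2⟩ := he
    obtain ⟨h1', h2'⟩ := he'
    simp only at h1 h2 h1' h2' key
    have k1 : a = a' := by
      by_cases hp : p false = true
      · have := key ⟨false, hp⟩
        simp only [Bool.false_eq_true, if_false] at this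
        cases a <;> cases a' <;> simp_all
      · cases a <;> cases a' <;> simp_all
    have k2 : b = b' := by
      by_cases hp : p true = true
      · have := key ⟨true, hp⟩
        simp only [if_true] at this
        cases b <;> cases b' <;> simp_all
      · cases b <;> cases b' <;> simp_all
    rw [k1, k2]
  · intro E _
    refine ⟨(decide (∃ h, (⟨false, h⟩ : {j : Bool // p j = true}) ∈ E),
      decide (∃ h, (⟨true, h⟩ : {j : Bool // p j = true}) ∈ E)), ?_, ?_⟩
    · rw [Finset.mem_filter]
      refine ⟨Finset.mem_univ _, ?_, ?_⟩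
      · intro h
        obtain ⟨h, _⟩ := of_decide_eq_true h
        exact h
      · intro h
        obtain ⟨h, _⟩ := of_decide_eq_true h
        exact h
    · ext ⟨j, hj⟩
      rw [mem_eB]
      cases j
      · simp only [Bool.false_eq_true, if_false, decide_eq_true_eq]
        exact ⟨fun ⟨_, h⟩ => h, fun h => ⟨hj, h⟩⟩
      · simp only [if_true, decide_eq_true_eq]
        exact ⟨fun ⟨_, h⟩ => h, fun h => ⟨hj, h⟩⟩

end PHK

end
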