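import Pool.Agent.PHK.LgZer

/-!
# The term of a class with poles and zeros by choices

* `Kx`, `px`: weight and insertion of a set of holes, explicit; `kaE_eB`, `psE_eB`;
* `cK_own`, `cK_own'`: the hole at the filled own quantum gives back the class without it, with the
  sign `-1`; `cK_rep`;
* `zeYV`, `eqL_zeYV`: the filled class with holes is the class of the choices;
* **`TP_TV6`**: the term of the class `t, t'` is the sum over the choices.
-/

set_option autoImplicit false
set_option linter.unusedSectionVars false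
set_option linter.unusedVariables false
set_option linter.unusedSimpArgs false

noncomputable section

open Complex MeasureTheory Finset
open scoped ENNReal

open PLX (Fil)

namespace PHK

open NUO NUP1 NUP1S NUP1S.Mg NURow NUCR NUP1.Leg NUGC.PLX PBR.PLX
open NUP1.Bd (wt qg Ob)

variable {X : Bool → Option O3 → ℂ → ℂ} {t t' : HT} {w w' : ℂ}

/-! ### explicit forms -/

/-- the weight of the holes `e` (first species), `e'` -/
def Kx (X : Bool → Option O3 → ℂ → ℂ) (t t' : HT) (w w' : ℂ) (i e e' : Bool × Bool) : ℂ :=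
  ((if e.1 = true then -kp / rB6 X t t' w w' i true false else 1) *
      (if e.2 = true then -kp / rB6 X t t' w w' i true true else 1)) *
    ((if e'.1 = true then -kp / rB6 X t t' w w' i false false else 1) *
      (if e'.2 = true then -kp / rB6 X t t' w w' i false true else 1)) *
    ((if e.1 = true ∧ e.2 = true then q (zB6 t t' w w' true false - zB6 t t' w w' true true) else 1) *
      (if e'.1 = true ∧ e'.2 = true then q (zB6 t t' w w' false false - zB6 t t' w w' false true)
        else 1)) *
    ((if e.1 = true then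
        (if e'.1 = true then qg (zB6 t t' w w' true false - zB6 t t' w w' false false) else 1) *
        (if e'.2 = true then qg (zB6 t t' w w' true false - zB6 t t' w w' false true) else 1)
        else 1) *
      (if e.2 = true then
        (if e'.1 = true then qg (zB6 t t' w w' true true - zB6 t t' w w' false false) else 1) *
        (if e'.2 = true then qg (zB6 t t' w w' true true - zB6 t t' w w' false true) else 1)
        else 1))

theorem kaE_eB {i e e' : Bool × Bool} (he : OkB (ac6 t t' i true) e)
    (he' : OkB (ac6 t t' i false) e') :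
    kaE (ze6 t t' w w' i) (rh6 X t t' w w' i) (eB _ e) (eB _ e') = Kx X t t' w w' i e e' := by
  unfold kaE ze6 rh6 Kx
  rw [prod_eB he (fun j => -kp / rB6 X t t' w w' i true j),
    prod_eB he' (fun j => -kp / rB6 X t t' w w' i false j),
    PP_eB he (fun a b => q (zB6 t t' w w' true a - zB6 t t' w w' true b)),
    PP_eB he' (fun a b => q (zB6 t t' w w' false a - zB6 t t' w w' false b))]
  congr 1
  rw [← prod_eB he fun a => (if e'.1 = true then
    qg (zB6 t t' w w' true a - zB6 t t' w w' false false) else 1) *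
    (if e'.2 = true then qg (zB6 t t' w w' true a - zB6 t t' w w' false true) else 1)]
  refine Finset.prod_congr rfl fun j _ => ?_
  rw [prod_eB he' fun b => qg (zB6 t t' w w' true j.1 - zB6 t t' w w' false b)]

/-- the insertion of the holes `e`, `e'` -/
def px (P : Par6) (t t' : HT) (w w' : ℂ) (e e' : Bool × Bool) {ι : Type*} [Fintype ι]
    (O : ι → Xo) : ℂ :=
  (if (∑ i, hl6 true (O i)) + (e.1.toNat + e.2.toNat) ≤ ∑ i, sat6 true (O i) then 1 else 0) *
    (if (∑ i, hl6 false (O i)) + (e'.1.toNat + e'.2.toNat) ≤ ∑ i, sat6 false (O i) then 1 else 0) *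
    (((if e.1 = true then gHI P O true (hx6 t' w') else 1) *
      (if e.2 = true then gHI P O true w else 1)) *
    ((if e'.1 = true then gHI P O false (hx6 t w) else 1) *
      (if e'.2 = true then gHI P O false w' else 1)))

theorem psE_eB {P : Par6} {i e e' : Bool × Bool} (he : OkB (ac6 t t' i true) e)
    (he' : OkB (ac6 t t' i false) e') {ι : Type*} [Fintype ι] (O : ι → Xo) :
    psE P (ze6 t t' w w' i) (eB _ e) (eB _ e') O = px P t t' w w' e e' O := by
  unfold psE ze6 px
  rw [card_eB he, card_eB he', prod_eB he fun j => gHI P O true (zB6 t t' w w' true j),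
    prod_eB he' fun j => gHI P O false (zB6 t t' w w' false j)]
  have e1 : zB6 t t' w w' true false = hx6 t' w' := by simp [zB6]
  have e2 : zB6 t t' w w' true true = w := by simp [zB6]
  have e3 : zB6 t t' w w' false false = hx6 t w := by simp [zB6]
  have e4 : zB6 t t' w w' false true = w' := by simp [zB6]
  rw [e1, e2, e3, e4]
  by_cases h1 : (∑ i, hl6 true (O i)) + (e.1.toNat + e.2.toNat) ≤ ∑ i, sat6 true (O i)
  · by_cases h2 : (∑ i, hl6 false (O i)) + (e'.1.toNat + e'.2.toNat) ≤ ∑ i, sat6 false (O i)
    · rw [if_pos ⟨h1, h2⟩, if_pos h1, if_pos h2, one_mul, one_mul]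
    · rw [if_neg fun h => h2 h.2, if_neg h2, mul_zero, zero_mul]
  · rw [if_neg fun h => h1 h.1, if_neg h1, zero_mul, zero_mul]

/-! ### the hole at the filled own quantum -/

theorem Gx.ne_x06 {x : ℂ} (h : Gx x) (t : HT) (c : Bool) : x ≠ x06 t c := by
  rintro rfl
  unfold x06 at h
  rcases h with h | h
  · refine h ?_
    split_ifs <;> simp
  · split_ifs at h
    · exact h 0 (by simp)
    · refine h (-3) ?_
      push_cast
      simp
    · exact h 0 (by simp)

theorem vF6_ne {i c : Bool} (h : i = true → t = .H) {x : ℂ} (hx : Gx x) :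
    vF6 t (i, false) c none x ≠ 0 := by
  intro h0
  have h1 := eL_eq (c := c) h hx
  rw [h0, zero_mul] at h1
  split_ifs at h1
  · have := hx.ne_x06 t c
    exact this (by
      have h2 : x - x06 t c = 0 := neg_eq_zero.1 h1.symm
      exact sub_eq_zero.1 h2)
  · exact zero_ne_one h1

theorem sin_ne_Gx {x : ℂ} (h : Gx x) (k : ℤ) : sin (x + k * l) ≠ 0 := by
  intro h0
  rw [Complex.sin_eq_zero_iff] at h0
  obtain ⟨m, hm⟩ := h0
  have him := congrArg Complex.im hm
  have hre := congrArg Complex.re hm
  simp at him hre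
  rcases h with h | h
  · exact h him
  · refine h (8 * m - k) ?_
    push_cast
    have h8 : Real.pi = 8 * l := by
      show Real.pi = 8 * (Real.pi / 8)
      ring
    rw [h8] at hre
    linarith

theorem q_ne_Gx {x : ℂ} (h : Gx x) : q x ≠ 0 := by
  unfold q
  have a0 := sin_ne_Gx h 0
  have a1 := sin_ne_Gx h 2
  have a2 := sin_ne_Gx h (-2)
  have a3 := sin_ne_Gx h 1
  have a4 := sin_ne_Gx h (-1)
  push_cast at a0 a1 a2 a3 a4
  rw [zero_mul, add_zero] at a0
  rw [one_mul] at a3
  rw [show x + -2 * (l : ℂ) = x - 2 * l by ring] at a2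
  rw [show x + -1 * (l : ℂ) = x - l by ring] at a4
  exact div_ne_zero (neg_ne_zero.2 (mul_ne_zero (mul_ne_zero (pow_ne_zero _ a0) a1) a2))
    (mul_ne_zero a3 a4)

theorem qg_ne_Gx {x : ℂ} (h : Gx x) : qg x ≠ 0 := by
  unfold Bd.qg
  have a0 := sin_ne_Gx h 4
  have a1 := sin_ne_Gx h 3
  have a2 := sin_ne_Gx h (-3)
  push_cast at a0 a1 a2
  rw [show x + -3 * (l : ℂ) = x - 3 * l by ring] at a2
  rw [add_comm, sin_4l] at a0
  exact div_ne_zero (pow_ne_zero _ a0) (mul_ne_zero (pow_ne_zero _ a1) (pow_ne_zero _ a2))

theorem kp_ne : kp ≠ 0 := by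
  unfold kp
  have h1 : (Real.sin (1 * l) : ℝ) ≠ 0 := by
    have := sinl_pos 1 (by norm_num) (by norm_num)
    rw [Nat.cast_one] at this
    exact this.ne'
  have h2 : (Real.sin (2 * l) : ℝ) ≠ 0 := by
    have := sinl_pos 2 (by norm_num) (by norm_num)
    push_cast at this
    exact this.ne'
  have e1 : sin (l : ℂ) ≠ 0 := by
    have : sin (l : ℂ) = ((Real.sin (1 * l) : ℝ) : ℂ) := by
      rw [one_mul]
      push_cast
      rfl
    rw [this]
    exact_mod_cast h1
  have e2 : sin (2 * (l : ℂ)) ≠ 0 := by
    have : sin (2 * (l : ℂ)) = ((Real.sin (2 * l) : ℝ) : ℂ) := by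
      push_cast
      rfl
    rw [this]
    exact_mod_cast h2
  exact pow_ne_zero _ (div_ne_zero e2 e1)

theorem q_sub_comm (a b : ℂ) : q (a - b) = q (b - a) := by
  rw [← q_neg, neg_sub]

theorem qg_sub_comm (a b : ℂ) : qg (a - b) = qg (b - a) := by
  rw [← NUP1S.qg_neg', neg_sub]

/-- the filled letter `H` -/
theorem vF6_H (i c : Bool) (x : ℂ) : vF6 .H (i, false) c none x =
    vF6 .H (false, false) c none x * (if i = true then (if c = true then q x else qg x) else 1) := by
  unfold vF6
  simp only [Bool.toNat_false, Nat.cast_zero, neg_zero, adF_zero]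
  cases i
  · simp [adF_zero]
  · show hostS false SF c none x * gz (true, .A) (c, ob4 none) x ^ ((true.toNat : ℕ) : ℤ) = _
    simp only [Bool.toNat_true, Nat.cast_one, zpow_one, if_true]
    congr 1
    unfold gz
    cases c
    · rw [if_neg (by simp), if_neg (by simp)]
      rfl
    · rw [if_pos rfl, if_pos rfl]
      rfl

theorem qg0_ne : qg 0 ≠ 0 := by
  unfold Bd.qg
  have h3 : (Real.sin (3 * l) : ℝ) ≠ 0 := by
    have := sinl_pos 3 (by norm_num) (by norm_num)
    push_cast at this
    exact this.ne'
  have e3 : sin (3 * (l : ℂ)) ≠ 0 := by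
    have : sin (3 * (l : ℂ)) = ((Real.sin (3 * l) : ℝ) : ℂ) := by
      push_cast
      rfl
    rw [this]
    exact_mod_cast h3
  rw [zero_add, zero_sub, Complex.sin_neg, Complex.cos_zero]
  refine div_ne_zero (by norm_num) (mul_ne_zero (pow_ne_zero _ e3) (pow_ne_zero _ (neg_ne_zero.2 e3)))

theorem rL_Ht' : rL .H true false = rL .H false false * qg 0 := by
  rw [rL_Htf, rL_Hff]
  unfold Bd.qg
  rw [zero_add, zero_sub, Complex.sin_neg, Complex.cos_zero]
  ring

section res
variable {i2 : Bool}

theorem rB_TF (t' : HT) (i2 : Bool) : rB6 X .H t' w w' (true, i2) true false =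
    rB6 X .H t' w w' (false, i2) true false * q (w - hx6 t' w') := by
  unfold rB6
  simp only [Bool.false_eq_true, if_false, if_true]
  rw [vF6_H true true]
  simp only [if_true]
  ring

theorem rB_FF (t' : HT) (i2 : Bool) : rB6 X .H t' w w' (true, i2) false false =
    rB6 X .H t' w w' (false, i2) false false * qg 0 := by
  unfold rB6
  simp only [Bool.false_eq_true, if_false]
  rw [rL_Ht']
  ring

theorem rB_FT (t' : HT) (i2 : Bool) : rB6 X .H t' w w' (true, i2) false true =
    rB6 X .H t' w w' (false, i2) false true * qg (w - w') := by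
  unfold rB6
  simp only [Bool.false_eq_true, if_false, if_true]
  rw [vF6_H true false]
  simp only [if_true, Bool.false_eq_true, if_false]
  ring

theorem rB_TT {t' : HT} (hi : i2 = true → t' = .H) : rB6 X .H t' w w' (true, i2) true true =
    kp * (X true none w * pL 0 * vF6 t' (false, false) false none (w' - w)) *
      (if i2 = true then qg (w - w') else 1) := by
  unfold rB6
  simp only [if_true]
  rw [rL_Htt]
  have e1 : zB6 .H t' w w' true true = w := by simp [zB6]
  rw [e1]
  cases i2
  · simp only [Bool.false_eq_true, if_false]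
    ring
  · rw [hi rfl, vF6_H true false, qg_sub_comm w w']
    simp only [if_true, Bool.false_eq_true, if_false]
    ring

/-- **the hole at the filled own quantum** -/
theorem cK_own {t' : HT} (hi : i2 = true → t' = .H) {e1 : Bool} {e' : Bool × Bool}
    (hX : X true none w ≠ 0) (hp0 : pL 0 ≠ 0) (hG : Gx (w' - w))
    (he : e1 = true → Gx (w - hx6 t' w')) :
    cPl (po6 .H t' w w') (hp6 X .H t' w w') (true, i2) * Kx X .H t' w w' (true, i2) (e1, true) e' =
      -(cPl (po6 .H t' w w') (hp6 X .H t' w w') (false, i2) *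
        Kx X .H t' w w' (false, i2) (e1, false) e') := by
  have hA : X true none w * pL 0 * vF6 t' (false, false) false none (w' - w) ≠ 0 :=
    mul_ne_zero (mul_ne_zero hX hp0) (vF6_ne (by simp) hG)
  have hk := kp_ne
  have hg : qg (w - w') ≠ 0 := by
    rw [qg_sub_comm]
    exact qg_ne_Gx hG
  have hq : e1 = true → q (w - hx6 t' w') ≠ 0 := fun h => q_ne_Gx (he h)
  have z1 : zB6 .H t' w w' true false = hx6 t' w' := by simp [zB6]
  have z2 : zB6 .H t' w w' true true = w := by simp [zB6]
  have z3 : zB6 .H t' w w' false false = w := by simp [zB6, hx6]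
  have z4 : zB6 .H t' w w' false true = w' := by simp [zB6]
  have p1 : po6 .H t' w w' true = w := by simp [po6]
  have p2 : i2 = true → po6 .H t' w w' false = w' := fun h => by simp [po6, hi h]
  have h1 : -hp6 X .H t' w w' true w =
      X true none w * pL 0 * vF6 t' (false, false) false none (w' - w) := by
    simp [hp6]
  unfold cPl Kx
  simp only [z1, z2, z3, z4, p1, rB_TF, rB_FF, rB_FT, rB_TT hi, h1, sub_self, if_true, and_true,
    true_and, Bool.false_eq_true, if_false, and_false, false_and]
  rw [q_sub_comm (hx6 t' w') w]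
  generalize X true none w * pL 0 * vF6 t' (false, false) false none (w' - w) = A at hA
  generalize q (w - hx6 t' w') = Q at hq
  have hg0 := qg0_ne
  generalize qg 0 = G0 at hg0
  obtain ⟨f1, f2⟩ := e'
  generalize rB6 X .H t' w w' (false, i2) true false = r1
  generalize rB6 X .H t' w w' (false, i2) false false = r2
  generalize rB6 X .H t' w w' (false, i2) false true = r3
  cases i2
  · cases e1
    · simp only [Bool.false_eq_true, if_false, if_true, and_true, true_and, one_mul, mul_one]
      cases f1 <;> cases f2 <;> simp only [Bool.false_eq_true, if_false, if_true, and_true,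
        true_and, and_false, false_and, one_mul, mul_one] <;> field_simp
    · have hQ := hq rfl
      simp only [Bool.false_eq_true, if_false, if_true, and_true, true_and, one_mul, mul_one]
      cases f1 <;> cases f2 <;> simp only [Bool.false_eq_true, if_false, if_true, and_true,
        true_and, and_false, false_and, one_mul, mul_one] <;> field_simp
  · rw [p2 rfl]
    generalize qg (w - w') = G at hg
    cases e1
    · simp only [Bool.false_eq_true, if_false, if_true, and_true, true_and, one_mul, mul_one]
      cases f1 <;> cases f2 <;> simp only [Bool.false_eq_true, if_false, if_true, and_true,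
        true_and, and_false, false_and, one_mul, mul_one] <;> field_simp
    · have hQ := hq rfl
      simp only [Bool.false_eq_true, if_false, if_true, and_true, true_and, one_mul, mul_one]
      cases f1 <;> cases f2 <;> simp only [Bool.false_eq_true, if_false, if_true, and_true,
        true_and, and_false, false_and, one_mul, mul_one] <;> field_simp

theorem rB_FF' (t : HT) (i1 : Bool) : rB6 X t .H w w' (i1, true) false false =
    rB6 X t .H w w' (i1, false) false false * q (w' - hx6 t w) := by
  unfold rB6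
  simp only [Bool.false_eq_true, if_false]
  rw [vF6_H true true]
  simp only [if_true]
  ring

theorem rB_TF' (t : HT) (i1 : Bool) : rB6 X t .H w w' (i1, true) true false =
    rB6 X t .H w w' (i1, false) true false * qg 0 := by
  unfold rB6
  simp only [Bool.false_eq_true, if_false, if_true]
  rw [rL_Ht']
  ring

theorem rB_TT' (t : HT) (i1 : Bool) : rB6 X t .H w w' (i1, true) true true =
    rB6 X t .H w w' (i1, false) true true * qg (w - w') := by
  unfold rB6
  simp only [if_true]
  rw [vF6_H true false, qg_sub_comm w w']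
  simp only [if_true, Bool.false_eq_true, if_false]
  ring

theorem rB_FT' {t : HT} {i1 : Bool} (hi : i1 = true → t = .H) :
    rB6 X t .H w w' (i1, true) false true =
    kp * (X false none w' * pL 0 * vF6 t (false, false) false none (w - w')) *
      (if i1 = true then qg (w - w') else 1) := by
  unfold rB6
  simp only [if_true, Bool.false_eq_true, if_false]
  rw [rL_Htt]
  have e1 : zB6 t .H w w' false true = w' := by simp [zB6]
  rw [e1]
  cases i1
  · simp only [Bool.false_eq_true, if_false]
    ring
  · rw [hi rfl, vF6_H true false]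
    simp only [if_true, Bool.false_eq_true, if_false]
    ring

/-- **the hole at the filled own quantum**, second species -/
theorem cK_own' {t : HT} {i1 : Bool} (hi : i1 = true → t = .H) {f1 : Bool} {e : Bool × Bool}
    (hX : X false none w' ≠ 0) (hp0 : pL 0 ≠ 0) (hG : Gx (w - w'))
    (he : f1 = true → Gx (w' - hx6 t w)) :
    cPl (po6 t .H w w') (hp6 X t .H w w') (i1, true) * Kx X t .H w w' (i1, true) e (f1, true) =
      -(cPl (po6 t .H w w') (hp6 X t .H w w') (i1, false) *
        Kx X t .H w w' (i1, false) e (f1, false)) := by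
  have hA : X false none w' * pL 0 * vF6 t (false, false) false none (w - w') ≠ 0 :=
    mul_ne_zero (mul_ne_zero hX hp0) (vF6_ne (by simp) hG)
  have hk := kp_ne
  have hg : qg (w - w') ≠ 0 := qg_ne_Gx hG
  have hq : f1 = true → q (w' - hx6 t w) ≠ 0 := fun h => q_ne_Gx (he h)
  have z1 : zB6 t .H w w' true false = w' := by simp [zB6, hx6]
  have z2 : zB6 t .H w w' true true = w := by simp [zB6]
  have z3 : zB6 t .H w w' false false = hx6 t w := by simp [zB6]
  have z4 : zB6 t .H w w' false true = w' := by simp [zB6]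
  have p1 : po6 t .H w w' false = w' := by simp [po6]
  have p2 : i1 = true → po6 t .H w w' true = w := fun h => by simp [po6, hi h]
  have h1 : -hp6 X t .H w w' false w' =
      X false none w' * pL 0 * vF6 t (false, false) false none (w - w') := by
    simp [hp6]
  unfold cPl Kx
  simp only [z1, z2, z3, z4, p1, rB_FF', rB_TF', rB_TT', rB_FT' hi, h1, sub_self, if_true, and_true,
    true_and, Bool.false_eq_true, if_false, and_false, false_and]
  rw [q_sub_comm (hx6 t w) w']
  generalize X false none w' * pL 0 * vF6 t (false, false) false none (w - w') = A at hA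
  generalize q (w' - hx6 t w) = Q at hq
  have hg0 := qg0_ne
  generalize qg 0 = G0 at hg0
  obtain ⟨e1, e2⟩ := e
  generalize rB6 X t .H w w' (i1, false) true false = r1
  generalize rB6 X t .H w w' (i1, false) false false = r2
  generalize rB6 X t .H w w' (i1, false) true true = r3
  cases i1
  · generalize qg (w - w') = G at hg
    cases f1
    · cases e1 <;> cases e2 <;> simp only [Bool.false_eq_true, if_false, if_true, and_true,
        true_and, and_false, false_and, one_mul, mul_one] <;> field_simp
    · have hQ := hq rfl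
      cases e1 <;> cases e2 <;> simp only [Bool.false_eq_true, if_false, if_true, and_true,
        true_and, and_false, false_and, one_mul, mul_one] <;> field_simp
  · rw [p2 rfl]
    generalize qg (w - w') = G at hg
    cases f1
    · cases e1 <;> cases e2 <;> simp only [Bool.false_eq_true, if_false, if_true, and_true,
        true_and, and_false, false_and, one_mul, mul_one] <;> field_simp
    · have hQ := hq rfl
      cases e1 <;> cases e2 <;> simp only [Bool.false_eq_true, if_false, if_true, and_true,
        true_and, and_false, false_and, one_mul, mul_one] <;> field_simp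

end res

/-! ### all choices -/

/-- sign of a hole at a filled own quantum -/
def sg1 (a : Bool) : ℂ := if a = true then -1 else 1

/-- the positions are generic -/
structure Gen6 (X : Bool → Option O3 → ℂ → ℂ) (t t' : HT) (w w' : ℂ) : Prop where
  p0 : pL 0 ≠ 0
  xX : t = .H → X true none w ≠ 0
  xY : t' = .H → X false none w' ≠ 0
  g : t = .H ∨ t' = .H → Gx (w - w')
  gX : t = .H → hz6 t' = true → Gx (w - hx6 t' w')
  gY : t' = .H → hz6 t = true → Gx (w' - hx6 t w)

theorem cK_rep {v v' e1 f1 : Bool} (hv : v = true → t = .H) (hv' : v' = true → t' = .H) :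
    cPl (po6 t t' w w') (hp6 X t t' w w') (v, v') * Kx X t t' w w' (v, v') (e1, false) (f1, false) =
      cV6 X t t' w w' ((v, f1), (v', e1)) := by
  have z1 : zB6 t t' w w' true false = hx6 t' w' := by simp [zB6]
  have z3 : zB6 t t' w w' false false = hx6 t w := by simp [zB6]
  have h1 : v = true → -hp6 X t t' w w' true (po6 t t' w w' true) =
      X true none w * pL 0 * vF6 t' (false, false) false none (w' - w) := fun h => by
    simp [hp6, po6, hv h]
  have h2 : v' = true → -hp6 X t t' w w' false (po6 t t' w w' false) =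
      X false none w' * pL 0 * vF6 t (false, false) false none (w - w') := fun h => by
    simp [hp6, po6, hv' h]
  have h3 : v = true ∧ v' = true → po6 t t' w w' true - po6 t t' w w' false = w - w' := fun h => by
    simp [po6, hv h.1, hv' h.2]
  have k1 : (if v = true then -hp6 X t t' w w' true (po6 t t' w w' true) else 1) =
      if v = true then X true none w * pL 0 * vF6 t' (false, false) false none (w' - w) else 1 := by
    split_ifs with h
    · exact h1 h
    · rfl
  have k2 : (if v' = true then -hp6 X t t' w w' false (po6 t t' w w' false) else 1) =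
      if v' = true then X false none w' * pL 0 * vF6 t (false, false) false none (w - w') else 1 := by
    split_ifs with h
    · exact h2 h
    · rfl
  have k3 : (if v = true ∧ v' = true then qg (po6 t t' w w' true - po6 t t' w w' false) else 1) =
      if v = true ∧ v' = true then qg (w - w') else 1 := by
    split_ifs with h
    · rw [h3 h]
    · rfl
  unfold cPl Kx cV6
  simp only [k1, k2, k3, z1, z3, Bool.false_eq_true, if_false, mul_one, and_false]
  cases e1 <;> cases f1 <;>
    first
    | (simp only [Bool.false_eq_true, if_false, if_true, and_true,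
        true_and, and_false, false_and, and_self, one_mul, mul_one]; ring)
    | simp only [Bool.false_eq_true, if_false, if_true, and_true,
        true_and, and_false, false_and, and_self, one_mul, mul_one]

theorem cK_all (hg : Gen6 X t t' w w') {v a v' b e1 f1 : Bool} (hv : v = true → t = .H)
    (hv' : v' = true → t' = .H) (ha : a = true → t = .H ∧ v = false)
    (hb : b = true → t' = .H ∧ v' = false) (he : e1 = true → hz6 t' = true)
    (hf : f1 = true → hz6 t = true) :
    cPl (po6 t t' w w') (hp6 X t t' w w') (v || a, v' || b) *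
        Kx X t t' w w' (v || a, v' || b) (e1, a) (f1, b) =
      sg1 a * sg1 b * cV6 X t t' w w' ((v, f1), (v', e1)) := by
  have step : cPl (po6 t t' w w') (hp6 X t t' w w') (v, v' || b) *
        Kx X t t' w w' (v, v' || b) (e1, false) (f1, b) =
      sg1 b * cV6 X t t' w w' ((v, f1), (v', e1)) := by
    cases b
    · rw [Bool.or_false, cK_rep hv hv', sg1, if_neg (by simp), one_mul]
    · obtain ⟨h1, h2⟩ := hb rfl
      subst h1 h2
      rw [Bool.false_or, cK_own' hv (hg.xY rfl) hg.p0 (hg.g (Or.inr rfl)) fun h => hg.gY rfl (hf h),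
        cK_rep hv (by simp), sg1, if_pos rfl]
      ring
  cases a
  · have e0 : sg1 false = 1 := by simp [sg1]
    rw [Bool.or_false, step, e0, one_mul]
  · obtain ⟨h1, h2⟩ := ha rfl
    subst h1 h2
    have hi : (v' || b) = true → t' = .H := by
      intro h
      rcases Bool.or_eq_true _ _ ▸ h with h | h
      · exact hv' h
      · exact (hb h).1
    rw [Bool.false_or, cK_own hi (hg.xX rfl) hg.p0 (by
      have := (hg.g (Or.inl rfl)).neg
      rwa [neg_sub] at this) (fun h => hg.gX rfl (he h)), step]
    unfold sg1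
    simp only [if_true]
    ring

/-! ### the sum over the choices -/

/-- own quantum filled, hole there -/
theorem sum_va {M : Type*} [AddCommMonoid M] (F : Bool → Bool → M) :
    ∑ i : Bool, ∑ a : Bool, (if a = true → i = true then F i a else 0) =
      ∑ v : Bool, ∑ a : Bool, if v = true ∧ a = true then 0 else F (v || a) a := by
  simp only [Fintype.sum_bool]
  simp
  abel

/-- charges of families are nonnegative -/
theorem q3I_nonneg {ι : Type*} [Fintype ι] (O : ι → Xo) (s : Bool) : 0 ≤ q3I O s := by
  have key : ∀ x : Xo, (0 : ℤ) ≤ chg6 s x + (hl6 s x : ℤ) - (sat6 s x : ℤ) := by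
    intro x
    unfold chg6 hl6 sat6
    cases k6 x <;> cases sp x <;> cases s <;> simp
  have h : q3I O s = ∑ i, (chg6 s (O i) + (hl6 s (O i) : ℤ) - (sat6 s (O i) : ℤ)) := by
    unfold q3I qI
    push_cast
    simp only [Finset.sum_add_distrib, Finset.sum_sub_distrib]
  rw [h]
  exact Finset.sum_nonneg fun i _ => key (O i)

/-- no room for one more hole -/
theorem fI_van {Z : Bool → Option O3 → ℂ → ℂ} {P : Par6} {y : ℝ} {n n' m : ℕ} {ι : Type*}
    [Fintype ι] {O : ι → Xo} (s : Bool) (hn : (if s = true then n else n') ≤ m)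
    (hm : (∑ i, hl6 s (O i)) + m + 1 ≤ ∑ i, sat6 s (O i)) : fI Z P y n n' O = 0 := by
  unfold fI
  rw [if_neg]
  rintro ⟨h1, h2, _⟩
  have h3 := q3I_nonneg O s
  unfold q3I at h3
  have h4 : ((∑ i, hl6 s (O i) : ℕ) : ℤ) + m + 1 ≤ ((∑ i, sat6 s (O i) : ℕ) : ℤ) := by
    exact_mod_cast hm
  have h5 : ((if s = true then n else n' : ℕ) : ℤ) ≤ m := by exact_mod_cast hn
  cases s
  · simp only [Bool.false_eq_true, if_false] at h5
    linarith
  · simp only [if_true] at h5
    linarith

/-! ### the lines -/

/-- the places of the half quanta and of the zeros are generic on the lines of `par6` -/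
theorem Gn_line {a x : ℝ} (ha : a = 5 / 4 * l ∨ a = -(11 / 4) * l ∨ a = 5 / 8 * l ∨ a = 1 / 4 * l)
    (hx : x = l ∨ x = 9 / 16 * l ∨ x = 31 / 32 * l ∨ x = 1 / 8 * l ∨ x = -(65 / 64 * l) ∨
      x = -(1 / 2 * l) ∨ x = -(23 / 16 * l)) {v z : ℂ} (hv : v.re = a) (hz : z.re = x) :
    Gn (v - z) := by
  intro k hk
  rw [sub_re, hv, hz] at hk
  have hl : (0 : ℝ) < l := NUMF.l_pos
  have key : ∀ c : ℝ, (∀ k : ℤ, c ≠ k) → c * l ≠ k * l := fun c hc h =>
    hc k (mul_right_cancel₀ hl.ne' h)
  have nz : ∀ (c : ℝ) (N : ℤ), (64 : ℝ) * c = N → (¬ (64 : ℤ) ∣ N) → ∀ k : ℤ, c ≠ k := by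
    intro c N h1 h2 k h3
    rw [h3] at h1
    exact h2 ⟨k, by exact_mod_cast h1.symm⟩
  rcases ha with rfl | rfl | rfl | rfl <;> rcases hx with rfl | rfl | rfl | rfl | rfl | rfl | rfl
  · exact key (1 / 4) (nz _ 16 (by norm_num) (by norm_num)) (by linarith)
  · exact key (11 / 16) (nz _ 44 (by norm_num) (by norm_num)) (by linarith)
  · exact key (9 / 32) (nz _ 18 (by norm_num) (by norm_num)) (by linarith)
  · exact key (9 / 8) (nz _ 72 (by norm_num) (by norm_num)) (by linarith)
  · exact key (145 / 64) (nz _ 145 (by norm_num) (by norm_num)) (by linarith)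
  · exact key (7 / 4) (nz _ 112 (by norm_num) (by norm_num)) (by linarith)
  · exact key (43 / 16) (nz _ 172 (by norm_num) (by norm_num)) (by linarith)
  · exact key (-(15 / 4)) (nz _ (-240) (by norm_num) (by norm_num)) (by linarith)
  · exact key (-(53 / 16)) (nz _ (-212) (by norm_num) (by norm_num)) (by linarith)
  · exact key (-(119 / 32)) (nz _ (-238) (by norm_num) (by norm_num)) (by linarith)
  · exact key (-(23 / 8)) (nz _ (-184) (by norm_num) (by norm_num)) (by linarith)
  · exact key (-(111 / 64)) (nz _ (-111) (by norm_num) (by norm_num)) (by linarith)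
  · exact key (-(9 / 4)) (nz _ (-144) (by norm_num) (by norm_num)) (by linarith)
  · exact key (-(21 / 16)) (nz _ (-84) (by norm_num) (by norm_num)) (by linarith)
  · exact key (-(3 / 8)) (nz _ (-24) (by norm_num) (by norm_num)) (by linarith)
  · exact key (1 / 16) (nz _ 4 (by norm_num) (by norm_num)) (by linarith)
  · exact key (-(11 / 32)) (nz _ (-22) (by norm_num) (by norm_num)) (by linarith)
  · exact key (1 / 2) (nz _ 32 (by norm_num) (by norm_num)) (by linarith)
  · exact key (105 / 64) (nz _ 105 (by norm_num) (by norm_num)) (by linarith)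
  · exact key (9 / 8) (nz _ 72 (by norm_num) (by norm_num)) (by linarith)
  · exact key (33 / 16) (nz _ 132 (by norm_num) (by norm_num)) (by linarith)
  · exact key (-(3 / 4)) (nz _ (-48) (by norm_num) (by norm_num)) (by linarith)
  · exact key (-(5 / 16)) (nz _ (-20) (by norm_num) (by norm_num)) (by linarith)
  · exact key (-(23 / 32)) (nz _ (-46) (by norm_num) (by norm_num)) (by linarith)
  · exact key (1 / 8) (nz _ 8 (by norm_num) (by norm_num)) (by linarith)
  · exact key (81 / 64) (nz _ 81 (by norm_num) (by norm_num)) (by linarith)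
  · exact key (3 / 4) (nz _ 48 (by norm_num) (by norm_num)) (by linarith)
  · exact key (27 / 16) (nz _ 108 (by norm_num) (by norm_num)) (by linarith)

theorem htL_mem (t : HT) : htL t = 5 / 4 * l ∨ htL t = -(11 / 4) * l ∨ htL t = 5 / 8 * l ∨
    htL t = 1 / 4 * l := by
  cases t
  · exact Or.inl rfl
  · exact Or.inr (Or.inl rfl)
  · exact Or.inr (Or.inl rfl)
  · exact Or.inr (Or.inr (Or.inl rfl))

/-- **the filled class with holes is the class of the choices** at generic points -/
theorem zeYV {i e e' : Bool × Bool} (hi : OkI (av6 t t') i) (he : OkB (ac6 t t' i true) e)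
    (he' : OkB (ac6 t t' i false) e') (s : Bool) (k : Option O3) {z : ℂ} (hx : Gn (w - z))
    (hx' : Gn (w' - z)) :
    ZE (ZFl (Zc6 X t t' w w') (po6 t t' w w') i) (ze6 t t' w w' i) (eB _ e) (eB _ e') s k z =
      YV6 X t t' w w' ((i.1 && !e.2, e'.1), (i.2 && !e'.2, e.1)) s k z := by
  obtain ⟨i1, i2⟩ := i
  obtain ⟨e1, e2⟩ := e
  obtain ⟨f1, f2⟩ := e'
  have b1 : (e1 = true → hz6 t' = true) ∧ (e2 = true → i1 = true) := by
    simpa [OkB, ac6] using he
  have b2 : (f1 = true → hz6 t = true) ∧ (f2 = true → i2 = true) := by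
    simpa [OkB, ac6] using he'
  have h1 := LgZ.okI_fst hi
  have h2 := LgZ.okI_snd hi
  simp only at h1 h2
  have o1 : okC6 t (i1 && !e2, f1) := ⟨fun h => h1 (Bool.and_eq_true _ _ ▸ h).1, fun h => by
    simpa [hz6] using b2.1 h⟩
  have o2 : okC6 t' (i2 && !f2, e1) := ⟨fun h => h2 (Bool.and_eq_true _ _ ▸ h).1, fun h => by
    simpa [hz6] using b1.1 h⟩
  simp only
  rw [YV6_hole X o1 o2 hx hx' s k]
  unfold ZE ze6
  rw [prod_eB he (fun j => gz (true, .A) (s, ob4 k) (zB6 t t' w w' true j - z)),
    prod_eB he' (fun j => gz (false, .A) (s, ob4 k) (zB6 t t' w w' false j - z)),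
    LgZ.ZFl_Zc6 hi s k z]
  have z1 : zB6 t t' w w' true false = hx6 t' w' := by simp [zB6]
  have z2 : zB6 t t' w w' true true = w := by simp [zB6]
  have z3 : zB6 t t' w w' false false = hx6 t w := by simp [zB6]
  have z4 : zB6 t t' w w' false true = w' := by simp [zB6]
  rw [z1, z2, z3, z4]
  have q1 : vF6 t (i1, false) s k (w - z) *
      (if e2 = true then gz (true, .A) (s, ob4 k) (w - z) else 1)⁻¹ =
      vF6 t (i1 && !e2, false) s k (w - z) := by
    cases e2
    · simp
    · obtain rfl := b1.2 rfl
      obtain rfl := h1 rfl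
      rw [if_pos rfl, vF6_qu false s k (w - z), mul_assoc, mul_inv_cancel₀ (gz_ne_gn hx true s _),
        mul_one]
      rfl
  have q2 : vF6 t' (i2, false) (!s) k (w' - z) *
      (if f2 = true then gz (false, .A) (s, ob4 k) (w' - z) else 1)⁻¹ =
      vF6 t' (i2 && !f2, false) (!s) k (w' - z) := by
    cases f2
    · simp
    · obtain rfl := b2.2 rfl
      obtain rfl := h2 rfl
      have e : gz (true, .A) (!s, ob4 k) = gz (false, .A) (s, ob4 k) := gz_not false s _ _
      rw [if_pos rfl, vF6_qu false (!s) k (w' - z), e, mul_assoc,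
        mul_inv_cancel₀ (gz_ne_gn hx' false s _), mul_one]
      rfl
  show _ = X s k z * (vF6 t (i1 && !e2, false) s k (w - z) *
    vF6 t' (i2 && !f2, false) (!s) k (w' - z)) * _
  rw [← q1, ← q2]
  simp only [mul_inv]
  ring

/-- **the filled class with holes on the lines is the class of the choices** -/
theorem eqL_zeYV {i e e' : Bool × Bool} (hw : w.re = htL t) (hw' : w'.re = htL t')
    (hi : OkI (av6 t t') i) (he : OkB (ac6 t t' i true) e) (he' : OkB (ac6 t t' i false) e') :
    EqL6 par6 (ZE (ZFl (Zc6 X t t' w w') (po6 t t' w w') i) (ze6 t t' w w' i) (eB _ e) (eB _ e'))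
      (YV6 X t t' w w' ((i.1 && !e.2, e'.1), (i.2 && !e'.2, e.1))) := by
  have key : ∀ {x : ℝ}, (x = l ∨ x = 9 / 16 * l ∨ x = 31 / 32 * l ∨ x = 1 / 8 * l ∨
      x = -(65 / 64 * l) ∨ x = -(1 / 2 * l) ∨ x = -(23 / 16 * l)) → ∀ (s : Bool) (k : Option O3)
      {z : ℂ}, z.re = x →
      ZE (ZFl (Zc6 X t t' w w') (po6 t t' w w') i) (ze6 t t' w w' i) (eB _ e) (eB _ e') s k z =
        YV6 X t t' w w' ((i.1 && !e.2, e'.1), (i.2 && !e'.2, e.1)) s k z := by
    intro x hx s k z hz
    exact zeYV hi he he' s k (Gn_line (htL_mem t) hx hw hz) (Gn_line (htL_mem t') hx hw' hz)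
  constructor
  · intro s z hz
    refine key (x := z.re) ?_ s none rfl
    rcases hz with h | h | h | h <;> rw [h]
    · exact Or.inl rfl
    · refine Or.inr (Or.inl ?_)
      show (1 - 7 / 16) * l = 9 / 16 * l
      ring
    · refine Or.inr (Or.inr (Or.inl ?_))
      show (1 - 1 / 32) * l = 31 / 32 * l
      ring
    · refine Or.inr (Or.inr (Or.inr (Or.inl ?_)))
      show (1 - 7 / 8) * l = 1 / 8 * l
      ring
  · intro s z hz
    refine key (x := z.re) ?_ s _ rfl
    rw [hz]
    refine Or.inr (Or.inr (Or.inr (Or.inr (Or.inl ?_))))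
    show (1 - 129 / 64) * l = -(65 / 64 * l)
    ring
  · intro s z hz
    refine key (x := z.re) ?_ s _ rfl
    rw [hz]
    refine Or.inr (Or.inr (Or.inr (Or.inr (Or.inr (Or.inl ?_)))))
    ring
  · intro s z hz
    refine key (x := z.re) ?_ s _ rfl
    rw [hz]
    refine Or.inr (Or.inr (Or.inr (Or.inr (Or.inr (Or.inr ?_)))))
    show -((1 + 7 / 16) * l) = -(23 / 16 * l)
    ring

/-! ### the term by choices -/

/-- one summand: quanta `i`, holes `e`, `e'` -/
def Gt (X : Bool → Option O3 → ℂ → ℂ) (t t' : HT) (w w' : ℂ) (n n' : ℕ) {ι : Type} [Fintype ι]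
    (O : ι → Xo) (i e e' : Bool × Bool) : ℂ :=
  if (OkI (av6 t t') i ∧ i.1.toNat ≤ n ∧ i.2.toNat ≤ n') ∧ (e.1 = true → hz6 t' = true) ∧
      (e'.1 = true → hz6 t = true) then
    cPl (po6 t t' w w') (hp6 X t t' w w') i * (Kx X t t' w w' i e e' *
      (fI (YV6 X t t' w w' ((i.1 && !e.2, e'.1), (i.2 && !e'.2, e.1))) par6 l
        (n - i.1.toNat + (e.1.toNat + e.2.toNat)) (n' - i.2.toNat + (e'.1.toNat + e'.2.toNat)) O *
        px par6 t t' w w' e e' O)) else 0

theorem TP_Gt (hw : w.re = htL t) (hw' : w'.re = htL t') (n n' : ℕ) {ι : Type} [Fintype ι]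
    (O : ι → Xo) :
    TP (Zc6 X t t' w w') par6 (av6 t t') (po6 t t' w w') (hp6 X t t' w w') (ze6 t t' w w')
      (rh6 X t t' w w') n n' ι O =
      ∑ i : Bool × Bool, ∑ e : Bool × Bool, ∑ e' : Bool × Bool,
        if (e.2 = true → i.1 = true) ∧ (e'.2 = true → i.2 = true) then Gt X t t' w w' n n' O i e e'
        else 0 := by
  unfold TP
  refine sum_congr rfl fun i _ => ?_
  by_cases hi : OkI (av6 t t') i ∧ i.1.toNat ≤ n ∧ i.2.toNat ≤ n'
  · rw [if_pos hi]
    unfold TZ
    rw [sum_eB, Finset.mul_sum]
    refine sum_congr rfl fun e _ => ?_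
    by_cases he : OkB (ac6 t t' i true) e
    · rw [if_pos he, sum_eB, Finset.mul_sum]
      refine sum_congr rfl fun e' _ => ?_
      have he1 : (e.1 = true → hz6 t' = true) ∧ (e.2 = true → i.1 = true) := by
        simpa [OkB, ac6] using he
      by_cases he' : OkB (ac6 t t' i false) e'
      · have he1' : (e'.1 = true → hz6 t = true) ∧ (e'.2 = true → i.2 = true) := by
          simpa [OkB, ac6] using he'
        rw [if_pos he', if_pos ⟨he1.2, he1'.2⟩]
        unfold Gt
        rw [if_pos ⟨hi, he1.1, he1'.1⟩, kaE_eB he he', psE_eB he he', card_eB he, card_eB he',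
          fI_congrZ (eqL_zeYV hw hw' hi.1 he he')]
      · rw [if_neg he', mul_zero]
        by_cases h2 : (e.2 = true → i.1 = true) ∧ (e'.2 = true → i.2 = true)
        · rw [if_pos h2]
          unfold Gt
          rw [if_neg]
          rintro ⟨-, -, h3⟩
          refine he' ?_
          have : (e'.1 = true → hz6 t = true) ∧ (e'.2 = true → i.2 = true) := ⟨h3, h2.2⟩
          simpa [OkB, ac6] using this
        · rw [if_neg h2]
    · rw [if_neg he, mul_zero]
      symm
      refine sum_eq_zero fun e' _ => ?_
      by_cases h2 : (e.2 = true → i.1 = true) ∧ (e'.2 = true → i.2 = true)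
      · rw [if_pos h2]
        unfold Gt
        rw [if_neg]
        rintro ⟨-, h3, -⟩
        refine he ?_
        have : (e.1 = true → hz6 t' = true) ∧ (e.2 = true → i.1 = true) := ⟨h3, h2.1⟩
        simpa [OkB, ac6] using this
      · rw [if_neg h2]
  · rw [if_neg hi]
    symm
    refine sum_eq_zero fun e _ => sum_eq_zero fun e' _ => ?_
    split_ifs
    · unfold Gt
      rw [if_neg fun h => hi h.1]
    · rfl

/-- rearrangement -/
theorem sum_re (G : Bool × Bool → Bool × Bool → Bool × Bool → ℂ) :
    (∑ i : Bool × Bool, ∑ e : Bool × Bool, ∑ e' : Bool × Bool,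
        if (e.2 = true → i.1 = true) ∧ (e'.2 = true → i.2 = true) then G i e e' else 0) =
      ∑ u : Ch6 × Ch6, ∑ a : Bool, ∑ b : Bool, if u.1.1 = true ∧ a = true then 0 else
        if u.2.1 = true ∧ b = true then 0 else
          G (u.1.1 || a, u.2.1 || b) (u.2.2, a) (u.1.2, b) := by
  simp only [Fintype.sum_prod_type, Fintype.sum_bool]
  simp
  ring

/-- one part of `ps1` -/
def pa1 (P : Par6) {ι : Type*} [Fintype ι] (O : ι → Xo) (s : Bool) (H : Bool) (m : ℕ) (w : ℂ)
    (a : Bool) : ℂ :=
  if a = true then -(if H = true ∧ (∑ i, hl6 s (O i)) + m + 1 ≤ ∑ i, sat6 s (O i) then gHI P O s w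
    else 0) else (if (∑ i, hl6 s (O i)) + m ≤ ∑ i, sat6 s (O i) then 1 else 0)

theorem ps1_pa (P : Par6) {ι : Type*} [Fintype ι] (O : ι → Xo) (s : Bool) (H : Bool) (m : ℕ)
    (w : ℂ) : ps1 P O s H m w = ∑ a : Bool, pa1 P O s H m w a := by
  unfold ps1 pa1
  simp only [Fintype.sum_bool, if_true, Bool.false_eq_true, if_false]
  ring

/-- the factor of one species in a summand -/
theorem pa_key {Z : Bool → Option O3 → ℂ → ℂ} {P : Par6} {n n' : ℕ} {ι : Type*} [Fintype ι]
    (O : ι → Xo) (s : Bool) {tt : HT} {v a e : Bool} {x : ℂ} (hva : ¬ (v = true ∧ a = true)) {F : ℂ}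
    (hF : a = true → (if s = true then n else n') = 0 →
      (∑ i, hl6 s (O i)) + e.toNat + 1 ≤ ∑ i, sat6 s (O i) → F = 0) :
    (if ((v || a) = true → tt = .H) ∧ (v || a).toNat ≤ (if s = true then n else n') then
      F * (sg1 a * ((if (∑ i, hl6 s (O i)) + (e.toNat + a.toNat) ≤ ∑ i, sat6 s (O i) then 1 else 0) *
        (if a = true then gHI P O s x else 1))) else 0) =
    if (v = true → tt = .H) ∧ v.toNat ≤ (if s = true then n else n') then
      F * pa1 P O s (decide (tt = .H) && !v) e.toNat x a else 0 := by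
  cases a
  · simp [pa1, sg1]
  · have hv : v = false := by
      cases v
      · rfl
      · exact absurd ⟨rfl, rfl⟩ hva
    subst hv
    by_cases ht : tt = .H
    · by_cases hn : 1 ≤ (if s = true then n else n')
      · have c1 : ((false || true) = true → tt = .H) ∧
            (false || true).toNat ≤ (if s = true then n else n') := ⟨fun _ => ht, by simpa using hn⟩
        have c2 : (false = true → tt = .H) ∧ false.toNat ≤ (if s = true then n else n') :=
          ⟨by simp, by simp⟩
        rw [if_pos c1, if_pos c2]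
        congr 1
        unfold pa1 sg1
        simp only [if_true, ht, decide_true, Bool.not_false, Bool.and_self, true_and, Bool.toNat_true]
        simp only [← add_assoc]
        split_ifs <;> ring
      · have c1 : ¬ (((false || true) = true → tt = .H) ∧
            (false || true).toNat ≤ (if s = true then n else n')) := fun h => hn (by simpa using h.2)
        have c2 : (false = true → tt = .H) ∧ false.toNat ≤ (if s = true then n else n') :=
          ⟨by simp, by simp⟩
        rw [if_neg c1, if_pos c2]
        have h0 : (if s = true then n else n') = 0 := by omega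
        unfold pa1
        simp only [if_true, ht, decide_true, Bool.not_false, Bool.and_self, true_and]
        by_cases hc : (∑ i, hl6 s (O i)) + e.toNat + 1 ≤ ∑ i, sat6 s (O i)
        · rw [hF rfl h0 hc, zero_mul]
        · rw [if_neg hc, neg_zero, mul_zero]
    · rw [if_neg (fun h => ht (h.1 (by simp)))]
      have hd : decide (tt = .H) = false := by simpa using ht
      simp [pa1, hd]

theorem fac_aux {P1 P2 Q1 Q2 : Prop} [Decidable P1] [Decidable P2] [Decidable Q1] [Decidable Q2]
    (c R F A1 A2 B1 B2 : ℂ) (h1 : (if P1 then F * A1 else 0) = if Q1 then F * B1 else 0)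
    (h2 : (if P2 then F * A2 else 0) = if Q2 then F * B2 else 0) :
    (if P1 ∧ P2 then c * R * (F * A1 * A2) else 0) =
      if Q1 ∧ Q2 then c * (F * (B1 * B2 * R)) else 0 := by
  have s1 : (if P1 ∧ P2 then c * R * (F * A1 * A2) else 0) =
      if P2 then c * R * A2 * (if P1 then F * A1 else 0) else 0 := by
    by_cases p1 : P1 <;> by_cases p2 : P2
    · rw [if_pos ⟨p1, p2⟩, if_pos p2, if_pos p1]
      ring
    · rw [if_neg (fun h => p2 h.2), if_neg p2]
    · rw [if_neg (fun h => p1 h.1), if_pos p2, if_neg p1, mul_zero]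
    · rw [if_neg (fun h => p1 h.1), if_neg p2]
  have s2 : (if P2 then c * R * A2 * (if Q1 then F * B1 else 0) else 0) =
      if Q1 then c * R * B1 * (if P2 then F * A2 else 0) else 0 := by
    by_cases p1 : Q1 <;> by_cases p2 : P2
    · rw [if_pos p1, if_pos p2, if_pos p1, if_pos p2]
      ring
    · rw [if_neg p2, if_pos p1, if_neg p2, mul_zero]
    · rw [if_pos p2, if_neg p1, if_neg p1, mul_zero]
    · rw [if_neg p2, if_neg p1]
  rw [s1, h1, s2, h2]
  by_cases p1 : Q1 <;> by_cases p2 : Q2
  · rw [if_pos p1, if_pos p2, if_pos ⟨p1, p2⟩]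
    ring
  · rw [if_pos p1, if_neg p2, if_neg (fun h => p2 h.2), mul_zero]
  · rw [if_neg p1, if_neg (fun h => p1 h.1)]
  · rw [if_neg p1, if_neg (fun h => p1 h.1)]

/-- **one summand by choices** -/
theorem Gt_pa (hg : Gen6 X t t' w w') (n n' : ℕ) {ι : Type} [Fintype ι] (O : ι → Xo)
    (u : Ch6 × Ch6) (a b : Bool) :
    (if u.1.1 = true ∧ a = true then 0 else if u.2.1 = true ∧ b = true then 0 else
      Gt X t t' w w' n n' O (u.1.1 || a, u.2.1 || b) (u.2.2, a) (u.1.2, b)) =
    if (okC6 t u.1 ∧ okC6 t' u.2) ∧ u.1.1.toNat ≤ n ∧ u.2.1.toNat ≤ n' then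
      cV6 X t t' w w' u * (fI (YV6 X t t' w w' u) par6 l (n + u.2.2.toNat - u.1.1.toNat)
        (n' + u.1.2.toNat - u.2.1.toNat) O *
        (pa1 par6 O true (decide (t = .H) && !u.1.1) u.2.2.toNat w a *
          pa1 par6 O false (decide (t' = .H) && !u.2.1) u.1.2.toNat w' b *
          ((if u.1.2 = true then gHI par6 O false (hx6 t w) else 1) *
            (if u.2.2 = true then gHI par6 O true (hx6 t' w') else 1)))) else 0 := by
  obtain ⟨⟨v, f⟩, ⟨v', e⟩⟩ := u
  simp only
  set R : ℂ := (if f = true then gHI par6 O false (hx6 t w) else 1) *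
    (if e = true then gHI par6 O true (hx6 t' w') else 1) with hR
  set F : ℂ := fI (YV6 X t t' w w' ((v, f), (v', e))) par6 l (n + e.toNat - v.toNat)
    (n' + f.toNat - v'.toNat) O with hF
  by_cases hva : v = true ∧ a = true
  · rw [if_pos hva]
    obtain ⟨rfl, rfl⟩ := hva
    simp [pa1]
  rw [if_neg hva]
  by_cases hvb : v' = true ∧ b = true
  · rw [if_pos hvb]
    obtain ⟨rfl, rfl⟩ := hvb
    simp [pa1]
  rw [if_neg hvb]
  by_cases hD : (e = true → hz6 t' = true) ∧ (f = true → hz6 t = true)
  swap
  · unfold Gt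
    rw [if_neg fun h => hD h.2, if_neg]
    rintro ⟨⟨h1, h2⟩, -⟩
    refine hD ⟨fun h => ?_, fun h => ?_⟩
    · simpa [hz6] using h2.2 h
    · simpa [hz6] using h1.2 h
  have key1 := pa_key (Z := X) (P := par6) (n := n) (n' := n') O true (tt := t) (v := v) (a := a)
    (e := e) (x := w) hva (F := F) (by
      intro ha hn h
      simp only [if_true] at hn
      have hv : v = false := by
        cases v
        · rfl
        · exact absurd ⟨rfl, ha⟩ hva
      refine fI_van true (m := e.toNat) ?_ h
      simp only [if_true]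
      omega)
  have key2 := pa_key (Z := X) (P := par6) (n := n) (n' := n') O false (tt := t') (v := v') (a := b)
    (e := f) (x := w') hvb (F := F) (by
      intro ha hn h
      simp only [Bool.false_eq_true, if_false] at hn
      have hv : v' = false := by
        cases v'
        · rfl
        · exact absurd ⟨rfl, ha⟩ hvb
      refine fI_van false (m := f.toNat) ?_ h
      simp only [Bool.false_eq_true, if_false]
      omega)
  simp only [if_true] at key1
  simp only [Bool.false_eq_true, if_false] at key2
  set A1 : ℂ := sg1 a * ((if (∑ i, hl6 true (O i)) + (e.toNat + a.toNat) ≤ ∑ i, sat6 true (O i)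
    then 1 else 0) * (if a = true then gHI par6 O true w else 1)) with hA1
  set A2 : ℂ := sg1 b * ((if (∑ i, hl6 false (O i)) + (f.toNat + b.toNat) ≤ ∑ i, sat6 false (O i)
    then 1 else 0) * (if b = true then gHI par6 O false w' else 1)) with hA2
  set B1 := pa1 par6 O true (decide (t = .H) && !v) e.toNat w a with hB1
  set B2 := pa1 par6 O false (decide (t' = .H) && !v') f.toNat w' b with hB2
  have hL : Gt X t t' w w' n n' O (v || a, v' || b) (e, a) (f, b) =
      if (((v || a) = true → t = .H) ∧ (v || a).toNat ≤ n) ∧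
        (((v' || b) = true → t' = .H) ∧ (v' || b).toNat ≤ n') then
        cV6 X t t' w w' ((v, f), (v', e)) * R * (F * A1 * A2) else 0 := by
    unfold Gt
    by_cases hc : (((v || a) = true → t = .H) ∧ (v || a).toNat ≤ n) ∧
        (((v' || b) = true → t' = .H) ∧ (v' || b).toNat ≤ n')
    · have hc0 : (OkI (av6 t t') (v || a, v' || b) ∧ (v || a, v' || b).1.toNat ≤ n ∧
          (v || a, v' || b).2.toNat ≤ n') ∧ ((e, a).1 = true → hz6 t' = true) ∧
          ((f, b).1 = true → hz6 t = true) := by
        refine ⟨⟨⟨fun h => ?_, fun h => ?_⟩, hc.1.2, hc.2.2⟩, hD.1, hD.2⟩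
        · simpa [av6] using hc.1.1 h
        · simpa [av6] using hc.2.1 h
      rw [if_pos hc0, if_pos hc, ← mul_assoc, cK_all hg (fun h => hc.1.1 (by simp [h]))
        (fun h => hc.2.1 (by simp [h])) (fun h => ⟨hc.1.1 (by simp [h]), by
          cases v
          · rfl
          · exact absurd ⟨rfl, h⟩ hva⟩) (fun h => ⟨hc.2.1 (by simp [h]), by
          cases v'
          · rfl
          · exact absurd ⟨rfl, h⟩ hvb⟩) hD.1 hD.2]
      have e1 : ((v || a) && !a) = v := by
        cases v <;> cases a <;> simp at hva ⊢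
      have e2 : ((v' || b) && !b) = v' := by
        cases v' <;> cases b <;> simp at hvb ⊢
      have e3 : n - (v || a).toNat + (e.toNat + a.toNat) = n + e.toNat - v.toNat := by
        have := hc.1.2
        cases v <;> cases a <;> simp at hva this ⊢ <;> omega
      have e4 : n' - (v' || b).toNat + (f.toNat + b.toNat) = n' + f.toNat - v'.toNat := by
        have := hc.2.2
        cases v' <;> cases b <;> simp at hvb this ⊢ <;> omega
      simp only [e1, e2, e3, e4]
      rw [← hF]
      unfold px
      simp only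
      rw [hA1, hA2, hR]
      ring
    · rw [if_neg hc, if_neg]
      rintro ⟨⟨h1, h2, h3⟩, -⟩
      refine hc ⟨⟨fun h => ?_, h2⟩, fun h => ?_, h3⟩
      · simpa [av6] using h1.1 h
      · simpa [av6] using h1.2 h
  rw [hL]
  have hRc : ((okC6 t (v, f) ∧ okC6 t' (v', e)) ∧ v.toNat ≤ n ∧ v'.toNat ≤ n') ↔
      ((v = true → t = .H) ∧ v.toNat ≤ n) ∧ ((v' = true → t' = .H) ∧ v'.toNat ≤ n') := by
    have h1 : f = true → t = .P ∨ t = .H := fun h => by simpa [hz6] using hD.2 h
    have h2 : e = true → t' = .P ∨ t' = .H := fun h => by simpa [hz6] using hD.1 h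
    constructor
    · rintro ⟨⟨⟨a1, _⟩, a2, _⟩, a3, a4⟩
      exact ⟨⟨a1, a3⟩, a2, a4⟩
    · rintro ⟨⟨a1, a3⟩, a2, a4⟩
      exact ⟨⟨⟨a1, h1⟩, a2, h2⟩, a3, a4⟩
  simp only [hRc]
  generalize cV6 X t t' w w' ((v, f), (v', e)) = c
  exact fac_aux c R F A1 A2 B1 B2 key1 key2

/-- **the term of the class `t, t'` is the sum over the choices** -/
theorem TP_TV6 (hg : Gen6 X t t' w w') (hw : w.re = htL t) (hw' : w'.re = htL t') (n n' : ℕ)
    {ι : Type} [Fintype ι] (O : ι → Xo) :
    TP (Zc6 X t t' w w') par6 (av6 t t') (po6 t t' w w') (hp6 X t t' w w') (ze6 t t' w w')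
      (rh6 X t t' w w') n n' ι O = TV6 X par6 t t' w w' n n' ι O := by
  rw [TP_Gt hw hw', sum_re]
  unfold TV6
  refine sum_congr rfl fun u _ => ?_
  simp only [Gt_pa hg]
  by_cases hc : (okC6 t u.1 ∧ okC6 t' u.2) ∧ u.1.1.toNat ≤ n ∧ u.2.1.toNat ≤ n'
  · simp only [if_pos hc]
    unfold psV6
    rw [ps1_pa, ps1_pa]
    simp only [Fintype.sum_bool]
    ring
  · simp only [if_neg hc]
    simp

end PHK

end
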