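import Pool.Agent.PHK.Ch6

/-!
# (P): the functions of the letters off the multiples of `l`

* `NoM K`: no multiple of `l` in `K`; `PI6 s K f`: `f` has rate `s` over `K`, its inverse `-s`, no zero;
  **`UI6 s f`**: `PI6 s K f` for every compact `K` without multiples of `l`; calculus (`mul`, `inv`,
  `zpow`, `shift`, `refl`);
* `UI6.Ck`, `UI6.Dk`, ..., **`ui_SF`**, **`ui_SP`**, **`ui_SD`**, **`ui_gz`** (every kind), `ui_host`,
  `ui_ad`; **`ui_v`**: the spectators `vF6 t u c k` of every letter, rate `vQ6 t u * sc (c, ob4 k)`;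
* `UI6.ne`, `UI6.diff`, `UI6.diffInv`: at every point whose real part is no multiple of `l`.
-/

set_option autoImplicit false
set_option linter.unusedSectionVars false

noncomputable section

open Complex MeasureTheory Finset
open scoped ENNReal

namespace PBR.PLX

open NUO NUP1 NUCR NUP1S NUP1S.Ab NUP1S.AbC NUP1S.AbG NURow NUP1.Leg NUGC.PLX PBX PBX.PLX
open _root_.Pool.Agent.PLX
open PHK

/-- no multiple of `l` -/
def NoM (K : Set ℝ) : Prop := ∀ d ∈ K, ∀ n : ℤ, d ≠ n * l

theorem sin_ne_noM {d : ℝ} (h : ∀ n : ℤ, d ≠ n * l) (n : ℤ) : Real.sin (d + n * l) ≠ 0 := by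
  intro h0
  rw [Real.sin_eq_zero_iff] at h0
  obtain ⟨k, hk⟩ := h0
  refine h (8 * k - n) ?_
  have h8 := l8r
  rw [← h8] at hk
  push_cast
  linarith

/-- bound, bound of the inverse, no zero over `K` -/
structure PI6 (s : ℝ) (K : Set ℝ) (f : ℂ → ℂ) : Prop where
  a : PB s K f
  b : PB (-s) K fun z => (f z)⁻¹
  ne : ∀ z : ℂ, z.re ∈ K → f z ≠ 0

/-- **bound and bound of the inverse over every compact set without multiples of `l`** -/
def UI6 (s : ℝ) (f : ℂ → ℂ) : Prop := ∀ K : Set ℝ, IsCompact K → NoM K → PI6 s K f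

section calc6

variable {s s' : ℝ} {f g : ℂ → ℂ}

theorem UI6.congr (h : UI6 s f) (e : ∀ z, f z = g z) : UI6 s g := (funext e : f = g) ▸ h

theorem UI6.rate (h : UI6 s f) (e : s = s') : UI6 s' f := e ▸ h

theorem UI6.mul (h : UI6 s f) (h' : UI6 s' g) : UI6 (s + s') fun z => f z * g z := fun K hK hn =>
  ⟨(h K hK hn).a.mul (h' K hK hn).a,
    (((h K hK hn).b.mul (h' K hK hn).b).rate (by ring)).congr' fun z => (mul_inv _ _).symm,
    fun z hz => mul_ne_zero ((h K hK hn).ne z hz) ((h' K hK hn).ne z hz)⟩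

theorem UI6.inv (h : UI6 s f) : UI6 (-s) fun z => (f z)⁻¹ := fun K hK hn =>
  ⟨(h K hK hn).b, ((h K hK hn).a.rate (neg_neg s).symm).congr' fun _ => (inv_inv _).symm,
    fun z hz => inv_ne_zero ((h K hK hn).ne z hz)⟩

theorem UI6.neg (h : UI6 s f) : UI6 s fun z => -f z := fun K hK hn =>
  ⟨(h K hK hn).a.fneg, (h K hK hn).b.fneg.congr' fun z => by rw [inv_neg],
    fun z hz => neg_ne_zero.2 ((h K hK hn).ne z hz)⟩

theorem UI6.const {c : ℂ} (hc : c ≠ 0) : UI6 0 fun _ => c := fun K _ _ =>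
  ⟨PB.const K c, (PB.const K c⁻¹).rate neg_zero.symm, fun _ _ => hc⟩

theorem UI6.pow (h : UI6 s f) (n : ℕ) : UI6 (n * s) fun z => f z ^ n := by
  induction n with
  | zero => exact ((UI6.const one_ne_zero).rate (by simp)).congr fun z => (pow_zero _).symm
  | succ n ih => exact ((ih.mul h).rate (by push_cast; ring)).congr fun z => (pow_succ _ _).symm

theorem UI6.zpow (h : UI6 s f) (k : ℤ) : UI6 (k * s) fun z => f z ^ k := by
  rcases k with n | n
  · exact ((h.pow n).rate (by simp)).congr fun z => by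
      rw [Int.ofNat_eq_natCast, zpow_natCast]
  · exact ((h.pow (n + 1)).inv.rate (by push_cast; ring)).congr fun z => by
      rw [zpow_negSucc]

/-- translation by a multiple of `l` -/
theorem UI6.shift (h : UI6 s f) (n : ℤ) : UI6 s fun z => f (z + n * l) := by
  intro K hK hn
  have hK' : IsCompact ((fun x : ℝ => x + n * l) '' K) := hK.image (by fun_prop)
  have hn' : NoM ((fun x : ℝ => x + n * l) '' K) := by
    rintro _ ⟨d, hd, rfl⟩ m hm
    refine hn d hd (m - n) ?_
    push_cast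
    simp only at hm
    linarith
  obtain ⟨h1, h2, h3⟩ := h _ hK' hn'
  have e : ∀ z : ℂ, z + ((n * l : ℝ) : ℂ) = z + n * l := fun z => by push_cast; rfl
  have hm : ∀ x ∈ K, x + n * l ∈ (fun x : ℝ => x + n * l) '' K := fun x hx => ⟨x, hx, rfl⟩
  refine ⟨(h1.shift (n * l) hm).congr' fun z => by rw [e], (h2.shift (n * l) hm).congr' fun z => by
    rw [e], fun z hz => h3 _ ?_⟩
  have : (z + n * l : ℂ).re = z.re + n * l := by
    rw [← e, add_re, ofReal_re]
  rw [this]
  exact hm _ hz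

/-- reflection -/
theorem UI6.refl (h : UI6 s f) : UI6 s fun z => f (-z) := by
  intro K hK hn
  have hK' : IsCompact ((fun x : ℝ => -x) '' K) := hK.image (by fun_prop)
  have hn' : NoM ((fun x : ℝ => -x) '' K) := by
    rintro _ ⟨d, hd, rfl⟩ m hm
    refine hn d hd (-m) ?_
    push_cast
    simp only at hm
    linarith
  obtain ⟨h1, h2, h3⟩ := h _ hK' hn'
  exact ⟨h1.neg, h2.neg, fun z hz => h3 _ ⟨z.re, hz, by simp⟩⟩

/-- reflection and a translation: `a - z` -/
theorem UI6.rsub (h : UI6 s f) (n : ℤ) {a : ℂ} (ha : a = n * l) : UI6 s fun z => f (a - z) :=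
  (h.shift n).refl.congr fun z => by
    rw [ha]
    congr 1
    ring

theorem UI6.add (h : UI6 s f) (n : ℤ) {a : ℂ} (ha : a = n * l) : UI6 s fun z => f (z + a) :=
  (h.shift n).congr fun z => by rw [ha]

theorem UI6.sub (h : UI6 s f) (n : ℤ) {a : ℂ} (ha : a = n * l) : UI6 s fun z => f (z - a) :=
  (h.shift (-n)).congr fun z => by
    rw [ha]
    push_cast
    congr 1
    ring

theorem UI6.ne (h : UI6 s f) {z : ℂ} (hz : ∀ n : ℤ, z.re ≠ n * l) : f z ≠ 0 :=
  (h {z.re} isCompact_singleton (fun d hd => by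
    rw [Set.mem_singleton_iff.1 hd]
    exact hz)).ne z rfl

theorem UI6.diff (h : UI6 s f) {z : ℂ} (hz : ∀ n : ℤ, z.re ≠ n * l) : DifferentiableAt ℂ f z :=
  (h {z.re} isCompact_singleton (fun d hd => by
    rw [Set.mem_singleton_iff.1 hd]
    exact hz)).a.2 z rfl

theorem UI6.diffInv (h : UI6 s f) {z : ℂ} (hz : ∀ n : ℤ, z.re ≠ n * l) :
    DifferentiableAt ℂ (fun z => (f z)⁻¹) z := h.inv.diff hz

end calc6

/-! ## the functions -/

theorem UI6.sin : UI6 1 Complex.sin := fun K hK hn => by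
  have e : ∀ z : ℂ, z + ((0 : ℝ) : ℂ) = z := fun z => by simp
  refine ⟨(PB_sin K 0).congr' fun z => by rw [e], (PB_inv_sin hK 0 fun d hd => ?_).congr' fun z => by
    rw [e, one_div], fun z hz => Bd.sin_ne_zero_of_re ?_⟩
  · have := sin_ne_noM (hn d hd) 0
    simpa using this
  · have := sin_ne_noM (hn _ hz) 0
    simpa using this

theorem UI6.cos : UI6 1 Complex.cos :=
  (UI6.sin.add 4 (a := 4 * l) (by push_cast; ring)).congr fun z => by
    rw [add_comm, sin_4l]

theorem UI6.Ck : UI6 1 NUP1.Leg.Ck :=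
  (((UI6.sin.mul (UI6.sin.add 2 (a := 2 * l) (by push_cast; ring))).mul
    (UI6.sin.add 1 (a := (l : ℂ)) (by push_cast; ring)).inv).rate (by norm_num)).congr fun z => by
    unfold NUP1.Leg.Ck
    rw [div_eq_mul_inv]

theorem UI6.Dk : UI6 (-1) NUP1.Leg.Dk :=
  ((UI6.cos.mul ((UI6.sin.rsub 3 (a := 3 * l) (by push_cast; ring)).mul
    (UI6.sin.add 3 (a := 3 * l) (by push_cast; ring))).inv).rate (by norm_num)).congr fun z => by
    unfold NUP1.Leg.Dk
    rw [div_eq_mul_inv, add_comm (3 * l : ℂ) z]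

theorem UI6.CC : UI6 2 NURow.CC :=
  ((UI6.sin.mul (UI6.sin.add 3 (a := 3 * l) (by push_cast; ring))).rate (by norm_num)).congr
    fun z => rfl

theorem UI6.DD : UI6 (-2) NURow.DD :=
  (((UI6.sin.add 3 (a := 3 * l) (by push_cast; ring)).mul
    (UI6.sin.rsub 2 (a := 2 * l) (by push_cast; ring))).inv.rate (by norm_num)).congr fun z => by
    unfold NURow.DD
    rw [one_div, add_comm (3 * l : ℂ) z]

theorem UI6.q : UI6 2 NUP1.q :=
  (((((UI6.sin.pow 2).mul (UI6.sin.add 2 (a := 2 * l) (by push_cast; ring))).mul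
    (UI6.sin.sub 2 (a := 2 * l) (by push_cast; ring))).neg.mul
    ((UI6.sin.add 1 (a := (l : ℂ)) (by push_cast; ring)).mul
    (UI6.sin.sub 1 (a := (l : ℂ)) (by push_cast; ring))).inv).rate (by norm_num)).congr fun z => by
    unfold NUP1.q
    rw [div_eq_mul_inv]

theorem UI6.qg : UI6 (-2) NUP1.Bd.qg :=
  (((UI6.cos.pow 2).mul (((UI6.sin.add 3 (a := 3 * l) (by push_cast; ring)).pow 2).mul
    ((UI6.sin.sub 3 (a := 3 * l) (by push_cast; ring)).pow 2)).inv).rate (by norm_num)).congr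
    fun z => by
    unfold NUP1.Bd.qg
    rw [div_eq_mul_inv]

theorem UI6.q1 : UI6 4 NUP1.q1 :=
  ((((UI6.sin.mul (UI6.sin.add 1 (a := (l : ℂ)) (by push_cast; ring))).mul
    (UI6.sin.sub 2 (a := 2 * l) (by push_cast; ring))).mul
    (UI6.sin.add 3 (a := 3 * l) (by push_cast; ring))).rate (by norm_num)).congr fun z => rfl

theorem UI6.q2 : UI6 8 NUP1.q2 :=
  ((UI6.q1.mul (UI6.q1.sub 1 (a := (l : ℂ)) (by push_cast; ring))).rate (by norm_num)).congr
    fun z => rfl

theorem UI6.Tk : UI6 0 NURow.Tk :=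
  ((((UI6.sin.sub 1 (a := (l : ℂ)) (by push_cast; ring)).mul
    (UI6.sin.add 2 (a := 2 * l) (by push_cast; ring))).mul
    ((UI6.sin.rsub 2 (a := 2 * l) (by push_cast; ring)).mul
    (UI6.sin.add 1 (a := (l : ℂ)) (by push_cast; ring))).inv).rate (by norm_num)).congr fun z => by
    unfold NURow.Tk
    rw [div_eq_mul_inv]

theorem UI6.TTk : UI6 0 NURow.TTk :=
  (((UI6.sin.mul (UI6.sin.add 3 (a := 3 * l) (by push_cast; ring))).mul
    ((UI6.sin.sub 2 (a := 2 * l) (by push_cast; ring)).mul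
    (UI6.sin.add 1 (a := (l : ℂ)) (by push_cast; ring))).inv).rate (by norm_num)).congr fun z => by
    unfold NURow.TTk
    rw [div_eq_mul_inv]

theorem UI6.QQ : UI6 (-4) NURow.QQ :=
  ((((UI6.sin.sub 3 (a := 3 * l) (by push_cast; ring)).pow 2).mul
    ((UI6.sin.add 2 (a := 2 * l) (by push_cast; ring)).pow 2)).inv.rate (by norm_num)).congr
    fun z => by
    unfold NURow.QQ
    rw [one_div]

theorem UI6.C2 : UI6 2 NURow.C2 :=
  (((UI6.sin.add 2 (a := 2 * l) (by push_cast; ring)).mul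
    (UI6.sin.sub 1 (a := (l : ℂ)) (by push_cast; ring))).rate (by norm_num)).congr fun z => rfl

theorem UI6.CP : UI6 (-1) NURow.CP :=
  ((UI6.Ck.mul (UI6.qg.add 3 (a := 3 * l) (by push_cast; ring))).rate (by norm_num)).congr
    fun z => rfl

theorem UI6.CCP : UI6 (-2) NURow.CCP :=
  ((UI6.CC.mul (UI6.QQ.rsub (-3) (a := -(3 * l)) (by push_cast; ring))).rate (by norm_num)).congr
    fun z => by
    unfold NURow.CCP
    rw [show -(3 * (l : ℂ)) - z = -z - 3 * l by ring]

theorem UI6.DP : UI6 1 NURow.DP :=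
  (UI6.Ck.rsub (-3) (a := -(3 * l)) (by push_cast; ring)).congr fun z => by
    unfold NURow.DP
    rw [show -(3 * (l : ℂ)) - z = -z - 3 * l by ring]

theorem UI6.DDP : UI6 2 NURow.DDP :=
  (UI6.C2.rsub (-3) (a := -(3 * l)) (by push_cast; ring)).congr fun z => by
    unfold NURow.DDP
    rw [show -(3 * (l : ℂ)) - z = -z - 3 * l by ring]

/-- **the half quantum** -/
theorem ui_SF (c : Bool) (k : Option O3) : UI6 (1 * sc (c, ob4 k)) (SF c k) := by
  cases c <;> rcases k with _ | (_ | _ | _)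
  · exact UI6.Dk.rate (by simp [sc, Bd.chg, ob4])
  · exact UI6.Dk.rate (by simp [sc, Bd.chg, ob4, ob3])
  · exact UI6.DD.rate (by simp [sc, Bd.chg, ob4, ob3])
  · exact UI6.DD.rate (by simp [sc, Bd.chg, ob4, ob3])
  · exact UI6.Ck.rate (by simp [sc, Bd.chg, ob4])
  · exact UI6.Ck.rate (by simp [sc, Bd.chg, ob4, ob3])
  · exact UI6.CC.rate (by simp [sc, Bd.chg, ob4, ob3])
  · exact UI6.CC.rate (by simp [sc, Bd.chg, ob4, ob3])

/-- **the half quantum with its captured quantum** -/
theorem ui_SP (c : Bool) (k : Option O3) : UI6 (-1 * sc (c, ob4 k)) (SP c k) := by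
  cases c <;> rcases k with _ | (_ | _ | _)
  · exact UI6.DP.rate (by simp [sc, Bd.chg, ob4])
  · exact UI6.DP.rate (by simp [sc, Bd.chg, ob4, ob3])
  · exact UI6.DDP.rate (by simp [sc, Bd.chg, ob4, ob3])
  · exact UI6.DDP.rate (by simp [sc, Bd.chg, ob4, ob3])
  · exact UI6.CP.rate (by simp [sc, Bd.chg, ob4])
  · exact UI6.CP.rate (by simp [sc, Bd.chg, ob4, ob3])
  · exact UI6.CCP.rate (by simp [sc, Bd.chg, ob4, ob3])
  · exact UI6.CCP.rate (by simp [sc, Bd.chg, ob4, ob3])

/-- **two half quanta at distance `3 l`** -/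
theorem ui_SD (c : Bool) (k : Option O3) : UI6 0 (SD c k) := by
  cases c <;> rcases k with _ | (_ | _ | _)
  · exact UI6.Tk
  · exact UI6.Tk
  · exact UI6.TTk
  · exact UI6.TTk
  · exact UI6.const one_ne_zero
  · exact UI6.const one_ne_zero
  · exact UI6.const one_ne_zero
  · exact UI6.const one_ne_zero

/-- **the pair functions**, every kind -/
theorem ui_gz (o o' : CO) : UI6 (rt o o') (gz o o') := by
  obtain ⟨c, k⟩ := o
  obtain ⟨c', k'⟩ := o'
  by_cases hc : c = c'
  · subst hc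
    have e : gz (c, k) (c, k') = Bd.pwz k k' := by
      funext z
      unfold gz
      rw [if_pos rfl]
    have hs : rt (c, k) (c, k') = 2 * (Bd.chg k * Bd.chg k' : ℝ) := by
      unfold rt sc
      cases c <;> simp
    rw [e, hs]
    cases k <;> cases k'
    · exact UI6.q.rate (by norm_num [Bd.chg])
    · exact UI6.q.rate (by norm_num [Bd.chg])
    · exact UI6.q1.rate (by norm_num [Bd.chg])
    · exact UI6.q.rate (by norm_num [Bd.chg])
    · exact UI6.q.rate (by norm_num [Bd.chg])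
    · exact UI6.q1.rate (by norm_num [Bd.chg])
    · exact UI6.q1.refl.rate (by norm_num [Bd.chg])
    · exact UI6.q1.refl.rate (by norm_num [Bd.chg])
    · exact UI6.q2.rate (by norm_num [Bd.chg])
  · have e : gz (c, k) (c', k') = Bd.cwz k k' := by
      funext z
      unfold gz
      rw [if_neg hc]
    have hs : rt (c, k) (c', k') = -(2 * (Bd.chg k * Bd.chg k' : ℝ)) := by
      unfold rt sc
      cases c <;> cases c' <;> simp at hc ⊢
    have hp : UI6 (-2) fun z => Bd.qg (z + l) := UI6.qg.add 1 (a := (l : ℂ)) (by push_cast; ring)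
    have hm : UI6 (-2) fun z => Bd.qg (z - l) := UI6.qg.sub 1 (a := (l : ℂ)) (by push_cast; ring)
    rw [e, hs]
    cases k <;> cases k'
    · exact UI6.qg.rate (by norm_num [Bd.chg])
    · exact UI6.qg.rate (by norm_num [Bd.chg])
    · exact (UI6.qg.mul hp).rate (by norm_num [Bd.chg])
    · exact UI6.qg.rate (by norm_num [Bd.chg])
    · exact UI6.qg.rate (by norm_num [Bd.chg])
    · exact (UI6.qg.mul hp).rate (by norm_num [Bd.chg])
    · exact (UI6.qg.mul hm).rate (by norm_num [Bd.chg])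
    · exact (UI6.qg.mul hm).rate (by norm_num [Bd.chg])
    · exact ((UI6.qg.mul UI6.qg).mul (hp.mul hm)).rate (by norm_num [Bd.chg])

/-- the host string -/
theorem ui_host {F : Bool → Option O3 → ℂ → ℂ} {q : ℝ}
    (h : ∀ c k, UI6 (q * sc (c, ob4 k)) (F c k)) (b : Bool) (c : Bool) (k : Option O3) :
    UI6 ((q + 2 * sc (b, .S)) * sc (c, ob4 k)) (hostS b F c k) :=
  ((((ui_gz (b, .S) (c, ob4 k)).sub 2 (a := 2 * l) (by push_cast; ring)).mul (h c k)).rate (by
    unfold rt
    ring)).congr fun z => rfl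

/-- quanta and holes at the half quantum -/
theorem ui_ad {F : Bool → Option O3 → ℂ → ℂ} {q : ℝ}
    (h : ∀ c k, UI6 (q * sc (c, ob4 k)) (F c k)) (b : Bool) (m : ℤ) (c : Bool) (k : Option O3) :
    UI6 ((q + m * (2 * sc (b, .A))) * sc (c, ob4 k)) (adF b m F c k) :=
  (((h c k).mul ((ui_gz (b, .A) (c, ob4 k)).zpow m)).rate (by
    unfold rt
    ring)).congr fun z => rfl

/-- **the spectators of every letter** -/
theorem ui_v {t : HT} {u : Ch6} (h : okC6 t u) (c : Bool) (k : Option O3) :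
    UI6 (vQ6 t u * sc (c, ob4 k)) (vF6 t u c k) := by
  obtain ⟨h1, h2⟩ := h
  obtain ⟨u1, u2⟩ := u
  cases t
  · have e1 : u1 = false := by
      by_contra hc
      exact absurd (h1 (by simpa using hc)) (by simp)
    have e2 : u2 = false := by
      by_contra hc
      exact absurd (h2 (by simpa using hc)) (by simp)
    subst e1 e2
    exact (ui_SF c k).rate (by norm_num [vQ6, htQ])
  · have e1 : u1 = false := by
      by_contra hc
      exact absurd (h1 (by simpa using hc)) (by simp)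
    have e2 : u2 = false := by
      by_contra hc
      exact absurd (h2 (by simpa using hc)) (by simp)
    subst e1 e2
    exact (ui_SF c k).rate (by norm_num [vQ6, htQ])
  · have e1 : u1 = false := by
      by_contra hc
      exact absurd (h1 (by simpa using hc)) (by simp)
    subst e1
    cases u2
    · exact (ui_SP c k).rate (by norm_num [vQ6, htQ])
    · exact (ui_SF c k).rate (by norm_num [vQ6, htQ])
  · have key := ui_ad (ui_ad (ui_host ui_SF false) true (u1.toNat : ℤ)) false (-(u2.toNat : ℤ)) c k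
    refine key.rate ?_
    congr 1
    unfold vQ6 htQ
    cases u1 <;> cases u2 <;> norm_num [sc, Bd.chg]

end PBR.PLX

end
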