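import Pool.Agent.PHK.LgDec
import Pool.Agent.PHK.ClsZ

/-!
# (P): holes at the zeros: decay, inverses, integrability of the terms

* `PI6.mul`, `PI6.inv`, `PI6.prod`; `lnQ6 P`: the lines of `DecQL6`; **`decL6_mul`**: a further factor
  of charge `r`;
* **`decL6_ZE`**: `DecQL6` of `ZE Z ζ E E'` (charge `q0 + E.card - E'.card`), no line in a difference of a
  multiple of `l` from a zero;
* **`int_fIZE`**: the terms of a class with zeros are integrable over the heights;
* `nm6_zero`: zeros at `1/4 l` (type P); `zerZ6_off`: zeros at `1/4 l`, `5/8 l` and the lines of `par6`.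
-/

set_option autoImplicit false
set_option linter.unusedSectionVars false

noncomputable section

open Complex MeasureTheory Finset
open scoped ENNReal

open PLX (Fil)

namespace PBR.PLX

open NUO NUP1 NUCR NUP1S NUP1S.Ab NUP1S.AbC NUP1S.AbG NURow NUP1.Leg NUGC.PLX PBX PBX.PLX
open _root_.Pool.Agent.PLX
open PHK

section calc6

variable {s s' : ℝ} {K : Set ℝ} {f g : ℂ → ℂ}

theorem PI6.mul (h : PI6 s K f) (h' : PI6 s' K g) : PI6 (s + s') K fun z => f z * g z :=
  ⟨h.a.mul h'.a, ((h.b.mul h'.b).rate (by ring)).congr' fun z => (mul_inv _ _).symm,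
    fun z hz => mul_ne_zero (h.ne z hz) (h'.ne z hz)⟩

theorem PI6.inv (h : PI6 s K f) : PI6 (-s) K fun z => (f z)⁻¹ :=
  ⟨h.b, (h.a.rate (neg_neg s).symm).congr' fun _ => (inv_inv _).symm,
    fun z hz => inv_ne_zero (h.ne z hz)⟩

theorem PI6.rate (h : PI6 s K f) (e : s = s') : PI6 s' K f := e ▸ h

theorem PI6.one' (K : Set ℝ) : PI6 0 K fun _ => 1 :=
  ⟨PB.const K 1, ((PB.const K 1).rate neg_zero.symm).congr' fun _ => inv_one.symm,
    fun _ _ => one_ne_zero⟩

theorem PI6.prod {ι : Type*} (E : Finset ι) {f : ι → ℂ → ℂ} (h : ∀ j ∈ E, PI6 s K (f j)) :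
    PI6 (E.card * s) K fun z => ∏ j ∈ E, f j z := by
  classical
  induction E using Finset.induction_on with
  | empty =>
    simp only [Finset.card_empty, Nat.cast_zero, zero_mul, Finset.prod_empty]
    exact PI6.one' K
  | insert i E hi ih =>
    have h1 := ih fun j hj => h j (Finset.mem_insert_of_mem hj)
    have h2 := h i (Finset.mem_insert_self i E)
    have e : (fun z => ∏ j ∈ insert i E, f j z) = fun z => f i z * ∏ j ∈ E, f j z := by
      funext z
      rw [Finset.prod_insert hi]
    rw [e]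
    refine (h2.mul h1).rate ?_
    rw [Finset.card_insert_of_notMem hi]
    push_cast
    ring

end calc6

/-- the lines of the conditions `DecQL6` -/
def lnQ6 (P : Par6) : Set ℝ :=
  {(1 - P.e) * l, l, (1 - P.jL) * l, -(l / 2), -((1 + P.e) * l), (1 - P.j2) * l, (1 - P.j1) * l}

theorem lnQ6_par6 : lnQ6 par6 ⊆ ln6S := by
  intro x hx
  unfold lnQ6 at hx
  unfold ln6S
  simp only [Set.mem_insert_iff, Set.mem_singleton_iff] at hx ⊢
  rcases hx with rfl | rfl | rfl | rfl | rfl | rfl | rfl
  · left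
    show (1 - 7 / 16) * l = _
    ring
  · exact Or.inr (Or.inl rfl)
  · right; right; left
    show (1 - 129 / 64) * l = _
    ring
  · exact Or.inr (Or.inr (Or.inr (Or.inl rfl)))
  · right; right; right; right; left
    show -((1 + 7 / 16) * l) = _
    ring
  · right; right; right; right; right; left
    show (1 - 7 / 8) * l = _
    ring
  · right; right; right; right; right; right
    show (1 - 1 / 32) * l = _
    ring

variable {Z : Bool → Option O3 → ℂ → ℂ} {P : Par6} {κ κ' q0 : ℝ}

theorem decOn_mulP {r r' b : ℝ} {K K' : Set ℝ} {f g : ℂ → ℂ} (h : DecOn r K f) (hg : PI6 b K' g)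
    (hK : K ⊆ K') (e : r' ≤ r - b) : DecOn r' K fun z => f z * g z :=
  DecOn.mulB h (Bdd.mono_set hg.a.1 hK) e

/-- **a further factor** of charge `r` -/
theorem decL6_mul (h : DecQL6 Z P κ κ' q0) {G : Bool → Option O3 → ℂ → ℂ} {r : ℝ}
    (hG : ∀ s k, PI6 (-(2 * r * sc (s, ob4 k))) (lnQ6 P) (G s k)) :
    DecQL6 (fun s k z => Z s k z * G s k z) P κ κ' (q0 + r) := by
  refine ⟨h.kpos, h.k6, fun s => ?_, fun s => ?_, fun s => ?_, fun s M => ?_, fun s => ?_⟩
  · exact decOn_mulP (h.A s) (hG s none) (by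
      rintro x (hx | hx)
      · exact Or.inl hx
      · exact Or.inr (Or.inl hx)) (le_of_eq (by
        show _ = κ + 2 * q0 * sc (s, Bd.Ob.A) - -(2 * r * sc (s, Bd.Ob.A))
        ring))
  · exact decOn_mulP (h.L s) (hG s (some .L)) (by
      rintro x hx
      exact Or.inr (Or.inr (Or.inl hx))) (le_of_eq (by
        show _ = κ + 2 * q0 * sc (s, Bd.Ob.L) - -(2 * r * sc (s, Bd.Ob.L))
        ring))
  · exact decOn_mulP (h.T s) (hG s (some .T)) (by
      rintro x hx
      exact Or.inr (Or.inr (Or.inr (Or.inl hx)))) (le_of_eq (by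
        show _ = κ + 2 * q0 * sc (s, Bd.Ob.S) - -(2 * r * sc (s, Bd.Ob.S))
        ring))
  · obtain ⟨M', hM'⟩ := exists_nat_ge ((M : ℝ) - 2 * r * sc (s, Bd.Ob.S))
    exact decOn_mulP (h.S s M') (hG s (some .S)) (by
      rintro x hx
      exact Or.inr (Or.inr (Or.inr (Or.inr (Or.inl hx))))) (by
        show (M : ℝ) ≤ M' - -(2 * r * sc (s, Bd.Ob.S))
        linarith)
  · have h1 := Bdd.mono_set (hG s none).b.1 (K := {(1 - P.j2) * l, (1 - P.e) * l, (1 - P.j1) * l}) (by
      rintro x (hx | hx | hx)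
      · exact Or.inr (Or.inr (Or.inr (Or.inr (Or.inr (Or.inl hx)))))
      · exact Or.inl hx
      · exact Or.inr (Or.inr (Or.inr (Or.inr (Or.inr (Or.inr hx))))))
    have h2 := ((h.H s).mul h1).rate (s' := κ' + 2 * (q0 + r) * sc (s, Bd.Ob.A)) (by
      show κ' + 2 * q0 * sc (s, Bd.Ob.A) + - -(2 * r * sc (s, Bd.Ob.A)) = _
      ring)
    have e : (fun u => (Z s none u * G s none u)⁻¹) = fun u => (Z s none u)⁻¹ * (G s none u)⁻¹ := by
      funext u
      exact mul_inv _ _
    rw [e]
    exact h2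

/-! ### the holes at the zeros -/

variable {ν : Bool → Type} [∀ s, Fintype (ν s)] [∀ s, LinearOrder (ν s)] {ζ : ∀ s, ν s → ℂ}

theorem lnQ6_finite (P : Par6) : (lnQ6 P).Finite := by
  unfold lnQ6
  exact Set.toFinite _

/-- no zero and no line of `P` differ by a multiple of `l` -/
def OffZ6 (P : Par6) (ζ : ∀ s, ν s → ℂ) : Prop := ∀ s j, ∀ x ∈ lnQ6 P, NM6 ((ζ s j).re - x)

/-- **holes at the zeros** -/
theorem decL6_ZE (hζ : OffZ6 P ζ) (h : DecQL6 Z P κ κ' q0) (E : Finset (ν true))
    (E' : Finset (ν false)) : DecQL6 (ZE Z ζ E E') P κ κ' (q0 + ((E.card : ℝ) - E'.card)) := by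
  have key : ∀ (s : Bool) (k : Option O3), PI6 (-(2 * ((E.card : ℝ) - E'.card) * sc (s, ob4 k)))
      (lnQ6 P) fun z => ((∏ j ∈ E, gz (true, .A) (s, ob4 k) (ζ true j - z)) *
        ∏ j ∈ E', gz (false, .A) (s, ob4 k) (ζ false j - z))⁻¹ := by
    intro s k
    have h1 : PI6 (E.card * rt (true, .A) (s, ob4 k)) (lnQ6 P)
        fun z => ∏ j ∈ E, gz (true, .A) (s, ob4 k) (ζ true j - z) :=
      PI6.prod E fun j _ => (ui_gz (true, .A) (s, ob4 k)).one (ζ true j) (lnQ6_finite P).isCompact
        (hζ true j)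
    have h2 : PI6 (E'.card * rt (false, .A) (s, ob4 k)) (lnQ6 P)
        fun z => ∏ j ∈ E', gz (false, .A) (s, ob4 k) (ζ false j - z) :=
      PI6.prod E' fun j _ => (ui_gz (false, .A) (s, ob4 k)).one (ζ false j)
        (lnQ6_finite P).isCompact (hζ false j)
    refine (h1.mul h2).inv.rate ?_
    have e1 : rt (true, .A) (s, ob4 k) = 2 * sc (s, ob4 k) := by
      unfold rt
      have : sc (true, Bd.Ob.A) = 1 := by simp [sc, Bd.chg]
      rw [this, one_mul]
    have e2 : rt (false, .A) (s, ob4 k) = -(2 * sc (s, ob4 k)) := by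
      unfold rt
      have : sc (false, Bd.Ob.A) = -1 := by simp [sc, Bd.chg]
      rw [this]
      ring
    rw [e1, e2]
    ring
  exact decL6_mul h key

theorem measurable_ZE (hZ : ∀ s k, Measurable (Z s k)) (E : Finset (ν true))
    (E' : Finset (ν false)) (s : Bool) (k : Option O3) : Measurable (ZE Z ζ E E' s k) := by
  refine (hZ s k).mul (Measurable.inv ?_)
  refine (Finset.measurable_prod _ fun j _ => ?_).mul (Finset.measurable_prod _ fun j _ => ?_)
  · exact (measurable_gz _ _).comp (measurable_const.sub measurable_id)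
  · exact (measurable_gz _ _).comp (measurable_const.sub measurable_id)

/-- **the terms of a class with zeros are integrable over the heights** -/
theorem int_fIZE (hP : GoodP6 P) (hZ : ∀ s k, Measurable (Z s k)) (hζ : OffZ6 P ζ) {n n' : ℕ}
    (h : DecQL6 Z P κ κ' ((n : ℝ) - n')) (E : Finset (ν true)) (E' : Finset (ν false))
    {ι : Type} [Fintype ι] (K : ι → Bool × Kd6) :
    Integrable (fun t : ι → ℝ => fI (ZE Z ζ E E') P l (n + E.card) (n' + E'.card)
      fun i => xo (K i) (t i)) (Measure.pi fun _ => volume) := by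
  have h1 := decL6_ZE hζ h E E'
  have e : (n : ℝ) - n' + ((E.card : ℝ) - E'.card) =
      ((n + E.card : ℕ) : ℝ) - ((n' + E'.card : ℕ) : ℝ) := by
    push_cast
    ring
  rw [e] at h1
  exact integrable_fIL hP (measurable_ZE hZ E E') h1 K

/-! ### the zeros of the letters -/

/-- the captured quantum of a letter of type P is off the lines of `par6` -/
theorem nm6_zero {x : ℝ} (hx : x ∈ ln6S) : NM6 (1 / 4 * l - x) := by
  have hl := l_pos
  unfold ln6S at hx
  simp only [Set.mem_insert_iff, Set.mem_singleton_iff] at hx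
  rcases hx with rfl | rfl | rfl | rfl | rfl | rfl | rfl
  · exact nm6_of (-1) (by push_cast; linarith) (by push_cast; linarith)
  · exact nm6_of (-1) (by push_cast; linarith) (by push_cast; linarith)
  · exact nm6_of 1 (by push_cast; linarith) (by push_cast; linarith)
  · exact nm6_of 0 (by push_cast; linarith) (by push_cast; linarith)
  · exact nm6_of 1 (by push_cast; linarith) (by push_cast; linarith)
  · exact nm6_of 0 (by push_cast; linarith) (by push_cast; linarith)
  · exact nm6_of (-1) (by push_cast; linarith) (by push_cast; linarith)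

/-- **the zeros at `1/4 l`, `5/8 l` are off the lines of `par6`** -/
theorem zerZ6_off (hζ : ∀ s j, (ζ s j).re = 1 / 4 * l ∨ (ζ s j).re = 5 / 8 * l) :
    OffZ6 par6 ζ := by
  intro s j x hx
  rcases hζ s j with h | h
  · rw [h]
    exact nm6_zero (lnQ6_par6 hx)
  · rw [h]
    exact nm6_ln (Or.inr (Or.inr (Or.inl rfl))) (lnQ6_par6 hx)

end PBR.PLX

end
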