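import Pool.Agent.PHK.LetM
import Pool.Agent.PHK.S4G0
import Pool.Agent.PLX.PB.LinW

/-!
# (P): the linear term of the neutral atoms of a letter

Sea `NUSea.seaP`.

* `ptA`: the neutral potential of a letter on the strip; `asy_ptA`, `diff_ptA`, `ptA_HS`;
* `totA t u`: its total phase: `-16 l` for `hs'`, `8 l` for `hp'`, `0` otherwise; **`sum_phA`**;
* **`int_neuA`**: a neutral potential of one height on the curve against the line;
* **`int_at6`**: the atoms of a letter on the curve of `etaC`: `∑ a, ∫ sN m a P HS = ∑ a, sN m a mHS -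
  2 totA h(τ) + O(1)`.
-/

set_option autoImplicit false
set_option linter.unusedSectionVars false

noncomputable section

open Complex MeasureTheory Set Filter Topology
open PLX (Fil Ends)

namespace PHK

open NUP1 NUP1S NURow NUGC.PLX PBR.PLX
open NUO (Away pA bk yw wz Tb)
open NUSp (Cl wG wc wq wn wph wd Asy ka)
open NUAct (zt)
open NUKer (iD)
open PBH.PLX (Atm HS AtOk)
open PBV.PLX (mHS int_HS)
open PotH.PLX (sN CrvP)

/-! ### the potential of a letter -/

/-- **the neutral potential of a letter** -/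
def ptA (t : HT) (u : Ch6) (σ : Bool) (τ : ℝ) (a : Bool) (z : ℂ) : ℂ :=
  wd (wl6 t u (decide (a = σ))) (vl (htL t) τ) z - wd (wc (bc6 t u) (decide (a = σ))) (pb6 t u τ) z

/-- its phase -/
def phA (t : HT) (u : Ch6) (σ : Bool) (τ : ℝ) (a : Bool) : ℝ :=
  wph (wl6 t u (decide (a = σ))) (vl (htL t) τ) - wph (wc (bc6 t u) (decide (a = σ))) (pb6 t u τ)

/-- **its total phase** -/
def totA (t : HT) (u : Ch6) : ℝ :=
  if t = .H ∧ u = (false, true) then -(16 * NUMF.l) else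
    if t = .H ∧ u = (true, true) then 8 * NUMF.l else 0

private theorem lw_zt (L : List (ℤ × ℝ)) (w : ℂ) (η : ℝ → ℝ) (x : ℝ) :
    (wd L w (zt (iD η) x)).re = lw L w (pA η x) := by
  rw [lw_wd, PBK.PLX.pA_zt]

/-- **on a curve the potential is the sum of the atoms** -/
theorem ptA_HS (t : HT) (u : Ch6) (σ : Bool) (τ : ℝ) (a : Bool) (ζ : Bool → ℝ → ℝ) (x : ℝ) :
    (ptA t u σ τ a (zt (iD (ζ a)) x)).re = HS (at6 t u σ τ) ζ a x := by
  have h := dv6_line t u σ τ a ζ x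
  unfold dv6 at h
  rw [← Real.exp_injective h]
  unfold ptA
  rw [Complex.sub_re, lw_zt, lw_zt]

theorem ptA_HS0 (t : HT) (u : Ch6) (σ : Bool) (τ : ℝ) (a : Bool) (x : ℝ) :
    (ptA t u σ τ a x).re = HS (at6 t u σ τ) (fun _ _ => 0) a x := by
  rw [← ptA_HS t u σ τ a (fun _ _ => 0) x]
  congr 2
  unfold NUAct.zt NUKer.iD
  simp

/-- the constant of the asymptotics -/
def kPt6 : ℝ := 24 * ka (1 / 4) (NUMF.l / 8)

private theorem asy_congr {b κ κ' c a φ τ τ' : ℝ} {f : ℂ → ℂ} (h : Asy b κ c a φ τ f) (hκ : κ ≤ κ')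
    (hτ : τ = τ') : Asy b κ' c a φ τ' f := by
  subst hτ
  exact ⟨fun z hz hr => (h.ar z hz hr).trans (mul_le_mul_of_nonneg_right hκ (Real.exp_pos _).le),
    fun z hz hr => (h.al z hz hr).trans (mul_le_mul_of_nonneg_right hκ (Real.exp_pos _).le)⟩

theorem ka_nonneg6 : 0 ≤ ka (1 / 4) (NUMF.l / 8) := by
  have hl := NUMF.l_pos
  have h := NUSp.asy_bk (δ := 1 / 4) (b := NUMF.l / 8) (by linarith) (away_htL .W 0) 0
  exact h.κ0 (by positivity)

/-- **asymptotics of the potential of a letter** -/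
theorem asy_ptA (t : HT) (u : Ch6) (σ : Bool) (τ : ℝ) (a : Bool) :
    Asy (NUMF.l / 8) kPt6 0 0 (phA t u σ τ a) τ (ptA t u σ τ a) := by
  have hl := NUMF.l_pos
  have h1 := NUSp.asy_wd (δ := 1 / 4) (b := NUMF.l / 8) (by linarith) (away_htL t τ)
    (wl6 t u (decide (a = σ)))
  have h2 := NUSp.asy_wd (δ := 1 / 4) (b := NUMF.l / 8) (by linarith)
    (NUSp.wG_away (bc6 t u) (br6 t u) τ) (wc (bc6 t u) (decide (a = σ)))
  rw [vl_im6] at h1
  rw [NUSp.wG_im] at h2
  obtain ⟨n1, n2⟩ := wn_wl6 t u (decide (a = σ))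
  have hk := ka_nonneg6
  have k1 := mul_le_mul_of_nonneg_right n1 hk
  have k2 := mul_le_mul_of_nonneg_right n2 hk
  have hq := wq_wl6 t u (decide (a = σ))
  refine ⟨fun z hz hr => ?_, fun z hz hr => ?_⟩
  · have a1 := h1.ar z hz hr
    have a2 := h2.ar z hz hr
    rw [hq] at a1
    have e : ptA t u σ τ a z - (((0 : ℝ) : ℂ) * (z - τ) + ((0 : ℝ) : ℂ) + (phA t u σ τ a : ℂ) * I) =
        (wd (wl6 t u (decide (a = σ))) (vl (htL t) τ) z -
          (((wq (wc (bc6 t u) (decide (a = σ))) : ℝ) : ℂ) * (z - τ) +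
            ((-(wq (wc (bc6 t u) (decide (a = σ))) * Real.log 2) : ℝ) : ℂ) +
            ((wph (wl6 t u (decide (a = σ))) (vl (htL t) τ) : ℝ) : ℂ) * I)) -
        (wd (wc (bc6 t u) (decide (a = σ))) (wG (bc6 t u) (br6 t u) τ) z -
          (((wq (wc (bc6 t u) (decide (a = σ))) : ℝ) : ℂ) * (z - τ) +
            ((-(wq (wc (bc6 t u) (decide (a = σ))) * Real.log 2) : ℝ) : ℂ) +
            ((wph (wc (bc6 t u) (decide (a = σ))) (wG (bc6 t u) (br6 t u) τ) : ℝ) : ℂ) * I)) := by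
      unfold ptA phA pb6
      push_cast
      ring
    rw [e]
    refine (norm_sub_le _ _).trans ((add_le_add a1 a2).trans ?_)
    rw [← add_mul]
    exact mul_le_mul_of_nonneg_right (by unfold kPt6; linarith) (Real.exp_pos _).le
  · have a1 := h1.al z hz hr
    have a2 := h2.al z hz hr
    rw [hq] at a1
    have e : ptA t u σ τ a z - (-((0 : ℝ) : ℂ) * (z - τ) + ((0 : ℝ) : ℂ) - (phA t u σ τ a : ℂ) * I) =
        (wd (wl6 t u (decide (a = σ))) (vl (htL t) τ) z -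
          (-((wq (wc (bc6 t u) (decide (a = σ))) : ℝ) : ℂ) * (z - τ) +
            ((-(wq (wc (bc6 t u) (decide (a = σ))) * Real.log 2) : ℝ) : ℂ) -
            ((wph (wl6 t u (decide (a = σ))) (vl (htL t) τ) : ℝ) : ℂ) * I)) -
        (wd (wc (bc6 t u) (decide (a = σ))) (wG (bc6 t u) (br6 t u) τ) z -
          (-((wq (wc (bc6 t u) (decide (a = σ))) : ℝ) : ℂ) * (z - τ) +
            ((-(wq (wc (bc6 t u) (decide (a = σ))) * Real.log 2) : ℝ) : ℂ) -
            ((wph (wc (bc6 t u) (decide (a = σ))) (wG (bc6 t u) (br6 t u) τ) : ℝ) : ℂ) * I)) := by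
      unfold ptA phA pb6
      push_cast
      ring
    rw [e]
    refine (norm_sub_le _ _).trans ((add_le_add a1 a2).trans ?_)
    rw [← add_mul]
    exact mul_le_mul_of_nonneg_right (by unfold kPt6; linarith) (Real.exp_pos _).le

private theorem fit_of {w : ℂ} (h : Away (1 / 4) w) (L : List (ℤ × ℝ)) : PBV.PLX.Fit (1 / 4) L w := by
  intro kc _
  have h1 := NUO.yw_le h kc.1
  have hpi : Real.pi / 2 = 4 * NUMF.l := by unfold NUMF.l; ring
  rw [hpi] at h1
  linarith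

theorem diff_ptA (t : HT) (u : Ch6) (σ : Bool) (τ : ℝ) (a : Bool) {z : ℂ} (hz : |z.im| < NUMF.l / 8) :
    DifferentiableAt ℂ (ptA t u σ τ a) z := by
  have hl := NUMF.l_pos
  have hz' : |z.im| < 1 / 4 * NUMF.l := by linarith
  exact (PBV.PLX.diff_wdF (fit_of (away_htL t τ) _) hz').sub
    (PBV.PLX.diff_wdF (fit_of (NUSp.wG_away (bc6 t u) (br6 t u) τ) _) hz')

/-! ### the phases -/

theorem abs_wph_le (L : List (ℤ × ℝ)) (w : ℂ) : |wph L w| ≤ wn L * (4 * NUMF.l) := by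
  have hl := NUMF.l_pos
  induction L with
  | nil => simp
  | cons a L ih =>
    have h1 : |yw w a.1| ≤ 4 * NUMF.l := by
      unfold NUO.yw
      rw [abs_mul, abs_of_pos hl]
      exact mul_le_mul_of_nonneg_right (NUO.abs_red_le _) hl.le
    rw [NUSp.wph_cons, NUSp.wn_cons, add_mul]
    refine (abs_add_le _ _).trans (add_le_add ?_ ih)
    rw [abs_mul]
    exact mul_le_mul_of_nonneg_left h1 (abs_nonneg _)

/-- the phase is bounded -/
theorem abs_phA (t : HT) (u : Ch6) (σ : Bool) (τ : ℝ) (a : Bool) : |phA t u σ τ a| ≤ 96 * NUMF.l := by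
  have hl := NUMF.l_pos
  obtain ⟨n1, n2⟩ := wn_wl6 t u (decide (a = σ))
  have h1 := abs_wph_le (wl6 t u (decide (a = σ))) (vl (htL t) τ)
  have h2 := abs_wph_le (wc (bc6 t u) (decide (a = σ))) (pb6 t u τ)
  unfold phA
  refine (abs_sub _ _).trans ?_
  nlinarith

private theorem wph_a {w : ℂ} (hw : w.re / NUMF.l = 5 / 8) : wph wXs w = -(5 / 8 * NUMF.l) ∧
    wph wYs w = -(19 / 8 * NUMF.l) ∧ wph wXg w = 53 / 8 * NUMF.l ∧ wph wYg w = -(13 / 8 * NUMF.l) ∧
    wph (wc .hp true) w = 59 / 8 * NUMF.l ∧ wph (wc .hp false) w = 45 / 8 * NUMF.l := by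
  have y0 : yw w 0 = 29 / 8 * NUMF.l := by
    rw [NUSp.yw_of w 0 0 (by rw [hw]; norm_num) (by rw [hw]; norm_num), hw]; push_cast; ring
  have y1 : yw w 1 = 21 / 8 * NUMF.l := by
    rw [NUSp.yw_of w 1 0 (by rw [hw]; norm_num) (by rw [hw]; norm_num), hw]; push_cast; ring
  have y2 : yw w 2 = 13 / 8 * NUMF.l := by
    rw [NUSp.yw_of w 2 0 (by rw [hw]; norm_num) (by rw [hw]; norm_num), hw]; push_cast; ring
  have y3 : yw w 3 = 5 / 8 * NUMF.l := by
    rw [NUSp.yw_of w 3 0 (by rw [hw]; norm_num) (by rw [hw]; norm_num), hw]; push_cast; ring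
  have y4 : yw w 4 = -(3 / 8 * NUMF.l) := by
    rw [NUSp.yw_of w 4 0 (by rw [hw]; norm_num) (by rw [hw]; norm_num), hw]; push_cast; ring
  have z1 : yw w (-1) = -(27 / 8 * NUMF.l) := by
    rw [NUSp.yw_of w (-1) 1 (by rw [hw]; norm_num) (by rw [hw]; norm_num), hw]; push_cast; ring
  have z2 : yw w (-2) = -(19 / 8 * NUMF.l) := by
    rw [NUSp.yw_of w (-2) 1 (by rw [hw]; norm_num) (by rw [hw]; norm_num), hw]; push_cast; ring
  have z3 : yw w (-3) = -(11 / 8 * NUMF.l) := by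
    rw [NUSp.yw_of w (-3) 1 (by rw [hw]; norm_num) (by rw [hw]; norm_num), hw]; push_cast; ring
  refine ⟨?_, ?_, ?_, ?_, ?_, ?_⟩ <;>
    simp only [wXs, wYs, wXg, wYg, wc, NUSp.wX, NUSp.wY, if_true, Bool.false_eq_true, if_false,
      NUSp.wph_cons, NUSp.wph_nil, y0, y1, y2, y3, y4, z1, z2, z3] <;> ring

private theorem wph_w {w : ℂ} (hw : w.re / NUMF.l = 5 / 4) : wph (wc .w true) w = -(11 / 4 * NUMF.l) ∧
    wph (wc .w false) w = -(1 / 4 * NUMF.l) := by
  have y0 : yw w 0 = -(15 / 4 * NUMF.l) := by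
    rw [NUSp.yw_of w 0 1 (by rw [hw]; norm_num) (by rw [hw]; norm_num), hw]; push_cast; ring
  have z2 : yw w (-2) = -(7 / 4 * NUMF.l) := by
    rw [NUSp.yw_of w (-2) 1 (by rw [hw]; norm_num) (by rw [hw]; norm_num), hw]; push_cast; ring
  have z1 : yw w (-1) = -(11 / 4 * NUMF.l) := by
    rw [NUSp.yw_of w (-1) 1 (by rw [hw]; norm_num) (by rw [hw]; norm_num), hw]; push_cast; ring
  have y4 : yw w 4 = 1 / 4 * NUMF.l := by
    rw [NUSp.yw_of w 4 0 (by rw [hw]; norm_num) (by rw [hw]; norm_num), hw]; push_cast; ring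
  have y3 : yw w 3 = 5 / 4 * NUMF.l := by
    rw [NUSp.yw_of w 3 0 (by rw [hw]; norm_num) (by rw [hw]; norm_num), hw]; push_cast; ring
  have z3 : yw w (-3) = -(3 / 4 * NUMF.l) := by
    rw [NUSp.yw_of w (-3) 1 (by rw [hw]; norm_num) (by rw [hw]; norm_num), hw]; push_cast; ring
  constructor <;>
    simp only [wc, NUSp.wX, NUSp.wY, if_true, Bool.false_eq_true, if_false,
      NUSp.wph_cons, NUSp.wph_nil, y0, y3, y4, z1, z2, z3] <;> ring

/-- the letters without atoms have no phase -/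
theorem phA_base {t : HT} {u : Ch6} (h : t = .H → u.2 = false) (σ : Bool) (τ : ℝ) (a : Bool) :
    phA t u σ τ a = 0 := by
  have e1 : wl6 t u (decide (a = σ)) = wc (bc6 t u) (decide (a = σ)) := by
    obtain ⟨u1, u2⟩ := u
    cases t <;> cases u1 <;> cases u2 <;> simp_all [wl6, bc6]
  have e2 : pb6 t u τ = vl (htL t) τ := by
    obtain ⟨u1, u2⟩ := u
    cases t <;> cases u1 <;> cases u2 <;> first | rfl | exact absurd (h rfl) (by simp)
  unfold phA
  rw [e1, e2, sub_self]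

/-- **the total phase of the atoms** -/
theorem sum_phA (t : HT) (u : Ch6) (σ : Bool) (τ : ℝ) : ∑ a, phA t u σ τ a = totA t u := by
  have hl := NUMF.l_pos
  by_cases h : t = .H → u.2 = false
  · have e : totA t u = 0 := by
      unfold totA
      rw [if_neg, if_neg]
      · rintro ⟨h1, h2⟩
        have := h h1
        rw [h2] at this
        exact absurd this (by simp)
      · rintro ⟨h1, h2⟩
        have := h h1
        rw [h2] at this
        exact absurd this (by simp)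
    simp only [phA_base h, Finset.sum_const_zero, e]
  · push Not at h
    obtain ⟨rfl, h2⟩ := h
    obtain ⟨u1, u2⟩ := u
    have h2' : u2 = true := by simpa using h2
    subst h2'
    have hw : (vl (htL .H) τ).re / NUMF.l = 5 / 8 := by
      rw [vl_re6]
      show 5 / 8 * NUMF.l / NUMF.l = 5 / 8
      field_simp
    obtain ⟨a1, a2, a3, a4, a5, a6⟩ := wph_a hw
    cases u1
    · have e0 : pb6 .H (false, true) τ = vl (htL .H) τ := rfl
      have e1 : ∀ o, wl6 .H (false, true) o = wcs o := fun o => rfl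
      have e2 : bc6 .H (false, true) = .hp := rfl
      rw [Fintype.sum_bool]
      unfold phA totA
      rw [e0, e1, e1, e2, if_pos ⟨rfl, rfl⟩]
      cases σ
      · simp only [wcs, decide_true, Bool.true_eq_false, decide_false, if_true, Bool.false_eq_true,
          if_false, a1, a2, a5, a6]
        ring
      · simp only [wcs, decide_true, Bool.false_eq_true, decide_false, if_true, if_false, a1, a2, a5, a6]
        ring
    · have e1 : ∀ o, wl6 .H (true, true) o = wcg o := fun o => rfl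
      have e2 : bc6 .H (true, true) = .w := rfl
      have hw2 : (pb6 .H (true, true) τ).re / NUMF.l = 5 / 4 := NUSp.wG_re .w true τ
      obtain ⟨b1, b2⟩ := wph_w hw2
      rw [Fintype.sum_bool]
      unfold phA totA
      rw [e1, e1, e2, if_neg (by simp), if_pos ⟨rfl, rfl⟩]
      cases σ
      · simp only [wcg, decide_true, Bool.true_eq_false, decide_false, if_true, Bool.false_eq_true,
          if_false, a3, a4, b1, b2]
        ring
      · simp only [wcg, decide_true, Bool.false_eq_true, decide_false, if_true, if_false, a3, a4, b1, b2]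
        ring

/-! ### the linear term -/

attribute [local instance] NUSea.seaP

variable [Fil] [Ends]

private theorem P_bd : ∃ Cp : ℝ, 0 < Cp ∧ ∀ t, 0 < NUSea.P t ∧ NUSea.P t ≤ Cp := by
  obtain ⟨Cp, hCp, HP⟩ := NUSea.P_le
  refine ⟨Cp, hCp, fun t => ⟨NUSea.P_pos t, ?_⟩⟩
  have h1 := HP t
  have h2 : Real.exp (-(8 / 3) * |t|) ≤ 1 := Real.exp_le_one_iff.2 (by
    have := abs_nonneg t
    linarith)
  have h3 : 0 < NUSea.P t := NUSea.P_pos t
  nlinarith

/-- **a neutral potential of one height on an admissible curve against the line** -/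
theorem int_neuA {e1 Cc : ℝ} (he : 0 < e1) (he1 : e1 ≤ 1) (hCc : 0 ≤ Cc) {B κ0 : ℝ}
    (hB : 1 / 100 < B) (hκ0 : 0 ≤ κ0) : ∃ C : ℝ, 0 ≤ C ∧
    ∀ (m : ℕ) (η η1 : ℝ → ℝ), 1 ≤ m → CrvP e1 Cc m η η1 → ∀ (a : Bool) (κ φ τ : ℝ) (Ψ : ℂ → ℂ),
      |φ| ≤ κ0 → 0 ≤ κ → κ ≤ κ0 → Asy B κ 0 0 φ τ Ψ → (∀ z : ℂ, |z.im| < B → DifferentiableAt ℂ Ψ z) →
      Integrable (fun t => sN m a * NUSea.P t * (Ψ (zt (iD (Fil.cv a η)) t)).re) ∧
      Integrable (fun t : ℝ => sN m a * NUSea.P t * (Ψ t).re) ∧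
      |(∫ t, sN m a * NUSea.P t * (Ψ (zt (iD (Fil.cv a η)) t)).re) -
          (∫ t : ℝ, sN m a * NUSea.P t * (Ψ t).re) + 2 * φ * (m * NUSea.P τ * η τ)| ≤ C := by
  obtain ⟨C1, hC1, H1⟩ := PBV.PLX.exists_linH
  obtain ⟨Cp, hCp, HP⟩ := P_bd
  refine ⟨(Fil.qo : ℕ) * (κ0 + C1 * (2 * κ0) * (1 + Cc * (16 / e1 ^ 2))) +
    2 * κ0 * ((Fil.qo : ℕ) * Cp), by positivity, ?_⟩
  intro m η η1 hm hcv a κ φ τ Ψ hφ hκ hκ1 hΨ hdiff
  obtain ⟨ε, e, hcur0, hε0, hε1, hε⟩ := hcv.cur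
  have hm0 : (0 : ℝ) < m := by exact_mod_cast hm
  obtain ⟨hb, h8⟩ := PBV.PLX.crv_err he he1 hCc hm hε0 hε1
  obtain ⟨hcur, hd, hA⟩ := PBV.PLX.cur_cv hm0 hcur0 hcv.d hcv.hd_le a
  obtain ⟨i1, i2, a1⟩ := H1 hm0.le (by linarith) hcur hd hb (lt_of_le_of_lt hε hB) hΨ hdiff hA
  have hr0 : 0 ≤ sN m a / m := div_nonneg (PotH.PLX.sN_nonneg m a) hm0.le
  have hr1 : sN m a / m ≤ (Fil.qo : ℕ) := by
    rw [div_le_iff₀ hm0]
    exact PotH.PLX.sN_le hm a
  have f1 : (fun t => sN m a * NUSea.P t * (Ψ (zt (iD (Fil.cv a η)) t)).re) = fun t =>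
      sN m a / m * ((m : ℝ) * NUSea.P t * (Ψ (zt (iD (Fil.cv a η)) t)).re) := by
    funext t
    field_simp
  have f2 : (fun t : ℝ => sN m a * NUSea.P t * (Ψ t).re) = fun t : ℝ =>
      sN m a / m * ((m : ℝ) * NUSea.P t * (Ψ t).re) := by
    funext t
    field_simp
  rw [f1, f2]
  refine ⟨i1.const_mul _, i2.const_mul _, ?_⟩
  rw [integral_const_mul, integral_const_mul]
  have hkap : κ * 1 + C1 * (|0| + |φ| + κ) * ((1 - e1) * Tb (Real.log m)) * (Cc * Real.log m * ε) ≤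
      κ0 + C1 * (2 * κ0) * (1 + Cc * (16 / e1 ^ 2)) := by
    have h9 : 0 ≤ (1 - e1) * Tb (Real.log m) * (Cc * Real.log m * ε) := by
      have hL0 := Real.log_nonneg (show (1 : ℝ) ≤ m by exact_mod_cast hm)
      exact mul_nonneg hb (by positivity)
    have h10 : (1 - e1) * Tb (Real.log m) * (Cc * Real.log m * ε) ≤ 1 + Cc * (16 / e1 ^ 2) := by
      linarith
    have h11 : C1 * (|(0 : ℝ)| + |φ| + κ) ≤ C1 * (2 * κ0) := by
      rw [abs_zero]
      exact mul_le_mul_of_nonneg_left (by linarith) (by linarith)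
    have h12 : 0 ≤ C1 * (2 * κ0) := by positivity
    have h13 := mul_le_mul h11 h10 h9 h12
    have e9 : C1 * (|(0 : ℝ)| + |φ| + κ) * ((1 - e1) * Tb (Real.log m)) * (Cc * Real.log m * ε) =
      C1 * (|(0 : ℝ)| + |φ| + κ) * ((1 - e1) * Tb (Real.log m) * (Cc * Real.log m * ε)) := by ring
    rw [e9]
    linarith
  have a2 := a1.trans hkap
  have e3 : sN m a / m * (∫ t, (m : ℝ) * NUSea.P t * (Ψ (zt (iD (Fil.cv a η)) t)).re) -
      sN m a / m * (∫ t : ℝ, (m : ℝ) * NUSea.P t * (Ψ t).re) + 2 * φ * (m * NUSea.P τ * η τ) =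
      sN m a / m * ((∫ t, (m : ℝ) * NUSea.P t * (Ψ (zt (iD (Fil.cv a η)) t)).re) -
        (∫ t : ℝ, (m : ℝ) * NUSea.P t * (Ψ t).re) + 2 * φ * (m * NUSea.P τ * Fil.cv a η τ)) -
      2 * φ * ((sN m a / Fil.b a - sN m true) * (NUSea.P τ * η τ)) := by
    rw [Fil.cv_apply, PotH.PLX.sN_true hm]
    field_simp
    ring
  rw [e3]
  refine (abs_sub _ _).trans (add_le_add ?_ ?_)
  · rw [abs_mul, abs_of_nonneg hr0]
    exact mul_le_mul hr1 a2 (abs_nonneg _) (Nat.cast_nonneg _)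
  · rw [abs_mul, abs_mul, abs_mul, abs_mul, abs_two, abs_of_pos (HP τ).1]
    have h5 := PotH.PLX.sN_div hm a
    have h6 : NUSea.P τ * |η τ| ≤ Cp * 1 := mul_le_mul (HP τ).2 ((hcv.le τ).trans (by norm_num))
      (abs_nonneg _) hCp.le
    rw [mul_one] at h6
    have h7 := mul_le_mul h5 h6 (by have := (HP τ).1; positivity) (Nat.cast_nonneg _)
    have h8 : 2 * |φ| ≤ 2 * κ0 := by linarith
    exact mul_le_mul h8 h7 (by have := (HP τ).1; positivity) (by positivity)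

/-- **the atoms of a letter on the curve** -/
theorem int_at6 {e1 Cc : ℝ} (he : 0 < e1) (he1 : e1 ≤ 1) (hCc : 0 ≤ Cc) : ∃ C : ℝ, 0 ≤ C ∧
    ∀ (m : ℕ) (η η1 : ℝ → ℝ), 1 ≤ m → CrvP e1 Cc m η η1 → ∀ (t : HT) (u : Ch6) (σ : Bool) (τ : ℝ),
      (∀ a, Integrable fun x => sN m a * NUSea.P x * HS (at6 t u σ τ) (fun a => Fil.cv a η) a x) ∧
      |(∑ a, ∫ x, sN m a * NUSea.P x * HS (at6 t u σ τ) (fun a => Fil.cv a η) a x) -
          (∑ a, sN m a * mHS (at6 t u σ τ) a) + 2 * totA t u * (m * NUSea.P τ * η τ)| ≤ C := by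
  have hl := NUMF.l_pos
  have hl8 : 1 / 100 < NUMF.l / 8 := by
    have hpi := Real.pi_gt_three
    unfold NUMF.l
    linarith
  have hk := ka_nonneg6
  have hk6 : 0 ≤ kPt6 := by unfold kPt6; positivity
  obtain ⟨C, hC, H⟩ := int_neuA he he1 hCc (B := NUMF.l / 8) (κ0 := max kPt6 (96 * NUMF.l)) hl8
    (by positivity)
  refine ⟨C + C, by positivity, ?_⟩
  intro m η η1 hm hcv t u σ τ
  have key : ∀ a, Integrable (fun x => sN m a * NUSea.P x * HS (at6 t u σ τ) (fun a => Fil.cv a η) a x) ∧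
      |(∫ x, sN m a * NUSea.P x * HS (at6 t u σ τ) (fun a => Fil.cv a η) a x) -
        sN m a * mHS (at6 t u σ τ) a + 2 * phA t u σ τ a * (m * NUSea.P τ * η τ)| ≤ C := by
    intro a
    obtain ⟨i1, i2, h3⟩ := H m η η1 hm hcv a kPt6 (phA t u σ τ a) τ (ptA t u σ τ a)
      ((abs_phA t u σ τ a).trans (le_max_right _ _)) hk6 (le_max_left _ _) (asy_ptA t u σ τ a)
      (fun z hz => diff_ptA t u σ τ a hz)
    have e1 : (fun x => sN m a * NUSea.P x * (ptA t u σ τ a (zt (iD (Fil.cv a η)) x)).re) =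
        fun x => sN m a * NUSea.P x * HS (at6 t u σ τ) (fun a => Fil.cv a η) a x := by
      funext x
      rw [← ptA_HS t u σ τ a (fun a => Fil.cv a η) x]
    have e2 : ∫ x : ℝ, sN m a * NUSea.P x * (ptA t u σ τ a x).re = sN m a * mHS (at6 t u σ τ) a := by
      rw [← (int_HS (by positivity : 0 < NUMF.l / 4) (at6_ok t u σ τ) a).2, ← integral_const_mul]
      refine integral_congr_ae (Eventually.of_forall fun x => ?_)
      show sN m a * NUSea.P x * (ptA t u σ τ a x).re = sN m a * (NUMF.P x * HS (at6 t u σ τ) (fun _ _ => 0) a x)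
      rw [ptA_HS0]
      have : NUSea.P x = NUMF.P x := rfl
      rw [this]
      ring
    rw [e1] at i1 h3
    rw [e2] at h3
    exact ⟨i1, h3⟩
  refine ⟨fun a => (key a).1, ?_⟩
  have k1 := (key true).2
  have k2 := (key false).2
  have ht := sum_phA t u σ τ
  rw [Fintype.sum_bool] at ht
  rw [Fintype.sum_bool, Fintype.sum_bool, ← ht]
  rw [abs_le] at k1 k2 ⊢
  constructor <;> nlinarith [k1.1, k1.2, k2.1, k2.2]

end PHK

end
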