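import Pool.Agent.NUP1S.Block
import Pool.Agent.PHK.Exp
import Pool.Agent.NUP1.Objects
import Pool.Agent.PHD.Gen

/-!
# The integrals over the rectangles are the contour integrals `JJ` of PHD
-/

set_option autoImplicit false
set_option linter.unusedSectionVars false

noncomputable section

open Complex MeasureTheory NUP1 Set Filter Topology
open scoped Real
open Pool.Agent.PHD (one QP JJ QP_succ)
open NUP1.Bd (qg)

namespace NUP1S

/-- Lebesgue measure on the parameters of the rectangle -/
abbrev mu4 : Measure ℝ := volume.restrict (Ioc (0 : ℝ) 4)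

instance : IsFiniteMeasure mu4 := ⟨by simp [mu4]⟩

/-- weight of the rectangle, counterclockwise -/
def rK (x y R t : ℝ) : ℂ := -rO x y R t

theorem int_mu4 {k : ℕ} {F : (Fin k → ℝ) → ℂ} (h : ∀ t a, t a ∉ Ioc (0 : ℝ) 4 → F t = 0) :
    ∫ t, F t ∂(Measure.pi fun _ => volume) = ∫ t, F t ∂(Measure.pi fun _ => mu4) := by
  have e : (Measure.pi fun _ : Fin k => mu4) = (Measure.pi fun _ : Fin k => (volume : Measure ℝ)).restrict
      (Set.pi univ fun _ => Ioc (0 : ℝ) 4) := (Measure.restrict_pi_pi _ _).symm
  rw [e, setIntegral_eq_integral_of_forall_compl_eq_zero]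
  intro t ht
  rw [mem_univ_pi, not_forall] at ht
  obtain ⟨a, ha⟩ := ht
  exact h t a ha

theorem P_succ0 {n : ℕ} (f : Fin (n + 1) → Fin (n + 1) → ℂ) (hf : ∀ a b, f a b = f b a) :
    Grand.P f = (∏ j : Fin n, f 0 j.succ) * Grand.P (fun a b : Fin n => f a.succ b.succ) := by
  rw [Grand.P_succAbove f hf 0]
  simp only [Fin.succAbove_zero]
  congr 1
  exact Finset.prod_congr rfl fun j _ => hf _ _

/-- the product over the pairs -/
theorem PU_QP {k : ℕ} (v : Fin k → ℂ) : PU (fun a b => q (v a - v b)) = QP q v := by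
  have hs : ∀ {n : ℕ} (v : Fin n → ℂ) (a b : Fin n), q (v a - v b) = q (v b - v a) :=
    fun v a b => by rw [← NUP1.Bd.q_neg, neg_sub]
  rw [PU_fin (hs v)]
  induction k with
  | zero => simp [QP, Grand.P_zero]
  | succ k ih =>
    rw [P_succ0 _ (hs v), QP_succ, ← ih]

variable {pl : Bool → Finset ℂ} {κ x y R : ℝ} {g : Bool → ℂ → ℂ}

/-- one species on the rectangle, the integrand -/
theorem Fc_rect {s : Bool} {k : ℕ} (t : Fin k → ℝ) {ι : Type*} [Fintype ι] {f : ℂ → ℂ}
    {c : ι → ℂ} (hf : ∀ a, Wt pl g s (rP x y R (t a)) =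
      f (rP x y R (t a)) / ∏ i, (rP x y R (t a) - c i)) :
    Fc pl g (fun _ : Fin k => rectC s x y R) t = (-1) ^ k *
      ((∏ a, one (rP x y R) (rK x y R) f c (t a)) * QP q fun a => rP x y R (t a)) := by
  unfold Fc
  have e1 : PU (fun i j : Fin k => pwc (rectC s x y R) (rectC s x y R) (t i) (t j)) =
      QP q fun a => rP x y R (t a) := by
    rw [← PU_QP]
    congr 1
    funext i j
    unfold pwc PP rectC
    simp
  rw [e1, ← mul_assoc]
  congr 1
  have e2 : ∀ a, hh pl g (rectC s x y R) (t a) = -1 * one (rP x y R) (rK x y R) f c (t a) := by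
    intro a
    show rO x y R (t a) * Wt pl g s (rP x y R (t a)) = _
    unfold one rK
    rw [hf a]
    ring
  rw [Finset.prod_congr rfl fun a _ => e2 a, Finset.prod_mul_distrib, Finset.prod_const,
    Finset.card_univ, Fintype.card_fin]

/-- one species on the rectangle -/
theorem int_rect {s : Bool} {k : ℕ} {ι : Type*} [Fintype ι] {f : ℂ → ℂ}
    {c : ι → ℂ} (hf : ∀ t, Wt pl g s (rP x y R t) = f (rP x y R t) / ∏ i, (rP x y R t - c i)) :
    ∫ t : Fin k → ℝ, Fc pl g (fun _ : Fin k => rectC s x y R) t ∂(Measure.pi fun _ => volume) =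
      (-1) ^ k * JJ mu4 (rP x y R) (rK x y R) f q c k := by
  have e1 : ∀ t : Fin k → ℝ, Fc pl g (fun _ : Fin k => rectC s x y R) t = (-1) ^ k *
      ((∏ a, one (rP x y R) (rK x y R) f c (t a)) * QP q fun a => rP x y R (t a)) :=
    fun t => Fc_rect t fun a => hf (t a)
  simp only [e1]
  rw [integral_const_mul, int_mu4]
  · rfl
  · intro t a ha
    have : one (rP x y R) (rK x y R) f c (t a) = 0 := by
      unfold one rK
      rw [rO_zero ha]
      simp
    rw [Finset.prod_eq_zero (Finset.mem_univ a) this, zero_mul]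

theorem Wt_adI {ι' : Type*} [Fintype ι'] (g : Bool → ℂ → ℂ) (s' : ι' → Bool) (z' : ι' → ℂ)
    (s : Bool) (u : ℂ) : Wt pl (adI g s' z') s u = Wt pl g s u * ∏ i, PP s (s' i) (u - z' i) := by
  unfold Wt adI
  ring

/-- **both species on the rectangle**, nested, the second species outside -/
theorem NI_RR (h : InR pl x y R) (hκ : 0 < κ) (hxy : x ≤ y) (hw : y - x < l) (hR : 0 ≤ R)
    {k k' : ℕ} (hg : Reg pl κ x y (k * sg true + k' * sg false) g)
    {ι ι' : Type*} [Fintype ι] [Fintype ι'] {f f' : ℂ → ℂ} {c : ι → ℂ} {c' : ι' → ℂ}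
    (hf : ∀ t, Wt pl g true (rP x y R t) = f (rP x y R t) / ∏ i, (rP x y R t - c i))
    (hf' : ∀ t, Wt pl g false (rP x y R t) = f' (rP x y R t) / ∏ i, (rP x y R t - c' i)) :
    NI pl (RR k k' x y R) g = (-1) ^ (k + k') * ∫ t' : Fin k' → ℝ,
      ((∏ b, one (rP x y R) (rK x y R) f' c' (t' b)) * QP q fun b => rP x y R (t' b)) *
        JJ mu4 (rP x y R) (rK x y R) (fun z => f z * ∏ b, qg (z - rP x y R (t' b))) q c k
      ∂(Measure.pi fun _ => mu4) := by
  have G := h.geo hκ hxy hw
  have oR : ∀ s, OkC pl κ x y (rectC s x y R) := fun s =>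
    OkC.rect hxy hR le_rfl le_rfl hκ.le (h s)
  have hch : chL (List.replicate k' (rectC false x y R)) +
      chL (List.replicate k (rectC true x y R)) = k * sg true + k' * sg false := by
    rw [chL_replicate, chL_replicate]
    show (k' : ℤ) * sg false + (k : ℤ) * sg true = _
    ring
  have hperm : (RR k k' x y R).Perm (List.replicate k' (rectC false x y R) ++
      List.replicate k (rectC true x y R)) := List.perm_append_comm
  rw [NI_perm G hperm (okRR h hκ hxy hR k k') g (by rw [chL_RR]; exact hg)]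
  have hI : ∀ n s, chI (fun _ : Fin n => rectC s x y R) = n * sg s := by
    intro n s
    unfold chI
    rw [Finset.sum_const, Finset.card_univ, Fintype.card_fin, nsmul_eq_mul]
    rfl
  obtain ⟨e, he⟩ : ∃ e : Fin k' ⊕ Fin k ≃ Fin (List.replicate k' (rectC false x y R) ++
      List.replicate k (rectC true x y R)).length,
      ∀ i, (Sum.elim (fun _ : Fin k' => rectC false x y R) (fun _ : Fin k => rectC true x y R) i) =
        (List.replicate k' (rectC false x y R) ++ List.replicate k (rectC true x y R)).get (e i) := by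
    have hlen : k' + k = (List.replicate k' (rectC false x y R) ++
      List.replicate k (rectC true x y R)).length := by simp
    refine ⟨finSumFinEquiv.trans (finCongr hlen), ?_⟩
    rintro (i | i)
    · simp
    · simp
  rw [NI_eq_int G _ (ok_app (ok_rep (oR false) _) (ok_rep (oR true) _)) g
    (by rw [chL_append, hch]; exact hg) _ e he,
    (block G (fun _ => oR false) (fun _ => oR true) (g := g) (by
      rw [hI, hI, add_comm]
      exact hg)).2]
  have e1 : ∀ t' : Fin k' → ℝ, Fc pl g (fun _ : Fin k' => rectC false x y R) t' *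
      ∫ t : Fin k → ℝ, Fc pl (adI g (fun i : Fin k' => (rectC false x y R).sp)
        fun i => (rectC false x y R).pos (t' i)) (fun _ : Fin k => rectC true x y R) t
          ∂(Measure.pi fun _ => volume) = (-1) ^ (k + k') *
      (((∏ b, one (rP x y R) (rK x y R) f' c' (t' b)) * QP q fun b => rP x y R (t' b)) *
        JJ mu4 (rP x y R) (rK x y R) (fun z => f z * ∏ b, qg (z - rP x y R (t' b))) q c k) := by
    intro t'
    rw [int_rect (g := adI g (fun i : Fin k' => (rectC false x y R).sp)
        fun i => (rectC false x y R).pos (t' i)) (f := fun z => f z * ∏ b, qg (z - rP x y R (t' b)))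
        (c := c), Fc_rect t' fun a => hf' (t' a), pow_add]
    · ring
    · intro t
      rw [Wt_adI, hf t]
      have : ∏ i : Fin k', PP true (rectC false x y R).sp (rP x y R t - (rectC false x y R).pos (t' i)) =
          ∏ b, qg (rP x y R t - rP x y R (t' b)) := by
        refine Finset.prod_congr rfl fun i _ => ?_
        unfold PP rectC
        simp
      rw [this]
      ring
  simp only [e1]
  rw [integral_const_mul, int_mu4]
  intro t' a ha
  have : one (rP x y R) (rK x y R) f' c' (t' a) = 0 := by
    unfold one rK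
    rw [rO_zero ha]
    simp
  rw [Finset.prod_eq_zero (Finset.mem_univ a) this, zero_mul, zero_mul]

end NUP1S

end
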