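import Pool.Agent.PHK.LogD6
import Pool.Agent.PLX.PB.LogP

/-!
# The particle-hole form (P): log derivative of the factor of the objects on a quantum

* `DsC P h c`: the strip `|Re z - l| ≤ h l` of the curves is at distance `c l` from the zeros and the
  poles of the factors of the objects (`dsC_of`, `par6_dsC`);
* `LPo6 P r O s z = ∑ i, ∑ b ∈ cons6 P O i, b.2 * lpp s b.1 z`: `hasDerivAt_potO6`, `LPo6_le`,
  `measurable_LPo6`; **`logD_of6`**: `LogD6` from the one body functions of the quanta.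
-/

set_option autoImplicit false
set_option linter.unusedSectionVars false

noncomputable section

open Complex MeasureTheory Finset

namespace PHK

open NUO NUP1 NUP1.Bd NUP1S NUP1S.Ab NUGC NUGC.PLX
open PBForce (keX keY kO Gen)
open PBF.PLX (Dst lpp kSp obP hasDerivAt_pp lpp_le measurable_lpp)

/-! ### one constituent -/

/-- the pair factor of a quantum with a constituent does not vanish -/
theorem pp_ne_gen (s : Bool) (b : Part) {z : ℂ} (h : Gen (b.2.2 - z)) : pp (s, false, z) b ≠ 0 := by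
  obtain ⟨s', k, w⟩ := b
  have hg : Gen (w - z) := h
  by_cases hs : s = s'
  · subst hs
    cases k
    · show (if s = s then Kn.pz false false (z - w) else _) ≠ 0
      rw [if_pos rfl]
      show q (z - w) ≠ 0
      rw [← NUP1.q_neg, neg_sub]
      exact PBForce.q_ne_gen hg
    · show (if s = s then Kn.pz false true (z - w) else _) ≠ 0
      rw [if_pos rfl]
      show q1 (z - w) ≠ 0
      rw [← neg_sub w z, PBForce.q1_fac hg]
      exact mul_ne_zero (PBForce.q_ne_gen hg) (PBForce.q_ne_gen hg.sub)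
  · cases k
    · show (if s = s' then _ else Kn.cz false false (z - w)) ≠ 0
      rw [if_neg hs]
      show qg (z - w) ≠ 0
      rw [← Bd.qg_neg, neg_sub]
      exact PBForce.qg_ne_gen hg
    · show (if s = s' then _ else Kn.cz false true (z - w)) ≠ 0
      rw [if_neg hs]
      show qg (z - w) * qg (z - w + NUP1.l) ≠ 0
      rw [← Bd.qg_neg (z - w), ← Bd.qg_neg (z - w + NUP1.l)]
      refine mul_ne_zero ?_ ?_
      · rw [neg_sub]
        exact PBForce.qg_ne_gen hg
      · rw [show -(z - w + (NUP1.l : ℂ)) = w - z - NUP1.l by ring]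
        exact PBForce.qg_ne_gen hg.sub

/-- log derivative of the pair factor of a quantum with a signed constituent -/
theorem hasDerivAt_pp6 (s : Bool) (b : Part6) {z : ℂ} (h : Gen (b.1.2.2 - z)) :
    HasDerivAt (fun z => pp6 ((s, false, z), 1) b)
      ((b.2 : ℂ) * lpp s b.1 z * pp6 ((s, false, z), 1) b) z := by
  have h1 := hasDerivAt_pp s b.1 h
  have h0 := pp_ne_gen s b.1 h
  have h2 := (hasDerivAt_zpow b.2 _ (Or.inl h0)).comp z h1
  have e : (fun z => pp6 ((s, false, z), 1) b) = (fun x : ℂ => x ^ b.2) ∘ fun z => pp (s, false, z) b.1 := by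
    funext z
    show pp (s, false, z) b.1 ^ (1 * b.2) = _
    rw [one_mul]
    rfl
  have e' : pp6 ((s, false, z), 1) b = pp (s, false, z) b.1 ^ b.2 := by
    show pp (s, false, z) b.1 ^ (1 * b.2) = _
    rw [one_mul]
  rw [e, e']
  refine h2.congr_deriv ?_
  rw [zpow_sub_one₀ h0]
  field_simp

/-! ### the constituents of the objects are at distance from the zeros and the poles -/

/-- the strip of half width `h l` is at distance `c l` from the zeros and the poles -/
structure DsC (P : Par6) (h c : ℝ) : Prop where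
  h0 : 0 ≤ h
  c0 : 0 < c
  hT : h + c ≤ 1 / 2
  hL : h + c ≤ P.jL - 2
  hL' : P.jL + h + c ≤ 3
  h1 : h + c ≤ P.j1
  h1e : P.j1 ≤ P.e
  he : P.e + h + c ≤ 1
  he2 : P.e ≤ P.j2
  h2 : P.j2 + h + c ≤ 1

theorem DsC.c1 {P : Par6} {h c : ℝ} (hd : DsC P h c) : c * NUP1.l ≤ 1 := by
  have hl := Bd.l_pos
  have h1 := hd.hT
  have h2 := hd.h0
  have h3 := PBC.PLX.l_small
  nlinarith

/-- from the conditions on the parameters -/
theorem dsC_of {P : Par6} (hP : GoodP6 P) {h c : ℝ} (h0 : 0 ≤ h) (c0 : 0 < c) (hL : h + c ≤ P.jL - 2)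
    (h1 : h + c ≤ P.j1) (h2 : h + c ≤ 1 - P.j2) : DsC P h c where
  h0 := h0
  c0 := c0
  hT := by
    have := hP.j1e
    have := hP.ej2
    linarith
  hL := hL
  hL' := by
    have := hP.Lj
    have := hP.j1e
    have := hP.ej2
    linarith
  h1 := h1
  h1e := hP.j1e.le
  he := by
    have := hP.ej2
    linarith
  he2 := hP.ej2.le
  h2 := by linarith

theorem dst_cons6 {P : Par6} {h c : ℝ} (hd : DsC P h c) {r : ℕ} (O : Fin r → Xo) (i : Fin r) {z : ℂ}
    (hz : z.re ∈ Set.Icc ((1 - h) * l) ((1 + h) * l)) :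
    ∀ b ∈ cons6 P O i, Dst (c * NUP1.l) (b.1.2.2 - z).re := by
  have hl := Bd.l_pos
  obtain ⟨h0, c0, hT, hL, hL', h1, h1e, he, he2, h2⟩ := hd
  obtain ⟨z1, z2⟩ := hz
  obtain ⟨θ, hθ⟩ : ∃ θ : ℝ, z.re = (1 + θ) * l := ⟨z.re / l - 1, by field_simp; ring⟩
  have t1 : -h ≤ θ := by
    rw [hθ] at z1
    have := le_of_mul_le_mul_right z1 hl
    linarith
  have t2 : θ ≤ h := by
    rw [hθ] at z2
    have := le_of_mul_le_mul_right z2 hl
    linarith
  have key : ∀ (n : ℤ) (x : ℝ), (n : ℝ) + c ≤ x → x ≤ (n : ℝ) + 1 - c → Dst (c * NUP1.l) (x * l) := by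
    intro n x a1 a2
    refine ⟨n, ?_, ?_⟩
    · nlinarith
    · nlinarith
  have eL : ∀ j t : ℝ, (posL j t - z).re = (-(j + θ)) * l := by
    intro j t
    rw [sub_re, hθ]
    unfold posL vl
    simp
    ring
  have eT : ∀ t : ℝ, (posT t - z).re = (-(3 / 2 + θ)) * l := by
    intro t
    rw [sub_re, hθ]
    unfold posT vl
    simp
    ring
  have eS : ∀ e t : ℝ, (posS e t - z).re = (-(2 + e + θ)) * l := by
    intro e t
    rw [sub_re, hθ]
    unfold posS vl
    simp
    ring
  have eB : ∀ e t : ℝ, (posB e t - z).re = (-(e + θ)) * l := by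
    intro e t
    have := eS e t
    unfold posB
    rw [show posS e t + 2 * (l : ℂ) - z = posS e t - z + ((2 * l : ℝ) : ℂ) by push_cast; ring, add_re, ofReal_re,
      this]
    ring
  have dS : ∀ t : ℝ, Dst (c * NUP1.l) (posS P.e t - z).re := by
    intro t
    rw [eS]
    refine key (-3) _ ?_ ?_ <;> push_cast <;> linarith
  have dB : ∀ t : ℝ, Dst (c * NUP1.l) (posB P.e t - z).re := by
    intro t
    rw [eB]
    refine key (-1) _ ?_ ?_ <;> push_cast <;> linarith
  intro b hb
  unfold cons6 parts6 at hb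
  rcases hk : k6 (O i) with _ | _ | _ | _ | _ | _ <;> rw [hk] at hb <;>
    simp only [List.mem_cons, List.not_mem_nil, or_false] at hb
  · subst hb
    show Dst _ (posL P.jL (ht (O i)) - z).re
    rw [eL]
    refine key (-3) _ ?_ ?_ <;> push_cast <;> linarith
  · subst hb
    show Dst _ (posT (ht (O i)) - z).re
    rw [eT]
    refine key (-2) _ ?_ ?_ <;> push_cast <;> linarith
  · rcases hb with hb | hb <;> subst hb
    · exact dS _
    · exact dB _
  · rcases hb with hb | hb | hb <;> subst hb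
    · exact dS _
    · exact dB _
    · exact dB _
  · subst hb
    show Dst _ (posL P.j1 (ht (O i)) - z).re
    rw [eL]
    refine key (-1) _ ?_ ?_ <;> push_cast <;> linarith
  · subst hb
    show Dst _ (posL P.j2 (ht (O i)) - z).re
    rw [eL]
    refine key (-1) _ ?_ ?_ <;> push_cast <;> linarith

/-! ### the log derivative of the factor of the objects -/

/-- **log derivative of the factor of the objects on a quantum** -/
def LPo6 (P : Par6) (r : ℕ) (O : Fin r → Xo) (s : Bool) (z : ℂ) : ℂ :=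
  ∑ i, ((cons6 P O i).map fun b => (b.2 : ℂ) * lpp s b.1 z).sum

theorem hasDerivAt_list6 (s : Bool) (A : List Part6) {z : ℂ} (h : ∀ b ∈ A, Gen (b.1.2.2 - z)) :
    HasDerivAt (fun z => ppC6 [((s, false, z), 1)] A)
      ((A.map fun b => (b.2 : ℂ) * lpp s b.1 z).sum * ppC6 [((s, false, z), 1)] A) z := by
  induction A with
  | nil =>
    simp only [ppC6_nil_right, List.map_nil, List.sum_nil, zero_mul]
    exact hasDerivAt_const _ _
  | cons a A ih =>
    have h1 := hasDerivAt_pp6 s a (h a (by simp))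
    have h2 := ih fun b hb => h b (by simp [hb])
    have e : (fun z => ppC6 [((s, false, z), 1)] (a :: A)) =
        fun z => pp6 ((s, false, z), 1) a * ppC6 [((s, false, z), 1)] A := by
      funext z
      rw [ppC6_single, ppC6_single, List.map_cons, List.prod_cons]
    have e' : ppC6 [((s, false, z), 1)] (a :: A) = pp6 ((s, false, z), 1) a * ppC6 [((s, false, z), 1)] A :=
      congrFun e z
    rw [e, e']
    refine (h1.mul h2).congr_deriv ?_
    rw [List.map_cons, List.sum_cons]
    ring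

theorem hasDerivAt_potO6 {P : Par6} {h c : ℝ} (hd : DsC P h c) {r : ℕ} (O : Fin r → Xo) (s : Bool) {z : ℂ}
    (hz : z.re ∈ Set.Icc ((1 - h) * l) ((1 + h) * l)) :
    HasDerivAt (potO6 P O s) (LPo6 P r O s z * potO6 P O s z) z := by
  have hl := Bd.l_pos
  have hi : ∀ i ∈ Finset.univ, HasDerivAt (fun z => ppC6 [((s, false, z), 1)] (cons6 P O i))
      (((cons6 P O i).map fun b => (b.2 : ℂ) * lpp s b.1 z).sum * ppC6 [((s, false, z), 1)] (cons6 P O i)) z :=
    fun i _ => hasDerivAt_list6 s _ fun b hb =>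
      (dst_cons6 hd O i hz b hb).gen (mul_pos hd.c0 hl) hd.c1
  have hd' := HasDerivAt.fun_finsetProd hi
  refine hd'.congr_deriv ?_
  unfold LPo6 potO6 potC6
  rw [Finset.sum_mul]
  refine Finset.sum_congr rfl fun i hi' => ?_
  rw [smul_eq_mul, ← Finset.mul_prod_erase Finset.univ _ hi']
  unfold cons6
  ring

/-- the multiplicities of an object -/
theorem mult6_le (P : Par6) (x : Xo) : ((parts6 P x).map fun b => |(b.2 : ℝ)|).sum ≤ 4 := by
  unfold parts6
  rcases k6 x with _ | _ | _ | _ | _ | _ <;> norm_num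

/-- constant of the bound of a log derivative -/
def cLP6 (c : ℝ) : ℝ := 12 / Real.sin (c * NUP1.l)

theorem cLP6_nonneg {P : Par6} {h c : ℝ} (hd : DsC P h c) : 0 ≤ cLP6 c := by
  have hl := Bd.l_pos
  have hc := hd.c0
  have hs : 0 < Real.sin (c * NUP1.l) := Real.sin_pos_of_pos_of_lt_pi (by positivity) (by
    have := Real.pi_gt_three
    have := hd.c1
    linarith)
  unfold cLP6
  positivity

/-- **uniform bound** -/
theorem LPo6_le {P : Par6} {h c : ℝ} (hd : DsC P h c) {r : ℕ} (O : Fin r → Xo) (s : Bool) {z : ℂ}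
    (hz : z.re ∈ Set.Icc ((1 - h) * l) ((1 + h) * l)) : ‖LPo6 P r O s z‖ ≤ 4 * cLP6 c * r := by
  have hl := Bd.l_pos
  have hc0 := cLP6_nonneg hd
  have hL : ∀ A : List Part6, (∀ b ∈ A, Dst (c * NUP1.l) (b.1.2.2 - z).re) →
      ‖(A.map fun b => (b.2 : ℂ) * lpp s b.1 z).sum‖ ≤ (A.map fun b => |(b.2 : ℝ)|).sum * cLP6 c := by
    intro A
    induction A with
    | nil => intro _; simp
    | cons a A ih =>
      intro h
      rw [List.map_cons, List.sum_cons, List.map_cons, List.sum_cons]
      have h1 := lpp_le (mul_pos hd.c0 hl) hd.c1 s a.1 (h a (by simp))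
      have h2 := ih fun b hb => h b (by simp [hb])
      have h3 : ‖(a.2 : ℂ) * lpp s a.1 z‖ ≤ |(a.2 : ℝ)| * cLP6 c := by
        rw [norm_mul, Complex.norm_intCast]
        exact mul_le_mul_of_nonneg_left h1 (abs_nonneg _)
      calc _ ≤ |(a.2 : ℝ)| * cLP6 c + (A.map fun b => |(b.2 : ℝ)|).sum * cLP6 c :=
            (norm_add_le _ _).trans (add_le_add h3 h2)
        _ = _ := by ring
  unfold LPo6
  calc _ ≤ ∑ _i : Fin r, 4 * cLP6 c := norm_sum_le_of_le _ fun i _ => by
        refine (hL _ (dst_cons6 hd O i hz)).trans ?_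
        exact mul_le_mul_of_nonneg_right (mult6_le P (O i)) hc0
    _ = _ := by
        rw [Finset.sum_const, Finset.card_univ, Fintype.card_fin, nsmul_eq_mul]
        ring

theorem measurable_LPo6 (P : Par6) (r : ℕ) (O : Fin r → Xo) (s : Bool) :
    Measurable (LPo6 P r O s) := by
  unfold LPo6
  refine Finset.measurable_sum _ fun i _ => ?_
  generalize cons6 P O i = A
  induction A with
  | nil => simp
  | cons a A ih =>
    simp only [List.map_cons, List.sum_cons]
    exact ((measurable_lpp s a.1).const_mul _).add ih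

/-- **`LogD6` with the closed form of the objects**, from the one body functions of the quanta, curves
in the strip `Ks6 δ` -/
theorem logD_of6 {Z : Bool → Option O3 → ℂ → ℂ} {P : Par6} {δ c : ℝ} (hd : DsC P δ c)
    {LZ : Bool → ℂ → ℂ}
    (dZ : ∀ s (z : ℂ), z.re ∈ Ks6 δ → HasDerivAt (Z s none) (LZ s z * Z s none z) z)
    (mZ : ∀ s, Measurable (LZ s)) (bZ : ∃ B, ∀ s (z : ℂ), z.re ∈ Ks6 δ → ‖LZ s z‖ ≤ B) :
    LogD6 Z P δ LZ (LPo6 P) where
  dZ := dZ
  mZ := mZ
  bZ := bZ
  dP _ O s _ hz := hasDerivAt_potO6 hd O s hz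
  mP r O s := measurable_LPo6 P r O s
  bP r O := ⟨4 * cLP6 c * r, fun s _ hz => LPo6_le hd O s hz⟩

end PHK

end
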