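import Pool.Agent.PHK.Bs6
import Pool.Agent.PHK.GasPot
import Pool.Agent.PLX.NUGC.ClsR4

/-!
# (P): the letters (half quanta with captured objects) as spectators, their classes over any base

* `LT6 q p F`: spectators of a half quantum at `Re = p` (first argument of `F`: own species), rate `q`,
  regular on the differences `[p - 21/20 l, p - 19/20 l]`;
* `LT6.of_HG`: the landed groups (the simple pole of `H` is left of the strip); `lt6_ht`, `lt6_SD`,
  `lt6_one`;
* `adF b k F`: `k : ℤ` quanta (holes for `k < 0`) of the own (`b = true`) or the other species at the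
  half quantum; `LT6.ad`; `lt6_hs`, `lt6_hp`, `lt6_hsg`, `lt6_hpg`: the host group, with a quantum at
  the half quantum, with a hole of the other species, with both;
* **`cls_one6`**: `OneC6` of the class functions of two letters over any base, one body data
  `ob fun a z => ‖sG F F' w w' a z‖`.
-/

set_option autoImplicit false
set_option linter.unusedSectionVars false

noncomputable section

open Complex MeasureTheory Finset
open scoped ENNReal

open PLX (Fil)

namespace PBR.PLX

open NUO NUP1 NUCR NUP1S NUP1S.Ab NUP1S.AbC NUP1S.AbG NURow NUP1.Leg NUGC.PLX PBX PBX.PLX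
open _root_.Pool.Agent.PLX
open PHK

/-- **a letter**: spectators of a half quantum at `Re = p`, rate `q` -/
structure LT6 (q p : ℝ) (F : Bool → Option O3 → ℂ → ℂ) : Prop where
  pb : ∀ c, PB (q * sc (c, .A)) (Set.Icc (p - 21 / 20 * l) (p - 19 / 20 * l)) (F c none)
  ms : ∀ c k, Measurable (F c k)
  kL : ∀ c, F c (some .L) = F c none
  kT : ∀ c, F c (some .T) = F c (some .S)
  mul : MulI F

/-- the landed groups -/
theorem LT6.of_HG {pl : Bool} {q p : ℝ} {F : Bool → Option O3 → ℂ → ℂ} {T : Bool → ℂ → ℂ}
    (h : HG pl q p F T) : LT6 q p F where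
  pb c := by
    have hl := l_pos
    have h1 := (h.pb c).mono (K := Set.Icc (p - 21 / 20 * l) (p - 19 / 20 * l))
      (Set.Icc_subset_Icc le_rfl (by linarith))
    by_cases hc : (pl && c) = true
    · obtain ⟨hp1, hp2⟩ := h.hp (by
        rw [Bool.and_eq_true] at hc
        exact hc.1)
      simp only [hc, if_true] at h1
      have h2 := PB_inv_sin (K := Set.Icc (p - 21 / 20 * l) (p - 19 / 20 * l)) isCompact_Icc 0
        fun d hd => by
          rw [add_zero]
          exact NURow.sin_ne_neg (by linarith [hd.2]) (by linarith [hd.1])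
      refine ((h1.mul h2).fneg.rate (by ring)).congr' fun z => ?_
      rw [h.eq c z]
      simp only [hc, if_true]
      rw [Complex.ofReal_zero, add_zero, Complex.sin_neg, div_neg, mul_one_div]
    · simp only [hc] at h1
      refine (h1.rate (by simp)).congr' fun z => ?_
      rw [h.eq c z]
      simp only [hc]
      simp
  ms := h.ms
  kL := h.kL
  kT := h.kT
  mul := h.mul

theorem lt6_ht (t : HT) : LT6 (htQ t) (htL t) (htF t) := LT6.of_HG (HG_ht t)

theorem lt6_SD : LT6 0 (-(11 / 4) * l) SD := LT6.of_HG HG_SD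

theorem lt6_one (p : ℝ) : LT6 0 p (fun _ _ _ => 1) := LT6.of_HG (HG_one p)

/-! ## quanta and holes at the half quantum -/

/-- `k` quanta of the species `b` (`true` = own) at the half quantum -/
def adF (b : Bool) (k : ℤ) (F : Bool → Option O3 → ℂ → ℂ) (c : Bool) (o : Option O3) (x : ℂ) : ℂ :=
  F c o x * gz (b, .A) (c, ob4 o) x ^ k

theorem mulI_gzA (b c : Bool) {x : ℂ} (hx : x.im ≠ 0) :
    gz (b, .A) (c, .S) x = gz (b, .A) (c, .A) x * gz (b, .A) (c, .A) (x + l) := by
  unfold gz
  by_cases hbc : b = c
  · simp only [if_pos hbc]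
    exact (NUP1.Bd.q_mul_q hx).symm
  · simp only [if_neg hbc]
    rfl

theorem mulI_ad {F : Bool → Option O3 → ℂ → ℂ} (h : MulI F) (b : Bool) (k : ℤ) :
    MulI (adF b k F) := by
  intro c x hx
  show F c (some .S) x * gz (b, .A) (c, .S) x ^ k =
    F c none x * gz (b, .A) (c, .A) x ^ k * (F c none (x + l) * gz (b, .A) (c, .A) (x + l) ^ k)
  rw [h c x hx, mulI_gzA b c hx, mul_zpow]
  ring

theorem adF_zero (b : Bool) (F : Bool → Option O3 → ℂ → ℂ) : adF b 0 F = F := by
  funext c o x
  simp [adF]

/-- the pair function of two quanta, powers -/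
theorem PB_gz_zpow {K : Set ℝ} (hK : IsCompact K) (b c : Bool) (k : ℤ)
    (h : ∀ d ∈ K, Ok (b, .A) (c, .A) d) (h' : k < 0 → ∀ d ∈ K, NzA b c d) :
    PB (k * rt (b, .A) (c, .A)) K fun x => gz (b, .A) (c, .A) x ^ k := by
  rcases lt_or_ge k 0 with hk | hk
  · obtain ⟨n, rfl⟩ : ∃ n : ℕ, k = -(n : ℤ) := ⟨k.natAbs, by omega⟩
    have h1 := (bdd_inv_gz hK b c (h' hk)).pow n
    constructor
    · obtain ⟨C, hC, hb⟩ := h1
      refine ⟨C, hC, fun z hz => ?_⟩
      have := hb z hz
      show ‖gz (b, .A) (c, .A) z ^ (-(n : ℤ))‖ ≤ _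
      rw [zpow_neg, zpow_natCast, ← inv_pow]
      refine this.trans (le_of_eq ?_)
      congr 2
      push_cast
      ring
    · intro z hz
      have hd := differentiableAt_gz (b, .A) (c, .A) (z := z) (h _ hz)
      have hne := gz_ne (z := z) (h _ hz) (h' hk _ hz)
      exact hd.zpow (Or.inl hne)
  · obtain ⟨n, rfl⟩ := Int.eq_ofNat_of_zero_le hk
    have h1 := (bdd_gz hK (b, .A) (c, .A) h).pow n
    constructor
    · obtain ⟨C, hC, hb⟩ := h1
      refine ⟨C, hC, fun z hz => ?_⟩
      have := hb z hz
      show ‖gz (b, .A) (c, .A) z ^ ((n : ℕ) : ℤ)‖ ≤ _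
      rw [zpow_natCast]
      exact this
    · intro z hz
      have hd := differentiableAt_gz (b, .A) (c, .A) (z := z) (h _ hz)
      exact hd.zpow (Or.inr hk)

/-- **quanta and holes at the half quantum**: the rate changes by `± 2 k` -/
theorem LT6.ad {q p : ℝ} {F : Bool → Option O3 → ℂ → ℂ} (h : LT6 q p F) (hp : 1 / 20 * l < p)
    (hp' : p < 19 / 20 * l) (b : Bool) (k : ℤ) :
    LT6 (q + k * if b then 2 else -2) p (adF b k F) where
  pb c := by
    have hl := l_pos
    have h1 := PB_gz_zpow (K := Set.Icc (p - 21 / 20 * l) (p - 19 / 20 * l)) isCompact_Icc b c k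
      (fun d hd s hs => by
        have d1 := hd.1
        have d2 := hd.2
        unfold poles at hs
        by_cases hbc : b = c
        · simp only [if_pos hbc] at hs
          rcases List.mem_cons.1 hs with rfl | hs
          · exact NURow.sin_ne_pos (by linarith) (by linarith)
          · rw [List.mem_singleton] at hs
            subst hs
            exact NURow.sin_ne_neg (by linarith) (by linarith)
        · simp only [if_neg hbc] at hs
          rcases List.mem_cons.1 hs with rfl | hs
          · exact NURow.sin_ne_pos (by linarith) (by linarith)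
          · rw [List.mem_singleton] at hs
            subst hs
            exact NURow.sin_ne_neg (by linarith) (by linarith))
      fun _ d hd => by
        have d1 := hd.1
        have d2 := hd.2
        unfold NzA
        split_ifs
        · refine ⟨?_, ?_, ?_⟩
          · rw [add_zero]
            exact NURow.sin_ne_neg (by linarith) (by linarith)
          · exact NURow.sin_ne_pos (by linarith) (by linarith)
          · exact NURow.sin_ne_neg (by linarith) (by linarith)
        · exact NURow.sin_ne_pos (by linarith) (by linarith)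
    refine ((h.pb c).mul h1).rate ?_
    unfold rt sc
    cases b <;> cases c <;> simp [NUP1.Bd.chg] <;> ring
  ms c o := (h.ms c o).mul (Measurable.pow_const (measurable_gz _ _) k)
  kL c := by
    funext x
    show F c (some .L) x * gz (b, .A) (c, .L) x ^ k = F c none x * gz (b, .A) (c, .A) x ^ k
    rw [h.kL]
    rfl
  kT c := by
    funext x
    show F c (some .T) x * gz (b, .A) (c, .S) x ^ k = F c (some .S) x * gz (b, .A) (c, .S) x ^ k
    rw [h.kT]
  mul := mulI_ad h.mul b k

/-- the host group with `k` own quanta and `k'` quanta of the other species at the half quantum -/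
theorem lt6_host (k k' : ℤ) : LT6 (-3 + k * 2 - k' * 2) (5 / 8 * l)
    (adF false k' (adF true k (hostS false SF))) := by
  have hl := l_pos
  have h1 := (LT6.of_HG HG_host).ad (by linarith) (by linarith) true k
  have h2 := h1.ad (by linarith) (by linarith) false k'
  have e : (-3 + (k : ℝ) * (if true = true then 2 else -2)) + (k' : ℝ) * (if false = true then 2 else -2) =
      -3 + k * 2 - k' * 2 := by
    simp
    ring
  rw [e] at h2
  exact h2

/-! ## two letters -/

section two

variable {P : Par6} {q q' p p' : ℝ} {F F' : Bool → Option O3 → ℂ → ℂ} {w w' : ℂ}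

theorem specAt_two6 (hF : LT6 q p F) (hF' : LT6 q' p' F') (hw : w.re = p) (hw' : w'.re = p')
    {aX aY : ℕ} (hq : q' - q = 2 * ((aX : ℝ) - aY)) (a : Bool) :
    SpecAt (19 / 20 * l) a (((aX : ℤ) - aY : ℤ) : ℝ) (sG F F' w w' a) := by
  have h1 := (hF.pb a).one w (K := Set.Icc (19 / 20 * l) (21 / 20 * l)) fun x hx => by
    rw [hw]
    exact ⟨by linarith [hx.2], by linarith [hx.1]⟩
  have h2 := (hF'.pb (!a)).one w' (K := Set.Icc (19 / 20 * l) (21 / 20 * l)) fun x hx => by
    rw [hw']
    exact ⟨by linarith [hx.2], by linarith [hx.1]⟩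
  have h3 := (h1.mul h2).rate (s' := -(2 * (((aX : ℤ) - aY : ℤ) : ℝ) * sc (a, .A))) (by
      have e : sc (!a, .A) = -sc (a, .A) := by cases a <;> simp [sc]
      rw [e]
      push_cast
      have : (q - q') * sc (a, .A) = -(2 * ((aX : ℝ) - aY) * sc (a, .A)) := by
        rw [← hq]
        ring
      linarith)
  exact ⟨h3.1, h3.2⟩

theorem specS_two6 (hF : LT6 q p F) (hF' : LT6 q' p' F') (a : Bool) :
    SpecS6 P {w.im, w'.im} (sG F F' w w' a) (s2G F F' w w' a) := by
  have key : ∀ u : ℂ, u.im ∉ ({w.im, w'.im} : Set ℝ) → ‖s2G F F' w w' a u‖ ≤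
      ‖sG F F' w w' a u‖ * ‖sG F F' w w' a (u - l)‖ := by
    intro u hu
    rw [← norm_mul]
    refine le_of_eq ?_
    congr 1
    exact mul2_of hF.mul hF'.mul a w w' u hu
  refine ⟨fun t ht => key _ ?_, fun t ht => key _ ?_⟩
  · have : (posT t).im = t := by
      unfold posT vl
      simp
    rwa [this]
  · have : (posS P.e t).im = t := by
      unfold posS vl
      simp
    rwa [this]

theorem measurable_sG (hF : LT6 q p F) (hF' : LT6 q' p' F') (w w' : ℂ) (a : Bool) :
    Measurable (sG F F' w w' a) :=
  ((hF.ms a none).comp (measurable_const.sub measurable_id)).mul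
    ((hF'.ms (!a) none).comp (measurable_const.sub measurable_id))

theorem measurable_s2G (hF : LT6 q p F) (hF' : LT6 q' p' F') (w w' : ℂ) (a : Bool) :
    Measurable (s2G F F' w w' a) :=
  ((hF.ms a _).comp (measurable_const.sub measurable_id)).mul
    ((hF'.ms (!a) _).comp (measurable_const.sub measurable_id))

/-- the class functions of two letters -/
theorem spX_two (X : Bool → Option O3 → ℂ → ℂ) (hF : LT6 q p F) (hF' : LT6 q' p' F') (w w' : ℂ) :
    (fun a => spX (X a) (sG F F' w w' a) (s2G F F' w w' a)) =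
      fun a => XS a (X a) F (fl F') w w' := by
  funext a
  exact spX_XS a (X a) (S := F) (S' := fl F') (hF.kL a) (hF.kT a) (hF'.kL _) (hF'.kT _) w w'

variable {X : Bool → Option O3 → ℂ → ℂ} {ob : (Bool → ℂ → ℝ) → OB} {x κ : ℝ} {e : ℕ} {E0 : Set ℝ}

/-- **the class functions of two letters are bounded by the one body data, any base** -/
theorem cls_one6 (hB : Bs6 X ob P x κ e E0) (hF : LT6 q p F) (hF' : LT6 q' p' F') (hw : w.re = p)
    (hw' : w'.re = p') {aX aY : ℕ} (hq : q' - q = 2 * ((aX : ℝ) + e - aY)) :
    OneC6 (fun a => XS a (X a) F (fl F') w w') (ob fun a z => ‖sG F F' w w' a z‖) P x κ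
      (19 / 20 * l) ((aX : ℤ) - aY) ({w.im, w'.im} ∪ E0) := by
  have hl := l_pos
  have h := hB.one (19 / 20 * l) (by linarith) le_rfl (((aX + e : ℕ) : ℤ) - aY)
    (sG F F' w w') (s2G F F' w w') {w.im, w'.im} (measurable_sG hF hF' w w')
    (measurable_s2G hF hF' w w')
    (specAt_two6 hF hF' hw hw' (by rw [hq]; push_cast; ring)) (specS_two6 hF hF')
    ((Set.toFinite _).measure_zero _)
  rw [spX_two X hF hF' w w'] at h
  have e1 : ((aX + e : ℕ) : ℤ) - aY - e = (aX : ℤ) - aY := by push_cast; ring
  rw [e1] at h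
  exact h

end two

end PBR.PLX

end
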