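import Pool.Agent.PHK.ConfM
import Pool.Agent.PHK.Cst6

/-!
# (P): measurability of the insertions (helper61)

* `measurable_obF6`, `measurable_obT6`: the multiplicative factor, the additive statistic of an object;
* **`MIn.Fa6`, `MIn.stA6`, `MIn.stO6`**: the insertions (`MC6.of` is in `PHK/ConfM`).
-/

set_option autoImplicit false
set_option linter.unusedSectionVars false

noncomputable section

open Complex MeasureTheory Finset
open scoped ENNReal
open PLX (Fil)

namespace PHK

open NUO NUP1 NUP1S NUP1S.Ab NUP1S.AbC NUGC NUGC.PLX NUCR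
open PBF.PLX (gK Ins Crs MCr MIn stQ quF)

variable {Z : Bool → Option O3 → ℂ → ℂ} (hZ : ∀ s k, Measurable (Z s k))

include hZ

theorem measurable_obF6 (P : Par6) : Measurable (obF6 Z P) := by
  have h := measurable_of6 (F := fun (k : Bool × Kd6) (t : ℝ) =>
    ((cstK P k t).map fun c => Z c.1.1.1 c.1.1.2 c.1.2 ^ c.2).prod) fun k => by
      obtain ⟨L, hL, h1⟩ := exists_evz P k (Y := ℝ) measurable_id
      simp only [id] at h1
      unfold cstK
      simp only [h1]
      exact measurable_cstL hZ k.2 hL
  refine (congrArg Measurable (funext fun x => ?_)).mpr h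
  unfold obF6
  rw [cst6_eq]

theorem measurable_cstT {Y : Type*} [MeasurableSpace Y] (k : Kd6)
    {L : List ((Bool × Bool × (Y → ℂ)) × ℤ)} (hL : ∀ p ∈ L, Measurable p.1.2.2) :
    Measurable fun y => (((evz L y).map fun a : Part6 =>
      ((((a.1.1, zk6 k a.1.2.1), a.1.2.2), a.2) : Cst6)).map
        fun c => (c.2 : ℂ) * Z c.1.1.1 c.1.1.2 c.1.2).sum := by
  induction L with
  | nil => exact measurable_const
  | cons a L ih =>
    have h1 := ih fun p hp => hL p (List.mem_cons_of_mem _ hp)
    have h2 : Measurable fun y => (a.2 : ℂ) * Z a.1.1 (zk6 k a.1.2.1) (a.1.2.2 y) :=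
      ((hZ a.1.1 (zk6 k a.1.2.1)).comp (hL a List.mem_cons_self)).const_mul (a.2 : ℂ)
    exact h2.add h1

theorem measurable_obT6 (P : Par6) : Measurable (obT6 Z P) := by
  have h := measurable_of6 (F := fun (k : Bool × Kd6) (t : ℝ) =>
    ((cstK P k t).map fun c => (c.2 : ℂ) * Z c.1.1.1 c.1.1.2 c.1.2).sum) fun k => by
      obtain ⟨L, hL, h1⟩ := exists_evz P k (Y := ℝ) measurable_id
      simp only [id] at h1
      unfold cstK
      simp only [h1]
      exact measurable_cstT hZ k.2 hL
  refine (congrArg Measurable (funext fun x => ?_)).mpr h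
  unfold obT6
  rw [cst6_eq]

variable [Fil] {η η' : Crs}

/-- **the statistic of the objects** -/
theorem MIn.stO6 {P : Par6} : MIn fun _ O _ _ _ => PHK.stO6 Z P O := fun _ _ _ =>
  (Finset.measurable_fun_sum _ fun i _ => (measurable_obT6 hZ P).comp
    (measurable_pi_apply i)).comp measurable_fst

theorem measurable_qs6 {r : ℕ} (hc : MCr η η') (c : Bool) : Measurable fun p : (Fin r → Xo) × ℝ =>
    Z c none (NUO.pA (Fil.cv c (η r p.1)) p.2) := by
  have h0 := Fil.measurable_cv_uncurry c (hc.m r)
  have hpos : Measurable fun p : (Fin r → Xo) × ℝ => NUO.pA (Fil.cv c (η r p.1)) p.2 := by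
    unfold NUO.pA vl
    fun_prop
  exact (hZ c none).comp hpos

/-- **the total statistic** -/
theorem MIn.stA6 {P : Par6} (hc : MCr η η') : MIn (PHK.stA6 Z P η) := by
  intro r a b
  have h1 := MIn.stO6 hZ (P := P) r a b
  have h2 : Measurable fun p : (Fin r → Xo) × ((Fin a → ℝ) × (Fin b → ℝ)) =>
      ∑ i, Z true none (NUO.pA (Fil.cv true (η r p.1)) (p.2.1 i)) := by
    refine Finset.measurable_fun_sum _ fun i _ => ?_
    have e1 : Measurable fun p : (Fin r → Xo) × ((Fin a → ℝ) × (Fin b → ℝ)) =>
        (p.1, p.2.1 i) := measurable_fst.prodMk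
      ((measurable_pi_apply i).comp (measurable_fst.comp measurable_snd))
    refine (congrArg Measurable (funext fun p => ?_)).mpr ((measurable_qs6 (r := r) hZ hc true).comp e1)
    rfl
  have h3 : Measurable fun p : (Fin r → Xo) × ((Fin a → ℝ) × (Fin b → ℝ)) =>
      ∑ i, Z false none (NUO.pA (Fil.cv false (η r p.1)) (p.2.2 i)) := by
    refine Finset.measurable_fun_sum _ fun i _ => ?_
    have e1 : Measurable fun p : (Fin r → Xo) × ((Fin a → ℝ) × (Fin b → ℝ)) =>
        (p.1, p.2.2 i) := measurable_fst.prodMk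
      ((measurable_pi_apply i).comp (measurable_snd.comp measurable_snd))
    refine (congrArg Measurable (funext fun p => ?_)).mpr ((measurable_qs6 (r := r) hZ hc false).comp e1)
    rfl
  exact h1.add (h2.add h3)

/-- **the multiplicative insertion** -/
theorem MIn.Fa6 {P : Par6} (hc : MCr η η') : MIn (PHK.Fa6 Z P η) := by
  intro r a b
  have h1 : Measurable fun p : (Fin r → Xo) × ((Fin a → ℝ) × (Fin b → ℝ)) =>
      ∏ i, obF6 Z P (p.1 i) :=
    (Finset.measurable_fun_prod _ fun i _ => (measurable_obF6 hZ P).comp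
      (measurable_pi_apply i)).comp measurable_fst
  have h2 : Measurable fun p : (Fin r → Xo) × ((Fin a → ℝ) × (Fin b → ℝ)) =>
      ∏ i, Z true none (NUO.pA (Fil.cv true (η r p.1)) (p.2.1 i)) := by
    refine Finset.measurable_fun_prod _ fun i _ => ?_
    have e1 : Measurable fun p : (Fin r → Xo) × ((Fin a → ℝ) × (Fin b → ℝ)) =>
        (p.1, p.2.1 i) := measurable_fst.prodMk
      ((measurable_pi_apply i).comp (measurable_fst.comp measurable_snd))
    refine (congrArg Measurable (funext fun p => ?_)).mpr ((measurable_qs6 (r := r) hZ hc true).comp e1)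
    rfl
  have h3 : Measurable fun p : (Fin r → Xo) × ((Fin a → ℝ) × (Fin b → ℝ)) =>
      ∏ i, Z false none (NUO.pA (Fil.cv false (η r p.1)) (p.2.2 i)) := by
    refine Finset.measurable_fun_prod _ fun i _ => ?_
    have e1 : Measurable fun p : (Fin r → Xo) × ((Fin a → ℝ) × (Fin b → ℝ)) =>
        (p.1, p.2.2 i) := measurable_fst.prodMk
      ((measurable_pi_apply i).comp (measurable_snd.comp measurable_snd))
    refine (congrArg Measurable (funext fun p => ?_)).mpr ((measurable_qs6 (r := r) hZ hc false).comp e1)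
    rfl
  exact h1.mul (h2.mul h3)

end PHK

end
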