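import Pool.Agent.PHK.Lab

/-!
# The class formula of (P): from the words of the two species and their holes to the configurations

The letters of an object are `Ka6` (`L`, `T`, `E`, `F`), the letters of a hole are `Bool` (`true` = `H1`,
`false` = `H2`).
* `card_leI`, `r_leI`: the number of objects of a family which satisfies the conditions of numbers;
* `intI`: the integral over the heights of the term of a family of labels, `intI_equiv`, `intI_zero`;
* **`merge_fI`**: the sum over all words of objects and holes of the two species = the sum over the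
  configurations;
* **`merge_fIS`**: the same with letters `O3` and the set of the strings with a glued hole.
-/

set_option autoImplicit false
set_option linter.unusedSectionVars false

noncomputable section

open Complex MeasureTheory Finset
open scoped ENNReal Nat

namespace PHK

open NUO NUP1 NUP1S NUP1S.Mg

/-! ### letters -/

/-- the letters of an object of a word -/
inductive Ka6
  | L | T | E | F
  deriving DecidableEq

instance : Fintype Ka6 := ⟨{.L, .T, .E, .F}, fun x => by cases x <;> decide⟩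

/-- the kind of a letter of an object -/
def kdA : Ka6 → Kd6
  | .L => .L
  | .T => .T
  | .E => .E
  | .F => .F

/-- the kind of a letter of a hole -/
def kdH : Bool → Kd6
  | true => .H1
  | false => .H2

/-- letters and labels -/
def labE : (Bool × Ka6) ⊕ (Bool × Bool) ≃ Bool × Kd6 where
  toFun x := match x with
    | .inl (s, a) => (s, kdA a)
    | .inr (s, b) => (s, kdH b)
  invFun x := match x with
    | (s, .L) => .inl (s, .L)
    | (s, .T) => .inl (s, .T)
    | (s, .E) => .inl (s, .E)
    | (s, .F) => .inl (s, .F)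
    | (s, .H1) => .inr (s, true)
    | (s, .H2) => .inr (s, false)
  left_inv := by
    rintro (⟨s, a⟩ | ⟨s, b⟩)
    · cases a <;> rfl
    · cases b <;> rfl
  right_inv := by
    rintro ⟨s, k⟩
    cases k <;> rfl

/-- the labels of a word: objects X, Y, holes X, Y -/
def labW {p p' a b : ℕ} (k : Fin p → Ka6) (k' : Fin p' → Ka6) (s : Fin a → Bool)
    (s' : Fin b → Bool) : (Fin p ⊕ Fin p') ⊕ (Fin a ⊕ Fin b) → Bool × Kd6 :=
  Sum.elim (Sum.elim (fun i => (true, kdA (k i))) (fun i => (false, kdA (k' i))))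
    (Sum.elim (fun i => (true, kdH (s i))) (fun i => (false, kdH (s' i))))

theorem labW_eq {p p' a b : ℕ} (k : Fin p → Ka6) (k' : Fin p' → Ka6) (s : Fin a → Bool)
    (s' : Fin b → Bool) :
    (fun i => labE (Sum.map (wd2 k k') (wd2 s s') i)) = labW k k' s s' := by
  funext i
  rcases i with (i | i) | (i | i) <;> rfl

/-! ### number of objects -/

section card
variable {ι : Type*} [Fintype ι]

theorem card_leI {O : ι → Xo} (hO : cntI O) :
    2 * (Fintype.card ι : ℤ) ≤ 3 * (qI O true + qI O false) := by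
  have h1 := hO true
  have h2 := hO false
  have key : ∀ x : Xo, (2 : ℤ) ≤ 3 * (chg6 true x + chg6 false x) +
      5 * (((hl6 true x : ℤ) + hl6 false x) - ((sat6 true x : ℤ) + sat6 false x)) := by
    intro x
    unfold chg6 hl6 sat6
    cases k6 x <;> cases sp x <;> simp
  have h3 : ∑ i : ι, (2 : ℤ) ≤ ∑ i, (3 * (chg6 true (O i) + chg6 false (O i)) +
      5 * (((hl6 true (O i) : ℤ) + hl6 false (O i)) - ((sat6 true (O i) : ℤ) + sat6 false (O i)))) :=
    Finset.sum_le_sum fun i _ => key (O i)
  rw [Finset.sum_const, Finset.card_univ, nsmul_eq_mul] at h3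
  simp only [Finset.sum_add_distrib, ← Finset.mul_sum, Finset.sum_sub_distrib] at h3
  have h4 : (∑ i, (hl6 true (O i) : ℤ)) ≤ ∑ i, (sat6 true (O i) : ℤ) := by exact_mod_cast h1
  have h5 : (∑ i, (hl6 false (O i) : ℤ)) ≤ ∑ i, (sat6 false (O i) : ℤ) := by exact_mod_cast h2
  unfold qI
  linarith

theorem r_leI {O : ι → Xo} {n n' : ℕ} (hX : qI O true ≤ n) (hY : qI O false ≤ n')
    (h : cntI O) : Fintype.card ι ≤ 2 * (n + n') := by
  have := card_leI h
  omega

/-- the charges are nonnegative -/
theorem qI_nonneg {O : ι → Xo} (hO : cntI O) (s : Bool) : 0 ≤ qI O s := by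
  have h1 := hO s
  have key : ∀ x : Xo, (sat6 s x : ℤ) - hl6 s x ≤ chg6 s x := by
    intro x
    unfold chg6 hl6 sat6
    cases k6 x <;> cases sp x <;> cases s <;> simp
  have h3 : ∑ i, ((sat6 s (O i) : ℤ) - hl6 s (O i)) ≤ ∑ i, chg6 s (O i) :=
    Finset.sum_le_sum fun i _ => key (O i)
  rw [Finset.sum_sub_distrib] at h3
  have h4 : (∑ i, (hl6 s (O i) : ℤ)) ≤ ∑ i, (sat6 s (O i) : ℤ) := by exact_mod_cast h1
  unfold qI
  linarith

/-- the term of a family with too many objects vanishes -/
theorem fI_zero (Z : Bool → Option O3 → ℂ → ℂ) (P : Par6) (y : ℝ) {n n' : ℕ} (O : ι → Xo)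
    (h : 2 * (n + n') < Fintype.card ι) : fI Z P y n n' O = 0 := by
  unfold fI
  rw [if_neg]
  rintro ⟨h1, h2, h3⟩
  exact absurd (r_leI h1 h2 h3) (not_le.2 h)

end card

/-! ### integrals over the heights -/

section ints

/-- mass of a family of labels -/
def mI6 {ι : Type*} [Fintype ι] (K : ι → Bool × Kd6) : ℂ := ∏ i, ((mk6 (K i).2).toReal : ℂ)

/-- **the integral of the term of a family of labels over the heights** -/
def intI (Z : Bool → Option O3 → ℂ → ℂ) (P : Par6) (y : ℝ) (n n' : ℕ) {ι : Type*} [Fintype ι]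
    (K : ι → Bool × Kd6) : ℂ :=
  mI6 K * ∫ t : ι → ℝ, fI Z P y n n' (fun i => xo (K i) (t i)) ∂(Measure.pi fun _ => volume)

variable (Z : Bool → Option O3 → ℂ → ℂ) (P : Par6) (y : ℝ) (n n' : ℕ)
variable {ι ι' : Type*} [Fintype ι] [Fintype ι']

theorem int_reidx (e : ι ≃ ι') (F : (ι → ℝ) → ℂ) :
    ∫ t : ι' → ℝ, F (fun i => t (e i)) ∂(Measure.pi fun _ => volume) =
      ∫ t : ι → ℝ, F t ∂(Measure.pi fun _ => volume) := by
  have h := measurePreserving_piCongrLeft (α := fun _ : ι' => ℝ)
    (fun _ : ι' => (volume : Measure ℝ)) e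
  have h2 := h.integral_comp' (fun t : ι' → ℝ => F fun i => t (e i))
  rw [← h2]
  refine integral_congr_ae (Filter.Eventually.of_forall fun t => ?_)
  simp only
  congr 1
  funext i
  exact Equiv.piCongrLeft_apply_apply (fun _ : ι' => ℝ) e t i

theorem intI_equiv (e : ι ≃ ι') (K : ι' → Bool × Kd6) :
    intI Z P y n n' (fun i => K (e i)) = intI Z P y n n' K := by
  unfold intI mI6
  rw [← int_reidx e, e.prod_comp fun i => ((mk6 (K i).2).toReal : ℂ)]
  congr 1
  refine integral_congr_ae (Filter.Eventually.of_forall fun t => ?_)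
  exact fI_equiv Z P y n n' e fun i => xo (K i) (t i)

theorem intI_zero (K : ι → Bool × Kd6) (h : 2 * (n + n') < Fintype.card ι) :
    intI Z P y n n' K = 0 := by
  unfold intI
  simp only [fI_zero Z P y _ h, integral_zero, mul_zero]

variable {Z P y n n'}

/-- the integral over the configurations -/
theorem int_fI {r : ℕ} (hI : ∀ K : Fin r → Bool × Kd6, Integrable
      (fun t : Fin r → ℝ => fI Z P y n n' fun i => xo (K i) (t i)) (Measure.pi fun _ => volume)) :
    ∫ O : Fin r → Xo, fI Z P y n n' O ∂(Measure.pi fun _ => nu) =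
      ∑ K : Fin r → Bool × Kd6, intI Z P y n n' K := by
  have h := int_nu6 (F := fun (K : Fin r → Bool × Kd6) (t : Fin r → ℝ) =>
    fI Z P y n n' fun i => xo (K i) (t i)) hI
  unfold intI mI6
  rw [← h]
  exact integral_congr_ae (Filter.Eventually.of_forall fun O => fI_xo Z P y n n' O)

/-- **from the words to the configurations** -/
theorem merge_fI (hI : ∀ (r : ℕ) (K : Fin r → Bool × Kd6), Integrable
      (fun t : Fin r → ℝ => fI Z P y n n' fun i => xo (K i) (t i)) (Measure.pi fun _ => volume))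
    {N : ℕ} (hN : 2 * (n + n') ≤ N) :
    ∑ p ∈ range (N + 1), ∑ p' ∈ range (N + 1), ((p ! : ℕ) : ℂ)⁻¹ * ((p' ! : ℕ) : ℂ)⁻¹ *
      ∑ k : Fin p → Ka6, ∑ k' : Fin p' → Ka6,
      ∑ a ∈ range (N + 1), ∑ b ∈ range (N + 1), ((a ! : ℕ) : ℂ)⁻¹ * ((b ! : ℕ) : ℂ)⁻¹ *
        ∑ s : Fin a → Bool, ∑ s' : Fin b → Bool, intI Z P y n n' (labW k k' s s') =
    ∑ r ∈ range (2 * (n + n') + 1), ((r ! : ℕ) : ℂ)⁻¹ *
      ∫ O : Fin r → Xo, fI Z P y n n' O ∂(Measure.pi fun _ => nu) := by
  have h4 := merge4 (A := Ka6) (B := Bool) (fun r => ((r ! : ℕ) : ℂ)⁻¹) inv_factC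
    (fun (i : Type) (_ : Fintype i) (k : i → (Bool × Ka6) ⊕ (Bool × Bool)) =>
      intI Z P y n n' fun j => labE (k j))
    (fun i i' _ _ e k => intI_equiv Z P y n n' e fun j => labE (k j)) N
    (fun p p' a b k k' s s' h => by
      refine intI_zero Z P y n n' _ ?_
      simp only [Fintype.card_sum, Fintype.card_fin]
      omega)
  simp only [labW_eq] at h4
  rw [h4]
  -- the range
  have hsub : range (2 * (n + n') + 1) ⊆ range (4 * N + 1) := by
    intro r hr
    rw [mem_range] at hr ⊢
    omega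
  rw [← sum_subset hsub fun r _ hr => ?_]
  · refine sum_congr rfl fun r _ => ?_
    rw [int_fI (hI r)]
    congr 1
    exact Fintype.sum_equiv (Equiv.arrowCongr (Equiv.refl (Fin r)) labE) _ _ fun k => rfl
  · rw [mem_range, not_lt] at hr
    rw [sum_eq_zero fun k _ => ?_, mul_zero]
    refine intI_zero Z P y n n' _ ?_
    rw [Fintype.card_fin]
    omega

end ints

/-! ### the strings with a glued hole -/

/-- the letter of an object: `d` = glued hole -/
def kaD (k : O3) (d : Bool) : Ka6 :=
  match k with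
  | .L => .L
  | .T => .T
  | .S => if d then .F else .E

/-- the letter without the glued hole -/
def kaO : Ka6 → O3
  | .L => .L
  | .T => .T
  | .E => .S
  | .F => .S

/-- the strings of a word -/
def strS {p : ℕ} (k : Fin p → O3) : Finset (Fin p) := univ.filter fun i => k i = .S

theorem sum_ka {M : Type*} [AddCommMonoid M] {p : ℕ} (f : (Fin p → Ka6) → M) :
    ∑ κ : Fin p → Ka6, f κ =
      ∑ k : Fin p → O3, ∑ D ∈ (strS k).powerset, f fun i => kaD (k i) (decide (i ∈ D)) := by
  classical
  rw [sum_sigma' (s := (univ : Finset (Fin p → O3))) (t := fun k => (strS k).powerset)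
    (f := fun k D => f fun i => kaD (k i) (decide (i ∈ D)))]
  refine sum_bij' (fun κ _ => (⟨fun i => kaO (κ i), univ.filter fun i => κ i = .F⟩ :
      (_ : Fin p → O3) × Finset (Fin p)))
    (fun x _ => fun i => kaD (x.1 i) (decide (i ∈ x.2))) ?_ ?_ ?_ ?_ ?_
  · intro κ _
    rw [mem_sigma]
    refine ⟨mem_univ _, ?_⟩
    rw [mem_powerset]
    intro i hi
    have h : κ i = .F := (mem_filter.1 hi).2
    unfold strS
    rw [mem_filter]
    refine ⟨mem_univ _, ?_⟩
    simp only [h, kaO]
  · intro x _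
    exact mem_univ _
  · intro κ _
    funext i
    simp only [mem_filter, mem_univ, true_and]
    rcases h : κ i with _ | _ | _ | _ <;> simp [kaO, kaD]
  · rintro ⟨k, D⟩ hx
    rw [mem_sigma, mem_powerset] at hx
    have hD := hx.2
    have hk : ∀ i, i ∈ D → k i = .S := fun i hi => (mem_filter.1 (hD hi)).2
    have e1 : (fun i => kaO (kaD (k i) (decide (i ∈ D)))) = k := by
      funext i
      rcases h : k i with _ | _ | _
      · rfl
      · by_cases hi : i ∈ D
        · simp [kaD, kaO, hi]
        · simp [kaD, kaO, hi]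
      · rfl
    have e2 : (univ.filter fun i => kaD (k i) (decide (i ∈ D)) = .F) = D := by
      ext i
      simp only [mem_filter, mem_univ, true_and]
      constructor
      · intro h
        by_contra hi
        rcases hh : k i with _ | _ | _ <;> simp [kaD, hh, hi] at h
      · intro hi
        simp [kaD, hk i hi, hi]
    simp only [e1, e2]
  · intro κ _
    congr 1
    funext i
    simp only [mem_filter, mem_univ, true_and]
    rcases h : κ i with _ | _ | _ | _ <;> simp [kaO, kaD]

/-- **from the words to the configurations**, letters `O3`, sets of the strings with a glued hole -/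
theorem merge_fIS {Z : Bool → Option O3 → ℂ → ℂ} {P : Par6} {y : ℝ} {n n' : ℕ}
    (hI : ∀ (r : ℕ) (K : Fin r → Bool × Kd6), Integrable
      (fun t : Fin r → ℝ => fI Z P y n n' fun i => xo (K i) (t i)) (Measure.pi fun _ => volume))
    {N : ℕ} (hN : 2 * (n + n') ≤ N) :
    ∑ p ∈ range (N + 1), ∑ p' ∈ range (N + 1), ((p ! : ℕ) : ℂ)⁻¹ * ((p' ! : ℕ) : ℂ)⁻¹ *
      ∑ k : Fin p → O3, ∑ k' : Fin p' → O3, ∑ D ∈ (strS k).powerset, ∑ D' ∈ (strS k').powerset,
      ∑ a ∈ range (N + 1), ∑ b ∈ range (N + 1), ((a ! : ℕ) : ℂ)⁻¹ * ((b ! : ℕ) : ℂ)⁻¹ *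
        ∑ s : Fin a → Bool, ∑ s' : Fin b → Bool, intI Z P y n n'
          (labW (fun i => kaD (k i) (decide (i ∈ D))) (fun i => kaD (k' i) (decide (i ∈ D'))) s s') =
    ∑ r ∈ range (2 * (n + n') + 1), ((r ! : ℕ) : ℂ)⁻¹ *
      ∫ O : Fin r → Xo, fI Z P y n n' O ∂(Measure.pi fun _ => nu) := by
  rw [← merge_fI hI hN]
  refine sum_congr rfl fun p _ => sum_congr rfl fun p' _ => ?_
  congr 1
  rw [sum_ka]
  refine sum_congr rfl fun k _ => ?_
  rw [sum_comm]
  refine sum_congr rfl fun D _ => ?_
  rw [sum_ka]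

end PHK

end
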