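import Pool.Agent.PHK.ClsEqW

/-!
# The class formula of (P) for any term: from the words to the configurations

`T ι O` = term of a family of objects (for the classes with fixed points: a finite sum of terms `fI` of
several class functions times insertions which depend on the objects).
* `q3I O s`: the charge of the words: `L` 1, `S` 2, `T` 2 of the own species; `q3I_lab`;
* **`TOk`**: conditions on the term; `intT`, `mergeT`, `mergeTS`;
* `WordIdT`: the identity of one word with the term `T`; **`ZobjQ_of_wordT`**.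
-/

set_option autoImplicit false
set_option linter.unusedSectionVars false
set_option linter.unusedVariables false

noncomputable section

open Complex MeasureTheory Finset
open scoped ENNReal Nat

namespace PHK

open NUO NUP1 NUP1S NUP1S.Mg NURow NUCR
open NUP1.Bd (wt)

/-- a term of families of objects -/
abbrev Trm : Type 1 := ∀ (ι : Type) [Fintype ι], (ι → Xo) → ℂ

/-- the charge of a word of a family -/
def q3I {ι : Type*} [Fintype ι] (O : ι → Xo) (s : Bool) : ℤ :=
  qI O s + ((∑ i, hl6 s (O i) : ℕ) : ℤ) - ((∑ i, sat6 s (O i) : ℕ) : ℤ)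

theorem q3I_equiv {ι ι' : Type*} [Fintype ι] [Fintype ι'] (e : ι ≃ ι') (O : ι' → Xo) (s : Bool) :
    q3I (fun i => O (e i)) s = q3I O s := by
  unfold q3I
  rw [qI_equiv, e.sum_comp fun i => hl6 s (O i), e.sum_comp fun i => sat6 s (O i)]

/-- **conditions on a term** -/
structure TOk (T : Trm) (N0 n n' : ℕ) : Prop where
  equiv : ∀ {ι ι' : Type} [Fintype ι] [Fintype ι'] (e : ι ≃ ι') (O : ι' → Xo),
    T ι (fun i => O (e i)) = T ι' O
  xo : ∀ {ι : Type} [Fintype ι] (O : ι → Xo),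
    T ι O = T ι fun i => PHK.xo (sp (O i), k6 (O i)) (ht (O i))
  zero : ∀ {ι : Type} [Fintype ι] (O : ι → Xo), N0 < Fintype.card ι → T ι O = 0
  int : ∀ {ι : Type} [Fintype ι] (K : ι → Bool × Kd6),
    Integrable (fun t : ι → ℝ => T ι fun i => PHK.xo (K i) (t i)) (Measure.pi fun _ => volume)
  chg : ∀ {ι : Type} [Fintype ι] (O : ι → Xo), T ι O ≠ 0 → q3I O true ≤ n ∧ q3I O false ≤ n'

/-! ### integrals over the heights -/

/-- the integral of the term of a family of labels over the heights -/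
def intT (T : Trm) {ι : Type} [Fintype ι] (K : ι → Bool × Kd6) : ℂ :=
  mI6 K * ∫ t : ι → ℝ, T ι (fun i => xo (K i) (t i)) ∂(Measure.pi fun _ => volume)

section ints
variable {T : Trm} {N0 n n' : ℕ}

theorem intT_equiv (h : TOk T N0 n n') {ι ι' : Type} [Fintype ι] [Fintype ι'] (e : ι ≃ ι')
    (K : ι' → Bool × Kd6) : intT T (fun i => K (e i)) = intT T K := by
  unfold intT mI6
  rw [← int_reidx e, e.prod_comp fun i => ((mk6 (K i).2).toReal : ℂ)]
  congr 1
  refine integral_congr_ae (Filter.Eventually.of_forall fun t => ?_)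
  exact h.equiv e fun i => xo (K i) (t i)

theorem intT_zero (h : TOk T N0 n n') {ι : Type} [Fintype ι] (K : ι → Bool × Kd6)
    (hN : N0 < Fintype.card ι) : intT T K = 0 := by
  unfold intT
  have : ∀ t : ι → ℝ, T ι (fun i => xo (K i) (t i)) = 0 := fun t => h.zero _ hN
  simp only [this, integral_zero, mul_zero]

/-- the integral over the configurations -/
theorem int_T (h : TOk T N0 n n') (r : ℕ) :
    ∫ O : Fin r → Xo, T (Fin r) O ∂(Measure.pi fun _ => nu) =
      ∑ K : Fin r → Bool × Kd6, intT T K := by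
  have h1 := int_nu6 (F := fun (K : Fin r → Bool × Kd6) (t : Fin r → ℝ) =>
    T (Fin r) fun i => xo (K i) (t i)) fun K => h.int K
  unfold intT mI6
  rw [← h1]
  exact integral_congr_ae (Filter.Eventually.of_forall fun O => h.xo O)

/-- **from the words to the configurations** -/
theorem mergeT (h : TOk T N0 n n') {N : ℕ} (hN : N0 ≤ N) :
    ∑ p ∈ range (N + 1), ∑ p' ∈ range (N + 1), ((p ! : ℕ) : ℂ)⁻¹ * ((p' ! : ℕ) : ℂ)⁻¹ *
      ∑ k : Fin p → Ka6, ∑ k' : Fin p' → Ka6,
      ∑ a ∈ range (N + 1), ∑ b ∈ range (N + 1), ((a ! : ℕ) : ℂ)⁻¹ * ((b ! : ℕ) : ℂ)⁻¹ *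
        ∑ s : Fin a → Bool, ∑ s' : Fin b → Bool, intT T (labW k k' s s') =
    ∑ r ∈ range (N0 + 1), ((r ! : ℕ) : ℂ)⁻¹ *
      ∫ O : Fin r → Xo, T (Fin r) O ∂(Measure.pi fun _ => nu) := by
  have h4 := merge4 (A := Ka6) (B := Bool) (fun r => ((r ! : ℕ) : ℂ)⁻¹) inv_factC
    (fun (i : Type) (_ : Fintype i) (k : i → (Bool × Ka6) ⊕ (Bool × Bool)) =>
      intT T fun j => labE (k j))
    (fun i i' _ _ e k => intT_equiv h e fun j => labE (k j)) N
    (fun p p' a b k k' s s' h' => by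
      refine intT_zero h _ ?_
      simp only [Fintype.card_sum, Fintype.card_fin]
      omega)
  simp only [labW_eq] at h4
  rw [h4]
  have hsub : range (N0 + 1) ⊆ range (4 * N + 1) := by
    intro r hr
    rw [mem_range] at hr ⊢
    omega
  rw [← sum_subset hsub fun r _ hr => ?_]
  · refine sum_congr rfl fun r _ => ?_
    rw [int_T h]
    congr 1
    exact Fintype.sum_equiv (Equiv.arrowCongr (Equiv.refl (Fin r)) labE) _ _ fun k => rfl
  · rw [mem_range, not_lt] at hr
    rw [sum_eq_zero fun k _ => ?_, mul_zero]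
    refine intT_zero h _ ?_
    rw [Fintype.card_fin]
    omega

/-- **from the words to the configurations**, letters `O3`, sets of the strings with a glued hole -/
theorem mergeTS (h : TOk T N0 n n') {N : ℕ} (hN : N0 ≤ N) :
    ∑ p ∈ range (N + 1), ∑ p' ∈ range (N + 1), ((p ! : ℕ) : ℂ)⁻¹ * ((p' ! : ℕ) : ℂ)⁻¹ *
      ∑ k : Fin p → O3, ∑ k' : Fin p' → O3, ∑ D ∈ (strS k).powerset, ∑ D' ∈ (strS k').powerset,
      ∑ a ∈ range (N + 1), ∑ b ∈ range (N + 1), ((a ! : ℕ) : ℂ)⁻¹ * ((b ! : ℕ) : ℂ)⁻¹ *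
        ∑ s : Fin a → Bool, ∑ s' : Fin b → Bool, intT T
          (labW (fun i => kaD (k i) (decide (i ∈ D))) (fun i => kaD (k' i) (decide (i ∈ D'))) s s') =
    ∑ r ∈ range (N0 + 1), ((r ! : ℕ) : ℂ)⁻¹ *
      ∫ O : Fin r → Xo, T (Fin r) O ∂(Measure.pi fun _ => nu) := by
  rw [← mergeT h hN]
  refine sum_congr rfl fun p _ => sum_congr rfl fun p' _ => ?_
  congr 1
  rw [sum_ka]
  refine sum_congr rfl fun k _ => ?_
  rw [sum_comm]
  refine sum_congr rfl fun D _ => ?_
  rw [sum_ka]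

end ints

/-! ### the charge of a word -/

theorem q3I_lab {p p' a b : ℕ} (k : Fin p → O3) (k' : Fin p' → O3) {D : Finset (Fin p)}
    {D' : Finset (Fin p')} (s : Fin a → Bool) (s' : Fin b → Bool)
    (t : (Fin p ⊕ Fin p') ⊕ (Fin a ⊕ Fin b) → ℝ) (r : Bool) :
    q3I (fun i => xo (labW (fun i => kaD (k i) (decide (i ∈ D)))
      (fun i => kaD (k' i) (decide (i ∈ D'))) s s' i) (t i)) r =
      (if r = true then ((∑ i, c3 (k i) : ℕ) : ℤ) else 0) +
        (if r = false then ((∑ i, c3 (k' i) : ℕ) : ℤ) else 0) := by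
  set O : (Fin p ⊕ Fin p') ⊕ (Fin a ⊕ Fin b) → Xo :=
    fun i => xo (labW (fun i => kaD (k i) (decide (i ∈ D)))
      (fun i => kaD (k' i) (decide (i ∈ D'))) s s' i) (t i) with hO
  have key : q3I O r = ∑ i, (chg6 r (O i) + (hl6 r (O i) : ℤ) - (sat6 r (O i) : ℤ)) := by
    unfold q3I qI
    push_cast
    simp only [Finset.sum_add_distrib, Finset.sum_sub_distrib]
  have hval : ∀ (i : (Fin p ⊕ Fin p') ⊕ (Fin a ⊕ Fin b)),
      chg6 r (O i) + (hl6 r (O i) : ℤ) - (sat6 r (O i) : ℤ) =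
        Sum.elim (Sum.elim (fun i => if r = true then (c3 (k i) : ℤ) else 0)
          (fun i => if r = false then (c3 (k' i) : ℤ) else 0)) (fun _ => 0) i := by
    intro i
    have e1 : k6 (O i) = (labW (fun i => kaD (k i) (decide (i ∈ D)))
      (fun i => kaD (k' i) (decide (i ∈ D'))) s s' i).2 := k6_xo _ _
    have e2 : sp (O i) = (labW (fun i => kaD (k i) (decide (i ∈ D)))
      (fun i => kaD (k' i) (decide (i ∈ D'))) s s' i).1 := sp_xo _ _
    unfold chg6 hl6 sat6
    rw [e1, e2]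
    rcases i with (i | i) | (i | i)
    · simp only [labW, Sum.elim_inl]
      rcases hk : k i with _ | _ | _
      · cases r <;> simp [kaD, kdA, c3, ob3, Bd.chg, NUP1.Bd.chg]
      · by_cases hi : i ∈ D
        · cases r <;> simp [kaD, kdA, c3, ob3, hi, NUP1.Bd.chg]
        · cases r <;> simp [kaD, kdA, c3, ob3, hi, NUP1.Bd.chg]
      · cases r <;> simp [kaD, kdA, c3, ob3, NUP1.Bd.chg]
    · simp only [labW, Sum.elim_inl, Sum.elim_inr]
      rcases hk : k' i with _ | _ | _
      · cases r <;> simp [kaD, kdA, c3, ob3, NUP1.Bd.chg]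
      · by_cases hi : i ∈ D'
        · cases r <;> simp [kaD, kdA, c3, ob3, hi, NUP1.Bd.chg]
        · cases r <;> simp [kaD, kdA, c3, ob3, hi, NUP1.Bd.chg]
      · cases r <;> simp [kaD, kdA, c3, ob3, NUP1.Bd.chg]
    · simp only [labW, Sum.elim_inl, Sum.elim_inr]
      cases s i <;> cases r <;> simp [kdH]
    · simp only [labW, Sum.elim_inr]
      cases s' i <;> cases r <;> simp [kdH]
  rw [key]
  simp only [hval, Fintype.sum_sum_type, Sum.elim_inl, Sum.elim_inr, Finset.sum_const_zero,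
    add_zero]
  cases r <;> simp

/-! ### the identity of one word -/

/-- **The identity of one word** with the term `T` -/
def WordIdT (Z : Bool → Option O3 → ℂ → ℂ) (T : Trm) (ln : O3 → ℝ) (x0 : ℝ) (n n' N : ℕ)
    {p p' : ℕ} (k : Fin p → O3) (k' : Fin p' → O3) (t : Fin p ⊕ Fin p' → ℝ) : Prop :=
  ((∏ i, wt (ob3 (k i))) * (∏ i, wt (ob3 (k' i)))) *
      (Fg (o3 k k') (h3 (Z true) (Z false) k k')
          (pos (Sum.elim (fun i => ln (k i)) (fun i => ln (k' i))) t) *
        gas (nA n k) (nA n' k') x0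
          (fld (o3 k k') (pos (Sum.elim (fun i => ln (k i)) (fun i => ln (k' i))) t) (true, .A)
            (Z true none))
          (fld (o3 k k') (pos (Sum.elim (fun i => ln (k i)) (fun i => ln (k' i))) t) (false, .A)
            (Z false none))) =
    ∑ D ∈ (strS k).powerset, ∑ D' ∈ (strS k').powerset,
      ∑ a ∈ range (N + 1), ∑ b ∈ range (N + 1), ((a ! : ℕ) : ℂ)⁻¹ * ((b ! : ℕ) : ℂ)⁻¹ *
        ∑ s : Fin a → Bool, ∑ s' : Fin b → Bool,
          mI6 (labW (fun i => kaD (k i) (decide (i ∈ D))) (fun i => kaD (k' i) (decide (i ∈ D'))) s s') *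
            ∫ h : Fin a ⊕ Fin b → ℝ, T ((Fin p ⊕ Fin p') ⊕ (Fin a ⊕ Fin b)) (fun i =>
              xo (labW (fun i => kaD (k i) (decide (i ∈ D)))
                (fun i => kaD (k' i) (decide (i ∈ D'))) s s' i) (Sum.elim t h i))
              ∂(Measure.pi fun _ => volume)

section main
variable {Z : Bool → Option O3 → ℂ → ℂ} {T : Trm} {N0 n n' : ℕ}

/-- **one term of `ZobjQ`** -/
theorem termQ_of_wordT {ln : O3 → ℝ} {x0 : ℝ} {N : ℕ} (h : TOk T N0 n n') {p p' : ℕ}
    (k : Fin p → O3) (k' : Fin p' → O3)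
    (hW : ∀ᵐ t : Fin p ⊕ Fin p' → ℝ ∂(Measure.pi fun _ => volume),
      WordIdT Z T ln x0 n n' N k k' t) :
    termQ (Z true) (Z false) x0 n n' k k' (fun i => ln (k i)) (fun i => ln (k' i)) =
      ∑ D ∈ (strS k).powerset, ∑ D' ∈ (strS k').powerset,
        ∑ a ∈ range (N + 1), ∑ b ∈ range (N + 1), ((a ! : ℕ) : ℂ)⁻¹ * ((b ! : ℕ) : ℂ)⁻¹ *
          ∑ s : Fin a → Bool, ∑ s' : Fin b → Bool, intT T
            (labW (fun i => kaD (k i) (decide (i ∈ D)))
              (fun i => kaD (k' i) (decide (i ∈ D'))) s s') := by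
  unfold termQ
  rw [← integral_const_mul, integral_congr_ae hW]
  have hI : ∀ {a b : ℕ} (K : (Fin p ⊕ Fin p') ⊕ (Fin a ⊕ Fin b) → Bool × Kd6),
      Integrable (fun t : Fin p ⊕ Fin p' → ℝ => ∫ h : Fin a ⊕ Fin b → ℝ,
        T ((Fin p ⊕ Fin p') ⊕ (Fin a ⊕ Fin b)) (fun i => xo (K i) (Sum.elim t h i))
          ∂(Measure.pi fun _ => volume)) (Measure.pi fun _ => volume) ∧
      ∫ t : Fin p ⊕ Fin p' → ℝ, ∫ h : Fin a ⊕ Fin b → ℝ,
        T ((Fin p ⊕ Fin p') ⊕ (Fin a ⊕ Fin b)) (fun i => xo (K i) (Sum.elim t h i))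
          ∂(Measure.pi fun _ => volume) ∂(Measure.pi fun _ => volume) =
        ∫ t, T ((Fin p ⊕ Fin p') ⊕ (Fin a ⊕ Fin b)) (fun i => xo (K i) (t i))
          ∂(Measure.pi fun _ => volume) := fun K =>
    int_split (F := fun t => T ((Fin p ⊕ Fin p') ⊕ (Fin _ ⊕ Fin _)) fun i => xo (K i) (t i))
      (h.int K)
  have i1 : ∀ (D : Finset (Fin p)) (D' : Finset (Fin p')) (a b : ℕ) (s : Fin a → Bool)
      (s' : Fin b → Bool), Integrable (fun t : Fin p ⊕ Fin p' → ℝ =>
        mI6 (labW (fun i => kaD (k i) (decide (i ∈ D))) (fun i => kaD (k' i) (decide (i ∈ D'))) s s') *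
            ∫ h : Fin a ⊕ Fin b → ℝ, T ((Fin p ⊕ Fin p') ⊕ (Fin a ⊕ Fin b)) (fun i =>
              xo (labW (fun i => kaD (k i) (decide (i ∈ D)))
                (fun i => kaD (k' i) (decide (i ∈ D'))) s s' i) (Sum.elim t h i))
              ∂(Measure.pi fun _ => volume)) (Measure.pi fun _ => volume) :=
    fun D D' a b s s' => (hI _).1.const_mul _
  have i2 : ∀ (D : Finset (Fin p)) (D' : Finset (Fin p')) (a b : ℕ), Integrable
      (fun t : Fin p ⊕ Fin p' → ℝ => ((a ! : ℕ) : ℂ)⁻¹ * ((b ! : ℕ) : ℂ)⁻¹ *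
        ∑ s : Fin a → Bool, ∑ s' : Fin b → Bool,
          mI6 (labW (fun i => kaD (k i) (decide (i ∈ D))) (fun i => kaD (k' i) (decide (i ∈ D'))) s s') *
            ∫ h : Fin a ⊕ Fin b → ℝ, T ((Fin p ⊕ Fin p') ⊕ (Fin a ⊕ Fin b)) (fun i =>
              xo (labW (fun i => kaD (k i) (decide (i ∈ D)))
                (fun i => kaD (k' i) (decide (i ∈ D'))) s s' i) (Sum.elim t h i))
              ∂(Measure.pi fun _ => volume)) (Measure.pi fun _ => volume) :=
    fun D D' a b => (integrable_finsetSum _ fun s _ => integrable_finsetSum _ fun s' _ =>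
      i1 D D' a b s s').const_mul _
  rw [integral_finsetSum _ fun D _ => integrable_finsetSum _ fun D' _ =>
    integrable_finsetSum _ fun a _ => integrable_finsetSum _ fun b _ => i2 D D' a b]
  refine Finset.sum_congr rfl fun D _ => ?_
  rw [integral_finsetSum _ fun D' _ =>
    integrable_finsetSum _ fun a _ => integrable_finsetSum _ fun b _ => i2 D D' a b]
  refine Finset.sum_congr rfl fun D' _ => ?_
  rw [integral_finsetSum _ fun a _ => integrable_finsetSum _ fun b _ => i2 D D' a b]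
  refine Finset.sum_congr rfl fun a _ => ?_
  rw [integral_finsetSum _ fun b _ => i2 D D' a b]
  refine Finset.sum_congr rfl fun b _ => ?_
  rw [integral_const_mul, integral_finsetSum _ fun s _ => integrable_finsetSum _ fun s' _ =>
      i1 D D' a b s s']
  congr 1
  refine Finset.sum_congr rfl fun s _ => ?_
  rw [integral_finsetSum _ fun s' _ => i1 D D' a b s s']
  refine Finset.sum_congr rfl fun s' _ => ?_
  rw [integral_const_mul, (hI _).2]
  rfl

/-- **The class formula of (P)** for the term `T` from the identity of the words. -/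
theorem ZobjQ_of_wordT {ln : O3 → ℝ} {x0 : ℝ} {N : ℕ} (h : TOk T N0 n n') (hN : N0 ≤ N)
    (hNn : n + n' ≤ N)
    (hW : ∀ (p p' : ℕ) (k : Fin p → O3) (k' : Fin p' → O3), ∑ i, c3 (k i) ≤ n →
      ∑ i, c3 (k' i) ≤ n' → ∀ᵐ t : Fin p ⊕ Fin p' → ℝ ∂(Measure.pi fun _ => volume),
        WordIdT Z T ln x0 n n' N k k' t) :
    NURow.ZobjQ (Z true) (Z false) x0 n n' (fun _ _ k _ i => ln (k i)) (fun _ _ _ k' i => ln (k' i)) =
      ∑ r ∈ range (N0 + 1), ((r ! : ℕ) : ℂ)⁻¹ *
        ∫ O : Fin r → Xo, T (Fin r) O ∂(Measure.pi fun _ => nu) := by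
  rw [← mergeTS h hN]
  unfold NURow.ZobjQ
  -- the right side vanishes for words with too much charge
  set S : ∀ p p' : ℕ, (Fin p → O3) → (Fin p' → O3) → ℂ := fun p p' k k' =>
    ∑ D ∈ (strS k).powerset, ∑ D' ∈ (strS k').powerset,
        ∑ a ∈ range (N + 1), ∑ b ∈ range (N + 1), ((a ! : ℕ) : ℂ)⁻¹ * ((b ! : ℕ) : ℂ)⁻¹ *
          ∑ s : Fin a → Bool, ∑ s' : Fin b → Bool, intT T
            (labW (fun i => kaD (k i) (decide (i ∈ D)))
              (fun i => kaD (k' i) (decide (i ∈ D'))) s s') with hT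
  have hT0 : ∀ (p p' : ℕ) (k : Fin p → O3) (k' : Fin p' → O3),
      ¬ (∑ i, c3 (k' i) ≤ n' ∧ ∑ i, c3 (k i) ≤ n) → S p p' k k' = 0 := by
    intro p p' k k' hn
    rw [hT]
    refine Finset.sum_eq_zero fun D _ => Finset.sum_eq_zero fun D' _ =>
      Finset.sum_eq_zero fun a _ => Finset.sum_eq_zero fun b _ => ?_
    have : ∀ (s : Fin a → Bool) (s' : Fin b → Bool), intT T
            (labW (fun i => kaD (k i) (decide (i ∈ D)))
              (fun i => kaD (k' i) (decide (i ∈ D'))) s s') = 0 := by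
      intro s s'
      have hz : ∀ t : (Fin p ⊕ Fin p') ⊕ (Fin a ⊕ Fin b) → ℝ,
          T ((Fin p ⊕ Fin p') ⊕ (Fin a ⊕ Fin b))
          (fun i => xo (labW (fun i => kaD (k i) (decide (i ∈ D)))
              (fun i => kaD (k' i) (decide (i ∈ D'))) s s' i) (t i)) = 0 := by
        intro t
        by_contra hc
        obtain ⟨h4, h5⟩ := h.chg _ hc
        rw [q3I_lab] at h4 h5
        simp only [if_true, Bool.true_eq_false, Bool.false_eq_true, if_false, add_zero,
          zero_add] at h4 h5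
        refine hn ⟨?_, ?_⟩
        · exact_mod_cast h5
        · exact_mod_cast h4
      unfold intT
      simp only [hz, integral_zero, mul_zero]
    simp only [this, Finset.sum_const_zero, mul_zero]
  have hc3 : ∀ {p : ℕ} (k : Fin p → O3), p ≤ ∑ i, c3 (k i) := by
    intro p k
    calc p = ∑ _i : Fin p, 1 := by simp
      _ ≤ _ := Finset.sum_le_sum fun i _ => c3_pos (k i)
  have hsub' : range (n' + 1) ⊆ range (N + 1) := by
    intro r hr
    rw [mem_range] at hr ⊢
    omega
  have hsub : range (n + 1) ⊆ range (N + 1) := by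
    intro r hr
    rw [mem_range] at hr ⊢
    omega
  have e1 : ∀ p' p : ℕ, (∑ k' : Fin p' → O3, ∑ k : Fin p → O3,
      if ∑ i, c3 (k' i) ≤ n' ∧ ∑ i, c3 (k i) ≤ n then
        termQ (Z true) (Z false) x0 n n' k k' (fun i => ln (k i)) (fun i => ln (k' i)) else 0) =
      ∑ k : Fin p → O3, ∑ k' : Fin p' → O3, S p p' k k' := by
    intro p' p
    rw [Finset.sum_comm]
    refine Finset.sum_congr rfl fun k _ => Finset.sum_congr rfl fun k' _ => ?_
    by_cases hc : ∑ i, c3 (k' i) ≤ n' ∧ ∑ i, c3 (k i) ≤ n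
    · rw [if_pos hc]
      exact termQ_of_wordT h k k' (hW p p' k k' hc.2 hc.1)
    · rw [if_neg hc, hT0 p p' k k' hc]
  rw [Finset.sum_comm (s := range (N + 1)) (t := range (N + 1))]
  simp only [e1]
  rw [Finset.sum_subset hsub' fun p' _ hp' => ?_]
  · refine Finset.sum_congr rfl fun p' _ => ?_
    rw [Finset.sum_subset hsub fun p _ hp => ?_]
    · refine Finset.sum_congr rfl fun p _ => ?_
      rw [mul_comm (((p' ! : ℕ) : ℂ)⁻¹)]
    · rw [mem_range, not_lt] at hp
      rw [Finset.sum_eq_zero fun k _ => Finset.sum_eq_zero fun k' _ => hT0 p p' k k' fun hc => by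
        have := hc3 k
        omega, mul_zero]
  · rw [mem_range, not_lt] at hp'
    refine Finset.sum_eq_zero fun p _ => ?_
    rw [Finset.sum_eq_zero fun k _ => Finset.sum_eq_zero fun k' _ => hT0 p p' k k' fun hc => by
        have := hc3 k'
        omega, mul_zero]

end main

end PHK

end
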