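import Pool.Agent.PHK.Oth0F
import Pool.Agent.PHK.CutV6b

/-!
# (P): the own and direct factors of all classes at rows `0`

**`clOk0R`**: `ClOk6` at the geometry `G06 [i, -i] F0K`.
-/

set_option autoImplicit false
set_option linter.unusedSectionVars false

noncomputable section

open Complex
open PLX (Fil Ends)

namespace PBO.PLX

open PHK
open PBR.PLX (G06 F0K)

attribute [local instance] NUSea.seaP PLX.ends1

variable [Fil]

/-- **the own and direct factors of all classes at rows `0`** -/
theorem clOk0R : ClOk6 (T06 F0K) (G06 [I, -I] F0K).MF K06 kD06 cw06 :=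
  clOk06_of (fun _ h0 h1 => ⟨aW6, one_le_aW6, 1, fun _ hm a => cutB6_V6 h0.le (by linarith) hm a⟩) F0K

end PBO.PLX

end
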