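import Pool.Agent.PHK.TRsD2
import Pool.Agent.PHK.BsR6

/-!
# The particle-hole form (P), (TR), s-path: any corrections of the cutoffs of the strings

* `ZLg m β ex g0 w w'`: one body functions of the dislocated function, rows `0`, legs at `zz w w'`, corrections
  `g0 a` of the cutoffs of the strings; `ZWg`: of the regular function;
* **`ZWg_eq`**: `ZWg b k u = sgk k * ZLg b k u * exp (DT b k u)`; **`RZW_g`**: `RZW (R06 ..) w w' = ZWg ..`;
* **`FF_WLg`**: `FF6 (RZW (R06 ..) w w') P n (n + Fil.xn k) = (-1) ^ Fil.xn k * FF6 (expZ (ZLg ..) (DT w w') 1) ..`.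
-/

set_option autoImplicit false
set_option linter.unusedSectionVars false
set_option linter.unusedVariables false

noncomputable section

open Complex MeasureTheory Finset
open scoped ENNReal
open PLX (Fil)

namespace PBTs.PLX

open NUO NUP1 NUCR NUP1S NUP1S.Ab NUP1S.AbC NUGC NUGC.PLX PHK
open NUP1 (l vl)
open NUP1.Leg (Ck Dk thE)
open NURow (CC DD)
open PBX (Lg thS ph)
open PBF.PLX (Ins Crs Zm quF expZ)
open PBT3 (zz)
open PBTD (DelQ KA)
open PBR.PLX (R06 R06U RZW)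
open Pool.Agent.PLX (RU XXU rwq)

variable [Fil]

/-- one body functions of the dislocated function, rows `0`, legs at `zz w w'`, corrections `g0` of the cutoffs of
the strings -/
def ZLg (m : ℕ) (β : ℝ) (ex : List ℂ) (g0 : Bool → ℂ → ℂ) (w w' : ℂ) : Bool → Option O3 → ℂ → ℂ := fun a =>
  XXU (NUP1.Leg.cc (cond a m (Fil.q * m))) β (rwq (fun _ : Fin m => (0 : ℂ)) a)
    (rwq (fun _ : Fin m => (0 : ℂ)) (!a)) (PBX.gP β ex) (g0 a) (Lg (zz w w') (zz w w'))
    (fun u => Lg (zz w w') (zz w w') u * Lg (zz w w') (zz w w') (u - l))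

/-- one body functions of the regular function, both half quanta, rows and ends `0`, corrections `g0` of the cutoffs
of the strings -/
def ZWg (m : ℕ) (β : ℝ) (ex : List ℂ) (g0 : Bool → ℂ → ℂ) (w w' : ℂ) : Bool → Option O3 → ℂ → ℂ
  | true => (R06 m β ex (g0 true) (g0 false)).Xs (fun u => Ck (w - u) * Dk (w' - u))
      (fun u => CC (w - u) * DD (w' - u))
  | false => (R06 m β ex (g0 true) (g0 false)).Ys (fun u => Dk (w - u) * Ck (w' - u))
      (fun u => DD (w - u) * CC (w' - u))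

/-- the landed one body functions -/
theorem ZLg_ZLw (m : ℕ) (β : ℝ) (ex ex0 : List ℂ) (w w' : ℂ) :
    ZLg m β ex (fun _ => PBX.gP (4 / 3) ex0) w w' = ZLw m β ex ex0 w w' := rfl

/-- the quanta do not see the corrections of the strings -/
theorem ZLg_none (m : ℕ) (β : ℝ) (ex ex0 : List ℂ) (g0 : Bool → ℂ → ℂ) (w w' : ℂ) (a : Bool) :
    ZLg m β ex g0 w w' a none = ZLw m β ex ex0 w w' a none := rfl

theorem ZLg_L (m : ℕ) (β : ℝ) (ex ex0 : List ℂ) (g0 : Bool → ℂ → ℂ) (w w' : ℂ) (a : Bool) :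
    ZLg m β ex g0 w w' a (some .L) = ZLw m β ex ex0 w w' a (some .L) := rfl

theorem ZLg_comm (m : ℕ) (β : ℝ) (ex : List ℂ) (g0 : Bool → ℂ → ℂ) (w w' : ℂ) (b : Bool) :
    ZLg m β ex g0 w' w b = ZLg m β ex g0 w w' b := by
  unfold ZLg
  rw [PBTD.zz_comm w' w]

/-- **the class functions of `PHK/BsR6`** -/
theorem RZW_g (m : ℕ) (β : ℝ) (ex : List ℂ) (g0 : Bool → ℂ → ℂ) (w w' : ℂ) :
    RZW (R06 m β ex (g0 true) (g0 false)) w w' = ZWg m β ex g0 w w' := by
  funext b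
  cases b
  · exact (_root_.Pool.Agent.PLX.ryWW (R06 m β ex (g0 true) (g0 false)) w w').symm
  · exact (_root_.Pool.Agent.PLX.rxWW (R06 m β ex (g0 true) (g0 false)) w w').symm

section

variable {w w' : ℂ} (hw : w.re = 5 / 4 * l) (hw' : w'.re = 5 / 4 * l)
include hw hw'

/-- **regular = legs times the exponential of the logarithms** -/
theorem ZWg_eq (m : ℕ) (β : ℝ) (ex : List ℂ) (g0 : Bool → ℂ → ℂ) (b : Bool) {k : Option O3} {u : ℂ}
    (hu : At6 k u) :
    ZWg m β ex g0 w w' b k u = sgk k * ZLg m β ex g0 w w' b k u * exp (DT w w' b k u) := by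
  cases b
  · rw [← ZLg_comm m β ex g0 w w' false]
    have h := XXU_ratio6 hw' hw (NUP1.Leg.cc (Fil.q * m)) β (fun _ : Fin (Fil.q * m) => (0 : ℂ))
      (fun _ : Fin m => (0 : ℂ)) (PBX.gP β ex) (g0 false) hu
    refine Eq.trans ?_ h
    have e1 : (fun u => Dk (w - u) * Ck (w' - u)) = fun u => Ck (w' - u) * Dk (w - u) := by
      funext v
      ring
    have e2 : (fun u => DD (w - u) * CC (w' - u)) = fun u => CC (w' - u) * DD (w - u) := by
      funext v
      ring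
    show (R06 m β ex (g0 true) (g0 false)).Ys (fun u => Dk (w - u) * Ck (w' - u))
      (fun u => DD (w - u) * CC (w' - u)) k u = _
    rw [e1, e2]
    rfl
  · exact XXU_ratio6 hw hw' (NUP1.Leg.cc m) β (fun _ : Fin m => (0 : ℂ))
      (fun _ : Fin (Fil.q * m) => (0 : ℂ)) (PBX.gP β ex) (g0 true) hu

theorem ZWg_pt (m : ℕ) (β : ℝ) (ex : List ℂ) (g0 : Bool → ℂ → ℂ) (b : Bool) {k : Option O3} {u : ℂ}
    (hu : At6 k u) :
    ZWg m β ex g0 w w' b k u = Zm (expZ (ZLg m β ex g0 w w') (DT w w') 1) sgF b k u := by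
  rw [ZWg_eq hw hw' m β ex g0 b hu]
  unfold PBF.PLX.Zm PBF.PLX.expZ sgF
  rw [one_mul]
  ring

theorem ZWg_obK (m : ℕ) (β : ℝ) (ex : List ℂ) (g0 : Bool → ℂ → ℂ) {P : Par6} (hP : GoodP6 P) (x : Xo) :
    obK6 (ZWg m β ex g0 w w') P x =
      obK6 (Zm (expZ (ZLg m β ex g0 w w') (DT w w') 1) sgF) P x :=
  obK6_congr hP (fun b _ _ hu => ZWg_pt hw hw' m β ex g0 b hu) x

variable {P : Par6} (hP : GoodP6 P) {n n' : ℕ} {η η' : Crs}
include hP

theorem FF_WLg' (m : ℕ) (β : ℝ) (ex : List ℂ) (g0 : Bool → ℂ → ℂ)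
    (hη : ∀ r ≤ 2 * (n + n'), ∀ᵐ O ∂(Measure.pi fun _ : Fin r => nu), ∀ t, |η r O t| ≤ NUP1.l / 5)
    (Ψ : Ins) : FF6 (RZW (R06 m β ex (g0 true) (g0 false)) w w') P n n' η η' Ψ =
      (-1) ^ (n + n') * FF6 (expZ (ZLg m β ex g0 w w') (DT w w') 1) P n n' η η' Ψ := by
  rw [RZW_g, ← FF_sgn6]
  refine FF_congrZ6 Ψ (fun r hr => ?_) fun x => ZWg_obK hw hw' m β ex g0 hP x
  filter_upwards [hη r hr] with O hO
  exact fun s t => ZWg_pt hw hw' m β ex g0 s (at_A6 (Fil.abs_cv_le_of (hO t)))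

/-- **regular functional = functional of the family at `s = 1`**, numbers `n`, `n + Fil.xn k` -/
theorem FF_WLg (m : ℕ) (β : ℝ) (ex : List ℂ) (g0 : Bool → ℂ → ℂ) (k : ℕ)
    (hη : ∀ r ≤ 2 * (n + (n + Fil.xn k)), ∀ᵐ O ∂(Measure.pi fun _ : Fin r => nu),
      ∀ t, |η r O t| ≤ NUP1.l / 5)
    (Ψ : Ins) : FF6 (RZW (R06 m β ex (g0 true) (g0 false)) w w') P n (n + Fil.xn k) η η' Ψ =
      (-1) ^ Fil.xn k * FF6 (expZ (ZLg m β ex g0 w w') (DT w w') 1) P n (n + Fil.xn k)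
        η η' Ψ := by
  rw [FF_WLg' hw hw' hP m β ex g0 hη Ψ, ← add_assoc, pow_add, Even.neg_one_pow ⟨n, rfl⟩, one_mul]

end

end PBTs.PLX

end
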