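import Pool.Agent.PHK.FamL6
import Pool.Agent.PHK.TRsW6
import Pool.Agent.PLX.PB.TRsV

/-!
# The particle-hole form (P), (TR): the families at the two ends of the s-path

The strings carry the factor `om` at `T1L k`; quanta, prefactors, tops and bounds are the landed ones.

* `gV6 k`: correction of the cutoffs of the strings over the rows `0`; `ph_gV6`, `meas_gV6`;
* **`Zv6`**: the family at the dislocated end; `Zv6_none`, `Zv6_L`: at the quanta it is the landed one;
* **`famV6`**, **`famW6`**: the families of the two ends.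
-/

set_option autoImplicit false
set_option linter.unusedSectionVars false

noncomputable section

open Complex MeasureTheory Finset
open PLX (Fil)

namespace PBTV.PLX

open NUO NUP1 NUP1S NUP1S.Ab NUGC NUGC.PLX PBF PBF.PLX PBU PBU.PLX PHK
open PBX (ph)
open _root_.Pool.Agent.PLX (yq rwq)

variable [Fil]

/-- **corrections of the cutoffs of the strings**, rows `0`, end `T1L k` -/
def gV6 (k : ℕ) : Bool → ℂ → ℂ := fun a => gO (T1L k) [] (rwq (fun _ : Fin (k - 1) => (0 : ℂ)) a)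

theorem rws0 (m : ℕ) : PBX.Rws (fun _ : Fin m => (0 : ℂ)) := fun _ => by
  have := NUP1.l_pos
  rw [Complex.zero_re, abs_zero]
  linarith

theorem ph_gV6 (k : ℕ) (a : Bool) : ph (4 / 3) (rwq (fun _ : Fin (k - 1) => (0 : ℂ)) a) (gV6 k a) =
    phO (T1L k) (List.ofFn (rwq (fun _ : Fin (k - 1) => (0 : ℂ)) a) ++ []) := ph_gO_fun _ _ _

theorem meas_gV6 (k : ℕ) (a : Bool) : Measurable (gV6 k a) :=
  meas_gO (_root_.Pool.Agent.PLX.Rws_rwq (rws0 _) a) (by simp)

/-- **the family at the dislocated end** -/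
def Zv6 (ep : ℝ) (k : ℕ) (τ : ℝ × ℝ) : Bool → Option O3 → ℂ → ℂ :=
  PBTs.PLX.ZLg (k - 1) (4 / 3 * (1 - ep)) [I, -I] (gV6 k) (wa τ) (wb τ)

variable [NUSea.Sea]

/-- the quanta are the landed ones -/
theorem Zv6_none (ep : ℝ) (k : ℕ) (τ : ℝ × ℝ) (b : Bool) : Zv6 ep k τ b none = Zv ep k τ b none := rfl

theorem Zv6_L (ep : ℝ) (k : ℕ) (τ : ℝ × ℝ) (b : Bool) :
    Zv6 ep k τ b (some .L) = Zv ep k τ b (some .L) := rfl

/-- **the family of the left end** -/
def famV6 : Fam (ℝ × ℝ) where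
  Z ep m τ := Zv6 ep m τ
  Pf m τ := Pv m τ
  top m := 2 * (m - 1)
  ok := okv
  bd _ τ := Real.exp |τ.1 + τ.2|

/-- **the family of the right end**, with the kernel `k1T` -/
def famW6 : Fam (ℝ × ℝ) where
  Z ep m τ := expZ (Zv6 ep m τ) (Dv τ) 1
  Pf m τ := PBT3.k1T τ * (Complex.exp (-κv m τ) * Pv m τ)
  top m := 2 * (m - 1)
  ok := okv
  bd _ τ := Real.exp (-mTv τ)

end PBTV.PLX

end
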