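import Pool.Agent.PLX.PB.TopR0a
import Pool.Agent.PLX.PB.TRFin2
import Pool.Agent.PHK.Zv6
import Pool.Agent.PHK.BsR6
import Pool.Agent.PHK.FDef6
import Pool.Agent.PB.H12

/-!
# The particle-hole form (P), (H2) of (TR) along a ray, literally (helper8)

* `RR6 ep k`: rows and ends `0`, cutoffs `[I, -I]` of the quanta, `gV6` of the strings;
* `SR06 ep e1 J k τ`: the sum over `n ≤ 2 (k - 1)` of the functionals of the class `W W`, curve `etaC`, with the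
  sign `(-1) ^ Fil.xn (k - 1)`;
* **`h2_SR06`**: the integrand `KK` is at most `k^e exp (- mT τ)` on the window `|τ₁|, |τ₂| ≤ 3/8 log k`, for every
  `e > 0`, `ep`, `e1`, `exp (-2πJ)` small, from `TopVal6 e` (`topR0_val6` of `TopR06`).
-/

set_option autoImplicit false

noncomputable section

open Complex MeasureTheory Finset Filter

open PLX (Fil)

namespace PBTRF.PLX

open NUGC NUGC.PLX PBF PBF.PLX PBR PBR.PLX PBX PBX.PLX PBI PBI.PLX PBU.PLX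
open NUO NUP1 NURow
open NUP1.Leg (kap Dk Bp)
open PBT3 (wt zt gF k1T)
open PBTR (mT winW)
open PBTV.PLX (gV6)
open Pool.Agent.PLX (rwq)
open PHK

attribute [local instance] NUSea.seaP

variable [Fil]

/-- rows and ends `0`, the right end -/
abbrev RR6 (ep : ℝ) (k : ℕ) : _root_.Pool.Agent.PLX.RU (k - 1) (Fil.q * (k - 1)) :=
  R06 (k - 1) (NUGC.PLX.beC ep) [I, -I] (gV6 k true) (gV6 k false)

/-- the sum over the number of quanta, class `W W` -/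
def SR06 (ep e1 J : ℝ) (k : ℕ) (τ : ℝ × ℝ) : ℂ :=
  (-1) ^ Fil.xn (k - 1) * ∑ n ∈ range (2 * (k - 1) + 1),
    FF6 (PBR.PLX.RZW (RR6 ep k) (wt τ.1) (wt τ.2)) par6 n (n + Fil.xn (k - 1))
      (cr e1 J k) (cr' e1 J k) (fun _ _ _ _ _ => 1)

/-- the bound of `TopR06` -/
def TopVal6 (e : ℝ) : Prop := ∃ κ0 : ℝ, 0 < κ0 ∧ κ0 ≤ 1 / 100 ∧
    ∀ ep : ℝ, 0 < ep → ep ≤ κ0 → ∀ e1 : ℝ, 0 < e1 → e1 ≤ κ0 →
    ∀ J : ℝ, 0 ≤ J → Real.exp (-(2 * Real.pi * J)) ≤ κ0 →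
    ∀ (c : ℕ → ℂ) (Cn : ℝ), (∀ k, 1 ≤ k → ‖c k‖ * Real.exp (_root_.PLX.EM2 k) ≤ Cn) →
    ∃ k0 : ℕ, 2 ≤ k0 ∧ ∀ k ≥ k0,
    ∀ y : ℝ × ℝ, |y.1| ≤ TW ep e1 k → |y.2| ≤ TW ep e1 k → ∀ M ≤ 2 * k,
    ‖c k * PBI.PLX.kR k y * ∑ n ∈ range (M + 1), FF6 (PBR.PLX.RZW (RR6 ep k)
        (vl (5 / 4 * l) y.1) (vl (5 / 4 * l) y.2)) par6 n (n + Fil.xn (k - 1))
        (fun _ _ => NUGC.PLX.etaC e1 J k k) (fun _ _ => NUGC.PLX.etaC' e1 J k k) (fun _ _ _ _ _ => 1)‖ ≤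
      (k : ℝ) ^ e * Real.exp (-PBI.PLX.mTR y)

omit [Fil] in
/-- the integrand in the names of `TopN` -/
theorem KK_any [Fil] (S : ℕ → ℝ × ℝ → ℂ) (k : ℕ) (τ : ℝ × ℝ) : KK S k τ =
    (PBI.PLX.nrR k * (2 * Real.pi : ℂ)⁻¹ ^ 2) * PBI.PLX.kR k τ * S k τ := by
  rw [PBI.PLX.kR_eq]
  unfold KK
  rw [PBI.PLX.nrR_eq]

/-- **(H2)** -/
theorem h2_SR06 {e : ℝ} (H : TopVal6 e) : ∃ κ0 : ℝ, 0 < κ0 ∧ κ0 ≤ 1 / 100 ∧
    ∀ ep : ℝ, 0 < ep → ep ≤ κ0 → ∀ e1 : ℝ, 0 < e1 → e1 ≤ κ0 → ∀ J : ℝ, 0 ≤ J →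
    Real.exp (-(2 * Real.pi * J)) ≤ κ0 →
    ∀ᶠ k : ℕ in atTop, ∀ τ ∈ winW (3 / 8) k,
      ‖KK (SR06 ep e1 J) k τ‖ ≤ (k : ℝ) ^ e * Real.exp (-(mT τ)) := by
  obtain ⟨κ0, hκ, hκ1, H⟩ := H
  refine ⟨κ0, hκ, hκ1, fun ep hep hep1 e1 he1 he11 J hJ hJ1 => ?_⟩
  have hn : ∀ k, 1 ≤ k → ‖PBI.PLX.nrR k * (2 * Real.pi : ℂ)⁻¹ ^ 2‖ *
      Real.exp (_root_.PLX.EM2 k) ≤ (Real.sin l)⁻¹ * ‖(2 * Real.pi : ℂ)⁻¹ ^ 2‖ := by
    intro k _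
    rw [norm_mul, mul_right_comm, PBI.PLX.norm_nrR]
  obtain ⟨k0, hk0, H⟩ := H ep hep hep1 e1 he1 he11 J hJ hJ1 _ _ hn
  filter_upwards [eventually_ge_atTop k0] with k hk τ hτ
  have h1k : 1 ≤ k := by omega
  have hL : 0 ≤ Real.log k := Real.log_nonneg (by exact_mod_cast h1k)
  have hTW : 3 / 8 * Real.log k ≤ TW ep e1 k := by
    have h : TW ep e1 k = (1 + 2 * e1 + 2 * ep) * (3 / 8 * Real.log k) := rfl
    rw [h]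
    nlinarith [mul_nonneg he1.le hL, mul_nonneg hep.le hL]
  have key := H k hk τ (hτ.1.trans hTW) (hτ.2.trans hTW) (2 * (k - 1)) (by omega)
  rw [KK_any]
  have h1 : cr e1 J k = fun _ _ => NUGC.PLX.etaC e1 J k k := rfl
  have h2 : cr' e1 J k = fun _ _ => NUGC.PLX.etaC' e1 J k k := rfl
  unfold SR06
  rw [h1, h2, mul_left_comm, norm_mul, norm_pow, norm_neg, norm_one, one_pow, one_mul, PBI.PLX.wt_vl,
    PBI.PLX.wt_vl]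
  exact key

end PBTRF.PLX

end
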