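import Pool.Agent.PLX.PB.TRH1a
import Pool.Agent.PHK.TRH26
import Pool.Agent.PLX.NUGC.CurEx

/-!
# The particle-hole form (P), (H1) of (TR) along a ray, literally (helper8)

* `E11R ep k n`: the eleven integrals at rows and ends `0`;
* `MstV6`: the regular function as its class `W W` on the window `|τ₁|, |τ₂| ≤ 3/8 log k` (`mst_R06`);
* **`h1_SR06`**: `Yk k` is, up to a phase, the integral of `KK (SR06 ep e1 J) k` over the window, error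
  `k ^ (-c0)`, every `c0 < 7/16`.
-/

set_option autoImplicit false

noncomputable section

open Complex MeasureTheory Finset Filter

open PLX (Fil)

namespace PBTRF.PLX

open NUGC NUGC.PLX PBF PBF.PLX PBR PBR.PLX PBX PBX.PLX PBI PBI.PLX PBU.PLX
open NUO NUP1 NURow
open NUP1.Leg (Dk Bp)
open PBT3 (wt zt k1T)
open PBTR (mT winW)
open PBTV.PLX (gV6)
open Pool.Agent.PLX (nrmN phN WP BN W_gas bulkN h1_ofN norm_phN)
open PHK

attribute [local instance] NUSea.seaP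

variable [Fil]

/-- the eleven integrals at rows and ends `0` -/
def E11R (ep : ℝ) (k n : ℕ) : ℂ :=
  NUP1.N.E11 (3 / 5 * l) (-(17 / 10) * l) (RR6 ep k).p (RR6 ep k).q (RR6 ep k).x (RR6 ep k).y
    (RR6 ep k).hX (RR6 ep k).hY n (n + Fil.xn (k - 1)) (31 / 50 * l) (-(11 / 4) * l)

/-- the functional of the class `W W` at the heights `y` -/
def FW6 (ep : ℝ) (k n : ℕ) (η η' : Crs) (y : ℝ × ℝ) : ℂ :=
  FF6 (PBR.PLX.RZW (RR6 ep k) (vl (5 / 4 * l) y.1) (vl (5 / 4 * l) y.2)) par6 n (n + Fil.xn (k - 1))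
    η η' (fun _ _ _ _ _ => 1)

/-- **the regular function as its class `W W` on the window** -/
def MstV6 : Prop := ∀ ε : ℝ, 0 < ε → ∃ ep0 : ℝ, 0 < ep0 ∧ ep0 ≤ 1 / 100 ∧
    ∀ ep : ℝ, 0 < ep → ep ≤ ep0 → ∃ (Cst : ℝ) (k0 : ℕ), 0 ≤ Cst ∧ 1 ≤ k0 ∧ ∀ k : ℕ, k0 ≤ k →
      ∀ η η' : ℝ × ℝ → Crs, (∀ (y : ℝ × ℝ) (r : ℕ) (O : Fin r → Xo), NUCR.CurB ep (η y r O) (η' y r O)) →
      ‖∑ n ∈ range (2 * (k - 1) + 1), E11R ep k n - (2 * (Real.pi : ℂ))⁻¹ ^ 2 *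
        ∫ y in winW (3 / 8) k, PBI.PLX.kR k y *
          ∑ n ∈ range (2 * (k - 1) + 1), FW6 ep k n (η y) (η' y) y‖ ≤
        Cst * (k : ℝ) ^ (-(7 / 16) + ε) * Real.exp (_root_.PLX.EM2 k)

/-- the integrand in the names of `MstV6` -/
theorem KK_FW (ep e1 J : ℝ) (k : ℕ) (y : ℝ × ℝ) : KK (SR06 ep e1 J) k y =
    (nr k * (-1) ^ Fil.xn (k - 1)) * ((2 * (Real.pi : ℂ))⁻¹ ^ 2 * (PBI.PLX.kR k y *
      ∑ n ∈ range (2 * (k - 1) + 1), FW6 ep k n (cr e1 J k) (cr' e1 J k) y)) := by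
  rw [KK_any]
  unfold SR06 FW6
  rw [PBI.PLX.wt_vl, PBI.PLX.wt_vl, PBI.PLX.nrR_eq]
  ring

theorem hX_RR6 (ep : ℝ) (k : ℕ) : (RR6 ep k).hX = (Pool.Agent.PLX.R0 (k - 1) (NUGC.PLX.beC ep) [I, -I] []).hX := rfl

theorem hY_RR6 (ep : ℝ) (k : ℕ) : (RR6 ep k).hY = (Pool.Agent.PLX.R0 (k - 1) (NUGC.PLX.beC ep) [I, -I] []).hY := rfl

/-- the physical function -/
theorem phys_RR6 {k : ℕ} (hk : 1 ≤ k) {ep : ℝ} (hep : 0 < ep) (hep1 : ep ≤ 1 / 100) :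
    2 ^ (NL k * (NL k - 1)) * (BN (NL k) ^ 2 * WP (lt_NL k)) / bulkN (NL k) =
      nr k * ∑ n ∈ range (2 * (k - 1) + 1), E11R ep k n := by
  rw [phys_R0 hk hep hep1]
  rfl

/-- **(H1)** -/
theorem h1_SR06 (H : MstV6) {c0 : ℝ} (hc : c0 < 7 / 16) : ∃ ep0 : ℝ, 0 < ep0 ∧ ep0 ≤ 1 / 100 ∧
    ∀ ep : ℝ, 0 < ep → ep ≤ ep0 → ∀ e1 : ℝ, 0 < e1 → e1 ≤ 1 / 100 → ∀ J : ℝ, 0 ≤ J →
    ∀ᶠ k : ℕ in atTop, ‖((Yk k : ℝ) : ℂ) - phk k * ∫ τ in winW (3 / 8) k, KK (SR06 ep e1 J) k τ‖ ≤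
      (k : ℝ) ^ (-c0) := by
  obtain ⟨ep0, h0, h1, H⟩ := H ((7 / 16 - c0) / 2) (by linarith)
  refine ⟨ep0, h0, h1, fun ep hep hep0 e1 he1 he11 J hJ => ?_⟩
  have hep1 := hep0.trans h1
  obtain ⟨Cst, k0, hC, hk0, H⟩ := H ep hep hep0
  obtain ⟨kc, hkc, Hc⟩ := NUGC.PLX.curOKC he1 he11 hJ hep
  have h3 : Tendsto (fun k : ℕ => (k : ℝ) ^ ((7 / 16 - c0) / 2)) atTop atTop :=
    (tendsto_rpow_atTop (by linarith)).comp tendsto_natCast_atTop_atTop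
  filter_upwards [h3.eventually_ge_atTop ((Real.sin l)⁻¹ * Cst), eventually_ge_atTop k0,
    eventually_ge_atTop kc] with k q1 q2 q3
  have hk : 1 ≤ k := hk0.trans q2
  have hkp : (0 : ℝ) < k := by exact_mod_cast hk
  have hsg : ((-1 : ℂ) ^ Fil.xn (k - 1)) * (-1) ^ Fil.xn (k - 1) = 1 := by
    rw [← mul_pow]; norm_num
  have hN : 1 ≤ k := hk
  have key := h1_ofN (N := NL k) (r := k) hk (lt_NL k) (X := (-1) ^ Fil.xn (k - 1) *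
    ∫ τ in winW (3 / 8) k, KK (SR06 ep e1 J) k τ) (e := (k : ℝ) ^ (-c0)) ?_
  · unfold Yk phk
    rw [mul_assoc]
    exact key
  have e := H k q2 (fun _ => cr e1 J k) (fun _ => cr' e1 J k) fun y r O => Hc k q3 k (by linarith)
  rw [phys_RR6 hk hep hep1]
  simp only [KK_FW]
  rw [integral_const_mul, integral_const_mul]
  have e2 : nr k * ∑ n ∈ range (2 * (k - 1) + 1), E11R ep k n -
      (-1) ^ Fil.xn (k - 1) * (nr k * (-1) ^ Fil.xn (k - 1) * ((2 * (Real.pi : ℂ))⁻¹ ^ 2 *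
        ∫ y in winW (3 / 8) k, PBI.PLX.kR k y *
          ∑ n ∈ range (2 * (k - 1) + 1), FW6 ep k n (cr e1 J k) (cr' e1 J k) y)) =
      nr k * (∑ n ∈ range (2 * (k - 1) + 1), E11R ep k n - (2 * (Real.pi : ℂ))⁻¹ ^ 2 *
        ∫ y in winW (3 / 8) k, PBI.PLX.kR k y *
          ∑ n ∈ range (2 * (k - 1) + 1), FW6 ep k n (cr e1 J k) (cr' e1 J k) y) := by
    linear_combination (-(nr k) * ((2 * (Real.pi : ℂ))⁻¹ ^ 2 *
        ∫ y in winW (3 / 8) k, PBI.PLX.kR k y *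
          ∑ n ∈ range (2 * (k - 1) + 1), FW6 ep k n (cr e1 J k) (cr' e1 J k) y)) * hsg
  rw [e2, norm_mul]
  refine (mul_le_mul_of_nonneg_left e (norm_nonneg _)).trans ?_
  have hn : ‖nr k‖ * Real.exp (_root_.PLX.EM2 k) = (Real.sin l)⁻¹ := by
    rw [← PBI.PLX.nrR_eq]
    exact PBI.PLX.norm_nrR k
  have e1 : (k : ℝ) ^ (-(7 / 16) + (7 / 16 - c0) / 2) =
      (k : ℝ) ^ (-c0) * ((k : ℝ) ^ ((7 / 16 - c0) / 2))⁻¹ := by
    rw [← Real.rpow_neg hkp.le, ← Real.rpow_add hkp]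
    congr 1
    ring
  have hp : 0 < (k : ℝ) ^ ((7 / 16 - c0) / 2) := Real.rpow_pos_of_pos hkp _
  calc ‖nr k‖ * (Cst * (k : ℝ) ^ (-(7 / 16) + (7 / 16 - c0) / 2) *
        Real.exp (_root_.PLX.EM2 k))
      = (‖nr k‖ * Real.exp (_root_.PLX.EM2 k)) * Cst *
          (k : ℝ) ^ (-(7 / 16) + (7 / 16 - c0) / 2) := by ring
    _ = (Real.sin l)⁻¹ * Cst * ((k : ℝ) ^ (-c0) * ((k : ℝ) ^ ((7 / 16 - c0) / 2))⁻¹) := by
        rw [hn, e1]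
    _ ≤ (k : ℝ) ^ ((7 / 16 - c0) / 2) * ((k : ℝ) ^ (-c0) * ((k : ℝ) ^ ((7 / 16 - c0) / 2))⁻¹) :=
        mul_le_mul_of_nonneg_right q1 (by positivity)
    _ = (k : ℝ) ^ (-c0) := by
        field_simp

/-- **measurability** of the integrand from that of the functionals -/
theorem hm_SR06 {ep e1 J : ℝ} {V : ℕ → Set (ℝ × ℝ)}
    (H : ∀ᶠ k : ℕ in atTop, AEStronglyMeasurable (fun y => PBI.PLX.kR k y *
      ∑ n ∈ range (2 * (k - 1) + 1), FW6 ep k n (cr e1 J k) (cr' e1 J k) y) (volume.restrict (V k))) :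
    ∀ᶠ k : ℕ in atTop, AEStronglyMeasurable (KK (SR06 ep e1 J) k) (volume.restrict (V k)) := by
  filter_upwards [H] with k hk
  have e : KK (SR06 ep e1 J) k = fun y => (nr k * (-1) ^ Fil.xn (k - 1)) *
      ((2 * (Real.pi : ℂ))⁻¹ ^ 2 * (PBI.PLX.kR k y *
        ∑ n ∈ range (2 * (k - 1) + 1), FW6 ep k n (cr e1 J k) (cr' e1 J k) y)) := by
    funext y
    exact KK_FW _ _ _ _ _
  rw [e]
  exact (hk.const_mul _).const_mul _

end PBTRF.PLX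

end
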