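import Pool.Agent.PHK.Mst6
import Pool.Agent.PHK.Oth0C
import Pool.Agent.PHK.TRH16

/-!
# (P): the regular function as its class `W W` on the window

* **`mst_fam6`**: families of data, on the window `|τ|, |τ'| ≤ 3/8 log k`: the error
  `C k ^ (-7/16 + ε) exp (EM k)` and the pointwise bound of the integrand;
* `ok6_D06`, `rfn6_D06`: the data at rows `0`, ends `0`;
* **`mst_R06`**: rows `0`, ends `0`, cutoff points `± i`, strings `gV6`: error and pointwise bound;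
  `meas_R06`, **`ms_R6`**, `hm_R6`: measurability of the integrand; **`mstV6`**: `MstV6`; **`h1_R6`**: (H1).
-/

set_option autoImplicit false
set_option linter.unusedSectionVars false

noncomputable section

open Complex MeasureTheory Finset Filter
open scoped ENNReal
open PLX (Fil Ends)

namespace PBR.PLX

open NUO NUP1 NUCR NUP1S NURow NUGC NUGC.PLX PBX PBX.PLX
open NUP1.N (E11)
open NUP1.Leg (Dk)
open _root_.Pool.Agent.PLX
open PHK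
open PBF.PLX (Ins Crs)
open PBO.PLX (lO6 lX6 lY6 sVal6 sValD6 sInt6 sPt6 LtS SumBd6 ClOk6)
open PBTR (winW)

/-- outside the window the weight is small -/
theorem out_win6 {k : ℕ} {z : ℝ × ℝ} (hz : z ∈ (winW (3 / 8) k)ᶜ) :
    15 / 16 * Real.log k ≤ 2 * |z.1| + 2 * |z.2| + |z.1 - z.2| / 2 := by
  have h := PBTR.mT_out hz
  unfold PBTR.mT at h
  linarith

section fam

variable [Fil] [Ends]

/-- **The regular function over a geometry, on the window.** -/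
theorem mst_fam6 (hFF : FFth) {T : LtS} {EM : ℕ → ℝ} {MF : ℕ → Bool → NUSp.Cl → ℂ → ℝ}
    {K : ℝ → ℕ → PBQ.PLX.KD} {kD : ℝ → ℕ → Bool → ℂ → ℂ}
    {cw : ℝ → ℕ → HT → HT → ℝ × ℝ → Ch6 × Ch6 → ℝ} (hP : SumBd6 T EM MF K kD cw)
    (hK : ClOk6 T MF K kD cw) {mm MM : ℕ → ℕ} {D : ∀ (_ : ℝ) (k : ℕ), RU (mm k) (MM k)}
    {ex : Bool → List ℂ} {c0 : ℝ}
    (hD : ∀ ep : ℝ, 0 < ep → ep ≤ 1 / 100 → ∃ k1 : ℕ, ∀ k : ℕ, k1 ≤ k → (D ep k).Ok6 ∧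
      1 < (D ep k).β ∧ RFn6 (D ep k) (Fil.xe k) ex c0 ∧ IsKD6 (K ep k) (kD ep k) (D ep k)) :
    ∀ ε : ℝ, 0 < ε → ∃ ep0 : ℝ, 0 < ep0 ∧ ep0 ≤ 1 / 100 ∧
      ∀ ep : ℝ, 0 < ep → ep ≤ ep0 → ∃ (Cst : ℝ) (k0 : ℕ), 0 ≤ Cst ∧ 1 ≤ k0 ∧ ∀ k : ℕ, k0 ≤ k →
        ∀ η η' : ℝ × ℝ → Crs, (∀ y, ∀ r ≤ 2 * (2 * (k - 1) + (2 * (k - 1) + Fil.xe k)),
          ∀ᵐ O ∂(Measure.pi fun _ : Fin r => nu), CurB ep (η y r O) (η' y r O)) →
        ‖∑ n ∈ range (2 * (k - 1) + 1), EED6 (D ep k) (Fil.xe k) n - (2 * (Real.pi : ℂ))⁻¹ ^ 2 *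
          ∫ y in winW (3 / 8) k, preWW6 (D ep k) y * ∑ n ∈ range (2 * (k - 1) + 1),
            FF6 (ZWW6 (D ep k) y) par6 n (n + Fil.xe k) (η y) (η' y) (fun _ _ _ _ _ => 1)‖ ≤
          Cst * (k : ℝ) ^ (-(7 / 16) + ε) * Real.exp (EM k) ∧
        ∀ y ∈ winW (3 / 8) k, ‖preWW6 (D ep k) y * ∑ n ∈ range (2 * (k - 1) + 1),
            FF6 (ZWW6 (D ep k) y) par6 n (n + Fil.xe k) (η y) (η' y) (fun _ _ _ _ _ => 1)‖ ≤
          Cst * ((k : ℝ) ^ ε * Real.exp (-(PBTR.mT y))) * Real.exp (EM k) := by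
  intro ε hε
  obtain ⟨ep0, h0, h1, hoth⟩ := PBO.PLX.oth06 hP hK ε hε
  refine ⟨ep0, h0, h1, fun ep hep hep' => ?_⟩
  obtain ⟨Cst, k0, hC, hk0, hk⟩ := hoth ep hep hep'
  have hep1 : ep ≤ 1 / 100 := hep'.trans h1
  obtain ⟨k1, hD⟩ := hD ep hep hep1
  refine ⟨RG.KA * Cst + (2 * Real.pi)⁻¹ ^ 2 * (2 * Cst) + Cst, max k0 k1, by
    have := RG.KA_nonneg
    positivity, hk0.trans (le_max_left _ _), fun k hkk η η' hη => ?_⟩
  obtain ⟨ho, hd, hww, hpt⟩ := hk k ((le_max_left _ _).trans hkk)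
  obtain ⟨hOk, hβ, hR, hIs⟩ := hD k ((le_max_right _ _).trans hkk)
  have hk1 : 1 ≤ k := (hk0.trans (le_max_left _ _)).trans hkk
  have hkR : (1 : ℝ) ≤ k := by exact_mod_cast hk1
  have hkR0 : (0 : ℝ) < k := by linarith
  obtain ⟨e, he⟩ : ∃ e : ℕ, e = Fil.xe k := ⟨_, rfl⟩
  rw [← he] at ho hd hww hpt hR hη ⊢
  obtain ⟨X, hX⟩ : ∃ X : ℝ, X = Real.exp (EM k) := ⟨_, rfl⟩
  have hX0 : 0 < X := by rw [hX]; exact Real.exp_pos _
  rw [← hX] at ho hd hww hpt ⊢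
  have hKA := RG.KA_nonneg
  refine ⟨?_, fun y hy => ?_⟩
  · have hw := hww (winW (3 / 8) k)ᶜ (15 / 16 * Real.log k)
      (PBTR.measurableSet_winW _ _).compl fun z hz => out_win6 hz
    have e1 : Real.exp (-(15 / 16 * Real.log k)) * (k : ℝ) ^ ε ≤ (k : ℝ) ^ (-(7 / 16) + ε) := by
      have e2 : Real.exp (-(15 / 16 * Real.log k)) = (k : ℝ) ^ (-(15 / 16) : ℝ) := by
        rw [Real.rpow_def_of_pos hkR0]
        congr 1
        ring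
      rw [e2, ← Real.rpow_add hkR0]
      exact Real.rpow_le_rpow_of_exponent_le hkR (by linarith)
    have hB' : 0 ≤ 2 * Cst * (k : ℝ) ^ (-(7 / 16) + ε) * X := by positivity
    have hf : sInt6 (K ep k) (2 * k) e .W .W (winW (3 / 8) k)ᶜ ≤
        ENNReal.ofReal (2 * Cst * (k : ℝ) ^ (-(7 / 16) + ε) * X) := by
      refine hw.trans (ENNReal.ofReal_le_ofReal ?_)
      refine mul_le_mul_of_nonneg_right ?_ hX0.le
      calc Cst * (Real.exp (-(15 / 16 * Real.log k)) * (k : ℝ) ^ ε + (k : ℝ) ^ (-(7 / 16) + ε))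
          ≤ Cst * ((k : ℝ) ^ (-(7 / 16) + ε) + (k : ℝ) ^ (-(7 / 16) + ε)) := by gcongr
        _ = _ := by ring
    refine (mst_FF6 hFF hOk hβ hR hep hep1 hIs (N := 2 * k) (N' := 2 * (k - 1)) (by omega) hB'
      ho hd (PBTR.measurableSet_winW _ _) hf η η' hη).trans ?_
    have h3 : 0 ≤ (k : ℝ) ^ (-(7 / 16) + ε) * X := by positivity
    calc RG.KA * (Cst * (k : ℝ) ^ (-(7 / 16) + ε) * X) + (2 * Real.pi)⁻¹ ^ 2 *
          (2 * Cst * (k : ℝ) ^ (-(7 / 16) + ε) * X)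
        = (RG.KA * Cst + (2 * Real.pi)⁻¹ ^ 2 * (2 * Cst)) * ((k : ℝ) ^ (-(7 / 16) + ε) * X) := by
          ring
      _ ≤ (RG.KA * Cst + (2 * Real.pi)⁻¹ ^ 2 * (2 * Cst) + Cst) *
          ((k : ℝ) ^ (-(7 / 16) + ε) * X) := by
          refine mul_le_mul_of_nonneg_right ?_ h3
          linarith
      _ = _ := by ring
  · have h2 := hpt y hy.1 hy.2
    have e1 : ∑ n ∈ range (2 * (k - 1) + 1),
        FF6 (ZWW6 (D ep k) y) par6 n (n + e) (η y) (η' y) (fun _ _ _ _ _ => 1) =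
        ∑ n ∈ range (2 * (k - 1) + 1), objWW6 (D ep k) e n y := by
      refine Finset.sum_congr rfl fun n hn => ?_
      exact (objWW6_FF hFF hR hep hep1 n y
        fun r hr => hη y r (by have := Finset.mem_range.1 hn; omega)).symm
    rw [e1, norm_mul]
    have e2 : sPt6 (K ep k) (2 * k) e .W .W (vl (NUGC.PLX.htL .W) y.1)
        (vl (NUGC.PLX.htL .W) y.2) = ‖preWW6 (D ep k) y‖ * ∑ n ∈ range (2 * k + 1),
          ‖objWW6 (D ep k) e n y‖ := by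
      unfold sPt6
      rw [hIs.cl, hIs.zX, hIs.zY, cFWW_pre]
      congr 1
    rw [e2] at h2
    have e3 : ‖∑ n ∈ range (2 * (k - 1) + 1), objWW6 (D ep k) e n y‖ ≤
        ∑ n ∈ range (2 * k + 1), ‖objWW6 (D ep k) e n y‖ :=
      (norm_sum_le _ _).trans (Finset.sum_le_sum_of_subset_of_nonneg
        (Finset.range_subset_range.2 (by omega)) fun _ _ _ => norm_nonneg _)
    refine (mul_le_mul_of_nonneg_left e3 (norm_nonneg _)).trans (h2.trans ?_)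
    have e4 : Real.exp (-(2 * |y.1| + 2 * |y.2| + |y.1 - y.2| / 2)) =
        Real.exp (-(PBTR.mT y)) := by
      unfold PBTR.mT
      congr 1
    rw [e4]
    have h4 : 0 ≤ (k : ℝ) ^ ε * Real.exp (-(PBTR.mT y)) := by positivity
    have h5 : 0 ≤ RG.KA * Cst + (2 * Real.pi)⁻¹ ^ 2 * (2 * Cst) := by positivity
    calc Cst * (Real.exp (-(PBTR.mT y)) * (k : ℝ) ^ ε) * X
        = Cst * ((k : ℝ) ^ ε * Real.exp (-(PBTR.mT y))) * X := by ring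
      _ ≤ _ := by
        refine mul_le_mul_of_nonneg_right (mul_le_mul_of_nonneg_right ?_ h4) hX0.le
        linarith

end fam

/-! ### rows `0`, ends `0` -/

section rows0

attribute [local instance] NUSea.seaP PLX.ends1

variable [Fil]

open PBTV.PLX (gV6 meas_gV6)
open PBO.PLX (D06 K06 kD06 gF06 gF06' beC_bd6 T06 cw06 ClsA06 clOk0R sumBd0R)
open PBTRF.PLX (E11R FW6 MstV6 RR6)

theorem rws_zero6 {n : ℕ} : Rws fun _ : Fin n => (0 : ℂ) := by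
  have hl := Bd.l_pos
  intro i
  show |(0 : ℂ).re| ≤ l / 2
  rw [zero_re, abs_zero]
  linarith

theorem re_II {w : ℂ} (hw : w ∈ [I, -I]) : |w.re| ≤ l / 2 := by
  have hl := Bd.l_pos
  simp only [List.mem_cons, List.not_mem_nil, or_false] at hw
  rcases hw with rfl | rfl
  · rw [I_re, abs_zero]
    positivity
  · rw [neg_re, I_re, neg_zero, abs_zero]
    positivity

/-- **the data at rows `0` are admissible** -/
theorem ok6_D06 {ep : ℝ} (h0 : 0 < ep) (h1 : ep ≤ 1 / 100) (k : ℕ) : (D06 ep k).Ok6 := by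
  obtain ⟨b1, b2, b3⟩ := beC_bd6 h0 h1
  have hl := Bd.l_pos
  have hz : |(0 : ℂ).re| ≤ l / 2 := by
    rw [zero_re, abs_zero]
    linarith
  have hne : (0 : ℂ).re ≠ l / 4 := by
    rw [zero_re]
    intro h
    linarith
  exact ⟨b3, b2, rws_zero6, rws_zero6, hz, hz, fun _ => hne, fun _ => hne,
    GOk.gP b3 b2 fun w hw => re_II hw, GOk.gP b3 b2 fun w hw => re_II hw, (gF06 k).gn, (gF06' k).gn⟩

omit [Fil] in
theorem two_cosM : 0 < 2 * Real.cos l := by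
  have hp := Real.pi_pos
  have hl : l = Real.pi / 8 := rfl
  have h : 0 < Real.cos l := Real.cos_pos_of_mem_Ioo ⟨by linarith, by linarith⟩
  linarith

/-- **what the class formula needs, rows `0`** -/
theorem rfn6_D06 {ep : ℝ} (h0 : 0 < ep) (h1 : ep ≤ 1 / 100) : ∃ k1 : ℕ, ∀ k : ℕ, k1 ≤ k →
    RFn6 (D06 ep k) (Fil.xe k) (fun _ => [I, -I]) (2 * Real.cos l) := by
  obtain ⟨b1, b2, b3⟩ := beC_bd6 h0 h1
  obtain ⟨m1, hm1⟩ := exists_nat_ge (2 ^ 14 * Real.exp (8 / 3 * 1) * (2 : ℕ))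
  refine ⟨m1 + 2, fun k hk => ?_⟩
  have him : ∀ w ∈ [I, -I], |w.im| ≤ 1 := by
    intro w hw
    simp only [List.mem_cons, List.not_mem_nil, or_false] at hw
    rcases hw with rfl | rfl
    · simp
    · simp
  have hmm : 2 ^ 14 * Real.exp (8 / 3 * 1) * (([I, -I] : List ℂ).length : ℕ) ≤ ((k - 1 : ℕ) : ℝ) := by
    refine le_trans (by simp) (hm1.trans ?_)
    exact_mod_cast (by omega : m1 ≤ k - 1)
  exact ⟨(Fil.add_xn (k - 1)).symm, RB6_R0 _ _ b3 b2 (gF06 k).gn.meas (gF06' k).gn.meas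
    (fun w hw => re_II hw), two_cosM, gF06 k, gF06' k,
    phI6_R0 b3 b2 (fun w hw => re_II hw) zero_le_one him (by omega) hmm⟩

/-- the prefactor at rows `0` -/
theorem pre_kR (ep : ℝ) (k : ℕ) (y : ℝ × ℝ) : preWW6 (D06 ep k) y = PBI.PLX.kR k y := by
  have hZ := R06U_Z (k - 1) (Fil.q * (k - 1)) (NUGC.PLX.beC ep) [I, -I] (gV6 k true) (gV6 k false)
  unfold preWW6 PBI.PLX.kR
  rw [← hZ.KF, ← hZ.KF']
  rfl

theorem eed_R06 (ep : ℝ) (k n : ℕ) : EED6 (D06 ep k) (Fil.xe k) n = E11R ep k n := by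
  unfold EED6 E11R
  rfl

theorem fw_R06 (ep : ℝ) (k n : ℕ) (η η' : Crs) (y : ℝ × ℝ) :
    FF6 (ZWW6 (D06 ep k) y) par6 n (n + Fil.xe k) η η' (fun _ _ _ _ _ => 1) =
      FW6 ep k n η η' y := by
  unfold FW6 ZWW6
  rfl

/-- **The regular function at rows `0`, ends `0`, on the window.**  `k` effective rows in the first
group, cutoff points `± i` of the quanta, `gV6` of the strings. -/
theorem mst_R06 (hS : StabProd6 par6) (hFF : FFth) (hA : ClsA06) :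
    ∀ ε : ℝ, 0 < ε → ∃ ep0 : ℝ, 0 < ep0 ∧ ep0 ≤ 1 / 100 ∧
      ∀ ep : ℝ, 0 < ep → ep ≤ ep0 → ∃ (Cst : ℝ) (k0 : ℕ), 0 ≤ Cst ∧ 1 ≤ k0 ∧ ∀ k : ℕ, k0 ≤ k →
        ∀ η η' : ℝ × ℝ → Crs, (∀ y, ∀ r ≤ 2 * (2 * (k - 1) + (2 * (k - 1) + Fil.xn (k - 1))),
          ∀ᵐ O ∂(Measure.pi fun _ : Fin r => nu), CurB ep (η y r O) (η' y r O)) →
        ‖∑ n ∈ range (2 * (k - 1) + 1), E11R ep k n - (2 * (Real.pi : ℂ))⁻¹ ^ 2 *
          ∫ y in winW (3 / 8) k, PBI.PLX.kR k y * ∑ n ∈ range (2 * (k - 1) + 1),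
            FW6 ep k n (η y) (η' y) y‖ ≤
          Cst * (k : ℝ) ^ (-(7 / 16) + ε) * Real.exp (_root_.PLX.EM2 k) ∧
        ∀ y ∈ winW (3 / 8) k, ‖PBI.PLX.kR k y * ∑ n ∈ range (2 * (k - 1) + 1),
            FW6 ep k n (η y) (η' y) y‖ ≤
          Cst * ((k : ℝ) ^ ε * Real.exp (-(PBTR.mT y))) * Real.exp (_root_.PLX.EM2 k) := by
  have key := mst_fam6 (D := D06) (ex := fun _ => [I, -I]) (c0 := 2 * Real.cos l) hFF
    (sumBd0R hS hFF hA) clOk0R (fun ep h0 h1 => by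
      obtain ⟨k1, hk1⟩ := rfn6_D06 h0 h1
      exact ⟨k1, fun k hk => ⟨ok6_D06 h0 h1 k, (beC_bd6 h0 h1).1, hk1 k hk,
        ⟨rfl, rfl, rfl, rfl, rfl, rfl, rfl, rfl⟩⟩⟩)
  intro ε hε
  obtain ⟨ep0, h0, h1, H⟩ := key ε hε
  refine ⟨ep0, h0, h1, fun ep hep hep' => ?_⟩
  obtain ⟨Cst, k0, hC, hk0, H⟩ := H ep hep hep'
  refine ⟨Cst, k0, hC, hk0, fun k hk η η' hη => ?_⟩
  have hEM : (G06 [I, -I] F0K).EM k = _root_.PLX.EM2 k := by
    rw [G06_EM]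
    unfold _root_.PLX.EM2
    congr 1
    funext a
    cases a <;> rfl
  obtain ⟨H1, H2⟩ := H k hk η η' hη
  rw [hEM] at H1 H2
  simp only [pre_kR, eed_R06, fw_R06] at H1 H2
  exact ⟨H1, H2⟩

/-- **measurability of the integrand**, rows `0` -/
theorem meas_R06 (hFF : FFth) {ep : ℝ} (h0 : 0 < ep) (h1 : ep ≤ 1 / 100) : ∃ k1 : ℕ, ∀ k : ℕ, k1 ≤ k →
    ∀ η η' : ℝ × ℝ → Crs, (∀ y, ∀ r ≤ 2 * (2 * (k - 1) + (2 * (k - 1) + Fil.xn (k - 1))),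
      ∀ᵐ O ∂(Measure.pi fun _ : Fin r => nu), CurB ep (η y r O) (η' y r O)) →
    AEStronglyMeasurable (fun y => PBI.PLX.kR k y * ∑ n ∈ range (2 * (k - 1) + 1),
      FW6 ep k n (η y) (η' y) y) volume := by
  obtain ⟨k1, hk1⟩ := rfn6_D06 h0 h1
  refine ⟨k1, fun k hk η η' hη => ?_⟩
  have hR := hk1 k hk
  have e1 : (fun y => PBI.PLX.kR k y * ∑ n ∈ range (2 * (k - 1) + 1), FW6 ep k n (η y) (η' y) y) =
      fun y => ∑ n ∈ range (2 * (k - 1) + 1),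
        preWW6 (D06 ep k) y * objWW6 (D06 ep k) (Fil.xe k) n y := by
    funext y
    rw [← pre_kR ep k y, Finset.mul_sum]
    refine Finset.sum_congr rfl fun n hn => ?_
    rw [← fw_R06, objWW6_FF hFF hR h0 h1 n y fun r hr => hη y r (hr.trans (by
      have h2 := Finset.mem_range.1 hn
      have h3 : Fil.xe k = Fil.xn (k - 1) := rfl
      omega))]
  rw [e1]
  have h := integrable_finsetSum (μ := volume) (range (2 * (k - 1) + 1))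
    (f := fun n y => preWW6 (D06 ep k) y * objWW6 (D06 ep k) (Fil.xe k) n y)
    fun n _ => int_preWW6 (ok6_D06 h0 h1 k) (beC_bd6 h0 h1).1 hR.hM n
  exact h.aestronglyMeasurable

/-- **measurability of the integrand on any sets** (`MsV6` for the windows) -/
theorem ms_R6 (hFF : FFth) (V : ℕ → Set (ℝ × ℝ)) (ep e1 J : ℝ) (h0 : 0 < ep) (h1 : ep ≤ 1 / 100)
    (he1 : 0 < e1) (he11 : e1 ≤ 1 / 100) (hJ : 0 ≤ J) :
    ∀ᶠ k : ℕ in atTop, AEStronglyMeasurable (fun y => PBI.PLX.kR k y *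
      ∑ n ∈ range (2 * (k - 1) + 1), FW6 ep k n (PBU.PLX.cr e1 J k) (PBU.PLX.cr' e1 J k) y)
      (volume.restrict (V k)) := by
  obtain ⟨k1, hk1⟩ := meas_R06 hFF h0 h1
  obtain ⟨kc, hkc, Hc⟩ := NUGC.PLX.curOKC he1 he11 hJ h0
  filter_upwards [eventually_ge_atTop k1, eventually_ge_atTop kc] with k q1 q2
  exact (hk1 k q1 (fun _ => PBU.PLX.cr e1 J k) (fun _ => PBU.PLX.cr' e1 J k) fun y r _ =>
    Filter.Eventually.of_forall fun O => Hc k q2 k (by linarith)).restrict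

/-- **measurability of the integrand of (TR)** -/
theorem hm_R6 (hFF : FFth) {ep e1 J : ℝ} (h0 : 0 < ep) (h1 : ep ≤ 1 / 100) (he1 : 0 < e1)
    (he11 : e1 ≤ 1 / 100) (hJ : 0 ≤ J) (V : ℕ → Set (ℝ × ℝ)) :
    ∀ᶠ k : ℕ in atTop, AEStronglyMeasurable (PBTRF.PLX.KK (PBTRF.PLX.SR06 ep e1 J) k)
      (volume.restrict (V k)) :=
  PBTRF.PLX.hm_SR06 (ms_R6 hFF V ep e1 J h0 h1 he1 he11 hJ)

/-- **`MstV6`** -/
theorem mstV6 (hS : StabProd6 par6) (hFF : FFth) (hA : ClsA06) : MstV6 := by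
  intro ε hε
  obtain ⟨ep0, h0, h1, H⟩ := mst_R06 hS hFF hA ε hε
  refine ⟨ep0, h0, h1, fun ep hep hep' => ?_⟩
  obtain ⟨Cst, k0, hC, hk0, H⟩ := H ep hep hep'
  exact ⟨Cst, k0, hC, hk0, fun k hk η η' hη =>
    (H k hk η η' fun y r _ => Filter.Eventually.of_forall fun O => hη y r O).1⟩

/-- **(H1) of (TR)** -/
theorem h1_R6 (hS : StabProd6 par6) (hFF : FFth) (hA : ClsA06) {c0 : ℝ} (hc : c0 < 7 / 16) :
    ∃ ep0 : ℝ, 0 < ep0 ∧ ep0 ≤ 1 / 100 ∧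
    ∀ ep : ℝ, 0 < ep → ep ≤ ep0 → ∀ e1 : ℝ, 0 < e1 → e1 ≤ 1 / 100 → ∀ J : ℝ, 0 ≤ J →
    ∀ᶠ k : ℕ in atTop, ‖((PBTRF.PLX.Yk k : ℝ) : ℂ) - PBTRF.PLX.phk k *
      ∫ τ in winW (3 / 8) k, PBTRF.PLX.KK (PBTRF.PLX.SR06 ep e1 J) k τ‖ ≤ (k : ℝ) ^ (-c0) :=
  PBTRF.PLX.h1_SR06 (mstV6 hS hFF hA) hc

end rows0

end PBR.PLX

end
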