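import Pool.Agent.PHK.QCG6
import Pool.Agent.PHK.Cls6
import Pool.Agent.PLX.PB.Geo
import Pool.Agent.PLX.NUGC.Ob1Fac
import Pool.Agent.PLX.Ends

/-!
# (P): the state sum over an abstract geometry: the classes except `W W`, and `W W` outside the near set

The content of `PB/Oth0` for the six kinds, letters `(t, u)` = type of the half quantum and choice.

* `lX6`, `lY6`: the lines of the objects; `sVal6`, `sValD6`, `sInt6`, `sPt6`: sums over the numbers of quanta,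
  quanta on `51/100 l`;
* `LtS`: charges, phases, extra own factors and sea exponents of the letters; **`SumBd6`**: the bounds of the
  sums over the numbers at fixed heights; **`ClOk6`**: own and direct factors;
* **`oth06`**: for every `ε > 0` and every small `ep`, eventually in `m`: (a) every class except `W W` is at
  most `Cst m ^ (-7/16 + ε) exp (EM m)`; (b) D1, D1' the same; (c) `W W` over a set where
  `κ ≤ 2 |τ| + 2 |τ'| + |τ - τ'| / 2` is at most `Cst (exp (-κ) m ^ ε + m ^ (-7/16 + ε)) exp (EM m)`; (d) the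
  pointwise bound of `W W` in the window.
-/

set_option autoImplicit false
set_option linter.unusedSectionVars false

noncomputable section

open Complex MeasureTheory Finset
open scoped ENNReal
open PLX (Fil Ends)

namespace PBO.PLX

open NUO NUP1 NUCR NUP1S NUP1S.Ab NUP1S.AbC NUP1S.AbG NURow NUP1.Leg NUGC NUGC.PLX
open PHK
open PBR.PLX (Ch6 okC6 aXv aYv obV6 ClsV6 ClsD6)

/-! ### lines and sums over the numbers -/

/-- the lines of the objects of (P): `L` on `(1 - jL) l`, `S` on `-(1 + e) l`, `T` on `-l / 2` -/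
def lO6 : O3 → ℝ
  | .L => (1 - par6.jL) * l
  | .S => -((1 + par6.e) * l)
  | .T => -(l / 2)

/-- the lines of the objects X -/
def lX6 : ∀ p p' : ℕ, (Fin p → O3) → (Fin p' → O3) → Fin p → ℝ := fun _ _ k _ i => lO6 (k i)

/-- the lines of the objects Y -/
def lY6 : ∀ p p' : ℕ, (Fin p → O3) → (Fin p' → O3) → Fin p' → ℝ := fun _ _ _ k' i => lO6 (k' i)

/-- the sum over the numbers of quanta of the moduli of the values of a class -/
def sVal6 (K : PBQ.PLX.KD) (N e : ℕ) (t t' : HT) : ℝ := ∑ n ∈ range (N + 1),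
  ‖(K.cl t t').val (K.Z true) (K.Z false) (51 / 100 * l) n (n + e) lX6 lY6‖

/-- the same for D1 (`o = true`), D1' -/
def sValD6 (K : PBQ.PLX.KD) (kD : Bool → ℂ → ℂ) (N e : ℕ) (o : Bool) : ℝ :=
  ∑ n ∈ range (N + 1),
    ‖(cDo o (kD o)).val (K.Z true) (K.Z false) (51 / 100 * l) n (n + e) lX6 lY6‖

/-- the sum over the numbers of the moduli at one position -/
def sPt6 (K : PBQ.PLX.KD) (N e : ℕ) (t t' : HT) (w w' : ℂ) : ℝ :=
  ‖(K.cl t t').pre w w'‖ * ∑ n ∈ range (N + 1),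
    ‖(K.cl t t').Z (K.Z true) (K.Z false) (51 / 100 * l) n (n + e) lX6 lY6 w w'‖

/-- the sum over the numbers of the integrals over a set -/
def sInt6 (K : PBQ.PLX.KD) (N e : ℕ) (t t' : HT) (S : Set (ℝ × ℝ)) : ℝ≥0∞ :=
  ∑ n ∈ range (N + 1), ∫⁻ y in S, ‖(K.cl t t').pre (vl (htL t) y.1) (vl (htL t') y.2)‖ₑ *
    ‖(K.cl t t').Z (K.Z true) (K.Z false) (51 / 100 * l) n (n + e) lX6 lY6 (vl (htL t) y.1)
      (vl (htL t') y.2)‖ₑ

/-! ### the letters -/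

/-- **the letters**: charges, phases, extra own factors (`ep`, rows), sea exponents (rows, species) -/
structure LtS where
  q : HT → Ch6 → ℝ
  ph : HT → Ch6 → ℝ
  f : ℝ → ℕ → HT → Ch6 → ℝ → ℝ
  M : ℕ → Bool → HT → Ch6 → ℝ → ℝ

variable (T : LtS)

/-- **the prefactor of the choice `u` of the class `t, t'`** -/
def QL6 (ep e1 J : ℝ) (m : ℕ) (A : ℝ) (t t' : HT) (y : ℝ × ℝ) (u : Ch6 × Ch6) : ℝ :=
  PBQ.PLX.QP m ep e1 J A (fun u τ => T.M m true t u.1 τ) (fun u τ => T.M m false t' u.2 τ)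
    (fun u : Ch6 × Ch6 => T.q t u.1) (fun u => T.q t' u.2) (fun u => T.ph t u.1)
    (fun u => T.ph t' u.2) y u

theorem QL6_nonneg {ep e1 J : ℝ} {m : ℕ} {A : ℝ} (hA : 0 ≤ A) (t t' : HT) (y : ℝ × ℝ)
    (u : Ch6 × Ch6) : 0 ≤ QL6 T ep e1 J m A t t' y u := PBQ.PLX.QP_nonneg hA _ _ _ _ _ _ _ _

/-- the integrand of a class with `n + htN` quanta X at the heights `y` -/
def zPt6 [Fil] [Ends] (K : PBQ.PLX.KD) (m : ℕ) (t t' : HT) (y : ℝ × ℝ) (n : ℕ) : ℂ :=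
  (K.cl t t').Z (K.Z true) (K.Z false) (51 / 100 * l) (n + htN (Fil.xe m) t t')
    (n + htN (Fil.xe m) t t' + Fil.xe m) lX6 lY6 (vl (htL t) y.1) (vl (htL t') y.2)

/-- the same for D1, D1' -/
def zPtD6 [Fil] [Ends] (K : PBQ.PLX.KD) (kD : Bool → ℂ → ℂ) (m : ℕ) (o : Bool) (y : ℝ) (n : ℕ) : ℂ :=
  (cDo o (kD o)).Z (K.Z true) (K.Z false) (51 / 100 * l) n (n + Fil.xe m) lX6 lY6
    (vl (-(11 / 4) * l) y)

/-- **the bounds of the sums over the numbers of quanta** at fixed heights: weights `cw ep m t t' y u` of the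
choices, mass `EM`, sea exponents `MF` of D1, D1' -/
def SumBd6 [Fil] [Ends] (EM : ℕ → ℝ) (MF : ℕ → Bool → NUSp.Cl → ℂ → ℝ) (K : ℝ → ℕ → PBQ.PLX.KD)
    (kD : ℝ → ℕ → Bool → ℂ → ℂ) (cw : ℝ → ℕ → HT → HT → ℝ × ℝ → Ch6 × Ch6 → ℝ) : Prop :=
  ∀ ρ : ℝ, 0 < ρ → ∃ κ0 : ℝ, 0 < κ0 ∧ κ0 ≤ 1 / 100 ∧ ∀ ep : ℝ, 0 < ep → ep ≤ κ0 →
    ∃ J : ℝ, 0 ≤ J ∧ ∃ Cst : ℝ, 0 ≤ Cst ∧ ∃ m0 : ℕ, ∀ m : ℕ, m0 ≤ m →
      (∀ t t' : HT, ∀ᵐ y : ℝ × ℝ, ∑ n ∈ range (2 * m + 1), ‖zPt6 (K ep m) m t t' y n‖ ≤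
        ∑ u : Ch6 × Ch6, cw ep m t t' y u *
          QL6 T ep ep J m (Cst * (m : ℝ) ^ ρ * Real.exp (EM m)) t t' y u) ∧
      (∀ y : ℝ × ℝ, ∑ n ∈ range (2 * m + 1), ‖zPt6 (K ep m) m .W .W y n‖ ≤
        ∑ u : Ch6 × Ch6, cw ep m .W .W y u *
          QL6 T ep ep J m (Cst * (m : ℝ) ^ ρ * Real.exp (EM m)) .W .W y u) ∧
      (∀ o : Bool, ∀ᵐ y : ℝ, ∑ n ∈ range (2 * m + 1), ‖zPtD6 (K ep m) (kD ep m) m o y n‖ ≤
        PBQ.PLX.QGD MF m ep ep J (Cst * (m : ℝ) ^ ρ * Real.exp (EM m)) o y)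

/-- **own and direct factors of all classes**: weights `cw ep m t t' y u` of the choices -/
structure ClOk6 (MF : ℕ → Bool → NUSp.Cl → ℂ → ℝ)
    (K : ℝ → ℕ → PBQ.PLX.KD) (kD : ℝ → ℕ → Bool → ℂ → ℂ)
    (cw : ℝ → ℕ → HT → HT → ℝ × ℝ → Ch6 × Ch6 → ℝ) : Prop where
  cw0 : ∀ ep m t t' y u, 0 ≤ cw ep m t t' y u
  cwo : ∀ ep m t t' y u, cw ep m t t' y u ≠ 0 → okC6 t u.1 ∧ okC6 t' u.2
  own : ∀ ep : ℝ, 0 < ep → ep ≤ 1 / 100 → ∃ C CG : ℝ, 0 ≤ C ∧ 0 ≤ CG ∧ ∃ m0 : ℕ, ∀ m ≥ m0,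
    ∀ t t' : HT, PBQ.PLX.PwOk m ep C CG
      (fun y => ((K ep m).cl t t').pre (vl (htL t) y.1) (vl (htL t') y.2)) (cw ep m t t')
      (fun u τ => T.M m true t u.1 τ) (fun u τ => T.M m false t' u.2 τ)
      (fun u : Ch6 × Ch6 => T.q t u.1) (fun u => T.q t' u.2) (fun u => T.f ep m t u.1)
      (fun u => T.f ep m t' u.2)
  ownD : ∀ ep : ℝ, 0 < ep → ep ≤ 1 / 100 → ∃ C : ℝ, 0 ≤ C ∧ ∃ m0 : ℕ, ∀ m ≥ m0,
    PBQ.PLX.OwnDLe (kD ep m) MF m C
  f0 : ∀ ep m t u τ, 0 ≤ T.f ep m t u τ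
  f1 : ∀ ep m t u τ, T.f ep m t u τ ≤ 1
  ph : ∀ t u, okC6 t u → -(3 * l) ≤ T.ph t u
  phW : T.ph .W (false, false) = -(3 * l)
  sm : ∀ ep : ℝ, 0 < ep → ep ≤ 1 / 100 → ∀ e1 : ℝ, 0 < e1 → ∃ m0 : ℕ, ∀ m ≥ m0,
    ∀ (t : HT) (u : Ch6), okC6 t u → t ≠ .W → PBQ.PLX.Sm e1 m (T.ph t u) (T.f ep m t u)

/-- the powers of `m` -/
theorem pow_comb6 {m : ℕ} (hm : 1 ≤ m) {B x α y : ℝ} (hB : 0 ≤ B) (h : α - 3 / 8 * x ≤ y) :
    B * (m : ℝ) ^ α * Real.exp (-(x * Tb (Real.log m))) ≤ B * (m : ℝ) ^ y := by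
  have h0 : (0 : ℝ) < m := by exact_mod_cast hm
  have h1 : (1 : ℝ) ≤ m := by exact_mod_cast hm
  rw [exp_Tb hm, mul_assoc, ← Real.rpow_add h0]
  exact mul_le_mul_of_nonneg_left (Real.rpow_le_rpow_of_exponent_le h1 (by (clear * - h; linarith))) hB

/-- the values of a class from the integrals over all positions -/
theorem cls_val_le6 (c : CD) (X Y : Option O3 → ℂ → ℂ) (α : ℝ) (K e : ℕ)
    (lnX : ∀ p p' : ℕ, (Fin p → O3) → (Fin p' → O3) → Fin p → ℝ)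
    (lnY : ∀ p p' : ℕ, (Fin p → O3) → (Fin p' → O3) → Fin p' → ℝ) {B : ℝ} (hB : 0 ≤ B)
    (h : ∑ n ∈ range (K + 1), ∫⁻ y : ℝ × ℝ in Set.univ, ‖c.pre (vl c.a y.1) (vl c.b y.2)‖ₑ *
      ‖c.Z X Y α n (n + e) lnX lnY (vl c.a y.1) (vl c.b y.2)‖ₑ ≤ ENNReal.ofReal B) :
    ∑ n ∈ range (K + 1), ‖c.val X Y α n (n + e) lnX lnY‖ ≤ B := by
  refine sum_norm_le hB (le_trans ?_ h)
  refine sum_le_sum fun n _ => ?_
  rw [Measure.restrict_univ]
  exact c.val_le X Y α n (n + e) lnX lnY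

/-- only one choice for `W W` -/
theorem okC6_WW {u : Ch6 × Ch6} (h : okC6 .W u.1 ∧ okC6 .W u.2) :
    u = ((false, false), (false, false)) := by
  obtain ⟨⟨a, b⟩, ⟨c, d⟩⟩ := u
  obtain ⟨⟨h1, h2⟩, ⟨h3, h4⟩⟩ := h
  have ha : a = false := by
    by_contra hc
    exact absurd (h1 (by simpa using hc)) (by simp)
  have hb : b = false := by
    by_contra hc
    exact absurd (h2 (by simpa using hc)) (by simp)
  have hcc : c = false := by
    by_contra hc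
    exact absurd (h3 (by simpa using hc)) (by simp)
  have hd : d = false := by
    by_contra hc
    exact absurd (h4 (by simpa using hc)) (by simp)
  rw [ha, hb, hcc, hd]

variable {T}

/-- **the state sum over a geometry: all classes except `W W`, and `W W` outside the near set** -/
theorem oth06 [Fil] [Ends] {EM : ℕ → ℝ} {MF : ℕ → Bool → NUSp.Cl → ℂ → ℝ}
    {K : ℝ → ℕ → PBQ.PLX.KD} {kD : ℝ → ℕ → Bool → ℂ → ℂ}
    {cw : ℝ → ℕ → HT → HT → ℝ × ℝ → Ch6 × Ch6 → ℝ} (hP : SumBd6 T EM MF K kD cw)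
    (hK : ClOk6 T MF K kD cw) : ∀ ε : ℝ, 0 < ε → ∃ ep0 : ℝ, 0 < ep0 ∧ ep0 ≤ 1 / 100 ∧
      ∀ ep : ℝ, 0 < ep → ep ≤ ep0 → ∃ (Cst : ℝ) (m0 : ℕ), 0 ≤ Cst ∧ 1 ≤ m0 ∧ ∀ m : ℕ, m0 ≤ m →
        (∀ t t' : HT, ¬(t = .W ∧ t' = .W) →
          sVal6 (K ep m) (2 * m) (Fil.xe m) t t' ≤
            Cst * (m : ℝ) ^ (-(7 / 16) + ε) * Real.exp (EM m)) ∧
        (∀ o : Bool, sValD6 (K ep m) (kD ep m) (2 * m) (Fil.xe m) o ≤
            Cst * (m : ℝ) ^ (-(7 / 16) + ε) * Real.exp (EM m)) ∧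
        (∀ (S : Set (ℝ × ℝ)) (κ : ℝ), MeasurableSet S →
          (∀ z ∈ S, κ ≤ 2 * |z.1| + 2 * |z.2| + |z.1 - z.2| / 2) →
          sInt6 (K ep m) (2 * m) (Fil.xe m) .W .W S ≤
            ENNReal.ofReal (Cst * (Real.exp (-κ) * (m : ℝ) ^ ε + (m : ℝ) ^ (-(7 / 16) + ε)) *
              Real.exp (EM m))) ∧
        (∀ y : ℝ × ℝ, |y.1| ≤ 3 / 8 * Real.log m → |y.2| ≤ 3 / 8 * Real.log m →
          sPt6 (K ep m) (2 * m) (Fil.xe m) .W .W (vl (htL .W) y.1) (vl (htL .W) y.2) ≤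
            Cst * (Real.exp (-(2 * |y.1| + 2 * |y.2| + |y.1 - y.2| / 2)) * (m : ℝ) ^ ε) *
              Real.exp (EM m)) := by
  intro ε hε
  obtain ⟨δ, hδ⟩ : ∃ δ : ℝ, δ = min (ε / 8) (1 / 4) := ⟨_, rfl⟩
  have hδ0 : 0 < δ := by rw [hδ]; exact lt_min (by positivity) (by norm_num)
  have hδ1 : δ ≤ 1 / 4 := by rw [hδ]; exact min_le_right _ _
  have hδε : δ ≤ ε / 8 := by rw [hδ]; exact min_le_left _ _
  obtain ⟨κ0, hκ0, hκ1, hP⟩ := hP δ hδ0
  refine ⟨min κ0 (ε / 32), lt_min hκ0 (by positivity), (min_le_left _ _).trans hκ1,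
    fun ep hep0 hep => ?_⟩
  have hepκ : ep ≤ κ0 := hep.trans (min_le_left _ _)
  have hep2 : ep ≤ 1 / 100 := hepκ.trans hκ1
  have hCe : ep ≤ ε / 32 := hep.trans (min_le_right _ _)
  obtain ⟨J, hJ0, Cst, hCst, M0, hM0⟩ := hP ep hep0 hepκ
  obtain ⟨Cm, CG, hCm0, hCG, n1, hown⟩ := hK.own ep hep0 hep2
  obtain ⟨Cd, hCd, n3, hownD⟩ := hK.ownD ep hep0 hep2
  obtain ⟨n4, hsm⟩ := hK.sm ep hep0 hep2 ep hep0
  have hlog : Filter.Tendsto (fun m : ℕ => Real.log m) Filter.atTop Filter.atTop :=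
    Real.tendsto_log_atTop.comp tendsto_natCast_atTop_atTop
  obtain ⟨n5, hn5⟩ := Filter.eventually_atTop.1 (hlog.eventually_ge_atTop 54)
  -- the constants
  obtain ⟨D1, hD1⟩ : ∃ D1 : ℝ, D1 = Cst * (Cm * Cm * CG) := ⟨_, rfl⟩
  have hD10 : 0 ≤ D1 := by rw [hD1]; (clear * - hCst hCm0 hCG; positivity)
  have hKC := PBQ.PLX.KC_nonneg δ
  obtain ⟨KK, hKK⟩ : ∃ KK : ℝ, KK = Fintype.card (Ch6 × Ch6) * PBQ.PLX.KC δ := ⟨_, rfl⟩
  have hKK0 : 0 ≤ KK := by rw [hKK]; positivity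
  obtain ⟨R1, hR1⟩ : ∃ R1 : ℝ, R1 = D1 * KK := ⟨_, rfl⟩
  obtain ⟨R2, hR2⟩ : ∃ R2 : ℝ, R2 = Cd * Cst * (40 / 3 * Real.exp 12) := ⟨_, rfl⟩
  obtain ⟨R3, hR3⟩ : ∃ R3 : ℝ, R3 = D1 * (4 * (δ⁻¹) ^ 2 * Real.exp 20) := ⟨_, rfl⟩
  obtain ⟨R4, hR4⟩ : ∃ R4 : ℝ, R4 = D1 * (3000 * (δ⁻¹) ^ 2 * Real.exp 6) := ⟨_, rfl⟩
  obtain ⟨R5, hR5⟩ : ∃ R5 : ℝ, R5 = D1 * Real.exp 20 := ⟨_, rfl⟩
  have hR10 : 0 ≤ R1 := by rw [hR1]; positivity
  have hR20 : 0 ≤ R2 := by rw [hR2]; positivity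
  have hR30 : 0 ≤ R3 := by rw [hR3]; positivity
  have hR40 : 0 ≤ R4 := by rw [hR4]; positivity
  have hR50 : 0 ≤ R5 := by rw [hR5]; positivity
  refine ⟨R1 + R2 + R3 + R4 + R5, max (max M0 n1) (max (max n3 n4) (max n5 1)), by (clear * - hR10 hR20 hR30 hR40 hR50; positivity),
    (le_max_right n5 1).trans ((le_max_right _ _).trans (le_max_right _ _)), fun m hm => ?_⟩
  obtain ⟨hma, hmb⟩ := max_le_iff.1 hm
  obtain ⟨g0, g2⟩ := max_le_iff.1 hma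
  obtain ⟨hmb1, hmb2⟩ := max_le_iff.1 hmb
  obtain ⟨g4, g5⟩ := max_le_iff.1 hmb1
  obtain ⟨g6, gm⟩ := max_le_iff.1 hmb2
  have hmR : (0 : ℝ) < m := by exact_mod_cast gm
  have hmR1 : (1 : ℝ) ≤ m := by exact_mod_cast gm
  have gL : (54 : ℝ) ≤ Real.log m := hn5 m g6
  have hT : 20 ≤ Tb (Real.log m) := by
    unfold Tb
    clear * - hκ0 hκ1 gL
    linarith
  have hT0 : 0 ≤ Tb (Real.log m) := by (clear * - hκ0 hκ1 hT; linarith)
  obtain ⟨hcl, hclW, hclD⟩ := hM0 m g0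
  have hO := hown m g2
  have hOD := hownD m g4
  have hfs := hsm m g5
  obtain ⟨X, hX⟩ : ∃ X : ℝ, X = Real.exp (EM m) := ⟨_, rfl⟩
  have hX0 : 0 ≤ X := by rw [hX]; exact (Real.exp_pos _).le
  rw [← hX] at hcl hclW hclD ⊢
  obtain ⟨A, hA⟩ : ∃ A : ℝ, A = Cst * (m : ℝ) ^ δ * X := ⟨_, rfl⟩
  have hA0 : 0 ≤ A := by rw [hA]; positivity
  rw [← hA] at hcl hclW hclD
  obtain ⟨e, he⟩ : ∃ e : ℕ, e = Fil.xe m := ⟨_, rfl⟩
  unfold zPt6 at hcl hclW
  unfold zPtD6 at hclD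
  rw [← he] at hcl hclW hclD ⊢
  have hS0 : ∀ (t t' : HT) (y : ℝ × ℝ), 0 ≤ ∑ u : Ch6 × Ch6, cw ep m t t' y u *
      QL6 T ep ep J m A t t' y u := fun t t' y => Finset.sum_nonneg fun u _ =>
    mul_nonneg (hK.cw0 ep m t t' y u) (QL6_nonneg T hA0 t t' y u)
  -- the sum over a set
  have hset : ∀ (t t' : HT) (S : Set (ℝ × ℝ)),
      sInt6 (K ep m) (2 * m) e t t' S ≤
          ∫⁻ y in S, ‖((K ep m).cl t t').pre (vl (htL t) y.1) (vl (htL t') y.2)‖ₑ *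
            ENNReal.ofReal (∑ u : Ch6 × Ch6, cw ep m t t' y u * QL6 T ep ep J m A t t' y u) := by
    intro t t' S
    unfold sInt6
    refine (NUGC.PLX.sum_lint_le' _ _ _).trans ?_
    refine lintegral_mono_ae ?_
    filter_upwards [ae_restrict_of_ae (hcl t t')] with y hy
    have key := ENNReal.ofReal_le_ofReal ((PBR.PLX.cF_sum_le ((K ep m).Z true) ((K ep m).Z false)
      ((K ep m).Z true) ((K ep m).Z false) (K ep m).kF (K ep m).kP (K ep m).kF' (K ep m).kP' t t'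
      (51 / 100 * l) (2 * m) e lX6 lY6 (vl (htL t) y.1) (vl (htL t') y.2)).trans hy)
    rw [← sum_enorm_eq] at key
    rw [← Finset.mul_sum]
    exact mul_le_mul_right key _
  -- the final form of a class
  have hfin : ∀ (t t' : HT) (x R : ℝ), 0 ≤ R → x = 7 / 6 - ep - 2 * δ →
      ∫⁻ y, ‖((K ep m).cl t t').pre (vl (htL t) y.1) (vl (htL t') y.2)‖ₑ *
            ENNReal.ofReal (∑ u : Ch6 × Ch6, cw ep m t t' y u * QL6 T ep ep J m A t t' y u) ≤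
        ENNReal.ofReal (A * (Cm * Cm * CG) * R * Real.exp (-(x * Tb (Real.log m)))) →
      sVal6 (K ep m) (2 * m) e t t' ≤ D1 * R * (m : ℝ) ^ (-(7 / 16) + ε) * X := by
    intro t t' x R hR hx hI
    refine cls_val_le6 _ _ _ _ _ _ _ _ (by positivity) ?_
    have e1 : ((K ep m).cl t t').a = htL t := cF_a _ _ _ _ _ _ _ _
    have e2 : ((K ep m).cl t t').b = htL t' := cF_b _ _ _ _ _ _ _ _
    rw [e1, e2]
    refine (hset t t' Set.univ).trans ?_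
    rw [Measure.restrict_univ]
    refine hI.trans ?_
    refine ENNReal.ofReal_le_ofReal ?_
    have key := pow_comb6 gm (B := D1 * R) (x := x) (α := δ) (y := -(7 / 16) + ε) (by positivity)
      (by
        rw [hx]
        clear * - hδ0 hδε hCe
        linarith)
    calc A * (Cm * Cm * CG) * R * Real.exp (-(x * Tb (Real.log m)))
        = D1 * R * (m : ℝ) ^ δ * Real.exp (-(x * Tb (Real.log m))) * X := by
          rw [hA, hD1]
          ring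
      _ ≤ _ := mul_le_mul_of_nonneg_right key hX0
  have hRR : ∀ R : ℝ, R ≤ R1 + R2 + R3 + R4 + R5 → R * (m : ℝ) ^ (-(7 / 16) + ε) * X ≤
      (R1 + R2 + R3 + R4 + R5) * (m : ℝ) ^ (-(7 / 16) + ε) * X := by
    intro R hR
    have : 0 ≤ (m : ℝ) ^ (-(7 / 16) + ε) := by positivity
    clear * - gm hR hX0
    gcongr
  -- the class `W W` has one choice
  have hWW : ∀ u : Ch6 × Ch6, u ≠ ((false, false), (false, false)) → ∀ y, cw ep m .W .W y u = 0 := by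
    intro u hu y
    by_contra h0
    exact hu (okC6_WW (hK.cwo ep m .W .W y u h0))
  refine ⟨fun t t' hne => ?_, fun o => ?_, fun S κ hS hκ => ?_, fun y hy1 hy2 => ?_⟩
  · -- the classes
    refine le_trans ?_ (hRR R1 (by (clear * - hR20 hR30 hR40 hR50; linarith)))
    rw [hR1]
    have key := PBQ.PLX.int_cls6 (ph := fun u : Ch6 × Ch6 => T.ph t u.1)
      (ph' := fun u : Ch6 × Ch6 => T.ph t' u.2) (A := A) hep0 hep2 hep0.le hep2 hJ0 hT hCm0 hCG hA0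
      (hO t t') (fun u τ => hK.f0 ep m t u.1 τ) (fun u τ => hK.f1 ep m t u.1 τ)
      (fun u τ => hK.f0 ep m t' u.2 τ) (fun u τ => hK.f1 ep m t' u.2 τ) hδ0 hδ1
      (s := univ.filter fun u : Ch6 × Ch6 => okC6 t u.1 ∧ okC6 t' u.2)
      (fun u hu y => by
        by_contra h0
        exact hu (Finset.mem_filter.2 ⟨mem_univ _, hK.cwo ep m t t' y u h0⟩))
      (fun u hu => hK.ph t u.1 (Finset.mem_filter.1 hu).2.1)
      (fun u hu => hK.ph t' u.2 (Finset.mem_filter.1 hu).2.2)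
      (fun u hu => by
        obtain ⟨-, h1, h2⟩ := Finset.mem_filter.1 hu
        by_cases ht : t = .W
        · right
          exact hfs t' u.2 h2 fun h0 => hne ⟨ht, h0⟩
        · left
          exact hfs t u.1 h1 ht)
    exact hfin t t' _ KK hKK0 rfl (by rw [hKK]; exact key)
  · -- D1, D1'
    refine le_trans ?_ (hRR R2 (by (clear * - hR10 hR30 hR40 hR50; linarith)))
    refine sum_norm_le (by (clear * - hR20 gm hX0; positivity)) ?_
    have h1 : ∑ n ∈ range (2 * m + 1),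
        ‖(cDo o (kD ep m o)).val ((K ep m).Z true) ((K ep m).Z false) (51 / 100 * l) n (n + e)
          lX6 lY6‖ₑ ≤ ∫⁻ y : ℝ, ‖kD ep m o (vl (-(11 / 4) * l) y)‖ₑ *
        ENNReal.ofReal (PBQ.PLX.QGD MF m ep ep J A o y) := by
      have key := CD1_sum_val (cDo o (kD ep m o)) ((K ep m).Z true) ((K ep m).Z false)
        (51 / 100 * l) (2 * m) e lX6 lY6
        (fun y => ENNReal.ofReal (PBQ.PLX.QGD MF m ep ep J A o y)) (by
          filter_upwards [hclD o] with y hy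
          rw [sum_enorm_eq, cDo_a]
          exact ENNReal.ofReal_le_ofReal hy)
      refine key.trans (le_of_eq ?_)
      refine lintegral_congr fun y => ?_
      rw [cDo_a, cDo_K]
    refine h1.trans ?_
    have h2 := PBQ.PLX.int_D hCd hOD hep0.le hep2 hep0 hep2 hJ0 hT hA0 o
    refine h2.trans ?_
    refine ENNReal.ofReal_le_ofReal ?_
    have key := pow_comb6 gm (B := Cd * Cst * (40 / 3 * Real.exp 12)) (x := 2 * (1 - ep))
      (α := δ) (y := -(7 / 16) + ε) (by positivity) (by (clear * - hδ0 hδε hκ0 hκ1 hepκ; linarith))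
    calc Cd * A * (40 / 3 * Real.exp 12) * Real.exp (-(2 * (1 - ep) * Tb (Real.log m)))
        = Cd * Cst * (40 / 3 * Real.exp 12) * (m : ℝ) ^ δ *
          Real.exp (-(2 * (1 - ep) * Tb (Real.log m))) * X := by
          rw [hA]
          ring
      _ ≤ _ := by
          rw [hR2]
          exact mul_le_mul_of_nonneg_right key hX0
  · -- `W W` over a set
    refine (hset .W .W S).trans ?_
    have key := PBQ.PLX.int_ww6 (ph := fun u : Ch6 × Ch6 => T.ph .W u.1)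
      (ph' := fun u : Ch6 × Ch6 => T.ph .W u.2) (A := A) hep0 hep2 hep0.le hep2 hJ0 hT hCm0 hCG hA0
      (hO .W .W) (fun u τ => hK.f0 ep m .W u.1 τ) (fun u τ => hK.f1 ep m .W u.1 τ)
      (fun u τ => hK.f0 ep m .W u.2 τ) (fun u τ => hK.f1 ep m .W u.2 τ) hδ0 hδ1 hWW hK.phW hK.phW
      hS hκ
    refine le_trans key ?_
    refine ENNReal.ofReal_le_ofReal ?_
    have key1 := pow_comb6 gm (B := D1 * (4 * (δ⁻¹) ^ 2 * Real.exp 20))
      (x := -(6 * ep + 4 * ep + 4 * δ)) (α := δ) (y := ε) (by positivity) (by (clear * - hδ0 hδε hCe; linarith))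
    have key2 := pow_comb6 gm (B := D1 * (3000 * (δ⁻¹) ^ 2 * Real.exp 6))
      (x := 7 / 6 - ep - 2 * δ) (α := δ) (y := -(7 / 16) + ε) (by positivity) (by (clear * - hδ0 hδε hCe; linarith))
    have e3 : Real.exp (-(κ - (6 * ep + 4 * ep + 4 * δ) * Tb (Real.log m))) =
        Real.exp (-κ) * Real.exp (-(-(6 * ep + 4 * ep + 4 * δ) * Tb (Real.log m))) := by
      rw [← Real.exp_add]
      congr 1
      ring
    rw [e3]
    calc A * (Cm * Cm * CG) * (4 * (δ⁻¹) ^ 2 * Real.exp 20 *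
          (Real.exp (-κ) * Real.exp (-(-(6 * ep + 4 * ep + 4 * δ) * Tb (Real.log m)))) +
          3000 * (δ⁻¹) ^ 2 * Real.exp 6 *
            Real.exp (-((7 / 6 - ep - 2 * δ) * Tb (Real.log m))))
        = (Real.exp (-κ) * (D1 * (4 * (δ⁻¹) ^ 2 * Real.exp 20) * (m : ℝ) ^ δ *
              Real.exp (-(-(6 * ep + 4 * ep + 4 * δ) * Tb (Real.log m)))) +
            D1 * (3000 * (δ⁻¹) ^ 2 * Real.exp 6) * (m : ℝ) ^ δ *
              Real.exp (-((7 / 6 - ep - 2 * δ) * Tb (Real.log m)))) * X := by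
          rw [hA, hD1]
          ring
      _ ≤ (Real.exp (-κ) * (R3 * (m : ℝ) ^ ε) + R4 * (m : ℝ) ^ (-(7 / 16) + ε)) * X := by
          rw [hR3, hR4]
          refine mul_le_mul_of_nonneg_right (add_le_add ?_ key2) hX0
          exact mul_le_mul_of_nonneg_left key1 (Real.exp_pos _).le
      _ ≤ _ := by
          refine mul_le_mul_of_nonneg_right ?_ hX0
          have q1 : 0 ≤ Real.exp (-κ) * (m : ℝ) ^ ε := by positivity
          have q2 : 0 ≤ (m : ℝ) ^ (-(7 / 16) + ε) := by positivity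
          have q3 : R3 * (Real.exp (-κ) * (m : ℝ) ^ ε) ≤
              (R1 + R2 + R3 + R4 + R5) * (Real.exp (-κ) * (m : ℝ) ^ ε) :=
            mul_le_mul_of_nonneg_right (by (clear * - hR10 hR20 hR40 hR50; linarith)) q1
          have q4 : R4 * (m : ℝ) ^ (-(7 / 16) + ε) ≤
              (R1 + R2 + R3 + R4 + R5) * (m : ℝ) ^ (-(7 / 16) + ε) :=
            mul_le_mul_of_nonneg_right (by (clear * - hR10 hR20 hR30 hR50; linarith)) q2
          clear * - q3 q4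
          linarith
  · -- `W W` in the window
    have h1 := (PBR.PLX.cF_sum_le ((K ep m).Z true) ((K ep m).Z false) ((K ep m).Z true)
      ((K ep m).Z false) (K ep m).kF (K ep m).kP (K ep m).kF' (K ep m).kP' .W .W (51 / 100 * l)
      (2 * m) e lX6 lY6 (vl (htL .W) y.1) (vl (htL .W) y.2)).trans (hclW y)
    have hTW : TW ep ep m = (1 + 2 * ep + 2 * ep) * Tb (Real.log m) := rfl
    have hTW' : 3 / 8 * Real.log m ≤ TW ep ep m := by
      have : Tb (Real.log m) = 3 / 8 * Real.log m := rfl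
      have h5 : 0 ≤ ep * Tb (Real.log m) := mul_nonneg hep0.le hT0
      rw [← this, hTW]
      clear * - h5
      linarith
    have h2 := PBQ.PLX.near_ww6 (ph := fun u : Ch6 × Ch6 => T.ph .W u.1)
      (ph' := fun u : Ch6 × Ch6 => T.ph .W u.2) (A := A) hep0 hep2 hep0.le hep2 hJ0 hT hCm0 hCG hA0
      (hO .W .W) (fun u τ => hK.f0 ep m .W u.1 τ) (fun u τ => hK.f1 ep m .W u.1 τ)
      (fun u τ => hK.f0 ep m .W u.2 τ) (fun u τ => hK.f1 ep m .W u.2 τ) hWW hK.phW hK.phW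
      (hy1.trans hTW') (hy2.trans hTW')
    have h3 := mul_le_mul_of_nonneg_left h1
      (norm_nonneg (((K ep m).cl .W .W).pre (vl (htL .W) y.1) (vl (htL .W) y.2)))
    refine h3.trans (le_trans h2 ?_)
    have key := pow_comb6 gm (B := D1 * Real.exp 20)
      (x := -(6 * ep + 4 * ep)) (α := δ) (y := ε) (by positivity) (by (clear * - hδ0 hδε hCe; linarith))
    have e3 : Real.exp (20 + (6 * ep + 4 * ep) * Tb (Real.log m)) = Real.exp 20 *
        Real.exp (-(-(6 * ep + 4 * ep) * Tb (Real.log m))) := by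
      rw [← Real.exp_add]
      congr 1
      ring
    rw [e3]
    obtain ⟨Ey, hEy⟩ : ∃ Ey : ℝ, Ey = Real.exp (-(2 * |y.1| + 2 * |y.2| + |y.1 - y.2| / 2)) :=
      ⟨_, rfl⟩
    rw [← hEy]
    have hEy0 : 0 ≤ Ey := by rw [hEy]; exact (Real.exp_pos _).le
    calc A * (Cm * Cm * CG) * (Real.exp 20 *
          Real.exp (-(-(6 * ep + 4 * ep) * Tb (Real.log m))) * Ey)
        = D1 * Real.exp 20 * (m : ℝ) ^ δ *
          Real.exp (-(-(6 * ep + 4 * ep) * Tb (Real.log m))) * (Ey * X) := by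
          rw [hA, hD1]
          ring
      _ ≤ R5 * (m : ℝ) ^ ε * (Ey * X) := by
          rw [hR5]
          exact mul_le_mul_of_nonneg_right key (mul_nonneg hEy0 hX0)
      _ ≤ (R1 + R2 + R3 + R4 + R5) * (m : ℝ) ^ ε * (Ey * X) := by
          have q1 : 0 ≤ (m : ℝ) ^ ε := by positivity
          exact mul_le_mul_of_nonneg_right (mul_le_mul_of_nonneg_right (by (clear * - hR10 hR20 hR30 hR40; linarith)) q1)
            (mul_nonneg hEy0 hX0)
      _ = _ := by ring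

end PBO.PLX

end
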