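import Pool.Agent.PHK.DataS
import Pool.Agent.PHK.RgMv
import Pool.Agent.PLX.DZUclsP
import Pool.Agent.PLX.Rg3

/-!
# (P), exact layer: the eleven integrals on the lines of (P), any cutoff of the strings

* `RU.Ok6` : admissible data; the correction `g0` of the cutoff of the strings is only needed on
  `[-29/20 l, -l/2]` (`GOn (K2P (-(29/20 l))) (4/3)`); `RU.Ok6.base`, `RU.Ok.to6`;
* `stX6` .. : stage 2 for one class; `RU.Ok6.fmD6` : the landed strips; `RU.Ok6.fmV` : the strips of (P);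
* `RU.Ok6.E11_fin6` : the eleven integrals are the final classes (landed lines);
* **`RU.Ok6.E11_finP`** : the same with the quanta on `51/100 l` and any lines of the objects in the strips
  of (P).
-/

set_option autoImplicit false
set_option linter.unusedSectionVars false
set_option linter.unusedVariables false

noncomputable section

open Complex MeasureTheory

namespace Pool.Agent.PLX

open NUP1 NUP1S NUP1.Bd NURow PBX
open NUP1.N (Z3 Gr0 GXs GYs ZP ZP' ZPP prc pr1 rA rB I0 IP IP' IPP ID ID' E11 Ln Ln_start)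
open NUP1.Leg (hE hr thE cc Ck Dk)
open PHK (GOkS KS FmV loV hiV bdd_SS diffAt_SS bdd_TTUS diffAt_TTUS stageXUS KSS)

/-- the strip of the strings of (P) -/
abbrev r6 : ℝ := -(29 / 20 * l)

theorem lnRr6 : LnR (51 / 100 * l) r6 := by
  have hl := Bd.l_pos
  unfold r6
  constructor <;> linarith

/-- admissible data, cutoff of the strings of (P) -/
structure RU.Ok6 {m M : ℕ} (D : RU m M) : Prop where
  b0 : 0 < D.β
  b1 : D.β ≤ 4 / 3
  hx : Rws D.x
  hy : Rws D.y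
  hp : |D.p.re| ≤ l / 2
  hq : |D.q.re| ≤ l / 2
  nx : ∀ i, (D.x i).re ≠ l / 4
  ny : ∀ i, (D.y i).re ≠ l / 4
  gg : GOk D.β D.g
  gg' : GOk D.β D.g'
  gg0 : GOn (K2P r6) (4 / 3) D.g0
  gg0' : GOn (K2P r6) (4 / 3) D.g0'

theorem GOn.toS {g : ℂ → ℂ} (h : GOn (K2P r6) (4 / 3) g) : GOkS (4 / 3) g := by
  have hl := Bd.l_pos
  have hs : ∀ x ∈ KS, x ∈ K2P r6 := by
    rintro x ⟨h1, h2⟩
    exact ⟨by unfold r6; linarith, h2⟩
  exact ⟨h.meas, Bdd.mono_set h.bd hs, fun z hz => h.diff z (hs _ hz)⟩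

section

variable {m M : ℕ} {D : RU m M}

/-- the landed condition -/
theorem RU.Ok.to6 (H : D.Ok) : D.Ok6 := by
  have hs : ∀ x ∈ K2P r6, x ∈ KK := fun x hx => K2P_KK lnRr6 hx
  exact ⟨H.b0, H.b1, H.hx, H.hy, H.hp, H.hq, H.nx, H.ny, H.gg, H.gg', GOn.of_GOk H.gg0 hs,
    GOn.of_GOk H.gg0' hs⟩

theorem RU.Ok6.sw (h : D.Ok6) : D.sw.Ok6 :=
  ⟨h.b0, h.b1, h.hy, h.hx, h.hq, h.hp, h.ny, h.nx, h.gg', h.gg, h.gg0', h.gg0⟩

/-- the data with trivial corrections of the cutoff of the strings -/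
def RU.one (D : RU m M) : RU m M := { D with g0 := fun _ => 1, g0' := fun _ => 1 }

theorem RU.Ok6.base (H : D.Ok6) : D.one.Ok :=
  ⟨H.b0, H.b1, H.hx, H.hy, H.hp, H.hq, H.nx, H.ny, H.gg, H.gg', GOk.one _, GOk.one _⟩

/-! ## stage 2 for one class -/

section conv

variable (H : D.Ok6)
  {lnX : ∀ p p' : ℕ, (Fin p → O3) → (Fin p' → O3) → Fin p → ℝ}
  {lnY : ∀ p p' : ℕ, (Fin p → O3) → (Fin p' → O3) → Fin p' → ℝ} (L : LnH lnX lnY)
  {w w' : ℂ} {s1 s2 t1 t2 : ℂ → ℂ}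
include H L

/-- **Stage 2 for one class**: numbers `n`, `n'`, charge `q = n' + m - (n + M)` -/
theorem stX6 (n n' : ℕ) {q : ℝ} (hn : (n' : ℝ) + m = n + M + q) (hX : SpecQ true (-q) s1 s2)
    (hY : SpecQ false (-q) t1 t2) {f k : ℂ → ℂ}
    (hf : ∀ u, f u = Gr0 D.hX D.x u * s1 u) (hk : ∀ v, k v = Gr0 D.hY D.y v * t1 v) :
    Z3 (3 / 5 * l) (-(17 / 10) * l) n n' f k =
      ZobjQ (D.Xs s1 s2) (D.Ys t1 t2) (3 / 5 * l) n n' lnX lnY := by
  have ef : f = GXU D.c D.β D.x D.y D.g (fun u => thE D.p D.p D.q D.q u * s1 u) := by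
    funext u
    rw [hf, Gr0_hX]
    show RRU D.c D.x D.y u * ph D.β D.x D.g u * thE D.p D.p D.q D.q u * s1 u = _
    unfold GXU
    ring
  have ek : k = GXU D.c' D.β D.y D.x D.g' (fun u => thE D.q D.q D.p D.p u * t1 u) := by
    funext u
    rw [hk, Gr0_hY]
    show RRU D.c' D.y D.x u * ph D.β D.y D.g' u * thE D.q D.q D.p D.p u * t1 u = _
    unfold GXU
    ring
  have h1 : SpecQ true (-q) (fun u => thE D.p D.p D.q D.q u * s1 u)
      (fun w => thS D.p D.p D.q D.q w * s2 w) := by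
    have := specQ_mul (thE_SpecQ true (o := D.p) (r' := D.q) H.hp H.hq) hX
    simpa using this
  have h2 : SpecQ false (-q) (fun u => thE D.q D.q D.p D.p u * t1 u)
      (fun w => thS D.q D.q D.p D.p w * t2 w) := by
    have := specQ_mul (thE_SpecQ false (o := D.q) (r' := D.p) H.hq H.hp) hY
    simpa using this
  rw [ef, ek, neg_mul]
  exact stageXUS H.b0 H.b1 H.hx H.hy H.gg H.gg0.toS H.gg' H.gg0'.toS n n' hn h1 h2 lnX lnY L.hX L.hY

variable {n n' : ℕ} (hn : n + M = n' + m)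
include hn

/-- no captured quantum -/
theorem stX6_WW (h : Pos w) (h' : Pos w') :
    Z3 (3 / 5 * l) (-(17 / 10) * l) n n' (GXs D.hX D.x w w') (GYs D.hY D.y w w') =
      ZobjQ (D.Xs (fun u => Ck (w - u) * Dk (w' - u)) (fun u => CC (w - u) * DD (w' - u)))
        (D.Ys (fun v => Dk (w - v) * Ck (w' - v)) (fun v => DD (w - v) * CC (w' - v)))
        (3 / 5 * l) n n' lnX lnY := by
  refine stX6 H L n n' (num0 hn) ?_ ?_ (fun u => rfl) fun v => rfl
  · rw [neg_zero]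
    exact specX_WW h h'
  · rw [neg_zero]
    exact specY_WW h h'

/-- a captured quantum of `Y` -/
theorem stX6_P (h : w.re = -(11 / 4) * l) (h' : Pos w') :
    ZP (3 / 5 * l) (-(17 / 10) * l) D.x D.y D.hX D.hY n n' w w' =
      if 1 ≤ n' then
        ZobjQ (D.Xs (fun u => Ck (w - u) * Dk (w' - u) * qg (u - (w + 3 * l)))
          (fun u => CC (w - u) * DD (w' - u) * QQ (u - (w + 3 * l))))
        (D.Ys (fun v => Ck (w' - v) * Ck (v - (w + 3 * l)))
          (fun v => CC (w' - v) * C2 (v - (w + 3 * l)))) (3 / 5 * l) n (n' - 1) lnX lnY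
      else 0 := by
  unfold ZP
  by_cases h1 : 1 ≤ n'
  · rw [if_pos h1, if_pos h1]
    refine stX6 H L n (n' - 1) (numP hn h1) ?_ ?_ (fun u => ?_) fun v => ?_
    · rw [neg_neg]
      exact specX_P h h'
    · rw [neg_neg]
      exact specY_P h h'
    · ring
    · ring
  · rw [if_neg h1, if_neg h1]

/-- a captured quantum of `X` -/
theorem stX6_P' (h : Pos w) (h' : w'.re = -(11 / 4) * l) :
    ZP' (3 / 5 * l) (-(17 / 10) * l) D.x D.y D.hX D.hY n n' w w' =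
      if 1 ≤ n then
        ZobjQ (D.Xs (fun u => Ck (w - u) * Ck (u - (w' + 3 * l)))
            (fun u => CC (w - u) * C2 (u - (w' + 3 * l))))
        (D.Ys (fun v => Dk (w - v) * Ck (w' - v) * qg (v - (w' + 3 * l)))
          (fun v => DD (w - v) * CC (w' - v) * QQ (v - (w' + 3 * l)))) (3 / 5 * l) (n - 1) n'
          lnX lnY
      else 0 := by
  unfold ZP'
  by_cases h1 : 1 ≤ n
  · rw [if_pos h1, if_pos h1]
    refine stX6 H L (n - 1) n' (numP' hn h1) ?_ ?_ (fun u => ?_) fun v => ?_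
    · exact specX_P' h h'
    · exact specY_P' h h'
    · ring
    · ring
  · rw [if_neg h1, if_neg h1]

/-- both captured quanta -/
theorem stX6_PP (h : w.re = -(11 / 4) * l) (h' : w'.re = -(11 / 4) * l) :
    ZPP (3 / 5 * l) (-(17 / 10) * l) D.x D.y D.hX D.hY n n' w w' =
      if 1 ≤ n ∧ 1 ≤ n' then
        ZobjQ (D.Xs
          (fun u => Ck (w - u) * qg (u - (w + 3 * l)) * Ck (u - (w' + 3 * l)))
          (fun u => CC (w - u) * QQ (u - (w + 3 * l)) * C2 (u - (w' + 3 * l))))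
        (D.Ys
          (fun v => Ck (w' - v) * Ck (v - (w + 3 * l)) * qg (v - (w' + 3 * l)))
          (fun v => CC (w' - v) * C2 (v - (w + 3 * l)) * QQ (v - (w' + 3 * l)))) (3 / 5 * l)
          (n - 1) (n' - 1) lnX lnY
      else 0 := by
  unfold ZPP
  by_cases h1 : 1 ≤ n ∧ 1 ≤ n'
  · rw [if_pos h1, if_pos h1]
    refine stX6 H L (n - 1) (n' - 1) (numPP hn h1.1 h1.2) ?_ ?_ (fun u => ?_) fun v => ?_
    · rw [neg_zero]
      exact specX_PP h h'
    · rw [neg_zero]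
      exact specY_PP h h'
    · ring
    · ring
  · rw [if_neg h1, if_neg h1]

/-- captured pair seen by `Y` -/
theorem stX6_D (h : w.re = -(11 / 4) * l) :
    Z3 (3 / 5 * l) (-(17 / 10) * l) n n' (Gr0 D.hX D.x) (fun v => Gr0 D.hY D.y v * Tk (w - v)) =
      ZobjQ (D.Xs (fun _ => 1) (fun _ => 1)) (D.Ys (fun v => Tk (w - v)) (fun v => TTk (w - v)))
        (3 / 5 * l) n n' lnX lnY := by
  refine stX6 H L n n' (num0 hn) ?_ ?_ (fun u => (mul_one _).symm) fun v => rfl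
  · rw [neg_zero]
    exact spec_one true
  · rw [neg_zero]
    exact spec_D false h

/-- captured pair seen by `X` -/
theorem stX6_D' (h : w.re = -(11 / 4) * l) :
    Z3 (3 / 5 * l) (-(17 / 10) * l) n n' (fun u => Gr0 D.hX D.x u * Tk (w - u)) (Gr0 D.hY D.y) =
      ZobjQ (D.Xs (fun u => Tk (w - u)) (fun u => TTk (w - u))) (D.Ys (fun _ => 1) (fun _ => 1))
        (3 / 5 * l) n n' lnX lnY := by
  refine stX6 H L n n' (num0 hn) ?_ ?_ (fun u => rfl) fun v => (mul_one _).symm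
  · rw [neg_zero]
    exact spec_D true h
  · rw [neg_zero]
    exact spec_one false

end conv

/-! ## prefactors -/

theorem RU.Ok6.meas_X (H : D.Ok6) (k : Option O3) : Measurable (D.X k) :=
  measurable_XXU H.gg.meas H.gg0.meas (measurable_thE _ _ _ _) (measurable_thS _ _ _ _) k

theorem RU.Ok6.meas_Y (H : D.Ok6) (k : Option O3) : Measurable (D.Y k) := H.sw.meas_X k

theorem RU.Ok6.measurable_KP (H : D.Ok6) : Measurable D.KP := H.base.measurable_KP

theorem RU.Ok6.measurable_KP' (H : D.Ok6) : Measurable D.KP' := H.base.measurable_KP'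

theorem RU.Ok6.PB_KF_A (H : D.Ok6) :
    NURow.PB (-1 + ((M : ℝ) - m)) (Set.Icc (31 / 50 * l) (5 / 4 * l)) D.KF := H.base.PB_KF_A

theorem RU.Ok6.PB_KF'_A (H : D.Ok6) :
    NURow.PB (-1 + ((m : ℝ) - M)) (Set.Icc (31 / 50 * l) (5 / 4 * l)) D.KF' := H.base.PB_KF'_A

theorem RU.Ok6.PB_KF_B (H : D.Ok6) :
    NURow.PB (-1 + ((M : ℝ) - m)) (Set.Icc (-(11 / 4) * l) (-(11 / 4) * l)) D.KF := H.base.PB_KF_B

theorem RU.Ok6.PB_KF'_B (H : D.Ok6) :
    NURow.PB (-1 + ((m : ℝ) - M)) (Set.Icc (-(11 / 4) * l) (-(11 / 4) * l)) D.KF' := H.base.PB_KF'_B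

theorem RU.Ok6.PB_KP_B (H : D.Ok6) :
    NURow.PB (-1 - 2 * D.β - ((M : ℝ) - m)) (Set.Icc (-(11 / 4) * l) (-(11 / 4) * l)) D.KP :=
  H.base.PB_KP_B

theorem RU.Ok6.PB_KP'_B (H : D.Ok6) :
    NURow.PB (-1 - 2 * D.β - ((m : ℝ) - M)) (Set.Icc (-(11 / 4) * l) (-(11 / 4) * l)) D.KP' :=
  H.base.PB_KP'_B

/-! ## the families on the landed strips -/

theorem RU.Ok6.PB_S (H : D.Ok6) :
    NURow.PB (-(2 * (4 / 3)) + 4 * ((M : ℝ) - m)) (Set.Icc (-(11 / 8) * l) (-(5 / 4) * l)) (D.X (some .S)) := by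
  have hl := Bd.l_pos
  have hK : IsCompact (Set.Icc (-(11 / 8) * l) (-(5 / 4) * l)) := isCompact_Icc
  have hs : ∀ x ∈ Set.Icc (-(11 / 8) * l) (-(5 / 4) * l), x ∈ KSS := by
    rintro x ⟨h1, h2⟩
    exact ⟨by linarith, by linarith⟩
  have h1 : NURow.PB (-(2 * (4 / 3)) + 4 * ((M : ℝ) - m)) (Set.Icc (-(11 / 8) * l) (-(5 / 4) * l))
      (fun w => RRU D.c D.x D.y w * RRU D.c D.x D.y (w - l) * ph (4 / 3) D.x D.g0 w) :=
    ⟨Bdd.mono_set (bdd_SS H.hx H.hy H.gg0.toS) hs, fun z hz => diffAt_SS H.hx H.gg0.toS (hs _ hz)⟩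
  have h4 : NURow.PB 0 (Set.Icc (-(11 / 8) * l) (-(5 / 4) * l)) (thE D.p D.p D.q D.q) :=
    PB_of_Gr hK (fun r hr => hr) (gr_thE _ _ _ _ _ _) fun z hz =>
      diffAt_thE H.hp H.hq (by linarith [hz.1]) (by linarith [hz.2])
  have h5 : NURow.PB 0 (Set.Icc (-(11 / 8) * l) (-(5 / 4) * l))
      (fun w => thE D.p D.p D.q D.q (w - l)) := by
    refine ⟨bdd_shift_l (Bdd_of_Gr (hK.image (by fun_prop)) (α := 0) (β := -(3 * l)) ?_
      (gr_thE _ _ _ _ _ _) ?_), fun z hz => ?_⟩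
    · rintro _ ⟨r, ⟨h1, h2⟩, rfl⟩
      constructor <;> linarith
    · rintro z ⟨r, ⟨h1, h2⟩, hr⟩
      exact (diffAt_thE H.hp H.hq (by linarith) (by linarith)).continuousAt
    · have e : (z - (l : ℂ)).re = z.re - l := by simp
      exact (diffAt_thE (u := z - l) H.hp H.hq (by rw [e]; linarith [hz.1])
        (by rw [e]; linarith [hz.2])).comp z (differentiableAt_id.sub_const _)
  exact (h1.mul (h4.mul h5)).rate (by ring)

theorem RU.Ok6.spec1 (H : D.Ok6) (b : Bool) :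
    SpecQ b 0 (thE D.p D.p D.q D.q) (thS D.p D.p D.q D.q) := thE_SpecQ b H.hp H.hq

/-- **One species**, charge `q' = M - m` of the other rows -/
theorem RU.Ok6.fam1 (H : D.Ok6) {κ : ℝ} (hκ : κ ≤ 2 * D.β) (k : Option O3) :
    Measurable (D.X k) ∧ DecOn (κ - 2 * ((M : ℝ) - m) * chg (ob4 k)) (Set.Icc (loP k) (hiP k)) (D.X k) ∧
    (loP k < hiP k → ContinuousOn (D.X k) (CS (loP k) (hiP k)) ∧
      DifferentiableOn ℂ (D.X k) (OS (loP k) (hiP k))) := by
  have hl := Bd.l_pos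
  have h := H.spec1 true
  have hb := H.b1
  have hQ : (-((M : ℝ) - m)) * sc (true, .A) = 0 * sc (true, .A) - ((M : ℝ) - m) := by
    simp [sc, chg]
  have cS : ((chg Ob.S : ℕ) : ℝ) = 2 := by norm_num [chg]
  have cA : ((chg Ob.A : ℕ) : ℝ) = 1 := by norm_num [chg]
  have cL : ((chg Ob.L : ℕ) : ℝ) = 1 := by norm_num [chg]
  have cT : ((chg (ob3 .T) : ℕ) : ℝ) = 2 := by norm_num [chg, ob3]
  have sA : sc (true, .A) = 1 := by simp [sc, chg]
  refine ⟨H.meas_X k, ?_, ?_⟩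
  · rcases k with _ | (_ | _ | _)
    · refine DecOn_of (Bdd.mono_set (bdd_GXU (c := D.c) H.b0 H.b1 H.hx H.hy H.gg h hQ) ?_) ?_
      · rintro x ⟨h1, h2⟩
        have h1 : 3 / 5 * l ≤ x := h1
        have h2 : x ≤ 3 / 5 * l := h2
        exact Or.inl ⟨h1, by linarith⟩
      · rw [sA]
        simp only [ob4, Option.elim]
        rw [cA]
        linarith
    · refine DecOn_of (Bdd.mono_set (bdd_GXU (c := D.c) H.b0 H.b1 H.hx H.hy H.gg h hQ) ?_) ?_
      · rintro x ⟨h1, h2⟩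
        have h1 : -(5 / 4) * l ≤ x := h1
        have h2 : x ≤ -(5 / 4) * l := h2
        exact Or.inr ⟨by linarith, by linarith⟩
      · rw [sA]
        simp only [ob4, ob3, Option.elim]
        rw [cL]
        linarith
    · refine DecOn_of H.PB_S.1 ?_
      simp only [ob4, ob3, Option.elim]
      rw [cS]
      linarith
    · refine DecOn_of (Bdd.mono_set
        ((bdd_TTUS D.c H.b0 H.b1 le_rfl H.hx H.hy H.gg H.gg0.toS).mul h.b2) ?_) ?_
      · rintro x ⟨h1, h2⟩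
        have h1 : -(1 / 2) * l ≤ x := h1
        have h2 : x ≤ -(1 / 2) * l := h2
        exact ⟨by linarith, by linarith⟩
      · simp only [ob4, Option.elim]
        rw [cT]
        linarith
  · intro hlt
    rcases k with _ | (_ | _ | _)
    · exact absurd hlt (lt_irrefl _)
    · exact absurd hlt (lt_irrefl _)
    · refine ⟨fun z hz => (H.PB_S.2 z ⟨hz.1, hz.2⟩).continuousAt.continuousWithinAt,
        fun z hz => (H.PB_S.2 z ⟨hz.1.le, hz.2.le⟩).differentiableWithinAt⟩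
    · exact absurd hlt (lt_irrefl _)

/-- **The base families on the landed strips**, charge `Q = m - M`. -/
theorem RU.Ok6.fmD6 (H : D.Ok6) {κ : ℝ} (hκ : κ ≤ 2 * D.β) : FmD loP hiP κ ((m : ℝ) - M) (XB D.X D.Y) where
  meas c k := by
    cases c
    · exact (H.sw.fam1 (κ := κ) hκ k).1
    · exact (H.fam1 hκ k).1
  dec c k := by
    cases c
    · have := (H.sw.fam1 (κ := κ) hκ k).2.1
      rw [show κ + 2 * ((m : ℝ) - M) * sc4 false k = κ - 2 * ((m : ℝ) - M) * chg (ob4 k) by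
        simp only [sc4, sc]; push_cast; ring]
      exact this
    · have := (H.fam1 hκ k).2.1
      rw [show κ + 2 * ((m : ℝ) - M) * sc4 true k = κ - 2 * ((M : ℝ) - m) * chg (ob4 k) by
        simp only [sc4, sc]; push_cast; ring]
      exact this
  cont c k h := by
    cases c
    · exact ((H.sw.fam1 (κ := κ) hκ k).2.2 h).1
    · exact ((H.fam1 hκ k).2.2 h).1
  diff c k h := by
    cases c
    · exact ((H.sw.fam1 (κ := κ) hκ k).2.2 h).2
    · exact ((H.fam1 hκ k).2.2 h).2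

/-! ## the families on the strips of (P) -/

/-- the ends on the larger sets -/
theorem thE_SpecP6 (b : Bool) {r o r' o' : ℂ} (h : |r.re| ≤ l / 2) (h' : |o'.re| ≤ l / 2) :
    SpecP (51 / 100 * l) r6 b 0 (thE r o r' o') (thS r o r' o') := by
  have hl := Bd.l_pos
  have k1 : ∀ x ∈ K1P (51 / 100 * l), -(3 * l) ≤ x ∧ x ≤ l := by
    rintro x (⟨h1, h2⟩ | ⟨h1, h2⟩) <;> constructor <;> linarith
  have k2 : ∀ x ∈ K2P r6, -(29 / 20 * l) ≤ x ∧ x ≤ 0 := by
    rintro x ⟨h1, h2⟩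
    exact ⟨h1, by linarith⟩
  have p1 : NURow.PB 0 (K1P (51 / 100 * l)) (thE r o r' o') :=
    PB_of_Gr isCompact_K1P k1 (gr_thE _ _ _ _ _ _) fun z hz =>
      diffAt_thE h h' (by linarith [(k1 _ hz).1]) (by linarith [(k1 _ hz).2])
  have p2 : NURow.PB 0 (K2P r6) (thE r o r' o') :=
    PB_of_Gr isCompact_K2P k2 (gr_thE _ _ _ _ _ _) fun z hz =>
      diffAt_thE h h' (by linarith [(k2 _ hz).1]) (by linarith [(k2 _ hz).2])
  have p3 : NURow.PB 0 (K2P r6) (fun w => thE r o r' o' (w - l)) := by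
    refine ⟨bdd_shift_l (Bdd_of_Gr (isCompact_K2P.image (by fun_prop)) (α := 0) (β := -(3 * l)) ?_
      (gr_thE _ _ _ _ _ _) ?_), fun z hz => ?_⟩
    · rintro _ ⟨r, hr, rfl⟩
      have := k2 _ hr
      constructor <;> linarith [this.1, this.2]
    · rintro z ⟨r, hr, hr'⟩
      have := k2 _ hr
      simp only [] at hr'
      exact (diffAt_thE h h' (by linarith [this.1]) (by linarith [this.2])).continuousAt
    · have e : (z - (l : ℂ)).re = z.re - l := by simp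
      have := k2 _ hz
      exact (diffAt_thE (u := z - l) h h' (by rw [e]; linarith [this.1])
        (by rw [e]; linarith [this.2])).comp z (differentiableAt_id.sub_const _)
  refine ⟨measurable_thE _ _ _ _, measurable_thS _ _ _ _, p1.1.rate (by ring), ?_, p1.2, ?_, ?_⟩
  · exact (p2.mul p3).1.rate (by ring)
  · exact (p2.mul p3).2
  · intro z _
    rfl

/-- one species on the strips of (P) -/
theorem RU.Ok6.famV (H : D.Ok6) (b : Bool) {Q : ℝ} (hQ : Q * sc (b, .A) = -((M : ℝ) - m)) :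
    FamA b (51 / 100 * l) (3 / 5 * l) (-(17 / 10 * l)) (-(101 / 100 * l)) r6
      (-(7 / 10 * l)) (-(7 / 10 * l)) (-(l / 2)) (2 * D.β) Q D.X :=
  famXU lnRr6 H.b0 H.b1 H.hx H.hy H.gg H.gg0 (thE_SpecP6 b H.hp H.hq) (by rw [hQ]; ring)

theorem mem_V4 {k : Option O3} {x : ℝ} (h : x ∈ Set.Icc (loV k) (hiV k)) :
    x ∈ Set.Icc (lo4 (51 / 100 * l) (-(17 / 10 * l)) r6 (-(7 / 10 * l)) k)
      (lo4 (3 / 5 * l) (-(101 / 100 * l)) (-(7 / 10 * l)) (-(l / 2)) k) := by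
  have hl := Bd.l_pos
  have e6 : r6 = -(29 / 20 * l) := rfl
  obtain ⟨h1, h2⟩ := h
  rcases k with _ | (_ | _ | _) <;> simp only [loV, hiV] at h1 h2 <;> simp only [lo4] <;>
    constructor <;> linarith

theorem RU.Ok6.diffV (H : D.Ok6) (k : Option O3) {z : ℂ} (hz : z.re ∈ Set.Icc (loV k) (hiV k)) :
    DifferentiableAt ℂ (D.X k) z :=
  diffAt_XXUP lnRr6 H.b0 H.b1 H.hx H.gg H.gg0 (thE_SpecP6 true H.hp H.hq) k (mem_V4 hz)

theorem _root_.NURow.DecOn.monoK {κ κ' : ℝ} {K : Set ℝ} {h : ℂ → ℂ} (hh : DecOn κ K h) (hk : κ' ≤ κ) :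
    DecOn κ' K h := by
  obtain ⟨D, hD⟩ := hh
  refine ⟨|D|, fun z hz => ((hD z hz).trans (mul_le_mul_of_nonneg_right (le_abs_self D)
    (Real.exp_pos _).le)).trans (mul_le_mul_of_nonneg_left (Real.exp_le_exp.2 ?_) (abs_nonneg D))⟩
  have := mul_le_mul_of_nonneg_right hk (abs_nonneg z.im)
  linarith

/-- **The base families on the strips of (P)**, charge `Q = m - M`. -/
theorem RU.Ok6.fmV (H : D.Ok6) {κ : ℝ} (hκ : κ ≤ 2 * D.β) : FmV κ ((m : ℝ) - M) (XB D.X D.Y) where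
  meas c k := by
    cases c
    · exact H.meas_Y k
    · exact H.meas_X k
  dec c k := by
    cases c
    · exact NURow.DecOn.monoK ((((H.sw.famV false (Q := (m : ℝ) - M) (by simp [sc, chg])).dec k)).mono
        fun x hx => mem_V4 hx) (by show κ + _ ≤ 2 * D.β + _; linarith)
    · exact NURow.DecOn.monoK ((((H.famV true (Q := (m : ℝ) - M) (by simp [sc, chg])).dec k)).mono
        fun x hx => mem_V4 hx) (by linarith)
  diff c k z hz := by
    cases c
    · exact H.sw.diffV k hz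
    · exact H.diffV k hz

end

/-! ## the classes -/

section pts

variable {m M : ℕ} {D : RU m M} (H : D.Ok6) {n n' : ℕ} (hn : n + M = n' + m)
  {lnX : ∀ p p' : ℕ, (Fin p → O3) → (Fin p' → O3) → Fin p → ℝ}
  {lnY : ∀ p p' : ℕ, (Fin p → O3) → (Fin p' → O3) → Fin p' → ℝ} (L : LnH lnX lnY)
  {w w' : ℂ} {t t' : HT}
include H hn L

theorem RU.Ok6.pt_I0 (ht : t = .W ∨ t = .F) (ht' : t' = .W ∨ t' = .F) (hw : w.re = t.l0)
    (hw' : w'.re = t'.l0) :
    I0 (3 / 5 * l) (-(17 / 10) * l) D.p D.q D.x D.y D.hX D.hY n n' w w' =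
      (D.cS t t').pre w w' * (D.cS t t').Z D.X D.Y (3 / 5 * l) n n' lnX lnY w w' := by
  have p1 : Pos w := by
    rcases ht with rfl | rfl
    · exact Or.inl hw
    · exact Or.inr hw
  have p2 : Pos w' := by
    rcases ht' with rfl | rfl
    · exact Or.inl hw'
    · exact Or.inr hw'
  rw [D.I0_pre, stX6_WW H L hn p1 p2, rxWW, ryWW]
  have e : (D.cS t t').pre w w' * (D.cS t t').Z D.X D.Y (3 / 5 * l) n n' lnX lnY w w' =
      Pre gFF D.KF D.KF' w w' * (if 0 ≤ n ∧ 0 ≤ n' then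
        ZobjQ (XS true D.X SF (fl SF) w w') (XS false D.Y SF (fl SF) w w')
          (3 / 5 * l) n n' lnX lnY else 0) := by
    rcases ht with rfl | rfl <;> rcases ht' with rfl | rfl <;> rfl
  rw [e, if_pos ⟨Nat.zero_le _, Nat.zero_le _⟩]
  rfl

theorem RU.Ok6.pt_IP (ht' : t' = .W ∨ t' = .F) (hw : w.re = -(11 / 4) * l)
    (hw' : w'.re = t'.l0) :
    IP (3 / 5 * l) (-(17 / 10) * l) D.p D.q D.x D.y D.hX D.hY n n' w w' =
      (D.cS .P t').pre w w' * (D.cS .P t').Z D.X D.Y (3 / 5 * l) n n' lnX lnY w w' := by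
  have p2 : Pos w' := by
    rcases ht' with rfl | rfl
    · exact Or.inl hw'
    · exact Or.inr hw'
  have e0 : IP (3 / 5 * l) (-(17 / 10) * l) D.p D.q D.x D.y D.hX D.hY n n' w w' =
      D.KP w * D.KF' w' * gPF (w - w') *
      ZP (3 / 5 * l) (-(17 / 10) * l) D.x D.y D.hX D.hY n n' w w' := H.base.IP_pre hw w'
  rw [e0, stX6_P H L hn hw p2, rxP, ryP]
  have e : (D.cS .P t').pre w w' * (D.cS .P t').Z D.X D.Y (3 / 5 * l) n n' lnX lnY w w' =
      Pre gPF D.KP D.KF' w w' * (if 0 ≤ n ∧ 1 ≤ n' then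
        ZobjQ (XS true D.X SP (fl SF) w w') (XS false D.Y SP (fl SF) w w')
          (3 / 5 * l) n (n' - 1) lnX lnY else 0) := by
    rcases ht' with rfl | rfl <;> rfl
  rw [e]
  simp only [Nat.zero_le, true_and]
  rfl

theorem RU.Ok6.pt_IP' (ht : t = .W ∨ t = .F) (hw : w.re = t.l0) (hw' : w'.re = -(11 / 4) * l) :
    IP' (3 / 5 * l) (-(17 / 10) * l) D.p D.q D.x D.y D.hX D.hY n n' w w' =
      (D.cS t .P).pre w w' * (D.cS t .P).Z D.X D.Y (3 / 5 * l) n n' lnX lnY w w' := by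
  have p1 : Pos w := by
    rcases ht with rfl | rfl
    · exact Or.inl hw
    · exact Or.inr hw
  have e0 : IP' (3 / 5 * l) (-(17 / 10) * l) D.p D.q D.x D.y D.hX D.hY n n' w w' =
      D.KF w * D.KP' w' * gFP (w - w') *
      ZP' (3 / 5 * l) (-(17 / 10) * l) D.x D.y D.hX D.hY n n' w w' := H.base.IP'_pre w hw'
  rw [e0, stX6_P' H L hn p1 hw', rxP', ryP']
  have e : (D.cS t .P).pre w w' * (D.cS t .P).Z D.X D.Y (3 / 5 * l) n n' lnX lnY w w' =
      Pre gFP D.KF D.KP' w w' * (if 1 ≤ n ∧ 0 ≤ n' then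
        ZobjQ (XS true D.X SF (fl SP) w w') (XS false D.Y SF (fl SP) w w')
          (3 / 5 * l) (n - 1) n' lnX lnY else 0) := by
    rcases ht with rfl | rfl <;> rfl
  rw [e]
  simp only [Nat.zero_le, and_true]
  rfl

theorem RU.Ok6.pt_IPP (hw : w.re = -(11 / 4) * l) (hw' : w'.re = -(11 / 4) * l) :
    IPP (3 / 5 * l) (-(17 / 10) * l) D.p D.q D.x D.y D.hX D.hY n n' w w' =
      (D.cS .P .P).pre w w' * (D.cS .P .P).Z D.X D.Y (3 / 5 * l) n n' lnX lnY w w' := by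
  have e0 : IPP (3 / 5 * l) (-(17 / 10) * l) D.p D.q D.x D.y D.hX D.hY n n' w w' =
      D.KP w * D.KP' w' * gPP (w - w') *
      ZPP (3 / 5 * l) (-(17 / 10) * l) D.x D.y D.hX D.hY n n' w w' := H.base.IPP_pre hw hw'
  rw [e0, stX6_PP H L hn hw hw', rxPP, ryPP]
  have e : (D.cS .P .P).pre w w' * (D.cS .P .P).Z D.X D.Y (3 / 5 * l) n n' lnX lnY w w' =
      Pre gPP D.KP D.KP' w w' * (if 1 ≤ n ∧ 1 ≤ n' then
        ZobjQ (XS true D.X SP (fl SP) w w') (XS false D.Y SP (fl SP) w w')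
          (3 / 5 * l) (n - 1) (n' - 1) lnX lnY else 0) := rfl
  rw [e]
  rfl

theorem RU.Ok6.pt_ID (hw : w.re = -(11 / 4) * l) :
    ID (3 / 5 * l) (-(17 / 10) * l) D.p D.q D.x D.y D.hX D.hY n n' w =
      D.XD w * (cD D.XD).Z D.X D.Y (3 / 5 * l) n n' lnX lnY w := by
  rw [D.ID_pre, stX6_D H L hn hw, rxD D w, ryD]
  rfl

theorem RU.Ok6.pt_ID' (hw : w.re = -(11 / 4) * l) :
    ID' (3 / 5 * l) (-(17 / 10) * l) D.p D.q D.x D.y D.hX D.hY n n' w =
      D.XD' w * (cD' D.XD').Z D.X D.Y (3 / 5 * l) n n' lnX lnY w := by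
  rw [D.ID'_pre, stX6_D' H L hn hw, rxD', ryD' D w]
  rfl

end pts

section final

variable {m M : ℕ} {D : RU m M} {n n' : ℕ}
  {lnX : ∀ p p' : ℕ, (Fin p → O3) → (Fin p' → O3) → Fin p → ℝ}
  {lnY : ∀ p p' : ℕ, (Fin p → O3) → (Fin p' → O3) → Fin p' → ℝ}

/-- **The eleven integrals are the start classes.** -/
theorem RU.Ok6.E11_val (H : D.Ok6) (hβ : 1 < D.β) (hn : n + M = n' + m) (L : LnH lnX lnY) :
    E11 (3 / 5 * l) (-(17 / 10) * l) D.p D.q D.x D.y D.hX D.hY n n'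
      (31 / 50 * l) (-(11 / 4) * l) =
    ((2 * Real.pi : ℂ)⁻¹) ^ 2 * ∑ t ∈ ({HT.W, HT.F, HT.P} : Finset HT),
      ∑ t' ∈ ({HT.W, HT.F, HT.P} : Finset HT), t.sg * t'.sg *
        (D.cS t t').val D.X D.Y (3 / 5 * l) n n' lnX lnY -
    sin l / sin (2 * l) * ((2 * Real.pi : ℂ)⁻¹ *
      ((cD D.XD).val D.X D.Y (3 / 5 * l) n n' lnX lnY +
        (cD' D.XD').val D.X D.Y (3 / 5 * l) n n' lnX lnY)) := by
  obtain ⟨C, R, U⟩ := H.base.UD_rows
  change Rg.UD (3 / 5 * l) (-(17 / 10) * l) (-(11 / 4) * l) C (2 * D.β) R D.p D.q D.x D.y D.hX D.hY at U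
  have Ls : Ln (3 / 5 * l) (-(17 / 10) * l) (31 / 50 * l) (-(11 / 4) * l) :=
    Ln_start (Or.inl rfl)
  have hK : 2 < 2 * D.β := by linarith
  have hA : NUP1.N.LnAB (31 / 50 * l) (-(11 / 4) * l) (31 / 50 * l) := Or.inl rfl
  have hB : NUP1.N.LnAB (31 / 50 * l) (-(11 / 4) * l) (-(11 / 4) * l) := Or.inr rfl
  have eWW := RU.LL_cls (D := D) (t := .W) (t' := .W) (Rg.G2_I0 Ls U hn hK hA hA)
    fun w w' h h' => H.pt_I0 hn L (Or.inl rfl) (Or.inl rfl) h h'
  have eWF := RU.LL_cls (D := D) (t := .W) (t' := .F) (Rg.G2_I0 Ls U hn hK hA hB)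
    fun w w' h h' => H.pt_I0 hn L (Or.inl rfl) (Or.inr rfl) h h'
  have eFW := RU.LL_cls (D := D) (t := .F) (t' := .W) (Rg.G2_I0 Ls U hn hK hB hA)
    fun w w' h h' => H.pt_I0 hn L (Or.inr rfl) (Or.inl rfl) h h'
  have eFF := RU.LL_cls (D := D) (t := .F) (t' := .F) (Rg.G2_I0 Ls U hn hK hB hB)
    fun w w' h h' => H.pt_I0 hn L (Or.inr rfl) (Or.inr rfl) h h'
  have eWP := RU.LL_cls (D := D) (t := .W) (t' := .P) (Rg.G2_IP' Ls U hn hK hA)
    fun w w' h h' => H.pt_IP' hn L (Or.inl rfl) h h'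
  have eFP := RU.LL_cls (D := D) (t := .F) (t' := .P) (Rg.G2_IP' Ls U hn hK hB)
    fun w w' h h' => H.pt_IP' hn L (Or.inr rfl) h h'
  have ePW := RU.LL_cls (D := D) (t := .P) (t' := .W) (Rg.G2_IP Ls U hn hK hA)
    fun w w' h h' => H.pt_IP hn L (Or.inl rfl) h h'
  have ePF := RU.LL_cls (D := D) (t := .P) (t' := .F) (Rg.G2_IP Ls U hn hK hB)
    fun w w' h h' => H.pt_IP hn L (Or.inr rfl) h h'
  have ePP := RU.LL_cls (D := D) (t := .P) (t' := .P) (Rg.G2_IPP Ls U hn hK)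
    fun w w' h h' => H.pt_IPP hn L h h'
  have eD : NUP1.LI (-(11 / 4) * l) (ID (3 / 5 * l) (-(17 / 10) * l) D.p D.q D.x D.y
      D.hX D.hY n n') = (2 * Real.pi : ℂ)⁻¹ *
      (cD D.XD).val D.X D.Y (3 / 5 * l) n n' lnX lnY := by
    unfold NUP1.LI CD1.val
    congr 1
    exact integral_congr_ae (Filter.Eventually.of_forall fun t =>
      H.pt_ID hn L (NUP1.vlre _ _))
  have eD' : NUP1.LI (-(11 / 4) * l) (ID' (3 / 5 * l) (-(17 / 10) * l) D.p D.q D.x D.y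
      D.hX D.hY n n') = (2 * Real.pi : ℂ)⁻¹ *
      (cD' D.XD').val D.X D.Y (3 / 5 * l) n n' lnX lnY := by
    unfold NUP1.LI CD1.val
    congr 1
    exact integral_congr_ae (Filter.Eventually.of_forall fun t =>
      H.pt_ID' hn L (NUP1.vlre _ _))
  simp only [HT.l0] at eWW eWF eFW eFF eWP eFP ePW ePF ePP
  unfold NUP1.N.E11
  rw [eWW, eWF, eFW, eFF, eWP, eFP, ePW, ePF, ePP, eD, eD']
  simp only [sum_st, HT.sg]
  ring

/-- **The start classes as the final classes.** -/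
theorem RU.Ok6.cS_cF (H : D.Ok6) (hβ : 1 < D.β) (hn : n + M = n' + m) {P : NUO.Par} (hP : ParP P) :
    ∑ t ∈ T3, ∑ t' ∈ T3, t.sg * t'.sg *
        (D.cS t t').val D.X D.Y (3 / 5 * l) n n' (lX P) (lY P) =
      ∑ t, ∑ t', t.sg * t'.sg * (D.cF t t').val D.X D.Y (3 / 5 * l) n n' (lX P) (lY P) := by
  have hs : ({-(11 / 4) * l} : Set ℝ) ⊆ Set.Icc (-(11 / 4) * l) (-(11 / 4) * l) := by
    intro x hx
    rw [Set.mem_singleton_iff.1 hx]
    exact ⟨le_rfl, le_rfl⟩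
  have hQ : (n : ℝ) - n' = (m : ℝ) - M := by
    have := num0 hn
    linarith
  exact cS_cFQ (κ := 1) (lo := loP) (hi := hiP) one_pos okS_P le_rfl le_rfl
    (H.fmD6 (by linarith)) hQ
    (mvQ_SF D.measurable_KF H.PB_KF_A (by linarith))
    (mvQ_SF D.measurable_KF' H.PB_KF'_A (by linarith))
    (fxH_SF D.measurable_KF ((H.PB_KF_B.decOn (by linarith)).mono hs))
    (fxH_SP H.measurable_KP ((H.PB_KP_B.decOn (by linarith)).mono hs))
    (fxH_SF D.measurable_KF' ((H.PB_KF'_B.decOn (by linarith)).mono hs))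
    (fxH_SP H.measurable_KP' ((H.PB_KP'_B.decOn (by linarith)).mono hs))
    (lnA_P hP) (lnA_P' hP)

/-- **The eleven integrals are the final classes**, landed lines. -/
theorem RU.Ok6.E11_fin6 (H : D.Ok6) (hβ : 1 < D.β) (hn : n + M = n' + m) {P : NUO.Par} (hP : ParP P)
    (L : LnH (lX P) (lY P)) :
    E11 (3 / 5 * l) (-(17 / 10) * l) D.p D.q D.x D.y D.hX D.hY n n'
      (31 / 50 * l) (-(11 / 4) * l) =
    ((2 * Real.pi : ℂ)⁻¹) ^ 2 * ∑ t : HT, ∑ t' : HT, t.sg * t'.sg *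
        (D.cF t t').val D.X D.Y (3 / 5 * l) n n' (lX P) (lY P) -
    sin l / sin (2 * l) * ((2 * Real.pi : ℂ)⁻¹ *
      ((cD D.XD).val D.X D.Y (3 / 5 * l) n n' (lX P) (lY P) +
        (cD' D.XD').val D.X D.Y (3 / 5 * l) n n' (lX P) (lY P))) := by
  rw [H.E11_val hβ hn L, ← H.cS_cF hβ hn hP]
  rfl

/-- **The eleven integrals are the final classes, lines of (P).** -/
theorem RU.Ok6.E11_finP (H : D.Ok6) (hβ : 1 < D.β) (hn : n + M = n' + m) {P : NUO.Par} (hP : ParP P)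
    (L : LnH (lX P) (lY P))
    (LX : ∀ p p' k k' i, lnX p p' k k' i ∈ Set.Icc (loV (some (k i))) (hiV (some (k i))))
    (LY : ∀ p p' k k' i, lnY p p' k k' i ∈ Set.Icc (loV (some (k' i))) (hiV (some (k' i)))) :
    E11 (3 / 5 * l) (-(17 / 10) * l) D.p D.q D.x D.y D.hX D.hY n n'
      (31 / 50 * l) (-(11 / 4) * l) =
    ((2 * Real.pi : ℂ)⁻¹) ^ 2 * ∑ t : HT, ∑ t' : HT, t.sg * t'.sg *
        (D.cF t t').val D.X D.Y (51 / 100 * l) n n' lnX lnY -
    sin l / sin (2 * l) * ((2 * Real.pi : ℂ)⁻¹ *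
      ((cD D.XD).val D.X D.Y (51 / 100 * l) n n' lnX lnY +
        (cD' D.XD').val D.X D.Y (51 / 100 * l) n n' lnX lnY)) := by
  have hQ : (n : ℝ) - n' = (m : ℝ) - M := by
    have := num0 hn
    linarith
  have hV : FmV 1 ((m : ℝ) - M) (XB D.X D.Y) := H.fmV (by linarith)
  have vD : PHK.SpV (cD' D.XD').a 0 (cD' D.XD').S := by
    have := PHK.spV_D.flip
    rw [neg_zero] at this
    exact this
  have e1 : ∀ t t' : HT, (D.cF t t').val D.X D.Y (3 / 5 * l) n n' (lX P) (lY P) =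
      (D.cF t t').val D.X D.Y (51 / 100 * l) n n' lnX lnY := fun t t' =>
    PHK.cF_lines one_pos hV hQ t t' (lnA_P hP) LX LY
  have e2 : (cD D.XD).val D.X D.Y (3 / 5 * l) n n' (lX P) (lY P) =
      (cD D.XD).val D.X D.Y (51 / 100 * l) n n' lnX lnY :=
    PHK.CD1.val_lines one_pos hV (c := cD D.XD) PHK.spV_D hQ (lnA_P hP) LX LY
  have e3 : (cD' D.XD').val D.X D.Y (3 / 5 * l) n n' (lX P) (lY P) =
      (cD' D.XD').val D.X D.Y (51 / 100 * l) n n' lnX lnY :=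
    PHK.CD1.val_lines one_pos hV (c := cD' D.XD') vD hQ (lnA_P hP) LX LY
  have e4 : (∑ t : HT, ∑ t' : HT, t.sg * t'.sg *
      (D.cF t t').val D.X D.Y (3 / 5 * l) n n' (lX P) (lY P)) = ∑ t : HT, ∑ t' : HT, t.sg * t'.sg *
      (D.cF t t').val D.X D.Y (51 / 100 * l) n n' lnX lnY :=
    Finset.sum_congr rfl fun t _ => Finset.sum_congr rfl fun t' _ => by rw [e1]
  rw [← e2, ← e3, ← e4]
  exact H.E11_fin6 hβ hn hP L

end final

end Pool.Agent.PLX

end
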