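import Pool.Agent.PHK.W1FF6
import Pool.Agent.PHK.Oth06
import Pool.Agent.PHK.Rg6
import Pool.Agent.PLX.PB.MstG
import Pool.Agent.PLX.PB.IntWW
import Pool.Agent.PLX.PB.ParZ
import Pool.Agent.PB.H12

/-!
# (P): the regular function as its class `W W` on a set of half quanta

* `tot_split`: a signed sum of classes without the class `W W`;
* `RU.Ok6.int_WW6`: integrability of the class `W W`, lines of (P);
* `EED6 D e n`: the sum of the eleven integrals, `n` quanta X, `n + e` quanta Y; `IsKD6 K kD D`: the kernels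
  of `D` in the names of `PB/QC20`; `EED6_eq`: the eleven integrals are the signed sum of the final classes;
* `mst_near6`: the class `W W` on a measurable set `S`; **`mst_FF6`**: the same with the functionals `FF6`;
* **`mst_fam6`**: families of data, on the window `|τ|, |τ'| ≤ 3/8 log k`: the error
  `C k ^ (-7/16 + ε) exp (EM k)` and the pointwise bound of the integrand.
-/

set_option autoImplicit false
set_option linter.unusedSectionVars false

noncomputable section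

open Complex MeasureTheory Finset Filter
open scoped ENNReal
open PLX (Fil Ends)

namespace PBR.PLX

open NUO NUP1 NUCR NUP1S NURow NUGC NUGC.PLX PBX PBX.PLX
open NUP1.N (E11)
open NUP1.Leg (Dk)
open _root_.Pool.Agent.PLX
open PHK
open PBF.PLX (Ins Crs)
open PBO.PLX (lO6 lX6 lY6 sVal6 sValD6 sInt6 sPt6)

/-! ### the lines -/

theorem lO6_mem (k : O3) : lO6 k ∈ Set.Icc (loV (some k)) (hiV (some k)) := by
  have hl := Bd.l_pos
  cases k
  · show (1 - par6.jL) * l ∈ Set.Icc (-(5 / 4) * l) (-(101 / 100) * l)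
    unfold par6
    constructor <;> nlinarith
  · show -((1 + par6.e) * l) ∈ Set.Icc (-(29 / 20) * l) (-(5 / 4) * l)
    unfold par6
    constructor <;> nlinarith
  · show -(l / 2) ∈ Set.Icc (-(1 / 2) * l) (-(1 / 2) * l)
    constructor <;> linarith

theorem lO6_ln6 (k : O3) : lO6 k = ln6 par6 k := by
  cases k <;> rfl

theorem lX6_ln6 : lX6 = fun _ _ k _ i => ln6 par6 (k i) := by
  funext p p' k k' i
  exact lO6_ln6 _

theorem lY6_ln6 : lY6 = fun _ _ _ k' i => ln6 par6 (k' i) := by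
  funext p p' k k' i
  exact lO6_ln6 _

/-- landed lines -/
theorem exists_par : ∃ P : NUO.Par, ParP P ∧ LnH (lX P) (lY P) := by
  let _ := NUSea.seaP
  have h := PBF.PLX.parZ_parC 1
  have h3 : ∀ r, (NUSea.PLX.O.par0 1).d r ≤ 1 / 8 := fun r => by
    have h3 := h.e2 r
    rw [NUSea.PLX.O.par0_e] at h3
    linarith
  refine ⟨NUSea.PLX.O.par0 1, ⟨NUSea.PLX.O.par0_jL 1, ?_, h.d0, fun r => ?_⟩, ?_⟩
  · rw [NUSea.PLX.O.par0_e]
  · rw [NUSea.PLX.O.par0_e]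
    linarith [h3 r]
  · exact LnH_P h.goodP h.j1 h.j2 fun r => by
      have h4 := h.e2 r
      have h5 := h.d0 r
      linarith

/-! ### the sum over the classes -/

/-- **Everything but the class `W, W`**, from a common bound. -/
theorem tot_split (v : HT → HT → ℕ → ℂ) (v1 : Bool → ℕ → ℂ) {N : ℕ} {B : ℝ}
    (h : ∀ t t' : HT, ¬(t = .W ∧ t' = .W) → ∑ n ∈ range (N + 1), ‖v t t' n‖ ≤ B)
    (h1 : ∀ o : Bool, ∑ n ∈ range (N + 1), ‖v1 o n‖ ≤ B) :
    ‖∑ n ∈ range (N + 1), ((2 * (Real.pi : ℂ))⁻¹ ^ 2 *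
        (∑ t : HT, ∑ t' : HT, t.sg * t'.sg * v t t' n) -
        sin l / sin (2 * l) * ((2 * (Real.pi : ℂ))⁻¹ * (v1 true n + v1 false n))) -
      (2 * (Real.pi : ℂ))⁻¹ ^ 2 * ∑ n ∈ range (N + 1), v .W .W n‖ ≤ RG.KA * B := by
  have hone : ∀ n, ((2 * (Real.pi : ℂ))⁻¹ ^ 2 * (∑ t : HT, ∑ t' : HT, t.sg * t'.sg * v t t' n) -
        sin l / sin (2 * l) * ((2 * (Real.pi : ℂ))⁻¹ * (v1 true n + v1 false n))) -
        (2 * (Real.pi : ℂ))⁻¹ ^ 2 * v .W .W n =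
      (2 * (Real.pi : ℂ))⁻¹ ^ 2 * (∑ p ∈ RG.oth, p.1.sg * p.2.sg * v p.1 p.2 n) -
        sin l / sin (2 * l) * ((2 * (Real.pi : ℂ))⁻¹ * (v1 true n + v1 false n)) := by
    intro n
    have h1 : (∑ t : HT, ∑ t' : HT, t.sg * t'.sg * v t t' n) =
        v .W .W n + ∑ p ∈ RG.oth, p.1.sg * p.2.sg * v p.1 p.2 n := by
      rw [← Fintype.sum_prod_type' (f := fun t t' => t.sg * t'.sg * v t t' n)]
      have h2 := Finset.add_sum_erase (univ : Finset (HT × HT))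
        (fun p => p.1.sg * p.2.sg * v p.1 p.2 n) (Finset.mem_univ (HT.W, HT.W))
      rw [← h2]
      simp [HT.sg, RG.oth]
    rw [h1]
    ring
  rw [Finset.mul_sum, ← Finset.sum_sub_distrib]
  have hbd : ∀ n, ‖((2 * (Real.pi : ℂ))⁻¹ ^ 2 * (∑ t : HT, ∑ t' : HT, t.sg * t'.sg * v t t' n) -
        sin l / sin (2 * l) * ((2 * (Real.pi : ℂ))⁻¹ * (v1 true n + v1 false n))) -
        (2 * (Real.pi : ℂ))⁻¹ ^ 2 * v .W .W n‖ ≤
      (2 * Real.pi)⁻¹ ^ 2 * (∑ p ∈ RG.oth, ‖v p.1 p.2 n‖) +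
        ‖sin (l : ℂ) / sin (2 * l)‖ * ((2 * Real.pi)⁻¹ * ∑ o : Bool, ‖v1 o n‖) := by
    intro n
    rw [hone n]
    refine (norm_sub_le _ _).trans (add_le_add ?_ ?_)
    · rw [norm_mul, norm_pow, RG.norm_2pi]
      refine mul_le_mul_of_nonneg_left ?_ (by positivity)
      refine (norm_sum_le _ _).trans (sum_le_sum fun p _ => le_of_eq ?_)
      rw [norm_mul, norm_mul, RG.norm_sg, RG.norm_sg, one_mul, one_mul]
    · rw [norm_mul, norm_mul, RG.norm_2pi]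
      refine mul_le_mul_of_nonneg_left (mul_le_mul_of_nonneg_left ?_ (by positivity))
        (by positivity)
      rw [Fintype.sum_bool]
      exact norm_add_le _ _
  have e1 : ∑ p ∈ RG.oth, ∑ n ∈ range (N + 1), ‖v p.1 p.2 n‖ ≤ 15 * B := by
    calc ∑ p ∈ RG.oth, ∑ n ∈ range (N + 1), ‖v p.1 p.2 n‖ ≤ ∑ _p ∈ RG.oth, B :=
          sum_le_sum fun p hp => h p.1 p.2 fun hh => RG.mem_oth.1 hp (Prod.ext hh.1 hh.2)
      _ = 15 * B := by rw [sum_const, RG.card_oth, nsmul_eq_mul]; norm_num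
  have e2 : ∑ o : Bool, ∑ n ∈ range (N + 1), ‖v1 o n‖ ≤ 2 * B := by
    rw [Fintype.sum_bool]
    linarith [h1 true, h1 false]
  refine (norm_sum_le _ _).trans ((sum_le_sum fun n _ => hbd n).trans ?_)
  rw [sum_add_distrib, ← mul_sum, ← mul_sum, ← mul_sum, sum_comm]
  have e3 : ∑ n ∈ range (N + 1), ∑ o : Bool, ‖v1 o n‖ ≤ 2 * B := by
    rw [sum_comm]
    exact e2
  calc (2 * Real.pi)⁻¹ ^ 2 * (∑ p ∈ RG.oth, ∑ n ∈ range (N + 1), ‖v p.1 p.2 n‖) +
        ‖sin (l : ℂ) / sin (2 * l)‖ * ((2 * Real.pi)⁻¹ *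
          ∑ n ∈ range (N + 1), ∑ o : Bool, ‖v1 o n‖)
      ≤ (2 * Real.pi)⁻¹ ^ 2 * (15 * B) +
        ‖sin (l : ℂ) / sin (2 * l)‖ * ((2 * Real.pi)⁻¹ * (2 * B)) := by
        gcongr
    _ = RG.KA * B := by unfold RG.KA; ring


/-! ### integrability of the class `W W` -/

section wwint

variable {m M : ℕ} {D : RU m M}

/-- **integrability of the class `W W`, lines of (P)** -/
theorem int_WW6 (H : D.Ok6) (hβ : 1 / 2 ≤ D.β) {n n' : ℕ} (hn : n + M = n' + m) :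
    Integrable (ig (D.cF .W .W) D.X D.Y (51 / 100 * l) n n' lX6 lY6) := by
  obtain ⟨P, hP, -⟩ := exists_par
  have hQ : (n : ℝ) - n' = (m : ℝ) - M := by
    have := num0 hn
    linarith
  have m1 := mvQ_SF (κ := 1 + ((m : ℝ) - M)) D.measurable_KF H.PB_KF_A (by linarith)
  have m2 := mvQ_SF (κ := 1 - ((m : ℝ) - M)) D.measurable_KF' H.PB_KF'_A (by linarith)
  have v1 := fxH_cast (κ' := 1 + 2 * ((m : ℝ) - M) * (1 / 2)) (m1.fx (Or.inr rfl)) (by ring)
  have v2 := fxH_cast (κ' := 1 + 2 * ((m : ℝ) - M) * (-(1 / 2))) ((m2.fx (Or.inr rfl)).flip) (by ring)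
  have hg : Bdd {(5 / 4 * l - 5 / 4 * l : ℝ)} (2 * (1 / 2 * (-(1 / 2)))) (gT .W .W) := by
    refine Bdd.mono' gw_X.1.1 ?_
    intro d hd
    rw [Set.mem_singleton_iff] at hd
    have := Bd.l_pos
    rw [hd]
    exact ⟨by linarith, by linarith⟩
  have hq : (D.cF .W .W).dX ≤ n → (D.cF .W .W).dY ≤ n' →
      1 / 2 + -(1 / 2) + (((n - (D.cF .W .W).dX : ℕ) : ℝ) - ((n' - (D.cF .W .W).dY : ℕ) : ℝ)) =
        (m : ℝ) - M := fun _ _ => by
    show (1 / 2 : ℝ) + -(1 / 2) + (((n - 0 : ℕ) : ℝ) - ((n' - 0 : ℕ) : ℝ)) = (m : ℝ) - M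
    rw [Nat.sub_zero, Nat.sub_zero]
    linarith
  have h1 := cls_intQ (c := D.cF .W .W) (α := 3 / 5 * l) (κ := 1) (cw := 1 / 2) (cw' := -(1 / 2)) one_pos okS_P
    le_rfl
    le_rfl (H.fmD6 (by linarith)) v1 v2 (measurable_gT .W .W) hg hq (lnA_P hP)
  refine h1.congr (Filter.Eventually.of_forall fun y => ?_)
  unfold ig
  beta_reduce
  rw [PHK.CD.Z_lines (c := D.cF .W .W) (cw := 1 / 2) (cw' := -(1 / 2)) one_pos (H.fmV (by linarith))
    spV_W spV_W.flip hq (lnA_P hP) (lnX' := lX6) (lnY' := lY6)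
    (fun _ _ k _ i => lO6_mem (k i)) (fun _ _ _ k' i => lO6_mem (k' i))
    (NUP1.vlre _ _) (NUP1.vlre _ _)]

end wwint

/-! ### one regular function -/

section one

variable {m M : ℕ} (D : RU m M)

/-- **the eleven integrals**, `n` quanta X, `n + e` quanta Y -/
def EED6 (e n : ℕ) : ℂ :=
  E11 (3 / 5 * l) (-(17 / 10) * l) D.p D.q D.x D.y D.hX D.hY n (n + e) (31 / 50 * l) (-(11 / 4) * l)

/-- value of a class -/
def vP (e : ℕ) (t t' : HT) (n : ℕ) : ℂ := (D.cF t t').val D.X D.Y (51 / 100 * l) n (n + e) lX6 lY6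

/-- value of the classes D1, D1' -/
def v1P (e : ℕ) (o : Bool) (n : ℕ) : ℂ :=
  (cDo o (if o then D.XD else D.XD')).val D.X D.Y (51 / 100 * l) n (n + e) lX6 lY6

/-- **the kernels of `D` in the names of `PB/QC20`** -/
structure IsKD6 (K : PBQ.PLX.KD) (kD : Bool → ℂ → ℂ) (D : RU m M) : Prop where
  zX : K.Z true = D.X
  zY : K.Z false = D.Y
  kF : K.kF = D.KF
  kP : K.kP = D.KP
  kF' : K.kF' = D.KF'
  kP' : K.kP' = D.KP'
  k1 : kD true = D.XD
  k2 : kD false = D.XD'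

/-- prefactor of the class `W W` -/
def preWW6 (D : RU m M) (y : ℝ × ℝ) : ℂ :=
  D.KF (vl (5 / 4 * l) y.1) * D.KF' (vl (5 / 4 * l) y.2) *
    Dk (vl (5 / 4 * l) y.1 - vl (5 / 4 * l) y.2)

/-- the functions of the class `W W` at the heights `y` -/
def ZWW6 (D : RU m M) (y : ℝ × ℝ) : Bool → Option O3 → ℂ → ℂ :=
  RZW D (vl (5 / 4 * l) y.1) (vl (5 / 4 * l) y.2)

/-- integrand of the class `W W` -/
def objWW6 (D : RU m M) (e n : ℕ) (y : ℝ × ℝ) : ℂ :=
  NURow.ZobjQ (ZWW6 D y true) (ZWW6 D y false) (51 / 100 * l) n (n + e) lX6 lY6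

variable {D} {e : ℕ} {K : PBQ.PLX.KD} {kD : Bool → ℂ → ℂ}

/-- **The eleven integrals are the signed sum of the final classes.** -/
theorem EED6_eq (H : D.Ok6) (hβ : 1 < D.β) (hM : M = m + e) (n : ℕ) : EED6 D e n =
    (2 * (Real.pi : ℂ))⁻¹ ^ 2 * (∑ t : HT, ∑ t' : HT, t.sg * t'.sg * vP D e t t' n) -
      sin l / sin (2 * l) * ((2 * (Real.pi : ℂ))⁻¹ * (v1P D e true n + v1P D e false n)) := by
  obtain ⟨P, hP, hL⟩ := exists_par
  exact H.E11_finP hβ (by omega) hP hL (fun _ _ k _ i => lO6_mem (k i))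
    (fun _ _ _ k' i => lO6_mem (k' i))

theorem IsKD6.cl (h : IsKD6 K kD D) (t t' : HT) : K.cl t t' = D.cF t t' := by
  unfold PBQ.PLX.KD.cl
  rw [h.zX, h.zY, h.kF, h.kP, h.kF', h.kP']

theorem IsKD6.sVal (h : IsKD6 K kD D) (N : ℕ) (t t' : HT) :
    sVal6 K N e t t' = ∑ n ∈ range (N + 1), ‖vP D e t t' n‖ := by
  unfold sVal6 vP
  rw [h.cl, h.zX, h.zY]

theorem IsKD6.kDo (h : IsKD6 K kD D) (o : Bool) : kD o = if o then D.XD else D.XD' := by
  cases o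
  · exact h.k2
  · exact h.k1

theorem IsKD6.sValD (h : IsKD6 K kD D) (N : ℕ) (o : Bool) :
    sValD6 K kD N e o = ∑ n ∈ range (N + 1), ‖v1P D e o n‖ := by
  unfold sValD6 v1P
  rw [h.kDo, h.zX, h.zY]

theorem cFWW_Z (e n : ℕ) (y : ℝ × ℝ) : (D.cF .W .W).Z D.X D.Y (51 / 100 * l) n (n + e) lX6 lY6
    (vl (htL .W) y.1) (vl (htL .W) y.2) = objWW6 D e n y := by
  unfold CD.Z
  rw [if_pos ⟨Nat.zero_le _, Nat.zero_le _⟩]
  rfl

theorem cFWW_pre (y : ℝ × ℝ) : (D.cF .W .W).pre (vl (htL .W) y.1) (vl (htL .W) y.2) =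
    preWW6 D y := rfl

theorem IsKD6.sInt (h : IsKD6 K kD D) (N : ℕ) (S : Set (ℝ × ℝ)) :
    sInt6 K N e .W .W S = ∑ n ∈ range (N + 1), ∫⁻ y in S,
      ‖preWW6 D y‖ₑ * ‖objWW6 D e n y‖ₑ := by
  unfold sInt6
  rw [h.cl, h.zX, h.zY]
  refine Finset.sum_congr rfl fun n _ => lintegral_congr fun y => ?_
  rw [cFWW_Z, cFWW_pre]

/-- the integrand of the class `W W` is integrable -/
theorem int_preWW6 (H : D.Ok6) (hβ : 1 < D.β) (hM : M = m + e) (n : ℕ) :
    Integrable fun y : ℝ × ℝ => preWW6 D y * objWW6 D e n y := by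
  refine (int_WW6 H (by linarith) (show n + M = n + e + m by omega)).congr
    (Filter.Eventually.of_forall fun y => ?_)
  exact congrArg (fun z => preWW6 D y * z) (cFWW_Z e n y)

/-- the class `W W` on a measurable set, any numbers -/
theorem ww_near6 (H : D.Ok6) (hβ : 1 < D.β) (hM : M = m + e) {N N' : ℕ} (hN : N' ≤ N) {B' : ℝ}
    (hB' : 0 ≤ B') (hK : IsKD6 K kD D) {S : Set (ℝ × ℝ)} (hS : MeasurableSet S)
    (hf : sInt6 K N e .W .W Sᶜ ≤ ENNReal.ofReal B') :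
    ‖∑ n ∈ range (N' + 1), vP D e .W .W n -
      ∫ y in S, preWW6 D y * ∑ n ∈ range (N' + 1), objWW6 D e n y‖ ≤ B' := by
  have hi := fun n => int_preWW6 H hβ hM n
  have e1 : ∫ y in S, preWW6 D y * ∑ n ∈ range (N' + 1), objWW6 D e n y =
      ∑ n ∈ range (N' + 1), ∫ y in S, preWW6 D y * objWW6 D e n y := by
    simp only [Finset.mul_sum]
    exact integral_finsetSum _ fun n _ => (hi n).integrableOn
  have e2 : ∀ n ∈ range (N' + 1), vP D e .W .W n - ∫ y in S, preWW6 D y * objWW6 D e n y =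
      ∫ y in Sᶜ, preWW6 D y * objWW6 D e n y := by
    intro n _
    have e3 : vP D e .W .W n = ∫ y, preWW6 D y * objWW6 D e n y := by
      show ∫ y : ℝ × ℝ, (D.cF .W .W).pre (vl (htL .W) y.1) (vl (htL .W) y.2) *
        (D.cF .W .W).Z D.X D.Y (51 / 100 * l) n (n + e) lX6 lY6 (vl (htL .W) y.1)
          (vl (htL .W) y.2) = _
      refine integral_congr_ae (Filter.Eventually.of_forall fun y => ?_)
      beta_reduce
      rw [cFWW_Z, cFWW_pre]
    rw [e3, ← integral_add_compl hS (hi n), add_sub_cancel_left]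
  rw [e1, ← Finset.sum_sub_distrib, Finset.sum_congr rfl e2]
  have h2 : ‖∑ n ∈ range (N' + 1), ∫ y in Sᶜ, preWW6 D y * objWW6 D e n y‖ₑ ≤
      ENNReal.ofReal B' := by
    refine (enorm_sum_le _ _).trans (le_trans ?_ hf)
    rw [hK.sInt]
    refine (Finset.sum_le_sum fun n _ => (enorm_integral_le_lintegral_enorm _).trans
      (lintegral_mono fun y => ?_)).trans (Finset.sum_le_sum_of_subset_of_nonneg
        (Finset.range_subset_range.2 (by omega)) fun _ _ _ => zero_le)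
    rw [enorm_mul]
  rw [← ofReal_norm] at h2
  exact (ENNReal.ofReal_le_ofReal_iff hB').1 h2

/-- **The regular function as its class `W W` on a measurable set of half quanta.** -/
theorem mst_near6 (H : D.Ok6) (hβ : 1 < D.β) (hM : M = m + e) (hK : IsKD6 K kD D) {N N' : ℕ}
    (hN : N' ≤ N) {B B' : ℝ} (hB' : 0 ≤ B')
    (ho : ∀ t t' : HT, ¬(t = .W ∧ t' = .W) → sVal6 K N e t t' ≤ B)
    (hd : ∀ o : Bool, sValD6 K kD N e o ≤ B)
    {S : Set (ℝ × ℝ)} (hS : MeasurableSet S)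
    (hf : sInt6 K N e .W .W Sᶜ ≤ ENNReal.ofReal B') :
    ‖∑ n ∈ range (N' + 1), EED6 D e n - (2 * (Real.pi : ℂ))⁻¹ ^ 2 *
      ∫ y in S, preWW6 D y * ∑ n ∈ range (N' + 1), objWW6 D e n y‖ ≤
      RG.KA * B + (2 * Real.pi)⁻¹ ^ 2 * B' := by
  have hsub : range (N' + 1) ⊆ range (N + 1) := Finset.range_subset_range.2 (by omega)
  have e1 := tot_split (vP D e) (v1P D e) (N := N') (B := B)
    (fun t t' ht => by
      refine le_trans (Finset.sum_le_sum_of_subset_of_nonneg hsub fun _ _ _ => norm_nonneg _) ?_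
      rw [← hK.sVal]
      exact ho t t' ht)
    (fun o => by
      refine le_trans (Finset.sum_le_sum_of_subset_of_nonneg hsub fun _ _ _ => norm_nonneg _) ?_
      rw [← hK.sValD]
      exact hd o)
  have e2 := ww_near6 H hβ hM hN hB' hK hS hf
  rw [← Finset.sum_congr rfl fun n _ => EED6_eq H hβ hM n] at e1
  have e3 : ∑ n ∈ range (N' + 1), EED6 D e n - (2 * (Real.pi : ℂ))⁻¹ ^ 2 *
      ∫ y in S, preWW6 D y * ∑ n ∈ range (N' + 1), objWW6 D e n y =
      (∑ n ∈ range (N' + 1), EED6 D e n -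
        (2 * (Real.pi : ℂ))⁻¹ ^ 2 * ∑ n ∈ range (N' + 1), vP D e .W .W n) +
      (2 * (Real.pi : ℂ))⁻¹ ^ 2 * (∑ n ∈ range (N' + 1), vP D e .W .W n -
        ∫ y in S, preWW6 D y * ∑ n ∈ range (N' + 1), objWW6 D e n y) := by
    ring
  rw [e3]
  refine (norm_add_le _ _).trans (add_le_add e1 ?_)
  rw [norm_mul, norm_pow, RG.norm_2pi]
  exact mul_le_mul_of_nonneg_left e2 (by positivity)

end one

/-! ### the functionals -/

section fun6

variable {m M e : ℕ} {D : RU m M} {ex : Bool → List ℂ} {c0 ep : ℝ}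

/-- **what the class formula needs of `D`**, `M = m + e` -/
structure RFn6 (D : RU m M) (e : ℕ) (ex : Bool → List ℂ) (c0 : ℝ) : Prop where
  hM : M = m + e
  rb : RB6 D ex c0
  c0p : 0 < c0
  g : GF6 D.x D.g0
  g' : GF6 D.y D.g0'
  φ : PhI6 (N := fun a => cond a m M) D.β (xrU D) ex

/-- the class `W W` as a functional -/
theorem objWW6_FF [Fil] (hFF : FFth) (h : RFn6 D e ex c0) (hep0 : 0 < ep) (hep : ep ≤ 1 / 100)
    (n : ℕ) (y : ℝ × ℝ) {η η' : Crs} (hη : ∀ r ≤ 2 * (n + (n + e)),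
      ∀ᵐ O ∂(Measure.pi fun _ : Fin r => nu), CurB ep (η r O) (η' r O)) :
    objWW6 D e n y = FF6 (ZWW6 D y) par6 n (n + e) η η' (fun _ _ _ _ _ => 1) := by
  unfold objWW6 ZWW6
  rw [lX6_ln6, lY6_ln6]
  exact RWW_FFU6 hFF hI6_par6 h.hM h.rb h.c0p h.g h.g' h.φ par6_good hep0 hep (by simp [vl])
    (by simp [vl]) n hη

/-- **The regular function as the functionals of its class `W W` on a set of half quanta.** -/
theorem mst_FF6 [Fil] (hFF : FFth) (H : D.Ok6) (hβ : 1 < D.β) (h : RFn6 D e ex c0)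
    (hep0 : 0 < ep) (hep : ep ≤ 1 / 100) {K : PBQ.PLX.KD} {kD : Bool → ℂ → ℂ}
    (hK : IsKD6 K kD D) {N N' : ℕ} (hN : N' ≤ N) {B B' : ℝ} (hB' : 0 ≤ B')
    (ho : ∀ t t' : HT, ¬(t = .W ∧ t' = .W) → sVal6 K N e t t' ≤ B)
    (hd : ∀ o : Bool, sValD6 K kD N e o ≤ B)
    {S : Set (ℝ × ℝ)} (hS : MeasurableSet S)
    (hf : sInt6 K N e .W .W Sᶜ ≤ ENNReal.ofReal B')
    (η η' : ℝ × ℝ → Crs) (hη : ∀ y, ∀ r ≤ 2 * (N' + (N' + e)),
      ∀ᵐ O ∂(Measure.pi fun _ : Fin r => nu), CurB ep (η y r O) (η' y r O)) :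
    ‖∑ n ∈ range (N' + 1), EED6 D e n - (2 * (Real.pi : ℂ))⁻¹ ^ 2 *
      ∫ y in S, preWW6 D y * ∑ n ∈ range (N' + 1),
        FF6 (ZWW6 D y) par6 n (n + e) (η y) (η' y) (fun _ _ _ _ _ => 1)‖ ≤
      RG.KA * B + (2 * Real.pi)⁻¹ ^ 2 * B' := by
  have key := mst_near6 H hβ h.hM hK hN hB' ho hd hS hf
  have e1 : ∫ y in S, preWW6 D y * ∑ n ∈ range (N' + 1),
      FF6 (ZWW6 D y) par6 n (n + e) (η y) (η' y) (fun _ _ _ _ _ => 1) =
      ∫ y in S, preWW6 D y * ∑ n ∈ range (N' + 1), objWW6 D e n y := by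
    refine setIntegral_congr_fun hS fun y _ => ?_
    congr 1
    refine Finset.sum_congr rfl fun n hn => ?_
    exact (objWW6_FF hFF h hep0 hep n y
      fun r hr => hη y r (by have := Finset.mem_range.1 hn; omega)).symm
  rw [e1]
  exact key

end fun6

end PBR.PLX

end
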