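import Pool.Agent.PHK.GKer
import Pool.Agent.PHK.KB6

/-!
# The explicit kernels of the certificate: positivity (helper38)

`NE`: entry of the table (contact multiplicity `kap`, width `e`, list of `(c, a, b)`); its kernel is
`kap (gk 0 e - ck n) + ∑ c gk a b`.  `nE n t z`: the same in units `1 / (k sinh (π k / 2))`, `z = l k`.

* `NP6 n T`, `NM6 n T`: the forms of the two channels, table `T : Bool → Kd6 → Kd6 → NE`
  (`true`: same family);
* **`certN`**: if every entry is `ok`, then there is `c0 > 0` with the fields `nint`, `nn`, `low` of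
  `Cert6` for `NP6 n T`, `NM6 n T`.
-/

set_option autoImplicit false

open MeasureTheory Set

noncomputable section

namespace PHK

open NUMF (sk sk_pos l)
open NUPosK NUO
open Pool.Agent.NUM3 (sgn)

/-- entry of the table -/
structure NE where
  kap : ℝ
  e : ℝ
  L : List (ℝ × ℝ × ℝ)

/-- side conditions, cores of scale `2 ^ n` -/
structure NE.ok (n : ℕ) (t : NE) : Prop where
  kap0 : 0 ≤ t.kap
  wid : t.kap = 0 ∨ (t.e ≤ 4 ∧ 4 ≤ 2 ^ n * t.e)
  okL : OkL t.L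
  pos : ∃ p ∈ t.L, 0 < p.1

/-- the kernel of an entry -/
def NE.ker (n : ℕ) (t : NE) (k : ℝ) : ℝ :=
  t.kap * (gk 0 t.e k - ck n k) + (t.L.map fun p => p.1 * gk p.2.1 p.2.2 k).sum

theorem NE.pk {n : ℕ} {t : NE} (h : t.ok n) : PK (t.ker n) := by
  have h2 : PK fun k => t.kap * (gk 0 t.e k - ck n k) := by
    rcases h.wid with h0 | ⟨h1, h2⟩
    · exact PK.zero.congr fun k _ => by rw [h0, zero_mul]
    · exact (pk_g0' h1 h2).smul h.kap0
  exact h2.add (PK_L h.okL)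

theorem NE.low {n : ℕ} {t : NE} (h : t.ok n) : ∃ c0 : ℝ, 0 < c0 ∧ ∀ x : ℝ, |x| ≤ 1 →
    c0 ≤ ∫ k in Ioi (0:ℝ), t.ker n k * Real.cos (k * x) := by
  have h2 : PK fun k => t.kap * (gk 0 t.e k - ck n k) := by
    rcases h.wid with h0 | ⟨h1, h2⟩
    · exact PK.zero.congr fun k _ => by rw [h0, zero_mul]
    · exact (pk_g0' h1 h2).smul h.kap0
  obtain ⟨p, hp, hp0⟩ := h.pos
  obtain ⟨_, q2, q3, q4⟩ := h.okL p hp
  obtain ⟨c, hc, H⟩ := gk_low q2 q3 q4
  refine ⟨p.1 * c, by positivity, fun x hx => ?_⟩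
  have e := int_PK_add h2 (PK_L h.okL) x
  have h5 := h2.2 x
  have h6 := L_low h.okL hp x
  have h7 := mul_le_mul_of_nonneg_left (H x hx) hp0.le
  unfold NE.ker
  rw [e]
  linarith

/-- the entry in units `1 / (k sinh (π k / 2))`, `z = l k` -/
def nE (n : ℕ) (t : NE) (z : ℝ) : ℝ :=
  t.kap * (Real.cosh (4 * z) - Real.cosh ((4 - t.e) * z) - Real.sinh (4 * z) * Real.tanh (2 * z / 2 ^ n)) +
    (t.L.map fun p => p.1 * (Real.cosh ((4 - p.2.1) * z) - Real.cosh ((4 - p.2.2) * z))).sum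

lemma yk_l (k : ℝ) : yk k = l * k := by unfold yk l; ring

lemma sk_y (k : ℝ) : sk k = Real.sinh (4 * yk k) := by
  unfold sk yk
  congr 1
  ring

lemma gk_mul (a b : ℝ) {k : ℝ} (hk : 0 < k) : gk a b k =
    (Real.cosh ((4 - a) * (l * k)) - Real.cosh ((4 - b) * (l * k))) / (k * sk k) := by
  unfold gk
  rw [← yk_l, sk_y]
  have := (Real.sinh_pos_iff.2 (by have := yk_pos hk; positivity : 0 < 4 * yk k)).ne'
  field_simp

lemma ck_mul (n : ℕ) {k : ℝ} (hk : 0 < k) : ck n k =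
    (Real.sinh (4 * (l * k)) * Real.tanh (2 * (l * k) / 2 ^ n)) / (k * sk k) := by
  unfold ck
  rw [← yk_l, sk_y]
  have h1 := (Real.sinh_pos_iff.2 (by have := yk_pos hk; positivity : 0 < 4 * yk k)).ne'
  generalize Real.sinh (4 * yk k) = S at h1
  generalize Real.tanh (2 * yk k / 2 ^ n) = T
  field_simp

theorem ker_eq (n : ℕ) (t : NE) {k : ℝ} (hk : 0 < k) : t.ker n k = nE n t (l * k) / (k * sk k) := by
  unfold NE.ker nE
  rw [add_div, gk_mul 0 t.e hk, ck_mul n hk, sub_zero]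
  congr 1
  · ring
  · rw [div_eq_mul_inv, ← List.sum_map_mul_right]
    congr 1
    refine List.map_congr_left fun p _ => ?_
    rw [gk_mul p.2.1 p.2.2 hk]
    ring

/-- form of the sum of the species -/
def NP6 (n : ℕ) (T : Bool → Kd6 → Kd6 → NE) (K K' : Kd6) (k : ℝ) : ℝ :=
  nE n (T true K K') (l * k) + nE n (T false K K') (l * k)

/-- form of the difference of the species -/
def NM6 (n : ℕ) (T : Bool → Kd6 → Kd6 → NE) (K K' : Kd6) (k : ℝ) : ℝ :=
  nE n (T true K K') (l * k) - nE n (T false K K') (l * k)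

theorem qs6_ker (n : ℕ) (T : Bool → Kd6 → Kd6 → NE) (s : Bool) (K K' : Kd6) {k : ℝ} (hk : 0 < k) :
    (T s K K').ker n k = qs6 (NP6 n T) (NM6 n T) s K K' k := by
  rw [ker_eq n _ hk]
  unfold qs6 NP6 NM6 sgn
  cases s
  · simp only [Bool.false_eq_true, if_false]
    ring
  · simp only [if_true]
    ring

theorem certN {n : ℕ} {T : Bool → Kd6 → Kd6 → NE} (h : ∀ s K K', (T s K K').ok n) :
    ∃ c0 : ℝ, 0 < c0 ∧ (∀ s K K', IntegrableOn (qs6 (NP6 n T) (NM6 n T) s K K') (Ioi 0)) ∧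
      (∀ s K K' t, 0 ≤ IQ6 (NP6 n T) (NM6 n T) s K K' t) ∧
      ∀ s K K' t, |t| ≤ 1 → c0 ≤ IQ6 (NP6 n T) (NM6 n T) s K K' t := by
  have hI : ∀ s K K' t, IQ6 (NP6 n T) (NM6 n T) s K K' t =
      ∫ k in Ioi (0:ℝ), (T s K K').ker n k * Real.cos (k * t) := by
    intro s K K' t
    unfold IQ6
    refine setIntegral_congr_fun measurableSet_Ioi fun k hk => ?_
    simp only [qs6_ker n T s K K' hk]
  choose c hc H using fun p : Bool × Kd6 × Kd6 => NE.low (h p.1 p.2.1 p.2.2)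
  obtain ⟨p0, _, hp0⟩ := Finset.exists_min_image Finset.univ c ⟨(true, .L, .L), Finset.mem_univ _⟩
  refine ⟨c p0, hc p0, fun s K K' => ?_, fun s K K' t => ?_, fun s K K' t ht => ?_⟩
  · exact (NE.pk (h s K K')).1.congr_fun (fun k hk => qs6_ker n T s K K' hk) measurableSet_Ioi
  · rw [hI]
    exact (NE.pk (h s K K')).2 t
  · rw [hI]
    exact (hp0 (s, K, K') (Finset.mem_univ _)).trans (H (s, K, K') t ht)

/-- **the certificate from the forms** -/
theorem cert6_of {n : ℕ} {P : Par6} {T : Bool → Kd6 → Kd6 → NE} {MP MM : Kd6 → Kd6 → ℝ → ℝ}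
    (h : ∀ s K K', (T s K K').ok n)
    (mint : ∀ s K K', IntegrableOn (qs6 MP MM s K K') (Ioi 0))
    (pair : ∀ s K K' x y, Dr6 n P s K K' (x - y) - ER6 P s K K' x y = IQ6 MP MM s K K' (x - y))
    (fP : ∀ k : ℝ, 0 < k → ∀ x : Kd6 → ℝ,
      0 ≤ ∑ K, ∑ K', x K * x K' * (MP K K' k - NP6 n T K K' k))
    (fM : ∀ k : ℝ, 0 < k → ∀ x : Kd6 → ℝ,
      0 ≤ ∑ K, ∑ K', x K * x K' * (MM K K' k - NM6 n T K K' k)) :
    ∃ c0 : ℝ, 0 < c0 ∧ Cert6 n P c0 MP MM (NP6 n T) (NM6 n T) := by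
  obtain ⟨c0, h0, h1, h2, h3⟩ := certN h
  exact ⟨c0, h0, mint, pair, h1, fP, fM, h2, h3⟩

end PHK

end
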