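import Pool.Agent.PHK.Ob6
import Pool.Agent.PLX.PhiLow
import Pool.Agent.PLX.PB.OneD
import Pool.Agent.NUO.OneW

/-!
# One body data of (P), the instance side: rows, holes, cutoff

Rows of species `a`: a list `W a` with at most `n0` rows which are not `0`, cutoff points `V a`.

* `norm_phi_up`: the cutoff from above in the wide strip;
* `RwU`: the rows; `up_R`, `inv_R`: rows from above and their inverse from above, against
  `rw0 N a u = rwO 0 u ^ N a * rwX 0 u ^ N (!a)`;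
* **`ObR`**: one body data with the rows `W`, the cutoff points `V` and a further factor `g`, two sided
  on the lines; **`ObR.up6`, `lo6`, `pu6`, `pl6`**: the fields `up`, `lo`, `pu`, `pl` of `Ob6`;
* `rwU_list`, `obR_obU`: the rows of `obU` as lists.
-/

set_option autoImplicit false

noncomputable section

open Complex MeasureTheory Set

namespace PHK

open NUP1 NUGC.PLX PBO.PLX
open NUO (cut posT posS)

/-! ### the cutoff from above -/

section cutoff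
variable {β : ℝ} {n0 K m : ℕ} {h0 : ℝ} {W ex : List ℂ} {u : ℂ}

theorem one_sub_psi_wide {z : ℂ} (h0 : 0 < β) (h1 : β ≤ 4 / 3) (hz : |z.re + l / 2| ≤ 2 * l) :
    ‖1 - psi β z‖ ≤ 12 * Real.exp (-(2 * β) * |z.im|) := by
  have hden := den_wide h0 h1 hz
  have hcr : Complex.cos (β * l : ℂ) = ((cl β : ℝ) : ℂ) := by unfold cl; push_cast; rfl
  have hx := Real.cosh_pos (2 * β * z.im)
  obtain ⟨D, hD⟩ : ∃ D, D = Complex.cos (2 * β * z + β * l) + ((cl β : ℝ) : ℂ) := ⟨_, rfl⟩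
  rw [← hD] at hden
  have hD0 : 0 < ‖D‖ ^ 2 := lt_of_lt_of_le (by positivity) hden
  have hD1 : D ≠ 0 := by
    intro h
    rw [h] at hD0
    simp at hD0
  have e : 1 - psi β z = 2 * ((cl β : ℝ) : ℂ) / D := by
    unfold psi
    rw [hcr, ← hD, eq_div_iff hD1, sub_mul, div_mul_cancel₀ _ hD1, hD]
    ring
  have hn : ‖(2 : ℂ) * ((cl β : ℝ) : ℂ)‖ ≤ 2 := by
    rw [norm_mul, Complex.norm_real, Complex.norm_two, Real.norm_eq_abs]
    have : |cl β| ≤ 1 := Real.abs_cos_le_one _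
    clear * - this
    linarith
  have h3 : Real.cosh (2 * β * z.im) / 3 ≤ ‖D‖ := by
    refine (sq_le_sq₀ (by positivity) (norm_nonneg _)).1 ?_
    refine le_trans ?_ hden
    rw [div_pow]
    have := sq_nonneg (Real.cosh (2 * β * z.im))
    clear * - this
    linarith
  have hci := cosh_inv_le h0 z.im
  rw [e, norm_div]
  calc ‖(2 : ℂ) * ((cl β : ℝ) : ℂ)‖ / ‖D‖ ≤ 2 / (Real.cosh (2 * β * z.im) / 3) := by (clear * - hn h3; gcongr)
    _ = 6 * (Real.cosh (2 * β * z.im))⁻¹ := by field_simp; norm_num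
    _ ≤ _ := by (clear * - hci; linarith)

/-- constant of `norm_phi_up` -/
def cPw (n0 : ℕ) (h0 : ℝ) : ℝ := Real.exp (16 * Real.exp (8 / 3 * h0) * n0)

theorem one_le_cPw (n0 : ℕ) (h0 : ℝ) : 1 ≤ cPw n0 h0 := Real.one_le_exp (by positivity)

theorem cPw_pos (n0 : ℕ) (h0 : ℝ) : 0 < cPw n0 h0 := Real.exp_pos _

/-- the factor of a point `x`, `|re x| ≤ l / 2` -/
theorem psi_pt (hβ0 : 0 < β) (hβ1 : β ≤ 4 / 3) (hh : 0 ≤ h0) {x : ℂ} (hr : |x.re| ≤ l / 2)
    (hi : |x.im| ≤ h0) (hu : |u.re + l / 2| ≤ 3 / 2 * l) :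
    ‖psi β (u - x)‖ ≤ Real.exp (16 * Real.exp (8 / 3 * h0)) ∧
    ‖1 - psi β (u - x)‖ ≤ 12 * Real.exp (8 / 3 * h0) * Real.exp (-(2 * β) * |u.im|) := by
  have hz : |(u - x).re + l / 2| ≤ 2 * l := by
    have h1 := abs_le.1 hr
    have h2 := abs_le.1 hu
    rw [sub_re, abs_le]
    constructor <;> (clear * - h1 h2; linarith [h1.1, h1.2, h2.1, h2.2])
  have he : Real.exp (-(2 * β) * |(u - x).im|) ≤
      Real.exp (8 / 3 * h0) * Real.exp (-(2 * β) * |u.im|) := by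
    rw [← Real.exp_add]
    refine Real.exp_le_exp.2 ?_
    have h3 : |u.im| - |x.im| ≤ |(u - x).im| := by rw [sub_im]; exact abs_sub_abs_le_abs_sub _ _
    have h5 : 2 * β * (|u.im| - |(u - x).im|) ≤ 2 * β * h0 :=
      mul_le_mul_of_nonneg_left (by (clear * - hi h3; linarith)) (by (clear * - hβ0; linarith))
    have h6 : 2 * β * h0 ≤ 8 / 3 * h0 := mul_le_mul_of_nonneg_right (by (clear * - hβ1; linarith)) hh
    clear * - h5 h6
    linarith
  have hE1 : Real.exp (-(2 * β) * |u.im|) ≤ 1 := by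
    refine Real.exp_le_one_iff.2 ?_
    have := mul_nonneg (mul_nonneg two_pos.le hβ0.le) (abs_nonneg u.im)
    linarith
  have hE8 := Real.exp_pos (8 / 3 * h0)
  refine ⟨(norm_psi_wide hβ0 hβ1 hz).trans (Real.exp_le_exp.2 ?_),
    (one_sub_psi_wide hβ0 hβ1 hz).trans ?_⟩
  · calc 16 * Real.exp (-(2 * β) * |(u - x).im|) ≤
        16 * (Real.exp (8 / 3 * h0) * Real.exp (-(2 * β) * |u.im|)) := by gcongr
      _ ≤ 16 * (Real.exp (8 / 3 * h0) * 1) := by gcongr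
      _ = _ := by ring
  · calc 12 * Real.exp (-(2 * β) * |(u - x).im|) ≤
        12 * (Real.exp (8 / 3 * h0) * Real.exp (-(2 * β) * |u.im|)) := by gcongr
      _ = _ := by ring

theorem prod_ex_up (hβ0 : 0 < β) (hβ1 : β ≤ 4 / 3) (hh : 0 ≤ h0)
    (hu : |u.re + l / 2| ≤ 3 / 2 * l) (X : List ℂ) (hr : ∀ x ∈ X, |x.re| ≤ l / 2)
    (hi : ∀ x ∈ X, |x.im| ≤ h0) :
    ‖(X.map fun x => psi β (u - x)).prod‖ ≤ Real.exp (16 * Real.exp (8 / 3 * h0)) ^ X.length ∧
    ‖1 - (X.map fun x => psi β (u - x)).prod‖ ≤ 12 * Real.exp (8 / 3 * h0) *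
      Real.exp (-(2 * β) * |u.im|) * (X.length * Real.exp (16 * Real.exp (8 / 3 * h0)) ^ X.length) := by
  induction X with
  | nil => simp
  | cons x X ih =>
    obtain ⟨i1, i2⟩ := ih (fun y hy => hr y (by simp [hy])) fun y hy => hi y (by simp [hy])
    obtain ⟨a1, a2⟩ := psi_pt hβ0 hβ1 hh (hr x (by simp)) (hi x (by simp)) hu
    have hE := Real.exp_pos (-(2 * β) * |u.im|)
    have hE8 := Real.exp_pos (8 / 3 * h0)
    have hA : 1 ≤ Real.exp (16 * Real.exp (8 / 3 * h0)) := Real.one_le_exp (by positivity)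
    set A := Real.exp (16 * Real.exp (8 / 3 * h0)) with hAdef
    have hA0 : 0 < A := lt_of_lt_of_le one_pos hA
    have hAn : 1 ≤ A ^ (X.length + 1) := one_le_pow₀ hA
    rw [List.map_cons, List.prod_cons, List.length_cons]
    constructor
    · rw [norm_mul, pow_succ, mul_comm (A ^ X.length)]
      exact mul_le_mul a1 i1 (norm_nonneg _) hA0.le
    · have e : 1 - psi β (u - x) * (X.map fun x => psi β (u - x)).prod =
          (1 - psi β (u - x)) + psi β (u - x) * (1 - (X.map fun x => psi β (u - x)).prod) := by ring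
      rw [e]
      refine (norm_add_le _ _).trans ?_
      rw [norm_mul]
      have h3 : ‖psi β (u - x)‖ * ‖1 - (X.map fun x => psi β (u - x)).prod‖ ≤
          A * (12 * Real.exp (8 / 3 * h0) * Real.exp (-(2 * β) * |u.im|) *
            (X.length * A ^ X.length)) := mul_le_mul a1 i2 (norm_nonneg _) hA0.le
      have h4 : 12 * Real.exp (8 / 3 * h0) * Real.exp (-(2 * β) * |u.im|) ≤
          12 * Real.exp (8 / 3 * h0) * Real.exp (-(2 * β) * |u.im|) * A ^ (X.length + 1) :=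
        le_mul_of_one_le_right (by positivity) hAn
      push_cast
      calc _ ≤ 12 * Real.exp (8 / 3 * h0) * Real.exp (-(2 * β) * |u.im|) * A ^ (X.length + 1) +
          A * (12 * Real.exp (8 / 3 * h0) * Real.exp (-(2 * β) * |u.im|) *
            (X.length * A ^ X.length)) := add_le_add (a2.trans h4) h3
        _ = _ := by rw [pow_succ]; ring

/-- **the cutoff from above** -/
theorem norm_phi_up (hβ0 : 0 < β) (hβ1 : β ≤ 4 / 3) (hh : 0 ≤ h0) (h : RwL n0 h0 K W ex)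
    (hu : |u.re + l / 2| ≤ 3 / 2 * l) :
    ‖phi β W u‖ ≤ 2 * cPw n0 h0 ∧
    ‖phi β W u‖ ≤ 12 * Real.exp (8 / 3 * h0) * cPw n0 h0 *
      (W.length * Real.exp (-(2 * β) * |u.im|)) := by
  have hl := l_pos
  have hE := Real.exp_pos (-(2 * β) * |u.im|)
  have hE8 := Real.exp_pos (8 / 3 * h0)
  have hC := one_le_cPw n0 h0
  obtain ⟨i1, i2⟩ := prod_ex_up hβ0 hβ1 hh hu ex h.re h.im
  have hA : 1 ≤ Real.exp (16 * Real.exp (8 / 3 * h0)) := Real.one_le_exp (by positivity)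
  have hA1 : Real.exp (16 * Real.exp (8 / 3 * h0)) ^ ex.length ≤ cPw n0 h0 := by
    refine (pow_le_pow_right₀ hA h.len).trans (le_of_eq ?_)
    unfold cPw
    rw [← Real.exp_nat_mul]
    congr 1
    ring
  have p1 : ‖psi β u‖ ≤ 1 := NUGC.psi_le_one' hβ0 hβ1 (by
    rw [show 3 * l / 2 = 3 / 2 * l by ring]
    exact hu)
  have p2 : ‖1 - psi β u‖ ≤ 12 * Real.exp (8 / 3 * h0) * Real.exp (-(2 * β) * |u.im|) := by
    have := (psi_pt hβ0 hβ1 hh (x := 0) (by rw [zero_re, abs_zero]; positivity)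
      (by rw [zero_im, abs_zero]; exact hh) hu).2
    rwa [sub_zero] at this
  have p3 : ‖psi β u ^ K‖ ≤ 1 := by
    rw [norm_pow]
    exact pow_le_one₀ (norm_nonneg _) p1
  have p4 : ‖1 - psi β u ^ K‖ ≤ K * ‖1 - psi β u‖ := by
    clear p3
    induction K with
    | zero => simp
    | succ K ih =>
      have e : 1 - psi β u ^ (K + 1) = (1 - psi β u ^ K) * psi β u + (1 - psi β u) := by ring
      rw [e]
      refine (norm_add_le _ _).trans ?_
      rw [norm_mul]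
      have h2 : RwL n0 h0 K (List.replicate K 0 ++ ex) ex := ⟨List.Perm.refl _, h.len, h.re, h.im⟩
      have h3 : ‖1 - psi β u ^ K‖ * ‖psi β u‖ ≤ K * ‖1 - psi β u‖ * 1 := by
        refine mul_le_mul ?_ p1 (norm_nonneg _) (by (clear * -; positivity))
        have key : ∀ K : ℕ, ‖1 - psi β u ^ K‖ ≤ K * ‖1 - psi β u‖ := by
          intro K
          induction K with
          | zero => simp
          | succ K ih =>
            have e : 1 - psi β u ^ (K + 1) = (1 - psi β u ^ K) * psi β u + (1 - psi β u) := by ring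
            rw [e]
            refine (norm_add_le _ _).trans ?_
            rw [norm_mul]
            have : ‖1 - psi β u ^ K‖ * ‖psi β u‖ ≤ K * ‖1 - psi β u‖ * 1 :=
              mul_le_mul ih p1 (norm_nonneg _) (by positivity)
            push_cast
            clear * - this
            linarith
        exact key K
      push_cast
      clear * - h3
      linarith
  have e : phi β W u = 1 - psi β u ^ K * (ex.map fun x => psi β (u - x)).prod := by
    unfold phi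
    rw [(h.perm.map fun x => psi β (u - x)).prod_eq, List.map_append, List.prod_append,
      List.map_replicate, List.prod_replicate, sub_zero]
  have hlen : W.length = K + ex.length := by
    rw [h.perm.length_eq, List.length_append, List.length_replicate]
  constructor
  · rw [e]
    refine (norm_sub_le _ _).trans ?_
    rw [norm_one, norm_mul]
    have h5 : ‖psi β u ^ K‖ * ‖(ex.map fun x => psi β (u - x)).prod‖ ≤ 1 * cPw n0 h0 :=
      mul_le_mul p3 (i1.trans hA1) (norm_nonneg _) zero_le_one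
    clear * - hC h5
    linarith
  · have e2 : phi β W u = (1 - psi β u ^ K) +
        psi β u ^ K * (1 - (ex.map fun x => psi β (u - x)).prod) := by
      rw [e]
      ring
    rw [e2, hlen]
    refine (norm_add_le _ _).trans ?_
    rw [norm_mul]
    have h6 : ‖psi β u ^ K‖ * ‖1 - (ex.map fun x => psi β (u - x)).prod‖ ≤
        1 * (12 * Real.exp (8 / 3 * h0) * Real.exp (-(2 * β) * |u.im|) *
          (ex.length * cPw n0 h0)) :=
      mul_le_mul p3 (i2.trans (by gcongr)) (norm_nonneg _) zero_le_one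
    have h7 : ‖1 - psi β u ^ K‖ ≤ K * (12 * Real.exp (8 / 3 * h0) *
        Real.exp (-(2 * β) * |u.im|) * cPw n0 h0) := by
      refine p4.trans (mul_le_mul_of_nonneg_left (p2.trans ?_) (Nat.cast_nonneg K))
      exact le_mul_of_one_le_right (by positivity) hC
    push_cast
    calc _ ≤ K * (12 * Real.exp (8 / 3 * h0) * Real.exp (-(2 * β) * |u.im|) * cPw n0 h0) +
        1 * (12 * Real.exp (8 / 3 * h0) * Real.exp (-(2 * β) * |u.im|) *
          (ex.length * cPw n0 h0)) := add_le_add h7 h6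
      _ = _ := by ring

/-- the cutoff from above against `cut` -/
theorem phi_cut (hβ0 : 0 < β) (hβ1 : β ≤ 4 / 3) (hh : 0 ≤ h0) (h : RwL n0 h0 K W ex)
    {c1 : ℝ} (hc1 : 1 ≤ c1) (hlen : (W.length : ℝ) ≤ c1 * m) (hu : |u.re + l / 2| ≤ 3 / 2 * l) :
    ‖phi β W u‖ ≤ 12 * Real.exp (8 / 3 * h0) * cPw n0 h0 * c1 ∧
    ‖phi β W u‖ ≤ 12 * Real.exp (8 / 3 * h0) * cPw n0 h0 * c1 * cut m β u.im := by
  obtain ⟨a1, a2⟩ := norm_phi_up hβ0 hβ1 hh h hu
  have hE := Real.exp_pos (-(2 * β) * |u.im|)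
  have hE8 : 1 ≤ Real.exp (8 / 3 * h0) := Real.one_le_exp (by (clear * - hh; positivity))
  have hC := cPw_pos n0 h0
  have b1 : ‖phi β W u‖ ≤ 12 * Real.exp (8 / 3 * h0) * cPw n0 h0 * c1 := by
    refine a1.trans ?_
    calc 2 * cPw n0 h0 ≤ 12 * 1 * cPw n0 h0 * 1 := by (clear * - hC; linarith)
      _ ≤ _ := by (clear * - hE8 hC hc1; gcongr)
  refine ⟨b1, ?_⟩
  unfold NUO.cut
  rcases le_total 1 (m * Real.exp (-(2 * β) * |u.im|)) with h5 | h5
  · rw [min_eq_left h5, mul_one]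
    exact b1
  · rw [min_eq_right h5]
    refine a2.trans ?_
    calc 12 * Real.exp (8 / 3 * h0) * cPw n0 h0 * (W.length * Real.exp (-(2 * β) * |u.im|)) ≤
        12 * Real.exp (8 / 3 * h0) * cPw n0 h0 * ((c1 * m) * Real.exp (-(2 * β) * |u.im|)) := by
          clear * - hlen hC
          gcongr
      _ = _ := by ring

end cutoff

/-! ### rows -/

section rows
variable {n0 miss : ℕ} {h0 : ℝ} {N : Bool → ℕ} {W : Bool → List ℂ} {u : ℂ}

/-- rows: `N a - miss` rows of species `a`, at most `n0` of them are not `0`; `miss ≤ n0` rows are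
missing in both species -/
structure RwU (n0 : ℕ) (h0 : ℝ) (miss : ℕ) (N : Bool → ℕ) (W : Bool → List ℂ) : Prop where
  ex : ∀ a, ∃ (K : ℕ) (ex : List ℂ), RwL n0 h0 K (W a) ex
  lt : ∀ a, ∀ x ∈ W a, |x.re| ≤ 499 / 1000 * l
  len : ∀ a, (W a).length + miss = N a
  ms : miss ≤ n0

/-- one row in both species -/
theorem row_two (h : AwO 0 u) (h' : AwX 0 u) :
    cR⁻¹ ≤ rwO 0 u * rwX 0 u ∧ rwO 0 u * rwX 0 u ≤ cR := by
  have h1 := rwO_le h
  have h2 := rwO_ge h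
  have h3 := rwX_le 0 u
  have h4 := rwX_ge h'
  have hc := Real.cosh_pos (u - 0).im
  have hR := cR_pos
  have hx := rwX_nonneg 0 u
  have ho := rwO_nonneg 0 u
  constructor
  · calc cR⁻¹ = (Real.cosh (u - 0).im ^ 2)⁻¹ * (cR⁻¹ * Real.cosh (u - 0).im ^ 2) := by
          field_simp
      _ ≤ rwO 0 u * rwX 0 u := mul_le_mul h2 h4 (by positivity) ho
  · calc rwO 0 u * rwX 0 u ≤ (cR * (Real.cosh (u - 0).im ^ 2)⁻¹) * Real.cosh (u - 0).im ^ 2 :=
          mul_le_mul h1 h3 hx (by positivity)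
      _ = cR := by field_simp

theorem rw0_len (h : RwU n0 h0 miss N W) (a : Bool) (u : ℂ) :
    rw0 N a u = bas (fun a => (W a).length) a u * (rwO 0 u * rwX 0 u) ^ miss := by
  unfold bas rw0
  simp only []
  rw [← h.len a, ← h.len (!a), pow_add, pow_add, mul_pow]
  ring

/-- `N - miss` rows against `N` rows -/
theorem bas_le (h : RwU n0 h0 miss N W) (a : Bool) (h1 : AwO 0 u) (h2 : AwX 0 u) :
    bas (fun a => (W a).length) a u ≤ cR ^ n0 * rw0 N a u := by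
  obtain ⟨b1, -⟩ := row_two h1 h2
  have hR := cR_pos
  have hb := bas_nonneg (fun a => (W a).length) a u
  have b2 : (cR⁻¹) ^ miss ≤ (rwO 0 u * rwX 0 u) ^ miss := pow_le_pow_left₀ (by positivity) b1 _
  have b3 : (1 : ℝ) ≤ cR ^ n0 * (rwO 0 u * rwX 0 u) ^ miss := by
    calc (1 : ℝ) = cR ^ miss * (cR⁻¹) ^ miss := by rw [← mul_pow, mul_inv_cancel₀ hR.ne', one_pow]
      _ ≤ cR ^ n0 * (rwO 0 u * rwX 0 u) ^ miss :=
        mul_le_mul (pow_le_pow_right₀ one_le_cR h.ms) b2 (by positivity) (by positivity)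
  rw [rw0_len h]
  calc bas (fun a => (W a).length) a u ≤ bas (fun a => (W a).length) a u *
      (cR ^ n0 * (rwO 0 u * rwX 0 u) ^ miss) := le_mul_of_one_le_right hb b3
    _ = _ := by ring

theorem inv_bas_le (h : RwU n0 h0 miss N W) (a : Bool) (h1 : AwO 0 u) (h2 : AwX 0 u) :
    (bas (fun a => (W a).length) a u)⁻¹ ≤ cR ^ n0 * (rw0 N a u)⁻¹ := by
  obtain ⟨b1, b2⟩ := row_two h1 h2
  have hR := cR_pos
  have hp : 0 < rwO 0 u * rwX 0 u := lt_of_lt_of_le (by positivity) b1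
  have hb := inv_nonneg.2 (bas_nonneg (fun a => (W a).length) a u)
  have b3 : (1 : ℝ) ≤ cR ^ n0 * ((rwO 0 u * rwX 0 u) ^ miss)⁻¹ := by
    rw [← div_eq_mul_inv, one_le_div (by positivity)]
    exact (pow_le_pow_left₀ hp.le b2 _).trans (pow_le_pow_right₀ one_le_cR h.ms)
  rw [rw0_len h, mul_inv]
  calc (bas (fun a => (W a).length) a u)⁻¹ ≤ (bas (fun a => (W a).length) a u)⁻¹ *
      (cR ^ n0 * ((rwO 0 u * rwX 0 u) ^ miss)⁻¹) := le_mul_of_one_le_right hb b3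
    _ = _ := by ring

theorem awO_up {x : ℂ} (hx : |x.re| ≤ 499 / 1000 * l)
    (hu : (-(5 / 2 * l) ≤ u.re ∧ u.re ≤ -(1 / 2 * l)) ∨ (13 / 25 * l ≤ u.re ∧ u.re ≤ l)) : AwO x u := by
  have hl := l_pos
  obtain ⟨x1, x2⟩ := abs_le.1 hx
  rcases hu with ⟨u1, u2⟩ | ⟨u1, u2⟩
  · constructor
    · rw [le_abs]; right; (clear * - x1 u2; linarith)
    · rw [abs_le]; constructor <;> (clear * - hl x2 u1 x1 u2; linarith)
    · rw [le_abs]; right; (clear * - hl x1 u2; linarith)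
    · rw [abs_le]; constructor <;> (clear * - hl x2 u1 x1 u2; linarith)
  · constructor
    · rw [le_abs]; left; linarith
    · rw [abs_le]; constructor <;> (clear * - hl x2 u1 x1 u2; linarith)
    · rw [le_abs]; right; linarith
    · rw [abs_le]; constructor <;> (clear * - hl x2 u1 x1 u2; linarith)

theorem awO_zero (h1 : l / 1000 ≤ |u.re|) (h2 : -(5 / 2 * l) ≤ u.re) (h3 : u.re ≤ l) : AwO 0 u := by
  have hl := l_pos
  constructor
  · rw [zero_re, sub_zero]; exact h1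
  · rw [zero_re, sub_zero, abs_le]; constructor <;> (clear * - h2 hl h3; linarith)
  · rw [zero_re, sub_zero, le_abs]; right; linarith
  · rw [zero_re, sub_zero, abs_le]; constructor <;> (clear * - h2 hl h3; linarith)

theorem awX_of {x : ℂ} (hx : |x.re| ≤ 1 / 2 * l) (h2 : -(62 / 25 * l) ≤ u.re) (h3 : u.re ≤ l) :
    AwX x u := by
  have hl := l_pos
  obtain ⟨x1, x2⟩ := abs_le.1 hx
  constructor
  · rw [le_abs]; left; (clear * - h2 hl x2; linarith)
  · rw [abs_le]; constructor <;> (clear * - h2 hl x2 h3 x1; linarith)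

/-- **rows from above** on the lines of the strings, of `L` and of the points `b` -/
theorem up_R (hh : 0 ≤ h0) (h : RwU n0 h0 miss N W) (a : Bool)
    (hu : (-(62 / 25 * l) ≤ u.re ∧ u.re ≤ -(1 / 2 * l)) ∨ (13 / 25 * l ≤ u.re ∧ u.re ≤ l)) :
    rwL W a u ≤ cRh h0 ^ (2 * n0) * cR ^ n0 * rw0 N a u := by
  have hl := l_pos
  choose K ex hex using h.ex
  have hmem : ∀ a, ∀ x ∈ ex a, x ∈ W a := fun a x hx => (hex a).perm.mem_iff.2 (by simp [hx])
  have hu1 : -(62 / 25 * l) ≤ u.re := by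
    rcases hu with ⟨u1, -⟩ | ⟨u1, -⟩ <;> (clear * - u1 hl; linarith)
  have hu2 : u.re ≤ l := by
    rcases hu with ⟨-, u1⟩ | ⟨-, u1⟩ <;> (clear * - hl u1; linarith)
  have hu' : (-(5 / 2 * l) ≤ u.re ∧ u.re ≤ -(1 / 2 * l)) ∨ (13 / 25 * l ≤ u.re ∧ u.re ≤ l) := by
    rcases hu with ⟨u1, u2⟩ | ⟨u1, u2⟩
    · exact Or.inl ⟨by (clear * - hl hu1; linarith), u2⟩
    · exact Or.inr ⟨u1, u2⟩
  have h0' : |(0 : ℂ).re| ≤ 499 / 1000 * l := by rw [zero_re, abs_zero]; positivity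
  have hX : AwX 0 u := awX_of (by rw [zero_re, abs_zero]; positivity) hu1 hu2
  refine (R_up hh hex a (fun x hx => awO_up (h.lt a x (hmem a x hx)) hu') (awO_up h0' hu')
    hX).trans ?_
  rw [mul_assoc]
  exact mul_le_mul_of_nonneg_left (bas_le h a (awO_up h0' hu') hX) (pow_pos (cRh_pos h0) _).le

/-- **the inverse of the rows** on the lines of the holes -/
theorem inv_R (hh : 0 ≤ h0) (h : RwU n0 h0 miss N W) (a : Bool) (hu1 : l / 1000 ≤ u.re)
    (hu2 : u.re ≤ l) :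
    (rwL W a u)⁻¹ ≤ cRh h0 ^ (2 * n0) * cR ^ n0 * (rw0 N a u)⁻¹ := by
  have hl := l_pos
  choose K ex hex using h.ex
  have hO : AwO 0 u := awO_zero (hu1.trans (le_abs_self _)) (by linarith) hu2
  have hX : AwX 0 u := awX_of (by rw [zero_re, abs_zero]; (clear * - hl; positivity)) (by (clear * - hu1 hl; linarith)) hu2
  refine (R_inv hh hex a hO (fun x hx => awX_of
    (((hex (!a)).re x hx).trans (by (clear * -; linarith))) (by (clear * - hu1 hl; linarith)) hu2) hX).trans ?_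
  rw [mul_assoc]
  exact mul_le_mul_of_nonneg_left (inv_bas_le h a hO hX) (pow_pos (cRh_pos h0) _).le

end rows

/-! ### the one body data -/

/-- one body data with the rows `W`, the cutoff points `V`, a further factor `g` -/
structure ObR (n0 miss : ℕ) (h0 G c0 d1 : ℝ) (P : Par6) (N : Bool → ℕ) (m : ℕ) (β : ℝ) (B : OB)
    (W V : Bool → List ℂ) (g : Bool → ℂ → ℝ) : Prop where
  hh : 0 ≤ h0
  cc : 0 < c0
  one_le : 1 ≤ d1
  G0 : 0 ≤ G
  m0 : 1 ≤ m
  mL : 2 ^ 14 * Real.exp (8 / 3 * h0) * n0 ≤ m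
  β0 : 0 < β
  β1 : β ≤ 4 / 3
  rows : RwU n0 h0 miss N W
  num : ∀ a, (N a : ℝ) ≤ d1 * m
  pts : ∀ a, ∃ (K : ℕ) (ex : List ℂ), RwL n0 h0 K (V a) ex ∧ m ≤ K + n0
  lenV : ∀ a, ((V a).length : ℝ) ≤ d1 * m
  R : ∀ a u, B.R a u = c0 * rwL W a u * g a u
  φ : ∀ a, B.φ a = phi β (V a)
  gp : ∀ a u, 0 ≤ g a u
  gu : ∀ j ∈ upL P, ∀ (a : Bool) (t : ℝ), g a (vl ((1 - j) * l) t) ≤ G
  gl : ∀ j ∈ loL P, ∀ (a : Bool) (t : ℝ), (g a (vl ((1 - j) * l) t))⁻¹ ≤ G

/-- constant of the one body data -/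
def cOR (n0 : ℕ) (h0 G c0 d1 : ℝ) : ℝ :=
  (c0 + c0⁻¹) * (cRh h0 ^ (2 * n0) * cR ^ n0) * G + 12 * Real.exp (8 / 3 * h0) * cPw n0 h0 * d1 + 2048

section data
variable {n0 miss : ℕ} {h0 G c0 d1 : ℝ} {P : Par6} {N : Bool → ℕ} {m : ℕ} {β : ℝ} {B : OB}
  {W V : Bool → List ℂ} {g : Bool → ℂ → ℝ}

theorem cOR_ge (h : ObR n0 miss h0 G c0 d1 P N m β B W V g) :
    c0 * (cRh h0 ^ (2 * n0) * cR ^ n0) * G ≤ cOR n0 h0 G c0 d1 ∧
    c0⁻¹ * (cRh h0 ^ (2 * n0) * cR ^ n0) * G ≤ cOR n0 h0 G c0 d1 ∧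
    12 * Real.exp (8 / 3 * h0) * cPw n0 h0 * d1 ≤ cOR n0 h0 G c0 d1 ∧ 2048 ≤ cOR n0 h0 G c0 d1 ∧
    d1 ≤ cOR n0 h0 G c0 d1 := by
  have a1 : 0 ≤ c0 * (cRh h0 ^ (2 * n0) * cR ^ n0) * G :=
    mul_nonneg (mul_nonneg h.cc.le (mul_pos (pow_pos (cRh_pos h0) _) (pow_pos cR_pos _)).le) h.G0
  have a2 : 0 ≤ c0⁻¹ * (cRh h0 ^ (2 * n0) * cR ^ n0) * G :=
    mul_nonneg (mul_nonneg (inv_pos.2 h.cc).le (mul_pos (pow_pos (cRh_pos h0) _) (pow_pos cR_pos _)).le) h.G0
  have hE8 : 1 ≤ Real.exp (8 / 3 * h0) := Real.one_le_exp (mul_nonneg (by norm_num) h.hh)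
  have hC := one_le_cPw n0 h0
  have hc := h.one_le
  have a3 : d1 ≤ 12 * Real.exp (8 / 3 * h0) * cPw n0 h0 * d1 := by
    have : (1 : ℝ) ≤ 12 * Real.exp (8 / 3 * h0) * cPw n0 h0 := by (clear * - hE8 hC; nlinarith)
    exact le_mul_of_one_le_left (by (clear * - hc; linarith)) this
  have e : cOR n0 h0 G c0 d1 = c0 * (cRh h0 ^ (2 * n0) * cR ^ n0) * G + c0⁻¹ * (cRh h0 ^ (2 * n0) * cR ^ n0) * G +
      12 * Real.exp (8 / 3 * h0) * cPw n0 h0 * d1 + 2048 := by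
    unfold cOR
    ring
  rw [e]
  refine ⟨?_, ?_, ?_, ?_, ?_⟩ <;> (clear * - a2 hc a3 a1; linarith)

theorem ObR.nn (h : ObR n0 miss h0 G c0 d1 P N m β B W V g) : B.Nn := fun a u => by
  rw [h.R]
  exact mul_nonneg (mul_nonneg h.cc.le (rwL_nonneg W a u)) (h.gp a u)

theorem vlr (x t : ℝ) : (vl x t).re = x := by
  unfold vl
  simp

theorem vli (x t : ℝ) : (vl x t).im = t := by
  unfold vl
  simp

/-- the real parts of the lines with upper bounds -/
theorem up_re (hP : GoodP6 P) {j : ℝ} (hj : j ∈ upL P) (t : ℝ) :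
    (-(62 / 25 * l) ≤ (vl ((1 - j) * l) t).re ∧ (vl ((1 - j) * l) t).re ≤ -(1 / 2 * l)) ∨
      (13 / 25 * l ≤ (vl ((1 - j) * l) t).re ∧ (vl ((1 - j) * l) t).re ≤ l) := by
  have hl := l_pos
  have h1 := hP.e48
  have h2 := hP.e13
  have h3 := hP.L2
  have h4 := hP.Lj
  have h5 := hP.j1e
  rw [vlr]
  unfold upL at hj
  simp only [List.mem_cons, List.not_mem_nil, or_false] at hj
  rcases hj with rfl | rfl | rfl | rfl | rfl | rfl
  · left; constructor <;> (clear * - hl h1 h4 h5 h3; nlinarith)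
  · left; constructor <;> (clear * - hl; nlinarith)
  · left; constructor <;> (clear * - hl; nlinarith)
  · left; constructor <;> (clear * - hl h1 h2; nlinarith)
  · left; constructor <;> (clear * - hl h1 h2; nlinarith)
  · right; constructor <;> (clear * - hl h1 h2; nlinarith)

/-- the real parts of the lines of the holes -/
theorem lo_re (hP : GoodP6 P) (h9 : P.j2 ≤ 999 / 1000) {j : ℝ} (hj : j ∈ loL P) (t : ℝ) :
    l / 1000 ≤ (vl ((1 - j) * l) t).re ∧ (vl ((1 - j) * l) t).re ≤ 39 / 40 * l := by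
  have hl := l_pos
  have h1 := hP.e48
  have h2 := hP.e13
  have h3 := hP.j1
  have h4 := hP.j1e
  have h5 := hP.ej2
  rw [vlr]
  unfold loL at hj
  simp only [List.mem_cons, List.not_mem_nil, or_false] at hj
  rcases hj with rfl | rfl | rfl <;> constructor <;> (clear * - hl h1 h2 h4 h3 h9 h5; nlinarith)

/-- **field `up`** -/
theorem ObR.up6 (h : ObR n0 miss h0 G c0 d1 P N m β B W V g) (hP : GoodP6 P) {j : ℝ} (hj : j ∈ upL P)
    (a : Bool) (t : ℝ) :
    B.R a (vl ((1 - j) * l) t) ≤ cOR n0 h0 G c0 d1 * rw0 N a (vl ((1 - j) * l) t) := by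
  have h1 := up_R h.hh h.rows a (up_re hP hj t)
  have h2 := h.gu j hj a t
  have h3 := rw0_nonneg N a (vl ((1 - j) * l) t)
  have h4 := (cOR_ge h).1
  have h5 := rwL_nonneg W a (vl ((1 - j) * l) t)
  have h6 := h.gp a (vl ((1 - j) * l) t)
  have hc := h.cc
  have hR := mul_pos (pow_pos (cRh_pos h0) (2 * n0)) (pow_pos cR_pos n0)
  have hG := h.G0
  rw [h.R]
  calc c0 * rwL W a (vl ((1 - j) * l) t) * g a (vl ((1 - j) * l) t) ≤
      c0 * (cRh h0 ^ (2 * n0) * cR ^ n0 * rw0 N a (vl ((1 - j) * l) t)) * G := by (clear * - h6 hc hR h3 h1 h2; gcongr)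
    _ = c0 * (cRh h0 ^ (2 * n0) * cR ^ n0) * G * rw0 N a (vl ((1 - j) * l) t) := by ring
    _ ≤ _ := mul_le_mul_of_nonneg_right h4 h3

/-- **field `lo`** -/
theorem ObR.lo6 (h : ObR n0 miss h0 G c0 d1 P N m β B W V g) (hP : GoodP6 P) (h9 : P.j2 ≤ 999 / 1000)
    {j : ℝ} (hj : j ∈ loL P) (a : Bool) (t : ℝ) :
    (B.R a (vl ((1 - j) * l) t))⁻¹ ≤ cOR n0 h0 G c0 d1 * (rw0 N a (vl ((1 - j) * l) t))⁻¹ := by
  have hl := l_pos
  obtain ⟨r1, r2⟩ := lo_re hP h9 hj t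
  have h1 := inv_R h.hh h.rows a r1 (by (clear * - hl r2; linarith))
  have h2 := h.gl j hj a t
  have h3 := inv_nonneg.2 (rw0_nonneg N a (vl ((1 - j) * l) t))
  have h4 := (cOR_ge h).2.1
  have h5 := inv_nonneg.2 (rwL_nonneg W a (vl ((1 - j) * l) t))
  have h6 := inv_nonneg.2 (h.gp a (vl ((1 - j) * l) t))
  have hc := inv_pos.2 h.cc
  have hR := mul_pos (pow_pos (cRh_pos h0) (2 * n0)) (pow_pos cR_pos n0)
  have hG := h.G0
  rw [h.R, mul_inv, mul_inv]
  calc c0⁻¹ * (rwL W a (vl ((1 - j) * l) t))⁻¹ * (g a (vl ((1 - j) * l) t))⁻¹ ≤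
      c0⁻¹ * (cRh h0 ^ (2 * n0) * cR ^ n0 * (rw0 N a (vl ((1 - j) * l) t))⁻¹) * G := by (clear * - hc hR h3 h1 h2 h6; gcongr)
    _ = c0⁻¹ * (cRh h0 ^ (2 * n0) * cR ^ n0) * G * (rw0 N a (vl ((1 - j) * l) t))⁻¹ := by ring
    _ ≤ _ := mul_le_mul_of_nonneg_right h4 h3

/-- **field `pu`** -/
theorem ObR.pu6 (h : ObR n0 miss h0 G c0 d1 P N m β B W V g) (hP : GoodP6 P) {j : ℝ}
    (hj : j ∈ [P.jL, P.e]) (a : Bool) (t : ℝ) :
    ‖B.φ a (vl ((1 - j) * l) t)‖ ≤ cOR n0 h0 G c0 d1 * cut m β t := by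
  have hl := l_pos
  obtain ⟨K, ex, hV, -⟩ := h.pts a
  have h1 := hP.e48
  have h2 := hP.e13
  have h3 := hP.L2
  have h4 := hP.Lj
  have h5 := hP.j1e
  have hr : |(vl ((1 - j) * l) t).re + l / 2| ≤ 3 / 2 * l := by
    rw [vlr, abs_le]
    simp only [List.mem_cons, List.not_mem_nil, or_false] at hj
    rcases hj with rfl | rfl <;> constructor <;> (clear * - hl h1 h4 h5 h3 h2; nlinarith)
  have h6 := (phi_cut h.β0 h.β1 h.hh hV h.one_le (h.lenV a) hr).2
  rw [vli] at h6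
  rw [h.φ]
  exact h6.trans (mul_le_mul_of_nonneg_right (cOR_ge h).2.2.1 (NUO.cut_nonneg _ _ _))

/-- **field `pl`** -/
theorem ObR.pl6 (h : ObR n0 miss h0 G c0 d1 P N m β B W V g) (hP : GoodP6 P) (h9 : P.j2 ≤ 999 / 1000)
    {j : ℝ} (hj : j ∈ loL P) (a : Bool) (t : ℝ) :
    ‖B.φ a (vl ((1 - j) * l) t)‖⁻¹ ≤ cOR n0 h0 G c0 d1 * (cut m β t)⁻¹ := by
  have hl := l_pos
  obtain ⟨K, ex, hV, hK⟩ := h.pts a
  obtain ⟨r1, r2⟩ := lo_re hP h9 hj t
  have hr : |(vl ((1 - j) * l) t).re + l / 2| ≤ sH := by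
    unfold sH
    rw [abs_le]
    constructor <;> (clear * - hl r1 r2; linarith)
  have h6 := phi_low h.β0 h.β1 h.hh hV hK h.mL hr
  have hm : (0 : ℝ) < m := by exact_mod_cast h.m0
  rw [vli] at h6
  rw [h.φ]
  have hc : 0 < cut m β t := by
    unfold NUO.cut
    exact lt_min one_pos (by positivity)
  have h7 : ‖phi β (V a) (vl ((1 - j) * l) t)‖⁻¹ ≤ 2048 * (cut m β t)⁻¹ := by
    refine (inv_anti₀ (by positivity) h6).trans (le_of_eq ?_)
    rw [inv_div]
    rfl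
  exact h7.trans (mul_le_mul_of_nonneg_right (cOR_ge h).2.2.2.1 (inv_pos.2 hc).le)

/-- **`Ob6` from the rows and the two statements on the strings** -/
theorem ObR.ob6 (h : ObR n0 miss h0 G c0 d1 P N m β B W V g) (hP : GoodP6 P) (h9 : P.j2 ≤ 999 / 1000)
    {C T1 : ℝ} (hC : cOR n0 h0 G c0 d1 ≤ C)
    (br1 : ∀ (a : Bool) (t : ℝ), ‖B.φ a (posT t) * B.φ a (posT t - l) - B.φ0 a (posT t)‖ ≤
      C * Real.exp (-(N a * NUMF.Ag (1 / 2) t)))
    (br2 : ∀ (a : Bool) (t : ℝ), ‖B.φ a (posT t) * B.φ a (posT t - l) - B.φ0 a (posT t)‖ ≤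
      C * cut m β t)
    (p0 : ∀ (a : Bool) (t : ℝ), ‖B.φ0 a (posS P.e t)‖ ≤ C * cS6 m T1 t) :
    Ob6 P C N m β T1 B where
  nn := h.nn
  num a := (h.num a).trans (mul_le_mul_of_nonneg_right ((cOR_ge h).2.2.2.2.trans hC)
    (Nat.cast_nonneg m))
  up j hj a t := (h.up6 hP hj a t).trans (mul_le_mul_of_nonneg_right hC (rw0_nonneg _ _ _))
  lo j hj a t := (h.lo6 hP h9 hj a t).trans
    (mul_le_mul_of_nonneg_right hC (inv_nonneg.2 (rw0_nonneg _ _ _)))
  pu j hj a t := (h.pu6 hP hj a t).trans (mul_le_mul_of_nonneg_right hC (NUO.cut_nonneg _ _ _))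
  pl j hj a t := (h.pl6 hP h9 hj a t).trans
    (mul_le_mul_of_nonneg_right hC (inv_nonneg.2 (NUO.cut_nonneg _ _ _)))
  br1 := br1
  br2 := br2
  p0 := p0

end data

/-! ### the data `obU` -/

theorem rwU_list {M : Bool → ℕ} (xr : ∀ a, Fin (M a) → ℂ) (a : Bool) (u : ℂ) :
    PBX.PLX.rwU (xr a) (xr !a) u = rwL (fun a => List.ofFn (xr a)) a u := by
  unfold PBX.PLX.rwU rwL
  simp only [List.map_ofFn, List.prod_ofFn]
  congr 1
  refine Finset.prod_congr rfl fun i _ => ?_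
  show _ = rwO (xr a i) u
  unfold rwO
  rw [one_div]

end PHK

end
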