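import Pool.Agent.PHK.OneR0
import Pool.Agent.PHK.Congr
import Pool.Agent.PLX.KPair

/-!
# Particle-hole form: one body data times a bounded factor, selections

* `dom_up`, `dom_lo`: the lines of `Ob6` are evaluation points `DomP`;
* **`Ob6.mul`**: `B.mul g` for `g`, `g⁻¹` bounded by `D` on `DomP`;
* **`oneRT6_mul`, `oneR6_mul`**: for a family of geometries `GG i` with data `(G.B m β).mul (g i)`,
  every selection satisfies `OneRT6`, `OneR6` (one constant).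
-/

set_option autoImplicit false

noncomputable section

open Complex MeasureTheory Set
open PLX (Fil Ends)

namespace PHK

open NUP1 NUGC.PLX
open NUO hiding vl_re vl_im

variable {P : Par6} {ep : ℝ}

theorem dom_up {j : ℝ} (hj : j ∈ upL P) (t : ℝ) : vl ((1 - j) * l) t ∈ DomP P ep := by
  have e := vl_re6 ((1 - j) * l) t
  unfold upL at hj
  simp only [List.mem_cons, List.not_mem_nil, or_false] at hj
  rcases hj with rfl | rfl | rfl | rfl | rfl | rfl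
  · exact Or.inl e
  · exact Or.inr (Or.inl (by rw [e]; ring))
  · exact Or.inr (Or.inr (Or.inl (by rw [e]; ring)))
  · exact Or.inr (Or.inr (Or.inr (Or.inl (by rw [e]; ring))))
  · exact Or.inr (Or.inr (Or.inr (Or.inr (Or.inl (by rw [e]; ring)))))
  · exact Or.inr (Or.inr (Or.inr (Or.inr (Or.inr (Or.inl e)))))

theorem dom_lo {j : ℝ} (hj : j ∈ loL P) (t : ℝ) : vl ((1 - j) * l) t ∈ DomP P ep := by
  have e := vl_re6 ((1 - j) * l) t
  unfold loL at hj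
  simp only [List.mem_cons, List.not_mem_nil, or_false] at hj
  rcases hj with rfl | rfl | rfl
  · exact Or.inr (Or.inr (Or.inr (Or.inr (Or.inr (Or.inl e)))))
  · exact Or.inr (Or.inr (Or.inr (Or.inr (Or.inr (Or.inr (Or.inl e))))))
  · exact Or.inr (Or.inr (Or.inr (Or.inr (Or.inr (Or.inr (Or.inr (Or.inl e)))))))

variable {C D : ℝ} {N : Bool → ℕ} {m : ℕ} {β T1 : ℝ} {B : OB}

theorem Ob6.mono (h : Ob6 P C N m β T1 B) {C' : ℝ} (hC : C ≤ C') : Ob6 P C' N m β T1 B where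
  nn := h.nn
  num a := (h.num a).trans (mul_le_mul_of_nonneg_right hC (Nat.cast_nonneg _))
  up j hj a t := (h.up j hj a t).trans (mul_le_mul_of_nonneg_right hC (rw0_nonneg _ _ _))
  lo j hj a t := (h.lo j hj a t).trans
    (mul_le_mul_of_nonneg_right hC (inv_nonneg.2 (rw0_nonneg _ _ _)))
  pu j hj a t := (h.pu j hj a t).trans (mul_le_mul_of_nonneg_right hC (cut_nonneg _ _ _))
  pl j hj a t := (h.pl j hj a t).trans
    (mul_le_mul_of_nonneg_right hC (inv_nonneg.2 (cut_nonneg _ _ _)))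
  br1 a t := (h.br1 a t).trans (mul_le_mul_of_nonneg_right hC (Real.exp_pos _).le)
  br2 a t := (h.br2 a t).trans (mul_le_mul_of_nonneg_right hC (cut_nonneg _ _ _))
  p0 a t := (h.p0 a t).trans (mul_le_mul_of_nonneg_right hC
    (mul_nonneg (cut_nonneg _ _ _) (Real.exp_pos _).le))

/-- **the data times a factor bounded on the evaluation points** -/
theorem Ob6.mul (h : Ob6 P C N m β T1 B) (hC : 0 ≤ C) (hD : 1 ≤ D) {g : Bool → ℂ → ℝ}
    (g0 : ∀ a u, 0 ≤ g a u) (hg : ∀ a, ∀ u ∈ DomP P ep, g a u ≤ D ∧ (g a u)⁻¹ ≤ D) :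
    Ob6 P (C * D) N m β T1 (B.mul g) := by
  have hCD : C ≤ C * D := le_mul_of_one_le_right hC hD
  have h' := h.mono hCD
  refine ⟨fun a u => mul_nonneg (h.nn a u) (g0 a u), h'.num, fun j hj a t => ?_,
    fun j hj a t => ?_, h'.pu, h'.pl, h'.br1, h'.br2, h'.p0⟩
  · have h1 := h.up j hj a t
    have h2 := (hg a _ (dom_up hj t)).1
    have h3 := rw0_nonneg N a (vl ((1 - j) * l) t)
    show B.R a (vl ((1 - j) * l) t) * g a (vl ((1 - j) * l) t) ≤ _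
    calc _ ≤ (C * rw0 N a (vl ((1 - j) * l) t)) * D :=
          mul_le_mul h1 h2 (g0 _ _) (mul_nonneg hC h3)
      _ = _ := by ring
  · have h1 := h.lo j hj a t
    have h2 := (hg a _ (dom_lo hj t)).2
    have h3 := inv_nonneg.2 (rw0_nonneg N a (vl ((1 - j) * l) t))
    show (B.R a (vl ((1 - j) * l) t) * g a (vl ((1 - j) * l) t))⁻¹ ≤ _
    rw [mul_inv]
    calc _ ≤ (C * (rw0 N a (vl ((1 - j) * l) t))⁻¹) * D :=
          mul_le_mul h1 h2 (inv_nonneg.2 (g0 _ _)) (mul_nonneg hC h3)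
      _ = _ := by ring

end PHK

namespace PBI.PLX

open PHK
open PBO.PLX (Geo OneR6)
open NUO hiding vl_re vl_im
open NUP1 NUGC.PLX
open PotH.PLX (oneEH6)

attribute [local instance] NUSea.seaP

variable [Fil] [Ends]

/-- **`OneRT6` of every selection of a family with data `(G.B m β).mul (g i)`** -/
theorem oneRT6_mul {ι : Type*} {C D τ : ℝ} (hC : 0 < C) (hD : 1 ≤ D) {G : Geo}
    (hB : ∀ ep : ℝ, 0 < ep → ep ≤ 1 / 100 → ∃ m0 : ℕ, ∀ m ≥ m0,
      Ob6 par6 C (fun a => Fil.ne a m) m (4 / 3 * (1 - ep)) (Tb (Real.log m) + τ)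
        (G.B m (4 / 3 * (1 - ep))))
    {g : ι → Bool → ℂ → ℝ} (g0 : ∀ i a u, 0 ≤ g i a u)
    (hg : ∀ i a, ∀ u ∈ DomP par6 (1 / 100), g i a u ≤ D ∧ (g i a u)⁻¹ ≤ D) {GG : ι → Geo}
    (hGG : ∀ i m β, (GG i).B m β = (G.B m β).mul (g i)) {Kc : ℝ}
    (h1 : ∀ (i : ι) (m : ℕ) (ep e1 J : ℝ), 1 ≤ m → 0 < ep → 0 < e1 → 0 ≤ J →
      ∀ (r : ℕ) (O : Fin r → Xo) (j : Fin r), (GG i).one m ep e1 J r O j ≤
        oneEH6 m (etaC e1 J m m) (TW ep e1 m) O j + Kc) (i : ℕ → ι) :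
    OneRT6 (PBO.PLX.Geo.sel GG i) := by
  refine oneRT6_seaP (C := C * D) (by positivity) τ (fun ep hep hep1 => ?_) (Kc := Kc)
    fun m ep e1 J a1 a2 a3 a4 r O j => h1 (i m) m ep e1 J a1 a2 a3 a4 r O j
  obtain ⟨m0, hm0⟩ := hB ep hep hep1
  refine ⟨m0, fun m hm => ?_⟩
  show Ob6 par6 (C * D) _ m _ _ ((GG (i m)).B m (4 / 3 * (1 - ep)))
  rw [hGG]
  exact (hm0 m hm).mul hC.le hD (g0 _) (hg _)

/-- **`OneR6` of every selection of a family with data `(G.B m β).mul (g i)`** -/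
theorem oneR6_mul {ι : Type*} {C D τ : ℝ} (hC : 0 < C) (hD : 1 ≤ D) {G : Geo}
    (hB : ∀ ep : ℝ, 0 < ep → ep ≤ 1 / 100 → ∃ m0 : ℕ, ∀ m ≥ m0,
      Ob6 par6 C (fun a => Fil.ne a m) m (4 / 3 * (1 - ep)) (Tb (Real.log m) + τ)
        (G.B m (4 / 3 * (1 - ep))))
    {g : ι → Bool → ℂ → ℝ} (g0 : ∀ i a u, 0 ≤ g i a u)
    (hg : ∀ i a, ∀ u ∈ DomP par6 (1 / 100), g i a u ≤ D ∧ (g i a u)⁻¹ ≤ D) {GG : ι → Geo}
    (hGG : ∀ i m β, (GG i).B m β = (G.B m β).mul (g i)) {Kc : ℝ}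
    (h1 : ∀ (i : ι) (m : ℕ) (ep e1 J : ℝ), 1 ≤ m → 0 < ep → 0 < e1 → 0 ≤ J →
      ∀ (r : ℕ) (O : Fin r → Xo) (j : Fin r), (GG i).one m ep e1 J r O j ≤
        oneEH6 m (etaC e1 J m m) (TW ep e1 m) O j + Kc) (i : ℕ → ι) :
    OneR6 (PBO.PLX.Geo.sel GG i) :=
  (oneRT6_mul hC hD hB g0 hg hGG h1 i).oneR6

end PBI.PLX

end
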