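import Pool.Agent.PHK.LogP
import Pool.Agent.PLX.PB.ObRes

/-!
# The particle-hole form (P): the force of an object on the quanta (helper62, half of it helper2)

`PB/ObRes` of (P).  All constituents of an object are at its height, so there is no shift of heights.
Strip: `DsC P h c` and `z.re ∈ [(1 - h) l, (1 + h) l]` (`h = 0`: the line `Re z = l`).

* `abs_sin_dst`, `okK_dst`: the cotangents of a constituent are bounded in the strip;
* `kls6 s B z = ∑ p.2 * kpt s p.1 z`: the log derivative of the factor of the signed constituents `B` at a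
  quantum of species `s` at `z`; `kls61` its derivative; `kO6`, `kP6` for a configuration;
* **`potK6`**: `HasDerivAt (potO6 P O s) (kP6 P O s z * potO6 P O s z) z`; `potK6_ne`, **`LPoK_eq6`**:
  `LPo6 P r O s z = kP6 P O s z`;
* **`kls_limD`**: `‖I kls6 - 2 (chg6 s x - chg6 (!s) x) sgn (Im z - ht x)‖ ≤ COc c e^{-2|Im z - ht x|}`;
  `chg_diff6`, `kls_leD`, `kls1_leD` (the derivative decays), `dA_klsD` (coordinate `u = l + I w`),
  `kO_leD`, `kP_leD`, `hasDerivAt_kO6`, `hasDerivAt_kP6`, `measurable_kls6`;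
* the same on the line `Re z = l` from `GoodP6 P`, `P.j2 ≤ 19 / 20`: `CO6`, `kls_lim6`, `kls_le6`, ....
-/

set_option autoImplicit false
set_option linter.unusedSectionVars false

noncomputable section

open Complex MeasureTheory Finset

namespace PHK

open NUO NUP1 NUP1S NUP1S.Ab
open PBF.PLX (Dst)
open PBOR.PLX (KL SP OkL kl kpt OkK sm sa sgn abs_sgn KL1 norm_sin_ge I_cot_lim cosh_ge')

variable {P : Par6} {r : ℕ} {h c : ℝ}

/-! ### distances -/

/-- lower bound of the sines of the strip -/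
def sc (c : ℝ) : ℝ := Real.sin (c * l)

theorem sc_pos (h0 : 0 < c) (h1 : c ≤ 1 / 2) : 0 < sc c := by
  have hl := Bd.l_pos
  have hpi := Bd.pi_eq
  refine Real.sin_pos_of_pos_of_lt_pi (by positivity) ?_
  rw [hpi]
  nlinarith

theorem DsC.le_half (hd : DsC P h c) : c ≤ 1 / 2 := by
  have h1 := hd.hT
  have h2 := hd.h0
  linarith

theorem DsC.sc_pos (hd : DsC P h c) : 0 < sc c := PHK.sc_pos hd.c0 hd.le_half

theorem abs_sin_int (h0 : 0 < c) (h1 : c ≤ 1 / 2) {x : ℝ} (k : ℤ) (a1 : 8 * k * l + c * l ≤ x)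
    (a2 : x ≤ 8 * (k + 1) * l - c * l) : sc c ≤ |Real.sin x| := by
  have hl := Bd.l_pos
  have hp : Real.pi = 8 * l := Bd.pi_eq
  have e : Real.sin (x - k * Real.pi) = (-1) ^ k * Real.sin x := by
    rw [Real.sin_sub_int_mul_pi]
  have e2 : |Real.sin (x - k * Real.pi)| = |Real.sin x| := by
    rw [e, abs_mul, abs_zpow, abs_neg, abs_one, one_zpow, one_mul]
  rw [← e2]
  have b1 : c * l ≤ x - k * Real.pi := by
    rw [hp]; linarith
  have b2 : x - k * Real.pi ≤ Real.pi - c * l := by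
    rw [hp]; linarith
  have b3 : c * l ≤ Real.pi / 2 := by
    rw [hp]; nlinarith
  have b4 : 0 < c * l := by positivity
  refine le_trans ?_ (le_abs_self _)
  unfold sc
  rcases le_total (x - k * Real.pi) (Real.pi / 2) with h | h
  · exact Real.sin_le_sin_of_le_of_le_pi_div_two (by linarith) h b1
  · rw [← Real.sin_pi_sub (x - k * Real.pi)]
    exact Real.sin_le_sin_of_le_of_le_pi_div_two (by linarith) (by linarith) (by linarith)

/-- a point at distance `c l` from the multiples of `l` -/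
theorem abs_sin_dst (h0 : 0 < c) (h1 : c ≤ 1 / 2) {x : ℝ} (hx : Dst (c * l) x) (a : ℤ) :
    sc c ≤ |Real.sin (-x + a * l)| := by
  have hl := Bd.l_pos
  obtain ⟨n, n1, n2⟩ := hx
  set m : ℤ := a - n - 1 with hm
  have q1 : 8 * (m / 8) ≤ m := Int.mul_ediv_self_le (by norm_num)
  have q2 : m + 1 ≤ 8 * (m / 8 + 1) := by omega
  have q1' : (8 : ℝ) * ((m / 8 : ℤ) : ℝ) ≤ (m : ℝ) := by exact_mod_cast q1
  have q2' : (m : ℝ) + 1 ≤ 8 * (((m / 8 : ℤ) : ℝ) + 1) := by exact_mod_cast q2
  have hm' : (m : ℝ) = a - n - 1 := by rw [hm]; push_cast; ring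
  refine abs_sin_int h0 h1 (m / 8) ?_ ?_
  · have := mul_le_mul_of_nonneg_right q1' hl.le
    rw [hm'] at this
    nlinarith
  · have := mul_le_mul_of_nonneg_right q2' hl.le
    rw [hm'] at this
    nlinarith

theorem sin_shift {z w : ℂ} (h0 : 0 < c) (h1 : c ≤ 1 / 2) (hx : Dst (c * l) (w - z).re) (a : ℤ) :
    sc c ≤ |Real.sin (z - w + a * l).re| := by
  have e : (z - w + a * l).re = -(w - z).re + a * l := by
    rw [PBOR.PLX.re_shift, sub_re]
    ring
  rw [e]
  exact abs_sin_dst h0 h1 hx a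

theorem sin_ne_sc {w : ℂ} (hc : 0 < sc c) (h : sc c ≤ |Real.sin w.re|) : Complex.sin w ≠ 0 := by
  intro h0
  have h1 := norm_sin_ge hc.le h
  rw [h0, norm_zero] at h1
  have := mul_pos hc (Real.cosh_pos w.im)
  linarith

theorem okK_dst {s : Bool} {p : Part} {z : ℂ} (h0 : 0 < c) (h1 : c ≤ 1 / 2)
    (hx : Dst (c * l) (p.2.2 - z).re) : OkK s p z :=
  fun x _ => sin_ne_sc (PHK.sc_pos h0 h1) (sin_shift h0 h1 hx x.2)

/-! ### no zeros -/

theorem SP_ne6 {L : List (ℤ × ℤ)} {z : ℂ} (h : OkL L z) : SP L z ≠ 0 := by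
  induction L with
  | nil => simp [SP]
  | cons p L ih =>
    have e : SP (p :: L) z = Complex.sin (z + p.2 * l) ^ p.1 * SP L z := by
      simp [SP]
    rw [e]
    exact mul_ne_zero (zpow_ne_zero _ (h p List.mem_cons_self))
      (ih fun q hq => h q (List.mem_cons_of_mem _ hq))

theorem pp_neK (s : Bool) (p : Part) {z : ℂ} (h : OkK s p z) : pp (s, false, z) p ≠ 0 := by
  obtain ⟨c, hc, he⟩ := PBOR.PLX.pp_SP s p
  rw [he z]
  exact mul_ne_zero hc (SP_ne6 h)

theorem pp6_neK (s : Bool) (p : Part6) {z : ℂ} (h : OkK s p.1 z) :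
    pp6 ((s, false, z), 1) p ≠ 0 := zpow_ne_zero _ (pp_neK s p.1 h)

theorem ppC6_neK (s : Bool) (B : List Part6) {z : ℂ} (h : ∀ p ∈ B, OkK s p.1 z) :
    ppC6 [((s, false, z), 1)] B ≠ 0 := by
  rw [ppC6_single]
  refine List.prod_ne_zero fun h0 => ?_
  obtain ⟨b, hb, h1⟩ := List.mem_map.1 h0
  exact pp6_neK s b (h b hb) h1

/-! ### the log derivative of signed constituents -/

/-- log derivative of the weight of a list of signed constituents -/
def kls6 (s : Bool) (B : List Part6) (z : ℂ) : ℂ :=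
  (B.map fun p => (p.2 : ℂ) * kpt s p.1 z).sum

theorem hasDerivAt_ppK6 (s : Bool) (p : Part6) {z : ℂ} (h : OkK s p.1 z) :
    HasDerivAt (fun z => pp6 ((s, false, z), 1) p)
      (pp6 ((s, false, z), 1) p * ((p.2 : ℂ) * kpt s p.1 z)) z := by
  have h1 := PBOR.PLX.hasDerivAt_pp s p.1 h
  have h0 := pp_neK s p.1 h
  have h2 := (hasDerivAt_zpow (1 * p.2) _ (Or.inl h0)).comp z h1
  have e : (fun z => pp6 ((s, false, z), 1) p) =
      (fun w : ℂ => w ^ (1 * p.2)) ∘ fun z => pp (s, false, z) p.1 := rfl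
  rw [e]
  refine h2.congr_deriv ?_
  have e2 : pp6 ((s, false, z), 1) p = pp (s, false, z) p.1 ^ (1 * p.2) := rfl
  rw [e2, zpow_sub_one₀ h0]
  push_cast
  field_simp

theorem listK6 (s : Bool) (B : List Part6) {z : ℂ} (h : ∀ p ∈ B, OkK s p.1 z) :
    HasDerivAt (fun z => ppC6 [((s, false, z), 1)] B)
      (ppC6 [((s, false, z), 1)] B * kls6 s B z) z := by
  simp_rw [ppC6_single]
  induction B with
  | nil =>
    simp only [List.map_nil, List.prod_nil, kls6, List.sum_nil, mul_zero]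
    exact hasDerivAt_const _ _
  | cons p B ih =>
    simp only [List.map_cons, List.prod_cons, kls6, List.sum_cons]
    have h1 := hasDerivAt_ppK6 s p (h p List.mem_cons_self)
    have h2 := ih fun q hq => h q (List.mem_cons_of_mem _ hq)
    refine (h1.mul h2).congr_deriv ?_
    unfold kls6
    ring

/-- the force of the object `i` on a quantum of species `s` at `z` (log derivative in `z`) -/
def kO6 (P : Par6) (O : Fin r → Xo) (i : Fin r) (s : Bool) (z : ℂ) : ℂ := kls6 s (cons6 P O i) z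

/-- the force of all objects -/
def kP6 (P : Par6) (O : Fin r → Xo) (s : Bool) (z : ℂ) : ℂ := ∑ i, kO6 P O i s z

/-- **log derivative of the potential of the objects** -/
theorem potK6' (P : Par6) (O : Fin r → Xo) (s : Bool) {z : ℂ}
    (h : ∀ i, ∀ p ∈ cons6 P O i, OkK s p.1 z) :
    HasDerivAt (potO6 P O s) (kP6 P O s z * potO6 P O s z) z := by
  have h1 := HasDerivAt.fun_finsetProd (u := (univ : Finset (Fin r))) (x := z)
    (f := fun i z => ppC6 [((s, false, z), 1)] (cons6 P O i))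
    (f' := fun i => ppC6 [((s, false, z), 1)] (cons6 P O i) * kO6 P O i s z)
    (fun i _ => listK6 s _ (h i))
  have e : potO6 P O s = fun z => ∏ i, ppC6 [((s, false, z), 1)] (cons6 P O i) := rfl
  rw [e]
  refine h1.congr_deriv ?_
  unfold kP6
  rw [Finset.sum_mul]
  refine Finset.sum_congr rfl fun i hi => ?_
  show _ = kO6 P O i s z * ∏ i, ppC6 [((s, false, z), 1)] (cons6 P O i)
  rw [smul_eq_mul,
    ← Finset.mul_prod_erase univ (fun i => ppC6 [((s, false, z), 1)] (cons6 P O i)) hi]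
  ring

/-! ### positions of the constituents -/

/-- the constituents of an object in the strip: distance of the real parts, heights -/
theorem parts_dst6 (hd : DsC P h c) (x : Xo) {z : ℂ}
    (hz : z.re ∈ Set.Icc ((1 - h) * l) ((1 + h) * l)) :
    ∀ p ∈ parts6 P x, Dst (c * l) (p.1.2.2 - z).re :=
  dst_cons6 hd (fun _ : Fin 1 => x) 0 hz

theorem parts_im6 (P : Par6) (x : Xo) : ∀ p ∈ parts6 P x, p.1.2.2.im = ht x := by
  have h2im : ((2 : ℂ) * (l : ℂ)).im = 0 := by simp
  have hL : ∀ j t : ℝ, (posL j t).im = t := fun j t => PBOR.PLX.vl_im _ _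
  have hT : ∀ t : ℝ, (posT t).im = t := fun t => PBOR.PLX.vl_im _ _
  have hS : ∀ e t : ℝ, (posS e t).im = t := fun e t => PBOR.PLX.vl_im _ _
  have hB : ∀ e t : ℝ, (posB e t).im = t := fun e t => by
    unfold posB
    rw [add_im, hS, h2im, add_zero]
  intro p hp
  unfold parts6 at hp
  rcases hk : k6 x with _ | _ | _ | _ | _ | _ <;> rw [hk] at hp <;>
    simp only [List.mem_cons, List.not_mem_nil, or_false] at hp
  · subst hp; exact hL _ _
  · subst hp; exact hT _
  · rcases hp with rfl | rfl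
    · exact hS _ _
    · exact hB _ _
  · rcases hp with rfl | rfl | rfl
    · exact hS _ _
    · exact hB _ _
    · exact hB _ _
  · subst hp; exact hL _ _
  · subst hp; exact hL _ _

/-- charge of the constituents of an object seen by a quantum of species `s` -/
theorem parts_cl6 (P : Par6) (s : Bool) (x : Xo) :
    ((parts6 P x).map fun p => p.2 * PBOR.PLX.cl s p.1).sum = 2 * (chg6 s x - chg6 (!s) x) := by
  unfold parts6 chg6
  rcases k6 x with _ | _ | _ | _ | _ | _ <;> cases s <;> cases sp x <;>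
    simp [PBOR.PLX.cl, kl, sm]

/-- sum of the moduli of the multiplicities -/
def mu6 (B : List Part6) : ℝ := (B.map fun b => |(b.2 : ℝ)|).sum

theorem mu6_parts (P : Par6) (x : Xo) : mu6 (parts6 P x) ≤ 4 := mult6_le P x

/-! ### limits of the force -/

theorem KL_limc (hc : 0 < sc c) (L : List (ℤ × ℤ)) {z : ℂ}
    (h : ∀ x ∈ L, sc c ≤ |Real.sin (z + x.2 * l).re|) :
    ‖I * KL L z - (sm L : ℂ) * (sgn z.im : ℂ)‖ ≤ sa L * (2 / sc c * Real.exp (-(2 * |z.im|))) := by
  induction L with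
  | nil => simp [KL, sm, sa]
  | cons x L ih =>
    have h1 := ih fun y hy => h y (List.mem_cons_of_mem _ hy)
    have h2 := I_cot_lim hc (h x List.mem_cons_self)
    have h0 : (z + x.2 * l).im = z.im := by
      have : ((x.2 : ℂ) * (l : ℂ)) = ((x.2 * l : ℝ) : ℂ) := by push_cast; rfl
      rw [add_im, this, ofReal_im, add_zero]
    rw [h0] at h2
    have e : I * KL (x :: L) z - (sm (x :: L) : ℂ) * (sgn z.im : ℂ) =
        (x.1 : ℂ) * (I * cot (z + x.2 * l) - (sgn z.im : ℂ)) +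
        (I * KL L z - (sm L : ℂ) * (sgn z.im : ℂ)) := by
      simp only [KL, sm, List.map_cons, List.sum_cons, Int.cast_add]
      ring
    rw [e]
    refine (norm_add_le _ _).trans ?_
    rw [norm_mul, Complex.norm_intCast]
    simp only [sa, List.map_cons, List.sum_cons]
    rw [add_mul]
    exact add_le_add (mul_le_mul_of_nonneg_left h2 (abs_nonneg _)) h1

/-- one constituent -/
theorem kpt_limc {s : Bool} {p : Part} {z : ℂ} (h0 : 0 < c) (h1 : c ≤ 1 / 2)
    (hx : Dst (c * l) (p.2.2 - z).re) :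
    ‖I * kpt s p z - (PBOR.PLX.cl s p : ℂ) * (sgn (z.im - p.2.2.im) : ℂ)‖ ≤
      24 / sc c * Real.exp (-(2 * |z.im - p.2.2.im|)) := by
  have hc := PHK.sc_pos h0 h1
  have h := KL_limc hc (kl (s == p.1) p.2.1) (z := z - p.2.2) fun x _ => sin_shift h0 h1 hx x.2
  rw [sub_im] at h
  refine h.trans ?_
  have h1 := PBOR.PLX.sa_le (s == p.1) p.2.1
  calc sa (kl (s == p.1) p.2.1) * (2 / sc c * Real.exp (-(2 * |z.im - p.2.2.im|)))
      ≤ 12 * (2 / sc c * Real.exp (-(2 * |z.im - p.2.2.im|))) :=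
        mul_le_mul_of_nonneg_right h1 (by positivity)
    _ = _ := by ring

/-- a list of signed constituents at the height `b` -/
theorem kls_limc {s : Bool} (B : List Part6) {z : ℂ} {b : ℝ} (h0 : 0 < c) (h1 : c ≤ 1 / 2)
    (hB : ∀ p ∈ B, Dst (c * l) (p.1.2.2 - z).re ∧ p.1.2.2.im = b) :
    ‖I * kls6 s B z - (((B.map fun p => p.2 * PBOR.PLX.cl s p.1).sum : ℤ) : ℂ) * (sgn (z.im - b) : ℂ)‖ ≤
      mu6 B * (24 / sc c * Real.exp (-(2 * |z.im - b|))) := by
  induction B with
  | nil => simp [kls6, mu6]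
  | cons p B ih =>
    have i1 := ih fun q hq => hB q (List.mem_cons_of_mem _ hq)
    obtain ⟨hx, hb⟩ := hB p List.mem_cons_self
    have i2 := kpt_limc (s := s) h0 h1 hx
    rw [hb] at i2
    have e : I * kls6 s (p :: B) z -
        ((((p :: B).map fun p => p.2 * PBOR.PLX.cl s p.1).sum : ℤ) : ℂ) * (sgn (z.im - b) : ℂ) =
        (p.2 : ℂ) * (I * kpt s p.1 z - (PBOR.PLX.cl s p.1 : ℂ) * (sgn (z.im - b) : ℂ)) +
        (I * kls6 s B z - (((B.map fun p => p.2 * PBOR.PLX.cl s p.1).sum : ℤ) : ℂ) *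
          (sgn (z.im - b) : ℂ)) := by
      simp only [kls6, List.map_cons, List.sum_cons, Int.cast_add, Int.cast_mul]
      ring
    rw [e]
    refine (norm_add_le _ _).trans ?_
    rw [norm_mul, Complex.norm_intCast]
    simp only [mu6, List.map_cons, List.sum_cons]
    rw [add_mul]
    exact add_le_add (mul_le_mul_of_nonneg_left i2 (abs_nonneg _)) i1

/-- constant of the force of an object -/
def COc (c : ℝ) : ℝ := 96 / sc c

theorem COc_pos (hd : DsC P h c) : 0 < COc c := by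
  have := hd.sc_pos
  unfold COc
  positivity

/-- **the force of one object on a quantum of species `s`**, all kinds -/
theorem kls_limD (hd : DsC P h c) (s : Bool) (x : Xo) {z : ℂ}
    (hz : z.re ∈ Set.Icc ((1 - h) * l) ((1 + h) * l)) :
    ‖I * kls6 s (parts6 P x) z -
      2 * ((chg6 s x : ℂ) - (chg6 (!s) x : ℂ)) * (sgn (z.im - ht x) : ℂ)‖ ≤
      COc c * Real.exp (-(2 * |z.im - ht x|)) := by
  have hc := hd.sc_pos
  have h1 := kls_limc (s := s) (parts6 P x) (z := z) (b := ht x) hd.c0 hd.le_half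
    fun p hp => ⟨parts_dst6 hd x hz p hp, parts_im6 P x p hp⟩
  rw [parts_cl6] at h1
  push_cast at h1
  refine h1.trans ?_
  calc _ ≤ 4 * (24 / sc c * Real.exp (-(2 * |z.im - ht x|))) :=
        mul_le_mul_of_nonneg_right (mu6_parts P x) (by positivity)
    _ = _ := by unfold COc; ring

theorem chg_diff6 (s : Bool) (x : Xo) : ‖(chg6 s x : ℂ) - (chg6 (!s) x : ℂ)‖ ≤ 2 := by
  unfold chg6
  rcases k6 x with _ | _ | _ | _ | _ | _ <;> cases s <;> cases sp x <;> norm_num

/-- bound of the force of one object -/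
theorem kls_leD (hd : DsC P h c) (s : Bool) (x : Xo) {z : ℂ}
    (hz : z.re ∈ Set.Icc ((1 - h) * l) ((1 + h) * l)) : ‖kls6 s (parts6 P x) z‖ ≤ COc c + 4 := by
  have h0 := kls_limD hd s x hz
  have h1 := chg_diff6 s x
  have h2 : ‖kls6 s (parts6 P x) z‖ = ‖I * kls6 s (parts6 P x) z‖ := by
    rw [norm_mul, norm_I, one_mul]
  rw [h2]
  have h3 : ‖2 * ((chg6 s x : ℂ) - (chg6 (!s) x : ℂ)) * (sgn (z.im - ht x) : ℂ)‖ ≤ 4 := by
    rw [norm_mul, norm_mul, Complex.norm_real, Real.norm_eq_abs, abs_sgn]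
    have : ‖(2 : ℂ)‖ = 2 := by simp
    rw [this]
    linarith
  have h4 : COc c * Real.exp (-(2 * |z.im - ht x|)) ≤ COc c * 1 :=
    mul_le_mul_of_nonneg_left (Real.exp_le_one_iff.2 (by
      have := abs_nonneg (z.im - ht x); linarith)) (COc_pos hd).le
  have h5 := norm_le_norm_add_norm_sub' (I * kls6 s (parts6 P x) z)
    (2 * ((chg6 s x : ℂ) - (chg6 (!s) x : ℂ)) * (sgn (z.im - ht x) : ℂ))
  linarith

/-! ### the derivative of the force -/

/-- derivative of `kls6` -/
def kls61 (s : Bool) (B : List Part6) (z : ℂ) : ℂ :=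
  (B.map fun p => (p.2 : ℂ) * KL1 (kl (s == p.1.1) p.1.2.1) (z - p.1.2.2)).sum

theorem hasDerivAt_kls6 (s : Bool) (B : List Part6) {z : ℂ} (h : ∀ p ∈ B, OkK s p.1 z) :
    HasDerivAt (kls6 s B) (kls61 s B z) z := by
  induction B with
  | nil =>
    have : kls6 s [] = fun _ => 0 := by funext z; simp [kls6]
    rw [this]
    simpa [kls61] using hasDerivAt_const z (0 : ℂ)
  | cons p B ih =>
    have h2 := ih fun q hq => h q (List.mem_cons_of_mem _ hq)
    have h0 : HasDerivAt (fun z : ℂ => z - p.1.2.2) 1 z := (hasDerivAt_id z).sub_const _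
    have h1 := ((PBOR.PLX.hasDerivAt_KL _ (h p List.mem_cons_self)).comp z h0).const_mul (p.2 : ℂ)
    have e : kls6 s (p :: B) = (fun z : ℂ => (p.2 : ℂ) *
        (KL (kl (s == p.1.1) p.1.2.1) ∘ fun z : ℂ => z - p.1.2.2) z) + kls6 s B := by
      funext z
      simp [kls6, kpt]
    rw [e]
    refine (h1.add h2).congr_deriv ?_
    simp [kls61]

theorem KL1_lec (hc : 0 < sc c) (L : List (ℤ × ℤ)) {z : ℂ}
    (h : ∀ x ∈ L, sc c ≤ |Real.sin (z + x.2 * l).re|) :
    ‖KL1 L z‖ ≤ sa L * (4 / sc c ^ 2 * Real.exp (-(2 * |z.im|))) := by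
  induction L with
  | nil => simp [KL1, sa]
  | cons x L ih =>
    have h1 := ih fun y hy => h y (List.mem_cons_of_mem _ hy)
    have h2 := norm_sin_ge hc.le (h x List.mem_cons_self)
    have h0 : (z + x.2 * l).im = z.im := by
      have : ((x.2 : ℂ) * (l : ℂ)) = ((x.2 * l : ℝ) : ℂ) := by push_cast; rfl
      rw [add_im, this, ofReal_im, add_zero]
    rw [h0] at h2
    have h3 := cosh_ge' z.im
    have h4 : sc c * (Real.exp |z.im| / 2) ≤ ‖Complex.sin (z + x.2 * l)‖ :=
      (mul_le_mul_of_nonneg_left h3 hc.le).trans h2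
    have hpos : 0 < sc c * (Real.exp |z.im| / 2) := by positivity
    have h5 : ‖-(1 / Complex.sin (z + x.2 * l) ^ 2)‖ ≤
        4 / sc c ^ 2 * Real.exp (-(2 * |z.im|)) := by
      rw [norm_neg, norm_div, norm_one, norm_pow]
      have e1 : 4 / sc c ^ 2 * Real.exp (-(2 * |z.im|)) =
          1 / (sc c * (Real.exp |z.im| / 2)) ^ 2 := by
        have : Real.exp (-(2 * |z.im|)) = 1 / Real.exp |z.im| ^ 2 := by
          rw [← Real.exp_nat_mul, one_div, ← Real.exp_neg]
          push_cast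
          rfl
        rw [this]
        field_simp
        norm_num
      rw [e1]
      exact one_div_le_one_div_of_le (by positivity) (pow_le_pow_left₀ hpos.le h4 2)
    have e : KL1 (x :: L) z =
        (x.1 : ℂ) * (-(1 / Complex.sin (z + x.2 * l) ^ 2)) + KL1 L z := by
      simp only [KL1, List.map_cons, List.sum_cons]
    rw [e]
    refine (norm_add_le _ _).trans ?_
    rw [norm_mul, Complex.norm_intCast]
    simp only [sa, List.map_cons, List.sum_cons]
    rw [add_mul]
    exact add_le_add (mul_le_mul_of_nonneg_left h5 (abs_nonneg _)) h1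

/-- the derivative of the force decays -/
theorem kls1_lec {s : Bool} (B : List Part6) {z : ℂ} {b : ℝ} (h0 : 0 < c) (h1 : c ≤ 1 / 2)
    (hB : ∀ p ∈ B, Dst (c * l) (p.1.2.2 - z).re ∧ p.1.2.2.im = b) :
    ‖kls61 s B z‖ ≤ mu6 B * (48 / sc c ^ 2 * Real.exp (-(2 * |z.im - b|))) := by
  have hc := PHK.sc_pos h0 h1
  induction B with
  | nil => simp [kls61, mu6]
  | cons p B ih =>
    have i1 := ih fun q hq => hB q (List.mem_cons_of_mem _ hq)
    obtain ⟨hx, hb⟩ := hB p List.mem_cons_self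
    have i2 := KL1_lec hc (kl (s == p.1.1) p.1.2.1) (z := z - p.1.2.2)
      fun x _ => sin_shift h0 h1 hx x.2
    rw [sub_im, hb] at i2
    have i3 : ‖KL1 (kl (s == p.1.1) p.1.2.1) (z - p.1.2.2)‖ ≤
        48 / sc c ^ 2 * Real.exp (-(2 * |z.im - b|)) := by
      refine i2.trans ?_
      calc _ ≤ 12 * (4 / sc c ^ 2 * Real.exp (-(2 * |z.im - b|))) :=
            mul_le_mul_of_nonneg_right (PBOR.PLX.sa_le _ _) (by positivity)
        _ = _ := by ring
    have e : kls61 s (p :: B) z =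
        (p.2 : ℂ) * KL1 (kl (s == p.1.1) p.1.2.1) (z - p.1.2.2) + kls61 s B z := by
      simp only [kls61, List.map_cons, List.sum_cons]
    rw [e]
    refine (norm_add_le _ _).trans ?_
    rw [norm_mul, Complex.norm_intCast]
    simp only [mu6, List.map_cons, List.sum_cons]
    rw [add_mul]
    exact add_le_add (mul_le_mul_of_nonneg_left i3 (abs_nonneg _)) i1

theorem kls1_leD (hd : DsC P h c) (s : Bool) (x : Xo) {z : ℂ}
    (hz : z.re ∈ Set.Icc ((1 - h) * l) ((1 + h) * l)) :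
    ‖kls61 s (parts6 P x) z‖ ≤ 192 / sc c ^ 2 * Real.exp (-(2 * |z.im - ht x|)) := by
  have hc := hd.sc_pos
  have h1 := kls1_lec (s := s) (parts6 P x) (z := z) (b := ht x) hd.c0 hd.le_half
    fun p hp => ⟨parts_dst6 hd x hz p hp, parts_im6 P x p hp⟩
  refine h1.trans ?_
  calc _ ≤ 4 * (48 / sc c ^ 2 * Real.exp (-(2 * |z.im - ht x|))) :=
        mul_le_mul_of_nonneg_right (mu6_parts P x) (by positivity)
    _ = _ := by ring

/-- the force of one object is differentiable -/
theorem hasDerivAt_partsD (hd : DsC P h c) (s : Bool) (x : Xo) {z : ℂ}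
    (hz : z.re ∈ Set.Icc ((1 - h) * l) ((1 + h) * l)) :
    HasDerivAt (kls6 s (parts6 P x)) (kls61 s (parts6 P x) z) z :=
  hasDerivAt_kls6 s _ fun p hp => okK_dst hd.c0 hd.le_half (parts_dst6 hd x hz p hp)

/-- the strip in the coordinate `u = l + I w` -/
theorem strip_lI {w : ℂ} (hw : |w.im| ≤ h * l) :
    ((l : ℂ) + I * w).re ∈ Set.Icc ((1 - h) * l) ((1 + h) * l) := by
  have e : ((l : ℂ) + I * w).re = l - w.im := by simp [sub_eq_add_neg]
  obtain ⟨h1, h2⟩ := abs_le.1 hw
  constructor <;> rw [e] <;> linarith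

theorem strip_l (hd : DsC P h c) {z : ℂ} (hz : z.re = l) :
    z.re ∈ Set.Icc ((1 - h) * l) ((1 + h) * l) := by
  have hl := Bd.l_pos
  have := mul_nonneg hd.h0 hl.le
  rw [hz]
  constructor <;> linarith

theorem strip_lI_real (hd : DsC P h c) (t : ℝ) :
    ((l : ℂ) + I * t).re ∈ Set.Icc ((1 - h) * l) ((1 + h) * l) :=
  strip_l hd (by simp)

/-- differentiability in the coordinate `u = l + I w` -/
theorem dA_klsD (hd : DsC P h c) (s : Bool) (x : Xo) {w : ℂ} (hw : |w.im| ≤ h * l) :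
    HasDerivAt (fun w : ℂ => kls6 s (parts6 P x) (l + I * w))
      (kls61 s (parts6 P x) (l + I * w) * I) w := by
  have h0 : HasDerivAt (fun w : ℂ => (l : ℂ) + I * w) I w := by
    simpa using ((hasDerivAt_id w).const_mul I).const_add (l : ℂ)
  exact (hasDerivAt_partsD hd s x (strip_lI hw)).comp w h0

theorem measurable_KL (L : List (ℤ × ℤ)) : Measurable (KL L) := by
  have e : KL L = fun z => (L.map fun p => (p.1 : ℂ) * (Complex.cos (z + p.2 * l) /
      Complex.sin (z + p.2 * l))).sum := by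
    funext z
    simp only [KL, cot_eq_cos_div_sin]
  rw [e]
  induction L with
  | nil => simp
  | cons p L ih =>
    simp only [List.map_cons, List.sum_cons]
    exact (measurable_const.mul ((Complex.measurable_cos.comp (measurable_id.add_const _)).div
      (Complex.measurable_sin.comp (measurable_id.add_const _)))).add (by
        have : KL L = fun z => (L.map fun p => (p.1 : ℂ) * (Complex.cos (z + p.2 * l) /
            Complex.sin (z + p.2 * l))).sum := by
          funext z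
          simp only [KL, cot_eq_cos_div_sin]
        exact ih this)

theorem measurable_kls6 (s : Bool) (B : List Part6) : Measurable (kls6 s B) := by
  unfold kls6
  induction B with
  | nil => simp
  | cons p B ih =>
    simp only [List.map_cons, List.sum_cons]
    exact (((measurable_KL _).comp (measurable_id.sub_const _)).const_mul _).add ih

/-! ### the objects of a configuration -/

theorem okK6 (hd : DsC P h c) (O : Fin r → Xo) (s : Bool) {z : ℂ}
    (hz : z.re ∈ Set.Icc ((1 - h) * l) ((1 + h) * l)) (i : Fin r) :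
    ∀ p ∈ cons6 P O i, OkK s p.1 z :=
  fun p hp => okK_dst hd.c0 hd.le_half (parts_dst6 hd (O i) hz p hp)

/-- **log derivative of the potential of the objects** in the strip -/
theorem potK6 (hd : DsC P h c) (O : Fin r → Xo) (s : Bool) {z : ℂ}
    (hz : z.re ∈ Set.Icc ((1 - h) * l) ((1 + h) * l)) :
    HasDerivAt (potO6 P O s) (kP6 P O s z * potO6 P O s z) z :=
  potK6' P O s (okK6 hd O s hz)

/-- the potential of the objects does not vanish in the strip -/
theorem potK6_ne (hd : DsC P h c) (O : Fin r → Xo) (s : Bool) {z : ℂ}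
    (hz : z.re ∈ Set.Icc ((1 - h) * l) ((1 + h) * l)) : potO6 P O s z ≠ 0 :=
  Finset.prod_ne_zero_iff.2 fun i _ => ppC6_neK s _ (okK6 hd O s hz i)

/-- the log derivative is unique -/
theorem ldrK_unique (hd : DsC P h c) {O : Fin r → Xo} {s : Bool} {z : ℂ}
    (hz : z.re ∈ Set.Icc ((1 - h) * l) ((1 + h) * l)) {A B : ℂ}
    (hA : HasDerivAt (potO6 P O s) (A * potO6 P O s z) z)
    (hB : HasDerivAt (potO6 P O s) (B * potO6 P O s z) z) : A = B :=
  mul_right_cancel₀ (potK6_ne hd O s hz) (hA.unique hB)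

theorem LP_eq6 (hd : DsC P h c) {O : Fin r → Xo} {s : Bool} {z : ℂ}
    (hz : z.re ∈ Set.Icc ((1 - h) * l) ((1 + h) * l)) {A : ℂ}
    (hA : HasDerivAt (potO6 P O s) (A * potO6 P O s z) z) : A = kP6 P O s z :=
  ldrK_unique hd hz hA (potK6 hd O s hz)

/-- **the two closed forms agree** -/
theorem LPoK_eq6 (hd : DsC P h c) (O : Fin r → Xo) (s : Bool) {z : ℂ}
    (hz : z.re ∈ Set.Icc ((1 - h) * l) ((1 + h) * l)) : LPo6 P r O s z = kP6 P O s z :=
  LP_eq6 hd hz (hasDerivAt_potO6 hd O s hz)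

theorem kO_limD (hd : DsC P h c) (O : Fin r → Xo) (i : Fin r) (s : Bool) {z : ℂ}
    (hz : z.re ∈ Set.Icc ((1 - h) * l) ((1 + h) * l)) :
    ‖I * kO6 P O i s z -
      2 * ((chg6 s (O i) : ℂ) - (chg6 (!s) (O i) : ℂ)) * (sgn (z.im - ht (O i)) : ℂ)‖ ≤
      COc c * Real.exp (-(2 * |z.im - ht (O i)|)) := kls_limD hd s (O i) hz

theorem kO_leD (hd : DsC P h c) (O : Fin r → Xo) (i : Fin r) (s : Bool) {z : ℂ}
    (hz : z.re ∈ Set.Icc ((1 - h) * l) ((1 + h) * l)) : ‖kO6 P O i s z‖ ≤ COc c + 4 :=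
  kls_leD hd s (O i) hz

/-- derivative of the force of the object `i` -/
def kO61 (P : Par6) (O : Fin r → Xo) (i : Fin r) (s : Bool) (z : ℂ) : ℂ := kls61 s (cons6 P O i) z

theorem hasDerivAt_kO6 (hd : DsC P h c) (O : Fin r → Xo) (i : Fin r) (s : Bool) {z : ℂ}
    (hz : z.re ∈ Set.Icc ((1 - h) * l) ((1 + h) * l)) :
    HasDerivAt (kO6 P O i s) (kO61 P O i s z) z := hasDerivAt_partsD hd s (O i) hz

theorem kP_leD (hd : DsC P h c) (O : Fin r → Xo) (s : Bool) {z : ℂ}
    (hz : z.re ∈ Set.Icc ((1 - h) * l) ((1 + h) * l)) : ‖kP6 P O s z‖ ≤ r * (COc c + 4) := by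
  unfold kP6
  refine (norm_sum_le _ _).trans ?_
  refine (Finset.sum_le_card_nsmul _ _ _ fun i _ => kO_leD hd O i s hz).trans ?_
  rw [Finset.card_univ, Fintype.card_fin, nsmul_eq_mul]

theorem hasDerivAt_kP6 (hd : DsC P h c) (O : Fin r → Xo) (s : Bool) {z : ℂ}
    (hz : z.re ∈ Set.Icc ((1 - h) * l) ((1 + h) * l)) :
    HasDerivAt (kP6 P O s) (∑ i, kO61 P O i s z) z := by
  have e : kP6 P O s = fun z => ∑ i, kO6 P O i s z := rfl
  rw [e]
  exact HasDerivAt.fun_sum fun i _ => hasDerivAt_kO6 hd O i s hz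

theorem measurable_kP6 (P : Par6) (O : Fin r → Xo) (s : Bool) : Measurable (kP6 P O s) := by
  unfold kP6
  exact Finset.measurable_fun_sum _ fun i _ => measurable_kls6 s _

/-! ### the line `Re z = l` -/

/-- the line is at distance `l / 100` from all zeros and poles -/
theorem dsC_line (hP : GoodP6 P) (hj : P.j2 ≤ 19 / 20) : DsC P 0 (1 / 100) :=
  dsC_of hP le_rfl (by norm_num) (by have := hP.L2; linarith) (by have := hP.j1; linarith)
    (by linarith)

/-- constant of the force of an object on the line -/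
def CO6 : ℝ := COc (1 / 100)

theorem CO6_pos : 0 < CO6 := by
  have := PHK.sc_pos (c := 1 / 100) (by norm_num) (by norm_num)
  unfold CO6 COc
  positivity

/-- **the force of one object on a quantum on the line** -/
theorem kls_lim6 (hP : GoodP6 P) (hj : P.j2 ≤ 19 / 20) (s : Bool) (x : Xo) {z : ℂ}
    (hz : z.re = l) :
    ‖I * kls6 s (parts6 P x) z -
      2 * ((chg6 s x : ℂ) - (chg6 (!s) x : ℂ)) * (sgn (z.im - ht x) : ℂ)‖ ≤
      CO6 * Real.exp (-(2 * |z.im - ht x|)) :=
  kls_limD (dsC_line hP hj) s x (strip_l (dsC_line hP hj) hz)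

theorem kls_le6 (hP : GoodP6 P) (hj : P.j2 ≤ 19 / 20) (s : Bool) (x : Xo) {z : ℂ}
    (hz : z.re = l) : ‖kls6 s (parts6 P x) z‖ ≤ CO6 + 4 :=
  kls_leD (dsC_line hP hj) s x (strip_l (dsC_line hP hj) hz)

theorem kls1_le6 (hP : GoodP6 P) (hj : P.j2 ≤ 19 / 20) (s : Bool) (x : Xo) {z : ℂ}
    (hz : z.re = l) :
    ‖kls61 s (parts6 P x) z‖ ≤ 192 / sc (1 / 100) ^ 2 * Real.exp (-(2 * |z.im - ht x|)) :=
  kls1_leD (dsC_line hP hj) s x (strip_l (dsC_line hP hj) hz)

theorem hasDerivAt_parts6 (hP : GoodP6 P) (hj : P.j2 ≤ 19 / 20) (s : Bool) (x : Xo) {z : ℂ}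
    (hz : z.re = l) : HasDerivAt (kls6 s (parts6 P x)) (kls61 s (parts6 P x) z) z :=
  hasDerivAt_partsD (dsC_line hP hj) s x (strip_l (dsC_line hP hj) hz)

theorem dA_kls6 (hP : GoodP6 P) (hj : P.j2 ≤ 19 / 20) (s : Bool) (x : Xo) (t : ℝ) :
    HasDerivAt (fun w : ℂ => kls6 s (parts6 P x) (l + I * w))
      (kls61 s (parts6 P x) (l + I * t) * I) (t : ℂ) :=
  dA_klsD (dsC_line hP hj) s x (by simp)

theorem kO_le6 (hP : GoodP6 P) (hj : P.j2 ≤ 19 / 20) (O : Fin r → Xo) (i : Fin r) (s : Bool)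
    {z : ℂ} (hz : z.re = l) : ‖kO6 P O i s z‖ ≤ CO6 + 4 := kls_le6 hP hj s (O i) hz

theorem kP_le6 (hP : GoodP6 P) (hj : P.j2 ≤ 19 / 20) (O : Fin r → Xo) (s : Bool) {z : ℂ}
    (hz : z.re = l) : ‖kP6 P O s z‖ ≤ r * (CO6 + 4) :=
  kP_leD (dsC_line hP hj) O s (strip_l (dsC_line hP hj) hz)

theorem potK6_line (hP : GoodP6 P) (hj : P.j2 ≤ 19 / 20) (O : Fin r → Xo) (s : Bool) {z : ℂ}
    (hz : z.re = l) : HasDerivAt (potO6 P O s) (kP6 P O s z * potO6 P O s z) z :=
  potK6 (dsC_line hP hj) O s (strip_l (dsC_line hP hj) hz)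

/-- the strip of `TRsG` -/
theorem par6_dsG : DsC par6 (1 / 250) (3 / 500) := by
  constructor <;> norm_num [par6]

end PHK

end
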