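import Mathlib.Analysis.Complex.ExponentialBounds
import Mathlib.Analysis.SpecialFunctions.ExpDeriv
import Mathlib.Analysis.Real.Pi.Bounds
import Pool.Agent.PHK.Loc

/-!
# The cut of the strings in the vacuum

General form: `omG κ x0 T1 w = 2 exp (-κ T1) cos (κ (w + x0))`, cut `exp (- omG * P)`, `P` the product of the
functions `psi_0` of the rows.

The cut of (P): **`om T1 P w = exp (- omA T1 w * P w)`, `omA T1 w = 2 exp (-11 / 2 T1) cos (11 / 2 (w + 31 / 32 l))`**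
(offsets `3 / 2` to `49 / 20`, i.e. `|Re w + 31 / 32 l| ≤ 77 / 160 l`, contains `-29 / 20 l ≤ Re w ≤ - l / 2`):

* `‖1 - om‖ ≤ ‖omA P‖ exp ‖omA P‖`, `≤ 2 e ^ 2 exp (11 / 2 (|Im w| - T1)) ‖P‖` inside the window;
* **`‖om‖ ≤ exp (- exp (11 / 2 (|Im w| - T1)) / 5)`** where `‖P w - 1‖ ≤ 1 / 5` (vacuum);
* `norm_om_le`: one bound for all heights; `norm_om_pow`: it kills `exp (a |Im w|)` for every `a`;
  **`norm_om_dexp`**: it kills `exp (C exp (b (|Im w| - T1)_+))` for every `b < 11 / 2`.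
-/

set_option autoImplicit false

noncomputable section

open Complex

namespace PHK

open NUMF (l l_pos)

/-! ### general form -/

/-- the exponent of the cut -/
def omG (κ x0 T1 : ℝ) (w : ℂ) : ℂ := 2 * Real.exp (-κ * T1) * Complex.cos (κ * (w + x0))

theorem diff_omG (κ x0 T1 : ℝ) : Differentiable ℂ (omG κ x0 T1) := by
  unfold omG
  refine (differentiable_const _).mul (Complex.differentiable_cos.comp ?_)
  fun_prop

lemma norm_cos_le_cosh (z : ℂ) : ‖Complex.cos z‖ ≤ Real.cosh z.im := by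
  refine le_of_sq_le_sq ?_ (Real.cosh_pos _).le
  rw [norm_cos_sq, Real.cosh_two_mul]
  have h1 := Real.cos_le_one (2 * z.re)
  have h2 := Real.cosh_sq z.im
  nlinarith

lemma cosh_le_exp_abs (y : ℝ) : Real.cosh y ≤ Real.exp |y| := by
  rw [← Real.cosh_abs, Real.cosh_eq]
  have : Real.exp (-|y|) ≤ Real.exp |y| := Real.exp_le_exp.2 (by linarith [abs_nonneg y])
  linarith

lemma exp_abs_le_cosh (y : ℝ) : Real.exp |y| / 2 ≤ Real.cosh y := by
  rw [← Real.cosh_abs, Real.cosh_eq]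
  have := Real.exp_pos (-|y|)
  linarith

theorem norm_omG_le {κ : ℝ} (hκ : 0 ≤ κ) (x0 T1 : ℝ) (w : ℂ) :
    ‖omG κ x0 T1 w‖ ≤ 2 * Real.exp (κ * (|w.im| - T1)) := by
  unfold omG
  rw [norm_mul, norm_mul, Complex.norm_real, Real.norm_of_nonneg (Real.exp_pos _).le,
    Complex.norm_ofNat]
  have h1 := norm_cos_le_cosh (κ * (w + x0))
  have e1 : (κ * (w + x0) : ℂ).im = κ * w.im := by simp
  rw [e1] at h1
  have h2 := cosh_le_exp_abs (κ * w.im)
  rw [abs_mul, abs_of_nonneg hκ] at h2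
  have e2 : Real.exp (κ * (|w.im| - T1)) = Real.exp (-κ * T1) * Real.exp (κ * |w.im|) := by
    rw [← Real.exp_add]
    ring_nf
  rw [e2]
  have := mul_le_mul_of_nonneg_left (h1.trans h2) (Real.exp_pos (-κ * T1)).le
  linarith

/-- real part of the exponent -/
theorem re_omG (κ x0 T1 : ℝ) (w : ℂ) : (omG κ x0 T1 w).re =
    2 * Real.exp (-κ * T1) * (Real.cos (κ * (w.re + x0)) * Real.cosh (κ * w.im)) := by
  have e : (2 : ℂ) * Real.exp (-κ * T1) = ((2 * Real.exp (-κ * T1) : ℝ) : ℂ) := by push_cast; rfl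
  unfold omG
  rw [e, Complex.re_ofReal_mul, cos_re]
  congr 2
  · simp
  · simp

theorem im_omG (κ x0 T1 : ℝ) (w : ℂ) : (omG κ x0 T1 w).im =
    2 * Real.exp (-κ * T1) * -(Real.sin (κ * (w.re + x0)) * Real.sinh (κ * w.im)) := by
  have e : (2 : ℂ) * Real.exp (-κ * T1) = ((2 * Real.exp (-κ * T1) : ℝ) : ℂ) := by push_cast; rfl
  unfold omG
  rw [e, Complex.im_ofReal_mul, cos_im]
  congr 3
  · simp
  · simp

lemma cos_ge_half {y : ℝ} (h : |y| ≤ Real.pi / 3) : 1 / 2 ≤ Real.cos y := by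
  rw [← Real.cos_abs, ← Real.cos_pi_div_three]
  exact Real.cos_le_cos_of_nonneg_of_le_pi (abs_nonneg _) (by linarith [Real.pi_pos]) h

lemma abs_sin_le {y : ℝ} (h : |y| ≤ Real.pi / 3) : |Real.sin y| ≤ 7 / 8 := by
  have h1 := cos_ge_half h
  have h2 := Real.sin_sq_add_cos_sq y
  refine abs_le_of_sq_le_sq ?_ (by norm_num)
  nlinarith

/-- **the vacuum**, general form -/
theorem re_omG_mul {κ x0 T1 : ℝ} (hκ : 0 ≤ κ) {w p : ℂ} (hw : |κ * (w.re + x0)| ≤ Real.pi / 3)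
    (hP : ‖p - 1‖ ≤ 1 / 5) : Real.exp (κ * (|w.im| - T1)) / 5 ≤ (omG κ x0 T1 w * p).re := by
  have hR : 4 / 5 ≤ p.re := by
    have := (Complex.abs_re_le_norm (p - 1)).trans hP
    rw [Complex.sub_re, Complex.one_re] at this
    linarith [(abs_le.1 this).1]
  have hI : |p.im| ≤ 1 / 5 := by
    have := (Complex.abs_im_le_norm (p - 1)).trans hP
    rwa [Complex.sub_im, Complex.one_im, sub_zero] at this
  rw [Complex.mul_re, re_omG, im_omG]
  have h1 := cos_ge_half hw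
  have h2 := abs_sin_le hw
  have h3 := exp_abs_le_cosh (κ * w.im)
  rw [abs_mul, abs_of_nonneg hκ] at h3
  have h4 : |Real.sinh (κ * w.im)| ≤ Real.cosh (κ * w.im) := by
    have := Real.cosh_sq (κ * w.im)
    refine abs_le_of_sq_le_sq ?_ (Real.cosh_pos _).le
    linarith
  obtain ⟨E, hE⟩ : ∃ E, E = Real.exp (-κ * T1) := ⟨_, rfl⟩
  have hE0 : 0 < E := by rw [hE]; exact Real.exp_pos _
  have e2 : Real.exp (κ * (|w.im| - T1)) = E * Real.exp (κ * |w.im|) := by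
    rw [hE, ← Real.exp_add]
    ring_nf
  rw [e2, ← hE]
  obtain ⟨C, hC⟩ : ∃ C, C = Real.cosh (κ * w.im) := ⟨_, rfl⟩
  obtain ⟨S, hS⟩ : ∃ S, S = Real.sinh (κ * w.im) := ⟨_, rfl⟩
  rw [← hC] at h3 h4 ⊢
  rw [← hS] at h4 ⊢
  have hC0 : 0 < C := by rw [hC]; exact Real.cosh_pos _
  obtain ⟨c, hc⟩ : ∃ c, c = Real.cos (κ * (w.re + x0)) := ⟨_, rfl⟩
  obtain ⟨s, hs⟩ : ∃ s, s = Real.sin (κ * (w.re + x0)) := ⟨_, rfl⟩
  rw [← hc] at h1 ⊢
  rw [← hs] at h2 ⊢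
  have a1 : 2 / 5 * C ≤ c * C * p.re := by
    have : 1 / 2 * (4 / 5) ≤ c * p.re := mul_le_mul h1 hR (by norm_num) (by linarith)
    nlinarith
  have a3 : -(7 / 40 * C) ≤ s * S * p.im := by
    have q1 : |s * S| ≤ 7 / 8 * C := by
      rw [abs_mul]
      exact mul_le_mul h2 h4 (abs_nonneg _) (by norm_num)
    have q2 : |s * S * p.im| ≤ 7 / 8 * C * (1 / 5) := by
      rw [abs_mul]
      exact mul_le_mul q1 hI (abs_nonneg _) (by positivity)
    linarith [neg_abs_le (s * S * p.im)]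
  have b : 2 * E * (c * C) * p.re - 2 * E * -(s * S) * p.im =
      2 * E * (c * C * p.re + s * S * p.im) := by ring
  rw [b]
  have b2 : 1 / 5 * C ≤ c * C * p.re + s * S * p.im := by linarith
  have b3 := mul_le_mul_of_nonneg_left b2 (by positivity : (0 : ℝ) ≤ 2 * E)
  have b4 := mul_le_mul_of_nonneg_left h3 (by positivity : (0 : ℝ) ≤ E)
  linarith

/-! ### the cut of (P) -/

/-- the exponent of the cut of (P) -/
def omA (T1 : ℝ) (w : ℂ) : ℂ := omG (11 / 2) (31 / 32 * l) T1 w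

/-- **the cut of the strings** -/
def om (T1 : ℝ) (P : ℂ → ℂ) (w : ℂ) : ℂ := Complex.exp (-(omA T1 w * P w))

theorem diff_omA (T1 : ℝ) : Differentiable ℂ (omA T1) := diff_omG _ _ _

theorem diff_om (T1 : ℝ) {P : ℂ → ℂ} {U : Set ℂ} (hP : DifferentiableOn ℂ P U) :
    DifferentiableOn ℂ (om T1 P) U :=
  (((diff_omA T1).differentiableOn.mul hP).neg).cexp

theorem om_ne_zero (T1 : ℝ) (P : ℂ → ℂ) (w : ℂ) : om T1 P w ≠ 0 := Complex.exp_ne_zero _

theorem norm_omA_le (T1 : ℝ) (w : ℂ) : ‖omA T1 w‖ ≤ 2 * Real.exp (11 / 2 * (|w.im| - T1)) :=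
  norm_omG_le (by norm_num) _ _ _

lemma range_om {w : ℂ} (hw : |w.re + 31 / 32 * l| ≤ 77 / 160 * l) :
    |11 / 2 * (w.re + 31 / 32 * l)| ≤ Real.pi / 3 := by
  have hl : l = Real.pi / 8 := rfl
  have hp := Real.pi_pos
  rw [abs_mul, abs_of_pos (by norm_num : (0 : ℝ) < 11 / 2)]
  rw [hl] at hw ⊢
  linarith

/-- offsets `3 / 2` to `49 / 20` -/
lemma range_off {j t : ℝ} {w : ℂ} (hw : w = ((1 - j) * l : ℝ) + t * I) (h1 : 3 / 2 ≤ j)
    (h2 : j ≤ 49 / 20) : |w.re + 31 / 32 * l| ≤ 77 / 160 * l := by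
  have hl := l_pos
  have e : w.re = (1 - j) * l := by rw [hw]; simp
  rw [e, abs_le]
  constructor <;> nlinarith

/-- the strip `-29 / 20 l ≤ Re w ≤ - l / 2` -/
lemma range_win {w : ℂ} (h1 : -(29 / 20 * l) ≤ w.re) (h2 : w.re ≤ -(l / 2)) :
    |w.re + 31 / 32 * l| ≤ 77 / 160 * l := by
  have hl := l_pos
  rw [abs_le]
  constructor <;> linarith

/-- **the vacuum** -/
theorem norm_om_vac {T1 : ℝ} {P : ℂ → ℂ} {w : ℂ} (hw : |w.re + 31 / 32 * l| ≤ 77 / 160 * l)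
    (hP : ‖P w - 1‖ ≤ 1 / 5) : ‖om T1 P w‖ ≤ Real.exp (-(Real.exp (11 / 2 * (|w.im| - T1)) / 5)) := by
  unfold om
  rw [Complex.norm_exp, Complex.neg_re, Real.exp_le_exp, neg_le_neg_iff]
  exact re_omG_mul (by norm_num) (range_om hw) hP

/-- **the bulk** -/
theorem norm_one_sub_om (T1 : ℝ) (P : ℂ → ℂ) (w : ℂ) :
    ‖1 - om T1 P w‖ ≤ ‖omA T1 w * P w‖ * Real.exp ‖omA T1 w * P w‖ := by
  have h := Complex.norm_exp_sub_sum_le_norm_mul_exp (-(omA T1 w * P w)) 1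
  simp only [Finset.range_one, Finset.sum_singleton, pow_zero, Nat.factorial_zero, Nat.cast_one,
    div_one, pow_one, norm_neg] at h
  rw [norm_sub_rev]
  exact h

lemma norm_omA_mul_le {T1 : ℝ} {P : ℂ → ℂ} {w : ℂ} (hw : |w.im| ≤ T1) (hP : ‖P w‖ ≤ 1) :
    ‖omA T1 w * P w‖ ≤ 2 := by
  have a := norm_omA_le T1 w
  have b : Real.exp (11 / 2 * (|w.im| - T1)) ≤ 1 := Real.exp_le_one_iff.2 (by linarith)
  rw [norm_mul]
  have := mul_le_mul (a.trans (by linarith : _ ≤ (2 : ℝ))) hP (norm_nonneg _) (by norm_num)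
  linarith

/-- inside the window `|Im w| ≤ T1` -/
theorem norm_one_sub_om_le {T1 : ℝ} {P : ℂ → ℂ} {w : ℂ} (hw : |w.im| ≤ T1) (hP : ‖P w‖ ≤ 1) :
    ‖1 - om T1 P w‖ ≤ 2 * Real.exp 2 * Real.exp (11 / 2 * (|w.im| - T1)) * ‖P w‖ := by
  refine (norm_one_sub_om T1 P w).trans ?_
  have h1 := norm_omA_le T1 w
  have h3 := norm_omA_mul_le hw hP
  have h4 : ‖omA T1 w * P w‖ ≤ 2 * Real.exp (11 / 2 * (|w.im| - T1)) * ‖P w‖ := by
    rw [norm_mul]
    exact mul_le_mul_of_nonneg_right h1 (norm_nonneg _)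
  have h5 := mul_le_mul h4 (Real.exp_le_exp.2 h3) (Real.exp_pos _).le (by positivity)
  linarith

/-- `1 - om` at every height: `≤ 2 e ^ 2 ‖P‖` inside, `≤ 2` outside -/
theorem norm_one_sub_om_all {T1 : ℝ} {P : ℂ → ℂ} {w : ℂ}
    (hw : |w.re + 31 / 32 * l| ≤ 77 / 160 * l) (h1 : |w.im| ≤ T1 → ‖P w‖ ≤ 1)
    (h2 : T1 ≤ |w.im| → ‖P w - 1‖ ≤ 1 / 5) : ‖1 - om T1 P w‖ ≤ 2 * Real.exp 2 * ‖P w‖ := by
  rcases le_total |w.im| T1 with h | h
  · refine (norm_one_sub_om_le h (h1 h)).trans ?_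
    have b : Real.exp (11 / 2 * (|w.im| - T1)) ≤ 1 := Real.exp_le_one_iff.2 (by linarith)
    have := mul_le_mul_of_nonneg_left b (by positivity : (0 : ℝ) ≤ 2 * Real.exp 2)
    exact mul_le_mul_of_nonneg_right (by linarith) (norm_nonneg _)
  · have a := norm_om_vac (T1 := T1) hw (h2 h)
    have b : Real.exp (-(Real.exp (11 / 2 * (|w.im| - T1)) / 5)) ≤ 1 :=
      Real.exp_le_one_iff.2 (by linarith [Real.exp_pos (11 / 2 * (|w.im| - T1))])
    have c : 4 / 5 ≤ ‖P w‖ := by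
      have := norm_sub_norm_le (1 : ℂ) (1 - P w)
      rw [norm_one, sub_sub_cancel, norm_sub_rev] at this
      linarith [h2 h]
    have d : (3 : ℝ) ≤ Real.exp 2 := by
      have := Real.add_one_le_exp (2 : ℝ)
      linarith
    calc ‖1 - om T1 P w‖ ≤ ‖(1 : ℂ)‖ + ‖om T1 P w‖ := norm_sub_le _ _
      _ ≤ 2 := by rw [norm_one]; linarith
      _ ≤ _ := by nlinarith

/-- **one bound for all heights**: `‖P‖ ≤ 1` inside the window, `‖P - 1‖ ≤ 1 / 5` outside -/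
theorem norm_om_le {T1 : ℝ} {P : ℂ → ℂ} {w : ℂ} (hw : |w.re + 31 / 32 * l| ≤ 77 / 160 * l)
    (h1 : |w.im| ≤ T1 → ‖P w‖ ≤ 1) (h2 : T1 ≤ |w.im| → ‖P w - 1‖ ≤ 1 / 5) :
    ‖om T1 P w‖ ≤ Real.exp 3 * Real.exp (-(Real.exp (11 / 2 * (|w.im| - T1)) / 5)) := by
  rcases le_total |w.im| T1 with h | h
  · have b : Real.exp (11 / 2 * (|w.im| - T1)) ≤ 1 := Real.exp_le_one_iff.2 (by linarith)
    have c := norm_omA_mul_le h (h1 h)
    unfold om
    refine (Complex.norm_exp_le_exp_norm _).trans ?_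
    rw [norm_neg, ← Real.exp_add]
    exact Real.exp_le_exp.2 (by linarith)
  · refine (norm_om_vac hw (h2 h)).trans ?_
    have : 1 ≤ Real.exp 3 := Real.one_le_exp (by norm_num)
    have := mul_le_mul_of_nonneg_right this
      (Real.exp_pos (-(Real.exp (11 / 2 * (|w.im| - T1)) / 5))).le
    linarith

/-- a double exponential beats every exponential: `- exp (6 y) / 5 ≤ C - a y` -/
lemma dexp_le {a y : ℝ} (ha : 0 ≤ a) :
    -(Real.exp (11 / 2 * y) / 5) ≤ 5 * a ^ 2 - a * max y 0 := by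
  have h0 := Real.exp_pos (11 / 2 * y)
  rcases le_total y 0 with h | h
  · rw [max_eq_right h]
    have : 0 ≤ a ^ 2 := sq_nonneg a
    linarith
  · rw [max_eq_left h]
    have h1 : 1 + 11 / 2 * y + (11 / 2 * y) ^ 2 / 2 ≤ Real.exp (11 / 2 * y) :=
      Real.quadratic_le_exp_of_nonneg (by positivity)
    nlinarith [sq_nonneg (a - y), sq_nonneg a, sq_nonneg y, mul_nonneg ha h]

/-- the cut kills `exp (a (|Im w| - T1)_+)` -/
theorem norm_om_pow {T1 a : ℝ} (ha : 0 ≤ a) {P : ℂ → ℂ} {w : ℂ}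
    (hw : |w.re + 31 / 32 * l| ≤ 77 / 160 * l) (h1 : |w.im| ≤ T1 → ‖P w‖ ≤ 1)
    (h2 : T1 ≤ |w.im| → ‖P w - 1‖ ≤ 1 / 5) :
    ‖om T1 P w‖ ≤ Real.exp (3 + 5 * a ^ 2) * Real.exp (-a * max (|w.im| - T1) 0) := by
  refine (norm_om_le hw h1 h2).trans ?_
  rw [← Real.exp_add, ← Real.exp_add]
  refine Real.exp_le_exp.2 ?_
  have := dexp_le (y := |w.im| - T1) ha
  linarith

/-- the rate `11 / 2` beats a double exponential of rate `b < 11 / 2` -/
lemma dexp_dexp {b C : ℝ} (hb : b < 11 / 2) (hb0 : 0 ≤ b) (hC : 0 ≤ C) : ∃ K : ℝ, 0 ≤ K ∧ ∀ y : ℝ,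
    C * Real.exp (b * max y 0) ≤ Real.exp (11 / 2 * y) / 5 + K := by
  obtain ⟨Y, hY⟩ : ∃ Y, Y = Real.log (5 * C + 1) / (11 / 2 - b) := ⟨_, rfl⟩
  have hd : 0 < 11 / 2 - b := by linarith
  have hY0 : 0 ≤ Y := by
    rw [hY]
    exact div_nonneg (Real.log_nonneg (by linarith)) hd.le
  refine ⟨C * Real.exp (b * Y), by positivity, fun y => ?_⟩
  have h6 := Real.exp_pos (11 / 2 * y)
  rcases le_total y Y with h | h
  · have h1 : Real.exp (b * max y 0) ≤ Real.exp (b * Y) :=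
      Real.exp_le_exp.2 (mul_le_mul_of_nonneg_left (max_le h hY0) hb0)
    have := mul_le_mul_of_nonneg_left h1 hC
    linarith
  · have hy : 0 ≤ y := hY0.trans h
    rw [max_eq_left hy]
    have h1 : 5 * C + 1 ≤ Real.exp ((11 / 2 - b) * y) := by
      rw [← Real.log_le_iff_le_exp (by linarith)]
      rw [hY, div_le_iff₀ hd] at h
      linarith
    have h2 : Real.exp (11 / 2 * y) = Real.exp (b * y) * Real.exp ((11 / 2 - b) * y) := by
      rw [← Real.exp_add]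
      ring_nf
    have h3 := Real.exp_pos (b * y)
    have h4 : 0 ≤ C * Real.exp (b * Y) := by positivity
    rw [h2]
    nlinarith

/-- **the cut kills `exp (C exp (b (|Im w| - T1)_+))`**, `b < 11 / 2` (the holes summed near their string) -/
theorem norm_om_dexp {b C : ℝ} (hb : b < 11 / 2) (hb0 : 0 ≤ b) (hC : 0 ≤ C) : ∃ K : ℝ, 0 ≤ K ∧
    ∀ (T1 : ℝ) (P : ℂ → ℂ) (w : ℂ), |w.re + 31 / 32 * l| ≤ 77 / 160 * l →
      (|w.im| ≤ T1 → ‖P w‖ ≤ 1) → (T1 ≤ |w.im| → ‖P w - 1‖ ≤ 1 / 5) →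
      ‖om T1 P w‖ * Real.exp (C * Real.exp (b * max (|w.im| - T1) 0)) ≤ K := by
  obtain ⟨K, _, H⟩ := dexp_dexp hb hb0 hC
  refine ⟨Real.exp (3 + K), (Real.exp_pos _).le, fun T1 P w hw h1 h2 => ?_⟩
  have a := mul_le_mul_of_nonneg_right (norm_om_le hw h1 h2)
    (Real.exp_pos (C * Real.exp (b * max (|w.im| - T1) 0))).le
  refine a.trans ?_
  rw [← Real.exp_add, ← Real.exp_add]
  refine Real.exp_le_exp.2 ?_
  linarith [H (|w.im| - T1)]

/-- the part which stays on the line of `T` -/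
theorem split_om (T1 : ℝ) (P : ℂ → ℂ) (w A φ0 : ℂ) :
    A - φ0 * om T1 P w = (A - φ0) + φ0 * (1 - om T1 P w) := by ring

end PHK

end
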