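import Pool.Agent.PHK.AsmR
import Pool.Agent.PLX.PB.PinAct

/-!
# (P): one body factor of an object against the activity, the gain of the tent kept

`OneRT6` = `OneR6` (`PHK/AsmR`) with the factor `exp (- gT)` on the right; `OneRT6.oneR6`.
-/

set_option autoImplicit false
set_option linter.unusedSectionVars false

noncomputable section

open PLX (Fil Ends)

namespace PBI.PLX

open PHK PBO.PLX
open NUGC NUGC.PLX
open NUO NUP1
open PBP.PLX (gT)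

variable [NUSea.Sea] [Fil] [Ends]

/-- **one body factor of an object against the activity**, the gain of the tent kept -/
def OneRT6 (G : Geo) : Prop := ∃ aS c2 τ : ℝ, 0 ≤ aS ∧ 0 < c2 ∧ ∀ K0 : ℝ, ∃ C c : ℝ, 0 < C ∧ 0 < c ∧
  ∀ ep : ℝ, 0 < ep → ep ≤ 1 / 100 → ∀ e1 : ℝ, 0 < e1 → e1 ≤ 1 / 100 → ∀ J : ℝ, 0 ≤ J →
  ∃ m1 : ℕ, ∀ m ≥ m1, ∀ (r : ℕ) (O : Fin r → Xo) (i : Fin r),
    ob6 (G.B m (4 / 3 * (1 - ep))) par6 (O i) * Real.exp (G.one m ep e1 J r O i + K0) ≤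
    act6 C c c2 aS τ 6 (Real.log m) ep e1 J r (k6 (O i)) (ht (O i)) *
      Real.exp (-gT e1 (Real.log m) (ht (O i)))

theorem OneRT6.oneR6 {G : Geo} (h : OneRT6 G) : OneR6 G := by
  obtain ⟨aS, c2, τ, haS, hc2, h⟩ := h
  refine ⟨aS, c2, τ, haS, hc2, fun K0 => ?_⟩
  obtain ⟨C, c, hC, hc, h⟩ := h K0
  refine ⟨C, c, hC, hc, fun ep hep hep1 e1 he1 he11 J hJ => ?_⟩
  obtain ⟨m1, h⟩ := h ep hep hep1 e1 he1 he11 J hJ
  refine ⟨m1, fun m hm r O i => (h m hm r O i).trans ?_⟩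
  have h0 : 0 ≤ act6 C c c2 aS τ 6 (Real.log m) ep e1 J r (k6 (O i)) (ht (O i)) :=
    act6_nonneg hC.le (log_nn m) _ _
  exact mul_le_of_le_one_right h0
    (Real.exp_le_one_iff.2 (by linarith [PBP.PLX.gT_nonneg e1 (Real.log m) (ht (O i))]))

end PBI.PLX

end
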