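import Pool.Agent.PHK.OneT6
import Pool.Agent.PHK.UseW
import Pool.Agent.PHK.OneRT

/-!
# Particle-hole form: the one body bounds in the form of the class level

* `mfT_row`, **`wkb6_obE6`**: the bounds by kinds `WKB6` of the perturbed data `obE6 B r M`;
* `oneE6 m e1 J ep O i`: the exponent of an object, current `hC` (rows `Fil.ne a m`);
* **`oneRT6_wkb`, `oneR6_wkb`** (data with `WKB6`), **`oneRT6_of`, `oneR6_of`** (data with `Ob6`): for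
  every geometry with exponents at most `oneE6 + Kc`.
-/

set_option autoImplicit false

noncomputable section

open Complex MeasureTheory Set
open PLX (Fil Ends)

namespace PHK

open NUO hiding vl_re vl_im
open NUP1 NUGC.PLX

section
attribute [local instance] NUSea.seaP

variable {P : Par6} {C : ℝ} {N : Bool → ℕ} {m : ℕ} {β T1 : ℝ} {B : OB}

/-- the two row factors of `T` and their clouds -/
theorem Ob6.rowT (h : Ob6 P C N m β T1 B) (hC : 0 ≤ C) {x : Xo} (hx : k6 x = .T) :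
    B.R (sp x) (posT (ht x)) * B.R (sp x) (posT (ht x) - l) *
      Real.exp (mfo6 (fun b => (N b : ℝ)) (parts6 P x)) ≤
      C ^ 2 * Real.exp (N (sp x) * NUMF.Ag (1 / 2) (ht x)) := by
  have e1 : (3 : ℝ) / 2 + 1 = 5 / 2 := by norm_num
  rw [mfo6_T _ P hx, e1, Real.exp_add]
  have r1 := h.R_exp (j := 3 / 2) (by simp [upL]) (by norm_num) (by norm_num) (by norm_num)
    (sp x) (ht x)
  have r2 := h.R_exp (j := 5 / 2) (by simp [upL]) (by norm_num) (by norm_num) (by norm_num)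
    (sp x) (ht x)
  rw [mfS_mid N _ (by norm_num) (by norm_num), ← NUO.posT_eq,
    show (2 : ℝ) - 3 / 2 = 1 / 2 by norm_num] at r1
  rw [mfS_neutral N _ (by norm_num) (by norm_num), Real.exp_zero, mul_one, ← posTl_vl] at r2
  have n2 := h.nn (sp x) (posT (ht x) - l)
  calc _ = (B.R (sp x) (posT (ht x)) *
        Real.exp (NUSea.PLX.O.clo (fun b => (N b : ℝ)) (sp x) (3 / 2) (ht x))) *
        (B.R (sp x) (posT (ht x) - l) *
          Real.exp (NUSea.PLX.O.clo (fun b => (N b : ℝ)) (sp x) (5 / 2) (ht x))) := by ring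
    _ ≤ (C * Real.exp (N (sp x) * NUMF.Ag (1 / 2) (ht x))) * C := by
        refine mul_le_mul r1 r2 (mul_nonneg n2 (Real.exp_pos _).le) ?_
        positivity
    _ = _ := by ring

/-- the additional weight of `T` with its mean field -/
theorem Ob6.wT6_le (h : Ob6 P C N m β T1 B) (hC : 0 ≤ C) {M : Bool → ℝ → ℝ}
    (hM0 : ∀ a t, 0 ≤ M a t) {CM : ℝ}
    (hM : ∀ a t, Real.exp (N a * NUMF.Ag (1 / 2) t) * M a t ≤ CM * cut m β t) {x : Xo}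
    (hx : k6 x = .T) : wT6 B M x * Real.exp (mfo6 (fun b => (N b : ℝ)) (parts6 P x)) ≤
      NUO.aS * C ^ 2 * CM * cut m β (ht x) := by
  have haS := NUO.aS_pos
  have h1 := h.rowT hC hx
  have h2 := hM (sp x) (ht x)
  have h3 := hM0 (sp x) (ht x)
  unfold wT6
  rw [hx]
  simp only
  calc _ = NUO.aS * (B.R (sp x) (posT (ht x)) * B.R (sp x) (posT (ht x) - l) *
        Real.exp (mfo6 (fun b => (N b : ℝ)) (parts6 P x))) * M (sp x) (ht x) := by ring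
    _ ≤ NUO.aS * (C ^ 2 * Real.exp (N (sp x) * NUMF.Ag (1 / 2) (ht x))) * M (sp x) (ht x) := by
        gcongr
    _ = NUO.aS * C ^ 2 * (Real.exp (N (sp x) * NUMF.Ag (1 / 2) (ht x)) * M (sp x) (ht x)) := by
        ring
    _ ≤ NUO.aS * C ^ 2 * (CM * cut m β (ht x)) := by gcongr
    _ = _ := by ring

/-- **the bounds by kinds of the perturbed data** -/
theorem wkb6_obE6 (h : Ob6 P C N m β T1 B) (hC : 0 ≤ C) (he : 0 ≤ P.e) {B0 : ℝ}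
    (hW : WKB6 B0 P N m β T1 B) {r : Bool → ℂ → ℝ} {δ : ℝ} (hr : RE6 r δ) (hδ : 0 ≤ δ)
    (hδ1 : δ ≤ 1 / 2) {M : Bool → ℝ → ℝ} (hM0 : ∀ a t, 0 ≤ M a t) {CM : ℝ} (hCM : 0 ≤ CM)
    (hM : ∀ a t, Real.exp (N a * NUMF.Ag (1 / 2) t) * M a t ≤ CM * cut m β t) :
    WKB6 (16 * (B0 + NUO.aS * C ^ 2 * CM)) P N m β T1 (obE6 B r M) := by
  have haS := NUO.aS_pos
  intro x
  exact KB6_obE6 h.nn hr hδ hδ1 hM0 he x (by positivity) (Real.exp_pos _).le (hW x)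
    fun hx => h.wT6_le hC hM0 hM hx

end

end PHK

namespace PBI.PLX

open PHK
open PBO.PLX (Geo OneR6)
open NUO hiding vl_re vl_im
open NUP1 NUGC.PLX
section
attribute [local instance] NUSea.seaP

variable [Fil] [Ends]

/-- the exponent of an object: clouds of the rows `Fil.ne a m`, current `hC` -/
def oneE6 (m : ℕ) (ep e1 J : ℝ) {r : ℕ} (O : Fin r → Xo) (i : Fin r) : ℝ :=
  mfo6 (fun a => ((Fil.ne a m : ℕ) : ℝ)) (parts6 par6 (O i)) -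
    2 * Real.pi * wind6 (k6 (O i)) * hC e1 J m (ht (O i)) + exc (TW ep e1 m) (ht (O i))

omit [Fil] [Ends] in
theorem TW_ge6 {ep e1 : ℝ} (h0 : 0 < ep) (h1 : ep ≤ 1 / 100) (he : 0 ≤ e1) {m : ℕ}
    (hm : 0 ≤ Real.log m) : Tb (Real.log m) / (1 - ep) ≤ TW ep e1 m := by
  have hT : 0 ≤ Tb (Real.log m) := by
    unfold Tb
    linarith
  unfold TW
  rw [div_le_iff₀ (by linarith)]
  have h2 : (1 : ℝ) ≤ (1 + 2 * e1 + 2 * ep) * (1 - ep) := by nlinarith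
  calc Tb (Real.log m) = 1 * Tb (Real.log m) := (one_mul _).symm
    _ ≤ (1 + 2 * e1 + 2 * ep) * (1 - ep) * Tb (Real.log m) := mul_le_mul_of_nonneg_right h2 hT
    _ = _ := by ring

/-- **`OneRT6` of a geometry with data `WKB6`** -/
theorem oneRT6_wkb (τ : ℝ) {B0 : ℝ} (hB0 : 0 < B0) {G : Geo}
    (hB : ∀ ep : ℝ, 0 < ep → ep ≤ 1 / 100 → ∃ m0 : ℕ, ∀ m ≥ m0,
      WKB6 B0 par6 (fun a => Fil.ne a m) m (4 / 3 * (1 - ep)) (Tb (Real.log m) + τ)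
        (G.B m (4 / 3 * (1 - ep))) ∧ (G.B m (4 / 3 * (1 - ep))).Nn)
    {Kc : ℝ} (h1 : ∀ (m : ℕ) (ep e1 J : ℝ), 1 ≤ m → 0 < ep → 0 < e1 → 0 ≤ J →
      ∀ (r : ℕ) (O : Fin r → Xo) (i : Fin r), G.one m ep e1 J r O i ≤ oneE6 m ep e1 J O i + Kc) :
    OneRT6 G := by
  refine ⟨6, 1 / 5, τ, by norm_num, by norm_num, fun K0 => ?_⟩
  obtain ⟨A, hA, H⟩ := one_hC6T (Kc + K0) τ hB0
  have hp := pH6_pos
  refine ⟨A, 7 / 10 * (pH6 / 4), hA, by positivity, fun ep hep hep1 e1 he1 he11 J hJ => ?_⟩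
  obtain ⟨m0, hm0⟩ := hB ep hep hep1
  obtain ⟨m1, hm1, H⟩ := H e1 he1 he11 J hJ
  refine ⟨max m0 m1, fun m hm r O i => ?_⟩
  simp only [ge_iff_le, max_le_iff] at hm
  obtain ⟨g0, g1⟩ := hm
  have g3 : 3 ≤ m := hm1.trans g1
  have hL := log_ge_one g3
  obtain ⟨w1, w2⟩ := hm0 m g0
  have hN : ∀ a, (m : ℝ) ≤ 2 * ((Fil.ne a m : ℕ) : ℝ) := fun a => by
    have h2 : (m : ℝ) ≤ ((Fil.ne a m : ℕ) : ℝ) := Fil.le_ner a m
    have h3 : (0 : ℝ) ≤ m := Nat.cast_nonneg m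
    linarith
  have key := H m g1 6 ep hep hep1 (TW ep e1 m) (TW_ge6 hep hep1 he1.le (by linarith)) par6
    par6_good (fun a => Fil.ne a m) hN _ w2 w1 r (O i)
  refine le_trans (mul_le_mul_of_nonneg_left (Real.exp_le_exp.2 ?_) (ob6_nonneg w2 _ _)) key
  have h4 := h1 m ep e1 J (by omega) hep he1 hJ r O i
  unfold oneE6 at h4
  linarith

/-- **`OneR6` of a geometry with data `WKB6`** -/
theorem oneR6_wkb (τ : ℝ) {B0 : ℝ} (hB0 : 0 < B0) {G : Geo}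
    (hB : ∀ ep : ℝ, 0 < ep → ep ≤ 1 / 100 → ∃ m0 : ℕ, ∀ m ≥ m0,
      WKB6 B0 par6 (fun a => Fil.ne a m) m (4 / 3 * (1 - ep)) (Tb (Real.log m) + τ)
        (G.B m (4 / 3 * (1 - ep))) ∧ (G.B m (4 / 3 * (1 - ep))).Nn)
    {Kc : ℝ} (h1 : ∀ (m : ℕ) (ep e1 J : ℝ), 1 ≤ m → 0 < ep → 0 < e1 → 0 ≤ J →
      ∀ (r : ℕ) (O : Fin r → Xo) (i : Fin r), G.one m ep e1 J r O i ≤ oneE6 m ep e1 J O i + Kc) :
    OneR6 G := (oneRT6_wkb τ hB0 hB h1).oneR6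

/-- **`OneRT6` of a geometry with data `Ob6`** -/
theorem oneRT6_of {C : ℝ} (hC : 0 < C) (τ : ℝ) {G : Geo}
    (hB : ∀ ep : ℝ, 0 < ep → ep ≤ 1 / 100 → ∃ m0 : ℕ, ∀ m ≥ m0,
      Ob6 par6 C (fun a => Fil.ne a m) m (4 / 3 * (1 - ep)) (Tb (Real.log m) + τ)
        (G.B m (4 / 3 * (1 - ep))))
    {Kc : ℝ} (h1 : ∀ (m : ℕ) (ep e1 J : ℝ), 1 ≤ m → 0 < ep → 0 < e1 → 0 ≤ J →
      ∀ (r : ℕ) (O : Fin r → Xo) (i : Fin r), G.one m ep e1 J r O i ≤ oneE6 m ep e1 J O i + Kc) :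
    OneRT6 G := by
  obtain ⟨B0, hB0, hW⟩ := wkb6_of hC
  refine oneRT6_wkb τ hB0 (fun ep hep hep1 => ?_) h1
  obtain ⟨m0, hm0⟩ := hB ep hep hep1
  exact ⟨m0, fun m hm => ⟨hW par6 par6_good _ m _ _ _ (by linarith) (hm0 m hm), (hm0 m hm).nn⟩⟩

/-- **`OneR6` of a geometry with data `Ob6`** -/
theorem oneR6_of {C : ℝ} (hC : 0 < C) (τ : ℝ) {G : Geo}
    (hB : ∀ ep : ℝ, 0 < ep → ep ≤ 1 / 100 → ∃ m0 : ℕ, ∀ m ≥ m0,
      Ob6 par6 C (fun a => Fil.ne a m) m (4 / 3 * (1 - ep)) (Tb (Real.log m) + τ)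
        (G.B m (4 / 3 * (1 - ep))))
    {Kc : ℝ} (h1 : ∀ (m : ℕ) (ep e1 J : ℝ), 1 ≤ m → 0 < ep → 0 < e1 → 0 ≤ J →
      ∀ (r : ℕ) (O : Fin r → Xo) (i : Fin r), G.one m ep e1 J r O i ≤ oneE6 m ep e1 J O i + Kc) :
    OneR6 G := (oneRT6_of hC τ hB h1).oneR6

end

end PBI.PLX

end
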