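import Pool.Agent.PHK.OneAct6
import Pool.Agent.PLX.PB.PinAct

/-!
# Particle-hole form: the activity of an object with the tent of the current kept

* `curK`: the current `hC` of TARGET-C is small against the sea: `4 π hC ≤ κ (m P)` for large `m`;
* `WKB6 B0 P N m β T1 B`: the bounds by kinds of all objects (`WKB6.of`: from `Ob6`);
* `kb6_actT`: `kb6_act` with the gain `exp (-g)` of the tent;
* **`one_hC6T`**: the one body factor of every object against `act6 * exp (-gT)`, current `hC`.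
-/

set_option autoImplicit false

noncomputable section

open Complex MeasureTheory Set

namespace PHK

open NUP1 NUO NUGC.PLX
open NUGC (tent tent_lip tent_out aC aC_pos)
open PBP.PLX (gT gT_nonneg cur_gT_le exists_M0)

/-! ### the current against the sea -/

/-- the tent is at most linear -/
theorem tent_le6 {D a : ℝ} (hD : 0 ≤ D) (ha : 0 ≤ a) (t : ℝ) :
    tent D a t ≤ a * max (D + 1 - |t|) 0 := by
  rcases le_total (D + 1) |t| with h | h
  · rw [tent_out hD h]
    have := le_max_right (D + 1 - |t|) 0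
    positivity
  · rw [max_eq_left (by linarith)]
    -- a point of modulus `D + 1` on the same side
    obtain ⟨y, hy, hyt⟩ : ∃ y : ℝ, |y| = D + 1 ∧ |t - y| = D + 1 - |t| := by
      rcases le_total 0 t with h0 | h0
      · refine ⟨D + 1, abs_of_nonneg (by linarith), ?_⟩
        rw [abs_of_nonneg h0] at h ⊢
        rw [abs_of_nonpos (by linarith)]
        ring
      · refine ⟨-(D + 1), by rw [abs_neg, abs_of_nonneg (by linarith)], ?_⟩
        rw [abs_of_nonpos h0] at h ⊢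
        rw [abs_of_nonneg (by linarith)]
        ring
    have h1 := tent_lip hD ha t y
    rw [tent_out hD hy.ge, sub_zero, hyt] at h1
    exact (le_abs_self _).trans h1

/-- **the current of TARGET-C is small against the sea** -/
theorem curK {κ : ℝ} (hκ : 0 < κ) {e1 J : ℝ} (he : 0 < e1) (he1 : e1 ≤ 1 / 100) (hJ : 0 ≤ J) :
    ∃ m0 : ℕ, ∀ m : ℕ, m0 ≤ m → ∀ t : ℝ, 4 * Real.pi * hC e1 J m t ≤ κ * (m * NUMF.P t) := by
  have hpi := Real.pi_pos
  have haC := aC_pos
  obtain ⟨X, hX⟩ : ∃ X : ℝ, X = (4 * Real.pi * (aC + J)) / (κ * (7 / 10)) := ⟨_, rfl⟩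
  have hX0 : 0 ≤ X := by rw [hX]; positivity
  have h1 := (Real.tendsto_log_atTop.comp tendsto_natCast_atTop_atTop).eventually_ge_atTop
    (max (160 / 3) (X / e1))
  obtain ⟨m0, hm0⟩ := Filter.eventually_atTop.1 h1
  refine ⟨max m0 1, fun m hm t => ?_⟩
  have hm1 : 1 ≤ m := (le_max_right _ _).trans hm
  have h2 := hm0 m ((le_max_left _ _).trans hm)
  simp only [Function.comp_apply] at h2
  have hL1 : 160 / 3 ≤ Real.log m := (le_max_left _ _).trans h2
  have hL2 : X / e1 ≤ Real.log m := (le_max_right _ _).trans h2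
  have hT : 20 ≤ Tb (Real.log m) := by unfold Tb; (clear * - hL1; linarith)
  have hmP : 0 ≤ (m : ℝ) * NUMF.P t := mul_nonneg (Nat.cast_nonneg _) (P_nonneg6 t)
  rcases le_total ((1 - e1) * Tb (Real.log m)) |t| with ht | ht
  · rw [hC_zero he he1 hT ht, mul_zero]
    positivity
  · -- in the bulk
    have hD := DC_nonneg (m := m) he1 hT
    have a1 := tent_le6 hD haC.le t
    have hcur : NUCUR.cur e1 (Tb (Real.log m)) J t ≤ J := NUCUR.cur_le hJ t
    obtain ⟨y, hy⟩ : ∃ y, y = (1 - e1) * Tb (Real.log m) - |t| := ⟨_, rfl⟩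
    have hy0 : 0 ≤ y := by (clear * - ht hy; linarith)
    have a2 : hC e1 J m t ≤ aC * y + J := by
      have h3 : max (DC e1 m + 1 - |t|) 0 ≤ y := by
        refine max_le ?_ hy0
        unfold DC
        clear * - he he1 hy
        linarith
      have h4 := mul_le_mul_of_nonneg_left h3 haC.le
      unfold hC
      linarith
    have a3 := dens_ge hm1 t
    have e1' : Real.exp (8 / 3 * (Tb (Real.log m) - |t|)) =
        Real.exp (8 / 3 * (e1 * Tb (Real.log m))) * Real.exp (8 / 3 * y) := by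
      rw [← Real.exp_add, hy]
      congr 1
      ring
    have e2' : 8 / 3 * (e1 * Tb (Real.log m)) = e1 * Real.log m := by
      unfold Tb
      ring
    have a4 : X ≤ Real.exp (e1 * Real.log m) := by
      rw [div_le_iff₀ he] at hL2
      have := Real.add_one_le_exp (e1 * Real.log m)
      clear * - he he1 hL2 this
      linarith
    have a5 : 1 + y ≤ Real.exp (8 / 3 * y) := by
      have := Real.add_one_le_exp (8 / 3 * y)
      clear * - ht hy this
      linarith
    rw [e1', e2'] at a3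
    have a6 : X * (1 + y) ≤ Real.exp (e1 * Real.log m) * Real.exp (8 / 3 * y) :=
      mul_le_mul a4 a5 (by (clear * - he he1 ht hy; linarith)) (Real.exp_pos _).le
    have a7 : aC * y + J ≤ (aC + J) * (1 + y) := by (clear * - haC hJ hy0; nlinarith [mul_nonneg hJ hy0])
    calc 4 * Real.pi * hC e1 J m t ≤ 4 * Real.pi * ((aC + J) * (1 + y)) :=
          mul_le_mul_of_nonneg_left (a2.trans a7) (by positivity)
      _ = κ * (7 / 10 * (X * (1 + y))) := by
          rw [hX]
          field_simp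
      _ ≤ κ * (m * NUMF.P t) := by
          refine mul_le_mul_of_nonneg_left (le_trans ?_ a3) hκ.le
          clear * - a6
          linarith

/-! ### bounds by kinds of all objects -/

section
attribute [local instance] NUSea.seaP

/-- **bounds by kinds of the weights of the objects** -/
def WKB6 (B0 : ℝ) (P : Par6) (N : Bool → ℕ) (m : ℕ) (β T1 : ℝ) (B : OB) : Prop :=
  ∀ x : Xo, KB6 B0 P N m β T1 (ob6 B P x * Real.exp (mfo6 (fun b => (N b : ℝ)) (parts6 P x)))
    (sp x) (k6 x) (ht x)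

theorem WKB6.mono {B0 B1 : ℝ} (h : B0 ≤ B1) {P : Par6} {N : Bool → ℕ} {m : ℕ} {β T1 : ℝ} {B : OB}
    (hB : WKB6 B0 P N m β T1 B) : WKB6 B1 P N m β T1 B := fun x => (hB x).mono h

/-- from the data -/
theorem wkb6_of {C : ℝ} (hC : 0 < C) : ∃ B0 : ℝ, 0 < B0 ∧ ∀ (P : Par6), GoodP6 P →
    ∀ (N : Bool → ℕ) (m : ℕ) (β T1 : ℝ) (B : OB), β ≤ 4 / 3 → Ob6 P C N m β T1 B →
      WKB6 B0 P N m β T1 B := by
  obtain ⟨B0, h0, h⟩ := wZ6_KB hC
  refine ⟨B0, h0, fun P hP N m β T1 B hβ hB x => ?_⟩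
  rw [← cl6_mfo6]
  exact h P hP N m β T1 B hβ hB x

end

/-! ### the gain of the tent -/

/-- **from the bounds by kinds to the activity, the gain `g` of the tent kept** -/
theorem kb6_actT (K0 Kh τ : ℝ) {B0 : ℝ} (hB0 : 0 < B0) : ∃ C : ℝ, 0 < C ∧ ∀ (k m : ℕ), 3 ≤ m →
    ∀ ep : ℝ, 0 < ep → ep ≤ 1 / 100 → ∀ e1 J T' : ℝ, Tb (Real.log m) / (1 - ep) ≤ T' →
    ∀ (r : ℕ) (q : Kd6) (t : ℝ) (P : Par6), GoodP6 P → ∀ (N : Bool → ℕ) (a : Bool),
      (m : ℝ) ≤ 2 * N a → ∀ W h g : ℝ, 0 ≤ W → 0 ≤ g → g / (2 * Real.pi) ≤ h →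
      (|t| ≤ (1 - 3 * e1) * Tb (Real.log m) → J + g / (2 * Real.pi) ≤ h) →
      2 * Real.pi * h + g ≤ pH6 / 4 * (m * NUMF.P t) + Kh →
      KB6 B0 P N m (4 / 3 * (1 - ep)) (Tb (Real.log m) + τ) W a q t →
        W * Real.exp (-(2 * Real.pi * wind6 q * h) + exc T' t + K0) ≤
          act6 C (7 / 10 * (pH6 / 4)) (1 / 5) 6 τ k (Real.log m) ep e1 J r q t * Real.exp (-g) := by
  have hpi := Real.pi_pos
  obtain ⟨C, hC, H⟩ := kb6_act K0 Kh τ hB0
  refine ⟨C, hC, fun k m hm ep hep hep1 e1 J T' hT' r q t P hP N a hN W h g hW0 hg hgh hhJ hhP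
    hW => ?_⟩
  have hgc : 2 * Real.pi * (g / (2 * Real.pi)) = g := by field_simp
  obtain ⟨g', hg'⟩ : ∃ g', g' = g / (2 * Real.pi) := ⟨_, rfl⟩
  rw [← hg'] at hgh hhJ hgc
  have hg0 : 0 ≤ g' := by rw [hg']; positivity
  -- the two currents
  have k1 := H k m hm ep hep hep1 e1 J T' hT' r q t P hP N a hN W (h - g') (by (clear * - hgh; linarith))
    (fun ht => by (clear * - hhJ ht; linarith [hhJ ht])) (by (clear * - hg hhP hgc; linarith)) hW
  have k2 := H k m hm ep hep hep1 e1 J T' hT' r q t P hP N a hN W (h + g') (by (clear * - hgh hg0; linarith))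
    (fun ht => by linarith [hhJ ht]) (by (clear * - hhP hgc; linarith)) hW
  have fin : ∀ v : ℝ, -(2 * Real.pi * wind6 q * h) ≤ v + -g →
      W * Real.exp (v + exc T' t + K0) ≤
        act6 C (7 / 10 * (pH6 / 4)) (1 / 5) 6 τ k (Real.log m) ep e1 J r q t →
      W * Real.exp (-(2 * Real.pi * wind6 q * h) + exc T' t + K0) ≤
        act6 C (7 / 10 * (pH6 / 4)) (1 / 5) 6 τ k (Real.log m) ep e1 J r q t * Real.exp (-g) := by
    intro v hv hk
    calc W * Real.exp (-(2 * Real.pi * wind6 q * h) + exc T' t + K0)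
        ≤ W * Real.exp ((v + exc T' t + K0) + -g) :=
          mul_le_mul_of_nonneg_left (Real.exp_le_exp.2 (by (clear * - hv; linarith))) hW0
      _ = W * Real.exp (v + exc T' t + K0) * Real.exp (-g) := by rw [Real.exp_add]; ring
      _ ≤ _ := mul_le_mul_of_nonneg_right hk (Real.exp_pos _).le
  cases q with
  | L => exact fin _ (by simp only [wind6]; linarith) k1
  | T => exact fin _ (by simp only [wind6]; (clear * - hgc; linarith)) k1
  | E => exact fin _ (by simp only [wind6]; linarith) k1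
  | F => exact fin _ (by simp only [wind6]; linarith) k1
  | H1 => exact fin _ (by simp only [wind6]; linarith) k2
  | H2 => exact fin _ (by simp only [wind6]; linarith) k2

/-! ### the current `hC` -/

/-- the current `hC` (tent and plateau) contains the gain -/
theorem hC_gain6 {e1 J : ℝ} (he : 0 < e1) (he1 : e1 ≤ 1 / 100) (hJ : 0 ≤ J) {m : ℕ}
    (hT : 2 ≤ e1 * Tb (Real.log m)) :
    (∀ t, gT e1 (Real.log m) t / (2 * Real.pi) ≤ hC e1 J m t) ∧
    ∀ t, |t| ≤ (1 - 3 * e1) * Tb (Real.log m) →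
      J + gT e1 (Real.log m) t / (2 * Real.pi) ≤ hC e1 J m t := by
  have hTp : 0 < Tb (Real.log m) := by (clear * - he1 hT he; nlinarith)
  refine ⟨fun t => ?_, fun t ht => ?_⟩
  · have h1 := cur_gT_le (J := J) he he1 hT t
    have h2 := NUCUR.cur_nonneg (e := e1) (T := Tb (Real.log m)) hJ t
    linarith
  · have h1 := cur_gT_le (J := J) he he1 hT t
    have h2 := NUCUR.cur_eq he hTp (ht.trans (by (clear * - he he1 hT; nlinarith)) : |t| ≤ (1 - 2 * e1) * Tb (Real.log m))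
      (J := J)
    clear * - h1 h2
    linarith

section
attribute [local instance] NUSea.seaP

/-- **the one body factor of every object, current `hC`, the gain of the tent kept** -/
theorem one_hC6T (K0 τ : ℝ) {B0 : ℝ} (hB0 : 0 < B0) : ∃ A : ℝ, 0 < A ∧
    ∀ e1 : ℝ, 0 < e1 → e1 ≤ 1 / 100 → ∀ J : ℝ, 0 ≤ J → ∃ m1 : ℕ, 3 ≤ m1 ∧ ∀ m : ℕ, m1 ≤ m →
    ∀ k : ℕ, ∀ ep : ℝ, 0 < ep → ep ≤ 1 / 100 → ∀ T' : ℝ, Tb (Real.log m) / (1 - ep) ≤ T' →
    ∀ (P : Par6), GoodP6 P → ∀ (N : Bool → ℕ), (∀ a, (m : ℝ) ≤ 2 * N a) → ∀ B : OB, B.Nn →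
      WKB6 B0 P N m (4 / 3 * (1 - ep)) (Tb (Real.log m) + τ) B → ∀ (r : ℕ) (x : Xo),
        ob6 B P x * Real.exp (mfo6 (fun b => (N b : ℝ)) (parts6 P x) -
            2 * Real.pi * wind6 (k6 x) * hC e1 J m (ht x) + exc T' (ht x) + K0) ≤
          act6 A (7 / 10 * (pH6 / 4)) (1 / 5) 6 τ k (Real.log m) ep e1 J r (k6 x) (ht x) *
            Real.exp (-gT e1 (Real.log m) (ht x)) := by
  have hpi := Real.pi_pos
  obtain ⟨A, hA, H⟩ := kb6_actT K0 0 τ hB0
  refine ⟨A, hA, fun e1 he he1 J hJ => ?_⟩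
  obtain ⟨m2, hm2⟩ := curK (κ := pH6 / 4) (by have := pH6_pos; linarith) he he1 hJ
  obtain ⟨m3, hm3⟩ := exists_M0 he
  refine ⟨max (max m2 m3) 3, le_max_right _ _, fun m hm k ep hep hep1 T' hT' P hP N hN B hBn hB r x =>
    ?_⟩
  simp only [max_le_iff] at hm
  obtain ⟨⟨g2, g3⟩, g1⟩ := hm
  obtain ⟨a1, a2⟩ := hC_gain6 (J := J) he he1 hJ (hm3 m g3).1
  have a3 := hm2 m g2 (ht x)
  have b1 := a1 (ht x)
  have hg := gT_nonneg e1 (Real.log m) (ht x)
  have b2 : gT e1 (Real.log m) (ht x) ≤ 2 * Real.pi * hC e1 J m (ht x) := by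
    rw [div_le_iff₀ (by positivity)] at b1
    linarith
  have hW0 : 0 ≤ ob6 B P x * Real.exp (mfo6 (fun b => (N b : ℝ)) (parts6 P x)) :=
    mul_nonneg (ob6_nonneg hBn P x) (Real.exp_pos _).le
  have key := H k m g1 ep hep hep1 e1 J T' hT' r (k6 x) (ht x) P hP N (sp x) (hN _) _
    (hC e1 J m (ht x)) (gT e1 (Real.log m) (ht x)) hW0 hg b1 (a2 (ht x)) (by (clear * - a3 b2; linarith)) (hB x)
  refine le_trans (le_of_eq ?_) key
  rw [mul_assoc (ob6 B P x), ← Real.exp_add]
  congr 2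
  ring

end

end PHK

end
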