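import Pool.Agent.PHK.LinA
import Pool.Agent.PHK.GL6
import Pool.Agent.PLX.KPair

/-!
# (P): two letters over the rows `0`, uniformly in the heights

Sea `NUSea.seaP`, `ends1`.

* `tent_up`, **`hC_up`**: `hC e1 J m t ≤ aC max (Tb (log m) - |t|) 0 + 4 aC + J`; `lin_pl6`;
* **`cur_at6`**: the atoms of a letter on the curve of `etaC` are at most `mN6 + O(1)`;
* **`gOk_sel6`**, **`s4R_sel6`**, **`oneR_sel6`**: every selection of `GL6 (G06 ex F0)`.
-/

set_option autoImplicit false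
set_option linter.unusedSectionVars false

noncomputable section

open Complex MeasureTheory Set Filter Topology
open PLX (Fil Ends)

namespace PBR.PLX

open PHK
open NUGC (aC aC_pos tent l3_tent)
open NUCR (j3_sub)
open NUGC.PLX (hC hC_nonneg DC DC_le DC_nonneg etaC etaC' OB)
open NUO (Xo pA Tb TW)
open NUMF (l l_pos)
open NURow (HT)
open PBH.PLX (Atm AtOk HS)
open PBV.PLX (mHS)
open PotH.PLX (sN oneEH6)
open PBO.PLX (Geo GOk6 S4R6 OneR6)

/-! ### the current -/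

theorem tent_up {D a : ℝ} (hD : 0 ≤ D) (ha : 0 ≤ a) (t : ℝ) :
    tent D a t ≤ a * max (D - |t|) 0 + 4 * a := by
  have h1 := j3_sub D 0 a a t
  rw [l3_tent hD, abs_of_nonneg ha, abs_le] at h1
  unfold NUGC.tent
  linarith [h1.2]

attribute [local instance] NUSea.seaP

/-- **upper bound of the current** -/
theorem hC_up {e1 J : ℝ} {m : ℕ} (he : 0 ≤ e1) (he1 : e1 ≤ 1 / 100) (hJ : 0 ≤ J)
    (hT : 20 ≤ Tb (Real.log m)) (t : ℝ) :
    hC e1 J m t ≤ aC * max (Tb (Real.log m) - |t|) 0 + (4 * aC + J) := by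
  have h1 := tent_up (DC_nonneg he1 hT) aC_pos.le t
  have h2 := NUCUR.cur_le (e := e1) (T := Tb (Real.log m)) hJ t
  have h3 : max (DC e1 m - |t|) 0 ≤ max (Tb (Real.log m) - |t|) 0 :=
    max_le_max (by linarith [DC_le (m := m) he]) le_rfl
  have h4 := mul_le_mul_of_nonneg_left h3 aC_pos.le
  unfold NUGC.PLX.hC
  linarith

/-- **the linear term of the atoms against `pl6`** -/
theorem lin_pl6 {e1 J : ℝ} (he : 0 ≤ e1) (he1 : e1 ≤ 1 / 100) (hJ : 0 ≤ J) {m : ℕ}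
    (hT : 20 ≤ Tb (Real.log m)) (t : HT) (u : Ch6) (τ : ℝ) :
    -(2 * totA t u * hC e1 J m τ) ≤ pl6 m t u τ + 32 * l * (4 * aC + J) := by
  have hl := l_pos
  have ha := aC_pos
  have h0 := hC_nonneg (m := m) he1 hJ hT τ
  have h1 := hC_up he he1 hJ hT τ
  have hc : 0 ≤ 32 * l * (4 * aC + J) := by positivity
  unfold totA pl6
  by_cases h : t = .H ∧ u = (false, true)
  · rw [if_pos h, if_pos h]
    have e : 32 * l * aC = 16 / 3 := by
      unfold NUMF.l NUGC.aC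
      have := Real.pi_pos
      field_simp
      norm_num
    have h2 := mul_le_mul_of_nonneg_left h1 (by positivity : 0 ≤ 32 * l)
    have e2 : 32 * l * (aC * max (Tb (Real.log m) - |τ|) 0 + (4 * aC + J)) =
        32 * l * aC * max (Tb (Real.log m) - |τ|) 0 + 32 * l * (4 * aC + J) := by ring
    rw [e2, e] at h2
    linarith
  · rw [if_neg h, if_neg h]
    by_cases h' : t = .H ∧ u = (true, true)
    · rw [if_pos h']
      have : 0 ≤ 2 * (8 * l) * hC e1 J m τ := by positivity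
      linarith
    · rw [if_neg h']
      linarith

variable [Fil]

section gen

variable [Ends]

/-- **the atoms of a letter on the curve of `etaC`** -/
theorem cur_at6 {e1 J : ℝ} (he : 0 < e1) (he1 : e1 ≤ 1 / 100) (hJ : 0 ≤ J) : ∃ CH : ℝ, ∃ m0 : ℕ,
    ∀ m ≥ m0, ∀ (t : HT) (u : Ch6) (σ : Bool) (τ : ℝ),
      (∀ a, Integrable fun x => sN m a * NUSea.P x *
        HS (at6 t u σ τ) (fun a => Fil.cv a (etaC e1 J m m)) a x) ∧
      ∑ a, ∫ x, sN m a * NUSea.P x * HS (at6 t u σ τ) (fun a => Fil.cv a (etaC e1 J m m)) a x ≤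
        mN6 (sN m) m σ t u τ + CH := by
  obtain ⟨Cc, hCc, Cb, m1, hcrv⟩ := PBO.PLX.crvP_etaC (J := J) he he1 hJ
  obtain ⟨C, hC, H⟩ := int_at6 (e1 := e1) (Cc := Cc) he (by linarith) (by linarith)
  refine ⟨C + 32 * l * (4 * aC + J), m1, fun m hm t u σ τ => ?_⟩
  obtain ⟨hm1, hT, hc, -⟩ := hcrv m hm
  obtain ⟨i1, h2⟩ := H m _ _ hm1 hc t u σ τ
  refine ⟨i1, ?_⟩
  have hm0 : (0 : ℝ) < m := by exact_mod_cast hm1
  have h3 := lin_pl6 he.le he1 hJ hT t u τ
  rw [NUGC.PLX.mul_etaC hm0] at h2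
  have h4 := (abs_le.1 h2).2
  unfold mN6
  linarith

end gen

section ends

attribute [local instance] PLX.ends1

variable {n0 : ℕ} {h0 : ℝ} {ex : List ℂ} {F0 : ℕ → Bool → ℂ → ℂ}

/-- **two letters over the rows `0`**, every selection -/
theorem gOk_sel6 (hh : 0 ≤ h0) (hl : ex.length ≤ n0) (hex : ∀ w ∈ ex, |w.re| ≤ l / 5 ∧ |w.im| ≤ h0)
    (i : ℕ → Ix6) : GOk6 (Geo.sel (GL6 (G06 ex F0)) i) := by
  have hl0 := l_pos
  refine gOk_0 (n := 16 + 16) (K := 3) (δ := l / 4) (F0 := F0)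
    (x := fun m => atK6 (i m).1.1 (i m).1.2 (i m).2.1 (i m).2.2)
    (dV := fun m => dvK6 (i m).1.1 (i m).1.2 (i m).2.1 (i m).2.2) (by norm_num) (by positivity)
    (by linarith) hh hl hex (fun m => atK6_ok _ _ _ _)
    (fun m a η _ t => (dvK6_line _ _ _ _ a (fun _ => η) t).le)
    (fun m β => GL6_nn (fun m β => G06_nn m β) (i m) m β) (fun m hm β => rfl)
    (fun e1 he he1 J hJ => ?_)
    ⟨0, le_rfl, fun ep _ _ e1 _ _ J _ => ⟨0, fun m _ r O j => ?_⟩⟩ ⟨0, le_rfl, fun m g => ?_⟩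
  · obtain ⟨CH, m0, H⟩ := cur_at6 he he1 hJ
    refine ⟨CH + CH, m0, fun m hm => ?_⟩
    obtain ⟨i1, h1⟩ := H m hm (i m).1.1 (i m).2.1.1 true (i m).2.2.1
    obtain ⟨i2, h2⟩ := H m hm (i m).1.2 (i m).2.1.2 false (i m).2.2.2
    have e : ∀ a : Bool, ∫ t, sN m a * NUSea.P t * HS (atK6 (i m).1.1 (i m).1.2 (i m).2.1 (i m).2.2)
        (fun a => Fil.cv a (etaC e1 J m m)) a t =
        (∫ t, sN m a * NUSea.P t * HS (at6 (i m).1.1 (i m).2.1.1 true (i m).2.2.1)
          (fun a => Fil.cv a (etaC e1 J m m)) a t) +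
        ∫ t, sN m a * NUSea.P t * HS (at6 (i m).1.2 (i m).2.1.2 false (i m).2.2.2)
          (fun a => Fil.cv a (etaC e1 J m m)) a t := by
      intro a
      rw [← integral_add (i1 a) (i2 a)]
      refine integral_congr_ae (ae_of_all _ fun t => ?_)
      have q1 := HS_append (at6 (i m).1.1 (i m).2.1.1 true (i m).2.2.1)
        (at6 (i m).1.2 (i m).2.1.2 false (i m).2.2.2) (fun a => Fil.cv a (etaC e1 J m m)) a t
      have q2 : HS (atK6 (i m).1.1 (i m).1.2 (i m).2.1 (i m).2.2)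
          (fun a => Fil.cv a (etaC e1 J m m)) a t =
        HS (fun b => Fin.append (at6 (i m).1.1 (i m).2.1.1 true (i m).2.2.1 b)
          (at6 (i m).1.2 (i m).2.1.2 false (i m).2.2.2 b)) (fun a => Fil.cv a (etaC e1 J m m)) a t :=
        rfl
      beta_reduce
      rw [q2, q1]
      ring
    have e3 : (Geo.sel (GL6 (G06 ex F0)) i).EM m = NUSea.PLX.MF (sN m) +
        (mN6 (sN m) m true (i m).1.1 (i m).2.1.1 (i m).2.2.1 +
          mN6 (sN m) m false (i m).1.2 (i m).2.1.2 (i m).2.2.2) := rfl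
    rw [e3, Fintype.sum_bool, e, e]
    rw [Fintype.sum_bool] at h1 h2
    linarith
  · rw [add_zero]
    exact le_rfl
  · rw [seaG_mfs, add_zero]
    exact le_rfl

/-- **the gas in the presence of objects and groups, two letters over the rows `0`** -/
theorem s4R_selX6 (hh : 0 ≤ h0) (hl : ex.length ≤ n0) (hex : ∀ w ∈ ex, |w.re| ≤ l / 5 ∧ |w.im| ≤ h0)
    (i : ℕ → Ix6) : S4R6 (Geo.sel (GL6 (G06 ex F0)) i) := PBO.PLX.s4R6 (gOk_sel6 hh hl hex i)

/-- **hypothesis `h4` of `clsR6`** -/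
theorem s4R_sel6 (i : ℕ → Ix6) : S4R6 (Geo.sel (GL6 (G06 [I, -I] F0)) i) :=
  s4R_selX6 (n0 := 2) zero_le_one le_rfl exI_pt i

/-- the neutral factors on the lines of the objects -/
theorem spG_dvK6 (t t' : HT) (u : Ch6 × Ch6) (y : ℝ × ℝ) : PBK.PLX.SpG (kV6 * kV6) (dvK6 t t' u y) :=
  ⟨fun _ hj a s => dvK6_le (ep := 1 / 100) le_rfl (upL_dom hj s) t t' u y a,
    fun _ hj a s => dvK6_inv_le (ep := 1 / 100) le_rfl (loL_dom hj s) t t' u y a⟩

/-- **the one body bounds, two letters over the rows `0`**, every selection -/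
theorem oneR_selX6 (h2 : PtL 2 2 ex) (hF : ∀ k : ℕ, 1 ≤ k → F0 k = F0K k) (i : ℕ → Ix6) :
    OneR6 (Geo.sel (GL6 (G06 ex F0)) i) := by
  have hk := kV6_pos
  refine oneR6_0 (g := fun m => dvK6 (i m).1.1 (i m).1.2 (i m).2.1 (i m).2.2) h2
    (Gc := kV6 * kV6) (by positivity) (fun m a u => (dvK6_pos _ _ _ _ _ _).le)
    (fun m => spG_dvK6 _ _ _ _) (fun m hm β => ?_) (Kc := 0) fun m ep e1 J _ _ _ _ r O j => ?_
  · rw [← hF m hm]
    rfl
  · rw [add_zero]
    exact le_rfl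

/-- **hypothesis `h1` of `clsR6`** -/
theorem oneR_sel6 (hF : ∀ k : ℕ, 1 ≤ k → F0 k = F0K k) (i : ℕ → Ix6) :
    OneR6 (Geo.sel (GL6 (G06 [I, -I] F0)) i) :=
  oneR_selX6 (PHK.PtL.II le_rfl one_le_two) hF i

end ends

end PBR.PLX

end
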