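import Pool.Agent.PHK.Oth0R
import Pool.Agent.PHK.AsmKR
import Pool.Agent.PHK.SelG

/-!
# (P): the functionals with moduli of the classes at rows `0`, ends `0`

* **`faBd06`**: the bounds of the functionals with moduli of all choices, from the stability of (P);
* **`sumBd0R`**: the sums over the numbers from the class formulas.
-/

set_option autoImplicit false
set_option linter.unusedSectionVars false

noncomputable section

open Complex MeasureTheory Finset
open scoped ENNReal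
open PLX (Fil Ends)

namespace PBO.PLX

open NUO NUP1 NUCR NURow NUP1.Leg NUGC NUGC.PLX
open PHK
open NUGC.PLX (beC)
open PBR.PLX (Ch6 okC6 G06 GL6 clsR6 s4R_sel6 oneR_sel6 s4R_GI6 oneR_G06 G06_nn G06_bs6 F0K F00_gO)
open PBTV.PLX (gV6 meas_gV6)
open _root_.Pool.Agent.PLX (FFth)

attribute [local instance] NUSea.seaP PLX.ends1

variable [Fil]

/-- **the bounds of the functionals with moduli at rows `0`** -/
theorem faBd06 (hS : StabProd6 par6) : FaBd6 (T06 F0K) (G06 [I, -I] F0K).EM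
    (G06 [I, -I] F0K).MF fun ep m => (K06 ep m).Z := by
  obtain ⟨C3, -, h3⟩ := PHK.spec_pin6
  intro ρ hρ
  obtain ⟨κ0, hκ0, hκ1, H⟩ := clsR6 (G := G06 [I, -I] F0K) (fun m β => G06_nn m β) hS h3
    s4R_sel6 (oneR_sel6 fun k _ => rfl) s4R_GI6
    (oneR_G06 (PHK.PtL.II le_rfl one_le_two) fun k _ => rfl) hρ
  refine ⟨κ0, hκ0, hκ1, fun ep hep hep1 e1 he1 he11 J hJ hJ1 => ?_⟩
  obtain ⟨Cst, hC, m0, H⟩ := H ep hep hep1 e1 he1 he11 J hJ hJ1
  have hep2 : ep ≤ 1 / 100 := hep1.trans hκ1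
  obtain ⟨b1, b2, b3⟩ := beC_bd6 hep hep2
  refine ⟨Cst, hC, max m0 2, fun m hm => ?_⟩
  obtain ⟨g0, g1⟩ := max_le_iff.1 hm
  obtain ⟨hcur, H⟩ := H m g0
  have hl := NUP1.Bd.l_pos
  have hre : ∀ w ∈ [I, -I], |w.re| ≤ l / 2 := by
    intro w hw
    simp only [List.mem_cons, List.not_mem_nil, or_false] at hw
    rcases hw with rfl | rfl
    · rw [I_re, abs_zero]
      positivity
    · rw [neg_re, I_re, neg_zero, abs_zero]
      positivity
  have hB := G06_bs6 (F0 := F0K) (ex := [I, -I]) g1 b3 b2 (meas_gV6 m true) (meas_gV6 m false) hre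
    (F00_gO m).symm (P := par6) hep hep2
  obtain ⟨H1, H2⟩ := H (K06 ep m).Z _ _ {0} (by rw [K06_Z]; exact hB) fun g => rfl
  exact ⟨hcur, H1, H2⟩

/-- **the sums over the numbers at rows `0`** from the class formulas -/
theorem sumBd0R (hS : StabProd6 par6) (hFF : FFth) (h : ClsA06) :
    SumBd6 (T06 F0K) (G06 [I, -I] F0K).EM (G06 [I, -I] F0K).MF K06 kD06 cw06 :=
  sumBd06 (faBd06 hS) hFF h

end PBO.PLX

end
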