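import Pool.Agent.PHK.Oth06
import Pool.Agent.PHK.LetW
import Pool.Agent.PHK.LetD

/-!
# (P): the inputs of `oth06` from the functionals with moduli and from the factors of the letters

* `faS6`, `faD6`: the functional with moduli of a choice, of D1, D1', summed over the numbers of quanta, on the
  explicit curves; **`cls_faS6`**: the sum over the numbers of the moduli of a class at fixed half quanta;
* `FaBd6`: the bounds of the `faS6`; **`sumBd6_of`**: `SumBd6` from `FaBd6` and the class formulas;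
* `sm_Ag`: the factor `exp (- m Ag a τ)` is small in the bulk; `ltS`; **`clOk6_of`**: `ClOk6` from the own
  and direct factors of the letters.
-/

set_option autoImplicit false
set_option linter.unusedSectionVars false

noncomputable section

open Complex MeasureTheory Finset
open scoped ENNReal
open PLX (Fil Ends)

namespace PBO.PLX

open NUO NUP1 NUCR NUP1S NUP1S.Ab NUP1S.AbC NUP1S.AbG NURow NUP1.Leg NUGC NUGC.PLX
open PHK
open PBR.PLX (Ch6 okC6 aXv aYv obV6 ClsV6 ClsD6 YV6 YD6)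
open PBF.PLX (Ins Crs)

/-! ### the functionals with moduli -/

/-- a bounded insertion -/
theorem FA6_scale [Fil] {Z : Bool → Option O3 → ℂ → ℂ} {P : Par6} {n n' : ℕ} {η η' : Crs} {Ψ : Ins}
    {b : ℝ≥0∞} (hb : b ≠ ⊤) (h : ∀ r O a a' x, ‖Ψ r O a a' x‖ₑ ≤ b) :
    FA6 Z P n n' η η' Ψ ≤ b * FA6 Z P n n' η η' (fun _ _ _ _ _ => 1) := by
  unfold FA6
  rw [mul_sum]
  refine Finset.sum_le_sum fun r _ => ?_
  rw [mul_left_comm]
  refine mul_le_mul' le_rfl ?_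
  rw [← lintegral_const_mul' _ _ hb]
  exact lintegral_mono fun O => trA6_scale hb h r O

variable [Fil] [Ends]

/-- **the functional with moduli of a choice**, summed over the numbers -/
def faS6 [NUSea.Sea] (X : Bool → Option O3 → ℂ → ℂ) (e1 J : ℝ) (m : ℕ) (t t' : HT) (w w' : ℂ)
    (u : Ch6 × Ch6) : ℝ≥0∞ :=
  ∑ n ∈ range (2 * m + 1), if u.1.1.toNat ≤ n + aXv (Fil.xe m) t t' u ∧
      u.2.1.toNat ≤ n + aYv (Fil.xe m) t t' u then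
    FA6 (YV6 X t t' w w' u) par6 (n + aXv (Fil.xe m) t t' u - u.1.1.toNat)
      (n + aYv (Fil.xe m) t t' u - u.2.1.toNat) (fun _ _ => etaC e1 J m m)
      (fun _ _ => etaC' e1 J m m) (fun _ _ _ _ _ => 1) else 0

/-- **the functional with moduli of D1, D1'**, summed over the numbers -/
def faD6 [NUSea.Sea] (X : Bool → Option O3 → ℂ → ℂ) (e1 J : ℝ) (m : ℕ) (o : Bool) (w : ℂ) : ℝ≥0∞ :=
  ∑ n ∈ range (2 * m + 1), FA6 (YD6 X o w) par6 n (n + Fil.xe m) (fun _ _ => etaC e1 J m m)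
    (fun _ _ => etaC' e1 J m m) (fun _ _ _ _ _ => 1)

/-- **the sum over the numbers of the moduli of a class** at fixed half quanta -/
theorem cls_faS6 [NUSea.Sea] {X : Bool → Option O3 → ℂ → ℂ} {ep e1 J : ℝ} {m : ℕ} {t t' : HT}
    {w w' : ℂ} {cw : Ch6 × Ch6 → ℝ} {Zn : ℕ → ℂ}
    (hcur : CurB ep (etaC e1 J m m) (etaC' e1 J m m))
    (hZ : ClsV6 X par6 ep (Fil.xe m) t t' w w' cw Zn) :
    ∑ n ∈ range (2 * m + 1), ‖Zn n‖ₑ ≤ ∑ u, ENNReal.ofReal (cw u) * faS6 X e1 J m t t' w w' u := by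
  have h1 : ∀ n, ‖Zn n‖ₑ ≤ ∑ u : Ch6 × Ch6, ENNReal.ofReal (cw u) *
      (if u.1.1.toNat ≤ n + aXv (Fil.xe m) t t' u ∧ u.2.1.toNat ≤ n + aYv (Fil.xe m) t t' u then
        FA6 (YV6 X t t' w w' u) par6 (n + aXv (Fil.xe m) t t' u - u.1.1.toNat)
          (n + aYv (Fil.xe m) t t' u - u.2.1.toNat) (fun _ _ => etaC e1 J m m)
          (fun _ _ => etaC' e1 J m m) (fun _ _ _ _ _ => 1) else 0) := by
    intro n
    obtain ⟨Ψ, hΨ, hn⟩ := hZ (fun _ _ _ => etaC e1 J m m) (fun _ _ _ => etaC' e1 J m m)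
      (fun _ _ _ => hcur) n
    rw [hn]
    refine (enorm_sum_le _ _).trans (Finset.sum_le_sum fun u _ => ?_)
    split_ifs with hm
    · refine (FF6_le _).trans (FA6_scale ENNReal.ofReal_ne_top fun r O a a' z => ?_)
      rw [← ofReal_norm]
      exact ENNReal.ofReal_le_ofReal (hΨ u r O a a' z)
    · rw [enorm_zero]
      exact zero_le
  refine (Finset.sum_le_sum fun n _ => h1 n).trans (le_of_eq ?_)
  rw [Finset.sum_comm]
  refine Finset.sum_congr rfl fun u _ => ?_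
  rw [← Finset.mul_sum]
  rfl

/-- the same for D1, D1' -/
theorem cls_faD6 [NUSea.Sea] {X : Bool → Option O3 → ℂ → ℂ} {ep e1 J : ℝ} {m : ℕ} {o : Bool}
    {w : ℂ} {Zn : ℕ → ℂ} (hcur : CurB ep (etaC e1 J m m) (etaC' e1 J m m))
    (hZ : ClsD6 X par6 ep (Fil.xe m) o w Zn) :
    ∑ n ∈ range (2 * m + 1), ‖Zn n‖ₑ ≤ faD6 X e1 J m o w := by
  refine Finset.sum_le_sum fun n _ => ?_
  rw [hZ (fun _ _ => etaC e1 J m m) (fun _ _ => etaC' e1 J m m) (fun _ _ => hcur) n]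
  exact FF6_le _

/-- **the bounds of the functionals with moduli** of all choices, of D1, D1' -/
def FaBd6 [NUSea.Sea] (T : LtS) (EM : ℕ → ℝ) (MF : ℕ → Bool → NUSp.Cl → ℂ → ℝ)
    (X : ℝ → ℕ → Bool → Option O3 → ℂ → ℂ) : Prop :=
  ∀ ρ : ℝ, 0 < ρ → ∃ κ0 : ℝ, 0 < κ0 ∧ κ0 ≤ 1 / 100 ∧ ∀ ep : ℝ, 0 < ep → ep ≤ κ0 →
    ∀ e1 : ℝ, 0 < e1 → e1 ≤ κ0 → ∀ J : ℝ, 0 ≤ J → Real.exp (-(2 * Real.pi * J)) ≤ κ0 →
    ∃ Cst : ℝ, 0 ≤ Cst ∧ ∃ m0 : ℕ, ∀ m : ℕ, m0 ≤ m →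
      CurB ep (etaC e1 J m m) (etaC' e1 J m m) ∧
      (∀ (t t' : HT) (u : Ch6 × Ch6), okC6 t u.1 → okC6 t' u.2 → ∀ y : ℝ × ℝ,
        faS6 (X ep m) e1 J m t t' (vl (htL t) y.1) (vl (htL t') y.2) u ≤
          ENNReal.ofReal (QL6 T ep e1 J m (Cst * (m : ℝ) ^ ρ * Real.exp (EM m)) t t' y u)) ∧
      (∀ (o : Bool) (y : ℝ), faD6 (X ep m) e1 J m o (vl (-(11 / 4) * l) y) ≤
        ENNReal.ofReal (PBQ.PLX.QGD MF m ep e1 J (Cst * (m : ℝ) ^ ρ * Real.exp (EM m)) o y))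

/-- **the class formulas** of a family of kernels, weights `cw` -/
structure ClsF6 (K : ℝ → ℕ → PBQ.PLX.KD) (kD : ℝ → ℕ → Bool → ℂ → ℂ)
    (cw : ℝ → ℕ → HT → HT → ℝ × ℝ → Ch6 × Ch6 → ℝ) : Prop where
  cls : ∀ ep : ℝ, 0 < ep → ep ≤ 1 / 100 → ∃ m0 : ℕ, ∀ m ≥ m0, ∀ t t' : HT, ∀ᵐ y : ℝ × ℝ,
    ClsV6 (K ep m).Z par6 ep (Fil.xe m) t t' (vl (htL t) y.1) (vl (htL t') y.2) (cw ep m t t' y)
      (zPt6 (K ep m) m t t' y)
  clsW : ∀ ep : ℝ, 0 < ep → ep ≤ 1 / 100 → ∃ m0 : ℕ, ∀ m ≥ m0, ∀ y : ℝ × ℝ,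
    ClsV6 (K ep m).Z par6 ep (Fil.xe m) .W .W (vl (htL .W) y.1) (vl (htL .W) y.2)
      (cw ep m .W .W y) (zPt6 (K ep m) m .W .W y)
  clsD : ∀ ep : ℝ, 0 < ep → ep ≤ 1 / 100 → ∃ m0 : ℕ, ∀ m ≥ m0, ∀ o : Bool, ∀ᵐ y : ℝ,
    ClsD6 (K ep m).Z par6 ep (Fil.xe m) o (vl (-(11 / 4) * l) y) (zPtD6 (K ep m) (kD ep m) m o y)

/-- **the sums over the numbers** from the functionals with moduli and the class formulas -/
theorem sumBd6_of [NUSea.Sea] {T : LtS} {EM : ℕ → ℝ} {MF : ℕ → Bool → NUSp.Cl → ℂ → ℝ}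
    {K : ℝ → ℕ → PBQ.PLX.KD} {kD : ℝ → ℕ → Bool → ℂ → ℂ}
    {cw : ℝ → ℕ → HT → HT → ℝ × ℝ → Ch6 × Ch6 → ℝ}
    (hF : FaBd6 T EM MF fun ep m => (K ep m).Z) (hC : ClsF6 K kD cw)
    (cw0 : ∀ ep m t t' y u, 0 ≤ cw ep m t t' y u)
    (cwo : ∀ ep m t t' y u, cw ep m t t' y u ≠ 0 → okC6 t u.1 ∧ okC6 t' u.2) :
    SumBd6 T EM MF K kD cw := by
  intro ρ hρ
  obtain ⟨κ0, hκ0, hκ1, hF⟩ := hF ρ hρ
  refine ⟨κ0, hκ0, hκ1, fun ep hep hep1 => ?_⟩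
  have hep2 : ep ≤ 1 / 100 := hep1.trans hκ1
  obtain ⟨J, hJ0, hJ⟩ : ∃ J : ℝ, 0 ≤ J ∧ Real.exp (-(2 * Real.pi * J)) ≤ κ0 := by
    refine ⟨max 0 (-Real.log κ0), le_max_left _ _, ?_⟩
    have hpi := Real.pi_gt_three
    have h1 : -Real.log κ0 ≤ 2 * Real.pi * max 0 (-Real.log κ0) := by
      have h2 := le_max_right 0 (-Real.log κ0)
      have h3 := le_max_left 0 (-Real.log κ0)
      nlinarith
    calc Real.exp (-(2 * Real.pi * max 0 (-Real.log κ0))) ≤ Real.exp (Real.log κ0) :=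
          Real.exp_le_exp.2 (by linarith)
      _ = κ0 := Real.exp_log hκ0
  obtain ⟨Cst, hCst, M0, hM0⟩ := hF ep hep hep1 ep hep hep1 J hJ0 hJ
  obtain ⟨n0, h0⟩ := hC.cls ep hep hep2
  obtain ⟨n1, h1⟩ := hC.clsW ep hep hep2
  obtain ⟨n2, h2⟩ := hC.clsD ep hep hep2
  refine ⟨J, hJ0, Cst, hCst, max (max M0 n0) (max n1 n2), fun m hm => ?_⟩
  obtain ⟨hma, hmb⟩ := max_le_iff.1 hm
  obtain ⟨g0, g1⟩ := max_le_iff.1 hma
  obtain ⟨g2, g3⟩ := max_le_iff.1 hmb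
  obtain ⟨hcur, hS, hD⟩ := hM0 m g0
  have hA : 0 ≤ Cst * (m : ℝ) ^ ρ * Real.exp (EM m) := by positivity
  have key : ∀ (t t' : HT) (y : ℝ × ℝ), ClsV6 (K ep m).Z par6 ep (Fil.xe m) t t'
      (vl (htL t) y.1) (vl (htL t') y.2) (cw ep m t t' y) (zPt6 (K ep m) m t t' y) →
      ∑ n ∈ range (2 * m + 1), ‖zPt6 (K ep m) m t t' y n‖ ≤ ∑ u : Ch6 × Ch6, cw ep m t t' y u *
        QL6 T ep ep J m (Cst * (m : ℝ) ^ ρ * Real.exp (EM m)) t t' y u := by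
    intro t t' y hy
    have hQ : 0 ≤ ∑ u : Ch6 × Ch6, cw ep m t t' y u *
        QL6 T ep ep J m (Cst * (m : ℝ) ^ ρ * Real.exp (EM m)) t t' y u :=
      Finset.sum_nonneg fun u _ => mul_nonneg (cw0 ep m t t' y u) (QL6_nonneg T hA t t' y u)
    refine sum_norm_le hQ ((cls_faS6 hcur hy).trans ?_)
    rw [ENNReal.ofReal_sum_of_nonneg fun u _ =>
      mul_nonneg (cw0 ep m t t' y u) (QL6_nonneg T hA t t' y u)]
    refine Finset.sum_le_sum fun u _ => ?_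
    rw [ENNReal.ofReal_mul (cw0 ep m t t' y u)]
    by_cases hu : cw ep m t t' y u = 0
    · rw [hu, ENNReal.ofReal_zero, zero_mul, zero_mul]
    · obtain ⟨k1, k2⟩ := cwo ep m t t' y u hu
      exact mul_le_mul' le_rfl (hS t t' u k1 k2 y)
  refine ⟨fun t t' => ?_, fun y => key .W .W y (h1 m g2 y), fun o => ?_⟩
  · filter_upwards [h0 m g1 t t'] with y hy
    exact key t t' y hy
  · filter_upwards [h2 m g3 o] with y hy
    exact sum_norm_le (PBQ.PLX.QGD_nonneg hA o y) ((cls_faD6 hcur hy).trans (hD o y))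

end PBO.PLX

namespace PBO.PLX

open NUO NUP1 NUCR NUP1S NURow NUP1.Leg NUGC NUGC.PLX
open PHK
open PBR.PLX (Ch6 okC6)
open NUMF (Ag)

/-! ### the factors of the letters -/

/-- **the factor `exp (- m Ag a τ)` is small in the bulk** -/
theorem sm_Ag {a : ℝ} (ha : 0 < a) (ha1 : a < 1) {e1 : ℝ} (he : 0 < e1) : ∃ k0 : ℕ, ∀ k ≥ k0,
    ∀ τ : ℝ, |τ| ≤ (1 - e1) * Tb (Real.log k) →
    Real.exp (-((k : ℝ) * Ag a τ)) ≤ Real.exp (-(2 * (1 - e1) * Tb (Real.log k))) := by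
  have hl := NUMF.l_pos
  have hs : 0 < Real.sin (8 / 3 * (a * NUMF.l)) := by
    refine Real.sin_pos_of_pos_of_lt_pi (by positivity) ?_
    rw [← NUHM.l8]
    nlinarith
  obtain ⟨k0, hk0⟩ := PBQ.PLX.fF_small (c := 6 / (7 * √3) * Real.sin (8 / 3 * (a * NUMF.l)))
    (by positivity) he
  refine ⟨k0, fun k hk τ hτ => le_trans (Real.exp_le_exp.2 (neg_le_neg ?_)) (hk0 k hk τ hτ)⟩
  have h := NUMF.Ag_ge (a := a) ha.le ha1 τ
  have hk' : (0 : ℝ) ≤ k := Nat.cast_nonneg k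
  have := mul_le_mul_of_nonneg_left h hk'
  linarith

/-- **the letters of (P)** with extra own factors `f` and sea exponents `M` -/
def ltS (f : ℝ → ℕ → HT → Ch6 → ℝ → ℝ) (M : ℕ → Bool → HT → Ch6 → ℝ → ℝ) : LtS :=
  ⟨qh6, ph6, f, M⟩

theorem ph6_ge (t : HT) (u : Ch6) : -(3 * l) ≤ ph6 t u := by
  have hl := NUP1.Bd.l_pos
  have key : ∀ c : NUSp.Cl, -(3 * l) ≤ phC c := by
    intro c
    have hl' : NUMF.l = l := rfl
    cases c <;> unfold phC <;> rw [hl'] <;> linarith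
  exact key _

theorem ph6_big {t : HT} {u : Ch6} (h : bc6 t u ≠ .w) : 5 * l ≤ ph6 t u := by
  have hl := NUP1.Bd.l_pos
  have hl' : NUMF.l = l := rfl
  have hd : bc6 t u ≠ .d := by
    obtain ⟨u1, u2⟩ := u
    cases t <;> cases u1 <;> cases u2 <;> simp [bc6]
  unfold ph6
  cases hc : bc6 t u
  · exact absurd hc h
  all_goals first
    | exact absurd hc hd
    | (unfold phC; linarith)

/-- **own and direct factors of all classes** from those of the letters -/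
theorem clOk6_of {MF : ℕ → Bool → NUSp.Cl → ℂ → ℝ} {K : ℝ → ℕ → PBQ.PLX.KD}
    {kD : ℝ → ℕ → Bool → ℂ → ℂ} {f : ℝ → ℕ → HT → Ch6 → ℝ → ℝ}
    {M : ℕ → Bool → HT → Ch6 → ℝ → ℝ}
    (hdir : ∃ CG : ℝ, 0 ≤ CG ∧ ∀ (t t' : HT) (u u' : Ch6), okC6 t u → okC6 t' u' → ∀ τ τ' : ℝ,
      gO6 t t' u u' (vl (htL t) τ) (vl (htL t') τ') ≤
        CG * Real.exp (-((qh6 t u * qh6 t' u' + 1) / 2) * |τ - τ'|))
    (hown : ∀ ep : ℝ, 0 < ep → ep ≤ 1 / 100 → ∃ C : ℝ, 0 ≤ C ∧ ∃ m0 : ℕ, ∀ m ≥ m0,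
      ∀ (a : Bool) (t : HT) (u : Ch6), okC6 t u → ∀ τ : ℝ,
        own6 (K ep m) a t u (vl (htL t) τ) * Real.exp (M m a t u τ) ≤
          C * f ep m t u τ * Real.exp (-|τ|) * cut (Real.log m) ep (qh6 t u) τ)
    (hownD : ∀ ep : ℝ, 0 < ep → ep ≤ 1 / 100 → ∃ C : ℝ, 0 ≤ C ∧ ∃ m0 : ℕ, ∀ m ≥ m0,
      PBQ.PLX.OwnDLe (kD ep m) MF m C)
    (f0 : ∀ ep m t u τ, 0 ≤ f ep m t u τ) (f1 : ∀ ep m t u τ, f ep m t u τ ≤ 1)
    (hsm : ∀ ep : ℝ, 0 < ep → ep ≤ 1 / 100 → ∀ e1 : ℝ, 0 < e1 → ∃ m0 : ℕ, ∀ m ≥ m0,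
      ∀ (t : HT) (u : Ch6), okC6 t u → t ≠ .W → bc6 t u = .w → ∀ τ : ℝ,
        |τ| ≤ (1 - e1) * Tb (Real.log m) →
        f ep m t u τ ≤ Real.exp (-(2 * (1 - e1) * Tb (Real.log m)))) :
    ClOk6 (ltS f M) MF K kD
      (fun ep m t t' y u => cw6 (K ep m) t t' (vl (htL t) y.1) (vl (htL t') y.2) u) where
  cw0 ep m t t' y u := cw6_nonneg _ _ _ _ _ _
  cwo ep m t t' y u h := cw6_ok _ h
  own ep hep hep1 := by
    obtain ⟨CG, hCG, hdir⟩ := hdir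
    obtain ⟨C, hC, m0, hown⟩ := hown ep hep hep1
    refine ⟨C, CG, hC, hCG, m0, fun m hm t t' y u => ?_⟩
    have c1 := cut_nonneg (Real.log m) ep (qh6 t u.1) y.1
    have c2 := cut_nonneg (Real.log m) ep (qh6 t' u.2) y.2
    have a1 := f0 ep m t u.1 y.1
    have a2 := f0 ep m t' u.2 y.2
    by_cases hu : okC6 t u.1 ∧ okC6 t' u.2
    · refine ⟨own6 (K ep m) true t u.1 (vl (htL t) y.1), own6 (K ep m) false t' u.2 (vl (htL t') y.2),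
        gO6 t t' u.1 u.2 (vl (htL t) y.1) (vl (htL t') y.2), own6_nonneg _ _ _ _ _,
        gO6_nonneg _ _ _ _ _ _, (pre_wt6 (K ep m) hu.1 hu.2 _ _).le, hown m hm true t u.1 hu.1 y.1,
        hown m hm false t' u.2 hu.2 y.2, hdir t t' u.1 u.2 hu.1 hu.2 y.1 y.2⟩
    · refine ⟨0, 0, 0, le_rfl, le_rfl, ?_, ?_, ?_, ?_⟩
      · have h0 : cw6 (K ep m) t t' (vl (htL t) y.1) (vl (htL t') y.2) u = 0 := if_neg hu
        show ‖((K ep m).cl t t').pre (vl (htL t) y.1) (vl (htL t') y.2)‖ *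
          cw6 (K ep m) t t' (vl (htL t) y.1) (vl (htL t') y.2) u ≤ 0 * 0 * 0
        rw [h0]
        simp
      · rw [zero_mul]
        show 0 ≤ C * f ep m t u.1 y.1 * Real.exp (-|y.1|) * cut (Real.log m) ep (qh6 t u.1) y.1
        positivity
      · rw [zero_mul]
        show 0 ≤ C * f ep m t' u.2 y.2 * Real.exp (-|y.2|) * cut (Real.log m) ep (qh6 t' u.2) y.2
        positivity
      · positivity
  ownD := hownD
  f0 := f0
  f1 := f1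
  ph t u _ := ph6_ge t u
  phW := rfl
  sm ep hep hep1 e1 he := by
    obtain ⟨m0, h⟩ := hsm ep hep hep1 e1 he
    refine ⟨m0, fun m hm t u hu ht => ?_⟩
    by_cases hc : bc6 t u = .w
    · exact Or.inr (h m hm t u hu ht hc)
    · exact Or.inl (ph6_big hc)

end PBO.PLX

end
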