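import Pool.Agent.PHK.FDef6
import Pool.Agent.PHK.Alg

/-!
# The particle-hole form (P): the bound of one configuration with insertions and weights of the objects

* `gasI6 B P η η' O p q ψ`: the positive gas of `p` quanta X, `q` quanta Y with the insertion `ψ`;
  `FnI6_eq : FnI6 = objWc6 * gasI6`;
* `StabE P en`: the stability of the pairs of objects with the energy `en` of the gas;
* **`perH6`**: from a bound of `gasI6` with exponents `u i` of the objects and a weight `w`, one body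
  bounds `ob6 exp (u i + K') ≤ act6 exp (-g i)` and `w ≤ Bw exp (K2 r) ∏ exp g`:
  `FnI6 ≤ K6 Bw Q ∏ act exp (- c1 ∑ cnt²)`, `act` = the landed activities.
-/

set_option autoImplicit false
set_option linter.unusedSectionVars false

noncomputable section

open MeasureTheory Finset
open scoped ENNReal
open PLX (Fil)

namespace PHK

open NUO NUP1 NUStabP NUDispW NUGC NUGC.PLX

/-- **stability** of the pairs of objects with the energy `en` of the gas in the field of the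
objects -/
def StabE (P : Par6) (en : (r : ℕ) → (Fin r → Xo) → ℝ) : Prop :=
  ∃ C2 c1 : ℝ, 0 < c1 ∧ ∀ (r : ℕ) (O : Fin r → Xo) (W : Finset ℤ),
    (∏ i, ∏ j, if i < j then pairN6 P O i j else 1) * Real.exp (en r O) ≤
      Real.exp (C2 * r) * Real.exp (-(c1 * ∑ w ∈ W, (cnt (fun i => ht (O i)) w : ℝ) ^ 2))

variable [Fil]

/-- the positive gas with the insertion `ψ` -/
def gasI6 (B : OB) (P : Par6) (η η' : ℝ → ℝ) {r : ℕ} (O : Fin r → Xo) (p q : ℕ)
    (ψ : (Fin p → ℝ) × (Fin q → ℝ) → ℝ≥0∞) : ℝ≥0∞ :=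
  ((p.factorial : ℝ≥0∞) * q.factorial)⁻¹ * ∫⁻ x : (Fin p → ℝ) × (Fin q → ℝ),
    ENNReal.ofReal (NU42.WO (dA (Fil.cv true η)) (dA (Fil.cv true η')) (dA (Fil.cv false η))
      (dA (Fil.cv false η')) (qA6 B P η O true) (qA6 B P η O false) x.1 x.2) * ψ x

theorem gasI6_one (B : OB) (P : Par6) (η η' : ℝ → ℝ) {r : ℕ} (O : Fin r → Xo) (p q : ℕ) :
    gasI6 B P η η' O p q (fun _ => 1) = Z1c6 B P η η' O p q := by
  unfold gasI6 Z1c6
  simp only [mul_one]

theorem FnI6_eq (B : OB) (P : Par6) (η η' : ℝ → ℝ) {nX nY : ℕ} {r : ℕ} (O : Fin r → Xo)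
    (ψ : (a b : ℕ) → (Fin a → ℝ) × (Fin b → ℝ) → ℝ≥0∞)
    (hc : chgO6 O true ≤ nX ∧ chgO6 O false ≤ nY ∧ cnt6 O) :
    FnI6 B P η η' nX nY O ψ = ENNReal.ofReal (objWc6 B P O) *
      gasI6 B P η η' O (nA6 nX O true) (nA6 nY O false) (ψ (nA6 nX O true) (nA6 nY O false)) := by
  unfold FnI6 gasI6
  rw [if_pos hc]

theorem FnI6_zero (B : OB) (P : Par6) (η η' : ℝ → ℝ) {nX nY : ℕ} {r : ℕ} (O : Fin r → Xo)
    (ψ : (a b : ℕ) → (Fin a → ℝ) × (Fin b → ℝ) → ℝ≥0∞)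
    (hc : ¬ (chgO6 O true ≤ nX ∧ chgO6 O false ≤ nY ∧ cnt6 O)) :
    FnI6 B P η η' nX nY O ψ = 0 := by
  unfold FnI6
  rw [if_neg hc]

/-- **the bound of one configuration** -/
theorem perH6 {P : Par6} (hP : GoodP6 P) {en : (r : ℕ) → (Fin r → Xo) → ℝ} (hS : StabE P en)
    {c2 aS τ : ℝ} (haS : 0 ≤ aS) (hc2 : 0 < c2) (K K2 : ℝ) :
    ∃ K' K6 c1 : ℝ, 1 ≤ K6 ∧ 0 < c1 ∧ ∀ (B : OB), B.Nn →
    ∀ (C c : ℝ) (k : ℕ) (L ep e1 J : ℝ), 0 ≤ C → 1 ≤ L → ∀ (r : ℕ) (O : Fin r → Xo)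
      (η η' : ℝ → ℝ) (nX nY : ℕ) (ψ : (a b : ℕ) → (Fin a → ℝ) × (Fin b → ℝ) → ℝ≥0∞)
      (u g : Fin r → ℝ) (Q Bw w : ℝ), 0 ≤ Q → 0 ≤ w → 0 ≤ Bw →
      w ≤ Bw * Real.exp (K2 * r) * Real.exp (∑ i, g i) →
      (∀ i, ob6 B P (O i) * Real.exp (u i + K') ≤
        act6 C c c2 aS τ k L ep e1 J r (k6 (O i)) (ht (O i)) * Real.exp (-g i)) →
      (chgO6 O true ≤ nX → chgO6 O false ≤ nY → cnt6 O →
        gasI6 B P η η' O (nA6 nX O true) (nA6 nY O false)
          (ψ (nA6 nX O true) (nA6 nY O false)) ≤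
        ENNReal.ofReal (w * (Q * Real.exp (∑ i, u i + K * r + en r O +
          c1 * win univ fun i => ht (O i))))) →
    ∀ W : Finset ℤ, FnI6 B P η η' nX nY O ψ ≤
      ENNReal.ofReal (K6 * (Bw * Q) * (∏ i, act (C * K6) 1 c (1 / 10) (k + 1) L ep e1 J r (ht (O i))) *
        Real.exp (-(c1 * ∑ w ∈ W, (cO O w : ℝ) ^ 2))) := by
  obtain ⟨C2, c1, hc1, hS⟩ := hS
  obtain ⟨K', K6, hK6, H⟩ := asm6 hP (c1 := c1) (τ := τ) C2 (K + K2) 0 haS hc2 hc1
  refine ⟨K', K6, c1 / 4, hK6, by positivity, ?_⟩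
  intro B hB C c k L ep e1 J hC hL r O η η' nX nY ψ u g Q Bw w hQ hw hBw hwB hone hgas W
  by_cases hc : chgO6 O true ≤ nX ∧ chgO6 O false ≤ nY ∧ cnt6 O
  swap
  · rw [FnI6_zero _ _ _ _ _ _ hc]
    exact zero_le
  have hobj : 0 ≤ objWc6 B P O := objWc6_nonneg hB P O
  have key := H C c k L ep e1 J r O W (fun i => ob6 B P (O i)) (fun _ => 1) (fun i => u i + g i)
    (fun _ => 0) (∏ i, ∏ j, if i < j then pairN6 P O i j else 1) (en r O) (Bw * Q) (c1 / 4) hC hL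
    (fun i => ob6_nonneg hB P (O i)) (fun _ => zero_le_one) (mul_nonneg hBw hQ) le_rfl
    (fun W => hS r O W) (fun _ => by simp) (fun i => by
      have h1 := mul_le_mul_of_nonneg_right (hone i) (Real.exp_pos (g i)).le
      calc ob6 B P (O i) * Real.exp (u i + g i + K')
          = ob6 B P (O i) * Real.exp (u i + K') * Real.exp (g i) := by
            rw [mul_assoc, ← Real.exp_add]
            ring_nf
        _ ≤ _ := h1
        _ = _ := by
            rw [mul_assoc, ← Real.exp_add, neg_add_cancel, Real.exp_zero, mul_one])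
  simp only [Finset.prod_const_one, mul_one, Finset.sum_const_zero, add_zero] at key
  rw [FnI6_eq _ _ _ _ _ _ hc]
  refine (mul_le_mul' le_rfl (hgas hc.1 hc.2.1 hc.2.2)).trans ?_
  rw [← ENNReal.ofReal_mul hobj]
  refine ENNReal.ofReal_le_ofReal (le_trans ?_ key)
  have hE : Real.exp (∑ i, (u i + g i) + (K + K2) * r + en r O + c1 / 4 * win univ fun i => ht (O i)) =
      Real.exp (K2 * r) * Real.exp (∑ i, g i) *
        Real.exp (∑ i, u i + K * r + en r O + c1 / 4 * win univ fun i => ht (O i)) := by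
    rw [← Real.exp_add, ← Real.exp_add, Finset.sum_add_distrib]
    congr 1
    ring
  rw [hE]
  obtain ⟨X, hX⟩ : ∃ X, X = Real.exp (∑ i, u i + K * r + en r O +
    c1 / 4 * win univ fun i => ht (O i)) := ⟨_, rfl⟩
  have hX0 : 0 < X := by
    rw [hX]
    exact Real.exp_pos _
  rw [← hX]
  have e : objWc6 B P O = (∏ i, ob6 B P (O i)) * (∏ i, loc6 (gH6 P O) P (O i)) *
      ∏ i, ∏ j, if i < j then pairN6 P O i j else 1 := rfl
  rw [← e]
  calc objWc6 B P O * (w * (Q * X)) ≤ objWc6 B P O *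
        ((Bw * Real.exp (K2 * r) * Real.exp (∑ i, g i)) * (Q * X)) := by
        refine mul_le_mul_of_nonneg_left ?_ hobj
        exact mul_le_mul_of_nonneg_right hwB (by positivity)
    _ = _ := by ring

end PHK

end
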