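import Pool.Agent.PHK.Link
import Pool.Agent.NUP1S.Exact

/-!
# The quanta on the line outside of the integrals over the rectangles

* `qC`: the quanta of the two species on the line; `gas_Fc`: the gas as an integral of `Fc`;
* `NI_LL`: the quanta on the line outside.
-/

set_option autoImplicit false
set_option linter.unusedSectionVars false

noncomputable section

open Complex MeasureTheory NUP1 Set Filter Topology
open scoped Real

namespace NUP1S

variable {pl : Bool → Finset ℂ} {κ x y R : ℝ} {a a' : ℕ}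

/-- the quanta on the line -/
def qC (y : ℝ) (a a' : ℕ) : Fin a ⊕ Fin a' → Ct :=
  Sum.elim (fun _ => lineC true y) (fun _ => lineC false y)

theorem qC_pos (y : ℝ) (a a' : ℕ) (i : Fin a ⊕ Fin a') (t : ℝ) : (qC y a a' i).pos t = vl y t := by
  rcases i with i | i <;> rfl

theorem LL_enum (y : ℝ) (a a' : ℕ) : ∃ e : Fin a ⊕ Fin a' ≃ Fin (LL a a' y).length,
    ∀ i, qC y a a' i = (LL a a' y).get (e i) := by
  unfold LL
  have hlen : a + a' = (List.replicate a (lineC true y) ++
      List.replicate a' (lineC false y)).length := by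
    rw [List.length_append, List.length_replicate, List.length_replicate]
  refine ⟨finSumFinEquiv.trans (finCongr hlen), ?_⟩
  rintro (i | i)
  · simp [qC]
  · simp [qC]

/-- the gas as an integral, one body functions without any regularity -/
theorem gas_Fc {y : ℝ} (a a' : ℕ) {g : Bool → ℂ → ℂ} {H H' : ℂ → ℂ}
    (hH : ∀ u : ℂ, u.re = y → H u = Wt pl g true u)
    (hH' : ∀ u : ℂ, u.re = y → H' u = Wt pl g false u) :
    gas a a' y H H' = ((a.factorial : ℕ) : ℂ)⁻¹ * ((a'.factorial : ℕ) : ℂ)⁻¹ *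
      ∫ t : Fin a ⊕ Fin a' → ℝ, Fc pl g (qC y a a') t ∂(Measure.pi fun _ => volume) := by
  unfold gas
  rw [mul_assoc]
  congr 1
  unfold Ig
  rw [← integral_const_mul]
  refine integral_congr_ae (Eventually.of_forall fun t => ?_)
  simp only []
  unfold Fg Fc
  rw [← mul_assoc]
  congr 1
  · rw [Fintype.prod_sum_type, Fintype.prod_sum_type]
    have e1 : ∏ i, Sum.elim (fun _ : Fin a => H) (fun _ : Fin a' => H') (Sum.inl i)
        (pos (fun _ => y) t (Sum.inl i)) = ∏ i : Fin a, Wt pl g true (vl y (t (Sum.inl i))) :=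
      Finset.prod_congr rfl fun i _ => hH _ (re_vl _ _)
    have e2 : ∏ i, Sum.elim (fun _ : Fin a => H) (fun _ : Fin a' => H') (Sum.inr i)
        (pos (fun _ => y) t (Sum.inr i)) = ∏ i : Fin a', Wt pl g false (vl y (t (Sum.inr i))) :=
      Finset.prod_congr rfl fun i _ => hH' _ (re_vl _ _)
    have e3 : ∏ i, hh pl g (qC y a a' (Sum.inl i)) (t (Sum.inl i)) =
        (2 * π : ℂ)⁻¹ ^ a * ∏ i : Fin a, Wt pl g true (vl y (t (Sum.inl i))) := by
      have : ∀ i : Fin a, hh pl g (qC y a a' (Sum.inl i)) (t (Sum.inl i)) =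
          (2 * π : ℂ)⁻¹ * Wt pl g true (vl y (t (Sum.inl i))) := fun _ => rfl
      rw [Finset.prod_congr rfl fun i _ => this i, Finset.prod_mul_distrib, Finset.prod_const,
        Finset.card_univ, Fintype.card_fin]
    have e4 : ∏ i, hh pl g (qC y a a' (Sum.inr i)) (t (Sum.inr i)) =
        (2 * π : ℂ)⁻¹ ^ a' * ∏ i : Fin a', Wt pl g false (vl y (t (Sum.inr i))) := by
      have : ∀ i : Fin a', hh pl g (qC y a a' (Sum.inr i)) (t (Sum.inr i)) =
          (2 * π : ℂ)⁻¹ * Wt pl g false (vl y (t (Sum.inr i))) := fun _ => rfl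
      rw [Finset.prod_congr rfl fun i _ => this i, Finset.prod_mul_distrib, Finset.prod_const,
        Finset.card_univ, Fintype.card_fin]
    rw [e1, e2, e3, e4]
    ring
  · refine PU_congr' fun i j => ?_
    rcases i with i | i <;> rcases j with j | j <;> rfl

theorem adI_equiv {ι ι' : Type*} [Fintype ι] [Fintype ι'] (e : ι' ≃ ι) (g : Bool → ℂ → ℂ)
    (s : ι → Bool) (z : ι → ℂ) : adI g (fun i => s (e i)) (fun i => z (e i)) = adI g s z := by
  funext r u
  unfold adI
  rw [e.prod_comp fun i => PP r (s i) (u - z i)]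

/-- regularity in the field of a finite family of quanta -/
theorem Reg.adF {a b : ℝ} (G : Geo pl κ a b) {ι : Type*} [Fintype ι] {Q : ℤ} {g : Bool → ℂ → ℂ}
    (h : Reg pl κ a b Q g) (s : ι → Bool) {z : ι → ℂ} (h1 : ∀ i, a ≤ (z i).re)
    (h2 : ∀ i, (z i).re ≤ b) : Reg pl κ a b (Q - ∑ i, sg (s i)) (NUP1S.adI g s z) := by
  set e := (Fintype.equivFin ι).symm
  rw [← adI_equiv e, ← e.sum_comp fun i => sg (s i)]
  exact h.adI G (fun i => s (e i)) (z := fun i => z (e i)) (fun i => h1 _) fun i => h2 _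

/-- **the quanta on the line outside** -/
theorem NI_LL (G : Geo pl κ x y) (hc : ∀ i, OkC pl κ x y (qC y a a' i))
    (R : List Ct) (hR : ∀ c ∈ R, OkC pl κ x y c) {g : Bool → ℂ → ℂ}
    (hg : Reg pl κ x y (chL (LL a a' y) + chL R) g) :
    Integrable (fun t : Fin a ⊕ Fin a' → ℝ => Fc pl g (qC y a a') t *
      NI pl R (adI g (fun i => (qC y a a' i).sp) fun i => vl y (t i)))
      (Measure.pi fun _ => volume) ∧
    NI pl (LL a a' y ++ R) g = ∫ t : Fin a ⊕ Fin a' → ℝ, Fc pl g (qC y a a') t *
      NI pl R (adI g (fun i => (qC y a a' i).sp) fun i => vl y (t i))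
      ∂(Measure.pi fun _ => volume) := by
  obtain ⟨e, he⟩ := LL_enum y a a'
  have hch : chI (qC y a a') = chL (LL a a' y) := by
    unfold chI
    rw [← sum_get, ← e.sum_comp]
    exact Finset.sum_congr rfl fun i _ => by rw [he i]
  have okL : ∀ c ∈ LL a a' y, OkC pl κ x y c := by
    intro c hc'
    obtain ⟨j, hj⟩ := List.mem_iff_get.1 hc'
    rw [← hj, ← e.apply_symm_apply j, ← he]
    exact hc _
  have hlen : (LL a a' y).length + R.length = (LL a a' y ++ R).length := List.length_append.symm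
  obtain ⟨e2, he2⟩ : ∃ e2 : (Fin a ⊕ Fin a') ⊕ Fin R.length ≃ Fin (LL a a' y ++ R).length,
      ∀ i, (Sum.elim (qC y a a') (fun i => R.get i) i : Ct) = (LL a a' y ++ R).get (e2 i) := by
    refine ⟨(Equiv.sumCongr e (Equiv.refl _)).trans (finSumFinEquiv.trans (finCongr hlen)), ?_⟩
    rintro (i | i)
    · simp [he i]
    · simp
  obtain ⟨i1, i2⟩ := block G (C := qC y a a') (C' := fun i : Fin R.length => R.get i) hc
    (fun i => hR _ (List.get_mem _ _)) (g := g) (by
      rw [hch]
      unfold chI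
      rw [sum_get]
      exact hg)
  have e1 : ∀ t : Fin a ⊕ Fin a' → ℝ,
      ∫ t' : Fin R.length → ℝ, Fc pl (adI g (fun i => (qC y a a' i).sp)
        fun i => (qC y a a' i).pos (t i)) (fun i => R.get i) t' ∂(Measure.pi fun _ => volume) =
      NI pl R (adI g (fun i => (qC y a a' i).sp) fun i => vl y (t i)) := by
    intro t
    have e3 : (fun i => (qC y a a' i).pos (t i)) = fun i => vl y (t i) := by
      funext i
      exact qC_pos _ _ _ _ _
    rw [e3]
    refine (NI_eq_int G R hR _ ?_ (fun i => R.get i) (Equiv.refl _) (fun i => rfl)).symm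
    have h1 := hg.adF G (fun i => (qC y a a' i).sp) (z := fun i => vl y (t i))
      (fun i => by rw [re_vl]; exact G.ab) (fun i => by rw [re_vl])
    have h2 : ∑ i, sg (qC y a a' i).sp = chL (LL a a' y) := hch
    rwa [h2, add_sub_cancel_left] at h1
  constructor
  · simp only [e1] at i1
    exact i1
  · rw [NI_eq_int G (LL a a' y ++ R) (ok_app okL hR) g (by rwa [chL_append]) _ e2 he2, i2]
    refine integral_congr_ae (Eventually.of_forall fun t => ?_)
    simp only [e1]

end NUP1S

end
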