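import Pool.Agent.PHK.FDef6
import Pool.Agent.PHK.OneC
import Pool.Agent.PHK.Defs

/-!
# (P): the representation corollary of a class

`OneC6` (the one body functions of a class are bounded by its one body data), and the class formula
`Z n = FF6 .. 1` on every family of curves `CurB ep`, give `R4Cof6`:

* `obK6_le_ob6`, `wK6_le_objWc6`, `qG6_le_qA6`, **`trA6_le_Fnc6`**, `FA6_le_Fnc6`; **`R4C_of6`**.
-/

set_option autoImplicit false
set_option linter.unusedSectionVars false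

noncomputable section

open Complex MeasureTheory Finset
open scoped ENNReal
open PLX (Fil)

namespace PHK

open NUO NUP1 NUP1S NUP1S.Ab NUP1S.AbC NUGC NUGC.PLX NUCR
open PBF.PLX (gK Ins Crs)

variable {r : ℕ} {Z : Bool → Option O3 → ℂ → ℂ} {B : OB} {P : Par6} {ep κ x0 : ℝ} {Q : ℤ}
  {E : Set ℝ}

/-- one object -/
theorem obK6_le_ob6 (h : OneC6 Z B P ep κ x0 Q E) (x : Xo) (hE : ht x ∉ E) :
    ‖obK6 Z P x‖ ≤ ob6 B P x := by
  have hS := h.S (sp x) _ hE
  have hV := h.V (!sp x) _ hE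
  have hF := h.F (sp x) _ hE
  have n0 : ∀ s z, 0 ≤ wq6 B s z := wq6_nonneg h.nn
  have hc : ∀ k, 0 ≤ cK6 k := cK6_nonneg
  unfold ob6
  rcases hk : k6 x with _ | _ | _ | _ | _ | _
  · rw [obK6_L Z P hk, norm_mul, norm_cC6]
    refine mul_le_mul_of_nonneg_left ?_ (hc _)
    simpa [parts6, hk, w6] using h.L (sp x) _ hE
  · rw [obK6_T Z P hk, norm_mul, norm_cC6]
    refine mul_le_mul_of_nonneg_left ?_ (hc _)
    simpa [parts6, hk, w6] using h.T (sp x) _ hE
  · rw [obK6_E Z P hk, norm_mul, norm_cC6]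
    refine mul_le_mul_of_nonneg_left ?_ (hc _)
    have e : ((parts6 P x).map (w6 B .E)).prod = (B.R (sp x) (posS P.e (ht x)) *
        B.R (sp x) (posS P.e (ht x) - l)) * ‖B.φ0 (sp x) (posS P.e (ht x))‖ *
          wq6 B (!sp x) (posB P.e (ht x)) ^ 2 := by
      simp only [parts6, hk, w6, List.map_cons, List.map_nil, List.prod_cons, List.prod_nil,
        if_true, Bool.false_eq_true, if_false, mul_one, reduceCtorEq]
      rfl
    rw [e, norm_mul, norm_pow]
    exact mul_le_mul hS (pow_le_pow_left₀ (norm_nonneg _) hV 2) (by positivity)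
      ((norm_nonneg _).trans hS)
  · rw [obK6_F Z P hk, norm_mul, norm_cC6]
    refine mul_le_mul_of_nonneg_left ?_ (hc _)
    have e : ((parts6 P x).map (w6 B .F)).prod = (B.R (sp x) (posS P.e (ht x)) *
        B.R (sp x) (posS P.e (ht x) - l)) * ‖B.φ0 (sp x) (posS P.e (ht x))‖ *
          (wq6 B (!sp x) (posB P.e (ht x)) ^ 2 * (wq6 B (sp x) (posB P.e (ht x)))⁻¹) := by
      simp only [parts6, hk, w6, List.map_cons, List.map_nil, List.prod_cons, List.prod_nil,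
        if_true, Bool.false_eq_true, if_false, mul_one, reduceCtorEq, zpow_neg, zpow_one]
      rfl
    rw [e, norm_mul, norm_mul, norm_pow]
    exact mul_le_mul hS (mul_le_mul (pow_le_pow_left₀ (norm_nonneg _) hV 2) hF (norm_nonneg _)
      (pow_nonneg (n0 _ _) 2)) (by positivity) ((norm_nonneg _).trans hS)
  · rw [obK6_H1 Z P hk, norm_mul, norm_cC6]
    refine mul_le_mul_of_nonneg_left ?_ (hc _)
    simpa [parts6, hk, w6] using h.H1 (sp x) _ hE
  · rw [obK6_H2 Z P hk, norm_mul, norm_cC6]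
    refine mul_le_mul_of_nonneg_left ?_ (hc _)
    simpa [parts6, hk, w6] using h.H2 (sp x) _ hE

/-- the weight of a configuration -/
theorem wK6_le_objWc6 (h : OneC6 Z B P ep κ x0 Q E) (O : Fin r → Xo) (hE : ∀ i, ht (O i) ∉ E) :
    ‖wK6 Z P O‖ ≤ objWc6 B P O := by
  rw [norm_wK6]
  unfold objWc6
  refine mul_le_mul_of_nonneg_right (mul_le_mul_of_nonneg_right
    (Finset.prod_le_prod (fun i _ => norm_nonneg _) fun i _ => obK6_le_ob6 h _ (hE i))
    (Finset.prod_nonneg fun i _ => loc6_nonneg _ _ _)) ?_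
  refine Finset.prod_nonneg fun i _ => Finset.prod_nonneg fun j _ => ?_
  split_ifs
  · exact pairN6_nonneg _ _ _ _
  · exact zero_le_one

section

variable [Fil]

/-- curves `CurB ep` are curves `CrvR (ep / 4)` -/
theorem crvR_of_CurB {η η' : ℝ → ℝ} (hep0 : 0 < ep) (hep : ep ≤ 1 / 100) (hη : CurB ep η η') :
    CrvR (ep / 4) η η' := by
  have hl := Bd.l_pos
  refine ⟨hη.hd, hη.hc, fun t => ?_, fun t => ?_, hη.hb⟩
  · have := (abs_le.1 (hη.h1 t)).1
    linarith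
  · have := (abs_le.1 (hη.h1 t)).2
    nlinarith

/-- one body factor of a quantum -/
theorem qG6_le_qA6 (h : OneC6 Z B P ep κ x0 Q E) (hep : 0 ≤ ep) {η η' : ℝ → ℝ}
    (hη : CrvR (ep / 4) η η') (O : Fin r → Xo) (s : Bool) (t : ℝ) :
    qG6 (Z s none) P (Fil.cv s η) O s t ≤ qA6 B P η O s t := by
  unfold qG6 qA6
  refine mul_le_mul_of_nonneg_right (mul_le_mul_of_nonneg_left (h.A s _ ?_) (by positivity))
    (Finset.prod_nonneg fun i _ => potN6_nonneg _ _ _ _ _)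
  exact NUO.pA_cv_mem hη (by positivity) s t

theorem qG6_nonneg (G : ℂ → ℂ) (P : Par6) (η : ℝ → ℝ) (O : Fin r → Xo) (s : Bool) (t : ℝ) :
    0 ≤ qG6 G P η O s t := by
  unfold qG6
  exact mul_nonneg (by positivity) (Finset.prod_nonneg fun i _ => potN6_nonneg _ _ _ _ _)

/-- **one configuration** -/
theorem trA6_le_Fnc6 (h : OneC6 Z B P ep κ x0 Q E) (hep0 : 0 < ep) (hep : ep ≤ 1 / 100)
    {η η' : Crs} {n n' : ℕ} (O : Fin r → Xo) (hη : CurB ep (η r O) (η' r O))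
    (hE : ∀ i, ht (O i) ∉ E) :
    trA6 Z P n n' η η' (fun _ _ _ _ _ => 1) r O ≤ Fnc6 B P (η r O) (η' r O) n n' O := by
  have hcr := crvR_of_CurB hep0 hep hη
  unfold trA6 Fnc6
  by_cases hc : chgO6 O true ≤ n ∧ chgO6 O false ≤ n' ∧ cnt6 O
  swap
  · rw [if_neg hc]
    exact zero_le
  rw [if_pos hc, if_pos hc]
  refine mul_le_mul' ?_ ?_
  · rw [← ofReal_norm]
    exact ENNReal.ofReal_le_ofReal (wK6_le_objWc6 h O hE)
  · unfold Z1c6
    refine mul_le_mul' le_rfl (lintegral_mono fun x => ?_)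
    rw [enorm_one, mul_one, ← ofReal_norm, norm_gK6]
    exact ENNReal.ofReal_le_ofReal (WO_mono _ _ _ _ (qG6_nonneg _ _ _ _ _)
      (qG6_le_qA6 h hep0.le hcr O true) (qG6_nonneg _ _ _ _ _)
      (qG6_le_qA6 h hep0.le hcr O false) _ _)

/-- the functional with moduli -/
theorem FA6_le_Fnc6 (h : OneC6 Z B P ep κ x0 Q E) (hep0 : 0 < ep) (hep : ep ≤ 1 / 100)
    {η η' : Crs} (hη : ∀ (r : ℕ) (O : Fin r → Xo), CurB ep (η r O) (η' r O)) (n n' : ℕ) :
    FA6 Z P n n' η η' (fun _ _ _ _ _ => 1) ≤ ∑ r ∈ range (2 * (n + n') + 1),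
      ((r.factorial : ℕ) : ℝ≥0∞)⁻¹ * ∫⁻ O : Fin r → Xo, Fnc6 B P (η r O) (η' r O) n n' O
        ∂(Measure.pi fun _ => nu) := by
  unfold FA6
  refine Finset.sum_le_sum fun r _ => mul_le_mul' le_rfl (lintegral_mono_ae ?_)
  filter_upwards [ae_ht6 (r := r) h.nul] with O hO
  exact trA6_le_Fnc6 h hep0 hep O (hη r O) hO

/-- **The representation corollary of a class of (P).** -/
theorem R4C_of6 (h : OneC6 Z B P ep κ x0 Q E) (hep0 : 0 < ep) (hep : ep ≤ 1 / 100) {aX aY : ℕ}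
    {Zn : ℕ → ℂ} (hZ : ∀ η η' : Crs, (∀ (r : ℕ) (O : Fin r → Xo), CurB ep (η r O) (η' r O)) →
      ∀ n : ℕ, Zn n = FF6 Z P (n + aX) (n + aY) η η' fun _ _ _ _ _ => 1) :
    R4Cof6 ep B P aX aY Zn := by
  intro η η' hη n
  rw [hZ η η' hη n]
  refine (FF6_le _).trans ((FA6_le_Fnc6 h hep0 hep hη _ _).trans (le_of_eq ?_))
  have e : 2 * (n + aX + (n + aY)) + 1 = 2 * (2 * n + (aX + aY)) + 1 := by ring
  rw [e]
  rfl

end

end PHK

end
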