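import Pool.Agent.PLX.FunQ
import Pool.Agent.PLX.U1Q
import Pool.Agent.PLX.CrossN
import Pool.Agent.PLX.RayE
import Pool.Agent.PLX.End
import Pool.Agent.PLX.NrmN

/-!
# PLAX: the transfer on every ray from the four inputs (helper12)

* `KRows nL q`, `FxLe q δ` (all `δ > 0`) give `RayH (q + 1) 1 (f0Q q) (famR q)` (`rayH_q`); with
  `(E')` of `fun j z x => fxQ q j x z` the output `FunO2 c (f0Q q) g` (`funO2_q`);
* `TRq q` : the transfer from `FunO2`, output of `PBTRF.PLX.trP_of`;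
* **`tRray_of`** : `TRray q` along the even and the odd numbers; **`rays_of`** : for arbitrarily large odd `b`,
  the hypotheses of `Pool.Agent.PLN.pubA_rays`.
-/

set_option autoImplicit false

noncomputable section

open Complex Filter Topology Set
open Pool.Agent.PB.Rec (seg)
open Pool.Agent.PB (xr Rwo)
open NUP1 (l lpos)
open PBV (aL aL_eq seg_Is)

namespace Pool.Agent.PLX

variable {q : ℕ}

theorem aF_aL : aF = ((aL : ℝ) : ℂ) := by
  rw [aL_c, aF_eq, zero_add]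

/-- the legs on the axis -/
theorem LS_ax {z : ℂ} (hz : z.re = 0) : z ∈ Pool.Agent.PB.LS := by
  have := lpos
  constructor <;> (rw [hz]; linarith)

/-! ### lists of the rows -/

theorem nL_ofFn (z : ℂ) {m M : ℕ} (x : Fin m → ℂ) (y : Fin M → ℂ) :
    nL z (List.ofFn x) (List.ofFn y) = nzU z x y := by
  have h1 : (List.ofFn x).length = m := List.length_ofFn
  have h2 : (List.ofFn y).length = M := List.length_ofFn
  have e1 : (List.ofFn x).get = fun i => x ((finCongr h1) i) := by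
    funext i
    simp
    rfl
  have e2 : (List.ofFn y).get = fun i => y ((finCongr h2) i) := by
    funext i
    simp
    rfl
  unfold nL
  rw [e1, e2]
  exact nzU_equiv z x y (finCongr h1) (finCongr h2)

theorem ofFn_xr (m : ℕ) (x : ℂ) : List.ofFn (xr m x) = x :: zr m := by
  unfold zr
  rw [List.ofFn_succ]
  congr 1
  exact List.ofFn_const m (0 : ℂ)

theorem ofFn_zero (m : ℕ) : List.ofFn (fun _ : Fin m => (0 : ℂ)) = zr m := List.ofFn_const m (0 : ℂ)

/-- the rows of the second group -/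
theorem coe_ofFn_yqn (q : ℕ) {m : ℕ} (y : Fin m → ℂ) :
    ((List.ofFn (yqn q y) : List ℂ) : Multiset ℂ) = q • ((List.ofFn y : List ℂ) : Multiset ℂ) := by
  have h := sum_ofFn_yqn q (fun a : ℂ => ({a} : Multiset ℂ)) y
  have e : ∀ L : List ℂ, (L.map (fun a : ℂ => ({a} : Multiset ℂ))).sum = (L : Multiset ℂ) := by
    intro L
    have := Multiset.sum_map_singleton (L : Multiset ℂ)
    simpa using this
  rwa [e, e] at h

theorem yqn_xr_perm (q m : ℕ) (x : ℂ) :
    (List.ofFn (yqn q (xr m x))).Perm (List.replicate q x ++ zr (q * m)) := by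
  rw [← Multiset.coe_eq_coe, coe_ofFn_yqn, ofFn_xr]
  unfold zr
  rw [← Multiset.cons_coe, Multiset.nsmul_cons, Multiset.coe_replicate, Multiset.nsmul_replicate,
    Multiset.nsmul_singleton, ← Multiset.coe_add, Multiset.coe_replicate, Multiset.coe_replicate]

theorem fxQ_nL (q m : ℕ) {x z : ℂ} (hx : x.re = 0) (hz : z.re = 0) :
    fxQ q m x z = nL z (x :: zr m) (List.replicate q x ++ zr (q * m)) := by
  have hl := lpos
  have hr : Rwo (xr m x) := Pool.Agent.PB.Rwo.cons (by rw [hx, abs_zero]; positivity) (Pool.Agent.PB.Rwo_zero m)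
  unfold fxQ
  rw [fQ_right hr (LS_ax hz), ← nL_ofFn, ofFn_xr]
  exact nL_perm z (List.Perm.refl _) (yqn_xr_perm q m x)

theorem f0Q_nL (q m : ℕ) {z : ℂ} (hz : z.re = 0) : f0Q q m z = nL z (zr m) (zr (q * m)) := by
  unfold f0Q
  rw [fQ_right (Pool.Agent.PB.Rwo_zero m) (LS_ax hz), ← nL_ofFn, ofFn_zero, yqn_const, ofFn_zero]

/-! ### the family -/

open Classical in
/-- the family of the ray step, legs anywhere on the diagonal -/
def famR (q m j : ℕ) (v : List ℂ) (z : ℂ) : ℂ :=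
  if z.re = 0 ∧ ¬(j = 0 ∧ v = List.replicate (q + 1) v.headI) then rayF (nL z) q (m + 1) j v
  else fxQ q m v.headI z

theorem famR_diag (q m : ℕ) (x z : ℂ) : famR q m 0 (List.replicate (q + 1) x) z = fxQ q m x z := by
  unfold famR
  rw [if_neg fun h => h.2 ⟨rfl, rfl⟩]
  rfl

theorem famR_eq {m j : ℕ} {v : List ℂ} {z : ℂ} (hz : z.re = 0)
    (hv : j = 0 → v = List.replicate (q + 1) v.headI → Ax v.headI) :
    famR q m j v z = rayF (nL z) q (m + 1) j v := by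
  by_cases h : j = 0 ∧ v = List.replicate (q + 1) v.headI
  · obtain ⟨rfl, h2⟩ := h
    have h3 := hv rfl h2
    rw [h2]
    rw [famR_diag, rayF_W h3, Nat.add_sub_cancel]
    exact fxQ_nL q m h3.1 hz
  · unfold famR
    rw [if_pos ⟨hz, h⟩]

/-- a constant list with two elements, one of them on the segment -/
theorem ax_of_const {L : List ℂ} {y : ℂ} (h : L = List.replicate (q + 1) L.headI) (hy : y ∈ L) (ha : Ax y) :
    Ax L.headI := by
  rw [h] at hy
  rwa [← List.eq_of_mem_replicate hy]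

theorem exists_other {u v : List ℂ} (x : ℂ) (hq : 1 ≤ q) (h : u.length + 1 + v.length = q + 1)
    (hu : ∀ x ∈ u, Ax x) (hv : ∀ x ∈ v, Ax x) : ∃ y ∈ u ++ x :: v, Ax y := by
  rcases u with _ | ⟨a, u⟩
  · rcases v with _ | ⟨b, v⟩
    · simp at h
      omega
    · exact ⟨b, by simp, hv b (by simp)⟩
  · exact ⟨a, by simp, hu a (by simp)⟩

theorem I_re (t : ℝ) : (I * (t : ℂ)).re = 0 := by simp

theorem ax0_I {t : ℝ} (ht : t ∈ Icc (0 : ℝ) 1) : Ax0 (I * t) := by
  refine ⟨I_re t, ?_, ?_⟩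
  · simpa using ht.1
  · simpa using ht.2

/-- **the hypotheses of the function side along the ray** -/
theorem rayH_q (hq : 1 ≤ q) (hK : KRows nL q) (hU : ∀ δ : ℝ, 0 < δ → FxLe q δ) :
    RayH (q + 1) 1 (f0Q q) (famR q) := by
  have hperm : ∀ z : ℂ, ∀ X X' Y Y' : List ℂ, X.Perm X' → Y.Perm Y' → nL z X Y = nL z X' Y' :=
    fun z X X' Y Y' h h' => nL_perm z h h'
  refine RayH.ofQ hq (u0Q_of hU) (u1Q_of hU) ?_ ?_ ?_ ?_
  · exact Eventually.of_forall fun m x _ z => famR_diag q m x z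
  · filter_upwards [eventually_ge_atTop 1] with m hm t _
    rw [famR_eq (I_re t) (fun h => absurd h (Nat.succ_ne_zero q)), rayF_end (by omega), f0Q_nL q _ (I_re t)]
    have e : m + 1 - 2 = m - 1 := by omega
    rw [e]
  · intro e
    obtain ⟨K0, h0⟩ := hK.at (max e 0)
    obtain ⟨m0, h1⟩ := h0 (max K0 1) (le_max_left _ _)
    refine ⟨max K0 1, le_max_right _ _, ?_⟩
    filter_upwards [eventually_ge_atTop m0, eventually_ge_atTop 1] with m hm hm1 t ht
    have h2 := h1 (m + 1) (by omega) (I * t) (ax0_I ht)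
    have hz := I_re t
    have hm' : (1 : ℝ) ≤ m := by exact_mod_cast hm1
    have he : ((m + 1 : ℕ) : ℝ) ^ (-(max e 0)) ≤ (m : ℝ) ^ (-e) := by
      calc ((m + 1 : ℕ) : ℝ) ^ (-(max e 0)) ≤ (m : ℝ) ^ (-(max e 0)) := by
            refine Real.rpow_le_rpow_of_nonpos (by linarith) (by push_cast; linarith) ?_
            have := le_max_right e 0
            linarith
        _ ≤ (m : ℝ) ^ (-e) := by
            refine Real.rpow_le_rpow_of_exponent_le hm' ?_
            have := le_max_left e 0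
            linarith
    constructor
    · intro u v huv hu hv
      obtain ⟨p, hp, hp'⟩ := rayF_K0 (by omega) (hperm _) h2 u v huv hu hv
      refine ⟨p, hp, fun x hx => ?_⟩
      show ‖famR q m 0 (u ++ x :: v) (I * t) - _‖ ≤ _
      rw [famR_eq hz fun _ h => by
        obtain ⟨y, hy, ha⟩ := exists_other x hq huv hu hv
        exact ax_of_const h hy ha]
      exact (hp' x (by rwa [aF_aL])).trans he
    · intro j hj v hv hvA
      obtain ⟨p, hp, hp'⟩ := rayF_Kj (by omega) (hperm _) h2 j hj v hv hvA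
      refine ⟨p, hp, fun x hx => ?_⟩
      show ‖famR q m j (x :: v) (I * t) - _‖ ≤ _
      rw [famR_eq hz fun hj0 h => by
        subst hj0
        obtain ⟨y, hy, ha⟩ := exists_other (u := []) x hq (by simp; omega) (by simp) hvA
        exact ax_of_const h hy ha]
      exact (hp' x (by rwa [aF_aL])).trans he
  · refine Eventually.of_forall fun m t ht j hj v hv hvA => ?_
    have hz := I_re t
    rw [famR_eq hz fun hj0 h => ?_, famR_eq hz fun hj0 => absurd hj0 (Nat.succ_ne_zero j), ← aF_aL, rayF_C]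
    subst hj0
    obtain ⟨y, hy, ha⟩ := exists_other (u := []) ((aL : ℝ) : ℂ) hq (by simp; omega) (by simp) hvA
    exact ax_of_const h hy ha

/-- **output of the function side along the ray** -/
theorem funO2_q (hq : 1 ≤ q) (hK : KRows nL q) (hU : ∀ δ : ℝ, 0 < δ → FxLe q δ) {c : ℝ} (hc : 0 ≤ c)
    (hc1 : c < 2 / 3) (hE : PBV.E2 c fun j z x => fxQ q j x z) : FunO2 c (f0Q q) fun j => bP (f0Q q) j 0 := by
  refine (rayH_q hq hK hU).out2 (by omega) hc hc1 ?_
  have e : (fun (m : ℕ) (z x : ℂ) => famR q m 0 (List.replicate (q + 1) x) z) = fun j z x => fxQ q j x z := by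
    funext m z x
    exact famR_diag q m x z
  rwa [e]

/-- **the transfer along the ray `q`** (literal of `PBTRF.PLX.trP_of`; `k - 1` rows in the first group,
`q (k - 1)` rows in the second, cut rows `0` and `k`) -/
def TRq (q : ℕ) : Prop := ∀ (g : ℕ → ℂ) (c : ℝ), 0 < c → FunO2 c (f0Q q) g →
  ∃ (G : ℕ → ℂ) (c' C : ℝ) (κ : ℂ) (u' : ℕ → ℂ), 0 < c' ∧ (∀ᶠ k : ℕ in atTop, ‖u' k‖ = 1) ∧
    ∀ᶠ k : ℕ in atTop, ‖((nrmN (Lr q (k - 1)) * WPr (Lr q (k - 1)) k : ℝ) : ℂ) -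
      u' k * (κ * G ((k - 1) % 2))‖ ≤ C * (k : ℝ) ^ (-c')

/-- one parity -/
theorem tRray_par (hb : Odd q) {G : ℕ → ℂ} {c' C : ℝ} {κ : ℂ} {u' : ℕ → ℂ} (hc : 0 < c')
    (hu : ∀ᶠ k : ℕ in atTop, ‖u' k‖ = 1)
    (h : ∀ᶠ k : ℕ in atTop, ‖((nrmN (Lr q (k - 1)) * WPr (Lr q (k - 1)) k : ℝ) : ℂ) -
      u' k * (κ * G ((k - 1) % 2))‖ ≤ C * (k : ℝ) ^ (-c')) (p : ℕ) (S : Set ℕ) (hS : ∀ m ∈ S, m % 2 = p) :
    TRray q (atTop ⊓ 𝓟 S) := by
  have ht := tendsto_add_atTop_nat 1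
  refine ⟨c', |C|, κ * G p, fun m => u' (m + 1), hc, ?_, ?_⟩
  · exact (ht.eventually hu).filter_mono inf_le_left
  · rw [eventually_inf_principal]
    filter_upwards [ht.eventually h, eventually_ge_atTop 1] with m hm hm1 hmS
    rw [Nat.add_sub_cancel, hS m hmS, ← two_kr hb, nrmN_two] at hm
    rw [two_kr hb] at hm
    refine hm.trans ?_
    have hm' : (1 : ℝ) ≤ m := by exact_mod_cast hm1
    calc C * ((m + 1 : ℕ) : ℝ) ^ (-c') ≤ |C| * ((m + 1 : ℕ) : ℝ) ^ (-c') :=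
          mul_le_mul_of_nonneg_right (le_abs_self C) (Real.rpow_nonneg (by positivity) _)
      _ ≤ |C| * (m : ℝ) ^ (-c') := by
          refine mul_le_mul_of_nonneg_left ?_ (abs_nonneg C)
          exact Real.rpow_le_rpow_of_nonpos (by linarith) (by push_cast; linarith) (by linarith)

/-- **the transfer on the ray from the four inputs** -/
theorem tRray_of (hb : Odd q) (hK : KRows nL q) (hU : ∀ δ : ℝ, 0 < δ → FxLe q δ) {c : ℝ} (hc : 0 < c)
    (hc1 : c < 2 / 3) (hE : PBV.E2 c fun j z x => fxQ q j x z) (hT : TRq q) :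
    TRray q (atTop ⊓ 𝓟 {m | Even m}) ∧ TRray q (atTop ⊓ 𝓟 {m | ¬Even m}) := by
  obtain ⟨G, c', C, κ, u', h1, h2, h3⟩ := hT _ c hc (funO2_q hb.pos hK hU hc.le hc1 hE)
  refine ⟨tRray_par hb h1 h2 h3 0 _ fun m hm => ?_, tRray_par hb h1 h2 h3 1 _ fun m hm => ?_⟩
  · exact Nat.even_iff.1 hm
  · exact Nat.odd_iff.1 (Nat.not_even_iff_odd.1 hm)

/-- the two-point function of the same number of rows -/
theorem WP_WPr {N M r : ℕ} (h : r < N) (e : N = M) : (WP h).re = WPr M r := by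
  subst e
  exact (WPr_eq h).symm

/-- `TRq` in the names of the transfer: `N k = (k - 1) + q (k - 1) + 2` rows -/
theorem tRq_of (h : ∀ (g : ℕ → ℂ) (c : ℝ), 0 < c → FunO2 c (f0Q q) g →
    ∃ (G : ℕ → ℂ) (c' C : ℝ) (κ : ℂ) (u' : ℕ → ℂ), 0 < c' ∧ (∀ᶠ k : ℕ in atTop, ‖u' k‖ = 1) ∧
      ∀ᶠ k : ℕ in atTop, ‖((nrmN ((k - 1) + q * (k - 1) + 2) * WPr ((k - 1) + q * (k - 1) + 2) k : ℝ) : ℂ) -
        u' k * (κ * G ((k - 1) % 2))‖ ≤ C * (k : ℝ) ^ (-c')) : TRq q := by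
  intro g c hc hF
  obtain ⟨G, c', C, κ, u', h1, h2, h3⟩ := h g c hc hF
  refine ⟨G, c', C, κ, u', h1, h2, ?_⟩
  filter_upwards [h3] with k hk
  have e : (k - 1) + q * (k - 1) + 2 = Lr q (k - 1) := by
    unfold Lr
    ring
  rwa [e] at hk

/-- **the rays**: the hypotheses `h0`, `h1` of `Pool.Agent.PLN.pubA_rays` -/
theorem rays_of {c : ℝ} (hc : 0 < c) (hc1 : c < 2 / 3) (hK : ∀ q : ℕ, 1 ≤ q → KRows nL q)
    (hU : ∀ q : ℕ, 1 ≤ q → ∀ δ : ℝ, 0 < δ → FxLe q δ)
    (hE : ∀ q : ℕ, 1 ≤ q → PBV.E2 c fun j z x => fxQ q j x z) (hT : ∀ q : ℕ, 1 ≤ q → TRq q) :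
    (∀ B : ℕ, ∃ b : ℕ, B ≤ b ∧ Odd b ∧ TRray b (atTop ⊓ 𝓟 {m | Even m})) ∧
      ∀ B : ℕ, ∃ b : ℕ, B ≤ b ∧ Odd b ∧ TRray b (atTop ⊓ 𝓟 {m | ¬Even m}) := by
  have key : ∀ b : ℕ, Odd b → TRray b (atTop ⊓ 𝓟 {m | Even m}) ∧ TRray b (atTop ⊓ 𝓟 {m | ¬Even m}) :=
    fun b hb => tRray_of hb (hK b hb.pos) (hU b hb.pos) hc hc1 (hE b hb.pos) (hT b hb.pos)
  exact ⟨fun B => ⟨2 * B + 1, by omega, odd_two_mul_add_one B, (key _ (odd_two_mul_add_one B)).1⟩,
    fun B => ⟨2 * B + 1, by omega, odd_two_mul_add_one B, (key _ (odd_two_mul_add_one B)).2⟩⟩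

end Pool.Agent.PLX

end
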