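import Pool.Agent.PHK.TRsW6
import Pool.Agent.PHK.HolU6

/-!
# The particle-hole form (P), (TR), s-path: the functional with moduli and nonnegative insertions

(P) twin of `PLX/PB/TRsD4a`, `TRsD4b`, `TRsD4`.

* `gK_congrN6`, `wK_congrN6`, `FE_congrN6`: the functional with moduli depends on the moduli of the one body functions
  at the quanta on the curve and at the objects;
* `norm_ZW_pt6`, `norm_ZW_obK6`, `FE_ZW6`, **`FE_WL6`**: the landed one body functions;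
* `norm_ZWg_pt`, `norm_ZWg_obK`, `FE_ZWg`, **`FE_WLg`**: any corrections of the cutoffs of the strings.
-/

set_option autoImplicit false
set_option linter.unusedSectionVars false
set_option linter.unusedVariables false

noncomputable section

open Complex MeasureTheory Finset
open scoped ENNReal
open PLX (Fil)

namespace PBTs.PLX

open NUO NUP1 NUCR NUP1S NUP1S.Ab NUP1S.AbC NUGC NUGC.PLX PHK
open PBF.PLX (Ins Crs Zm quF expZ FE6 trE6 InsE)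
open PBR.PLX (R06 R06U RZW)

variable [Fil]

section congr

variable {Z Z' : Bool → Option O3 → ℂ → ℂ} {P : Par6} {n n' : ℕ} {η η' : Crs}

theorem gK_congrN6 {r : ℕ} {O : Fin r → Xo} {e e' : ℝ → ℝ}
    (h : ∀ s t, ‖Z s none (NUO.pA (Fil.cv s e) t)‖ = ‖Z' s none (NUO.pA (Fil.cv s e) t)‖)
    {a b : ℕ}
    (x : (Fin a → ℝ) × (Fin b → ℝ)) :
    ‖PBF.PLX.gK (gF6 Z P O) e e' a b x‖ₑ = ‖PBF.PLX.gK (gF6 Z' P O) e e' a b x‖ₑ := by
  rw [← ofReal_norm, ← ofReal_norm]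
  congr 1
  unfold PBF.PLX.gK Fc
  rw [Fintype.prod_sum_type, Fintype.prod_sum_type]
  have e1 : ∀ (s : Bool) (t : ℝ),
      ‖hh p0 (gF6 Z P O) (crvC s NUP1.l (dA (Fil.cv s e)) (dA (Fil.cv s e'))) t‖ =
      ‖hh p0 (gF6 Z' P O) (crvC s NUP1.l (dA (Fil.cv s e)) (dA (Fil.cv s e'))) t‖ := by
    intro s t
    rw [hh_G, hh_G]
    unfold gF6
    simp only [norm_mul]
    rw [h]
  simp only [norm_mul, norm_prod, cCt, Sum.elim_inl, Sum.elim_inr, e1]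

theorem wK_congrN6 {r : ℕ} {O : Fin r → Xo} (h : ∀ i, ‖obK6 Z P (O i)‖ = ‖obK6 Z' P (O i)‖) :
    ‖wK6 Z P O‖ₑ = ‖wK6 Z' P O‖ₑ := by
  rw [← ofReal_norm, ← ofReal_norm]
  congr 1
  unfold wK6
  rw [norm_mul, norm_mul, norm_prod, norm_mul, norm_mul, norm_prod,
    Finset.prod_congr rfl fun i _ => h i]

/-- **the functional with moduli depends on moduli** -/
theorem FE_congrN6 (φ : InsE) (hq : ∀ r ≤ 2 * (n + n'), ∀ᵐ O ∂(Measure.pi fun _ : Fin r => nu),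
      ∀ s t, ‖Z s none (NUO.pA (Fil.cv s (η r O)) t)‖ = ‖Z' s none (NUO.pA (Fil.cv s (η r O)) t)‖)
    (ho : ∀ x, ‖obK6 Z P x‖ = ‖obK6 Z' P x‖) :
    FE6 Z P n n' η η' φ = FE6 Z' P n n' η η' φ := by
  unfold PBF.PLX.FE6
  refine Finset.sum_congr rfl fun r hr => ?_
  congr 1
  have hr' : r ≤ 2 * (n + n') := by
    have := Finset.mem_range.1 hr
    omega
  refine lintegral_congr_ae ?_
  filter_upwards [hq r hr'] with O hO
  unfold PBF.PLX.trE6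
  split_ifs
  · rw [wK_congrN6 fun i => ho (O i)]
    simp only [gK_congrN6 hO]
  · rfl

/-- objects: multiplication with the signs -/
theorem norm_obK_sg6 (Z : Bool → Option O3 → ℂ → ℂ) (P : Par6) (x : Xo) :
    ‖obK6 (Zm Z sgF) P x‖ = ‖obK6 Z P x‖ := by
  rw [obK6_mul, norm_mul, obF_sgF6, norm_zpow, norm_neg, norm_one, one_zpow, mul_one]

end congr

variable {w w' : ℂ} (hw : w.re = 5 / 4 * NUP1.l) (hw' : w'.re = 5 / 4 * NUP1.l)
include hw hw'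

/-! ### the landed one body functions -/

theorem norm_ZW_pt6 (m : ℕ) (β : ℝ) (ex ex0 : List ℂ) (b : Bool) {k : Option O3} {u : ℂ}
    (hu : At6 k u) : ‖ZW m β ex ex0 w w' b k u‖ =
      ‖expZ (ZLw m β ex ex0 w w') (DT w w') 1 b k u‖ := by
  rw [ZW_pt6 hw hw' m β ex ex0 b hu]
  unfold Zm sgF
  rw [norm_mul, norm_sgk6, mul_one]

theorem norm_ZW_obK6 (m : ℕ) (β : ℝ) (ex ex0 : List ℂ) {P : Par6} (hP : GoodP6 P) (x : Xo) :
    ‖obK6 (ZW m β ex ex0 w w') P x‖ =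
      ‖obK6 (expZ (ZLw m β ex ex0 w w') (DT w w') 1) P x‖ := by
  rw [ZW_obK6 hw hw' m β ex ex0 hP x, norm_obK_sg6]

/-! ### any corrections of the cutoffs of the strings -/

theorem norm_ZWg_pt (m : ℕ) (β : ℝ) (ex : List ℂ) (g0 : Bool → ℂ → ℂ) (b : Bool) {k : Option O3}
    {u : ℂ} (hu : At6 k u) : ‖ZWg m β ex g0 w w' b k u‖ =
      ‖expZ (ZLg m β ex g0 w w') (DT w w') 1 b k u‖ := by
  rw [ZWg_pt hw hw' m β ex g0 b hu]
  unfold Zm sgF
  rw [norm_mul, norm_sgk6, mul_one]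

theorem norm_ZWg_obK (m : ℕ) (β : ℝ) (ex : List ℂ) (g0 : Bool → ℂ → ℂ) {P : Par6} (hP : GoodP6 P)
    (x : Xo) : ‖obK6 (ZWg m β ex g0 w w') P x‖ =
      ‖obK6 (expZ (ZLg m β ex g0 w w') (DT w w') 1) P x‖ := by
  rw [ZWg_obK hw hw' m β ex g0 hP x, norm_obK_sg6]

variable {P : Par6} (hP : GoodP6 P) {n n' : ℕ} {η η' : Crs}
include hP

/-- **nonnegative insertions** -/
theorem FE_ZW6 (m : ℕ) (β : ℝ) (ex ex0 : List ℂ)
    (hη : ∀ r ≤ 2 * (n + n'), ∀ᵐ O ∂(Measure.pi fun _ : Fin r => nu), ∀ t, |η r O t| ≤ NUP1.l / 5)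
    (φ : InsE) : FE6 (ZW m β ex ex0 w w') P n n' η η' φ =
      FE6 (expZ (ZLw m β ex ex0 w w') (DT w w') 1) P n n' η η' φ := by
  refine FE_congrN6 φ (fun r hr => ?_) fun x => norm_ZW_obK6 hw hw' m β ex ex0 hP x
  filter_upwards [hη r hr] with O hO
  exact fun s t => norm_ZW_pt6 hw hw' m β ex ex0 s (at_A6 (Fil.abs_cv_le_of (hO t)))

/-- **nonnegative insertions, regular function** -/
theorem FE_WL6 (m : ℕ) (β : ℝ) (ex ex0 : List ℂ)
    (hη : ∀ r ≤ 2 * (n + n'), ∀ᵐ O ∂(Measure.pi fun _ : Fin r => nu), ∀ t, |η r O t| ≤ NUP1.l / 5)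
    (φ : InsE) : FE6 (RZW (_root_.Pool.Agent.PLX.R0 m β ex ex0) w w') P n n' η η' φ =
      FE6 (expZ (ZLw m β ex ex0 w w') (DT w w') 1) P n n' η η' φ := by
  rw [ZW_RZW]
  exact FE_ZW6 hw hw' hP m β ex ex0 hη φ

/-- **nonnegative insertions, any corrections** -/
theorem FE_ZWg (m : ℕ) (β : ℝ) (ex : List ℂ) (g0 : Bool → ℂ → ℂ)
    (hη : ∀ r ≤ 2 * (n + n'), ∀ᵐ O ∂(Measure.pi fun _ : Fin r => nu), ∀ t, |η r O t| ≤ NUP1.l / 5)
    (φ : InsE) : FE6 (ZWg m β ex g0 w w') P n n' η η' φ =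
      FE6 (expZ (ZLg m β ex g0 w w') (DT w w') 1) P n n' η η' φ := by
  refine FE_congrN6 φ (fun r hr => ?_) fun x => norm_ZWg_obK hw hw' m β ex g0 hP x
  filter_upwards [hη r hr] with O hO
  exact fun s t => norm_ZWg_pt hw hw' m β ex g0 s (at_A6 (Fil.abs_cv_le_of (hO t)))

/-- **nonnegative insertions, regular function, any corrections** -/
theorem FE_WLg (m : ℕ) (β : ℝ) (ex : List ℂ) (g0 : Bool → ℂ → ℂ)
    (hη : ∀ r ≤ 2 * (n + n'), ∀ᵐ O ∂(Measure.pi fun _ : Fin r => nu), ∀ t, |η r O t| ≤ NUP1.l / 5)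
    (φ : InsE) : FE6 (RZW (R06 m β ex (g0 true) (g0 false)) w w') P n n' η η' φ =
      FE6 (expZ (ZLg m β ex g0 w w') (DT w w') 1) P n n' η η' φ := by
  rw [RZW_g]
  exact FE_ZWg hw hw' hP m β ex g0 hη φ

end PBTs.PLX

end
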