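import Pool.Agent.PHK.TRsB6
import Pool.Agent.PHK.WardCf6
import Pool.Agent.PLX.PB.TRsM

/-!
# The particle-hole form (P): (TR), s-path: the mean statement

(P) twin of `PLX/PB/TRsM`; `fMH`, `WM`, `kap`, `int_line2`, `Vst_add`, `Vst_sub`, `Vst_congr`, `stQ_Sst`,
`meas_rsp`, `meas_zq` are the landed ones.

* `ERR6` : the error; `MeanH6` : the hypotheses for one class (curves `CrvR6`, log derivatives `LogD6`);
  **`MeanH6.point`** (M1): `A - (κ0 + s q + p) = ERR - WM`;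
* `MeanH6.ward` : `FF6 WM = 0`;
* **`mean_N6`** (M3): the mean statement on `mN6 N`, the input of `nF_err6`.
-/

set_option autoImplicit false
set_option linter.unusedSectionVars false

noncomputable section

open Complex MeasureTheory Finset
open scoped ENNReal
open PLX (Fil)

namespace PBF.PLX

open NUO NUP1 NUCR NUP1S NUP1S.Ab NUP1S.AbC NUGC NUGC.PLX PBFunc PBFunc.PLX
open PHK

variable [Fil]

/-- **the error insertion** -/
def ERR6 (D : Bool → Option O3 → ℂ → ℂ) (P : Par6) (η : Crs) (s p q : ℂ) (ρ : ℂ → ℂ)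
    (X D1 E lg : Bool → ℂ → ℂ) (ko : (r : ℕ) → (Fin r → Xo) → Bool → ℂ → ℂ) : Ins :=
  fun r O a b x =>
    (stO6 D P O + ∑ b, (∫ t : ℝ, Fil.b b * ρ t * fMH s X D1 lg ko r O b t) - s * q - p) +
      Vst η ρ (fun b z => E b z + fMH s X D1 lg ko r O b z) r O a b x + Qst η ρ X r O a b x

/-- **the data of one class**: `Q` = number of quanta X minus number of quanta Y -/
structure MeanH6 (Z D : Bool → Option O3 → ℂ → ℂ) (P : Par6) (η η' : Crs) (Q : ℤ)
    (s : ℂ) (δ κ b1 : ℝ) (ρ : ℂ → ℂ) (X LZ D1 E lg : Bool → ℂ → ℂ)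
    (LP ko : (r : ℕ) → (Fin r → Xo) → Bool → ℂ → ℂ) : Prop where
  hQ : QOk6 (expZ Z D s) δ κ Q
  hS : StP δ P
  crv : ∀ r O, CrvR6 δ (η r O) (η' r O)
  hL : LogD6 (expZ Z D s) P δ (fun b z => LZ b z + s * D1 b z) LP
  b0 : δ * NUP1.l < b1
  bl : 2 * b1 ≤ NUP1.l
  sea : PB.SeaF b1 ρ
  fld : PB.FldF b1 X
  eR : ∀ b (z : ℂ), |z.im| < b1 →
    PB.rsp (PB.mulF2 ρ X) b z = D b none (NUP1.l + I * z) - E b z
  eL : ∀ b (z : ℂ), |z.im| < b1 → I * LZ b (NUP1.l + I * z) - PB.kp2 ρ b z = lg b z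
  eP : ∀ r O b (z : ℂ), |z.im| < b1 → I * LP r O b (NUP1.l + I * z) = ko r O b z
  iE : ∀ b, Integrable fun t : ℝ => ρ t * E b t
  mP : ∀ r b, Measurable fun y : (Fin r → Xo) × ℂ => LP r y.1 b y.2

section one

variable {Z D : Bool → Option O3 → ℂ → ℂ} {P : Par6} {η η' : Crs} {Q : ℤ} {s : ℂ} {δ κ b1 : ℝ}
  {ρ : ℂ → ℂ} {X LZ D1 E lg : Bool → ℂ → ℂ} {LP ko : (r : ℕ) → (Fin r → Xo) → Bool → ℂ → ℂ}

/-- the linear statistic only depends on the strip of the curves -/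
theorem Vst_congrS {η : Crs} (h0 : 0 < b1)
    (hz : ∀ (r : ℕ) (O : Fin r → Xo) (s : Bool) (t : ℝ), |(zc (Fil.cv s (η r O)) t).im| < b1)
    (ρ : ℂ → ℂ) {f g : Bool → ℂ → ℂ} (h : ∀ b (z : ℂ), |z.im| < b1 → f b z = g b z) (r : ℕ)
    (O : Fin r → Xo) (a b : ℕ) (x : (Fin a → ℝ) × (Fin b → ℝ)) :
    Vst η ρ f r O a b x = Vst η ρ g r O a b x := by
  unfold Vst PB.NX.nuL
  congr 1
  · refine Finset.sum_congr rfl fun k _ => ?_
    exact h _ _ (hz r O _ _)
  · refine Finset.sum_congr rfl fun c _ => integral_congr_ae (Filter.Eventually.of_forall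
      fun u => ?_)
    simp only []
    rw [h c (PB.eR u) (by
      unfold PB.eR
      rw [Complex.ofReal_im, abs_zero]
      exact h0)]

namespace MeanH6

variable (h : MeanH6 Z D P η η' Q s δ κ b1 ρ X LZ D1 E lg LP ko)
include h

/-- the force -/
theorem lam (r : ℕ) (O : Fin r → Xo) (b : Bool) (z : ℂ) (hz : |z.im| < b1) :
    X b z * lamF ρ (LT (fun b z => LZ b z + s * D1 b z) LP) r O b z =
      fMH s X D1 lg ko r O b z := by
  unfold lamF LT fMH
  rw [← h.eL b z hz, ← h.eP r O b z hz]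
  ring

theorem b1_pos : 0 < b1 := by
  have hl := Bd.l_pos
  have h1 := h.b0
  have h2 := mul_nonneg h.hS.d0 hl.le
  linarith

/-- the curves are in the strip of the fields -/
theorem zc_lt (r : ℕ) (O : Fin r → Xo) (b : Bool) (t : ℝ) :
    |(zc (Fil.cv b (η r O)) t).im| < b1 := by
  rw [zc_im]
  exact (((h.crv r O).cv b).h1 t).trans_lt h.b0

/-- integrability of the statistic of `D` -/
theorem iD (b : Bool) : Integrable fun t : ℝ => ρ t * D b none (NUP1.l + I * t) := by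
  have hL := int_line2 h.sea h.fld h.b1_pos b
  have h1 : Integrable fun t : ℝ => ρ t * PB.cV (deriv (PB.mulF2 ρ X b)) t +
      ρ t * PB.cG (fun w => PB.mulF2 ρ X b w - PB.mulF2 ρ X (!b) w) t := hL.2.2.1.add hL.2.2.2
  refine (((h.iE b).sub h1)).congr (Filter.Eventually.of_forall fun t => ?_)
  have e := h.eR b (t : ℂ) (PB.real_im t h.b1_pos)
  have e2 : D b none (NUP1.l + I * t) = E b t + PB.rsp (PB.mulF2 ρ X) b t := by
    rw [e]
    ring
  simp only [Pi.sub_apply]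
  rw [e2]
  unfold PB.rsp
  ring

/-- integrability of the forces -/
theorem iF (r : ℕ) (O : Fin r → Xo) (b : Bool) :
    Integrable fun t : ℝ => ρ t * fMH s X D1 lg ko r O b t := by
  have hl := Bd.l_pos
  have hL := int_line2 h.sea h.fld h.b1_pos b
  obtain ⟨B1, hB1⟩ := h.hL.bZ
  obtain ⟨B2, hB2⟩ := h.hL.bP r O
  obtain ⟨B3, hB3, hB3'⟩ := h.fld.bd
  have hre : ∀ t : ℝ, ((NUP1.l : ℂ) + I * t).re ∈ Ks6 δ := fun t => by
    have e : ((NUP1.l : ℂ) + I * t).re = NUP1.l := by simp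
    rw [e]
    have h5 := h.hS.d0
    constructor <;> nlinarith
  have iρ : Integrable fun t : ℝ => ρ t := by
    obtain ⟨A, c, hA, hc, h1⟩ := h.sea.bd
    refine PB.int_ln (A := A) hc ?_ fun t => ?_
    · have : Continuous fun t : ℝ => ρ t := by
        have h2 := PB.cont_ln (y := 0) (by rw [abs_zero]; exact h.b1_pos) h.sea.d
        simpa using h2
      exact this.aestronglyMeasurable
    · have := h1 (t : ℂ) (PB.real_im t h.b1_pos)
      rwa [Complex.ofReal_re] at this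
  have cX : Continuous fun t : ℝ => X b t := by
    have h2 := PB.cont_ln (y := 0) (by rw [abs_zero]; exact h.b1_pos) (h.fld.d b)
    simpa using h2
  have ml : Measurable fun t : ℝ => ((NUP1.l : ℂ) + I * t) := by fun_prop
  have mL : Measurable fun t : ℝ => LZ b (NUP1.l + I * t) + s * D1 b (NUP1.l + I * t) +
      LP r O b (NUP1.l + I * t) := ((h.hL.mZ b).comp ml).add ((h.hL.mP r O b).comp ml)
  have i1 : Integrable fun t : ℝ => (X b t * (I * (LZ b (NUP1.l + I * t) +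
      s * D1 b (NUP1.l + I * t) + LP r O b (NUP1.l + I * t)))) * ρ t := by
    refine iρ.bdd_mul (c := B3 * (B1 + B2))
      (cX.measurable.mul (mL.const_mul I)).aestronglyMeasurable
      (Filter.Eventually.of_forall fun t => ?_)
    rw [norm_mul, norm_mul, norm_I, one_mul]
    refine mul_le_mul (hB3' b _ (PB.real_im t h.b1_pos)) ?_ (norm_nonneg _) hB3
    exact (norm_add_le _ _).trans (add_le_add (hB1 b _ (hre t)) (hB2 b _ (hre t)))
  refine (i1.sub hL.2.1).congr (Filter.Eventually.of_forall fun t => ?_)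
  have e := h.lam r O b (t : ℂ) (PB.real_im t h.b1_pos)
  simp only [Pi.sub_apply]
  rw [← e]
  unfold lamF LT
  ring

/-- **(M1)** the pointwise identity -/
theorem point (p q : ℂ) (r : ℕ) (O : Fin r → Xo) (a b : ℕ) (x : (Fin a → ℝ) × (Fin b → ℝ)) :
    stA6 D P η r O a b x - (kap D ρ + s * q + p) =
      ERR6 D P η s p q ρ X D1 E lg ko r O a b x -
        WM η ρ X (LT (fun b z => LZ b z + s * D1 b z) LP) r O a b x := by
  have e1 : stQ D (η r O) a b x = kap D ρ +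
      Vst η ρ (fun b z => D b none (NUP1.l + I * z)) r O a b x := by
    rw [stQ_Sst]
    exact Sst_eq η ρ (fun b z => D b none (NUP1.l + I * z)) r O a b x
  have e2 : Vst η ρ (PB.rsp (PB.mulF2 ρ X)) r O a b x =
      Vst η ρ (fun b z => D b none (NUP1.l + I * z)) r O a b x - Vst η ρ E r O a b x := by
    rw [← Vst_sub η ρ h.iD h.iE]
    exact Vst_congrS h.b1_pos h.zc_lt ρ h.eR r O a b x
  have e3 : Sst η (fun r O s' z => X s' z * lamF ρ (LT (fun b z => LZ b z + s * D1 b z) LP) r O s' z)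
      r O a b x = (∑ b, ∫ t : ℝ, (Fil.b b : ℂ) * ρ t * fMH s X D1 lg ko r O b t) +
        Vst η ρ (fMH s X D1 lg ko r O) r O a b x := by
    rw [← Sst_eq η ρ (fMH s X D1 lg ko r O) r O a b x]
    unfold Sst
    refine Finset.sum_congr rfl fun k _ => ?_
    exact h.lam r O _ _ (h.zc_lt r O _ _)
  have e4 : Vst η ρ (fun b z => E b z + fMH s X D1 lg ko r O b z) r O a b x =
      Vst η ρ E r O a b x + Vst η ρ (fMH s X D1 lg ko r O) r O a b x :=
    Vst_add η ρ h.iE (h.iF r O) r O a b x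
  unfold stA6 ERR6 WM
  rw [e1, e2, e3, e4]
  ring

/-- the Ward identity of this class -/
theorem ward {n n' : ℕ} (hn : (n : ℤ) - n' = Q) : FF6 (expZ Z D s) P n n' η η'
    (WM η ρ X (LT (fun b z => LZ b z + s * D1 b z) LP)) = 0 := by
  have key := ward_V6 (n := n) (n' := n') h.hQ h.hS h.crv hn h.hL h.b0 h.bl
    h.sea h.fld (InsD.const η' 1)
  rw [← key]
  congr 1
  funext r O a b x
  unfold WM DX
  simp

end MeanH6

/-! ### measurability -/

section meas

theorem MeanH6.mW (h : MeanH6 Z D P η η' Q s δ κ b1 ρ X LZ D1 E lg LP ko) (hm : MCr η η') :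
    MIn (WM η ρ X (LT (fun b z => LZ b z + s * D1 b z) LP)) := by
  intro r a b
  have hz := fun k : Fin a ⊕ Fin b => meas_zq hm r k
  have hz' := fun (k : Fin a ⊕ Fin b) (p : (Fin r → Xo) × ((Fin a → ℝ) × (Fin b → ℝ))) =>
    h.zc_lt r p.1 (spQ a b k) (Sum.elim p.2.1 p.2.2 k)
  unfold WM Vst Qst Sst PB.NX.nuL PB.NX.nuQ
  refine (((Measurable.sub (Finset.measurable_fun_sum _ fun k _ => ?_) measurable_const).neg).add
    (((measurable_const.mul (Finset.measurable_fun_sum _ fun i _ =>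
    Finset.measurable_fun_sum _ fun j _ => ?_)).sub
    (Finset.measurable_fun_sum _ fun i _ => ?_)).add measurable_const)).add
    (Finset.measurable_fun_sum _ fun k _ => Measurable.mul ?_ ?_)
  · exact meas_rsp (PB.mulF2_d h.sea h.fld) _ (hz k) (hz' k)
  · exact meas_aC h.fld _ _ (hz i) (hz j) (hz' i) (hz' j)
  · exact meas_smr h.fld h.b1_pos h.sea _ (hz i) (hz' i)
  · exact meas_an (h.fld.d _) (hz k) (hz' k)
  · unfold lamF LT
    have hp : Measurable fun p : (Fin r → Xo) × ((Fin a → ℝ) × (Fin b → ℝ)) =>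
        ((NUP1.l : ℂ) + I * zq η r p.1 p.2 k) := measurable_const.add (measurable_const.mul (hz k))
    refine (measurable_const.mul (((h.hL.mZ _).comp hp).add
      ((h.mP r _).comp (measurable_fst.prodMk hp)))).sub ?_
    exact meas_kp2 h.sea.d (hz k) (hz' k) _

theorem MeanH6.mE (h : MeanH6 Z D P η η' Q s δ κ b1 ρ X LZ D1 E lg LP ko) (hm : MCr η η')
    (hA : MIn (stA6 D P η)) (p q : ℂ) : MIn (ERR6 D P η s p q ρ X D1 E lg ko) := by
  have e : ERR6 D P η s p q ρ X D1 E lg ko = fun r O a b x => (stA6 D P η r O a b x -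
      (kap D ρ + s * q + p)) + WM η ρ X (LT (fun b z => LZ b z + s * D1 b z) LP) r O a b x := by
    funext r O a b x
    rw [h.point p q]
    ring
  rw [e]
  intro r a b
  exact ((hA r a b).sub measurable_const).add (h.mW hm r a b)

end meas

end one

/-! ### the sum over the number of quanta -/

section N

variable {Z D : ℕ → Bool → Option O3 → ℂ → ℂ} {P : ℕ → Par6} {N : ℕ} {η η' : ℕ → Crs}
  {c : ℕ → ℂ} {B : ℝ} {s : ℂ} {δ κ b1 : ℕ → ℝ} {ρ : ℕ → ℂ → ℂ} {X LZ D1 E lg : ℕ → Bool → ℂ → ℂ}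
  {LP ko : ℕ → (r : ℕ) → (Fin r → Xo) → Bool → ℂ → ℂ}

/-- **(M3) the mean statement** on `mN6 N` (input of `nF_err`) -/
theorem mean_N6 (h : PathD6 Z D P N η η' B) (hI : WI (mN6 N) (wN6 Z P N η η' c) (fun _ => 1))
    (hM : ∀ n ≤ N, MeanH6 (Z n) (D n) (P n) (η n) (η' n) (-(dN N : ℤ)) s (δ n) (κ n) (b1 n) (ρ n) (X n) (LZ n)
      (D1 n) (E n) (lg n) (LP n) (ko n)) {κ0 : ℂ} (hκ : ∀ n ≤ N, kap (D n) (ρ n) = κ0) (p q : ℂ)
    {ι : Type*} (J : Finset ι) {Y : ι → CfN6 N → ℝ≥0∞} (hY : ∀ j ∈ J, Measurable (Y j))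
    (hE : ∀ x, ‖evN6 (fun n => ERR6 (D n) (P n) (η n) s p q (ρ n) (X n) (D1 n) (E n) (lg n) (ko n))
      x‖ₑ ≤ ∑ j ∈ J, Y j x) :
    ENNReal.ofReal ‖F (mN6 N) (wN6 (expN Z D s) P N η η' c) (evN6 (stN6 D P η)) -
      (κ0 + s * q + p) * F (mN6 N) (wN6 (expN Z D s) P N η η' c) (fun _ => 1)‖ ≤
      ∑ j ∈ J, ∫⁻ x, ‖wN6 (expN Z D s) P N η η' c x‖ₑ * Y j x ∂(mN6 N) := by
  set w := wN6 (expN Z D s) P N η η' c with hw
  have mw : Measurable w := wN_meas6 (h.mc s)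
  set Er : ℕ → Ins := fun n => ERR6 (D n) (P n) (η n) s p q (ρ n) (X n) (D1 n) (E n) (lg n) (ko n)
    with hEr
  set W : ℕ → Ins := fun n =>
    WM (η n) (ρ n) (X n) (LT (fun b z => LZ n b z + s * D1 n b z) (LP n)) with hWd
  have mE : ∀ n ≤ N, MIn (Er n) := fun n hn => (hM n hn).mE (h.hc n hn) (h.mst n hn) p q
  have mW : ∀ n ≤ N, MIn (W n) := fun n hn => (hM n hn).mW (h.hc n hn)
  have hs : ∑ j ∈ J, ∫⁻ x, ‖w x‖ₑ * Y j x ∂(mN6 N) = ∫⁻ x, ∑ j ∈ J, ‖w x‖ₑ * Y j x ∂(mN6 N) :=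
    (lintegral_finsetSum' _ fun j hj => (mw.enorm.mul (hY j hj)).aemeasurable).symm
  have hle : ∫⁻ x, ‖w x‖ₑ * ‖evN6 Er x‖ₑ ∂(mN6 N) ≤ ∑ j ∈ J, ∫⁻ x, ‖w x‖ₑ * Y j x ∂(mN6 N) := by
    rw [hs]
    refine lintegral_mono fun x => ?_
    rw [← Finset.mul_sum]
    exact mul_le_mul' le_rfl (hE x)
  rcases eq_or_ne (∑ j ∈ J, ∫⁻ x, ‖w x‖ₑ * Y j x ∂(mN6 N)) ∞ with htop | htop
  · rw [htop]
    exact le_top
  have wE : WI (mN6 N) w (evN6 Er) := by
    refine ⟨(mw.mul (evN_meas6 mE)).aestronglyMeasurable, ?_⟩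
    unfold HasFiniteIntegral
    simp only [enorm_mul]
    exact hle.trans_lt (lt_top_iff_ne_top.2 htop)
  have w1 : WI (mN6 N) w (fun _ => 1) := h.wi hI s
  have wA : WI (mN6 N) w (evN6 (stN6 D P η)) := by
    have h1 := h.wi (h.wiA hI) s
    simp only [mul_one] at h1
    exact h1
  have wS : WI (mN6 N) w (fun x => evN6 (stN6 D P η) x + (-(κ0 + s * q + p)) * 1) :=
    wA.add (w1.smul _)
  have eW : (evN6 W : CfN6 N → ℂ) = fun x => evN6 Er x +
      (-1) * (evN6 (stN6 D P η) x + (-(κ0 + s * q + p)) * 1) := by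
    funext x
    obtain ⟨⟨n, hn⟩, x⟩ := x
    have hn' : n ≤ N := by omega
    have := (hM n hn').point p q x.1.1 x.2.1 x.1.2.1 x.1.2.2 x.2.2
    rw [hκ n hn'] at this
    simp only [evN6, ev6, W, Er, stN6]
    linear_combination this
  have wW : WI (mN6 N) w (evN6 W) := by
    rw [eW]
    exact wE.add (wS.smul (-1))
  have k1 : F (mN6 N) w (evN6 W) = 0 := F_zero6 (h.mc s) mW wW fun n hn =>
    (hM n hn).ward (by push_cast; ring)
  rw [eW, F_add wE (wS.smul (-1)), F_smul, F_add wA (w1.smul _), F_smul] at k1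
  have k2 : F (mN6 N) w (evN6 (stN6 D P η)) - (κ0 + s * q + p) * F (mN6 N) w (fun _ => 1) =
      F (mN6 N) w (evN6 Er) := by
    linear_combination -k1
  rw [k2, ofReal_norm]
  refine le_trans ?_ hle
  unfold F
  refine (enorm_integral_le_lintegral_enorm _).trans (le_of_eq ?_)
  simp only [enorm_mul]

end N

end PBF.PLX

end
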