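import Pool.Agent.PHK.TRsB6
import Pool.Agent.PHK.LogP
import Pool.Agent.PHK.Zv6

/-!
# (P), (TR): the literal data of the s-path

The data without kinds (`wa`, `wb`, `nk`, `qk`, `Dv`, `D1v`, `rv`, `Xv`, `LZv`, `lgv`, `Ev`, `κv`, `Mv`,
`mTv`, `Szv`, `okv`, `Pv`) are the landed ones of `PLX/PB/TRsV`; `Zv6`, `famV6`, `famW6` of `PHK/Zv6`.

* `LPv6`, `kov6`: log derivative and force of the objects of the six kinds;
* `nFv6`: the normalised functional on the path.
-/

set_option autoImplicit false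

noncomputable section

open Complex MeasureTheory Finset
open PLX (Fil)

namespace PBTV.PLX

open NUO NUP1 NUP1S NUP1S.Ab NUGC NUGC.PLX PBF PBF.PLX PBU PBU.PLX PHK

/-- log derivative of the kernels of the objects -/
def LPv6 (_k : ℕ) : (r : ℕ) → (Fin r → Xo) → Bool → ℂ → ℂ := LPo6 par6

/-- force of the objects -/
def kov6 (k : ℕ) : (r : ℕ) → (Fin r → Xo) → Bool → ℂ → ℂ := fun r O b z =>
  I * LPv6 k r O b (NUP1.l + I * z)

variable [Fil] [NUSea.Sea]

/-- **the normalised functional on the path** -/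
def nFv6 (ep e1 J : ℝ) (k : ℕ) (τ : ℝ × ℝ) (s : ℝ) : ℂ :=
  nF6 (fun _ => Zv6 ep k τ) (fun _ => Dv τ) (fun _ => par6) (2 * (k - 1))
    (fun _ => cr e1 J k) (fun _ => cr' e1 J k) (fun _ => Pv k τ) 1 (κv k τ) s

end PBTV.PLX

end
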