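import Pool.Agent.PLX.PB.TRsF
import Pool.Agent.PHK.TRsM6
import Pool.Agent.PHK.TRsV6
import Pool.Agent.PHK.QRepU6

/-!
# The particle-hole form (P), (TR): the error on the s-path and (H3)

(P) twin of `PLX/PB/TRsF`; the field, the weights `wv`, `Bv`, `DN_v`, `pI_v`, `gI_v` are the landed ones.

* `MeanP6`, `PathP6`, `G1P6`, `G2P6`: the outputs of `TRsN6` and `TRsG6` as propositions;
* `lin_bd6`, `quad_bd6`: the two parts of the error under `UB6`;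
* `hE_v6`: `‖nF' - (s q + p) nF‖ ≤ k^e Er (e^{|τ₁+τ₂|})^{1-s} (e^{-mT} / |k1|)^s`;
* **`h3_w6`, `h3_v6`**: the conclusion (H3) between the two ends of the path.
-/

set_option autoImplicit false
set_option linter.unusedSectionVars false

noncomputable section

open Complex MeasureTheory Finset Filter
open scoped ENNReal
open PLX (Fil)

namespace PBTV.PLX

open NUO NUP1 NUP1S NUP1S.Ab NUP1S.AbC NUGC NUGC.PLX PBFunc PBFunc.PLX PBF PBF.PLX PBU PBU.PLX PBP PBP.PLX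
open PHK

variable [Fil]

/-! ### the inputs -/

attribute [local instance] NUSea.seaP

/-- output of `TRsN`: the hypotheses of the mean statement -/
def MeanP6 (ep e1 J : ℝ) : Prop := ∃ k0 : ℕ, ∀ k ≥ k0, ∀ (τ : ℝ × ℝ) (s : ℂ), ∃ κ : ℝ,
  MeanH6 (Zv6 ep k τ) (Dv τ) par6 (cr e1 J k) (cr' e1 J k)
    (-(dN (2 * (k - 1)) : ℤ)) s (ep / 4) κ (NUP1.l / 5)
    (rv k) (Xv k τ) (LZv ep k τ) (D1v τ) (Ev k τ) (lgv ep k τ) (LPv6 k) (kov6 k)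

/-- output of `TRsN`: the path -/
def PathP6 (ep e1 J : ℝ) : Prop := ∃ k0 : ℕ, ∀ k ≥ k0, ∀ τ : ℝ × ℝ, okv k τ →
  ∃ B : ℝ, PathD6 (fun _ => Zv6 ep k τ) (fun _ => Dv τ) (fun _ => par6) (2 * (k - 1))
    (fun _ => cr e1 J k) (fun _ => cr' e1 J k) B

/-- integrability of the family, from the bound of the mass -/
theorem wiF_v6 {ep e1 J : ℝ} {p : ℕ} {K ε : ℝ} (h : UB6 famV6 ep e1 J p K ε) (hK : 1 ≤ K) :
    ∃ k0 : ℕ, ∀ k ≥ k0, ∀ τ : ℝ × ℝ, okv k τ →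
      MC6 (famV6.Z ep k τ) par6 (cr e1 J k) (cr' e1 J k) →
      WI (mN6 (2 * (k - 1))) (wN6 (fun _ => Zv6 ep k τ) (fun _ => par6) (2 * (k - 1))
        (fun _ => cr e1 J k) (fun _ => cr' e1 J k) (fun _ => Pv k τ)) (fun _ => 1) := by
  obtain ⟨k0, h0⟩ := UB6.mass h hK
  refine ⟨k0, fun k hk τ ho hmc => ?_⟩
  have key := WI_wF6 (F := famV6) (i := τ) (e1 := e1) (J := J) (ep := ep) (m := k)
    hmc (Ψ := fun _ _ _ _ _ _ => 1) (fun n _ => MIn.one)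
    (φ := fun _ _ _ _ _ => 1) (fun n _ r O a b x => by simp)
    ((h0 k hk τ ho).trans_lt ENNReal.ofReal_lt_top)
  exact key

/-- output of `TRsG`: objects and constants -/
def G1P6 (ep C : ℝ) (k : ℕ) (τ : ℝ × ℝ) (s : ℝ) : Prop := ∀ (r : ℕ) (O : Fin r → Xo),
  ‖stO6 (Dv τ) par6 O +
      ∑ b, (∫ t : ℝ, Fil.b b * rv k t * fMH s (Xv k τ) (D1v τ) (lgv ep k τ) (kov6 k) r O b t) -
      s * PBT3.qI (wa τ) (wb τ) - PBT3.pI (wa τ) (wb τ)‖ ≤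
    C * (1 + Mv τ) ^ 2 * Real.exp (2 * Mv τ) * ∑ i, Real.exp (-(2 * |ht (O i)|)) +
      C * Szv k τ * (1 + Real.log k) * (r + 1)

/-- output of `TRsG`: the linear statistic -/
def G2P6 (ep C : ℝ) (k : ℕ) (τ : ℝ × ℝ) (s : ℝ) : Prop := ∀ (r : ℕ) (O : Fin r → Xo) (b : Bool),
  BC (-(ep / 8)) (ep / 8) (C * Szv k τ * (1 + Real.log k) * (r + 1))
    (fun z => Ev k τ b z + fMH s (Xv k τ) (D1v τ) (lgv ep k τ) (kov6 k) r O b z)

/-- the error without the quadratic term -/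
def ERL6 (ep e1 J : ℝ) (k : ℕ) (τ : ℝ × ℝ) (s : ℝ) : Ins := fun r O a b x =>
  ERR6 (Dv τ) par6 (cr e1 J k) s (PBT3.pI (wa τ) (wb τ)) (PBT3.qI (wa τ) (wb τ)) (rv k)
    (Xv k τ) (D1v τ) (Ev k τ) (lgv ep k τ) (kov6 k) r O a b x -
  Qst (cr e1 J k) (rv k) (Xv k τ) r O a b x

/-- the normed test function -/
def gv6 (ep C : ℝ) (k : ℕ) (τ : ℝ × ℝ) (s : ℝ) (r : ℕ) (O : Fin r → Xo) (b : Bool) (z : ℂ) : ℂ :=
  (((C * Szv k τ * (1 + Real.log k) * (r + 1) : ℝ) : ℂ)⁻¹) *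
    (Ev k τ b z + fMH s (Xv k τ) (D1v τ) (lgv ep k τ) (kov6 k) r O b z)

theorem ERR6_sub (D : Bool → Option O3 → ℂ → ℂ) (P : Par6) (η : Crs) (s p q : ℂ) (ρ : ℂ → ℂ)
    (X D1 E lg : Bool → ℂ → ℂ) (ko : (r : ℕ) → (Fin r → Xo) → Bool → ℂ → ℂ) (r : ℕ)
    (O : Fin r → Xo) (a b : ℕ) (x : (Fin a → ℝ) × (Fin b → ℝ)) :
    ERR6 D P η s p q ρ X D1 E lg ko r O a b x - Qst η ρ X r O a b x =
      (stO6 D P O + ∑ b, (∫ t : ℝ, Fil.b b * ρ t * fMH s X D1 lg ko r O b t) - s * q - p) +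
      Vst η ρ (fun b z => E b z + fMH s X D1 lg ko r O b z) r O a b x := by
  unfold ERR6
  rw [add_sub_cancel_right]

theorem ERL_le6 {ep e1 J C : ℝ} {k : ℕ} {τ : ℝ × ℝ} {s : ℝ} (hC : 1 ≤ C) (hk : 1 ≤ k)
    (h1 : G1P6 ep C k τ s) (r : ℕ) (O : Fin r → Xo) (a b : ℕ)
    (x : (Fin a → ℝ) × (Fin b → ℝ)) :
    ‖ERL6 ep e1 J k τ s r O a b x‖ₑ ≤ ENNReal.ofReal (wv C k τ r O) *
      nuE (fun t => rv k t) (etaC e1 J k k) (gv6 ep C k τ s r O true) (gv6 ep C k τ s r O false) x := by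
  have hk1 : (1 : ℝ) ≤ k := by exact_mod_cast hk
  have hL : 0 ≤ Real.log k := Real.log_nonneg hk1
  have hS := Szv_pos hk τ
  have hr : (0 : ℝ) < (r : ℝ) + 1 := by positivity
  have hM0 : 0 < C * Szv k τ * (1 + Real.log k) * (r + 1) := by positivity
  have hp : 0 ≤ C * (1 + Mv τ) ^ 2 * Real.exp (2 * Mv τ) *
      ∑ i, Real.exp (-(2 * |ht (O i)|)) := by
    have : 0 ≤ ∑ i, Real.exp (-(2 * |ht (O i)|)) := Finset.sum_nonneg fun i _ => (Real.exp_pos _).le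
    positivity
  have e2 : wv C k τ r O = C * (1 + Mv τ) ^ 2 * Real.exp (2 * Mv τ) *
      ∑ i, Real.exp (-(2 * |ht (O i)|)) + 2 * (C * Szv k τ * (1 + Real.log k) * (r + 1)) := by
    unfold wv
    ring
  have e3 : ERL6 ep e1 J k τ s r O a b x = _ := ERR6_sub _ _ _ _ _ _ _ _ _ _ _ _ r O a b x
  rw [e3, e2]
  exact lin_abs (h1 r O) hp hM0 _ _ _ _ _ _ _

theorem BC_gv6 {ep C : ℝ} {k : ℕ} {τ : ℝ × ℝ} {s : ℝ} (hC : 1 ≤ C) (hk : 1 ≤ k)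
    (h : G2P6 ep C k τ s) (r : ℕ) (O : Fin r → Xo) (b : Bool) :
    BC (-(ep / 8)) (ep / 8) 1 (gv6 ep C k τ s r O b) := by
  have hk1 : (1 : ℝ) ≤ k := by exact_mod_cast hk
  have hL : 0 ≤ Real.log k := Real.log_nonneg hk1
  have hS := Szv_pos hk τ
  have hr : (0 : ℝ) < (r : ℝ) + 1 := by positivity
  exact (h r O b).normed (by positivity)

/-- **the linear part of the error under `UB6`** -/
theorem lin_bd6 {F : Fam (ℝ × ℝ)} {ep e1 J ε C : ℝ} (h : UB6 F ep e1 J 2 6 ε) (hep : 0 < ep)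
    (hC : 1 ≤ C) (hbd : ∀ m i, 0 ≤ F.bd m i) :
    ∃ k0 : ℕ, ∀ k ≥ k0, ∀ τ : ℝ × ℝ, F.ok k τ →
    MC6 (F.Z ep k τ) par6 (cr e1 J k) (cr' e1 J k) → ∀ s : ℝ, G1P6 ep C k τ s →
    G2P6 ep C k τ s → MIn (ERL6 ep e1 J k τ s) →
      ∫⁻ x, ‖wF6 F ep e1 J k τ x‖ₑ * ‖evN6 (fun _ => ERL6 ep e1 J k τ s) x‖ₑ ∂(mN6 (F.top k)) ≤
        ENNReal.ofReal (E1v (2 * C) e1 ε k (Mv τ) * F.bd k τ) := by
  obtain ⟨m0, h0⟩ := h CPv (-(ep / 8)) (ep / 8) (by linarith) (by linarith)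
  refine ⟨max m0 1, fun k hk τ hok hMC s h1 h2 hm => ?_⟩
  have hk1 : 1 ≤ k := (le_max_right _ _).trans hk
  have hkm : m0 ≤ k := (le_max_left _ _).trans hk
  refine (lint_wF6 hMC (Ψ := fun _ => ERL6 ep e1 J k τ s) (fun _ _ => hm)
    (φ := fun r O a b x => ENNReal.ofReal (wv C k τ r O) * nuE (fun t => rv k t) (etaC e1 J k k)
      (gv6 ep C k τ s r O true) (gv6 ep C k τ s r O false) x)
    (fun _ _ r O a b x => ERL_le6 hC hk1 h1 r O a b x)).trans ?_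
  have h3 := h0 k hkm τ hok (fun t => rv k t) (DN_v hk1) (Bv C e1 k τ) (Bv_nonneg hC hk1 τ)
    (wv C k τ) (OW_wv hC hk1 τ) (fun r O _ => gv6 ep C k τ s r O true)
    (fun r O _ => gv6 ep C k τ s r O false)
    (fun r O _ => ⟨BC_gv6 hC hk1 h2 r O true, BC_gv6 hC hk1 h2 r O false⟩)
  refine le_trans (FS_mono6 (fun _ => le_rfl) fun r O a b x => ?_) (h3.trans ?_)
  · rw [Fin.prod_univ_two]
    refine mul_le_mul' le_rfl (le_mul_of_one_le_right' (one_le_nuE _ _ _ _ _))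
  · refine ENNReal.ofReal_le_ofReal ?_
    exact mul_le_mul_of_nonneg_right (Bv_E1 hC hk1 τ) (hbd k τ)

/-! ### the quadratic part -/

theorem MIn_Qst6 {b1 : ℝ} {η η' : Crs} {ρ : ℂ → ℂ} {X : Bool → ℂ → ℂ} (hb1 : 0 < b1)
    (hc : ∀ (r : ℕ) (O : Fin r → Xo) (b : Bool) (t : ℝ), |(zc (Fil.cv b (η r O)) t).im| < b1)
    (hρ : PB.SeaF b1 ρ) (hX : PB.FldF b1 X) (hm : MCr η η') : MIn (Qst η ρ X) := by
  intro r a b
  have hz := fun k : Fin a ⊕ Fin b => meas_zq hm r k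
  have hz' := fun (k : Fin a ⊕ Fin b) (p : (Fin r → Xo) × ((Fin a → ℝ) × (Fin b → ℝ))) =>
    hc r p.1 (spQ a b k) (Sum.elim p.2.1 p.2.2 k)
  unfold Qst PB.NX.nuQ
  refine (((measurable_const.mul (Finset.measurable_fun_sum _ fun i _ =>
    Finset.measurable_fun_sum _ fun j _ => ?_)).sub
    (Finset.measurable_fun_sum _ fun i _ => ?_)).add measurable_const)
  · exact meas_aC hX _ _ (hz i) (hz j) (hz' i) (hz' j)
  · exact meas_smr hX hb1 hρ _ (hz i) (hz' i)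

/-- **the quadratic part of the error under `UB6`** -/
theorem quad_bd6 {F : Fam (ℝ × ℝ)} {ep e1 J ε : ℝ} (h : UB6 F ep e1 J 2 6 ε)
    (hbd : ∀ m i, 0 ≤ F.bd m i) :
    ∃ C : ℝ, 0 < C ∧ ∃ k0 : ℕ, ∀ k ≥ k0, ∀ τ : ℝ × ℝ, F.ok k τ →
    MC6 (F.Z ep k τ) par6 (cr e1 J k) (cr' e1 J k) →
    (∀ t, |etaC e1 J k k t| ≤ NUMF.l / 10) →
      ∫⁻ x, ‖wF6 F ep e1 J k τ x‖ₑ * ‖evN6 (fun _ => Qst (cr e1 J k) (rv k) (Xv k τ)) x‖ₑ
        ∂(mN6 (F.top k)) ≤ ENNReal.ofReal (E2v C ε k (Mv τ) * F.bd k τ) := by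
  obtain ⟨Cx, hCx, hX⟩ := xbd_v
  have hl := NUMF.l_pos
  obtain ⟨C, hC, m0, h0⟩ := UB6.quad h le_rfl (by norm_num) CPv YOk_v (by linarith)
  refine ⟨C * Cx, by positivity, max m0 2, fun k hk τ hok hMC hη => ?_⟩
  have hk2 : 2 ≤ k := (le_max_right _ _).trans hk
  have hkm : m0 ≤ k := (le_max_left _ _).trans hk
  have hk1 : (1 : ℝ) ≤ k := by exact_mod_cast (by omega : 1 ≤ k)
  have hL : 0 ≤ Real.log k := Real.log_nonneg hk1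
  have hS := Szv_pos (by omega : 1 ≤ k) τ
  have h3 := h0 k hkm τ hok hMC hη (hbd k τ) (rv k) (DN_v (by omega))
    ((meas_rv k).comp Complex.measurable_ofReal) (Cx * Szv k τ) (5 * Real.log k) (Xv k τ)
    (by positivity) (by positivity) (hX k hk2 τ)
  refine h3.trans (le_of_eq ?_)
  congr 1
  unfold E2v Szv
  ring

/-! ### the error on the path -/

/-- derivative of the normalised functional -/
def nFv'6 (ep e1 J : ℝ) (k : ℕ) (τ : ℝ × ℝ) (s : ℝ) : ℂ :=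
  nF'6 (fun _ => Zv6 ep k τ) (fun _ => Dv τ) (fun _ => par6) (2 * (k - 1))
    (fun _ => cr e1 J k) (fun _ => cr' e1 J k) (fun _ => Pv k τ) 1 (κv k τ) s

/-- the weight of the right end -/
theorem wF_W6 {ep e1 J : ℝ} {k : ℕ} {τ : ℝ × ℝ} (x : CfN6 (2 * (k - 1))) :
    wF6 famW6 ep e1 J k τ x = PBT3.k1T τ * Complex.exp (-κv k τ) *
      wN6 (expN (fun _ => Zv6 ep k τ) (fun _ => Dv τ) 1) (fun _ => par6) (2 * (k - 1))
        (fun _ => cr e1 J k) (fun _ => cr' e1 J k) (fun _ => Pv k τ) x := by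
  show PBT3.k1T τ * (Complex.exp (-κv k τ) * Pv k τ) * _ = PBT3.k1T τ * Complex.exp (-κv k τ) *
    (Pv k τ * _)
  rw [← mul_assoc (PBT3.k1T τ), mul_assoc (PBT3.k1T τ * Complex.exp (-κv k τ))]
  rfl

theorem lint_W6 {ep e1 J : ℝ} {k : ℕ} {τ : ℝ × ℝ} {Y : CfN6 (2 * (k - 1)) → ℝ≥0∞} {E : ℝ}
    (hk : PBT3.k1T τ ≠ 0)
    (h : ∫⁻ x, ‖wF6 famW6 ep e1 J k τ x‖ₑ * Y x ∂(mN6 (2 * (k - 1))) ≤
      ENNReal.ofReal (E * Real.exp (-mTv τ))) :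
    ENNReal.ofReal (‖(1 : ℂ)‖ * Real.exp (-(κv k τ).re)) *
      ∫⁻ x, ‖wN6 (expN (fun _ => Zv6 ep k τ) (fun _ => Dv τ) 1) (fun _ => par6)
        (2 * (k - 1)) (fun _ => cr e1 J k) (fun _ => cr' e1 J k) (fun _ => Pv k τ) x‖ₑ * Y x
        ∂(mN6 (2 * (k - 1))) ≤ ENNReal.ofReal (E * (Real.exp (-mTv τ) / ‖PBT3.k1T τ‖)) := by
  rw [norm_one, one_mul]
  refine lint_div (norm_pos_iff.2 hk) (Real.exp_pos _) (le_trans (le_of_eq ?_) h)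
  have e1 : ENNReal.ofReal (‖PBT3.k1T τ‖ * Real.exp (-(κv k τ).re)) =
      ‖PBT3.k1T τ * Complex.exp (-κv k τ)‖ₑ := by
    rw [← ofReal_norm, norm_mul, Complex.norm_exp, Complex.neg_re]
  rw [e1, ← lintegral_const_mul' _ _ enorm_ne_top]
  refine lintegral_congr fun x => ?_
  rw [wF_W6, enorm_mul (PBT3.k1T τ * Complex.exp (-κv k τ)), mul_assoc]

/-- **the error on the path** -/
theorem hE_v6 {ep e1 J ε : ℝ} (hep : 0 < ep) (hep1 : ep ≤ 1 / 100)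
    (hV : UB6 famV6 ep e1 J 2 6 ε) (hW : UB6 famW6 ep e1 J 2 6 ε) (hM : MeanP6 ep e1 J)
    (hP : PathP6 ep e1 J) {C : ℝ} (hC : 1 ≤ C)
    (hG : ∃ k0 : ℕ, ∀ k ≥ k0, ∀ τ : ℝ × ℝ, okv k τ → ∀ s : ℝ, 0 ≤ s → s ≤ 1 →
      G1P6 ep C k τ s ∧ G2P6 ep C k τ s) :
    ∃ C' : ℝ, 0 < C' ∧ ∃ k0 : ℕ, ∀ k ≥ k0, ∀ τ : ℝ × ℝ, okv k τ → PBT3.k1T τ ≠ 0 →
      ∀ s : ℝ, 0 ≤ s → s ≤ 1 →
      ‖nFv'6 ep e1 J k τ s - (s * PBT3.qI (wa τ) (wb τ) + PBT3.pI (wa τ) (wb τ)) *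
        nFv6 ep e1 J k τ s‖ ≤ (E1v (2 * C) e1 ε k (Mv τ) + E2v C' ε k (Mv τ)) *
        (Real.exp |τ.1 + τ.2| ^ (1 - s) * (Real.exp (-mTv τ) / ‖PBT3.k1T τ‖) ^ s) := by
  obtain ⟨k1, h1⟩ := hM
  obtain ⟨k2, h2⟩ := hP
  obtain ⟨k3, h3⟩ := hG
  obtain ⟨k4, h4⟩ := lin_bd6 hV hep hC (fun m i => (Real.exp_pos _).le)
  obtain ⟨k5, h5⟩ := lin_bd6 hW hep hC (fun m i => (Real.exp_pos _).le)
  obtain ⟨C1, hC1, k6, h6⟩ := quad_bd6 hV (fun m i => (Real.exp_pos _).le)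
  obtain ⟨C2, hC2, k7, h7⟩ := quad_bd6 hW (fun m i => (Real.exp_pos _).le)
  obtain ⟨k8, h8⟩ := wiF_v6 hV (by norm_num)
  refine ⟨max C1 C2, lt_max_of_lt_left hC1,
    max 2 (max k1 (max k2 (max k3 (max k4 (max k5 (max k6 (max k7 k8))))))),
    fun k hk τ hok hk1 s hs0 hs1 => ?_⟩
  simp only [ge_iff_le, max_le_iff] at hk
  obtain ⟨hk0, i1, i2, i3, i4, i5, i6, i7, i8⟩ := hk
  obtain ⟨B, hB⟩ := h2 k i2 τ hok
  have hI := h8 k i8 τ hok (hB.mc0 0 (Nat.zero_le _))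
  obtain ⟨κ, hMean⟩ := h1 k i1 τ (s : ℂ)
  obtain ⟨g1, g2⟩ := h3 k i3 τ hok s hs0 hs1
  have hkp : (0 : ℝ) < k := by exact_mod_cast (by omega : 0 < k)
  have hmc := mcr_cr' e1 J k
  have mV : MC6 (famV6.Z ep k τ) par6 (cr e1 J k) (cr' e1 J k) := hB.mc0 0 (Nat.zero_le _)
  have mW : MC6 (famW6.Z ep k τ) par6 (cr e1 J k) (cr' e1 J k) := hB.mc 1 0 (Nat.zero_le _)
  have hEm := hMean.mE hmc (hB.mst 0 (Nat.zero_le _)) (PBT3.pI (wa τ) (wb τ)) (PBT3.qI (wa τ) (wb τ))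
  have hQm := MIn_Qst6 hMean.b1_pos hMean.zc_lt hMean.sea hMean.fld hmc
  have hLm : MIn (ERL6 ep e1 J k τ s) := fun r a b => (hEm r a b).sub (hQm r a b)
  have hη : ∀ t, |etaC e1 J k k t| ≤ NUMF.l / 10 := by
    intro t
    have h := (hMean.crv 0 (fun i => i.elim0)).h1 t
    have hl := NUMF.l_pos
    have e : NUP1.l = NUMF.l := rfl
    rw [e] at h
    exact h.trans (by nlinarith)
  set Y : Bool → CfN6 (2 * (k - 1)) → ℝ≥0∞ := fun b x => if b then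
    ‖evN6 (fun _ => ERL6 ep e1 J k τ s) x‖ₑ else
    ‖evN6 (fun _ => Qst (cr e1 J k) (rv k) (Xv k τ)) x‖ₑ with hY
  set Ec : Bool → ℝ := fun b => if b then E1v (2 * C) e1 ε k (Mv τ) else
    E2v (max C1 C2) ε k (Mv τ) with hEc
  have hkε : 0 < (k : ℝ) ^ ε := Real.rpow_pos_of_pos hkp _
  have hk3 : 0 < (k : ℝ) ^ (-(3 / 4 * (1 - 4 * e1))) := Real.rpow_pos_of_pos hkp _
  have hlog : 0 ≤ Real.log k := Real.log_nonneg (by exact_mod_cast (by omega : 1 ≤ k))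
  have hM0 := MvF_nonneg τ
  have hCC : 0 < max C1 C2 := lt_max_of_lt_left hC1
  have hEpos : ∀ b ∈ (Finset.univ : Finset Bool), 0 < Ec b := by
    intro b _
    cases b
    · simp only [hEc, E2v, Bool.false_eq_true, if_false]
      positivity
    · simp only [hEc, E1v, if_true]
      positivity
  have hYm : ∀ b ∈ (Finset.univ : Finset Bool), Measurable (Y b) := by
    intro b _
    cases b
    · exact (evN_meas6 fun _ _ => hQm).enorm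
    · exact (evN_meas6 fun _ _ => hLm).enorm
  have hE2 : ∀ Cx, Cx ≤ max C1 C2 → E2v Cx ε k (Mv τ) ≤ E2v (max C1 C2) ε k (Mv τ) := by
    intro Cx hCx
    unfold E2v
    gcongr
  have hb0 : ∀ b ∈ (Finset.univ : Finset Bool), ENNReal.ofReal ‖(1 : ℂ)‖ *
      ∫⁻ x, ‖wN6 (fun _ => Zv6 ep k τ) (fun _ => par6) (2 * (k - 1))
        (fun _ => cr e1 J k) (fun _ => cr' e1 J k) (fun _ => Pv k τ) x‖ₑ * Y b x
        ∂(mN6 (2 * (k - 1))) ≤ ENNReal.ofReal (Ec b * Real.exp |τ.1 + τ.2|) := by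
    intro b _
    rw [norm_one, ENNReal.ofReal_one, one_mul]
    cases b
    · refine (h6 k i6 τ hok mV hη).trans (ENNReal.ofReal_le_ofReal ?_)
      exact mul_le_mul_of_nonneg_right (hE2 C1 (le_max_left _ _)) (Real.exp_pos _).le
    · exact h4 k i4 τ hok mV s g1 g2 hLm
  have hb1 : ∀ b ∈ (Finset.univ : Finset Bool),
      ENNReal.ofReal (‖(1 : ℂ)‖ * Real.exp (-(κv k τ).re)) *
      ∫⁻ x, ‖wN6 (expN (fun _ => Zv6 ep k τ) (fun _ => Dv τ) 1) (fun _ => par6)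
        (2 * (k - 1)) (fun _ => cr e1 J k) (fun _ => cr' e1 J k) (fun _ => Pv k τ) x‖ₑ * Y b x
        ∂(mN6 (2 * (k - 1))) ≤ ENNReal.ofReal (Ec b * (Real.exp (-mTv τ) / ‖PBT3.k1T τ‖)) := by
    intro b _
    refine lint_W6 hk1 ?_
    cases b
    · refine (h7 k i7 τ hok mW hη).trans (ENNReal.ofReal_le_ofReal ?_)
      exact mul_le_mul_of_nonneg_right (hE2 C2 (le_max_right _ _)) (Real.exp_pos _).le
    · exact h5 k i5 τ hok mW s g1 g2 hLm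
  have hμ1 : 0 < Real.exp (-mTv τ) / ‖PBT3.k1T τ‖ := div_pos (Real.exp_pos _) (norm_pos_iff.2 hk1)
  have hmean := mean_N6 hB hI (fun n _ => hMean) (κ0 := κv k τ) (fun n _ => rfl)
    (PBT3.pI (wa τ) (wb τ)) (PBT3.qI (wa τ) (wb τ)) Finset.univ (Y := Y) hYm (by
      intro x
      rw [Fintype.sum_bool]
      have e : evN6 (fun n => ERR6 (Dv τ) par6 (cr e1 J k) (s : ℂ)
          (PBT3.pI (wa τ) (wb τ)) (PBT3.qI (wa τ) (wb τ)) (rv k) (Xv k τ) (D1v τ) (Ev k τ)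
          (lgv ep k τ) (kov6 k)) x = evN6 (fun _ => ERL6 ep e1 J k τ s) x +
          evN6 (fun _ => Qst (cr e1 J k) (rv k) (Xv k τ)) x := by
        unfold evN6 ev6 ERL6
        exact (sub_add_cancel _ _).symm
      rw [e]
      exact enorm_add_le _ _)
  have key := nF_err6 hB Finset.univ hYm hs0 hs1 (Real.exp_pos _) hμ1 hEpos one_ne_zero hb0 hb1 hmean
  rw [Fintype.sum_bool] at key
  exact key

/-! ### (H3) -/

/-- **(H3) between the two ends of the s-path**, path data for small parameters only -/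
theorem h3_w6 (hV : UX6 famV6) (hW : UX6 famW6)
    (hMP : ∃ a1 : ℝ, 0 < a1 ∧ ∀ ep e1 J : ℝ, 0 < ep → ep ≤ 1 / 100 → 0 < e1 → e1 ≤ 1 / 100 →
      0 ≤ J → Real.exp (-(2 * Real.pi * J)) + 3 * e1 + 3 * ep ≤ a1 →
      MeanP6 ep e1 J ∧ PathP6 ep e1 J)
    (hG : ∀ ep : ℝ, 0 < ep → ep ≤ 1 / 100 → ∃ C : ℝ, 1 ≤ C ∧ ∃ k0 : ℕ, ∀ k ≥ k0, ∀ τ : ℝ × ℝ,
      okv k τ → ∀ s : ℝ, 0 ≤ s → s ≤ 1 → G1P6 ep C k τ s ∧ G2P6 ep C k τ s) {c1 : ℝ}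
    (hc1 : c1 < 3 / 4) :
    ∃ a0 : ℝ, 0 < a0 ∧ ∀ ep e1 J : ℝ, 0 < ep → ep ≤ 1 / 100 → 0 < e1 → e1 ≤ 1 / 100 → 0 ≤ J →
      Real.exp (-(2 * Real.pi * J)) + 3 * e1 + 3 * ep ≤ a0 →
      ∀ᶠ k : ℕ in atTop, ∀ τ : ℝ × ℝ, okv k τ →
        ‖PBT3.k1T τ‖ * ‖nFv6 ep e1 J k τ 1 - Complex.exp (PBT3.gF τ) * nFv6 ep e1 J k τ 0‖ ≤
          (k : ℝ) ^ (-c1) := by
  set e := (3 / 4 - c1) / 2 with he
  have he0 : 0 < e := by rw [he]; linarith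
  obtain ⟨aV, haV, hV⟩ := hV 2 6 (e / 4) (by positivity)
  obtain ⟨aW, haW, hW⟩ := hW 2 6 (e / 4) (by positivity)
  obtain ⟨a1, ha1, hMP⟩ := hMP
  refine ⟨min a1 (min (e / 4) (min aV aW)), lt_min ha1 (lt_min (by positivity) (lt_min haV haW)),
    fun ep e1 J hep hep1 he1 he11 hJ hsm' => ?_⟩
  have s0 := hsm'.trans (min_le_left _ _)
  have hsm := hsm'.trans (min_le_right _ _)
  have s1 := hsm.trans (min_le_left _ _)
  have s2 := hsm.trans ((min_le_right _ _).trans (min_le_left _ _))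
  have s3 := hsm.trans ((min_le_right _ _).trans (min_le_right _ _))
  have hexp := (Real.exp_pos (-(2 * Real.pi * J))).le
  obtain ⟨hM, hP⟩ := hMP ep e1 J hep hep1 he1 he11 hJ s0
  obtain ⟨C, hC, hGG⟩ := hG ep hep hep1
  obtain ⟨C', hC', k1, hE⟩ := hE_v6 hep hep1 (hV ep e1 J hep he1 hJ s2) (hW ep e1 J hep he1 hJ s3)
    hM hP hC hGG
  obtain ⟨k2, hP2⟩ := hP
  obtain ⟨k3, hI3⟩ := wiF_v6 (hV ep e1 J hep he1 hJ s2) (by norm_num)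
  obtain ⟨A, hA, hk1⟩ := PBT3.k1T_le
  obtain ⟨Cg, hCg, hgF⟩ := PBT3.gF_re
  obtain ⟨Cp, hCp, hpF⟩ := PBT3.pF_re
  set A' := max A 1 with hA'
  set Cc := max Cg Cp with hCc
  have hCc0 : 0 ≤ Cc := le_max_of_le_left hCg
  have hlim : Tendsto (fun k : ℕ => 3 * A' * Real.exp (2 * Cc) * (k : ℝ) ^ (-(3 / 4 - e - c1)))
      atTop (nhds (3 * A' * Real.exp (2 * Cc) * 0)) :=
    ((tendsto_rpow_neg_atTop (by rw [he]; linarith)).comp tendsto_natCast_atTop_atTop).const_mul _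
  rw [mul_zero] at hlim
  filter_upwards [E_le (C := 2 * C) (C' := C') (e := e) (e1 := e1) (ε := e / 4) (by positivity)
    hC'.le he1.le (by linarith), hlim.eventually_le_const one_pos, eventually_ge_atTop k1,
    eventually_ge_atTop k2, eventually_ge_atTop 1, eventually_ge_atTop k3] with
    k f1 f2 f3 f4 f5 f6 τ hok
  have hκ : (1 : ℝ) ≤ k := by exact_mod_cast f5
  have hκ0 : (0 : ℝ) < k := by linarith
  rcases eq_or_ne (PBT3.k1T τ) 0 with hz | hz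
  · rw [hz, norm_zero, zero_mul]
    exact Real.rpow_nonneg hκ0.le _
  obtain ⟨B, hB⟩ := hP2 k f4 τ hok
  have hI := hI3 k f6 τ hok (hB.mc0 0 (Nat.zero_le _))
  have hnn : ∀ s : ℝ, 0 ≤ Real.exp |τ.1 + τ.2| ^ (1 - s) *
      (Real.exp (-mTv τ) / ‖PBT3.k1T τ‖) ^ s := fun s =>
    mul_nonneg (Real.rpow_nonneg (Real.exp_pos _).le _)
      (Real.rpow_nonneg (div_nonneg (Real.exp_pos _).le (norm_nonneg _)) _)
  have hM0 := MvF_nonneg τ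
  have key := PBTs.h3_pt (k1 := PBT3.k1T τ) (F := nFv6 ep e1 J k τ) (F' := nFv'6 ep e1 J k τ)
    (p := PBT3.pI (wa τ) (wb τ)) (q := PBT3.qI (wa τ) (wb τ))
    (m := fun s => Real.exp |τ.1 + τ.2| ^ (1 - s) * (Real.exp (-mTv τ) / ‖PBT3.k1T τ‖) ^ s)
    (A := A') (C := Cc) (d := 1 / 20) (e := e) (e0 := 0) (e1 := 0) (κ := (k : ℝ)) (t := τ)
    (le_max_right _ _) hCc0 (by norm_num) hκ le_rfl le_rfl
    (by
      have : PBTs.mT τ = mTv τ := rfl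
      rw [this]
      refine hok.trans (le_of_eq ?_)
      ring)
    ((hk1 τ).trans (mul_le_mul_of_nonneg_right (le_max_left _ _) (Real.exp_pos _).le))
    (by
      rw [gI_v]
      have h := abs_le.1 (hgF τ)
      have h' : Cg ≤ Cc := le_max_left _ _
      linarith [h.2])
    (by
      rw [pI_v]
      have h := abs_le.1 (hpF τ)
      have h' : Cp ≤ Cc := le_max_right _ _
      linarith [h.1])
    (fun s _ => hasDerivAt_nF6 hB hI 1 (κv k τ) s)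
    (fun s hs => (hE k f3 τ hok hz s hs.1 hs.2).trans
      (mul_le_mul_of_nonneg_right (f1 (Mv τ) hM0 (Mv_le_log f5 hok)) (hnn s)))
    (fun s _ => hnn s)
    (fun s _ => by
      simp only [sub_zero, Real.rpow_one, Real.rpow_zero, mul_one, sub_self, one_mul, le_refl])
    (by simp only [sub_zero, Real.rpow_one, Real.rpow_zero, mul_one, one_mul, le_refl])
    (by
      simp only [sub_self, Real.rpow_one, Real.rpow_zero, one_mul]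
      rw [mul_div_cancel₀ _ (norm_ne_zero_iff.2 hz)]
      exact le_rfl)
  rw [gI_v] at key
  refine key.trans ?_
  have e1' : (k : ℝ) ^ (e + 0 + 0 - 3 / 4) = (k : ℝ) ^ (-(3 / 4 - e - c1)) * (k : ℝ) ^ (-c1) := by
    rw [← Real.rpow_add hκ0]
    congr 1
    ring
  rw [e1', ← mul_assoc]
  calc 3 * A' * Real.exp (2 * Cc) * (k : ℝ) ^ (-(3 / 4 - e - c1)) * (k : ℝ) ^ (-c1)
      ≤ 1 * (k : ℝ) ^ (-c1) := mul_le_mul_of_nonneg_right f2 (Real.rpow_nonneg hκ0.le _)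
    _ = _ := one_mul _

/-- **(H3) between the two ends of the s-path** -/
theorem h3_v6 (hV : UX6 famV6) (hW : UX6 famW6)
    (hMP : ∀ ep e1 J : ℝ, 0 < ep → ep ≤ 1 / 100 → 0 < e1 → e1 ≤ 1 / 100 → 0 ≤ J →
      MeanP6 ep e1 J ∧ PathP6 ep e1 J)
    (hG : ∀ ep : ℝ, 0 < ep → ep ≤ 1 / 100 → ∃ C : ℝ, 1 ≤ C ∧ ∃ k0 : ℕ, ∀ k ≥ k0, ∀ τ : ℝ × ℝ,
      okv k τ → ∀ s : ℝ, 0 ≤ s → s ≤ 1 → G1P6 ep C k τ s ∧ G2P6 ep C k τ s) {c1 : ℝ}
    (hc1 : c1 < 3 / 4) :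
    ∃ a0 : ℝ, 0 < a0 ∧ ∀ ep e1 J : ℝ, 0 < ep → ep ≤ 1 / 100 → 0 < e1 → e1 ≤ 1 / 100 → 0 ≤ J →
      Real.exp (-(2 * Real.pi * J)) + 3 * e1 + 3 * ep ≤ a0 →
      ∀ᶠ k : ℕ in atTop, ∀ τ : ℝ × ℝ, okv k τ →
        ‖PBT3.k1T τ‖ * ‖nFv6 ep e1 J k τ 1 - Complex.exp (PBT3.gF τ) * nFv6 ep e1 J k τ 0‖ ≤
          (k : ℝ) ^ (-c1) :=
  h3_w6 hV hW ⟨1, one_pos, fun ep e1 J a b c d e _ => hMP ep e1 J a b c d e⟩ hG hc1

end PBTV.PLX

end
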