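import Pool.Agent.PLX.PB.StatU
import Pool.Agent.PLX.PotH.Crv

/-!
# (P), (U3): products of linear statistics on the curve are admissible insertions, effective numbers of rows

As `PLX/PB/StatU`, with the densities `sN m a * P` of the gas (`sN m a` = effective number of rows of the
species `a`) and at most `Cn * m` quanta of each species, `Cn` arbitrary (the holes give back quanta).

* `exists_rhoS`, `mean_diff_sN`, `exists_St6`, **`statU6`**.
-/

set_option autoImplicit false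
set_option linter.unusedSectionVars false

open MeasureTheory Set Filter Topology
open scoped ENNReal
open PLX (Fil Ends)

namespace PBZ.PLX

open NUKer NUR2 NUDi PBM PBM.PLX
open PotH.PLX (sN sN_true sN_nonneg sN_le sN_div)

noncomputable section

section curve

open PBU PBU.PLX NUGC NUGC.PLX

variable [NUSea.Sea] [Fil] [Ends]

/-- the difference of the effective number of rows and the number of one-fold rows -/
theorem sN_sub_b {m : ℕ} (hm : 1 ≤ m) (a : Bool) :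
    |sN m a - Fil.b a * (m : ℝ)| ≤ (Fil.q : ℝ) * ((Fil.qo : ℕ) : ℝ) := by
  have h := sN_div hm a
  rw [sN_true hm] at h
  have hb := Fil.b_pos a
  have e : sN m a - Fil.b a * (m : ℝ) = Fil.b a * (sN m a / Fil.b a - m) := by
    field_simp
  rw [e, abs_mul, abs_of_pos hb]
  exact mul_le_mul (Fil.b_le a) h (abs_nonneg _) Fil.q_posr.le

/-- **the sea of each species**, effective numbers of rows -/
theorem exists_rhoS : ∃ m0 : ℕ, ∀ m ≥ m0, ∀ a : Bool,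
    Rho (2 * Real.log m ^ 2) (fun t => sN m a * NUSea.P t) (((Fil.qo : ℕ) : ℝ) * m)
      (Real.exp (-(Real.log m ^ 2))) := by
  obtain ⟨m0, h0⟩ := exists_rho1
  refine ⟨max m0 Fil.qo, fun m hm a => ?_⟩
  have hq : ((Fil.qo : ℕ) : ℝ) ≤ m := by exact_mod_cast (le_max_right _ _).trans hm
  have hqo := Fil.one_le_qor
  have hmp : (0 : ℝ) < m := by linarith
  have hm1 : 1 ≤ m := by exact_mod_cast hqo.trans hq
  have hs := sN_le hm1 a
  have hs0 := sN_nonneg m a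
  have h1 := (h0 m ((le_max_left _ _).trans hm)).smul (c := sN m a / m) (by positivity)
  have e : (fun t => sN m a / m * ((m : ℝ) * NUSea.P t)) = fun t => sN m a * NUSea.P t := by
    funext t
    field_simp
  rw [e] at h1
  refine h1.mono (le_of_eq_of_le (by field_simp) hs) ?_
  have hE := Real.exp_pos (-(Real.log m ^ 2))
  have h2 : sN m a / m ≤ m := by
    rw [div_le_iff₀ hmp]
    exact hs.trans (mul_le_mul_of_nonneg_right hq hmp.le)
  calc sN m a / m * ((m : ℝ)⁻¹ * Real.exp (-(Real.log m ^ 2))) ≤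
      m * ((m : ℝ)⁻¹ * Real.exp (-(Real.log m ^ 2))) :=
        mul_le_mul_of_nonneg_right h2 (by positivity)
    _ = _ := by field_simp

/-- the mean on the curve of a species, effective numbers of rows -/
lemma mean_diff_sN {C0 y₁ y₂ r M b : ℝ} {ε : ℝ} {e η : ℝ → ℝ} {g : ℂ → ℂ} {ρ : ℝ → ℂ} {m : ℕ}
    (hm : 1 ≤ m) (hg : BC y₁ y₂ 1 g) (hr : 0 < r) (hy1 : y₁ ≤ -(5 * r)) (hy2 : 5 * r ≤ y₂)
    (h : NUSea.PLX.Cur m ε M b e η) (hε : ε ≤ r) (hb : 0 ≤ b) (hM : 0 ≤ M)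
    (hρ : Integrable ρ) (hd : (∫ t : ℝ, ‖ρ t - (((m : ℝ) : ℂ)) * NUSea.P t‖) ≤ C0) (a : Bool) :
    ‖(∫ t : ℝ, ((sN m a * NUSea.P t : ℝ) : ℂ) * g (t + iD (Fil.cv a η) t)) -
      (Fil.b a : ℂ) * ∫ t : ℝ, ρ t * g t‖ ≤
        Fil.q * (1 / r * (2 * b * M) + C0) + Fil.q * ((Fil.qo : ℕ) : ℝ) := by
  have h1 := mean_diff_cv hg hr hy1 hy2 h hε (by positivity) hb hM hρ hd a
  have hcv := cur_cv h a
  have hin' : ∀ t : ℝ, (t + iD (Fil.cv a η) t : ℂ) ∈ PBE.Sp y₁ y₂ := by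
    intro t
    have h1 := (Complex.abs_im_le_norm (iD (Fil.cv a η) t)).trans
      ((hcv.oc.le t).trans ((hcv.le t).trans hε))
    rw [abs_le] at h1
    have e1 : (t + iD (Fil.cv a η) t : ℂ).im = (iD (Fil.cv a η) t).im := by simp
    constructor
    · rw [e1]; (clear * - hr hy1 h1; linarith [h1.1])
    · rw [e1]; (clear * - hr hy2 h1; linarith [h1.2])
  have cf : Continuous fun t : ℝ => g (t + iD (Fil.cv a η) t) := by
    refine continuous_iff_continuousAt.2 fun t => ?_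
    exact ContinuousAt.comp_of_eq (hg.hasDeriv (hin' t)).continuousAt
      (Complex.continuous_ofReal.add hcv.oc.cont).continuousAt rfl
  have hi : ∀ s : ℝ, Integrable fun t : ℝ => ((s * NUSea.P t : ℝ) : ℂ) * g (t + iD (Fil.cv a η) t) :=
    fun s => (NUSea.P_int.const_mul s).ofReal.mul_bdd (c := 1) cf.aestronglyMeasurable
      (ae_of_all _ fun t => hg.bd _ (hin' t))
  have e2 : (∫ t : ℝ, ((sN m a * NUSea.P t : ℝ) : ℂ) * g (t + iD (Fil.cv a η) t)) -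
      (∫ t : ℝ, ((Fil.b a * m * NUSea.P t : ℝ) : ℂ) * g (t + iD (Fil.cv a η) t)) =
      ∫ t : ℝ, (((sN m a - Fil.b a * m) * NUSea.P t : ℝ) : ℂ) * g (t + iD (Fil.cv a η) t) := by
    rw [← integral_sub (hi _) (hi _)]
    refine integral_congr_ae (ae_of_all _ fun t => ?_)
    push_cast
    ring
  have h3 : ‖∫ t : ℝ, (((sN m a - Fil.b a * m) * NUSea.P t : ℝ) : ℂ) *
      g (t + iD (Fil.cv a η) t)‖ ≤ Fil.q * ((Fil.qo : ℕ) : ℝ) := by
    refine (norm_integral_le_of_norm_le (g := fun t => |sN m a - Fil.b a * m| * NUSea.P t)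
      (NUSea.P_int.const_mul _) (ae_of_all _ fun t => ?_)).trans ?_
    · rw [norm_mul, Complex.norm_real, Real.norm_eq_abs, abs_mul, abs_of_pos (NUSea.P_pos t)]
      exact mul_le_of_le_one_right (mul_nonneg (abs_nonneg _) (NUSea.P_pos t).le)
        (hg.bd _ (hin' t))
    · rw [integral_const_mul, NUSea.P_mass, mul_one]
      exact sN_sub_b hm a
  have e4 : (∫ t : ℝ, ((sN m a * NUSea.P t : ℝ) : ℂ) * g (t + iD (Fil.cv a η) t)) -
      (Fil.b a : ℂ) * ∫ t : ℝ, ρ t * g t =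
      ((∫ t : ℝ, ((Fil.b a * m * NUSea.P t : ℝ) : ℂ) * g (t + iD (Fil.cv a η) t)) -
        (Fil.b a : ℂ) * ∫ t : ℝ, ρ t * g t) +
      ∫ t : ℝ, (((sN m a - Fil.b a * m) * NUSea.P t : ℝ) : ℂ) * g (t + iD (Fil.cv a η) t) := by
    rw [← e2]
    ring
  rw [e4]
  exact (norm_add_le _ _).trans (add_le_add h1 h3)

/-- **one factor**: the statistic `1 + |ν_X g| + |ν_Y g'|` on the curve -/
theorem exists_St6 {e1 J : ℝ} (he : 0 < e1) (he1 : e1 ≤ 1 / 100) (hJ : 0 ≤ J) (C0 y₁ y₂ : ℝ)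
    (h1 : y₁ < 0) (h2 : 0 < y₂) {Cg : ℝ} (hCg : 1 ≤ Cg) {Cn : ℝ} (hCn : 0 ≤ Cn) :
    ∃ (Ca : ℝ) (m0 : ℕ), 1 ≤ Ca ∧ ∀ m ≥ m0, ∀ ρ : ℝ → ℂ, DN C0 m ρ → ∀ g g' : ℂ → ℂ,
      BC y₁ y₂ 1 g → BC y₁ y₂ 1 g' → ∀ p q : ℕ, (p : ℝ) ≤ Cn * m →
      (q : ℝ) ≤ Cn * m →
      ∃ X : Cfg p q → ℝ, (∀ x, nuE ρ (etaC e1 J m m) g g' x ≤ ENNReal.ofReal |X x|) ∧
        (Measurable fun x : Cfg p q => nuE ρ (etaC e1 J m m) g g' x) ∧
        St (2 * Real.log m ^ 2) (fun a t => sN m a * NUSea.P t)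
          (1 / (Cg * Real.log m ^ 2))
          (Cg * Real.log m ^ 6) (Real.log m ^ 2 / 40) p q (Ca * Real.log m ^ 10) (Ca * m) X := by
  obtain ⟨r, hr⟩ : ∃ r, r = min 1 (min (-y₁ / 5) (y₂ / 5)) := ⟨_, rfl⟩
  have hr0 : 0 < r := by
    rw [hr]
    exact lt_min one_pos (lt_min (by (clear * - h1; linarith)) (by (clear * - h2; linarith)))
  have hr1 : r ≤ 1 := by rw [hr]; exact min_le_left _ _
  have hy1 : y₁ ≤ -(5 * r) := by
    have : r ≤ -y₁ / 5 := by rw [hr]; exact (min_le_right _ _).trans (min_le_left _ _)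
    clear * - this
    linarith
  have hy2 : 5 * r ≤ y₂ := by
    have : r ≤ y₂ / 5 := by rw [hr]; exact (min_le_right _ _).trans (min_le_right _ _)
    linarith
  obtain ⟨C1, hC1, m1, hm1, H1⟩ := exists_curC he he1 hJ hr0
  obtain ⟨K, hK0, HK⟩ := exists_KC1_curve
  obtain ⟨m2, H2⟩ := exists_rhoS
  obtain ⟨m3, H3⟩ := exists_log_ge 1
  obtain ⟨m4, H4⟩ := polylog_le 1 2 (one_pos : (0:ℝ) < 1)
  have hF1 := Fil.one_le_qr
  obtain ⟨Q, hQ⟩ : ∃ Q : ℝ, Q = Fil.q := ⟨_, rfl⟩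
  rw [← hQ] at hF1
  obtain ⟨Qo, hQo⟩ : ∃ Qo : ℝ, Qo = (Fil.qo : ℕ) := ⟨_, rfl⟩
  have hQo1 : 1 ≤ Qo := by rw [hQo]; exact Fil.one_le_qor
  obtain ⟨Ct, hCt⟩ : ∃ Ct, Ct = 1 + 2 * (Q * (C1 / r + |C0|) + Q * Qo) := ⟨_, rfl⟩
  obtain ⟨Ka, hKa⟩ : ∃ Ka, Ka = 32 * Cg * K * (1 / r ^ 3) + 1 := ⟨_, rfl⟩
  have hCt1 : 1 ≤ Ct := by
    rw [hCt]
    have : 0 ≤ Q * (C1 / r + |C0|) + Q * Qo := by (clear * - hF1 hC1 hr0 hQo1; positivity)
    clear * - this
    linarith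
  have hKa1 : 1 ≤ Ka := by
    rw [hKa]
    have : 0 ≤ 32 * Cg * K * (1 / r ^ 3) := by positivity
    clear * - this
    linarith
  refine ⟨2 * (16 * (2 * Ka) + Ct) + (4 * Cn + 4 * Qo) + Ct, max (max m1 m2) (max m3 (max m4 1)),
    by (clear * - he he1 hCn hQo1 hCt1 hKa1; linarith), fun m hm ρ hρ g g' hg hg' p q hp hq => ?_⟩
  have k1 : m1 ≤ m := (le_max_left _ _).trans ((le_max_left _ _).trans hm)
  have k2 : m2 ≤ m := (le_max_right _ _).trans ((le_max_left _ _).trans hm)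
  have k3 : m3 ≤ m := (le_max_left _ _).trans ((le_max_right _ _).trans hm)
  have k4 : m4 ≤ m := (le_max_left _ _).trans ((le_max_right _ _).trans ((le_max_right _ _).trans hm))
  have k5 : 1 ≤ m := (le_max_right _ _).trans ((le_max_right _ _).trans ((le_max_right _ _).trans hm))
  have hm1 : (1:ℝ) ≤ m := by exact_mod_cast k5
  obtain ⟨hT, H1⟩ := H1 m k1
  obtain ⟨ε, e, hcur, hε0, -, hεr⟩ := H1 m (by (clear * - he he1 hm1; linarith))
  have hrho := H2 m k2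
  have hL1 := H3 m k3
  have hL2 := H4 m k4
  rw [one_mul, Real.rpow_one] at hL2
  obtain ⟨L, hL⟩ : ∃ L, L = Real.log m := ⟨_, rfl⟩
  obtain ⟨η, hη⟩ : ∃ η, η = etaC e1 J m m := ⟨_, rfl⟩
  rw [← hη] at hcur ⊢
  rw [← hL] at hcur hL1 hL2 hT ⊢
  simp only [← hL, ← hQo] at hrho
  have hTb : (1 - e1) * NUO.Tb L ≤ L / 2 := by
    unfold NUO.Tb
    clear * - he1 hL1 he
    nlinarith
  have hTb0 : 0 ≤ (1 - e1) * NUO.Tb L := by
    refine mul_nonneg (by linarith) (by linarith)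
  have hA : 1 ≤ 2 * L ^ 2 := by (clear * - he1 hT hTb he hL1; nlinarith)
  have hA0 : 0 ≤ 2 * L ^ 2 := by (clear * - he he1 hA; linarith)
  have hL2' : 1 ≤ L ^ 2 := by (clear * - he1 hT hTb he hL1; nlinarith)
  have hL10 : 1 ≤ L ^ 10 := one_le_pow₀ hL1
  have hL210 : L ^ 2 ≤ L ^ 10 := pow_le_pow_right₀ hL1 (by norm_num)
  have hc : 0 < 1 / (Cg * L ^ 2) := by positivity
  have hΛ : 0 ≤ Cg * L ^ 6 := by positivity
  obtain ⟨hρi, hρd⟩ := hρ
  -- the test functions on the curves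
  have hcX := cur_cv hcur true
  have hcY := cur_cv hcur false
  obtain ⟨f1, f2, f3⟩ := HK (2 * L ^ 2) hA hg hr0 hr1 hy1 hy2 hcX.oc.lower hcX.le hεr
  obtain ⟨f1', f2', f3'⟩ := HK (2 * L ^ 2) hA hg' hr0 hr1 hy1 hy2 hcY.oc.lower hcY.le hεr
  obtain ⟨Λf, hΛf⟩ : ∃ Λf, Λf = K * (2 * L ^ 2) ^ 3 * (1 / r ^ 3) := ⟨_, rfl⟩
  rw [← hΛf] at f1 f1'
  have hΛf0 : 0 < Λf := by rw [hΛf]; positivity
  obtain ⟨δ, hδ⟩ : ∃ δ, δ = Real.exp (-(L ^ 2)) := ⟨_, rfl⟩
  rw [← hδ] at hrho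
  have hδ1 : δ ≤ 1 := by
    rw [hδ]
    exact Real.exp_le_one_iff.2 (by (clear * - he he1 hA; linarith))
  have hre : ∀ (ζ : ℝ → ℝ) (f : ℂ → ℂ), (Continuous fun t : ℝ => f (t + iD ζ t)) →
      Continuous fun t : ℝ => (f (t + iD ζ t)).re := fun ζ f h => Complex.continuous_re.comp h
  have him : ∀ (ζ : ℝ → ℝ) (f : ℂ → ℂ), (Continuous fun t : ℝ => f (t + iD ζ t)) →
      Continuous fun t : ℝ => (f (t + iD ζ t)).im := fun ζ f h => Complex.continuous_im.comp h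
  have sX1 := St.nuFX (τ := L ^ 2 / 40) (p := p) (n := q) hA0 hc hΛ hrho (hre _ g f2) hΛf0
    (f1.re hA0) (F := 1) fun t => (Complex.abs_re_le_norm _).trans (f3 t)
  have sX2 := St.nuFX (τ := L ^ 2 / 40) (p := p) (n := q) hA0 hc hΛ hrho (him _ g f2) hΛf0
    (KC1_im hA0 f1) (F := 1) fun t => (Complex.abs_im_le_norm _).trans (f3 t)
  have sY1 := St.nuFY (τ := L ^ 2 / 40) (p := p) (n := q) hA0 hc hΛ hrho (hre _ g' f2') hΛf0
    (f1'.re hA0) (F := 1) fun t => (Complex.abs_re_le_norm _).trans (f3' t)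
  have sY2 := St.nuFY (τ := L ^ 2 / 40) (p := p) (n := q) hA0 hc hΛ hrho (him _ g' f2') hΛf0
    (KC1_im hA0 f1') (F := 1) fun t => (Complex.abs_im_le_norm _).trans (f3' t)
  obtain ⟨a0, ha0⟩ : ∃ a0, a0 = 2 * (aLin (1 / (Cg * L ^ 2)) (Cg * L ^ 6) Λf + 1 * δ) := ⟨_, rfl⟩
  have ha : a0 ≤ 2 * Ka * L ^ 10 := by
    have h3 := aLin_le hCg hL1 hΛf0.le
    have h4 : 4 * Cg * L ^ 4 * Λf = 32 * Cg * K * (1 / r ^ 3) * L ^ 10 := by
      rw [hΛf]
      ring
    rw [h4] at h3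
    rw [ha0, hKa]
    clear * - hL10 hδ1 h3
    nlinarith
  rw [← ha0] at sX1 sX2 sY1 sY2
  have ht : 0 < Ct * L ^ 2 := by positivity
  have s5 := ((sX1.addA sX2).addA (sY1.addA sY2)).addA
    (St.const (R := 2 * L ^ 2) (ρ := fun a t => sN m a * NUSea.P t)
      (c := 1 / (Cg * L ^ 2)) (Λ := Cg * L ^ 6) (τ := L ^ 2 / 40) (p := p) (n := q) ht)
  refine ⟨_, ?_, ?_, s5.mono ?_ ?_⟩
  · intro x
    have hmC : 0 ≤ C1 * L := by positivity
    have hρd' : (∫ t : ℝ, ‖ρ t - (((m : ℝ) : ℂ)) * NUSea.P t‖) ≤ C0 := by simpa using hρd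
    have d1 := mean_diff_sN k5 hg hr0 hy1 hy2 hcur hεr hTb0 hmC hρi hρd' true
    have d2 := mean_diff_sN k5 hg' hr0 hy1 hy2 hcur hεr hTb0 hmC hρi hρd' false
    rw [← hQ, ← hQo] at d1 d2
    have n1 := nu1_le g true (hrho true).i f2 f3 d1 x
    have n2 := nu1_le g' false (hrho false).i f2' f3' d2 x
    simp only [if_true] at n1
    simp only [Bool.false_eq_true, if_false] at n2
    have hCd : Q * (1 / r * (2 * ((1 - e1) * NUO.Tb L) * (C1 * L)) + C0) ≤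
        Q * (C1 / r * L ^ 2 + |C0|) := by
      have h5 : 2 * ((1 - e1) * NUO.Tb L) * (C1 * L) ≤ L * (C1 * L) := by
        gcongr
        clear * - hTb
        linarith
      refine mul_le_mul_of_nonneg_left ?_ (by (clear * - he he1 hF1; linarith))
      calc _ ≤ 1 / r * (L * (C1 * L)) + |C0| := by
            gcongr
            exact le_abs_self _
        _ = _ := by ring
    have hfin : 1 + ‖nu1 ρ η true g x‖ + ‖nu1 ρ η false g' x‖ ≤
        (|nuF (fun t => sN m true * NUSea.P t) x.1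
          (fun t => (g (t + iD (Fil.cv true η) t)).re)| +
        |nuF (fun t => sN m true * NUSea.P t) x.1
          (fun t => (g (t + iD (Fil.cv true η) t)).im)|) +
        (|nuF (fun t => sN m false * NUSea.P t) x.2
          (fun t => (g' (t + iD (Fil.cv false η) t)).re)| +
        |nuF (fun t => sN m false * NUSea.P t) x.2
          (fun t => (g' (t + iD (Fil.cv false η) t)).im)|) + Ct * L ^ 2 := by
      have h6 : 1 + 2 * (Q * (C1 / r * L ^ 2 + |C0|) + Q * Qo) ≤ Ct * L ^ 2 := by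
        rw [hCt]
        have h7 : 0 ≤ |C0| := abs_nonneg _
        have h9 : 0 ≤ Q * Qo * (L ^ 2 - 1) := by
          have : 0 ≤ L ^ 2 - 1 := by (clear * - hL2'; linarith)
          positivity
        have h8 : 0 ≤ Q * |C0| * (L ^ 2 - 1) := by
          have : 0 ≤ L ^ 2 - 1 := by (clear * - hL2'; linarith)
          clear * - hF1 hL2'
          positivity
        clear * - hL2' h9 h8
        nlinarith
      clear * - n1 n2 hCd h6
      linarith
    unfold nuE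
    rw [← ofReal_norm, ← ofReal_norm, ← ENNReal.ofReal_one, ← ENNReal.ofReal_add zero_le_one
      (norm_nonneg _), ← ENNReal.ofReal_add (by positivity) (norm_nonneg _)]
    exact ENNReal.ofReal_le_ofReal (hfin.trans (abs_nest _ _ _ _ ht.le).ge)
  · unfold nuE
    exact ((measurable_const.add (measurable_nu1 g true f2).enorm)).add
      (measurable_nu1 g' false f2').enorm
  · have h7 : Ct * L ^ 2 ≤ Ct * L ^ 10 := by (clear * - hL210 hCt1; gcongr)
    have h8 : 0 ≤ (4 * Cn + 4 * Qo + Ct) * L ^ 10 := by (clear * - hCn hQo1 hCt1 hL1; positivity)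
    clear * - ha h7 h8
    nlinarith
  · have h7 : Ct * L ^ 2 ≤ Ct * m := by (clear * - hL2 hCt1; gcongr)
    have h8 : 0 ≤ (2 * (16 * (2 * Ka) + Ct)) * (m : ℝ) := by positivity
    clear * - hp hq h7 h8
    nlinarith

/-- **products of statistics on the curve**: bound `m^(k+1)`, price `m^ε` -/
theorem statU6 {e1 : ℝ} (he : 0 < e1) (he1 : e1 ≤ 1 / 100) {J : ℝ} (hJ : 0 ≤ J) (C0 y₁ y₂ : ℝ)
    (h1 : y₁ < 0) (h2 : 0 < y₂) (k : ℕ) {Cg ε Cn : ℝ} (hCg : 1 ≤ Cg) (hε : 0 < ε) (hCn : 0 ≤ Cn) :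
    ∃ m0 : ℕ, ∀ m ≥ m0, ∀ a b : ℕ, (a : ℝ) ≤ Cn * m → (b : ℝ) ≤ Cn * m →
    ∀ ρ : ℝ → ℂ, DN C0 m ρ → ∀ g g' : Fin k → ℂ → ℂ,
      (∀ j, BC y₁ y₂ 1 (g j) ∧ BC y₁ y₂ 1 (g' j)) →
      StatOK (2 * Real.log m ^ 2) (fun a t => sN m a * NUSea.P t)
        (1 / (Cg * Real.log m ^ 2)) (Cg * Real.log m ^ 6) (Real.log m ^ 2 / 40) a b
        ((m : ℝ) ^ (k + 1)) ((m : ℝ) ^ ε)
        (fun x => ∏ j, nuE ρ (etaC e1 J m m) (g j) (g' j) x) := by
  obtain ⟨Ca, m1, hCa, H⟩ := exists_St6 he he1 hJ C0 y₁ y₂ h1 h2 hCg hCn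
  obtain ⟨m2, H2⟩ := polylog_le (2 * (k * Ca) ^ k + Ca ^ k) (10 * k) hε
  obtain ⟨m3, H3⟩ := pow_le_explog k (c := 1 / 40) (by norm_num)
  obtain ⟨m4, H4⟩ := exists_log_ge 1
  obtain ⟨m5, H5⟩ := exists_nat_ge (Ca ^ k)
  obtain ⟨m6, H6⟩ := polylog_le 2 0 hε
  refine ⟨max (max (max m1 m2) (max m3 m4)) (max (max m5 m6) 1),
    fun m hm a b ha hb ρ hρ g g' hg => ?_⟩
  have hm' := (le_max_left _ _).trans hm
  have hm'' := (le_max_right _ _).trans hm
  have q1 : m1 ≤ m := (le_max_left _ _).trans ((le_max_left _ _).trans hm')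
  have q2 : m2 ≤ m := (le_max_right _ _).trans ((le_max_left _ _).trans hm')
  have q3 : m3 ≤ m := (le_max_left _ _).trans ((le_max_right _ _).trans hm')
  have q4 : m4 ≤ m := (le_max_right _ _).trans ((le_max_right _ _).trans hm')
  have q5 : m5 ≤ m := (le_max_left _ _).trans ((le_max_left _ _).trans hm'')
  have q6 : m6 ≤ m := (le_max_right _ _).trans ((le_max_left _ _).trans hm'')
  have q7 : 1 ≤ m := (le_max_right _ _).trans hm''
  have r2 := H2 m q2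
  have r3 := H3 m q3
  have hL1 := H4 m q4
  have r6 := H6 m q6
  have hm1 : (1:ℝ) ≤ m := by exact_mod_cast q7
  have hm5 : Ca ^ k ≤ m := H5.trans (by exact_mod_cast q5)
  choose X hX1 hX2 hX3 using fun j => H m q1 ρ hρ (g j) (g' j) (hg j).1 (hg j).2 a b ha hb
  obtain ⟨L, hL⟩ : ∃ L, L = Real.log m := ⟨_, rfl⟩
  simp only [← hL] at r2 r3 hL1 hX3 ⊢
  have hmeas : Measurable fun x : Cfg a b => ∏ j, nuE ρ (etaC e1 J m m) (g j) (g' j) x :=
    Finset.measurable_fun_prod _ fun j _ => hX2 j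
  rcases Nat.eq_zero_or_pos k with hk | hk
  · subst hk
    refine (StatOK.one (by positivity : (0:ℝ) ≤ L ^ 2 / 40)).mono ?_ ?_ hmeas fun x => ?_
    · rw [zero_add, pow_one]
      exact hm1
    · rw [pow_zero, mul_one] at r6
      exact r6
    · simp
  · have : Nonempty (Fin k) := ⟨⟨0, hk⟩⟩
    have h5 := StatOK.prod hX3
    rw [Fintype.card_fin] at h5
    simp only [Finset.prod_const, Finset.card_univ, Fintype.card_fin] at h5
    have hmk : (1:ℝ) ≤ (m : ℝ) ^ k := one_le_pow₀ hm1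
    refine h5.mono ?_ ?_ hmeas fun x => ?_
    · calc (Ca * m) ^ k = Ca ^ k * (m : ℝ) ^ k := mul_pow _ _ _
        _ ≤ m * (m : ℝ) ^ k := by (clear * - hm5 q7; gcongr)
        _ = _ := by ring
    · have e2 : Real.exp (-(L ^ 2 / 40)) = Real.exp (-(1 / 40 * L ^ 2)) := by
        congr 1
        ring
      rw [Real.rpow_natCast] at r3
      have hL10 : 1 ≤ L ^ (10 * k) := one_le_pow₀ hL1
      have hCk : 0 ≤ Ca ^ k := by positivity
      calc 2 * (k * (Ca * L ^ 10)) ^ k + (Ca * m) ^ k * Real.exp (-(L ^ 2 / 40)) =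
            2 * (k * Ca) ^ k * L ^ (10 * k) +
              Ca ^ k * ((m : ℝ) ^ k * Real.exp (-(1 / 40 * L ^ 2))) := by
              rw [e2, mul_pow Ca (m:ℝ), ← mul_assoc (k:ℝ), mul_pow (k * Ca), ← pow_mul]
              ring
        _ ≤ 2 * (k * Ca) ^ k * L ^ (10 * k) + Ca ^ k * L ^ (10 * k) := by
              have := r3.trans hL10
              clear * - this hCa
              gcongr
        _ = (2 * (k * Ca) ^ k + Ca ^ k) * L ^ (10 * k) := by ring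
        _ ≤ _ := r2
    · rw [ENNReal.ofReal_prod_of_nonneg fun j _ => abs_nonneg _]
      exact Finset.prod_le_prod' fun j _ => hX1 j x

end curve

end

end PBZ.PLX
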