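import Pool.Agent.PHK.TopR06
import Pool.Agent.PHK.UProps6
import Pool.Agent.PHK.StatU6
import Pool.Agent.PLX.PB.TopN

/-!
# The particle-hole form (P): the bounds `UX6` of the regular main class at fixed half quanta

Right end of (TR), rows `0 | 0^q`, `k - 1` of them in the first group.

* `famR6 nr`: index = heights of the two half quanta; class functions of the class `W W` at rows `0`,
  cutoffs `[I, -I]`, string corrections `gV6 k`; normaliser `nr k * kR k y`; bound `exp (- mTR y)`;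
* `statFam_U6`: the statistics of `UB6` are a family `StatFam6 (p + 1)`;
* **`ux_famR6_of : UX6 (famR6 nr)`** for `‖nr k‖ exp (EM2 k)` bounded.
-/

set_option autoImplicit false
set_option linter.unusedSectionVars false

noncomputable section

open Complex MeasureTheory Finset
open scoped ENNReal
open PLX (Fil Ends)

namespace PBI.PLX

open NUGC NUGC.PLX PBO PBO.PLX PBF PBF.PLX PotH PotH.PLX PBR PBR.PLX PBX PBX.PLX PBU PBU.PLX
open NUO NUP1 NUCR NUP1S NUP1S.Ab NUP1S.AbC NUP1S.AbG NURow NUP1.Leg NUStabP NUDispW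
open PHK
open PBP.PLX (gT)
open PBTV.PLX (gV6)

variable [Fil]

/-- **the regular main class at fixed half quanta** -/
def famR6 (nr : ℕ → ℂ) : PBU.PLX.Fam (ℝ × ℝ) where
  Z ep m y := RZW (R06 (m - 1) (NUGC.PLX.beC ep) [I, -I] (gV6 m true) (gV6 m false))
    (vl (5 / 4 * l) y.1) (vl (5 / 4 * l) y.2)
  Pf m y := nr m * kR m y
  top m := 2 * (m - 1)
  ok m y := |y.1| ≤ 3 / 8 * Real.log m ∧ |y.2| ≤ 3 / 8 * Real.log m
  bd _ y := Real.exp (-mTR y)

/-- the indices of the statistics -/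
def StI (p : ℕ) : Type :=
  (ℝ → ℂ) × (((r : ℕ) → (Fin r → Xo) → Fin p → ℂ → ℂ) × ((r : ℕ) → (Fin r → Xo) → Fin p → ℂ → ℂ))

section anySea

variable [NUSea.Sea]

/-- the admissible statistics -/
def okU (C0 y₁ y₂ : ℝ) {p : ℕ} (m : ℕ) (i : StI p) : Prop :=
  DN C0 m i.1 ∧ ∀ r O j, BC y₁ y₂ 1 (i.2.1 r O j) ∧ BC y₁ y₂ 1 (i.2.2 r O j)

/-- the statistics of `UB6` -/
def phU (e1 J : ℝ) {p : ℕ} (i : StI p) (m _N : ℕ) : InsE := fun r O _ _ x =>
  ∏ j, nuE i.1 (etaC e1 J m m) (i.2.1 r O j) (i.2.2 r O j) x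

/-- the numbers of quanta of the curve are at most `(5 + qo) m` -/
theorem num_le6 [Ends] {m N a b : ℕ} (hm : 1 ≤ m) (hN : N ≤ 2 * m) (ha : a ≤ N + 3)
    (hb : b ≤ N + Fil.xe m + 3) :
    (a : ℝ) ≤ (5 + ((Fil.qo : ℕ) : ℝ)) * m ∧ (b : ℝ) ≤ (5 + ((Fil.qo : ℕ) : ℝ)) * m := by
  have hx := Fil.xe_le_qo hm
  have e : (5 + ((Fil.qo : ℕ) : ℝ)) * m = ((5 * m + Fil.qo * m : ℕ) : ℝ) := by
    push_cast
    ring
  rw [e]
  constructor
  · have h : a ≤ 5 * m + Fil.qo * m := by omega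
    exact_mod_cast h
  · have h : b ≤ 5 * m + Fil.qo * m := by omega
    exact_mod_cast h

theorem statFam_U6 [Ends] {e1 : ℝ} (he1 : 0 < e1) (he11 : e1 ≤ 1 / 100) {J : ℝ} (hJ : 0 ≤ J)
    (C0 : ℝ) {y₁ y₂ : ℝ} (hy1 : y₁ < 0) (hy2 : 0 < y₂) (p : ℕ) :
    StatFam6 ((p : ℝ) + 1) (okU C0 y₁ y₂ (p := p)) (phU e1 J) where
  hA0 := by positivity
  poly := by
    obtain ⟨m0, h⟩ := PBZ.PLX.statU6 he1 he11 hJ C0 y₁ y₂ hy1 hy2 p (Cg := 1) (ε := 1)
      (Cn := 5 + ((Fil.qo : ℕ) : ℝ)) le_rfl zero_lt_one (by positivity)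
    refine ⟨max m0 1, fun m hm i hi N hN r O a b y _ ha hb => ?_⟩
    have hm0 : m0 ≤ m := (le_max_left _ _).trans hm
    have hm1 : 1 ≤ m := (le_max_right _ _).trans hm
    have hmp : (0 : ℝ) < m := by exact_mod_cast hm1
    have hx := num_le6 hm1 hN ha hb
    have key := (h m hm0 a b hx.1 hx.2 i.1 hi.1 (i.2.1 r O) (i.2.2 r O) (hi.2 r O)).poly y
    refine key.trans (ENNReal.ofReal_le_ofReal (le_of_eq ?_))
    rw [mul_comm, Real.exp_mul, Real.exp_log hmp, ← Real.rpow_natCast]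
    push_cast
    rfl
  sharp Cg hCg ε hε := by
    obtain ⟨m0, h⟩ := PBZ.PLX.statU6 he1 he11 hJ C0 y₁ y₂ hy1 hy2 p hCg hε
      (Cn := 5 + ((Fil.qo : ℕ) : ℝ)) (by positivity)
    refine ⟨max m0 1, fun m hm i hi N hN r O a b _ _ _ ha hb => ?_⟩
    have hm0 : m0 ≤ m := (le_max_left _ _).trans hm
    have hm1 : 1 ≤ m := (le_max_right _ _).trans hm
    have hx := num_le6 hm1 hN ha hb
    exact ⟨_, h m hm0 a b hx.1 hx.2 i.1 hi.1 (i.2.1 r O) (i.2.2 r O) (hi.2 r O)⟩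

end anySea

attribute [local instance] NUSea.seaP _root_.PLX.ends1

/-- **U1, U3, U4 of the regular main class at fixed half quanta**, any normaliser of the right size -/
theorem ux_famR6_of (hS : StabProd6 par6) {nr : ℕ → ℂ} {Cn : ℝ}
    (hn : ∀ k, 1 ≤ k → ‖nr k‖ * Real.exp (_root_.PLX.EM2 k) ≤ Cn) : UX6 (famR6 nr) := by
  intro p K ε hε
  obtain ⟨K', hK'⟩ : ∃ K', K' = max |K| 1 := ⟨_, rfl⟩
  have hK1 : 1 ≤ K' := by rw [hK']; exact le_max_right _ _
  obtain ⟨κ0, hκ, hκ1, htop⟩ := topR06 hS ((p : ℝ) + 1) (Real.log K') hε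
  refine ⟨κ0, hκ, fun ep e1 J hep he1 hJ hsm => ?_⟩
  have hexpJ := Real.exp_pos (-(2 * Real.pi * J))
  have a1 : ep ≤ κ0 := by linarith
  have a2 : e1 ≤ κ0 := by linarith
  have a3 : Real.exp (-(2 * Real.pi * J)) ≤ κ0 := by linarith
  intro C0 y₁ y₂ hy1 hy2
  obtain ⟨k0, hk0, htop⟩ := htop (StI p) (okU C0 y₁ y₂) (phU e1 J)
    (statFam_U6 he1 (a2.trans hκ1) hJ C0 hy1 hy2 p) ep hep a1 e1 he1 a2 J hJ a3 nr Cn hn
  refine ⟨k0, fun m hm y hy ρ hρ Bw hBw w hw g g' hg => ?_⟩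
  obtain ⟨-, htop⟩ := htop m hm
  have hm1 : 1 ≤ m := by omega
  have hmp : (0 : ℝ) < m := by exact_mod_cast hm1
  have hL : 0 ≤ Real.log m := Real.log_nonneg (by exact_mod_cast hm1)
  have hTW : 3 / 8 * Real.log m ≤ TW ep e1 m := by
    have h : TW ep e1 m = (1 + 2 * e1 + 2 * ep) * (3 / 8 * Real.log m) := rfl
    rw [h]
    nlinarith [mul_nonneg he1.le hL, mul_nonneg hep.le hL]
  -- the weight of the objects
  obtain ⟨w', hw'⟩ : ∃ w' : (r : ℕ) → (Fin r → Xo) → ℝ, w' = fun r O => max (w r O) 0 := ⟨_, rfl⟩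
  have hw0 : ∀ r O, 0 ≤ w' r O := fun r O => by rw [hw']; exact le_max_right _ _
  have hw1 : ∀ (r : ℕ) (O : Fin r → Xo), w' r O ≤ Bw * Real.exp (Real.log K' * r) *
      Real.exp (∑ i, gT e1 (Real.log m) (ht (O i))) := by
    intro r O
    have e : w' r O = max (w r O) 0 := by rw [hw']
    rw [e]
    have hk : Real.exp (Real.log K' * r) = K' ^ r := by
      rw [Real.exp_mul, Real.exp_log (by linarith), Real.rpow_natCast]
    rw [hk]
    refine max_le ((hw r O).trans ?_) (by positivity)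
    rw [Real.exp_sum]
    refine mul_le_mul_of_nonneg_right (mul_le_mul_of_nonneg_left ?_ hBw)
      (Finset.prod_nonneg fun i _ => (Real.exp_pos _).le)
    have h1 : K ^ r ≤ |K| ^ r := by
      rw [← abs_pow]
      exact le_abs_self _
    refine h1.trans (pow_le_pow_left₀ (abs_nonneg _) ?_ r)
    rw [hK']
    exact le_max_left _ _
  have hww : ∀ r O, ENNReal.ofReal (w r O) = ENNReal.ofReal (w' r O) := by
    intro r O
    have e : w' r O = max (w r O) 0 := by rw [hw']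
    rw [e]
    rcases le_total (w r O) 0 with h | h
    · rw [max_eq_right h, ENNReal.ofReal_of_nonpos h, ENNReal.ofReal_zero]
    · rw [max_eq_left h]
  have key := htop y (hy.1.trans hTW) (hy.2.trans hTW) (ρ, g, g') ⟨hρ, hg⟩ w' Bw hBw hw0 hw1
  rw [FS_eq6, ← ofReal_norm]
  simp only [hww]
  refine le_trans (mul_le_mul' le_rfl ?_) (key.trans (le_of_eq ?_))
  · have ht : (famR6 nr).top m = 2 * (m - 1) := rfl
    rw [ht, PBF.PLX.dN_two]
    exact Finset.sum_le_sum_of_subset (Finset.range_subset_range.2 (by omega))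
  · rw [mul_assoc]
    rfl

end PBI.PLX

end
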