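import Pool.Agent.PHK.TRsRa6
import Pool.Agent.PHK.TRsF6
import Pool.Agent.PHK.TRsD4
import Pool.Agent.PHK.UXR6

/-!
# (P), (TR), right end of the s-path: the bounds `UX6` of the family `famW6`

* `Pf_famW6`: the normaliser of `famW6` is a constant times the normaliser of `famR6 nrR`;
* `FE_famW6`: the functionals with moduli are those of the class `W W`;
* **`ux_famW6 : StabProd6 par6 → UX6 famW6`**.
-/

set_option autoImplicit false
set_option linter.unusedSectionVars false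

noncomputable section

open Complex MeasureTheory Finset Filter
open scoped ENNReal
open PLX (Fil)

namespace PBTW.PLX

open NUGC NUGC.PLX PBO PBO.PLX PBF PBF.PLX PBR PBR.PLX PBX PBX.PLX PBU PBU.PLX PBI PBI.PLX PBTV PBTV.PLX
open NUO NUP1 NUP1S NUP1S.Ab NUP1S.AbC PHK
open PBT3 (wt zt zz k1T wt_re)

variable [Fil]

attribute [local instance] NUSea.seaP

/-- **the normaliser of `famW6`** -/
theorem Pf_famW6 (k : ℕ) (τ : ℝ × ℝ) :
    famW6.Pf k τ = (famR6 fun k => cW6 * nrR k).Pf k τ := pf_w6 k τ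

/-- **the functionals with moduli** -/
theorem FE_famW6 (ep e1 J : ℝ) (m : ℕ) (τ : ℝ × ℝ) (n n' : ℕ)
    (hc : ∀ t, |etaC e1 J m m t| ≤ NUP1.l / 5) (φ : InsE) :
    FE6 (famW6.Z ep m τ) par6 n n' (cr e1 J m) (cr' e1 J m) φ =
      FE6 (RZW (R06 (m - 1) (NUGC.PLX.beC ep) [I, -I] (gV6 m true) (gV6 m false)) (vl (5 / 4 * l) τ.1)
        (vl (5 / 4 * l) τ.2)) par6 n n' (cr e1 J m) (cr' e1 J m) φ := by
  have key := PBTs.PLX.FE_WLg (w := wt τ.1) (w' := wt τ.2) (P := par6) (n := n) (n' := n')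
    (η := cr e1 J m) (η' := cr' e1 J m) (wt_re τ.1) (wt_re τ.2) par6_good (m - 1)
    (NUGC.PLX.beC ep) [I, -I] (gV6 m) (fun r _ => Eventually.of_forall fun O t => hc t) φ
  have e : famW6.Z ep m τ = expZ (PBTs.PLX.ZLg (m - 1) (NUGC.PLX.beC ep) [I, -I] (gV6 m) (wt τ.1)
    (wt τ.2)) (PBTs.PLX.DT (wt τ.1) (wt τ.2)) 1 := rfl
  rw [e, ← key, wt_vl, wt_vl]

/-- **U1, U3, U4 of the right end of (TR)** -/
theorem ux_famW6 (hS : StabProd6 par6) : UX6 famW6 := by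
  have hl := NUP1.l_pos
  intro p K ε hε
  obtain ⟨a0, ha0, h0⟩ := ux_famR6_of hS (nr := fun k => cW6 * nrR k)
    (fun k _ => (norm_cW6 k).le) p K ε hε
  refine ⟨min a0 (3 / 100), lt_min ha0 (by norm_num), fun ep e1 J hep he1 hJ hsm => ?_⟩
  have hexpJ := Real.exp_pos (-(2 * Real.pi * J))
  have hs1 := hsm.trans (min_le_left _ _)
  have hs2 := hsm.trans (min_le_right _ _)
  have h0 := h0 ep e1 J hep he1 hJ hs1
  obtain ⟨mc, hmc, Hc⟩ := curOKC (ep := 1 / 100) he1 (by linarith) hJ (by norm_num)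
  intro C0 y₁ y₂ hy1 hy2
  obtain ⟨m0, h0⟩ := h0 C0 y₁ y₂ hy1 hy2
  refine ⟨max m0 mc, fun m hm τ hτ ρ hρ B hB w hw g g' hg => ?_⟩
  have m1 : m0 ≤ m := (le_max_left _ _).trans hm
  have m2 : mc ≤ m := (le_max_right _ _).trans hm
  have hm1 : 1 ≤ m := hmc.trans m2
  have hmp : (0 : ℝ) < m := by exact_mod_cast hm1
  have hL : 0 ≤ Real.log m := Real.log_nonneg (by exact_mod_cast hm1)
  have hc : ∀ t, |etaC e1 J m m t| ≤ NUP1.l / 5 := fun t =>
    ((Hc m m2 m (by linarith)).h1 t).trans (by linarith)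
  have hok : (famR6 fun k => cW6 * nrR k).ok m τ := by
    have h : 2 * |τ.1| + 2 * |τ.2| + |τ.1 - τ.2| / 2 ≤ 17 / 40 * Real.log m := hτ
    have h1 := abs_nonneg τ.1
    have h2 := abs_nonneg τ.2
    have h3 := abs_nonneg (τ.1 - τ.2)
    constructor <;> linarith
  refine le_trans ?_ (h0 m m1 τ hok ρ hρ B hB w hw g g' hg)
  rw [FS_eq6, FS_eq6, Pf_famW6]
  refine mul_le_mul' le_rfl ?_
  exact (Finset.sum_congr rfl fun n _ => FE_famW6 ep e1 J m τ n _ hc _).le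

end PBTW.PLX

end
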