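import Pool.Agent.PHK.RaysX
import Pool.Agent.PHK.TRsR6

/-!
# (P): the transfer on the rays, no hypothesis (helper12)

* `tR_PP`; **`rays_fin`**: both hypotheses `h0`, `h1` of `Pool.Agent.PLN.pubA_rays`.
-/

set_option autoImplicit false
set_option linter.unusedSectionVars false
set_option linter.style.haveILetI false

noncomputable section

open Complex MeasureTheory Filter Topology Set

namespace Pool.Agent.PLX

open _root_.PLX (Fil)
open _root_.PHK (wordThB wordThZ stabProd_par6)

attribute [local instance] NUSea.seaP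

/-- **the rays of (P)** -/
theorem rays_fin :
    (∀ B : ℕ, ∃ b : ℕ, B ≤ b ∧ Odd b ∧ TRray b (atTop ⊓ 𝓟 {m | Even m})) ∧
      ∀ B : ℕ, ∃ b : ℕ, B ≤ b ∧ Odd b ∧ TRray b (atTop ⊓ 𝓟 {m | ¬Even m}) :=
  rays_X (_root_.PBTW.PLX.ux_famW6 stabProd_par6)

end Pool.Agent.PLX

end
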