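import Pool.Agent.PHK.RayFin
import Pool.Agent.PHK.CloseE6
import Pool.Agent.PHK.CloseF6
import Pool.Agent.PHK.LevPW6
import Pool.Agent.PHK.LevNW6
import Pool.Agent.PHK.LevH6
import Pool.Agent.PHK.UXfin6
import Pool.Agent.PHK.BordI
import Pool.Agent.PHK.KClsF6
import Pool.Agent.PHK.ClsFF6

/-!
# (P): the rays from the class formula and the three open literals (helper12)

* `fxLe_P`, `kRows_P0`, `closeE_P`;
* **`rays_P`**: both hypotheses `h0`, `h1` of `Pool.Agent.PLN.pubA_rays` from `WordTh`, `HD6 (1 / 2)`,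
  `HZ6 (1 / 2)` and `TRq`.
-/

set_option autoImplicit false
set_option linter.unusedSectionVars false
set_option linter.style.haveILetI false

noncomputable section

open Complex MeasureTheory Filter Topology Set

namespace Pool.Agent.PLX

open _root_.PLX (Fil)
open _root_.PHK (par6 enC6 StabE StabProd6 stabProd_par6)

/-- the stability in the form of the sums over the configurations, sea of this representation -/
theorem stabE_P [Fil] : StabE par6 fun _ O => enC6 par6 O := _root_.PBU.PLX.stabE6 stabProd_par6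

/-- **(U)** -/
theorem fxLe_P [Fil] (hW : WordTh) {δ : ℝ} (hδ : 0 < δ) : FxLe Fil.q δ :=
  _root_.PBC.PLX.fx_le6 (ffth_of_word hW) stabE_P hδ

/-- **(K)** -/
theorem kRows_P0 (hW : WordTh) {b : ℕ} (hb : 1 ≤ b) : KRows nL b :=
  kRows6_FF (fun F => @ffth_of_word F hW) stabProd_par6 hb

/-- **(E')** -/
theorem closeE_P [Fil] (hD : _root_.PBLX.PLX.HD6 (1 / 2)) (hZ : _root_.PBLX.PLX.HZ6 (1 / 2)) :
    PBV.E2 (1 / 2) fun j z x => fxQ Fil.q j x z := by
  haveI : _root_.PBLX.PLX.MomS6 := _root_.PBLX.PLX.MomS6.of_stab stabE_P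
  exact _root_.PBLX.PLX.closeE6 _root_.PBWP.PLX.levW_wp6 _root_.PBLX.PLX.levW_wm6 hD hZ

/-- **the rays of (P)** -/
theorem rays_P (hW : WordTh) (hD : ∀ F : Fil, @_root_.PBLX.PLX.HD6 F (1 / 2))
    (hZ : ∀ F : Fil, @_root_.PBLX.PLX.HZ6 F (1 / 2)) (hT : ∀ q : ℕ, 1 ≤ q → TRq q) :
    (∀ B : ℕ, ∃ b : ℕ, B ≤ b ∧ Odd b ∧ TRray b (atTop ⊓ 𝓟 {m | Even m})) ∧
      ∀ B : ℕ, ∃ b : ℕ, B ≤ b ∧ Odd b ∧ TRray b (atTop ⊓ 𝓟 {m | ¬Even m}) := by
  refine rays_of (c := 1 / 2) (by norm_num) (by norm_num) (fun q hq => kRows_P0 hW hq)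
    (fun q hq δ hδ => ?_) (fun q hq => ?_) hT
  · letI : Fil := ⟨q, hq⟩
    exact fxLe_P hW hδ
  · letI F : Fil := ⟨q, hq⟩
    exact closeE_P (hD F) (hZ F)

end Pool.Agent.PLX

end
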