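import Pool.Agent.PHK.TopR06
import Pool.Agent.PHK.TRH26

/-!
# The particle-hole form (P), (H2) of (TR) from the stability bound (helper8)
-/

set_option autoImplicit false

noncomputable section

open Complex MeasureTheory Finset Filter

open PLX (Fil)

namespace PBTRF.PLX

open PBTR (mT winW)
open PHK

attribute [local instance] NUSea.seaP PLX.ends1

variable [Fil]

theorem topVal6 (hS : StabProd6 par6) {e : ℝ} (he : 0 < e) : TopVal6 e := by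
  obtain ⟨κ0, hκ, hκ1, H⟩ := PBI.PLX.topR0_val6 hS he
  refine ⟨κ0, hκ, hκ1, fun ep hep hep1 e1 he1 he11 J hJ hJ1 c Cn hc => ?_⟩
  obtain ⟨k0, hk0, H⟩ := H ep hep hep1 e1 he1 he11 J hJ hJ1 c Cn hc
  exact ⟨k0, hk0, fun k hk => (H k hk).2⟩

/-- **(H2)** -/
theorem h2_R6 (hS : StabProd6 par6) {e : ℝ} (he : 0 < e) : ∃ κ0 : ℝ, 0 < κ0 ∧ κ0 ≤ 1 / 100 ∧
    ∀ ep : ℝ, 0 < ep → ep ≤ κ0 → ∀ e1 : ℝ, 0 < e1 → e1 ≤ κ0 → ∀ J : ℝ, 0 ≤ J →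
    Real.exp (-(2 * Real.pi * J)) ≤ κ0 →
    ∀ᶠ k : ℕ in atTop, ∀ τ ∈ winW (3 / 8) k,
      ‖KK (SR06 ep e1 J) k τ‖ ≤ (k : ℝ) ^ e * Real.exp (-(mT τ)) :=
  h2_SR06 (topVal6 hS he)

end PBTRF.PLX

end
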