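import Pool.Agent.PHK.UXmap6
import Pool.Agent.PHK.UXfin6
import Pool.Agent.PHK.Zv6

/-!
# The particle-hole form (P), (TR): U1, U3, U4 of the left end of the `s`-path

`famV6` of `PHK/Zv6` is `famT6` at the index `(0, zt τ)`:
* `mu1_zero`, `okv_im`; **`ux_famV6 : UX6 famV6`** from the stability certificate.
-/

set_option autoImplicit false
set_option linter.unusedSectionVars false

noncomputable section

open Complex MeasureTheory Finset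
open scoped ENNReal
open PLX (Fil)

namespace PBTV.PLX

open NUO NUP1 NUP1S NUP1S.Ab NUP1S.AbC NUGC NUGC.PLX PBF PBF.PLX PBP PBP.PLX PBU PBU.PLX PHK

variable [Fil]

theorem mu1_zero (k : ℕ) : PBL.PLX.mu1 k 0 = fun _ => 0 := by
  unfold PBL.PLX.mu1
  funext i
  refine Fin.cases ?_ (fun j => ?_) i <;> simp

theorem okv_im {k : ℕ} {τ : ℝ × ℝ} (h : okv k τ) :
    |(PBT3.zt τ).im| ≤ 17 / 160 * Real.log k := by
  rw [PBT3.zt_im]
  unfold okv mTv at h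
  have h1 : |(-(τ.1 + τ.2) / 2 : ℝ)| ≤ (|τ.1| + |τ.2|) / 2 := by
    rw [abs_div, abs_neg, abs_two]
    have := abs_add_le τ.1 τ.2
    linarith
  have := abs_nonneg (τ.1 - τ.2)
  linarith

attribute [local instance] NUSea.seaP

/-- the class functions of the left end are those of the dislocated function, `k - 1` rows `0` -/
theorem famV_Z6 (ep : ℝ) (k : ℕ) (τ : ℝ × ℝ) :
    famV6.Z ep (k + 2) τ = famT6.Z ep (k + 2) (0, PBT3.zt τ) := by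
  show (fun a => Pool.Agent.PLX.XXU (NUP1.Leg.cc (cond a (k + 1) (Fil.q * (k + 1)))) (4 / 3 * (1 - ep))
      (Pool.Agent.PLX.rwq (fun _ : Fin (k + 1) => (0 : ℂ)) a)
      (Pool.Agent.PLX.rwq (fun _ : Fin (k + 1) => (0 : ℂ)) (!a)) (PBX.gP (4 / 3 * (1 - ep)) [I, -I])
      (gO (T1L (k + 2)) [] (Pool.Agent.PLX.rwq (fun _ : Fin (k + 1) => (0 : ℂ)) a))
      (PBX.Lg (PBT3.zt τ) (PBT3.zt τ))
      (fun u => PBX.Lg (PBT3.zt τ) (PBT3.zt τ) u * PBX.Lg (PBT3.zt τ) (PBT3.zt τ) (u - NUP1.l))) =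
    fun a => Pool.Agent.PLX.XXU (NUP1.Leg.cc (cond a (k + 1) (Fil.q * (k + 1)))) (4 / 3 * (1 - ep))
      (Pool.Agent.PLX.rwq (PBL.PLX.mu1 k 0) a)
      (Pool.Agent.PLX.rwq (PBL.PLX.mu1 k 0) (!a)) (PBX.gP (4 / 3 * (1 - ep)) [I, -I])
      (gO (T1L (k + 2)) [] (Pool.Agent.PLX.rwq (PBL.PLX.mu1 k 0) a))
      (PBX.Lg (PBT3.zt τ) (PBT3.zt τ))
      (fun u => PBX.Lg (PBT3.zt τ) (PBT3.zt τ) u * PBX.Lg (PBT3.zt τ) (PBT3.zt τ) (u - NUP1.l))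
  rw [mu1_zero]

/-- **U1, U3, U4 of the left end of the path** -/
theorem ux_famV6 (h : StabProd6 par6) : UX6 famV6 := by
  refine UX6.map (F := famT6) (uxT6 h) (fun _ τ => (0, PBT3.zt τ)) (C := 1) (C' := 1) zero_le_one
    (fun m τ => (Real.exp_pos _).le) 2 fun m hm τ hτ => ?_
  obtain ⟨k, rfl⟩ : ∃ k, m = k + 2 := ⟨m - 2, by omega⟩
  have hL : 0 ≤ Real.log ((k + 2 : ℕ) : ℝ) := Real.log_natCast_nonneg _
  have hl := NUP1.l_pos
  refine ⟨⟨?_, ?_, ?_, ?_, ?_⟩, fun ep => famV_Z6 ep k τ, ?_, ?_, ?_⟩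
  · show |(0 : ℂ).re| ≤ NUP1.l / 10
    simp
    positivity
  · show |(0 : ℂ).im| ≤ 2
    simp
  · show -(9 / 10 * NUP1.l) ≤ (PBT3.zt τ).re
    rw [PBT3.zt_re]
    linarith
  · show (PBT3.zt τ).re < 31 / 10 * NUP1.l
    rw [PBT3.zt_re]
    linarith
  · have := okv_im hτ
    show |(PBT3.zt τ).im| ≤ 3 / 20 * Real.log ((k + 2 : ℕ) : ℝ) + 2
    linarith
  · show ‖Pool.Agent.PB.Pf _ (fun _ : Fin (k + 1) => (0 : ℂ)) fun _ : Fin (Fil.q * (k + 1)) => (0 : ℂ)‖ ≤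
      1 * ‖Pool.Agent.PB.Pf _ (PBL.PLX.mu1 k 0) (_root_.Pool.Agent.PLX.yq (PBL.PLX.mu1 k 0))‖
    rw [mu1_zero, one_mul]
    exact le_rfl
  · rfl
  · show Real.exp (2 * |(PBT3.zt τ).im|) ≤ 1 * Real.exp |τ.1 + τ.2|
    rw [one_mul, PBT3.zt_im, Real.exp_le_exp, abs_div, abs_neg, abs_two]
    linarith

end PBTV.PLX

end
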