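import Pool.Agent.PHK.ObRes6
import Pool.Agent.PLX.PB.TRsG0

/-!
# (P), (TR), s-path: the potential of the objects near the line of the quanta

The file `PLX/PB/TRsG0` for the six kinds; the parts without kinds (`h00_fac`, `LX`, `cut_fac`, `cut_mass`,
`D1_fac`, `Dl_deriv_diff`, `be_st5`, `X_fac`) are the landed ones; `ldrK_unique`, `LPoK_eq6` are in
`PHK/ObRes6`.

* `potO6_ne_ds`: the potential of the objects has no zero in the strip of `DsC`.
-/

set_option autoImplicit false
set_option linter.unusedSectionVars false

noncomputable section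

open Complex MeasureTheory Finset

namespace PHK

open NUO NUP1 NUP1.Bd NUP1S NUP1S.Ab NUGC NUGC.PLX

/-- **the potential of the objects has no zero in the strip** -/
theorem potO6_ne_ds {P : Par6} {h c : ℝ} {r : ℕ} (hd : DsC P h c) (O : Fin r → Xo) (s : Bool) {z : ℂ}
    (hz : z.re ∈ Set.Icc ((1 - h) * l) ((1 + h) * l)) : potO6 P O s z ≠ 0 := potK6_ne hd O s hz

end PHK

end
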