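import Pool.Agent.PLX.PB.TRsX
import Pool.Agent.PHK.TRsA6
import Pool.Agent.PHK.ObRes6

/-!
# The particle-hole form (P): (TR), the response of the objects on the path, literal data

(P) twin of `PLX/PB/TRsX`; fields `be w w' b`, `be_hM`, `CB`, `sg1_eq`, `min_le_pin` are the landed ones.

* `limB6 w w' x`: limit of the statistic of the object `x` above it, `limB_eq6`;
* **`resp_obj6`**, **`resp_cfg6`**, **`resp_stO6`**: the response plus the statistic of the objects is at
  most `(CRX6 (1 + M) + C') (1 + M) ∑ i, min 1 (e^{2 (M - |ht (O i)|)})`.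
-/

set_option autoImplicit false
set_option linter.unusedSectionVars false

noncomputable section

open Complex MeasureTheory Set Filter

namespace PBTs.PLX

open NUO NUP1 NUP1S NUP1S.Ab PBOR PBOR.PLX PBT3 PBF PBF.PLX PHK

variable {r : ℕ} {w w' : ℂ}

/-- limit of the statistic of the object `x` at heights `→ +∞` (minus it at `-∞`) -/
def limB6 (w w' : ℂ) (x : Xo) : ℂ :=
  2 * ∑ b, ((chg6 b x : ℂ) - (chg6 (!b) x : ℂ)) * ∫ t : ℝ, be w w' b t

theorem limB_eq6 (h : G5 w w') (x : Xo) :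
    limB6 w w' x = ((chg6 true x : ℂ) - (chg6 false x : ℂ)) * (I * (w - w')) := by
  have hg := h.geo
  have h1 := int_be_sub hg true
  rw [int_bM hg, sgb_true, one_mul, integral_sub (be_int hg true) (be_int hg (!true))] at h1
  unfold limB6
  rw [Fintype.sum_bool]
  simp only [Bool.not_true, Bool.not_false] at h1 ⊢
  linear_combination (2 * ((chg6 true x : ℂ) - (chg6 false x : ℂ))) * h1

/-- the line `Re u = l` -/
theorem re_lI6 (t : ℝ) : ((l : ℂ) + I * t).re = l := by simp

/-- the kernel of an object on the line `Re u = l` is continuous -/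
theorem cont_klsX6 {P : Par6} (hP : GoodP6 P) (hj : P.j2 ≤ 19 / 20) (b : Bool) (x : Xo) :
    Continuous fun t : ℝ => I * kls6 b (parts6 P x) (l + I * t) := by
  refine continuous_const.mul (continuous_iff_continuousAt.2 fun t => ?_)
  have h1 := (hasDerivAt_parts6 hP hj b x (re_lI6 t)).continuousAt
  have h2 : ContinuousAt (fun t : ℝ => (l : ℂ) + I * t) t := by fun_prop
  exact ContinuousAt.comp (f := fun t : ℝ => (l : ℂ) + I * t)
    (g := fun w : ℂ => kls6 b (parts6 P x) w) h1 h2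

/-- constant of the response -/
def CRX6 : ℝ := 12 * CB * (CO6 + 4 * 2)

/-- **the response of one object** -/
theorem resp_obj6 (h : G5 w w') {P : Par6} (hP : GoodP6 P) (hj : P.j2 ≤ 19 / 20) {C' : ℝ} {x : Xo} {D : ℂ}
    (hD : ‖D - sg1 (ht x) * limB6 w w' x‖ ≤
      C' * (1 + MM w w') * min 1 (Real.exp (2 * (MM w w' - |ht x|)))) :
    ‖(∑ b, ∫ t : ℝ, be w w' b t * (I * kls6 b (parts6 P x) (l + I * t))) + D‖ ≤
      (CRX6 * (1 + MM w w') + C') * (1 + MM w w') * min 1 (Real.exp (2 * (MM w w' - |ht x|))) := by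
  have hg := h.geo
  refine (resp_le (β := fun b t => be w w' b t)
    (K := fun b t => I * kls6 b (parts6 P x) (l + I * t))
    (c := fun b => (chg6 b x : ℂ) - (chg6 (!b) x : ℂ)) (D := D) (t0 := ht x) (B := CB) (C := CO6)
    (c0 := 2) (C' := C') (MM_nonneg w w') CB_nonneg CO6_pos.le (fun b => chg_diff6 b x)
    (fun b t => be_hM h b t) (fun b => (be_int hg b).aestronglyMeasurable)
    (fun b => (cont_klsX6 hP hj b x).aestronglyMeasurable) (fun b t => ?_) hD).trans
    (le_of_eq ?_)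
  · have h1 := kls_lim6 hP hj b x (re_lI6 t)
    have e1 : ((l : ℂ) + I * (t : ℂ)).im = t := by simp
    rw [e1] at h1
    rw [sg1_eq]
    exact h1
  · unfold CRX6
    ring

/-- the integrand of one object is integrable -/
theorem int_obj6 (h : G5 w w') {P : Par6} (hP : GoodP6 P) (hj : P.j2 ≤ 19 / 20) (b : Bool) (x : Xo) :
    Integrable fun t : ℝ => be w w' b t * (I * kls6 b (parts6 P x) (l + I * t)) := by
  have hg := h.geo
  refine (be_int hg b).mul_bdd (c := CO6 + 4)
    (cont_klsX6 hP hj b x).aestronglyMeasurable (Eventually.of_forall fun t => ?_)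
  rw [norm_mul, norm_I, one_mul]
  exact kls_le6 hP hj b x (re_lI6 t)

/-- **the response of a configuration** -/
theorem resp_cfg6 (h : G5 w w') {P : Par6} {O : Fin r → Xo} (hP : GoodP6 P)
    (hj : P.j2 ≤ 19 / 20) {C' : ℝ}
    {D : Fin r → ℂ} (hD : ∀ i, ‖D i - sg1 (ht (O i)) * limB6 w w' (O i)‖ ≤
      C' * (1 + MM w w') * min 1 (Real.exp (2 * (MM w w' - |ht (O i)|)))) :
    ‖(∑ b, ∫ t : ℝ, be w w' b t * (I * kP6 P O b (l + I * t))) + ∑ i, D i‖ ≤
      (CRX6 * (1 + MM w w') + C') * (1 + MM w w') *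
        ∑ i, min 1 (Real.exp (2 * (MM w w' - |ht (O i)|))) := by
  have e1 : ∀ b, ∫ t : ℝ, be w w' b t * (I * kP6 P O b (l + I * t)) =
      ∑ i, ∫ t : ℝ, be w w' b t * (I * kls6 b (parts6 P (O i)) (l + I * t)) := by
    intro b
    rw [← integral_finsetSum _ fun i _ => int_obj6 h hP hj b (O i)]
    refine integral_congr_ae (Eventually.of_forall fun t => ?_)
    simp only [kP6, kO6, cons6]
    rw [← Finset.mul_sum, ← Finset.mul_sum]
  simp only [e1]
  rw [Finset.sum_comm, ← Finset.sum_add_distrib, Finset.mul_sum]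
  refine (norm_sum_le _ _).trans (Finset.sum_le_sum fun i _ => ?_)
  exact resp_obj6 h hP hj (hD i)

/-- the same with the statistic `stO6` -/
theorem resp_stO6 (h : G5 w w') {P : Par6} {O : Fin r → Xo} (hP : GoodP6 P)
    (hj : P.j2 ≤ 19 / 20) {C' : ℝ}
    {D : Bool → Option O3 → ℂ → ℂ}
    (hD : ∀ i, ‖obT6 D P (O i) - sg1 (ht (O i)) * limB6 w w' (O i)‖ ≤
      C' * (1 + MM w w') * min 1 (Real.exp (2 * (MM w w' - |ht (O i)|)))) :
    ‖(∑ b, ∫ t : ℝ, be w w' b t * (I * kP6 P O b (l + I * t))) + stO6 D P O‖ ≤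
      (CRX6 * (1 + MM w w') + C') * (1 + MM w w') *
        ∑ i, min 1 (Real.exp (2 * (MM w w' - |ht (O i)|))) :=
  resp_cfg6 h hP hj hD

end PBTs.PLX

end
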