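import Pool.Agent.PHK.TRsD
import Pool.Agent.PHK.TRsX6
import Pool.Agent.PLX.PB.TRsXD

/-!
# (P), (TR): the object term of the Ward identity on the path, for the literal logarithms `DT`

* **`resp_DT6`**: one absolute constant `C`,
  `‖∑ b, ∫ be b t * (I LPo6 b (l + I t)) + stO6 (DT w w') P O‖ ≤ C (1 + M)² ∑ i, min 1 (e^{2 (M - |ht (O i)|)})`;
  `sum_min_pin` is the landed one.
-/

set_option autoImplicit false
set_option linter.unusedSectionVars false

noncomputable section

open Complex MeasureTheory Set Filter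

namespace PBTs.PLX

open NUO NUP1 NUP1S NUP1S.Ab PBOR PBOR.PLX PBT3 PBF PBF.PLX PHK

/-- **the objects on the path, literally**: response of the objects plus the statistic of the
logarithms of the ratio -/
theorem resp_DT6 : ∃ C : ℝ, 0 ≤ C ∧ ∀ (w w' : ℂ), G5 w w' → ∀ (r : ℕ) (O : Fin r → Xo),
    ‖(∑ b, ∫ t : ℝ, be w w' b t * (I * LPo6 par6 r O b (l + I * t))) + stO6 (DT w w') par6 O‖ ≤
      C * (1 + MM w w') ^ 2 * ∑ i, min 1 (Real.exp (2 * (MM w w' - |ht (O i)|))) := by
  obtain ⟨C', hC', h⟩ := obT_lim6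
  have hj : par6.j2 ≤ 19 / 20 := by norm_num [par6]
  have hCR : 0 ≤ CRX6 := by
    have h1 := CB_nonneg
    have h2 := CO6_pos
    unfold CRX6
    positivity
  refine ⟨CRX6 + C', by positivity, fun w w' hG r O => ?_⟩
  have hM := MM_nonneg w w'
  have e : ∀ (b : Bool) (t : ℝ), LPo6 par6 r O b (l + I * t) = kP6 par6 O b (l + I * t) :=
    fun b t => LPoK_eq6 par6_dsG O b (strip_lI_real par6_dsG t)
  simp only [e]
  have h1 := resp_stO6 hG par6_good hj (O := O) (C' := C') (D := DT w w') fun i => by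
    rw [limB_eq6 hG]
    exact h w w' (MM w w') hG.h hG.h' (le_max_left _ _) (le_max_right _ _) par6 (O i) par6_good
  refine h1.trans ?_
  have hs : 0 ≤ ∑ i, min 1 (Real.exp (2 * (MM w w' - |ht (O i)|))) :=
    Finset.sum_nonneg fun i _ => le_min zero_le_one (Real.exp_pos _).le
  refine mul_le_mul_of_nonneg_right ?_ hs
  nlinarith [mul_nonneg hC' hM, mul_nonneg (mul_nonneg hC' hM) hM, mul_nonneg hCR hM]

end PBTs.PLX
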