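import Pool.Agent.PHK.TRsV6
import Pool.Agent.PHK.TRsG0
import Pool.Agent.PHK.TRsXD6
import Pool.Agent.PLX.PB.TRsG

/-!
# (P), (TR), s-path: the error of the mean statement, pointwise (G1), (G2)

The file `PLX/PB/TRsG` for the six kinds, parameters `par6`, forces `kov6`, statistic `stO6`.

* `Fv6`: the force `lg + s (i D1) + ko`; `Fv_fac6`: analytic, `≤ C (r + 1)` on `|Im z| < ep / 8`;
* **`G2_6`**: `E + X F` in the class `BC`;
* **`G1_6`**: `stO6 + ∑ b ∫ ρ X F - s q - p` is at most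
  `C (1 + M)² e^{2 M} ∑ i, e^{-2 |ht (O i)|} + C Sz (1 + log k) (r + 1)`; **`G12_6`**.
-/

set_option autoImplicit false
set_option linter.unusedSectionVars false

noncomputable section

open Complex MeasureTheory Set Filter
open PLX (Fil)

namespace PBTV.PLX.GG

open NUO NUP1 NUP1S NUP1S.Ab NUGC NUGC.PLX PBU PBU.PLX PBTs PBTs.PLX PHK
open PBF.PLX (fMH)

variable {r : ℕ}

/-- the strip `|Re z - l| ≤ l / 250` is at distance from the zeros and poles of the objects -/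
theorem dsC_par6 : DsC par6 (1 / 250) (3 / 500) := by
  refine dsC_of par6_good (by norm_num) (by norm_num) ?_ ?_ ?_
  · have := par6_good.L2
    clear * - this
    linarith
  · have := par6_good.j1
    clear * - this
    linarith
  · norm_num [par6]

/-- the log derivative of the objects is analytic in the open strip -/
theorem diff_LPo6 {P : Par6} {h c : ℝ} (hd : DsC P h c) (O : Fin r → Xo) (s : Bool) {z : ℂ}
    (hz : z.re ∈ Set.Ioo ((1 - h) * NUP1.l) ((1 + h) * NUP1.l)) :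
    DifferentiableAt ℂ (LPo6 P r O s) z := by
  obtain ⟨U, hU⟩ : ∃ U : Set ℂ, U = {z : ℂ | z.re ∈ Set.Ioo ((1 - h) * NUP1.l) ((1 + h) * NUP1.l)} :=
    ⟨_, rfl⟩
  have hzU : z ∈ U := by rw [hU]; exact hz
  have hin : ∀ y ∈ U, y.re ∈ Set.Icc ((1 - h) * NUP1.l) ((1 + h) * NUP1.l) := fun y hy => by
    rw [hU] at hy
    exact Set.Ioo_subset_Icc_self hy
  have ho : IsOpen U := by
    rw [hU]
    exact isOpen_Ioo.preimage Complex.continuous_re
  have hdf : DifferentiableOn ℂ (potO6 P O s) U := fun y hy =>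
    (hasDerivAt_potO6 hd O s (hin y hy)).differentiableAt.differentiableWithinAt
  have h1 : DifferentiableAt ℂ (deriv (potO6 P O s)) z :=
    (hdf.deriv ho z hzU).differentiableAt (ho.mem_nhds hzU)
  have h2 : DifferentiableAt ℂ (potO6 P O s) z :=
    (hdf z hzU).differentiableAt (ho.mem_nhds hzU)
  refine (h1.div h2 (potO6_ne_ds hd O s (hin z hzU))).congr_of_eventuallyEq ?_
  filter_upwards [ho.mem_nhds hzU] with y hy
  show LPo6 P r O s y = deriv (potO6 P O s) y / potO6 P O s y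
  rw [(hasDerivAt_potO6 hd O s (hin y hy)).deriv,
    mul_div_cancel_right₀ _ (potO6_ne_ds hd O s (hin y hy))]

/-- the place of a quantum in the open strip -/
theorem u_strip' {h : ℝ} {z : ℂ} (hz : |z.im| < h * NUP1.l) :
    ((NUP1.l : ℂ) + I * z).re ∈ Set.Ioo ((1 - h) * NUP1.l) ((1 + h) * NUP1.l) := by
  obtain ⟨h1, h2⟩ := abs_lt.1 hz
  have e : ((NUP1.l : ℂ) + I * z).re = NUP1.l - z.im := by simp [sub_eq_add_neg]
  rw [e]
  constructor <;> (clear * - h2 h1; linarith)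

theorem ep_l6 {ep : ℝ} (h1 : ep ≤ 1 / 100) : ep / 8 < 1 / 250 * NUP1.l := by
  have := Real.pi_gt_d2
  unfold NUP1.l
  clear * - h1 this
  linarith

/-- constant of the force of the objects -/
def CV6 : ℝ := 4 * cLP6 (3 / 500)

theorem CV6_nonneg : 0 ≤ CV6 := by
  have := cLP6_nonneg dsC_par6
  unfold CV6
  positivity

/-- the force of the objects -/
theorem kov_fac6 (k : ℕ) (O : Fin r → Xo) (b : Bool) {z : ℂ} (hz : |z.im| < 1 / 250 * NUP1.l) :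
    DifferentiableAt ℂ (kov6 k r O b) z ∧ ‖kov6 k r O b z‖ ≤ r * CV6 := by
  have h1 := u_strip' hz
  constructor
  · have h3 : DifferentiableAt ℂ (fun w : ℂ => (NUP1.l : ℂ) + I * w) z := by fun_prop
    have h4 := (diff_LPo6 dsC_par6 O b h1).comp z h3
    exact h4.const_mul I
  · have h5 := LPo6_le dsC_par6 O b (Set.Ioo_subset_Icc_self h1)
    unfold kov6 LPv6
    rw [norm_mul, norm_I, one_mul]
    refine h5.trans (le_of_eq ?_)
    unfold CV6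
    ring

variable [Fil] [NUSea.Sea]

/-- the force -/
def Fv6 (ep : ℝ) (k : ℕ) (τ : ℝ × ℝ) (s : ℝ) (r : ℕ) (O : Fin r → Xo) (b : Bool) (z : ℂ) : ℂ :=
  lgv ep k τ b z + s * (I * D1v τ b (NUP1.l + I * z)) + kov6 k r O b z

theorem fMH_Fv6 (ep : ℝ) (k : ℕ) (τ : ℝ × ℝ) (s : ℝ) (r : ℕ) (O : Fin r → Xo) (b : Bool) (z : ℂ) :
    fMH s (Xv k τ) (D1v τ) (lgv ep k τ) (kov6 k) r O b z =
      Xv k τ b z * Fv6 ep k τ s r O b z := rfl

theorem Fv_eq6 (ep : ℝ) (k : ℕ) (τ : ℝ × ℝ) (s : ℝ) (r : ℕ) (O : Fin r → Xo) (b : Bool) (z : ℂ) :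
    Fv6 ep k τ s r O b z = PBEI.h00 (z - PBQ1.hr (PBT3.zt τ)) +
      PBLZ.PLX.cutI (4 / 3 * (1 - ep)) (LX (Fil.n b * (k - 1))) z +
      s * (I * D1v τ b (NUP1.l + I * z)) + kov6 k r O b z := by
  unfold Fv6
  rw [lgv_eq]

/-- **the force**: analytic and bounded -/
theorem Fv_fac6 {ep : ℝ} (h0 : 0 < ep) (h1 : ep ≤ 1 / 100) : ∃ C : ℝ, 1 ≤ C ∧
    ∀ (k : ℕ) (τ : ℝ × ℝ) (s : ℝ), s ∈ Icc (0 : ℝ) 1 → ∀ (r : ℕ) (O : Fin r → Xo) (b : Bool) (z : ℂ),
    |z.im| < ep / 8 → DifferentiableAt ℂ (Fv6 ep k τ s r O b) z ∧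
      ‖Fv6 ep k τ s r O b z‖ ≤ C * (r + 1) := by
  have hl := Bd.l_pos
  have hep := ep_l6 h1
  obtain ⟨C, hC, H⟩ := parts_fac h0 h1
  have hCO := CV6_nonneg
  refine ⟨3 * C + CV6, by (clear * - h0 h1 hC hCO; linarith), fun k τ s hs r O b z hz => ?_⟩
  have hz' : |z.im| < 1 / 250 * NUP1.l := hz.trans hep
  obtain ⟨⟨d1, b1⟩, ⟨d2, b2⟩, -, d3, b3⟩ := H k τ b z hz
  obtain ⟨d4, b4⟩ := kov_fac6 k O b hz'
  constructor
  · have e : Fv6 ep k τ s r O b = fun z => PBEI.h00 (z - PBQ1.hr (PBT3.zt τ)) +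
        PBLZ.PLX.cutI (4 / 3 * (1 - ep)) (LX (Fil.n b * (k - 1))) z +
        s * (I * D1v τ b (NUP1.l + I * z)) + kov6 k r O b z := funext fun z => Fv_eq6 ..
    rw [e]
    exact ((d1.add d2).add (d3.const_mul (s : ℂ))).add d4
  · have hs' : ‖(s : ℂ) * (I * D1v τ b (NUP1.l + I * z))‖ ≤ C := by
      rw [norm_mul, norm_real, Real.norm_of_nonneg hs.1]
      calc s * ‖I * D1v τ b (NUP1.l + I * z)‖ ≤ 1 * C :=
            mul_le_mul hs.2 b3 (norm_nonneg _) zero_le_one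
        _ = C := one_mul _
    have hr : (0 : ℝ) ≤ r := Nat.cast_nonneg r
    unfold Fv6
    rw [lgv_eq]
    have n1 := norm_add_le (PBEI.h00 (z - PBQ1.hr (PBT3.zt τ)) +
      PBLZ.PLX.cutI (4 / 3 * (1 - ep)) (LX (Fil.n b * (k - 1))) z + s * (I * D1v τ b (NUP1.l + I * z)))
      (kov6 k r O b z)
    have n2 := norm_add_le (PBEI.h00 (z - PBQ1.hr (PBT3.zt τ)) +
      PBLZ.PLX.cutI (4 / 3 * (1 - ep)) (LX (Fil.n b * (k - 1))) z) (s * (I * D1v τ b (NUP1.l + I * z)))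
    have n3 := norm_add_le (PBEI.h00 (z - PBQ1.hr (PBT3.zt τ)))
      (PBLZ.PLX.cutI (4 / 3 * (1 - ep)) (LX (Fil.n b * (k - 1))) z)
    clear * - hCO b1 b2 b4 hs' n1 n2 n3 hC
    nlinarith

/-- **(G2)**: the test function of the error -/
theorem G2_6 {ep : ℝ} (h0 : 0 < ep) (h1 : ep ≤ 1 / 100) : ∃ C : ℝ, 1 ≤ C ∧ ∃ k0 : ℕ,
    ∀ k : ℕ, k0 ≤ k → ∀ (τ : ℝ × ℝ) (s : ℝ), s ∈ Icc (0 : ℝ) 1 → ∀ (r : ℕ) (O : Fin r → Xo)
    (b : Bool), BC (-(ep / 8)) (ep / 8) (C * Szv k τ * (1 + Real.log k) * (r + 1))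
      (fun z => Ev k τ b z + fMH s (Xv k τ) (D1v τ) (lgv ep k τ) (kov6 k) r O b z) := by
  have hl := Bd.l_pos
  have hep := ep_l6 h1
  obtain ⟨C1, hC1, k1, H1⟩ := E_bd
  obtain ⟨C2, hC2, H2⟩ := Fv_fac6 h0 h1
  obtain ⟨C3, hC3, H3⟩ := Xv_fac
  refine ⟨C1 + C2 * C3, by (clear * - h1 hC1 hC2 hC3 h0; nlinarith), max k1 2, fun k hk τ s hs r O b => ?_⟩
  have hk1 : k1 ≤ k := (le_max_left _ _).trans hk
  have hk2 : 2 ≤ k := (le_max_right _ _).trans hk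
  have hlog : 0 ≤ Real.log k := Real.log_nonneg (by exact_mod_cast (by omega : 1 ≤ k))
  have hS := Szv_nonneg k τ
  have hr : (0 : ℝ) ≤ r := Nat.cast_nonneg r
  obtain ⟨e1, e2⟩ := H1 k hk1 (wa τ) (wb τ) (g5v τ) b
  rw [MM_v] at e2
  have hin : ∀ z ∈ PBE.Sp (-(ep / 8)) (ep / 8), |z.im| < ep / 8 := fun z hz => abs_lt.2 hz
  refine ⟨fun z hz => ?_, fun z hz => ?_⟩
  · have hz1 := hin z hz
    have d1 : DifferentiableAt ℂ (Ev k τ b) z := by
      rw [Ev_eq]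
      exact e1 z (by
        show |z.im| < NUP1.l / 10
        clear * - h0 hep hz1
        linarith)
    have d2 := (H3 k hk2 τ b z (by (clear * - h0 hep hz1; linarith))).1
    have d3 := (H2 k τ s hs r O b z hz1).1
    exact (d1.add (d2.mul d3)).differentiableWithinAt
  · have hz1 := hin z hz
    have b1 : ‖Ev k τ b z‖ ≤ C1 * Szv k τ * (1 + Real.log k) := by
      rw [Ev_eq]
      exact e2 z (by
        show |z.im| < NUP1.l / 10
        clear * - h0 hep hz1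
        linarith)
    have b2 := (H3 k hk2 τ b z (by (clear * - h0 hep hz1; linarith))).2
    have b3 := (H2 k τ s hs r O b z hz1).2
    have b4 : ‖Xv k τ b z‖ ≤ C3 * Szv k τ :=
      b2.trans (mul_le_of_le_one_right (by positivity) (mn_le_one _ _))
    rw [fMH_Fv6]
    refine (norm_add_le _ _).trans ?_
    rw [norm_mul]
    have b5 : ‖Xv k τ b z‖ * ‖Fv6 ep k τ s r O b z‖ ≤ C3 * Szv k τ * (C2 * (r + 1)) :=
      mul_le_mul b4 b3 (norm_nonneg _) (by positivity)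
    have p1 : C1 * Szv k τ * (1 + Real.log k) ≤ C1 * Szv k τ * (1 + Real.log k) * (r + 1) :=
      le_mul_of_one_le_right (by positivity) (by (clear * -; linarith))
    have p2 : C3 * Szv k τ * (C2 * (r + 1)) ≤ C2 * C3 * Szv k τ * (1 + Real.log k) * (r + 1) := by
      have p3 : 0 ≤ C2 * C3 * Szv k τ * (r + 1) := by positivity
      clear * - p3 hlog
      nlinarith [mul_nonneg p3 hlog]
    calc _ ≤ C1 * Szv k τ * (1 + Real.log k) * (r + 1) +
          C2 * C3 * Szv k τ * (1 + Real.log k) * (r + 1) := by linarith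
      _ = _ := by ring

/-- **(G1)**: the constant of the error -/
theorem G1_6 {ep : ℝ} (h0 : 0 < ep) (h1 : ep ≤ 1 / 100) : ∃ C : ℝ, 1 ≤ C ∧ ∃ k0 : ℕ,
    ∀ k : ℕ, k0 ≤ k → ∀ (τ : ℝ × ℝ) (s : ℝ), s ∈ Icc (0 : ℝ) 1 → ∀ (r : ℕ) (O : Fin r → Xo),
    ‖stO6 (Dv τ) par6 O +
        ∑ b, (∫ t : ℝ, Fil.b b * rv k t * fMH s (Xv k τ) (D1v τ) (lgv ep k τ) (kov6 k) r O b t) -
        s * PBT3.qI (wa τ) (wb τ) - PBT3.pI (wa τ) (wb τ)‖ ≤
      C * (1 + Mv τ) ^ 2 * Real.exp (2 * Mv τ) * ∑ i, Real.exp (-(2 * |ht (O i)|)) +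
        C * Szv k τ * (1 + Real.log k) * (r + 1) := by
  have hl := Bd.l_pos
  have hep := ep_l6 h1
  have hep0 : 0 < ep / 8 := by positivity
  obtain ⟨C1, hC1, H1⟩ := resp_DT6
  obtain ⟨C2, hC2, H2⟩ := Fv_fac6 h0 h1
  obtain ⟨C3, hC3, H3⟩ := X0_fac
  obtain ⟨C4, hC4, H4⟩ := cut_mass h0 h1
  obtain ⟨C5, hC5, H5⟩ := parts_fac h0 h1
  obtain ⟨C6, hC6, H6⟩ := be_st5
  have hCO := CV6_nonneg
  refine ⟨C1 + 2 * C6 * C4 + 60 * C3 * C2, by
    have : 0 ≤ 2 * C6 * C4 := by positivity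
    clear * - h1 hC1 hC2 hC3 this h0
    nlinarith, 2, fun k hk τ s hs r O => ?_⟩
  have hk0 : (0 : ℝ) < k := by
    have : 0 < k := by omega
    exact_mod_cast this
  have hlog : 0 ≤ Real.log k := Real.log_nonneg (by exact_mod_cast (by omega : 1 ≤ k))
  have hS := Szv_nonneg k τ
  have hM0 : 0 ≤ Mv τ := (abs_nonneg _).trans (le_max_left _ _)
  have hr : (0 : ℝ) ≤ r := Nat.cast_nonneg r
  have hG := g5v τ
  have hg := hG.geo
  have hn : 0 ≤ nk k := Nat.cast_nonneg _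
  have hq : 0 < qk k := by
    unfold qk
    positivity
  have hq1 : qk k ≤ 1 := by
    unfold qk
    refine inv_le_one_of_one_le₀ (one_le_pow₀ ?_)
    exact_mod_cast (by omega : 1 ≤ k)
  -- the functions on the line
  have re0 : ∀ t : ℝ, |((t : ℂ)).im| < ep / 8 := fun t => by
    rw [ofReal_im, abs_zero]
    exact hep0
  have re1 : ∀ t : ℝ, |((t : ℂ)).im| < 1 / 250 * NUP1.l := fun t => (re0 t).trans hep
  have re2 : ∀ t : ℝ, |((t : ℂ)).im| < NUP1.l / 5 := fun t => (re1 t).trans (by (clear * - h0 hep; linarith))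
  have ib : ∀ b, Integrable fun t : ℝ => PBT3.be (wa τ) (wb τ) b t := fun b => PBT3.be_int hg b
  have jb : ∀ (b : Bool) (a : ℂ → ℂ) (K : ℝ), (∀ z : ℂ, |z.im| < ep / 8 → DifferentiableAt ℂ a z) →
      (∀ t : ℝ, ‖a t‖ ≤ K) → Integrable fun t : ℝ => PBT3.be (wa τ) (wb τ) b t * a t := by
    intro b a K ha hK
    exact (ib b).mul_bdd (c := K) (cont_line hep0 ha).aestronglyMeasurable
      (Eventually.of_forall hK)
  -- the field on the line
  obtain ⟨L, hL⟩ : ∃ L, L = 33 / 8 * Real.log k := ⟨_, rfl⟩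
  have hL0 : 0 ≤ L := by rw [hL]; positivity
  have hmn : Integrable (fun t : ℝ => mn L t) ∧ ∫ t : ℝ, mn L t ≤ 2 * Real.exp 1 * (1 + L) := by
    have h1 := int_mn hL0 0
    have e : (fun u : ℝ => mn L (0 - u)) = fun u : ℝ => mn L u := by
      funext u
      unfold mn
      rw [zero_sub, abs_neg]
    rwa [e] at h1
  have hXb : ∀ b (t : ℝ), ‖X0 k τ b t‖ ≤ C3 * Szv k τ * mn L t := by
    intro b t
    have h := (H3 k hk τ b t (re2 t)).2
    rw [ofReal_re, ← hL] at h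
    exact h
  have hXc : ∀ b, Continuous fun t : ℝ => X0 k τ b t := fun b =>
    cont_line (c := NUP1.l / 5) (by positivity) fun z hz => (H3 k hk τ b z hz).1
  have hXi : ∀ b, Integrable fun t : ℝ => X0 k τ b t := fun b =>
    (hmn.1.const_mul (C3 * Szv k τ)).mono' (hXc b).aestronglyMeasurable
      (Eventually.of_forall (hXb b))
  have hFc : ∀ b, Continuous fun t : ℝ => Fv6 ep k τ s r O b t := fun b =>
    cont_line hep0 fun z hz => (H2 k τ s hs r O b z hz).1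
  have hFb : ∀ b (t : ℝ), ‖Fv6 ep k τ s r O b t‖ ≤ C2 * (r + 1) := fun b t =>
    (H2 k τ s hs r O b t (re0 t)).2
  -- the splitting
  have split : ∀ b, ∫ t : ℝ, Fil.b b * rv k t * fMH s (Xv k τ) (D1v τ) (lgv ep k τ) (kov6 k) r O b t =
      (∫ t : ℝ, PBT3.be (wa τ) (wb τ) b t * PBEI.h00 (t - PBQ1.hr (PBT3.zt τ))) +
      (∫ t : ℝ, PBT3.be (wa τ) (wb τ) b t * PBLZ.PLX.cutI (4 / 3 * (1 - ep)) (LX (Fil.n b * (k - 1))) t) +
      s * (∫ t : ℝ, PBT3.be (wa τ) (wb τ) b t * deriv (PBT3.Dl (wa τ) (wb τ) b) t) +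
      (∫ t : ℝ, PBT3.be (wa τ) (wb τ) b t *
        kov6 k r O b t) -
      qk k * ∫ t : ℝ, X0 k τ b t * Fv6 ep k τ s r O b t := by
    intro b
    have i1 := jb b (fun z => PBEI.h00 (z - PBQ1.hr (PBT3.zt τ))) C5
      (fun z hz => (H5 k τ b z hz).1.1) fun t => (H5 k τ b t (re0 t)).1.2
    have i2 := jb b (PBLZ.PLX.cutI (4 / 3 * (1 - ep)) (LX (Fil.n b * (k - 1)))) C5
      (fun z hz => (H5 k τ b z hz).2.1.1) fun t => (H5 k τ b t (re0 t)).2.1.2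
    have i3 := jb b (fun z => I * D1v τ b (NUP1.l + I * z)) C5
      (fun z hz => (H5 k τ b z hz).2.2.2.1) fun t => (H5 k τ b t (re0 t)).2.2.2.2
    have i4 := jb b (kov6 k r O b) (r * CV6)
      (fun z hz => (kov_fac6 k O b (hz.trans hep)).1) fun t => (kov_fac6 k O b (re1 t)).2
    have i5 : Integrable fun t : ℝ => X0 k τ b t * Fv6 ep k τ s r O b t :=
      (hXi b).mul_bdd (hFc b).aestronglyMeasurable (Eventually.of_forall (hFb b))
    have e1 : ∀ t : ℝ, Fil.b b * rv k t * fMH s (Xv k τ) (D1v τ) (lgv ep k τ) (kov6 k) r O b t =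
        (PBT3.be (wa τ) (wb τ) b t * PBEI.h00 (t - PBQ1.hr (PBT3.zt τ)) +
        PBT3.be (wa τ) (wb τ) b t * PBLZ.PLX.cutI (4 / 3 * (1 - ep)) (LX (Fil.n b * (k - 1))) t +
        s * (PBT3.be (wa τ) (wb τ) b t * (I * D1v τ b (NUP1.l + I * t))) +
        PBT3.be (wa τ) (wb τ) b t * kov6 k r O b t) -
        qk k * (X0 k τ b t * Fv6 ep k τ s r O b t) := by
      intro t
      have h1 := mulF_T (b1 := NUP1.l / 5) (by positivity) (by
        show NUP1.l / 5 < NUP1.l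
        linarith) hn hq (PBT3.be (wa τ) (wb τ)) b (re2 t)
      have h2 : Fil.b b * rv k t * Xv k τ b t =
          PBT3.be (wa τ) (wb τ) b t - qk k * X0 k τ b t := by
        have hb := Fil.b_ne_c b
        unfold PB.mulF at h1
        unfold rv Xv X0
        rw [← h1]
        field_simp
      rw [fMH_Fv6, ← mul_assoc, h2, sub_mul]
      have h3 : Fv6 ep k τ s r O b t = PBEI.h00 (t - PBQ1.hr (PBT3.zt τ)) +
        PBLZ.PLX.cutI (4 / 3 * (1 - ep)) (LX (Fil.n b * (k - 1))) t +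
        s * (I * D1v τ b (NUP1.l + I * t)) + kov6 k r O b t := Fv_eq6 ..
      rw [mul_assoc (qk k : ℂ)]
      congr 1
      rw [h3]
      ring
    simp only [e1]
    have j1 := i1.add i2
    have j2 := j1.add (i3.const_mul (s : ℂ))
    have j3 := j2.add i4
    have s1 := integral_sub j3 (i5.const_mul (qk k : ℂ))
    have s2 := integral_add j2 i4
    have s3 := integral_add j1 (i3.const_mul (s : ℂ))
    have s4 := integral_add i1 i2
    simp only [Pi.add_apply] at s1 s2 s3 s4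
    rw [s1, s2, s3, s4, integral_const_mul, integral_const_mul]
    have e3 : ∫ t : ℝ, PBT3.be (wa τ) (wb τ) b t * (I * D1v τ b (NUP1.l + I * t)) =
        ∫ t : ℝ, PBT3.be (wa τ) (wb τ) b t * deriv (PBT3.Dl (wa τ) (wb τ) b) t := by
      refine integral_congr_ae (Eventually.of_forall fun t => ?_)
      simp only
      rw [(H5 k τ b t (re0 t)).2.2.1]
    rw [e3]
  -- legs
  have eP : PBT3.pI (wa τ) (wb τ) =
      ∑ b, ∫ t : ℝ, PBT3.be (wa τ) (wb τ) b t * PBEI.h00 (t - PBQ1.hr (PBT3.zt τ)) := by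
    rw [PBT3.pI_leg hG]
    refine Finset.sum_congr rfl fun b _ => ?_
    refine integral_congr_ae (Eventually.of_forall fun t => ?_)
    simp only [PBEI.h00, PBQ1.hr, zz_v, sub_neg_eq_add]
  have eQ := PBT3.qI_Dl hG
  -- the cutoff
  have hcut : ∀ b, ‖∫ t : ℝ, PBT3.be (wa τ) (wb τ) b t *
      PBLZ.PLX.cutI (4 / 3 * (1 - ep)) (LX (Fil.n b * (k - 1))) t‖ ≤ C6 * C4 * Szv k τ := by
    intro b
    obtain ⟨c1, c2⟩ := H4 (Fil.n b * (k - 1))
    have hb : ∀ t : ℝ, ‖PBT3.be (wa τ) (wb τ) b t *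
        PBLZ.PLX.cutI (4 / 3 * (1 - ep)) (LX (Fil.n b * (k - 1))) t‖ ≤ C6 * Real.exp (8 / 3 * Mv τ) *
        (Real.exp (-(8 / 3 * |t|)) * ‖PBLZ.PLX.cutI (4 / 3 * (1 - ep)) (LX (Fil.n b * (k - 1))) t‖) := by
      intro t
      have h := (H6 (wa τ) (wb τ) hG b t (re2 t)).2
      rw [ofReal_re, MM_v] at h
      rw [norm_mul, ← mul_assoc]
      exact mul_le_mul_of_nonneg_right h (norm_nonneg _)
    refine (norm_integral_le_of_norm_le (c1.const_mul _) (Eventually.of_forall hb)).trans ?_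
    rw [integral_const_mul]
    have hE := Real.exp_pos (8 / 3 * Mv τ)
    have hk' : (k : ℝ) ≤ ((Fil.n b * (k - 1) : ℕ) : ℝ) + 2 := by
      have h5 : k - 1 ≤ Fil.n b * (k - 1) := Nat.le_mul_of_pos_left _ (Fil.n_pos b)
      have : k ≤ Fil.n b * (k - 1) + 2 := by omega
      exact_mod_cast this
    have c3 : C4 / (((Fil.n b * (k - 1) : ℕ) : ℝ) + 2) ≤ C4 / k :=
      div_le_div_of_nonneg_left hC4 hk0 hk'
    calc C6 * Real.exp (8 / 3 * Mv τ) * ∫ t : ℝ, (Real.exp (-(8 / 3 * |t|)) *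
          ‖PBLZ.PLX.cutI (4 / 3 * (1 - ep)) (LX (Fil.n b * (k - 1))) t‖)
        ≤ C6 * Real.exp (8 / 3 * Mv τ) * (C4 / k) :=
          mul_le_mul_of_nonneg_left (c2.trans c3) (by positivity)
      _ = C6 * C4 * Szv k τ := by
          unfold Szv
          ring
  -- the regularisation
  have hreg : ∀ b, ‖∫ t : ℝ, X0 k τ b t * Fv6 ep k τ s r O b t‖ ≤
      30 * C3 * C2 * Szv k τ * (1 + Real.log k) * (r + 1) := by
    intro b
    have hb : ∀ t : ℝ, ‖X0 k τ b t * Fv6 ep k τ s r O b t‖ ≤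
        C3 * Szv k τ * (C2 * (r + 1)) * mn L t := by
      intro t
      rw [norm_mul]
      have h := mul_le_mul (hXb b t) (hFb b t) (norm_nonneg _)
        (mul_nonneg (by positivity) (mn_nonneg L t))
      calc _ ≤ C3 * Szv k τ * mn L t * (C2 * (r + 1)) := h
        _ = _ := by ring
    refine (norm_integral_le_of_norm_le (hmn.1.const_mul _) (Eventually.of_forall hb)).trans ?_
    rw [integral_const_mul]
    have he : Real.exp 1 ≤ 3 := by
      have := Real.exp_one_lt_d9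
      linarith
    have h2 : ∫ t : ℝ, mn L t ≤ 30 * (1 + Real.log k) := by
      refine hmn.2.trans ?_
      rw [hL]
      clear * - h1 hlog he h0
      nlinarith
    have hA : 0 ≤ C3 * Szv k τ * (C2 * (r + 1)) := by (clear * - hC3 hS hC2; positivity)
    calc C3 * Szv k τ * (C2 * (r + 1)) * ∫ t : ℝ, mn L t
        ≤ C3 * Szv k τ * (C2 * (r + 1)) * (30 * (1 + Real.log k)) :=
          mul_le_mul_of_nonneg_left h2 hA
      _ = _ := by ring
  -- the objects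
  have hobj := H1 (wa τ) (wb τ) hG r O
  rw [MM_v] at hobj
  have hpin := sum_min_pin (Mv τ) O
  simp only [split]
  rw [eP, eQ]
  obtain ⟨A1, hA1⟩ : ∃ A : Bool → ℂ, A = fun b => ∫ t : ℝ, PBT3.be (wa τ) (wb τ) b t *
    PBEI.h00 (t - PBQ1.hr (PBT3.zt τ)) := ⟨_, rfl⟩
  obtain ⟨A2, hA2⟩ : ∃ A : Bool → ℂ, A = fun b => ∫ t : ℝ, PBT3.be (wa τ) (wb τ) b t *
    PBLZ.PLX.cutI (4 / 3 * (1 - ep)) (LX (Fil.n b * (k - 1))) t := ⟨_, rfl⟩
  obtain ⟨A3, hA3⟩ : ∃ A : Bool → ℂ, A = fun b => ∫ t : ℝ, PBT3.be (wa τ) (wb τ) b t *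
    deriv (PBT3.Dl (wa τ) (wb τ) b) t := ⟨_, rfl⟩
  obtain ⟨A4, hA4⟩ : ∃ A : Bool → ℂ, A = fun b => ∫ t : ℝ, PBT3.be (wa τ) (wb τ) b t *
    kov6 k r O b t := ⟨_, rfl⟩
  obtain ⟨A5, hA5⟩ : ∃ A : Bool → ℂ, A = fun b => ∫ t : ℝ, X0 k τ b t * Fv6 ep k τ s r O b t :=
    ⟨_, rfl⟩
  have hcut' : ∀ b, ‖A2 b‖ ≤ C6 * C4 * Szv k τ := fun b => by rw [hA2]; exact hcut b
  have hreg' : ∀ b, ‖A5 b‖ ≤ 30 * C3 * C2 * Szv k τ * (1 + Real.log k) * (r + 1) := fun b => by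
    rw [hA5]; exact hreg b
  have hobj' : ‖(∑ b, A4 b) + stO6 (Dv τ) par6 O‖ ≤ C1 * (1 + Mv τ) ^ 2 *
      ∑ i, min 1 (Real.exp (2 * (Mv τ - |ht (O i)|))) := by
    rw [hA4]
    exact hobj
  have e : stO6 (Dv τ) par6 O + ∑ b, (A1 b + A2 b + s * A3 b + A4 b - qk k * A5 b) -
      s * ∑ b, A3 b - ∑ b, A1 b =
      ((∑ b, A4 b) + stO6 (Dv τ) par6 O) + (A2 true + A2 false) -
        qk k * (A5 true + A5 false) := by
    simp only [Fintype.sum_bool]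
    ring
  have e' : stO6 (Dv τ) par6 O + ∑ b, ((∫ t : ℝ, PBT3.be (wa τ) (wb τ) b t *
      PBEI.h00 (t - PBQ1.hr (PBT3.zt τ))) +
      (∫ t : ℝ, PBT3.be (wa τ) (wb τ) b t * PBLZ.PLX.cutI (4 / 3 * (1 - ep)) (LX (Fil.n b * (k - 1))) t) +
      s * (∫ t : ℝ, PBT3.be (wa τ) (wb τ) b t * deriv (PBT3.Dl (wa τ) (wb τ) b) t) +
      (∫ t : ℝ, PBT3.be (wa τ) (wb τ) b t *
        kov6 k r O b t) -
      qk k * ∫ t : ℝ, X0 k τ b t * Fv6 ep k τ s r O b t) -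
      s * (∑ b, ∫ t : ℝ, PBT3.be (wa τ) (wb τ) b t * deriv (PBT3.Dl (wa τ) (wb τ) b) t) -
      (∑ b, ∫ t : ℝ, PBT3.be (wa τ) (wb τ) b t * PBEI.h00 (t - PBQ1.hr (PBT3.zt τ))) =
      stO6 (Dv τ) par6 O + ∑ b, (A1 b + A2 b + s * A3 b + A4 b - qk k * A5 b) -
      s * ∑ b, A3 b - ∑ b, A1 b := by
    rw [hA1, hA2, hA3, hA4, hA5]
  rw [e', e]
  have n1 := norm_sub_le (((∑ b, A4 b) + stO6 (Dv τ) par6 O) + (A2 true + A2 false))
    (qk k * (A5 true + A5 false))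
  have n2 := norm_add_le ((∑ b, A4 b) + stO6 (Dv τ) par6 O) (A2 true + A2 false)
  have n3 := norm_add_le (A2 true) (A2 false)
  have n4 := norm_add_le (A5 true) (A5 false)
  have n5 : ‖(qk k : ℂ) * (A5 true + A5 false)‖ ≤ ‖A5 true + A5 false‖ := by
    rw [norm_mul, norm_real, Real.norm_of_nonneg hq.le]
    exact mul_le_of_le_one_left (norm_nonneg _) hq1
  have m1 := hcut' true
  have m2 := hcut' false
  have m3 := hreg' true
  have m4 := hreg' false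
  obtain ⟨pn, hpn'⟩ : ∃ pn, pn = ∑ i, Real.exp (-(2 * |ht (O i)|)) := ⟨_, rfl⟩
  have hpn0 : 0 ≤ pn := by
    rw [hpn']
    exact Finset.sum_nonneg fun i _ => (Real.exp_pos _).le
  rw [← hpn'] at hpin ⊢
  have hE := Real.exp_pos (2 * Mv τ)
  have m5 : C1 * (1 + Mv τ) ^ 2 * ∑ i, min 1 (Real.exp (2 * (Mv τ - |ht (O i)|))) ≤
      C1 * (1 + Mv τ) ^ 2 * Real.exp (2 * Mv τ) * pn := by
    rw [mul_assoc _ (Real.exp _)]
    exact mul_le_mul_of_nonneg_left hpin (by positivity)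
  have m6 : C6 * C4 * Szv k τ ≤ C6 * C4 * Szv k τ * (1 + Real.log k) * (r + 1) := by
    have p1 : 0 ≤ C6 * C4 * Szv k τ := by positivity
    rw [mul_assoc (C6 * C4 * Szv k τ)]
    refine le_mul_of_one_le_right p1 ?_
    clear * - hlog
    nlinarith
  have m7 : C1 * (1 + Mv τ) ^ 2 * Real.exp (2 * Mv τ) * pn ≤
      (C1 + 2 * C6 * C4 + 60 * C3 * C2) * (1 + Mv τ) ^ 2 * Real.exp (2 * Mv τ) * pn := by
    have p1 : C1 ≤ C1 + 2 * C6 * C4 + 60 * C3 * C2 := by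
      have q1 : 0 ≤ 2 * C6 * C4 := by positivity
      have q2 : 0 ≤ 60 * C3 * C2 := by positivity
      clear * - q1 q2
      linarith
    clear * - p1 hM0 hpn0
    gcongr
  have m8 : 0 ≤ C1 * Szv k τ * (1 + Real.log k) * (r + 1) := by (clear * - hC1 hS; positivity)
  clear * - hobj' n1 n2 n3 n4 n5 m1 m2 m3 m4 m5 m6 m7 m8
  nlinarith

end PBTV.PLX.GG

namespace PBTV.PLX

open _root_.PBTV.PLX.GG
open NUO NUP1 NUP1S NUP1S.Ab NUGC NUGC.PLX PBU PBU.PLX PBTs PBTs.PLX PHK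
open PBF.PLX (fMH)

variable [Fil] [NUSea.Sea]

/-- **(G1) and (G2) together**, the hypothesis of the last layer -/
theorem G12_6 {ep : ℝ} (h0 : 0 < ep) (h1 : ep ≤ 1 / 100) : ∃ C : ℝ, 1 ≤ C ∧ ∃ k0 : ℕ,
    ∀ k : ℕ, k0 ≤ k → ∀ (τ : ℝ × ℝ) (s : ℝ), 0 ≤ s → s ≤ 1 →
    (∀ (r : ℕ) (O : Fin r → Xo), ‖stO6 (Dv τ) par6 O +
        ∑ b, (∫ t : ℝ, Fil.b b * rv k t * fMH s (Xv k τ) (D1v τ) (lgv ep k τ) (kov6 k) r O b t) -
        s * PBT3.qI (wa τ) (wb τ) - PBT3.pI (wa τ) (wb τ)‖ ≤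
      C * (1 + Mv τ) ^ 2 * Real.exp (2 * Mv τ) * ∑ i, Real.exp (-(2 * |ht (O i)|)) +
        C * Szv k τ * (1 + Real.log k) * (r + 1)) ∧
    (∀ (r : ℕ) (O : Fin r → Xo) (b : Bool),
      BC (-(ep / 8)) (ep / 8) (C * Szv k τ * (1 + Real.log k) * (r + 1))
      (fun z => Ev k τ b z + fMH s (Xv k τ) (D1v τ) (lgv ep k τ) (kov6 k) r O b z)) := by
  obtain ⟨C1, hC1, k1, H1⟩ := G1_6 h0 h1
  obtain ⟨C2, hC2, k2, H2⟩ := G2_6 h0 h1
  refine ⟨max C1 C2, hC1.trans (le_max_left _ _), max (max k1 k2) 1,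
    fun k hk τ s hs0 hs1 => ⟨fun r O => ?_, fun r O b => ?_⟩⟩
  · have hk1 : k1 ≤ k := (le_max_left _ _).trans ((le_max_left _ _).trans hk)
    have hk3 : 1 ≤ k := (le_max_right _ _).trans hk
    have hlog : 0 ≤ Real.log k := Real.log_nonneg (by exact_mod_cast hk3)
    have hS := Szv_nonneg k τ
    have hM0 : 0 ≤ Mv τ := (abs_nonneg _).trans (le_max_left _ _)
    have hpn0 : 0 ≤ ∑ i, Real.exp (-(2 * |ht (O i)|)) :=
      Finset.sum_nonneg fun i _ => (Real.exp_pos _).le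
    refine (H1 k hk1 τ s ⟨hs0, hs1⟩ r O).trans ?_
    have hC := le_max_left C1 C2
    clear * - hC hM0 hS
    gcongr
  · have hk2 : k2 ≤ k := (le_max_right _ _).trans ((le_max_left _ _).trans hk)
    have hk3 : 1 ≤ k := (le_max_right _ _).trans hk
    have hlog : 0 ≤ Real.log k := Real.log_nonneg (by exact_mod_cast hk3)
    have hS := Szv_nonneg k τ
    refine (H2 k hk2 τ s ⟨hs0, hs1⟩ r O b).mono ?_
    have hC := le_max_right C1 C2
    clear * - hC hS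
    gcongr

end PBTV.PLX
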