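import Pool.Agent.PHK.TRsN6
import Pool.Agent.PHK.TRsG6

/-!
# The particle-hole form (P), (TR): (H3) between the two ends of the s-path

* **`h3_all6`**: (H3) from the bounds `UX6` of the families of the two ends.
-/

set_option autoImplicit false

noncomputable section

open Complex MeasureTheory Finset Filter
open scoped ENNReal
open PLX (Fil)

namespace PBTV.PLX

open NUO NUP1 NUP1S NUP1S.Ab NUGC NUGC.PLX PBF PBF.PLX PBU PBU.PLX PBTs PBTs.PLX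

attribute [local instance] NUSea.seaP

variable [Fil]

/-- **(H3) between the two ends of the s-path** -/
theorem h3_all6 (hV : UX6 famV6) (hW : UX6 famW6) {c1 : ℝ} (hc1 : c1 < 3 / 4) :
    ∃ a0 : ℝ, 0 < a0 ∧ ∀ ep e1 J : ℝ, 0 < ep → ep ≤ 1 / 100 → 0 < e1 → e1 ≤ 1 / 100 → 0 ≤ J →
      Real.exp (-(2 * Real.pi * J)) + 3 * e1 + 3 * ep ≤ a0 →
      ∀ᶠ k : ℕ in atTop, ∀ τ : ℝ × ℝ, okv k τ →
        ‖PBT3.k1T τ‖ * ‖nFv6 ep e1 J k τ 1 - Complex.exp (PBT3.gF τ) * nFv6 ep e1 J k τ 0‖ ≤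
          (k : ℝ) ^ (-c1) := by
  refine h3_w6 hV hW ⟨1, one_pos, fun ep e1 J hep hep1 he1 he11 hJ _ =>
    ⟨meanP6 hep hep1 he1 he11 hJ, pathP6 hep hep1 he1 he11 hJ⟩⟩ (fun ep h0 h1 => ?_) hc1
  obtain ⟨C, hC, k0, h⟩ := G12_6 h0 h1
  exact ⟨C, hC, k0, fun k hk τ _ s g0 g1 => h k hk τ s g0 g1⟩

end PBTV.PLX

end
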