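import Pool.Agent.PHK.TRFin36
import Pool.Agent.PHK.TRsZ6
import Pool.Agent.PHK.TRsL6
import Pool.Agent.PHK.TRH16
import Pool.Agent.PHK.TRH2V
import Pool.Agent.PHK.RayFin
import Pool.Agent.PHK.BordI

/-!
# The particle-hole form (P), (TR) along a ray, top level

* **`trP_all6`**: the transfer from the class formula `FFth`, the bounds `UX6 famW6` of the right end, the class
  `W W` on the window `MstV6` and the measurability of its integrand `MsV6`;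
* **`tRq6`**: the same in the form `TRq Fil.q` of `PHK/RayFin`.
-/

set_option autoImplicit false

noncomputable section

open Complex MeasureTheory Set Filter Topology
open scoped ENNReal
open PLX (Fil)

namespace PBTRF.PLX

open NUP1 (l)
open PBT3 (gF k1T)
open PBTR (nearS winW)
open PBU.PLX (cr cr' UX6)
open PBTV.PLX (Zv6 nFv6 okv famV6 famW6)
open Pool.Agent.PLX (FunO2 f0Q FFth TRq nrmN WPr)

attribute [local instance] NUSea.seaP

variable [Fil]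

/-- measurability of the class `W W` on the window -/
def MsV6 : Prop := ∀ ep e1 J : ℝ, 0 < ep → ep ≤ 1 / 100 → 0 < e1 → e1 ≤ 1 / 100 → 0 ≤ J →
  ∀ᶠ k : ℕ in atTop, AEStronglyMeasurable (fun y => PBI.PLX.kR k y *
    ∑ n ∈ Finset.range (2 * (k - 1) + 1), FW6 ep k n (cr e1 J k) (cr' e1 J k) y)
    (volume.restrict (winW (3 / 8) k))

/-- **(TR)** along a ray, the normalised two-point function `Yk` -/
theorem trP_Yk (hFF : FFth) (hW : UX6 famW6) (hM : MstV6) (hm : MsV6) {g : ℕ → ℂ} {c : ℝ}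
    (hF : FunO2 c (f0Q Fil.q) g) (hc : 0 < c) :
    ∃ (G : ℕ → ℂ) (c' C : ℝ) (κ : ℂ) (u' : ℕ → ℂ), 0 < c' ∧ (∀ᶠ k : ℕ in atTop, ‖u' k‖ = 1) ∧
      (∀ᶠ j : ℕ in atTop, ‖g j - G (j % 2)‖ ≤ C * (j : ℝ) ^ (-c)) ∧
        ∀ᶠ k : ℕ in atTop, ‖((Yk k : ℝ) : ℂ) - u' k * (κ * G ((k - 1) % 2))‖ ≤ C * (k : ℝ) ^ (-c') := by
  obtain ⟨ep0, hep0, -, h1⟩ := h1_SR06 hM (c0 := 13 / 32) (by norm_num)
  obtain ⟨κ0, hκ, hκ1, h2⟩ := h2_R6 PHK.stabProd_par6 (e := 1 / 180) (by norm_num)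
  obtain ⟨a1, ha1, h3⟩ := PBTV.PLX.h3_all6 (PBTV.PLX.ux_famV6 PHK.stabProd_par6) hW (c1 := 1 / 2) (by norm_num)
  obtain ⟨a2, ha2, h4⟩ := PI_ev6 (PBTV.PLX.ux_famV6 PHK.stabProd_par6)
  obtain ⟨a, ha⟩ : ∃ a, a = min (min ep0 κ0) (min a1 a2) := ⟨_, rfl⟩
  have ha0 : 0 < a := by rw [ha]; exact lt_min (lt_min hep0 hκ) (lt_min ha1 ha2)
  have q1 : a ≤ ep0 := by rw [ha]; exact (min_le_left _ _).trans (min_le_left _ _)
  have q2 : a ≤ κ0 := by rw [ha]; exact (min_le_left _ _).trans (min_le_right _ _)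
  have q3 : a ≤ a1 := by rw [ha]; exact (min_le_right _ _).trans (min_le_left _ _)
  have q4 : a ≤ a2 := by rw [ha]; exact (min_le_right _ _).trans (min_le_right _ _)
  obtain ⟨ep, J, he, he', hJ, hs⟩ := PBU.exists_small ha0
  have hexp := Real.exp_pos (-(2 * Real.pi * J))
  have he1 : ep ≤ 1 / 100 := he'.trans (q2.trans hκ1)
  have h1 := h1 ep he (he'.trans q1) ep he he1 J hJ
  have hm := hm_SR06 (hm ep ep J he he1 he he1 hJ)
  have h2 := h2 ep he (he'.trans q2) ep he (he'.trans q2) J hJ (by linarith)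
  have h3 := h3_of6 (e1 := ep) hFF he he1 he he1 hJ (h4 ep ep J he he hJ (hs.trans q4))
    (h3 ep ep J he he1 he he1 hJ (hs.trans q3))
  refine trP_of (S := SR06 ep ep J) (V := fun k => winW (3 / 8) k) (d := 1 / 20) (c0 := 13 / 32)
    (c1 := 1 / 2) (u := phk) hF hc (Eventually.of_forall norm_phk) (by norm_num) le_rfl
    (by norm_num) (by norm_num) (fun k => PBTR.measurableSet_winW _ _)
    (Eventually.of_forall fun k => PBTR.nearS_sub_win le_rfl k) hm h1 ?_ h3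
  filter_upwards [h2] with k hk τ hτ
  have e : (1 / 20 : ℝ) / 9 = 1 / 180 := by norm_num
  rw [e]
  exact hk τ hτ

/-- **(TR)** along a ray -/
theorem trP_all6 (hFF : FFth) (hW : UX6 famW6) (hM : MstV6) (hm : MsV6) (g : ℕ → ℂ) (c : ℝ) (hc : 0 < c)
    (hF : FunO2 c (f0Q Fil.q) g) :
    ∃ (G : ℕ → ℂ) (c' C : ℝ) (κ : ℂ) (u' : ℕ → ℂ), 0 < c' ∧ (∀ᶠ k : ℕ in atTop, ‖u' k‖ = 1) ∧
      ∀ᶠ k : ℕ in atTop, ‖((nrmN ((k - 1) + Fil.q * (k - 1) + 2) *
        WPr ((k - 1) + Fil.q * (k - 1) + 2) k : ℝ) : ℂ) - u' k * (κ * G ((k - 1) % 2))‖ ≤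
          C * (k : ℝ) ^ (-c') := by
  obtain ⟨G, c', C, κ, u', h1, h2, -, h3⟩ := trP_Yk hFF hW hM hm hF hc
  refine ⟨G, c', C, κ, u', h1, h2, ?_⟩
  filter_upwards [h3] with k hk
  have e : Yk k = nrmN ((k - 1) + Fil.q * (k - 1) + 2) * WPr ((k - 1) + Fil.q * (k - 1) + 2) k := by
    unfold Yk
    rw [Pool.Agent.PLX.WP_WPr (lt_NL k) rfl]
    rfl
  rwa [e] at hk

/-- **(TR)** in the form of `PHK/RayFin` -/
theorem tRq6 (hFF : FFth) (hW : UX6 famW6) (hM : MstV6) (hm : MsV6) : TRq Fil.q :=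
  Pool.Agent.PLX.tRq_of fun g c hc hF => trP_all6 hFF hW hM hm g c hc hF

end PBTRF.PLX

end
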