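import Pool.Agent.PHK.RaysP
import Pool.Agent.PHK.TRFin56
import Pool.Agent.PHK.Mst06
import Pool.Agent.PHK.HZ6
import Pool.Agent.PHK.I1G6
import Pool.Agent.PHK.CutAll6

/-!
# (P): the rays from the words, the classes of the cut rows `0` and the bounds of the right end (helper12)

* `hD_P`, `tR_P`;
* **`rays_W`**: both hypotheses `h0`, `h1` of `Pool.Agent.PLN.pubA_rays` from `WordThB`, `ClsA06` and
  `UX6 famW6`.
-/

set_option autoImplicit false
set_option linter.unusedSectionVars false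
set_option linter.style.haveILetI false

noncomputable section

open Complex MeasureTheory Filter Topology Set

namespace Pool.Agent.PLX

open _root_.PLX (Fil)
open _root_.PHK (par6 enC6 StabE StabProd6 stabProd_par6 WordThB wordTh_of)

attribute [local instance] NUSea.seaP

/-- **the first Ward identity** -/
theorem hD_P [Fil] (hB : WordThB) : _root_.PBLX.PLX.HD6 (1 / 2) :=
  _root_.PBI.PLX.hD_finW hB stabProd_par6 (_root_.PBI.PLX.cutAll6 (_root_.PBI.PLX.clsB6_of hB) stabE_P)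
    (by norm_num) (by norm_num)

/-- **(TR)** along a ray -/
theorem tR_P [Fil] (hB : WordThB) (hA : _root_.PBO.PLX.ClsA06) (hX : _root_.PBU.PLX.UX6 _root_.PBTV.PLX.famW6) :
    TRq Fil.q :=
  _root_.PBTRF.PLX.tRq6 (ffth_of_word (wordTh_of hB)) hX
    (_root_.PBR.PLX.mstV6 stabProd_par6 (ffth_of_word (wordTh_of hB)) hA)
    fun ep e1 J h0 h1 he he' hJ => _root_.PBR.PLX.ms_R6 (ffth_of_word (wordTh_of hB)) _ ep e1 J h0 h1 he he' hJ

/-- **the rays of (P)** -/
theorem rays_W (hB : WordThB) (hA : ∀ F : Fil, @_root_.PBO.PLX.ClsA06 F)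
    (hX : ∀ [Fil], _root_.PBU.PLX.UX6 _root_.PBTV.PLX.famW6) :
    (∀ B : ℕ, ∃ b : ℕ, B ≤ b ∧ Odd b ∧ TRray b (atTop ⊓ 𝓟 {m | Even m})) ∧
      ∀ B : ℕ, ∃ b : ℕ, B ≤ b ∧ Odd b ∧ TRray b (atTop ⊓ 𝓟 {m | ¬Even m}) := by
  refine rays_P (wordTh_of hB) (fun F => @hD_P F hB) (fun F => ?_) (fun q hq => ?_)
  · exact @_root_.PBLX.PLX.hz6 F (ffth_of_word (wordTh_of hB)) stabE_P
  · letI F : Fil := ⟨q, hq⟩
    exact tR_P hB (hA F) hX

end Pool.Agent.PLX

end
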