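import Pool.Agent.PHK.WordTh0

/-!
# The word identities of the classes with zeros

* **`wordThZ`** : `WordThZ`.
-/

set_option autoImplicit false
set_option linter.unusedSectionVars false
set_option linter.unusedVariables false

noncomputable section

open Complex MeasureTheory Finset
open scoped Real ENNReal Nat

namespace PHK

open NUO NUP1 NUP1S NUP1S.Mg NUP1S.Ab NUP1S.AbG NURow NUP1S.HF
open NUP1.Bd (wt Ob qg)

/-- **the word identities of the classes with zeros** -/
theorem wordThZ : WordThZ := by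
  intro Z P κ κ' Q n n' ν _ _ ζ ρ Ei hP hI hκ hκ' hm hD hd hZ hn p p' k k' hc hc'
  have hl : 0 < l := Bd.l_pos
  have e1 := hP.e13
  have e2 := hP.j1e
  have e3 := hP.ej2
  have e4 := hP.j1
  have e5 := hP.e45
  have i1 := hI.j1
  have i2 := hI.j2
  have eQ : (n : ℝ) - n' = Q := by
    have : (n : ℝ) = n' + Q := by exact_mod_cast hn
    linarith
  have hζ : StZ6 P ζ := ⟨hZ.st, hZ.off⟩
  have hA : ∀ s, DecOn (κ + 2 * (Q : ℝ) * sc (s, Ob.A)) {(1 - P.e) * l, l} (Z s none) := by
    intro s
    obtain ⟨D, hd⟩ := hD.A s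
    refine ⟨D, fun u hu => hd u ?_⟩
    rcases hu with hu | hu
    · rw [hu]
      constructor <;> nlinarith
    · rw [Set.mem_singleton_iff.1 hu]
      exact ⟨by linarith, le_rfl⟩
  have hQ : DecQL6 Z P κ κ' ((n : ℝ) - n') := by
    rw [eQ]
    refine decQL6_line (Ei := Ei) hκ hκ' hζ hA hD.L hD.T hD.S (fun s u hu => hZ.eq s u ?_ ?_) hZ.eqh
      fun s => Bdd.mono_set (hZ.bd s) ?_
    · rw [hu]
      nlinarith
    · rw [hu]
      nlinarith
    · intro v hv
      rcases hv with hv | hv | hv
      · rw [hv]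
        constructor <;> nlinarith
      · rw [hv]
        constructor <;> nlinarith
      · rw [Set.mem_singleton_iff.1 hv]
        constructor <;> nlinarith
  exact wordZ_cl hP (ClG.of_zer hP hI (fun s => hm s none) hD.A hd hZ) hκ hκ'
    (fun A A' _ _ K => int_fIZEl hP hm hζ hQ A A' K) hn hc hc'

end PHK

end
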