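import Pool.Agent.PHK.RaysQ
import Pool.Agent.PHK.WordThB
import Pool.Agent.PHK.WordThZ
import Pool.Agent.PHK.ClsA6

/-!
# (P): the rays from the bounds of the right end (helper12)

* `ffth_P`: the class formula, no hypothesis; `kRows_P`: (K), no hypothesis; `fxLe_PP`, `closeE_PP`;
* **`rays_X`**: both hypotheses `h0`, `h1` of `Pool.Agent.PLN.pubA_rays` from `UX6 famW6`.
-/

set_option autoImplicit false
set_option linter.unusedSectionVars false
set_option linter.style.haveILetI false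

noncomputable section

open Complex MeasureTheory Filter Topology Set

namespace Pool.Agent.PLX

open _root_.PLX (Fil)
open _root_.PHK (wordThB wordThZ wordTh_of)

attribute [local instance] NUSea.seaP

/-- **the class formula of (P)** -/
theorem ffth_P [Fil] : FFth := ffth_of_word (wordTh_of wordThB)

/-- **(K)** -/
theorem kRows_P {b : ℕ} (hb : 1 ≤ b) : KRows nL b := kRows_P0 (wordTh_of wordThB) hb

/-- **(U)** -/
theorem fxLe_PP [Fil] {δ : ℝ} (hδ : 0 < δ) : FxLe Fil.q δ := fxLe_P (wordTh_of wordThB) hδ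

/-- **(E')** -/
theorem closeE_PP [Fil] : PBV.E2 (1 / 2) fun j z x => fxQ Fil.q j x z :=
  closeE_P (hD_P wordThB) (_root_.PBLX.PLX.hz6 ffth_P stabE_P)

/-- **output of the function side along every ray** -/
theorem funO2_P {q : ℕ} (hq : 1 ≤ q) : FunO2 (1 / 2) (f0Q q) fun j => bP (f0Q q) j 0 := by
  letI F : Fil := ⟨q, hq⟩
  exact funO2_q hq (kRows_P hq) (fun δ hδ => fxLe_PP hδ) (by norm_num) (by norm_num) closeE_PP

/-- **the rays of (P)** -/
theorem rays_X (hX : ∀ [Fil], _root_.PBU.PLX.UX6 _root_.PBTV.PLX.famW6) :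
    (∀ B : ℕ, ∃ b : ℕ, B ≤ b ∧ Odd b ∧ TRray b (atTop ⊓ 𝓟 {m | Even m})) ∧
      ∀ B : ℕ, ∃ b : ℕ, B ≤ b ∧ Odd b ∧ TRray b (atTop ⊓ 𝓟 {m | ¬Even m}) :=
  rays_W wordThB (fun F => @_root_.PBO.PLX.clsA06 F wordThZ (@ffth_P F)) hX

end Pool.Agent.PLX

end
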