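import Pool.Agent.PHK.ObRep6
import Pool.Agent.PLX.PB.RepN

/-!
# (P): the pair kernel with confluent diagonal on the wide strips

`PLX/PB/RepN` over `PHK/ObKer6`: `norm_pK_le6`, **`norm_aK_bdd6`**, **`qid_aK6`**.
-/

set_option autoImplicit false
set_option linter.unusedSectionVars false
set_option maxHeartbeats 1000000

noncomputable section

open Complex MeasureTheory Finset
open scoped ENNReal Classical

namespace PBRep.PLX

open NUP1 hiding Kd
open NUP1S PB
open PBI (Kd nuQI)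

theorem norm_pK_le6 {X : ℂ → ℂ} {xp xm : ℂ} {M : ℝ} (h : PBOb.FX6 X xp xm M) {b c : Kd} {z z' : ℂ}
    (hz : z ∈ PBOb.Str6 b.2) (hz' : z' ∈ PBOb.Str6 c.2) :
    ‖PBOb.pK X xp xm b c z z'‖ ≤ 8 * (17 * ‖xp - xm‖ + 6 * M) := by
  have hM := h.M_nonneg
  have hJ := norm_nonneg (xp - xm)
  have p1 := h.plt (PBOb.pf_mem6 hz)
  have p2 := h.plt (PBOb.pf_mem6 hz')
  have ex : ∀ t : ℝ, Real.exp (-4 * |t|) ≤ 1 := fun t =>
    Real.exp_le_one_iff.2 (by have := abs_nonneg t; linarith)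
  have bd : ∀ {x s : ℂ} {t : ℝ}, NX.Plt xp xm M 2 x s t → ‖NX.be xp xm x s‖ ≤ M + 2 * ‖xp - xm‖ := by
    intro x s t hp
    refine hp.be_le.trans ?_
    exact mul_le_of_le_one_right (by positivity) (ex t)
  have s1 := p1.s_le
  have s2 := p2.s_le
  have b1 := bd p1
  have b2 := bd p2
  have hq : ‖2 * (PBOb.qb b * PBOb.qb c)‖ ≤ 8 := by
    obtain ⟨-, q2⟩ := PBOb.abs_sc (PBI.co b)
    obtain ⟨-, q4⟩ := PBOb.abs_sc (PBI.co c)
    unfold PBOb.qb
    rw [norm_mul, norm_mul, norm_real, norm_real, Real.norm_eq_abs, Real.norm_eq_abs,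
      Complex.norm_ofNat]
    have := mul_le_mul q2 q4 (abs_nonneg _) (by norm_num)
    linarith
  have hp : ‖NX.plat xp xm (X (PBOb.pf b.2 z)) (X (PBOb.pf c.2 z')) (PBOb.sgU (PBOb.pf b.2 z))
      (PBOb.sgU (PBOb.pf c.2 z'))‖ ≤ 17 * ‖xp - xm‖ + 6 * M := by
    unfold NX.plat
    have e1 : ‖(xp - xm) / 2‖ = ‖xp - xm‖ / 2 := by rw [norm_div, Complex.norm_ofNat]
    have t1 : ‖NX.be xp xm (X (PBOb.pf b.2 z)) (PBOb.sgU (PBOb.pf b.2 z)) *
        PBOb.sgU (PBOb.pf c.2 z')‖ ≤ (M + 2 * ‖xp - xm‖) * 3 := by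
      rw [norm_mul]
      exact mul_le_mul b1 (by linarith) (norm_nonneg _) (by positivity)
    have t2 : ‖NX.be xp xm (X (PBOb.pf c.2 z')) (PBOb.sgU (PBOb.pf c.2 z')) *
        PBOb.sgU (PBOb.pf b.2 z)‖ ≤ (M + 2 * ‖xp - xm‖) * 3 := by
      rw [norm_mul]
      exact mul_le_mul b2 (by linarith) (norm_nonneg _) (by positivity)
    have t3 : ‖(xp - xm) / 2 * (PBOb.sgU (PBOb.pf b.2 z) * PBOb.sgU (PBOb.pf c.2 z'))‖ ≤
        ‖xp - xm‖ / 2 * (3 * 3) := by
      rw [norm_mul, norm_mul, e1]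
      exact mul_le_mul_of_nonneg_left (mul_le_mul (by linarith) (by linarith) (norm_nonneg _)
        (by norm_num)) (by positivity)
    refine (norm_sub_le _ _).trans ?_
    have := (norm_add_le ((xp - xm) / 2 + NX.be xp xm (X (PBOb.pf b.2 z)) (PBOb.sgU (PBOb.pf b.2 z)) *
        PBOb.sgU (PBOb.pf c.2 z')) (NX.be xp xm (X (PBOb.pf c.2 z')) (PBOb.sgU (PBOb.pf c.2 z')) *
        PBOb.sgU (PBOb.pf b.2 z)))
    have := norm_add_le ((xp - xm) / 2) (NX.be xp xm (X (PBOb.pf b.2 z)) (PBOb.sgU (PBOb.pf b.2 z)) *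
        PBOb.sgU (PBOb.pf c.2 z'))
    linarith
  unfold PBOb.pK
  rw [norm_mul]
  exact mul_le_mul hq hp (norm_nonneg _) (by norm_num)

/-- the kernel is bounded -/
theorem norm_aK_bdd6 {X : ℂ → ℂ} {xp xm : ℂ} {M : ℝ} (h : PBOb.FX6 X xp xm M) {b c : Kd} {z z' : ℂ}
    (hz : z ∈ PBOb.Str6 b.2) (hz' : z' ∈ PBOb.Str6 c.2) :
    ‖PBOb.aK X b c z z'‖ ≤ PBOb.cL6 * (‖xp - xm‖ + M) + 8 * (17 * ‖xp - xm‖ + 6 * M) := by
  have hM := h.M_nonneg
  have hcL := PBOb.cL_nonneg6
  have e : PBOb.aK X b c z z' = PBOb.lK X xp xm b c z z' + PBOb.pK X xp xm b c z z' := by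
    unfold PBOb.lK
    ring
  rw [e]
  refine (norm_add_le _ _).trans (add_le_add ?_ (norm_pK_le6 h hz hz'))
  refine (PBOb.norm_lK_le6 h hz hz').trans (mul_le_of_le_one_right (by positivity) ?_)
  refine mul_le_one₀ (Real.exp_le_one_iff.2 ?_) (Real.exp_pos _).le (Real.exp_le_one_iff.2 ?_) <;>
    linarith [abs_nonneg z.im, abs_nonneg z'.im]

attribute [local irreducible] PBOb.aK

theorem qid_aK6 {X : ℂ → ℂ} (mX : Measurable X) {xp xm : ℂ} {M : ℝ} (hX : PBOb.FX6 X xp xm M)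
    {D : Kd → Set ℂ} (hD : ∀ b, D b ⊆ PBOb.DQ6 b) {ρ : Kd → ℝ → ℂ} (hρ : ∀ b, Integrable (ρ b))
    (hρ0 : ∀ s k u, ρ (s, some k) u = 0) (hl : ∀ s u, vl l u ∈ D (s, none)) :
    NX.QID D (vl l) ρ (PBOb.aK X) := by
  set C := PBOb.cL6 * (‖xp - xm‖ + M) + 8 * (17 * ‖xp - xm‖ + 6 * M) with hC
  have hv : Measurable fun u : ℝ => vl l u := by
    unfold vl
    fun_prop
  have hin : ∀ (s : Bool) u, vl l u ∈ PBOb.Str6 (s, (none : Option O3)).2 := fun s u =>
    PBOb.DQ_sub6 _ (hD _ (hl s u))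
  have hM := hX.M_nonneg
  have hcL := PBOb.cL_nonneg6
  have hC0 : 0 ≤ C := by
    have := norm_nonneg (xp - xm)
    positivity
  constructor
  · rintro b ⟨s, k⟩ x hx
    cases k with
    | some k =>
      simp only [hρ0, mul_zero]
      exact integrable_zero _ _ _
    | none =>
      have hm : Measurable fun u : ℝ => PBOb.aK X b (s, none) x (vl l u) :=
        meas_aK1 mX b (s, none) x hv
      exact (hρ (s, none)).bdd_mul (c := C) hm.aestronglyMeasurable
        (Filter.Eventually.of_forall fun u => norm_aK_bdd6 hX (PBOb.DQ_sub6 _ (hD b hx)) (hin s u))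
  · rintro ⟨s, k⟩
    cases k with
    | some k =>
      simp only [hρ0, zero_mul]
      exact integrable_zero _ _ _
    | none =>
      have key : ∀ c : Kd, AEStronglyMeasurable
          (fun t : ℝ => ∫ u, PBOb.aK X (s, none) c (vl l t) (vl l u) * ρ c u) volume := by
        intro c
        have hm : Measurable fun p : ℝ × ℝ => PBOb.aK X (s, none) c (vl l p.1) (vl l p.2) :=
          meas_aK2 mX (s, none) c hv
        have h2 : AEStronglyMeasurable (fun p : ℝ × ℝ =>
            PBOb.aK X (s, none) c (vl l p.1) (vl l p.2) * ρ c p.2) (volume.prod volume) :=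
          hm.aestronglyMeasurable.mul (hρ c).1.comp_snd
        exact h2.integral_prod_right'
      have hs : AEStronglyMeasurable (fun t : ℝ => NX.smr (vl l) ρ (PBOb.aK X) (s, none) (vl l t))
          volume := by
        unfold NX.smr
        have := Finset.aestronglyMeasurable_sum (s := (Finset.univ : Finset Kd))
          (f := fun c (t : ℝ) => ∫ u, PBOb.aK X (s, none) c (vl l t) (vl l u) * ρ c u) (μ := volume)
          fun c _ => key c
        refine this.congr (Filter.Eventually.of_forall fun t => ?_)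
        simp only [Finset.sum_apply]
      have hb : ∀ t : ℝ, ‖NX.smr (vl l) ρ (PBOb.aK X) (s, none) (vl l t)‖ ≤
          ∑ c, C * ∫ u, ‖ρ c u‖ := by
        intro t
        unfold NX.smr
        refine (norm_sum_le _ _).trans (Finset.sum_le_sum fun c _ => ?_)
        rw [← integral_const_mul]
        refine norm_integral_le_of_norm_le ((hρ c).norm.const_mul C)
          (Filter.Eventually.of_forall fun u => ?_)
        obtain ⟨s', k'⟩ := c
        cases k' with
        | some k' =>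
          rw [hρ0]
          simp
        | none =>
          rw [norm_mul]
          exact mul_le_mul_of_nonneg_right (norm_aK_bdd6 hX (hin s t) (hin s' u)) (norm_nonneg _)
      have h3 := (hρ (s, none)).bdd_mul (c := ∑ c, C * ∫ u, ‖ρ c u‖) hs
        (Filter.Eventually.of_forall hb)
      refine h3.congr (Filter.Eventually.of_forall fun t => ?_)
      simp only []
      ring

end PBRep.PLX

end
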