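import Pool.Agent.PHK.AsmI
import Pool.Agent.PHK.GOk
import Pool.Agent.PHK.PotH.S4M

/-!
# (P): the gas with a statistic for a geometry with near groups (`S4K6`), from the chain `PotH`

* `StatFam6 A0 ok Φ`: a family of statistics: polynomial bound everywhere, admissible (`StatM`) in the
  sharp range with the price `m ^ ε`, for every `ε > 0` and every constant `Cg`; `statFam_one6`;
* **`s4K_of6 : GOk6 G → S4M6 → (StatFam6 A0 → S4K6 (K + A0) Ca)`**, `K`, `Ca` independent of the statistic;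
  `s4K6` (unconditional).
-/

set_option autoImplicit false
set_option linter.unusedSectionVars false

noncomputable section

open MeasureTheory Finset Filter Topology
open scoped ENNReal

open PLX (Fil Ends)

namespace PBI.PLX

open PHK PBO.PLX
open NUGC NUGC.PLX
open PBF.PLX (InsE)
open PotH.PLX
open NUO (Xo ht Tb TW)
open NUSea.PLX.H0 (Gd)

variable [NUSea.Sea] [Fil] [Ends]

/-- **a family of statistics** -/
structure StatFam6 (A0 : ℝ) {ι : Type*} (ok : ℕ → ι → Prop) (Φ : ι → ℕ → ℕ → InsE) : Prop where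
  /-- the exponent -/
  hA0 : 0 ≤ A0
  /-- the polynomial bound -/
  poly : ∃ m0 : ℕ, ∀ m ≥ m0, ∀ i : ι, ok m i → ∀ N ≤ 2 * m, ∀ (r : ℕ) (O : Fin r → Xo) (a b : ℕ)
    (y : (Fin a → ℝ) × (Fin b → ℝ)), r ≤ 2 * (2 * N + Fil.xe m + 6) → a ≤ N + 3 →
    b ≤ N + Fil.xe m + 3 →
    Φ i m N r O a b y ≤ ENNReal.ofReal (Real.exp (A0 * Real.log m))
  /-- the sharp range -/
  sharp : ∀ Cg : ℝ, 1 ≤ Cg → ∀ ε : ℝ, 0 < ε → ∃ m0 : ℕ, ∀ m ≥ m0, ∀ i : ι, ok m i →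
    ∀ N ≤ 2 * m, ∀ (r : ℕ) (O : Fin r → Xo) (a b : ℕ), |(m : ℝ) - N| ≤ Real.log m ^ 3 + 2 →
    (r : ℝ) + 2 ≤ Real.log m → (∀ i, |ht (O i)| ≤ Real.log m ^ 2) → a ≤ N + 3 →
    b ≤ N + Fil.xe m + 3 →
    ∃ A : ℝ, StatM Cg m a b A ((m : ℝ) ^ ε) (Φ i m N r O a b)

/-- no statistic -/
theorem statFam_one6 {ι : Type*} (ok : ℕ → ι → Prop) :
    StatFam6 0 ok (fun _ _ _ _ _ _ _ _ => (1 : ℝ≥0∞)) where
  hA0 := le_rfl
  poly := ⟨0, fun m _ i _ N _ r O a b y _ _ _ => by simp⟩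
  sharp Cg hCg ε hε := by
    obtain ⟨M, hM⟩ := Filter.eventually_atTop.1
      (((tendsto_rpow_atTop hε).comp tendsto_natCast_atTop_atTop).eventually_ge_atTop
        (2 : ℝ))
    refine ⟨M, fun m hm i _ N _ r O a b _ _ _ _ _ => ⟨1, ?_⟩⟩
    have h1 : StatM Cg m a b 1 2 (fun _ => (1 : ℝ≥0∞)) := PBZ.PLX.StatOK.one (by positivity)
    exact h1.mono le_rfl (hM m hm) measurable_const fun _ => le_rfl

/-- under the condition on the holes the objects take quanta away -/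
private theorem nA6_le {n : ℕ} {r : ℕ} {O : Fin r → Xo} (h : cnt6 O) (s : Bool) : nA6 n O s ≤ n := by
  have := chgO6_nonneg h s
  unfold nA6
  omega

/-- **the gas with a statistic**, the constants are independent of the statistic -/
theorem s4K_of6 {G : Geo} (hG : GOk6 G) (h4 : S4M6) :
    ∃ K Ca : ℝ, 0 ≤ K ∧ 0 ≤ Ca ∧ ∀ (A0 : ℝ) (ι : Type*) (ok : ℕ → ι → Prop)
      (Φ : ι → ℕ → ℕ → InsE), StatFam6 A0 ok Φ → S4K6 G ok Φ (K + A0) Ca := by
  obtain ⟨B0, N0, hB0, hN0, henv⟩ := hG.env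
  obtain ⟨K, Ca, hK, hCa, h4⟩ := h4 B0 N0 hB0 hN0
  obtain ⟨K1, hK1, hone⟩ := hG.one
  obtain ⟨CP, hCP, hpref⟩ := hG.pref_le
  refine ⟨K + K1, Ca + 1, by linarith, by linarith, ?_⟩
  intro A0 ι ok Φ hst kap hkap ep hep hep1 e1 he1 he11 J hJ δ hδ
  obtain ⟨Cc, C0, hCc, hC0, CL, m1, henv⟩ := henv ep hep hep1 e1 he1 he11 J hJ
  obtain ⟨m3, hone⟩ := hone ep hep hep1 e1 he1 he11 J hJ
  obtain ⟨d, Cst, Cg, hd, hCst, hCg, M0, h4⟩ := h4 A0 hst.hA0 kap hkap ep hep hep1 e1 he1 he11 Cc C0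
    hCc hC0 (δ / 2) (by linarith)
  obtain ⟨M2, hpoly⟩ := hst.poly
  obtain ⟨M3, hsharp⟩ := hst.sharp Cg hCg (δ / 2) (by linarith)
  refine ⟨d, Cst * Real.exp (CP + CL), hd, by positivity,
    max (max M0 m1) (max (max M2 M3) m3), ?_⟩
  intro m hm n g aX aY ν N b' r O hb' hR hnear i hok
  simp only [ge_iff_le, max_le_iff] at hm
  obtain ⟨⟨g0, g1⟩, ⟨g2, g3⟩, g4⟩ := hm
  obtain ⟨hm1, hT, cr, Bc, Bc', H, H', hE, hlin⟩ := henv m g1
  have hmp : (0 : ℝ) < m := by exact_mod_cast hm1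
  have hm1' : (1 : ℝ) ≤ m := by exact_mod_cast hm1
  have hb : |b'| ≤ d := by
    rcases hb' with h | h
    · rw [h, abs_of_pos hd]
    · rw [h, abs_neg, abs_of_pos hd]
  have hRH : RgH6 ep e1 m g aX aY ν N O 0 0 :=
    { n2 := hR.n2, sp := hR.sp, ax := hR.ax, ay := hR.ay, ay' := hR.ay', q := hR.q
      nu := hR.nu.trans (by norm_num), hN := hR.hN.trans (by omega), hr := by have := hR.hr; omega, hc1 := hR.hc1
      hc2 := hR.hc2, E0 := le_rfl, hE := hR.hE, x0 := le_rfl, hx := hR.hx }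
  have hN := hR.hN
  have hax := hR.ax
  have hay := hR.ay
  have hr6 : r ≤ 2 * (2 * N + Fil.xe m + 6) := by
    have := hR.hr
    omega
  have ha3 : nA6 (N + aX) O true ≤ N + 3 := (nA6_le hR.cn true).trans (by omega)
  have hb3 : nA6 (N + aY) O false ≤ N + Fil.xe m + 3 := (nA6_le hR.cn false).trans (by omega)
  have hnear2 : ∀ i, |(g i).τ| ≤ Real.log m ^ 2 := fun i =>
    (hnear i).trans (PBO.PLX.TW_le_sq hep1 he11 hT)
  have key := h4 m g0 n (etaC e1 J m m) (etaC' e1 J m m) cr Bc Bc' H H'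
    ((G.B m (4 / 3 * (1 - ep))).mul (spF g)) g (hE n g d hd.le) aX aY ν N b' r O 0 0 hb hRH
    (Φ i m N r O (nA6 (N + aX) O true) (nA6 (N + aY) O false)) 1 ((m : ℝ) ^ (δ / 2)) zero_le_one
    (Real.one_le_rpow hm1' (by linarith))
    (fun y => by
      rw [one_mul]
      exact hpoly m g2 i hok N hN r O _ _ y hr6 ha3 hb3)
    (fun _ hnu hr hht => by
      rw [one_mul]
      refine hsharp m g3 i hok N hN r O _ _ ?_ hr hht ha3 hb3
      have h1 := hR.nu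
      rw [abs_le] at hnu h1 ⊢
      constructor <;> linarith [hnu.1, hnu.2, h1.1, h1.2])
  rw [if_pos hnear2] at key
  refine le_trans (le_of_eq ?_) (key.trans (ENNReal.ofReal_le_ofReal ?_))
  · rfl
  -- the numbers
  have hT1 : (1 - e1) * Tb (Real.log m) ≤ T1H ep e1 m O 0 :=
    (PBO.PLX.TW_geR hep he1 hT).trans (TW_le ep e1 m O le_rfl).1
  have hlin := hlin n g _ hT1
  have hconf := confEH6_le (G := G) (K := K + A0) (kap := kap) O fun i => hone m g4 r O i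
  have hen : enH6 m g O (T1H ep e1 m O 0) (nA6 (N + aX) O true) (nA6 (N + aY) O false) =
      enR6 m g O (T1R ep e1 m O 0) (nA6 (N + aX) O true) (nA6 (N + aY) O false) := rfl
  rw [hen]
  obtain ⟨EN, hEN⟩ : ∃ EN, EN = enR6 m g O (T1R ep e1 m O 0) (nA6 (N + aX) O true)
    (nA6 (N + aY) O false) := ⟨_, rfl⟩
  rw [← hEN]
  have hp := hpref m n g hR.n2
  obtain ⟨CF, hCF⟩ : ∃ CF, CF = confEH6 m (etaC e1 J m m) (TW ep e1 m) (K + A0) kap O + EN :=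
    ⟨_, rfl⟩
  obtain ⟨CR, hCR⟩ : ∃ CR, CR = confR6 G m ep e1 J (K + A0 + K1) kap O + EN := ⟨_, rfl⟩
  have hc : CF ≤ CR := by
    rw [hCF, hCR]
    linarith
  have hpa := pref_alg (G := G) hm1 (g := g) (E := 0) (x := 0) (F1 := 1) (F2 := 1)
    (a := Ca * (ep + e1) + δ / 2) (a' := Ca * (ep + e1) + δ / 2 + (ep + e1)) hCst le_rfl zero_le_one
    hp hlin hc (by linarith)
  have e2 : K + K1 + A0 = K + A0 + K1 := by ring
  rw [e2, ← hCR]
  have e3 : confEH6 m (etaC e1 J m m) (TW ep e1 m) (K + A0) kap O +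
      linH (etaC e1 J m m) (etaC' e1 J m m) m g (T1H ep e1 m O 0) H + EN =
      CF + linH (etaC e1 J m m) (etaC' e1 J m m) m g (T1H ep e1 m O 0) H := by
    rw [hCF]
    ring
  rw [e3, one_mul]
  have hpow : (m : ℝ) ^ ((Ca + 1) * (ep + e1) + δ) =
      (m : ℝ) ^ (δ / 2) * (m : ℝ) ^ (Ca * (ep + e1) + δ / 2 + (ep + e1)) := by
    rw [← Real.rpow_add hmp]
    congr 1
    ring
  rw [hpow]
  have e4 : 3 / 8 + Ca * (ep + e1) + δ / 2 = 3 / 8 + (Ca * (ep + e1) + δ / 2) := by ring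
  rw [e4]
  have hm0 : 0 ≤ (m : ℝ) ^ (δ / 2) := by positivity
  refine (mul_le_mul_of_nonneg_left hpa hm0).trans (le_of_eq ?_)
  ring

/-- **the gas with a statistic**, unconditional -/
theorem s4K6 {G : Geo} (hG : GOk6 G) :
    ∃ K Ca : ℝ, 0 ≤ K ∧ 0 ≤ Ca ∧ ∀ (A0 : ℝ) (ι : Type*) (ok : ℕ → ι → Prop)
      (Φ : ι → ℕ → ℕ → InsE), StatFam6 A0 ok Φ → S4K6 G ok Φ (K + A0) Ca :=
  s4K_of6 hG PotH.PLX.s4M6

end PBI.PLX

end
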