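import Mathlib

/-!
# Sparse integer polynomials (helper8)

`SP = List (ℤ × ℕ)` (coefficient, exponent), `ev p y` its value, `sp` = the list of the cosines as a
polynomial in `y = exp (-z / 64)`, `col` = equal exponents collected, zeros dropped.
-/

set_option autoImplicit false

namespace PHK

/-- sparse polynomials: (coefficient, exponent) -/
abbrev SP := List (ℤ × ℕ)

/-- value -/
def ev (p : SP) (y : ℝ) : ℝ := (p.map fun a => (a.1 : ℝ) * y ^ a.2).sum

lemma ev_nil (y : ℝ) : ev [] y = 0 := rfl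

lemma ev_cons (a : ℤ × ℕ) (p : SP) (y : ℝ) : ev (a :: p) y = (a.1 : ℝ) * y ^ a.2 + ev p y := by
  simp [ev]

lemma ev_append (p q : SP) (y : ℝ) : ev (p ++ q) y = ev p y + ev q y := by
  simp [ev, List.sum_append]

/-- insert one term, equal exponents merged -/
def ins (a : ℤ × ℕ) : SP → SP
  | [] => [a]
  | b :: p => if a.2 = b.2 then (a.1 + b.1, b.2) :: p
      else if a.2 < b.2 then a :: b :: p else b :: ins a p

lemma ev_ins (a : ℤ × ℕ) (p : SP) (y : ℝ) : ev (ins a p) y = (a.1 : ℝ) * y ^ a.2 + ev p y := by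
  induction p with
  | nil => rw [ins, ev_cons]
  | cons b p ih =>
    rw [ins]
    split_ifs with h1 h2
    · rw [ev_cons, ev_cons, h1]; push_cast; ring
    · rw [ev_cons]
    · rw [ev_cons, ev_cons, ih]; ring

/-- sorted by exponents, equal exponents collected -/
def srt (p : SP) : SP := p.foldr ins []

lemma ev_srt (p : SP) (y : ℝ) : ev (srt p) y = ev p y := by
  induction p with
  | nil => rfl
  | cons a p ih =>
    show ev (ins a (srt p)) y = _
    rw [ev_ins, ih, ev_cons]

/-- zeros dropped -/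
def dz : SP → SP
  | [] => []
  | a :: p => if a.1 = 0 then dz p else a :: dz p

lemma ev_dz (p : SP) (y : ℝ) : ev (dz p) y = ev p y := by
  induction p with
  | nil => rfl
  | cons a p ih =>
    rw [dz]
    split_ifs with h
    · rw [ih, ev_cons, h]; simp
    · rw [ev_cons, ev_cons, ih]

/-- equal exponents collected, zeros dropped -/
def col (p : SP) : SP := dz (srt p)

theorem ev_col (p : SP) (y : ℝ) : ev (col p) y = ev p y := by
  unfold col; rw [ev_dz, ev_srt]

/-- a combination of cosines as a polynomial in `y = exp (-z / 64)`, times `2 y ^ 256` -/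
def sp (l : List (ℤ × ℤ)) : SP :=
  l.flatMap fun a => [(a.1, (a.2 % 512).toNat), (a.1, (512 - a.2 % 512).toNat)]

/-- a combination of cosines: (coefficient, offset in units `1 / 64`) -/
noncomputable def cs6 (l : List (ℤ × ℤ)) (z : ℝ) : ℝ :=
  (l.map fun a => (a.1 : ℝ) * Real.cosh ((256 - (a.2 % 512 : ℤ)) * (z / 64))).sum

lemma cs6_nil (z : ℝ) : cs6 [] z = 0 := rfl

lemma cs6_cons (a : ℤ × ℤ) (l : List (ℤ × ℤ)) (z : ℝ) :
    cs6 (a :: l) z = (a.1 : ℝ) * Real.cosh ((256 - (a.2 % 512 : ℤ)) * (z / 64)) + cs6 l z := by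
  simp [cs6]

lemma cs6_append (l m : List (ℤ × ℤ)) (z : ℝ) : cs6 (l ++ m) z = cs6 l z + cs6 m z := by
  simp [cs6, List.sum_append]

/-- a multiple -/
def smz (c : ℤ) (l : List (ℤ × ℤ)) : List (ℤ × ℤ) := l.map fun a => (c * a.1, a.2)

lemma cs6_smz (c : ℤ) (l : List (ℤ × ℤ)) (z : ℝ) : cs6 (smz c l) z = c * cs6 l z := by
  induction l with
  | nil => simp [smz, cs6]
  | cons a l ih =>
    show cs6 ((c * a.1, a.2) :: smz c l) z = _
    rw [cs6_cons, cs6_cons, ih]
    push_cast
    ring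

theorem ev_sp (l : List (ℤ × ℤ)) (z : ℝ) :
    ev (sp l) (Real.exp (-(z / 64))) = 2 * Real.exp (-(4 * z)) * cs6 l z := by
  induction l with
  | nil => simp [sp, ev, cs6]
  | cons a l ih =>
    have e : sp (a :: l) = (a.1, (a.2 % 512).toNat) :: (a.1, (512 - a.2 % 512).toNat) :: sp l := rfl
    rw [e, ev_cons, ev_cons, ih, cs6_cons, Real.cosh_eq, ← Real.exp_nat_mul, ← Real.exp_nat_mul]
    have h0 : 0 ≤ a.2 % 512 := Int.emod_nonneg _ (by norm_num)
    have h1 : a.2 % 512 < 512 := Int.emod_lt_of_pos _ (by norm_num)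
    have e1 : (((a.2 % 512).toNat : ℕ) : ℝ) = ((a.2 % 512 : ℤ) : ℝ) := by
      have : (((a.2 % 512).toNat : ℕ) : ℤ) = a.2 % 512 := Int.toNat_of_nonneg h0
      exact_mod_cast this
    have e2 : (((512 - a.2 % 512).toNat : ℕ) : ℝ) = 512 - ((a.2 % 512 : ℤ) : ℝ) := by
      have : (((512 - a.2 % 512).toNat : ℕ) : ℤ) = 512 - a.2 % 512 := Int.toNat_of_nonneg (by omega)
      have h := congrArg (fun n : ℤ => (n : ℝ)) this
      push_cast at h ⊢
      exact h
    rw [e1, e2]
    have e3 : Real.exp (((a.2 % 512 : ℤ) : ℝ) * -(z / 64)) =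
        Real.exp (-(4 * z)) * Real.exp ((256 - ((a.2 % 512 : ℤ) : ℝ)) * (z / 64)) := by
      rw [← Real.exp_add]; congr 1; ring
    have e4 : Real.exp ((512 - ((a.2 % 512 : ℤ) : ℝ)) * -(z / 64)) =
        Real.exp (-(4 * z)) * Real.exp (-((256 - ((a.2 % 512 : ℤ) : ℝ)) * (z / 64))) := by
      rw [← Real.exp_add]; congr 1; ring
    rw [e3, e4]
    ring

end PHK
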