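import Pool.Agent.PHK.LnMove
import Pool.Agent.PHK.DataS

/-!
# The exact layer on the lines of (P)

* `a`, `51 / 100 l ≤ a ≤ 3 / 5 l`: the line of the quanta; lines of the objects: L in
  `[-17/10 l, -101/100 l]`, S in `[-11/8 l, -7/10 l]`, T in `[-7/10 l, -l/2]` (`LnP a lnX lnY`);
* **`ZobjQ_P`**: from the landed lines to the new ones, families `FamP a`;
* `SpecP a`: spectators on the larger sets, `famXUP` (any correction `GO0 g0` of the cutoff of the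
  strings), **`DZU_clsP`**.
-/

set_option autoImplicit false
set_option linter.unusedSectionVars false
set_option linter.unusedVariables false

noncomputable section

open Complex MeasureTheory

namespace PHK

open NUP1 NUP1S NUP1.Bd NURow
open NUP1.N (Z3 Gr0)
open PBX (Rws ph GOk KK K1_KK K2_KK bdd_ph diffAt_ph)
open Pool.Agent.PLX

/-- real parts of the quanta and of the objects L -/
def K1P (a : ℝ) : Set ℝ := Set.Icc a l ∪ Set.Icc (-(17 / 10 * l)) (-(101 / 100 * l))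

/-- the range of the line of the quanta -/
structure HLn (a : ℝ) : Prop where
  lo : 51 / 100 * l ≤ a
  hi : a ≤ 3 / 5 * l

theorem HLn.std : HLn (3 / 5 * l) := by
  have hl := Bd.l_pos
  constructor <;> linarith

/-- spectators of a species on the larger sets -/
structure SpecP (a : ℝ) (c : Bool) (Q : ℝ) (s1 s2 : ℂ → ℂ) : Prop where
  m1 : Measurable s1
  m2 : Measurable s2
  b1 : Bdd (K1P a) (-(2 * Q * sc (c, .A))) s1
  b2 : Bdd KS (-(2 * Q * sc (c, .S))) s2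
  d1 : ∀ z : ℂ, z.re ∈ K1P a → DifferentiableAt ℂ s1 z
  d2 : ∀ z : ℂ, z.re ∈ KS → DifferentiableAt ℂ s2 z
  mul : ∀ z : ℂ, z.re = -(7 / 10 * l) → s2 z = s1 z * s1 (z - l)

section sets

variable {a : ℝ} (ha : HLn a)
include ha

theorem K1_K1P : K1 ⊆ K1P a := by
  have hl := Bd.l_pos
  have h0 := ha.hi
  rintro x (⟨h1, h2⟩ | ⟨h1, h2⟩)
  · exact Or.inl ⟨by linarith, h2⟩
  · exact Or.inr ⟨h1, by linarith⟩

theorem K1P_KK {x : ℝ} (h : x ∈ K1P a) : x ∈ KK := by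
  have hl := Bd.l_pos
  have h0 := ha.lo
  rcases h with ⟨h1, h2⟩ | ⟨h1, h2⟩ <;> constructor <;> linarith

theorem NPr_K1P : NPr (l / 2) (K1P a) := by
  have hl := Bd.l_pos
  have h0 := ha.lo
  intro d hd e he
  obtain ⟨h3, h4⟩ := abs_le.1 he
  rcases hd with ⟨h1, h2⟩ | ⟨h1, h2⟩
  · exact NP_pos (by linarith) (by linarith)
  · exact NP_neg (by linarith) (by linarith)

/-- the landed condition -/
theorem SpecP.toQ {c : Bool} {Q : ℝ} {s1 s2 : ℂ → ℂ} (h : SpecP a c Q s1 s2) :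
    SpecQ c Q s1 s2 where
  m1 := h.m1
  m2 := h.m2
  b1 := Bdd.mono_set h.b1 (K1_K1P ha)
  b2 := Bdd.mono_set h.b2 fun x hx => K2_KS hx
  d1 z hz := h.d1 z (K1_K1P ha hz)
  d2 z hz := h.d2 z (K2_KS hz)
  mul := h.mul

end sets

theorem isCompact_K1P (a : ℝ) : IsCompact (K1P a) := isCompact_Icc.union isCompact_Icc

/-! ## moving the lines -/

/-- one body functions of a species on all lines used -/
abbrev FamP (a : ℝ) (c : Bool) (κ Q : ℝ) (X : Option O3 → ℂ → ℂ) : Prop :=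
  FamB c a (3 / 5 * l) (-(17 / 10 * l)) (-(101 / 100 * l)) (-(11 / 8 * l))
    (-(7 / 10 * l)) (-(7 / 10 * l)) (-(l / 2)) κ Q X

theorem FamB.mono {c : Bool} {al ah bl bh sl sh tl th al' ah' bl' bh' sl' sh' tl' th' κ Q : ℝ}
    {X : Option O3 → ℂ → ℂ} (h : FamB c al ah bl bh sl sh tl th κ Q X)
    (h1 : al ≤ al') (h2 : ah' ≤ ah) (h3 : bl ≤ bl') (h4 : bh' ≤ bh) (h5 : sl ≤ sl')
    (h6 : sh' ≤ sh) (h7 : tl ≤ tl') (h8 : th' ≤ th) :
    FamB c al' ah' bl' bh' sl' sh' tl' th' κ Q X := by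
  have hsub : ∀ k, Set.Icc (lo4 al' bl' sl' tl' k) (lo4 ah' bh' sh' th' k) ⊆
      Set.Icc (lo4 al bl sl tl k) (lo4 ah bh sh th k) := by
    intro k
    rcases k with _ | (_ | _ | _)
    · exact Set.Icc_subset_Icc h1 h2
    · exact Set.Icc_subset_Icc h3 h4
    · exact Set.Icc_subset_Icc h5 h6
    · exact Set.Icc_subset_Icc h7 h8
  exact ⟨h.meas, fun k => (h.dec k).mono (hsub k), fun k z hz => h.diff k z (hsub k hz)⟩

/-- the landed lines -/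
abbrev LnQ (lnX : ∀ p p' : ℕ, (Fin p → O3) → (Fin p' → O3) → Fin p → ℝ)
    (lnY : ∀ p p' : ℕ, (Fin p → O3) → (Fin p' → O3) → Fin p' → ℝ) : Prop :=
  (∀ p p' k k' i, lnX p p' k k' i ∈ Set.Icc
      (lo4 (3 / 5 * l) (-(17 / 10 * l)) (-(13 / 10 * l)) (-(7 / 10 * l)) (some (k i)))
      (lo4 (3 / 5 * l) (-(5 / 4 * l)) (-(7 / 10 * l)) (-(l / 2)) (some (k i)))) ∧
  ∀ p p' k k' i, lnY p p' k k' i ∈ Set.Icc
      (lo4 (3 / 5 * l) (-(17 / 10 * l)) (-(13 / 10 * l)) (-(7 / 10 * l)) (some (k' i)))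
      (lo4 (3 / 5 * l) (-(5 / 4 * l)) (-(7 / 10 * l)) (-(l / 2)) (some (k' i)))

/-- the lines of (P) -/
abbrev LnP (a : ℝ) (lnX : ∀ p p' : ℕ, (Fin p → O3) → (Fin p' → O3) → Fin p → ℝ)
    (lnY : ∀ p p' : ℕ, (Fin p → O3) → (Fin p' → O3) → Fin p' → ℝ) : Prop :=
  (∀ p p' k k' i, lnX p p' k k' i ∈ Set.Icc
      (lo4 a (-(17 / 10 * l)) (-(11 / 8 * l)) (-(7 / 10 * l)) (some (k i)))
      (lo4 a (-(101 / 100 * l)) (-(7 / 10 * l)) (-(l / 2)) (some (k i)))) ∧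
  ∀ p p' k k' i, lnY p p' k k' i ∈ Set.Icc
      (lo4 a (-(17 / 10 * l)) (-(11 / 8 * l)) (-(7 / 10 * l)) (some (k' i)))
      (lo4 a (-(101 / 100 * l)) (-(7 / 10 * l)) (-(l / 2)) (some (k' i)))

theorem stripsB1 {a : ℝ} (ha : HLn a) : StripsB a (3 / 5 * l) (-(17 / 10 * l)) (-(5 / 4 * l))
    (-(13 / 10 * l)) (-(7 / 10 * l)) (-(7 / 10 * l)) (-(l / 2)) (-(13 / 10 * l)) (-(l / 2)) := by
  have hl := Bd.l_pos
  have h1 := ha.lo
  have h2 := ha.hi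
  constructor <;> linarith

theorem stripsB2 {a : ℝ} (ha : HLn a) : StripsB a a (-(17 / 10 * l)) (-(101 / 100 * l))
    (-(11 / 8 * l)) (-(7 / 10 * l)) (-(7 / 10 * l)) (-(l / 2)) (-(11 / 8 * l))
    (-(l / 2)) := by
  have hl := Bd.l_pos
  have h1 := ha.lo
  have h2 := ha.hi
  constructor <;> linarith

theorem lo4_some (a a' b c d : ℝ) (k : O3) : lo4 a b c d (some k) = lo4 a' b c d (some k) := by
  cases k <;> rfl

/-- **from the landed lines to the lines of (P)** -/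
theorem ZobjQ_P {a κ : ℝ} (ha : HLn a) (hκ : 0 < κ) {n n' : ℕ} {X Y : Option O3 → ℂ → ℂ}
    (hX : FamP a true κ ((n : ℝ) - n') X) (hY : FamP a false κ ((n : ℝ) - n') Y)
    {lnX lnX' : ∀ p p' : ℕ, (Fin p → O3) → (Fin p' → O3) → Fin p → ℝ}
    {lnY lnY' : ∀ p p' : ℕ, (Fin p → O3) → (Fin p' → O3) → Fin p' → ℝ}
    (L : LnQ lnX lnY) (L' : LnP a lnX' lnY') :
    ZobjQ X Y (3 / 5 * l) n n' lnX lnY = ZobjQ X Y a n n' lnX' lnY' := by
  have hl := Bd.l_pos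
  have ha1 := ha.lo
  have ha2 := ha.hi
  have hm : ∀ (k : O3) (x : ℝ), x ∈ Set.Icc
      (lo4 (3 / 5 * l) (-(17 / 10 * l)) (-(13 / 10 * l)) (-(7 / 10 * l)) (some k))
      (lo4 (3 / 5 * l) (-(5 / 4 * l)) (-(7 / 10 * l)) (-(l / 2)) (some k)) →
      x ∈ Set.Icc (lo4 a (-(17 / 10 * l)) (-(11 / 8 * l)) (-(7 / 10 * l)) (some k))
      (lo4 a (-(101 / 100 * l)) (-(7 / 10 * l)) (-(l / 2)) (some k)) := by
    intro k x hx
    cases k
    · exact ⟨hx.1, hx.2.trans (by show -(5 / 4 * l) ≤ -(101 / 100 * l); linarith)⟩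
    · exact ⟨(show -(11 / 8 * l) ≤ -(13 / 10 * l) by linarith).trans hx.1, hx.2⟩
    · exact hx
  have hLX : ∀ p p' k k' i, lnX p p' k k' i ∈ Set.Icc
      (lo4 a (-(17 / 10 * l)) (-(13 / 10 * l)) (-(7 / 10 * l)) (some (k i)))
      (lo4 (3 / 5 * l) (-(5 / 4 * l)) (-(7 / 10 * l)) (-(l / 2)) (some (k i))) := by
    intro p p' k k' i
    rw [lo4_some _ (3 / 5 * l)]
    exact L.1 p p' k k' i
  have hLY : ∀ p p' k k' i, lnY p p' k k' i ∈ Set.Icc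
      (lo4 a (-(17 / 10 * l)) (-(13 / 10 * l)) (-(7 / 10 * l)) (some (k' i)))
      (lo4 (3 / 5 * l) (-(5 / 4 * l)) (-(7 / 10 * l)) (-(l / 2)) (some (k' i))) := by
    intro p p' k k' i
    rw [lo4_some _ (3 / 5 * l)]
    exact L.2 p p' k k' i
  rw [ZobjQ_move (stripsB1 ha) hκ
    (hX.mono le_rfl le_rfl le_rfl (by linarith) (by linarith) le_rfl le_rfl le_rfl)
    (hY.mono le_rfl le_rfl le_rfl (by linarith) (by linarith) le_rfl le_rfl le_rfl)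
    (α := 3 / 5 * l) (α' := a) ⟨by linarith, le_rfl⟩ ⟨le_rfl, by linarith⟩ lnX lnX lnY lnY
    hLX hLX hLY hLY]
  exact ZobjQ_move (stripsB2 ha) hκ
    (hX.mono le_rfl (by linarith) le_rfl le_rfl le_rfl le_rfl le_rfl le_rfl)
    (hY.mono le_rfl (by linarith) le_rfl le_rfl le_rfl le_rfl le_rfl le_rfl)
    (α := a) (α' := a) ⟨le_rfl, le_rfl⟩ ⟨le_rfl, le_rfl⟩ lnX lnX' lnY lnY'
    (fun p p' k k' i => hm _ _ (L.1 p p' k k' i)) L'.1
    (fun p p' k k' i => hm _ _ (L.2 p p' k k' i)) L'.2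

/-! ## the data -/

section data

variable {m M : ℕ} {c : ℂ} {x : Fin m → ℂ} {y : Fin M → ℂ} {β : ℝ} {g g0 s1 s2 : ℂ → ℂ} {b : Bool}
  {Q Q' a : ℝ} (ha : HLn a)
include ha

theorem bdd_GXUP (hβ : 0 < β) (hβ' : β ≤ 4 / 3) (hx : Rws x) (hy : Rws y) (hg : GOk β g)
    (h : SpecP a b Q' s1 s2) (hQ : Q * sc (b, .A) = Q' * sc (b, .A) - ((M : ℝ) - m)) :
    Bdd (K1P a) (-(2 * β) + -(2 * Q * sc (b, .A))) (GXU c β x y g s1) := by
  have h1 := bdd_RRU c hx hy (isCompact_K1P a) (NPr_K1P ha)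
  have h2 : Bdd (K1P a) (-(2 * β)) (ph β x g) := Bdd.mono_set (bdd_ph hβ hβ' hx hg) fun x hx => K1P_KK ha hx
  exact ((h1.mul h2).mul h.b1).rate (by linarith)

theorem diffAt_GXUP (hβ : 0 < β) (hβ' : β ≤ 4 / 3) (hx : Rws x) (hg : GOk β g)
    (h : SpecP a b Q' s1 s2) {z : ℂ} (hz : z.re ∈ K1P a) :
    DifferentiableAt ℂ (GXU c β x y g s1) z :=
  ((diffAt_RRU c (NPr_K1P ha) hx hz).mul (diffAt_ph hβ hβ' hx hg (K1P_KK ha hz))).mul (h.d1 z hz)

/-- **the one body functions `XXU` on the lines of (P)** -/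
theorem famXUP (hβ : 0 < β) (hβ' : β ≤ 4 / 3) (hx : Rws x) (hy : Rws y) (hg : GOk β g)
    (hg0 : GO0 g0) (h : SpecP a b Q' s1 s2)
    (hQ : Q * sc (b, .A) = Q' * sc (b, .A) - ((M : ℝ) - m)) :
    FamP a b (2 * β) Q (XXU c β x y g g0 s1 s2) where
  meas := measurable_XXU hg.meas hg0.meas h.m1 h.m2
  dec k := by
    have hl := Bd.l_pos
    rcases k with _ | k
    · refine DecOn_of (Bdd.mono_set (bdd_GXUP ha hβ hβ' hx hy hg h hQ) ?_)
        (by simp only [sc4, ob4, Option.elim]; linarith)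
      rintro x ⟨h1, h2⟩
      have h1 : a ≤ x := h1
      have h2 : x ≤ 3 / 5 * l := h2
      exact Or.inl ⟨h1, by linarith⟩
    · cases k
      · refine DecOn_of (Bdd.mono_set (bdd_GXUP ha hβ hβ' hx hy hg h hQ) ?_)
          (by simp only [sc4, ob4, ob3, Option.elim]; exact le_of_eq (by cases b <;> simp [sc, chg] <;> ring))
        rintro x ⟨h1, h2⟩
        exact Or.inr ⟨h1, h2⟩
      · exact DecOn_of (((bdd_SS hx hy hg0).mul (Bdd.mono_set h.b2 fun x hx => KSS_KS hx)).rate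
          (s' := -(2 * (4 / 3)) + -(2 * Q * sc (b, .S))) (by rw [sc_S]; linarith))
          (by simp only [sc4, ob4, ob3, Option.elim]; linarith)
      · refine DecOn_of (Bdd.mono_set
          (((bdd_TTUS c hβ hβ' le_rfl hx hy hg hg0).mul (h.toQ ha).b2).rate
            (s' := -(2 * β) + -(2 * Q * sc (b, .S))) (by rw [sc_S]; linarith)) ?_)
          (by simp only [sc4, ob4, ob3, Option.elim]; linarith)
        rintro x ⟨h1, h2⟩
        exact K2_subT ⟨h1, h2⟩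
  diff k := by
    have hl := Bd.l_pos
    intro z hz
    rcases k with _ | k
    · have h1 : a ≤ z.re := hz.1
      have h2 : z.re ≤ 3 / 5 * l := hz.2
      exact diffAt_GXUP ha hβ hβ' hx hg h (Or.inl ⟨h1, by linarith⟩)
    · cases k
      · exact diffAt_GXUP ha hβ hβ' hx hg h (Or.inr ⟨hz.1, hz.2⟩)
      · exact (diffAt_SS hx hg0 ⟨hz.1, hz.2⟩).mul (h.d2 z (KSS_KS ⟨hz.1, hz.2⟩))
      · exact (diffAt_TTUS c hβ hβ' (by norm_num) le_rfl hx hg hg0 (K2_subT ⟨hz.1, hz.2⟩)).mul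
          ((h.toQ ha).d2 z (K2_subT ⟨hz.1, hz.2⟩))

end data

/-- **The class formula on the lines of (P)**, any cutoffs `g` (quanta) and `g0` (strings). -/
theorem DZU_clsP {a : ℝ} (ha : HLn a) {m M : ℕ} {c c' : ℂ} {s t : ℂ → ℂ} {x : Fin m → ℂ} {y : Fin M → ℂ} {β q : ℝ}
    (hβ : 0 < β) (hβ' : β ≤ 4 / 3) (hx : Rws x) (hy : Rws y)
    {g g' g0 g0' s2 t2 : ℂ → ℂ} (hg : GOk β g) (hg' : GOk β g') (hg0 : GO0 g0)
    (hg0' : GO0 g0') (hs : SpU q s) (ht : SpU (-q) t) (hs2 : SpecP a true (-q) s s2)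
    (ht2 : SpecP a false (-q) t t2) {n n' : ℕ} (hn : (n' : ℝ) + m = n + M + q)
    {lnX : ∀ p p' : ℕ, (Fin p → O3) → (Fin p' → O3) → Fin p → ℝ}
    {lnY : ∀ p p' : ℕ, (Fin p → O3) → (Fin p' → O3) → Fin p' → ℝ} (L : LnP a lnX lnY) :
    DZU c c' s t x y n n' =
      ZobjQ (XXU c β x y g g0 s s2) (XXU c' β y x g' g0' t t2) a n n' lnX lnY := by
  have hl := Bd.l_pos
  have e1 : sc (true, .A) = 1 := by simp [sc, chg]
  have e2 : sc (false, .A) = -1 := by simp [sc, chg]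
  have L0 : LnQ (fun _ _ k _ i => lo4 (3 / 5 * l) (-(17 / 10 * l)) (-(13 / 10 * l)) (-(7 / 10 * l))
      (some (k i))) (fun _ _ _ k' i => lo4 (3 / 5 * l) (-(17 / 10 * l)) (-(13 / 10 * l))
      (-(7 / 10 * l)) (some (k' i))) := by
    have h0 : ∀ k : O3, lo4 (3 / 5 * l) (-(17 / 10 * l)) (-(13 / 10 * l)) (-(7 / 10 * l)) (some k) ≤
        lo4 (3 / 5 * l) (-(5 / 4 * l)) (-(7 / 10 * l)) (-(l / 2)) (some k) := by
      intro k
      cases k
      · show -(17 / 10 * l) ≤ -(5 / 4 * l)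
        linarith
      · show -(13 / 10 * l) ≤ -(7 / 10 * l)
        linarith
      · show -(7 / 10 * l) ≤ -(l / 2)
        linarith
    exact ⟨fun p p' k k' i => ⟨le_rfl, h0 _⟩, fun p p' k k' i => ⟨le_rfl, h0 _⟩⟩
  rw [DZU_GU hβ hβ' hx hy hg hg' hs ht hn, ← GXU_eq_GU, ← GXU_eq_GU,
    stageXUS hβ hβ' hx hy hg hg0 hg' hg0' n n' hn (hs2.toQ ha) (ht2.toQ ha) _ _ L0.1 L0.2]
  refine ZobjQ_P ha (κ := 2 * β) (by linarith)
    (famXUP ha hβ hβ' hx hy hg hg0 hs2 ?_) (famXUP ha hβ hβ' hy hx hg' hg0' ht2 ?_) L0 L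
  · rw [e1]
    linarith
  · rw [e2]
    linarith

end PHK

end
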