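import Pool.Agent.PLX.PB.TRsDb
import Pool.Agent.PLX.PB.TRsD
import Pool.Agent.PHK.TRsA6

/-!
# The particle-hole form (P), (TR), s-path: logarithms of the ratio `regular spectators / legs`

The logarithms `DT w w'` of PLX/PB/TRsDa, signs `sgk`, for the kinds and the lines of (P).

* `At6`: windows: quanta, points `b` and holes `0 ≤ Re u ≤ 6 l / 5`, `L`: `- 3 l / 2 ≤ Re u ≤ - l`, `E`, `F`:
  `- 3 l / 2 ≤ Re u ≤ - 13 l / 10`, `T`: `Re u = - l / 2`; `at6_cst`: the constituents of an object are in the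
  windows, at the height of the object;
* `DT_lim6`: limits of the logarithms; `XXU_ratio6`, **`ZW_eq6`**: `ZW b k u = sgk k * ZLw b k u * exp (DT b k u)`;
* `obT6`: the statistic of an object, `dch6`; **`obT_lim6`**:
  `‖obT6 (DT w w') P x - sgn (ht x) (dch6 x * I (w - w'))‖ ≤ C (1 + M) min 1 (e^{2 (M - |ht x|)})`.
-/

set_option autoImplicit false
set_option linter.unusedSectionVars false
set_option linter.unusedVariables false

noncomputable section

open Complex Finset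
open PLX (Fil)

namespace PBTs.PLX

open NUP1 (l vl)
open NUP1S (O3)
open NUP1.Leg (Ck Dk thE)
open NURow (CC DD)
open PBX (Lg thS ph)
open PBT3 (zz)
open PBTD (DelQ DelQ' DelB DelB' sb KA)
open Pool.Agent.PLX (RRU TTU XXU RU R0)
open NUO PHK

/-! ### windows -/

/-- window for a type: quanta and holes, lines of the objects -/
def At6 : Option O3 → ℂ → Prop
  | none, u => 0 ≤ u.re ∧ u.re ≤ 6 / 5 * l
  | some .L, u => -(3 / 2 * l) ≤ u.re ∧ u.re ≤ -l
  | some .T, u => u.re = -(1 / 2 * l)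
  | some .S, u => -(3 / 2 * l) ≤ u.re ∧ u.re ≤ -(13 / 10 * l)

/-- the quanta of the landed windows -/
theorem At6.of_none {u : ℂ} (h : At none u) : At6 none u := by
  have hl := lp
  obtain ⟨h1, h2⟩ := h
  exact ⟨by linarith, h2⟩

section pos

variable {w w' u : ℂ} (hw : w.re = 5 / 4 * l) (hw' : w'.re = 5 / 4 * l)
include hw hw'

theorem aw_aS6 (hu : At6 (some .T) u ∨ At6 (some .S) u) (i : Fin 8) : Aw (aS w w' i - u) := by
  have hl := lp
  have h : -(3 / 2) * l ≤ u.re ∧ u.re ≤ -(1 / 2) * l := by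
    rcases hu with hu | hu
    · have hu' : u.re = -(1 / 2 * l) := hu
      constructor <;> linarith
    · constructor <;> linarith [hu.1, hu.2]
  obtain ⟨h1, h2⟩ := re_win (re_aS hw hw' i) h.1 h.2
  refine Aw.or h1 h2 ?_
  fin_cases i <;> simp <;> norm_num

theorem aw_bS6 (hu : At6 (some .T) u ∨ At6 (some .S) u) (i : Fin 8) : Aw (bS w w' i - u) := by
  have hl := lp
  rcases hu with hu | hu
  · have hu' : u.re = -(1 / 2 * l) := hu
    obtain ⟨h1, h2⟩ := re_win (u := u) (x := -(1 / 2)) (y := -(1 / 2)) (re_bS hw hw' i)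
      (by linarith) (by linarith)
    refine Aw.or h1 h2 ?_
    fin_cases i <;> simp <;> norm_num
  · obtain ⟨h1, h2⟩ := re_win (u := u) (x := -(3 / 2)) (y := -(13 / 10)) (re_bS hw hw' i)
      (by linarith [hu.1]) (by linarith [hu.2])
    refine Aw.or h1 h2 ?_
    fin_cases i <;> simp <;> norm_num

omit hw hw' in
theorem KA_none6 (hu : At6 none u) : u.re ∈ KA := by
  have hl := lp
  obtain ⟨h1, h2⟩ := hu
  constructor
  · rw [lN]
    linarith
  · rw [lN]
    exact h2

omit hw hw' in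
theorem KA_L6 (hu : At6 (some .L) u) : u.re ∈ KA := by
  have hl := lp
  obtain ⟨h1, h2⟩ := hu
  constructor
  · rw [lN]
    linarith
  · rw [lN]
    linarith

/-- a string -/
theorem exp_S6 (hu : At6 (some .T) u ∨ At6 (some .S) u) (lam : ℂ) :
    exp (plog (aS w w') (bS w w') lam u) = sr (aS w w') (bS w w') u :=
  exp_plog (sr_ne (fun i => (aw_aS6 hw hw' hu i).ne) fun i => (aw_bS6 hw hw' hu i).ne)

theorem alg_S6 (hu : At6 (some .T) u ∨ At6 (some .S) u) (lam : ℂ) :
    thS 0 0 0 0 u * (CC (w - u) * DD (w' - u)) =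
      Lg (zz w w') (zz w w') u * Lg (zz w w') (zz w w') (u - l) *
        exp (plog (aS w w') (bS w w') lam u) := by
  rw [exp_S6 hw hw' hu]
  exact alg_S (aw_bS6 hw hw' hu 7).ne (aw_bS6 hw hw' hu 6).ne (aw_aS6 hw hw' hu 6).ne
    (aw_aS6 hw hw' hu 7).ne

end pos

/-! ### limits -/

/-- strings -/
theorem plogS_le6 {w w' u : ℂ} {M : ℝ} (hw : w.re = 5 / 4 * l) (hw' : w'.re = 5 / 4 * l)
    (iw : |w.im| ≤ M) (iw' : |w'.im| ≤ M) (hu : At6 (some .T) u ∨ At6 (some .S) u) :
    ‖plog (aS w w') (bS w w') (sg1 u.im * (2 * (I * (w - w')))) u -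
        sg1 u.im * (2 * (I * (w - w')))‖ ≤
      cP 8 kap0 * (1 + M) * min 1 (Real.exp (2 * (M - |u.im|))) := by
  have hM : 0 ≤ M := (abs_nonneg _).trans iw
  refine plog_le (s := sg1 u.im) kap0_pos kap0_le hM (sg1_or _) (sg1_mul _) ?_
    (fun i => (aw_aS6 hw hw' hu i).low) (fun i => (aw_bS6 hw hw' hu i).low) (im_aS iw iw')
    (im_bS iw iw')
  unfold lam0
  rw [sum_S]
  congr 1
  ring

/-- **the limits of the logarithms**, all types -/
theorem DT_lim6 : ∃ C : ℝ, 0 ≤ C ∧ ∀ (w w' : ℂ) (M : ℝ), w.re = 5 / 4 * l → w'.re = 5 / 4 * l →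
    |w.im| ≤ M → |w'.im| ≤ M → ∀ (b : Bool) (k : Option O3) (u : ℂ), At6 k u →
      ‖DT w w' b k u - sg1 u.im * (ch k * (sb b * (I * (w - w'))))‖ ≤
        C * (1 + M) * min 1 (Real.exp (2 * (M - |u.im|))) := by
  obtain ⟨C0, hC0, h⟩ := DelB_all
  have hP := cP_nonneg (n := 8) kap0_pos kap0_le
  refine ⟨C0 + cP 8 kap0, by positivity, ?_⟩
  intro w w' M hw hw' iw iw' b k u hu
  have hM : 0 ≤ M := (abs_nonneg _).trans iw
  have hm : 0 ≤ min 1 (Real.exp (2 * (M - |u.im|))) := le_min zero_le_one (Real.exp_pos _).le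
  have c1 : C0 * (1 + M) * min 1 (Real.exp (2 * (M - |u.im|))) ≤
      (C0 + cP 8 kap0) * (1 + M) * min 1 (Real.exp (2 * (M - |u.im|))) := by
    gcongr
    linarith
  have c2 : cP 8 kap0 * (1 + M) * min 1 (Real.exp (2 * (M - |u.im|))) ≤
      (C0 + cP 8 kap0) * (1 + M) * min 1 (Real.exp (2 * (M - |u.im|))) := by
    gcongr
    linarith
  have hS : ∀ k : O3, (k = .T ∨ k = .S) → At6 (some k) u →
      ‖DT w w' b (some k) u - sg1 u.im * (2 * (sb b * (I * (w - w'))))‖ ≤
        cP 8 kap0 * (1 + M) * min 1 (Real.exp (2 * (M - |u.im|))) := by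
    intro k hk hu
    have hu' : At6 (some .T) u ∨ At6 (some .S) u := by
      rcases hk with rfl | rfl
      · exact Or.inl hu
      · exact Or.inr hu
    cases b
    · have h1 := plogS_le6 hw' hw iw' iw hu'
      have e1 : (sg1 u.im : ℂ) * (2 * (I * (w' - w))) =
          sg1 u.im * (2 * (sb false * (I * (w - w')))) := by
        simp only [PBTD.sb, Bool.false_eq_true, if_false]
        push_cast
        ring
      rcases hk with rfl | rfl
      · show ‖plog (aS w' w) (bS w' w) (sg1 u.im * (2 * (I * (w' - w)))) u - _‖ ≤ _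
        rw [← e1]
        exact h1
      · show ‖plog (aS w' w) (bS w' w) (sg1 u.im * (2 * (I * (w' - w)))) u - _‖ ≤ _
        rw [← e1]
        exact h1
    · have h1 := plogS_le6 hw hw' iw iw' hu'
      have e1 : (sg1 u.im : ℂ) * (2 * (I * (w - w'))) =
          sg1 u.im * (2 * (sb true * (I * (w - w')))) := by
        simp only [PBTD.sb, if_true]
        push_cast
        ring
      rcases hk with rfl | rfl
      · show ‖plog (aS w w') (bS w w') (sg1 u.im * (2 * (I * (w - w')))) u - _‖ ≤ _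
        rw [← e1]
        exact h1
      · show ‖plog (aS w w') (bS w w') (sg1 u.im * (2 * (I * (w - w')))) u - _‖ ≤ _
        rw [← e1]
        exact h1
  have h1 : |u.im - u.im| ≤ 1 := by simp
  rcases k with _ | k
  · rw [DT_none]
    refine le_trans (le_of_eq ?_)
      ((((h w w' M hw hw' iw iw' b u (KA_none6 hu)).2.2.2 u.im h1).1).trans c1)
    show ‖_ - _ * (((1 : ℝ) : ℂ) * _)‖ = _
    rw [Complex.ofReal_one, one_mul]
  · cases k
    · rw [DT_L]
      refine le_trans (le_of_eq ?_)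
        ((((h w w' M hw hw' iw iw' b u (KA_L6 hu)).2.2.2 u.im h1).1).trans c1)
      show ‖_ - _ * (((1 : ℝ) : ℂ) * _)‖ = _
      rw [Complex.ofReal_one, one_mul]
    · refine le_trans (le_of_eq ?_) ((hS .S (Or.inr rfl) hu).trans c2)
      show ‖_ - _ * (((2 : ℝ) : ℂ) * _)‖ = _
      rw [Complex.ofReal_ofNat]
    · refine le_trans (le_of_eq ?_) ((hS .T (Or.inl rfl) hu).trans c2)
      show ‖_ - _ * (((2 : ℝ) : ℂ) * _)‖ = _
      rw [Complex.ofReal_ofNat]

/-- all types, on the windows -/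
theorem DT_le6 : ∃ C : ℝ, 0 ≤ C ∧ ∀ (w w' : ℂ) (M : ℝ), w.re = 5 / 4 * l → w'.re = 5 / 4 * l →
    |w.im| ≤ M → |w'.im| ≤ M → ∀ (b : Bool) (k : Option O3) (u : ℂ), At6 k u →
      ‖DT w w' b k u‖ ≤ C * (1 + M) := by
  obtain ⟨C, hC, h⟩ := DT_lim6
  refine ⟨C + 4, by positivity, ?_⟩
  intro w w' M hw hw' iw iw' b k u hu
  have hM : 0 ≤ M := (abs_nonneg _).trans iw
  have h1 := h w w' M hw hw' iw iw' b k u hu
  have h2 : C * (1 + M) * min 1 (Real.exp (2 * (M - |u.im|))) ≤ C * (1 + M) :=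
    mul_le_of_le_one_right (by positivity) (min_le_left _ _)
  have hk : ‖((ch k : ℝ) : ℂ)‖ ≤ 2 := by
    rw [Complex.norm_real]
    rcases k with _ | k
    · simp [ch]
    · cases k <;> simp [ch]
  have h3 : ‖(sg1 u.im : ℂ) * (ch k * (sb b * (I * (w - w'))))‖ ≤ 2 * (2 * M) := by
    rw [norm_mul, norm_mul, norm_mul, norm_sg1, norm_sb, one_mul, one_mul]
    exact mul_le_mul hk (lim_le hw hw' iw iw') (norm_nonneg _) (by norm_num)
  have h4 := norm_sub_norm_le (DT w w' b k u) ((sg1 u.im : ℂ) * (ch k * (sb b * (I * (w - w')))))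
  nlinarith

/-! ### regular = legs times the exponential of the logarithms -/

section ratio

variable {w w' u : ℂ} (hw : w.re = 5 / 4 * l) (hw' : w'.re = 5 / 4 * l)
include hw hw'

/-- **regular = legs times the exponential of the logarithms**, arbitrary rows -/
theorem XXU_ratio6 {m M : ℕ} (c : ℂ) (β : ℝ) (xo : Fin m → ℂ) (xc : Fin M → ℂ) (g g0 : ℂ → ℂ)
    {k : Option O3} (hu : At6 k u) :
    XXU c β xo xc g g0 (fun u => thE 0 0 0 0 u * (Ck (w - u) * Dk (w' - u)))
        (fun u => thS 0 0 0 0 u * (CC (w - u) * DD (w' - u))) k u =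
      sgk k * XXU c β xo xc g g0 (Lg (zz w w') (zz w w'))
        (fun u => Lg (zz w w') (zz w w') u * Lg (zz w w') (zz w w') (u - l)) k u *
          exp (DX w w' k u) := by
  rcases k with _ | k
  · show RRU c xo xc u * ph β xo g u * (thE 0 0 0 0 u * (Ck (w - u) * Dk (w' - u))) =
      -1 * (RRU c xo xc u * ph β xo g u * Lg _ _ u) * exp (DelQ w w' (zz w w') u)
    rw [alg_Q hw hw' (KA_none6 hu)]
    ring
  · cases k
    · show RRU c xo xc u * ph β xo g u * (thE 0 0 0 0 u * (Ck (w - u) * Dk (w' - u))) =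
        -1 * (RRU c xo xc u * ph β xo g u * Lg _ _ u) * exp (DelQ w w' (zz w w') u)
      rw [alg_Q hw hw' (KA_L6 hu)]
      ring
    · show RRU c xo xc u * RRU c xo xc (u - l) * ph (4 / 3) xo g0 u *
          (thS 0 0 0 0 u * (CC (w - u) * DD (w' - u))) =
        1 * (RRU c xo xc u * RRU c xo xc (u - l) * ph (4 / 3) xo g0 u *
          (Lg _ _ u * Lg _ _ (u - l))) *
          exp (plog (aS w w') (bS w w') (sg1 u.im * (2 * (I * (w - w')))) u)
      rw [alg_S6 hw hw' (Or.inr hu) (sg1 u.im * (2 * (I * (w - w'))))]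
      ring
    · show TTU c β (4 / 3) xo xc g g0 u * (thS 0 0 0 0 u * (CC (w - u) * DD (w' - u))) =
        1 * (TTU c β (4 / 3) xo xc g g0 u * (Lg _ _ u * Lg _ _ (u - l))) *
          exp (plog (aS w w') (bS w w') (sg1 u.im * (2 * (I * (w - w')))) u)
      rw [alg_S6 hw hw' (Or.inl hu) (sg1 u.im * (2 * (I * (w - w'))))]
      ring

variable [Fil]

/-- **regular = legs times the exponential of the logarithms** -/
theorem ZW_eq6 (m : ℕ) (β : ℝ) (ex ex0 : List ℂ) (b : Bool) {k : Option O3} (hu : At6 k u) :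
    ZW m β ex ex0 w w' b k u = sgk k * ZLw m β ex ex0 w w' b k u * exp (DT w w' b k u) := by
  cases b
  · rw [← ZLw_comm m β ex ex0 w w' false]
    have h := XXU_ratio6 hw' hw (NUP1.Leg.cc (Fil.q * m)) β (fun _ : Fin (Fil.q * m) => (0 : ℂ))
      (fun _ : Fin m => (0 : ℂ)) (PBX.gP β ex) (PBX.gP (4 / 3) ex0) hu
    refine Eq.trans ?_ h
    have e1 : (fun u => Dk (w - u) * Ck (w' - u)) = fun u => Ck (w' - u) * Dk (w - u) := by
      funext v
      ring
    have e2 : (fun u => DD (w - u) * CC (w' - u)) = fun u => CC (w' - u) * DD (w - u) := by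
      funext v
      ring
    show (R0 m β ex ex0).Ys (fun u => Dk (w - u) * Ck (w' - u))
      (fun u => DD (w - u) * CC (w' - u)) k u = _
    rw [e1, e2]
    rfl
  · exact XXU_ratio6 hw hw' (NUP1.Leg.cc m) β (fun _ : Fin m => (0 : ℂ))
      (fun _ : Fin (Fil.q * m) => (0 : ℂ)) (PBX.gP β ex) (PBX.gP (4 / 3) ex0) hu

end ratio

/-! ### the constituents of an object -/

theorem posL_re (j t : ℝ) : (posL j t).re = (1 - j) * l := vl_re _ _

theorem posL_im (j t : ℝ) : (posL j t).im = t := vl_im _ _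

theorem posB_re (e t : ℝ) : (posB e t).re = (1 - e) * l := by
  unfold PHK.posB
  rw [add_re, posS_re]
  simp
  ring

theorem posB_im (e t : ℝ) : (posB e t).im = t := by
  unfold PHK.posB
  rw [add_im, posS_im]
  simp

/-- **the constituents of an object are in the windows**, at the height of the object -/
theorem at6_cst {P : Par6} (hP : GoodP6 P) (x : Xo) {c : Cst6} (hc : c ∈ cst6 P x) :
    At6 c.1.1.2 c.1.2 ∧ c.1.2.im = ht x := by
  have hl := lp
  have h1 := hP.j1
  have h2 := hP.j1e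
  have h3 := hP.ej2
  have h4 := hP.j2
  have h5 := hP.L2
  have h6 := hP.Lj
  have h7 := hP.e13
  have h8 := hP.e48
  have aS : At6 (some .S) (posS P.e (ht x)) ∧ (posS P.e (ht x)).im = ht x := by
    refine ⟨?_, posS_im _ _⟩
    show -(3 / 2 * l) ≤ (posS P.e (ht x)).re ∧ (posS P.e (ht x)).re ≤ -(13 / 10 * l)
    rw [posS_re]
    constructor <;> nlinarith
  have aB : At6 none (posB P.e (ht x)) ∧ (posB P.e (ht x)).im = ht x := by
    refine ⟨?_, posB_im _ _⟩
    show 0 ≤ (posB P.e (ht x)).re ∧ (posB P.e (ht x)).re ≤ 6 / 5 * l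
    rw [posB_re]
    constructor <;> nlinarith
  rcases hk : k6 x with _ | _ | _ | _ | _ | _
  · rw [cst6_L P hk] at hc
    simp only [List.mem_singleton] at hc
    subst hc
    refine ⟨?_, posL_im _ _⟩
    show -(3 / 2 * l) ≤ (posL P.jL (ht x)).re ∧ (posL P.jL (ht x)).re ≤ -l
    rw [posL_re]
    constructor <;> nlinarith
  · rw [cst6_T P hk] at hc
    simp only [List.mem_singleton] at hc
    subst hc
    exact at_T (ht x)
  · rw [cst6_E P hk] at hc
    simp only [List.mem_cons, List.not_mem_nil, or_false] at hc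
    rcases hc with rfl | rfl
    · exact aS
    · exact aB
  · rw [cst6_F P hk] at hc
    simp only [List.mem_cons, List.not_mem_nil, or_false] at hc
    rcases hc with rfl | rfl | rfl
    · exact aS
    · exact aB
    · exact aB
  · rw [cst6_H1 P hk] at hc
    simp only [List.mem_singleton] at hc
    subst hc
    refine ⟨?_, posL_im _ _⟩
    show 0 ≤ (posL P.j1 (ht x)).re ∧ (posL P.j1 (ht x)).re ≤ 6 / 5 * l
    rw [posL_re]
    constructor <;> nlinarith
  · rw [cst6_H2 P hk] at hc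
    simp only [List.mem_singleton] at hc
    subst hc
    refine ⟨?_, posL_im _ _⟩
    show 0 ≤ (posL P.j2 (ht x)).re ∧ (posL P.j2 (ht x)).re ≤ 6 / 5 * l
    rw [posL_re]
    constructor <;> nlinarith

/-! ### the statistic of an object -/

/-- the total charge of an object: quanta X minus quanta Y -/
def dch6 (x : Xo) : ℂ := (chg6 true x : ℂ) - chg6 false x

theorem norm_dch6 (x : Xo) : ‖dch6 x‖ ≤ 2 := by
  unfold dch6 chg6
  rcases hk : k6 x with _ | _ | _ | _ | _ | _ <;> simp only [] <;> cases sp x <;> norm_num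

theorem sb_not (b : Bool) : ((sb (!b) : ℝ) : ℂ) = -(sb b : ℝ) := by
  cases b <;> simp [PBTD.sb]

/-- the charge is the sum over the constituents -/
theorem dch6_eq (P : Par6) (x : Xo) :
    dch6 x = ((cst6 P x).map fun c => (c.2 : ℂ) * ((ch c.1.1.2 : ℝ) * (sb c.1.1.1 : ℝ))).sum := by
  unfold dch6 chg6
  rcases hk : k6 x with _ | _ | _ | _ | _ | _ <;> simp only []
  · rw [cst6_L P hk]
    cases sp x <;> simp [PBTD.sb, ch]
  · rw [cst6_T P hk]
    cases sp x <;> simp [PBTD.sb, ch]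
  · rw [cst6_E P hk]
    cases sp x <;> simp [PBTD.sb, ch]
  · rw [cst6_F P hk]
    cases sp x <;> simp [PBTD.sb, ch] <;> ring
  · rw [cst6_H1 P hk]
    cases sp x <;> simp [PBTD.sb, ch]
  · rw [cst6_H2 P hk]
    cases sp x <;> simp [PBTD.sb, ch]

theorem norm_list_le {α : Type*} (L : List (α × ℤ)) (f : α → ℂ) {C : ℝ}
    (h : ∀ c ∈ L, ‖f c.1‖ ≤ C) : ‖(L.map fun c => (c.2 : ℂ) * f c.1).sum‖ ≤
      (L.map fun c => |(c.2 : ℝ)|).sum * C := by
  induction L with
  | nil => simp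
  | cons c L ih =>
    rw [List.map_cons, List.sum_cons, List.map_cons, List.sum_cons]
    refine (norm_add_le _ _).trans ?_
    have h1 := h c List.mem_cons_self
    have h2 := ih fun b hb => h b (List.mem_cons_of_mem _ hb)
    have h3 : ‖((c.2 : ℤ) : ℂ)‖ = |(c.2 : ℝ)| := Complex.norm_intCast _
    rw [norm_mul, h3]
    nlinarith [mul_le_mul_of_nonneg_left h1 (abs_nonneg (c.2 : ℝ))]

theorem mult_cst6 (P : Par6) (x : Xo) : ((cst6 P x).map fun c => |(c.2 : ℝ)|).sum ≤ 4 := by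
  rcases hk : k6 x with _ | _ | _ | _ | _ | _
  · rw [cst6_L P hk]
    norm_num
  · rw [cst6_T P hk]
    norm_num
  · rw [cst6_E P hk]
    norm_num
  · rw [cst6_F P hk]
    norm_num
  · rw [cst6_H1 P hk]
    norm_num
  · rw [cst6_H2 P hk]
    norm_num

/-- **the logarithm of an object against its limit** -/
theorem obT_lim6 : ∃ C : ℝ, 0 ≤ C ∧ ∀ (w w' : ℂ) (M : ℝ), w.re = 5 / 4 * l → w'.re = 5 / 4 * l →
    |w.im| ≤ M → |w'.im| ≤ M → ∀ (P : Par6) (x : Xo), GoodP6 P →
      ‖obT6 (DT w w') P x - sg1 (ht x) * (dch6 x * (I * (w - w')))‖ ≤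
        C * (1 + M) * min 1 (Real.exp (2 * (M - |ht x|))) := by
  obtain ⟨C0, hC0, h⟩ := DT_lim6
  refine ⟨4 * C0, by positivity, ?_⟩
  intro w w' M hw hw' iw iw' P x hP
  have hM : 0 ≤ M := (abs_nonneg _).trans iw
  have hm : 0 ≤ min 1 (Real.exp (2 * (M - |ht x|))) := le_min zero_le_one (Real.exp_pos _).le
  have hE0 : 0 ≤ C0 * (1 + M) * min 1 (Real.exp (2 * (M - |ht x|))) := by positivity
  have e1 : obT6 (DT w w') P x - sg1 (ht x) * (dch6 x * (I * (w - w'))) =
      ((cst6 P x).map fun c => (c.2 : ℂ) * (DT w w' c.1.1.1 c.1.1.2 c.1.2 -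
        sg1 (ht x) * (ch c.1.1.2 * (sb c.1.1.1 * (I * (w - w')))))).sum := by
    have e2 : ∀ L : List Cst6, (L.map fun c => (c.2 : ℂ) * (DT w w' c.1.1.1 c.1.1.2 c.1.2 -
        sg1 (ht x) * (ch c.1.1.2 * (sb c.1.1.1 * (I * (w - w')))))).sum =
        (L.map fun c => (c.2 : ℂ) * DT w w' c.1.1.1 c.1.1.2 c.1.2).sum -
        sg1 (ht x) * ((L.map fun c => (c.2 : ℂ) * ((ch c.1.1.2 : ℝ) * (sb c.1.1.1 : ℝ))).sum *
          (I * (w - w'))) := by
      intro L
      induction L with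
      | nil => simp
      | cons c L ih =>
        rw [List.map_cons, List.sum_cons, ih, List.map_cons, List.sum_cons, List.map_cons,
          List.sum_cons]
        ring
    rw [e2, ← dch6_eq P x]
    rfl
  rw [e1]
  have h1 := norm_list_le (cst6 P x) (fun c => DT w w' c.1.1 c.1.2 c.2 -
    sg1 (ht x) * (ch c.1.2 * (sb c.1.1 * (I * (w - w')))))
    (C := C0 * (1 + M) * min 1 (Real.exp (2 * (M - |ht x|)))) fun c hc => by
      obtain ⟨h2, h3⟩ := at6_cst hP x hc
      have h4 := h w w' M hw hw' iw iw' c.1.1.1 c.1.1.2 c.1.2 h2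
      rw [h3] at h4
      exact h4
  refine h1.trans ?_
  have h2 := mul_le_mul_of_nonneg_right (mult_cst6 P x) hE0
  refine h2.trans (le_of_eq ?_)
  ring

/-- modulus of an object -/
theorem obT_le6 : ∃ C : ℝ, 0 ≤ C ∧ ∀ (w w' : ℂ) (M : ℝ), w.re = 5 / 4 * l → w'.re = 5 / 4 * l →
    |w.im| ≤ M → |w'.im| ≤ M → ∀ (P : Par6) (x : Xo), GoodP6 P →
      ‖obT6 (DT w w') P x‖ ≤ C * (1 + M) := by
  obtain ⟨C, hC, h⟩ := obT_lim6
  refine ⟨C + 4, by positivity, ?_⟩
  intro w w' M hw hw' iw iw' P x hP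
  have hM : 0 ≤ M := (abs_nonneg _).trans iw
  have h1 := h w w' M hw hw' iw iw' P x hP
  have h2 : C * (1 + M) * min 1 (Real.exp (2 * (M - |ht x|))) ≤ C * (1 + M) :=
    mul_le_of_le_one_right (by positivity) (min_le_left _ _)
  have h3 : ‖(sg1 (ht x) : ℂ) * (dch6 x * (I * (w - w')))‖ ≤ 2 * (2 * M) := by
    rw [norm_mul, norm_mul, norm_sg1, one_mul]
    exact mul_le_mul (norm_dch6 x) (lim_le hw hw' iw iw') (norm_nonneg _) (by norm_num)
  have h4 := norm_sub_norm_le (obT6 (DT w w') P x)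
    ((sg1 (ht x) : ℂ) * (dch6 x * (I * (w - w'))))
  nlinarith

end PBTs.PLX

end
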