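import Pool.Agent.PLX.PB.TRsD2
import Pool.Agent.PHK.TRsD
import Pool.Agent.PHK.Cst6

/-!
# The particle-hole form (P), (TR), s-path: congruence and signs of the functionals

(P) twin of `PLX/PB/TRsD2a`, `TRsD2b`.

* `FF_congrZ6`: the functional depends on the one body functions at the quanta on the curves and at the constituents
  of the objects only;
* `FF_sgn6`: signs `(-1) ^ quanta` (a hole counts `-1`);
* `ZW_obK6`, `FF_WL6'`: `FF6 (ZW ..) P n n' = (-1) ^ (n + n') * FF6 (expZ (ZLw ..) (DT w w') 1) P n n'`; **`FF_WL6`**: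
  numbers `n`, `n + Fil.xn k`, sign `(-1) ^ Fil.xn k`.
-/

set_option autoImplicit false
set_option linter.unusedSectionVars false
set_option linter.unusedVariables false

noncomputable section

open Complex MeasureTheory Finset
open scoped ENNReal
open PLX (Fil)

namespace PBTs.PLX

open NUO NUP1 NUCR NUP1S NUP1S.Ab NUP1S.AbC NUGC NUGC.PLX PHK
open PBF.PLX (Ins Crs Zm quF expZ)
open PBT3 (zz)
open PBTD (DelQ DelB DelB' sb KA)

variable [Fil]

/-! ### congruence -/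

section congr

variable {Z Z' : Bool → Option O3 → ℂ → ℂ} {P : Par6} {n n' : ℕ} {η η' : Crs}

theorem gK_congrZ6 {r : ℕ} {O : Fin r → Xo} {e e' : ℝ → ℝ}
    (h : ∀ s t, Z s none (NUO.pA (Fil.cv s e) t) = Z' s none (NUO.pA (Fil.cv s e) t)) {a b : ℕ}
    (x : (Fin a → ℝ) × (Fin b → ℝ)) :
    PBF.PLX.gK (gF6 Z P O) e e' a b x = PBF.PLX.gK (gF6 Z' P O) e e' a b x := by
  unfold PBF.PLX.gK Fc
  rw [Fintype.prod_sum_type, Fintype.prod_sum_type]
  have e1 : ∀ (s : Bool) (t : ℝ),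
      hh p0 (gF6 Z P O) (crvC s NUP1.l (dA (Fil.cv s e)) (dA (Fil.cv s e'))) t =
      hh p0 (gF6 Z' P O) (crvC s NUP1.l (dA (Fil.cv s e)) (dA (Fil.cv s e'))) t := by
    intro s t
    rw [hh_G, hh_G]
    unfold gF6
    rw [h]
  simp only [cCt, Sum.elim_inl, Sum.elim_inr, e1]

theorem wK_congrZ6 {r : ℕ} {O : Fin r → Xo} (h : ∀ i, obK6 Z P (O i) = obK6 Z' P (O i)) :
    wK6 Z P O = wK6 Z' P O := by
  unfold wK6
  rw [Finset.prod_congr rfl fun i _ => h i]

/-- **the functional depends on the values on the curve and at the objects** -/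
theorem FF_congrZ6 (Ψ : Ins) (hq : ∀ r ≤ 2 * (n + n'), ∀ᵐ O ∂(Measure.pi fun _ : Fin r => nu),
      ∀ s t, Z s none (NUO.pA (Fil.cv s (η r O)) t) = Z' s none (NUO.pA (Fil.cv s (η r O)) t))
    (ho : ∀ x, obK6 Z P x = obK6 Z' P x) :
    FF6 Z P n n' η η' Ψ = FF6 Z' P n n' η η' Ψ := by
  unfold FF6
  refine Finset.sum_congr rfl fun r hr => ?_
  congr 1
  have hr' : r ≤ 2 * (n + n') := by
    have := Finset.mem_range.1 hr
    omega
  refine integral_congr_ae ?_
  filter_upwards [hq r hr'] with O hO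
  unfold trm6
  split_ifs
  · rw [wK_congrZ6 fun i => ho (O i)]
    simp only [gK_congrZ6 hO]
  · rfl

end congr

/-! ### signs -/

theorem prod_zpow_sum {ι : Type*} (s : Finset ι) (f : ι → ℤ) :
    ∏ i ∈ s, (-1 : ℂ) ^ f i = (-1) ^ ∑ i ∈ s, f i := by
  classical
  induction s using Finset.induction_on with
  | empty => simp
  | insert a s ha ih =>
    rw [Finset.prod_insert ha, Finset.sum_insert ha, zpow_add₀ (by norm_num), ih]

theorem obF_sgF6 (P : Par6) (x : Xo) : obF6 sgF P x = (-1) ^ (chg6 true x + chg6 false x) := by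
  unfold obF6 chg6
  rcases hk : k6 x with _ | _ | _ | _ | _ | _ <;> simp only []
  · rw [cst6_L P hk]
    cases sp x <;> simp [sgF, sgk]
  · rw [cst6_T P hk]
    cases sp x <;> simp [sgF, sgk]
  · rw [cst6_E P hk]
    cases sp x <;> simp [sgF, sgk] <;> norm_num
  · rw [cst6_F P hk]
    cases sp x <;> simp [sgF, sgk] <;> norm_num
  · rw [cst6_H1 P hk]
    cases sp x <;> simp [sgF, sgk]
  · rw [cst6_H2 P hk]
    cases sp x <;> simp [sgF, sgk]

section sgn

variable {Z : Bool → Option O3 → ℂ → ℂ} {P : Par6} {n n' : ℕ} {η η' : Crs}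

theorem Fa_sgF6 {r : ℕ} (O : Fin r → Xo) (a b : ℕ) (x : (Fin a → ℝ) × (Fin b → ℝ)) :
    Fa6 sgF P η r O a b x = (-1) ^ (chgO6 O true + chgO6 O false + ((a : ℤ) + b)) := by
  unfold Fa6
  rw [quF_sgF]
  simp only [obF_sgF6]
  rw [prod_zpow_sum, Finset.sum_add_distrib]
  have e : ((-1 : ℂ)) ^ (a + b) = (-1) ^ ((a : ℤ) + b) := by
    rw [← zpow_natCast]
    push_cast
    rfl
  rw [e, ← zpow_add₀ (by norm_num)]
  rfl

theorem FF_sgn6 (Ψ : Ins) : FF6 (Zm Z sgF) P n n' η η' Ψ = (-1) ^ (n + n') * FF6 Z P n n' η η' Ψ := by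
  unfold FF6
  rw [Finset.mul_sum]
  refine Finset.sum_congr rfl fun r _ => ?_
  have e0 : ∀ O : Fin r → Xo, trm6 (Zm Z sgF) P n n' η η' Ψ r O =
      (-1) ^ (n + n') * trm6 Z P n n' η η' Ψ r O := by
    intro O
    rw [trm6_mul]
    unfold trm6
    split_ifs with h
    · obtain ⟨h1, h2, h3⟩ := h
      have e : ∀ x, Fa6 sgF P η r O (nA6 n O true) (nA6 n' O false) x = (-1) ^ (n + n') := by
        intro x
        rw [Fa_sgF6, ← zpow_natCast]
        congr 1
        unfold nA6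
        omega
      simp only [e]
      have e2 : ∀ x, PBF.PLX.gK (gF6 Z P O) (η r O) (η' r O) (nA6 n O true) (nA6 n' O false) x *
          ((-1) ^ (n + n') * Ψ r O (nA6 n O true) (nA6 n' O false) x) =
          (-1) ^ (n + n') * (PBF.PLX.gK (gF6 Z P O) (η r O) (η' r O) (nA6 n O true)
            (nA6 n' O false) x * Ψ r O (nA6 n O true) (nA6 n' O false) x) :=
        fun x => by ring
      simp only [e2]
      rw [integral_const_mul]
      ring
    · rw [mul_zero]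
  simp only [e0]
  rw [integral_const_mul]
  ring

end sgn

/-! ### regular = family at `s = 1` -/

/-- a point of the curve -/
theorem at_A6 {e : ℝ → ℝ} {t : ℝ} (h : |e t| ≤ NUP1.l / 5) : At6 none (NUO.pA e t) :=
  At6.of_none (at_A h)

theorem norm_sgk6 (k : Option O3) : ‖sgk k‖ = 1 := by
  rcases k with _ | k
  · simp [sgk]
  · cases k <;> simp [sgk]

/-- one body functions which agree in the windows -/
theorem obK6_congr {Z Z' : Bool → Option O3 → ℂ → ℂ} {P : Par6} (hP : GoodP6 P)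
    (h : ∀ b k u, At6 k u → Z b k u = Z' b k u) (x : Xo) : obK6 Z P x = obK6 Z' P x := by
  unfold obK6
  congr 2
  refine List.map_congr_left fun c hc => ?_
  rw [h _ _ _ (at6_cst hP x hc).1]

section WL

variable {w w' : ℂ} (hw : w.re = 5 / 4 * NUP1.l) (hw' : w'.re = 5 / 4 * NUP1.l)
include hw hw'

theorem ZW_pt6 (m : ℕ) (β : ℝ) (ex ex0 : List ℂ) (b : Bool) {k : Option O3} {u : ℂ} (hu : At6 k u) :
    ZW m β ex ex0 w w' b k u =
      Zm (expZ (ZLw m β ex ex0 w w') (DT w w') 1) sgF b k u := by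
  rw [ZW_eq6 hw hw' m β ex ex0 b hu]
  unfold PBF.PLX.Zm PBF.PLX.expZ sgF
  rw [one_mul]
  ring

theorem ZW_obK6 (m : ℕ) (β : ℝ) (ex ex0 : List ℂ) {P : Par6} (hP : GoodP6 P) (x : Xo) :
    obK6 (ZW m β ex ex0 w w') P x =
      obK6 (Zm (expZ (ZLw m β ex ex0 w w') (DT w w') 1) sgF) P x :=
  obK6_congr hP (fun b _ _ hu => ZW_pt6 hw hw' m β ex ex0 b hu) x

variable {P : Par6} (hP : GoodP6 P) {n n' : ℕ} {η η' : Crs}
include hP

/-- **regular functional = functional of the family at `s = 1`, with the sign** -/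
theorem FF_WL6' (m : ℕ) (β : ℝ) (ex ex0 : List ℂ)
    (hη : ∀ r ≤ 2 * (n + n'), ∀ᵐ O ∂(Measure.pi fun _ : Fin r => nu), ∀ t, |η r O t| ≤ NUP1.l / 5)
    (Ψ : Ins) : FF6 (ZW m β ex ex0 w w') P n n' η η' Ψ =
      (-1) ^ (n + n') * FF6 (expZ (ZLw m β ex ex0 w w') (DT w w') 1) P n n' η η' Ψ := by
  rw [← FF_sgn6]
  refine FF_congrZ6 Ψ (fun r hr => ?_) fun x => ZW_obK6 hw hw' m β ex ex0 hP x
  filter_upwards [hη r hr] with O hO
  exact fun s t => ZW_pt6 hw hw' m β ex ex0 s (at_A6 (Fil.abs_cv_le_of (hO t)))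

/-- **regular functional = functional of the family at `s = 1`**, numbers `n`, `n + Fil.xn k` -/
theorem FF_WL6 (m : ℕ) (β : ℝ) (ex ex0 : List ℂ) (k : ℕ)
    (hη : ∀ r ≤ 2 * (n + (n + Fil.xn k)), ∀ᵐ O ∂(Measure.pi fun _ : Fin r => nu),
      ∀ t, |η r O t| ≤ NUP1.l / 5)
    (Ψ : Ins) : FF6 (ZW m β ex ex0 w w') P n (n + Fil.xn k) η η' Ψ =
      (-1) ^ Fil.xn k * FF6 (expZ (ZLw m β ex ex0 w w') (DT w w') 1) P n (n + Fil.xn k)
        η η' Ψ := by
  rw [FF_WL6' hw hw' hP m β ex ex0 hη Ψ, ← add_assoc, pow_add, Even.neg_one_pow ⟨n, rfl⟩, one_mul]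

end WL

end PBTs.PLX

end
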