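import Pool.Agent.PHK.ClsCrv6
import Pool.Agent.PHK.LogD6
import Pool.Agent.PLX.PB.TRsQ

/-!
# (P), (TR), s-path: regularity of the family `Z e^{s D}` (six kinds)

(P) twin of `PLX/PB/TRsQ`; `DOk` (the logarithms of the quanta are analytic and bounded in the strip
`Ks δ`), `norm_exp_mul_le`, `bdd_exp` are the landed ones.
* `DOk6`: the same on `Ks6 δ`; `DOk6.of`: from the landed one, `δ ≤ 1 / 20`;
* `QOk6.expZ`, `LogD6.expZ`: the hypotheses of the class formula and of the curves for `expZ Z D s`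
  from those of `Z`.
-/

set_option autoImplicit false
set_option linter.unusedSectionVars false

noncomputable section

open Complex MeasureTheory Finset
open scoped ENNReal
open PLX (Fil)

namespace PHK

open NUO NUP1 NUP1S NUP1S.Ab NUP1S.AbC NUGC NUGC.PLX NUCR
open PBF.PLX (expZ bdd_exp DOk)

variable {Z D : Bool → Option O3 → ℂ → ℂ} {P : Par6} {δ κ κ' : ℝ} {Q : ℤ}

/-- the logarithms of the quanta are analytic and bounded in the strip `Ks6 δ` -/
structure DOk6 (D : Bool → Option O3 → ℂ → ℂ) (D1 : Bool → ℂ → ℂ) (δ B : ℝ) : Prop where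
  m : ∀ s, Measurable (D s none)
  m1 : ∀ s, Measurable (D1 s)
  d : ∀ s (u : ℂ), u.re ∈ Ks6 δ → HasDerivAt (D s none) (D1 s u) u
  b : ∀ s (u : ℂ), u.re ∈ Ks6 δ → ‖D s none u‖ ≤ B
  b1 : ∀ s (u : ℂ), u.re ∈ Ks6 δ → ‖D1 s u‖ ≤ B

theorem DOk6.of {D1 : Bool → ℂ → ℂ} {B : ℝ} (h : DOk D D1 δ B) (hδ : δ ≤ 1 / 20) :
    DOk6 D D1 δ B :=
  ⟨h.m, h.m1, fun s u hu => h.d s u (Ks6_sub hδ hu), fun s u hu => h.b s u (Ks6_sub hδ hu),
    fun s u hu => h.b1 s u (Ks6_sub hδ hu)⟩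

theorem QOk6.expZ (h : QOk6 Z δ κ Q) {D1 : Bool → ℂ → ℂ} {B : ℝ} (hD : DOk6 D D1 δ B) (t : ℂ) :
    QOk6 (expZ Z D t) δ κ Q where
  kpos := h.kpos
  m s := (h.m s).mul (Complex.measurable_exp.comp ((hD.m s).const_mul t))
  d s u hu := (h.d s u hu).mul (((hD.d s u hu).differentiableAt).const_mul t).cexp
  b s := bdd_exp (h.b s) (hD.b s) t

/-- **log derivatives of the family** -/
theorem LogD6.expZ {LZ : Bool → ℂ → ℂ} {LP : (r : ℕ) → (Fin r → Xo) → Bool → ℂ → ℂ}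
    (h : LogD6 Z P δ LZ LP) {D1 : Bool → ℂ → ℂ} {B : ℝ} (hD : DOk6 D D1 δ B) (t : ℂ) :
    LogD6 (expZ Z D t) P δ (fun s z => LZ s z + t * D1 s z) LP where
  dZ s z hz := by
    have h1 := (h.dZ s z hz).mul (((hD.d s z hz).const_mul t).cexp)
    refine h1.congr_deriv ?_
    unfold PBF.PLX.expZ
    ring
  mZ s := (h.mZ s).add ((hD.m1 s).const_mul t)
  bZ := by
    obtain ⟨A, hA⟩ := h.bZ
    refine ⟨A + ‖t‖ * B, fun s z hz => (norm_add_le _ _).trans (add_le_add (hA s z hz) ?_)⟩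
    rw [norm_mul]
    exact mul_le_mul_of_nonneg_left (hD.b1 s z hz) (norm_nonneg _)
  dP := h.dP
  mP := h.mP
  bP := h.bP

end PHK

end
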