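import Pool.Agent.PHK.TRsB6
import Pool.Agent.PHK.TRsD2
import Pool.Agent.PHK.TRsQ6
import Pool.Agent.PLX.PB.TRsD3

/-!
# The particle-hole form (P), (TR), s-path: the data of the path for `D = DT w w'`

* **`DT_PathD6`**: `PathD6` with the bound `C (1 + M)`, `M ≥ |Im w|, |Im w'|`, for measurable one body functions,
  parameters `GoodP6`, measurable curves `|η| ≤ l / 5`;
* **`DT_DOk6`**: `DOk6 (DT w w') (DelB' w w' (zz w w')) δ (C (1 + M))`, `δ ≤ 1/20`.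
-/

set_option autoImplicit false
set_option linter.unusedSectionVars false
set_option linter.unusedVariables false

noncomputable section

open Complex MeasureTheory Finset
open scoped ENNReal
open PLX (Fil)

namespace PBTs.PLX

open NUO NUP1 NUCR NUP1S NUP1S.Ab NUP1S.AbC NUGC NUGC.PLX PBF PBF.PLX PHK
open PBT3 (zz)
open PBTD (DelQ DelB DelQ' DelB' sb KA ct)

variable [Fil]

/-- **the data of the path** -/
theorem DT_PathD6 : ∃ C : ℝ, 0 ≤ C ∧ ∀ (w w' : ℂ) (M : ℝ), w.re = 5 / 4 * NUP1.l →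
    w'.re = 5 / 4 * NUP1.l → |w.im| ≤ M → |w'.im| ≤ M →
    ∀ (Z : ℕ → Bool → Option O3 → ℂ → ℂ) (P : ℕ → Par6) (N : ℕ) (η η' : ℕ → Crs),
      (∀ n ≤ N, ∀ s k, Measurable (Z n s k)) → (∀ n ≤ N, GoodP6 (P n)) → (∀ n ≤ N, MCr (η n) (η' n)) →
      (∀ n ≤ N, ∀ (r : ℕ) (O : Fin r → Xo) t, |η n r O t| ≤ NUP1.l / 5) →
      PathD6 Z (fun _ => DT w w') P N η η' (C * (1 + M)) := by
  obtain ⟨C1, hC1, h1⟩ := obT_le6
  obtain ⟨C2, hC2, h2⟩ := DT_le6
  refine ⟨C1 + C2, by positivity, ?_⟩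
  intro w w' M hw hw' iw iw' Z P N η η' hZ hP hc hη
  have hM : 0 ≤ M := (abs_nonneg _).trans iw
  have hM1 : 0 ≤ 1 + M := by linarith
  refine ⟨hZ, fun n hn s k => measurable_DT w w' s k, hc, by positivity, ?_, ?_⟩
  · intro n hn r O s t
    refine (h2 w w' M hw hw' iw iw' s none _ (at_A6 (Fil.abs_cv_le_of (hη n hn r O t)))).trans ?_
    nlinarith
  · intro n hn r O i
    refine (h1 w w' M hw hw' iw iw' (P n) (O i) (hP n hn)).trans ?_
    nlinarith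

omit [Fil] in
/-- **the logarithms of the quanta are analytic and bounded in the strip of (P)** -/
theorem DT_DOk6 : ∃ C : ℝ, 0 ≤ C ∧ ∀ (w w' : ℂ) (M : ℝ), w.re = 5 / 4 * NUP1.l →
    w'.re = 5 / 4 * NUP1.l → |w.im| ≤ M → |w'.im| ≤ M → ∀ δ : ℝ, δ ≤ 1 / 20 →
      DOk6 (DT w w') (DelB' w w' (zz w w')) δ (C * (1 + M)) := by
  obtain ⟨C, hC, h⟩ := DT_DOk
  exact ⟨C, hC, fun w w' M hw hw' iw iw' δ hδ => DOk6.of (h w w' M hw hw' iw iw' δ (by linarith)) hδ⟩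

end PBTs.PLX

end
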