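import Pool.Agent.PLX.PB.TRFin2
import Pool.Agent.PHK.FNeq6
import Pool.Agent.PHK.ConfM
import Pool.Agent.PHK.BsR6
import Pool.Agent.PHK.TRsD3
import Pool.Agent.PHK.TRsV6

/-!
# The particle-hole form (P), (TR) along a ray, top level: the two ends of the `s`-path

(P) twin of `PLX/PB/TRFin2`.

* `SW6 ep e1 J k τ`: the class W W of the regular function at the heights `τ`, summed over the numbers of quanta,
  with the sign `(-1) ^ Fil.xn (k - 1)`;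
* `PD6`, `PI6`, `pathD_v6`: data of the path;
* **`nFv_zero6`**: `nFv6 ep e1 J k τ 0 = f0Q q (k - 1) (zt τ)` from the class formula `FFth`, `k` large;
  **`nFv_one6`**: `nFv6 .. 1 = Rk (SW6 ep e1 J) k τ`;
* **`h3_of6`**: (H3) of `trP_of` from the estimate of `nFv6` between the two ends.
-/

set_option autoImplicit false
set_option linter.unusedSectionVars false

noncomputable section

open Complex MeasureTheory Set Filter Topology

open PLX (Fil)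

namespace PBTRF.PLX

open NUP1 (l)
open NUGC.PLX (beC etaC etaC')
open NUP1S (O3)
open NUCR (CurB)
open PBFunc (WI F)
open PHK (FF6 FFN6 FAN6 wN6 mN6 evN6 CfN6 par6)
open PBF.PLX (expZ expN nF6 nF'6 PathD6)
open PBR.PLX (RZW R06)
open Pool.Agent.PB (Pf)
open Pool.Agent.PLX (f0Q EX rwq FFth PhI6 GF6 gF6_gO Rws_rwq)
open PBT3 (wt zt pF gF k1T)
open PBTR (nearS)
open PBU.PLX (cr cr')
open PBTV.PLX (Zv6 gV6 rws0 Dv Pv κv nFv6 wa wb nk rv okv)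

attribute [local instance] NUSea.seaP

variable [Fil]

/-- the class W W, summed over the numbers of quanta -/
def SW6 (ep e1 J : ℝ) (k : ℕ) (τ : ℝ × ℝ) : ℂ :=
  (-1) ^ Fil.xn (k - 1) * ∑ n ∈ Finset.range (2 * (k - 1) + 1),
    FF6 (RZW (R06 (k - 1) (beC ep) [I, -I] (gV6 k true) (gV6 k false)) (wt τ.1) (wt τ.2)) par6 n (n + Fil.xn (k - 1))
      (cr e1 J k) (cr' e1 J k) (fun _ _ _ _ _ => 1)

/-- data of the path -/
def PD6 (ep e1 J : ℝ) (k : ℕ) (τ : ℝ × ℝ) (B : ℝ) : Prop :=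
  PathD6 (fun _ => Zv6 ep k τ) (fun _ => Dv τ) (fun _ => par6) (2 * (k - 1))
    (fun _ => cr e1 J k) (fun _ => cr' e1 J k) B

/-- integrability at the left end -/
def PI6 (ep e1 J : ℝ) (k : ℕ) (τ : ℝ × ℝ) : Prop :=
  WI (mN6 (2 * (k - 1))) (wN6 (fun _ => Zv6 ep k τ) (fun _ => par6) (2 * (k - 1))
    (fun _ => cr e1 J k) (fun _ => cr' e1 J k) (fun _ => Pv k τ)) (fun _ => 1)

/-- the one body functions are measurable -/
theorem meas_Zv6 (ep : ℝ) (k : ℕ) (τ : ℝ × ℝ) (a : Bool) (q : Option O3) :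
    Measurable (Zv6 ep k τ a q) :=
  Pool.Agent.PLX.measurable_XXU (PBX.measurable_gP _ _) (PBTV.PLX.meas_gV6 k a) (PBX.Lg_meas _ _)
    ((PBX.Lg_meas _ _).mul ((PBX.Lg_meas _ _).comp (measurable_id.sub_const _))) q

/-- **data of the path** -/
theorem pathD_v6 {e1 J : ℝ} (he1 : 0 < e1) (he1' : e1 ≤ 1 / 100) (hJ : 0 ≤ J) (ep : ℝ) :
    ∃ k0 : ℕ, ∀ k ≥ k0, ∀ τ : ℝ × ℝ, ∃ B, PD6 ep e1 J k τ B := by
  have hl := PBR.l_pos'
  obtain ⟨C, hC, H⟩ := PBTs.PLX.DT_PathD6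
  obtain ⟨m0, hm0, hcur⟩ := PBF.PLX.curZ_crs he1 he1' hJ (ep := 1 / 5) (by norm_num)
  refine ⟨m0, fun k hk τ => ⟨C * (1 + max |τ.1| |τ.2|), ?_⟩⟩
  refine H (wa τ) (wb τ) _ (PBT3.wt_re _) (PBT3.wt_re _) ?_ ?_ _ _ _ _ _ ?_ ?_ ?_ ?_
  · show |(wt τ.1).im| ≤ _
    rw [PBT3.wt_im]
    exact le_max_left _ _
  · show |(wt τ.2).im| ≤ _
    rw [PBT3.wt_im]
    exact le_max_right _ _
  · exact fun n _ s q => meas_Zv6 _ _ _ s q
  · exact fun n _ => PHK.par6_good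
  · exact fun n _ => mCr_cr e1 J k
  · intro n _ r O t
    have h := (hcur k hk r O).h1 t
    refine h.trans ?_
    linarith

section ends

variable {ep e1 J : ℝ} {k : ℕ} {τ : ℝ × ℝ} {B : ℝ}

/-- the functional on the path as the sum over the numbers of quanta -/
theorem nFv_eq6 (h : PD6 ep e1 J k τ B) (hI : PI6 ep e1 J k τ) (s : ℝ) :
    nFv6 ep e1 J k τ s = Complex.exp (-(s * κv k τ)) * (Pv k τ *
      ∑ n ∈ Finset.range (2 * (k - 1) + 1), FF6 (expZ (Zv6 ep k τ) (Dv τ) s) par6 n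
        (n + Fil.xn (k - 1)) (cr e1 J k) (cr' e1 J k) (fun _ _ _ _ _ => 1)) := by
  have hm := PathD6.mc h (s : ℂ)
  have hW := PathD6.wi h hI (s : ℂ)
  have hΨ : ∀ n ≤ 2 * (k - 1), PBF.PLX.MIn ((fun _ _ _ _ _ _ => (1 : ℂ) : ℕ → PBF.PLX.Ins) n) :=
    fun n _ r a b => measurable_const
  have h4 : (evN6 (fun _ _ _ _ _ _ => (1 : ℂ)) : CfN6 (2 * (k - 1)) → ℂ) = fun _ => 1 := rfl
  have hf : FAN6 (expN (fun _ => Zv6 ep k τ) (fun _ => Dv τ) s) (fun _ => par6)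
      (2 * (k - 1)) (fun _ => cr e1 J k) (fun _ => cr' e1 J k) (fun _ => Pv k τ)
      (fun _ _ _ _ _ _ => 1) < ⊤ := by
    rw [PHK.FAN6_eq hm hΨ, h4]
    have h2 := hW.2
    unfold HasFiniteIntegral at h2
    simpa only [enorm_mul] using h2
  have h3 := PHK.FFN6_eq hm hΨ hf
  rw [h4] at h3
  unfold nFv6 nF6
  rw [one_mul, ← h3]
  unfold FFN6
  rw [← Finset.mul_sum, PBF.PLX.dN_two]
  rfl

/-- the cutoffs over the rows `0` have no zero in the strip of the holes, `k` large -/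
theorem phI_v6 : ∃ k0 : ℕ, ∀ k ≥ k0, ∀ β : ℝ, 0 < β → β ≤ 4 / 3 →
    PhI6 (N := fun a => cond a (k - 1) (Fil.q * (k - 1))) β (rwq fun _ : Fin (k - 1) => (0 : ℂ))
      (fun _ => [I, -I]) := by
  obtain ⟨m0, hm0⟩ := exists_nat_ge (2 ^ 14 * Real.exp (8 / 3 * 1) * ((Fil.q * 0 + 2 : ℕ) : ℝ))
  refine ⟨max m0 1 + 1, fun k hk β h0 h1 => ?_⟩
  have k1 : m0 ≤ k - 1 := by omega
  have k2 : 1 ≤ k - 1 := by omega
  refine PHK.phI6_rwq (m := k - 1) (n0 := 0) (n1 := 2) (h0 := 1) (K := k - 1) (E := []) h0 h1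
    zero_le_one ⟨?_, by simp, by simp, by simp⟩ (fun _ => le_rfl) (fun _ => PHK.re_II) (fun _ w hw => ?_) k2
    (hm0.trans (by exact_mod_cast k1))
  · rw [List.append_nil, List.ofFn_const]
  · rw [List.mem_cons, List.mem_singleton] at hw
    rcases hw with rfl | rfl
    · rw [Complex.I_im]; norm_num
    · rw [Complex.neg_im, Complex.I_im]; norm_num

/-- **left end** -/
theorem nFv_zero6 (hFF : FFth) (hφ : PhI6 (N := fun a => cond a (k - 1) (Fil.q * (k - 1))) (beC ep)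
      (rwq fun _ : Fin (k - 1) => (0 : ℂ)) (fun _ => [I, -I]))
    (h : PD6 ep e1 J k τ B) (hI : PI6 ep e1 J k τ) (hep0 : 0 < ep)
    (hep : ep ≤ 1 / 100) (hcur : CurB ep (etaC e1 J k k) (etaC' e1 J k k)) :
    nFv6 ep e1 J k τ 0 = f0Q Fil.q (k - 1) (zt τ) := by
  have hl := PBR.l_pos'
  obtain ⟨z1, z2⟩ := zt_mem τ
  rw [nFv_eq6 h hI 0, ofReal_zero, PBF.PLX.expZ_zero, zero_mul, neg_zero, Complex.exp_zero, one_mul]
  unfold Pv f0Q
  exact (PHK.fN_FF6 hFF PHK.par6_good Pool.Agent.PLX.hI6_par6 hep0 hep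
    (g0 := gV6 k) (β := 4 / 3 * (1 - ep)) (by linarith) (by linarith)
    (rws0 (k - 1)) (ex := fun _ => [I, -I]) (fun _ => PHK.re_II)
    (fun a => gF6_gO _ (Rws_rwq (rws0 (k - 1)) a) (by simp)) hφ z1.le (by linarith)
    (η := fun _ => cr e1 J k) (η' := fun _ => cr' e1 J k)
    fun n _ r _ => Filter.Eventually.of_forall fun _ => hcur).symm

/-- **right end** -/
theorem nFv_one6 (h : PD6 ep e1 J k τ B) (hI : PI6 ep e1 J k τ) (hep : ep ≤ 1 / 100)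
    (hcur : CurB ep (etaC e1 J k k) (etaC' e1 J k k)) :
    nFv6 ep e1 J k τ 1 = Rk (SW6 ep e1 J) k τ := by
  have hl := PBR.l_pos'
  rw [nFv_eq6 h hI 1, ofReal_one, one_mul, exp_κv]
  have e2 : SW6 ep e1 J k τ = ∑ n ∈ Finset.range (2 * (k - 1) + 1),
      FF6 (expZ (Zv6 ep k τ) (Dv τ) 1) par6 n (n + Fil.xn (k - 1)) (cr e1 J k) (cr' e1 J k)
        (fun _ _ _ _ _ => 1) := by
    unfold SW6
    rw [Finset.mul_sum]
    refine Finset.sum_congr rfl fun n _ => ?_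
    have h2 := PBTs.PLX.FF_WLg (PBT3.wt_re τ.1) (PBT3.wt_re τ.2) PHK.par6_good (n := n) (k - 1) (beC ep)
      [I, -I] (gV6 k) (k - 1) (η := cr e1 J k) (η' := cr' e1 J k)
      (fun r _ => Filter.Eventually.of_forall fun _ t => by
        have h := hcur.h1 t
        refine h.trans ?_
        nlinarith) (fun _ _ _ _ _ => 1)
    rw [h2, ← mul_assoc, ← mul_pow, neg_one_mul, neg_neg, one_pow, one_mul]
    rfl
  unfold Rk
  rw [e2]
  show EMk k τ * (Pv k τ * _) = Pk k (zt τ) * EMk k τ * _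
  have e3 : Pv k τ = Pk k (zt τ) := rfl
  rw [e3]
  ring

end ends

/-- **(H3)** from the estimate of `nFv6` between the two ends -/
theorem h3_of6 (hFF : FFth) {ep e1 J c1 : ℝ} (hep0 : 0 < ep) (hep : ep ≤ 1 / 100) (he1 : 0 < e1)
    (he1' : e1 ≤ 1 / 100) (hJ : 0 ≤ J)
    (hI : ∀ᶠ k : ℕ in atTop, ∀ τ : ℝ × ℝ, okv k τ → PI6 ep e1 J k τ)
    (hE : ∀ᶠ k : ℕ in atTop, ∀ τ : ℝ × ℝ, okv k τ →
      ‖k1T τ‖ * ‖nFv6 ep e1 J k τ 1 - Complex.exp (gF τ) * nFv6 ep e1 J k τ 0‖ ≤ (k : ℝ) ^ (-c1)) :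
    ∀ᶠ k : ℕ in atTop, ∀ τ ∈ nearS (3 / 8 + 1 / 20) k,
      ‖k1T τ‖ * ‖Rk (SW6 ep e1 J) k τ - Complex.exp (gF τ) * f0Q Fil.q (k - 1) (zt τ)‖ ≤
        (k : ℝ) ^ (-c1) := by
  obtain ⟨m0, hm0, hcur⟩ := PBF.PLX.curZ_crs he1 he1' hJ hep0
  obtain ⟨m1, hP⟩ := pathD_v6 he1 he1' hJ ep
  obtain ⟨m2, hph⟩ := phI_v6
  filter_upwards [hI, hE, eventually_ge_atTop m0, eventually_ge_atTop m1, eventually_ge_atTop m2] with
    k g1 g2 g3 g4 g5 τ hτ
  have hok : okv k τ := by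
    have h : PBTR.mT τ ≤ (3 / 8 + 1 / 20) * Real.log k := hτ
    show 2 * |τ.1| + 2 * |τ.2| + |τ.1 - τ.2| / 2 ≤ 17 / 40 * Real.log k
    have h2 : (3 / 8 + 1 / 20 : ℝ) * Real.log k = 17 / 40 * Real.log k := by ring
    rw [h2] at h
    exact h
  obtain ⟨B, hB⟩ := hP k g4 τ
  have hc : CurB ep (etaC e1 J k k) (etaC' e1 J k k) := hcur k g3 0 (fun i => i.elim0)
  rw [← nFv_one6 hB (g1 τ hok) hep hc, ← nFv_zero6 hFF (hph k g5 _ (by unfold NUGC.PLX.beC; linarith)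
    (by unfold NUGC.PLX.beC; linarith)) hB (g1 τ hok) hep0 hep hc]
  exact g2 τ hok

end PBTRF.PLX

end
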