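import Pool.Agent.PHK.TRFin26
import Pool.Agent.PHK.UBN6

/-!
# The particle-hole form (P), (TR) along a ray, top level: integrability at the left end

* `PI_ev6`: integrability at the left end from `UX6 famV6`.
-/

set_option autoImplicit false
set_option linter.unusedSectionVars false

noncomputable section

open Complex MeasureTheory Set Filter Topology
open scoped ENNReal
open PLX (Fil)

namespace PBTRF.PLX

open NUP1 (l)
open PHK (FAN6 CfN6 wN6 mN6 par6 MC6)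
open PBT3 (gF k1T)
open PBTR (nearS)
open PBU.PLX (cr cr' FS6 UX6 UB6)
open PBTV.PLX (Zv6 nFv6 okv famV6)

attribute [local instance] NUSea.seaP

variable [Fil]

/-- **integrability at the left end** from a bound of the mass -/
theorem PI_of6 {ep e1 J M : ℝ} {k : ℕ} {τ : ℝ × ℝ}
    (h : FS6 famV6 ep e1 J k τ (fun _ => 1) (fun _ _ _ _ _ => 1) ≤ ENNReal.ofReal M) :
    PI6 ep e1 J k τ := by
  have hMC : ∀ n ≤ 2 * (k - 1), MC6 (Zv6 ep k τ) par6 (cr e1 J k) (cr' e1 J k) :=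
    fun n _ => MC6.of (fun s q => meas_Zv6 _ _ _ s q) (mCr_cr e1 J k)
  have hΨ : ∀ j ≤ 2 * (k - 1), PBF.PLX.MIn ((fun _ _ _ _ _ _ => (1 : ℂ) : ℕ → PBF.PLX.Ins) j) :=
    fun j _ r a b => measurable_const
  refine PHK.WIN_of6 (Ψ := fun _ _ _ _ _ _ => (1 : ℂ)) hMC hΨ ?_
  refine lt_of_le_of_lt (le_trans (le_of_eq ?_) h) ENNReal.ofReal_lt_top
  unfold FAN6 FS6
  refine Finset.sum_congr rfl fun n _ => ?_
  rw [PBF.PLX.FA_eq_FE6, one_mul]
  simp only [enorm_one]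
  rfl

/-- the same for all indices -/
theorem PI_ev6 (hV : UX6 famV6) : ∃ a0 : ℝ, 0 < a0 ∧ ∀ ep e1 J : ℝ, 0 < ep → 0 < e1 → 0 ≤ J →
    Real.exp (-(2 * Real.pi * J)) + 3 * e1 + 3 * ep ≤ a0 →
    ∀ᶠ k : ℕ in atTop, ∀ τ : ℝ × ℝ, okv k τ → PI6 ep e1 J k τ := by
  obtain ⟨a0, ha0, h⟩ := hV 0 1 1 one_pos
  refine ⟨a0, ha0, fun ep e1 J hep he1 hJ hs => ?_⟩
  obtain ⟨m0, hm⟩ := (h ep e1 J hep he1 hJ hs).mass le_rfl
  filter_upwards [eventually_ge_atTop m0] with k hk τ hτ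
  exact PI_of6 (hm k hk τ hτ)

end PBTRF.PLX

end
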