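import Pool.Agent.PHK.TRFin56
import Pool.Agent.PHK.Mst06
import Pool.Agent.PHK.TRsR6
import Pool.Agent.PHK.ClsFF6
import Pool.Agent.PHK.ClsA6
import Pool.Agent.PHK.WordThB
import Pool.Agent.PHK.WordThZ

/-!
# (P): the transfer on every ray

* **`tRq_P`**: `TRq q` for every `q ≥ 1`, no hypothesis.
-/

set_option autoImplicit false
set_option linter.style.haveILetI false

noncomputable section

open PLX (Fil)

namespace Pool.Agent.PLX

open PBTRF.PLX PBR.PLX

/-- **the transfer on every ray** -/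
theorem tRq_P (q : ℕ) (hq : 1 ≤ q) : TRq q := by
  letI F : Fil := ⟨q, hq⟩
  have hFF : FFth := ffth_of_word PHK.wordTh
  have hA : @PBO.PLX.ClsA06 F := PBO.PLX.clsA06 PHK.wordThZ hFF
  exact tRq6 hFF (PBTW.PLX.ux_famW6 PHK.stabProd_par6) (mstV6 PHK.stabProd_par6 hFF hA)
    (ms_R6 hFF fun k => PBTR.winW (3 / 8) k)

end Pool.Agent.PLX

end
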