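import Pool.Agent.PHK.TRsF6
import Pool.Agent.PHK.TRsD3
import Pool.Agent.PHK.LPoM6
import Pool.Agent.PLX.PB.TRsN

/-!
# (P), (TR): the hypotheses of the mean statement on the literal data (six kinds)

(P) twin of `PLX/PB/TRsN`; the data without kinds, `clZ_v`, `dok_v`, `lzok_v`, `sea_v`, `fld_v`, `eL_v`, `iE_v`
are the landed ones.

* `qok_v6`: the class of the quanta; `logD_v6`: the log derivative; `meas_Zv6`;
* **`mean_v6`**: `MeanH6`, every `τ`, every complex `s`, for `k` large; `meanP6`;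
* **`path_v6`**: `PathD6` with the bound `C (1 + Mv τ)`, one constant `C`; `pathP6`.
-/

set_option autoImplicit false
set_option linter.unusedSectionVars false

noncomputable section

open Complex MeasureTheory Finset
open scoped ENNReal
open PLX (Fil)

namespace PBTV.PLX

open NUO NUP1 NUP1S NUP1S.Ab NUP1S.AbC NUGC NUGC.PLX PBF PBF.PLX PBU PBU.PLX PBFunc PBFunc.PLX
open PHK

variable [Fil]

attribute [local instance] NUSea.seaP

variable {ep : ℝ}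

/-- the strip of the curves is at distance from the zeros and the poles of the objects -/
theorem dsC_v (hep : 0 < ep) (hep1 : ep ≤ 1 / 100) : DsC par6 (ep / 4) (3 / 500) := by
  have h1 := par6_good.j1
  have h2 := par6_good.L2
  refine dsC_of par6_good (by linarith) (by norm_num) ?_ ?_ ?_
  · linarith
  · linarith
  · have e : par6.j2 = 7 / 8 := rfl
    rw [e]
    linarith

theorem stP_v (hep : 0 < ep) (hep1 : ep ≤ 1 / 100) : StP (ep / 4) par6 := by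
  refine par6_good.stP (by linarith) (by linarith) ?_
  have e : par6.j2 = 7 / 8 := rfl
  rw [e]
  linarith

/-- **the class of the quanta** -/
theorem qok_v6 (hep : 0 < ep) (hep1 : ep ≤ 1 / 100) (k : ℕ) (τ : ℝ × ℝ) :
    QOk6 (Zv6 ep k τ) (ep / 4) (2 * (4 / 3 * (1 - ep))) (-(Fil.xn (k - 1) : ℤ)) := by
  have h := QOk6.of (clZ_v hep hep1 k τ).q (by linarith)
  exact ⟨h.kpos, h.m, h.d, h.b⟩

theorem meas_Zv6 (ep : ℝ) (k : ℕ) (τ : ℝ × ℝ) (a : Bool) (j : Option O3) :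
    Measurable (Zv6 ep k τ a j) :=
  _root_.Pool.Agent.PLX.measurable_XXU (PBX.measurable_gP _ _) (meas_gV6 k a) (PBX.Lg_meas _ _)
    ((PBX.Lg_meas _ _).mul ((PBX.Lg_meas _ _).comp (measurable_id.sub_const _))) j

/-- **the logarithmic derivative of the family** -/
theorem logD_v6 (hep : 0 < ep) (hep1 : ep ≤ 1 / 100) {k : ℕ} (hk : 2 ≤ k) (τ : ℝ × ℝ) :
    LogD6 (Zv6 ep k τ) par6 (ep / 4) (LZv ep k τ) (LPv6 k) := by
  have h := lzok_v hep hep1 hk τ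
  refine logD_of6 (dsC_v hep hep1) (fun b z hz => ?_) (fun b => ?_) ?_
  · have key := PBLZ.PLX.hasDerivAt_XX h b (Leg.cc (cond b (k - 1) (Fil.q * (k - 1))))
      (PBX.gP (4 / 3) [])
      (fun w => PBX.Lg (PBT3.zt τ) (PBT3.zt τ) w * PBX.Lg (PBT3.zt τ) (PBT3.zt τ) (w - NUP1.l))
      (PHK.Ks6_sub (by linarith) hz)
    rw [Zv6_none]
    exact key
  · exact PBLZ.PLX.LZX_meas _ _ _ _ _
  · obtain ⟨B, hB⟩ := PBLZ.PLX.LZX_bd h
    exact ⟨B, fun b z hz => hB b z (PHK.Ks6_sub (by linarith) hz)⟩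

variable {e1 J : ℝ}

/-- **the hypotheses of the mean statement** -/
theorem mean_v6 (hep : 0 < ep) (hep1 : ep ≤ 1 / 100) (he : 0 < e1) (he1 : e1 ≤ 1 / 100)
    (hJ : 0 ≤ J) : ∃ k0 : ℕ, 2 ≤ k0 ∧ ∀ k ≥ k0, ∀ (τ : ℝ × ℝ) (s : ℂ),
      MeanH6 (Zv6 ep k τ) (Dv τ) par6 (cr e1 J k) (cr' e1 J k)
        (-(dN (2 * (k - 1)) : ℤ)) s (ep / 4)
        (2 * (4 / 3 * (1 - ep))) (NUP1.l / 5) (rv k) (Xv k τ) (LZv ep k τ) (D1v τ) (Ev k τ)
        (lgv ep k τ) (LPv6 k) (kov6 k) := by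
  have hl := Bd.l_pos
  obtain ⟨m0, -, hc⟩ := curZ_crs he he1 hJ hep
  obtain ⟨C, hC, hD⟩ := dok_v
  refine ⟨max m0 2, le_max_right _ _, fun k hk τ s => ?_⟩
  have k0 : m0 ≤ k := (le_max_left _ _).trans hk
  have k2 : 2 ≤ k := (le_max_right _ _).trans hk
  have hDk := DOk6.of (hD τ (ep / 4) (by linarith)) (by linarith)
  exact {
    hQ := by
      rw [dN_two]
      exact (qok_v6 hep hep1 k τ).expZ hDk s
    hS := stP_v hep hep1
    crv := fun r O => crvR6_of (hc k k0 r O)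
    hL := (logD_v6 hep hep1 k2 τ).expZ hDk s
    b0 := by nlinarith
    bl := by linarith
    sea := sea_v k2
    fld := fld_v k2 τ
    eR := fun b z _ => by
      unfold Ev
      ring
    eL := fun b z hz => eL_v ep k τ b hz
    eP := fun r O b z _ => rfl
    iE := fun b => iE_v k2 τ b
    mP := fun r b => meas_LPo26 par6 r b }

/-- **the input `MeanP6`** -/
theorem meanP6 (hep : 0 < ep) (hep1 : ep ≤ 1 / 100) (he : 0 < e1) (he1 : e1 ≤ 1 / 100)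
    (hJ : 0 ≤ J) : MeanP6 ep e1 J := by
  obtain ⟨k0, -, h⟩ := mean_v6 hep hep1 he he1 hJ
  exact ⟨k0, fun k hk τ s => ⟨_, h k hk τ s⟩⟩

/-- **the data of the path** -/
theorem path_v6 : ∃ C : ℝ, 0 ≤ C ∧ ∀ ep e1 J : ℝ, 0 < ep → ep ≤ 1 / 100 → 0 < e1 → e1 ≤ 1 / 100 →
    0 ≤ J → ∃ k0 : ℕ, ∀ k ≥ k0, ∀ τ : ℝ × ℝ,
      PathD6 (fun _ => Zv6 ep k τ) (fun _ => Dv τ) (fun _ => par6) (2 * (k - 1))
        (fun _ => cr e1 J k) (fun _ => cr' e1 J k) (C * (1 + Mv τ)) := by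
  have hl := Bd.l_pos
  obtain ⟨C, hC, h⟩ := PBTs.PLX.DT_PathD6
  refine ⟨C, hC, fun ep e1 J hep hep1 he he1 hJ => ?_⟩
  obtain ⟨m0, -, hc⟩ := curZ_crs he he1 hJ hep
  refine ⟨m0, fun k hk τ => ?_⟩
  refine h (wa τ) (wb τ) (Mv τ) (wa_re τ) (wb_re τ) (wa_im τ) (wb_im τ) _ _ _ _ _
    (fun n _ s j => meas_Zv6 ep k τ s j) (fun n _ => par6_good)
    (fun n _ => mcr_cr' e1 J k) fun n _ r O t => ?_
  have h1 := (hc k hk r O).h1 t
  show |etaC e1 J k k t| ≤ NUP1.l / 5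
  refine h1.trans ?_
  nlinarith

/-- **the input `PathP6`** -/
theorem pathP6 (hep : 0 < ep) (hep1 : ep ≤ 1 / 100) (he : 0 < e1) (he1 : e1 ≤ 1 / 100)
    (hJ : 0 ≤ J) : PathP6 ep e1 J := by
  obtain ⟨C, -, h⟩ := path_v6
  obtain ⟨k0, h0⟩ := h ep e1 J hep hep1 he he1 hJ
  exact ⟨k0, fun k hk τ _ => ⟨_, h0 k hk τ⟩⟩

end PBTV.PLX

end
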