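import Pool.Agent.PHK.TRsW6
import Pool.Agent.PLX.PB.TRFin2
import Pool.Agent.PLX.PB.TopR0a

/-!
# (P), (TR), right end of the s-path: the normaliser

* **`pf_w6`**: `k1T * (exp (-κv) * Pv) = cW6 * nrR * kR`; `norm_cW6`: its size.
-/

set_option autoImplicit false
set_option linter.unusedSectionVars false

noncomputable section

open Complex MeasureTheory Finset Filter
open scoped ENNReal
open PLX (Fil)

namespace PBTW.PLX

open NUGC NUGC.PLX PBO PBO.PLX PBF PBF.PLX PBR PBR.PLX PBX PBX.PLX PBU PBU.PLX PBI PBI.PLX PBTV PBTV.PLX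
open NUO NUP1 NUP1S NUP1S.Ab NUP1S.AbC
open PBT3 (wt zt zz k1T wt_re)

variable [Fil]

/-- the constant between the two normalisers -/
def cW6 : ℂ := PBTRF.u0⁻¹ * (2 * Real.pi : ℂ)⁻¹ ^ 2

attribute [local instance] NUSea.seaP

/-- **the normaliser of the right end** -/
theorem pf_w6 (k : ℕ) (τ : ℝ × ℝ) :
    k1T τ * (Complex.exp (-κv k τ) * Pv k τ) = cW6 * nrR k * kR k τ := by
  have h := PBTRF.PLX.KK_eq (fun _ _ => 1) k τ
  have h1 : PBTRF.PLX.KK (fun _ _ => 1) k τ = nrR k * (2 * Real.pi : ℂ)⁻¹ ^ 2 * kR k τ * 1 := by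
    unfold PBTRF.PLX.KK nrR
    rw [kR_eq]
    rfl
  have h2 : PBTRF.PLX.Rk (fun _ _ => 1) k τ = Complex.exp (-κv k τ) * Pv k τ := by
    rw [PBTRF.PLX.exp_κv]
    unfold PBTRF.PLX.Rk PBTRF.PLX.Pk Pv
    rw [_root_.Pool.Agent.PLX.yq_const]
    ring
  rw [h1, h2] at h
  unfold cW6
  have h3 := PBTRF.u0_ne
  have h4 : PBTRF.u0⁻¹ * (PBTRF.u0 * (k1T τ * (Complex.exp (-κv k τ) * Pv k τ))) =
      k1T τ * (Complex.exp (-κv k τ) * Pv k τ) := by
    rw [← mul_assoc, inv_mul_cancel₀ h3, one_mul]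
  rw [← h4, ← h]
  ring

/-- the size of the normaliser -/
theorem norm_cW6 (k : ℕ) :
    ‖cW6 * nrR k‖ * Real.exp (_root_.PLX.EM2 k) = ‖cW6‖ * (Real.sin l)⁻¹ := by
  rw [norm_mul, mul_assoc, norm_nrR]

end PBTW.PLX

end
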