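import Pool.Agent.PHK.PerH
import Pool.Agent.PHK.TopI6
import Pool.Agent.PLX.PB.TopC

/-!
# (P): from the bound of one configuration to the functional (abstract part of TopD)

* `asmK6`, `perHK6`: `asm6`, `perH6` with the constant `K'` chosen before the activities;
* `FE_top6`: `FnI6 ≤ M ∏ act exp (- c1 ∑ cnt²)` for every configuration (`M exp (c' L)` if there are more
  than `L` objects) gives `FE6 ≤ M exp (δ L)`;
* `FE_perH6`: the same from the hypotheses of `perH6` (weights `w` of the objects with gains `g`, one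
  body bounds with `act6`, bound of the gas with the insertion);
* **`FE_sum6`** (= `PHK.FE6_sum`): two tilts `b' = ± d` and the sum over the number of quanta,
  `∑ n ≤ N, FE6 Z P (n + aX) (n + aY) η η' (φ n)`.
-/

set_option autoImplicit false
set_option linter.unusedSectionVars false

noncomputable section

open Complex MeasureTheory Finset
open scoped ENNReal
open PLX (Fil)

namespace PHK

open NUO NUP1 NUStabP NUDispW NUGC NUGC.PLX

/-- **one configuration**, `K' = K + C2 + A2` explicit (`asm6` otherwise) -/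
theorem asmK6 {P : Par6} (hP : GoodP6 P) {c2 aS τ c1 : ℝ} (C2 K A2 : ℝ) (haS : 0 ≤ aS)
    (hc2 : 0 < c2) (hc1 : 0 < c1) : ∃ K6 : ℝ, 1 ≤ K6 ∧
    ∀ (C c : ℝ) (k : ℕ) (L ep e1 J : ℝ) (r : ℕ) (O : Fin r → Xo) (W : Finset ℤ)
      (o sp u es : Fin r → ℝ) (PP EG B kap : ℝ), 0 ≤ C → 1 ≤ L → (∀ i, 0 ≤ o i) →
      (∀ i, 0 ≤ sp i) → 0 ≤ B → kap ≤ c1 / 4 →
      (∀ W : Finset ℤ, PP * Real.exp EG ≤ Real.exp (C2 * r) *
        Real.exp (-(c1 * ∑ w ∈ W, (cnt (fun i => ht (O i)) w : ℝ) ^ 2))) →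
      (∀ i, sp i * Real.exp (es i) ≤ Real.exp A2) →
      (∀ i, o i * Real.exp (u i + (K + C2 + A2)) ≤
        act6 C c c2 aS τ k L ep e1 J r (k6 (O i)) (ht (O i))) →
      ((∏ i, o i) * ∏ i, sp i) * (∏ i, loc6 (gH6 P O) P (O i)) * PP *
          (B * Real.exp (∑ i, u i + ∑ i, es i + K * r + EG + kap * win univ fun i => ht (O i))) ≤
        K6 * B * (∏ i, act (C * K6) 1 c (1 / 10) (k + 1) L ep e1 J r (ht (O i))) *
          Real.exp (-(c1 / 4 * ∑ w ∈ W, (cnt (fun i => ht (O i)) w : ℝ) ^ 2)) := by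
  obtain ⟨K6, hK6, hprod⟩ := act6_prod hP (c2 := c2) (aS := aS) (τ := τ) (c1 := c1 / 2) haS hc2
    (by positivity)
  refine ⟨K6, hK6, ?_⟩
  intro C c k L ep e1 J r O W o sp u es PP EG B kap hC hL ho hsp hB hkap hstab hspec hone
  have hL0 : 0 ≤ L := by linarith
  obtain ⟨W', hW'⟩ : ∃ W', W' = W ∪ univ.image (fun i => ⌊ht (O i)⌋) := ⟨_, rfl⟩
  obtain ⟨wn, hwn⟩ : ∃ wn, wn = win univ fun i => ht (O i) := ⟨_, rfl⟩
  obtain ⟨S', hS'⟩ : ∃ S', S' = ∑ w ∈ W', (cnt (fun i => ht (O i)) w : ℝ) ^ 2 := ⟨_, rfl⟩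
  obtain ⟨SW, hSW⟩ : ∃ SW, SW = ∑ w ∈ W, (cnt (fun i => ht (O i)) w : ℝ) ^ 2 := ⟨_, rfl⟩
  have hw1 : SW ≤ S' := by
    rw [hSW, hS', hW']
    exact sum_le_sum_of_subset_of_nonneg subset_union_left fun _ _ _ => sq_nonneg _
  have hw2 : wn ≤ S' := by
    rw [hwn, hS', hW']
    exact sum_le_sum_of_subset_of_nonneg subset_union_right fun _ _ _ => sq_nonneg _
  have hwn0 : 0 ≤ wn := by rw [hwn]; exact win_nonneg _ _
  have hW : ∀ i, ⌊ht (O i)⌋ ∈ W' := fun i => by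
    rw [hW', mem_union]
    exact Or.inr (mem_image_of_mem _ (mem_univ i))
  -- one body
  obtain ⟨z, hz⟩ : ∃ z : Fin r → ℝ,
    z = fun i => act6 C c c2 aS τ k L ep e1 J r (k6 (O i)) (ht (O i)) := ⟨_, rfl⟩
  obtain ⟨g, hg⟩ : ∃ g : ℝ, g = ∏ i, loc6 (gH6 P O) P (O i) := ⟨_, rfl⟩
  have hg0 : 0 ≤ g := by rw [hg]; exact prod_nonneg fun i _ => loc6_nonneg _ _ _
  have hbody : ((∏ i, o i) * ∏ i, sp i) * Real.exp (∑ i, u i + ∑ i, es i) *
      Real.exp (K * r + C2 * r) ≤ ∏ i, z i := by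
    have e1 : ((∏ i, o i) * ∏ i, sp i) * Real.exp (∑ i, u i + ∑ i, es i) *
        Real.exp (K * r + C2 * r) = ∏ i, (o i * Real.exp (u i + (K + C2)) *
          (sp i * Real.exp (es i))) := by
      rw [prod_mul_distrib, prod_mul_distrib, prod_mul_distrib, ← Real.exp_sum, ← Real.exp_sum,
        sum_add_distrib, sum_const, card_univ, Fintype.card_fin, nsmul_eq_mul,
        Real.exp_add (∑ i, u i) (∑ i, es i), Real.exp_add (∑ i, u i),
        show (r : ℝ) * (K + C2) = K * r + C2 * r by ring]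
      ring
    rw [e1]
    refine prod_le_prod (fun i _ => mul_nonneg (mul_nonneg (ho i) (Real.exp_pos _).le)
      (mul_nonneg (hsp i) (Real.exp_pos _).le)) fun i _ => ?_
    have h1 : o i * Real.exp (u i + (K + C2 + A2)) ≤ z i := by
      rw [hz]
      exact hone i
    refine le_trans ?_ h1
    calc o i * Real.exp (u i + (K + C2)) * (sp i * Real.exp (es i))
        ≤ o i * Real.exp (u i + (K + C2)) * Real.exp A2 :=
          mul_le_mul_of_nonneg_left (hspec i) (mul_nonneg (ho i) (Real.exp_pos _).le)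
      _ = _ := by
          rw [mul_assoc, ← Real.exp_add]
          congr 2
          ring
  have hzg : (∏ i, z i) * g ≤ K6 *
      (∏ i, act (C * K6) 1 c (1 / 10) (k + 1) L ep e1 J r (ht (O i))) *
        Real.exp (c1 / 2 * S') := by
    rw [hz, hg, hS']
    exact hprod C c k L ep e1 J r O W' hC hL hW
  obtain ⟨AA, hAA⟩ : ∃ AA, AA =
    ∏ i, act (C * K6) 1 c (1 / 10) (k + 1) L ep e1 J r (ht (O i)) := ⟨_, rfl⟩
  rw [← hAA] at hzg
  have hAA0 : 0 ≤ AA := by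
    rw [hAA]
    exact prod_nonneg fun i _ => act_nonneg (by positivity) zero_le_one hL0
  have hS := hstab W'
  rw [← hS'] at hS
  have hop : 0 ≤ (∏ i, o i) * ∏ i, sp i :=
    mul_nonneg (prod_nonneg fun i _ => ho i) (prod_nonneg fun i _ => hsp i)
  rw [← hwn, ← hg, ← hSW, ← hAA]
  have hexp : Real.exp (C2 * r) * Real.exp (-(c1 * S')) * Real.exp (K * r + kap * wn) ≤
      Real.exp (K * r + C2 * r) * Real.exp (-(3 / 4 * c1 * S')) := by
    rw [← Real.exp_add, ← Real.exp_add, ← Real.exp_add]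
    refine Real.exp_le_exp.2 ?_
    have h3 : c1 / 4 * wn ≤ c1 / 4 * S' := mul_le_mul_of_nonneg_left hw2 (by linarith)
    have h4 : kap * wn ≤ c1 / 4 * wn := mul_le_mul_of_nonneg_right hkap hwn0
    linarith
  calc ((∏ i, o i) * ∏ i, sp i) * g * PP *
        (B * Real.exp (∑ i, u i + ∑ i, es i + K * r + EG + kap * wn))
      = B * (((∏ i, o i) * ∏ i, sp i) * Real.exp (∑ i, u i + ∑ i, es i) * (PP * Real.exp EG) *
          Real.exp (K * r + kap * wn) * g) := by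
        rw [show ∑ i, u i + ∑ i, es i + K * r + EG + kap * wn =
          (∑ i, u i + ∑ i, es i) + EG + (K * r + kap * wn) by ring,
          Real.exp_add (∑ i, u i + ∑ i, es i + EG), Real.exp_add (∑ i, u i + ∑ i, es i) EG]
        ring
    _ ≤ B * (((∏ i, o i) * ∏ i, sp i) * Real.exp (∑ i, u i + ∑ i, es i) *
          (Real.exp (C2 * r) * Real.exp (-(c1 * S'))) * Real.exp (K * r + kap * wn) * g) := by
        refine mul_le_mul_of_nonneg_left ?_ hB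
        refine mul_le_mul_of_nonneg_right ?_ hg0
        refine mul_le_mul_of_nonneg_right ?_ (Real.exp_pos _).le
        exact mul_le_mul_of_nonneg_left hS (mul_nonneg hop (Real.exp_pos _).le)
    _ = B * (((∏ i, o i) * ∏ i, sp i) * Real.exp (∑ i, u i + ∑ i, es i) * g *
          (Real.exp (C2 * r) * Real.exp (-(c1 * S')) * Real.exp (K * r + kap * wn))) := by ring
    _ ≤ B * (((∏ i, o i) * ∏ i, sp i) * Real.exp (∑ i, u i + ∑ i, es i) * g *
          (Real.exp (K * r + C2 * r) * Real.exp (-(3 / 4 * c1 * S')))) := by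
        refine mul_le_mul_of_nonneg_left ?_ hB
        exact mul_le_mul_of_nonneg_left hexp (mul_nonneg (mul_nonneg hop (Real.exp_pos _).le) hg0)
    _ = B * ((((∏ i, o i) * ∏ i, sp i) * Real.exp (∑ i, u i + ∑ i, es i) *
          Real.exp (K * r + C2 * r)) * g * Real.exp (-(3 / 4 * c1 * S'))) := by ring
    _ ≤ B * ((∏ i, z i) * g * Real.exp (-(3 / 4 * c1 * S'))) := by
        refine mul_le_mul_of_nonneg_left ?_ hB
        refine mul_le_mul_of_nonneg_right ?_ (Real.exp_pos _).le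
        exact mul_le_mul_of_nonneg_right hbody hg0
    _ ≤ B * (K6 * AA * Real.exp (c1 / 2 * S') * Real.exp (-(3 / 4 * c1 * S'))) := by
        refine mul_le_mul_of_nonneg_left ?_ hB
        exact mul_le_mul_of_nonneg_right hzg (Real.exp_pos _).le
    _ = K6 * B * AA * Real.exp (-(c1 / 4 * S')) := by
        rw [mul_assoc (K6 * AA), ← Real.exp_add]
        rw [show c1 / 2 * S' + -(3 / 4 * c1 * S') = -(c1 / 4 * S') by ring]
        ring
    _ ≤ K6 * B * AA * Real.exp (-(c1 / 4 * SW)) := by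
        refine mul_le_mul_of_nonneg_left (Real.exp_le_exp.2 ?_) (by positivity)
        have := mul_le_mul_of_nonneg_left hw1 (show 0 ≤ c1 / 4 by positivity)
        linarith

variable [Fil]

/-- **the bound of one configuration**, `K'`, `c1` before the constants of the activities (`perH6`
otherwise) -/
theorem perHK6 {P : Par6} (hP : GoodP6 P) {en : (r : ℕ) → (Fin r → Xo) → ℝ} (hS : StabE P en)
    (K K2 : ℝ) : ∃ K' c1 : ℝ, 0 < c1 ∧ ∀ c2 aS τ : ℝ, 0 ≤ aS → 0 < c2 →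
    ∃ K6 : ℝ, 1 ≤ K6 ∧ ∀ (B : OB), B.Nn →
    ∀ (C c : ℝ) (k : ℕ) (L ep e1 J : ℝ), 0 ≤ C → 1 ≤ L → ∀ (r : ℕ) (O : Fin r → Xo)
      (η η' : ℝ → ℝ) (nX nY : ℕ) (ψ : (a b : ℕ) → (Fin a → ℝ) × (Fin b → ℝ) → ℝ≥0∞)
      (u g : Fin r → ℝ) (Q Bw w : ℝ), 0 ≤ Q → 0 ≤ w → 0 ≤ Bw →
      w ≤ Bw * Real.exp (K2 * r) * Real.exp (∑ i, g i) →
      (∀ i, ob6 B P (O i) * Real.exp (u i + K') ≤
        act6 C c c2 aS τ k L ep e1 J r (k6 (O i)) (ht (O i)) * Real.exp (-g i)) →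
      (chgO6 O true ≤ nX → chgO6 O false ≤ nY → cnt6 O →
        gasI6 B P η η' O (nA6 nX O true) (nA6 nY O false)
          (ψ (nA6 nX O true) (nA6 nY O false)) ≤
        ENNReal.ofReal (w * (Q * Real.exp (∑ i, u i + K * r + en r O +
          c1 * win univ fun i => ht (O i))))) →
    ∀ W : Finset ℤ, FnI6 B P η η' nX nY O ψ ≤
      ENNReal.ofReal (K6 * (Bw * Q) * (∏ i, act (C * K6) 1 c (1 / 10) (k + 1) L ep e1 J r (ht (O i))) *
        Real.exp (-(c1 * ∑ w ∈ W, (cO O w : ℝ) ^ 2))) := by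
  obtain ⟨C2, c1, hc1, hS⟩ := hS
  refine ⟨K + K2 + C2 + 0, c1 / 4, by positivity, fun c2 aS τ haS hc2 => ?_⟩
  obtain ⟨K6, hK6, H⟩ := asmK6 hP (c1 := c1) (τ := τ) C2 (K + K2) 0 haS hc2 hc1
  refine ⟨K6, hK6, ?_⟩
  intro B hB C c k L ep e1 J hC hL r O η η' nX nY ψ u g Q Bw w hQ hw hBw hwB hone hgas W
  by_cases hc : chgO6 O true ≤ nX ∧ chgO6 O false ≤ nY ∧ cnt6 O
  swap
  · rw [FnI6_zero _ _ _ _ _ _ hc]
    exact zero_le
  have hobj : 0 ≤ objWc6 B P O := objWc6_nonneg hB P O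
  have key := H C c k L ep e1 J r O W (fun i => ob6 B P (O i)) (fun _ => 1) (fun i => u i + g i)
    (fun _ => 0) (∏ i, ∏ j, if i < j then pairN6 P O i j else 1) (en r O) (Bw * Q) (c1 / 4) hC hL
    (fun i => ob6_nonneg hB P (O i)) (fun _ => zero_le_one) (mul_nonneg hBw hQ) le_rfl
    (fun W => hS r O W) (fun _ => by simp) (fun i => by
      have h1 := mul_le_mul_of_nonneg_right (hone i) (Real.exp_pos (g i)).le
      calc ob6 B P (O i) * Real.exp (u i + g i + (K + K2 + C2 + 0))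
          = ob6 B P (O i) * Real.exp (u i + (K + K2 + C2 + 0)) * Real.exp (g i) := by
            rw [mul_assoc, ← Real.exp_add]
            ring_nf
        _ ≤ _ := h1
        _ = _ := by
            rw [mul_assoc, ← Real.exp_add, neg_add_cancel, Real.exp_zero, mul_one])
  simp only [Finset.prod_const_one, mul_one, Finset.sum_const_zero, add_zero] at key
  rw [FnI6_eq _ _ _ _ _ _ hc]
  refine (mul_le_mul' le_rfl (hgas hc.1 hc.2.1 hc.2.2)).trans ?_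
  rw [← ENNReal.ofReal_mul hobj]
  refine ENNReal.ofReal_le_ofReal (le_trans ?_ key)
  have hE : Real.exp (∑ i, (u i + g i) + (K + K2) * r + en r O + c1 / 4 * win univ fun i => ht (O i)) =
      Real.exp (K2 * r) * Real.exp (∑ i, g i) *
        Real.exp (∑ i, u i + K * r + en r O + c1 / 4 * win univ fun i => ht (O i)) := by
    rw [← Real.exp_add, ← Real.exp_add, Finset.sum_add_distrib]
    congr 1
    ring
  rw [hE]
  obtain ⟨X, hX⟩ : ∃ X, X = Real.exp (∑ i, u i + K * r + en r O +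
    c1 / 4 * win univ fun i => ht (O i)) := ⟨_, rfl⟩
  have hX0 : 0 < X := by
    rw [hX]
    exact Real.exp_pos _
  rw [← hX]
  have e : objWc6 B P O = (∏ i, ob6 B P (O i)) * (∏ i, loc6 (gH6 P O) P (O i)) *
      ∏ i, ∏ j, if i < j then pairN6 P O i j else 1 := rfl
  rw [← e]
  calc objWc6 B P O * (w * (Q * X)) ≤ objWc6 B P O *
        ((Bw * Real.exp (K2 * r) * Real.exp (∑ i, g i)) * (Q * X)) := by
        refine mul_le_mul_of_nonneg_left ?_ hobj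
        exact mul_le_mul_of_nonneg_right hwB (by positivity)
    _ = _ := by ring

end PHK

namespace PBF.PLX

open NUO NUP1 NUP1S NUP1S.Ab NUP1S.AbC NUGC NUGC.PLX NUCR PBF PHK

variable [Fil]

variable {Z : Bool → Option O3 → ℂ → ℂ} {n n' : ℕ} {η η' : Crs}

/-- **the sum over the configurations** -/
theorem FE_top6 {C c b c1 c' : ℝ} (k : ℕ) (hC : 0 < C) (hc : 0 < c) (hb : 0 < b) (hc1 : 0 < c1)
    (hc' : 0 ≤ c') {δ : ℝ} (hδ : 0 < δ) :
    ∃ a0 : ℝ, 0 < a0 ∧ ∀ C' : ℝ, 0 ≤ C' → ∃ D L0 : ℝ, 0 < D ∧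
      ∀ L ≥ L0, ∀ ep : ℝ, 0 ≤ ep → ep ≤ 1 / 4 →
      ∀ e1 : ℝ, 0 < e1 → e1 ≤ 1 / 4 → ∀ J : ℝ, 0 ≤ J →
      Real.exp (-(2 * Real.pi * J)) + 3 * e1 + 3 * ep ≤ a0 →
      ∀ M : ℝ, 0 ≤ M →
      ∀ (Z : Bool → Option O3 → ℂ → ℂ) (P : Par6) (n n' : ℕ) (η η' : Crs) (B : OB)
        (ep' κ x0 : ℝ) (Q : ℤ) (E : Set ℝ), OneC6 Z B P ep' κ x0 Q E →
        (∀ r O, CurB ep' (η r O) (η' r O)) → ep' ≤ 1 / 100 →
        ((2 * (n + n') + 1 : ℕ) : ℝ) ≤ Real.exp (2 * L) → ∀ φ : InsE,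
        (∀ r ≤ 2 * (n + n'), ∀ O : Fin r → Xo,
          FnI6 B P (η r O) (η' r O) n n' O (fun a b x => φ r O a b x) ≤
          ENNReal.ofReal ((if (r : ℝ) ≤ L then M else M * Real.exp (c' * L)) *
          (∏ i, act C C' c b k L ep e1 J r (ht (O i))) *
          Real.exp (-(c1 * ∑ w ∈ WZ D L r, (cO O w : ℝ) ^ 2)))) →
        FE6 Z P n n' η η' φ ≤ ENNReal.ofReal (M * Real.exp (δ * L)) := by
  obtain ⟨a0, ha0, H⟩ := xo_sum k hC hc hb hc1 hc' hδ
  refine ⟨a0, ha0, fun C' hC' => ?_⟩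
  obtain ⟨D, L0, hD, H1⟩ := H C' hC'
  refine ⟨D, L0, hD, ?_⟩
  intro L hL ep hep0 hep e1 he1 he1' J hJ hsm M hM Z P n n' η η' B ep' κ x0 Q E hO hη hep' hR φ
    hF
  refine (FE_le6 hO hη hep' φ).trans ?_
  refine H1 L hL ep hep0 hep e1 he1 he1' J hJ hsm M hM (2 * (n + n') + 1) hR
    (fun r O => FnI6 B P (η r O) (η' r O) n n' O (fun a b x => φ r O a b x)) ?_
  intro r hr O
  exact hF r (by omega) O

/-- **the functional from the bound of the gas, the one body bounds and the weights** -/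
theorem FE_perH6 {P : Par6} (hP : GoodP6 P) {en : (r : ℕ) → (Fin r → Xo) → ℝ} (hS : StabE P en)
    (K K2 : ℝ) : ∃ K' c1 : ℝ, 0 < c1 ∧
    ∀ (C c c2 aS τ c' : ℝ) (k : ℕ), 0 < C → 0 < c → 0 < c2 → 0 ≤ aS → 0 ≤ c' → ∀ δ : ℝ, 0 < δ →
    ∃ a0 : ℝ, 0 < a0 ∧ ∃ L0 : ℝ,
      ∀ L ≥ L0, ∀ ep : ℝ, 0 ≤ ep → ep ≤ 1 / 4 →
      ∀ e1 : ℝ, 0 < e1 → e1 ≤ 1 / 4 → ∀ J : ℝ, 0 ≤ J →
      Real.exp (-(2 * Real.pi * J)) + 3 * e1 + 3 * ep ≤ a0 →
      ∀ (Z : Bool → Option O3 → ℂ → ℂ) (n n' : ℕ) (η η' : Crs) (B : OB)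
        (ep' κ x0 : ℝ) (Qc : ℤ) (E : Set ℝ), OneC6 Z B P ep' κ x0 Qc E → B.Nn →
        (∀ r O, CurB ep' (η r O) (η' r O)) → ep' ≤ 1 / 100 →
        ((2 * (n + n') + 1 : ℕ) : ℝ) ≤ Real.exp (2 * L) →
      ∀ (φ : InsE) (g : ℝ → ℝ) (u : (r : ℕ) → (Fin r → Xo) → Fin r → ℝ)
        (w : (r : ℕ) → (Fin r → Xo) → ℝ) (Q Bw : ℝ), 0 ≤ Q → 0 ≤ Bw →
        (∀ r ≤ 2 * (n + n'), ∀ O : Fin r → Xo, 0 ≤ w r O ∧
          w r O ≤ (if (r : ℝ) ≤ L then Bw else Bw * Real.exp (c' * L)) * Real.exp (K2 * r) *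
            Real.exp (∑ i, g (ht (O i)))) →
        (∀ r ≤ 2 * (n + n'), ∀ (O : Fin r → Xo) (i : Fin r),
          ob6 B P (O i) * Real.exp (u r O i + K') ≤
          act6 C c c2 aS τ k L ep e1 J r (k6 (O i)) (ht (O i)) * Real.exp (-g (ht (O i)))) →
        (∀ r ≤ 2 * (n + n'), ∀ O : Fin r → Xo, chgO6 O true ≤ n → chgO6 O false ≤ n' →
          cnt6 O →
          gasI6 B P (η r O) (η' r O) O (nA6 n O true) (nA6 n' O false)
            (φ r O (nA6 n O true) (nA6 n' O false)) ≤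
          ENNReal.ofReal (w r O * (Q * Real.exp (∑ i, u r O i + K * r + en r O +
            c1 * NUDispW.win univ fun i => ht (O i))))) →
        FE6 Z P n n' η η' φ ≤ ENNReal.ofReal (Bw * Q * Real.exp (δ * L)) := by
  obtain ⟨K', c1, hc1, HP⟩ := perHK6 hP hS K K2
  refine ⟨K', c1, hc1, ?_⟩
  intro C c c2 aS τ c' k hC hc hc2 haS hc' δ hδ
  obtain ⟨K6, hK6, HP⟩ := HP c2 aS τ haS hc2
  have hK60 : 0 < K6 := by linarith
  obtain ⟨a0, ha0, H⟩ := FE_top6 (C := C * K6) (c := c) (b := 1 / 10) (c1 := c1) (c' := c')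
    (δ := δ / 2) (k + 1) (by positivity) hc (by norm_num) hc1 hc' (by positivity)
  refine ⟨a0, ha0, ?_⟩
  obtain ⟨D, L0, hD, H1⟩ := H 1 zero_le_one
  refine ⟨max L0 (max 1 (2 * Real.log K6 / δ)), ?_⟩
  intro L hL ep hep0 hep e1 he1 he1' J hJ hsm Z n n' η η' B ep' κ x0 Qc E hO hB
    hη hep' hR φ g u w Q Bw hQ hBw hw hone hgas
  have hLa : L0 ≤ L := (le_max_left _ _).trans hL
  have hLb : 1 ≤ L := ((le_max_left _ _).trans (le_max_right _ _)).trans hL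
  have hLc : 2 * Real.log K6 / δ ≤ L := ((le_max_right _ _).trans (le_max_right _ _)).trans hL
  have hKe : K6 ≤ Real.exp (δ / 2 * L) := by
    rw [← Real.exp_log hK60]
    refine Real.exp_le_exp.2 ?_
    rw [div_le_iff₀ hδ] at hLc
    linarith
  have key := H1 L hLa ep hep0 hep e1 he1 he1' J hJ hsm (K6 * (Bw * Q))
    (mul_nonneg hK60.le (mul_nonneg hBw hQ)) Z P n n' η η' B ep' κ x0 Qc E hO hη hep' hR φ ?_
  · refine key.trans (ENNReal.ofReal_le_ofReal ?_)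
    calc K6 * (Bw * Q) * Real.exp (δ / 2 * L)
        ≤ Real.exp (δ / 2 * L) * (Bw * Q) * Real.exp (δ / 2 * L) := by
          refine mul_le_mul_of_nonneg_right ?_ (Real.exp_pos _).le
          exact mul_le_mul_of_nonneg_right hKe (mul_nonneg hBw hQ)
      _ = Bw * Q * Real.exp (δ * L) := by
          rw [show δ * L = δ / 2 * L + δ / 2 * L by ring, Real.exp_add]
          ring
  intro r hr O
  obtain ⟨hw0, hw1⟩ := hw r hr O
  have hBw' : 0 ≤ (if (r : ℝ) ≤ L then Bw else Bw * Real.exp (c' * L)) := by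
    split_ifs
    · exact hBw
    · exact mul_nonneg hBw (Real.exp_pos _).le
  have key := HP B hB C c k L ep e1 J hC.le hLb r O (η r O) (η' r O) n n'
    (fun a b x => φ r O a b x) (u r O) (fun i => g (ht (O i))) Q
    (if (r : ℝ) ≤ L then Bw else Bw * Real.exp (c' * L)) (w r O) hQ hw0 hBw' hw1
    (fun i => hone r hr O i) (fun h1 h2 h3 => hgas r hr O h1 h2 h3) (WZ D L r)
  refine key.trans (ENNReal.ofReal_le_ofReal (le_of_eq ?_))
  split_ifs <;> ring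

/-- **the sum over the number of quanta** (`n + aX`, `n + aY` quanta, `n ≤ N`): the tilted bound of
the gas for `b' = ± d`, around `ν`, in the neighbourhood of `m` -/
theorem FE_sum6 {P : Par6} (hP : GoodP6 P) {en : (r : ℕ) → (Fin r → Xo) → ℝ} (hS : StabE P en)
    (K K2 : ℝ) : ∃ K' c1 : ℝ, 0 < c1 ∧
    ∀ (C c c2 aS τ c' : ℝ) (k : ℕ), 0 < C → 0 < c → 0 < c2 → 0 ≤ aS → 0 ≤ c' → ∀ δ : ℝ, 0 < δ →
    ∃ a0 : ℝ, 0 < a0 ∧ ∃ L0 : ℝ,
      ∀ L ≥ L0, ∀ ep : ℝ, 0 ≤ ep → ep ≤ 1 / 4 →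
      ∀ e1 : ℝ, 0 < e1 → e1 ≤ 1 / 4 → ∀ J : ℝ, 0 ≤ J →
      Real.exp (-(2 * Real.pi * J)) + 3 * e1 + 3 * ep ≤ a0 →
      ∀ (Z : Bool → Option O3 → ℂ → ℂ) (m N aX aY : ℕ) (η η' : Crs) (B : OB)
        (ep' κ x0 : ℝ) (Qc : ℤ) (E : Set ℝ), OneC6 Z B P ep' κ x0 Qc E → B.Nn →
        (∀ r O, CurB ep' (η r O) (η' r O)) → ep' ≤ 1 / 100 →
        ((2 * (2 * N + (aX + aY)) + 1 : ℕ) : ℝ) ≤ Real.exp (2 * L) →
      ∀ (φ : ℕ → InsE) (g : ℝ → ℝ) (u : (r : ℕ) → (Fin r → Xo) → Fin r → ℝ)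
        (w : ℕ → (r : ℕ) → (Fin r → Xo) → ℝ) (Q Bw d ν : ℝ), 0 ≤ Q → 0 ≤ Bw → 0 < d →
        (∀ n ≤ N, ∀ r ≤ 2 * (2 * n + (aX + aY)), ∀ O : Fin r → Xo, 0 ≤ w n r O ∧
          w n r O ≤ (if (r : ℝ) ≤ L then Bw else Bw * Real.exp (c' * L)) * Real.exp (K2 * r) *
            Real.exp (∑ i, g (ht (O i)))) →
        (∀ r ≤ 2 * (2 * N + (aX + aY)), ∀ (O : Fin r → Xo) (i : Fin r),
          ob6 B P (O i) * Real.exp (u r O i + K') ≤
          act6 C c c2 aS τ k L ep e1 J r (k6 (O i)) (ht (O i)) * Real.exp (-g (ht (O i)))) →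
        (∀ b' : ℝ, |b'| = d → ∀ n ≤ N, ∀ r ≤ 2 * (2 * n + (aX + aY)), ∀ O : Fin r → Xo,
          chgO6 O true ≤ ((n + aX : ℕ) : ℤ) → chgO6 O false ≤ ((n + aY : ℕ) : ℤ) → cnt6 O →
          ENNReal.ofReal (Real.exp (b' * (ν - n))) *
            gasI6 B P (η r O) (η' r O) O (nA6 (n + aX) O true) (nA6 (n + aY) O false)
              (φ n r O (nA6 (n + aX) O true) (nA6 (n + aY) O false)) ≤
          ENNReal.ofReal (w n r O * (Q * Real.exp (∑ i, u r O i + K * r + en r O +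
            c1 * NUDispW.win univ fun i => ht (O i))))) →
        ∑ n ∈ range (N + 1), FE6 Z P (n + aX) (n + aY) η η' (φ n) ≤
          ENNReal.ofReal (Bw * Q * Real.exp (δ * L) *
            (Real.exp (d * |ν - m|) * (2 / (1 - Real.exp (-d))))) := by
  obtain ⟨K', c1, hc1, HP⟩ := FE_perH6 hP hS K K2
  refine ⟨K', c1, hc1, ?_⟩
  intro C c c2 aS τ c' k hC hc hc2 haS hc' δ hδ
  obtain ⟨a0, ha0, L0, H1⟩ := HP C c c2 aS τ c' k hC hc hc2 haS hc' δ hδ
  refine ⟨a0, ha0, L0, ?_⟩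
  intro L hL ep hep0 hep e1 he1 he1' J hJ hsm Z m N aX aY η η' B ep' κ x0 Qc E hO hB
    hη hep' hR φ g u w Q Bw d ν hQ hBw hd0 hw hone hgas
  have key : ∀ n ≤ N, FE6 Z P (n + aX) (n + aY) η η' (φ n) ≤
      ENNReal.ofReal (Bw * (Q * Real.exp (-(d * |(n : ℝ) - ν|))) * Real.exp (δ * L)) := by
    intro n hn
    refine H1 L hL ep hep0 hep e1 he1 he1' J hJ hsm Z (n + aX) (n + aY) η η' B ep' κ x0 Qc E hO
      hB hη hep' (le_trans ?_ hR) (φ n) g u (w n)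
      (Q * Real.exp (-(d * |(n : ℝ) - ν|))) Bw (mul_nonneg hQ (Real.exp_pos _).le) hBw
      (fun r hr O => hw n hn r (by omega) O) (fun r hr O i => hone r (by omega) O i) ?_
    · have : 2 * (n + aX + (n + aY)) + 1 ≤ 2 * (2 * N + (aX + aY)) + 1 := by omega
      exact_mod_cast this
    · intro r hr O h1 h2 hc3
      have h3 := tilt_two_real (A := gasI6 B P (η r O) (η' r O) O (nA6 (n + aX) O true)
        (nA6 (n + aY) O false) (φ n r O (nA6 (n + aX) O true) (nA6 (n + aY) O false))) hd0.le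
        (fun b' hb' => hgas b' hb' n hn r (by omega) O h1 h2 hc3)
      refine h3.trans (ENNReal.ofReal_le_ofReal (le_of_eq ?_))
      ring
  calc ∑ n ∈ range (N + 1), FE6 Z P (n + aX) (n + aY) η η' (φ n) ≤
      ∑ n ∈ range (N + 1), ENNReal.ofReal
        (Bw * (Q * Real.exp (-(d * |(n : ℝ) - ν|))) * Real.exp (δ * L)) :=
        Finset.sum_le_sum fun n hn => key n (by have := Finset.mem_range.1 hn; omega)
    _ = ENNReal.ofReal (∑ n ∈ range (N + 1),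
        Bw * (Q * Real.exp (-(d * |(n : ℝ) - ν|))) * Real.exp (δ * L)) :=
        (ENNReal.ofReal_sum_of_nonneg fun n _ => by positivity).symm
    _ ≤ _ := by
        refine ENNReal.ofReal_le_ofReal ?_
        have e : ∀ n : ℕ, Bw * (Q * Real.exp (-(d * |(n : ℝ) - ν|))) * Real.exp (δ * L) =
            Bw * Q * Real.exp (δ * L) * Real.exp (-(d * |(n : ℝ) - ν|)) := fun n => by ring
        simp only [e]
        rw [← Finset.mul_sum]
        exact mul_le_mul_of_nonneg_left (sum_exp_abs_real hd0 m (N + 1) ν) (by positivity)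

end PBF.PLX

namespace PHK

variable [Fil]

alias FE6_sum := PBF.PLX.FE_sum6

end PHK

end
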