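import Pool.Agent.PHK.TopR6
import Pool.Agent.PHK.S4I0
import Pool.Agent.PHK.S4G0
import Pool.Agent.PHK.Zv6
import Pool.Agent.PLX.PB.TopR0a

/-!
# (P): the class `W W` at rows `0`, ends `0`, at fixed half quanta, with statistics and pinned objects (U5N)

Geometry `G06 [I, -I] (F0K ·)`, `k` effective rows X, both half quanta in the window `TW`; string
cutoffs `gV6 k` (`om` at `T1L k`).

* `RW6 ep k y`: the one body functions of the class;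
* **`topR06`**: the normalised sum over the numbers of quanta of the functional with moduli, with a
  statistic `Φ i` and a weight `w ≤ Bw e^{K2 r} ∏ exp gT` of the objects, is at most
  `Bw k ^ e exp (- 2|τ| - 2|τ'| - |τ - τ'| / 2)`; the smallness of `ep`, `e1`, `exp (-2πJ)` only depends on
  `A0`, `K2`, `e`;
* **`topR0_val6`**: the same for the value (no statistic), the sum over `n ≤ M` for every `M ≤ 2 k`.
-/

set_option autoImplicit false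
set_option linter.unusedSectionVars false

noncomputable section

open Complex MeasureTheory Finset
open scoped ENNReal

open PLX (Fil)

namespace PBI.PLX

open NUGC.PLX PBO.PLX PBF.PLX PBR.PLX PBX.PLX PHK
open NUO NUP1 NUCR NUP1S NUP1S.Ab NUP1S.AbC NUP1S.AbG NURow NUP1.Leg NUStabP NUDispW
open PBP.PLX (gT)
open PotH.PLX (sN)
open PB0.PLX (MFk)
open PBTV.PLX (gV6 meas_gV6)

attribute [local instance] NUSea.seaP _root_.PLX.ends1

variable [Fil]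

theorem II_re6 {w : ℂ} (hw : w ∈ [I, -I]) : |w.re| ≤ l / 2 := by
  have hl := l_pos
  have : w.re = 0 := by
    simp only [List.mem_cons, List.not_mem_nil, or_false] at hw
    rcases hw with rfl | rfl <;> simp
  rw [this, abs_zero]
  positivity

theorem EM2_G06 (k : ℕ) (ex : List ℂ) (F0 : ℕ → Bool → ℂ → ℂ) :
    (G06 ex F0).EM k = _root_.PLX.EM2 k := by
  rw [G06_EM, EM2_eq]
  congr 1
  funext a
  cases a <;> rfl

/-- **the class `W W` at rows `0` at fixed half quanta in the window** -/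
theorem topR06 (hS : StabProd6 par6) (A0 K2 : ℝ) {e : ℝ} (he : 0 < e) :
    ∃ κ0 : ℝ, 0 < κ0 ∧ κ0 ≤ 1 / 100 ∧
      ∀ (ι : Type*) (ok : ℕ → ι → Prop) (Φ : ι → ℕ → ℕ → InsE), StatFam6 A0 ok Φ →
      ∀ ep : ℝ, 0 < ep → ep ≤ κ0 → ∀ e1 : ℝ, 0 < e1 → e1 ≤ κ0 →
      ∀ J : ℝ, 0 ≤ J → Real.exp (-(2 * Real.pi * J)) ≤ κ0 →
      ∀ (c : ℕ → ℂ) (Cn : ℝ), (∀ k, 1 ≤ k → ‖c k‖ * Real.exp (_root_.PLX.EM2 k) ≤ Cn) →
      ∃ k0 : ℕ, 2 ≤ k0 ∧ ∀ k ≥ k0,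
      (∀ (r : ℕ) (_O : Fin r → Xo), CurB ep (etaC e1 J k k) (etaC' e1 J k k)) ∧
      ∀ y : ℝ × ℝ, |y.1| ≤ TW ep e1 k → |y.2| ≤ TW ep e1 k → ∀ i : ι, ok k i →
      ∀ (w : (r : ℕ) → (Fin r → Xo) → ℝ) (Bw : ℝ), 0 ≤ Bw → (∀ r O, 0 ≤ w r O) →
      (∀ (r : ℕ) (O : Fin r → Xo), w r O ≤ Bw * Real.exp (K2 * r) *
          Real.exp (∑ i, gT e1 (Real.log k) (ht (O i)))) →
      ENNReal.ofReal ‖c k * kR k y‖ *
        ∑ n ∈ range (2 * k + 1),
          FE6 (RZW (R06 (k - 1) (beC ep) [I, -I] (gV6 k true) (gV6 k false))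
            (vl (5 / 4 * l) y.1) (vl (5 / 4 * l) y.2)) par6 n (n + Fil.xn (k - 1))
            (fun _ _ => etaC e1 J k k) (fun _ _ => etaC' e1 J k k)
            (fun r O a b x => ENNReal.ofReal (w r O) * Φ i k n r O a b x) ≤
        ENNReal.ofReal (Bw * ((k : ℝ) ^ e * Real.exp (-mTR y))) := by
  obtain ⟨K, Ca, hK, hCa, hS4⟩ := s4K6 (gOk_GI6 (F0 := F0K))
  obtain ⟨C3, -, h3⟩ := spec_pin6
  obtain ⟨κ0, hκ, hκ1, htop⟩ := topR6 (G := G06 [I, -I] F0K) (fun m β => G06_nn _ _) hS h3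
    (oneRT_G06 (PtL.II le_rfl one_le_two) fun _ _ => rfl) (K + A0) K2 hCa (e := e / 2) (by linarith)
  obtain ⟨C0, hC0, hkf⟩ := kfa_le
  obtain ⟨Cg, hCg, hdk⟩ := dk_le
  refine ⟨κ0, hκ, hκ1, ?_⟩
  intro ι ok Φ hst ep hep hep1 e1 he1 he11 J hJ hJ1 c Cn hc
  obtain ⟨Cst, hCst, m0, hm0, htop⟩ := htop ι ok Φ (hS4 A0 ι ok Φ hst) ep hep hep1 e1 he1 he11 J hJ
    hJ1
  have hCn : 0 ≤ Cn := (by positivity : (0 : ℝ) ≤ _).trans (hc 1 le_rfl)
  obtain ⟨m1, hm1⟩ := Filter.eventually_atTop.1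
    (((tendsto_rpow_atTop (show (0 : ℝ) < e / 2 by linarith)).comp
      tendsto_natCast_atTop_atTop).eventually_ge_atTop (C0 * C0 * Cg * Cst * Cn))
  refine ⟨max m0 m1, hm0.trans (le_max_left _ _), fun k hk => ?_⟩
  have hk0 : m0 ≤ k := (le_max_left _ _).trans hk
  have hk1 : m1 ≤ k := (le_max_right _ _).trans hk
  have h1k : 1 ≤ k := by omega
  have hkp : (0 : ℝ) < k := by exact_mod_cast h1k
  obtain ⟨hcur, htop⟩ := htop k hk0
  refine ⟨hcur, fun y hy1 hy2 i hok w Bw hBw hw0 hwB => ?_⟩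
  have hep2 : ep ≤ 1 / 100 := hep1.trans hκ1
  have hbs := G06_bs6 (F0 := F0K) (k := k) (by omega) (β := beC ep) (by unfold beC; linarith)
    (by unfold beC; linarith) (ex := [I, -I]) (meas_gV6 k true) (meas_gV6 k false)
    (fun w hw => II_re6 hw) (F00_gO k).symm (P := par6) hep hep2
  have key := htop _ _ _ _ hbs y hy1 hy2 i hok w Bw hBw hw0 hwB C0 Cg
    ‖kfa k true (vl (5 / 4 * l) y.1)‖ ‖kfa k false (vl (5 / 4 * l) y.2)‖
    ‖Dk (vl (5 / 4 * l) y.1 - vl (5 / 4 * l) y.2)‖ hC0 (norm_nonneg _) (norm_nonneg _)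
    (norm_nonneg _) (by
      rw [G06_MF]
      exact hkf k true y.1) (by
      rw [G06_MF]
      exact hkf k false y.2) (hdk y.1 y.2)
  have e1 : ‖c k * kR k y‖ = ‖c k‖ * (‖kfa k true (vl (5 / 4 * l) y.1)‖ *
      ‖kfa k false (vl (5 / 4 * l) y.2)‖ * ‖Dk (vl (5 / 4 * l) y.1 - vl (5 / 4 * l) y.2)‖) := by
    rw [kR_kfa, norm_mul, norm_mul, norm_mul]
  rw [e1, ENNReal.ofReal_mul (norm_nonneg _), mul_assoc]
  refine (mul_le_mul' le_rfl key).trans ?_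
  rw [← ENNReal.ofReal_mul (norm_nonneg _)]
  refine ENNReal.ofReal_le_ofReal ?_
  have hck := hc k h1k
  obtain ⟨X0, hX0⟩ : ∃ X0, X0 = Real.exp (_root_.PLX.EM2 k) := ⟨_, rfl⟩
  rw [EM2_G06, ← hX0]
  rw [← hX0] at hck
  have hX00 : 0 ≤ X0 := by
    rw [hX0]
    exact (Real.exp_pos _).le
  have hpow : (k : ℝ) ^ e = (k : ℝ) ^ (e / 2) * (k : ℝ) ^ (e / 2) := by
    rw [← Real.rpow_add hkp]
    congr 1
    ring
  have hbig : C0 * C0 * Cg * Cst * Cn ≤ (k : ℝ) ^ (e / 2) := hm1 k hk1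
  have hp0 : 0 ≤ (k : ℝ) ^ (e / 2) := by positivity
  have hm : Real.exp (-(2 * |y.1| + 2 * |y.2| + |y.1 - y.2| / 2)) = Real.exp (-mTR y) := rfl
  rw [hm]
  have hE0 := (Real.exp_pos (-mTR y)).le
  calc ‖c k‖ * (C0 * C0 * Cg * Bw * (Cst * (k : ℝ) ^ (e / 2) * X0 * Real.exp (-mTR y)))
      = Bw * (C0 * C0 * Cg * Cst * (‖c k‖ * X0)) * (k : ℝ) ^ (e / 2) * Real.exp (-mTR y) := by ring
    _ ≤ Bw * (C0 * C0 * Cg * Cst * Cn) * (k : ℝ) ^ (e / 2) * Real.exp (-mTR y) := by gcongr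
    _ ≤ Bw * (k : ℝ) ^ (e / 2) * (k : ℝ) ^ (e / 2) * Real.exp (-mTR y) := by gcongr
    _ = _ := by
        rw [hpow]
        ring

/-- **the regular main class at fixed half quanta in the window**: the value without statistic -/
theorem topR0_val6 (hS : StabProd6 par6) {e : ℝ} (he : 0 < e) : ∃ κ0 : ℝ, 0 < κ0 ∧ κ0 ≤ 1 / 100 ∧
      ∀ ep : ℝ, 0 < ep → ep ≤ κ0 → ∀ e1 : ℝ, 0 < e1 → e1 ≤ κ0 →
      ∀ J : ℝ, 0 ≤ J → Real.exp (-(2 * Real.pi * J)) ≤ κ0 →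
      ∀ (c : ℕ → ℂ) (Cn : ℝ), (∀ k, 1 ≤ k → ‖c k‖ * Real.exp (_root_.PLX.EM2 k) ≤ Cn) →
      ∃ k0 : ℕ, 2 ≤ k0 ∧ ∀ k ≥ k0,
      (∀ (r : ℕ) (_O : Fin r → Xo), CurB ep (etaC e1 J k k) (etaC' e1 J k k)) ∧
      ∀ y : ℝ × ℝ, |y.1| ≤ TW ep e1 k → |y.2| ≤ TW ep e1 k → ∀ M ≤ 2 * k,
      ‖c k * kR k y * ∑ n ∈ range (M + 1),
          FF6 (RZW (R06 (k - 1) (beC ep) [I, -I] (gV6 k true) (gV6 k false))
            (vl (5 / 4 * l) y.1) (vl (5 / 4 * l) y.2)) par6 n (n + Fil.xn (k - 1))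
            (fun _ _ => etaC e1 J k k) (fun _ _ => etaC' e1 J k k) (fun _ _ _ _ _ => 1)‖ ≤
        (k : ℝ) ^ e * Real.exp (-mTR y) := by
  obtain ⟨κ0, hκ, hκ1, h⟩ := topR06 hS 0 0 he
  refine ⟨κ0, hκ, hκ1, fun ep hep hep1 e1 he1 he11 J hJ hJ1 c Cn hc => ?_⟩
  obtain ⟨k0, hk0, h⟩ := h Unit (fun _ _ => True) _ (statFam_one6 _) ep hep hep1 e1 he1 he11 J hJ
    hJ1 c Cn hc
  refine ⟨k0, hk0, fun k hk => ?_⟩
  obtain ⟨hcur, h⟩ := h k hk
  refine ⟨hcur, fun y hy1 hy2 M hM => ?_⟩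
  have key := h y hy1 hy2 () trivial (fun _ _ => 1) 1 zero_le_one (fun _ _ => zero_le_one)
    (fun r O => by
      rw [zero_mul, Real.exp_zero, one_mul, one_mul]
      exact Real.one_le_exp (Finset.sum_nonneg fun i _ => PBP.PLX.gT_nonneg _ _ _))
  have hR : 0 ≤ (k : ℝ) ^ e * Real.exp (-mTR y) := by positivity
  rw [← ENNReal.ofReal_le_ofReal_iff hR, norm_mul, ENNReal.ofReal_mul (norm_nonneg _)]
  rw [one_mul] at key
  refine le_trans (mul_le_mul' le_rfl ?_) key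
  rw [ofReal_norm]
  refine (enorm_sum_le _ _).trans ?_
  refine le_trans (Finset.sum_le_sum fun n _ => FF6_le _) ?_
  refine (Finset.sum_le_sum_of_subset (f := fun n =>
    FA6 (RZW (R06 (k - 1) (beC ep) [I, -I] (gV6 k true) (gV6 k false))
      (vl (5 / 4 * l) y.1) (vl (5 / 4 * l) y.2)) par6 n (n + Fil.xn (k - 1))
      (fun _ _ => etaC e1 J k k) (fun _ _ => etaC' e1 J k k) (fun _ _ _ _ _ => 1))
    (show range (M + 1) ⊆ range (2 * k + 1) from Finset.range_subset_range.2 (by omega))).trans ?_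
  refine Finset.sum_le_sum fun n _ => ?_
  rw [FA_eq_FE6]
  exact FE_mono6 fun r O a b x => by simp

end PBI.PLX

end
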