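import Pool.Agent.PHK.AsmI
import Pool.Agent.PHK.TopI6
import Pool.Agent.PHK.Lt6
import Pool.Agent.PLX.NUGC.AsmK
import Pool.Agent.PLX.NUGC.QC3
import Pool.Agent.PLX.NUGC.CurEx
import Pool.Agent.PLX.PB.OthInt

/-!
# (P): the class `W1 W1'` at fixed half quanta, with statistics and pinned objects

Abstract geometry `G : PBO.Geo`, base functions `X` (`PBR.PLX.Bs6`, any number `e` of additional rows), half
quanta at `5/4 l + i y.1`, `5/4 l + i y.2`, both heights in the window `TW`.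

* `ZW6 X y`: the one body functions of the class; `oneC_WW6`; `gW_eq6`: the spectators of the quanta are the
  groups of the class (everywhere);
* `QX_ww6`, `exp_log_mul6`: bookkeeping;
* **`topR_gas6`**: the sum over the numbers of quanta and the configurations of the functional with
  moduli, with a statistic `Φ i` and a weight of the objects `w ≤ Bw e^{K2 r} ∏ exp gT`, is at most
  `Bw Cst m^(Ca (ep + e1) + δ) exp (m² EM) exp (m MF) exp (m MF') exp (- gnP) exp (|τ - τ'| / 2)`;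
* **`topR6`**: times the kernels: `Bw Cst m^e exp (m² EM) exp (- 2|τ| - 2|τ'| - |τ - τ'| / 2)`.
-/

set_option autoImplicit false
set_option linter.unusedSectionVars false

noncomputable section

open Complex MeasureTheory Finset
open scoped ENNReal

open PLX (Fil Ends)

namespace PBI.PLX

open NUGC NUGC.PLX PBO PBO.PLX PBF PBF.PLX PBR PBR.PLX PHK
open NUO NUP1 NUCR NUP1S NUP1S.Ab NUP1S.AbC NUP1S.AbG NURow NUP1.Leg NUStabP NUDispW
open NUSea.PLX.H0 (Gd)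
open NUSp (qc)
open PBP.PLX (gT)

/-! ### the one body functions of the class -/

/-- the one body functions of the class `W1 W1'`, half quanta at the heights `y` -/
def ZW6 (X : Bool → Option O3 → ℂ → ℂ) (y : ℝ × ℝ) (b : Bool) : Option O3 → ℂ → ℂ :=
  XS b (X b) (htF .W) (fl (htF .W)) (vl (htL .W) y.1) (vl (htL .W) y.2)

/-- moduli of the spectators of the quanta -/
def gW6 (y : ℝ × ℝ) (a : Bool) (z : ℂ) : ℝ :=
  ‖sG (htF .W) (htF .W) (vl (htL .W) y.1) (vl (htL .W) y.2) a z‖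

theorem oneC_WW6 {X : Bool → Option O3 → ℂ → ℂ} {ob : (Bool → ℂ → ℝ) → OB} {P : Par6}
    {x κ : ℝ} {e : ℕ} {E0 : Set ℝ} (hB : Bs6 X ob P x κ e E0) (y : ℝ × ℝ) :
    OneC6 (ZW6 X y) (ob (gW6 y)) P x κ (19 / 20 * l) (((0 : ℕ) : ℤ) - (e : ℕ))
      ({(vl (htL .W) y.1).im, (vl (htL .W) y.2).im} ∪ E0) := by
  have hw : (vl (htL .W) y.1).re = htL .W := by simp [vl]
  have hw' : (vl (htL .W) y.2).re = htL .W := by simp [vl]
  exact cls_one6 hB (lt6_ht .W) (lt6_ht .W) hw hw' (aX := 0) (aY := e) (by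
    push_cast
    ring)

/-- the spectators of the class are its groups -/
theorem spF_gW6 (y : ℝ × ℝ) (a : Bool) (z : ℂ) :
    spF (gdK .W .W (false, false) y) a z = gW6 y a z := by
  have key : ∀ (s : Bool) (τ : ℝ), spL (lsG ⟨.w, true, s, τ⟩) a z =
      ‖SF (a == s) none (vl (5 / 4 * l) τ - z)‖ := by
    intro s τ
    show hq s (vl (Ek.ps .h5 * l) τ) a z * 1 = _
    rw [hq_SF, vl_ps .h5 (x := 5 / 4) (by norm_num [Ek.x]), mul_one]
  unfold spF
  rw [Fin.prod_univ_two]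
  show spL (lsG ⟨.w, true, true, y.1⟩) a z * spL (lsG ⟨.w, true, false, y.2⟩) a z = _
  rw [key, key]
  unfold gW6 sG
  rw [norm_mul]
  have e1 : (a == true) = a := by cases a <;> rfl
  have e2 : (a == false) = !a := by cases a <;> rfl
  rw [e1, e2]
  rfl

theorem gW_eq6 (B : OB) (y : ℝ × ℝ) :
    B.mul (spF (gdK .W .W (false, false) y)) = B.mul (gW6 y) := by
  have e : spF (gdK .W .W (false, false) y) = gW6 y := funext fun a => funext fun z => spF_gW6 y a z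
  rw [e]

theorem QX_ww6 {T : ℝ} {y : ℝ × ℝ} (h1 : |y.1| ≤ T) (h2 : |y.2| ≤ T) :
    QX T 1 1 y.1 y.2 = Real.exp (|y.1 - y.2| / 2) := by
  have e1 : ∀ τ, ex T 1 τ = 0 := fun τ => if_pos rfl
  unfold QX MQ QI0
  rw [if_pos ⟨h1, h2⟩, e1, e1, max_self, ← Real.exp_add]
  congr 1
  ring

theorem exp_log_mul6 {m : ℕ} (hm : 1 ≤ m) (δ : ℝ) :
    Real.exp (δ * Real.log m) = (m : ℝ) ^ δ := by
  have h0 : (0 : ℝ) < m := by exact_mod_cast hm
  rw [Real.rpow_def_of_pos h0, mul_comm]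

variable [Fil] [NUSea.Sea] [Ends]

/-- **the class `W1 W1'` at fixed half quanta, the gas side**; the smallness of `ep`, `e1`, `exp (-2πJ)` is
independent of the statistic -/
theorem topR_gas6 {G : Geo} (hB : ∀ m β, (G.B m β).Nn) (hS : StabProd6 par6) {C3 : ℝ}
    (hspec : SpecPin6 C3) (h1 : OneRT6 G) (K K2 : ℝ)
    {δ : ℝ} (hδ : 0 < δ) : ∃ a0 : ℝ, 0 < a0 ∧
      ∀ (ι : Type*) (ok : ℕ → ι → Prop) (Φ : ι → ℕ → ℕ → InsE) (Ca : ℝ), S4K6 G ok Φ K Ca →
      ∀ ep : ℝ, 0 < ep → ep ≤ 1 / 100 → ∀ e1 : ℝ, 0 < e1 → e1 ≤ 1 / 100 → ∀ J : ℝ, 0 ≤ J →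
      Real.exp (-(2 * Real.pi * J)) + 3 * e1 + 3 * ep ≤ a0 →
      ∃ Cst : ℝ, 0 ≤ Cst ∧ ∃ m0 : ℕ, 2 ≤ m0 ∧ ∀ m ≥ m0,
      (∀ (r : ℕ) (_O : Fin r → Xo), CurB ep (etaC e1 J m m) (etaC' e1 J m m)) ∧
      ∀ (X : Bool → Option O3 → ℂ → ℂ) (κ : ℝ) (er : ℕ) (E0 : Set ℝ),
      Bs6 X (fun g => (G.B m (beC ep)).mul g) par6 ep κ er E0 →
      ∀ y : ℝ × ℝ, |y.1| ≤ TW ep e1 m → |y.2| ≤ TW ep e1 m → ∀ i : ι, ok m i →
      ∀ (w : (r : ℕ) → (Fin r → Xo) → ℝ) (Bw : ℝ), 0 ≤ Bw → (∀ r O, 0 ≤ w r O) →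
      (∀ (r : ℕ) (O : Fin r → Xo), w r O ≤ Bw * Real.exp (K2 * r) *
          Real.exp (∑ i, gT e1 (Real.log m) (ht (O i)))) →
      ∑ N ∈ range (2 * m + 1), FE6 (ZW6 X y) par6 N (N + Fil.xe m)
          (fun _ _ => etaC e1 J m m)
          (fun _ _ => etaC' e1 J m m) (fun r O a b x => ENNReal.ofReal (w r O) *
            Φ i m N r O a b x) ≤
        ENNReal.ofReal (Bw * (Cst * (m : ℝ) ^ (Ca * (ep + e1) + δ) *
          Real.exp (G.EM m) *
          (Real.exp (G.MF m true .w (vl (htL .W) y.1)) * Real.exp (G.MF m false .w (vl (htL .W) y.2))) *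
          Real.exp (-gnP e1 J m (-(3 * NUMF.l)) (-(3 * NUMF.l)) y) *
          Real.exp (|y.1 - y.2| / 2))) := by
  obtain ⟨C, c, b, c1, k, hC, hc, hb, hc1, hper⟩ := perI_ofK6 hB hS hspec h1 K K2
  obtain ⟨K3, hK3, hQ2⟩ := grp_QX
  obtain ⟨a0, ha0, hsum⟩ := fe_sum6 (k := k) hC hc hb hc1 le_rfl (δ := δ / 2) (by linarith)
  refine ⟨a0, ha0, fun ι ok Φ Ca h4 ep hep hep1 e1 he1 he11 J hJ hsm => ?_⟩
  have hper := hper ι ok Φ Ca h4
  obtain ⟨L0, hsum⟩ := hsum 1 zero_le_one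
  obtain ⟨d, Cst, hd, hCst, M0, hper⟩ := hper ep hep hep1 e1 he1 he11 J hJ (δ / 2) (by linarith)
  obtain ⟨m1, hm1, hcur⟩ := curOKC he1 he11 hJ hep
  obtain ⟨m2, hm2⟩ := Filter.eventually_atTop.1
    ((Real.tendsto_log_atTop.comp tendsto_natCast_atTop_atTop).eventually_ge_atTop L0)
  obtain ⟨c0, hxe⟩ : ∃ c : ℕ, ∀ m, Fil.xe m ≤ Fil.q * m + c := ⟨Ends.o, Fil.xe_le⟩
  refine ⟨4 * (1 + 1 / d) * (Cst * Real.exp K3), by positivity,
    max (max M0 m1) (max m2 (2 * Fil.q + 2 * c0 + 9)), ?_, fun m hm => ?_⟩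
  · have := le_max_right (max M0 m1) (max m2 (2 * Fil.q + 2 * c0 + 9))
    have := le_max_right m2 (Fil.q + c0 + 6)
    omega
  have hM0 : M0 ≤ m := ((le_max_left _ _).trans (le_max_left _ _)).trans hm
  have hM1 : m1 ≤ m := ((le_max_right _ _).trans (le_max_left _ _)).trans hm
  have hM2 : m2 ≤ m := ((le_max_left _ _).trans (le_max_right _ _)).trans hm
  have hMq : 2 * Fil.q + 2 * c0 + 9 ≤ m := ((le_max_right _ _).trans (le_max_right _ _)).trans hm
  have hM5 : 5 ≤ m := by omega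
  have hmp : (0 : ℝ) < m := by
    have : 0 < m := by omega
    exact_mod_cast this
  have hcurm : ∀ (r : ℕ) (_O : Fin r → Xo), CurB ep (etaC e1 J m m) (etaC' e1 J m m) :=
    fun r _ => hcur m hM1 _ (by (clear * - hmp; linarith))
  refine ⟨hcurm, fun X κ er E0 hX y hy1 hy2 i hok w Bw hBw hw0 hwB => ?_⟩
  have hTW0 : 0 ≤ TW ep e1 m := (abs_nonneg _).trans hy1
  have key := hper m hM0 2 (gdK .W .W (false, false) y) 0 (Fil.xe m) m
    (Real.exp K3 * QX (TW ep e1 m) (qh .W false) (qh .W false) y.1 y.2) le_rfl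
    (by
      intro i j hij
      fin_cases i <;> fin_cases j
      · exact absurd rfl hij
      · show true ≠ false
        simp
      · show false ≠ true
        simp
      · exact absurd rfl hij)
    (by norm_num) (Nat.le_add_right _ _) (Nat.le_add_right _ _)
    (by
      rw [Fin.sum_univ_two]
      show ((0 : ℕ) : ℝ) + Fil.xe m - ((Fil.xe m : ℕ) : ℝ) = -(NUC43.sg true * qc (clh .W false) / 2 +
        NUC43.sg false * qc (clh .W false) / 2)
      unfold NUC43.sg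
      simp only [if_true, Bool.false_eq_true, if_false, Nat.cast_zero]
      ring)
    (by
      rw [sub_self, abs_zero]
      norm_num)
    (by
      intro i
      fin_cases i
      · exact hy1
      · exact hy2)
    (mul_nonneg (Real.exp_pos _).le (QX_nonneg _ _ _ _ _))
    (by
      intro T1 hT1
      have k1 := hQ2 (gdK .W .W (false, false) y) rfl rfl (by
        intro i
        fin_cases i <;> simp [gdK, clh]) (TW ep e1 m) T1 hTW0 hT1 (by
        intro i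
        left
        fin_cases i <;> rfl)
      refine le_trans (le_of_eq ?_) k1
      unfold enQ
      congr 1
      have x1 : xs T1 y.1 = 0 := by
        unfold xs
        exact max_eq_right (by (clear * - hy1 hT1; linarith))
      have x2 : xs T1 y.2 = 0 := by
        unfold xs
        exact max_eq_right (by (clear * - hy2 hT1; linarith))
      show _ = 1 / 2 * _ + NUSea.PLX.H0.cstF T1 (gdK .W .W (false, false) y) true *
        (-∑ i, NUC43.sg ((gdK .W .W (false, false) y) i).σ *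
          qc ((gdK .W .W (false, false) y) i).c / 2) + 37 / 20 * max (xs T1 y.1) (xs T1 y.2) +
        12 / 5 * max (ex (TW ep e1 m) (qc (clh .W false)) y.1)
          (ex (TW ep e1 m) (qc (clh .W false)) y.2)
      have x3 : ∀ τ, ex (TW ep e1 m) (qc (clh .W false)) τ = 0 := by
        intro τ
        unfold ex
        rw [if_pos]
        simp [clh, qc]
      have x4 : (∑ i, NUC43.sg ((gdK .W .W (false, false) y) i).σ *
          qc ((gdK .W .W (false, false) y) i).c / 2) = 0 := by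
        rw [Fin.sum_univ_two]
        show NUC43.sg true * qc (clh .W false) / 2 +
          NUC43.sg false * qc (clh .W false) / 2 = 0
        unfold NUC43.sg
        simp only [if_true, Bool.false_eq_true, if_false]
        ring
      rw [x1, x2, x3, x3, x4]
      simp)
    i hok w Bw hBw hw0 hwB
  have hgnF : gnF e1 J m (gdK .W .W (false, false) y) =
      gnP e1 J m (-(3 * NUMF.l)) (-(3 * NUMF.l)) y := by
    unfold gnF gnP
    rw [Fin.sum_univ_two]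
    show 12 * NUMF.l * NUGC.PLX.hC e1 J m 0 + (2 * (phC .w * NUGC.PLX.hC e1 J m y.1) +
      2 * (phC .w * NUGC.PLX.hC e1 J m y.2)) = _
    unfold phC
    ring
  have hMF : ∑ i, G.MF m (gdK .W .W (false, false) y i).σ (gdK .W .W (false, false) y i).c
      (gdK .W .W (false, false) y i).w =
      G.MF m true .w (vl (htL .W) y.1) + G.MF m false .w (vl (htL .W) y.2) := by
    rw [Fin.sum_univ_two, ← w_gd true .W false y.1, ← w_gd false .W false y.2]
    rfl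
  have hqh : qh .W false = 1 := by simp [qh, clh, qc]
  rw [hgnF, hMF, hqh, QX_ww6 hy1 hy2] at key
  rw [show ((G.B m (4 / 3 * (1 - ep))).mul (spF (gdK .W .W (false, false) y))) =
    (G.B m (beC ep)).mul (gW6 y) from gW_eq6 (G.B m (beC ep)) y] at key
  have hL0 : L0 ≤ Real.log m := hm2 m hM2
  have hnum : ((2 * (2 * (2 * m) + (0 + Fil.xe m)) + 1 : ℕ) : ℝ) ≤ Real.exp (2 * Real.log m) := by
    have e : Real.exp (2 * Real.log m) = (m : ℝ) * m := by
      rw [two_mul, Real.exp_add, Real.exp_log hmp]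
    rw [e]
    have h2 := hxe m
    have h3 : (2 * Fil.q + 2 * c0 + 9) * m ≤ m * m := Nat.mul_le_mul_right _ hMq
    have h4 : (2 * Fil.q + 2 * c0 + 9) * m = 2 * (Fil.q * m) + 2 * (c0 * m) + 9 * m := by ring
    have h5 : c0 * 1 ≤ c0 * m := Nat.mul_le_mul_left _ (by omega)
    have : 2 * (2 * (2 * m) + (0 + Fil.xe m)) + 1 ≤ m * m := by omega
    exact_mod_cast this
  have hone := oneC_WW6 hX y
  have h5 := hsum (Real.log m) hL0 ep hep.le hep1 e1 he1 (by (clear * - hep hep1 he11; linarith)) J hJ hsm m d _ (2 * m) 0 (Fil.xe m)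
    (ZW6 X y) ((G.B m (beC ep)).mul (gW6 y)) par6 κ (19 / 20 * l) _ _ _ _ _ hd ?_ hnum
    hone (fun n _ r O => hcurm r O) key
  swap
  · (clear * - hBw hCst hM5; positivity)
  simp only [add_zero] at h5
  refine h5.trans (ENNReal.ofReal_le_ofReal (le_of_eq ?_))
  have hm1' : 1 ≤ m := by omega
  rw [exp_log_mul6 hm1']
  have hpow : (m : ℝ) ^ (Ca * (ep + e1) + δ) =
      (m : ℝ) ^ (Ca * (ep + e1) + δ / 2) * (m : ℝ) ^ (δ / 2) := by
    rw [← Real.rpow_add hmp]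
    congr 1
    ring
  rw [hpow, Real.exp_add (G.MF m true .w (vl (htL .W) y.1))]
  ring

/-- the near gain of two bare half quanta in the window -/
theorem gnP_near6 {ep e1 J : ℝ} {m : ℕ} (he : 0 < e1) (he1 : e1 ≤ 1 / 100) (hJ : 0 ≤ J)
    (hT : 20 ≤ Tb (Real.log m)) (hep : 0 ≤ ep) {y : ℝ × ℝ} (h1 : |y.1| ≤ TW ep e1 m)
    (h2 : |y.2| ≤ TW ep e1 m) :
    |y.1| + |y.2| - (6 * e1 + 4 * ep) * Tb (Real.log m) - 20 ≤
      gnP e1 J m (-(3 * NUMF.l)) (-(3 * NUMF.l)) y := by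
  have h := gnP_ww he he1 hJ hT y
  have hD : NUGC.PLX.DC e1 m = (1 - e1) * Tb (Real.log m) - 2 := rfl
  have hTW : TW ep e1 m = (1 + 2 * e1 + 2 * ep) * Tb (Real.log m) := rfl
  have hmin : ∀ x : ℝ, x ≤ TW ep e1 m →
      x - ((3 * e1 + 2 * ep) * Tb (Real.log m) + 2) ≤ min x (NUGC.PLX.DC e1 m) := by
    intro x hx
    refine le_min ?_ ?_
    · have : 0 ≤ (3 * e1 + 2 * ep) * Tb (Real.log m) := by positivity
      linarith
    · rw [hD]
      rw [hTW] at hx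
      linarith
  have a1 := hmin _ h1
  have a2 := hmin _ h2
  linarith

/-- **the class `W1 W1'` at fixed half quanta, with the kernels (U5N)**: `k1`, `k2` = moduli of the own
kernels, `gg` = modulus of the direct factor; the smallness of `ep`, `e1`, `exp (-2πJ)` is independent of
the statistic -/
theorem topR6 {G : Geo} (hB : ∀ m β, (G.B m β).Nn) (hS : StabProd6 par6) {C3 : ℝ}
    (hspec : SpecPin6 C3) (h1 : OneRT6 G) (K K2 : ℝ)
    {Ca : ℝ} (hCa : 0 ≤ Ca) {e : ℝ} (he : 0 < e) :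
    ∃ κ0 : ℝ, 0 < κ0 ∧ κ0 ≤ 1 / 100 ∧
      ∀ (ι : Type*) (ok : ℕ → ι → Prop) (Φ : ι → ℕ → ℕ → InsE), S4K6 G ok Φ K Ca →
      ∀ ep : ℝ, 0 < ep → ep ≤ κ0 → ∀ e1 : ℝ, 0 < e1 → e1 ≤ κ0 →
      ∀ J : ℝ, 0 ≤ J → Real.exp (-(2 * Real.pi * J)) ≤ κ0 →
      ∃ Cst : ℝ, 0 ≤ Cst ∧ ∃ m0 : ℕ, 2 ≤ m0 ∧ ∀ m ≥ m0,
      (∀ (r : ℕ) (_O : Fin r → Xo), CurB ep (etaC e1 J m m) (etaC' e1 J m m)) ∧
      ∀ (X : Bool → Option O3 → ℂ → ℂ) (κ : ℝ) (er : ℕ) (E0 : Set ℝ),
      Bs6 X (fun g => (G.B m (beC ep)).mul g) par6 ep κ er E0 →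
      ∀ y : ℝ × ℝ, |y.1| ≤ TW ep e1 m → |y.2| ≤ TW ep e1 m → ∀ i : ι, ok m i →
      ∀ (w : (r : ℕ) → (Fin r → Xo) → ℝ) (Bw : ℝ), 0 ≤ Bw → (∀ r O, 0 ≤ w r O) →
      (∀ (r : ℕ) (O : Fin r → Xo), w r O ≤ Bw * Real.exp (K2 * r) *
          Real.exp (∑ i, gT e1 (Real.log m) (ht (O i)))) →
      ∀ C0 Cg k1 k2 gg : ℝ, 0 ≤ C0 → 0 ≤ k1 → 0 ≤ k2 → 0 ≤ gg →
      k1 * Real.exp (G.MF m true .w (vl (htL .W) y.1)) ≤ C0 * Real.exp (-|y.1|) →
      k2 * Real.exp (G.MF m false .w (vl (htL .W) y.2)) ≤ C0 * Real.exp (-|y.2|) →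
      gg ≤ Cg * Real.exp (-|y.1 - y.2|) →
      ENNReal.ofReal (k1 * k2 * gg) *
        ∑ N ∈ range (2 * m + 1), FE6 (ZW6 X y) par6 N (N + Fil.xe m)
          (fun _ _ => etaC e1 J m m)
          (fun _ _ => etaC' e1 J m m) (fun r O a b x => ENNReal.ofReal (w r O) *
            Φ i m N r O a b x) ≤
        ENNReal.ofReal (C0 * C0 * Cg * Bw * (Cst * (m : ℝ) ^ e * Real.exp (G.EM m) *
          Real.exp (-(2 * |y.1| + 2 * |y.2| + |y.1 - y.2| / 2)))) := by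
  obtain ⟨a0, ha0, hgas⟩ := topR_gas6 hB hS hspec h1 K K2 (δ := e / 2) (by linarith)
  refine ⟨min (1 / 100) (min (a0 / 7) (e / (4 * (Ca + 3)))), by positivity, min_le_left _ _, ?_⟩
  intro ι ok Φ h4 ep hep hep1 e1 he1 he11 J hJ hJ1
  have b1 : ep ≤ 1 / 100 := hep1.trans (min_le_left _ _)
  have b2 : ep ≤ a0 / 7 := hep1.trans ((min_le_right _ _).trans (min_le_left _ _))
  have b3 : ep ≤ e / (4 * (Ca + 3)) := hep1.trans ((min_le_right _ _).trans (min_le_right _ _))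
  have c1 : e1 ≤ 1 / 100 := he11.trans (min_le_left _ _)
  have c2 : e1 ≤ a0 / 7 := he11.trans ((min_le_right _ _).trans (min_le_left _ _))
  have c3 : e1 ≤ e / (4 * (Ca + 3)) := he11.trans ((min_le_right _ _).trans (min_le_right _ _))
  have d2 : Real.exp (-(2 * Real.pi * J)) ≤ a0 / 7 :=
    hJ1.trans ((min_le_right _ _).trans (min_le_left _ _))
  obtain ⟨Cst, hCst, m0, hm0, hgas⟩ := hgas ι ok Φ Ca h4 ep hep b1 e1 he1 c1 J hJ (by (clear * - b2 c2 d2; linarith))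
  obtain ⟨m2, hm2⟩ := Filter.eventually_atTop.1
    ((Real.tendsto_log_atTop.comp tendsto_natCast_atTop_atTop).eventually_ge_atTop
      (60 : ℝ))
  refine ⟨Cst * Real.exp 20, by positivity, max m0 m2,
    hm0.trans (le_max_left _ _), fun m hm => ?_⟩
  have hM0 : m0 ≤ m := (le_max_left _ _).trans hm
  have hM2 : m2 ≤ m := (le_max_right _ _).trans hm
  have hm1 : 1 ≤ m := by omega
  have hmp : (0 : ℝ) < m := by exact_mod_cast hm1
  have hm1' : (1 : ℝ) ≤ m := by exact_mod_cast hm1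
  have hL60 : (60 : ℝ) ≤ Real.log m := hm2 m hM2
  have hTb : Tb (Real.log m) = 3 / 8 * Real.log m := rfl
  have hT : 20 ≤ Tb (Real.log m) := by
    rw [hTb]
    clear * - hep b1 hL60
    linarith
  obtain ⟨hcur, hgas⟩ := hgas m hM0
  refine ⟨hcur, fun X κ er E0 hX y hy1 hy2 i hok w Bw hBw hw0 hwB C0 Cg k1 k2 gg hC0 hk1 hk2 hgg h1 h2
    h3 => ?_⟩
  have hCg : 0 ≤ Cg := by
    have := hgg.trans h3
    exact nonneg_of_mul_nonneg_left this (Real.exp_pos _)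
  have key := hgas X κ er E0 hX y hy1 hy2 i hok w Bw hBw hw0 hwB
  have hgn := gnP_near6 he1 c1 hJ hT hep.le hy1 hy2
  refine (mul_le_mul' le_rfl key).trans ?_
  rw [← ENNReal.ofReal_mul (by positivity)]
  refine ENNReal.ofReal_le_ofReal ?_
  obtain ⟨E1, hE1⟩ : ∃ E1, E1 = Real.exp (G.MF m true .w (vl (htL .W) y.1)) := ⟨_, rfl⟩
  obtain ⟨E2, hE2⟩ : ∃ E2, E2 = Real.exp (G.MF m false .w (vl (htL .W) y.2)) := ⟨_, rfl⟩
  obtain ⟨X0, hX0⟩ : ∃ X0, X0 = Real.exp (G.EM m) := ⟨_, rfl⟩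
  rw [← hE1] at h1 ⊢
  rw [← hE2] at h2 ⊢
  rw [← hX0]
  have hE10 : 0 ≤ E1 := by
    rw [hE1]
    exact (Real.exp_pos _).le
  have hE20 : 0 ≤ E2 := by
    rw [hE2]
    exact (Real.exp_pos _).le
  have hX00 : 0 ≤ X0 := by
    rw [hX0]
    exact (Real.exp_pos _).le
  have hp0 : 0 ≤ (m : ℝ) ^ (Ca * (ep + e1) + e / 2) := by positivity
  have hk : k1 * E1 * (k2 * E2) * gg ≤ (C0 * Real.exp (-|y.1|)) * (C0 * Real.exp (-|y.2|)) *
      (Cg * Real.exp (-|y.1 - y.2|)) :=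
    mul_le_mul (mul_le_mul h1 h2 (by positivity) (by positivity)) h3 hgg (by positivity)
  -- the gain
  have hgain : Real.exp (-gnP e1 J m (-(3 * NUMF.l)) (-(3 * NUMF.l)) y) ≤
      Real.exp 20 * Real.exp (-|y.1| - |y.2|) * (m : ℝ) ^ (9 / 4 * (ep + e1)) := by
    rw [← exp_log_mul6 hm1, ← Real.exp_add, ← Real.exp_add]
    refine Real.exp_le_exp.2 ?_
    have : (6 * e1 + 4 * ep) * Tb (Real.log m) ≤ 9 / 4 * (ep + e1) * Real.log m := by
      rw [hTb]
      have : 0 ≤ Real.log m := by (clear * - hep b1 hL60; linarith)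
      clear * - hep this he1
      nlinarith [mul_nonneg hep.le this, mul_nonneg he1.le this]
    clear * - hgn this
    linarith
  have hpow : (m : ℝ) ^ (Ca * (ep + e1) + e / 2) * (m : ℝ) ^ (9 / 4 * (ep + e1)) ≤ (m : ℝ) ^ e := by
    rw [← Real.rpow_add hmp]
    refine Real.rpow_le_rpow_of_exponent_le hm1' ?_
    have h4 : ep + e1 ≤ e / (2 * (Ca + 3)) := by
      have : e / (2 * (Ca + 3)) = e / (4 * (Ca + 3)) + e / (4 * (Ca + 3)) := by
        field_simp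
        norm_num
      clear * - b3 c3 this
      linarith
    rw [le_div_iff₀ (by positivity)] at h4
    clear * - hep he1 h4
    nlinarith
  have hexp : Real.exp (-|y.1|) * Real.exp (-|y.2|) * Real.exp (-|y.1 - y.2|) *
      Real.exp (-|y.1| - |y.2|) * Real.exp (|y.1 - y.2| / 2) =
      Real.exp (-(2 * |y.1| + 2 * |y.2| + |y.1 - y.2| / 2)) := by
    rw [← Real.exp_add, ← Real.exp_add, ← Real.exp_add, ← Real.exp_add]
    congr 1
    ring
  calc k1 * k2 * gg * (Bw * (Cst * (m : ℝ) ^ (Ca * (ep + e1) + e / 2) * X0 * (E1 * E2) *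
        Real.exp (-gnP e1 J m (-(3 * NUMF.l)) (-(3 * NUMF.l)) y) * Real.exp (|y.1 - y.2| / 2)))
      = Bw * (k1 * E1 * (k2 * E2) * gg) * (Cst * (m : ℝ) ^ (Ca * (ep + e1) + e / 2) * X0) *
        Real.exp (-gnP e1 J m (-(3 * NUMF.l)) (-(3 * NUMF.l)) y) *
        Real.exp (|y.1 - y.2| / 2) := by ring
    _ ≤ Bw * ((C0 * Real.exp (-|y.1|)) * (C0 * Real.exp (-|y.2|)) *
        (Cg * Real.exp (-|y.1 - y.2|))) * (Cst * (m : ℝ) ^ (Ca * (ep + e1) + e / 2) * X0) *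
        (Real.exp 20 * Real.exp (-|y.1| - |y.2|) * (m : ℝ) ^ (9 / 4 * (ep + e1))) *
        Real.exp (|y.1 - y.2| / 2) := by (clear * - hBw hC0 hCg hCst hm1 hX00 hk hgain; gcongr)
    _ = C0 * C0 * Cg * Bw * (Cst * Real.exp 20 *
        ((m : ℝ) ^ (Ca * (ep + e1) + e / 2) * (m : ℝ) ^ (9 / 4 * (ep + e1))) * X0 *
        (Real.exp (-|y.1|) * Real.exp (-|y.2|) * Real.exp (-|y.1 - y.2|) *
      Real.exp (-|y.1| - |y.2|) * Real.exp (|y.1 - y.2| / 2))) := by ring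
    _ ≤ C0 * C0 * Cg * Bw * (Cst * Real.exp 20 * (m : ℝ) ^ e * X0 *
        (Real.exp (-|y.1|) * Real.exp (-|y.2|) * Real.exp (-|y.1 - y.2|) *
      Real.exp (-|y.1| - |y.2|) * Real.exp (|y.1 - y.2| / 2))) := by (clear * - hC0 hCg hBw hCst hpow hX00; gcongr)
    _ = _ := by rw [hexp]

end PBI.PLX

end
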