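import Pool.Agent.PHK.TopC6
import Pool.Agent.PHK.ZL6
import Pool.Agent.PHK.OneT6
import Pool.Agent.PHK.PotH.Red6
import Pool.Agent.PLX.PB.ParZ
import Pool.Agent.PLX.PB.ValG

/-!
# (P): the dislocated function from the bound of its gas

Rows `mu1 k x` (`k + 1` rows of X, every row `q`-fold in Y), legs at `z`, curve of `m = k + 1 + e` rows,
`e = Ends.e`, `Ends.o = 0`; string cut with the factor `om` at `T1 = Tb (log m) + τ`, `τ ≥ tauL6`.

* **`topV6`**: abstract one body data `(Z, B)` and value `Nf exp lin ≤ V`;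
* **`topS6`**: the sum over the quanta from the bound of the gas of every configuration.
-/

set_option autoImplicit false
set_option linter.unusedSectionVars false

noncomputable section

open Complex MeasureTheory Finset
open scoped ENNReal
open PLX (Fil Ends)

namespace PHK

open NUO NUP1 NUP1S NUP1S.Ab NUP1S.AbC NUGC.PLX NUCR
open PBF.PLX (Crs curZ_crs InsE FE6)
open PBX (ph)
open PBL.PLX (mu1)
open PBP.PLX (gT)
open PBT.PLX (etL etL' crL crL' linS valS)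
open PotH.PLX (crH oneEH6 sN)
open Pool.Agent.PLX (rwq)

variable [Fil]

variable [Ends]

attribute [local instance] NUSea.seaP

private theorem tw_geL {ep e1 : ℝ} (h0 : 0 < ep) (h1 : ep ≤ 1 / 100) (he : 0 ≤ e1) {m : ℕ}
    (hm : 1 ≤ m) : Tb (Real.log m) / (1 - ep) ≤ TW ep e1 m := by
  have hL : 0 ≤ Real.log m := Real.log_nonneg (by exact_mod_cast hm)
  unfold TW Tb
  rw [div_le_iff₀ (by linarith)]
  have h2 : 0 ≤ 3 / 8 * Real.log m := by positivity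
  have h3 : 1 ≤ (1 + 2 * e1 + 2 * ep) * (1 - ep) := by nlinarith
  nlinarith

/-! ### abstract form -/

/-- **the sum over the quanta, abstract one body data and value** -/
theorem topV6 {en : (r : ℕ) → (Fin r → Xo) → ℝ} (hS : StabE par6 en) (K K2 : ℝ) :
    ∃ K' c1 : ℝ, 0 < c1 ∧
    ∀ (Ca c c2 aS τ c' : ℝ) (k0 : ℕ), 0 < Ca → 0 < c → 0 < c2 → 0 ≤ aS → 0 ≤ c' →
    ∀ δ : ℝ, 0 < δ →
    ∃ a0 : ℝ, 0 < a0 ∧ ∀ ep : ℝ, 0 < ep → ep ≤ 1 / 100 → ∀ e1 : ℝ, 0 < e1 → e1 ≤ 1 / 100 →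
    ∀ J : ℝ, 0 ≤ J → Real.exp (-(2 * Real.pi * J)) + 3 * e1 + 3 * ep ≤ a0 →
    ∃ m0 : ℕ, 6 ≤ m0 ∧ ∀ m : ℕ, m0 ≤ m →
    ∀ (Z : Bool → Option O3 → ℂ → ℂ) (B : OB) (κ x0 : ℝ) (Qc : ℤ) (E : Set ℝ),
      OneC6 Z B par6 ep κ x0 Qc E → B.Nn →
      (∀ r ≤ 2 * (4 * m + Fil.xe m), ∀ (O : Fin r → Xo) (i : Fin r),
        ob6 B par6 (O i) * Real.exp (oneEH6 m (etL e1 J m) (TW ep e1 m) O i + K') ≤
          act6 Ca c c2 aS τ k0 (Real.log m) ep e1 J r (k6 (O i)) (ht (O i)) *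
            Real.exp (-gT e1 (Real.log m) (ht (O i)))) →
      ∀ (φ : ℕ → InsE) (w : ℕ → (r : ℕ) → (Fin r → Xo) → ℝ) (Q Bw d Nf lin V : ℝ), 0 ≤ Q →
      0 ≤ Bw → 0 < d → 0 ≤ Nf → Nf * Real.exp lin ≤ V →
      (∀ n ≤ 2 * m, ∀ r ≤ 2 * (2 * n + Fil.xe m), ∀ O : Fin r → Xo, 0 ≤ w n r O ∧
        w n r O ≤ (if (r : ℝ) ≤ Real.log m then Bw else Bw * Real.exp (c' * Real.log m)) *
          Real.exp (K2 * r) * Real.exp (∑ i, gT e1 (Real.log m) (ht (O i)))) →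
      (∀ b' : ℝ, |b'| = d → ∀ n ≤ 2 * m, ∀ r ≤ 2 * (2 * n + Fil.xe m), ∀ O : Fin r → Xo,
        chgO6 O true ≤ n → chgO6 O false ≤ (n + Fil.xe m : ℕ) → cnt6 O →
        ENNReal.ofReal (Real.exp (b' * ((m : ℝ) - n))) *
          gasI6 B par6 (etL e1 J m) (etL' e1 J m) O (nA6 n O true) (nA6 (n + Fil.xe m) O false)
            (φ n r O (nA6 n O true) (nA6 (n + Fil.xe m) O false)) ≤
        ENNReal.ofReal (w n r O * (Q * Real.exp (lin +
          (∑ i, oneEH6 m (etL e1 J m) (TW ep e1 m) O i + K * r + en r O +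
            c1 * NUDispW.win univ fun i => ht (O i)))))) →
      ENNReal.ofReal Nf *
        ∑ n ∈ range (2 * m + 1), FE6 Z par6 n (n + Fil.xe m) (crL e1 J m) (crL' e1 J m) (φ n) ≤
        ENNReal.ofReal (Bw * Q * V * (m : ℝ) ^ δ * (2 / (1 - Real.exp (-d)))) := by
  obtain ⟨K', c1, hc1, HF⟩ := FE6_sum par6_good hS K K2
  refine ⟨K', c1, hc1, fun Ca c c2 aS τ c' k0 hCa hc hc2 haS hc' δ hδ => ?_⟩
  obtain ⟨a0, ha0, L0, HF⟩ := HF Ca c c2 aS τ c' k0 hCa hc hc2 haS hc' δ hδ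
  refine ⟨a0, ha0, fun ep hep hep1 e1 he he1 J hJ hsm => ?_⟩
  obtain ⟨mc, -, Hcur⟩ := curZ_crs he he1 hJ hep
  have t1 := Real.tendsto_log_atTop.comp tendsto_natCast_atTop_atTop
  obtain ⟨ml, hml⟩ := Filter.eventually_atTop.1 (t1.eventually_ge_atTop L0)
  refine ⟨max (max mc (8 + 2 * Fil.qo + 1)) (max ml 6), (le_max_right _ _).trans (le_max_right _ _),
    fun m hm Z B κ x0 Qc E hone hN HO φ w Q Bw d Nf lin V hQ hBw hd hNf hV hw hgas => ?_⟩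
  have k3 : 8 + 2 * Fil.qo + 1 ≤ m := ((le_max_right _ _).trans (le_max_left _ _)).trans hm
  have k4 : mc ≤ m := ((le_max_left _ _).trans (le_max_left _ _)).trans hm
  have k5 : ml ≤ m := ((le_max_left _ _).trans (le_max_right _ _)).trans hm
  have k6 : 6 ≤ m := ((le_max_right _ _).trans (le_max_right _ _)).trans hm
  have hm5 : (6 : ℝ) ≤ (m : ℝ) := by exact_mod_cast k6
  have hmp : (0 : ℝ) < (m : ℝ) := by linarith
  have hL0 : L0 ≤ Real.log m := hml m k5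
  have hexp : ((2 * (2 * (2 * m) + (0 + Fil.xe m)) + 1 : ℕ) : ℝ) ≤ Real.exp (2 * Real.log m) := by
    have e1 : Real.exp (2 * Real.log m) = ((m * m : ℕ) : ℝ) := by
      rw [two_mul, Real.exp_add, Real.exp_log hmp]
      push_cast
      ring
    have h1 : Fil.xe m ≤ Fil.qo * m := Fil.xe_le_qo (by omega)
    have h2 : 2 * (2 * (2 * m) + (0 + Fil.xe m)) + 1 ≤ m * m := by
      calc 2 * (2 * (2 * m) + (0 + Fil.xe m)) + 1 ≤ (8 + 2 * Fil.qo + 1) * m := by nlinarith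
        _ ≤ m * m := Nat.mul_le_mul_right _ k3
    rw [e1]
    exact_mod_cast h2
  have key := HF (Real.log m) hL0 ep hep.le (by linarith) e1 he (by linarith) J hJ hsm
    Z m (2 * m) 0 (Fil.xe m) (crL e1 J m) (crL' e1 J m) B ep κ x0 Qc E hone hN
    (fun r O => Hcur m k4 r O) hep1 hexp φ (gT e1 (Real.log m))
    (fun r O i => oneEH6 m (etL e1 J m) (TW ep e1 m) O i) w
    (Q * Real.exp lin) Bw d (m : ℝ) (by positivity) hBw hd
    (fun n hn r hr O => hw n hn r (by omega) O)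
    (fun r hr O i => HO r (by omega) O i) ?_
  · obtain ⟨D, hD⟩ : ∃ D, D = 2 / (1 - Real.exp (-d)) := ⟨_, rfl⟩
    have hD0 : 0 ≤ D := by
      rw [hD]
      have : Real.exp (-d) < 1 := by
        rw [← Real.exp_zero]; exact Real.exp_lt_exp.2 (by linarith)
      exact div_nonneg (by norm_num) (by linarith)
    rw [sub_self, abs_zero, mul_zero, Real.exp_zero, one_mul, ← hD] at key
    rw [← hD]
    refine (mul_le_mul' le_rfl key).trans ?_
    rw [← ENNReal.ofReal_mul hNf]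
    refine ENNReal.ofReal_le_ofReal ?_
    have e3 : (m : ℝ) ^ δ = Real.exp (δ * Real.log m) := by
      rw [Real.rpow_def_of_pos hmp, mul_comm]
    rw [e3]
    calc Nf * (Bw * (Q * Real.exp lin) * Real.exp (δ * Real.log m) * D)
        = (Nf * Real.exp lin) * (Bw * Q * Real.exp (δ * Real.log m) * D) := by ring
      _ ≤ V * (Bw * Q * Real.exp (δ * Real.log m) * D) :=
          mul_le_mul_of_nonneg_right hV (by positivity)
      _ = _ := by ring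
  · intro b' hb' n hn r hr O h1 h2 h3
    refine (hgas b' hb' n hn r (by omega) O h1 h2 h3).trans (le_of_eq ?_)
    congr 2
    rw [mul_assoc Q, ← Real.exp_add]

/-! ### legs -/

/-- **the one body bound of the dislocated function** -/
theorem one_leg (ho : Ends.o = 0) (K' : ℝ) {τ : ℝ} (hτ : tauL6 ≤ τ) : ∃ A : ℝ, 0 < A ∧
    ∀ e1 : ℝ, 0 < e1 → e1 ≤ 1 / 100 → ∀ J : ℝ, 0 ≤ J → ∃ m1 : ℕ, ∀ k : ℕ,
    m1 ≤ k + 1 + Ends.e → ∀ m : ℕ, m = k + 1 + Ends.e →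
    ∀ k0 : ℕ, ∀ ep : ℝ, 0 < ep → ep ≤ 1 / 100 → ∀ x z : ℂ, |x.re| ≤ l / 10 → |x.im| ≤ 2 →
    -(9 / 10 * l) ≤ z.re → z.re ≤ 31 / 10 * l → ∀ (r : ℕ) (O : Fin r → Xo) (i : Fin r),
      ob6 (obL6 (Tb (Real.log m) + τ) k (4 / 3 * (1 - ep)) x z) par6 (O i) *
          Real.exp (oneEH6 m (etL e1 J m) (TW ep e1 m) O i + K') ≤
        act6 A (7 / 10 * (pH6 / 4)) (1 / 5) 6 τ k0 (Real.log m) ep e1 J r (k6 (O i)) (ht (O i)) *
          Real.exp (-gT e1 (Real.log m) (ht (O i))) := by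
  obtain ⟨mo, hmo, HL⟩ := ob6_leg ho
  obtain ⟨B0, hB0, HB⟩ := wkb6_of cL6_pos
  obtain ⟨A, hA, HA⟩ := one_hC6T K' τ hB0
  refine ⟨A, hA, fun e1 he he1 J hJ => ?_⟩
  obtain ⟨ma, hma, HA⟩ := HA e1 he he1 J hJ
  refine ⟨max mo ma, fun k hk m hm k0 ep hep hep1 x z hx hx' z1 z2 r O i => ?_⟩
  rw [← hm] at hk
  have k1 : mo ≤ m := (le_max_left _ _).trans hk
  have k2 : ma ≤ m := (le_max_right _ _).trans hk
  have hm1 : 1 ≤ m := by omega
  have hT : 3 / 8 * Real.log (k + 1 + Ends.e : ℕ) + tauL6 ≤ Tb (Real.log m) + τ := by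
    rw [← hm]
    unfold Tb
    linarith
  have hOb := HL k (by rw [← hm]; exact k1) (4 / 3 * (1 - ep)) (by linarith) (by linarith) x z hx hx'
    z1 z2 _ hT
  rw [← hm] at hOb
  have hW := HB par6 par6_good _ m _ _ _ (by linarith) hOb
  have hN : ∀ a, (m : ℝ) ≤ 2 * (Fil.ne a m : ℕ) := fun a => by
    have := Fil.le_ner a m
    have : (0 : ℝ) ≤ m := Nat.cast_nonneg m
    linarith
  have key := HA m k2 k0 ep hep hep1 (TW ep e1 m) (tw_geL hep hep1 he.le hm1) par6 par6_good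
    (fun a => Fil.ne a m) hN _ (obL6_nn _ _ _ _ _) hW r (O i)
  have hcr : crH (etL e1 J m) m (ht (O i)) = hC e1 J m (ht (O i)) := PBT.PLX.mul_etL e1 J hm1 _
  have e : oneEH6 m (etL e1 J m) (TW ep e1 m) O i + K' =
      mfo6 (fun b => ((Fil.ne b m : ℕ) : ℝ)) (parts6 par6 (O i)) -
        2 * Real.pi * wind6 (k6 (O i)) * hC e1 J m (ht (O i)) + exc (TW ep e1 m) (ht (O i)) + K' := by
    unfold oneEH6
    rw [hcr]
  rw [e]
  exact key

/-- **the dislocated function from the bound of its gas**, `m = k + 1 + e` -/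
theorem topS6 (ho : Ends.o = 0) {en : (r : ℕ) → (Fin r → Xo) → ℝ} (hS : StabE par6 en)
    {τ : ℝ} (hτ : tauL6 ≤ τ) (K K2 : ℝ) : ∃ c1 : ℝ, 0 < c1 ∧ ∀ c' : ℝ, 0 ≤ c' →
    ∀ δ : ℝ, 0 < δ → ∃ a0 : ℝ, 0 < a0 ∧ ∀ ep : ℝ, 0 < ep → ep ≤ 1 / 100 → ∀ e1 : ℝ, 0 < e1 →
    e1 ≤ 1 / 100 → ∀ J : ℝ, 0 ≤ J → Real.exp (-(2 * Real.pi * J)) + 3 * e1 + 3 * ep ≤ a0 →
    ∃ C : ℝ, 0 ≤ C ∧ ∃ m0 : ℕ, ∀ k : ℕ, m0 ≤ k → ∀ m : ℕ, m = k + 1 + Ends.e →
      ∀ x z : ℂ, |x.re| ≤ NUMF.l / 10 → |x.im| ≤ 2 →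
      -(9 / 10 * NUMF.l) ≤ z.re → z.re < 31 / 10 * NUMF.l →
      |z.im| ≤ 3 / 20 * Real.log m + 2 → ∀ c : Bool → ℂ,
      (∀ a, ‖c a‖ = 2 * Real.cos NUP1.l) →
      ∀ g0 : Bool → ℂ → ℂ, (∀ a, Measurable (g0 a)) →
      (∀ a, ph (4 / 3) (rwq (mu1 k x) a) (g0 a) =
        phO (Tb (Real.log m) + τ) (List.ofFn (rwq (mu1 k x) a) ++ [])) →
      ∀ (φ : ℕ → InsE) (w : ℕ → (r : ℕ) → (Fin r → Xo) → ℝ) (Q Bw d : ℝ), 0 ≤ Q → 0 ≤ Bw →
      0 < d →
      (∀ n ≤ 2 * m, ∀ r ≤ 2 * (2 * n + Fil.xe m), ∀ O : Fin r → Xo, 0 ≤ w n r O ∧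
        w n r O ≤ (if (r : ℝ) ≤ Real.log m then Bw else
          Bw * Real.exp (c' * Real.log m)) * Real.exp (K2 * r) *
            Real.exp (∑ i, gT e1 (Real.log m) (ht (O i)))) →
      (∀ b' : ℝ, |b'| = d → ∀ n ≤ 2 * m, ∀ r ≤ 2 * (2 * n + Fil.xe m), ∀ O : Fin r → Xo,
        chgO6 O true ≤ n → chgO6 O false ≤ (n + Fil.xe m : ℕ) → cnt6 O →
        ENNReal.ofReal (Real.exp (b' * ((m : ℝ) - n))) *
          gasI6 (obL6 (Tb (Real.log m) + τ) k (4 / 3 * (1 - ep)) x z) par6 (etL e1 J m)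
            (etL' e1 J m) O (nA6 n O true) (nA6 (n + Fil.xe m) O false)
            (φ n r O (nA6 n O true) (nA6 (n + Fil.xe m) O false)) ≤
        ENNReal.ofReal (w n r O * (Q * Real.exp (linS e1 J m x z +
          (∑ i, oneEH6 m (etL e1 J m) (TW ep e1 m) O i + K * r + en r O +
            c1 * NUDispW.win univ fun i => ht (O i)))))) →
      ENNReal.ofReal ‖Pool.Agent.PB.Pf z (mu1 k x) (Pool.Agent.PLX.yq (mu1 k x))‖ *
        ∑ n ∈ range (2 * m + 1), FE6 (ZL6 c g0 k (4 / 3 * (1 - ep)) x z) par6 n (n + Fil.xe m)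
          (crL e1 J m) (crL' e1 J m) (φ n) ≤
        ENNReal.ofReal (C * Bw * Q * (m : ℝ) ^ (-(3 / 8 : ℝ) + δ) *
          Real.exp (2 * |z.im|) * (2 / (1 - Real.exp (-d)))) := by
  obtain ⟨K', c1, hc1, HF⟩ := topV6 hS K K2
  obtain ⟨A, hA, HO⟩ := one_leg ho K' hτ
  refine ⟨c1, hc1, fun c' hc' δ hδ => ?_⟩
  have hp := pH6_pos
  obtain ⟨a0, ha0, HF⟩ := HF A (7 / 10 * (pH6 / 4)) (1 / 5) 6 τ c' 0 hA (by positivity)
    (by norm_num) (by norm_num) hc' (δ / 2) (by linarith)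
  refine ⟨min a0 δ, lt_min ha0 hδ, fun ep hep hep1 e1 he he1 J hJ hsm => ?_⟩
  obtain ⟨mf, hmf, HF⟩ := HF ep hep hep1 e1 he he1 J hJ (hsm.trans (min_le_left _ _))
  obtain ⟨CV, hCV, mv, HV⟩ := valS ho he he1 hJ
  obtain ⟨mo, HO⟩ := HO e1 he he1 J hJ
  refine ⟨CV, hCV, max mv (max mo mf), fun k hk m hm x z hx hx' z1 z2 z3 cc hcc g0 hg0 hph φ w Q Bw
    d hQ hBw hd hw hgas => ?_⟩
  have k1 : mv ≤ k := (le_max_left _ _).trans hk
  have k2 : mo ≤ k + 1 + Ends.e := by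
    have := ((le_max_left mo mf).trans (le_max_right _ _)).trans hk
    omega
  have k4 : mf ≤ m := by
    have := ((le_max_right mo mf).trans (le_max_right _ _)).trans hk
    omega
  have hl := NUMF.l_pos
  have hlN : NUP1.l = NUMF.l := rfl
  have hm6 : 6 ≤ m := hmf.trans k4
  have hm5 : (6 : ℝ) ≤ (m : ℝ) := by exact_mod_cast hm6
  have hmp : (0 : ℝ) < (m : ℝ) := by linarith
  have hsd : 3 * e1 ≤ δ := by
    have h1 := hsm.trans (min_le_right _ _)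
    have h2 := Real.exp_pos (-(2 * Real.pi * J))
    linarith
  have hone : OneC6 (ZL6 cc g0 k (4 / 3 * (1 - ep)) x z)
      (obL6 (Tb (Real.log m) + τ) k (4 / 3 * (1 - ep)) x z) par6 ep
      (2 * (4 / 3 * (1 - ep))) (51 / 100 * NUP1.l) (-Fil.xn (k + 1))
      (Set.range fun i => (mu1 k x i).im) :=
    oneC6_L hep hep1 (by linarith) (by linarith) (by rw [hlN]; linarith) hcc hg0 hph
      (by rw [hlN]; exact z1) (by rw [hlN]; linarith)
  have hv := HV k k1 x z hx z1 (by linarith) (by rw [← hm]; exact z3)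
  rw [← hm] at hv
  have key := HF m k4 (ZL6 cc g0 k (4 / 3 * (1 - ep)) x z)
    (obL6 (Tb (Real.log m) + τ) k (4 / 3 * (1 - ep)) x z)
    (2 * (4 / 3 * (1 - ep))) (51 / 100 * NUP1.l) (-Fil.xn (k + 1))
    (Set.range fun i => (mu1 k x i).im) hone
    (obL6_nn _ _ _ _ _) ?_ φ w Q Bw d ‖Pool.Agent.PB.Pf z (mu1 k x)
      (Pool.Agent.PLX.yq (mu1 k x))‖
    (linS e1 J m x z) _ hQ hBw hd (norm_nonneg _) hv hw hgas
  · refine key.trans (ENNReal.ofReal_le_ofReal ?_)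
    obtain ⟨D, hD⟩ : ∃ D, D = 2 / (1 - Real.exp (-d)) := ⟨_, rfl⟩
    have hD0 : 0 ≤ D := by
      rw [hD]
      have : Real.exp (-d) < 1 := by
        rw [← Real.exp_zero]; exact Real.exp_lt_exp.2 (by linarith)
      exact div_nonneg (by norm_num) (by linarith)
    rw [← hD]
    have hTb : Tb (Real.log m) = 3 / 8 * Real.log m := rfl
    have hLm : 0 ≤ Real.log m := Real.log_nonneg (by linarith)
    have hpow : Real.exp (-((1 - e1) * Tb (Real.log m)) + 2 * |z.im|) * (m : ℝ) ^ (δ / 2) ≤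
        (m : ℝ) ^ (-(3 / 8 : ℝ) + δ) * Real.exp (2 * |z.im|) := by
      rw [Real.rpow_def_of_pos hmp, Real.rpow_def_of_pos hmp, ← Real.exp_add, ← Real.exp_add]
      refine Real.exp_le_exp.2 ?_
      rw [hTb]
      nlinarith
    calc Bw * Q * (CV * Real.exp (-((1 - e1) * Tb (Real.log m)) + 2 * |z.im|)) *
          (m : ℝ) ^ (δ / 2) * D
        = CV * (Bw * Q * D) * (Real.exp (-((1 - e1) * Tb (Real.log m)) + 2 * |z.im|) *
          (m : ℝ) ^ (δ / 2)) := by ring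
      _ ≤ CV * (Bw * Q * D) * ((m : ℝ) ^ (-(3 / 8 : ℝ) + δ) * Real.exp (2 * |z.im|)) :=
          mul_le_mul_of_nonneg_left hpow (by positivity)
      _ = _ := by ring
  · intro r _ O i
    exact HO k k2 m hm 0 ep hep hep1 x z hx hx' z1 z2.le r O i

end PHK

end
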