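import Pool.Agent.PHK.UProps6
import Pool.Agent.PLX.PB.UXmap

/-!
# The particle-hole form (P): U1, U3, U4 of a family inside another family

(P) twin of `PLX/PB/UXmap`.

* `FS_map6`: the functional of `F'` at the index `j` is at most `C` times the functional of `F` at
  `φ m j`, when the one body functions and the numbers of quanta agree and the prefactor is at most
  `C` times larger;
* **`UX6.map`**: then `UX6 F → UX6 F'` (constants are absorbed in `m ^ ε`).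
-/

set_option autoImplicit false
set_option linter.unusedSectionVars false

noncomputable section

open Complex MeasureTheory Finset
open scoped ENNReal
open PLX (Fil)

namespace PBU.PLX

open NUO NUP1 NUP1S NUP1S.Ab NUP1S.AbC NUGC NUGC.PLX PBF PBF.PLX PBP PBP.PLX
open PHK

variable [Fil] [NUSea.Sea] {ι ι' : Type} {F : Fam ι} {F' : Fam ι'}

theorem FS_map6 {ep e1 J : ℝ} {m : ℕ} {j : ι'} {i : ι} {C : ℝ}
    (hZ : F'.Z ep m j = F.Z ep m i) (hPf : ‖F'.Pf m j‖ ≤ C * ‖F.Pf m i‖)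
    (htop : F'.top m = F.top m) (φ : InsE) :
    FS6 F' ep e1 J m j (fun _ => 1) φ ≤ ENNReal.ofReal C * FS6 F ep e1 J m i (fun _ => 1) φ := by
  have hPe : ‖F'.Pf m j‖ₑ ≤ ENNReal.ofReal C * ‖F.Pf m i‖ₑ := by
    rw [← ofReal_norm, ← ofReal_norm]
    refine (ENNReal.ofReal_le_ofReal hPf).trans (le_of_eq ?_)
    rw [ENNReal.ofReal_mul' (norm_nonneg _)]
  unfold FS6
  rw [hZ, htop, Finset.mul_sum]
  refine Finset.sum_le_sum fun n _ => ?_
  rw [one_mul, one_mul, ← mul_assoc]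
  exact mul_le_mul' hPe le_rfl

/-- **the bounds of a family inside another family** -/
theorem UX6.map (h : UX6 F) (φ : ℕ → ι' → ι) {C C' : ℝ} (hC : 0 ≤ C)
    (hbd : ∀ m j, 0 ≤ F'.bd m j) (m1 : ℕ) (H : ∀ m ≥ m1, ∀ j, F'.ok m j →
      F.ok m (φ m j) ∧ (∀ ep, F'.Z ep m j = F.Z ep m (φ m j)) ∧
      ‖F'.Pf m j‖ ≤ C * ‖F.Pf m (φ m j)‖ ∧ F'.top m = F.top m ∧
      F.bd m (φ m j) ≤ C' * F'.bd m j) : UX6 F' := by
  intro p K ε hε
  obtain ⟨a0, ha0, h0⟩ := h p K (ε / 2) (by positivity)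
  refine ⟨a0, ha0, fun ep e1 J hep he1 hJ hsm => ?_⟩
  intro C0 y₁ y₂ h1 h2
  obtain ⟨m0, h3⟩ := h0 ep e1 J hep he1 hJ hsm C0 y₁ y₂ h1 h2
  obtain ⟨m2, h4⟩ := const_le_rpow (C * C') (ε := ε / 2) (by positivity)
  refine ⟨max (max m0 m1) (max m2 1), fun m hm j hj ρ hρ B hB w hw g g' hg => ?_⟩
  have k0 : m0 ≤ m := by omega
  have k1 : m1 ≤ m := by omega
  have k2 : m2 ≤ m := by omega
  have k3 : (0 : ℝ) < m := by
    have : 0 < m := by omega
    exact_mod_cast this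
  obtain ⟨g1, g2, g3, g4, g5⟩ := H m k1 j hj
  have key := h3 m k0 (φ m j) g1 ρ hρ B hB w hw g g' hg
  refine (FS_map6 (g2 ep) g3 g4 _).trans ((mul_le_mul' le_rfl key).trans ?_)
  rw [← ENNReal.ofReal_mul hC]
  refine ENNReal.ofReal_le_ofReal ?_
  have e1' : (m : ℝ) ^ ε = (m : ℝ) ^ (ε / 2) * (m : ℝ) ^ (ε / 2) := by
    rw [← Real.rpow_add k3]
    congr 1
    ring
  have hp : 0 ≤ (m : ℝ) ^ (ε / 2) := by positivity
  have hb := hbd m j
  calc C * (B * (m : ℝ) ^ (ε / 2) * F.bd m (φ m j))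
      ≤ C * (B * (m : ℝ) ^ (ε / 2) * (C' * F'.bd m j)) := by gcongr
    _ = B * ((C * C') * (m : ℝ) ^ (ε / 2)) * F'.bd m j := by ring
    _ ≤ B * ((m : ℝ) ^ (ε / 2) * (m : ℝ) ^ (ε / 2)) * F'.bd m j := by
        have := h4 m k2
        gcongr
    _ = _ := by rw [e1']

end PBU.PLX

end
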