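import Pool.Agent.PHK.PotH.S4M
import Pool.Agent.PHK.PerH
import Pool.Agent.PHK.UProps6
import Pool.Agent.PHK.StatU6

/-!
# (P): the bounds `UX6` of a family from the bound of its gas

* `TopF6 F B lin`: the functional of the family is bounded by its gas;
* `EnvF6 F B lin`: curve, cutoff, potential, one body data of the family are admissible for `S4M6`;
* **`ux_of6`**: `TopF6`, `EnvF6` give `UX6 F` (U1, U3, U4); the statistics are `PBZ.PLX.statU6`.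
-/

set_option autoImplicit false
set_option linter.unusedSectionVars false

noncomputable section

open Complex MeasureTheory Finset
open scoped ENNReal
open PLX (Fil Ends)

namespace PBU.PLX

open NUO NUP1 NUP1S NUP1S.Ab NUP1S.AbC NUGC NUGC.PLX PBF PBF.PLX PBP PBP.PLX
open NUSea.PLX.H0 (Gd)
open PHK
open NUDispW (win)
open PotH.PLX (EnvH RgH6 lhsH6 prefH enH6 linH confEH6 oneEH6 crH T1H StatM s4M6 sN)

variable [NUSea.Sea] [Fil] [Ends] {ι : Type}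

/-! ### no groups -/

/-- no groups -/
def gd0 : Fin 0 → Gd := fun i => i.elim0

theorem prefH_gd0 (m : ℕ) (Cst : ℝ) :
    prefH m gd0 0 0 Cst = Cst * Real.exp (NUSea.PLX.MF (sN m)) := by
  unfold prefH
  simp

theorem enH6_gd0 (m : ℕ) {r : ℕ} (O : Fin r → Xo) (T1 : ℝ) (p q : ℕ) :
    enH6 m gd0 O T1 p q = 0 := by
  unfold enH6 NUSea.PLX.H0.cstF
  have : IsEmpty (NUSea.PLX.H0.IG fun i => (gd0 i).pin T1) := ⟨fun x => x.1.elim0⟩
  simp

theorem linH_gd0 (η η1 : ℝ → ℝ) (m : ℕ) (T1 : ℝ) (H : Bool → ℝ → ℝ) : linH η η1 m gd0 T1 H =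
    NUCR.bil (NUSea.PLX.hd m η η1) (NUSea.PLX.hd m η η1) - 24 * NUMF.l * crH η m 0 +
      ∑ a, ∫ t, sN m a * NUSea.P t * H a t := by
  unfold linH
  simp

theorem rgH6_gd0 {ep e1 : ℝ} {m n r : ℕ} (O : Fin r → Xo) (hn : n ≤ 3 * m)
    (hr : r ≤ 2 * (2 * n + Fil.xe m)) (h1 : chgO6 O true ≤ (n : ℤ))
    (h2 : chgO6 O false ≤ ((n + Fil.xe m : ℕ) : ℤ)) :
    RgH6 ep e1 m gd0 0 (Fil.xe m) (m : ℝ) n O 0 0 where
  n2 := by norm_num
  sp i := i.elim0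
  ax := by norm_num
  ay := Nat.le_add_right _ _
  ay' := Nat.le_add_right _ _
  q := by simp
  nu := by simp
  hN := hn
  hr := by omega
  hc1 := by simpa using h1
  hc2 := by simpa using h2
  E0 := le_rfl
  hE i := i.elim0
  x0 := le_rfl
  hx i := i.elim0

/-- the numbers of quanta of a configuration -/
theorem nA6_le {n r : ℕ} (O : Fin r → Xo) (s : Bool) (h : chgO6 O s ≤ (n : ℤ)) :
    (nA6 n O s : ℝ) ≤ n + 2 * r := by
  have e : (nA6 n O s : ℤ) = n - chgO6 O s := Int.toNat_of_nonneg (by omega)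
  have e' : (nA6 n O s : ℝ) = n - chgO6 O s := by exact_mod_cast e
  have h1 := (abs_le.1 (abs_chgO6 O s)).1
  rw [e']
  linarith

/-! ### the two inputs -/

/-- **the family from the bound of its gas** -/
def TopF6 (F : Fam ι) (B : ℝ → ℕ → ι → OB) (lin : ℝ → ℝ → ℕ → ι → ℝ) : Prop :=
  ∀ K K2 : ℝ, ∃ c1 : ℝ, 0 < c1 ∧ ∀ c' : ℝ, 0 ≤ c' →
    ∀ δ : ℝ, 0 < δ → ∃ a0 : ℝ, 0 < a0 ∧ ∀ ep : ℝ, 0 < ep → ep ≤ 1 / 100 → ∀ e1 : ℝ, 0 < e1 →
    e1 ≤ 1 / 100 → ∀ J : ℝ, 0 ≤ J → Real.exp (-(2 * Real.pi * J)) + 3 * e1 + 3 * ep ≤ a0 →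
    ∃ C : ℝ, 0 ≤ C ∧ ∃ m0 : ℕ, ∀ m : ℕ, m0 ≤ m → ∀ i : ι, F.ok m i →
      ∀ (φ : ℕ → InsE) (w : ℕ → (r : ℕ) → (Fin r → Xo) → ℝ) (Q Bw d : ℝ), 0 ≤ Q → 0 ≤ Bw →
      0 < d →
      (∀ n ≤ 2 * m, ∀ r ≤ 2 * (2 * n + Fil.xe m), ∀ O : Fin r → Xo, 0 ≤ w n r O ∧
        w n r O ≤ (if (r : ℝ) ≤ Real.log m then Bw else
          Bw * Real.exp (c' * Real.log m)) * Real.exp (K2 * r) *
            Real.exp (∑ i, gT e1 (Real.log m) (ht (O i)))) →
      (∀ b' : ℝ, |b'| = d → ∀ n ≤ 2 * m, ∀ r ≤ 2 * (2 * n + Fil.xe m), ∀ O : Fin r → Xo,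
        chgO6 O true ≤ (n : ℤ) → chgO6 O false ≤ ((n + Fil.xe m : ℕ) : ℤ) → cnt6 O →
        ENNReal.ofReal (Real.exp (b' * ((m : ℝ) - n))) *
          gasI6 (B ep m i) par6 (etaC e1 J m m) (etaC' e1 J m m) O (nA6 n O true)
            (nA6 (n + Fil.xe m) O false)
            (φ n r O (nA6 n O true) (nA6 (n + Fil.xe m) O false)) ≤
        ENNReal.ofReal (w n r O * (Q * Real.exp (lin e1 J m i +
          (∑ j, oneEH6 m (etaC e1 J m m) (TW ep e1 m) O j + K * r +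
            enC6 par6 O + c1 * win univ fun j => ht (O j)))))) →
      ENNReal.ofReal ‖F.Pf m i‖ *
        ∑ n ∈ range (F.top m + 1), FE6 (F.Z ep m i) par6 n (n + dN (F.top m)) (cr e1 J m)
          (cr' e1 J m) (φ n) ≤
        ENNReal.ofReal (C * Bw * Q * (m : ℝ) ^ (-(3 / 8 : ℝ) + δ) * F.bd m i *
          (2 / (1 - Real.exp (-d))))

/-- **curve, cutoff, potential and one body data of the family** -/
def EnvF6 (F : Fam ι) (B : ℝ → ℕ → ι → OB) (lin : ℝ → ℝ → ℕ → ι → ℝ) : Prop :=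
  ∃ B0 N0 : ℝ, 0 ≤ B0 ∧ 0 ≤ N0 ∧ ∀ ep : ℝ, 0 < ep → ep ≤ 1 / 100 → ∀ e1 : ℝ, 0 < e1 →
    e1 ≤ 1 / 100 → ∀ J : ℝ, 0 ≤ J → ∃ Cc C0 : ℝ, 1 ≤ Cc ∧ 1 ≤ C0 ∧ ∃ m0 : ℕ, ∀ m : ℕ, m0 ≤ m →
    ∀ i : ι, F.ok m i → ∀ th : ℝ, 0 ≤ th → ∃ (cf Bc Bc' : ℝ → ℝ) (H H' : Bool → ℝ → ℝ),
      EnvH ep e1 Cc C0 B0 N0 th m (etaC e1 J m m) (etaC' e1 J m m) cf Bc Bc' H H' (B ep m i) gd0 ∧
      NUSea.PLX.MF (sN m) + (NUCR.bil (NUSea.PLX.hd m (etaC e1 J m m) (etaC' e1 J m m))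
        (NUSea.PLX.hd m (etaC e1 J m m) (etaC' e1 J m m)) -
          24 * NUMF.l * crH (etaC e1 J m m) m 0 +
        ∑ a, ∫ t, sN m a * NUSea.P t * H a t) ≤ lin e1 J m i

/-- powers of `m` absorb constants -/
lemma const_le_pow6 {C ε : ℝ} (hε : 0 < ε) : ∃ m0 : ℕ, ∀ m : ℕ, m0 ≤ m → C ≤ (m : ℝ) ^ ε := by
  have h1 : Filter.Tendsto (fun m : ℕ => (m : ℝ) ^ ε) Filter.atTop Filter.atTop :=
    (tendsto_rpow_atTop hε).comp tendsto_natCast_atTop_atTop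
  exact Filter.eventually_atTop.1 (h1.eventually_ge_atTop C)

/-- **U1, U3, U4 of a family from the bound of its gas** -/
theorem ux_of6 {F : Fam ι} {B : ℝ → ℕ → ι → OB} {lin : ℝ → ℝ → ℕ → ι → ℝ}
    (hbd : ∀ m i, 0 ≤ F.bd m i) (hT : TopF6 F B lin) (hE : EnvF6 F B lin) : UX6 F := by
  intro p K ε hε
  obtain ⟨B0, N0, hB0, hN0, hE⟩ := hE
  obtain ⟨KS, Ca, hKS, hCa, hM⟩ := s4M6 B0 N0 hB0 hN0
  have hM := hM ((p : ℝ) + 1) (by positivity)
  obtain ⟨K', hK'⟩ : ∃ K', K' = max |K| 1 := ⟨_, rfl⟩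
  have hK1 : 1 ≤ K' := by rw [hK']; exact le_max_right _ _
  obtain ⟨c1, hc1, hT⟩ := hT (KS + ((p : ℝ) + 1)) (Real.log K')
  obtain ⟨a0, ha0, hT⟩ := hT 0 le_rfl (ε / 8) (by positivity)
  refine ⟨min a0 (min (3 / 100) (3 * (ε / 8) / (2 * (Ca + 1)))),
    lt_min ha0 (lt_min (by norm_num) (by positivity)), ?_⟩
  intro ep e1 J hep he1 hJ hsm
  have hexpJ := Real.exp_pos (-(2 * Real.pi * J))
  have hs1 : Real.exp (-(2 * Real.pi * J)) + 3 * e1 + 3 * ep ≤ a0 := hsm.trans (min_le_left _ _)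
  have hs2 : Real.exp (-(2 * Real.pi * J)) + 3 * e1 + 3 * ep ≤ 3 / 100 :=
    hsm.trans ((min_le_right _ _).trans (min_le_left _ _))
  have hs3 : Real.exp (-(2 * Real.pi * J)) + 3 * e1 + 3 * ep ≤ 3 * (ε / 8) / (2 * (Ca + 1)) :=
    hsm.trans ((min_le_right _ _).trans (min_le_right _ _))
  have hepl : ep ≤ 1 / 100 := by linarith
  have he1l : e1 ≤ 1 / 100 := by linarith
  have hCaε : Ca * (ep + e1) ≤ ε / 8 := by
    have h1 : 3 * (ep + e1) ≤ 3 * (ε / 8) / (2 * (Ca + 1)) := by linarith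
    rw [le_div_iff₀ (by positivity)] at h1
    have h2 : 0 ≤ (ep + e1) := by linarith
    nlinarith
  obtain ⟨Cc, C0, hCc, hC0, me, hE⟩ := hE ep hep hepl e1 he1 he1l J hJ
  obtain ⟨d, Cst, Cg, hd, hCst, hCg, ms, hM⟩ := hM c1 hc1 ep hep hepl e1 he1 he1l Cc C0 hCc hC0
    (ε / 8) (by positivity)
  obtain ⟨C, hC, mt, hT⟩ := hT ep hep hepl e1 he1 he1l J hJ hs1
  intro D0 y₁ y₂ hy1 hy2
  have hqo := Fil.one_le_qor
  obtain ⟨Cn, hCn⟩ : ∃ Cn : ℝ, Cn = 18 + 5 * ((Fil.qo : ℕ) : ℝ) := ⟨_, rfl⟩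
  have hCn0 : 0 ≤ Cn := by rw [hCn]; positivity
  obtain ⟨mu, hU⟩ := PBZ.PLX.statU6 he1 he1l hJ D0 y₁ y₂ hy1 hy2 p (Cg := Cg) (ε := ε / 8)
    (Cn := Cn) hCg (by positivity) hCn0
  have hexpd : Real.exp (-d) < 1 := by
    rw [← Real.exp_zero]
    exact Real.exp_lt_exp.2 (by linarith)
  have hde : 0 ≤ 2 / (1 - Real.exp (-d)) := div_nonneg (by norm_num) (by linarith)
  obtain ⟨mc, hmc⟩ := const_le_pow6 (C := C * Cst * (2 / (1 - Real.exp (-d))))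
    (show 0 < ε / 8 by positivity)
  refine ⟨max (max me ms) (max (max mt mu) (max mc 3)), fun m hm i hi ρ hρ Bw hBw w hw g g' hg => ?_⟩
  have m1 : me ≤ m := ((le_max_left _ _).trans (le_max_left _ _)).trans hm
  have m2 : ms ≤ m := ((le_max_right _ _).trans (le_max_left _ _)).trans hm
  have m3 : mt ≤ m := (((le_max_left _ _).trans (le_max_left _ _)).trans (le_max_right _ _)).trans hm
  have m4 : mu ≤ m := (((le_max_right _ _).trans (le_max_left _ _)).trans (le_max_right _ _)).trans hm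
  have m5 : mc ≤ m := (((le_max_left _ _).trans (le_max_right _ _)).trans (le_max_right _ _)).trans hm
  have m6 : 3 ≤ m := (((le_max_right _ _).trans (le_max_right _ _)).trans (le_max_right _ _)).trans hm
  have hmn : 1 ≤ m := by omega
  have hmp : (0 : ℝ) < m := by exact_mod_cast (by omega : 0 < m)
  have hm1 : (1 : ℝ) ≤ m := by exact_mod_cast (by omega : 1 ≤ m)
  have hL : 0 ≤ Real.log m := Real.log_nonneg hm1
  obtain ⟨cf, Bc, Bc', H, H', hEnv, hlin⟩ := hE m m1 i hi d hd.le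
  -- the weight of the objects
  obtain ⟨w', hw'⟩ : ∃ w' : (r : ℕ) → (Fin r → Xo) → ℝ, w' = fun r O => max (w r O) 0 := ⟨_, rfl⟩
  have hw0 : ∀ r O, 0 ≤ w' r O := fun r O => by rw [hw']; exact le_max_right _ _
  have hw1 : ∀ r O, w' r O ≤ Bw * Real.exp (Real.log K' * r) *
      Real.exp (∑ i, gT e1 (Real.log m) (ht (O i))) := by
    intro r O
    have e : w' r O = max (w r O) 0 := by rw [hw']
    rw [e]
    have hk : Real.exp (Real.log K' * r) = K' ^ r := by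
      rw [Real.exp_mul, Real.exp_log (by linarith), Real.rpow_natCast]
    rw [hk]
    refine max_le ((hw r O).trans ?_) (by positivity)
    rw [Real.exp_sum]
    refine mul_le_mul_of_nonneg_right (mul_le_mul_of_nonneg_left ?_ hBw)
      (Finset.prod_nonneg fun i _ => (Real.exp_pos _).le)
    have h1 : K ^ r ≤ |K| ^ r := by
      rw [← abs_pow]
      exact le_abs_self _
    refine h1.trans (pow_le_pow_left₀ (abs_nonneg _) ?_ r)
    rw [hK']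
    exact le_max_left _ _
  have hww : ∀ r O, ENNReal.ofReal (w r O) = ENNReal.ofReal (w' r O) := by
    intro r O
    have e : w' r O = max (w r O) 0 := by rw [hw']
    rw [e]
    rcases le_total (w r O) 0 with h | h
    · rw [max_eq_right h, ENNReal.ofReal_of_nonpos h, ENNReal.ofReal_zero]
    · rw [max_eq_left h]
  -- the price
  have hD1 : 1 ≤ (m : ℝ) ^ (ε / 8) := Real.one_le_rpow hm1 (by positivity)
  have hA : ((m : ℝ) ^ (p + 1)) = Real.exp (((p : ℝ) + 1) * Real.log m) := by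
    rw [mul_comm, Real.exp_mul, Real.exp_log hmp, ← Real.rpow_natCast]
    push_cast
    rfl
  obtain ⟨Q, hQ⟩ : ∃ Q, Q = (m : ℝ) ^ (ε / 8) * (Cst * (m : ℝ) ^ (3 / 8 + Ca * (ep + e1) + ε / 8)) :=
    ⟨_, rfl⟩
  have hQ0 : 0 ≤ Q := by rw [hQ]; positivity
  have key := hT m m3 i hi (fun _ r O _ _ x => ENNReal.ofReal (w r O) *
      ∏ j, nuE ρ (etaC e1 J m m) (g r O j) (g' r O j) x) (fun _ => w') Q Bw d hQ0 hBw hd ?_ ?_
  · rw [FS_eq6]
    rw [← ofReal_norm]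
    refine key.trans (ENNReal.ofReal_le_ofReal ?_)
    have hb := hbd m i
    have h1 := hmc m m5
    have hmε : ∀ x : ℝ, 0 ≤ (m : ℝ) ^ x := fun x => Real.rpow_nonneg hmp.le x
    have h2 : (m : ℝ) ^ (ε / 8) * (m : ℝ) ^ (3 / 8 + Ca * (ep + e1) + ε / 8) *
        (m : ℝ) ^ (-(3 / 8 : ℝ) + ε / 8) * (m : ℝ) ^ (ε / 8) ≤ (m : ℝ) ^ ε := by
      rw [← Real.rpow_add hmp, ← Real.rpow_add hmp, ← Real.rpow_add hmp]
      exact Real.rpow_le_rpow_of_exponent_le hm1 (by linarith)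
    calc C * Bw * Q * (m : ℝ) ^ (-(3 / 8 : ℝ) + ε / 8) * F.bd m i * (2 / (1 - Real.exp (-d)))
        = Bw * F.bd m i * ((m : ℝ) ^ (ε / 8) * (m : ℝ) ^ (3 / 8 + Ca * (ep + e1) + ε / 8) *
          (m : ℝ) ^ (-(3 / 8 : ℝ) + ε / 8)) * (C * Cst * (2 / (1 - Real.exp (-d)))) := by
          rw [hQ]
          ring
      _ ≤ Bw * F.bd m i * ((m : ℝ) ^ (ε / 8) * (m : ℝ) ^ (3 / 8 + Ca * (ep + e1) + ε / 8) *
          (m : ℝ) ^ (-(3 / 8 : ℝ) + ε / 8)) * (m : ℝ) ^ (ε / 8) :=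
          mul_le_mul_of_nonneg_left h1 (by positivity)
      _ = Bw * F.bd m i * ((m : ℝ) ^ (ε / 8) * (m : ℝ) ^ (3 / 8 + Ca * (ep + e1) + ε / 8) *
        (m : ℝ) ^ (-(3 / 8 : ℝ) + ε / 8) * (m : ℝ) ^ (ε / 8)) := by ring
      _ ≤ Bw * F.bd m i * (m : ℝ) ^ ε := mul_le_mul_of_nonneg_left h2 (by positivity)
      _ = _ := by ring
  · intro n _ r _ O
    refine ⟨hw0 r O, (hw1 r O).trans (le_of_eq ?_)⟩
    rw [zero_mul, Real.exp_zero, mul_one, ite_self]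
  · intro b' hb' n hn r hr O h1 h2 _
    have hn3 : n ≤ 3 * m := by omega
    have hR := rgH6_gd0 (ep := ep) (e1 := e1) O hn3 hr h1 h2
    have hn2 : (n : ℝ) ≤ 2 * m := by exact_mod_cast hn
    have hxe : ((Fil.xe m : ℕ) : ℝ) ≤ ((Fil.qo : ℕ) : ℝ) * m := by exact_mod_cast Fil.xe_le_qo hmn
    have hrr : (r : ℝ) ≤ 2 * (2 * n + (Fil.xe m : ℕ)) := by exact_mod_cast hr
    have hqm : 0 ≤ ((Fil.qo : ℕ) : ℝ) * m := by positivity
    have hp1 : (nA6 n O true : ℝ) ≤ Cn * m := by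
      have h3 := nA6_le O true h1
      rw [hCn]
      linarith
    have hp2 : (nA6 (n + Fil.xe m) O false : ℝ) ≤ Cn * m := by
      have h3 := nA6_le O false h2
      push_cast at h3
      rw [hCn]
      linarith
    have hst := hU m m4 (nA6 n O true) (nA6 (n + Fil.xe m) O false) hp1 hp2 ρ hρ (g r O)
      (g' r O) (hg r O)
    have hst' := PBZ.PLX.StatOK.smul hst (hw0 r O)
    have h3 := hM m m2 0 (etaC e1 J m m) (etaC' e1 J m m) cf Bc Bc' H H' (B ep m i) gd0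
      hEnv 0 (Fil.xe m) (m : ℝ) n b' r O 0 0 (le_of_eq hb') hR
      (fun x => ENNReal.ofReal (w r O) * ∏ j, nuE ρ (etaC e1 J m m) (g r O j) (g' r O j) x)
      (w' r O) ((m : ℝ) ^ (ε / 8)) (hw0 r O) hD1
      (fun y => by
        have := hst'.poly y
        rw [hA] at this
        rw [hww]
        exact this)
      (fun _ _ _ _ => ⟨_, by
        simp only [hww]
        exact hst'⟩)
    rw [if_pos (fun i => i.elim0), mul_one] at h3
    refine le_trans (le_of_eq ?_) (h3.trans (ENNReal.ofReal_le_ofReal ?_))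
    · rfl
    · rw [mul_assoc (w' r O)]
      refine mul_le_mul_of_nonneg_left ?_ (hw0 r O)
      rw [prefH_gd0, enH6_gd0, linH_gd0, add_zero, hQ]
      have hcf : confEH6 m (etaC e1 J m m) (TW ep e1 m) (KS + ((p : ℝ) + 1)) c1 O =
          ∑ j, oneEH6 m (etaC e1 J m m) (TW ep e1 m) O j + (KS + ((p : ℝ) + 1)) * r + enC6 par6 O +
            c1 * win univ fun j => ht (O j) := rfl
      rw [hcf]
      obtain ⟨S, hSd⟩ : ∃ S, S = ∑ j, oneEH6 m (etaC e1 J m m) (TW ep e1 m) O j +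
        (KS + ((p : ℝ) + 1)) * r + enC6 par6 O + c1 * win univ fun j => ht (O j) := ⟨_, rfl⟩
      rw [← hSd]
      have h4 := Real.exp_le_exp.2 (add_le_add_left hlin S)
      have h5 : (0 : ℝ) ≤ (m : ℝ) ^ (ε / 8) * (Cst * (m : ℝ) ^ (3 / 8 + Ca * (ep + e1) + ε / 8)) := by
        positivity
      refine le_trans (le_of_eq ?_) (mul_le_mul_of_nonneg_left h4 h5)
      rw [show NUSea.PLX.MF (sN m) + (NUCR.bil (NUSea.PLX.hd m (etaC e1 J m m) (etaC' e1 J m m))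
        (NUSea.PLX.hd m (etaC e1 J m m) (etaC' e1 J m m)) -
          24 * NUMF.l * crH (etaC e1 J m m) m 0 +
        ∑ a, ∫ t, sN m a * NUSea.P t * H a t) + S = NUSea.PLX.MF (sN m) + (S +
        (NUCR.bil (NUSea.PLX.hd m (etaC e1 J m m) (etaC' e1 J m m))
        (NUSea.PLX.hd m (etaC e1 J m m) (etaC' e1 J m m)) -
          24 * NUMF.l * crH (etaC e1 J m m) m 0 +
        ∑ a, ∫ t, sN m a * NUSea.P t * H a t)) by ring, Real.exp_add (NUSea.PLX.MF (sN m))]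
      ring

end PBU.PLX

end
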