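import Pool.Agent.PHK.EInst6
import Pool.Agent.PB.VInst2

/-!
# (P): `VDat` and `(E')` for one moved row on the wide strip of the statistics

Twins of `PB/VInst`, `PB/VInst2`: `vinst6`, `E_inst6`, **`vinst26`**, **`E_inst26`**.
-/

set_option autoImplicit false

open Complex Set Filter Topology MeasureTheory

noncomputable section

namespace PBEI

open NUMF (l l_pos)
open PBForce (Rws0)
open PBV
open Pool.Agent.PB (rl MeanDat VDat mV CV CmV CsV CssV)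

/-- **the data of the values**, one moved row -/
theorem vinst6 {a a' : ℝ} (ha : 1 / 2 ≤ a') (haa : a' < a) (ha2 : a < 2) : ∃ C1 C : ℝ, 0 < C1 ∧ 32 ≤ C ∧
    ∀ (j : ℕ) (s t : ℝ), |s| ≤ 1 → |t| ≤ 1 →
    ∀ (mf mf' D : ℝ → ℂ) (B : ℝ) (mp mm : ℂ), MeanDat mf mf' D (rl (h0T t)) B mp mm → ∀ b : ℝ, C ≤ b → B ≤ b →
      VDat y1 y26 a' (l / 20) wm wm (Apl6 (rowS j s) 0) Bch6 (aE C1 a) (bE' C1 a') (Ami6 (rowS j s) 0) Bch6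
        (aE C1 a) (bE' C1 a') (rF (rowS j s) 0) (uF (rowS j s) 0) (h0T t) (g2T t) (qF (rowS j s) 0 t)
        (fun u : ℝ => deriv (rF (rowS j s) 0) u) (rl (deriv (uF (rowS j s) 0))) sg sg' sg'' mf mf' D b C C C C
        (((j + 1) * Real.exp (8 / 3 * s) / (j + Real.exp (8 / 3 * s)) : ℝ) : ℂ)
        (((j + 1) * Real.exp (-(8 / 3 * s)) / (j + Real.exp (-(8 / 3 * s))) : ℝ) : ℂ) mp mm ∧
      ∫ q, aE C1 a q * bE' C1 a' q ∂wm ≤ C := by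
  obtain ⟨C1, C, hC1, hC, h⟩ := vdat6 ha haa ha2
  refine ⟨C1, C, hC1, hC, fun j s t hs ht mf mf' D B mp mm hm b hb hB => ?_⟩
  have h1 := h (j + 1) (rowS j s) 0 (rowS_ok j hs) t ht mf mf' D B mp mm hm b hb hB
  rw [rP_rowS, rM_rowS] at h1
  exact ⟨h1.1, h1.2.1⟩

/-- **`(E')`**, one moved row -/
theorem E_inst6 {a' : ℝ} (ha : 1 / 2 ≤ a') (ha2 : a' < 2) (B : ℝ) : ∃ K : ℝ, 0 < K ∧
    ∀ (j : ℕ) (s t : ℝ), |s| ≤ 1 → |t| ≤ 1 →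
    ∀ (mf mf' D : ℝ → ℂ) (mp mm : ℂ), MeanDat mf mf' D (rl (h0T t)) B mp mm →
    ∀ (f fη fτ fττ : ℂ) (G1 : (ℂ → ℂ) → ℂ) (G2 H2 : (ℂ → ℂ) → (ℂ → ℂ) → ℂ) (Hs : (ℂ → ℂ) → ℂ) (Hss : ℂ)
      (δ δ0 : ℝ), 0 ≤ δ →
      PBE.Lev2 y1 y26 a' f G1 G2 (mV mf) CV δ →
      PBE.Lev2m y1 y26 a' f H2 Hs Hss CmV (CsV sg') (CssV sg') δ →
      PBE.Lin1 y1 y26 a' G1 → PBE.Lin2 y1 y26 a' G2 →
      Integrable (fun q => G2 (Apl6 (rowS j s) 0 q) (Bch6 q)) wm →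
      Integrable (fun q => H2 (Ami6 (rowS j s) 0 q) (Bch6 q)) wm →
      ‖fη - ((∫ q, G2 (Apl6 (rowS j s) 0 q) (Bch6 q) ∂wm) +
        ((∫ q, H2 (Ami6 (rowS j s) 0 q) (Bch6 q) ∂wm) + 2 * Hs (uF (rowS j s) 0) -
          ((((j + 1) * Real.exp (8 / 3 * s) / (j + Real.exp (8 / 3 * s)) : ℝ) : ℂ) -
            (((j + 1) * Real.exp (-(8 / 3 * s)) / (j + Real.exp (-(8 / 3 * s))) : ℝ) : ℂ)) / 2 * Hss) +
          G1 (qF (rowS j s) 0 t))‖ ≤ δ0 →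
      ‖G1 (h0T t) + fτ‖ ≤ δ → ‖G2 (h0T t) (h0T t) + G1 (g2T t) - fττ‖ ≤ δ →
      ‖fη - (-(((((j + 1) * Real.exp (8 / 3 * s) / (j + Real.exp (8 / 3 * s)) : ℝ) : ℂ) -
            (((j + 1) * Real.exp (-(8 / 3 * s)) / (j + Real.exp (-(8 / 3 * s))) : ℝ) : ℂ)) / 8) * fττ -
          ((((j + 1) * Real.exp (8 / 3 * s) / (j + Real.exp (8 / 3 * s)) : ℝ) : ℂ) +
            (((j + 1) * Real.exp (-(8 / 3 * s)) / (j + Real.exp (-(8 / 3 * s))) : ℝ) : ℂ)) / 2 * fτ)‖ ≤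
        δ0 + K * δ := by
  obtain ⟨K, hK, h⟩ := E_field6 ha ha2 B
  refine ⟨K, hK, fun j s t hs ht mf mf' D mp mm hm f fη fτ fττ G1 G2 H2 Hs Hss δ δ0 hδ hL hL' hG1 hG2 iG iH hI h1 h2 => ?_⟩
  have h3 := h (j + 1) (rowS j s) 0 (rowS_ok j hs) t ht mf mf' D mp mm hm f fη fτ fττ G1 G2 H2 Hs Hss δ δ0 hδ
    hL hL' hG1 hG2 iG iH
  rw [rP_rowS, rM_rowS] at h3
  exact h3 hI h1 h2

/-- **the data of the values**, one moved row at height `s`, legs at height `t`, constants before `j`, `s`, `t` -/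
theorem vinst26 {a a' : ℝ} (ha : 1 / 2 ≤ a') (haa : a' < a) (ha2 : a < 2) : ∃ C1 C : ℝ, 0 < C1 ∧ 32 ≤ C ∧
    ∀ (j : ℕ) (s t : ℝ), |s| ≤ 1 → |t| ≤ 1 →
      VDat y1 y26 a' (l / 20) wm wm (Apl6 (rowS j s) 0) Bch6 (aE C1 a) (bE' C1 a') (Ami6 (rowS j s) 0) Bch6
        (aE C1 a) (bE' C1 a') (rF (rowS j s) 0) (uF (rowS j s) 0) (h0T t) (g2T t) (qF (rowS j s) 0 t)
        (fun u : ℝ => deriv (rF (rowS j s) 0) u) (rl (deriv (uF (rowS j s) 0))) sg sg' sg'' (mfL t) (mfL' t)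
        (PBLeg.Dleg t) C C C C C (rpS j s) (rmS j s) (8 * I / (3 * Real.pi)) (-(8 * I / (3 * Real.pi))) ∧
      ∫ q, aE C1 a q * bE' C1 a' q ∂wm ≤ C := by
  obtain ⟨C1, C, hC1, hC, h⟩ := vinst6 ha haa ha2
  obtain ⟨B, hB, hm⟩ := meanDat
  refine ⟨C1, max C B, hC1, hC.trans (le_max_left _ _), fun j s t hs ht => ?_⟩
  obtain ⟨d, hI⟩ := h j s t hs ht _ _ _ B _ _ (hm t ht) (max C B) (le_max_left _ _) (le_max_right _ _)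
  have e : C ≤ max C B := le_max_left _ _
  exact ⟨{ d with
    tu := d.tu.mono e
    th0 := d.th0.mono e
    tg2 := d.tg2.mono e
    tq := d.tq.mono e }, hI.trans e⟩

/-- **`(E')`**, one moved row at height `s`, legs at height `t` -/
theorem E_inst26 {a' : ℝ} (ha : 1 / 2 ≤ a') (ha2 : a' < 2) : ∃ K : ℝ, 0 < K ∧
    ∀ (j : ℕ) (s t : ℝ), |s| ≤ 1 → |t| ≤ 1 →
    ∀ (f fη fτ fττ : ℂ) (G1 : (ℂ → ℂ) → ℂ) (G2 H2 : (ℂ → ℂ) → (ℂ → ℂ) → ℂ) (Hs : (ℂ → ℂ) → ℂ) (Hss : ℂ)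
      (δ δ0 : ℝ), 0 ≤ δ →
      PBE.Lev2 y1 y26 a' f G1 G2 (mV (mfL t)) CV δ →
      PBE.Lev2m y1 y26 a' f H2 Hs Hss CmV (CsV sg') (CssV sg') δ →
      PBE.Lin1 y1 y26 a' G1 → PBE.Lin2 y1 y26 a' G2 →
      Integrable (fun q => G2 (Apl6 (rowS j s) 0 q) (Bch6 q)) wm →
      Integrable (fun q => H2 (Ami6 (rowS j s) 0 q) (Bch6 q)) wm →
      ‖fη - ((∫ q, G2 (Apl6 (rowS j s) 0 q) (Bch6 q) ∂wm) +
        ((∫ q, H2 (Ami6 (rowS j s) 0 q) (Bch6 q) ∂wm) + 2 * Hs (uF (rowS j s) 0) -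
          ((rpS j s : ℂ) - (rmS j s : ℂ)) / 2 * Hss) + G1 (qF (rowS j s) 0 t))‖ ≤ δ0 →
      ‖G1 (h0T t) + fτ‖ ≤ δ → ‖G2 (h0T t) (h0T t) + G1 (g2T t) - fττ‖ ≤ δ →
      ‖fη - (-(((rpS j s : ℂ) - (rmS j s : ℂ)) / 8) * fττ - ((rpS j s : ℂ) + (rmS j s : ℂ)) / 2 * fτ)‖ ≤
        δ0 + K * δ := by
  obtain ⟨B, hB, hm⟩ := meanDat
  obtain ⟨K, hK, h⟩ := E_inst6 ha ha2 B
  exact ⟨K, hK, fun j s t hs ht f fη fτ fττ G1 G2 H2 Hs Hss δ δ0 hδ hL hL' hG1 hG2 iG iH hI h1 h2 =>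
    h j s t hs ht _ _ _ _ _ (hm t ht) f fη fτ fττ G1 G2 H2 Hs Hss δ δ0 hδ hL hL' hG1 hG2 iG iH hI h1 h2⟩

end PBEI

end
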