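import Pool.Agent.PHK.BsR6
import Pool.Agent.PHK.Lt6
import Pool.Agent.PHK.KRep6
import Pool.Agent.PHK.LgUI
import Pool.Agent.PLX.PB.W1FF

/-!
# (P): the class W W as the functional `FF6`, two numbers of rows

* `oneC6_WW`: `OneC6` of the class W W on the strip of the quanta from `51/100 l`, any base `Bs6`;
* `dec6_WW`, `inv6_WW`: decay and inverses of the class functions of W W from those of the base;
* **`WW_FF6`**: from the class formula `FFth`: the class W W at fixed half quanta is the functional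
  without insertion, any base;
* `dec6_RU`, `inv6_RU`: decay and inverses for the regular function, `D : RU m M`; **`RWW_FFU6`**,
  **`RWW_FF6`** (rows `(x | x^q)`), **`R0_WW_FF6`** (rows 0, ends 0).
-/

set_option autoImplicit false
set_option linter.unusedSectionVars false

noncomputable section

open Complex MeasureTheory Finset
open scoped ENNReal

open PLX (Fil)

namespace PBR.PLX

open NUO NUP1 NUCR NUP1S NUP1S.Ab NUP1S.AbC NUP1S.AbG NURow NUGC.PLX PBX PBX.PLX
open NUP1.Leg (thE Ck Dk)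
open PBF.PLX (Ins Crs)
open _root_.Pool.Agent.PLX
open PHK

/-! ## the half quantum at `5/4 l` on the lines of (P) -/

/-- real parts of the lines of the kinds of (P) -/
def lnS6 (P : Par6) : Option O3 → Set ℝ
  | none => Set.Icc (51 / 100 * l) (21 / 20 * l)
  | some .L => {(1 - P.jL) * l}
  | some .T => {-(l / 2)}
  | some .S => {-((1 + P.e) * l)}

theorem bdd_SF_W6 {P : Par6} (hP : GoodP6 P) (c : Bool) (k : Option O3) {w : ℂ}
    (hw : w.re = 5 / 4 * l) : Bdd (lnS6 P k) (1 * sc (c, ob4 k)) (fun u => SF c k (w - u)) ∧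
      ∀ u : ℂ, u.re ∈ lnS6 P k → DifferentiableAt ℂ (fun u => SF c k (w - u)) u := by
  have hl := l_pos
  have j1 := hP.L2
  have j2 := hP.Lj
  have j3 := hP.j1e
  have e1 := hP.e13
  have e2 := hP.e45
  obtain ⟨K', hK', hc⟩ : ∃ K' : Set ℝ, (∀ x ∈ lnS6 P k, w.re - x ∈ K') ∧
      PB (sc (c, ob4 k)) K' (SF c k) := by
    rcases k with _ | (_ | _ | _)
    · refine ⟨Set.Icc (1 / 5 * l) (74 / 100 * l), fun x hx => ?_,
        PB_SF_of isCompact_Icc c none (fun _ _ d hd => ?_) (fun _ _ d hd => ⟨?_, ?_⟩)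
          (fun _ h => ?_)⟩
      · rw [hw]
        exact ⟨by linarith [hx.2], by linarith [hx.1]⟩
      · exact NURow.sin_ne_pos (by linarith [hd.1]) (by linarith [hd.2])
      · exact NURow.sin_ne_pos (by linarith [hd.1]) (by linarith [hd.2])
      · exact NURow.sin_ne_neg (by linarith [hd.2]) (by linarith [hd.1])
      · rcases h with h | h <;> exact absurd h (by decide)
    · refine ⟨Set.Icc (9 / 4 * l) (59 / 20 * l), fun x hx => ?_,
        PB_SF_of isCompact_Icc c (some .L) (fun _ _ d hd => ?_) (fun _ _ d hd => ⟨?_, ?_⟩)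
          (fun _ h => ?_)⟩
      · have hx' : x = (1 - P.jL) * l := hx
        rw [hw, hx']
        constructor <;> nlinarith
      · exact NURow.sin_ne_pos (by linarith [hd.1]) (by linarith [hd.2])
      · exact NURow.sin_ne_pos (by linarith [hd.1]) (by linarith [hd.2])
      · exact NURow.sin_ne_neg (by linarith [hd.2]) (by linarith [hd.1])
      · rcases h with h | h <;> exact absurd h (by decide)
    · refine ⟨Set.Icc (31 / 12 * l) (27 / 10 * l), fun x hx => ?_,
        PB_SF_of isCompact_Icc c (some .S) (fun _ h => ?_) (fun _ h => ?_)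
          (fun _ _ d hd => ⟨?_, ?_⟩)⟩
      · have hx' : x = -((1 + P.e) * l) := hx
        rw [hw, hx']
        constructor <;> nlinarith
      · rcases h with h | h <;> exact absurd h (by decide)
      · rcases h with h | h <;> exact absurd h (by decide)
      · exact NURow.sin_ne_pos (by linarith [hd.1]) (by linarith [hd.2])
      · exact NURow.sin_ne_pos (by linarith [hd.1]) (by linarith [hd.2])
    · refine ⟨{7 / 4 * l}, fun x hx => ?_,
        PB_SF_of isCompact_singleton c (some .T) (fun _ h => ?_) (fun _ h => ?_)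
          (fun _ _ d hd => ⟨?_, ?_⟩)⟩
      · have hx' : x = -(l / 2) := hx
        show w.re - x = 7 / 4 * l
        rw [hw, hx']
        ring
      · rcases h with h | h <;> exact absurd h (by decide)
      · rcases h with h | h <;> exact absurd h (by decide)
      · have hd' : d = 7 / 4 * l := hd
        rw [hd']
        exact NURow.sin_ne_pos (by linarith) (by linarith)
      · have hd' : d = 7 / 4 * l := hd
        rw [hd']
        exact NURow.sin_ne_neg (by linarith) (by linarith)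
  have h1 := hc.one w (K := lnS6 P k) hK'
  rw [one_mul]
  exact h1

/-- the inverse of the half quantum -/
theorem PB_SF_inv (c : Bool) {K : Set ℝ} (hK : IsCompact K) (h0 : ∀ d ∈ K, Real.sin (d + 0) ≠ 0)
    (h2 : ∀ d ∈ K, Real.sin (d + 2 * l) ≠ 0) (h4 : ∀ d ∈ K, Real.sin (d + 4 * l) ≠ 0) :
    PB (-sc (c, .A)) K fun z => (SF c none z)⁻¹ := by
  cases c
  · have h := (((PB_inv_sin hK (4 * l) h4).mul ((PB_sin K (3 * l)).mul (PB_sin K (-(3 * l))))).fneg).rate
      (show (-1 : ℝ) + (1 + 1) = -sc (false, .A) by norm_num [sc, Bd.chg])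
    refine h.congr' fun z => ?_
    show _ = (Dk z)⁻¹
    unfold Dk
    push_cast
    rw [add_comm z (4 * l), sin_4l, show (3 : ℂ) * l - z = -(z + -(3 * l)) by ring, Complex.sin_neg,
      add_comm (3 * l : ℂ) z]
    rw [inv_div]
    by_cases hc : cos z = 0
    · simp [hc]
    · field_simp
  · have h := (((PB_sin K l).mul ((PB_inv_sin hK 0 h0).mul (PB_inv_sin hK (2 * l) h2)))).rate
      (show (1 : ℝ) + (-1 + -1) = -sc (true, .A) by simp [sc, Bd.chg])
    refine h.congr' fun z => ?_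
    show _ = (Ck z)⁻¹
    unfold Ck
    push_cast
    rw [inv_div, add_zero, one_div_mul_one_div, mul_one_div]

/-- the inverse of the half quantum at `5/4 l` in the strip of the holes -/
theorem inv_SF_W6 (c : Bool) {w : ℂ} (hw : w.re = 5 / 4 * l) :
    PB (-sc (c, .A)) (Set.Icc (1 / 9 * l) (63 / 64 * l)) fun u => (SF c none (w - u))⁻¹ := by
  have hl := l_pos
  have h := PB_SF_inv c (K := Set.Icc (17 / 64 * l) (41 / 36 * l)) isCompact_Icc
    (fun d hd => NURow.sin_ne_pos (by linarith [hd.1]) (by linarith [hd.2]))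
    (fun d hd => NURow.sin_ne_pos (by linarith [hd.1]) (by linarith [hd.2]))
    (fun d hd => NURow.sin_ne_pos (by linarith [hd.1]) (by linarith [hd.2]))
  refine h.one w fun x hx => ?_
  rw [hw]
  exact ⟨by linarith [hx.2], by linarith [hx.1]⟩

/-! ## the class W W, any base -/

section base

variable {X : Bool → Option O3 → ℂ → ℂ} {ob : (Bool → ℂ → ℝ) → OB} {P : Par6} {x κ : ℝ}
  {e : ℕ} {E0 : Set ℝ} {w w' : ℂ} {Q : ℝ}

/-- the spectators of W W: charge 0 -/
theorem pb_WW6 (hP : GoodP6 P) (hw : w.re = 5 / 4 * l) (hw' : w'.re = 5 / 4 * l) (a : Bool)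
    (k : Option O3) : Bdd (lnS6 P k) 0 (fun u => SF a k (w - u) * SF (!a) k (w' - u)) ∧
      ∀ u : ℂ, u.re ∈ lnS6 P k → DifferentiableAt ℂ (fun u => SF a k (w - u) * SF (!a) k (w' - u)) u := by
  have h1 := bdd_SF_W6 hP a k hw
  have h2 := bdd_SF_W6 hP (!a) k hw'
  refine ⟨(h1.1.mul h2.1).rate ?_, fun u hu => (h1.2 u hu).mul (h2.2 u hu)⟩
  have e : sc (!a, ob4 k) = -sc (a, ob4 k) := by
    cases a <;> simp [sc]
  rw [e]
  ring

/-- **`OneC6` of the class W W** on the strip of the quanta from `51/100 l` -/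
theorem oneC6_WW (hP : GoodP6 P) (hB : Bs6 X ob P x κ e E0) (hw : w.re = 5 / 4 * l)
    (hw' : w'.re = 5 / 4 * l) :
    OneC6 (ZW X w w') (ob fun a z => ‖sG SF SF w w' a z‖) P x κ (51 / 100 * l) (-(e : ℤ))
      ({w.im, w'.im} ∪ E0) := by
  have hl := l_pos
  have h := hB.one (51 / 100 * l) le_rfl (by linarith) 0
    (sG SF SF w w') (s2G SF SF w w') {w.im, w'.im} (measurable_sG (lt6_ht .W) (lt6_ht .W) w w')
    (measurable_s2G (lt6_ht .W) (lt6_ht .W) w w')
    (fun a => by
      have h1 := pb_WW6 hP hw hw' a none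
      exact ⟨h1.1.rate (by simp), h1.2⟩) (specS_two6 (lt6_ht .W) (lt6_ht .W))
    ((Set.toFinite _).measure_zero _)
  have e1 := spX_two X (lt6_ht .W) (lt6_ht .W) w w'
  rw [show htF .W = SF from rfl] at e1
  rw [e1, zero_sub] at h
  exact h

/-- **decay of the class functions of W W** -/
theorem dec6_WW (hP : GoodP6 P) (hX : Pool.Agent.PLX.DecZ6 X P (51 / 100 * l) κ Q)
    (hw : w.re = 5 / 4 * l) (hw' : w'.re = 5 / 4 * l) :
    Pool.Agent.PLX.DecZ6 (ZW X w w') P (51 / 100 * l) κ Q := by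
  have hl := l_pos
  refine ⟨fun s => ?_, fun s => ?_, fun s => ?_, fun s M => ?_⟩
  · have h := (pb_WW6 hP hw hw' s none).1
    have h' : Bdd (Set.Icc (51 / 100 * l) l) 0 (fun u => SF s none (w - u) * SF (!s) none (w' - u)) :=
      Bdd.mono_set h (Set.Icc_subset_Icc le_rfl (by linarith))
    exact DecOn.mulB (hX.A s) h' (by linarith)
  · exact DecOn.mulB (hX.L s) (pb_WW6 hP hw hw' s (some .L)).1 (by linarith)
  · exact DecOn.mulB (hX.T s) (pb_WW6 hP hw hw' s (some .T)).1 (by linarith)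
  · exact DecOn.mulB (hX.S s M) (pb_WW6 hP hw hw' s (some .S)).1 (by linarith)

/-- **inverses of the class functions of W W** -/
theorem inv6_WW (hX : InvZ6 X κ Q) (hw : w.re = 5 / 4 * l) (hw' : w'.re = 5 / 4 * l) :
    InvZ6 (ZW X w w') κ Q := by
  have hl := l_pos
  have e : ∀ a, (fun u => (ZW X w w' a none u)⁻¹) = fun u =>
      (X a none u)⁻¹ * ((SF a none (w - u))⁻¹ * (SF (!a) none (w' - u))⁻¹) := by
    intro a
    funext u
    show (X a none u * (SF a none (w - u) * SF (!a) none (w' - u)))⁻¹ = _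
    rw [mul_inv, mul_inv]
  have hne : ∀ (c : Bool) {v : ℂ}, v.re = 5 / 4 * l → ∀ u : ℂ, 51 / 100 * l ≤ u.re →
      u.re < 63 / 64 * l → SF c none (v - u) ≠ 0 := by
    intro c v hv u h1 h2
    refine (ui_SF c none).ne fun n hn => ?_
    rw [Complex.sub_re, hv] at hn
    have h3 : (0 : ℝ) < n * l := by rw [← hn]; linarith
    have h4 : (n : ℝ) * l < 1 * l := by rw [← hn]; linarith
    have h5 : (0 : ℝ) < n := by
      by_contra hc
      nlinarith [not_lt.1 hc]
    have h6 : (n : ℝ) < 1 := lt_of_mul_lt_mul_right h4 hl.le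
    have h7 : 0 < n := by exact_mod_cast h5
    have h8 : n < 1 := by exact_mod_cast h6
    omega
  refine ⟨fun a u h1 h2 => ?_, fun a => ?_, fun a u h1 h2 => ?_⟩
  · rw [e a]
    exact (hX.an a u h1 h2).mul (((inv_SF_W6 a hw).2 u ⟨h1.le, h2.le⟩).mul
      ((inv_SF_W6 (!a) hw').2 u ⟨h1.le, h2.le⟩))
  · rw [e a]
    have h1 := ((inv_SF_W6 a hw).1.mul (inv_SF_W6 (!a) hw').1).rate (s' := 0) (by
      have e : sc (!a, .A) = -sc (a, .A) := by
        cases a <;> simp [sc]
      rw [e]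
      ring)
    have h2 := Bdd.mono_set h1 (K := Set.Icc (1 / 8 * l) (31 / 32 * l))
      (Set.Icc_subset_Icc (by linarith) (by linarith))
    exact ((hX.bd a).mul h2).rate (by ring)
  · exact mul_ne_zero (hX.ne a u h1 h2) (mul_ne_zero (hne a hw u h1 h2) (hne (!a) hw' u h1 h2))

/-- **The class W W at fixed half quanta is the functional without insertion**, any base. -/
theorem WW_FF6 [Fil] (hFF : FFth) (hH : HI6 P) (hB : Bs6 X ob P x κ e E0) (hκ : κ ≤ 8 / 3)
    (hX : Pool.Agent.PLX.DecZ6 X P (51 / 100 * l) κ (-(e : ℝ))) (hI : InvZ6 X κ (-(e : ℝ)))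
    (hP : GoodP6 P) (hx0 : 0 < x) (hx1 : x ≤ 1 / 100)
    (hw : w.re = 5 / 4 * l) (hw' : w'.re = 5 / 4 * l) (n : ℕ)
    {η η' : Crs} (hη : ∀ r ≤ 2 * (n + (n + e)), ∀ᵐ O ∂(Measure.pi fun _ : Fin r => nu),
      CurB x (η r O) (η' r O)) :
    NURow.ZobjQ (ZW X w w' true) (ZW X w w' false) (51 / 100 * l) n (n + e)
      (fun _ _ k _ i => ln6 P (k i)) (fun _ _ _ k' i => ln6 P (k' i)) =
      FF6 (ZW X w w') P n (n + e) η η' (fun _ _ _ _ _ => 1) :=
  hFF (ZW X w w') _ P x κ (-(e : ℤ)) _ n (n + e) η η' hP hH hx0 hx1 hκ (oneC6_WW hP hB hw hw')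
    (by push_cast; exact dec6_WW hP hX hw hw') (by push_cast; exact inv6_WW hI hw hw')
    (by push_cast; ring) hη

end base

/-! ## the regular function -/

section reg

variable {m M e : ℕ} {D : RU m M} {ex : Bool → List ℂ} {c0 : ℝ} {P : Par6} {ep : ℝ} {w w' : ℂ}

/-- the ends as spectators -/
theorem spW6_thE {p q : ℂ} (hp : |p.re| ≤ l / 2) (hq : |q.re| ≤ l / 2) : SpW6 0 (thE p p q q) := by
  have hl := l_pos
  obtain ⟨p1, p2⟩ := abs_le.1 hp
  obtain ⟨q1, q2⟩ := abs_le.1 hq
  have h := (SpW6.leg (z := p) (by show -(9 / 10 * NUP1.l) ≤ p.re; linarith)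
    (by show p.re ≤ 31 / 10 * NUP1.l; linarith)).mul
    (SpW6.leg (z := q) (by show -(9 / 10 * NUP1.l) ≤ q.re; linarith)
    (by show q.re ≤ 31 / 10 * NUP1.l; linarith))
  rw [add_zero] at h
  have e : (fun u => Lg p p u * Lg q q u) = thE p p q q := by
    funext u
    unfold thE Lg
    have e1 : sin (u - p + 3 * l) = -sin (p - u - 3 * l) := by
      rw [← Complex.sin_neg]
      congr 1
      ring
    have e2 : sin (u - q + 3 * l) = -sin (q - u - 3 * l) := by
      rw [← Complex.sin_neg]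
      congr 1
      ring
    rw [e1, e2, div_mul_div_comm]
    congr 1
    ring
  rw [e] at h
  exact h

/-- the base functions are class functions of `ZK6` -/
theorem XB_ZK6 (h : RB6 D ex c0) : XB D.X D.Y = ZK6 (N := fun a => cond a m M)
    (fun a => cond a D.c D.c') D.β (xrU D) ex (fun a => cond a D.g0 D.g0')
      (fun _ => thE D.p D.p D.q D.q) := by
  funext a
  cases a
  · show D.Y = XXU D.c' D.β D.y D.x (gP D.β (ex false)) D.g0' (thE D.p D.p D.q D.q)
        (fun w => thE D.p D.p D.q D.q w * thE D.p D.p D.q D.q (w - l))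
    unfold RU.Y thS
    rw [h.g', thE_symm D.q D.p]
  · show D.X = XXU D.c D.β D.x D.y (gP D.β (ex true)) D.g0 (thE D.p D.p D.q D.q)
        (fun w => thE D.p D.p D.q D.q w * thE D.p D.p D.q D.q (w - l))
    unfold RU.X thS
    rw [h.g]

/-- **decay of the regular function on the lines of (P)** -/
theorem dec6_RU (hM : M = m + e) (h : RB6 D ex c0) (hP : GoodP6 P) (hg : GF6 D.x D.g0)
    (hg' : GF6 D.y D.g0') :
    Pool.Agent.PLX.DecZ6 (XB D.X D.Y) P (51 / 100 * l) (2 * D.β) (-(e : ℝ)) := by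
  rw [XB_ZK6 h]
  have key := decZ6_ZK6 (N := fun a => cond a m M) (P := P) (β := D.β) (c := fun a => cond a D.c D.c')
    (ro := xrU D) (ex := ex) (g0 := fun a => cond a D.g0 D.g0') (s := fun _ => thE D.p D.p D.q D.q)
    (q := 0) hP h.b0 h.b1 h.Rws h.hex (fun a => by cases a; exacts [hg', hg])
    (fun a => by
      have := spW6_thE h.hp h.hq
      simpa using this)
  have e1 : -(((0 : ℤ) : ℝ)) + ((cond true m M : ℕ) : ℝ) - ((cond false m M : ℕ) : ℝ) = -(e : ℝ) := by
    show -(((0 : ℤ) : ℝ)) + (m : ℝ) - (M : ℝ) = _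
    rw [hM]
    push_cast
    ring
  rw [e1] at key
  exact key

/-- **inverses of the regular function in the strip of the holes** -/
theorem inv6_RU (hM : M = m + e) (h : RB6 D ex c0) (hc0 : 0 < c0)
    (hφ : PhI6 (N := fun a => cond a m M) D.β (xrU D) ex) :
    InvZ6 (XB D.X D.Y) (2 * D.β) (-(e : ℝ)) := by
  rw [XB_ZK6 h]
  have key := invZ6_ZK6 (N := fun a => cond a m M) (β := D.β) (c := fun a => cond a D.c D.c')
    (ro := xrU D) (ex := ex) (g0 := fun a => cond a D.g0 D.g0') (s := fun _ => thE D.p D.p D.q D.q)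
    (q := 0) h.b0 h.b1 h.Rws h.hex hφ
    (fun a => by
      have h1 : ‖cond a D.c D.c'‖ = c0 := by
        cases a
        · exact h.c'
        · exact h.c
      rw [← norm_pos_iff, h1]
      exact hc0)
    (fun a => by
      have := spW6_thE h.hp h.hq
      simpa using this)
  have e1 : -(((0 : ℤ) : ℝ)) + ((cond true m M : ℕ) : ℝ) - ((cond false m M : ℕ) : ℝ) = -(e : ℝ) := by
    show -(((0 : ℤ) : ℝ)) + (m : ℝ) - (M : ℝ) = _
    rw [hM]
    push_cast
    ring
  rw [e1] at key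
  exact key

/-- **The class W W of the regular function at fixed half quanta is the functional without
insertion**, `M = m + e`. -/
theorem RWW_FFU6 [Fil] (hFF : FFth) (hH : HI6 P) (hM : M = m + e) (h : RB6 D ex c0)
    (hc0 : 0 < c0) (hg : GF6 D.x D.g0)
    (hg' : GF6 D.y D.g0') (hφ : PhI6 (N := fun a => cond a m M) D.β (xrU D) ex)
    (hP : GoodP6 P) (hep0 : 0 < ep) (hep : ep ≤ 1 / 100)
    (hw : w.re = 5 / 4 * l) (hw' : w'.re = 5 / 4 * l) (n : ℕ)
    {η η' : Crs} (hη : ∀ r ≤ 2 * (n + (n + e)), ∀ᵐ O ∂(Measure.pi fun _ : Fin r => nu),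
      CurB ep (η r O) (η' r O)) :
    NURow.ZobjQ (RZW D w w' true) (RZW D w w' false) (51 / 100 * l) n (n + e)
      (fun _ _ k _ i => ln6 P (k i)) (fun _ _ _ k' i => ln6 P (k' i)) =
      FF6 (RZW D w w') P n (n + e) η η' (fun _ _ _ _ _ => 1) :=
  WW_FF6 hFF hH (bs6_RU hM h hep0 hep) (by linarith [h.b1]) (dec6_RU hM h hP hg hg')
    (inv6_RU hM h hc0 hφ) hP hep0 hep hw hw' n hη

end reg

section fil

variable [Fil] {m : ℕ} {D : RU m (Fil.q * m)} {ex : Bool → List ℂ} {c0 : ℝ} {P : Par6} {ep : ℝ}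
  {w w' : ℂ}

/-- **`OneC6` of the class W W of the regular function at fixed half quanta** -/
theorem oneC6_RZW (h : RQ6 D ex c0) (hP : GoodP6 P) (hep0 : 0 < ep) (hep : ep ≤ 1 / 100)
    (hw : w.re = 5 / 4 * l) (hw' : w'.re = 5 / 4 * l) :
    OneC6 (RZW D w w') (obR6 D ex c0 fun a z => ‖sG SF SF w w' a z‖) P ep (2 * D.β)
      (51 / 100 * l) (-(Fil.xn m : ℤ)) ({w.im, w'.im} ∪ Set.range fun i => (D.x i).im) :=
  oneC6_WW hP (bs6_RD h hep0 hep) hw hw'

/-- **The class W W of the regular function at fixed half quanta is the functional without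
insertion**, rows `(x | x^q)`. -/
theorem RWW_FF6 (hFF : FFth) (hH : HI6 P) (h : RQ6 D ex c0) (hc0 : 0 < c0) (hg : GF6 D.x D.g0) (hg' : GF6 D.y D.g0')
    (hφ : PhI6 (N := fun a => cond a m (Fil.q * m)) D.β (xrU D) ex)
    (hP : GoodP6 P) (hep0 : 0 < ep) (hep : ep ≤ 1 / 100)
    (hw : w.re = 5 / 4 * l) (hw' : w'.re = 5 / 4 * l) (n : ℕ)
    {η η' : Crs} (hη : ∀ r ≤ 2 * (n + (n + Fil.xn m)), ∀ᵐ O ∂(Measure.pi fun _ : Fin r => nu),
      CurB ep (η r O) (η' r O)) :
    NURow.ZobjQ (RZW D w w' true) (RZW D w w' false) (51 / 100 * l) n (n + Fil.xn m)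
      (fun _ _ k _ i => ln6 P (k i)) (fun _ _ _ k' i => ln6 P (k' i)) =
      FF6 (RZW D w w') P n (n + Fil.xn m) η η' (fun _ _ _ _ _ => 1) :=
  RWW_FFU6 hFF hH (Fil.add_xn m).symm h.toRB6 hc0 hg hg' hφ hP hep0 hep hw hw' n hη

end fil

end PBR.PLX

end
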