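import Pool.Agent.PLX.PB.ClsFam

/-!
# Bound of the weight of a family of charged objects times the gas of the quanta, abstract pair functions

`wAbs_le`: one body weights `o i` with rates `kp i`, pair functions `f i j` of growth
`exp (2 c_i c_j |t_i - t_j|)`, total charge `q0`: the weight is at most `prod exp (- kp i |t i|)`.
**`wGas_le`**: the same with `a + b` quanta on a line integrated.
-/

set_option autoImplicit false
set_option linter.unusedSectionVars false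

noncomputable section

open Complex MeasureTheory Finset
open scoped Real ENNReal

namespace PHK

open NUP1 NUO NUP1S NUP1S.Mg NUP1S.Ab NUP1S.AbG NUP1S.AbC NURow
open NUP1.Bd (wt Ob)

variable {ι : Type*} [Fintype ι]

/-- **bound of the weight of a family** -/
theorem wAbs_le {o : ι → ℂ} {f : ι → ι → ℂ} {c t kp D : ι → ℝ} {C q0 : ℝ} (hC : 1 ≤ C)
    (hq : ∑ i, c i = q0) (hD : ∀ i, 0 ≤ D i)
    (ho : ∀ i, ‖o i‖ ≤ D i * Real.exp (-((kp i + 2 * q0 * c i) * |t i|)))
    (hc : ∀ i j, i ≠ j → ‖f i j‖ ≤ C * Real.exp (2 * (c i * c j) * |t i - t j|)) :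
    ‖(∏ i, o i) * PU f‖ ≤ (∏ i, D i) * C ^ (Fintype.card ι * Fintype.card ι) *
      ∏ i, Real.exp (-(kp i * |t i|)) := by
  rw [norm_mul, norm_prod]
  have e1 : ∏ i, ‖o i‖ ≤ (∏ i, D i) * ∏ i, Real.exp (-((kp i + 2 * q0 * c i) * |t i|)) := by
    rw [← Finset.prod_mul_distrib]
    exact Finset.prod_le_prod (fun i _ => norm_nonneg _) fun i _ => ho i
  have e2 := PU_norm_le f (fun a b => c a * c b * |t a - t b|)
    (fun a b => by rw [abs_sub_comm]; ring) (fun a => by simp) hC (fun a b hab => by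
      refine (hc a b hab).trans (le_of_eq ?_)
      ring_nf)
  have e3 := PBC.PLX.energy_le c t
  have hC0 : 0 ≤ C := zero_le_one.trans hC
  have hD1 : 0 ≤ ∏ i, D i := Finset.prod_nonneg fun i _ => hD i
  have hD0 : 0 ≤ (∏ i, D i) * ∏ i, Real.exp (-((kp i + 2 * q0 * c i) * |t i|)) :=
    mul_nonneg hD1 (Finset.prod_nonneg fun i _ => (Real.exp_pos _).le)
  have e4 : (∏ i, Real.exp (-((kp i + 2 * q0 * c i) * |t i|))) *
      Real.exp (∑ a, ∑ b, c a * c b * |t a - t b|) ≤ ∏ i, Real.exp (-(kp i * |t i|)) := by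
    rw [← Real.exp_sum, ← Real.exp_sum, ← Real.exp_add]
    refine Real.exp_le_exp.2 ?_
    rw [hq] at e3
    have e5 : ∑ i, -((kp i + 2 * q0 * c i) * |t i|) =
        ∑ i, -(kp i * |t i|) - 2 * q0 * ∑ i, c i * |t i| := by
      rw [Finset.mul_sum, ← Finset.sum_sub_distrib]
      exact Finset.sum_congr rfl fun i _ => by ring
    rw [e5]
    linarith
  calc _ ≤ ((∏ i, D i) * ∏ i, Real.exp (-((kp i + 2 * q0 * c i) * |t i|))) *
        (C ^ (Fintype.card ι * Fintype.card ι) *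
          Real.exp (∑ a, ∑ b, c a * c b * |t a - t b|)) :=
        mul_le_mul e1 e2 (norm_nonneg _) hD0
    _ = (∏ i, D i) * C ^ (Fintype.card ι * Fintype.card ι) *
        ((∏ i, Real.exp (-((kp i + 2 * q0 * c i) * |t i|))) *
          Real.exp (∑ a, ∑ b, c a * c b * |t a - t b|)) := by ring
    _ ≤ _ := mul_le_mul_of_nonneg_left e4 (mul_nonneg hD1 (pow_nonneg hC0 _))

/-! ### quanta added -/

section quanta

variable {a b : ℕ}

/-- species of the quanta -/
def sq (j : Fin a ⊕ Fin b) : Bool := Sum.elim (fun _ => true) (fun _ => false) j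

/-- one body weights with quanta -/
def oQ (o : ι → ℂ) (G : Bool → ℂ → ℂ) (z : Fin a ⊕ Fin b → ℂ) : ι ⊕ (Fin a ⊕ Fin b) → ℂ :=
  Sum.elim o fun j => G (sq j) (z j)

/-- pair functions with quanta -/
def fQ (f : ι → ι → ℂ) (V : ι → Bool → ℂ → ℂ) (z : Fin a ⊕ Fin b → ℂ) :
    ι ⊕ (Fin a ⊕ Fin b) → ι ⊕ (Fin a ⊕ Fin b) → ℂ
  | .inl i, .inl j => f i j
  | .inl i, .inr j => V i (sq j) (z j)
  | .inr j, .inl i => V i (sq j) (z j)
  | .inr i, .inr j => gz (sq i, Ob.A) (sq j, Ob.A) (z i - z j)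

theorem fQ_symm {f : ι → ι → ℂ} (hf : ∀ i j, f i j = f j i) (V : ι → Bool → ℂ → ℂ)
    (z : Fin a ⊕ Fin b → ℂ) (x y : ι ⊕ (Fin a ⊕ Fin b)) : fQ f V z x y = fQ f V z y x := by
  rcases x with x | x <;> rcases y with y | y
  · exact hf x y
  · rfl
  · rfl
  · show gz (sq x, Ob.A) (sq y, Ob.A) (z x - z y) = gz (sq y, Ob.A) (sq x, Ob.A) (z y - z x)
    rw [gz_symm, neg_sub]

theorem weight_quanta (o : ι → ℂ) {f : ι → ι → ℂ} (hf : ∀ i j, f i j = f j i)
    (V : ι → Bool → ℂ → ℂ) (G : Bool → ℂ → ℂ) (z : Fin a ⊕ Fin b → ℂ) :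
    (∏ x, oQ o G z x) * PU (fQ f V z) = ((∏ i, o i) * PU f) *
      Fg (oo (fun _ : Fin a => Ob.A) (fun _ : Fin b => Ob.A))
        (Sum.elim (fun _ => fun u => G true u * ∏ i, V i true u)
          (fun _ => fun u => G false u * ∏ i, V i false u)) z := by
  unfold Fg
  rw [PU_sum (fQ_symm hf V z), Fintype.prod_sum_type, Fintype.prod_sum_type,
    Fintype.prod_sum_type]
  have e1 : (∏ x : ι, ∏ y : Fin a ⊕ Fin b, fQ f V z (Sum.inl x) (Sum.inr y)) =
      (∏ j : Fin a, ∏ i, V i true (z (Sum.inl j))) * ∏ j : Fin b, ∏ i, V i false (z (Sum.inr j)) := by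
    rw [Finset.prod_comm, Fintype.prod_sum_type]
    rfl
  have e2 : (PU fun x y : Fin a ⊕ Fin b => fQ f V z (Sum.inr x) (Sum.inr y)) =
      PU fun x y => gz (oo (fun _ : Fin a => Ob.A) (fun _ : Fin b => Ob.A) x)
        (oo (fun _ : Fin a => Ob.A) (fun _ : Fin b => Ob.A) y) (z x - z y) := by
    refine PU_congr fun x y => ?_
    rcases x with x | x <;> rcases y with y | y <;> rfl
  rw [e1, e2]
  simp only [oQ, fQ, Sum.elim_inl, Sum.elim_inr, Finset.prod_mul_distrib, sq]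
  ring

/-- **bound of the weight times the gas** -/
theorem wGas_le {o : ι → ℂ} {f : ι → ι → ℂ} (hf : ∀ i j, f i j = f j i) {V : ι → Bool → ℂ → ℂ}
    {c t kp D : ι → ℝ} {G : Bool → ℂ → ℂ} {y : ℝ} {C DG κ q0 : ℝ} (hκ : 0 < κ) (hC : 1 ≤ C)
    (hq : (∑ i, c i) + (a - b) = q0) (hD : ∀ i, 0 ≤ D i)
    (ho : ∀ i, ‖o i‖ ≤ D i * Real.exp (-((kp i + 2 * q0 * c i) * |t i|)))
    (hDG : 0 ≤ DG) (hG : ∀ s : Bool, ∀ u : ℂ, u.re = y → ‖G s u‖ ≤
      DG * Real.exp (-((κ + 2 * q0 * sc (s, Ob.A)) * |u.im|)))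
    (hc : ∀ i j, i ≠ j → ‖f i j‖ ≤ C * Real.exp (2 * (c i * c j) * |t i - t j|))
    (hV : ∀ i, ∀ s : Bool, ∀ u : ℂ, u.re = y → ‖V i s u‖ ≤
      C * Real.exp (2 * (c i * sc (s, Ob.A)) * |t i - u.im|))
    (hAA : ∀ s s' : Bool, ∀ u : ℂ, u.re = 0 → ‖gz (s, Ob.A) (s', Ob.A) u‖ ≤
      C * Real.exp (rt (s, Ob.A) (s', Ob.A) * |u.im|)) :
    ‖((∏ i, o i) * PU f) * gas a b y (fun z => G true z * ∏ i, V i true z)
      (fun z => G false z * ∏ i, V i false z)‖ ≤
      ((∏ i, D i) * DG ^ (a + b) *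
        C ^ ((Fintype.card ι + (a + b)) * (Fintype.card ι + (a + b))) *
        ∫ u : Fin a ⊕ Fin b → ℝ, ∏ i, Real.exp (-(κ * |u i|)) ∂(Measure.pi fun _ => volume)) *
        ∏ i, Real.exp (-(kp i * |t i|)) := by
  set Dc := (∏ i, D i) * DG ^ (a + b) *
        C ^ ((Fintype.card ι + (a + b)) * (Fintype.card ι + (a + b))) *
        (∏ i, Real.exp (-(kp i * |t i|))) with hDc
  have key : ∀ u : Fin a ⊕ Fin b → ℝ, ‖((∏ i, o i) * PU f) * Fg (oo (fun _ : Fin a => Ob.A)
      (fun _ : Fin b => Ob.A)) (Sum.elim (fun _ => fun u => G true u * ∏ i, V i true u)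
          (fun _ => fun u => G false u * ∏ i, V i false u)) (pos (fun _ => y) u)‖ ≤
      Dc * ∏ i, Real.exp (-(κ * |u i|)) := by
    intro u
    rw [← weight_quanta o hf]
    set z := pos (fun _ : Fin a ⊕ Fin b => y) u with hz
    have hre : ∀ j, (z j).re = y := fun j => by rw [hz, pos_re]
    have him : ∀ j, (z j).im = u j := fun j => by rw [hz, pos_im]
    have h1 := wAbs_le (ι := ι ⊕ (Fin a ⊕ Fin b)) (o := oQ o G z) (f := fQ f V z)
      (c := Sum.elim c fun j => sc (sq j, Ob.A)) (t := Sum.elim t u)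
      (kp := Sum.elim kp fun _ => κ) (D := Sum.elim D fun _ => DG) (C := C) (q0 := q0)
      hC ?_ ?_ ?_ ?_
    · refine h1.trans (le_of_eq ?_)
      rw [hDc]
      simp only [Fintype.prod_sum_type, Sum.elim_inl, Sum.elim_inr, Finset.prod_const,
        Finset.card_univ, Fintype.card_sum, Fintype.card_fin]
      ring
    · rw [← hq, Fintype.sum_sum_type, Fintype.sum_sum_type]
      simp [sq, sc, Bd.chg]
      ring
    · rintro (i | i)
      · exact hD i
      · exact hDG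
    · rintro (i | i)
      · exact ho i
      · show ‖G (sq i) (z i)‖ ≤ DG * Real.exp (-((κ + 2 * q0 * sc (sq i, Ob.A)) * |u i|))
        have := hG (sq i) (z i) (hre i)
        rwa [him] at this
    · rintro (i | i) (j | j) hij
      · exact hc i j fun h => hij (congrArg _ h)
      · show ‖V i (sq j) (z j)‖ ≤ C * Real.exp (2 * (c i * sc (sq j, Ob.A)) * |t i - u j|)
        have := hV i (sq j) (z j) (hre j)
        rwa [him] at this
      · show ‖V j (sq i) (z i)‖ ≤ C * Real.exp (2 * (sc (sq i, Ob.A) * c j) * |u i - t j|)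
        have := hV j (sq i) (z i) (hre i)
        rwa [him, mul_comm (c j), abs_sub_comm] at this
      · show ‖gz (sq i, Ob.A) (sq j, Ob.A) (z i - z j)‖ ≤
          C * Real.exp (2 * (sc (sq i, Ob.A) * sc (sq j, Ob.A)) * |u i - u j|)
        have := hAA (sq i) (sq j) (z i - z j) (by rw [sub_re, hre, hre, sub_self])
        rwa [sub_im, him, him] at this
  have hint := (integrable_prod_exp' (ι := Fin a ⊕ Fin b) hκ).const_mul Dc
  unfold gas Ig
  rw [mul_left_comm, norm_mul, ← integral_const_mul]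
  have h3 := norm_integral_le_of_norm_le hint (Filter.Eventually.of_forall key)
  rw [MeasureTheory.integral_const_mul (r := Dc)] at h3
  have h4 : ‖(((a.factorial : ℕ) : ℂ)⁻¹ * ((b.factorial : ℕ) : ℂ)⁻¹ * ((2 * Real.pi : ℂ)⁻¹ ^ a *
    (2 * Real.pi : ℂ)⁻¹ ^ b))‖ ≤ 1 := by
    have hf : ∀ q : ℕ, ‖((q.factorial : ℕ) : ℂ)⁻¹‖ ≤ 1 := by
      intro q
      rw [norm_inv, Complex.norm_natCast]
      exact inv_le_one_of_one_le₀ (by exact_mod_cast q.factorial_pos)
    have hp : ‖(2 * Real.pi : ℂ)⁻¹‖ ≤ 1 := by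
      rw [norm_inv, norm_mul, norm_real, Real.norm_of_nonneg Real.pi_pos.le]
      refine inv_le_one_of_one_le₀ ?_
      have := Real.pi_gt_three
      norm_num
      linarith
    rw [norm_mul, norm_mul, norm_mul, norm_pow, norm_pow]
    refine mul_le_one₀ (mul_le_one₀ (hf _) (norm_nonneg _) (hf _)) (by positivity) ?_
    exact mul_le_one₀ (pow_le_one₀ (norm_nonneg _) hp) (by positivity)
      (pow_le_one₀ (norm_nonneg _) hp)
  refine (mul_le_mul h4 h3 (norm_nonneg _) zero_le_one).trans (le_of_eq ?_)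
  rw [one_mul, hDc]
  ring

end quanta

end PHK

end
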