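import Pool.Agent.PHK.ClsCrv6
import Pool.Agent.PHK.LogD6
import Pool.Agent.PLX.PB.WardFy

/-!
# The Ward identity for the functional `FF6`

The objects (six kinds), legs and half quanta are fixed, only the quanta on the curve are moved: the
insertions, the fields and the algebra are the landed ones (`PLX.PB.WardFF`, `PLX.PB.WardFy`); the
curves are in the strip `Ks6 δ`.

* **`ward_FF6`**: `FF6 (Wd ..) = 0`; **`ward_Vy6`**: the second Ward identity, the sea on a line;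
* `Vy_zero` ..: the forms with `y₀ = 0`; **`ward_V6`** (fields analytic in `|Im| < b1`, `δ l < b1`).
-/

set_option autoImplicit false
set_option linter.unusedSectionVars false

noncomputable section

open Complex MeasureTheory Finset
open scoped ENNReal
open PLX (Fil)

namespace PHK

open NUO NUP1 NUCR NUP1S NUP1S.Ab NUP1S.AbC NUGC NUGC.PLX
open PBF.PLX (gK Ins Crs DIns Flds InsD FldD DX WS Wd ward_gK LT Vst Qst Sst lamF XC X1C
  Vy Qy Sy lamY XCy X1Cy WSy_eq fldDy_of InS zq zqy zy)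

variable {r : ℕ}

variable [Fil] {Z : Bool → Option O3 → ℂ → ℂ} {P : Par6} {n n' : ℕ} {η η' : Crs}

private theorem pA_cv_mem6 {δ : ℝ} {η η' : ℝ → ℝ} (h : CrvR6 δ η η') (a : Bool) (t : ℝ) :
    (NUO.pA (Fil.cv a η) t).re ∈ Ks6 δ := pA_mem6 (h.cv a) t

/-- **the Ward identity for the functional** -/
theorem ward_FF6 {δ κ : ℝ} {Q : ℤ} (hQ : QOk6 Z δ κ Q) (hS : StP δ P)
    (hc : ∀ r O, CrvR6 δ (η r O) (η' r O)) (hn : (n : ℤ) - n' = Q) {LZ : Bool → ℂ → ℂ}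
    {LP : (r : ℕ) → (Fin r → Xo) → Bool → ℂ → ℂ} (hL : LogD6 Z P δ LZ LP) {X X1 : Flds}
    (hX : FldD X X1) {Ψ : Ins} {dΨ : DIns} (hΨ : InsD η' Ψ dΨ) :
    FF6 Z P n n' η η' (Wd η η' X X1 (LT LZ LP) Ψ dΨ) = 0 := by
  have hl := Bd.l_pos
  have hd := hS.d1
  refine FF6_zero fun r O h1 h2 => ?_
  have C := fun s => ((hc r O).cv s).crv hS.d0
  have e1 : (((sg true * Q : ℤ)) : ℝ) = Q := by simp [sg]
  have e2 : (((sg false * Q : ℤ)) : ℝ) = -(Q : ℝ) := by simp [sg]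
  have a1 := nA6_coe h1
  have a2 := nA6_coe h2
  have hreg := reg_pot6 hS O (hQ.m true) (hQ.m false) (hQ.d true) (hQ.d false)
    ((hQ.b true).rate (by rw [e1])) ((hQ.b false).rate (by rw [e2]; ring))
    (a := nA6 n O true) (b := nA6 n' O false) (Q := Q) (κ := κ) (by omega)
  obtain ⟨B1, hB1⟩ := hL.bZ
  obtain ⟨B2, hB2⟩ := hL.bP r O
  obtain ⟨B3, hB3⟩ := hX.bd r O
  obtain ⟨B4, hB4, hB4'⟩ := hΨ.bd r O (nA6 n O true) (nA6 n' O false)
  have hm := fun s => pA_cv_mem6 (hc r O) s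
  have eG : g2 (fun z => Z true none z * potO6 P O true z) (fun z => Z false none z * potO6 P O false z) =
      gF6 Z P O := by
    funext s z
    cases s <;> rfl
  rw [eG] at hreg
  have hG : ∀ s t, HasDerivAt (gF6 Z P O s) (LT LZ LP r O s (NUO.pA (Fil.cv s (η r O)) t) *
      gF6 Z P O s (NUO.pA (Fil.cv s (η r O)) t)) (NUO.pA (Fil.cv s (η r O)) t) := by
    intro s t
    have h3 := (hL.dZ s _ (hm s t)).mul (hL.dP r O s _ (hm s t))
    refine h3.congr_deriv ?_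
    unfold PBF.PLX.LT gF6
    ring
  exact ward_gK (κ := κ) hQ.kpos C (by nlinarith) hreg hG
    (fun s => (hL.mZ s).add (hL.mP r O s)) (B := max (B1 + B2) B3)
    (fun s t => (norm_add_le _ _).trans
      ((add_le_add (hB1 s _ (hm s t)) (hB2 s _ (hm s t))).trans (le_max_left _ _)))
    (hX.d r O) (hX.c r O) (fun s t => (hB3 s t).1.trans (le_max_right _ _))
    (fun s t => (hB3 s t).2.trans (le_max_right _ _))
    (fun k t => hΨ.d r O _ _ k t) (hΨ.m r O _ _) (fun k => hΨ.md r O _ _ k) hB4 hB4'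

/-- **the second Ward identity for the functional, general insertion, the sea on the line
`Im z = y₀`** -/
theorem ward_Vy6 {δ κ y0 b0 b1 : ℝ} {Q : ℤ} (hQ : QOk6 Z δ κ Q) (hS : StP δ P)
    (hc : ∀ r O, CrvR6 δ (η r O) (η' r O)) (hn : (n : ℤ) - n' = Q) {LZ : Bool → ℂ → ℂ}
    {LP : (r : ℕ) → (Fin r → Xo) → Bool → ℂ → ℂ} (hL : LogD6 Z P δ LZ LP)
    (hs : InS y0 b0 η) (hb0 : 0 < b1) (hb : b0 < b1) (hb' : 2 * b1 ≤ NUP1.l) {ρ : ℂ → ℂ}
    (hρ : PB.SeaF b1 ρ) {X : Bool → ℂ → ℂ} (hX : PB.FldF b1 X) {Ψ : Ins} {dΨ : DIns}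
    (hΨ : InsD η' Ψ dΨ) :
    FF6 Z P n n' η η' (fun r O a b x =>
      (-Vy y0 η ρ (PB.rsp (PB.mulF2 ρ X)) r O a b x + Qy y0 η ρ X r O a b x +
        Sy y0 η (fun r O s z => X s z * lamY y0 ρ (LT LZ LP) r O s z) r O a b x) *
        Ψ r O a b x + DX (XCy y0 η X) dΨ r O a b x) = 0 := by
  have hR : ∀ r O, CrvR δ (η r O) (η' r O) := fun r O => (hc r O).toR hS.d1
  rw [← ward_FF6 hQ hS hc hn hL (fldDy_of hR hs hb hX) hΨ]
  congr 1
  funext r O a b x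
  unfold PBF.PLX.Wd
  rw [WSy_eq hR hs hb0 hb hb' hρ hX]

/-! ### the forms with `y₀ = 0` -/

private theorem zqy_zero (η : Crs) (r : ℕ) (O : Fin r → Xo) {a b : ℕ}
    (x : (Fin a → ℝ) × (Fin b → ℝ)) : zqy 0 η r O x = zq η r O x := by
  funext k
  unfold PBF.PLX.zqy PBF.PLX.zq PBF.PLX.zy
  simp

theorem Vy_zero (η : Crs) (ρ : ℂ → ℂ) (g : Bool → ℂ → ℂ) : Vy 0 η ρ g = Vst η ρ g := by
  funext r O a b x
  unfold PBF.PLX.Vy PBF.PLX.Vst
  rw [zqy_zero]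

theorem Qy_zero (η : Crs) (ρ : ℂ → ℂ) (X : Bool → ℂ → ℂ) : Qy 0 η ρ X = Qst η ρ X := by
  funext r O a b x
  unfold PBF.PLX.Qy PBF.PLX.Qst
  rw [zqy_zero]

theorem Sy_zero (η : Crs) (f : (r : ℕ) → (Fin r → Xo) → Bool → ℂ → ℂ) :
    Sy 0 η f = Sst η f := by
  funext r O a b x
  unfold PBF.PLX.Sy PBF.PLX.Sst
  rw [zqy_zero]

theorem lamY_zero (ρ : ℂ → ℂ) (L : (r : ℕ) → (Fin r → Xo) → Bool → ℂ → ℂ) :
    lamY 0 ρ L = lamF ρ L := by
  funext r O s w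
  unfold PBF.PLX.lamY PBF.PLX.lamF
  simp

theorem XCy_zero (η : Crs) (X : Bool → ℂ → ℂ) : XCy 0 η X = XC η X := by
  funext r O s t
  unfold PBF.PLX.XCy PBF.PLX.XC PBF.PLX.zy
  simp

theorem inS_zero {δ : ℝ} (hc : ∀ r O, CrvR6 δ (η r O) (η' r O)) : InS 0 (δ * NUP1.l) η :=
  InS.of fun r O t => (hc r O).h1 t

/-- **the second Ward identity for the functional, general insertion** -/
theorem ward_V6 {δ κ b1 : ℝ} {Q : ℤ} (hQ : QOk6 Z δ κ Q) (hS : StP δ P)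
    (hc : ∀ r O, CrvR6 δ (η r O) (η' r O)) (hn : (n : ℤ) - n' = Q) {LZ : Bool → ℂ → ℂ}
    {LP : (r : ℕ) → (Fin r → Xo) → Bool → ℂ → ℂ} (hL : LogD6 Z P δ LZ LP)
    (hb : δ * NUP1.l < b1) (hb' : 2 * b1 ≤ NUP1.l) {ρ : ℂ → ℂ} (hρ : PB.SeaF b1 ρ)
    {X : Bool → ℂ → ℂ} (hX : PB.FldF b1 X) {Ψ : Ins} {dΨ : DIns} (hΨ : InsD η' Ψ dΨ) :
    FF6 Z P n n' η η' (fun r O a b x =>
      (-Vst η ρ (PB.rsp (PB.mulF2 ρ X)) r O a b x + Qst η ρ X r O a b x +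
        Sst η (fun r O s z => X s z * lamF ρ (LT LZ LP) r O s z) r O a b x) * Ψ r O a b x +
      DX (XC η X) dΨ r O a b x) = 0 := by
  have hl := Bd.l_pos
  have h0 : 0 ≤ δ * NUP1.l := mul_nonneg hS.d0 hl.le
  have key := ward_Vy6 hQ hS hc hn hL (inS_zero hc) (h0.trans_lt hb) hb hb' hρ hX hΨ
  simpa only [Vy_zero, Qy_zero, Sy_zero, lamY_zero, XCy_zero] using key

end PHK

end
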