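import Pool.Agent.PHK.WordP
import Pool.Agent.PHK.HoleE
import Pool.Agent.PHK.Coef

/-!
# The particle-hole form (P): weights of one word

Pair weights of a family of objects separated into main constituents, double points and glued holes.
-/

set_option autoImplicit false
set_option linter.unusedSectionVars false

noncomputable section

open Complex MeasureTheory Finset
open scoped Real ENNReal

namespace PHK

open NUO NUP1 NUP1S NUP1S.Mg NUP1S.Ab NUP1S.AbG NURow
open NUP1.Bd (wt Ob)
open Pool.Agent.PHD (PP_univ)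

/-! ### products over pairs -/

section pairs
variable {ι ι' : Type*} [Fintype ι] [Fintype ι']

theorem PU_two' [DecidableEq ι] (g : ι → ι → ℂ) :
    PU (fun a b => g a b * g b a) = ∏ a, ∏ b ∈ univ.erase a, g a b := by
  rw [PU_two]
  refine Finset.prod_congr rfl fun a _ => Finset.prod_congr ?_ fun _ _ => rfl
  ext
  simp

/-- separation of a family of lists -/
theorem PU_app6 [DecidableEq ι] (A B : ι → List Part6) :
    PU (fun i j => ppC6 (A i ++ B i) (A j ++ B j)) =
      PU (fun i j => ppC6 (A i) (A j)) * (∏ i, ∏ j ∈ univ.erase i, ppC6 (B i) (A j)) *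
        PU (fun i j => ppC6 (B i) (B j)) := by
  rw [← PU_two', ← PU_mul, ← PU_mul]
  refine PU_congr fun i j => ?_
  rw [ppC6_append, ppC6_append_right, ppC6_append_right, ppC6_symm (A i) (B j)]
  ring

/-- constituents of an object: main one, double point (`i ∈ TS`), glued hole (`i ∈ TD`) -/
def pW [DecidableEq ι] (σ : ι → Bool) (a : ι → Part) (b : ι → ℂ) (TS TD : Finset ι) (i : ι) : List Part6 :=
  ([(a i, 1)] ++ (if i ∈ TS then [((!(σ i), false, b i), 2)] else [])) ++
    (if i ∈ TD then [((σ i, false, b i), -1)] else [])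

theorem pp6_11 (a b : Part) : pp6 (a, 1) (b, 1) = pp a b := by
  unfold pp6
  simp

theorem pp6_quanta (s s' : Bool) (z z' : ℂ) (m m' : ℤ) :
    pp6 ((s, false, z), m) ((s', false, z'), m') = PP s s' (z - z') ^ (m * m') := by
  unfold pp6
  rw [pp_quanta]

/-- **the pairs of the objects of a word** -/
theorem pair_word [DecidableEq ι] (σ : ι → Bool) (a : ι → Part) (b : ι → ℂ) (TS TD : Finset ι) :
    PU (fun i j => ppC6 (pW σ a b TS TD i) (pW σ a b TS TD j)) =
      PU (fun i j => pp (a i) (a j)) *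
        (∏ i, if i ∈ TS then (∏ j ∈ univ.erase i, pp (!(σ i), false, b i) (a j)) ^ 2 else 1) *
        PU (fun i j => if i ∈ TS ∧ j ∈ TS then PP (!(σ i)) (!(σ j)) (b i - b j) ^ 4 else 1) *
        (∏ i, if i ∈ TD then (∏ j ∈ univ.erase i, pp (σ i, false, b i) (a j))⁻¹ *
          ∏ j ∈ univ.erase i, (if j ∈ TS then (PP (σ i) (!(σ j)) (b i - b j) ^ 2)⁻¹ else 1) else 1) *
        PU (fun i j => if i ∈ TD ∧ j ∈ TD then PP (σ i) (σ j) (b i - b j) else 1) := by
  unfold pW
  rw [PU_app6, PU_app6]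
  have e1 : PU (fun i j => ppC6 [(a i, 1)] [(a j, 1)]) = PU (fun i j => pp (a i) (a j)) :=
    PU_congr fun i j => by rw [ppC6_one_one, pp6_11]
  have e2 : (∏ i, ∏ j ∈ univ.erase i, ppC6 (if i ∈ TS then [((!(σ i), false, b i), 2)] else [])
      [(a j, 1)]) =
      ∏ i, if i ∈ TS then (∏ j ∈ univ.erase i, pp (!(σ i), false, b i) (a j)) ^ 2 else 1 := by
    refine Finset.prod_congr rfl fun i _ => ?_
    split_ifs with h
    · rw [← Finset.prod_pow]
      refine Finset.prod_congr rfl fun j _ => ?_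
      rw [ppC6_one_one]
      unfold pp6
      norm_num
    · exact Finset.prod_eq_one fun j _ => ppC6_nil _
  have e3 : PU (fun i j => ppC6 (if i ∈ TS then [((!(σ i), false, b i), 2)] else [])
      (if j ∈ TS then [((!(σ j), false, b j), 2)] else [])) =
      PU (fun i j => if i ∈ TS ∧ j ∈ TS then PP (!(σ i)) (!(σ j)) (b i - b j) ^ 4 else 1) := by
    refine PU_congr fun i j => ?_
    by_cases hi : i ∈ TS
    · by_cases hj : j ∈ TS
      · rw [if_pos hi, if_pos hj, if_pos ⟨hi, hj⟩, ppC6_one_one, pp6_quanta]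
        norm_cast
      · rw [if_neg hj, if_neg (fun h : i ∈ TS ∧ j ∈ TS => hj h.2), ppC6_nil_right]
    · rw [if_neg hi, if_neg (fun h : i ∈ TS ∧ j ∈ TS => hi h.1), ppC6_nil]
  have e4 : (∏ i, ∏ j ∈ univ.erase i, ppC6 (if i ∈ TD then [((σ i, false, b i), -1)] else [])
      ([(a j, 1)] ++ (if j ∈ TS then [((!(σ j), false, b j), 2)] else []))) =
      ∏ i, if i ∈ TD then (∏ j ∈ univ.erase i, pp (σ i, false, b i) (a j))⁻¹ *
        ∏ j ∈ univ.erase i, (if j ∈ TS then (PP (σ i) (!(σ j)) (b i - b j) ^ 2)⁻¹ else 1) else 1 := by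
    refine Finset.prod_congr rfl fun i _ => ?_
    split_ifs with h
    · rw [← Finset.prod_inv_distrib, ← Finset.prod_mul_distrib]
      refine Finset.prod_congr rfl fun j _ => ?_
      rw [ppC6_append_right, ppC6_one_one]
      congr 1
      · unfold pp6
        simp
      · split_ifs with hj
        · rw [ppC6_one_one, pp6_quanta]
          have : ((-1 : ℤ) * 2) = -(2 : ℕ) := by norm_num
          rw [this, zpow_neg, zpow_natCast]
        · rw [ppC6_nil_right]
    · exact Finset.prod_eq_one fun j _ => ppC6_nil _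
  have e5 : PU (fun i j => ppC6 (if i ∈ TD then [((σ i, false, b i), -1)] else [])
      (if j ∈ TD then [((σ j, false, b j), -1)] else [])) =
      PU (fun i j => if i ∈ TD ∧ j ∈ TD then PP (σ i) (σ j) (b i - b j) else 1) := by
    refine PU_congr fun i j => ?_
    by_cases hi : i ∈ TD
    · by_cases hj : j ∈ TD
      · rw [if_pos hi, if_pos hj, if_pos ⟨hi, hj⟩, ppC6_one_one, pp6_quanta]
        norm_num
      · rw [if_neg hj, if_neg (fun h : i ∈ TD ∧ j ∈ TD => hj h.2), ppC6_nil_right]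
    · rw [if_neg hi, if_neg (fun h : i ∈ TD ∧ j ∈ TD => hi h.1), ppC6_nil]
  rw [e1, e2, e3, e4, e5]

theorem tour_lt {κ : Type*} [LinearOrder κ] [Fintype κ] : Tour (fun a b : κ => a < b) where
  irr a := lt_irrefl a
  tot a b hab := by
    rcases lt_or_gt_of_ne hab with h | h
    · simp [h, h.not_gt]
    · simp [h, h.not_gt]

/-- the product over the unordered pairs of a linear order -/
theorem PU_PP {κ : Type*} [LinearOrder κ] [Fintype κ] {f : κ → κ → ℂ} (hf : ∀ a b, f a b = f b a) :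
    PU f = Pool.Agent.PHD.PP f univ := by
  rw [PU_eq tour_lt hf, PP_univ]
  unfold PR
  refine Finset.prod_congr rfl fun a _ => Finset.prod_congr rfl fun b _ => ?_
  by_cases h : a < b <;> simp [h]

theorem PP_set {κ : Type*} [LinearOrder κ] [Fintype κ] (f : κ → κ → ℂ) (T : Finset κ) :
    Pool.Agent.PHD.PP f T = Pool.Agent.PHD.PP (fun i j => if i ∈ T ∧ j ∈ T then f i j else 1) univ := by
  unfold Pool.Agent.PHD.PP
  rw [Finset.prod_ite, Finset.prod_const_one, mul_one]
  refine Finset.prod_congr ?_ fun _ _ => rfl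
  ext p
  simp only [Finset.mem_filter, Finset.mem_product, Finset.mem_univ, true_and]
  tauto

/-- pairs of a set of a linear order -/
theorem PP_PU {κ : Type*} [LinearOrder κ] [Fintype κ] {f : κ → κ → ℂ} (hf : ∀ a b, f a b = f b a)
    (T : Finset κ) : Pool.Agent.PHD.PP f T = PU (fun i j => if i ∈ T ∧ j ∈ T then f i j else 1) := by
  rw [PP_set, PU_PP]
  intro a b
  exact if_congr and_comm (hf a b) rfl

theorem PP_val {κ : Type*} [LinearOrder κ] {P : κ → Prop} (f : κ → κ → ℂ)
    (D : Finset {i // P i}) : Pool.Agent.PHD.PP (fun x y : {i // P i} => f x.1 y.1) D =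
      Pool.Agent.PHD.PP f (D.map (Function.Embedding.subtype P)) := by
  unfold Pool.Agent.PHD.PP
  refine Finset.prod_bij (fun p _ => (p.1.1, p.2.1)) ?_ ?_ ?_ ?_
  · rintro ⟨a, b⟩ hab
    rw [Finset.mem_filter, Finset.mem_product] at hab
    rw [Finset.mem_filter, Finset.mem_product]
    refine ⟨⟨Finset.mem_map_of_mem _ hab.1.1, Finset.mem_map_of_mem _ hab.1.2⟩, hab.2⟩
  · rintro ⟨a, b⟩ _ ⟨a', b'⟩ _ h
    have h1 := (Prod.mk.inj h).1
    have h2 := (Prod.mk.inj h).2
    exact Prod.ext (Subtype.ext h1) (Subtype.ext h2)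
  · rintro ⟨a, b⟩ hab
    rw [Finset.mem_filter, Finset.mem_product, Finset.mem_map, Finset.mem_map] at hab
    obtain ⟨⟨⟨x, hx, rfl⟩, y, hy, rfl⟩, hl⟩ := hab
    exact ⟨(x, y), by
      rw [Finset.mem_filter, Finset.mem_product]
      exact ⟨⟨hx, hy⟩, hl⟩, rfl⟩
  · rintro ⟨a, b⟩ _
    rfl

variable {p p' : ℕ}

/-- pairs of a subset of the objects of the two species -/
theorem PU_set {f : Fin p ⊕ Fin p' → Fin p ⊕ Fin p' → ℂ} (hf : ∀ a b, f a b = f b a)
    (T : Finset (Fin p)) (T' : Finset (Fin p')) :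
    PU (fun i j => if i ∈ T.disjSum T' ∧ j ∈ T.disjSum T' then f i j else 1) =
      Pool.Agent.PHD.PP (fun i j => f (.inl i) (.inl j)) T *
        Pool.Agent.PHD.PP (fun i j => f (.inr i) (.inr j)) T' *
          ∏ i ∈ T, ∏ j ∈ T', f (.inl i) (.inr j) := by
  rw [PU_sum (fun a b => if_congr and_comm (hf a b) rfl), PP_PU (fun a b => hf _ _),
    PP_PU (fun a b => hf _ _)]
  simp only [Finset.inl_mem_disjSum, Finset.inr_mem_disjSum]
  congr 1
  rw [← Finset.prod_filter_mul_prod_filter_not univ (fun i => i ∈ T)]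
  have e1 : ∏ x ∈ univ.filter (fun i => ¬ i ∈ T), ∏ b : Fin p',
      (if x ∈ T ∧ b ∈ T' then f (.inl x) (.inr b) else 1) = 1 :=
    Finset.prod_eq_one fun x hx => Finset.prod_eq_one fun b _ =>
      if_neg fun h => (Finset.mem_filter.1 hx).2 h.1
  rw [e1, mul_one]
  have e2 : univ.filter (fun i => i ∈ T) = T := by
    ext
    simp
  rw [e2]
  refine Finset.prod_congr rfl fun i hi => ?_
  rw [← Finset.prod_filter_mul_prod_filter_not univ (fun i => i ∈ T')]
  have e3 : ∏ b ∈ univ.filter (fun i => ¬ i ∈ T'),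
      (if i ∈ T ∧ b ∈ T' then f (.inl i) (.inr b) else 1) = 1 :=
    Finset.prod_eq_one fun b hb => if_neg fun h => (Finset.mem_filter.1 hb).2 h.2
  have e4 : univ.filter (fun i => i ∈ T') = T' := by
    ext
    simp
  rw [e3, mul_one, e4]
  exact Finset.prod_congr rfl fun j hj => if_pos ⟨hi, hj⟩

theorem prod_set (g : Fin p ⊕ Fin p' → ℂ) (T : Finset (Fin p)) (T' : Finset (Fin p')) :
    (∏ i, if i ∈ T.disjSum T' then g i else 1) = (∏ i ∈ T, g (.inl i)) * ∏ i ∈ T', g (.inr i) := by
  rw [Fintype.prod_sum_type]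
  simp only [Finset.inl_mem_disjSum, Finset.inr_mem_disjSum]
  rw [Finset.prod_ite_mem, Finset.prod_ite_mem, Finset.univ_inter, Finset.univ_inter]

end pairs

/-! ### constants -/

private lemma llB : NUP1.l = NUMF.l := rfl

/-- regular part of the pair function of a quantum and a string of the other species at the double pole -/
def cAW : ℂ := ((1 / Real.sin (5 * l) ^ 2 : ℝ) : ℂ)

/-- derivative of the pair function of a quantum and a string of its species at the zero `2 l` -/
def cdW : ℂ := ((Real.sin (2 * l) * Real.sin (3 * l) * Real.sin (5 * l) : ℝ) : ℂ)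

theorem sinl_ne {n : ℕ} (h1 : 0 < n) (h2 : n < 8) : Real.sin (n * l) ≠ 0 :=
  (sinl_pos n h1 h2).ne'

theorem kp_eqB : kp = ((4 * Real.cos l ^ 2 : ℝ) : ℂ) := by
  have h1 : Real.sin l ≠ 0 := by
    have := sinl_pos 1 (by norm_num) (by norm_num)
    rw [Nat.cast_one, one_mul] at this
    exact this.ne'
  have h2 : (Real.sin (2 * l) / Real.sin l) ^ 2 = 4 * Real.cos l ^ 2 := by
    rw [Real.sin_two_mul]
    field_simp
    ring
  unfold kp
  rw [← h2]
  push_cast
  rfl

theorem qg_zeroB : Bd.qg 0 = ((1 / Real.sin (3 * l) ^ 4 : ℝ) : ℂ) := by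
  have h3 : Real.sin (3 * l) ≠ 0 := (sinl_pos 3 (by norm_num) (by norm_num)).ne'
  have e : (Bd.qg 0 : ℂ) = 1 / (sin ((3 * l : ℝ) : ℂ) ^ 2 * sin (-((3 * l : ℝ) : ℂ)) ^ 2) := by
    unfold Bd.qg
    rw [Complex.cos_zero, zero_add, zero_sub]
    push_cast
    norm_num
  rw [e, Complex.sin_neg, ← Complex.ofReal_sin]
  push_cast
  ring

/-- constant of `E` -/
theorem cE_B : (1 / 2 : ℂ) * cC6 .E = wt .S * (kp * cAW ^ 2) := by
  unfold cC6
  rw [kp_eqB, cAW]
  push_cast
  ring

/-- constant of `F` -/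
theorem cF_B : (1 / 2 : ℂ) * cC6 .F = wt .S * (kp * cAW ^ 2) * (-kp / (cdW * Bd.qg 0 ^ 2)) := by
  have h2 : (Real.sin (2 * l) : ℂ) ≠ 0 := by
    exact_mod_cast (sinl_pos 2 (by norm_num) (by norm_num)).ne'
  have h3 : (Real.sin (3 * l) : ℂ) ≠ 0 := by
    exact_mod_cast (sinl_pos 3 (by norm_num) (by norm_num)).ne'
  have h5 : (Real.sin (5 * l) : ℂ) ≠ 0 := by
    exact_mod_cast (sinl_pos 5 (by norm_num) (by norm_num)).ne'
  unfold cC6
  rw [kp_eqB, cAW, cdW, qg_zeroB]
  push_cast at h2 h3 h5 ⊢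
  field_simp

/-- constant of a hole -/
theorem cH_B (y : Bool × ℝ) : cC6 (kdH y.1) = -(Pool.Agent.PHK.lK y * (-kp)) := by
  obtain ⟨c, u⟩ := y
  have h1 : wt .L = -(2 * Real.pi : ℂ)⁻¹ := rfl
  cases c
  · have h2 : Pool.Agent.PHK.lK (false, u) = -1 / (2 * Real.pi) := by simp [Pool.Agent.PHK.lK]
    show cC6 .H2 = _
    unfold cC6
    rw [kp_eqB, h1, h2]
    push_cast
    ring
  · have h2 : Pool.Agent.PHK.lK (true, u) = 1 / (2 * Real.pi) := by simp [Pool.Agent.PHK.lK]
    show cC6 .H1 = _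
    unfold cC6
    rw [kp_eqB, h1, h2]
    push_cast
    ring

/-! ### the objects of a word -/

section word

variable (Z : Bool → Option O3 → ℂ → ℂ) (P : Par6) {p p' : ℕ} (k : Fin p → O3) (k' : Fin p' → O3)
  (t : Fin p ⊕ Fin p' → ℝ) (D : Finset (Fin p)) (D' : Finset (Fin p'))

/-- letters -/
abbrev kkW : Fin p ⊕ Fin p' → O3 := Sum.elim k k'

/-- species -/
abbrev sW (i : Fin p ⊕ Fin p') : Bool := i.isLeft

/-- positions -/
def zW (i : Fin p ⊕ Fin p') : ℂ :=
  pos (Sum.elim (fun i => lnK P (k i)) (fun i => lnK P (k' i))) t i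

/-- the point of a string -/
def bW (i : Fin p ⊕ Fin p') : ℂ := zW P k k' t i + 2 * l

/-- main constituents -/
def aW (i : Fin p ⊕ Fin p') : Part := (sW i, tyB (ob3 (kkW k k' i)), zW P k k' t i)

/-- the objects -/
def xW (i : Fin p ⊕ Fin p') : Xo :=
  xo (sW i, kdA (kaD (kkW k k' i) (decide (i ∈ D.disjSum D')))) (t i)

theorem famW_inl {a b : ℕ} (y : Fin a ⊕ Fin b → Bool × ℝ) (i : Fin p ⊕ Fin p') :
    famW (fun i => kaD (k i) (decide (i ∈ D))) (fun i => kaD (k' i) (decide (i ∈ D'))) t y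
      (Sum.inl i) = xW k k' t D D' i := by
  rcases i with i | i
  · unfold xW famW
    simp [Finset.inl_mem_disjSum]
  · unfold xW famW
    simp [Finset.inr_mem_disjSum]

theorem mem_TS (i : Fin p ⊕ Fin p') : i ∈ (strS k).disjSum (strS k') ↔ kkW k k' i = .S := by
  rcases i with i | i
  · rw [Finset.inl_mem_disjSum]
    simp [strS, kkW]
  · rw [Finset.inr_mem_disjSum]
    simp [strS, kkW]

theorem zW_L {i : Fin p ⊕ Fin p'} (h : kkW k k' i = .L) : zW P k k' t i = posL P.jL (t i) := by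
  have e : Sum.elim (fun i => lnK P (k i)) (fun i => lnK P (k' i)) i = (1 - P.jL) * l := by
    rcases i with i | i <;> (simp only [kkW, Sum.elim_inl, Sum.elim_inr] at h ⊢; rw [h]; rfl)
  unfold zW pos
  rw [e]
  rfl

theorem zW_T {i : Fin p ⊕ Fin p'} (h : kkW k k' i = .T) : zW P k k' t i = posT (t i) := by
  have e : Sum.elim (fun i => lnK P (k i)) (fun i => lnK P (k' i)) i = -(1 / 2 * l) := by
    have e2 : lnK P .T = -(1 / 2 * l) := by
      show -(l / 2) = _
      ring
    rcases i with i | i <;> (simp only [kkW, Sum.elim_inl, Sum.elim_inr] at h ⊢; rw [h, e2])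
  unfold zW pos
  rw [e]
  rfl

theorem zW_S {i : Fin p ⊕ Fin p'} (h : kkW k k' i = .S) : zW P k k' t i = posS P.e (t i) := by
  have e : Sum.elim (fun i => lnK P (k i)) (fun i => lnK P (k' i)) i = -((1 + P.e) * l) := by
    rcases i with i | i <;> (simp only [kkW, Sum.elim_inl, Sum.elim_inr] at h ⊢; rw [h]; rfl)
  unfold zW pos
  rw [e]
  rfl

theorem bW_S {i : Fin p ⊕ Fin p'} (h : kkW k k' i = .S) : bW P k k' t i = posB P.e (t i) := by
  unfold bW posB
  rw [zW_S P k k' t h]

variable {D D'}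

/-- the constituents of the objects of a word -/
theorem parts_xW (hD : D ⊆ strS k) (hD' : D' ⊆ strS k') (i : Fin p ⊕ Fin p') :
    parts6 P (xW k k' t D D' i) = pW sW (aW P k k' t) (bW P k k' t)
      ((strS k).disjSum (strS k')) (D.disjSum D') i := by
  have hsub : D.disjSum D' ⊆ (strS k).disjSum (strS k') := Finset.disjSum_mono hD hD'
  have hT := mem_TS k k' i
  unfold pW aW xW
  rw [parts6_eq, sp_xo', k6_xo', ht_xo']
  rcases h : kkW k k' i with _ | _ | _
  · have h1 : i ∉ (strS k).disjSum (strS k') := fun hc => by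
      rw [hT, h] at hc
      exact absurd hc (by decide)
    have h2 : i ∉ D.disjSum D' := fun hc => h1 (hsub hc)
    rw [if_neg h1, if_neg h2, zW_L P k k' t h]
    rfl
  · have h1 : i ∈ (strS k).disjSum (strS k') := hT.2 h
    rw [if_pos h1, zW_S P k k' t h, bW_S P k k' t h]
    by_cases h2 : i ∈ D.disjSum D'
    · rw [if_pos h2, decide_eq_true h2]
      rfl
    · rw [if_neg h2, decide_eq_false h2]
      rfl
  · have h1 : i ∉ (strS k).disjSum (strS k') := fun hc => by
      rw [hT, h] at hc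
      exact absurd hc (by decide)
    have h2 : i ∉ D.disjSum D' := fun hc => h1 (hsub hc)
    rw [if_neg h1, if_neg h2, zW_T P k k' t h]
    rfl

/-- the one body weights of the objects of a word -/
theorem obK_xW (hD : D ⊆ strS k) (hD' : D' ⊆ strS k') (i : Fin p ⊕ Fin p') :
    (if i ∈ (strS k).disjSum (strS k') then (1 / 2 : ℂ) else 1) * obK6 Z P (xW k k' t D D' i) =
      wt (ob3 (kkW k k' i)) * Z (sW i) (some (kkW k k' i)) (zW P k k' t i) *
        (if i ∈ (strS k).disjSum (strS k') then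
          kp * (cAW * Z (!(sW i)) none (bW P k k' t i)) ^ 2 else 1) *
        (if i ∈ D.disjSum D' then
          -kp / (cdW * Bd.qg 0 ^ 2 * Z (sW i) none (bW P k k' t i)) else 1) := by
  have hsub : D.disjSum D' ⊆ (strS k).disjSum (strS k') := Finset.disjSum_mono hD hD'
  have hT := mem_TS k k' i
  rcases h : kkW k k' i with _ | _ | _
  · have h1 : i ∉ (strS k).disjSum (strS k') := fun hc => by
      rw [hT, h] at hc
      exact absurd hc (by decide)
    have h2 : i ∉ D.disjSum D' := fun hc => h1 (hsub hc)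
    have hk : k6 (xW k k' t D D' i) = .L := by
      unfold xW
      rw [k6_xo', h]
      rfl
    rw [if_neg h1, if_neg h1, if_neg h2, obK6_L Z P hk, zW_L P k k' t h]
    unfold xW
    rw [sp_xo', ht_xo']
    simp only [one_mul, mul_one]
    rfl
  · have h1 : i ∈ (strS k).disjSum (strS k') := hT.2 h
    rw [if_pos h1, if_pos h1, zW_S P k k' t h, bW_S P k k' t h]
    by_cases h2 : i ∈ D.disjSum D'
    · have hk : k6 (xW k k' t D D' i) = .F := by
        unfold xW
        rw [k6_xo', h, decide_eq_true h2]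
        rfl
      rw [if_pos h2, obK6_F Z P hk]
      unfold xW
      rw [sp_xo', ht_xo', ← mul_assoc, cF_B, mul_pow, div_eq_mul_inv, div_eq_mul_inv]
      simp only [mul_inv]
      show _ = wt .S * _ * _ * _
      ring
    · have hk : k6 (xW k k' t D D' i) = .E := by
        unfold xW
        rw [k6_xo', h, decide_eq_false h2]
        rfl
      rw [if_neg h2, obK6_E Z P hk]
      unfold xW
      rw [sp_xo', ht_xo', ← mul_assoc, cE_B, mul_pow]
      show _ = wt .S * _ * _ * _
      ring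
  · have h1 : i ∉ (strS k).disjSum (strS k') := fun hc => by
      rw [hT, h] at hc
      exact absurd hc (by decide)
    have h2 : i ∉ D.disjSum D' := fun hc => h1 (hsub hc)
    have hk : k6 (xW k k' t D D' i) = .T := by
      unfold xW
      rw [k6_xo', h]
      rfl
    rw [if_neg h1, if_neg h1, if_neg h2, obK6_T Z P hk, zW_T P k k' t h]
    unfold xW
    rw [sp_xo', ht_xo']
    simp only [one_mul, mul_one]
    rfl

end word

end PHK

end
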