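import Pool.Agent.PHK.WordA
import Pool.Agent.PHK.WordX

/-!
# The word identity at fixed heights from the exact identity (P) and the values of `F`, `E`
-/

set_option autoImplicit false
set_option linter.unusedSectionVars false
set_option linter.unusedVariables false

noncomputable section

open Complex MeasureTheory Finset
open scoped Real ENNReal Nat

namespace PHK

open NUO NUP1 NUP1S NUP1S.Mg NUP1S.Ab NUP1S.AbG NURow
open NUP1.Bd (wt Ob qg)
open Pool.Agent.PHK (lM lG lK)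

theorem card_strS_le {p : ℕ} (k : Fin p → O3) : (strS k).card ≤ ∑ i, c3 (k i) := by
  calc (strS k).card = ∑ i ∈ strS k, 1 := by simp
    _ ≤ ∑ i ∈ strS k, c3 (k i) := Finset.sum_le_sum fun i _ => c3_pos (k i)
    _ ≤ _ := Finset.sum_le_sum_of_subset (subset_univ _)

variable {p p' : ℕ} {k : Fin p → O3} {k' : Fin p' → O3} {t : Fin p ⊕ Fin p' → ℝ}
  {ν : Bool → Type} [∀ s, Fintype (ν s)] [∀ s, LinearOrder (ν s)]
  {Z : Bool → Option O3 → ℂ → ℂ} {P : Par6} {ζ ρ : ∀ s, ν s → ℂ} {n n' : ℕ}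
  {d : StrT k ⊕ₗ ν true → ℂ} {d' : StrT k' ⊕ₗ ν false → ℂ}
  {a₀ a₁ x y b₁ b₂ κ κ' q0 x0 : ℝ} {F E F' E' : ℂ → ℂ}

/-- **the word identity at fixed heights** -/
theorem wordIdZ_fin (hc : ∑ i, c3 (k i) ≤ n) (hc' : ∑ i, c3 (k' i) ≤ n')
    (hI : IntW Z P ζ n n' k k' t)
    (hd1 : ∀ i, d (toLex (Sum.inl i)) = bX P k k' t i)
    (hd2 : ∀ j, d (toLex (Sum.inr j)) = ζ true j)
    (hd1' : ∀ i, d' (toLex (Sum.inl i)) = bY P k k' t i)
    (hd2' : ∀ j, d' (toLex (Sum.inr j)) = ζ false j)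
    (S : Sp6 (lnH P) a₀ a₁ x y b₁ b₂ l κ κ' q0 true (bY P k k' t) d (fW Z P k k' t true) F E)
    (S' : Sp6 (lnH P) a₀ a₁ x y b₁ b₂ l κ κ' q0 false (bX P k k' t) d' (fW Z P k k' t false)
      F' E')
    (hF : ∀ i, F (bY P k k' t i) = rbW Z P k k' t (Sum.inr i.1) *
      ∏ i' ∈ univ.erase i, (bY P k k' t i - bY P k k' t i') ^ 2)
    (hF' : ∀ i, F' (bX P k k' t i) = rbW Z P k k' t (Sum.inl i.1) *
      ∏ i' ∈ univ.erase i, (bX P k k' t i - bX P k k' t i') ^ 2)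
    (hE : ∀ j, E (d j) * rdZ Z P k k' t ζ ρ j * ∏ i, (d j - bY P k k' t i) ^ 2 =
      ∏ j' ∈ univ.erase j, (d j - d j'))
    (hE' : ∀ j, E' (d' j) * rdZ' Z P k k' t ζ ρ j * ∏ i, (d' j - bX P k k' t i) ^ 2 =
      ∏ j' ∈ univ.erase j, (d' j - d' j'))
    (hex : gas (nA n k) (nA n' k') x0 (fW Z P k k' t true) (fW Z P k k' t false) =
      exR (lnH P) l (fW Z P k k' t) (bY P k k' t) d (bX P k k' t) d' F E F' E' (nA n k) (nA n' k')) :
    WordIdZ Z P ζ ρ (lnK P) x0 n n' (2 * (n + n')) k k' t :=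
  wordIdZ_of hc hc' (by have := card_strS_le k; omega) (by have := card_strS_le k'; omega) hI
    (wordW_of Z P k k' t ζ ρ hd1 hd2 hd1' hd2' S S' hF hF' hE hE') hex

end PHK

end
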