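import Pool.Agent.PHK.ClsZ
import Pool.Agent.PHK.ClsFF6

/-!
# The word identities of the classes with zeros and poles (statements)

* `ZerZ` : the zeros `ζ s` of `Z s none` in the strip of the holes, its inverse `Ei s`;
* **`WordThZ`** : the identity of the words, `Z s none` regular on `51/100 l ≤ Re ≤ l`;
* `PolZ` : simple poles `π s` with `Re = 5/8 l`; `ZFl` : quanta at the poles; `cPl` : weights;
  `TP` : the term; **`WordThP`** : the identity of the words of a class with poles; `TP_ok`.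
-/

set_option autoImplicit false
set_option linter.unusedSectionVars false
set_option linter.unusedVariables false

noncomputable section

open Complex MeasureTheory Finset
open scoped ENNReal

open PLX (Fil)

namespace PHK

open NUO NUP1 NUP1S NUP1S.Mg NURow NUCR
open NUP1.Bd (wt qg Ob)
open Pool.Agent.PLX (DecZ6 HI6)

/-- **the zeros of a class in the strip of the holes**: `ζ s` = zeros of `Z s none`, `Ei s` = inverse
without the poles at the zeros, `ρ s j` = limit of `Z s none z / (z - ζ s j)` at `ζ s j`; `Z s none` is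
regular for `51/100 l ≤ Re z < bZ` -/
structure ZerZ (Z : Bool → Option O3 → ℂ → ℂ) (P : Par6) (bZ κ' q0 : ℝ) {ν : Bool → Type}
    [∀ s, Fintype (ν s)] [∀ s, LinearOrder (ν s)] (ζ ρ : ∀ s, ν s → ℂ) (Ei : Bool → ℂ → ℂ) :
    Prop where
  inj : ∀ s, Function.Injective (ζ s)
  st : ∀ s j, (1 - P.j2) * l < (ζ s j).re ∧ (ζ s j).re < (1 - P.j1) * l
  an : ∀ s (u : ℂ), 1 / 9 * l < u.re → u.re < 63 / 64 * l → DifferentiableAt ℂ (Ei s) u
  off : ∀ s j, (ζ s j).re ≠ (1 - P.e) * l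
  eq : ∀ s (u : ℂ), 51 / 100 * l ≤ u.re → u.re < bZ → Z s none u * Ei s u = ∏ j, (u - ζ s j)
  eqh : ∀ s (u : ℂ), u.re = (1 - P.j2) * l ∨ u.re = (1 - P.j1) * l →
    Z s none u * Ei s u = ∏ j, (u - ζ s j) ∨ (Z s none u = 0 ∧ Ei s u = 0)
  bd : ∀ s, Bdd (Set.Icc (1 / 8 * l) (31 / 32 * l)) (κ' + 2 * q0 * sc (s, Ob.A)) (Ei s)
  rho : ∀ s j, Ei s (ζ s j) * ρ s j = ∏ j' ∈ univ.erase j, (ζ s j - ζ s j')

/-- **the word identities of the classes with zeros** -/
def WordThZ : Prop :=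
  ∀ (Z : Bool → Option O3 → ℂ → ℂ) (P : Par6) (κ κ' : ℝ) (Q : ℤ) (n n' : ℕ) (ν : Bool → Type)
    [∀ s, Fintype (ν s)] [∀ s, LinearOrder (ν s)] (ζ ρ : ∀ s, ν s → ℂ) (Ei : Bool → ℂ → ℂ),
    GoodP6 P → HI6 P → 0 < κ → κ' < 6 → (∀ s k, Measurable (Z s k)) →
    DecZ6 Z P (51 / 100 * l) κ Q →
    (∀ (s : Bool) (u : ℂ), 51 / 100 * l ≤ u.re → u.re ≤ l → DifferentiableAt ℂ (Z s none) u) →
    ZerZ Z P (63 / 64 * l) κ' Q ζ ρ Ei → (n : ℤ) = n' + Q →
    ∀ (p p' : ℕ) (k : Fin p → O3) (k' : Fin p' → O3), ∑ i, c3 (k i) ≤ n → ∑ i, c3 (k' i) ≤ n' →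
      ∀ᵐ t : Fin p ⊕ Fin p' → ℝ ∂(Measure.pi fun _ => volume),
        WordIdZ Z P ζ ρ (lnK P) (51 / 100 * l) n n' (2 * (n + n')) k k' t

/-! ### poles -/

/-- **simple poles** `π s`, `Re = 5/8 l`, of `Z s none` for the species `s` with `a s = true`:
`Z s none u = h s u / sin (u - π s)`; for the other species `h s (π s) = 0` -/
structure PolZ (Z : Bool → Option O3 → ℂ → ℂ) (κ q0 : ℝ) (a : Bool → Bool) (π : Bool → ℂ)
    (h : Bool → ℂ → ℂ) : Prop where
  re : ∀ s, (π s).re = 5 / 8 * l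
  im : (π true).im ≠ (π false).im
  an : ∀ s (u : ℂ), 51 / 100 * l ≤ u.re → u.re ≤ l → DifferentiableAt ℂ (h s) u
  eq : ∀ s (u : ℂ), 51 / 100 * l ≤ u.re → u.re ≤ l → u ≠ π s →
    Z s none u = h s u / Complex.sin (u - π s)
  no : ∀ s, a s = false → h s (π s) = 0
  ms : ∀ s, Measurable (h s)
  bd : ∀ s, Bdd (Set.Icc (51 / 100 * l) l) (1 - (κ + 2 * q0 * sc (s, Ob.A))) (h s)

/-- the quanta at the poles: only where there is a pole -/
def OkI (a : Bool → Bool) (i : Bool × Bool) : Prop :=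
  (i.1 = true → a true = true) ∧ (i.2 = true → a false = true)

instance (a : Bool → Bool) (i : Bool × Bool) : Decidable (OkI a i) := by
  unfold OkI
  infer_instance

/-- **quanta at the poles**: `i.1` of the first, `i.2` of the second species -/
def ZFl (Z : Bool → Option O3 → ℂ → ℂ) (π : Bool → ℂ) (i : Bool × Bool) (s : Bool) (k : Option O3)
    (z : ℂ) : ℂ :=
  Z s k z * ((if i.1 = true then gz (true, .A) (s, ob4 k) (π true - z) else 1) *
    (if i.2 = true then gz (false, .A) (s, ob4 k) (π false - z) else 1))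

/-- weights of the quanta at the poles -/
def cPl (π : Bool → ℂ) (h : Bool → ℂ → ℂ) (i : Bool × Bool) : ℂ :=
  (if i.1 = true then -h true (π true) else 1) * (if i.2 = true then -h false (π false) else 1) *
    (if i.1 = true ∧ i.2 = true then qg (π true - π false) else 1)

/-- **the term of a class with poles** -/
def TP (Z : Bool → Option O3 → ℂ → ℂ) (P : Par6) (a : Bool → Bool) (π : Bool → ℂ)
    (h : Bool → ℂ → ℂ) {ν : Bool × Bool → Bool → Type} [∀ i s, Fintype (ν i s)] [∀ i s, LinearOrder (ν i s)]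
    (ζ ρ : ∀ i s, ν i s → ℂ) (n n' : ℕ) : Trm :=
  fun _ _ O => ∑ i : Bool × Bool, if OkI a i ∧ i.1.toNat ≤ n ∧ i.2.toNat ≤ n' then
    cPl π h i * TZ (ZFl Z π i) P (ζ i) (ρ i) (n - i.1.toNat) (n' - i.2.toNat) _ O else 0

/-- **the word identities of the classes with poles** -/
def WordThP : Prop :=
  ∀ (Z : Bool → Option O3 → ℂ → ℂ) (P : Par6) (κ κ' : ℝ) (Q : ℤ) (n n' : ℕ)
    (a : Bool → Bool) (π : Bool → ℂ) (h : Bool → ℂ → ℂ) (ν : Bool × Bool → Bool → Type) [∀ i s, Fintype (ν i s)]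
    [∀ i s, LinearOrder (ν i s)] (ζ ρ : ∀ i s, ν i s → ℂ) (Ei : Bool × Bool → Bool → ℂ → ℂ),
    GoodP6 P → HI6 P → (1 - P.e) * l < 19 / 32 * l → 0 < κ → κ' < 6 →
    (∀ s k, Measurable (Z s k)) →
    (∀ s, DecOn (κ + 2 * (Q : ℝ) * sc (s, Ob.A)) (Set.Icc (51 / 100 * l) (39 / 64 * l) ∪
      Set.Icc (41 / 64 * l) l) (Z s none)) →
    (∀ s, DecOn (κ + 2 * (Q : ℝ) * sc (s, Ob.L)) {(1 - P.jL) * l} (Z s (some .L))) →
    (∀ s, DecOn (κ + 2 * (Q : ℝ) * sc (s, Ob.S)) {-(l / 2)} (Z s (some .T))) →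
    (∀ s (M : ℕ), DecOn (M : ℝ) {-((1 + P.e) * l)} (Z s (some .S))) →
    PolZ Z κ Q a π h →
    (∀ i, OkI a i → ZerZ (ZFl Z π i) P (39 / 64 * l) κ' ((Q : ℝ) - i.1.toNat + i.2.toNat) (ζ i) (ρ i)
      (Ei i)) →
    (n : ℤ) = n' + Q →
    ∀ (p p' : ℕ) (k : Fin p → O3) (k' : Fin p' → O3), ∑ i, c3 (k i) ≤ n → ∑ i, c3 (k' i) ≤ n' →
      ∀ᵐ t : Fin p ⊕ Fin p' → ℝ ∂(Measure.pi fun _ => volume),
        WordIdT Z (TP Z P a π h ζ ρ n n') (lnK P) (51 / 100 * l) n n' (2 * (n + n')) k k' t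

section pol
variable {Z : Bool → Option O3 → ℂ → ℂ} {P : Par6} {a : Bool → Bool} {π : Bool → ℂ}
  {h : Bool → ℂ → ℂ}
  {ν : Bool × Bool → Bool → Type} [∀ i s, Fintype (ν i s)] [∀ i s, LinearOrder (ν i s)]
  {ζ ρ : ∀ i s, ν i s → ℂ} {n n' : ℕ}

/-- **the term of a class with poles satisfies the conditions** -/
theorem TP_ok (hζ : ∀ i, OkI a i → ZStrip P (ζ i))
    (hI : ∀ (i : Bool × Bool) (E : Finset (ν i true)) (E' : Finset (ν i false)) {ι : Type}
      [Fintype ι] (K : ι → Bool × Kd6), OkI a i → i.1.toNat ≤ n → i.2.toNat ≤ n' →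
      Integrable (fun t : ι → ℝ =>
        fI (ZE (ZFl Z π i) (ζ i) E E') P l (n - i.1.toNat + E.card) (n' - i.2.toNat + E'.card)
          fun j => xo (K j) (t j)) (Measure.pi fun _ => volume)) :
    TOk (TP Z P a π h ζ ρ n n') (2 * (n + n')) n n' := by
  have hT : ∀ i : Bool × Bool, OkI a i → i.1.toNat ≤ n → i.2.toNat ≤ n' →
      TOk (TZ (ZFl Z π i) P (ζ i) (ρ i) (n - i.1.toNat) (n' - i.2.toNat))
        (2 * ((n - i.1.toNat) + (n' - i.2.toNat))) (n - i.1.toNat) (n' - i.2.toNat) :=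
    fun i h0 h1 h2 => TZ_ok (hζ i h0) fun E E' _ _ K => hI i E E' K h0 h1 h2
  constructor
  · intro ι ι' _ _ e O
    unfold TP
    refine sum_congr rfl fun i _ => ?_
    split_ifs with hc
    · rw [(hT i hc.1 hc.2.1 hc.2.2).equiv e O]
    · rfl
  · intro ι _ O
    unfold TP
    refine sum_congr rfl fun i _ => ?_
    split_ifs with hc
    · rw [(hT i hc.1 hc.2.1 hc.2.2).xo O]
    · rfl
  · intro ι _ O hN
    unfold TP
    refine sum_eq_zero fun i _ => ?_
    split_ifs with hc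
    · rw [(hT i hc.1 hc.2.1 hc.2.2).zero O (by omega), mul_zero]
    · rfl
  · intro ι _ K
    unfold TP
    refine integrable_finsetSum _ fun i _ => ?_
    by_cases hc : OkI a i ∧ i.1.toNat ≤ n ∧ i.2.toNat ≤ n'
    · simp only [hc, and_self, if_true]
      exact ((hT i hc.1 hc.2.1 hc.2.2).int K).const_mul _
    · simp only [hc, if_false]
      exact integrable_zero _ _ _
  · intro ι _ O hne
    unfold TP at hne
    obtain ⟨i, _, hi⟩ := exists_ne_zero_of_sum_ne_zero hne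
    by_cases hc : OkI a i ∧ i.1.toNat ≤ n ∧ i.2.toNat ≤ n'
    · rw [if_pos hc] at hi
      have h1 := (hT i hc.1 hc.2.1 hc.2.2).chg O (right_ne_zero_of_mul hi)
      constructor <;> omega
    · rw [if_neg hc] at hi
      exact absurd rfl hi

end pol

end PHK

end
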