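import Pool.Agent.PHK.WordF
import Pool.Agent.PHK.HostFW
import Pool.Agent.PHK.WordZT
import Pool.Agent.PHK.DecZ6

/-!
# The classes for the word identity

* **`ClG`**: the class data of the word identities (zeros `ζ`, inverse `Ei`, open strip `(a, b₂)`);
* `ClG.of_zer` : from `ZerZ`; `ClG.of_base` : the classes without zeros (`DecQ6`, `DifZ6`).
-/

set_option autoImplicit false
set_option linter.unusedSectionVars false
set_option linter.unusedVariables false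

noncomputable section

open Complex MeasureTheory Finset
open scoped Real ENNReal Nat

namespace PHK

open NUO NUP1 NUP1S NUP1S.Mg NUP1S.Ab NUP1S.AbG NURow
open NUP1.Bd (wt Ob qg)
open Pool.Agent.PHK (lM lG lK)

/-- **the class data of the word identities** -/
structure ClG (Z : Bool → Option O3 → ℂ → ℂ) (P : Par6) (a b₂ κ κZ Q : ℝ) {ν : Bool → Type}
    [∀ s, Fintype (ν s)] [∀ s, LinearOrder (ν s)] (ζ ρ : ∀ s, ν s → ℂ) (Ei : Bool → ℂ → ℂ) :
    Prop where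
  a0 : 0 < a
  a1 : a < (1 - P.j2) * l
  a2 : a ≤ 51 / 100 * l
  b1 : (1 - P.j1) * l < b₂
  b2 : b₂ ≤ (3 - P.jL) * l
  b3 : b₂ ≤ l
  cl : ∀ s, HCl Z P a (51 / 100 * l) l b₂ κ κZ Q s (ζ s) (Ei s)
  rho : ∀ s j, Ei s (ζ s j) * ρ s j = ∏ j' ∈ univ.erase j, (ζ s j - ζ s j')
  dA : ∀ s (u : ℂ), 51 / 100 * l ≤ u.re → u.re ≤ l → DifferentiableAt ℂ (Z s none) u
  bA : ∀ s, DecOn (κ + 2 * Q * sc (s, Ob.A)) (Set.Icc (51 / 100 * l) l) (Z s none)

/-- the classes without zeros -/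
theorem ClG.of_base {Z : Bool → Option O3 → ℂ → ℂ} {P : Par6} {κ κ' del Q : ℝ} (hP : GoodP6 P)
    (hm : ∀ s, Measurable (Z s none))
    (hA : ∀ s, DecOn (κ + 2 * Q * sc (s, Ob.A)) (Set.Icc (51 / 100 * l) l) (Z s none))
    (hH : ∀ s, Bdd (Set.Icc ((1 - P.j2) * l) ((1 - P.j1) * l)) (κ' + 2 * Q * sc (s, Ob.A))
      fun u => (Z s none u)⁻¹) (hd : 0 < del) (hD : DifZ6 Z P (51 / 100 * l) del) :
    ∃ a b₂, ClG (ν := fun _ => Empty) Z P a b₂ κ κ' Q (fun _ j => j.elim) (fun _ j => j.elim)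
      (fun s u => (Z s none u)⁻¹) := by
  have hl : 0 < l := Bd.l_pos
  have h1 := hP.j1
  have h2 := hP.j1e
  have h3 := hP.ej2
  have h4 := hP.j2
  have h5 := hP.Lj
  have p2 : 0 < (1 - P.j2) * l := mul_pos (by linarith) hl
  have p1 : (1 - P.j1) * l < l := by nlinarith
  have p3 : (1 - P.j1) * l < (3 - P.jL) * l := by nlinarith
  have m1 : (0 : ℝ) ≤ max 0 ((1 - P.j2) * l - del) := le_max_left _ _
  have m2 : (1 - P.j2) * l - del ≤ max 0 ((1 - P.j2) * l - del) := le_max_right _ _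
  have m3 : max 0 ((1 - P.j2) * l - del) < (1 - P.j2) * l := max_lt p2 (by linarith)
  set c : ℝ := ((1 - P.j2) * l + max 0 ((1 - P.j2) * l - del)) / 2 with hc
  set a : ℝ := min (51 / 100 * l) c with ha
  set b₂ : ℝ := min ((1 - P.j1) * l + del) (min ((3 - P.jL) * l) l) with hb
  have b0 : b₂ ≤ (1 - P.j1) * l + del := min_le_left _ _
  have b1 : b₂ ≤ (3 - P.jL) * l := (min_le_right _ _).trans (min_le_left _ _)
  have b2 : b₂ ≤ l := (min_le_right _ _).trans (min_le_right _ _)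
  have b3 : (1 - P.j1) * l < b₂ := lt_min (by linarith) (lt_min p3 p1)
  have c0 : 0 < c := by
    rw [hc]
    linarith
  have c1 : (1 - P.j2) * l - del < c := by
    rw [hc]
    linarith
  have c2 : c < (1 - P.j2) * l := by
    rw [hc]
    linarith
  have a0 : 0 < a := lt_min (by positivity) c0
  refine ⟨a, b₂, ⟨a0, (min_le_right _ _).trans_lt c2, min_le_left _ _, b3, b1, b2, fun s => ?_,
    fun s j => j.elim, hD.dA, hA⟩⟩
  refine ⟨fun j => j.elim, fun j => j.elim, ?_, ?_, ?_, ?_, hH s, hm s, ?_⟩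
  · exact fun u hu => (hD.dA s u hu.1.le hu.2.le).differentiableWithinAt
  · intro u hu
    refine DifferentiableAt.differentiableWithinAt ?_
    by_cases h0 : 51 / 100 * l < u.re
    · exact (hD.dA s u h0.le (hu.2.le.trans b2)).inv (hD.ne s u h0.le (hu.2.trans_le b0))
    · refine hD.dH s u ?_ (hu.2.trans_le b0)
      rcases min_lt_iff.1 hu.1 with h6 | h6
      · exact absurd h6 h0
      · exact c1.trans h6
  · intro u hu hu'
    rw [mul_inv_cancel₀ (hD.ne s u hu.1.le (hu'.2.trans_le b0))]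
    simp
  · intro u _
    by_cases h0 : Z s none u = 0
    · right
      exact ⟨h0, by rw [h0, inv_zero]⟩
    · left
      rw [mul_inv_cancel₀ h0]
      simp
  · obtain ⟨D, hd⟩ := hA s
    refine ⟨D, fun u hu => hd u ?_⟩
    rw [Set.mem_singleton_iff.1 hu]
    exact ⟨by linarith, le_rfl⟩

/-- **the classes with zeros** -/
theorem ClG.of_zer {Z : Bool → Option O3 → ℂ → ℂ} {P : Par6} {κ κ' Q : ℝ} {ν : Bool → Type}
    [∀ s, Fintype (ν s)] [∀ s, LinearOrder (ν s)] {ζ ρ : ∀ s, ν s → ℂ} {Ei : Bool → ℂ → ℂ}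
    (hP : GoodP6 P) (hI : Pool.Agent.PLX.HI6 P) (hm : ∀ s, Measurable (Z s none))
    (hA : ∀ s, DecOn (κ + 2 * Q * sc (s, Ob.A)) (Set.Icc (51 / 100 * l) l) (Z s none))
    (hd : ∀ (s : Bool) (u : ℂ), 51 / 100 * l ≤ u.re → u.re ≤ l → DifferentiableAt ℂ (Z s none) u)
    (hZ : ZerZ Z P (63 / 64 * l) κ' Q ζ ρ Ei) :
    ClG Z P (1 / 9 * l) (min (63 / 64 * l) ((3 - P.jL) * l)) κ κ' Q ζ ρ Ei := by
  have hl : 0 < l := Bd.l_pos
  have h1 := hP.j1
  have h2 := hP.j1e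
  have h3 := hP.ej2
  have h4 := hP.j2
  have h5 := hP.Lj
  have i1 := hI.j1
  have i2 := hI.j2
  have p1 : (1 - P.j1) * l < 63 / 64 * l := by nlinarith
  have p3 : (1 - P.j1) * l < (3 - P.jL) * l := by nlinarith
  have p4 : 1 / 9 * l < (1 - P.j2) * l := by nlinarith
  have q1 : min (63 / 64 * l) ((3 - P.jL) * l) ≤ 63 / 64 * l := min_le_left _ _
  refine ⟨by linarith, p4, by linarith, lt_min p1 p3, min_le_right _ _, q1.trans (by linarith),
    fun s => ?_, hZ.rho, hd, hA⟩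
  refine ⟨hZ.inj s, hZ.st s, ?_, ?_, ?_, hZ.eqh s, ?_, hm s, ?_⟩
  · exact fun u hu => (hd s u hu.1.le hu.2.le).differentiableWithinAt
  · exact fun u hu => (hZ.an s u hu.1 (hu.2.trans_le q1)).differentiableWithinAt
  · exact fun u hu hu' => hZ.eq s u hu.1.le (hu'.2.trans_le q1)
  · refine Bdd.mono_set (hZ.bd s) (Set.Icc_subset_Icc ?_ ?_)
    · nlinarith
    · nlinarith
  · obtain ⟨D, hd⟩ := hA s
    refine ⟨D, fun u hu => hd u ?_⟩
    rw [Set.mem_singleton_iff.1 hu]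
    exact ⟨by linarith, le_rfl⟩

end PHK

end
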