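import Pool.Agent.PHK.WordW
import Pool.Agent.PHK.WordQ

/-!
# The particle-hole form (P): the term of one family

* **`fI_W`** : the term of the family of a word.
-/

set_option autoImplicit false
set_option linter.unusedSectionVars false

noncomputable section

open Complex MeasureTheory Finset
open scoped Real ENNReal

namespace PHK

open NUO NUP1 NUP1S NUP1S.Mg NUP1S.Ab NUP1S.AbG NURow
open NUP1.Bd (wt Ob)
open Pool.Agent.PHK (lM lG lK)
open Pool.Agent.PHD (QP xP)
open NUP1.Bd (qg)

section word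

variable (Z : Bool → Option O3 → ℂ → ℂ) (P : Par6) {p p' a b : ℕ} (k : Fin p → O3) (k' : Fin p' → O3)
  (t : Fin p ⊕ Fin p' → ℝ) (D : Finset {i : Fin p // k i = .S}) (D' : Finset {i : Fin p' // k' i = .S})
  (y : Fin a ⊕ Fin b → Bool × ℝ)

/-- **the term of the family** -/
theorem fI_W {n n' : ℕ} (hn : ∑ i, c3 (k i) ≤ n) (hn' : ∑ i, c3 (k' i) ≤ n') :
    (1 / 2 : ℂ) ^ ((strS k).card + (strS k').card) *
      fI Z P l n n' (fmW k k' t D D' y) =
    if (D.card + a ≤ 2 * Fintype.card {i : Fin p' // k' i = .S} ∧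
        2 * Fintype.card {i : Fin p' // k' i = .S} ≤ nA n k + D.card + a) ∧
      (D'.card + b ≤ 2 * Fintype.card {i : Fin p // k i = .S} ∧
        2 * Fintype.card {i : Fin p // k i = .S} ≤ nA n' k' + D'.card + b) then
      ((∏ i, wt (ob3 (k i))) * ∏ i, wt (ob3 (k' i))) *
        Fg (o3 k k') (h3 (Z true) (Z false) k k')
          (pos (Sum.elim (fun i => lnK P (k i)) (fun i => lnK P (k' i))) t) *
        clW Z P k k' t D D' * ((-1) ^ (a + b) * hlW Z P k k' t D D' y) *
      gas (nA n k + D.card + a - 2 * Fintype.card {i : Fin p' // k' i = .S})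
        (nA n' k' + D'.card + b - 2 * Fintype.card {i : Fin p // k i = .S}) l
        (adH (gD (fW Z P k k' t) (bY P k k' t) (bX P k k' t) D (bX P k k' t) (bY P k k' t) D')
          (hS a b) (hZ (lnH P) (fun i => y (.inl i), fun i => y (.inr i))) true)
        (adH (gD (fW Z P k k' t) (bY P k k' t) (bX P k k' t) D (bX P k k' t) (bY P k k' t) D')
          (hS a b) (hZ (lnH P) (fun i => y (.inl i), fun i => y (.inr i))) false)
    else 0 :=
  fI_Wo Z P k k' t D D' y hn hn' (wI_W Z P k k' t D D' y) (fun s u => pot_W Z P k k' t D D' y s u)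

end word

end PHK

end
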