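import Pool.Agent.PHK.WordX
import Pool.Agent.PHK.WordZT
import Pool.Agent.PHK.HoleT4

/-!
# The word identity of a class with poles: the book-keeping of the quanta at the poles

* `rhsW` : the right side of the identity of a word, linear in the term (`rhsW_sum`, `rhsW_mul`);
* `rhs_TZ` : a class with zeros; `rhs_TZ0` : too much charge; `rhs_TP` : a class with poles;
* `Fg_ZFl`, `cP_Fg` : the weights; **`wordIdP_of`** : the identity of a word of a class with poles from
  the exact identity.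
-/

set_option autoImplicit false
set_option linter.unusedSectionVars false
set_option linter.unusedVariables false

noncomputable section

open Complex MeasureTheory Finset
open scoped ENNReal Nat

namespace PHK

open NUO NUP1 NUP1S NUP1S.Mg NUP1S.Ab NUP1S.AbG NURow
open NUP1.Bd (wt Ob qg)
open Pool.Agent.PHK (lM lG lK)

section sums

variable {p p' : ℕ} {k : Fin p → O3} {k' : Fin p' → O3} {t : Fin p ⊕ Fin p' → ℝ} {N : ℕ}

/-- **the right side of the identity of one word** with the term `T` -/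
def rhsW (T : Trm) (N : ℕ) (k : Fin p → O3) (k' : Fin p' → O3) (t : Fin p ⊕ Fin p' → ℝ) : ℂ :=
  ∑ D ∈ (strS k).powerset, ∑ D' ∈ (strS k').powerset,
      ∑ a ∈ range (N + 1), ∑ b ∈ range (N + 1), ((a ! : ℕ) : ℂ)⁻¹ * ((b ! : ℕ) : ℂ)⁻¹ *
        ∑ s : Fin a → Bool, ∑ s' : Fin b → Bool,
          mI6 (labW (fun i => kaD (k i) (decide (i ∈ D))) (fun i => kaD (k' i) (decide (i ∈ D'))) s s') *
            ∫ h : Fin a ⊕ Fin b → ℝ, T ((Fin p ⊕ Fin p') ⊕ (Fin a ⊕ Fin b)) (fun i =>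
              xo (labW (fun i => kaD (k i) (decide (i ∈ D)))
                (fun i => kaD (k' i) (decide (i ∈ D'))) s s' i) (Sum.elim t h i))
              ∂(Measure.pi fun _ => volume)

/-- one term of the right side -/
def rhs1 (T : Trm) (k : Fin p → O3) (k' : Fin p' → O3) (t : Fin p ⊕ Fin p' → ℝ)
    (D : Finset (StrT k)) (D' : Finset (StrT k')) {a b : ℕ} (s : Fin a → Bool)
    (s' : Fin b → Bool) : ℂ :=
  mI6 (labW (kD k D) (kD k' D') s s') *
    ∫ h : Fin a ⊕ Fin b → ℝ, T ((Fin p ⊕ Fin p') ⊕ (Fin a ⊕ Fin b)) (fun i =>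
      xo (labW (kD k D) (kD k' D') s s' i) (Sum.elim t h i)) ∂(Measure.pi fun _ => volume)

/-- the sum over the sets of strings and the free holes -/
def sum1 (N : ℕ) (k : Fin p → O3) (k' : Fin p' → O3)
    (f : Finset (StrT k) → Finset (StrT k') → (a b : ℕ) → (Fin a → Bool) → (Fin b → Bool) → ℂ) :
    ℂ :=
  ∑ D : Finset (StrT k), ∑ D' : Finset (StrT k'), ∑ a ∈ range (N + 1), ∑ b ∈ range (N + 1),
    ((a ! : ℕ) : ℂ)⁻¹ * ((b ! : ℕ) : ℂ)⁻¹ * ∑ s : Fin a → Bool, ∑ s' : Fin b → Bool, f D D' a b s s'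

theorem rhsW_str (T : Trm) : rhsW T N k k' t =
    sum1 N k k' fun D D' a b s s' => rhs1 T k k' t D D' s s' := by
  unfold rhsW sum1
  rw [sum_strS]
  refine sum_congr rfl fun D _ => ?_
  rw [sum_strS]
  rfl

theorem sum1_sum {ι : Type*} (S : Finset ι)
    (f : ι → Finset (StrT k) → Finset (StrT k') → (a b : ℕ) → (Fin a → Bool) → (Fin b → Bool) → ℂ) :
    (sum1 N k k' fun D D' a b s s' => ∑ i ∈ S, f i D D' a b s s') = ∑ i ∈ S, sum1 N k k' (f i) := by
  unfold sum1
  conv_rhs => rw [sum_comm]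
  refine sum_congr rfl fun D _ => ?_
  conv_rhs => rw [sum_comm]
  refine sum_congr rfl fun D' _ => ?_
  conv_rhs => rw [sum_comm]
  refine sum_congr rfl fun a _ => ?_
  conv_rhs => rw [sum_comm]
  refine sum_congr rfl fun b _ => ?_
  rw [← mul_sum]
  congr 1
  conv_rhs => rw [sum_comm]
  refine sum_congr rfl fun s _ => ?_
  conv_rhs => rw [sum_comm]

theorem sum1_mul (c : ℂ)
    (f : Finset (StrT k) → Finset (StrT k') → (a b : ℕ) → (Fin a → Bool) → (Fin b → Bool) → ℂ) :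
    (sum1 N k k' fun D D' a b s s' => c * f D D' a b s s') = c * sum1 N k k' f := by
  unfold sum1
  rw [mul_sum]
  refine sum_congr rfl fun D _ => ?_
  rw [mul_sum]
  refine sum_congr rfl fun D' _ => ?_
  rw [mul_sum]
  refine sum_congr rfl fun a _ => ?_
  rw [mul_sum]
  refine sum_congr rfl fun b _ => ?_
  simp only [← mul_sum]
  ring

/-- the terms are integrable over the free holes -/
def IntR (T : Trm) (k : Fin p → O3) (k' : Fin p' → O3) (t : Fin p ⊕ Fin p' → ℝ) : Prop :=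
  ∀ (D : Finset (StrT k)) (D' : Finset (StrT k')) (a b : ℕ) (s : Fin a → Bool)
    (s' : Fin b → Bool), Integrable (fun h : Fin a ⊕ Fin b → ℝ =>
      T ((Fin p ⊕ Fin p') ⊕ (Fin a ⊕ Fin b)) (fun i =>
        xo (labW (kD k D) (kD k' D') s s' i) (Sum.elim t h i))) (Measure.pi fun _ => volume)

theorem rhsW_sum {ι : Type*} (S : Finset ι) (T : ι → Trm) (h : ∀ i ∈ S, IntR (T i) k k' t) :
    rhsW (fun _ _ O => ∑ i ∈ S, T i _ O) N k k' t = ∑ i ∈ S, rhsW (T i) N k k' t := by
  simp only [rhsW_str]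
  rw [← sum1_sum]
  congr 1
  funext D D' a b s s'
  unfold rhs1
  rw [← mul_sum]
  congr 1
  exact integral_finsetSum _ fun i hi => h i hi D D' a b s s'

theorem rhsW_mul (c : ℂ) (T : Trm) :
    rhsW (fun _ _ O => c * T _ O) N k k' t = c * rhsW T N k k' t := by
  simp only [rhsW_str]
  rw [← sum1_mul]
  congr 1
  funext D D' a b s s'
  unfold rhs1
  rw [integral_const_mul]
  ring

theorem rhsW_zero : rhsW (fun _ _ _ => 0) N k k' t = 0 := by
  unfold rhsW
  simp

theorem IntR.mul {T : Trm} (h : IntR T k k' t) (c : ℂ) : IntR (fun _ _ O => c * T _ O) k k' t :=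
  fun D D' a b s s' => (h D D' a b s s').const_mul c

theorem IntR_zero : IntR (fun _ _ _ => 0) k k' t := fun _ _ _ _ _ _ => integrable_zero _ _ _

/-! ### a class with zeros -/

variable {ν : Bool → Type} [∀ s, Fintype (ν s)] [∀ s, LinearOrder (ν s)]
  {Z : Bool → Option O3 → ℂ → ℂ} {P : Par6} {ζ ρ : ∀ s, ν s → ℂ} {n n' : ℕ}
  {xl : Bool → ℝ} {W : Bool → ℂ → ℂ} {c : ℂ}
  {b : StrT k' → ℂ} {d : StrT k ⊕ₗ ν true → ℂ}
  {b' : StrT k → ℂ} {d' : StrT k' ⊕ₗ ν false → ℂ} {F E F' E' : ℂ → ℂ}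

theorem IntR_TZ (hI : IntW Z P ζ n n' k k' t) : IntR (TZ Z P ζ ρ n n') k k' t := by
  intro D D' a b s s'
  refine integrable_finsetSum _ fun A _ => integrable_finsetSum _ fun A' _ =>
    Integrable.const_mul ?_ _
  have h1 := hI A A' D D' a b (Sum.elim s s')
  have e : ∀ u : Fin a ⊕ Fin b → ℝ, fmW k k' t D D' (fun j => (Sum.elim s s' j, u j)) =
      fun i => xo (labW (kD k D) (kD k' D') s s' i) (Sum.elim t u i) := by
    intro u
    funext i
    rcases i with (i | i) | (i | i) <;> rfl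
  have h2 : ∀ u : Fin a ⊕ Fin b → ℝ, fI (ZE Z ζ A A') P l (n + A.card) (n' + A'.card)
        (fun i => xo (labW (kD k D) (kD k' D') s s' i) (Sum.elim t u i)) *
        psE P ζ A A' (fun i => xo (labW (kD k D) (kD k' D') s s' i) (Sum.elim t u i)) =
      fI (ZE Z ζ A A') P l (n + A.card) (n' + A'.card)
        (fmW k k' t D D' fun j => (Sum.elim s s' j, u j)) *
        psE P ζ A A' (fmW k k' t D D' fun j => (Sum.elim s s' j, 0)) := fun u => by
    rw [← e, psE_fmW D D' A A' (fun j => (Sum.elim s s' j, u j)) fun j => (Sum.elim s s' j, 0)]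
  simp only [h2]
  exact h1.mul_const _

/-- **the right side of a class with zeros** -/
theorem rhs_TZ (hc : ∑ i, c3 (k i) ≤ n) (hc' : ∑ i, c3 (k' i) ≤ n')
    (hN : 2 * (strS k).card ≤ N) (hN' : 2 * (strS k').card ≤ N)
    (hI : IntW Z P ζ n n' k k' t) (hw : WordW c k k' t Z P ζ ρ xl W b d b' d' F E F' E') :
    c * exR xl l W b d b' d' F E F' E' (nA n k) (nA n' k') =
      rhsW (TZ Z P ζ ρ n n') N k k' t := by
  rw [exR_word hc hc' hN hN' hw]
  unfold rhsW
  rw [sum_strS]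
  refine sum_congr rfl fun D _ => ?_
  rw [sum_strS]
  refine sum_congr rfl fun D' _ => sum_congr rfl fun h _ => sum_congr rfl fun h' _ => ?_
  rw [show (∑ s : Fin h → Bool, ∑ s' : Fin h' → Bool, _) = _ from word_rhs (ρ := ρ) hI D D' h h',
    mul_sum, mul_sum]
  refine sum_congr rfl fun A _ => ?_
  rw [mul_sum, mul_sum]
  rfl

/-- **too much charge** -/
theorem rhs_TZ0 (h : ¬ (∑ i, c3 (k i) ≤ n ∧ ∑ i, c3 (k' i) ≤ n')) :
    rhsW (TZ Z P ζ ρ n n') N k k' t = 0 := by
  have key : ∀ (D : Finset (Fin p)) (D' : Finset (Fin p')) (a b : ℕ) (s : Fin a → Bool)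
      (s' : Fin b → Bool) (u : Fin a ⊕ Fin b → ℝ),
      TZ Z P ζ ρ n n' ((Fin p ⊕ Fin p') ⊕ (Fin a ⊕ Fin b)) (fun i =>
        xo (labW (fun i => kaD (k i) (decide (i ∈ D)))
          (fun i => kaD (k' i) (decide (i ∈ D'))) s s' i) (Sum.elim t u i)) = 0 := by
    intro D D' a b s s' u
    unfold TZ
    refine sum_eq_zero fun A _ => sum_eq_zero fun A' _ => ?_
    by_contra hne
    obtain ⟨h1, h2, _⟩ := fI_psE_ne (right_ne_zero_of_mul hne)
    rw [q3I_lab] at h1 h2
    simp only [if_true, Bool.true_eq_false, Bool.false_eq_true, if_false, add_zero,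
      zero_add] at h1 h2
    exact h ⟨by exact_mod_cast h1, by exact_mod_cast h2⟩
  unfold rhsW
  simp only [key, integral_zero, mul_zero, sum_const_zero]

end sums

/-! ### a class with poles -/

section pol

variable {p p' : ℕ} {k : Fin p → O3} {k' : Fin p' → O3} {t : Fin p ⊕ Fin p' → ℝ} {N : ℕ}
  {Z : Bool → Option O3 → ℂ → ℂ} {P : Par6} {a : Bool → Bool} {π : Bool → ℂ}
  {h : Bool → ℂ → ℂ}
  {ν : Bool × Bool → Bool → Type} [∀ i s, Fintype (ν i s)] [∀ i s, LinearOrder (ν i s)]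
  {ζ ρ : ∀ i s, ν i s → ℂ} {n n' : ℕ}

/-- **the right side of a class with poles** -/
theorem rhs_TP (hI : ∀ i, OkI a i → i.1.toNat ≤ n → i.2.toNat ≤ n' →
      IntW (ZFl Z π i) P (ζ i) (n - i.1.toNat) (n' - i.2.toNat) k k' t) :
    rhsW (TP Z P a π h ζ ρ n n') N k k' t =
      ∑ i : Bool × Bool, if OkI a i ∧ i.1.toNat ≤ n ∧ i.2.toNat ≤ n' then
        cPl π h i * rhsW (TZ (ZFl Z π i) P (ζ i) (ρ i) (n - i.1.toNat) (n' - i.2.toNat)) N k k' t
        else 0 := by
  have h1 := rhsW_sum (k := k) (k' := k') (t := t) (N := N) (univ : Finset (Bool × Bool))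
    (fun i => (fun _ _ O => if OkI a i ∧ i.1.toNat ≤ n ∧ i.2.toNat ≤ n' then
      cPl π h i * TZ (ZFl Z π i) P (ζ i) (ρ i) (n - i.1.toNat) (n' - i.2.toNat) _ O else 0 : Trm))
    (fun i _ => by
      by_cases hc : OkI a i ∧ i.1.toNat ≤ n ∧ i.2.toNat ≤ n'
      · simp only [hc, and_self, if_true]
        exact (IntR_TZ (hI i hc.1 hc.2.1 hc.2.2)).mul _
      · simp only [hc, if_false]
        exact IntR_zero)
  refine Eq.trans ?_ (h1.trans (sum_congr rfl fun i _ => ?_))
  · rfl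
  · by_cases hc : OkI a i ∧ i.1.toNat ≤ n ∧ i.2.toNat ≤ n'
    · simp only [hc, and_self, if_true]
      exact rhsW_mul _ _
    · simp only [hc, if_false]
      exact rhsW_zero

/-- the field of the quanta at the poles on the objects -/
def GP (P : Par6) (k : Fin p → O3) (k' : Fin p' → O3) (t : Fin p ⊕ Fin p' → ℝ) (π : Bool → ℂ)
    (i : Bool × Bool) : ℂ :=
  (if i.1 = true then GZ P k k' t true (π true) else 1) *
    (if i.2 = true then GZ P k k' t false (π false) else 1)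

theorem Fg_ZFl (i : Bool × Bool) : Fg (o3 k k') (h3 (ZFl Z π i true) (ZFl Z π i false) k k')
    (pos (Sum.elim (fun i => lnK P (k i)) (fun i => lnK P (k' i))) t) =
    Fg (o3 k k') (h3 (Z true) (Z false) k k')
      (pos (Sum.elim (fun i => lnK P (k i)) (fun i => lnK P (k' i))) t) * GP P k k' t π i := by
  rw [FgW, FgW]
  have e : (∏ j, ZFl Z π i (sW j) (some (kkW k k' j)) (zW P k k' t j)) =
      (∏ j, Z (sW j) (some (kkW k k' j)) (zW P k k' t j)) * GP P k k' t π i := by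
    have e1 : ∀ j, ZFl Z π i (sW j) (some (kkW k k' j)) (zW P k k' t j) =
        Z (sW j) (some (kkW k k' j)) (zW P k k' t j) *
        ((if i.1 = true then gz (true, .A) (o3 k k' j) (π true - zW P k k' t j) else 1) *
          (if i.2 = true then gz (false, .A) (o3 k k' j) (π false - zW P k k' t j) else 1)) := by
      intro j
      rw [o3W]
      rfl
    rw [prod_congr rfl fun j _ => e1 j, prod_mul_distrib]
    congr 1
    rw [prod_mul_distrib]
    unfold GP GZ
    obtain ⟨i1, i2⟩ := i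
    cases i1 <;> cases i2 <;> simp
  rw [e]
  ring

/-- the one body functions of the quanta with the quanta at the poles -/
theorem fW_ZFl (i : Bool × Bool) :
    fW (ZFl Z π i) P k k' t = WB π i (fW Z P k k' t) := by
  funext s u
  have c : ∀ (s' : Bool) (z : ℂ), PP s s' (u - z) = PP s' s (z - u) := fun s' z => by
    rw [PP_comm, ← PP_neg, neg_sub]
  unfold WB fB fW fld ZFl ob4
  simp only [Option.elim, gz_AA, c]
  ring

/-- the weight of the quanta at the poles in the field of the objects -/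
theorem cB_cPl {g : Bool → ℂ → ℂ} (hg : ∀ s, deriv (g s) (π s) = h s (π s) * GZ P k k' t s (π s))
    (i : Bool × Bool) : cB π g i = cPl π h i * GP P k k' t π i := by
  obtain ⟨i1, i2⟩ := i
  unfold cB cPl GP
  rw [hg, hg]
  cases i1 <;> cases i2 <;> simp <;> ring

/-- **the identity of a word of a class with poles** from the exact identity -/
theorem wordIdP_of {x0 : ℝ} (hc : ∑ i, c3 (k i) ≤ n) (hc' : ∑ i, c3 (k' i) ≤ n')
    (hN : 2 * (strS k).card ≤ N) (hN' : 2 * (strS k').card ≤ N)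
    (hI : ∀ i, OkI a i → i.1.toNat ≤ n → i.2.toNat ≤ n' →
      IntW (ZFl Z π i) P (ζ i) (n - i.1.toNat) (n' - i.2.toNat) k k' t)
    {xl : Bool → ℝ} {b : StrT k' → ℂ} {b' : StrT k → ℂ}
    {d : ∀ i, StrT k ⊕ₗ ν i true → ℂ} {d' : ∀ i, StrT k' ⊕ₗ ν i false → ℂ}
    {F E F' E' : Bool × Bool → ℂ → ℂ}
    (hw : ∀ i, OkI a i → WordW (((∏ i, wt (ob3 (k i))) * ∏ i, wt (ob3 (k' i))) *
        Fg (o3 k k') (h3 (ZFl Z π i true) (ZFl Z π i false) k k')
          (pos (Sum.elim (fun i => lnK P (k i)) (fun i => lnK P (k' i))) t))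
      k k' t (ZFl Z π i) P (ζ i) (ρ i) xl (fW (ZFl Z π i) P k k' t) b (d i) b' (d' i) (F i) (E i)
      (F' i) (E' i))
    (hex : gas (nA n k) (nA n' k') x0 (fW Z P k k' t true) (fW Z P k k' t false) =
      ∑ i : Bool × Bool, if OkI a i ∧ uB i.1 ≤ nA n k ∧ uB i.2 ≤ nA n' k' then
        cPl π h i * GP P k k' t π i *
          exR xl l (fW (ZFl Z π i) P k k' t) b (d i) b' (d' i) (F i) (E i) (F' i) (E' i)
            (nA n k - uB i.1) (nA n' k' - uB i.2) else 0) :
    WordIdT Z (TP Z P a π h ζ ρ n n') (lnK P) x0 n n' N k k' t := by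
  have hn : nA n k = n - ∑ i, c3 (k i) := rfl
  have hn' : nA n' k' = n' - ∑ i, c3 (k' i) := rfl
  show ((∏ i, wt (ob3 (k i))) * (∏ i, wt (ob3 (k' i)))) *
      (Fg (o3 k k') (h3 (Z true) (Z false) k k')
          (pos (Sum.elim (fun i => lnK P (k i)) (fun i => lnK P (k' i))) t) *
        gas (nA n k) (nA n' k') x0 (fW Z P k k' t true) (fW Z P k k' t false)) =
    rhsW (TP Z P a π h ζ ρ n n') N k k' t
  rw [rhs_TP hI, hex, mul_sum, mul_sum]
  refine sum_congr rfl fun i _ => ?_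
  have u1 : uB i.1 = i.1.toNat := by
    obtain ⟨i1, i2⟩ := i
    cases i1 <;> rfl
  have u2 : uB i.2 = i.2.toNat := by
    obtain ⟨i1, i2⟩ := i
    cases i2 <;> rfl
  rw [u1, u2]
  by_cases h0 : OkI a i
  swap
  · rw [if_neg fun hh => h0 hh.1, if_neg fun hh => h0 hh.1, mul_zero, mul_zero]
  by_cases h1 : i.1.toNat ≤ nA n k ∧ i.2.toNat ≤ nA n' k'
  · obtain ⟨h1, h2⟩ := h1
    rw [if_pos ⟨h0, h1, h2⟩, if_pos ⟨h0, by omega, by omega⟩]
    have a1 : nA n k - i.1.toNat = nA (n - i.1.toNat) k := by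
      have : nA (n - i.1.toNat) k = n - i.1.toNat - ∑ i, c3 (k i) := rfl
      omega
    have a2 : nA n' k' - i.2.toNat = nA (n' - i.2.toNat) k' := by
      have : nA (n' - i.2.toNat) k' = n' - i.2.toNat - ∑ i, c3 (k' i) := rfl
      omega
    rw [← rhs_TZ (c := ((∏ i, wt (ob3 (k i))) * ∏ i, wt (ob3 (k' i))) *
        Fg (o3 k k') (h3 (ZFl Z π i true) (ZFl Z π i false) k k')
          (pos (Sum.elim (fun i => lnK P (k i)) (fun i => lnK P (k' i))) t))
      (by omega) (by omega) hN hN' (hI i h0 (by omega) (by omega)) (hw i h0), a1, a2, Fg_ZFl]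
    ring
  · rw [if_neg fun hh => h1 hh.2, mul_zero, mul_zero]
    by_cases h2 : i.1.toNat ≤ n ∧ i.2.toNat ≤ n'
    · rw [if_pos ⟨h0, h2⟩, rhs_TZ0, mul_zero]
      rintro ⟨h3, h4⟩
      exact h1 ⟨by omega, by omega⟩
    · rw [if_neg fun hh => h2 hh.2]

end pol

end PHK

end
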