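import Pool.Agent.PHK.WordPa
import Pool.Agent.PHK.HostR
import Pool.Agent.PHK.HostW
import Pool.Agent.PHK.HostFW

/-!
# The exact identity of a word of a class with poles

* `zW_re`, `hr0`: the objects seen from `[39/64 l, l]`; **`regB`**: the regular part there;
* `sinp`, `wt_pole`, `deriv_gB`, `cB_zero`: the poles;
* `hrS`, **`regL`**: the regular part on `[51/100 l, 39/64 l]`;
* **`exactP_of`**: the exact identity from the species data of the filled classes.
-/

set_option autoImplicit false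
set_option linter.unusedSectionVars false
set_option linter.unusedVariables false

noncomputable section

open Complex MeasureTheory NUP1 Set Filter Topology
open scoped ENNReal Nat

namespace PHK

open NUO NUP1S NUP1S.Mg NUP1S.Ab NUP1S.AbG NURow
open NUP1.Bd (wt Ob qg sin_pos_of)
open Pool.Agent.PHK (lM lG lK)
open Pool.Agent.PHD (db)

section word

variable {P : Par6} {p p' : ℕ} {k : Fin p → O3} {k' : Fin p' → O3} {t : Fin p ⊕ Fin p' → ℝ}

theorem lnK_L (P : Par6) : lnK P .L = (1 - P.jL) * l := rfl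
theorem lnK_S (P : Par6) : lnK P .S = -((1 + P.e) * l) := rfl
theorem lnK_T (P : Par6) : lnK P .T = -(l / 2) := rfl

/-- the objects seen from a line in `[39/64 l, l]` -/
theorem ok_right (hG : GoodP6 P) (he : (1 - P.e) * l < 19 / 32 * l) {v : ℝ}
    (h1 : 39 / 64 * l ≤ v) (h2 : v ≤ l) (s s' : Bool) (o : O3) :
    Ok (s, .A) (s', ob3 o) (v - lnK P o) := by
  have hl := Bd.l_pos
  have hpi := Bd.pi_eq
  have k1 := hG.L2
  have k2 := hG.Lj
  have k3 := hG.j1e
  have k4 := hG.e45
  have k5 := hG.e13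
  cases o
  · refine HF.ok_dk ?_ s s'
    unfold HF.DK
    rw [if_pos rfl, lnK_L]
    constructor <;> nlinarith
  · rw [lnK_S]
    have d1 : 2 * l < v - -((1 + P.e) * l) := by linarith
    have d2 : v - -((1 + P.e) * l) < 3 * l := by nlinarith
    intro r hr
    unfold poles at hr
    have sp : ∀ x : ℝ, 0 < x → x < 8 * l → Real.sin x ≠ 0 := fun x h1 h2 =>
      (sin_pos_of h1 (by linarith)).ne'
    have sm : ∀ x : ℝ, -(8 * l) < x → x < 0 → Real.sin x ≠ 0 := fun x h1 h2 => by
      have := sp (-x) (by linarith) (by linarith)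
      rwa [Real.sin_neg, neg_ne_zero] at this
    by_cases hs : s = s'
    · rw [if_pos hs] at hr
      simp [ob3] at hr
    · rw [if_neg hs] at hr
      simp only [ob3, List.mem_cons, List.not_mem_nil, or_false] at hr
      rcases hr with rfl | rfl | rfl | rfl
      · exact sp _ (by linarith) (by linarith)
      · exact sm _ (by linarith) (by linarith)
      · exact sp _ (by linarith) (by linarith)
      · exact sp _ (by linarith) (by linarith)
  · refine HF.ok_dk ?_ s s'
    unfold HF.DK
    rw [if_neg (by decide), lnK_T]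
    constructor <;> linarith

/-- nothing is active right of `39/64 l` -/
theorem hr0 (hG : GoodP6 P) (he : (1 - P.e) * l < 19 / 32 * l) :
    HR (o3 k k') (zW P k k' t) (fun _ => False) (39 / 64 * l) l where
  str i h := h.elim
  lo i h := h.elim
  hi i h := h.elim
  inj i j h := h.elim
  ok i _ s v hv := by
    rw [o3W, zW_re]
    exact ok_right hG he hv.1 hv.2 s _ _

theorem hrS (hG : GoodP6 P) (ht : Function.Injective t) {x y : ℝ} (hx : 51 / 100 * l ≤ x)
    (hy : y ≤ l) : HR (o3 k k') (zW P k k' t) (fun i => kkW k k' i = .S) x y where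
  str i h := by
    rw [o3W, h]
    rfl
  lo i h := by
    have hl := Bd.l_pos
    have := hG.e13
    rw [zW_re, h, lnK_S]
    nlinarith
  hi i h := by
    have hl := Bd.l_pos
    have := hG.e45
    rw [zW_re, h, lnK_S]
    nlinarith
  inj i j h1 h2 _ h3 := by
    refine ht ?_
    have h4 := congrArg Complex.im h3
    unfold zW pos at h4
    simpa using h4
  ok i h s v hv := by
    have hl := Bd.l_pos
    have k1 := hG.L2
    have k2 := hG.Lj
    have k3 := hG.j1e
    have k4 := hG.e45
    rw [o3W, zW_re]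
    refine HF.ok_dk ?_ s _
    unfold HF.DK
    rcases h5 : kkW k k' i with _ | _ | _
    · rw [if_pos rfl, lnK_L]
      have := hv.1
      have := hv.2
      constructor <;> nlinarith
    · exact absurd h5 h
    · rw [if_neg (by decide), lnK_T]
      have := hv.1
      have := hv.2
      constructor <;> linarith

theorem gr_none (G : Bool → ℂ → ℂ) (s : Bool) (u : ℂ) :
    gr (o3 k k') (zW P k k' t) (fun _ => False) G s u = G s u * GZ P k k' t s u := by
  unfold gr NUP1S.gR GZ
  simp

theorem plS_none (s : Bool) : plS (o3 k k') (zW P k k' t) (fun _ => False) s = ∅ := by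
  unfold plS
  simp

/-- the field of the objects -/
theorem fW_GZ (Z : Bool → Option O3 → ℂ → ℂ) (s : Bool) (u : ℂ) :
    fW Z P k k' t s u = Z s none u * GZ P k k' t s u := by
  unfold fW fld GZ zW
  ring

end word

/-! ### the poles -/

section pole

variable {Z : Bool → Option O3 → ℂ → ℂ} {κ : ℝ} {Q : ℤ} {a : Bool → Bool} {π : Bool → ℂ}
  {h : Bool → ℂ → ℂ}

/-- `sin (u - π s)` vanishes only at `π s` -/
theorem sinp (hp : ∀ s, (π s).re = 5 / 8 * l) (s : Bool) {u : ℂ} (h1 : 51 / 100 * l ≤ u.re)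
    (h2 : u.re ≤ l) (hu : u ≠ π s) : Complex.sin (u - π s) ≠ 0 := by
  have hl := Bd.l_pos
  have hpi := Bd.pi_eq
  intro h0
  rw [Complex.sin_eq_zero_iff] at h0
  obtain ⟨m, hm⟩ := h0
  have e1 : (u - π s).re = m * Real.pi := by
    rw [hm]
    simp
  rw [sub_re, hp s] at e1
  have m1 : m = 0 := by
    have a1 : (m : ℝ) * Real.pi < Real.pi := by linarith
    have a2 : -Real.pi < (m : ℝ) * Real.pi := by linarith
    have b1 : (m : ℝ) < 1 := by
      by_contra hc
      nlinarith [Real.pi_pos]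
    have b2 : (-1 : ℝ) < m := by
      by_contra hc
      nlinarith [Real.pi_pos]
    have c1 : m < 1 := by exact_mod_cast b1
    have c2 : -1 < m := by exact_mod_cast b2
    omega
  rw [m1] at hm
  simp at hm
  exact hu (sub_eq_zero.1 hm)

variable {P : Par6} {p p' : ℕ} {k : Fin p → O3} {k' : Fin p' → O3} {t : Fin p ⊕ Fin p' → ℝ}

/-- the regular part at the poles -/
def gB (P : Par6) (k : Fin p → O3) (k' : Fin p' → O3) (t : Fin p ⊕ Fin p' → ℝ) (π : Bool → ℂ)
    (h : Bool → ℂ → ℂ) (s : Bool) (u : ℂ) : ℂ :=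
  h s u * Complex.sin (u - π s) * GZ P k k' t s u

theorem gB_zero (s : Bool) : gB P k k' t π h s (π s) = 0 := by
  unfold gB
  simp

theorem wt_pole (hpol : PolZ Z κ Q a π h) (s : Bool) {u : ℂ} (h1 : 51 / 100 * l ≤ u.re)
    (h2 : u.re ≤ l) (hu : u ≠ π s) : fW Z P k k' t s u = Wt (pW2 π) (gB P k k' t π h) s u := by
  have h0 := sinp hpol.re s h1 h2 hu
  unfold Wt pW2 gB
  rw [fW_GZ, hpol.eq s u h1 h2 hu, Finset.prod_singleton]
  field_simp

/-- the field of the objects is analytic -/
theorem diff_GZ (hG : GoodP6 P) (he : (1 - P.e) * l < 19 / 32 * l) (s : Bool) {u : ℂ}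
    (h1 : 39 / 64 * l ≤ u.re) (h2 : u.re ≤ l) : DifferentiableAt ℂ (GZ P k k' t s) u := by
  unfold GZ
  refine DifferentiableAt.fun_finsetProd fun i _ => ?_
  have := (hr0 (k := k) (k' := k') (t := t) hG he).diff_gR s i h1 h2
  unfold NUP1S.gR at this
  simp only [false_and, if_false] at this
  exact this.comp u (differentiableAt_id.sub_const _)

theorem deriv_gB (hG : GoodP6 P) (he : (1 - P.e) * l < 19 / 32 * l) (hpol : PolZ Z κ Q a π h)
    (s : Bool) : deriv (gB P k k' t π h s) (π s) = h s (π s) * GZ P k k' t s (π s) := by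
  have hl := Bd.l_pos
  have h1 : 39 / 64 * l ≤ (π s).re := by
    rw [hpol.re s]
    linarith
  have h2 : (π s).re ≤ l := by
    rw [hpol.re s]
    linarith
  have d1 := (hpol.an s (π s) (by linarith) h2).hasDerivAt
  have d2 := (diff_GZ (k := k) (k' := k') (t := t) hG he s h1 h2).hasDerivAt
  have d3 : HasDerivAt (fun u => Complex.sin (u - π s)) 1 (π s) := by
    have := ((hasDerivAt_id (π s)).sub_const (π s)).csin
    simpa using this
  have d4 := (d1.mul d3).mul d2
  have e : gB P k k' t π h s = (h s * fun u => Complex.sin (u - π s)) * GZ P k k' t s := by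
    funext u
    rfl
  rw [e, d4.deriv]
  simp

/-- the quanta only at the poles -/
theorem cB_zero (hG : GoodP6 P) (he : (1 - P.e) * l < 19 / 32 * l) (hpol : PolZ Z κ Q a π h)
    {i : Bool × Bool} (hi : ¬ OkI a i) : cB π (gB P k k' t π h) i = 0 := by
  unfold OkI at hi
  unfold cB
  rw [deriv_gB hG he hpol, deriv_gB hG he hpol]
  rw [not_and_or] at hi
  rcases hi with hi | hi
  · push Not at hi
    rw [if_pos hi.1, hpol.no true (by simpa using hi.2)]
    simp
  · push Not at hi
    rw [if_pos hi.1, hpol.no false (by simpa using hi.2)]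
    simp

/-- **the regular part between the poles of the class** -/
theorem regB (hG : GoodP6 P) (he : (1 - P.e) * l < 19 / 32 * l) (hpol : PolZ Z κ Q a π h) {Q' : ℤ} (hQ : (Q' : ℝ) + ∑ b, sc (o3 k k' b) = Q) :
    Reg (pW2 π) κ (39 / 64 * l) l Q' (gB P k k' t π h) := by
  have hl := Bd.l_pos
  have hpi := Bd.pi_eq
  have h0 := (hr0 (k := k) (k' := k') (t := t) hG he).reg (κ := κ - 2)
    (G := fun s u => h s u * Complex.sin (u - π s)) (fun s => (hpol.ms s).mul (by fun_prop))
    (fun s u h1 h2 => (hpol.an s u (by linarith) h2).mul (by fun_prop))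
    (r := fun s => κ + 2 * (Q : ℝ) * sc (s, Ob.A) - 2) (fun s => by
      have b1 : Bdd (Icc (39 / 64 * l) l) (1 - (κ + 2 * (Q : ℝ) * sc (s, Ob.A))) (h s) :=
        HF.Bdd.mono' (hpol.bd s) (Icc_subset_Icc (by linarith) le_rfl)
      have b2 : Bdd (Icc (39 / 64 * l) l) 1 fun u => Complex.sin (u - π s) := by
        refine Bdd.translate (z0 := π s) (f := fun w => Complex.sin w) ?_
        have := bdd_sin ((fun v => v + -(π s).re) '' Icc (39 / 64 * l) l) 0
        simpa using this
      exact (b1.mul b2).rate (by ring)) (Q := Q') (fun s => by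
      have e1 : sc (s, Ob.A) = (sg s : ℝ) := by
        unfold sc sg NUP1.Bd.chg
        cases s <;> simp
      rw [← Finset.mul_sum, e1, ← hQ]
      push_cast
      linarith)
  have e : gr (o3 k k') (zW P k k' t) (fun _ => False) (fun s u => h s u * Complex.sin (u - π s)) =
      gB P k k' t π h := by
    funext s u
    rw [gr_none]
    rfl
  rw [e] at h0
  refine ⟨h0.meas, h0.diff, ?_⟩
  obtain ⟨D, hD, hb⟩ := h0.bd
  refine ⟨D, hD, fun s u h1 h2 => (hb s u h1 h2).trans (le_of_eq ?_)⟩
  rw [plS_none]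
  unfold pW2
  rw [Finset.card_empty, Finset.card_singleton]
  congr 3
  push_cast
  ring

/-! ### left of the poles -/

/-- `Z s none` left of the poles -/
def hL (π : Bool → ℂ) (h : Bool → ℂ → ℂ) (s : Bool) (u : ℂ) : ℂ := h s u / Complex.sin (u - π s)

theorem hL_eq (hpol : PolZ Z κ Q a π h) (s : Bool) {u : ℂ} (h1 : 51 / 100 * l ≤ u.re)
    (h2 : u.re ≤ 39 / 64 * l) : Z s none u = hL π h s u := by
  have hl := Bd.l_pos
  refine hpol.eq s u h1 (by linarith) fun hu => ?_
  have := hpol.re s
  rw [← hu] at this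
  linarith

/-- **the regular part left of the poles of the class** -/
theorem regL (hG : GoodP6 P) (ht : Function.Injective t) (hpol : PolZ Z κ Q a π h) (hdec : ∀ s, DecOn (κ + 2 * (Q : ℝ) * sc (s, Ob.A))
      (Icc (51 / 100 * l) (39 / 64 * l) ∪ Icc (41 / 64 * l) l) (Z s none)) {Q' : ℤ}
    (hQ : (Q' : ℝ) + ∑ b, sc (o3 k k' b) = Q) :
    Reg (plS (o3 k k') (zW P k k' t) fun i => kkW k k' i = .S) κ (51 / 100 * l) (39 / 64 * l) Q'
      (gr (o3 k k') (zW P k k' t) (fun i => kkW k k' i = .S) (hL π h)) := by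
  have hl := Bd.l_pos
  refine (hrS (k := k) (k' := k') (t := t) hG ht le_rfl (by linarith)).reg (G := hL π h)
    (fun s => (hpol.ms s).div (by fun_prop)) (fun s u h1 h2 => ?_)
    (r := fun s => κ + 2 * (Q : ℝ) * sc (s, Ob.A)) (fun s => ?_) (fun s => ?_)
  · refine (hpol.an s u h1 (by linarith)).div (by fun_prop) (sinp hpol.re s h1 (by linarith) ?_)
    intro hu
    have := hpol.re s
    rw [← hu] at this
    linarith
  · obtain ⟨D, hD⟩ := hdec s
    refine ⟨|D|, abs_nonneg _, fun z hz => ?_⟩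
    rw [← hL_eq hpol s hz.1 hz.2, neg_mul]
    exact (hD z (Or.inl hz)).trans (mul_le_mul_of_nonneg_right (le_abs_self _) (Real.exp_pos _).le)
  · have e1 : sc (s, Ob.A) = (sg s : ℝ) := by
      unfold sc sg NUP1.Bd.chg
      cases s <;> simp
    rw [← Finset.mul_sum, e1, ← hQ]
    push_cast
    linarith

/-! ### the exact identity -/

/-- the right side of the rectangles -/
def yP (P : Par6) : ℝ := min (19 / 32 * l) ((1 - P.j1) * l)

theorem geoPP (hG : GoodP6 P) (hH : Pool.Agent.PLX.HI6 P) (he : (1 - P.e) * l < 19 / 32 * l) :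
    Geo6 (lnH P) (1 / 9 * l) (51 / 100 * l) (xG P) (yP P) (39 / 64 * l) (b2G P) l := by
  have hl := Bd.l_pos
  have h1 := hG.j1e
  refine geoP hG hH.j1 hH.j2 (lt_min he (by nlinarith)) (min_le_right _ _) ?_ (by linarith)
  exact lt_of_le_of_lt (min_le_left _ _) (by linarith)

theorem yP_gt (hG : GoodP6 P) (he : (1 - P.e) * l < 19 / 32 * l) : (1 - P.e) * l < yP P := by
  have hl := Bd.l_pos
  have h1 := hG.j1e
  exact lt_min he (by nlinarith)

/-- the class function of the quanta with the quanta at the poles -/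
theorem ZFl_none (i : Bool × Bool) (s : Bool) (u : ℂ) :
    ZFl Z π i s none u = Z s none u * fB π i s u := by
  have c : ∀ (s' : Bool) (z : ℂ), PP s s' (u - z) = PP s' s (z - u) := fun s' z => by
    rw [PP_comm, ← PP_neg, neg_sub]
  unfold ZFl fB ob4
  simp only [Option.elim, gz_AA, c]

theorem FH_ZFl {α β : Type} [Fintype α] [Fintype β] (i : Bool × Bool) (s : Bool) (zo : α → ℂ)
    (zt : β → ℂ) (K : ℂ → ℂ) : HF.FH (ZFl Z π i s none) zo zt K =
      fun u => HF.FH (Z s none) zo zt K u * fB π i s u := by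
  funext u
  unfold HF.FH
  rw [ZFl_none]
  ring

theorem fB_none (s : Bool) (u : ℂ) : fB π (false, false) s u = 1 := by
  unfold fB
  simp

theorem OkI_none : OkI a (false, false) := by
  unfold OkI
  simp

theorem sum_OkI (f : Bool × Bool → ℂ) :
    ∑ i : {i : Bool × Bool // OkI a i}, f i.1 = ∑ i : Bool × Bool, if OkI a i then f i else 0 := by
  rw [← Finset.sum_filter]
  exact (Finset.sum_subtype _ (by simp) f).symm

/-- **the exact identity of a word of a class with poles** -/
theorem exactP_of {n n' : ℕ} {νX νY : Bool × Bool → Type} [∀ i, LinearOrder (νX i)]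
    [∀ i, Fintype (νX i)] [∀ i, LinearOrder (νY i)] [∀ i, Fintype (νY i)]
    {d : ∀ i, νX i → ℂ} {d' : ∀ i, νY i → ℂ} {Ex Ey : Bool × Bool → ℂ → ℂ}
    {κU κU' : Bool × Bool → ℝ} (hG : GoodP6 P) (hH : Pool.Agent.PLX.HI6 P)
    (he : (1 - P.e) * l < 19 / 32 * l) (hκ : 0 < κ) (hpol : PolZ Z κ Q a π h)
    (hdec : ∀ s, DecOn (κ + 2 * (Q : ℝ) * sc (s, Ob.A))
      (Icc (51 / 100 * l) (39 / 64 * l) ∪ Icc (41 / 64 * l) l) (Z s none))
    (ht : Function.Injective t) (hc : ∑ i, c3 (k i) ≤ n) (hc' : ∑ i, c3 (k' i) ≤ n')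
    (hn : (n : ℤ) = n' + Q)
    (SX : ∀ i, OkI a i → Sp6 (lnH P) (1 / 9 * l) (51 / 100 * l) (xG P) (yP P) (39 / 64 * l) (b2G P) l
      (κU i) (κU' i) ((Q : ℝ) - i.1.toNat + i.2.toNat - cW k k') true (bY P k k' t) (d i)
      (fW (ZFl Z π i) P k k' t true)
      (HF.FH (ZFl Z π i true none) (zX P k k' t) (zY P k k' t) (KW P k k' t true)) (Ex i))
    (SY : ∀ i, OkI a i → Sp6 (lnH P) (1 / 9 * l) (51 / 100 * l) (xG P) (yP P) (39 / 64 * l) (b2G P) l
      (κU i) (κU' i) ((Q : ℝ) - i.1.toNat + i.2.toNat - cW k k') false (bX P k k' t) (d' i)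
      (fW (ZFl Z π i) P k k' t false)
      (HF.FH (ZFl Z π i false none) (zY P k k' t) (zX P k k' t) (KW P k k' t false)) (Ey i))
    (hκU : ∀ i, 0 < κU i) (hκU' : ∀ i, κU' i < 6) :
    gas (nA n k) (nA n' k') (51 / 100 * l) (fW Z P k k' t true) (fW Z P k k' t false) =
      ∑ i : Bool × Bool, if OkI a i ∧ uB i.1 ≤ nA n k ∧ uB i.2 ≤ nA n' k' then
        cPl π h i * GP P k k' t π i *
          exR (lnH P) l (fW (ZFl Z π i) P k k' t) (bY P k k' t) (d i) (bX P k k' t) (d' i)
            (HF.FH (ZFl Z π i true none) (zX P k k' t) (zY P k k' t) (KW P k k' t true)) (Ex i)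
            (HF.FH (ZFl Z π i false none) (zY P k k' t) (zX P k k' t) (KW P k k' t false)) (Ey i)
            (nA n k - uB i.1) (nA n' k' - uB i.2) else 0 := by
  classical
  have hl := Bd.l_pos
  have M := geoPP hG hH he
  have m3 := M.h3
  have m6 := M.h6
  have m7 := M.h7
  have hyG := yP_gt hG he
  have hxG := xG_hi hG
  set W : Bool → ℂ → ℂ := fW Z P k k' t with hW
  set pl := plS (o3 k k') (zW P k k' t) (fun i => kkW k k' i = .S) with hpl0
  set g := gr (o3 k k') (zW P k k' t) (fun i => kkW k k' i = .S) (hL π h) with hg0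
  have hQ : ((((nA n k : ℕ) : ℤ) * sg true + ((nA n' k' : ℕ) : ℤ) * sg false : ℤ) : ℝ) +
      ∑ b, sc (o3 k k' b) = Q := by
    have h1 := neutral_Q (k := k) (k' := k') hc hc' (q0 := Q) (by omega)
    have e1 : (sg true : ℤ) = 1 := rfl
    have e2 : (sg false : ℤ) = -1 := rfl
    rw [e1, e2, ← h1]
    push_cast
    ring
  have rL : Reg pl κ (51 / 100 * l) (39 / 64 * l)
      ((nA n k : ℕ) * sg true + (nA n' k' : ℕ) * sg false) g := regL hG ht hpol hdec hQ
  have hHR := hrS (k := k) (k' := k') (t := t) hG ht (x := 51 / 100 * l) (y := 39 / 64 * l) le_rfl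
    (by linarith)
  have hpl : ∀ s, ∀ p ∈ pl s, xG P < p.re ∧ p.re < yP P := by
    intro s p hp
    rw [hpl0, mem_plS] at hp
    obtain ⟨i, ⟨hi, _⟩, rfl⟩ := hp
    have e : (zW P k k' t i + 2 * (l : ℂ)).re = (1 - P.e) * l := by
      rw [add_re, zW_re, hi, lnK_S]
      simp
      ring
    rw [e]
    exact ⟨hxG, hyG⟩
  have wt : ∀ s (u : ℂ), 51 / 100 * l ≤ u.re → u.re ≤ 39 / 64 * l → W s u = Wt pl g s u := by
    intro s u h1 h2
    rw [hg0, hpl0, hHR.Wt_gr s h1 h2, hW]
    unfold fW fld zW
    rw [hL_eq hpol s h1 h2]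
  have G0 : Geo pl κ (51 / 100 * l) (39 / 64 * l) :=
    { kpos := hκ
      ab := by linarith
      wd := by linarith
      pin := fun s p hp => ⟨by linarith [(hpl s p hp).1], by linarith [(hpl s p hp).2]⟩ }
  rw [gas_move G0 le_rfl m6.le (by linarith) (fun s p hp => Or.inr (hpl s p hp).1) _ _ rL
    (fun s u hu => wt s u (by linarith) (by linarith))
    (fun s u hu => wt s u (by linarith) (by linarith))]
  -- the values on the rectangle
  have hsw : ∀ (u : ℂ) (i : Fin p ⊕ Fin p'), kkW k k' i = .S → xG P ≤ u.re → u.re ≤ yP P →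
      HF.Sw (u - zW P k k' t i) := fun u i hi h1 h2 =>
    hHR.sw hi (by linarith) (by linarith)
  have hbt : ∀ (s : Bool) (i : Fin p ⊕ Fin p'), kkW k k' i = .S → (o3 k k' i).1 ≠ s →
      zW P k k' t i + 2 * l ∈ pl s := fun s i hi hs => by
    rw [hpl0, mem_plS]
    exact ⟨i, ⟨hi, hs⟩, rfl⟩
  have hF : ∀ z : ℂ, xG P ≤ z.re → z.re ≤ yP P → Wt pl g true z =
      HF.FH (Z true none) (zX P k k' t) (zY P k k' t) (KW P k k' t true) z /
        ∏ i, (z - db (bY P k k' t) i) := by
    intro z h1 h2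
    refine Wt_FH (zt := zY P k k' t) (fun i => ?_) (fun i => hsw z _ ?_ h1 h2) fun _ => ?_
    · exact hbt true (Sum.inr i.1) i.2 fun h0 => Bool.false_ne_true h0
    · exact i.2
    · rw [← wt true z (by linarith) (by linarith), hW, fW_true]
  have hF' : ∀ z : ℂ, xG P ≤ z.re → z.re ≤ yP P → Wt pl g false z =
      HF.FH (Z false none) (zY P k k' t) (zX P k k' t) (KW P k k' t false) z /
        ∏ i, (z - db (bX P k k' t) i) := by
    intro z h1 h2
    refine Wt_FH (zt := zX P k k' t) (fun i => ?_) (fun i => hsw z _ ?_ h1 h2) fun _ => ?_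
    · exact hbt false (Sum.inl i.1) i.2 fun h0 => Bool.false_ne_true h0.symm
    · exact i.2
    · rw [← wt false z (by linarith) (by linarith), hW, fW_false]
  -- the step over the poles
  have cF : ContinuousOn (HF.FH (Z true none) (zX P k k' t) (zY P k k' t) (KW P k k' t true))
      (OS (51 / 100 * l) (39 / 64 * l)) := by
    have h1 := (SX (false, false) OkI_none).fan.continuousOn
    rw [FH_ZFl] at h1
    simpa only [fB_none, mul_one] using h1
  have cF' : ContinuousOn (HF.FH (Z false none) (zY P k k' t) (zX P k k' t) (KW P k k' t false))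
      (OS (51 / 100 * l) (39 / 64 * l)) := by
    have h1 := (SY (false, false) OkI_none).fan.continuousOn
    rw [FH_ZFl] at h1
    simpa only [fB_none, mul_one] using h1
  have rR : Reg (pW2 π) κ (39 / 64 * l) l ((nA n k : ℕ) * sg true + (nA n' k' : ℕ) * sg false)
      (gB P k k' t π h) := regB hG he hpol hQ
  have hin : ∀ (R : ℝ) (i : Fin p ⊕ Fin p'), kkW k k' i = .S → |(bW P k k' t i).im| < R →
      bW P k k' t i ∈ Pool.Agent.PHK.rI (xG P) (yP P) R := by
    intro R i hi hR
    have e : (bW P k k' t i).re = (1 - P.e) * l := by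
      unfold bW
      rw [add_re, zW_re, hi, lnK_S]
      simp
      ring
    exact ⟨by rw [e]; exact hxG, by rw [e]; exact hyG, hR⟩
  have hP : ∃ R₀ : ℝ, ∀ R, R₀ ≤ R → ∀ j ≤ nA n k, ∀ j' ≤ nA n' k',
      GPk (xG P) (yP P) R (39 / 64 * l) (bY P k k' t) (bX P k k' t) W
        (HF.FH (Z true none) (zX P k k' t) (zY P k k' t) (KW P k k' t true))
        (HF.FH (Z false none) (zY P k k' t) (zX P k k' t) (KW P k k' t false))
        (nA n k - j) (nA n' k' - j') j j' =
      ∑ α : {i : Bool × Bool // OkI a i}, if uB α.1.1 ≤ nA n k - j ∧ uB α.1.2 ≤ nA n' k' - j' then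
        (cPl π h α.1 * GP P k k' t π α.1) *
          GPk (xG P) (yP P) R l (bY P k k' t) (bX P k k' t) (fW (ZFl Z π α.1) P k k' t)
            (HF.FH (ZFl Z π α.1 true none) (zX P k k' t) (zY P k k' t) (KW P k k' t true))
            (HF.FH (ZFl Z π α.1 false none) (zY P k k' t) (zX P k k' t) (KW P k k' t false))
            (nA n k - j - uB α.1.1) (nA n' k' - j' - uB α.1.2) j j' else 0 := by
    obtain ⟨R1, r1⟩ := exists_R (bY P k k' t)
    obtain ⟨R2, r2⟩ := exists_R (bX P k k' t)
    refine ⟨max 1 (max R1 R2), fun R hR j hj j' hj' => ?_⟩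
    have hR0 : 0 < R := lt_of_lt_of_le zero_lt_one ((le_max_left _ _).trans hR)
    have m0 : max R1 R2 ≤ R := (le_max_right _ _).trans hR
    have m1 : R1 ≤ R := (le_max_left _ _).trans m0
    have m2 : R2 ≤ R := (le_max_right _ _).trans m0
    have key := GPk_pole2 (x := xG P) (y := yP P) (R := R) (b := bY P k k' t) (b' := bX P k k' t)
      (W := W) (F := HF.FH (Z true none) (zX P k k' t) (zY P k k' t) (KW P k k' t true))
      (F' := HF.FH (Z false none) (zY P k k' t) (zX P k k' t) (KW P k k' t false))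
      (n := nA n k - j) (n' := nA n' k' - j') (k := j) (k' := j')
      (a₁ := 51 / 100 * l) (b₁ := 39 / 64 * l) (y1 := 39 / 64 * l) (yl := l)
      (Q := (nA n k : ℕ) * sg true + (nA n' k' : ℕ) * sg false) m6 m3 m7 (by linarith) m7
      (by linarith) hR0 (fun i => hin R (Sum.inr i.1) i.2 ((r1 i).trans_le m1))
      (fun i => hin R (Sum.inl i.1) i.2 ((r2 i).trans_le m2)) cF cF' hκ (w := π)
      (fun s => by rw [hpol.re s]; linarith) (fun s => by rw [hpol.re s]; linarith)
      (by rw [Nat.sub_add_cancel hj, Nat.sub_add_cancel hj']) rR gB_zero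
      (fun s u hu => wt_pole hpol s (by rcases hu with hu | hu <;> rw [hu] <;> linarith)
        (by rcases hu with hu | hu <;> rw [hu] <;> linarith) (fun h0 => by
          have := hpol.re s
          rw [← h0] at this
          rcases hu with hu | hu <;> rw [hu] at this <;> linarith))
    rw [key, sum_OkI fun i => if uB i.1 ≤ nA n k - j ∧ uB i.2 ≤ nA n' k' - j' then
        (cPl π h i * GP P k k' t π i) *
          GPk (xG P) (yP P) R l (bY P k k' t) (bX P k k' t) (fW (ZFl Z π i) P k k' t)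
            (HF.FH (ZFl Z π i true none) (zX P k k' t) (zY P k k' t) (KW P k k' t true))
            (HF.FH (ZFl Z π i false none) (zY P k k' t) (zX P k k' t) (KW P k k' t false))
            (nA n k - j - uB i.1) (nA n' k' - j' - uB i.2) j j' else 0]
    refine Finset.sum_congr rfl fun i _ => ?_
    by_cases hi : OkI a i
    · rw [if_pos hi, fW_ZFl, FH_ZFl, FH_ZFl,
        cB_cPl (h := h) (deriv_gB (k := k) (k' := k') (t := t) hG he hpol) i]
    · rw [if_neg hi, cB_zero hG he hpol hi]
      simp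
  have ex := exact_U_of (U := {i : Bool × Bool // OkI a i}) (νX := fun α => νX α.1)
    (νY := fun α => νY α.1) (dX := fun α => d α.1) (dY := fun α => d' α.1)
    (Wf := fun α => fW (ZFl Z π α.1) P k k' t)
    (Fx := fun α => HF.FH (ZFl Z π α.1 true none) (zX P k k' t) (zY P k k' t) (KW P k k' t true))
    (Ex := fun α => Ex α.1)
    (Fy := fun α => HF.FH (ZFl Z π α.1 false none) (zY P k k' t) (zX P k k' t) (KW P k k' t false))
    (Ey := fun α => Ey α.1) (κU := fun α => κU α.1) (κU' := fun α => κU' α.1)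
    (qU := fun α => (Q : ℝ) - α.1.1.toNat + α.1.2.toNat - cW k k')
    (uX := fun α => uB α.1.1) (uY := fun α => uB α.1.2)
    (c := fun α => cPl π h α.1 * GP P k k' t π α.1) M (fun α => SX α.1 α.2) (fun α => SY α.1 α.2)
    (fun α => hκU α.1) (fun α => hκU' α.1) (a := nA n k) (a' := nA n' k')
    (fun α h1 h2 => by
      have hu : ∀ b : Bool, uB b = b.toNat := fun b => by cases b <;> rfl
      have e1 : (nA n k : ℝ) = n - ∑ i, (c3 (k i) : ℝ) := by
        unfold nA
        push_cast [hc]
        ring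
      have e2 : (nA n' k' : ℝ) = n' - ∑ i, (c3 (k' i) : ℝ) := by
        unfold nA
        push_cast [hc']
        ring
      have e3 : (n : ℝ) = n' + Q := by exact_mod_cast hn
      simp only [hu] at h1 h2 ⊢
      rw [Nat.cast_sub h1, Nat.cast_sub h2, e1, e2]
      unfold cW
      linarith)
    (W := W) (pl := pl) hpl (g := g) hκ (y1 := 39 / 64 * l) m7.le (by linarith)
    (rL.mono_a m6.le) (fun s u hu => wt s u (by linarith) (by linarith))
    (fun s u hu => wt s u (by linarith) (by linarith)) hF hF' hP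
  rw [ex, sum_OkI fun i => if uB i.1 ≤ nA n k ∧ uB i.2 ≤ nA n' k' then
      (cPl π h i * GP P k k' t π i) *
        exR (lnH P) l (fW (ZFl Z π i) P k k' t) (bY P k k' t) (d i) (bX P k k' t) (d' i)
          (HF.FH (ZFl Z π i true none) (zX P k k' t) (zY P k k' t) (KW P k k' t true)) (Ex i)
          (HF.FH (ZFl Z π i false none) (zY P k k' t) (zX P k k' t) (KW P k k' t false)) (Ey i)
          (nA n k - uB i.1) (nA n' k' - uB i.2) else 0]
  refine Finset.sum_congr rfl fun i _ => ?_
  by_cases hi : OkI a i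
  · rw [if_pos hi]
    simp only [hi, true_and]
  · rw [if_neg hi, if_neg fun hh => hi hh.1]

end pole

end PHK

end
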