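import Pool.Agent.PHK.HoleE
import Pool.Agent.PHK.WordD
import Pool.Agent.PHK.ClsZ

/-!
# The exact identity (P) and the words: the book-keeping of the sums

* `StrT k` : the strings of a word; **`glu k D E`** : the glued holes `D` and the zeros `E` of a class;
  `sum_glu` : the sum over the subsets;
* `qI_famW`, `cntI_famW` : charges and numbers of the family of a word;
* **`exR_word`** : the right side of the exact identity as a sum of terms `fI`.
-/

set_option autoImplicit false
set_option linter.unusedSectionVars false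
set_option linter.unusedVariables false

noncomputable section

open Complex MeasureTheory Finset
open scoped Real ENNReal Nat

namespace PHK

open NUO NUP1 NUP1S NUP1S.Mg NUP1S.Ab NUP1S.AbG NURow
open NUP1.Bd (wt Ob qg)
open Pool.Agent.PHK (lM lG lK)

/-- the strings of a word -/
abbrev StrT {p : ℕ} (k : Fin p → O3) : Type := {i : Fin p // k i = .S}

/-! ### subsets of the strings and of the zeros -/

section glu

variable {p : ℕ} {k : Fin p → O3} {V : Type} [Fintype V] [LinearOrder V]

/-- the glued holes `D` and the zeros `A` -/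
def glu (D : Finset (StrT k)) (A : Finset V) : Finset (StrT k ⊕ₗ V) :=
  (D.disjSum A).map toLex.toEmbedding

variable {D : Finset (StrT k)} {A : Finset V}

@[simp] theorem mem_glu_inl {i : StrT k} : toLex (Sum.inl i) ∈ glu D A ↔ i ∈ D := by
  unfold glu
  rw [Finset.mem_map_equiv]
  simp

@[simp] theorem mem_glu_inr {j : V} : toLex (Sum.inr j) ∈ glu D A ↔ j ∈ A := by
  unfold glu
  rw [Finset.mem_map_equiv]
  simp

theorem card_glu (D : Finset (StrT k)) (A : Finset V) :
    (glu D A).card = D.card + A.card := by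
  unfold glu
  rw [card_map, card_disjSum]

/-- products over the glued holes and the zeros -/
theorem prod_glu (D : Finset (StrT k)) (A : Finset V) (f : StrT k ⊕ₗ V → ℂ) :
    ∏ x ∈ glu D A, f x = (∏ i ∈ D, f (toLex (Sum.inl i))) * ∏ j ∈ A, f (toLex (Sum.inr j)) := by
  unfold glu
  rw [prod_map, prod_disjSum]
  rfl

/-- **the sum over the subsets** -/
theorem sum_glu {M : Type*} [AddCommMonoid M] (f : Finset (StrT k ⊕ₗ V) → M) :
    ∑ X ∈ (univ : Finset (StrT k ⊕ₗ V)).powerset, f X =
      ∑ D : Finset (StrT k), ∑ A : Finset V, f (glu D A) := by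
  classical
  rw [← sum_product' (s := (univ : Finset (Finset (StrT k)))) (t := (univ : Finset (Finset V)))
    (f := fun D A => f (glu D A))]
  refine sum_nbij' (fun X => (univ.filter fun i : StrT k => toLex (Sum.inl i) ∈ X,
    univ.filter fun j => toLex (Sum.inr j) ∈ X)) (fun q => glu q.1 q.2) ?_ ?_ ?_ ?_ ?_
  · intro X _
    exact mem_product.2 ⟨mem_univ _, mem_univ _⟩
  · intro q _
    exact mem_powerset.2 (subset_univ _)
  · intro X _
    ext x
    induction x using Lex.rec with
    | _ x =>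
      rcases x with i | j
      · rw [mem_glu_inl]
        simp only [mem_filter, mem_univ, true_and]
      · rw [mem_glu_inr]
        simp only [mem_filter, mem_univ, true_and]
  · rintro ⟨D, A⟩ hq
    refine Prod.ext ?_ ?_
    · ext i
      simp only [mem_filter, mem_univ, true_and, mem_glu_inl]
    · ext j
      simp only [mem_filter, mem_univ, true_and, mem_glu_inr]
  · intro X _
    congr 1
    ext x
    induction x using Lex.rec with
    | _ x =>
      rcases x with i | j
      · rw [mem_glu_inl]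
        simp only [mem_filter, mem_univ, true_and]
      · rw [mem_glu_inr]
        simp only [mem_filter, mem_univ, true_and]

/-- the subsets of the strings -/
theorem sum_strS {M : Type*} [AddCommMonoid M] (f : Finset (Fin p) → M) :
    ∑ D ∈ (strS k).powerset, f D =
      ∑ D : Finset (StrT k), f (D.map (Function.Embedding.subtype _)) := by
  classical
  symm
  refine sum_nbij' (fun D => D.map (Function.Embedding.subtype _))
    (fun D => D.subtype fun i => k i = .S) ?_ ?_ ?_ ?_ ?_
  · intro D _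
    refine mem_powerset.2 fun i hi => ?_
    obtain ⟨x, _, rfl⟩ := mem_map.1 hi
    exact mem_filter.2 ⟨mem_univ _, x.2⟩
  · intro D _
    exact mem_univ _
  · intro D _
    ext i
    simp only [Finset.mem_subtype, Finset.mem_map, Function.Embedding.coe_subtype]
    constructor
    · rintro ⟨x, hx, he⟩
      rwa [← Subtype.ext he]
    · intro hi
      exact ⟨i, hi, rfl⟩
  · intro D hD
    rw [Finset.subtype_map, Finset.filter_true_of_mem]
    intro i hi
    exact (mem_filter.1 (mem_powerset.1 hD hi)).2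
  · intro D _
    rfl

end glu

theorem sub_strS {p : ℕ} {k : Fin p → O3} (D : Finset (StrT k)) :
    D.map (Function.Embedding.subtype _) ⊆ strS k := by
  intro i hi
  obtain ⟨x, _, rfl⟩ := mem_map.1 hi
  exact mem_filter.2 ⟨mem_univ _, x.2⟩

/-! ### charges and numbers of the family of a word -/

section fam

variable {p p' a b : ℕ} {k : Fin p → O3} {k' : Fin p' → O3} {D : Finset (Fin p)}
  {D' : Finset (Fin p')} {t : Fin p ⊕ Fin p' → ℝ} {y : Fin a ⊕ Fin b → Bool × ℝ}

/-- the family of a word with glued holes `D`, `D'` and free holes `y` -/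
abbrev fmS (k : Fin p → O3) (k' : Fin p' → O3) (D : Finset (Fin p)) (D' : Finset (Fin p'))
    (t : Fin p ⊕ Fin p' → ℝ) (y : Fin a ⊕ Fin b → Bool × ℝ) :
    (Fin p ⊕ Fin p') ⊕ (Fin a ⊕ Fin b) → Xo :=
  famW (fun i => kaD (k i) (decide (i ∈ D))) (fun i => kaD (k' i) (decide (i ∈ D'))) t y

theorem card_StrT (k : Fin p → O3) : Fintype.card (StrT k) = (strS k).card := by
  rw [Fintype.card_subtype]
  rfl

theorem fmS_lab (k : Fin p → O3) (k' : Fin p' → O3) (D : Finset (Fin p)) (D' : Finset (Fin p'))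
    (t : Fin p ⊕ Fin p' → ℝ) (y : Fin a ⊕ Fin b → Bool × ℝ) : fmS k k' D D' t y =
      fun i => xo (labW (fun i => kaD (k i) (decide (i ∈ D))) (fun i => kaD (k' i) (decide (i ∈ D')))
        (fun j => (y (Sum.inl j)).1) (fun j => (y (Sum.inr j)).1) i)
        (Sum.elim t (fun j => (y j).2) i) := by
  rw [← famW_eq]
  unfold fmS
  congr 1
  funext j
  rcases j with j | j <;> rfl

/-- the number of holes of a species -/
theorem hl_fmS (hD : D ⊆ strS k) (hD' : D' ⊆ strS k') (r : Bool) :
    ∑ i, hl6 r (fmS k k' D D' t y i) = if r then D.card + a else D'.card + b := by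
  have h1 : ∀ i, i ∈ D → k i = .S := fun i hi => (mem_filter.1 (hD hi)).2
  have h2 : ∀ i, i ∈ D' → k' i = .S := fun i hi => (mem_filter.1 (hD' hi)).2
  have e1 : ∀ i : Fin p, hl6 r (fmS k k' D D' t y (Sum.inl (Sum.inl i))) =
      if i ∈ D then (if r then 1 else 0) else 0 := by
    intro i
    rw [fmS_lab]
    unfold hl6
    rw [k6_xo, sp_xo]
    simp only [labW, Sum.elim_inl]
    by_cases hi : i ∈ D
    · rw [h1 i hi]
      cases r <;> simp [kaD, kdA, hi]
    · rcases hk : k i with _ | _ | _ <;> cases r <;> simp [kaD, kdA, hi]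
  have e2 : ∀ i : Fin p', hl6 r (fmS k k' D D' t y (Sum.inl (Sum.inr i))) =
      if i ∈ D' then (if r then 0 else 1) else 0 := by
    intro i
    rw [fmS_lab]
    unfold hl6
    rw [k6_xo, sp_xo]
    simp only [labW, Sum.elim_inl, Sum.elim_inr]
    by_cases hi : i ∈ D'
    · rw [h2 i hi]
      cases r <;> simp [kaD, kdA, hi]
    · rcases hk : k' i with _ | _ | _ <;> cases r <;> simp [kaD, kdA, hi]
  have e3 : ∀ i : Fin a, hl6 r (fmS k k' D D' t y (Sum.inr (Sum.inl i))) = if r then 1 else 0 := by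
    intro i
    rw [fmS_lab]
    unfold hl6
    rw [k6_xo, sp_xo]
    simp only [labW, Sum.elim_inl, Sum.elim_inr]
    cases (y (Sum.inl i)).1 <;> cases r <;> simp [kdH]
  have e4 : ∀ i : Fin b, hl6 r (fmS k k' D D' t y (Sum.inr (Sum.inr i))) = if r then 0 else 1 := by
    intro i
    rw [fmS_lab]
    unfold hl6
    rw [k6_xo, sp_xo]
    simp only [labW, Sum.elim_inl, Sum.elim_inr]
    cases (y (Sum.inr i)).1 <;> cases r <;> simp [kdH]
  rw [Fintype.sum_sum_type, Fintype.sum_sum_type, Fintype.sum_sum_type]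
  simp only [e1, e2, e3, e4, sum_ite_mem, univ_inter]
  cases r <;> simp

/-- the number of quanta at the points `b` of a species -/
theorem sat_fmS (r : Bool) : ∑ i, sat6 r (fmS k k' D D' t y i) =
    if r then 2 * (strS k').card else 2 * (strS k).card := by
  have e1 : ∀ i : Fin p, sat6 r (fmS k k' D D' t y (Sum.inl (Sum.inl i))) =
      if i ∈ strS k then (if r then 0 else 2) else 0 := by
    intro i
    rw [fmS_lab]
    unfold sat6
    rw [k6_xo, sp_xo]
    simp only [labW, Sum.elim_inl]
    rcases hk : k i with _ | _ | _ <;> by_cases hi : i ∈ D <;> cases r <;>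
      simp [kaD, kdA, strS, hk, hi]
  have e2 : ∀ i : Fin p', sat6 r (fmS k k' D D' t y (Sum.inl (Sum.inr i))) =
      if i ∈ strS k' then (if r then 2 else 0) else 0 := by
    intro i
    rw [fmS_lab]
    unfold sat6
    rw [k6_xo, sp_xo]
    simp only [labW, Sum.elim_inl, Sum.elim_inr]
    rcases hk : k' i with _ | _ | _ <;> by_cases hi : i ∈ D' <;> cases r <;>
      simp [kaD, kdA, strS, hk, hi]
  have e3 : ∀ i : Fin a, sat6 r (fmS k k' D D' t y (Sum.inr (Sum.inl i))) = 0 := by
    intro i
    rw [fmS_lab]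
    unfold sat6
    rw [k6_xo, sp_xo]
    simp only [labW, Sum.elim_inl, Sum.elim_inr]
    cases (y (Sum.inl i)).1 <;> cases r <;> simp [kdH]
  have e4 : ∀ i : Fin b, sat6 r (fmS k k' D D' t y (Sum.inr (Sum.inr i))) = 0 := by
    intro i
    rw [fmS_lab]
    unfold sat6
    rw [k6_xo, sp_xo]
    simp only [labW, Sum.elim_inl, Sum.elim_inr]
    cases (y (Sum.inr i)).1 <;> cases r <;> simp [kdH]
  rw [Fintype.sum_sum_type, Fintype.sum_sum_type, Fintype.sum_sum_type]
  simp only [e1, e2, e3, e4, sum_ite_mem, univ_inter]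
  cases r <;> simp [mul_comm]

/-- the charge -/
theorem qI_fmS (hD : D ⊆ strS k) (hD' : D' ⊆ strS k') (r : Bool) : qI (fmS k k' D D' t y) r =
    if r then ((∑ i, c3 (k i) : ℕ) : ℤ) + 2 * (strS k').card - (D.card + a : ℕ)
      else ((∑ i, c3 (k' i) : ℕ) : ℤ) + 2 * (strS k).card - (D'.card + b : ℕ) := by
  have h := q3I_lab k k' (D := D) (D' := D') (fun j => (y (Sum.inl j)).1)
    (fun j => (y (Sum.inr j)).1) (Sum.elim t fun j => (y j).2) r
  rw [← fmS_lab] at h
  unfold q3I at h
  rw [hl_fmS hD hD', sat_fmS] at h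
  cases r
  · simp only [Bool.false_eq_true, if_false, if_true] at h ⊢
    push_cast at h ⊢
    linarith
  · simp only [Bool.true_eq_false, if_false, if_true] at h ⊢
    push_cast at h ⊢
    linarith

end fam

/-! ### the localisers of the family of a word do not depend on the free holes -/

theorem kdH_ne (c : Bool) : ¬ (kdH c = .E ∨ kdH c = .F) := by
  cases c <;> simp [kdH]

section loc

variable {p p' a b a' b' : ℕ} {k : Fin p → O3} {k' : Fin p' → O3} {D : Finset (Fin p)}
  {D' : Finset (Fin p')} {t : Fin p ⊕ Fin p' → ℝ}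

theorem gHI_fmS (P : Par6) (y : Fin a ⊕ Fin b → Bool × ℝ) (s : Bool) (h : ℂ) :
    gHI P (fmS k k' D D' t y) s h = gHI P (fmS k k' D D' t
      (Sum.elim Fin.elim0 Fin.elim0 : Fin 0 ⊕ Fin 0 → Bool × ℝ)) s h := by
  unfold gHI
  rw [Fintype.prod_sum_type, Fintype.prod_sum_type (α₁ := Fin p ⊕ Fin p') (α₂ := Fin 0 ⊕ Fin 0)]
  congr 2
  have e1 : ∀ j : Fin a ⊕ Fin b, ¬ isE (fmS k k' D D' t y (Sum.inr j)) := by
    intro j hj
    unfold isE at hj
    have : k6 (fmS k k' D D' t y (Sum.inr j)) = kdH (y j).1 := k6_xo _ _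
    rw [this] at hj
    exact kdH_ne _ hj
  have e2 : (∏ j : Fin a ⊕ Fin b, if sp (fmS k k' D D' t y (Sum.inr j)) = !s ∧
      isE (fmS k k' D D' t y (Sum.inr j)) then
        tau6 (h - posB P.e (ht (fmS k k' D D' t y (Sum.inr j)))) else 1) = 1 :=
    prod_eq_one fun j _ => if_neg fun hj => e1 j hj.2
  rw [e2]
  symm
  exact prod_eq_one fun j _ => by rcases j with j | j <;> exact j.elim0

end loc

/-! ### gas and measures -/

/-- only the values on the line matter -/
theorem gas_line {a a' : ℕ} {x : ℝ} {H H' G G' : ℂ → ℂ} (h1 : ∀ u : ℂ, u.re = x → H u = G u)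
    (h2 : ∀ u : ℂ, u.re = x → H' u = G' u) : gas a a' x H H' = gas a a' x G G' := by
  unfold gas Ig
  congr 1
  refine integral_congr_ae (Filter.Eventually.of_forall fun t => ?_)
  show Fg _ _ _ = Fg _ _ _
  unfold Fg
  congr 1
  refine prod_congr rfl fun i _ => ?_
  rcases i with i | i
  · exact h1 _ (by simp)
  · exact h2 _ (by simp)

/-- the holes of both species -/
theorem int_HP {a b : ℕ} (G : (Fin a ⊕ Fin b → Bool × ℝ) → ℂ) :
    ∫ y, G y ∂(Measure.pi fun _ => lM) =
      ∫ q : HP a b, G (Sum.elim q.1 q.2) ∂(nuH a b) := by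
  have mp := measurePreserving_sumPiEquivProdPi_symm (X := fun _ : Fin a ⊕ Fin b => Bool × ℝ)
    (fun _ => lM)
  rw [← mp.integral_comp']
  refine integral_congr_ae (Filter.Eventually.of_forall fun q => ?_)
  show G _ = G _
  congr 1

/-! ### the sums -/

section main

variable {p p' : ℕ} {k : Fin p → O3} {k' : Fin p' → O3} {t : Fin p ⊕ Fin p' → ℝ} {ν : Bool → Type} [∀ s, Fintype (ν s)]
  [∀ s, LinearOrder (ν s)]
  {Z : Bool → Option O3 → ℂ → ℂ} {P : Par6} {ζ ρ : ∀ s, ν s → ℂ} {n n' N : ℕ}
  {xl : Bool → ℝ} {W : Bool → ℂ → ℂ} {c : ℂ}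
  {b : StrT k' → ℂ} {d : StrT k ⊕ₗ ν true → ℂ}
  {b' : StrT k → ℂ} {d' : StrT k' ⊕ₗ ν false → ℂ} {F E F' E' : ℂ → ℂ}

/-- the factor of the class in a term: weight of the holes at the zeros and localisers -/
def clsW (P : Par6) (ζ ρ : ∀ s, ν s → ℂ) (A : Finset (ν true))
    (A' : Finset (ν false)) {ι : Type*} [Fintype ι] (O : ι → Xo) : ℂ :=
  kaE ζ ρ A A' * ((∏ j ∈ A, gHI P O true (ζ true j)) * ∏ j ∈ A', gHI P O false (ζ false j))

/-- **the weights of the exact identity and of the words** (`c` = weight of the objects): glued holes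
`D`, `D'`, zeros `A`, `A'` of the class, `h + h'` free holes `q` -/
structure WordW (c : ℂ) (k : Fin p → O3) (k' : Fin p' → O3) (t : Fin p ⊕ Fin p' → ℝ)
    (Z : Bool → Option O3 → ℂ → ℂ) (P : Par6) (ζ ρ : ∀ s, ν s → ℂ) (xl : Bool → ℝ)
    (W : Bool → ℂ → ℂ) (b : StrT k' → ℂ) (d : StrT k ⊕ₗ ν true → ℂ) (b' : StrT k → ℂ)
    (d' : StrT k' ⊕ₗ ν false → ℂ) (F E F' E' : ℂ → ℂ) : Prop where
  hw : ∀ (D : Finset (StrT k)) (D' : Finset (StrT k')) (A : Finset (ν true))
    (A' : Finset (ν false)) (h h' : ℕ) (q : HP h h'),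
    c * (cH b d (glu D A) b' d' (glu D' A') F E F' E' *
        hW (bH xl b d (glu D A) b' d' (glu D' A') E E') xl q) =
      (-1) ^ (h + h') * ((1 / 2 : ℂ) ^ ((strS k).card + (strS k').card) *
        (wI (ZE Z ζ A A') P (fmW k k' t D D' (Sum.elim q.1 q.2)) *
          clsW P ζ ρ A A' (fmW k k' t D D' (Sum.elim q.1 q.2))))
  hg : ∀ (D : Finset (StrT k)) (D' : Finset (StrT k')) (A : Finset (ν true))
    (A' : Finset (ν false)) (h h' : ℕ) (q : HP h h') (s : Bool) (u : ℂ), u.re = l →
    adH (gD W b d (glu D A) b' d' (glu D' A')) (hS h h') (hZ xl q) s u =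
      ZE Z ζ A A' s none u * potI P (fmW k k' t D D' (Sum.elim q.1 q.2)) s u

/-- one term, free holes on the two lines -/
def trW (Z : Bool → Option O3 → ℂ → ℂ) (P : Par6) (ζ ρ : ∀ s, ν s → ℂ) (n n' : ℕ)
    (k : Fin p → O3) (k' : Fin p' → O3) (t : Fin p ⊕ Fin p' → ℝ) (D : Finset (StrT k))
    (D' : Finset (StrT k')) (A : Finset (ν true)) (A' : Finset (ν false)) (h h' : ℕ) : ℂ :=
  ((h ! : ℕ) : ℂ)⁻¹ * ((h' ! : ℕ) : ℂ)⁻¹ * ((1 / 2 : ℂ) ^ ((strS k).card + (strS k').card) *
    ∫ y : Fin h ⊕ Fin h' → Bool × ℝ, kaE ζ ρ A A' *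
      (fI (ZE Z ζ A A') P l (n + A.card) (n' + A'.card) (fmW k k' t D D' y) *
        psE P ζ A A' (fmW k k' t D D' y)) ∂(Measure.pi fun _ => lM))

/-- **one term** -/
theorem term_word (hc : ∑ i, c3 (k i) ≤ n) (hc' : ∑ i, c3 (k' i) ≤ n')
    (hw : WordW c k k' t Z P ζ ρ xl W b d b' d' F E F' E') (D : Finset (StrT k))
    (D' : Finset (StrT k')) (A : Finset (ν true))
    (A' : Finset (ν false)) (h h' : ℕ) :
    c * (if ((glu D A).card + h ≤ 2 * Fintype.card (StrT k') ∧
          2 * Fintype.card (StrT k') ≤ nA n k + (glu D A).card + h) ∧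
        ((glu D' A').card + h' ≤ 2 * Fintype.card (StrT k) ∧
          2 * Fintype.card (StrT k) ≤ nA n' k' + (glu D' A').card + h') then
        (-1 : ℂ) ^ (h + h') * TH xl l W b d (glu D A) b' d' (glu D' A') F E F' E' h h'
          (nA n k + (glu D A).card + h - 2 * Fintype.card (StrT k'))
          (nA n' k' + (glu D' A').card + h' - 2 * Fintype.card (StrT k)) else 0) =
      trW Z P ζ ρ n n' k k' t D D' A A' h h' := by
  rw [card_glu D, card_glu D', card_StrT, card_StrT]
  unfold trW
  rw [int_HP]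
  have hn : nA n k = n - ∑ i, c3 (k i) := rfl
  have hn' : nA n' k' = n' - ∑ i, c3 (k' i) := rfl
  have hD := sub_strS D
  have hD' := sub_strS D'
  have q1 : ∀ q : HP h h', qI (fmW k k' t D D' (Sum.elim q.1 q.2)) true =
      ((∑ i, c3 (k i) : ℕ) : ℤ) + 2 * (strS k').card - (D.card + h : ℕ) := fun q => by
    have := qI_fmS (t := t) (y := Sum.elim q.1 q.2) hD hD' true
    rw [if_pos rfl, card_map] at this
    exact this
  have q2 : ∀ q : HP h h', qI (fmW k k' t D D' (Sum.elim q.1 q.2)) false =
      ((∑ i, c3 (k' i) : ℕ) : ℤ) + 2 * (strS k).card - (D'.card + h' : ℕ) := fun q => by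
    have := qI_fmS (t := t) (y := Sum.elim q.1 q.2) hD hD' false
    rw [if_neg (by decide), card_map] at this
    exact this
  have c1 : ∀ q : HP h h', ∑ i, hl6 true (fmW k k' t D D' (Sum.elim q.1 q.2) i) = D.card + h :=
    fun q => by
      have := hl_fmS (t := t) (y := Sum.elim q.1 q.2) hD hD' true
      rw [if_pos rfl, card_map] at this
      exact this
  have c2 : ∀ q : HP h h', ∑ i, hl6 false (fmW k k' t D D' (Sum.elim q.1 q.2) i) =
      D'.card + h' := fun q => by
    have := hl_fmS (t := t) (y := Sum.elim q.1 q.2) hD hD' false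
    rw [if_neg (by decide), card_map] at this
    exact this
  have s1 : ∀ q : HP h h', ∑ i, sat6 true (fmW k k' t D D' (Sum.elim q.1 q.2) i) =
      2 * (strS k').card := fun q => by
    have := sat_fmS (k := k) (k' := k') (D := D.map (Function.Embedding.subtype _))
      (D' := D'.map (Function.Embedding.subtype _)) (t := t) (y := Sum.elim q.1 q.2) true
    rw [if_pos rfl] at this
    exact this
  have s2 : ∀ q : HP h h', ∑ i, sat6 false (fmW k k' t D D' (Sum.elim q.1 q.2) i) =
      2 * (strS k).card := fun q => by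
    have := sat_fmS (k := k) (k' := k') (D := D.map (Function.Embedding.subtype _))
      (D' := D'.map (Function.Embedding.subtype _)) (t := t) (y := Sum.elim q.1 q.2) false
    rw [if_neg (by decide)] at this
    exact this
  by_cases hC : (D.card + A.card + h ≤ 2 * (strS k').card ∧
      2 * (strS k').card ≤ nA n k + (D.card + A.card) + h) ∧
    (D'.card + A'.card + h' ≤ 2 * (strS k).card ∧
      2 * (strS k).card ≤ nA n' k' + (D'.card + A'.card) + h')
  · rw [if_pos hC]
    obtain ⟨⟨C1, C2⟩, C3, C4⟩ := hC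
    unfold TH
    have e1 : ∀ q : HP h h', kaE ζ ρ A A' *
        (fI (ZE Z ζ A A') P l (n + A.card) (n' + A'.card) (fmW k k' t D D' (Sum.elim q.1 q.2)) *
          psE P ζ A A' (fmW k k' t D D' (Sum.elim q.1 q.2))) =
        wI (ZE Z ζ A A') P (fmW k k' t D D' (Sum.elim q.1 q.2)) *
          clsW P ζ ρ A A' (fmW k k' t D D' (Sum.elim q.1 q.2)) *
        gas (nA n k + (D.card + A.card) + h - 2 * (strS k').card)
          (nA n' k' + (D'.card + A'.card) + h' - 2 * (strS k).card) l
          (adH (gD W b d (glu D A) b' d' (glu D' A')) (hS h h') (hZ xl q) true)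
          (adH (gD W b d (glu D A) b' d' (glu D' A')) (hS h h') (hZ xl q) false) := by
      intro q
      rw [gas_line (hw.hg D D' A A' h h' q true) (hw.hg D D' A A' h h' q false)]
      unfold fI psE clsW
      rw [if_pos, if_pos]
      · have g1 : nAI (n + A.card) (fmW k k' t D D' (Sum.elim q.1 q.2)) true =
            nA n k + (D.card + A.card) + h - 2 * (strS k').card := by
          unfold nAI
          rw [q1]
          omega
        have g2 : nAI (n' + A'.card) (fmW k k' t D D' (Sum.elim q.1 q.2)) false =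
            nA n' k' + (D'.card + A'.card) + h' - 2 * (strS k).card := by
          unfold nAI
          rw [q2]
          omega
        rw [g1, g2]
        ring
      · rw [c1, c2, s1, s2]
        omega
      · rw [q1, q2]
        refine ⟨by omega, by omega, fun r => ?_⟩
        cases r
        · rw [c2, s2]
          omega
        · rw [c1, s1]
          omega
    simp only [e1]
    have e2 : ∀ q : HP h h', hW (bH xl b d (glu D A) b' d' (glu D' A') E E') xl q *
        gas (nA n k + (D.card + A.card) + h - 2 * (strS k').card)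
          (nA n' k' + (D'.card + A'.card) + h' - 2 * (strS k).card) l
          (adH (gD W b d (glu D A) b' d' (glu D' A')) (hS h h') (hZ xl q) true)
          (adH (gD W b d (glu D A) b' d' (glu D' A')) (hS h h') (hZ xl q) false) *
        (c * cH b d (glu D A) b' d' (glu D' A') F E F' E' * (-1) ^ (h + h')) =
        (1 / 2 : ℂ) ^ ((strS k).card + (strS k').card) *
          (wI (ZE Z ζ A A') P (fmW k k' t D D' (Sum.elim q.1 q.2)) *
          clsW P ζ ρ A A' (fmW k k' t D D' (Sum.elim q.1 q.2)) *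
        gas (nA n k + (D.card + A.card) + h - 2 * (strS k').card)
          (nA n' k' + (D'.card + A'.card) + h' - 2 * (strS k).card) l
          (adH (gD W b d (glu D A) b' d' (glu D' A')) (hS h h') (hZ xl q) true)
          (adH (gD W b d (glu D A) b' d' (glu D' A')) (hS h h') (hZ xl q) false)) := by
      intro q
      have h1 := hw.hw D D' A A' h h' q
      have h2 : (-1 : ℂ) ^ (h + h') * (-1) ^ (h + h') = 1 := by
        rw [← mul_pow]
        norm_num
      set G := gas (nA n k + (D.card + A.card) + h - 2 * (strS k').card)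
          (nA n' k' + (D'.card + A'.card) + h' - 2 * (strS k).card) l
          (adH (gD W b d (glu D A) b' d' (glu D' A')) (hS h h') (hZ xl q) true)
          (adH (gD W b d (glu D A) b' d' (glu D' A')) (hS h h') (hZ xl q) false)
      generalize wI (ZE Z ζ A A') P (fmW k k' t D D' (Sum.elim q.1 q.2)) *
          clsW P ζ ρ A A' (fmW k k' t D D' (Sum.elim q.1 q.2)) = X at h1 ⊢
      linear_combination (G * (-1) ^ (h + h')) * h1 +
        ((1 / 2 : ℂ) ^ ((strS k).card + (strS k').card) * X * G) * h2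
    have e3 : (∫ q : HP h h', hW (bH xl b d (glu D A) b' d' (glu D' A') E E') xl q *
        gas (nA n k + (D.card + A.card) + h - 2 * (strS k').card)
          (nA n' k' + (D'.card + A'.card) + h' - 2 * (strS k).card) l
          (adH (gD W b d (glu D A) b' d' (glu D' A')) (hS h h') (hZ xl q) true)
          (adH (gD W b d (glu D A) b' d' (glu D' A')) (hS h h') (hZ xl q) false) ∂(nuH h h')) *
        (c * cH b d (glu D A) b' d' (glu D' A') F E F' E' * (-1) ^ (h + h')) =
        (1 / 2 : ℂ) ^ ((strS k).card + (strS k').card) *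
          ∫ q : HP h h', wI (ZE Z ζ A A') P (fmW k k' t D D' (Sum.elim q.1 q.2)) *
          clsW P ζ ρ A A' (fmW k k' t D D' (Sum.elim q.1 q.2)) *
        gas (nA n k + (D.card + A.card) + h - 2 * (strS k').card)
          (nA n' k' + (D'.card + A'.card) + h' - 2 * (strS k).card) l
          (adH (gD W b d (glu D A) b' d' (glu D' A')) (hS h h') (hZ xl q) true)
          (adH (gD W b d (glu D A) b' d' (glu D' A')) (hS h h') (hZ xl q) false)
          ∂(nuH h h') := by
      rw [← integral_mul_const, ← integral_const_mul]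
      exact integral_congr_ae (Filter.Eventually.of_forall e2)
    linear_combination (((h ! : ℕ) : ℂ)⁻¹ * ((h' ! : ℕ) : ℂ)⁻¹) * e3
  · rw [if_neg hC, mul_zero]
    have e1 : ∀ q : HP h h', kaE ζ ρ A A' *
        (fI (ZE Z ζ A A') P l (n + A.card) (n' + A'.card) (fmW k k' t D D' (Sum.elim q.1 q.2)) *
          psE P ζ A A' (fmW k k' t D D' (Sum.elim q.1 q.2))) = 0 := by
      intro q
      by_contra hne
      have h1 := right_ne_zero_of_mul hne
      have h2 : qI (fmW k k' t D D' (Sum.elim q.1 q.2)) true ≤ (n + A.card : ℕ) ∧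
          qI (fmW k k' t D D' (Sum.elim q.1 q.2)) false ≤ (n' + A'.card : ℕ) ∧
          cntI (fmW k k' t D D' (Sum.elim q.1 q.2)) := by
        by_contra hf
        exact left_ne_zero_of_mul h1 (if_neg hf)
      have h3 : (∑ i, hl6 true (fmW k k' t D D' (Sum.elim q.1 q.2) i)) + A.card ≤
            ∑ i, sat6 true (fmW k k' t D D' (Sum.elim q.1 q.2) i) ∧
          (∑ i, hl6 false (fmW k k' t D D' (Sum.elim q.1 q.2) i)) + A'.card ≤
            ∑ i, sat6 false (fmW k k' t D D' (Sum.elim q.1 q.2) i) := by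
        by_contra hf
        exact right_ne_zero_of_mul h1 (if_neg hf)
      rw [c1, c2, s1, s2] at h3
      rw [q1, q2] at h2
      obtain ⟨h4, h5, _⟩ := h2
      refine hC ?_
      rw [hn, hn']
      refine ⟨⟨by omega, by omega⟩, by omega, by omega⟩
    simp only [e1, integral_zero, mul_zero]

/-- **the right side of the exact identity as a sum of terms** -/
theorem exR_word (hc : ∑ i, c3 (k i) ≤ n) (hc' : ∑ i, c3 (k' i) ≤ n')
    (hN : 2 * (strS k).card ≤ N) (hN' : 2 * (strS k').card ≤ N)
    (hw : WordW c k k' t Z P ζ ρ xl W b d b' d' F E F' E') :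
    c * exR xl l W b d b' d' F E F' E' (nA n k) (nA n' k') =
      ∑ D : Finset (StrT k), ∑ D' : Finset (StrT k'), ∑ h ∈ range (N + 1), ∑ h' ∈ range (N + 1),
        ∑ A : Finset (ν true), ∑ A' : Finset (ν false),
          trW Z P ζ ρ n n' k k' t D D' A A' h h' := by
  have hS : ∀ {M r : ℕ} (g : ℕ → ℂ), M ≤ N → (∀ h, M < h → g h = 0) →
      ∑ h ∈ range (M + 1), g h = ∑ h ∈ range (N + 1), g h := by
    intro M _ g hM hg
    refine sum_subset (fun h hh => ?_) fun h _ hh => hg h ?_
    · rw [mem_range] at hh ⊢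
      omega
    · rw [mem_range, not_lt] at hh
      omega
  unfold exR
  rw [sum_glu, mul_sum]
  refine sum_congr rfl fun D _ => ?_
  have e0 : ∀ A : Finset (ν true), (∑ X' ∈ (univ : Finset (StrT k' ⊕ₗ ν false)).powerset,
      ∑ h ∈ range (2 * Fintype.card (StrT k') + 1), ∑ h' ∈ range (2 * Fintype.card (StrT k) + 1),
      if ((glu D A).card + h ≤ 2 * Fintype.card (StrT k') ∧
          2 * Fintype.card (StrT k') ≤ nA n k + (glu D A).card + h) ∧
        (X'.card + h' ≤ 2 * Fintype.card (StrT k) ∧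
          2 * Fintype.card (StrT k) ≤ nA n' k' + X'.card + h') then
        (-1 : ℂ) ^ (h + h') * TH xl l W b d (glu D A) b' d' X' F E F' E' h h'
          (nA n k + (glu D A).card + h - 2 * Fintype.card (StrT k'))
          (nA n' k' + X'.card + h' - 2 * Fintype.card (StrT k)) else 0) =
      ∑ D' : Finset (StrT k'), ∑ h ∈ range (N + 1), ∑ h' ∈ range (N + 1),
        ∑ A' : Finset (ν false),
      if ((glu D A).card + h ≤ 2 * Fintype.card (StrT k') ∧
          2 * Fintype.card (StrT k') ≤ nA n k + (glu D A).card + h) ∧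
        ((glu D' A').card + h' ≤ 2 * Fintype.card (StrT k) ∧
          2 * Fintype.card (StrT k) ≤ nA n' k' + (glu D' A').card + h') then
        (-1 : ℂ) ^ (h + h') * TH xl l W b d (glu D A) b' d' (glu D' A') F E F' E' h h'
          (nA n k + (glu D A).card + h - 2 * Fintype.card (StrT k'))
          (nA n' k' + (glu D' A').card + h' - 2 * Fintype.card (StrT k)) else 0 := by
    intro A
    rw [sum_glu]
    refine sum_congr rfl fun D' _ => ?_
    rw [sum_comm]
    have e1 : ∀ A' : Finset (ν false),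
      (∑ h ∈ range (2 * Fintype.card (StrT k') + 1), ∑ h' ∈ range (2 * Fintype.card (StrT k) + 1),
      if ((glu D A).card + h ≤ 2 * Fintype.card (StrT k') ∧
          2 * Fintype.card (StrT k') ≤ nA n k + (glu D A).card + h) ∧
        ((glu D' A').card + h' ≤ 2 * Fintype.card (StrT k) ∧
          2 * Fintype.card (StrT k) ≤ nA n' k' + (glu D' A').card + h') then
        (-1 : ℂ) ^ (h + h') * TH xl l W b d (glu D A) b' d' (glu D' A') F E F' E' h h'
          (nA n k + (glu D A).card + h - 2 * Fintype.card (StrT k'))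
          (nA n' k' + (glu D' A').card + h' - 2 * Fintype.card (StrT k)) else 0) =
      ∑ h ∈ range (N + 1), ∑ h' ∈ range (N + 1),
      if ((glu D A).card + h ≤ 2 * Fintype.card (StrT k') ∧
          2 * Fintype.card (StrT k') ≤ nA n k + (glu D A).card + h) ∧
        ((glu D' A').card + h' ≤ 2 * Fintype.card (StrT k) ∧
          2 * Fintype.card (StrT k) ≤ nA n' k' + (glu D' A').card + h') then
        (-1 : ℂ) ^ (h + h') * TH xl l W b d (glu D A) b' d' (glu D' A') F E F' E' h h'
          (nA n k + (glu D A).card + h - 2 * Fintype.card (StrT k'))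
          (nA n' k' + (glu D' A').card + h' - 2 * Fintype.card (StrT k)) else 0 := by
      intro A'
      rw [hS (r := 0) _ (by rw [card_StrT]; exact hN') fun h hh => ?_]
      · refine sum_congr rfl fun h _ => hS (r := 0) _ (by rw [card_StrT]; exact hN) fun h' hh' => ?_
        rw [if_neg]
        intro hc
        omega
      · refine sum_eq_zero fun h' _ => ?_
        rw [if_neg]
        intro hc
        omega
    rw [sum_comm]
    rw [sum_congr rfl fun A' _ => e1 A', sum_comm]
    refine sum_congr rfl fun h _ => ?_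
    rw [sum_comm]
  rw [sum_congr rfl fun A _ => e0 A, sum_comm, mul_sum]
  refine sum_congr rfl fun D' _ => ?_
  rw [sum_comm, mul_sum]
  refine sum_congr rfl fun h _ => ?_
  rw [sum_comm, mul_sum]
  refine sum_congr rfl fun h' _ => ?_
  rw [mul_sum]
  refine sum_congr rfl fun A _ => ?_
  rw [mul_sum]
  exact sum_congr rfl fun A' _ => term_word hc hc' hw D D' A A' h h'

/-- the insertion of the class does not depend on the heights and lines of the free holes -/
theorem psE_fmW {a a' : ℕ} (D : Finset (StrT k)) (D' : Finset (StrT k')) (A : Finset (ν true))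
    (A' : Finset (ν false)) (y y₂ : Fin a ⊕ Fin a' → Bool × ℝ) :
    psE P ζ A A' (fmW k k' t D D' y) = psE P ζ A A' (fmW k k' t D D' y₂) := by
  have hD := sub_strS D
  have hD' := sub_strS D'
  have hl : ∀ r, ∑ i, hl6 r (fmW k k' t D D' y i) = ∑ i, hl6 r (fmW k k' t D D' y₂ i) := fun r => by
    rw [show (∑ i, hl6 r (fmW k k' t D D' y i)) = _ from hl_fmS (t := t) (y := y) hD hD' r,
      show (∑ i, hl6 r (fmW k k' t D D' y₂ i)) = _ from hl_fmS (t := t) (y := y₂) hD hD' r]
  have hs : ∀ r, ∑ i, sat6 r (fmW k k' t D D' y i) = ∑ i, sat6 r (fmW k k' t D D' y₂ i) := fun r => by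
    rw [show (∑ i, sat6 r (fmW k k' t D D' y i)) = _ from sat_fmS (t := t) (y := y) r,
      show (∑ i, sat6 r (fmW k k' t D D' y₂ i)) = _ from sat_fmS (t := t) (y := y₂) r]
  have hg : gHI P (fmW k k' t D D' y) = gHI P (fmW k k' t D D' y₂) := by
    funext s h
    exact (gHI_fmS P y s h).trans (gHI_fmS P y₂ s h).symm
  unfold psE
  rw [hl, hl, hs, hs, hg]

/-- integrability over the free holes of the terms of the class (lines fixed) -/
def IntW (Z : Bool → Option O3 → ℂ → ℂ) (P : Par6) (ζ : ∀ s, ν s → ℂ) (n n' : ℕ)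
    (k : Fin p → O3) (k' : Fin p' → O3) (t : Fin p ⊕ Fin p' → ℝ) : Prop :=
  ∀ (A : Finset (ν true)) (A' : Finset (ν false)) (D : Finset (StrT k)) (D' : Finset (StrT k'))
    (a a' : ℕ) (s : Fin a ⊕ Fin a' → Bool), Integrable (fun u : Fin a ⊕ Fin a' → ℝ =>
      fI (ZE Z ζ A A') P l (n + A.card) (n' + A'.card)
        (fmW k k' t D D' fun j => (s j, u j))) (Measure.pi fun _ => volume)

theorem integrable_tr (hI : IntW Z P ζ n n' k k' t) (D : Finset (StrT k)) (D' : Finset (StrT k'))
    (A : Finset (ν true)) (A' : Finset (ν false)) (a a' : ℕ) :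
    Integrable (fun y : Fin a ⊕ Fin a' → Bool × ℝ => kaE ζ ρ A A' *
      (fI (ZE Z ζ A A') P l (n + A.card) (n' + A'.card) (fmW k k' t D D' y) *
        psE P ζ A A' (fmW k k' t D D' y))) (Measure.pi fun _ => lM) := by
  refine (integrable_pi_lM fun s => ?_).const_mul _
  have e : ∀ u : Fin a ⊕ Fin a' → ℝ, fI (ZE Z ζ A A') P l (n + A.card) (n' + A'.card)
        (fmW k k' t D D' fun j => (s j, u j)) * psE P ζ A A' (fmW k k' t D D' fun j => (s j, u j)) =
      fI (ZE Z ζ A A') P l (n + A.card) (n' + A'.card) (fmW k k' t D D' fun j => (s j, u j)) *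
        psE P ζ A A' (fmW k k' t D D' fun j => (s j, 0)) := fun u => by
    rw [psE_fmW D D' A A' (fun j => (s j, u j)) fun j => (s j, 0)]
  simp only [e]
  exact (hI A A' D D' a a' s).mul_const _

/-- **the sum over the lines of the free holes** -/
theorem word_rhs (hI : IntW Z P ζ n n' k k' t) (D : Finset (StrT k)) (D' : Finset (StrT k'))
    (a a' : ℕ) :
    (∑ s : Fin a → Bool, ∑ s' : Fin a' → Bool, mI6 (labW (kD k D) (kD k' D') s s') *
      ∫ h : Fin a ⊕ Fin a' → ℝ, TZ Z P ζ ρ n n' ((Fin p ⊕ Fin p') ⊕ (Fin a ⊕ Fin a'))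
        (fun i => xo (labW (kD k D) (kD k' D') s s' i) (Sum.elim t h i))
        ∂(Measure.pi fun _ => volume)) =
      (1 / 2 : ℂ) ^ ((strS k).card + (strS k').card) *
        ∑ A : Finset (ν true), ∑ A' : Finset (ν false), ∫ y : Fin a ⊕ Fin a' → Bool × ℝ,
          kaE ζ ρ A A' * (fI (ZE Z ζ A A') P l (n + A.card) (n' + A'.card) (fmW k k' t D D' y) *
            psE P ζ A A' (fmW k k' t D D' y)) ∂(Measure.pi fun _ => lM) := by
  have h1 : (∑ A : Finset (ν true), ∑ A' : Finset (ν false), ∫ y : Fin a ⊕ Fin a' → Bool × ℝ,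
          kaE ζ ρ A A' * (fI (ZE Z ζ A A') P l (n + A.card) (n' + A'.card) (fmW k k' t D D' y) *
            psE P ζ A A' (fmW k k' t D D' y)) ∂(Measure.pi fun _ => lM)) =
      ∫ y : Fin a ⊕ Fin a' → Bool × ℝ, TZ Z P ζ ρ n n' ((Fin p ⊕ Fin p') ⊕ (Fin a ⊕ Fin a'))
        (fmW k k' t D D' y) ∂(Measure.pi fun _ => lM) := by
    unfold TZ
    rw [integral_finsetSum _ fun A _ => integrable_finsetSum _ fun A' _ =>
      integrable_tr hI D D' A A' a a']
    refine sum_congr rfl fun A _ => ?_
    rw [integral_finsetSum _ fun A' _ => integrable_tr hI D D' A A' a a']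
  have h2 : Integrable (fun y : Fin a ⊕ Fin a' → Bool × ℝ =>
      TZ Z P ζ ρ n n' ((Fin p ⊕ Fin p') ⊕ (Fin a ⊕ Fin a')) (fmW k k' t D D' y))
      (Measure.pi fun _ => lM) :=
    integrable_finsetSum _ fun A _ => integrable_finsetSum _ fun A' _ =>
      integrable_tr hI D D' A A' a a'
  rw [h1, Pool.Agent.PHK.integral_pi_lM h2,
    ← (Equiv.sumArrowEquivProdArrow (Fin a) (Fin a') Bool).symm.sum_comp, Fintype.sum_prod_type,
    mul_sum]
  refine sum_congr rfl fun s _ => ?_
  rw [mul_sum]
  refine sum_congr rfl fun s' _ => ?_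
  rw [mI6_labW]
  congr 1
  refine integral_congr_ae (Filter.Eventually.of_forall fun u => ?_)
  show TZ Z P ζ ρ n n' _ _ = TZ Z P ζ ρ n n' _ _
  rw [← famW_eq]
  rfl

/-- **the identity of one word from the exact identity and the weights** -/
theorem wordIdZ_of {ln : O3 → ℝ} {x0 : ℝ} (hc : ∑ i, c3 (k i) ≤ n) (hc' : ∑ i, c3 (k' i) ≤ n')
    (hN : 2 * (strS k).card ≤ N) (hN' : 2 * (strS k').card ≤ N)
    (hI : IntW Z P ζ n n' k k' t)
    (hw : WordW (((∏ i, wt (ob3 (k i))) * (∏ i, wt (ob3 (k' i)))) *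
      Fg (o3 k k') (h3 (Z true) (Z false) k k')
        (pos (Sum.elim (fun i => ln (k i)) (fun i => ln (k' i))) t))
      k k' t Z P ζ ρ xl W b d b' d' F E F' E')
    (hex : gas (nA n k) (nA n' k') x0
          (fld (o3 k k') (pos (Sum.elim (fun i => ln (k i)) (fun i => ln (k' i))) t) (true, .A)
            (Z true none))
          (fld (o3 k k') (pos (Sum.elim (fun i => ln (k i)) (fun i => ln (k' i))) t) (false, .A)
            (Z false none)) = exR xl l W b d b' d' F E F' E' (nA n k) (nA n' k')) :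
    WordIdZ Z P ζ ρ ln x0 n n' N k k' t := by
  unfold WordIdZ WordIdT
  rw [hex, ← mul_assoc, exR_word hc hc' hN hN' hw, sum_strS]
  refine sum_congr rfl fun D _ => ?_
  rw [sum_strS]
  refine sum_congr rfl fun D' _ => sum_congr rfl fun h _ => sum_congr rfl fun h' _ => ?_
  rw [show (∑ s : Fin h → Bool, ∑ s' : Fin h' → Bool, _) = _ from word_rhs (ρ := ρ) hI D D' h h',
    mul_sum, mul_sum]
  refine sum_congr rfl fun A _ => ?_
  rw [mul_sum, mul_sum]
  rfl

end main

end PHK

end
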