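import Pool.Agent.PHK.WordG
import Pool.Agent.PHK.HostY
import Pool.Agent.PHK.LgZL

/-!
# The word identities (P): almost all heights

* **`wordZ_cl`**: from the class data (`ClG`) and the integrability of the terms.
-/

set_option autoImplicit false
set_option linter.unusedSectionVars false
set_option linter.unusedVariables false

noncomputable section

open Complex MeasureTheory Finset
open scoped Real ENNReal Nat

namespace PHK

open NUO NUP1 NUP1S NUP1S.Mg NUP1S.Ab NUP1S.AbG NURow NUP1S.HF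
open NUP1.Bd (wt Ob qg)
open Pool.Agent.PHK (lM lG lK)

variable {p p' : ℕ} {k : Fin p → O3} {k' : Fin p' → O3}
  {ν : Bool → Type} [∀ s, Fintype (ν s)] [∀ s, LinearOrder (ν s)]
  {Z : Bool → Option O3 → ℂ → ℂ} {P : Par6} {ζ ρ : ∀ s, ν s → ℂ} {Ei : Bool → ℂ → ℂ} {n n' : ℕ}
  {a b₂ κ κZ : ℝ} {Q : ℤ}

/-- **the word identity for almost all heights** -/
theorem wordZ_cl (hP : GoodP6 P) (h : ClG Z P a b₂ κ κZ Q ζ ρ Ei) (hκ : 0 < κ) (hκ' : κZ < 6)
    (hI : ∀ (A : Finset (ν true)) (A' : Finset (ν false)) {ι : Type} [Fintype ι]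
      (K : ι → Bool × Kd6), Integrable (fun t : ι → ℝ =>
        fI (ZE Z ζ A A') P l (n + A.card) (n' + A'.card) fun i => xo (K i) (t i))
        (Measure.pi fun _ => volume))
    (hn : (n : ℤ) = n' + Q) (hc : ∑ i, c3 (k i) ≤ n) (hc' : ∑ i, c3 (k' i) ≤ n') :
    ∀ᵐ t : Fin p ⊕ Fin p' → ℝ ∂(Measure.pi fun _ => volume),
      WordIdZ Z P ζ ρ (lnK P) (51 / 100 * l) n n' (2 * (n + n')) k k' t := by
  have hl : 0 < l := Bd.l_pos
  have e1 := hP.e13
  have e2 := hP.j1e
  have e3 := hP.ej2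
  have e4 := hP.j1
  have hy1 : (1 - P.e) * l < ((1 - P.e) * l + (1 - P.j1) * l) / 2 := by nlinarith
  have hy2 : ((1 - P.e) * l + (1 - P.j1) * l) / 2 < (1 - P.j1) * l := by nlinarith
  have hy3 : (1 - P.j1) * l < l := by nlinarith
  have M := geoG hP h.a0 h.a1 h.a2 hy1 hy2.le (hy2.trans hy3) le_rfl h.b1 h.b3
  have hx := xG_hi hP
  have k1 : κZ < (κZ + 6) / 2 := by linarith
  have k2 : (κZ + 6) / 2 < 6 := by linarith
  have hline : ∀ s (u : ℂ), u.re = (1 - P.e) * l → Z s none u * Ei s u = ∏ j, (u - ζ s j) :=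
    fun s u hu => (h.cl s).ge u
      ⟨by rw [hu]; exact (xG_lo P).trans hx, by rw [hu]; exact hy1.trans (hy2.trans hy3)⟩
      ⟨by rw [hu]; exact h.a1.trans (by nlinarith), by rw [hu]; exact lt_trans (by nlinarith) h.b1⟩
  filter_upwards [ae_inj, ae_bW_ne (ζ true), ae_bW_ne (ζ false), intW_ae hI k k'] with t ht hz hz' hi
  have S := sp6_true (k := k) (k' := k') hP M h.a0.le hx hy1 le_rfl h.b2 (h.cl true) k1 ht hz
  have S' := sp6_false (k := k) (k' := k') hP M h.a0.le hx hy1 le_rfl h.b2 (h.cl false) k1 ht hz'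
  exact wordIdZ_fin hc hc' hi (fun _ => rfl) (fun _ => rfl) (fun _ => rfl) (fun _ => rfl) S S'
    (rb_true Z P k k' t ht) (rb_false Z P k k' t ht)
    (rd_true Z P k k' t ζ ρ hP ht (hline true) (h.rho true) (h.cl true).st hz)
    (rd_false Z P k k' t ζ ρ hP ht (hline false) (h.rho false) (h.cl false).st hz')
    (hex_word hP ht M hy1 (hy2.trans hy3).le S S' hκ k2 (fun s => (h.cl s).gm) h.dA h.bA hc hc' hn)

end PHK

end
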