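import Pool.Agent.PHK.WordTh0

/-!
# The word identities of the classes without zeros

* **`wordP_base`** : the word identities, any windows.
-/

set_option autoImplicit false
set_option linter.unusedSectionVars false
set_option linter.unusedVariables false

noncomputable section

open Complex MeasureTheory Finset
open scoped Real ENNReal Nat

namespace PHK

open NUO NUP1 NUP1S NUP1S.Mg NUP1S.Ab NUP1S.AbG NURow NUP1S.HF
open NUP1.Bd (wt Ob qg)

/-- **the word identities of the classes without zeros**, any windows -/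
theorem wordP_base {Z : Bool → Option O3 → ℂ → ℂ} {P : Par6} {κ κ' del : ℝ} {n n' : ℕ}
    (hP : GoodP6 P) (hm : ∀ s k, Measurable (Z s k)) (hD : DecQ6 Z P κ κ' ((n : ℝ) - n'))
    (hA : ∀ s, DecOn (κ + 2 * ((n : ℝ) - n') * sc (s, Ob.A)) (Set.Icc (51 / 100 * l) l) (Z s none))
    (hdel : 0 < del) (hF : DifZ6 Z P (51 / 100 * l) del) : WordP Z P (51 / 100 * l) n n' := by
  intro p p' k k' hc hc'
  set Q : ℤ := (n : ℤ) - n' with hQ
  have hn : (n : ℤ) = n' + Q := by
    rw [hQ]
    ring
  have eQ : (n : ℝ) - n' = Q := by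
    rw [hQ]
    push_cast
    ring
  obtain ⟨a, b₂, h⟩ := ClG.of_base hP (fun s => hm s none) hA hD.H hdel hF
  have h' := h
  rw [eQ] at h'
  have key := wordZ_cl (n := n) (n' := n') (k := k) (k' := k') hP h' hD.kpos hD.k6 (fun A A' ι _ K => ?_) hn hc hc'
  · filter_upwards [key] with t ht
    exact wordId6_of_Z ht
  · have eA : A = ∅ := Finset.eq_empty_of_isEmpty A
    have eA' : A' = ∅ := Finset.eq_empty_of_isEmpty A'
    subst eA eA'
    have e : (fun t : ι → ℝ => fI (ZE Z (fun _ j => (Empty.elim j : ℂ)) (∅ : Finset Empty) (∅ : Finset Empty)) P l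
        (n + (∅ : Finset Empty).card) (n' + (∅ : Finset Empty).card) fun i => xo (K i) (t i)) =
        fun t => fI Z P l n n' fun i => xo (K i) (t i) := by
      funext t
      have e1 : ZE Z (fun _ j => (Empty.elim j : ℂ)) (∅ : Finset Empty) (∅ : Finset Empty) = Z := by
        funext s k z
        simp [ZE]
      rw [e1]
      simp
    exact e ▸ integrable_fIL hP hm (hD.toL hP) K

end PHK

end
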