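import Pool.Agent.PHK.WordI0
import Pool.Agent.PHK.WordH
import Pool.Agent.PHK.WordO

/-!
# The particle-hole form (P): the weight of one family

* **`wI_W`** : the weight of the family of a word.
-/

set_option autoImplicit false
set_option linter.unusedSectionVars false

noncomputable section

open Complex MeasureTheory Finset
open scoped Real ENNReal

namespace PHK

open NUO NUP1 NUP1S NUP1S.Mg NUP1S.Ab NUP1S.AbG NURow
open NUP1.Bd (wt Ob)
open Pool.Agent.PHK (lM lG lK)
open Pool.Agent.PHD (QP xP)
open NUP1.Bd (qg)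

section word

variable (Z : Bool → Option O3 → ℂ → ℂ) (P : Par6) {p p' a b : ℕ} (k : Fin p → O3) (k' : Fin p' → O3)
  (t : Fin p ⊕ Fin p' → ℝ) (D : Finset {i : Fin p // k i = .S}) (D' : Finset {i : Fin p' // k' i = .S})
  (y : Fin a ⊕ Fin b → Bool × ℝ)

/-- **the weight of the family** -/
theorem wI_W : (1 / 2 : ℂ) ^ ((strS k).card + (strS k').card) *
    wI Z P (fmW k k' t D D' y) =
      ((∏ i, wt (ob3 (k i))) * ∏ i, wt (ob3 (k' i))) *
        Fg (o3 k k') (h3 (Z true) (Z false) k k')
          (pos (Sum.elim (fun i => lnK P (k i)) (fun i => lnK P (k' i))) t) *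
        clW Z P k k' t D D' * ((-1) ^ (a + b) * hlW Z P k k' t D D' y) :=
  wI_Wo Z P k k' t D D' y (hole_W Z P k k' t D D' y) (obj_W Z P k k' t D D' y)

end word

end PHK

end
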