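import Pool.Agent.PHK.WordS

/-!
# The particle-hole form (P): one word with holes at the zeros of the class

* `PiZ`: the factor of the holes at the zeros on a quantum; `ZE_none`, **`fW_ZE`**, `rbW_ZE`, `rdW_ZE`,
  **`Fg_ZE`**, `nodW_mul`;
* `PP_glu`, **`gluW_glu`**, **`xqg_glu`**: weights of the glued holes and the zeros.
-/

set_option autoImplicit false
set_option linter.unusedSectionVars false
set_option linter.unusedVariables false

noncomputable section

open Complex MeasureTheory Finset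
open scoped Real ENNReal Nat

namespace PHK.WZ

open NUO NUP1 NUP1S NUP1S.Mg NUP1S.Ab NUP1S.AbG NURow
open NUP1.Bd (wt Ob qg)
open Pool.Agent.PHK (lM lG lK)

/-! ### functions of the class with holes at the zeros -/

section ze

variable {ν : Bool → Type} [∀ s, Fintype (ν s)] [∀ s, LinearOrder (ν s)]
  (Z : Bool → Option O3 → ℂ → ℂ) (P : Par6) {p p' : ℕ} (k : Fin p → O3) (k' : Fin p' → O3)
  (t : Fin p ⊕ Fin p' → ℝ) (ζ : ∀ s, ν s → ℂ) (A : Finset (ν true)) (A' : Finset (ν false))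

/-- the factor of the holes at the zeros on a quantum of species `s` at `z` -/
def PiZ (s : Bool) (z : ℂ) : ℂ :=
  (∏ j ∈ A, PP true s (ζ true j - z)) * ∏ j ∈ A', PP false s (ζ false j - z)

theorem ZE_none (s : Bool) (z : ℂ) : ZE Z ζ A A' s none z = Z s none z * (PiZ ζ A A' s z)⁻¹ := rfl

theorem fW_ZE (s : Bool) (u : ℂ) :
    fW (ZE Z ζ A A') P k k' t s u = fW Z P k k' t s u * (PiZ ζ A A' s u)⁻¹ := by
  unfold fW fld
  rw [ZE_none]
  ring

theorem rbW_ZE (i : Fin p ⊕ Fin p') : rbW (ZE Z ζ A A') P k k' t i =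
    rbW Z P k k' t i * (PiZ ζ A A' (!(sW i)) (bW P k k' t i))⁻¹ := by
  unfold rbW
  rw [ZE_none]
  ring

theorem rdW_ZE (i : Fin p ⊕ Fin p') : rdW (ZE Z ζ A A') P k k' t i =
    rdW Z P k k' t i * (PiZ ζ A A' (sW i) (bW P k k' t i))⁻¹ := by
  unfold rdW
  rw [ZE_none]
  ring

/-- the weight of the objects -/
theorem Fg_ZE (z : Fin p ⊕ Fin p' → ℂ) :
    Fg (o3 k k') (h3 (ZE Z ζ A A' true) (ZE Z ζ A A' false) k k') z =
      Fg (o3 k k') (h3 (Z true) (Z false) k k') z *
        ∏ i, ((∏ j ∈ A, gz (true, .A) (o3 k k' i) (ζ true j - z i)) *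
          ∏ j ∈ A', gz (false, .A) (o3 k k' i) (ζ false j - z i))⁻¹ := by
  unfold Fg
  have e : ∀ i, h3 (ZE Z ζ A A' true) (ZE Z ζ A A' false) k k' i (z i) =
      h3 (Z true) (Z false) k k' i (z i) *
        ((∏ j ∈ A, gz (true, .A) (o3 k k' i) (ζ true j - z i)) *
          ∏ j ∈ A', gz (false, .A) (o3 k k' i) (ζ false j - z i))⁻¹ := by
    intro i
    rcases i with i | i <;> rfl
  simp only [e]
  rw [Finset.prod_mul_distrib]
  ring

end ze

/-- the weight of the double points is quadratic in the values -/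
theorem nodW_mul {ι : Type} [LinearOrder ι] [Fintype ι] (b rb f : ι → ℂ) :
    nodW b (fun i => rb i * f i) = nodW b rb * (∏ i, f i) ^ 2 := by
  unfold nodW
  have e : (∏ i, (kp * (rb i * f i) ^ 2)) = (∏ i, (kp * rb i ^ 2)) * (∏ i, f i) ^ 2 := by
    rw [← Finset.prod_pow, ← Finset.prod_mul_distrib]
    exact Finset.prod_congr rfl fun i _ => by ring
  rw [e]
  ring

/-- the weight of the glued holes -/
theorem gluW_mul {ι ι' ν : Type} [Fintype ι] [Fintype ι'] [LinearOrder ι] [LinearOrder ι']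
    [LinearOrder ν] (b : ι → ℂ) (b' : ι' → ℂ) (d rd f : ν → ℂ) (D : Finset ν) :
    gluW b b' d (fun j => rd j * f j) D = gluW b b' d rd D * (∏ j ∈ D, f j)⁻¹ := by
  unfold gluW
  have e : (∏ j ∈ D, (-kp * loc b (d j) / (rd j * f j * (∏ i, q (d j - b i) ^ 2) *
      ∏ i, qg (d j - b' i) ^ 2))) =
      (∏ j ∈ D, (-kp * loc b (d j) / (rd j * (∏ i, q (d j - b i) ^ 2) *
        ∏ i, qg (d j - b' i) ^ 2))) * (∏ j ∈ D, f j)⁻¹ := by
    rw [← Finset.prod_inv_distrib, ← Finset.prod_mul_distrib]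
    refine Finset.prod_congr rfl fun j _ => ?_
    rw [div_eq_mul_inv, div_eq_mul_inv]
    simp only [mul_inv]
    ring
  rw [e]
  ring

/-! ### strings and zeros together -/

section glu

variable {p : ℕ} {k : Fin p → O3} {V : Type} [Fintype V] [LinearOrder V]

/-- pairs of glued holes and zeros -/
theorem PP_glu (D : Finset (StrT k)) (A : Finset V) (f : StrT k ⊕ₗ V → StrT k ⊕ₗ V → ℂ) :
    Pool.Agent.PHD.PP f (glu D A) =
      Pool.Agent.PHD.PP (fun i j => f (toLex (.inl i)) (toLex (.inl j))) D *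
        Pool.Agent.PHD.PP (fun i j => f (toLex (.inr i)) (toLex (.inr j))) A *
          ∏ i ∈ D, ∏ j ∈ A, f (toLex (.inl i)) (toLex (.inr j)) := by
  have h : ∀ {κ : Type} [LinearOrder κ] (g : κ → κ → ℂ) (S : Finset κ),
      Pool.Agent.PHD.PP g S = ∏ i ∈ S, ∏ j ∈ S, if i < j then g i j else 1 := by
    intro κ _ g S
    unfold Pool.Agent.PHD.PP
    rw [Finset.prod_filter, Finset.prod_product]
  rw [h, h, h, prod_glu]
  have e1 : ∀ i : StrT k, (∏ j ∈ glu D A, if toLex (Sum.inl i) < j then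
      f (toLex (.inl i)) j else 1) =
      (∏ j ∈ D, if i < j then f (toLex (.inl i)) (toLex (.inl j)) else 1) *
        ∏ j ∈ A, f (toLex (.inl i)) (toLex (.inr j)) := by
    intro i
    rw [prod_glu]
    refine congrArg₂ (· * ·) (Finset.prod_congr rfl fun j _ =>
      if_congr Sum.Lex.inl_lt_inl_iff rfl rfl) (Finset.prod_congr rfl fun j _ =>
        if_pos (Sum.Lex.inl_lt_inr _ _))
  have e2 : ∀ i : V, (∏ j ∈ glu D A, if toLex (Sum.inr i) < j then
      f (toLex (.inr i)) j else 1) =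
      ∏ j ∈ A, if i < j then f (toLex (.inr i)) (toLex (.inr j)) else 1 := by
    intro i
    rw [prod_glu, Finset.prod_eq_one, one_mul]
    · exact Finset.prod_congr rfl fun j _ => if_congr Sum.Lex.inr_lt_inr_iff rfl rfl
    · exact fun j _ => if_neg (Sum.Lex.not_inr_lt_inl)
  simp only [e1, e2]
  rw [Finset.prod_mul_distrib]
  ring

variable {ι ι' : Type} [Fintype ι] [Fintype ι'] [LinearOrder ι] [LinearOrder ι']

/-- **the weight of the glued holes and of the zeros of a species** -/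
theorem gluW_glu (b : ι → ℂ) (b' : ι' → ℂ) (d rd : StrT k ⊕ₗ V → ℂ) (D : Finset (StrT k))
    (A : Finset V) : gluW b b' d rd (glu D A) =
      gluW b b' (fun i => d (toLex (.inl i))) (fun i => rd (toLex (.inl i))) D *
        gluW b b' (fun j => d (toLex (.inr j))) (fun j => rd (toLex (.inr j))) A *
          ∏ i ∈ D, ∏ j ∈ A, q (d (toLex (.inl i)) - d (toLex (.inr j))) := by
  unfold gluW
  rw [prod_glu, PP_glu]
  ring

end glu

section glu2

variable {p p' : ℕ} {k : Fin p → O3} {k' : Fin p' → O3} {V V' : Type} [Fintype V] [LinearOrder V]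
  [Fintype V'] [LinearOrder V']

/-- **the glued holes and the zeros of the two species** -/
theorem xqg_glu (f : StrT k ⊕ₗ V → StrT k' ⊕ₗ V' → ℂ) (D : Finset (StrT k)) (A : Finset V)
    (D' : Finset (StrT k')) (A' : Finset V') :
    (∏ j ∈ glu D A, ∏ j' ∈ glu D' A', f j j') =
      (∏ j ∈ D, ∏ j' ∈ D', f (toLex (.inl j)) (toLex (.inl j'))) *
        (∏ j ∈ D, ∏ j' ∈ A', f (toLex (.inl j)) (toLex (.inr j'))) *
        (∏ j ∈ A, ∏ j' ∈ D', f (toLex (.inr j)) (toLex (.inl j'))) *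
        ∏ j ∈ A, ∏ j' ∈ A', f (toLex (.inr j)) (toLex (.inr j')) := by
  rw [prod_glu]
  simp only [prod_glu]
  rw [Finset.prod_mul_distrib, Finset.prod_mul_distrib]
  ring

end glu2

end PHK.WZ

end
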