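import Pool.Agent.PLX.PB.ZFamA
import Pool.Agent.PHK.GOA

/-!
# (P): the family of the first Ward identity, analyticity and bounds

As `PLX/PB/ZFamA`, with the cutoff of the strings `phX (AmT T1 η0 X θ)`: the exponent of the factor is
transported by the field `X`.

* `KO6`: the outer strips (`T` inside the window of the cut); `Bx X`: a bound of the field;
* `ZX6`: the one body functions, `ZP6`: their product form; **`ZX6_eq`**;
* **`diff_ZP6`**: joint analyticity in `(θ, u)`; **`ub_ZP6`**: uniform bounds.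
-/

set_option autoImplicit false
set_option linter.unusedSectionVars false
set_option linter.unusedVariables false

noncomputable section

open Complex MeasureTheory Filter Topology
open PLX (Fil)

namespace PBZF.PLX

open NUP1 NUP1.Bd NURow
open NUP1S hiding R0
open PBX (XX ph gP Lg ph_gP gP_nil)
open PBFar (wE)
open PBFar.PLX (W0 R0 cutT)
open PBForce (rowB RRB rwB)
open PHK (KWo KW_win GAc GA omX phX gOA ph_gOA omA pP AmT FdS gac_AmT ga_AmT diff_AmT norm_omX_le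
  norm_omX_vac)
open Pool.Agent.PLX (XXU RRU TTU TTU_eq yqn yq rwq prod_rwq prod_ofFn_rwq cast_cond forall_rwq ub_RRU)

/-! ## strips -/

/-- outer strips -/
def KO6 : Option O3 → Set ℝ
  | some .T => Set.Icc (-(3 / 4) * l) (-(39 / 80) * l)
  | k => KO k

theorem KO6_sub {k : Option O3} {r : ℝ} (h : r ∈ KO6 k) : r ∈ KO k := by
  have hl := Bd.l_pos
  rcases k with _ | (_ | _ | _)
  · exact h
  · exact h
  · exact h
  · exact ⟨h.1, by have := h.2; linarith⟩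

theorem KO6_compact (k : Option O3) : IsCompact (KO6 k) := by
  rcases k with _ | (_ | _ | _)
  · exact KO_compact none
  · exact KO_compact (some .L)
  · exact KO_compact (some .S)
  · exact isCompact_Icc

theorem KO6_S {r : ℝ} (h : r ∈ KO6 (some .S)) : r ∈ KWo := by
  have hl := Bd.l_pos
  have e : NUP1.l = l := rfl
  obtain ⟨h1, h2⟩ := h
  constructor <;> linarith

theorem KO6_T {r : ℝ} (h : r ∈ KO6 (some .T)) : r ∈ KWo := by
  have hl := Bd.l_pos
  obtain ⟨h1, h2⟩ := h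
  constructor <;> linarith

/-! ## the field -/

open scoped Classical in
/-- a bound of the field on the strings -/
def Bx (X : ℂ → ℂ) : ℝ := if h : ∃ B, FdS B X then Classical.choose h else 0

/-- the field is admissible on the strings -/
def FdX (X : ℂ → ℂ) : Prop := ∃ B, FdS B X

theorem FdX.fd {X : ℂ → ℂ} (h : FdX X) : FdS (Bx X) X := by
  have h' : ∃ B, FdS B X := h
  unfold Bx
  rw [dif_pos h']
  exact Classical.choose_spec h'

theorem Bx_nonneg (X : ℂ → ℂ) : 0 ≤ Bx X := by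
  unfold Bx
  split_ifs with h
  · exact (Classical.choose_spec h).b0
  · exact le_rfl

/-! ## the cutoff of the strings -/

theorem phX_congr {A : ℂ → ℂ} {V W : List ℂ} {u : ℂ} (h : NUP1.phi (4 / 3) V u = NUP1.phi (4 / 3) W u) :
    phX A V u = phX A W u := by
  have e : pP V u = pP W u := by
    have h1 := PHK.phi_pP V u
    have h2 := PHK.phi_pP W u
    rw [h1, h2] at h
    exact sub_right_injective h
  unfold PHK.phX PHK.omX
  rw [h, e]

/-- the factor is uniformly bounded -/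
theorem ub_omX {Θ : Type*} {S : Set Θ} {K : Set ℝ} (hK : ∀ r ∈ K, r ∈ KWo) {C c : ℝ} (hC : 0 ≤ C)
    (hc : 0 ≤ c) {A : Θ → ℂ → ℂ} (hA : ∀ θ ∈ S, GAc C c (A θ)) {V : Θ → List ℂ}
    (h : UB S K (-(2 * (4 / 3))) fun θ u => NUP1.phi (4 / 3) (V θ) u) :
    UB S K 0 fun θ u => omX (A θ) (pP (V θ)) u := by
  obtain ⟨D, hD, h⟩ := h
  obtain ⟨T, hT⟩ : ∃ T, T = 3 / 8 * Real.log (5 * D + 1) := ⟨_, rfl⟩
  refine ⟨Real.exp (C * Real.exp (11 / 2 * T) * (1 + D)) + 1, by positivity, fun θ hθ z hz => ?_⟩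
  rw [zero_mul, Real.exp_zero, mul_one]
  have h1 := h θ hθ z hz
  have e1 : pP (V θ) z = 1 - NUP1.phi (4 / 3) (V θ) z := by
    rw [PHK.phi_pP, sub_sub_cancel]
  rcases le_total |z.im| T with hi | hi
  · have h2 : ‖NUP1.phi (4 / 3) (V θ) z‖ ≤ D := by
      refine h1.trans (mul_le_of_le_one_right hD (Real.exp_le_one_iff.2 ?_))
      have := abs_nonneg z.im
      linarith
    have h3 : ‖pP (V θ) z‖ ≤ 1 + D := by
      rw [e1]
      refine (norm_sub_le _ _).trans ?_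
      rw [norm_one]
      linarith
    have := norm_omX_le hC (hA θ hθ) (hK _ hz) h3 hi
    linarith
  · have h4 : D * Real.exp (-(2 * (4 / 3)) * |z.im|) ≤ 1 / 5 := by
      have h5 : Real.exp (-(2 * (4 / 3)) * |z.im|) ≤ (5 * D + 1)⁻¹ := by
        have h6 : Real.exp (-(2 * (4 / 3)) * |z.im|) ≤ Real.exp (-Real.log (5 * D + 1)) := by
          refine Real.exp_le_exp.2 ?_
          rw [hT] at hi
          linarith
        rw [Real.exp_neg, Real.exp_log (by positivity)] at h6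
        exact h6
      calc D * Real.exp (-(2 * (4 / 3)) * |z.im|) ≤ D * (5 * D + 1)⁻¹ :=
            mul_le_mul_of_nonneg_left h5 hD
        _ ≤ 1 / 5 := by
            rw [← div_eq_mul_inv, div_le_iff₀ (by positivity)]
            linarith
    have h7 : ‖pP (V θ) z - 1‖ ≤ 1 / 5 := by
      rw [e1, sub_sub_cancel_left, norm_neg]
      exact h1.trans h4
    have h8 := norm_omX_vac (hA θ hθ) (hK _ hz) h7
    have h9 : Real.exp (-(c * Real.exp (11 / 2 * |z.im|))) ≤ 1 := by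
      refine Real.exp_le_one_iff.2 ?_
      have : 0 ≤ c * Real.exp (11 / 2 * |z.im|) := by positivity
      linarith
    have h10 := Real.exp_pos (C * Real.exp (11 / 2 * T) * (1 + D))
    linarith

variable [Fil]

/-! ## names -/

/-- the one body functions -/
def ZX6 (c : Bool → ℂ) (b : ℝ) (a : ℕ) (z0 : ℂ) (η0 : ℝ) (v : Bool → Fin 2 → ℂ) (T1 : ℝ)
    (X : ℂ → ℂ) (θ : ℂ) (s : Bool) (k : Option O3) (u : ℂ) : ℂ :=
  XXU (c s) b (rwq (rwx a θ) s) (rwq (rwx a θ) (!s)) (gP b [vx η0 (v s) θ 0, vx η0 (v s) θ 1])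
    (gOA (AmT T1 η0 X θ) [] (rwq (rwx a θ) s)) (Lg z0 z0) (fun w => Lg z0 z0 w * Lg z0 z0 (w - l)) k u

/-- the cutoff of a kind -/
def cutZ6 (A : ℂ → ℂ) (s : Bool) (b : ℝ) (a : ℕ) (x : ℂ) (e : Fin 2 → ℂ) : Option O3 → ℂ → ℂ
  | some .S, u => phX A (R0 (Fil.n s) (Fil.n s * a) x) u
  | some .T, u => NUP1.phi b (W0 (Fil.n s) (Fil.n s * a) x e) u *
      NUP1.phi b (W0 (Fil.n s) (Fil.n s * a) x e) (u - l) - phX A (R0 (Fil.n s) (Fil.n s * a) x) u
  | _, u => NUP1.phi b (W0 (Fil.n s) (Fil.n s * a) x e) u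

/-- the product form -/
def ZP6 (c : Bool → ℂ) (b : ℝ) (a : ℕ) (z0 : ℂ) (η0 : ℝ) (v : Bool → Fin 2 → ℂ) (T1 : ℝ)
    (X : ℂ → ℂ) (θ : ℂ) (s : Bool) (k : Option O3) (u : ℂ) : ℂ :=
  rowB (c s) (Fil.n s) (Fil.n (!s)) (rwx a θ) (ob4 k) u *
    cutZ6 (AmT T1 η0 X θ) s b a (θ * I) (vx η0 (v s) θ) k u * one (Lg z0 z0) (ob4 k) u

/-! ## equality -/

theorem ph_R06 (A : ℂ → ℂ) (s : Bool) (a : ℕ) (θ u : ℂ) :
    ph (4 / 3) (rwq (rwx a θ) s) (gOA A [] (rwq (rwx a θ) s)) u =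
      phX A (R0 (Fil.n s) (Fil.n s * a) (θ * I)) u := by
  rw [ph_gOA]
  refine phX_congr ?_
  have h := ph_R0 s (4 / 3) a θ u
  rw [← h, phi_rwq, ofFn_rwx]
  unfold PBX.ph
  rw [mul_one]
  have h2 := ph_gP (4 / 3) (rwq (rwx a θ) s) [] u
  rw [phi_rwq, ofFn_rwx] at h2
  have e : ph (4 / 3) (rwq (rwx a θ) s) (gP (4 / 3) []) u = ph (4 / 3) (rwq (rwx a θ) s) (fun _ => 1) u :=
    rfl
  rw [e] at h2
  unfold PBX.ph at h2
  rw [mul_one] at h2
  rw [h2]

variable {c : Bool → ℂ} {b : ℝ} {a : ℕ} {z0 : ℂ} {η0 : ℝ} {v : Bool → Fin 2 → ℂ} {θ : ℂ} {T1 : ℝ}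
  {X : ℂ → ℂ}

/-- **the product form** -/
theorem ZX6_eq (hb : 0 < b) (hb' : b ≤ 4 / 3) (hθ : |(θ * I).re| ≤ l / 100) (s : Bool)
    {k : Option O3} {u : ℂ} (hu : u.re ∈ KO6 k) :
    ZX6 c b a z0 η0 v T1 X θ s k u = ZP6 c b a z0 η0 v T1 X θ s k u := by
  have hl := Bd.l_pos
  have e1 := ph_W0 s b a θ (vx η0 (v s) θ)
  have e2 := ph_R06 (AmT T1 η0 X θ) s a θ
  have e3 := RRU_rwq (c s) (rwx a θ) s
  unfold ZX6 ZP6
  rcases k with _ | (_ | _ | _)
  · show RRU (c s) (rwq (rwx a θ) s) (rwq (rwx a θ) (!s)) u * ph b (rwq (rwx a θ) s) _ u *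
      Lg z0 z0 u = _
    rw [e1, e3]
    rfl
  · show RRU (c s) (rwq (rwx a θ) s) (rwq (rwx a θ) (!s)) u * ph b (rwq (rwx a θ) s) _ u *
      Lg z0 z0 u = _
    rw [e1, e3]
    rfl
  · show RRU (c s) (rwq (rwx a θ) s) (rwq (rwx a θ) (!s)) u *
      RRU (c s) (rwq (rwx a θ) s) (rwq (rwx a θ) (!s)) (u - l) *
      ph (4 / 3) (rwq (rwx a θ) s) _ u * (Lg z0 z0 u * Lg z0 z0 (u - l)) = _
    rw [e2, e3, e3]
    rfl
  · show TTU (c s) b (4 / 3) (rwq (rwx a θ) s) (rwq (rwx a θ) (!s)) _ _ u *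
      (Lg z0 z0 u * Lg z0 z0 (u - l)) = _
    have hu' := KO6_sub hu
    have hre : ∀ i, -(l) < (u - rwq (rwx a θ) s i).re ∧ (u - rwq (rwx a θ) s i).re < 0 := by
      intro i
      obtain ⟨h1, h2⟩ := hu'
      obtain ⟨h3, h4⟩ := abs_le.1 (rwq_re (a := a) hθ s i)
      rw [sub_re]
      constructor <;> linarith
    rw [TTU_eq (fun i => NQ_strip hb hb' (by linarith [(hre i).1]) (by linarith [(hre i).2]))
      (fun i => NQ_strip (by norm_num) le_rfl (by linarith [(hre i).1]) (by linarith [(hre i).2]))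
      (fun i hi => by
        exfalso
        obtain ⟨h3, h4⟩ := abs_le.1 (rwq_re (a := a) hθ s i)
        linarith)
      (fun i hi => by
        exfalso
        obtain ⟨h3, h4⟩ := abs_le.1 (rwq_re (a := a) hθ s i)
        linarith), e1, e1, e2, e3, e3]
    rfl

/-! ## joint analyticity -/

/-- the cutoff of the strings -/
theorem dphX (hX : FdX X) (q a : ℕ) {u : ℂ} (hu : u.re ∈ KWo)
    (hd : DifferentiableAt ℂ (fun p : ℂ × ℂ => NUP1.phi (4 / 3) (R0 q a (p.1 * I)) p.2) (θ, u)) :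
    DifferentiableAt ℂ (fun p : ℂ × ℂ => phX (AmT T1 η0 X p.1) (R0 q a (p.1 * I)) p.2) (θ, u) := by
  have hA := diff_AmT (T1 := T1) (η0 := η0) (θ := θ) (hX.fd.diff u hu)
  have hP : DifferentiableAt ℂ (fun p : ℂ × ℂ => pP (R0 q a (p.1 * I)) p.2) (θ, u) := by
    have e : (fun p : ℂ × ℂ => pP (R0 q a (p.1 * I)) p.2) =
        fun p : ℂ × ℂ => 1 - NUP1.phi (4 / 3) (R0 q a (p.1 * I)) p.2 := by
      funext p
      rw [PHK.phi_pP, sub_sub_cancel]
    rw [e]
    exact hd.const_sub 1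
  unfold PHK.phX PHK.omX
  exact hd.mul ((hA.mul hP).neg.cexp)

/-- **joint analyticity** -/
theorem diff_ZP6 (hb : 0 < b) (hb' : b ≤ 4 / 3) (hz : Lz z0) (hX : FdX X) (hθ : Th η0 v θ) (s : Bool)
    {k : Option O3} {u : ℂ} (hu : u.re ∈ KO6 k) :
    DifferentiableAt ℂ (fun p : ℂ × ℂ => ZP6 c b a z0 η0 v T1 X p.1 s k p.2) (θ, u) := by
  have hl := Bd.l_pos
  have hx : DifferentiableAt ℂ (fun p : ℂ × ℂ => p.1 * I) (θ, u) := by fun_prop
  have h2 : DifferentiableAt ℂ (fun p : ℂ × ℂ => p.2) (θ, u) := differentiableAt_snd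
  have h2' : DifferentiableAt ℂ (fun p : ℂ × ℂ => p.2 - (l : ℂ)) (θ, u) := h2.sub_const _
  have q0 : |(0 : ℝ)| ≤ l / 100 := by rw [abs_zero]; positivity
  have hu' := KO6_sub hu
  have hv : ∀ i, |(vx η0 (v s) θ i).re| ≤ l / 100 := by
    intro i
    fin_cases i
    · exact (hθ s).v0
    · exact (hθ s).v1
  set α := Fil.n s
  set γ := Fil.n (!s)
  have dR : DifferentiableAt ℂ (fun p : ℂ × ℂ => RRB (c s) α γ (rwx a p.1) p.2) (θ, u) :=
    dRRB (c s) α γ (fun i => d_rwx a i _) h2 (fun i => by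
      rw [sub_re]
      exact KO_NP hu' (rwx_re hθ.x i))
  have dR' : ∀ k' : O3, k = some k' → k' ≠ .L →
      DifferentiableAt ℂ (fun p : ℂ × ℂ => RRB (c s) α γ (rwx a p.1) (p.2 - l)) (θ, u) := by
    intro k' hk hk'
    subst hk
    refine dRRB (c s) α γ (fun i => d_rwx a i _) h2' (fun i => ?_)
    rw [sub_re, re_sub_l]
    exact KO_NP' hk' hu' (rwx_re hθ.x i)
  have dW : DifferentiableAt ℂ (fun p : ℂ × ℂ =>
      NUP1.phi b (W0 α (α * a) (p.1 * I) (vx η0 (v s) p.1)) p.2) (θ, u) := by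
    refine dphiW α (α * a) hx h2 (fun i => d_vx η0 (v s) i _) ?_ ?_ fun i => ?_
    · rw [sub_re]
      exact KO_NQ hb hb' hu' hθ.x
    · rw [sub_re, zero_re]
      exact KO_NQ hb hb' hu' q0
    · rw [sub_re]
      exact KO_NQ hb hb' hu' (hv i)
  have dL : DifferentiableAt ℂ (fun p : ℂ × ℂ => Lg z0 z0 p.2) (θ, u) := dLg h2 (KO_Lg hz hu')
  have dL' : ∀ k' : O3, k = some k' → k' ≠ .L →
      DifferentiableAt ℂ (fun p : ℂ × ℂ => Lg z0 z0 (p.2 - l)) (θ, u) := by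
    intro k' hk hk'
    subst hk
    refine dLg h2' ?_
    rw [re_sub_l]
    exact KO_Lg' hz hk' hu'
  rcases k with _ | (_ | _ | _)
  · exact (dR.mul dW).mul dL
  · exact (dR.mul dW).mul dL
  · have d4 : DifferentiableAt ℂ (fun p : ℂ × ℂ =>
        NUP1.phi (4 / 3) (R0 α (α * a) (p.1 * I)) p.2) (θ, u) := by
      refine dphiR α (α * a) hx h2 ?_ ?_
      · rw [sub_re]
        exact KO_NQ (by norm_num) le_rfl hu' hθ.x
      · rw [sub_re, zero_re]
        exact KO_NQ (by norm_num) le_rfl hu' q0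
    have d5 := dphX (T1 := T1) (η0 := η0) hX α (α * a) (KO6_S hu) d4
    exact ((dR.mul (dR' .S rfl (by decide))).mul d5).mul (dL.mul (dL' .S rfl (by decide)))
  · have d4 : DifferentiableAt ℂ (fun p : ℂ × ℂ =>
        NUP1.phi (4 / 3) (R0 α (α * a) (p.1 * I)) p.2) (θ, u) := by
      refine dphiR α (α * a) hx h2 ?_ ?_
      · rw [sub_re]
        exact KO_NQ (by norm_num) le_rfl hu' hθ.x
      · rw [sub_re, zero_re]
        exact KO_NQ (by norm_num) le_rfl hu' q0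
    have d5 := dphX (T1 := T1) (η0 := η0) hX α (α * a) (KO6_T hu) d4
    have dW' : DifferentiableAt ℂ (fun p : ℂ × ℂ =>
        NUP1.phi b (W0 α (α * a) (p.1 * I) (vx η0 (v s) p.1)) (p.2 - l)) (θ, u) := by
      refine dphiW α (α * a) hx h2' (fun i => d_vx η0 (v s) i _) ?_ ?_ fun i => ?_
      · rw [sub_re, re_sub_l]
        exact KO_NQ' hb hb' hu' hθ.x
      · rw [sub_re, re_sub_l, zero_re]
        exact KO_NQ' hb hb' hu' q0
      · rw [sub_re, re_sub_l]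
        exact KO_NQ' hb hb' hu' (hv i)
    exact ((dR.mul (dR' .T rfl (by decide))).mul ((dW.mul dW').sub d5)).mul
      (dL.mul (dL' .T rfl (by decide)))

/-! ## uniform bounds -/

/-- the radius of the parameter -/
def rad6 (v : Bool → Fin 2 → ℂ) (X : ℂ → ℂ) : ℝ := min (rad v) (1 / (132 * (1 + Bx X)))

theorem rad6_pos (v : Bool → Fin 2 → ℂ) (X : ℂ → ℂ) : 0 < rad6 v X := by
  have := Bx_nonneg X
  exact lt_min (rad_pos v) (by positivity)

theorem rad6_le (v : Bool → Fin 2 → ℂ) (X : ℂ → ℂ) : rad6 v X ≤ rad v := min_le_left _ _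

theorem rad6_mul (v : Bool → Fin 2 → ℂ) (X : ℂ → ℂ) : rad6 v X * Bx X ≤ 1 / 132 := by
  have h0 := Bx_nonneg X
  have h1 : rad6 v X ≤ 1 / (132 * (1 + Bx X)) := min_le_right _ _
  calc rad6 v X * Bx X ≤ 1 / (132 * (1 + Bx X)) * Bx X := mul_le_mul_of_nonneg_right h1 h0
    _ ≤ 1 / 132 := by
        rw [div_mul_eq_mul_div, one_mul, div_le_div_iff₀ (by positivity) (by norm_num)]
        linarith

/-- the parameters -/
def SB6 (η0 : ℝ) (v : Bool → Fin 2 → ℂ) (X : ℂ → ℂ) : Set ℂ := Metric.closedBall (η0 : ℂ) (rad6 v X)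

theorem SB6_sub {θ : ℂ} (h : θ ∈ SB6 η0 v X) : θ ∈ SB η0 v :=
  Metric.closedBall_subset_closedBall (rad6_le v X) h

theorem SB6_rad {θ : ℂ} (h : θ ∈ SB6 η0 v X) : ‖θ - η0‖ * Bx X ≤ 1 / 132 := by
  have h1 : ‖θ - η0‖ ≤ rad6 v X := by rwa [SB6, mem_closedBall_iff_norm] at h
  exact (mul_le_mul_of_nonneg_right h1 (Bx_nonneg X)).trans (rad6_mul v X)

/-- the exponent in the parameters -/
theorem gac_SB6 (hX : FdX X) (T1 : ℝ) {θ : ℂ} (h : θ ∈ SB6 η0 v X) :
    GAc (3 * Real.exp (-(11 / 2 * T1))) (Real.exp (-(11 / 2 * T1)) / 10) (AmT T1 η0 X θ) :=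
  gac_AmT hX.fd (SB6_rad h)

/-- **uniform bounds of the product form** -/
theorem ub_ZP6 (hb : 0 < b) (hb' : b ≤ 4 / 3) (hz : Lz z0) (hX : FdX X) (s : Bool) (k : Option O3) :
    UB (SB6 η0 v X) (KO6 k) (-(2 * b) + 2 * (Fil.xn (a + 1) : ℝ) * sc (s, ob4 k))
      fun θ u => ZP6 c b a z0 η0 v T1 X θ s k u := by
  have hl := Bd.l_pos
  have hK := KO6_compact k
  have bx : InBox (SB6 η0 v X) (l / 100) (|η0| + 2) fun θ => θ * I := fun θ hθ =>
    ⟨(SB_box (SB6_sub hθ)).1.x, (SB_box (SB6_sub hθ)).2.1⟩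
  have b0 : InBox (SB6 η0 v X) (l / 100) (|η0| + 2) fun _ => (0 : ℂ) := fun θ hθ => by
    rw [zero_re, zero_im, abs_zero]
    have := abs_nonneg η0
    constructor <;> positivity
  have be : ∀ i, InBox (SB6 η0 v X) (l / 100) (|η0| + 2) fun θ => vx η0 (v s) θ i := fun i θ hθ => by
    refine ⟨?_, (SB_box (SB6_sub hθ)).2.2 s i⟩
    fin_cases i
    · exact ((SB_box (SB6_sub hθ)).1 s).v0
    · exact ((SB_box (SB6_sub hθ)).1 s).v1
  have br : ∀ i, InBox (SB6 η0 v X) (l / 100) (|η0| + 2) fun θ => rwx a θ i := fun i => by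
    refine Fin.cases ?_ (fun j => ?_) i
    · exact bx
    · exact b0
  have nP : NPr (l / 100) (KO6 k) := fun d hd e he => KO_NP (KO6_sub hd) he
  have nQ : ∀ β : ℝ, 0 < β → β ≤ 4 / 3 → NQr β (l / 100) (KO6 k) := fun β h1 h2 d hd e he =>
    KO_NQ h1 h2 (KO6_sub hd) he
  have uR := ub_RRB (c s) s br hK nP
  have uW := ub_W hb (Fil.n s) (Fil.n s * a) bx b0 be hK (nQ b hb hb')
  have u4' := ub_R (β := 4 / 3) (by norm_num) (Fil.n s) (Fil.n s * a) bx b0 hK
    (nQ (4 / 3) (by norm_num) le_rfl)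
  have u4 : (∀ r ∈ KO6 k, r ∈ KWo) → UB (SB6 η0 v X) (KO6 k) (-(2 * (4 / 3))) fun θ u =>
      phX (AmT T1 η0 X θ) (R0 (Fil.n s) (Fil.n s * a) (θ * I)) u := by
    intro hKW
    have h1 := ub_omX hKW (by positivity) (by positivity) (fun θ hθ => gac_SB6 hX T1 hθ) u4'
    exact ((u4'.mul h1).rate (add_zero _)).congr fun θ _ z _ => rfl
  have uL : UB (SB6 η0 v X) (KO6 k) 0 fun (_ : ℂ) z => Lg z0 z0 z :=
    ub_Lg hK fun d hd => KO_Lg hz (KO6_sub hd)
  have hK2 : IsCompact K' := isCompact_Icc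
  have sub' : ∀ k' : O3, k' ≠ .L → ∀ r ∈ KO6 (some k'), r - l ∈ K' := by
    intro k' hk' r hr
    have hr := KO6_sub hr
    cases k'
    · exact absurd rfl hk'
    all_goals
      obtain ⟨h1, h2⟩ := hr
      unfold K'
      constructor <;> linarith
  have nP' : NPr (l / 100) K' := NPr_neg fun d hd => by
    obtain ⟨h1, h2⟩ := hd
    constructor <;> linarith
  have uR' := ub_RRB (c s) s br hK2 nP'
  have nQ' : NQr b (l / 100) K' := NQr_strip hb hb' fun d hd => by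
    obtain ⟨h1, h2⟩ := hd
    constructor <;> linarith
  have uW' := ub_W hb (Fil.n s) (Fil.n s * a) bx b0 be hK2 nQ'
  have uL' : UB (SB6 η0 v X) K' 0 fun (_ : ℂ) z => Lg z0 z0 z := ub_Lg hK2 fun d hd => by
    obtain ⟨h1, h2⟩ := hd
    obtain ⟨z1, z2⟩ := hz
    have h8 : 8 * l = Real.pi := by unfold l; ring
    exact (Real.sin_pos_of_pos_of_lt_pi (by linarith) (by linarith)).ne'
  have scS : sc (s, .S) = 2 * sc (s, .A) := Pool.Agent.PLX.sc_S s
  have scL : sc (s, .L) = sc (s, .A) := by cases s <;> simp [sc, chg]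
  rcases k with _ | (_ | _ | _)
  · exact (((uR.mul uW).mul uL).rate (by
      show _ = -(2 * b) + 2 * (Fil.xn (a + 1) : ℝ) * sc (s, .A)
      ring)).congr fun θ _ z _ => rfl
  · exact (((uR.mul uW).mul uL).rate (by
      show _ = -(2 * b) + 2 * (Fil.xn (a + 1) : ℝ) * sc (s, .L)
      rw [scL]
      ring)).congr fun θ _ z _ => rfl
  · have h1 := uR.mul (uR'.shift_l (sub' .S (by decide)))
    have h2 := uL.mul (uL'.shift_l (sub' .S (by decide)))
    exact (((h1.mul (u4 fun r hr => KO6_S hr)).mul h2).mono_rate (by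
      show _ ≤ -(2 * b) + 2 * (Fil.xn (a + 1) : ℝ) * sc (s, .S)
      rw [scS]
      linarith)).congr fun θ _ z _ => rfl
  · have h1 := uR.mul (uR'.shift_l (sub' .T (by decide)))
    have h2 := uL.mul (uL'.shift_l (sub' .T (by decide)))
    have h3 := uW.mul (uW'.shift_l (sub' .T (by decide)))
    have h4 := (h3.mono_rate (s' := -(2 * b)) (by linarith)).sub
      ((u4 fun r hr => KO6_T hr).mono_rate (s' := -(2 * b)) (by linarith))
    exact (((h1.mul h4).mul h2).rate (by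
      show _ = -(2 * b) + 2 * (Fil.xn (a + 1) : ℝ) * sc (s, .S)
      rw [scS]
      ring)).congr fun θ _ z _ => rfl

end PBZF.PLX

end
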