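import Pool.Agent.PHK.CutH6
import Pool.Agent.PHK.GOm
import Pool.Agent.PHK.OneD
import Pool.Agent.PHK.UseW

/-!
# (P): the cut term at the rows `x ^ q, 0 ^ A`

Species `a`: rows `y a`, a permutation of `R0 (qa a) (nz a) x`, cutoff of the strings with the factor
`om` at `T1`.

* `ZcX6`: the cut term in product form (`DS6`, `DT6` for the strings); `ZcF6`, `XXF6`: two species;
* **`zc6_A`, `zc6_L`, `zc6_S`** : relative to `XXU`; `zc6_meas`, `zc6_diff`;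
* **`cutZ6_X`** : `CutZ6` for `XXF6`, `ZcF6` with the data `obU6`, from `CutH6`.
-/

set_option autoImplicit false
set_option linter.unusedVariables false
set_option linter.unusedSectionVars false

noncomputable section

open Complex Set

namespace PBC.PLX

open NUP1 NUP1S.AbC NURow NUO NUGC NUGC.PLX PBX PBX.PLX
open NUP1S hiding R0
open PBFar hiding W0 phi_W0 phi_R0 phi_le phi_ge phi_le_R phi_ge_R vI DW DR hasDerivAt_W hasDerivAt_R
  CW trW far_W far_W_prod trR far_R_prod far_R_tr norm_vI_le cutT DT hasDerivAt_T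
  eMF eMF_pos prods DT_eq far_T_form far_T_all exact_rows far_R0 far_R0_prod Ep_row
open PBFar.PLX
open PHK (om omA pP phO gO Par6 GoodP6 CutZ6 obU6 oneC6_XXU norm_XXU_none wq6 NPr_A6 SpecS6 diff_om
  diff_omA ph_gO ph_gO_fun)
open _root_.Pool.Agent.PLX (XXU RRU TTU measurable_XXU measurable_RRU diffAt_RRU)

/-! ## regularity -/

section reg
variable {q a : ℕ} {x v : ℂ} {T1 : ℝ} {X : ℂ → ℂ}

theorem meas_pP (V : List ℂ) : Measurable (pP V) := by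
  have e : pP V = fun u => 1 - NUP1.phi (4 / 3) V u := by
    funext u
    rw [PHK.phi_pP, sub_sub_cancel]
  rw [e]
  exact (Bd.measurable_phi (4 / 3) V).const_sub 1

theorem meas_om (T1 : ℝ) (V : List ℂ) : Measurable (om T1 (pP V)) := by
  unfold PHK.om
  exact (((diff_omA T1).continuous.measurable.mul (meas_pP V)).neg).cexp

theorem meas_DS6 (hX : Measurable X) : Measurable (fun u => DS6 q a x v T1 (X u) u) := by
  unfold DS6
  exact (meas_DR hX).mul ((meas_om T1 _).mul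
    (((diff_omA T1).continuous.measurable.mul (Bd.measurable_phi (4 / 3) _)).const_add 1))

theorem meas_DT6 {b : ℝ} {ξe : ℝ → ℂ} (hX : Measurable X) :
    Measurable (fun u => DT6 q b a x v ξe T1 (X u) u) := by
  have e : (fun u => DT6 q b a x v ξe T1 (X u) u) = fun u => DT q b a x v ξe (X u) u +
      (DR q (4 / 3) a x v (X u) u - DS6 q a x v T1 (X u) u) := by
    funext u
    unfold DT6 DT
    ring
  rw [e]
  exact (meas_DT hX).add ((meas_DR hX).sub (meas_DS6 hX))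

end reg

/-! ## the cut term -/

section def6
variable {m M : ℕ}

/-- **the cut term in product form** -/
def ZcX6 (c : ℂ) (y : Fin m → ℂ) (z : Fin M → ℂ) (q : ℕ) (b : ℝ) (a : ℕ) (x v : ℂ) (ξe : ℝ → ℂ)
    (T1 : ℝ) (X s1 s2 : ℂ → ℂ) : Option O3 → ℂ → ℂ
  | none, u => RRU c y z u * DW q b a x v ξe (X u) u * s1 u
  | some .L, u => RRU c y z u * DW q b a x v ξe (X (u + 2 * l)) u * s1 u
  | some .S, w => RRU c y z w * RRU c y z (w - l) * DS6 q a x v T1 (X (w + 2 * l)) w * s2 w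
  | some .T, w => RRU c y z w * RRU c y z (w - l) * DT6 q b a x v ξe T1 (X (w + 2 * l)) w * s2 w

end def6

variable {N : Bool → ℕ} {b : ℝ} {qa nz : Bool → ℕ} {k : ℕ} {x v : ℂ} {ξe : ℝ → ℂ} {T1 : ℝ}
  {X : ℂ → ℂ} {cc : ℝ} {M : Bool → ℝ → ℝ} {ep : ℝ}
  {y : ∀ a, Fin (N a) → ℂ} {s1 s2 : Bool → ℂ → ℂ} {c : Bool → ℂ} {c0 : ℝ}

/-- the cut term of the two species -/
def ZcF6 (c : Bool → ℂ) (y : ∀ a, Fin (N a) → ℂ) (qa : Bool → ℕ) (b : ℝ) (nz : Bool → ℕ) (x v : ℂ)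
    (ξe : ℝ → ℂ) (T1 : ℝ) (X : ℂ → ℂ) (s1 s2 : Bool → ℂ → ℂ) : Bool → Option O3 → ℂ → ℂ := fun a =>
  ZcX6 (c a) (y a) (y !a) (qa a) b (nz a) x v ξe T1 X (s1 a) (s2 a)

/-- the one body functions of the two species, cutoff points `± i`, factor `om` -/
def XXF6 (c : Bool → ℂ) (b : ℝ) (y : ∀ a, Fin (N a) → ℂ) (T1 : ℝ) (s1 s2 : Bool → ℂ → ℂ) :
    Bool → Option O3 → ℂ → ℂ := fun a =>
  XXU (c a) b (y a) (y !a) (gP b [I, -I]) (gO T1 [] (y a)) (s1 a) (s2 a)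

theorem pP_perm {V W : List ℂ} (h : V.Perm W) (u : ℂ) : pP V u = pP W u := by
  unfold PHK.pP
  rw [(h.map fun x => psi (4 / 3) (u - x)).prod_eq]

theorem phO_R_eq (hy : RwP y qa nz x) (a : Bool) (u : ℂ) :
    phO T1 (R0 (qa a) (nz a) x) u = ph (4 / 3) (y a) (gO T1 [] (y a)) u := by
  rw [ph_gO, List.append_nil]
  unfold PHK.phO PHK.om
  rw [phi_perm (hy a) (4 / 3) u, pP_perm (hy a) u]

/-! ## relative to the class functions -/

/-- the quanta -/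
theorem zc6_A (hy : RwP y qa nz x) {δ : ℝ} (h : CutH6 b qa nz x v ξe T1 X cc M δ)
    (a : Bool) {u : ℂ} (h1 : 1 / 9 * l ≤ u.re) (h2 : u.re ≤ (1 + δ) * l) :
    ‖ZcF6 c y qa b nz x v ξe T1 X s1 s2 a none u‖ ≤ cc * ‖XXF6 c b y T1 s1 s2 a none u‖ := by
  show ‖RRU (c a) (y a) (y !a) u * DW (qa a) b (nz a) x v ξe (X u) u * s1 a u‖ ≤
    cc * ‖RRU (c a) (y a) (y !a) u * ph b (y a) (gP b [I, -I]) u * s1 a u‖
  rw [norm_mul, norm_mul, norm_mul, norm_mul, ← phi_W0_eq hy]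
  have := h.A a u h1 h2
  calc _ ≤ ‖RRU (c a) (y a) (y !a) u‖ *
        (cc * ‖NUP1.phi b (W0 (qa a) (nz a) x PBFar.wE) u‖) * ‖s1 a u‖ := by gcongr
    _ = _ := by ring

/-- `L` -/
theorem zc6_L (hy : RwP y qa nz x) {δ : ℝ} (h : CutH6 b qa nz x v ξe T1 X cc M δ)
    (a : Bool) {u : ℂ} (h1 : -(3 / 2 * l) ≤ u.re) (h2 : u.re ≤ -l) :
    ‖ZcF6 c y qa b nz x v ξe T1 X s1 s2 a (some .L) u‖ ≤ cc * ‖XXF6 c b y T1 s1 s2 a (some .L) u‖ := by
  show ‖RRU (c a) (y a) (y !a) u * DW (qa a) b (nz a) x v ξe (X (u + 2 * l)) u * s1 a u‖ ≤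
    cc * ‖RRU (c a) (y a) (y !a) u * ph b (y a) (gP b [I, -I]) u * s1 a u‖
  rw [norm_mul, norm_mul, norm_mul, norm_mul, ← phi_W0_eq hy]
  have := h.L a u h1 h2
  calc _ ≤ ‖RRU (c a) (y a) (y !a) u‖ *
        (cc * ‖NUP1.phi b (W0 (qa a) (nz a) x PBFar.wE) u‖) * ‖s1 a u‖ := by gcongr
    _ = _ := by ring

/-- the strings `E`, `F` -/
theorem zc6_S (hy : RwP y qa nz x) {δ : ℝ} (h : CutH6 b qa nz x v ξe T1 X cc M δ)
    (a : Bool) {u : ℂ} (h1 : -(3 / 2 * l) ≤ u.re) (h2 : u.re ≤ -l) :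
    ‖ZcF6 c y qa b nz x v ξe T1 X s1 s2 a (some .S) u‖ ≤ cc * ‖XXF6 c b y T1 s1 s2 a (some .S) u‖ := by
  show ‖RRU (c a) (y a) (y !a) u * RRU (c a) (y a) (y !a) (u - l) *
      DS6 (qa a) (nz a) x v T1 (X (u + 2 * l)) u * s2 a u‖ ≤
    cc * ‖RRU (c a) (y a) (y !a) u * RRU (c a) (y a) (y !a) (u - l) *
      ph (4 / 3) (y a) (gO T1 [] (y a)) u * s2 a u‖
  rw [norm_mul, norm_mul, norm_mul _ (s2 a u), norm_mul _ (ph _ _ _ _), ← phO_R_eq hy]
  have := h.S a u h1 h2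
  calc _ ≤ ‖RRU (c a) (y a) (y !a) u * RRU (c a) (y a) (y !a) (u - l)‖ *
        (cc * ‖phO T1 (R0 (qa a) (nz a) x) u‖) * ‖s2 a u‖ := by gcongr
    _ = _ := by ring

theorem zc6_meas (hX : Measurable X) (hm1 : ∀ a, Measurable (s1 a)) (hm2 : ∀ a, Measurable (s2 a))
    (a : Bool) (o : Option O3) : Measurable (ZcF6 c y qa b nz x v ξe T1 X s1 s2 a o) := by
  have hR := measurable_RRU (c a) (y a) (y !a)
  have hR' : Measurable fun w : ℂ => RRU (c a) (y a) (y !a) (w - l) :=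
    hR.comp (measurable_id.sub_const _)
  have hX2 : Measurable fun u : ℂ => X (u + 2 * l) := hX.comp (measurable_id.add_const _)
  rcases o with _ | _ | _ | _
  · exact (hR.mul (meas_DW hX)).mul (hm1 a)
  · exact (hR.mul (meas_DW hX2)).mul (hm1 a)
  · exact ((hR.mul hR').mul (meas_DS6 hX2)).mul (hm2 a)
  · exact ((hR.mul hR').mul (meas_DT6 hX2)).mul (hm2 a)

/-- regularity of the quanta -/
theorem zc6_diff {s : ℝ} (hH : Hyp b s) {C0 : ℝ}
    (hF : FlX6 k C0 X ξe) (hr : ∀ a, Rws (y a)) (hx : |x.re| ≤ l / 2) (a : Bool) {u : ℂ}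
    (h1 : 51 / 100 * l ≤ u.re) (h2 : u.re ≤ 21 / 20 * l) (hs : u.re + l / 2 ≤ s)
    (hd : DifferentiableAt ℂ (s1 a) u) :
    DifferentiableAt ℂ (ZcF6 c y qa b nz x v ξe T1 X s1 s2 a none) u := by
  have hl := Bd.l_pos
  have hu : u.re ∈ Set.Icc (51 / 100 * l) (21 / 20 * l) := ⟨h1, h2⟩
  have h3 := diffAt_RRU (c a) (x := y a) (y := y !a) (NPr_A6 le_rfl) (hr a) hu
  have h4 : DifferentiableAt ℂ (fun u => DW (qa a) b (nz a) x v ξe (X u) u) u :=
    DW_diff hH hx (hF.df u (by linarith) (by linarith)) (by rw [abs_of_pos (by linarith)]; exact hs)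
  exact (h3.mul h4).mul hd

/-! ## `CutZ6` -/

variable {P : Par6} {E : Set ℝ} {q : ℤ}

/-- **the cut term relative to the one body data** -/
theorem cutZ6_X {x0 s : ℝ} (hx0 : 51 / 100 * l ≤ x0) (hx0' : x0 ≤ 19 / 20 * l) (hP : GoodP6 P)
    (hj2 : P.j2 ≤ 8 / 9) (hep0 : 0 < ep) (hep : ep ≤ 1 / 100) (hβ : 0 < b) (hβ' : b ≤ 4 / 3)
    (hH : Hyp b s) (hs : (3 / 2 + ep / 4) * l ≤ s) (hr : ∀ a, Rws (y a)) (hx : |x.re| ≤ l / 2)
    (hy : RwP y qa nz x) (hc : ∀ a, ‖c a‖ = c0) {C0 : ℝ}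
    (hF : FlX6 k C0 X ξe) (hm1 : ∀ a, Measurable (s1 a)) (hm2 : ∀ a, Measurable (s2 a))
    (hA : ∀ a, NUGC.PLX.SpecAt x0 a q (s1 a)) (hS : ∀ a, SpecS6 P E (s1 a) (s2 a))
    (hE : MeasureTheory.volume E = 0) (h : CutH6 b qa nz x v ξe T1 X cc M (ep / 4)) :
    CutZ6 (XXF6 c b y T1 s1 s2) (ZcF6 c y qa b nz x v ξe T1 X s1 s2)
      (obU6 c0 b y (fun _ => [I, -I]) (fun a => ph (4 / 3) (y a) (gO T1 [] (y a)))
        fun a u => ‖s1 a u‖) P ep (2 * b) x0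
      (q + N true - N false)
      (E ∪ ⋃ a, Set.range fun i => (y a i).im) cc M := by
  have hl := Bd.l_pos
  have hc0 : 0 ≤ c0 := by
    rw [← hc true]
    exact norm_nonneg _
  have hex : ∀ a : Bool, ∀ w ∈ (fun _ : Bool => [I, -I]) a, |w.re| ≤ l / 2 := by
    intro a w hw
    simp only [List.mem_cons, List.not_mem_nil, or_false] at hw
    rcases hw with rfl | rfl <;> simp <;> positivity
  have hone : ∀ a (u : ℂ), ‖XXF6 c b y T1 s1 s2 a none u‖ =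
      wq6 (obU6 c0 b y (fun _ => [I, -I]) (fun a => ph (4 / 3) (y a) (gO T1 [] (y a)))
        fun a u => ‖s1 a u‖) a u := fun a u =>
    norm_XXU_none hc y (fun _ => [I, -I]) (fun a => ph (4 / 3) (y a) (gO T1 [] (y a)))
      (fun a => gO T1 [] (y a)) s1 s2 a u
  have hstr : ∀ a (u : ℂ), ‖s2 a u‖ ≤ ‖s1 a u‖ * ‖s1 a (u - l)‖ →
      ‖RRU (c a) (y a) (y !a) u‖ * ‖RRU (c a) (y a) (y !a) (u - l)‖ * ‖s2 a u‖ ≤
      (c0 * rwU (y a) (y !a) u * ‖s1 a u‖) *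
        (c0 * rwU (y a) (y !a) (u - l) * ‖s1 a (u - l)‖) := by
    intro a u h5
    rw [norm_RRU, norm_RRU, hc]
    have p1 : 0 ≤ rwU (y a) (y !a) u := rwU_nonneg _ _ _
    have p2 : 0 ≤ rwU (y a) (y !a) (u - l) := rwU_nonneg _ _ _
    calc _ ≤ c0 * rwU (y a) (y !a) u * (c0 * rwU (y a) (y !a) (u - l)) *
          (‖s1 a u‖ * ‖s1 a (u - l)‖) := mul_le_mul_of_nonneg_left h5 (by positivity)
      _ = _ := by ring
  refine CutZ6.of (a0 := 1 / 9 * l) hP hep0.le h.c0 h.M0 (fun a o => zc6_meas hF.me hm1 hm2 a o)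
    ?_ ?_ ?_ (by nlinarith) (fun a u u1 u2 => zc6_A hy h a u1 u2) (by linarith) ?_ ?_
  · intro a t _
    have hre : (posL P.jL t).re = (1 - P.jL) * l := NUO.vl_re _ _
    have j1 := hP.L2
    have j2 := hP.Lj
    have j3 := hP.j1e
    have j4 := hP.e45
    refine (zc6_L hy h a (u := posL P.jL t) (by rw [hre]; nlinarith)
      (by rw [hre]; nlinarith)).trans (le_of_eq ?_)
    have := hone a (posL P.jL t)
    show cc * ‖XXF6 c b y T1 s1 s2 a none (posL P.jL t)‖ = _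
    rw [this]
  · intro a t ht
    have htE : t ∉ E := fun h => ht (Or.inl h)
    have key := hstr a (posT t) ((hS a).1 t htE)
    have hM := h.T a t
    show ‖RRU (c a) (y a) (y !a) (posT t) * RRU (c a) (y a) (y !a) (posT t - l) *
      DT6 (qa a) b (nz a) x v ξe T1 (X (posT t + 2 * l)) (posT t) * s2 a (posT t)‖ ≤ _
    rw [norm_mul, norm_mul, norm_mul]
    have hM0 := h.M0 a t
    calc _ = (‖RRU (c a) (y a) (y !a) (posT t)‖ * ‖RRU (c a) (y a) (y !a) (posT t - l)‖ *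
            ‖s2 a (posT t)‖) *
          ‖DT6 (qa a) b (nz a) x v ξe T1 (X (posT t + 2 * l)) (posT t)‖ := by ring
      _ ≤ (‖RRU (c a) (y a) (y !a) (posT t)‖ * ‖RRU (c a) (y a) (y !a) (posT t - l)‖ *
            ‖s2 a (posT t)‖) * M a t :=
          mul_le_mul_of_nonneg_left hM (by positivity)
      _ ≤ _ := mul_le_mul_of_nonneg_right key hM0
  · intro a t ht
    have htE : t ∉ E := fun h => ht (Or.inl h)
    have hre : (posS P.e t).re = -((1 + P.e) * l) := NUO.vl_re _ _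
    have e1 := hP.e13
    have e2 := hP.e45
    refine (zc6_S hy h a (u := posS P.e t) (by rw [hre]; nlinarith) (by rw [hre]; nlinarith)).trans ?_
    refine mul_le_mul_of_nonneg_left ?_ h.c0
    show ‖RRU (c a) (y a) (y !a) (posS P.e t) * RRU (c a) (y a) (y !a) (posS P.e t - l) *
      ph (4 / 3) (y a) (gO T1 [] (y a)) (posS P.e t) * s2 a (posS P.e t)‖ ≤ _
    rw [norm_mul, norm_mul, norm_mul]
    have key := hstr a (posS P.e t) ((hS a).2 t htE)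
    calc _ = (‖RRU (c a) (y a) (y !a) (posS P.e t)‖ * ‖RRU (c a) (y a) (y !a) (posS P.e t - l)‖ *
            ‖s2 a (posS P.e t)‖) *
          ‖ph (4 / 3) (y a) (gO T1 [] (y a)) (posS P.e t)‖ := by ring
      _ ≤ _ := mul_le_mul_of_nonneg_right key (norm_nonneg _)
  · intro a u u1 u2
    have u3 : u.re ≤ 21 / 20 * l := by nlinarith
    exact zc6_diff hH hF hr hx a (hx0.trans u1) u3 (by nlinarith) ((hA a).df u ⟨u1, u3⟩)
  · intro a
    have hgm : ∀ a, Measurable (gO T1 [] (y a)) := fun a => PHK.meas_gO (hr a) (by simp)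
    have hO := oneC6_XXU (c0 := c0) (c := c) (s1 := s1) (s2 := s2) (E := E) (q := q) (P := P)
      (ex := fun _ => [I, -I]) (xr := y) (g0 := fun a => gO T1 [] (y a)) hx0 hx0' hep0 hep hβ hβ' hr
      hex hgm hc hm1 hm2 hA hS
    obtain ⟨C, hC, hb⟩ := (hO hE).bA a
    refine ⟨cc * C, mul_nonneg h.c0 hC, fun z hz => ?_⟩
    refine (zc6_A hy h a (by linarith [hz.1]) hz.2).trans ?_
    rw [mul_assoc]
    exact mul_le_mul_of_nonneg_left (hb z hz) h.c0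

end PBC.PLX

end
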