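import Pool.Agent.PLX.PB.ZFamR
import Pool.Agent.PLX.I1Q2
import Pool.Agent.PB.ZFamK
import Pool.Agent.PHK.ZFamA6
import Pool.Agent.PHK.ZcB6

/-!
# (P): the family of the first Ward identity: `ZFam` and the cut term

As `PLX/PB/ZFamR`, `ZFamK`, with the cutoff of the strings `phX (AmT T1 η0 X θ)`.

* `ZR6`: the family (real parameter), `ZdR6`, `ZpR6`: the derivatives; `ZR6_at`: at the base parameter
  the cutoff of the strings is `gO T1`;
* **`exists_zfam6`**, **`exists_zfam6_P`**: `ZFam`, one constant for all lines;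
* `path_cut6`: the cutoff along the path; **`zcut6_eq`**: `Zcut` is `ZcX6` on the inner strips;
* **`zcut6_K`**: on the lines of all words, literal names of the Ward identity.
-/

set_option autoImplicit false
set_option linter.unusedSectionVars false
set_option linter.unusedVariables false

noncomputable section

open Complex MeasureTheory Filter Topology Finset
open PLX (Fil)

namespace PBZF.PLX

open NUP1 NUP1.Bd NURow PB
open NUP1S hiding R0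
open PBX (ph gP Lg Rws)
open PBForce (rowB krA r1A RRB)
open PBFar.PLX (R0 W0)
open PBI PBI.PLX
open PHK (KWo GAc GA omX phX gOA omA pP AmT FdS AmT_at path_AmT gO gOA_omA om phO)
open PBC.PLX (DS6 DT6 ZcX6)
open PBZF (rwx vx vx_at Lz KO KI KI_nhd KI_sub KI_ball lamK meas_KO meas_KI rwx_re rwx_re0 real_Th
  path_deriv path_leg all_ok all_KI hyp75)
open Pool.Agent.PLX (XXU RRU rwq Rws_rwq)

variable {c : Bool → ℂ} {b : ℝ} {a : ℕ} {z0 : ℂ} {η0 : ℝ} {v : Bool → Fin 2 → ℂ} {T1 : ℝ} {X : ℂ → ℂ}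

/-! ## strips -/

theorem KI6_ball {k : Option O3} {r r' : ℝ} (h : r ∈ KI k) (h' : |r' - r| ≤ l / 80) : r' ∈ KO6 k := by
  have hl := Bd.l_pos
  have h2 : r' ∈ KO k := KI_ball h (h'.trans (by linarith))
  rcases k with _ | (_ | _ | _)
  · exact h2
  · exact h2
  · exact h2
  · obtain ⟨h3, h4⟩ := abs_le.1 h'
    obtain ⟨h5, h6⟩ := h
    exact ⟨h2.1, by linarith⟩

theorem KI6_sub {k : Option O3} {r : ℝ} (h : r ∈ KI k) : r ∈ KO6 k := by
  have hl := Bd.l_pos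
  exact KI6_ball h (by rw [sub_self, abs_zero]; positivity)

theorem KI6_nhd {k : Option O3} {u : ℂ} (h : u.re ∈ KI k) : ∀ᶠ w in 𝓝 u, w.re ∈ KO6 k := by
  have hl := Bd.l_pos
  filter_upwards [Metric.ball_mem_nhds u (show (0 : ℝ) < l / 80 by positivity)] with w hw
  refine KI6_ball h ?_
  rw [← sub_re]
  refine (abs_re_le_norm _).trans ?_
  rw [Metric.mem_ball, dist_eq_norm] at hw
  exact hw.le

theorem meas_KO6 (k : Option O3) : MeasurableSet {u : ℂ | u.re ∈ KO6 k} := by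
  have : MeasurableSet (KO6 k) := (KO6_compact k).measurableSet
  exact measurable_re this

variable [Fil]

/-! ## the family -/

/-- the family of the one body functions -/
def ZR6 (c : Bool → ℂ) (b : ℝ) (a : ℕ) (z0 : ℂ) (η0 : ℝ) (v : Bool → Fin 2 → ℂ) (T1 : ℝ) (X : ℂ → ℂ)
    (η : ℝ) : Stt :=
  fun s k u => ZX6 c b a z0 η0 v T1 X (η : ℂ) s k u

open scoped Classical in
/-- derivative in the height of the row -/
def ZdR6 (c : Bool → ℂ) (b : ℝ) (a : ℕ) (z0 : ℂ) (η0 : ℝ) (v : Bool → Fin 2 → ℂ) (T1 : ℝ)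
    (X : ℂ → ℂ) (η : ℝ) : Stt :=
  fun s k u => if η ∈ Metric.ball η0 (rad6 v X / 2) ∧ u.re ∈ KO6 k then
    deriv (fun θ : ℂ => ZP6 c b a z0 η0 v T1 X θ s k u) (η : ℂ) else 0

open scoped Classical in
/-- derivative in the position -/
def ZpR6 (c : Bool → ℂ) (b : ℝ) (a : ℕ) (z0 : ℂ) (η0 : ℝ) (v : Bool → Fin 2 → ℂ) (T1 : ℝ)
    (X : ℂ → ℂ) : Stt :=
  fun s k u => if u.re ∈ KI k then
    deriv (fun u : ℂ => ZP6 c b a z0 η0 v T1 X (η0 : ℂ) s k u) u else 0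

/-- **the family in terms of the class functions** -/
theorem ZR6_XXU (c : Bool → ℂ) (b : ℝ) (a : ℕ) (z0 : ℂ) (η0 : ℝ) (v : Bool → Fin 2 → ℂ) (T1 : ℝ)
    (X : ℂ → ℂ) (η : ℝ) :
    ZR6 c b a z0 η0 v T1 X η = fun s => XXU (c s) b (rwq (rwx a (η : ℂ)) s) (rwq (rwx a (η : ℂ)) (!s))
      (gP b [vx η0 (v s) (η : ℂ) 0, vx η0 (v s) (η : ℂ) 1])
      (gOA (AmT T1 η0 X (η : ℂ)) [] (rwq (rwx a (η : ℂ)) s)) (Lg z0 z0)
      (fun w => Lg z0 z0 w * Lg z0 z0 (w - l)) := rfl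

/-- **at the base parameter** -/
theorem ZR6_at (c : Bool → ℂ) (b : ℝ) (a : ℕ) (z0 : ℂ) (η0 : ℝ) (v : Bool → Fin 2 → ℂ) (T1 : ℝ)
    (X : ℂ → ℂ) :
    ZR6 c b a z0 η0 v T1 X η0 = fun s => XXU (c s) b (rwq (rwx a (η0 : ℂ)) s)
      (rwq (rwx a (η0 : ℂ)) (!s)) (gP b [I, -I]) (gO T1 [] (rwq (rwx a (η0 : ℂ)) s)) (Lg z0 z0)
      (fun w => Lg z0 z0 w * Lg z0 z0 (w - l)) := by
  rw [ZR6_XXU]
  funext s
  have h0 : vx η0 (v s) (η0 : ℂ) 0 = I := by rw [vx_at]; rfl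
  have h1 : vx η0 (v s) (η0 : ℂ) 1 = -I := by rw [vx_at]; rfl
  rw [h0, h1, AmT_at, gOA_omA]

/-! ## the parameter -/

theorem mem_SB6 {η : ℝ} (h : η ∈ Metric.ball η0 (rad6 v X / 2)) {θ : ℂ}
    (hθ : ‖θ - η‖ ≤ rad6 v X / 2) : θ ∈ SB6 η0 v X := by
  rw [Metric.mem_ball, Real.dist_eq] at h
  rw [SB6, mem_closedBall_iff_norm]
  have e : ‖((η : ℂ) - η0)‖ = |η - η0| := by
    rw [← ofReal_sub, Complex.norm_real, Real.norm_eq_abs]
  have := norm_add_le (θ - η) ((η : ℂ) - η0)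
  rw [sub_add_sub_cancel, e] at this
  linarith

theorem mem_SB6' {η : ℝ} (h : η ∈ Metric.ball η0 (rad6 v X / 2)) : (η : ℂ) ∈ SB6 η0 v X := by
  have := rad6_pos v X
  exact mem_SB6 h (by rw [sub_self, norm_zero]; positivity)

theorem mem_SB60 : (η0 : ℂ) ∈ SB6 η0 v X := by
  have := rad6_pos v X
  exact mem_SB6' (Metric.mem_ball_self (by positivity))

theorem ZR6_eq (hb : 0 < b) (hb' : b ≤ 4 / 3) (η : ℝ) (s : Bool) {k : Option O3} {u : ℂ}
    (hu : u.re ∈ KO6 k) : ZR6 c b a z0 η0 v T1 X η s k u = ZP6 c b a z0 η0 v T1 X (η : ℂ) s k u :=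
  ZX6_eq hb hb' (real_Th η) s hu

/-! ## the derivatives -/

/-- the section in `θ` -/
theorem diff_th6 (hb : 0 < b) (hb' : b ≤ 4 / 3) (hz : Lz z0) (hX : FdX X) {θ : ℂ}
    (hθ : θ ∈ SB6 η0 v X) (s : Bool) {k : Option O3} {u : ℂ} (hu : u.re ∈ KO6 k) :
    DifferentiableAt ℂ (fun θ : ℂ => ZP6 c b a z0 η0 v T1 X θ s k u) θ := by
  have h := diff_ZP6 (c := c) (a := a) (T1 := T1) hb hb' hz hX (SB_box (SB6_sub hθ)).1 s hu
  exact DifferentiableAt.comp (f := fun θ : ℂ => (θ, u)) θ h (by fun_prop)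

/-- the section in `u` -/
theorem diff_u6 (hb : 0 < b) (hb' : b ≤ 4 / 3) (hz : Lz z0) (hX : FdX X) {θ : ℂ}
    (hθ : θ ∈ SB6 η0 v X) (s : Bool) {k : Option O3} {u : ℂ} (hu : u.re ∈ KO6 k) :
    DifferentiableAt ℂ (fun u : ℂ => ZP6 c b a z0 η0 v T1 X θ s k u) u := by
  have h := diff_ZP6 (c := c) (a := a) (T1 := T1) hb hb' hz hX (SB_box (SB6_sub hθ)).1 s hu
  exact DifferentiableAt.comp (f := fun u : ℂ => (θ, u)) u h (by fun_prop)

theorem hasDeriv_eta6 (hb : 0 < b) (hb' : b ≤ 4 / 3) (hz : Lz z0) (hX : FdX X) {η : ℝ}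
    (h : η ∈ Metric.ball η0 (rad6 v X / 2)) (s : Bool) {k : Option O3} {u : ℂ} (hu : u.re ∈ KO6 k) :
    HasDerivAt (fun η : ℝ => ZR6 c b a z0 η0 v T1 X η s k u) (ZdR6 c b a z0 η0 v T1 X η s k u) η := by
  have h1 := (diff_th6 (c := c) (a := a) (T1 := T1) hb hb' hz hX (mem_SB6' h) s
    hu).hasDerivAt.comp_ofReal
  have e : (fun η : ℝ => ZR6 c b a z0 η0 v T1 X η s k u) =
      fun η : ℝ => ZP6 c b a z0 η0 v T1 X (η : ℂ) s k u := funext fun η => ZR6_eq hb hb' η s hu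
  rw [e]
  unfold ZdR6
  rw [if_pos ⟨h, hu⟩]
  exact h1

theorem hasDeriv_pos6 (hb : 0 < b) (hb' : b ≤ 4 / 3) (hz : Lz z0) (hX : FdX X) (s : Bool)
    {k : Option O3} {u : ℂ} (hu : u.re ∈ KI k) :
    HasDerivAt (ZR6 c b a z0 η0 v T1 X η0 s k) (ZpR6 c b a z0 η0 v T1 X s k u) u := by
  have h1 := (diff_u6 (c := c) (a := a) (T1 := T1) hb hb' hz hX (mem_SB60 (η0 := η0) (v := v)) s
    (KI6_sub hu)).hasDerivAt
  unfold ZpR6
  rw [if_pos hu]
  refine h1.congr_of_eventuallyEq ?_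
  filter_upwards [KI6_nhd hu] with w hw
  exact ZR6_eq hb hb' η0 s hw

/-! ## measurability -/

theorem meas_AmT (hX : Measurable X) (T1 η0 : ℝ) (θ : ℂ) : Measurable (AmT T1 η0 X θ) := by
  unfold PHK.AmT
  exact (PHK.diff_omA T1).continuous.measurable.sub
    ((((hX.comp (measurable_id.add_const _)).const_mul I).const_mul (θ - η0)).mul
      (PHK.diff_omA' T1).continuous.measurable)

theorem Rws_rwx6 (a : ℕ) (η : ℝ) : Rws (rwx a (η : ℂ)) := fun i => by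
  rw [rwx_re0, abs_zero]
  have := Bd.l_pos
  linarith

theorem meas_ZR6 (hX : FdX X) (η : ℝ) (s : Bool) (k : Option O3) :
    Measurable (ZR6 c b a z0 η0 v T1 X η s k) := by
  unfold ZR6 ZX6
  exact Pool.Agent.PLX.measurable_XXU (PBX.measurable_gP _ _)
    (PHK.meas_gOA (meas_AmT hX.fd.meas T1 η0 _) (Rws_rwq (Rws_rwx6 a η) s) (by simp)) (PBX.Lg_meas _ _)
    ((PBX.Lg_meas _ _).mul ((PBX.Lg_meas _ _).comp (measurable_id.sub_const _))) k

theorem meas_ZpR6 (s : Bool) (k : Option O3) : Measurable (ZpR6 c b a z0 η0 v T1 X s k) := by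
  unfold ZpR6
  exact Measurable.ite (meas_KI k) (measurable_deriv _) measurable_const

theorem meas_ZdR6 (hb : 0 < b) (hb' : b ≤ 4 / 3) (hz : Lz z0) (hX : FdX X) (η : ℝ) (s : Bool)
    (k : Option O3) : Measurable (ZdR6 c b a z0 η0 v T1 X η s k) := by
  classical
  by_cases h : η ∈ Metric.ball η0 (rad6 v X / 2)
  · set F : ℕ → ℂ → ℂ := fun j u => if u.re ∈ KO6 k then
      ((j : ℝ) + 1 : ℝ) • (ZR6 c b a z0 η0 v T1 X (η + ((j : ℝ) + 1)⁻¹) s k u -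
        ZR6 c b a z0 η0 v T1 X η s k u) else 0 with hF
    have hm : ∀ j, Measurable (F j) := fun j =>
      Measurable.ite (meas_KO6 k) ((((meas_ZR6 hX (η + ((j : ℝ) + 1)⁻¹) s k).sub
        (meas_ZR6 hX η s k)).const_smul ((j : ℝ) + 1 : ℝ))) measurable_const
    refine measurable_of_tendsto_metrizable hm ?_
    rw [tendsto_pi_nhds]
    intro u
    by_cases hu : u.re ∈ KO6 k
    · have hd := hasDeriv_eta6 (c := c) (a := a) (T1 := T1) hb hb' hz hX h s hu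
      have h2 := hd.tendsto_slope_zero
      have h3 : Tendsto (fun j : ℕ => ((j : ℝ) + 1)⁻¹) atTop (𝓝[≠] 0) := by
        refine tendsto_nhdsWithin_iff.2 ⟨?_, Eventually.of_forall fun j => ?_⟩
        · have := tendsto_one_div_add_atTop_nhds_zero_nat (𝕜 := ℝ)
          simpa only [one_div] using this
        · have : (0 : ℝ) < (j : ℝ) + 1 := by positivity
          exact inv_ne_zero this.ne'
      have h4 := h2.comp h3
      refine h4.congr fun j => ?_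
      simp only [Function.comp_apply, hF, if_pos hu, inv_inv]
    · have e1 : ZdR6 c b a z0 η0 v T1 X η s k u = 0 := by
        unfold ZdR6
        rw [if_neg fun hc => hu hc.2]
      rw [e1]
      refine tendsto_const_nhds.congr fun j => ?_
      simp only [hF, if_neg hu]
  · have : ZdR6 c b a z0 η0 v T1 X η s k = fun _ => 0 := by
      funext u
      unfold ZdR6
      rw [if_neg fun hc => h hc.1]
    rw [this]
    exact measurable_const

/-! ## bounds -/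

/-- one constant for all kinds and species -/
theorem exists_bd6 (c : Bool → ℂ) (a : ℕ) (η0 : ℝ) (v : Bool → Fin 2 → ℂ) (T1 : ℝ) (hX : FdX X)
    (hb : 0 < b) (hb' : b ≤ 4 / 3) (hz : Lz z0) : ∃ C : ℝ, 0 ≤ C ∧ ∀ θ ∈ SB6 η0 v X,
    ∀ (s : Bool) (k : Option O3) (u : ℂ), u.re ∈ KO6 k →
    ‖ZP6 c b a z0 η0 v T1 X θ s k u‖ ≤ C * Real.exp (rte b a s k * |u.im|) := by
  have h : ∀ p : Bool × Option O3, ∃ C : ℝ, 0 ≤ C ∧ ∀ θ ∈ SB6 η0 v X, ∀ u : ℂ, u.re ∈ KO6 p.2 →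
      ‖ZP6 c b a z0 η0 v T1 X θ p.1 p.2 u‖ ≤ C * Real.exp (rte b a p.1 p.2 * |u.im|) := fun p =>
    ub_ZP6 (c := c) (a := a) (T1 := T1) hb hb' hz hX p.1 p.2
  choose C hC H using h
  refine ⟨∑ p, C p, Finset.sum_nonneg fun p _ => hC p, fun θ hθ s k u hu => ?_⟩
  exact (H (s, k) θ hθ u hu).trans (mul_le_mul_of_nonneg_right
    (Finset.single_le_sum (f := C) (fun p _ => hC p) (Finset.mem_univ (s, k))) (Real.exp_pos _).le)

/-- bound of the product form -/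
def BdP6 (c : Bool → ℂ) (b : ℝ) (a : ℕ) (z0 : ℂ) (η0 : ℝ) (v : Bool → Fin 2 → ℂ) (T1 : ℝ)
    (X : ℂ → ℂ) (C : ℝ) : Prop :=
  ∀ θ ∈ SB6 η0 v X, ∀ (s : Bool) (k : Option O3) (u : ℂ), u.re ∈ KO6 k →
    ‖ZP6 c b a z0 η0 v T1 X θ s k u‖ ≤ C * Real.exp (rte b a s k * |u.im|)

theorem bd_ZR6 (hb : 0 < b) (hb' : b ≤ 4 / 3) {C : ℝ} (h : BdP6 c b a z0 η0 v T1 X C) {η : ℝ}
    (hη : η ∈ Metric.ball η0 (rad6 v X / 2)) (s : Bool) {k : Option O3} {u : ℂ} (hu : u.re ∈ KO6 k) :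
    ‖ZR6 c b a z0 η0 v T1 X η s k u‖ ≤ C * Real.exp (rte b a s k * |u.im|) := by
  rw [ZR6_eq hb hb' η s hu]
  exact h _ (mem_SB6' hη) s k u hu

theorem bd_ZdR6 (hb : 0 < b) (hb' : b ≤ 4 / 3) (hz : Lz z0) (hX : FdX X) {C : ℝ}
    (h : BdP6 c b a z0 η0 v T1 X C) {η : ℝ} (hη : η ∈ Metric.ball η0 (rad6 v X / 2)) (s : Bool)
    {k : Option O3} {u : ℂ} (hu : u.re ∈ KO6 k) :
    ‖ZdR6 c b a z0 η0 v T1 X η s k u‖ ≤ 2 / rad6 v X * C * Real.exp (rte b a s k * |u.im|) := by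
  have hr := rad6_pos v X
  have hr2 : 0 < rad6 v X / 2 := by positivity
  unfold ZdR6
  rw [if_pos ⟨hη, hu⟩]
  have hin : ∀ θ ∈ Metric.closedBall (η : ℂ) (rad6 v X / 2), θ ∈ SB6 η0 v X := fun θ hθ =>
    mem_SB6 hη (by rwa [mem_closedBall_iff_norm] at hθ)
  have hd : DiffContOnCl ℂ (fun θ : ℂ => ZP6 c b a z0 η0 v T1 X θ s k u)
      (Metric.ball (η : ℂ) (rad6 v X / 2)) := by
    refine DifferentiableOn.diffContOnCl ?_
    rw [closure_ball _ hr2.ne']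
    exact fun θ hθ => (diff_th6 hb hb' hz hX (hin θ hθ) s hu).differentiableWithinAt
  have := Complex.norm_deriv_le_of_forall_mem_sphere_norm_le hr2 hd
    (C := C * Real.exp (rte b a s k * |u.im|)) fun θ hθ =>
      h θ (hin θ (Metric.sphere_subset_closedBall hθ)) s k u hu
  refine this.trans (le_of_eq ?_)
  field_simp

theorem bd_ZpR6 (hb : 0 < b) (hb' : b ≤ 4 / 3) (hz : Lz z0) (hX : FdX X) {C : ℝ} (hC : 0 ≤ C)
    (h : BdP6 c b a z0 η0 v T1 X C) (s : Bool) {k : Option O3} {u : ℂ} (hu : u.re ∈ KI k) :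
    ‖ZpR6 c b a z0 η0 v T1 X s k u‖ ≤
      80 / l * Real.exp (|rte b a s k| * (l / 80)) * C * Real.exp (rte b a s k * |u.im|) := by
  have hl := Bd.l_pos
  have hr2 : 0 < l / 80 := by positivity
  unfold ZpR6
  rw [if_pos hu]
  have hin : ∀ w ∈ Metric.closedBall u (l / 80), w.re ∈ KO6 k := fun w hw => by
    rw [mem_closedBall_iff_norm] at hw
    refine KI6_ball hu ?_
    rw [← sub_re]
    exact (abs_re_le_norm _).trans hw
  have hd : DiffContOnCl ℂ (fun u : ℂ => ZP6 c b a z0 η0 v T1 X (η0 : ℂ) s k u)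
      (Metric.ball u (l / 80)) := by
    refine DifferentiableOn.diffContOnCl ?_
    rw [closure_ball _ hr2.ne']
    exact fun w hw => (diff_u6 hb hb' hz hX (mem_SB60 (η0 := η0) (v := v)) s
      (hin w hw)).differentiableWithinAt
  have := Complex.norm_deriv_le_of_forall_mem_sphere_norm_le hr2 hd
    (C := C * (Real.exp (|rte b a s k| * (l / 80)) * Real.exp (rte b a s k * |u.im|)))
    fun w hw => by
      refine (h η0 mem_SB60 s k w (hin w (Metric.sphere_subset_closedBall hw))).trans ?_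
      refine mul_le_mul_of_nonneg_left ?_ hC
      rw [← Real.exp_add]
      refine Real.exp_le_exp.2 ?_
      have h1 : |w.im - u.im| ≤ l / 80 := by
        rw [← sub_im]
        rw [mem_sphere_iff_norm] at hw
        exact (abs_im_le_norm _).trans hw.le
      have h2 : |(|w.im| - |u.im|)| ≤ l / 80 := (abs_abs_sub_abs_le_abs_sub _ _).trans h1
      have h3 : rte b a s k * (|w.im| - |u.im|) ≤ |rte b a s k| * (l / 80) :=
        (le_abs_self _).trans (by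
          rw [abs_mul]
          exact mul_le_mul_of_nonneg_left h2 (abs_nonneg _))
      nlinarith
  refine this.trans (le_of_eq ?_)
  field_simp

/-! ## `ZFam` -/

/-- **`ZFam`**, the constant does not depend on the lines and the number of quanta -/
theorem exists_zfam6 (c : Bool → ℂ) (a : ℕ) (η0 : ℝ) (v : Bool → Fin 2 → ℂ) (T1 : ℝ) (hX : FdX X)
    (hb : 0 < b) (hb' : b ≤ 4 / 3) (hz : Lz z0) : ∃ D : ℝ, 0 ≤ D ∧
    ∀ (α : ℝ) (n n' : ℕ) (L : PBI.Lns),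
    n' = n + Fil.xn (a + 1) → 3 / 5 * l ≤ α → α < 7 / 10 * l → LnH L.X L.Y →
    ZFam α n n' L (2 * b) D (rad6 v X / 2) η0 (ZR6 c b a z0 η0 v T1 X) (ZdR6 c b a z0 η0 v T1 X)
      (ZpR6 c b a z0 η0 v T1 X) := by
  have hl := Bd.l_pos
  have hr := rad6_pos v X
  obtain ⟨C, hC, h⟩ := exists_bd6 c a η0 v T1 hX hb hb' hz
  set K : ℝ := ∑ p : Bool × Option O3, Real.exp (|rte b a p.1 p.2| * (l / 80)) with hK
  have hK0 : 0 ≤ K := Finset.sum_nonneg fun p _ => (Real.exp_pos _).le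
  have hKle : ∀ s k, Real.exp (|rte b a s k| * (l / 80)) ≤ K := fun s k =>
    Finset.single_le_sum (f := fun p : Bool × Option O3 => Real.exp (|rte b a p.1 p.2| * (l / 80)))
      (fun p _ => (Real.exp_pos _).le) (Finset.mem_univ (s, k))
  set D : ℝ := C + 2 / rad6 v X * C + 80 / l * K * C with hD
  have d1 : 0 ≤ 2 / rad6 v X * C := by positivity
  have d2 : 0 ≤ 80 / l * K * C := by positivity
  refine ⟨D, by positivity, fun α n n' L hn hα hα' hL => ?_⟩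
  have up : ∀ {x y : ℝ} {w : ℂ}, ‖w‖ ≤ x * Real.exp y → x ≤ D → ‖w‖ ≤ D * Real.exp y :=
    fun h1 h2 => h1.trans (mul_le_mul_of_nonneg_right h2 (Real.exp_pos _).le)
  have hK := fun {p p' : ℕ} (k : Fin p → O3) (k' : Fin p' → O3) =>
    all_KI hα (by linarith) hL n n' k k'
  refine
    { hκ := by positivity
      hr := by positivity
      hD := by positivity
      hok := all_ok hα hα' hL n n'
      hm := fun η s k => meas_ZR6 hX η s k
      hmd := fun η s k => meas_ZdR6 hb hb' hz hX η s k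
      hm' := fun s k => meas_ZpR6 s k
      hZ := ?_
      hZd := ?_
      hZ' := ?_
      hd := ?_
      hd' := ?_ }
  · intro η hη p p' k k' h1 h2 i t
    have hi := KI6_sub (hK k k' i)
    rw [show L.all α n n' k k' i = (vl (L.all α n n' k k' i) t).re from (re_vl _ _).symm] at hi
    have := bd_ZR6 (c := c) (a := a) hb hb' h hη (cl n n' k k' i).1 hi
    rw [im_vl, rte_word hn h1 h2] at this
    exact up this (by linarith)
  · intro η hη p p' k k' h1 h2 i t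
    have hi := KI6_sub (hK k k' i)
    rw [show L.all α n n' k k' i = (vl (L.all α n n' k k' i) t).re from (re_vl _ _).symm] at hi
    have := bd_ZdR6 (c := c) (a := a) hb hb' hz hX h hη (cl n n' k k' i).1 hi
    rw [im_vl, rte_word hn h1 h2] at this
    exact up this (by linarith)
  · intro p p' k k' h1 h2 i t
    have hi := hK k k' i
    rw [show L.all α n n' k k' i = (vl (L.all α n n' k k' i) t).re from (re_vl _ _).symm] at hi
    have := bd_ZpR6 (c := c) (a := a) hb hb' hz hX hC h (cl n n' k k' i).1 hi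
    rw [im_vl, rte_word hn h1 h2] at this
    refine up this ?_
    have h3 : 80 / l * Real.exp (|rte b a (cl n n' k k' i).1 (cl n n' k k' i).2| * (l / 80)) * C ≤
        80 / l * K * C :=
      mul_le_mul_of_nonneg_right (mul_le_mul_of_nonneg_left (hKle _ _) (by positivity)) hC
    linarith
  · intro η hη p p' k k' h1 h2 i t
    have hi := KI6_sub (hK k k' i)
    rw [show L.all α n n' k k' i = (vl (L.all α n n' k k' i) t).re from (re_vl _ _).symm] at hi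
    exact hasDeriv_eta6 hb hb' hz hX hη (cl n n' k k' i).1 hi
  · intro p p' k k' h1 h2 i t
    have hi := hK k k' i
    rw [show L.all α n n' k k' i = (vl (L.all α n n' k k' i) t).re from (re_vl _ _).symm] at hi
    exact hasDeriv_pos6 hb hb' hz hX (cl n n' k k' i).1 hi

/-- **`ZFam` on the final lines**, one constant for all parameters `P` and all `n` -/
theorem exists_zfam6_P (c : Bool → ℂ) (a : ℕ) (η0 : ℝ) (v : Bool → Fin 2 → ℂ) (T1 : ℝ) (hX : FdX X)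
    (hb : 0 < b) (hb' : b ≤ 4 / 3) (hz : Lz z0) : ∃ D : ℝ, 0 ≤ D ∧
    ∀ P : NUO.Par, NUGC.PLX.ParC P → ∀ n n' : ℕ, n' = n + Fil.xn (a + 1) →
    ZFam (3 / 5 * l) n n' ⟨NUP1S.lX P, NUP1S.lY P⟩ (2 * b) D (rad6 v X / 2) η0
      (ZR6 c b a z0 η0 v T1 X) (ZdR6 c b a z0 η0 v T1 X) (ZpR6 c b a z0 η0 v T1 X) := by
  have hl := Bd.l_pos
  obtain ⟨D, hD, h⟩ := exists_zfam6 c a η0 v T1 hX hb hb' hz
  refine ⟨D, hD, fun P hP n n' hn => ?_⟩
  exact h _ n n' _ hn le_rfl (by linarith) (LnH_P hP.goodP hP.j1 hP.j2 fun r => by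
    have h1 := hP.e2 r
    have h2 := hP.d0 r
    linarith)

/-! ## the cutoff along the path -/

/-- derivative of the cutoff of a kind along the path -/
def DcutZ6 (s : Bool) (b : ℝ) (a : ℕ) (η0 : ℝ) (ξe : ℝ → ℂ) (T1 : ℝ) (ξ : ℂ) : Option O3 → ℂ → ℂ
  | some .S, u => DS6 (Fil.n s) (Fil.n s * a) (η0 * I) I T1 ξ u
  | some .T, u => DT6 (Fil.n s) b (Fil.n s * a) (η0 * I) I ξe T1 ξ u
  | _, u => PBFar.PLX.DW (Fil.n s) b (Fil.n s * a) (η0 * I) I ξe ξ u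

/-- the cutoff of the strings along the path -/
theorem path_phX {q a : ℕ} (hX : FdX X) {u : ℂ} (hu : u.re ∈ KWo)
    (hR : HasDerivAt (fun τ : ℝ => NUP1.phi (4 / 3) (R0 q a (((η0 : ℂ) + τ) * I))
        (u + I * X (u + 2 * l) * τ))
      (PBFar.PLX.DR q (4 / 3) a ((η0 : ℂ) * I) I (X (u + 2 * l)) u) 0) :
    HasDerivAt (fun τ : ℝ => phX (AmT T1 η0 X ((η0 : ℂ) + τ)) (R0 q a (((η0 : ℂ) + τ) * I))
        (u + I * X (u + 2 * l) * τ))
      (DS6 q a ((η0 : ℂ) * I) I T1 (X (u + 2 * l)) u) 0 := by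
  have hA := path_AmT (T1 := T1) (η0 := η0) (hX.fd.diff u hu)
  obtain ⟨ξ, hξ⟩ : ∃ ξ, ξ = X (u + 2 * l) := ⟨_, rfl⟩
  rw [← hξ] at hA hR ⊢
  have hP : HasDerivAt (fun τ : ℝ => pP (R0 q a (((η0 : ℂ) + τ) * I)) (u + I * ξ * τ))
      (-(PBFar.PLX.DR q (4 / 3) a ((η0 : ℂ) * I) I ξ u)) 0 := by
    have e : (fun τ : ℝ => pP (R0 q a (((η0 : ℂ) + τ) * I)) (u + I * ξ * τ)) =
        fun τ : ℝ => 1 - NUP1.phi (4 / 3) (R0 q a (((η0 : ℂ) + τ) * I)) (u + I * ξ * τ) := by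
      funext τ
      rw [PHK.phi_pP, sub_sub_cancel]
    rw [e]
    exact hR.const_sub 1
  have h := hR.mul ((hA.mul hP).neg.cexp)
  refine h.congr_deriv ?_
  have e0 : (η0 : ℂ) + ((0 : ℝ) : ℂ) = η0 := by rw [ofReal_zero, add_zero]
  have e1 : u + I * ξ * ((0 : ℝ) : ℂ) = u := by rw [ofReal_zero, mul_zero, add_zero]
  simp only [Pi.mul_apply, Pi.neg_apply, e0, e1, AmT_at]
  unfold PBC.PLX.DS6 PHK.om
  ring

theorem path_cut6 (hb1 : 1 ≤ b) (hb' : b ≤ 4 / 3) (η0 : ℝ) (ξe : ℝ → ℂ) (hX : FdX X) (s : Bool)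
    {k : Option O3} {u : ℂ} (ξ : ℂ) (hξ : k = some .S ∨ k = some .T → ξ = X (u + 2 * l))
    (hu : u.re ∈ KI k) :
    HasDerivAt (fun τ : ℝ => cutZ6 (AmT T1 η0 X ((η0 : ℂ) + τ)) s b a (((η0 : ℂ) + τ) * I)
        (vx η0 (vE b a η0 ξe s) ((η0 : ℂ) + τ)) k (u + I * ξ * τ))
      (DcutZ6 s b a η0 ξe T1 ξ k u) 0 := by
  have hl := Bd.l_pos
  have H' := hyp75 (b := 4 / 3) (by norm_num) le_rfl
  have hc := path_cut (a := a) hb1 hb' η0 ξe s (k := k) ξ hu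
  have x0 : |((η0 : ℂ) * I).re| ≤ l / 2 := by
    rw [show ((η0 : ℂ) * I).re = 0 by simp, abs_zero]
    positivity
  have hid : HasDerivAt (fun τ : ℝ => ((τ : ℝ) : ℂ)) 1 0 := by
    simpa using (hasDerivAt_id ((0 : ℝ) : ℂ)).comp_ofReal
  have hXX : HasDerivAt (fun τ : ℝ => ((η0 : ℂ) + τ) * I) I 0 := by
    simpa using (hid.const_add (η0 : ℂ)).mul_const I
  have hX0 : (fun τ : ℝ => ((η0 : ℂ) + τ) * I) 0 = (η0 : ℂ) * I := by simp
  have hU : HasDerivAt (fun τ : ℝ => u + I * ξ * τ) (I * ξ) 0 := by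
    simpa using (hid.const_mul (I * ξ)).const_add u
  have hU0 : u + I * ξ * ((0 : ℝ) : ℂ) = u := by simp
  have s1 : |(u + I * ξ * ((0 : ℝ) : ℂ)).re + l / 2| ≤ 7 / 5 * l := by
    rw [hU0, abs_le]
    rcases k with _ | (_ | _ | _)
    all_goals
      obtain ⟨h1, h2⟩ := hu
      constructor <;> linarith
  have hR := PBFar.PLX.hasDerivAt_R H' (q := Fil.n s) (a := Fil.n s * a) x0 hXX hX0 hU s1
  rw [hU0] at hR
  rcases k with _ | (_ | _ | _)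
  · exact hc
  · exact hc
  · have e := hξ (Or.inl rfl)
    subst e
    exact path_phX hX (KO6_S (KI6_sub hu)) hR
  · have e := hξ (Or.inr rfl)
    subst e
    have h1 := path_phX (T1 := T1) hX (KO6_T (KI6_sub hu)) hR
    have h2 := (hc.add hR).sub h1
    refine (h2.congr_deriv ?_).congr_of_eventuallyEq (Filter.Eventually.of_forall fun τ => ?_)
    · show PBFar.PLX.DT (Fil.n s) b (Fil.n s * a) (η0 * I) I ξe (X (u + 2 * l)) u +
        PBFar.PLX.DR (Fil.n s) (4 / 3) (Fil.n s * a) ((η0 : ℂ) * I) I (X (u + 2 * l)) u -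
        DS6 (Fil.n s) (Fil.n s * a) ((η0 : ℂ) * I) I T1 (X (u + 2 * l)) u =
        DT6 (Fil.n s) b (Fil.n s * a) (η0 * I) I ξe T1 (X (u + 2 * l)) u
      unfold PBC.PLX.DT6 PBFar.PLX.DT
      ring
    · simp only [Pi.add_apply, Pi.sub_apply]
      show NUP1.phi b (W0 (Fil.n s) (Fil.n s * a) _ _) _ * NUP1.phi b (W0 (Fil.n s) (Fil.n s * a) _ _) _ -
        phX (AmT T1 η0 X ((η0 : ℂ) + τ)) (R0 (Fil.n s) (Fil.n s * a) _) _ =
        PBFar.PLX.cutT (Fil.n s) b (Fil.n s * a) _ _ _ + _ - _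
      unfold PBFar.PLX.cutT
      ring

/-! ## the cut term -/

/-- **what the first Ward identity leaves**: row factor × derivative of the cutoff × legs -/
theorem zcut6_eq0 (c : Bool → ℂ) (hb1 : 1 ≤ b) (hb' : b ≤ 4 / 3) (hz : Lz z0) (η0 : ℝ) (ξe : ℝ → ℂ)
    (T1 : ℝ) (hX : FdX X) {Ξ κr r1 lam : PBI.Kd → ℂ → ℂ} (s : Bool) {k : Option O3} {u : ℂ}
    (hu : u.re ∈ KI k) (hΞ : ∀ o : O3, Ξ (s, some o) u = X (u + 2 * l))
    (hκ : κr (s, k) u = krA (Fil.b s) (Fil.b (!s)) (ob4 k) (rwx a (η0 : ℂ)) u)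
    (hr : r1 (s, k) u = r1A (Fil.b s) (Fil.b (!s)) (ob4 k) (rwx a (η0 : ℂ)) 0 u)
    (hlam : lam (s, k) u = lamK z0 k u) :
    Zcut (ZR6 c b a z0 η0 (vE b a η0 ξe) T1 X η0) (ZdR6 c b a z0 η0 (vE b a η0 ξe) T1 X η0)
      (ZpR6 c b a z0 η0 (vE b a η0 ξe) T1 X) Ξ κr r1 lam s k u =
    rowB (c s) (Fil.n s) (Fil.n (!s)) (rwx a (η0 : ℂ)) (ob4 k) u *
      DcutZ6 s b a η0 ξe T1 (Ξ (s, k) u) k u * one (Lg z0 z0) (ob4 k) u := by
  have hb : 0 < b := by linarith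
  set v := vE b a η0 ξe with hv
  set ξ := Ξ (s, k) u with hξ
  have hr0 := rad6_pos v X
  have huO := KI6_sub hu
  have huO' := KI_sub hu
  have h0 : η0 ∈ Metric.ball η0 (rad6 v X / 2) := Metric.mem_ball_self (by positivity)
  -- the total derivative
  have hG := diff_ZP6 (c := c) (a := a) (T1 := T1) (θ := (η0 : ℂ)) hb hb' hz hX
    (SB_box (SB6_sub (mem_SB60 (η0 := η0) (v := v) (X := X)))).1 s huO
  have hA := (diff_th6 (c := c) (a := a) (T1 := T1) hb hb' hz hX (mem_SB60 (η0 := η0) (v := v)) s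
    huO).hasDerivAt
  have hB := (diff_u6 (c := c) (a := a) (T1 := T1) hb hb' hz hX (mem_SB60 (η0 := η0) (v := v)) s
    huO).hasDerivAt
  have p0 := path_deriv (ξ := ξ) hG hA hB
  -- the product
  have p1 := path_rowB (a := a) (c s) (Fil.n s) (Fil.n (!s)) η0 ξ huO'
  have p2 := path_cut6 (a := a) (T1 := T1) hb1 hb' η0 ξe hX s ξ (by
    rintro (rfl | rfl)
    · exact hΞ .S
    · exact hΞ .T) hu
  have p3 := path_leg hz ξ huO'
  have p4 := (p1.mul p2).mul p3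
  have key := p0.unique p4
  have ez : ((η0 : ℂ) + ((0 : ℝ) : ℂ)) = η0 := by rw [ofReal_zero, add_zero]
  have eu : (u + I * ξ * ((0 : ℝ) : ℂ)) = u := by rw [ofReal_zero, mul_zero, add_zero]
  simp only [Pi.mul_apply, ez, eu, ← hv] at key
  have n1 : ((Fil.b s : ℝ) : ℂ) = ((Fil.n s : ℕ) : ℂ) := by
    rw [← Fil.cast_n, ofReal_natCast]
  have n2 : ((Fil.b (!s) : ℝ) : ℂ) = ((Fil.n (!s) : ℕ) : ℂ) := by
    rw [← Fil.cast_n, ofReal_natCast]
  unfold Zcut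
  rw [hκ, hr, hlam, ← hξ, ZR6_eq hb hb' η0 s huO, n1, n2]
  have e1 : ZdR6 c b a z0 η0 v T1 X η0 s k u =
      deriv (fun θ : ℂ => ZP6 c b a z0 η0 v T1 X θ s k u) (η0 : ℂ) := by
    unfold ZdR6
    rw [if_pos ⟨h0, huO⟩]
  have e2 : ZpR6 c b a z0 η0 v T1 X s k u =
      deriv (fun u : ℂ => ZP6 c b a z0 η0 v T1 X (η0 : ℂ) s k u) u := by
    unfold ZpR6
    rw [if_pos hu]
  rw [e1, e2, key]
  unfold ZP6
  ring

/-- **`Zcut` is `ZcX6`** on the inner strips -/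
theorem zcut6_eq (c : Bool → ℂ) (hb1 : 1 ≤ b) (hb' : b ≤ 4 / 3) (hz : Lz z0) (η0 : ℝ) (ξe : ℝ → ℂ)
    (T1 : ℝ) (hXF : FdX X) {Ξ κr r1 lam : PBI.Kd → ℂ → ℂ} (s : Bool) {k : Option O3} {u : ℂ}
    (hu : u.re ∈ KI k)
    (hX : Ξ (s, none) u = X u) (hX' : ∀ o : O3, Ξ (s, some o) u = X (u + 2 * l))
    (hκ : κr (s, k) u = krA (Fil.b s) (Fil.b (!s)) (ob4 k) (rwx a (η0 : ℂ)) u)
    (hr : r1 (s, k) u = r1A (Fil.b s) (Fil.b (!s)) (ob4 k) (rwx a (η0 : ℂ)) 0 u)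
    (hlam : lam (s, k) u = lamK z0 k u) :
    Zcut (ZR6 c b a z0 η0 (vE b a η0 ξe) T1 X η0) (ZdR6 c b a z0 η0 (vE b a η0 ξe) T1 X η0)
      (ZpR6 c b a z0 η0 (vE b a η0 ξe) T1 X) Ξ κr r1 lam s k u =
    ZcX6 (c s) (rwq (rwx a (η0 : ℂ)) s) (rwq (rwx a (η0 : ℂ)) (!s)) (Fil.n s) b (Fil.n s * a)
      ((η0 : ℂ) * I) I ξe T1 X (Lg z0 z0) (fun w => Lg z0 z0 w * Lg z0 z0 (w - l)) k u := by
  rw [zcut6_eq0 c hb1 hb' hz η0 ξe T1 hXF s hu hX' hκ hr hlam]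
  have e3 := RRU_rwq (c s) (rwx a (η0 : ℂ)) s
  rcases k with _ | (_ | _ | _)
  · rw [hX]
    show _ = RRU (c s) (rwq (rwx a (η0 : ℂ)) s) (rwq (rwx a (η0 : ℂ)) (!s)) u *
      PBFar.PLX.DW (Fil.n s) b (Fil.n s * a) ((η0 : ℂ) * I) I ξe (X u) u * Lg z0 z0 u
    rw [e3]
    rfl
  · rw [hX' .L]
    show _ = RRU (c s) (rwq (rwx a (η0 : ℂ)) s) (rwq (rwx a (η0 : ℂ)) (!s)) u *
      PBFar.PLX.DW (Fil.n s) b (Fil.n s * a) ((η0 : ℂ) * I) I ξe (X (u + 2 * l)) u * Lg z0 z0 u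
    rw [e3]
    rfl
  · rw [hX' .S]
    show _ = RRU (c s) (rwq (rwx a (η0 : ℂ)) s) (rwq (rwx a (η0 : ℂ)) (!s)) u *
      RRU (c s) (rwq (rwx a (η0 : ℂ)) s) (rwq (rwx a (η0 : ℂ)) (!s)) (u - l) *
      DS6 (Fil.n s) (Fil.n s * a) ((η0 : ℂ) * I) I T1 (X (u + 2 * l)) u *
      (Lg z0 z0 u * Lg z0 z0 (u - l))
    rw [e3, e3]
    rfl
  · rw [hX' .T]
    show _ = RRU (c s) (rwq (rwx a (η0 : ℂ)) s) (rwq (rwx a (η0 : ℂ)) (!s)) u *
      RRU (c s) (rwq (rwx a (η0 : ℂ)) s) (rwq (rwx a (η0 : ℂ)) (!s)) (u - l) *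
      DT6 (Fil.n s) b (Fil.n s * a) ((η0 : ℂ) * I) I ξe T1 (X (u + 2 * l)) u *
      (Lg z0 z0 u * Lg z0 z0 (u - l))
    rw [e3, e3]
    rfl

/-- **the cut term on the lines of all words, literal names** -/
theorem zcut6_K (c : Bool → ℂ) (hb1 : 1 ≤ b) (hb' : b ≤ 4 / 3) (hz : Lz z0) (η0 : ℝ)
    (ξe : ℝ → ℂ) (T1 : ℝ) (hX : FdX (PBForce.xiR (rwx a (η0 : ℂ)) 0)) {α : ℝ} (hα : 3 / 5 * l ≤ α)
    (hα' : α ≤ 9 / 10 * l) {L : PBI.Lns} (hL : LnH L.X L.Y) (n n' : ℕ) :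
    AllW α n n' L fun c' x => ∀ i, ∀ t : ℝ,
      Zcut (ZR6 c b a z0 η0 (vE b a η0 ξe) T1 (PBForce.xiR (rwx a (η0 : ℂ)) 0) η0)
        (ZdR6 c b a z0 η0 (vE b a η0 ξe) T1 (PBForce.xiR (rwx a (η0 : ℂ)) 0) η0)
        (ZpR6 c b a z0 η0 (vE b a η0 ξe) T1 (PBForce.xiR (rwx a (η0 : ℂ)) 0))
        (PBQ1.xiK (rwx a (η0 : ℂ)) 0) (PBQ1.krK2 (rwx a (η0 : ℂ))) (PBQ1.r1K2 (rwx a (η0 : ℂ)) 0)
        (PBQ1.lamK z0) (c' i).1 (c' i).2 (NUP1.vl (x i) t) =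
      ZcX6 (c (c' i).1) (rwq (rwx a (η0 : ℂ)) (c' i).1) (rwq (rwx a (η0 : ℂ)) (!(c' i).1))
        (Fil.n (c' i).1) b (Fil.n (c' i).1 * a) ((η0 : ℂ) * I) I ξe T1
        (PBForce.xiR (rwx a (η0 : ℂ)) 0) (Lg z0 z0)
        (fun w => Lg z0 z0 w * Lg z0 z0 (w - l)) (c' i).2 (NUP1.vl (x i) t) := by
  intro p p' k k' h1 h2 i t
  have hi := all_KI hα hα' hL n n' k k' i
  rw [show L.all α n n' k k' i = (NUP1.vl (L.all α n n' k k' i) t).re from
    (NUP1.re_vl _ _).symm] at hi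
  exact zcut6_eq c hb1 hb' hz η0 ξe T1 hX (PBI.cl n n' k k' i).1 hi rfl (fun o => rfl) rfl rfl
    (PBZF.lamK_eq hz hi)

/-- the field of the rows is admissible -/
theorem fdX_fl {k : ℕ} {C0 : ℝ} {X : ℂ → ℂ} {ξe : ℝ → ℂ} (hC0 : 0 ≤ C0)
    (h : PBC.PLX.FlX6 k C0 X ξe) : FdX X := by
  have hl := Bd.l_pos
  have hre : ∀ w : ℂ, (w + 2 * l).re = w.re + 2 * l := fun w => by simp
  refine ⟨2 * C0 / k, h.me, by positivity, fun w hw => ?_, fun w hw => ?_⟩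
  · obtain ⟨h1, h2⟩ := hw
    refine h.norm_le ?_ ?_
    · rw [hre]; linarith
    · rw [hre]; linarith
  · obtain ⟨h1, h2⟩ := hw
    refine h.df _ ?_ ?_
    · rw [hre]; linarith
    · rw [hre]; linarith

/-- **the field of the rows `i η`, `0 ^ k`** -/
theorem fdX_xiR {k : ℕ} (hk : 1 ≤ k) {η : ℝ} (hη : |η| ≤ 1) :
    FdX (PBForce.xiR (rwx k (η : ℂ)) 0) := by
  obtain ⟨C0, h1, H⟩ := PBC.PLX.flX6_xiR
  exact fdX_fl (by linarith) (H k hk η hη)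

end PBZF.PLX

end
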