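import Pool.Agent.PHK.ZPos6
import Pool.Agent.PHK.MIns6
import Pool.Agent.PLX.PB.ZLeg

/-!
# (P), (Z): the derivatives in the height of the legs

(P) twin of `PLX/PB/ZLeg` over `FF6`, `Cf6`: names with `6`; `vP`, `pI`, `pI2`, `Mn`, `Mn2` are the landed ones.

* `obP6 g`: the objects with their multiplicities; `obP_le6`: at most `8 K` times the pinned objects;
* `wC_Zm6`, `WT_eq6`: the legs as a factor of the weight;
* **`LegH6.zpath`**: the structure `ZPath` on the configurations `CfN6 N`;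
* **`LegH6.d1`, `LegH6.d2`**: first and second derivative of the functional, exact;
* **`leg_b16`, `leg_b26`**: against the pinned functionals `pI`, `pI2`.
-/

set_option autoImplicit false
set_option linter.unusedSectionVars false
set_option linter.unusedVariables false

noncomputable section

open Complex MeasureTheory Finset Filter Topology
open scoped ENNReal

open PLX (Fil)

namespace PBLg.PLX

open PBF PBF.PLX PBFunc PBFunc.PLX NUO NUP1S NUP1S.AbC NUGC NUGC.PLX NUCR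
open PBI (Stt)
open NUMF (l P)
open PHK (Cst6 Par6 GoodP6 cst6 csA6 k6 tz tz_cons posB FF6 FA6 Fa6 stA6 stO6 obT6 MC6 Cf6 wC6 wP6 ev6 CfN6 mN6
  wN6 evN6 FFN6 FAN6)

/-- bounds of the leg factor of a constituent -/
theorem ap_lgK_bd6 : ∃ B : ℝ, 1 ≤ B ∧ ∀ (τ : ℝ) (c : Cst), PosOk c →
    B⁻¹ ≤ ‖ap (lgK (I * τ)) c‖ ∧ ‖ap (lgK (I * τ)) c‖ ≤ B := by
  obtain ⟨b, B, hb, hb1, hB, h⟩ := ap_lgK_bd
  refine ⟨max B b⁻¹, hB.trans (le_max_left _ _), fun τ c hc => ?_⟩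
  obtain ⟨h1, h2⟩ := h τ c hc
  refine ⟨le_trans ?_ h1, h2.trans (le_max_left _ _)⟩
  calc (max B b⁻¹)⁻¹ ≤ (b⁻¹)⁻¹ := inv_anti₀ (inv_pos.2 hb) (le_max_right _ _)
    _ = b := inv_inv b

/-! ### the objects and the quanta on the curve -/

/-- the objects -/
def obP6 (g : ℂ → ℂ) (Pm : Par6) : Ins := fun _ O _ _ _ => stO6 (csS g) Pm O

variable [Fil]

theorem stA_split6 (ρ : ℝ → ℂ) (g : ℂ → ℂ) (Pm : Par6) (η : Crs) {r a b : ℕ} (O : Fin r → Xo)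
    (x : (Fin a → ℝ) × (Fin b → ℝ)) : stA6 (csS g) Pm η r O a b x - bS * ∫ t : ℝ, ρ t * g t =
      vP ρ g η r O a b x + obP6 g Pm r O a b x := by
  unfold PHK.stA6 vP obP6 PBF.PLX.stQ
  simp only [csS]
  ring

theorem obT6_sL6 (g : Stt) (Pm : Par6) (x : Xo) : obT6 g Pm x = sL6 g (cst6 Pm x) := rfl

theorem obP_le6 {Pm : Par6} (hP : GoodP6 Pm) {g : ℂ → ℂ} {τ K : ℝ} (hK : 0 ≤ K)
    (h : ∀ u, InR u → ‖g (hgt u)‖ ≤ K * Real.exp (-(2 * |u.im - τ|))) {r a b : ℕ} (O : Fin r → Xo)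
    (x : (Fin a → ℝ) × (Fin b → ℝ)) :
    ‖obP6 g Pm r O a b x‖ ≤ 8 * K * Real.exp (2 * |τ| + l / 8) * ‖pI r O a b x‖ := by
  have hl := NUMF.l_pos
  have e0 : ‖pI r O a b x‖ = ∑ i, Real.exp (-(2 * |ht (O i)|)) := by
    unfold pI
    rw [norm_real, Real.norm_of_nonneg (Finset.sum_nonneg fun i _ => (Real.exp_pos _).le)]
  rw [e0, Finset.mul_sum]
  unfold obP6 PHK.stO6
  refine (norm_sum_le _ _).trans (Finset.sum_le_sum fun i _ => ?_)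
  rw [obT6_sL6]
  have h1 : ∀ c ∈ cst6 Pm (O i), ‖ap (csS g) c.1‖ ≤
      2 * K * (Real.exp (2 * |τ| + l / 8) * Real.exp (-(2 * |ht (O i)|))) := fun c hc => by
    refine (ap_csS_le hK h (posOk_cst6 hP (O i) c hc)).trans ?_
    refine mul_le_mul_of_nonneg_left (ht_im _ _ _ ?_) (by positivity)
    rw [cst6_im Pm (O i) c hc, sub_self, abs_zero]
    positivity
  refine (norm_sumL6 (by positivity) h1 (PHK.tz_cst6_le _ _)).trans (le_of_eq ?_)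
  push_cast
  ring

/-! ### the weight -/

section weight

variable {Z0 : Stt} {Pm : Par6} {N : ℕ} {η η' : ℕ → Crs}

/-- a multiplicative insertion as a factor of the weight -/
theorem wC_Zm6 (Z g : Stt) (Pm : Par6) (n n' : ℕ) (η η' : Crs) (c : Cf6 n n') :
    wC6 (Zm Z g) Pm n n' η η' c = wC6 Z Pm n n' η η' c * ev6 (Fa6 g Pm η) c := by
  unfold PHK.wC6 PHK.wP6 PHK.ev6 PHK.Fa6
  split_ifs
  · rw [PHK.wK6_mul, PHK.gK6_mul]
    ring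
  · rw [zero_mul]

/-- the hypotheses of this file -/
structure LegH6 (Z0 : Stt) (Pm : Par6) (N : ℕ) (η η' : ℕ → Crs) : Prop where
  P : GoodP6 Pm
  Z : ∀ s k, Measurable (Z0 s k)
  c : ∀ n, MCr (η n) (η' n)
  b : ∀ n r O t, |η n r O t| ≤ l / 2
  f : ∀ n ≤ N, ∃ τ : ℝ,
    FA6 (Zm Z0 (lgK (I * τ))) Pm n (n + dN N) (η n) (η' n) (fun _ _ _ _ _ => 1) < ∞

/-- the weight without legs -/
def w0N6 (Z0 : Stt) (Pm : Par6) (N : ℕ) (η η' : ℕ → Crs) : CfN6 N → ℂ :=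
  wN6 (fun _ => Z0) (fun _ => Pm) N η η' fun _ => 1

/-- the legs -/
def EN6 (Pm : Par6) (N : ℕ) (η : ℕ → Crs) (τ : ℝ) : CfN6 N → ℂ :=
  evN6 fun n => Fa6 (lgK (I * τ)) Pm (η n)

/-- the statistic of all constituents -/
def AN6 (Pm : Par6) (N : ℕ) (η : ℕ → Crs) (g : ℂ → ℂ) : CfN6 N → ℂ :=
  evN6 fun n => stA6 (csS g) Pm (η n)

/-- the weight with legs at `i τ` and normaliser `c τ` -/
def WT6 (Z0 : Stt) (Pm : Par6) (N : ℕ) (η η' : ℕ → Crs) (c : ℝ → ℂ) (τ : ℝ) : CfN6 N → ℂ :=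
  wN6 (fun _ => Zm Z0 (lgK (I * τ))) (fun _ => Pm) N η η' fun _ => c τ

theorem WT_eq6 (Z0 : Stt) (Pm : Par6) (N : ℕ) (η η' : ℕ → Crs) (c : ℝ → ℂ) (τ : ℝ) :
    WT6 Z0 Pm N η η' c τ = wt c (w0N6 Z0 Pm N η η') (EN6 Pm N η) τ := by
  funext x
  unfold WT6 wt w0N6 EN6 PHK.wN6 PHK.evN6
  simp only [wC_Zm6]
  ring

/-- the bound of the number of the constituents -/
def nC6 (N : ℕ) : ℕ := 18 * N + 9 * dN N

theorem len_le6 (Pm : Par6) (η : ℕ → Crs) (x : CfN6 N) :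
    tz (csA6 Pm (η x.1 x.2.1.1 x.2.2.1) x.2.2.1 x.2.2.2) ≤ nC6 N := by
  have h1 := PHK.tz_csA6_le Pm (η x.1 x.2.1.1 x.2.2.1) x.2.2.1 x.2.2.2
  have h2 := x.1.2
  have h3 := x.2.1.1.2
  have h4 := x.2.1.2.1.2
  have h5 := x.2.1.2.2.2
  unfold nC6
  omega

theorem EN_eq6 (Pm : Par6) (η : ℕ → Crs) (τ : ℝ) (x : CfN6 N) : EN6 Pm N η τ x =
    pL6 (lgK (I * τ)) (csA6 Pm (η x.1 x.2.1.1 x.2.2.1) x.2.2.1 x.2.2.2) :=
  PHK.Fa6_eq _ _ _ _ _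

theorem AN_eq6 (Pm : Par6) (η : ℕ → Crs) (g : ℂ → ℂ) (x : CfN6 N) : AN6 Pm N η g x =
    sL6 (csS g) (csA6 Pm (η x.1 x.2.1.1 x.2.2.1) x.2.2.1 x.2.2.2) :=
  PHK.stA6_eq _ _ _ _ _

namespace LegH6

variable (H : LegH6 Z0 Pm N η η')

include H

theorem ok (x : CfN6 N) :
    ∀ c ∈ csA6 Pm (η x.1 x.2.1.1 x.2.2.1) x.2.2.1 x.2.2.2, PosOk c.1 :=
  posOk_csA6 H.P (fun t => H.b _ _ _ t) _ _

theorem mc (g : Stt) (hg : ∀ s k, Measurable (g s k)) (n : ℕ) :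
    MC6 (Zm Z0 g) Pm (η n) (η' n) :=
  PHK.MC6.of (fun s k => (H.Z s k).mul (hg s k)) (H.c n)

theorem mc0 (n : ℕ) : MC6 Z0 Pm (η n) (η' n) := PHK.MC6.of H.Z (H.c n)

theorem mEN (τ : ℝ) : Measurable (EN6 Pm N η τ) :=
  PHK.evN_meas6 fun n _ => PHK.MIn.Fa6 (measurable_lgK _) (H.c n)

theorem mAN {g : ℂ → ℂ} (hg : Measurable g) : Measurable (AN6 Pm N η g) :=
  PHK.evN_meas6 fun n _ => PHK.MIn.stA6 (measurable_csS hg) (H.c n)

/-- finiteness without legs -/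
theorem f0 {n : ℕ} (hn : n ≤ N) :
    FA6 Z0 Pm n (n + dN N) (η n) (η' n) (fun _ _ _ _ _ => 1) < ∞ := by
  obtain ⟨B, hB, h⟩ := ap_lgK_bd6
  have hB0 : 0 < B := by linarith
  obtain ⟨τ, hf⟩ := H.f n hn
  rw [PHK.FA6_eq (H.mc _ (measurable_lgK _) n) MIn.one] at hf
  rw [PHK.FA6_eq (H.mc0 n) MIn.one]
  have hbN : 0 < B ^ (nC6 N) := by positivity
  have key : ∀ c : Cf6 n (n + dN N), ‖wC6 Z0 Pm n (n + dN N) (η n) (η' n) c‖ₑ *
      ‖ev6 (n := n) (n' := n + dN N) (fun _ _ _ _ _ => (1 : ℂ)) c‖ₑ ≤ ENNReal.ofReal (B ^ (nC6 N)) *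
        (‖wC6 (Zm Z0 (lgK (I * τ))) Pm n (n + dN N) (η n) (η' n) c‖ₑ *
          ‖ev6 (n := n) (n' := n + dN N) (fun _ _ _ _ _ => (1 : ℂ)) c‖ₑ) := by
    intro c
    have e1 : ev6 (n := n) (n' := n + dN N) (fun _ _ _ _ _ => (1 : ℂ)) c = 1 := rfl
    rw [e1, enorm_one, mul_one, mul_one, wC_Zm6, enorm_mul, mul_comm, mul_assoc]
    have h1 : (B ^ (nC6 N))⁻¹ ≤ ‖ev6 (Fa6 (lgK (I * τ)) Pm (η n)) c‖ := by
      show (B ^ (nC6 N))⁻¹ ≤ ‖Fa6 (lgK (I * τ)) Pm (η n) _ _ _ _ _‖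
      rw [PHK.Fa6_eq]
      refine norm_prodL6_ge (g := lgK (I * τ)) hB (fun d hd => h τ d.1 ?_) ?_
      · exact posOk_csA6 H.P (fun t => H.b _ _ _ t) _ _ d hd
      · have h1 := PHK.tz_csA6_le Pm (η n c.1.1 c.2.1) c.2.1 c.2.2
        have h3 := c.1.1.2
        have h4 := c.1.2.1.2
        have h5 := c.1.2.2.2
        unfold nC6
        omega
    have h2 : 1 ≤ ENNReal.ofReal (B ^ (nC6 N)) *
        ‖ev6 (Fa6 (lgK (I * τ)) Pm (η n)) c‖ₑ := by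
      rw [← ofReal_norm, ← ENNReal.ofReal_mul (by positivity), ← ENNReal.ofReal_one]
      refine ENNReal.ofReal_le_ofReal ?_
      rwa [inv_le_iff_one_le_mul₀' hbN] at h1
    calc ‖wC6 Z0 Pm n (n + dN N) (η n) (η' n) c‖ₑ =
        1 * ‖wC6 Z0 Pm n (n + dN N) (η n) (η' n) c‖ₑ := (one_mul _).symm
      _ ≤ (ENNReal.ofReal (B ^ (nC6 N)) * ‖ev6 (Fa6 (lgK (I * τ)) Pm (η n)) c‖ₑ) *
          ‖wC6 Z0 Pm n (n + dN N) (η n) (η' n) c‖ₑ := mul_le_mul' h2 le_rfl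
      _ = _ := by ring
  refine (lintegral_mono key).trans_lt ?_
  rw [lintegral_const_mul' _ _ ENNReal.ofReal_ne_top]
  exact ENNReal.mul_lt_top ENNReal.ofReal_lt_top hf

theorem int0 : Integrable (w0N6 Z0 Pm N η η') (mN6 N) := by
  have h1 : FAN6 (fun _ => Z0) (fun _ => Pm) N η η' (fun _ => 1) (fun _ _ _ _ _ _ => 1) < ∞ := by
    unfold PHK.FAN6
    rw [ENNReal.sum_lt_top]
    intro n hn
    rw [enorm_one, one_mul]
    exact H.f0 (by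
      rw [Finset.mem_range] at hn
      omega)
  have h2 := PHK.WIN_of6 (c := fun _ => (1 : ℂ)) (Ψ := fun _ _ _ _ _ _ => (1 : ℂ))
    (fun n _ => H.mc0 n) (fun n _ => MIn.one) h1
  unfold PBFunc.WI at h2
  refine h2.congr (Eventually.of_forall fun x => ?_)
  show w0N6 Z0 Pm N η η' x * 1 = _
  rw [mul_one]

/-- **the path of the weights** -/
theorem zpath : ∃ B : ℝ, ZPath (mN6 N) (w0N6 Z0 Pm N η η') (EN6 Pm N η)
    (fun τ => AN6 Pm N η fun z => dl (z - τ)) (fun τ => AN6 Pm N η fun z => dl2 (z - τ)) B := by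
  obtain ⟨B, hB, h⟩ := ap_lgK_bd6
  have hB0 : 0 < B := by linarith
  obtain ⟨C, hC, hd⟩ := dls_bd
  have hC0 : 0 ≤ C := by linarith
  have hA : ∀ (g : ℂ → ℂ) (τ : ℝ), (∀ u, InR u → ‖g (hgt u)‖ ≤ C * Real.exp (-(2 * |u.im - τ|))) →
      ∀ x : CfN6 N, ‖AN6 Pm N η g x‖ ≤ nC6 N * (2 * C) := by
    intro g τ hg x
    rw [AN_eq6]
    refine norm_sumL6 (by positivity) (fun c hc => (ap_csS_le hC0 hg (H.ok x c hc)).trans ?_)
      (len_le6 Pm η x)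
    have : Real.exp (-(2 * |c.1.2.im - τ|)) ≤ 1 := exp_le_one _
    nlinarith
  have hne : ∀ (τ : ℝ) (x : CfN6 N), ∀ c ∈ csA6 Pm (η x.1 x.2.1.1 x.2.2.1) x.2.2.1 x.2.2.2,
      ap (lgK (I * τ)) c.1 ≠ 0 := fun τ x c hc =>
    norm_pos_iff.1 (lt_of_lt_of_le (inv_pos.2 hB0) (h τ c.1 (H.ok x c hc)).1)
  refine ⟨max (B ^ nC6 N) (nC6 N * (2 * C)), ⟨H.int0, fun τ => (H.mEN τ).aestronglyMeasurable,
    fun τ => (H.mAN (measurable_dls τ)).aestronglyMeasurable,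
    fun τ => (H.mAN (measurable_dls2 τ)).aestronglyMeasurable, fun τ x => ?_,
    fun τ x => (hA _ τ (fun u hu => (hd τ u hu).1) x).trans (le_max_right _ _),
    fun τ x => (hA _ τ (fun u hu => (hd τ u hu).2) x).trans (le_max_right _ _), fun τ x => ?_,
    fun τ x => ?_⟩⟩
  · rw [EN_eq6]
    exact (norm_prodL6 hB (fun c hc => h τ c.1 (H.ok x c hc)) (len_le6 Pm η x)).trans
      (le_max_left _ _)
  · simp only [EN_eq6, AN_eq6]
    exact hasDerivAt_prodL6 (fun c hc => hasDerivAt_lgK (H.ok x c hc)) (hne τ x)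
  · simp only [AN_eq6]
    exact hasDerivAt_sumL6 (g := fun τ : ℝ => csS fun z => dl (z - τ)) fun c hc =>
      hasDerivAt_csS (H.ok x c hc)

end LegH6

end weight

/-! ### measurability of the insertions -/

section ins

variable {Pm : Par6} {η η' : Crs}

theorem MIn_obP6 {g : ℂ → ℂ} (hg : Measurable g) : MIn (obP6 g Pm) := fun r a b =>
  PHK.MIn.stO6 (measurable_csS hg) r a b

/-- the parameters of the landed lemmas (not used) -/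
def par00 : NUO.Par := ⟨0, 0, fun _ => 0, fun _ _ => 0⟩

theorem MIn_vP6 (hc : MCr η η') (ρ : ℝ → ℂ) {g : ℂ → ℂ} (hg : Measurable g) : MIn (vP ρ g η) :=
  MIn_vP (Pm := par00) (fun r => measurable_const) hc ρ hg

theorem MIn_pI26 (hc : MCr η η') (ρ : ℝ → ℂ) {g : ℂ → ℂ} (hg : Measurable g) : MIn (pI2 ρ g η) :=
  MIn_pI2 (Pm := par00) (fun r => measurable_const) hc ρ hg

end ins

/-! ### the derivatives -/

section final

variable {Z0 : Stt} {Pm : Par6} {N : ℕ} {η η' : ℕ → Crs} {ρ : ℝ → ℂ} {c : ℝ → ℂ}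

/-- **the functional at height `τ`** -/
def T06 (Z0 : Stt) (Pm : Par6) (N : ℕ) (η η' : ℕ → Crs) (c : ℝ → ℂ) (τ : ℝ) : ℂ :=
  F (mN6 N) (WT6 Z0 Pm N η η' c τ) fun _ => 1

/-- the first derivative -/
def T16 (Z0 : Stt) (Pm : Par6) (N : ℕ) (η η' : ℕ → Crs) (ρ : ℝ → ℂ) (c : ℝ → ℂ) (τ : ℝ) : ℂ :=
  -F (mN6 N) (WT6 Z0 Pm N η η' c τ) fun x => AN6 Pm N η (fun z => dl (z - τ)) x - Mn ρ τ

/-- the second derivative -/
def T26 (Z0 : Stt) (Pm : Par6) (N : ℕ) (η η' : ℕ → Crs) (ρ : ℝ → ℂ) (c : ℝ → ℂ) (τ : ℝ) : ℂ :=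
  F (mN6 N) (WT6 Z0 Pm N η η' c τ) fun x => (AN6 Pm N η (fun z => dl (z - τ)) x - Mn ρ τ) ^ 2 +
    (AN6 Pm N η (fun z => dl2 (z - τ)) x - Mn2 ρ τ)

theorem AN_split6 (ρ : ℝ → ℂ) (g : ℂ → ℂ) (x : CfN6 N) :
    AN6 Pm N η g x - bS * ∫ t : ℝ, ρ t * g t =
      evN6 (fun n => vP ρ g (η n)) x + evN6 (fun _ => obP6 g Pm) x :=
  stA_split6 _ _ _ _ _ _

namespace LegH6

variable (H : LegH6 Z0 Pm N η η')

include H

/-- **the functional as a sum over the number of quanta** -/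
theorem T0_eq (τ : ℝ) : T06 Z0 Pm N η η' c τ = c τ * ∑ n ∈ range (N + 1),
    FF6 (Zm Z0 (lgK (I * τ))) Pm n (n + dN N) (η n) (η' n) (fun _ _ _ _ _ => 1) := by
  obtain ⟨B, hB⟩ := H.zpath
  have h0 := hB.WI (c := c) (O := fun _ => (1 : ℂ)) (K := 1) aestronglyMeasurable_const
    (fun _ => by rw [norm_one]) τ
  rw [← WT_eq6] at h0
  have hm : ∀ n ≤ N, MC6 (Zm Z0 (lgK (I * τ))) Pm (η n) (η' n) := fun n _ =>
    H.mc _ (measurable_lgK _) n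
  have hf : FAN6 (fun _ => Zm Z0 (lgK (I * τ))) (fun _ => Pm) N η η' (fun _ => c τ)
      (fun _ _ _ _ _ _ => 1) < ∞ := by
    rw [PHK.FAN6_eq hm fun n _ => MIn.one]
    have h1 := h0.2
    unfold HasFiniteIntegral at h1
    simp only [enorm_mul] at h1
    exact h1
  have h2 := PHK.FFN6_eq (c := fun _ => c τ) hm (fun n _ => MIn.one) hf
  refine h2.symm.trans ?_
  unfold PHK.FFN6
  rw [Finset.mul_sum]

/-- **the first derivative** -/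
theorem d1 {τ : ℝ} (hc : HasDerivAt c (Mn ρ τ * c τ) τ) :
    HasDerivAt (T06 Z0 Pm N η η' c) (T16 Z0 Pm N η η' ρ c τ) τ := by
  obtain ⟨B, hB⟩ := H.zpath
  have h := hB.f_deriv hc
  unfold T16
  have e : T06 Z0 Pm N η η' c = fun τ => F (mN6 N) (wt c (w0N6 Z0 Pm N η η') (EN6 Pm N η) τ)
      (fun _ => 1) := by
    funext τ
    unfold T06
    rw [WT_eq6]
  rw [e, WT_eq6]
  exact h

/-- **the second derivative** -/
theorem d2 {τ : ℝ} (hc : HasDerivAt c (Mn ρ τ * c τ) τ) (hM : HasDerivAt (Mn ρ) (-(Mn2 ρ τ)) τ) :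
    HasDerivAt (T16 Z0 Pm N η η' ρ c) (T26 Z0 Pm N η η' ρ c τ) τ := by
  obtain ⟨B, hB⟩ := H.zpath
  have h := hB.f_deriv2 hc hM
  unfold T26
  have e : T16 Z0 Pm N η η' ρ c = fun τ => -F (mN6 N) (wt c (w0N6 Z0 Pm N η η') (EN6 Pm N η) τ)
      (fun x => AN6 Pm N η (fun z => dl (z - τ)) x - Mn ρ τ) := by
    funext τ
    unfold T16
    rw [WT_eq6]
  rw [e, WT_eq6]
  exact h

theorem vP_bdd {g : ℂ → ℂ} {C : ℝ} (hC : 0 ≤ C) (hg : ∀ u, InR u → ‖g (hgt u)‖ ≤ C) (x : CfN6 N) :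
    ‖evN6 (fun n => vP ρ g (η n)) x‖ ≤ (2 * N + dN N) * C + ‖bS * ∫ t : ℝ, ρ t * g t‖ := by
  have h3 : (x.2.1.2.1 : ℕ) ≤ N := by
    have h2 := x.1.2
    have h4 := x.2.1.2.1.2
    omega
  have h5 : (x.2.1.2.2 : ℕ) ≤ N + dN N := by
    have h2 := x.1.2
    have h4 := x.2.1.2.2.2
    omega
  have key : ∀ (s : Bool) {a K : ℕ} (ha : a ≤ K) (y : Fin a → ℝ),
      ‖∑ i, g (hgt (NUO.pA (Fil.cv s (η x.1 x.2.1.1 x.2.2.1)) (y i)))‖ ≤ K * C := by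
    intro s a K ha y
    refine (norm_sum_le _ _).trans ?_
    calc ∑ i : Fin a, ‖g (hgt (NUO.pA (Fil.cv s (η x.1 x.2.1.1 x.2.2.1)) (y i)))‖ ≤ ∑ _i : Fin a, C :=
          Finset.sum_le_sum fun i _ => hg _ (InR_pA (fun t => Fil.abs_cv_le_of (H.b _ _ _ t)) _)
      _ = a * C := by simp
      _ ≤ K * C := mul_le_mul_of_nonneg_right (by exact_mod_cast ha) hC
  show ‖((∑ i, g (hgt (NUO.pA (Fil.cv true (η x.1 x.2.1.1 x.2.2.1)) (x.2.2.2.1 i)))) +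
    ∑ j, g (hgt (NUO.pA (Fil.cv false (η x.1 x.2.1.1 x.2.2.1)) (x.2.2.2.2 j)))) -
      bS * ∫ t : ℝ, ρ t * g t‖ ≤ _
  refine (norm_sub_le _ _).trans (add_le_add ((norm_add_le _ _).trans ?_) le_rfl)
  have h6 := key true h3 x.2.2.2.1
  have h7 := key false h5 x.2.2.2.2
  push_cast at h7
  linarith

theorem obP_bdd {g : ℂ → ℂ} {τ K : ℝ} (hK : 0 ≤ K)
    (h : ∀ u, InR u → ‖g (hgt u)‖ ≤ K * Real.exp (-(2 * |u.im - τ|))) (x : CfN6 N) :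
    ‖evN6 (fun _ => obP6 g Pm) x‖ ≤ 8 * K * Real.exp (2 * |τ| + l / 8) * (4 * N + 2 * dN N) := by
  have h1 := obP_le6 H.P hK h x.2.2.1 x.2.2.2
  have h2 : ‖pI x.2.1.1 x.2.2.1 x.2.1.2.1 x.2.1.2.2 x.2.2.2‖ ≤ 4 * N + 2 * dN N := by
    refine (pI_le _ _).trans ?_
    have h3 := x.1.2
    have h4 := x.2.1.1.2
    have h5 : (x.2.1.1 : ℕ) ≤ 4 * N + 2 * dN N := by omega
    exact_mod_cast h5
  exact h1.trans (mul_le_mul_of_nonneg_left h2 (by positivity))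

end LegH6

/-- the constant of the bounds -/
theorem exists_const6 : ∃ C : ℝ, 1 ≤ C ∧ ∀ (τ : ℝ), |τ| ≤ 1 → ∀ (Pm : Par6), GoodP6 Pm →
    (∀ u, InR u → ‖dl (hgt u - τ)‖ ≤ C * Real.exp (-(2 * |u.im - τ|)) ∧
      ‖dl2 (hgt u - τ)‖ ≤ C * Real.exp (-(2 * |u.im - τ|))) ∧
    ∀ {r a b : ℕ} (O : Fin r → Xo) (x : (Fin a → ℝ) × (Fin b → ℝ)),
      ‖obP6 (fun z => dl (z - τ)) Pm r O a b x‖ ≤ C * ‖pI r O a b x‖ ∧
      ‖obP6 (fun z => dl2 (z - τ)) Pm r O a b x‖ ≤ C * ‖pI r O a b x‖ := by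
  obtain ⟨C, hC, hd⟩ := dls_bd
  have hC0 : 0 ≤ C := by linarith
  have hl := NUMF.l_pos
  have hE : 1 ≤ Real.exp (2 + l / 8) := Real.one_le_exp (by linarith)
  refine ⟨8 * C * Real.exp (2 + l / 8), by nlinarith, fun τ hτ Pm hP => ⟨fun u hu => ?_,
    fun O x => ⟨?_, ?_⟩⟩⟩
  · have hp := Real.exp_pos (-(2 * |u.im - τ|))
    have h1 : C ≤ 8 * C * Real.exp (2 + l / 8) := by nlinarith
    exact ⟨(hd τ u hu).1.trans (mul_le_mul_of_nonneg_right h1 hp.le),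
      (hd τ u hu).2.trans (mul_le_mul_of_nonneg_right h1 hp.le)⟩
  all_goals
    have h2 : Real.exp (2 * |τ| + l / 8) ≤ Real.exp (2 + l / 8) :=
      Real.exp_le_exp.2 (by linarith)
  · refine (obP_le6 hP hC0 (fun u hu => (hd τ u hu).1) O x).trans ?_
    exact mul_le_mul_of_nonneg_right (mul_le_mul_of_nonneg_left h2 (by positivity)) (norm_nonneg _)
  · refine (obP_le6 hP hC0 (fun u hu => (hd τ u hu).2) O x).trans ?_
    exact mul_le_mul_of_nonneg_right (mul_le_mul_of_nonneg_left h2 (by positivity)) (norm_nonneg _)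

/-- **(Z)**: first derivative of the functional against the statistic of the quanta on the curve -/
theorem leg_b16 : ∃ C : ℝ, 1 ≤ C ∧ ∀ {Z0 : Stt} {Pm : Par6} {N : ℕ} {η η' : ℕ → Crs}
    (_ : LegH6 Z0 Pm N η η') (ρ : ℝ → ℂ) (c : ℝ → ℂ) {τ : ℝ}, |τ| ≤ 1 → ∀ {d : ℝ}, 0 ≤ d →
    FAN6 (fun _ => Zm Z0 (lgK (I * τ))) (fun _ => Pm) N η η' (fun _ => c τ) (fun _ => pI) ≤
      ENNReal.ofReal d →
    ‖F (mN6 N) (WT6 Z0 Pm N η η' c τ) (evN6 fun n => vP ρ (fun z => dl (z - τ)) (η n)) +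
      T16 Z0 Pm N η η' ρ c τ‖ ≤ C * d := by
  obtain ⟨C, hC, hb⟩ := exists_const6
  refine ⟨C, hC, fun {Z0 Pm N η η'} H ρ c {τ} hτ {d} hd hI => ?_⟩
  have hC0 : 0 ≤ C := by linarith
  obtain ⟨hg, ho⟩ := hb τ hτ Pm H.P
  obtain ⟨B, hB⟩ := H.zpath
  set K : ℝ := max ((2 * N + dN N) * C + ‖bS * ∫ t : ℝ, ρ t * dl (t - τ)‖)
    (8 * C * Real.exp (2 * |τ| + l / 8) * (4 * N + 2 * dN N)) with hK
  have key := hB.bound1 (c := c) (M := Mn ρ) (τ := τ)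
    (V := evN6 fun n => vP ρ (fun z => dl (z - τ)) (η n))
    (O := evN6 fun _ => obP6 (fun z => dl (z - τ)) Pm) (K := K) (d := C * d)
    (fun x => AN_split6 ρ (fun z => dl (z - τ)) x)
    (PHK.evN_meas6 fun n _ => MIn_vP6 (H.c n) ρ (measurable_dls τ)).aestronglyMeasurable
    (PHK.evN_meas6 fun n _ => MIn_obP6 (measurable_dls τ)).aestronglyMeasurable
    (fun x => (H.vP_bdd hC0 (fun u hu => (hg u hu).1.trans
      (mul_le_of_le_one_right hC0 (exp_le_one _))) x).trans (le_max_left _ _))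
    (fun x => (H.obP_bdd hC0 (fun u hu => (hg u hu).1) x).trans (le_max_right _ _))
    (by positivity) ?_
  · unfold T16
    rw [WT_eq6]
    exact key
  · rw [← WT_eq6]
    rw [PHK.FAN6_eq (fun n _ => H.mc _ (measurable_lgK _) n) fun n _ => MIn_pI] at hI
    calc ∫⁻ x, ‖WT6 Z0 Pm N η η' c τ x‖ₑ * ‖evN6 (fun _ => obP6 (fun z => dl (z - τ)) Pm) x‖ₑ ∂mN6 N
        ≤ ∫⁻ x, ENNReal.ofReal C * (‖WT6 Z0 Pm N η η' c τ x‖ₑ * ‖evN6 (fun _ => pI) x‖ₑ) ∂mN6 N := by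
          refine lintegral_mono fun x => ?_
          have h1 : ‖evN6 (fun _ => obP6 (fun z => dl (z - τ)) Pm) x‖ₑ ≤
              ENNReal.ofReal C * ‖evN6 (fun _ => pI) x‖ₑ := by
            rw [← ofReal_norm, ← ofReal_norm, ← ENNReal.ofReal_mul hC0]
            exact ENNReal.ofReal_le_ofReal (ho x.2.2.1 x.2.2.2).1
          refine (mul_le_mul' le_rfl h1).trans (le_of_eq ?_)
          ring
      _ = ENNReal.ofReal C * ∫⁻ x, ‖WT6 Z0 Pm N η η' c τ x‖ₑ * ‖evN6 (fun _ => pI) x‖ₑ ∂mN6 N :=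
          lintegral_const_mul' _ _ ENNReal.ofReal_ne_top
      _ ≤ ENNReal.ofReal C * ENNReal.ofReal d := mul_le_mul' le_rfl hI
      _ = ENNReal.ofReal (C * d) := (ENNReal.ofReal_mul hC0).symm

/-- **(Z)**: second derivative of the functional -/
theorem leg_b26 : ∃ C : ℝ, 1 ≤ C ∧ ∀ {Z0 : Stt} {Pm : Par6} {N : ℕ} {η η' : ℕ → Crs}
    (_ : LegH6 Z0 Pm N η η') (ρ : ℝ → ℂ) (c : ℝ → ℂ) {τ : ℝ}, |τ| ≤ 1 → ∀ {d : ℝ}, 0 ≤ d →
    FAN6 (fun _ => Zm Z0 (lgK (I * τ))) (fun _ => Pm) N η η' (fun _ => c τ)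
      (fun n => pI2 ρ (fun z => dl (z - τ)) (η n)) ≤ ENNReal.ofReal d →
    ‖F (mN6 N) (WT6 Z0 Pm N η η' c τ) (fun x =>
        evN6 (fun n => vP ρ (fun z => dl (z - τ)) (η n)) x *
          evN6 (fun n => vP ρ (fun z => dl (z - τ)) (η n)) x) +
      F (mN6 N) (WT6 Z0 Pm N η η' c τ) (evN6 fun n => vP ρ (fun z => dl2 (z - τ)) (η n)) -
      T26 Z0 Pm N η η' ρ c τ‖ ≤ C * d := by
  obtain ⟨C, hC, hb⟩ := exists_const6
  refine ⟨2 * C ^ 2, by nlinarith, fun {Z0 Pm N η η'} H ρ c {τ} hτ {d} hd hI => ?_⟩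
  have hC0 : 0 ≤ C := by linarith
  obtain ⟨hg, ho⟩ := hb τ hτ Pm H.P
  obtain ⟨B, hB⟩ := H.zpath
  set K : ℝ := max (max ((2 * N + dN N) * C + ‖bS * ∫ t : ℝ, ρ t * dl (t - τ)‖)
    ((2 * N + dN N) * C + ‖bS * ∫ t : ℝ, ρ t * dl2 (t - τ)‖))
    (8 * C * Real.exp (2 * |τ| + l / 8) * (4 * N + 2 * dN N)) with hK
  have key := hB.bound2 (c := c) (M := Mn ρ) (M2 := Mn2 ρ) (τ := τ)
    (V := evN6 fun n => vP ρ (fun z => dl (z - τ)) (η n))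
    (O := evN6 fun _ => obP6 (fun z => dl (z - τ)) Pm)
    (V' := evN6 fun n => vP ρ (fun z => dl2 (z - τ)) (η n))
    (O' := evN6 fun _ => obP6 (fun z => dl2 (z - τ)) Pm) (K := K) (d := 2 * C ^ 2 * d)
    (fun x => AN_split6 ρ (fun z => dl (z - τ)) x)
    (fun x => AN_split6 ρ (fun z => dl2 (z - τ)) x)
    (PHK.evN_meas6 fun n _ => MIn_vP6 (H.c n) ρ (measurable_dls τ)).aestronglyMeasurable
    (PHK.evN_meas6 fun n _ => MIn_obP6 (measurable_dls τ)).aestronglyMeasurable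
    (PHK.evN_meas6 fun n _ => MIn_vP6 (H.c n) ρ (measurable_dls2 τ)).aestronglyMeasurable
    (PHK.evN_meas6 fun n _ => MIn_obP6 (measurable_dls2 τ)).aestronglyMeasurable
    (fun x => (H.vP_bdd hC0 (fun u hu => (hg u hu).1.trans
      (mul_le_of_le_one_right hC0 (exp_le_one _))) x).trans
        ((le_max_left _ _).trans (le_max_left _ _)))
    (fun x => (H.obP_bdd hC0 (fun u hu => (hg u hu).1) x).trans (le_max_right _ _))
    (fun x => (H.vP_bdd hC0 (fun u hu => (hg u hu).2.trans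
      (mul_le_of_le_one_right hC0 (exp_le_one _))) x).trans
        ((le_max_right _ _).trans (le_max_left _ _)))
    (fun x => (H.obP_bdd hC0 (fun u hu => (hg u hu).2) x).trans (le_max_right _ _))
    (by positivity) ?_
  · unfold T26
    rw [WT_eq6]
    exact key
  · rw [← WT_eq6]
    rw [PHK.FAN6_eq (fun n _ => H.mc _ (measurable_lgK _) n)
      fun n _ => MIn_pI26 (H.c n) ρ (measurable_dls τ)] at hI
    have h1 : ∀ x : CfN6 N, ‖WT6 Z0 Pm N η η' c τ x‖ₑ *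
        (2 * ‖evN6 (fun n => vP ρ (fun z => dl (z - τ)) (η n)) x‖ₑ *
          ‖evN6 (fun _ => obP6 (fun z => dl (z - τ)) Pm) x‖ₑ +
          ‖evN6 (fun _ => obP6 (fun z => dl (z - τ)) Pm) x‖ₑ ^ 2 +
          ‖evN6 (fun _ => obP6 (fun z => dl2 (z - τ)) Pm) x‖ₑ) ≤
        ENNReal.ofReal (2 * C ^ 2) * (‖WT6 Z0 Pm N η η' c τ x‖ₑ *
          ‖evN6 (fun n => pI2 ρ (fun z => dl (z - τ)) (η n)) x‖ₑ) := by
      intro x
      have h2 := enorm_combo (a := evN6 (fun n => vP ρ (fun z => dl (z - τ)) (η n)) x)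
        (norm_nonneg (evN6 (fun _ => pI) x)) hC (ho x.2.2.1 x.2.2.2).1 (ho x.2.2.1 x.2.2.2).2
        (pI_le x.2.2.1 x.2.2.2)
      have h3 : ‖evN6 (fun n => pI2 ρ (fun z => dl (z - τ)) (η n)) x‖ₑ =
          ENNReal.ofReal (‖evN6 (fun _ => pI) x‖ *
            (1 + x.2.1.1 + ‖evN6 (fun n => vP ρ (fun z => dl (z - τ)) (η n)) x‖)) := by
        have h4 : evN6 (fun n => pI2 ρ (fun z => dl (z - τ)) (η n)) x =
            evN6 (fun _ => pI) x * ((1 + x.2.1.1 + ‖evN6 (fun n => vP ρ (fun z => dl (z - τ)) (η n)) x‖ :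
              ℝ) : ℂ) := rfl
        rw [← ofReal_norm, h4, norm_mul, norm_real, Real.norm_of_nonneg (by positivity)]
      rw [h3]
      refine (mul_le_mul' le_rfl h2).trans (le_of_eq ?_)
      ring
    refine (lintegral_mono h1).trans ?_
    rw [lintegral_const_mul' _ _ ENNReal.ofReal_ne_top,
      ENNReal.ofReal_mul (p := 2 * C ^ 2) (by positivity)]
    exact mul_le_mul' le_rfl hI

end final

end PBLg.PLX

end
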