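import Pool.Agent.PLX.PB.ZLegL
import Pool.Agent.PHK.ZLeg6
import Pool.Agent.PHK.LevH06
import Pool.Agent.PHK.LevX6
import Pool.Agent.PHK.FNeq6
import Pool.Agent.PHK.FibL6

/-!
# (P), (Z) at the dislocated function

(P) twin of `PLX/PB/ZLegL`: rows `i s, 0, …, 0` (`j + 1` rows, `q`-fold in the species Y), legs at `i t`, string
cutoff `g0L`, the landed curve. `hS`, `DN_rhS`, `vP_nu1`, `enorm_pI`, `BC_dls`, `Pf_Mn` are the landed ones.

* `ZS6`: the class functions without legs; `ZS_eq6`; `ok_L6`;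
* `legH_L6`: the hypotheses `LegH6`;
* `FS_pI6`, `FS_pI26`: the pinned functionals;
* **`zleg6`**: `F[V h0] + i ∂_z fxQ` and `F[V h0 V h0] + F[V g2] + ∂_z² fxQ` are at most
  `C j ^ (- c)` (the hypothesis `hτ` of `PBEM.E2_of6`), from `FFth` and `UB6 famL6`.
-/

set_option autoImplicit false
set_option linter.unusedSectionVars false
set_option linter.unusedVariables false

noncomputable section

open Complex MeasureTheory Finset Filter Topology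
open scoped ENNReal

open PLX (Fil)

namespace PBLg.PLX

open NUO NUP1S NUP1S.AbC NUGC NUGC.PLX NUCR PBF PBF.PLX PBFunc PBFunc.PLX
open PBI (Stt)
open NUMF (l P)
open PBU.PLX (famL6 UB6 DN BC nu1 ccS6 g0L T1L)
open Pool.Agent.PB (Pf Nu LS)
open Pool.Agent.PLX (yq fxQ rwq XXU RRU TTU FFth)
open PBL.PLX (mu1)
open PBX (Lg gP Rws ph)
open PBLX.PLX (wS6 ZF6 pS6 rh0 eC eC' cF)

open PHK (Par6 par6 par6_good ZL6 FF6 FA6 FAN6 MC6 CfN6 mN6 wN6 evN6 Vp6 FAN6_eq wN_meas6 evN_meas6)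

attribute [local instance] NUSea.seaP

/-! ### the class functions -/

variable [Fil]

/-- class functions without legs -/
def Z06 (c : Bool → ℂ) (g0 : Bool → ℂ → ℂ) (k : ℕ) (β : ℝ) (x : ℂ) : Bool → Option O3 → ℂ → ℂ := fun a =>
  XXU (c a) β (rwq (mu1 k x) a) (rwq (mu1 k x) !a) (gP β [I, -I]) (g0 a) (fun _ => 1) fun _ => 1

/-- **the legs are a multiplicative insertion** -/
theorem ZL6_lgF (c : Bool → ℂ) (g0 : Bool → ℂ → ℂ) (k : ℕ) (β : ℝ) (x z : ℂ) :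
    ZL6 c g0 k β x z = Zm (Z06 c g0 k β x) (PBX.PLX.lgF z) := by
  funext a o u
  rcases o with _ | o
  · show RRU _ _ _ _ * ph _ _ _ _ * _ = RRU _ _ _ _ * ph _ _ _ _ * 1 * _
    rw [mul_one]
    rfl
  · rcases o with _ | _ | _
    · show RRU _ _ _ _ * ph _ _ _ _ * _ = RRU _ _ _ _ * ph _ _ _ _ * 1 * _
      rw [mul_one]
      rfl
    · show RRU _ _ _ _ * RRU _ _ _ _ * ph _ _ _ _ * _ =
        RRU _ _ _ _ * RRU _ _ _ _ * ph _ _ _ _ * 1 * _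
      rw [mul_one]
      rfl
    · show TTU _ _ _ _ _ _ _ _ * _ = TTU _ _ _ _ _ _ _ _ * 1 * _
      rw [mul_one]
      rfl

theorem measurable_Z06 {c : Bool → ℂ} {g0 : Bool → ℂ → ℂ} (hg : ∀ a, Measurable (g0 a)) (k : ℕ) (β : ℝ)
    (x : ℂ) (a : Bool) (o : Option O3) : Measurable (Z06 c g0 k β x a o) :=
  Pool.Agent.PLX.measurable_XXU (PBX.measurable_gP _ _) (hg a) measurable_const measurable_const o

/-- the class functions of the family without legs -/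
def ZS6 (ep : ℝ) (j : ℕ) (s : ℝ) : Stt :=
  Z06 (ccS6 (j + 1)) (g0L (j + 1) j (I * s)) j (4 / 3 * (1 - ep)) (I * s)

theorem ZS_eq6 (ep : ℝ) (j : ℕ) (s t : ℝ) : Zm (ZS6 ep j s) (lgK (I * t)) = ZF6 ep j s t := by
  rw [← lgF_eq]
  exact (ZL6_lgF _ _ _ _ _ _).symm

theorem re_Is (s : ℝ) : |(I * (s : ℂ)).re| ≤ NUP1.l / 2 := by
  have hl := NUP1.l_pos
  rw [show (I * (s : ℂ)).re = 0 by simp, abs_zero]
  positivity

theorem measurable_ZS6 (ep : ℝ) (j : ℕ) (s : ℝ) (a : Bool) (k : Option O3) :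
    Measurable (ZS6 ep j s a k) :=
  measurable_Z06 (fun a => PBU.PLX.meas_g0L _ _ (re_Is s) a) _ _ _ a k

theorem ok_L6 {m : ℕ} (hm : 1 ≤ m) {s t : ℝ} (hs : |s| ≤ 1) (ht : |t| ≤ 1) :
    famL6.ok m ((I * s, I * t) : ℂ × ℂ) := by
  have hl := NUP1.l_pos
  have hlog : 0 ≤ Real.log m := Real.log_nonneg (by exact_mod_cast hm)
  have r1 : (I * (s : ℂ)).re = 0 := by simp
  have r2 : (I * (t : ℂ)).re = 0 := by simp
  have i1 : (I * (s : ℂ)).im = s := by simp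
  have i2 : (I * (t : ℂ)).im = t := by simp
  refine ⟨?_, ?_, ?_, ?_, ?_⟩
  · show |(I * (s : ℂ)).re| ≤ NUP1.l / 10
    rw [r1, abs_zero]
    positivity
  · show |(I * (s : ℂ)).im| ≤ 2
    rw [i1]
    linarith
  · show -(9 / 10 * NUP1.l) ≤ (I * (t : ℂ)).re
    rw [r2]
    linarith
  · show (I * (t : ℂ)).re < 31 / 10 * NUP1.l
    rw [r2]
    positivity
  · show |(I * (t : ℂ)).im| ≤ 3 / 20 * Real.log m + 2
    rw [i2]
    linarith

/-! ### the statistics -/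

theorem Vp_vP6 {N : ℕ} (ρ : ℝ → ℂ) (η : ℕ → Crs) (g : ℂ → ℂ) :
    (Vp6 ρ η g : CfN6 N → ℂ) = evN6 fun n => vP ρ g (η n) := by
  funext x
  rw [PHK.Vp6_eq]
  simp only [hgt_PBF]
  rfl

/-- the statistic depends on the test function in the strip only -/
theorem Vp_congr6 {N : ℕ} {ρ : ℝ → ℂ} {η : ℕ → Crs} (hη : ∀ n r O t, |η n r O t| ≤ l / 2)
    {g g' : ℂ → ℂ} (h : ∀ z : ℂ, -l < z.im → z.im < 4 * l → g z = g' z) :
    (Vp6 ρ η g : CfN6 N → ℂ) = Vp6 ρ η g' := by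
  have hl := NUMF.l_pos
  funext x
  rw [PHK.Vp6_eq, PHK.Vp6_eq]
  have e1 : ∀ (s : Bool) (t : ℝ), g (PBF.PLX.hgt (NUO.pA (Fil.cv s (η x.1 x.2.1.1 x.2.2.1)) t)) =
      g' (PBF.PLX.hgt (NUO.pA (Fil.cv s (η x.1 x.2.1.1 x.2.2.1)) t)) := fun s t => by
    have h0 : (PBF.PLX.hgt (NUO.pA (Fil.cv s (η x.1 x.2.1.1 x.2.2.1)) t)).im =
        Fil.cv s (η x.1 x.2.1.1 x.2.2.1) t := by
      rw [hgt_PBF, hgt_im, pA_re]
      ring
    obtain ⟨h1, h2⟩ := abs_le.1 (Fil.abs_cv_le_of (a := s) (hη x.1 x.2.1.1 x.2.2.1 t))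
    exact h _ (by rw [h0]; linarith) (by rw [h0]; linarith)
  have e2 : (fun u : ℝ => ρ u * g u) = fun u : ℝ => ρ u * g' u := by
    funext u
    rw [h u (by simpa using hl) (by simpa using hl)]
  rw [e2, Finset.sum_congr rfl fun i _ => e1 true _, Finset.sum_congr rfl fun i _ => e1 false _]

theorem FAN_FS6 {ep e1 J : ℝ} {m : ℕ} {i : ℂ × ℂ} (Ψ : Ins) :
    FAN6 (fun _ => famL6.Z ep m i) (fun _ => par6) (famL6.top m) (fun _ => PBU.PLX.cr e1 J m)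
      (fun _ => PBU.PLX.cr' e1 J m) (fun _ => famL6.Pf m i) (fun _ => Ψ) =
    PBU.PLX.FS6 famL6 ep e1 J m i (fun _ => 1) fun r O a b x => ‖Ψ r O a b x‖ₑ := by
  unfold PHK.FAN6 PBU.PLX.FS6
  refine Finset.sum_congr rfl fun n _ => ?_
  rw [one_mul, ← FA_eq_FE6]

section main

variable {p : ℕ} {K ε ep e1 J : ℝ}

/-- **the hypotheses of `ZLeg`** -/
theorem legH_L6 (hU : UB6 famL6 ep e1 J p K ε) (hK : 1 ≤ K) (he : 0 < e1) (he1 : e1 ≤ 1 / 100)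
    (hJ : 0 ≤ J) : ∀ᶠ j : ℕ in atTop, ∀ s : ℝ, |s| ≤ 1 →
    LegH6 (ZS6 ep j s) par6 (2 * (j + 1)) (fun _ => PBU.PLX.cr e1 J (j + 1))
      (fun _ => PBU.PLX.cr' e1 J (j + 1)) := by
  have hl := NUMF.l_pos
  obtain ⟨mc, -, Hcur⟩ := curZ_crs he he1 hJ one_pos
  obtain ⟨m0, H0⟩ := hU.mass hK
  filter_upwards [eventually_ge_atTop mc, eventually_ge_atTop m0] with j h1 h2 s hs
  refine ⟨par6_good, measurable_ZS6 ep j s, fun _ => MCr_cr e1 J _,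
    fun n r O t => ?_, fun n hn => ⟨0, ?_⟩⟩
  · have h3 := (Hcur (j + 1) (by omega) r O).h1 t
    refine h3.trans ?_
    show 1 * l / 4 ≤ l / 2
    linarith
  · rw [ZS_eq6]
    have h3 := H0 (j + 1) (by omega) (I * s, I * (0 : ℝ)) (ok_L6 (by omega) hs (by simp))
    have h4 := h3.trans_lt ENNReal.ofReal_lt_top
    unfold PBU.PLX.FS6 at h4
    rw [ENNReal.sum_lt_top] at h4
    have h5 := h4 n (Finset.mem_range.2 (by
      show n < 2 * (j + 1) + 1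
      omega))
    rw [one_mul] at h5
    rw [show famL6.top (j + 1) = 2 * (j + 1) from rfl] at h5
    have hP : ‖famL6.Pf (j + 1) ((I * s, I * (0 : ℝ)) : ℂ × ℂ)‖ₑ ≠ 0 := by
      rw [enorm_ne_zero]
      refine Pf_ne (X := mu1 j (I * s)) (z := I * (0 : ℝ)) (fun i => ?_) (by simp)
      rw [mu1_hS]
      simp
    have h6 : FE6 (famL6.Z ep (j + 1) ((I * s, I * (0 : ℝ)) : ℂ × ℂ)) par6 n
        (n + dN (2 * (j + 1)))
        (PBU.PLX.cr e1 J (j + 1)) (PBU.PLX.cr' e1 J (j + 1)) (fun _ _ _ _ _ => 1) < ∞ := by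
      by_contra h7
      rw [not_lt, top_le_iff] at h7
      rw [h7, ENNReal.mul_top hP] at h5
      exact lt_irrefl _ h5
    rw [FA_eq_FE6]
    simp only [enorm_one]
    exact h6

/-! ### the functionals -/

/-- the pinned functionals of `ZLeg` -/
theorem FS_pI6 {ep e1 J : ℝ} {m : ℕ} {i : ℂ × ℂ} {D : ℝ≥0∞}
    (h : PBU.PLX.FS6 famL6 ep e1 J m i (fun _ => 1) (fun r O _ _ x =>
      ENNReal.ofReal (((r : ℝ) + 1) ^ 1 * ∑ j, Real.exp (-(2 * |ht (O j)|))) * 1) ≤ D) :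
    FAN6 (fun _ => famL6.Z ep m i) (fun _ => par6) (famL6.top m) (fun _ => PBU.PLX.cr e1 J m)
      (fun _ => PBU.PLX.cr' e1 J m) (fun _ => famL6.Pf m i) (fun _ => pI) ≤ D := by
  rw [FAN_FS6]
  refine (PBU.PLX.FS_mono6 (fun _ => le_rfl) fun r O a b x => ?_).trans h
  rw [enorm_pI, mul_one]
  refine ENNReal.ofReal_le_ofReal ?_
  have h0 : 0 ≤ ∑ j, Real.exp (-(2 * |ht (O j)|)) := Finset.sum_nonneg fun i _ =>
    (Real.exp_pos _).le
  have h1 : (1 : ℝ) ≤ ((r : ℝ) + 1) ^ 1 := by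
    have : (0 : ℝ) ≤ r := Nat.cast_nonneg r
    linarith
  exact le_mul_of_one_le_left h0 h1

theorem FS_pI26 {ep e1 J : ℝ} {m : ℕ} {i : ℂ × ℂ} {D D' : ℝ} (hD : 0 ≤ D) (hD' : 0 ≤ D')
    (hZ : ∀ s k, Measurable (famL6.Z ep m i s k)) (ρ : ℝ → ℂ) {g : ℂ → ℂ} (hg : Measurable g)
    (h : PBU.PLX.FS6 famL6 ep e1 J m i (fun _ => 1) (fun r O _ _ x =>
      ENNReal.ofReal (((r : ℝ) + 1) ^ 1 * ∑ j, Real.exp (-(2 * |ht (O j)|))) * 1) ≤
        ENNReal.ofReal D)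
    (h' : PBU.PLX.FS6 famL6 ep e1 J m i (fun _ => 1) (fun r O _ _ x =>
      ENNReal.ofReal (((r : ℝ) + 1) ^ 0 * ∑ j, Real.exp (-(2 * |ht (O j)|))) *
        (‖nu1 ρ (etaC e1 J m m) true g x‖ₑ + ‖nu1 ρ (etaC e1 J m m) false g x‖ₑ)) ≤
        ENNReal.ofReal D') :
    FAN6 (fun _ => famL6.Z ep m i) (fun _ => par6) (famL6.top m) (fun _ => PBU.PLX.cr e1 J m)
      (fun _ => PBU.PLX.cr' e1 J m) (fun _ => famL6.Pf m i) (fun _ => pI2 ρ g (PBU.PLX.cr e1 J m)) ≤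
      ENNReal.ofReal (D + D') := by
  have hM : ∀ n ≤ famL6.top m, MC6 (famL6.Z ep m i) (par6) (PBU.PLX.cr e1 J m)
      (PBU.PLX.cr' e1 J m) := fun n _ => MC6.of hZ (MCr_cr e1 J m)
  -- the two parts
  set A : Ins := fun r O a b x => pI r O a b x * ((1 + r : ℝ) : ℂ) with hA
  set B : Ins := fun r O a b x => pI r O a b x * ((‖vP ρ g (PBU.PLX.cr e1 J m) r O a b x‖ : ℝ) : ℂ)
    with hB
  have mA : MIn A := fun r a b => (MIn_pI r a b).mul measurable_const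
  have mB : MIn B := fun r a b => (MIn_pI r a b).mul (Complex.measurable_ofReal.comp
    (MIn_vP6 (MCr_cr e1 J m) ρ hg r a b).norm)
  have m2 : MIn (pI2 ρ g (PBU.PLX.cr e1 J m)) :=
    MIn_pI26 (MCr_cr e1 J m) ρ hg
  have e2 : ∀ (r : ℕ) (O : Fin r → Xo) (a b : ℕ) (x : (Fin a → ℝ) × (Fin b → ℝ)),
      pI2 ρ g (PBU.PLX.cr e1 J m) r O a b x = A r O a b x + B r O a b x := by
    intro r O a b x
    simp only [hA, hB]
    unfold pI2
    push_cast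
    ring
  have key : FAN6 (fun _ => famL6.Z ep m i) (fun _ => par6) (famL6.top m)
      (fun _ => PBU.PLX.cr e1 J m) (fun _ => PBU.PLX.cr' e1 J m) (fun _ => famL6.Pf m i)
      (fun _ => pI2 ρ g (PBU.PLX.cr e1 J m)) ≤
      FAN6 (fun _ => famL6.Z ep m i) (fun _ => par6) (famL6.top m)
        (fun _ => PBU.PLX.cr e1 J m) (fun _ => PBU.PLX.cr' e1 J m) (fun _ => famL6.Pf m i) (fun _ => A) +
      FAN6 (fun _ => famL6.Z ep m i) (fun _ => par6) (famL6.top m)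
        (fun _ => PBU.PLX.cr e1 J m) (fun _ => PBU.PLX.cr' e1 J m) (fun _ => famL6.Pf m i) (fun _ => B) := by
    rw [FAN6_eq hM fun n _ => m2, FAN6_eq hM fun n _ => mA, FAN6_eq hM fun n _ => mB]
    set W : CfN6 (famL6.top m) → ℂ := wN6 (fun _ => famL6.Z ep m i) (fun _ => par6)
      (famL6.top m) (fun _ => PBU.PLX.cr e1 J m) (fun _ => PBU.PLX.cr' e1 J m) (fun _ => famL6.Pf m i)
      with hW
    have mW : Measurable W := wN_meas6 hM
    have mEA : Measurable (evN6 (fun _ => A) : CfN6 (famL6.top m) → ℂ) := evN_meas6 fun n _ => mA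
    have hadd := lintegral_add_left (μ := mN6 (famL6.top m))
      (f := fun x => ‖W x‖ₑ * ‖evN6 (fun _ => A) x‖ₑ) (mW.enorm.mul mEA.enorm)
      fun x => ‖W x‖ₑ * ‖evN6 (fun _ => B) x‖ₑ
    refine le_trans (lintegral_mono fun x => ?_) (le_of_eq hadd)
    show _ ≤ ‖W x‖ₑ * ‖evN6 (fun _ => A) x‖ₑ + ‖W x‖ₑ * ‖evN6 (fun _ => B) x‖ₑ
    rw [← mul_add]
    refine mul_le_mul' le_rfl ?_
    have e3 : evN6 (fun _ => pI2 ρ g (PBU.PLX.cr e1 J m)) x = evN6 (fun _ => A) x +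
        evN6 (fun _ => B) x := e2 _ _ _ _ _
    rw [e3]
    exact enorm_add_le _ _
  rw [ENNReal.ofReal_add hD hD']
  refine key.trans (add_le_add ?_ ?_)
  · rw [FAN_FS6]
    refine (PBU.PLX.FS_mono6 (fun _ => le_rfl) fun r O a b x => ?_).trans h
    simp only [hA]
    rw [enorm_mul, enorm_pI, mul_one, ← ofReal_norm (((1 + r : ℝ) : ℂ)), norm_real,
      Real.norm_of_nonneg (by positivity), ← ENNReal.ofReal_mul (Finset.sum_nonneg fun i _ =>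
        (Real.exp_pos _).le)]
    refine ENNReal.ofReal_le_ofReal (le_of_eq ?_)
    ring
  · rw [FAN_FS6]
    refine (PBU.PLX.FS_mono6 (fun _ => le_rfl) fun r O a b x => ?_).trans h'
    simp only [hB]
    rw [enorm_mul, enorm_pI, pow_zero, one_mul]
    refine mul_le_mul' le_rfl ?_
    rw [vP_nu1, ← ofReal_norm ((_ : ℝ) : ℂ), norm_real, Real.norm_of_nonneg (norm_nonneg _),
      ofReal_norm]
    exact enorm_add_le _ _

/-- **(Z)**: the derivatives in the height of the legs -/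
theorem zleg6 (hFF : FFth) (hU : UB6 famL6 ep e1 J p K ε) (hp : 0 < p) (hK : 6 ≤ K) (hep : 0 < ep)
    (hep1 : ep ≤ 1 / 100) (he : 0 < e1) (he1 : e1 ≤ 1 / 100) (hJ : 0 ≤ J) {c : ℝ} (hc0 : 0 ≤ c)
    (hc : c + ε ≤ 3 / 4 * (1 - 4 * e1)) :
    ∃ C : ℝ, 0 < C ∧ ∀ᶠ j : ℕ in atTop, ∀ s t : ℝ, |s| ≤ 1 → |t| ≤ 1 →
      ‖F (mN6 (2 * (j + 1))) (wS6 ep e1 J j s t) (Vp6 (rh0 j s) (eC e1 J j) (PBEI.h0T t)) +
        I * deriv (fun z => fxQ Fil.q j (I * s) z) (I * t)‖ ≤ C * (j : ℝ) ^ (-c) ∧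
      ‖F (mN6 (2 * (j + 1))) (wS6 ep e1 J j s t) (fun ω =>
          Vp6 (rh0 j s) (eC e1 J j) (PBEI.h0T t) ω * Vp6 (rh0 j s) (eC e1 J j) (PBEI.h0T t) ω) +
        F (mN6 (2 * (j + 1))) (wS6 ep e1 J j s t) (Vp6 (rh0 j s) (eC e1 J j) (PBEI.g2T t)) -
        -deriv (deriv fun z => fxQ Fil.q j (I * s) z) (I * t)‖ ≤ C * (j : ℝ) ^ (-c) := by
  have hl := NUMF.l_pos
  have hl1 : NUP1.l = l := rfl
  obtain ⟨C1, hC1, B1⟩ := leg_b16
  obtain ⟨C2, hC2, B2⟩ := leg_b26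
  obtain ⟨M, hM, hBC⟩ := BC_dls
  obtain ⟨m0, H0⟩ := hU.pin hK (q := 2) (by norm_num) (by norm_num) 1 2 (-(l / 2)) l
    (by linarith) hl
  obtain ⟨m1, H1⟩ := hU.pin hK (q := 2) (by norm_num) (by norm_num) 0 2 (-(l / 2)) l
    (by linarith) hl
  obtain ⟨mc, -, Hcur⟩ := curZ_crs he he1 hJ hep
  obtain ⟨mf, Hf⟩ := PHK.fN_FF6_mu1 hFF
  have hE := Real.exp_pos (2 : ℝ)
  refine ⟨(C1 + C2) * (3 * (1 + M) * Real.exp 2), by positivity, ?_⟩
  filter_upwards [legH_L6 hU (by linarith) he he1 hJ, eventually_ge_atTop m0, eventually_ge_atTop m1,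
    eventually_ge_atTop mc, eventually_ge_atTop 1, eventually_ge_atTop mf] with j hH j0 j1 j2 j3 j4 s t hs ht
  have H := hH s hs
  have hb : ∀ (n : ℕ) (r : ℕ) (O : Fin r → Xo) (u : ℝ),
      |(fun _ : ℕ => PBU.PLX.cr e1 J (j + 1)) n r O u| ≤ l / 2 := H.b
  -- the density
  have hrh : rh0 j s = rhS (hS j s) := funext fun u => rhoR_hS j s u
  rw [hrh]
  -- the function
  obtain ⟨X, hX⟩ : ∃ X : Fin (j + 1) → ℂ, X = mu1 j (I * s) := ⟨_, rfl⟩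
  obtain ⟨cT, hcT⟩ : ∃ cT : ℝ → ℂ, cT = fun τ : ℝ => Pf (I * τ) X (yq X) := ⟨_, rfl⟩
  have hXs : ∀ i, X i = I * hS j s i := fun i => by rw [hX]; exact mu1_hS j s i
  have hc1 : ∀ τ : ℝ, HasDerivAt cT (Mn (rhS (hS j s)) τ * cT τ) τ := fun τ => by
    rw [hcT]
    exact Pf_Mn hXs τ
  have hf : ∀ τ : ℝ, fxQ Fil.q j (I * s) (I * τ) = T06 (ZS6 ep j s) par6 (2 * (j + 1))
      (fun _ => PBU.PLX.cr e1 J (j + 1)) (fun _ => PBU.PLX.cr' e1 J (j + 1)) cT τ := by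
    intro τ
    rw [H.T0_eq, ZS_eq6, dN_two, hcT]
    have hre : (I * (τ : ℂ)).re = 0 := by simp
    have him : (I * (s : ℂ)).im = s := by simp
    have key := Hf j (by omega) par6 ep (4 / 3 * (1 - ep)) par6_good Pool.Agent.PLX.hI6_par6 hep hep1
      (by linarith) (by linarith) (I * s) (I * τ) (re_Is s) (by rw [him]; linarith)
      (g0L (j + 1) j (I * s)) (fun a => PHK.gF6_L (re_Is s) _ a) (by rw [hre, hl1]; linarith)
      (by rw [hre, hl1]; linarith) (fun _ => PBU.PLX.cr e1 J (j + 1)) (fun _ => PBU.PLX.cr' e1 J (j + 1))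
      (fun n _ r _ => Eventually.of_forall fun O => Hcur (j + 1) (by omega) r O)
    rw [hX]
    exact key
  -- the derivatives
  have hS' : IsOpen {z : ℂ | |z.re| < 43 / 10 * NUP1.l} :=
    isOpen_lt (continuous_abs.comp Complex.continuous_re) continuous_const
  have hd := Pool.Agent.PLX.fxQ_diff Fil.q j (ξ := I * s) (by simp; rw [hl1]; positivity)
  have hd' : DifferentiableOn ℂ (deriv (fxQ Fil.q j (I * s))) {z : ℂ | |z.re| < 43 / 10 * NUP1.l} :=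
    hd.deriv hS'
  have hmem : ∀ τ : ℝ, I * (τ : ℂ) ∈ {z : ℂ | |z.re| < 43 / 10 * NUP1.l} := fun τ => by
    show |(I * (τ : ℂ)).re| < 43 / 10 * NUP1.l
    rw [show (I * (τ : ℂ)).re = 0 by simp, abs_zero, hl1]
    positivity
  have d0 : ∀ τ : ℝ, HasDerivAt (fun τ : ℝ => I * (τ : ℂ)) I τ := fun τ => by
    simpa using (Complex.ofRealCLM.hasDerivAt (x := τ)).const_mul I
  have f1 : ∀ τ : ℝ, I * deriv (fxQ Fil.q j (I * s)) (I * τ) = T16 (ZS6 ep j s) par6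
      (2 * (j + 1)) (fun _ => PBU.PLX.cr e1 J (j + 1)) (fun _ => PBU.PLX.cr' e1 J (j + 1))
      (rhS (hS j s)) cT τ := by
    intro τ
    have a1 := ((hd.differentiableAt (hS'.mem_nhds (hmem τ))).hasDerivAt.comp_of_eq τ (d0 τ) rfl)
    have a2 := H.d1 (hc1 τ)
    have e : (fxQ Fil.q j (I * s) ∘ fun τ : ℝ => I * (τ : ℂ)) = T06 (ZS6 ep j s) par6
        (2 * (j + 1)) (fun _ => PBU.PLX.cr e1 J (j + 1)) (fun _ => PBU.PLX.cr' e1 J (j + 1)) cT :=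
      funext hf
    rw [e] at a1
    rw [← a1.unique a2, mul_comm]
  have f2 : -deriv (deriv (fxQ Fil.q j (I * s))) (I * t) = T26 (ZS6 ep j s) par6
      (2 * (j + 1)) (fun _ => PBU.PLX.cr e1 J (j + 1)) (fun _ => PBU.PLX.cr' e1 J (j + 1))
      (rhS (hS j s)) cT t := by
    have a1 := ((hd'.differentiableAt (hS'.mem_nhds (hmem t))).hasDerivAt.comp_of_eq t (d0 t)
      rfl).const_mul I
    have a2 := H.d2 (hc1 t) (hasDerivAt_Mn (hS j s) t)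
    have e : (fun τ : ℝ => I * (deriv (fxQ Fil.q j (I * s)) ∘ fun τ : ℝ => I * (τ : ℂ)) τ) =
        T16 (ZS6 ep j s) par6 (2 * (j + 1)) (fun _ => PBU.PLX.cr e1 J (j + 1))
          (fun _ => PBU.PLX.cr' e1 J (j + 1)) (rhS (hS j s)) cT := funext f1
    rw [e] at a1
    rw [← a1.unique a2]
    linear_combination (-(deriv (deriv (fxQ Fil.q j (I * s))) (I * t))) * I_mul_I
  -- the weight
  have hw : WT6 (ZS6 ep j s) par6 (2 * (j + 1)) (fun _ => PBU.PLX.cr e1 J (j + 1))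
      (fun _ => PBU.PLX.cr' e1 J (j + 1)) cT t = wS6 ep e1 J j s t := by
    unfold WT6
    rw [ZS_eq6, hcT, hX]
    rfl
  have v0 : (Vp6 (rhS (hS j s)) (eC e1 J j) (PBEI.h0T t) :
      CfN6 (2 * (j + 1)) → ℂ) = evN6 fun n => vP (rhS (hS j s)) (fun z => dl (z - t))
        ((fun _ => PBU.PLX.cr e1 J (j + 1)) n) := by
    rw [← Vp_vP6]
    exact Vp_congr6 hb fun z h1 h2 => h0T_dl h1 h2
  have v1 : (Vp6 (rhS (hS j s)) (eC e1 J j) (PBEI.g2T t) :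
      CfN6 (2 * (j + 1)) → ℂ) = evN6 fun n => vP (rhS (hS j s)) (fun z => dl2 (z - t))
        ((fun _ => PBU.PLX.cr e1 J (j + 1)) n) := by
    rw [← Vp_vP6]
    exact Vp_congr6 hb fun z h1 h2 => g2T_dl h1 h2
  -- the sizes
  have hok := ok_L6 (m := j + 1) (by omega) hs ht
  have hm0 : (0 : ℝ) < ((j + 1 : ℕ) : ℝ) := by positivity
  set A : ℝ := ((j + 1 : ℕ) : ℝ) ^ (-(3 / 8 * 2 * (1 - 4 * e1))) * ((j + 1 : ℕ) : ℝ) ^ ε *
    Real.exp (2 * |t|) with hA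
  have hA0 : 0 ≤ A := by positivity
  have hbd : famL6.bd (j + 1) ((I * s, I * t) : ℂ × ℂ) = Real.exp (2 * |t|) := by
    show Real.exp (2 * |(I * (t : ℂ)).im|) = _
    rw [show (I * (t : ℂ)).im = t by simp]
  have G0 := H0 (j + 1) (by omega) (I * s, I * t) hok (rhS (hS j s)) (DN_rhS j s)
    (fun _ => M) (fun _ => hM) (fun _ _ _ z => dl (z - t)) (fun _ _ _ z => dl (z - t))
    (fun _ _ _ => ⟨hBC t, hBC t⟩) ∅
  have G1 := H1 (j + 1) (by omega) (I * s, I * t) hok (rhS (hS j s)) (DN_rhS j s)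
    (fun _ => M) (fun _ => hM) (fun _ _ _ z => dl (z - t)) (fun _ _ _ z => dl (z - t))
    (fun _ _ _ => ⟨hBC t, hBC t⟩) {⟨0, hp⟩}
  rw [hbd] at G0 G1
  simp only [Finset.prod_empty, Finset.prod_singleton] at G0 G1
  have z0 : 3 * ((1 : ℕ).factorial : ℝ) * ((j + 1 : ℕ) : ℝ) ^ (-(3 / 8 * 2 * (1 - 4 * e1))) * 1 *
      ((j + 1 : ℕ) : ℝ) ^ ε * Real.exp (2 * |t|) = 3 * A := by
    rw [hA, Nat.factorial_one]
    push_cast
    ring
  have z1 : 3 * ((0 : ℕ).factorial : ℝ) * ((j + 1 : ℕ) : ℝ) ^ (-(3 / 8 * 2 * (1 - 4 * e1))) * M *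
      ((j + 1 : ℕ) : ℝ) ^ ε * Real.exp (2 * |t|) = 3 * M * A := by
    rw [hA, Nat.factorial_zero]
    push_cast
    ring
  rw [z0] at G0
  rw [z1] at G1
  have hZm : ∀ a k, Measurable (famL6.Z ep (j + 1) ((I * s, I * t) : ℂ × ℂ) a k) := fun a k =>
    PBFX.PLX.meas_ZL6 _ (fun a => PBU.PLX.meas_g0L _ _ (re_Is s) a) _ _ _ _ a k
  have Q1 := FS_pI6 G0
  have Q2 := FS_pI26 (D := 3 * A) (D' := 3 * M * A) (by positivity) (by positivity) hZm
    (rhS (hS j s)) (measurable_dls t) G0 G1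
  -- powers
  have hpow : A ≤ Real.exp 2 * (j : ℝ) ^ (-c) := by
    have hj : (1 : ℝ) ≤ j := by exact_mod_cast j3
    have hj1 : (1 : ℝ) ≤ ((j + 1 : ℕ) : ℝ) := by
      push_cast
      linarith
    have e1' : Real.exp (2 * |t|) ≤ Real.exp 2 := Real.exp_le_exp.2 (by linarith)
    have e2 : ((j + 1 : ℕ) : ℝ) ^ (-(3 / 8 * 2 * (1 - 4 * e1))) * ((j + 1 : ℕ) : ℝ) ^ ε ≤
        (j : ℝ) ^ (-c) := by
      rw [← Real.rpow_add hm0]
      calc ((j + 1 : ℕ) : ℝ) ^ (-(3 / 8 * 2 * (1 - 4 * e1)) + ε) ≤ ((j + 1 : ℕ) : ℝ) ^ (-c) :=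
            Real.rpow_le_rpow_of_exponent_le hj1 (by linarith)
        _ ≤ (j : ℝ) ^ (-c) := Real.rpow_le_rpow_of_nonpos (by linarith) (by
            push_cast
            linarith) (by linarith)
    rw [hA, mul_comm (Real.exp 2)]
    exact mul_le_mul e2 e1' (Real.exp_pos _).le (by positivity)
  have hjc : 0 ≤ (j : ℝ) ^ (-c) := by positivity
  have hcF : ∀ τ : ℝ, cT τ = famL6.Pf (j + 1) ((I * s, I * τ) : ℂ × ℂ) := fun τ => by
    rw [hcT, hX]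
    rfl
  constructor
  · have k := B1 H (rhS (hS j s)) cT ht (d := 3 * A) (by positivity) (by
      rw [ZS_eq6, hcF]
      exact Q1)
    rw [hw, ← f1 t] at k
    rw [v0]
    refine k.trans ?_
    calc C1 * (3 * A) ≤ C1 * (3 * (Real.exp 2 * (j : ℝ) ^ (-c))) := by gcongr
      _ ≤ (C1 + C2) * (3 * (1 + M) * Real.exp 2) * (j : ℝ) ^ (-c) := by
          have a1 : 0 ≤ Real.exp 2 * (j : ℝ) ^ (-c) := by positivity
          have a2 : C1 ≤ (C1 + C2) * (1 + M) := by nlinarith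
          calc C1 * (3 * (Real.exp 2 * (j : ℝ) ^ (-c))) =
              C1 * (3 * (Real.exp 2 * (j : ℝ) ^ (-c))) := rfl
            _ ≤ ((C1 + C2) * (1 + M)) * (3 * (Real.exp 2 * (j : ℝ) ^ (-c))) := by gcongr
            _ = _ := by ring
  · have k := B2 H (rhS (hS j s)) cT ht (d := 3 * A + 3 * M * A) (by positivity) (by
      rw [ZS_eq6, hcF]
      exact Q2)
    rw [hw, ← f2] at k
    rw [v0, v1]
    refine k.trans ?_
    calc C2 * (3 * A + 3 * M * A) = C2 * (3 * (1 + M) * A) := by ring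
      _ ≤ C2 * (3 * (1 + M) * (Real.exp 2 * (j : ℝ) ^ (-c))) := by gcongr
      _ ≤ (C1 + C2) * (3 * (1 + M) * (Real.exp 2 * (j : ℝ) ^ (-c))) := by
          gcongr
          linarith
      _ = _ := by ring

end main

end PBLg.PLX

end
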