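import Pool.Agent.PHK.Cst6
import Pool.Agent.PLX.PB.ZPos

/-!
# (P), (Z): constituents with multiplicities and legs

(P) twin of the object part of `PLX/PB/ZPos` (leg factor, `InR`, `PosOk` are the landed ones).

* `hasDerivAt_prodL6`, `hasDerivAt_sumL6`, `norm_prodL6`, `norm_prodL6_ge`, `norm_sumL6`: lists of
  signed constituents;
* `posOk_cst6`, **`posOk_csA6`**: the positions of the constituents; `cst6_im`: their heights.
-/

set_option autoImplicit false
set_option linter.unusedSectionVars false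

noncomputable section

open Complex MeasureTheory Finset Filter Topology
open scoped ENNReal

open PLX (Fil)

namespace PBLg.PLX

open PBF PBF.PLX PBFunc PBFunc.PLX NUO NUP1S NUP1S.AbC NUGC NUGC.PLX NUCR
open PBI (Stt)
open NUMF (l P)
open PHK (Cst6 Par6 GoodP6 cst6 csA6 k6 tz tz_cons posB)

/-! ### lists of signed constituents -/

/-- product of the values with the multiplicities -/
def pL6 (g : Stt) (L : List Cst6) : ℂ := (L.map fun c => ap g c.1 ^ c.2).prod

/-- sum of the values with the multiplicities -/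
def sL6 (g : Stt) (L : List Cst6) : ℂ := (L.map fun c => (c.2 : ℂ) * ap g c.1).sum

theorem pL6_nil (g : Stt) : pL6 g [] = 1 := rfl

theorem pL6_cons (g : Stt) (c : Cst6) (L : List Cst6) : pL6 g (c :: L) = ap g c.1 ^ c.2 * pL6 g L := by
  simp [pL6]

theorem sL6_nil (g : Stt) : sL6 g [] = 0 := rfl

theorem sL6_cons (g : Stt) (c : Cst6) (L : List Cst6) : sL6 g (c :: L) = (c.2 : ℂ) * ap g c.1 + sL6 g L := by
  simp [sL6]

/-- derivative of a power of a function with a logarithmic derivative -/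
theorem hasDerivAt_zp {g : ℝ → ℂ} {φ : ℂ} {τ : ℝ} (h : HasDerivAt g (-φ * g τ) τ) (h0 : g τ ≠ 0) (k : ℤ) :
    HasDerivAt (fun τ => g τ ^ k) (-((k : ℂ) * φ) * g τ ^ k) τ := by
  have h1 := (hasDerivAt_zpow k (g τ) (Or.inl h0)).comp_of_eq τ h rfl
  refine h1.congr_deriv ?_
  rw [zpow_sub_one₀ h0]
  field_simp

theorem hasDerivAt_prodL6 {L : List Cst6} {g : ℝ → Stt} {φ : Stt} {τ : ℝ}
    (h : ∀ c ∈ L, HasDerivAt (fun τ => ap (g τ) c.1) (-(ap φ c.1) * ap (g τ) c.1) τ)
    (h0 : ∀ c ∈ L, ap (g τ) c.1 ≠ 0) :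
    HasDerivAt (fun τ => pL6 (g τ) L) (-(sL6 φ L) * pL6 (g τ) L) τ := by
  induction L with
  | nil => simpa [pL6_nil, sL6_nil] using hasDerivAt_const τ (1 : ℂ)
  | cons c L ih =>
    have h1 := hasDerivAt_zp (h c List.mem_cons_self) (h0 c List.mem_cons_self) c.2
    have h2 := ih (fun d hd => h d (List.mem_cons_of_mem _ hd)) fun d hd => h0 d (List.mem_cons_of_mem _ hd)
    simp only [pL6_cons, sL6_cons]
    refine (h1.mul h2).congr_deriv ?_
    ring

theorem hasDerivAt_sumL6 {L : List Cst6} {g : ℝ → Stt} {φ : Stt} {τ : ℝ}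
    (h : ∀ c ∈ L, HasDerivAt (fun τ => ap (g τ) c.1) (-(ap φ c.1)) τ) :
    HasDerivAt (fun τ => sL6 (g τ) L) (-(sL6 φ L)) τ := by
  induction L with
  | nil => simpa [sL6_nil] using hasDerivAt_const τ (0 : ℂ)
  | cons c L ih =>
    have h1 := (h c List.mem_cons_self).const_mul (c.2 : ℂ)
    have h2 := ih fun d hd => h d (List.mem_cons_of_mem _ hd)
    simp only [sL6_cons]
    refine (h1.add h2).congr_deriv ?_
    ring

theorem zp_up {B : ℝ} (hB : 1 ≤ B) {z : ℂ} (h1 : B⁻¹ ≤ ‖z‖) (h2 : ‖z‖ ≤ B) (k : ℤ) :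
    ‖z ^ k‖ ≤ B ^ k.natAbs := by
  have hB0 : 0 < B := by linarith
  rcases le_total 0 k with hk | hk
  · obtain ⟨n, rfl⟩ := Int.eq_ofNat_of_zero_le hk
    rw [zpow_natCast, norm_pow, Int.natAbs_natCast]
    exact pow_le_pow_left₀ (norm_nonneg _) h2 n
  · obtain ⟨n, hn⟩ := Int.eq_ofNat_of_zero_le (Int.neg_nonneg_of_nonpos hk)
    have hk' : k = -(n : ℤ) := by omega
    rw [hk', zpow_neg, zpow_natCast, norm_inv, norm_pow, Int.natAbs_neg, Int.natAbs_natCast, ← inv_pow]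
    refine pow_le_pow_left₀ (inv_nonneg.2 (norm_nonneg _)) ?_ n
    calc ‖z‖⁻¹ ≤ (B⁻¹)⁻¹ := inv_anti₀ (inv_pos.2 hB0) h1
      _ = B := inv_inv B

/-- **upper bound of a product** -/
theorem norm_prodL6 {L : List Cst6} {g : Stt} {B : ℝ} (hB : 1 ≤ B)
    (h : ∀ c ∈ L, B⁻¹ ≤ ‖ap g c.1‖ ∧ ‖ap g c.1‖ ≤ B) {n : ℕ} (hn : tz L ≤ n) : ‖pL6 g L‖ ≤ B ^ n := by
  have key : ‖pL6 g L‖ ≤ B ^ tz L := by
    clear hn
    induction L with
    | nil => simp [pL6_nil, tz]
    | cons c L ih =>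
      obtain ⟨h1, h2⟩ := h c List.mem_cons_self
      rw [pL6_cons, norm_mul, tz_cons, pow_add]
      exact mul_le_mul (zp_up hB h1 h2 _) (ih fun d hd => h d (List.mem_cons_of_mem _ hd)) (norm_nonneg _)
        (by positivity)
  exact key.trans (pow_le_pow_right₀ hB hn)

/-- **lower bound of a product** -/
theorem norm_prodL6_ge {L : List Cst6} {g : Stt} {B : ℝ} (hB : 1 ≤ B)
    (h : ∀ c ∈ L, B⁻¹ ≤ ‖ap g c.1‖ ∧ ‖ap g c.1‖ ≤ B) {n : ℕ} (hn : tz L ≤ n) : (B ^ n)⁻¹ ≤ ‖pL6 g L‖ := by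
  have hB0 : 0 < B := by linarith
  have key : (B ^ tz L)⁻¹ ≤ ‖pL6 g L‖ := by
    clear hn
    induction L with
    | nil => simp [pL6_nil, tz]
    | cons c L ih =>
      obtain ⟨h1, h2⟩ := h c List.mem_cons_self
      have p0 : 0 < ‖ap g c.1‖ := lt_of_lt_of_le (inv_pos.2 hB0) h1
      have h3 : ‖(ap g c.1 ^ c.2)⁻¹‖ ≤ B ^ c.2.natAbs := by
        have h4 := zp_up hB h1 h2 (-c.2)
        rwa [zpow_neg, Int.natAbs_neg] at h4
      have h5 : (B ^ c.2.natAbs)⁻¹ ≤ ‖ap g c.1 ^ c.2‖ := by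
        rw [norm_inv] at h3
        have p1 : 0 < ‖ap g c.1 ^ c.2‖ := norm_pos_iff.2 (zpow_ne_zero _ (norm_pos_iff.1 p0))
        rw [inv_le_comm₀ (by positivity) p1]
        exact h3
      rw [pL6_cons, norm_mul, tz_cons, pow_add, mul_inv]
      exact mul_le_mul h5 (ih fun d hd => h d (List.mem_cons_of_mem _ hd)) (by positivity) (norm_nonneg _)
  exact (inv_anti₀ (by positivity) (pow_le_pow_right₀ hB hn)).trans key

/-- **upper bound of a sum** -/
theorem norm_sumL6 {L : List Cst6} {g : Stt} {B : ℝ} (hB : 0 ≤ B) (h : ∀ c ∈ L, ‖ap g c.1‖ ≤ B)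
    {n : ℕ} (hn : tz L ≤ n) : ‖sL6 g L‖ ≤ n * B := by
  have key : ‖sL6 g L‖ ≤ tz L * B := by
    clear hn
    induction L with
    | nil => simp [sL6_nil, tz]
    | cons c L ih =>
      rw [sL6_cons, tz_cons]
      refine (norm_add_le _ _).trans ?_
      have h1 := h c List.mem_cons_self
      have h2 := ih fun d hd => h d (List.mem_cons_of_mem _ hd)
      have h3 : ‖((c.2 : ℤ) : ℂ)‖ = (c.2.natAbs : ℝ) := by
        rw [Complex.norm_intCast, Nat.cast_natAbs, Int.cast_abs]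
      rw [norm_mul, h3]
      push_cast
      nlinarith [mul_le_mul_of_nonneg_left h1 (Nat.cast_nonneg (α := ℝ) c.2.natAbs)]
  have h3 : (tz L : ℝ) ≤ n := by exact_mod_cast hn
  exact key.trans (mul_le_mul_of_nonneg_right h3 hB)

theorem ne_prodL6 {L : List Cst6} {g : Stt} (h : ∀ c ∈ L, ap g c.1 ≠ 0) : pL6 g L ≠ 0 := by
  induction L with
  | nil => exact one_ne_zero
  | cons c L ih =>
    rw [pL6_cons]
    exact mul_ne_zero (zpow_ne_zero _ (h c List.mem_cons_self)) (ih fun d hd => h d (List.mem_cons_of_mem _ hd))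

/-! ### the constituents of a configuration -/

variable {Pm : Par6} {r a b : ℕ}

theorem posL_re (j t : ℝ) : (posL j t).re = (1 - j) * l := by
  unfold posL
  rw [vl_re']
  rfl

theorem posT_re (t : ℝ) : (posT t).re = -(1 / 2 * l) := by
  unfold posT
  rw [vl_re']
  rfl

theorem posS_re (e t : ℝ) : (posS e t).re = -((1 + e) * l) := by
  unfold posS
  rw [vl_re']
  rfl

theorem posB_re (e t : ℝ) : (posB e t).re = (1 - e) * l := by
  have h : (NUP1.l : ℝ) = l := rfl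
  unfold PHK.posB
  rw [add_re, posS_re]
  simp only [mul_re, re_ofNat, ofReal_re, im_ofNat, ofReal_im, mul_zero, sub_zero, h]
  ring

theorem posL_im (j t : ℝ) : (posL j t).im = t := by
  unfold posL
  rw [vl_im']

theorem posT_im (t : ℝ) : (posT t).im = t := by
  unfold posT
  rw [vl_im']

theorem posS_im (e t : ℝ) : (posS e t).im = t := by
  unfold posS
  rw [vl_im']

theorem posB_im (e t : ℝ) : (posB e t).im = t := by
  unfold PHK.posB
  rw [add_im, posS_im]
  simp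

/-- the range of the parameters that is used here -/
theorem GoodP6.rg {P : Par6} (h : GoodP6 P) : 0 ≤ P.j1 ∧ P.j1 ≤ 1 ∧ 0 ≤ P.j2 ∧ P.j2 ≤ 1 ∧ 0 ≤ P.e ∧ P.e ≤ 3 / 5 ∧
    2 ≤ P.jL ∧ P.jL ≤ 3 := by
  have h1 := h.j1
  have h2 := h.j1e
  have h3 := h.ej2
  have h4 := h.j2
  have h5 := h.e48
  have h6 := h.L2
  have h7 := h.Lj
  refine ⟨?_, ?_, ?_, ?_, ?_, ?_, ?_, ?_⟩ <;> linarith

/-- the constituents of an object -/
theorem posOk_cst6 (hP : GoodP6 Pm) (x : Xo) : ∀ c ∈ cst6 Pm x, PosOk c.1 := by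
  have hl := NUMF.l_pos
  obtain ⟨a1, a2, a3, a4, a5, a6, a7, a8⟩ := GoodP6.rg hP
  have hj : ∀ j t, 0 ≤ j → j ≤ 3 → InR (posL j t) := by
    intro j t h1 h2
    constructor <;> rw [posL_re] <;> nlinarith
  have hB : InR (posB Pm.e (ht x)) := by
    constructor <;> rw [posB_re] <;> nlinarith
  have hSok := str_ok (v := posS Pm.e (ht x)) (by rw [posS_re]; nlinarith) (by rw [posS_re]; nlinarith)
  have hTok := str_ok (v := posT (ht x)) (by rw [posT_re]; linarith) (by rw [posT_re]; linarith)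
  intro c hc
  rcases hk : k6 x with _ | _ | _ | _ | _ | _
  · rw [PHK.cst6_L Pm hk, List.mem_singleton] at hc
    subst hc
    exact ⟨hj _ _ (by linarith) a8, fun h => h.elim⟩
  · rw [PHK.cst6_T Pm hk, List.mem_singleton] at hc
    subst hc
    exact ⟨hTok.1, fun _ => hTok.2⟩
  · rw [PHK.cst6_E Pm hk] at hc
    simp only [List.mem_cons, List.not_mem_nil, or_false] at hc
    rcases hc with rfl | rfl
    · exact ⟨hSok.1, fun _ => hSok.2⟩
    · exact ⟨hB, fun h => h.elim⟩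
  · rw [PHK.cst6_F Pm hk] at hc
    simp only [List.mem_cons, List.not_mem_nil, or_false] at hc
    rcases hc with rfl | rfl | rfl
    · exact ⟨hSok.1, fun _ => hSok.2⟩
    · exact ⟨hB, fun h => h.elim⟩
    · exact ⟨hB, fun h => h.elim⟩
  · rw [PHK.cst6_H1 Pm hk, List.mem_singleton] at hc
    subst hc
    exact ⟨hj _ _ a1 (by linarith), fun h => h.elim⟩
  · rw [PHK.cst6_H2 Pm hk, List.mem_singleton] at hc
    subst hc
    exact ⟨hj _ _ a3 (by linarith), fun h => h.elim⟩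

/-- all constituents of an object have its height -/
theorem cst6_im (P : Par6) (x : Xo) : ∀ c ∈ cst6 P x, c.1.2.im = ht x := by
  intro c hc
  rcases hk : k6 x with _ | _ | _ | _ | _ | _
  · rw [PHK.cst6_L P hk, List.mem_singleton] at hc
    subst hc
    exact posL_im _ _
  · rw [PHK.cst6_T P hk, List.mem_singleton] at hc
    subst hc
    exact posT_im _
  · rw [PHK.cst6_E P hk] at hc
    simp only [List.mem_cons, List.not_mem_nil, or_false] at hc
    rcases hc with rfl | rfl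
    · exact posS_im _ _
    · exact posB_im _ _
  · rw [PHK.cst6_F P hk] at hc
    simp only [List.mem_cons, List.not_mem_nil, or_false] at hc
    rcases hc with rfl | rfl | rfl
    · exact posS_im _ _
    · exact posB_im _ _
    · exact posB_im _ _
  · rw [PHK.cst6_H1 P hk, List.mem_singleton] at hc
    subst hc
    exact posL_im _ _
  · rw [PHK.cst6_H2 P hk, List.mem_singleton] at hc
    subst hc
    exact posL_im _ _

variable [Fil]

/-- **the constituents of a configuration** -/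
theorem posOk_csA6 (hP : GoodP6 Pm) {η : ℝ → ℝ} (hη : ∀ t, |η t| ≤ l / 2) (O : Fin r → Xo)
    (x : (Fin a → ℝ) × (Fin b → ℝ)) : ∀ c ∈ csA6 Pm η O x, PosOk c.1 := by
  intro c hc
  rcases PHK.mem_csA6.1 hc with ⟨i, hi⟩ | ⟨i, rfl⟩ | ⟨i, rfl⟩
  · exact posOk_cst6 hP _ c hi
  · exact ⟨InR_pA (fun t => Fil.abs_cv_le_of (hη t)) _, fun h => h.elim⟩
  · exact ⟨InR_pA (fun t => Fil.abs_cv_le_of (hη t)) _, fun h => h.elim⟩

end PBLg.PLX

end
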