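import Pool.Agent.PHK.ZcB6
import Pool.Agent.PHK.CutEps6
import Pool.Agent.PLX.PB.ZcB2

/-!
# (P): the cut term at the rows `x ^ q, 0 ^ A`: the hypotheses of the cut estimate

* `diff_RRU_pt`, `diff_DR`, `diff_DS6`, `diff_DT6` : regularity;
* `zc6_T_dec`: the cut term of `T` decays;
* **`zcOk6_X`**: `ZcOk6` for the one body functions and the cut term from `CutH6`.
-/

set_option autoImplicit false
set_option linter.unusedVariables false
set_option linter.unusedSectionVars false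

noncomputable section

open Complex Set

namespace PBC.PLX

open NUP1 NUP1S.AbC NURow NUO NUGC NUGC.PLX PBX PBX.PLX
open NUP1S hiding R0
open PBFar hiding W0 phi_W0 phi_R0 phi_le phi_ge phi_le_R phi_ge_R vI DW DR hasDerivAt_W hasDerivAt_R
  CW trW far_W far_W_prod trR far_R_prod far_R_tr norm_vI_le cutT DT hasDerivAt_T
  eMF eMF_pos prods DT_eq far_T_form far_T_all exact_rows far_R0 far_R0_prod Ep_row
open PBFar.PLX
open PHK (om omA pP phO gO Par6 GoodP6 diff_omA loB hiB)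
open PBI.PLX (ZcOk6)
open _root_.PLX (Fil)
open _root_.Pool.Agent.PLX (XXU RRU TTU rwq)

/-! ## regularity -/

section reg
variable {m M : ℕ}

theorem diff_RRU_pt (c : ℂ) {x : Fin m → ℂ} {y : Fin M → ℂ} {z : ℂ} (hN : ∀ i, NP (z - x i).re) :
    DifferentiableAt ℂ (RRU c x y) z := by
  unfold Pool.Agent.PLX.RRU
  have d1 := DifferentiableAt.fun_finsetProd (𝕜 := ℂ) (u := Finset.univ)
    (f := fun (i : Fin m) s => 1 / sin (s - x i)) (x := z) (fun i _ => by
      have h0 : sin (z - x i) ≠ 0 := Bd.sin_ne_zero_of_re (hN i).1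
      fun_prop (disch := exact h0))
  have d2 := DifferentiableAt.fun_finsetProd (𝕜 := ℂ) (u := Finset.univ)
    (f := fun (i : Fin m) s => 1 / sin (s - x i - 2 * l)) (x := z) (fun i _ => by
      have h0 : sin (z - x i - 2 * l) ≠ 0 := Bd.sin_ne_zero_of_re (by
        have := (hN i).2
        simpa using this)
      fun_prop (disch := exact h0))
  have d3 := DifferentiableAt.fun_finsetProd (𝕜 := ℂ) (u := Finset.univ)
    (f := fun (i : Fin M) s => sin (s - y i + 3 * l) ^ 2) (x := z) (fun i _ => by fun_prop)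
  exact (((differentiableAt_const c).mul d1).mul d2).mul d3

variable {q a : ℕ} {x v : ℂ} {T1 : ℝ} {X : ℂ → ℂ}

theorem diff_DR (hx : |x.re| ≤ l / 2) {u : ℂ} (hX : DifferentiableAt ℂ X u)
    (hu : |u.re + l / 2| ≤ l) : DifferentiableAt ℂ (fun u => DR q (4 / 3) a x v (X u) u) u := by
  have hl := Bd.l_pos
  unfold PBFar.PLX.DR
  exact diff_Dph0 hX (den_ne' hyp_43.wide (hu.trans (by linarith))) fun i =>
    den_ne' hyp_43.wide (re_pt hyp_43 hu hx)

theorem diff_DS6 (hx : |x.re| ≤ l / 2) {u : ℂ} (hX : DifferentiableAt ℂ X u)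
    (hu : |u.re + l / 2| ≤ l) (hK : u.re ∈ KK) :
    DifferentiableAt ℂ (fun u => DS6 q a x v T1 (X u) u) u := by
  have hP : DifferentiableAt ℂ (pP (R0 q a x)) u := (PHK.gOk_pP (re_R0 hx)).diff u hK
  have hφ : DifferentiableAt ℂ (NUP1.phi (4 / 3) (R0 q a x)) u := by
    have e : NUP1.phi (4 / 3) (R0 q a x) = fun u => 1 - pP (R0 q a x) u := by
      funext u
      exact PHK.phi_pP _ _
    rw [e]
    exact hP.const_sub 1
  have ho : DifferentiableAt ℂ (om T1 (pP (R0 q a x))) u := by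
    unfold PHK.om
    exact (((diff_omA T1) u).mul hP).neg.cexp
  unfold DS6
  exact (diff_DR hx hX hu).mul (ho.mul ((((diff_omA T1) u).mul hφ).const_add 1))

theorem diff_DT6 {b s : ℝ} {ξe : ℝ → ℂ} (hH : Hyp b s) (hx : |x.re| ≤ l / 2) {u : ℂ}
    (hX : DifferentiableAt ℂ X u) (hu : |u.re + l / 2| ≤ l) (hus : |u.re + l / 2| ≤ s)
    (hul : |(u - l).re + l / 2| ≤ s) (hK : u.re ∈ KK) :
    DifferentiableAt ℂ (fun u => DT6 q b a x v ξe T1 (X u) u) u := by
  have hl := Bd.l_pos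
  have h1 : DifferentiableAt ℂ (fun u => DW q b a x v ξe (X u) u) u := DW_diff hH hx hX hus
  have h2 : DifferentiableAt ℂ (fun u => DW q b a x v ξe (X u) (u - l)) u := by
    have hX' : DifferentiableAt ℂ (fun z => X (z + l)) (u - l) := by
      have hX2 : DifferentiableAt ℂ X ((u - l) + l) := by rwa [sub_add_cancel]
      exact hX2.comp (u - l) (differentiableAt_id.add_const _)
    have h3 := (DW_diff (q := q) (k := a) (v := v) (ξe := ξe) hH hx hX' hul).comp u
      ((differentiableAt_id (𝕜 := ℂ) (E := ℂ)).sub_const (l : ℂ))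
    refine h3.congr_of_eventuallyEq (Filter.Eventually.of_forall fun z => ?_)
    simp
  have e : NUP1.phi b (W0 q a x PBFar.wE) = fun u => 1 - gP b (W0 q a x PBFar.wE) u := rfl
  have hre : ∀ w ∈ W0 q a x PBFar.wE, |w.re| ≤ l / 2 := by
    intro w hw
    rcases List.mem_append.1 hw with h | h
    · exact re_R0 hx w h
    · simp only [List.mem_cons, List.not_mem_nil, or_false] at h
      rcases h with rfl | rfl <;> simp [PBFar.wE] <;> positivity
  have hd : ∀ z : ℂ, |z.re + l / 2| ≤ s → DifferentiableAt ℂ (NUP1.phi b (W0 q a x PBFar.wE)) z := by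
    intro z hz
    rw [e]
    refine DifferentiableAt.const_sub ?_ 1
    unfold PBX.gP
    have key : ∀ L : List ℂ, (∀ w ∈ L, |w.re| ≤ l / 2) →
        DifferentiableAt ℂ (fun u => (L.map fun w => psi b (u - w)).prod) z := by
      intro L hL
      induction L with
      | nil => simp
      | cons w L ih =>
        simp only [List.map_cons, List.prod_cons]
        refine DifferentiableAt.mul ?_ (ih fun w hw => hL w (List.mem_cons_of_mem _ hw))
        exact (diff_psi (den_ne' hH.wide (re_pt hH hz (hL w List.mem_cons_self)))).comp z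
          (differentiableAt_id.sub_const _)
    exact key _ hre
  have h5 : DifferentiableAt ℂ (fun u => NUP1.phi b (W0 q a x PBFar.wE) (u - l)) u := by
    have h6 := DifferentiableAt.comp (f := fun u : ℂ => u - (l : ℂ)) u (hd (u - l) hul)
      (differentiableAt_id.sub_const (l : ℂ))
    exact h6
  unfold DT6
  exact ((h1.mul h5).add ((hd u hus).mul h2)).sub (diff_DS6 hx hX hu hK)

end reg

variable [Fil] {m : ℕ} {x : Fin m → ℂ} {c : Bool → ℂ}

/-- the cut term of `T` decays -/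
theorem zc6_T_dec {qa nz : Bool → ℕ} {b : ℝ} {x0 v : ℂ} {ξe : ℝ → ℂ} {T1 : ℝ} {X : ℂ → ℂ} {cc δ : ℝ}
    {M : Bool → ℝ → ℝ} {s1 s2 : Bool → ℂ → ℂ} {h0 : ℝ} (hx : ∀ i, PBO.PtZ h0 (x i))
    {S2 : ℝ} (hS2 : ∀ a t, ‖s2 a (posT t)‖ ≤ S2) {D0 κ : ℝ}
    (hM : ∀ a t, M a t ≤ D0 * Real.exp (-(κ * |t|))) (h : CutH6 b qa nz x0 v ξe T1 X cc M δ) :
    ∃ D : ℝ, ∀ (a : Bool) (t : ℝ),
      ‖ZcF6 c (rwq x) qa b nz x0 v ξe T1 X s1 s2 a (some .T) (posT t)‖ ≤
      D * Real.exp (-((κ + 2 * (-(Fil.xn m : ℝ)) * sc (a, .S)) * |t|)) := by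
  have hl := Bd.l_pos
  obtain ⟨D1, hD1, H⟩ := norm_RRU_T c hx
  have hS0 : 0 ≤ S2 := (norm_nonneg _).trans (hS2 true 0)
  have hD0 : 0 ≤ D0 := by
    have := (h.M0 true 0).trans (hM true 0)
    simpa using this
  refine ⟨D1 * D1 * S2 * D0, fun a t => ?_⟩
  have r1 : (posT t).re = -(1 / 2 * l) := posT_re t
  have r2 : (posT t - l).re = -(3 / 2 * l) := by
    rw [sub_re, r1, ofReal_re]
    ring
  have i2 : (posT t - l).im = t := by rw [sub_im, posT_im, ofReal_im, sub_zero]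
  have a1 := H a (posT t) (by rw [r1]; linarith) (by rw [r1])
  have a2 := H a (posT t - l) (by rw [r2]) (by rw [r2]; linarith)
  rw [posT_im] at a1
  rw [i2] at a2
  show ‖RRU (c a) (rwq x a) (rwq x !a) (posT t) * RRU (c a) (rwq x a) (rwq x !a) (posT t - l) *
    DT6 (qa a) b (nz a) x0 v ξe T1 (X (posT t + 2 * l)) (posT t) * s2 a (posT t)‖ ≤ _
  rw [norm_mul, norm_mul, norm_mul]
  have hT := (h.T a t).trans (hM a t)
  have hs := hS2 a t
  have scS : sc (a, .S) = 2 * sc (a, .A) := Pool.Agent.PLX.sc_S a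
  have ee : Real.exp (2 * (Fil.xn m : ℝ) * sc (a, .A) * |t|) *
      Real.exp (2 * (Fil.xn m : ℝ) * sc (a, .A) * |t|) * Real.exp (-(κ * |t|)) =
      Real.exp (-((κ + 2 * (-(Fil.xn m : ℝ)) * sc (a, .S)) * |t|)) := by
    rw [← Real.exp_add, ← Real.exp_add, scS]
    congr 1
    ring
  calc _ ≤ (D1 * Real.exp (2 * (Fil.xn m : ℝ) * sc (a, .A) * |t|)) *
        (D1 * Real.exp (2 * (Fil.xn m : ℝ) * sc (a, .A) * |t|)) *
        (D0 * Real.exp (-(κ * |t|))) * S2 := by
        gcongr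
    _ = D1 * D1 * S2 * D0 * (Real.exp (2 * (Fil.xn m : ℝ) * sc (a, .A) * |t|) *
      Real.exp (2 * (Fil.xn m : ℝ) * sc (a, .A) * |t|) * Real.exp (-(κ * |t|))) := by ring
    _ = _ := by rw [ee]

/-- **the hypotheses of the cut estimate** -/
theorem zcOk6_X {P : Par6} {qa nz : Bool → ℕ} {k : ℕ} {b : ℝ} {x0 v : ℂ} {ξe : ℝ → ℂ} {T1 : ℝ}
    {X : ℂ → ℂ} {cc δ : ℝ} {M : Bool → ℝ → ℝ} {s1 s2 : Bool → ℂ → ℂ} {h0 s : ℝ} (hP : GoodP6 P)
    (hj : P.jL ≤ 9 / 4) (hδ0 : 0 ≤ δ) (hδ : δ ≤ 1 / 20) (hH : Hyp b s) (hs : (3 / 2 + δ) * l ≤ s)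
    (hr : ∀ i, |(x i).re| ≤ l / 10) (hx : ∀ i, PBO.PtZ h0 (x i)) (hx0 : |x0.re| ≤ l / 2)
    (hy : RwP (rwq x) qa nz x0) {C0 : ℝ} (hF : FlX6 k C0 X ξe)
    (hm1 : ∀ a, Measurable (s1 a)) (hm2 : ∀ a, Measurable (s2 a))
    (hd : ∀ a (u : ℂ), 99 / 800 * l ≤ u.re → u.re ≤ (1 + δ) * l → DifferentiableAt ℂ (s1 a) u)
    (hdL : ∀ a (u : ℂ), -(5 / 4 * l) ≤ u.re → u.re ≤ -l → DifferentiableAt ℂ (s1 a) u)
    (hd2 : ∀ a (u : ℂ), -(29 / 20 * l) ≤ u.re → u.re ≤ -(1 / 2 * l) → DifferentiableAt ℂ (s2 a) u)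
    {S2 : ℝ} (hS2 : ∀ a t, ‖s2 a (posT t)‖ ≤ S2) {D0 κ : ℝ}
    (hM : ∀ a t, M a t ≤ D0 * Real.exp (-(κ * |t|))) (h : CutH6 b qa nz x0 v ξe T1 X cc M δ) :
    ZcOk6 (XXF6 c b (rwq x) T1 s1 s2) (ZcF6 c (rwq x) qa b nz x0 v ξe T1 X s1 s2) P κ δ cc
      (-(Fil.xn m : ℤ)) := by
  have hl := Bd.l_pos
  have hrq : ∀ (a : Bool) i, |(rwq x a i).re| ≤ l / 10 := fun a i =>
    Pool.Agent.PLX.forall_rwq (P := fun w : ℂ => |w.re| ≤ l / 10) hr a i
  have e1 := hP.e13
  have e2 := hP.e45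
  have j1 := hP.L2
  have hs0 : 3 / 2 * l ≤ s := le_trans (by nlinarith) hs
  -- the row factors
  have dR : ∀ (a : Bool) (u : ℂ), 99 / 800 * l ≤ u.re → u.re ≤ (1 + δ) * l →
      DifferentiableAt ℂ (RRU (c a) (rwq x a) (rwq x !a)) u := by
    intro a u u1 u2
    refine diff_RRU_pt (c a) fun i => ?_
    obtain ⟨r1, r2⟩ := abs_le.1 (hrq a i)
    rw [sub_re]
    exact NP_pos (by linarith) (by nlinarith)
  have dRn : ∀ (a : Bool) (u : ℂ), -(5 / 2 * l) ≤ u.re → u.re ≤ -(1 / 2 * l) →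
      DifferentiableAt ℂ (RRU (c a) (rwq x a) (rwq x !a)) u := by
    intro a u u1 u2
    refine diff_RRU_pt (c a) fun i => ?_
    obtain ⟨r1, r2⟩ := abs_le.1 (hrq a i)
    rw [sub_re]
    exact NP_neg (by linarith) (by linarith)
  have dRl : ∀ (a : Bool) (u : ℂ), -(3 / 2 * l) ≤ u.re → u.re ≤ -(1 / 2 * l) →
      DifferentiableAt ℂ (fun u => RRU (c a) (rwq x a) (rwq x !a) (u - l)) u := by
    intro a u u1 u2
    refine DifferentiableAt.comp u (dRn a (u - l) ?_ ?_) (differentiableAt_id.sub_const _)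
    · rw [sub_re, ofReal_re]
      linarith
    · rw [sub_re, ofReal_re]
      linarith
  have dX2 : ∀ u : ℂ, -(17 / 9 * l) ≤ u.re → u.re ≤ -(9 / 20 * l) →
      DifferentiableAt ℂ (fun u => X (u + 2 * l)) u := by
    intro u u1 u2
    have hre : (u + 2 * l).re = u.re + 2 * l := by simp
    exact DifferentiableAt.comp u (hF.df (u + 2 * l) (by rw [hre]; linarith) (by rw [hre]; linarith))
      (differentiableAt_id.add_const _)
  refine ⟨fun a o => zc6_meas hF.me hm1 hm2 a o, fun a u u1 u2 => ?_, fun a u u1 u2 => ?_,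
    fun a o u hu => ?_, fun a u hu => ?_, fun a u hu => ?_, fun a => ?_⟩
  · have h4 : DifferentiableAt ℂ (fun u => DW (qa a) b (nz a) x0 v ξe (X u) u) u :=
      DW_diff hH hx0 (hF.df u (by linarith) (by nlinarith)) (by
        rw [abs_of_pos (by linarith)]
        nlinarith)
    exact ((dR a u u1 u2).mul h4).mul (hd a u u1 u2)
  · exact zc6_A hy h a (by linarith) u2
  · rcases o with _ | _ | _
    · -- `L`
      have h1 : -(5 / 4 * l) ≤ u.re := hu.1
      have h2 : u.re ≤ (1 - P.jL) * l := hu.2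
      have h3 : u.re ≤ -l := h2.trans (by nlinarith)
      have h4 : DifferentiableAt ℂ (fun u => DW (qa a) b (nz a) x0 v ξe (X (u + 2 * l)) u) u :=
        DW_diff (X := fun u => X (u + 2 * l)) hH hx0 (dX2 u (by linarith) (by linarith)) (by
          rw [abs_le]
          constructor <;> linarith)
      exact ((dRn a u (by linarith) (by linarith)).mul h4).mul (hdL a u h1 h3)
    · -- `S`
      have h1 : -((1 + P.e) * l) ≤ u.re := hu.1
      have h2 : u.re ≤ -(5 / 4 * l) := hu.2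
      have h1' : -(29 / 20 * l) ≤ u.re := le_trans (by nlinarith) h1
      have h4 : DifferentiableAt ℂ (fun u => DS6 (qa a) (nz a) x0 v T1 (X (u + 2 * l)) u) u :=
        diff_DS6 (X := fun u => X (u + 2 * l)) hx0 (dX2 u (by linarith) (by linarith)) (by
          rw [abs_le]
          constructor <;> linarith) ⟨by linarith, by linarith⟩
      exact (((dRn a u (by linarith) (by linarith)).mul (dRl a u (by linarith) (by linarith))).mul
        h4).mul (hd2 a u h1' (by linarith))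
    · -- `T`
      have h1 : -(1 / 2 * l) ≤ u.re := hu.1
      have h2 : u.re ≤ -(1 / 2 * l) := hu.2
      have h3 : u.re = -(1 / 2 * l) := le_antisymm h2 h1
      have hul : (u - l).re = -(3 / 2 * l) := by
        rw [sub_re, ofReal_re, h3]
        ring
      have h4 : DifferentiableAt ℂ (fun u => DT6 (qa a) b (nz a) x0 v ξe T1 (X (u + 2 * l)) u) u :=
        diff_DT6 (X := fun u => X (u + 2 * l)) hH hx0 (dX2 u (by linarith) (by linarith))
          (by rw [h3, show -(1 / 2 * l) + l / 2 = 0 by ring, abs_zero]; exact hl.le)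
          (by rw [h3, show -(1 / 2 * l) + l / 2 = 0 by ring, abs_zero]; linarith)
          (by
            rw [hul, show -(3 / 2 * l) + l / 2 = -l by ring, abs_neg, abs_of_pos hl]
            linarith) ⟨by linarith, by linarith⟩
      exact (((dRn a u (by linarith) h2).mul (dRl a u (by linarith) h2)).mul
        h4).mul (hd2 a u (by linarith) h2)
  · have h1 : -(5 / 4 * l) ≤ u.re := hu.1
    have h2 : u.re ≤ (1 - P.jL) * l := hu.2
    exact zc6_L hy h a (by linarith) (h2.trans (by nlinarith))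
  · have h1 : -((1 + P.e) * l) ≤ u.re := hu.1
    have h2 : u.re ≤ -(5 / 4 * l) := hu.2
    exact zc6_S hy h a (le_trans (by nlinarith) h1) (by linarith)
  · obtain ⟨D, hD⟩ := zc6_T_dec (c := c) (s1 := s1) hx hS2 hM h
    refine ⟨D, fun u hu => ?_⟩
    have hu' : u.re = -(1 / 2 * l) := hu
    have e : u = posT u.im := by
      apply Complex.ext
      · rw [hu', posT_re]
      · rw [posT_im]
    have key := hD a u.im
    rw [← e] at key
    push_cast
    exact key

end PBC.PLX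

end
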